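import Pool.Statements.S00004
import Pool.Agent.H78.EllHom
import Pool.Agent.H78.TransBridge

set_option autoImplicit false
open AlgebraicGeometry CategoryTheory
open Pool Pool.MP_00f3b1_ag

namespace Pool.Agent.S00004

/-- The negation of the preceding statement: Over an algebraically closed field of characteristic 0: an integral quasi-affine variety of dimension ≥2, homogeneous under its automorphisms and with only constant units, has automorphism group acting m-transitively on points for every m. -/
theorem result :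
    ¬ (∀ (K : Type) [Field K] [IsAlgClosed K] [CharZero K]
      (X : Scheme.{0}) (f : X ⟶ Spec (CommRingCat.of K)),
      IsIntegral X → LocallyOfFiniteType f → QuasiCompact f →
      IsOpenImmersion X.toSpecΓ →
      (2 : WithBot ℕ∞) ≤ topologicalKrullDim X →
      (∀ u : (Γ(X, ⊤))ˣ, ∃ c : K,
        ((Scheme.ΓSpecIso (CommRingCat.of K)).inv ≫ f.appTop).hom c = (u : Γ(X, ⊤))) →
      (∀ p q : {p : Spec (CommRingCat.of K) ⟶ X // p ≫ f = 𝟙 _},
        ∃ g : X ≅ X, g.hom ≫ f = f ∧ p.1 ≫ g.hom = q.1) →
      ∀ (m : ℕ) (p q : Fin m → {p : Spec (CommRingCat.of K) ⟶ X // p ≫ f = 𝟙 _}),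
        Function.Injective p → Function.Injective q →
        ∃ g : X ≅ X, g.hom ≫ f = f ∧ ∀ i, (p i).1 ≫ g.hom = (q i).1) := by
  haveI := Pool.Agent.H78.Ell.isDomain (K := ℂ)
  obtain ⟨p, q, hp, hq, hn⟩ := Pool.Agent.H78.Ell.not_two (K := ℂ)
  exact Pool.Agent.H78.TransBridge.neg_of ℂ _ Pool.Agent.H78.Ell.dim_ge
    Pool.Agent.H78.Ell.units_const Pool.Agent.H78.Ell.transitive p q hp hq hn

end Pool.Agent.S00004
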