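import Pool.Statements.S00046
import Pool.Agent.H80.Fewnomial

set_option autoImplicit false
open Pool Pool.MP_172a5c_ag

namespace Pool.Agent.S00046

open MvPolynomial Pool.Agent.H80.Fewnomial

/-- the monomial x^a y^b -/
noncomputable def mon (a b : ℕ) (c : ℝ) : MvPolynomial (Fin 2) ℝ :=
  monomial (Finsupp.single 0 a + Finsupp.single 1 b) c

theorem mon_eq (a b : ℕ) (c : ℝ) : mon a b c = C c * X 0 ^ a * X 1 ^ b := by
  rw [mon, X_pow_eq_monomial, X_pow_eq_monomial, C_apply, monomial_mul, monomial_mul]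
  simp

theorem mon_card (a b : ℕ) (c : ℝ) : (mon a b c).support.card ≤ 1 :=
  (Finset.card_le_card support_monomial_subset).trans (by simp)

theorem add_card (p q : MvPolynomial (Fin 2) ℝ) (m n : ℕ) (hp : p.support.card ≤ m)
    (hq : q.support.card ≤ n) : (p + q).support.card ≤ m + n :=
  (Finset.card_le_card support_add).trans ((Finset.card_union_le _ _).trans (Nat.add_le_add hp hq))

/-- a signed number -/
def sg (b : Bool) (x : ℝ) : ℝ := if b then -x else x

theorem sg_inj {b c : Bool} {x y : ℝ} (hx : 0 < x) (hy : 0 < y) (h : sg b x = sg c y) :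
    b = c ∧ x = y := by
  cases b <;> cases c <;> simp only [sg, if_true, if_false, Bool.false_eq_true] at h
  · exact ⟨rfl, h⟩
  · exfalso; linarith
  · exfalso; linarith
  · exact ⟨rfl, by linarith⟩

theorem sg_ne {b : Bool} {x : ℝ} (hx : 0 < x) : sg b x ≠ 0 := by
  cases b <;> simp [sg, hx.ne']

theorem sol_sg {δ x y : ℝ} (h : Sol δ x y) (b c : Bool) : Sol δ (sg b x) (sg c y) := by
  cases b <;> cases c
  · exact h
  · exact h.negy
  · exact h.negx
  · exact h.negx.negy

theorem sg_zero (b : Bool) : sg b 0 = 0 := by cases b <;> simp [sg]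

/-- The negation of the preceding statement: Any real system f(x,y)=g(x,y)=0, with f having m₁ and g having m₂ monomials, has at most (2m₁−1)(2m₂−1) real solutions with nonzero Jacobian, and this number is attained for all m₁, m₂ ≥ 1. -/
theorem result :
    ¬ ((∀ (f g : MvPolynomial (Fin 2) ℝ) (S : Finset (Fin 2 → ℝ)),
      (∀ p ∈ S, MvPolynomial.eval p f = 0 ∧ MvPolynomial.eval p g = 0 ∧
        MvPolynomial.eval p (MvPolynomial.pderiv 0 f) * MvPolynomial.eval p (MvPolynomial.pderiv 1 g) -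
          MvPolynomial.eval p (MvPolynomial.pderiv 1 f) * MvPolynomial.eval p (MvPolynomial.pderiv 0 g) ≠ 0) →
      S.card ≤ (2 * f.support.card - 1) * (2 * g.support.card - 1)) ∧
    (∀ m₁ m₂ : ℕ, 1 ≤ m₁ → 1 ≤ m₂ →
      ∃ f g : MvPolynomial (Fin 2) ℝ, f.support.card = m₁ ∧ g.support.card = m₂ ∧
        ∃ S : Finset (Fin 2 → ℝ), S.card = (2 * m₁ - 1) * (2 * m₂ - 1) ∧
          ∀ p ∈ S, MvPolynomial.eval p f = 0 ∧ MvPolynomial.eval p g = 0 ∧
            MvPolynomial.eval p (MvPolynomial.pderiv 0 f) * MvPolynomial.eval p (MvPolynomial.pderiv 1 g) -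
              MvPolynomial.eval p (MvPolynomial.pderiv 1 f) * MvPolynomial.eval p (MvPolynomial.pderiv 0 g) ≠ 0)) := by
  rintro ⟨H, -⟩
  classical
  obtain ⟨δ, hδ, r, hr, hroot⟩ := roots
  let e : (Fin 8 × Bool × Bool) ⊕ (Bool ⊕ Bool) → (Fin 2 → ℝ) :=
    Sum.elim (fun p => ![sg p.2.1 (r p.1), sg p.2.2 (Y (r p.1))])
      (Sum.elim (fun b => ![sg b 1, 0]) (fun b => ![0, sg b 1]))
  have hY : ∀ i, 0 < Y (r i) := fun i => Y_pos (hroot i).1.le (hroot i).2.1
  have hinj : Function.Injective e := by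
    rintro (⟨i, s, t⟩ | s | s) (⟨j, s', t'⟩ | s' | s') h <;>
      have h0 := congrFun h 0 <;> have h1 := congrFun h 1 <;>
      simp only [e, Sum.elim_inl, Sum.elim_inr, Matrix.cons_val_zero, Matrix.cons_val_one] at h0 h1
    · obtain ⟨rfl, h2⟩ := sg_inj (hroot i).1 (hroot j).1 h0
      obtain ⟨rfl, -⟩ := sg_inj (hY i) (hY j) h1
      rw [hr.injective h2]
    · exact absurd h1 (sg_ne (hY i))
    · exact absurd h0 (sg_ne (hroot i).1)
    · exact absurd h1.symm (sg_ne (hY j))
    · rw [(sg_inj one_pos one_pos h0).1]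
    · exact absurd h0 (sg_ne one_pos)
    · exact absurd h0.symm (sg_ne (hroot j).1)
    · exact absurd h1 (sg_ne one_pos)
    · rw [(sg_inj one_pos one_pos h1).1]
  have hsol : ∀ k, Sol δ (e k 0) (e k 1) := by
    rintro (⟨i, s, t⟩ | s | s)
    · exact sol_sg (sol_root (hroot i).1 (hroot i).2.1 (hroot i).2.2.1 (hroot i).2.2.2) s t
    · exact sol_sg (sol_axis_x hδ) s false
    · exact sol_sg (sol_axis_y hδ) false s
  have key := H (mon 46 0 1 + mon 0 46 1 + mon 0 0 (-1))
    (mon 3 9 1 + mon 9 3 1 + mon 7 7 (-(3169 / 2000)) + mon 1 1 (-δ)) (Finset.univ.image e) (by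
      intro p hp
      obtain ⟨k, -, rfl⟩ := Finset.mem_image.1 hp
      obtain ⟨h1, h2, h3⟩ := hsol k
      generalize e k = p at h1 h2 h3
      refine ⟨?_, ?_, fun h => h3 ?_⟩
      · simp only [mon_eq, map_add, map_mul, map_pow, eval_C, eval_X]
        linear_combination h1
      · simp only [mon_eq, map_add, map_mul, map_pow, eval_C, eval_X]
        linear_combination h2
      · simp [mon_eq, Derivation.leibniz, Derivation.leibniz_pow, pderiv_X] at h
        linear_combination h)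
  have c1 := add_card _ _ _ _ (add_card _ _ _ _ (mon_card 46 0 1) (mon_card 0 46 1))
    (mon_card 0 0 (-1))
  have c2 := add_card _ _ _ _ (add_card _ _ _ _ (add_card _ _ _ _ (mon_card 3 9 1) (mon_card 9 3 1))
    (mon_card 7 7 (-(3169 / 2000)))) (mon_card 1 1 (-δ))
  rw [Finset.card_image_of_injective _ hinj] at key
  have c3 := Nat.mul_le_mul (show 2 * (mon 46 0 1 + mon 0 46 1 + mon 0 0 (-1)).support.card - 1 ≤ 5
    by omega) (show 2 * (mon 3 9 1 + mon 9 3 1 + mon 7 7 (-(3169 / 2000)) +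
      mon 1 1 (-δ)).support.card - 1 ≤ 7 by omega)
  have c4 := key.trans c3
  simp at c4

end Pool.Agent.S00046
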