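import Pool.Statements.S00062
import Pool.Agent.H79.PowPd

set_option autoImplicit false
open Pool Pool.MP_1cfa24_ag

namespace Pool.Agent.S00062

/-- The negation of the preceding statement: For a homogeneous ideal Q of a polynomial ring over a field: if pd Q = 1 and pd Q^t = 1 for all large t, then pd Q^t = 1 for every t ≥ 1 (pd = 1 means a finite free cover with projective kernel exists and the module is not projective). -/
theorem result :
    ¬ (∀ (k : Type) [Field k] (n : ℕ) (Q : Ideal (MvPolynomial (Fin n) k)),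
      (∃ s : Set (MvPolynomial (Fin n) k),
          (∀ p ∈ s, ∃ d : ℕ, MvPolynomial.IsHomogeneous p d) ∧ Q = Ideal.span s) →
      ((∃ (m : ℕ) (f : (Fin m → MvPolynomial (Fin n) k) →ₗ[MvPolynomial (Fin n) k] ↥Q),
            Function.Surjective f ∧
              Module.Projective (MvPolynomial (Fin n) k) ↥(LinearMap.ker f)) ∧
          ¬ Module.Projective (MvPolynomial (Fin n) k) ↥Q) →
      (∃ t₀ : ℕ, ∀ t : ℕ, t₀ ≤ t →
          (∃ (m : ℕ) (f : (Fin m → MvPolynomial (Fin n) k) →ₗ[MvPolynomial (Fin n) k] ↥(Q ^ t)),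
              Function.Surjective f ∧
                Module.Projective (MvPolynomial (Fin n) k) ↥(LinearMap.ker f)) ∧
            ¬ Module.Projective (MvPolynomial (Fin n) k) ↥(Q ^ t)) →
      ∀ t : ℕ, 1 ≤ t →
        (∃ (m : ℕ) (f : (Fin m → MvPolynomial (Fin n) k) →ₗ[MvPolynomial (Fin n) k] ↥(Q ^ t)),
            Function.Surjective f ∧
              Module.Projective (MvPolynomial (Fin n) k) ↥(LinearMap.ker f)) ∧
          ¬ Module.Projective (MvPolynomial (Fin n) k) ↥(Q ^ t)) := by
  intro H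
  obtain ⟨k, s, hs⟩ := Pool.Agent.H79.PowPd.exists_pd (fun t => if t = 2 then 2 else 1)
    ⟨3, fun t ht => by rw [if_neg (by omega), if_neg (by omega)]⟩
    (fun t ht => by split_ifs <;> omega)
  have key := fun t (ht : 1 ≤ t) => Pool.Agent.H79.PowPd.pd_one_iff
    ((Pool.Agent.H79.Mono.MI ℚ s) ^ t) _ (hs ℚ t ht)
  have h1 := (key 1 le_rfl).2 (by simp)
  rw [pow_one] at h1
  have h := H ℚ (k + 1) (Pool.Agent.H79.Mono.MI ℚ s)
    ⟨_, by
      rintro _ ⟨e, -, rfl⟩
      exact ⟨_, MvPolynomial.isHomogeneous_monomial _ rfl⟩, rfl⟩ h1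
    ⟨3, fun t ht => (key t (by omega)).2 (by rw [if_neg (by omega)])⟩ 2 (by omega)
  have := (key 2 (by omega)).1 h
  simp at this

end Pool.Agent.S00062
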