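import Pool.Statements.S00086
import Pool.Agent.H80.Toric

set_option autoImplicit false
open Pool Pool.MP_26e61c_ag

namespace Pool.Agent.S00086

open MvPolynomial Pool.Agent.H80.Toric

/-- flows of length four over the cyclic group of order seven -/
abbrev Fl : Type := {g : Fin 4 → ZMod 7 // ∑ i, g i = 0}

/-- allowed labels -/
def ok (i : Fin 4) (a : ZMod 7) : Bool :=
  ![decide (a = 0 ∨ a = 2 ∨ a = 4), decide (a = 2 ∨ a = 3 ∨ a = 4),
    decide (a = 0 ∨ a = 1 ∨ a = 2 ∨ a = 4), decide (a = 2 ∨ a = 5 ∨ a = 6)] i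

/-- a flow from four entries -/
def fl (a b c d : ZMod 7) (h : a + b + c + d = 0) : Fl :=
  ⟨![a, b, c, d], by rw [Fin.sum_univ_four]; exact h⟩

/-- distinguished flow -/
def f0 : Fl := fl 0 2 0 5 (by decide)

set_option synthInstance.maxSize 2000 in
theorem uniq (A : Finset (Fin 4)) (h1 : 2 ≤ A.card) (h2 : A.card + 2 ≤ 4) (g : Fl)
    (hg : ∀ i, ok i (g.1 i) = true) (hs : ∑ i ∈ A, g.1 i = ∑ i ∈ A, f0.1 i) : g = f0 := by
  have key : ∀ A : Finset (Fin 4), 2 ≤ A.card → A.card + 2 ≤ 4 → ∀ a, ok 0 a = true →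
      ∀ b, ok 1 b = true → ∀ c, ok 2 c = true → ∀ d, ok 3 d = true → a + b + c + d = 0 →
      ∑ i ∈ A, (![a, b, c, d] : Fin 4 → ZMod 7) i = ∑ i ∈ A, (![0, 2, 0, 5] : Fin 4 → ZMod 7) i →
      a = 0 ∧ b = 2 ∧ c = 0 ∧ d = 5 := by decide +kernel
  have e : g.1 = ![g.1 0, g.1 1, g.1 2, g.1 3] := by
    funext i; fin_cases i <;> rfl
  have h := g.2
  rw [Fin.sum_univ_four] at h
  obtain ⟨e0, e1, e2, e3⟩ := key A h1 h2 _ (hg 0) _ (hg 1) _ (hg 2) _ (hg 3) h (e ▸ hs)
  apply Subtype.ext
  rw [e, e0, e1, e2, e3]; rfl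

/-- exponents for a prolongation -/
noncomputable def ex (A : Finset (Fin 4)) (g : Fl) : Option (Fin 4) × ZMod 7 →₀ ℕ :=
  Finsupp.single (none, ∑ i ∈ A, g.1 i) 1 + ∑ i, Finsupp.single (some i, g.1 i) 1

/-- penalty -/
def pen (κ : Option (Fin 4) × ZMod 7) : ℤ :=
  match κ.1 with
  | none => 0
  | some i => if ok i κ.2 = true then 0 else 1

theorem lc_pen (A : Finset (Fin 4)) (g : Fl) :
    Finsupp.linearCombination ℕ pen (ex A g) = ∑ i, if ok i (g.1 i) = true then 0 else 1 := by
  simp only [ex, map_add, map_sum, Finsupp.linearCombination_single, one_smul, pen, zero_add]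

theorem vanish (A : Finset (Fin 4)) (h1 : 2 ≤ A.card) (h2 : A.card + 2 ≤ 4)
    (q : MvPolynomial Fl ℂ)
    (hq : aeval (R := ℂ) (fun g : Fl => (X (none, ∑ i ∈ A, g.1 i) * ∏ i, X (some i, g.1 i) :
      MvPolynomial (Option (Fin 4) × ZMod 7) ℂ)) q = 0) :
    eval (testPt (fun g : Fl => ∀ i, ok i (g.1 i) = true) f0) q = 0 := by
  have hφ : (fun g : Fl => (X (none, ∑ i ∈ A, g.1 i) * ∏ i, X (some i, g.1 i) :
      MvPolynomial (Option (Fin 4) × ZMod 7) ℂ)) = fun g => monomial (ex A g) 1 := by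
    funext g
    rw [ex, ← mul_one (1 : ℂ), ← monomial_mul, monomial_sum_one]
    rfl
  rw [hφ] at hq
  refine eval_testPt_eq_zero (ex A) pen ?_ _ ?_ f0 (fun _ => True) ?_ q hq (fun _ _ => trivial)
  · intro g
    rw [lc_pen]
    exact Finset.sum_nonneg fun i _ => by split_ifs <;> norm_num
  · intro g
    rw [lc_pen, Finset.sum_eq_zero_iff_of_nonneg (fun i _ => by split_ifs <;> norm_num)]
    simp
  · intro m m' _ _ hm hm' h
    have key : ∀ n : Fl →₀ ℕ, (∀ g, n g ≠ 0 → ∀ i, ok i (g.1 i) = true) →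
        Finsupp.linearCombination ℕ (fun κ : Option (Fin 4) × ZMod 7 =>
          if κ = (none, ∑ i ∈ A, f0.1 i) then (1 : ℤ) else 0)
          (Finsupp.linearCombination ℕ (ex A) n) = n f0 := by
      intro n hn
      rw [← lc_test, lc_sum, Finset.sum_eq_single f0]
      · simp [ex]
      · intro g _ hg
        by_cases h0 : n g = 0
        · simp [h0]
        · have : ∑ i ∈ A, g.1 i ≠ ∑ i ∈ A, f0.1 i := fun hs => hg (uniq A h1 h2 g (hn g h0) hs)
          simp [ex, this]
      · simp
    have := (key m hm).symm.trans (h ▸ key m' hm')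
    exact_mod_cast this

/-- the quartic binomial -/
noncomputable def quartic : MvPolynomial Fl ℂ :=
  X f0 * X (fl 2 4 2 6 (by decide)) * X (fl 4 3 1 6 (by decide)) * X (fl 4 4 4 2 (by decide)) -
  X (fl 0 4 1 2 (by decide)) * X (fl 4 2 2 6 (by decide)) * X (fl 4 4 0 6 (by decide)) *
    X (fl 2 3 4 5 (by decide))

theorem testPt_other (g : Fl) (hg : ∀ i, ok i (g.1 i) = true) (h : g ≠ f0) :
    testPt (fun g : Fl => ∀ i, ok i (g.1 i) = true) f0 g = 1 := by
  simp [testPt, hg, h]

/-- The negation of the preceding statement: For every finite abelian G and n at least 4: every polynomial vanishing on the claw group-based model, times a high enough power of the irrelevant ideal, lies in the sum of the ideals of all prolongations splitting the leaves into two parts of size at least 2. -/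
theorem result :
    ¬ (∀ (G : Type) [AddCommGroup G] [Fintype G] (n : ℕ), 4 ≤ n →
      ∀ f : MvPolynomial {g : Fin n → G // ∑ i, g i = 0} ℂ,
        f ∈ RingHom.ker (MvPolynomial.aeval (R := ℂ)
          (fun g : {g : Fin n → G // ∑ i, g i = 0} =>
            (∏ i, MvPolynomial.X (some i, g.1 i) :
              MvPolynomial (Option (Fin n) × G) ℂ))) →
        ∃ k : ℕ, ∀ h ∈ (Ideal.span (Set.range
            (MvPolynomial.X : {g : Fin n → G // ∑ i, g i = 0} →
              MvPolynomial {g : Fin n → G // ∑ i, g i = 0} ℂ))) ^ k,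
          h * f ∈ ⨆ A : {A : Finset (Fin n) // 2 ≤ A.card ∧ A.card + 2 ≤ n},
            RingHom.ker (MvPolynomial.aeval (R := ℂ)
              (fun g : {g : Fin n → G // ∑ i, g i = 0} =>
                (MvPolynomial.X (none, ∑ i ∈ A.1, g.1 i) *
                  ∏ i, MvPolynomial.X (some i, g.1 i) :
                  MvPolynomial (Option (Fin n) × G) ℂ)))) := by
  intro H
  obtain ⟨k, hk⟩ := H (ZMod 7) 4 le_rfl quartic (by
    rw [RingHom.mem_ker]
    simp only [quartic, map_sub, map_mul, aeval_X, Fin.prod_univ_four, f0, fl, Matrix.cons_val_zero,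
      Matrix.cons_val_one, Matrix.cons_val]
    ring)
  have h1 := hk (X f0 ^ k) (Ideal.pow_mem_pow (Ideal.subset_span (Set.mem_range_self f0)) k)
  have h2 := (iSup_le (a := RingHom.ker
    (eval (testPt (fun g : Fl => ∀ i, ok i (g.1 i) = true) f0))) fun A q hq =>
      vanish A.1 A.2.1 A.2.2 q hq) h1
  have h0 : testPt (fun g : Fl => ∀ i, ok i (g.1 i) = true) f0 f0 = 2 :=
    testPt_self _ _ (by decide)
  rw [RingHom.mem_ker] at h2
  simp only [quartic, map_sub, map_mul, map_pow, eval_X, h0] at h2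
  rw [testPt_other _ (by decide) (by decide), testPt_other _ (by decide) (by decide),
    testPt_other _ (by decide) (by decide), testPt_other _ (by decide) (by decide),
    testPt_other _ (by decide) (by decide), testPt_other _ (by decide) (by decide),
    testPt_other _ (by decide) (by decide)] at h2
  norm_num at h2

end Pool.Agent.S00086
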