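import Pool.Statements.S00136
import Pool.Agent.H79.FDeform2

set_option autoImplicit false
open Pool Pool.MP_373bb8_ag

namespace Pool.Agent.S00136

/-- The negation of the preceding statement: For a Noetherian equidimensional local ring R of characteristic p and a non-zero-divisor x in its maximal ideal: if every ideal of R/xR generated by a full system of parameters is Frobenius closed, then the same holds in R. -/
theorem result :
    ¬ (∀ (p : ℕ) [Fact p.Prime] (R : Type) [CommRing R] [IsNoetherianRing R] [IsLocalRing R]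
      [CharP R p] (x : R),
      x ∈ IsLocalRing.maximalIdeal R →
      x ∈ nonZeroDivisors R →
      (∀ P ∈ minimalPrimes R, ringKrullDim (R ⧸ P) = ringKrullDim R) →
      (∀ (n : ℕ) (y : Fin n → R ⧸ Ideal.span {x}),
          (n : WithBot ℕ∞) = ringKrullDim (R ⧸ Ideal.span {x}) →
          (Ideal.span (Set.range y)).radical.IsMaximal →
          ∀ r : R ⧸ Ideal.span {x},
            (∃ e : ℕ, r ^ (p ^ e) ∈ Ideal.span ((fun a => a ^ (p ^ e)) ''
              ((Ideal.span (Set.range y) : Ideal (R ⧸ Ideal.span {x})) :
                Set (R ⧸ Ideal.span {x})))) →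
            r ∈ Ideal.span (Set.range y)) →
      (∀ (n : ℕ) (y : Fin n → R),
          (n : WithBot ℕ∞) = ringKrullDim R →
          (Ideal.span (Set.range y)).radical.IsMaximal →
          ∀ r : R,
            (∃ e : ℕ, r ^ (p ^ e) ∈ Ideal.span ((fun a => a ^ (p ^ e)) ''
              ((Ideal.span (Set.range y) : Ideal R) : Set R))) →
            r ∈ Ideal.span (Set.range y))) := by
  intro H
  have h := H 2 Pool.Agent.H79.FDeform.R Pool.Agent.H79.FDeform.x Pool.Agent.H79.FDeform.x_mem
    Pool.Agent.H79.FDeform.x_nzd Pool.Agent.H79.FDeform.equidim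
    (fun n y _ _ r ⟨e, he⟩ => Pool.Agent.H79.FDeform.closed _ r e he)
    4 Pool.Agent.H79.FDeform.y Pool.Agent.H79.FDeform.dim_R.symm
    (by rw [Pool.Agent.H79.FDeform.radical_y]; infer_instance) _
    ⟨1, Pool.Agent.H79.FDeform.w_sq⟩
  exact Pool.Agent.H79.FDeform.w_not h

end Pool.Agent.S00136
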