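import Pool.Statements.S00192
import Pool.Agent.H79.TPGeo

set_option autoImplicit false
open Pool Pool.MP_522d9f_ag

namespace Pool.Agent.S00192

/-- The negation of the preceding statement: For every algebraically closed field of characteristic 0, n≥1, nonempty finite point set W in projective n-space and r≥1, the least degree of a nonzero form vanishing to order rn−(n−1) at all points of W is at least r·α(W)+(r−1)(n−1). -/
theorem result :
    ¬ (∀ (k : Type) [Field k] [IsAlgClosed k] [CharZero k] (n : ℕ), 1 ≤ n →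
      ∀ (W : Finset (Projectivization k (Fin (n + 1) → k))), W.Nonempty →
        ∀ r : ℕ, 1 ≤ r → ∀ t : ℕ,
          (∃ f : MvPolynomial (Fin (n + 1)) k, f ≠ 0 ∧ f.IsHomogeneous t ∧
            f ∈ ⨅ P ∈ W, (Ideal.span {h : MvPolynomial (Fin (n + 1)) k |
                ∃ d : ℕ, h.IsHomogeneous d ∧ MvPolynomial.eval P.rep h = 0}) ^ ((r - 1) * n + 1)) →
          ∃ s : ℕ,
            (∃ g : MvPolynomial (Fin (n + 1)) k, g ≠ 0 ∧ g.IsHomogeneous s ∧
              g ∈ ⨅ P ∈ W, Ideal.span {h : MvPolynomial (Fin (n + 1)) k |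
                ∃ d : ℕ, h.IsHomogeneous d ∧ MvPolynomial.eval P.rep h = 0}) ∧
            r * s + (r - 1) * (n - 1) ≤ t) := by
  open Pool.Agent.H79.TP Pool.Agent.H79.CBCube MvPolynomial in
  intro h
  classical
  obtain ⟨c, x, y, hc, hdet, hz⟩ := main
  have hne : ∀ k, (![x k, y k, 1] : Fin (2 + 1) → KK) ≠ 0 := fun k h0 => by
    simpa using congrFun h0 2
  have hrep : ∀ k {f : MvPolynomial (Fin (2 + 1)) KK} {d : ℕ}, f.IsHomogeneous d →
      (eval (Projectivization.mk KK _ (hne k)).rep f = 0 ↔ eval ![x k, y k, 1] f = 0) := by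
    intro k f d hf
    obtain ⟨a, ha⟩ := Projectivization.exists_smul_eq_mk_rep KK _ (hne k)
    rw [← ha, Units.smul_def, eval_smul_hom hf]
    simp
  obtain ⟨s, ⟨g, hg0, hg, hgI⟩, hs⟩ := h KK 2 (by norm_num)
    (Finset.univ.image fun k => Projectivization.mk KK _ (hne k)) (by simp) 2 (by norm_num) 20
    ⟨ff c, ff_ne c hc, ff_hom c, by
      simp only [Submodule.mem_iInf]
      intro P hP
      obtain ⟨k, -, rfl⟩ := Finset.mem_image.1 hP
      have h1 : (X 0 - C (x k) * X 2 : MvPolynomial (Fin (2 + 1)) KK).IsHomogeneous 1 :=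
        (isHomogeneous_X _ _).sub ((isHomogeneous_X _ _).C_mul _)
      have h2 : (X 1 - C (y k) * X 2 : MvPolynomial (Fin (2 + 1)) KK).IsHomogeneous 1 :=
        (isHomogeneous_X _ _).sub ((isHomogeneous_X _ _).C_mul _)
      exact ff_mem c (x k) (y k) _ (Ideal.subset_span ⟨1, h1, (hrep k h1).2 (by simp)⟩)
        (Ideal.subset_span ⟨1, h2, (hrep k h2).2 (by simp)⟩) (hz k)⟩
  refine hg0 (no_nonic x y hdet g s (by omega) hg fun k => (hrep k hg).1 ?_)
  simp only [Submodule.mem_iInf] at hgI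
  have := hgI _ (Finset.mem_image_of_mem _ (Finset.mem_univ k))
  refine (Ideal.span_le (I := RingHom.ker (eval (Projectivization.mk KK _ (hne k)).rep))).2 ?_ this
  rintro f ⟨d, -, hf⟩
  exact hf


end Pool.Agent.S00192
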