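import Pool.Statements.S00272
import Pool.Agent.H79.Jac4

set_option autoImplicit false
open Pool Pool.MP_7f7c16_ag

namespace Pool.Agent.S00272

/-- The negation of the preceding statement: Over any characteristic-0 field, two plane arrangements in P^3 with isomorphic intersection lattices have R/sqrt(J_F) Cohen-Macaulay exactly when R/sqrt(J_G) is, CM meaning every localization at a prime has a maximal-length regular sequence. -/
theorem result :
    ¬ (∀ (k : Type) [Field k] [CharZero k] (d e : ℕ) (ℓ : Fin d → Fin 4 → k) (m : Fin e → Fin 4 → k),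
      (∀ i, ℓ i ≠ 0) → (∀ i j, i ≠ j → LinearIndependent k ![ℓ i, ℓ j]) →
      (∀ i, m i ≠ 0) → (∀ i j, i ≠ j → LinearIndependent k ![m i, m j]) →
      Nonempty (↥{W : Set (Fin 4 → k) | ∃ S : Finset (Fin d),
                  W = {x : Fin 4 → k | ∀ i ∈ S, ∑ j : Fin 4, ℓ i j * x j = 0}} ≃o
                ↥{W : Set (Fin 4 → k) | ∃ S : Finset (Fin e),
                  W = {x : Fin 4 → k | ∀ i ∈ S, ∑ j : Fin 4, m i j * x j = 0}}) →
      ((∀ (p : Ideal (MvPolynomial (Fin 4) k ⧸
              ((Ideal.span (Set.range fun i : Fin 4 =>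
                  MvPolynomial.pderiv (R := k) i
                    (∏ a : Fin d, ∑ j : Fin 4,
                      (MvPolynomial.C (ℓ a j) * MvPolynomial.X j : MvPolynomial (Fin 4) k)))
                : Ideal (MvPolynomial (Fin 4) k)).radical : Ideal (MvPolynomial (Fin 4) k))))
            [p.IsPrime],
          ∃ rs : List (Localization.AtPrime p),
            (∀ r ∈ rs, r ∈ IsLocalRing.maximalIdeal (Localization.AtPrime p)) ∧
            RingTheory.Sequence.IsRegular (Localization.AtPrime p) rs ∧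
            (rs.length : WithBot ℕ∞) = ringKrullDim (Localization.AtPrime p)) ↔
       (∀ (p : Ideal (MvPolynomial (Fin 4) k ⧸
              ((Ideal.span (Set.range fun i : Fin 4 =>
                  MvPolynomial.pderiv (R := k) i
                    (∏ a : Fin e, ∑ j : Fin 4,
                      (MvPolynomial.C (m a j) * MvPolynomial.X j : MvPolynomial (Fin 4) k)))
                : Ideal (MvPolynomial (Fin 4) k)).radical : Ideal (MvPolynomial (Fin 4) k))))
            [p.IsPrime],
          ∃ rs : List (Localization.AtPrime p),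
            (∀ r ∈ rs, r ∈ IsLocalRing.maximalIdeal (Localization.AtPrime p)) ∧
            RingTheory.Sequence.IsRegular (Localization.AtPrime p) rs ∧
            (rs.length : WithBot ℕ∞) = ringKrullDim (Localization.AtPrime p)))) := by
  
  intro h
  have hA : ∀ i j, i ≠ j → H79.Jac.Ind (H79.Jac.cs ℂ H79.Jac.LA i) (H79.Jac.cs ℂ H79.Jac.LA j) :=
    fun i j h => H79.Jac.ind_cs (H79.Jac.ind_A i j h)
  have hB : ∀ i j, i ≠ j → H79.Jac.Ind (H79.Jac.cs ℂ H79.Jac.LB i) (H79.Jac.cs ℂ H79.Jac.LB j) :=
    fun i j h => H79.Jac.ind_cs (H79.Jac.ind_B i j h)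
  have hA0 : ∀ i, H79.Jac.cs ℂ H79.Jac.LA i ≠ 0 := fun i => by
    obtain ⟨j, hj⟩ := exists_ne i
    exact (hA i j hj.symm).ne_zero
  have hB0 : ∀ i, H79.Jac.cs ℂ H79.Jac.LB i ≠ 0 := fun i => by
    obtain ⟨j, hj⟩ := exists_ne i
    exact (hB i j hj.symm).ne_zero
  have h1 := h ℂ 15 15 _ _ hA0 (fun i j h => (hA i j h).linInd) hB0
    (fun i j h => (hB i j h).linInd) (H79.Jac.lattice_iso' H79.Jac.same_AB)
  have a := H79.Jac.cm_A (K := ℂ)
  have b := H79.Jac.not_cm_B (K := ℂ)
  rw [← H79.Jac.radical_jac (by decide) hA0 hA] at a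
  rw [← H79.Jac.radical_jac (by decide) hB0 hB] at b
  exact b (h1.1 a)

end Pool.Agent.S00272
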