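import Pool.Statements.S00296
import Pool.Agent.H48.IsoD

set_option autoImplicit false
open Pool Pool.MP_89b417_ag

namespace Pool.Agent.S00296

/-- The negation of the preceding statement: For an irreducible complex polynomial p in n variables whose zero set is contractible, there is a finite set S such that for all c, d outside S the coordinate rings C[x]/(p-c) and C[x]/(p-d) are isomorphic C-algebras. -/
theorem result :
    ¬ (∀ (n : ℕ) (p : MvPolynomial (Fin n) ℂ), Irreducible p →
      ContractibleSpace ↥({x : Fin n → ℂ | MvPolynomial.eval x p = 0} : Set (Fin n → ℂ)) →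
      ∃ S : Finset ℂ, ∀ c d : ℂ, c ∉ S → d ∉ S →
        Nonempty ((MvPolynomial (Fin n) ℂ ⧸ Ideal.span {p - MvPolynomial.C c}) ≃ₐ[ℂ]
          (MvPolynomial (Fin n) ℂ ⧸ Ideal.span {p - MvPolynomial.C d}))) := by
  intro h
  obtain ⟨S, hS⟩ := h 3 Pool.Agent.H48.IsoB.pP Pool.Agent.H48.IsoD.irred
    Pool.Agent.H48.IsoD.contr
  obtain ⟨c, d, hc, hd, hc0, hd0, hcd⟩ := Pool.Agent.H48.IsoD.exists_two S
  obtain ⟨φ⟩ := hS d c hd hc
  exact hcd (Pool.Agent.H48.IsoC.core hc0 hd0 φ)

end Pool.Agent.S00296
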