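import Pool.Statements.S00302
import Pool.Agent.H50.DiscE

set_option autoImplicit false
open Pool Pool.MP_8e46bf_ag

namespace Pool.Agent.S00302

/-- The negation of the preceding statement: For every n ≥ 2 there are nonnegative reals c_k and lists of index pairs such that, for all complex z, the discriminant of the derivative of ∏(x−z_i) equals Σ c_k·(∏ over the k-th list of (z_i−z_j))². -/
theorem result :
    ¬ (∀ n : ℕ, 2 ≤ n →
      ∃ (m : ℕ) (c : Fin m → ℝ) (E : Fin m → List (Fin n × Fin n)),
        (∀ k, 0 ≤ c k) ∧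
        ∀ (z : Fin n → ℂ) (r : Fin (n - 1) → ℂ),
          Polynomial.derivative (∏ i : Fin n, (Polynomial.X - Polynomial.C (z i))) =
              Polynomial.C (n : ℂ) * ∏ j : Fin (n - 1), (Polynomial.X - Polynomial.C (r j)) →
            (n : ℂ) ^ (2 * n - 4) * ∏ a : Fin (n - 1), ∏ b ∈ Finset.Ioi a, (r a - r b) ^ 2 =
              ∑ k : Fin m, ((c k : ℝ) : ℂ) * (((E k).map (fun p => z p.1 - z p.2)).prod) ^ 2) := by
  intro h
  obtain ⟨m, c, E, hc, H⟩ := h 7 (by norm_num)
  exact Pool.Agent.H50.DiscD.main m c E hc H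

end Pool.Agent.S00302
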