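import Pool.Statements.S00308
import Pool.Agent.H80.TripodFin

set_option autoImplicit false
open Pool Pool.MP_8fff0f_ag

namespace Pool.Agent.S00308

/-- The negation of the preceding statement: For every finite abelian group G, the toric ideal of the group-based model on the tripod is generated by polynomials of degree at most ∣G∣. This ideal is the kernel of q_{(g1,g2,g3)} ↦ a1_{g1}·a2_{g2}·a3_{g3} over tuples with g1+g2+g3=0. -/
theorem result :
    ¬ (∀ (G : Type) [AddCommGroup G] [Fintype G],
      ∃ S : Set (MvPolynomial {g : Fin 3 → G // ∑ i, g i = 0} ℂ),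
        (∀ p ∈ S, p.totalDegree ≤ Fintype.card G) ∧
        Ideal.span S =
          RingHom.ker
            (MvPolynomial.aeval
              (fun g : {g : Fin 3 → G // ∑ i, g i = 0} =>
                ∏ i : Fin 3, (MvPolynomial.X (i, g.1 i) : MvPolynomial (Fin 3 × G) ℂ)))) := by
  intro H
  obtain ⟨z, -, p, -, hp, hz, hq⟩ := Pool.Agent.H80.TripodFin.main_fin 11 (by norm_num)
  obtain ⟨S, hS, hspan⟩ := H (Pool.Agent.H80.Tripod.G 11)
  apply hz
  have hle : Ideal.span S ≤ RingHom.ker (MvPolynomial.eval z) := by
    rw [Ideal.span_le]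
    intro q hqS
    apply hq q
    · have : q ∈ Ideal.span S := Ideal.subset_span hqS
      rw [hspan] at this
      exact this
    · refine lt_of_le_of_lt (hS q hqS) ?_
      rw [Pool.Agent.H80.Tripod.card_G]; norm_num
  apply hle
  rw [hspan]
  exact hp

end Pool.Agent.S00308
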