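import Pool.Statements.S00335
import Pool.Agent.H79.SymF

set_option autoImplicit false
open Pool Pool.MP_9d9f8d_ag

namespace Pool.Agent.S00335

/-- For every eventually periodic g with g(t) ≥ 2 for t ≥ 1, some field K and monomial ideal Q in K[x1..xn] have every symbolic power Q^(t) (minimal primes) of projective dimension exactly g(t), t ≥ 1. -/
theorem result :
    ∀ g : ℕ → ℕ,
      (∃ N p : ℕ, 0 < p ∧ ∀ t : ℕ, N ≤ t → g (t + p) = g t) →
      (∀ t : ℕ, 1 ≤ t → 2 ≤ g t) →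
      ∃ (K : Type) (_ : Field K) (n : ℕ) (Q : Ideal (MvPolynomial (Fin n) K)),
        (∃ s : Set (Fin n →₀ ℕ),
            Q = Ideal.span ((fun m => MvPolynomial.monomial m (1 : K)) '' s)) ∧
        ∀ t : ℕ, 1 ≤ t →
          ∃ J : Ideal (MvPolynomial (Fin n) K),
            (∀ f : MvPolynomial (Fin n) K,
                f ∈ J ↔ ∀ P ∈ Q.minimalPrimes, ∃ u : MvPolynomial (Fin n) K,
                  u ∉ P ∧ u * f ∈ Q ^ t) ∧
            CategoryTheory.HasProjectiveDimensionLE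
              (ModuleCat.of (MvPolynomial (Fin n) K) J) (g t) ∧
            ¬ CategoryTheory.HasProjectiveDimensionLE
              (ModuleCat.of (MvPolynomial (Fin n) K) J) (g t - 1) := by
  open Pool.Agent.H79 in
  intro g ⟨N, p, hp, hg⟩ h2
  obtain ⟨π, hT, hp'⟩ := SymD.exists_par (N + 1) p (by omega) hp
  have hg' : ∀ t, π.T ≤ t → g (t + π.p) = g t := fun t ht => hp' ▸ hg t (by omega)
  obtain ⟨m, hm⟩ := H79.SymF.exists_bound π hg'
  let 𝓕 := H79.SymF.fam (H79.SymF.vars m) π g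
  refine ⟨ℚ, inferInstance, 2 * m + 1, H79.Mono.MI ℚ 𝓕.Q, ⟨_, rfl⟩, fun t ht =>
    ⟨H79.Mono.MI ℚ (𝓕.W t), 𝓕.symb t, ?_, fun h => ?_⟩⟩
  · exact (H79.PD.pd_quot_iff _ _).1 (H79.SymF.upper _ π g hg' t (h2 t ht))
  · have h3 := (H79.PD.pd_quot_iff _ _).2 h
    have h4 := h2 t ht
    rw [show g t - 1 + 2 = g t + 1 by omega] at h3
    exact H79.SymF.lower _ π g hg' t ht h4 (by have := hm t ht; omega) h3

end Pool.Agent.S00335
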