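import Pool.Statements.S00406
import Pool.Agent.H80.Dense

set_option autoImplicit false
open Pool Pool.MP_b9ea36_ag

namespace Pool.Agent.S00406

/-- the genericity polynomial -/
def gen (m : Fin 5 → Fin 5 → ℝ) : ℝ :=
  m 0 0 * m 0 2 * m 2 2 * (m 3 3 * m 0 0 * m 2 2 - m 3 0 * m 2 3 * m 0 2) *
    (m 3 4 * m 0 0 * m 2 2 - m 3 0 * m 2 4 * m 0 2) *
    (m 1 2 * m 4 1 * m 0 0 - m 4 0 * m 1 1 * m 0 2) *
    (m 1 2 * (m 4 4 * m 0 0 * m 2 2 - m 4 0 * m 2 4 * m 0 2) *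
        (m 3 3 * m 0 0 * m 2 2 - m 3 0 * m 2 3 * m 0 2) -
      m 0 2 * m 4 0 * (m 1 3 * m 2 2 - m 1 2 * m 2 3) *
        (m 3 4 * m 0 0 * m 2 2 - m 3 0 * m 2 4 * m 0 2))

theorem gen_analytic (x : Fin 5 → Fin 5 → ℝ) : AnalyticAt ℝ gen x := by
  have h : ∀ i j : Fin 5, AnalyticAt ℝ (fun m : Fin 5 → Fin 5 → ℝ => m i j) x := fun i j =>
    ((ContinuousLinearMap.proj j : (Fin 5 → ℝ) →L[ℝ] ℝ).comp
      (ContinuousLinearMap.proj i : (Fin 5 → Fin 5 → ℝ) →L[ℝ] (Fin 5 → ℝ))).analyticAt x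
  unfold gen
  repeat' first | exact h _ _ | apply AnalyticAt.mul | apply AnalyticAt.sub

theorem solve (m00 m01 m02 m11 m12 m13 m22 m23 m24 m33 m34 m30 m44 m40 m41 : ℝ)
    (h0 : m00 ≠ 0) (h1 : m02 ≠ 0) (h2 : m22 ≠ 0)
    (h3 : m33 * m00 * m22 - m30 * m23 * m02 ≠ 0) (h4 : m34 * m00 * m22 - m30 * m24 * m02 ≠ 0)
    (h5 : m12 * m41 * m00 - m40 * m11 * m02 ≠ 0)
    (h6 : m12 * (m44 * m00 * m22 - m40 * m24 * m02) * (m33 * m00 * m22 - m30 * m23 * m02) -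
      m02 * m40 * (m13 * m22 - m12 * m23) * (m34 * m00 * m22 - m30 * m24 * m02) ≠ 0) :
    ∃ x1 x2 x3 x4 y0 y1 y4 u1 v1 u3 v3 u4 v4 : ℝ,
      u1 + y0 * v1 = m01 ∧ x1 * u1 + y1 * v1 = m11 ∧ x1 * m02 = m12 ∧ x1 * u3 + y1 * v3 = m13 ∧
      x2 * m02 = m22 ∧ x2 * u3 = m23 ∧ x2 * u4 = m24 ∧ x3 * u3 + v3 = m33 ∧ x3 * u4 + v4 = m34 ∧
      x3 * m00 = m30 ∧ x4 * u4 + y4 * v4 = m44 ∧ x4 * m00 = m40 ∧ x4 * u1 + y4 * v1 = m41 := by
  set V3 := m33 * m00 * m22 - m30 * m23 * m02 with hV3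
  set V4 := m34 * m00 * m22 - m30 * m24 * m02 with hV4
  obtain ⟨y1, hy1⟩ : ∃ y1, y1 = (m13 * m22 - m12 * m23) * m00 / V3 := ⟨_, rfl⟩
  obtain ⟨y4, hy4⟩ : ∃ y4, y4 = (m44 * m00 * m22 - m40 * m24 * m02) / V4 := ⟨_, rfl⟩
  have hd : (m12 / m02) * y4 - (m40 / m00) * y1 ≠ 0 := by
    have : (m12 / m02) * y4 - (m40 / m00) * y1 =
        (m12 * (m44 * m00 * m22 - m40 * m24 * m02) * V3 -
          m02 * m40 * (m13 * m22 - m12 * m23) * V4) / (m02 * V3 * V4) := by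
      rw [hy1, hy4]; field_simp
    rw [this]
    exact div_ne_zero h6 (mul_ne_zero (mul_ne_zero h1 h3) h4)
  obtain ⟨d, hdd⟩ : ∃ d, d = (m12 / m02) * y4 - (m40 / m00) * y1 := ⟨_, rfl⟩
  rw [← hdd] at hd
  have hv : ((m12 / m02) * m41 - (m40 / m00) * m11) / d ≠ 0 := by
    refine div_ne_zero ?_ hd
    have : (m12 / m02) * m41 - (m40 / m00) * m11 =
        (m12 * m41 * m00 - m40 * m11 * m02) / (m02 * m00) := by field_simp
    rw [this]
    exact div_ne_zero h5 (mul_ne_zero h1 h0)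
  refine ⟨m12 / m02, m22 / m02, m30 / m00, m40 / m00,
    (m01 - (m11 * y4 - m41 * y1) / d) / (((m12 / m02) * m41 - (m40 / m00) * m11) / d), y1, y4,
    (m11 * y4 - m41 * y1) / d, ((m12 / m02) * m41 - (m40 / m00) * m11) / d,
    m23 * m02 / m22, V3 / (m00 * m22), m24 * m02 / m22, V4 / (m00 * m22),
    ?_, ?_, ?_, ?_, ?_, ?_, ?_, ?_, ?_, ?_, ?_, ?_, ?_⟩
  · rw [div_mul_cancel₀ _ hv]; ring
  · rw [← mul_div_assoc, ← mul_div_assoc, ← add_div, div_eq_iff hd, hdd]; ring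
  · field_simp
  · rw [hy1]; field_simp; ring
  · field_simp
  · field_simp
  · field_simp
  · rw [hV3]; field_simp; ring
  · rw [hV4]; field_simp; ring
  · field_simp
  · rw [hy4]; field_simp; ring
  · field_simp
  · rw [← mul_div_assoc, ← mul_div_assoc, ← add_div, div_eq_iff hd, hdd]; ring

/-- The negation of the preceding statement: For every bipartite graph with nonempty 3-core, there is a nonempty open set of real matrices specified on its edges that cannot be completed to rank at most 2, i.e. its maximal typical rank is at least 3. -/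
theorem result :
    ¬ (∀ (m n : ℕ) (E : Finset (Fin m × Fin n)),
      (∃ (R : Finset (Fin m)) (C : Finset (Fin n)),
          (R.Nonempty ∨ C.Nonempty) ∧
          (∀ i ∈ R, 3 ≤ (C.filter (fun j => (i, j) ∈ E)).card) ∧
          (∀ j ∈ C, 3 ≤ (R.filter (fun i => (i, j) ∈ E)).card)) →
      ∃ U : Set (Matrix (Fin m) (Fin n) ℝ),
        IsOpen U ∧ U.Nonempty ∧
        ∀ A ∈ U, ∀ B : Matrix (Fin m) (Fin n) ℝ,
          (∀ p ∈ E, B p.1 p.2 = A p.1 p.2) → 3 ≤ B.rank) := by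
  intro H
  obtain ⟨U, hU, hne, hA⟩ := H 5 5
    {(0, 0), (0, 1), (0, 2), (1, 1), (1, 2), (1, 3), (2, 2), (2, 3), (2, 4), (3, 3), (3, 4), (3, 0),
      (4, 4), (4, 0), (4, 1)} ⟨Finset.univ, Finset.univ, by decide, by decide, by decide⟩
  obtain ⟨A, hAU, hg⟩ := Pool.Agent.H80.Dense.exists_ne_zero gen gen_analytic
    (fun i j => if i = j then 2 else if j = 1 then 3 else 1) (by simp [gen]; norm_num) U hU hne
  unfold gen at hg
  simp only [mul_ne_zero_iff] at hg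
  obtain ⟨⟨⟨⟨⟨⟨h0, h1⟩, h2⟩, h3⟩, h4⟩, h5⟩, h6⟩ := hg
  obtain ⟨x1, x2, x3, x4, y0, y1, y4, u1, v1, u3, v3, u4, v4, e1, e2, e3, e4, e5, e6, e7, e8, e9,
    e10, e11, e12, e13⟩ := solve (A 0 0) (A 0 1) (A 0 2) (A 1 1) (A 1 2) (A 1 3) (A 2 2) (A 2 3)
      (A 2 4) (A 3 3) (A 3 4) (A 3 0) (A 4 4) (A 4 0) (A 4 1) h0 h1 h2 h3 h4 h5 h6
  let a : Matrix (Fin 5) (Fin 2) ℝ := !![1, y0; x1, y1; x2, 0; x3, 1; x4, y4]
  let b : Matrix (Fin 2) (Fin 5) ℝ := !![A 0 0, u1, A 0 2, u3, u4; 0, v1, 0, v3, v4]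
  have hr : (a * b).rank ≤ 2 := (Matrix.rank_mul_le_left a b).trans (Matrix.rank_le_width a)
  have := hA A hAU (a * b) (by
    intro p hp
    simp only [Finset.mem_insert, Finset.mem_singleton] at hp
    rcases hp with rfl | rfl | rfl | rfl | rfl | rfl | rfl | rfl | rfl | rfl | rfl | rfl | rfl | rfl
      | rfl <;> simp [a, b, Matrix.mul_apply, Fin.sum_univ_two] <;> assumption)
  omega

end Pool.Agent.S00406
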