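import Pool.Statements.S00408
import Pool.Agent.H58.GF3

set_option autoImplicit false
open Pool Pool.MP_b9f336_ag

namespace Pool.Agent.S00408

/-- The negation of the preceding statement: For each d ≥ 1 there is B such that for any n, any saturated rank-d lattice L in ℤⁿ meeting the nonnegative orthant only in 0, and any term order, the Gröbner chamber of the toric ideal I_L (over ℚ) has at most B facets. -/
theorem result :
    ¬ (∀ d : ℕ, 1 ≤ d → ∃ B : ℕ, ∀ n : ℕ, ∀ L : Submodule ℤ (Fin n → ℤ),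
    Module.finrank ℤ L = d →
    (∀ v : Fin n → ℤ, ∀ c : ℤ, c ≠ 0 → c • v ∈ L → v ∈ L) →
    (∀ v ∈ L, (∀ i, 0 ≤ v i) → v = 0) →
    ∀ I : Ideal (MvPolynomial (Fin n) ℚ),
      I = Ideal.span {p | ∃ u ∈ L, p =
        MvPolynomial.monomial (Finsupp.equivFunOnFinite.symm (fun i => (u i).toNat)) (1 : ℚ)
        - MvPolynomial.monomial (Finsupp.equivFunOnFinite.symm (fun i => (-u i).toNat)) (1 : ℚ)} →
    ∀ ord : MonomialOrder (Fin n),
    ∀ C : Set (Fin n → ℝ),
      C = closure {w : Fin n → ℝ |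
        Ideal.span {g | ∃ f ∈ I, g =
          ∑ m ∈ (MvPolynomial.support f).filter
              (fun m => ∀ m' ∈ MvPolynomial.support f,
                ∑ i, w i * ((m' i : ℕ) : ℝ) ≤ ∑ i, w i * ((m i : ℕ) : ℝ)),
            MvPolynomial.monomial m (MvPolynomial.coeff m f)}
        = Ideal.span {g | ∃ f ∈ I, f ≠ 0 ∧ g = MvPolynomial.monomial (ord.degree f) (1 : ℚ)}} →
    Set.encard {F : Set (Fin n → ℝ) | ∃ c : Fin n → ℝ,
        (∀ w ∈ C, 0 ≤ ∑ i, c i * w i) ∧
        F = {w | w ∈ C ∧ ∑ i, c i * w i = 0} ∧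
        Module.finrank ℝ (Submodule.span ℝ F) + 1 = Module.finrank ℝ (Submodule.span ℝ C)}
      ≤ (B : ℕ∞)) := by
  intro h
  obtain ⟨B, hB⟩ := h 3 (by norm_num)
  obtain ⟨D, hk, ⟨E⟩⟩ := H58GF.exists_dat (B + 3) (by omega)
  obtain ⟨ord, hord⟩ := H58GF.many E
  have := hB (H58GF.nn D.k) (LinearMap.range (H58GF.Phi D))
    (by rw [LinearMap.finrank_range_of_inj H58GF.Phi_inj]; simp)
    H58GF.sat (by
      rintro _ ⟨z, rfl⟩ hz
      rw [H58GF.pointed z hz, map_zero]) _ rfl ord _ rfl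
  have h2 := hord.trans this
  rw [hk] at h2
  have : B + 3 - 1 ≤ B := by exact_mod_cast h2
  omega

end Pool.Agent.S00408
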