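import Pool.Statements.S00418
import Pool.Agent.H50.FatPts
import Pool.Agent.H50.Collinear

set_option autoImplicit false
open Pool Pool.MP_bb72f8_ag

namespace Pool.Agent.S00418

/-- The negation of the preceding statement: Over ℂ, if d ≥ m₁+…+m_r, a nonzero plane curve of degree ≤ d with multiplicity ≥ mᵢ at n general points exists iff one exists when the first r points are general points on a general line and the others are general. -/
theorem result :
    ¬ (∀ (n r d : ℕ) (m : Fin n → ℕ), r ≤ n →
    (∑ i ∈ Finset.univ.filter (fun i : Fin n => i.val < r), m i) ≤ d →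
    ((∃ G : MvPolynomial (Fin n × Fin 2) ℂ, G ≠ 0 ∧
        ∀ p : Fin n → Fin 2 → ℂ,
          MvPolynomial.eval (fun ij : Fin n × Fin 2 => p ij.1 ij.2) G ≠ 0 →
          ∃ f : MvPolynomial (Fin 2) ℂ, f ≠ 0 ∧ f.totalDegree ≤ d ∧
            ∀ i : Fin n,
              f ∈ (Ideal.span
                {(MvPolynomial.X 0 : MvPolynomial (Fin 2) ℂ) - MvPolynomial.C (p i 0),
                 (MvPolynomial.X 1 : MvPolynomial (Fin 2) ℂ) - MvPolynomial.C (p i 1)}) ^ (m i))
      ↔
     (∃ G : MvPolynomial (Fin (n + 2) × Fin 2) ℂ, G ≠ 0 ∧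
        ∀ w : Fin (n + 2) → Fin 2 → ℂ,
          MvPolynomial.eval (fun ij : Fin (n + 2) × Fin 2 => w ij.1 ij.2) G ≠ 0 →
          ∃ f : MvPolynomial (Fin 2) ℂ, f ≠ 0 ∧ f.totalDegree ≤ d ∧
            ∀ i : Fin n,
              f ∈ (Ideal.span
                {(MvPolynomial.X 0 : MvPolynomial (Fin 2) ℂ) - MvPolynomial.C
                    (if i.val < r then
                      w (Fin.castSucc (Fin.last n)) 0
                        + w (Fin.castSucc (Fin.castSucc i)) 0 * w (Fin.last (n + 1)) 0
                     else w (Fin.castSucc (Fin.castSucc i)) 0),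
                 (MvPolynomial.X 1 : MvPolynomial (Fin 2) ℂ) - MvPolynomial.C
                    (if i.val < r then
                      w (Fin.castSucc (Fin.last n)) 1
                        + w (Fin.castSucc (Fin.castSucc i)) 0 * w (Fin.last (n + 1)) 1
                     else w (Fin.castSucc (Fin.castSucc i)) 1)}) ^ (m i)))) := by
  intro h
  have h1 := (h 6 4 4 ![1, 1, 1, 1, 3, 3] (by norm_num) (by decide)).mpr
    Pool.Agent.H50.Collinear.special
  obtain ⟨G, hG, h2⟩ := h1
  obtain ⟨p, hp, h3⟩ := Pool.Agent.H50.Collinear.generic G hG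
  obtain ⟨f, hf0, hf1, hf2⟩ := h2 p hp
  exact hf0 (h3 f hf1 hf2)

end Pool.Agent.S00418
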