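import Pool.Statements.S00518
import Pool.Agent.H74.LSS3

set_option autoImplicit false
open Pool Pool.MP_e86c89_ag

namespace Pool.Agent.S00518

/-- The negation of the preceding statement: For every field K of characteristic zero and all n, d, take the n×d matrix X of variables. The ideal in K[x_ik] generated by the off-diagonal entries ∑_k x_ik x_jk (i ≠ j) of XXᵀ is a radical ideal. -/
theorem result :
    ¬ (∀ (K : Type) [Field K] [CharZero K] (n d : ℕ),
      (Ideal.span
        {p : MvPolynomial (Fin n × Fin d) K |
          ∃ i j : Fin n, i ≠ j ∧
            p = ∑ k : Fin d, MvPolynomial.X (i, k) * MvPolynomial.X (j, k)}).IsRadical) := by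
  exact fun h => Pool.Agent.H74.LSS.main (h ℂ 15 (9 + (9 + 1)))

end Pool.Agent.S00518
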