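import Pool.Statements.S00522
import Pool.Agent.H78.Bundle

set_option autoImplicit false
open AlgebraicGeometry CategoryTheory CategoryTheory.Limits
open Pool Pool.MP_e97ce4_ag

namespace Pool.Agent.S00522

/-- The negation of the preceding statement: For n > 1, every Zariski-locally trivial bundle over the punctured complex plane with fiber complex affine n-space is isomorphic over the base to the product bundle exactly when its total space is not an affine scheme. -/
theorem result :
    ¬ (∀ (n : ℕ), 1 < n →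
  ∀ (U : (Spec (CommRingCat.of (MvPolynomial (Fin 2) ℂ))).Opens),
    U = (PrimeSpectrum.basicOpen (MvPolynomial.X 0 : MvPolynomial (Fin 2) ℂ) ⊔
          PrimeSpectrum.basicOpen (MvPolynomial.X 1 : MvPolynomial (Fin 2) ℂ) :
          (Spec (CommRingCat.of (MvPolynomial (Fin 2) ℂ))).Opens) →
  ∀ (X : Scheme.{0}) (p : X ⟶ U.toScheme),
    (∀ x : U.toScheme, ∃ V : U.toScheme.Opens, x ∈ V ∧
      ∃ e : (p ⁻¹ᵁ V).toScheme ≅
          pullback (V.ι ≫ U.ι ≫ Spec.map (CommRingCat.ofHom (algebraMap ℂ (MvPolynomial (Fin 2) ℂ))))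
            (Spec.map (CommRingCat.ofHom (algebraMap ℂ (MvPolynomial (Fin n) ℂ)))),
        e.hom ≫ pullback.fst
            (V.ι ≫ U.ι ≫ Spec.map (CommRingCat.ofHom (algebraMap ℂ (MvPolynomial (Fin 2) ℂ))))
            (Spec.map (CommRingCat.ofHom (algebraMap ℂ (MvPolynomial (Fin n) ℂ))))
          = p ∣_ V) →
    ((∃ e : X ≅
          pullback (U.ι ≫ Spec.map (CommRingCat.ofHom (algebraMap ℂ (MvPolynomial (Fin 2) ℂ))))
            (Spec.map (CommRingCat.ofHom (algebraMap ℂ (MvPolynomial (Fin n) ℂ)))),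
        e.hom ≫ pullback.fst
            (U.ι ≫ Spec.map (CommRingCat.ofHom (algebraMap ℂ (MvPolynomial (Fin 2) ℂ))))
            (Spec.map (CommRingCat.ofHom (algebraMap ℂ (MvPolynomial (Fin n) ℂ))))
          = p) ↔ ¬ IsAffine X)) := by
  intro h
  exact H78.Bundle.nontrivial
    ((h 2 (by decide) H78.Bundle.U rfl _ (H78.Bundle.q ∣_ H78.Bundle.U) H78.Bundle.loc).2
      H78.Bundle.nonaffine)

end Pool.Agent.S00522
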