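import Pool.Statements.S00530
import Pool.Agent.H80.TripodFin

set_option autoImplicit false
open Pool Pool.MP_ebd967_ag

namespace Pool.Agent.S00530

/-- The negation of the preceding statement: There is a polynomial Q such that, for every finite abelian group G, the toric ideal of the claw-tree group-based model is generated by its elements of degree at most Q(∣G∣). -/
theorem result :
    ¬ (∃ Q : Polynomial ℕ, ∀ (G : Type) [AddCommGroup G] [Fintype G],
      ∀ p : MvPolynomial {g : G × G × G // g.1 + g.2.1 + g.2.2 = 0} ℂ,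
        MvPolynomial.aeval
            (fun s : {g : G × G × G // g.1 + g.2.1 + g.2.2 = 0} =>
              (MvPolynomial.X ((0 : Fin 3), s.1.1) * MvPolynomial.X ((1 : Fin 3), s.1.2.1) *
                MvPolynomial.X ((2 : Fin 3), s.1.2.2) : MvPolynomial (Fin 3 × G) ℂ)) p = 0 →
        p ∈ Ideal.span
          {q : MvPolynomial {g : G × G × G // g.1 + g.2.1 + g.2.2 = 0} ℂ |
            MvPolynomial.aeval
                (fun s : {g : G × G × G // g.1 + g.2.1 + g.2.2 = 0} =>
                  (MvPolynomial.X ((0 : Fin 3), s.1.1) * MvPolynomial.X ((1 : Fin 3), s.1.2.1) *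
                    MvPolynomial.X ((2 : Fin 3), s.1.2.2) : MvPolynomial (Fin 3 × G) ℂ)) q = 0 ∧
              q.totalDegree ≤ Q.eval (Fintype.card G)}) := by
  rintro ⟨Q, H⟩
  obtain ⟨K, hK, hQ⟩ := Pool.Agent.H80.TripodFin.poly_lt_exp Q
  obtain ⟨z, -, p, -, hp, hz, hq⟩ := Pool.Agent.H80.Tripod.main' K hK
    (Pool.Agent.H80.TripodFin.tripleEquiv (Pool.Agent.H80.Tripod.G K))
    (fun s => (MvPolynomial.X ((0 : Fin 3), s.1.1) * MvPolynomial.X ((1 : Fin 3), s.1.2.1) *
                MvPolynomial.X ((2 : Fin 3), s.1.2.2)))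
    (fun s => by rw [eq_neg_of_add_eq_zero_right s.2]; rfl)
  apply hz
  refine (Ideal.span_le.2 ?_ : _ ≤ RingHom.ker (MvPolynomial.eval z)) (H _ p hp)
  intro q hqS
  apply hq q hqS.1
  refine lt_of_le_of_lt hqS.2 ?_
  rw [Pool.Agent.H80.Tripod.card_G]; exact hQ

end Pool.Agent.S00530
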