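import Pool.Statements.S00548
import Pool.Agent.H50.Laksov

set_option autoImplicit false
open Pool Pool.MP_f28cea_ag

namespace Pool.Agent.S00548

/-- The negation of the preceding statement: For all fields k⊆K and ideals I of k[X1..Xn]: f vanishes on the K-zeros of I iff some block-weighted-homogeneous p over k (increasing positive block weights, only zero in K is 0) has p(f,f1,…,fm) in I. -/
theorem result :
    ¬ (∀ (k K : Type) [Field k] [Field K] [Algebra k K] (n : ℕ)
      (I : Ideal (MvPolynomial (Fin n) k)) (f : MvPolynomial (Fin n) k),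
      (∃ m : ℕ, ∃ w : Fin (m + 1) → ℕ, Monotone w ∧ (∀ j, 0 < w j) ∧
        ∃ p : MvPolynomial (Fin (m + 1)) k, ∃ d : ℕ,
          MvPolynomial.IsWeightedHomogeneous w p d ∧
          (∀ y : Fin (m + 1) → K, MvPolynomial.aeval y p = 0 ↔ y = 0) ∧
          ∃ g : Fin m → MvPolynomial (Fin n) k,
            MvPolynomial.aeval
              (Fin.cons f g : Fin (m + 1) → MvPolynomial (Fin n) k) p ∈ I) ↔
      (∀ x : Fin n → K, (∀ q ∈ I, MvPolynomial.aeval x q = 0) →
        MvPolynomial.aeval x f = 0)) := by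
  intro h
  obtain ⟨m, w, _, hw, p, d, hp, h0, g, hg⟩ := (h (ZMod 2) (ZMod 2) 1 ⊥
    (MvPolynomial.X 0 ^ 2 - MvPolynomial.X 0)).mpr (by
      intro x _
      simp only [map_sub, map_pow, MvPolynomial.aeval_X]
      generalize x 0 = t
      revert t
      decide)
  rw [Ideal.mem_bot] at hg
  let φ : MvPolynomial (Fin 1) (ZMod 2) →ₐ[ZMod 2] Polynomial (ZMod 2) :=
    MvPolynomial.aeval fun _ => Polynomial.X
  have h1 := congrArg φ hg
  rw [map_zero, ← AlgHom.comp_apply, MvPolynomial.comp_aeval] at h1
  have h2 := congrFun (Pool.Agent.H50.Laksov.aniso w hw p d hp (fun y hy => (h0 y).mp hy) _ h1) 0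
  have h3 := congrArg (fun q : Polynomial (ZMod 2) => q.coeff 2) h2
  simp [φ, Polynomial.coeff_X] at h3

end Pool.Agent.S00548
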