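import Pool.Statements.S00576
import Pool.Agent.H51.RadoF2

set_option autoImplicit false
open Pool Pool.MP_008109_al

namespace Pool.Agent.S00576
open Pool.Agent.H51.RadoF2

/-- The negation of the preceding statement: Every countable group with property (†) whose automorphism group has continuum size has continuum many special subsets (inverse-closed, without 1, Cayley graph isomorphic to the Rado graph) lying in pairwise distinct Aut(X)-orbits. -/
theorem result :
    ¬ (∀ (X : Type) [Group X] [Countable X],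
      (∀ (F : Finset (X × X)), (∀ p ∈ F, p.1 ≠ p.2) → ∀ (E : Finset X),
        ∃ z : X, z ∉ E ∧ ∀ p ∈ F, p.1 * z⁻¹ ≠ z * p.2⁻¹) →
      Cardinal.mk (MulAut X) = Cardinal.continuum →
      ∃ f : ℝ → Set X,
        (∀ r : ℝ, (∀ s ∈ f r, s⁻¹ ∈ f r) ∧ (1 : X) ∉ f r ∧
          ∀ U V : Finset X, Disjoint U V →
            ∃ z : X, z ∉ U ∧ z ∉ V ∧ (∀ u ∈ U, z * u⁻¹ ∈ f r) ∧ (∀ v ∈ V, z * v⁻¹ ∉ f r)) ∧
        ∀ r s : ℝ, r ≠ s → ∀ σ : MulAut X, (fun x => σ x) '' f r ≠ f s) := by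
  intro h
  obtain ⟨f, hf, hd⟩ := h Y (fun F hF E => by
    obtain ⟨z, hz⟩ := Infinite.exists_notMem_finset E
    refine ⟨z, hz, fun p hp e => hF p hp ?_⟩
    have hinv : ∀ x : Y, x⁻¹ = x := fun x => inv_eq_of_mul_eq_one_right (Y_sq x)
    rw [hinv, hinv, mul_comm z] at e
    exact mul_right_cancel e) Y_card
  obtain ⟨σ, hσ⟩ := uniq Y_sq (S := f 0) (T := f 1) (hf 0).2 (hf 1).2
  exact hd 0 1 zero_ne_one σ hσ

end Pool.Agent.S00576
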