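import Pool.Statements.S00580
import Pool.Agent.H67.Dual3

set_option autoImplicit false
open Pool Pool.MP_011e6c_al

namespace Pool.Agent.S00580

/-- The negation of the preceding statement: For every lattice L: if L embeds as a sublattice (injective, preserving joins and meets) into the normal subgroups of some group, then the order dual of L also embeds as a sublattice into the normal subgroups of some group. -/
theorem result :
    ¬ (∀ (L : Type) [Lattice L],
      (∃ (G : Type) (_ : Group G) (f : L → Subgroup G),
        Function.Injective f ∧ (∀ x, (f x).Normal) ∧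
        (∀ x y, f (x ⊔ y) = f x ⊔ f y) ∧ (∀ x y, f (x ⊓ y) = f x ⊓ f y)) →
      (∃ (H : Type) (_ : Group H) (g : Lᵒᵈ → Subgroup H),
        Function.Injective g ∧ (∀ x, (g x).Normal) ∧
        (∀ x y, g (x ⊔ y) = g x ⊔ g y) ∧ (∀ x y, g (x ⊓ y) = g x ⊓ g y))) := by
  intro h
  obtain ⟨H, _, g, h1, h2, h3, h4⟩ := h H67.Dual.L ⟨H67.Dual.G, inferInstance, Subtype.val,
    Subtype.val_injective, fun x => x.2, fun _ _ => rfl, fun _ _ => rfl⟩
  exact H67.Dual.main (fun x => g (OrderDual.toDual x)) (fun _ _ e => h1 e) (fun x => h2 _)
    (fun x y => h3 (OrderDual.toDual x) (OrderDual.toDual y))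
    (fun x y => h4 (OrderDual.toDual x) (OrderDual.toDual y))

end Pool.Agent.S00580
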