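import Pool.Statements.S00638
import Pool.Agent.H79.Reso3

set_option autoImplicit false
open Pool Pool.MP_05ef64_al

namespace Pool.Agent.S00638

/-- The negation of the preceding statement: For every field, e, and family of numerical semigroups of embedding dimension e, and all 1≤i,j≤e−1: the i-th Betti numbers are uniformly bounded over the family iff the j-th Betti numbers are uniformly bounded. -/
theorem result :
    ¬ (∀ (k : Type) [Field k] (e : ℕ) (F : Set (Fin e → ℕ)),
    (∀ g ∈ F, StrictMono g ∧
        ((AddSubmonoid.closure (Set.range g) : Set ℕ)ᶜ).Finite ∧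
        ∀ j : Fin e, g j ∉ AddSubmonoid.closure (g '' {l | l ≠ j})) →
    ∀ i j : ℕ, 1 ≤ i → i ≤ e - 1 → 1 ≤ j → j ≤ e - 1 →
      ((∃ N : ℕ, ∀ g ∈ F,
          ∃ (r : ℕ → ℕ)
            (d : ∀ n : ℕ, Matrix (Fin (r n)) (Fin (r (n + 1))) (MvPolynomial (Fin e) k)),
            r 0 = 1 ∧
            (∀ v : Fin (r 0) → MvPolynomial (Fin e) k,
              v ∈ LinearMap.range (d 0).mulVecLin ↔
                ∀ a, v a ∈ RingHom.ker
                  (MvPolynomial.aeval
                    (fun l : Fin e => (Polynomial.X : Polynomial k) ^ g l))) ∧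
            (∀ n : ℕ, LinearMap.ker (d n).mulVecLin = LinearMap.range (d (n + 1)).mulVecLin) ∧
            r i ≤ N) ↔
       (∃ N : ℕ, ∀ g ∈ F,
          ∃ (r : ℕ → ℕ)
            (d : ∀ n : ℕ, Matrix (Fin (r n)) (Fin (r (n + 1))) (MvPolynomial (Fin e) k)),
            r 0 = 1 ∧
            (∀ v : Fin (r 0) → MvPolynomial (Fin e) k,
              v ∈ LinearMap.range (d 0).mulVecLin ↔
                ∀ a, v a ∈ RingHom.ker
                  (MvPolynomial.aeval
                    (fun l : Fin e => (Polynomial.X : Polynomial k) ^ g l))) ∧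
            (∀ n : ℕ, LinearMap.ker (d n).mulVecLin = LinearMap.range (d (n + 1)).mulVecLin) ∧
            r j ≤ N))) := by
  intro H
  refine absurd ((H ℚ 8 {g | ∃ n, 2 ≤ n ∧ g = H79.Bres.gen n} ?hF 1 7 le_rfl (by norm_num)
    (by norm_num) le_rfl).2 ⟨1, ?hR⟩) ?hL
  case hL =>
      rintro ⟨N, hN⟩
      obtain ⟨r, d, h0, h1, -, h3⟩ := hN (H79.Bres.gen (N + 2)) ⟨N + 2, by omega, rfl⟩
      classical
      have hg := H79.Bres.good8 (n := N + 2) (by omega)
      let a0 : Fin (r 0) := ⟨0, by omega⟩
      have ha : ∀ a : Fin (r 0), a = a0 := fun a => Fin.ext (by have := a.2; simp [a0]; omega)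
      have := hg.card_ge (k := ℚ) (Finset.univ.image fun c => d 0 a0 c) (by
        apply le_antisymm
        · rw [Ideal.span_le]
          intro x hx
          simp only [Finset.coe_image, Finset.coe_univ, Set.image_univ, Set.mem_range] at hx
          obtain ⟨c, rfl⟩ := hx
          have := (h1 _).1 (LinearMap.mem_range_self _ (Pi.single c 1)) a0
          simpa using this
        · intro x hx
          obtain ⟨w, hw⟩ := (h1 (fun _ => x)).2 (fun _ => hx)
          have h4 : x = ∑ c, d 0 a0 c * w c := (congrFun hw a0).symm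
          rw [h4]
          exact Ideal.sum_mem _ fun c _ => Ideal.mul_mem_right _ _
            (Ideal.subset_span (by simp)))
      have h5 : (Finset.univ.image fun c => d 0 a0 c).card ≤ r 1 :=
        Finset.card_image_le.trans (by simp)
      omega
  case hR =>
      rintro g ⟨n, hn, rfl⟩
      obtain ⟨r, ε, d, h1, h2, h3, h4⟩ := H79.Reso.hr_main (H79.Bres.good8 hn)
      let I := RingHom.ker (H79.Reso.ps (H79.Bres.gen n))
      let d0 : (Fin (r 0) → MvPolynomial (Fin 8) ℚ) →ₗ[MvPolynomial (Fin 8) ℚ]
        (Fin 1 → MvPolynomial (Fin 8) ℚ) := LinearMap.pi fun _ => I.subtype ∘ₗ ε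
      have hm : ∀ {a b : ℕ} (f : (Fin a → MvPolynomial (Fin 8) ℚ) →ₗ[MvPolynomial (Fin 8) ℚ]
          (Fin b → MvPolynomial (Fin 8) ℚ)), (LinearMap.toMatrix' f).mulVecLin = f := fun f => by
        rw [← Matrix.toLin'_apply', Matrix.toLin'_toMatrix']
      refine ⟨fun m => match m with | 0 => 1 | m+1 => r m,
        fun m => match m with | 0 => LinearMap.toMatrix' d0 | m+1 => LinearMap.toMatrix' (d m),
        rfl, ?_, ?_, h4⟩
      · intro v
        show v ∈ LinearMap.range (LinearMap.toMatrix' d0).mulVecLin ↔ _
        rw [hm]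
        constructor
        · rintro ⟨w, rfl⟩ a
          exact (ε w).2
        · intro hv
          obtain ⟨w, hw⟩ := h1 ⟨v (0 : Fin 1), hv _⟩
          refine ⟨w, funext fun (a : Fin 1) => ?_⟩
          rw [Subsingleton.elim a 0]
          exact congrArg Subtype.val hw
      · intro m
        cases m with
        | zero =>
          show LinearMap.ker (LinearMap.toMatrix' d0).mulVecLin =
            LinearMap.range (LinearMap.toMatrix' (d 0)).mulVecLin
          rw [hm, hm, ← h2]
          ext w
          simp only [LinearMap.mem_ker]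
          constructor
          · intro h
            exact Subtype.ext (congrFun h 0)
          · intro h
            funext a
            exact congrArg Subtype.val h
        | succ m =>
          show LinearMap.ker (LinearMap.toMatrix' (d m)).mulVecLin =
            LinearMap.range (LinearMap.toMatrix' (d (m+1))).mulVecLin
          rw [hm, hm, h3]
  case hF =>
    rintro g ⟨n, hn, rfl⟩
    have ha := H79.Bres.good8 hn
    generalize H79.Bres.gen n = a at ha
    refine ⟨ha.mono, ?_, ?_⟩
    · obtain ⟨M, hM⟩ := ha.big
      apply (Set.finite_Iic M).subset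
      intro x hx
      by_contra hc
      apply hx
      obtain ⟨c, rfl⟩ := hM x (by simp at hc; omega)
      exact AddSubmonoid.sum_mem _ fun j _ =>
        AddSubmonoid.nsmul_mem _ (AddSubmonoid.subset_closure (Set.mem_range_self j)) (c j)
    · intro j hj
      have key : ∀ x ∈ AddSubmonoid.closure (a '' {l | l ≠ j}),
          ∃ c : Fin 8 → ℕ, c j = 0 ∧ ∑ i, c i * a i = x := by
        intro x hx
        induction hx using AddSubmonoid.closure_induction with
        | mem x hx =>
          obtain ⟨l, hl, rfl⟩ := hx
          exact ⟨Pi.single l 1, Pi.single_eq_of_ne (Ne.symm hl) _, H79.Bres.wt_single a l⟩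
        | zero => exact ⟨0, rfl, by simp⟩
        | add x y _ _ hx hy =>
          obtain ⟨c, h1, rfl⟩ := hx
          obtain ⟨c', h1', rfl⟩ := hy
          exact ⟨c + c', by simp [h1, h1'],
            by simp only [Pi.add_apply, add_mul, Finset.sum_add_distrib]⟩
      obtain ⟨c, h1, h2⟩ := key _ hj
      exact ha.minimal j c h1 h2

end Pool.Agent.S00638
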