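import Pool.Statements.S00643
import Pool.Agent.H75.ConeOpen

set_option autoImplicit false
open Pool Pool.MP_066b7c_al

namespace Pool.Agent.S00643

open Pool.Agent.H75.ConeOpen

/-- A family of matrices supported on generalized diagonals, forming on each diagonal a code of
minimum weight at least `ρ`. -/
def Good {κ α β Γ : Type} [Fintype κ] [AddCommGroup Γ]
    (M : κ → Matrix α β ℂ) (r : α → Γ) (s : β → Γ) (δ : κ → Γ) (ρ : ℕ) : Prop :=
  (∀ p i j, M p i j ≠ 0 → s j - r i = δ p) ∧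
  ∀ (c : κ → ℂ) (p : κ), c p ≠ 0 → ∃ W : Finset (α × β), ρ ≤ W.card ∧
    ∀ q ∈ W, s q.2 - r q.1 = δ p ∧ ∑ p', c p' * M p' q.1 q.2 ≠ 0

theorem Good.minor {κ α β Γ : Type} [Fintype κ] [AddCommGroup Γ]
    [LinearOrder Γ] [IsOrderedAddMonoid Γ] {M : κ → Matrix α β ℂ} {r : α → Γ} {s : β → Γ}
    {δ : κ → Γ} {ρ : ℕ} (h : Good M r s δ ρ) (hr : Function.Injective r)
    (hs : Function.Injective s) (c : κ → ℂ) (hc : c ≠ 0) :
    ∃ (u : Fin ρ → α) (v : Fin ρ → β),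
      (Matrix.of fun i j => ∑ p, c p * M p (u i) (v j)).det ≠ 0 := by
  classical
  obtain ⟨p, hp, hmax⟩ := Finset.exists_max_image (Finset.univ.filter fun p => c p ≠ 0) δ (by
    obtain ⟨p, hp⟩ := Function.ne_iff.1 hc
    exact ⟨p, Finset.mem_filter.2 ⟨Finset.mem_univ _, hp⟩⟩)
  obtain ⟨W, h1, hW⟩ := h.2 c p (Finset.mem_filter.1 hp).2
  have h2 : ρ ≤ (W.image fun q => r q.1).card := by
    rw [Finset.card_image_of_injOn]
    · exact h1
    · intro q hq q' hq' e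
      have e1 := (hW q hq).1
      have e2 := (hW q' hq').1
      have e3 : r q.1 = r q'.1 := e
      refine Prod.ext (hr e3) (hs ?_)
      rw [e3, ← e2] at e1
      exact sub_left_injective e1
  have h3 : ∀ i, ∃ q ∈ W, r q.1 = Finset.orderEmbOfCardLe _ h2 i := fun i =>
    Finset.mem_image.1 (Finset.orderEmbOfCardLe_mem _ h2 i)
  choose w hw hw' using h3
  refine ⟨fun i => (w i).1, fun i => (w i).2, ?_⟩
  rw [Matrix.det_of_isLowerTriangular]
  · exact Finset.prod_ne_zero_iff.2 fun i _ => (hW _ (hw i)).2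
  · intro i j hij
    have h4 : r (w i).1 < r (w j).1 := by
      rw [hw', hw']
      exact (Finset.orderEmbOfCardLe _ h2).strictMono hij
    refine Finset.sum_eq_zero fun p' _ => ?_
    by_contra h0
    have h5 := hmax p' (Finset.mem_filter.2 ⟨Finset.mem_univ _, left_ne_zero_of_mul h0⟩)
    rw [← h.1 p' _ _ (right_ne_zero_of_mul h0), ← (hW _ (hw j)).1] at h5
    exact not_le.2 h4 ((sub_le_sub_iff_left _).1 h5)

theorem Good.prod {κ α β Γ κ' α' β' Γ' : Type} [Fintype κ]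
    [AddCommGroup Γ] [Fintype κ'] [AddCommGroup Γ']
    {M : κ → Matrix α β ℂ} {r : α → Γ} {s : β → Γ} {δ : κ → Γ} {ρ : ℕ}
    {M' : κ' → Matrix α' β' ℂ} {r' : α' → Γ'} {s' : β' → Γ'} {δ' : κ' → Γ'} {ρ' : ℕ}
    (h : Good M r s δ ρ) (h' : Good M' r' s' δ' ρ') :
    Good (Γ := Γ ×ₗ Γ') (fun p : κ × κ' => Matrix.of fun (i : α × α') (j : β × β') =>
        M p.1 i.1 j.1 * M' p.2 i.2 j.2)
      (fun i => toLex (r i.1, r' i.2)) (fun j => toLex (s j.1, s' j.2))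
      (fun p => toLex (δ p.1, δ' p.2)) (ρ * ρ') := by
  classical
  refine ⟨fun p i j hp => ?_, fun c p hp => ?_⟩
  · dsimp only
    rw [← h.1 _ _ _ (left_ne_zero_of_mul hp), ← h'.1 _ _ _ (right_ne_zero_of_mul hp)]
    rfl
  · obtain ⟨W, h1, hW⟩ := h.2 (fun p1 => c (p1, p.2)) p.1 hp
    have h2 : ∀ q : α × β, ∃ W' : Finset (α' × β'), q ∈ W → ρ' ≤ W'.card ∧ ∀ q' ∈ W',
        s' q'.2 - r' q'.1 = δ' p.2 ∧
          ∑ p2, (∑ p1, c (p1, p2) * M p1 q.1 q.2) * M' p2 q'.1 q'.2 ≠ 0 := by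
      intro q
      by_cases hq : q ∈ W
      · obtain ⟨W', h3⟩ := h'.2 (fun p2 => ∑ p1, c (p1, p2) * M p1 q.1 q.2) p.2 (hW q hq).2
        exact ⟨W', fun _ => h3⟩
      · exact ⟨∅, fun h3 => absurd h3 hq⟩
    choose W' hW' using h2
    refine ⟨(W.sigma W').image fun x => ((x.1.1, x.2.1), (x.1.2, x.2.2)), ?_, fun q hq => ?_⟩
    · rw [Finset.card_image_of_injective, Finset.card_sigma]
      · calc ρ * ρ' ≤ W.card * ρ' := Nat.mul_le_mul_right _ h1
          _ ≤ ∑ q ∈ W, (W' q).card := by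
            rw [← smul_eq_mul]
            exact Finset.card_nsmul_le_sum _ _ _ fun q hq => (hW' q hq).1
      · rintro ⟨⟨a, b⟩, ⟨c, d⟩⟩ ⟨⟨a', b'⟩, ⟨c', d'⟩⟩ e
        simp only [Prod.mk.injEq] at e
        obtain ⟨⟨rfl, rfl⟩, rfl, rfl⟩ := e
        rfl
    · obtain ⟨x, hx, rfl⟩ := Finset.mem_image.1 hq
      obtain ⟨hx1, hx2⟩ := Finset.mem_sigma.1 hx
      obtain ⟨e1, -⟩ := hW _ hx1
      obtain ⟨e2, e3⟩ := (hW' _ hx1).2 _ hx2
      refine ⟨?_, ?_⟩
      · dsimp only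
        rw [← e1, ← e2]
        rfl
      · rw [Fintype.sum_prod_type_right]
        simpa only [Finset.sum_mul, mul_assoc, Matrix.of_apply] using e3

theorem good_single {κ : Type} [Fintype κ] (a b ρ : ℕ) (g1 g2 : κ → ℕ)
    (hg : ∀ p p', g1 p = g1 p' → g2 p = g2 p' → p = p') (h1 : ∀ p, g1 p + ρ ≤ a)
    (h2 : ∀ p, g2 p + ρ ≤ b) :
    Good (Γ := ℤ) (fun p => Matrix.of fun (i : Fin a) (j : Fin b) =>
        if ((j : ℕ) : ℤ) - (i : ℕ) = (g2 p : ℤ) - g1 p then (((i : ℕ) : ℂ) + 1) ^ g1 p else 0)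
      (fun i => ((i : ℕ) : ℤ)) (fun j => ((j : ℕ) : ℤ)) (fun p => (g2 p : ℤ) - g1 p) ρ := by
  classical
  refine ⟨fun p i j hp => ?_, fun c p hp => ?_⟩
  · by_contra h
    exact hp (if_neg h)
  · obtain ⟨i0, hi0⟩ : ∃ i0, i0 = g1 p - g2 p := ⟨_, rfl⟩
    obtain ⟨j0, hj0⟩ : ∃ j0, j0 = g2 p - g1 p := ⟨_, rfl⟩
    obtain ⟨L, hL⟩ : ∃ L, L = min (a - i0) (b - j0) := ⟨_, rfl⟩
    let S := Finset.univ.filter fun p' => (g2 p : ℤ) - g1 p = (g2 p' : ℤ) - g1 p'
    let G : Polynomial ℂ := ∑ p' ∈ S, Polynomial.monomial (g1 p' - i0) (c p')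
    have hG0 : G ≠ 0 := by
      intro h0
      have h3 := congrArg (fun f => Polynomial.coeff f (g1 p - i0)) h0
      simp only [G, Polynomial.finsetSum_coeff, Polynomial.coeff_monomial,
        Polynomial.coeff_zero] at h3
      rw [Finset.sum_eq_single p, if_pos rfl] at h3
      · exact hp h3
      · intro p' hp' hne
        have h4 := (Finset.mem_filter.1 hp').2
        exact if_neg fun h5 => hne (hg _ _ (by omega) (by omega))
      · intro h4
        exact absurd (Finset.mem_filter.2 ⟨Finset.mem_univ p, rfl⟩ : p ∈ S) h4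
    have hdeg : G.natDegree ≤ L - ρ := by
      refine Polynomial.natDegree_sum_le_of_forall_le _ _ fun p' hp' => ?_
      refine (Polynomial.natDegree_monomial_le _).trans ?_
      have h4 := (Finset.mem_filter.1 hp').2
      have h5 := h1 p'
      have h6 := h2 p'
      omega
    let z : Fin L → ℂ := fun t => ((i0 + t : ℕ) : ℂ) + 1
    have hroots : (Finset.univ.filter fun t : Fin L => G.eval (z t) = 0).card ≤ L - ρ := by
      refine le_trans ?_ ((Multiset.toFinset_card_le _).trans ((Polynomial.card_roots' G).trans hdeg))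
      refine Finset.card_le_card_of_injOn z (fun t ht => ?_) fun t _ t' _ e => ?_
      · exact Finset.mem_coe.2 (Multiset.mem_toFinset.2
          ((Polynomial.mem_roots hG0).2 (Finset.mem_filter.1 ht).2))
      · have h3 : i0 + t = i0 + t' := Nat.cast_injective (R := ℂ) (add_right_cancel e)
        exact Fin.ext (by omega)
    have h3 := Finset.card_filter_add_card_filter_not (s := Finset.univ)
      (fun t : Fin L => G.eval (z t) = 0)
    rw [Finset.card_univ, Fintype.card_fin] at h3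
    have h4 := h1 p
    have h5 := h2 p
    refine ⟨(Finset.univ.filter fun t : Fin L => ¬ G.eval (z t) = 0).image
      fun t : Fin L => (⟨i0 + t, by omega⟩, ⟨j0 + t, by omega⟩), ?_, fun q hq => ?_⟩
    · rw [Finset.card_image_of_injective]
      · omega
      · intro t t' e
        have := congrArg (fun q => (q.1 : ℕ)) e
        exact Fin.ext (by simpa using this)
    · obtain ⟨t, ht, rfl⟩ := Finset.mem_image.1 hq
      refine ⟨by dsimp only; omega, ?_⟩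
      have h6 := (Finset.mem_filter.1 ht).2
      have h7 : z t ≠ 0 := by
        have : z t = ((i0 + t + 1 : ℕ) : ℂ) := by simp [z]
        rw [this]
        exact Nat.cast_ne_zero.2 (Nat.succ_ne_zero _)
      have h8 : ((j0 + t : ℕ) : ℤ) - (i0 + t : ℕ) = (g2 p : ℤ) - g1 p := by omega
      simp only [Matrix.of_apply, h8, mul_ite, mul_zero]
      rw [← Finset.sum_filter]
      convert mul_ne_zero h6 (pow_ne_zero i0 h7) using 1
      simp only [G, Polynomial.eval_finsetSum, Polynomial.eval_monomial, Finset.sum_mul]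
      refine Finset.sum_congr rfl fun p' hp' => ?_
      have h9 := (Finset.mem_filter.1 hp').2
      rw [mul_assoc, ← pow_add, Nat.sub_add_cancel (by omega)]

theorem exists_good (a b k : ℕ) (hk : 1 ≤ k) (hk' : k ≤ a * b) :
    ∃ (ρ : ℕ) (M : Fin k → Matrix (Fin a) (Fin b) ℂ) (δ : Fin k → ℤ), 1 ≤ ρ ∧ ρ ≤ a ∧ ρ ≤ b ∧
      (a - ρ) * (b - ρ) < k ∧ Good M (fun i => ((i : ℕ) : ℤ)) (fun j => ((j : ℕ) : ℤ)) δ ρ := by
  classical
  have hex : ∃ r, (a - r) * (b - r) < k := ⟨a, by simpa using Nat.lt_of_succ_le hk⟩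
  have h1 : Nat.find hex ≤ a := Nat.find_min' hex (by simpa using Nat.lt_of_succ_le hk)
  have h2 : Nat.find hex ≤ b := Nat.find_min' hex (by simpa using Nat.lt_of_succ_le hk)
  have h3 : Nat.find hex ≠ 0 := fun h => by
    have := Nat.find_spec hex
    rw [h] at this
    simp only [Nat.sub_zero] at this
    omega
  have h4 := Nat.find_min hex (m := Nat.find hex - 1) (by omega)
  obtain ⟨g⟩ : Nonempty (Fin k ↪ Fin (a - (Nat.find hex - 1)) × Fin (b - (Nat.find hex - 1))) :=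
    Function.Embedding.nonempty_of_card_le (by simpa using h4)
  refine ⟨Nat.find hex, _, _, by omega, h1, h2, Nat.find_spec hex,
    good_single a b _ (fun p => (g p).1) (fun p => (g p).2)
      (fun p p' e1 e2 => g.injective (Prod.ext (Fin.ext e1) (Fin.ext e2)))
      (fun p => ?_) fun p => ?_⟩
  · have := (g p).1.2
    omega
  · have := (g p).2.2
    omega

theorem rank_factor {α β : Type} [Fintype α] [Fintype β] (A : Matrix α β ℂ) :
    ∃ (U : Matrix α (Fin A.rank) ℂ) (V : Matrix (Fin A.rank) β ℂ), A = U * V := by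
  let B := Module.finBasisOfFinrankEq ℂ (Submodule.span ℂ (Set.range A.col))
    (Matrix.rank_eq_finrank_span_cols A).symm
  refine ⟨Matrix.of fun i t => (B t).1 i,
    Matrix.of fun t j => B.repr ⟨A.col j, Submodule.subset_span ⟨j, rfl⟩⟩ t, ?_⟩
  ext i j
  have := congrFun (congrArg Subtype.val
    (B.sum_repr ⟨A.col j, Submodule.subset_span ⟨j, rfl⟩⟩)) i
  simp only [Submodule.coe_sum, Submodule.coe_smul, Finset.sum_apply, Pi.smul_apply,
    smul_eq_mul, Matrix.col_apply] at this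
  rw [Matrix.mul_apply, ← this]
  exact Finset.sum_congr rfl fun t _ => mul_comm _ _

theorem rank_kron {α β α' β' : Type} [Fintype α] [Fintype β] [Fintype α'] [Fintype β']
    (A : Matrix α β ℂ) (B : Matrix α' β' ℂ) :
    (Matrix.kroneckerMap (fun u v : ℂ => u * v) A B).rank ≤ A.rank * B.rank := by
  obtain ⟨U, V, e⟩ := rank_factor A
  obtain ⟨U', V', e'⟩ := rank_factor B
  have h := Matrix.mul_kronecker_mul U V U' V'
  rw [← e, ← e'] at h
  rw [h]
  refine (Matrix.rank_mul_le_left _ _).trans ((Matrix.rank_le_card_width _).trans ?_)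
  simp

theorem final {a1 b1 k1 a2 b2 k2 ρ1 ρ2 : ℕ} (hk1 : 1 ≤ k1) (hk2 : 1 ≤ k2) (p1 : 1 ≤ ρ1)
    (p2 : 1 ≤ ρ2) (ha1 : ρ1 ≤ a1) (hb1 : ρ1 ≤ b1) (ha2 : ρ2 ≤ a2) (hb2 : ρ2 ≤ b2)
    (h1 : (a1 - ρ1) * (b1 - ρ1) < k1) (h2 : (a2 - ρ2) * (b2 - ρ2) < k2)
    (M : Fin k1 → Matrix (Fin a1) (Fin b1) ℂ) (N : Fin k2 → Matrix (Fin a2) (Fin b2) ℂ)
    (h : ∀ t : Fin k1 × Fin k2 → ℂ, t ≠ 0 → ρ1 * ρ2 ≤
      (∑ q, t q • Matrix.kroneckerMap (fun u v : ℂ => u * v) (M q.1) (N q.2)).rank) :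
    sInf {r : ℕ | ∃ s ∈ Submodule.span ℂ
        {x : Matrix (Fin a1 × Fin a2) (Fin b1 × Fin b2) ℂ |
          ∃ i j, x = Matrix.kroneckerMap (fun u v : ℂ => u * v) (M i) (N j)},
        s ≠ 0 ∧ s.rank = r}
      = sInf {r : ℕ | ∃ s ∈ Submodule.span ℂ (Set.range M), s ≠ 0 ∧ s.rank = r} *
        sInf {r : ℕ | ∃ s ∈ Submodule.span ℂ (Set.range N), s ≠ 0 ∧ s.rank = r} := by
  classical
  have hk : ∀ (c : Fin k1 → ℂ) (d : Fin k2 → ℂ),
      Matrix.kroneckerMap (fun u v : ℂ => u * v) (∑ i, c i • M i) (∑ j, d j • N j) =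
        ∑ q : Fin k1 × Fin k2, (c q.1 * d q.2) •
          Matrix.kroneckerMap (fun u v : ℂ => u * v) (M q.1) (N q.2) := by
    intro c d
    ext i j
    simp only [Matrix.kroneckerMap_apply, Matrix.sum_apply, Matrix.smul_apply, smul_eq_mul,
      Fintype.sum_prod_type, Finset.sum_mul_sum]
    exact Finset.sum_congr rfl fun _ _ => Finset.sum_congr rfl fun _ _ => by ring
  have hne : ∀ (c : Fin k1 → ℂ) (d : Fin k2 → ℂ), c ≠ 0 → d ≠ 0 →
      Matrix.kroneckerMap (fun u v : ℂ => u * v) (∑ i, c i • M i) (∑ j, d j • N j) ≠ 0 := by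
    intro c d hc hd h0
    obtain ⟨i, hi⟩ := Function.ne_iff.1 hc
    obtain ⟨j, hj⟩ := Function.ne_iff.1 hd
    have h3 := h (fun q => c q.1 * d q.2) (Function.ne_iff.2 ⟨(i, j), mul_ne_zero hi hj⟩)
    rw [← hk, h0, Matrix.rank_zero] at h3
    exact absurd h3 (not_le.2 (Nat.mul_pos p1 p2))
  have hM : LinearIndependent ℂ M := by
    rw [Fintype.linearIndependent_iff]
    intro c hc
    by_contra hc'
    push Not at hc'
    refine hne c (fun _ => 1) (Function.ne_iff.2 hc')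
      (Function.ne_iff.2 ⟨⟨0, hk2⟩, one_ne_zero⟩) ?_
    rw [hc]
    ext i j
    simp
  have hN : LinearIndependent ℂ N := by
    rw [Fintype.linearIndependent_iff]
    intro c hc
    by_contra hc'
    push Not at hc'
    refine hne (fun _ => 1) c (Function.ne_iff.2 ⟨⟨0, hk1⟩, one_ne_zero⟩)
      (Function.ne_iff.2 hc') ?_
    rw [hc]
    ext i j
    simp
  obtain ⟨Y1, hY1, hY1', r1⟩ := exists_low_rank a1 b1 ρ1 ha1 hb1 (Submodule.span ℂ (Set.range M))
    (by rwa [finrank_span_eq_card hM, Fintype.card_fin])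
  obtain ⟨Y2, hY2, hY2', r2⟩ := exists_low_rank a2 b2 ρ2 ha2 hb2 (Submodule.span ℂ (Set.range N))
    (by rwa [finrank_span_eq_card hN, Fintype.card_fin])
  have m1 : Y1.rank ∈ {r : ℕ | ∃ s ∈ Submodule.span ℂ (Set.range M), s ≠ 0 ∧ s.rank = r} :=
    ⟨Y1, hY1, hY1', rfl⟩
  have m2 : Y2.rank ∈ {r : ℕ | ∃ s ∈ Submodule.span ℂ (Set.range N), s ≠ 0 ∧ s.rank = r} :=
    ⟨Y2, hY2, hY2', rfl⟩
  obtain ⟨s1, hs1, hs1', e1⟩ := Nat.sInf_mem ⟨_, m1⟩
  obtain ⟨s2, hs2, hs2', e2⟩ := Nat.sInf_mem ⟨_, m2⟩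
  obtain ⟨c, rfl⟩ := (Submodule.mem_span_range_iff_exists_fun ℂ).1 hs1
  obtain ⟨d, rfl⟩ := (Submodule.mem_span_range_iff_exists_fun ℂ).1 hs2
  have hc : c ≠ 0 := fun h0 => hs1' (by simp [h0])
  have hd : d ≠ 0 := fun h0 => hs2' (by simp [h0])
  have m3 : (Matrix.kroneckerMap (fun u v : ℂ => u * v) (∑ i, c i • M i) (∑ j, d j • N j)).rank ∈
      {r : ℕ | ∃ s ∈ Submodule.span ℂ
        {x : Matrix (Fin a1 × Fin a2) (Fin b1 × Fin b2) ℂ |
          ∃ i j, x = Matrix.kroneckerMap (fun u v : ℂ => u * v) (M i) (N j)},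
        s ≠ 0 ∧ s.rank = r} := by
    refine ⟨_, ?_, hne c d hc hd, rfl⟩
    rw [hk]
    exact Submodule.sum_mem _ fun q _ => Submodule.smul_mem _ _
      (Submodule.subset_span ⟨q.1, q.2, rfl⟩)
  apply le_antisymm
  · rw [← e1, ← e2]
    exact (Nat.sInf_le m3).trans (rank_kron _ _)
  · obtain ⟨s, hs, hs', e⟩ := Nat.sInf_mem ⟨_, m3⟩
    rw [← e]
    have hset : {x : Matrix (Fin a1 × Fin a2) (Fin b1 × Fin b2) ℂ |
          ∃ i j, x = Matrix.kroneckerMap (fun u v : ℂ => u * v) (M i) (N j)} =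
        Set.range fun q : Fin k1 × Fin k2 =>
          Matrix.kroneckerMap (fun u v : ℂ => u * v) (M q.1) (N q.2) := by
      ext x
      exact ⟨fun ⟨i, j, e⟩ => ⟨(i, j), e.symm⟩, fun ⟨q, e⟩ => ⟨q.1, q.2, e.symm⟩⟩
    rw [hset] at hs
    obtain ⟨t, rfl⟩ := (Submodule.mem_span_range_iff_exists_fun ℂ).1 hs
    have ht : t ≠ 0 := fun h0 => hs' (by simp [h0])
    exact (Nat.mul_le_mul ((Nat.sInf_le m1).trans r1) ((Nat.sInf_le m2).trans r2)).trans (h t ht)

open MvPolynomial in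
theorem result :
    ∀ (a1 b1 k1 a2 b2 k2 : ℕ), 1 ≤ k1 → k1 ≤ a1 * b1 → 1 ≤ k2 → k2 ≤ a2 * b2 →
      ∃ P : MvPolynomial ((Fin k1 × Fin a1 × Fin b1) ⊕ (Fin k2 × Fin a2 × Fin b2)) ℂ,
        P ≠ 0 ∧
        ∀ (M : Fin k1 → Matrix (Fin a1) (Fin b1) ℂ) (N : Fin k2 → Matrix (Fin a2) (Fin b2) ℂ),
          MvPolynomial.eval
              (Sum.elim (fun t : Fin k1 × Fin a1 × Fin b1 => M t.1 t.2.1 t.2.2)
                (fun t : Fin k2 × Fin a2 × Fin b2 => N t.1 t.2.1 t.2.2)) P ≠ 0 →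
          sInf {r : ℕ | ∃ s ∈ Submodule.span ℂ
              {x : Matrix (Fin a1 × Fin a2) (Fin b1 × Fin b2) ℂ |
                ∃ i j, x = Matrix.kroneckerMap (fun u v : ℂ => u * v) (M i) (N j)},
              s ≠ 0 ∧ s.rank = r}
            = sInf {r : ℕ | ∃ s ∈ Submodule.span ℂ (Set.range M), s ≠ 0 ∧ s.rank = r} *
              sInf {r : ℕ | ∃ s ∈ Submodule.span ℂ (Set.range N), s ≠ 0 ∧ s.rank = r} := by
  intro a1 b1 k1 a2 b2 k2 hk1 hk1' hk2 hk2'
  obtain ⟨ρ1, M0, δ1, p1, ha1, hb1, h1, g1⟩ := exists_good a1 b1 k1 hk1 hk1'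
  obtain ⟨ρ2, N0, δ2, p2, ha2, hb2, h2, g2⟩ := exists_good a2 b2 k2 hk2 hk2'
  let f : (Fin (ρ1 * ρ2) → Fin a1 × Fin a2) × (Fin (ρ1 * ρ2) → Fin b1 × Fin b2) →
      MvPolynomial (Fin k1 × Fin k2)
        (MvPolynomial ((Fin k1 × Fin a1 × Fin b1) ⊕ (Fin k2 × Fin a2 × Fin b2)) ℂ) :=
    fun uv => (Matrix.of fun i j => ∑ q : Fin k1 × Fin k2,
      C (X (Sum.inl (q.1, (uv.1 i).1, (uv.2 j).1)) * X (Sum.inr (q.2, (uv.1 i).2, (uv.2 j).2))) *
        X q).det
  have e1 : ∀ (M : Fin k1 → Matrix (Fin a1) (Fin b1) ℂ) (N : Fin k2 → Matrix (Fin a2) (Fin b2) ℂ)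
      (t : Fin k1 × Fin k2 → ℂ) uv,
      eval t (map (eval (Sum.elim (fun t : Fin k1 × Fin a1 × Fin b1 => M t.1 t.2.1 t.2.2)
        (fun t : Fin k2 × Fin a2 × Fin b2 => N t.1 t.2.1 t.2.2))) (f uv)) =
      (Matrix.of fun i j => ∑ q : Fin k1 × Fin k2, t q *
        (M q.1 (uv.1 i).1 (uv.2 j).1 * N q.2 (uv.1 i).2 (uv.2 j).2)).det := by
    intro M N t uv
    change ((eval t).comp (map (eval _))) (Matrix.det _) = _
    rw [RingHom.map_det]
    congr 1
    ext i j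
    simp [mul_comm]
  obtain ⟨P, hP1, hP2⟩ := open_lemma f (fun _ => Fintype.card (Fin (ρ1 * ρ2)))
    (fun uv => det_homogeneous _ fun i j =>
      IsHomogeneous.sum _ _ _ fun q _ => isHomogeneous_C_mul_X _ _)
    (Sum.elim (fun t : Fin k1 × Fin a1 × Fin b1 => M0 t.1 t.2.1 t.2.2)
      (fun t : Fin k2 × Fin a2 × Fin b2 => N0 t.1 t.2.1 t.2.2))
    (by
      intro t ht
      by_contra h0
      obtain ⟨u, v, huv⟩ := (g1.prod g2).minor
        (fun x y e => by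
          simp only [EmbeddingLike.apply_eq_iff_eq, Prod.mk.injEq, Nat.cast_inj] at e
          exact Prod.ext (Fin.ext e.1) (Fin.ext e.2))
        (fun x y e => by
          simp only [EmbeddingLike.apply_eq_iff_eq, Prod.mk.injEq, Nat.cast_inj] at e
          exact Prod.ext (Fin.ext e.1) (Fin.ext e.2)) t h0
      exact huv ((e1 M0 N0 t (u, v)).symm.trans (ht _)))
  refine ⟨P, fun h0 => hP1 (by rw [h0, map_zero]), fun M N hP => ?_⟩
  refine final hk1 hk2 p1 p2 ha1 hb1 ha2 hb2 h1 h2 M N fun t ht => ?_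
  by_contra hc
  refine ht (hP2 _ hP t fun uv => ?_)
  rw [e1]
  by_contra h3
  refine hc (le_rank_of_minor _ uv.1 uv.2 ?_)
  convert h3 using 2
  ext i j
  simp [Matrix.sum_apply]

end Pool.Agent.S00643
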