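import Pool.Statements.S00658
import Pool.Agent.H68.Sch1

set_option autoImplicit false
open Pool Pool.MP_08b069_al

namespace Pool.Agent.S00658

theorem result :
    ¬ (∀ X : (G : Type) → [Group G] → Prop,
      ((∀ (G : Type) [Group G], X G → Finite G ∧ IsSolvable G) ∧
        (∀ (G H : Type) [Group G] [Group H], Nonempty (G ≃* H) → X G → X H) ∧
        (∀ (G : Type) [Group G] (N : Subgroup G) [N.Normal], X G → X (G ⧸ N)) ∧
        (∀ (G : Type) [Group G] [Finite G], IsSolvable G →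
          (∀ (N : Subgroup G) [N.Normal],
            (∃ M : Subgroup (G ⧸ N), IsCoatom M ∧ M.normalCore = ⊥) → X (G ⧸ N)) → X G)) →
      (∃ (G : Type) (_ : Group G), X G ∧ Nontrivial G) →
      ∃ A : (G : Type) → [Group G] → Prop,
        ((∀ (G : Type) [Group G], A G → Finite G ∧ IsSolvable G) ∧
          (∀ (G H : Type) [Group G] [Group H], Nonempty (G ≃* H) → A G → A H) ∧
          (∀ (G : Type) [Group G] (N : Subgroup G) [N.Normal], A G → A (G ⧸ N)) ∧
          (∀ (G : Type) [Group G] [Finite G], IsSolvable G →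
            (∀ (N : Subgroup G) [N.Normal],
              (∃ M : Subgroup (G ⧸ N), IsCoatom M ∧ M.normalCore = ⊥) → A (G ⧸ N)) → A G)) ∧
        (∃ (G : Type) (_ : Group G), A G ∧ Nontrivial G) ∧
        (∀ B : (G : Type) → [Group G] → Prop,
          ((∀ (G : Type) [Group G], B G → Finite G ∧ IsSolvable G) ∧
            (∀ (G H : Type) [Group G] [Group H], Nonempty (G ≃* H) → B G → B H) ∧
            (∀ (G : Type) [Group G] (N : Subgroup G) [N.Normal], B G → B (G ⧸ N)) ∧
            (∀ (G : Type) [Group G] [Finite G], IsSolvable G →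
              (∀ (N : Subgroup G) [N.Normal],
                (∃ M : Subgroup (G ⧸ N), IsCoatom M ∧ M.normalCore = ⊥) → B (G ⧸ N)) → B G)) →
          (∀ (G : Type) [Group G] [Finite G], IsSolvable G →
            ∃ E F : Subgroup G,
              (∀ (N : Subgroup G) [N.Normal],
                B ↥(E.map (QuotientGroup.mk' N)) ∧
                ∀ K : Subgroup (G ⧸ N), E.map (QuotientGroup.mk' N) ≤ K → B ↥K →
                  K = E.map (QuotientGroup.mk' N)) ∧
              (∀ (N : Subgroup G) [N.Normal],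
                A ↥(F.map (QuotientGroup.mk' N)) ∧
                ∀ K : Subgroup (G ⧸ N), F.map (QuotientGroup.mk' N) ≤ K → A ↥K →
                  K = F.map (QuotientGroup.mk' N)) ∧
              E ≤ F) →
          (∀ (G : Type) [Group G], B G → Subsingleton G) ∨
            (∀ (G : Type) [Group G], B G ↔ A G)) ∧
        (∀ (G : Type) [Group G] [Finite G], IsSolvable G →
          ∃ E F : Subgroup G,
            (∀ (N : Subgroup G) [N.Normal],
              A ↥(E.map (QuotientGroup.mk' N)) ∧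
              ∀ K : Subgroup (G ⧸ N), E.map (QuotientGroup.mk' N) ≤ K → A ↥K →
                K = E.map (QuotientGroup.mk' N)) ∧
            (∀ (N : Subgroup G) [N.Normal],
              X ↥(F.map (QuotientGroup.mk' N)) ∧
              ∀ K : Subgroup (G ⧸ N), F.map (QuotientGroup.mk' N) ≤ K → X ↥K →
                K = F.map (QuotientGroup.mk' N)) ∧
            E ≤ F)) := by
  open Pool.Agent.H68.Sch Pool.Agent.H68.Sat in
  intro h
  obtain ⟨A, ⟨a1, a2, a3, a4⟩, a5, a6, a7⟩ := h (XX 0) ⟨xx_sk.fin, xx_sk.iso, xx_sk.quo, xx_sk.prim⟩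
    (by obtain ⟨Z, _, h1, h2⟩ := xx_cyc Nat.prime_two; exact ⟨Z, _, (h2 0).2 (Nat.zero_le _), h1⟩)
  obtain ⟨p, hp, e⟩ := below ⟨a1, a2, a3, a4⟩ (fun G _ _ hs => by
    obtain ⟨E, F, h1, h2, h3⟩ := a7 G hs
    exact ⟨E, F, pj_of a2 h1, pj_of xx_sk.iso h2, h3⟩) a5
  rcases a6 (XX (p + 1)) ⟨xx_sk.fin, xx_sk.iso, xx_sk.quo, xx_sk.prim⟩ (fun G _ _ hs => by
    have : Group.IsSolvable G := hs
    obtain ⟨F, m, h1, h2⟩ := pair (G := G) (n := p)
    exact ⟨m.sub, F, fun N _ => ⟨(h2 _ _ (mk_surj N)).1, fun K a b =>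
      le_antisymm ((h2 _ _ (mk_surj N)).2 K a b) a⟩, fun N _ => ⟨(e _).2 (h1 _ _ (mk_surj N)).1,
      fun K a b => le_antisymm ((h1 _ _ (mk_surj N)).2 K a ((e _).1 b)) a⟩, fun _ x => x.1⟩) with k | k
  · obtain ⟨q, h1, hq⟩ := Nat.exists_infinite_primes (p + 1)
    obtain ⟨Z, _, h2, h3⟩ := xx_cyc hq
    exact not_subsingleton Z (k Z ((h3 _).2 h1))
  · obtain ⟨Z, _, -, h3⟩ := xx_cyc hp
    exact Nat.not_succ_le_self p ((h3 _).1 ((k Z).2 ((e Z).2 ((h3 _).2 le_rfl))))

end Pool.Agent.S00658
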