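import Pool.Statements.S00661
import Pool.Agent.H66.Gam2

set_option autoImplicit false
open Pointwise
open Pool Pool.MP_08cc25_al

namespace Pool.Agent.S00661

/-- Every infinite group G can be split into countably many pairwise disjoint sets A_n so that no A_n satisfies F·A_n = G for any subset F of G of cardinality smaller than that of G. -/
theorem result :
    ∀ (G : Type) [Group G], Infinite G →
      ∃ A : ℕ → Set G,
        (⋃ n, A n) = Set.univ ∧
        Pairwise (fun i j => Disjoint (A i) (A j)) ∧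
        ∀ n, ¬ ∃ F : Set G, Cardinal.mk F < Cardinal.mk G ∧ F * A n = Set.univ := by
  intro G _ _
  obtain ⟨f, -, h2⟩ := H66.Gam.small_colour G
  refine ⟨fun n => {g | f g = n}, Set.eq_univ_of_forall fun g => Set.mem_iUnion.2 ⟨_, rfl⟩,
    fun i j hij => Set.disjoint_left.2 fun p h1 h2 => hij (h1.symm.trans h2), ?_⟩
  rintro n ⟨F, hF, hU⟩
  obtain ⟨K, hK, h⟩ := h2 n ((fun x => x⁻¹) '' F) (Cardinal.mk_image_le.trans_lt hF)
  obtain ⟨k, hk, h⟩ := h 1
  obtain ⟨x, hx, y, hy, e⟩ : k ∈ F * {g | f g = n} := by rw [hU]; trivial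
  refine h x⁻¹ ⟨x, hx, rfl⟩ ?_
  rw [← e]
  simpa using hy

end Pool.Agent.S00661
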