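import Pool.Statements.S00675
import Pool.Agent.H19.PAutC

set_option autoImplicit false
open Pool Pool.MP_0a57ef_al

namespace Pool.Agent.S00675

/-- For every prime p and every finite abelian p-group A there is a group G such that A is isomorphic, via an injective homomorphism, to the group of automorphisms of G mapping every subgroup onto itself. -/
theorem result :
    ∀ (p : ℕ), p.Prime →
      ∀ (A : Type) [CommGroup A] [Finite A], IsPGroup p A →
        ∃ (G : Type) (_ : Group G) (f : A →* MulAut G),
          Function.Injective f ∧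
            ∀ φ : MulAut G,
              (φ ∈ f.range ↔ ∀ H : Subgroup G, H.map φ.toMonoidHom = H) := by
  intro p hp A _ _ hA
  classical
  have : Fact p.Prime := ⟨hp⟩
  obtain ⟨ι, _, n, hn, ⟨φ⟩⟩ := CommGroup.equiv_prod_multiplicative_zmod_of_finite A
  have hpow : ∀ j, ∃ k, n j = p ^ k := fun j => by
    obtain ⟨k, hk⟩ := (IsPGroup.iff_orderOf.1 hA) (φ.symm (Pi.mulSingle j (Multiplicative.ofAdd 1)))
    refine ⟨k, ?_⟩
    rw [← hk, MulEquiv.orderOf_eq, orderOf_piMulSingle, orderOf_ofAdd_eq_addOrderOf,
      ZMod.addOrderOf_one]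
  choose ej hej using hpow
  obtain rfl : n = fun j => p ^ ej j := funext hej
  rcases isEmpty_or_nonempty ι with hι | hι
  · have : Subsingleton A := φ.injective.subsingleton
    refine ⟨PUnit, inferInstance, 1, fun _ _ _ => Subsingleton.elim _ _, fun ψ => ⟨fun _ H => ?_,
      fun _ => ⟨1, ?_⟩⟩⟩
    · exact Subsingleton.elim _ _
    · ext x
  · obtain ⟨G, _, f, hf, H⟩ := Pool.Agent.H19.PAut.main p ej
    refine ⟨G, inferInstance, f.comp φ.toMonoidHom, hf.comp φ.injective, fun ψ => ?_⟩
    rw [← H]
    constructor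
    · rintro ⟨a, rfl⟩
      exact ⟨φ a, rfl⟩
    · rintro ⟨b, rfl⟩
      exact ⟨φ.symm b, by simp⟩

end Pool.Agent.S00675
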