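import Pool.Statements.S00684

set_option autoImplicit false
open Pool Pool.MP_0b625c_al

namespace Pool.Agent.S00684

/-- A positive weight on the circle with infimum zero. -/
noncomputable def w (q : Circle) : ℝ := by
  classical exact if q = 1 then 1 else dist q 1

lemma dist_le_two (a b : Circle) : dist a b ≤ 2 := by
  have : dist a b = ‖(a : ℂ) - b‖ := by rw [← dist_eq_norm]; rfl
  rw [this]
  calc ‖(a : ℂ) - b‖ ≤ ‖(a : ℂ)‖ + ‖(b : ℂ)‖ := norm_sub_le _ _
    _ = 2 := by simp; norm_num

lemma w_pos (q : Circle) : 0 < w q := by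
  unfold w
  split_ifs with h
  · norm_num
  · exact dist_pos.2 h

lemma w_le (q : Circle) : w q ≤ 2 := by
  unfold w
  split_ifs with h
  · norm_num
  · exact dist_le_two _ _

lemma w_small (δ : ℝ) (hδ : 0 < δ) : ∃ q, w q < δ := by
  have hc : ContinuousAt Circle.exp 0 := Circle.exp.continuous.continuousAt
  rw [Metric.continuousAt_iff] at hc
  obtain ⟨η, hη, h⟩ := hc δ hδ
  set t := min (η / 2) 1 with ht
  have t0 : 0 < t := lt_min (by linarith) one_pos
  have t1 : t ≤ 1 := min_le_right _ _
  have t2 : t < η := lt_of_le_of_lt (min_le_left _ _) (by linarith)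
  have hne : Circle.exp t ≠ 1 := by
    intro h1
    rw [Circle.exp_eq_one] at h1
    obtain ⟨n, hn⟩ := h1
    have hpi := Real.pi_gt_three
    rcases le_or_gt n 0 with h0 | h0
    · have : (n : ℝ) ≤ 0 := by exact_mod_cast h0
      nlinarith
    · have : (1 : ℝ) ≤ n := by exact_mod_cast h0
      nlinarith
  refine ⟨Circle.exp t, ?_⟩
  unfold w
  rw [if_neg hne]
  have := h (x := t) (by rw [Real.dist_eq, sub_zero, abs_of_pos t0]; exact t2)
  simpa using this

/-- The group of all functions from the circle to itself, as a new type. -/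
def E : Type := Circle → Circle

noncomputable instance : CommGroup E := inferInstanceAs (CommGroup (Circle → Circle))

noncomputable def d (x y : E) : ℝ := ⨆ q, w q * dist (x q) (y q)

lemma bdd (x y : E) : BddAbove (Set.range fun q => w q * dist (x q) (y q)) := by
  refine ⟨4, ?_⟩
  rintro _ ⟨q, rfl⟩
  have h1 := w_le q
  have h2 := dist_le_two (x q) (y q)
  have h3 := w_pos q
  have h4 : 0 ≤ dist (x q) (y q) := dist_nonneg
  show w q * dist (x q) (y q) ≤ 4
  nlinarith

lemma le_d (x y : E) (q : Circle) : w q * dist (x q) (y q) ≤ d x y := le_ciSup (bdd x y) q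

lemma d_le {x y : E} {c : ℝ} (h : ∀ q, w q * dist (x q) (y q) ≤ c) : d x y ≤ c := ciSup_le h

noncomputable instance : MetricSpace E where
  dist := d
  dist_self x := by simp [d]
  dist_comm x y := by simp only [d, dist_comm]
  dist_triangle x y z := by
    refine d_le fun q => ?_
    have h1 := le_d x y q
    have h2 := le_d y z q
    have h3 := dist_triangle (x q) (y q) (z q)
    have h4 := w_pos q
    nlinarith
  eq_of_dist_eq_zero := by
    intro x y h
    funext q
    have h1 := le_d x y q
    have h4 := w_pos q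
    have h5 : d x y = 0 := h
    rw [h5] at h1
    have : dist (x q) (y q) ≤ 0 := by
      by_contra hh
      push Not at hh
      nlinarith
    exact dist_le_zero.1 this

lemma dist_def (x y : E) : dist x y = d x y := rfl

lemma circ_mul (a b c e : Circle) : dist (a * b) (c * e) ≤ dist a c + dist b e := by
  have h : ∀ u v : Circle, dist u v = ‖(u : ℂ) - v‖ := fun u v => by rw [← dist_eq_norm]; rfl
  simp only [h, Circle.coe_mul]
  have : (a : ℂ) * b - c * e = (a - c) * b + c * (b - e) := by ring
  rw [this]
  refine (norm_add_le _ _).trans ?_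
  simp

lemma circ_inv (a c : Circle) : dist a⁻¹ c⁻¹ = dist a c := by
  have h : ∀ u v : Circle, dist u v = ‖(u : ℂ) - v‖ := fun u v => by rw [← dist_eq_norm]; rfl
  simp only [h, Circle.coe_inv_eq_conj]
  rw [← map_sub, Complex.norm_conj]

lemma d_mul (a b c e : E) : dist (a * b) (c * e) ≤ dist a c + dist b e := by
  refine d_le fun q => ?_
  have h1 := le_d a c q
  have h2 := le_d b e q
  have h3 : dist ((a * b) q) ((c * e) q) ≤ dist (a q) (c q) + dist (b q) (e q) := circ_mul _ _ _ _
  have h4 := w_pos q
  rw [dist_def, dist_def]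
  nlinarith

lemma d_inv (a c : E) : dist a⁻¹ c⁻¹ ≤ dist a c := by
  refine d_le fun q => ?_
  have h1 := le_d a c q
  have h3 : dist (a⁻¹ q) (c⁻¹ q) = dist (a q) (c q) := circ_inv _ _
  rw [h3]; exact h1

instance : IsTopologicalGroup E where
  continuous_mul := by
    rw [Metric.continuous_iff]
    intro p ε hε
    refine ⟨ε / 2, by linarith, fun a ha => ?_⟩
    have h1 : dist a.1 p.1 < ε / 2 := lt_of_le_of_lt (le_max_left _ _) ha
    have h2 : dist a.2 p.2 < ε / 2 := lt_of_le_of_lt (le_max_right _ _) ha
    have := d_mul a.1 a.2 p.1 p.2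
    linarith
  continuous_inv := by
    rw [Metric.continuous_iff]
    intro p ε hε
    exact ⟨ε, hε, fun a ha => lt_of_le_of_lt (d_inv a p) ha⟩

instance : CompleteSpace E := by
  apply Metric.complete_of_cauchySeq_tendsto
  intro u hu
  have hq : ∀ q, CauchySeq fun n => u n q := by
    intro q
    rw [Metric.cauchySeq_iff] at hu
    refine Metric.cauchySeq_iff.2 ?_
    intro ε hε
    obtain ⟨N, hN⟩ := hu (w q * ε) (mul_pos (w_pos q) hε)
    refine ⟨N, fun m hm n hn => ?_⟩
    have h1 := le_d (u m) (u n) q
    have h2 := hN m hm n hn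
    rw [dist_def] at h2
    exact lt_of_mul_lt_mul_left (h1.trans_lt h2) (w_pos q).le
  choose x hx using fun q => cauchySeq_tendsto_of_complete (hq q)
  refine ⟨x, ?_⟩
  rw [Metric.tendsto_atTop]
  rw [Metric.cauchySeq_iff] at hu
  intro ε hε
  obtain ⟨N, hN⟩ := hu (ε / 2) (by linarith)
  refine ⟨N, fun n hn => ?_⟩
  have : d (u n) x ≤ ε / 2 := by
    refine d_le fun q => ?_
    have hl : Filter.Tendsto (fun m => w q * dist (u n q) (u m q)) Filter.atTop
        (nhds (w q * dist (u n q) (x q))) :=
      (Filter.Tendsto.dist tendsto_const_nhds (hx q)).const_mul _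
    refine le_of_tendsto hl ?_
    filter_upwards [Filter.eventually_ge_atTop N] with m hm
    exact (le_d (u n) (u m) q).trans (hN n hn m hm).le
  rw [dist_def]; linarith

noncomputable def U : (Circle → Circle) →* E := MonoidHom.id _

theorem result :
    ¬ (∀ (E₁ : Type) [Group E₁] [MetricSpace E₁] [CompleteSpace E₁] [IsTopologicalGroup E₁]
      (U : (Circle → Circle) →* E₁),
      Function.Bijective U →
      (∀ x : Circle → Circle, ∀ ε > (0 : ℝ), ∃ δ > (0 : ℝ), ∀ y : Circle → Circle,
          (∀ q : Circle, dist (x q) (y q) ≤ δ) → dist (U x) (U y) < ε) →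
      (∀ x : Circle → Circle, ∀ ε > (0 : ℝ), ∃ δ > (0 : ℝ), ∀ y : Circle → Circle,
          dist (U x) (U y) < δ → ∀ q : Circle, dist (x q) (y q) ≤ ε)) := by
  classical
  intro h
  have h1 := h E U Function.bijective_id (by
    intro x ε hε
    refine ⟨ε / 4, by linarith, fun y hy => ?_⟩
    have : d (U x) (U y) ≤ ε / 2 := by
      refine d_le fun q => ?_
      have h1 := hy q
      have h2 := w_le q
      have h3 := w_pos q
      have h4 : 0 ≤ dist (x q) (y q) := dist_nonneg
      show w q * dist (x q) (y q) ≤ ε / 2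
      nlinarith
    rw [dist_def]; linarith)
  obtain ⟨δ, hδ, h2⟩ := h1 1 1 one_pos
  obtain ⟨q, hq⟩ := w_small (δ / 2) (by linarith)
  have h3 := h2 (Function.update 1 q (-1)) (by
    have : d (U 1) (U (Function.update 1 q (-1))) ≤ 2 * w q := by
      refine d_le fun p => ?_
      show w p * dist (1 : Circle) (Function.update (1 : Circle → Circle) q (-1) p) ≤ 2 * w q
      by_cases hp : p = q
      · subst hp
        have := dist_le_two 1 (Function.update (1 : Circle → Circle) p (-1) p)
        have := w_pos p
        nlinarith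
      · rw [Function.update_of_ne hp]
        have := w_pos q
        simp; linarith
    rw [dist_def]; linarith) q
  have h4 : ∀ u v : Circle, dist u v = ‖(u : ℂ) - v‖ := fun u v => by rw [← dist_eq_norm]; rfl
  rw [h4] at h3
  simp at h3
  norm_num at h3

end Pool.Agent.S00684
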