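import Pool.Statements.S00730
import Pool.Agent.H52.Lamp3

set_option autoImplicit false
open Pool Pool.MP_0ee5c7_al

namespace Pool.Agent.S00730

open Pool.Agent.H52.Lamp1 Pool.Agent.H52.Lamp3

/-- The negation of the preceding statement: In a Cayley graph of a finitely generated group with at most one end (equivalently, not splitting over a finite group), no subset of the image of a coarse uniform embedding of [0,∞) coarsely separates the graph into two deep pieces. -/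
theorem result :
    ¬ (∀ (G : Type) [Group G] (S : Finset G), Subgroup.closure (S : Set G) = ⊤ →
      ∀ Γ : SimpleGraph G,
        (∀ g h : G, Γ.Adj g h ↔ (g ≠ h ∧ ∃ s ∈ S, h = g * s ∨ g = h * s)) →
        (∀ F : Finset G, ∃ F' : Finset G, ∀ a b : G, a ∉ F' → b ∉ F' →
            ∃ p : Γ.Walk a b, ∀ v ∈ p.support, v ∉ F) →
        ∀ f : ℝ → G,
          (∃ C D : ℝ, ∀ x y : ℝ, 0 ≤ x → 0 ≤ y →
              (Γ.dist (f x) (f y) : ℝ) ≤ C * |x - y| + D) →
          (∀ M : ℝ, ∃ N : ℝ, ∀ x y : ℝ, 0 ≤ x → 0 ≤ y → N ≤ |x - y| →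
              M ≤ (Γ.dist (f x) (f y) : ℝ)) →
          ∀ Y : Set G, Y ⊆ f '' Set.Ici (0 : ℝ) →
            ¬ ∃ K : ℕ, ∃ A B : Set G,
                Disjoint A B ∧
                A ∪ B = {g : G | ∀ y ∈ Y, K < Γ.dist g y} ∧
                (∀ a ∈ A, ∀ b ∈ B, ¬ Γ.Adj a b) ∧
                (∀ R : ℕ, ¬ A ⊆ {g : G | ∃ y ∈ Y, Γ.dist g y ≤ R}) ∧
                (∀ R : ℕ, ¬ B ⊆ {g : G | ∃ y ∈ Y, Γ.dist g y ≤ R})) := by
  intro H
  have deep : ∀ (R : ℕ) (x y : L), y.i = 0 → (R : ℤ) < |x.i| → ¬ Γ.dist x y ≤ R := by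
    intro R x y hy hx hd
    have := (close_of_dist hd).1
    rw [hy, sub_zero] at this
    omega
  have lip : ∀ s t : ℕ, (Γ.dist (g s) (g t) : ℝ) ≤ |(s : ℝ) - t| := by
    intro s t
    rcases le_total s t with h | h
    · obtain ⟨u, rfl⟩ := Nat.exists_eq_add_of_le h
      have h1 : (Γ.dist (g s) (g (s + u)) : ℝ) ≤ u := by exact_mod_cast g_lip s u
      refine h1.trans ?_
      rw [abs_sub_comm]; push_cast; rw [add_sub_cancel_left]; exact le_abs_self _
    · obtain ⟨u, rfl⟩ := Nat.exists_eq_add_of_le h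
      have h1 : (Γ.dist (g t) (g (t + u)) : ℝ) ≤ u := by exact_mod_cast g_lip t u
      rw [SimpleGraph.dist_comm]
      refine h1.trans ?_
      push_cast; rw [add_sub_cancel_left]; exact le_abs_self _
  refine H L S closure_S Γ (fun _ _ => Iff.rfl) one_end (fun x => g ⌊x⌋₊) ⟨1, 1, ?_⟩ ?_
    {y | y.i = 0} ?_ ⟨0, {x | 0 < x.i}, {x | x.i < 0}, ?_, ?_, ?_, ?_, ?_⟩
  · intro x y hx hy
    refine (lip _ _).trans ?_
    have a1 := Nat.floor_le hx
    have a2 := Nat.lt_floor_add_one x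
    have a3 := Nat.floor_le hy
    have a4 := Nat.lt_floor_add_one y
    have a5 := le_abs_self (x - y)
    have a6 := neg_abs_le (x - y)
    rw [abs_le]; constructor <;> linarith
  · intro M
    obtain ⟨T, hT⟩ := proper ⌈M⌉₊
    refine ⟨T + 2, fun x y hx hy hxy => ?_⟩
    by_contra hc
    have h1 : Γ.dist (g ⌊x⌋₊) (g ⌊y⌋₊) ≤ ⌈M⌉₊ := by
      have := Nat.le_ceil M
      have h2 : (Γ.dist (g ⌊x⌋₊) (g ⌊y⌋₊) : ℝ) ≤ ⌈M⌉₊ := by linarith [not_le.1 hc]
      exact_mod_cast h2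
    obtain ⟨b1, b2⟩ := hT _ _ (close_of_dist h1)
    have b3 : (⌊x⌋₊ : ℝ) ≤ ⌊y⌋₊ + T := by exact_mod_cast b1
    have b4 : (⌊y⌋₊ : ℝ) ≤ ⌊x⌋₊ + T := by exact_mod_cast b2
    have a1 := Nat.floor_le hx
    have a2 := Nat.lt_floor_add_one x
    have a3 := Nat.floor_le hy
    have a4 := Nat.lt_floor_add_one y
    rw [le_abs] at hxy
    rcases hxy with h | h <;> linarith
  · intro y hy
    obtain ⟨t, ht⟩ := g_cover y hy
    exact ⟨t, Set.mem_Ici.2 (Nat.cast_nonneg t), by simpa using ht⟩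
  · rw [Set.disjoint_left]
    intro x h1 h2
    simp only [Set.mem_setOf_eq] at h1 h2
    omega
  · ext x
    simp only [Set.mem_union, Set.mem_setOf_eq]
    constructor
    · intro h y hy
      exact connected.pos_dist_of_ne (by rintro rfl; omega)
    · intro h
      by_contra hc
      have := h x (by omega)
      simp at this
  · intro a ha b hb hab
    have := (adj_cases hab).1
    simp only [Set.mem_setOf_eq] at ha hb
    rw [abs_le] at this
    omega
  · intro R hR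
    obtain ⟨y, hy, hd⟩ := hR (a := ⟨fun _ => 0, R + 1, ⟨0, fun _ _ => rfl⟩⟩)
      (by show (0 : ℤ) < R + 1; omega)
    exact deep R _ y hy (by show (R : ℤ) < |(R : ℤ) + 1|; rw [lt_abs]; omega) hd
  · intro R hR
    obtain ⟨y, hy, hd⟩ := hR (a := ⟨fun _ => 0, -(R + 1), ⟨0, fun _ _ => rfl⟩⟩)
      (by show -((R : ℤ) + 1) < 0; omega)
    exact deep R _ y hy (by show (R : ℤ) < |-((R : ℤ) + 1)|; rw [lt_abs]; omega) hd

end Pool.Agent.S00730
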