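import Pool.Statements.S00738
import Pool.Agent.H68.Wi4

set_option autoImplicit false
open Pool Pool.MP_0f752e_al

namespace Pool.Agent.S00738

theorem result :
    ¬ (∀ F : (H : Type) → [Group H] → Prop,
      (∀ (G H : Type) [Group G] [Group H] [Finite G], F G →
          ∀ f : G →* H, Function.Surjective f → F H) →
      (∀ (G H₁ H₂ : Type) [Group G] [Group H₁] [Group H₂] [Finite G],
          F H₁ → F H₂ → ∀ (f₁ : G →* H₁) (f₂ : G →* H₂),
            Function.Surjective f₁ → Function.Surjective f₂ →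
            f₁.ker ⊓ f₂.ker = ⊥ → F G) →
      (∀ (G : Type) [Group G] [Finite G], F G →
          ∀ N : Subgroup G, N.Normal → F N) →
      (∀ (G : Type) [Group G] [Finite G] (N M : Subgroup G),
          N.Normal → M.Normal → F N → F M → N ⊔ M = ⊤ → F G) →
      ∀ (G : Type) [Group G] [Finite G] (U V : Subgroup G),
        (∃ n : ℕ, ∃ c : ℕ → Subgroup G, c 0 = U ∧ c n = U ⊔ V ∧
          ∀ i < n, c i ≤ c (i + 1) ∧ ((c i).subgroupOf (c (i + 1))).Normal) →
        (∃ n : ℕ, ∃ c : ℕ → Subgroup G, c 0 = V ∧ c n = U ⊔ V ∧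
          ∀ i < n, c i ≤ c (i + 1) ∧ ((c i).subgroupOf (c (i + 1))).Normal) →
        (⨅ (H : Type) (_ : Group H) (_ : F H) (f : ↥(U ⊔ V) →* H)
            (_ : Function.Surjective f), f.ker).map (U ⊔ V).subtype =
          (⨅ (H : Type) (_ : Group H) (_ : F H) (f : ↥U →* H)
              (_ : Function.Surjective f), f.ker).map U.subtype ⊔
          (⨅ (H : Type) (_ : Group H) (_ : F H) (f : ↥V →* H)
              (_ : Function.Surjective f), f.ker).map V.subtype) := by
  open Pool.Agent.H68.Wi in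
  intro h
  obtain ⟨d, G, _, _, U, A, D, h1, h2, h3, h4, h5, h6⟩ := Pool.Agent.H68.Wi.final
  have key := h (fun H _ => Pool.Agent.H68.Wi.F d H) (fun G H _ _ _ p f hf => p.quo f hf)
    (fun G H₁ H₂ _ _ _ _ p q f₁ f₂ s₁ s₂ e => Pool.Agent.H68.Wi.f_sd f₁ f₂ (MonoidHom.id G) s₁ s₂
      Function.surjective_id (by rw [e, MonoidHom.ker_id]) p q)
    (fun G _ _ p N hN => p.sub N hN)
    (fun G _ _ N M _ _ p q e => (p.sup q).quo (N ⊔ M).subtype fun x => ⟨⟨x, e.ge trivial⟩, rfl⟩)
    G (U true) (U false) (Pool.Agent.H68.Wi.chain (h1 _) h2) (Pool.Agent.H68.Wi.chain (h1 _) h2)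
  obtain ⟨E, rfl, hE⟩ := Pool.Agent.H68.Wi.f_low h2 h3 h4
  have up : ∀ σ, (⨅ (H : Type) (_ : Group H) (_ : Pool.Agent.H68.Wi.F d H) (f : ↥(U σ) →* H)
      (_ : Function.Surjective f), f.ker).map (U σ).subtype ≤ A := fun σ => by
    obtain ⟨N, _, p, q⟩ := Pool.Agent.H68.Wi.f_up (h1 σ) (h6 σ)
    refine le_trans (Subgroup.map_mono ?_) p
    exact iInf_le_of_le (↥(U σ) ⧸ N) (iInf_le_of_le inferInstance (iInf_le_of_le
      (q _ _ (QuotientGroup.mk'_surjective N) (QuotientGroup.ker_mk' N)) (iInf_le_of_le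
      (QuotientGroup.mk' N) (iInf_le_of_le (QuotientGroup.mk'_surjective N)
      (QuotientGroup.ker_mk' N).le))))
  refine h5 (le_trans (Subgroup.map_mono ?_) (key.le.trans (sup_le (up true) (up false))))
  exact le_iInf fun H => le_iInf fun _ => le_iInf fun p => le_iInf fun f => le_iInf fun hf =>
    hE H f hf p

end Pool.Agent.S00738
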