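import Pool.Statements.S00741
import Pool.Agent.H71.PLSph

set_option autoImplicit false
open Pool Pool.MP_0f8bf3_al

namespace Pool.Agent.S00741

/-- For some n, the restricted wreath product Z wr Z^n (built as its faithful permutation group on Z^n × Z) embeds as a group into the piecewise-linear homeomorphisms of the boundary of the n-cube, a PL (n-1)-sphere. -/
theorem result :
    ∃ n : ℕ, ∃ ψ : ↥(Subgroup.closure
        (insert
          (Equiv.prodShear (Equiv.refl (Fin n → ℤ))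
            (fun w => if w = 0 then Equiv.addRight (1 : ℤ) else Equiv.refl ℤ) :
              Equiv.Perm ((Fin n → ℤ) × ℤ))
          (Set.range fun i : Fin n =>
            (Equiv.prodCongr (Equiv.addRight (Pi.single i (1 : ℤ) : Fin n → ℤ)) (Equiv.refl ℤ) :
              Equiv.Perm ((Fin n → ℤ) × ℤ))))) →*
        Equiv.Perm ↥(Metric.sphere (0 : Fin n → ℝ) 1),
      Function.Injective ψ ∧
        ∀ g, Continuous (ψ g) ∧
          ∃ m : ℕ, ∃ C : Fin m → Set (Fin n → ℝ),
            ∃ A : Fin m → ((Fin n → ℝ) →ᵃ[ℝ] (Fin n → ℝ)),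
              (∀ j, ∃ s : Finset (Fin n → ℝ), C j = convexHull ℝ (↑s : Set (Fin n → ℝ))) ∧
              (∀ x : ↥(Metric.sphere (0 : Fin n → ℝ) 1), ∃ j, (↑x : Fin n → ℝ) ∈ C j) ∧
              (∀ j, ∀ x : ↥(Metric.sphere (0 : Fin n → ℝ) 1), (↑x : Fin n → ℝ) ∈ C j →
                (↑((ψ g) x) : Fin n → ℝ) = A j (↑x : Fin n → ℝ)) := by
  obtain ⟨ρ, hρ⟩ := H71.PLCube.exists_hom _ fun w => (Subgroup.closure_le _).2 (by
    rintro _ (rfl | ⟨i, rfl⟩)
    · refine ⟨(_, ⟨1, 1, one_pos⟩), ⟨Finsupp.single 0 1, 0, fun u k => ?_, by simp, by simp⟩, rfl⟩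
      by_cases h : u = 0
      · simp [h]
      · simp [h]
    · exact ⟨(_, ⟨0, Real.exp (w i), Real.exp_pos _⟩), ⟨0, Pi.single i 1, fun u k => by simp, by
        simp [Pi.single_apply], by simp⟩, rfl⟩ :
    insert
          (Equiv.prodShear (Equiv.refl (Fin 3 → ℤ))
            (fun w => if w = 0 then Equiv.addRight (1 : ℤ) else Equiv.refl ℤ) :
              Equiv.Perm ((Fin 3 → ℤ) × ℤ))
          (Set.range fun i : Fin 3 =>
            (Equiv.prodCongr (Equiv.addRight (Pi.single i (1 : ℤ) : Fin 3 → ℤ)) (Equiv.refl ℤ) :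
              Equiv.Perm ((Fin 3 → ℤ) × ℤ))) ⊆ _)
  exact ⟨3, H71.PLCube.θ3.comp ρ, H71.PLCube.θ3_inj.comp hρ, fun g => H71.PLCube.θ3_pl (ρ g)⟩

end Pool.Agent.S00741
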