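import Pool.Statements.S00751
import Pool.Agent.H73.Twist

set_option autoImplicit false
open Pool Pool.MP_102156_al

namespace Pool.Agent.S00751

/-- Suppose G is a periodic, residually finite group in which every conjugacy class is finite, and whose abelianization is a direct sum of cyclic groups. Then G embeds in the restricted direct product of some family of finite groups. -/
theorem result :
    ∀ (G : Type) [Group G],
      Monoid.IsTorsion G →
      (∀ g : G, {h : G | IsConj g h}.Finite) →
      (∀ g : G, g ≠ 1 → ∃ N : Subgroup G, N.Normal ∧ N.FiniteIndex ∧ g ∉ N) →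
      (∃ (J : Type) (C : J → Type) (_ : ∀ j, AddCommGroup (C j)),
          (∀ j, IsAddCyclic (C j)) ∧
          Nonempty (Additive (Abelianization G) ≃+ Π₀ j, C j)) →
      ∃ (I : Type) (H : I → Type) (_ : ∀ i, Group (H i)) (_ : ∀ i, Finite (H i))
        (f : G →* ∀ i, H i),
        Function.Injective f ∧ ∀ g : G, {i : I | f g i ≠ 1}.Finite :=
  Pool.Agent.H73.Twist.main1

end Pool.Agent.S00751
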