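import Pool.Statements.S00793
import Pool.Agent.H1.TyB

set_option autoImplicit false
open Pool Pool.MP_14caef_al

namespace Pool.Agent.S00793

/-- For each e ≥ 3 and all large m, every numerical semigroup with multiplicity m and embedding dimension e+1 has type strictly less than C(e+r−2, r−1) + s_⟨r⟩, with r and s from the Macaulay-type bound. -/
theorem result : ∀ e : ℕ, 3 ≤ e → ∃ M : ℕ, ∀ m : ℕ, M ≤ m →
    ∀ r : ℕ, (e + r - 1).choose (r - 1) ≤ m → m < (e + r).choose r →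
    ∀ j : ℕ, ∀ n : ℕ → ℕ, 1 ≤ j → j ≤ r + 1 →
      (∀ i : ℕ, j ≤ i → i < r → n i < n (i + 1)) →
      (∀ i : ℕ, j ≤ i → i ≤ r → i ≤ n i) →
      m - (e + r - 1).choose (r - 1) = ∑ i ∈ Finset.Icc j r, (n i).choose i →
      ∀ S : AddSubmonoid ℕ, (S : Set ℕ)ᶜ.Finite →
        (m ∈ S ∧ m ≠ 0 ∧ ∀ x ∈ S, x ≠ 0 → m ≤ x) →
        {x : ℕ | x ∈ S ∧ x ≠ 0 ∧ ¬ ∃ a ∈ S, ∃ b ∈ S, a ≠ 0 ∧ b ≠ 0 ∧ a + b = x}.ncard = e + 1 →
        {x : ℕ | x ∉ S ∧ ∀ s ∈ S, s ≠ 0 → x + s ∈ S}.ncard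
          < (e + r - 2).choose (r - 1) + ∑ i ∈ Finset.Icc j r, (n i - 1).choose i := by
  intro e he
  obtain ⟨d, rfl⟩ : ∃ d, e = d + 3 := ⟨e - 3, by omega⟩
  obtain ⟨M, hM⟩ := Pool.Agent.H1.Ty.numeric d
  refine ⟨M, fun m h1 r _ h3 j n _ _ _ _ _ S hfin hm hg => ?_⟩
  exact lt_of_lt_of_le (hM m r _ h1 h3 (fun B =>
    Pool.Agent.H1.Ty.type_bound S m (d + 3) (by omega) hm hg hfin B)) (Nat.le_add_right _ _)

end Pool.Agent.S00793
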