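import Pool.Statements.S00801
import Pool.Agent.H69.Pet2

set_option autoImplicit false
open Pool Pool.MP_166ce5_al

namespace Pool.Agent.S00801

/-- There is an infinite, residually finite, periodic group generated by a finite set S, whose S-balls grow at least like c^n for some c>1, and in which the maximal element order in the ball of radius n is o(n). -/
theorem result :
    ∃ (G : Type) (_ : Group G) (S : Finset G),
      Infinite G ∧
      Subgroup.closure (S : Set G) = ⊤ ∧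
      (∀ g : G, IsOfFinOrder g) ∧
      (∀ g : G, g ≠ 1 → ∃ N : Subgroup G, N.Normal ∧ N.index ≠ 0 ∧ g ∉ N) ∧
      (∃ c : ℝ, 1 < c ∧ ∀ n : ℕ,
        c ^ n ≤ (({g : G | ∃ l : List G, l.length ≤ n ∧
          (∀ x ∈ l, x ∈ S ∨ x⁻¹ ∈ S) ∧ l.prod = g}).ncard : ℝ)) ∧
      (∀ ε : ℝ, 0 < ε → ∃ N : ℕ, ∀ n : ℕ, N ≤ n → ∀ g : G,
        (∃ l : List G, l.length ≤ n ∧ (∀ x ∈ l, x ∈ S ∨ x⁻¹ ∈ S) ∧ l.prod = g) →
        (orderOf g : ℝ) ≤ ε * n) := by
  have hj : ∀ n : ℕ, n ≤ 16 ^ Nat.clog 16 n := fun n => Nat.le_pow_clog (by norm_num) n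
  have hfin : ∀ n : ℕ, (H69.Pet.Bl H69.Pet.SW n).Finite := H69.Pet.Bl_fin _
  refine ⟨H69.Pet.WW, inferInstance, H69.Pet.SW, ?_, H69.Pet.SW_gen, fun g => ?_, fun g hg => ?_,
    ⟨√2, Real.one_lt_sqrt_two, fun n => ?_⟩, fun ε hε => ?_⟩
  · by_contra hf
    rw [not_infinite_iff_finite] at hf
    have h1 := H69.Pet.W_grow (Nat.card H69.Pet.WW)
    have h2 := Set.ncard_le_card (H69.Pet.Bl H69.Pet.SW (2 * Nat.card H69.Pet.WW + 1))
    have h3 := Nat.lt_two_pow_self (n := Nat.card H69.Pet.WW + 1)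
    omega
  · obtain ⟨n, hn⟩ := H69.Pet.Bl_ex H69.Pet.SW_gen g
    exact isOfFinOrder_iff_pow_eq_one.2 ⟨_, by positivity, H69.Pet.W_period (hj n) hn⟩
  · obtain ⟨N, hN⟩ : ∃ N, g.1 N ≠ 1 := by
      by_contra h
      push Not at h
      exact hg (Subtype.ext (funext h))
    exact ⟨((Pi.evalMonoidHom _ N).comp H69.Pet.WW.subtype).ker, inferInstance,
      Subgroup.FiniteIndex.index_ne_zero, hN⟩
  · show _ ≤ ((H69.Pet.Bl H69.Pet.SW n).ncard : ℝ)
    rcases n with _ | n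
    · have := (Set.ncard_pos (hfin 0)).2 ⟨1, H69.Pet.Bl_one _ _⟩
      rw [pow_zero]
      exact_mod_cast this
    · have h1 := (H69.Pet.W_grow (n / 2)).trans (Set.ncard_le_ncard
        (H69.Pet.Bl_mono _ (show 2 * (n / 2) + 1 ≤ n + 1 by omega)) (hfin _))
      refine le_trans ?_ (Nat.cast_le.2 h1)
      push_cast
      rw [← Real.sq_sqrt (show (0 : ℝ) ≤ 2 by norm_num), ← pow_mul, Real.sqrt_sq (by positivity)]
      exact pow_le_pow_right₀ Real.one_lt_sqrt_two.le (by omega)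
  · obtain ⟨k, hk⟩ := exists_nat_gt (256 / ε)
    refine ⟨16 ^ k + 1, fun n hn g hg => ?_⟩
    have h1 := Nat.le_of_dvd (by positivity)
      (orderOf_dvd_of_pow_eq_one (H69.Pet.W_period (hj n) hg))
    have h2 : k < Nat.clog 16 n := Nat.lt_clog_iff_pow_lt (by norm_num) |>.2 (by omega)
    have h3 := Nat.pow_pred_clog_lt_self (b := 16) (by norm_num) (x := n)
      (by have := Nat.one_le_pow k 16 (by norm_num); omega)
    obtain ⟨j, hj⟩ := Nat.exists_eq_add_of_le' (Nat.succ_le_of_lt (Nat.zero_lt_of_lt h2))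
    rw [hj] at h1 h2 h3
    simp only [Nat.pred_succ] at h3
    have h4 : (k : ℝ) ≤ 4 ^ j := by
      have := Nat.lt_pow_self (n := j) (a := 4) (by norm_num)
      exact_mod_cast (by omega : k ≤ 4 ^ j)
    have h5 : (orderOf g : ℝ) ≤ 16 * 4 ^ (j + 1) := by exact_mod_cast h1
    have h6 : (4 : ℝ) ^ j * 4 ^ j ≤ n := by
      rw [← mul_pow]; norm_num; exact_mod_cast h3.le
    rw [div_lt_iff₀ hε] at hk
    have h7 : (0 : ℝ) < 4 ^ j := by positivity
    rw [pow_succ] at h5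
    have h8 : 256 ≤ ε * 4 ^ j := by nlinarith
    nlinarith

end Pool.Agent.S00801
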