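import Pool.Statements.S00850
import Pool.Agent.H68.Wi4

set_option autoImplicit false
open Pool Pool.MP_1b0854_al

namespace Pool.Agent.S00850

theorem result :
    ¬ (∀ F : (G : Type) → [Group G] → Prop,
    (∀ (G : Type) [Group G] [Finite G] (Q : Type) [Group Q] (f : G →* Q),
        Function.Surjective f → F G → F Q) →
    (∀ (G : Type) [Group G] [Finite G] (Q₁ : Type) [Group Q₁] (Q₂ : Type) [Group Q₂]
        (Q : Type) [Group Q] (f₁ : G →* Q₁) (f₂ : G →* Q₂) (f : G →* Q),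
        Function.Surjective f₁ → Function.Surjective f₂ → Function.Surjective f →
        f.ker = f₁.ker ⊓ f₂.ker → F Q₁ → F Q₂ → F Q) →
    (∀ (G : Type) [Group G] [Finite G] (N : Subgroup G), N.Normal → F G → F ↥N) →
    (∀ (G : Type) [Group G] [Finite G] (N M : Subgroup G), N.Normal → M.Normal →
        F ↥N → F ↥M → F ↥(N ⊔ M)) →
    (∀ (G : Type) [Group G] [Finite G] (N : Subgroup G), N.Normal → IsSolvable ↥N →
        (∀ (Q : Type) [Group Q] (f : G →* Q), Function.Surjective f →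
            f.ker = (frattini ↥N).map N.subtype → F Q) → F G) →
    ∀ (G : Type) [Group G] [Finite G] (H K : Subgroup G),
      (∃ n : ℕ, ∃ c : ℕ → Subgroup G, c 0 = H ∧ c n = ⊤ ∧
        ∀ i < n, c i ≤ c (i + 1) ∧ ((c i).subgroupOf (c (i + 1))).Normal) →
      (∃ n : ℕ, ∃ c : ℕ → Subgroup G, c 0 = K ∧ c n = ⊤ ∧
        ∀ i < n, c i ≤ c (i + 1) ∧ ((c i).subgroupOf (c (i + 1))).Normal) →
      (⨅ (N : Subgroup ↥(H ⊔ K)) (_ : N.Normal ∧ ∀ (Q : Type) [Group Q] (f : ↥(H ⊔ K) →* Q),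
          Function.Surjective f → f.ker = N → F Q), N).map (H ⊔ K).subtype
        = (⨅ (N : Subgroup ↥H) (_ : N.Normal ∧ ∀ (Q : Type) [Group Q] (f : ↥H →* Q),
            Function.Surjective f → f.ker = N → F Q), N).map H.subtype
          ⊔ (⨅ (N : Subgroup ↥K) (_ : N.Normal ∧ ∀ (Q : Type) [Group Q] (f : ↥K →* Q),
            Function.Surjective f → f.ker = N → F Q), N).map K.subtype) := by
  open Pool.Agent.H68.Wi in
  intro h
  obtain ⟨d, G, _, _, U, A, D, h1, h2, h3, h4, h5, h6⟩ := Pool.Agent.H68.Wi.final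
  have key := h (fun H _ => Pool.Agent.H68.Wi.F d H) (fun G _ _ H _ f hf p => p.quo f hf)
    (fun G _ _ H₁ _ H₂ _ Q _ f₁ f₂ f s₁ s₂ s e p q => Pool.Agent.H68.Wi.f_sd f₁ f₂ f s₁ s₂ s e p q)
    (fun G _ _ N hN p => p.sub N hN) (fun G _ _ N M _ _ p q => p.sup q)
    (fun G _ _ N _ p q => Pool.Agent.H68.Wi.f_sat N p q)
    G (U true) (U false) (Pool.Agent.H68.Wi.chain (h1 _) rfl) (Pool.Agent.H68.Wi.chain (h1 _) rfl)
  obtain ⟨E, rfl, hE⟩ := Pool.Agent.H68.Wi.f_low h2 h3 h4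
  have up : ∀ σ, (⨅ (N : Subgroup ↥(U σ)) (_ : N.Normal ∧ ∀ (Q : Type) [Group Q] (f : ↥(U σ) →* Q),
      Function.Surjective f → f.ker = N → Pool.Agent.H68.Wi.F d Q), N).map (U σ).subtype ≤ A :=
    fun σ => by
    obtain ⟨N, n, p, q⟩ := Pool.Agent.H68.Wi.f_up (h1 σ) (h6 σ)
    exact le_trans (Subgroup.map_mono (iInf_le_of_le N (iInf_le_of_le ⟨n, q⟩ le_rfl))) p
  refine h5 (le_trans (Subgroup.map_mono ?_) (key.le.trans (sup_le (up true) (up false))))
  refine le_iInf fun N => le_iInf fun ⟨n, p⟩ => ?_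
  exact (hE _ _ (QuotientGroup.mk'_surjective N) (p _ _ (QuotientGroup.mk'_surjective N)
    (QuotientGroup.ker_mk' N))).trans (QuotientGroup.ker_mk' N).le

end Pool.Agent.S00850
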