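import Pool.Statements.S00852
import Pool.Agent.H56.Depth

set_option autoImplicit false
open Pool Pool.MP_1b4c08_al

namespace Pool.Agent.S00852

open MvPolynomial Finset RingTheory.Sequence Pool.Agent.H56.HS

section
variable {n : ℕ} {K : Type*} [Field K]

def DS (K : Type*) [Field K] (F : Finset (Finset (Fin n))) (k : ℕ) : Set ℕ :=
  {l : ℕ | ∃ rs : List (MvPolynomial (Fin n) K), rs.length = l ∧
    (∀ x ∈ rs, x ∈ Ideal.span (Set.range (X : Fin n → MvPolynomial (Fin n) K))) ∧
    IsRegular (MvPolynomial (Fin n) K ⧸ JF K F k) rs}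

theorem le_one (F : Finset (Finset (Fin n))) (k : ℕ) {C1 C2 : Finset (Fin n)} (h1 : C1 ∈ F)
    (h2 : C2 ∈ F) (hc : ∀ j, j ∉ C1 → j ∈ C2) (a : Fin n →₀ ℕ) (a1 : ∑ j ∈ C1, a j + 1 = k)
    (a2 : ∑ j ∈ C2, a j + 1 = k) (a3 : ∀ C ∈ F, C = C1 ∨ C = C2 ∨ k ≤ ∑ j ∈ C, a j)
    {u w : Fin n} (hu : u ∉ C1) (hw : w ∉ C2) : ∀ l ∈ DS K F k, l ≤ 1 := by
  rintro l ⟨rs, rfl, hm, hr⟩
  by_contra hl
  obtain ⟨y1, y2, rs, rfl⟩ : ∃ y1 y2 rs', rs = y1 :: y2 :: rs' := by
    match rs, hl with
    | [], hl => simp at hl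
    | [_], hl => simp at hl
    | y1 :: y2 :: rs', _ => exact ⟨_, _, _, rfl⟩
  have r1 : ∀ f, y1 * f ∈ JF K F k → f ∈ JF K F k := by
    simpa using! ((reg_iff _ _).1 hr).1 0 (by simp)
  have r2 : ∀ f, y2 * f ∈ Ideal.span {y1} ⊔ JF K F k → f ∈ Ideal.span {y1} ⊔ JF K F k := by
    simpa using! ((reg_iff _ _).1 hr).1 1 (by simp)
  let p : MvPolynomial (Fin n) K →ₐ[K] MvPolynomial (Fin n) K :=
    aeval fun j => if j ∈ C1 then 0 else X j
  have p1 : ∀ y, y - p y ∈ PC K C1 := by
    intro y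
    have : (Ideal.Quotient.mkₐ K (PC K C1)).comp p = Ideal.Quotient.mkₐ K (PC K C1) := by
      refine algHom_ext fun j => ?_
      simp only [p, AlgHom.comp_apply, aeval_X]
      split_ifs with h
      · exact (map_zero _).trans (Ideal.Quotient.eq_zero_iff_mem.2 ((X_mem_PC _ _).2 h)).symm
      · rfl
    exact Ideal.Quotient.eq.1 (DFunLike.congr_fun this y).symm
  have p2 : ∀ y ∈ Ideal.span (Set.range (X : Fin n → MvPolynomial (Fin n) K)), p y ∈ PC K C2 := by
    have : Ideal.span (Set.range (X : Fin n → MvPolynomial (Fin n) K)) ≤ (PC K C2).comap p := by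
      rw [Ideal.span_le]
      rintro _ ⟨j, rfl⟩
      simp only [SetLike.mem_coe, Ideal.mem_comap, p, aeval_X]
      split_ifs with h
      · exact zero_mem _
      · exact (X_mem_PC _ _).2 (hc j h)
    exact this
  have xa : ∀ (C : Finset (Fin n)) l, l ≤ ∑ j ∈ C, a j → monomial a (1 : K) ∈ PC K C ^ l := by
    intro C l hl
    rw [mem_PC_pow]
    intro m hm
    exact mem_singleton.1 (support_monomial_subset hm) ▸ hl
  have key : ∀ y ∈ Ideal.span (Set.range (X : Fin n → MvPolynomial (Fin n) K)),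
      ∀ z ∈ Ideal.span (Set.range (X : Fin n → MvPolynomial (Fin n) K)),
      monomial a 1 * (z * p y - y * p z) ∈ JF K F k := by
    intro y hy z hz
    simp only [JF, Submodule.mem_finsetInf]
    intro C hC
    rcases a3 C hC with rfl | rfl | h
    · rw [← a1, pow_succ]
      refine Ideal.mul_mem_mul (xa _ _ le_rfl) ?_
      have := sub_mem (Ideal.mul_mem_right (p y) _ (p1 z)) (Ideal.mul_mem_right (p z) _ (p1 y))
      convert this using 1
      ring
    · rw [← a2, pow_succ]
      exact Ideal.mul_mem_mul (xa _ _ le_rfl)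
        (sub_mem (Ideal.mul_mem_left _ _ (p2 y hy)) (Ideal.mul_mem_left _ _ (p2 z hz)))
    · exact Ideal.mul_mem_right _ _ (xa _ _ h)
  have m1 := hm y1 (by simp)
  have m2 := hm y2 (by simp)
  obtain ⟨_, b1, g, b2, b3⟩ := Submodule.mem_sup.1 (r2 (monomial a 1 * p y1) (by
    have := add_mem (Ideal.mem_sup_left (T := JF K F k) (Ideal.mul_mem_right (monomial a 1 * p y2) _
      (Ideal.mem_span_singleton_self y1))) (Ideal.mem_sup_right (key y1 m1 y2 m2))
    convert this using 1
    ring))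
  obtain ⟨h, rfl⟩ := Ideal.mem_span_singleton'.1 b1
  have k2 : ∀ j, X j * h - monomial a 1 * p (X j) ∈ JF K F k := by
    intro j
    apply r1
    have := sub_mem (key y1 m1 (X j) (Ideal.subset_span ⟨j, rfl⟩)) (Ideal.mul_mem_left _ (X j) b2)
    convert this using 1
    linear_combination (X j) * b3
  have wt : ∀ (C : Finset (Fin n)) j, j ∉ C → ∑ l ∈ C, (Finsupp.single j 1 + a : Fin n →₀ ℕ) l =
      ∑ l ∈ C, a l := fun C j hj => sum_congr rfl fun l hl => by
    simp [Finsupp.single_apply, show j ≠ l from fun e => hj (e ▸ hl)]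
  have c1 := (mem_JF _ _ _).1 (k2 u) (Finsupp.single u 1 + a) ⟨C1, h1, by rw [wt _ _ hu]; omega⟩
  have c2 := (mem_JF _ _ _).1 (k2 w) (Finsupp.single w 1 + a) ⟨C2, h2, by rw [wt _ _ hw]; omega⟩
  have hw1 : w ∈ C1 := by
    by_contra h
    exact hw (hc w h)
  simp only [p, aeval_X, hu, hw1, if_true, if_false, mul_zero, sub_zero, coeff_X_mul, coeff_sub,
    mul_comm _ (X u), coeff_monomial] at c1 c2
  simp [c2] at c1

theorem uw_reg (F : Finset (Finset (Fin n))) (k : ℕ) {u w : Fin n} (huw : u ≠ w)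
    (h : ∀ C ∈ F, u ∉ C ∨ w ∉ C) (f : MvPolynomial (Fin n) K)
    (hf : (X u + X w) * f ∈ JF K F k) : f ∈ JF K F k := by
  refine JF_cancel F k (fun C hC h1 => ?_) hf
  have key : ∀ u w : Fin n, u ≠ w → (X u + X w : MvPolynomial (Fin n) K) ∈ PC K C → u ∈ C := by
    intro u w huw h1
    have := (mem_PC _ _).1 h1 (Finsupp.single u 1) (by
      simp [coeff_X, Finsupp.single_eq_single_iff, huw.symm])
    by_contra h2
    simp [Finsupp.single_apply, h2] at this
  rcases h C hC with h | h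
  · exact h (key u w huw h1)
  · exact h (key w u huw.symm (add_comm (X u : MvPolynomial (Fin n) K) _ ▸ h1))

theorem one_notMem (F : Finset (Finset (Fin n))) (k : ℕ) (hF : F.Nonempty) (hk : 0 < k)
    (rs : List (MvPolynomial (Fin n) K))
    (h : ∀ x ∈ rs, x ∈ Ideal.span (Set.range (X : Fin n → MvPolynomial (Fin n) K))) :
    (1 : MvPolynomial (Fin n) K) ∉ Ideal.ofList rs ⊔ JF K F k := by
  intro h1
  have : Ideal.ofList rs ⊔ JF K F k ≤ Ideal.span (Set.range (X : Fin n → MvPolynomial (Fin n) K)) :=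
    sup_le (Ideal.span_le.2 h) fun g hg => (mem_mX g).2 ((mem_JF _ _ _).1 hg 0
      (hF.imp fun C hC => ⟨hC, by simpa using hk⟩))
  simpa using (mem_mX _).1 (this h1)

theorem uw_mem (u w : Fin n) : (X u + X w : MvPolynomial (Fin n) K) ∈
    Ideal.span (Set.range (X : Fin n → MvPolynomial (Fin n) K)) :=
  add_mem (Ideal.subset_span ⟨u, rfl⟩) (Ideal.subset_span ⟨w, rfl⟩)

theorem one_mem (F : Finset (Finset (Fin n))) (k : ℕ) (hF : F.Nonempty) (hk : 0 < k)
    {u w : Fin n} (huw : u ≠ w) (h : ∀ C ∈ F, u ∉ C ∨ w ∉ C) : 1 ∈ DS K F k := by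
  have hm : ∀ x ∈ [(X u + X w : MvPolynomial (Fin n) K)],
      x ∈ Ideal.span (Set.range (X : Fin n → MvPolynomial (Fin n) K)) := by
    simpa using uw_mem u w
  refine ⟨[X u + X w], rfl, hm, (reg_iff _ _).2 ⟨fun i hi => ?_, one_notMem F k hF hk _ hm⟩⟩
  obtain rfl : i = 0 := by simpa using hi
  simpa using uw_reg F k huw h

theorem two_mem (F : Finset (Finset (Fin n))) (k : ℕ) (hF : F.Nonempty) (hk : 0 < k)
    {u w : Fin n} (huw : u ≠ w) (h : ∀ C ∈ F, u ∉ C ∨ w ∉ C)
    (hu : ∀ C ∈ F, ∃ j, j ≠ u ∧ j ∉ C) (hw : ∀ C ∈ F, ∃ j, j ≠ w ∧ j ∉ C)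
    (hg : ∀ a : Fin n →₀ ℕ, (∃ C ∈ F, ∑ j ∈ C, (Finsupp.single u 1 + a : Fin n →₀ ℕ) j < k) →
      (∃ C ∈ F, ∑ j ∈ C, (Finsupp.single w 1 + a : Fin n →₀ ℕ) j < k) →
      ∃ C ∈ F, ∑ j ∈ C, (Finsupp.single u 1 + (Finsupp.single w 1 + a) : Fin n →₀ ℕ) j < k) :
    2 ∈ DS K F k := by
  classical
  obtain ⟨y, hy, hy2⟩ := exists_reg (Ideal.span {X u + X w} ⊔ JF K F k)
    (Ideal.span (Set.range (X : Fin n → MvPolynomial (Fin n) K))) (by
      intro g hg'
      have : ∀ i, ∃ h, X i * g - (X u + X w) * h ∈ JF K F k := by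
        intro i
        obtain ⟨_, b1, j, b2, b3⟩ := Submodule.mem_sup.1 (hg' (X i) (Ideal.subset_span ⟨i, rfl⟩))
        obtain ⟨h, rfl⟩ := Ideal.mem_span_singleton'.1 b1
        exact ⟨h, by convert b2 using 1; linear_combination -b3⟩
      choose H hH using this
      have rel : ∀ i j, X j * H i - X i * H j ∈ JF K F k := by
        intro i j
        apply uw_reg F k huw h
        have := sub_mem (Ideal.mul_mem_left _ (X i) (hH j)) (Ideal.mul_mem_left _ (X j) (hH i))
        convert this using 1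
        ring
      have z : ∀ i, (∀ C ∈ F, ∃ j, j ≠ i ∧ j ∉ C) → ∀ b : Fin n →₀ ℕ, b i = 0 →
          (∃ C ∈ F, ∑ j ∈ C, b j < k) → coeff b (H i) = 0 := by
        rintro i hi b hb ⟨C, hC, h1⟩
        obtain ⟨j, h2, h3⟩ := hi C hC
        have := (mem_JF _ _ _).1 (rel i j) (Finsupp.single j 1 + b) ⟨C, hC, by
          rwa [sum_congr rfl (g := fun l => b l) fun l hl => by
            simp [Finsupp.single_apply, show j ≠ l from fun e => h3 (e ▸ hl)]]⟩
        rw [coeff_sub, coeff_X_mul, coeff_X_mul', if_neg (by simp [hb, Finsupp.single_apply, h2])]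
          at this
        simpa using this
      let V : (Fin n →₀ ℕ) → Prop := fun a =>
        ∃ C ∈ F, ∑ j ∈ C, (Finsupp.single u 1 + a : Fin n →₀ ℕ) j < k
      let A := (H u).divMonomial (Finsupp.single u 1)
      let B := (H w).divMonomial (Finsupp.single w 1)
      let h0 : MvPolynomial (Fin n) K := ∑ a ∈ A.support ∪ B.support,
        monomial a (if V a then coeff a A else coeff a B)
      have hc : ∀ a, coeff a h0 = if V a then coeff (Finsupp.single u 1 + a) (H u)
          else coeff (Finsupp.single w 1 + a) (H w) := by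
        intro a
        simp only [h0, coeff_sum, coeff_monomial, sum_ite_eq', ← coeff_divMonomial]
        split_ifs with h1 h2 h2
        · rfl
        · rfl
        · exact (notMem_support_iff.1 fun e => h1 (mem_union_left _ e)).symm
        · exact (notMem_support_iff.1 fun e => h1 (mem_union_right _ e)).symm
      have spl : ∀ (i : Fin n) (b : Fin n →₀ ℕ), b i = 0 ∨ ∃ a, b = Finsupp.single i 1 + a := by
        intro i b
        by_cases h1 : b i = 0
        · exact Or.inl h1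
        · exact Or.inr ⟨b - Finsupp.single i 1, (add_tsub_cancel_of_le
            (Finsupp.single_le_iff.2 (by omega))).symm⟩
      have e1 : H u - X u * h0 ∈ JF K F k := by
        rw [mem_JF]
        intro b hb
        rcases spl u b with h1 | ⟨a, rfl⟩
        · rw [coeff_sub, z u hu b h1 hb, coeff_X_mul', if_neg (by simp [h1]), sub_zero]
        · rw [coeff_sub, coeff_X_mul, hc, if_pos hb, sub_self]
      have e2 : H w - X w * h0 ∈ JF K F k := by
        rw [mem_JF]
        intro b hb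
        rcases spl w b with h1 | ⟨a, rfl⟩
        · rw [coeff_sub, z w hw b h1 hb, coeff_X_mul', if_neg (by simp [h1]), sub_zero]
        · rw [coeff_sub, coeff_X_mul, hc]
          split_ifs with h1
          · have := (mem_JF _ _ _).1 (rel w u) _ (hg a h1 hb)
            rwa [coeff_sub, coeff_X_mul, add_left_comm, coeff_X_mul] at this
          · exact sub_self _
      have e3 : g - (X u + X w) * h0 ∈ JF K F k := by
        apply uw_reg F k huw h
        have := add_mem (add_mem (hH u) (hH w)) (Ideal.mul_mem_left _ (X u + X w) (add_mem e1 e2))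
        convert this using 1
        ring
      have := add_mem (Ideal.mem_sup_left (T := JF K F k) (Ideal.mul_mem_right h0 _
        (Ideal.mem_span_singleton_self (X u + X w)))) (Ideal.mem_sup_right e3)
      simpa using this)
  have hm : ∀ x ∈ [(X u + X w : MvPolynomial (Fin n) K), y],
      x ∈ Ideal.span (Set.range (X : Fin n → MvPolynomial (Fin n) K)) := by
    simpa using ⟨uw_mem u w, hy⟩
  refine ⟨[X u + X w, y], rfl, hm, (reg_iff _ _).2 ⟨fun i hi => ?_, one_notMem F k hF hk _ hm⟩⟩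
  obtain rfl | rfl : i = 0 ∨ i = 1 := by simp at hi; omega
  · simpa using uw_reg F k huw h
  · simpa using hy2

end

def XS (t : ℕ) : Finset (Fin (2 * t + 3)) := univ.filter fun j => 2 ≤ j.1 ∧ j.1 ≤ t + 2
def YS (t : ℕ) : Finset (Fin (2 * t + 3)) := univ.filter fun j => t + 3 ≤ j.1
def FF (t : ℕ) : Finset (Finset (Fin (2 * t + 3))) :=
  insert (insert 1 (YS t)) (insert (insert 0 (XS t))
    ((XS t ×ˢ YS t).image fun p => insert p.2 ((XS t).erase p.1)))

theorem mX {t : ℕ} {j : Fin (2 * t + 3)} : j ∈ XS t ↔ 2 ≤ j.1 ∧ j.1 ≤ t + 2 := by simp [XS]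
theorem mY {t : ℕ} {j : Fin (2 * t + 3)} : j ∈ YS t ↔ t + 3 ≤ j.1 := by simp [YS]

theorem cX (t : ℕ) : (XS t).card = t + 1 := by
  have : XS t = Icc ⟨2, by omega⟩ ⟨t + 2, by omega⟩ := by
    ext j; simp [mX, Fin.le_def]
  rw [this, Fin.card_Icc]; simp only []; omega

theorem cY (t : ℕ) : (YS t).card = t := by
  have : YS t = Ioi ⟨t + 2, by omega⟩ := by
    ext j; simp only [mY, mem_Ioi, Fin.lt_def]; omega
  rw [this, Fin.card_Ioi]; simp only []; omega

theorem mF {t : ℕ} {C : Finset (Fin (2 * t + 3))} : C ∈ FF t ↔ C = insert 1 (YS t) ∨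
    C = insert 0 (XS t) ∨ ∃ x ∈ XS t, ∃ y ∈ YS t, C = insert y ((XS t).erase x) := by
  simp only [FF, mem_insert, mem_image, mem_product, Prod.exists]
  refine or_congr Iff.rfl (or_congr Iff.rfl ⟨?_, ?_⟩)
  · rintro ⟨x, y, ⟨h1, h2⟩, rfl⟩; exact ⟨x, h1, y, h2, rfl⟩
  · rintro ⟨x, h1, y, h2, rfl⟩; exact ⟨x, y, ⟨h1, h2⟩, rfl⟩

theorem v1 (t : ℕ) : ((1 : Fin (2 * t + 3)) : ℕ) = 1 := rfl

theorem sO {t : ℕ} {x y : Fin (2 * t + 3)} (hx : x ∈ XS t) (hy : y ∈ YS t) (a : Fin (2 * t + 3) → ℕ) :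
    ∑ j ∈ insert y ((XS t).erase x), a j + a x = a y + ∑ j ∈ XS t, a j := by
  rw [sum_insert (by rw [mem_erase, mX]; have := mY.1 hy; omega), add_assoc, sum_erase_add _ _ hx]

theorem anti (t : ℕ) (ht : 2 ≤ t) : ∀ C ∈ FF t, ∀ D ∈ FF t, C ⊆ D → C = D := by
  have n1 : (1 : Fin (2 * t + 3)) ∉ YS t := by rw [mY, v1]; omega
  have n0 : (0 : Fin (2 * t + 3)) ∉ XS t := by rw [mX]; simp
  have hc : ∀ C ∈ FF t, C.card = if C = insert 0 (XS t) then t + 2 else t + 1 := by
    intro C hC
    split_ifs with h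
    · rw [h, card_insert_of_notMem n0, cX]
    rcases mF.1 hC with rfl | rfl | ⟨x, hx, y, hy, rfl⟩
    · rw [card_insert_of_notMem n1, cY]
    · exact absurd rfl h
    · have := sO hx hy fun _ => 1
      simp only [sum_const, smul_eq_mul, mul_one, cX] at this
      omega
  intro C hC D hD h
  by_cases e : D = insert 0 (XS t)
  · rcases mF.1 hC with rfl | rfl | ⟨x, hx, y, hy, rfl⟩
    · have := h (mem_insert_self _ _)
      rw [e, mem_insert, mX, v1, Fin.ext_iff, v1] at this
      simp at this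
    · exact e.symm
    · have := h (mem_insert_self _ _)
      rw [e, mem_insert, mX, Fin.ext_iff] at this
      have := mY.1 hy
      simp only [Fin.val_zero] at *
      omega
  · refine eq_of_subset_of_card_le h ?_
    rw [hc C hC, hc D hD, if_neg e]
    split_ifs <;> omega

theorem main (t k : ℕ) (ht : 2 ≤ t) (hk : 0 < k) (hk2 : k ≤ t * (t + 1)) :
    sSup (DS ℚ (FF t) (t * (t + 1) + 1)) ≠ sSup (DS ℚ (FF t) k) := by
  have n1 : (1 : Fin (2 * t + 3)) ∉ YS t := by rw [mY, v1]; omega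
  have n0 : (0 : Fin (2 * t + 3)) ∉ XS t := by rw [mX]; simp
  have n2 : (0 : Fin (2 * t + 3)) ∉ YS t := by rw [mY]; simp
  have n3 : (1 : Fin (2 * t + 3)) ∉ XS t := by rw [mX, v1]; omega
  have uw : (0 : Fin (2 * t + 3)) ≠ 1 := by simp
  have hF : (FF t).Nonempty := ⟨_, mF.2 (Or.inl rfl)⟩
  have o0 : ∀ x, ∀ y ∈ YS t, (0 : Fin (2 * t + 3)) ∉ insert y ((XS t).erase x) := by
    intro x y hy
    simp only [mem_insert, mem_erase, not_or, not_and]
    exact ⟨fun e => n2 (e ▸ hy), fun _ => n0⟩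
  have o1 : ∀ x, ∀ y ∈ YS t, (1 : Fin (2 * t + 3)) ∉ insert y ((XS t).erase x) := by
    intro x y hy
    simp only [mem_insert, mem_erase, not_or, not_and]
    exact ⟨fun e => n1 (e ▸ hy), fun _ => n3⟩
  have p0 : (0 : Fin (2 * t + 3)) ∉ insert 1 (YS t) := by simp [n2]
  have p1 : (1 : Fin (2 * t + 3)) ∉ insert 0 (XS t) := by simp [n3]
  have h : ∀ C ∈ FF t, (0 : Fin (2 * t + 3)) ∉ C ∨ 1 ∉ C := by
    intro C hC
    rcases mF.1 hC with rfl | rfl | ⟨x, hx, y, hy, rfl⟩
    exacts [Or.inl p0, Or.inr p1, Or.inl (o0 x y hy)]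
  let a : Fin (2 * t + 3) →₀ ℕ := Finsupp.equivFunOnFinite.symm fun j =>
    if j ∈ XS t then t else if j ∈ YS t then t + 1 else 0
  have aX : ∀ j ∈ XS t, a j = t := fun j hj => by simp [a, hj]
  have aY : ∀ j ∈ YS t, a j = t + 1 := fun j hj => by
    have : j ∉ XS t := by rw [mX]; have := mY.1 hj; omega
    simp [a, hj, this]
  have sX : ∑ j ∈ XS t, a j = t * (t + 1) := by rw [sum_congr rfl aX]; simp [cX, mul_comm]
  have e1 : sSup (DS ℚ (FF t) (t * (t + 1) + 1)) = 1 := by
    refine IsGreatest.csSup_eq ⟨one_mem _ _ hF (by omega) uw h, ?_⟩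
    refine le_one _ _ (mF.2 (Or.inl rfl)) (mF.2 (Or.inr (Or.inl rfl))) (fun j hj => ?_) a ?_ ?_
      (fun C hC => ?_) p0 p1
    · simp only [mem_insert, mX, mY, Fin.ext_iff, v1, Fin.val_zero] at hj ⊢
      omega
    · rw [sum_insert n1, sum_congr rfl aY]; simp [a, n1, n3, cY]
    · rw [sum_insert n0, sX]; simp [a, n0, n2]
    · refine (mF.1 hC).imp_right (Or.imp_right ?_)
      rintro ⟨x, hx, y, hy, rfl⟩
      have := sO hx hy a
      rw [aX x hx, aY y hy, sX] at this
      omega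
  have e2 : 2 ∈ DS ℚ (FF t) k := by
    refine two_mem _ _ hF hk uw h (fun C hC => ?_) (fun C hC => ?_) fun b h1 h2 => ?_
    · rcases mF.1 hC with rfl | rfl | ⟨x, hx, y, hy, rfl⟩
      · refine ⟨⟨2, by omega⟩, ?_⟩
        simp only [mem_insert, mY, ne_eq, Fin.ext_iff, v1, Fin.val_zero]
        omega
      · exact ⟨1, uw.symm, p1⟩
      · exact ⟨1, uw.symm, o1 x y hy⟩
    · rcases mF.1 hC with rfl | rfl | ⟨x, hx, y, hy, rfl⟩
      · exact ⟨0, uw, p0⟩
      · refine ⟨⟨t + 3, by omega⟩, ?_⟩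
        simp only [mem_insert, mX, ne_eq, Fin.ext_iff, v1, Fin.val_zero]
        omega
      · exact ⟨0, uw, o0 x y hy⟩
    · by_contra hn
      push Not at hn
      simp only [Finsupp.add_apply, sum_add_distrib, Finsupp.single_apply, sum_ite_eq] at hn h1 h2
      have o : ∀ x ∈ XS t, ∀ y ∈ YS t, k ≤ ∑ j ∈ insert y ((XS t).erase x), b j := by
        intro x hx y hy
        have := hn _ (mF.2 (Or.inr (Or.inr ⟨x, hx, y, hy, rfl⟩)))
        rw [if_neg (o0 x y hy), if_neg (o1 x y hy)] at this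
        omega
      have q1 : ∑ j ∈ YS t, b j < k := by
        obtain ⟨C, hC, h3⟩ := h1
        have := hn C hC
        rcases mF.1 hC with rfl | rfl | ⟨x, hx, y, hy, rfl⟩
        · rw [sum_insert n1] at h3; omega
        · rw [if_neg p1] at this; omega
        · have := o x hx y hy; omega
      have q2 : ∑ j ∈ XS t, b j < k := by
        obtain ⟨C, hC, h3⟩ := h2
        have := hn C hC
        rcases mF.1 hC with rfl | rfl | ⟨x, hx, y, hy, rfl⟩
        · rw [if_neg p0] at this; omega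
        · rw [sum_insert n0] at h3; omega
        · have := o x hx y hy; omega
      obtain ⟨x, hx, hx2⟩ := exists_max_image (XS t) b (card_pos.1 (by rw [cX]; omega))
      obtain ⟨y, hy, hy2⟩ := exists_min_image (YS t) b (card_pos.1 (by rw [cY]; omega))
      have r1 := sum_le_card_nsmul _ _ _ hx2
      have r2 := card_nsmul_le_sum _ _ _ hy2
      have r3 := sO hx hy b
      have r4 := o x hx y hy
      rw [cX, smul_eq_mul] at r1
      rw [cY, smul_eq_mul] at r2
      have r5 : b x + 1 ≤ b y := by omega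
      have r6 : b y ≤ t := by nlinarith
      nlinarith
  rw [e1]
  intro e
  by_cases hb : BddAbove (DS ℚ (FF t) k)
  · have := le_csSup hb e2
    omega
  · rw [Nat.sSup_of_not_bddAbove hb] at e
    omega

/-- The negation of the preceding statement: There is a constant c such that for every field K, every r and every square-free monomial ideal I in K[X_1..X_r], the depth of R modulo the n-th symbolic power of I is the same for all n at least c(r+1). -/
theorem result :
    ¬ (∃ c : ℕ, ∀ (K : Type) [Field K] (r : ℕ) (S : Set (Finset (Fin r))) (n : ℕ),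
      c * (r + 1) ≤ n →
      sSup {k : ℕ | ∃ rs : List (MvPolynomial (Fin r) K), rs.length = k ∧
          (∀ x ∈ rs, x ∈ Ideal.span (Set.range (MvPolynomial.X : Fin r → MvPolynomial (Fin r) K))) ∧
          RingTheory.Sequence.IsRegular
            (MvPolynomial (Fin r) K ⧸
              ⨅ P ∈ Ideal.minimalPrimes (Ideal.span
                ((fun s : Finset (Fin r) =>
                  MvPolynomial.monomial (∑ i ∈ s, Finsupp.single i 1) (1 : K)) '' S)), P ^ n)
            rs}
      =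
      sSup {k : ℕ | ∃ rs : List (MvPolynomial (Fin r) K), rs.length = k ∧
          (∀ x ∈ rs, x ∈ Ideal.span (Set.range (MvPolynomial.X : Fin r → MvPolynomial (Fin r) K))) ∧
          RingTheory.Sequence.IsRegular
            (MvPolynomial (Fin r) K ⧸
              ⨅ P ∈ Ideal.minimalPrimes (Ideal.span
                ((fun s : Finset (Fin r) =>
                  MvPolynomial.monomial (∑ i ∈ s, Finsupp.single i 1) (1 : K)) '' S)), P ^ (c * (r + 1)))
            rs}) := by
  rintro ⟨c, h⟩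
  have := h ℚ (2 * (2 * c + 3) + 3) (trans (FF (2 * c + 3))) ((2 * c + 3) * (2 * c + 3 + 1) + 1)
    (by nlinarith)
  rw [symb_eq _ (anti _ (by omega)), symb_eq _ (anti _ (by omega))] at this
  rcases Nat.eq_zero_or_pos c with rfl | hc
  · have h2 := h ℚ (2 * 3 + 3) (trans (FF 3)) 1 (by simp)
    rw [symb_eq _ (anti _ (by omega)), symb_eq _ (anti _ (by omega))] at h2
    exact main 3 1 (by omega) (by omega) (by omega) (this.trans h2.symm)
  · exact main _ _ (by omega) (by positivity) (by nlinarith) this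

end Pool.Agent.S00852
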