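import Pool.Statements.S00865
import Pool.Agent.H69.Pq1

set_option autoImplicit false
open Pool Pool.MP_1d00e6_al

namespace Pool.Agent.S00865

/-- For all distinct primes p, q there is a torsion group whose element orders are of the form p^a q^b, which is neither a p-group nor a q-group, whose finitely generated subgroups are solvable, and which equals AB for two p-subgroups A, B. -/
theorem result :
    ∀ p q : ℕ, p.Prime → q.Prime → p ≠ q →
      ∃ (G : Type) (_ : Group G),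
        Monoid.IsTorsion G ∧
        (∀ g : G, ∃ a b : ℕ, orderOf g = p ^ a * q ^ b) ∧
        ¬ IsPGroup p G ∧ ¬ IsPGroup q G ∧
        (∀ s : Finset G, IsSolvable (Subgroup.closure (s : Set G))) ∧
        ∃ A B : Subgroup G, IsPGroup p A ∧ IsPGroup p B ∧
          ∀ g : G, ∃ a ∈ A, ∃ b ∈ B, g = a * b := by
  intro p q hp hq hpq
  obtain ⟨G, _, h1, ⟨z, z0, z1⟩, h3, A, B, hA, hB, h4⟩ := H69.Pq.main hp hq
  refine ⟨G, inferInstance, fun g => ?_, fun g => ?_, fun h => ?_, fun h => z0 ?_, h3, A, B, hA, hB,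
    h4⟩
  · obtain ⟨k, hk⟩ := h1 g
    exact isOfFinOrder_iff_pow_eq_one.2 ⟨_, Nat.mul_pos (pow_pos hp.pos k) hq.pos, hk⟩
  · obtain ⟨k, hk⟩ := h1 g
    obtain ⟨c, d, hc, hd, e⟩ := (Nat.dvd_mul).1 (orderOf_dvd_of_pow_eq_one hk)
    obtain ⟨a, -, rfl⟩ := (Nat.dvd_prime_pow hp).1 hc
    obtain ⟨b, -, rfl⟩ := (Nat.dvd_prime_pow hq (m := 1)).1 (by simpa using hd)
    exact ⟨a, b, e.symm⟩
  · obtain ⟨k, hk⟩ := h z
    exact z0 (H69.Pq.cop hp hq hpq hk (b := 1) (by simpa using z1))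
  · obtain ⟨a, ha, b, hb, rfl⟩ := h4 z
    obtain ⟨k, hk⟩ := hA ⟨a, ha⟩
    obtain ⟨l, hl⟩ := hB ⟨b, hb⟩
    obtain ⟨k', hk'⟩ := h a
    obtain ⟨l', hl'⟩ := h b
    rw [H69.Pq.cop (g := a) hp hq hpq (congrArg Subtype.val hk) hk',
      H69.Pq.cop (g := b) hp hq hpq (congrArg Subtype.val hl) hl', mul_one]

end Pool.Agent.S00865
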