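import Pool.Statements.S00882
import Pool.Agent.H27.ConjOrd

set_option autoImplicit false
open Pool Pool.MP_1e7c77_al

namespace Pool.Agent.S00882

/-- The negation of the preceding statement: Take a group G with a right-order cone P, a nilpotent subgroup N, its minimal divisible completion N# with a cone extending P∩N, and g in N#. Then the cone on N cut out by the g-conjugate of that cone is the restriction of some right-order cone on G. -/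
theorem result :
    ¬ (∀ (G : Type) [Group G] (N : Subgroup G), Group.IsNilpotent N →
    ∀ (P : Set G),
      ((∀ a ∈ P, ∀ b ∈ P, a * b ∈ P) ∧ (1 : G) ∉ P ∧ (∀ a : G, a ≠ 1 → (a ∈ P ↔ a⁻¹ ∉ P))) →
    ∀ (H : Type) [Group H], Group.IsNilpotent H →
      (∀ h : H, ∀ n : ℕ, 0 < n → ∃ x : H, x ^ n = h) →
    ∀ (ι : N →* H), Function.Injective ι →
      (∀ h : H, ∃ n : ℕ, 0 < n ∧ h ^ n ∈ ι.range) →
    ∀ (Q : Set H),
      ((∀ a ∈ Q, ∀ b ∈ Q, a * b ∈ Q) ∧ (1 : H) ∉ Q ∧ (∀ a : H, a ≠ 1 → (a ∈ Q ↔ a⁻¹ ∉ Q))) →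
      (∀ x : N, ι x ∈ Q ↔ (x : G) ∈ P) →
    ∀ g : H, ∃ R : Set G,
      ((∀ a ∈ R, ∀ b ∈ R, a * b ∈ R) ∧ (1 : G) ∉ R ∧ (∀ a : G, a ≠ 1 → (a ∈ R ↔ a⁻¹ ∉ R))) ∧
      (∀ x : N, (x : G) ∈ R ↔ g⁻¹ * ι x * g ∈ Q)) := by
  open Pool.Agent.H27.ConjOrd in
  intro h
  obtain ⟨W, hW⟩ := exists_cone (α := ℤ ×ₗ J)
  let e := MonoidHom.ofInjective act_inj
  have e1 : ∀ a, ((e a : act.range) : ℤ ×ₗ J ≃o ℤ ×ₗ J) = act a := fun _ => rfl
  haveI := nilp (R := ℤ)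
  obtain ⟨R, hR, h2⟩ := h _ act.range (nilpotent_of_mulEquiv e) _
    ((hW.at (toLex (1, toLex (0, p0)))).at (toLex (0, toLex (0, p0)))) (He ℚ) nilp divisible
    (cst.comp e.symm.toMonoidHom) (cst_inj.comp e.symm.injective)
    (fun x => by
      obtain ⟨n, h1, a, h2⟩ := pow_mem x
      exact ⟨n, h1, e a, by simpa using h2⟩) QQ isC_QQ
    (fun x => by
      obtain ⟨a, rfl⟩ := e.surjective x
      rw [e1, ← mem_iff hW]
      simp) ⟨1 / 2, 0, 0⟩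
  refine contra hR ((h2 (e _)).2 ?_) ((h2 (e _)).2 ?_) <;>
    simp [QQ, cst, mul_def, inv_def] <;> norm_num

end Pool.Agent.S00882
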