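import Pool.Statements.S00942
import Pool.Agent.H70.Laws2

set_option autoImplicit false
open Pool Pool.MP_233a97_al

namespace Pool.Agent.S00942

open Pool.Agent.H70.Laws

abbrev F := FreeGroup ℕ

def om : C3 := Multiplicative.ofAdd 1

def piF : F →* C3 := FreeGroup.lift fun i => if i = 0 then om else 1

def Rel : Set F := {r | (∃ k, piF k = 1 ∧ r = k ^ 16) ∨ ∃ m f, r = ev m f}

abbrev GG := F ⧸ Subgroup.normalClosure Rel

noncomputable def liftG {K : Type} [Group K] (θ : F →* K) (h1 : ∀ k, piF k = 1 → θ k ^ 16 = 1)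
    (h2 : ∀ m (f : ℕ → F), ev m (fun i => θ (f i)) = 1) : GG →* K :=
  QuotientGroup.lift _ θ (by
    refine Subgroup.normalClosure_le_normal (N := θ.ker) ?_
    rintro r (⟨k, hk, rfl⟩ | ⟨m, f, rfl⟩)
    · simpa using h1 k hk
    · simpa [map_ev] using h2 m f)

theorem ev_comm {K : Type} [Group K] (m : ℕ) (f : ℕ → K)
    (h : f 0 * f 1 ^ 16 = f 1 ^ 16 * f 0) : ev m f = 1 := by
  rw [← commutatorElement_eq_one_iff_mul_comm] at h
  simp [ev, h]

noncomputable def piG : GG →* C3 := liftG piF (fun k hk => by simp [hk])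
  (fun m f => ev_comm _ _ (mul_comm _ _))

theorem law_G (m : ℕ) (φ : F →* GG) : φ (ev m FreeGroup.of) = 1 := by
  choose p hp using fun i => QuotientGroup.mk_surjective (φ (FreeGroup.of i))
  rw [map_ev]
  have e : (fun i => φ (FreeGroup.of i)) = fun i => QuotientGroup.mk' _ (p i) :=
    funext fun i => (hp i).symm
  rw [e, ← map_ev, QuotientGroup.mk'_apply, QuotientGroup.eq_one_iff]
  exact Subgroup.subset_normalClosure (Or.inr ⟨m, p, rfl⟩)

theorem supp (w : F) : ∃ n : ℕ, w ∈ Subgroup.closure (FreeGroup.of '' Set.Iio n) := by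
  have mono : ∀ {a b : ℕ}, a ≤ b → Subgroup.closure (FreeGroup.of '' Set.Iio a) ≤
      Subgroup.closure (FreeGroup.of '' Set.Iio b) := fun h =>
    Subgroup.closure_mono (Set.image_mono (Set.Iio_subset_Iio h))
  induction w using FreeGroup.induction_on with
  | C1 => exact ⟨0, one_mem _⟩
  | of x => exact ⟨x + 1, Subgroup.subset_closure ⟨x, by simp, rfl⟩⟩
  | inv_of x ih => obtain ⟨n, h⟩ := ih; exact ⟨n, inv_mem h⟩
  | mul x y hx hy =>
    obtain ⟨n, h⟩ := hx
    obtain ⟨m, k⟩ := hy
    exact ⟨max n m, mul_mem (mono (le_max_left _ _) h) (mono (le_max_right _ _) k)⟩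

theorem supp_fin (S : Finset F) :
    ∃ n : ℕ, ∀ s ∈ S, s ∈ Subgroup.closure (FreeGroup.of '' Set.Iio n) := by
  choose n hn using supp
  refine ⟨S.sup n, fun s hs => ?_⟩
  exact Subgroup.closure_mono (Set.image_mono (Set.Iio_subset_Iio (Finset.le_sup hs))) (hn s)

/-- every law of `GG` in the first `n` variables holds in the test group -/
theorem law_gam (n : ℕ) (s : F) (hs : s ∈ Subgroup.closure (FreeGroup.of '' Set.Iio n))
    (hl : ∀ φ : F →* GG, φ s = 1) (φ : F →* Gam (n + 1)) : φ s = 1 := by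
  obtain ⟨ξ, hξ, hx⟩ := exists_xi n (fun k => (tb (φ (FreeGroup.of k.val))).x)
  let g : ℕ → Gam (n + 1) := fun i => if i < n then φ (FreeGroup.of i) else 1
  let tt : Gam (n + 1) := QuotientGroup.mk (iota (t0 (n + 1)))
  have htt : tb tt = t0 (n + 1) := rfl
  let k : ℕ → ℕ := fun i => (tb (g i)).c.val
  let θ : F →* Gam (n + 1) := FreeGroup.lift fun i =>
    match i with
    | 0 => tt
    | i + 1 => g i * (tt ^ k i)⁻¹
  have hg : ∀ i, tb (g i) ∈ Txi ξ := fun i => by
    simp only [g]
    split_ifs with h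
    · exact hx ⟨i, h⟩
    · simp
  have ht : tb tt ∈ Txi ξ := by
    rw [htt]
    show ∑ i, ξ i * (t0 (n + 1)).x i = 0
    simp [t0]
  have hθ : ∀ w, tb (θ w) ∈ Txi ξ := by
    intro w
    induction w using FreeGroup.induction_on with
    | C1 => simp
    | of x =>
      cases x with
      | zero => simpa [θ] using ht
      | succ i =>
        simp only [θ, FreeGroup.lift_apply_of, map_mul, map_inv, map_pow]
        exact mul_mem (hg i) (inv_mem (pow_mem ht _))
    | inv_of x ih => rw [map_inv, map_inv]; exact inv_mem ih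
    | mul x y hx hy => rw [map_mul, map_mul]; exact mul_mem hx hy
  have hπ : (piT.comp tb).comp θ = piF := by
    ext i
    cases i with
    | zero => simp only [θ, piF, MonoidHom.comp_apply, FreeGroup.lift_apply_of, htt]; rfl
    | succ i =>
      simp only [θ, piF, MonoidHom.comp_apply, FreeGroup.lift_apply_of, map_mul, map_inv, map_pow,
        htt, k]
      show Multiplicative.ofAdd (tb (g i)).c * (om ^ (tb (g i)).c.val)⁻¹ = _
      generalize (tb (g i)).c = z
      simp only [Nat.succ_ne_zero, if_false]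
      revert z; decide
  let θ' : GG →* Gam (n + 1) := liftG θ
    (fun w hw => gam_exp _ (by rw [← hπ] at hw; exact hw))
    (fun m f => gam_good ξ hξ _ (fun i => hθ _) m)
  let ρ : F →* GG := (QuotientGroup.mk' _).comp
    (FreeGroup.lift fun i => FreeGroup.of (i + 1) * FreeGroup.of 0 ^ k i)
  have h1 : θ' (ρ s) = φ s := by
    refine MonoidHom.eqOn_closure (f := θ'.comp ρ) (g := φ) ?_ hs
    rintro _ ⟨i, hi, rfl⟩
    have hi' : i < n := hi
    show θ (FreeGroup.lift (fun i => FreeGroup.of (i + 1) * FreeGroup.of 0 ^ k i)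
      (FreeGroup.of i)) = _
    simp [θ, g, hi']
  rw [← h1, hl, map_one]

def V : Subgroup F := Subgroup.closure
  {v : F | ∃ s ∈ ({FreeGroup.of 0 ^ 16} : Finset F), ∃ ψ : F →* F, ψ s = v}

theorem pow_mem_V (x : F) : x ^ 16 ∈ V :=
  Subgroup.subset_closure ⟨_, Finset.mem_singleton_self _, FreeGroup.lift fun _ => x, by simp⟩

instance : V.Normal := ⟨by
  intro v hv g
  induction hv using Subgroup.closure_induction with
  | mem x hx =>
    obtain ⟨s, hs, ψ, rfl⟩ := hx
    rw [Finset.mem_singleton] at hs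
    rw [hs, map_pow, ← conj_pow]
    exact pow_mem_V _
  | one => simp
  | mul x y _ _ hx hy => simpa using mul_mem hx hy
  | inv x _ hx => simpa [mul_assoc] using inv_mem hx⟩

theorem law_H (w : F) (h : ∀ φ : F →* piG.ker, φ w = 1) : w ∈ V := by
  have hB : ∀ b : F ⧸ V, b ^ 16 = 1 := fun b => by
    obtain ⟨x, rfl⟩ := QuotientGroup.mk_surjective b
    rw [← QuotientGroup.mk_pow, QuotientGroup.eq_one_iff]
    exact pow_mem_V x
  let θ : F →* (F ⧸ V) × C3 := FreeGroup.lift fun i =>
    match i with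
    | 0 => (1, om)
    | i + 1 => (QuotientGroup.mk (FreeGroup.of i), 1)
  have hπ : (MonoidHom.snd _ _).comp θ = piF := by
    ext i
    cases i <;> simp [θ, piF]
  let θ' : GG →* (F ⧸ V) × C3 := liftG θ
    (fun k hk => by
      rw [← hπ] at hk
      have : (θ k).2 = 1 := hk
      ext
      · simp [hB]
      · simp [this])
    (fun m f => ev_comm _ _ (by
      ext
      · simp [hB]
      · simp [mul_comm]))
  let φ : F →* piG.ker := FreeGroup.lift fun i =>
    ⟨QuotientGroup.mk (FreeGroup.of (i + 1)), by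
      show piF (FreeGroup.of (i + 1)) = 1
      simp [piF]⟩
  have e : ((MonoidHom.fst _ _).comp θ').comp (piG.ker.subtype.comp φ) = QuotientGroup.mk' V := by
    ext i
    simp only [MonoidHom.comp_apply, φ, FreeGroup.lift_apply_of, Subgroup.subtype_apply]
    show (θ (FreeGroup.of (i + 1))).1 = _
    simp [θ]
  have := congrArg (fun f : F →* F ⧸ V => f w) e
  simp only [MonoidHom.comp_apply, h φ, map_one, QuotientGroup.mk'_apply] at this
  exact (QuotientGroup.eq_one_iff _).1 this.symm

/-- The negation of the preceding statement: For every group G and finite-index subgroup H: if some finite set of laws of H generates all laws of H as a verbal subgroup of the free group on countably many letters, then the same holds for G. -/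
theorem result :
    ¬ (∀ (G : Type) [Group G] (H : Subgroup G), H.FiniteIndex →
      (∃ S : Finset (FreeGroup ℕ),
          (∀ s ∈ S, ∀ φ : FreeGroup ℕ →* H, φ s = 1) ∧
          ∀ w : FreeGroup ℕ, (∀ φ : FreeGroup ℕ →* H, φ w = 1) →
            w ∈ Subgroup.closure
              {v : FreeGroup ℕ | ∃ s ∈ S, ∃ ψ : FreeGroup ℕ →* FreeGroup ℕ, ψ s = v}) →
      (∃ S : Finset (FreeGroup ℕ),
          (∀ s ∈ S, ∀ φ : FreeGroup ℕ →* G, φ s = 1) ∧
          ∀ w : FreeGroup ℕ, (∀ φ : FreeGroup ℕ →* G, φ w = 1) →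
            w ∈ Subgroup.closure
              {v : FreeGroup ℕ | ∃ s ∈ S, ∃ ψ : FreeGroup ℕ →* FreeGroup ℕ, ψ s = v})) := by
  intro h
  obtain ⟨S, hS, hS2⟩ := h GG piG.ker inferInstance ⟨{FreeGroup.of 0 ^ 16}, by
    intro s hs φ
    rw [Finset.mem_singleton] at hs
    rw [hs, map_pow]
    obtain ⟨x, hx⟩ := φ (FreeGroup.of 0)
    obtain ⟨k, rfl⟩ := QuotientGroup.mk_surjective x
    ext
    show (QuotientGroup.mk k : GG) ^ 16 = 1
    rw [← QuotientGroup.mk_pow, QuotientGroup.eq_one_iff]
    exact Subgroup.subset_normalClosure (Or.inl ⟨k, hx, rfl⟩), law_H⟩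
  obtain ⟨n, hn⟩ := supp_fin S
  obtain ⟨f, hf⟩ := gam_bad (d := n + 1) (Nat.succ_pos n)
  apply hf
  have h1 := hS2 _ (law_G (n + 1))
  have h2 : Subgroup.closure
      {v : FreeGroup ℕ | ∃ s ∈ S, ∃ ψ : FreeGroup ℕ →* FreeGroup ℕ, ψ s = v} ≤
      (FreeGroup.lift f).ker := by
    rw [Subgroup.closure_le]
    rintro _ ⟨s, hs, ψ, rfl⟩
    exact law_gam n s (hn s hs) (hS s hs) ((FreeGroup.lift f).comp ψ)
  have h3 := h2 h1
  rw [MonoidHom.mem_ker, map_ev] at h3
  simpa using h3

end Pool.Agent.S00942
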