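import Pool.Statements.S00960
import Pool.Agent.H67.ArcPart

set_option autoImplicit false
open Pool Pool.MP_2475ca_al

namespace Pool.Agent.S00960

/-- The negation of the preceding statement: There exist M < G acting on n points with M transitive, and a partition of ordered distinct pairs into k ≥ 2 classes, G-invariant, G-transitive, each fixed by M, with G inducing a non-cyclic group on the classes and some prime part of n not ≡ 1 mod k. -/
theorem result :
    ¬ (∃ (n k : ℕ) (M G : Subgroup (Equiv.Perm (Fin n))) (c : Fin n → Fin n → Fin k),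
    2 ≤ k ∧ M < G ∧
    (∀ a b : Fin n, ∃ m ∈ M, m a = b) ∧
    (∀ i : Fin k, ∃ a b : Fin n, a ≠ b ∧ c a b = i) ∧
    (∀ g ∈ G, ∃ σ : Equiv.Perm (Fin k),
      ∀ a b : Fin n, a ≠ b → c (g a) (g b) = σ (c a b)) ∧
    (∀ i j : Fin k, ∃ g ∈ G,
      ∀ a b : Fin n, a ≠ b → c a b = i → c (g a) (g b) = j) ∧
    (∀ m ∈ M, ∀ a b : Fin n, a ≠ b → c (m a) (m b) = c a b) ∧
    (¬ ∃ τ : Equiv.Perm (Fin k), ∀ g ∈ G, ∃ z : ℤ,
      ∀ a b : Fin n, a ≠ b → c (g a) (g b) = (τ ^ z) (c a b)) ∧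
    (∃ r : ℕ, r.Prime ∧ r ∣ n ∧ ¬ Nat.ModEq k (r ^ (n.factorization r)) 1)) := by
  rintro ⟨n, k, M, G, c, hk, hMG, hM, hsurj, hσ, htr, hMc, -, r, hr, hrn, hne⟩
  apply hne
  choose σ hσ using hσ
  have huniq : ∀ (τ τ' : Equiv.Perm (Fin k)),
      (∀ a b : Fin n, a ≠ b → τ (c a b) = τ' (c a b)) → τ = τ' := by
    intro τ τ' h
    ext i
    obtain ⟨a, b, hab, rfl⟩ := hsurj i
    rw [h a b hab]
  let φ : G →* Equiv.Perm (Fin k) := MonoidHom.mk' (fun g => σ g g.2) (by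
    intro g h
    apply huniq
    intro a b hab
    have h1 : (h : Equiv.Perm (Fin n)) a ≠ (h : Equiv.Perm (Fin n)) b :=
      fun e => hab ((h : Equiv.Perm (Fin n)).injective e)
    rw [← hσ _ _ a b hab, Equiv.Perm.mul_apply, ← hσ _ _ a b hab, ← hσ _ _ _ _ h1]
    rfl)
  letI : MulAction G (Fin k) := MulAction.compHom (Fin k) φ
  have hsm : ∀ (g : G) (x : Fin k), g • x = σ g g.2 x := fun _ _ => rfl
  obtain ⟨a₀, b₀, -, -⟩ := hsurj ⟨0, by omega⟩
  have := H67.ArcPart.main (G := G) (Ω := Fin n) (C := Fin k) c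
    (fun g a b hab => by rw [hsm, ← hσ _ _ a b hab]; rfl)
    (fun x y => by
      obtain ⟨g, hg, h⟩ := htr x y
      obtain ⟨a, b, hab, rfl⟩ := hsurj x
      exact ⟨⟨g, hg⟩, by rw [hsm, ← hσ _ _ a b hab]; exact h a b hab rfl⟩)
    φ.ker
    (fun m hm x => by
      have : φ m = 1 := hm
      show φ m x = x
      rw [this]; rfl)
    (fun a b => by
      obtain ⟨m, hm, h⟩ := hM a b
      refine ⟨⟨m, hMG.le hm⟩, ?_, h⟩
      apply huniq
      intro a b hab
      exact (hσ _ _ a b hab).symm.trans (hMc m hm a b hab))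
    a₀ r hr
  simpa using this

end Pool.Agent.S00960
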