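import Pool.Statements.S00977
import Pool.Agent.H68.Fit5

set_option autoImplicit false
open Pool Pool.MP_25c7a1_al

namespace Pool.Agent.S00977

theorem result :
    ∀ F : (G : Type) → [Group G] → Prop,
      (∀ (G : Type) [Group G], F G → Finite G ∧ IsSolvable G) →
      (∀ (G H : Type) [Group G] [Group H], Nonempty (G ≃* H) → F G → F H) →
      (∀ (G : Type) [Group G] (N : Subgroup G), N.Normal → F G → F ↥N) →
      (∀ (G : Type) [Group G] [Finite G] (N M : Subgroup G), N.Normal → M.Normal →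
          F ↥N → F ↥M → F ↥(N ⊔ M)) →
      (∀ (G : Type) [Group G] [Finite G], IsSolvable G →
          ∀ A B : Subgroup G,
            (∀ g : G, g ∈ A ⊔ A.map (MulAut.conj g).toMonoidHom) →
            (∀ g : G, g ∈ B ⊔ B.map (MulAut.conj g).toMonoidHom) →
            F ↥A → F ↥B →
            (∀ g : G, ∃ a ∈ A, ∃ b ∈ B, a * b = g) → F G) →
      ((∀ (G : Type) [Group G] (N : Subgroup G) [N.Normal], F G → F (G ⧸ N)) ∧
       (∀ (G : Type) [Group G] [Finite G] (N M : Subgroup G) [N.Normal] [M.Normal],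
          N ⊓ M = ⊥ → F (G ⧸ N) → F (G ⧸ M) → F G)) := by
  open Pool.Agent.H68.Fit in
  intro F h1 h3 h4 h5 h7
  have key : ∀ (G : Type) [Group G], F G → FC F ∧ WP F := fun G _ h =>
    ⟨⟨h1, h3 _ _ ⟨MulEquiv.ofUnique⟩ (h4 G ⊥ inferInstance h), fun G H _ _ e => h3 G H ⟨e⟩, h4, h5⟩,
      fun G _ _ hs A B N a b c d _ _ le hB => h7 G hs A B a b c d fun g => by
        obtain ⟨b, h1, h2⟩ := hB g
        exact ⟨_, le h2, b, h1, by group⟩⟩
  refine ⟨fun G _ N _ h => (key G h).1.quot (key G h).2 _ (QuotientGroup.mk'_surjective N) h,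
    fun G _ _ N M _ _ e a b => (key _ a).1.r0 (key _ a).2 (QuotientGroup.mk' N)
      (QuotientGroup.mk' M) (fun g e1 e2 => ?_) a b⟩
  rw [← Subgroup.mem_bot, ← e]
  exact ⟨(QuotientGroup.eq_one_iff g).1 e1, (QuotientGroup.eq_one_iff g).1 e2⟩

end Pool.Agent.S00977
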