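import Pool.Statements.S01012
import Pool.Agent.H66.Pyth

set_option autoImplicit false
open Pool Pool.MP_293fae_al

namespace Pool.Agent.S01012

/-- The negation of the preceding statement: For every 2-dimensional regular local ring R with fraction field K, and every n, every sum of squares in R is a sum of n squares iff the same holds in K; that is, the Pythagoras numbers of R and K agree. -/
theorem result :
    ¬ (∀ (R : Type) [CommRing R] [IsDomain R] [IsLocalRing R] [IsNoetherianRing R],
      ringKrullDim R = 2 →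
      (∃ a b : R, IsLocalRing.maximalIdeal R = Ideal.span {a, b}) →
      ∀ (K : Type) [Field K] [Algebra R K] [IsFractionRing R K],
      ∀ n : ℕ,
        ((∀ x : R, IsSumSq x → ∃ f : Fin n → R, x = ∑ i, f i ^ 2) ↔
          (∀ x : K, IsSumSq x → ∃ f : Fin n → K, x = ∑ i, f i ^ 2))) := by
  intro h
  let R := Localization.AtPrime Pool.Agent.H66.Pyth.P
  let al := algebraMap (Polynomial GaussianInt) R
  have hinj : Function.Injective al :=
    IsLocalization.injective R Pool.Agent.H66.Pyth.P.primeCompl_le_nonZeroDivisors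
  have hdim : ringKrullDim R = 2 := by
    rw [IsLocalization.AtPrime.ringKrullDim_eq_height Pool.Agent.H66.Pyth.P R,
      Pool.Agent.H66.Pyth.height_P]
    rfl
  have hmax : IsLocalRing.maximalIdeal R =
      Ideal.span {al (Polynomial.C Pool.Agent.H66.Pyth.pi), al Polynomial.X} := by
    rw [← Localization.AtPrime.map_eq_maximalIdeal]
    refine (congrArg (Ideal.map al) Pool.Agent.H66.Pyth.P_eq).trans ?_
    rw [Ideal.map_span, Set.image_pair]
  have hi : al (Polynomial.C Pool.Agent.H66.Pyth.ii) ^ 2 = -1 := by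
    rw [← map_pow, sq, ← Polynomial.C_mul, Pool.Agent.H66.Pyth.ii_sq]; simp
  have hK : ∀ (R : Type) [CommRing R] [IsDomain R],
      ∃ (K : Type) (_ : Field K) (_ : Algebra R K), IsFractionRing R K :=
    fun R _ _ => ⟨FractionRing R, inferInstance, inferInstance, inferInstance⟩
  obtain ⟨K, _, _, _⟩ := hK R
  have key := (h R hdim ⟨_, _, hmax⟩ K 2).2 (by
    intro x _
    set j := algebraMap R K (al (Polynomial.C Pool.Agent.H66.Pyth.ii)) with hj
    have hj2 : j ^ 2 = -1 := by rw [hj, ← map_pow, hi]; simp
    have h2 : (2 : K) ≠ 0 := by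
      intro h2
      have : algebraMap R K (al 2) = algebraMap R K (al 0) := by
        rw [map_ofNat, map_ofNat, map_zero, map_zero, h2]
      exact two_ne_zero (hinj (IsFractionRing.injective R K this))
    refine ⟨![(x + 1) / 2, j * (x - 1) / 2], ?_⟩
    simp only [Fin.sum_univ_two, Matrix.cons_val_zero, Matrix.cons_val_one]
    field_simp
    rw [hj2]
    ring)
  obtain ⟨f, hf⟩ := key (2 * al Polynomial.X) (by
    have : 2 * al Polynomial.X = (1 + al Polynomial.X) * (1 + al Polynomial.X) +
        (al (Polynomial.C Pool.Agent.H66.Pyth.ii) * al (Polynomial.C Pool.Agent.H66.Pyth.ii) +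
        ((al (Polynomial.C Pool.Agent.H66.Pyth.ii) * al Polynomial.X) *
          (al (Polynomial.C Pool.Agent.H66.Pyth.ii) * al Polynomial.X) + 0)) := by
      linear_combination (-1 - al Polynomial.X ^ 2) * hi
    rw [this]
    exact IsSumSq.sq_add _ (IsSumSq.sq_add _ (IsSumSq.sq_add _ IsSumSq.zero)))
  rw [Fin.sum_univ_two] at hf
  obtain ⟨⟨a, s⟩, ha⟩ := IsLocalization.surj Pool.Agent.H66.Pyth.P.primeCompl (f 0)
  obtain ⟨⟨b, t⟩, hb⟩ := IsLocalization.surj Pool.Agent.H66.Pyth.P.primeCompl (f 1)
  refine Pool.Agent.H66.Pyth.not_two (a * t) (b * s) (s * t) (s * t).2 (hinj ?_)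
  simp only [map_add, map_mul, map_pow, map_ofNat]
  rw [hf]
  simp only at ha hb
  change _ * al _ = al _ at ha hb
  rw [← ha, ← hb]
  ring

end Pool.Agent.S01012
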