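import Pool.Statements.S01019
import Pool.Agent.H77.PowPeriodic

set_option autoImplicit false
open scoped Pointwise
open Pool Pool.MP_29ab50_al

namespace Pool.Agent.S01019

/-- Every commutative semigroup in which each element generates a finite subsemigroup embeds, via an injective homomorphism, into the semigroup of nonempty subsets (pointwise product) of some abelian group in which every element has finite order. -/
theorem result :
    ∀ (S : Type) [CommSemigroup S],
      (∀ x : S, (Subsemigroup.closure ({x} : Set S) : Set S).Finite) →
      ∃ (G : Type) (_ : CommGroup G), Monoid.IsTorsion G ∧
        ∃ f : S →ₙ* Set G, Function.Injective f ∧ ∀ s : S, (f s).Nonempty := by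
  intro S _ h
  exact Pool.Agent.H77.PowPeriodic.main S h

end Pool.Agent.S01019
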