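import Pool.Statements.S01061
import Pool.Agent.H67.SD

set_option autoImplicit false
open Pool Pool.MP_2d5453_al

namespace Pool.Agent.S01061

open Pool.Agent.H67.SD
open scoped commutatorElement

theorem solv {V K : Type} [AddCommGroup V] [Group K] [DistribMulAction K V]
    [Group.IsSolvable K] : Group.IsSolvable (Aff V K) :=
  Group.isSolvable_of_ker_le_range
    (MonoidHom.mk' (fun a : Multiplicative V => (⟨a.toAdd, 1⟩ : Aff V K))
      fun _ _ => Aff.ext (by simp) (by simp)) proj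
    fun x hx => ⟨Multiplicative.ofAdd x.v, Aff.ext rfl hx.symm⟩

abbrev M := Aff (ℕ → ZMod 4) ℤˣ

def V := M → ZMod 2

instance : AddCommGroup V := inferInstanceAs (AddCommGroup (M → ZMod 2))

instance : DistribMulAction M V where
  smul g w := fun m => w (m * g)
  one_smul w := funext fun m => congrArg w (mul_one m)
  mul_smul g h w := funext fun m => congrArg w (mul_assoc m g h).symm
  smul_zero _ := rfl
  smul_add _ _ _ := rfl

theorem two (w : V) : w + w = 0 := funext fun m => CharTwo.add_self_eq_zero (w m)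

def D (k : M) (w : V) : V := k • w - w

theorem DD (k : M) (w : V) : D k (D k w) = D (k * k) w := by
  have := two (k • w - w)
  simp only [D, smul_sub, mul_smul]
  linear_combination (norm := skip) (-1 : ℤ) • this
  abel

theorem D1 (w : V) : D 1 w = 0 := by simp [D]
theorem D0 (k : M) : D k 0 = 0 := by simp [D]
theorem Dadd (k : M) (u w : V) : D k (u + w) = D k u + D k w := by simp only [D, smul_add]; abel

theorem M4 (g : M) : g * g * (g * g) = 1 := by
  obtain ⟨y, e⟩ := g
  rcases Int.units_eq_one_or e with rfl | rfl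
  · refine Aff.ext (funext fun i => ?_) (by simp)
    simp only [mul_v, mul_g, mul_one, one_smul, Pi.add_apply, one_v, Pi.zero_apply]
    exact (by decide : ∀ a : ZMod 4, a + a + (a + a) = 0) _
  · exact Aff.ext (by simp) (by simp)

theorem Mc (g h : M) : (h⁻¹ * g⁻¹ * h * g) * g = g * (h⁻¹ * g⁻¹ * h * g) ∧
    (g⁻¹ * g⁻¹ = 1 ∨ (h⁻¹ * g⁻¹ * h * g)⁻¹ = 1 ∨ (h⁻¹ * g⁻¹ * h * g)⁻¹ = g⁻¹ * g⁻¹) := by
  obtain ⟨y, e⟩ := g
  obtain ⟨z, f⟩ := h
  constructor
  · rcases Int.units_eq_one_or e with rfl | rfl <;> rcases Int.units_eq_one_or f with rfl | rfl <;>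
      refine Aff.ext (funext fun i => ?_) (by simp) <;> simp
    exacts [(by decide : ∀ a : ZMod 4, a + a + a = a + (a + a)) _,
      (by decide : ∀ a b : ZMod 4, -b + a + -b = a + (b + -a + b + a)) _ _,
      (by decide : ∀ a b : ZMod 4, b + -a + b = a + (-b + a + -b + a)) _ _]
  · rcases Int.units_eq_one_or e with rfl | rfl
    · rcases Int.units_eq_one_or f with rfl | rfl
      · exact Or.inr (Or.inl (Aff.ext (by simp) (by simp)))
      · refine Or.inr (Or.inr (Aff.ext (funext fun i => ?_) (by simp)))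
        simp
    · exact Or.inl (Aff.ext (by simp) (by simp))

abbrev G := Aff V M

theorem st (w : V) (y : G) : (⟨w, 1⟩ : G)⁻¹ * y⁻¹ * ⟨w, 1⟩ * y = ⟨D y.g⁻¹ w, 1⟩ :=
  Aff.ext (by simp [D]; abel) (by simp)

theorem st2 (z y : G) (h : z.g * y.g = y.g * z.g) :
    z⁻¹ * y⁻¹ * z * y = ⟨D y.g⁻¹ (z.g⁻¹ • z.v) + D z.g⁻¹ (y.g⁻¹ • y.v), 1⟩ := by
  have h1 : z.g⁻¹ * y.g⁻¹ = y.g⁻¹ * z.g⁻¹ := by rw [← mul_inv_rev, ← h, mul_inv_rev]
  refine Aff.ext ?_ (by simp [mul_assoc, h])
  have := two (z.g⁻¹ • y.g⁻¹ • y.v - y.g⁻¹ • y.v)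
  simp only [mul_v, inv_v, inv_g, mul_g, D, smul_neg, h1, inv_mul_cancel_right]
  rw [mul_smul]
  linear_combination (norm := skip) (-1 : ℤ) • this
  abel

theorem engel (x y : G) : (fun z : G => z⁻¹ * y⁻¹ * z * y)^[5] x = 1 := by
  obtain ⟨h1, h2⟩ := Mc y.g x.g
  have h3 := st2 (x⁻¹ * y⁻¹ * x * y) y h1
  simp only [Function.iterate_succ, Function.comp, Function.iterate_zero, id]
  rw [h3, st, st, st]
  refine Aff.ext ?_ rfl
  change D _ (D _ (D _ _)) = 0
  rw [Dadd, Dadd, Dadd, DD _ (D _ (D _ _)), DD y.g⁻¹ (_ • _), DD, M4, D1, zero_add,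
    DD y.g⁻¹ (D (x⁻¹ * y⁻¹ * x * y).g⁻¹ _)]
  simp only [mul_g, inv_g]
  rcases h2 with h | h | h <;> rw [h]
  · rw [D1, D0]
  · rw [D1, D0, D0]
  · rw [DD, M4, D1, D0]

def ps (t : ZMod 4) : ZMod 2 := if t = 2 ∨ t = 3 then 1 else 0

def F (k : ℕ) : V := fun m => ∏ i ∈ Finset.range k, ps (m.v i)

def x0 : M := ⟨0, -1⟩
def y0 (i : ℕ) : M := ⟨Pi.single i 1, 1⟩

theorem FD (k : ℕ) : D (⁅y0 k, x0⁆)⁻¹ (F (k + 1)) = F k := by
  funext m
  obtain ⟨v, e⟩ := m
  change F (k + 1) (⟨v, e⟩ * _) - F (k + 1) ⟨v, e⟩ = _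
  simp only [F, Finset.prod_range_succ]
  rw [Finset.prod_congr rfl (g := fun i => ps (v i)) fun i hi => by
    have : i ≠ k := (Finset.mem_range.1 hi).ne
    rcases Int.units_eq_one_or e with rfl | rfl <;>
      simp [commutatorElement_def, x0, y0, this], ← mul_sub]
  convert mul_one _
  rcases Int.units_eq_one_or e with rfl | rfl <;> simp [commutatorElement_def, x0, y0]
  exacts [(by decide : ∀ a : ZMod 4, ps (a + (-1 + -1)) - ps a = 1) _,
    (by decide : ∀ a : ZMod 4, ps (a + (1 + 1)) - ps a = 1) _]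

theorem Fx (k : ℕ) : D x0⁻¹ (fun m => if m.g = 1 then F k m else 0) = F k := by
  funext m
  obtain ⟨v, e⟩ := m
  change (if ((⟨v, e⟩ : M) * x0⁻¹).g = 1 then F k (⟨v, e⟩ * x0⁻¹) else 0) -
    (if e = 1 then F k ⟨v, e⟩ else 0) = _
  rcases Int.units_eq_one_or e with rfl | rfl <;> simp [x0, F, CharTwo.neg_eq]

/-- There is a soluble group in which every element has 2-power order and every commutator [x,y,y,y,y,y] is trivial, but some element lies in no normal nilpotent subgroup, so the group is not a Fitting group. -/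
theorem result :
    ∃ (G : Type) (_ : Group G),
      IsSolvable G ∧
      IsPGroup 2 G ∧
      (∀ x y : G, (fun z : G => z⁻¹ * y⁻¹ * z * y)^[5] x = 1) ∧
      ¬ (∀ g : G, ∃ N : Subgroup G, N.Normal ∧ Group.IsNilpotent N ∧ g ∈ N) := by
  haveI : Group.IsSolvable M := solv
  refine ⟨G, inferInstance, solv, fun g => ⟨3, ?_⟩, engel, fun h => ?_⟩
  · have h4 : (g * g * (g * g)).g = 1 := M4 g.g
    rw [show g ^ 2 ^ 3 = g * g * (g * g) * (g * g * (g * g)) by simp only [← pow_two, ← pow_mul]; rfl]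
    generalize g * g * (g * g) = z at h4
    exact Aff.ext (by simp [h4, two]) (by simp [h4])
  · obtain ⟨N, hN, hn, hx⟩ := h (inr x0)
    obtain ⟨n, hn⟩ := (Subgroup.isNilpotent_iff_lowerCentralSeries N).1 hn
    have key : ∀ n k, (⟨F k, 1⟩ : G) ∈ N.lowerCentralSeries n := by
      intro n
      induction n with
      | zero =>
        intro k
        rw [← Fx, show x0 = (inr x0 : G).g from rfl, ← st, mul_assoc, mul_assoc, ← mul_assoc (_⁻¹),
          ← mul_assoc]
        exact N.mul_mem (hN.conj_mem' _ (N.inv_mem hx) _) hx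
      | succ n ih =>
        intro k
        have h1 : (inr ⁅y0 k, x0⁆ : G) ∈ N := by
          rw [map_commutatorElement, commutatorElement_def]
          exact N.mul_mem (hN.conj_mem _ hx _) (N.inv_mem hx)
        have := Subgroup.commutator_mem_commutator (inv_mem (ih (k + 1))) (N.inv_mem h1)
        rw [commutatorElement_def, inv_inv, inv_inv, st, inr_g, FD] at this
        exact this
    have := key n 0
    rw [hn, Subgroup.mem_bot] at this
    have := congrFun (congrArg Aff.v this) 1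
    exact absurd this (by change ¬ (1 : ZMod 2) = 0; decide)

end Pool.Agent.S01061
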