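import Pool.Statements.S01104
import Pool.Agent.H66.Prot

set_option autoImplicit false
open Pointwise
open Pool Pool.MP_317811_al

namespace Pool.Agent.S01104

/-- The negation of the preceding statement: For every group G and every partition of G into n cells A_1,…,A_n, some cell A_i and some finite set F of at most n elements satisfy A_i⁻¹·A_i·F = G. -/
theorem result :
    ¬ (∀ (G : Type) [Group G] (n : ℕ) (A : Fin n → Set G),
      Pairwise (fun i j => Disjoint (A i) (A j)) →
      (⋃ i, A i) = Set.univ →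
      ∃ i : Fin n, ∃ F : Finset G, F.card ≤ n ∧
        (A i)⁻¹ * A i * (F : Set G) = Set.univ) := by
  classical
  intro H
  obtain ⟨c, hc, -⟩ := H66.Prot.main
  obtain ⟨i, F, hF, hU⟩ := H H66.Prot.G 7 (fun i => {p | c p⁻¹ = i})
    (fun i j hij => Set.disjoint_left.2 fun p h1 h2 => hij (h1.symm.trans h2))
    (Set.eq_univ_of_forall fun p => Set.mem_iUnion.2 ⟨_, rfl⟩)
  obtain ⟨g, hg⟩ := hc i {1} F (by simp) hF
  have : g⁻¹ ∈ ({p | c p⁻¹ = i} : Set H66.Prot.G)⁻¹ * {p | c p⁻¹ = i} * (F : Set H66.Prot.G) := by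
    rw [hU]; trivial
  obtain ⟨_, ⟨a, ha, b, hb, rfl⟩, f, hf, e⟩ := this
  have e' : g = f⁻¹ * b⁻¹ * a⁻¹ := by
    rw [← inv_inv g, ← e]; simp [mul_assoc]
  refine hg a 1 (by simp) f hf ⟨by simpa using ha, ?_⟩
  rw [e']
  simpa [mul_assoc] using hb

end Pool.Agent.S01104
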