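import Pool.Statements.S01116
import Pool.Agent.H67.DerLen2

set_option autoImplicit false
open Pool Pool.MP_32ab7a_al

namespace Pool.Agent.S01116

/-- The negation of the preceding statement: There is a natural number k such that for every finite soluble group G and every maximal subgroup M of G, the derived length of G is at most the derived length of M plus k. -/
theorem result :
    ¬ (∃ k : ℕ, ∀ (G : Type) [Group G] [Finite G], IsSolvable G →
      ∀ M : Subgroup G, IsCoatom M →
        sInf {n : ℕ | derivedSeries G n = ⊥} ≤
          sInf {n : ℕ | derivedSeries (↥M) n = ⊥} + k) := by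
  rintro ⟨k, h⟩
  obtain ⟨G, _, _, M, h1, h2, h3⟩ := Pool.Agent.H67.DerLen.final k
  exact absurd (h G h1 M h2) (not_le.2 h3)

end Pool.Agent.S01116
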