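import Pool.Statements.S01146
import Pool.Agent.H66.Prot

set_option autoImplicit false
open Pointwise
open Pool Pool.MP_34521c_al

namespace Pool.Agent.S01146

/-- The negation of the preceding statement: For every group G partitioned into n nonempty cells that pairwise commute as sets, some cell A has the property that at most n translates of A·A⁻¹ cover G. -/
theorem result :
    ¬ (∀ (G : Type) [Group G] (n : ℕ) (A : Fin n → Set G),
      (∀ i, (A i).Nonempty) →
      Pairwise (fun i j => Disjoint (A i) (A j)) →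
      (⋃ i, A i) = Set.univ →
      (∀ i j, A i * A j = A j * A i) →
      ∃ i : Fin n, ∃ F : Finset G, F.card ≤ n ∧
        (F : Set G) * (A i * (A i)⁻¹) = Set.univ) := by
  classical
  intro H
  obtain ⟨c, hc, hp⟩ := H66.Prot.main
  have hall : ∀ i j : Fin 7, ({p | c p = i} : Set H66.Prot.G) * {p | c p = j} = Set.univ := by
    intro i j
    refine Set.eq_univ_of_forall fun g => ?_
    obtain ⟨a, h1, h2⟩ := hp g i j
    exact ⟨a, h1, a⁻¹ * g, h2, by simp⟩
  obtain ⟨i, F, hF, hU⟩ := H H66.Prot.G 7 (fun i => {p | c p = i})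
    (fun i => by obtain ⟨a, h1, -⟩ := hp 1 i i; exact ⟨a, h1⟩)
    (fun i j hij => Set.disjoint_left.2 fun p h1 h2 => hij (h1.symm.trans h2))
    (Set.eq_univ_of_forall fun p => Set.mem_iUnion.2 ⟨_, rfl⟩)
    (fun i j => by rw [hall, hall])
  obtain ⟨g, hg⟩ := hc i {1} (F.image (·⁻¹)) (by simp) (Finset.card_image_le.trans hF)
  have : g ∈ (F : Set H66.Prot.G) * (({p | c p = i} : Set H66.Prot.G) * {p | c p = i}⁻¹) := by
    rw [hU]; trivial
  obtain ⟨f, hf, _, ⟨a, ha, b, hb, rfl⟩, rfl⟩ := this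
  refine hg b⁻¹ 1 (by simp) f⁻¹ (Finset.mem_image.2 ⟨f, hf, rfl⟩) ⟨by simpa using hb, ?_⟩
  simpa [mul_assoc] using ha

end Pool.Agent.S01146
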