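import Pool.Statements.S01235
import Pool.Agent.H66.Mom

set_option autoImplicit false
open Polynomial
open Pool Pool.MP_3bbc5b_al

namespace Pool.Agent.S01235

/-- For the Hermite, Laguerre and Jacobi operators (α, β > −1), the polynomials lying in the image of ℂ[t] form a Mathieu subspace: if every power a^m (m ≥ 1) is in it, then b·a^m is in it for all large m, for every polynomial b. -/
theorem result :
    (∀ a b : Polynomial ℂ,
      (∀ m : ℕ, 1 ≤ m → ∃ f : Polynomial ℂ, a ^ m = derivative f - 2 * X * f) →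
      ∃ N : ℕ, ∀ m : ℕ, N ≤ m → ∃ f : Polynomial ℂ, b * a ^ m = derivative f - 2 * X * f) ∧
    (∀ α : ℝ, -1 < α → ∀ a b : Polynomial ℂ,
      (∀ m : ℕ, 1 ≤ m → ∃ f : Polynomial ℂ,
        X * a ^ m = X * derivative f + (C (α : ℂ) - X) * f) →
      ∃ N : ℕ, ∀ m : ℕ, N ≤ m → ∃ f : Polynomial ℂ,
        X * (b * a ^ m) = X * derivative f + (C (α : ℂ) - X) * f) ∧
    (∀ α β : ℝ, -1 < α → -1 < β → ∀ a b : Polynomial ℂ,
      (∀ m : ℕ, 1 ≤ m → ∃ f : Polynomial ℂ,
        (1 - X ^ 2) * a ^ m = (1 - X ^ 2) * derivative f - C (α : ℂ) * (1 + X) * f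
          + C (β : ℂ) * (1 - X) * f) →
      ∃ N : ℕ, ∀ m : ℕ, N ≤ m → ∃ f : Polynomial ℂ,
        (1 - X ^ 2) * (b * a ^ m) = (1 - X ^ 2) * derivative f - C (α : ℂ) * (1 + X) * f
          + C (β : ℂ) * (1 - X) * f) := by
  have dX : ∀ n : ℕ, derivative (X ^ n : ℂ[X]) = C (n : ℂ) * X ^ (n - 1) := fun n =>
    derivative_X_pow n
  have dX' : ∀ n : ℕ, X * (C (n : ℂ) * X ^ (n - 1)) = C (n : ℂ) * X ^ n := fun n => by
    cases n with
    | zero => simp
    | succ n => simp only [Nat.add_sub_cancel]; ring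
  have pos : ∀ (x : ℝ) (n : ℕ), -1 < x → (1 : ℂ) + x + n ≠ 0 := fun x n hx h => by
    have h1 : (1 : ℝ) + x + n = 0 := by exact_mod_cast h
    have h2 : (0 : ℝ) ≤ n := Nat.cast_nonneg n
    linarith
  refine ⟨fun a b hm => ?_, fun α hα a b hm => ?_, fun α β hα hβ a b hm => ?_⟩
  · obtain ⟨N, hN⟩ := H66.Mom.mathieu (K := ℂ) 1 (-2 * X) ⟨one_ne_zero, by simp⟩
      (fun n => ⟨-2, by norm_num, 0, n, by
        rw [dX]; simp only [smul_eq_C_mul, map_neg, map_ofNat, map_zero, derivative_one]; ring⟩)
      a b (fun m h => by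
        obtain ⟨f, hf⟩ := hm m h
        exact ⟨f, by rw [hf]; ring⟩)
    refine ⟨N, fun m h => ?_⟩
    obtain ⟨f, hf⟩ := hN m h
    exact ⟨f, by linear_combination hf⟩
  · exact H66.Mom.mathieu (K := ℂ) X (C (α : ℂ) - X) ⟨X_ne_zero, fun u hu => by
        rw [eval_X] at hu
        subst hu
        simpa using fun n => pos α n hα⟩
      (fun n => ⟨-1, by norm_num, 1 + α + n, 0, by
        rw [dX, dX']
        simp only [smul_eq_C_mul, map_neg, map_one, map_zero, map_add, derivative_X]; ring⟩)
      a b hm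
  · obtain ⟨N, hN⟩ := H66.Mom.mathieu (K := ℂ) (1 - X ^ 2)
      (- C (α : ℂ) * (1 + X) + C (β : ℂ) * (1 - X)) ⟨fun h => by
        simpa using congrArg (eval 0) h, fun u hu => by
        have : (u - 1) * (u + 1) = 0 := by
          simp only [eval_sub, eval_one, eval_pow, eval_X] at hu
          linear_combination -hu
        rcases mul_eq_zero.1 this with h | h
        · obtain rfl : u = 1 := by linear_combination h
          refine ⟨by simp, fun n hn => pos α n hα ?_⟩
          simp at hn
          linear_combination (-1 / 2) * hn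
        · obtain rfl : u = -1 := by linear_combination h
          refine ⟨by simp, fun n hn => pos β n hβ ?_⟩
          simp at hn
          linear_combination (1 / 2) * hn⟩
      (fun n => ⟨-(2 + α + β + n), fun h => by
          have h1 : (2 : ℝ) + α + β + n = 0 := by exact_mod_cast neg_eq_zero.1 h
          have h2 : (0 : ℝ) ≤ n := Nat.cast_nonneg n
          linarith, β - α, n, by
        have := dX' n
        rw [dX]
        simp only [smul_eq_C_mul, map_neg, map_one, map_zero, map_add, map_sub, map_ofNat,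
          derivative_sub, derivative_one, derivative_X_sq]
        linear_combination X * this⟩)
      a b (fun m h => by
        obtain ⟨f, hf⟩ := hm m h
        exact ⟨f, by rw [hf]; ring⟩)
    refine ⟨N, fun m h => ?_⟩
    obtain ⟨f, hf⟩ := hN m h
    exact ⟨f, by linear_combination hf⟩

end Pool.Agent.S01235
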