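import Pool.Statements.S01258
import Pool.Agent.H72.UAdd

set_option autoImplicit false
open Pool Pool.MP_3dd297_al

namespace Pool.Agent.S01258

/-- The negation of the preceding statement: Let an abelian lattice-ordered group be an ℓ-subgroup of a product of copies of ℤ, with every projection onto ℤ surjective. Then any group operation on the same lattice, with the same zero and order-compatible translations on both sides, equals the original addition. -/
theorem result :
    ¬ (∀ (G : Type) [AddCommGroup G] [Lattice G] [IsOrderedAddMonoid G],
      (∃ (I : Type) (f : G →+ (I → ℤ)),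
        Function.Injective f ∧
        (∀ x y : G, f (x ⊔ y) = f x ⊔ f y) ∧
        (∀ x y : G, f (x ⊓ y) = f x ⊓ f y) ∧
        (∀ i : I, Function.Surjective (fun x : G => f x i))) →
      ∀ op : G → G → G,
        (∀ a b c : G, op (op a b) c = op a (op b c)) →
        (∀ a : G, op 0 a = a ∧ op a 0 = a) →
        (∀ a : G, ∃ b : G, op a b = 0 ∧ op b a = 0) →
        (∀ a b c : G, a ≤ b → op c a ≤ op c b ∧ op a c ≤ op b c) →
        ∀ x y : G, op x y = x + y) := by
  intro H
  exact H72.UAdd.op_ne (H H72.UAdd.G H72.UAdd.subdirect H72.UAdd.op H72.UAdd.op_assoc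
    H72.UAdd.op_zero H72.UAdd.op_inv H72.UAdd.op_mono)

end Pool.Agent.S01258
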