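import Pool.Statements.S01303
import Pool.Agent.H71.LPS4

set_option autoImplicit false
open Pool Pool.MP_417230_al

namespace Pool.Agent.S01303

/-- Every complete Hausdorff abelian topological group that is locally minimal has a compact subgroup K such that the quotient G/K is metrizable. -/
theorem result :
    ∀ (G : Type) [AddCommGroup G] [UniformSpace G] [IsUniformAddGroup G] [T2Space G]
      [CompleteSpace G],
      (∃ V ∈ nhds (0 : G), ∀ σ : TopologicalSpace G,
          @IsTopologicalAddGroup G σ _ → @T2Space G σ →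
          (UniformSpace.toTopologicalSpace : TopologicalSpace G) ≤ σ →
          V ∈ @nhds G σ 0 → σ = (UniformSpace.toTopologicalSpace : TopologicalSpace G)) →
      ∃ K : AddSubgroup G, IsCompact (K : Set G) ∧ TopologicalSpace.MetrizableSpace (G ⧸ K) := by
  rintro G _ _ _ _ _ ⟨U, hU, h⟩
  obtain ⟨U', h1, h2⟩ := H71.LPS.main_add hU h (K := ⊥) (by simp)
  obtain ⟨V, a, b, c, d⟩ := H71.LPS.exists_chain h1
  obtain ⟨C, cC, hC, -⟩ := h2 V (fun n => mem_of_mem_nhds (a n)) b c fun x hx =>
    ⟨0, zero_mem _, x, d hx, zero_add x⟩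
  refine ⟨C, cC, ?_⟩
  have : IsClosed (C : Set G) := cC.isClosed
  have : (nhds (0 : G ⧸ C)).IsCountablyGenerated :=
    Filter.HasCountableBasis.isCountablyGenerated ⟨H71.LPS.quot_basis a hC, Set.to_countable _⟩
  let u := IsTopologicalAddGroup.rightUniformSpace (G ⧸ C)
  have : (uniformity (G ⧸ C)).IsCountablyGenerated := Filter.comap.isCountablyGenerated _ _
  exact UniformSpace.metrizableSpace

end Pool.Agent.S01303
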