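import Pool.Statements.S01339
import Pool.Agent.H68.Sat1

set_option autoImplicit false
open Pool Pool.MP_44c8f1_al

namespace Pool.Agent.S01339

theorem result :
    ∀ (Form Sat : ((G : Type) → [Group G] → Prop) → Prop),
      (∀ F : (G : Type) → [Group G] → Prop,
        Form F ↔
          ((∀ (G : Type) [Group G], F G → Finite G) ∧
           (∀ (G K : Type) [Group G] [Group K], Nonempty (G ≃* K) → F G → F K) ∧
           (∀ (G : Type) [Group G] (N : Subgroup G) [N.Normal], F G → F (G ⧸ N)) ∧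
           (∀ (G : Type) [Group G] [Finite G] (N L : Subgroup G) [N.Normal] [L.Normal],
              N ⊓ L = ⊥ → F (G ⧸ N) → F (G ⧸ L) → F G))) →
      (∀ F : (G : Type) → [Group G] → Prop,
        Sat F ↔ (∀ (G : Type) [Group G] [Finite G], F (G ⧸ frattini G) → F G)) →
      ∀ (H M F₁ F₂ : (G : Type) → [Group G] → Prop),
        Form H → Sat H → Form M → Sat M → Form F₁ → Form F₂ →
        (∀ (G : Type) [Group G], H G → F₁ G) →
        (∀ (G : Type) [Group G], H G → F₂ G) →
        (∀ (G : Type) [Group G], F₁ G → M G) →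
        (∀ (G : Type) [Group G], F₂ G → M G) →
        (∀ (G : Type) [Group G], F₁ G → F₂ G → H G) →
        (∀ X : (G : Type) → [Group G] → Prop, Form X →
          (∀ (G : Type) [Group G], F₁ G → X G) →
          (∀ (G : Type) [Group G], F₂ G → X G) →
          (∀ (G : Type) [Group G], M G → X G)) →
        Sat F₁ ∧ Sat F₂ := by
  open Pool.Agent.H68.Sat in
  intro Form Sat hF hS H M F₁ F₂ a b c d e f i1 i2 j1 j2 i j
  have fm : ∀ F, Form F ↔ Fm F := fun F => (hF F).trans
    ⟨fun h => ⟨h.1, h.2.1, h.2.2.1, h.2.2.2⟩, fun h => ⟨h.1, h.2, h.3, h.4⟩⟩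
  rw [fm] at a e f
  rw [hS] at b d
  exact ⟨(hS _).2 (main a b d e f i1 j1 i fun X h => j X ((fm X).2 h)),
    (hS _).2 (main a b d f e i2 j2 (fun G _ x y => i G y x) fun X h x y => j X ((fm X).2 h) y x)⟩

end Pool.Agent.S01339
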