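import Pool.Statements.S01380
import Pool.Agent.H70.GE5

set_option autoImplicit false
open Pool Pool.MP_4a5c06_al

namespace Pool.Agent.S01380

/-- The negation of the preceding statement: For any ring R, n at least 3, and subgroup N of GL_n(R) normalized by the elementary subgroup E_n(R): either N contains E_n(R), or some proper two-sided ideal I makes every element of the commutator [N, E_n(R)] congruent to the identity mod I. -/
theorem result :
    ¬ (∀ (R : Type) [Ring R] (n : ℕ), 3 ≤ n →
      ∀ E : Subgroup (Matrix (Fin n) (Fin n) R)ˣ,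
        E = Subgroup.closure
          {g : (Matrix (Fin n) (Fin n) R)ˣ |
            ∃ i j : Fin n, ∃ c : R, i ≠ j ∧
              (g : Matrix (Fin n) (Fin n) R) =
                1 + Matrix.of (fun a b => if a = i ∧ b = j then c else 0)} →
      ∀ N : Subgroup (Matrix (Fin n) (Fin n) R)ˣ,
        (∀ e ∈ E, ∀ x ∈ N, e * x * e⁻¹ ∈ N) →
        E ≤ N ∨
          ∃ I : TwoSidedIdeal R, I ≠ ⊤ ∧
            ∀ g ∈ ⁅N, E⁆, ∀ i j : Fin n,
              (g : Matrix (Fin n) (Fin n) R) i j - (1 : Matrix (Fin n) (Fin n) R) i j ∈ I) := by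
  intro h
  rcases h H70.GE.RR 3 le_rfl H70.GE.EE rfl H70.GE.NN H70.GE.NN_norm with h1 | ⟨I, hI, h2⟩
  · exact H70.GE.not_le h1
  · exact hI (H70.GE.ideal_top I h2)

end Pool.Agent.S01380
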