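import Pool.Statements.S01406
import Pool.Agent.H39.Tidy

set_option autoImplicit false
open Pool Pool.MP_4d7bfe_al

namespace Pool.Agent.S01406

/-- The negation of the preceding statement: There exist groups G, H with finite symmetric generating sets S, T (neither containing 1) and a bijection G to H carrying the Cayley graph of (G,S) isomorphically onto that of (H,T), where G is periodic and H is not. -/
theorem result :
    ¬ (∃ (G H : Type) (_ : Group G) (_ : Group H) (S : Finset G) (T : Finset H),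
      Subgroup.closure (S : Set G) = ⊤ ∧ Subgroup.closure (T : Set H) = ⊤ ∧
      (1 : G) ∉ S ∧ (1 : H) ∉ T ∧
      (∀ x ∈ S, x⁻¹ ∈ S) ∧ (∀ y ∈ T, y⁻¹ ∈ T) ∧
      Monoid.IsTorsion G ∧ ¬ Monoid.IsTorsion H ∧
      ∃ e : G ≃ H, ∀ g h : G, g⁻¹ * h ∈ S ↔ (e g)⁻¹ * (e h) ∈ T) := by
  rintro ⟨G, H, _, _, S, T, hS, -, -, -, -, -, hG, hH, e, he⟩
  refine hH (fun h => ?_)
  let L : Subgroup (Equiv.Perm G) :=
    { carrier := {σ | ∀ a b, a⁻¹ * b ∈ S ↔ (σ a)⁻¹ * σ b ∈ S}
      one_mem' := fun _ _ => Iff.rfl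
      mul_mem' := fun {σ τ} h1 h2 a b => (h2 a b).trans (h1 _ _)
      inv_mem' := fun {σ} h1 a b => by
        have := h1 (σ⁻¹ a) (σ⁻¹ b)
        simpa using this.symm }
  have fin : ∀ c a : G, {y | ∃ σ : L, (σ • a)⁻¹ * σ • (a * c) = y}.Finite := by
    intro c
    have hc : c ∈ Subgroup.closure (S : Set G) := hS ▸ Subgroup.mem_top c
    induction hc using Subgroup.closure_induction with
    | mem c hc =>
      intro a
      refine S.finite_toSet.subset ?_
      rintro y ⟨σ, rfl⟩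
      exact (σ.2 a (a * c)).1 (by simpa using hc)
    | one =>
      intro a
      refine (Set.finite_singleton 1).subset ?_
      rintro y ⟨σ, rfl⟩; simp
    | mul c c' _ _ ih ih' =>
      intro a
      refine ((ih a).image2 (· * ·) (ih' (a * c))).subset ?_
      rintro y ⟨σ, rfl⟩
      exact ⟨_, ⟨σ, rfl⟩, _, ⟨σ, rfl⟩, by simp [mul_assoc]⟩
    | inv c _ ih =>
      intro a
      refine ((ih (a * c⁻¹)).image (·⁻¹)).subset ?_
      rintro y ⟨σ, rfl⟩
      exact ⟨_, ⟨σ, rfl⟩, by simp⟩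
  have hf : ∀ a b : G, {y | ∃ σ : L, σ • a = a ∧ σ • b = y}.Finite := by
    intro a b
    refine ((fin (a⁻¹ * b) a).image (a * ·)).subset ?_
    rintro y ⟨σ, h1, rfl⟩
    exact ⟨_, ⟨σ, rfl⟩, by simp [h1]⟩
  let g : L := ⟨e.trans ((Equiv.mulLeft h).trans e.symm), fun a b => by
    rw [he, he]; simp [mul_assoc]⟩
  have gp : ∀ (k : ℕ) (a : G), e (g ^ k • a) = h ^ k * e a := by
    intro k
    induction k with
    | zero => simp
    | succ k ih =>
      intro a
      rw [pow_succ, mul_smul, ih, pow_succ, mul_assoc]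
      congr 1
      exact e.apply_symm_apply _
  let lm : G →* L :=
    { toFun := fun c => ⟨Equiv.mulLeft c, fun a b => by simp [mul_assoc]⟩
      map_one' := Subtype.ext (by simp)
      map_mul' := fun a b => Subtype.ext (by simp) }
  have lms : ∀ c a : G, lm c • a = c * a := fun _ _ => rfl
  obtain ⟨n, hn⟩ := H39.Tidy.tidy hf g (1 : G)
  let F : ℕ → Fin (n + 1) → G := fun j i => (g ^ j • (1 : G))⁻¹ * g ^ j • g ^ (i : ℕ) • (1 : G)
  have hF : (Set.pi Set.univ fun i : Fin (n + 1) =>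
      {y | ∃ σ : L, (σ • (1 : G))⁻¹ * σ • (1 * g ^ (i : ℕ) • (1 : G)) = y}).Finite :=
    Set.Finite.pi' (fun i => fin _ _) |>.subset (fun f hf i => hf i trivial)
  have hM : Set.MapsTo F Set.univ (Set.pi Set.univ fun i : Fin (n + 1) =>
      {y | ∃ σ : L, (σ • (1 : G))⁻¹ * σ • (1 * g ^ (i : ℕ) • (1 : G)) = y}) :=
    fun j _ i _ => ⟨g ^ j, by simp [F]⟩
  obtain ⟨i, -, j, -, hij, eij⟩ := Set.infinite_univ.exists_lt_map_eq_of_mapsTo hM hF
  let γ : G := g ^ j • (1 : G) * (g ^ i • (1 : G))⁻¹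
  have hu : (g ^ j)⁻¹ * lm γ * g ^ i ∈ H39.Tidy.St g (1 : G) 0 n := by
    intro t t1 t2
    obtain ⟨t, rfl⟩ := Int.eq_ofNat_of_zero_le t1
    have := congrFun eij ⟨t, by omega⟩
    simp only [F] at this
    rw [mul_smul, mul_smul, inv_smul_eq_iff, lms, zpow_natCast, mul_assoc, this]
    simp
  obtain ⟨N, hN, hγ⟩ := isOfFinOrder_iff_pow_eq_one.1 (hG γ)
  have key : (g ^ (j - i) * ((g ^ j)⁻¹ * lm γ * g ^ i)) ^ N = 1 := by
    have e1 : g ^ (j - i) * ((g ^ j)⁻¹ * lm γ * g ^ i) = (g ^ i)⁻¹ * lm γ * (g ^ i)⁻¹⁻¹ := by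
      rw [pow_sub g hij.le]; group
    rw [e1, conj_pow, ← map_pow, hγ]; simp
  have h2 := congrArg e (H39.Tidy.fix_of_torsion hn hu key)
  rw [gp] at h2
  exact isOfFinOrder_iff_pow_eq_one.2 ⟨(j - i) * N, Nat.mul_pos (by omega) hN, by simpa using h2⟩

end Pool.Agent.S01406
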