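import Pool.Statements.S01419
import Pool.Agent.H71.Form

set_option autoImplicit false
open Pool Pool.MP_4f47f1_al

namespace Pool.Agent.S01419

/-- For every soluble formation of finite groups with a chain of at most 4 maximal-subformation steps from the empty class, its subformations satisfy A ∩ (B ∨ C) ⊆ (A ∩ B) ∨ (A ∩ C), with ∨ meaning the generated formation. -/
theorem result :
  ∀ Φ : (∀ (G : Type) [Group G], Prop) → Prop,
    (∀ X : (∀ (G : Type) [Group G], Prop), Φ X ↔
      ((∀ (G : Type) [Group G], X G → Finite G) ∧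
       (∀ (G H : Type) [Group G] [Group H] (f : G →* H),
          Function.Surjective f → X G → X H) ∧
       (∀ (G : Type) [Group G] (N₁ N₂ : Subgroup G) [N₁.Normal] [N₂.Normal],
          N₁ ⊓ N₂ = ⊥ → X (G ⧸ N₁) → X (G ⧸ N₂) → X G))) →
    ∀ F : (∀ (G : Type) [Group G], Prop), Φ F →
      (∀ (G : Type) [Group G], F G → IsSolvable G) →
      (∃ t : ℕ, t ≤ 4 ∧ ∃ c : ℕ → (∀ (G : Type) [Group G], Prop),
         (∀ (G : Type) [Group G], ¬ c 0 G) ∧
         (∀ (G : Type) [Group G], c t G ↔ F G) ∧
         ∀ i : ℕ, i < t →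
           Φ (c i) ∧ Φ (c (i + 1)) ∧
           (∀ (G : Type) [Group G], c i G → c (i + 1) G) ∧
           (∃ G : Type, ∃ inst : Group G, c (i + 1) G ∧ ¬ c i G) ∧
           ∀ K : (∀ (G : Type) [Group G], Prop), Φ K →
             (∀ (G : Type) [Group G], c i G → K G) →
             (∀ (G : Type) [Group G], K G → c (i + 1) G) →
             ((∀ (G : Type) [Group G], K G → c i G) ∨
              (∀ (G : Type) [Group G], c (i + 1) G → K G))) →
      ∀ A B C : (∀ (G : Type) [Group G], Prop), Φ A → Φ B → Φ C →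
        (∀ (G : Type) [Group G], A G → F G) →
        (∀ (G : Type) [Group G], B G → F G) →
        (∀ (G : Type) [Group G], C G → F G) →
        ∀ (G : Type) [Group G], A G →
          (∀ K : (∀ (X : Type) [Group X], Prop), Φ K →
            (∀ (X : Type) [Group X], B X → K X) →
            (∀ (X : Type) [Group X], C X → K X) → K G) →
          ∀ K : (∀ (X : Type) [Group X], Prop), Φ K →
            (∀ (X : Type) [Group X], A X → B X → K X) →
            (∀ (X : Type) [Group X], A X → C X → K X) → K G := by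
  rintro Φ hΦ F hF hs ⟨t, ht, c, h0, h1, h2⟩ A B C hA hB hC aF bF cF G _ hG hJ K hK k1 k2
  rcases Nat.eq_zero_or_pos t with rfl | hpos
  · exact (h0 G ((h1 G).2 (aF G hG))).elim
  let m : ∀ X, Φ X → Pool.Agent.H71.Form.Fm := fun X h =>
    ⟨X, ((hΦ X).1 h).1, ((hΦ X).1 h).2.1, ((hΦ X).1 h).2.2⟩
  have hm : ∀ X : Pool.Agent.H71.Form.Fm, Φ X.mem := fun X => (hΦ _).2 ⟨X.fin, X.quot, X.res⟩
  have hc : ∀ i, Φ (c (min i t)) := fun i => by
    rcases Nat.eq_zero_or_pos (min i t) with e | e
    · rw [e]; exact (h2 0 hpos).1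
    · obtain ⟨j, hj⟩ := Nat.exists_eq_succ_of_ne_zero e.ne'
      rw [hj]; exact (h2 j (by omega)).2.1
  obtain ⟨r, r0, r1, r2⟩ := Pool.Agent.H71.Form.rank (fun i => m _ (hc i)) t
    (fun i hi => by
      intro G _ e
      change c (min i t) G at e
      change c (min (i + 1) t) G
      rw [min_eq_left hi.le] at e
      rw [min_eq_left hi]
      exact (h2 i hi).2.2.1 G e)
    (fun i hi K a b => by
      change ∀ (G : Type) [Group G], c (min i t) G → K.mem G at a
      change ∀ (G : Type) [Group G], K.mem G → c (min (i + 1) t) G at b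
      change (∀ (G : Type) [Group G], K.mem G → c (min i t) G) ∨
        ∀ (G : Type) [Group G], c (min (i + 1) t) G → K.mem G
      rw [min_eq_left hi.le] at a ⊢
      rw [min_eq_left hi] at b ⊢
      exact (h2 i hi).2.2.2.2 K.mem (hm K) a b)
    (fun X => by
      intro G _ e
      change c (min 0 t) G at e
      rw [Nat.zero_min] at e
      exact (h0 G e).elim)
  have key := Pool.Agent.H71.Form.main (m F hF) hs r (fun x => (r0 x).trans ht) r1
    (fun x y a b e => r2 x y a b <| by
      intro G _ h
      change c (min t t) G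
      rw [min_self]
      exact (h1 G).2 (e G h)) (m _ (hc 0)) (by
      change ¬ c (min 0 t) Unit
      rw [Nat.zero_min]
      exact h0 Unit) (m A hA ⊓ (m B hB ⊔ m C hC)) (m B hB) (m C hC) bF cF inf_le_right
  exact key G ⟨hG, fun K a b => hJ K.mem (hm K) a b⟩ (m K hK)
    (fun X _ e => k1 X e.1.1 e.2) (fun X _ e => k2 X e.1.1 e.2)

end Pool.Agent.S01419
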