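import Pool.Statements.S01438
import Pool.Agent.H75.ShiftSkewField

set_option autoImplicit false
set_option linter.unusedSectionVars false
open Pool Pool.MP_503320_al

namespace Pool.Agent.S01438

/-- The abstract obstruction. -/
theorem obstruction {R : Type} [Ring R] [NoZeroDivisors R] (x c : R) (hx0 : x ≠ 0)
    (ha : ∀ r, ∃ r', r * x = x * r')
    (hb : ∀ r, (¬ ∃ y, r = x * y) → ∃ y w, x = (r - x * y) * x * w)
    (hd : ∃ w, x = c * w) (h1 : ∀ r, c * r ≠ 1) (h2 : ∀ r, c ≠ x * r)
    (h3 : ∃ r, ∀ r', r * c ≠ c * r')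
    (I : AddSubmonoid R) (hI : ∀ z, z ∈ I ↔ ∃ r, z = x * c * r) (L : List (AddSubmonoid R))
    (hL : ∀ P ∈ L, (∀ x r : R, x ∈ P → r * x ∈ P ∧ x * r ∈ P) ∧ (1 : R) ∉ P ∧
      ∀ a b : R, (∀ r : R, a * r * b ∈ P) → a ∈ P ∨ b ∈ P) :
    L.foldr (fun P J => AddSubmonoid.closure {x : R | ∃ a ∈ P, ∃ b ∈ J, x = a * b}) ⊤ ≠ I := by
  intro hE
  let F : List (AddSubmonoid R) → AddSubmonoid R := fun L =>
    L.foldr (fun P J => AddSubmonoid.closure {x : R | ∃ a ∈ P, ∃ b ∈ J, x = a * b}) ⊤
  have Fcons : ∀ P L, F (P :: L) =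
      AddSubmonoid.closure {x : R | ∃ a ∈ P, ∃ b ∈ F L, x = a * b} := fun _ _ => rfl
  have hid : ∀ L : List (AddSubmonoid R),
      (∀ P ∈ L, ∀ x r : R, x ∈ P → r * x ∈ P ∧ x * r ∈ P) →
      (∀ z r : R, z ∈ F L → r * z ∈ F L ∧ z * r ∈ F L) ∧ ∀ P ∈ L, F L ≤ P := by
    intro L
    induction L with
    | nil => intro _; exact ⟨fun _ _ _ => ⟨trivial, trivial⟩, by simp⟩
    | cons P L ih =>
      intro h
      obtain ⟨ih1, ih2⟩ := ih fun Q hQ => h Q (List.mem_cons_of_mem _ hQ)
      have hP := h P List.mem_cons_self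
      refine ⟨fun z r hz => ?_, fun Q hQ => ?_⟩
      · rw [Fcons] at hz ⊢
        induction hz using AddSubmonoid.closure_induction with
        | mem z hz =>
          obtain ⟨a, ha, b, hb, rfl⟩ := hz
          exact ⟨AddSubmonoid.subset_closure ⟨r * a, (hP a r ha).1, b, hb, by rw [mul_assoc]⟩,
            AddSubmonoid.subset_closure ⟨a, ha, b * r, (ih1 b r hb).2, by rw [mul_assoc]⟩⟩
        | zero => simp
        | add u v _ _ hu hv =>
          rw [mul_add, add_mul]
          exact ⟨add_mem hu.1 hv.1, add_mem hu.2 hv.2⟩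
      · rw [Fcons, AddSubmonoid.closure_le]
        rintro _ ⟨a, ha, b, hb, rfl⟩
        rcases List.mem_cons.1 hQ with rfl | hQ'
        · exact (hP a b ha).2
        · exact (h Q hQ b a (ih2 Q hQ' hb)).1
  have hxP : ∀ P ∈ L, x ∈ P := by
    intro P hP
    have h4 := (hid L fun Q hQ => (hL Q hQ).1).2 P hP
    obtain ⟨w, hw⟩ := hd
    refine ((hL P hP).2.2 x x fun r => h4 ?_).elim id id
    obtain ⟨r', e⟩ := ha r
    change _ ∈ List.foldr _ _ _
    rw [hE, hI]
    refine ⟨w * r', ?_⟩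
    rw [mul_assoc, e, mul_assoc, ← mul_assoc c, ← hw]
  have key : ∀ L : List (AddSubmonoid R),
      (∀ P ∈ L, (∀ x r : R, x ∈ P → r * x ∈ P ∧ x * r ∈ P) ∧ x ∈ P) →
      x ∈ F L ∨ ((∀ z ∈ F L, ∃ y, z = x * y) ∧ ∀ r y, x * y ∈ F L → x * (r * y) ∈ F L) ∨
        ∀ z ∈ F L, ∃ y, z = x * (x * y) := by
    intro L
    induction L with
    | nil => intro _; exact Or.inl trivial
    | cons P L ih =>
      intro h
      have hL' := fun Q hQ => h Q (List.mem_cons_of_mem P hQ)
      have hJ := (hid L fun Q hQ => (hL' Q hQ).1).1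
      obtain ⟨hP, hxP⟩ := h P List.mem_cons_self
      have hsub : ∀ (S : AddSubmonoid R), (∀ a ∈ P, ∀ b ∈ F L, a * b ∈ S) → F (P :: L) ≤ S := by
        intro S hS
        rw [Fcons, AddSubmonoid.closure_le]
        rintro _ ⟨a, ha, b, hb, rfl⟩
        exact hS a ha b hb
      have hmem : ∀ a ∈ P, ∀ b ∈ F L, a * b ∈ F (P :: L) := fun a ha b hb =>
        AddSubmonoid.subset_closure ⟨a, ha, b, hb, rfl⟩
      have hxx : (∀ a ∈ P, ∀ b ∈ F L, ∃ y, a * b = x * (x * y)) →
          ∀ z ∈ F (P :: L), ∃ y, z = x * (x * y) := by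
        intro hh z hz
        obtain ⟨y, hy⟩ := hsub (AddMonoidHom.mrange
          ((AddMonoidHom.mulLeft x).comp (AddMonoidHom.mulLeft x)))
          (fun a ha b hb => by
            obtain ⟨y, hy⟩ := hh a ha b hb
            exact ⟨y, hy.symm⟩) hz
        exact ⟨y, hy.symm⟩
      rcases ih hL' with h5 | ⟨h5, h6⟩ | h5
      · by_cases hp : ∀ a ∈ P, ∃ y, a = x * y
        · have h7 : ∀ z ∈ F (P :: L), ∃ y ∈ F L, z = x * y := by
            intro z hz
            obtain ⟨y, hy, e⟩ := hsub ((F L).map (AddMonoidHom.mulLeft x)) (fun a ha b hb => by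
              obtain ⟨y, rfl⟩ := hp a ha
              exact ⟨y * b, (hJ b y hb).1, (mul_assoc _ _ _).symm⟩) hz
            exact ⟨y, hy, e.symm⟩
          refine Or.inr (Or.inl ⟨fun z hz => ?_, fun r y hy => ?_⟩)
          · obtain ⟨y, -, e⟩ := h7 z hz
            exact ⟨y, e⟩
          · obtain ⟨y', hy', e⟩ := h7 _ hy
            rw [mul_left_cancel₀ hx0 e]
            exact hmem x hxP _ (hJ y' r hy').1
        · push Not at hp
          obtain ⟨a, ha', hna⟩ := hp
          obtain ⟨y, w, e⟩ := hb a (by simpa using hna)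
          left
          rw [e, mul_assoc]
          apply hmem _ _ _ (hJ x w h5).2
          rw [sub_eq_add_neg, ← mul_neg]
          exact add_mem ha' (hP x _ hxP).2
      · by_cases hp : ∀ a ∈ P, ∃ y, a = x * y
        · refine Or.inr (Or.inr (hxx fun a ha' b hb => ?_))
          obtain ⟨y, rfl⟩ := hp a ha'
          obtain ⟨y', rfl⟩ := h5 b hb
          obtain ⟨r', e⟩ := ha y
          exact ⟨r' * y', by rw [mul_assoc, ← mul_assoc y, e, mul_assoc]⟩
        · push Not at hp
          obtain ⟨a, ha', hna⟩ := hp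
          obtain ⟨y, w, e⟩ := hb a (by simpa using hna)
          have h7 : F (P :: L) ≤ F L := hsub _ fun a _ b hb => (hJ b a hb).1
          refine Or.inr (Or.inl ⟨fun z hz => h5 z (h7 hz), fun r y' hy => ?_⟩)
          have h8 : x * (r * y') = (a - x * y) * (x * (w * r * y')) := by
            conv_lhs => rw [e]
            simp only [mul_assoc]
          rw [h8]
          apply hmem _ _ _ (h6 _ _ (h7 hy))
          rw [sub_eq_add_neg, ← mul_neg]
          exact add_mem ha' (hP x _ hxP).2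
      · refine Or.inr (Or.inr (hxx fun a _ b hb => ?_))
        exact h5 _ (hJ b a hb).1
  have hF : F L = I := hE
  rcases key L (fun P hP => ⟨(hL P hP).1, hxP P hP⟩) with h5 | ⟨-, h6⟩ | h5
  · rw [hF, hI] at h5
    obtain ⟨r, e⟩ := h5
    apply h1 r
    apply mul_left_cancel₀ hx0
    rw [← mul_assoc, ← e, mul_one]
  · obtain ⟨r, hr⟩ := h3
    have := h6 r c (by rw [hF, hI]; exact ⟨1, by simp⟩)
    rw [hF, hI] at this
    obtain ⟨r', e⟩ := this
    rw [mul_assoc] at e
    exact hr r' (mul_left_cancel₀ hx0 e)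
  · obtain ⟨y, e⟩ := h5 (x * c) (by rw [hF, hI]; exact ⟨1, by simp⟩)
    exact h2 y (mul_left_cancel₀ hx0 e)

/-- A degree argument showing that left ideals are principal. -/
theorem principal_of_coeff {R D : Type} [Ring R] [Ring D] (co : ℕ → R →+ D)
    (hfin : ∀ p, ∃ n, ∀ m, n ≤ m → co m p = 0) (hext : ∀ p, (∀ m, co m p = 0) → p = 0)
    (hD : IsPrincipalIdealRing D) (h0 : ∀ d, ∃ r, ∀ q j, co j (r * q) = d * co j q)
    (h1 : ∀ q n, co n q ≠ 0 → (∀ m, n < m → co m q = 0) → ∀ k, n < k → ∀ d,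
      ∃ r, co k (r * q) = d ∧ ∀ m, k < m → co m (r * q) = 0) : IsPrincipalIdealRing R := by
  classical
  refine ⟨fun N => ?_⟩
  by_cases hN : N = ⊥
  · rw [hN]
    exact bot_isPrincipal
  have hex : ∃ n, ∃ p ∈ N, p ≠ 0 ∧ ∀ m, n < m → co m p = 0 := by
    obtain ⟨p, hp, hp0⟩ := (Submodule.ne_bot_iff N).1 hN
    obtain ⟨n, hn⟩ := hfin p
    exact ⟨n, p, hp, hp0, fun m hm => hn m hm.le⟩
  have hmin : ∀ p ∈ N, (∀ m, Nat.find hex ≤ m → co m p = 0) → p = 0 := by
    intro p hp h
    by_contra hp0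
    rcases Nat.eq_zero_or_pos (Nat.find hex) with h2 | h2
    · exact hp0 (hext p fun m => h m (by omega))
    · exact Nat.find_min hex (m := Nat.find hex - 1) (by omega)
        ⟨p, hp, hp0, fun m hm => h m (by omega)⟩
  set n := Nat.find hex with hn
  let J : Ideal D :=
    { carrier := {d | ∃ p ∈ N, (∀ m, n < m → co m p = 0) ∧ co n p = d}
      zero_mem' := ⟨0, N.zero_mem, by simp, by simp⟩
      add_mem' := by
        rintro _ _ ⟨p, hp, h2, rfl⟩ ⟨q, hq, h3, rfl⟩
        exact ⟨p + q, N.add_mem hp hq, fun m hm => by simp [h2 m hm, h3 m hm], by simp⟩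
      smul_mem' := by
        rintro d _ ⟨p, hp, h2, rfl⟩
        obtain ⟨r, hr⟩ := h0 d
        exact ⟨r * p, N.mul_mem_left r hp, fun m hm => by simp [hr, h2 m hm], by simp [hr]⟩ }
  obtain ⟨a, ha⟩ := hD.principal J
  have haJ : a ∈ J := by
    rw [ha]
    exact Submodule.mem_span_singleton_self a
  obtain ⟨q, hq, hq1, hq2⟩ := haJ
  have hbase : ∀ p ∈ N, (∀ m, n < m → co m p = 0) → ∃ r, r * q = p := by
    intro p hp h
    have h2 : co n p ∈ J := ⟨p, hp, h, rfl⟩
    rw [ha, Submodule.mem_span_singleton] at h2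
    obtain ⟨d, hd⟩ := h2
    obtain ⟨r, hr⟩ := h0 d
    refine ⟨r, (sub_eq_zero.1 (hmin _ (N.sub_mem hp (N.mul_mem_left r hq)) fun m hm => ?_)).symm⟩
    rw [map_sub, hr]
    rcases hm.eq_or_lt with rfl | hm
    · rw [hq2, ← hd, smul_eq_mul, sub_self]
    · rw [h m hm, hq1 m hm, mul_zero, sub_self]
  have hq0 : co n q ≠ 0 := by
    intro h
    obtain ⟨p, hp, hp0, h2⟩ := Nat.find_spec hex
    obtain ⟨r, hr⟩ := hbase p hp h2
    have : q = 0 := hmin q hq fun m hm => by
      rcases hm.eq_or_lt with rfl | hm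
      · exact h
      · exact hq1 m hm
    exact hp0 (by rw [← hr, this, mul_zero])
  have hall : ∀ k, ∀ p ∈ N, (∀ m, n + k < m → co m p = 0) → ∃ r, r * q = p := by
    intro k
    induction k with
    | zero => exact hbase
    | succ k ih =>
      intro p hp h
      obtain ⟨r, hr1, hr2⟩ := h1 q n hq0 hq1 (n + (k + 1)) (by omega) (co (n + (k + 1)) p)
      obtain ⟨r', hr'⟩ := ih (p - r * q) (N.sub_mem hp (N.mul_mem_left r hq)) fun m hm => by
        rw [map_sub]
        rcases (Nat.succ_le_of_lt hm).eq_or_lt with rfl | hm'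
        · exact sub_eq_zero.2 hr1.symm
        · rw [h m hm', hr2 m hm', sub_self]
      exact ⟨r' + r, by rw [add_mul, hr', sub_add_cancel]⟩
  refine ⟨q, le_antisymm (fun p hp => ?_) ((Submodule.span_singleton_le_iff_mem q N).2 hq)⟩
  obtain ⟨k, hk⟩ := hfin p
  exact Submodule.mem_span_singleton.2 (hall k p hp fun m hm => hk m (by omega))

theorem poly_pid (H : Type) [DivisionRing H] : IsPrincipalIdealRing (Polynomial H) := by
  refine principal_of_coeff (fun n => (Polynomial.lcoeff H n).toAddMonoidHom) ?_ ?_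
    inferInstance ?_ ?_
  · intro p
    exact ⟨p.natDegree + 1, fun m hm => Polynomial.coeff_eq_zero_of_natDegree_lt hm⟩
  · intro p h
    exact Polynomial.ext h
  · intro d
    exact ⟨Polynomial.C d, fun q j => Polynomial.coeff_C_mul q⟩
  · intro q n h1 h2 k hk d
    obtain ⟨j, rfl⟩ := Nat.exists_eq_add_of_le hk.le
    have h1' : q.coeff n ≠ 0 := h1
    refine ⟨Polynomial.monomial j (d * (q.coeff n)⁻¹), ?_, fun m hm => ?_⟩
    · change Polynomial.coeff (Polynomial.monomial j (d * (q.coeff n)⁻¹) * q) (n + j) = d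
      rw [Polynomial.coeff_monomial_mul, mul_assoc, inv_mul_cancel₀ h1', mul_one]
    · obtain ⟨i, rfl⟩ : ∃ i, m = i + j := ⟨m - j, by omega⟩
      change Polynomial.coeff (Polynomial.monomial j (d * (q.coeff n)⁻¹) * q) (i + j) = 0
      have : q.coeff i = 0 := h2 i (by omega)
      rw [Polynomial.coeff_monomial_mul, this, mul_zero]

section Skew

open SkewPolynomial

variable {D : Type} [Ring D] [MulSemiringAction (Multiplicative ℕ) D]

theorem ind (p : SkewPolynomial D) {motive : SkewPolynomial D → Prop} (h0 : motive 0)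
    (h1 : ∀ n r, motive (monomial n r)) (h2 : ∀ p q, motive p → motive q → motive (p + q)) :
    motive p :=
  SkewPolynomial.induction p h0 fun n r q _ _ hq => h2 _ _ (h1 n r) hq

theorem coeff_mono_mul (k : ℕ) (b : D) (q : SkewPolynomial D) (j : ℕ) :
    coeff (monomial k b * q) j = if k ≤ j then b * φ^[k] (coeff q (j - k)) else 0 := by
  induction q using ind with
  | h0 => simp [iterate_map_zero]
  | h1 n r =>
    rw [monomial_mul_monomial, coeff_monomial, coeff_monomial]
    by_cases h : k + n = j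
    · rw [if_pos h, if_pos (by omega), if_pos (by omega)]
    · rw [if_neg h]
      split_ifs with h1 h2
      · omega
      · rw [iterate_map_zero, mul_zero]
      · rfl
  | h2 p q hp hq =>
    rw [mul_add, coeff_add, hp, hq, coeff_add, iterate_map_add]
    split_ifs
    · rw [mul_add]
    · rw [add_zero]

theorem exists_bound (p : SkewPolynomial D) : ∃ n, ∀ m, n ≤ m → coeff p m = 0 := by
  refine ⟨p.support.sup id + 1, fun m hm => notMem_support_iff.1 fun h => ?_⟩
  have := Finset.le_sup (f := id) h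
  simp only [id] at this
  omega

/-- The coefficient map as an additive homomorphism. -/
def co (n : ℕ) : SkewPolynomial D →+ D where
  toFun p := coeff p n
  map_zero' := rfl
  map_add' p q := coeff_add p q n

theorem coeff_zero_mul (p q : SkewPolynomial D) : coeff (p * q) 0 = coeff p 0 * coeff q 0 := by
  induction p using ind with
  | h0 => simp
  | h1 n r =>
    rw [coeff_mono_mul, coeff_monomial]
    rcases Nat.eq_zero_or_pos n with rfl | h
    · simp
    · rw [if_neg (by omega), if_neg (by omega), zero_mul]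
  | h2 p p' hp hp' => rw [add_mul, coeff_add, hp, hp', coeff_add, add_mul]

theorem decomp (p : SkewPolynomial D) : ∃ y, p = C (coeff p 0) + y * X := by
  induction p using ind with
  | h0 => exact ⟨0, by simp [C_0]⟩
  | h1 n r =>
    rcases n with _ | n
    · exact ⟨0, by simp⟩
    · exact ⟨monomial n r, by simp [monomial_mul_X, C_0]⟩
  | h2 p q hp hq =>
    obtain ⟨y, hy⟩ := hp
    obtain ⟨z, hz⟩ := hq
    refine ⟨y + z, ?_⟩
    rw [coeff_add, C_add, add_mul]
    conv_lhs => rw [hy, hz]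
    abel

theorem eq_sum (p : SkewPolynomial D) (n : ℕ) (h : ∀ m, n < m → coeff p m = 0) :
    p = ∑ i ∈ Finset.range (n + 1), monomial i (coeff p i) := by
  ext j
  change _ = co j _
  rw [map_sum]
  change _ = ∑ i ∈ Finset.range (n + 1), coeff (monomial i (coeff p i)) j
  simp only [coeff_monomial, Finset.sum_ite_eq', Finset.mem_range]
  split_ifs with h1
  · rfl
  · exact h j (by omega)

theorem exists_top (p : SkewPolynomial D) (hp : p ≠ 0) :
    ∃ n, coeff p n ≠ 0 ∧ ∀ m, n < m → coeff p m = 0 := by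
  have hne : p.support.Nonempty := by
    rw [Finset.nonempty_iff_ne_empty, ne_eq, support_eq_empty]
    exact hp
  refine ⟨p.support.max' hne, mem_support_iff.1 (Finset.max'_mem _ _), fun m hm => ?_⟩
  exact notMem_support_iff.1 fun h => absurd (Finset.le_max' _ _ h) (not_le.2 hm)

theorem skew_nzd [NoZeroDivisors D] (hφ : ∀ d : D, d ≠ 0 → φ d ≠ 0) :
    NoZeroDivisors (SkewPolynomial D) := by
  have hit : ∀ k (d : D), d ≠ 0 → φ^[k] d ≠ 0 := by
    intro k
    induction k with
    | zero => exact fun d hd => hd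
    | succ k ih => exact fun d hd => ih _ (hφ d hd)
  refine ⟨fun {p q} h => ?_⟩
  by_contra hc
  push Not at hc
  obtain ⟨m, h1, h2⟩ := exists_top p hc.1
  obtain ⟨n, h3, h4⟩ := exists_top q hc.2
  have h5 : co (m + n) (p * q) = coeff p m * φ^[m] (coeff q n) := by
    conv_lhs => rw [eq_sum p m h2]
    rw [Finset.sum_mul, map_sum, Finset.sum_range_succ, Finset.sum_eq_zero, zero_add]
    · change coeff _ _ = _
      rw [coeff_mono_mul, if_pos (by omega), Nat.add_sub_cancel_left]
    · intro i hi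
      have hi' := Finset.mem_range.1 hi
      change coeff _ _ = _
      rw [coeff_mono_mul, if_pos (by omega), h4 _ (by omega), iterate_map_zero, mul_zero]
  rw [h, map_zero] at h5
  exact mul_ne_zero h1 (hit m _ h3) h5.symm

theorem skew_pid [Nontrivial D] (hD : IsPrincipalIdealRing D) (hφ : ∀ d : D, d ≠ 0 → IsUnit (φ d)) :
    IsPrincipalIdealRing (SkewPolynomial D) := by
  have hit : ∀ k (d : D), d ≠ 0 → IsUnit (φ^[k + 1] d) := by
    intro k
    induction k with
    | zero => exact hφ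
    | succ k ih => exact fun d hd => ih _ (hφ d hd).ne_zero
  refine principal_of_coeff co exists_bound (fun p h => SkewPolynomial.ext h) hD ?_ ?_
  · intro d
    refine ⟨monomial 0 d, fun q j => ?_⟩
    change coeff _ _ = d * coeff _ _
    rw [coeff_mono_mul]
    simp
  · intro q n h1 h2 k hk d
    obtain ⟨j, rfl⟩ : ∃ j, k = j + 1 + n := ⟨k - n - 1, by omega⟩
    obtain ⟨v, hv⟩ := (hit j _ h1).exists_left_inv
    refine ⟨monomial (j + 1) (d * v), ?_, fun m hm => ?_⟩
    · change coeff _ _ = d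
      rw [coeff_mono_mul, if_pos (by omega), Nat.add_sub_cancel_left, mul_assoc]
      erw [hv]
      rw [mul_one]
    · change coeff _ _ = 0
      have : coeff q (m - (j + 1)) = 0 := h2 _ (by omega)
      rw [coeff_mono_mul, if_pos (by omega), this, iterate_map_zero, mul_zero]

theorem X_mul_C' (d : D) : (X : SkewPolynomial D) * C d = C (φ d) * X := by
  rw [← monomial_zero_left, X_mul_monomial, C_mul_X_eq_monomial]

theorem X_eq (d : D) (hd : IsUnit (φ d)) : ∃ v : D, (X : SkewPolynomial D) = C v * X * C d := by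
  obtain ⟨v, hv⟩ := hd.exists_left_inv
  exact ⟨v, by rw [mul_assoc, X_mul_C', ← mul_assoc, ← C_mul, hv, C_1, one_mul]⟩

theorem counter [Nontrivial D] [NoZeroDivisors D] (hD : IsPrincipalIdealRing D)
    (hφ : ∀ d : D, d ≠ 0 → IsUnit (φ d)) (c : D) (hc0 : c ≠ 0) (hc1 : ∀ r, r * c ≠ 1)
    (hc2 : ∀ d, c * φ d = φ d * c) (hc3 : ∃ r, ∀ r', c * r ≠ r' * c) :
    ¬ (∀ (R : Type) [Ring R], Nontrivial R →
      (∀ a b : R, (∀ r : R, a * r * b = 0) → a = 0 ∨ b = 0) →
      (∀ I : AddSubmonoid R, (∀ x r : R, x ∈ I → x * r ∈ I) →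
          ∃ a : R, ∀ x : R, x ∈ I ↔ ∃ r : R, x = a * r) →
      ∀ I : AddSubmonoid R, (∀ x r : R, x ∈ I → r * x ∈ I ∧ x * r ∈ I) →
        ∃ L : List (AddSubmonoid R),
          (∀ P ∈ L, (∀ x r : R, x ∈ P → r * x ∈ P ∧ x * r ∈ P) ∧ (1 : R) ∉ P ∧
              ∀ a b : R, (∀ r : R, a * r * b ∈ P) → a ∈ P ∨ b ∈ P) ∧
          L.foldr (fun P J => AddSubmonoid.closure {x : R | ∃ a ∈ P, ∃ b ∈ J, x = a * b}) ⊤ = I) := by
  intro h
  have i1 : NoZeroDivisors (SkewPolynomial D) := skew_nzd fun d hd => (hφ d hd).ne_zero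
  have i2 := skew_pid hD hφ
  have hX0 : (X : SkewPolynomial D) ≠ 0 := fun e => by
    have := congrArg (fun p => coeff p 1) e
    simp at this
  have i3 : Nontrivial (SkewPolynomial D) := ⟨_, _, hX0⟩
  have ha : ∀ r : SkewPolynomial D, ∃ r', X * r = r' * X := fun r => ⟨_, X_mul⟩
  obtain ⟨v, hv⟩ := X_eq c (hφ c hc0)
  have hc : ∀ r : SkewPolynomial D, ∃ r', C c * X * r = r' * (C c * X) := by
    intro r
    obtain ⟨y, hy⟩ := decomp r
    obtain ⟨y', hy'⟩ := ha y
    refine ⟨C (φ (coeff r 0)) + C c * y' * (C v * X), ?_⟩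
    conv_lhs => rw [hy]
    rw [mul_add, add_mul, mul_assoc, X_mul_C', ← mul_assoc, ← C_mul, hc2, C_mul, mul_assoc]
    congr 1
    calc C c * X * (y * X) = C c * (X * y) * X := by simp only [mul_assoc]
      _ = C c * y' * X * X := by rw [hy']; simp only [mul_assoc]
      _ = C c * y' * (C v * X * C c) * X := by rw [← hv]
      _ = _ := by simp only [mul_assoc]
  let I : AddSubmonoid (SkewPolynomial D)ᵐᵒᵖ :=
    AddMonoidHom.mrange (AddMonoidHom.mulLeft (MulOpposite.op X * MulOpposite.op (C c)))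
  have hI : ∀ z, z ∈ I ↔ ∃ r, z = MulOpposite.op X * MulOpposite.op (C c) * r :=
    fun z => ⟨fun ⟨r, hr⟩ => ⟨r, hr.symm⟩, fun ⟨r, hr⟩ => ⟨r, hr.symm⟩⟩
  obtain ⟨L, hL, e⟩ := h (SkewPolynomial D)ᵐᵒᵖ inferInstance
    (fun a b hab => by simpa using hab 1)
    (fun J hJ => by
      let N : Ideal (SkewPolynomial D) :=
        { carrier := {p | MulOpposite.op p ∈ J}
          zero_mem' := J.zero_mem
          add_mem' := fun ha hb => J.add_mem ha hb
          smul_mem' := fun r p hp => hJ _ (MulOpposite.op r) hp }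
      obtain ⟨a, ha⟩ := i2.principal N
      refine ⟨MulOpposite.op a, fun x => ?_⟩
      have : x ∈ J ↔ x.unop ∈ N := Iff.rfl
      rw [this, ha, Submodule.mem_span_singleton]
      constructor
      · rintro ⟨r, hr⟩
        exact ⟨MulOpposite.op r, MulOpposite.unop_injective hr.symm⟩
      · rintro ⟨r, rfl⟩
        exact ⟨r.unop, rfl⟩)
    I (fun x r hx => by
      obtain ⟨y, rfl⟩ := (hI x).1 hx
      refine ⟨(hI _).2 ?_, (hI _).2 ⟨y * r, mul_assoc _ _ _⟩⟩
      obtain ⟨r', hr'⟩ := hc r.unop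
      refine ⟨MulOpposite.op r' * y, MulOpposite.unop_injective ?_⟩
      simp only [MulOpposite.unop_mul, MulOpposite.unop_op]
      rw [mul_assoc, hr', mul_assoc])
  refine obstruction (MulOpposite.op X) (MulOpposite.op (C c)) (by simpa using hX0)
    ?_ ?_ ?_ ?_ ?_ ?_ I hI L hL e
  · intro r
    obtain ⟨r', hr'⟩ := ha r.unop
    exact ⟨MulOpposite.op r', MulOpposite.unop_injective hr'⟩
  · intro r hr
    obtain ⟨y, hy⟩ := decomp r.unop
    have h0 : coeff r.unop 0 ≠ 0 := by
      intro h0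
      rw [h0, C_0, zero_add] at hy
      exact hr ⟨MulOpposite.op y, MulOpposite.unop_injective hy⟩
    obtain ⟨w, hw⟩ := X_eq _ (hφ _ h0)
    refine ⟨MulOpposite.op y, MulOpposite.op (C w), MulOpposite.unop_injective ?_⟩
    simp only [MulOpposite.unop_mul, MulOpposite.unop_op, MulOpposite.unop_sub]
    rw [← mul_assoc, ← sub_eq_iff_eq_add.2 hy] at *
    exact hw
  · exact ⟨MulOpposite.op (C v * X), MulOpposite.unop_injective hv⟩
  · intro r e
    have h1 : r.unop * C c = 1 := congrArg MulOpposite.unop e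
    have h2 := congrArg (fun p => coeff p 0) h1
    simp only [coeff_zero_mul, coeff_C_zero, coeff_one_zero] at h2
    exact hc1 _ h2
  · intro r e
    have h1 : C c = r.unop * X := congrArg MulOpposite.unop e
    have h2 := congrArg (fun p => coeff p 0) h1
    simp only [coeff_zero_mul, coeff_C_zero, coeff_X_zero, mul_zero] at h2
    exact hc0 h2
  · obtain ⟨r, hr⟩ := hc3
    refine ⟨MulOpposite.op (C r), fun r' e => ?_⟩
    have h1 : C c * C r = r'.unop * C c := congrArg MulOpposite.unop e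
    have h2 := congrArg (fun p => coeff p 0) h1
    simp only [coeff_zero_mul, coeff_C_zero] at h2
    exact hr _ h2

end Skew

theorem indep {H : Type} [DivisionRing H] [CharZero H] (s u : H) (hs : s ≠ 0) (hu : u ≠ 0)
    (h : u * s = 2 * (s * u)) (n : ℕ) : ∀ a : ℕ → H, (∀ i, Commute (a i) u) →
    ∑ i ∈ Finset.range n, a i * s ^ i = 0 → ∀ i < n, a i = 0 := by
  have hp : ∀ i : ℕ, u * s ^ i = ((2 ^ i : ℤ) : H) * (s ^ i * u) := by
    intro i
    induction i with
    | zero => simp
    | succ i ih =>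
      rw [pow_succ, ← mul_assoc, ih, mul_assoc, mul_assoc, h, pow_succ]
      push_cast
      rw [← mul_assoc (s ^ i), ← (Commute.ofNat_left 2 (s ^ i)).eq]
      simp only [mul_assoc]
  induction n with
  | zero => intro a _ _ i hi; omega
  | succ n ih =>
    intro a ha h0
    have h1 : ∑ i ∈ Finset.range (n + 1), ((2 ^ i - 2 ^ n : ℤ) : H) * a i * s ^ i = 0 := by
      apply mul_right_cancel₀ hu
      have h2 : u * ∑ i ∈ Finset.range (n + 1), a i * s ^ i -
          ((2 ^ n : ℤ) : H) * (∑ i ∈ Finset.range (n + 1), a i * s ^ i) * u = 0 := by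
        rw [h0]
        simp
      rw [zero_mul, ← h2, Finset.mul_sum, Finset.mul_sum, Finset.sum_mul, Finset.sum_mul,
        ← Finset.sum_sub_distrib]
      apply Finset.sum_congr rfl
      intro i _
      rw [← mul_assoc u, ← (ha i).eq, mul_assoc (a i), hp, ← mul_assoc (a i),
        ← (Int.cast_commute (2 ^ i) (a i)).eq, Int.cast_sub]
      noncomm_ring
    rw [Finset.sum_range_succ, sub_self, Int.cast_zero, zero_mul, zero_mul, add_zero] at h1
    have h3 := ih _ (fun i => (Int.cast_commute _ u).mul_left (ha i)) h1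
    have h4 : ∀ i < n, a i = 0 := by
      intro i hi
      refine (mul_eq_zero.1 (h3 i hi)).resolve_left ?_
      rw [Int.cast_eq_zero, sub_eq_zero]
      exact (pow_lt_pow_right₀ one_lt_two hi).ne
    rw [Finset.sum_range_succ, Finset.sum_eq_zero
      (fun i hi => by rw [h4 i (Finset.mem_range.1 hi), zero_mul]), zero_add] at h0
    intro i hi
    rcases (Nat.lt_succ_iff.1 hi).eq_or_lt with rfl | hi
    · exact (mul_eq_zero.1 h0).resolve_right (pow_ne_zero _ hs)
    · exact h4 i hi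

theorem result :
    ¬ (∀ (R : Type) [Ring R], Nontrivial R →
      (∀ a b : R, (∀ r : R, a * r * b = 0) → a = 0 ∨ b = 0) →
      (∀ I : AddSubmonoid R, (∀ x r : R, x ∈ I → x * r ∈ I) →
          ∃ a : R, ∀ x : R, x ∈ I ↔ ∃ r : R, x = a * r) →
      ∀ I : AddSubmonoid R, (∀ x r : R, x ∈ I → r * x ∈ I ∧ x * r ∈ I) →
        ∃ L : List (AddSubmonoid R),
          (∀ P ∈ L, (∀ x r : R, x ∈ P → r * x ∈ P ∧ x * r ∈ P) ∧ (1 : R) ∉ P ∧
              ∀ a b : R, (∀ r : R, a * r * b ∈ P) → a ∈ P ∨ b ∈ P) ∧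
          L.foldr (fun P J => AddSubmonoid.closure {x : R | ∃ a ∈ P, ∃ b ∈ J, x = a * b}) ⊤ = I) := by
  obtain ⟨H, _, ψ, s, u, _, hs, hu, h, hcs, hcu⟩ := Pool.Agent.H75.ShiftSkewField.main
  let Ψ : Polynomial H →+* Polynomial H :=
    Polynomial.C.comp (Polynomial.eval₂RingHom' ψ s hcs)
  let _ : MulSemiringAction (Multiplicative ℕ) (Polynomial H) :=
    MulSemiringAction.compHom (Polynomial H) (powersHom (Polynomial H →+* Polynomial H) Ψ)
  have hφ : ∀ d : Polynomial H, SkewPolynomial.φ d = Polynomial.C (d.eval₂ ψ s) := by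
    intro d
    change (Ψ ^ 1) d = _
    rw [pow_one]
    rfl
  refine counter (D := Polynomial H) (poly_pid H) ?_ (Polynomial.X - Polynomial.C s)
    (Polynomial.X_sub_C_ne_zero s) ?_ ?_ ?_
  · intro d hd
    rw [hφ]
    apply IsUnit.map
    apply IsUnit.mk0
    intro h0
    rw [Polynomial.eval₂_eq_sum_range] at h0
    have := indep s u hs hu h _ (fun i => ψ (d.coeff i)) (fun i => hcu _) h0 d.natDegree
      (Nat.lt_succ_self _)
    rw [map_eq_zero] at this
    exact hd (Polynomial.leadingCoeff_eq_zero.1 this)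
  · intro r e
    have := congrArg (Polynomial.eval s) e
    rw [Polynomial.eval_mul_X_sub_C, Polynomial.eval_one] at this
    exact zero_ne_one this
  · intro d
    have h1 : Commute (d.eval₂ ψ s) s := by
      rw [Polynomial.eval₂_eq_sum_range]
      exact Commute.sum_left _ _ _ fun i _ => (hcs _).mul_left ((Commute.refl s).pow_left i)
    rw [hφ, sub_mul, mul_sub, Polynomial.X_mul, ← map_mul, ← map_mul, h1.eq]
  · refine ⟨Polynomial.C u, fun r' e => ?_⟩
    have := congrArg (Polynomial.eval s) e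
    rw [Polynomial.eval_mul_X_sub_C, sub_mul, Polynomial.X_mul, ← map_mul, Polynomial.eval_sub,
      Polynomial.eval_mul_X, Polynomial.eval_C, Polynomial.eval_C, h, two_mul,
      add_sub_cancel_right] at this
    exact mul_ne_zero hs hu this

end Pool.Agent.S01438
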