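import Pool.Statements.S01482
import Pool.Agent.H51.HopfOver

set_option autoImplicit false
open Pool Pool.MP_5439be_al

namespace Pool.Agent.S01482
open Pool.Agent.H51.HopfOver

/-- The negation of the preceding statement: For every group G and every finite-index subgroup H of G, if every surjective endomorphism of H is injective, then every surjective endomorphism of G is injective. -/
theorem result :
    ¬ (∀ (G : Type) [Group G] (H : Subgroup G), H.FiniteIndex →
      (∀ f : ↥H →* ↥H, Function.Surjective f → Function.Injective f) →
      ∀ g : G →* G, Function.Surjective g → Function.Injective g) := by
  intro h
  exact g_not_inj (h G H inferInstance hopf g g_surj)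

end Pool.Agent.S01482
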