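import Pool.Statements.S01552
import Pool.Agent.H71.Heis

set_option autoImplicit false
open scoped Pointwise
open Pool Pool.MP_5893d4_al

namespace Pool.Agent.S01552

/-- The negation of the preceding statement: For every group of size at most 2^c with some precompact Hausdorff group topology, and every countable family of subsets, some precompact Hausdorff group topology gives each member the same closure as the intersection of all precompact Hausdorff group topologies. -/
theorem result :
    ¬ (∀ (G : Type) [Group G],
      Cardinal.mk G ≤ 2 ^ Cardinal.continuum →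
      (∃ t : TopologicalSpace G,
        @IsTopologicalGroup G t _ ∧ @T2Space G t ∧
          ∀ U ∈ @nhds G t 1, ∃ F : Finset G, (F : Set G) * U = Set.univ) →
      ∀ ℰ : Set (Set G), ℰ.Countable →
        ∃ t : TopologicalSpace G,
          (@IsTopologicalGroup G t _ ∧ @T2Space G t ∧
            ∀ U ∈ @nhds G t 1, ∃ F : Finset G, (F : Set G) * U = Set.univ) ∧
          ∀ E ∈ ℰ,
            @closure G t E =
              ⋂₀ {C : Set G | E ⊆ C ∧
                ∀ s : TopologicalSpace G,
                  (@IsTopologicalGroup G s _ ∧ @T2Space G s ∧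
                    ∀ U ∈ @nhds G s 1, ∃ F : Finset G, (F : Set G) * U = Set.univ) →
                  @IsClosed G s C}) := by
  intro h
  open Pool.Agent.H71.Heis in
  obtain ⟨t, ⟨h1, h2, h3⟩, h4⟩ := h (H ℤ)
    (Cardinal.mk_le_aleph0.trans (Cardinal.aleph0_le_continuum.trans (Cardinal.cantor _).le))
    ⟨_, tp_good one_lt_two⟩ {Set.range e} (Set.countable_singleton _)
  have key : ∀ p : ℕ, 1 < p → ∀ a, Filter.Tendsto e Filter.atTop (@nhds _ (tp p) a) →
      a ∈ closure (Set.range e) := fun p hp a ha => by
    rw [h4 _ rfl]
    rintro C ⟨hC, hC'⟩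
    exact @IsClosed.mem_of_tendsto _ (tp p) _ _ _ _ _ _ (hC' _ (tp_good hp)) ha
      (Filter.Eventually.of_forall fun n => hC ⟨n, rfl⟩)
  have := uniq h3 (key 2 one_lt_two _ lim2) (key 3 (by norm_num) _ lim3)
    (fun ⟨n, hn⟩ => absurd (congrArg H.z hn) (by simp [e]))
    (fun ⟨n, hn⟩ => absurd (congrArg H.z hn)
      (one_lt_pow₀ (one_lt_two (α := ℤ)) n.factorial_ne_zero).ne')
  exact absurd (congrArg H.z this) zero_ne_one

end Pool.Agent.S01552
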