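import Pool.Statements.S01554

set_option autoImplicit false
open Pool Pool.MP_58cc81_al

namespace Pool.Agent.S01554

/-- The sign character of `ZMod 2`. -/
noncomputable def sg (a : ZMod 2) : Circle := if a = 0 then 1 else -1

lemma neg_ne : (-1 : Circle) ≠ 1 := by
  intro h
  have := congrArg (fun z : Circle => (z : ℂ).re) h
  simp at this
  norm_num at this

lemma sg_add (a b : ZMod 2) : sg (a + b) = sg a * sg b := by
  have h : (1 + 1 : ZMod 2) = 0 := rfl
  have ha : a = 0 ∨ a = 1 := by revert a; decide
  have hb : b = 0 ∨ b = 1 := by revert b; decide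
  rcases ha with rfl | rfl <;> rcases hb with rfl | rfl <;> simp [sg, h]

lemma sg_inj {a b : ZMod 2} (h : sg a = sg b) : a = b := by
  have hc : ∀ a : ZMod 2, a = 0 ∨ a = 1 := by decide
  have ha := hc a
  have hb := hc b
  rcases ha with rfl | rfl <;> rcases hb with rfl | rfl
  · rfl
  · simp [sg] at h; exact absurd h.symm neg_ne
  · simp [sg] at h; exact absurd h neg_ne
  · rfl

@[simp] lemma sg_zero : sg 0 = 1 := by simp [sg]

def V : Type := ℕ →₀ ZMod 2

noncomputable instance : AddCommGroup V := inferInstanceAs (AddCommGroup (ℕ →₀ ZMod 2))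
noncomputable instance : Module (ZMod 2) V := inferInstanceAs (Module (ZMod 2) (ℕ →₀ ZMod 2))
instance : TopologicalSpace V := ⊥
instance : DiscreteTopology V := ⟨rfl⟩
instance : Infinite V := inferInstanceAs (Infinite (ℕ →₀ ZMod 2))

def ev (x : V) (i : ℕ) : ZMod 2 := (show ℕ →₀ ZMod 2 from x) i

lemma ev_add (x y : V) (i : ℕ) : ev (x + y) i = ev x i + ev y i := Finsupp.add_apply _ _ _
lemma ev_zero (i : ℕ) : ev 0 i = 0 := rfl
lemma ev_ext {x y : V} (h : ∀ i, ev x i = ev y i) : x = y := Finsupp.ext h

lemma add_self (x : V) : x + x = 0 := by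
  apply ev_ext; intro i
  rw [ev_add, ev_zero]
  generalize ev x i = a
  revert a; decide

abbrev T : Type := ℕ × ℕ → Circle

noncomputable def c (x y : V) : T := fun p => sg (ev x p.1 * ev y p.2)

lemma c_add_left (x y z : V) : c (x + y) z = c x z * c y z := by
  funext p; simp [c, ev_add, add_mul, sg_add]

lemma c_add_right (x y z : V) : c x (y + z) = c x y * c x z := by
  funext p; simp [c, ev_add, mul_add, sg_add]

lemma c_zero_left (x : V) : c 0 x = 1 := by funext p; simp [c, ev_zero]
lemma c_zero_right (x : V) : c x 0 = 1 := by funext p; simp [c, ev_zero]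

def G : Type := T × V

noncomputable instance : TopologicalSpace G := inferInstanceAs (TopologicalSpace (T × V))
instance : T2Space G := inferInstanceAs (T2Space (T × V))
instance : LocallyCompactSpace G := inferInstanceAs (LocallyCompactSpace (T × V))

noncomputable instance : Mul G := ⟨fun p q => (p.1 * q.1 * c p.2 q.2, p.2 + q.2)⟩
noncomputable instance : One G := ⟨(1, 0)⟩
noncomputable instance : Inv G := ⟨fun p => ((p.1 * c p.2 p.2)⁻¹, p.2)⟩

lemma mul_1 (p q : G) : (p * q).1 = p.1 * q.1 * c p.2 q.2 := rfl
lemma mul_2 (p q : G) : (p * q).2 = p.2 + q.2 := rfl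
lemma one_1 : (1 : G).1 = 1 := rfl
lemma one_2 : (1 : G).2 = 0 := rfl
lemma inv_1 (p : G) : (p⁻¹).1 = (p.1 * c p.2 p.2)⁻¹ := rfl
lemma inv_2 (p : G) : (p⁻¹).2 = p.2 := rfl

noncomputable instance : Group G := Group.ofLeftAxioms
  (fun a b d => Prod.ext (by
      simp only [mul_1, mul_2, c_add_left, c_add_right]
      simp only [mul_comm, mul_left_comm])
    (by simp only [mul_2, add_assoc]))
  (fun a => Prod.ext (by simp [mul_1, one_1, one_2, c_zero_left]) (by simp [mul_2, one_2]))
  (fun a => Prod.ext (by
      rw [mul_1, inv_1, inv_2, one_1, mul_assoc, inv_mul_cancel])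
    (by rw [mul_2, inv_2, one_2, add_self]))

lemma cont1 : Continuous fun p : G => p.1 := continuous_fst (X := T) (Y := V)
lemma cont2 : Continuous fun p : G => p.2 := continuous_snd (X := T) (Y := V)

lemma cont_c : Continuous fun p : V × V => c p.1 p.2 := continuous_of_discreteTopology

instance : IsTopologicalGroup G where
  continuous_mul := by
    apply Continuous.prodMk
    · exact ((cont1.comp continuous_fst).mul (cont1.comp continuous_snd)).mul
        (cont_c.comp ((cont2.comp continuous_fst).prodMk (cont2.comp continuous_snd)))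
    · exact (continuous_of_discreteTopology (f := fun p : V × V => p.1 + p.2)).comp
        ((cont2.comp continuous_fst).prodMk (cont2.comp continuous_snd))
  continuous_inv := by
    apply Continuous.prodMk
    · exact (cont1.mul (cont_c.comp (cont2.prodMk cont2))).inv
    · exact cont2

lemma compact_of_finite (S : Set G) (F : Set V) (hF : F.Finite) (h : ∀ g ∈ S, g.2 ∈ F) :
    IsCompact (closure S) := by
  have h1 : IsCompact ((Set.univ : Set T) ×ˢ F) := isCompact_univ.prod hF.isCompact
  have h2 : IsCompact {g : G | g.2 ∈ F} := by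
    have e : {g : G | g.2 ∈ F} = (Set.univ : Set T) ×ˢ F := Set.ext fun g => by
      simp only [Set.mem_setOf_eq]
      exact ⟨fun h => ⟨trivial, h⟩, fun h => h.2⟩
    rw [e]; exact h1
  exact h2.closure_of_subset h

lemma comm_cases {p q : G} (h : p * q = q * p) : p.2 = 0 ∨ q.2 = 0 ∨ p.2 = q.2 := by
  have h1 := congrArg Prod.fst h
  rw [mul_1, mul_1, mul_comm q.1 p.1] at h1
  have h2 := mul_left_cancel h1
  have h3 : ∀ i j, ev p.2 i * ev q.2 j = ev q.2 i * ev p.2 j := fun i j =>
    sg_inj (congrFun h2 (i, j))
  by_contra hh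
  push Not at hh
  obtain ⟨a, b, d⟩ := hh
  obtain ⟨i, hi⟩ : ∃ i, ev p.2 i ≠ 0 := by
    by_contra hc; push Not at hc; exact a (ev_ext hc)
  obtain ⟨j, hj⟩ : ∃ i, ev q.2 i ≠ 0 := by
    by_contra hc; push Not at hc; exact b (ev_ext hc)
  apply d
  apply ev_ext
  intro k
  have e1 := h3 i j
  have e2 := h3 i k
  revert hi hj e1 e2
  generalize ev p.2 i = a1
  generalize ev q.2 j = a2
  generalize ev q.2 i = a3
  generalize ev p.2 j = a4
  generalize ev q.2 k = a5
  generalize ev p.2 k = a6
  revert a1 a2 a3 a4 a5 a6
  decide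

theorem result :
    ¬ (∀ (G : Type) [Group G] [TopologicalSpace G] [IsTopologicalGroup G]
      [LocallyCompactSpace G] [T2Space G],
      (∀ U ∈ nhds (1 : G), ∃ V ∈ nhds (1 : G), V ⊆ U ∧
          ∀ g x : G, x ∈ V → g * x * g⁻¹ ∈ V) →
      (∀ H : Subgroup G, (∀ a ∈ H, ∀ b ∈ H, a * b = b * a) →
          IsCompact (closure (H : Set G))) →
      (∀ K : Set G, IsCompact (closure K) →
          IsCompact (closure ((Subgroup.closure K : Subgroup G) : Set G))) →
      TotallyDisconnectedSpace G ∨ CompactSpace G) := by
  intro h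
  have h1 := h G ?_ ?_ ?_
  · rcases h1 with h1 | h1
    · let f : T → G := fun t => (t, 0)
      have hf : Continuous f := continuous_id.prodMk continuous_const
      have := (isPreconnected_range hf).subsingleton ⟨1, rfl⟩ ⟨fun _ => -1, rfl⟩
      exact neg_ne (congrFun (congrArg Prod.fst this) (0, 0)).symm
    · have : CompactSpace V := ⟨by
        have := isCompact_range cont2
        have e : (Set.range fun p : G => p.2) = Set.univ :=
          Set.range_eq_univ.2 (fun x => ⟨(1, x), rfl⟩)
        rwa [e] at this⟩
      have := finite_of_compact_of_discrete (X := V)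
      exact not_finite V
  · intro U hU
    refine ⟨U ∩ {g : G | g.2 = 0}, Filter.inter_mem hU ?_, Set.inter_subset_left, ?_⟩
    · exact ((isOpen_discrete ({0} : Set V)).preimage cont2).mem_nhds rfl
    · rintro g x ⟨hx, hx2⟩
      have hx2' : x.2 = 0 := hx2
      have : g * x = x * g := Prod.ext
        (by rw [mul_1, mul_1, hx2', c_zero_left, c_zero_right, mul_comm g.1])
        (by rw [mul_2, mul_2, add_comm])
      rw [this, mul_inv_cancel_right]
      exact ⟨hx, hx2⟩
  · intro H hH
    by_cases h0 : ∀ g ∈ H, g.2 = 0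
    · exact compact_of_finite _ {0} (Set.finite_singleton _) h0
    · push Not at h0
      obtain ⟨g, hg, hg0⟩ := h0
      refine compact_of_finite _ {0, g.2} (Set.toFinite _) fun x hx => ?_
      rcases comm_cases (hH x hx g hg) with h | h | h
      · exact Or.inl h
      · exact absurd h hg0
      · exact Or.inr h
  · intro K hK
    have h1 : ((fun p : G => p.2) '' closure K).Finite := (hK.image cont2).finite_of_discrete
    let W : Submodule (ZMod 2) V := Submodule.span (ZMod 2) ((fun p : G => p.2) '' closure K)
    have : Module.Finite (ZMod 2) W := Module.Finite.span_of_finite _ h1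
    have : Finite W := Module.finite_of_finite (ZMod 2)
    refine compact_of_finite _ W (Set.toFinite _) fun g hg => ?_
    refine Subgroup.closure_induction (p := fun g _ => g.2 ∈ W) ?_ ?_ ?_ ?_ hg
    · intro x hx
      exact Submodule.subset_span ⟨x, subset_closure hx, rfl⟩
    · exact W.zero_mem
    · intro x y _ _ hx hy
      exact W.add_mem hx hy
    · intro x _ hx
      exact hx

end Pool.Agent.S01554
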