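import Pool.Statements.S01567
import Pool.Agent.H74.LoopCubes

set_option autoImplicit false
open Pool Pool.MP_5a0037_al

namespace Pool.Agent.S01567

theorem result :
    ∃ g : ℕ → ℕ, ∀ (Q : Type) [MulOneClass Q],
      (∀ a : Q, Function.Bijective (fun x : Q => a * x)) →
      (∀ a : Q, Function.Bijective (fun x : Q => x * a)) →
      ∀ c n : ℕ,
      upperCentralSeries (↥(Subgroup.closure
          {σ : Equiv.Perm Q | ∃ a : Q, ((⇑σ) = fun x : Q => a * x) ∨ ((⇑σ) = fun x : Q => x * a)})) c = ⊤ →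
      (∀ (m : ℕ) (p : (Fin n → Fin m → Q) → (Fin m → Q) → Q),
        (∀ S : Set ((Fin n → Fin m → Q) → (Fin m → Q) → Q),
          (∀ (i : Fin n) (j : Fin m), (fun (x : Fin n → Fin m → Q) (_ : Fin m → Q) => x i j) ∈ S) →
          (∀ j : Fin m, (fun (_ : Fin n → Fin m → Q) (y : Fin m → Q) => y j) ∈ S) →
          (∀ q : Q, (fun (_ : Fin n → Fin m → Q) (_ : Fin m → Q) => q) ∈ S) →
          (∀ f ∈ S, ∀ h ∈ S, (fun (x : Fin n → Fin m → Q) (y : Fin m → Q) => f x y * h x y) ∈ S) →
          (∀ f ∈ S, ∀ h ∈ S, ∀ r : (Fin n → Fin m → Q) → (Fin m → Q) → Q,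
            (∀ x y, f x y * r x y = h x y) → r ∈ S) →
          (∀ f ∈ S, ∀ h ∈ S, ∀ r : (Fin n → Fin m → Q) → (Fin m → Q) → Q,
            (∀ x y, r x y * f x y = h x y) → r ∈ S) →
          p ∈ S) →
        ∀ (a b : Fin n → Fin m → Q) (u v : Fin m → Q),
          (∀ s : Fin n → Bool, s ≠ (fun _ => true) →
            p (fun i => if s i then b i else a i) u = p (fun i => if s i then b i else a i) v) →
          p b u = p b v) →
      (∀ (m : ℕ) (p : (Fin (g c) → Fin m → Q) → (Fin m → Q) → Q),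
        (∀ S : Set ((Fin (g c) → Fin m → Q) → (Fin m → Q) → Q),
          (∀ (i : Fin (g c)) (j : Fin m), (fun (x : Fin (g c) → Fin m → Q) (_ : Fin m → Q) => x i j) ∈ S) →
          (∀ j : Fin m, (fun (_ : Fin (g c) → Fin m → Q) (y : Fin m → Q) => y j) ∈ S) →
          (∀ q : Q, (fun (_ : Fin (g c) → Fin m → Q) (_ : Fin m → Q) => q) ∈ S) →
          (∀ f ∈ S, ∀ h ∈ S, (fun (x : Fin (g c) → Fin m → Q) (y : Fin m → Q) => f x y * h x y) ∈ S) →
          (∀ f ∈ S, ∀ h ∈ S, ∀ r : (Fin (g c) → Fin m → Q) → (Fin m → Q) → Q,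
            (∀ x y, f x y * r x y = h x y) → r ∈ S) →
          (∀ f ∈ S, ∀ h ∈ S, ∀ r : (Fin (g c) → Fin m → Q) → (Fin m → Q) → Q,
            (∀ x y, r x y * f x y = h x y) → r ∈ S) →
          p ∈ S) →
        ∀ (a b : Fin (g c) → Fin m → Q) (u v : Fin m → Q),
          (∀ s : Fin (g c) → Bool, s ≠ (fun _ => true) →
            p (fun i => if s i then b i else a i) u = p (fun i => if s i then b i else a i) v) →
          p b u = p b v) := by
  refine ⟨fun c => 4 ^ c, ?_⟩
  intro Q _ hL hR c n hc _ m p hp a b u v hab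
  obtain ⟨S⟩ := H74.Cubes.cubeSys_of_nilpotent Q hL hR (Subgroup.closure
      {σ : Equiv.Perm Q | ∃ a : Q, ((⇑σ) = fun x : Q => a * x) ∨ ((⇑σ) = fun x : Q => x * a)})
    (fun a => Subgroup.subset_closure ⟨a, Or.inl rfl⟩)
    (fun a => Subgroup.subset_closure ⟨a, Or.inr rfl⟩) c hc
  have key : ∀ u v : Fin m → Q, (fun τ : H74.Cubes.V (4 ^ c + 1) =>
      p (fun i => if τ i.succ then b i else a i) (if τ 0 then v else u)) ∈ S.C (4 ^ c + 1) := by
    intro u v
    refine hp {f | (fun τ : H74.Cubes.V (4 ^ c + 1) =>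
      f (fun i => if τ i.succ then b i else a i) (if τ 0 then v else u)) ∈ S.C (4 ^ c + 1)}
      ?_ ?_ ?_ ?_ ?_ ?_
    · intro i j
      have := S.dir _ i.succ (a i j) (b i j)
      show (fun τ : H74.Cubes.V (4 ^ c + 1) => (if τ i.succ then b i else a i) j) ∈ S.C (4 ^ c + 1)
      convert this using 2 with τ
      split_ifs <;> rfl
    · intro j
      have := S.dir (4 ^ c + 1) 0 (u j) (v j)
      show (fun τ : H74.Cubes.V (4 ^ c + 1) => (if τ 0 then v else u) j) ∈ S.C (4 ^ c + 1)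
      convert this using 2 with τ
      split_ifs <;> rfl
    · intro q; exact S.const _ q
    · intro f hf h hh; exact S.mul _ _ hf _ hh
    · intro f hf h hh r hr; exact S.ldiv _ _ hf _ hh _ (fun s => hr _ _)
    · intro f hf h hh r hr; exact S.rdiv _ _ hf _ hh _ (fun s => hr _ _)
  have := S.uniq _ (Nat.lt_succ_self _) _ (key u u) _ (key u v) (fun τ hτ => by
    cases h0 : τ 0
    · simp
    · simp only [if_true]
      apply hab (fun i => τ i.succ)
      intro e
      apply hτ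
      funext i
      exact Fin.cases h0 (fun j => congrFun e j) i)
  simpa using this

end Pool.Agent.S01567
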