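import Pool.Statements.S01587
import Pool.Agent.H73.TRec4

set_option autoImplicit false
open Pool Pool.MP_5c1719_al

namespace Pool.Agent.S01587

/-- For every finite alphabet there is a computable procedure that, given a finite automaton presenting a rational subset of the free inverse monoid (via Munn trees), decides whether that subset is recognizable, i.e. has finitely many residuals. -/
theorem result :
    ∀ n : ℕ, ∃ f : List (ℕ × Option (Fin n ⊕ Fin n) × ℕ) × List ℕ → Bool, Computable f ∧
      ∀ A : List (ℕ × Option (Fin n ⊕ Fin n) × ℕ) × List ℕ,
        (f A = true ↔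
          (Set.range (fun u : List (Fin n ⊕ Fin n) =>
            {w : List (Fin n ⊕ Fin n) | ∃ v : List (Fin n ⊕ Fin n),
              (∃ l : List (ℕ × Option (Fin n ⊕ Fin n) × ℕ),
                (∀ t ∈ l, t ∈ A.1) ∧
                (∀ i : ℕ, i + 1 < l.length →
                  (l[i]?).map (fun t => t.2.2) = (l[i+1]?).map (fun t => t.1)) ∧
                ((l.head?).map (fun t => t.1)).getD 0 = 0 ∧
                ((l.getLast?).map (fun t => t.2.2)).getD 0 ∈ A.2 ∧
                l.filterMap (fun t => t.2.1) = v) ∧
              ((u ++ w).map (Sum.elim (fun i : Fin n => FreeGroup.of i)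
                  (fun i : Fin n => (FreeGroup.of i)⁻¹))).prod =
                (v.map (Sum.elim (fun i : Fin n => FreeGroup.of i)
                  (fun i : Fin n => (FreeGroup.of i)⁻¹))).prod ∧
              {g : FreeGroup (Fin n) | ∃ k : ℕ, (((u ++ w).take k).map
                  (Sum.elim (fun i : Fin n => FreeGroup.of i)
                    (fun i : Fin n => (FreeGroup.of i)⁻¹))).prod = g} =
                {g : FreeGroup (Fin n) | ∃ k : ℕ, ((v.take k).map
                  (Sum.elim (fun i : Fin n => FreeGroup.of i)
                    (fun i : Fin n => (FreeGroup.of i)⁻¹))).prod = g}})).Finite) :=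
  Pool.Agent.H73.TRec.main

end Pool.Agent.S01587
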