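import Pool.Statements.S01599
import Pool.Agent.H74.OddCsorgo
import Pool.Agent.H74.InnGen

set_option autoImplicit false
open Pool Pool.MP_5cdc7f_al

namespace Pool.Agent.S01599

/-- There is a finite loop of odd order whose inner mapping group (identity-stabilizer in the group generated by all translations) is abelian, yet the quotient by its centre is not an abelian group, i.e. its nilpotency class is not at most two. -/
theorem result :
    ∃ (n : ℕ) (mul : Fin n → Fin n → Fin n) (e : Fin n),
      Odd n ∧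
      (∀ x, mul e x = x ∧ mul x e = x) ∧
      (∀ a b, ∃! x, mul a x = b) ∧
      (∀ a b, ∃! y, mul y a = b) ∧
      (∀ σ ∈ Subgroup.closure
          {π : Equiv.Perm (Fin n) | ∃ a, (∀ x, π x = mul a x) ∨ (∀ x, π x = mul x a)},
        ∀ τ ∈ Subgroup.closure
          {π : Equiv.Perm (Fin n) | ∃ a, (∀ x, π x = mul a x) ∨ (∀ x, π x = mul x a)},
          σ e = e → τ e = e → σ * τ = τ * σ) ∧
      ¬ ((∀ x y, ∃ c,
            (∀ u v, mul c u = mul u c ∧
              mul (mul c u) v = mul c (mul u v) ∧
              mul (mul u c) v = mul u (mul c v) ∧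
              mul (mul u v) c = mul u (mul v c)) ∧
            mul x y = mul (mul y x) c) ∧
         (∀ x y w, ∃ c,
            (∀ u v, mul c u = mul u c ∧
              mul (mul c u) v = mul c (mul u v) ∧
              mul (mul u c) v = mul u (mul c v) ∧
              mul (mul u v) c = mul u (mul v c)) ∧
            mul (mul x y) w = mul (mul x (mul y w)) c)) := by
  open H74.OddCsorgo in
  have hcard : Fintype.card (Fin 15 → ZMod 3) = 3 ^ 15 := by simp
  open H74.OddCsorgo in
  let E : Q ≃ Fin (3 ^ 15) := eqv.trans (Fintype.equivFinOfCardEq hcard)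
  open H74.OddCsorgo in
  refine ⟨3 ^ 15, fun a b => E (mul (E.symm a) (E.symm b)), E one, by decide, ?_, ?_, ?_, ?_, ?_⟩
  · intro x
    simp [H74.OddCsorgo.one_mul', H74.OddCsorgo.mul_one']
  · intro a b
    refine ⟨E (H74.OddCsorgo.ld (E.symm a) (E.symm b)), by simp [H74.OddCsorgo.mul_ld], ?_⟩
    rintro y rfl
    simp [H74.OddCsorgo.ld_mul]
  · intro a b
    refine ⟨E (H74.OddCsorgo.rd (E.symm b) (E.symm a)), by simp [H74.OddCsorgo.rd_mul], ?_⟩
    rintro y rfl
    simp [H74.OddCsorgo.mul_rd]
  · open H74.OddCsorgo in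
    exact H74.InnGen.inn_comm _ (fun a b => E (ld (E.symm a) (E.symm b)))
      (fun a b => E (rd (E.symm a) (E.symm b))) _
      (fun x a z => E (A (E.symm x) (E.symm a) (E.symm z)))
      (fun x a z => E (B (E.symm x) (E.symm a) (E.symm z)))
      (fun x => by simp [one_mul']) (fun x => by simp [mul_one'])
      (fun x z => by simp [mul_ld]) (fun x z => by simp [ld_mul])
      (fun x z => by simp [rd_mul]) (fun x z => by simp [mul_rd])
      (fun x a z => by simp [A_spec]) (fun x a z => by simp [B_spec])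
      (fun x a u b z => by simp only [Equiv.symm_apply_apply]; rw [AA])
      (fun x a u b z => by simp only [Equiv.symm_apply_apply]; rw [AB])
      (fun x a u b z => by simp only [Equiv.symm_apply_apply]; rw [BB])
  · rintro ⟨-, h⟩
    obtain ⟨c, hc, he⟩ := h (E ⟨0,1,0,0,0,0,0,0,0,0,0,0,0,0,0⟩) (E ⟨0,0,1,0,0,0,0,0,0,0,0,0,0,0,0⟩)
      (E ⟨0,0,0,1,0,0,0,0,0,0,0,0,0,0,0⟩)
    have h1 := (hc (E ⟨1,0,0,0,0,0,0,0,0,0,0,0,0,0,0⟩) c).1
    simp only [Equiv.symm_apply_apply, EmbeddingLike.apply_eq_iff_eq] at he h1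
    generalize E.symm c = d at he h1
    have a0 := congrArg H74.OddCsorgo.Q.v0 he
    have a1 := congrArg H74.OddCsorgo.Q.v1 he
    have a2 := congrArg H74.OddCsorgo.Q.v2 he
    have a3 := congrArg H74.OddCsorgo.Q.v3 he
    have a4 := congrArg H74.OddCsorgo.Q.c0 he
    have a5 := congrArg H74.OddCsorgo.Q.t h1
    simp [H74.OddCsorgo.mul] at a0 a1 a2 a3
    have a0' := a0.symm
    simp [H74.OddCsorgo.mul, a0', a1, a2, a3] at a4 a5
    rw [a5] at a4
    exact absurd a4 (by decide)

end Pool.Agent.S01599
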