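import Pool.Statements.S01625
import Pool.Agent.H73.Twist

set_option autoImplicit false
open Pool Pool.MP_5e7eb0_al

namespace Pool.Agent.S01625

/-- Every locally normal residually finite group G has a normal subgroup H that embeds in a restricted direct product of finite groups, with G/H a divisible abelian group. -/
theorem result :
    ∀ (G : Type) [Group G],
      (∀ s : Finset G, ∃ N : Subgroup G, N.Normal ∧ (N : Set G).Finite ∧ (↑s : Set G) ⊆ (N : Set G)) →
      (∀ g : G, g ≠ 1 → ∃ N : Subgroup G, N.Normal ∧ N.FiniteIndex ∧ g ∉ N) →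
      ∃ H : Subgroup G, H.Normal ∧
        (∃ (ι : Type) (F : ι → Type) (instG : ∀ i, Group (F i)) (instF : ∀ i, Finite (F i))
            (φ : H →* ((i : ι) → F i)),
            Function.Injective φ ∧ ∀ h : H, {i : ι | φ h i ≠ 1}.Finite) ∧
        (∀ a b : G, a * b * a⁻¹ * b⁻¹ ∈ H) ∧
        (∀ (g : G) (n : ℕ), 0 < n → ∃ y : G, g⁻¹ * y ^ n ∈ H) :=
  Pool.Agent.H73.Twist.main2

end Pool.Agent.S01625
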