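import Pool.Statements.S01640
import Pool.Agent.H77.KtD

set_option autoImplicit false
open Pool Pool.MP_5f0000_al

namespace Pool.Agent.S01640

/-- The negation of the preceding statement: Every group with Kazhdan's property (T) has only finitely many normal subgroups whose quotient is a finite simple group with a split BN-pair of rank 1, i.e. a finite simple group of Lie type of rank 1. -/
theorem result :
    ¬ (∀ (G : Type) [Group G],
      (∀ (H : Type) [NormedAddCommGroup H] [InnerProductSpace ℂ H] [CompleteSpace H]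
          (ρ : G →* unitary (H →L[ℂ] H)),
          (∀ (S : Finset G) (ε : ℝ), 0 < ε →
              ∃ v : H, ‖v‖ = 1 ∧ ∀ s ∈ S, ‖(ρ s : H →L[ℂ] H) v - v‖ < ε) →
          ∃ v : H, v ≠ 0 ∧ ∀ g : G, (ρ g : H →L[ℂ] H) v = v) →
      Set.Finite {N : Subgroup G | ∃ (Q : Type) (_ : Group Q), ∃ f : G →* Q,
          Function.Surjective f ∧ f.ker = N ∧ Finite Q ∧ IsSimpleGroup Q ∧
          ∃ (X : Type) (φ : Q →* Equiv.Perm X), Finite X ∧ 3 ≤ Nat.card X ∧
            (∀ a b c d : X, a ≠ b → c ≠ d → ∃ g : Q, φ g a = c ∧ φ g b = d) ∧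
            ∃ (x : X) (U : Subgroup Q),
              (∀ u ∈ U, φ u x = x) ∧
              (∀ u ∈ U, ∀ h : Q, φ h x = x → h * u * h⁻¹ ∈ U) ∧
              ∀ y z : X, y ≠ x → z ≠ x → ∃! u : Q, u ∈ U ∧ φ u y = z}) := by
  intro h
  obtain ⟨G, _, j, h1, h2⟩ := H77.Kt.mother
  refine Set.Infinite.of_image Subgroup.index (Set.infinite_of_forall_exists_gt fun n => ?_) (h G h1)
  obtain ⟨S, _, ι, a, b, Q, _, q, c, d, e⟩ := H77.Kt.many n
  obtain ⟨f, hf⟩ := h2 S ι a
  have s := c.comp (MonoidHom.range_eq_top.1 (b f.range fun k g => ⟨_, hf k g⟩))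
  refine ⟨_, ⟨_, ⟨Q, inferInstance, q.comp f, s, rfl, d⟩, rfl⟩, ?_⟩
  rwa [Subgroup.index_ker, MonoidHom.range_eq_top.2 s, Subgroup.card_top]

end Pool.Agent.S01640
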