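import Pool.Statements.S01712
-- import your own Pool.Agent.* helpers here

set_option autoImplicit false
open Pool Pool.MP_63a718_al

namespace Pool.Agent.S01712

/-- The direct product of the Klein bottle group with the affine group `ℚ ⋊ ℤ`. -/
@[ext] structure KB where
  i : ℤ
  m : ℤ
  q : ℚ
  k : ℤ

def sg (m : ℤ) : ℤ := if Even m then 1 else -1

theorem sg_add (m n : ℤ) : sg (m + n) = sg m * sg n := by
  unfold sg
  by_cases h1 : Even m <;> by_cases h2 : Even n <;> simp [h1, h2, Int.even_add]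

theorem sg_neg (m : ℤ) : sg (-m) = sg m := by simp [sg]
theorem sg_zero : sg 0 = 1 := by simp [sg]
theorem sg_sq (m : ℤ) : sg m * sg m = 1 := by
  unfold sg
  split_ifs <;> simp

instance : Mul KB := ⟨fun a b => ⟨a.i + sg a.m * b.i, a.m + b.m, a.q + 2 ^ a.k * b.q, a.k + b.k⟩⟩
instance : One KB := ⟨⟨0, 0, 0, 0⟩⟩
instance : Inv KB := ⟨fun a => ⟨-(sg a.m * a.i), -a.m, -(2 ^ (-a.k) * a.q), -a.k⟩⟩

@[simp] theorem mul_i (a b : KB) : (a * b).i = a.i + sg a.m * b.i := rfl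
@[simp] theorem mul_m (a b : KB) : (a * b).m = a.m + b.m := rfl
@[simp] theorem mul_q (a b : KB) : (a * b).q = a.q + 2 ^ a.k * b.q := rfl
@[simp] theorem mul_k (a b : KB) : (a * b).k = a.k + b.k := rfl
@[simp] theorem one_i : (1 : KB).i = 0 := rfl
@[simp] theorem one_m : (1 : KB).m = 0 := rfl
@[simp] theorem one_q : (1 : KB).q = 0 := rfl
@[simp] theorem one_k : (1 : KB).k = 0 := rfl
@[simp] theorem inv_i (a : KB) : (a⁻¹).i = -(sg a.m * a.i) := rfl
@[simp] theorem inv_m (a : KB) : (a⁻¹).m = -a.m := rfl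
@[simp] theorem inv_q (a : KB) : (a⁻¹).q = -(2 ^ (-a.k) * a.q) := rfl
@[simp] theorem inv_k (a : KB) : (a⁻¹).k = -a.k := rfl

instance : Group KB := Group.ofLeftAxioms
  (fun a b c => by
    ext
    · simp only [mul_i, mul_m, sg_add]
      ring
    · simp only [mul_m]
      ring
    · simp only [mul_q, mul_k, zpow_add₀ (two_ne_zero : (2 : ℚ) ≠ 0)]
      ring
    · simp only [mul_k]
      ring)
  (fun a => by ext <;> simp [sg_zero])
  (fun a => by ext <;> simp [sg_neg])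

/-- Rationals with odd denominator. -/
def OD (q : ℚ) : Prop := ∃ d z : ℤ, Odd d ∧ q * d = z

theorem OD.add {p q : ℚ} (hp : OD p) (hq : OD q) : OD (p + q) := by
  obtain ⟨d, z, h1, h2⟩ := hp
  obtain ⟨d', z', h1', h2'⟩ := hq
  refine ⟨d * d', z * d' + z' * d, h1.mul h1', ?_⟩
  push_cast
  rw [← h2, ← h2']
  ring

theorem OD.neg {p : ℚ} (hp : OD p) : OD (-p) := by
  obtain ⟨d, z, h1, h2⟩ := hp
  refine ⟨d, -z, h1, ?_⟩
  push_cast
  rw [← h2]
  ring

theorem OD.pow {p : ℚ} (hp : OD p) {k : ℤ} (hk : 0 ≤ k) : OD (2 ^ k * p) := by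
  obtain ⟨d, z, h1, h2⟩ := hp
  obtain ⟨n, rfl⟩ := Int.eq_ofNat_of_zero_le hk
  refine ⟨d, 2 ^ n * z, h1, ?_⟩
  push_cast
  rw [← h2, zpow_natCast]
  ring

theorem od_int (z : ℤ) : OD z := ⟨1, z, odd_one, by simp⟩

theorem od_exists (p : ℚ) : ∃ n : ℤ, ∀ k, n ≤ k → OD (2 ^ k * p) := by
  obtain ⟨n, d, hd, e⟩ := Nat.exists_eq_two_pow_mul_odd p.den_nz
  refine ⟨n, fun k hk => ?_⟩
  have h1 : OD (2 ^ (n : ℤ) * p) := by
    refine ⟨d, p.num, by exact_mod_cast hd, ?_⟩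
    have h2 : p * p.den = p.num := Rat.mul_den_eq_num p
    rw [← h2, e, zpow_natCast]
    push_cast
    ring
  have h2 := h1.pow (k := k - n) (by omega)
  rwa [← mul_assoc, ← zpow_add₀ (two_ne_zero : (2 : ℚ) ≠ 0), sub_add_cancel] at h2

theorem OD.even {q : ℚ} (hq : OD q) {m : ℤ} (h : (m : ℚ) = 2 * q) : sg m = 1 := by
  obtain ⟨d, z, h1, h2⟩ := hq
  have h3 : ((m * d : ℤ) : ℚ) = ((2 * z : ℤ) : ℚ) := by
    push_cast
    rw [h, ← h2]
    ring
  have h4 : m * d = 2 * z := by exact_mod_cast h3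
  have h5 : Even (m * d) := h4 ▸ even_two_mul z
  rcases Int.even_mul.1 h5 with h6 | h6
  · simp [sg, h6]
  · exact absurd h6 (Int.not_even_iff_odd.2 h1)

/-- The positive cone. -/
def P (g : KB) : Prop := OD g.q ∧ (0 < g.k ∨ (g.k = 0 ∧ (2 * g.q < g.m ∨
  ((g.m : ℚ) = 2 * g.q ∧ (0 < g.i ∨ (g.i = 0 ∧ 0 ≤ g.m))))))

theorem P_one : P 1 := ⟨by simpa using od_int 0, by simp⟩

theorem P_mul {a b : KB} (ha : P a) (hb : P b) : P (a * b) := by
  obtain ⟨oa, ha⟩ := ha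
  obtain ⟨ob, hb⟩ := hb
  have ka : 0 ≤ a.k := by omega
  have kb : 0 ≤ b.k := by omega
  refine ⟨oa.add (ob.pow ka), ?_⟩
  simp only [mul_i, mul_m, mul_q, mul_k]
  rcases ha with ha | ⟨ha0, ha⟩
  · left; omega
  rcases hb with hb | ⟨hb0, hb⟩
  · left; omega
  right
  refine ⟨by omega, ?_⟩
  rw [ha0, zpow_zero, one_mul]
  push_cast
  rcases ha with ha | ⟨ha1, ha⟩
  · left
    rcases hb with hb | ⟨hb1, -⟩ <;> linarith
  rcases hb with hb | ⟨hb1, hb⟩
  · left; linarith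
  right
  refine ⟨by linarith, ?_⟩
  rw [oa.even ha1]
  omega

theorem P_anti {a : KB} (ha : P a) (hb : P a⁻¹) : a = 1 := by
  obtain ⟨oa, ha⟩ := ha
  obtain ⟨-, hb⟩ := hb
  simp only [inv_i, inv_m, inv_q, inv_k] at hb
  have k0 : a.k = 0 := by omega
  rw [k0] at ha hb
  simp only [lt_irrefl, neg_zero, zpow_zero, one_mul, false_or, true_and] at ha hb
  push_cast at hb
  have h1 : (a.m : ℚ) = 2 * a.q := by
    rcases ha with ha | ⟨ha, -⟩
    · rcases hb with hb | ⟨hb, -⟩ <;> linarith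
    · exact ha
  rcases ha with ha | ⟨-, ha⟩
  · linarith
  rcases hb with hb | ⟨-, hb⟩
  · linarith
  rw [oa.even h1] at hb
  have h2 : a.i = 0 := by omega
  have h3 : a.m = 0 := by omega
  have h4 : a.q = 0 := by
    rw [h3] at h1
    push_cast at h1
    linarith
  ext <;> simp [h2, h3, h4, k0]

theorem P_total {a : KB} (oa : OD a.q) (k0 : a.k = 0) : P a ∨ P a⁻¹ := by
  have ob : OD (a⁻¹).q := by
    simp only [inv_q, k0, neg_zero, zpow_zero, one_mul]
    exact oa.neg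
  rcases lt_trichotomy (2 * a.q) a.m with h | h | h
  · exact Or.inl ⟨oa, Or.inr ⟨k0, Or.inl h⟩⟩
  · have hs := oa.even h.symm
    by_cases h1 : 0 < a.i ∨ (a.i = 0 ∧ 0 ≤ a.m)
    · exact Or.inl ⟨oa, Or.inr ⟨k0, Or.inr ⟨h.symm, h1⟩⟩⟩
    · refine Or.inr ⟨ob, Or.inr ⟨by simp [k0], Or.inr ⟨?_, ?_⟩⟩⟩
      · simp only [inv_q, inv_m, k0, neg_zero, zpow_zero, one_mul]
        push_cast
        linarith
      · simp only [inv_i, inv_m, hs]
        omega
  · refine Or.inr ⟨ob, Or.inr ⟨by simp [k0], Or.inl ?_⟩⟩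
    simp only [inv_q, inv_m, k0, neg_zero, zpow_zero, one_mul]
    push_cast
    linarith

theorem od_div {a b : KB} (oa : OD a.q) (ob : OD b.q) (h : a.k ≤ b.k) : OD (b * a⁻¹).q := by
  simp only [mul_q, inv_q]
  have := (oa.pow (k := b.k + -a.k) (by omega)).neg
  rw [zpow_add₀ (two_ne_zero : (2 : ℚ) ≠ 0)] at this
  have e : (2 : ℚ) ^ b.k * -(2 ^ (-a.k) * a.q) = -(2 ^ b.k * 2 ^ (-a.k) * a.q) := by ring
  rw [e]
  exact ob.add this

theorem P_chain {a b : KB} (ha : P a) (hb : P b) : P (b * a⁻¹) ∨ P (a * b⁻¹) := by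
  rcases lt_trichotomy a.k b.k with h | h | h
  · exact Or.inl ⟨od_div ha.1 hb.1 h.le, Or.inl (by simp only [mul_k, inv_k]; omega)⟩
  · have := P_total (od_div ha.1 hb.1 h.le) (by simp only [mul_k, inv_k]; omega)
    simpa using this
  · exact Or.inr ⟨od_div hb.1 ha.1 h.le, Or.inl (by simp only [mul_k, inv_k]; omega)⟩

theorem P_dir (a : KB) : ∃ n : ℤ, ∀ k, n ≤ k → P (⟨0, 0, 0, k⟩ * a⁻¹) := by
  obtain ⟨n, hn⟩ := od_exists (a⁻¹).q
  refine ⟨max n (a.k + 1), fun k hk => ⟨?_, Or.inl ?_⟩⟩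
  · simp only [mul_q, zero_add]
    exact hn k (le_trans (le_max_left _ _) hk)
  · have := le_trans (le_max_right _ _) hk
    simp only [mul_k, inv_k]
    omega

theorem result :
    ¬ (∀ (G : Type) [Group G] (r : G → G → Prop),
      (∀ a : G, r a a) →
      (∀ a b : G, r a b → r b a → a = b) →
      (∀ a b c : G, r a b → r b c → r a c) →
      (∀ a b c : G, r a b → r (a * c) (b * c)) →
      (∀ a b : G, ∃ c : G, r a c ∧ r b c) →
      (∀ a b : G, r 1 a → r 1 b → r a b ∨ r b a) →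
      ∃ s : G → G → Prop,
        (∀ a : G, s a a) ∧
        (∀ a b : G, s a b → s b a → a = b) ∧
        (∀ a b c : G, s a b → s b c → s a c) ∧
        (∀ a b : G, s a b ∨ s b a) ∧
        (∀ a b c : G, s a b → s (a * c) (b * c)) ∧
        (∀ a b : G, r a b → s a b)) := by
  intro h
  obtain ⟨s, -, anti, trans, total, inv, ext⟩ := h KB (fun a b => P (b * a⁻¹))
    (fun a => by simpa using P_one)
    (fun a b h1 h2 => by
      have := P_anti h1 (by simpa using h2)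
      exact (mul_inv_eq_one.1 this).symm)
    (fun a b c h1 h2 => by simpa [mul_assoc] using P_mul h2 h1)
    (fun a b c h1 => by simpa [mul_assoc] using h1)
    (fun a b => by
      obtain ⟨n, hn⟩ := P_dir a
      obtain ⟨n', hn'⟩ := P_dir b
      exact ⟨⟨0, 0, 0, max n n'⟩, hn _ (le_max_left _ _), hn' _ (le_max_right _ _)⟩)
    (fun a b h1 h2 => P_chain (by simpa using h1) (by simpa using h2))
  have hmul : ∀ x y : KB, s 1 x → s 1 y → s 1 (x * y) := fun x y hx hy =>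
    trans _ _ _ hy (by simpa using inv _ _ y hx)
  have hP : ∀ x : KB, P x → s 1 x := fun x hx => ext 1 x (by simpa using hx)
  have hone : ∀ x y : KB, s 1 x → s 1 y → x * y = 1 → y = 1 := fun x y hx hy e => by
    have := inv _ _ y hx
    rw [e, one_mul] at this
    exact anti _ _ this hy
  have pa : s 1 ⟨1, 0, 0, 0⟩ := hP _ ⟨by simpa using od_int 0, by simp⟩
  have pb : s 1 ⟨1, 2, 1, 0⟩ := hP _ ⟨by simpa using od_int 1, by simp⟩
  have pc : s 1 ⟨1, -2, -1, 0⟩ := hP _ ⟨by simpa using od_int (-1), by simp⟩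
  have s1 : sg 1 = -1 := by decide
  have s2 : sg (-1) = -1 := by decide
  have s0 : sg 0 = 1 := by decide
  have hne : (⟨1, 0, 0, 0⟩ : KB) ≠ 1 := fun e => by
    have := congrArg KB.i e
    simp at this
  rcases total 1 ⟨0, 1, 1 / 2, 0⟩ with hb | hb
  · apply hne
    apply hone _ _ (hmul _ _ (hmul _ _ hb pc) hb) pa
    ext <;> norm_num [s1, s2, s0]
  · have hb' : s 1 ⟨0, -1, -1 / 2, 0⟩ := by
      have := inv _ _ ⟨0, -1, -1 / 2, 0⟩ hb
      rw [one_mul] at this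
      convert this using 1
      ext <;> norm_num
    apply hne
    apply hone _ _ (hmul _ _ (hmul _ _ hb' pb) hb') pa
    ext <;> norm_num [s1, s2, s0]

end Pool.Agent.S01712
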