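import Pool.Statements.S01724
import Pool.Agent.H76.G2Syl

set_option autoImplicit false
open Pool Pool.MP_6441f0_al

namespace Pool.Agent.S01724


/-- The negation of the preceding statement: For every prime p and finite p-group G, if the set of dimensions of irreducible complex representations of G has exactly three elements and does not contain p, then G is metabelian (its second derived subgroup is trivial). -/
theorem result :
    ¬ (∀ (p : ℕ), p.Prime → ∀ (G : Type) [Group G] [Finite G], IsPGroup p G →
      ∀ S : Set ℕ,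
        S = {n : ℕ | ∃ (V : Type) (_ : AddCommGroup V) (_ : Module ℂ V)
              (_ : FiniteDimensional ℂ V) (ρ : Representation ℂ G V),
              Nontrivial V ∧
              (∀ W : Submodule ℂ V, (∀ g : G, ∀ v ∈ W, ρ g v ∈ W) → W = ⊥ ∨ W = ⊤) ∧
              Module.finrank ℂ V = n} →
        S.ncard = 3 → p ∉ S → derivedSeries G 2 = ⊥) := by
  intro H
  haveI : Fact (Nat.Prime 5) := ⟨by norm_num⟩
  let F := GaloisField 5 2
  letI : Fintype F := Fintype.ofFinite F
  have hc : Fintype.card F = 25 := by
    rw [← Nat.card_eq_fintype_card, GaloisField.card 5 2 (by norm_num)]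
    norm_num
  have hch : ∀ n : ℕ, ¬ 5 ∣ n → (n : F) ≠ 0 := fun n hn h =>
    hn ((CharP.cast_eq_zero_iff F 5 n).1 h)
  have h2 : (2 : F) ≠ 0 := by exact_mod_cast hch 2 (by norm_num)
  have h3 : (3 : F) ≠ 0 := by exact_mod_cast hch 3 (by norm_num)
  have h12 : (12 : F) ≠ 0 := by exact_mod_cast hch 12 (by norm_num)
  have hp : IsPGroup 5 (Pool.Agent.H76.G2Syl.U F) := by
    refine IsPGroup.of_card (n := 12) ?_
    rw [Pool.Agent.H76.G2Syl.card_U, Nat.card_eq_fintype_card, hc]
    norm_num
  refine Pool.Agent.H76.G2Syl.not_metab h12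
    (H 5 (by norm_num) _ hp _ (Pool.Agent.H76.G2Syl.main h2 h3).symm ?_ ?_)
  · rw [hc, Set.ncard_eq_three]
    exact ⟨1, 25, 25 ^ 2, by norm_num, by norm_num, by norm_num, rfl⟩
  · rw [hc]
    simp

end Pool.Agent.S01724
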