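import Pool.Statements.S01748
import Pool.Agent.H68.CentralQI

set_option autoImplicit false
open scoped Pointwise
open Pool Pool.MP_674247_al

namespace Pool.Agent.S01748

theorem result :
    ¬ (∃ (Z E G : Type) (_ : Group Z) (_ : Group E) (_ : Group G) (ι : Z →* E) (π : E →* G),
    Function.Injective ι ∧ Function.Surjective π ∧ ι.range = π.ker ∧
    ι.range ≤ Subgroup.center E ∧
    ∃ (SZ : Finset Z) (SE : Finset E) (SP : Finset (Z × G)),
      Subgroup.closure (SZ : Set Z) = ⊤ ∧ (1 : Z) ∈ SZ ∧ (∀ x ∈ SZ, x⁻¹ ∈ SZ) ∧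
      Subgroup.closure (SE : Set E) = ⊤ ∧ (1 : E) ∈ SE ∧ (∀ x ∈ SE, x⁻¹ ∈ SE) ∧
      Subgroup.closure (SP : Set (Z × G)) = ⊤ ∧ (1 : Z × G) ∈ SP ∧ (∀ x ∈ SP, x⁻¹ ∈ SP) ∧
      (∃ C : ℕ, ∀ (z : Z) (n : ℕ),
          ι z ∈ (SE : Set E) ^ n → z ∈ (SZ : Set Z) ^ (C * n + C)) ∧
      ¬ ∃ (f : Z × G → E) (C : ℕ), (∀ p : Z × G, π (f p) = p.2) ∧
          (∀ (p q : Z × G) (n : ℕ), p⁻¹ * q ∈ (SP : Set (Z × G)) ^ n →
              (f p)⁻¹ * f q ∈ (SE : Set E) ^ (C * n + C)) ∧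
          (∀ (p q : Z × G) (n : ℕ), (f p)⁻¹ * f q ∈ (SE : Set E) ^ n →
              p⁻¹ * q ∈ (SP : Set (Z × G)) ^ (C * n + C)) ∧
          (∀ e : E, ∃ p : Z × G, (f p)⁻¹ * e ∈ (SE : Set E) ^ C)) := by
  open Pool.Agent.H68.CentralQI in
  rintro ⟨Z, E, G, _, _, _, ι, π, hinj, hsurj, hker, hcen, SZ, SE, SP, hZ, -, -, hE, hE1, hEi,
    hP, hP1, hPi, ⟨C, hC⟩, hno⟩
  apply hno
  have hcen' : ∀ (z : Z) (e : E), e * ι z = ι z * e := fun z e =>
    Subgroup.mem_center_iff.1 (hcen ⟨z, rfl⟩) e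
  have hc : ∀ x y : Z, x * y = y * x := fun x y => hinj (by
    rw [map_mul, map_mul]; exact hcen' y (ι x))
  have hπι : ∀ z, π (ι z) = 1 := fun z => by
    have : ι z ∈ π.ker := hker ▸ ⟨z, rfl⟩
    exact this
  have hk : ∀ e, π e = 1 → ∃ z, ι z = e := fun e he => by
    have : e ∈ ι.range := hker ▸ he
    exact this
  obtain ⟨j, _, Λ, hΛ, hΛs, hΛf⟩ := coords Z hc SZ hZ
  have hm := fun i : j => mcshane ι SZ (SE : Set E) hE hEi C hC (fun z => Λ z i)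
    (fun x y => hΛ x y i)
  choose φ hφ hφK using hm
  choose K hK using hφK
  have hΛ1 : ∀ i, Λ 1 i = 0 := fun i => by have := hΛ 1 1 i; simp at this; exact this
  have hΛi : ∀ x i, Λ x⁻¹ i = - Λ x i := fun x i => by
    have := hΛ x x⁻¹ i; simp [hΛ1] at this; omega
  have hs : ∀ g : G, ∃ e : E, π e = g ∧ ∀ i, φ i e = 0 := by
    intro g
    obtain ⟨e, rfl⟩ := hsurj g
    obtain ⟨z, hz⟩ := hΛs (fun i => - φ i e)
    refine ⟨ι z * e, by simp [hπι], fun i => ?_⟩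
    rw [hφ, hz]; simp
  choose s hs1 hs2 using hs
  have hz : ∀ e : E, ∃ z, ι z * s (π e) = e := by
    intro e
    obtain ⟨z, hz⟩ := hk (e * (s (π e))⁻¹) (by simp [hs1])
    exact ⟨z, by rw [hz]; simp⟩
  choose ζ hζ using hz
  have hζΛ : ∀ e i, Λ (ζ e) i = φ i e := by
    intro e i
    have := hφ i (ζ e) (s (π e))
    rw [hζ, hs2] at this; omega
  let f : Z × G → E := fun p => ι p.1 * s p.2
  let h : E → Z × G := fun e => (ζ e, π e)
  have hfh : ∀ e, f (h e) = e := fun e => hζ e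
  have hπf : ∀ p, π (f p) = p.2 := fun p => by simp [f, hπι, hs1]
  have hhf : ∀ p, h (f p) = p := by
    intro p
    have h1 := hζ (f p)
    rw [hπf] at h1
    simp only [f] at h1
    have h2 : ζ (f p) = p.1 := hinj (mul_right_cancel h1)
    simp only [h, h2, hπf]
  obtain ⟨C1, hC1⟩ := lip SP (SE : Set E) hE hE1 hEi f (by
    intro p0
    apply ((hΛf (fun i => K i (s p0.2))).image (fun w => ι p0.1 * ι w * s p0.2)).subset
    rintro _ ⟨p, rfl⟩
    obtain ⟨w, hw⟩ := hk (s (p.2 * p0.2) * (s p.2 * s p0.2)⁻¹) (by simp [hs1])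
    have hw' : s (p.2 * p0.2) = ι w * (s p.2 * s p0.2) := by rw [hw]; group
    refine ⟨w, fun i => ?_, ?_⟩
    · have h1 := hφ i w (s p.2 * s p0.2)
      rw [← hw', hs2] at h1
      have h2 := hK i (s p0.2) (s p.2)
      rw [hs2] at h2
      rw [abs_le] at h2 ⊢
      constructor <;> omega
    · simp only [f, Prod.fst_mul, Prod.snd_mul, map_mul, hw', mul_inv_rev]
      have h3 := hcen' (p0.1 * w) (s p.2)⁻¹
      rw [map_mul] at h3
      calc ι p0.1 * ι w * s p0.2 = (ι p0.1 * ι w * (s p.2)⁻¹) * s p.2 * s p0.2 := by group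
        _ = ((s p.2)⁻¹ * (ι p0.1 * ι w)) * s p.2 * s p0.2 := by rw [h3]
        _ = _ := by group)
  obtain ⟨C2, hC2⟩ := lip SE (SP : Set (Z × G)) hP hP1 hPi h (by
    intro e0
    apply ((hΛf (fun i => K i e0)).image (fun w => (w, π e0))).subset
    rintro _ ⟨e, rfl⟩
    refine ⟨(ζ e)⁻¹ * ζ (e * e0), fun i => ?_, ?_⟩
    · rw [hΛ, hΛi, hζΛ, hζΛ]
      have h2 := hK i e0 e
      rw [abs_le] at h2 ⊢
      constructor <;> omega
    · simp [h])
  refine ⟨f, C1 + C2, hπf, fun p q n hn => ?_, fun p q n hn => ?_, fun e => ⟨h e, ?_⟩⟩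
  · exact Set.pow_subset_pow_right hE1 (by nlinarith) (hC1 n p q hn)
  · have := hC2 n (f p) (f q) hn
    rw [hhf, hhf] at this
    exact Set.pow_subset_pow_right hP1 (by nlinarith) this
  · rw [hfh, inv_mul_cancel]; exact Set.one_mem_pow hE1

end Pool.Agent.S01748
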