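import Pool.Statements.S01752
import Pool.Agent.H72.Leib

set_option autoImplicit false
open Pool Pool.MP_675cf2_al

namespace Pool.Agent.S01752

/-- The negation of the preceding statement: For every n ≥ 2, every irreducible component (Zariski topology on structure constants) of the variety of n-dimensional complex left Leibniz algebras contains an algebra that is not nilpotent. -/
theorem result :
    ¬ (∀ n : ℕ, 2 ≤ n →
  ∀ μ : (Fin n × Fin n × Fin n → ℂ) → (Fin n → ℂ) → (Fin n → ℂ) → (Fin n → ℂ),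
    (∀ c u v, μ c u v = fun k => ∑ i : Fin n, ∑ j : Fin n, u i * v j * c (i, j, k)) →
  ∀ IsClosedZ : Set (Fin n × Fin n × Fin n → ℂ) → Prop,
    (∀ Z, IsClosedZ Z ↔ ∃ S : Set (MvPolynomial (Fin n × Fin n × Fin n) ℂ),
        Z = {c | ∀ p ∈ S, MvPolynomial.eval c p = 0}) →
  ∀ IsIrrZ : Set (Fin n × Fin n × Fin n → ℂ) → Prop,
    (∀ Z, IsIrrZ Z ↔ (IsClosedZ Z ∧ Z.Nonempty ∧
        ∀ A B : Set (Fin n × Fin n × Fin n → ℂ), IsClosedZ A → IsClosedZ B →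
          Z ⊆ A ∪ B → (Z ⊆ A ∨ Z ⊆ B))) →
  ∀ Z : Set (Fin n × Fin n × Fin n → ℂ), IsIrrZ Z →
    (∀ c ∈ Z, ∀ u v w : Fin n → ℂ,
        μ c u (μ c v w) = μ c (μ c u v) w + μ c v (μ c u w)) →
    (∀ Z' : Set (Fin n × Fin n × Fin n → ℂ), IsIrrZ Z' → Z ⊆ Z' →
        (∀ c ∈ Z', ∀ u v w : Fin n → ℂ,
          μ c u (μ c v w) = μ c (μ c u v) w + μ c v (μ c u w)) → Z' = Z) →
    ∃ c ∈ Z, ¬ ∃ V : ℕ → Submodule ℂ (Fin n → ℂ),
        Monotone V ∧ V 0 = ⊥ ∧ (∃ m : ℕ, V m = ⊤) ∧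
        ∀ (k : ℕ) (u v : Fin n → ℂ), v ∈ V (k + 1) →
          (μ c u v ∈ V k ∧ μ c v u ∈ V k)) := by
  intro H
  obtain ⟨Z, hI, hL, hM, hN⟩ := H72.Leib.final
  obtain ⟨c, hc, hn⟩ := H 6 (by norm_num) H72.Leib.mu (fun _ _ _ => rfl) H72.Leib.Cl
    (fun _ => Iff.rfl) H72.Leib.Irr (fun _ => Iff.rfl) Z hI hL hM
  exact hn (H72.Leib.nil_chain c (hN c hc))

end Pool.Agent.S01752
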