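import Pool.Statements.S01768
import Pool.Agent.H52.AP1

set_option autoImplicit false
open Pool Pool.MP_689b4c_al

namespace Pool.Agent.S01768

/-- The negation of the preceding statement: Every finitely generated group with a normal abelian subgroup whose quotient is polycyclic has solvable conjugacy problem: deciding if two words in any finite generating set give conjugate elements is computable. -/
theorem result :
    ¬ (∀ (G : Type) [Group G] (A : Subgroup G) [A.Normal],
      (∀ x ∈ A, ∀ y ∈ A, x * y = y * x) →
      IsSolvable (G ⧸ A) →
      (∀ H : Subgroup (G ⧸ A), H.FG) →
      ∀ (n : ℕ) (f : FreeGroup (Fin n) →* G), Function.Surjective f →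
        ComputablePred (fun p : List (Fin n × Bool) × List (Fin n × Bool) =>
          IsConj (f (FreeGroup.mk p.1)) (f (FreeGroup.mk p.2)))) := by
  exact Pool.Agent.H52.AP.main

end Pool.Agent.S01768
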