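import Pool.Statements.S01782
import Pool.Agent.H73.Engel3

set_option autoImplicit false
open Pool Pool.MP_698b85_al

namespace Pool.Agent.S01782

/-- The negation of the preceding statement: For every k ≥ 1 and group G: if every infinite subset has distinct x,y with [x,_k y]=[y,_k x]=1, then every infinite subset has distinct x,y generating a k-Engel subgroup. -/
theorem result :
    ¬ (∀ k : ℕ, 1 ≤ k → ∀ (G : Type) [Group G],
      (∀ S : Set G, S.Infinite →
        ∃ x ∈ S, ∃ y ∈ S, x ≠ y ∧
          (fun z => z⁻¹ * y⁻¹ * z * y)^[k] x = 1 ∧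
          (fun z => z⁻¹ * x⁻¹ * z * x)^[k] y = 1) →
      (∀ S : Set G, S.Infinite →
        ∃ x ∈ S, ∃ y ∈ S, x ≠ y ∧
          ∀ a ∈ Subgroup.closure ({x, y} : Set G),
            ∀ b ∈ Subgroup.closure ({x, y} : Set G),
              (fun z => z⁻¹ * b⁻¹ * z * b)^[k] a = 1)) :=
  Pool.Agent.H73.Engel3.main

end Pool.Agent.S01782
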