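import Pool.Statements.S01806
import Pool.Agent.H68.Lp1

set_option autoImplicit false
open Pool Pool.MP_6b3431_al Pool.Agent.H68.Lp

namespace Pool.Agent.S01806

theorem result :
    ¬ (∀ (Fit : ((G : Type) → [Group G] → Prop) → Prop)
    (Prod : ((G : Type) → [Group G] → Prop) → ((G : Type) → [Group G] → Prop) →
      (G : Type) → [Group G] → Prop)
    (Loc : ((G : Type) → [Group G] → Prop) → Prop),
  (∀ C : (G : Type) → [Group G] → Prop, Fit C ↔
      ((∀ (G K : Type) [Group G] [Group K], Nonempty (G ≃* K) → C G → C K) ∧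
       (∀ (G : Type) [Group G] [Finite G] (N : Subgroup G), N.Normal → C G → C ↥N) ∧
       (∀ (G : Type) [Group G] [Finite G] (N K : Subgroup G),
          N.Normal → K.Normal → C ↥N → C ↥K → C ↥(N ⊔ K)))) →
  (∀ (C D : (G : Type) → [Group G] → Prop) (G : Type) [Group G], Prod C D G ↔
      ∀ (N : Subgroup G) [N.Normal],
        (C ↥N ∧ ∀ K : Subgroup G, K.Normal → C ↥K → K ≤ N) → D (G ⧸ N)) →
  (∀ C : (G : Type) → [Group G] → Prop, Loc C ↔
      ∃ f : ℕ → ((G : Type) → [Group G] → Prop), (∀ p, Fit (f p)) ∧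
        ∀ (G : Type) [Group G] [Finite G], C G ↔
          ((∀ p : ℕ, p.Prime → p ∣ Nat.card G →
              ∃ (K : Type) (_ : Group K) (_ : Finite K), f p K) ∧
           ∀ p : ℕ, p.Prime → (∃ (K : Type) (_ : Group K) (_ : Finite K), f p K) →
             Prod (f p)
               (fun (Q : Type) [Group Q] =>
                 ∃ P : Subgroup Q, P.Normal ∧ IsPGroup p ↥P ∧ Nat.Coprime P.index p) G)) →
  ∀ (F M H : (G : Type) → [Group G] → Prop) (G₀ : Type) [Group G₀] [Finite G₀],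
    Fit M → Fit H → (∃ (K : Type) (_ : Group K) (_ : Finite K), M K) →
    Loc F → F G₀ →
    (∀ C : (G : Type) → [Group G] → Prop, Loc C → C G₀ →
      ∀ (G : Type) [Group G] [Finite G], F G → C G) →
    (∀ (G : Type) [Group G] [Finite G], F G → IsSolvable G) →
    (∀ (G : Type) [Group G] [Finite G], F G ↔ Prod M H G) →
    (∃ (G : Type) (_ : Group G) (_ : Finite G), ¬ (M G ↔ F G)) →
    Loc H) := by
  intro h
  exact main (h Ft Pd Lc (fun _ => Iff.rfl) (fun _ _ _ _ => Iff.rfl) (fun _ => Iff.rfl)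
    NN (fun G _ => IsPGroup 3 G) HH S3 pg_ft hh_ft
    ⟨Unit, _, inferInstance, IsPGroup.of_subsingleton _ _⟩ nn_lc nn_s3
    (fun C ⟨g, hg, hC⟩ a G _ _ b => (hC G).2 (lr_of hg nn_s3 (t := .sr 0) (a := .r 1)
      ⟨1, by decide⟩ ⟨1, by decide⟩ (by decide) ((hC S3).1 a) b))
    (fun _ _ _ a => a.sol) (fun _ _ _ => nn_pd)
    ⟨S3, _, inferInstance, fun e => absurd (pe_two (e.2 nn_s3 (.sr 0)) ⟨1, by decide⟩) (by decide)⟩)

end Pool.Agent.S01806
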