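import Pool.Statements.S01854
import Pool.Agent.H77.RestrZD

set_option autoImplicit false
open Pool Pool.MP_6f8178_al

namespace Pool.Agent.S01854

/-- The negation of the preceding statement: For a restricted Lie algebra L over a field of characteristic p where no nonzero element has linearly dependent iterates x, x^[p], x^[p²], …, the restricted enveloping algebra U(L)/(x^p − x^[p]) has no zero divisors. -/
theorem result :
    ¬ (∀ (p : ℕ) [Fact p.Prime] (k : Type) [Field k] [CharP k p]
      (L : Type) [LieRing L] [LieAlgebra k L] (pmap : L → L),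
      (∃ (A : Type) (_ : Ring A) (_ : Algebra k A) (f : L →ₗ[k] A),
          Function.Injective f ∧
          (∀ x y : L, f ⁅x, y⁆ = f x * f y - f y * f x) ∧
          ∀ x : L, f (pmap x) = (f x) ^ p) →
      (∀ x : L, x ≠ 0 → LinearIndependent k (fun n : ℕ => pmap^[n] x)) →
      NoZeroDivisors (RingQuot (fun a b : UniversalEnvelopingAlgebra k L =>
        ∃ x : L, a = (UniversalEnvelopingAlgebra.ι k x) ^ p ∧
          b = UniversalEnvelopingAlgebra.ι k (pmap x)))) := by
  exact Pool.Agent.H77.RestrZD.final

end Pool.Agent.S01854
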