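import Pool.Statements.S01864
import Pool.Agent.H48.RAlt

set_option autoImplicit false
open Pool Pool.MP_702bfb_al

namespace Pool.Agent.S01864

/-- The negation of the preceding statement: Every finitely generated ring with (xy)y = x(yy) in which some fixed right power x^N vanishes for all x has a derived series (R, R², products of squares, …) that reaches zero after finitely many steps. -/
theorem result :
    ¬ (∀ (R : Type) [NonUnitalNonAssocRing R],
      (∀ x y : R, (x * y) * y = x * (y * y)) →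
      (∃ s : Finset R, NonUnitalSubring.closure (s : Set R) = ⊤) →
      (∃ n : ℕ, ∀ x : R, (fun y => y * x)^[n] x = 0) →
      ∃ D : ℕ → AddSubgroup R,
        D 0 = ⊤ ∧
        (∀ k : ℕ, D (k + 1) =
          AddSubgroup.closure {z : R | ∃ a ∈ D k, ∃ b ∈ D k, z = a * b}) ∧
        ∃ m : ℕ, D m = ⊥) := by
  intro h
  obtain ⟨D, h0, hs, m, hm⟩ := h Pool.Agent.H48.RAlt.G
    (fun x y => Subtype.ext (Pool.Agent.H48.RAlt.right_alt x y (Pool.Agent.H48.RAlt.G_le y.2)))
    Pool.Agent.H48.RAlt.G_fg
    ⟨3, fun x => Subtype.ext (Pool.Agent.H48.RAlt.nil4 x (Pool.Agent.H48.RAlt.G_le x.2))⟩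
  obtain ⟨z, hz, e⟩ := Pool.Agent.H48.RAlt.derived D h0 hs m 0
  rw [hm, AddSubgroup.mem_bot] at hz
  rw [hz] at e
  exact Pool.Agent.H48.BinLie.P_ne m (congrArg Pool.Agent.H48.RAlt.A0.c e).symm

end Pool.Agent.S01864
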