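import Pool.Statements.S01870
import Pool.Agent.H67.NuLoop

set_option autoImplicit false
open Pool Pool.MP_70593a_al

namespace Pool.Agent.S01870

/-- The negation of the preceding statement: If a relation R on a set contains a finite smooth digraph with a closed walk of algebraic length 1, and R is preserved by a near-unanimity operation of arity at least 3, then R contains a loop (a,a). -/
theorem result :
    ¬ (∀ (A : Type) (R : A → A → Prop) (S : Finset (A × A)),
      (∀ p ∈ S, R p.1 p.2) →
      (∀ p ∈ S, (∃ q ∈ S, q.2 = p.1) ∧ (∃ q ∈ S, q.1 = p.2)) →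
      (∃ (k : ℕ) (v : ℕ → A) (e : ℕ → ℤ), v k = v 0 ∧
        (∀ i < k, (e i = 1 ∧ (v i, v (i + 1)) ∈ S) ∨ (e i = -1 ∧ (v (i + 1), v i) ∈ S)) ∧
        ∑ i ∈ Finset.range k, e i = 1) →
      ∀ (n : ℕ) (f : (Fin n → A) → A), 3 ≤ n →
        (∀ (x y : A) (i : Fin n), f (Function.update (fun _ => x) i y) = x) →
        (∀ (x y : Fin n → A), (∀ i, R (x i) (y i)) → R (f x) (f y)) →
        ∃ a : A, R a a) := by
  intro H
  obtain ⟨G, h1, h2, h3⟩ := H67.NUL.exists_G'
  let A := {x : ℚ × ℚ // x.1 ≠ x.2}
  let a : A := ⟨(0, 1), by norm_num⟩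
  let a' : A := ⟨(1, 0), by norm_num⟩
  let u : A := ⟨(2, 3), by norm_num⟩
  let u' : A := ⟨(3, 2), by norm_num⟩
  classical
  obtain ⟨x, hx⟩ := H A (fun x y => x.1 ≤ y.1.swap) {(a, a'), (a', a), (u, u'), (u', u), (a, u), (a', u)}
    (by
      simp only [Finset.mem_insert, Finset.mem_singleton]
      rintro p (rfl | rfl | rfl | rfl | rfl | rfl) <;> constructor <;> norm_num [a, a', u, u'])
    (by
      simp only [Finset.mem_insert, Finset.mem_singleton]
      rintro p (rfl | rfl | rfl | rfl | rfl | rfl) <;> simp)
    ⟨3, fun i => if i = 1 then a' else if i = 2 then u else a, fun i => if i = 2 then -1 else 1, rfl,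
      fun i hi => by
        have : i = 0 ∨ i = 1 ∨ i = 2 := by omega
        rcases this with rfl | rfl | rfl <;> simp, by decide⟩
    5 (fun p => ⟨(G fun i => (p i).1, G (H67.NUL.sw fun i => (p i).1)), h3 _ fun i => (p i).2⟩)
    (by norm_num)
    (fun x y i => by
      have e : (fun j => (Function.update (fun _ => x) i y j).1) =
          Function.update (fun _ : Fin 5 => x.1) i y.1 := by
        funext j
        by_cases h : j = i
        · subst h; simp
        · simp [h]
      have e' : H67.NUL.sw (Function.update (fun _ : Fin 5 => x.1) i y.1) =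
          Function.update (fun _ : Fin 5 => x.1.swap) i y.1.swap := by
        funext j
        by_cases h : j = i
        · subst h; simp [H67.NUL.sw]
        · simp [H67.NUL.sw, h]
      apply Subtype.ext
      simp only [e, e', h2]
      rfl)
    (fun x y h => ⟨h1 fun i => h i, h1 fun i => ⟨(h i).2, (h i).1⟩⟩)
  exact x.2 (le_antisymm hx.1 hx.2)

end Pool.Agent.S01870
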