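import Pool.Statements.S01974
import Pool.Agent.H68.TreeMain

set_option autoImplicit false
open Pool Pool.MP_77f213_al

namespace Pool.Agent.S01974

theorem result :
    ¬ (∀ (G X₀ X₁ : Type) [Group G] [MetricSpace X₀] [MetricSpace X₁]
      [ProperSpace X₀] [ProperSpace X₁] [Nonempty X₀] [Nonempty X₁]
      [MulAction G X₀] [MulAction G X₁] [IsIsometricSMul G X₀] [IsIsometricSMul G X₁]
      [ProperlyDiscontinuousSMul G X₀] [ProperlyDiscontinuousSMul G X₁],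
      (∀ x y : X₀, ∃ γ : ℝ → X₀, γ 0 = x ∧ γ (dist x y) = y ∧
        ∀ s ∈ Set.Icc (0:ℝ) (dist x y), ∀ t ∈ Set.Icc (0:ℝ) (dist x y),
          dist (γ s) (γ t) = |s - t|) →
      (∀ x y : X₁, ∃ γ : ℝ → X₁, γ 0 = x ∧ γ (dist x y) = y ∧
        ∀ s ∈ Set.Icc (0:ℝ) (dist x y), ∀ t ∈ Set.Icc (0:ℝ) (dist x y),
          dist (γ s) (γ t) = |s - t|) →
      (∃ K : Set X₀, IsCompact K ∧ ∀ x : X₀, ∃ g : G, g • x ∈ K) →
      (∃ K : Set X₁, IsCompact K ∧ ∀ x : X₁, ∃ g : G, g • x ∈ K) →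
      (∃ δ : ℝ, ∀ x y z w : X₀,
        min ((dist x w + dist y w - dist x y) / 2) ((dist y w + dist z w - dist y z) / 2) - δ
          ≤ (dist x w + dist z w - dist x z) / 2) →
      (∃ δ : ℝ, ∀ x y z w : X₁,
        min ((dist x w + dist y w - dist x y) / 2) ((dist y w + dist z w - dist y z) / 2) - δ
          ≤ (dist x w + dist z w - dist x z) / 2) →
      ∃ L : ℝ, 1 ≤ L ∧
        (∃ f : X₀ → X₁, ∃ c : ℝ,
          (∀ x y : X₀, dist x y / L - c ≤ dist (f x) (f y) ∧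
              dist (f x) (f y) ≤ L * dist x y + c) ∧
          ∀ z : X₁, ∃ x : X₀, dist (f x) z ≤ c) ∧
        ∀ L' : ℝ, 1 ≤ L' →
          (∃ f : X₀ → X₁, ∃ c : ℝ,
            (∀ x y : X₀, dist x y / L' - c ≤ dist (f x) (f y) ∧
                dist (f x) (f y) ≤ L' * dist x y + c) ∧
            ∀ z : X₁, ∃ x : X₀, dist (f x) z ≤ c) →
          L ≤ L') := by
  open Pool.Agent.H68 Pool.Agent.H68.TreeW in
  intro h
  obtain ⟨L, hL, ⟨f, c, hf, -⟩, hmin⟩ := h GG X0 X1 (Realize.geodesic nb (ex_nb 0) good)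
    (Realize.geodesic nb (ex_nb 0) good) (Realize.cocompact (root _) 1 cc4)
    (Realize.cocompact (root _) 1 cc3) (Realize.hyper hyp) (Realize.hyper hyp)
  rcases hL.eq_or_lt with rfl | hL
  · exact no_one f c hf
  · obtain ⟨L', h1, h2, h3⟩ := near_one L hL
    exact absurd (hmin L' h1 h3) (not_le.2 h2)

end Pool.Agent.S01974
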