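import Pool.Statements.S01976
import Pool.Agent.H66.Vfun

set_option autoImplicit false
open Pool Pool.MP_783016_al

namespace Pool.Agent.S01976

/-- The negation of the preceding statement: Let A be Noetherian, J ⊆ rad I, I not nilpotent, ⋂ Iⁿ = 0, J not nilpotent, and v(m) the largest n with Jᵐ ⊆ Iⁿ. Then some t > 0 satisfies v(m+1+t) − v(m+t) = v(m+1) − v(m) for all large m. -/
theorem result :
    ¬ (∀ (A : Type) [CommRing A] [IsNoetherianRing A] (I J : Ideal A),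
      J ≤ I.radical → (∀ n : ℕ, I ^ n ≠ ⊥) → (⨅ n : ℕ, I ^ n) = ⊥ →
      (∀ m : ℕ, J ^ m ≠ ⊥) →
      ∃ t : ℕ, 0 < t ∧ ∃ M : ℕ, ∀ m : ℕ, M ≤ m →
        ((sSup {n : ℕ | J ^ (m + 1 + t) ≤ I ^ n} : ℕ) : ℤ)
            - ((sSup {n : ℕ | J ^ (m + t) ≤ I ^ n} : ℕ) : ℤ)
          = ((sSup {n : ℕ | J ^ (m + 1) ≤ I ^ n} : ℕ) : ℤ)
            - ((sSup {n : ℕ | J ^ m ≤ I ^ n} : ℕ) : ℤ)) := by
  intro h
  have hIne : Pool.Agent.H66.Vfun.I ≠ ⊤ := by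
    intro ht
    have h1 : (1 : Pool.Agent.H66.Vfun.A) ∈ Pool.Agent.H66.Vfun.I ^ 1 := by
      rw [ht]; simp
    have := Pool.Agent.H66.Vfun.le_of_mem h1 0 (by simp)
    simp at this
  have hI0 : Pool.Agent.H66.Vfun.I ≠ ⊥ := by
    intro hb
    have h0 : (MvPolynomial.X 0 ^ 3 : Pool.Agent.H66.Vfun.A) ∈ Pool.Agent.H66.Vfun.I :=
      Ideal.subset_span (by simp)
    rw [hb, Ideal.mem_bot] at h0
    exact pow_ne_zero 3 (MvPolynomial.X_ne_zero _) h0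
  have hJ0 : Pool.Agent.H66.Vfun.J ≠ ⊥ := by
    rw [Pool.Agent.H66.Vfun.J, Ne, Ideal.span_singleton_eq_bot]
    intro hb
    have := congrArg (MvPolynomial.coeff (Finsupp.single 0 1)) hb
    simp [MvPolynomial.coeff_X', Finsupp.single_eq_single_iff] at this
  refine Pool.Agent.H66.Vfun.main (h Pool.Agent.H66.Vfun.A Pool.Agent.H66.Vfun.I
    Pool.Agent.H66.Vfun.J ?_ (fun n => pow_ne_zero n hI0)
    (Ideal.iInf_pow_eq_bot_of_isDomain _ hIne) (fun m => pow_ne_zero m hJ0))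
  have h4 := Pool.Agent.H66.Vfun.v_mem (4 ^ 1)
  have h5 := Pool.Agent.H66.Vfun.v_four 1
  intro x hx
  exact ⟨4 ^ 1, Ideal.pow_le_self (by omega) (h4 (Ideal.pow_mem_pow hx _))⟩

end Pool.Agent.S01976
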