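import Pool.Statements.S01994
import Pool.Agent.H64.FBI3

set_option autoImplicit false
open Pool Pool.MP_7925a1_al

namespace Pool.Agent.S01994

/-- The negation of the preceding statement: For every group G and finite-index subgroup H, if the laws of G are exactly the fully invariant closure in the free group of a finite set of words, then the same holds for the laws of H. -/
theorem result :
    ¬ (∀ (G : Type) [Group G] (H : Subgroup G), H.FiniteIndex →
      (∃ S : Finset (FreeGroup ℕ),
        {w : FreeGroup ℕ | ∀ f : FreeGroup ℕ →* G, f w = 1} =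
          ((Subgroup.closure
            {w : FreeGroup ℕ | ∃ s ∈ S, ∃ φ : FreeGroup ℕ →* FreeGroup ℕ, φ s = w}
            : Subgroup (FreeGroup ℕ)) : Set (FreeGroup ℕ))) →
      ∃ S : Finset (FreeGroup ℕ),
        {w : FreeGroup ℕ | ∀ f : FreeGroup ℕ →* H, f w = 1} =
          ((Subgroup.closure
            {w : FreeGroup ℕ | ∃ s ∈ S, ∃ φ : FreeGroup ℕ →* FreeGroup ℕ, φ s = w}
            : Subgroup (FreeGroup ℕ)) : Set (FreeGroup ℕ))) := by
  exact Pool.Agent.H64.FBI.final

end Pool.Agent.S01994
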