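import Pool.Statements.S02003
import Pool.Agent.H27.WA3

set_option autoImplicit false
open Pool Pool.MP_79a327_al

namespace Pool.Agent.S02003

/-- There is a group with a bi-invariant total order in which every weakly abelian bi-invariant partial order (a≥1 implies x⁻¹ax≤a²) extends to a weakly abelian total order, yet some bi-invariant partial order has no total extension. -/
theorem result :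
    ∃ (G : Type) (_ : Group G),
      (∃ P : Set G, (1 : G) ∈ P ∧ (∀ a ∈ P, ∀ b ∈ P, a * b ∈ P) ∧
        (∀ a ∈ P, a⁻¹ ∈ P → a = 1) ∧ (∀ a ∈ P, ∀ x : G, x⁻¹ * a * x ∈ P) ∧
        (∀ a : G, a ∈ P ∨ a⁻¹ ∈ P)) ∧
      (∀ P : Set G, (1 : G) ∈ P → (∀ a ∈ P, ∀ b ∈ P, a * b ∈ P) →
        (∀ a ∈ P, a⁻¹ ∈ P → a = 1) → (∀ a ∈ P, ∀ x : G, x⁻¹ * a * x ∈ P) →
        (∀ a ∈ P, ∀ x : G, (x⁻¹ * a * x)⁻¹ * a ^ 2 ∈ P) →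
        ∃ Q : Set G, P ⊆ Q ∧ (1 : G) ∈ Q ∧ (∀ a ∈ Q, ∀ b ∈ Q, a * b ∈ Q) ∧
          (∀ a ∈ Q, a⁻¹ ∈ Q → a = 1) ∧ (∀ a ∈ Q, ∀ x : G, x⁻¹ * a * x ∈ Q) ∧
          (∀ a : G, a ∈ Q ∨ a⁻¹ ∈ Q) ∧
          (∀ a ∈ Q, ∀ x : G, (x⁻¹ * a * x)⁻¹ * a ^ 2 ∈ Q)) ∧
      ¬ (∀ P : Set G, (1 : G) ∈ P → (∀ a ∈ P, ∀ b ∈ P, a * b ∈ P) →
        (∀ a ∈ P, a⁻¹ ∈ P → a = 1) → (∀ a ∈ P, ∀ x : G, x⁻¹ * a * x ∈ P) →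
        ∃ Q : Set G, P ⊆ Q ∧ (1 : G) ∈ Q ∧ (∀ a ∈ Q, ∀ b ∈ Q, a * b ∈ Q) ∧
          (∀ a ∈ Q, a⁻¹ ∈ Q → a = 1) ∧ (∀ a ∈ Q, ∀ x : G, x⁻¹ * a * x ∈ Q) ∧
          (∀ a : G, a ∈ Q ∨ a⁻¹ ∈ Q)) := by
  open Pool.Agent.H27.WA in
  refine ⟨GG, inferInstance, ?_, fun P h1 h2 h3 h4 h5 => ?_, fun h => ?_⟩
  · obtain ⟨P, hP, -, ht⟩ := total (P0 := {1}) ⟨rfl, by simp, by simp, by simp, by simp⟩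
    exact ⟨P, hP.one, hP.mul, hP.pure, hP.conj, ht⟩
  · obtain ⟨Q, hQ, h0, ht⟩ := total (P0 := P) ⟨h1, h2, h3, h4, h5⟩
    exact ⟨Q, h0, hQ.one, hQ.mul, hQ.pure, hQ.conj, ht, hQ.op⟩
  · obtain ⟨Q, a0, -, a1, a2, a3, a4⟩ := h P0 (Or.inl rfl) P0_mul P0_pure P0_conj
    exact not_ext Q a0 a1 a2 a3 a4

end Pool.Agent.S02003
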