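import Pool.Statements.S02012
-- import your own Pool.Agent.* helpers here

set_option autoImplicit false
open Pool Pool.MP_79f901_al

namespace Pool.Agent.S02012

def m (n : ℕ) : ℕ := if n = 0 then 3 else 2

abbrev V : Type := {l : List ℕ // ∀ i (h : i < l.length), l.get ⟨i, h⟩ < m i}

def Pref (g : Equiv.Perm V) : Prop := ∀ v w : V, v.1 <+: w.1 ↔ (g v).1 <+: (g w).1

def rl : List ℕ → List ℕ
  | a :: b :: w => ((a + 1 + b) % 3) :: b :: w
  | l => l

lemma rl_ok (v : V) : ∀ i (h : i < (rl v.1).length), (rl v.1).get ⟨i, h⟩ < m i := by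
  obtain ⟨l, hl⟩ := v
  match l, hl with
  | [], hl => exact hl
  | [a], hl => exact hl
  | a :: b :: w, hl =>
    intro i h
    cases i with
    | zero => exact Nat.mod_lt _ (by norm_num)
    | succ i => exact hl (i + 1) h

def r0 (v : V) : V := ⟨rl v.1, rl_ok v⟩

lemma r0_three (v : V) : r0 (r0 (r0 v)) = v := by
  obtain ⟨l, hl⟩ := v
  match l, hl with
  | [], hl => rfl
  | [a], hl => rfl
  | a :: b :: w, hl =>
    have ha : a < 3 := hl 0 (by simp)
    have hb : b < 2 := hl 1 (by simp)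
    apply Subtype.ext
    simp only [r0, rl, List.cons.injEq, and_true]
    omega

def rho : Equiv.Perm V := ⟨r0, fun v => r0 (r0 v), r0_three, r0_three⟩

lemma rho_len (v : V) : (rho v).1.length = v.1.length := by
  obtain ⟨l, hl⟩ := v
  match l, hl with
  | [], hl => rfl
  | [a], hl => rfl
  | a :: b :: w, hl => rfl

lemma rho_short (v : V) (h : v.1.length < 2) : rho v = v := by
  obtain ⟨l, hl⟩ := v
  match l, hl, h with
  | [], hl, _ => rfl
  | [a], hl, _ => rfl
  | a :: b :: w, hl, h => simp at h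

lemma rho_pref' (v w : V) (h : 2 ≤ v.1.length) (hp : v.1 <+: w.1) : (r0 v).1 <+: (r0 w).1 := by
  obtain ⟨l, hl⟩ := v
  obtain ⟨k, hk⟩ := w
  match l, hl, h, hp with
  | [], hl, h, _ => simp at h
  | [a], hl, h, _ => simp at h
  | a :: b :: w, hl, h, hp =>
    obtain ⟨s, rfl⟩ := hp
    exact ⟨s, rfl⟩

lemma rho_pref (v w : V) (h : 2 ≤ v.1.length) : v.1 <+: w.1 ↔ (rho v).1 <+: (rho w).1 := by
  refine ⟨rho_pref' v w h, fun hp => ?_⟩
  have h1 := rho_pref' (rho v) (rho w) (by rwa [rho_len]) hp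
  have h2 := rho_pref' (rho (rho v)) (rho (rho w)) (by rwa [rho_len, rho_len]) h1
  have e1 := r0_three v
  have e2 := r0_three w
  rw [← e1, ← e2]; exact h2

def L : Subgroup (Equiv.Perm V) where
  carrier := {g | Pref g ∧ (∀ v, (g v).1.length = v.1.length) ∧
    ∀ v : V, v.1.length = 2 → g (rho v) = rho (g v)}
  one_mem' := ⟨fun _ _ => Iff.rfl, fun _ => rfl, fun _ _ => rfl⟩
  mul_mem' := by
    rintro a b ⟨a1, a2, a3⟩ ⟨b1, b2, b3⟩
    refine ⟨fun v w => (b1 v w).trans (a1 _ _), fun v => (a2 _).trans (b2 v), fun v hv => ?_⟩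
    simp only [Equiv.Perm.mul_apply]
    rw [b3 v hv, a3 _ ((b2 v).trans hv)]
  inv_mem' := by
    rintro a ⟨a1, a2, a3⟩
    have hl : ∀ v, (a⁻¹ v).1.length = v.1.length := fun v => by
      rw [← a2 (a⁻¹ v)]; simp
    refine ⟨fun v w => ?_, hl, fun v hv => ?_⟩
    · rw [a1 (a⁻¹ v) (a⁻¹ w)]; simp
    · apply a.injective
      rw [a3 _ ((hl v).trans hv)]; simp

def tk (n : ℕ) (v : V) : V := ⟨v.1.take n, fun i h => by
  have := v.2 i (lt_of_lt_of_le h (List.length_take_le' _ _))
  simpa using this⟩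

lemma conj_mem {g : Equiv.Perm V} (hg : g ∈ L) : rho * g * rho⁻¹ ∈ L := by
  obtain ⟨a1, a2, a3⟩ := hg
  have hi : ∀ v, (rho⁻¹ v).1.length = v.1.length := fun v => by
    rw [← rho_len (rho⁻¹ v)]; simp
  have hl : ∀ v, ((rho * g * rho⁻¹) v).1.length = v.1.length := fun v => by
    simp only [Equiv.Perm.mul_apply]; rw [rho_len, a2, hi]
  have hs : ∀ v : V, v.1.length ≤ 2 → (rho * g * rho⁻¹) v = g v := fun v hv => by
    simp only [Equiv.Perm.mul_apply]
    rcases hv.lt_or_eq with hv | hv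
    · have : rho⁻¹ v = v := by rw [Equiv.Perm.inv_eq_iff_eq, rho_short v hv]
      rw [this, rho_short _ (by rwa [a2])]
    · rw [← a3 _ ((hi v).trans hv)]; simp
  have hp : ∀ v w : V, 2 ≤ v.1.length →
      (v.1 <+: w.1 ↔ ((rho * g * rho⁻¹) v).1 <+: ((rho * g * rho⁻¹) w).1) := fun v w hv => by
    simp only [Equiv.Perm.mul_apply]
    rw [← rho_pref _ _ (by rwa [a2, hi]), ← a1, rho_pref (rho⁻¹ v) _ (by rwa [hi])]
    simp
  refine ⟨fun v w => ?_, hl, fun v hv => ?_⟩
  · by_cases hv : 2 ≤ v.1.length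
    · exact hp v w hv
    · by_cases hw : w.1.length ≤ 2
      · rw [hs v (by omega), hs w hw]; exact a1 v w
      · have hu : (tk 2 w).1.length = 2 := by simp [tk]; omega
        have h1 : (tk 2 w).1 <+: w.1 := List.take_prefix _ _
        have h2 := (hp _ _ hu.ge).1 h1
        rw [hs _ hu.le] at h2
        rw [hs v (by omega)]
        constructor
        · intro h
          exact ((a1 _ _).1 (List.prefix_of_prefix_length_le h h1 (by omega))).trans h2
        · intro h
          exact ((a1 _ _).2 (List.prefix_of_prefix_length_le h h2 (by rw [a2, a2]; omega))).trans h1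
  · rw [hs _ (by rw [rho_len]; omega), hs v hv.le, a3 v hv]

lemma rho_cube : rho⁻¹ = rho * rho := Equiv.ext fun _ => rfl

def phi : L ≃* L where
  toFun g := ⟨rho * g * rho⁻¹, conj_mem g.2⟩
  invFun g := ⟨rho⁻¹ * g * rho, by
    have := conj_mem (conj_mem g.2)
    have e : rho * (rho * g * rho⁻¹) * rho⁻¹ = rho⁻¹ * g * rho := by
      have h2 : rho⁻¹ * rho⁻¹ = rho := by
        rw [← mul_inv_rev, ← rho_cube, inv_inv]
      calc _ = (rho * rho) * g * (rho⁻¹ * rho⁻¹) := by group
        _ = _ := by rw [h2, ← rho_cube]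
    rwa [e] at this⟩
  left_inv g := Subtype.ext (by simp [mul_assoc])
  right_inv g := Subtype.ext (by simp [mul_assoc])
  map_mul' a b := Subtype.ext (by simp [mul_assoc])

/-- letterwise automorphisms -/
def lw0 (e : ℕ → ℕ → ℕ) (he : ∀ i x, x < m i → e i x < m i) (v : V) : V :=
  ⟨v.1.mapIdx e, fun i h => by
    have := v.2 i (by simpa using h)
    simpa using he i _ (by simpa using this)⟩

lemma lw0_pref (e : ℕ → ℕ → ℕ) (he : ∀ i x, x < m i → e i x < m i) (v w : V) (h : v.1 <+: w.1) :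
    (lw0 e he v).1 <+: (lw0 e he w).1 := by
  obtain ⟨s, hs⟩ := h
  simp only [lw0, ← hs, List.mapIdx_append]
  exact List.prefix_append _ _

def lw (e : ℕ → Equiv.Perm ℕ) (he : ∀ i x, e i x < m i ↔ x < m i) : Equiv.Perm V where
  toFun := lw0 (fun i => e i) fun i x => (he i x).2
  invFun := lw0 (fun i => (e i).symm) fun i x h => (he i _).1 (by simpa using h)
  left_inv v := Subtype.ext (List.ext_getElem (by simp [lw0]) (by simp [lw0]))
  right_inv v := Subtype.ext (List.ext_getElem (by simp [lw0]) (by simp [lw0]))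

lemma lw_mem (e : ℕ → Equiv.Perm ℕ) (he : ∀ i x, e i x < m i ↔ x < m i)
    (h : ∀ a < 3, ∀ b < 2, e 0 ((a + 1 + b) % 3) = (e 0 a + 1 + e 1 b) % 3) : lw e he ∈ L := by
  refine ⟨fun v w => ⟨lw0_pref (fun i => e i) (fun i x => (he i x).2) v w, fun hp => ?_⟩, fun v => by simp [lw, lw0], fun v hv => ?_⟩
  · have := lw0_pref (fun i => (e i).symm) (fun i x h => (he i _).1 (by simpa using h)) _ _ hp
    have e1 := (lw e he).left_inv v
    have e2 := (lw e he).left_inv w
    rw [← e1, ← e2]; exact this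
  · obtain ⟨l, hl⟩ := v
    match l, hl, hv with
    | [a, b], hl, _ =>
      apply Subtype.ext
      have := h a (hl 0 (by simp)) b (hl 1 (by simp))
      simp [lw, lw0, rho, r0, rl, this]

lemma swap_lt {n a b x : ℕ} (ha : a < n) (hb : b < n) : Equiv.swap a b x < n ↔ x < n := by
  rw [Equiv.swap_apply_def]; split_ifs <;> omega

lemma top (a c : ℕ) (ha : a < 3) (hc : c < 3) (b d : ℕ) (hb : b < 2) (hd : d < 2) :
    ∃ e : Equiv.Perm ℕ, (∀ x, e x < 3 ↔ x < 3) ∧ e a = c ∧
      ∀ x < 3, ∀ y < 2, e ((x + 1 + y) % 3) = (e x + 1 + Equiv.swap b d y) % 3 := by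
  have : ∃ i < 3, ∃ j < 3, ∃ k < 3, (Equiv.swap i j * Equiv.swap j k) a = c ∧
      ∀ x < 3, ∀ y < 2, (Equiv.swap i j * Equiv.swap j k) ((x + 1 + y) % 3) =
        ((Equiv.swap i j * Equiv.swap j k) x + 1 + Equiv.swap b d y) % 3 := by
    interval_cases a <;> interval_cases c <;> interval_cases b <;> interval_cases d <;> decide
  obtain ⟨i, hi, j, hj, k, hk, h⟩ := this
  exact ⟨_, fun x => by rw [Equiv.Perm.mul_apply, swap_lt hi hj, swap_lt hj hk], h⟩

lemma getD_lt (v : V) (i : ℕ) : v.1.getD i 0 < m i := by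
  by_cases h : i < v.1.length
  · rw [List.getD_eq_getElem _ _ h]; exact v.2 i h
  · rw [List.getD_eq_default _ _ (not_lt.1 h)]; unfold m; split_ifs <;> omega

lemma trans (v w : V) (h : v.1.length = w.1.length) : ∃ g ∈ L, g v = w := by
  obtain ⟨e0, h1, h2, h3⟩ := top _ _ (getD_lt v 0) (getD_lt w 0) _ _ (getD_lt v 1) (getD_lt w 1)
  refine ⟨lw (fun i => if i = 0 then e0 else Equiv.swap (v.1.getD i 0) (w.1.getD i 0))
    (fun i x => ?_), lw_mem _ _ (by simpa using h3), ?_⟩
  · split_ifs with hi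
    · subst hi; exact h1 x
    · exact swap_lt (getD_lt v i) (getD_lt w i)
  · refine Subtype.ext (List.ext_getElem (by simpa [lw, lw0] using h) fun i h1 h2' => ?_)
    have h4 : i < v.1.length := by omega
    simp only [lw, lw0, Equiv.coe_fn_mk, List.getElem_mapIdx]
    split_ifs with hi
    · subst hi
      rwa [List.getD_eq_getElem _ _ h4, List.getD_eq_getElem _ _ h2'] at h2
    · rw [List.getD_eq_getElem _ _ h4, List.getD_eq_getElem _ _ h2', Equiv.swap_apply_left]

open Classical in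
/-- restriction of an automorphism to the subtree below a fixed vertex -/
noncomputable def res (g : Equiv.Perm V) (hg : Pref g) (u : V) (hu : g u = u) : Equiv.Perm V :=
  Equiv.Perm.ofSubtype (g.subtypePerm (p := fun v => u.1 <+: v.1) fun v => by
    rw [hg u v, hu])

lemma res_in (g : Equiv.Perm V) (hg : Pref g) (u : V) (hu : g u = u) (v : V) (h : u.1 <+: v.1) :
    res g hg u hu v = g v := by
  classical
  unfold res
  rw [Equiv.Perm.ofSubtype_apply_of_mem (p := fun v : V => u.1 <+: v.1) _ h]; rfl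

lemma res_out (g : Equiv.Perm V) (hg : Pref g) (u : V) (hu : g u = u) (v : V) (h : ¬ u.1 <+: v.1) :
    res g hg u hu v = v := by
  classical
  exact Equiv.Perm.ofSubtype_apply_of_not_mem _ h

lemma res_fix (g : Equiv.Perm V) (hg : Pref g) (u : V) (hu : g u = u) (v : V)
    (h : v.1.length ≤ u.1.length) : res g hg u hu v = v := by
  by_cases hv : u.1 <+: v.1
  · have : u = v := Subtype.ext (hv.eq_of_length_le h)
    rw [res_in _ _ _ _ _ hv, ← this, hu]
  · exact res_out _ _ _ _ _ hv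

lemma res_mem (g : Equiv.Perm V) (hg : g ∈ L) (u : V) (hu : g u = u) (h2 : 2 ≤ u.1.length) :
    res g hg.1 u hu ∈ L := by
  have inv : ∀ v : V, u.1 <+: v.1 → u.1 <+: (g v).1 := fun v h => by
    have := (hg.1 u v).1 h; rwa [hu] at this
  refine ⟨fun v w => ?_, fun v => ?_, fun v hv => ?_⟩
  · by_cases hv : u.1 <+: v.1 <;> by_cases hw : u.1 <+: w.1
    · rw [res_in _ _ _ _ _ hv, res_in _ _ _ _ _ hw]; exact hg.1 v w
    · rw [res_in _ _ _ _ _ hv, res_out _ _ _ _ _ hw]
      exact ⟨fun h => absurd (hv.trans h) hw, fun h => absurd ((inv v hv).trans h) hw⟩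
    · rw [res_out _ _ _ _ _ hv, res_in _ _ _ _ _ hw]
      exact ⟨fun h => ((List.prefix_or_prefix_of_prefix h hw).resolve_right hv).trans (inv w hw),
        fun h => ((List.prefix_or_prefix_of_prefix h (inv w hw)).resolve_right hv).trans hw⟩
    · rw [res_out _ _ _ _ _ hv, res_out _ _ _ _ _ hw]
  · by_cases hv : u.1 <+: v.1
    · rw [res_in _ _ _ _ _ hv]; exact hg.2.1 v
    · rw [res_out _ _ _ _ _ hv]
  · rw [res_fix _ _ _ _ _ (by rw [rho_len]; omega), res_fix _ _ _ _ v (by omega)]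

lemma fin_len (N : ℕ) : {v : V | v.1.length ≤ N}.Finite := by
  refine Set.Finite.of_finite_image (f := Subtype.val) ?_ Subtype.val_injective.injOn
  refine ((List.finite_length_le (Fin 3) N).image (List.map Fin.val)).subset ?_
  rintro _ ⟨v, hv, rfl⟩
  refine ⟨v.1.map fun x => Fin.ofNat 3 x, by simpa using hv, ?_⟩
  refine List.ext_getElem (by simp) fun i h1 h2 => ?_
  have := v.2 i h2
  have h3 : m i ≤ 3 := by unfold m; split_ifs <;> omega
  simp only [List.get_eq_getElem] at this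
  simp only [List.getElem_map, Fin.val_ofNat]
  exact Nat.mod_eq_of_lt (by omega)

def R (n : ℕ) : Subgroup (Equiv.Perm V) := Subgroup.closure
  {g : Equiv.Perm V | g ∈ L ∧ ∃ u : V, u.1.length = n ∧ ∀ v : V, ¬ u.1 <+: v.1 → g v = v}

lemma mem_R (n : ℕ) (F : Finset V) (hF : ∀ u ∈ F, u.1.length = n + 2) (g : Equiv.Perm V)
    (hg : g ∈ L) (h1 : ∀ u ∈ F, g u = u) (h2 : ∀ v : V, (∀ u ∈ F, ¬ u.1 <+: v.1) → g v = v) :
    g ∈ R n := by
  classical
  induction F using Finset.induction_on generalizing g with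
  | empty =>
    have : g = 1 := Equiv.ext fun v => h2 v (by simp)
    rw [this]; exact one_mem _
  | insert u F hu ih =>
    have gu := h1 u (by simp)
    have lu := hF u (by simp)
    have rm := res_mem g hg u gu (by omega)
    have r1 : res g hg.1 u gu ∈ R n := Subgroup.subset_closure ⟨rm, tk n u, by simp [tk]; omega,
      fun v hv => res_out _ _ _ _ _ fun h => hv ((List.take_prefix _ _).trans h)⟩
    have r2 : (res g hg.1 u gu)⁻¹ * g ∈ R n := by
      refine ih (fun w hw => hF w (by simp [hw])) _ (mul_mem (inv_mem rm) hg) (fun w hw => ?_)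
        (fun v hv => ?_)
      · rw [Equiv.Perm.mul_apply, h1 w (by simp [hw]), Equiv.Perm.inv_eq_iff_eq,
          res_fix _ _ _ _ _ (by rw [lu, hF w (by simp [hw])])]
      · rw [Equiv.Perm.mul_apply, Equiv.Perm.inv_eq_iff_eq]
        by_cases h : u.1 <+: v.1
        · rw [res_in _ _ _ _ _ h]
        · rw [res_out _ _ _ _ _ h]
          exact h2 v (by simpa [h] using hv)
    simpa using mul_mem r1 r2

lemma idx (n : ℕ) : ((R n).subgroupOf L).index ≠ 0 := by
  have hf := fin_len (n + 2)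
  have : Finite {v : V // v.1.length ≤ n + 2} := hf
  have h1 : ∀ v : {v : V // v.1.length ≤ n + 2}, (MulAction.stabilizer L v.1).FiniteIndex :=
    fun v => ⟨by
      rw [MulAction.index_stabilizer]
      refine ((Set.ncard_pos (hf.subset ?_)).2 ⟨_, MulAction.mem_orbit_self _⟩).ne'
      rintro _ ⟨g, rfl⟩
      exact (g.2.2.1 v.1).trans_le v.2⟩
  have h2 := Subgroup.finiteIndex_iInf h1
  refine (Subgroup.finiteIndex_of_le (H := ⨅ v : {v : V // v.1.length ≤ n + 2},
    MulAction.stabilizer L v.1) fun g hg => ?_).index_ne_zero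
  have h3 : ∀ v : V, v.1.length ≤ n + 2 → g.1 v = v := fun v hv =>
    Subgroup.mem_iInf.1 hg ⟨v, hv⟩
  have hf2 : {v : V | v.1.length = n + 2}.Finite := hf.subset fun v hv => le_of_eq hv
  refine mem_R n hf2.toFinset (by simp) g.1 g.2 (fun u hu => h3 u (by simpa using
    (hf2.mem_toFinset.1 hu).le)) fun v hv => h3 v ?_
  by_contra hh
  exact hv (tk (n + 2) v) (by simp [tk]; omega) (List.take_prefix _ _)

def vx (l : List ℕ) (h : ∀ i : Fin l.length, l.get i < m i := by decide) : V :=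
  ⟨l, fun i hi => h ⟨i, hi⟩⟩

def sw : Equiv.Perm V := lw (fun i => if i = 2 then Equiv.swap 0 1 else 1) fun i x => by
  split_ifs with h
  · subst h; exact swap_lt (by decide) (by decide)
  · rfl

lemma sw_mem : sw ∈ L := lw_mem _ _ (by simp)

lemma below (σ : Equiv.Perm V) (h : ∀ g : L, rho * g * rho⁻¹ = σ * g * σ⁻¹) (u x : V)
    (hu : u.1.length = 2) (su : sw u = u) (hx : u.1 <+: x.1) (sx : sw x ≠ x) :
    (rho u).1 <+: (σ x).1 := by
  by_contra hh
  have := Equiv.congr_fun (h ⟨_, res_mem sw sw_mem u su hu.ge⟩) (σ x)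
  simp only [Equiv.Perm.mul_apply, Equiv.Perm.coe_inv, Equiv.symm_apply_apply] at this
  rw [res_in _ _ _ _ _ hx, res_out _ _ _ _ _ (by rw [rho_pref _ _ hu.ge]; simpa using hh)] at this
  simp only [Equiv.apply_symm_apply, EmbeddingLike.apply_eq_iff_eq] at this
  exact sx this.symm

lemma nil_of {a b c d : ℕ} {l x y : List ℕ} (h : a ≠ c) (h1 : l <+: x) (h2 : l <+: y)
    (h3 : [a, b] <+: x) (h4 : [c, d] <+: y) : l = [] := by
  obtain ⟨s, rfl⟩ := h3
  obtain ⟨t, rfl⟩ := h4
  cases l with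
  | nil => rfl
  | cons e l =>
    simp only [List.cons_append, List.cons_prefix_cons] at h1 h2
    omega

/-- The negation of the preceding statement: For every branch group L acting on a spherically homogeneous rooted tree, every automorphism of L is conjugation by a unique tree automorphism, so Aut L equals the normalizer of L in Aut T. -/
theorem result :
    ¬ (∀ (m : ℕ → ℕ), (∀ n, 2 ≤ m n) →
    ∀ L : Subgroup (Equiv.Perm {l : List ℕ // ∀ i (h : i < l.length), l.get ⟨i, h⟩ < m i}),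
    (∀ g ∈ L, ∀ v w : {l : List ℕ // ∀ i (h : i < l.length), l.get ⟨i, h⟩ < m i},
        (List.IsPrefix v.1 w.1 ↔ List.IsPrefix (g v).1 (g w).1)) →
    (∀ v w : {l : List ℕ // ∀ i (h : i < l.length), l.get ⟨i, h⟩ < m i},
        v.1.length = w.1.length → ∃ g ∈ L, g v = w) →
    (∀ n : ℕ, ((Subgroup.closure
        {g : Equiv.Perm {l : List ℕ // ∀ i (h : i < l.length), l.get ⟨i, h⟩ < m i} |
          g ∈ L ∧ ∃ u : {l : List ℕ // ∀ i (h : i < l.length), l.get ⟨i, h⟩ < m i},
            u.1.length = n ∧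
            ∀ v : {l : List ℕ // ∀ i (h : i < l.length), l.get ⟨i, h⟩ < m i},
              ¬ List.IsPrefix u.1 v.1 → g v = v}).subgroupOf L).index ≠ 0) →
    ∀ φ : L ≃* L,
      ∃! σ : Equiv.Perm {l : List ℕ // ∀ i (h : i < l.length), l.get ⟨i, h⟩ < m i},
        (∀ v w : {l : List ℕ // ∀ i (h : i < l.length), l.get ⟨i, h⟩ < m i},
          (List.IsPrefix v.1 w.1 ↔ List.IsPrefix (σ v).1 (σ w).1)) ∧
        ∀ g : L, ((φ g : L) : Equiv.Perm {l : List ℕ // ∀ i (h : i < l.length), l.get ⟨i, h⟩ < m i})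
          = σ * (g : Equiv.Perm {l : List ℕ // ∀ i (h : i < l.length), l.get ⟨i, h⟩ < m i}) * σ⁻¹) := by
  intro H
  obtain ⟨σ, ⟨h1, h2⟩, -⟩ := H m (fun n => by unfold m; split_ifs <;> omega) L (fun g hg => hg.1)
    trans idx phi
  have b1 := below σ h2 (vx [0, 0]) (vx [0, 0, 0]) rfl (by decide) (by decide) (by decide)
  have b2 := below σ h2 (vx [0, 1]) (vx [0, 1, 0]) rfl (by decide) (by decide) (by decide)
  have b3 := below σ h2 (vx [1, 0]) (vx [1, 0, 0]) rfl (by decide) (by decide) (by decide)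
  have b4 := below σ h2 (vx [1, 1]) (vx [1, 1, 0]) rfl (by decide) (by decide) (by decide)
  have e1 := nil_of (a := 1) (c := 2) (by decide)
    ((h1 (vx [0]) (vx [0, 0, 0])).1 (by decide)) ((h1 (vx [0]) (vx [0, 1, 0])).1 (by decide)) b1 b2
  have e2 := nil_of (a := 2) (c := 0) (by decide)
    ((h1 (vx [1]) (vx [1, 0, 0])).1 (by decide)) ((h1 (vx [1]) (vx [1, 1, 0])).1 (by decide)) b3 b4
  have := σ.injective (Subtype.ext (e1.trans e2.symm))
  revert this; decide

end Pool.Agent.S02012
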