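import Pool.Statements.S02025
import Pool.Agent.H68.Og1

set_option autoImplicit false
open Pool Pool.MP_7ab5f9_al

namespace Pool.Agent.S02025

theorem result :
    ∀ (G : Type) [Group G] [Finite G] (F : ∀ (X : Type), [Group X] → Prop),
      (∀ (X Y : Type) [Group X] [Group Y] [Finite X], F X →
          ∀ f : X →* Y, Function.Surjective f → F Y) →
      (∀ (X : Type) [Group X] [Finite X] (N₁ N₂ : Subgroup X) [N₁.Normal] [N₂.Normal],
          F (X ⧸ N₁) → F (X ⧸ N₂) → F (X ⧸ (N₁ ⊓ N₂))) →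
      (∃ (X : Type) (inst : Group X), Finite X ∧ @F X inst) →
      (∀ (H : Type) [Group H] [Finite H], F H →
        ∀ (E : ∀ (X : Type), [Group X] → Prop),
          (∀ (X Y : Type) [Group X] [Group Y] [Finite X], E X →
              ∀ f : X →* Y, Function.Surjective f → E Y) →
          (∀ (X : Type) [Group X] [Finite X] (N₁ N₂ : Subgroup X) [N₁.Normal] [N₂.Normal],
              E (X ⧸ N₁) → E (X ⧸ N₂) → E (X ⧸ (N₁ ⊓ N₂))) →
          E G → E H) →
      ∃ (K : Type) (instK : Group K), Finite K ∧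
        ∀ (H : Type) [Group H] [Finite H],
          (F H ↔
            ∀ (E : ∀ (X : Type), [Group X] → Prop),
              (∀ (X Y : Type) [Group X] [Group Y] [Finite X], E X →
                  ∀ f : X →* Y, Function.Surjective f → E Y) →
              (∀ (X : Type) [Group X] [Finite X] (N₁ N₂ : Subgroup X) [N₁.Normal] [N₂.Normal],
                  E (X ⧸ N₁) → E (X ⧸ N₂) → E (X ⧸ (N₁ ⊓ N₂))) →
              @E K instK → E H) := by
  open Pool.Agent.H68.Sat Pool.Agent.H68.Og in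
  intro G _ _ F h1 h2 ⟨X, _, _, hX⟩ h3
  have k : ∀ (E : ∀ (X : Type), [Group X] → Prop), (∀ (X Y : Type) [Group X] [Group Y] [Finite X], E X →
      ∀ f : X →* Y, Function.Surjective f → E Y) →
      (∀ (X : Type) [Group X] [Finite X] (N₁ N₂ : Subgroup X) [N₁.Normal] [N₂.Normal],
        E (X ⧸ N₁) → E (X ⧸ N₂) → E (X ⧸ (N₁ ⊓ N₂))) → Fm fun X _ => Finite X ∧ E X := by
    intro E a b
    refine ⟨fun _ _ h => h.1, fun _ _ _ _ ⟨e⟩ ⟨_, h⟩ => ⟨Finite.of_equiv _ e.toEquiv,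
      a _ _ h e.toMonoidHom e.surjective⟩, fun _ _ N _ ⟨_, h⟩ => ⟨inferInstance, a _ _ h _ (mk_surj N)⟩,
      fun A _ _ N L _ _ e h h' => ?_⟩
    obtain ⟨γ, hγ⟩ := exists_lift _ (mk_surj (N ⊓ L)) (MonoidHom.id A) fun g hg =>
      Subgroup.mem_bot.1 (e.le (mk_one.1 hg))
    exact ⟨‹_›, a _ _ (b A N L h.2 h'.2) γ fun x => ⟨_, hγ x⟩⟩
  obtain ⟨K, _, hK, h⟩ := main (G := G) (F := fun X _ => Finite X ∧ F X)
    ⟨k F h1 h2, inferInstance, h1 X _ hX 1 fun _ => ⟨1, rfl⟩⟩ fun Y _ ⟨_, hY⟩ E hE =>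
      h3 Y hY E (fun _ _ _ _ _ a f hf => hE.surj f hf a) fun _ _ _ N L _ _ => hE.quo_inf N L
  have := hK.1
  exact ⟨K, _, hK.1, fun H _ _ => ⟨fun a E b c d => (h H ⟨‹_›, a⟩ _ (k E b c) ⟨hK.1, d⟩).2,
    fun a => a F h1 h2 hK.2⟩⟩

end Pool.Agent.S02025
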