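import Pool.Statements.S02033
import Pool.Agent.H27.NOrd5

set_option autoImplicit false
open Pool Pool.MP_7c6b96_al

namespace Pool.Agent.S02033

/-- For every positive integer k there is a group whose set of total orders invariant under left and right multiplication has exactly 2k elements. -/
theorem result :
    ∀ k : ℕ, 0 < k →
      ∃ (G : Type) (_ : Group G),
        {r : G → G → Prop | IsLinearOrder G r ∧
            ∀ a b c d : G, r a b → r (c * a * d) (c * b * d)}.encard
          = ((2 * k : ℕ) : ℕ∞) := by
  exact Pool.Agent.H27.NOrd.main

end Pool.Agent.S02033
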