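import Pool.Statements.S02054
import Pool.Agent.H65.ZZ2
import Pool.Agent.H65.SquierL

set_option autoImplicit false
open Pool Pool.MP_7ddd63_al

namespace Pool.Agent.S02054

/-- The negation of the preceding statement: For every semigroup presentation with non-empty relation words and every non-empty base word, the diagram group (loops at the base word in the Squier complex modulo homotopy) embeds in some right-angled Artin group if and only if it has no subgroup isomorphic to Z wr Z. -/
theorem result :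
    ¬ (∀ (A : Type) (R : Set (List A × List A)) (w : List A),
    (∀ p ∈ R, p.1 ≠ [] ∧ p.2 ≠ []) → w ≠ [] →
    ∀ (src tgt : List A × (List A × List A) × List A × Bool → List A),
    (∀ (x u v y : List A) (b : Bool), src (x, (u, v), y, b) = x ++ (if b then u else v) ++ y) →
    (∀ (x u v y : List A) (b : Bool), tgt (x, (u, v), y, b) = x ++ (if b then v else u) ++ y) →
    ∀ (path : List (List A × (List A × List A) × List A × Bool) → Prop),
    (∀ l, path l ↔ ((∀ s ∈ l, s.2.1 ∈ R) ∧
        ∀ (i : ℕ) (s t : List A × (List A × List A) × List A × Bool),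
          l[i]? = some s → l[i+1]? = some t → tgt s = src t)) →
    ∀ (loop : List (List A × (List A × List A) × List A × Bool) → Prop),
    (∀ l, loop l ↔ (path l ∧ (∀ s ∈ l.head?, src s = w) ∧ (∀ s ∈ l.getLast?, tgt s = w))) →
    ∀ (move : List (List A × (List A × List A) × List A × Bool) →
        List (List A × (List A × List A) × List A × Bool) → Prop),
    (∀ a b, move a b ↔ (path a ∧ path b ∧
       ((∃ (p q : List (List A × (List A × List A) × List A × Bool)) (x u v y : List A) (c : Bool),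
            a = p ++ q ∧ b = p ++ [(x, (u, v), y, c), (x, (u, v), y, !c)] ++ q) ∨
        (∃ (p q : List (List A × (List A × List A) × List A × Bool)) (x u₁ v₁ y u₂ v₂ z : List A),
            a = p ++ [(x, (u₁, v₁), y ++ u₂ ++ z, true), (x ++ v₁ ++ y, (u₂, v₂), z, true)] ++ q ∧
            b = p ++ [(x ++ u₁ ++ y, (u₂, v₂), z, true), (x, (u₁, v₁), y ++ v₂ ++ z, true)] ++ q)))) →
    ((∃ (V : Type) (Γ : SimpleGraph V)
        (f : List (List A × (List A × List A) × List A × Bool) →
          PresentedGroup {r : FreeGroup V | ∃ s t, Γ.Adj s t ∧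
            r = FreeGroup.of s * FreeGroup.of t * (FreeGroup.of s)⁻¹ * (FreeGroup.of t)⁻¹}),
        (∀ p q, loop p → loop q → f (p ++ q) = f p * f q) ∧
        (∀ p q, loop p → loop q → (f p = f q ↔ Quot.mk move p = Quot.mk move q)))
     ↔ ¬ ∃ g : SemidirectProduct (Multiplicative (ℤ →₀ ℤ)) (Multiplicative ℤ)
            (zpowersHom (MulAut (Multiplicative (ℤ →₀ ℤ)))
              (AddEquiv.toMultiplicative
                (Finsupp.domCongr (Equiv.addRight (1 : ℤ)) : (ℤ →₀ ℤ) ≃+ (ℤ →₀ ℤ)))) →
            List (List A × (List A × List A) × List A × Bool),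
          (∀ a, loop (g a)) ∧
          (∀ a b, Quot.mk move (g (a * b)) = Quot.mk move (g a ++ g b)) ∧
          (∀ a b, Quot.mk move (g a) = Quot.mk move (g b) → a = b))) := by
  open Pool.Agent.H65 Pool.Agent.H65.Squier in
  intro h
  have hR : ∀ r ∈ ZZ.R, r.1 ≠ [] ∧ r.2 ≠ [] := fun _ => ZZ.ne1
  have h := (h (Fin 5) ZZ.R [0, 2] hR (by simp) src tgt (fun _ _ _ _ _ => rfl)
    (fun _ _ _ _ _ => rfl) (path ZZ.R) (fun _ => Iff.rfl) (loop ZZ.R [0, 2]) (fun _ => Iff.rfl)
    (move ZZ.R) (fun _ _ => Iff.rfl)).2 ?_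
  · obtain ⟨V, Γ, f, h1, h2⟩ := h
    obtain ⟨T, α, β, h3, h4⟩ := ZZ.exists_elts
    choose l hl hl' using fun d : DiagramGroup ZZ.R ZZ.w0 => (iota_pth d).tp
    let F : DiagramGroup ZZ.R ZZ.w0 →* Raag.A Γ := MonoidHom.mk' (fun d => f (l d⁻¹)) fun d d' => by
      rw [← h1 _ _ (loop_iff.2 (hl _)) (loop_iff.2 (hl _))]
      refine (h2 _ _ (loop_iff.2 (hl _)) (loop_iff.2 ((hl _).append (hl _)))).2
        (move_of_ev hR ZZ.w0.ne (hl _) ((hl _).append (hl _)) ?_)
      rw [ev_append, hl', hl', hl', mul_inv_rev, map_mul]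
    refine ZZ.not_rf h3 h4 (Raag.rf_of_inj F fun d d' e => inv_injective (iota_inj hR _ ?_))
    rw [← hl', ← hl']
    exact ev_move ((h2 _ _ (loop_iff.2 (hl _)) (loop_iff.2 (hl _))).1 e)
  · rintro ⟨g, h1, h2, h3⟩
    let F := MonoidHom.mk' (fun a => ZZ.Φ (ev ZZ.R (g a⁻¹))) fun a b => by
      rw [mul_inv_rev, ev_move (h2 _ _), ev_append, map_mul]
    have hF : Function.Injective F := fun a b e => by
      have ha := loop_iff.1 (h1 a⁻¹)
      have hb := loop_iff.1 (h1 b⁻¹)
      refine inv_injective (h3 _ _ (move_of_ev hR (by simp) ha hb (mul_inv_eq_one.1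
        (ZZ.Φ_inj (ha.pth.mul hb.pth.inv) ?_))))
      rw [map_mul, map_inv, mul_inv_eq_one]
      exact e
    let F' := F.comp SemidirectProduct.inl
    let x : ℤ → Multiplicative (ℤ →₀ ℤ) := fun i => Multiplicative.ofAdd (Finsupp.single i 1)
    obtain ⟨i, j, k, h4, h5⟩ := ZZ.dep3 ((Commute.all (x 0) (x 1)).map F')
      ((Commute.all (x 0) (x 2)).map F') ((Commute.all (x 1) (x 2)).map F')
    rw [← map_zpow F', ← map_zpow F', ← map_zpow F', ← map_mul F', ← map_mul F',
      ← map_one F'] at h5
    have h6 := congrArg Multiplicative.toAdd ((hF.comp SemidirectProduct.inl_injective) h5)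
    have h7 := fun n => DFunLike.congr_fun h6 n
    exact h4 ⟨by simpa [x] using h7 0, by simpa [x] using h7 1, by simpa [x] using h7 2⟩

end Pool.Agent.S02054
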