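import Pool.Statements.S02070
import Pool.Agent.H76.Onn

set_option autoImplicit false
open Pool Pool.MP_7ed69f_al

namespace Pool.Agent.S02070


/-- The negation of the preceding statement: For all N,r ≥ 2 there is a finite set of integer polynomials of degree ≤ C(N,2)·r whose values at q are exactly the dimensions of irreducible complex reps of GL_N(o/p^r) nontrivial on the level-(r−1) kernel, for every compact DVR o. -/
theorem result :
    ¬ (∀ N r : ℕ, 2 ≤ N → 2 ≤ r →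
    ∃ P : Finset (Polynomial ℤ), (∀ d ∈ P, d.natDegree ≤ N.choose 2 * r) ∧
    ∀ (R : Type) [CommRing R] [IsDomain R] [IsDiscreteValuationRing R]
      [Finite (IsLocalRing.ResidueField R)]
      [IsAdicComplete (IsLocalRing.maximalIdeal R) R],
    {z : ℤ | ∃ (V : Type) (_ : AddCommGroup V) (_ : Module ℂ V)
        (ρ : Representation ℂ
          (Matrix.GeneralLinearGroup (Fin N) (R ⧸ IsLocalRing.maximalIdeal R ^ r)) V),
        FiniteDimensional ℂ V ∧ Nontrivial V ∧
        (∀ W : Submodule ℂ V, (∀ g v, v ∈ W → ρ g v ∈ W) → W = ⊥ ∨ W = ⊤) ∧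
        (∃ g : Matrix.GeneralLinearGroup (Fin N) (R ⧸ IsLocalRing.maximalIdeal R ^ r),
          (∀ i j, ∃ a ∈ IsLocalRing.maximalIdeal R ^ (r - 1),
            g.val i j
              - (1 : Matrix (Fin N) (Fin N) (R ⧸ IsLocalRing.maximalIdeal R ^ r)) i j
              = Ideal.Quotient.mk (IsLocalRing.maximalIdeal R ^ r) a) ∧ ρ g ≠ 1) ∧
        (Module.finrank ℂ V : ℤ) = z}
    = (fun d : Polynomial ℤ => d.eval (Nat.card (IsLocalRing.ResidueField R) : ℤ)) ''
        (P : Set (Polynomial ℤ))) := by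
  intro h
  obtain ⟨P, -, hP⟩ := h 3 2 (by norm_num) le_rfl
  have hcard : ∀ (p : ℕ) [Fact p.Prime], Nat.card (IsLocalRing.ResidueField ℤ_[p]) = p := by
    intro p _
    rw [Nat.card_congr (PadicInt.residueField (p := p)).toEquiv, Nat.card_zmod]
  have hfin : ∀ (p : ℕ) [Fact p.Prime], Finite (IsLocalRing.ResidueField ℤ_[p]) := by
    intro p _
    exact Finite.of_equiv _ (PadicInt.residueField (p := p)).toEquiv.symm
  let Q : Polynomial ℤ := (Polynomial.X ^ 3 - 1) * (Polynomial.X ^ 3 - Polynomial.X) *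
    (Polynomial.X ^ 3 - Polynomial.X ^ 2)
  have key : ∀ p : ℕ, p.Prime → 3 ≤ p → ∃ d ∈ P,
      (d * (Polynomial.X - 1) ^ 3 - Q).IsRoot (p : ℤ) := by
    intro p hp hp3
    have : Fact p.Prime := ⟨hp⟩
    have := hfin p
    obtain ⟨E, hE⟩ := H76.Onn.exists_ext2 ℤ_[p] (ZMod p) PadicInt.residueField
    have h2 : (2 : ZMod p) ≠ 0 := by
      intro h
      have : ((2 : ℕ) : ZMod p) = 0 := by exact_mod_cast h
      rw [ZMod.natCast_eq_zero_iff] at this
      have := Nat.le_of_dvd (by norm_num) this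
      omega
    obtain ⟨V, _, _, ρ, h1, h3, h4, ⟨x, hx⟩, hd⟩ := H76.Onn.exists_rep E h2
    have hmem := (Set.ext_iff.1 (hP ℤ_[p]) (Module.finrank ℂ V : ℤ)).1
      ⟨V, inferInstance, inferInstance, ρ, h1, h3, h4, ⟨E.kap x, fun i j => by
        obtain ⟨a, ha, ha'⟩ := hE (x i j)
        refine ⟨a, by simpa using ha, ?_⟩
        rw [← ha', E.kap_val]
        simp, hx⟩, rfl⟩
    obtain ⟨d, hdP, hde⟩ := hmem
    refine ⟨d, hdP, ?_⟩
    simp only [hcard] at hde
    rw [ZMod.card, Fin.prod_univ_three] at hd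
    have e1 : 1 ≤ p := by omega
    have e2 : p ^ ((0 : Fin 3) : ℕ) ≤ p ^ 3 := Nat.pow_le_pow_right e1 (by simp)
    have e3 : p ^ ((1 : Fin 3) : ℕ) ≤ p ^ 3 := Nat.pow_le_pow_right e1 (by simp)
    have e4 : p ^ ((2 : Fin 3) : ℕ) ≤ p ^ 3 := Nat.pow_le_pow_right e1 (by simp)
    zify [e1, e2, e3, e4] at hd
    simp only [Polynomial.IsRoot, Q, Polynomial.eval_sub, Polynomial.eval_mul, Polynomial.eval_pow,
      Polynomial.eval_X, Polynomial.eval_one, hde]
    rw [hd]
    simp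
  have hinf : Set.Infinite {p : ℕ | p.Prime ∧ 3 ≤ p} := by
    have := Nat.infinite_setOf_prime.diff (Set.finite_lt_nat 3)
    refine this.mono fun p hp => ⟨hp.1, not_lt.1 hp.2⟩
  obtain ⟨d, hdP, hd⟩ : ∃ d ∈ P, d * (Polynomial.X - 1) ^ 3 - Q = 0 := by
    by_contra hcon
    push Not at hcon
    have hf : Set.Finite (⋃ d ∈ P, {z : ℤ | (d * (Polynomial.X - 1) ^ 3 - Q).IsRoot z}) :=
      Set.Finite.biUnion P.finite_toSet fun d hd => Polynomial.finite_setOf_isRoot (hcon d hd)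
    refine (hinf.image (f := fun p : ℕ => (p : ℤ)) Nat.cast_injective.injOn) (hf.subset ?_)
    rintro _ ⟨p, ⟨hp, hp3⟩, rfl⟩
    obtain ⟨d, hd, hr⟩ := key p hp hp3
    exact Set.mem_biUnion hd hr
  have h168 : d.eval 2 = 168 := by
    have := congrArg (Polynomial.eval 2) hd
    simp only [Q, Polynomial.eval_sub, Polynomial.eval_mul, Polynomial.eval_pow,
      Polynomial.eval_X, Polynomial.eval_one, Polynomial.eval_zero] at this
    linarith
  have := hfin 2
  obtain ⟨E, -⟩ := H76.Onn.exists_ext2 ℤ_[2] (ZMod 2) PadicInt.residueField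
  obtain ⟨V, _, _, ρ, h1, h3, h4, -, hd⟩ := (Set.ext_iff.1 (hP ℤ_[2]) 168).2
    ⟨d, hdP, by simp only [hcard]; exact h168⟩
  have := H76.Onn.lt_168 E ρ h4
  omega

end Pool.Agent.S02070
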