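import Pool.Statements.S02098
import Mathlib

set_option autoImplicit false
open Pool Pool.MP_81db1e_al

namespace Pool.Agent.S02098

open Polynomial

noncomputable def iota : ℚ[X] →ₐ[ℚ] RatFunc ℚ := IsScalarTower.toAlgHom ℚ ℚ[X] (RatFunc ℚ)

lemma iota_inj : Function.Injective iota := IsFractionRing.injective ℚ[X] (RatFunc ℚ)

noncomputable def phi1 : (ℚ[X] × ℚ[X]) →ₐ[ℚ] (RatFunc ℚ × RatFunc ℚ) := AlgHom.prodMap iota iota

noncomputable def phi2 : (ℚ[X] × ℚ[X]) →ₐ[ℚ] (RatFunc ℚ × RatFunc ℚ) :=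
  AlgHom.prodMap (iota.comp (expand ℚ 2)) iota

lemma phi1_inj : Function.Injective phi1 := iota_inj.prodMap iota_inj

lemma phi2_inj : Function.Injective phi2 :=
  (iota_inj.comp (expand_injective (by norm_num))).prodMap iota_inj

lemma dep {F A : Type} [Field F] [Ring A] [Algebra F A] (a : A) (c : F) (h : a = c • 1) :
    ¬ LinearIndependent F ![(1 : A), a] := by
  rw [LinearIndependent.pair_iff]
  intro hh
  have := (hh (-c) 1 (by rw [h]; simp)).2
  exact one_ne_zero this

lemma scal {F A : Type} [Field F] [Ring A] [Nontrivial A] [Algebra F A] (a : A)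
    (h : ¬ LinearIndependent F ![(1 : A), a]) : ∃ c : F, a = c • 1 := by
  rw [LinearIndependent.pair_iff' one_ne_zero] at h
  push Not at h
  obtain ⟨c, hc⟩ := h
  exact ⟨c, hc.symm⟩

lemma phi1_app (p q : ℚ[X]) : phi1 (p, q) = (iota p, iota q) := rfl

lemma phi2_app (p q : ℚ[X]) : phi2 (p, q) = (iota (expand ℚ 2 p), iota q) := rfl


/-- The negation of the preceding statement: For every char-0 field k and k-algebra R with some finite-dimensional representation, there is one finite-dimensional representation (F,A) in which every family of R that is dependent in some finite-dimensional representation is already dependent. -/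
theorem result :
    ¬ (∀ (k : Type) [Field k] [CharZero k] (R : Type) [Ring R] [Algebra k R],
      (∃ (F : Type) (_ : Field F) (_ : Algebra k F) (A : Type) (_ : Ring A)
          (_ : Algebra F A) (_ : Algebra k A) (_ : IsScalarTower k F A)
          (_ : FiniteDimensional F A) (φ : R →ₐ[k] A), Function.Injective φ) →
      ∃ (F : Type) (_ : Field F) (_ : Algebra k F) (A : Type) (_ : Ring A)
          (_ : Algebra F A) (_ : Algebra k A) (_ : IsScalarTower k F A)
          (_ : FiniteDimensional F A) (φ : R →ₐ[k] A),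
        Function.Injective φ ∧
        ∀ (F' : Type) [Field F'] [Algebra k F'] (A' : Type) [Ring A'] [Algebra F' A']
          [Algebra k A'] [IsScalarTower k F' A'] [FiniteDimensional F' A']
          (φ' : R →ₐ[k] A'), Function.Injective φ' →
          ∀ (ι : Type) (r : ι → R),
            ¬ LinearIndependent F' (fun i => φ' (r i)) →
            ¬ LinearIndependent F (fun i => φ (r i))) := by
  intro h
  obtain ⟨F, _, _, A, _, _, _, _, _, φ, hφ, hall⟩ := h ℚ (ℚ[X] × ℚ[X])
    ⟨RatFunc ℚ, inferInstance, inferInstance, RatFunc ℚ × RatFunc ℚ, inferInstance, inferInstance,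
      inferInstance, inferInstance, inferInstance, phi1, phi1_inj⟩
  have : Nontrivial A := hφ.nontrivial
  have conv : ∀ {B : Type} [Ring B] [Algebra ℚ B] (ψ : (ℚ[X] × ℚ[X]) →ₐ[ℚ] B) (r : ℚ[X] × ℚ[X]),
      (fun i => ψ ((![1, r] : Fin 2 → ℚ[X] × ℚ[X]) i)) = ![1, ψ r] := by
    intro B _ _ ψ r
    funext i
    fin_cases i <;> simp
  have h1 := hall (RatFunc ℚ) (RatFunc ℚ × RatFunc ℚ) phi1 phi1_inj (Fin 2) ![1, (X, X)]
  have h2 := hall (RatFunc ℚ) (RatFunc ℚ × RatFunc ℚ) phi2 phi2_inj (Fin 2) ![1, (X, X ^ 2)]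
  rw [conv, conv] at h1 h2
  obtain ⟨c, hc⟩ := scal _ (h1 (dep _ (iota X) (by ext <;> simp [phi1_app])))
  obtain ⟨d, hd⟩ := scal _ (h2 (dep _ (iota X ^ 2) (by ext <;> simp [phi2_app])))
  have e1 : φ ((1, 0) * (X, X)) = φ ((1, 0) * (X, X ^ 2)) := by simp
  rw [map_mul, map_mul, hc, hd, mul_smul_comm, mul_smul_comm, mul_one] at e1
  have e2 : φ (1, 0) ≠ 0 := by
    rw [map_ne_zero_iff φ hφ]; simp
  have e3 : c = d := smul_left_injective F e2 e1
  have e4 : ((X, X) : ℚ[X] × ℚ[X]) = (X, X ^ 2) := hφ (by rw [hc, hd, e3])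
  have e5 := congrArg (fun p : ℚ[X] × ℚ[X] => p.2.natDegree) e4
  simp at e5

end Pool.Agent.S02098
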