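import Pool.Statements.S02146
import Pool.Agent.H68.Sat8

set_option autoImplicit false
open Pool Pool.MP_84bb83_al

namespace Pool.Agent.S02146

theorem result :
    ¬ (∃ F : (G : Type) → [Group G] → Prop,
      ((∀ (A B : Type) [Group A] [Group B], Nonempty (A ≃* B) → F A → F B) ∧
        F Unit ∧
        (∀ (G : Type) [Group G] [Finite G] (N : Subgroup G) [N.Normal], F G → F (G ⧸ N)) ∧
        (∀ (G : Type) [Group G] [Finite G] (N₁ N₂ : Subgroup G) [N₁.Normal] [N₂.Normal],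
          F (G ⧸ N₁) → F (G ⧸ N₂) → F (G ⧸ (N₁ ⊓ N₂)))) ∧
      (∀ (G : Type) [Group G] [Finite G], F (G ⧸ frattini G) → F G) ∧
      (∃ (M H : (G : Type) → [Group G] → Prop),
        ((∀ (A B : Type) [Group A] [Group B], Nonempty (A ≃* B) → M A → M B) ∧
          M Unit ∧
          (∀ (G : Type) [Group G] [Finite G] (N : Subgroup G) [N.Normal], M G → M (G ⧸ N)) ∧
          (∀ (G : Type) [Group G] [Finite G] (N₁ N₂ : Subgroup G) [N₁.Normal] [N₂.Normal],
            M (G ⧸ N₁) → M (G ⧸ N₂) → M (G ⧸ (N₁ ⊓ N₂)))) ∧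
        ((∀ (A B : Type) [Group A] [Group B], Nonempty (A ≃* B) → H A → H B) ∧
          H Unit ∧
          (∀ (G : Type) [Group G] [Finite G] (N : Subgroup G) [N.Normal], H G → H (G ⧸ N)) ∧
          (∀ (G : Type) [Group G] [Finite G] (N₁ N₂ : Subgroup G) [N₁.Normal] [N₂.Normal],
            H (G ⧸ N₁) → H (G ⧸ N₂) → H (G ⧸ (N₁ ⊓ N₂)))) ∧
        (∃ (G : Type) (_ : Group G), Finite G ∧ Nontrivial G ∧ M G) ∧
        (∃ (G : Type) (_ : Group G), Finite G ∧ Nontrivial G ∧ H G) ∧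
        (∀ (G : Type) [Group G] [Finite G],
          F G ↔ ∀ (R : Subgroup G) [R.Normal], H (G ⧸ R) →
            (∀ (N : Subgroup G) [N.Normal], H (G ⧸ N) → R ≤ N) → M ↥R)) ∧
      (∀ (M H : (G : Type) → [Group G] → Prop),
        ((∀ (A B : Type) [Group A] [Group B], Nonempty (A ≃* B) → M A → M B) ∧
          M Unit ∧
          (∀ (G : Type) [Group G] [Finite G] (N : Subgroup G) [N.Normal], M G → M (G ⧸ N)) ∧
          (∀ (G : Type) [Group G] [Finite G] (N₁ N₂ : Subgroup G) [N₁.Normal] [N₂.Normal],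
            M (G ⧸ N₁) → M (G ⧸ N₂) → M (G ⧸ (N₁ ⊓ N₂)))) →
        ((∀ (A B : Type) [Group A] [Group B], Nonempty (A ≃* B) → H A → H B) ∧
          H Unit ∧
          (∀ (G : Type) [Group G] [Finite G] (N : Subgroup G) [N.Normal], H G → H (G ⧸ N)) ∧
          (∀ (G : Type) [Group G] [Finite G] (N₁ N₂ : Subgroup G) [N₁.Normal] [N₂.Normal],
            H (G ⧸ N₁) → H (G ⧸ N₂) → H (G ⧸ (N₁ ⊓ N₂)))) →
        (∃ (G : Type) (_ : Group G), Finite G ∧ Nontrivial G ∧ M G) →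
        (∃ (G : Type) (_ : Group G), Finite G ∧ Nontrivial G ∧ H G) →
        (∀ (G : Type) [Group G] [Finite G],
          F G ↔ ∀ (R : Subgroup G) [R.Normal], H (G ⧸ R) →
            (∀ (N : Subgroup G) [N.Normal], H (G ⧸ N) → R ≤ N) → M ↥R) →
        (¬ ∀ (G : Type) [Group G] [Finite G], M (G ⧸ frattini G) → M G) ∧
        (¬ ∀ (G : Type) [Group G] [Finite G], H (G ⧸ frattini G) → H G))) := by
  open Pool.Agent.H68.Sat in
  rintro ⟨F, -, hS, ⟨M, H, hM, hH, nM, nH, hP⟩, h⟩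
  have fo : ∀ X : (G : Type) → [Group G] → Prop,
      ((∀ (A B : Type) [Group A] [Group B], Nonempty (A ≃* B) → X A → X B) ∧ X Unit ∧
        (∀ (G : Type) [Group G] [Finite G] (N : Subgroup G) [N.Normal], X G → X (G ⧸ N)) ∧
        (∀ (G : Type) [Group G] [Finite G] (N₁ N₂ : Subgroup G) [N₁.Normal] [N₂.Normal],
          X (G ⧸ N₁) → X (G ⧸ N₂) → X (G ⧸ (N₁ ⊓ N₂)))) → FO fun G _ => Finite G ∧ X G :=
    fun X ⟨a, b, c, d⟩ => ⟨⟨fun _ _ h => h.1,
      fun G K _ _ ⟨e⟩ ⟨_, h⟩ => ⟨Finite.of_equiv _ e.toEquiv, a _ _ ⟨e⟩ h⟩,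
      fun G _ N _ ⟨_, h⟩ => ⟨inferInstance, c G N h⟩, fun G _ _ N L _ _ e x y => ⟨inferInstance,
        a _ _ ⟨(QuotientGroup.quotientMulEquivOfEq e).trans QuotientGroup.quotientBot⟩
          (d G N L x.2 y.2)⟩⟩, inferInstance, b⟩
  have fM := fo M hM
  have fH := fo H hH
  have rs : ∀ (X : (G : Type) → [Group G] → Prop) (G : Type) [Group G] [Finite G],
      X (Res (fun G _ => Finite G ∧ H G) G) ↔ ∀ (R : Subgroup G) [R.Normal], H (G ⧸ R) →
        (∀ (N : Subgroup G) [N.Normal], H (G ⧸ N) → R ≤ N) → X R := fun X G _ _ => by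
    have l : ∀ (N : Subgroup G) [N.Normal], H (G ⧸ N) → Res (fun G _ => Finite G ∧ H G) G ≤ N :=
      fun N _ h => sInf_le ⟨inferInstance, inferInstance, h⟩
    refine ⟨fun x R _ a b => ?_, fun x => x _ fH.res_mem.2 l⟩
    rwa [le_antisymm (b _ fH.res_mem.2) (l R a)]
  have e : ∀ (G : Type) [Group G] [Finite G],
      F G ↔ Pr (fun G _ => Finite G ∧ M G) (fun G _ => Finite G ∧ H G) G := fun G _ _ =>
    (hP G).trans ((rs M G).symm.trans ⟨fun h => ⟨inferInstance, inferInstance, h⟩, fun h => h.2.2⟩)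
  have sP : St (Pr (fun G _ => Finite G ∧ M G) (fun G _ => Finite G ∧ H G)) :=
    fun G _ _ x => (e G).1 (hS G ((e _).2 x))
  by_cases h0 : ∃ (G : Type) (_ : Group G) (_ : Finite G), F G ∧ ¬ H G
  · obtain ⟨G, _, _, a, b⟩ := h0
    have m := mh_fo (M := fun G _ => Finite G ∧ M G) (H := fun G _ => Finite G ∧ H G)
    refine (h _ H ⟨m.iso, m.one, fun G _ _ N _ => m.quo G N, fun G _ _ N L _ _ =>
      m.toFm.quo_inf N L⟩ hH ⟨_, _, inferInstance, ?_, (mh_of fM fH sP ((e G).1 a)).2⟩ nH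
      fun G _ _ => (e G).trans (Iff.trans ⟨fun x => (mh_of fM fH sP x).2,
        fun x => of_mh fM fH sP ⟨inferInstance, x⟩⟩ (rs _ G))).1 mh_st
    by_contra hn
    have := not_nontrivial_iff_subsingleton.1 hn
    exact b (fH.of_res fun g hg => congrArg Subtype.val (Subsingleton.elim (⟨g, hg⟩ : Res _ G) 1)).2
  · refine (h M H hM hH nM nH hP).2 fun G _ _ x => by_contra fun y => h0 ⟨G, _, inferInstance, ?_, y⟩
    exact hS G ((e _).2 (pr_of fM fH ⟨inferInstance, x⟩))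

end Pool.Agent.S02146
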