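import Pool.Statements.S02168
import Pool.Agent.H52.SymGen

set_option autoImplicit false
open Pool Pool.MP_864522_al

namespace Pool.Agent.S02168

open Pool.Agent.H52.SymGen Equiv

/-- The negation of the preceding statement: If two subgroups G and H together generate the full permutation group of ℕ, then for some finite set U of permutations, either G together with U or H together with U generates the whole group. -/
theorem result :
    ¬ (∀ G H : Subgroup (Equiv.Perm ℕ), G ⊔ H = ⊤ →
      ∃ U : Finset (Equiv.Perm ℕ),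
        G ⊔ Subgroup.closure (↑U : Set (Equiv.Perm ℕ)) = ⊤ ∨
        H ⊔ Subgroup.closure (↑U : Set (Equiv.Perm ℕ)) = ⊤) := by
  intro H
  classical
  let M : Set ℕ := Set.range (fun n => 2 ^ n)
  have inf : ∀ (Y : Set ℕ) (c : ℕ), (∀ n, 6 * n + c ∈ Y) → Y.Infinite := fun Y c h =>
    Set.infinite_of_injective_forall_mem (f := fun n => 6 * n + c)
      (fun a b e => by simp only at e; omega) h
  have hM : M.Infinite := Set.infinite_range_of_injective (Nat.pow_right_injective (le_refl 2))
  have hMc : Mᶜ.Infinite := inf _ 0 (fun n => by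
    rintro ⟨k, hk⟩
    have h1 : 3 ∣ 2 ^ k := ⟨2 * n, by simp only at hk; omega⟩
    exact absurd (Nat.prime_three.dvd_of_dvd_pow h1) (by norm_num))
  obtain ⟨e1, he1⟩ := moiety (Q := {a | a % 3 ≠ 0}) hM hMc
    (inf _ 1 (fun n => by simp only [Set.mem_setOf_eq]; omega))
    (inf _ 0 (fun n => by simp only [Set.mem_compl_iff, Set.mem_setOf_eq]; omega))
  obtain ⟨e2, he2⟩ := moiety (Q := {a | a % 3 ≠ 1}) hM hMc
    (inf _ 0 (fun n => by simp only [Set.mem_setOf_eq]; omega))
    (inf _ 1 (fun n => by simp only [Set.mem_compl_iff, Set.mem_setOf_eq]; omega))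
  let ι : Type := {σ : Perm ℕ // ∀ a, a ∉ M → σ a = a}
  let r : ι → ℕ → Bool := fun σ n => decide (σ.1 (Nat.unpair n).1 = (Nat.unpair n).2)
  have hr : Function.Injective r := by
    intro σ τ e
    refine Subtype.ext (Equiv.ext fun a => ?_)
    have := congrFun e (Nat.pair a (τ.1 a))
    simpa [r] using this
  let x : ι → Perm ℕ := fun σ => y (r σ) * σ.1 * (y (r σ))⁻¹
  have hx : ∀ i a, a ∉ Set.range (b (r i)) → x i a = a := by
    intro i a ha
    have h1 : (y (r i))⁻¹ a ∉ M := by
      rintro ⟨n, hn⟩
      refine ha ⟨n, ?_⟩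
      rw [← y_pow]
      simp only at hn
      rw [hn]; simp
    simp only [x, Perm.mul_apply, i.2 _ h1]
    simp
  obtain ⟨U, hU⟩ := H (Subgroup.closure (Set.range x ∪ {e1, e2})) (Subgroup.closure (Set.range y))
    (by
      set K := Subgroup.closure (Set.range x ∪ {e1, e2}) ⊔ Subgroup.closure (Set.range y)
      have m1 : ∀ s ∈ Set.range x ∪ {e1, e2}, s ∈ K := fun s hs =>
        Subgroup.mem_sup_left (Subgroup.subset_closure hs)
      have m2 : ∀ q, y q ∈ K := fun q =>
        Subgroup.mem_sup_right (Subgroup.subset_closure ⟨q, rfl⟩)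
      have F0 : Full K M := fun σ hσ => by
        have h1 := m1 (x ⟨σ, hσ⟩) (Or.inl ⟨_, rfl⟩)
        have h2 := (K.mul_mem_cancel_right (K.inv_mem (m2 _))).1 h1
        exact (K.mul_mem_cancel_left (m2 _)).1 h2
      exact gen_two K {a | a % 3 ≠ 0} {a | a % 3 ≠ 1}
        (fun a ha => by simp only [Set.mem_setOf_eq] at *; omega)
        (inf _ 2 (fun n => by simp only [Set.mem_inter_iff, Set.mem_setOf_eq]; omega))
        (F0.conj (m1 e1 (by simp)) he1) (F0.conj (m1 e2 (by simp)) he2))
  rcases hU with h | h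
  · rw [← Subgroup.closure_union, Set.union_assoc] at h
    exact thin x r hr hx _ (((Set.toFinite _).union U.finite_toSet).countable) h
  · rw [← Subgroup.closure_union] at h
    exact slow _ (by rintro _ ⟨q, rfl⟩; exact ⟨y_le q, y_le q⟩) U h

end Pool.Agent.S02168
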