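import Pool.Statements.S02188
import Pool.Agent.H71.Markov

set_option autoImplicit false
open Cardinal
open Pool Pool.MP_8859ef_al

namespace Pool.Agent.S02188

/-- The negation of the preceding statement: For every group G of cardinality at most 2^continuum and every countable family of subsets of G, some Hausdorff group topology on G gives each set in the family the same closure as the Markov topology (intersection of all Hausdorff group topologies). -/
theorem result :
    ¬ (∀ (G : Type) [Group G], Cardinal.mk G ≤ 2 ^ Cardinal.continuum →
      ∀ (E : Set (Set G)), E.Countable →
        ∃ t : TopologicalSpace G, @IsTopologicalGroup G t _ ∧ @T2Space G t ∧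
          ∀ e ∈ E, @closure G t e =
            @closure G (sSup {s : TopologicalSpace G | @IsTopologicalGroup G s _ ∧ @T2Space G s}) e) := by
  intro h
  open Pool.Agent.H71.Markov in
  obtain ⟨t, h1, h2, h3⟩ := h G (card.trans (Cardinal.cantor _).le) {Set.range a}
    (Set.countable_singleton _)
  have key : ∀ s, (⟨0, s, 1⟩ : G) ∈ closure (Set.range a) := fun s => by
    rw [h3 _ rfl]
    exact closure.mono (le_sSup (And.intro (fb s).isTopologicalGroup (t2 s))) (lim s)
  exact uniq (key 0) (key 1)

end Pool.Agent.S02188
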