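import Pool.Statements.S02194
-- import your own Pool.Agent.* helpers here

set_option autoImplicit false
open Pool Pool.MP_8999af_al

namespace Pool.Agent.S02194

abbrev X : Type := (ℤ_[2] → ZMod 2) × ZMod 2

def D : Type := Equiv.Perm X

noncomputable instance : Group D := inferInstanceAs (Group (Equiv.Perm X))

open Classical in
noncomputable instance : MetricSpace D where
  dist x y := if x = y then 0 else 1
  dist_self x := by simp
  dist_comm x y := by simp only [eq_comm]
  dist_triangle x y z := by
    by_cases h1 : x = y <;> by_cases h2 : y = z <;> by_cases h3 : x = z <;> simp_all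
  eq_of_dist_eq_zero := by
    intro x y h
    by_contra hh
    simp [hh] at h

lemma eq_of_dist {x y : D} (h : dist x y < 1) : x = y := by
  by_contra hh
  have : dist x y = 1 := by
    classical
    exact if_neg hh
  linarith

instance : DiscreteTopology D := by
  rw [discreteTopology_iff_isOpen_singleton]
  intro a
  have : ({a} : Set D) = Metric.ball a 1 := by
    ext x
    simp only [Set.mem_singleton_iff, Metric.mem_ball]
    exact ⟨fun h => by rw [h]; simp, eq_of_dist⟩
  rw [this]; exact Metric.isOpen_ball

instance : CompleteSpace D := by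
  refine Metric.complete_of_cauchySeq_tendsto fun u hu => ?_
  obtain ⟨N, hN⟩ := Metric.cauchySeq_iff'.1 hu 1 one_pos
  refine ⟨u N, tendsto_const_nhds.congr' ?_⟩
  filter_upwards [Filter.eventually_ge_atTop N] with n hn
  exact (eq_of_dist (hN n hn)).symm

abbrev G : Type := Multiplicative ℤ_[2] × D

/-- shift -/
noncomputable def sh (a : ℤ_[2]) : Equiv.Perm X where
  toFun p := (fun x => p.1 (x + a), p.2)
  invFun p := (fun x => p.1 (x - a), p.2)
  left_inv p := by simp
  right_inv p := by simp

open Classical in
noncomputable def ind : ℤ_[2] → ZMod 2 := fun x => if x = 0 then 1 else 0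

lemma two (x : ZMod 2) : x + x = 0 := by revert x; decide

noncomputable def dl : Equiv.Perm X where
  toFun p := (p.1 + ind, p.2)
  invFun p := (p.1 - ind, p.2)
  left_inv p := by simp
  right_inv p := by simp

noncomputable def tt : Equiv.Perm X where
  toFun p := (p.1, p.2 + p.1 0)
  invFun p := (p.1, p.2 - p.1 0)
  left_inv p := by simp
  right_inv p := by simp

def cc : Equiv.Perm X where
  toFun p := (p.1, p.2 + 1)
  invFun p := (p.1, p.2 - 1)
  left_inv p := by simp
  right_inv p := by simp

lemma sh_add (a b : ℤ_[2]) : sh (a + b) = sh a * sh b := by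
  ext p x
  · simp [sh, add_assoc]
  · simp [sh]

lemma sh_zero : sh 0 = 1 := by
  ext p x
  · simp [sh]
  · simp [sh]

/-- the conjugated shift homomorphisms -/
noncomputable def hom (e : ℤ_[2]) (g : Equiv.Perm X) : G →* G where
  toFun x := (1, (g * sh (e * x.1.toAdd) * g⁻¹ : Equiv.Perm X))
  map_one' := by
    refine Prod.ext rfl ?_
    change g * sh (e * 0) * g⁻¹ = 1
    simp [sh_zero]
  map_mul' x y := by
    refine Prod.ext (by simp) ?_
    change g * sh (e * (x.1.toAdd + y.1.toAdd)) * g⁻¹ =
      (g * sh (e * x.1.toAdd) * g⁻¹) * (g * sh (e * y.1.toAdd) * g⁻¹)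
    rw [mul_add, sh_add]; group

noncomputable def U : Fin 4 → G →* G := ![hom 1 1, hom (-1) dl, hom 1 (tt * dl), hom (-1) tt]

lemma key (a : ℤ_[2]) (ha : a ≠ 0) : (1 * sh (1 * a) * 1⁻¹) * ((dl * sh (-1 * a) * dl⁻¹) *
    (((tt * dl) * sh (1 * a) * (tt * dl)⁻¹) * (tt * sh (-1 * a) * tt⁻¹))) = cc := by
  ext p x
  · simp [sh, dl, tt, cc, Equiv.Perm.mul_apply, Equiv.Perm.inv_def]
  · simp [sh, dl, tt, cc, Equiv.Perm.mul_apply, Equiv.Perm.inv_def, ind, ha]
    ring

open Classical in
lemma prodU (x : G) : (List.ofFn (fun i => U i x)).prod =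
    if x.1.toAdd = 0 then 1 else ((1, cc) : G) := by
  simp only [List.ofFn_succ, List.ofFn_zero, List.prod_cons, List.prod_nil, mul_one]
  split_ifs with h
  · refine Prod.ext (by simp [U, hom]) ?_
    change (1 * sh (1 * x.1.toAdd) * 1⁻¹) * ((dl * sh (-1 * x.1.toAdd) * dl⁻¹) *
      (((tt * dl) * sh (1 * x.1.toAdd) * (tt * dl)⁻¹) * (tt * sh (-1 * x.1.toAdd) * tt⁻¹))) = 1
    rw [h]; simp [sh_zero]
  · refine Prod.ext (by simp [U, hom]) ?_
    exact key _ h

lemma cc_ne : cc ≠ 1 := by
  intro h
  have := congrArg (fun e : Equiv.Perm X => (e (0, 0)).2) h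
  simp [cc] at this

/-- The negation of the preceding statement: In a complete metric non-commutative topological group G, if U1,...,Un are homomorphisms G→G and x ↦ U1(x)⋯Un(x) is of some Baire class (iterated pointwise sequential limits of continuous maps), then that map is continuous. -/
theorem result :
    ¬ (∀ (G : Type) [Group G] [MetricSpace G] [IsTopologicalGroup G] [CompleteSpace G],
      (∃ a b : G, a * b ≠ b * a) →
      ∀ (n : ℕ) (U : Fin n → G →* G),
        (∀ S : Set (G → G),
          (∀ f : G → G, Continuous f → f ∈ S) →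
          (∀ (f : ℕ → G → G) (g : G → G), (∀ k, f k ∈ S) →
            (∀ x, Filter.Tendsto (fun k => f k x) Filter.atTop (nhds (g x))) → g ∈ S) →
          (fun x => (List.ofFn (fun i => U i x)).prod) ∈ S) →
        Continuous (fun x => (List.ofFn (fun i => U i x)).prod)) := by
  classical
  intro H
  have hc := H G ⟨(1, dl), (1, tt), fun h => by
    have := congrArg (fun e : G => ((show Equiv.Perm X from e.2) (0, 0)).2) h
    change ((dl * tt) (0, 0)).2 = ((tt * dl) (0, 0)).2 at this
    simp [dl, tt, ind] at this⟩ 4 U (fun S h1 h2 => by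
      refine h2 (fun k x => if x.1.toAdd ∈ Metric.ball (0 : ℤ_[2]) (1 / ((k : ℝ) + 1)) then 1
        else ((1, cc) : G)) _ (fun k => h1 _ ?_) (fun x => ?_)
      · have hcl : IsClopen {x : G | x.1.toAdd ∈ Metric.ball (0 : ℤ_[2]) (1 / ((k : ℝ) + 1))} :=
          (IsUltrametricDist.isClopen_ball _ _).preimage (continuous_toAdd.comp continuous_fst)
        refine continuous_if (fun a ha => ?_) continuousOn_const continuousOn_const
        rw [hcl.frontier_eq] at ha
        exact absurd ha (Set.notMem_empty a)
      · rw [prodU]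
        refine tendsto_const_nhds.congr' ?_
        split_ifs with h
        · refine Filter.Eventually.of_forall fun k => ?_
          exact (if_pos (by rw [h]; exact Metric.mem_ball_self (by positivity))).symm
        · have hp : 0 < ‖x.1.toAdd‖ := norm_pos_iff.2 h
          filter_upwards [tendsto_one_div_add_atTop_nhds_zero_nat.eventually (gt_mem_nhds hp)]
            with k hk
          refine (if_neg ?_).symm
          simp only [Metric.mem_ball, dist_zero_right, not_lt]
          exact hk.le)
  simp only [prodU] at hc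
  have h2 : Continuous fun a : ℤ_[2] => (if a = 0 then 1 else ((1, cc) : G)).2 :=
    continuous_snd.comp (hc.comp (f := fun a : ℤ_[2] => ((Multiplicative.ofAdd a, 1) : G))
      (continuous_ofAdd.prodMk continuous_const))
  have h3 : IsOpen ({0} : Set ℤ_[2]) := by
    have := (isOpen_discrete ({1} : Set D)).preimage h2
    convert this using 1
    ext a
    by_cases h : a = 0
    · simp [h]
    · simp only [Set.mem_singleton_iff, h, Set.mem_preimage, if_false, false_iff]
      exact cc_ne
  obtain ⟨e, he, hb⟩ := Metric.isOpen_iff.1 h3 0 rfl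
  obtain ⟨k, hk⟩ := exists_pow_lt_of_lt_one he (show ‖((2 : ℕ) : ℤ_[2])‖ < 1 by rw [PadicInt.norm_p]; norm_num)
  have : ((2 : ℕ) : ℤ_[2]) ^ k = 0 := hb (by simpa [norm_pow] using hk)
  exact pow_ne_zero k (by norm_num) this

end Pool.Agent.S02194
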