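import Pool.Statements.S02214
import Pool.Agent.H30.TwB

set_option autoImplicit false
open Pool Pool.MP_8b7a67_al

namespace Pool.Agent.S02214

open Pool.Agent.H30.Tw

/-- The negation of the preceding statement: There is a computable procedure that, given a rank r, automorphisms of the free group of rank r given by generator images, and an equation in constants and twisted variables x_i^φ, decides whether the equation has a solution in that free group. -/
theorem result :
    ¬ (∃ f : ℕ × List ((ℕ ⊕ ℕ) × Bool) × List (ℕ × List (List (ℕ × Bool))) → Bool,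
      Computable f ∧
      ∀ (r : ℕ) (w : List ((ℕ ⊕ ℕ) × Bool)) (S : List (ℕ × List (List (ℕ × Bool)))),
        (∀ p ∈ w, ∀ j : ℕ, p.1 = Sum.inr j → j < S.length) →
        (∀ q ∈ S, q.2.length = r ∧
          Function.Bijective
            (FreeGroup.lift (fun k : Fin r =>
              FreeGroup.lift
                (fun m : ℕ => if h : m < r then FreeGroup.of (⟨m, h⟩ : Fin r) else 1)
                (FreeGroup.mk (q.2.getD k.val [])))
              : FreeGroup (Fin r) → FreeGroup (Fin r))) →
        (f (r, w, S) = true ↔
          ∃ x : ℕ → FreeGroup (Fin r),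
            FreeGroup.lift
              (Sum.elim
                (fun m : ℕ => if h : m < r then FreeGroup.of (⟨m, h⟩ : Fin r) else 1)
                (fun j : ℕ =>
                  FreeGroup.lift (fun k : Fin r =>
                    FreeGroup.lift
                      (fun m : ℕ => if h : m < r then FreeGroup.of (⟨m, h⟩ : Fin r) else 1)
                      (FreeGroup.mk ((S.getD j (0, [])).2.getD k.val [])))
                    (x (S.getD j (0, [])).1)))
              (FreeGroup.mk w) = 1)) := by
  classical
  rintro ⟨f, hf, H⟩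
  obtain ⟨P, i, w, hP, h⟩ := system
  let im : ℕ → List (List (ℕ × Bool)) := fun t => match t with
    | 1 => [[(0, true)], [(1, true), (0, true)], [(2, true)], [(3, true)], [(4, true)]]
    | 2 => [[(0, true)], [(0, true), (1, true)], [(2, true)], [(3, true)], [(4, true)]]
    | 3 => [[(0, true)], [(1, true)], [(2, true)], [(3, false)], [(4, false)]]
    | _ => [[(0, true)], [(1, true)], [(2, true)], [(3, true)], [(4, true)]]
  have him : ∀ t < 4, (im t).length = 5 ∧ FreeGroup.lift (fun k : Fin 5 => FreeGroup.lift cs
      (FreeGroup.mk ((im t).getD k.val []))) = au t := fun t ht => by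
    interval_cases t <;> refine ⟨rfl, FreeGroup.ext_hom _ _ fun k => ?_⟩ <;> fin_cases k <;>
      simp [im, au, ψ, κ, cs, FreeGroup.lift_mk]
  have hb : ∀ t < 4, Function.Bijective (au t) := fun t ht => by
    have a : ∀ p q, Function.Bijective (ψ p q) := fun p q =>
      Function.bijective_iff_has_inverse.2 ⟨ψ (-p) (-q), fun x => by rw [← ψ_add]; simp [ψ_zero],
        fun x => by rw [← ψ_add]; simp [ψ_zero]⟩
    interval_cases t
    exacts [Function.bijective_id, a _ _, a _ _, Function.Involutive.bijective κ_κ]
  let N : ℕ := i + 1 + (w.toWord.map fun p => Sum.elim id id p.1 + 1).sum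
  let S : List (ℕ × List (List (ℕ × Bool))) := (List.range N).map fun j => (j / 4, im (j % 4))
  let U : ℕ → List ((ℕ ⊕ ℕ) × Bool) := fun m => [(.inr i, true)] ++ List.replicate m (.inl 0, false) ++
    [(.inl 1, true)] ++ List.replicate m (.inl 0, true) ++ [(.inr i, false), (.inl 1, false), (.inl 0, true)]
  let E : ℕ → List ((ℕ ⊕ ℕ) × Bool) := fun m =>
    U m ++ U m ++ (w.toWord ++ w.toWord ++ [(.inl 0, false), (.inl 0, false)])
  have hr : ∀ x : (ℕ ⊕ ℕ) × Bool, Primrec fun m : ℕ => List.replicate m x := fun x => by
    have : Primrec fun m : ℕ => Nat.rec (motive := fun _ => List ((ℕ ⊕ ℕ) × Bool)) []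
        (fun _ l => x :: l) m :=
      Primrec.nat_rec₁ [] (Primrec.list_cons.comp (Primrec.const _) Primrec.snd).to₂
    refine this.of_eq fun m => ?_
    induction m with
    | zero => rfl
    | succ m ih => simp [List.replicate_succ, ← ih]
  have hU : Primrec U := Primrec.list_append.comp (Primrec.list_append.comp (Primrec.list_append.comp
    (Primrec.list_append.comp (Primrec.const _) (hr _)) (Primrec.const _)) (hr _)) (Primrec.const _)
  have hE : Primrec E := Primrec.list_append.comp (Primrec.list_append.comp hU hU) (Primrec.const _)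
  have hN : ∀ m, ∀ p ∈ E m, ∀ j : ℕ, p.1 = Sum.inr j → j < N := fun m p hp j hj => by
    by_cases h1 : p ∈ w.toWord
    · have := List.single_le_sum (l := w.toWord.map fun p => Sum.elim id id p.1 + 1) (by simp) _
        (List.mem_map_of_mem h1)
      simp only [hj, Sum.elim_inr, id] at this
      omega
    · obtain ⟨_, b⟩ := p
      obtain rfl := hj
      simp [E, U, h1] at hp
      omega
  have hg : ∀ {G : Type} [Group G] (g g' : ℕ ⊕ ℕ → G) (L : List ((ℕ ⊕ ℕ) × Bool)),
      (∀ p ∈ L, g p.1 = g' p.1) → FreeGroup.lift g (.mk L) = FreeGroup.lift g' (.mk L) := by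
    intro G _ g g' L hL
    rw [FreeGroup.lift_mk, FreeGroup.lift_mk, List.map_congr_left fun p hp => by rw [hL p hp]]
  refine hP ⟨inferInstance, (hf.comp ((Primrec.const 5).pair (hE.pair (Primrec.const S))).to_comp).of_eq
    fun m => ?_⟩
  rw [Bool.eq_iff_iff, decide_eq_true_iff, h, H 5 _ S (by simpa [S] using hN m)]
  · refine exists_congr fun x => iff_of_eq (congrArg (· = 1) ?_)
    refine (hg _ (Sum.elim cs fun j => au (j % 4) (x (j / 4))) _ ?_).trans ?_
    · rintro ⟨a | j, b⟩ hp
      · rfl
      · have h1 := hN m _ hp j rfl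
        have h2 : S.getD j (0, []) = (j / 4, im (j % 4)) := by simp [S, h1]
        simp only [Sum.elim_inr, h2]
        exact DFunLike.congr_fun (him _ (Nat.mod_lt _ (by decide))).2 _
    · change ev x _ = _
      congr 1
      have a : ∀ (y : (ℕ ⊕ ℕ) × Bool) (n : ℕ), FreeGroup.mk (List.replicate n y) = FreeGroup.mk [y] ^ n :=
        fun y n => by
          induction n with
          | zero => rfl
          | succ n ih => rw [pow_succ', ← ih, FreeGroup.mul_mk]; rfl
      have b : FreeGroup.mk (U m) = FreeGroup.of (.inr i) * (K 0)⁻¹ ^ m * K 1 * K 0 ^ m *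
          (FreeGroup.of (.inr i))⁻¹ * (K 1)⁻¹ * K 0 := by
        simp only [U, ← FreeGroup.mul_mk, a, mul_assoc]
        rfl
      simp only [E, ← FreeGroup.mul_mk, b, FreeGroup.mk_toWord, W, mul_assoc]
      rfl
  · intro q hq
    obtain ⟨j, -, rfl⟩ := List.mem_map.1 hq
    have := him _ (Nat.mod_lt j (by decide : 4 > 0))
    exact ⟨this.1, by
      change Function.Bijective (FreeGroup.lift fun k : Fin 5 => FreeGroup.lift cs _)
      rw [this.2]
      exact hb _ (Nat.mod_lt j (by decide))⟩

end Pool.Agent.S02214
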