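import Pool.Statements.S02219
import Pool.Agent.H65.Palin

set_option autoImplicit false
open Pool Pool.MP_8bc403_al

namespace Pool.Agent.S02219

/-- There is a group with finite generating sets X and Y such that every element is a product of boundedly many palindromes over X, but no such bound exists for palindromes over Y. -/
theorem result :
    ∃ (G : Type) (_ : Group G) (X Y : Finset G),
      Subgroup.closure (X : Set G) = ⊤ ∧ Subgroup.closure (Y : Set G) = ⊤ ∧
      (∃ N : ℕ, ∀ g : G, ∃ ps : List G, ps.length ≤ N ∧ ps.prod = g ∧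
        ∀ p ∈ ps, ∃ w : List G, (∀ x ∈ w, x ∈ X ∨ x⁻¹ ∈ X) ∧ w.reverse = w ∧ w.prod = p) ∧
      ¬ (∃ N : ℕ, ∀ g : G, ∃ ps : List G, ps.length ≤ N ∧ ps.prod = g ∧
        ∀ p ∈ ps, ∃ w : List G, (∀ x ∈ w, x ∈ Y ∨ x⁻¹ ∈ Y) ∧ w.reverse = w ∧ w.prod = p) := by
  exact ⟨FreeGroup (Fin 2), inferInstance, H65.Palin.X, {H65.Palin.a, H65.Palin.b},
    H65.Palin.closure_X, H65.Palin.closure_ab, H65.Palin.finite_width, H65.Palin.infinite_width⟩

end Pool.Agent.S02219
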