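import Pool.Statements.S02240
import Pool.Agent.H68.Rm2

set_option autoImplicit false
open Pool Pool.MP_8ef39f_al

namespace Pool.Agent.S02240

theorem result :
    ¬ (∀ (G : Type) [Group G] [Finite G],
      Set.Finite
        {F : ∀ (H : Type) [Group H], Prop |
          (∀ (H : Type) [Group H], F H → Finite H) ∧
          (∀ (H K : Type) [Group H] [Group K], (H ≃* K) → F H → F K) ∧
          (∀ (H : Type) [Group H] (N : Subgroup H) [N.Normal], F H → F (H ⧸ N)) ∧
          (∀ (H : Type) [Group H] (N₁ N₂ : Subgroup H) [N₁.Normal] [N₂.Normal],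
              F (H ⧸ N₁) → F (H ⧸ N₂) → F (H ⧸ (N₁ ⊓ N₂))) ∧
          (∀ (H : Type) [Group H] (N : Subgroup H), N.Normal → F H → F N) ∧
          (∀ (H : Type) [Group H], F H →
              ∀ F' : ∀ (K : Type) [Group K], Prop,
                (∀ (K : Type) [Group K], F' K → Finite K) →
                (∀ (K L : Type) [Group K] [Group L], (K ≃* L) → F' K → F' L) →
                (∀ (K : Type) [Group K] (N : Subgroup K) [N.Normal], F' K → F' (K ⧸ N)) →
                (∀ (K : Type) [Group K] (N₁ N₂ : Subgroup K) [N₁.Normal] [N₂.Normal],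
                    F' (K ⧸ N₁) → F' (K ⧸ N₂) → F' (K ⧸ (N₁ ⊓ N₂))) →
                F' G → F' H)}) := by
  open Pool.Agent.H68.Sat Pool.Agent.H68.Rm in
  intro h
  refine Set.infinite_of_injective_forall_mem hh_inj (fun r => ?_) (h G1)
  refine ⟨fun _ _ => HH.fin, fun _ _ _ _ e a => a.surj e.toMonoidHom e.surjective,
    fun _ _ N _ a => a.surj _ (mk_surj N), fun H _ N L _ _ a b => ?_, fun _ _ N _ a => a.nor N,
    fun H _ a F h1 h2 h3 h4 b => a.fm ⟨h1, fun _ _ _ _ ⟨e⟩ => h2 _ _ e, h3, fun K _ _ N L _ _ e c d =>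
      h2 _ _ ((QuotientGroup.quotientMulEquivOfEq e).trans QuotientGroup.quotientBot) (h4 K N L c d)⟩ b⟩
  obtain ⟨α, h1⟩ := exists_lift _ (mk_surj (N ⊓ L)) (QuotientGroup.mk' N)
    fun g hg => mk_one.2 (mk_one.1 hg).1
  obtain ⟨β, h2⟩ := exists_lift _ (mk_surj (N ⊓ L)) (QuotientGroup.mk' L)
    fun g hg => mk_one.2 (mk_one.1 hg).2
  refine HH.pair α β (fun x => ?_) (fun x => ?_) (fun g x y => ?_) a b
  · obtain ⟨g, rfl⟩ := mk_surj _ x; exact ⟨_, h1 g⟩
  · obtain ⟨g, rfl⟩ := mk_surj _ x; exact ⟨_, h2 g⟩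
  obtain ⟨g, rfl⟩ := mk_surj _ g
  exact mk_one.2 ⟨mk_one.1 ((h1 g).symm.trans x), mk_one.1 ((h2 g).symm.trans y)⟩

end Pool.Agent.S02240
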