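import Pool.Statements.S02241
import Pool.Agent.H71.Stol

set_option autoImplicit false
open Pool Pool.MP_8f228a_al

namespace Pool.Agent.S02241

/-- There is a proper subgroup G of the permutations of ℕ that is transitive on ℕ and, for any two orderings of ℕ each isomorphic to the rationals, contains a permutation carrying the first ordering onto the second. -/
theorem result :
    ∃ G : Subgroup (Equiv.Perm ℕ), G ≠ ⊤ ∧
      (∀ a b : ℕ, ∃ g ∈ G, g a = b) ∧
      ∀ r s : ℕ → ℕ → Prop,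
        Nonempty (r ≃r (fun p q : ℚ => p < q)) →
        Nonempty (s ≃r (fun p q : ℚ => p < q)) →
        ∃ g ∈ G, ∀ x y : ℕ, s (g x) (g y) ↔ r x y := by
  refine ⟨Pool.Agent.H71.Stol.St, Pool.Agent.H71.Stol.St_ne_top,
    fun a b => ⟨Equiv.swap a b, Pool.Agent.H71.Stol.swap_mem a b, Equiv.swap_apply_left a b⟩, ?_⟩
  rintro r s ⟨e⟩ ⟨f⟩
  obtain ⟨g, hg, h⟩ := Pool.Agent.H71.Stol.exists_iso e.toEquiv f.toEquiv
  exact ⟨g, hg, fun x y => f.map_rel_iff.symm.trans ((h x y).trans e.map_rel_iff)⟩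

end Pool.Agent.S02241
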