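import Pool.Statements.S02271
import Pool.Agent.H70.Cryst3

set_option autoImplicit false
open Pool Pool.MP_908eba_al

namespace Pool.Agent.S02271

/-- For every crystallographic group Γ of motions of ℝ^{p,q}, only finitely many subgroups of Γ arise as the translation lattice under some faithful realisation of Γ as a crystallographic group of motions of ℝ^{p,q}. -/
theorem result :
  ∀ (p q : ℕ) (Γ : Subgroup ((Fin p ⊕ Fin q → ℝ) ≃ᵃ[ℝ] (Fin p ⊕ Fin q → ℝ))),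
    (∀ f ∈ Γ, ∀ v : Fin p ⊕ Fin q → ℝ,
      (∑ i : Fin p, (f.linear v (Sum.inl i)) ^ 2) - (∑ j : Fin q, (f.linear v (Sum.inr j)) ^ 2)
        = (∑ i : Fin p, (v (Sum.inl i)) ^ 2) - (∑ j : Fin q, (v (Sum.inr j)) ^ 2)) →
    (∃ b : Module.Basis (Fin p ⊕ Fin q) ℝ (Fin p ⊕ Fin q → ℝ),
      {w : Fin p ⊕ Fin q → ℝ | ∃ f ∈ Γ, f.linear = LinearEquiv.refl ℝ (Fin p ⊕ Fin q → ℝ) ∧ f 0 = w}
        = (Submodule.span ℤ (Set.range b) : Set (Fin p ⊕ Fin q → ℝ))) →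
    {L : Subgroup Γ | ∃ φ : Γ →* ((Fin p ⊕ Fin q → ℝ) ≃ᵃ[ℝ] (Fin p ⊕ Fin q → ℝ)),
        Function.Injective φ ∧
        (∀ g : Γ, ∀ v : Fin p ⊕ Fin q → ℝ,
          (∑ i : Fin p, ((φ g).linear v (Sum.inl i)) ^ 2) - (∑ j : Fin q, ((φ g).linear v (Sum.inr j)) ^ 2)
            = (∑ i : Fin p, (v (Sum.inl i)) ^ 2) - (∑ j : Fin q, (v (Sum.inr j)) ^ 2)) ∧
        (∃ b : Module.Basis (Fin p ⊕ Fin q) ℝ (Fin p ⊕ Fin q → ℝ),
          {w : Fin p ⊕ Fin q → ℝ | ∃ g : Γ, (φ g).linear = LinearEquiv.refl ℝ (Fin p ⊕ Fin q → ℝ) ∧ φ g 0 = w}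
            = (Submodule.span ℤ (Set.range b) : Set (Fin p ⊕ Fin q → ℝ))) ∧
        ∀ g : Γ, g ∈ L ↔ (φ g).linear = LinearEquiv.refl ℝ (Fin p ⊕ Fin q → ℝ)}.Finite := by
  intro p q Γ _ _
  obtain ⟨β, hβ⟩ : ∃ β : (Fin p ⊕ Fin q → ℝ) →ₗ[ℝ] (Fin p ⊕ Fin q → ℝ) →ₗ[ℝ] ℝ, ∀ v w,
      β v w = ∑ i, v (Sum.inl i) * w (Sum.inl i) - ∑ j, v (Sum.inr j) * w (Sum.inr j) :=
    ⟨LinearMap.mk₂ ℝ (fun v w =>
      ∑ i, v (Sum.inl i) * w (Sum.inl i) - ∑ j, v (Sum.inr j) * w (Sum.inr j))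
      (fun _ _ _ => by simp only [Pi.add_apply, add_mul, Finset.sum_add_distrib]; ring)
      (fun _ _ _ => by simp only [Pi.smul_apply, smul_eq_mul, mul_sub, Finset.mul_sum, mul_assoc])
      (fun _ _ _ => by simp only [Pi.add_apply, mul_add, Finset.sum_add_distrib]; ring)
      (fun _ _ _ => by
        simp only [Pi.smul_apply, smul_eq_mul, mul_sub, Finset.mul_sum, mul_left_comm]),
      fun _ _ => rfl⟩
  refine (Pool.Agent.H70.Cryst.Lat.finite (Γ := Γ) (ι := Fin p ⊕ Fin q)).subset ?_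
  rintro L ⟨φ, h1, h2, ⟨b, h3⟩, h4⟩
  obtain ⟨Q, hQ⟩ := Pool.Agent.H70.Cryst.mkLat b φ h1 β
    (fun v w => by simp only [hβ, mul_comm])
    (fun v hv => by
      funext k
      have := LinearMap.congr_fun hv (Pi.single k 1)
      rw [hβ] at this
      rcases k with k | k <;> simpa [Pi.single_apply] using this)
    (fun g v => by simpa only [hβ, sq] using h2 g v) h3
  exact ⟨Q, Subgroup.ext fun g => (hQ g).trans (h4 g).symm⟩

end Pool.Agent.S02271
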