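import Pool.Statements.S02332
import Pool.Agent.H68.Ec5

set_option autoImplicit false
open Pool Pool.MP_9442c3_al

namespace Pool.Agent.S02332

theorem result :
    ¬ (∀ (r : ℕ), 2 ≤ r → ∀ H : Subgroup (FreeGroup (Fin r)),
      (∀ (n : ℕ) (E I : Finset (Monoid.Coprod (FreeGroup (Fin n)) ↥H)),
        (∃ x : Fin n → FreeGroup (Fin r),
          (∀ w ∈ E, Monoid.Coprod.lift (FreeGroup.lift x) H.subtype w = 1) ∧
          (∀ v ∈ I, Monoid.Coprod.lift (FreeGroup.lift x) H.subtype v ≠ 1)) →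
        (∃ y : Fin n → ↥H,
          (∀ w ∈ E, Monoid.Coprod.lift (FreeGroup.lift y) (MonoidHom.id ↥H) w = 1) ∧
          (∀ v ∈ I, Monoid.Coprod.lift (FreeGroup.lift y) (MonoidHom.id ↥H) v ≠ 1))) →
      (∃ a ∈ H, ∃ b ∈ H, a * b ≠ b * a) ∧
      ∃ K : Subgroup (FreeGroup (Fin r)),
        Function.Bijective (Monoid.Coprod.lift H.subtype K.subtype)) := by
  intro h
  obtain ⟨-, K, hK⟩ := h 4 (by norm_num) Pool.Agent.H68.Ec.ι.range Pool.Agent.H68.Ec.ec
  exact Pool.Agent.H68.Ec.not_factor K hK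

end Pool.Agent.S02332
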