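import Pool.Statements.S02341
import Pool.Agent.H78.VirE

set_option autoImplicit false
open Pool Pool.MP_94cd9d_al

namespace Pool.Agent.S02341

/-- For every complex c ≠ 0, the ℂ-algebra generated by L_n (n∈ℤ) modulo [L_m,L_n] = (m−n)L_{m+n} + δ_{m+n,0}·c(m³−m)/12 is a simple ring (nontrivial, only trivial two-sided ideals). -/
theorem result :
    ∀ c : ℂ, c ≠ 0 →
      IsSimpleRing
        (RingQuot (fun a b : FreeAlgebra ℂ ℤ =>
          ∃ m n : ℤ,
            a = FreeAlgebra.ι ℂ m * FreeAlgebra.ι ℂ n - FreeAlgebra.ι ℂ n * FreeAlgebra.ι ℂ m ∧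
            b = ((m - n : ℤ) : ℂ) • FreeAlgebra.ι ℂ (m + n) +
              (if m + n = 0 then
                algebraMap ℂ (FreeAlgebra ℂ ℤ) (c * ((m : ℂ) ^ 3 - (m : ℂ)) / 12)
               else 0))) := by
  intro c hc
  set rel : FreeAlgebra ℂ ℤ → FreeAlgebra ℂ ℤ → Prop := fun a b : FreeAlgebra ℂ ℤ =>
          ∃ m n : ℤ,
            a = FreeAlgebra.ι ℂ m * FreeAlgebra.ι ℂ n - FreeAlgebra.ι ℂ n * FreeAlgebra.ι ℂ m ∧
            b = ((m - n : ℤ) : ℂ) • FreeAlgebra.ι ℂ (m + n) +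
              (if m + n = 0 then
                algebraMap ℂ (FreeAlgebra ℂ ℤ) (c * ((m : ℂ) ^ 3 - (m : ℂ)) / 12)
               else 0) with hrel
  have hw : ∀ (B : Type) [Ring B] [Algebra ℂ B] (φ : FreeAlgebra ℂ ℤ →ₐ[ℂ] B) (m n : ℤ),
      φ (if m + n = 0 then algebraMap ℂ (FreeAlgebra ℂ ℤ) (c * ((m : ℂ) ^ 3 - (m : ℂ)) / 12)
        else 0) = H78.Vir.ww c m n • (1 : B) := by
    intro B _ _ φ m n
    unfold H78.Vir.ww
    split_ifs
    · rw [AlgHom.commutes, Algebra.algebraMap_eq_smul_one]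
    · rw [map_zero, zero_smul]
  haveI : Nontrivial (RingQuot rel) := by
    obtain ⟨L, hL, hn⟩ := H78.Vir.exists_rep c
    let φ : RingQuot rel →ₐ[ℂ] _ := RingQuot.liftAlgHom ℂ ⟨FreeAlgebra.lift ℂ L, by
      rintro _ _ ⟨m, n, rfl, rfl⟩
      rw [map_add, hw]
      simp only [map_sub, map_mul, map_smul, FreeAlgebra.lift_ι_apply, hL, Int.cast_sub]⟩
    exact φ.toRingHom.domain_nontrivial
  let L : ℤ → RingQuot rel := fun m => RingQuot.mkAlgHom ℂ rel (FreeAlgebra.ι ℂ m)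
  have hL : ∀ m n : ℤ, L m * L n - L n * L m =
      ((m : ℂ) - n) • L (m + n) + H78.Vir.ww c m n • (1 : RingQuot rel) := by
    intro m n
    have := RingQuot.mkAlgHom_rel ℂ (s := rel) ⟨m, n, rfl, rfl⟩
    rw [map_add, hw] at this
    simpa only [map_sub, map_mul, map_smul, Int.cast_sub] using this
  have hall : ∀ x : RingQuot rel, ∃ k, x ∈ H78.Vir.Fl L k := by
    intro x
    obtain ⟨x, rfl⟩ := RingQuot.mkAlgHom_surjective ℂ rel x
    induction x using FreeAlgebra.induction with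
    | grade0 r =>
      refine ⟨1, ?_⟩
      rw [AlgHom.commutes, Algebra.algebraMap_eq_smul_one]
      exact Submodule.smul_mem _ _ (H78.Vir.Fl_mem L [] (by simp))
    | grade1 m => exact ⟨2, by simpa using H78.Vir.Fl_mem L [m] (k := 2) (by simp)⟩
    | mul x y hx hy =>
      obtain ⟨a, ha⟩ := hx
      obtain ⟨b, hb⟩ := hy
      exact ⟨a + b, by rw [map_mul]; exact H78.Vir.Fl_mul L (H78.Vir.Fl_mono L a.le_succ ha) hb⟩
    | add x y hx hy =>
      obtain ⟨a, ha⟩ := hx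
      obtain ⟨b, hb⟩ := hy
      refine ⟨a + b, ?_⟩
      rw [map_add]
      exact add_mem (H78.Vir.Fl_mono L (Nat.le_add_right a b) ha)
        (H78.Vir.Fl_mono L (Nat.le_add_left b a) hb)
  refine IsSimpleRing.of_eq_bot_or_eq_top fun I => ?_
  by_cases h1 : (1 : RingQuot rel) ∈ I
  · exact Or.inr ((TwoSidedIdeal.one_mem_iff I).mp h1)
  · left
    let J : Submodule ℂ (RingQuot rel) :=
      { carrier := I
        add_mem' := fun ha hb => I.add_mem ha hb
        zero_mem' := I.zero_mem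
        smul_mem' := fun r x hx => by
          rw [Algebra.smul_def]; exact I.mul_mem_left _ _ hx }
    have hJ : ∀ a, ∀ x ∈ J, H78.Vir.ad L a x ∈ J := fun a x hx =>
      I.sub_mem (I.mul_mem_left _ _ hx) (I.mul_mem_right _ _ hx)
    rw [eq_bot_iff]
    intro x hx
    obtain ⟨k, hk⟩ := hall x
    exact (TwoSidedIdeal.mem_bot _).mpr (H78.Vir.J_zero c L hL J hJ hc h1 k x hx hk)

end Pool.Agent.S02341
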