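import Pool.Statements.S02351
import Pool.Agent.H74.ShufHall

set_option autoImplicit false
open Pool Pool.MP_9504dd_al

namespace Pool.Agent.S02351

open Pool.Agent.H74.Shuf

noncomputable def rv {A : Type} : (List A →₀ ℚ) →ₗ[ℚ] Sh A := Finsupp.lmapDomain ℚ ℚ List.reverse

theorem rv_single {A : Type} (w : List A) : rv (Finsupp.single w (1 : ℚ)) = wd w.reverse :=
  Finsupp.mapDomain_single

theorem rv_inj {A : Type} : Function.Injective (rv (A := A)) :=
  Finsupp.mapDomain_injective List.reverse_injective

theorem rv_snoc {A : Type} (a : A) (x : List A →₀ ℚ) :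
    rv (Finsupp.mapDomain (fun w : List A => w ++ [a]) x) = I a (rv x) := by
  show Finsupp.mapDomain List.reverse (Finsupp.mapDomain (fun w : List A => w ++ [a]) x) =
    Finsupp.mapDomain (List.cons a) (Finsupp.mapDomain List.reverse x)
  rw [← Finsupp.mapDomain_comp, ← Finsupp.mapDomain_comp]
  congr 1
  funext w
  simp

theorem single_eq {A : Type} (w : List A) (c : ℚ) :
    (Finsupp.single w c : List A →₀ ℚ) = c • Finsupp.single w (1 : ℚ) := by
  rw [Finsupp.smul_single, smul_eq_mul, mul_one]

/-- For every finite alphabet and every Hall set, the shuffle products of Hall areas over multisets of Hall trees form a basis of the shuffle algebra, where areas are built with the commutator of the half shuffle. -/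
theorem result :
  ∀ (d : ℕ) (H : Set (FreeMagma (Fin d))) (r : FreeMagma (Fin d) → FreeMagma (Fin d) → Prop)
    (sh hs : (List (Fin d) →₀ ℚ) →ₗ[ℚ] (List (Fin d) →₀ ℚ) →ₗ[ℚ] (List (Fin d) →₀ ℚ))
    (ar : FreeMagma (Fin d) → (List (Fin d) →₀ ℚ)),
    IsStrictTotalOrder (FreeMagma (Fin d)) r →
    (∀ a : Fin d, FreeMagma.of a ∈ H) →
    (∀ t' t'' : FreeMagma (Fin d), t' * t'' ∈ H → t'' ∈ H ∧ r (t' * t'') t'') →
    (∀ t' t'' : FreeMagma (Fin d), t' * t'' ∈ H ↔
      (t' ∈ H ∧ t'' ∈ H ∧ r t' t'' ∧
        ((∃ a : Fin d, t' = FreeMagma.of a) ∨ ∃ u v : FreeMagma (Fin d), t' = u * v ∧ ¬ r v t''))) →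
    (∀ x, sh (Finsupp.single [] 1) x = x) →
    (∀ x, sh x (Finsupp.single [] 1) = x) →
    (∀ (u v : List (Fin d)) (a b : Fin d),
      sh (Finsupp.single (u ++ [a]) 1) (Finsupp.single (v ++ [b]) 1) =
        Finsupp.mapDomain (fun w : List (Fin d) => w ++ [a])
            (sh (Finsupp.single u 1) (Finsupp.single (v ++ [b]) 1)) +
          Finsupp.mapDomain (fun w : List (Fin d) => w ++ [b])
            (sh (Finsupp.single (u ++ [a]) 1) (Finsupp.single v 1))) →
    (∀ x, hs x (Finsupp.single [] 1) = 0) →
    (∀ (x : List (Fin d) →₀ ℚ) (v : List (Fin d)) (b : Fin d),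
      hs x (Finsupp.single (v ++ [b]) 1) =
        Finsupp.mapDomain (fun w : List (Fin d) => w ++ [b]) (sh x (Finsupp.single v 1))) →
    (∀ a : Fin d, ar (FreeMagma.of a) = Finsupp.single [a] 1) →
    (∀ x y : FreeMagma (Fin d), ar (x * y) = hs (ar x) (ar y) - hs (ar y) (ar x)) →
    LinearIndependent ℚ
      (fun l : {l : List (FreeMagma (Fin d)) //
          (∀ t ∈ l, t ∈ H) ∧ l.Pairwise (fun x y => ¬ r x y)} =>
        l.1.foldr (fun t acc => sh (ar t) acc) (Finsupp.single [] 1)) ∧
    Submodule.span ℚ (Set.range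
      (fun l : {l : List (FreeMagma (Fin d)) //
          (∀ t ∈ l, t ∈ H) ∧ l.Pairwise (fun x y => ¬ r x y)} =>
        l.1.foldr (fun t acc => sh (ar t) acc) (Finsupp.single [] 1))) = ⊤ := by
  intro d H r sh hs' ar h0 h1 h2 h3 s1 s2 s3 t1 t2 a1 a2
  have hall : Hall H r := ⟨h0, h1, h2, h3⟩
  have shw : ∀ n : ℕ, ∀ u v : List (Fin d), u.length + v.length < n →
      rv (sh (Finsupp.single u 1) (Finsupp.single v 1)) = wd u.reverse * wd v.reverse := by
    intro n
    induction n with
    | zero => intro u v h; omega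
    | succ n ih =>
      intro u v h
      rcases List.eq_nil_or_concat' u with rfl | ⟨u, a, rfl⟩
      · rw [s1, rv_single, List.reverse_nil, ← one_def, one_mul]
      rcases List.eq_nil_or_concat' v with rfl | ⟨v, b, rfl⟩
      · rw [s2, rv_single, List.reverse_nil, ← one_def, mul_one]
      simp only [List.length_append, List.length_singleton] at h
      rw [s3, map_add, rv_snoc, rv_snoc, ih _ _ (by simp; omega), ih _ _ (by simp; omega)]
      simp only [List.reverse_append, List.reverse_singleton, List.singleton_append]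
      rw [wd_mul_cons]
  have shm : ∀ x y, rv (sh x y) = rv x * rv y := by
    intro x y
    induction x using Finsupp.induction_linear with
    | zero => simp
    | add f g hf hg => simp only [map_add, LinearMap.add_apply, hf, hg, add_mul]
    | single u c =>
      induction y using Finsupp.induction_linear with
      | zero => simp
      | add f g hf hg => simp only [map_add, hf, hg, mul_add]
      | single v c' =>
        rw [single_eq u c, single_eq v c']
        simp only [map_smul, LinearMap.smul_apply, shw _ u v (Nat.lt_succ_self _), rv_single,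
          smul_mul_assoc, mul_smul_comm]
  have hsm : ∀ x y, rv (hs' x y) = hs (rv x) (rv y) := by
    intro x y
    induction y using Finsupp.induction_linear with
    | zero => simp
    | add f g hf hg => simp only [map_add, hf, hg]
    | single v c =>
      rw [single_eq v c]
      simp only [map_smul]
      congr 1
      rcases List.eq_nil_or_concat' v with rfl | ⟨v, b, rfl⟩
      · rw [t1, rv_single]; simp [hs, hsw]
      · rw [t2, rv_snoc, shm, rv_single, rv_single]; simp [hs, hsw]
  have arm : ∀ t, rv (ar t) = arT t := by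
    intro t
    induction t with
    | ih1 a => rw [a1, rv_single]; rfl
    | ih2 x y hx hy => rw [a2, map_sub, hsm, hsm, hx, hy]; rfl
  have fm : ∀ l : List (FreeMagma (Fin d)),
      rv (l.foldr (fun t acc => sh (ar t) acc) (Finsupp.single [] 1)) = (l.map arT).prod := by
    intro l
    induction l with
    | nil => simp only [List.foldr_nil, rv_single]; rfl
    | cons t l ih => simp only [List.foldr_cons, shm, arm, ih, List.map_cons, List.prod_cons]
  obtain ⟨m1, m2⟩ := main hall
  have e : (fun l : {l : List (FreeMagma (Fin d)) //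
          (∀ t ∈ l, t ∈ H) ∧ l.Pairwise (fun x y => ¬ r x y)} => (l.1.map arT).prod) =
      rv ∘ (fun l : {l : List (FreeMagma (Fin d)) //
          (∀ t ∈ l, t ∈ H) ∧ l.Pairwise (fun x y => ¬ r x y)} =>
        l.1.foldr (fun t acc => sh (ar t) acc) (Finsupp.single [] 1)) := by
    funext l
    exact (fm l.1).symm
  rw [e] at m1 m2
  refine ⟨LinearIndependent.of_comp rv m1, ?_⟩
  rw [Set.range_comp, ← Submodule.map_span] at m2
  rw [eq_top_iff]
  intro x _
  have hx : rv x ∈ (⊤ : Submodule ℚ (Sh (Fin d))) := trivial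
  rw [← m2] at hx
  obtain ⟨y, hy, hxy⟩ := hx
  rw [← rv_inj hxy]
  exact hy

end Pool.Agent.S02351
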