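import Pool.Statements.S02384
import Pool.Agent.H77.QwB

set_option autoImplicit false
open Pool Pool.MP_96de0f_al

namespace Pool.Agent.S02384

/-- The negation of the preceding statement: Every abelian ℓ-group satisfies all quasi-identities of ℤ wr ℤ, and for any non-abelian ℓ-group H in that quasi-variety, quasi-identities true in H and all abelian ℓ-groups hold in ℤ wr ℤ; i.e. its quasi-variety covers the abelian one. -/
theorem result :
    ¬ ((∀ (K : Type) [Group K] [Lattice K] [MulLeftMono K] [MulRightMono K],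
      (∀ a b : K, a * b = b * a) →
      ∀ (k m : ℕ) (u v : Fin (m + 1) → Fin (m + 1) → FreeGroup (Fin k)),
        (∀ x : Fin k → Equiv.Perm (ℤ × ℤ),
          (∀ l, ∃ n : ℤ, ∃ f : ℤ →₀ ℤ, ∀ a b : ℤ, x l (a, b) = (a + n, b + f a)) →
          (∀ ω : ℤ × ℤ, Finset.univ.sup' Finset.univ_nonempty (fun i => Finset.univ.inf' Finset.univ_nonempty (fun j => toLex ((FreeGroup.lift x (u i j)) ω))) = toLex ω) →
          (∀ ω : ℤ × ℤ, Finset.univ.sup' Finset.univ_nonempty (fun i => Finset.univ.inf' Finset.univ_nonempty (fun j => toLex ((FreeGroup.lift x (v i j)) ω))) = toLex ω)) →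
        (∀ x : Fin k → K,
          Finset.univ.sup' Finset.univ_nonempty (fun i => Finset.univ.inf' Finset.univ_nonempty (fun j => FreeGroup.lift x (u i j))) = 1 →
          Finset.univ.sup' Finset.univ_nonempty (fun i => Finset.univ.inf' Finset.univ_nonempty (fun j => FreeGroup.lift x (v i j))) = 1)) ∧
    (∀ (H : Type) [Group H] [Lattice H] [MulLeftMono H] [MulRightMono H],
      (∃ a b : H, a * b ≠ b * a) →
      (∀ (k m : ℕ) (u v : Fin (m + 1) → Fin (m + 1) → FreeGroup (Fin k)),
        (∀ x : Fin k → Equiv.Perm (ℤ × ℤ),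
          (∀ l, ∃ n : ℤ, ∃ f : ℤ →₀ ℤ, ∀ a b : ℤ, x l (a, b) = (a + n, b + f a)) →
          (∀ ω : ℤ × ℤ, Finset.univ.sup' Finset.univ_nonempty (fun i => Finset.univ.inf' Finset.univ_nonempty (fun j => toLex ((FreeGroup.lift x (u i j)) ω))) = toLex ω) →
          (∀ ω : ℤ × ℤ, Finset.univ.sup' Finset.univ_nonempty (fun i => Finset.univ.inf' Finset.univ_nonempty (fun j => toLex ((FreeGroup.lift x (v i j)) ω))) = toLex ω)) →
        (∀ x : Fin k → H,
          Finset.univ.sup' Finset.univ_nonempty (fun i => Finset.univ.inf' Finset.univ_nonempty (fun j => FreeGroup.lift x (u i j))) = 1 →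
          Finset.univ.sup' Finset.univ_nonempty (fun i => Finset.univ.inf' Finset.univ_nonempty (fun j => FreeGroup.lift x (v i j))) = 1)) →
      ∀ (k m : ℕ) (u v : Fin (m + 1) → Fin (m + 1) → FreeGroup (Fin k)),
        (∀ x : Fin k → H,
          Finset.univ.sup' Finset.univ_nonempty (fun i => Finset.univ.inf' Finset.univ_nonempty (fun j => FreeGroup.lift x (u i j))) = 1 →
          Finset.univ.sup' Finset.univ_nonempty (fun i => Finset.univ.inf' Finset.univ_nonempty (fun j => FreeGroup.lift x (v i j))) = 1) →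
        (∀ (K : Type) [Group K] [Lattice K] [MulLeftMono K] [MulRightMono K],
          (∀ a b : K, a * b = b * a) →
          ∀ x : Fin k → K,
            Finset.univ.sup' Finset.univ_nonempty (fun i => Finset.univ.inf' Finset.univ_nonempty (fun j => FreeGroup.lift x (u i j))) = 1 →
            Finset.univ.sup' Finset.univ_nonempty (fun i => Finset.univ.inf' Finset.univ_nonempty (fun j => FreeGroup.lift x (v i j))) = 1) →
        (∀ x : Fin k → Equiv.Perm (ℤ × ℤ),
          (∀ l, ∃ n : ℤ, ∃ f : ℤ →₀ ℤ, ∀ a b : ℤ, x l (a, b) = (a + n, b + f a)) →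
          (∀ ω : ℤ × ℤ, Finset.univ.sup' Finset.univ_nonempty (fun i => Finset.univ.inf' Finset.univ_nonempty (fun j => toLex ((FreeGroup.lift x (u i j)) ω))) = toLex ω) →
          (∀ ω : ℤ × ℤ, Finset.univ.sup' Finset.univ_nonempty (fun i => Finset.univ.inf' Finset.univ_nonempty (fun j => toLex ((FreeGroup.lift x (v i j)) ω))) = toLex ω)))) := by
  rintro ⟨-, h⟩
  obtain ⟨H, _, _, _, _, h1, h2, h3⟩ := Pool.Agent.H77.Qw.main
  refine Pool.Agent.H77.Qw.notW ((Pool.Agent.H77.Qw.qi_iff _).1 (Pool.Agent.H77.Qw.qW _ _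
    (h H h1 (fun k m u v q => h3 k m u v (Pool.Agent.H77.Qw.qW u v q)) 2 1 (fun _ _ => 1)
      Pool.Agent.H77.Qw.v0 ((Pool.Agent.H77.Qw.qi_iff H).2 h2) fun K _ _ _ _ hc =>
        (Pool.Agent.H77.Qw.qi_iff K).2 fun x y => ?_)))
  rw [hc y⁻¹, mul_assoc, inv_mul_cancel, mul_one, ← one_le_inv', inv_inf, inv_inv, sup_comm]
  exact one_le_mabs x

end Pool.Agent.S02384
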