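import Pool.Statements.S02397
import Pool.Agent.H66.CfWp

set_option autoImplicit false
open Pool Pool.MP_977c67_al

namespace Pool.Agent.S02397

/-- There is an infinite semigroup, every element generating a finite subsemigroup, with a finite generating set for which the language of words u#reverse(v), u and v nonempty and equal in the semigroup, is context-free. -/
theorem result :
    ∃ (S : Type) (_ : Semigroup S) (α : Type) (_ : Fintype α) (f : α → S),
      Infinite S ∧
      (∀ x : S, (Subsemigroup.closure ({x} : Set S) : Set S).Finite) ∧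
      Subsemigroup.closure (Set.range f) = ⊤ ∧
      Language.IsContextFree
        ({w : List (Option α) | ∃ u v : List α, u ≠ [] ∧ v ≠ [] ∧
            (u.map (fun a => ((f a : S) : WithOne S))).prod =
              (v.map (fun a => ((f a : S) : WithOne S))).prod ∧
            w = u.map some ++ [none] ++ v.reverse.map some} : Language (Option α)) := by
  refine ⟨Pool.Agent.H66.CfWp.Sg, inferInstance, Bool, inferInstance, Pool.Agent.H66.CfWp.gen,
    Pool.Agent.H66.CfWp.infinite, Pool.Agent.H66.CfWp.periodic, Pool.Agent.H66.CfWp.closure_gen,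
    Pool.Agent.H66.CfWp.G, ?_⟩
  have key : ∀ u v : List Bool, u ≠ [] → v ≠ [] →
      ((u.map fun a => ((Pool.Agent.H66.CfWp.gen a : Pool.Agent.H66.CfWp.Sg) :
          WithOne Pool.Agent.H66.CfWp.Sg)).prod =
        (v.map fun a => ((Pool.Agent.H66.CfWp.gen a : Pool.Agent.H66.CfWp.Sg) :
          WithOne Pool.Agent.H66.CfWp.Sg)).prod ↔
        (u = v ∨ Pool.Agent.H66.CfWp.InI u ∧ Pool.Agent.H66.CfWp.InI v)) := by
    intro u v hu hv
    obtain ⟨a, rfl⟩ := Pool.Agent.H66.CfWp.tl_surj u hu
    obtain ⟨b, rfl⟩ := Pool.Agent.H66.CfWp.tl_surj v hv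
    rw [Pool.Agent.H66.CfWp.prod_tl, Pool.Agent.H66.CfWp.prod_tl, WithOne.coe_inj, Con.eq,
      Pool.Agent.H66.CfWp.tl_inj.eq_iff]
    rfl
  ext w
  constructor
  · intro h
    obtain ⟨u, v, hu, hv, h1, h2⟩ := Pool.Agent.H66.CfWp.G_sound w h
    exact ⟨u, v, hu, hv, (key u v hu hv).2 h1, h2⟩
  · rintro ⟨u, v, hu, hv, h1, h2⟩
    exact Pool.Agent.H66.CfWp.G_complete w ⟨u, v, hu, hv, (key u v hu hv).1 h1, h2⟩

end Pool.Agent.S02397
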