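import Pool.Statements.S02413
import Pool.Agent.H50.GDetB

set_option autoImplicit false
open Pool Pool.MP_98297f_al

namespace Pool.Agent.S02413

/-- For every field of characteristic 2 and finite groups G, H of the same odd order: if some bijection makes their generic minimal polynomials have the same degree and the same coefficients strictly between top and constant term, then G and H are isomorphic. -/
theorem result :
    ∀ (K : Type) [Field K] [CharP K 2] (G H : Type) [Group G] [Group H] [Fintype G] [Fintype H],
      Odd (Fintype.card G) → Fintype.card G = Fintype.card H →
      (∃ π : G ≃ H,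
        (minpoly (FractionRing (MvPolynomial G K))
            (∑ g : G, (algebraMap (MvPolynomial G K) (FractionRing (MvPolynomial G K)) (MvPolynomial.X g)) •
              MonoidAlgebra.single g (1 : FractionRing (MvPolynomial G K)))).natDegree =
          (minpoly (FractionRing (MvPolynomial G K))
            (∑ g : G, (algebraMap (MvPolynomial G K) (FractionRing (MvPolynomial G K)) (MvPolynomial.X g)) •
              MonoidAlgebra.single (π g) (1 : FractionRing (MvPolynomial G K)))).natDegree ∧
        ∀ j : ℕ, 1 ≤ j →
          j < (minpoly (FractionRing (MvPolynomial G K))
            (∑ g : G, (algebraMap (MvPolynomial G K) (FractionRing (MvPolynomial G K)) (MvPolynomial.X g)) •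
              MonoidAlgebra.single g (1 : FractionRing (MvPolynomial G K)))).natDegree →
          (minpoly (FractionRing (MvPolynomial G K))
            (∑ g : G, (algebraMap (MvPolynomial G K) (FractionRing (MvPolynomial G K)) (MvPolynomial.X g)) •
              MonoidAlgebra.single g (1 : FractionRing (MvPolynomial G K)))).coeff j =
          (minpoly (FractionRing (MvPolynomial G K))
            (∑ g : G, (algebraMap (MvPolynomial G K) (FractionRing (MvPolynomial G K)) (MvPolynomial.X g)) •
              MonoidAlgebra.single (π g) (1 : FractionRing (MvPolynomial G K)))).coeff j) →
      Nonempty (G ≃* H) := by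
  intro K _ _ G H _ _ _ _ ho hc ⟨f, hd, hj⟩
  exact H50.GDet.main K G H ho hc f (H50.GDet.poly_eq _ _ (minpoly.monic (IsIntegral.of_finite _ _))
    (minpoly.monic (IsIntegral.of_finite _ _)) hd hj _ (H50.GDet.aug _ id) (H50.GDet.aug _ f))

end Pool.Agent.S02413
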