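import Pool.Statements.S02425
import Pool.Agent.H68.EndStab2

set_option autoImplicit false
open Pointwise
open Pool Pool.MP_98b561_al

namespace Pool.Agent.S02425

theorem result :
  ∃ (G : Type) (_ : Group G),
    ∀ (len : Set G → G → ℕ),
      (∀ (S : Set G) (g : G), len S g = sInf {n : ℕ | g ∈ (S ∪ S⁻¹) ^ n}) →
    ∀ (gp : Set G → G → G → ℝ),
      (∀ (S : Set G) (a b : G),
        gp S a b = ((len S a : ℝ) + (len S b : ℝ) - (len S (a⁻¹ * b) : ℝ)) / 2) →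
    ∀ (lox : Set G → G → Prop),
      (∀ (S : Set G) (g : G),
        lox S g ↔ ∃ c : ℝ, 0 < c ∧ ∀ n : ℕ, c * (n : ℝ) ≤ (len S (g ^ n) : ℝ)) →
    ∀ (sameEnd : Set G → G → G → Prop),
      (∀ (S : Set G) (a b : G),
        sameEnd S a b ↔ ∀ K : ℝ, ∃ N : ℕ, ∀ n m : ℕ, N ≤ n → N ≤ m →
          K ≤ gp S (a ^ n) (b ^ m)) →
    ∀ (QP : Set G → Prop),
      (∀ S : Set G, QP S ↔
        (Subgroup.closure S = ⊤ ∧
         (∃ δ : ℝ, ∀ x y z : G, min (gp S x y) (gp S y z) - δ ≤ gp S x z) ∧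
         (∃ g h : G, lox S g ∧ lox S h ∧
            ¬ ((sameEnd S g h ∧ sameEnd S g⁻¹ h⁻¹) ∨
               (sameEnd S g h⁻¹ ∧ sameEnd S g⁻¹ h))) ∧
         (∀ g h : G, lox S g → lox S h →
            (sameEnd S g h ∨ sameEnd S g h⁻¹ ∨ sameEnd S g⁻¹ h ∨ sameEnd S g⁻¹ h⁻¹)))) →
    ∃ X : Set G, QP X ∧
      ∀ Y : Set G, QP Y →
        (∃ C : ℕ, ∀ y ∈ Y, len X y ≤ C) ∧ (∃ C : ℕ, ∀ x ∈ X, len Y x ≤ C) := by
  refine ⟨H68.EndStab.G, inferInstance, ?_⟩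
  intro len hlen gp hgp lox hlox sameEnd hsame QP hQP
  obtain rfl : len = H68.EndStab.len := funext fun S => funext fun g => hlen S g
  obtain rfl : gp = H68.EndStab.gp := funext fun S => funext fun a => funext fun b => hgp S a b
  obtain rfl : lox = H68.EndStab.lox := funext fun S => funext fun g => propext (hlox S g)
  obtain rfl : sameEnd = H68.EndStab.sameEnd :=
    funext fun S => funext fun a => funext fun b => propext (hsame S a b)
  refine ⟨H68.EndStab.X, (hQP _).2 ⟨H68.EndStab.X_gen, H68.EndStab.hyp_X, H68.EndStab.nonel_X,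
    H68.EndStab.par_X⟩, fun Y hY => ?_⟩
  obtain ⟨h1, -, h2, -⟩ := (hQP Y).1 hY
  exact ⟨H68.EndStab.Y_bdd h1 h2, H68.EndStab.X_bdd h1⟩

end Pool.Agent.S02425
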