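import Pool.Statements.S02430
import Pool.Agent.H73.Fig

set_option autoImplicit false
open Pool Pool.MP_98fcd2_al

namespace Pool.Agent.S02430

/-- The negation of the preceding statement: Every finitely generated solvable group G has a finite subset S such that, however each element of S is replaced by a conjugate of it, the resulting elements still generate G. -/
theorem result :
    ¬ (∀ (G : Type) [Group G], Group.FG G → IsSolvable G →
      ∃ S : Finset G, ∀ g : G → G,
        Subgroup.closure ((fun s => (g s)⁻¹ * s * g s) '' (S : Set G)) = ⊤) :=
  Pool.Agent.H73.Fig.not_fig

end Pool.Agent.S02430
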