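import Pool.Statements.S02454
import Pool.Agent.H68.Baum

set_option autoImplicit false
open Pool Pool.MP_9b0338_al

namespace Pool.Agent.S02454

theorem result :
    ¬ (∀ (G : Type) [Group G],
      (∃ n : ℕ, ∃ f : FreeGroup (Fin n) →* G, Function.Surjective f ∧
        ∃ r : Finset (FreeGroup (Fin n)), f.ker = Subgroup.normalClosure (r : Set (FreeGroup (Fin n)))) →
      ∀ S T : Finset G,
        Subgroup.closure (S : Set G) = ⊤ →
        Subgroup.closure (T : Set G) = ⊤ →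
        ((∃ D : ℕ, ∀ g : G, ∀ R : ℕ, ∃ h : G,
            R ≤ (SimpleGraph.fromRel (fun a b : G => a⁻¹ * b ∈ S)).dist 1 h ∧
            ∃ p : (SimpleGraph.fromRel (fun a b : G => a⁻¹ * b ∈ S)).Walk g h,
              ∀ v ∈ p.support,
                (SimpleGraph.fromRel (fun a b : G => a⁻¹ * b ∈ S)).dist 1 g ≤
                  (SimpleGraph.fromRel (fun a b : G => a⁻¹ * b ∈ S)).dist 1 v + D) ↔
         (∃ D : ℕ, ∀ g : G, ∀ R : ℕ, ∃ h : G,
            R ≤ (SimpleGraph.fromRel (fun a b : G => a⁻¹ * b ∈ T)).dist 1 h ∧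
            ∃ p : (SimpleGraph.fromRel (fun a b : G => a⁻¹ * b ∈ T)).Walk g h,
              ∀ v ∈ p.support,
                (SimpleGraph.fromRel (fun a b : G => a⁻¹ * b ∈ T)).dist 1 g ≤
                  (SimpleGraph.fromRel (fun a b : G => a⁻¹ * b ∈ T)).dist 1 v + D))) := by
  open Pool.Agent.H68 Pool.Agent.H68.Baum in
  intro h
  obtain ⟨n, f, hf, r, hr, e⟩ := (Cay.prod_fp S_gen).out
  exact Cay.not_brd_perp S_gen pocket ((h (G × G) ⟨n, f, hf, hr.toFinset, by simp [e]⟩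
    (Cay.perp S) (Cay.vee S) (Cay.perp_gen S_gen) (Cay.vee_gen S_gen)).2 (Cay.brd_vee S_gen unb))

end Pool.Agent.S02454
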