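import Pool.Statements.S02463
import Pool.Agent.H56.Delta3

set_option autoImplicit false
open Pool Pool.MP_9bbc25_al

namespace Pool.Agent.S02463

/-- Every finite set of positive integers containing 1 equals the delta set of some numerical semigroup, i.e. the set of gaps between consecutive factorization lengths over its minimal generators. -/
theorem result :
    ∀ D : Finset ℕ, (∀ d ∈ D, 0 < d) → 1 ∈ D →
      ∃ S : AddSubmonoid ℕ, ((S : Set ℕ)ᶜ).Finite ∧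
        {d : ℕ | 0 < d ∧ ∃ n ∈ S, ∃ k : ℕ,
          (∃ m : Multiset ℕ,
              (∀ a ∈ m, a ∈ S ∧ a ≠ 0 ∧ ∀ b ∈ S, ∀ c ∈ S, b + c = a → b = 0 ∨ c = 0) ∧
              m.sum = n ∧ Multiset.card m = k) ∧
          (∃ m : Multiset ℕ,
              (∀ a ∈ m, a ∈ S ∧ a ≠ 0 ∧ ∀ b ∈ S, ∀ c ∈ S, b + c = a → b = 0 ∨ c = 0) ∧
              m.sum = n ∧ Multiset.card m = k + d) ∧
          ∀ j : ℕ, k < j → j < k + d →
            ¬ ∃ m : Multiset ℕ,
              (∀ a ∈ m, a ∈ S ∧ a ≠ 0 ∧ ∀ b ∈ S, ∀ c ∈ S, b + c = a → b = 0 ∨ c = 0) ∧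
              m.sum = n ∧ Multiset.card m = j} = (D : Set ℕ) := by
  intro D h0 h1
  obtain ⟨U, I, _, _, _, _, X, hX⟩ := H56.Delta.exists_data' D h0 ⟨1, h1⟩
  refine ⟨X.S, H56.Delta.Data.finite_compl, ?_⟩
  simp only [H56.Delta.Data.fac_iff]
  ext d
  constructor
  · rintro ⟨hd, n, -, k, a1, a2, a3⟩
    rcases H56.Delta.Data.gap_mem hd a1 a2 a3 with h | h | ⟨u, h⟩
    · exact h ▸ h1
    · exact (hX d).2 ⟨none, h.symm⟩
    · exact (hX d).2 ⟨some u, h⟩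
  · intro hd
    obtain ⟨o, rfl⟩ := (hX d).1 hd
    obtain ⟨x, a1, a2, a3⟩ := H56.Delta.Data.exists_gap (X := X) o
    exact ⟨h0 _ hd, x, ⟨_, a1⟩, 2, a1, a2, a3⟩

end Pool.Agent.S02463
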