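import Pool.Statements.S02470
import Pool.Agent.H68.Sat5

set_option autoImplicit false
open Pool Pool.MP_9bf990_al

namespace Pool.Agent.S02470

theorem result :
    ¬ (∃ F : (G : Type) → [Group G] → Prop,
      (∀ (G : Type) [Group G], F G → Finite G) ∧
      (∀ (G H : Type) [Group G] [Group H], Nonempty (G ≃* H) → F G → F H) ∧
      F Unit ∧
      (∀ (G : Type) [Group G] [Finite G] (N : Subgroup G) [N.Normal], F G → F (G ⧸ N)) ∧
      (∀ (G : Type) [Group G] [Finite G] (N₁ N₂ : Subgroup G) [N₁.Normal] [N₂.Normal],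
          F (G ⧸ N₁) → F (G ⧸ N₂) → F (G ⧸ (N₁ ⊓ N₂))) ∧
      (∀ (G : Type) [Group G] [Finite G], F (G ⧸ frattini G) → F G) ∧
      ¬ (∀ (G : Type) [Group G] [Finite G], F G → ∀ H : Subgroup G, F H) ∧
      (∀ (G : Type) [Group G] [Finite G] (T : Set (Subgroup G)),
        T = {H : Subgroup G | ∀ S : Set (Subgroup G), ⊤ ∈ S →
              (∀ K ∈ S, ∀ L : Subgroup G, L < K →
                (∀ M : Subgroup G, L ≤ M → M ≤ K → M = L ∨ M = K) →
                (∃ N : Subgroup K, ∃ _ : N.Normal, F (K ⧸ N) ∧ N ≤ L.subgroupOf K) →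
                L ∈ S) →
              H ∈ S} →
        ∀ A ∈ T, ∀ B ∈ T, A ⊓ B ∈ T ∧ A ⊔ B ∈ T)) := by
  open Pool.Agent.H68.Sat in
  rintro ⟨F, h1, h2, h3, h4, h5, h6, h7, h8⟩
  have hF : FO F := ⟨⟨h1, h2, fun G _ N _ h => haveI := h1 G h; h4 G N h, fun G _ _ N L _ _ e a b =>
    h2 _ _ ⟨(QuotientGroup.quotientMulEquivOfEq e).trans QuotientGroup.quotientBot⟩
      (h5 G N L a b)⟩, h3⟩
  refine h7 fun G _ _ hG U => hered hF h6 (fun G _ _ A B a b => ?_) hG U
  refine (h8 G _ rfl A ?_ B ?_).2 {H | Sn F H} Sn.top fun K hK L x y z => Sn.step K L hK x y z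
  · intro S s1 s2
    induction a with
    | top => exact s1
    | step K L _ x y z ih => exact s2 K ih L x y z
  · intro S s1 s2
    induction b with
    | top => exact s1
    | step K L _ x y z ih => exact s2 K ih L x y z

end Pool.Agent.S02470
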