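import Pool.Statements.S02477
import Pool.Agent.H48.Winf2

set_option autoImplicit false
open Pool Pool.MP_9d3c8a_al

namespace Pool.Agent.S02477

/-- Over a char-0 field, every Lie automorphism of the algebra of derivations of F[x1,x2,...] moving only finitely many variables is conjugation by a polynomial automorphism in which each variable occurs in finitely many images of the variables, for both it and its inverse. -/
theorem result :
    ∀ (F : Type) [Field F] [CharZero F]
      (θ : Derivation F (MvPolynomial ℕ F) (MvPolynomial ℕ F) →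
            Derivation F (MvPolynomial ℕ F) (MvPolynomial ℕ F)),
      (∀ d : Derivation F (MvPolynomial ℕ F) (MvPolynomial ℕ F),
          Set.Finite {i : ℕ | d (MvPolynomial.X i) ≠ 0} →
          Set.Finite {i : ℕ | θ d (MvPolynomial.X i) ≠ 0}) →
      (∀ e : Derivation F (MvPolynomial ℕ F) (MvPolynomial ℕ F),
          Set.Finite {i : ℕ | e (MvPolynomial.X i) ≠ 0} →
          ∃ d : Derivation F (MvPolynomial ℕ F) (MvPolynomial ℕ F),
            Set.Finite {i : ℕ | d (MvPolynomial.X i) ≠ 0} ∧ θ d = e) →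
      (∀ d e : Derivation F (MvPolynomial ℕ F) (MvPolynomial ℕ F),
          Set.Finite {i : ℕ | d (MvPolynomial.X i) ≠ 0} →
          Set.Finite {i : ℕ | e (MvPolynomial.X i) ≠ 0} →
          θ d = θ e → d = e) →
      (∀ d e : Derivation F (MvPolynomial ℕ F) (MvPolynomial ℕ F),
          Set.Finite {i : ℕ | d (MvPolynomial.X i) ≠ 0} →
          Set.Finite {i : ℕ | e (MvPolynomial.X i) ≠ 0} →
          θ (d + e) = θ d + θ e ∧ θ ⁅d, e⁆ = ⁅θ d, θ e⁆) →
      (∀ (c : F) (d : Derivation F (MvPolynomial ℕ F) (MvPolynomial ℕ F)),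
          Set.Finite {i : ℕ | d (MvPolynomial.X i) ≠ 0} →
          θ (c • d) = c • θ d) →
      ∃ φ : MvPolynomial ℕ F ≃ₐ[F] MvPolynomial ℕ F,
        (∀ n : ℕ, Set.Finite {i : ℕ | n ∈ (φ (MvPolynomial.X i)).vars} ∧
                  Set.Finite {i : ℕ | n ∈ (φ.symm (MvPolynomial.X i)).vars}) ∧
        ∀ d : Derivation F (MvPolynomial ℕ F) (MvPolynomial ℕ F),
          Set.Finite {i : ℕ | d (MvPolynomial.X i) ≠ 0} →
          ∀ f : MvPolynomial ℕ F, θ d f = φ (d (φ.symm f)) := by
  intro F _ _ θ h1 h2 h3 h4 h5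
  let f : H48.Winf.W F →ₗ⁅F⁆ H48.Winf.W F :=
    { toFun := fun d => ⟨θ d.1, h1 d.1 d.2⟩
      map_add' := fun d e => Subtype.ext (h4 d.1 e.1 d.2 e.2).1
      map_smul' := fun c d => Subtype.ext (h5 c d.1 d.2)
      map_lie' := fun {d e} => Subtype.ext (h4 d.1 e.1 d.2 e.2).2 }
  let T : H48.Winf.W F ≃ₗ⁅F⁆ H48.Winf.W F := LieEquiv.ofBijective f
    ⟨fun d e h => Subtype.ext (h3 d.1 e.1 d.2 e.2 (congrArg Subtype.val h)), fun e => by
      obtain ⟨d, hd, he⟩ := h2 e.1 e.2
      exact ⟨⟨d, hd⟩, Subtype.ext he⟩⟩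
  let φ := AlgEquiv.ofBijective (H48.Winf.phi T) ⟨H48.Winf.phi_inj T, H48.Winf.phi_surj T⟩
  have key : ∀ (w : H48.Winf.W F) p, (T w).1 (φ p) = φ (w.1 p) := H48.Winf.T_phi T
  refine ⟨φ, fun n => ⟨?_, ?_⟩, fun d hd p => ?_⟩
  · refine Set.Finite.subset (T.symm (H48.Winf.pd n)).2 fun i hi e => ?_
    have := key (T.symm (H48.Winf.pd n)) (MvPolynomial.X i)
    rw [e, map_zero, T.apply_symm_apply] at this
    exact H48.Winf.pderiv_ne_of_vars _ _ hi this
  · refine Set.Finite.subset (T (H48.Winf.pd n)).2 fun i hi e => ?_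
    have := key (H48.Winf.pd n) (φ.symm (MvPolynomial.X i))
    rw [φ.apply_symm_apply, e] at this
    exact H48.Winf.pderiv_ne_of_vars _ _ hi (φ.injective (this.symm.trans (map_zero φ).symm))
  · have := key ⟨d, hd⟩ (φ.symm p)
    rw [φ.apply_symm_apply] at this
    exact this

end Pool.Agent.S02477
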