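import Pool.Statements.S02504
import Pool.Agent.H69.Sofic

set_option autoImplicit false
open Pool Pool.MP_9f8f27_al

namespace Pool.Agent.S02504

/-- The negation of the preceding statement: For every group G generated by a finite set S that has (n,1/n) permutation approximations for all n, there is C ≥ 1 with ∣B_S(n)∣ ≤ C·d for every d admitting a (Cn,1/(Cn)) approximation, i.e. growth ≼ sofic profile. -/
theorem result :
    ¬ (∀ (G : Type) [Group G] (S : Finset G), Subgroup.closure (S : Set G) = ⊤ →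
      (∀ n : ℕ, ∃ d : ℕ, 0 < d ∧ ∃ φ : G → Equiv.Perm (Fin d),
        φ 1 = 1 ∧
        (∀ g h : G,
          (∃ l : List G, l.length ≤ n ∧ (∀ x ∈ l, x ∈ S ∨ x⁻¹ ∈ S) ∧ l.prod = g) →
          (∃ l : List G, l.length ≤ n ∧ (∀ x ∈ l, x ∈ S ∨ x⁻¹ ∈ S) ∧ l.prod = h) →
          ((Finset.univ.filter (fun i : Fin d => φ (g * h) i ≠ (φ g * φ h) i)).card : ℝ)
              / (d : ℝ) ≤ 1 / (n : ℝ)) ∧
        (∀ g : G,
          (∃ l : List G, l.length ≤ n ∧ (∀ x ∈ l, x ∈ S ∨ x⁻¹ ∈ S) ∧ l.prod = g) →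
          g ≠ 1 →
          1 - 1 / (n : ℝ) ≤
            ((Finset.univ.filter (fun i : Fin d => φ g i ≠ i)).card : ℝ) / (d : ℝ))) →
      ∃ C : ℕ, 0 < C ∧ ∀ n d : ℕ, 0 < d →
        (∃ φ : G → Equiv.Perm (Fin d),
          φ 1 = 1 ∧
          (∀ g h : G,
            (∃ l : List G, l.length ≤ C * n ∧ (∀ x ∈ l, x ∈ S ∨ x⁻¹ ∈ S) ∧ l.prod = g) →
            (∃ l : List G, l.length ≤ C * n ∧ (∀ x ∈ l, x ∈ S ∨ x⁻¹ ∈ S) ∧ l.prod = h) →
            ((Finset.univ.filter (fun i : Fin d => φ (g * h) i ≠ (φ g * φ h) i)).card : ℝ)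
                / (d : ℝ) ≤ 1 / ((C * n : ℕ) : ℝ)) ∧
          (∀ g : G,
            (∃ l : List G, l.length ≤ C * n ∧ (∀ x ∈ l, x ∈ S ∨ x⁻¹ ∈ S) ∧ l.prod = g) →
            g ≠ 1 →
            1 - 1 / ((C * n : ℕ) : ℝ) ≤
              ((Finset.univ.filter (fun i : Fin d => φ g i ≠ i)).card : ℝ) / (d : ℝ))) →
        Nat.card {g : G // ∃ l : List G, l.length ≤ n ∧ (∀ x ∈ l, x ∈ S ∨ x⁻¹ ∈ S) ∧ l.prod = g}
          ≤ C * d) := by
  open Pool.Agent.H69.Sofic in
  classical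
  intro hall
  let G : Subgroup SL := Subgroup.closure (Set.range M)
  let s : Bool → G := fun c => ⟨M c, Subgroup.subset_closure ⟨c, rfl⟩⟩
  let S : Finset G := Finset.univ.image s
  have hS : Subgroup.closure (S : Set G) = ⊤ := by
    have := Subgroup.closure_closure_coe_preimage (k := Set.range M)
    convert this using 2
    ext x
    simp [S, s, Subtype.ext_iff, or_comm]
  have small : ∀ (n : ℕ) (g : G), (∃ l : List G, l.length ≤ n ∧
      (∀ x ∈ l, x ∈ S ∨ x⁻¹ ∈ S) ∧ l.prod = g) → Small n g.1 := by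
    rintro n g ⟨l, h1, h2, rfl⟩
    have := small_prod (l.map G.subtype) (by
      intro x hx
      obtain ⟨y, hy, rfl⟩ := List.mem_map.1 hx
      rcases h2 y hy with h | h
      · obtain ⟨c, -, rfl⟩ := Finset.mem_image.1 h
        exact small_M c
      · obtain ⟨c, -, hc⟩ := Finset.mem_image.1 h
        have : y = (s c)⁻¹ := by rw [hc, inv_inv]
        rw [this]
        exact small_inv (small_M c))
    rw [← map_list_prod, List.length_map] at this
    exact fun i j => (this i j).trans h1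
  have key : ∀ n : ℕ, ∃ d : ℕ, 0 < d ∧ d ≤ 8 * (n + 1) ^ 6 ∧ ∃ φ : G → Equiv.Perm (Fin d),
        φ 1 = 1 ∧
        (∀ g h : G,
          (∃ l : List G, l.length ≤ n ∧ (∀ x ∈ l, x ∈ S ∨ x⁻¹ ∈ S) ∧ l.prod = g) →
          (∃ l : List G, l.length ≤ n ∧ (∀ x ∈ l, x ∈ S ∨ x⁻¹ ∈ S) ∧ l.prod = h) →
          ((Finset.univ.filter (fun i : Fin d => φ (g * h) i ≠ (φ g * φ h) i)).card : ℝ)
              / (d : ℝ) ≤ 1 / (n : ℝ)) ∧
        (∀ g : G,
          (∃ l : List G, l.length ≤ n ∧ (∀ x ∈ l, x ∈ S ∨ x⁻¹ ∈ S) ∧ l.prod = g) →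
          g ≠ 1 →
          1 - 1 / (n : ℝ) ≤
            ((Finset.univ.filter (fun i : Fin d => φ g i ≠ i)).card : ℝ) / (d : ℝ)) := by
    intro n
    obtain ⟨d, h0, h1, φ, h2⟩ := approx n
    refine ⟨d, h0, h1, fun g => φ g.1, by simp, fun g h _ _ => by simp, fun g hg hne => ?_⟩
    refine h2 g.1 (small n g hg) (fun h => hne (Subtype.ext h)) ?_
    obtain ⟨l, a1, -, rfl⟩ := hg
    rcases l with _ | ⟨x, l⟩
    · exact absurd rfl hne
    · simp at a1
      omega
  obtain ⟨C, hC, h⟩ := hall G S hS (fun n => by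
    obtain ⟨d, h0, -, h1⟩ := key n
    exact ⟨d, h0, h1⟩)
  obtain ⟨n, -, hn⟩ := grow C
  obtain ⟨d, h0, h1, h2⟩ := key (C * n)
  have h3 := h n d h0 h2
  have hfin : Finite {g : G // ∃ l : List G, l.length ≤ n ∧
      (∀ x ∈ l, x ∈ S ∨ x⁻¹ ∈ S) ∧ l.prod = g} := by
    let U : Set G := (S : Set G) ∪ (S : Set G)⁻¹
    have hU : U.Finite := S.finite_toSet.union S.finite_toSet.inv
    haveI : Finite U := hU
    have := (List.finite_length_le U n).image (fun l => (l.map Subtype.val).prod)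
    refine this.subset ?_
    rintro g ⟨l, a1, a2, rfl⟩
    refine ⟨l.pmap Subtype.mk (fun x hx => a2 x hx), by simpa using a1, ?_⟩
    simp [List.map_pmap]
  let f : List.Vector Bool n → {g : G // ∃ l : List G, l.length ≤ n ∧
      (∀ x ∈ l, x ∈ S ∨ x⁻¹ ∈ S) ∧ l.prod = g} := fun v =>
    ⟨(v.1.map s).prod, v.1.map s, by simp [v.2], fun x hx => by
      obtain ⟨c, -, rfl⟩ := List.mem_map.1 hx
      exact Or.inl (Finset.mem_image.2 ⟨c, Finset.mem_univ _, rfl⟩), rfl⟩
  have hf : Function.Injective f := by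
    intro v w e
    have e1 : G.subtype (v.1.map s).prod = G.subtype (w.1.map s).prod :=
      congrArg (fun z => G.subtype z.1) e
    rw [map_list_prod, map_list_prod, List.map_map, List.map_map] at e1
    exact Subtype.ext (W_inj _ _ (by rw [v.2, w.2]) e1)
  have h4 := Nat.card_le_card_of_injective f hf
  rw [Nat.card_eq_fintype_card, card_vector, Fintype.card_bool] at h4
  have h5 := Nat.mul_le_mul_left C h1
  omega

end Pool.Agent.S02504
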