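import Pool.Statements.S02525
import Pool.Agent.H65.Mc7

set_option autoImplicit false
open Pool Pool.MP_a1472e_al

namespace Pool.Agent.S02525

/-- In any group where descending chains of centralizers stabilize, a conjugation-closed subset X with [x,y,...,y]=1 (repeat count depending on x,y) for all x,y in X generates a subgroup whose finitely generated subgroups are all nilpotent. -/
theorem result :
    ∀ (G : Type) [Group G],
      (∀ c : ℕ → Set G, Antitone (fun n => Subgroup.centralizer (c n)) →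
        ∃ N : ℕ, ∀ n : ℕ, N ≤ n → Subgroup.centralizer (c n) = Subgroup.centralizer (c N)) →
      ∀ X : Set G, (∀ g : G, ∀ x ∈ X, g * x * g⁻¹ ∈ X) →
        (∀ x ∈ X, ∀ y ∈ X, ∃ n : ℕ, (fun z : G => z⁻¹ * y⁻¹ * z * y)^[n] x = 1) →
        ∀ S : Finset G, (↑S : Set G) ⊆ (Subgroup.closure X : Set G) →
          Group.IsNilpotent (Subgroup.closure (↑S : Set G)) := by
  classical
  intro G _ hc X hX hE S hS
  have hwf : WellFounded (fun S T : Set G => Subgroup.centralizer S < Subgroup.centralizer T) := by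
    rw [wellFounded_iff_isEmpty_descending_chain]
    refine ⟨fun ⟨f, hf⟩ => ?_⟩
    obtain ⟨N, hN⟩ := hc f (antitone_nat_of_succ_le fun n => (hf n).le)
    exact (hf N).ne (hN (N + 1) (Nat.le_succ N))
  have hG : Pool.Agent.H65.Mc.IsMc G := by
    intro Y
    obtain ⟨_, ⟨Y₀, hY₀, rfl⟩, hmin⟩ := hwf.has_min
      {Z : Set G | ∃ Y₀ : Finset G, (↑Y₀ : Set G) ⊆ Y ∧ Z = ↑Y₀} ⟨_, ∅, by simp, rfl⟩
    refine ⟨Y₀, hY₀, le_antisymm (Subgroup.centralizer_le hY₀) fun g hg => ?_⟩
    refine Subgroup.mem_centralizer_iff.2 fun y hy => ?_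
    have h1 : Subgroup.centralizer (↑(insert y Y₀) : Set G) = Subgroup.centralizer (↑Y₀ : Set G) :=
      eq_of_le_of_not_lt (Subgroup.centralizer_le (by simp)) (hmin _ ⟨insert y Y₀, by
        rw [Finset.coe_insert]; exact Set.insert_subset hy hY₀, rfl⟩)
    exact Subgroup.mem_centralizer_iff.1 (h1.ge hg) y (by simp)
  have he : ∀ y : G, (fun z : G => z⁻¹ * y⁻¹ * z * y) = Pool.Agent.H65.Mc.eng y := fun y => by
    funext z; simp only [Pool.Agent.H65.Mc.eng, mul_assoc]
  obtain ⟨c, hc⟩ := hG.locNil_of_eng (X := X) ⟨fun _ _ => Subgroup.mem_top _,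
    fun e he g _ => hX g e he, fun x hx y hy => he y ▸ hE x hx y hy⟩ S hS
  have hl : ∀ n, Pool.Agent.H65.Mc.lc (Subgroup.closure (↑S : Set G)) n =
      (Subgroup.closure (↑S : Set G)).lowerCentralSeries n := by
    intro n
    induction n with
    | zero => rfl
    | succ n ih => rw [Pool.Agent.H65.Mc.lc_succ, ih, Subgroup.lowerCentralSeries_succ]
  exact (Subgroup.isNilpotent_iff_lowerCentralSeries _).2 ⟨c, hl c ▸ hc⟩

end Pool.Agent.S02525
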