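import Pool.Statements.S02538
-- import your own Pool.Agent.* helpers here

set_option autoImplicit false
open Pool Pool.MP_a19302_al

namespace Pool.Agent.S02538

abbrev M : Type := ℕ × ℕ → ℚ

/-- the letter `b` may be read at position `i` of block `m` -/
def Ok (b : Bool) (m i : ℕ) : Prop := i < m * (m + 1) ∧ b = decide (m + 1 ∣ i)

instance (b : Bool) (m i : ℕ) : Decidable (Ok b m i) := by unfold Ok; infer_instance

def gen (b : Bool) : Module.End ℚ M where
  toFun f p := if Ok b p.1 p.2 then f (p.1, p.2 + 1) else 0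
  map_add' f g := by ext p; simp only [Pi.add_apply]; split_ifs <;> simp
  map_smul' c f := by ext p; simp only [Pi.smul_apply]; split_ifs <;> simp

lemma gen_apply (b : Bool) (f : M) (m i : ℕ) :
    gen b f (m, i) = if Ok b m i then f (m, i + 1) else 0 := rfl

abbrev A : Type := Algebra.adjoin ℚ (Set.range gen)

def g (b : Bool) : A := ⟨gen b, Algebra.subset_adjoin ⟨b, rfl⟩⟩

def T (w : List Bool) : A := (w.map g).prod

def Match : List Bool → ℕ → ℕ → Prop
  | [], _, _ => True
  | b :: w, m, i => Ok b m i ∧ Match w m (i + 1)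

open Classical in
lemma T_apply (w : List Bool) (f : M) (m i : ℕ) :
    (T w).1 f (m, i) = if Match w m i then f (m, i + w.length) else 0 := by
  induction w generalizing i with
  | nil => simp [T, Match]
  | cons b w ih =>
    have : (T (b :: w)).1 f (m, i) = gen b ((T w).1 f) (m, i) := by simp [T, g]
    rw [this, gen_apply, ih]
    by_cases h1 : Ok b m i <;> by_cases h2 : Match w m (i + 1) <;>
      simp [Match, h1, h2, add_assoc, add_comm 1]

def word (q r l : ℕ) : List Bool := (List.range l).map fun j => decide (q ∣ r + j)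

lemma word_succ (q r l : ℕ) : word q r (l + 1) = decide (q ∣ r) :: word q (r + 1) l := by
  simp [word, List.range_succ_eq_map, Function.comp_def, add_assoc, add_comm 1]

lemma eq_word {w : List Bool} {m i : ℕ} (h : Match w m i) : w = word (m + 1) i w.length := by
  induction w generalizing i with
  | nil => simp [word]
  | cons b w ih => rw [List.length_cons, word_succ, ← ih h.2, h.1.2]

lemma match_word (m i l : ℕ) (h : i + l ≤ m * (m + 1)) : Match (word (m + 1) i l) m i := by
  induction l generalizing i with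
  | zero => simp [word, Match]
  | succ l ih => rw [word_succ]; exact ⟨⟨by omega, rfl⟩, ih _ (by omega)⟩

lemma word_small (q r l : ℕ) (hq : 0 < q) :
    ∃ q' ≤ l + 1, ∃ r' ≤ l + 1, word q r l = word q' r' l := by
  by_cases h : q ≤ l + 1
  · refine ⟨q, h, r % q, ((Nat.mod_lt _ hq).le.trans h), ?_⟩
    refine List.map_congr_left fun j _ => ?_
    simp only [Nat.dvd_iff_mod_eq_zero, Nat.mod_add_mod]
  · by_cases h2 : ∃ j < l, q ∣ r + j
    · obtain ⟨j0, hj0, hd⟩ := h2
      refine ⟨l + 1, le_rfl, l + 1 - j0, by omega, List.map_congr_left fun j hj => ?_⟩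
      have hj : j < l := by simpa using hj
      by_cases e : j = j0
      · subst e
        have : l + 1 - j + j = l + 1 := by omega
        simp [this, hd]
      · have h1 : ¬ q ∣ r + j := fun h1 => by
          rcases lt_or_gt_of_ne e with e | e
          · have := Nat.le_of_dvd (by omega) (Nat.dvd_sub hd h1); omega
          · have := Nat.le_of_dvd (by omega) (Nat.dvd_sub h1 hd); omega
        have h3 : ¬ l + 1 ∣ l + 1 - j0 + j := fun h3 => by
          rcases lt_or_gt_of_ne e with e | e
          · have := Nat.le_of_dvd (by omega) h3; omega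
          · have := Nat.le_of_dvd (by omega) (Nat.dvd_sub h3 (dvd_refl (l + 1))); omega
        simp [h1, h3]
    · refine ⟨l + 1, le_rfl, 1, by omega, List.map_congr_left fun j hj => ?_⟩
      have hj : j < l := by simpa using hj
      have h1 : ¬ q ∣ r + j := fun h1 => h2 ⟨j, hj, h1⟩
      have h3 : ¬ l + 1 ∣ 1 + j := fun h3 => by have := Nat.le_of_dvd (by omega) h3; omega
      simp [h1, h3]

def V : Submodule ℚ A := Submodule.span ℚ {1, g true, g false}

lemma one_mem_V : (1 : A) ∈ V := Submodule.subset_span (Set.mem_insert _ _)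

lemma pow_le (n : ℕ) : V ^ n ≤ Submodule.span ℚ (T '' {w | w.length ≤ n}) := by
  induction n with
  | zero =>
    rw [pow_zero, Submodule.one_eq_span]
    exact Submodule.span_mono (by rintro _ rfl; exact ⟨[], by simp, by simp [T]⟩)
  | succ n ih =>
    rw [pow_succ']
    refine (mul_le_mul' le_rfl ih).trans ?_
    rw [V, Submodule.span_mul_span]
    refine Submodule.span_mono ?_
    rintro _ ⟨a, ha, _, ⟨w, hw, rfl⟩, rfl⟩
    have hw : w.length ≤ n := hw
    rcases ha with rfl | rfl | rfl
    · exact ⟨w, by simp only [Set.mem_ofPred_eq]; omega, by simp⟩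
    · exact ⟨true :: w, by simpa using hw, by simp [T]⟩
    · exact ⟨false :: w, by simpa using hw, by simp [T]⟩

lemma growth (n : ℕ) : Module.finrank ℚ ↥(V ^ n) ≤ 8 * (n + 1) ^ 3 := by
  classical
  let S : Finset A := (Finset.range (n + 2) ×ˢ Finset.range (n + 2) ×ˢ Finset.range (n + 2)).image
    fun p => T (word p.1 p.2.1 p.2.2)
  have h : V ^ n ≤ Submodule.span ℚ (S : Set A) := by
    refine (pow_le n).trans (Submodule.span_le.2 ?_)
    rintro _ ⟨w, hw, rfl⟩
    have hw : w.length ≤ n := hw
    by_cases h : ∃ m i, Match w m i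
    · obtain ⟨m, i, h⟩ := h
      obtain ⟨q, hq, r, hr, e⟩ := word_small (m + 1) i w.length (by omega)
      refine Submodule.subset_span (Finset.mem_coe.2 (Finset.mem_image.2 ⟨(q, r, w.length), ?_, ?_⟩))
      · simp only [Finset.mem_product, Finset.mem_range]; omega
      · rw [← e, ← eq_word h]
    · have : T w = 0 := by
        ext f p
        obtain ⟨m, i⟩ := p
        rw [T_apply, if_neg (fun hh => h ⟨m, i, hh⟩)]; rfl
      rw [this]; exact Submodule.zero_mem _
  refine (Submodule.finrank_mono h).trans ((finrank_span_finset_le_card S).trans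
    (Finset.card_image_le.trans ?_))
  simp only [Finset.card_product, Finset.card_range]
  calc (n + 2) * ((n + 2) * (n + 2)) = (n + 2) ^ 3 := by ring
    _ ≤ (2 * (n + 1)) ^ 3 := Nat.pow_le_pow_left (by omega) 3
    _ = 8 * (n + 1) ^ 3 := by ring

lemma adj : Algebra.adjoin ℚ ({g true, g false} : Set A) = ⊤ := by
  have := Algebra.adjoin_adjoin_coe_preimage (R := ℚ) (s := Set.range gen)
  rw [← this]
  congr 1
  ext a
  simp only [Set.mem_insert_iff, Set.mem_singleton_iff, Set.mem_preimage, Set.mem_range,
    Bool.exists_bool]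
  constructor
  · rintro (rfl | rfl)
    · exact Or.inr rfl
    · exact Or.inl rfl
  · rintro (h | h)
    · exact Or.inr (Subtype.ext h.symm)
    · exact Or.inl (Subtype.ext h.symm)

lemma weak (a : A) (f : M) (m i : ℕ) (h : ∀ j, i ≤ j → f (m, j) = 0) : a.1 f (m, i) = 0 := by
  obtain ⟨a, ha⟩ := a
  induction ha using Algebra.adjoin_induction generalizing f i with
  | mem x hx =>
    obtain ⟨b, rfl⟩ := hx
    simp only [gen_apply, h (i + 1) (by omega), ite_self]
  | algebraMap r => simp [Module.algebraMap_end_apply, h i le_rfl]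
  | add x y _ _ h1 h2 =>
    have := h1 f i h
    have := h2 f i h
    simp_all
  | mul x y _ _ h1 h2 => exact h1 _ i fun j hj => h2 f j fun l hl => h l (hj.trans hl)

def J (n : ℕ) : TwoSidedIdeal A := TwoSidedIdeal.mk'
  {a | ∀ f m i, (m ≠ n ∨ n * (n + 1) ≤ i ∨ ∀ j, i < j → f (m, j) = 0) → a.1 f (m, i) = 0}
  (fun _ _ _ _ => rfl)
  (fun ha hb f m i h => by
    have h1 := ha f m i h
    have h2 := hb f m i h
    simp_all)
  (fun ha f m i h => by
    have h1 := ha f m i h
    simp_all)
  (fun {x y} hy f m i h => weak x _ m i fun j hj => hy f m j (by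
    rcases h with h | h | h
    · exact Or.inl h
    · exact Or.inr (Or.inl (h.trans hj))
    · exact Or.inr (Or.inr fun l hl => h l (hj.trans_lt hl))))
  (fun {x y} hx f m i h => hx (y.1 f) m i (by
    rcases h with h | h | h
    · exact Or.inl h
    · exact Or.inr (Or.inl h)
    · exact Or.inr (Or.inr fun l hl => weak y f m l fun j hj => h j (hl.trans_le hj))))

lemma mem_J {n : ℕ} {a : A} : a ∈ J n ↔
    ∀ f m i, (m ≠ n ∨ n * (n + 1) ≤ i ∨ ∀ j, i < j → f (m, j) = 0) → a.1 f (m, i) = 0 := by
  simp [J]

lemma nil (n : ℕ) (l : List A) (a : A) (ha : a ∈ J n) (hl : ∀ b ∈ l, b ∈ J n) (f : M) (m i : ℕ)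
    (h : m ≠ n ∨ n * (n + 1) ≤ i + l.length) : (a * l.prod).1 f (m, i) = 0 := by
  induction l generalizing a i with
  | nil =>
    rw [List.prod_nil, mul_one]
    exact mem_J.1 ha f m i (h.imp_right fun h => Or.inl (by simpa using h))
  | cons b l ih =>
    refine mem_J.1 ha ((b :: l).prod.1 f) m i (h.imp_right fun h => Or.inr fun j hj => ?_)
    rw [List.prod_cons]
    exact ih b (hl b (by simp)) (fun c hc => hl c (by simp [hc])) j
      (Or.inr (by simp at h; omega))

lemma length_word (q r l : ℕ) : (word q r l).length = l := by simp [word]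

lemma match_lt {b : Bool} {w : List Bool} {m i : ℕ} (h : Match (b :: w) m i) : i < m * (m + 1) :=
  h.1.1

lemma u_mem (n : ℕ) : T (word (n + 1) 0 (2 * (n + 1))) ∈ J n := by
  rw [mem_J]
  intro f m i h
  rw [T_apply]
  split_ifs with hm
  · have e := eq_word hm
    rw [length_word] at e
    have e' : ∀ j < 2 * (n + 1), (n + 1 ∣ j ↔ m + 1 ∣ i + j) := fun j hj => by
      have := List.map_inj_left.1 e j (by simpa using hj)
      simpa using this
    have hmn : m = n := by
      have h0 := (e' 0 (by omega)).1 (dvd_zero _)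
      have h1 := (e' (n + 1) (by omega)).1 dvd_rfl
      have h2 : m + 1 ≤ n + 1 := Nat.le_of_dvd (by omega) ((Nat.dvd_add_right h0).1 h1)
      have h3 := (e' (m + 1) (by omega)).2 (Nat.dvd_add h0 dvd_rfl)
      have := Nat.le_of_dvd (by omega) h3
      omega
    rcases h with h | h | h
    · exact absurd hmn h
    · rw [show 2 * (n + 1) = (2 * n + 1) + 1 by ring, word_succ] at hm
      have := match_lt hm
      subst hmn; omega
    · exact h _ (by rw [length_word]; omega)
  · rfl

lemma u_pow (n r s : ℕ) (h : 2 * (s + r) ≤ n) :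
    (T (word (n + 1) 0 (2 * (n + 1))) ^ r).1 (fun _ => 1) (n, 2 * s * (n + 1)) = 1 := by
  induction r generalizing s with
  | zero => simp
  | succ r ih =>
    have e : word (n + 1) 0 (2 * (n + 1)) = word (n + 1) (2 * s * (n + 1)) (2 * (n + 1)) :=
      List.map_congr_left fun j _ => by
        simp [Nat.dvd_add_right (Dvd.intro_left (2 * s) rfl)]
    have hm : Match (word (n + 1) 0 (2 * (n + 1))) n (2 * s * (n + 1)) := by
      rw [e]; exact match_word _ _ _ (by nlinarith)
    rw [pow_succ']
    refine (T_apply _ _ _ _).trans ?_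
    rw [if_pos hm, length_word, show 2 * s * (n + 1) + 2 * (n + 1) = 2 * (s + 1) * (n + 1) by ring]
    exact ih (s + 1) (by omega)

/-- The negation of the preceding statement: Every finitely generated associative algebra over a field with polynomially bounded growth (finite GK dimension) has a nilpotent two-sided ideal containing every nilpotent two-sided ideal. -/
theorem result :
    ¬ (∀ (k : Type) [Field k] (A : Type) [Ring A] [Algebra k A],
      Algebra.FiniteType k A →
      (∃ V : Submodule k A, FiniteDimensional k V ∧ (1 : A) ∈ V ∧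
          Algebra.adjoin k (V : Set A) = ⊤ ∧
          ∃ C d : ℕ, ∀ n : ℕ, Module.finrank k ↥(V ^ n) ≤ C * (n + 1) ^ d) →
      ∃ N : TwoSidedIdeal A,
        (∃ m : ℕ, ∀ f : Fin m → A, (∀ i, f i ∈ N) → (List.ofFn f).prod = 0) ∧
        ∀ I : TwoSidedIdeal A,
          (∃ m : ℕ, ∀ f : Fin m → A, (∀ i, f i ∈ I) → (List.ofFn f).prod = 0) → I ≤ N) := by
  intro H
  have hV : Algebra.adjoin ℚ (V : Set A) = ⊤ := by
    rw [eq_top_iff, ← adj]
    exact Algebra.adjoin_mono fun a ha => Submodule.subset_span (Or.inr ha)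
  classical
  obtain ⟨N, ⟨r, hr⟩, hN⟩ := H ℚ A ⟨⟨{g true, g false}, by simpa using adj⟩⟩
    ⟨V, FiniteDimensional.span_of_finite ℚ (Set.toFinite ({1, g true, g false} : Set A)), one_mem_V, hV,
      8, 3, growth⟩
  have hJ : J (2 * r) ≤ N := hN _ ⟨2 * r * (2 * r + 1) + 1, fun f hf => by
    rw [List.ofFn_succ, List.prod_cons]
    ext φ p
    exact nil _ _ _ (hf 0) (fun b hb => by
      obtain ⟨i, rfl⟩ := List.mem_ofFn.1 hb; exact hf _) φ p.1 p.2 (Or.inr (by simp))⟩
  have h0 := hr (fun _ => T (word (2 * r + 1) 0 (2 * (2 * r + 1)))) fun _ => hJ (u_mem _)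
  rw [List.ofFn_const, List.prod_replicate] at h0
  have h1 := u_pow (2 * r) r 0 (by omega)
  rw [h0] at h1
  simp at h1

end Pool.Agent.S02538
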