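import Pool.Statements.S02580
import Pool.Agent.H72.Vershik

set_option autoImplicit false
open Pool Pool.MP_a4afae_al

namespace Pool.Agent.S02580

/-- The negation of the preceding statement: For a finitely generated group G and prime p, if dim of F_p[G] modulo the (n+1)-th power of its augmentation ideal is at least C·c^n for some c>1, C>0, then G has no finitely additive left-invariant probability mean on its subsets. -/
theorem result :
    ¬ (∀ (G : Type) [Group G], Group.FG G → ∀ p : ℕ, p.Prime →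
      (∃ c : ℝ, 1 < c ∧ ∃ C : ℝ, 0 < C ∧ ∀ n : ℕ,
        C * c ^ n ≤ (Module.finrank (ZMod p)
          (MonoidAlgebra (ZMod p) G ⧸
            ((Submodule.span (ZMod p)
                (Set.range (fun g : G => MonoidAlgebra.of (ZMod p) G g - 1))) ^ (n + 1) :
              Submodule (ZMod p) (MonoidAlgebra (ZMod p) G))) : ℝ)) →
      ¬ ∃ μ : Set G → ℝ, (∀ S, 0 ≤ μ S) ∧ μ Set.univ = 1 ∧
        (∀ A B : Set G, Disjoint A B → μ (A ∪ B) = μ A + μ B) ∧
        ∀ (g : G) (S : Set G), μ ((fun x => g * x) ⁻¹' S) = μ S) := by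
  intro h
  open Pool.Agent.H72.Vershik in
  refine h G (Group.closure_finite_fg _) 2 Nat.prime_two ⟨(2 : ℝ) ^ (1 / 5 : ℝ),
    Real.one_lt_rpow (by norm_num) (by norm_num), 1 / 2, by norm_num, fun n => ?_⟩ ?_
  · have h1 := growth n (n / 5) (Nat.mul_div_le n 5)
    have h2 : ((2 ^ (n / 5) : ℕ) : ℝ) ≤ _ := Nat.cast_le.2 h1
    refine le_trans ?_ h2
    rw [← Real.rpow_natCast, ← Real.rpow_mul (by norm_num), Nat.cast_pow, Nat.cast_ofNat,
      ← Real.rpow_natCast, one_div, ← Real.rpow_neg_one, ← Real.rpow_add (by norm_num)]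
    refine Real.rpow_le_rpow_of_exponent_le (by norm_num) ?_
    have : n < 5 * (n / 5) + 5 := by omega
    have : (n : ℝ) < 5 * ((n / 5 : ℕ) : ℝ) + 5 := by exact_mod_cast this
    linarith
  · obtain ⟨μ, ⟨h1, h2, h3⟩, h4⟩ := amen
    refine ⟨μ, h1, h2, h3, fun g S => ?_⟩
    rw [← h4 g⁻¹ S]
    congr 1
    ext x
    simp [Set.mem_smul_set_iff_inv_smul_mem]

end Pool.Agent.S02580
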