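import Pool.Statements.S02587
import Pool.Agent.H65.Rub7

set_option autoImplicit false
open Pool Pool.MP_a5f8b0_al

namespace Pool.Agent.S02587

/-- For the group G of integer permutations generated by all class transpositions and ν(n)=−n−1: conjugation by ν preserves G, every automorphism of G is conjugation by some h in G or by h∘ν, and ν-conjugation is not inner. -/
theorem result :
    ∀ ν : Equiv.Perm ℤ, (∀ n : ℤ, ν n = -n - 1) →
    ∀ G : Subgroup (Equiv.Perm ℤ),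
      G = Subgroup.closure
        {σ : Equiv.Perm ℤ | ∃ r₁ m₁ r₂ m₂ : ℤ,
          0 ≤ r₁ ∧ r₁ < m₁ ∧ 0 ≤ r₂ ∧ r₂ < m₂ ∧
          (¬ ∃ n : ℤ, n % m₁ = r₁ ∧ n % m₂ = r₂) ∧
          (∀ k : ℤ, σ (r₁ + k * m₁) = r₂ + k * m₂ ∧ σ (r₂ + k * m₂) = r₁ + k * m₁) ∧
          (∀ n : ℤ, n % m₁ ≠ r₁ → n % m₂ ≠ r₂ → σ n = n)} →
      (∀ g ∈ G, ν * g * ν⁻¹ ∈ G) ∧
      (∀ φ : G ≃* G, ∃ h ∈ G,
          (∀ g : G, ((φ g : G) : Equiv.Perm ℤ) = h * (g : Equiv.Perm ℤ) * h⁻¹) ∨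
          (∀ g : G, ((φ g : G) : Equiv.Perm ℤ) = h * ν * (g : Equiv.Perm ℤ) * ν⁻¹ * h⁻¹)) ∧
      (¬ ∃ h ∈ G, ∀ g ∈ G, ν * g * ν⁻¹ = h * g * h⁻¹) := by
  intro ν hν G hG
  obtain rfl : G = Subgroup.closure (H65.Rub.Gen H65.Rub.U) := by
    rw [hG, H65.Rub.gen_eq]
    congr 1
    ext σ
    refine exists_congr fun r1 => exists_congr fun m1 => exists_congr fun r2 =>
      exists_congr fun m2 => and_congr_right fun a1 => and_congr_right fun b1 =>
      and_congr_right fun a2 => and_congr_right fun b2 => ?_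
    simp only [Int.ModEq, Int.emod_eq_of_lt a1 b1, Int.emod_eq_of_lt a2 b2, not_exists, mul_comm m1,
      mul_comm m2, Ne]
  exact H65.Rub.out ν hν

end Pool.Agent.S02587
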