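import Pool.Statements.S02600
import Pool.Agent.H39.ITG

set_option autoImplicit false
open Pool Pool.MP_a761b9_al

namespace Pool.Agent.S02600

/-- The negation of the preceding statement: Every Hausdorff topological group that injects continuously into some compact group, and whose image under every continuous injective homomorphism into a Hausdorff group is closed, is compact. -/
theorem result :
    ¬ (∀ (X : Type) [Group X] [TopologicalSpace X] [IsTopologicalGroup X] [T2Space X],
      (∀ (Y : Type) [Group Y] [TopologicalSpace Y] [IsTopologicalGroup Y] [T2Space Y]
          (f : X →* Y), Continuous f → Function.Injective f → IsClosed (Set.range f)) →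
      (∃ (K : Type) (_ : Group K) (_ : TopologicalSpace K) (_ : IsTopologicalGroup K)
          (_ : CompactSpace K) (_ : T2Space K) (f : X →* K),
          Continuous f ∧ Function.Injective f) →
      CompactSpace X) := by
  intro h
  exact H39.ITG.not_compact
    (h H39.ITG.X (fun Y _ _ _ _ f hf _ => H39.ITG.closed_range f hf) H39.ITG.map_ex)

end Pool.Agent.S02600
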