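import Pool.Statements.S02607
import Pool.Agent.H73.Complete

set_option autoImplicit false
open Pool Pool.MP_a8364e_al

namespace Pool.Agent.S02607

/-- There is a countable infinite group in which every finitely generated subgroup is finite, the centre is trivial, and every automorphism is conjugation by some group element. -/
theorem result :
    ∃ (G : Type) (_ : Group G), Countable G ∧ Infinite G ∧
      (∀ s : Finset G, ((Subgroup.closure (s : Set G) : Subgroup G) : Set G).Finite) ∧
      Subgroup.center G = ⊥ ∧
      ∀ φ : MulAut G, ∃ g : G, φ = MulAut.conj g :=
  Pool.Agent.H73.Complete.main

end Pool.Agent.S02607
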