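import Pool.Statements.S02628
import Pool.Agent.H68.Fit5

set_option autoImplicit false
open Pool Pool.MP_a9d502_al

namespace Pool.Agent.S02628

theorem result :
    ¬ (∃ F : (G : Type) → [Group G] → Prop,
    (∀ (G : Type) [Group G], F G → Finite G ∧ IsSolvable G) ∧
    F Unit ∧
    (∀ (G H : Type) [Group G] [Group H], (G ≃* H) → F G → F H) ∧
    (∀ (G : Type) [Group G] (N : Subgroup G), N.Normal → F G → F ↥N) ∧
    (∀ (G : Type) [Group G] [Finite G] (N M : Subgroup G),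
        N.Normal → M.Normal → F ↥N → F ↥M → F ↥(N ⊔ M)) ∧
    ¬ ((∀ (G : Type) [Group G] [Finite G] (N : Subgroup G) [N.Normal],
          F G → F (G ⧸ N)) ∧
       (∀ (G : Type) [Group G] [Finite G] (N M : Subgroup G) [N.Normal] [M.Normal],
          F (G ⧸ N) → F (G ⧸ M) → F (G ⧸ (N ⊓ M)))) ∧
    (∀ (G : Type) [Group G] [Finite G], IsSolvable G →
      ∀ A B : Subgroup G, (∀ g : G, ∃ a ∈ A, ∃ b ∈ B, g = a * b) →
        (sSup {N : Subgroup ↥A | N.Normal ∧ F ↥N}).map A.subtype ⊓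
          (sSup {N : Subgroup ↥B | N.Normal ∧ F ↥N}).map B.subtype ≤
          sSup {N : Subgroup G | N.Normal ∧ F ↥N})) := by
  open Pool.Agent.H68.Fit in
  rintro ⟨F, h1, h2, h3, h4, h5, h6, h7⟩
  have hF : FC F := ⟨h1, h2, h3, h4, h5⟩
  have hW : WP F := hF.wp_rad h7
  refine h6 ⟨fun G _ _ N _ h => hF.quot hW _ (QuotientGroup.mk'_surjective N) h,
    fun G _ _ N M _ _ a b => ?_⟩
  refine hF.r0 hW (QuotientGroup.map _ N (MonoidHom.id G) inf_le_left)
    (QuotientGroup.map _ M (MonoidHom.id G) inf_le_right) (fun g e1 e2 => ?_) a b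
  obtain ⟨g, rfl⟩ := QuotientGroup.mk_surjective g
  exact (QuotientGroup.eq_one_iff g).2
    ⟨(QuotientGroup.eq_one_iff g).1 e1, (QuotientGroup.eq_one_iff g).1 e2⟩

end Pool.Agent.S02628
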