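import Pool.Statements.S02629
import Pool.Agent.H67.AC

set_option autoImplicit false
open Pool Pool.MP_a9e0e5_al

namespace Pool.Agent.S02629

/-- For finite G with operator group Ω and k = minimal number of Ω-normal generators ≥ 2, two normally generating k-tuples are AC-equivalent (with conjugation by G and Ω) iff their images in G/[G,G] are AC-equivalent (with Ω-action). -/
theorem result :
    ∀ (G Ω : Type) [Group G] [Finite G] [Group Ω] [MulDistribMulAction Ω G] (k : ℕ),
      2 ≤ k →
      (∃ u : Fin k → G, ∀ H : Subgroup G, H.Normal → (∀ ω : Ω, ∀ h ∈ H, ω • h ∈ H) →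
          (∀ i, u i ∈ H) → H = ⊤) →
      (∀ m : ℕ, m < k → ∀ u : Fin m → G, ¬ (∀ H : Subgroup G, H.Normal →
          (∀ ω : Ω, ∀ h ∈ H, ω • h ∈ H) → (∀ i, u i ∈ H) → H = ⊤)) →
      ∀ U V : Fin k → G,
        (∀ H : Subgroup G, H.Normal → (∀ ω : Ω, ∀ h ∈ H, ω • h ∈ H) →
          (∀ i, U i ∈ H) → H = ⊤) →
        (∀ H : Subgroup G, H.Normal → (∀ ω : Ω, ∀ h ∈ H, ω • h ∈ H) →
          (∀ i, V i ∈ H) → H = ⊤) →
        (Relation.ReflTransGen
            (fun a b : Fin k → G =>
              (∃ i j : Fin k, i ≠ j ∧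
                (b = Function.update a i (a i * a j) ∨
                 b = Function.update a i (a i * (a j)⁻¹) ∨
                 b = Function.update a i (a j * a i) ∨
                 b = Function.update a i ((a j)⁻¹ * a i))) ∨
              (∃ i : Fin k, b = Function.update a i (a i)⁻¹) ∨
              (∃ (i : Fin k) (g : G), b = Function.update a i (g⁻¹ * a i * g)) ∨
              (∃ (i : Fin k) (ω : Ω), b = Function.update a i (ω • a i)))
            U V ↔
          Relation.ReflTransGen
            (fun a b : Fin k → Abelianization G =>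
              (∃ i j : Fin k, i ≠ j ∧
                (b = Function.update a i (a i * a j) ∨
                 b = Function.update a i (a i * (a j)⁻¹) ∨
                 b = Function.update a i (a j * a i) ∨
                 b = Function.update a i ((a j)⁻¹ * a i))) ∨
              (∃ i : Fin k, b = Function.update a i (a i)⁻¹) ∨
              (∃ (i : Fin k) (ω : Ω) (g : G), Abelianization.of g = a i ∧
                b = Function.update a i (Abelianization.of (ω • g))))
            (fun i => Abelianization.of (U i)) (fun i => Abelianization.of (V i))) := by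
  intro G Ω _ _ _ _ k hk _ _ U V hU hV
  have hU' : Pool.Agent.H67.AC.Gen Ω U := fun H h => hU H h.1 h.2
  have hV' : Pool.Agent.H67.AC.Gen Ω V := fun H h => hV H h.1 h.2
  have up : ∀ (a : Fin k → G) (i : Fin k) (x : G), (fun l => Abelianization.of (Function.update a i x l)) =
      Function.update (fun l => Abelianization.of (a l)) i (Abelianization.of x) := by
    intro a i x
    funext l
    by_cases h : l = i
    · subst h; simp
    · simp [h]
  constructor
  · intro h
    clear hV hV'
    induction h with
    | refl => exact Relation.ReflTransGen.refl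
    | tail _ h ih =>
      rcases h with ⟨i, j, hij, rfl | rfl | rfl | rfl⟩ | ⟨i, rfl⟩ | ⟨i, g, rfl⟩ | ⟨i, ω, rfl⟩ <;> rw [up]
      · exact ih.tail (Or.inl ⟨i, j, hij, Or.inl (by simp)⟩)
      · exact ih.tail (Or.inl ⟨i, j, hij, Or.inr (Or.inl (by simp))⟩)
      · exact ih.tail (Or.inl ⟨i, j, hij, Or.inr (Or.inr (Or.inl (by simp)))⟩)
      · exact ih.tail (Or.inl ⟨i, j, hij, Or.inr (Or.inr (Or.inr (by simp)))⟩)
      · exact ih.tail (Or.inr (Or.inl ⟨i, by simp⟩))
      · rw [map_mul, map_mul, map_inv, mul_right_comm, inv_mul_cancel, one_mul, Function.update_eq_self]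
        exact ih
      · exact ih.tail (Or.inr (Or.inr ⟨i, ω, _, rfl, rfl⟩))
  · intro h
    have key : ∃ W : Fin k → G, Pool.Agent.H67.AC.Eqv Ω U W ∧
        (fun i => Abelianization.of (W i)) = fun i => Abelianization.of (V i) := by
      generalize (fun i => Abelianization.of (V i)) = B at h
      induction h with
      | refl => exact ⟨U, Relation.ReflTransGen.refl, rfl⟩
      | tail _ h ih =>
        obtain ⟨W, hW, rfl⟩ := ih
        rcases h with ⟨i, j, hij, rfl | rfl | rfl | rfl⟩ | ⟨i, rfl⟩ | ⟨i, ω, g, e, rfl⟩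
        · exact ⟨_, hW.tail (Or.inl ⟨i, j, hij, Or.inl rfl⟩), by rw [up]; simp⟩
        · exact ⟨_, hW.tail (Or.inl ⟨i, j, hij, Or.inr (Or.inl rfl)⟩), by rw [up]; simp⟩
        · exact ⟨_, hW.tail (Or.inl ⟨i, j, hij, Or.inr (Or.inr (Or.inl rfl))⟩), by rw [up]; simp⟩
        · exact ⟨_, hW.tail (Or.inl ⟨i, j, hij, Or.inr (Or.inr (Or.inr rfl))⟩), by rw [up]; simp⟩
        · exact ⟨_, hW.tail (Or.inr (Or.inl ⟨i, rfl⟩)), by rw [up]; simp⟩
        · refine ⟨_, hW.tail (Or.inr (Or.inr (Or.inr ⟨i, ω, rfl⟩))), ?_⟩
          rw [up]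
          congr 1
          have := congrArg (Abelianization.map (MulDistribMulAction.toMonoidHom G ω)) e
          simpa using this.symm
    obtain ⟨W, hW, e⟩ := key
    refine Relation.ReflTransGen.trans hW (Pool.Agent.H67.AC.main hk W V (hW.gen hU') hV' fun i => ?_)
    exact QuotientGroup.eq.1 (congrFun e i)

end Pool.Agent.S02629
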