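import Pool.Statements.S02647
import Pool.Agent.H76.StdId

set_option autoImplicit false
open Pool Pool.MP_aaf344_al

namespace Pool.Agent.S02647

/-- Setting: a field of characteristic p>0 and an algebra over it graded by a finite abelian group of order k whose degree-zero part is commutative. Claim: every such algebra satisfies the standard identity of degree kp. -/
theorem result :
    ∀ (F : Type) [Field F] (p : ℕ), 0 < p → CharP F p →
    ∀ (G : Type) [AddCommGroup G] [Fintype G] [DecidableEq G]
      (A : Type) [Ring A] [Algebra F A] (𝒜 : G → Submodule F A) [GradedAlgebra 𝒜],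
      (∀ a ∈ 𝒜 0, ∀ b ∈ 𝒜 0, a * b = b * a) →
      ∀ x : Fin (Fintype.card G * p) → A,
        ∑ σ : Equiv.Perm (Fin (Fintype.card G * p)),
          ((Equiv.Perm.sign σ : ℤˣ) : ℤ) • (List.ofFn (fun i => x (σ i))).prod = 0 := by
  intro F _ p hp hchar G _ _ _ A _ _ 𝒜 _ hcomm x
  classical
  let M : MultilinearMap F (fun _ : Fin (Fintype.card G * p) => A) A :=
    ∑ σ : Equiv.Perm (Fin (Fintype.card G * p)),
      ((Equiv.Perm.sign σ : ℤˣ) : ℤ) •
        (MultilinearMap.mkPiAlgebraFin F (Fintype.card G * p) A).domDomCongr σ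
  have hM : ∀ y : Fin (Fintype.card G * p) → A, M y =
      ∑ σ : Equiv.Perm (Fin (Fintype.card G * p)),
        ((Equiv.Perm.sign σ : ℤˣ) : ℤ) • (List.ofFn (fun i => y (σ i))).prod := by
    intro y
    simp only [M, MultilinearMap.sum_apply, MultilinearMap.smul_apply,
      MultilinearMap.domDomCongr_apply, MultilinearMap.mkPiAlgebraFin_apply]
  rw [← hM]
  have hx : x = fun i => ∑ g : G, ((DirectSum.decompose 𝒜 (x i) g : 𝒜 g) : A) := by
    funext i
    conv_lhs => rw [← DirectSum.sum_support_decompose 𝒜 (x i)]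
    refine Finset.sum_subset (Finset.subset_univ _) fun g _ hg => ?_
    rw [DFinsupp.notMem_support_iff.1 hg]; rfl
  rw [hx, MultilinearMap.map_sum]
  refine Finset.sum_eq_zero fun d _ => ?_
  set y : Fin (Fintype.card G * p) → A :=
    fun i => ((DirectSum.decompose 𝒜 (x i) (d i) : 𝒜 (d i)) : A) with hy
  rw [hM, Pool.Agent.H76.StdId.sum_perm_eq]
  have hmem : ∀ l : List (Fin (Fintype.card G * p)),
      (l.map y).prod ∈ 𝒜 (Pool.Agent.H76.StdId.deg d l) := by
    intro l
    induction l with
    | nil => simpa [Pool.Agent.H76.StdId.deg_nil] using SetLike.GradedOne.one_mem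
    | cons i l ih =>
      rw [List.map_cons, List.prod_cons, Pool.Agent.H76.StdId.deg_cons]
      exact SetLike.GradedMul.mul_mem (SetLike.coe_mem _) ih
  refine Pool.Agent.H76.StdId.sum_zero d y (fun a b ha hb => hcomm _ (ha ▸ hmem a) _ (hb ▸ hmem b))
    p hp ?_ _ (List.nodup_finRange _) (List.length_finRange)
  rw [← map_natCast (algebraMap F A), CharP.cast_eq_zero, map_zero]

end Pool.Agent.S02647
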