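import Pool.Statements.S02657
import Pool.Agent.H27.KOrd5

set_option autoImplicit false
open Pool Pool.MP_ab86ea_al

namespace Pool.Agent.S02657

/-- Every group admitting a bi-invariant total order embeds, via an injective homomorphism, in a group where every bi-invariant partial order extends to a bi-invariant total order. -/
theorem result :
    ∀ (G : Type) [Group G],
      (∃ s : G → G → Prop,
        (∀ a b, s a b → s b a → a = b) ∧
        (∀ a b c, s a b → s b c → s a c) ∧
        (∀ a b, s a b ∨ s b a) ∧
        (∀ a b c d, s a b → s (c * a * d) (c * b * d))) →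
      ∃ (H : Type) (_ : Group H) (f : G →* H), Function.Injective f ∧
        ∀ r : H → H → Prop,
          (∀ a, r a a) →
          (∀ a b, r a b → r b a → a = b) →
          (∀ a b c, r a b → r b c → r a c) →
          (∀ a b c d, r a b → r (c * a * d) (c * b * d)) →
          ∃ s : H → H → Prop,
            (∀ a b, r a b → s a b) ∧
            (∀ a b, s a b → s b a → a = b) ∧
            (∀ a b c, s a b → s b c → s a c) ∧
            (∀ a b, s a b ∨ s b a) ∧
            (∀ a b c d, s a b → s (c * a * d) (c * b * d)) := by
  rintro G _ ⟨s, s1, s2, s3, s4⟩
  exact Pool.Agent.H27.KOrd.main G s s1 s2 s3 s4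

end Pool.Agent.S02657
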