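import Pool.Statements.S02659
import Pool.Agent.H77.Gleason

set_option autoImplicit false
open Filter Topology
open Pool Pool.MP_ab8afa_al

namespace Pool.Agent.S02659

/-- There exist positive integers p_n and reals a_n with a_1=1 strictly decreasing to 0, a_n(p_{n+1}/p_n-1)≥1, and gcd-1 tails, and a split of ℤ into nonempty X and its complement Y, such that for x_i in X and y_i in Y the three N-series are never all convergent. -/
theorem result :
    ∃ p : ℕ → ℕ, ∃ a : ℕ → ℝ,
      a 0 = 1 ∧ StrictAnti a ∧ Tendsto a atTop (𝓝 0) ∧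
      (∀ n, 0 < p n) ∧
      (∀ n, 1 ≤ a n * ((p (n + 1) : ℝ) / (p n : ℝ) - 1)) ∧
      (∀ m : ℕ, ∃ s : Finset ℕ, (∀ n ∈ s, m < n) ∧ s.gcd p = 1) ∧
      ∃ X : Set ℤ, X.Nonempty ∧ Xᶜ.Nonempty ∧
        ∀ N : ℤ → ℝ,
          (∀ z : ℤ, N z = sInf {r : ℝ | ∃ k : ℕ →₀ ℤ,
              (k.sum (fun i c => c * (p i : ℤ))) = z ∧
              r = k.sum (fun i c => |(c : ℝ)| * a i)}) →
          ∀ x y : ℕ → ℤ, (∀ i, x i ∈ X) → (∀ i, y i ∈ Xᶜ) →
            ¬ (Summable (fun i => N (x i - x (i + 1))) ∧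
               Summable (fun i => N (y i - y (i + 1))) ∧
               Summable (fun i => N (x i - y i))) := by
  exact Pool.Agent.H77.Gleason.main

end Pool.Agent.S02659
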