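import Pool.Statements.S02662

set_option autoImplicit false
open Pool Pool.MP_ab9402_al

namespace Pool.Agent.S02662

/-- The real Engel group: length, displacement, sum of heights, sum of squared heights. -/
@[ext] structure En where
  n : ℝ
  h : ℝ
  s : ℝ
  q : ℝ

instance : Mul En := ⟨fun x y =>
  ⟨x.n + y.n, x.h + y.h, x.s + y.s + y.n * x.h, x.q + y.q + 2 * x.h * y.s + y.n * x.h ^ 2⟩⟩
instance : One En := ⟨⟨0, 0, 0, 0⟩⟩
instance : Inv En := ⟨fun x =>
  ⟨-x.n, -x.h, -x.s + x.n * x.h, -x.q + 2 * x.h * x.s - x.n * x.h ^ 2⟩⟩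

@[simp] theorem mul_n (x y : En) : (x * y).n = x.n + y.n := rfl
@[simp] theorem mul_h (x y : En) : (x * y).h = x.h + y.h := rfl
@[simp] theorem mul_s (x y : En) : (x * y).s = x.s + y.s + y.n * x.h := rfl
@[simp] theorem mul_q (x y : En) : (x * y).q = x.q + y.q + 2 * x.h * y.s + y.n * x.h ^ 2 := rfl
@[simp] theorem one_n : (1 : En).n = 0 := rfl
@[simp] theorem one_h : (1 : En).h = 0 := rfl
@[simp] theorem one_s : (1 : En).s = 0 := rfl
@[simp] theorem one_q : (1 : En).q = 0 := rfl
@[simp] theorem inv_n (x : En) : (x⁻¹).n = -x.n := rfl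
@[simp] theorem inv_h (x : En) : (x⁻¹).h = -x.h := rfl
@[simp] theorem inv_s (x : En) : (x⁻¹).s = -x.s + x.n * x.h := rfl
@[simp] theorem inv_q (x : En) : (x⁻¹).q = -x.q + 2 * x.h * x.s - x.n * x.h ^ 2 := rfl

instance : Group En := Group.ofLeftAxioms
  (fun x y z => by ext <;> simp <;> ring)
  (fun x => by ext <;> simp)
  (fun x => by ext <;> simp <;> ring)

def H2 : Subgroup En where
  carrier := {x | x.n = 0 ∧ x.h = 0}
  one_mem' := ⟨rfl, rfl⟩
  mul_mem' := by rintro x y ⟨h1, h2⟩ ⟨h3, h4⟩; simp [h1, h2, h3, h4]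
  inv_mem' := by rintro x ⟨h1, h2⟩; simp [h1, h2]

def H1 : Subgroup En where
  carrier := {x | x.n = 0 ∧ x.h = 0 ∧ x.s = 0}
  one_mem' := ⟨rfl, rfl, rfl⟩
  mul_mem' := by rintro x y ⟨h1, h2, h5⟩ ⟨h3, h4, h6⟩; simp [h1, h2, h3, h4, h5, h6]
  inv_mem' := by rintro x ⟨h1, h2, h3⟩; simp [h1, h2, h3]

def ser : ℕ → Subgroup En
  | 0 => ⊥
  | 1 => H1
  | 2 => H2
  | _ => ⊤

theorem nilp : Group.IsNilpotent En := by
  rw [Subgroup.nilpotent_iff_finite_ascending_central_series]
  refine ⟨3, ser, ⟨rfl, ?_⟩, rfl⟩
  intro x n hx g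
  rw [commutatorElement_def]
  match n with
  | 0 =>
    obtain ⟨h1, h2, h3⟩ : x.n = 0 ∧ x.h = 0 ∧ x.s = 0 := hx
    show _ ∈ (⊥ : Subgroup En)
    rw [Subgroup.mem_bot]
    ext <;> simp [h1, h2, h3] <;> ring
  | 1 =>
    obtain ⟨h1, h2⟩ : x.n = 0 ∧ x.h = 0 := hx
    refine ⟨?_, ?_, ?_⟩ <;> simp [h1, h2] <;> ring
  | 2 => refine ⟨?_, ?_⟩ <;> simp
  | n + 3 => trivial

noncomputable def al : ℝ := Real.sqrt 2 - 1

theorem al_irr : Irrational al := by
  have := irrational_sqrt_two.sub_intCast 1
  simpa [al] using this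

theorem al_pos : 0 < al := by
  have : (1 : ℝ) < Real.sqrt 2 := by rw [Real.lt_sqrt (by norm_num)]; norm_num
  simp [al, this]

theorem al_lt : al < 1 := by
  have : Real.sqrt 2 < 2 := by rw [Real.sqrt_lt' (by norm_num)]; norm_num
  simp only [al]; linarith

def bit (c : Bool) : ℤ := if c then 1 else 0

noncomputable def dl (c : Bool) : ℝ := bit c - al

noncomputable def ev : FreeMonoid Bool →* En :=
  FreeMonoid.lift (fun c => ⟨1, dl c, dl c, dl c ^ 2⟩)

noncomputable def evl (w : List Bool) : En := ev (FreeMonoid.ofList w)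

theorem evl_nil : evl [] = 1 := map_one ev
theorem evl_cons (c : Bool) (w : List Bool) :
    evl (c :: w) = ⟨1, dl c, dl c, dl c ^ 2⟩ * evl w := by
  simp [evl, ev, FreeMonoid.ofList_cons]

noncomputable def E : ℝ → List Bool → ℝ
  | _, [] => 0
  | t, c :: w => (t + dl c) ^ 2 + E (t + dl c) w

def Gd : ℝ → List Bool → Prop
  | t, [] => |t| < 1 / 2
  | t, c :: w => |t| < 1 / 2 ∧ Gd (t + dl c) w

theorem Gd.head {t : ℝ} {w : List Bool} (h : Gd t w) : |t| < 1 / 2 := by
  cases w with
  | nil => exact h
  | cons c w => exact h.1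

theorem E_eq (w : List Bool) : ∀ t, E t w = (evl w).n * t ^ 2 + 2 * t * (evl w).s + (evl w).q := by
  induction w with
  | nil => intro t; simp [E, evl_nil]
  | cons c w ih => intro t; simp only [E, ih, evl_cons, mul_n, mul_s, mul_q]; ring

theorem n_eq (w : List Bool) : (evl w).n = w.length := by
  induction w with
  | nil => simp [evl_nil]
  | cons c w ih => simp [evl_cons, ih]; ring

theorem h_eq (w : List Bool) : ∃ j : ℤ, (evl w).h = j - w.length * al := by
  induction w with
  | nil => exact ⟨0, by simp [evl_nil]⟩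
  | cons c w ih =>
    obtain ⟨j, hj⟩ := ih
    exact ⟨bit c + j, by simp [evl_cons, hj, dl]; ring⟩

theorem sq_lt {t : ℝ} (ht : |t| < 1 / 2) {m : ℤ} (hm : m ≠ 0) : t ^ 2 < (t + m) ^ 2 := by
  obtain ⟨h1, h2⟩ := abs_lt.1 ht
  rcases lt_or_gt_of_ne hm with h | h
  · have : (m : ℝ) ≤ -1 := by exact_mod_cast (show m ≤ -1 by omega)
    nlinarith
  · have : (1 : ℝ) ≤ m := by exact_mod_cast (show 1 ≤ m by omega)
    nlinarith

theorem E_min (w : List Bool) : ∀ (t : ℝ) (m : ℤ) (w' : List Bool), Gd t w →
    w'.length = w.length → E t w ≤ E (t + m) w' ∧ (m = 0 → E t w = E (t + m) w' → w' = w) := by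
  induction w with
  | nil =>
    intro t m w' _ hl
    have : w' = [] := List.length_eq_zero_iff.1 hl
    subst this
    exact ⟨le_rfl, fun _ _ => rfl⟩
  | cons c w ih =>
    intro t m w' hg hl
    cases w' with
    | nil => simp at hl
    | cons c' w' =>
      have e : t + m + dl c' = t + dl c + ((m + bit c' - bit c : ℤ) : ℝ) := by
        simp only [dl]; push_cast; ring
      obtain ⟨h1, h2⟩ := ih (t + dl c) (m + bit c' - bit c) w' hg.2 (by simpa using hl)
      simp only [E, e]
      by_cases h0 : m + bit c' - bit c = 0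
      · refine ⟨?_, fun hm he => ?_⟩
        · rw [h0] at h1 ⊢; simp only [Int.cast_zero, add_zero] at h1 ⊢; linarith
        · have hc : c' = c := by
            subst hm
            cases c <;> cases c' <;> simp [bit] at h0 ⊢
          rw [hc, h2 h0]
          rw [h0] at he ⊢; simp only [Int.cast_zero, add_zero] at he ⊢; linarith
      · have := sq_lt hg.2.head h0
        exact ⟨by linarith, fun _ he => by linarith⟩

def Good (w : List Bool) : Prop := ∃ t, Gd t w

theorem single {w w' : List Bool} (h : Good w) (he : evl w' = evl w) : w' = w := by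
  obtain ⟨t, ht⟩ := h
  have hl : w'.length = w.length := by
    have := congrArg En.n he
    rw [n_eq, n_eq] at this
    exact_mod_cast this
  refine (E_min w t 0 w' ht hl).2 rfl ?_
  rw [E_eq, E_eq, he]; simp

theorem Gd_append (u v : List Bool) : ∀ t, Gd t (u ++ v) → Gd t u ∧ Gd (t + (evl u).h) v := by
  induction u with
  | nil => intro t h; exact ⟨h.head, by simpa [evl_nil] using h⟩
  | cons c u ih =>
    intro t h
    obtain ⟨h1, h2⟩ := ih _ h.2
    refine ⟨⟨h.1, h1⟩, ?_⟩
    simpa [evl_cons, add_assoc] using h2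

theorem Good.left {u v : List Bool} (h : Good (u ++ v)) : Good u :=
  h.elim fun t ht => ⟨t, (Gd_append u v t ht).1⟩
theorem Good.right {u v : List Bool} (h : Good (u ++ v)) : Good v :=
  h.elim fun t ht => ⟨_, (Gd_append u v t ht).2⟩

theorem Good.h_lt {u : List Bool} (h : Good u) : |(evl u).h| < 1 := by
  obtain ⟨t, ht⟩ := h
  have h1 := (Gd_append u [] t (by simpa using ht)).2.head
  have h2 := ht.head
  rw [abs_lt] at *
  constructor <;> linarith [h1.1, h1.2, h2.1, h2.2]

theorem exists_good (n : ℕ) : ∀ (j : ℤ) (k : ℕ), |(j : ℝ) - k * al| < 1 / 2 →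
    ∃ w : List Bool, w.length = n ∧ Gd (j - k * al) w := by
  induction n with
  | zero => intro j k h; exact ⟨[], rfl, h⟩
  | succ n ih =>
    intro j k h
    have hne : (j : ℝ) - ((k + 1 : ℕ) : ℝ) * al ≠ -(1 / 2) := by
      intro e
      have h1 : Irrational (((2 * (k + 1) : ℕ) : ℝ) * al) := al_irr.natCast_mul (by omega)
      apply h1.ne_int (2 * j + 1)
      push_cast at e ⊢
      linarith
    have hp := al_pos
    have hl := al_lt
    obtain ⟨h1, h2⟩ := abs_lt.1 h
    rcases lt_or_gt_of_ne hne with h3 | h3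
    · obtain ⟨w, hw, hg⟩ := ih (j + 1) (k + 1) (by
        rw [abs_lt]; push_cast at h3 ⊢; constructor <;> linarith)
      refine ⟨true :: w, by simp [hw], h, ?_⟩
      convert hg using 1
      simp [dl, bit]; ring
    · obtain ⟨w, hw, hg⟩ := ih j (k + 1) (by
        rw [abs_lt]; push_cast at h3 ⊢; constructor <;> linarith)
      refine ⟨false :: w, by simp [hw], h, ?_⟩
      convert hg using 1
      simp [dl, bit]; ring

def con : Con (FreeMonoid Bool) where
  r u v := u = v ∨ (¬ Good u.toList ∧ ¬ Good v.toList)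
  iseqv := ⟨fun _ => Or.inl rfl, fun h => h.imp Eq.symm And.symm, by
    rintro x y z (rfl | h) (rfl | h')
    · exact Or.inl rfl
    · exact Or.inr h'
    · exact Or.inr h
    · exact Or.inr ⟨h.1, h'.2⟩⟩
  mul' := by
    rintro w x y z (rfl | h) (rfl | h')
    · exact Or.inl rfl
    · exact Or.inr ⟨fun g => h'.1 g.right, fun g => h'.2 g.right⟩
    · exact Or.inr ⟨fun g => h.1 g.left, fun g => h.2 g.left⟩
    · exact Or.inr ⟨fun g => h.1 g.left, fun g => h.2 g.left⟩

theorem h_pow (x : En) (k : ℕ) : (x ^ k).h = k * x.h := by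
  induction k with
  | zero => simp
  | succ k ih => rw [pow_succ, mul_h, ih]; push_cast; ring

theorem lift_hom {n : ℕ} {M N : Type} [Monoid M] [Monoid N] (F : M →* N) (φ : Fin n → M)
    (u : FreeSemigroup (Fin n)) :
    FreeSemigroup.lift (fun i => F (φ i)) u = F (FreeSemigroup.lift φ u) := by
  induction u with
  | ih1 x => simp
  | ih2 x y h1 h2 => simp only [map_mul, h1, h2]

/-- The negation of the preceding statement: For every nilpotent group G, any semigroup satisfying all semigroup identities of G in which each element generates a finite subsemigroup has every finitely generated subsemigroup finite. -/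
theorem result :
    ¬ (∀ (G : Type) [Group G], Group.IsNilpotent G →
      ∀ (S : Type) [Semigroup S],
        (∀ (n : ℕ) (u v : FreeSemigroup (Fin n)),
          (∀ f : Fin n → G, FreeSemigroup.lift f u = FreeSemigroup.lift f v) →
          ∀ g : Fin n → S, FreeSemigroup.lift g u = FreeSemigroup.lift g v) →
        (∀ s : S, (Subsemigroup.closure ({s} : Set S) : Set S).Finite) →
        ∀ T : Finset S, (Subsemigroup.closure (T : Set S) : Set S).Finite) := by
  intro h
  classical
  have key := h En nilp con.Quotient ?_ ?_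
    {con.mk' (FreeMonoid.of true), con.mk' (FreeMonoid.of false)}
  · choose w hw hg using fun n => exists_good (n + 1) 0 0 (by simp)
    refine Set.infinite_of_injective_forall_mem
      (f := fun n : ℕ => con.mk' (FreeMonoid.ofList (w n))) ?_ ?_ key
    · intro a b hab
      rcases (Con.eq con).1 hab with h1 | h1
      · have h2 : w a = w b := FreeMonoid.ofList.injective h1
        have := hw a
        rw [h2, hw b] at this
        omega
      · exact (h1.1 ⟨_, hg a⟩).elim
    · intro n
      have : ∀ (l : List Bool) (c : Bool), con.mk' (FreeMonoid.ofList (c :: l)) ∈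
          Subsemigroup.closure ((({con.mk' (FreeMonoid.of true), con.mk' (FreeMonoid.of false)} :
            Finset con.Quotient)) : Set con.Quotient) := by
        have hc : ∀ c : Bool, con.mk' (FreeMonoid.of c) ∈
            Subsemigroup.closure ((({con.mk' (FreeMonoid.of true), con.mk' (FreeMonoid.of false)} :
              Finset con.Quotient)) : Set con.Quotient) := fun c =>
          Subsemigroup.subset_closure (by cases c <;> simp)
        intro l
        induction l with
        | nil => exact hc
        | cons d l ih =>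
          intro c
          rw [FreeMonoid.ofList_cons, map_mul]
          exact mul_mem (hc c) (ih d)
      have hl := hw n
      cases hwn : w n with
      | nil => rw [hwn] at hl; simp at hl
      | cons c l =>
        exact this l c
  · intro n u v huv g
    choose φ hφ using fun i => con.mk'_surjective (g i)
    have hg : g = fun i => con.mk' (φ i) := funext fun i => (hφ i).symm
    have h1 := huv (fun i => ev (φ i))
    rw [lift_hom, lift_hom] at h1
    rw [hg, lift_hom, lift_hom]
    apply (Con.eq con).2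
    by_cases hu : Good (FreeSemigroup.lift φ u).toList
    · left
      exact (FreeMonoid.toList.injective (single hu h1.symm)).symm
    · by_cases hv : Good (FreeSemigroup.lift φ v).toList
      · left
        exact FreeMonoid.toList.injective (single hv h1)
      · exact Or.inr ⟨hu, hv⟩
  · intro s
    obtain ⟨u, rfl⟩ := con.mk'_surjective s
    have hsub : (Subsemigroup.closure ({con.mk' u} : Set con.Quotient) : Set con.Quotient) ⊆
        Set.range (fun k : ℕ => con.mk' (u ^ k)) := by
      intro x hx
      induction hx using Subsemigroup.closure_induction with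
      | mem x hx => exact ⟨1, by simp [Set.mem_singleton_iff.1 hx]⟩
      | mul x y _ _ hx hy =>
        obtain ⟨a, rfl⟩ := hx
        obtain ⟨b, rfl⟩ := hy
        exact ⟨a + b, by simp [pow_add]⟩
    refine Set.Finite.subset ?_ hsub
    by_cases hu : u = 1
    · subst hu
      simp
    · have hh : (ev u).h ≠ 0 := by
        obtain ⟨j, hj⟩ := h_eq u.toList
        have hl : u.toList.length ≠ 0 := fun e => hu (List.length_eq_zero_iff.1 e)
        intro e
        have e2 : (evl u.toList).h = 0 := e
        apply (al_irr.natCast_mul hl).ne_int j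
        linarith
      obtain ⟨m, hm⟩ := exists_nat_ge (1 / |(ev u).h|)
      have hp : 0 < |(ev u).h| := abs_pos.2 hh
      have bad : ∀ k, m ≤ k → ¬ Good (u ^ k).toList := by
        intro k hk hg
        have h1 := hg.h_lt
        have e : evl (u ^ k).toList = ev u ^ k := map_pow ev u k
        rw [e, h_pow, abs_mul, Nat.abs_cast] at h1
        have h2 : (m : ℝ) ≤ k := by exact_mod_cast hk
        rw [div_le_iff₀ hp] at hm
        nlinarith
      refine ((Set.finite_Iic m).image (fun k : ℕ => con.mk' (u ^ k))).subset ?_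
      rintro _ ⟨k, rfl⟩
      by_cases hk : k ≤ m
      · exact ⟨k, hk, rfl⟩
      · exact ⟨m, Set.mem_Iic.2 le_rfl, (Con.eq con).2 (Or.inr ⟨bad m le_rfl, bad k (by omega)⟩)⟩

end Pool.Agent.S02662
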