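import Pool.Statements.S02666
import Pool.Agent.H77.GrpInRing

set_option autoImplicit false
open Pool Pool.MP_abd870_al

namespace Pool.Agent.S02666

/-- The negation of the preceding statement: Every topological group G admits a topological ring R and a multiplicative map from G into R that is a topological embedding (injective and a homeomorphism onto its image). -/
theorem result :
    ¬ (∀ (G : Type) [Group G] [TopologicalSpace G] [IsTopologicalGroup G],
      ∃ (R : Type) (_ : Ring R) (_ : TopologicalSpace R),
        IsTopologicalRing R ∧ ∃ f : G →ₙ* R, Topology.IsEmbedding f) := by
  exact Pool.Agent.H77.GrpInRing.main

end Pool.Agent.S02666
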