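import Pool.Statements.S02669
import Pool.Agent.H27.SchurD

set_option autoImplicit false
open Pool Pool.MP_ac0662_al

namespace Pool.Agent.S02669

/-- For every prime p and every finite abelian p-group A, there is a finite nonabelian p-group G whose Schur multiplier, H_2(G, Z) with trivial action, is isomorphic to A. -/
theorem result :
    ∀ p : ℕ, p.Prime →
      ∀ (A : Type) [AddCommGroup A] [Finite A],
        (∀ a : A, ∃ n : ℕ, p ^ n • a = 0) →
        ∃ (G : Type) (_ : Group G),
          Finite G ∧ IsPGroup p G ∧ (∃ x y : G, x * y ≠ y * x) ∧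
          Nonempty (A ≃+ (groupHomology.H2 (Rep.trivial ℤ G ℤ))) := by
  intro p hp A _ _ hA
  exact Pool.Agent.H27.Schur.main p hp A hA

end Pool.Agent.S02669
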