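import Pool.Statements.S02672
import Pool.Agent.H68.CoxSep

set_option autoImplicit false
open Pool Pool.MP_ac3292_al

namespace Pool.Agent.S02672

theorem result :
    ¬ (∀ (G : Type) [Group G] (S : Finset G), Subgroup.closure (S : Set G) = ⊤ →
  ∀ (Γ : SimpleGraph G), Γ = SimpleGraph.fromRel (fun g h : G => g⁻¹ * h ∈ S) →
  ∀ (asdimLE : Set G → ℕ → Prop),
    (∀ (Y : Set G) (k : ℕ), asdimLE Y k ↔
      ∀ R : ℕ, ∃ 𝒰 : Set (Set G), (∀ U ∈ 𝒰, U ⊆ Y) ∧ Y ⊆ ⋃₀ 𝒰 ∧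
        (∃ D : ℕ, ∀ U ∈ 𝒰, ∀ a ∈ U, ∀ b ∈ U, Γ.dist a b ≤ D) ∧
        ∀ y ∈ Y, {U ∈ 𝒰 | ∃ z ∈ U, Γ.dist y z ≤ R}.encard ≤ (k + 1 : ℕ∞)) →
  ∀ (m : ℕ), ¬ asdimLE Set.univ (m + 1) →
  ∀ (X : Set G), asdimLE X m →
  (∃ r : ℕ, ∃ Ω : Set G, Ω = {v : G | ∀ x ∈ X, r < Γ.dist v x} ∧
    ∃ C₁ C₂ : (Γ.induce Ω).ConnectedComponent, C₁ ≠ C₂ ∧
      ∀ C : (Γ.induce Ω).ConnectedComponent, (C = C₁ ∨ C = C₂) →
        ∀ D : ℕ, ∃ v : Ω, (Γ.induce Ω).connectedComponentMk v = C ∧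
          ∀ x ∈ X, D < Γ.dist (v : G) x) →
  ∃ H : Subgroup G, asdimLE (H : Set G) (m + 1) ∧
    ((∃ (K : Bool → Subgroup G) (hK : ∀ i, H ≤ K i), (∀ i, H ≠ K i) ∧
        ∃ e : Monoid.PushoutI (fun i : Bool => Subgroup.inclusion (hK i)) ≃* G,
          ∀ (i : Bool) (a : K i), e (Monoid.PushoutI.of i a) = (a : G)) ∨
     (∃ (A : Subgroup G) (B₁ B₂ : Subgroup A) (φ : B₁ ≃* B₂)
        (e : HNNExtension A B₁ B₂ φ ≃* G),
          (∀ a : A, e (HNNExtension.of a) = (a : G)) ∧ H = B₁.map A.subtype))) := by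
  open Pool.Agent.H68 Pool.Agent.H68.CoxSep in
  intro h
  obtain ⟨H', -, h⟩ := h G S S_gen (Cay.cay S) rfl (Cay.AsLE S) (fun _ _ => Iff.rfl) 1
    (Cay.not_asLE_two S_gen ψ ψ_add ψ_inj) H (Cay.asLE_Hs S_gen rr tt rt pp)
    (Cay.deep S_gen H τ0 ((mem_S _).2 (Or.inl rfl)) τ_pow side side_adj t t_mem (side_t _))
  rcases h with ⟨K, hK, hne, e, -⟩ | ⟨A, B₁, B₂, φ, e, -⟩
  · obtain ⟨b, -, hb⟩ := Amalg.serre_pushout (fun i : Bool => Subgroup.inclusion (hK i))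
      (fun i => Subgroup.inclusion_injective _) e PresentedGroup.of fin1 fin2
      (PresentedGroup.closure_range_of rels)
    refine hne (!b) (le_antisymm (hK _) fun x hx => ?_)
    obtain ⟨y, hy⟩ := hb ⟨x, hx⟩
    have : (y : G) = x := congrArg Subtype.val hy
    exact this ▸ y.2
  · exact Amalg.no_hnn e PresentedGroup.of fin1 (PresentedGroup.closure_range_of rels)

end Pool.Agent.S02672
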