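import Pool.Statements.S02686
import Pool.Agent.H66.Prot

set_option autoImplicit false
open Pool Pool.MP_adca84_al

namespace Pool.Agent.S02686

/-- The negation of the preceding statement: For every group G and every partition of G into n cells, some cell A and some set F of at most n pairs (x,y) in G×G satisfy: every element of G equals x·a·b⁻¹·y for some (x,y) in F and a,b in A. -/
theorem result :
    ¬ (∀ (G : Type) [Group G] (n : ℕ) (A : Fin n → Set G),
      (∀ g : G, ∃ i, g ∈ A i) →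
      (∀ i j, i ≠ j → Disjoint (A i) (A j)) →
      ∃ i : Fin n, ∃ F : Finset (G × G), F.card ≤ n ∧
        ∀ g : G, ∃ p ∈ F, ∃ a ∈ A i, ∃ b ∈ A i, g = p.1 * a * b⁻¹ * p.2) := by
  classical
  intro H
  obtain ⟨c, hc, -⟩ := H66.Prot.main
  obtain ⟨i, F, hF, hU⟩ := H H66.Prot.G 7 (fun i => {p | c p = i})
    (fun p => ⟨_, rfl⟩)
    (fun i j hij => Set.disjoint_left.2 fun p h1 h2 => hij (h1.symm.trans h2))
  obtain ⟨g, hg⟩ := hc i (F.image (·.2)) (F.image (·.1⁻¹)) (Finset.card_image_le.trans hF)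
    (Finset.card_image_le.trans hF)
  obtain ⟨p, hp, a, ha, b, hb, rfl⟩ := hU g
  refine hg (p.2⁻¹ * b) p.2 (Finset.mem_image.2 ⟨p, hp, rfl⟩) p.1⁻¹
    (Finset.mem_image.2 ⟨p, hp, rfl⟩) ⟨by simpa using hb, ?_⟩
  simpa [mul_assoc] using ha

end Pool.Agent.S02686
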