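import Pool.Statements.S02692
-- import your own Pool.Agent.* helpers here

set_option autoImplicit false
open Pool Pool.MP_ae7646_al

namespace Pool.Agent.S02692

open Polynomial TensorProduct Coalgebra

section

variable {k : Type} [Field k]

/-- the antipode identities are inherited by products -/
def Anti {B : Type} [Ring B] [Bialgebra k B] (S : B →ₐ[k] Bᵐᵒᵖ) (b : B) : Prop :=
  LinearMap.mul' k B (((MulOpposite.opLinearEquiv k).symm.toLinearMap ∘ₗ S.toLinearMap).rTensor B
    (comul b)) = algebraMap k B (counit b) ∧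
  LinearMap.mul' k B (((MulOpposite.opLinearEquiv k).symm.toLinearMap ∘ₗ S.toLinearMap).lTensor B
    (comul b)) = algebraMap k B (counit b)

lemma Anti.mul {B : Type} [Ring B] [Bialgebra k B] {S : B →ₐ[k] Bᵐᵒᵖ} {a b : B} (ha : Anti S a)
    (hb : Anti S b) : Anti S (a * b) := by
  set T := (MulOpposite.opLinearEquiv k).symm.toLinearMap ∘ₗ S.toLinearMap with hT
  have hm : ∀ u v, T (u * v) = T v * T u := fun u v => by simp [hT]
  have h1 : ∀ (s t : B ⊗[k] B) (c : k), LinearMap.mul' k B (T.rTensor B s) = algebraMap k B c →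
      LinearMap.mul' k B (T.rTensor B (s * t)) = c • LinearMap.mul' k B (T.rTensor B t) := by
    intro s t c hs
    induction t with
    | zero => simp
    | add t₁ t₂ i₁ i₂ => simp only [mul_add, map_add, i₁, i₂, smul_add]
    | tmul u v =>
      have : ∀ s : B ⊗[k] B, LinearMap.mul' k B (T.rTensor B (s * u ⊗ₜ v)) =
          T u * LinearMap.mul' k B (T.rTensor B s) * v := fun s => by
        induction s with
        | zero => simp
        | add s₁ s₂ i₁ i₂ => simp only [add_mul, map_add, i₁, i₂, mul_add]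
        | tmul p q => simp [hm, mul_assoc]
      rw [this, hs, ← Algebra.commutes, mul_assoc, ← Algebra.smul_def]; simp
  have h2 : ∀ (s t : B ⊗[k] B) (c : k), LinearMap.mul' k B (T.lTensor B t) = algebraMap k B c →
      LinearMap.mul' k B (T.lTensor B (s * t)) = c • LinearMap.mul' k B (T.lTensor B s) := by
    intro s t c ht
    induction s with
    | zero => simp
    | add t₁ t₂ i₁ i₂ => simp only [add_mul, map_add, i₁, i₂, smul_add]
    | tmul u v =>
      have : ∀ t : B ⊗[k] B, LinearMap.mul' k B (T.lTensor B (u ⊗ₜ v * t)) =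
          u * LinearMap.mul' k B (T.lTensor B t) * T v := fun t => by
        induction t with
        | zero => simp
        | add s₁ s₂ i₁ i₂ => simp only [add_mul, map_add, i₁, i₂, mul_add]
        | tmul p q => simp [hm, mul_assoc]
      rw [this, ht, ← Algebra.commutes, mul_assoc, ← Algebra.smul_def]; simp
  constructor
  · rw [Bialgebra.comul_mul, h1 _ _ _ ha.1, hb.1, Bialgebra.counit_mul, map_mul, Algebra.smul_def]
  · rw [Bialgebra.comul_mul, h2 _ _ _ hb.2, ha.2, Bialgebra.counit_mul, mul_comm (counit a), map_mul,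
      Algebra.smul_def]

/-- Hopf structure from an anti-homomorphism that works on generators -/
noncomputable abbrev hopf {B : Type} [Ring B] [Bialgebra k B] (S : B →ₐ[k] Bᵐᵒᵖ) (s : Set B)
    (hs : Algebra.adjoin k s = ⊤) (h : ∀ b ∈ s, Anti S b) : HopfAlgebra k B :=
  have key : ∀ b, Anti S b := fun b => by
    have hb : b ∈ Algebra.adjoin k s := hs ▸ trivial
    induction hb using Algebra.adjoin_induction with
    | mem x hx => exact h x hx
    | algebraMap r =>
      simp [Anti, Algebra.algebraMap_eq_smul_one, Algebra.TensorProduct.one_def]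
    | add x y _ _ h1 h2 => exact ⟨by simp only [map_add, h1.1, h2.1], by simp only [map_add, h1.2, h2.2]⟩
    | mul x y _ _ h1 h2 => exact h1.mul h2
  { antipode := (MulOpposite.opLinearEquiv k).symm.toLinearMap ∘ₗ S.toLinearMap
    mul_antipode_rTensor_comul := LinearMap.ext fun b => (key b).1
    mul_antipode_lTensor_comul := LinearMap.ext fun b => (key b).2 }

variable [CharP k 2]

lemma two0 {B : Type} [AddCommGroup B] [Module k B] (b : B) : b + b = 0 := by
  rw [← two_smul k b, show (2 : k) = 0 from CharTwo.two_eq_zero, zero_smul]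

lemma sq_add {B : Type} [Ring B] [Algebra k B] {a b : B} (h : Commute a b) :
    (a + b) ^ 2 = a ^ 2 + b ^ 2 := by
  rw [sq, add_mul, mul_add, mul_add, ← h.eq, add_assoc, ← add_assoc (a * b), two0 (k := k), zero_add,
    sq, sq]

lemma prim_sq {B : Type} [Ring B] [Algebra k B] (x : B) :
    (x ⊗ₜ[k] (1 : B) + (1 : B) ⊗ₜ[k] x) ^ 2 = (x ^ 2) ⊗ₜ[k] (1 : B) + (1 : B) ⊗ₜ[k] (x ^ 2) := by
  rw [sq_add (k := k)]
  · simp
  · simp [Commute, SemiconjBy]

lemma prim_four {B : Type} [Ring B] [Algebra k B] (x : B) (h : x ^ 4 = 0) :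
    (x ⊗ₜ[k] (1 : B) + (1 : B) ⊗ₜ[k] x) ^ 4 = 0 := by
  rw [show 4 = 2 * 2 from rfl, pow_mul, prim_sq, prim_sq, ← pow_mul, h]; simp

variable (k)

/-- the truncated polynomial algebra -/
def A : Type := k[X] ⧸ Ideal.span {(X : k[X]) ^ 4}

noncomputable instance : CommRing (A k) := inferInstanceAs (CommRing (k[X] ⧸ Ideal.span {_}))
noncomputable instance : Algebra k (A k) := inferInstanceAs (Algebra k (k[X] ⧸ Ideal.span {_}))

noncomputable def mkA : k[X] →ₐ[k] A k := Ideal.Quotient.mkₐ k _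

noncomputable def xa : A k := mkA k X

variable {k}

omit [CharP k 2] in
lemma xa4 : xa k ^ 4 = 0 := by
  rw [xa, ← map_pow]
  exact Ideal.Quotient.eq_zero_iff_mem.2 (Ideal.subset_span rfl)

omit [CharP k 2] in
lemma xa2 : xa k ^ 2 ≠ 0 := by
  rw [xa, ← map_pow]
  intro h
  have := (X_pow_dvd_iff.1 (Ideal.mem_span_singleton.1 (Ideal.Quotient.eq_zero_iff_mem.1 h))) 2
    (by norm_num)
  simp at this

instance : FiniteDimensional k (A k) := (monic_X_pow 4).finite_quotient

noncomputable def liftA {B : Type} [Ring B] [Algebra k B] (b : B) (h : b ^ 4 = 0) : A k →ₐ[k] B :=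
  Ideal.Quotient.liftₐ _ (aeval b) fun p hp => by
    obtain ⟨q, rfl⟩ := Ideal.mem_span_singleton.1 hp
    simp [h]

omit [CharP k 2] in
@[simp] lemma liftA_x {B : Type} [Ring B] [Algebra k B] (b : B) (h : b ^ 4 = 0) :
    liftA b h (xa k) = b := aeval_X b

omit [CharP k 2] in
lemma extA {B : Type} [Ring B] [Algebra k B] {f g : A k →ₐ[k] B} (h : f (xa k) = g (xa k)) :
    f = g := Ideal.Quotient.algHom_ext k (Polynomial.algHom_ext h)

omit [CharP k 2] in
lemma indA {P : A k → Prop} (h0 : ∀ (c : k) (n : ℕ), P (c • xa k ^ n))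
    (h1 : ∀ a b, P a → P b → P (a + b)) (a : A k) : P a := by
  obtain ⟨p, rfl⟩ : ∃ p, mkA k p = a := Ideal.Quotient.mk_surjective a
  induction p using Polynomial.induction_on' with
  | add p q hp hq => rw [map_add]; exact h1 _ _ hp hq
  | monomial n c =>
    rw [← smul_X_eq_monomial, map_smul, map_pow]; exact h0 c n

noncomputable instance : Bialgebra k (A k) :=
  Bialgebra.ofAlgHom (liftA _ (prim_four (xa k) xa4)) (liftA 0 (by simp))
    (extA (by simp [Algebra.TensorProduct.one_def, tmul_add, add_tmul, add_assoc]))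
    (extA (by simp)) (extA (by simp))

@[simp] lemma comul_xa : comul (R := k) (xa k) = xa k ⊗ₜ[k] 1 + 1 ⊗ₜ[k] xa k :=
  liftA_x _ (prim_four (xa k) xa4)
@[simp] lemma counit_xa : counit (R := k) (xa k) = 0 := liftA_x (0 : k) (by simp)

omit [CharP k 2] in
lemma adjA : Algebra.adjoin k {xa k} = ⊤ := by
  rw [eq_top_iff]
  rintro a -
  induction a using indA with
  | h0 c n =>
    exact Subalgebra.smul_mem _ (Subalgebra.pow_mem _ (Algebra.self_mem_adjoin_singleton k _) n) c
  | h1 a b ha hb => exact add_mem ha hb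

noncomputable instance : HopfAlgebra k (A k) :=
  hopf (liftA (MulOpposite.op (xa k)) (by rw [← MulOpposite.op_pow, xa4]; rfl)) {xa k}
    adjA
    (by rintro _ rfl; simp [Anti, two0 (k := k)])

lemma sg_sq (c : k) : (xa k + c • xa k ^ 2) ^ 2 = xa k ^ 2 := by
  rw [sq_add (k := k) (Commute.all _ _), _root_.smul_pow, ← pow_mul, xa4]; simp

noncomputable def sg (c : k) : A k →ₐ[k] A k := liftA (xa k + c • xa k ^ 2) (by
  rw [show 4 = 2 * 2 from rfl, pow_mul, sg_sq, ← pow_mul, xa4])

lemma sg_x (c : k) : sg c (xa k) = xa k + c • xa k ^ 2 := liftA_x _ _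

lemma sg_sg (c d : k) (a : A k) : sg c (sg d a) = sg (c + d) a := by
  have : (sg c).comp (sg d) = sg (c + d) := extA (by
    simp only [AlgHom.comp_apply, sg_x, map_add, map_smul, map_pow, sg_sq, add_smul, add_assoc])
  exact congr($this a)

lemma sg_zero (a : A k) : sg 0 a = a := by
  have : sg (0 : k) = AlgHom.id k _ := extA (by simp [sg_x])
  exact congr($this a)

lemma sg_lin (c : k) (a : A k) : sg c a - a = c • (sg 1 a - a) := by
  have h : ∀ (c : k) (n : ℕ), sg c (xa k ^ (n + 2)) = xa k ^ (n + 2) := fun c n => by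
    rw [map_pow, sg_x]
    induction n with
    | zero => exact sg_sq c
    | succ n ih =>
      rw [pow_succ, ih, mul_add, mul_smul_comm, ← pow_add, add_assoc n, pow_add _ n (2 + 2), xa4]
      simp [pow_succ]
  induction a using indA with
  | h0 d n =>
    match n with
    | 0 => simp
    | 1 => simp [sg_x, smul_comm c d]
    | n + 2 => rw [map_smul, map_smul, h, h]; simp
  | h1 a b ha hb =>
    rw [map_add, map_add, add_sub_add_comm, add_sub_add_comm, ha, hb, smul_add]

abbrev Γ : Type := Multiplicative (ZMod 2 × ZMod 2)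

abbrev γ1 : Γ := Multiplicative.ofAdd (1, 0)
abbrev γ2 : Γ := Multiplicative.ofAdd (0, 1)

open FreeAlgebra in
inductive Rel (l : k) : FreeAlgebra k (Fin 3) → FreeAlgebra k (Fin 3) → Prop
  | x4 : Rel l (ι k 0 ^ 4) 0
  | g2 : Rel l (ι k 1 * ι k 1) 1
  | h2 : Rel l (ι k 2 * ι k 2) 1
  | gh : Rel l (ι k 1 * ι k 2) (ι k 2 * ι k 1)
  | gx : Rel l (ι k 1 * ι k 0) ((ι k 0 + (1 : k) • ι k 0 ^ 2) * ι k 1)
  | hx : Rel l (ι k 2 * ι k 0) ((ι k 0 + l • ι k 0 ^ 2) * ι k 2)

def E (l : k) : Type := RingQuot (Rel l)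

variable (l : k)

noncomputable instance : Ring (E l) := inferInstanceAs (Ring (RingQuot (Rel l)))
noncomputable instance : Algebra k (E l) := inferInstanceAs (Algebra k (RingQuot (Rel l)))

noncomputable def mkE : FreeAlgebra k (Fin 3) →ₐ[k] E l := RingQuot.mkAlgHom k _

noncomputable def ge (i : Fin 3) : E l := mkE l (FreeAlgebra.ι k i)

structure Rels {B : Type} [Ring B] [Algebra k B] (x g h : B) : Prop where
  x4 : x ^ 4 = 0
  g2 : g * g = 1
  h2 : h * h = 1
  gh : g * h = h * g
  gx : g * x = (x + (1 : k) • x ^ 2) * g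
  hx : h * x = (x + l • x ^ 2) * h

omit [CharP k 2] in
lemma rels : Rels l (ge l 0) (ge l 1) (ge l 2) := by
  have H : ∀ {a b}, Rel l a b → mkE l a = mkE l b := fun h => RingQuot.mkAlgHom_rel k h
  exact ⟨by simpa [ge] using H .x4, by simpa [ge] using H .g2, by simpa [ge] using H .h2,
    by simpa [ge] using H .gh, by simpa [ge] using H .gx, by simpa [ge] using H .hx⟩

variable {l}

noncomputable def liftE {B : Type} [Ring B] [Algebra k B] {x g h : B} (r : Rels l x g h) :
    E l →ₐ[k] B :=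
  RingQuot.liftAlgHom k ⟨FreeAlgebra.lift k ![x, g, h], by
    rintro _ _ (_ | _ | _ | _ | _ | _)
    · simpa using r.x4
    · simpa using r.g2
    · simpa using r.h2
    · simpa using r.gh
    · simpa using r.gx
    · simpa using r.hx⟩

omit [CharP k 2] in
lemma liftE_ge {B : Type} [Ring B] [Algebra k B] {x g h : B} (r : Rels l x g h) (i : Fin 3) :
    liftE r (ge l i) = ![x, g, h] i :=
  (RingQuot.liftAlgHom_mkAlgHom_apply k _ _ _).trans (FreeAlgebra.lift_ι_apply _ _)

omit [CharP k 2] in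
lemma extE {B : Type} [Ring B] [Algebra k B] {f g : E l →ₐ[k] B}
    (h : ∀ i, f (ge l i) = g (ge l i)) : f = g :=
  RingQuot.ringQuot_ext' k _ _ (FreeAlgebra.hom_ext (funext h))

omit [CharP k 2] in
lemma adjE : Algebra.adjoin k (Set.range (ge l)) = ⊤ := by
  rw [eq_top_iff]
  rintro a -
  obtain ⟨p, rfl⟩ : ∃ p, mkE l p = a := RingQuot.mkAlgHom_surjective k _ a
  induction p using FreeAlgebra.induction with
  | grade0 r => rw [AlgHom.commutes]; exact Subalgebra.algebraMap_mem _ r
  | grade1 i => exact Algebra.subset_adjoin ⟨i, rfl⟩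
  | mul a b ha hb => rw [map_mul]; exact mul_mem ha hb
  | add a b ha hb => rw [map_add]; exact add_mem ha hb

lemma gl_rel {B : Type} [Ring B] [Algebra k B] {x g : B} {c : k} (h : g * x = (x + c • x ^ 2) * g) :
    (g ⊗ₜ[k] g) * (x ⊗ₜ[k] (1 : B) + (1 : B) ⊗ₜ[k] x) =
      ((x ⊗ₜ[k] (1 : B) + (1 : B) ⊗ₜ[k] x) + c • (x ⊗ₜ[k] (1 : B) + (1 : B) ⊗ₜ[k] x) ^ 2) *
        (g ⊗ₜ[k] g) := by
  rw [prim_sq]
  simp only [mul_add, add_mul, Algebra.TensorProduct.tmul_mul_tmul, h, mul_one, one_mul, add_tmul,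
    tmul_add, smul_add, smul_mul_assoc, smul_tmul', tmul_smul]
  abel

lemma relsD : Rels l (ge l 0 ⊗ₜ[k] (1 : E l) + (1 : E l) ⊗ₜ[k] ge l 0) (ge l 1 ⊗ₜ[k] ge l 1)
    (ge l 2 ⊗ₜ[k] ge l 2) :=
  ⟨prim_four _ (rels l).x4, by simp [(rels l).g2, Algebra.TensorProduct.one_def],
    by simp [(rels l).h2, Algebra.TensorProduct.one_def], by simp [(rels l).gh],
    gl_rel (rels l).gx, gl_rel (rels l).hx⟩

omit [CharP k 2] in
lemma relsC : Rels l (0 : k) 1 1 := by constructor <;> simp

lemma op_rel {B : Type} [Ring B] {x g y : B} (h2 : g * g = 1) (h : g * x = y * g) :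
    x * g = g * y := by
  calc x * g = g * (g * x) * g := by rw [← mul_assoc, h2, one_mul]
    _ = g * y := by rw [h, mul_assoc, mul_assoc, h2, mul_one]

omit [CharP k 2] in
lemma relsS : Rels l (MulOpposite.op (ge l 0)) (MulOpposite.op (ge l 1))
    (MulOpposite.op (ge l 2)) := by
  constructor <;> apply MulOpposite.unop_injective
  · simpa using (rels l).x4
  · simpa using (rels l).g2
  · simpa using (rels l).h2
  · simpa using (rels l).gh.symm
  · simpa using op_rel (rels l).g2 (rels l).gx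
  · simpa using op_rel (rels l).h2 (rels l).hx

noncomputable instance : Bialgebra k (E l) :=
  Bialgebra.ofAlgHom (liftE relsD) (liftE relsC)
    (extE fun i => by
      fin_cases i <;>
        simp [liftE_ge, Algebra.TensorProduct.one_def, tmul_add, add_tmul, add_assoc])
    (extE fun i => by fin_cases i <;> simp [liftE_ge]) (extE fun i => by fin_cases i <;> simp [liftE_ge])

lemma comul_ge (i : Fin 3) : comul (R := k) (ge l i) = ![ge l 0 ⊗ₜ[k] (1 : E l) + (1 : E l) ⊗ₜ[k] ge l 0,
  ge l 1 ⊗ₜ[k] ge l 1, ge l 2 ⊗ₜ[k] ge l 2] i := liftE_ge _ _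

lemma counit_ge (i : Fin 3) : counit (R := k) (ge l i) = ![0, 1, 1] i := liftE_ge _ _

noncomputable instance : HopfAlgebra k (E l) :=
  hopf (liftE relsS) _ adjE (by
    rintro _ ⟨i, rfl⟩
    fin_cases i <;>
      simp [Anti, comul_ge, counit_ge, liftE_ge, two0 (k := k), (rels l).g2, (rels l).h2])

variable (l)

noncomputable def iA : A k →ₐc[k] E l :=
  BialgHom.ofAlgHom (liftA (ge l 0) (rels l).x4) (extA (by simp [counit_ge]))
    (extA (by simp [comul_ge]))

lemma iA_x : iA l (xa k) = ge l 0 := liftA_x _ (rels l).x4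

noncomputable def jm : Γ →* E l where
  toFun γ := ge l 1 ^ γ.toAdd.1.val * ge l 2 ^ γ.toAdd.2.val
  map_one' := by simp
  map_mul' a b := by
    have c : Commute (ge l 1) (ge l 2) := (rels l).gh
    have h1 : ge l 1 ^ 2 = 1 := by rw [sq, (rels l).g2]
    have h2 : ge l 2 ^ 2 = 1 := by rw [sq, (rels l).h2]
    simp only [toAdd_mul, Prod.fst_add, Prod.snd_add, ZMod.val_add, ← pow_eq_pow_mod _ h1,
      ← pow_eq_pow_mod _ h2, pow_add]
    exact ((c.pow_pow _ _).mul_mul_mul_comm _ _)

lemma gl (i : Fin 3) (hi : i ≠ 0) : IsGroupLikeElem k (ge l i) := by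
  fin_cases i
  · exact absurd rfl hi
  · exact ⟨counit_ge _, comul_ge _⟩
  · exact ⟨counit_ge _, comul_ge _⟩

lemma gl_jm (γ : Γ) : IsGroupLikeElem k (jm l γ) :=
  ((gl l 1 (by decide)).pow).mul (gl l 2 (by decide)).pow

noncomputable def jH : MonoidAlgebra k Γ →ₐc[k] E l :=
  BialgHom.ofAlgHom (MonoidAlgebra.lift k (E l) Γ (jm l))
    (by ext γ; simp [(gl_jm l γ).1])
    (by ext γ; simp [(gl_jm l γ).2])

lemma jH_1 : jH l (MonoidAlgebra.single γ1 1) = ge l 1 := by
  change MonoidAlgebra.lift k (E l) Γ (jm l) _ = _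
  simp [jm, ZMod.val_one]

lemma jH_2 : jH l (MonoidAlgebra.single γ2 1) = ge l 2 := by
  change MonoidAlgebra.lift k (E l) Γ (jm l) _ = _
  simp [jm, ZMod.val_one]

noncomputable def mu : A k ⊗[k] MonoidAlgebra k Γ →ₗ[k] E l :=
  TensorProduct.lift (((LinearMap.mul k (E l)).comp (iA l).toLinearMap).compl₂ (jH l).toLinearMap)

lemma mu_tmul (a : A k) (b : MonoidAlgebra k Γ) : mu l (a ⊗ₜ b) = iA l a * jH l b := rfl

variable {l}

lemma comm_i {g : E l} {c : k} (h : g * ge l 0 = (ge l 0 + c • ge l 0 ^ 2) * g) (a : A k) :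
    g * iA l a = iA l (sg c a) * g := by
  induction a using indA with
  | h0 d n =>
    rw [map_smul, map_smul, map_smul, mul_smul_comm, smul_mul_assoc]
    congr 1
    induction n with
    | zero => simp
    | succ n ih =>
      rw [pow_succ, map_mul, ← mul_assoc, ih, mul_assoc, iA_x, h, map_mul, map_mul, sg_x, map_add,
        map_smul, map_pow (iA l) (xa k) 2, iA_x, mul_assoc]
  | h1 a b ha hb => simp only [map_add, mul_add, add_mul, ha, hb]

lemma mu_surj : Function.Surjective (mu l) := by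
  have : ∀ e : E l, ∀ t, e * mu l t ∈ LinearMap.range (mu l) := fun e => by
    have he : e ∈ Algebra.adjoin k (Set.range (ge l)) := by rw [adjE]; trivial
    induction he using Algebra.adjoin_induction with
    | mem x hx =>
      obtain ⟨i, rfl⟩ := hx
      intro t
      induction t with
      | zero => simp
      | add s t hs ht => rw [map_add, mul_add]; exact add_mem hs ht
      | tmul a b =>
        fin_cases i
        · exact ⟨(xa k * a) ⊗ₜ b, by simp [mu_tmul, iA_x, mul_assoc]⟩
        · exact ⟨sg 1 a ⊗ₜ (MonoidAlgebra.single γ1 1 * b), by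
            simp [mu_tmul, jH_1, ← mul_assoc, comm_i (rels l).gx]⟩
        · exact ⟨sg l a ⊗ₜ (MonoidAlgebra.single γ2 1 * b), by
            simp [mu_tmul, jH_2, ← mul_assoc, comm_i (rels l).hx]⟩
    | algebraMap r => exact fun t => ⟨r • t, by rw [map_smul, Algebra.smul_def]⟩
    | add x y _ _ h1 h2 => exact fun t => by rw [add_mul]; exact add_mem (h1 t) (h2 t)
    | mul x y _ _ h1 h2 =>
      intro t
      obtain ⟨s, hs⟩ := h2 t
      rw [mul_assoc, ← hs]; exact h1 s
  intro e
  simpa [mu_tmul] using this e (1 ⊗ₜ 1)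

noncomputable def tw (c : k) (γ : Γ) : Module.End k (A k ⊗[k] MonoidAlgebra k Γ) :=
  TensorProduct.map (sg c).toLinearMap (LinearMap.mul k _ (MonoidAlgebra.single γ 1))

lemma tw_tmul (c : k) (γ : Γ) (a : A k) (b : MonoidAlgebra k Γ) :
    tw c γ (a ⊗ₜ b) = sg c a ⊗ₜ (MonoidAlgebra.single γ 1 * b) := rfl

noncomputable def LA : A k →ₐ[k] Module.End k (A k ⊗[k] MonoidAlgebra k Γ) :=
  (Algebra.lmul k _).comp Algebra.TensorProduct.includeLeft

omit [CharP k 2] in
lemma LA_tmul (a' a : A k) (b : MonoidAlgebra k Γ) : LA a' (a ⊗ₜ b) = (a' * a) ⊗ₜ b := by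
  simp [LA]

lemma tw_rel (c : k) (γ : Γ) :
    tw c γ * LA (xa k) = (LA (xa k) + c • LA (xa k) ^ 2) * tw c γ := by
  rw [← map_pow, ← map_smul, ← map_add]
  refine TensorProduct.ext' fun a b => ?_
  simp only [Module.End.mul_apply, LA_tmul, tw_tmul, map_mul, sg_x]

lemma tw_sq (c : k) (γ : Γ) (h : γ * γ = 1) : tw c γ * tw c γ = 1 := by
  refine TensorProduct.ext' fun a b => ?_
  simp only [Module.End.mul_apply, tw_tmul, sg_sg, two0 (k := k), sg_zero, ← mul_assoc,
    MonoidAlgebra.single_mul_single, h, mul_one, ← MonoidAlgebra.one_def, one_mul,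
    Module.End.one_apply]

lemma relsR : Rels l (LA (xa k)) (tw 1 γ1) (tw l γ2) :=
  ⟨by rw [← map_pow, xa4, map_zero], tw_sq _ _ (by decide), tw_sq _ _ (by decide),
    TensorProduct.ext' fun a b => by
      simp only [Module.End.mul_apply, tw_tmul, sg_sg, add_comm l, mul_left_comm],
    tw_rel _ _, tw_rel _ _⟩

lemma mu_inj : Function.Injective (mu l) := by
  have h1 : ∀ a, liftE relsR (iA l a) = LA a := fun a => by
    have : (liftE relsR).comp (iA l : A k →ₐ[k] E l) = LA := by
      refine extA (B := Module.End k (A k ⊗[k] MonoidAlgebra k Γ)) ?_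
      change liftE relsR (iA l (xa k)) = _
      rw [iA_x, liftE_ge]; rfl
    exact congr($this a)
  have h2 : ∀ b, liftE relsR (jH l b) (1 ⊗ₜ 1) = 1 ⊗ₜ b := fun b => by
    induction b using MonoidAlgebra.induction_on with
    | of γ =>
      have : ∀ γ : Γ, γ = 1 ∨ γ = γ1 ∨ γ = γ2 ∨ γ = γ1 * γ2 := by decide
      rcases this γ with rfl | rfl | rfl | rfl
      · simp [← MonoidAlgebra.one_def]
      · simp [jH_1, liftE_ge, tw_tmul]
      · simp [jH_2, liftE_ge, tw_tmul]
      · rw [map_mul, map_mul, map_mul]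
        simp [jH_1, jH_2, liftE_ge, tw_tmul, MonoidAlgebra.single_mul_single]
    | add f g hf hg => simp [hf, hg, tmul_add]
    | smul r f hf => simp [hf]
  have h3 : ∀ t, liftE relsR (mu l t) (1 ⊗ₜ 1) = t := fun t => by
    induction t with
    | zero => simp
    | add s t hs ht => simp [hs, ht]
    | tmul a b => simp [mu_tmul, h1, h2, LA_tmul]
  intro s t h
  rw [← h3 s, h, h3]

lemma iA_inj : Function.Injective (iA l) := fun a b h =>
  Algebra.TensorProduct.includeLeft_injective (R := k) (S := k) (B := MonoidAlgebra k Γ)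
    (algebraMap k _).injective (mu_inj (l := l) (by simp [mu_tmul, h]))

lemma jH_inj : Function.Injective (jH l) := fun a b h => by
  have : Nontrivial (A k) := ⟨_, _, xa2⟩
  exact Algebra.TensorProduct.includeRight_injective (R := k) (A := A k)
    (algebraMap k _).injective (mu_inj (l := l) (by simp [mu_tmul, h]))

/-- an isomorphism invariant -/
def Inv (k : Type) [Field k] (B : Type) [Ring B] [Bialgebra k B] : Set k :=
  {c | ∃ g h : B, IsGroupLikeElem k g ∧ IsGroupLikeElem k h ∧ (∃ y, g * y * g - y ≠ 0) ∧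
    ∀ y, h * y * h - y = c • (g * y * g - y)}

omit [CharP k 2] in
lemma Inv_fin (B : Type) [Ring B] [Bialgebra k B] [FiniteDimensional k B] : (Inv k B).Finite := by
  have hf : {a : B | IsGroupLikeElem k a}.Finite :=
    LinearIndependent.set_finite_of_isNoetherian (linearIndepOn_isGroupLikeElem (R := k) (A := B))
  refine ((hf.prod hf).biUnion (t := fun p : B × B => {c : k | (∃ y, p.1 * y * p.1 - y ≠ 0) ∧
    ∀ y, p.2 * y * p.2 - y = c • (p.1 * y * p.1 - y)}) fun p _ => Set.Subsingleton.finite ?_).subset ?_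
  · rintro c ⟨⟨y, hy⟩, hc⟩ d ⟨-, hd⟩
    exact smul_left_injective k hy ((hc y).symm.trans (hd y))
  · rintro c ⟨g, h, h1, h2, h3⟩
    exact Set.mem_biUnion (show (g, h) ∈ _ from ⟨h1, h2⟩) h3

omit [CharP k 2] in
lemma Inv_le {B C : Type} [Ring B] [Bialgebra k B] [Ring C] [Bialgebra k C] (e : B ≃ₐc[k] C) :
    Inv k B ⊆ Inv k C := by
  rintro c ⟨g, h, h1, h2, ⟨y, hy⟩, h3⟩
  refine ⟨e g, e h, h1.map e, h2.map e, ⟨e y, fun hh => hy (EquivLike.injective e ?_)⟩, fun z => ?_⟩
  · simpa using hh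
  · obtain ⟨z, rfl⟩ := EquivLike.surjective e z
    simpa using congrArg e (h3 z)

lemma mem_Inv : l ∈ Inv k (E l) := by
  have key : ∀ {g : E l} {c : k} {γ : Γ}, g * ge l 0 = (ge l 0 + c • ge l 0 ^ 2) * g → g * g = 1 →
      jH l (MonoidAlgebra.single γ 1) = g → ∀ a b, g * mu l (a ⊗ₜ b) * g - mu l (a ⊗ₜ b) =
        iA l (sg c a - a) * jH l b := by
    intro g c γ h1 h2 h3 a b
    have : jH l b * g = g * jH l b := by rw [← h3, ← map_mul, mul_comm, map_mul]
    rw [mu_tmul, mul_assoc, mul_assoc, this, ← mul_assoc g, comm_i h1, mul_assoc, ← mul_assoc g, h2,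
      one_mul, map_sub, sub_mul]
  refine ⟨ge l 1, ge l 2, gl l 1 (by decide), gl l 2 (by decide), ⟨mu l (xa k ⊗ₜ 1), ?_⟩, fun y => ?_⟩
  · rw [key (rels l).gx (rels l).g2 (jH_1 l), sg_x]
    intro h
    exact xa2 (iA_inj (l := l) (by simpa using h))
  · obtain ⟨t, rfl⟩ := mu_surj y
    induction t with
    | zero => simp
    | add s t hs ht =>
      simp only [map_add, mul_add, add_mul, add_sub_add_comm, hs, ht, smul_add]
    | tmul a b =>
      rw [key (rels l).gx (rels l).g2 (jH_1 l), key (rels l).hx (rels l).h2 (jH_2 l), sg_lin,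
        map_smul, smul_mul_assoc]

end

/-- The negation of the preceding statement: For finite-dimensional Hopf algebras A, H over any field, Hopf algebras E that factorize as A·H (injective Hopf maps with a⊗h ↦ a·h bijective) fall into finitely many isomorphism classes: any sequence of them has two isomorphic members. -/
theorem result :
    ¬ (∀ (k : Type) [Field k] (A H : Type) [Ring A] [HopfAlgebra k A] [Ring H] [HopfAlgebra k H],
      FiniteDimensional k A → FiniteDimensional k H →
      ∀ (E : ℕ → Type) [∀ m, Ring (E m)] [∀ m, HopfAlgebra k (E m)],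
        (∀ m, ∃ (i : BialgHom k A (E m)) (j : BialgHom k H (E m)),
            Function.Injective i ∧ Function.Injective j ∧
            Function.Bijective
              (TensorProduct.lift
                (((LinearMap.mul k (E m)).comp i.toLinearMap).compl₂ j.toLinearMap))) →
        ∃ m m' : ℕ, m ≠ m' ∧ Nonempty (BialgEquiv k (E m) (E m'))) := by
  intro H
  let k := AlgebraicClosure (ZMod 2)
  have fd : ∀ l : k, FiniteDimensional k (E l) := fun l => Module.Finite.of_surjective _ mu_surj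
  have hinf : (Set.range fun l : k => Inv k (E l)).Infinite := fun hf =>
    Set.infinite_univ (α := k) ((hf.biUnion (t := id) (by
      rintro _ ⟨l, rfl⟩; exact Inv_fin _)).subset fun l _ => Set.mem_biUnion ⟨l, rfl⟩ mem_Inv)
  let f := hinf.natEmbedding
  choose l hl using fun m => (f m).2
  obtain ⟨m, m', hm, ⟨e⟩⟩ := H k (A k) (MonoidAlgebra k Γ) inferInstance inferInstance
    (fun m => E (l m)) fun m => ⟨iA _, jH _, iA_inj, jH_inj, mu_inj, mu_surj⟩
  exact hm (f.injective (Subtype.ext (by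
    rw [← hl, ← hl]; exact (Inv_le e).antisymm (Inv_le e.symm))))

end Pool.Agent.S02692
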