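import Pool.Statements.S02730
import Pool.Agent.H76.CutK

set_option autoImplicit false
open Pool Pool.MP_b0fe5a_al

namespace Pool.Agent.S02730


/-- The negation of the preceding statement: For every finite group G in which each generator of every cyclic subgroup ⟨x⟩ is conjugate to x or x⁻¹, every Sylow 3-subgroup P has the same property, with conjugacy taken inside P. -/
theorem result :
    ¬ (∀ (G : Type) [Group G] [Finite G],
      (∀ x y : G, Subgroup.zpowers y = Subgroup.zpowers x → IsConj y x ∨ IsConj y x⁻¹) →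
      ∀ P : Sylow 3 G,
        ∀ x y : ↥(P : Subgroup G),
          Subgroup.zpowers y = Subgroup.zpowers x → IsConj y x ∨ IsConj y x⁻¹) := by
  intro h
  obtain ⟨Q, hQ⟩ := Pool.Agent.H76.CutK.P_p.exists_le_sylow
  have hx := hQ Pool.Agent.H76.CutK.x0_mem
  have key := h _ Pool.Agent.H76.CutK.cut Q ⟨_, hx⟩ (⟨_, hx⟩ ^ 7) (by
    apply le_antisymm
    · exact Subgroup.zpowers_le_of_mem (pow_mem (Subgroup.mem_zpowers _) 7)
    · refine Subgroup.zpowers_le_of_mem ?_
      have : (⟨_, hx⟩ : (Q : Subgroup Pool.Agent.H76.CutK.G)) = (⟨_, hx⟩ ^ 7) ^ 31 :=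
        Subtype.ext Pool.Agent.H76.CutK.x0_pow.symm
      conv_rhs => rw [this]
      exact pow_mem (Subgroup.mem_zpowers _) 31)
  rcases key with key | key
  · obtain ⟨g, hg⟩ := isConj_iff.1 key
    rw [mul_inv_eq_iff_eq_mul] at hg
    exact (Pool.Agent.H76.CutK.not_conj g (Pool.Agent.H76.CutK.sylow_le Q hQ g.2)).1
      (congrArg Subtype.val hg)
  · obtain ⟨g, hg⟩ := isConj_iff.1 key
    rw [mul_inv_eq_iff_eq_mul] at hg
    exact (Pool.Agent.H76.CutK.not_conj g (Pool.Agent.H76.CutK.sylow_le Q hQ g.2)).2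
      (congrArg Subtype.val hg)

end Pool.Agent.S02730
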