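import Pool.Statements.S02738
import Pool.Agent.H51.SepZb

set_option autoImplicit false
open Filter
open Pool Pool.MP_b1d060_al

namespace Pool.Agent.S02738
open Pool.Agent.H51.SepZ Pool.Agent.H68.Cay SemidirectProduct

/-- The negation of the preceding statement: For n>3 and G finitely generated with asymptotic dimension at least n, if a coarsely embedded copy of Z^(n-2) coarsely separates the Cayley graph, then G acts on a tree without inversions or fixed vertex with all edge stabilizers virtually Z^(n-2). -/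
theorem result :
    ¬ (∀ (n : ℕ), 3 < n → ∀ (G : Type) [Group G] (S : Finset G),
      Subgroup.closure (S : Set G) = ⊤ →
      ∀ Γ : SimpleGraph G, Γ = SimpleGraph.fromRel (fun g h : G => g⁻¹ * h ∈ S) →
      (¬ ∀ r : ℕ, ∃ (ι : Type) (U : ι → Set G) (D : ℕ),
          (∀ x : G, ∃ i, x ∈ U i) ∧
          (∀ i, ∀ x ∈ U i, ∀ y ∈ U i, Γ.dist x y ≤ D) ∧
          ∀ x : G, {i : ι | ∃ y ∈ U i, Γ.dist x y ≤ r}.encard ≤ (n : ℕ∞)) →
      (∃ f : (Fin (n - 2) → ℤ) → G,
          (∃ ρ : ℕ → ℕ, ∀ a b, Γ.dist (f a) (f b) ≤ ρ (∑ i, |a i - b i|).toNat) ∧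
          (∃ ρ : ℕ → ℕ, Tendsto ρ atTop atTop ∧
              ∀ a b, ρ (∑ i, |a i - b i|).toNat ≤ Γ.dist (f a) (f b)) ∧
          (∃ L : ℕ, ∀ D : ℕ, ∃ x y : G,
              (∀ z, L + D < Γ.dist x (f z)) ∧ (∀ z, L + D < Γ.dist y (f z)) ∧
              ¬ ∃ p : Γ.Walk x y, ∀ v ∈ p.support, ∀ z, L < Γ.dist v (f z))) →
      ∃ (T : Type) (Γt : SimpleGraph T) (ρ : G →* Equiv.Perm T),
        Γt.IsTree ∧
        (∀ g u v, Γt.Adj u v → Γt.Adj (ρ g u) (ρ g v)) ∧
        (∀ g u v, Γt.Adj u v → ¬ (ρ g u = v ∧ ρ g v = u)) ∧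
        (∀ v, ∃ g, ρ g v ≠ v) ∧
        ∀ u v, Γt.Adj u v → ∀ H : Subgroup G, (∀ g, g ∈ H ↔ (ρ g u = u ∧ ρ g v = v)) →
          ∃ K : Subgroup G, K ≤ H ∧ (K.subgroupOf H).index ≠ 0 ∧
            Nonempty (K ≃* Multiplicative (Fin (n - 2) → ℤ))) := by
  intro h
  obtain ⟨B, _, S, hS, _, hB⟩ := exists_burnside
  obtain ⟨γ, g1, g2⟩ := exists_ray hS
  have hG := gens_top hS
  let P : (Fin 4 → ℕ) → FP (Fin 4 → B) := fun u => inr fun i => γ (u i)
  have up : ∀ (u v : Fin 4 → ℕ) (m : ℕ), (∀ i, u i ≤ v i + m ∧ v i ≤ u i + m) →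
      (cay (gens S)).dist (P u) (P v) ≤ 4 * m := fun u v m huv =>
    dist_inr_le hS _ _ m fun i => ray_dist hS g2 _ _ m (huv i).1 (huv i).2
  have lo : ∀ (u v : Fin 4 → ℕ) (i : Fin 4), u i ≤ v i + (cay (gens S)).dist (P u) (P v) ∧
      v i ≤ u i + (cay (gens S)).dist (P u) (P v) := by
    intro u v i
    have a1 := le_dist_inr hS (fun i => γ (u i)) (fun i => γ (v i)) i
    have a2 := le_dist_inr hS (fun i => γ (v i)) (fun i => γ (u i)) i
    rw [SimpleGraph.dist_comm (u := inr _)] at a2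
    simp only [g1] at a1 a2
    exact ⟨a2, a1⟩
  let c : (Fin 2 → ℤ) → Fin 4 → ℕ := fun a =>
    ![(a 0).toNat, (-a 0).toNat, (a 1).toNat, (-a 1).toNat]
  have hex : ∀ u, ex (P u) = 0 := fun u => by simp [ex, P]
  have P0 : P (c 0) = 1 := by
    have : γ 0 = 1 := ((reach hS 1 (γ 0)).dist_eq_zero_iff.1 (g1 0)).symm
    have e : (fun i => γ (c 0 i)) = 1 := by
      funext i
      fin_cases i <;> simp [c, this]
    simp only [P, e, map_one]
  obtain ⟨T, Γt, ρ, ht, -, -, hfix, hst⟩ := h 4 (by norm_num) (FP (Fin 4 → B)) (gens S) hG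
    (cay (gens S)) rfl (by
      intro hc
      obtain ⟨ι, U, D, h1, h2, h3⟩ := hc 4
      choose lab hlab using h1
      refine Pool.Agent.H51.LebN.lebesgue 4 (D + 1) (by omega) (fun u => lab (P u))
        (fun v w hvw i => ?_) (fun v => le_trans (Set.encard_le_encard ?_) (h3 (P v)))
      · have := h2 _ _ (hlab (P v)) _ (by rw [show lab (P v) = lab (P w) from hvw]; exact hlab _)
        have := lo v w i
        omega
      · rintro _ ⟨w, hw, rfl⟩
        exact ⟨P w, hlab _, up v w 1 fun i => by have := hw i; omega⟩)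
    ⟨fun a => P (c a), ⟨fun m => 4 * m, fun a b => up _ _ _ fun i => by
        have e : ∑ i : Fin 2, |a i - b i| = |a 0 - b 0| + |a 1 - b 1| := Fin.sum_univ_two _
        change c a i ≤ c b i + (∑ i : Fin 2, |a i - b i|).toNat ∧
          c b i ≤ c a i + (∑ i : Fin 2, |a i - b i|).toNat
        rw [e]
        have := le_abs_self (a 0 - b 0)
        have := neg_abs_le (a 0 - b 0)
        have := le_abs_self (a 1 - b 1)
        have := neg_abs_le (a 1 - b 1)
        fin_cases i <;> simp [c] <;> omega⟩,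
      ⟨fun m => m / 4, tendsto_atTop_atTop.2 fun b => ⟨4 * b, fun a ha => by omega⟩,
        fun a b => by
        have e : ∑ i : Fin 2, |a i - b i| = |a 0 - b 0| + |a 1 - b 1| := Fin.sum_univ_two _
        change (∑ i : Fin 2, |a i - b i|).toNat / 4 ≤ (cay (gens S)).dist (P (c a)) (P (c b))
        rw [e]
        have a0 := lo (c a) (c b) 0
        have a1 := lo (c a) (c b) 1
        have a2 := lo (c a) (c b) 2
        have a3 := lo (c a) (c b) 3
        simp only [c, Matrix.cons_val] at a0 a1 a2 a3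
        rcases abs_cases (a 0 - b 0) with h1 | h1 <;> rcases abs_cases (a 1 - b 1) with h2 | h2 <;>
          simp only [c] <;> omega⟩,
      0, fun D => ⟨inl (FreeGroup.of 1 ^ (D + 1)), inl (FreeGroup.of 1 ^ (D + 1))⁻¹,
        fun z => by
          have := ex_lip hS (P (c z)) (inl (FreeGroup.of 1 ^ (D + 1)))
          rw [hex, SimpleGraph.dist_comm, ex_pow] at this
          change 0 + D < (cay (gens S)).dist _ (P (c z))
          omega,
        fun z => by
          have := ex_lip hS (inl (FreeGroup.of 1 ^ (D + 1))⁻¹) (P (c z))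
          rw [hex, ex_pow_inv] at this
          change 0 + D < (cay (gens S)).dist _ (P (c z))
          omega,
        by
          rintro ⟨p, hp⟩
          have := side_walk p fun v hv hv1 => by
            have : 0 < (cay (gens S)).dist v (P (c 0)) := hp v hv 0
            rw [hv1, P0] at this
            simp at this
          exact side_pow_inv D (this.1 (side_pow D))⟩⟩
  obtain ⟨v⟩ := ht.isConnected.nonempty
  obtain ⟨g, hg⟩ := hfix v
  obtain ⟨p⟩ := ht.isConnected.preconnected (ρ g v) v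
  have hw : Γt.Adj (ρ g v) p.snd := p.adj_snd (SimpleGraph.Walk.not_nil_of_ne hg)
  set w := p.snd
  obtain ⟨K, -, -, ⟨e⟩⟩ := hst _ _ hw
    ((MulAction.stabilizer (Equiv.Perm T) (ρ g v) ⊓ MulAction.stabilizer (Equiv.Perm T) w).comap ρ)
    fun _ => Iff.rfl
  exact no_Z2 (A := Fin 4 → B) (fun a => IsOfFinOrder.pi (x := a) fun i => hB (a i))
    (K.subtype.comp e.symm.toMonoidHom)
    (K.subtype_injective.comp e.symm.injective)

end Pool.Agent.S02738
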