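import Pool.Statements.S02743
import Pool.Agent.H68.Sat10

set_option autoImplicit false
open Pool Pool.MP_b21f3c_al

namespace Pool.Agent.S02743

theorem result :
    ∀ (U : (G : Type) → [Group G] → Prop),
      (∀ (G : Type) [Group G], U G ↔
        ∃ (n : ℕ) (s : Fin (n + 1) → Subgroup G), s 0 = ⊥ ∧ s (Fin.last n) = ⊤ ∧
          (∀ i, (s i).Normal) ∧
          ∀ i : Fin n, s i.castSucc ≤ s i.succ ∧
            ∃ g ∈ s i.succ, ∀ x ∈ s i.succ, ∃ k : ℤ, x * (g ^ k)⁻¹ ∈ s i.castSucc) →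
      ∀ (Mem : ((G : Type) → [Group G] → Prop) → Prop),
        (∀ H : (G : Type) → [Group G] → Prop, Mem H ↔
          ((∀ (G G' : Type) [Group G] [Group G'], Finite G → Nonempty (G ≃* G') → H G → H G') ∧
           (∀ (G : Type) [Group G] [Finite G] (N : Subgroup G) [N.Normal], H G → H (G ⧸ N)) ∧
           (∀ (G : Type) [Group G] [Finite G] (N₁ N₂ : Subgroup G) [N₁.Normal] [N₂.Normal],
              N₁ ⊓ N₂ = ⊥ → H (G ⧸ N₁) → H (G ⧸ N₂) → H G) ∧
           (∀ (G : Type) [Group G] [Finite G] (K : Subgroup G), H G → H ↥K) ∧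
           (∀ (G : Type) [Group G] [Finite G], H (G ⧸ frattini G) → H G) ∧
           (∀ (G : Type) [Group G] [Finite G], U G → H G) ∧
           (∀ (G : Type) [Group G] [Finite G], H G → ∀ A B : Subgroup G, A.Normal → B.Normal →
              U ↥A → U ↥B → U ↥(A ⊔ B)))) →
        ∃ H : (G : Type) → [Group G] → Prop, Mem H ∧
          ∀ H' : (G : Type) → [Group G] → Prop, Mem H' →
            ∀ (G : Type) [Group G] [Finite G], H' G → H G := by
  open Pool.Agent.H68.Sat in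
  intro U hU Mem hM
  have u : ∀ (G : Type) [Group G], U G ↔ SS G := fun G _ => (hU G).trans ss_iff.symm
  refine ⟨H0, (hM _).2 ⟨fun G G' _ _ _ ⟨e⟩ h => h.surj e.toMonoidHom e.surjective,
    fun G _ _ N _ h => h.surj _ (mk_surj N), fun G _ _ N L _ _ e => H0.pair _ _ fun g a b =>
      Subgroup.mem_bot.1 (e.le ⟨mk_one.1 a, mk_one.1 b⟩), fun G _ _ K h => h.sub K, H0.st,
    fun G _ _ h => ((u G).1 h).h0, fun G _ _ h A B _ _ a b => (u _).2 ?_⟩, fun H hH G _ _ h => ?_⟩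
  · refine (h.sub (A ⊔ B)).rad (A.subgroupOf _) (B.subgroupOf _)
      (((u _).1 a).surj (Subgroup.subgroupOfEquivOfLe le_sup_left).symm.toMonoidHom
        (MulEquiv.surjective _))
      (((u _).1 b).surj (Subgroup.subgroupOfEquivOfLe le_sup_right).symm.toMonoidHom
        (MulEquiv.surjective _)) ?_
    rw [← Subgroup.subgroupOf_sup le_sup_left le_sup_right, Subgroup.subgroupOf_self]
  obtain ⟨h1, h2, h3, h4, h5, h6, h7⟩ := (hM H).1 hH
  refine h0_max (F := fun G _ => Finite G ∧ H G) ⟨⟨fun _ _ h => h.1,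
    fun G K _ _ ⟨e⟩ ⟨f, h⟩ => ⟨Finite.of_equiv _ e.toEquiv, h1 _ _ f ⟨e⟩ h⟩,
    fun G _ N _ ⟨_, h⟩ => ⟨inferInstance, h2 G N h⟩,
    fun G _ _ N L _ _ e x y => ⟨inferInstance, h3 G N L e x.2 y.2⟩⟩, inferInstance, h6 _ ((u _).2 ?_)⟩
    (fun G _ _ h => ⟨inferInstance, h5 G h.2⟩) (fun G _ K ⟨_, h⟩ => ⟨inferInstance, h4 G K h⟩)
    (fun G _ ⟨_, h⟩ A B a b x y => (u _).1 (h7 G h A B a b ((u _).2 x) ((u _).2 y)))
    ⟨inferInstance, h⟩
  rw [SS, Subsingleton.elim (⊤ : Subgroup Unit) ⊥]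
  exact Cs.bot

end Pool.Agent.S02743
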