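import Pool.Statements.S02756
-- import your own Pool.Agent.* helpers here

set_option autoImplicit false
open Pool Pool.MP_b29e0e_al

namespace Pool.Agent.S02756

section

variable {R : Type} [Ring R] [Algebra ℂ R]

def Rq (u v : R) : Prop := (4 : ℂ) • (u * v) - v * u - (3 : ℂ) • (1 : R) = 0

def Sx (u v : R) : R := (4 : ℂ) • (u * u * u * v) - (21 : ℂ) • (u * u * v * u)
  + (21 : ℂ) • (u * v * u * u) - (4 : ℂ) • (v * u * u * u)

lemma tdz (x y z : R) (a b : ℂ) (h1 : Rq x y) (h2 : Rq y z) (h3 : Sx x z = 0) :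
    (4 : ℂ) • Sx (a • x + b • y) z
      + (225 * a * b) • ((a • x + b • y) * z - z * (a • x + b • y)) = 0 := by
  unfold Rq at h1 h2
  linear_combination (norm := (simp only [Sx, mul_add, add_mul, mul_sub, sub_mul, mul_assoc, smul_mul_assoc, mul_smul_comm, mul_one, one_mul, mul_zero, zero_mul]; module))
    (a ^ 3 * b ^ 0 * 4 : ℂ) • h3
    + (a ^ 2 * b ^ 1 * (-16) : ℂ) • (h1 * (x * z))
    + (a ^ 2 * b ^ 1 * (-80) : ℂ) • ((x) * h1 * (z))
    + (a ^ 2 * b ^ 1 * (21) : ℂ) • ((x * z) * h1)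
    + (a ^ 2 * b ^ 1 * (84) : ℂ) • (h1 * (z * x))
    + (a ^ 2 * b ^ 1 * (-5) : ℂ) • ((z) * h1 * (x))
    + (a ^ 2 * b ^ 1 * (-4) : ℂ) • ((z * x) * h1)
    + (a ^ 2 * b ^ 1 * (21) : ℂ) • (h2 * (x * x))
    + (a ^ 2 * b ^ 1 * (-105) : ℂ) • ((x) * h2 * (x))
    + (a ^ 2 * b ^ 1 * (84) : ℂ) • ((x * x) * h2)
    + (a ^ 1 * b ^ 2 * (-80) : ℂ) • (h1 * (y * z))
    + (a ^ 1 * b ^ 2 * (-16) : ℂ) • ((y) * h1 * (z))
    + (a ^ 1 * b ^ 2 * (-63) : ℂ) • ((y * z) * h1)
    + (a ^ 1 * b ^ 2 * (84) : ℂ) • (h1 * (z * y))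
    + (a ^ 1 * b ^ 2 * (-4) : ℂ) • ((z) * h1 * (y))
    + (a ^ 1 * b ^ 2 * (16) : ℂ) • ((z * y) * h1)
    + (a ^ 1 * b ^ 2 * (-63) : ℂ) • (h2)
    + (a ^ 1 * b ^ 2 * (84) : ℂ) • (h2 * (x * y))
    + (a ^ 1 * b ^ 2 * (-84) : ℂ) • ((x) * h2 * (y))
    + (a ^ 1 * b ^ 2 * (84) : ℂ) • ((x * y) * h2)
    + (a ^ 1 * b ^ 2 * (-21) : ℂ) • ((y) * h2 * (x))
    + (a ^ 1 * b ^ 2 * (63) : ℂ) • (h1)
    + (a ^ 0 * b ^ 3 * (16) : ℂ) • (h2 * (y * y))
    + (a ^ 0 * b ^ 3 * (-20) : ℂ) • ((y) * h2 * (y))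
    + (a ^ 0 * b ^ 3 * (4) : ℂ) • ((y * y) * h2)

lemma tdw (x y w : R) (a b : ℂ) (h1 : Rq x y) (h2 : Rq w x) (h3 : Sx y w = 0) :
    (4 : ℂ) • Sx (a • x + b • y) w
      + (225 * a * b) • ((a • x + b • y) * w - w * (a • x + b • y)) = 0 := by
  unfold Rq at h1 h2
  linear_combination (norm := (simp only [Sx, mul_add, add_mul, mul_sub, sub_mul, mul_assoc, smul_mul_assoc, mul_smul_comm, mul_one, one_mul, mul_zero, zero_mul]; module))
    (a ^ 3 * b ^ 0 * (-4) : ℂ) • (h2 * (x * x))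
    + (a ^ 3 * b ^ 0 * (20) : ℂ) • ((x) * h2 * (x))
    + (a ^ 3 * b ^ 0 * (-16) : ℂ) • ((x * x) * h2)
    + (a ^ 2 * b ^ 1 * (-16) : ℂ) • (h1 * (x * w))
    + (a ^ 2 * b ^ 1 * (4) : ℂ) • ((x) * h1 * (w))
    + (a ^ 2 * b ^ 1 * (-84) : ℂ) • ((x * w) * h1)
    + (a ^ 2 * b ^ 1 * (63) : ℂ) • (h1 * (w * x))
    + (a ^ 2 * b ^ 1 * (16) : ℂ) • ((w) * h1 * (x))
    + (a ^ 2 * b ^ 1 * (80) : ℂ) • ((w * x) * h1)
    + (a ^ 2 * b ^ 1 * (-84) : ℂ) • (h2 * (x * y))
    + (a ^ 2 * b ^ 1 * (84) : ℂ) • ((x) * h2 * (y))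
    + (a ^ 2 * b ^ 1 * (-84) : ℂ) • ((x * y) * h2)
    + (a ^ 2 * b ^ 1 * (21) : ℂ) • ((y) * h2 * (x))
    + (a ^ 2 * b ^ 1 * (-63) : ℂ) • (h1)
    + (a ^ 2 * b ^ 1 * (63) : ℂ) • (h2)
    + (a ^ 1 * b ^ 2 * (4) : ℂ) • (h1 * (y * w))
    + (a ^ 1 * b ^ 2 * (5) : ℂ) • ((y) * h1 * (w))
    + (a ^ 1 * b ^ 2 * (-84) : ℂ) • ((y * w) * h1)
    + (a ^ 1 * b ^ 2 * (-21) : ℂ) • (h1 * (w * y))
    + (a ^ 1 * b ^ 2 * (80) : ℂ) • ((w) * h1 * (y))
    + (a ^ 1 * b ^ 2 * (16) : ℂ) • ((w * y) * h1)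
    + (a ^ 1 * b ^ 2 * (-84) : ℂ) • (h2 * (y * y))
    + (a ^ 1 * b ^ 2 * (105) : ℂ) • ((y) * h2 * (y))
    + (a ^ 1 * b ^ 2 * (-21) : ℂ) • ((y * y) * h2)
    + (a ^ 0 * b ^ 3 * 4 : ℂ) • h3

lemma td (x y z w A B : R) (a b c a' b' c' : ℂ) (h1 : Rq x y) (h2 : Rq y z) (h4 : Rq w x)
    (h5 : Sx x z = 0) (h6 : Sx y w = 0) (hA : A = a • x + b • y + c • 1)
    (hB : B = a' • z + b' • w + c' • 1) :
    (4 : ℂ) • Sx (A - c • 1) B + (225 * a * b) • (A * B - B * A) = 0 := by
  have e1 := tdz x y z a b h1 h2 h5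
  have e2 := tdw x y w a b h1 h4 h6
  have e : A - c • 1 = a • x + b • y := by rw [hA]; abel
  rw [← e] at e1 e2
  rw [hB]
  generalize A = T at e1 e2
  linear_combination (norm := (simp only [Sx, mul_add, add_mul, mul_sub, sub_mul, mul_assoc, smul_mul_assoc, mul_smul_comm, mul_one, one_mul, mul_zero, zero_mul]; module)) a' • e1 + b' • e2

end

abbrev M : Type := Matrix (Fin 3) (Fin 3) ℂ

def A : M := !![1, 0, 0; 0, 4, 0; 0, 0, 16]
def B : M := !![0, 12, 0; 15, 0, 3; 0, 15, 0]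

lemma core (x y z w : M) (a b c a' b' c' : ℂ) (h1 : Rq x y) (h2 : Rq y z) (h3 : Rq z w)
    (h4 : Rq w x) (h5 : Sx x z = 0) (h6 : Sx y w = 0) (h7 : Sx z x = 0) (h8 : Sx w y = 0)
    (hA : A = a • x + b • y + c • 1) (hB : B = a' • z + b' • w + c' • 1) : False := by
  have e1 := td x y z w A B a b c a' b' c' h1 h2 h4 h5 h6 hA hB
  have e2 := td z w x y B A a' b' c' a b c h3 h4 h2 h7 h8 hB hA
  have gA : A - c • 1 = !![1 - c, 0, 0; 0, 4 - c, 0; 0, 0, 16 - c] := by
    ext i j; fin_cases i <;> fin_cases j <;> simp [A]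
  have gB : B - c' • 1 = !![-c', 12, 0; 15, -c', 3; 0, 15, -c'] := by
    ext i j; fin_cases i <;> fin_cases j <;> simp [B]
  rw [gA] at e1
  rw [gB] at e2
  have f1 := congrFun (congrFun e1 0) 1
  have f2 := congrFun (congrFun e1 1) 2
  have f3 := congrFun (congrFun e2 0) 1
  have f4 := congrFun (congrFun e2 0) 2
  simp [Sx, A, B] at f1 f2 f3 f4
  have hc : c = 0 := by linear_combination (1 / 19440) * f1 - (1 / 19440) * f2
  have hab : a * b = 0 := by rw [hc] at f1; linear_combination (-1 / 8100) * f1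
  have hc' : c' = 0 := by linear_combination (1 / 4860) * f4
  have hk : a' * b' = -16 := by rw [hc'] at f3; linear_combination (1 / 8100) * f3
  subst hc hc'
  have ent : ∀ {u v : M}, Rq u v → ∀ i j, 4 * (u i 0 * v 0 j + u i 1 * v 1 j + u i 2 * v 2 j)
      - (v i 0 * u 0 j + v i 1 * u 1 j + v i 2 * u 2 j) = 3 * (1 : M) i j := fun h i j => by
    have := congrFun (congrFun h i) j
    simp only [Matrix.sub_apply, Matrix.smul_apply, Matrix.mul_apply, Fin.sum_univ_three,
      smul_eq_mul, Matrix.zero_apply] at this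
    linear_combination this
  have ha' : a' ≠ 0 := by rintro rfl; norm_num at hk
  have hb' : b' ≠ 0 := by rintro rfl; norm_num at hk
  have eA : ∀ i j, a * x i j + b * y i j = A i j := fun i j => by simp [hA]
  have eB : ∀ i j, a' * z i j + b' * w i j = B i j := fun i j => by simp [hB]
  rcases mul_eq_zero.1 hab with rfl | rfl
  · have hb : b ≠ 0 := by rintro rfl; simpa [A] using eA 0 0
    have hy : y = !![b⁻¹, 0, 0; 0, 4 * b⁻¹, 0; 0, 0, 16 * b⁻¹] := by
      ext i j
      have := eA i j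
      fin_cases i <;> fin_cases j <;> simp [A, hb] at this ⊢ <;>
        first | exact this | (field_simp; linear_combination this)
    have hbb : b * b⁻¹ = 1 := mul_inv_cancel₀ hb
    have hb0 : b⁻¹ ≠ 0 := inv_ne_zero hb
    generalize b⁻¹ = t at hy hbb hb0
    subst hy
    have z00 := ent h2 0 0
    have z11 := ent h2 1 1
    have z22 := ent h2 2 2
    have z02 := ent h2 0 2
    have z10 := ent h2 1 0
    have z20 := ent h2 2 0
    have z21 := ent h2 2 1
    have x00 := ent h1 0 0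
    have x11 := ent h1 1 1
    have x01 := ent h1 0 1
    have x02 := ent h1 0 2
    have x12 := ent h1 1 2
    simp at z00 z11 z22 z02 z10 z20 z21 x00 x11 x01 x02 x12
    have Z00 : z 0 0 = b := by linear_combination (b / 3) * z00 - z 0 0 * hbb
    have Z11 : z 1 1 = b / 4 := by linear_combination (b / 12) * z11 - z 1 1 * hbb
    have Z22 : z 2 2 = b / 16 := by linear_combination (b / 48) * z22 - z 2 2 * hbb
    have Z02 : z 0 2 = 0 := by linear_combination (-b / 12) * z02 - z 0 2 * hbb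
    have Z10 : z 1 0 = 0 := by linear_combination (b / 15) * z10 - z 1 0 * hbb
    have Z21 : z 2 1 = 0 := by linear_combination (b / 60) * z21 - z 2 1 * hbb
    have X00 : x 0 0 = b := by linear_combination (b / 3) * x00 - x 0 0 * hbb
    have X11 : x 1 1 = b / 4 := by linear_combination (b / 12) * x11 - x 1 1 * hbb
    have X01 : x 0 1 = 0 := by linear_combination (b / 15) * x01 - x 0 1 * hbb
    have X02 : x 0 2 = 0 := by linear_combination (b / 63) * x02 - x 0 2 * hbb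
    have X12 : x 1 2 = 0 := by linear_combination (b / 60) * x12 - x 1 2 * hbb
    have b00 := eB 0 0
    have b11 := eB 1 1
    have b22 := eB 2 2
    have b02 := eB 0 2
    have r01 := ent h3 0 1
    have r12 := ent h3 1 2
    have s00 := ent h4 0 0
    have s11 := ent h4 1 1
    simp [B, Z00, Z11, Z22, Z02, Z10, Z21, X00, X11, X01, X02, X12, hb'] at b00 b11 b22 b02 r01 r12 s00 s11
    have W1 : w 1 1 = w 0 0 / 4 := mul_left_cancel₀ hb' (by linear_combination b11 - b00 / 4)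
    have W2 : w 2 2 = w 0 0 / 16 := mul_left_cancel₀ hb' (by linear_combination b22 - b00 / 16)
    rw [W1] at r01 s11
    rw [W1, W2] at r12
    have W01 : w 0 1 = 0 := mul_left_cancel₀ hb (by linear_combination (4 / 15) * r01)
    have W12 : w 1 2 = 0 := mul_left_cancel₀ hb (by linear_combination (16 / 15) * r12)
    rw [W01, b02] at s00
    rw [W01, W12] at s11
    have : (45 : ℂ) = 0 := by linear_combination s00 - 16 * s11
    norm_num at this
  · have hb : a ≠ 0 := by rintro rfl; simpa [A] using eA 0 0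
    have hy : x = !![a⁻¹, 0, 0; 0, 4 * a⁻¹, 0; 0, 0, 16 * a⁻¹] := by
      ext i j
      have := eA i j
      fin_cases i <;> fin_cases j <;> simp [A, hb] at this ⊢ <;>
        first | exact this | (field_simp; linear_combination this)
    have hbb : a * a⁻¹ = 1 := mul_inv_cancel₀ hb
    generalize a⁻¹ = t at hy hbb
    subst hy
    have y00 := ent h1 0 0
    have y11 := ent h1 1 1
    have y10 := ent h1 1 0
    have y20 := ent h1 2 0
    have y21 := ent h1 2 1
    have w00 := ent h4 0 0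
    have w11 := ent h4 1 1
    have w22 := ent h4 2 2
    have w20 := ent h4 2 0
    have w01 := ent h4 0 1
    have w12 := ent h4 1 2
    simp at y00 y11 y10 y20 y21 w00 w11 w22 w20 w01 w12
    have Y00 : y 0 0 = a := by linear_combination (a / 3) * y00 - y 0 0 * hbb
    have Y11 : y 1 1 = a / 4 := by linear_combination (a / 12) * y11 - y 1 1 * hbb
    have Y10 : y 1 0 = 0 := by linear_combination (a / 15) * y10 - y 1 0 * hbb
    have Y20 : y 2 0 = 0 := by linear_combination (a / 63) * y20 - y 2 0 * hbb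
    have Y21 : y 2 1 = 0 := by linear_combination (a / 60) * y21 - y 2 1 * hbb
    have W00 : w 0 0 = a := by linear_combination (a / 3) * w00 - w 0 0 * hbb
    have W11 : w 1 1 = a / 4 := by linear_combination (a / 12) * w11 - w 1 1 * hbb
    have W22 : w 2 2 = a / 16 := by linear_combination (a / 48) * w22 - w 2 2 * hbb
    have W20 : w 2 0 = 0 := by linear_combination (-a / 12) * w20 - w 2 0 * hbb
    have W01 : w 0 1 = 0 := by linear_combination (a / 15) * w01 - w 0 1 * hbb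
    have W12 : w 1 2 = 0 := by linear_combination (a / 60) * w12 - w 1 2 * hbb
    have b00 := eB 0 0
    have b11 := eB 1 1
    have b22 := eB 2 2
    have b20 := eB 2 0
    have r10 := ent h3 1 0
    have r21 := ent h3 2 1
    have s00 := ent h2 0 0
    have s11 := ent h2 1 1
    simp [B, Y00, Y11, Y10, Y20, Y21, W00, W11, W22, W20, W01, W12, ha'] at b00 b11 b22 b20 r10 r21 s00 s11
    have Z1 : z 1 1 = z 0 0 / 4 := mul_left_cancel₀ ha' (by linear_combination b11 - b00 / 4)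
    have Z2 : z 2 2 = z 0 0 / 16 := mul_left_cancel₀ ha' (by linear_combination b22 - b00 / 16)
    rw [Z1] at r10 s11
    rw [Z1, Z2] at r21
    have Z10 : z 1 0 = 0 := mul_left_cancel₀ hb (by linear_combination (4 / 15) * r10)
    have Z21 : z 2 1 = 0 := mul_left_cancel₀ hb (by linear_combination (16 / 15) * r21)
    rw [Z10, b20] at s00
    rw [Z10, Z21] at s11
    have : (45 : ℂ) = 0 := by linear_combination s00 - 16 * s11
    norm_num at this

lemma tri (S T : Module.End ℂ (Fin 3 → ℂ)) (v : Module.Basis (Fin 3) ℂ (Fin 3 → ℂ)) (θ : Fin 3 → ℂ)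
    (hθ : Function.Injective θ) (h : ∀ i, S (v i) = θ i • v i)
    (h0 : ∃ a b : ℂ, T (v 0) = a • v 0 + b • v 1) (h2 : ∃ a b : ℂ, T (v 2) = a • v 1 + b • v 2) :
    ∃ d : ℕ, ∃ θ : Fin (d + 1) → ℂ, Function.Injective θ ∧
        (∀ i, Module.End.eigenspace S (θ i) ≠ ⊥) ∧
        (⨆ i, Module.End.eigenspace S (θ i)) = ⊤ ∧
        ∀ i : Fin (d + 1), Submodule.map T (Module.End.eigenspace S (θ i)) ≤
          ⨆ (j : Fin (d + 1)) (_ : (j : ℕ) ≤ (i : ℕ) + 1 ∧ (i : ℕ) ≤ (j : ℕ) + 1),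
            Module.End.eigenspace S (θ j) := by
  have m : ∀ i, v i ∈ Module.End.eigenspace S (θ i) := fun i => Module.End.mem_eigenspace_iff.2 (h i)
  have top : (⨆ i, Module.End.eigenspace S (θ i)) = ⊤ := by
    rw [eq_top_iff, ← v.span_eq, Submodule.span_le]
    rintro _ ⟨i, rfl⟩
    exact Submodule.mem_iSup_of_mem i (m i)
  have sp : ∀ i, ∀ x ∈ Module.End.eigenspace S (θ i), x = v.repr x i • v i := fun i x hx => by
    have hx := Module.End.mem_eigenspace_iff.1 hx
    have : ∀ j, θ j * v.repr x j = θ i * v.repr x j := fun j => by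
      have e := congrArg (fun y => v.repr y j) hx
      rw [← v.sum_repr x] at e
      simp only [map_sum, map_smul, h, Module.Basis.repr_self, Finsupp.coe_finsetSum,
        Finset.sum_apply, Finsupp.coe_smul, Pi.smul_apply, Finsupp.single_apply, smul_eq_mul,
        mul_ite, mul_one, mul_zero, Finset.sum_ite_eq', Finset.mem_univ, if_true] at e
      rw [← e, mul_comm]
    refine v.repr.injective (Finsupp.ext fun j => ?_)
    by_cases e : i = j
    · subst e; simp
    · have h1 : v.repr x j = 0 := by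
        by_contra hh
        exact e (hθ (mul_right_cancel₀ hh (this j))).symm
      simp [h1, e]
  refine ⟨2, θ, hθ, fun i hi => v.ne_zero i (by have := m i; rwa [hi] at this), top, fun i => ?_⟩
  have mm : ∀ j : Fin 3, ((j : ℕ) ≤ (i : ℕ) + 1 ∧ (i : ℕ) ≤ (j : ℕ) + 1) → v j ∈
      ⨆ (j : Fin 3) (_ : (j : ℕ) ≤ (i : ℕ) + 1 ∧ (i : ℕ) ≤ (j : ℕ) + 1),
        Module.End.eigenspace S (θ j) := fun j hj =>
    Submodule.mem_iSup_of_mem j (Submodule.mem_iSup_of_mem hj (m j))
  rintro _ ⟨x, hx, rfl⟩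
  rw [sp i x hx, map_smul]
  refine Submodule.smul_mem _ _ ?_
  fin_cases i
  · obtain ⟨a, b, e⟩ := h0
    exact e ▸ add_mem (Submodule.smul_mem _ _ (mm 0 (by decide)))
      (Submodule.smul_mem _ _ (mm 1 (by decide)))
  · rw [← v.sum_repr (T _)]
    exact Submodule.sum_mem _ fun j _ => Submodule.smul_mem _ _ (mm j (by revert j; decide))
  · obtain ⟨a, b, e⟩ := h2
    exact e ▸ add_mem (Submodule.smul_mem _ _ (mm 1 (by decide)))
      (Submodule.smul_mem _ _ (mm 2 (by decide)))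

noncomputable def bs : Module.Basis (Fin 3) ℂ (Fin 3 → ℂ) :=
  basisOfLinearIndependentOfCardEqFinrank (b := ![![4, -5, 5], ![1, 0, -5], ![4, 5, 5]])
    (Fintype.linearIndependent_iff.2 fun g hg i => by
      have h0 := congrFun hg 0
      have h1 := congrFun hg 1
      have h2 := congrFun hg 2
      simp [Fin.sum_univ_three] at h0 h1 h2
      fin_cases i
      · change g 0 = 0
        linear_combination (1 / 10) * h0 - (1 / 10) * h1 + (1 / 50) * h2
      · change g 1 = 0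
        linear_combination (1 / 5) * h0 - (4 / 25) * h2
      · change g 2 = 0
        linear_combination (1 / 10) * h0 + (1 / 10) * h1 + (1 / 50) * h2) (by simp)

lemma irr (W : Submodule ℂ (Fin 3 → ℂ)) (hA : ∀ v ∈ W, Matrix.toLin' A v ∈ W)
    (hB : ∀ v ∈ W, Matrix.toLin' B v ∈ W) : W = ⊥ ∨ W = ⊤ := by
  have eA : ∀ v : Fin 3 → ℂ, Matrix.toLin' A v = ![v 0, 4 * v 1, 16 * v 2] := fun v => by
    ext j; fin_cases j <;> simp [A, Matrix.mulVec, dotProduct, Fin.sum_univ_three]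
  have pr : ∀ v ∈ W, ∀ i, v i • (Pi.single i 1 : Fin 3 → ℂ) ∈ W := fun v hv i => by
    have h1 := hA v hv
    have h2 := hA _ h1
    have : ∀ a b c : ℂ, a • Matrix.toLin' A (Matrix.toLin' A v) + b • Matrix.toLin' A v + c • v ∈ W :=
      fun a b c => add_mem (add_mem (W.smul_mem a h2) (W.smul_mem b h1)) (W.smul_mem c hv)
    fin_cases i
    · convert this (1 / 45) (-20 / 45) (64 / 45) using 1
      rw [eA, eA]; ext j; fin_cases j <;> simp <;> ring
    · convert this (-1 / 36) (17 / 36) (-16 / 36) using 1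
      rw [eA, eA]; ext j; fin_cases j <;> simp <;> ring
    · convert this (1 / 180) (-5 / 180) (4 / 180) using 1
      rw [eA, eA]; ext j; fin_cases j <;> simp <;> ring
  have st : ∀ i j, B j i ≠ 0 → (Pi.single i 1 : Fin 3 → ℂ) ∈ W → (Pi.single j 1 : Fin 3 → ℂ) ∈ W :=
    fun i j h hi => (W.smul_mem_iff h).1 (by simpa using pr _ (hB _ hi) j)
  rw [or_iff_not_imp_left]
  intro h
  obtain ⟨v, hv, h0⟩ := Submodule.exists_mem_ne_zero_of_ne_bot h
  obtain ⟨i, hi⟩ := Function.ne_iff.1 h0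
  have h1 : (Pi.single i 1 : Fin 3 → ℂ) ∈ W := (W.smul_mem_iff hi).1 (pr v hv i)
  have h2 : (Pi.single 1 1 : Fin 3 → ℂ) ∈ W := by
    fin_cases i
    · exact st 0 1 (by simp [B]) h1
    · exact h1
    · exact st 2 1 (by simp [B]) h1
  have h3 : ∀ j, (Pi.single j 1 : Fin 3 → ℂ) ∈ W := fun j => by
    fin_cases j
    · exact st 1 0 (by simp [B]) h2
    · exact h2
    · exact st 1 2 (by simp [B]) h2
  rw [eq_top_iff]
  intro x _
  rw [pi_eq_sum_univ' x]
  exact Submodule.sum_mem _ fun j _ => W.smul_mem _ (h3 j)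

/-- The negation of the preceding statement: For any tridiagonal pair A, A* on a finite-dimensional space over an algebraically closed field satisfying the tridiagonal relations with β=q²+q⁻², q not a root of unity, V carries an irreducible q-tetrahedron algebra module with A in span(x01,x12,I), A* in span(x23,x30,I). -/
theorem result :
    ¬ (∀ (K : Type) [Field K] [IsAlgClosed K] (V : Type) [AddCommGroup V] [Module K V]
      [FiniteDimensional K V] (A As : Module.End K V) (q : K),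
      q ≠ 0 → (∀ n : ℕ, 0 < n → q ^ n ≠ 1) →
      Nontrivial V →
      (∃ d : ℕ, ∃ θ : Fin (d + 1) → K, Function.Injective θ ∧
        (∀ i, Module.End.eigenspace A (θ i) ≠ ⊥) ∧
        (⨆ i, Module.End.eigenspace A (θ i)) = ⊤ ∧
        ∀ i : Fin (d + 1), Submodule.map As (Module.End.eigenspace A (θ i)) ≤
          ⨆ (j : Fin (d + 1)) (_ : (j : ℕ) ≤ (i : ℕ) + 1 ∧ (i : ℕ) ≤ (j : ℕ) + 1),
            Module.End.eigenspace A (θ j)) →
      (∃ d : ℕ, ∃ θ : Fin (d + 1) → K, Function.Injective θ ∧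
        (∀ i, Module.End.eigenspace As (θ i) ≠ ⊥) ∧
        (⨆ i, Module.End.eigenspace As (θ i)) = ⊤ ∧
        ∀ i : Fin (d + 1), Submodule.map A (Module.End.eigenspace As (θ i)) ≤
          ⨆ (j : Fin (d + 1)) (_ : (j : ℕ) ≤ (i : ℕ) + 1 ∧ (i : ℕ) ≤ (j : ℕ) + 1),
            Module.End.eigenspace As (θ j)) →
      (∀ W : Submodule K V, (∀ v ∈ W, A v ∈ W) → (∀ v ∈ W, As v ∈ W) → W = ⊥ ∨ W = ⊤) →
      (∃ γ γs ϱ ϱs : K,
        A * (A ^ 2 * As - (q ^ 2 + q⁻¹ ^ 2) • (A * As * A) + As * A ^ 2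
              - γ • (A * As + As * A) - ϱ • As)
          = (A ^ 2 * As - (q ^ 2 + q⁻¹ ^ 2) • (A * As * A) + As * A ^ 2
              - γ • (A * As + As * A) - ϱ • As) * A ∧
        As * (As ^ 2 * A - (q ^ 2 + q⁻¹ ^ 2) • (As * A * As) + A * As ^ 2
              - γs • (A * As + As * A) - ϱs • A)
          = (As ^ 2 * A - (q ^ 2 + q⁻¹ ^ 2) • (As * A * As) + A * As ^ 2
              - γs • (A * As + As * A) - ϱs • A) * As) →
      ∃ X : ZMod 4 → ZMod 4 → Module.End K V,
        (∀ i j : ZMod 4, j - i = 2 → X i j * X j i = 1) ∧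
        (∀ i j k : ZMod 4,
          ((j - i = 1 ∧ k - j = 1) ∨ (j - i = 1 ∧ k - j = 2) ∨ (j - i = 2 ∧ k - j = 1)) →
          q • (X i j * X j k) - q⁻¹ • (X j k * X i j) = (q - q⁻¹) • (1 : Module.End K V)) ∧
        (∀ i j k l : ZMod 4, j - i = 1 → k - j = 1 → l - k = 1 →
          X i j ^ 3 * X k l - (q ^ 2 + 1 + q⁻¹ ^ 2) • (X i j ^ 2 * X k l * X i j)
            + (q ^ 2 + 1 + q⁻¹ ^ 2) • (X i j * X k l * X i j ^ 2) - X k l * X i j ^ 3 = 0) ∧
        (∀ W : Submodule K V,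
          (∀ i j : ZMod 4, (j - i = 1 ∨ j - i = 2) → ∀ v ∈ W, X i j v ∈ W) →
          W = ⊥ ∨ W = ⊤) ∧
        (∃ a b c : K, A = a • X 0 1 + b • X 1 2 + c • (1 : Module.End K V)) ∧
        (∃ a b c : K, As = a • X 2 3 + b • X 3 0 + c • (1 : Module.End K V))) := by
  intro H
  let e := Matrix.toLinAlgEquiv' (R := ℂ) (n := Fin 3)
  obtain ⟨X, -, h2, h3, -, ⟨a, b, c, hA⟩, ⟨a', b', c', hB⟩⟩ := H ℂ (Fin 3 → ℂ) (e A) (e B) 2
    two_ne_zero (fun n hn h => by
      have : (2 : ℕ) ^ n = 1 := by exact_mod_cast h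
      have := Nat.one_lt_two_pow hn.ne'
      omega) inferInstance
    (tri _ _ (Pi.basisFun ℂ (Fin 3)) ![1, 4, 16]
      (by intro i j; fin_cases i <;> fin_cases j <;> simp <;> norm_num)
      (fun i => by ext j; fin_cases i <;> fin_cases j <;> simp [e, A, Matrix.toLinAlgEquiv'_apply])
      ⟨0, 15, by ext j; fin_cases j <;> simp [e, B, Matrix.toLinAlgEquiv'_apply]⟩
      ⟨3, 0, by ext j; fin_cases j <;> simp [e, B, Matrix.toLinAlgEquiv'_apply]⟩)
    (tri _ _ bs ![-15, 0, 15]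
      (by intro i j; fin_cases i <;> fin_cases j <;> simp <;> norm_num)
      (fun i => by
        ext j
        fin_cases i <;> fin_cases j <;> simp [e, B, bs, Matrix.toLinAlgEquiv'_apply] <;> norm_num)
      ⟨4, -12, by ext j; fin_cases j <;> simp [e, A, bs, Matrix.toLinAlgEquiv'_apply] <;> norm_num⟩
      ⟨-12, 4, by ext j; fin_cases j <;> simp [e, A, bs, Matrix.toLinAlgEquiv'_apply] <;> norm_num⟩)
    irr
    ⟨0, 0, 0, 225, by
      simp only [← map_mul, ← map_pow, ← map_smul, ← map_add, ← map_sub]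
      congr 1
      ext i j; fin_cases i <;> fin_cases j <;> simp [A, B, sq] <;> norm_num, by
      simp only [← map_mul, ← map_pow, ← map_smul, ← map_add, ← map_sub]
      congr 1
      ext i j; fin_cases i <;> fin_cases j <;> simp [A, B, sq] <;> norm_num⟩
  have r : ∀ i j k : ZMod 4, j - i = 1 → k - j = 1 → Rq (e.symm (X i j)) (e.symm (X j k)) :=
    fun i j k h1 h2' => by
      have := congrArg e.symm (h2 i j k (Or.inl ⟨h1, h2'⟩))
      simp only [map_sub, map_smul, map_mul, map_one] at this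
      unfold Rq
      linear_combination (norm := module) (2 : ℂ) • this
  have s : ∀ i j k l : ZMod 4, j - i = 1 → k - j = 1 → l - k = 1 →
      Sx (e.symm (X i j)) (e.symm (X k l)) = 0 := fun i j k l h1 h2' h3' => by
    have := congrArg e.symm (h3 i j k l h1 h2' h3')
    simp only [map_sub, map_smul, map_mul, map_add, map_zero, pow_succ, pow_zero, one_mul] at this
    simp only [Sx, mul_assoc] at this ⊢
    linear_combination (norm := module) (4 : ℂ) • this
  exact core _ _ _ _ a b c a' b' c' (r 0 1 2 (by decide) (by decide)) (r 1 2 3 (by decide) (by decide))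
    (r 2 3 0 (by decide) (by decide)) (r 3 0 1 (by decide) (by decide))
    (s 0 1 2 3 (by decide) (by decide) (by decide)) (s 1 2 3 0 (by decide) (by decide) (by decide))
    (s 2 3 0 1 (by decide) (by decide) (by decide)) (s 3 0 1 2 (by decide) (by decide) (by decide))
    (by simpa using congrArg e.symm hA) (by simpa using congrArg e.symm hB)

end Pool.Agent.S02756
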