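import Pool.Statements.S02793
import Pool.Agent.H69.Ore3

set_option autoImplicit false
open Pool Pool.MP_b57530_al

namespace Pool.Agent.S02793

open Pool.Agent.H69.Ore Pool.Agent.H69.Pet

/-- There is a group G and a finite set A in G such that every element of G is s⁻¹t with s,t in the semigroup S generated by A, S has non-exponential growth, and G has exponential growth. -/
theorem result :
    ∃ (G : Type) (_ : Group G) (A : Finset G),
      (∀ g : G, ∃ s ∈ Subsemigroup.closure (A : Set G),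
          ∃ t ∈ Subsemigroup.closure (A : Set G), g = s⁻¹ * t) ∧
      (∀ c : ℝ, 1 < c → ∃ N : ℕ, ∀ n ≥ N,
        (({g : G | ∃ l : List G, (∀ x ∈ l, x ∈ A) ∧ l.length ≤ n ∧ l.prod = g}.ncard : ℝ)
          ≤ c ^ n)) ∧
      (∃ c : ℝ, 1 < c ∧ ∀ n : ℕ,
        c ^ n ≤ (({g : G | ∃ l : List G, (∀ x ∈ l, x ∈ A ∨ x⁻¹ ∈ A) ∧ l.length ≤ n ∧
          l.prod = g}.ncard : ℝ))) := by
  classical
  let s : Set (P 0) := lt 0 '' {l | l ∈ gens}
  have sf : s.Finite := (List.finite_toSet _).image _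
  let G := Subgroup.closure s
  let S : Finset G := (sf.preimage Subtype.val_injective.injOn).toFinset
  have hS : ∀ x : G, x ∈ S ↔ ∃ l ∈ gens, lt 0 l = x.1 := fun x => by simp [S, s]
  let e : ∀ l, l ∈ gens → G := fun l h => ⟨lt 0 l, Subgroup.subset_closure ⟨l, h, rfl⟩⟩
  have he : ∀ l h, e l h ∈ S := fun l h => (hS _).2 ⟨l, h, rfl⟩
  have h2 : ∀ c : ℝ, 1 < c → ∃ N : ℕ, ∀ n ≥ N, ((PB S n).ncard : ℝ) ≤ c ^ n := by
    intro c hc
    obtain ⟨N, hN⟩ := count c hc
    refine ⟨N, fun n hn => ?_⟩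
    have := hN n hn ((PB_fin S n).toFinset.image Subtype.val) (by
      intro x hx
      obtain ⟨y, hy, rfl⟩ := Finset.mem_image.1 hx
      obtain ⟨l, h1, h2, rfl⟩ := (Set.Finite.mem_toFinset _).1 hy
      choose! f f1 f2 using fun x hx => (hS x).1 (h1 x hx)
      refine ⟨l.map f, List.forall_mem_map.2 f1, by simpa using h2, ?_⟩
      rw [H69.Ore.ev, List.map_map, Subgroup.val_list_prod]
      exact congrArg List.prod (List.map_congr_left f2))
    rwa [Finset.card_image_of_injective _ Subtype.val_injective, ← Set.ncard_eq_toFinset_card _ (PB_fin S n)] at this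
  refine ⟨G, inferInstance, S, quot S h2 (by
    rw [Set.Finite.coe_toFinset]; exact Subgroup.closure_closure_coe_preimage) _
    (he (.inl 0) (by simp [gens])), h2, (2 : ℝ) ^ (1 / 8 : ℝ),
    Real.one_lt_rpow (by norm_num) (by norm_num), fun n => ?_⟩
  let a := e (.inl 0) (by simp [gens])
  let b := e (.inr (1, 0, 0)) (by simp [gens])
  let c := e (.inr (0, 1, 0)) (by simp [gens])
  let d := e (.inr (0, 0, 1)) (by simp [gens])
  let f : List Bool → G := fun l => l.foldr (fun x h => h * (a * b * c⁻¹) * if x then d else 1) 1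
  have a1 : (a * b * c⁻¹).1 = gg := by
    funext N
    show A 0 N 1 * B N 0 _ * (B N 0 _)⁻¹ = A 0 N 1 * B N 0 _
    rw [mul_assoc, mul_left_cancel_iff, mul_inv_eq_iff_eq_mul, ← B_add]
    rfl
  have f1 : ∀ l, (f l).1 = ff l := by
    intro l
    induction l with
    | nil => rfl
    | cons x l ih =>
      show (f l).1 * (a * b * c⁻¹).1 * (if x then d else 1).1 = ff l * gg * _
      rw [ih, a1]
      cases x <;> rfl
  have f2 : ∀ l, f l ∈ Bl S (4 * l.length) := by
    intro l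
    induction l with
    | nil => exact Bl_one _ _
    | cons x l ih =>
      refine Bl_mono S (by simp; omega) (Bl_mul (Bl_mul ih (Bl_mul (Bl_mul (Bl_gen (Or.inl (he _ (by simp [gens]))))
        (Bl_gen (Or.inl (he _ (by simp [gens]))))) (Bl_gen (Or.inr (by rw [inv_inv]; exact he _ (by simp [gens])))))) (?_ : _ ∈ Bl S 1))
      split_ifs
      · exact Bl_gen (Or.inl (he _ (by simp [gens])))
      · exact Bl_one _ _
  have f3 := two_pow_le f (n / 4) _ (Bl_fin S n) (fun l l' h h' e => ff_inj l l' (h.trans h'.symm)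
    (by rw [← f1, e, f1])) (fun l h => Bl_mono S (by omega) (f2 l))
  have f4 : 0 < n → 2 ≤ (Bl S n).ncard := fun hn => by
    refine Nat.succ_le_of_lt ((Set.one_lt_ncard (Bl_fin S n)).2 ⟨d,
      Bl_mono S hn (Bl_gen (Or.inl (he _ (by simp [gens])))), 1,
      Bl_one S n, fun h => ?_⟩)
    exact ((lam 0 0 (0 : ZMod 2)).2 trivial).2 (congrArg (fun z : G => z.1 0 (0 : ZMod 2)) h)
  have f5 : ∃ m, n ≤ 8 * m ∧ 2 ^ m ≤ (Bl S n).ncard := by
    by_cases h : n = 0 ∨ 4 ≤ n
    · exact ⟨n / 4, by omega, f3⟩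
    · exact ⟨1, by omega, f4 (by omega)⟩
  obtain ⟨m, h1, h3⟩ := f5
  have : Bl S n = {g : G | ∃ l : List G, (∀ x ∈ l, x ∈ S ∨ x⁻¹ ∈ S) ∧ l.length ≤ n ∧ l.prod = g} :=
    Set.ext fun g => exists_congr fun l => and_left_comm
  rw [← this]
  refine (pow_le_pow_right₀ (Real.one_le_rpow (by norm_num) (by norm_num)) h1).trans ?_
  rw [pow_mul, show (1 / 8 : ℝ) = ((8 : ℕ) : ℝ)⁻¹ by norm_num,
    Real.rpow_inv_natCast_pow (by norm_num) (by norm_num)]
  exact_mod_cast h3

end Pool.Agent.S02793
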