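import Pool.Statements.S02852
import Pool.Agent.H64.McLain2

set_option autoImplicit false
open Pool Pool.MP_b93de1_al

namespace Pool.Agent.S02852

/-- The negation of the preceding statement: Every infinite group acting faithfully and 2-transitively on a set, whose point stabilizers are locally solvable, has a finite-dimensional irreducible representation over some field on which some element acts nontrivially. -/
theorem result :
    ¬ (∀ (G X : Type) [Group G] [MulAction G X], FaithfulSMul G X → Infinite G →
      MulAction.IsMultiplyPretransitive G X 2 →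
      (∀ x : X, ∀ S : Finset G,
        ((↑S : Set G) ⊆ (MulAction.stabilizer G x : Set G)) →
          IsSolvable (Subgroup.closure (↑S : Set G))) →
      ∃ (K : Type) (_ : Field K) (V : Type) (_ : AddCommGroup V) (_ : Module K V),
        FiniteDimensional K V ∧ ∃ ρ : Representation K G V,
          Nontrivial V ∧
          (∀ W : Submodule K V, (∀ g : G, ∀ v ∈ W, ρ g v ∈ W) → W = ⊥ ∨ W = ⊤) ∧
          ∃ g : G, ρ g ≠ 1) := by
  intro h
  obtain ⟨F, _, W, _, _, _, ρ, -, -, g, hg⟩ := h Pool.Agent.H64.McLain.G Pool.Agent.H64.McLain.K
    inferInstance inferInstance Pool.Agent.H64.McLain.two_trans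
    (fun _ S _ => Pool.Agent.H64.McLain.loc_solv S)
  exact hg (Pool.Agent.H64.McLain.G_rep_trivial ρ g)

end Pool.Agent.S02852
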