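import Pool.Statements.S02856
import Pool.Agent.H67.Latin

set_option autoImplicit false
open Pool Pool.MP_b97972_al

namespace Pool.Agent.S02856

open Pool.Agent.H67.Latin MvPolynomial

noncomputable def Y (s : Fin 8) : MvPolynomial (Fin 16) ℂ := X (lo s) - X (hi s)
noncomputable def lin (c : Fin 8) : MvPolynomial (Fin 16) ℂ :=
  ∑ s, (h c s : MvPolynomial (Fin 16) ℂ) * (X (lo s) + X (hi s))
noncomputable def quad : Fin 2 → MvPolynomial (Fin 16) ℂ := ![qA Y - qB Y, qA Y + qB Y]
noncomputable def P : Fin 8 ⊕ Fin 2 → MvPolynomial (Fin 16) ℂ := Sum.elim lin quad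
/-- the point with `x (lo s) = u s`, `x (hi s) = v s` -/
def pt (u v : Fin 8 → ℂ) : Fin 16 → ℂ := Fin.append u v

theorem pt_lo (u v : Fin 8 → ℂ) (s : Fin 8) : pt u v (lo s) = u s := Fin.append_left u v s
theorem pt_hi (u v : Fin 8 → ℂ) (s : Fin 8) : pt u v (hi s) = v s := Fin.append_right u v s

theorem evY (x : Fin 16 → ℂ) (s : Fin 8) : eval x (Y s) = x (lo s) - x (hi s) := by simp [Y]
theorem evA (x : Fin 16 → ℂ) : eval x (qA Y) = qA fun s => x (lo s) - x (hi s) := by
  simp [qA, evY]
theorem evB (x : Fin 16 → ℂ) : eval x (qB Y) = qB fun s => x (lo s) - x (hi s) := by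
  simp [qB, evY]
theorem evL (x : Fin 16 → ℂ) (c : Fin 8) :
    eval x (lin c) = ∑ s, (h c s : ℂ) * (x (lo s) + x (hi s)) := by simp [lin]

theorem degY (s : Fin 8) : (Y s ^ 2).totalDegree ≤ 2 := by
  refine (totalDegree_pow _ _).trans ?_
  have : (Y s).totalDegree ≤ 1 := (totalDegree_sub _ _).trans (by simp)
  omega
theorem degA : (qA Y).totalDegree ≤ 2 :=
  (totalDegree_add _ _).trans (max_le ((totalDegree_add _ _).trans (max_le
    ((totalDegree_add _ _).trans (max_le (degY _) (degY _))) (degY _))) (degY _))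
theorem degB : (qB Y).totalDegree ≤ 2 :=
  (totalDegree_add _ _).trans (max_le ((totalDegree_add _ _).trans (max_le
    ((totalDegree_add _ _).trans (max_le (degY _) (degY _))) (degY _))) (degY _))

theorem quad_irr (i : Fin 2) : (quad i).totalDegree = 2 ∧ Irreducible (quad i) := by
  fin_cases i
  · refine irr2 _ ((totalDegree_sub _ _).trans (max_le degA degB)) 0 1 2 fun s t u => ?_
    show eval _ (qA Y - qB Y) = _
    rw [map_sub, evA, evB]
    simp [qA, qB, lo, hi, Pi.single_apply, Fin.ext_iff]
  · refine irr2 _ ((totalDegree_add _ _).trans (max_le degA degB)) 0 1 2 fun s t u => ?_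
    show eval _ (qA Y + qB Y) = _
    rw [map_add, evA, evB]
    simp [qA, qB, lo, hi, Pi.single_apply, Fin.ext_iff]

theorem evLh (c d : Fin 8) : eval (pt (fun s => h d s) fun s => h d s) (lin c) =
    if c = d then 16 else 0 := by
  have := congrArg (Int.cast : ℤ → ℂ) (horth c d)
  push_cast at this
  simp only [evL, pt_lo, pt_hi, mul_add, Finset.sum_add_distrib, this]
  split_ifs <;> norm_num

theorem lin_deg (c : Fin 8) : (lin c).totalDegree = 1 := by
  apply le_antisymm
  · refine totalDegree_finsetSum_le fun s _ => (totalDegree_mul _ _).trans ?_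
    have h1 : (h c s : MvPolynomial (Fin 16) ℂ).totalDegree = 0 := by
      rw [← map_intCast (C : ℂ →+* MvPolynomial (Fin 16) ℂ)]; exact totalDegree_C _
    have h2 : (X (lo s) + X (hi s) : MvPolynomial (Fin 16) ℂ).totalDegree ≤ 1 :=
      (totalDegree_add _ _).trans (by simp)
    omega
  · rw [Nat.one_le_iff_ne_zero]
    intro h0
    rw [totalDegree_eq_zero_iff_eq_C] at h0
    have h1 := evLh c c
    have h2 := evL 0 c
    rw [h0] at h1 h2
    simp at h1 h2
    rw [h1] at h2
    norm_num at h2

theorem lin_irr (c : Fin 8) : Irreducible (lin c) := by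
  refine irreducible_of_totalDegree_eq_one (lin_deg c) fun x hx => IsUnit.mk0 x ?_
  rintro rfl
  have : lin c = 0 := by ext d; simpa using hx d
  have h1 := lin_deg c
  simp [this] at h1

noncomputable def w (z : ℂ) : Fin 8 → ℂ := ![1, 0, 0, 0, z, 0, 0, 0]

noncomputable def pts : Fin 8 ⊕ Fin 2 → Fin 16 → ℂ :=
  Sum.elim (fun d => pt (fun s => h d s) fun s => h d s)
    ![pt (w Complex.I) (-w Complex.I), pt (w 1) (-w 1)]

theorem sep (i j : Fin 8 ⊕ Fin 2) : eval (pts j) (P i) = 0 ↔ i ≠ j := by
  rcases i with i | i <;> rcases j with j | j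
  · simp only [pts, P, Sum.elim_inl, evLh]
    by_cases hij : i = j <;> simp [hij]
  · fin_cases j <;> simp [pts, P, evL, pt_lo, pt_hi]
  · fin_cases i <;> simp [pts, P, quad, evY, pt_lo, pt_hi, qA, qB]
  · fin_cases i <;> fin_cases j <;>
      simp [pts, P, quad, evY, pt_lo, pt_hi, qA, qB, w, ← two_mul, mul_pow] <;> norm_num

/-- The negation of the preceding statement: For a nonempty Latin square, if its determinant in commuting symbol variables factors over ℂ into distinct irreducibles, each raised to its own degree, then the square is a group multiplication table up to reordering rows and relabelling symbols. -/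
theorem result :
    ¬ (∀ (n : ℕ), 0 < n → ∀ (L : Fin n → Fin n → Fin n),
    (∀ i, Function.Bijective (L i)) →
    (∀ j, Function.Bijective (fun i => L i j)) →
    (∃ (k : ℕ) (P : Fin k → MvPolynomial (Fin n) ℂ) (c : ℂ), c ≠ 0 ∧
      (∀ j, Irreducible (P j)) ∧
      (∀ i j, i ≠ j → ¬ Associated (P i) (P j)) ∧
      (Matrix.of (fun i j => (MvPolynomial.X (L i j) : MvPolynomial (Fin n) ℂ))).det
        = MvPolynomial.C c * ∏ j, P j ^ (P j).totalDegree) →
    ∃ (G : Type) (_ : Group G) (a : Fin n ≃ G) (b : Fin n ≃ G) (e : G ≃ Fin n),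
      ∀ i j, L i j = e (a i * b j)) := by
  intro H
  obtain ⟨G, _, a, b, e, he⟩ := H 16 (by norm_num) L
    (fun i => Finite.injective_iff_bijective.1 (Lrow i))
    (fun j => Finite.injective_iff_bijective.1 (Lcol j)) (by
      refine ⟨8 + 2, fun i => P (finSumFinEquiv.symm i), 1, one_ne_zero, fun j => ?_,
        fun i j hij hA => ?_, ?_⟩
      · show Irreducible (P (finSumFinEquiv.symm j))
        rcases finSumFinEquiv.symm j with j | j
        · exact lin_irr j
        · exact (quad_irr j).2
      · have h1 := map_dvd (eval (pts (finSumFinEquiv.symm j))) hA.dvd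
        rw [(sep _ _).2 (fun h0 => hij (finSumFinEquiv.symm.injective h0)), zero_dvd_iff,
          sep] at h1
        exact h1 rfl
      · rw [finSumFinEquiv.symm.prod_comp (fun j => P j ^ (P j).totalDegree), map_one, one_mul,
          Fintype.prod_sum_type, det_L]
        · simp only [P, Sum.elim_inl, Sum.elim_inr, lin_deg, (quad_irr _).1, pow_one,
            Fin.prod_univ_two]
          rfl
        · intro h0
          have h1 := evA (pt (w 1) (-w 1))
          have h2 : qA Y = 0 := h0
          rw [h2] at h1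
          simp [pt_lo, pt_hi, qA, w] at h1
          norm_num at h1)
  have q1 : a 0 * b 0 = a 4 * b 4 := e.injective (by rw [← he, ← he]; decide +kernel)
  have q2 : a 0 * b 2 = a 4 * b 6 := e.injective (by rw [← he, ← he]; decide +kernel)
  have q3 : a 1 * b 0 = a 13 * b 4 := e.injective (by rw [← he, ← he]; decide +kernel)
  have q4 : a 1 * b 2 = a 13 * b 6 := by
    calc a 1 * b 2 = (a 1 * b 0) * (a 0 * b 0)⁻¹ * (a 0 * b 2) := by group
      _ = (a 13 * b 4) * (a 4 * b 4)⁻¹ * (a 4 * b 6) := by rw [q1, q2, q3]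
      _ = a 13 * b 6 := by group
  have q5 : L 1 2 = L 13 6 := by rw [he, he, q4]
  exact absurd q5 (by decide +kernel)

end Pool.Agent.S02856
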