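import Pool.Statements.S02863
import Pool.Agent.H79.WilfSyz

set_option autoImplicit false
open Pool Pool.MP_b9977e_al

namespace Pool.Agent.S02863

/-- Take a numerical semigroup with Frobenius number F and minimal generators g_1..g_e. Every homogeneous element of its toric ideal (grading deg x_i = g_i) outside (variables)·ideal has degree at most e·(#{elements below F} − 1) + Σg_i + 1. -/
theorem result :
    ∀ (S : AddSubmonoid ℕ), {n : ℕ | n ∉ S}.Finite →
    ∀ (F : ℕ), F ∉ S → (∀ n : ℕ, F < n → n ∈ S) →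
    ∀ (e : ℕ) (g : Fin e → ℕ), Function.Injective g →
      Set.range g = {x : ℕ | x ∈ S ∧ x ≠ 0 ∧ ∀ a ∈ S, ∀ b ∈ S, a + b = x → a = 0 ∨ b = 0} →
    ∀ (f : MvPolynomial (Fin e) ℚ) (d : ℕ),
      f ∈ RingHom.ker (MvPolynomial.aeval (fun i : Fin e => (Polynomial.X : Polynomial ℚ) ^ g i)) →
      MvPolynomial.IsWeightedHomogeneous (fun i : Fin e => g i) f d →
      f ∉ Ideal.span (Set.range (MvPolynomial.X : Fin e → MvPolynomial (Fin e) ℚ)) *
            RingHom.ker (MvPolynomial.aeval (fun i : Fin e => (Polynomial.X : Polynomial ℚ) ^ g i)) →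
      d ≤ e * (Set.ncard {γ : ℕ | γ ∈ S ∧ γ < F} - 1) + ∑ i, g i + 1 := by
  intro S _ F hFS hF e g hinj hg f d hf hh hn
  classical
  have hat : ∀ i, g i ∈ S ∧ g i ≠ 0 := fun i => by
    have : g i ∈ Set.range g := ⟨i, rfl⟩
    rw [hg] at this
    exact ⟨this.1, this.2.1⟩
  have hfac := H79.WilfSyz.fact_of_atoms S g hg
  rcases Nat.eq_zero_or_pos d with rfl | hd
  · omega
  have : ∃ i j : Fin e, i ≠ j ∧ d ≤ F + g i + g j := by
    by_contra hc
    push Not at hc
    refine hn (H79.WilfSyz.betti_mem g d (by omega) (fun i j hij => ?_) f hf hh)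
    have h1 := hc i j hij
    obtain ⟨c, hc⟩ := hfac (d - g i - g j) (hF _ (by omega))
    exact ⟨c, by omega⟩
  obtain ⟨i, j, hij, hd⟩ := this
  have he : 2 ≤ e := by
    have := Fintype.one_lt_card_iff.2 ⟨i, j, hij⟩
    rw [Fintype.card_fin] at this
    omega
  obtain ⟨i0, -, hi0⟩ := Finset.exists_min_image Finset.univ g ⟨i, Finset.mem_univ _⟩
  have hw := H79.WilfSyz.weak_wilf S F hF hFS he g (fun i => (hat i).1) (fun i => (hat i).2) hfac i0
  have hsum : (e - 2) * g i0 + g j + g i ≤ ∑ l, g l := by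
    rw [← Finset.add_sum_erase _ _ (Finset.mem_univ i),
      ← Finset.add_sum_erase _ _ (Finset.mem_erase.2 ⟨hij.symm, Finset.mem_univ j⟩)]
    have := Finset.card_nsmul_le_sum ((Finset.univ.erase i).erase j) g (g i0)
      (fun l _ => hi0 l (Finset.mem_univ _))
    rw [Finset.card_erase_of_mem (Finset.mem_erase.2 ⟨hij.symm, Finset.mem_univ j⟩),
      Finset.card_erase_of_mem (Finset.mem_univ i), Finset.card_univ, Fintype.card_fin,
      smul_eq_mul, Nat.sub_sub] at this
    have h2 : (e - 2) * g i0 ≤ ∑ x ∈ (Finset.univ.erase i).erase j, g x := this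
    omega
  have hη : 1 ≤ Set.ncard {γ : ℕ | γ ∈ S ∧ γ < F} := by
    have hfin : {γ : ℕ | γ ∈ S ∧ γ < F}.Finite := (Set.finite_Iio F).subset fun _ h => h.2
    refine (Set.ncard_pos hfin).2 ⟨0, S.zero_mem, Nat.pos_of_ne_zero ?_⟩
    rintro rfl
    exact hFS S.zero_mem
  generalize Set.ncard {γ : ℕ | γ ∈ S ∧ γ < F} = η at *
  zify [he, hη] at hsum hd ⊢
  nlinarith

end Pool.Agent.S02863
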