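import Pool.Statements.S02871
import Pool.Agent.H75.CV4

set_option autoImplicit false
open Pool Pool.MP_ba91e3_al

namespace Pool.Agent.S02871

/-- There are C*-algebras A_n and *-homomorphisms A_f, functorial in monoid maps f: ℕ^m→ℕ^n, with natural monoid isomorphisms from the Murray–von Neumann monoid of projections over A_n onto ℕ^n, i.e. V∘Ψ ≅ id on simplicial monoids. -/
theorem result :
  ∃ (A : ℕ → Type) (_ : ∀ n, NonUnitalCStarAlgebra (A n))
    (F : ∀ m n : ℕ, ((Fin m → ℕ) →+ (Fin n → ℕ)) → (A m →⋆ₙₐ[ℂ] A n))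
    (φ : ∀ n k : ℕ, Matrix (Fin k) (Fin k) (A n) → (Fin n → ℕ)),
    (∀ n : ℕ, F n n (AddMonoidHom.id (Fin n → ℕ)) = NonUnitalStarAlgHom.id ℂ (A n)) ∧
    (∀ (m n l : ℕ) (f : (Fin m → ℕ) →+ (Fin n → ℕ)) (g : (Fin n → ℕ) →+ (Fin l → ℕ)),
      F m l (g.comp f) = (F n l g).comp (F m n f)) ∧
    (∀ (n k l : ℕ) (p : Matrix (Fin k) (Fin k) (A n)) (q : Matrix (Fin l) (Fin l) (A n)),
      p * p = p → p.conjTranspose = p → q * q = q → q.conjTranspose = q →
      ((φ n k p = φ n l q ↔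
          ∃ v : Matrix (Fin l) (Fin k) (A n), v.conjTranspose * v = p ∧ v * v.conjTranspose = q) ∧
        φ n (k + l) (Matrix.reindex finSumFinEquiv finSumFinEquiv (Matrix.fromBlocks p 0 0 q))
          = φ n k p + φ n l q)) ∧
    (∀ (n : ℕ) (x : Fin n → ℕ), ∃ (k : ℕ) (p : Matrix (Fin k) (Fin k) (A n)),
      p * p = p ∧ p.conjTranspose = p ∧ φ n k p = x) ∧
    (∀ (m n : ℕ) (f : (Fin m → ℕ) →+ (Fin n → ℕ)) (k : ℕ) (p : Matrix (Fin k) (Fin k) (A m)),
      p * p = p → p.conjTranspose = p →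
      φ n k (p.map (fun x => F m n f x)) = f (φ m k p)) := by
  open Pool.Agent.H75.CV in
  refine ⟨AA, inferInstance,
    fun m n f => FF f, fun n k p => cl p, fun n => rfl, fun m n l f g => rfl, fun n k l p q h1 h2 h3 h4 => ⟨⟨fun h =>
      exists_miso ⟨h1, h2⟩ ⟨h3, h4⟩ h, fun ⟨v, hv⟩ => funext fun i =>
        rk_iso (MP.pe ⟨h1, h2⟩ _).io (MIso.pe hv _).io⟩, funext fun i => ?_⟩,
    fun n x => ?_, fun m n f k p h1 h2 => funext fun j => ?_⟩
  · refine Eq.trans (congrArg (fun a => rk (io a)) ?_) (rk_block (MP.pe ⟨h1, h2⟩ (co i, 0, 0))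
      (MP.pe ⟨h3, h4⟩ (co i, 0, 0)) (fun a b => (p a b).2.1 _) (fun a b => (q a b).2.1 _)
      finSumFinEquiv)
    ext1 a b
    simp only [pe, Matrix.reindex_apply, Matrix.map_apply, Matrix.submatrix_apply]
    rcases finSumFinEquiv.symm a with a | a <;> rcases finSumFinEquiv.symm b with b | b <;> rfl
  · obtain ⟨p, hp, h⟩ := exists_cl x
    exact ⟨1, p, hp.1, hp.2, h⟩
  · have e : pe (co j, 0, 0) (p.map fun x => FF f x) = pe (du f (co j), 0, 0) p := by
      ext1 a b; rfl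
    have := rho_eq ⟨h1, h2⟩ (du f (co j))
    rw [rho, ← e] at this
    exact this

end Pool.Agent.S02871
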