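import Pool.Statements.S02877
import Pool.Agent.H79.Mg4

set_option autoImplicit false
open Pool Pool.MP_baf2fc_al

namespace Pool.Agent.S02877

/-- For every field k and free group F, every finitely generated k-subalgebra R of k[F] other than k has a k-algebra map to the Laurent polynomials k[t,t⁻¹] whose image is not just the constants k. -/
theorem result :
    ∀ (k : Type) [Field k] (α : Type)
      (R : Subalgebra k (MonoidAlgebra k (FreeGroup α))),
      R.FG → R ≠ ⊥ →
        ∃ f : R →ₐ[k] LaurentPolynomial k, f.range ≠ ⊥ := by
  intro k _ α R h1 h2
  exact Pool.Agent.H79.Mg.main α R h1 h2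

end Pool.Agent.S02877
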