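import Pool.Statements.S02883
-- import your own Pool.Agent.* helpers here

set_option autoImplicit false
open scoped Pointwise
open Pool Pool.MP_bb8083_al

namespace Pool.Agent.S02883

open Classical in
noncomputable def pr {G : Type} [Group G] {n : ℕ} (C : Set G) (W : Fin n → Fin (n+1) → G) :
    ℕ → G → ℝ
  | 0, u => if u⁻¹ ∈ C then 1 else 0
  | T+1, u => (∑ j, ∑ k, pr C W T (u * W j k)) / (n * (n+1))

theorem pr_cover {G : Type} [Group G] {n : ℕ} (hn : 0 < n) (A : Fin n → Set G)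
    (hA : (⋃ i, A i) = Set.univ) (W : Fin n → Fin (n+1) → G) (T : ℕ) :
    ∀ u, 1 ≤ ∑ i, pr (A i) W T u := by
  have hn' : (0:ℝ) < n := by exact_mod_cast hn
  induction T with
  | zero =>
    intro u
    have : u⁻¹ ∈ ⋃ i, A i := by rw [hA]; trivial
    obtain ⟨i, hi⟩ := Set.mem_iUnion.1 this
    have h1 : pr (A i) W 0 u = 1 := by simp [pr, hi]
    rw [← h1]
    refine Finset.single_le_sum (f := fun i => pr (A i) W 0 u) ?_ (Finset.mem_univ i)
    intro j _
    simp only [pr]
    split_ifs <;> norm_num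
  | succ T ih =>
    intro u
    simp only [pr]
    rw [← Finset.sum_div, le_div_iff₀ (by positivity), Finset.sum_comm]
    have : ∀ j : Fin n, ((n:ℝ)+1) ≤ ∑ i, ∑ k, pr (A i) W T (u * W j k) := by
      intro j
      rw [Finset.sum_comm]
      calc ((n:ℝ)+1) = ∑ _k : Fin (n+1), (1:ℝ) := by simp
        _ ≤ _ := Finset.sum_le_sum fun k _ => ih _
    calc (1:ℝ) * (n * (n+1)) = ∑ _j : Fin n, ((n:ℝ)+1) := by simp; ring
      _ ≤ _ := Finset.sum_le_sum fun j _ => this j

theorem pr_sep {G : Type} [Group G] {n : ℕ} (hn : 0 < n) (C : Set G)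
    (W : Fin n → Fin (n+1) → G) (T : ℕ) :
    ∀ f : Fin (n+1) → G, (∀ v k k', (f k * v)⁻¹ ∈ C → (f k' * v)⁻¹ ∈ C → k = k') →
      ∑ k, pr C W T (f k) ≤ 1 := by
  classical
  have hn' : (0:ℝ) < n := by exact_mod_cast hn
  induction T with
  | zero =>
    intro f hf
    simp only [pr]
    rw [Finset.sum_ite, Finset.sum_const_zero, add_zero, Finset.sum_const, nsmul_eq_mul, mul_one]
    have : (Finset.univ.filter fun k => (f k)⁻¹ ∈ C).card ≤ 1 := by
      rw [Finset.card_le_one]
      intro a ha b hb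
      simp only [Finset.mem_filter, Finset.mem_univ, true_and] at ha hb
      exact hf 1 a b (by simpa using ha) (by simpa using hb)
    exact_mod_cast this
  | succ T ih =>
    intro f hf
    simp only [pr]
    rw [← Finset.sum_div, div_le_iff₀ (by positivity), Finset.sum_comm]
    have : ∀ j : Fin n, ∑ k, ∑ l, pr C W T (f k * W j l) ≤ ((n:ℝ)+1) := by
      intro j
      rw [Finset.sum_comm]
      calc _ ≤ ∑ _l : Fin (n+1), (1:ℝ) := Finset.sum_le_sum fun l _ =>
            ih (fun k => f k * W j l) (fun v k k' h h' => hf (W j l * v) k k'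
              (by simpa [mul_assoc] using h) (by simpa [mul_assoc] using h'))
        _ = _ := by simp
    calc _ ≤ ∑ _j : Fin n, ((n:ℝ)+1) := Finset.sum_le_sum fun j _ => this j
      _ = _ := by simp; ring

theorem pr_sum {G : Type} [Group G] {n : ℕ} (hn : 0 < n) (C : Set G)
    (W : Fin n → Fin (n+1) → G) (i : Fin n)
    (hW : ∀ k k', W i k * (W i k')⁻¹ ∈ (C * C⁻¹) ^ 2 → k = k') (N : ℕ) :
    ∀ u, ∑ T ∈ Finset.range N, pr C W T u ≤ N / (n+1) + n := by
  classical
  have hn' : (0:ℝ) < n := by exact_mod_cast hn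
  induction N with
  | zero => intro u; simp
  | succ N ih =>
    intro u
    rw [Finset.sum_range_succ']
    simp only [pr]
    rw [← Finset.sum_div, Finset.sum_comm]
    have h1 : ∀ j : Fin n, ∑ T ∈ Finset.range N, ∑ k, pr C W T (u * W j k)
        ≤ N + n * (n+1) := by
      intro j
      rw [Finset.sum_comm]
      calc _ ≤ ∑ _k : Fin (n+1), ((N:ℝ) / (n+1) + n) := Finset.sum_le_sum fun k _ => ih _
        _ = _ := by simp; field_simp
    have e1 : ((N+1 : ℕ) : ℝ) / (n+1) = N / (n+1) + 1 / (n+1) := by push_cast; ring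
    have e2 : (0:ℝ) < 1 / (n+1) := by positivity
    split_ifs with hu
    · have h2 : ∑ T ∈ Finset.range N, ∑ k, pr C W T (u * W i k) ≤ N := by
        calc _ ≤ ∑ _T ∈ Finset.range N, (1:ℝ) := Finset.sum_le_sum fun T _ =>
              pr_sep hn C W T _ (fun v k k' h h' => hW k k' (by
                rw [pow_two]
                refine ⟨u⁻¹ * ((u * W i k * v)⁻¹)⁻¹, ⟨_, hu, _, by simpa using h, rfl⟩,
                  (u * W i k' * v)⁻¹ * (u⁻¹)⁻¹, ⟨_, h', _, by simpa using hu, rfl⟩, ?_⟩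
                simp [mul_assoc]))
          _ = _ := by simp
      have h3 : ∑ j : Fin n, ∑ T ∈ Finset.range N, ∑ k, pr C W T (u * W j k)
          ≤ n * (N + n * (n+1)) - n * (n+1) := by
        rw [← Finset.add_sum_erase _ _ (Finset.mem_univ i)]
        have : ∑ j ∈ Finset.univ.erase i, ∑ T ∈ Finset.range N, ∑ k, pr C W T (u * W j k)
            ≤ ∑ _j ∈ Finset.univ.erase i, ((N:ℝ) + n * (n+1)) :=
          Finset.sum_le_sum fun j _ => h1 j
        rw [Finset.sum_const, Finset.card_erase_of_mem (Finset.mem_univ i), nsmul_eq_mul,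
          Finset.card_univ, Fintype.card_fin, Nat.cast_sub hn] at this
        push_cast at this
        nlinarith
      have h4 : (n * (N + n * (n+1)) - n * (n+1) : ℝ) / (n * (n+1)) = N / (n+1) + n - 1 := by
        field_simp
      have h5 := div_le_div_of_nonneg_right h3 (show (0:ℝ) ≤ n * (n+1) by positivity)
      linarith
    · have h3 : ∑ j : Fin n, ∑ T ∈ Finset.range N, ∑ k, pr C W T (u * W j k)
          ≤ n * (N + n * (n+1)) := by
        calc _ ≤ ∑ _j : Fin n, ((N:ℝ) + n * (n+1)) := Finset.sum_le_sum fun j _ => h1 j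
          _ = _ := by simp; ring
      have h4 : (n * (N + n * (n+1)) : ℝ) / (n * (n+1)) = N / (n+1) + n := by
        field_simp
      have h5 := div_le_div_of_nonneg_right h3 (show (0:ℝ) ≤ n * (n+1) by positivity)
      linarith

theorem exists_cell {G : Type} [Group G] {n : ℕ} (hn : 0 < n) (A : Fin n → Set G)
    (hA : (⋃ i, A i) = Set.univ) :
    ∃ i, ∀ W : Fin (n+1) → G, ∃ k k', k ≠ k' ∧ W k * (W k')⁻¹ ∈ (A i * (A i)⁻¹) ^ 2 := by
  by_contra hcon
  push Not at hcon
  choose W hW using hcon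
  have hn' : (0:ℝ) < n := by exact_mod_cast hn
  set N : ℕ := n ^ 2 * (n+1) + 1 with hN
  have h1 : (N:ℝ) ≤ ∑ T ∈ Finset.range N, ∑ i, pr (A i) W T 1 := by
    calc (N:ℝ) = ∑ _T ∈ Finset.range N, (1:ℝ) := by simp
      _ ≤ _ := Finset.sum_le_sum fun T _ => pr_cover hn A hA W T 1
  rw [Finset.sum_comm] at h1
  have h2 : ∑ i, ∑ T ∈ Finset.range N, pr (A i) W T 1 ≤ ∑ _i : Fin n, ((N:ℝ) / (n+1) + n) :=
    Finset.sum_le_sum fun i _ => pr_sum hn (A i) W i
      (fun k k' h => by by_contra hk; exact hW i k k' hk h) N 1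
  simp only [Finset.sum_const, Finset.card_univ, Fintype.card_fin, nsmul_eq_mul] at h2
  have h3 : (N:ℝ) = n ^ 2 * (n+1) + 1 := by rw [hN]; push_cast; ring
  have h4 : (N:ℝ) / (n+1) = n ^ 2 + 1 / (n+1) := by rw [h3]; field_simp
  have h5 : (n:ℝ) * (1 / (n+1)) < 1 := by
    rw [mul_one_div, div_lt_one (by positivity)]; linarith
  rw [h4] at h2
  nlinarith

theorem finish {G : Type} [Group G] {n r m : ℕ} (hn : 0 < n) (hr : 0 < r) (C : Set G)
    (hC : ∀ W : Fin (n+1) → G, ∃ k k', k ≠ k' ∧ W k * (W k')⁻¹ ∈ (C * C⁻¹) ^ r)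
    (hm : (r+1) * n - 1 ≤ m) :
    ∃ H : Subgroup G, ((C * C⁻¹) ^ m : Set G) = (H : Set G) ∧ H.index ≠ 0 ∧ H.index ≤ n := by
  classical
  set B : Set G := C * C⁻¹ with hB
  have hBinv : B⁻¹ = B := by simp [hB]
  have hne : C.Nonempty := by
    obtain ⟨k, k', -, h⟩ := hC (fun _ => 1)
    by_contra hc
    rw [Set.not_nonempty_iff_eq_empty] at hc
    have : B = ∅ := by simp [hB, hc]
    rw [this, Set.empty_pow hr.ne'] at h
    exact h
  have h1 : (1:G) ∈ B := by
    obtain ⟨c, hc⟩ := hne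
    exact ⟨c, hc, c⁻¹, by simpa using hc, by simp⟩
  have hmono : ∀ a b, a ≤ b → B ^ a ⊆ B ^ b := fun a b h => Set.pow_subset_pow_right h1 h
  have hsym : ∀ a x, x ∈ B ^ a → x⁻¹ ∈ B ^ a := by
    intro a x hx
    have : (B ^ a)⁻¹ = B ^ a := by rw [← inv_pow, hBinv]
    rw [← this]; simpa using hx
  have hmul : ∀ a b x y, x ∈ B ^ a → y ∈ B ^ b → x * y ∈ B ^ (a + b) := by
    intro a b x y hx hy
    rw [pow_add]; exact Set.mul_mem_mul hx hy
  set M := (r+1) * n - 1 with hM
  have hM1 : M + 1 = (r+1) * n := by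
    have : 0 < (r+1) * n := by positivity
    omega
  have key : B ^ (M+1) ⊆ B ^ M := by
    by_contra hcon
    have : ∀ k : Fin (n+1), ∃ w, w ∈ B ^ ((r+1) * k) ∧ ∀ a, a < (r+1) * k → w ∉ B ^ a := by
      intro k
      by_contra hk
      push Not at hk
      apply hcon
      have hk' : (r+1) * (k:ℕ) ≤ M + 1 := by
        rw [hM1]; exact Nat.mul_le_mul_left _ (by omega)
      obtain ⟨d, hd⟩ := Nat.exists_eq_add_of_le hk'
      intro g hg
      rw [hd, pow_add] at hg
      obtain ⟨x, hx, y, hy, rfl⟩ := hg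
      obtain ⟨a, ha, hxa⟩ := hk x hx
      exact hmono _ _ (by omega) (hmul _ _ _ _ hxa hy)
    choose w hw hw' using this
    have aux : ∀ k k' : Fin (n+1), k' < k → w k * (w k')⁻¹ ∉ B ^ r := by
      intro k k' hkk h
      have h2 := hmul _ _ _ _ h (hw k')
      simp only [inv_mul_cancel_right] at h2
      refine hw' k _ ?_ h2
      have : (k':ℕ) + 1 ≤ k := hkk
      nlinarith
    obtain ⟨k, k', hkk, h⟩ := hC w
    rcases lt_or_gt_of_ne hkk with h' | h'
    · exact aux k' k h' (by simpa using hsym _ _ h)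
    · exact aux k k' h' h
  have key2 : ∀ a, B ^ (M + a) ⊆ B ^ M := by
    intro a
    induction a with
    | zero => exact subset_rfl
    | succ a ih =>
      intro g hg
      rw [← add_assoc, pow_succ] at hg
      obtain ⟨x, hx, y, hy, rfl⟩ := hg
      exact key (by rw [pow_succ]; exact Set.mul_mem_mul (ih hx) hy)
  have key3 : ∀ a, B ^ a ⊆ B ^ m := fun a =>
    (hmono a (M + a) (by omega)).trans ((key2 a).trans (hmono _ _ hm))
  let H : Subgroup G :=
    { carrier := B ^ m
      mul_mem' := fun {x y} hx hy => key3 _ (hmul _ _ _ _ hx hy)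
      one_mem' := key3 1 (by simpa using h1)
      inv_mem' := fun {x} hx => hsym _ _ hx }
  have hq : ∀ f : Fin (n+1) → G ⧸ H, ¬ Function.Injective f := by
    intro f hf
    obtain ⟨k, k', hkk, h⟩ := hC (fun k => (f k).out⁻¹)
    apply hkk
    apply hf
    rw [← QuotientGroup.out_eq' (f k), ← QuotientGroup.out_eq' (f k'), QuotientGroup.eq]
    have := key3 _ h
    show _ ∈ B ^ m
    simpa using this
  have hfin : Finite (G ⧸ H) := by
    by_contra hinf
    rw [not_finite_iff_infinite] at hinf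
    exact hq (fun k => Infinite.natEmbedding _ k)
      (fun a b hab => Fin.ext ((Infinite.natEmbedding _).injective hab))
  refine ⟨H, rfl, Subgroup.index_ne_zero_of_finite, ?_⟩
  by_contra hlt
  push Not at hlt
  have := Fintype.ofFinite (G ⧸ H)
  rw [Subgroup.index, Nat.card_eq_fintype_card] at hlt
  obtain ⟨e⟩ := Function.Embedding.nonempty_of_card_le (α := Fin (n+1)) (β := G ⧸ H)
    (by simpa using hlt)
  exact hq e e.injective

/-- For every group G and every partition of G into n pairwise disjoint sets, some cell A has (A·A⁻¹) raised to the power 4^(n−1) equal to a subgroup of G of finite index at most n. -/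
theorem result :
    ∀ (G : Type) [Group G] (n : ℕ) (A : Fin n → Set G),
      Pairwise (fun i j => Disjoint (A i) (A j)) →
      (⋃ i, A i) = Set.univ →
      ∃ i : Fin n, ∃ H : Subgroup G,
        ((A i * (A i)⁻¹) ^ (4 ^ (n - 1)) : Set G) = (H : Set G) ∧
        H.index ≠ 0 ∧ H.index ≤ n := by
  intro G _ n A _ hA
  have hmem : ∀ g : G, ∃ i, g ∈ A i := fun g => Set.mem_iUnion.1 (by rw [hA]; trivial)
  rcases n with _ | _ | _ | n
  · obtain ⟨i, -⟩ := hmem 1
    exact i.elim0
  · refine ⟨0, finish (r := 1) (by norm_num) (by norm_num) _ (fun W => ⟨0, 1, by decide, ?_⟩)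
      (by norm_num)⟩
    obtain ⟨i, hi⟩ := hmem (W 0)
    obtain ⟨j, hj⟩ := hmem (W 1)
    obtain rfl : i = 0 := Fin.ext (by have := i.2; omega)
    obtain rfl : j = 0 := Fin.ext (by have := j.2; omega)
    rw [pow_one]
    exact ⟨_, hi, _, by simpa using hj, rfl⟩
  · by_cases h : ∀ x : G, ∃ a ∈ A 0, a * x ∈ A 0
    · refine ⟨0, ⊤, ?_, by simp, by simp⟩
      obtain ⟨c, hc, -⟩ := h 1
      have h1 : (1:G) ∈ A 0 * (A 0)⁻¹ := ⟨c, hc, c⁻¹, by simpa using hc, by simp⟩
      refine Set.eq_univ_of_forall fun g => ?_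
      refine Set.pow_subset_pow_right h1 (show 2 ≤ _ by norm_num) ?_
      obtain ⟨a, ha, hax⟩ := h (c⁻¹ * g * c)
      rw [pow_two]
      exact ⟨c * a⁻¹, ⟨_, hc, _, by simpa using ha, rfl⟩, (a * (c⁻¹ * g * c)) * c⁻¹,
        ⟨_, hax, _, by simpa using hc, rfl⟩, by simp [mul_assoc]⟩
    · push Not at h
      obtain ⟨x, hx⟩ := h
      have h2 : ∀ g : G, g ∈ A 1 ∨ g * x ∈ A 1 := by
        intro g
        obtain ⟨i, hi⟩ := hmem g
        fin_cases i
        · obtain ⟨j, hj⟩ := hmem (g * x)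
          fin_cases j
          · exact absurd hj (hx g hi)
          · exact Or.inr hj
        · exact Or.inl hi
      refine ⟨1, finish (r := 1) (by norm_num) (by norm_num) _ (fun W => ?_) (by norm_num)⟩
      have a1 : ∀ k k', W k ∈ A 1 → W k' ∈ A 1 → W k * (W k')⁻¹ ∈ (A 1 * (A 1)⁻¹) ^ 1 := by
        intro k k' hk hk'
        rw [pow_one]; exact ⟨_, hk, _, by simpa using hk', rfl⟩
      have a2 : ∀ k k', W k * x ∈ A 1 → W k' * x ∈ A 1 →
          W k * (W k')⁻¹ ∈ (A 1 * (A 1)⁻¹) ^ 1 := by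
        intro k k' hk hk'
        rw [pow_one]; exact ⟨_, hk, (W k' * x)⁻¹, by simpa using hk', by simp [mul_assoc]⟩
      rcases h2 (W 0) with h0 | h0 <;> rcases h2 (W 1) with h1 | h1 <;>
        rcases h2 (W 2) with h3 | h3
      all_goals first
        | exact ⟨0, 1, by decide, a1 _ _ h0 h1⟩
        | exact ⟨0, 1, by decide, a2 _ _ h0 h1⟩
        | exact ⟨0, 2, by decide, a1 _ _ h0 h3⟩
        | exact ⟨0, 2, by decide, a2 _ _ h0 h3⟩
        | exact ⟨1, 2, by decide, a1 _ _ h1 h3⟩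
        | exact ⟨1, 2, by decide, a2 _ _ h1 h3⟩
  · obtain ⟨i, hi⟩ := exists_cell (by omega) A hA
    refine ⟨i, finish (r := 2) (by omega) (by norm_num) _ hi ?_⟩
    have : ∀ k : ℕ, 3 * (k + 3) ≤ 4 ^ (k + 2) := by
      intro k
      induction k with
      | zero => norm_num
      | succ k ih => rw [show k + 1 + 2 = (k + 2) + 1 by ring, pow_succ]; omega
    have := this n
    simp only [Nat.add_sub_cancel] at *
    show (2 + 1) * (n + 3) - 1 ≤ 4 ^ (n + 2)
    omega

end Pool.Agent.S02883
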