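import Pool.Statements.S02888
import Pool.Agent.H71.CtblPerm2

set_option autoImplicit false
open Pool Pool.MP_bc5942_al

namespace Pool.Agent.S02888

/-- The negation of the preceding statement: For every group G and subgroups A, B with every element of G equal to a·b (a in A, b in B): if A and B each have a composition series (finite subnormal chain with simple nontrivial factors), then G has one. -/
theorem result :
    ¬ (∀ (G : Type) [Group G] (A B : Subgroup G),
    (∀ g : G, ∃ a ∈ A, ∃ b ∈ B, g = a * b) →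
    (∃ n : ℕ, ∃ s : Fin (n+1) → Subgroup G, s 0 = ⊥ ∧ s (Fin.last n) = A ∧
      ∀ i : Fin n, s i.castSucc ≤ s i.succ ∧
        ((s i.castSucc).subgroupOf (s i.succ)).Normal ∧
        (s i.castSucc).subgroupOf (s i.succ) ≠ ⊤ ∧
        ∀ M : Subgroup (s i.succ), M.Normal →
          (s i.castSucc).subgroupOf (s i.succ) ≤ M →
          M = (s i.castSucc).subgroupOf (s i.succ) ∨ M = ⊤) →
    (∃ n : ℕ, ∃ s : Fin (n+1) → Subgroup G, s 0 = ⊥ ∧ s (Fin.last n) = B ∧
      ∀ i : Fin n, s i.castSucc ≤ s i.succ ∧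
        ((s i.castSucc).subgroupOf (s i.succ)).Normal ∧
        (s i.castSucc).subgroupOf (s i.succ) ≠ ⊤ ∧
        ∀ M : Subgroup (s i.succ), M.Normal →
          (s i.castSucc).subgroupOf (s i.succ) ≤ M →
          M = (s i.castSucc).subgroupOf (s i.succ) ∨ M = ⊤) →
    (∃ n : ℕ, ∃ s : Fin (n+1) → Subgroup G, s 0 = ⊥ ∧ s (Fin.last n) = ⊤ ∧
      ∀ i : Fin n, s i.castSucc ≤ s i.succ ∧
        ((s i.castSucc).subgroupOf (s i.succ)).Normal ∧
        (s i.castSucc).subgroupOf (s i.succ) ≠ ⊤ ∧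
        ∀ M : Subgroup (s i.succ), M.Normal →
          (s i.castSucc).subgroupOf (s i.succ) ≤ M →
          M = (s i.castSucc).subgroupOf (s i.succ) ∨ M = ⊤)) := by
  intro h
  have ser : ∀ A : Subgroup H71.CtblPerm.G, IsSimpleGroup A →
      (∃ n : ℕ, ∃ s : Fin (n+1) → Subgroup H71.CtblPerm.G, s 0 = ⊥ ∧ s (Fin.last n) = A ∧
      ∀ i : Fin n, s i.castSucc ≤ s i.succ ∧
        ((s i.castSucc).subgroupOf (s i.succ)).Normal ∧
        (s i.castSucc).subgroupOf (s i.succ) ≠ ⊤ ∧
        ∀ M : Subgroup (s i.succ), M.Normal →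
          (s i.castSucc).subgroupOf (s i.succ) ≤ M →
          M = (s i.castSucc).subgroupOf (s i.succ) ∨ M = ⊤) := by
    intro A hA
    refine ⟨1, ![⊥, A], rfl, rfl, fun i => ?_⟩
    obtain rfl : i = 0 := Subsingleton.elim _ _
    change ⊥ ≤ A ∧ ((⊥ : Subgroup _).subgroupOf A).Normal ∧ (⊥ : Subgroup _).subgroupOf A ≠ ⊤ ∧
      ∀ M : Subgroup A, M.Normal → (⊥ : Subgroup _).subgroupOf A ≤ M →
        M = (⊥ : Subgroup _).subgroupOf A ∨ M = ⊤
    rw [Subgroup.bot_subgroupOf]
    exact ⟨bot_le, inferInstance, bot_ne_top, fun M hM _ => hM.eq_bot_or_eq_top⟩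
  obtain ⟨n, s, h0, hl, hs⟩ := h _ _ _ H71.CtblPerm.factor
    (ser _ (H71.CtblPerm.simple_range _ (H71.CtblPerm.ψ_ker _)))
    (ser _ (H71.CtblPerm.simple_range _ (H71.CtblPerm.ψ_ker _)))
  have key : ∀ i : Fin (n + 1), Finite (H71.CtblPerm.V ⊓ s i : Subgroup _) := by
    intro i
    induction i using Fin.induction with
    | zero => rw [h0, inf_bot_eq]; infer_instance
    | succ i ih =>
      exact H71.CtblPerm.no_series _ H71.CtblPerm.V_comm _ _ (hs i).2.1 (hs i).2.2.2 ih
  have := key (Fin.last n)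
  rw [hl, inf_top_eq] at this
  exact H71.CtblPerm.V_inf.not_finite this

end Pool.Agent.S02888
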