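import Pool.Statements.S02924
import Mathlib

set_option autoImplicit false
open Pool Pool.MP_be2783_al

namespace Pool.Agent.S02924

abbrev K := ZMod 3
abbrev M := ℤ →₀ K

open Classical in
noncomputable def cc (d : ℤ) : K := if ∃ n : ℕ, d = (n.factorial : ℤ) + n then 1 else 0

def ep (k : ℤ) : ℤ := (k.negOnePow : ℤ)

theorem ep_add (k l : ℤ) : ep (k + l) = ep k * ep l := by simp [ep, Int.negOnePow_add]
theorem ep_zero : ep 0 = 1 := by simp [ep]
theorem ep_neg (k : ℤ) : ep (-k) = ep k := by simp [ep]
theorem ep_cases (k : ℤ) : ep k = 1 ∨ ep k = -1 := by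
  rcases Int.units_eq_one_or k.negOnePow with h | h <;> simp [ep, h]

noncomputable def T (k : ℤ) : M →ₗ[K] M := Finsupp.lmapDomain K K (fun i => i + k)

theorem T_single (k i : ℤ) (a : K) : T k (Finsupp.single i a) = Finsupp.single (i + k) a := by
  simp [T]

theorem T_T (k l : ℤ) (x : M) : T k (T l x) = T (k + l) x := by
  induction x using Finsupp.induction_linear with
  | zero => simp
  | add x y hx hy => simp [hx, hy]
  | single i a => rw [T_single, T_single, T_single]; congr 1; ring

theorem T_zero (x : M) : T 0 x = x := by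
  induction x using Finsupp.induction_linear with
  | zero => simp
  | add x y hx hy => simp [hx, hy]
  | single i a => rw [T_single, add_zero]

noncomputable def F : M →ₗ[K] M →ₗ[K] K :=
  Finsupp.linearCombination K fun i => Finsupp.linearCombination K fun j => (ep i : K) * cc (j - i)

theorem F_single (i j : ℤ) (a b : K) :
    F (Finsupp.single i a) (Finsupp.single j b) = a * b * ((ep i : K) * cc (j - i)) := by
  simp [F, mul_assoc]

theorem F_T (k : ℤ) (x y : M) : F (T k x) (T k y) = (ep k : K) * F x y := by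
  induction x using Finsupp.induction_linear with
  | zero => simp
  | add x y hx hy => simp [hx, hy, mul_add]
  | single i a =>
    induction y using Finsupp.induction_linear with
    | zero => simp
    | add x y hx hy => simp only [map_add, hx, hy, mul_add]
    | single j b =>
      rw [T_single, T_single, F_single, F_single, ep_add, add_sub_add_right_eq_sub]
      push_cast; ring

noncomputable def pp : M →ₗ[K] K := Finsupp.linearCombination K fun i => (ep i : K)

theorem pp_T (k : ℤ) (x : M) : pp (T k x) = (ep k : K) * pp x := by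
  induction x using Finsupp.induction_linear with
  | zero => simp
  | add x y hx hy => simp [hx, hy, mul_add]
  | single i a => rw [T_single]; simp [pp, ep_add]; ring

theorem F_sum (x : M) (m l : ℤ) : F (T l x) (T m x) =
    ∑ i ∈ x.support, ∑ j ∈ x.support, x i * x j * ((ep (i + l) : K) * cc (j + m - (i + l))) := by
  conv_lhs => rw [← Finsupp.sum_single x]
  simp only [Finsupp.sum, map_sum, LinearMap.sum_apply, T_single, F_single]
  rw [Finset.sum_comm]

theorem key (x : M) (hx : x ≠ 0) (k : ℤ) (hk : k ≠ 0) :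
    ∃ n : ℤ, F x (T (k * n) x) - F (T (k * n) x) x ≠ 0 := by
  have hne : x.support.Nonempty := Finsupp.support_nonempty_iff.2 hx
  set a := x.support.min' hne
  set b := x.support.max' hne
  have ha : ∀ i ∈ x.support, a ≤ i := fun i hi => Finset.min'_le _ _ hi
  have hb : ∀ i ∈ x.support, i ≤ b := fun i hi => Finset.le_max' _ _ hi
  have ha' : a ∈ x.support := Finset.min'_mem _ _
  have hb' : b ∈ x.support := Finset.max'_mem _ _
  obtain ⟨D, hD⟩ : ∃ D : ℕ, (D : ℤ) = b - a := ⟨(b - a).toNat, Int.toNat_of_nonneg (by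
    have := ha b hb'; linarith)⟩
  have hk1 : 1 ≤ k.natAbs := Int.natAbs_pos.2 hk
  obtain ⟨N, hN⟩ : ∃ N : ℕ, N + 1 = D + k.natAbs * (2 * D + 2) :=
    ⟨D + k.natAbs * (2 * D + 2) - 1, by
      have : 1 ≤ k.natAbs * (2 * D + 2) := Nat.mul_pos hk1 (by omega)
      omega⟩
  have hN1 : 2 * D + 1 ≤ N := by nlinarith
  have hN2 : k.natAbs ≤ N + 1 := by nlinarith
  have hdvd : k ∣ ((N + 1).factorial : ℤ) + (N + 1 : ℕ) - D := by
    rw [← Int.natAbs_dvd, add_sub_assoc]
    refine dvd_add (Int.natCast_dvd_natCast.2 (Nat.dvd_factorial hk1 hN2)) ?_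
    rw [hN]; push_cast
    exact ⟨2 * D + 2, by ring⟩
  obtain ⟨n, hn⟩ := hdvd
  refine ⟨n, ?_⟩
  have hf : (N : ℤ) * N.factorial + N.factorial = (N + 1).factorial := by
    rw [Nat.factorial_succ]; push_cast; ring
  have hf1 : (1 : ℤ) ≤ N.factorial := by exact_mod_cast N.factorial_pos
  have hf2 : (N : ℤ) ≤ N * N.factorial := by nlinarith
  have hN1' : 2 * (D : ℤ) + 1 ≤ N := by exact_mod_cast hN1
  have h1 : F (T (k * n) x) x = 0 := by
    have := F_sum x 0 (k * n)
    rw [T_zero] at this
    rw [this]
    refine Finset.sum_eq_zero fun i hi => Finset.sum_eq_zero fun j hj => ?_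
    rw [cc, if_neg, mul_zero, mul_zero]
    rintro ⟨m, hm⟩
    have := ha i hi; have := hb j hj
    have : (0 : ℤ) ≤ m.factorial := by positivity
    have : (0 : ℤ) ≤ m := by positivity
    push_cast at hn
    linarith
  have h2 : F x (T (k * n) x) = x a * x b * (ep a : K) := by
    have := F_sum x (k * n) 0
    rw [T_zero] at this
    rw [this, Finset.sum_eq_single_of_mem a ha', Finset.sum_eq_single_of_mem b hb']
    · rw [cc, if_pos ⟨N + 1, by linarith⟩, add_zero, mul_one]
    · intro j hj hjb
      rw [cc, if_neg, mul_zero, mul_zero]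
      rintro ⟨m, hm⟩
      have h3 := ha j hj
      have h4 := lt_of_le_of_ne (hb j hj) hjb
      push_cast at hn
      rcases le_or_gt m N with h | h
      · have h5 : (m.factorial : ℤ) ≤ N.factorial := by exact_mod_cast Nat.factorial_le h
        have h6 : (m : ℤ) ≤ N := by exact_mod_cast h
        linarith
      · have h5 : ((N + 1).factorial : ℤ) ≤ m.factorial := by exact_mod_cast Nat.factorial_le h
        have h6 : (N : ℤ) + 1 ≤ m := by exact_mod_cast h
        linarith
    · intro i hi hia
      refine Finset.sum_eq_zero fun j hj => ?_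
      rw [cc, if_neg, mul_zero, mul_zero]
      rintro ⟨m, hm⟩
      have h3 := ha j hj
      have h4 := lt_of_le_of_ne (ha i hi) hia.symm
      have h7 := hb i hi
      have h8 := hb j hj
      push_cast at hn
      rcases le_or_gt m N with h | h
      · have h5 : (m.factorial : ℤ) ≤ N.factorial := by exact_mod_cast Nat.factorial_le h
        have h6 : (m : ℤ) ≤ N := by exact_mod_cast h
        linarith
      · have h5 : ((N + 1).factorial : ℤ) ≤ m.factorial := by exact_mod_cast Nat.factorial_le h
        have h6 : (N : ℤ) + 1 ≤ m := by exact_mod_cast h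
        linarith
  rw [h1, h2, sub_zero]
  refine mul_ne_zero (mul_ne_zero (Finsupp.mem_support_iff.1 ha') (Finsupp.mem_support_iff.1 hb')) ?_
  rcases ep_cases a with h | h <;> rw [h] <;> decide

def io (a : K) : ZMod 9 := 3 * (a.val : ZMod 9)

theorem io_add : ∀ a b : K, io (a + b) = io a + io b := by decide
theorem io_neg : ∀ a : K, io (-a) = -io a := by decide
theorem io_zero : io 0 = 0 := by decide
theorem io_three : ∀ a : K, 3 * io a = 0 := by decide
theorem io_ep (k : ℤ) (a : K) : io ((ep k : K) * a) = (ep k : ZMod 9) * io a := by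
  rcases ep_cases k with h | h <;> simp [h, io_neg]

@[ext] structure P (e : ZMod 9) where
  x : M
  s : ZMod 9
  k : ℤ

variable {e : ZMod 9}

noncomputable instance : Mul (P e) :=
  ⟨fun a b => ⟨a.x + T a.k b.x, a.s + (ep a.k : ZMod 9) * b.s + e * io (F a.x (T a.k b.x)), a.k + b.k⟩⟩
instance : One (P e) := ⟨⟨0, 0, 0⟩⟩
noncomputable instance : Inv (P e) :=
  ⟨fun a => ⟨-T (-a.k) a.x, -((ep a.k : ZMod 9) * a.s) + e * io (F (T (-a.k) a.x) (T (-a.k) a.x)), -a.k⟩⟩

theorem mul_x (a b : P e) : (a * b).x = a.x + T a.k b.x := rfl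
theorem mul_s (a b : P e) :
    (a * b).s = a.s + (ep a.k : ZMod 9) * b.s + e * io (F a.x (T a.k b.x)) := rfl
theorem mul_k (a b : P e) : (a * b).k = a.k + b.k := rfl
theorem inv_x (a : P e) : a⁻¹.x = -T (-a.k) a.x := rfl
theorem inv_s (a : P e) :
    a⁻¹.s = -((ep a.k : ZMod 9) * a.s) + e * io (F (T (-a.k) a.x) (T (-a.k) a.x)) := rfl
theorem inv_k (a : P e) : a⁻¹.k = -a.k := rfl
theorem one_x : (1 : P e).x = 0 := rfl
theorem one_s : (1 : P e).s = 0 := rfl
theorem one_k : (1 : P e).k = 0 := rfl

noncomputable instance : Group (P e) :=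
  Group.ofLeftAxioms
    (fun a b c => by
      apply P.ext
      · simp only [mul_x, mul_k, map_add, T_T, add_assoc]
      · simp only [mul_x, mul_s, mul_k, map_add, LinearMap.add_apply, io_add, ← T_T, F_T, io_ep,
          ep_add]
        push_cast; ring
      · simp only [mul_k, add_assoc])
    (fun a => by
      apply P.ext
      · simp only [mul_x, one_x, one_k, T_zero, zero_add]
      · simp [mul_s, one_x, one_k, one_s, ep_zero, io_zero]
      · simp only [mul_k, one_k, zero_add])
    (fun a => by
      apply P.ext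
      · simp only [mul_x, inv_x, inv_k, one_x, neg_add_cancel]
      · simp only [mul_s, inv_x, inv_k, inv_s, one_s, ep_neg, map_neg, LinearMap.neg_apply, io_neg]
        ring
      · simp only [mul_k, inv_k, one_k, neg_add_cancel])

def kHom : P e →* Multiplicative ℤ where
  toFun a := Multiplicative.ofAdd a.k
  map_one' := rfl
  map_mul' _ _ := rfl

theorem zpow_k (a : P e) (n : ℤ) : (a ^ n).k = a.k * n := by
  have := congrArg Multiplicative.toAdd (map_zpow (kHom (e := e)) a n)
  simpa [kHom, mul_comm] using this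

theorem cube (a : P e) (h : a.k = 0) : a * a * a = ⟨0, 3 * a.s, 0⟩ := by
  have h3 : a.x + a.x + a.x = 0 := by
    have : (3 : K) = 0 := rfl
    rw [← one_smul K a.x, ← add_smul, ← add_smul, show (1 + 1 + 1 : K) = 0 from rfl, zero_smul]
  apply P.ext
  · simp only [mul_x, mul_k, h, add_zero, T_zero, h3]
  · simp only [mul_x, mul_s, mul_k, h, add_zero, T_zero, ep_zero, map_add, LinearMap.add_apply,
      io_add]
    linear_combination e * io_three (F a.x a.x)
  · simp only [mul_k, h, add_zero]

theorem comm (a b : P e) (ha : a.k = 0) (hb : b.k = 0) :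
    a * b * a⁻¹ * b⁻¹ = ⟨0, e * io (F a.x b.x - F b.x a.x), 0⟩ := by
  rw [mul_inv_eq_iff_eq_mul, mul_inv_eq_iff_eq_mul]
  apply P.ext
  · simp only [mul_x, mul_k, ha, hb, add_zero, T_zero, zero_add, add_comm]
  · simp only [mul_x, mul_s, mul_k, ha, hb, add_zero, T_zero, ep_zero, map_zero, zero_add,
      LinearMap.zero_apply, io_zero, sub_eq_add_neg, io_add, io_neg]
    push_cast; ring
  · simp only [mul_k, ha, hb, add_zero]

theorem nosec (he : e = 1 ∨ e = -1) {H : Type} [Group H] (j : H →* P e) (hj : Function.Injective j)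
    (h0 : ∀ h, (j h).k = 0 → (j h).x = 0 → 3 * (j h).s = 0) (f : H →* DihedralGroup 9)
    (hf : Function.Surjective f) : False := by
  obtain ⟨t, ht⟩ := hf (.sr 0)
  obtain ⟨r, hr⟩ := hf (.r 1)
  set u := r * t * r⁻¹ * t⁻¹ with hu
  have fu : f u = .r 2 := by
    simp only [hu, map_mul, map_inv, ht, hr]; decide
  have uk : (j u).k = 0 := by
    simp only [hu, map_mul, map_inv, mul_k, inv_k]; ring
  have hk : (j t).k ≠ 0 := by
    intro h
    have h1 := cube (j t) h
    have h2 := cube (j t * j t * j t) (by rw [h1])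
    have h3 : j ((t * t * t) * (t * t * t) * (t * t * t)) = j 1 := by
      simp only [map_mul, map_one]
      rw [h2, h1]
      apply P.ext
      · rfl
      · change 3 * (3 * (j t).s) = 0
        rw [← mul_assoc]; exact mul_eq_zero_of_left (by decide) _
      · rfl
    have h4 := congrArg f (hj h3)
    simp only [map_mul, map_one, ht] at h4
    revert h4; decide
  have hc := cube (j u) uk
  have hs : 3 * (j u).s ≠ 0 := by
    intro h
    have h3 : j (u * u * u) = j 1 := by
      simp only [map_mul, map_one]; rw [hc, h]; rfl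
    have h4 := congrArg f (hj h3)
    simp only [map_mul, map_one, fu] at h4
    revert h4; decide
  obtain ⟨n, hn⟩ := key (j u).x (fun h => hs (h0 u uk h)) (j t).k hk
  set v := t ^ n * u * (t ^ n)⁻¹ with hv
  have vk : (j v).k = 0 := by
    simp only [hv, map_mul, map_inv, mul_k, inv_k, uk]; ring
  have vx : (j v).x = T ((j t).k * n) (j u).x := by
    simp only [hv, map_mul, map_inv, mul_k, mul_x, inv_x, uk, add_zero, map_neg, T_T,
      add_neg_cancel, T_zero, map_zpow, zpow_k]
    abel
  have hcm := comm (j u) (j v) uk vk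
  rw [vx] at hcm
  have fc : f (u * v * u⁻¹ * v⁻¹) = 1 := by
    simp only [hv, map_mul, map_inv, fu]
    generalize f (t ^ n) = g
    revert g; decide
  have h9 : ∀ (s e : ZMod 9) (w : K), (e = 1 ∨ e = -1) → 3 * s ≠ 0 → w ≠ 0 →
      e * io w = 3 * s ∨ e * io w + 3 * s = 0 := by decide
  rcases h9 _ e _ he hs hn with h | h
  · have h3 : j (u * v * u⁻¹ * v⁻¹) = j (u * u * u) := by
      simp only [map_mul, map_inv]; rw [hcm, hc, h]
    have h4 := congrArg f (hj h3)
    rw [fc] at h4
    simp only [map_mul, fu] at h4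
    revert h4; decide
  · have h3 : j (u * v * u⁻¹ * v⁻¹ * (u * u * u)) = j 1 := by
      simp only [map_mul, map_inv, map_one]; rw [hcm, hc]
      apply P.ext
      · simp [mul_x, one_x]
      · simp [mul_s, one_s, ep_zero, io_zero, h]
      · rfl
    have h4 := congrArg f (hj h3)
    rw [map_mul, fc] at h4
    simp only [map_mul, map_one, fu] at h4
    revert h4; decide

def red : ZMod 9 →+* K := ZMod.castHom (by norm_num) K

theorem red_io : ∀ a : K, red (io a) = 0 := by decide
theorem red_zero : ∀ s : ZMod 9, red s = 0 → 3 * s = 0 := by decide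

noncomputable def W (e : ZMod 9) (c : K) : Subgroup (P e) where
  carrier := {a | red a.s = c * pp a.x}
  one_mem' := by simp [one_s, one_x]
  mul_mem' := fun {a b} ha hb => by
    simp only [Set.mem_ofPred_eq] at ha hb ⊢
    simp only [mul_s, mul_x, map_add, map_mul, red_io, map_intCast, ha, hb, pp_T]
    ring
  inv_mem' := fun {a} ha => by
    simp only [Set.mem_ofPred_eq] at ha ⊢
    simp only [inv_s, inv_x, map_add, map_mul, map_neg, red_io, map_intCast, ha, pp_T, ep_neg]
    ring

theorem nosecW (he : e = 1 ∨ e = -1) (c : K) :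
    ¬ ∃ H : Subgroup (W e c), ∃ f : H →* DihedralGroup 9, Function.Surjective f := by
  rintro ⟨H, f, hf⟩
  refine nosec he ((W e c).subtype.comp H.subtype)
    ((W e c).subtype_injective.comp H.subtype_injective) (fun h _ hx => red_zero _ ?_) f hf
  have : red h.1.1.s = c * pp h.1.1.x := h.1.2
  change h.1.1.x = 0 at hx
  rw [hx, map_zero, mul_zero] at this
  exact this

def HH : Subgroup (W 1 0 × W (-1) 1) where
  carrier := {g | g.1.1.x = g.2.1.x ∧ g.1.1.k = g.2.1.k}
  one_mem' := ⟨rfl, rfl⟩
  mul_mem' := fun {a b} ha hb => by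
    refine ⟨?_, ?_⟩
    · change a.1.1.x + T a.1.1.k b.1.1.x = a.2.1.x + T a.2.1.k b.2.1.x
      rw [ha.1, ha.2, hb.1]
    · change a.1.1.k + b.1.1.k = a.2.1.k + b.2.1.k
      rw [ha.2, hb.2]
  inv_mem' := fun {a} ha => by
    refine ⟨?_, ?_⟩
    · change -T (-a.1.1.k) a.1.1.x = -T (-a.2.1.k) a.2.1.x
      rw [ha.1, ha.2]
    · change -a.1.1.k = -a.2.1.k
      rw [ha.2]

def dd (s : ZMod 9) (u : ℤ) : DihedralGroup 9 := if u = 1 then .r s else .sr (-s)

theorem dd_mul (s t : ZMod 9) (k l : ℤ) :
    dd (s + (ep k : ZMod 9) * t) (ep (k + l)) = dd s (ep k) * dd t (ep l) := by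
  rw [ep_add]
  rcases ep_cases k with h | h <;> rcases ep_cases l with h' | h' <;> simp [dd, h, h'] <;> ring

noncomputable def ff : HH →* DihedralGroup 9 :=
  MonoidHom.mk' (fun g => dd (g.1.1.1.s + g.1.2.1.s) (ep g.1.1.1.k)) fun a b => by
    rw [← dd_mul]
    congr 1
    change (a.1.1.1 * b.1.1.1).s + (a.1.2.1 * b.1.2.1).s = _
    rw [mul_s, mul_s, ← a.2.1, ← a.2.2, ← b.2.1]
    ring

theorem ff_surj : Function.Surjective ff := by
  have h : ∀ (s : ZMod 9) (k : ℤ), ∃ g, ff g = dd s (ep k) := fun s k =>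
    ⟨⟨(⟨⟨Finsupp.single 0 (red s), 0, k⟩, by
        change red 0 = 0 * _
        simp⟩, ⟨⟨Finsupp.single 0 (red s), s, k⟩, by
        change red s = 1 * pp (Finsupp.single 0 (red s))
        simp [pp, ep_zero]⟩), rfl, rfl⟩, by
      change dd (0 + s) (ep k) = _
      rw [zero_add]⟩
  rintro (s | s)
  · simpa [dd, ep_zero] using h s 0
  · simpa [dd, ep] using h (-s) 1

/-- The negation of the preceding statement: For all groups A and B, if some subgroup of A×B maps onto the dihedral group of order 18, then some subgroup of A or some subgroup of B maps onto that dihedral group. -/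
theorem result :
    ¬ (∀ (A B : Type) [Group A] [Group B],
      (∃ H : Subgroup (A × B), ∃ f : H →* DihedralGroup 9, Function.Surjective f) →
      ((∃ H : Subgroup A, ∃ f : H →* DihedralGroup 9, Function.Surjective f) ∨
       (∃ H : Subgroup B, ∃ f : H →* DihedralGroup 9, Function.Surjective f))) := by
  intro h
  rcases h (W 1 0) (W (-1) 1) ⟨HH, ff, ff_surj⟩ with h | h
  · exact nosecW (Or.inl rfl) _ h
  · exact nosecW (Or.inr rfl) _ h

end Pool.Agent.S02924
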