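import Pool.Statements.S02935
import Pool.Agent.H71.Ulam5

set_option autoImplicit false
open Pool Pool.MP_bfb3ed_al

namespace Pool.Agent.S02935

/-- The universal cover of SL2(R), modelled as continuous lifts to the real line of projective maps of det-1 matrices under composition, admits an injective group homomorphism into the permutation group of the naturals. -/
theorem result :
    ∀ S : Set (ℝ → ℝ),
      S = {f : ℝ → ℝ | Continuous f ∧
        ∃ M : Matrix (Fin 2) (Fin 2) ℝ, M.det = 1 ∧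
          ∀ x : ℝ,
            (M.mulVec ![Real.cos (Real.pi * x), Real.sin (Real.pi * x)]) 0
                * Real.sin (Real.pi * f x)
              - (M.mulVec ![Real.cos (Real.pi * x), Real.sin (Real.pi * x)]) 1
                * Real.cos (Real.pi * f x) = 0} →
      ∃ φ : (ℝ → ℝ) → Equiv.Perm ℕ,
        (∀ f ∈ S, ∀ g ∈ S, φ (f ∘ g) = φ f * φ g) ∧
        (∀ f ∈ S, ∀ g ∈ S, φ f = φ g → f = g) := by
  classical
  intro S hS
  obtain ⟨Φ, hΦ⟩ := Pool.Agent.H71.Ulam.main
  have hex : ∀ f ∈ S, ∃ g : Pool.Agent.H71.Ulam.GG, ⇑g.1.1 = f := by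
    intro f hf
    rw [hS] at hf
    obtain ⟨hc, M, hM, h⟩ := hf
    exact Pool.Agent.H71.Ulam.exists_GG_of_mem hc M hM h
  refine ⟨fun f => if h : ∃ g : Pool.Agent.H71.Ulam.GG, ⇑g.1.1 = f then Φ h.choose else 1, ?_, ?_⟩
  · intro f hf g hg
    have h1 := hex f hf
    have h2 := hex g hg
    have h3 : ∃ k : Pool.Agent.H71.Ulam.GG, ⇑k.1.1 = f ∘ g :=
      ⟨h1.choose * h2.choose, by
        have : ⇑(h1.choose * h2.choose).1.1 = ⇑h1.choose.1.1 ∘ ⇑h2.choose.1.1 := rfl
        rw [this, h1.choose_spec, h2.choose_spec]⟩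
    simp only [dif_pos h1, dif_pos h2, dif_pos h3]
    rw [← map_mul]
    congr 1
    apply Pool.Agent.H71.Ulam.fst_inj
    apply DFunLike.coe_injective
    have : ⇑(h1.choose * h2.choose).1.1 = ⇑h1.choose.1.1 ∘ ⇑h2.choose.1.1 := rfl
    change ⇑h3.choose.1.1 = ⇑(h1.choose * h2.choose).1.1
    rw [this, h1.choose_spec, h2.choose_spec, h3.choose_spec]
  · intro f hf g hg e
    have h1 := hex f hf
    have h2 := hex g hg
    simp only [dif_pos h1, dif_pos h2] at e
    rw [← h1.choose_spec, ← h2.choose_spec, hΦ e]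

end Pool.Agent.S02935
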