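import Pool.Statements.S02941
-- import your own Pool.Agent.* helpers here

set_option autoImplicit false
open Pool Pool.MP_bfcf3a_al

namespace Pool.Agent.S02941

open Classical in
/-- A symmetric `G`-invariant matrix is preserved by every permutation that preserves all
`G`-invariant subspaces. -/
theorem inv_of_closure {Ω : Type} [Fintype Ω] (G : Subgroup (Equiv.Perm Ω)) (σ : Equiv.Perm Ω)
    (hσ : ∀ W : Submodule ℝ (Ω → ℝ),
              (∀ g ∈ G, ∀ f ∈ W, (fun x => f (g x)) ∈ W) →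
                ∀ f ∈ W, (fun x => f (σ x)) ∈ W)
    (A : Matrix Ω Ω ℝ) (hs : ∀ x y, A x y = A y x) (hG : ∀ g ∈ G, ∀ x y, A (g x) (g y) = A x y)
    (a b : Ω) : A (σ a) (σ b) = A a b := by
  have hA : A.IsHermitian := by
    ext x y
    simp [Matrix.conjTranspose_apply, hs x y]
  have key : ∀ (f : Ω → ℝ) (l : ℝ), A.mulVec f = l • f →
      A.mulVec (fun x => f (σ x)) = fun x => (A.mulVec f) (σ x) := by
    intro f l hf
    let W : Submodule ℝ (Ω → ℝ) := LinearMap.ker (A.mulVecLin - l • LinearMap.id)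
    have hW : ∀ u : Ω → ℝ, u ∈ W ↔ A.mulVec u = l • u := by
      intro u
      simp [W, LinearMap.mem_ker, sub_eq_zero]
    have h1 : ∀ g ∈ G, ∀ u ∈ W, (fun x => u (g x)) ∈ W := by
      intro g hg u hu
      rw [hW] at hu ⊢
      funext x
      have h2 := congrFun hu (g x)
      simp only [Matrix.mulVec, dotProduct, Pi.smul_apply, smul_eq_mul] at h2 ⊢
      rw [← h2, ← Equiv.sum_comp g (fun y => A (g x) y * u y)]
      exact Finset.sum_congr rfl fun y _ => by rw [hG g hg]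
    have h3 := (hW _).1 (hσ W h1 f ((hW f).2 hf))
    rw [h3, hf]
    rfl
  let T : (Ω → ℝ) →ₗ[ℝ] (Ω → ℝ) := LinearMap.funLeft ℝ ℝ σ
  have hT : A.mulVecLin ∘ₗ T ∘ₗ (WithLp.linearEquiv 2 ℝ (Ω → ℝ)).toLinearMap =
      T ∘ₗ A.mulVecLin ∘ₗ (WithLp.linearEquiv 2 ℝ (Ω → ℝ)).toLinearMap := by
    apply (hA.eigenvectorBasis.toBasis).ext
    intro i
    have h4 := hA.mulVec_eigenvectorBasis i
    have h5 := key _ _ h4
    exact h5
  have h6 := congrFun (LinearMap.congr_fun hT (WithLp.toLp 2 (Pi.single (σ b) (1 : ℝ)))) a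
  simp only [LinearMap.comp_apply, T, LinearEquiv.coe_coe, WithLp.linearEquiv_apply,
    Matrix.mulVecLin_apply, LinearMap.funLeft_apply] at h6
  have h7 : (LinearMap.funLeft ℝ ℝ σ) (Pi.single (σ b) (1 : ℝ)) = Pi.single b (1 : ℝ) := by
    funext x
    simp [LinearMap.funLeft_apply, Pi.single_apply]
  simp [h7] at h6
  exact h6.symm

theorem point_orbit {Ω : Type} [Fintype Ω] (h3 : 3 ≤ Fintype.card Ω)
    (G : Subgroup (Equiv.Perm Ω)) (σ : Equiv.Perm Ω)
    (hσ : ∀ a b : Ω, a ≠ b → ∃ g ∈ G, ({g a, g b} : Set Ω) = {σ a, σ b}) (a : Ω) :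
    ∃ g ∈ G, g a = σ a := by
  classical
  by_contra hne
  push Not at hne
  have hb : ∀ b, b ≠ a → (∃ g ∈ G, g a = σ b) ∧ ∃ g ∈ G, g b = σ a := by
    intro b hb
    obtain ⟨g, hg, h⟩ := hσ a b hb.symm
    rcases Set.pair_eq_pair_iff.1 h with ⟨h1, _⟩ | ⟨h1, h2⟩
    · exact absurd h1 (hne g hg)
    · exact ⟨⟨g, hg, h1⟩, ⟨g, hg, h2⟩⟩
  have hcard : 1 < (Finset.univ.erase a).card := by
    rw [Finset.card_erase_of_mem (Finset.mem_univ a), Finset.card_univ]
    omega
  obtain ⟨b, hb', c, hc', hbc⟩ := Finset.one_lt_card.1 hcard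
  have hba : b ≠ a := (Finset.mem_erase.1 hb').1
  have hca : c ≠ a := (Finset.mem_erase.1 hc').1
  obtain ⟨⟨g1, hg1, e1⟩, ⟨g2, hg2, e2⟩⟩ := hb b hba
  obtain ⟨⟨g3, hg3, e3⟩, -⟩ := hb c hca
  obtain ⟨g, hg, h⟩ := hσ b c hbc
  rcases Set.pair_eq_pair_iff.1 h with ⟨h1, _⟩ | ⟨h1, _⟩
  · apply hne (g2 * g⁻¹ * g1) (G.mul_mem (G.mul_mem hg2 (G.inv_mem hg)) hg1)
    simp only [Equiv.Perm.coe_mul, Function.comp_apply]
    rw [e1, ← h1, ← e2]
    simp
  · apply hne (g2 * g⁻¹ * g3) (G.mul_mem (G.mul_mem hg2 (G.inv_mem hg)) hg3)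
    simp only [Equiv.Perm.coe_mul, Function.comp_apply]
    rw [e3, ← h1, ← e2]
    simp

open Classical in
theorem closure_of_inv {Ω : Type} [Fintype Ω] (G : Subgroup (Equiv.Perm Ω)) (σ : Equiv.Perm Ω)
    (hσ : ∀ A : Ω → Ω → ℝ, (∀ x y, A x y = A y x) → (∀ g ∈ G, ∀ x y, A (g x) (g y) = A x y) →
      ∀ x y, A (σ x) (σ y) = A x y)
    (W : Submodule ℝ (Ω → ℝ)) (hW : ∀ g ∈ G, ∀ f ∈ W, (fun x => f (g x)) ∈ W)
    (f : Ω → ℝ) (hf : f ∈ W) : (fun x => f (σ x)) ∈ W := by
  let K : Submodule ℝ (EuclideanSpace ℝ Ω) :=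
    W.comap (WithLp.linearEquiv 2 ℝ (Ω → ℝ)).toLinearMap
  have hK : ∀ v : EuclideanSpace ℝ Ω, v ∈ K ↔ v.ofLp ∈ W := fun v => Iff.rfl
  let P : Ω → Ω → ℝ := fun x y => K.starProjection (EuclideanSpace.single x (1 : ℝ)) y
  have hP : ∀ x y, P x y = inner ℝ (K.starProjection (EuclideanSpace.single x (1 : ℝ)))
      (EuclideanSpace.single y (1 : ℝ)) := by
    intro x y
    rw [EuclideanSpace.inner_single_right]
    simp [P]
  have hs : ∀ x y, P x y = P y x := by
    intro x y
    rw [hP, hP, K.inner_starProjection_left_eq_right, real_inner_comm]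
  have hsum : ∀ (v : EuclideanSpace ℝ Ω) (y : Ω), K.starProjection v y = ∑ x, v x * P x y := by
    intro v y
    have h1 : v = ∑ x, v x • EuclideanSpace.single x (1 : ℝ) := by
      ext z
      simp [Finset.sum_apply, Pi.single_apply]
    conv_lhs => rw [h1]
    simp [map_sum, P]
  have hG : ∀ g ∈ G, ∀ x y, P (g x) (g y) = P x y := by
    intro g hg x y
    have h1 : K.starProjection (EuclideanSpace.single x (1 : ℝ)) =
        WithLp.toLp 2 (fun z => K.starProjection (EuclideanSpace.single (g x) (1 : ℝ)) (g z)) := by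
      apply Submodule.eq_starProjection_of_mem_of_inner_eq_zero
      · rw [hK]
        exact hW g hg _ ((hK _).1 (K.starProjection_apply_mem _))
      · intro w hw
        have h2 : (WithLp.toLp 2 (fun z => w (g⁻¹ z)) : EuclideanSpace ℝ Ω) ∈ K := by
          rw [hK]
          exact hW g⁻¹ (G.inv_mem hg) _ ((hK _).1 hw)
        have h3 := K.starProjection_inner_eq_zero (EuclideanSpace.single (g x) (1 : ℝ)) _ h2
        rw [← h3]
        simp only [PiLp.inner_apply, PiLp.sub_apply]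
        symm
        rw [← Equiv.sum_comp g]
        apply Finset.sum_congr rfl
        intro z _
        simp
    simp only [P]
    rw [h1]
  have h4 := hσ P hs hG
  have h5 : K.starProjection (WithLp.toLp 2 f) = WithLp.toLp 2 f :=
    Submodule.starProjection_eq_self_iff.2 ((hK _).2 hf)
  have h6 : K.starProjection (WithLp.toLp 2 (fun x => f (σ x))) =
      WithLp.toLp 2 (fun x => f (σ x)) := by
    ext y
    have h7 := hsum (WithLp.toLp 2 f) (σ y)
    rw [h5] at h7
    rw [hsum]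
    simp only at h7 ⊢
    rw [h7]
    symm
    rw [← Equiv.sum_comp σ]
    exact Finset.sum_congr rfl fun x _ => by rw [h4]
  exact (hK _).1 (Submodule.starProjection_eq_self_iff.1 h6)

theorem result :
    ∀ (Ω : Type) [Fintype Ω], 3 ≤ Fintype.card Ω →
      ∀ G : Subgroup (Equiv.Perm Ω),
        ({σ : Equiv.Perm Ω |
            ∀ W : Submodule ℝ (Ω → ℝ),
              (∀ g ∈ G, ∀ f ∈ W, (fun x => f (g x)) ∈ W) →
                ∀ f ∈ W, (fun x => f (σ x)) ∈ W} : Set (Equiv.Perm Ω)) =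
        ({σ : Equiv.Perm Ω |
            ∀ a b : Ω, a ≠ b →
              ∃ g ∈ G, ({g a, g b} : Set Ω) = {σ a, σ b}} : Set (Equiv.Perm Ω)) := by
  classical
  intro Ω _ h3 G
  ext σ
  simp only [Set.mem_ofPred_eq]
  constructor
  · intro hσ a b _
    have h := inv_of_closure G σ hσ
      (Matrix.of fun x y => if ∃ g ∈ G, ({g a, g b} : Set Ω) = {x, y} then (1 : ℝ) else 0)
      (fun x y => by simp only [Matrix.of_apply, Set.pair_comm x y])
      (fun g hg x y => by
        simp only [Matrix.of_apply]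
        congr 1
        apply propext
        constructor
        · rintro ⟨h, hh, e⟩
          refine ⟨g⁻¹ * h, G.mul_mem (G.inv_mem hg) hh, ?_⟩
          have := congrArg (fun s : Set Ω => (fun z => g⁻¹ z) '' s) e
          simpa [Set.image_pair] using this
        · rintro ⟨h, hh, e⟩
          refine ⟨g * h, G.mul_mem hg hh, ?_⟩
          have := congrArg (fun s : Set Ω => (fun z => g z) '' s) e
          simpa [Set.image_pair] using this) a b
    simp only [Matrix.of_apply] at h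
    have h1 : ∃ g ∈ G, ({g a, g b} : Set Ω) = {a, b} := ⟨1, G.one_mem, by simp⟩
    rw [if_pos h1] at h
    by_contra hc
    rw [if_neg hc] at h
    exact zero_ne_one h
  · intro hσ W hW f hf
    refine closure_of_inv G σ ?_ W hW f hf
    intro A hs hG x y
    by_cases hxy : x = y
    · subst hxy
      obtain ⟨g, hg, e⟩ := point_orbit h3 G σ hσ x
      rw [← e, hG g hg]
    · obtain ⟨g, hg, e⟩ := hσ x y hxy
      rcases Set.pair_eq_pair_iff.1 e with ⟨h1, h2⟩ | ⟨h1, h2⟩
      · rw [← h1, ← h2, hG g hg]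
      · rw [← h1, ← h2, hG g hg, hs]

end Pool.Agent.S02941
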