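import Pool.Statements.S02954
import Pool.Agent.H30.EqB

set_option autoImplicit false
open Pool Pool.MP_c0dfe1_al

namespace Pool.Agent.S02954

open Pool.Agent.H30.EqM

/-- The negation of the preceding statement: For every finitely generated one-relator monoid ⟨A ∣ r=1⟩ whose group of units is finitely generated and Gromov-hyperbolic, it is decidable whether a finite system of equations with constants has a solution in the monoid. -/
theorem result :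
    ¬ (∀ (n : ℕ) (r : FreeMonoid (Fin n)) (c : Con (FreeMonoid (Fin n))),
    c = conGen (fun u v : FreeMonoid (Fin n) => u = r ∧ v = 1) →
    (∃ (S : Finset (c.Quotient)ˣ) (ℓ : (c.Quotient)ˣ → ℕ),
        Subgroup.closure (S : Set (c.Quotient)ˣ) = ⊤ ∧
        (∀ g : (c.Quotient)ˣ, ℓ g = sInf {k : ℕ | ∃ l : List (c.Quotient)ˣ,
            l.length = k ∧ (∀ s ∈ l, s ∈ S ∨ s⁻¹ ∈ S) ∧ l.prod = g}) ∧
        ∃ δ : ℕ, ∀ x y z w : (c.Quotient)ˣ,
          min ((ℓ (w⁻¹ * x) : ℤ) + (ℓ (w⁻¹ * z) : ℤ) - (ℓ (x⁻¹ * z) : ℤ))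
              ((ℓ (w⁻¹ * y) : ℤ) + (ℓ (w⁻¹ * z) : ℤ) - (ℓ (y⁻¹ * z) : ℤ)) - (δ : ℤ)
            ≤ (ℓ (w⁻¹ * x) : ℤ) + (ℓ (w⁻¹ * y) : ℤ) - (ℓ (x⁻¹ * y) : ℤ)) →
    ComputablePred (fun E : List (List (Fin n ⊕ ℕ) × List (Fin n ⊕ ℕ)) =>
      ∃ σ : ℕ → c.Quotient, ∀ e ∈ E,
        (e.1.map (Sum.elim (fun a : Fin n => Con.mk' c (FreeMonoid.of a)) σ)).prod =
        (e.2.map (Sum.elim (fun a : Fin n => Con.mk' c (FreeMonoid.of a)) σ)).prod)) := by
  intro H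
  have : Subsingleton MMˣ := ⟨fun a b => (units a).trans (units b).symm⟩
  refine main (H 2 _ cg rfl ⟨∅, fun _ => 0, Subsingleton.elim _ _, fun g => ?_, 0, by simp⟩)
  refine (Nat.sInf_eq_zero.2 (Or.inl ?_)).symm
  exact ⟨[], rfl, by simp, (units g).symm⟩

end Pool.Agent.S02954
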