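import Pool.Statements.S03016
import Pool.Agent.H76.Hayashi

set_option autoImplicit false
open Pool Pool.MP_c8c3c9_al

namespace Pool.Agent.S03016

/-- The negation of the preceding statement: For every finite connected rack X and every x in X, some cycle of the permutation y ↦ x ▷ y has a length that every other cycle length of that permutation divides; that is, all cycle lengths divide the largest one. -/
theorem result :
    ¬ (∀ (X : Type) [Rack X] [Finite X],
      (∀ y z : X, Relation.EqvGen (fun a b : X => ∃ x : X, Shelf.act x a = b) y z) →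
      ∀ x : X, ∃ w : X, ∀ z : X,
        Function.minimalPeriod (Shelf.act x) z ∣ Function.minimalPeriod (Shelf.act x) w) := by
  intro h
  obtain ⟨z, hz⟩ := h Pool.Agent.H76.Hayashi.Q (by
    intro a b
    obtain ⟨x, x', hx⟩ := Pool.Agent.H76.Hayashi.two_steps a b
    exact Relation.EqvGen.trans _ _ _ (Relation.EqvGen.rel _ _ ⟨x, rfl⟩)
      (Relation.EqvGen.rel _ _ ⟨x', hx⟩)) Pool.Agent.H76.Hayashi.e
  exact Pool.Agent.H76.Hayashi.no_regular z hz

end Pool.Agent.S03016
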