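import Pool.Statements.S03022
import Pool.Agent.H66.Prot

set_option autoImplicit false
open scoped Pointwise
open Pool Pool.MP_c8ecde_al

namespace Pool.Agent.S03022

/-- The negation of the preceding statement: For every group G and every partition of G into n cells, some cell A satisfies G = F·A·A⁻¹·F⁻¹ for some finite set F ⊆ G with at most n elements. -/
theorem result :
    ¬ (∀ (G : Type) [Group G] (n : ℕ) (A : Fin n → Set G),
      (∀ i j, i ≠ j → Disjoint (A i) (A j)) →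
      (⋃ i, A i) = Set.univ →
      ∃ i : Fin n, ∃ F : Finset G, F.card ≤ n ∧
        (F : Set G) * A i * (A i)⁻¹ * (F : Set G)⁻¹ = Set.univ) := by
  classical
  intro H
  obtain ⟨c, hc, -⟩ := H66.Prot.main
  obtain ⟨i, F, hF, hU⟩ := H H66.Prot.G 7 (fun i => {p | c p = i})
    (fun i j hij => Set.disjoint_left.2 fun p h1 h2 => hij (h1.symm.trans h2))
    (Set.eq_univ_of_forall fun p => Set.mem_iUnion.2 ⟨_, rfl⟩)
  obtain ⟨g, hg⟩ := hc i (F.image (·⁻¹)) (F.image (·⁻¹)) (Finset.card_image_le.trans hF)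
    (Finset.card_image_le.trans hF)
  have : g ∈ (F : Set H66.Prot.G) * ({p | c p = i} : Set H66.Prot.G) * {p | c p = i}⁻¹ *
      (F : Set H66.Prot.G)⁻¹ := by
    rw [hU]; trivial
  obtain ⟨_, ⟨_, ⟨f, hf, a, ha, rfl⟩, b, hb, rfl⟩, y, hy, rfl⟩ := this
  refine hg (y⁻¹ * b⁻¹) y (Finset.mem_image.2 ⟨y⁻¹, hy, by simp⟩) f⁻¹
    (Finset.mem_image.2 ⟨f, hf, rfl⟩) ⟨by simpa using hb, ?_⟩
  simpa [mul_assoc] using ha

end Pool.Agent.S03022
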