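import Pool.Statements.S03062
import Pool.Agent.H30.EqB

set_option autoImplicit false
open Pool Pool.MP_cbaa56_al

namespace Pool.Agent.S03062

open Pool.Agent.H30.EqM

/-- The negation of the preceding statement: For every finite alphabet and every relator word w with no self-overlap, it is algorithmically decidable whether a given finite system of equations with constants has a solution in the monoid ⟨A ∣ w=1⟩. -/
theorem result :
    ¬ (∀ (n : ℕ) (w : List (Fin n)),
      (¬ ∃ u v x : List (Fin n), u ≠ [] ∧ v ≠ [] ∧ x ≠ [] ∧ w = u ++ v ∧ w = x ++ u) →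
      ComputablePred
        (fun S : List (List (Fin n ⊕ ℕ) × List (Fin n ⊕ ℕ)) =>
          ∃ σ : ℕ → List (Fin n),
            ∀ e ∈ S,
              conGen (fun x y : FreeMonoid (Fin n) => x = FreeMonoid.ofList w ∧ y = 1)
                (FreeMonoid.ofList (e.1.flatMap (Sum.elim (fun a => [a]) σ)))
                (FreeMonoid.ofList (e.2.flatMap (Sum.elim (fun a => [a]) σ))))) := by
  intro H
  refine main ((H 2 [0, 0, 1, 1] ?_).of_eq fun S => ⟨?_, ?_⟩)
  · rintro ⟨u, v, x, hu, hv, hx, h1, h2⟩
    have h3 : u = List.take u.length [0, 0, 1, 1] := by simp [h1]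
    have h4 : u = List.drop x.length [0, 0, 1, 1] := by simp [h2]
    have h5 := congrArg List.length h1
    have h6 := congrArg List.length h2
    have h7 := List.length_pos_iff.2 hu
    have h8 := List.length_pos_iff.2 hv
    simp only [List.length_append, List.length_cons, List.length_nil] at h5 h6
    have h9 := h3.symm.trans h4
    obtain ⟨k, hk, hk'⟩ : ∃ k, u.length = k ∧ x.length = 4 - k := ⟨_, rfl, by omega⟩
    rw [hk, hk'] at h9
    have : k < 4 := by omega
    have : 0 < k := by omega
    interval_cases k <;> simp at h9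
  · rintro ⟨σ, h⟩
    refine ⟨fun n => mk (σ n), fun e he => ?_⟩
    rw [← mk_flat, ← mk_flat, ← mk_eq, ← mk_eq]
    exact (Con.eq _).2 (h e he)
  · rintro ⟨σ, h⟩
    choose τ hτ using fun n => mk_surj (σ n)
    refine ⟨τ, fun e he => (Con.eq cg).1 ?_⟩
    change cg.mk' _ = cg.mk' _
    rw [mk_eq, mk_eq, mk_flat, mk_flat, ← funext hτ]
    exact h e he

end Pool.Agent.S03062
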