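import Pool.Statements.S03064
import Pool.Agent.H79.Pst2

set_option autoImplicit false
open Pool Pool.MP_cbb20d_al

namespace Pool.Agent.S03064

/-- The negation of the preceding statement: For every prime p and k ≥ 1 there is m ≥ 1 such that for all n ≥ 1, any A, B in GL_n(p-adic integers) with AB ≡ BA mod p^m are congruent mod p^k to some commuting A', B' in GL_n(p-adic integers). -/
theorem result :
    ¬ (∀ (p : ℕ) [Fact p.Prime], ∀ k : ℕ, 1 ≤ k → ∃ m : ℕ, 1 ≤ m ∧
      ∀ n : ℕ, 1 ≤ n → ∀ A B : Matrix.GeneralLinearGroup (Fin n) (PadicInt p),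
        (∀ i j, (p : PadicInt p) ^ m ∣ (A.val * B.val - B.val * A.val) i j) →
        ∃ A' B' : Matrix.GeneralLinearGroup (Fin n) (PadicInt p),
          A' * B' = B' * A' ∧
          (∀ i j, (p : PadicInt p) ^ k ∣ (A.val - A'.val) i j) ∧
          (∀ i j, (p : PadicInt p) ^ k ∣ (B.val - B'.val) i j)) := by
  intro h
  haveI : Fact (Nat.Prime 2) := ⟨Nat.prime_two⟩
  obtain ⟨m, -, hm⟩ := h 2 2 (by norm_num)
  obtain ⟨n, hn, A, B, h1, h2⟩ := Pool.Agent.H79.Pst.main ((2 : ℕ) : PadicInt 2)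
    (by rw [PadicInt.maximalIdeal_eq_span_p]; exact Ideal.mem_span_singleton_self _)
    (by exact_mod_cast (two_ne_zero : (2 : ℕ) ≠ 0)) m
  obtain ⟨A', B', c1, c2, c3⟩ := hm n hn A B h1
  exact h2 A' B' c1 c2 c3

end Pool.Agent.S03064
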