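import Pool.Statements.S03082
-- import your own Pool.Agent.* helpers here

set_option autoImplicit false
open CategoryTheory CategoryTheory.Limits
open Pool Pool.MP_cd2797_al

namespace Pool.Agent.S03082

section General

variable {R : Type} [Ring R]

/-- The chain of submodules as a functor. -/
def chainF {V : Type} [AddCommGroup V] [Module R V] (W : ℕ →o Submodule R V) :
    ℕ ⥤ ModuleCat.{0} R where
  obj n := ModuleCat.of R (W n)
  map h := ModuleCat.ofHom (Submodule.inclusion (W.monotone h.le))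

/-- The union as a cocone. -/
def chainC {V : Type} [AddCommGroup V] [Module R V] (W : ℕ →o Submodule R V) (U : Submodule R V)
    (h : ∀ n, W n ≤ U) : Cocone (chainF W) where
  pt := ModuleCat.of R U
  ι := { app := fun n => ModuleCat.ofHom (Submodule.inclusion (h n)) }

theorem chain_colim {V : Type} [AddCommGroup V] [Module R V] (W : ℕ →o Submodule R V)
    (U : Submodule R V) (h : ∀ n, W n ≤ U) (h' : ∀ v ∈ U, ∃ n, v ∈ W n) :
    Nonempty (IsColimit (chainC W U h)) := by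
  refine ⟨isColimitOfReflects (forget (ModuleCat.{0} R))
    (Types.FilteredColimit.isColimitOf' _ _ ?_ ?_)⟩
  · rintro ⟨v, hv⟩
    obtain ⟨n, hn⟩ := h' v hv
    exact ⟨n, ⟨v, hn⟩, rfl⟩
  · intro i x y hxy
    refine ⟨i, 𝟙 i, ?_⟩
    have : x = y := Submodule.inclusion_injective (h i) hxy
    rw [this]

variable (p : R)

/-- The rigidity property. -/
def Rig (M : ModuleCat.{0} R) : Prop :=
  (∀ a b : M, p • a ≠ 0 → p • b ≠ 0 → p • a = p • b) ∧ ∀ m : M, (∀ r : R, p • r • m = 0) → m = 0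

theorem Rig.zero {A B : ModuleCat.{0} R} (hA : Rig p A) (hB : Rig p B) (f : A →ₗ[R] B) (a : A)
    (ha : p • a ≠ 0) (hf : f (p • a) = 0) (x : A) : f x = 0 := by
  apply hB.2
  intro r
  rw [← map_smul, ← map_smul]
  by_cases h : p • r • x = 0
  · rw [h, map_zero]
  · rw [hA.1 _ _ h ha, hf]

theorem Rig.of_inj {A B : ModuleCat.{0} R} (hB : Rig p B) (f : A →ₗ[R] B)
    (hf : Function.Injective f) : Rig p A := by
  refine ⟨fun a b ha hb => hf ?_, fun m hm => hf ?_⟩
  · rw [map_smul, map_smul]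
    apply hB.1
    · rwa [← map_smul, ne_eq, map_eq_zero_iff f hf]
    · rwa [← map_smul, ne_eq, map_eq_zero_iff f hf]
  · rw [map_zero]
    exact hB.2 _ fun r => by rw [← map_smul, ← map_smul, hm, map_zero]

theorem rig_colim {ι : Type} [Preorder ι] [IsDirected ι (· ≤ ·)] [Nonempty ι]
    (F : ι ⥤ ModuleCat.{0} R) (c : Cocone F) (hc : IsColimit c) (h : ∀ i, Rig p (F.obj i)) :
    Rig p c.pt := by
  have hw : ∀ {i j : ι} (f : i ⟶ j) (x : F.obj i), (c.ι.app j).hom ((F.map f).hom x) =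
      (c.ι.app i).hom x := fun f x => by
    rw [← c.w f]
    rfl
  refine ⟨fun a b ha hb => ?_, fun m hm => ?_⟩
  · obtain ⟨i, x, rfl⟩ := Concrete.isColimit_exists_rep F hc a
    obtain ⟨j, y, rfl⟩ := Concrete.isColimit_exists_rep F hc b
    obtain ⟨k, h1, h2⟩ := exists_ge_ge i j
    change p • (c.ι.app i).hom x ≠ 0 at ha
    change p • (c.ι.app j).hom y ≠ 0 at hb
    change p • (c.ι.app i).hom x = p • (c.ι.app j).hom y
    rw [← hw (homOfLE h1)] at ha ⊢
    rw [← hw (homOfLE h2)] at hb ⊢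
    rw [← map_smul] at ha hb
    rw [← map_smul (c.ι.app k).hom, ← map_smul (c.ι.app k).hom]
    congr 1
    apply (h k).1
    · intro h0
      rw [h0, map_zero] at ha
      exact ha rfl
    · intro h0
      rw [h0, map_zero] at hb
      exact hb rfl
  · obtain ⟨i, x, rfl⟩ := Concrete.isColimit_exists_rep F hc m
    change ∀ r : R, p • r • (c.ι.app i).hom x = 0 at hm
    change (c.ι.app i).hom x = 0
    by_cases hx : ∀ r : R, p • r • x = 0
    · rw [(h i).2 x hx, map_zero]
    · push Not at hx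
      obtain ⟨r, hr⟩ := hx
      obtain ⟨k, f, g, e⟩ := Concrete.isColimit_exists_of_rep_eq F hc (p • r • x) (0 : F.obj i) (by
        change (c.ι.app i).hom _ = (c.ι.app i).hom _
        rw [map_smul, map_smul, hm, map_zero])
      change (F.map f).hom _ = (F.map g).hom _ at e
      rw [map_zero] at e
      rw [← hw f, (h i).zero p (h k) (F.map f).hom _ hr e x, map_zero]

theorem retract {M N : ModuleCat.{0} R} (hM : Rig p M) (s : N ⟶ M) (r : M ⟶ N)
    (h : s ≫ r = 𝟙 N) : Subsingleton N ∨ r ≫ s = 𝟙 M := by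
  have h1 : ∀ y : N, r.hom (s.hom y) = y := fun y => by
    have := congrArg (fun f => f.hom y) h
    simpa using this
  by_cases h2 : ∀ a : M, p • a = 0
  · left
    refine ⟨fun y z => ?_⟩
    rw [← h1 y, ← h1 z, hM.2 (s.hom y) fun _ => h2 _, hM.2 (s.hom z) fun _ => h2 _]
  · push Not at h2
    obtain ⟨a, ha⟩ := h2
    by_cases h3 : (s.hom ∘ₗ r.hom) (p • a) = 0
    · left
      have h4 : ∀ y : N, y = 0 := fun y => by
        have := hM.zero p hM _ a ha h3 (s.hom y)
        rw [LinearMap.comp_apply, h1] at this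
        rw [← h1 y, this, map_zero]
      exact ⟨fun y z => by rw [h4 y, h4 z]⟩
    · right
      ext x
      have h4 : (LinearMap.id - s.hom ∘ₗ r.hom : M →ₗ[R] M) (p • a) = 0 := by
        rw [LinearMap.sub_apply, sub_eq_zero, LinearMap.id_apply, map_smul]
        rw [map_smul] at h3
        exact hM.1 _ _ ha h3
      have := hM.zero p hM _ a ha h4 x
      rw [LinearMap.sub_apply, sub_eq_zero] at this
      exact this.symm

end General

abbrev VV : Type := Option (ℕ × ℕ) →₀ ZMod 2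

/-- Endomorphisms preserving all coordinate subspaces containing the base vector. -/
def RR : Subring (Module.End (ZMod 2) VV) where
  carrier := {r | ∀ (S : Set (ℕ × ℕ)) (v : VV), (∀ i, i ∉ S → v (some i) = 0) →
    ∀ i, i ∉ S → r v (some i) = 0}
  mul_mem' ha hb S v hv := ha S _ (hb S v hv)
  one_mem' _ _ hv := hv
  add_mem' ha hb S v hv i hi := by simp [ha S v hv i hi, hb S v hv i hi]
  zero_mem' _ _ _ _ _ := rfl
  neg_mem' ha S v hv i hi := by simp [ha S v hv i hi]

/-- The thin module supported on `S`. -/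
def MM (S : Set (ℕ × ℕ)) : Submodule RR VV where
  carrier := {v | ∀ i, i ∉ S → v (some i) = 0}
  add_mem' ha hb i hi := by simp [ha i hi, hb i hi]
  zero_mem' _ _ := rfl
  smul_mem' r v hv := r.2 S v hv

/-- Coordinate operators. -/
noncomputable def xx (o : Option (ℕ × ℕ)) : RR :=
  ⟨(Finsupp.lsingle none).comp (Finsupp.lapply o), fun _ _ _ _ _ => by simp⟩

theorem xx_smul (o : Option (ℕ × ℕ)) (v : VV) : xx o • v = Finsupp.single none (v o) := rfl

theorem p_x (o : Option (ℕ × ℕ)) : xx none * xx o = xx o := by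
  apply Subtype.ext
  apply LinearMap.ext
  intro v
  change xx none • xx o • v = xx o • v
  simp [xx_smul]

theorem rig_V : Rig (xx none) (ModuleCat.of RR VV) := by
  refine ⟨fun a b ha hb => ?_, fun m hm => ?_⟩
  · change xx none • (a : VV) = xx none • (b : VV)
    change xx none • (a : VV) ≠ 0 at ha
    change xx none • (b : VV) ≠ 0 at hb
    rw [xx_smul, ne_eq, Finsupp.single_eq_zero] at ha hb
    rw [xx_smul, xx_smul]
    congr 1
    revert ha hb
    generalize (a : VV) none = s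
    generalize (b : VV) none = t
    revert s t
    decide
  · apply Finsupp.ext
    intro o
    have := hm (xx o)
    rw [← mul_smul, p_x] at this
    exact Finsupp.single_eq_zero.1 this

/-- The support of a module. -/
def Supp (M : ModuleCat.{0} RR) : Set (ℕ × ℕ) := {i | ∃ m : M, xx (some i) • m ≠ 0}

theorem supp_MM (S : Set (ℕ × ℕ)) : Supp (ModuleCat.of RR (MM S)) = S := by
  ext i
  constructor
  · rintro ⟨m, hm⟩
    by_contra hi
    apply hm
    apply Subtype.ext
    change xx (some i) • (m : VV) = 0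
    rw [xx_smul, m.2 i hi, Finsupp.single_zero]
  · intro hi
    refine ⟨⟨Finsupp.single (some i) 1, fun j hj => ?_⟩, fun h => ?_⟩
    · apply Finsupp.single_eq_of_ne
      rintro h
      exact hj (Option.some_injective _ h ▸ hi)
    · have := congrArg Subtype.val h
      change xx (some i) • (Finsupp.single (some i) 1 : VV) = 0 at this
      simp [xx_smul] at this

theorem supp_mono {A B : ModuleCat.{0} RR} (hA : Rig (xx none) A) (hB : Rig (xx none) B)
    (f : A →ₗ[RR] B) (x : A) (hx : f x ≠ 0) : Supp A ⊆ Supp B := by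
  rintro i ⟨m, hm⟩
  refine ⟨f m, fun h => hx (hA.zero _ hB f (xx (some i) • m) ?_ ?_ x)⟩
  · rwa [← mul_smul, p_x]
  · rwa [← mul_smul, p_x, map_smul]

/-- The generating supports. -/
def GG (n m : ℕ) : Set (ℕ × ℕ) := {q | q.1 = n ∨ (q.1 ≤ n ∧ q.2 ≤ m)}

/-- The class of modules. -/
def CC : Set (ModuleCat.{0} RR) :=
  {X | Rig (xx none) X ∧ (Subsingleton X ∨ ∃ n m, Supp X = GG n m)}

/-- Direct limits of modules from the class. -/
def LL (M : ModuleCat.{0} RR) : Prop :=
  ∃ (ι : Type) (_ : Preorder ι) (_ : IsDirected ι (· ≤ ·)) (_ : Nonempty ι)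
    (F : ι ⥤ ModuleCat.{0} RR) (c : Cocone F),
    Nonempty (IsColimit c) ∧ Nonempty (c.pt ≅ M) ∧ ∀ i, F.obj i ∈ CC

theorem mem_union (S : ℕ → Set (ℕ × ℕ)) (hS : Monotone S) (T : Set (ℕ × ℕ))
    (h : ∀ q ∈ T, ∃ n, q ∈ S n) (v : VV) (hv : v ∈ MM T) : ∃ n, v ∈ MM (S n) := by
  classical
  have h1 : ∀ o : Option (ℕ × ℕ), ∃ n, ∀ i, o = some i → i ∈ T → i ∈ S n := by
    rintro (_ | i)
    · exact ⟨0, fun _ h => nomatch h⟩
    · by_cases hi : i ∈ T
      · obtain ⟨n, hn⟩ := h i hi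
        exact ⟨n, fun j hj _ => Option.some_injective _ hj ▸ hn⟩
      · exact ⟨0, fun j hj hj' => absurd (Option.some_injective _ hj ▸ hj') hi⟩
  choose g hg using h1
  refine ⟨v.support.sup g, fun i hi => ?_⟩
  by_contra h0
  refine hi (hS (Finset.le_sup (f := g) (Finsupp.mem_support_iff.2 h0)) (hg _ i rfl ?_))
  by_contra hT
  exact h0 (hv i hT)

theorem MM_mono {S T : Set (ℕ × ℕ)} (h : S ⊆ T) : MM S ≤ MM T :=
  fun _ hv i hi => hv i fun h1 => hi (h h1)

theorem LL_strip (n : ℕ) : LL (ModuleCat.of RR (MM {q | q.1 ≤ n})) := by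
  have hS : Monotone (GG n) := fun a b hab q hq => hq.imp id fun h => ⟨h.1, h.2.trans hab⟩
  refine ⟨ℕ, inferInstance, inferInstance, inferInstance,
    chainF ⟨fun m => MM (GG n m), fun a b hab => MM_mono (hS hab)⟩,
    chainC _ (MM {q | q.1 ≤ n}) fun m => MM_mono fun q hq => hq.elim Eq.le And.left,
    chain_colim _ _ _ (mem_union _ hS _ fun q hq => ⟨q.2, Or.inr ⟨hq, le_rfl⟩⟩), ⟨Iso.refl _⟩,
    fun m => ⟨rig_V.of_inj _ (MM (GG n m)).subtype Subtype.val_injective,
      Or.inr ⟨n, m, supp_MM _⟩⟩⟩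

theorem LL_zero (N : ModuleCat.{0} RR) [Subsingleton N] : LL N := by
  refine ⟨ℕ, inferInstance, inferInstance, inferInstance,
    chainF (V := N) (OrderHom.const ℕ ⊤), chainC _ ⊤ fun _ => le_rfl,
    chain_colim _ _ _ fun _ _ => ⟨0, trivial⟩, ⟨Submodule.topEquiv.toModuleIso⟩, fun m => ?_⟩
  have : Subsingleton ((chainF (V := N) (OrderHom.const ℕ (⊤ : Submodule RR N))).obj m) :=
    ⟨fun a b => Subtype.ext (Subsingleton.elim _ _)⟩
  exact ⟨⟨fun _ _ _ _ => Subsingleton.elim _ _, fun _ _ => Subsingleton.elim _ _⟩, Or.inl this⟩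

theorem not_LL : ¬ LL (ModuleCat.of RR (MM Set.univ)) := by
  rintro ⟨ι, _, _, _, F, c, ⟨hc⟩, ⟨e⟩, hF⟩
  have hw : ∀ {i j : ι} (f : i ⟶ j) (x : F.obj i), (c.ι.app j).hom ((F.map f).hom x) =
      (c.ι.app i).hom x := fun f x => by
    rw [← c.w f]
    rfl
  have h1 : ∀ q, ∃ (i : ι) (x : F.obj i), (c.ι.app i).hom (xx (some q) • x) ≠ 0 := by
    intro q
    have : q ∈ Supp (ModuleCat.of RR (MM Set.univ)) := by
      rw [supp_MM]
      trivial
    obtain ⟨m, hm⟩ := this
    obtain ⟨i, x, hx⟩ := Concrete.isColimit_exists_rep F hc (e.inv.hom m)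
    refine ⟨i, x, fun h => hm ?_⟩
    change (c.ι.app i).hom x = _ at hx
    rw [map_smul, hx, ← map_smul] at h
    exact (map_eq_zero_iff _ e.symm.toLinearEquiv.injective).1 h
  have h2 : ∀ (i : ι) (x : F.obj i), (c.ι.app i).hom x ≠ 0 → ∃ n m, Supp (F.obj i) = GG n m := by
    intro i x hx
    refine (hF i).2.resolve_left fun h => hx ?_
    rw [Subsingleton.elim x 0, map_zero]
  obtain ⟨i, x, hx⟩ := h1 (0, 0)
  obtain ⟨n, m, hi⟩ := h2 i _ hx
  obtain ⟨j, y, hy⟩ := h1 (n + 1, 0)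
  obtain ⟨k, hik, hjk⟩ := exists_ge_ge i j
  rw [← hw (homOfLE hik)] at hx
  rw [← hw (homOfLE hjk)] at hy
  obtain ⟨n', m', hk⟩ := h2 k _ hx
  have h3 := supp_mono (hF i).1 (hF k).1 (F.map (homOfLE hik)).hom _
    fun h => hx (by rw [h, map_zero])
  have h4 : (n + 1, 0) ∈ Supp (F.obj k) := ⟨(F.map (homOfLE hjk)).hom y, fun h => hy (by
    rw [map_smul, h, map_zero])⟩
  rw [hi, hk] at h3
  rw [hk] at h4
  have h5 := h3 (a := (n, m' + 1)) (Or.inl rfl)
  simp only [GG, Set.mem_ofPred_eq] at h4 h5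
  omega

theorem result :
    ¬ (∀ (R : Type) [Ring R] (C : Set (ModuleCat.{0} R)) (L : ModuleCat.{0} R → Prop),
    (∀ M : ModuleCat.{0} R, L M ↔
      ∃ (ι : Type) (_ : Preorder ι) (_ : IsDirected ι (· ≤ ·)) (_ : Nonempty ι)
        (F : ι ⥤ ModuleCat.{0} R) (c : Cocone F),
        Nonempty (IsColimit c) ∧ Nonempty (c.pt ≅ M) ∧ ∀ i, F.obj i ∈ C) →
    (∀ (M N : ModuleCat.{0} R) (s : N ⟶ M) (r : M ⟶ N), s ≫ r = 𝟙 N → L M → L N) →
    ∀ (ι : Type) (_ : Preorder ι) (_ : IsDirected ι (· ≤ ·)) (_ : Nonempty ι)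
      (F : ι ⥤ ModuleCat.{0} R) (c : Cocone F),
      Nonempty (IsColimit c) → (∀ i, L (F.obj i)) → L c.pt) := by
  intro h
  have hS : Monotone fun n : ℕ => {q : ℕ × ℕ | q.1 ≤ n} := fun a b hab q hq => le_trans hq hab
  refine not_LL (h RR CC LL (fun _ => Iff.rfl) ?_ ℕ inferInstance inferInstance inferInstance
    (chainF ⟨fun n => MM {q | q.1 ≤ n}, fun a b hab => MM_mono (hS hab)⟩)
    (chainC _ (MM Set.univ) fun _ => MM_mono (Set.subset_univ _))
    (chain_colim _ _ _ (mem_union _ hS _ fun q _ => ⟨q.1, le_refl q.1⟩)) LL_strip)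
  rintro M N s r hsr ⟨ι, _, _, _, F, c, ⟨hc⟩, ⟨e⟩, hF⟩
  have hM : Rig (xx none) M := (rig_colim _ F c hc fun i => (hF i).1).of_inj _ e.inv.hom
    e.symm.toLinearEquiv.injective
  rcases retract _ hM s r hsr with h1 | h1
  · exact LL_zero N
  · exact ⟨ι, _, inferInstance, inferInstance, F, c, ⟨hc⟩, ⟨e ≪≫ ⟨r, s, h1, hsr⟩⟩, hF⟩

end Pool.Agent.S03082
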