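import Pool.Statements.S03150
import Pool.Agent.H79.Asym2

set_option autoImplicit false
open Pool Pool.MP_d25c28_al

namespace Pool.Agent.S03150

/-- The negation of the preceding statement: For every e there is a bound B such that every almost symmetric numerical semigroup with e minimal generators has at most B pseudo-Frobenius numbers, i.e. type at most B. -/
theorem result :
    ¬ (∀ e : ℕ, ∃ B : ℕ, ∀ S : Set ℕ,
      0 ∈ S →
      (∀ a ∈ S, ∀ b ∈ S, a + b ∈ S) →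
      Sᶜ.Finite →
      (∀ f : ℕ, f ∉ S → (∀ y : ℕ, f < y → y ∈ S) →
        ∀ x : ℕ, x ≤ f → x ∉ S → f - x ∉ S →
          ∀ s ∈ S, s ≠ 0 → x + s ∈ S) →
      {s : ℕ | s ∈ S ∧ s ≠ 0 ∧ ¬ ∃ a ∈ S, ∃ b ∈ S, a ≠ 0 ∧ b ≠ 0 ∧ a + b = s}.ncard = e →
      {x : ℕ | x ∉ S ∧ ∀ s ∈ S, s ≠ 0 → x + s ∈ S}.ncard ≤ B) := by
  intro H
  obtain ⟨B, hB⟩ := H 8
  have hn : 2 ≤ B + 2 := by omega
  have hn' : (2:ℤ) ≤ ((B + 2 : ℕ) : ℤ) := by exact_mod_cast hn
  have hr : 0 ≤ B + 2 := by omega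
  have hr' : ((0:ℕ):ℤ) ≤ ((B + 2 : ℕ) : ℤ) := by exact_mod_cast hr
  have key := hB (H79.Asym.HN (B+2) 0 hn hr : Set ℕ) (H79.Asym.HN (B+2) 0 hn hr).zero_mem
    (fun a ha b hb => (H79.Asym.HN (B+2) 0 hn hr).add_mem ha hb) H79.Asym.HN_cofinite ?_
    (H79.Asym.HN_edim (n := B+2) (r := 0) (hn := hn) (hr := hr))
  · have h1 := H79.Asym.pfZ_card (n := ((B + 2 : ℕ) : ℤ)) (r := 0) (N := B + 2) hn' (by simp)
    have hP := H79.Asym.PH_not hn' hr'
    have h2 : {x : ℤ | ¬ H79.Asym.InH ((B + 2 : ℕ) : ℤ) ((0:ℕ):ℤ) x ∧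
        ∀ s, H79.Asym.InH ((B + 2 : ℕ) : ℤ) ((0:ℕ):ℤ) s → s ≠ 0 →
          H79.Asym.InH ((B + 2 : ℕ) : ℤ) ((0:ℕ):ℤ) (x + s)} =
        ((↑) : ℕ → ℤ) '' {x : ℕ | x ∉ (H79.Asym.HN (B+2) 0 hn hr : Set ℕ) ∧
          ∀ s ∈ (H79.Asym.HN (B+2) 0 hn hr : Set ℕ), s ≠ 0 →
            x + s ∈ (H79.Asym.HN (B+2) 0 hn hr : Set ℕ)} := by
      ext x
      constructor
      · rintro ⟨hx, hs⟩
        have hx0 : 0 ≤ x := by
          by_contra hc
          apply hP
          have := hs (H79.Asym.PP ((B + 2 : ℕ) : ℤ) - x) (Or.inl (H79.Asym.big hn' (by omega))) (by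
            intro h0
            have h3 : H79.Asym.InH ((B + 2 : ℕ) : ℤ) ((0:ℕ):ℤ)
              (H79.Asym.PP ((B + 2 : ℕ) : ℤ) - x) := Or.inl (H79.Asym.big hn' (by omega))
            have h4 : H79.Asym.PP ((B + 2 : ℕ) : ℤ) < -1 + 1 := by omega
            have h5 : H79.Asym.PP ((B + 2 : ℕ) : ℤ) = -1 := by
              by_contra h6
              have := (H79.Asym.big hn' (y := -1) (by omega)).nonneg hn'
              omega
            have e := H79.Asym.el_pos hn' (Or.inl rfl) (j := 0) le_rfl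
            have e2 := H79.Asym.el_notG hn' (Or.inl rfl) (j := 0) le_rfl (by omega)
            exact e2 (H79.Asym.big hn' (by omega)))
          simpa using this
        lift x to ℕ using hx0
        refine ⟨x, ⟨hx, fun s h1 h2 => ?_⟩, rfl⟩
        have := hs s h1 (by exact_mod_cast h2)
        show H79.Asym.InH _ _ ((x + s : ℕ) : ℤ)
        push_cast at this ⊢; exact this
      · rintro ⟨y, ⟨hy, hs⟩, rfl⟩
        refine ⟨hy, fun s h1 h2 => ?_⟩
        lift s to ℕ using h1.nonneg hn'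
        have : H79.Asym.InH _ _ ((y + s : ℕ) : ℤ) := hs s h1 (by exact_mod_cast h2)
        push_cast at this ⊢; exact this
    rw [h2, Set.ncard_image_of_injective _ (Nat.cast_injective (R := ℤ))] at h1
    omega
  · intro f hf hy x hxf hx hfx s hs hs0
    have hP := H79.Asym.PH_not hn' hr'
    have hf' : ¬ H79.Asym.InH ((B + 2 : ℕ) : ℤ) ((0:ℕ):ℤ) f := hf
    have hfP : (f : ℤ) = H79.Asym.PP ((B + 2 : ℕ) : ℤ) := by
      rcases lt_trichotomy (f : ℤ) (H79.Asym.PP ((B + 2 : ℕ) : ℤ)) with h | h | h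
      · exfalso
        have h0 : 0 ≤ H79.Asym.PP ((B + 2 : ℕ) : ℤ) := by omega
        have := hy (H79.Asym.PP ((B + 2 : ℕ) : ℤ)).toNat (by omega)
        apply hP
        have h3 : H79.Asym.InH ((B + 2 : ℕ) : ℤ) ((0:ℕ):ℤ)
          ((H79.Asym.PP ((B + 2 : ℕ) : ℤ)).toNat : ℤ) := this
        rwa [Int.toNat_of_nonneg h0] at h3
      · exact h
      · exact absurd (Or.inl (H79.Asym.big hn' h)) hf'
    have hfx' : ¬ H79.Asym.InH ((B + 2 : ℕ) : ℤ) ((0:ℕ):ℤ) ((f - x : ℕ) : ℤ) := hfx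
    rw [Nat.cast_sub hxf, hfP] at hfx'
    have := H79.Asym.as_core hn' hr' (x := x) (y := s) hx hfx' hs (by exact_mod_cast hs0)
    show H79.Asym.InH _ _ ((x + s : ℕ) : ℤ)
    push_cast at this ⊢; exact this

end Pool.Agent.S03150
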