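import Pool.Statements.S03160
import Pool.Agent.H51.ThreeClos

set_option autoImplicit false
open Pool Pool.MP_d30538_al

namespace Pool.Agent.S03160
open Pool.Agent.H51.ThreeClos

/-- The negation of the preceding statement: In any free group with normal closures R1,R2,R3 of single elements, if x lies in R1∩R2∩R3 and some positive power of x lies in [R1,R2∩R3][R2,R1∩R3][R3,R1∩R2], then x itself lies in that subgroup. -/
theorem result :
    ¬ (∀ (α : Type) (r₁ r₂ r₃ x : FreeGroup α) (n : ℕ), 0 < n →
      x ∈ Subgroup.normalClosure ({r₁} : Set (FreeGroup α)) ⊓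
          Subgroup.normalClosure ({r₂} : Set (FreeGroup α)) ⊓
          Subgroup.normalClosure ({r₃} : Set (FreeGroup α)) →
      x ^ n ∈
        (⁅Subgroup.normalClosure ({r₁} : Set (FreeGroup α)),
            Subgroup.normalClosure ({r₂} : Set (FreeGroup α)) ⊓
              Subgroup.normalClosure ({r₃} : Set (FreeGroup α))⁆ ⊔
          ⁅Subgroup.normalClosure ({r₂} : Set (FreeGroup α)),
            Subgroup.normalClosure ({r₁} : Set (FreeGroup α)) ⊓
              Subgroup.normalClosure ({r₃} : Set (FreeGroup α))⁆ ⊔
          ⁅Subgroup.normalClosure ({r₃} : Set (FreeGroup α)),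
            Subgroup.normalClosure ({r₁} : Set (FreeGroup α)) ⊓
              Subgroup.normalClosure ({r₂} : Set (FreeGroup α))⁆) →
      x ∈
        (⁅Subgroup.normalClosure ({r₁} : Set (FreeGroup α)),
            Subgroup.normalClosure ({r₂} : Set (FreeGroup α)) ⊓
              Subgroup.normalClosure ({r₃} : Set (FreeGroup α))⁆ ⊔
          ⁅Subgroup.normalClosure ({r₂} : Set (FreeGroup α)),
            Subgroup.normalClosure ({r₁} : Set (FreeGroup α)) ⊓
              Subgroup.normalClosure ({r₃} : Set (FreeGroup α))⁆ ⊔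
          ⁅Subgroup.normalClosure ({r₃} : Set (FreeGroup α)),
            Subgroup.normalClosure ({r₁} : Set (FreeGroup α)) ⊓
              Subgroup.normalClosure ({r₂} : Set (FreeGroup α))⁆)) := by
  intro H
  refine g_not (D_le (H Bool (x * y * x⁻¹ * y) y x _ 2 (by norm_num) g_mem ?_))
  rw [g_sq]
  have h1 := Subgroup.mem_inf.mp g_mem
  exact mul_mem (inv_mem (Subgroup.mem_sup_left (Subgroup.mem_sup_right
    (Subgroup.commutator_mem_commutator (sf y)
      (Subgroup.mem_inf.mpr ⟨(Subgroup.mem_inf.mp h1.1).1, h1.2⟩)))))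
    (Subgroup.mem_sup_right (Subgroup.commutator_mem_commutator c_mem r_mem))

end Pool.Agent.S03160
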