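import Pool.Statements.S03186


set_option autoImplicit false
open Pool Pool.MP_d5772f_al

namespace Pool.Agent.S03186

open Matrix MatrixGroups in
abbrev Q := SL(2, ZMod 37)
def mI : Q := ⟨!![0, 36; 1, 0], by decide +kernel⟩
def mJ : Q := ⟨!![0, 6; 6, 0], by decide +kernel⟩
def mX : Q := ⟨!![35, 27; 23, 22], by decide +kernel⟩
def f0 : QuaternionGroup 2 → Q
  | .a i => mI ^ i.val
  | .xa i => mJ * mI ^ i.val
theorem f0_mul : ∀ a b, f0 (a * b) = f0 a * f0 b := by decide +kernel
theorem f0_inj : ∀ a b, f0 a = f0 b → a = b := by decide +kernel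
theorem pw : ∀ a, (mX * f0 a) ^ 18 = -1 := by decide +kernel
theorem ne1 : (-1 : Q) ≠ 1 := by decide +kernel
theorem sq1 : (-1 : Q) ^ 2 = 1 := by decide +kernel

def f : QuaternionGroup 2 →* Q := MonoidHom.mk' f0 f0_mul

instance : Fact (Nat.Prime 37) := ⟨by norm_num⟩

theorem cardQ : Nat.card Q = 50616 := by
  have h1 := Matrix.card_GL_field (𝔽 := ZMod 37) 2
  simp only [Fin.prod_univ_two, ZMod.card] at h1
  let d : Matrix.GeneralLinearGroup (Fin 2) (ZMod 37) →* (ZMod 37)ˣ := Matrix.GeneralLinearGroup.det
  have hs : Function.Surjective d := Matrix.GeneralLinearGroup.det_surjective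
  have h2 : d.ker.index = 36 := by
    rw [Subgroup.index_ker, MonoidHom.range_eq_top.mpr hs, Subgroup.card_top, Nat.card_eq_fintype_card,
      ZMod.card_units]
  have h3 := d.ker.card_mul_index
  have h4 : Nat.card Q = Nat.card d.ker := by
    have : Nat.card Q = Nat.card (Set.range (Matrix.SpecialLinearGroup.toGL :
        Q → Matrix.GeneralLinearGroup (Fin 2) (ZMod 37))) :=
      Nat.card_congr (Equiv.ofInjective _ Matrix.SpecialLinearGroup.toGL_injective)
    rw [this, Matrix.SpecialLinearGroup.range_toGL]
    rfl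
  rw [h2, h1] at h3
  rw [h4]
  have h5 : (37 ^ 2 - 37 ^ ((0 : Fin 2) : ℕ)) * (37 ^ 2 - 37 ^ ((1 : Fin 2) : ℕ)) = 1822176 := by
    decide +kernel
  rw [h5] at h3
  omega

theorem cardP : Nat.card f.range = 8 := by
  have : Nat.card (QuaternionGroup 2) = Nat.card f.range :=
    Nat.card_congr (MonoidHom.ofInjective (f := f) (fun a b h => f0_inj a b h)).toEquiv
  rw [← this, Nat.card_eq_fintype_card, QuaternionGroup.card]

theorem noOdd (p : Q) (hp : p ∈ f.range) : ¬ Odd (orderOf (mX * p)) := by
  obtain ⟨a, rfl⟩ := hp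
  rintro ⟨k, hk⟩
  have h1 : (mX * f a) ^ 18 = -1 := pw a
  have h2 : ((mX * f a) ^ 18) ^ orderOf (mX * f a) = 1 := by
    rw [← pow_mul, mul_comm 18, pow_mul, pow_orderOf_eq_one, one_pow]
  rw [h1, hk, pow_succ, pow_mul, sq1, one_pow, one_mul] at h2
  exact ne1 h2

abbrev D := Multiplicative (ZMod 2)

theorem Dsq : ∀ x : D, x ^ 2 = 1 := by decide

theorem wreath {Q : Type} [Group Q] [Finite Q] (P : Subgroup Q) (hP : IsPGroup 2 P)
    (hi : ¬ 2 ∣ P.index) (X : Q) (hX : ∀ p ∈ P, ¬ Odd (orderOf (X * p))) :
    ¬ (∀ (G : Type) [Group G] [Finite G] (T : Sylow 2 G) (t : G),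
      t ∈ (T : Subgroup G) →
      (∀ x ∈ (T : Subgroup G), x * t = t * x) →
      orderOf t = 2 →
      ∀ g : G, ∃ c ∈ Subgroup.centralizer ({t} : Set G), Odd (orderOf (g * c))) := by
  classical
  intro H
  let G := RegularWreathProduct D Q
  let π : G →* Q := RegularWreathProduct.rightHom
  have hsq : ∀ x : G, x.right = 1 → x * x = 1 := by
    intro x hx
    refine RegularWreathProduct.ext (funext fun y => ?_) ?_
    · have := Dsq (x.left y)
      rw [pow_two] at this
      show x.left y * x.left (x.right⁻¹ * y) = 1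
      rw [hx, inv_one, one_mul, this]
    · show x.right * x.right = 1
      rw [hx, one_mul]
  have hker : IsPGroup 2 π.ker := by
    intro x
    refine ⟨1, Subtype.ext ?_⟩
    simpa [pow_two] using hsq x.1 x.2
  have hT : IsPGroup 2 (P.comap π) := hP.comap_of_ker_isPGroup π hker
  have hsurj : Function.Surjective π := fun q => ⟨RegularWreathProduct.inl q, rfl⟩
  have hTi : ¬ 2 ∣ (P.comap π).index := by rwa [Subgroup.index_comap_of_surjective _ hsurj]
  let u : D := Multiplicative.ofAdd 1
  have hu : u ≠ 1 := by decide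
  let t : G := ⟨fun y => if y ∈ P then u else 1, 1⟩
  have ht1 : t ≠ 1 := by
    intro h
    have : (if (1 : Q) ∈ P then u else 1) = 1 := congrFun (congrArg RegularWreathProduct.left h) 1
    simp only [P.one_mem, if_true] at this
    exact hu this
  obtain ⟨c, hc, hodd⟩ := H G (hT.toSylow hTi) t (by
      show π t ∈ P
      exact P.one_mem) (by
      intro x hx
      have hx' : x.right ∈ P := hx
      refine RegularWreathProduct.ext (funext fun y => ?_) ?_
      · have : (x.right⁻¹ * y ∈ P) ↔ y ∈ P := P.mul_mem_cancel_left (P.inv_mem hx')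
        show x.left y * (if x.right⁻¹ * y ∈ P then u else 1) =
          (if y ∈ P then u else 1) * x.left (1⁻¹ * y)
        simp only [inv_one, one_mul, this]
        rw [mul_comm]
      · show x.right * 1 = 1 * x.right
        simp)
    (orderOf_eq_prime (by rw [pow_two]; exact hsq t rfl) ht1) (RegularWreathProduct.inl X)
  have hc' : t * c = c * t := (Subgroup.mem_centralizer_iff.mp hc) t rfl
  have hcP : c.right ∈ P := by
    by_contra hn
    have : (if c.right ∈ P then u else 1) * c.left (1⁻¹ * c.right) =
        c.left c.right * (if c.right⁻¹ * c.right ∈ P then u else 1) :=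
      congrFun (congrArg RegularWreathProduct.left hc') c.right
    simp only [inv_one, one_mul, inv_mul_cancel, P.one_mem, if_true, hn, if_false] at this
    exact hu (by simpa using this.symm)
  apply hX c.right hcP
  have hd := orderOf_map_dvd π (RegularWreathProduct.inl X * c)
  have : π (RegularWreathProduct.inl X * c) = X * c.right := rfl
  rw [this] at hd
  exact hodd.of_dvd_nat hd


/-- The negation of the preceding statement: For every finite group G, Sylow 2-subgroup T and involution t central in T, every left coset g·C_G(t) of the centralizer of t contains an element of odd order. -/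
theorem result :
    ¬ (∀ (G : Type) [Group G] [Finite G] (T : Sylow 2 G) (t : G),
      t ∈ (T : Subgroup G) →
      (∀ x ∈ (T : Subgroup G), x * t = t * x) →
      orderOf t = 2 →
      ∀ g : G, ∃ c ∈ Subgroup.centralizer ({t} : Set G), Odd (orderOf (g * c))) := by
  refine wreath f.range (IsPGroup.of_card (n := 3) cardP) ?_ mX noOdd
  have h := f.range.card_mul_index
  rw [cardP, cardQ] at h
  omega

end Pool.Agent.S03186
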