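import Pool.Statements.S03208
import Pool.Agent.H76.AdjGen

set_option autoImplicit false
open Pool Pool.MP_d7a7a6_al

namespace Pool.Agent.S03208


/-- The negation of the preceding statement: There is one function f such that for every field F and every nilpotent associative F-algebra R, if the adjoint group of R is generated by d elements, then dim R is at most f(d). -/
theorem result :
    ¬ (∃ f : ℕ → ℕ, ∀ (F : Type) [Field F] (R : Type) [NonUnitalRing R] [Module F R]
      [IsScalarTower F R R] [SMulCommClass F R R],
      (∃ n : ℕ, ∀ x : Fin n → R,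
        (List.ofFn (fun i => (Unitization.inr (x i) : Unitization F R))).prod = 0) →
      ∀ d : ℕ, ∀ g : Fin d → (Unitization F R)ˣ,
        (∀ i, ∃ r : R, ((g i : (Unitization F R)ˣ) : Unitization F R) = 1 + Unitization.inr r) →
        (∀ r : R, ∃ u ∈ Subgroup.closure (Set.range g),
          (u : Unitization F R) = 1 + Unitization.inr r) →
        Module.rank F R ≤ (f d : Cardinal)) := by
  rintro ⟨f, hf⟩
  obtain ⟨g, h1, h2⟩ := H76.AdjGen.main (f 8 + 1)
  have h3 := hf (ZMod 2) (H76.AdjGen.R (f 8 + 1)) ⟨_, H76.AdjGen.nilp _⟩ 8 g h1 h2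
  have h4 := (H76.AdjGen.rank_ge (f 8 + 1)).trans h3
  have h5 : f 8 + 1 ≤ f 8 := by exact_mod_cast h4
  omega

end Pool.Agent.S03208
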