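import Pool.Statements.S03215
import Pool.Agent.H71.PLCube3

set_option autoImplicit false
open Pool Pool.MP_d888c1_al

namespace Pool.Agent.S03215

/-- For some n>1 there are PL homeomorphisms a, t_1..t_n of the cube [0,1]^(n-1) satisfying exactly the relations of Z wr Z^n faithfully, i.e. Z wr Z^n embeds in the PL homeomorphism group of the (n-1)-cube. -/
theorem result :
    ∃ n : ℕ, 1 < n ∧
      ∃ (a : Equiv.Perm (Set.Icc (0 : Fin (n - 1) → ℝ) 1))
        (t : Fin n → Equiv.Perm (Set.Icc (0 : Fin (n - 1) → ℝ) 1)),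
        (∀ g : Equiv.Perm (Set.Icc (0 : Fin (n - 1) → ℝ) 1),
            (g = a ∨ ∃ i, g = t i) →
              Continuous ⇑g ∧ Continuous ⇑g.symm ∧
              ∃ (k : ℕ) (S : Fin k → Finset (Fin (n - 1) → ℝ))
                (A : Fin k → ((Fin (n - 1) → ℝ) →ᵃ[ℝ] (Fin (n - 1) → ℝ))),
                (∀ x : Set.Icc (0 : Fin (n - 1) → ℝ) 1,
                    ∃ i, x.1 ∈ convexHull ℝ (↑(S i) : Set (Fin (n - 1) → ℝ))) ∧
                (∀ i, ∀ x : Set.Icc (0 : Fin (n - 1) → ℝ) 1,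
                    x.1 ∈ convexHull ℝ (↑(S i) : Set (Fin (n - 1) → ℝ)) →
                      (g x).1 = A i x.1)) ∧
        (∀ i j, t i * t j = t j * t i) ∧
        (∀ v w : Fin n → ℤ,
            Commute
              ((List.ofFn fun i => t i ^ v i).prod * a * ((List.ofFn fun i => t i ^ v i).prod)⁻¹)
              ((List.ofFn fun i => t i ^ w i).prod * a * ((List.ofFn fun i => t i ^ w i).prod)⁻¹)) ∧
        (∀ (l : List ((Fin n → ℤ) × ℤ)) (v : Fin n → ℤ),
            (l.map Prod.fst).Nodup →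
            (l.map (fun p : (Fin n → ℤ) × ℤ =>
                ((List.ofFn fun i => t i ^ p.1 i).prod * a *
                  ((List.ofFn fun i => t i ^ p.1 i).prod)⁻¹) ^ p.2)).prod *
              (List.ofFn fun i => t i ^ v i).prod = 1 →
            v = 0 ∧ ∀ p ∈ l, p.2 = 0) := by
  obtain ⟨w, hw⟩ := H71.PLCube.exists_w
  refine ⟨3, by norm_num, H71.PLCube.θ (H71.PLCube.sh (.ofAdd 1)),
    fun i => H71.PLCube.θ (H71.PLCube.dg (.ofAdd (w i))), ?_, ?_, ?_, ?_⟩
  · have key : ∀ g : H71.PLCube.G0, Continuous ⇑(H71.PLCube.θ g) ∧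
        Continuous ⇑(H71.PLCube.θ g).symm ∧
        ∃ (k : ℕ) (S : Fin k → Finset (Fin 2 → ℝ))
          (A : Fin k → ((Fin 2 → ℝ) →ᵃ[ℝ] (Fin 2 → ℝ))),
          (∀ x : Set.Icc (0 : Fin 2 → ℝ) 1,
              ∃ i, x.1 ∈ convexHull ℝ (↑(S i) : Set (Fin 2 → ℝ))) ∧
          (∀ i, ∀ x : Set.Icc (0 : Fin 2 → ℝ) 1,
              x.1 ∈ convexHull ℝ (↑(S i) : Set (Fin 2 → ℝ)) →
                (H71.PLCube.θ g x).1 = A i x.1) := by
      intro g
      refine ⟨H71.PLCube.θ_cont g, ?_, ?_⟩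
      · have := H71.PLCube.θ_cont g⁻¹
        rwa [map_inv] at this
      · obtain ⟨k, S, A, h1, h2⟩ := (H71.PLCube.pl_F g).final.2
        exact ⟨k, S, A, fun x => h1 x.1 x.2, fun i x hx => h2 i x.1 hx⟩
    rintro g (rfl | ⟨i, rfl⟩) <;> exact key _
  · intro i j
    simp only [← map_mul]
    rw [mul_comm]
  · intro v u
    rw [H71.PLCube.conj_a, H71.PLCube.conj_a]
    exact ((Commute.all _ _).map _).map _
  · intro l v hl h
    refine H71.PLCube.faithful hw l v hl ?_
    rw [← h, H71.PLCube.prod_t]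
    congr 2
    refine List.map_congr_left fun p _ => ?_
    rw [H71.PLCube.conj_a]

end Pool.Agent.S03215
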