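import Pool.Statements.S03236
import Pool.Agent.H65.Thom6

set_option autoImplicit false
open Pool Pool.MP_da3691_al

namespace Pool.Agent.S03236

/-- The negation of the preceding statement: Satisfiability of a single equation over Thompson's group F = ⟨x0,x1 : [x0x1⁻¹, x0⁻¹x1x0], [x0x1⁻¹, x0⁻²x1x0²]⟩ is decidable. Equations are words in unknowns and the generators, with signs. -/
theorem result :
    ¬ (∀ rels : Set (FreeGroup Bool),
      rels = {(FreeGroup.of false * (FreeGroup.of true)⁻¹) *
                ((FreeGroup.of false)⁻¹ * FreeGroup.of true * FreeGroup.of false) *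
                (FreeGroup.of false * (FreeGroup.of true)⁻¹)⁻¹ *
                ((FreeGroup.of false)⁻¹ * FreeGroup.of true * FreeGroup.of false)⁻¹,
              (FreeGroup.of false * (FreeGroup.of true)⁻¹) *
                ((FreeGroup.of false)⁻¹ * (FreeGroup.of false)⁻¹ * FreeGroup.of true *
                  FreeGroup.of false * FreeGroup.of false) *
                (FreeGroup.of false * (FreeGroup.of true)⁻¹)⁻¹ *
                ((FreeGroup.of false)⁻¹ * (FreeGroup.of false)⁻¹ * FreeGroup.of true *
                  FreeGroup.of false * FreeGroup.of false)⁻¹} →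
      ComputablePred (fun w : List ((ℕ ⊕ Bool) × Bool) =>
        ∃ σ : ℕ → PresentedGroup rels,
          (w.map (fun p : (ℕ ⊕ Bool) × Bool =>
            (if p.2 then
                Sum.elim σ (fun b : Bool => (PresentedGroup.of b : PresentedGroup rels)) p.1
              else
                (Sum.elim σ (fun b : Bool => (PresentedGroup.of b : PresentedGroup rels)) p.1)⁻¹ :
              PresentedGroup rels))).prod = 1)) := by
  intro h
  have h1 := h _ rfl
  generalize hr : ({_, _} : Set (FreeGroup Bool)) = rels at h1
  refine Pool.Agent.H65.Thom.pres_undec rels ?_ (h1.of_eq fun w => ?_)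
  · simp only [← hr, Pool.Agent.H65.Thom.dl, Pool.Agent.H65.Thom.X, pow_succ, pow_zero, one_mul,
      mul_inv_rev, mul_assoc]
  · refine exists_congr fun σ => ?_
    rw [Pool.Agent.H65.Thom.ev_mk]
    refine Eq.congr_left (congrArg List.prod (List.map_congr_left ?_))
    rintro ⟨n | _ | _, _ | _⟩ - <;> rfl

end Pool.Agent.S03236
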