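import Pool.Statements.S03238
import Pool.Agent.H67.Anti

set_option autoImplicit false
open Pool Pool.MP_da5d41_al

namespace Pool.Agent.S03238

/-- The negation of the preceding statement: Every infinite lattice generated by finitely many elements contains a finite antichain whose generated sublattice (the smallest subset containing it and closed under join and meet) is infinite. -/
theorem result :
    ¬ (∀ (L : Type) [Lattice L], Infinite L →
      (∃ G : Set L, G.Finite ∧
        ⋂₀ {S : Set L | G ⊆ S ∧ SupClosed S ∧ InfClosed S} = Set.univ) →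
      ∃ A : Set L, A.Finite ∧ IsAntichain (· ≤ ·) A ∧
        (⋂₀ {S : Set L | A ⊆ S ∧ SupClosed S ∧ InfClosed S}).Infinite) := by
  intro h
  obtain ⟨X, hX, ha, hi⟩ := h H67.AntiGen.T inferInstance
    ⟨{H67.AntiGen.A 1, H67.AntiGen.A 2, H67.AntiGen.B 1, H67.AntiGen.C 1}, Set.toFinite _,
      Set.eq_univ_of_forall fun x S hS => H67.AntiGen.gen S hS.1 hS.2.1 hS.2.2 x⟩
  obtain ⟨S, hS, h1⟩ := H67.AntiGen.main X hX ha
  exact hi (hS.subset (Set.sInter_subset_of_mem h1))

end Pool.Agent.S03238
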