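import Pool.Statements.S03259
import Pool.Agent.H74.WordPSL

set_option autoImplicit false
open Pool Pool.MP_dc02f5_al

namespace Pool.Agent.S03259

/-- For every algebraically closed field K of characteristic zero, every nontrivial word w in m letters gives a surjective word map on PSL₂(K), i.e. SL₂(K) modulo its center. -/
theorem result :
    ∀ (K : Type) [Field K] [IsAlgClosed K] [CharZero K] (m : ℕ) (w : FreeGroup (Fin m)),
      w ≠ 1 →
      Function.Surjective
        (fun x : Fin m → (Matrix.SpecialLinearGroup (Fin 2) K ⧸
            Subgroup.center (Matrix.SpecialLinearGroup (Fin 2) K)) =>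
          FreeGroup.lift x w) := by
  intro K _ _ _ m w hw
  exact Pool.Agent.H74.WordPSL.main w hw

end Pool.Agent.S03259
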