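import Pool.Statements.S03263
import Pool.Agent.H63.HA6

set_option autoImplicit false
open Pool Pool.MP_dc5bfb_al

namespace Pool.Agent.S03263

/-- There is a subshift X over a finite alphabet and a group G of shift-commuting block-code automorphisms of X that has an invariant finitely additive mean (amenable) and contains an infinite-order element g with word length of gⁿ over some finite set being o(n). -/
theorem result :
  ∃ k : ℕ, ∃ X : Set (ℤ → Fin k),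
    (∀ x : ℤ → Fin k, (∀ N : ℕ, ∃ y ∈ X, ∀ i : ℤ, |i| ≤ (N : ℤ) → y i = x i) → x ∈ X) ∧
    (∀ x ∈ X, (fun n : ℤ => x (n + 1)) ∈ X ∧ (fun n : ℤ => x (n - 1)) ∈ X) ∧
    ∃ G : Subgroup (Equiv.Perm X),
      (∀ φ ∈ G,
        (∀ x y : X, (∀ n : ℤ, (y : ℤ → Fin k) n = (x : ℤ → Fin k) (n + 1)) →
          ∀ n : ℤ, ((φ y : X) : ℤ → Fin k) n = ((φ x : X) : ℤ → Fin k) (n + 1)) ∧
        ∃ r : ℕ, ∀ x y : X,
          (∀ i : ℤ, |i| ≤ (r : ℤ) → (x : ℤ → Fin k) i = (y : ℤ → Fin k) i) →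
          ((φ x : X) : ℤ → Fin k) 0 = ((φ y : X) : ℤ → Fin k) 0) ∧
      (∃ m : Set G → ℝ, (∀ A, 0 ≤ m A) ∧ m Set.univ = 1 ∧
        (∀ A B, Disjoint A B → m (A ∪ B) = m A + m B) ∧
        (∀ (g : G) (A : Set G), m ((fun h : G => g * h) '' A) = m A)) ∧
      ∃ g : G, ¬ IsOfFinOrder g ∧
        ∃ S : Finset G, ∀ ε : ℝ, 0 < ε → ∃ N : ℕ, ∀ n : ℕ, N ≤ n →
          ∃ l : List G, (∀ s ∈ l, s ∈ S ∨ s⁻¹ ∈ S) ∧ l.prod = g ^ n ∧
            (l.length : ℝ) ≤ ε * (n : ℝ) := by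
  classical
  obtain ⟨k, h⟩ := H63.HA.main
  obtain ⟨X, -, h2, -, h4, ρ, h5, h6⟩ := h _ id Function.injective_id
  refine ⟨k, X, h2, fun x hx => ⟨h4 x hx 1, h4 x hx (-1)⟩, ρ.range, ?_,
    H63.HA.meanH _ ρ.rangeRestrict_surjective, ρ.rangeRestrict (H63.HA.mk 0 0 1), fun h => ?_,
    Finset.image ρ.rangeRestrict {H63.HA.mk 1 0 0, H63.HA.mk 0 1 0, H63.HA.mk (-1) 0 0,
      H63.HA.mk 0 (-1) 0, H63.HA.mk 0 0 1}, fun ε hε => ?_⟩
  · rintro _ ⟨g, rfl⟩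
    obtain ⟨F, ⟨a, r, b⟩, e⟩ := h6 g
    exact ⟨fun x y h n => by rw [e, e, funext h, a], r, fun x y h => by rw [e, e, b _ _ h]⟩
  · obtain ⟨n, hn, e⟩ := isOfFinOrder_iff_pow_eq_one.1 h
    have := h5 ((map_pow ρ _ n).trans ((congrArg Subtype.val e).trans ρ.map_one.symm))
    rw [H63.HA.mk_pow _ _ _ rfl] at this
    have : (n : ℤ) * 1 = 0 := congrArg (fun g : H63.HA.Hs ℤ => g.2.2) this
    omega
  · obtain ⟨N, hN⟩ := H63.HA.dist ε hε
    refine ⟨N, fun n hn => ?_⟩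
    obtain ⟨l, a, b, c⟩ := hN n hn
    refine ⟨l.map ρ.rangeRestrict, fun s hs => ?_, by rw [← map_list_prod, b, map_pow], by simpa using c⟩
    obtain ⟨g, hg, rfl⟩ := List.mem_map.1 hs
    exact .inl (Finset.mem_image_of_mem _ (by simpa using a g hg))

end Pool.Agent.S03263
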