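import Pool.Statements.S03280
import Pool.Agent.H67.TI4

set_option autoImplicit false
open Pool Pool.MP_de34bb_al

namespace Pool.Agent.S03280

/-- The negation of the preceding statement: In a finite group G, if a cyclic subgroup A of order 4 is a TI-subgroup and L is a component (subnormal quasisimple subgroup) with A meeting L·C(L) trivially, then A centralizes L. -/
theorem result :
    ¬ (∀ (G : Type) [Group G] [Finite G] (A L : Subgroup G),
      IsCyclic A → Nat.card A = 4 →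
      (∀ g : G, (∀ x ∈ A, g * x * g⁻¹ ∈ A → x = 1) ∨ (∀ x ∈ A, g * x * g⁻¹ ∈ A)) →
      L ≠ ⊥ →
      ⁅L, L⁆ = L →
      (∀ N : Subgroup G, N ≤ L → (∀ l ∈ L, ∀ n ∈ N, l * n * l⁻¹ ∈ N) →
          N = L ∨ N ≤ Subgroup.centralizer (L : Set G)) →
      (∃ n : ℕ, ∃ H : ℕ → Subgroup G, H 0 = L ∧ H n = ⊤ ∧
          ∀ i < n, H i ≤ H (i + 1) ∧ ∀ x ∈ H (i + 1), ∀ y ∈ H i, x * y * x⁻¹ ∈ H i) →
      A ⊓ (L ⊔ Subgroup.centralizer (L : Set G)) = ⊥ →
      A ≤ Subgroup.centralizer (L : Set G)) := by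
  intro h
  exact Pool.Agent.H67.TI4.not_cent
    (h Pool.Agent.H67.TI4.G Pool.Agent.H67.TI4.A Pool.Agent.H67.TI4.L
      (inferInstanceAs (IsCyclic (Subgroup.zpowers Pool.Agent.H67.TI4.a))) Pool.Agent.H67.TI4.cardA Pool.Agent.H67.TI4.TI
      Pool.Agent.H67.TI4.L_ne Pool.Agent.H67.TI4.L_perf Pool.Agent.H67.TI4.L_quasi
      Pool.Agent.H67.TI4.L_sub Pool.Agent.H67.TI4.inter)

end Pool.Agent.S03280
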