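import Pool.Statements.S03284
import Pool.Agent.H69.Pq3

set_option autoImplicit false
open Pool Pool.MP_debbfb_al

namespace Pool.Agent.S03284

/-- The negation of the preceding statement: If a group whose finitely generated subgroups are all finite equals AB for two subgroups A, B whose finitely generated subgroups are nilpotent, then every finitely generated subgroup of the group is solvable. -/
theorem result :
    ¬ (∀ (G : Type) [Group G],
      (∀ s : Finset G, Finite (Subgroup.closure (s : Set G))) →
      ∀ A B : Subgroup G,
        (∀ s : Finset G, (s : Set G) ⊆ (A : Set G) →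
          Group.IsNilpotent (Subgroup.closure (s : Set G))) →
        (∀ s : Finset G, (s : Set G) ⊆ (B : Set G) →
          Group.IsNilpotent (Subgroup.closure (s : Set G))) →
        (∀ g : G, ∃ a ∈ A, ∃ b ∈ B, g = a * b) →
        ∀ s : Finset G, IsSolvable (Subgroup.closure (s : Set G))) := by
  intro h
  classical
  obtain ⟨G, _, f, hf, h1, A, B, hA, hB, h2⟩ := H69.Pq.mmain H69.Pq.ach5
  have n : ∀ C : Subgroup G, IsPGroup 2 C → ∀ s : Finset G, (s : Set G) ⊆ (C : Set G) →
      Group.IsNilpotent (Subgroup.closure (s : Set G)) := fun C hC s hs =>
    haveI := h1 s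
    (hC.to_le ((Subgroup.closure_le _).2 hs)).isNilpotent
  have a : Group.IsSolvable _ := h G h1 A B (n A hA) (n B hB) h2 (Finset.univ.image f)
  refine Equiv.Perm.fin_5_not_solvable (solvable_of_solvable_injective
    (f := f.codRestrict (Subgroup.closure ((Finset.univ.image f : Finset G) : Set G))
      fun x => Subgroup.subset_closure (by simp)) fun x y e => hf (congrArg Subtype.val e))

end Pool.Agent.S03284
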