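import Pool.Statements.S03302
import Pool.Agent.H68.Q8C9

set_option autoImplicit false
open Pool Pool.MP_e00c87_al

namespace Pool.Agent.S03302

theorem result :
    ¬ (∀ (F : ∀ (H : Type) [Group H], Prop),
    (∀ (H K : Type) [Group H] [Group K] [Finite H] (f : H →* K),
        Function.Surjective f → F H → F K) →
    (∀ (H K₁ K₂ : Type) [Group H] [Group K₁] [Group K₂] [Finite H]
        (f₁ : H →* K₁) (f₂ : H →* K₂),
        Function.Surjective f₁ → Function.Surjective f₂ → F K₁ → F K₂ →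
        F ↥(f₁.prod f₂).range) →
    (∀ (H K : Type) [Group H] [Group K] [Finite H] (f : H →* K),
        Function.Surjective f → (∀ M : Subgroup H, IsCoatom M → f.ker ≤ M) →
        F K → F H) →
    ∀ (G : Type) [Group G] [Finite G],
      IsSolvable G → ¬ F G → (∀ K : Subgroup G, K ≠ ⊤ → F ↥K) →
      ∀ (p : ℕ) [Fact p.Prime] (R : Subgroup G),
        R = sInf {K : Subgroup G | ∃ (H : Type) (_ : Group H) (_ : Finite H),
              F H ∧ ∃ f : G →* H, Function.Surjective f ∧ f.ker = K} →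
        (∃ P : Sylow p G, (P : Subgroup G) = R) →
        ∃ n : ℕ, 0 < n ∧
          ∃ φ : GaloisField p (2 * n) × GaloisField p (2 * n) → G,
            (∀ x : GaloisField p (2 * n) × GaloisField p (2 * n),
                x.2 + x.2 ^ (p ^ n) + x.1 ^ (p ^ n + 1) = 0 → φ x ∈ R) ∧
            (∀ g ∈ R, ∃ x : GaloisField p (2 * n) × GaloisField p (2 * n),
                x.2 + x.2 ^ (p ^ n) + x.1 ^ (p ^ n + 1) = 0 ∧ φ x = g) ∧
            (∀ x y : GaloisField p (2 * n) × GaloisField p (2 * n),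
                x.2 + x.2 ^ (p ^ n) + x.1 ^ (p ^ n + 1) = 0 →
                y.2 + y.2 ^ (p ^ n) + y.1 ^ (p ^ n + 1) = 0 →
                φ (x.1 + y.1, x.2 + y.2 - x.1 * y.1 ^ (p ^ n)) = φ x * φ y)) := by
  open Pool.Agent.H68 Pool.Agent.H68.CubeForm Pool.Agent.H68.Q8C9 in
  intro H
  obtain ⟨n, hn, ψ, h1, h2, h3⟩ := H F (fun H K _ _ _ f hf => F_quot H K f hf)
    (fun H K₁ K₂ _ _ _ _ f₁ f₂ _ _ => F_prod H K₁ K₂ f₁ f₂)
    (fun H K _ _ _ f hf hk => F_sat H K f hf hk) G solv notF proper 2 _ resid sylow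
  obtain ⟨x, hx, hx'⟩ := h2 _ ⟨⟨1, 0, 0, 0⟩, rfl⟩
  obtain ⟨x2, hx2, hx2'⟩ := h2 _ ⟨⟨w, 0, 0, 0⟩, rfl⟩
  obtain ⟨u, hu, hu'⟩ := h2 _ ⟨⟨0, 1, 0, 0⟩, rfl⟩
  obtain ⟨v, hv, hv'⟩ := h2 _ ⟨⟨0, w, 0, 0⟩, rfl⟩
  rcases unitary_comm n hn (GaloisField.card 2 (2 * n) (by omega)) ψ h3 x u v hx hu hv with
    h | ⟨y, hy, h⟩
  · have := h x2 hx2
    rw [hx', hx2', ← map_mul, ← map_mul, SemidirectProduct.inl_inj] at this
    exact absurd this (by decide)
  · obtain ⟨y', hy'⟩ := h1 y hy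
    rw [hx', hu', hv', ← hy'] at h
    simp only [← map_mul, ← map_inv, SemidirectProduct.inl_inj] at h
    exact noncomm y' h

end Pool.Agent.S03302
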