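import Pool.Statements.S03306
import Pool.Agent.H74.WordSL2

set_option autoImplicit false
open Pool Pool.MP_e05a1e_al

namespace Pool.Agent.S03306

open Matrix Pool.Agent.H74.WordSL2

theorem word_eq {F : Type} [Field F] (A B : Matrix (Fin 2) (Fin 2) F) (hA : A.det = 1)
    (hB : B.det = 1) (ht : B.trace = A.trace) :
    A * A * B * A * B * B * A * B = phi A B (1, -(A.trace * (A * B).trace),
      A.trace * (A * B).trace * (1 - (A * B).trace),
      A.trace * (A * B).trace * (A.trace * ((A * B).trace - 1))) := by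
  have h0 : A = phi A B (0, 1, 0, 0) := by simp [phi]
  have e : A * A * B * A * B * B * A * B = phi A B (0, 1, 0, 0) * A * B * A * B * B * A * B := by
    rw [← h0]
  rw [e]
  simp only [phi_x A B hA ht, phi_y A B hB ht]
  generalize A.trace = s
  generalize (A * B).trace = u
  congr 1
  simp only [rx, ry, Prod.mk.injEq]
  refine ⟨?_, ?_, ?_, ?_⟩ <;> ring

theorem word_trace {F : Type} [Field F] (A B : Matrix (Fin 2) (Fin 2) F) (hA : A.det = 1)
    (hB : B.det = 1) (ht : B.trace = A.trace) :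
    (A * A * B * A * B * B * A * B).trace =
      2 + (A.trace * (A * B).trace) ^ 2 * ((A * B).trace - 2) := by
  rw [word_eq A B hA hB ht, trace_phi, ht]
  ring

theorem word_unip {F : Type} [Field F] (h2 : (2 : F) = 0) (A B : Matrix (Fin 2) (Fin 2) F)
    (hA : A.det = 1) (hB : B.det = 1) (ht : B.trace = A.trace)
    (h : (A * A * B * A * B * B * A * B).trace = 0) : A * A * B * A * B * B * A * B = 1 := by
  rw [word_trace A B hA hB ht, h2, zero_add, sub_zero] at h
  have h0 : A.trace * (A * B).trace = 0 := by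
    rcases mul_eq_zero.1 h with h | h
    · exact pow_eq_zero_iff (by norm_num) |>.1 h
    · rw [h, mul_zero]
  rw [word_eq A B hA hB ht, h0]
  simp [phi]

def w2 : FreeGroup (Fin 2) :=
  FreeGroup.mk [(0, true), (0, true), (1, true), (0, true), (1, false), (0, true),
    (1, true), (0, true), (0, true), (1, false), (0, true), (1, true), (0, true), (1, false)]

theorem lift_w2 {G : Type} [Group G] (x : Fin 2 → G) :
    FreeGroup.lift x w2 =
      x 0 * x 0 * (x 1 * x 0 * (x 1)⁻¹) * x 0 * (x 1 * x 0 * (x 1)⁻¹) * (x 1 * x 0 * (x 1)⁻¹)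
        * x 0 * (x 1 * x 0 * (x 1)⁻¹) := by
  simp [w2, FreeGroup.lift_mk, mul_assoc]

theorem trace_conj {F : Type} [Field F] (a b : Matrix.SpecialLinearGroup (Fin 2) F) :
    (b * a * b⁻¹ : Matrix.SpecialLinearGroup (Fin 2) F).1.trace = a.1.trace := by
  rw [Matrix.SpecialLinearGroup.coe_mul, trace_mul_comm, ← Matrix.SpecialLinearGroup.coe_mul,
    ← mul_assoc, inv_mul_cancel, one_mul]

theorem not_sq (v : FreeGroup (Fin 2)) : w2 ≠ v ^ 2 := by
  intro h
  let a : Matrix.SpecialLinearGroup (Fin 2) ℚ := ⟨!![1, 1; 0, 1], by simp [det_fin_two_of]⟩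
  let b : Matrix.SpecialLinearGroup (Fin 2) ℚ := ⟨!![1, 0; 2, 1], by simp [det_fin_two_of]⟩
  have h1 := congrArg (fun z => (FreeGroup.lift ![a, b] z).1.trace) h
  simp only [lift_w2, map_pow] at h1
  generalize FreeGroup.lift ![a, b] v = V at h1
  have h2 := word_trace a.1 (b * a * b⁻¹ : Matrix.SpecialLinearGroup (Fin 2) ℚ).1 a.2
    (b * a * b⁻¹ : Matrix.SpecialLinearGroup (Fin 2) ℚ).2 (trace_conj a b)
  simp only [← Matrix.SpecialLinearGroup.coe_mul] at h2
  have h3 : (a * (b * a * b⁻¹) : Matrix.SpecialLinearGroup (Fin 2) ℚ).1.trace = -2 := by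
    simp [a, b, Matrix.SpecialLinearGroup.coe_inv, adjugate_fin_two, trace_fin_two]
    norm_num
  have h4 : a.1.trace = 2 := by
    simp [a, trace_fin_two]
    norm_num
  have h5 : (V ^ 2).1.trace = V.1.trace ^ 2 - 2 := by
    rw [pow_two, Matrix.SpecialLinearGroup.coe_mul, sq_eq V.1 V.2]
    simp [trace_sub, trace_smul]
    ring
  simp only [Matrix.cons_val_zero, Matrix.cons_val_one] at h1
  rw [h2, h3, h4, h5] at h1
  nlinarith [sq_nonneg V.1.trace]

theorem not_pow2 (v : FreeGroup (Fin 2)) (k : ℕ) (hk : 2 ≤ k) : w2 ≠ v ^ k := by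
  intro h
  have h1 := congrArg (FreeGroup.lift ![Multiplicative.ofAdd (1 : ℤ), 1]) h
  rw [lift_w2, map_pow] at h1
  have h2 := congrArg Multiplicative.toAdd h1
  simp at h2
  have h3 : (k : ℤ) ∣ 8 := ⟨_, by rw [← h2]⟩
  have h4 : k ∣ 8 := by exact_mod_cast h3
  have h5 : k = 2 ∨ k = 4 ∨ k = 8 := by
    have := Nat.le_of_dvd (by norm_num) h4
    interval_cases k <;> simp_all
  rcases h5 with rfl | rfl | rfl
  · exact not_sq v h
  · exact not_sq (v ^ 2) (by rw [h, ← pow_mul])
  · exact not_sq (v ^ 4) (by rw [h, ← pow_mul])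

abbrev K : Type := AlgebraicClosure (ZMod 2)

theorem two_K : (2 : K) = 0 := by
  have : CharP K 2 := inferInstance
  exact CharP.cast_eq_zero K 2

noncomputable abbrev H : Subgroup (GL (Fin 2) K) := (Matrix.SpecialLinearGroup.toGL (n := Fin 2) (R := K)).range

theorem mem_H (g : GL (Fin 2) K) : g ∈ H ↔ (g : Matrix (Fin 2) (Fin 2) K).det = 1 := by
  constructor
  · rintro ⟨a, rfl⟩
    exact a.2
  · intro h
    exact ⟨⟨g, h⟩, by ext; rfl⟩

noncomputable def eH : Matrix.SpecialLinearGroup (Fin 2) K ≃* H :=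
  MonoidHom.ofInjective Matrix.SpecialLinearGroup.toGL_injective

theorem center_bot : Subgroup.center (Matrix.SpecialLinearGroup (Fin 2) K) = ⊥ := by
  rw [eq_bot_iff]
  intro z hz
  obtain ⟨r, hr, hr'⟩ := Matrix.SpecialLinearGroup.mem_center_iff.1 hz
  have hr1 : r = 1 := by
    have : (r - 1) ^ 2 = 0 := by
      rw [Fintype.card_fin] at hr
      linear_combination hr + (1 - r) * two_K
    exact sub_eq_zero.1 (pow_eq_zero_iff (by norm_num) |>.1 this)
  rw [Subgroup.mem_bot]
  apply Subtype.ext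
  rw [← hr', hr1]
  simp

theorem simple_H : IsSimpleGroup H := by
  have h1 : IsSimpleGroup (Matrix.ProjectiveSpecialLinearGroup (Fin 2) K) := by
    classical
    apply Matrix.ProjectiveSpecialLinearGroup.rank_two_simple'
    obtain ⟨a, ha⟩ := Infinite.exists_notMem_finset ({0, 1} : Finset K)
    simp only [Finset.mem_insert, Finset.mem_singleton, not_or] at ha
    refine ⟨a, ha.1, fun h => ha.2 ?_⟩
    have : (a - 1) ^ 2 = 0 := by linear_combination h + (1 - a) * two_K
    exact sub_eq_zero.1 (pow_eq_zero_iff (by norm_num) |>.1 this)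
  have e1 : Matrix.ProjectiveSpecialLinearGroup (Fin 2) K ≃* Matrix.SpecialLinearGroup (Fin 2) K :=
    (QuotientGroup.quotientMulEquivOfEq center_bot).trans QuotientGroup.quotientBot
  exact (e1.trans eH).symm.isSimpleGroup

noncomputable def psi : Fin 2 × Fin 2 → MvPolynomial (Fin 4) K := fun ij =>
  (!![1, MvPolynomial.X 0; 0, 1] * !![1, 0; MvPolynomial.X 1, 1] * !![1, MvPolynomial.X 2; 0, 1]
    * !![1, 0; MvPolynomial.X 3, 1] : Matrix (Fin 2) (Fin 2) (MvPolynomial (Fin 4) K)) ij.1 ij.2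

noncomputable def el (t : Fin 4 → K) : Matrix (Fin 2) (Fin 2) K :=
  !![1, t 0; 0, 1] * !![1, 0; t 1, 1] * !![1, t 2; 0, 1] * !![1, 0; t 3, 1]

theorem eval_psi (t : Fin 4 → K) (ij : Fin 2 × Fin 2) :
    MvPolynomial.eval t (psi ij) = el t ij.1 ij.2 := by
  obtain ⟨i, j⟩ := ij
  fin_cases i <;> fin_cases j <;> simp [psi, el]

theorem det_el (t : Fin 4 → K) : (el t).det = 1 := by
  simp [el, det_fin_two]
  ring

theorem el_surj (A : Matrix (Fin 2) (Fin 2) K) (hA : A.det = 1) : ∃ t, el t = A := by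
  rw [det_fin_two] at hA
  by_cases hc : A 1 0 = 0
  · have hd : A 1 1 ≠ 0 := by
      intro h
      rw [h, hc] at hA
      simp at hA
    refine ⟨![(A 0 0 + A 0 1 - 1) / A 1 1, A 1 1, (A 1 1 - 1) / A 1 1, -1], ?_⟩
    rw [hc] at hA
    ext i j
    fin_cases i <;> fin_cases j <;> simp [el, hc] <;> field_simp
    · linear_combination (-1) * hA
    · linear_combination hA
    · ring
    · ring
  · refine ⟨![(A 0 0 - 1) / A 1 0, A 1 0, (A 1 1 - 1) / A 1 0, 0], ?_⟩
    ext i j
    fin_cases i <;> fin_cases j <;> simp [el] <;> field_simp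
    · ring
    · linear_combination hA
    · ring

theorem eval_bind (t : Fin 4 → K) (p : MvPolynomial (Fin 2 × Fin 2) K) :
    MvPolynomial.eval t (MvPolynomial.bind₁ psi p)
      = MvPolynomial.eval (fun ij : Fin 2 × Fin 2 => el t ij.1 ij.2) p := by
  have : (fun ij => MvPolynomial.eval t (psi ij)) = fun ij : Fin 2 × Fin 2 => el t ij.1 ij.2 :=
    funext (eval_psi t)
  rw [← this]
  exact MvPolynomial.eval₂Hom_bind₁ _ _ _ _

theorem vanish_iff (p : MvPolynomial (Fin 2 × Fin 2) K) :
    (∀ g ∈ H, MvPolynomial.eval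
      (fun ij : Fin 2 × Fin 2 => (↑g : Matrix (Fin 2) (Fin 2) K) ij.1 ij.2) p = 0) ↔
      MvPolynomial.bind₁ psi p = 0 := by
  constructor
  · intro h
    apply MvPolynomial.funext
    intro t
    rw [eval_bind, map_zero]
    exact h (Matrix.SpecialLinearGroup.toGL ⟨el t, det_el t⟩) ⟨_, rfl⟩
  · intro h g hg
    obtain ⟨t, ht⟩ := el_surj _ ((mem_H g).1 hg)
    rw [← ht, ← eval_bind, h, map_zero]

/-- The negation of the preceding statement: For every algebraically closed K and every Zariski-closed irreducible subgroup of GL_n(K) that is simple as an abstract group, every word map from a word that is nontrivial and not a proper power is surjective. -/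
theorem result :
    ¬ (∀ (K : Type) [Field K] [IsAlgClosed K] (n : ℕ) (H : Subgroup (GL (Fin n) K)),
      (∃ S : Set (MvPolynomial (Fin n × Fin n) K), ∀ g : GL (Fin n) K,
        g ∈ H ↔ ∀ p ∈ S,
          MvPolynomial.eval (fun ij : Fin n × Fin n => (↑g : Matrix (Fin n) (Fin n) K) ij.1 ij.2) p = 0) →
      (∀ p q : MvPolynomial (Fin n × Fin n) K,
        (∀ g ∈ H, MvPolynomial.eval
            (fun ij : Fin n × Fin n => (↑g : Matrix (Fin n) (Fin n) K) ij.1 ij.2) (p * q) = 0) →
        (∀ g ∈ H, MvPolynomial.eval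
            (fun ij : Fin n × Fin n => (↑g : Matrix (Fin n) (Fin n) K) ij.1 ij.2) p = 0) ∨
        (∀ g ∈ H, MvPolynomial.eval
            (fun ij : Fin n × Fin n => (↑g : Matrix (Fin n) (Fin n) K) ij.1 ij.2) q = 0)) →
      IsSimpleGroup H →
      ∀ (d : ℕ) (w : FreeGroup (Fin d)), w ≠ 1 →
        (∀ (v : FreeGroup (Fin d)) (k : ℕ), 2 ≤ k → w ≠ v ^ k) →
        ∀ h : H, ∃ x : Fin d → H, FreeGroup.lift x w = h) := by
  intro hall
  let m : Matrix.SpecialLinearGroup (Fin 2) K := ⟨!![1, 1; 0, 1], by simp [det_fin_two_of]⟩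
  obtain ⟨x, hx⟩ := hall K 2 H
    ⟨{MvPolynomial.X (0, 0) * MvPolynomial.X (1, 1) - MvPolynomial.X (0, 1) * MvPolynomial.X (1, 0)
      - 1}, fun g => by
      rw [mem_H, det_fin_two]
      simp [sub_eq_zero]⟩
    (fun p q h => by
      rw [vanish_iff, map_mul] at h
      rw [vanish_iff, vanish_iff]
      exact mul_eq_zero.1 h)
    simple_H 2 w2 (fun h => not_sq 1 (by rw [h, one_pow])) not_pow2 (eH m)
  have h1 := congrArg eH.symm hx
  rw [lift_w2] at h1
  simp only [map_mul, map_inv, MulEquiv.symm_apply_apply] at h1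
  generalize eH.symm (x 0) = a at h1
  generalize eH.symm (x 1) = b at h1
  have h2 := word_unip two_K a.1 (b * a * b⁻¹ : Matrix.SpecialLinearGroup (Fin 2) K).1 a.2
    (b * a * b⁻¹ : Matrix.SpecialLinearGroup (Fin 2) K).2 (trace_conj a b)
  simp only [← Matrix.SpecialLinearGroup.coe_mul] at h2
  rw [h1] at h2
  have h3 := h2 (by
    simp only [m, trace_fin_two]
    simp
    linear_combination two_K)
  have h4 := congrFun (congrFun h3 0) 1
  simp [m] at h4

end Pool.Agent.S03306
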