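import Pool.Statements.S03319
import Pool.Agent.H73.FullTrans5

set_option autoImplicit false
open Pool Pool.MP_e12dda_al

namespace Pool.Agent.S03319

/-- There is a torsion-free abelian group whose nonzero elements all have the same type, where any nonzero a maps to any b of pointwise-larger characteristic by an endomorphism, yet some nonzero a, b of equal characteristic are not related by any automorphism. -/
theorem result :
    ∃ (G : Type) (_ : AddCommGroup G),
      (∀ (n : ℕ) (x : G), n ≠ 0 → n • x = 0 → x = 0) ∧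
      (∀ a b : G, a ≠ 0 → b ≠ 0 → ∃ n : ℕ, n ≠ 0 ∧
        ∀ p : ℕ, p.Prime → ∀ k : ℕ,
          (∃ y : G, p ^ k • y = a) → ∃ y : G, p ^ k • y = n • b) ∧
      (∀ a b : G, a ≠ 0 →
        (∀ p : ℕ, p.Prime → ∀ k : ℕ,
          (∃ y : G, p ^ k • y = a) → ∃ y : G, p ^ k • y = b) →
        ∃ f : G →+ G, f a = b) ∧
      ¬ (∀ a b : G, a ≠ 0 → b ≠ 0 →
        (∀ p : ℕ, p.Prime → ∀ k : ℕ,
          ((∃ y : G, p ^ k • y = a) ↔ ∃ y : G, p ^ k • y = b)) →
        ∃ f : G ≃+ G, f a = b) :=
  Pool.Agent.H73.FullTrans.main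

end Pool.Agent.S03319
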