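import Pool.Statements.S03355
import Pool.Agent.H86.KazC

set_option autoImplicit false
open Pool Pool.MP_e4245d_al

namespace Pool.Agent.S03355

open Pool.Agent.H86 Pool.Agent.H86.Roe Pool.Agent.H86.Kaz Equiv Finset

/-- exchange of the two copies -/
def sw : Perm (XX Bool) := Function.Involutive.toPerm (fun x => ⟨x.1, x.2.1, !x.2.2⟩) fun x => by
  simp

theorem sw_apply (s : ℕ) (x : SL s) (b : Bool) : sw ⟨s, x, b⟩ = ⟨s, x, !b⟩ := rfl

/-- two copies joined by one edge -/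
noncomputable def B0 : Box (XX Bool) :=
  Kaz.mk Bool sw (fun x => x.2.1 = 1) (fun x => by simp [sw]) (fun _ => Iff.rfl) (fun _ => rfl)
    (by rintro ⟨s, x, b⟩ - i c; simp [sw_apply])
    (by
      rintro ⟨s, x, b⟩ c h1 h2
      simp only at h1 h2
      rw [h1, mul_one] at h2
      simpa using el_eq (h2.trans (el_zero (n1 0)).symm))

instance : Infinite (XX Bool) :=
  Infinite.of_injective (fun s => (⟨s, 1, true⟩ : XX Bool)) fun _ _ h => congrArg Sigma.fst h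

theorem no_gap (e : XX Bool ≃ ℕ) {c : ℝ} (hc : 0 < c) :
    ¬ Gap ((B0.map e).L0 + (B0.map e).D) c := by
  classical
  refine (B0.map e).no_gap (fun y => (e.symm y).2.2) (fun i y => ?_) (fun y => ?_)
    (fun i => Commute.map (show Commute B0.τ (B0.g i) from rfl) _) (fun n => ?_) (fun N => ?_) hc
  · exact (congrArg (fun x : XX Bool => x.2.2) (e.symm_apply_apply (B0.g i (e.symm y)))).trans rfl
  · exact congrArg (fun x : XX Bool => x.2.2) (e.symm_apply_apply (B0.τ (e.symm y)))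
  · refine ⟨{e ⟨n, 1, true⟩, e ⟨n, 1, false⟩}, card_le_two, fun y h1 h2 => ?_⟩
    obtain ⟨⟨s, x, b⟩, rfl⟩ := e.surjective y
    simp only [Box.map, symm_apply_apply] at h1 h2
    obtain rfl : s = n := h2
    obtain rfl : x = 1 := h1
    cases b <;> simp
  · refine ⟨e ⟨N, 1, true⟩, show B0.A _ by rw [symm_apply_apply]; rfl, fun i hi j hj h => ?_⟩
    have h1 : B0.w i ⟨N, 1, true⟩ = B0.w j ⟨N, 1, true⟩ := by
      simpa [Box.map, permCongrHom] using h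
    have h2 : el 0 1 (by decide) (t N ^ i) = el 0 1 (by decide) (t N ^ j) := by
      simpa [B0, Kaz.mk, ρ_apply] using h1
    have h3 : N ≤ 13 ^ N := (Nat.lt_pow_self (by norm_num)).le
    exact t_inj ((le_of_lt hi).trans h3) ((le_of_lt hj).trans h3) (by simpa using el_eq h2)

/-- There is a bounded-degree graph on ℕ with finite components whose Laplacian has a uniform spectral gap in every *-representation of finite-propagation operators killing ghosts, yet has no spectral gap on ℓ², i.e. is not an expander. -/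
theorem result :
  ∃ G : SimpleGraph ℕ,
    (∃ D : ℕ, ∀ x : ℕ, (G.neighborSet x).Finite ∧ (G.neighborSet x).ncard ≤ D) ∧
    (∀ x : ℕ, {y : ℕ | G.Reachable x y}.Finite) ∧
    ∃ L : lp (fun _ : ℕ => ℂ) 2 →L[ℂ] lp (fun _ : ℕ => ℂ) 2,
      (∀ x : ℕ, inner ℂ (lp.single 2 x (1 : ℂ) : lp (fun _ : ℕ => ℂ) 2)
          (L (lp.single 2 x (1 : ℂ) : lp (fun _ : ℕ => ℂ) 2)) = ((G.neighborSet x).ncard : ℂ)) ∧
      (∀ x y : ℕ, G.Adj x y → inner ℂ (lp.single 2 y (1 : ℂ) : lp (fun _ : ℕ => ℂ) 2)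
          (L (lp.single 2 x (1 : ℂ) : lp (fun _ : ℕ => ℂ) 2)) = -1) ∧
      (∀ x y : ℕ, x ≠ y → ¬ G.Adj x y → inner ℂ (lp.single 2 y (1 : ℂ) : lp (fun _ : ℕ => ℂ) 2)
          (L (lp.single 2 x (1 : ℂ) : lp (fun _ : ℕ => ℂ) 2)) = 0) ∧
      (∀ P Gh : Set (lp (fun _ : ℕ => ℂ) 2 →L[ℂ] lp (fun _ : ℕ => ℂ) 2),
        (∀ T, T ∈ P ↔ ∃ R : ℕ, ∀ x y : ℕ,
            inner ℂ (lp.single 2 y (1 : ℂ) : lp (fun _ : ℕ => ℂ) 2)
              (T (lp.single 2 x (1 : ℂ) : lp (fun _ : ℕ => ℂ) 2)) ≠ 0 →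
            G.edist x y ≤ (R : ℕ∞)) →
        (∀ T, T ∈ Gh ↔ ∀ ε : ℝ, 0 < ε → ∃ F : Finset ℕ, ∀ x y : ℕ, x ∉ F →
            ‖inner ℂ (lp.single 2 y (1 : ℂ) : lp (fun _ : ℕ => ℂ) 2)
              (T (lp.single 2 x (1 : ℂ) : lp (fun _ : ℕ => ℂ) 2))‖ < ε) →
        ∃ c : ℝ, 0 < c ∧
          ∀ (H : Type) [NormedAddCommGroup H] [InnerProductSpace ℂ H] [CompleteSpace H]
            (π : (lp (fun _ : ℕ => ℂ) 2 →L[ℂ] lp (fun _ : ℕ => ℂ) 2) → (H →L[ℂ] H)),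
            (∀ S ∈ P, ∀ T ∈ P, π (S + T) = π S + π T ∧ π (S * T) = π S * π T) →
            (∀ a : ℂ, ∀ T ∈ P, π (a • T) = a • π T) →
            (∀ T ∈ P, π (star T) = star (π T)) →
            (∀ T ∈ P, T ∈ Gh → π T = 0) →
            spectrum ℂ (π L) ⊆ {z : ℂ | z = 0 ∨ (z.im = 0 ∧ c ≤ z.re)}) ∧
      ¬ ∃ c : ℝ, 0 < c ∧ spectrum ℂ L ⊆ {z : ℂ | z = 0 ∨ (z.im = 0 ∧ c ≤ z.re)} := by
  obtain ⟨e⟩ := nonempty_equiv_of_countable (α := XX Bool) (β := ℕ)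
  have hδ : ∀ x : ℕ, (lp.single 2 x (1 : ℂ) : lp (fun _ : ℕ => ℂ) 2) = δ x := fun x => by
    rw [δ]
    congr
    exact Subsingleton.elim _ _
  simp only [hδ, inner_δ]
  set B := B0.map e
  refine ⟨B.G, ⟨13, fun x => ⟨?_, ?_⟩⟩, fun x => (B.fin (B.l x + 1)).subset fun y hy => ?_,
    B.L0 + B.D, B.ent_diag, fun x y => B.ent_adj, fun x y => B.ent_nadj, fun P Gh hP hG =>
    ⟨1 / 2, by norm_num, fun K _ _ _ π h1 h2 h3 h4 => ?_⟩, fun ⟨c, hc, h⟩ => no_gap e hc ?_⟩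
  · rw [B.nbr]
    exact finite_toSet _
  · rw [B.deg]
    split_ifs <;> norm_num
  · simp [B.reach_lev hy]
  · obtain rfl : P = FPG B.G := Set.ext hP
    refine B.gap_L ⟨fun S hS T hT => (h1 S hS T hT).1, fun S hS T hT => (h1 S hS T hT).2, h2, h3⟩
      fun n k _ => ?_
    rw [h4 _ (mul_mem B.D_mem (Ind_mem _ _)) ((hG _).mpr fun ε hε =>
      ⟨(B.fin n).toFinset, fun x y hx => ?_⟩), zero_apply]
    rw [mul_apply_eq_comp, Ind_δ, if_neg (by simpa using hx)]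
    simpa using hε
  · exact (gap_iff ((B.pos_L0 (rep_id _)).add (B.pos_D (rep_id _))) hc).mp h

end Pool.Agent.S03355
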