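import Pool.Statements.S03369
import Pool.Agent.H67.Loop3

set_option autoImplicit false
open Pool Pool.MP_e54950_al

namespace Pool.Agent.S03369

/-- Every idempotent algebra (any carrier, any signature of finitary operations) that has a Taylor term operation also has a 4-ary term operation e with e(v,v,u,u) = e(v,u,v,u) = e(u,u,u,v) for all u, v. -/
theorem result :
    ∀ (A : Type) (ι : Type) (ar : ι → ℕ) (op : (i : ι) → (Fin (ar i) → A) → A),
      (∀ (i : ι) (a : A), op i (fun _ => a) = a) →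
      (∃ n : ℕ, ∃ t : (Fin n → A) → A,
        (∀ S : Set ((Fin n → A) → A),
          (∀ j : Fin n, (fun x : Fin n → A => x j) ∈ S) →
          (∀ (i : ι) (g : Fin (ar i) → (Fin n → A) → A), (∀ k, g k ∈ S) →
              (fun x : Fin n → A => op i (fun k => g k x)) ∈ S) →
          t ∈ S) ∧
        ∀ j : Fin n, ∃ u v : Fin n → Bool, u j = true ∧ v j = false ∧
          ∀ x y : A, t (fun k => cond (u k) x y) = t (fun k => cond (v k) x y)) →
      ∃ e : (Fin 4 → A) → A,
        (∀ S : Set ((Fin 4 → A) → A),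
          (∀ j : Fin 4, (fun x : Fin 4 → A => x j) ∈ S) →
          (∀ (i : ι) (g : Fin (ar i) → (Fin 4 → A) → A), (∀ k, g k ∈ S) →
              (fun x : Fin 4 → A => op i (fun k => g k x)) ∈ S) →
          e ∈ S) ∧
        ∀ a b : A, e ![b, b, a, a] = e ![b, a, b, a] ∧ e ![b, a, b, a] = e ![a, a, a, b] := by
  rintro A ι ar op hid ⟨n, t, htc, hT⟩
  let Cl : ((Fin 4 → A) → A) → Prop := fun e => ∀ S : Set ((Fin 4 → A) → A),
    (∀ j : Fin 4, (fun x : Fin 4 → A => x j) ∈ S) →
    (∀ (i : ι) (g : Fin (ar i) → (Fin 4 → A) → A), (∀ k, g k ∈ S) →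
      (fun x : Fin 4 → A => op i (fun k => g k x)) ∈ S) → e ∈ S
  have ht : ∀ a, t (fun _ => a) = a := fun a =>
    htc {g | g (fun _ => a) = a} (fun _ => rfl) fun i g hg => by
      simp only [Set.mem_setOf_eq] at hg ⊢
      simp only [hg, hid]
  have hc : ∀ e : Fin n → (Fin 4 → A) → A, (∀ k, Cl (e k)) → Cl fun x => t fun k => e k x :=
    fun e he S h1 h2 => htc {g | (fun x => g fun k => e k x) ∈ S} (fun k => he k S h1 h2)
      fun i g hg => h2 i (fun k x => g k fun j => e j x) hg
  obtain ⟨c, e, he, h1, h2, h3⟩ := H67.LLL.edge (B := A → A → A)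
    (t := fun g a b => t fun k => g k a b) (fun x => funext fun a => funext fun b => ht _)
    (fun j => by
      obtain ⟨u, v, hu, hv, h⟩ := hT j
      refine ⟨u, v, hu, hv, fun x y => funext fun a => funext fun b => ?_⟩
      have e : ∀ w : Fin n → Bool, (fun k => cond (w k) x y a b) =
          fun k => cond (w k) (x a b) (y a b) := fun w => funext fun k => by cases w k <;> rfl
      rw [e, e, h])
    (R := fun x y z => ∃ e, Cl e ∧ (x = fun a b => e ![b, b, a, a]) ∧
      (y = fun a b => e ![b, a, b, a]) ∧ z = fun a b => e ![a, a, a, b])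
    (fun x y z h => by
      choose e he h1 h2 h3 using h
      exact ⟨_, hc e he, by simp only [h1], by simp only [h2], by simp only [h3]⟩)
    (o := fun a _ => a) (l := fun _ b => b)
    ⟨_, fun S h _ => h 0, rfl, rfl, rfl⟩ ⟨_, fun S h _ => h 1, rfl, rfl, rfl⟩
    ⟨_, fun S h _ => h 2, rfl, rfl, rfl⟩ ⟨_, fun S h _ => h 3, rfl, rfl, rfl⟩
  exact ⟨e, he, fun a b => ⟨congrFun₂ (h1.symm.trans h2) a b, congrFun₂ (h2.symm.trans h3) a b⟩⟩

end Pool.Agent.S03369
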