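import Pool.Statements.S03388
import Pool.Agent.H74.CoHopf

set_option autoImplicit false
open Pool Pool.MP_e6a096_al

namespace Pool.Agent.S03388

open Pool.Agent.H74.CoHopf

/-- The negation of the preceding statement: If T is a finitely generated subsemigroup of finite Green index in a semigroup S, T is co-hopfian, and every T-relative Schützenberger group of an H^T-class outside T is co-hopfian, then every injective endomorphism of S is surjective. -/
theorem result :
    ¬ (∀ (S : Type) [Semigroup S] (T : Subsemigroup S) (Hrel : S → S → Prop),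
      (∀ u v : S, Hrel u v ↔
        ((v = u ∨ ∃ t ∈ T, v = u * t) ∧ (u = v ∨ ∃ t ∈ T, u = v * t) ∧
         (v = u ∨ ∃ t ∈ T, v = t * u) ∧ (u = v ∨ ∃ t ∈ T, u = t * v))) →
      (∃ A : Finset S, Subsemigroup.closure (A : Set S) = T) →
      (∃ F : Finset S, ∀ u : S, u ∉ T → ∃ f ∈ F, Hrel u f) →
      (∀ f : T →ₙ* T, Function.Injective f → Function.Surjective f) →
      (∀ u : S, u ∉ T →
        ∀ G : Set ({h : S // Hrel u h} → {h : S // Hrel u h}),
          (∀ g : {h : S // Hrel u h} → {h : S // Hrel u h}, g ∈ G ↔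
            (g = id ∨ ∃ t ∈ T,
              (∀ h : {h : S // Hrel u h}, ∃ h' : {h : S // Hrel u h}, h'.1 * t = h.1) ∧
              ∀ h : {h : S // Hrel u h}, (g h).1 = h.1 * t)) →
          ∀ φ : ({h : S // Hrel u h} → {h : S // Hrel u h}) →
                ({h : S // Hrel u h} → {h : S // Hrel u h}),
            (∀ g ∈ G, φ g ∈ G) →
            (∀ g ∈ G, ∀ g' ∈ G, φ (g ∘ g') = φ g ∘ φ g') →
            Set.InjOn φ G →
            ∀ g ∈ G, ∃ g' ∈ G, φ g' = g) →
      ∀ f : S →ₙ* S, Function.Injective f → Function.Surjective f) := by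
  intro hall
  classical
  let T : Subsemigroup G := H.toSubmonoid.toSubsemigroup
  have hT : ∀ x, x ∈ T ↔ x ∈ H := fun x => Iff.rfl
  let Hrel : G → G → Prop := fun u v => u⁻¹ * v ∈ H
  refine phi_not_surj (hall G T Hrel ?_ ?_ ?_ ?_ ?_ phi.toMulHom phi_inj)
  · intro u v
    have hnorm : H.Normal := inferInstance
    constructor
    · intro h
      refine ⟨Or.inr ⟨u⁻¹ * v, h, by group⟩, Or.inr ⟨(u⁻¹ * v)⁻¹, H.inv_mem h, by group⟩,
        Or.inr ⟨u * (u⁻¹ * v) * u⁻¹, hnorm.conj_mem _ h u, by group⟩,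
        Or.inr ⟨u * (u⁻¹ * v)⁻¹ * u⁻¹, hnorm.conj_mem _ (H.inv_mem h) u, by group⟩⟩
    · rintro ⟨h | ⟨t, ht, h⟩, -⟩
      · show u⁻¹ * v ∈ H
        rw [h, inv_mul_cancel]
        exact H.one_mem
      · show u⁻¹ * v ∈ H
        rw [h, inv_mul_cancel_left]
        exact ht
  · let A : Finset G := {cc 1, nn (Finsupp.single 0 1), ss}
    have hA : Subgroup.closure (A : Set G) = H := by
      rw [← H_closure]
      congr 1
      simp [A]
    refine ⟨insert 1 (A ∪ A.image (fun x => x⁻¹)), le_antisymm ?_ ?_⟩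
    · rw [Subsemigroup.closure_le]
      intro x hx
      simp only [Finset.coe_insert, Finset.coe_union, Finset.coe_image, Set.mem_insert_iff,
        Set.mem_union, Set.mem_image] at hx
      rcases hx with rfl | hx | ⟨y, hy, rfl⟩
      · exact H.one_mem
      · have : x ∈ H := hA ▸ Subgroup.subset_closure hx
        exact this
      · have : y ∈ H := hA ▸ Subgroup.subset_closure hy
        exact H.inv_mem this
    · intro x hx
      have hx' : x ∈ Subgroup.closure (A : Set G) := hA.symm ▸ hx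
      refine Subgroup.closure_induction'' (fun y hy => ?_) (fun y hy => ?_) ?_
        (fun y z _ _ hy hz => Subsemigroup.mul_mem _ hy hz) hx'
      · apply Subsemigroup.subset_closure
        simp only [Finset.coe_insert, Finset.coe_union, Set.mem_insert_iff, Set.mem_union]
        exact Or.inr (Or.inl hy)
      · apply Subsemigroup.subset_closure
        simp only [Finset.coe_insert, Finset.coe_union, Finset.coe_image, Set.mem_insert_iff,
          Set.mem_union, Set.mem_image]
        exact Or.inr (Or.inr ⟨y, hy, rfl⟩)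
      · apply Subsemigroup.subset_closure
        simp
  · refine ⟨Finset.univ.image (fun v : Fˣ => (⟨0, 0, 0, v⟩ : G)), fun u _ => ?_⟩
    refine ⟨⟨0, 0, 0, chi u⟩, Finset.mem_image_of_mem _ (Finset.mem_univ _), ?_⟩
    show u⁻¹ * _ ∈ chi.ker
    rw [MonoidHom.mem_ker, map_mul, map_inv]
    have : chi (⟨0, 0, 0, chi u⟩ : G) = chi u := by
      show chi u * two ^ (-(0 : ℤ)) = chi u
      simp
    rw [this, inv_mul_cancel]
  · intro f hf
    let f' : H →* H := MonoidHom.mk' (fun x => ⟨(f ⟨x.1, x.2⟩).1, (f ⟨x.1, x.2⟩).2⟩) (by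
      intro x y
      apply Subtype.ext
      exact congrArg Subtype.val (f.map_mul ⟨x.1, x.2⟩ ⟨y.1, y.2⟩))
    have hf' : Function.Injective f' := by
      intro x y e
      have e1 : f ⟨x.1, x.2⟩ = f ⟨y.1, y.2⟩ := Subtype.ext (congrArg Subtype.val e)
      exact Subtype.ext (congrArg Subtype.val (hf e1))
    intro y
    obtain ⟨x, hx⟩ := H_cohopf f' hf' ⟨y.1, y.2⟩
    exact ⟨⟨x.1, x.2⟩, Subtype.ext (congrArg Subtype.val hx)⟩
  · intro u _ S hS φ h1 h2 h3
    let ρ : H → {h : G // Hrel u h} → {h : G // Hrel u h} := fun t h =>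
      ⟨h.1 * t, by
        show u⁻¹ * (h.1 * t) ∈ H
        rw [← mul_assoc]
        exact H.mul_mem h.2 t.2⟩
    have hρ : ∀ g, g ∈ S ↔ ∃ t, g = ρ t := by
      intro g
      rw [hS]
      constructor
      · rintro (rfl | ⟨t, ht, -, hg⟩)
        · exact ⟨1, by funext h; apply Subtype.ext; simp [ρ]⟩
        · exact ⟨⟨t, ht⟩, by funext h; apply Subtype.ext; exact hg h⟩
      · rintro ⟨t, rfl⟩
        exact Or.inr ⟨t.1, t.2, fun h => ⟨ρ t⁻¹ h, by simp [ρ]⟩, fun h => rfl⟩
    have hρinj : Function.Injective ρ := by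
      intro t t' e
      have hu : Hrel u u := by
        show u⁻¹ * u ∈ H
        rw [inv_mul_cancel]
        exact H.one_mem
      have := congrArg Subtype.val (congrFun e ⟨u, hu⟩)
      exact Subtype.ext (mul_left_cancel this)
    have hρmul : ∀ t t', ρ (t' * t) = ρ t ∘ ρ t' := by
      intro t t'
      funext h
      apply Subtype.ext
      simp [ρ, mul_assoc]
    have hmem : ∀ t, ρ t ∈ S := fun t => (hρ _).2 ⟨t, rfl⟩
    choose ψ hψ using fun t => (hρ _).1 (h1 _ (hmem t))
    let ψ' : H →* H := MonoidHom.mk' ψ (by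
      intro x y
      apply hρinj
      rw [← hψ, hρmul, hρmul, h2 _ (hmem _) _ (hmem _), hψ, hψ])
    have hψinj : Function.Injective ψ' := by
      intro x y e
      apply hρinj
      apply h3 (hmem _) (hmem _)
      rw [hψ, hψ]
      exact congrArg ρ e
    intro g hg
    obtain ⟨t, rfl⟩ := (hρ _).1 hg
    obtain ⟨x, hx⟩ := H_cohopf ψ' hψinj t
    exact ⟨ρ x, hmem x, by rw [hψ]; exact congrArg ρ hx⟩

end Pool.Agent.S03388
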