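import Pool.Statements.S03444
import Pool.Agent.H68.Mod5

set_option autoImplicit false
open Pool Pool.MP_ea8b67_al

namespace Pool.Agent.S03444

theorem result :
    ¬ (∀ (SF : ((G : Type) → [Group G] → Prop) → Prop),
      SF = (fun (F : (G : Type) → [Group G] → Prop) =>
        (∀ (G : Type) [Group G], F G → Finite G ∧ IsSolvable G) ∧
        (∃ (G : Type) (_ : Group G), F G) ∧
        (∀ (G H : Type) [Group G] [Group H], (G ≃* H) → F G → F H) ∧
        (∀ (G : Type) [Group G] (N : Subgroup G), N.Normal → F G → F N) ∧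
        (∀ (G : Type) [Group G] [Finite G] (N M : Subgroup G),
          N.Normal → M.Normal → F N → F M → F ↥(N ⊔ M))) →
      ∀ (X Y Z : (G : Type) → [Group G] → Prop),
        SF X → SF Y → SF Z →
        (∀ (G : Type) [Group G], X G → Z G) →
        ∀ (G : Type) [Group G],
          ((∀ (F : (G : Type) → [Group G] → Prop), SF F →
              (∀ (H : Type) [Group H], X H → F H) →
              (∀ (H : Type) [Group H], Y H → F H) → F G) ∧ Z G) →
          ∀ (F : (G : Type) → [Group G] → Prop), SF F →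
            (∀ (H : Type) [Group H], X H → F H) →
            (∀ (H : Type) [Group H], (Y H ∧ Z H) → F H) → F G) := by
  open Pool.Agent.H68.Fit Pool.Agent.H68.Mod in
  intro h
  obtain ⟨X, Y, Z, hX, hY, hZ, h1, h2, h3, h4, h5⟩ := main
  have k := fun (F : (G : Type) → [Group G] → Prop) (hF : FC F) =>
    And.intro hF.fin (And.intro (⟨Unit, inferInstance, hF.unit⟩ : ∃ (G : Type) (_ : Group G), F G)
      (And.intro hF.iso (And.intro hF.normal hF.sup)))
  refine h4 (h _ rfl X Y Z (k X hX) (k Y hY) (k Z hZ) h1 _ ⟨fun F hF a b => h5 F ?_ a b, h3⟩ X (k X hX)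
    (fun _ _ a => a) h2)
  obtain ⟨a1, ⟨G, _, a2⟩, a3, a4, a5⟩ := hF
  exact ⟨a1, a3 _ _ (MulEquiv.ofUnique (M := (⊥ : Subgroup G)) (N := Unit)) (a4 G ⊥ inferInstance a2),
    a3, a4, a5⟩

end Pool.Agent.S03444
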