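import Pool.Statements.S03452
import Pool.Agent.H69.Pq2

set_option autoImplicit false
open Pool Pool.MP_ead43b_al

namespace Pool.Agent.S03452

/-- The negation of the preceding statement: Suppose every finitely generated subgroup of a group G is soluble, and every element of G is a product ab with a, b taken from two periodic subgroups A and B. Then every element of G has finite order. -/
theorem result :
    ¬ (∀ (G : Type) [Group G],
      (∀ S : Finset G, IsSolvable (Subgroup.closure (S : Set G))) →
      ∀ A B : Subgroup G,
        (∀ a ∈ A, IsOfFinOrder a) →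
        (∀ b ∈ B, IsOfFinOrder b) →
        (∀ g : G, ∃ a ∈ A, ∃ b ∈ B, g = a * b) →
        Monoid.IsTorsion G) := by
  intro h
  obtain ⟨G, _, h1, ⟨z, hz⟩, A, B, hA, hB, h2⟩ := H69.Pq.zmain
  exact hz (h G h1 A B hA hB h2 z)

end Pool.Agent.S03452
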