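import Pool.Statements.S03458
import Pool.Agent.H71.Tree3

set_option autoImplicit false
open Pool Pool.MP_eb9bd3_al

namespace Pool.Agent.S03458

/-- The negation of the preceding statement: In every group with no element of order 2, the elements g such that every h has some iterated commutator [h,g,...,g] equal to 1 are exactly the members of some subgroup. -/
theorem result :
    ¬ (∀ (G : Type) [Group G], (∀ x : G, orderOf x ≠ 2) →
      ∃ H : Subgroup G, ∀ g : G,
        g ∈ H ↔ ∀ h : G, ∃ k : ℕ, (fun x : G => x⁻¹ * g⁻¹ * x * g)^[k] h = 1) := by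
  intro h
  obtain ⟨n, a, b, ha, hb, x, hx⟩ := H71.Tree.main
  obtain ⟨H, hH⟩ := h _ fun x e => by
    have := n x (by rw [← pow_two, ← e, pow_orderOf_eq_one])
    simp [this] at e
  obtain ⟨k, hk⟩ := (hH _).1 (H.mul_mem ((hH a).2 ha) ((hH b).2 hb)) x
  exact hx k hk

end Pool.Agent.S03458
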