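import Pool.Statements.S03495
import Pool.Agent.H73.AdPure

set_option autoImplicit false
open Pool Pool.MP_ef54ea_al

namespace Pool.Agent.S03495

/-- There is a field K and a simple Lie algebra L over K such that for every a in L, every finite-dimensional subspace of L invariant under ad a is killed by ad a. -/
theorem result :
    ∃ (K : Type) (_ : Field K) (L : Type) (_ : LieRing L) (_ : LieAlgebra K L),
      LieAlgebra.IsSimple K L ∧
      ∀ a : L, ∀ V : Submodule K L, FiniteDimensional K V →
        (∀ v ∈ V, ⁅a, v⁆ ∈ V) → ∀ v ∈ V, ⁅a, v⁆ = 0 :=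
  Pool.Agent.H73.AdPure.main

end Pool.Agent.S03495
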