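import Pool.Statements.S03501
import Pool.Agent.H51.SwitchC

set_option autoImplicit false
open Pool Pool.MP_f0391a_al

namespace Pool.Agent.S03501
open Pool.Agent.H51.SwitchA Pool.Agent.H51.SwitchB Pool.Agent.H51.SwitchC

/-- The orbit algebra over ℚ of the switching-automorphism group of the random graph is generated by an algebraically independent family of homogeneous elements, i.e. it is a polynomial ring. -/
theorem result :
  ∀ K : Ideal (MvPowerSeries ℕ ℚ),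
    K = Ideal.span {f : MvPowerSeries ℕ ℚ |
      ∀ s : ℕ →₀ ℕ, (∀ i, s i ≤ 1) → MvPowerSeries.coeff s f = 0} →
  ∀ T : Set (MvPowerSeries ℕ ℚ),
    T = {f : MvPowerSeries ℕ ℚ |
      (∀ σ : Equiv.Perm ℕ,
        (∃ S : Set ℕ, ∀ i j : ℕ, i ≠ j →
          ((Nat.testBit (σ j) (σ i) = true ∨ Nat.testBit (σ i) (σ j) = true) ↔
            ((Nat.testBit j i = true ∨ Nat.testBit i j = true) ↔ (i ∈ S ↔ j ∈ S)))) →
        ∀ s : ℕ →₀ ℕ,
          MvPowerSeries.coeff (Finsupp.equivMapDomain σ s) f = MvPowerSeries.coeff s f) ∧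
      ∃ N : ℕ, ∀ s : ℕ →₀ ℕ, N ≤ s.sum (fun _ e => e) → MvPowerSeries.coeff s f = 0} →
  ∃ (ι : Type) (x : ι → MvPowerSeries ℕ ℚ ⧸ K),
    (∀ i, ∃ d : ℕ, ∃ f ∈ T, Ideal.Quotient.mk K f = x i ∧
        ∀ s : ℕ →₀ ℕ, MvPowerSeries.coeff s f ≠ 0 → s.sum (fun _ e => e) = d) ∧
    AlgebraicIndependent ℚ x ∧
    Algebra.adjoin ℚ (Set.range x) = Algebra.adjoin ℚ (Ideal.Quotient.mk K '' T) := by
  intro K hK T hT
  obtain rfl : K = K0 := hK.trans (Ideal.span_eq K0)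
  have hy : ∀ i, y i ∈ T := fun i => by
    rw [hT]
    refine ⟨fun σ hσ s => ?_, i.out.1 + 1, fun s hs => ?_⟩
    · obtain ⟨η, h⟩ := (sw_iff σ).1 hσ
      exact chi_inv i.out.2.2.2 σ η h s
    · by_contra h
      have := chi_deg _ s h
      rw [Fintype.card_fin] at this
      omega
  refine ⟨I, fun i => Ideal.Quotient.mk K0 (y i), fun i => ⟨_, _, hy i, rfl, chi_deg _⟩, indep,
    le_antisymm (Algebra.adjoin_mono ?_) (Algebra.adjoin_le ?_)⟩
  · rintro _ ⟨i, rfl⟩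
    exact ⟨_, hy i, rfl⟩
  · rintro _ ⟨f, hf, rfl⟩
    rw [hT] at hf
    obtain ⟨h1, N, hN⟩ := hf
    obtain ⟨g, hg, h⟩ := span_all (fun σ η h => h1 σ ((sw_iff σ).2 ⟨η, h⟩)) N hN
    rw [Ideal.Quotient.eq.2 h]
    have := Subalgebra.mem_map.2 ⟨g, hg, (rfl : Ideal.Quotient.mkₐ ℚ K0 g = _)⟩
    rw [AlgHom.map_adjoin, ← Set.range_comp] at this
    exact this

end Pool.Agent.S03501
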