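import Pool.Statements.S03506
import Pool.Agent.H69.Ext4

set_option autoImplicit false
open Classical
open Pool Pool.MP_f09f42_al

namespace Pool.Agent.S03506

open Pool.Agent.H69.Ext Pointwise

/-- The negation of the preceding statement: For every transitive action of a finitely generated group whose Schreier graph has polynomial growth, there is a mean on the finite subsets of X invariant under symmetric-difference translations and under the group action, i.e. the action is extensively amenable. -/
theorem result :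
    ¬ (∀ (G X : Type) [Group G] [MulAction G X],
      MulAction.IsPretransitive G X →
      (∃ S : Finset G, Subgroup.closure (S : Set G) = ⊤ ∧
        ∃ x₀ : X, ∃ C d : ℕ, ∀ n : ℕ,
          Set.ncard {y : X | ∃ l : List G, l.length ≤ n ∧
            (∀ s ∈ l, s ∈ S ∨ s⁻¹ ∈ S) ∧ l.prod • x₀ = y} ≤ C * (n + 1) ^ d) →
      ∃ m : Set (Finset X) → ℝ,
        (∀ A, 0 ≤ m A) ∧ m Set.univ = 1 ∧
        (∀ A B, Disjoint A B → m (A ∪ B) = m A + m B) ∧
        (∀ F : Finset X, ∀ A, m ((fun E : Finset X => symmDiff E F) ⁻¹' A) = m A) ∧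
        (∀ g : G, ∀ A, m ((fun E : Finset X => E.image (fun x => g • x)) ⁻¹' A) = m A)) := by
  intro hyp
  obtain ⟨k, hk⟩ := pow_unbounded_of_one_lt (5 : ℝ) (show (1 : ℝ) < 1 + 1 / 2000 by norm_num)
  obtain ⟨K, hK⟩ : ∃ K : ℕ, 32 * 2 ^ k ≤ K + 3 := ⟨32 * 2 ^ k, by omega⟩
  obtain ⟨τ, t1, t2, t3, t4⟩ := tau_ex K
  let φ := MulAction.toPermHom (H K) (X K)
  let s : Set (Equiv.Perm (X K)) := insert τ (φ '' {h | h ∈ gens K})
  have sf : s.Finite := ((List.finite_toSet _).image _).insert _
  let G := Subgroup.closure s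
  have hτ : τ ∈ G := Subgroup.subset_closure (Set.mem_insert _ _)
  have hg : ∀ h ∈ gens K, φ h ∈ G := fun h hh =>
    Subgroup.subset_closure (Set.mem_insert_of_mem _ ⟨h, hh, rfl⟩)
  have htr : ∀ a b : ℕ, φ (tr K fun _ => ((a : ZMod _), (b : ZMod _))) ∈ G := by
    intro a b
    induction a with
    | zero =>
      induction b with
      | zero =>
        have : (tr K fun _ => (((0 : ℕ) : ZMod _), ((0 : ℕ) : ZMod _))) = 1 := by
          funext r
          ext1 x
          show x + _ = x
          simp
        rw [this, map_one]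
        exact G.one_mem
      | succ b ih =>
        have := G.mul_mem ih (hg (tr K fun _ => (0, 1)) (by simp [gens]))
        rw [← map_mul, ← tr_add] at this
        convert this using 3
        funext r
        simp
    | succ a ih =>
      have := G.mul_mem ih (hg (tr K fun _ => (1, 0)) (by simp [gens]))
      rw [← map_mul, ← tr_add] at this
      convert this using 3
      funext r
      simp
  have lev : ∀ r (p q : A (NN K r)), ∃ g : G, g • (⟨r, p⟩ : X K) = ⟨r, q⟩ := fun r p q =>
    ⟨⟨_, htr (q - p).1.val (q - p).2.val⟩, by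
      show (⟨r, p + (_, _)⟩ : X K) = _
      simp only [ZMod.natCast_zmod_val, Prod.mk.eta, add_sub_cancel]⟩
  have tra : ∀ r (p : A (NN K r)), ∃ g : G, g • (⟨0, 0⟩ : X K) = ⟨r, p⟩ := by
    intro r
    induction r with
    | zero => exact lev 0 0
    | succ r ih =>
      intro p
      obtain ⟨a, b, h⟩ := t3 r
      obtain ⟨g, hg⟩ := ih a
      obtain ⟨g', hg'⟩ := lev _ b p
      exact ⟨g' * ⟨τ, hτ⟩ * g, by rw [mul_smul, mul_smul, hg, ← hg', ← h]; rfl⟩
  obtain ⟨m, m0, m1, ma, ms, mi⟩ := hyp G (X K) ⟨fun x y => by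
      obtain ⟨g, hg⟩ := tra x.1 x.2
      obtain ⟨g', hg'⟩ := tra y.1 y.2
      exact ⟨g' * g⁻¹, by rw [mul_smul, show x = g • ⟨0, 0⟩ from hg.symm, inv_smul_smul, hg']⟩⟩
    ⟨(sf.preimage Subtype.val_injective.injOn).toFinset, by
      rw [Set.Finite.coe_toFinset]; exact Subgroup.closure_closure_coe_preimage,
      ⟨0, 0⟩, (27 * (K + 4) ^ 4) ^ 2, 9, fun n => by
      have a1 : ∀ g : G, (g.1 ∈ s ∨ g⁻¹.1 ∈ s) → ∀ x : X K, (g • x).1 ≤ x.1 + 1 := by
        rintro g (h | h) x
        · rcases h with h | ⟨h, -, e⟩
          · exact (congrArg (fun f : Equiv.Perm (X K) => (f x).1) h).le.trans (t2 x)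
          · exact (congrArg (fun f : Equiv.Perm (X K) => (f x).1) e).ge.trans (Nat.le_succ _)
        · rcases h with h | ⟨h, -, e⟩
          · have : g.1 = τ := by
              rw [← inv_inv g.1, show g.1⁻¹ = τ from h]
              exact inv_eq_of_mul_eq_one_right (Equiv.ext t1)
            exact (congrArg (fun f : Equiv.Perm (X K) => (f x).1) this).le.trans (t2 x)
          · have : g.1 = φ h⁻¹ := by rw [map_inv, e]; simp
            exact (congrArg (fun f : Equiv.Perm (X K) => (f x).1) this).le.trans (Nat.le_succ _)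
      have a2 : ∀ l : List G, (∀ g ∈ l, g.1 ∈ s ∨ g⁻¹.1 ∈ s) →
          (l.prod • (⟨0, 0⟩ : X K)).1 ≤ l.length := by
        intro l
        induction l with
        | nil => simp
        | cons g l ih =>
          intro h
          rw [List.prod_cons, mul_smul, List.length_cons]
          exact (a1 g (h g (by simp)) _).trans (Nat.succ_le_succ (ih fun g hg => h g (by simp [hg])))
      refine (Set.ncard_le_ncard (t := ↑((Finset.range (n + 1)).sigma
        fun r => (Finset.univ : Finset (A (NN K r))))) ?_ (Finset.finite_toSet _)).trans ?_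
      · rintro y ⟨l, h1, h2, rfl⟩
        have := a2 l (by simpa using h2)
        simp only [Finset.mem_coe, Finset.mem_sigma, Finset.mem_range, Finset.mem_univ, and_true]
        omega
      · rw [Set.ncard_coe_finset, Finset.card_sigma]
        refine (Finset.sum_le_sum (g := fun _ => (27 * (K + 4) ^ 4) ^ 2 * (n + 1) ^ 8)
          fun r hr => ?_).trans (by simp; ring_nf; rfl)
        have b1 : r + K + 4 ≤ (K + 4) * (n + 1) := by
          have := Finset.mem_range.1 hr
          nlinarith
        have b2 := (NN_le K r).trans (Nat.mul_le_mul_left _ (Nat.pow_le_pow_left b1 4))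
        rw [Finset.card_univ, Fintype.card_prod, ZMod.card]
        exact (Nat.mul_le_mul b2 b2).trans (le_of_eq (by ring))⟩
  refine core K k hk.le hK τ t1 t4 m m0 m1 ma (fun F A => by convert ms F A) (fun h hh A => ?_)
    (fun A => ?_)
  · convert mi ⟨_, hg h hh⟩ A using 3
    funext E
    ext x
    simp only [Finset.mem_smul_finset, Finset.mem_image]
    rfl
  · convert mi ⟨_, hτ⟩ A using 3
    funext E
    ext x
    simp only [Finset.mem_smul_finset, Finset.mem_image]
    rfl

end Pool.Agent.S03506
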