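import Pool.Statements.S03530
import Pool.Agent.H71.BiOrd
import Pool.Agent.H71.TTilde

set_option autoImplicit false
open Pool Pool.MP_f345de_al

namespace Pool.Agent.S03530

/-- The negation of the preceding statement: For every free group F and normal subgroup H, if F/H admits a right-invariant linear order, then F/[H,H] admits a linear order invariant under both left and right multiplication. -/
theorem result :
    ¬ (∀ (α : Type) (H : Subgroup (FreeGroup α)) [H.Normal],
      (∃ o : LinearOrder (FreeGroup α ⧸ H),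
          ∀ a b c : FreeGroup α ⧸ H, a ≤ b → a * c ≤ b * c) →
      ∃ o : LinearOrder (FreeGroup α ⧸ ⁅H, H⁆),
        (∀ a b c : FreeGroup α ⧸ ⁅H, H⁆, a ≤ b → c * a ≤ c * b) ∧
        (∀ a b c : FreeGroup α ⧸ ⁅H, H⁆, a ≤ b → a * c ≤ b * c)) := by
  intro h
  let φ : FreeGroup (Fin 3) →* Equiv.Perm H71.TTilde.X :=
    FreeGroup.lift ![H71.TTilde.A, H71.TTilde.B, H71.TTilde.C]
  have hm : ∀ w, φ w ∈ H71.TTilde.Mono := by
    intro w
    have : φ.range ≤ H71.TTilde.Mono := by
      rw [FreeGroup.range_lift_eq_closure, Subgroup.closure_le]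
      rintro _ ⟨i, rfl⟩
      fin_cases i
      · exact H71.TTilde.A_mono
      · exact H71.TTilde.B_mono
      · exact H71.TTilde.C_mono
    exact this ⟨w, rfl⟩
  have hinj := QuotientGroup.kerLift_injective φ
  obtain ⟨o, h1, h2⟩ := h (Fin 3) φ.ker (H71.TTilde.right_order (QuotientGroup.kerLift φ) hinj
    (fun q => by
      obtain ⟨w, rfl⟩ := QuotientGroup.mk_surjective q
      exact hm w))
  haveI : MulLeftMono (FreeGroup (Fin 3) ⧸ ⁅φ.ker, φ.ker⁆) := ⟨fun c a b hab => h1 a b c hab⟩
  haveI : MulRightMono (FreeGroup (Fin 3) ⧸ ⁅φ.ker, φ.ker⁆) := ⟨fun c a b hab => h2 a b c hab⟩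
  have hle : ⁅φ.ker, φ.ker⁆ ≤ φ.ker.comap (MonoidHom.id _) := Subgroup.commutator_le_self _
  let π := QuotientGroup.map ⁅φ.ker, φ.ker⁆ φ.ker (MonoidHom.id _) hle
  let s : Fin 3 → FreeGroup (Fin 3) ⧸ φ.ker := fun i => QuotientGroup.mk (FreeGroup.of i)
  have hs : Subgroup.closure (Set.range s) = ⊤ := by
    have : Set.range s = QuotientGroup.mk' φ.ker '' Set.range FreeGroup.of := by
      rw [← Set.range_comp]; rfl
    rw [this, ← MonoidHom.map_closure, FreeGroup.closure_range_of, ← MonoidHom.range_eq_map,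
      QuotientGroup.range_mk']
  have e0 : QuotientGroup.kerLift φ (s 0) = H71.TTilde.A := by simp [s, φ]
  have e1 : QuotientGroup.kerLift φ (s 1) = H71.TTilde.B := by simp [s, φ]
  have e2 : QuotientGroup.kerLift φ (s 2) = H71.TTilde.C := by simp [s, φ]
  have r3 : s 1 * ((s 0)⁻¹ * s 2 * s 1) = s 2 := hinj (by
    simp only [map_mul, map_inv, e0, e1, e2]; exact H71.TTilde.rel3)
  have r4 : ((s 0)⁻¹ * s 2 * s 1) * ((s 0)⁻¹ * s 1 * s 0)
      = s 1 * ((s 0)⁻¹ * ((s 0)⁻¹ * s 2 * s 1) * s 1) := hinj (by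
    simp only [map_mul, map_inv, e0, e1, e2]; exact H71.TTilde.rel4)
  have r5 : s 2 * s 0 = ((s 0)⁻¹ * s 2 * s 1) * ((s 0)⁻¹ * s 2 * s 1) := hinj (by
    simp only [map_mul, map_inv, e0, e1, e2]; exact H71.TTilde.rel5)
  have hperf : commutator (FreeGroup (Fin 3) ⧸ φ.ker) = ⊤ := by
    rw [eq_top_iff, ← hs, Subgroup.closure_le, ← Abelianization.ker_of]
    have q3 := congrArg (fun x => Additive.ofMul (Abelianization.of x)) r3
    have q4 := congrArg (fun x => Additive.ofMul (Abelianization.of x)) r4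
    have q5 := congrArg (fun x => Additive.ofMul (Abelianization.of x)) r5
    simp only [map_mul, map_inv, ofMul_mul, ofMul_inv] at q3 q4 q5
    set x := Additive.ofMul (Abelianization.of (s 0))
    set y := Additive.ofMul (Abelianization.of (s 1))
    set z := Additive.ofMul (Abelianization.of (s 2))
    have hy : y = 0 := by linear_combination (norm := abel1) q3 + q4
    have hx : x = 0 := by rw [hy] at q3; linear_combination (norm := abel1) -q3
    have hz : z = 0 := by rw [hx, hy] at q5; linear_combination (norm := abel1) -q5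
    rintro _ ⟨i, rfl⟩
    fin_cases i
    · exact hx
    · exact hy
    · exact hz
  have hsub := H71.BiOrd.main π (fun q => by
      obtain ⟨w, rfl⟩ := QuotientGroup.mk_surjective q
      exact ⟨QuotientGroup.mk w, rfl⟩) (fun m hm m' hm' => by
      obtain ⟨w, rfl⟩ := QuotientGroup.mk_surjective m
      obtain ⟨w', rfl⟩ := QuotientGroup.mk_surjective m'
      have hw : w ∈ φ.ker := (QuotientGroup.eq_one_iff w).1 hm
      have hw' : w' ∈ φ.ker := (QuotientGroup.eq_one_iff w').1 hm'
      rw [← QuotientGroup.mk_mul, ← QuotientGroup.mk_mul, QuotientGroup.eq]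
      have := Subgroup.commutator_mem_commutator (inv_mem hw') (inv_mem hw)
      simpa [commutatorElement_def, mul_assoc] using this) s hs hperf
  apply H71.TTilde.C_ne
  rw [← e2, Subsingleton.elim (s 2) 1, map_one]

end Pool.Agent.S03530
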