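import Pool.Statements.S03533
import Pool.Agent.H74.Prufer4

set_option autoImplicit false
open Pool Pool.MP_f38670_al

namespace Pool.Agent.S03533

/-- There is a field K and a Lie algebra L over K such that L is infinite-dimensional over K, but every Lie subalgebra of L other than L itself is finite-dimensional over K. -/
theorem result :
    ∃ (K : Type) (_ : Field K) (L : Type) (_ : LieRing L) (_ : LieAlgebra K L),
      ¬ FiniteDimensional K L ∧
        ∀ H : LieSubalgebra K L, H ≠ ⊤ → FiniteDimensional K H := by
  open Pool.Agent.H74.Prufer in
  exact ⟨kk, inferInstance, L, inferInstance, inferInstance, notfin, proper⟩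

end Pool.Agent.S03533
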