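import Pool.Statements.S03547
import Pool.Agent.H66.Gam2

set_option autoImplicit false
universe u
open Pool Pool.MP_f49b6d_al

namespace Pool.Agent.S03547

/-- Every infinite group G has a coloring by natural numbers whose color classes are all ∣G∣-small. A class A is ∣G∣-small if, whenever fewer than ∣G∣ left (right) translates of L cover G, fewer than ∣G∣ left (right) translates of L minus A also cover G. -/
theorem result :
    ∀ (G : Type u) [Group G] [Infinite G],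
      ∃ f : G → ℕ, ∀ n : ℕ,
        (∀ L : Set G,
          (∃ F : Set G, Cardinal.mk F < Cardinal.mk G ∧
              ∀ g : G, ∃ x ∈ F, ∃ y ∈ L, g = x * y) →
          (∃ F : Set G, Cardinal.mk F < Cardinal.mk G ∧
              ∀ g : G, ∃ x ∈ F, ∃ y ∈ L, f y ≠ n ∧ g = x * y)) ∧
        (∀ L : Set G,
          (∃ F : Set G, Cardinal.mk F < Cardinal.mk G ∧
              ∀ g : G, ∃ x ∈ F, ∃ y ∈ L, g = y * x) →
          (∃ F : Set G, Cardinal.mk F < Cardinal.mk G ∧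
              ∀ g : G, ∃ x ∈ F, ∃ y ∈ L, f y ≠ n ∧ g = y * x)) := by
  intro G _ _
  obtain ⟨f, h1, h2⟩ := H66.Gam.small_colour G
  have hG := Cardinal.aleph0_le_mk G
  refine ⟨f, fun n => ⟨fun L ⟨F, hF, hL⟩ => ?_, fun L ⟨F, hF, hL⟩ => ?_⟩⟩
  · obtain ⟨K, hK, h⟩ := h2 n ((fun x => x⁻¹) '' F) (Cardinal.mk_image_le.trans_lt hF)
    refine ⟨Set.image2 (fun k x => k⁻¹ * x) K F,
      Cardinal.mk_image2_le.trans_lt (Cardinal.mul_lt_of_lt hG hK hF), fun g => ?_⟩
    obtain ⟨k, hk, h⟩ := h g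
    obtain ⟨x, hx, y, hy, e⟩ := hL (k * g)
    refine ⟨k⁻¹ * x, ⟨k, hk, x, hx, rfl⟩, y, hy, ?_, by rw [mul_assoc, ← e]; simp⟩
    have := h x⁻¹ ⟨x, hx, rfl⟩
    rwa [mul_assoc, e, inv_mul_cancel_left] at this
  · obtain ⟨K, hK, h⟩ := h2 n F hF
    refine ⟨Set.image2 (fun k x => x * k) K F,
      Cardinal.mk_image2_le.trans_lt (Cardinal.mul_lt_of_lt hG hK hF), fun g => ?_⟩
    obtain ⟨k, hk, h⟩ := h g⁻¹
    obtain ⟨x, hx, y, hy, e⟩ := hL (g * k⁻¹)
    refine ⟨x * k, ⟨k, hk, x, hx, rfl⟩, y, hy, ?_, by rw [← mul_assoc, ← e]; simp⟩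
    have := h x hx
    have e2 : x * k * g⁻¹ = y⁻¹ := by
      have : y = g * k⁻¹ * x⁻¹ := by rw [e]; simp
      rw [this]; simp [mul_assoc]
    rwa [e2, h1] at this

end Pool.Agent.S03547
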