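import Pool.Statements.S03570
import Pool.Agent.H51.HeredRad

set_option autoImplicit false
open Pool Pool.MP_f67ce1_al

namespace Pool.Agent.S03570
open Pool.Agent.H51.HeredRad

/-- The negation of the preceding statement: For every ring whose left ideals are all projective, its prime radical (intersection of all prime two-sided ideals) is nilpotent, and the quotient of the ring by the prime radical again has all left ideals projective. -/
theorem result :
    ¬ (∀ (R : Type) [Ring R], (∀ I : Submodule R R, Module.Projective R I) →
      (∃ n : ℕ, ∀ l : List R, l.length = n →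
          (∀ x ∈ l, ∀ J : TwoSidedIdeal R,
            ((∃ y : R, y ∉ J) ∧ ∀ a b : R, (∀ r : R, a * r * b ∈ J) → a ∈ J ∨ b ∈ J) →
              x ∈ J) →
          l.prod = 0) ∧
      ∀ (S : Type) [Ring S] (f : R →+* S), Function.Surjective f →
        (∀ x : R, f x = 0 ↔
          ∀ J : TwoSidedIdeal R,
            ((∃ y : R, y ∉ J) ∧ ∀ a b : R, (∀ r : R, a * r * b ∈ J) → a ∈ J ∨ b ∈ J) →
              x ∈ J) →
        ∀ I : Submodule S S, Module.Projective S I) := by
  intro h
  obtain ⟨⟨n, hn⟩, -⟩ := h RR hered
  refine N_ne n (hn _ (by simp) fun x hx J hJ => ?_)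
  obtain ⟨i, -, rfl⟩ := List.mem_map.1 hx
  exact (hJ.2 _ _ fun r => by rw [N_sq]; exact J.zero_mem).elim id id

end Pool.Agent.S03570
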