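import Pool.Statements.S03582
import Pool.Agent.H71.Gol2

set_option autoImplicit false
open Pool Pool.MP_f7bb97_al

namespace Pool.Agent.S03582

/-- The negation of the preceding statement: In every Engel group that admits a bi-invariant total order, every bi-invariant partial order (given by a normal positive cone avoiding 1) extends to a bi-invariant total order; that is, Engel orderable groups are O*-groups. -/
theorem result :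
    ¬ (∀ (G : Type) [Group G],
      (∀ x y : G, ∃ n : ℕ, (fun z : G => z⁻¹ * y⁻¹ * z * y)^[n] x = 1) →
      (∃ Q : Set G, (∀ a ∈ Q, ∀ b ∈ Q, a * b ∈ Q) ∧
          (∀ a ∈ Q, ∀ g : G, g * a * g⁻¹ ∈ Q) ∧ (1 : G) ∉ Q ∧
          (∀ a : G, a ≠ 1 → a ∈ Q ∨ a⁻¹ ∈ Q)) →
      ∀ P : Set G, (∀ a ∈ P, ∀ b ∈ P, a * b ∈ P) →
        (∀ a ∈ P, ∀ g : G, g * a * g⁻¹ ∈ P) → (1 : G) ∉ P →
        ∃ Q : Set G, P ⊆ Q ∧ (∀ a ∈ Q, ∀ b ∈ Q, a * b ∈ Q) ∧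
          (∀ a ∈ Q, ∀ g : G, g * a * g⁻¹ ∈ Q) ∧ (1 : G) ∉ Q ∧
          (∀ a : G, a ≠ 1 → a ∈ Q ∨ a⁻¹ ∈ Q)) := by
  intro h
  obtain ⟨G, _, e, ⟨B, hB⟩, P, p1, p2, p3, p4⟩ := H71.Gol.concl
  obtain ⟨Q, q1, q2, q3, q4, q5⟩ := h G e ⟨{g | g ∈ B ∧ g ≠ 1}, fun a ha b hb =>
    ⟨B.mul_mem ha.1 hb.1, hB.mul ha.1 hb.1 (.inl ha.2)⟩, fun a ha g => ⟨hB.conj g trivial a ha.1,
      fun c => ha.2 (by simpa using c)⟩, fun c => c.2 rfl, fun a ha =>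
      (hB.tot a trivial).imp (fun c => ⟨c, ha⟩) fun c => ⟨c, inv_ne_one.2 ha⟩⟩ P p1 p2 p3
  exact q4 (p4 Q q1 q2 q3 q5)

end Pool.Agent.S03582
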