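import Pool.Statements.S03584
import Pool.Agent.H69.Fr3

set_option autoImplicit false
open Pool Pool.MP_f7bfdf_al

namespace Pool.Agent.S03584

/-- The negation of the preceding statement: There exists a non-abelian group in which every finitely generated subgroup is free, whose Frattini subgroup (intersection of all maximal subgroups) is non-trivial. -/
theorem result :
    ¬ (∃ (G : Type) (_ : Group G),
      (∀ H : Subgroup G, H.FG → IsFreeGroup H) ∧
      (∃ a b : G, a * b ≠ b * a) ∧
      frattini G ≠ ⊥) := by
  rintro ⟨G, _, h, ⟨a, b, hab⟩, hf⟩
  exact hf (Pool.Agent.H69.Fr.LF.frattini_bot h hab)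

end Pool.Agent.S03584
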