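import Pool.Statements.S03590
import Pool.Agent.H48.Kac2

set_option autoImplicit false
open Pool Pool.MP_f85ae1_al

namespace Pool.Agent.S03590

/-- The negation of the preceding statement: For the Lie algebra g of any linear algebraic group in GL_n over an algebraically closed field of characteristic p, any linear form χ, and any simple U_χ(g)-module M, p^((dim g − dim g^χ)/2) divides dim M. -/
theorem result :
    ¬ (∀ (p : ℕ) (k : Type) [Field k] [IsAlgClosed k] [CharP k p], p.Prime →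
    ∀ (n : ℕ) (S : Subgroup (Matrix.GeneralLinearGroup (Fin n) k))
      (𝔤 : Set (Matrix (Fin n) (Fin n) k)),
      𝔤 = {X : Matrix (Fin n) (Fin n) k |
        ∀ f : MvPolynomial (Fin n × Fin n) k,
          (∀ g ∈ S, MvPolynomial.eval
              (fun ij : Fin n × Fin n => (g : Matrix (Fin n) (Fin n) k) ij.1 ij.2) f = 0) →
          ∑ ij : Fin n × Fin n,
            MvPolynomial.eval
              (fun ij' : Fin n × Fin n => (1 : Matrix (Fin n) (Fin n) k) ij'.1 ij'.2)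
              (MvPolynomial.pderiv ij f) * X ij.1 ij.2 = 0} →
    ∀ (χ : Matrix (Fin n) (Fin n) k →ₗ[k] k) (𝔤χ : Set (Matrix (Fin n) (Fin n) k)),
      𝔤χ = {X : Matrix (Fin n) (Fin n) k | X ∈ 𝔤 ∧ ∀ Y ∈ 𝔤, χ (X * Y - Y * X) = 0} →
    ∀ (M : Type) [AddCommGroup M] [Module k M]
      (ρ : Matrix (Fin n) (Fin n) k →ₗ[k] Module.End k M),
      (∀ X ∈ 𝔤, ∀ Y ∈ 𝔤, ρ (X * Y - Y * X) = ρ X * ρ Y - ρ Y * ρ X) →
      (∀ X ∈ 𝔤, ρ X ^ p - ρ (X ^ p) = (χ X) ^ p • (1 : Module.End k M)) →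
      Nontrivial M →
      (∀ N : Submodule k M, (∀ X ∈ 𝔤, ∀ v ∈ N, ρ X v ∈ N) → N = ⊥ ∨ N = ⊤) →
      p ^ ((Module.finrank k (Submodule.span k 𝔤) - Module.finrank k (Submodule.span k 𝔤χ)) / 2)
        ∣ Module.finrank k M) := by
  intro h
  haveI : Fact (Nat.Prime 2) := ⟨Nat.prime_two⟩
  let k := AlgebraicClosure (ZMod 2)
  let ρ : Matrix (Fin 4) (Fin 4) k →ₗ[k] Module.End k (Fin 2 → k) :=
    (Matrix.toLinAlgEquiv' : Matrix (Fin 2) (Fin 2) k ≃ₐ[k] _).toLinearMap ∘ₗ H48.Kac.RR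
  have hρ : ∀ Y, ρ Y = Matrix.toLinAlgEquiv' (H48.Kac.RR Y) := fun _ => rfl
  have key := h 2 k Nat.prime_two 4 (H48.Kac.S k) (H48.Kac.gg k) rfl H48.Kac.chi _ rfl (Fin 2 → k) ρ
    (by
      intro X hX Y hY
      rw [hρ, hρ, hρ, H48.Kac.RR_lie X Y hX hY, map_sub, map_mul, map_mul])
    (by
      intro X hX
      rw [hρ, hρ, ← map_pow, ← map_sub, H48.Kac.RR_sq X hX, map_smul, map_one])
    inferInstance
    (H48.Kac.simple k ρ hρ)
  have hg := H48.Kac.gap k
  rw [Module.finrank_fin_fun] at key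
  have h2 : 2 ^ 2 ∣ 2 := (pow_dvd_pow 2 (by omega)).trans key
  exact absurd h2 (by norm_num)

end Pool.Agent.S03590
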