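import Pool.Statements.S03595
import Pool.Agent.H71.TIG

set_option autoImplicit false
open Pool Pool.MP_f8d790_al
open scoped Pointwise

namespace Pool.Agent.S03595

/-- An infinite compact Hausdorff group G has every choice of conjugates of its elements topologically generating G if and only if G has a closed, connected, abelian normal subgroup with totally disconnected (profinite) quotient. -/
theorem result :
    ∀ (G : Type) [Group G] [TopologicalSpace G] [IsTopologicalGroup G] [CompactSpace G]
      [T2Space G] [Infinite G],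
      (∀ f : G → G,
          (Subgroup.closure (Set.range (fun x : G => f x * x * (f x)⁻¹))).topologicalClosure = ⊤) ↔
        ∃ N : Subgroup G, N.Normal ∧ IsClosed (N : Set G) ∧ IsConnected (N : Set G) ∧
          (∀ a ∈ N, ∀ b ∈ N, a * b = b * a) ∧ TotallyDisconnectedSpace (G ⧸ N) := by
  intro G _ _ _ _ _ _
  constructor
  · intro h
    have cT : IsClosed ((⊤ : Subgroup G) : Set G) := isClosed_univ
    let N := Subgroup.connectedComponentOfOne G
    have nN : N.Normal := ⟨fun a ha g => by
      have := (show Continuous fun x => g * x * g⁻¹ by fun_prop).image_connectedComponent_subset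
        (1 : G) ⟨a, ha, rfl⟩
      change _ ∈ connectedComponent (1 : G)
      simpa using this⟩
    refine ⟨N, nN, isClosed_connectedComponent, isConnected_connectedComponent,
      fun a ha b hb => ?_, ?_⟩
    · by_contra hne
      obtain ⟨R, hR⟩ := H71.Lie.exists_rep (x := (a * b)⁻¹ * (b * a))
        fun e => hne (inv_mul_eq_one.1 e)
      have cm := R.comm_of_tig h cT
      let E : Subgroup G :=
        { carrier := {k | ∃ X ∈ (R.cg cT).lie, R.ρ k = NormedSpace.exp X}
          one_mem' := ⟨0, Submodule.zero_mem _, by simp⟩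
          mul_mem' := by
            rintro x y ⟨X, hX, ex⟩ ⟨Y, hY, ey⟩
            exact ⟨X + Y, Submodule.add_mem _ hX hY, by
              rw [map_mul, ex, ey, H71.Lie.exp_add' (cm X hX Y hY)]⟩
          inv_mem' := by
            rintro x ⟨X, hX, ex⟩
            exact ⟨-X, Submodule.neg_mem _ hX, R.exp_neg ex⟩ }
      have oE : IsOpen (E : Set G) := E.isOpen_of_mem_nhds (g := 1) (by
        filter_upwards [(R.cont.tendsto' 1 1 (map_one _)).eventually
          ((R.cg cT).cst Filter.univ_mem)] with k hk
        obtain ⟨X, hX, -, e⟩ := hk ⟨k, trivial, rfl⟩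
        exact ⟨X, hX, e.symm⟩)
      have sub := IsClopen.connectedComponent_subset ⟨E.isClosed_of_isOpen oE, oE⟩ E.one_mem
      obtain ⟨X, hX, ex⟩ := sub ha
      obtain ⟨Y, hY, ey⟩ := sub hb
      refine hR (R.eq_iff.1 ?_)
      rw [map_mul, map_mul, ex, ey, ← H71.Lie.exp_add' (cm X hX Y hY),
        ← H71.Lie.exp_add' (cm Y hY X hX), add_comm]
    · have cc : ∀ a : G, (QuotientGroup.mk : G → G ⧸ N) ⁻¹' {(a : G ⧸ N)} = connectedComponent a := by
        intro a
        ext x
        rw [Set.mem_preimage, Set.mem_singleton_iff, eq_comm, QuotientGroup.eq]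
        constructor
        · intro hx
          have := (continuous_const_mul a).image_connectedComponent_subset (1 : G) ⟨_, hx, rfl⟩
          simpa using this
        · intro hx
          have := (continuous_const_mul a⁻¹).image_connectedComponent_subset a ⟨_, hx, rfl⟩
          change _ ∈ connectedComponent (1 : G)
          simpa using this
      rw [totallyDisconnectedSpace_iff_connectedComponent_singleton]
      intro y
      obtain ⟨a, rfl⟩ := QuotientGroup.mk_surjective y
      have := (QuotientGroup.isQuotientMap_mk N).isCoinducing.preimage_connectedComponent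
        (fun y => by
          obtain ⟨a, rfl⟩ := QuotientGroup.mk_surjective y
          rw [cc]; exact isConnected_connectedComponent) a
      rw [← cc] at this
      exact QuotientGroup.mk_surjective.preimage_injective this
  · rintro ⟨N, nN, cN, -, ab, td⟩ f
    set H := (Subgroup.closure (Set.range (fun x : G => f x * x * (f x)⁻¹))).topologicalClosure
    have cH : IsClosed (H : Set G) := Subgroup.isClosed_topologicalClosure _
    have mem : ∀ x, f x * x * (f x)⁻¹ ∈ H := fun x =>
      Subgroup.le_topologicalClosure _ (Subgroup.subset_closure ⟨x, rfl⟩)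
    have jordan : ∀ L : Subgroup G, L.FiniteIndex → H ≤ L → L = ⊤ := fun L hL hHL => by
      classical
      have : Fintype (G ⧸ L) := Fintype.ofFinite _
      have idx : ∀ q : G ⧸ L, (MulAction.stabilizer G q).index = L.index := fun q => by
        rw [MulAction.index_stabilizer_of_transitive]; rfl
      have cov : ⋃ q ∈ (Finset.univ : Finset (G ⧸ L)), (1 : G) • (MulAction.stabilizer G q : Set G)
          = Set.univ := Set.eq_univ_of_forall fun x => by
        refine Set.mem_iUnion₂.2 ⟨(((f x)⁻¹ : G) : G ⧸ L), Finset.mem_univ _, ?_⟩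
        rw [one_smul]
        change ((x * (f x)⁻¹ : G) : G ⧸ L) = _
        rw [eq_comm, QuotientGroup.eq, inv_inv, ← mul_assoc]
        exact hHL (mem x)
      have pd := Subgroup.pairwiseDisjoint_leftCoset_cover_of_sum_inv_index_eq_one cov (by
        simp only [idx, Finset.sum_const, Finset.card_univ, nsmul_eq_mul]
        rw [← Nat.card_eq_fintype_card]
        exact mul_inv_cancel₀ (Nat.cast_ne_zero.2 hL.index_ne_zero))
      rw [eq_top_iff]
      intro x _
      by_contra hx
      have hne : ((1 : G) : G ⧸ L) ≠ (x : G ⧸ L) := fun e => hx (by simpa using QuotientGroup.eq.1 e)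
      have fi : ∀ q : G ⧸ L, (MulAction.stabilizer G q).FiniteIndex := fun q =>
        ⟨by rw [idx]; exact hL.index_ne_zero⟩
      have := pd (Finset.mem_filter.2 ⟨Finset.mem_univ _, fi _⟩)
        (Finset.mem_filter.2 ⟨Finset.mem_univ _, fi _⟩) hne
      exact Set.disjoint_left.1 this (show (1 : G) ∈ _ by simp) (by simp)
    let π := QuotientGroup.mk' N
    have cπ : Continuous π := QuotientGroup.continuous_mk
    have e := ProfiniteGrp.closedSubgroup_eq_sInf_open (G := G ⧸ N)
      ⟨H.map π, (cH.isCompact.image cπ).isClosed⟩
    have top : ∀ y, y ∈ H.map π := fun y => by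
      change H.map π = _ at e
      rw [e, Subgroup.mem_sInf]
      rintro L ⟨o, hL⟩
      obtain ⟨x, rfl⟩ := QuotientGroup.mk'_surjective N y
      have o' : IsOpen ((L.comap π : Subgroup G) : Set G) := o.preimage cπ
      have := jordan (L.comap π) (@Subgroup.finiteIndex_of_finite_quotient _ _ _
        (Subgroup.quotient_finite_of_isOpen _ o')) (Subgroup.map_le_iff_le_comap.1 hL)
      exact (this ▸ Subgroup.mem_top x : x ∈ L.comap π)
    have dec : ∀ x, ∃ h ∈ H, h⁻¹ * x ∈ N := fun x => by
      obtain ⟨h, hh, e⟩ := top (π x)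
      exact ⟨h, hh, QuotientGroup.eq.1 e⟩
    have NH : ∀ n ∈ N, n ∈ H := fun n hn => by
      obtain ⟨h, hh, e⟩ := dec (f n)
      have h1 := H.mul_mem (H.mul_mem (H.inv_mem hh) (mem n)) hh
      have h2 : h⁻¹ * (f n * n * (f n)⁻¹) * h = (h⁻¹ * f n) * n * (h⁻¹ * f n)⁻¹ := by group
      rwa [h2, ab _ e _ hn, mul_inv_cancel_right] at h1
    rw [eq_top_iff]
    intro x _
    obtain ⟨h, hh, e⟩ := dec x
    simpa using H.mul_mem hh (NH _ e)

end Pool.Agent.S03595
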