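import Pool.Statements.S03621
import Pool.Agent.H73.SG10

set_option autoImplicit false
open Pool Pool.MP_fcd401_al

namespace Pool.Agent.S03621

/-- Some finitely generated residually finite group G and irrational α satisfy: log(number of subgroups of index at most n) divided by log(n!) tends to α, i.e. subgroup growth is (n!)^(α+o(1)) with α irrational. -/
theorem result :
    ∃ (G : Type) (_ : Group G), Group.FG G ∧
      (∀ g : G, g ≠ 1 → ∃ H : Subgroup G, H.FiniteIndex ∧ g ∉ H) ∧
      ∃ α : ℝ, Irrational α ∧
        Filter.Tendsto
          (fun n : ℕ =>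
            Real.log ((Set.ncard {H : Subgroup G | H.index ≠ 0 ∧ H.index ≤ n} : ℕ) : ℝ) /
              Real.log ((Nat.factorial n : ℕ) : ℝ))
          Filter.atTop (nhds α) :=
  Pool.Agent.H73.SG.main

end Pool.Agent.S03621
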