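import Pool.Statements.S03646
import Pool.Agent.H68.Sx3

set_option autoImplicit false
open Pool Pool.MP_fedac3_al

namespace Pool.Agent.S03646

theorem result :
    ¬ (∀ (G : Type) [Group G] [Finite G], IsSolvable G →
      {F : (H : Type) → [Group H] → Prop |
        ((∀ (H : Type) [Group H], F H → Finite H) ∧
         (∀ (H K : Type) [Group H] [Group K], Nonempty (H ≃* K) → F H → F K) ∧
         (∀ (H : Type) [Group H] (N : Subgroup H), N.Normal → F H → F ↥N) ∧
         (∀ (H : Type) [Group H] (N M : Subgroup H), N.Normal → M.Normal →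
            F ↥N → F ↥M → F ↥(N ⊔ M))) ∧
        ∀ Q : (H : Type) → [Group H] → Prop,
          ((∀ (H : Type) [Group H], Q H → Finite H) ∧
           (∀ (H K : Type) [Group H] [Group K], Nonempty (H ≃* K) → Q H → Q K) ∧
           (∀ (H : Type) [Group H] (N : Subgroup H), N.Normal → Q H → Q ↥N) ∧
           (∀ (H : Type) [Group H] (N M : Subgroup H), N.Normal → M.Normal →
              Q ↥N → Q ↥M → Q ↥(N ⊔ M))) →
          Q G → ∀ (H : Type) [Group H], F H → Q H}.Finite) := by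
  open Pool.Agent.H68.Sx Pool.Agent.H68.Fit in
  intro h
  refine Set.infinite_of_injective_forall_mem
    (f := fun (n : ℕ) (H : Type) [Group H] => XX (5 ^ (n + 1)) H ∧
      ∀ Q : (H : Type) → [Group H] → Prop,
        ((∀ (H : Type) [Group H], Q H → Finite H) ∧
          (∀ (H K : Type) [Group H] [Group K], Nonempty (H ≃* K) → Q H → Q K) ∧
          (∀ (H : Type) [Group H] (N : Subgroup H), N.Normal → Q H → Q ↥N) ∧
          (∀ (H : Type) [Group H] (N M : Subgroup H), N.Normal → M.Normal →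
            Q ↥N → Q ↥M → Q ↥(N ⊔ M))) → Q (Dih (ZMod 5)) → Q H) ?_ ?_ (h (Dih (ZMod 5)) e_solv)
  · intro m n e
    have h1 := (congrFun (congrFun e (E (hb (GaloisField 5 (m + 1))))) inferInstance).mp
      ⟨gal_xx m, fun Q hQ a => ?_⟩
    · exact (Nat.succ_injective (Nat.pow_right_injective (by norm_num) (gal_eq m _ h1.1))).symm
    have hF : FC fun (H : Type) [Group H] => Q H ∧ Group.IsSolvable H :=
      ⟨fun G _ h => ⟨hQ.1 G h.1, h.2⟩,
        ⟨hQ.2.1 _ _ ⟨MulEquiv.ofUnique⟩ (hQ.2.2.1 _ ⊥ inferInstance a), inferInstance⟩,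
        fun G H _ _ e h => ⟨hQ.2.1 G H ⟨e⟩ h.1, by
          have := h.2
          exact solvable_of_surjective (f := e.toMonoidHom) e.surjective⟩,
        fun G _ N hN h => ⟨hQ.2.2.1 G N hN h.1, by have := h.2; infer_instance⟩,
        fun G _ _ N M hN hM a b => ⟨hQ.2.2.2 G N M hN hM a.1 b.1, by
          have := a.2
          have := b.2
          exact solv_sup N M⟩⟩
    exact (gal_mem hF ⟨a, e_solv⟩ m).1
  · intro n
    have hF := xx_fc (q := 5 ^ (n + 1)) (Nat.one_le_pow _ _ (by norm_num))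
    refine ⟨⟨fun H _ h => h.1.1, fun H K _ _ ⟨e⟩ h => ⟨hF.iso H K e h.1,
      fun Q hQ a => hQ.2.1 H K ⟨e⟩ (h.2 Q hQ a)⟩, fun H _ N hN h => ⟨hF.normal H N hN h.1,
      fun Q hQ a => hQ.2.2.1 H N hN (h.2 Q hQ a)⟩, fun H _ N M hN hM a b => ⟨?_,
      fun Q hQ c => hQ.2.2.2 H N M hN hM (a.2 Q hQ c) (b.2 Q hQ c)⟩⟩, fun Q hQ a H _ h => h.2 Q hQ a⟩
    have := a.1.1
    have := b.1.1
    have := fin_sup N M
    exact hF.sup_top (N := N.subgroupOf (N ⊔ M)) (M := M.subgroupOf (N ⊔ M)) inferInstance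
      inferInstance (hF.iso _ _ (Subgroup.subgroupOfEquivOfLe le_sup_left).symm a.1)
      (hF.iso _ _ (Subgroup.subgroupOfEquivOfLe le_sup_right).symm b.1)
      (by rw [← Subgroup.subgroupOf_sup le_sup_left le_sup_right, Subgroup.subgroupOf_self])

end Pool.Agent.S03646
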