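import Pool.Statements.S03650
import Pool.Agent.H64.FullGroup
import Pool.Agent.H64.QuasiF2

set_option autoImplicit false
open Pool Pool.MP_feeeae_al

namespace Pool.Agent.S03650

/-- The negation of the preceding statement: If G is the topological full group of a group of homeomorphisms of the Cantor set and G acts highly transitively on a dense invariant set, then every bounded real cocycle of positive degree on G is the coboundary of a bounded cochain. -/
theorem result :
    ¬ (∀ (Γ G : Subgroup ((ℕ → Bool) ≃ₜ (ℕ → Bool))) (S : Set (ℕ → Bool)),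
      (∀ g : (ℕ → Bool) ≃ₜ (ℕ → Bool), g ∈ G ↔
          ∀ x : ℕ → Bool, ∃ U : Set (ℕ → Bool), IsClopen U ∧ x ∈ U ∧
            ∃ γ ∈ Γ, ∀ y ∈ U, g y = γ y) →
      Dense S →
      (∀ g ∈ G, ∀ x ∈ S, g x ∈ S) →
      (∀ (n : ℕ) (a b : Fin n → (ℕ → Bool)), Function.Injective a → Function.Injective b →
          (∀ i, a i ∈ S) → (∀ i, b i ∈ S) → ∃ g ∈ G, ∀ i, g (a i) = b i) →
      ∀ (n : ℕ) (f : (Fin (n + 1) → G) → ℝ), (∃ C : ℝ, ∀ x, |f x| ≤ C) →
        (∀ g : Fin (n + 1 + 1) → G,
            f (fun i => g i.succ) +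
              ∑ j : Fin (n + 1 + 1), (-1 : ℝ) ^ (j.val + 1) *
                f (Fin.contractNth j (fun a b => a * b) g) = 0) →
        ∃ h : (Fin n → G) → ℝ, (∃ C : ℝ, ∀ x, |h x| ≤ C) ∧
          ∀ g : Fin (n + 1) → G,
            h (fun i => g i.succ) +
              ∑ j : Fin (n + 1), (-1 : ℝ) ^ (j.val + 1) *
                h (Fin.contractNth j (fun a b => a * b) g) = f g) := by
  intro H
  obtain ⟨ρ, hρ⟩ := Pool.Agent.H64.FullGroup.exists_free_action (FreeGroup Bool)
  let G := Pool.Agent.H64.FullGroup.G ρ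
  let pr : G →* FreeGroup Bool := Pool.Agent.H64.FullGroup.proj ρ hρ
  let Q : G → ℝ := fun g => Pool.Agent.H64.QuasiF2.Q (pr g)
  obtain ⟨h, ⟨C, hC⟩, hh⟩ := H G G {Pool.Agent.H64.FullGroup.p}ᶜ
    (Pool.Agent.H64.FullGroup.G_full ρ) Pool.Agent.H64.FullGroup.dense_S
    (fun g hg x hx h => hx (g.injective (h.trans (Pool.Agent.H64.FullGroup.G_p ρ hg).symm)))
    (Pool.Agent.H64.FullGroup.high_trans ρ) 1
    (fun x => Q (x 1) - Q (x 0 * x 1) + Q (x 0))
    ⟨4, fun x => by
      simpa only [Q, map_mul] using Pool.Agent.H64.QuasiF2.Q_defect (pr (x 0)) (pr (x 1))⟩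
    (fun g => by
      simp [Fin.sum_univ_succ, Fin.contractNth, mul_assoc]
      ring)
  refine Pool.Agent.H64.QuasiF2.not_bounded_coboundary pr
    (Pool.Agent.H64.FullGroup.proj_surj ρ hρ) (fun g => h fun _ => g) C (fun g => hC _)
    fun u v => ?_
  have h1 := hh ![u, v]
  have e0 : (fun i : Fin 1 => (![u, v] : Fin 2 → G) i.succ) = fun _ => v := by
    funext i; fin_cases i; rfl
  have e1 : Fin.contractNth (0 : Fin 2) (fun a b : G => a * b) ![u, v] = fun _ => u * v := by
    funext i; fin_cases i; rfl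
  have e2 : Fin.contractNth (1 : Fin 2) (fun a b : G => a * b) ![u, v] = fun _ => u := by
    funext i; fin_cases i; rfl
  rw [Fin.sum_univ_two, e0, e1, e2] at h1
  simp only [Q] at h1
  norm_num at h1
  simp only [map_mul]
  linarith

end Pool.Agent.S03650
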