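import Pool.Statements.S03687
import Pool.Agent.H89.JoinD

set_option autoImplicit false
open MeasureTheory
open Pool Pool.MP_03548f_an

namespace Pool.Agent.S03687

/-- For any two shift-invariant probability measures on sequences over countable alphabets, both of positive entropy, there is a shift-invariant joining under which some pair of first-coordinate events a, b fails the product rule. -/
theorem result :
    ∀ (μ ν : Measure (ℕ → ℕ)),
      IsProbabilityMeasure μ → IsProbabilityMeasure ν →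
      MeasurePreserving (fun (x : ℕ → ℕ) (n : ℕ) => x (n + 1)) μ μ →
      MeasurePreserving (fun (x : ℕ → ℕ) (n : ℕ) => x (n + 1)) ν ν →
      (∃ m : ℕ, ∃ f : ℕ → Fin m, ∃ c : ℝ, 0 < c ∧ ∀ n : ℕ,
        c * (n : ℝ) ≤ ∑ w : Fin n → Fin m,
          Real.negMulLog ((μ {x : ℕ → ℕ | ∀ i : Fin n, f (x i.val) = w i}).toReal)) →
      (∃ m : ℕ, ∃ f : ℕ → Fin m, ∃ c : ℝ, 0 < c ∧ ∀ n : ℕ,
        c * (n : ℝ) ≤ ∑ w : Fin n → Fin m,
          Real.negMulLog ((ν {x : ℕ → ℕ | ∀ i : Fin n, f (x i.val) = w i}).toReal)) →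
      ∃ ξ : Measure ((ℕ → ℕ) × (ℕ → ℕ)),
        IsProbabilityMeasure ξ ∧
        MeasurePreserving
          (Prod.map (fun (x : ℕ → ℕ) (n : ℕ) => x (n + 1))
                    (fun (x : ℕ → ℕ) (n : ℕ) => x (n + 1))) ξ ξ ∧
        ξ.map Prod.fst = μ ∧ ξ.map Prod.snd = ν ∧
        ∃ a b : ℕ,
          ξ ({p : (ℕ → ℕ) × (ℕ → ℕ) | p.1 0 = a} ∩ {p | p.2 0 = b}) ≠
            μ {x : ℕ → ℕ | x 0 = a} * ν {y : ℕ → ℕ | y 0 = b} := by
  intro μ ν hμ hν sμ sν ⟨m, f, c, hc, h⟩ ⟨m', f', c', hc', h'⟩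
  obtain ⟨ρ, _, a, d, hπ, ds, a0, n1, i1, u1⟩ := H89.Join.fac μ sμ f c hc h
  obtain ⟨ρ', _, b, d', hπ', ds', b0, n2, i2, u2⟩ := H89.Join.fac ν sν f' c' hc' h'
  exact H89.Join.fin μ ν sμ sν f f' ρ ρ' a b d d' hπ hπ' ds ds' a0 b0 n1 n2 i1 i2 u1 u2

end Pool.Agent.S03687
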