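import Pool.Statements.S03716
import Pool.Agent.H88.DBR2

set_option autoImplicit false
open Pool Pool.MP_05b6ce_an

namespace Pool.Agent.S03716

theorem result :
    ¬ (∀ (a b φ : ℕ → ℂ),
    (∀ g : ℕ → ℂ, Summable (fun n => ‖g n‖ ^ 2) →
      Summable (fun n => ‖∑ k ∈ Finset.range (n+1), a k * g (n-k)‖ ^ 2) ∧
      Summable (fun n => ‖∑ k ∈ Finset.range (n+1), b k * g (n-k)‖ ^ 2) ∧
      (∑' n, ‖∑ k ∈ Finset.range (n+1), a k * g (n-k)‖ ^ 2) +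
        (∑' n, ‖∑ k ∈ Finset.range (n+1), b k * g (n-k)‖ ^ 2) = ∑' n, ‖g n‖ ^ 2) →
    (∀ g : ℕ → ℂ, Summable (fun n => ‖g n‖ ^ 2) →
      (∀ j : ℕ, ∑' n, a n * starRingEnd ℂ (g (n + j)) = 0) → g = 0) →
    0 < (a 0).re → (a 0).im = 0 →
    (∀ n, ∑ k ∈ Finset.range (n+1), a k * φ (n-k) = b n) →
    ∀ f c : ℕ → ℂ, Summable (fun n => ‖f n‖ ^ 2) →
      (∀ m, Filter.Tendsto (fun N => ∑ n ∈ Finset.range N, starRingEnd ℂ (φ n) * f (m+n))
        Filter.atTop (nhds (c m))) →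
      Summable (fun m => ‖c m‖ ^ 2) →
      IsLUB {x : ℝ | ∃ g : ℕ → ℂ, Summable (fun n => ‖g n‖ ^ 2) ∧
          x = (∑' n, ‖f n + ∑ k ∈ Finset.range (n+1), b k * g (n-k)‖ ^ 2) - ∑' n, ‖g n‖ ^ 2}
        ((∑' m, ‖f m‖ ^ 2) + ∑' m, ‖c m‖ ^ 2)) := by
  intro H
  obtain ⟨f, f0, f2, fl⟩ := H88.DBR.build
  have hf : Summable fun n => ‖(f n : ℂ)‖ ^ 2 := by simpa using f2
  have h1 := H (H88.PS.coef H88.DBR.aa)
    (H88.H2.cv (H88.PS.coef H88.DBR.aa) fun n => (H88.DBR.Phi n : ℂ))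
    (fun n => (H88.DBR.Phi n : ℂ))
    (fun g hg => ⟨(H88.DBR.rep_aa.contr (fun _ => H88.DBR.aa_le) hg).1,
      (H88.DBR.rep_bb.contr (fun _ => H88.DBR.bb_le) hg).1, H88.DBR.isom g hg⟩)
    (H88.DBR.rep_aa.outer (fun _ => H88.DBR.aa_le) (fun _ => H88.DBR.aa_re) H88.DBR.aa_zero)
    (by rw [H88.DBR.rep_aa.zero, H88.DBR.aa_zero]; norm_num)
    (by rw [H88.DBR.rep_aa.zero, H88.DBR.aa_zero]; norm_num) (fun _ => rfl)
    (fun n => (f n : ℂ)) (fun _ => 0) hf (fun m => by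
      have h2 := (fl m).comp (Filter.tendsto_add_atTop_nat m)
      have h3 := (Complex.continuous_ofReal.tendsto 0).comp h2
      refine h3.congr fun N => ?_
      simp only [Function.comp, add_comm N m, H88.DBR.KK_sum]
      simp) (by simp)
  have h2 := H88.DBR.final _ hf fun g hg => (h1.1 ⟨g, hg, rfl⟩).trans (by simp)
  have h3 := congrFun h2 0
  simp [f0] at h3

end Pool.Agent.S03716
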