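import Pool.Statements.S03752
import Pool.Agent.H93.Pf4

set_option autoImplicit false
open Pool Pool.MP_097dd0_an

namespace Pool.Agent.S03752

/-- The negation of the preceding statement: There is a family of closed balls of positive radius in the Hilbert space of square-summable real families indexed by ℝ that covers the whole space, with each point lying in only finitely many balls. -/
theorem result :
    ¬ (∃ S : Set (lp (fun _ : ℝ => ℝ) (2 : ENNReal) × ℝ),
      (∀ p ∈ S, 0 < p.2) ∧
      (∀ x : lp (fun _ : ℝ => ℝ) (2 : ENNReal), ∃ p ∈ S, x ∈ Metric.closedBall p.1 p.2) ∧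
      (∀ x : lp (fun _ : ℝ => ℝ) (2 : ENNReal),
        {p ∈ S | x ∈ Metric.closedBall p.1 p.2}.Finite)) := by
  classical
  rintro ⟨S, h1, h2, h3⟩
  have hE : ¬ FiniteDimensional ℝ (lp (fun _ : ℝ => ℝ) (2 : ENNReal)) := by
    intro hfd
    have ho : Orthonormal ℝ
        (fun i : ℝ => (lp.single 2 i (1 : ℝ) : lp (fun _ : ℝ => ℝ) (2 : ENNReal))) := by
      rw [orthonormal_iff_ite]
      intro i j
      rw [lp.inner_single_left]
      by_cases h : i = j
      · subst h; simp
      · simp [h]
    have := ho.linearIndependent.finite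
    exact not_finite ℝ
  obtain ⟨x, hx⟩ := Pool.Agent.H93.Pf.not_cover hE (ι := S) (c := fun p => p.1.1)
    (r := fun p => p.1.2) (fun p => h1 p.1 p.2) (fun x => by
      refine ((h3 x).preimage Subtype.val_injective.injOn).subset ?_
      intro p hp
      exact ⟨p.2, by rw [Metric.mem_closedBall, dist_eq_norm]; exact hp⟩)
  obtain ⟨p, hp, hxp⟩ := h2 x
  rw [Metric.mem_closedBall, dist_eq_norm] at hxp
  exact hx ⟨p, hp⟩ hxp

end Pool.Agent.S03752
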