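import Pool.Statements.S03759

set_option autoImplicit false
open Pool Pool.MP_09f91e_an

namespace Pool.Agent.S03759

/-- There are two positive isotropic conductivities and a 3D multiple rank laminate of them whose normalized field matrix has cofactor trace strictly positive on one cell and strictly negative on another. -/
theorem result :
    ∃ s1 s2 : ℝ, 0 < s1 ∧ 0 < s2 ∧
    ∃ L : List (ℝ × ℝ × Matrix (Fin 3) (Fin 3) ℝ),
      (∀ P : List (ℝ × ℝ × Matrix (Fin 3) (Fin 3) ℝ) → Prop,
        P [((1 : ℝ), s1, (1 : Matrix (Fin 3) (Fin 3) ℝ))] →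
        P [((1 : ℝ), s2, (1 : Matrix (Fin 3) (Fin 3) ℝ))] →
        (∀ A B : List (ℝ × ℝ × Matrix (Fin 3) (Fin 3) ℝ), P A → P B →
          ∀ t : ℝ, 0 < t → t < 1 →
          ∀ n : Fin 3 → ℝ, n ≠ 0 →
          ∀ EA EB : Matrix (Fin 3) (Fin 3) ℝ,
            t • EA + (1 - t) • EB = 1 →
            (∃ c : Fin 3 → ℝ, EA - EB = Matrix.vecMulVec n c) →
            Matrix.vecMul n
              ((A.map (fun p => (p.1 * p.2.1) • p.2.2)).sum * EA
                - (B.map (fun p => (p.1 * p.2.1) • p.2.2)).sum * EB) = 0 →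
            P (A.map (fun p => (t * p.1, p.2.1, p.2.2 * EA))
                ++ B.map (fun p => ((1 - t) * p.1, p.2.1, p.2.2 * EB)))) →
        P L) ∧
      ∃ a ∈ L, ∃ b ∈ L,
        0 < (Matrix.adjugate a.2.2).trace ∧ (Matrix.adjugate b.2.2).trace < 0 := by
  refine ⟨100, 1, by norm_num, by norm_num, [((9/10 : ℝ), (100 : ℝ), (!![63994993/164744521, -52746606/164744521, 0; -50374764/164744521, 138371218/164744521, 0; 0, 0, 1] : Matrix (Fin 3) (Fin 3) ℝ)), ((2/25 : ℝ), (1 : ℝ), (!![1290783985/164744521, 575682030/164744521, 0; 891960300/164744521, 604029400/164744521, 0; 0, 0, 1] : Matrix (Fin 3) (Fin 3) ℝ)), ((2/125 : ℝ), (100 : ℝ), (!![194315425/164744521, 70869150/164744521, 0; -125093925/329489042, -19499825/164744521, 0; 0, 0, 1] : Matrix (Fin 3) (Fin 3) ℝ)), ((1/250 : ℝ), (1 : ℝ), (!![194315425/164744521, 70869150/164744521, 0; -6254696250/164744521, -1949982500/164744521, 0; 0, 0, 1] : Matrix (Fin 3) (Fin 3) ℝ))], ?_, _, List.mem_cons_self, _,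
    List.mem_cons_of_mem _ (List.mem_cons_of_mem _ (List.mem_cons_of_mem _ List.mem_cons_self)), ?_, ?_⟩
  · intro P hH hL hs
    have h0 : P [((4/5 : ℝ), (100 : ℝ), (!![1, 0, 0; 0, 5/104, 0; 0, 0, 1] : Matrix (Fin 3) (Fin 3) ℝ)), ((1/5 : ℝ), (1 : ℝ), (!![1, 0, 0; 0, 125/26, 0; 0, 0, 1] : Matrix (Fin 3) (Fin 3) ℝ))] := by
      have := hs _ _ hH hL (4/5) (by norm_num) (by norm_num) ![0, 1, 0]
        (by intro h; have := congrFun h 1; simp at this) !![1, 0, 0; 0, 5/104, 0; 0, 0, 1] !![1, 0, 0; 0, 125/26, 0; 0, 0, 1]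
        (by ext i j; fin_cases i <;> fin_cases j <;> simp <;> norm_num)
        ⟨![0, -495/104, 0], by ext i j; fin_cases i <;> fin_cases j <;> simp [Matrix.vecMulVec] <;> norm_num⟩
        (by ext j; fin_cases j <;> simp [Matrix.vecMul, dotProduct, Fin.sum_univ_three, Matrix.mul_apply, Matrix.one_apply] <;> norm_num)
      convert this using 1
      simp
      norm_num
    have h1 : P [((4/5 : ℝ), (1 : ℝ), (!![31325/26177, 495/26177, 0; 10296/26177, 27167/26177, 0; 0, 0, 1] : Matrix (Fin 3) (Fin 3) ℝ)), ((4/25 : ℝ), (100 : ℝ), (!![5585/26177, -1980/26177, 0; -1980/26177, 8545/209416, 0; 0, 0, 1] : Matrix (Fin 3) (Fin 3) ℝ)), ((1/25 : ℝ), (1 : ℝ), (!![5585/26177, -1980/26177, 0; -198000/26177, 213625/52354, 0; 0, 0, 1] : Matrix (Fin 3) (Fin 3) ℝ))] := by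
      have := hs _ _ hL h0 (4/5) (by norm_num) (by norm_num) ![1, 2, 0]
        (by intro h; have := congrFun h 1; simp at this) !![31325/26177, 495/26177, 0; 10296/26177, 27167/26177, 0; 0, 0, 1] !![5585/26177, -1980/26177, 0; -41184/26177, 22217/26177, 0; 0, 0, 1]
        (by ext i j; fin_cases i <;> fin_cases j <;> simp <;> norm_num)
        ⟨![25740/26177, 2475/26177, 0], by ext i j; fin_cases i <;> fin_cases j <;> simp [Matrix.vecMulVec] <;> norm_num⟩
        (by ext j; fin_cases j <;> simp [Matrix.vecMul, dotProduct, Fin.sum_univ_three, Matrix.mul_apply, Matrix.one_apply] <;> norm_num)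
      convert this using 1
      simp
      norm_num
    have h2 : P [((9/10 : ℝ), (100 : ℝ), (!![63994993/164744521, -52746606/164744521, 0; -50374764/164744521, 138371218/164744521, 0; 0, 0, 1] : Matrix (Fin 3) (Fin 3) ℝ)), ((2/25 : ℝ), (1 : ℝ), (!![1290783985/164744521, 575682030/164744521, 0; 891960300/164744521, 604029400/164744521, 0; 0, 0, 1] : Matrix (Fin 3) (Fin 3) ℝ)), ((2/125 : ℝ), (100 : ℝ), (!![194315425/164744521, 70869150/164744521, 0; -125093925/329489042, -19499825/164744521, 0; 0, 0, 1] : Matrix (Fin 3) (Fin 3) ℝ)), ((1/250 : ℝ), (1 : ℝ), (!![194315425/164744521, 70869150/164744521, 0; -6254696250/164744521, -1949982500/164744521, 0; 0, 0, 1] : Matrix (Fin 3) (Fin 3) ℝ))] := by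
      have := hs _ _ hH h1 (9/10) (by norm_num) (by norm_num) ![2, 1, 0]
        (by intro h; have := congrFun h 1; simp at this) !![63994993/164744521, -52746606/164744521, 0; -50374764/164744521, 138371218/164744521, 0; 0, 0, 1] !![1071490273/164744521, 474719454/164744521, 0; 453372876/164744521, 402104248/164744521, 0; 0, 0, 1]
        (by ext i j; fin_cases i <;> fin_cases j <;> simp <;> norm_num)
        ⟨![-503747640/164744521, -263733030/164744521, 0], by ext i j; fin_cases i <;> fin_cases j <;> simp [Matrix.vecMulVec] <;> norm_num⟩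
        (by ext j; fin_cases j <;> simp [Matrix.vecMul, dotProduct, Fin.sum_univ_three, Matrix.mul_apply, Matrix.one_apply] <;> norm_num)
      convert this using 1
      simp
      norm_num
    exact h2
  · simp [Matrix.adjugate_fin_three, Matrix.trace_fin_three]; norm_num
  · simp [Matrix.adjugate_fin_three, Matrix.trace_fin_three]; norm_num

end Pool.Agent.S03759
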