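import Pool.Statements.S03781
import Pool.Agent.H97.Fib

set_option autoImplicit false
open scoped Topology
open Pool Pool.MP_0b4183_an

namespace Pool.Agent.S03781

/-- If ψ is holomorphic on a connected open Ω in C^n, its Hessian has maximal rank k (0<k<n), and rank-k level sets of ∇ψ are affine (n−k)-planes, then every point where the kernel field has no local continuous extension lies on a positive-dimensional affine piece of such points. -/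
theorem result :
    ∀ (n k : ℕ) (Ω : Set (Fin n → ℂ)) (ψ : (Fin n → ℂ) → ℂ)
      (r : (Fin n → ℂ) → ℕ) (K : (Fin n → ℂ) → Submodule ℂ (Fin n → ℂ)),
      IsOpen Ω → IsConnected Ω → AnalyticOnNhd ℂ ψ Ω →
      (∀ ξ : Fin n → ℂ, r ξ = Module.finrank ℂ (LinearMap.range
        ((fderiv ℂ (fderiv ℂ ψ) ξ : (Fin n → ℂ) →L[ℂ] ((Fin n → ℂ) →L[ℂ] ℂ)) :
          (Fin n → ℂ) →ₗ[ℂ] ((Fin n → ℂ) →L[ℂ] ℂ)))) →
      (∀ ξ : Fin n → ℂ, K ξ = LinearMap.ker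
        ((fderiv ℂ (fderiv ℂ ψ) ξ : (Fin n → ℂ) →L[ℂ] ((Fin n → ℂ) →L[ℂ] ℂ)) :
          (Fin n → ℂ) →ₗ[ℂ] ((Fin n → ℂ) →L[ℂ] ℂ))) →
      1 ≤ k → k ≤ n - 1 →
      (∀ ξ ∈ Ω, r ξ ≤ k) →
      (∃ ξ ∈ Ω, r ξ = k) →
      (∀ ξ ∈ Ω, r ξ = k →
        ∃ V : Submodule ℂ (Fin n → ℂ), Module.finrank ℂ V = n - k ∧
          {η | η ∈ Ω ∧ fderiv ℂ ψ η = fderiv ℂ ψ ξ} = {η | η ∈ Ω ∧ η - ξ ∈ V}) →
      ∀ S : Set (Fin n → ℂ),
        S = {ξ | ξ ∈ Ω ∧ ¬ ∃ U : Set (Fin n → ℂ),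
              IsOpen U ∧ ξ ∈ U ∧ U ⊆ Ω ∧
              ∃ v : Fin (n - k) → (Fin n → ℂ) → (Fin n → ℂ),
                (∀ i, ContinuousOn (v i) U) ∧
                (∀ η ∈ U, LinearIndependent ℂ (fun i => v i η)) ∧
                (∀ η ∈ U, r η = k →
                  Submodule.span ℂ (Set.range (fun i => v i η)) = K η)} →
        ∀ ξ ∈ S, ∃ V : Submodule ℂ (Fin n → ℂ), V ≠ ⊥ ∧
          ∃ U ∈ 𝓝 ξ, ∀ η ∈ U, η - ξ ∈ V → η ∈ S := by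
  intro n k Ω ψ r K hΩ hc hψ hr hK hk1 hk2 hle ⟨ξs, hξs, hrs⟩ hlev S hS ξ hξ
  have hΓ : DifferentiableOn ℂ (fderiv ℂ ψ) Ω := hψ.fderiv.differentiableOn
  obtain ⟨d, hd1, hd2, hd3⟩ := Pool.Agent.H97.Fib.exists_d hΩ hc.isPreconnected hΓ hξs
  have hKK : ∀ z, K z = Pool.Agent.H97.Fib.Kr (fderiv ℂ ψ) z := hK
  have hrk : ∀ z, r z = k → Module.finrank ℂ (Pool.Agent.H97.Fib.Kr (fderiv ℂ ψ) z) = n - k := by
    intro z hz
    have h1 := LinearMap.finrank_range_add_finrank_ker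
      ((fderiv ℂ (fderiv ℂ ψ) z : (Fin n → ℂ) →L[ℂ] ((Fin n → ℂ) →L[ℂ] ℂ)) :
          (Fin n → ℂ) →ₗ[ℂ] ((Fin n → ℂ) →L[ℂ] ℂ))
    rw [← hr, hz, Module.finrank_fin_fun] at h1
    unfold Pool.Agent.H97.Fib.Kr
    omega
  have H : Pool.Agent.H97.Fib.Hyp Ω (fderiv ℂ ψ) (fun z => r z = k) (n - k) d := by
    refine ⟨hΩ, hΓ, hd1, hd2, fun z hz h => ?_, fun z _ h => hrk z h, fun z hz h η hη => ?_⟩
    · have h1 := hd3 z h
      rw [← hr, ← hr, hrs] at h1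
      exact le_antisymm (hle z hz) h1
    · obtain ⟨V, hV, hset⟩ := hlev z hz h
      have hiff : ∀ η ∈ Ω, fderiv ℂ ψ η = fderiv ℂ ψ z ↔ η - z ∈ V := by
        intro η hη
        have := Set.ext_iff.1 hset η
        simpa [hη] using this
      have hVK : V = Pool.Agent.H97.Fib.Kr (fderiv ℂ ψ) z := by
        refine Submodule.eq_of_le_of_finrank_eq (fun w hw => ?_) (hV.trans (hrk z h).symm)
        refine Pool.Agent.H97.Fib.line_zero (hΓ.differentiableAt (hΩ.mem_nhds hz)) ?_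
        filter_upwards [Pool.Agent.H97.Fib.ev_line (hΩ.mem_nhds hz) w] with t ht
        exact (hiff _ ht).2 (by simpa using V.smul_mem t hw)
      rw [← hVK]
      exact hiff η hη
  have hSiff : ∀ z, z ∈ S ↔ z ∈ Ω ∧ ¬ ∃ (U : Set (Fin n → ℂ))
      (v : Fin (n - k) → (Fin n → ℂ) → (Fin n → ℂ)), z ∈ U ∧
        Pool.Agent.H97.Fib.Frame Ω (fderiv ℂ ψ) (fun z => r z = k) U v := by
    intro z
    rw [hS]
    refine and_congr Iff.rfl (not_congr ⟨?_, ?_⟩)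
    · rintro ⟨U, h1, h2, h3, v, h4, h5, h6⟩
      exact ⟨U, v, h2, h1, h3, h4, h5, fun η hη h => (h6 η hη h).trans (hKK η)⟩
    · rintro ⟨U, v, h2, V⟩
      exact ⟨U, V.op, h2, V.sub, v, V.cont, V.li, fun η hη h => (V.sp η hη h).trans (hKK η).symm⟩
  obtain ⟨h1, h2⟩ := (hSiff ξ).1 hξ
  obtain ⟨W, hW, N, hN, h3⟩ := Pool.Agent.H97.Fib.main H (by omega) h1 h2
  exact ⟨W, hW, N, hN, fun η hη h => (hSiff η).2 (h3 η hη h)⟩

end Pool.Agent.S03781
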