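import Pool.Statements.S03785
import Pool.Agent.H91.Bisym

set_option autoImplicit false
open Pool Pool.MP_0bc80f_an

namespace Pool.Agent.S03785

theorem result :
    ∀ (a b : ℝ), a < b → ∀ (n : ℕ), 2 ≤ n →
      ∀ F : (Fin n → Set.Icc a b) → Set.Icc a b,
        (∀ x : Set.Icc a b, F (fun _ => x) = x) →
        (∀ M : Fin n → Fin n → Set.Icc a b,
            F (fun i => F (M i)) = F (fun j => F (fun i => M i j))) →
        (∀ (x : Fin n → Set.Icc a b) (i : Fin n),
            StrictMono (fun t : Set.Icc a b => F (Function.update x i t))) →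
        Continuous F := by
  intro a b _ n hn F h1 h2 h3
  have := Pool.Agent.H91.Bisym.compactIcc (Set.Icc a b) Set.ordConnected_Icc
  have : Nontrivial (Fin n) := Fin.nontrivial_iff_two_le.mpr hn
  exact Pool.Agent.H91.Bisym.Bis.continuous ⟨h1, h2, h3⟩

end Pool.Agent.S03785
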