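import Pool.Statements.S03813
import Pool.Agent.H49.MP8

set_option autoImplicit false
open Filter Topology MeasureTheory
open scoped ENNReal
open Pool Pool.MP_0dd021_an

namespace Pool.Agent.S03813

/-- For every p in (1,∞), p≠2, every uniform limit of step functions on the circle that is an ℓ^p Fourier-coefficient multiplier is the uniform limit of step functions whose ℓ^p multiplier norms are uniformly bounded. -/
theorem result :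
  ∀ (cf : (ℝ → ℂ) → ℤ → ℂ),
    (∀ (g : ℝ → ℂ) (n : ℤ), cf g n =
      ∫ x in (0:ℝ)..1, Complex.exp (-(2 * (Real.pi : ℂ) * Complex.I * (n : ℂ) * (x : ℂ))) * g x) →
  ∀ (Step : (ℝ → ℂ) → Prop),
    (∀ g : ℝ → ℂ, Step g ↔ ∃ (m : ℕ) (t : Fin (m + 1) → ℝ) (c : Fin m → ℂ),
      StrictMono t ∧ t 0 = 0 ∧ t (Fin.last m) = 1 ∧
      ∀ i : Fin m, ∀ x ∈ Set.Ioo (t i.castSucc) (t i.succ), g x = c i) →
  ∀ (p : ℝ), 1 < p → p ≠ 2 →
  ∀ (Mb : (ℝ → ℂ) → ℝ → Prop),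
    (∀ (g : ℝ → ℂ) (C : ℝ), Mb g C ↔ ∀ a : ℤ →₀ ℂ,
      ∑' n : ℤ, ENNReal.ofReal ‖∑ k ∈ a.support, cf g (n - k) * a k‖ ^ p
        ≤ ENNReal.ofReal C ^ p * ∑ k ∈ a.support, ENNReal.ofReal ‖a k‖ ^ p) →
  ∀ f : ℝ → ℂ,
    (∀ ε : ℝ≥0∞, 0 < ε → ∃ g : ℝ → ℂ, Step g ∧
      eLpNorm (fun x => f x - g x) ⊤ (volume.restrict (Set.Icc (0:ℝ) 1)) < ε) →
    (∃ C : ℝ, Mb f C) →
    ∃ g : ℕ → ℝ → ℂ, (∀ j, Step (g j)) ∧ (∃ C : ℝ, ∀ j, Mb (g j) C) ∧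
      Tendsto (fun j => eLpNorm (fun x => g j x - f x) ⊤ (volume.restrict (Set.Icc (0:ℝ) 1)))
        atTop (𝓝 0) := by
  intro cf hcf Step hStep p hp _ Mb hMb f hf hM
  have e1 : cf = H49.MP.cf := by
    funext g n
    rw [hcf, H49.MP.cf]
    congr 1; ext x
    rw [H49.MP.e_smul]; congr 2; push_cast; ring
  have e2 : Step = H49.MP.Stp := by
    funext g; exact propext (hStep g)
  subst e1 e2
  have hp0 : 0 < p := by linarith
  obtain ⟨C, hC⟩ := hM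
  have h1 : H49.MP.MB p (H49.MP.cf f) (max C 0) := by
    refine (H49.MP.Mb_iff hp0 _ (le_max_right _ _)).1 fun a => ((hMb f C).1 hC a).trans ?_
    gcongr
    exact le_max_left _ _
  obtain ⟨g, g1, ⟨C', g2⟩, g3⟩ := H49.MP.main hp hf h1
  exact ⟨g, g1, ⟨C', fun j => (hMb _ _).2 ((H49.MP.Mb_iff hp0 _ (g2 j).nonneg).2 (g2 j))⟩, g3⟩

end Pool.Agent.S03813
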