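import Pool.Statements.S03816
import Pool.Agent.H99.MT5

set_option autoImplicit false
open Pool Pool.MP_0de7f2_an

namespace Pool.Agent.S03816

/-- The negation of the preceding statement: If T is a maximal triangular algebra on a complex Hilbert space (its diagonal T ∩ T* is a masa) and P ∈ T is an orthogonal projection, then the compression PTP on the range of P is a maximal triangular algebra there. -/
theorem result :
    ¬ (∀ (H : Type) [NormedAddCommGroup H] [InnerProductSpace ℂ H] [CompleteSpace H]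
    (T : Subalgebra ℂ (H →L[ℂ] H)),
    (Set.centralizer {x | x ∈ T ∧ star x ∈ T} = {x | x ∈ T ∧ star x ∈ T} ∧
      ∀ B : Subalgebra ℂ (H →L[ℂ] H), T ≤ B →
        Set.centralizer {x | x ∈ B ∧ star x ∈ B} = {x | x ∈ B ∧ star x ∈ B} → B = T) →
    ∀ (K : Submodule ℂ H) [CompleteSpace K],
      K.subtypeL ∘L K.orthogonalProjection ∈ T →
      ∃ S : Subalgebra ℂ (K →L[ℂ] K),
        (S : Set (K →L[ℂ] K)) =
          (fun A : H →L[ℂ] H => K.orthogonalProjection ∘L A ∘L K.subtypeL) ''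
            (T : Set (H →L[ℂ] H)) ∧
        Set.centralizer {x | x ∈ S ∧ star x ∈ S} = {x | x ∈ S ∧ star x ∈ S} ∧
        ∀ B : Subalgebra ℂ (K →L[ℂ] K), S ≤ B →
          Set.centralizer {x | x ∈ B ∧ star x ∈ B} = {x | x ∈ B ∧ star x ∈ B} → B = S) := by
  intro h
  obtain ⟨T, h0, hd, hmax⟩ := H99.MT.exists_max
  have hdiag : {x | x ∈ T ∧ star x ∈ T} = H99.MT.D := by
    ext x
    exact ⟨fun hx => hd x hx.1 hx.2,
      fun hx => ⟨h0 (H99.MT.D_T0 hx), h0 (H99.MT.D_T0 (H99.MT.D_star hx))⟩⟩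
  obtain ⟨S, hS, -, hSm⟩ := h H99.MT.H T ⟨by rw [hdiag, H99.MT.D_centralizer], fun B hB hc => by
    refine hmax B hB fun x hx hx' => ?_
    rw [← H99.MT.D_centralizer]
    intro d hdD
    have h1 : x ∈ Set.centralizer {x | x ∈ B ∧ star x ∈ B} := by rw [hc]; exact ⟨hx, hx'⟩
    exact h1 d ⟨hB (h0 (H99.MT.D_T0 hdD)), hB (h0 (H99.MT.D_T0 (H99.MT.D_star hdD)))⟩⟩
    H99.MT.KP (by
      have := h0 (H99.MT.D_T0 H99.MT.P_D)
      rwa [← H99.MT.proj_eq] at this)
  have hle : S ≤ H99.MT.BB := by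
    intro x hx
    rw [← SetLike.mem_coe, hS] at hx
    obtain ⟨t, ht, rfl⟩ := hx
    change H99.MT.up (H99.MT.dn t) ∈ H99.MT.Alg
    rw [H99.MT.up_dn]
    exact H99.MT.Alg.mul_mem (H99.MT.Alg.mul_mem H99.MT.P_Alg (H99.MT.max_le_Alg h0 hd ht))
      H99.MT.P_Alg
  have hB := hSm _ hle H99.MT.BB_tri
  have hW : H99.MT.dn H99.MT.Wi ∈ H99.MT.BB := by
    change H99.MT.up (H99.MT.dn _) ∈ H99.MT.Alg
    rw [H99.MT.up_dn]
    exact H99.MT.Alg.mul_mem (H99.MT.Alg.mul_mem H99.MT.P_Alg H99.MT.Wi_Alg) H99.MT.P_Alg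
  rw [hB, ← SetLike.mem_coe, hS] at hW
  obtain ⟨t, ht, e⟩ := hW
  exact H99.MT.final T h0 hd t ht e

end Pool.Agent.S03816
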