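import Pool.Statements.S03819
import Pool.Agent.H99.PH4

set_option autoImplicit false
open MeasureTheory
open Pool Pool.MP_0e9c6a_an

namespace Pool.Agent.S03819

/-- For every complex c, every ε>0 and every measurable E of positive measure: if f is in L² and both f and H f + c∫_{-∞}^t e^{-ε(t-τ)}f(τ)dτ vanish a.e. on E (H the principal-value Hilbert transform), then f=0 a.e. -/
theorem result :
    ∀ (c : ℂ) (ε : ℝ), 0 < ε → ∀ (E : Set ℝ), MeasurableSet E → 0 < volume E →
      ∀ f : ℝ → ℂ, MemLp f 2 volume →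
        (∀ᵐ t ∂(volume.restrict E), f t = 0) →
        (∀ᵐ t ∂(volume.restrict E),
          Filter.Tendsto
            (fun δ : ℝ =>
              (∫ τ in {τ : ℝ | δ < |t - τ|}, f τ / ((t - τ : ℝ) : ℂ)) +
                c * ∫ τ in Set.Iic t, ((Real.exp (ε * (τ - t)) : ℝ) : ℂ) * f τ)
            (nhdsWithin 0 (Set.Ioi 0)) (nhds 0)) →
        f =ᵐ[volume] 0 := by
  exact Pool.Agent.H99.PH.final

end Pool.Agent.S03819
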