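import Pool.Statements.S03823
import Pool.Agent.H94.HilbGen

set_option autoImplicit false
open MeasureTheory
open Pool Pool.MP_0eb56c_an

namespace Pool.Agent.S03823

/-- For every p with 2<p<∞ and every finite measure μ, there is a real Hilbert space H and a bounded linear operator from H into L^p(μ) whose range is dense. -/
theorem result :
    ∀ (p : ENNReal) [Fact (1 ≤ p)], 2 < p → p ≠ ⊤ →
      ∀ (α : Type) [MeasurableSpace α] (μ : Measure α) [IsFiniteMeasure μ],
        ∃ (H : Type) (_ : NormedAddCommGroup H) (_ : InnerProductSpace ℝ H)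
          (_ : CompleteSpace H) (T : H →L[ℝ] Lp ℝ p μ), DenseRange (⇑T) := by
  intro p _ _ hp α _ μ _
  obtain ⟨lo, wf⟩ := exists_wellFoundedLT {s : Set α // MeasurableSet s}
  obtain ⟨T, hT⟩ := @Pool.Agent.H94.HilbGen.main p _ hp α _ μ _ {s : Set α // MeasurableSet s}
    lo wf (fun s => s.1) (fun s => s.2) (fun s hs => ⟨⟨s, hs⟩, rfl⟩)
  exact ⟨_, inferInstance, inferInstance, inferInstance, T, hT⟩

end Pool.Agent.S03823
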