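import Pool.Statements.S03845
import Pool.Agent.H62.LAtom

set_option autoImplicit false
open Filter Topology
open Pool Pool.MP_10e324_an

namespace Pool.Agent.S03845

/-- A non-constant analytic map α on the unit disk has the property every analytic f such that α has the L-property on each sequence tending to the boundary where f has it factors as φ∘α with φ analytic on α(disk) exactly when α is injective on the disk. -/
theorem result :
    ∀ α : ℂ → ℂ, AnalyticOnNhd ℂ α (Metric.ball (0:ℂ) 1) →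
      (∃ a ∈ Metric.ball (0:ℂ) 1, ∃ b ∈ Metric.ball (0:ℂ) 1, α a ≠ α b) →
      ((∀ f : ℂ → ℂ, AnalyticOnNhd ℂ f (Metric.ball (0:ℂ) 1) →
          (∀ z : ℕ → ℂ, (∀ n, z n ∈ Metric.ball (0:ℂ) 1) →
            Tendsto (fun n => ‖z n‖) atTop (𝓝 1) →
            (∀ K : Set ℂ, K ⊆ f '' Metric.ball (0:ℂ) 1 → IsCompact K →
              {n : ℕ | f (z n) ∈ K}.Finite) →
            (∀ K : Set ℂ, K ⊆ α '' Metric.ball (0:ℂ) 1 → IsCompact K →
              {n : ℕ | α (z n) ∈ K}.Finite)) →
          ∃ φ : ℂ → ℂ, AnalyticOnNhd ℂ φ (α '' Metric.ball (0:ℂ) 1) ∧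
            ∀ w ∈ Metric.ball (0:ℂ) 1, f w = φ (α w))
        ↔ Set.InjOn α (Metric.ball (0:ℂ) 1)) := by
  exact Pool.Agent.H62.LAtom.main

end Pool.Agent.S03845
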