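import Pool.Statements.S03851
import Pool.Agent.H58.FhcGap

set_option autoImplicit false
open Pool Pool.MP_115f17_an

namespace Pool.Agent.S03851

theorem result :
    ∃ (𝕜 : Type) (_ : RCLike 𝕜) (X : Type) (_ : NormedAddCommGroup X)
      (_ : NormedSpace 𝕜 X) (_ : CompleteSpace X) (T : X →L[𝕜] X) (x : X),
      (∀ U : Set X, IsOpen U → U.Nonempty →
        ∃ δ : ℝ, 0 < δ ∧ ∀ᶠ n : ℕ in Filter.atTop,
          δ * (n : ℝ) ≤ (({k : ℕ | k < n ∧ (⇑T)^[k] x ∈ U}.ncard : ℕ) : ℝ)) ∧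
      ∃ U : Set X, IsOpen U ∧ U.Nonempty ∧
        ∀ A : Set ℕ, A ⊆ {k : ℕ | (⇑T)^[k] x ∈ U} →
          ¬ ∃ d : ℝ, 0 < d ∧
            Filter.Tendsto
              (fun n : ℕ => (({k : ℕ | k < n ∧ k ∈ A}.ncard : ℕ) : ℝ) / (n : ℝ))
              Filter.atTop (nhds d) := by
  exact ⟨ℝ, inferInstance, Pool.Agent.H58.FhcGap.X, inferInstance, inferInstance, inferInstance,
    Pool.Agent.H58.FhcGap.T, Pool.Agent.H58.FhcGap.x, Pool.Agent.H58.FhcGap.fhc, _,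
    Pool.Agent.H58.FhcGap.U_open, Pool.Agent.H58.FhcGap.U_ne, Pool.Agent.H58.FhcGap.gap⟩

end Pool.Agent.S03851
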