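import Pool.Statements.S03864
import Pool.Agent.H60.NBd

set_option autoImplicit false
open Filter Topology
open Pool Pool.MP_125cfc_an

namespace Pool.Agent.S03864

/-- The negation of the preceding statement: For any dimension, number of bodies and positive masses in Newtonian gravity, the map sending bi-hyperbolic initial data with zero center of mass and (mass-)orthogonal position and velocity to its past/future limit shapes is a local C^∞ diffeomorphism onto the equal-norm, centered limit-shape set. -/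
theorem result :
    ¬ (∀ (d N : ℕ) (m : Fin N → ℝ), (∀ i, 0 < m i) →
  ∀ (Ω : Set (Fin N → EuclideanSpace ℝ (Fin d))),
    (∀ x, x ∈ Ω ↔ ∀ i j, i ≠ j → x i ≠ x j) →
  ∀ (H : Set ((Fin N → EuclideanSpace ℝ (Fin d)) × (Fin N → EuclideanSpace ℝ (Fin d)))),
    (∀ p, p ∈ H ↔ ∃ γ γ' : ℝ → (Fin N → EuclideanSpace ℝ (Fin d)),
       ∃ aₘ aₚ : Fin N → EuclideanSpace ℝ (Fin d),
       γ 0 = p.1 ∧ γ' 0 = p.2 ∧ (∀ t, γ t ∈ Ω) ∧ (∀ t, HasDerivAt γ (γ' t) t) ∧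
       (∀ t, HasDerivAt γ' (fun i => ∑ j ∈ Finset.univ.erase i,
            (m j / ‖γ t j - γ t i‖ ^ 3) • (γ t j - γ t i)) t) ∧
       aₘ ∈ Ω ∧ aₚ ∈ Ω ∧
       Tendsto (fun t : ℝ => t⁻¹ • γ t) atTop (𝓝 aₚ) ∧
       Tendsto (fun t : ℝ => |t|⁻¹ • γ t) atBot (𝓝 aₘ)) →
  ∀ (S : (Fin N → EuclideanSpace ℝ (Fin d)) × (Fin N → EuclideanSpace ℝ (Fin d)) →
        (Fin N → EuclideanSpace ℝ (Fin d)) × (Fin N → EuclideanSpace ℝ (Fin d))),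
    (∀ (γ γ' : ℝ → (Fin N → EuclideanSpace ℝ (Fin d))) (aₘ aₚ : Fin N → EuclideanSpace ℝ (Fin d)),
       (∀ t, γ t ∈ Ω) → (∀ t, HasDerivAt γ (γ' t) t) →
       (∀ t, HasDerivAt γ' (fun i => ∑ j ∈ Finset.univ.erase i,
            (m j / ‖γ t j - γ t i‖ ^ 3) • (γ t j - γ t i)) t) →
       aₘ ∈ Ω → aₚ ∈ Ω →
       Tendsto (fun t : ℝ => t⁻¹ • γ t) atTop (𝓝 aₚ) →
       Tendsto (fun t : ℝ => |t|⁻¹ • γ t) atBot (𝓝 aₘ) →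
       S (γ 0, γ' 0) = (aₘ, aₚ)) →
  ∀ (P₀ : Set ((Fin N → EuclideanSpace ℝ (Fin d)) × (Fin N → EuclideanSpace ℝ (Fin d)))),
    (∀ p, p ∈ P₀ ↔ p ∈ H ∧ ∑ i, m i • p.1 i = 0 ∧ ∑ i, m i • p.2 i = 0 ∧
        ∑ i, m i * inner ℝ (p.1 i) (p.2 i) = 0) →
  ∀ (S₀ : Set ((Fin N → EuclideanSpace ℝ (Fin d)) × (Fin N → EuclideanSpace ℝ (Fin d)))),
    (∀ q, q ∈ S₀ ↔ q.1 ∈ Ω ∧ q.2 ∈ Ω ∧ ∑ i, m i • q.1 i = 0 ∧ ∑ i, m i • q.2 i = 0 ∧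
        ∑ i, m i * ‖q.1 i‖ ^ 2 = ∑ i, m i * ‖q.2 i‖ ^ 2) →
  ∀ p ∈ P₀, ∃ (U W : Set ((Fin N → EuclideanSpace ℝ (Fin d)) × (Fin N → EuclideanSpace ℝ (Fin d)))),
    IsOpen U ∧ IsOpen W ∧ p ∈ U ∧ S p ∈ W ∧
    ∃ T : (Fin N → EuclideanSpace ℝ (Fin d)) × (Fin N → EuclideanSpace ℝ (Fin d)) →
          (Fin N → EuclideanSpace ℝ (Fin d)) × (Fin N → EuclideanSpace ℝ (Fin d)),
      (∀ q ∈ P₀ ∩ U, S q ∈ S₀ ∩ W ∧ T (S q) = q) ∧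
      (∀ r ∈ S₀ ∩ W, T r ∈ P₀ ∩ U ∧ S (T r) = r) ∧
      ContDiffOn ℝ ((⊤ : ℕ∞) : WithTop ℕ∞) S (P₀ ∩ U) ∧
      ContDiffOn ℝ ((⊤ : ℕ∞) : WithTop ℕ∞) T (S₀ ∩ W)) := by
  intro h
  have h1 := h 3 3 H60.NB.mm (fun i => by fin_cases i <;> simp [H60.NB.mm]) H60.NB.Om
    (fun _ => Iff.rfl)
    {p | ∃ γ γ' a b, γ 0 = p.1 ∧ γ' 0 = p.2 ∧ H60.NB.Good γ γ' a b} (fun _ => Iff.rfl) H60.NB.SS
    (fun γ γ' a b h1 h2 h3 h4 h5 h6 h7 => H60.NB.Good.SS ⟨h1, h2, h3, h4, h5, h6, h7⟩)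
    (setOf _) (fun _ => Iff.rfl) (setOf _) (fun _ => Iff.rfl)
  exact H60.NB.final _
    (fun v s hv => by exact ⟨H60.NB.pp_good hv s, H60.NB.com _, H60.NB.com _, H60.NB.orth v s⟩)
    fun p hp => (h1 p hp).elim fun U h2 => h2.elim fun W ⟨k1, _, k2, _, T, k3, _⟩ =>
      ⟨U, k1, k2, T, fun q hq => (k3 q hq).2⟩

end Pool.Agent.S03864
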