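import Pool.Statements.S03871
import Pool.Agent.H96.WO8

set_option autoImplicit false
open Filter Topology Complex
open scoped InnerProductSpace
open Pool Pool.MP_135e37_an

namespace Pool.Agent.S03871

/-- For commuting selfadjoint pairs A, B with each difference A_j−B_j in the Lorentz ideal C₂⁻ and A's joint spectral measure absolutely continuous, wave operators along two distinct directions θ₁≠θ₂ in [0,2π), when they exist, coincide. -/
theorem result :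
    ∀ (H : Type) [NormedAddCommGroup H] [InnerProductSpace ℂ H] [CompleteSpace H]
      (A₁ A₂ B₁ B₂ : H →L[ℂ] H),
      IsSelfAdjoint A₁ → IsSelfAdjoint A₂ → IsSelfAdjoint B₁ → IsSelfAdjoint B₂ →
      Commute A₁ A₂ → Commute B₁ B₂ →
      (∀ T ∈ ({A₁ - B₁, A₂ - B₂} : Set (H →L[ℂ] H)),
        Summable (fun n : ℕ =>
          sInf {r : ℝ | ∃ F : H →L[ℂ] H,
            Module.rank ℂ (LinearMap.range (F : H →ₗ[ℂ] H)) ≤ (n : Cardinal) ∧ r = ‖T - F‖}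
            / Real.sqrt ((n : ℝ) + 1))) →
      (∀ x : H, ∃ f : ℝ × ℝ → ℂ, MeasureTheory.Integrable f ∧
        ∀ s t : ℝ,
          ⟪x, NormedSpace.exp (((s : ℂ) * Complex.I) • A₁ + ((t : ℂ) * Complex.I) • A₂) x⟫_ℂ
            = ∫ p : ℝ × ℝ, f p * Complex.exp (Complex.I * ((s : ℂ) * (p.1 : ℂ) + (t : ℂ) * (p.2 : ℂ)))) →
      ∀ θ₁ θ₂ : ℝ, 0 ≤ θ₁ → θ₁ < 2 * Real.pi → 0 ≤ θ₂ → θ₂ < 2 * Real.pi → θ₁ ≠ θ₂ →
      ∀ W₁ W₂ : H →L[ℂ] H,
      (∀ x : H, Tendsto (fun t : ℝ =>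
          (NormedSpace.exp ((-((t : ℂ) * Complex.I)) •
              ((Real.cos θ₁ : ℂ) • B₁ + (Real.sin θ₁ : ℂ) • B₂)) *
            NormedSpace.exp (((t : ℂ) * Complex.I) •
              ((Real.cos θ₁ : ℂ) • A₁ + (Real.sin θ₁ : ℂ) • A₂))) x)
        atTop (𝓝 (W₁ x))) →
      (∀ x : H, Tendsto (fun t : ℝ =>
          (NormedSpace.exp ((-((t : ℂ) * Complex.I)) •
              ((Real.cos θ₂ : ℂ) • B₁ + (Real.sin θ₂ : ℂ) • B₂)) *
            NormedSpace.exp (((t : ℂ) * Complex.I) •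
              ((Real.cos θ₂ : ℂ) • A₁ + (Real.sin θ₂ : ℂ) • A₂))) x)
        atTop (𝓝 (W₂ x))) →
      W₁ = W₂ := by
  intro H _ _ _ A₁ A₂ B₁ B₂ a1 a2 b1 b2 ca cb hs hac θ₁ θ₂ _ _ _ _ _ W₁ W₂ w1 w2
  obtain ⟨Φ, p1, p2⟩ := H96.WO.exists_hom a1 a2 ca
    (ρ := ‖A₁ + I • A₂‖ + ‖B₁ + I • B₂‖) (le_add_of_nonneg_right (norm_nonneg _)) (by positivity)
  obtain ⟨Ψ, q1, q2⟩ := H96.WO.exists_hom b1 b2 cb
    (ρ := ‖A₁ + I • A₂‖ + ‖B₁ + I • B₂‖) (le_add_of_nonneg_left (norm_nonneg _)) (by positivity)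
  have l1 : H96.WO.LZ (H96.WO.K1 Φ Ψ) := H96.WO.lz_of_summable _ (by
    rw [H96.WO.K1, p1, q1]; exact hs _ (by simp))
  have l2 : H96.WO.LZ (H96.WO.K2 Φ Ψ) := H96.WO.lz_of_summable _ (by
    rw [H96.WO.K2, p2, q2]; exact hs _ (by simp))
  have hA : H96.WO.AC Φ := fun x μ J R => by
    have := R.fin
    obtain ⟨f, hf, h⟩ := hac x
    have mp := Complex.volume_preserving_equiv_real_prod
    refine H96.WO.ac_of_char μ (F := f ∘ Complex.measurableEquivRealProd)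
      ((mp.integrable_comp_emb Complex.measurableEquivRealProd.measurableEmbedding).2 hf) fun ξ => ?_
    rw [← R.char, H96.WO.U_eq, p1, p2]
    have e : I • ((ξ.re : ℂ) • A₁ + (ξ.im : ℂ) • A₂) =
        ((ξ.re : ℂ) * I) • A₁ + ((ξ.im : ℂ) * I) • A₂ := by module
    rw [e, h, ← mp.integral_comp Complex.measurableEquivRealProd.measurableEmbedding]
    congr 1; ext z
    simp [H96.WO.ch, H96.WO.pr]
  ext x
  obtain ⟨y, hy⟩ := H96.WO.main hA l1 l2 x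
  have key : ∀ θ : ℝ, Tendsto (fun t : ℝ =>
          (NormedSpace.exp ((-((t : ℂ) * Complex.I)) •
              ((Real.cos θ : ℂ) • B₁ + (Real.sin θ : ℂ) • B₂)) *
            NormedSpace.exp (((t : ℂ) * Complex.I) •
              ((Real.cos θ : ℂ) • A₁ + (Real.sin θ : ℂ) • A₂))) x) atTop (𝓝 y) := fun θ => by
    have hω : ‖((Real.cos θ : ℂ) + (Real.sin θ : ℂ) * I)‖ = 1 := by
      rw [ofReal_cos, ofReal_sin, ← Complex.exp_mul_I]; exact Complex.norm_exp_ofReal_mul_I θ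
    refine (hy.comp (H96.WO.ray hω)).congr fun t => ?_
    simp only [Function.comp, H96.WO.ψ]
    rw [H96.WO.U_ray', H96.WO.U_ray, p1, p2, q1, q2]; rfl
  rw [tendsto_nhds_unique (w1 x) (key θ₁), tendsto_nhds_unique (w2 x) (key θ₂)]

end Pool.Agent.S03871
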