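import Pool.Statements.S03881
import Pool.Agent.H97.FSp2

set_option autoImplicit false
open TopologicalSpace
open Pool Pool.MP_13a5bb_an

namespace Pool.Agent.S03881

theorem key {k : ℕ} {S : Type} [CommRing S] [Algebra ℂ S] (ι : S →ₐ[ℂ] MvPowerSeries (Fin k) ℂ)
    (hι : Function.Injective ι) (hX : ∀ j, ∃ a, ι a = MvPowerSeries.X j) (t₁ t₂ : TopologicalSpace S)
    (a1 : @IsTopologicalRing S t₁ _) (a2 : @ContinuousSMul ℂ S _ _ t₁)
    (a3 : @TopologicalSpace.IsCompletelyMetrizableSpace S t₁)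
    (hc : ∀ n : Fin k →₀ ℕ, @Continuous S ℂ t₁ _ (fun a => MvPowerSeries.coeff n (ι a)))
    (b1 : @IsTopologicalRing S t₂ _) (b2 : @ContinuousSMul ℂ S _ _ t₂)
    (b3 : @TopologicalSpace.IsCompletelyMetrizableSpace S t₂) : t₁ = t₂ := by
  obtain ⟨p, rfl, a4⟩ := @H97.FSp.exists_norm S _ t₁ (@IsTopologicalRing.to_topologicalAddGroup S _ t₁ a1) a3
  obtain ⟨q, rfl, b4⟩ := @H97.FSp.exists_norm S _ t₂ (@IsTopologicalRing.to_topologicalAddGroup S _ t₂ b1) b3
  have h := @H97.FSp.core k S S p.toNormedAddCommGroup _ a2 a4 q.toNormedAddCommGroup _ b2 b4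
    ι.toLinearMap hι (LinearEquiv.refl ℂ S)
    (fun a => by
      let _i := p.toNormedAddCommGroup
      exact ⟨⟨LinearMap.mulLeft ℂ a, continuous_const_mul a⟩, map_mul ι a⟩)
    (fun a => by
      let _i := q.toNormedAddCommGroup
      exact ⟨⟨LinearMap.mulLeft ℂ a, continuous_const_mul a⟩, map_mul ι a⟩) hX hc
  refine le_antisymm (continuous_id_iff_le.1 (@H97.FSp.cgt S S q.toNormedAddCommGroup _ b2 b4
    p.toNormedAddCommGroup _ a2 a4 LinearMap.id fun g hg => h g fun ε hε => ?_))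
    (continuous_id_iff_le.1 (@H97.FSp.cgt S S p.toNormedAddCommGroup _ a2 a4
    q.toNormedAddCommGroup _ b2 b4 LinearMap.id h))
  obtain ⟨y, h1, h2⟩ := hg ε hε
  refine ⟨g - y, ?_, ?_⟩
  · rw [← neg_sub]; exact (q.neg' _).trans_lt h2
  · change p (g - y - g) < ε
    rw [sub_sub_cancel_left]; exact (p.neg' _).trans_lt h1

/-- For k>1, take any subalgebra of complex power series in k variables containing all polynomials, with a complete metrizable algebra topology in which every coefficient map is continuous. Then every complete metrizable algebra topology on it equals that one. -/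
theorem result :
    ∀ (k : ℕ), 1 < k →
    ∀ (S : Subalgebra ℂ (MvPowerSeries (Fin k) ℂ)),
      (∀ p : MvPolynomial (Fin k) ℂ, (p : MvPowerSeries (Fin k) ℂ) ∈ S) →
      ∀ (t₁ t₂ : TopologicalSpace S),
        @IsTopologicalRing S t₁ _ →
        @ContinuousSMul ℂ S _ _ t₁ →
        @TopologicalSpace.IsCompletelyMetrizableSpace S t₁ →
        (∀ n : Fin k →₀ ℕ,
          @Continuous S ℂ t₁ _ (fun a => MvPowerSeries.coeff n (a : MvPowerSeries (Fin k) ℂ))) →
        @IsTopologicalRing S t₂ _ →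
        @ContinuousSMul ℂ S _ _ t₂ →
        @TopologicalSpace.IsCompletelyMetrizableSpace S t₂ →
        t₁ = t₂ := by
  intro k _ S hS t₁ t₂
  exact key S.val Subtype.val_injective
    (fun j => ⟨⟨_, hS (MvPolynomial.X j)⟩, MvPolynomial.coe_X j⟩) t₁ t₂

end Pool.Agent.S03881
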