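import Pool.Statements.S03894
import Pool.Agent.H87.NoGat3

set_option autoImplicit false
open Pool Pool.MP_151819_an

namespace Pool.Agent.S03894

theorem result :
    ¬ (∀ (K : Type) [TopologicalSpace K] [CompactSpace K] [T2Space K],
      (∀ S : Set K, S.Nonempty → ∃ x ∈ S, ∃ U : Set K, IsOpen U ∧ U ∩ S = {x}) →
      (∃ N : C(K, ℝ) → ℝ,
          (∀ f g : C(K, ℝ), N (f + g) ≤ N f + N g) ∧
          (∀ (a : ℝ) (f : C(K, ℝ)), N (a • f) = |a| * N f) ∧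
          (∃ c C : ℝ, 0 < c ∧ 0 < C ∧ ∀ f : C(K, ℝ), c * ‖f‖ ≤ N f ∧ N f ≤ C * ‖f‖) ∧
          (∀ f g : C(K, ℝ), N f = 1 → N g = 1 → f ≠ g → N (f + g) < 2)) →
      (∃ N : C(K, ℝ) → ℝ,
          (∀ f g : C(K, ℝ), N (f + g) ≤ N f + N g) ∧
          (∀ (a : ℝ) (f : C(K, ℝ)), N (a • f) = |a| * N f) ∧
          (∃ c C : ℝ, 0 < c ∧ 0 < C ∧ ∀ f : C(K, ℝ), c * ‖f‖ ≤ N f ∧ N f ≤ C * ‖f‖) ∧
          (∀ f : C(K, ℝ), f ≠ 0 →
            ∃ L : C(K, ℝ) →L[ℝ] ℝ, ∀ v : C(K, ℝ), HasLineDerivAt ℝ N (L v) f v))) := by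
  intro h
  obtain ⟨f, hf⟩ := exists_surjective_nat H87.NoGat.D
  obtain ⟨p, h1, h2⟩ := H87.Mlur.sconv (fun n => H87.NoGat.ev (H87.NoGat.P (f n)))
    (fun n x => x.norm_coe_le_norm _) fun x hx => ContinuousMap.ext (congrFun
      (H87.NoGat.P_dense.equalizer (map_continuous x) (map_continuous (0 : C(_, ℝ)))
        (funext fun d => by obtain ⟨n, rfl⟩ := hf d; exact hx n)))
  obtain ⟨N, h3, h4, ⟨c, C, hc, hC, h5⟩, h6⟩ := h H87.NoGat.K H87.NoGat.scattered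
    ⟨p, map_add_le_add p, map_smul_eq_mul p, h1, h2⟩
  exact H87.NoGat.main (Seminorm.of N h3 h4) c C hc hC h5 h6

end Pool.Agent.S03894
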