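import Pool.Statements.S03896

set_option autoImplicit false
open Polynomial
open Pool Pool.MP_15266c_an

namespace Pool.Agent.S03896

noncomputable def Qp : Polynomial ℂ := X ^ 2 + 1
noncomputable def Up : Polynomial ℂ := X ^ 2 - X + 1
noncomputable def Pp : Polynomial ℂ := X * Qp * Up ^ 8

lemma Qp_deg : Qp.natDegree = 2 := by
  unfold Qp; compute_degree!

lemma Up_deg : Up.natDegree = 2 := by
  unfold Up; compute_degree!

lemma Qp_ne : Qp ≠ 0 := by
  intro h; have := Qp_deg; rw [h] at this; simp at this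

lemma Up_ne : Up ≠ 0 := by
  intro h; have := Up_deg; rw [h] at this; simp at this

lemma Pp_deg : Pp.natDegree = 19 := by
  unfold Pp
  rw [natDegree_mul (mul_ne_zero X_ne_zero Qp_ne) (pow_ne_zero _ Up_ne),
    natDegree_mul X_ne_zero Qp_ne, natDegree_pow, Qp_deg, Up_deg, natDegree_X]

lemma Pp_ne : Pp ≠ 0 := by
  intro h; have := Pp_deg; rw [h] at this; simp at this

lemma deriv_eval (z : ℂ) : (derivative Pp).eval z =
    (z ^ 2 - z + 1) ^ 7 * (19 * z ^ 4 - 11 * z ^ 3 + 20 * z ^ 2 - 9 * z + 1) := by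
  unfold Pp Qp Up
  simp [derivative_mul, derivative_pow]
  ring

lemma deriv_ne : derivative Pp ≠ 0 := by
  intro h
  have := deriv_eval 0
  rw [h] at this
  simp at this

lemma two_roots : ∃ a b : ℝ, 0 < a ∧ a < b ∧
    19 * a ^ 4 - 11 * a ^ 3 + 20 * a ^ 2 - 9 * a + 1 = 0 ∧
    19 * b ^ 4 - 11 * b ^ 3 + 20 * b ^ 2 - 9 * b + 1 = 0 := by
  have hc : Continuous (fun x : ℝ => 19 * x ^ 4 - 11 * x ^ 3 + 20 * x ^ 2 - 9 * x + 1) := by
    fun_prop
  have h1 := intermediate_value_Ioo' (a := (0:ℝ)) (b := 1/4) (by norm_num) hc.continuousOn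
  have h2 := intermediate_value_Ioo (a := (1/4:ℝ)) (b := 1/2) (by norm_num) hc.continuousOn
  obtain ⟨a, ha, hfa⟩ := h1 (show (0:ℝ) ∈ _ by constructor <;> norm_num)
  obtain ⟨b, hb, hfb⟩ := h2 (show (0:ℝ) ∈ _ by constructor <;> norm_num)
  exact ⟨a, b, ha.1, lt_trans ha.2 hb.1, hfa, hfb⟩

lemma out_of (a : ℝ) (ha : 0 < a) : ¬ ‖Qp.eval (a:ℂ)‖ ≤ 1 := by
  have : Qp.eval (a:ℂ) = ((a ^ 2 + 1 : ℝ) : ℂ) := by
    unfold Qp; simp
  rw [this, Complex.norm_real, Real.norm_eq_abs, abs_of_pos (by positivity)]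
  have : 0 < a ^ 2 := by positivity
  linarith

lemma root_of (a : ℝ) (h : 19 * a ^ 4 - 11 * a ^ 3 + 20 * a ^ 2 - 9 * a + 1 = 0) :
    (a : ℂ) ∈ (derivative Pp).roots := by
  rw [mem_roots deriv_ne, IsRoot, deriv_eval]
  have : (19 * (a:ℂ) ^ 4 - 11 * (a:ℂ) ^ 3 + 20 * (a:ℂ) ^ 2 - 9 * a + 1) = 0 := by
    exact_mod_cast congrArg (fun t : ℝ => (t : ℂ)) h
  rw [this, mul_zero]

theorem result :
    ¬ (∀ (P Q : Polynomial ℂ), 1 ≤ Q.natDegree → Q.natDegree < P.natDegree → Q ∣ P →
      (∀ z ∈ P.roots, ‖Q.eval z‖ ≤ 1) →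
      P.natDegree - Q.natDegree ≤
        (Multiset.filter (fun z => ‖Q.eval z‖ ≤ 1) (Polynomial.derivative P).roots).card) := by
  intro H
  have h := H Pp Qp (by rw [Qp_deg]; norm_num) (by rw [Qp_deg, Pp_deg]; norm_num)
    ⟨X * Up ^ 8, by unfold Pp; ring⟩ (by
      intro z hz
      rw [mem_roots Pp_ne, IsRoot] at hz
      unfold Pp at hz
      simp only [eval_mul, eval_X, eval_pow, mul_eq_zero] at hz
      rcases hz with (hz | hz) | hz
      · subst hz; unfold Qp; simp
      · rw [hz]; simp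
      · have hz' : z ^ 2 - z + 1 = 0 := by
          have := pow_eq_zero_iff (n := 8) (by norm_num) |>.mp hz
          unfold Up at this
          simpa using this
        have hq : Qp.eval z = z := by
          unfold Qp; simp; linear_combination hz'
        rw [hq]
        have h3 : z ^ 3 = -1 := by linear_combination (z + 1) * hz'
        have h4 : ‖z‖ ^ 3 = 1 := by rw [← norm_pow, h3]; simp
        have := (pow_eq_one_iff_of_nonneg (norm_nonneg z) (by norm_num : (3:ℕ) ≠ 0)).mp h4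
        exact this.le)
  rw [Qp_deg, Pp_deg] at h
  obtain ⟨a, b, ha, hab, hfa, hfb⟩ := two_roots
  have hdeg : (derivative Pp).roots.card ≤ 18 := by
    have h1 := card_roots' (derivative Pp)
    have h2 := natDegree_derivative_le Pp
    rw [Pp_deg] at h2
    omega
  have hsplit := Multiset.filter_add_not (fun z => ‖Qp.eval z‖ ≤ 1) (derivative Pp).roots
  have hc := congrArg Multiset.card hsplit
  rw [Multiset.card_add] at hc
  have hsub : ({(a:ℂ), (b:ℂ)} : Multiset ℂ) ≤
      Multiset.filter (fun z => ¬ ‖Qp.eval z‖ ≤ 1) (derivative Pp).roots := by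
    rw [Multiset.le_iff_subset]
    · intro z hz
      simp only [Multiset.insert_eq_cons, Multiset.mem_cons, Multiset.mem_singleton] at hz
      rw [Multiset.mem_filter]
      rcases hz with rfl | rfl
      · exact ⟨root_of a hfa, out_of a ha⟩
      · exact ⟨root_of b hfb, out_of b (lt_trans ha hab)⟩
    · simp only [Multiset.insert_eq_cons, Multiset.nodup_cons, Multiset.mem_singleton,
        Multiset.nodup_singleton, and_true]
      exact_mod_cast hab.ne
  have := Multiset.card_le_card hsub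
  simp only [Multiset.insert_eq_cons, Multiset.card_cons, Multiset.card_singleton] at this
  omega

end Pool.Agent.S03896
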