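import Pool.Statements.S03908
import Pool.Agent.H87.TwoR2

set_option autoImplicit false
universe u
open Pool Pool.MP_160a79_an

namespace Pool.Agent.S03908

theorem result :
    ¬ (∀ (X : Type u) [NormedAddCommGroup X] [NormedSpace ℝ X] [CompleteSpace X],
      Function.Surjective (NormedSpace.inclusionInDoubleDual ℝ X) →
      ¬ TopologicalSpace.SeparableSpace X →
      ∃ N : X → ℝ,
        (∀ x y : X, N (x + y) ≤ N x + N y) ∧
        (∀ (c : ℝ) (x : X), N (c • x) = |c| * N x) ∧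
        (∃ a b : ℝ, 0 < a ∧ 0 < b ∧ ∀ x : X, a * ‖x‖ ≤ N x ∧ N x ≤ b * ‖x‖) ∧
        ∀ s : ℕ → X, (∀ n, N (s n) = 1) →
          Filter.Tendsto (fun p : ℕ × ℕ => N (s p.1 + s p.2)) Filter.atTop (nhds 2) →
          ∃ x : X, Filter.Tendsto s Filter.atTop (nhds x)) := by
  intro h
  obtain ⟨N, h1, h2, ⟨a, b, ha, hb, h3⟩, h4⟩ := h Pool.Agent.H87.TwoR.X.{u} Pool.Agent.H87.TwoR.refl
    Pool.Agent.H87.TwoR.nonsep
  obtain ⟨s, h5, h6, h7⟩ := Pool.Agent.H87.TwoR.main N h1 h2 a b ha hb h3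
  obtain ⟨x, hx⟩ := h4 s h5 h6
  exact h7 x hx

end Pool.Agent.S03908
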