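import Pool.Statements.S03917
import Pool.Agent.H2.RlB

set_option autoImplicit false
open Pool Pool.MP_16d9f2_an

namespace Pool.Agent.S03917

/-- Every reflexive real Banach space whose smallest dense subset has exactly continuum cardinality admits a bi-Lipschitz map into the space of bounded real sequences with the sup norm. -/
theorem result :
    ∀ (X : Type) [NormedAddCommGroup X] [NormedSpace ℝ X] [CompleteSpace X],
      Function.Surjective (NormedSpace.inclusionInDoubleDual ℝ X) →
      (∃ D : Set X, Dense D ∧ Cardinal.mk D = Cardinal.continuum) →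
      (∀ D : Set X, Dense D → Cardinal.continuum ≤ Cardinal.mk D) →
      ∃ f : X → lp (fun _ : ℕ => ℝ) ⊤, ∃ a b : ℝ, 0 < a ∧ 0 < b ∧
        ∀ x y : X, a * dist x y ≤ dist (f x) (f y) ∧ dist (f x) (f y) ≤ b * dist x y := by
  intro X _ _ _ hJ hD _
  obtain ⟨D, h1, h2⟩ := hD
  obtain ⟨φ, hφ⟩ := Pool.Agent.H2.Rl.main hJ D h1 h2
  exact ⟨φ, 1 / 5, 1, by norm_num, one_pos, hφ⟩

end Pool.Agent.S03917
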