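import Pool.Statements.S03921
import Pool.Agent.H56.Der2

set_option autoImplicit false
open Pool Pool.MP_16fe1e_an

namespace Pool.Agent.S03921

/-- For any finite list of maps from [0,1] to [0,1] that are each a derivative (one-sided at the endpoints) of some function on [0,1], the graph over [0,1] of their composition is a connected subset of the plane. -/
theorem result :
    ∀ l : List (ℝ → ℝ),
      (∀ g ∈ l, Set.MapsTo g (Set.Icc (0:ℝ) 1) (Set.Icc (0:ℝ) 1) ∧
        ∃ F : ℝ → ℝ, ∀ x ∈ Set.Icc (0:ℝ) 1, HasDerivWithinAt F (g x) (Set.Icc (0:ℝ) 1) x) →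
      IsConnected ((fun x : ℝ => (x, (l.foldr (fun g h => g ∘ h) id) x)) '' Set.Icc (0:ℝ) 1) := by
  intro l h
  obtain ⟨g, n, a1, a2, a3⟩ := H56.Der.lst l h
  have := H56.Der.conn (fun i => (a1 i).1) (fun i => (a1 i).2) n
  have c := isPreconnected_range ((H56.Der.cont (g := g) a2).prodMk (H56.Der.cont (g := g) le_rfl))
  refine ⟨⟨_, 0, by simp, rfl⟩, ?_⟩
  convert c using 1
  ext q
  constructor
  · rintro ⟨x, hx, rfl⟩
    exact ⟨x, by simp only [(a3 x).1, (a3 x).2.2, H56.Der.cl_eq hx]⟩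
  · rintro ⟨x, rfl⟩
    exact ⟨_, H56.Der.cl_mem x, by simp only [(a3 x).1, (a3 x).2.2]⟩

end Pool.Agent.S03921
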