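import Pool.Statements.S03926
import Pool.Agent.H96.Adj
import Pool.Agent.H96.Cval

set_option autoImplicit false
open Pool Pool.MP_171342_an

namespace Pool.Agent.S03926

open Pool.Agent.H96.Adj Pool.Agent.H96.Achv Pool.Agent.H96.Cval Filter Topology

/-- the sequence -/
noncomputable def w (n : ℕ) : ℝ := Nat.casesOn n (107 / 9) ys

theorem w_pos (n : ℕ) : 0 < w n := by
  cases n with
  | zero => norm_num [w]
  | succ n => exact ys_pos n

theorem w_summ : Summable w := (summable_nat_add_iff 1).mp ys_sum.summable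

theorem mem_w (s : ℝ) : s ∈ Ach w ↔ s ∈ AA ∨ s - 107 / 9 ∈ AA := by
  rw [mem_succ w_summ, ← ys_eq]; rfl

theorem scale (s : ℝ) (h : s ∈ AA) (h13 : s < 13) : 10 * s ∈ AA := by
  rcases (mem_AA s).mp h with h1 | ⟨t, ht, h1 | h1 | h1 | h1⟩
  · linarith [h1.1]
  · rwa [show 10 * s = t by linarith]
  all_goals linarith [(AA_bd t ht).1]

theorem scale13 (s : ℝ) (h : s ∈ AA) (h1 : 113 / 9 < s) (h2 : s < 230 / 9) : 10 * (s - 13) ∈ AA := by
  rcases (mem_AA s).mp h with h1 | ⟨t, ht, h1 | h1 | h1 | h1⟩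
  · linarith [h1.1]
  · linarith [(AA_bd t ht).2]
  · rwa [show 10 * (s - 13) = t by linarith]
  all_goals linarith [(AA_bd t ht).1]

theorem not_scale (d : ℝ) (hd : d ∉ AA) (h0 : 0 ≤ d) (h : d < 130) (j : ℕ) : d * (1 / 10) ^ j ∉ AA := by
  induction j with
  | zero => simpa using hd
  | succ j ih =>
    intro h1
    have h2 : (1 / 10 : ℝ) ^ j ≤ 1 := pow_le_one₀ (by norm_num) (by norm_num)
    have h3 : d * (1 / 10) ^ j ≤ d := mul_le_of_le_one_right h0 h2
    have := scale _ h1 (by rw [pow_succ]; linarith)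
    apply ih
    convert this using 1
    ring

theorem refl_b (d : ℝ) (h0 : 0 < d) (h1 : 10 * d < 113 / 9) (h : 23 / 9 - d ∈ AA) : 100 * d ∈ AA := by
  have h2 := scale13 _ (scale _ h (by linarith)) (by linarith) (by linarith)
  rw [← ys_eq] at h2 ⊢
  have := symm_mem ys_sum.summable h2
  rw [ys_sum.tsum_eq] at this
  convert this using 1
  ring

theorem g1 : (127 / 10 : ℝ) ∉ AA := fun h => by
  have := (AA_bd _ (scale13 _ h (by norm_num) (by norm_num))).1
  norm_num at this

theorem g2 : (15428 / 1000 : ℝ) ∉ AA := fun h => by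
  have h1 := scale13 _ (scale13 _ h (by norm_num) (by norm_num)) (by norm_num) (by norm_num)
  rcases (mem_AA _).mp h1 with h1 | ⟨t, ht, h1 | h1 | h1 | h1⟩
  · linarith [h1.2]
  all_goals linarith [(AA_bd t ht).1, (AA_bd t ht).2]

theorem ga (j : ℕ) : 130 / 9 - 15428 / 10000 * (1 / 10) ^ j ∉ AA := by
  induction j with
  | zero =>
    intro h
    have := (AA_bd _ (scale13 _ h (by norm_num) (by norm_num))).1
    norm_num at this
  | succ j ih =>
    intro h
    have h2 : (1 / 10 : ℝ) ^ j ≤ 1 := pow_le_one₀ (by norm_num) (by norm_num)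
    have h3 : (0 : ℝ) < (1 / 10) ^ j := by positivity
    have := scale13 _ h (by rw [pow_succ]; linarith) (by rw [pow_succ]; linarith)
    apply ih
    convert this using 1
    ring

theorem gb (j : ℕ) : 23 / 9 - 15428 / 10000 * (1 / 10) ^ (j + 1) ∉ AA := by
  intro h
  have h2 : (1 / 10 : ℝ) ^ j ≤ 1 := pow_le_one₀ (by norm_num) (by norm_num)
  have := refl_b _ (by positivity) (by rw [pow_succ]; linarith) h
  apply not_scale _ g2 (by norm_num) (by norm_num) j
  convert this using 1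
  ring

theorem gc (j : ℕ) : 23 / 9 - 127 / 10 * (1 / 10) ^ (j + 2) ∉ AA := by
  intro h
  have h2 : (1 / 10 : ℝ) ^ j ≤ 1 := pow_le_one₀ (by norm_num) (by norm_num)
  have := refl_b _ (by positivity) (by rw [pow_succ, pow_succ]; linarith) h
  apply not_scale _ g1 (by norm_num) (by norm_num) j
  convert this using 1
  ring

theorem ma (j : ℕ) : 130 / 9 - 127 / 10 * (1 / 10) ^ j ∈ AA := by
  induction j with
  | zero =>
    convert AA_step 0 _ (AA_step 13 (400 / 9) ((mem_AA _).mpr (Or.inl ⟨by norm_num, by norm_num⟩))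
      (by simp)) (by simp) using 1
    norm_num
  | succ j ih =>
    convert AA_step 13 _ ih (by simp) using 1
    ring

theorem small (C ε : ℝ) (hε : 0 < ε) (k : ℕ) : ∃ j : ℕ, C * (1 / 10) ^ (j + k) < ε := by
  have h := ((tendsto_pow_atTop_nhds_zero_of_lt_one (r := (1 / 10 : ℝ)) (by norm_num)
    (by norm_num)).comp (tendsto_add_atTop_nat k)).const_mul C
  rw [mul_zero] at h
  exact (h.eventually (gt_mem_nhds hε)).exists

theorem mid (s : ℝ) (h1 : 23 / 9 ≤ s) (h2 : s ≤ 10) : s ∈ AA := by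
  convert AA_step 0 (10 * s) ((mem_AA _).mpr (Or.inl ⟨by linarith, by linarith⟩)) (by simp) using 1
  ring

theorem AA_reg : AA ⊆ closure (interior AA) := by
  refine coind _ _ (1 / 10) 0 (1130 / 9) (by norm_num) (by norm_num) isClosed_closure
    ⟨5, subset_closure ?_⟩ AA_bd fun s hs => ?_
  · rw [mem_interior_iff_mem_nhds]
    filter_upwards [Icc_mem_nhds (show (23 / 9 : ℝ) < 5 by norm_num) (show (5 : ℝ) < 10 by norm_num)]
      with s hs using mid s hs.1 hs.2
  · rw [← ys_eq] at hs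
    obtain ⟨t, ht, f, hf, h⟩ := (mem_ys s).mp hs
    exact ⟨t, ys_eq ▸ ht, f, h,
      aff_closure_interior AA AA f _ (by norm_num) fun u hu => AA_F f u hf hu⟩


/-- The negation of the preceding statement: For a positive summable sequence whose set of subsums E is a Cantorval, and distinct left endpoints a, b of interval components of E, there is ε>0 such that E∩[a−ε,a] is a translate of E∩[b−ε,b]. -/
theorem result :
    ¬ (∀ x : ℕ → ℝ, (∀ n, 0 < x n) → Summable x →
    ∀ E : Set ℝ, E = {s | ∃ A : Set ℕ, s = ∑' n, A.indicator x n} →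
    (E.Nonempty ∧ IsCompact E ∧ closure (interior E) = E ∧
      ∀ p ∈ E, (connectedComponentIn E p).Nontrivial →
        sInf (connectedComponentIn E p) ∈ closure {y ∈ E | connectedComponentIn E y = {y}} ∧
        sSup (connectedComponentIn E p) ∈ closure {y ∈ E | connectedComponentIn E y = {y}}) →
    ∀ a b : ℝ, a ≠ b →
      (∃ c, a < c ∧ Set.Icc a c ⊆ E) → (∀ y, y < a → ¬ Set.Icc y a ⊆ E) →
      (∃ c, b < c ∧ Set.Icc b c ⊆ E) → (∀ y, y < b → ¬ Set.Icc y b ⊆ E) →
      ∃ ε : ℝ, ε > 0 ∧ ∃ t : ℝ,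
        E ∩ Set.Icc (a - ε) a = (fun z => z + t) '' (E ∩ Set.Icc (b - ε) b)) := by
  intro h
  have hpos : ∀ (C : ℝ) (n : ℕ), 0 < C → 0 < C * (1 / 10) ^ n := fun C n h => by positivity
  have hneg : ∀ s, s < 107 / 9 → s - 107 / 9 ∉ AA := fun s hs h => by linarith [(AA_bd _ h).1]
  have k1 : closure (interior (Ach w)) = Ach w := by
    refine Set.Subset.antisymm (closure_minimal interior_subset (isCompact w_summ).isClosed) ?_
    intro s hs
    rcases (mem_w s).mp hs with h1 | h1
    · exact closure_mono (interior_mono fun u hu => (mem_w u).mpr (Or.inl hu)) (AA_reg h1)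
    · have := aff_closure_interior AA (Ach w) (107 / 9) 1 one_ne_zero
        (fun u hu => (mem_w _).mpr (Or.inr (by simpa using hu))) _ (AA_reg h1)
      simpa using this
  have k2 : ∀ ε > 0, ∃ y, 0 < y ∧ y < ε ∧ y ∉ Ach w := by
    intro ε hε
    obtain ⟨j, hj⟩ := small (127 / 10) (min ε 1) (by positivity) 0
    refine ⟨_, hpos _ _ (by norm_num), lt_of_lt_of_le hj (min_le_left _ _), fun h1 => ?_⟩
    rcases (mem_w _).mp h1 with h2 | h2
    · exact not_scale _ g1 (by norm_num) (by norm_num) _ h2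
    · exact hneg _ (by linarith [min_le_right ε 1]) h2
  have k3 : ∀ y, y < 130 / 9 → ¬ Set.Icc y (130 / 9) ⊆ Ach w := by
    intro y hy h1
    obtain ⟨j, hj⟩ := small (15428 / 10000) (130 / 9 - y) (by linarith) 1
    have hp := hpos (15428 / 10000) (j + 1) (by norm_num)
    rcases (mem_w _).mp (h1 (show 130 / 9 - 15428 / 10000 * (1 / 10) ^ (j + 1) ∈ Set.Icc y (130 / 9) from
      ⟨by linarith, by linarith⟩)) with h2 | h2
    · exact ga _ h2
    · apply gb j
      convert h2 using 1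
      ring
  have k4 : ∀ y, y < 23 / 9 → ¬ Set.Icc y (23 / 9) ⊆ Ach w := by
    intro y hy h1
    obtain ⟨j, hj⟩ := small (15428 / 10000) (23 / 9 - y) (by linarith) 1
    have hp := hpos (15428 / 10000) (j + 1) (by norm_num)
    rcases (mem_w _).mp (h1 (show 23 / 9 - 15428 / 10000 * (1 / 10) ^ (j + 1) ∈ Set.Icc y (23 / 9) from
      ⟨by linarith, by linarith⟩)) with h2 | h2
    · exact gb _ h2
    · exact hneg _ (by linarith) h2
  obtain ⟨ε, hε, t, ht⟩ := h w w_pos w_summ (Ach w) rfl ⟨⟨0, zero_mem w⟩, isCompact w_summ, k1,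
    fun p _ => ends (fun n => (w_pos n).le) w_summ k2 p⟩ (130 / 9) (23 / 9) (by norm_num)
    ⟨20, by norm_num, fun s hs => (mem_w s).mpr (Or.inr (mid _ (by linarith [hs.1]) (by linarith [hs.2])))⟩
    k3 ⟨10, by norm_num, fun s hs => (mem_w s).mpr (Or.inl (mid _ hs.1 hs.2))⟩ k4
  · have ha : (130 / 9 : ℝ) ∈ Ach w := (mem_w _).mpr (Or.inr (mid _ (by norm_num) (by norm_num)))
    have hb : (23 / 9 : ℝ) ∈ Ach w := (mem_w _).mpr (Or.inl (mid _ (by norm_num) (by norm_num)))
    have h1 : (130 / 9 : ℝ) ∈ Ach w ∩ Set.Icc (130 / 9 - ε) (130 / 9) := ⟨ha, by linarith, le_rfl⟩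
    have h2 : 23 / 9 + t ∈ Ach w ∩ Set.Icc (130 / 9 - ε) (130 / 9) := by
      rw [ht]; exact ⟨23 / 9, ⟨hb, by linarith, le_rfl⟩, rfl⟩
    rw [ht] at h1
    obtain ⟨z, hz, hzt⟩ := h1
    have htv : t = 107 / 9 := by
      have := hz.2.2
      have := h2.2.2
      simp only at hzt
      linarith
    obtain ⟨j, hj⟩ := small (127 / 10) ε hε 2
    have hp := hpos (127 / 10) (j + 2) (by norm_num)
    have h3 : 130 / 9 - 127 / 10 * (1 / 10) ^ (j + 2) ∈ Ach w ∩ Set.Icc (130 / 9 - ε) (130 / 9) :=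
      ⟨(mem_w _).mpr (Or.inl (ma _)), by linarith, by linarith⟩
    rw [ht] at h3
    obtain ⟨z, hz, hzt⟩ := h3
    simp only at hzt
    rcases (mem_w z).mp hz.1 with h4 | h4
    · apply gc j
      convert h4 using 1
      linarith
    · exact hneg z (by linarith) h4

end Pool.Agent.S03926
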