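import Pool.Statements.S03927
import Pool.Agent.H56.Ov8

set_option autoImplicit false
open Pool Pool.MP_171f82_an

namespace Pool.Agent.S03927

/-- If a smooth strictly convex closed planar curve has, for every two directions, the double-chord map (other end of chord in one direction, then the other) topologically conjugate to a circle rotation, then the curve is an ellipse. -/
theorem result :
    ∀ K : Set (ℝ × ℝ), IsCompact K → StrictConvex ℝ K → (interior K).Nonempty →
      (∃ γ : ℝ → ℝ × ℝ, ContDiff ℝ ((⊤ : ℕ∞) : WithTop ℕ∞) γ ∧ Function.Periodic γ 1 ∧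
          Set.InjOn γ (Set.Ico 0 1) ∧ (∀ t : ℝ, deriv γ t ≠ 0) ∧ Set.range γ = frontier K) →
      (∀ u v : ℝ × ℝ, u ≠ 0 → v ≠ 0 → ∀ σu σv : ℝ × ℝ → ℝ × ℝ,
        (∀ x ∈ frontier K, σu x ∈ frontier K ∧ (∃ t : ℝ, σu x = x + t • u) ∧
            (σu x = x → ∀ t : ℝ, x + t • u ∈ frontier K → t = 0)) →
        (∀ x ∈ frontier K, σv x ∈ frontier K ∧ (∃ t : ℝ, σv x = x + t • v) ∧
            (σv x = x → ∀ t : ℝ, x + t • v ∈ frontier K → t = 0)) →
        ∃ h : ℝ × ℝ → AddCircle (1 : ℝ), ∃ α : AddCircle (1 : ℝ),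
          ContinuousOn h (frontier K) ∧ Set.BijOn h (frontier K) Set.univ ∧
            ∀ x ∈ frontier K, h (σv (σu x)) = h x + α) →
      ∃ A : (ℝ × ℝ) ≃ᵃ[ℝ] (ℝ × ℝ), frontier K = A '' {p : ℝ × ℝ | p.1 ^ 2 + p.2 ^ 2 = 1} := by
  intro K hK hs ⟨o, ho⟩ ⟨γ, sm, per, inj, reg, rng⟩ H
  have inj' : ∀ s t, t < s → s < t + 1 → γ s ≠ γ t := fun s t h1 h2 e => by
    have k : ∀ s, γ (Int.fract s) = γ s := fun s => by
      have := per.sub_int_mul_eq (x := s) ⌊s⌋
      rwa [mul_one] at this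
    have := inj ⟨Int.fract_nonneg s, Int.fract_lt_one s⟩ ⟨Int.fract_nonneg t, Int.fract_lt_one t⟩
      (by rw [k, k, e])
    obtain ⟨z, hz⟩ := Int.fract_eq_fract.1 this
    have a1 : (0:ℝ) < z := by linarith
    have a2 : (z:ℝ) < 1 := by linarith
    have a3 : 0 < z := by exact_mod_cast a1
    have a4 : z < 1 := by exact_mod_cast a2
    omega
  have uq : ∀ u : H56.Ov.V, u ≠ 0 → ∀ x y z, x ∈ frontier K → H56.Ov.Ch (frontier K) u x y →
      H56.Ov.Ch (frontier K) u x z → y = z :=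
    fun u hu x y z hx h1 h2 => H56.Ov.ch_uniq hK.isClosed hs hu hx h1 h2
  have rot : ∀ u v : H56.Ov.V, u ≠ 0 → v ≠ 0 → ∀ p q, p ∈ frontier K →
      H56.Ov.Ch (frontier K) u p p → H56.Ov.Ch (frontier K) v p q →
      H56.Ov.Ch (frontier K) u q q → H56.Ov.Ch (frontier K) v q p → ∀ x y z w e, x ∈ frontier K →
      H56.Ov.Ch (frontier K) u x y → H56.Ov.Ch (frontier K) v y z →
      H56.Ov.Ch (frontier K) u z w → H56.Ov.Ch (frontier K) v w e → e = x := by
    intro u v hu hv p q hp c1 c2 c3 c4 x y z w e hx d1 d2 d3 d4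
    choose! σu hσu using fun x (hx : x ∈ frontier K) => H56.Ov.Ch.ex hu hx
    choose! σv hσv using fun x (hx : x ∈ frontier K) => H56.Ov.Ch.ex hv hx
    obtain ⟨h, α, -, hb, hr⟩ := H u v hu hv σu σv hσu hσv
    have k : ∀ x y z, x ∈ frontier K → H56.Ov.Ch (frontier K) u x y →
        H56.Ov.Ch (frontier K) v y z → h z = h x + α := fun x y z hx h1 h2 => by
      rw [← hr x hx, uq u hu x _ y hx (hσu x hx) h1, uq v hv y _ z h1.1 (hσv y h1.1) h2]
    have e1 := k p p q hp c1 c2
    have e2 := k q q p c2.1 c3 c4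
    have e3 : α + α = 0 := by
      rw [e1, add_assoc] at e2
      exact (left_eq_add.1 e2)
    exact hb.injOn d4.1 hx (by rw [k z w e d2.1 d3 d4, k x y z hx d1 d2, add_assoc, e3, add_zero])
  have df : Differentiable ℝ γ := sm.differentiable (by simp)
  have sd := fun t x hx hn => H56.Ov.side hK.isClosed hs df reg rng ho t (x := x) hx hn
  have m : ∀ s, γ s ∈ frontier K := fun s => rng ▸ Set.mem_range_self s
  have c : Continuous fun t => H56.Ov.dt (deriv γ t) (o - γ t) := by
    have h1 := (contDiff_infty_iff_deriv.1 sm).2.continuous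
    have h2 := continuous_const (y := o) |>.sub sm.continuous
    exact (h1.fst.mul h2.snd).sub (h1.snd.mul h2.fst)
  rcases isPreconnected_univ.mapsTo_Ioi_or_Iio (b := 0) c.continuousOn (fun t _ e => by
    have := sd t o (interior_subset ho) fun e => (m t).2 (e ▸ ho)
    rw [e] at this
    simp at this) with h1 | h1
  · exact H56.Ov.core hK hs ⟨sm, per, inj', reg, fun t s hn =>
      (mul_pos_iff_of_pos_right (h1 (Set.mem_univ t))).1
        (sd t _ (hK.isClosed.frontier_subset (m s)) hn), rng ▸ uq, rng ▸ rot⟩ rng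
  · have rng' : (Set.range fun t => γ (-t)) = frontier K := by
      rw [← rng]
      exact neg_surjective.range_comp γ
    refine H56.Ov.core (γ := fun t => γ (-t)) hK hs ⟨sm.comp contDiff_neg, fun t => ?_,
      fun s t a1 a2 => (inj' _ _ (by linarith) (by linarith)).symm, fun t => ?_, fun t s hn => ?_,
      rng' ▸ uq, rng' ▸ rot⟩ rng'
    · rw [← per (-(t + 1))]; simp
    · rw [deriv_comp_neg]; exact neg_ne_zero.2 (reg _)
    · have a1 := sd (-t) _ (hK.isClosed.frontier_subset (m (-s))) hn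
      have a2 : H56.Ov.dt (deriv γ (-t)) (o - γ (-t)) < 0 := h1 (Set.mem_univ (-t))
      rw [deriv_comp_neg, ← neg_one_smul ℝ, H56.Ov.dt_sl]
      by_contra hh
      nlinarith

end Pool.Agent.S03927
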