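import Pool.Statements.S03956
import Pool.Agent.H87.Compan3

set_option autoImplicit false
open Pool Pool.MP_19858b_an

namespace Pool.Agent.S03956

theorem result :
    ¬ (∀ (X : Type) [NormedAddCommGroup X] [NormedSpace ℝ X] [CompleteSpace X] [Nontrivial X],
  ∃ F : ℕ → Set (Seminorm ℝ X),
    (∀ p : Seminorm ℝ X,
      (∃ a b : ℝ, 0 < a ∧ 0 < b ∧ ∀ x : X, a * ‖x‖ ≤ p x ∧ p x ≤ b * ‖x‖) →
      (∃ q : Seminorm ℝ X,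
        (∃ a b : ℝ, 0 < a ∧ 0 < b ∧ ∀ x : X, a * ‖x‖ ≤ q x ∧ q x ≤ b * ‖x‖) ∧
        ∀ x : X, 1 < p x → ∀ y : X, p y ≤ 1 → ∃ z : X, p z ≤ 1 ∧ q (x - z) < q (x - y)) →
      ∃ n : ℕ, p ∈ F n) ∧
    ∀ n : ℕ, ∀ p : Seminorm ℝ X,
      (∃ a b : ℝ, 0 < a ∧ 0 < b ∧ ∀ x : X, a * ‖x‖ ≤ p x ∧ p x ≤ b * ‖x‖) →
      ∀ ε : ℝ, 0 < ε →
        ∃ q : Seminorm ℝ X,
          (∃ a b : ℝ, 0 < a ∧ 0 < b ∧ ∀ x : X, a * ‖x‖ ≤ q x ∧ q x ≤ b * ‖x‖) ∧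
          ∃ δ : ℝ, 0 < δ ∧
            ∀ r : Seminorm ℝ X,
              (∃ a b : ℝ, 0 < a ∧ 0 < b ∧ ∀ x : X, a * ‖x‖ ≤ r x ∧ r x ≤ b * ‖x‖) →
              (⨆ x : Metric.closedBall (0 : X) 1, |q (x : X) - r (x : X)|) < δ →
              ((⨆ x : Metric.closedBall (0 : X) 1, |p (x : X) - r (x : X)|) < ε ∧ r ∉ F n)) := by
  intro H
  obtain ⟨F, h1, h2⟩ := H H87.Compan.X
  obtain ⟨p, a1, a2, a3, a4⟩ := H87.Compan.game h2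
  obtain ⟨n, hn⟩ := h1 p a1 (H87.Compan.compan a2 a4)
  exact a3 n hn

end Pool.Agent.S03956
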