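import Pool.Statements.S03988

set_option autoImplicit false
open Pool Pool.MP_1c6fe5_an
open Filter Topology Set OnePoint

namespace Pool.Agent.S03988

abbrev K : Type := OnePoint ℕ

/-- continuous self-maps of the convergent sequence, under composition -/
def SG : Type := C(K, K)

/-- underlying continuous map -/
def SG.val (s : SG) : C(K, K) := s

/-- constructor -/
def SG.mk (s : C(K, K)) : SG := s

instance : Semigroup SG where
  mul u v := SG.mk (u.val.comp v.val)
  mul_assoc _ _ _ := rfl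

theorem mul_val (u v : SG) : (u * v).val = u.val.comp v.val := rfl

/-- constant maps -/
def cst (y : K) : SG := SG.mk (ContinuousMap.const K y)

theorem mul_cst (u : SG) (y : K) : u * cst y = cst (u.val y) := rfl

/-- eventually constant maps -/
def evc {Y : Type} [TopologicalSpace Y] (f : ℕ → Y) (y : Y) (N : ℕ) (h : ∀ n, N ≤ n → f n = y) :
    C(K, Y) := continuousMapMkNat f y (tendsto_atTop_of_eventually_const h)

@[simp] theorem evc_inf {Y : Type} [TopologicalSpace Y] (f : ℕ → Y) (y : Y) (N : ℕ)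
    (h : ∀ n, N ≤ n → f n = y) : evc f y N h ∞ = y := rfl

@[simp] theorem evc_coe {Y : Type} [TopologicalSpace Y] (f : ℕ → Y) (y : Y) (N : ℕ)
    (h : ∀ n, N ≤ n → f n = y) (n : ℕ) : evc f y N h (n : K) = f n := rfl

/-- step maps -/
def step (a b : K) (N : ℕ) : SG :=
  SG.mk (evc (fun n => if n < N then a else b) b N (fun n hn => by simp [not_lt.2 hn]))

abbrev L : Type := lp (fun _ : SG => ℝ) ⊤

/-- evaluation on `ℓ^∞` -/
noncomputable def evL (t : SG) : L →L[ℝ] ℝ :=
  LinearMap.mkContinuous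
    { toFun := fun g => g t
      map_add' := fun _ _ => rfl
      map_smul' := fun _ _ => rfl } 1
    (fun g => by simpa using lp.norm_apply_le_norm ENNReal.top_ne_zero g t)

theorem wap_const (f : SG → ℝ) (F : L) (hF : ∀ t, F t = f t)
    (hc : IsCompact (closure (toWeakSpace ℝ L '' {G : L | ∃ s : SG, ∀ t : SG, G t = f (s * t)})))
    (a b : K) : f (cst a) = f (cst b) := by
  let g : ℕ → L := fun N => ⟨fun t => f (step a b N * t), by
    refine memℓp_infty ⟨‖F‖, ?_⟩
    rintro _ ⟨t, rfl⟩
    simp only [← hF]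
    exact lp.norm_apply_le_norm ENNReal.top_ne_zero F _⟩
  have hg : ∀ N m : ℕ, g N (cst (m : K)) = if m < N then f (cst a) else f (cst b) := by
    intro N m
    show f (step a b N * cst (m : K)) = _
    rw [mul_cst]
    show f (cst (if m < N then a else b)) = _
    split_ifs <;> rfl
  have hle : map (fun N => toWeakSpace ℝ L (g N)) atTop ≤
      𝓟 (closure (toWeakSpace ℝ L '' {G : L | ∃ s : SG, ∀ t : SG, G t = f (s * t)})) := by
    rw [le_principal_iff, mem_map]
    exact Eventually.of_forall fun N => subset_closure ⟨g N, ⟨step a b N, fun _ => rfl⟩, rfl⟩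
  obtain ⟨x, -, hx⟩ := hc hle
  obtain ⟨G, rfl⟩ := (toWeakSpace ℝ L).surjective x
  have hx' : MapClusterPt (toWeakSpace ℝ L G) atTop (fun N => toWeakSpace ℝ L (g N)) := hx
  have h1 : ∀ m : ℕ, G (cst (m : K)) = f (cst a) := by
    intro m
    have hcont : Continuous fun y : WeakSpace ℝ L =>
        (topDualPairing ℝ L).flip y (evL (cst (m : K))) :=
      WeakBilin.eval_continuous (topDualPairing ℝ L).flip _
    have h2 := hx'.continuousAt_comp hcont.continuousAt
    have h3 : Tendsto ((fun y : WeakSpace ℝ L =>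
        (topDualPairing ℝ L).flip y (evL (cst (m : K)))) ∘ fun N => toWeakSpace ℝ L (g N))
        atTop (𝓝 (f (cst a))) := by
      refine tendsto_atTop_of_eventually_const (i₀ := m + 1) fun N hN => ?_
      show g N (cst (m : K)) = _
      rw [hg, if_pos (by omega)]
    exact eq_of_nhds_neBot (h2.clusterPt.mono h3)
  let A : Set L := {h | Tendsto (fun m : ℕ => h (cst (m : K))) atTop (𝓝 (f (cst b)))}
  have hAconv : Convex ℝ A := by
    intro u hu v hv p q _ _ hpq
    have := (Tendsto.const_mul p hu).add (Tendsto.const_mul q hv)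
    rw [← add_mul, hpq, one_mul] at this
    exact this
  have hAcl : IsClosed A := by
    refine isClosed_of_closure_subset fun u hu => ?_
    show Tendsto _ _ _
    rw [Metric.tendsto_atTop]
    intro ε hε
    obtain ⟨v, hv, huv⟩ := Metric.mem_closure_iff.1 hu (ε / 2) (by linarith)
    obtain ⟨N, hN⟩ := Metric.tendsto_atTop.1 hv (ε / 2) (by linarith)
    refine ⟨N, fun n hn => ?_⟩
    have h5 : dist (u (cst (n : K))) (v (cst (n : K))) ≤ dist u v := by
      rw [dist_eq_norm, dist_eq_norm]
      exact lp.norm_apply_le_norm ENNReal.top_ne_zero (u - v) _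
    calc dist (u (cst (n : K))) (f (cst b))
        ≤ dist (u (cst (n : K))) (v (cst (n : K))) + dist (v (cst (n : K))) (f (cst b)) :=
          dist_triangle _ _ _
      _ < ε := by linarith [hN n hn]
  have hGA : G ∈ A := by
    have h6 : toWeakSpace ℝ L G ∈ closure (toWeakSpace ℝ L '' A) := by
      refine mem_closure_iff_clusterPt.2 (hx'.clusterPt.mono ?_)
      rw [le_principal_iff, mem_map]
      refine Eventually.of_forall fun N => ⟨g N, ?_, rfl⟩
      refine tendsto_atTop_of_eventually_const (i₀ := N) fun m hm => ?_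
      rw [hg, if_neg (by omega)]
    rw [← hAconv.toWeakSpace_closure ℝ, hAcl.closure_eq] at h6
    obtain ⟨G', hG', he⟩ := h6
    rwa [← (toWeakSpace ℝ L).injective he]
  have h7 : Tendsto (fun m : ℕ => G (cst (m : K))) atTop (𝓝 (f (cst b))) := hGA
  simp only [h1] at h7
  exact tendsto_nhds_unique tendsto_const_nhds h7

abbrev X : Type := C(K, ℝ)

theorem nsm' {E : Type} [NormedAddCommGroup E] [NormedSpace ℝ E] (c : ℝ) (φ : StrongDual ℝ E) :
    ‖c • φ‖ = |c| * ‖φ‖ := by rw [norm_smul, Real.norm_eq_abs]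

theorem nsm (c : ℝ) (φ : StrongDual ℝ X) : ‖c • φ‖ = |c| * ‖φ‖ := nsm' (E := X) c φ

/-- composition operator -/
noncomputable def P (s : C(K, K)) : X →L[ℝ] X :=
  LinearMap.mkContinuous
    { toFun := fun h => h.comp s
      map_add' := fun _ _ => rfl
      map_smul' := fun _ _ => rfl } 1
    (fun h => by
      rw [one_mul]
      exact (ContinuousMap.norm_le _ (norm_nonneg _)).2 fun x => h.norm_coe_le_norm (s x))

@[simp] theorem P_apply (s : C(K, K)) (h : X) (x : K) : P s h x = h (s x) := rfl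

theorem norm_P (s : C(K, K)) : ‖P s‖ ≤ 1 := LinearMap.mkContinuous_norm_le _ zero_le_one _

/-- indicator of an isolated point -/
def e (k : ℕ) : X :=
  evc (fun n => if n = k then (1 : ℝ) else 0) 0 (k + 1) (fun n hn => if_neg (by omega))

/-- retractions -/
def r (N : ℕ) : C(K, K) :=
  evc (fun n => if n < N then (n : K) else ∞) ∞ N (fun n hn => if_neg (not_lt.2 hn))

theorem sum_abs_le (φ : StrongDual ℝ X) (F : Finset ℕ) : ∑ a ∈ F, |φ (e a)| ≤ ‖φ‖ := by
  classical
  let σ : ℕ → ℝ := fun a => if 0 ≤ φ (e a) then 1 else -1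
  have h1 : ∑ a ∈ F, |φ (e a)| = φ (∑ a ∈ F, σ a • e a) := by
    rw [map_sum]
    refine Finset.sum_congr rfl fun a _ => ?_
    rw [_root_.map_smul, smul_eq_mul]
    by_cases h : 0 ≤ φ (e a)
    · simp [σ, h, abs_of_nonneg h]
    · simp [σ, h, abs_of_neg (not_le.1 h)]
  have h2 : ‖∑ a ∈ F, σ a • e a‖ ≤ 1 := by
    refine (ContinuousMap.norm_le _ zero_le_one).2 fun t => ?_
    rw [ContinuousMap.sum_apply]
    induction t using OnePoint.rec with
    | infty => simp [e]
    | coe n =>
      simp only [e, ContinuousMap.smul_apply, evc_coe, smul_eq_mul, mul_ite,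
        mul_one, mul_zero, Finset.sum_ite_eq]
      split_ifs with h
      · simp only [σ]; split_ifs <;> simp
      · simp
  rw [h1]
  calc φ (∑ a ∈ F, σ a • e a) ≤ ‖φ (∑ a ∈ F, σ a • e a)‖ := Real.le_norm_self _
    _ ≤ ‖φ‖ * ‖∑ a ∈ F, σ a • e a‖ := φ.le_opNorm _
    _ ≤ ‖φ‖ * 1 := by gcongr
    _ = ‖φ‖ := mul_one _

theorem P_succ (N : ℕ) (h : X) :
    P (r (N + 1)) h = P (r N) h + (h (N : K) - h ∞) • e N := by
  ext t
  induction t using OnePoint.rec with
  | infty => simp [e, r]
  | coe n =>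
    simp only [P_apply, r, e, evc_coe, ContinuousMap.add_apply, ContinuousMap.smul_apply,
      smul_eq_mul]
    rcases lt_trichotomy n N with hn | rfl | hn
    · rw [if_pos (by omega), if_pos hn, if_neg (by omega)]; ring
    · rw [if_pos (by omega), if_neg (by omega), if_pos rfl]; ring
    · rw [if_neg (by omega), if_neg (by omega), if_neg (by omega)]; ring

theorem P_zero (h : X) : P (r 0) h = h ∞ • (1 : X) := by
  ext t
  induction t using OnePoint.rec with
  | infty => simp [r]
  | coe n => simp [r]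

theorem P_tendsto (h : X) : Tendsto (fun N => P (r N) h) atTop (𝓝 h) := by
  rw [Metric.tendsto_atTop]
  intro ε hε
  obtain ⟨N, hN⟩ := Metric.tendsto_atTop.1 ((continuous_iff_from_nat h).1 h.continuous) ε hε
  refine ⟨N, fun M hM => ?_⟩
  rw [ContinuousMap.dist_lt_iff hε]
  intro t
  induction t using OnePoint.rec with
  | infty => simpa [r] using hε
  | coe n =>
    simp only [P_apply, r, evc_coe]
    split_ifs with hn
    · simpa using hε
    · rw [dist_comm]; exact hN n (by omega)

/-- point evaluations -/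
noncomputable def δ (x : K) : StrongDual ℝ X := ContinuousMap.evalCLM ℝ x

@[simp] theorem δ_apply (x : K) (h : X) : δ x h = h x := rfl

theorem norm_δ (x : K) : ‖δ x‖ ≤ 1 :=
  ContinuousLinearMap.opNorm_le_bound _ zero_le_one fun h => by
    rw [one_mul]; exact h.norm_coe_le_norm x

theorem mem_closure_span (φ : StrongDual ℝ X) :
    φ ∈ closure (Submodule.span ℝ (range δ) : Set (StrongDual ℝ X)) := by
  let ψ : ℕ → StrongDual ℝ X := fun N => φ.comp (P (r N))
  have hsucc : ∀ N, ψ (N + 1) = ψ N + φ (e N) • (δ (N : K) - δ ∞) := by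
    intro N
    ext h
    simp [ψ, P_succ, mul_comm]
  have hmem : ∀ N, ψ N ∈ Submodule.span ℝ (range δ) := by
    intro N
    induction N with
    | zero =>
      have : ψ 0 = φ 1 • δ ∞ := by
        ext h
        simp [ψ, P_zero, mul_comm]
      rw [this]
      exact Submodule.smul_mem _ _ (Submodule.subset_span ⟨_, rfl⟩)
    | succ N ih =>
      rw [hsucc]
      exact Submodule.add_mem _ ih (Submodule.smul_mem _ _ (Submodule.sub_mem _
        (Submodule.subset_span ⟨_, rfl⟩) (Submodule.subset_span ⟨_, rfl⟩)))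
  have hs : Summable fun a : ℕ => |φ (e a)| :=
    summable_of_sum_le (fun a => abs_nonneg _) (sum_abs_le φ)
  have hC : CauchySeq ψ := by
    refine cauchySeq_of_dist_le_of_summable (α := StrongDual ℝ X) (fun N => |φ (e N)| * 2)
      (fun N => ?_) (hs.mul_right 2)
    rw [dist_comm]
    refine (dist_eq_norm (ψ (N + 1)) (ψ N)).trans_le ?_
    rw [hsucc, add_sub_cancel_left, nsm]
    gcongr
    linarith [norm_sub_le (δ (N : K)) (δ ∞), norm_δ (N : K), norm_δ ∞]
  obtain ⟨χ, hχ⟩ := cauchySeq_tendsto_of_complete hC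
  have : χ = φ := by
    ext h
    have h1 : Tendsto (fun N => ψ N h) atTop (𝓝 (χ h)) :=
      ((ContinuousLinearMap.apply ℝ ℝ h).continuous.tendsto χ).comp hχ
    have h2 : Tendsto (fun N => ψ N h) atTop (𝓝 (φ h)) :=
      (φ.continuous.tendsto h).comp (P_tendsto h)
    exact tendsto_nhds_unique h1 h2
  rw [← this]
  exact mem_closure_of_tendsto hχ (Eventually.of_forall hmem)

/-- The negation of the preceding statement. -/
theorem result :
    ¬ (∀ (S : Type) [Semigroup S] (W : (S → ℝ) → Prop),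
      (∀ f : S → ℝ, W f ↔
        ∃ F : lp (fun _ : S => ℝ) ⊤, (∀ t, F t = f t) ∧
          IsCompact (closure (toWeakSpace ℝ (lp (fun _ : S => ℝ) ⊤) ''
            {G : lp (fun _ : S => ℝ) ⊤ | ∃ s : S, ∀ t : S, G t = f (s * t)}))) →
      (∃ m : (S → ℝ) → ℝ,
        (∀ f g : S → ℝ, W f → W g → m (f + g) = m f + m g) ∧
        (∀ (c : ℝ) (f : S → ℝ), W f → m (c • f) = c * m f) ∧
        (∀ f : S → ℝ, W f → (∀ t, 0 ≤ f t) → 0 ≤ m f) ∧
        m (fun _ => 1) = 1 ∧
        (∀ (s : S) (f : S → ℝ), W f → m (fun t => f (s * t)) = m f)) →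
      ∀ (X : Type) [NormedAddCommGroup X] [NormedSpace ℝ X] [CompleteSpace X]
        (C : Set (StrongDual ℝ X)) (T : S → StrongDual ℝ X → StrongDual ℝ X),
        C.Nonempty → Convex ℝ C → TopologicalSpace.IsSeparable C →
        IsCompact (StrongDual.toWeakDual '' C) →
        (∀ s, Set.MapsTo (T s) C C) →
        (∀ s t : S, ∀ φ ∈ C, T (s * t) φ = T s (T t φ)) →
        (∀ s : S, ∀ φ ∈ C, ∀ ψ ∈ C, ‖T s φ - T s ψ‖ ≤ ‖φ - ψ‖) →
        (∀ s : S, ContinuousOn
          (fun ω => StrongDual.toWeakDual (T s (StrongDual.toWeakDual.symm ω)))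
          (StrongDual.toWeakDual '' C)) →
        ∃ φ ∈ C, ∀ s : S, T s φ = φ) := by
  intro H
  have hnorm : ∀ (s : SG) (φ : StrongDual ℝ X), ‖φ.comp (P s.val)‖ ≤ ‖φ‖ := fun s φ =>
    (φ.opNorm_comp_le _).trans (by
      have := norm_P s.val
      have := norm_nonneg φ
      nlinarith)
  obtain ⟨φ, hφ, hfix⟩ := H SG _ (fun f => Iff.rfl)
    ⟨fun f => f (cst ∞), fun _ _ _ _ => rfl, fun _ _ _ => rfl, fun _ _ h => h _, rfl, by
      rintro s f ⟨F, hF, hc⟩
      show f (s * cst ∞) = f (cst ∞)
      rw [mul_cst]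
      exact wap_const f F hF hc _ _⟩
    X {φ | ‖φ‖ ≤ 1 ∧ φ 1 = 1} (fun s φ => φ.comp (P s.val))
    ⟨δ ∞, norm_δ _, rfl⟩
    (by
      refine Convex.inter (s := {φ : StrongDual ℝ X | ‖φ‖ ≤ 1}) (t := {φ | φ 1 = 1}) ?_ ?_
      · intro u hu v hv p q hp hq hpq
        simp only [mem_ofPred_eq] at hu hv ⊢
        refine (norm_add_le (p • u) (q • v)).trans ?_
        rw [nsm, nsm, abs_of_nonneg hp, abs_of_nonneg hq]
        nlinarith
      · intro u hu v hv p q _ _ hpq
        simp only [mem_ofPred_eq] at hu hv ⊢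
        simp [hu, hv, hpq])
    (((countable_range δ).isSeparable.span (R := ℝ)).closure.mono fun φ _ => mem_closure_span φ)
    (by
      have h1 := WeakDual.isCompact_closedBall (𝕜 := ℝ) (0 : StrongDual ℝ X) 1
      have h2 : IsClosed {ω : WeakDual ℝ X | ω 1 = 1} :=
        isClosed_eq (WeakDual.eval_continuous _) continuous_const
      convert h1.inter_right h2 using 1
      ext ω
      constructor
      · rintro ⟨φ, ⟨ha, hb⟩, rfl⟩
        exact ⟨by simpa using ha, hb⟩
      · rintro ⟨ha, hb⟩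
        exact ⟨WeakDual.toStrongDual ω, ⟨by simpa using ha, hb⟩, rfl⟩)
    (fun s φ hφ => ⟨(hnorm s φ).trans hφ.1, hφ.2⟩)
    (fun s t φ _ => rfl)
    (fun s φ _ ψ _ => by
      rw [← ContinuousLinearMap.sub_comp]; exact hnorm s _)
    (fun s => Continuous.continuousOn (WeakDual.continuous_of_continuous_eval fun h =>
      WeakDual.eval_continuous (P s.val h)))
  have key : ∀ a : K, φ (e 0) = e 0 a := by
    intro a
    have h1 := congrArg (fun χ : StrongDual ℝ X => χ (e 0)) (hfix (cst a))
    have h2 : P (cst a).val (e 0) = e 0 a • (1 : X) := by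
      ext x
      simp [cst, SG.val, SG.mk]
    simp only [ContinuousLinearMap.comp_apply, h2, _root_.map_smul, hφ.2, smul_eq_mul, mul_one] at h1
    exact h1.symm
  have h1 := key ∞
  have h2 := key ((0 : ℕ) : K)
  rw [h1] at h2
  simp [e] at h2

end Pool.Agent.S03988
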