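import Pool.Statements.S04003
import Pool.Agent.H87.GatE

set_option autoImplicit false
open Pool Pool.MP_1e94b9_an

namespace Pool.Agent.S04003

theorem result :
    ∀ (X : Type) [NormedAddCommGroup X] [NormedSpace ℝ X] [CompleteSpace X]
      [TopologicalSpace.SeparableSpace X],
      (¬ ∃ T : (lp (fun _ : ℕ => ℝ) 1) →L[ℝ] X, ∃ c : ℝ, 0 < c ∧ ∀ a, c * ‖a‖ ≤ ‖T a‖) →
      closure (convexHull ℝ
        {f : X →L[ℝ] ℝ | f ∈ Metric.closedBall (0 : X →L[ℝ] ℝ) 1 ∧
          ∃ x : X, ∀ g ∈ Metric.closedBall (0 : X →L[ℝ] ℝ) 1, g ≠ f → g x < f x})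
        = Metric.closedBall (0 : X →L[ℝ] ℝ) 1 := by
  intro X _ _ _ _ h
  apply Set.Subset.antisymm
  · exact closure_minimal (convexHull_min (fun f hf => hf.1) (convex_closedBall _ _))
      Metric.isClosed_closedBall
  · refine (Pool.Agent.H87.GatE.main h).trans (closure_mono (convexHull_mono ?_))
    rintro f ⟨h1, x, h2⟩
    exact ⟨mem_closedBall_zero_iff.2 h1, x, fun g hg => h2 g (mem_closedBall_zero_iff.1 hg)⟩

end Pool.Agent.S04003
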