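import Pool.Statements.S04011
import Pool.Agent.H94.Dust

set_option autoImplicit false
open Filter Topology
open Pool Pool.MP_1f345d_an

namespace Pool.Agent.S04011

open scoped BoundedContinuousFunction ZeroAtInfty
open Pool.Agent.H94.Dust

abbrev E1 : Type := C₀(ℕ, ℂ)

lemma apply_le (y : E1) (n : ℕ) : ‖y n‖ ≤ ‖y‖ := by
  have := y.toBCF.norm_coe_le_norm n
  simpa [ZeroAtInftyContinuousMap.norm_toBCF_eq_norm] using this

lemma norm_le1 (y : E1) (C : ℝ) (hC : 0 ≤ C) (h : ∀ n, ‖y n‖ ≤ C) : ‖y‖ ≤ C := by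
  rw [← ZeroAtInftyContinuousMap.norm_toBCF_eq_norm]
  exact (BoundedContinuousFunction.norm_le hC).2 h

def mk1 (f : ℕ → ℂ) (h : Tendsto f atTop (𝓝 0)) : E1 where
  toFun := f
  continuous_toFun := continuous_of_discreteTopology
  zero_at_infty' := by
    rw [cocompact_eq_cofinite, Nat.cofinite_eq_atTop]
    exact h

@[simp] lemma mk1_apply (f : ℕ → ℂ) (h : Tendsto f atTop (𝓝 0)) (n : ℕ) : mk1 f h n = f n := rfl

lemma tend (y : E1) : Tendsto (fun n => y n) atTop (𝓝 0) := by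
  have := y.zero_at_infty'
  rwa [cocompact_eq_cofinite, Nat.cofinite_eq_atTop] at this

lemma glue (x0 : E1) (r : ℝ) (hr : 0 < r) : ∃ K0 : ℕ, ∀ (x : ℕ → ℂ) (m e : ℕ), K0 ≤ m →
    Supp x m e → (∀ n, ‖x n‖ ≤ r) → ∃ z : E1, ‖z - x0‖ ≤ 2 * r ∧ ∀ n, m ≤ n → z n = x n := by
  obtain ⟨K0, hK⟩ := Metric.tendsto_atTop.mp (tend x0) r hr
  refine ⟨K0, fun x m e hm hx hxr => ⟨mk1 (fun n => if n < m then x0 n else x n) ?_, ?_, ?_⟩⟩
  · apply tendsto_const_nhds.congr'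
    filter_upwards [eventually_ge_atTop (m + e)] with n hn
    rw [if_neg (by omega), hx n (Or.inr (by omega))]
  · refine norm_le1 _ _ (by positivity) fun n => ?_
    simp only [ZeroAtInftyContinuousMap.coe_sub, Pi.sub_apply, mk1_apply]
    split_ifs with h
    · simp; positivity
    · have h1 := hK n (by omega)
      rw [dist_zero_right] at h1
      have := norm_sub_le (x n) (x0 n)
      linarith [hxr n]
  · intro n hn
    simp [not_lt.mpr hn]

def W (a b h : ℝ) (u v : ℕ → ℂ) (η : ℝ) : Set (E1 × E1) :=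
  {z | ∀ lam ∈ K a h, ∀ mu ∈ K b h, ∃ k : ℕ, ∀ n : ℕ,
    ‖((Real.exp ((k : ℝ) * lam) : ℝ) : ℂ) * z.1 (n + k) - u n‖ ≤ 2 * η ∧
    ‖((Real.exp ((k : ℝ) * mu) : ℝ) : ℂ) * z.2 (n + k) - v n‖ ≤ 2 * η}

lemma small_exp (M c η : ℝ) (hc : 0 < c) (hη : 0 < η) :
    ∃ N : ℕ, ∀ t : ℝ, N ≤ t → M * Real.exp (-(t * c)) ≤ η := by
  have h1 : Tendsto (fun t : ℝ => M * Real.exp (-(t * c))) atTop (𝓝 (M * 0)) :=
    (Real.tendsto_exp_neg_atTop_nhds_zero.comp (tendsto_id.atTop_mul_const hc)).const_mul M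
  rw [mul_zero] at h1
  obtain ⟨t0, ht0⟩ := eventually_atTop.mp (h1.eventually (ge_mem_nhds hη))
  obtain ⟨N, hN⟩ := exists_nat_ge t0
  exact ⟨N, fun t ht => ht0 t (hN.trans ht)⟩

lemma close {P : Par} {x u : ℕ → ℂ} {z z' : E1} {lam c ρ : ℝ} {m e k : ℕ} (hk : m ≤ k)
    (hke : k ≤ e) (hc : 0 ≤ c) (hlam : lam ≤ c) (hz : ∀ n, m ≤ n → z n = x n) (hzz : ‖z' - z‖ ≤ ρ)
    (hρ : Real.exp (e * c) * ρ ≤ P.η) (h : App P x u lam k) (n : ℕ) :
    ‖((Real.exp ((k : ℝ) * lam) : ℝ) : ℂ) * z' (n + k) - u n‖ ≤ 2 * P.η := by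
  have h1 := h n
  rw [← hz _ (by omega)] at h1
  have h2 : ‖z' (n + k) - z (n + k)‖ ≤ ρ := (apply_le (z' - z) (n + k)).trans hzz
  have h3 : Real.exp ((k : ℝ) * lam) ≤ Real.exp (e * c) := by
    apply Real.exp_le_exp.mpr
    have q1 : (k : ℝ) ≤ e := by exact_mod_cast hke
    have q2 : (0 : ℝ) ≤ k := Nat.cast_nonneg k
    nlinarith
  have e1 : ((Real.exp ((k : ℝ) * lam) : ℝ) : ℂ) * z' (n + k) - u n =
      (((Real.exp ((k : ℝ) * lam) : ℝ) : ℂ) * z (n + k) - u n) +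
        ((Real.exp ((k : ℝ) * lam) : ℝ) : ℂ) * (z' (n + k) - z (n + k)) := by ring
  rw [e1]
  refine (norm_add_le _ _).trans ?_
  rw [norm_mul, Complex.norm_real, Real.norm_eq_abs, abs_of_pos (Real.exp_pos _)]
  have := mul_le_mul h3 h2 (norm_nonneg _) (Real.exp_pos _).le
  linarith

lemma W_dense (a b h : ℝ) (ha : 0 < a) (hb : 0 < b) (hh : 0 < h) (u v : ℕ → ℂ) (N : ℕ)
    (hu0 : ∀ i, N ≤ i → u i = 0) (hv0 : ∀ i, N ≤ i → v i = 0) (η : ℝ) (hη : 0 < η) :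
    Dense (interior (W a b h u v η)) := by
  set M : ℝ := ∑ i ∈ Finset.range N, (‖u i‖ + ‖v i‖) + 1 with hM
  have hs : 0 ≤ ∑ i ∈ Finset.range N, (‖u i‖ + ‖v i‖) := Finset.sum_nonneg fun _ _ => by positivity
  have hM0 : 0 < M := by linarith
  have huv : ∀ i, ‖u i‖ + ‖v i‖ ≤ M := by
    intro i
    by_cases hi : i < N
    · have := Finset.single_le_sum (f := fun i => ‖u i‖ + ‖v i‖) (fun _ _ => by positivity)
        (Finset.mem_range.mpr hi)
      linarith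
    · rw [hu0 i (by omega), hv0 i (by omega)]; simp; linarith
  have ha0 : 0 < min a b := lt_min ha hb
  obtain ⟨N1, hN1⟩ := small_exp M _ η ha0 hη
  have hq : 0 < η / M := by positivity
  let P : Par := ⟨min a b, N, N1, M, η, Real.log (1 + η / M), u, v, ha0, hM0.le,
    Real.log_pos (by linarith), hη.le, by
      rw [Real.exp_log (by linarith)]
      apply le_of_eq; field_simp; ring, hN1 _ le_rfl,
    fun i => by linarith [huv i, norm_nonneg (v i)], fun i => by linarith [huv i, norm_nonneg (u i)],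
    hu0, hv0⟩
  rw [Metric.dense_iff]
  rintro ⟨x0, y0⟩ r hr
  have hr3 : 0 < r / 3 := by positivity
  obtain ⟨K1, hK1⟩ := glue x0 _ hr3
  obtain ⟨K2, hK2⟩ := glue y0 _ hr3
  obtain ⟨N2, hN2⟩ := small_exp M _ _ ha0 hr3
  obtain ⟨e, x, y, sx, sy, zx, zy, hG⟩ := cover (P := P) h hh.le a b (N + N2 + K1 + K2)
    (min_le_left _ _) (min_le_right _ _) (by simp only [P]; omega)
  have bd : ∀ (x : ℕ → ℂ) (α : ℝ), min a b ≤ α → Supp x (N + N2 + K1 + K2) e → Size P x α →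
      ∀ n, ‖x n‖ ≤ r / 3 := by
    intro x α hα sx zx n
    by_cases hn : n < N + N2 + K1 + K2
    · rw [sx n (Or.inl hn), norm_zero]; exact hr3.le
    · have := size_mono (P := P) sx (by simp only [P]; omega) hα zx n
      refine this.trans (hN2 _ ?_)
      have : (N : ℝ) + N2 ≤ n := by exact_mod_cast (by omega : N + N2 ≤ n)
      simp only [P]; linarith
  obtain ⟨z1, q1, q1'⟩ := hK1 x _ e (by omega) sx (bd x a (min_le_left _ _) sx zx)
  obtain ⟨z2, q2, q2'⟩ := hK2 y _ e (by omega) sy (bd y b (min_le_right _ _) sy zy)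
  refine ⟨(z1, z2), ?_, ?_⟩
  · rw [Metric.mem_ball, Prod.dist_eq, dist_eq_norm, dist_eq_norm]
    exact max_lt (by linarith) (by linarith)
  · rw [mem_interior_iff_mem_nhds, Metric.mem_nhds_iff]
    refine ⟨η / Real.exp (e * (a + b + h)), by positivity, ?_⟩
    rintro ⟨z1', z2'⟩ hz lam hlam mu hmu
    rw [Metric.mem_ball, Prod.dist_eq, dist_eq_norm, dist_eq_norm, max_lt_iff] at hz
    obtain ⟨k, k1, k2, k3, k4⟩ := hG (lam, mu) ⟨hlam, hmu⟩
    have hρ : Real.exp (e * (a + b + h)) * (η / Real.exp (e * (a + b + h))) ≤ P.η := by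
      apply le_of_eq; simp only [P]; field_simp
    refine ⟨k, fun n => ⟨close k1 k2 (c := a + b + h) (by positivity) ?_ q1' hz.1.le hρ k3 n,
      close k1 k2 (c := a + b + h) (by positivity) ?_ q2' hz.2.le hρ k4 n⟩⟩
    · have := K_le hh.le hlam; simp only; linarith
    · have := K_le hh.le hmu; simp only; linarith

noncomputable def tgt (f : ℕ × (ℕ →₀ ℕ)) (i : ℕ) : ℂ :=
  if i < f.1 then TopologicalSpace.denseSeq ℂ (f.2 i) else 0

lemma tgt_dense (u : ℕ → ℂ) (hu : Tendsto u atTop (𝓝 0)) (r : ℝ) (hr : 0 < r) :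
    ∃ f, ∀ i, ‖tgt f i - u i‖ ≤ r := by
  classical
  obtain ⟨K, hK⟩ := Metric.tendsto_atTop.mp hu r hr
  choose q hq using fun t => (TopologicalSpace.denseRange_denseSeq ℂ).exists_dist_lt (u t) hr
  refine ⟨(K, Finsupp.onFinset (Finset.range K) (fun t => if t < K then q t else 0) (by
    intro t ht
    by_contra h
    simp at h
    simp [not_lt.mpr h] at ht)), fun t => ?_⟩
  simp only [tgt, Finsupp.onFinset_apply]
  split_ifs with h
  · rw [norm_sub_rev, ← dist_eq_norm]; exact (hq t).le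
  · have := hK t (not_lt.mp h)
    simpa using this.le


/-- For every four-corner Cantor dust of ratio 1/4 on a square in the open positive quadrant, some pair (x,y) in c0×c0 has a dense orbit under e^λB × e^μB for every (λ,μ) in the dust. -/
theorem result :
    ∀ a b h : ℝ, 0 < a → 0 < b → 0 < h →
      ∃ x y : ℕ → ℂ, Tendsto x atTop (𝓝 0) ∧ Tendsto y atTop (𝓝 0) ∧
        ∀ lam mu : ℝ,
          (∃ ε : ℕ → Bool, lam = a + h * ∑' m : ℕ, (if ε m then (3/4 : ℝ) * (1/4 : ℝ) ^ m else 0)) →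
          (∃ δ : ℕ → Bool, mu = b + h * ∑' m : ℕ, (if δ m then (3/4 : ℝ) * (1/4 : ℝ) ^ m else 0)) →
          ∀ u v : ℕ → ℂ, Tendsto u atTop (𝓝 0) → Tendsto v atTop (𝓝 0) →
            ∀ η : ℝ, 0 < η → ∃ k : ℕ, ∀ n : ℕ,
              ‖((Real.exp ((k : ℝ) * lam) : ℝ) : ℂ) * x (n + k) - u n‖ < η ∧
              ‖((Real.exp ((k : ℝ) * mu) : ℝ) : ℂ) * y (n + k) - v n‖ < η := by
  intro a b h ha hb hh
  have hd := dense_iInter_of_isOpen
    (f := fun c : (ℕ × (ℕ →₀ ℕ)) × (ℕ × (ℕ →₀ ℕ)) × ℕ =>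
      interior (W a b h (tgt c.1) (tgt c.2.1) (1 / ((c.2.2 : ℝ) + 1))))
    (fun _ => isOpen_interior) (fun c => W_dense a b h ha hb hh _ _ (c.1.1 + c.2.1.1)
      (fun i hi => by simp only [tgt]; rw [if_neg (by omega)])
      (fun i hi => by simp only [tgt]; rw [if_neg (by omega)]) _ (by positivity))
  obtain ⟨z, hz⟩ := hd.nonempty
  refine ⟨z.1, z.2, tend _, tend _, fun lam mu hlam hmu u v hu hv η hη => ?_⟩
  have h4 : 0 < η / 4 := by positivity
  obtain ⟨f, hf⟩ := tgt_dense u hu _ h4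
  obtain ⟨g, hg⟩ := tgt_dense v hv _ h4
  obtain ⟨l, hl⟩ := exists_nat_one_div_lt h4
  obtain ⟨k, hk⟩ := interior_subset (Set.mem_iInter.mp hz (f, g, l)) lam hlam mu hmu
  refine ⟨k, fun n => ⟨?_, ?_⟩⟩
  · have h1 := (hk n).1
    have h2 := norm_add_le (((Real.exp ((k : ℝ) * lam) : ℝ) : ℂ) * z.1 (n + k) - tgt f n)
      (tgt f n - u n)
    rw [sub_add_sub_cancel] at h2
    linarith [hf n]
  · have h1 := (hk n).2
    have h2 := norm_add_le (((Real.exp ((k : ℝ) * mu) : ℝ) : ℂ) * z.2 (n + k) - tgt g n)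
      (tgt g n - v n)
    rw [sub_add_sub_cancel] at h2
    linarith [hg n]

end Pool.Agent.S04011
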