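import Pool.Statements.S04016
import Pool.Agent.H92.Ritt

set_option autoImplicit false
open Pool Pool.MP_1fc4c0_an

namespace Pool.Agent.S04016
open Pool.Agent.H92.Ritt Pool.Agent.H92.Fourier1

lemma ex_eq (t x : ℝ) : ex (t / (2 * Real.pi)) x = Complex.exp (Complex.I * t * x) := by
  unfold ex
  congr 1
  have : (Real.pi : ℂ) ≠ 0 := by exact_mod_cast Real.pi_ne_zero
  push_cast; field_simp

lemma hat_eq (p : ℤ → ℝ) (t : ℝ) :
    ∑' n : ℤ, (p n : ℂ) * Complex.exp (Complex.I * (t : ℂ) * (n : ℂ)) =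
      hat p (t / (2 * Real.pi)) := by
  unfold hat
  simp only [ex_eq, Complex.ofReal_intCast]

theorem result :
    ¬ (∀ p : ℤ → ℝ, (∀ n, 0 ≤ p n) → Summable p → ∑' n, p n = 1 →
      (∀ t : ℝ, t ∈ Set.Ioo 0 (2 * Real.pi) →
        ‖∑' n : ℤ, (p n : ℂ) * Complex.exp (Complex.I * (t : ℂ) * (n : ℂ))‖ < 1) →
      ((∃ C : ℝ, ∀ t : ℝ, t ∈ Set.Ioo 0 (2 * Real.pi) →
          ‖1 - ∑' n : ℤ, (p n : ℂ) * Complex.exp (Complex.I * (t : ℂ) * (n : ℂ))‖
            ≤ C * (1 - ‖∑' n : ℤ, (p n : ℂ) * Complex.exp (Complex.I * (t : ℂ) * (n : ℂ))‖)) ↔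
       (∃ C : ℝ, ∀ n : ℕ,
          (n : ℝ) * ∑' k : ℤ,
            |((fun f : ℤ → ℝ => fun m : ℤ => ∑' j : ℤ, f j * p (m - j))^[n]
                (fun m : ℤ => if m = 0 then (1 : ℝ) else 0)) k
              - ((fun f : ℤ → ℝ => fun m : ℤ => ∑' j : ℤ, f j * p (m - j))^[n + 1]
                (fun m : ℤ => if m = 0 then (1 : ℝ) else 0)) k| ≤ C))) := by
  intro H
  obtain ⟨p, hp, h1, hU⟩ := exists_bad
  have hreal : ∀ t ∈ Set.Ioo 0 (2 * Real.pi), ∃ r : ℝ, 0 ≤ r ∧ r < 1 ∧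
      hat p (t / (2 * Real.pi)) = r := by
    intro t ht
    refine hat_real hp h1 _ ?_
    rw [ex_eq]
    simp only [Complex.ofReal_one, mul_one]
    rw [mul_comm, Complex.exp_ofReal_mul_I_re]
    refine lt_of_le_of_ne (Real.cos_le_one t) fun h => ?_
    have := (Real.cos_eq_one_iff_of_lt_of_lt (by linarith [ht.1, Real.pi_pos]) ht.2).mp h
    exact ht.1.ne' this
  have hsum : ∑' n, p n = 1 := by
    have := hp.2.1
    rw [hatL_apply, hat_zero] at this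
    exact_mod_cast this
  obtain ⟨C, hC⟩ := (H p hp.1 (L1_summable p) hsum (by
    intro t ht
    obtain ⟨r, h0, h1, h2⟩ := hreal t ht
    rw [hat_eq, h2, Complex.norm_real, Real.norm_of_nonneg h0]; exact h1)).mp ⟨1, by
    intro t ht
    obtain ⟨r, h0, h1, h2⟩ := hreal t ht
    rw [hat_eq, h2, Complex.norm_real, Real.norm_of_nonneg h0, one_mul, ← Complex.ofReal_one,
      ← Complex.ofReal_sub, Complex.norm_real, Real.norm_of_nonneg (by linarith)]⟩
  obtain ⟨N, hN⟩ := exists_nat_ge (2 * C)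
  obtain ⟨n, j, c, θ, hb, hlt⟩ := hU N
  have h2 := test (L1_summable p) n c θ hb
  have h3 : (n:ℝ) * ∑' k, |pw p n k - pw p (n + 1) k| ≤ C := hC n
  have e : ∑ s, c s * (n * (hatL (θ s) p ^ n * (1 - hatL (θ s) p))) =
      n * ∑ s, c s * (hat p (θ s) ^ n * (1 - hat p (θ s))) := by
    rw [Finset.mul_sum]
    exact Finset.sum_congr rfl fun s _ => by rw [hatL_apply]; ring
  rw [e, norm_mul, Complex.norm_natCast] at hlt
  have h4 := mul_le_mul_of_nonneg_left h2 (Nat.cast_nonneg (α := ℝ) n)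
  nlinarith

end Pool.Agent.S04016
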