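import Pool.Statements.S04018
import Pool.Agent.H58.Spi7

set_option autoImplicit false
open Pool Pool.MP_1fc8c4_an

namespace Pool.Agent.S04018

/-- The negation of the preceding statement: Here S^0 is the class of maps of the unit ball of C^2 with parametric representation. If f in S^0 maximizes Re L over S^0 for some continuous linear functional L not constant on S^0, then any two normal Loewner chains starting at f coincide. -/
theorem result :
    ¬ (∀ (S0 : Set (EuclideanSpace ℂ (Fin 2) → EuclideanSpace ℂ (Fin 2)))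
    (NLC : Set (EuclideanSpace ℂ (Fin 2) → ℝ → EuclideanSpace ℂ (Fin 2))),
  (∀ g, g ∈ S0 ↔ ∃ (h : EuclideanSpace ℂ (Fin 2) → ℝ → EuclideanSpace ℂ (Fin 2))
      (v : EuclideanSpace ℂ (Fin 2) → ℝ → EuclideanSpace ℂ (Fin 2)),
      (∀ t : ℝ, DifferentiableOn ℂ (fun z => h z t) (Metric.ball (0 : EuclideanSpace ℂ (Fin 2)) 1) ∧
        h 0 t = 0 ∧
        fderiv ℂ (fun z => h z t) 0 = ContinuousLinearMap.id ℂ (EuclideanSpace ℂ (Fin 2)) ∧
        ∀ z ∈ Metric.ball (0 : EuclideanSpace ℂ (Fin 2)) 1, z ≠ 0 → 0 < (inner ℂ z (h z t)).re) ∧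
      (∀ z ∈ Metric.ball (0 : EuclideanSpace ℂ (Fin 2)) 1,
        MeasureTheory.StronglyMeasurable (fun t : ℝ => h z t)) ∧
      (∀ z ∈ Metric.ball (0 : EuclideanSpace ℂ (Fin 2)) 1,
        (∀ t : ℝ, 0 ≤ t → v z t ∈ Metric.ball (0 : EuclideanSpace ℂ (Fin 2)) 1 ∧
          IntervalIntegrable (fun s => h (v z s) s) MeasureTheory.volume 0 t ∧
          v z t = z - ∫ s in (0:ℝ)..t, h (v z s) s) ∧
        Filter.Tendsto (fun t : ℝ => ((Real.exp t : ℝ) : ℂ) • v z t) Filter.atTop (nhds (g z)))) →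
  (∀ F, F ∈ NLC ↔
      (∀ t : ℝ, 0 ≤ t →
        DifferentiableOn ℂ (fun z => F z t) (Metric.ball (0 : EuclideanSpace ℂ (Fin 2)) 1) ∧
        Set.InjOn (fun z => F z t) (Metric.ball (0 : EuclideanSpace ℂ (Fin 2)) 1) ∧
        F 0 t = 0 ∧
        fderiv ℂ (fun z => F z t) 0 =
          ((Real.exp t : ℝ) : ℂ) • ContinuousLinearMap.id ℂ (EuclideanSpace ℂ (Fin 2))) ∧
      (∀ s t : ℝ, 0 ≤ s → s ≤ t →
        (fun z => F z s) '' Metric.ball (0 : EuclideanSpace ℂ (Fin 2)) 1 ⊆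
          (fun z => F z t) '' Metric.ball (0 : EuclideanSpace ℂ (Fin 2)) 1) ∧
      (∀ r : ℝ, r < 1 → ∃ M : ℝ, ∀ t : ℝ, 0 ≤ t → ∀ z : EuclideanSpace ℂ (Fin 2),
        ‖z‖ ≤ r → ‖F z t‖ ≤ M * Real.exp t)) →
  ∀ f ∈ S0,
    (∃ L : (EuclideanSpace ℂ (Fin 2) → EuclideanSpace ℂ (Fin 2)) → ℂ,
      (∀ g1 g2 : EuclideanSpace ℂ (Fin 2) → EuclideanSpace ℂ (Fin 2),
        DifferentiableOn ℂ g1 (Metric.ball (0 : EuclideanSpace ℂ (Fin 2)) 1) →
        DifferentiableOn ℂ g2 (Metric.ball (0 : EuclideanSpace ℂ (Fin 2)) 1) →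
        ∀ a b : ℂ, L (a • g1 + b • g2) = a * L g1 + b * L g2) ∧
      (∃ K : Set (EuclideanSpace ℂ (Fin 2)), K ⊆ Metric.ball (0 : EuclideanSpace ℂ (Fin 2)) 1 ∧
        IsCompact K ∧ ∃ C : ℝ, ∀ g : EuclideanSpace ℂ (Fin 2) → EuclideanSpace ℂ (Fin 2),
          DifferentiableOn ℂ g (Metric.ball (0 : EuclideanSpace ℂ (Fin 2)) 1) →
          ∀ M : ℝ, (∀ z ∈ K, ‖g z‖ ≤ M) → ‖L g‖ ≤ C * M) ∧
      (∀ g ∈ S0, (L g).re ≤ (L f).re) ∧
      (∃ g ∈ S0, L g ≠ L f)) →
    ∀ F1 ∈ NLC, ∀ F2 ∈ NLC,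
      (∀ z ∈ Metric.ball (0 : EuclideanSpace ℂ (Fin 2)) 1, F1 z 0 = f z) →
      (∀ z ∈ Metric.ball (0 : EuclideanSpace ℂ (Fin 2)) 1, F2 z 0 = f z) →
      ∀ t : ℝ, 0 ≤ t → ∀ z ∈ Metric.ball (0 : EuclideanSpace ℂ (Fin 2)) 1, F1 z t = F2 z t) := by
  intro H
  classical
  open Pool.Agent.H58.Spi Set Metric in
  obtain ⟨κ, η, hη, ⟨h, hh, v, hv⟩, hch⟩ := pack
  open Pool.Agent.H58.Spi Set Metric in
  have nlc : ∀ β : ℝ, 0 ≤ β → β ≤ 1 → ∀ F : E2 → ℝ → E2,
      F = (fun z t => TT.symm (ch (a0 1) κ β η (TT z) t)) →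
      (∀ t : ℝ, 0 ≤ t → DifferentiableOn ℂ (fun z => F z t) (ball (0 : E2) 1) ∧
        InjOn (fun z => F z t) (ball (0 : E2) 1) ∧ F 0 t = 0 ∧
        fderiv ℂ (fun z => F z t) 0 = ((Real.exp t : ℝ) : ℂ) • ContinuousLinearMap.id ℂ E2) ∧
      (∀ s t : ℝ, 0 ≤ s → s ≤ t →
        (fun z => F z s) '' ball (0 : E2) 1 ⊆ (fun z => F z t) '' ball (0 : E2) 1) ∧
      (∀ r : ℝ, r < 1 → ∃ M : ℝ, ∀ t : ℝ, 0 ≤ t → ∀ z : E2,
        ‖z‖ ≤ r → ‖F z t‖ ≤ M * Real.exp t) := by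
    rintro β h0 h1 F rfl
    refine ⟨fun t ht => ⟨conj_diff (f := fun p => ch (a0 1) κ β η p t)
      ((fe_diff _ _ _).const_smul (Real.exp t : ℂ)).differentiableOn, fun z hz z' hz' he => ?_,
      by simp [ch, fe], conj_fderiv (f := fun p => ch (a0 1) κ β η p t)
        ((fe_fderiv _ _ _).const_smul (Real.exp t : ℂ)) fun p => by simp⟩,
      fun s t hs hst => ?_, fun r hr => ⟨‖(TT.symm : ℂ × ℂ →L[ℂ] E2)‖ * (2 + a0 1),
        fun t ht z hz => ?_⟩⟩
    · exact TT.injective ((hch β h0 h1 t ht).1 (mem_TT.1 hz) (mem_TT.1 hz') (TT.symm.injective he))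
    · rintro _ ⟨z, hz, rfl⟩
      obtain ⟨z', h2, h3⟩ := (hch β h0 h1 t (hs.trans hst)).2.2 s hs hst _ (mem_TT.1 hz)
      exact ⟨TT.symm z', mem_TT'.2 h2, by simp [h3]⟩
    · have h2 := (hch β h0 h1 t ht).2.1 _ (mem_TT.1 (mem_ball_zero_iff.2 (hz.trans_lt hr)))
      refine ((TT.symm : ℂ × ℂ →L[ℂ] E2).le_opNorm _).trans ?_
      rw [mul_assoc]
      refine mul_le_mul_of_nonneg_left ?_ (norm_nonneg _)
      rw [ch, norm_smul, Complex.norm_real, Real.norm_of_nonneg (Real.exp_pos t).le, mul_comm]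
      exact mul_le_mul_of_nonneg_right h2 (Real.exp_pos t).le
  open Pool.Agent.H58.Spi Set Metric in
  have ha : 0 < a0 1 := (cx_key 1 le_rfl).1.1.1
  open Pool.Agent.H58.Spi Set Metric in
  have hf : DifferentiableOn ℂ (fun z => TT.symm (fe (a0 1) κ η (TT z))) (ball (0 : E2) 1) :=
    conj_diff (fe_diff _ _ _).differentiableOn
  open Pool.Agent.H58.Spi Set Metric in
  have key := H _ _ (fun g => Iff.of_eq mem_ofPred_eq) (fun F => Iff.of_eq mem_ofPred_eq)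
    (fun z => TT.symm (fe (a0 1) κ η (TT z))) (mem_S0 hh hv)
    ⟨fun g => if DifferentiableOn ℂ g (ball (0 : E2) 1) then iteratedDeriv 2 (sl g) 0 else 0,
      fun g1 g2 d1 d2 a b => by
        have c1 : ContDiffAt ℂ 2 (sl g1) 0 := (sl_diff d1).contDiffOn isOpen_ball |>.contDiffAt
          (ball_mem_nhds _ one_pos)
        have c2 : ContDiffAt ℂ 2 (sl g2) 0 := (sl_diff d2).contDiffOn isOpen_ball |>.contDiffAt
          (ball_mem_nhds _ one_pos)
        have e : sl (a • g1 + b • g2) = a • sl g1 + b • sl g2 := by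
          ext ζ; simp [sl]
        simp only [if_pos d1, if_pos d2, if_pos ((d1.const_smul a).add (d2.const_smul b)), e]
        rw [iteratedDeriv_add (f := a • sl g1) (g := b • sl g2) (c1.const_smul a) (c2.const_smul b), iteratedDeriv_const_smul_field,
          iteratedDeriv_const_smul_field, smul_eq_mul, smul_eq_mul],
      ⟨closedBall 0 (‖TT.symm (0, 1)‖ * (1 / 2)), closedBall_subset_ball (by
        have : TT.symm ((1 / 2 : ℂ) • (0, 1)) ∈ ball (0 : E2) 1 := by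
          simpa using ax_mem (ζ := 1 / 2) (by norm_num)
        rw [map_smul, mem_ball_zero_iff, norm_smul] at this
        simpa [mul_comm] using this), isCompact_closedBall _ _,
        8 * ‖(TT : E2 →L[ℂ] ℂ × ℂ)‖, fun g d M hM => by
          simp only [if_pos d]
          refine (sl_cauchy d (r := 1 / 2) (by norm_num) (by norm_num)
            (C := ‖(TT : E2 →L[ℂ] ℂ × ℂ)‖ * M) fun ζ hζ => ?_).trans (le_of_eq (by ring))
          refine (norm_fst_le _).trans (((TT : E2 →L[ℂ] ℂ × ℂ).le_opNorm _).trans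
            (mul_le_mul_of_nonneg_left (hM _ ?_) (norm_nonneg _)))
          have : ((0, ζ) : ℂ × ℂ) = ζ • (0, 1) := by simp
          rw [this, map_smul, mem_closedBall_zero_iff, norm_smul, hζ, mul_comm]⟩,
      fun g hg => by
        obtain ⟨h', v', a1, -, a3⟩ := hg
        simp only [if_pos hf, sl_fe]
        split_ifs with d
        · have := (Complex.re_le_norm _).trans (sl_bound d a1 a3)
          simpa using this
        · simp [ha.le],
      fun z => TT.symm (TT z), mem_S0 (f := fun p => p) id_NA (v := fun z t => mu 1 t • z) id_flow,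
      by
        have d : DifferentiableOn ℂ (fun z => TT.symm (TT z)) (ball (0 : E2) 1) :=
          conj_diff (f := fun p => p) differentiableOn_id
        have e : sl (fun z => TT.symm (TT z)) = fun _ => 0 := by
          ext ζ; simp [sl]
        simp only [if_pos hf, if_pos d, sl_fe, e]
        simp [ha.ne']⟩
    _ (nlc 0 le_rfl zero_le_one _ rfl) _ (nlc 1 zero_le_one le_rfl _ rfl)
    (fun z _ => by simp [ch, mu]) (fun z _ => by simp [ch, mu]) 1 zero_le_one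
    (TT.symm (1 / 2, 0)) (mem_TT'.2 (by
      show ‖(1 / 2 : ℂ)‖ ^ 2 + ‖(0 : ℂ)‖ ^ 2 < 1
      norm_num))
  open Pool.Agent.H58.Spi Set Metric in
  have k2 := congrArg Prod.fst (smul_right_injective _ (by simp) (TT.symm.injective key) :
    fe (a0 1) κ (η * mu 0 1 ^ 2) (TT (TT.symm (1 / 2, 0))) =
      fe (a0 1) κ (η * mu 1 1 ^ 2) (TT (TT.symm (1 / 2, 0))))
  open Pool.Agent.H58.Spi Set Metric in
  have k3 : mu 0 1 ^ 2 = mu 1 1 ^ 2 := by
    simp only [ContinuousLinearEquiv.apply_symm_apply, fe] at k2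
    apply mul_left_cancel₀ hη
    linear_combination 8 * k2
  simp only [Pool.Agent.H58.Spi.mu] at k3
  have k4 : Real.exp (-(0 * 1)) ^ 2 = Real.exp (-(1 * 1)) ^ 2 := by exact_mod_cast k3
  have k5 := Real.exp_injective ((pow_left_inj₀ (Real.exp_pos _).le (Real.exp_pos _).le
    two_ne_zero).1 k4)
  norm_num at k5

end Pool.Agent.S04018
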