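import Pool.Statements.S04025
import Pool.Agent.H75.AF7

set_option autoImplicit false
open Pool Pool.MP_2001a4_an

namespace Pool.Agent.S04025

/-- For nonzero AF algebras A and C (C unital, A with no nonzero unital quotient), there is a unital C*-algebra extension 0→A→B→C→0 in which every closed ideal of B contains A or lies inside A. -/
theorem result :
    ∀ (A : Type) [NonUnitalCStarAlgebra A] (C : Type) [CStarAlgebra C],
      Nontrivial A → Nontrivial C →
      (∃ S : ℕ → NonUnitalStarSubalgebra ℂ A, Monotone S ∧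
          (∀ n, FiniteDimensional ℂ (Submodule.span ℂ (S n : Set A))) ∧
          Dense (⋃ n, (S n : Set A))) →
      (∃ S : ℕ → NonUnitalStarSubalgebra ℂ C, Monotone S ∧
          (∀ n, FiniteDimensional ℂ (Submodule.span ℂ (S n : Set C))) ∧
          Dense (⋃ n, (S n : Set C))) →
      (∀ (D : Type) [CStarAlgebra D], Nontrivial D →
          ∀ φ : A →⋆ₙₐ[ℂ] D, ¬ Function.Surjective φ) →
      ∃ (B : Type) (_ : CStarAlgebra B) (ι : A →⋆ₙₐ[ℂ] B) (π : B →⋆ₐ[ℂ] C),
        Function.Injective ι ∧ Function.Surjective π ∧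
        Set.range ι = {b : B | π b = 0} ∧
        ∀ I : TwoSidedIdeal B, IsClosed (I : Set B) →
          Set.range ι ⊆ (I : Set B) ∨ (I : Set B) ⊆ Set.range ι := by
  intro A _ C _ _ _ ⟨S, Sm, Sf, Sd⟩ ⟨R, Rm, Rf, Rd⟩ H
  have hS : ∀ n, H75.AF.FD (S n : Set A) := fun n => ⟨_, Sf n, Submodule.subset_span⟩
  let T : ℕ → NonUnitalStarSubalgebra ℂ C := fun n =>
    { carrier := {t | ∃ c : ℂ, ∃ s ∈ R n, t = c • (1 : C) + s}
      add_mem' := by
        rintro _ _ ⟨c, s, hs, rfl⟩ ⟨d, t, ht, rfl⟩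
        exact ⟨c + d, s + t, add_mem hs ht, by rw [add_smul]; abel⟩
      zero_mem' := ⟨0, 0, zero_mem _, by rw [zero_smul, add_zero]⟩
      mul_mem' := by
        rintro _ _ ⟨c, s, hs, rfl⟩ ⟨d, t, ht, rfl⟩
        refine ⟨c * d, c • t + d • s + s * t, add_mem (add_mem (SMulMemClass.smul_mem _ ht)
          (SMulMemClass.smul_mem _ hs)) (mul_mem hs ht), ?_⟩
        rw [add_mul, mul_add, mul_add, smul_mul_smul_comm, smul_mul_assoc, mul_smul_comm,
          mul_one, mul_one, one_mul]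
        abel
      smul_mem' := by
        rintro d _ ⟨c, s, hs, rfl⟩
        exact ⟨d * c, d • s, SMulMemClass.smul_mem _ hs, by rw [smul_add, smul_smul]⟩
      star_mem' := by
        rintro _ ⟨c, s, hs, rfl⟩
        exact ⟨star c, star s, star_mem hs, by rw [star_add, star_smul, star_one]⟩ }
  have Tm : Monotone T := fun n k h _ ⟨c, s, hs, e⟩ => ⟨c, s, Rm h hs, e⟩
  have h1 : ∀ n, (1 : C) ∈ T n := fun n => ⟨1, 0, zero_mem _, by rw [one_smul, add_zero]⟩
  have hT : ∀ n, H75.AF.FD (T n : Set C) := fun n => by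
    have := Rf n
    refine ⟨(ℂ ∙ (1 : C)) ⊔ Submodule.span ℂ (R n : Set C), inferInstance, ?_⟩
    rintro _ ⟨c, s, hs, rfl⟩
    exact Submodule.add_mem_sup (Submodule.mem_span_singleton.2 ⟨c, rfl⟩) (Submodule.subset_span hs)
  have Td : Dense (⋃ n, (T n : Set C)) := Rd.mono (Set.iUnion_mono fun n s hs =>
    ⟨0, s, hs, by rw [zero_smul, zero_add]⟩)
  obtain ⟨p, φ, p0, pp, hφ, ps, po, pu, full⟩ :=
    H75.AF.seq S Sm hS (H75.AF.key S Sm Sd H) T hT h1
  have pa : ∀ a, Filter.Tendsto (fun N => p N * a) Filter.atTop (nhds a) := fun a => by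
    refine (H75.AF.closed_tend (fun N a => p N * a) (fun a => a) continuous_id 1
      fun N x y => ?_).closure_subset_iff.2 (fun t ht => ?_) (Sd a)
    · rw [← mul_sub]
      exact (norm_mul_le _ _).trans (mul_le_mul_of_nonneg_right (IsStarProjection.norm_le _ (pp N))
        (norm_nonneg _))
    · obtain ⟨k, hk⟩ := Set.mem_iUnion.1 ht
      refine tendsto_const_nhds.congr' ?_
      filter_upwards [Filter.eventually_gt_atTop k] with N hN
      obtain ⟨N, rfl⟩ := Nat.exists_eq_add_one_of_ne_zero (Nat.ne_zero_of_lt hN)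
      exact (pu N t (Sm (Nat.le_of_lt_succ hN) hk)).symm
  obtain ⟨M, _, ι, inj, idl, ess, str⟩ := H75.AF.mult A
  obtain ⟨Φ, P1, P2, P3, P4, P5, P6, P7, P8⟩ :=
    H75.AF.bigPhi ι idl ess str T Tm hT h1 p φ p0 pp hφ ps po pa
  refine H75.AF.final ι inj idl T Tm hT h1 Td φ hφ (fun a => ?_) (fun J hJ h a => ?_) Φ
    P1 P2 P3 P4 P5 P6 P7 P8
  · have := ((pa a).comp (Filter.tendsto_add_atTop_nat 1)).sub (pa a)
    rw [sub_self] at this
    exact this.congr fun i => by
      rw [Function.comp_apply, ps, add_mul, add_sub_cancel_left]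
  · refine hJ.closure_subset_iff.2 (fun s hs => ?_) (Sd a)
    obtain ⟨k, hk⟩ := Set.mem_iUnion.1 hs
    obtain ⟨i, hi, t, ht, t0, hJ⟩ := ((Filter.eventually_ge_atTop k).and h).exists
    exact full i J t ht t0 hJ s (Sm hi hk)

end Pool.Agent.S04025
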