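import Pool.Statements.S04040
import Pool.Agent.H49.WH6

set_option autoImplicit false
open Filter Topology MeasureTheory
open scoped Classical
open Pool Pool.MP_20f905_an

namespace Pool.Agent.S04040

/-- The negation of the preceding statement: For a residual set of Lebesgue-preserving automorphisms T of [0,1] (weak topology), any automorphism S with T^-n S T^n close to the identity along a density-one set of n, for every weak neighborhood, is the identity a.e. -/
theorem result :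
    ¬ (Filter.Eventually
      (fun T : {T : ℝ ≃ᵐ ℝ // MeasurePreserving (T : ℝ → ℝ) (volume.restrict (Set.Icc (0:ℝ) 1))
            (volume.restrict (Set.Icc (0:ℝ) 1))} =>
        ∀ S : ℝ ≃ᵐ ℝ,
          MeasurePreserving (S : ℝ → ℝ) (volume.restrict (Set.Icc (0:ℝ) 1))
            (volume.restrict (Set.Icc (0:ℝ) 1)) →
          (∀ A : Set ℝ, MeasurableSet A → ∀ ε : ℝ, 0 < ε →
            Tendsto (fun N : ℕ =>
              (((Finset.Icc 1 N).filter (fun n : ℕ =>
                  (volume.restrict (Set.Icc (0:ℝ) 1))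
                    (symmDiff
                      ((((T.1.symm : ℝ ≃ᵐ ℝ) : ℝ → ℝ)^[n] ∘ (S : ℝ → ℝ) ∘
                          ((T.1 : ℝ ≃ᵐ ℝ) : ℝ → ℝ)^[n]) ⁻¹' A) A)
                    < ENNReal.ofReal ε)).card : ℝ) / (N : ℝ))
              atTop (𝓝 1)) →
          ∀ᵐ x ∂(volume.restrict (Set.Icc (0:ℝ) 1)), S x = x)
      (@residual
        {T : ℝ ≃ᵐ ℝ // MeasurePreserving (T : ℝ → ℝ) (volume.restrict (Set.Icc (0:ℝ) 1))
            (volume.restrict (Set.Icc (0:ℝ) 1))}
        (TopologicalSpace.generateFrom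
          {U | ∃ T₀ : {T : ℝ ≃ᵐ ℝ // MeasurePreserving (T : ℝ → ℝ)
                  (volume.restrict (Set.Icc (0:ℝ) 1)) (volume.restrict (Set.Icc (0:ℝ) 1))},
              ∃ A : Set ℝ, MeasurableSet A ∧ ∃ δ : ℝ, 0 < δ ∧
              U = {S : {T : ℝ ≃ᵐ ℝ // MeasurePreserving (T : ℝ → ℝ)
                      (volume.restrict (Set.Icc (0:ℝ) 1)) (volume.restrict (Set.Icc (0:ℝ) 1))} |
                    (volume.restrict (Set.Icc (0:ℝ) 1))
                      (symmDiff (((S.1 : ℝ ≃ᵐ ℝ) : ℝ → ℝ) ⁻¹' A)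
                        (((T₀.1 : ℝ ≃ᵐ ℝ) : ℝ → ℝ) ⁻¹' A)) < ENNReal.ofReal δ}}))) := by
  intro h
  let := H49.WH.wk
  obtain ⟨F, h1, h2, h3, h4⟩ := mem_residual_iff.1 h
  obtain ⟨U, hU⟩ := (h3.insert Set.univ).exists_eq_range (Set.insert_nonempty _ _)
  have h5 : ∀ k, U k = Set.univ ∨ U k ∈ F := fun k => (hU ▸ Set.mem_range_self k :
    U k ∈ insert Set.univ F)
  obtain ⟨T, S, a, b, c⟩ := H49.WH.exists_pair (U := U)
    (fun k => (h5 k).elim (fun e => e ▸ isOpen_univ) (h1 _))
    (fun k => (h5 k).elim (fun e => e ▸ dense_univ) (h2 _))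
  refine b (h4 (fun V hV => ?_) S.1 S.2 fun A hA ε hε => H49.WH.homoclinic c hA hε)
  obtain ⟨k, rfl⟩ : V ∈ Set.range U := hU ▸ Set.mem_insert_of_mem _ hV
  exact a k

end Pool.Agent.S04040
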