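import Pool.Statements.S04054
-- import your own Pool.Agent.* helpers here

set_option autoImplicit false
open Pool Pool.MP_22f2dc_an

namespace Pool.Agent.S04054

open MeasureTheory Filter Topology

abbrev E := EuclideanSpace ℝ (Fin 2)

noncomputable def P (t : ℝ) : ℝ := max t 0 ^ 2

lemma P_deriv (t : ℝ) : HasDerivAt P (2 * max t 0) t := by
  rcases lt_trichotomy t 0 with h | rfl | h
  · rw [max_eq_right h.le, mul_zero]
    refine (hasDerivAt_const t (0:ℝ)).congr_of_eventuallyEq ?_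
    filter_upwards [Iio_mem_nhds h] with s hs
    simp [P, max_eq_right (show s < 0 from hs).le]
  · rw [hasDerivAt_iff_isLittleO_nhds_zero]
    simp only [P, zero_add, max_self, mul_zero, smul_zero, sub_zero, ne_eq, OfNat.ofNat_ne_zero,
      not_false_eq_true, zero_pow]
    refine Asymptotics.IsBigO.trans_isLittleO (g := fun h : ℝ => h ^ 2) ?_
      (Asymptotics.isLittleO_pow_id (by norm_num))
    refine Asymptotics.IsBigO.of_bound' (Eventually.of_forall fun s => ?_)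
    rcases le_total s 0 with h | h
    · simp [max_eq_right h, sq_nonneg]
    · simp [max_eq_left h]
  · rw [max_eq_left h.le]
    have : HasDerivAt (fun s : ℝ => s ^ 2) (2 * t) t := by simpa using hasDerivAt_pow 2 t
    refine this.congr_of_eventuallyEq ?_
    filter_upwards [Ioi_mem_nhds h] with s hs
    simp [P, max_eq_left (show 0 < s from hs).le]

lemma P_contDiff : ContDiff ℝ 1 P := by
  rw [contDiff_one_iff_deriv]
  refine ⟨fun t => (P_deriv t).differentiableAt, ?_⟩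
  have : deriv P = fun t => 2 * max t 0 := funext fun t => (P_deriv t).deriv
  rw [this]; fun_prop

lemma cx (i : Fin 2) : ContDiff ℝ (⊤ : ℕ∞) (fun z : E => z i) :=
  (EuclideanSpace.proj (𝕜 := ℝ) i).contDiff

lemma cx1 (i : Fin 2) : ContDiff ℝ 1 (fun z : E => z i) :=
  (EuclideanSpace.proj (𝕜 := ℝ) i).contDiff

lemma dx (i : Fin 2) (z : E) :
    HasFDerivAt (fun z : E => z i) (EuclideanSpace.proj (𝕜 := ℝ) i : E →L[ℝ] ℝ) z :=
  (EuclideanSpace.proj (𝕜 := ℝ) i : E →L[ℝ] ℝ).hasFDerivAt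

lemma dP (z : E) : HasFDerivAt (fun z : E => P (z 0))
    ((2 * max (z 0) 0) • (EuclideanSpace.proj (𝕜 := ℝ) 0 : E →L[ℝ] ℝ)) z :=
  HasDerivAt.comp_hasFDerivAt (h₂ := P) (f := fun z : E => z 0) z (P_deriv (z 0)) (dx 0 z)

lemma cP : ContDiff ℝ 1 (fun z : E => P (z 0)) := P_contDiff.comp (cx1 0)

noncomputable def v (z : E) : ℝ :=
  2 * (z 0 * z 1) + (-(1/2) * z 0 ^ 2 + -(3/4) * z 0 ^ 6 + 3 * z 1 ^ 2) * P (z 0)

noncomputable def W1 (z : E) : ℝ := 2 * (z 1 - z 0 * P (z 0))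
noncomputable def W2 (z : E) : ℝ := 2 * z 0 + 6 * (z 1 * P (z 0))
noncomputable def q (z : E) : ℝ := 3 * max (z 0) 0 * (z 1 + max (z 0) 0 ^ 3)

lemma v_cd : ContDiff ℝ 1 v := by
  unfold v
  have := cx1 0; have := cx1 1; have := cP
  fun_prop

lemma W1_cd : ContDiff ℝ 1 W1 := by
  unfold W1
  have := cx1 0; have := cx1 1; have := cP
  fun_prop

lemma W2_cd : ContDiff ℝ 1 W2 := by
  unfold W2
  have := cx1 0; have := cx1 1; have := cP
  fun_prop

lemma v_d (z : E) : fderiv ℝ v z (EuclideanSpace.single 0 1) = W1 z * (1 + q z) ∧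
    fderiv ℝ v z (EuclideanSpace.single 1 1) = W2 z := by
  have h := (((dx 0 z).mul (dx 1 z)).const_mul 2).add
    ((((((dx 0 z).pow 2).const_mul (-(1/2))).add (((dx 0 z).pow 6).const_mul (-(3/4)))).add
      (((dx 1 z).pow 2).const_mul 3)).mul (dP z))
  have h2 : fderiv ℝ v z = _ := HasFDerivAt.fderiv (f := v) h
  rw [h2]
  constructor
  · simp [W1, q, P]
    rcases le_total (z 0) 0 with h | h
    · simp [max_eq_right h]
    · simp [max_eq_left h]; ring
  · simp [W2]; ring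

lemma div_W (z : E) : fderiv ℝ W1 z (EuclideanSpace.single 0 1) +
    fderiv ℝ W2 z (EuclideanSpace.single 1 1) = 0 := by
  have h1 := ((dx 1 z).sub ((dx 0 z).mul (dP z))).const_mul 2
  have h2 := ((dx 0 z).const_mul 2).add (((dx 1 z).mul (dP z)).const_mul 6)
  have e1 : fderiv ℝ W1 z = _ := HasFDerivAt.fderiv (f := W1) h1
  have e2 : fderiv ℝ W2 z = _ := HasFDerivAt.fderiv (f := W2) h2
  rw [e1, e2]
  simp [P]
  rcases le_total (z 0) 0 with h | h
  · simp [max_eq_right h]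
  · simp [max_eq_left h]; ring

lemma ibp (W φ : E → ℝ) (hW : ContDiff ℝ 1 W) (hφ : ContDiff ℝ 1 φ) (hc : HasCompactSupport φ)
    (e : E) : Integrable (fun x => W x * fderiv ℝ φ x e) ∧
      Integrable (fun x => fderiv ℝ W x e * φ x) ∧
      ∫ x, W x * fderiv ℝ φ x e = -∫ x, fderiv ℝ W x e * φ x := by
  have c1 : Continuous fun x => fderiv ℝ φ x e :=
    (hφ.continuous_fderiv one_ne_zero).clm_apply continuous_const
  have c2 : Continuous fun x => fderiv ℝ W x e :=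
    (hW.continuous_fderiv one_ne_zero).clm_apply continuous_const
  have i1 : Integrable (fun x => W x * fderiv ℝ φ x e) :=
    (hW.continuous.mul c1).integrable_of_hasCompactSupport (hc.fderiv_apply ℝ e).mul_left
  have i2 : Integrable (fun x => fderiv ℝ W x e * φ x) :=
    (c2.mul hφ.continuous).integrable_of_hasCompactSupport hc.mul_left
  have i3 : Integrable (fun x => W x * φ x) :=
    (hW.continuous.mul hφ.continuous).integrable_of_hasCompactSupport hc.mul_left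
  exact ⟨i1, i2, integral_mul_fderiv_eq_neg_fderiv_mul_of_integrable i2 i1 i3
    (fun x _ => hW.differentiable one_ne_zero x) (fun x _ => hφ.differentiable one_ne_zero x)⟩

lemma weak (V1 V2 φ : E → ℝ) (h1 : ContDiff ℝ 1 V1) (h2 : ContDiff ℝ 1 V2)
    (hd : ∀ z, fderiv ℝ V1 z (EuclideanSpace.single 0 1) +
      fderiv ℝ V2 z (EuclideanSpace.single 1 1) = 0)
    (hφ : ContDiff ℝ 1 φ) (hc : HasCompactSupport φ) :
    ∫ x, (V1 x * fderiv ℝ φ x (EuclideanSpace.single 0 1) +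
      V2 x * fderiv ℝ φ x (EuclideanSpace.single 1 1)) = 0 := by
  obtain ⟨a1, a2, a3⟩ := ibp V1 φ h1 hφ hc (EuclideanSpace.single 0 1)
  obtain ⟨b1, b2, b3⟩ := ibp V2 φ h2 hφ hc (EuclideanSpace.single 1 1)
  rw [integral_add a1 b1, a3, b3, ← neg_add, ← integral_add a2 b2]
  simp only [← add_mul, hd, zero_mul, integral_zero, neg_zero]

lemma coord_le (z : E) (i : Fin 2) : |z i| ≤ ‖z‖ := by
  simpa using PiLp.norm_apply_le z i

lemma box {z : E} (hz : z ∈ Metric.ball (0 : E) (1/4)) :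
    0 ≤ max (z 0) 0 ∧ max (z 0) 0 ≤ 1/4 ∧ |z 1| ≤ 1/4 := by
  rw [mem_ball_zero_iff] at hz
  have h0 := abs_le.mp (coord_le z 0)
  exact ⟨le_max_right _ _, max_le (by linarith) (by norm_num), (coord_le z 1).trans hz.le⟩

lemma q_bd {z : E} (hz : z ∈ Metric.ball (0 : E) (1/4)) : -(1/4) ≤ q z ∧ q z ≤ 1/4 := by
  obtain ⟨h1, h2, h3⟩ := box hz
  rw [abs_le] at h3
  unfold q
  generalize max (z 0) 0 = p at *
  have h4 : 0 ≤ p ^ 3 := by positivity
  have h5 : p ^ 3 ≤ (1/4) ^ 3 := by gcongr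
  constructor <;> nlinarith

lemma q_lip {z w : E} (hz : z ∈ Metric.ball (0 : E) (1/4)) (hw : w ∈ Metric.ball (0 : E) (1/4)) :
    |q z - q w| ≤ 3 * dist z w := by
  obtain ⟨h1, h2, h3⟩ := box hz
  obtain ⟨g1, g2, g3⟩ := box hw
  have d0 : |max (z 0) 0 - max (w 0) 0| ≤ dist z w := by
    refine (abs_max_sub_max_le_abs _ _ _).trans ?_
    simpa [dist_eq_norm] using coord_le (z - w) 0
  have d1 : |z 1 - w 1| ≤ dist z w := by simpa [dist_eq_norm] using coord_le (z - w) 1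
  unfold q
  generalize max (z 0) 0 = p at *
  generalize max (w 0) 0 = r at *
  generalize dist z w = d at *
  have e : 3 * p * (z 1 + p ^ 3) - 3 * r * (w 1 + r ^ 3) =
      3 * (p * (z 1 - w 1) + (p - r) * (w 1 + (p ^ 3 + p ^ 2 * r + p * r ^ 2 + r ^ 3))) := by ring
  have b1 : |w 1 + (p ^ 3 + p ^ 2 * r + p * r ^ 2 + r ^ 3)| ≤ 1 / 2 := by
    have : p ^ 3 + p ^ 2 * r + p * r ^ 2 + r ^ 3 ≤
        (1/4) ^ 3 + (1/4) ^ 2 * (1/4) + (1/4) * (1/4) ^ 2 + (1/4) ^ 3 := by gcongr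
    have : 0 ≤ p ^ 3 + p ^ 2 * r + p * r ^ 2 + r ^ 3 := by positivity
    rw [abs_le] at g3 ⊢
    constructor <;> linarith
  have hd : 0 ≤ d := (abs_nonneg _).trans d1
  rw [e, abs_mul, abs_of_pos (by norm_num : (0:ℝ) < 3)]
  refine mul_le_mul_of_nonneg_left ((abs_add_le _ _).trans ?_) (by norm_num)
  rw [abs_mul, abs_mul, abs_of_nonneg h1]
  have c1 : p * |z 1 - w 1| ≤ 1/4 * d := by gcongr
  have c2 : |p - r| * |w 1 + (p ^ 3 + p ^ 2 * r + p * r ^ 2 + r ^ 3)| ≤ d * (1/2) := by gcongr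
  linarith

noncomputable def A (z : E) : Matrix (Fin 2) (Fin 2) ℝ := !![(1 + q z)⁻¹, 0; 0, 1]

lemma mem_ball_single (t : ℝ) (ht : |t| < 1/4) (i : Fin 2) :
    (EuclideanSpace.single i t : E) ∈ Metric.ball (0 : E) (1/4) := by
  simpa using ht


/-- The negation of the preceding statement: Take nonconstant C1 weak solutions u, v of div(A grad u)=0 on a connected open set in R^n, n≥2, with A symmetric, uniformly elliptic and Lipschitz. If u vanishes on a connected smooth hypersurface S and v on a nonempty open proper piece of S, then v vanishes on all of S. -/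
theorem result :
    ¬ (∀ (n : ℕ), 2 ≤ n →
  ∀ (Ω : Set (EuclideanSpace ℝ (Fin n))), IsOpen Ω → IsConnected Ω →
  ∀ (A : EuclideanSpace ℝ (Fin n) → Matrix (Fin n) (Fin n) ℝ) (K E : ℝ), 0 < K →
    (∀ x ∈ Ω, ∀ i j, A x i j = A x j i) →
    (∀ x ∈ Ω, ∀ ξ : EuclideanSpace ℝ (Fin n),
        K⁻¹ * ‖ξ‖ ^ 2 ≤ ∑ i, ∑ j, A x i j * ξ i * ξ j ∧
        ∑ i, ∑ j, A x i j * ξ i * ξ j ≤ K * ‖ξ‖ ^ 2) →
    (∀ x ∈ Ω, ∀ y ∈ Ω, ∀ i j, |A x i j - A y i j| ≤ E * dist x y) →
  ∀ (u v : EuclideanSpace ℝ (Fin n) → ℝ),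
    ContDiffOn ℝ 1 u Ω → ContDiffOn ℝ 1 v Ω →
    (¬ ∃ c : ℝ, ∀ x ∈ Ω, u x = c) →
    (¬ ∃ c : ℝ, ∀ x ∈ Ω, v x = c) →
    (∀ φ : EuclideanSpace ℝ (Fin n) → ℝ,
        ContDiff ℝ ((⊤ : ℕ∞) : WithTop ℕ∞) φ → HasCompactSupport φ → tsupport φ ⊆ Ω →
        ∫ x, ∑ i, ∑ j, A x i j * fderiv ℝ u x (EuclideanSpace.single j 1)
            * fderiv ℝ φ x (EuclideanSpace.single i 1) = 0) →
    (∀ φ : EuclideanSpace ℝ (Fin n) → ℝ,
        ContDiff ℝ ((⊤ : ℕ∞) : WithTop ℕ∞) φ → HasCompactSupport φ → tsupport φ ⊆ Ω →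
        ∫ x, ∑ i, ∑ j, A x i j * fderiv ℝ v x (EuclideanSpace.single j 1)
            * fderiv ℝ φ x (EuclideanSpace.single i 1) = 0) →
  ∀ (S Sig : Set (EuclideanSpace ℝ (Fin n))),
    S ⊆ Ω → IsConnected S →
    (∀ p ∈ S, ∃ (U : Set (EuclideanSpace ℝ (Fin n))) (f : EuclideanSpace ℝ (Fin n) → ℝ),
        IsOpen U ∧ p ∈ U ∧ ContDiff ℝ ((⊤ : ℕ∞) : WithTop ℕ∞) f ∧
        (∀ x ∈ U, fderiv ℝ f x ≠ 0) ∧ S ∩ U = {x | x ∈ U ∧ f x = 0}) →
    Sig ⊆ S → Sig.Nonempty → Sig ≠ S →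
    (∃ O : Set (EuclideanSpace ℝ (Fin n)), IsOpen O ∧ Sig = S ∩ O) →
    (∀ x ∈ S, u x = 0) →
    (∀ x ∈ Sig, v x = 0) →
    ∀ x ∈ S, v x = 0) := by
  intro H
  have hT := H 2 le_rfl (Metric.ball 0 (1/4)) Metric.isOpen_ball
    (Metric.isConnected_ball (by norm_num)) A 2 6 (by norm_num) ?_ ?_ ?_ (fun z => z 1) v
    (cx1 1).contDiffOn v_cd.contDiffOn ?_ ?_ ?_ ?_
    {z | z ∈ Metric.ball (0 : E) (1/4) ∧ z 1 = 0}
    ({z | z ∈ Metric.ball (0 : E) (1/4) ∧ z 1 = 0} ∩ {z | z 0 < 0})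
    (fun z hz => hz.1) ?_ ?_ Set.inter_subset_left ?_ ?_ ?_ (fun z hz => hz.2) ?_
    (EuclideanSpace.single 0 (1/8)) ⟨mem_ball_single _ (by norm_num [abs_of_pos]) _, by simp⟩
  · simp [v, P] at hT
    norm_num at hT
  · intro z _ i j
    fin_cases i <;> fin_cases j <;> simp [A]
  · intro z hz ξ
    obtain ⟨h1, h2⟩ := q_bd hz
    have h3 : (1 + q z)⁻¹ ≤ 2 := by rw [inv_le_comm₀ (by linarith) (by norm_num)]; linarith
    have h4 : 1/2 ≤ (1 + q z)⁻¹ := by rw [le_inv_comm₀ (by norm_num) (by linarith)]; linarith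
    rw [EuclideanSpace.norm_sq_eq]
    simp [A, Fin.sum_univ_two]
    constructor <;> nlinarith [sq_nonneg (ξ 0), sq_nonneg (ξ 1)]
  · intro z hz w hw i j
    have hd : 0 ≤ 6 * dist z w := by positivity
    fin_cases i <;> fin_cases j <;> simp [A]
    obtain ⟨h1, h2⟩ := q_bd hz
    obtain ⟨g1, g2⟩ := q_bd hw
    have h3 := q_lip hz hw
    have e : (1 + q z)⁻¹ - (1 + q w)⁻¹ = (q w - q z) / ((1 + q z) * (1 + q w)) := by
      have : 1 + q z ≠ 0 := by linarith
      have : 1 + q w ≠ 0 := by linarith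
      field_simp; ring
    have h5 : 1/2 ≤ (1 + q z) * (1 + q w) := by nlinarith
    rw [e, abs_div, abs_sub_comm, abs_of_pos (by linarith : 0 < (1 + q z) * (1 + q w)),
      div_le_iff₀ (by linarith)]
    nlinarith
  · rintro ⟨c, hc⟩
    have h1 := hc _ (mem_ball_single 0 (by norm_num) 1)
    have h2 := hc _ (mem_ball_single (1/8) (by norm_num [abs_of_pos]) 1)
    simp at h1 h2
    rw [← h1] at h2
    norm_num at h2
  · rintro ⟨c, hc⟩
    have h1 := hc _ (mem_ball_single 0 (by norm_num) 0)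
    have h2 := hc _ (mem_ball_single (1/8) (by norm_num [abs_of_pos]) 0)
    rw [← h1] at h2
    simp [v, P] at h2
    norm_num at h2
  · intro φ hφ hc _
    have := weak (fun _ => 0) (fun _ => 1) φ contDiff_const contDiff_const (by simp)
      (hφ.of_le (by simp)) hc
    rw [← this]
    congr 1
    ext z
    simp [A, Fin.sum_univ_two, (dx 1 z).fderiv]
  · intro φ hφ hc hs
    have := weak W1 W2 φ W1_cd W2_cd div_W (hφ.of_le (by simp)) hc
    rw [← this]
    congr 1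
    ext z
    by_cases hz : z ∈ Metric.ball (0 : E) (1/4)
    · have : 1 + q z ≠ 0 := by linarith [(q_bd hz).1]
      simp [A, Fin.sum_univ_two, (v_d z).1, (v_d z).2]
      left
      field_simp
    · have : fderiv ℝ φ z = 0 := by
        by_contra h
        exact hz (hs (support_fderiv_subset ℝ h))
      simp [this]
  · refine Convex.isConnected ?_ ⟨0, by simp⟩
    refine (convex_ball _ _).inter (t := {z : E | z 1 = 0}) ?_
    intro x hx y hy a b _ _ _
    simp only [Set.mem_ofPred_eq] at hx hy ⊢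
    simp [hx, hy]
  · intro p hp
    refine ⟨Metric.ball 0 (1/4), fun z => z 1, Metric.isOpen_ball, hp.1, cx 1, fun x _ h => ?_, ?_⟩
    · rw [(dx 1 x).fderiv] at h
      have := congrArg (fun L : E →L[ℝ] ℝ => L (EuclideanSpace.single 1 1)) h
      simp at this
    · ext z; simp only [Set.mem_inter_iff, Set.mem_ofPred_eq]; tauto
  · exact ⟨EuclideanSpace.single 0 (-1/8),
      ⟨mem_ball_single _ (by norm_num [abs_of_neg]) _, by simp⟩, by simp; norm_num⟩
  · intro h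
    have : (0 : E) ∈ {z | z ∈ Metric.ball (0 : E) (1/4) ∧ z 1 = 0} := by simp
    rw [← h] at this
    simpa using this.2
  · exact ⟨_, isOpen_lt (cx1 0).continuous continuous_const, rfl⟩
  · rintro z ⟨⟨-, h1⟩, h2⟩
    simp [v, P, h1, max_eq_right (show z 0 < 0 from h2).le]

end Pool.Agent.S04054
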