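import Pool.Statements.S04080
import Pool.Agent.H95.OpLip

set_option autoImplicit false
open Pool Pool.MP_24fbf1_an

namespace Pool.Agent.S04080

/-- The negation of the preceding statement: If f is operator Lipschitz on [a,b] (uniform bound on ‖f(A)−f(B)‖ by C‖A−B‖ for self-adjoint A,B with spectrum in [a,b]) and has nonzero derivative at every point of [a,b], then its inverse is operator Lipschitz on the interval between f(a) and f(b). -/
theorem result :
    ¬ (∀ (f : ℝ → ℝ) (a b : ℝ),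
      (ContinuousOn f (Set.Icc a b) ∧
        ∃ C : ℝ, ∀ (H : Type) [NormedAddCommGroup H] [InnerProductSpace ℂ H] [CompleteSpace H],
          ∀ A B : H →L[ℂ] H, IsSelfAdjoint A → IsSelfAdjoint B →
            spectrum ℝ A ⊆ Set.Icc a b → spectrum ℝ B ⊆ Set.Icc a b →
              ‖cfc f A - cfc f B‖ ≤ C * ‖A - B‖) →
      (∀ x ∈ Set.Icc a b, ∃ d : ℝ, d ≠ 0 ∧ HasDerivWithinAt f d (Set.Icc a b) x) →
      ∃ g : ℝ → ℝ, (∀ x ∈ Set.Icc a b, g (f x) = x) ∧
        (ContinuousOn g (Set.uIcc (f a) (f b)) ∧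
          ∃ C : ℝ, ∀ (H : Type) [NormedAddCommGroup H] [InnerProductSpace ℂ H] [CompleteSpace H],
            ∀ A B : H →L[ℂ] H, IsSelfAdjoint A → IsSelfAdjoint B →
              spectrum ℝ A ⊆ Set.uIcc (f a) (f b) → spectrum ℝ B ⊆ Set.uIcc (f a) (f b) →
                ‖cfc g A - cfc g B‖ ≤ C * ‖A - B‖)) := by
  exact Pool.Agent.H95.OpLip.main

end Pool.Agent.S04080
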