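import Pool.Statements.S04088
import Pool.Agent.H90.TileKer

set_option autoImplicit false
open MeasureTheory
open Pool Pool.MP_260e18_an

namespace Pool.Agent.S04088

open Set Filter Topology Pool.Agent.H90.TileFix Pool.Agent.H90.TileKer

noncomputable def mm (η : ℝ) (n : ℤ) : ℝ := if n ≤ 0 then n * η else n * (η * (1 + η ^ 2))

lemma mm_gap (η : ℝ) (n : ℤ) :
    mm η (n + 1) - mm η n = η ∨ mm η (n + 1) - mm η n = η * (1 + η ^ 2) := by
  unfold mm
  split_ifs with h1 h2 h2
  · left; push_cast; ring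
  · omega
  · right
    obtain rfl : n = 0 := by omega
    simp
  · right; push_cast; ring

lemma mm_mesh {η : ℝ} (h0 : 0 < η) (h1 : η ≤ 1 / 4) : Mesh η (mm η) := by
  have h2 : η ^ 2 ≤ 1 := by nlinarith
  have h3 : 0 < η ^ 2 := by positivity
  refine ⟨h0, h1, fun n => ?_, fun n => ?_, fun n => ?_, fun t => ?_⟩
  · rcases mm_gap η n with h | h <;> rw [h]; nlinarith
  · rcases mm_gap η n with h | h <;> rw [h] <;> nlinarith
  · rcases mm_gap η n with h | h <;> rw [h]
    · simpa using h0.le
    · have e : 1 / (η * (1 + η ^ 2)) - 1 / η = -(η / (1 + η ^ 2)) := by field_simp; ring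
      rw [e, abs_neg, abs_of_pos (by positivity)]
      exact div_le_self h0.le (by linarith)
  · by_cases ht : t ≤ 0
    · have a1 := Int.le_ceil (t / η)
      have a2 := Int.ceil_lt_add_one (t / η)
      have a3 : ⌈t / η⌉ ≤ 0 := Int.ceil_le.2 (by simpa using div_nonpos_of_nonpos_of_nonneg ht h0.le)
      refine ⟨⌈t / η⌉ - 1, ?_, ?_⟩
      · rw [mm, if_pos (by omega)]
        push_cast
        rw [← lt_div_iff₀ h0]; linarith
      · rw [sub_add_cancel, mm, if_pos a3, ← div_le_iff₀ h0]; exact a1
    · push Not at ht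
      have hp : 0 < η * (1 + η ^ 2) := by positivity
      have a1 := Int.le_ceil (t / (η * (1 + η ^ 2)))
      have a2 := Int.ceil_lt_add_one (t / (η * (1 + η ^ 2)))
      have a3 : 0 < ⌈t / (η * (1 + η ^ 2))⌉ := Int.ceil_pos.2 (by positivity)
      refine ⟨⌈t / (η * (1 + η ^ 2))⌉ - 1, ?_, ?_⟩
      · rw [mm]
        split_ifs with h
        · rw [show ⌈t / (η * (1 + η ^ 2))⌉ - 1 = 0 by omega]; simpa using ht
        · push_cast
          rw [← lt_div_iff₀ hp]; linarith
      · rw [sub_add_cancel, mm, if_neg (by omega), ← div_le_iff₀ hp]; exact a1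

theorem tiling : ∃ (η : ℝ) (ν : ℤ → ℝ) (h : ℝ → ℂ), 0 < η ∧ η ≤ 1 / 4 ∧
    (∀ n, mm η n < ν n ∧ ν n < mm η (n + 1)) ∧ Integrable h ∧ ¬ h =ᵐ[volume] 0 ∧
    ∀ x, Summable (fun n => ‖h (x - ν n)‖) ∧ ∑' n, h (x - ν n) = 0 := by
  obtain ⟨C, P, K, K', f, h, k, hf, hfK, hfP, hh, hh0⟩ := kernels
  have hC := k.pos
  let η : ℝ := min (1 / 4) (1 / (1000 * C))
  have h0 : 0 < η := by positivity
  have h1 : η ≤ 1 / 4 := min_le_left _ _
  have h2 : C * η ≤ 1 / 1000 := by
    have : η ≤ 1 / (1000 * C) := min_le_right _ _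
    rw [le_div_iff₀ (by positivity)] at this
    linarith
  have M := mm_mesh h0 h1
  obtain ⟨A, hA, hfix⟩ := fixed M k h2
  let ν : ℤ → ℝ := fun n => mid (mm η) n + al (mm η) A n
  refine ⟨η, ν, h, h0, h1, fun n => ?_, hh, hh0, fun x => ?_⟩
  · have a1 := abs_le.1 (M.al_le A n)
    have a2 := M.lo n
    simp only [ν, mid]
    constructor <;> nlinarith [a1.1, a1.2, norm_nonneg A]
  · have hP : ∀ y, Summable (fun n => P (y - ν n)) ∧ ∑' n, |P (y - ν n)| ≤ 3 * C * (12 / η) ∧
        |∑' n, P (y - ν n)| ≤ 3 * C * (12 / η) := fun y =>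
      M.abs_tsum_le y (3 * C) (by positivity) (fun n => by
        have := P_le M k hA (x := y) (x0 := y) (by simp) n
        simpa only [ν, sub_add_eq_sub_sub] using this)
    let F : ℤ → ℝ → ℂ := fun n y => f y * (P (x - y - ν n) : ℂ)
    have hFi : ∀ n, Integrable (F n) := fun n =>
      hf.mul_bdd (c := C) (Continuous.aestronglyMeasurable (by have := k.contP; fun_prop))
        (Eventually.of_forall (fun y => by
          rw [Complex.norm_real]
          refine (k.bP _).trans ?_
          have : w (x - y - ν n) ≤ 1 := inv_le_one_of_one_le₀ (by nlinarith [sq_nonneg (x - y - ν n)])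
          nlinarith))
    have hFe : ∀ n, ∫ y, F n y = h (x - ν n) := fun n => by
      rw [← hfP]
      congr 1
      funext y
      simp only [F]
      rw [sub_right_comm]
    have hFs : Summable (fun n => ∫ y, ‖F n y‖) := by
      refine summable_of_sum_le (c := (∫ y, ‖f y‖) * (3 * C * (12 / η)))
        (fun n => integral_nonneg (fun _ => norm_nonneg _)) (fun s => ?_)
      rw [← integral_finsetSum _ (fun n _ => (hFi n).norm), ← integral_mul_const]
      refine integral_mono (integrable_finsetSum _ (fun n _ => (hFi n).norm))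
        (hf.norm.mul_const _) (fun y => ?_)
      simp only [F, norm_mul, Complex.norm_real, ← Finset.mul_sum]
      refine mul_le_mul_of_nonneg_left ?_ (norm_nonneg _)
      exact ((hP (x - y)).1.abs.sum_le_tsum s (fun _ _ => abs_nonneg _)).trans (hP (x - y)).2.1
    refine ⟨Summable.of_nonneg_of_le (fun _ => norm_nonneg _) (fun n => ?_) hFs, ?_⟩
    · rw [← hFe]; exact norm_integral_le_integral_norm _
    · have a1 := (hasSum_integral_of_summable_integral_norm hFi hFs).tsum_eq
      simp only [hFe] at a1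
      rw [a1]
      have a2 : ∀ y, ∑' n, F n y = f y * (A (x - y) : ℂ) -
          ∫ t, f y * (K (x - t - y) : ℂ) * (A t : ℂ) := fun y => by
        simp only [F]
        rw [tsum_mul_left, ← Complex.ofReal_tsum, hfix, Phi]
        simp only [ν, sub_add_eq_sub_sub, mul_assoc]
        rw [integral_const_mul]
        push_cast
        rw [← integral_complex_ofReal]
        simp only [sub_right_comm x y]
        push_cast
        ring
      simp only [a2]
      have i1 : Integrable (fun y => f y * (A (x - y) : ℂ)) :=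
        hf.mul_bdd (c := ‖A‖) (Continuous.aestronglyMeasurable (by fun_prop))
          (Eventually.of_forall (fun y => by
            rw [Complex.norm_real]; exact A.norm_coe_le_norm _))
      have i2 : Integrable (fun p : ℝ × ℝ => f p.2 * (K (x - p.1 - p.2) : ℂ) * (A p.1 : ℂ))
          (volume.prod volume) := by
        have b1 : Integrable (fun s => (K (x - s) : ℂ)) := (k.intK.comp_sub_left x).ofReal
        have b2 := (hf.comp_neg).convolution_integrand (ContinuousLinearMap.mul ℂ ℂ) b1
        have b3 : MeasurePreserving (Prod.map (id : ℝ → ℝ) (Neg.neg : ℝ → ℝ))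
            (volume.prod volume) (volume.prod volume) :=
          (MeasurePreserving.id volume).prod (Measure.measurePreserving_neg volume)
        have b4 := b3.integrable_comp_of_integrable b2
        refine Integrable.mul_bdd (c := ‖A‖) (b4.congr (Eventually.of_forall (fun p => ?_)))
          (Continuous.aestronglyMeasurable (by fun_prop))
          (Eventually.of_forall (fun y => by
            rw [Complex.norm_real]; exact A.norm_coe_le_norm _))
        simp [sub_add_eq_sub_sub]
      rw [integral_sub i1 i2.integral_prod_right, ← integral_integral_swap i2]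
      simp only [integral_mul_const, hfK]
      rw [← integral_sub_left_eq_self _ volume x]
      simp

/-- The negation of the statement. -/
theorem result :
    ¬ (∀ (f : ℝ → ℂ) (Λ : Set ℝ),
      Integrable f volume →
      ¬ (f =ᵐ[volume] 0) →
      Λ.Nonempty →
      (∃ M : ℕ, ∀ x : ℝ, (Λ ∩ Set.Ico x (x + 1)).encard ≤ (M : ℕ∞)) →
      (∀ᵐ x ∂(volume : Measure ℝ),
        Summable (fun l : Λ => ‖f (x - (l : ℝ))‖) ∧
        ∑' l : Λ, f (x - (l : ℝ)) = 0) →
      ∃ D : ℝ, 0 < D ∧
        ∀ ε : ℝ, 0 < ε → ∃ R : ℝ, 0 < R ∧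
          ∀ r : ℝ, R ≤ r → ∀ x : ℝ,
            |((Λ ∩ Set.Ico x (x + r)).ncard : ℝ) - D * r| ≤ ε * r) := by
  intro H
  obtain ⟨η, ν, h, h0, h1, hν, hh, hh0, ht⟩ := tiling
  have M := mm_mesh h0 h1
  have hm := M.strictMono
  have hs : StrictMono ν := strictMono_int_of_lt_succ (fun n => (hν n).2.trans (hν (n + 1)).1)
  have hI : ∀ a b : ℤ, range ν ∩ Ico (mm η a) (mm η b) = ν '' Ico a b := fun a b => by
    ext y
    constructor
    · rintro ⟨⟨n, rfl⟩, h2, h3⟩
      refine ⟨n, ⟨?_, ?_⟩, rfl⟩
      · exact Int.lt_add_one_iff.1 (hm.lt_iff_lt.1 (h2.trans_lt (hν n).2))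
      · exact hm.lt_iff_lt.1 ((hν n).1.trans h3)
    · rintro ⟨n, ⟨h2, h3⟩, rfl⟩
      exact ⟨⟨n, rfl⟩, (hm.monotone h2).trans (hν n).1.le,
        (hν n).2.trans_le (hm.monotone (by omega))⟩
  have hc : ∀ (a : ℤ) (N : ℕ), (range ν ∩ Ico (mm η a) (mm η (a + N))).encard = N := fun a N => by
    rw [hI, hs.injective.encard_image, ← Finset.coe_Ico, encard_coe_eq_coe_finsetCard]
    simp
  have hlin : ∀ (a : ℤ) (N : ℕ), mm η a + N * η ≤ mm η (a + N) := fun a N => by
    induction N with
    | zero => simp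
    | succ N ih =>
      have := M.lo (a + N)
      push_cast
      rw [← add_assoc]
      linarith
  obtain ⟨D, -, hD⟩ := H h (range ν) hh hh0 (range_nonempty _) (by
    obtain ⟨N, hN⟩ := exists_nat_ge (1 / η)
    rw [div_le_iff₀ h0] at hN
    refine ⟨N + 1, fun x => ?_⟩
    obtain ⟨a, ha1, ha2⟩ := M.cover x
    rw [← hc a (N + 1)]
    apply encard_le_encard
    apply inter_subset_inter_right
    apply Ico_subset_Ico ha1.le
    have := hlin (a + 1) N
    rw [show a + 1 + (N : ℤ) = a + ((N + 1 : ℕ) : ℤ) by push_cast; ring] at this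
    linarith) (Eventually.of_forall (fun x => by
      constructor
      · exact (Equiv.ofInjective ν hs.injective).summable_iff.1 (ht x).1
      · rw [← (Equiv.ofInjective ν hs.injective).tsum_eq]
        exact (ht x).2))
  obtain ⟨R, hR, hD⟩ := hD (η / 8) (by positivity)
  obtain ⟨N, hN⟩ := exists_nat_ge (R / η)
  rw [div_le_iff₀ h0] at hN
  have hN0 : (0 : ℝ) < N := by
    by_contra hn
    push Not at hn
    nlinarith
  have hN1 : 0 < N := by exact_mod_cast hN0
  have h3 : 0 < η ^ 2 := by positivity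
  have e1 : mm η (-N) + N * η = mm η (-N + N) := by simp [mm]
  have e2 : mm η 0 + N * (η * (1 + η ^ 2)) = mm η (0 + N) := by
    simp only [mm, le_refl, if_true, Int.cast_zero, zero_mul, zero_add]
    rw [if_neg (by omega)]; simp
  have a1 := hD (N * η) hN (mm η (-N))
  have a2 := hD (N * (η * (1 + η ^ 2))) (by nlinarith [mul_pos hN0 (mul_pos h0 h3)]) (mm η 0)
  rw [e1, ncard_def, hc] at a1
  rw [e2, ncard_def, hc] at a2
  simp only [ENat.toNat_natCast] at a1 a2
  have b1 := (abs_le.1 a1).2
  have b2 := (abs_le.1 a2).1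
  have c1 : 1 - D * η ≤ η / 8 * η := by
    apply le_of_mul_le_mul_left _ hN0; linarith
  have c2 : -(η / 8 * (η * (1 + η ^ 2))) ≤ 1 - D * (η * (1 + η ^ 2)) := by
    apply le_of_mul_le_mul_left _ hN0; linarith
  have h4 : η ^ 2 ≤ 1 / 16 := by nlinarith
  nlinarith [mul_le_mul_of_nonneg_right c1 (show 0 ≤ 1 + η ^ 2 by positivity)]

end Pool.Agent.S04088
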