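import Pool.Statements.S04104
import Pool.Agent.H86.PonF

set_option autoImplicit false
open Classical
open Pool Pool.MP_270856_an

namespace Pool.Agent.S04104

open Pool.Agent.H86.Roe in
theorem adj_eq (X : Type) [MetricSpace X] : StarAlgebra.adjoin ℂ
    {T : lp (fun _ : X => ℂ) 2 →L[ℂ] lp (fun _ : X => ℂ) 2 |
      ∃ R : ℝ, ∀ a b : X, R < dist a b →
        inner ℂ (lp.single (E := fun _ : X => ℂ) 2 a (1 : ℂ))
          (T (lp.single (E := fun _ : X => ℂ) 2 b (1 : ℂ))) = 0} = FP X := by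
  refine Eq.trans (congrArg _ ?_) (StarAlgebra.adjoin_eq (FP X))
  ext a
  refine exists_congr fun r => ⟨fun h x x' h' => ?_, fun h x x' h' => ?_⟩
  · rw [← inner_δ]
    exact h x' x (by rwa [dist_comm])
  · exact (inner_δ x _).trans (h x' x (by rwa [dist_comm]))

/-- The negation of the preceding statement: For uniformly locally finite metric spaces X, Y, if the uniform Roe algebra of X embeds injectively as a *-algebra into that of Y, then asdim X ≤ asdim Y (every n bounding asdim Y also bounds asdim X). -/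
theorem result :
    ¬ (∀ (X Y : Type) [MetricSpace X] [MetricSpace Y],
    (∀ r : ℝ, ∃ N : ℕ, ∀ x : X,
        (Metric.closedBall x r).Finite ∧ (Metric.closedBall x r).ncard ≤ N) →
    (∀ r : ℝ, ∃ N : ℕ, ∀ y : Y,
        (Metric.closedBall y r).Finite ∧ (Metric.closedBall y r).ncard ≤ N) →
    (∃ Φ : (StarAlgebra.adjoin ℂ
              {T : lp (fun _ : X => ℂ) 2 →L[ℂ] lp (fun _ : X => ℂ) 2 |
                ∃ R : ℝ, ∀ a b : X, R < dist a b →
                  inner ℂ (lp.single (E := fun _ : X => ℂ) 2 a (1 : ℂ))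
                    (T (lp.single (E := fun _ : X => ℂ) 2 b (1 : ℂ))) = 0}).topologicalClosure
            →⋆ₙₐ[ℂ]
           (StarAlgebra.adjoin ℂ
              {T : lp (fun _ : Y => ℂ) 2 →L[ℂ] lp (fun _ : Y => ℂ) 2 |
                ∃ R : ℝ, ∀ a b : Y, R < dist a b →
                  inner ℂ (lp.single (E := fun _ : Y => ℂ) 2 a (1 : ℂ))
                    (T (lp.single (E := fun _ : Y => ℂ) 2 b (1 : ℂ))) = 0}).topologicalClosure,
        Function.Injective Φ) →
    ∀ n : ℕ,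
      (∀ R : ℝ, 0 < R → ∃ U : Fin (n + 1) → Set (Set Y),
        (∃ D : ℝ, ∀ i, ∀ A ∈ U i, ∀ a ∈ A, ∀ b ∈ A, dist a b ≤ D) ∧
        (∀ z : Y, ∃ i, ∃ A ∈ U i, z ∈ A) ∧
        (∀ i, ∀ A ∈ U i, ∀ B ∈ U i, A ≠ B → ∀ a ∈ A, ∀ b ∈ B, R < dist a b)) →
      (∀ R : ℝ, 0 < R → ∃ U : Fin (n + 1) → Set (Set X),
        (∃ D : ℝ, ∀ i, ∀ A ∈ U i, ∀ a ∈ A, ∀ b ∈ A, dist a b ≤ D) ∧
        (∀ z : X, ∃ i, ∃ A ∈ U i, z ∈ A) ∧
        (∀ i, ∀ A ∈ U i, ∀ B ∈ U i, A ≠ B → ∀ a ∈ A, ∀ b ∈ B, R < dist a b))) := by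
  open Pool.Agent.H86.Roe Pool.Agent.H86.Pon in
  intro h
  letI := connX.met
  letI := connY.met
  obtain ⟨U, ⟨D, h1⟩, h2, h3⟩ := h XX (XX × GG) connX.ulf connY.ulf
    (by
      rw [adj_eq, adj_eq]
      exact ⟨{ toFun := fun a => ⟨SS.Φ a, maps SS connX gen_mem a a.2⟩
               map_smul' := fun c a => Subtype.ext (map_smul SS.Φ c a.1)
               map_zero' := Subtype.ext (map_zero SS.Φ)
               map_add' := fun a b => Subtype.ext (map_add SS.Φ a.1 b.1)
               map_mul' := fun a b => Subtype.ext (map_mul SS.Φ a.1 b.1)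
               map_star' := fun a => Subtype.ext (map_star SS.Φ a.1) },
        fun a b h => Subtype.ext (SS.Φ_inj 0 (congrArg Subtype.val h))⟩)
    1 (fun R _ => dimY R) 2 two_pos
  exact notX U D h1 h2 h3

end Pool.Agent.S04104
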