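import Pool.Statements.S04108

set_option autoImplicit false
open Pool Pool.MP_275f89_an

namespace Pool.Agent.S04108

open Classical in
/-- the identity element -/
noncomputable def e0 : ℝ → ℝ := fun x => if 0 < x then (1 : ℝ) else 0

/-- the half-height step at zero -/
noncomputable def kk : ℝ → ℝ := fun x => if 0 < x then (1 / 2 : ℝ) else 0

/-- a step function agreeing with kk up to 1 and equal to one afterwards -/
noncomputable def ff : ℝ → ℝ := fun x => if 1 < x then (1 : ℝ) else if 0 < x then 1 / 2 else 0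

/-- the up-set on which the operation is not the bottom element -/
def InU (F : ℝ → ℝ) : Prop := kk ≤ F ∧ F 2 = 1

open Classical in
/-- a non-causal triangle function -/
noncomputable def tau (F G : ℝ → ℝ) : ℝ → ℝ :=
  if G = e0 then F else if F = e0 then G else if InU F ∧ InU G then kk else 0

def DD : Set (ℝ → ℝ) :=
  {F : ℝ → ℝ | Monotone F ∧ (∀ x, 0 ≤ F x ∧ F x ≤ 1) ∧ (∀ x : ℝ, x ≤ 0 → F x = 0) ∧
            ∀ x : ℝ, ContinuousWithinAt F (Set.Iio x) x}

theorem step_cont (c u v : ℝ) (x : ℝ) :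
    ContinuousWithinAt (fun y : ℝ => if c < y then u else v) (Set.Iio x) x := by
  by_cases h : c < x
  · have : (fun y : ℝ => if c < y then u else v) =ᶠ[nhds x] fun _ => u := by
      filter_upwards [Ioi_mem_nhds h] with y hy
      simp [Set.mem_Ioi.mp hy]
    exact (continuousAt_const.congr this.symm).continuousWithinAt
  · refine (continuousWithinAt_const (b := v)).congr ?_ ?_
    · intro y hy
      have : ¬ c < y := by
        have := Set.mem_Iio.mp hy
        push Not at h ⊢
        linarith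
      simp [this]
    · simp [h]

theorem kk_mem : kk ∈ DD := by
  refine ⟨?_, ?_, ?_, ?_⟩
  · intro a b hab
    unfold kk
    split_ifs <;> first | linarith | norm_num
  · intro x; unfold kk; split_ifs <;> norm_num
  · intro x hx; unfold kk; simp [not_lt.mpr hx]
  · intro x; exact step_cont 0 _ _ x

theorem zero_mem : (0 : ℝ → ℝ) ∈ DD := by
  refine ⟨monotone_const, ?_, ?_, ?_⟩
  · intro x; simp
  · intro x _; rfl
  · intro x; exact continuousWithinAt_const

theorem ff_mem : ff ∈ DD := by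
  refine ⟨?_, ?_, ?_, ?_⟩
  · intro a b hab
    unfold ff
    split_ifs <;> first | linarith | norm_num
  · intro x; unfold ff; split_ifs <;> norm_num
  · intro x hx; unfold ff
    have h1 : ¬ (1 < x) := by linarith
    simp [not_lt.mpr hx, h1]
  · intro x
    have : ff = fun y : ℝ => (if (1:ℝ) < y then (1/2 : ℝ) else 0) + (if (0:ℝ) < y then (1/2 : ℝ) else 0) := by
      funext y; unfold ff
      split_ifs <;> first | linarith | norm_num
    rw [this]
    exact (step_cont 1 _ _ x).add (step_cont 0 _ _ x)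

theorem le_e0 {F : ℝ → ℝ} (hF : F ∈ DD) : F ≤ e0 := by
  intro x
  unfold e0
  split_ifs with h
  · exact (hF.2.1 x).2
  · rw [hF.2.2.1 x (not_lt.mp h)]

theorem zero_le {F : ℝ → ℝ} (hF : F ∈ DD) : (0 : ℝ → ℝ) ≤ F := fun x => (hF.2.1 x).1

theorem kk_ne : kk ≠ e0 := by
  intro h
  have := congrFun h 1
  simp [kk, e0] at this

theorem zero_ne : (0 : ℝ → ℝ) ≠ e0 := by
  intro h
  have := congrFun h 1
  simp [e0] at this

theorem ff_ne : ff ≠ e0 := by
  intro h
  have := congrFun h 1
  simp [ff, e0] at this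

theorem kk_notU : ¬ InU kk := by
  intro h
  have := h.2
  simp [kk] at this

theorem zero_notU : ¬ InU 0 := by
  intro h
  have := h.2
  simp at this

theorem ff_U : InU ff := by
  refine ⟨?_, ?_⟩
  · intro x; unfold kk ff; split_ifs <;> first | linarith | norm_num
  · simp [ff]

theorem tau_right (F : ℝ → ℝ) : tau F e0 = F := by simp [tau]

theorem tau_left (G : ℝ → ℝ) : tau e0 G = G := by
  unfold tau
  split_ifs with h1 h2 <;> simp_all

theorem tau_cases {F G : ℝ → ℝ} (hF : F ≠ e0) (hG : G ≠ e0) : tau F G = kk ∨ tau F G = 0 := by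
  unfold tau
  simp only [hF, hG, if_false]
  split_ifs <;> simp

theorem tau_comm (F G : ℝ → ℝ) : tau F G = tau G F := by
  by_cases hF : F = e0
  · subst hF; rw [tau_left, tau_right]
  by_cases hG : G = e0
  · subst hG; rw [tau_left, tau_right]
  unfold tau
  simp only [hF, hG, if_false]
  by_cases h1 : InU F <;> by_cases h2 : InU G <;> simp [h1, h2]

theorem tau_tau {F G H : ℝ → ℝ} (hF : F ≠ e0) (hG : G ≠ e0) (hH : H ≠ e0) :
    tau (tau F G) H = 0 := by
  rcases tau_cases hF hG with h | h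
  · rw [h]; unfold tau; simp [hH, kk_ne, kk_notU]
  · rw [h]; unfold tau; simp [hH, zero_ne, zero_notU]

theorem tau_le_right {F G : ℝ → ℝ} (hF : F ∈ DD) (hG : G ∈ DD) : tau F G ≤ G := by
  unfold tau
  split_ifs with h1 h2 h3
  · rw [h1]; exact le_e0 hF
  · exact le_rfl
  · exact h3.2.1
  · exact zero_le hG

/-- There is a triangle function which is not causal. -/
theorem result :
    ¬ (∀ D : Set (ℝ → ℝ),
      D = {F : ℝ → ℝ | Monotone F ∧ (∀ x, 0 ≤ F x ∧ F x ≤ 1) ∧ (∀ x : ℝ, x ≤ 0 → F x = 0) ∧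
            ∀ x : ℝ, ContinuousWithinAt F (Set.Iio x) x} →
      ∀ τ : (ℝ → ℝ) → (ℝ → ℝ) → (ℝ → ℝ),
        (∀ F ∈ D, ∀ G ∈ D, τ F G ∈ D) →
        (∀ F ∈ D, ∀ G ∈ D, τ F G = τ G F) →
        (∀ F ∈ D, ∀ G ∈ D, ∀ H ∈ D, τ (τ F G) H = τ F (τ G H)) →
        (∀ F ∈ D, τ F (fun x : ℝ => if 0 < x then (1 : ℝ) else 0) = F) →
        (∀ F₁ ∈ D, ∀ F₂ ∈ D, ∀ G ∈ D, F₁ ≤ F₂ → τ F₁ G ≤ τ F₂ G) →
        ∀ a : ℝ, 0 < a →
          ∀ F₁ ∈ D, ∀ F₂ ∈ D, ∀ G₁ ∈ D, ∀ G₂ ∈ D,
            (∀ x : ℝ, x ≤ a → F₁ x ≤ F₂ x) →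
            (∀ x : ℝ, x ≤ a → G₁ x ≤ G₂ x) →
            ∀ x : ℝ, x ≤ a → τ F₁ G₁ x ≤ τ F₂ G₂ x) := by
  intro h
  have hle : ∀ x : ℝ, x ≤ 1 → ff x ≤ kk x := by
    intro x hx
    unfold ff kk
    have : ¬ (1 < x) := by linarith
    simp [this]
  have key := h DD rfl tau ?_ (fun F _ G _ => tau_comm F G) ?_ (fun F _ => tau_right F) ?_
    1 one_pos ff ff_mem kk kk_mem ff ff_mem kk kk_mem hle hle 1 le_rfl
  · have h1 : tau ff ff = kk := by unfold tau; simp [ff_ne, ff_U]
    have h2 : tau kk kk = 0 := by unfold tau; simp [kk_ne, kk_notU]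
    rw [h1, h2] at key
    simp [kk] at key
    norm_num at key
  · intro F hF G hG
    unfold tau
    split_ifs
    · exact hF
    · exact hG
    · exact kk_mem
    · exact zero_mem
  · intro F _ G _ H _
    by_cases hF : F = e0
    · subst hF; rw [tau_left, tau_left]
    by_cases hG : G = e0
    · subst hG; rw [tau_left, tau_right]
    by_cases hH : H = e0
    · subst hH; rw [tau_right, tau_right]
    rw [tau_tau hF hG hH, tau_comm F, tau_tau hG hH hF]
  · intro F₁ h1 F₂ h2 G hG hle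
    by_cases hGe : G = e0
    · subst hGe; rw [tau_right, tau_right]; exact hle
    by_cases hF2 : F₂ = e0
    · subst hF2; rw [tau_left]; exact tau_le_right h1 hG
    have hF1 : F₁ ≠ e0 := by
      intro h'
      exact hF2 (le_antisymm (le_e0 h2) (h' ▸ hle))
    unfold tau
    simp only [hGe, hF1, hF2, if_false]
    by_cases hU : InU F₁ ∧ InU G
    · have : InU F₂ ∧ InU G :=
        ⟨⟨hU.1.1.trans hle, le_antisymm (h2.2.1 2).2 (hU.1.2 ▸ hle 2)⟩, hU.2⟩
      simp [hU, this]
    · simp only [hU, if_false]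
      split_ifs
      · exact zero_le kk_mem
      · exact le_rfl

end Pool.Agent.S04108
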