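import Pool.Statements.S04150

set_option autoImplicit false
open Pool Pool.MP_299699_an

namespace Pool.Agent.S04150

open Metric Set
open scoped InnerProductSpace

abbrev H : Type := lp (fun _ : ℕ => ℝ) 2

lemma refl_of_equiv (X E : Type) [NormedAddCommGroup X] [NormedSpace ℝ X]
    [NormedAddCommGroup E] [InnerProductSpace ℝ E] [CompleteSpace E] (e : X ≃L[ℝ] E) :
    Function.Surjective (NormedSpace.inclusionInDoubleDual ℝ X) := by
  intro φ
  let T : E →L[ℝ] StrongDual ℝ X :=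
    ((ContinuousLinearMap.compL ℝ X E ℝ).flip (e : X →L[ℝ] E)).comp
      (InnerProductSpace.toDual ℝ E).toContinuousLinearEquiv.toContinuousLinearMap
  have hT : ∀ v x, T v x = ⟪v, e x⟫_ℝ := by
    intro v x
    simp [T]
  let w : E := (InnerProductSpace.toDual ℝ E).symm (φ.comp T)
  refine ⟨e.symm w, ?_⟩
  ext l
  let v : E := (InnerProductSpace.toDual ℝ E).symm (l.comp (e.symm : E →L[ℝ] X))
  have hv : ∀ y, ⟪v, y⟫_ℝ = l (e.symm y) := by
    intro y
    simp [v]
  have hl : l = T v := by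
    ext x
    rw [hT, hv]
    simp
  have hw : ∀ y, ⟪w, y⟫_ℝ = φ (T y) := by
    intro y
    simp [w]
  rw [NormedSpace.dual_def, ← hv, real_inner_comm, hw, ← hl]

noncomputable def e (n : ℕ) : H := lp.single 2 n (1 : ℝ)

lemma norm_e (n : ℕ) : ‖e n‖ = 1 := by
  simp [e, lp.norm_single]

noncomputable def g (x : H) : ℝ := ⨅ n : ℕ, (‖x - e n‖ + 1 / ((n : ℝ) + 1))

lemma bdd (x : H) : BddBelow (range fun n : ℕ => (‖x - e n‖ + 1 / ((n : ℝ) + 1))) := by
  refine ⟨0, ?_⟩
  rintro _ ⟨n, rfl⟩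
  positivity

lemma g_le (x : H) (n : ℕ) : g x ≤ ‖x - e n‖ + 1 / ((n : ℝ) + 1) := ciInf_le (bdd x) n

lemma g_sub_le (x y : H) : g x ≤ g y + ‖x - y‖ := by
  have : g x - ‖x - y‖ ≤ g y := by
    refine le_ciInf fun n => ?_
    have h1 := g_le x n
    have h2 : ‖x - e n‖ ≤ ‖x - y‖ + ‖y - e n‖ := norm_sub_le_norm_sub_add_norm_sub _ _ _
    linarith
  linarith

lemma g_lip (x y : H) : |g x - g y| ≤ ‖x - y‖ := by
  have h1 := g_sub_le x y
  have h2 := g_sub_le y x
  rw [norm_sub_rev] at h2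
  rw [abs_le]
  constructor <;> linarith

lemma e_sep {m n : ℕ} (h : m ≠ n) : 1 ≤ ‖e m - e n‖ := by
  have h1 := lp.norm_apply_le_norm (E := fun _ : ℕ => ℝ) (p := 2) (by norm_num) (e m - e n) m
  have h2 : (e m - e n) m = 1 := by
    simp [e, lp.single_apply, h]
  rw [h2] at h1
  simpa using h1

lemma g_pos (x : H) : 0 < g x := by
  by_cases h : ∃ m, ‖x - e m‖ < 1 / 2
  · obtain ⟨m, hm⟩ := h
    have hp : (0 : ℝ) < min (1 / 2) (1 / ((m : ℝ) + 1)) := by positivity
    refine lt_of_lt_of_le hp (le_ciInf fun n => ?_)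
    by_cases hn : n = m
    · subst hn
      have := min_le_right (1 / 2 : ℝ) (1 / ((n : ℝ) + 1))
      have := norm_nonneg (x - e n)
      linarith
    · have h1 := e_sep hn
      have h2 : ‖e n - e m‖ ≤ ‖e n - x‖ + ‖x - e m‖ := norm_sub_le_norm_sub_add_norm_sub _ _ _
      rw [norm_sub_rev (e n) x] at h2
      have h3 := min_le_left (1 / 2 : ℝ) (1 / ((m : ℝ) + 1))
      have h4 : (0 : ℝ) ≤ 1 / ((n : ℝ) + 1) := by positivity
      linarith
  · push Not at h
    refine lt_of_lt_of_le (by norm_num : (0 : ℝ) < 1 / 2) (le_ciInf fun n => ?_)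
    have h4 : (0 : ℝ) ≤ 1 / ((n : ℝ) + 1) := by positivity
    have := h n
    linarith

def C : Set (H × ℝ) := {p | ‖p.1‖ ≤ 1 ∧ p.2 = 0}

lemma C_closed : IsClosed C := by
  have h1 : IsClosed {p : H × ℝ | ‖p.1‖ ≤ 1} := isClosed_le (by fun_prop) continuous_const
  have h2 : IsClosed {p : H × ℝ | p.2 = 0} := isClosed_eq (by fun_prop) continuous_const
  exact h1.inter h2

lemma C_convex : Convex ℝ C := by
  have : C = (closedBall (0 : H) 1) ×ˢ ({0} : Set ℝ) := by
    ext p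
    simp [C]
  rw [this]
  exact (convex_closedBall _ _).prod (convex_singleton _)

lemma C_bdd : Bornology.IsBounded C := by
  have : C = (closedBall (0 : H) 1) ×ˢ ({0} : Set ℝ) := by
    ext p
    simp [C]
  rw [this]
  exact isBounded_closedBall.prod Bornology.isBounded_singleton

lemma C_wcompact : IsCompact ((toWeakSpace ℝ (H × ℝ)) '' C) := by
  let F : WeakDual ℝ H → WeakSpace ℝ (H × ℝ) := fun l =>
    toWeakSpace ℝ (H × ℝ) ((InnerProductSpace.toDual ℝ H).symm (WeakDual.toStrongDual l), 0)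
  have hF : Continuous F := by
    refine WeakBilin.continuous_of_continuous_eval _ fun y => ?_
    let v : H := (InnerProductSpace.toDual ℝ H).symm (y.comp (ContinuousLinearMap.inl ℝ H ℝ))
    have hv : ∀ z, ⟪v, z⟫_ℝ = y (z, 0) := by
      intro z
      simp [v]
    have : (fun l : WeakDual ℝ H => (topDualPairing ℝ (H × ℝ)).flip (F l) y) = fun l => l v := by
      funext l
      have h1 : (topDualPairing ℝ (H × ℝ)).flip (F l) y
          = y ((InnerProductSpace.toDual ℝ H).symm (WeakDual.toStrongDual l), 0) := rfl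
      rw [h1, ← hv, real_inner_comm]
      simp
    rw [this]
    exact WeakDual.eval_continuous v
  have hc := (WeakDual.isCompact_closedBall (𝕜 := ℝ) (E := H) 0 1).image hF
  convert hc using 1
  ext q
  constructor
  · rintro ⟨p, ⟨hp1, hp2⟩, rfl⟩
    refine ⟨StrongDual.toWeakDual (InnerProductSpace.toDual ℝ H p.1), ?_, ?_⟩
    · simpa using hp1
    · simp only [F]
      congr 1
      ext
      · simp
      · simp [hp2]
  · rintro ⟨l, hl, rfl⟩
    refine ⟨_, ⟨?_, rfl⟩, rfl⟩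
    simpa using hl

lemma dist_C {p q : H × ℝ} (hp : p ∈ C) (hq : q ∈ C) : dist p q = ‖p.1 - q.1‖ := by
  rw [Prod.dist_eq, hp.2, hq.2, dist_self, dist_eq_norm]
  exact max_eq_left (norm_nonneg _)

lemma C_normal (K : Set (H × ℝ)) (hK : K ⊆ C) (hc : Convex ℝ K)
    (hab : ∃ a ∈ K, ∃ b ∈ K, a ≠ b) :
    ∃ x ∈ K, ∃ r : ℝ, r < Metric.diam K ∧ ∀ y ∈ K, dist x y ≤ r := by
  obtain ⟨a, ha, b, hb, hne⟩ := hab
  have hbd : Bornology.IsBounded K := C_bdd.subset hK
  have hx : (1 / 2 : ℝ) • a + (1 / 2 : ℝ) • b ∈ K :=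
    hc ha hb (by norm_num) (by norm_num) (by norm_num)
  have hab : 0 < dist a b := dist_pos.2 hne
  have hd : dist a b ≤ diam K := dist_le_diam_of_mem hbd ha hb
  refine ⟨_, hx, Real.sqrt (diam K ^ 2 - dist a b ^ 2 / 4), ?_, ?_⟩
  · rw [Real.sqrt_lt' (by linarith)]
    have : 0 < dist a b ^ 2 := by positivity
    linarith
  · intro y hy
    apply Real.le_sqrt_of_sq_le
    have h1 : dist a y ≤ diam K := dist_le_diam_of_mem hbd ha hy
    have h2 : dist b y ≤ diam K := dist_le_diam_of_mem hbd hb hy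
    rw [dist_C (hK ha) (hK hy)] at h1
    rw [dist_C (hK hb) (hK hy)] at h2
    rw [dist_C (hK hx) (hK hy), dist_C (hK ha) (hK hb)]
    have h3 := parallelogram_law_with_norm ℝ (a.1 - y.1) (b.1 - y.1)
    have h4 : ((1 / 2 : ℝ) • a + (1 / 2 : ℝ) • b).1 - y.1
        = (1 / 2 : ℝ) • ((a.1 - y.1) + (b.1 - y.1)) := by
      simp only [Prod.fst_add, Prod.smul_fst]
      module
    have h5 : (a.1 - y.1) - (b.1 - y.1) = a.1 - b.1 := by abel
    rw [h5] at h3
    rw [h4, norm_smul]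
    have h6 : ‖(1 / 2 : ℝ)‖ = 1 / 2 := by norm_num
    rw [h6]
    have h7 : ‖a.1 - y.1‖ ^ 2 ≤ diam K ^ 2 := by gcongr
    have h8 : ‖b.1 - y.1‖ ^ 2 ≤ diam K ^ 2 := by gcongr
    nlinarith

/-- The negation of the preceding statement: In every reflexive real Banach space, if C is closed, convex, weakly compact with normal structure and f is nonexpansive on C, then the set of values x minus f(x) for x in C is closed. -/
theorem result :
    ¬ (∀ (X : Type) [NormedAddCommGroup X] [NormedSpace ℝ X] [CompleteSpace X],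
    Function.Surjective (NormedSpace.inclusionInDoubleDual ℝ X) →
    ∀ (C : Set X), IsClosed C → Convex ℝ C → IsCompact ((toWeakSpace ℝ X) '' C) →
    (∀ K : Set X, K ⊆ C → Convex ℝ K → (∃ a ∈ K, ∃ b ∈ K, a ≠ b) →
        ∃ x ∈ K, ∃ r : ℝ, r < Metric.diam K ∧ ∀ y ∈ K, dist x y ≤ r) →
    ∀ f : X → X, (∀ x ∈ C, ∀ y ∈ C, dist (f x) (f y) ≤ dist x y) →
    IsClosed {z : X | ∃ x ∈ C, z = x - f x}) := by
  intro h
  have hr := refl_of_equiv (H × ℝ) (WithLp 2 (H × ℝ))
    (WithLp.prodContinuousLinearEquiv 2 ℝ H ℝ).symm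
  have hcl := h (H × ℝ) hr C C_closed C_convex C_wcompact C_normal
    (fun p => (p.1, g p.1)) (by
      intro x hx y hy
      rw [dist_C hx hy, Prod.dist_eq]
      refine max_le ?_ ?_
      · rw [dist_eq_norm]
      · rw [Real.dist_eq]
        exact g_lip _ _)
  have h0 : (0 : H × ℝ) ∈ {z : H × ℝ | ∃ x ∈ C, z = x - (x.1, g x.1)} := by
    rw [← hcl.closure_eq, Metric.mem_closure_iff]
    intro ε hε
    obtain ⟨n, hn⟩ := exists_nat_one_div_lt hε
    refine ⟨(e n, 0) - (e n, g (e n)), ⟨(e n, 0), ⟨(norm_e n).le, rfl⟩, rfl⟩, ?_⟩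
    have h1 := g_le (e n) n
    have h2 := g_pos (e n)
    simp only [sub_self, norm_zero, zero_add] at h1
    rw [dist_comm, dist_zero_right]
    simp only [Prod.mk_sub_mk, sub_self, zero_sub, Prod.norm_mk, norm_zero, norm_neg,
      Real.norm_eq_abs, abs_of_pos h2]
    exact max_lt hε (lt_of_le_of_lt h1 hn)
  obtain ⟨x, hx, hx0⟩ := h0
  have h3 := congrArg Prod.snd hx0
  have h4 := g_pos x.1
  simp only [Prod.snd_zero, Prod.snd_sub, hx.2] at h3
  linarith

end Pool.Agent.S04150
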