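import Pool.Statements.S04172
import Pool.Agent.H87.TrR1

set_option autoImplicit false
open Pool Pool.MP_2b27bc_an

namespace Pool.Agent.S04172

theorem result :
    ¬ (∀ (X : Type) [NormedAddCommGroup X] [NormedSpace ℝ X] [CompleteSpace X],
      (∀ Y : Submodule ℝ X, IsClosed (Y : Set X) →
          TopologicalSpace.SeparableSpace Y →
          TopologicalSpace.SeparableSpace (Y →L[ℝ] ℝ)) →
      ∃ N : X → ℝ, Continuous N ∧
        (∀ x : X, N x = 0 → x = 0) ∧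
        (∀ (c : ℝ) (x : X), N (c • x) = |c| * N x) ∧
        (∀ x y : X, N (x + y) ≤ N x + N y) ∧
        (∀ x : X, x ≠ 0 → DifferentiableAt ℝ N x)) := by
  intro h
  obtain ⟨N, h1, h2, h3, h4, h5⟩ := h H87.TrR.X fun Y _ => H87.Scat.asplund H87.TrR.scattered Y
  obtain ⟨b, b0, hb⟩ := (Seminorm.of N h4 h3).bound_of_continuous_normedSpace h1
  obtain ⟨y, y0, c, c0, h6⟩ := H87.TrR.rough (N := Seminorm.of N h4 h3) b0 hb h2
  obtain ⟨ρ, ρ0, h7⟩ := Metric.eventually_nhds_iff.1 ((Asymptotics.isLittleO_iff.1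
    (hasFDerivAt_iff_isLittleO_nhds_zero.1 (h5 y y0).hasFDerivAt) (show 0 < c / 4 by positivity)).and
      (Metric.ball_mem_nhds 0 one_half_pos))
  obtain ⟨k, k0, k1, k2, k3⟩ := h6 (min (ρ / 2) (c * ρ / 8)) (by positivity)
  have k4 := norm_pos_iff.2 k0
  have a1 : ‖(ρ / 2 / ‖k‖) • k‖ = ρ / 2 := by
    rw [norm_smul, Real.norm_of_nonneg (by positivity), div_mul_cancel₀ _ k4.ne']
  have a2 := h7 (y := k) (by rw [dist_zero_right]; linarith [min_le_left (ρ / 2) (c * ρ / 8)])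
  have a3 := h7 (y := (ρ / 2 / ‖k‖) • k) (by rw [dist_zero_right]; linarith)
  have a4 := k3 _ (mem_ball_zero_iff.1 a3.2).le
  have a5 := abs_le.1 a2.1
  have a6 := abs_le.1 a3.1
  rw [a1, map_smul, smul_eq_mul] at a6
  have a7 : ρ / 2 / ‖k‖ * fderiv ℝ N y k ≤ ρ / 2 / ‖k‖ * (-(3 / 4 * c) * ‖k‖) :=
    mul_le_mul_of_nonneg_left (by linarith [show N (y + k) ≤ N y - c * ‖k‖ from k2]) (by positivity)
  rw [mul_left_comm, div_mul_cancel₀ _ k4.ne'] at a7
  linarith [show N y - _ ≤ N (y + _) from a4, min_le_right (ρ / 2) (c * ρ / 8), mul_pos c0 ρ0]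

end Pool.Agent.S04172
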