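import Pool.Statements.S04194
import Pool.Agent.H92.Sidon

set_option autoImplicit false
open Pool Pool.MP_2cf295_an

namespace Pool.Agent.S04194

/-- The negation of the preceding statement: For every set E of integers: every translation-invariant linear functional on continuous circle functions with Fourier spectrum in E is sup-norm bounded if and only if E is a Sidon set. -/
theorem result :
    ¬ (∀ E : Set ℤ,
    (∀ φ : C(UnitAddCircle, ℂ) → ℂ,
      (∀ f g : C(UnitAddCircle, ℂ),
          (∀ n ∉ E, fourierCoeff (⇑f) n = 0) →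
          (∀ n ∉ E, fourierCoeff (⇑g) n = 0) →
          φ (f + g) = φ f + φ g) →
      (∀ (c : ℂ) (f : C(UnitAddCircle, ℂ)),
          (∀ n ∉ E, fourierCoeff (⇑f) n = 0) → φ (c • f) = c * φ f) →
      (∀ (a : UnitAddCircle) (f : C(UnitAddCircle, ℂ)),
          (∀ n ∉ E, fourierCoeff (⇑f) n = 0) →
          φ (f.comp (ContinuousMap.mk (fun x : UnitAddCircle => x + a)
            (continuous_add_right a))) = φ f) →
      ∃ C : ℝ, ∀ f : C(UnitAddCircle, ℂ),
          (∀ n ∉ E, fourierCoeff (⇑f) n = 0) → ‖φ f‖ ≤ C * ‖f‖)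
    ↔
    (∃ C : ℝ, ∀ (s : Finset ℤ) (c : ℤ → ℂ), (↑s ⊆ E) →
        ∑ n ∈ s, ‖c n‖ ≤ C * ‖∑ n ∈ s, c n • (fourier n : C(UnitAddCircle, ℂ))‖)) := by
  intro h
  obtain ⟨C, hC⟩ := (h {n | Odd n}).mp (by
    intro φ _ hs ht
    refine ⟨0, fun f hf => ?_⟩
    let a : UnitAddCircle := ((1 / 2 : ℝ) : UnitAddCircle)
    let g : C(UnitAddCircle, ℂ) := f.comp (ContinuousMap.mk (fun x : UnitAddCircle => x + a)
      (continuous_add_right a))
    have hg : ∀ n, fourierCoeff (⇑g) n = fourier n a * fourierCoeff (⇑f) n := by
      intro n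
      unfold fourierCoeff
      rw [← MeasureTheory.integral_add_right_eq_self (fun t => fourier (-n) t • f t) a,
        ← MeasureTheory.integral_const_mul]
      congr 1; ext t
      have e1 : fourier (-n) (t + a) = fourier (-n) t * fourier (-n) a := by
        simp [fourier_apply, AddCircle.toCircle_add, add_comm, mul_comm]
      have e2 : fourier n a * fourier (-n) a = 1 := by rw [← fourier_add]; simp
      simp only [g, ContinuousMap.comp_apply, ContinuousMap.coe_mk, smul_eq_mul, e1]
      linear_combination -(fourier (-n) t * f (t + a)) * e2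
    have hz : ∀ n, fourierCoeff (⇑(g + f)) n = 0 := by
      intro n
      have hi : ∀ u : C(UnitAddCircle, ℂ), MeasureTheory.Integrable u AddCircle.haarAddCircle :=
        fun u => u.continuous.integrable_of_hasCompactSupport (HasCompactSupport.of_compactSpace _)
      rw [ContinuousMap.coe_add, fourierCoeff.add (hi g) (hi f), Pi.add_apply, hg]
      by_cases hn : Odd n
      · obtain ⟨k, rfl⟩ := hn
        have : fourier (2 * k + 1) a = -1 := by
          rw [fourier_coe_apply]
          have : (2 * (Real.pi : ℂ) * Complex.I * ((2 * k + 1 : ℤ) : ℂ) * ((1 / 2 : ℝ) : ℂ) / ((1 : ℝ) : ℂ))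
              = k * (2 * Real.pi * Complex.I) + Real.pi * Complex.I := by push_cast; ring
          rw [this, Complex.exp_add, Complex.exp_int_mul_two_pi_mul_I, Complex.exp_pi_mul_I]; simp
        rw [this]; ring
      · rw [hf n hn]; ring
    have hgf : g + f = 0 := by
      have hs : Summable (fourierCoeff (⇑(g + f))) := by
        rw [show fourierCoeff (⇑(g + f)) = fun _ => 0 from funext hz]; exact summable_zero
      have := hasSum_fourier_series_of_summable hs
      have e0 : (fun i => fourierCoeff (⇑(g + f)) i • (fourier i : C(UnitAddCircle, ℂ))) = fun _ => 0 := by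
        funext i; rw [hz]; ext x; simp
      rw [e0] at this
      exact this.unique hasSum_zero
    have e : g = (-1 : ℂ) • f := by
      rw [eq_neg_of_add_eq_zero_left hgf]; ext x; simp
    have h1 : φ g = φ f := ht a f hf
    rw [e, hs _ f hf] at h1
    have : φ f = 0 := by linear_combination (-1 / 2 : ℂ) * h1
    simp [this])
  obtain ⟨s, c, M, hs, hM, hlt⟩ := Pool.Agent.H92.Sidon.not_sidon (T := 1) {n | Odd n} (fun N =>
    ⟨fun i => 2 * (i * N) + 1, fun j => 2 * j, fun i _ j _ => ⟨i * N + j, by ring⟩, by
      intro i hi j hj k hk l hl he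
      have e : i * N + j = k * N + l := by
        have : (i : ℤ) * N + j = k * N + l := by linarith
        exact_mod_cast this
      have e1 : j = l := by
        have := congrArg (· % N) e
        simpa [Nat.mod_eq_of_lt hj, Nat.mod_eq_of_lt hl] using this
      subst e1
      exact ⟨Nat.eq_of_mul_eq_mul_right (by omega) (Nat.add_right_cancel e), rfl⟩⟩) (max C 0)
  have hM0 : 0 ≤ M := (norm_nonneg _).trans (hM 0)
  have h1 : ‖∑ n ∈ s, c n • (fourier n : C(UnitAddCircle, ℂ))‖ ≤ M :=
    (ContinuousMap.norm_le _ hM0).mpr fun x => by simpa using hM x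
  have h2 := hC s c hs
  have h3 : C * ‖∑ n ∈ s, c n • (fourier n : C(UnitAddCircle, ℂ))‖ ≤ max C 0 * M :=
    mul_le_mul (le_max_left _ _) h1 (norm_nonneg _) (le_max_right _ _)
  linarith

end Pool.Agent.S04194
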