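import Pool.Statements.S04202
import Pool.Agent.H97.HC

set_option autoImplicit false
open Filter Topology
open Pool Pool.MP_2d5ed4_an

namespace Pool.Agent.S04202

/-- The negation of the preceding statement: For a complex Fréchet space X and a holomorphic, strongly continuous group of operators T_z (z in ℂ) with every T_z, z ≠ 0, hypercyclic, some single vector has a dense T_z-orbit for every nonzero z. -/
theorem result :
    ¬ (∀ (X : Type) [AddCommGroup X] [Module ℂ X] [UniformSpace X] [IsUniformAddGroup X]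
      [ContinuousSMul ℂ X] [LocallyConvexSpace ℝ X] [CompleteSpace X]
      [TopologicalSpace.MetrizableSpace X] (T : ℂ → (X →L[ℂ] X)),
      T 0 = ContinuousLinearMap.id ℂ X →
      (∀ z w : ℂ, T (z + w) = (T z).comp (T w)) →
      (∀ x : X, Continuous (fun z : ℂ => T z x)) →
      (∀ (x : X) (z : ℂ), ∃ v : X,
        Tendsto (fun h : ℂ => h⁻¹ • (T (z + h) x - T z x)) (𝓝[≠] (0 : ℂ)) (𝓝 v)) →
      (∀ z : ℂ, z ≠ 0 → ∃ y : X, Dense (Set.range (fun n : ℕ => (⇑(T z))^[n] y))) →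
      ∃ y : X, ∀ z : ℂ, z ≠ 0 → Dense (Set.range (fun n : ℕ => (⇑(T z))^[n] y))) := by
  intro H
  have key : ∀ (X : Type) [NormedAddCommGroup X] [NormedSpace ℂ X] [CompleteSpace X]
      (T : ℂ → (X →L[ℂ] X)), T 0 = ContinuousLinearMap.id ℂ X →
      (∀ z w : ℂ, T (z + w) = (T z).comp (T w)) →
      (∀ (x : X) (z : ℂ), ∃ v, HasDerivAt (fun z => T z x) v z) →
      (∀ z : ℂ, z ≠ 0 → ∃ y : X, Dense (Set.range (fun n : ℕ => (⇑(T z))^[n] y))) →
      ∃ y : X, ∀ z : ℂ, z ≠ 0 → Dense (Set.range (fun n : ℕ => (⇑(T z))^[n] y)) := by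
    intro X _ _ _ T h0 h1 h2 h3
    exact H X T h0 h1
      (fun x => continuous_iff_continuousAt.2 fun z => (h2 x z).choose_spec.continuousAt)
      (fun x z => ⟨_, hasDerivAt_iff_tendsto_slope_zero.1 (h2 x z).choose_spec⟩) h3
  obtain ⟨y, hy⟩ := key H97.HC.XX H97.HC.T H97.HC.T_zero H97.HC.T_add
    (fun x z => ⟨_, H97.HC.T_deriv x z⟩) (fun z hz => H97.HC.hyper hz)
  exact H97.HC.no_common y hy

end Pool.Agent.S04202
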