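import Pool.Statements.S04204

set_option autoImplicit false
open Pool Pool.MP_2d773b_an

namespace Pool.Agent.S04204

open Set Filter Metric
open scoped Topology

noncomputable def gg (y : ℝ) : ℝ := √y - √(-y)

lemma gg_neg (y : ℝ) : gg (-y) = -gg y := by
  simp [gg]

lemma gg_abs (y : ℝ) : |gg y| ≤ 1 + |y| := by
  have h1 : ∀ z : ℝ, √z ≤ 1 + |z| := by
    intro z
    apply Real.sqrt_le_iff.2
    refine ⟨by positivity, ?_⟩
    have := le_abs_self z
    have := abs_nonneg z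
    nlinarith
  have h2 := h1 y
  have h3 := h1 (-y)
  rw [abs_neg] at h3
  have h4 := Real.sqrt_nonneg y
  have h5 := Real.sqrt_nonneg (-y)
  rw [gg, abs_le]
  constructor <;> linarith

abbrev E : Type := EuclideanSpace ℝ (Fin 1)

def Super (u : ℝ → E → ℝ) : Prop :=
  ∀ φ : ℝ → E → ℝ, ContDiff ℝ ((⊤ : ℕ∞) : WithTop ℕ∞) (fun q : ℝ × E => φ q.1 q.2) →
    ∀ t0 ∈ Set.Ioo (0:ℝ) 1, ∀ x0 : E,
      IsLocalMin (fun q : ℝ × E => u q.1 q.2 - φ q.1 q.2) (t0, x0) →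
        deriv (fun s => φ s x0) t0 + gg (u t0 x0) ≤ 0

lemma near (u : ℝ → E → ℝ)
    (hc : ContinuousOn (fun q : ℝ × E => u q.1 q.2) (Icc (0:ℝ) 1 ×ˢ (univ : Set E)))
    (t2 : ℝ) (ht2 : t2 ∈ Icc (0:ℝ) 1) (x0 : E) (β : ℝ) (hβ : 0 < β) :
    ∃ ρ > 0, ∀ t ∈ Icc (0:ℝ) 1, ∀ x : E, |t - t2| < ρ → ‖x - x0‖ < ρ → |u t x - u t2 x0| < β := by
  have h := hc (t2, x0) ⟨ht2, mem_univ _⟩
  rw [Metric.continuousWithinAt_iff] at h
  obtain ⟨ρ, hρ, H⟩ := h β hβ
  refine ⟨ρ, hρ, fun t ht x h1 h2 => ?_⟩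
  have := @H (t, x) ⟨ht, mem_univ _⟩ (by
    rw [Prod.dist_eq]
    exact max_lt (by rwa [Real.dist_eq]) (by rwa [dist_eq_norm]))
  rwa [Real.dist_eq] at this

lemma step (u : ℝ → E → ℝ)
    (hc : ContinuousOn (fun q : ℝ × E => u q.1 q.2) (Icc (0:ℝ) 1 ×ˢ (univ : Set E)))
    (hs : Super u) (t2 : ℝ) (ht0 : 0 < t2) (ht1 : t2 ≤ 1) (x0 : E) (k1 k2 k3 : ℝ)
    (hk1 : 0 < k1) (hk12 : k1 < k2) (hk23 : k2 < k3) (hk3 : k3 ^ 2 < u t2 x0)
    (δ : ℝ) (hδ : 0 < δ) :
    ∃ τ, 0 < τ ∧ τ ≤ δ ∧ τ ≤ t2 ∧ u t2 x0 + k1 * τ ≤ u (t2 - τ) x0 := by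
  set y := u t2 x0 with hy
  have hk3p : 0 < k3 ^ 2 := by
    have : 0 < k3 := by linarith
    positivity
  obtain ⟨ρ, hρ, H1⟩ := near u hc t2 ⟨ht0.le, ht1⟩ x0 (y - k3 ^ 2) (by linarith)
  set τ := min (min (ρ / 2) δ) t2 with hτ
  have hτ0 : 0 < τ := lt_min (lt_min (by linarith) hδ) ht0
  have hτ1 : τ ≤ ρ / 2 := (min_le_left _ _).trans (min_le_left _ _)
  have hτ2 : τ ≤ δ := (min_le_left _ _).trans (min_le_right _ _)
  have hτ3 : τ ≤ t2 := min_le_right _ _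
  set η := (k2 - k1) * τ / 4 with hη
  have hη0 : 0 < η := by
    have : 0 < k2 - k1 := by linarith
    positivity
  obtain ⟨ρ', hρ', H2⟩ := near u hc t2 ⟨ht0.le, ht1⟩ x0 η hη0
  set r := min (ρ / 2) (ρ' / 2) with hr
  have hr0 : 0 < r := lt_min (by linarith) (by linarith)
  have hr1 : r ≤ ρ / 2 := min_le_left _ _
  have hr2 : r ≤ ρ' / 2 := min_le_right _ _
  set M := 2 * y / r ^ 2 with hM
  have hy0 : 0 < y := by linarith
  have hM0 : 0 < M := by positivity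
  have hMr : M * r ^ 2 = 2 * y := by
    rw [hM]
    field_simp
  set A := y + k2 * τ + η + 1 with hA
  have hk2 : 0 < k2 := by linarith
  have hA0 : 0 < A := by positivity
  set N := 2 * A / (η * τ) with hN
  have hN0 : 0 < N := by positivity
  set t1 := t2 - τ with ht1'
  have hP : ∀ t, t1 + τ / 2 ≤ t → A * Real.exp (-N * (t - t1)) ≤ η := by
    intro t ht
    have h1 : N * (τ / 2) ≤ N * (t - t1) := mul_le_mul_of_nonneg_left (by linarith) hN0.le
    have h2 : N * (τ / 2) = A / η := by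
      rw [hN]
      field_simp
    have h3 := Real.add_one_le_exp (N * (t - t1))
    have h4 : A / η ≤ Real.exp (N * (t - t1)) := by linarith
    rw [neg_mul, Real.exp_neg, ← div_eq_mul_inv, div_le_iff₀ (Real.exp_pos _)]
    rw [div_le_iff₀ hη0] at h4
    linarith
  let φ : ℝ → E → ℝ := fun t x => -k2 * t - M * ‖x - x0‖ ^ 2 - A * Real.exp (-N * (t - t1))
  have hφ : ContDiff ℝ ((⊤ : ℕ∞) : WithTop ℕ∞) (fun q : ℝ × E => φ q.1 q.2) := by
    have h1 : ContDiff ℝ ((⊤ : ℕ∞) : WithTop ℕ∞) (fun q : ℝ × E => ‖q.2 - x0‖ ^ 2) :=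
      (contDiff_snd.sub contDiff_const).norm_sq ℝ
    simp only [φ]
    refine ContDiff.sub (ContDiff.sub (by fun_prop) (contDiff_const.mul h1)) (by fun_prop)
  let K : Set (ℝ × E) := Icc t1 t2 ×ˢ closedBall x0 r
  have hK : IsCompact K := isCompact_Icc.prod (isCompact_closedBall _ _)
  have hKs : K ⊆ Icc (0:ℝ) 1 ×ˢ (univ : Set E) := by
    rintro ⟨t, x⟩ ⟨ht, _⟩
    exact ⟨⟨by linarith [ht.1], ht.2.trans ht1⟩, mem_univ _⟩
  have hF : ContinuousOn (fun q : ℝ × E => u q.1 q.2 - φ q.1 q.2) K :=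
    (hc.mono hKs).sub hφ.continuous.continuousOn
  have hne : K.Nonempty := ⟨(t2, x0), ⟨by linarith, le_rfl⟩, mem_closedBall_self hr0.le⟩
  obtain ⟨⟨ts, xs⟩, hmem, hmin⟩ := hK.exists_isMinOn hne hF
  have hts : t1 ≤ ts ∧ ts ≤ t2 := hmem.1
  have hxs : ‖xs - x0‖ ≤ r := by
    have := hmem.2
    rwa [mem_closedBall, dist_eq_norm] at this
  have hbox : ∀ t x, t1 ≤ t → t ≤ t2 → ‖x - x0‖ ≤ r → k3 ^ 2 < u t x ∧ u t x < 2 * y := by
    intro t x h1 h2 h3
    have := H1 t ⟨by linarith, by linarith⟩ x (by rw [abs_lt]; constructor <;> linarith)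
      (by linarith)
    rw [abs_lt] at this
    constructor <;> linarith [this.1, this.2]
  have hcmp : ∀ t, t1 ≤ t → t ≤ t2 →
      u ts xs + k2 * ts + M * ‖xs - x0‖ ^ 2 + A * Real.exp (-N * (ts - t1))
        ≤ u t x0 + k2 * t + A * Real.exp (-N * (t - t1)) := by
    intro t h1 h2
    have := hmin (show (t, x0) ∈ K from ⟨⟨h1, h2⟩, mem_closedBall_self hr0.le⟩)
    simp only [mem_ofPred_eq, φ, sub_self, norm_zero] at this
    linarith
  have hMx : 0 ≤ M * ‖xs - x0‖ ^ 2 := by positivity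
  by_cases c1 : ts = t2
  · refine ⟨τ / 2, by linarith, by linarith, by linarith, ?_⟩
    have h1 := hcmp (t2 - τ / 2) (by linarith) (by linarith)
    have h2 := hP (t2 - τ / 2) (by linarith)
    have h3 := H2 t2 ⟨ht0.le, ht1⟩ xs (by simpa using hρ') (by linarith)
    rw [abs_lt] at h3
    have h4 : 0 ≤ A * Real.exp (-N * (ts - t1)) := by positivity
    rw [c1] at h1 h4
    have h5 : k1 * (τ / 2) = k2 * (τ / 2) - 2 * η := by
      rw [hη]
      ring
    linarith [h3.1]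
  exfalso
  by_cases c2 : ts = t1
  · have h1 := hcmp t2 (by linarith) le_rfl
    have h2 := hP t2 (by linarith)
    have h3 := (hbox ts xs hts.1 hts.2 hxs).1
    rw [c2] at h1 h3
    simp only [sub_self, mul_zero, Real.exp_zero, mul_one] at h1
    have h4 : k2 * t1 = k2 * t2 - k2 * τ := by
      rw [ht1']
      ring
    linarith
  by_cases c3 : ‖xs - x0‖ = r
  · have h1 := hcmp ts hts.1 hts.2
    have h2 := (hbox ts xs hts.1 hts.2 hxs).1
    have h3 := (hbox ts x0 hts.1 hts.2 (by simpa using hr0.le)).2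
    rw [c3, hMr] at h1
    linarith
  have hts1 : t1 < ts := lt_of_le_of_ne hts.1 (Ne.symm c2)
  have hts2 : ts < t2 := lt_of_le_of_ne hts.2 c1
  have hnh : K ∈ 𝓝 (ts, xs) := by
    refine prod_mem_nhds (Icc_mem_nhds hts1 hts2) (closedBall_mem_nhds_of_mem ?_)
    rw [mem_ball, dist_eq_norm]
    exact lt_of_le_of_ne hxs c3
  have h1 := hs φ hφ ts ⟨by linarith, by linarith⟩ xs (hmin.isLocalMin hnh)
  have hd : HasDerivAt (fun s => φ s xs) (-k2 + A * N * Real.exp (-N * (ts - t1))) ts := by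
    have e1 : HasDerivAt (fun s : ℝ => -N * (s - t1)) (-N) ts := by
      simpa using ((hasDerivAt_id ts).sub_const t1).const_mul (-N)
    have e2 := (e1.exp).const_mul A
    have e3 : HasDerivAt (fun s : ℝ => -k2 * s - M * ‖xs - x0‖ ^ 2) (-k2) ts := by
      simpa using ((hasDerivAt_id ts).const_mul (-k2)).sub_const (M * ‖xs - x0‖ ^ 2)
    have e4 := e3.fun_sub e2
    have e5 : -k2 - A * (Real.exp (-N * (ts - t1)) * -N)
        = -k2 + A * N * Real.exp (-N * (ts - t1)) := by ring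
    rw [e5] at e4
    exact e4
  rw [hd.deriv] at h1
  have h2 := (hbox ts xs hts.1 hts.2 hxs).1
  have h3 : k3 < gg (u ts xs) := by
    rw [gg, Real.sqrt_eq_zero_of_nonpos (x := -u ts xs) (by linarith), sub_zero]
    exact Real.lt_sqrt_of_sq_lt h2
  have h4 : 0 ≤ A * N * Real.exp (-N * (ts - t1)) := by positivity
  linarith

lemma lower (u : ℝ → E → ℝ)
    (hc : ContinuousOn (fun q : ℝ × E => u q.1 q.2) (Icc (0:ℝ) 1 ×ˢ (univ : Set E)))
    (hs : Super u) (x0 : E) (hx : 0 < u 1 x0) : 1 / 16 ≤ u 0 x0 := by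
  set c := u 1 x0 with hc0
  let s : Set ℝ := {σ | c + σ ^ 2 / 16 ≤ u (1 - σ) x0}
  have hcl : IsClosed (s ∩ Icc 0 1) := by
    have h1 : ContinuousOn (fun σ : ℝ => u (1 - σ) x0) (Icc 0 1) := by
      refine hc.comp (f := fun σ : ℝ => ((1 - σ, x0) : ℝ × E)) (by fun_prop) ?_
      intro σ hσ
      exact ⟨⟨by linarith [hσ.2], by linarith [hσ.1]⟩, mem_univ _⟩
    rw [inter_comm]
    exact isClosed_Icc.isClosed_le (f := fun σ : ℝ => c + σ ^ 2 / 16) (by fun_prop) h1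
  have h1 : (1 : ℝ) ∈ s := by
    refine hcl.mem_of_ge_of_forall_exists_gt (by simp [s, hc0]) zero_le_one ?_
    rintro σ ⟨hσ, hσ0, hσ1⟩
    have hσ' : c + σ ^ 2 / 16 ≤ u (1 - σ) x0 := hσ
    set y := u (1 - σ) x0 with hy
    have hy0 : 0 < y := by nlinarith
    have hq : 0 < √y := Real.sqrt_pos.2 hy0
    have hq2 : √y ^ 2 = y := Real.sq_sqrt hy0.le
    have hq3 : σ / 4 < √y := Real.lt_sqrt_of_sq_lt (by nlinarith)
    obtain ⟨τ, h1, h2, h3, h4⟩ := step u hc hs (1 - σ) (by linarith) (by linarith) x0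
      (√y / 2) (5 * √y / 8) (3 * √y / 4) (by linarith) (by linarith) (by linarith)
      (by nlinarith) (8 * √y - 2 * σ) (by linarith)
    refine ⟨σ + τ, ?_, by linarith, by linarith⟩
    change c + (σ + τ) ^ 2 / 16 ≤ u (1 - (σ + τ)) x0
    rw [← sub_sub]
    nlinarith
  have h2 : c + 1 ^ 2 / 16 ≤ u (1 - 1) x0 := h1
  rw [sub_self] at h2
  linarith

/-- The negation of the preceding statement: For all T>0, n,d≥1 and continuous b,σ,g,h with Lipschitz/bounded coefficients and growth bounds G1, G2, some u continuous on [0,T]×ℝⁿ with u(T,·)=h is a viscosity sub- and supersolution of ∂ₜu+Lu+g(t,x,u,σ*∇u)=0 on (0,T)×ℝⁿ. -/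
theorem result :
    ¬ (∀ (T : ℝ), 0 < T → ∀ (n d : ℕ), 1 ≤ n → 1 ≤ d →
  ∀ (b : ℝ → EuclideanSpace ℝ (Fin n) → EuclideanSpace ℝ (Fin n))
    (σ : ℝ → EuclideanSpace ℝ (Fin n) → Fin n → Fin d → ℝ)
    (g : ℝ → EuclideanSpace ℝ (Fin n) → ℝ → (Fin d → ℝ) → ℝ)
    (h : EuclideanSpace ℝ (Fin n) → ℝ)
    (K k α p : ℝ),
    ContinuousOn (fun q : ℝ × EuclideanSpace ℝ (Fin n) => b q.1 q.2)
      (Set.Icc (0:ℝ) T ×ˢ (Set.univ : Set (EuclideanSpace ℝ (Fin n)))) →
    ContinuousOn (fun q : ℝ × EuclideanSpace ℝ (Fin n) => σ q.1 q.2)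
      (Set.Icc (0:ℝ) T ×ˢ (Set.univ : Set (EuclideanSpace ℝ (Fin n)))) →
    ContinuousOn
      (fun q : ℝ × EuclideanSpace ℝ (Fin n) × ℝ × (Fin d → ℝ) => g q.1 q.2.1 q.2.2.1 q.2.2.2)
      (Set.Icc (0:ℝ) T ×ˢ (Set.univ : Set (EuclideanSpace ℝ (Fin n) × ℝ × (Fin d → ℝ)))) →
    Continuous h →
    0 < K → 0 ≤ k → 1 < α → α ≤ 2 → 1 ≤ p → p < α / (α - 1) →
    (∀ t ∈ Set.Icc (0:ℝ) T, ∀ x x' : EuclideanSpace ℝ (Fin n),
      ‖b t 0‖ + Real.sqrt (∑ i, ∑ j, (σ t x i j) ^ 2) ≤ K ∧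
      ‖b t x - b t x'‖ + Real.sqrt (∑ i, ∑ j, (σ t x i j - σ t x' i j) ^ 2) ≤ K * ‖x - x'‖) →
    (∀ t ∈ Set.Icc (0:ℝ) T, ∀ (x : EuclideanSpace ℝ (Fin n)) (y : ℝ) (z : Fin d → ℝ),
      Real.sign y * g t x y z
        ≤ k * (1 + ‖x‖ ^ p + |y| + (Real.sqrt (∑ j, z j ^ 2)) ^ α)) →
    (∀ t ∈ Set.Icc (0:ℝ) T, ∀ (x : EuclideanSpace ℝ (Fin n)) (y : ℝ) (z : Fin d → ℝ),
      |g t x y z| + |h x|
        ≤ k * (1 + ‖x‖ ^ p + Real.exp (k * |y| ^ (2 / (α / (α - 1)))) + ∑ j, z j ^ 2)) →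
    ∃ u : ℝ → EuclideanSpace ℝ (Fin n) → ℝ,
      ContinuousOn (fun q : ℝ × EuclideanSpace ℝ (Fin n) => u q.1 q.2)
        (Set.Icc (0:ℝ) T ×ˢ (Set.univ : Set (EuclideanSpace ℝ (Fin n)))) ∧
      (∀ x, u T x = h x) ∧
      ∀ φ : ℝ → EuclideanSpace ℝ (Fin n) → ℝ,
        ContDiff ℝ ((⊤ : ℕ∞) : WithTop ℕ∞)
          (fun q : ℝ × EuclideanSpace ℝ (Fin n) => φ q.1 q.2) →
        ∀ t0 ∈ Set.Ioo (0:ℝ) T, ∀ x0 : EuclideanSpace ℝ (Fin n),
          (IsLocalMin (fun q : ℝ × EuclideanSpace ℝ (Fin n) => u q.1 q.2 - φ q.1 q.2) (t0, x0) →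
            deriv (fun s => φ s x0) t0 + fderiv ℝ (φ t0) x0 (b t0 x0)
              + (1 / 2) * ∑ i, ∑ j, (∑ l, σ t0 x0 i l * σ t0 x0 j l)
                  * fderiv ℝ (fun y => fderiv ℝ (φ t0) y) x0
                      (EuclideanSpace.single i (1:ℝ)) (EuclideanSpace.single j (1:ℝ))
              + g t0 x0 (u t0 x0)
                  (fun j => ∑ i, σ t0 x0 i j * fderiv ℝ (φ t0) x0 (EuclideanSpace.single i (1:ℝ)))
              ≤ 0) ∧
          (IsLocalMax (fun q : ℝ × EuclideanSpace ℝ (Fin n) => u q.1 q.2 - φ q.1 q.2) (t0, x0) →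
            0 ≤ deriv (fun s => φ s x0) t0 + fderiv ℝ (φ t0) x0 (b t0 x0)
              + (1 / 2) * ∑ i, ∑ j, (∑ l, σ t0 x0 i l * σ t0 x0 j l)
                  * fderiv ℝ (fun y => fderiv ℝ (φ t0) y) x0
                      (EuclideanSpace.single i (1:ℝ)) (EuclideanSpace.single j (1:ℝ))
              + g t0 x0 (u t0 x0)
                  (fun j => ∑ i, σ t0 x0 i j * fderiv ℝ (φ t0) x0 (EuclideanSpace.single i (1:ℝ))))) := by
  intro H
  obtain ⟨u, hc, hT, hv⟩ := H 1 one_pos 1 1 le_rfl le_rfl (fun _ _ => 0) (fun _ _ _ _ => 0)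
    (fun _ _ y _ => gg y) (fun x => x 0) 1 1 2 1 continuousOn_const continuousOn_const
    (by unfold gg; fun_prop) (by fun_prop) one_pos zero_le_one (by norm_num) le_rfl le_rfl
    (by norm_num) (by intro t _ x x'; simp)
    (by
      intro t _ x y z
      have h1 : Real.sign y * gg y ≤ |gg y| := by
        refine (le_abs_self _).trans ?_
        rw [abs_mul]
        have : |Real.sign y| ≤ 1 := by
          rcases Real.sign_apply_eq y with h | h | h <;> simp [h]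
        nlinarith [abs_nonneg (gg y)]
      have h2 := gg_abs y
      have h3 : 0 ≤ ‖x‖ ^ (1 : ℝ) := by positivity
      have h4 : 0 ≤ (Real.sqrt (∑ j, z j ^ 2)) ^ (2 : ℝ) := by positivity
      linarith)
    (by
      intro t _ x y z
      have h2 := gg_abs y
      have h3 : |x 0| ≤ ‖x‖ := by
        simpa using EuclideanSpace.norm_eq x ▸ (PiLp.norm_apply_le x 0)
      have h4 : 0 ≤ ∑ j, z j ^ 2 := by positivity
      have h5 : (2 : ℝ) / (2 / (2 - 1)) = 1 := by norm_num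
      rw [h5, Real.rpow_one, Real.rpow_one, one_mul, one_mul]
      have h6 := Real.add_one_le_exp |y|
      linarith)
  clear H
  have hs1 : Super u := by
    intro φ hφ t0 ht0 x0 hmin
    have := (hv φ hφ t0 ht0 x0).1 hmin
    simpa using this
  have hs2 : Super (fun t x => -u t x) := by
    intro φ hφ t0 ht0 x0 hmin
    have hmax : IsLocalMax (fun q : ℝ × E => u q.1 q.2 - (-φ q.1 q.2)) (t0, x0) := by
      have h1 := hmin.neg
      have h2 : (fun q : ℝ × E => u q.1 q.2 - (-φ q.1 q.2))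
          = fun q : ℝ × E => -(-u q.1 q.2 - φ q.1 q.2) := by
        funext q
        ring
      rw [h2]
      exact h1
    have := (hv (fun t x => -φ t x) hφ.neg t0 ht0 x0).2 hmax
    simp only [map_zero, add_zero, mul_zero, Finset.sum_const_zero, zero_mul,
      deriv.fun_neg] at this
    rw [gg_neg]
    linarith
  have hc0 : Continuous fun s : ℝ => u 0 (EuclideanSpace.single 0 s) := by
    refine hc.comp_continuous
      (f := fun s : ℝ => ((0, EuclideanSpace.single 0 s) : ℝ × E)) ?_ ?_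
    · refine continuous_const.prodMk ?_
      have : (fun s : ℝ => (EuclideanSpace.single 0 s : E))
          = fun s : ℝ => s • (EuclideanSpace.single 0 (1 : ℝ) : E) := by
        funext s
        ext i
        fin_cases i
        simp
      change Continuous (fun s : ℝ => (EuclideanSpace.single 0 s : E))
      rw [this]
      fun_prop
    · intro s
      exact ⟨⟨le_rfl, zero_le_one⟩, mem_univ _⟩
  have hp : ∀ s : ℝ, 0 < s → 1 / 16 ≤ u 0 (EuclideanSpace.single 0 s) := by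
    intro s hs
    refine lower u hc hs1 _ ?_
    rw [hT]
    simpa using hs
  have hn : ∀ s : ℝ, s < 0 → u 0 (EuclideanSpace.single 0 s) ≤ -(1 / 16) := by
    intro s hs
    have := lower (fun t x => -u t x) hc.neg hs2 (EuclideanSpace.single 0 s) (by
      rw [hT]
      simpa using hs)
    linarith
  have h1 : 1 / 16 ≤ u 0 (EuclideanSpace.single 0 0) := by
    refine ge_of_tendsto (hc0.continuousAt.tendsto.mono_left
      (nhdsWithin_le_nhds (s := Ioi (0 : ℝ)))) ?_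
    filter_upwards [self_mem_nhdsWithin] with s hs using hp s hs
  have h2 : u 0 (EuclideanSpace.single 0 0) ≤ -(1 / 16) := by
    refine le_of_tendsto (hc0.continuousAt.tendsto.mono_left
      (nhdsWithin_le_nhds (s := Iio (0 : ℝ)))) ?_
    filter_upwards [self_mem_nhdsWithin] with s hs using hn s hs
  linarith

end Pool.Agent.S04204
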