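import Pool.Statements.S04216
import Pool.Agent.H99.Heat

set_option autoImplicit false
open Pool Pool.MP_2e654e_an

namespace Pool.Agent.S04216

/-- The negation of the preceding statement: For every even real entire f of order 1 and maximal type whose zeros lie in a strip ∣Im z∣<Δ, and every λ>0, the function sum over k of (-λ)^k/k! f^(2k) has only finitely many zeros that are non-real or multiple. -/
theorem result :
    ¬ (∀ f : ℂ → ℂ, Differentiable ℂ f →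
      (∀ x : ℝ, (f (x : ℂ)).im = 0) →
      (∀ z : ℂ, f (-z) = f z) →
      (∀ ε : ℝ, 0 < ε → ∃ R : ℝ, ∀ z : ℂ, R ≤ ‖z‖ → ‖f z‖ ≤ Real.exp (‖z‖ ^ (1 + ε))) →
      (∀ C R : ℝ, ∃ z : ℂ, R ≤ ‖z‖ ∧ Real.exp (C * ‖z‖) < ‖f z‖) →
      ∀ Δ : ℝ, 0 < Δ → (∀ z : ℂ, f z = 0 → |z.im| < Δ) →
      ∀ lam : ℝ, 0 < lam →
      ∀ g : ℂ → ℂ,
        (∀ z : ℂ, g z = ∑' k : ℕ,
          (-(lam : ℂ)) ^ k / ((Nat.factorial k : ℕ) : ℂ) * iteratedDeriv (2 * k) f z) →
        {z : ℂ | g z = 0 ∧ (z.im ≠ 0 ∨ deriv g z = 0)}.Finite) := by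
  intro hmain
  obtain ⟨A, hA, hz⟩ := Pool.Agent.H99.Heat.zeros
  have hA1 : 1 ≤ A := by omega
  have hfin := hmain (Pool.Agent.H99.Heat.f A) (Pool.Agent.H99.Heat.f_diff hA1)
    (fun x => by
      unfold Pool.Agent.H99.Heat.f
      have h1 := Pool.Agent.H99.Heat.H_real hA1 x
      rw [Complex.mul_im, h1, ← Complex.ofReal_cos]
      simp)
    (fun z => by
      unfold Pool.Agent.H99.Heat.f
      rw [Pool.Agent.H99.Heat.H_even, Complex.cos_neg])
    (Pool.Agent.H99.Heat.f_order hA1) (Pool.Agent.H99.Heat.f_maxtype hA1) 5 (by norm_num)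
    (Pool.Agent.H99.Heat.f_strip hA1) (1 / 100) (by norm_num)
    (fun z => ∑' k : ℕ, Pool.Agent.H99.Heat.co k *
      iteratedDeriv (2 * k) (Pool.Agent.H99.Heat.f A) z) (fun z => rfl)
  obtain ⟨B, hB⟩ := hfin.isBounded.exists_norm_le
  obtain ⟨m, hm⟩ := exists_nat_gt (B + 7)
  obtain ⟨w, hw, him, hw0⟩ := hz m
  have h1 := hB (w + 2 * Real.pi * Pool.Agent.H99.Heat.R A m) ⟨hw0, Or.inl (by simpa using him)⟩
  have h2 : (m : ℝ) ≤ Pool.Agent.H99.Heat.R A m := by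
    have a1 := Pool.Agent.H99.Heat.R_ge hA1 m
    have a2 : m < 2 ^ m := Nat.lt_two_pow_self
    have a3 : 2 ^ m ≤ A * 2 ^ m := Nat.le_mul_of_pos_left _ hA1
    exact_mod_cast (by omega : m ≤ Pool.Agent.H99.Heat.R A m)
  have h3 : ‖(2 * Real.pi * Pool.Agent.H99.Heat.R A m : ℂ)‖
      = 2 * Real.pi * Pool.Agent.H99.Heat.R A m := by
    simp [abs_of_pos Real.pi_pos]
  have h4 := norm_sub_le (w + 2 * Real.pi * Pool.Agent.H99.Heat.R A m) w
  rw [add_sub_cancel_left, h3] at h4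
  have h5 : (0:ℝ) ≤ m := by positivity
  nlinarith [Real.pi_gt_three]

end Pool.Agent.S04216
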