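import Pool.Statements.S04217
import Pool.Agent.H88.Rad4

set_option autoImplicit false
open Filter Topology
open Pool Pool.MP_2e8a17_an

namespace Pool.Agent.S04217

theorem result :
    ∀ g : ℂ → EReal, Measurable g →
      ∃ a : ℕ → ℂ, (∃ C : ℝ, ∀ n : ℕ, ‖a n‖ ≤ C) ∧
        ∀ᵐ θ : ℝ,
          (∀ x : ℝ, g (Complex.exp ((θ : ℂ) * Complex.I)) = (x : EReal) →
            Tendsto
              (fun r : ℝ => ∑' n : ℕ, a n * ((r : ℂ) * Complex.exp ((θ : ℂ) * Complex.I)) ^ n)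
              (nhdsWithin (1 : ℝ) (Set.Iio 1)) (nhds (x : ℂ))) ∧
          (g (Complex.exp ((θ : ℂ) * Complex.I)) = ⊤ →
            Tendsto
              (fun r : ℝ => ‖∑' n : ℕ, a n * ((r : ℂ) * Complex.exp ((θ : ℂ) * Complex.I)) ^ n‖)
              (nhdsWithin (1 : ℝ) (Set.Iio 1)) atTop ∧
            Tendsto
              (fun r : ℝ => (∑' n : ℕ, a n * ((r : ℂ) * Complex.exp ((θ : ℂ) * Complex.I)) ^ n) /
                ((‖∑' n : ℕ, a n * ((r : ℂ) * Complex.exp ((θ : ℂ) * Complex.I)) ^ n‖ : ℝ) : ℂ))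
              (nhdsWithin (1 : ℝ) (Set.Iio 1)) (nhds (1 : ℂ))) ∧
          (g (Complex.exp ((θ : ℂ) * Complex.I)) = ⊥ →
            Tendsto
              (fun r : ℝ => ‖∑' n : ℕ, a n * ((r : ℂ) * Complex.exp ((θ : ℂ) * Complex.I)) ^ n‖)
              (nhdsWithin (1 : ℝ) (Set.Iio 1)) atTop ∧
            Tendsto
              (fun r : ℝ => (∑' n : ℕ, a n * ((r : ℂ) * Complex.exp ((θ : ℂ) * Complex.I)) ^ n) /
                ((‖∑' n : ℕ, a n * ((r : ℂ) * Complex.exp ((θ : ℂ) * Complex.I)) ^ n‖ : ℝ) : ℂ))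
              (nhdsWithin (1 : ℝ) (Set.Iio 1)) (nhds (-1 : ℂ))) := by
  intro g hg
  obtain ⟨a, ha, h⟩ := Pool.Agent.H88.Rad.main g hg
  exact ⟨a, ⟨1, ha⟩, h⟩

end Pool.Agent.S04217
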