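import Pool.Statements.S04226
import Pool.Agent.H89.LAS

set_option autoImplicit false
open Pool Pool.MP_2eee10_an

namespace Pool.Agent.S04226

open Filter Topology

noncomputable def g (a b c : ℝ) : ℝ := (1435 + 81 * a) / (3 + 36 * c + 36 * b + a)

noncomputable def F (p : ℝ × ℝ × ℝ) : ℝ × ℝ × ℝ := (p.2.1, p.2.2, g p.1 p.2.1 p.2.2)

lemma F_fix : F (5, 5, 5) = (5, 5, 5) := by
  simp [F, g]; norm_num

lemma F_deriv : ∃ L : (ℝ × ℝ × ℝ) →L[ℝ] (ℝ × ℝ × ℝ), HasFDerivAt F L (5, 5, 5) ∧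
    ∀ a b c : ℝ, L (a, b, c) = (b, c, 19 / 92 * a - 45 / 92 * b - 45 / 92 * c) := by
  have ha : HasFDerivAt (fun p : ℝ × ℝ × ℝ => p.1) (ContinuousLinearMap.fst ℝ ℝ (ℝ × ℝ)) (5, 5, 5) :=
    hasFDerivAt_fst
  have hbc : HasFDerivAt (fun p : ℝ × ℝ × ℝ => p.2) (ContinuousLinearMap.snd ℝ ℝ (ℝ × ℝ))
      (5, 5, 5) := hasFDerivAt_snd
  have hb := hbc.fst
  have hc := hbc.snd
  have hN := (ha.const_mul 81).const_add 1435
  have hD := ((((hc.const_mul 36).const_add 3).add (hb.const_mul 36)).add ha)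
  have hI := (hasDerivAt_inv (x := (3 + 36 * 5 + 36 * 5 + 5 : ℝ)) (by norm_num)).comp_hasFDerivAt
    ((5, 5, 5) : ℝ × ℝ × ℝ) hD
  have hg := hN.mul hI
  refine ⟨_, hb.prodMk (hc.prodMk hg), ?_⟩
  intro a b c
  simp
  ring

lemma F_las : (∀ ε > 0, ∃ δ > 0, ∀ x, ‖x - (5, 5, 5)‖ < δ → ∀ n, ‖F^[n] x - (5, 5, 5)‖ < ε) ∧
    (∃ γ > 0, ∀ x, ‖x - (5, 5, 5)‖ < γ → Tendsto (fun n => F^[n] x) atTop (𝓝 (5, 5, 5))) := by
  obtain ⟨L, hL, hv⟩ := F_deriv
  refine Pool.Agent.H89.LAS.las' F (5, 5, 5) L hL F_fix 4 (by norm_num) (9/10) (by norm_num)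
    (by norm_num) ?_
  rintro ⟨a, b, c⟩
  have e : (L ^ 4) (a, b, c) = L (L (L (L (a, b, c)))) := by
    simp [pow_succ]
  rw [e, hv, hv, hv, hv]
  have h1 : |a| ≤ ‖(a, b, c)‖ := norm_fst_le (a, b, c)
  have h2 : |b| ≤ ‖(a, b, c)‖ := (norm_fst_le (b, c)).trans (norm_snd_le (a, b, c))
  have h3 : |c| ≤ ‖(a, b, c)‖ := (norm_snd_le (b, c)).trans (norm_snd_le (a, b, c))
  rw [abs_le] at h1 h2 h3
  generalize ‖(a, b, c)‖ = N at *
  simp only [Prod.norm_mk, Real.norm_eq_abs, max_le_iff, abs_le]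
  refine ⟨⟨?_, ?_⟩, ⟨?_, ?_⟩, ⟨?_, ?_⟩⟩ <;> linarith [h1.1, h1.2, h2.1, h2.2, h3.1, h3.2]

lemma orbit (x : ℕ → ℝ) (hx : ∀ n, x (n + 3) = g (x n) (x (n + 1)) (x (n + 2))) (n : ℕ) :
    F^[n] (x 0, x 1, x 2) = (x n, x (n + 1), x (n + 2)) := by
  induction n with
  | zero => rfl
  | succ n ih => rw [Function.iterate_succ_apply', ih, F]; simp [hx]

lemma g_pos {a b c : ℝ} (ha : 0 < a) (hb : 0 < b) (hc : 0 < c) : 0 < g a b c := by
  unfold g; positivity

lemma g_le {a b c : ℝ} (ha : 0 < a) (hb : 0 < b) (hc : 0 < c) : g a b c ≤ 500 := by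
  unfold g; rw [div_le_iff₀ (by positivity)]; linarith

def S (x : ℕ → ℝ) : Prop := (∀ n, 0 < x n) ∧
  ∀ n : ℕ, 3 ≤ n →
    (0 < (3:ℝ) + ∑ j : Fin 3, (![36, 36, 1] : Fin 3 → ℝ) j * x (n - 1 - (j : ℕ)) ∧
      x n = (1435 + ∑ j : Fin 3, (![0, 0, 81] : Fin 3 → ℝ) j * x (n - 1 - (j : ℕ))) /
        (3 + ∑ j : Fin 3, (![36, 36, 1] : Fin 3 → ℝ) j * x (n - 1 - (j : ℕ))))

lemma S_iff (x : ℕ → ℝ) :
    S x ↔ (∀ n, 0 < x n) ∧ ∀ n, x (n + 3) = g (x n) (x (n + 1)) (x (n + 2)) := by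
  unfold S
  refine and_congr_right fun hpos => ⟨fun h n => ?_, fun h n hn => ?_⟩
  · have := (h (n + 3) (by omega)).2
    rw [this]
    simp [Fin.sum_univ_three, g]
    ring
  · obtain ⟨n, rfl⟩ := Nat.exists_eq_add_of_le' hn
    have := hpos n
    have := hpos (n + 1)
    have := hpos (n + 2)
    rw [h n]
    simp [Fin.sum_univ_three, g]
    constructor
    · positivity
    · ring

lemma near (x : ℕ → ℝ) {δ : ℝ} (h : ∀ i : ℕ, i < 3 → |x i - 5| < δ) :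
    ‖((x 0, x 1, x 2) : ℝ × ℝ × ℝ) - (5, 5, 5)‖ < δ := by
  simp only [Prod.mk_sub_mk, Prod.norm_mk, Real.norm_eq_abs, max_lt_iff]
  exact ⟨h 0 (by norm_num), h 1 (by norm_num), h 2 (by norm_num)⟩


/-- The negation of the preceding statement: For any k ≥ 1 and nonnegative parameters where all positive initial values give positive, bounded solutions of the rational recurrence, any locally asymptotically stable equilibrium attracts every positive solution. -/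
theorem result :
    ¬ (∀ (k : ℕ), 1 ≤ k → ∀ (α A : ℝ) (β B : Fin k → ℝ), 0 ≤ α → 0 ≤ A →
    (∀ j, 0 ≤ β j) → (∀ j, 0 ≤ B j) →
    ∀ S : (ℕ → ℝ) → Prop,
      (∀ x : ℕ → ℝ, S x ↔ ((∀ n, 0 < x n) ∧
        ∀ n : ℕ, k ≤ n →
          (0 < A + ∑ j : Fin k, B j * x (n - 1 - (j : ℕ)) ∧
           x n = (α + ∑ j : Fin k, β j * x (n - 1 - (j : ℕ))) /
                 (A + ∑ j : Fin k, B j * x (n - 1 - (j : ℕ)))))) →
      (∀ y : ℕ → ℝ, (∀ i : ℕ, i < k → 0 < y i) →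
        ∃ x : ℕ → ℝ, S x ∧ ∀ i : ℕ, i < k → x i = y i) →
      (∀ x : ℕ → ℝ, S x → ∃ M : ℝ, ∀ n, x n ≤ M) →
      ∀ xbar : ℝ, 0 ≤ xbar →
        xbar * (A + ∑ j : Fin k, B j * xbar) = α + ∑ j : Fin k, β j * xbar →
        (∀ ε : ℝ, 0 < ε → ∃ δ : ℝ, 0 < δ ∧ ∀ x : ℕ → ℝ, S x →
          (∀ i : ℕ, i < k → |x i - xbar| < δ) → ∀ n : ℕ, k ≤ n → |x n - xbar| < ε) →
        (∃ γ : ℝ, 0 < γ ∧ ∀ x : ℕ → ℝ, S x →
          (∀ i : ℕ, i < k → |x i - xbar| < γ) →
          Filter.Tendsto x Filter.atTop (nhds xbar)) →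
        ∀ x : ℕ → ℝ, S x → Filter.Tendsto x Filter.atTop (nhds xbar)) := by
  intro H
  let z : ℕ → ℝ := fun n => if n % 3 = 0 then 41 else 1
  have hz : S z := by
    rw [S_iff]
    constructor
    · intro n; simp only [z]; split_ifs <;> norm_num
    · intro n
      have h3 : n % 3 = 0 ∨ n % 3 = 1 ∨ n % 3 = 2 := by omega
      rcases h3 with h | h | h
      · have h1 : (n + 1) % 3 = 1 := by omega
        have h2 : (n + 2) % 3 = 2 := by omega
        have h4 : (n + 3) % 3 = 0 := by omega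
        simp only [z, h, h1, h2, h4, g]; norm_num
      · have h1 : (n + 1) % 3 = 2 := by omega
        have h2 : (n + 2) % 3 = 0 := by omega
        have h4 : (n + 3) % 3 = 1 := by omega
        simp only [z, h, h1, h2, h4, g]; norm_num
      · have h1 : (n + 1) % 3 = 0 := by omega
        have h2 : (n + 2) % 3 = 1 := by omega
        have h4 : (n + 3) % 3 = 2 := by omega
        simp only [z, h, h1, h2, h4, g]; norm_num
  have hT := H 3 (by norm_num) 1435 3 ![0, 0, 81] ![36, 36, 1] (by norm_num) (by norm_num)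
    (by intro j; fin_cases j <;> norm_num) (by intro j; fin_cases j <;> norm_num) S
    (fun x => Iff.rfl) ?_ ?_ 5 (by norm_num) (by simp [Fin.sum_univ_three]; norm_num) ?_ ?_ z hz
  · obtain ⟨N, hN⟩ := (Metric.tendsto_atTop.mp hT) 1 one_pos
    have h2 := hN (3 * N) (by omega)
    have h3 : z (3 * N) = 41 := by simp [z]
    rw [h3, Real.dist_eq] at h2
    norm_num at h2
  · intro y hy
    have hp : ∀ n, 0 < (F^[n] (y 0, y 1, y 2)).1 ∧ 0 < (F^[n] (y 0, y 1, y 2)).2.1 ∧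
        0 < (F^[n] (y 0, y 1, y 2)).2.2 := by
      intro n
      induction n with
      | zero => exact ⟨hy 0 (by norm_num), hy 1 (by norm_num), hy 2 (by norm_num)⟩
      | succ n ih =>
        rw [Function.iterate_succ_apply']
        exact ⟨ih.2.1, ih.2.2, g_pos ih.1 ih.2.1 ih.2.2⟩
    refine ⟨fun n => (F^[n] (y 0, y 1, y 2)).1, ?_, ?_⟩
    · rw [S_iff]
      refine ⟨fun n => (hp n).1, fun n => ?_⟩
      simp only [Function.iterate_succ_apply', F]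
    · intro i hi
      interval_cases i <;> simp [F]
  · intro x hx
    rw [S_iff] at hx
    refine ⟨500 + x 0 + x 1 + x 2, fun n => ?_⟩
    have h0 := hx.1 0
    have h1 := hx.1 1
    have h2 := hx.1 2
    rcases n with _ | _ | _ | n
    · linarith
    · linarith
    · linarith
    · have := g_le (hx.1 n) (hx.1 (n + 1)) (hx.1 (n + 2))
      rw [← hx.2 n] at this
      linarith
  · intro ε hε
    obtain ⟨δ, hδ, h⟩ := F_las.1 ε hε
    refine ⟨δ, hδ, fun x hx hi n _ => ?_⟩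
    rw [S_iff] at hx
    have := h _ (near x hi) n
    rw [orbit x hx.2] at this
    exact (norm_fst_le _).trans_lt this
  · obtain ⟨γ, hγ, h⟩ := F_las.2
    refine ⟨γ, hγ, fun x hx hi => ?_⟩
    rw [S_iff] at hx
    have := (continuous_fst.tendsto _).comp (h _ (near x hi))
    simpa [Function.comp_def, orbit x hx.2] using this

end Pool.Agent.S04226
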