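import Pool.Statements.S04234
import Pool.Agent.H87.WUR3c

set_option autoImplicit false
open Filter Topology
open Pool Pool.MP_2f2b65_an

namespace Pool.Agent.S04234

theorem result :
    ¬ (∀ (X : Type) [NormedAddCommGroup X] [NormedSpace ℝ X] [CompleteSpace X]
    (Y : Submodule ℝ X), IsClosed (Y : Set X) →
    (∃ N : Y → ℝ, (∀ a b, N (a + b) ≤ N a + N b) ∧ (∀ (r : ℝ) a, N (r • a) = |r| * N a) ∧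
      (∃ c C : ℝ, 0 < c ∧ 0 < C ∧ ∀ a, c * ‖a‖ ≤ N a ∧ N a ≤ C * ‖a‖) ∧
      ∀ u v : ℕ → Y, (∀ n, N (u n) ≤ 1) → (∀ n, N (v n) ≤ 1) →
        Tendsto (fun n => N (u n + v n)) atTop (𝓝 2) →
        ∀ f : Y →L[ℝ] ℝ, Tendsto (fun n => f (u n - v n)) atTop (𝓝 0)) →
    (∃ N : X ⧸ Y → ℝ, (∀ a b, N (a + b) ≤ N a + N b) ∧ (∀ (r : ℝ) a, N (r • a) = |r| * N a) ∧
      (∃ c C : ℝ, 0 < c ∧ 0 < C ∧ ∀ a, c * ‖a‖ ≤ N a ∧ N a ≤ C * ‖a‖) ∧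
      ∀ u v : ℕ → X ⧸ Y, (∀ n, N (u n) ≤ 1) → (∀ n, N (v n) ≤ 1) →
        Tendsto (fun n => N (u n + v n)) atTop (𝓝 2) →
        ∀ f : (X ⧸ Y) →L[ℝ] ℝ, Tendsto (fun n => f (u n - v n)) atTop (𝓝 0)) →
    (∃ N : X → ℝ, (∀ a b, N (a + b) ≤ N a + N b) ∧ (∀ (r : ℝ) a, N (r • a) = |r| * N a) ∧
      (∃ c C : ℝ, 0 < c ∧ 0 < C ∧ ∀ a, c * ‖a‖ ≤ N a ∧ N a ≤ C * ‖a‖) ∧
      ∀ u v : ℕ → X, (∀ n, N (u n) ≤ 1) → (∀ n, N (v n) ≤ 1) →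
        Tendsto (fun n => N (u n + v n)) atTop (𝓝 2) →
        ∀ f : X →L[ℝ] ℝ, Tendsto (fun n => f (u n - v n)) atTop (𝓝 0))) := by
  intro h
  exact H87.WUR3.not_wur_X (h H87.WUR3.X H87.WUR3.Y (Submodule.isClosed_topologicalClosure _)
    H87.WUR3.wur_Y H87.WUR3.wur_Q)

end Pool.Agent.S04234
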