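import Pool.Statements.S04248
import Pool.Agent.H99.CircMin
import Pool.Agent.H99.CircMin2

set_option autoImplicit false
open Pool Pool.MP_3070fc_an

namespace Pool.Agent.S04248

open Pool.Agent.H99.CircMin in
/-- The negation of the preceding statement: Every faithful C^∞ circle action of a finitely generated group with an exceptional minimal set can be joined, by a C^∞-continuous path of faithful C^∞ actions, to a minimal action, with each intermediate action before the endpoint having an exceptional minimal set. -/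
theorem result :
    ¬ (∀ (G : Type) [Group G] [Group.FG G] (φ₀ : G → Circle → Circle),
    (φ₀ 1 = id ∧ (∀ g h : G, φ₀ (g * h) = φ₀ g ∘ φ₀ h) ∧ Function.Injective φ₀ ∧
      ∀ (g : G) (k : ℕ), ContDiff ℝ (k : WithTop ℕ∞) (fun θ : ℝ => (φ₀ g (Circle.exp θ) : ℂ))) →
    (∃ K : Set Circle, IsClosed K ∧ K.Nonempty ∧ (∀ g : G, φ₀ g '' K ⊆ K) ∧
      (∀ L : Set Circle, L ⊆ K → IsClosed L → L.Nonempty → (∀ g : G, φ₀ g '' L ⊆ L) → L = K) ∧
      K.Infinite ∧ K ≠ Set.univ) →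
    ∃ φ : ℝ → G → Circle → Circle, φ 0 = φ₀ ∧
      (∀ t ∈ Set.Icc (0:ℝ) 1, φ t 1 = id ∧ (∀ g h : G, φ t (g * h) = φ t g ∘ φ t h) ∧
        Function.Injective (φ t) ∧
        ∀ (g : G) (k : ℕ), ContDiff ℝ (k : WithTop ℕ∞) (fun θ : ℝ => (φ t g (Circle.exp θ) : ℂ))) ∧
      (∀ (g : G) (k : ℕ), ∀ t₀ ∈ Set.Icc (0:ℝ) 1, ∀ ε > (0:ℝ), ∃ δ > (0:ℝ),
        ∀ t ∈ Set.Icc (0:ℝ) 1, |t - t₀| < δ → ∀ θ : ℝ,
          ‖iteratedDeriv k (fun s : ℝ => (φ t g (Circle.exp s) : ℂ)) θ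
            - iteratedDeriv k (fun s : ℝ => (φ t₀ g (Circle.exp s) : ℂ)) θ‖ < ε) ∧
      (∀ t ∈ Set.Ico (0:ℝ) 1, ∃ K : Set Circle, IsClosed K ∧ K.Nonempty ∧
        (∀ g : G, φ t g '' K ⊆ K) ∧
        (∀ L : Set Circle, L ⊆ K → IsClosed L → L.Nonempty → (∀ g : G, φ t g '' L ⊆ L) → L = K) ∧
        K.Infinite ∧ K ≠ Set.univ) ∧
      (∀ x : Circle, Dense {y : Circle | ∃ g : G, φ 1 g x = y})) := by
  classical
  intro main
  obtain ⟨H, hH, s1, s2, hle, hpos⟩ := exists_H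
  let h : Equiv.Perm Circle := hh H hH
  let S : Set (Equiv.Perm Circle) := insert h (Set.range r)
  have : Finite S := ((Set.finite_range r).insert h).to_subtype
  let G := Subgroup.closure S
  have ind : ∀ P : Equiv.Perm Circle → Prop, P 1 → (∀ i g, P g → P (r i * g)) →
      (∀ g, P g → P (h * g)) → (∀ g, P g → P (h⁻¹ * g)) → ∀ g ∈ G, P g := by
    intro P p1 p2 p3 p4 g hg
    induction hg using Subgroup.closure_induction_left with
    | one => exact p1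
    | mul_left x hx y _ ih =>
      rcases hx with rfl | ⟨i, rfl⟩
      exacts [p3 _ ih, p2 _ _ ih]
    | inv_mul_cancel x hx y _ ih =>
      rcases hx with rfl | ⟨i, rfl⟩
      · exact p4 _ ih
      · rw [inv_eq_of_mul_eq_one_right (r_r i)]; exact p2 _ _ ih
  have sm : ∀ g ∈ G, Sm g := ind (fun g => Sm g) Sm.id (fun i g hg => (r_sm i).comp hg)
    (fun g hg => (h0_sm H hH s1).comp hg) (fun g hg => (h0_sm H.symm (symm_fix H hH) s2).comp hg)
  have hJ : ∀ z ∉ J, h z = z := fun z hz => h0_fixJ H hH hz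
  have hJ' : ∀ z ∉ J, h⁻¹ z = z := fun z hz => by rw [Equiv.Perm.inv_eq_iff_eq, hJ z hz]
  have rc : ∀ j f, Red j f → f = 1 ∨ ∀ z ∈ J, (f * h * f⁻¹) z = z := fun j f hf => by
    rcases hf.mem with ⟨-, h1⟩ | ⟨i, -, hi⟩
    · exact Or.inl h1
    refine Or.inr fun z hz => ?_
    have : f⁻¹ z ∉ J := fun h' => J_A hz i (by simpa using hi _ (J_A h'))
    rw [Equiv.Perm.mul_apply, Equiv.Perm.mul_apply, hJ _ this]; simp
  have rc' : ∀ j f, Red j f → Commute h (f * h * f⁻¹) := fun j f hf => by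
    rcases rc j f hf with rfl | h1
    · simp
    · refine Equiv.Perm.Disjoint.commute fun z => ?_
      by_cases hz : z ∈ J
      exacts [Or.inr (h1 z hz), Or.inl (hJ z hz)]
  have cj : ∀ g ∈ G, ∃ j f, Red j f ∧ g * h * g⁻¹ = f * h * f⁻¹ := by
    refine ind _ ⟨_, _, Red.one, rfl⟩ ?_ ?_ ?_
    · rintro i g ⟨j, f, hf, e⟩
      obtain ⟨j', h'⟩ := hf.step i
      exact ⟨j', _, h', by
        rw [show r i * g * h * (r i * g)⁻¹ = r i * (g * h * g⁻¹) * (r i)⁻¹ by group, e]; group⟩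
    · rintro g ⟨j, f, hf, e⟩
      exact ⟨j, f, hf, by
        rw [show h * g * h * (h * g)⁻¹ = h * (g * h * g⁻¹) * h⁻¹ by group, e, (rc' j f hf).eq]
        group⟩
    · rintro g ⟨j, f, hf, e⟩
      exact ⟨j, f, hf, by
        rw [show h⁻¹ * g * h * (h⁻¹ * g)⁻¹ = h⁻¹ * ((g * h * g⁻¹) * h) by group, e,
          ← (rc' j f hf).eq]
        group⟩
  have hG : h ∈ G := Subgroup.subset_closure (Or.inl rfl)
  have rG : ∀ i, r i ∈ G := fun i => Subgroup.subset_closure (Or.inr ⟨i, rfl⟩)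
  have cm : ∀ g g' : G, Commute (g * ⟨h, hG⟩ * g⁻¹) (g' * ⟨h, hG⟩ * g'⁻¹) := fun g g' => by
    obtain ⟨j, f, hf, e⟩ := cj _ (g⁻¹ * g').2
    have h1 := rc' j f hf
    rw [← e] at h1
    have h2 : Commute (⟨h, hG⟩ : G) ((g⁻¹ * g') * ⟨h, hG⟩ * (g⁻¹ * g')⁻¹) := Subtype.ext h1
    have h3 := h2.map (MulAut.conj g)
    simp only [MulAut.conj_apply] at h3
    convert! h3 using 1
    group
  let x0 : Circle := ⟨⟨20 / 29, 21 / 29⟩, by
    simp only [Submonoid.unitSphere, Submonoid.mem_mk, Subsemigroup.mem_mk,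
      mem_sphere_zero_iff_norm]
    rw [← sq_eq_sq₀ (norm_nonneg _) zero_le_one, Complex.sq_norm, Complex.normSq_mk]
    norm_num⟩
  have x0A : ∀ k, x0 ∉ A k := fun k => by
    fin_cases k <;> simp only [Fin.zero_eta, Fin.mk_one, Fin.reduceFinMk, A0, A1, A2, x0] <;>
      norm_num
  have x0R : ∀ j f, Red j f → f x0 ∉ J := fun j f hf => by
    rcases hf.mem with ⟨-, rfl⟩ | ⟨i, -, hi⟩
    · simp only [J, x0, Equiv.Perm.coe_one, id, Set.mem_ofPred_eq]; norm_num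
    · exact fun h' => J_A h' i (hi _ x0A)
  have x0G : ∀ g ∈ G, ∃ j f, Red j f ∧ g x0 = f x0 := by
    refine ind _ ⟨_, _, Red.one, rfl⟩ ?_ ?_ ?_
    · rintro i g ⟨j, f, hf, e⟩
      obtain ⟨j', h'⟩ := hf.step i
      exact ⟨j', _, h', by simp [e]⟩
    · rintro g ⟨j, f, hf, e⟩
      exact ⟨j, f, hf, by simp [e, hJ _ (x0R j f hf)]⟩
    · rintro g ⟨j, f, hf, e⟩
      exact ⟨j, f, hf, by rw [Equiv.Perm.mul_apply, e, hJ' _ (x0R j f hf)]⟩
  have Jo : IsOpen J := isOpen_lt (by fun_prop) continuous_const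
  let C : Set Circle := ⋂ g : G, (g : Equiv.Perm Circle) ⁻¹' Jᶜ
  obtain ⟨K, hKC, hK⟩ := zorn_superset_nonempty {K : Set Circle | IsClosed K ∧ K.Nonempty ∧
      ∀ g : G, (g : Equiv.Perm Circle) '' K ⊆ K} (fun c hc hch hne => by
      have : Nonempty c := hne.to_subtype
      refine ⟨⋂₀ c, ⟨isClosed_sInter fun t ht => (hc ht).1,
        IsCompact.nonempty_sInter_of_directed_nonempty_isCompact_isClosed
          (fun x hx y hy => (hch.total hx hy).elim (fun h => ⟨x, hx, subset_rfl, h⟩)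
            fun h => ⟨y, hy, h, subset_rfl⟩) (fun t ht => (hc ht).2.1) (fun t ht => (hc ht).1.isCompact)
          (fun t ht => (hc ht).1), ?_⟩, fun s hs => Set.sInter_subset_of_mem hs⟩
      rintro g _ ⟨z, hz, rfl⟩ t ht
      exact (hc ht).2.2 g ⟨z, hz t ht, rfl⟩) C
    ⟨isClosed_iInter fun g => Jo.isClosed_compl.preimage (sm g g.2).cont,
      ⟨x0, Set.mem_iInter.2 fun g => by
        obtain ⟨j, f, hf, e⟩ := x0G g g.2
        rw [Set.mem_preimage, e]; exact x0R j f hf⟩, by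
      rintro g _ ⟨z, hz, rfl⟩
      exact Set.mem_iInter.2 fun g' => Set.mem_iInter.1 hz (g' * g)⟩
  let m : Circle := ⟨⟨0, -1⟩, by
    simp only [Submonoid.unitSphere, Submonoid.mem_mk, Subsemigroup.mem_mk,
      mem_sphere_zero_iff_norm]
    rw [← sq_eq_sq₀ (norm_nonneg _) zero_le_one, Complex.sq_norm, Complex.normSq_mk]
    norm_num⟩
  have mJ : m ∈ J := by simp only [J, m, Set.mem_ofPred_eq]; norm_num
  have rK : ∀ i, ∀ z ∈ K, r i z ∈ K := fun i z hz => hK.prop.2.2 ⟨r i, rG i⟩ ⟨z, hz, rfl⟩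
  obtain ⟨φ, -, h1, -, -, h2⟩ := main G (fun g => (g : Equiv.Perm Circle))
    ⟨rfl, fun _ _ => rfl, fun g g' e => Subtype.ext (Equiv.ext (congrFun e)),
      fun g k => (sm g g.2).contDiff k⟩
    ⟨K, hK.prop.1, hK.prop.2.1, hK.prop.2.2,
      fun L hL a b c => (hK.eq_of_superset ⟨a, b, c⟩ hL).symm, fun hf => by
        by_cases hs : K.Subsingleton
        · obtain ⟨z, hz⟩ := hK.prop.2.1
          obtain ⟨i, hi, -⟩ := exists_third z z
          exact hi (hs (rK i z hz) hz ▸ r_mem hi)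
        · obtain ⟨z, hz, w, hw, hzw⟩ := Set.not_subsingleton_iff.1 hs
          obtain ⟨p, hp, hmin⟩ := Set.exists_min_image {p ∈ K ×ˢ K | p.1 ≠ p.2}
            (fun p => ‖(p.1 : ℂ) - p.2‖) ((hf.prod hf).subset fun _ h => h.1)
            ⟨(z, w), ⟨hz, hw⟩, hzw⟩
          obtain ⟨i, a, b⟩ := exists_third p.1 p.2
          exact absurd (hmin (r i p.1, r i p.2) ⟨⟨rK i _ hp.1.1, rK i _ hp.1.2⟩,
            fun e => hp.2 ((r i).injective e)⟩) (not_le.2 (r_contr a b hp.2)),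
      fun e => Set.mem_iInter.1 (hKC (e ▸ Set.mem_univ m)) 1 mJ⟩
  obtain ⟨a1, a2, a3, a4⟩ := h1 1 ⟨zero_le_one, le_rfl⟩
  have hc : ∀ g, Continuous (φ 1 g) := fun g => by
    rw [Circle.isCoveringMap_exp.isLocalHomeomorph.isOpenMap.isQuotientMap Circle.exp.continuous
      Circle.exp_surjective |>.continuous_iff]
    exact continuous_induced_rng.2 (a4 g 0).continuous
  have h3 := not_minimal (φ 1) a1 a2 hc ⟨h, hG⟩ (⟨r 0, rG 0⟩ * ⟨r 1, rG 1⟩) cm h2
  have h4 := congrArg (fun g : G => (g : Equiv.Perm Circle) m) (a3 (h3.trans a1.symm))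
  have hR : Red (some 0) (r 0 * (r 1 * (r 0 * (r 1 * 1)))) :=
    .cons _ _ _ (.cons _ _ _ (.cons _ _ _ (.cons _ _ _ .one (by decide)) (by decide))
      (by decide)) (by decide)
  set f := r 0 * (r 1 * (r 0 * (r 1 * 1))) with hf
  have h5 : ∀ z ∈ J, (f * h * f⁻¹)⁻¹ z = z := fun z hz => by
    rcases hR.mem with ⟨h6, -⟩ | ⟨i, -, hi⟩
    · simp at h6
    have : f⁻¹ z ∉ J := fun h' => J_A hz i (by simpa using hi _ (J_A h'))
    rw [show (f * h * f⁻¹)⁻¹ = f * h⁻¹ * f⁻¹ by group, Equiv.Perm.mul_apply, Equiv.Perm.mul_apply,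
      hJ' _ this]; simp
  have c := (rc' _ _ hR).inv_right
  have h6 : (h * h * (r 0 * r 1 * (r 0 * r 1) * (h * h) * (r 0 * r 1 * (r 0 * r 1))⁻¹)⁻¹) ^ 2 =
      h ^ 4 * (f * h * f⁻¹)⁻¹ ^ 4 := by
    rw [← c.mul_pow, show (4 : ℕ) = 2 * 2 from rfl, pow_mul, c.mul_pow, hf]
    congr 1
    simp only [pow_two]
    group
  have h7 : (h ^ 4 * (f * h * f⁻¹)⁻¹ ^ 4) m = m := by rw [← h6]; exact h4
  rw [Equiv.Perm.mul_apply, Equiv.Perm.pow_apply_eq_self_of_apply_eq_self (h5 m mJ)] at h7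
  have k1 : ∀ z : Circle, (z : ℂ).im < 0 → (h z : ℂ).im < 0 ∧ (h z : ℂ).re = H (z : ℂ).re :=
    fun z hz => ⟨h0_im H hH hz, congrArg Complex.re (h0_neg H hH hz)⟩
  have m1 := k1 m (by simp [m])
  have m2 := k1 _ m1.1
  have m3 := k1 _ m2.1
  have m4 := k1 _ m3.1
  have h8 : h (h (h (h m))) = m := h7
  have m0 : (m : ℂ).re = 0 := rfl
  rw [h8, m0] at m4
  rw [m0] at m1
  linarith [hle (h m : ℂ).re, hle (h (h m) : ℂ).re, hle (h (h (h m)) : ℂ).re, m1.2, m2.2, m3.2,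
    m4.2]

end Pool.Agent.S04248
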