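import Pool.Statements.S04269
import Pool.Agent.H92.RepH2

set_option autoImplicit false
open Pool Pool.MP_321233_an

namespace Pool.Agent.S04269

theorem result :
    ∃ Λ : ℕ → ℂ, Function.Injective Λ ∧ (∀ n, ‖Λ n‖ < 1) ∧
      (∃ ζ : ℂ, ‖ζ‖ = 1 ∧ ζ ∉ closure (Set.range Λ)) ∧
      ∀ f : ℕ → ℂ, Summable (fun n => ‖f n‖ ^ 2) →
        ∃ c : ℕ → ℂ, Filter.Tendsto
          (fun N : ℕ => ∑' n : ℕ,
            ‖f n - ∑ k ∈ Finset.range N, c k * (starRingEnd ℂ (Λ k)) ^ n‖ ^ 2)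
          Filter.atTop (nhds 0) := by
  obtain ⟨Λ, hinj, hpos, -, hrep⟩ := Pool.Agent.H92.RepH2.main
  refine ⟨fun n => (Λ n : ℂ), Complex.ofReal_injective.comp hinj, fun n => ?_, ⟨-1, by simp, ?_⟩,
    fun f hf => ?_⟩
  · simp only [Complex.norm_real, Real.norm_eq_abs]
    rw [abs_of_pos (hpos n).1]; exact (hpos n).2
  · intro h
    have hc : IsClosed {z : ℂ | 0 ≤ z.re} := isClosed_le continuous_const Complex.continuous_re
    have := closure_minimal (t := {z : ℂ | 0 ≤ z.re}) (by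
      rintro _ ⟨n, rfl⟩
      simpa using (hpos n).1.le) hc h
    norm_num at this
  · simpa only [Complex.conj_ofReal] using hrep f hf

end Pool.Agent.S04269
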