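import Pool.Statements.S04274
import Pool.Agent.H91.PrimNormal

set_option autoImplicit false
open Pool Pool.MP_32357e_an

namespace Pool.Agent.S04274

theorem result :
    ¬ (∀ f F : ℂ → ℂ,
      AnalyticOnNhd ℂ f (Metric.ball (0:ℂ) 1) →
      Set.InjOn f (Metric.ball (0:ℂ) 1) →
      F 0 = 0 →
      (∀ z ∈ Metric.ball (0:ℂ) 1, HasDerivAt F (f z) z) →
      ∃ C : ℝ, ∀ z ∈ Metric.ball (0:ℂ) 1,
        (1 - ‖z‖ ^ 2) * ‖f z‖ / (1 + ‖F z‖ ^ 2) ≤ C) := by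
  intro h
  obtain ⟨C, hC⟩ := h Pool.Agent.H91.PrimNormal.f Pool.Agent.H91.PrimNormal.F
    Pool.Agent.H91.PrimNormal.f_an Pool.Agent.H91.PrimNormal.f_inj Pool.Agent.H91.PrimNormal.F_zero
    (fun z hz => Pool.Agent.H91.PrimNormal.F_deriv (by simpa using hz))
  obtain ⟨z, hz, hlt⟩ := Pool.Agent.H91.PrimNormal.unbounded C
  exact absurd (hC z hz) (not_le.mpr hlt)

end Pool.Agent.S04274
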