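import Pool.Statements.S04291
import Pool.Agent.H49.IE4

set_option autoImplicit false
open MeasureTheory
open Pool Pool.MP_335725_an

namespace Pool.Agent.S04291

open H49.IE

/-- the shift as a measurable equivalence -/
def T : (ℤ → ℕ → ℤ) ≃ᵐ (ℤ → ℕ → ℤ) where
  toFun := sh 1
  invFun := sh (-1)
  left_inv := fun ω => by simp [sh_sh, sh_zero]
  right_inv := fun ω => by simp [sh_sh, sh_zero]
  measurable_toFun := sh_meas 1
  measurable_invFun := sh_meas (-1)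

/-- There is an invertible measure-preserving map T of a standard, σ-finite, non-atomic, infinite measure space such that every finite Cartesian power of T is ergodic, but T × T⁻¹ on the product space is not ergodic. -/
theorem result :
    ∃ (X : Type) (_ : MeasurableSpace X) (_ : StandardBorelSpace X)
      (μ : Measure X) (_ : SigmaFinite μ) (_ : NoAtoms μ) (T : X ≃ᵐ X),
      μ Set.univ = ⊤ ∧
      MeasurePreserving (T : X → X) μ μ ∧
      (∀ k : ℕ, 1 ≤ k →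
        Ergodic (fun x : Fin k → X => fun i => T (x i))
          (Measure.pi (fun _ : Fin k => μ))) ∧
      ¬ Ergodic (fun p : X × X => (T p.1, T.symm p.2)) (μ.prod μ) := by
  classical
  obtain ⟨e, he⟩ := exists_surjective_nat (Σ k : ℕ, Fin (k + 1) → ℤ)
  set g : ℕ → Σ k : ℕ, Fin (k + 1) → ℤ := fun m => e m.unpair.1 with hg
  set D : ℕ → Type := fun n => Dg (g n).1 (((g n).1 + 1) ^ 2 * 2 ^ (n + 2)) with hD
  letI : ∀ n, Fintype (D n) := fun n => inferInstanceAs (Fintype (Dg _ _))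
  letI : ∀ n, Nonempty (D n) := fun n => inferInstanceAs (Nonempty (Dg _ _))
  letI : ∀ n, MeasurableSpace (D n) := fun _ => ⊤
  letI : ∀ n, DiscreteMeasurableSpace (D n) := fun _ => ⟨fun _ => trivial⟩
  choose c0 h0 a1 a2 a3 a4 a5 using fun n h : ℕ =>
    gadget (g n).2 (((g n).1 + 1) ^ 2 * 2 ^ (n + 2)) h n
  set h : ℕ → ℕ := fun n => Nat.rec 1 h0 n with hh
  have H : OK (D := D) (fun n => c0 n (h n)) h := ⟨rfl, fun n => a1 n _, fun n => a2 n _,
    fun n => a3 n _, fun n => Fintype.one_lt_card (α := Dg _ _)⟩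
  refine ⟨ℤ → ℕ → ℤ, inferInstance, inferInstance, μ H, μ_sig H, μ_atom H, T, μ_inf H, μ_inv H,
    fun k hk => ?_, nonerg H (fun n => Good) (fun n => a4 n _) fun n => by convert bad le_rfl⟩
  obtain ⟨k, rfl⟩ : ∃ k', k = k' + 1 := ⟨k - 1, by omega⟩
  refine erg H (K := (2 * (k + 1) * 2 ^ (k + 1) ^ 2) ^ (k + 1)) fun v n => ?_
  obtain ⟨a, ha⟩ := he ⟨k, v⟩
  refine ⟨a.pair n, Nat.right_le_pair a n, ?_⟩
  have tr : ∀ (G : Σ k : ℕ, Fin (k + 1) → ℤ) (E : Type) [Fintype E] (c : E → ℤ), G = ⟨k, v⟩ →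
      (∃ (S : Finset (Fin (G.1 + 1) → E)) (σ : (Fin (G.1 + 1) → E) → Fin (G.1 + 1) → E),
        Set.InjOn σ S ∧ (∀ d ∈ S, ∃ r, ∀ i, c (σ d i) - c (d i) = r + G.2 i) ∧
        Fintype.card E ^ (G.1 + 1) ≤ (2 * (G.1 + 1) * 2 ^ (G.1 + 1) ^ 2) ^ (G.1 + 1) * S.card) →
      ∃ (S : Finset (Fin (k + 1) → E)) (σ : (Fin (k + 1) → E) → Fin (k + 1) → E),
        Set.InjOn σ S ∧ (∀ d ∈ S, ∃ r, ∀ i, c (σ d i) - c (d i) = r + v i) ∧
        Fintype.card E ^ (k + 1) ≤ (2 * (k + 1) * 2 ^ (k + 1) ^ 2) ^ (k + 1) * S.card := by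
    rintro _ E _ c rfl h
    exact h
  exact tr (g (a.pair n)) _ _ (by simp [hg, ha]) (a5 _ _)

end Pool.Agent.S04291
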