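import Pool.Statements.S04304
import Pool.Agent.H87.DualIdx4

set_option autoImplicit false
open Pool Pool.MP_349896_an

namespace Pool.Agent.S04304

theorem result :
    ¬ (∀ (𝕜 : Type) [RCLike 𝕜] (Y : Type) [NormedAddCommGroup Y] [NormedSpace 𝕜 Y] [CompleteSpace Y],
      (∃ (Z : Type) (_ : NormedAddCommGroup Z) (_ : NormedSpace 𝕜 Z),
          CompleteSpace Z ∧ Nonempty ((Z →L[𝕜] 𝕜) ≃ₗᵢ[𝕜] Y)) →
      ∃ (X : Type) (_ : NormedAddCommGroup X) (_ : NormedSpace 𝕜 X),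
        CompleteSpace X ∧ Nonempty ((X →L[𝕜] 𝕜) ≃ₗᵢ[𝕜] Y) ∧
        sInf ((fun T : X →L[𝕜] X =>
            sSup {r : ℝ | ∃ (x : X) (f : X →L[𝕜] 𝕜),
              ‖x‖ = 1 ∧ ‖f‖ = 1 ∧ f x = 1 ∧ r = ‖f (T x)‖}) ''
            {T : X →L[𝕜] X | ‖T‖ = 1})
          =
        sInf ((fun T : Y →L[𝕜] Y =>
            sSup {r : ℝ | ∃ (y : Y) (g : Y →L[𝕜] 𝕜),
              ‖y‖ = 1 ∧ ‖g‖ = 1 ∧ g y = 1 ∧ r = ‖g (T y)‖}) ''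
            {T : Y →L[𝕜] Y | ‖T‖ = 1})) := by
  open Pool.Agent.H87.DualIdx in
  intro h
  obtain ⟨F, _, _, _, ⟨Φ⟩, h1⟩ := h ℝ (X →L[ℝ] ℝ)
    ⟨X, inferInstance, inferInstance, inferInstance, ⟨LinearIsometryEquiv.refl ℝ _⟩⟩
  obtain ⟨e⟩ := upredX F Φ
  obtain ⟨S, hS, hS2⟩ := upperS
  have a1 : sInf ((fun T : (X →L[ℝ] ℝ) →L[ℝ] (X →L[ℝ] ℝ) => sSup (RS T)) '' {T | ‖T‖ = 1})
      ≤ 1 / 50 :=
    le_trans (csInf_le ⟨0, by rintro _ ⟨T, -, rfl⟩; exact RS_nonneg T⟩ (by exact ⟨S, hS, rfl⟩)) hS2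
  have a2 : 1 / 25 ≤ sInf ((fun T : F →L[ℝ] F => sSup (RS T)) '' {T | ‖T‖ = 1}) :=
    le_csInf ⟨_, _, idE e, rfl⟩ (by rintro _ ⟨T, hT, rfl⟩; exact lowerE e T hT)
  have a3 := (a2.trans_eq h1).trans a1
  norm_num at a3

end Pool.Agent.S04304
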