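import Pool.Statements.S04308
import Pool.Agent.H87.TalF5

set_option autoImplicit false
open Filter Topology
open Pool Pool.MP_34b873_an

namespace Pool.Agent.S04308

theorem result :
    ¬ (∀ (X : Type) [NormedAddCommGroup X] [NormedSpace ℝ X] [CompleteSpace X],
    (∀ Y : Submodule ℝ X, IsClosed (Y : Set X) →
      ∃ p : Seminorm ℝ X,
        (∃ c C : ℝ, 0 < c ∧ ∀ x : X,
          c * Metric.infDist x (Y : Set X) ≤ p x ∧ p x ≤ C * Metric.infDist x (Y : Set X)) ∧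
        ∀ x : X, x ∉ Y → DifferentiableAt ℝ (fun z : X => p z) x) →
    ∃ N : Seminorm ℝ X,
      (∃ c C : ℝ, 0 < c ∧ ∀ x : X, c * ‖x‖ ≤ N x ∧ N x ≤ C * ‖x‖) ∧
      ∀ (f : X →L[ℝ] ℝ) (g : ℕ → (X →L[ℝ] ℝ)),
        Tendsto (fun n : ℕ =>
            2 * (sSup ((fun x : X => f x) '' {x : X | N x ≤ 1})) ^ 2
            + 2 * (sSup ((fun x : X => g n x) '' {x : X | N x ≤ 1})) ^ 2
            - (sSup ((fun x : X => (f + g n) x) '' {x : X | N x ≤ 1})) ^ 2)
          atTop (𝓝 0) →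
        Tendsto g atTop (𝓝 f)) := by
  intro H
  obtain ⟨N, ⟨c, C, hc, hN⟩, h⟩ := H H87.TalF.X H87.TalF.quot
  obtain ⟨f, g, h1, h2⟩ := H87.TalF.noLUR N hc fun x => (hN x).1
  exact h1 (tendsto_nhds_unique (h f (fun _ => g) (by simpa only [h2] using tendsto_const_nhds))
    tendsto_const_nhds)

end Pool.Agent.S04308
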