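import Pool.Statements.S04319
import Pool.Agent.H96.NJ6

set_option autoImplicit false
open Pool Pool.MP_35c333_an

namespace Pool.Agent.S04319


/-- For G/Γ with G a nilpotent Lie group, Γ discrete cocompact, and translation by g with every power minimal: for integer polynomials p_i with p_i(0)=0, k≥1, 0≤j<k, and nonempty open U, some n≥1 has x in U with g^{p_i(kn+j)}x in U for all i. -/
theorem result :
  ∀ (E : Type) [NormedAddCommGroup E] [NormedSpace ℝ E] [FiniteDimensional ℝ E]
    (G : Type) [Group G] [TopologicalSpace G] [ChartedSpace E G]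
    [LieGroup (modelWithCornersSelf ℝ E) ((⊤ : ℕ∞) : WithTop ℕ∞) G] [Group.IsNilpotent G]
    (Γ : Subgroup G), DiscreteTopology Γ → CompactSpace (G ⧸ Γ) →
    ∀ g : G, (∀ m : ℕ, 0 < m → ∀ x : G ⧸ Γ,
        Dense (Set.range (fun n : ℤ => (g ^ m) ^ n • x))) →
    ∀ (d : ℕ) (p : Fin d → Polynomial ℤ), (∀ i, (p i).eval 0 = 0) →
    ∀ k : ℕ, 0 < k → ∀ j : ℕ, j < k →
    ∀ U : Set (G ⧸ Γ), IsOpen U → U.Nonempty →
    ∃ n : ℕ, 0 < n ∧ ∃ x ∈ U, ∀ i, g ^ ((p i).eval ((k : ℤ) * (n : ℤ) + (j : ℤ))) • x ∈ U := by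
  intro E _ _ _ G _ _ _ _ _ Γ hΓ _ g hmin d p hp k hk j hj U hU hne
  have : IsTopologicalGroup G :=
    topologicalGroup_of_lieGroup (modelWithCornersSelf ℝ E) ((⊤ : ℕ∞) : WithTop ℕ∞)
  have : ProperSpace E := FiniteDimensional.proper_real E
  have : LocallyCompactSpace G := ChartedSpace.locallyCompactSpace E G
  have : LocallyPathConnectedSpace G := ChartedSpace.locallyPathConnectedSpace E G
  have : T1Space G := ChartedSpace.t1Space E G
  let r : Polynomial ℤ := Polynomial.X + Polynomial.C (2 * k : ℤ) * Polynomial.X ^ 2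
  obtain ⟨n, l, h⟩ := H96.NJ.main Γ Subgroup.isClosed_of_discrete g (fun m hm => hmin m hm _)
    (fun i : Option (Fin d) => i.elim 0 fun i => (p i).comp r)
    (fun i => by cases i <;> simp [r, Polynomial.eval_comp, hp]) (k := 2 * k) (by omega) (k + j)
    hU hne
  have hk' : (1 : ℤ) ≤ k := by exact_mod_cast hk
  have hj' : (j : ℤ) + 1 ≤ k := by exact_mod_cast hj
  have hj0 : (0 : ℤ) ≤ j := by positivity
  set t : ℤ := ((2 * k : ℕ) : ℤ) * n + (k + j) with ht
  push_cast at ht
  have hpos : 0 < 2 * n + 1 + 2 * t ^ 2 := by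
    rcases le_or_gt 0 n with h0 | h0
    · positivity
    · have : t ≤ 2 * n + 1 := by nlinarith
      nlinarith
  obtain ⟨m, hm⟩ := Int.eq_ofNat_of_zero_le hpos.le
  refine ⟨m, by exact_mod_cast hm ▸ hpos, _, by simpa using h none, fun i => ?_⟩
  have e : (k : ℤ) * m + j = r.eval t := by
    rw [← hm]; simp only [r, Polynomial.eval_add, Polynomial.eval_mul, Polynomial.eval_C,
      Polynomial.eval_pow, Polynomial.eval_X]
    rw [ht]; ring
  have := h (some i)
  simp only [Option.elim_some, Polynomial.eval_comp, zpow_add] at this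
  rw [e]
  exact this

end Pool.Agent.S04319
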