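import Pool.Statements.S04324
import Pool.Agent.H2.GsE

set_option autoImplicit false
open Pool Pool.MP_35c8d5_an

namespace Pool.Agent.S04324

/-- The negation of the preceding statement: If a separable infinite-dimensional real Banach space X has the property that every equivalent Gâteaux differentiable norm on X extends to an equivalent Gâteaux differentiable norm on every separable Banach space isometrically containing X, then X is isomorphic to c_0. -/
theorem result :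
    ¬ (∀ (X : Type) [NormedAddCommGroup X] [NormedSpace ℝ X] [CompleteSpace X]
      [TopologicalSpace.SeparableSpace X],
      ¬ FiniteDimensional ℝ X →
      (∀ (Z : Type) [NormedAddCommGroup Z] [NormedSpace ℝ Z] [CompleteSpace Z]
          [TopologicalSpace.SeparableSpace Z] (ι : X →ₗᵢ[ℝ] Z) (N : X → ℝ),
          ((∀ x y, N (x + y) ≤ N x + N y) ∧
            (∀ (c : ℝ) (x : X), N (c • x) = |c| * N x) ∧
            (∃ a b : ℝ, 0 < a ∧ ∀ x, a * ‖x‖ ≤ N x ∧ N x ≤ b * ‖x‖) ∧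
            (∀ x : X, x ≠ 0 → ∃ f : X →L[ℝ] ℝ,
              ∀ h : X, HasDerivAt (fun t : ℝ => N (x + t • h)) (f h) 0)) →
          ∃ M : Z → ℝ,
            ((∀ z w, M (z + w) ≤ M z + M w) ∧
              (∀ (c : ℝ) (z : Z), M (c • z) = |c| * M z) ∧
              (∃ a b : ℝ, 0 < a ∧ ∀ z, a * ‖z‖ ≤ M z ∧ M z ≤ b * ‖z‖) ∧
              (∀ z : Z, z ≠ 0 → ∃ f : Z →L[ℝ] ℝ,
                ∀ h : Z, HasDerivAt (fun t : ℝ => M (z + t • h)) (f h) 0)) ∧
            ∀ x : X, M (ι x) = N x) →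
      Nonempty (X ≃L[ℝ] ZeroAtInftyContinuousMap ℕ ℝ)) := by
  intro h
  refine Pool.Agent.H2.Gs.not_iso (h Pool.Agent.H2.Gs.L1 Pool.Agent.H2.Gs.not_fin ?_)
  rintro Z _ _ _ _ ι N ⟨h1, h2, ⟨a, b, ha, h3⟩, h4⟩
  obtain ⟨p, g1, g2, g3⟩ := Pool.Agent.H2.Gs.extend_l1 Z ι (Seminorm.of N h1 h2) a b ha h3 h4
  exact ⟨p, ⟨fun z w => map_add_le_add p z w, fun c z => map_smul_eq_mul p c z, g1, g2⟩, g3⟩

end Pool.Agent.S04324
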