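import Pool.Statements.S04332
import Pool.Agent.H58.Bb4

set_option autoImplicit false
open Pool Pool.MP_36a5e2_an

namespace Pool.Agent.S04332

/-- The negation of the preceding statement: For every map f of the unit ball of C^2 that starts a Loewner chain F(.,t) with e^(-t)F(.,t) locally uniformly bounded, and every m at least 3, the coefficient of z1^m in the first component of f has modulus at most m. -/
theorem result :
    ¬ (∀ f : EuclideanSpace ℂ (Fin 2) → EuclideanSpace ℂ (Fin 2),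
      (∃ F : ℝ → EuclideanSpace ℂ (Fin 2) → EuclideanSpace ℂ (Fin 2),
        (∀ z, F 0 z = f z) ∧
        (∀ t : ℝ, 0 ≤ t →
          DifferentiableOn ℂ (F t) (Metric.ball (0 : EuclideanSpace ℂ (Fin 2)) 1) ∧
          Set.InjOn (F t) (Metric.ball (0 : EuclideanSpace ℂ (Fin 2)) 1) ∧
          F t 0 = 0 ∧
          fderiv ℂ (F t) 0 =
            ((Real.exp t : ℝ) : ℂ) • ContinuousLinearMap.id ℂ (EuclideanSpace ℂ (Fin 2))) ∧
        (∀ s t : ℝ, 0 ≤ s → s ≤ t →
          F s '' Metric.ball (0 : EuclideanSpace ℂ (Fin 2)) 1 ⊆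
            F t '' Metric.ball (0 : EuclideanSpace ℂ (Fin 2)) 1) ∧
        (∀ r : ℝ, r < 1 → ∃ C : ℝ, ∀ t : ℝ, 0 ≤ t →
          ∀ z : EuclideanSpace ℂ (Fin 2), ‖z‖ ≤ r → ‖F t z‖ ≤ C * Real.exp t)) →
      ∀ m : ℕ, 3 ≤ m →
        ‖EuclideanSpace.proj (0 : Fin 2)
            (iteratedFDeriv ℂ m f 0 (fun _ => EuclideanSpace.single (0 : Fin 2) (1 : ℂ)))‖
          / (m.factorial : ℝ) ≤ (m : ℝ)) := by
  intro H
  open Pool.Agent.H58.Spi Set Metric in
  have hT : 0 ≤ Real.log (20 / 9) := Real.log_nonneg (by norm_num)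
  open Pool.Agent.H58.Spi Set Metric in
  have key := H (fun z => TT.symm (two F0 F2 (Real.log (20 / 9)) 0 (TT z)))
    ⟨fun t z => TT.symm (two F0 F2 (Real.log (20 / 9)) t (TT z)), fun _ => rfl, fun t _ =>
      ⟨conj_diff fun z hz => ((two_cd good_F0 good_F2 _ t hz).differentiableAt
        (by norm_num)).differentiableWithinAt,
      fun z hz w hw he => TT.injective (two_inj good_F0 good_F2 _ t (mem_TT.1 hz) (mem_TT.1 hw)
        (TT.symm.injective he)), by simp [two_zero good_F0 good_F2], by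
        obtain ⟨A, h1, h2⟩ := two_d0 good_F0 good_F2 (Real.log (20 / 9)) t
        exact conj_fderiv h1 h2⟩,
      fun s t _ hst => by
        rintro _ ⟨z, hz, rfl⟩
        obtain ⟨w, h2, h3⟩ := two_mono good_F0 good_F2 (Real.log (20 / 9)) hst (mem_TT.1 hz)
        exact ⟨TT.symm w, mem_TT'.2 h2, by simp [h3]⟩,
      fun r hr => by
        obtain ⟨M, hM⟩ := two_bd good_F0 good_F2 _ hT
        refine ⟨‖(TT.symm : ℂ × ℂ →L[ℂ] E2)‖ * M, fun t ht z hz => ?_⟩
        refine ((TT.symm : ℂ × ℂ →L[ℂ] E2).le_opNorm _).trans ?_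
        rw [mul_assoc]
        exact mul_le_mul_of_nonneg_left
          (hM t ht _ (mem_TT.1 (mem_ball_zero_iff.2 (hz.trans_lt hr)))) (norm_nonneg _)⟩ 3 le_rfl
  open Pool.Agent.H58.Spi Set Metric in
  obtain ⟨a2, a3, h3, hJ⟩ := J_final
  open Pool.Agent.H58.Spi Set Metric in
  set f : E2 → E2 := fun z => TT.symm (two F0 F2 (Real.log (20 / 9)) 0 (TT z)) with hf
  open Pool.Agent.H58.Spi Set Metric in
  have cd : ContDiffOn ℂ 3 f (ball 0 1) := fun z hz =>
    (TT.symm.contDiff.contDiffAt.comp z ((two_cd good_F0 good_F2 _ 0 (mem_TT.1 hz)).comp z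
      TT.contDiff.contDiffAt)).contDiffWithinAt
  open Pool.Agent.H58.Spi Set Metric in
  set ι : ℂ →L[ℂ] E2 :=
    (ContinuousLinearMap.id ℂ ℂ).smulRight (EuclideanSpace.single (0 : Fin 2) (1 : ℂ)) with hι
  open Pool.Agent.H58.Spi Set Metric in
  have ho : IsOpen (ι ⁻¹' ball 0 1) := isOpen_ball.preimage ι.continuous
  open Pool.Agent.H58.Spi Set Metric in
  have h0 : (0 : ℂ) ∈ ι ⁻¹' ball 0 1 := by simp
  open Pool.Agent.H58.Spi Set Metric in
  have r1 := ι.iteratedFDerivWithin_comp_right cd isOpen_ball.uniqueDiffOn ho.uniqueDiffOn h0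
    (i := 3) le_rfl
  rw [iteratedFDerivWithin_of_isOpen 3 ho h0,
    iteratedFDerivWithin_of_isOpen 3 Metric.isOpen_ball h0, map_zero] at r1
  have c2 : ContDiffAt ℂ 3 (f ∘ ι) 0 :=
    (cd.contDiffAt (Metric.isOpen_ball.mem_nhds h0)).comp 0 ι.contDiff.contDiffAt
  have r2 := (EuclideanSpace.proj (0 : Fin 2) :
    EuclideanSpace ℂ (Fin 2) →L[ℂ] ℂ).iteratedFDeriv_comp_left c2 (i := 3) le_rfl
  open Pool.Agent.H58.Spi Set Metric in
  have e1 : (EuclideanSpace.proj (0 : Fin 2) : E2 →L[ℂ] ℂ) ∘ f ∘ ι =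
      fun ζ => (two F0 F2 (Real.log (20 / 9)) 0 (ζ, 0)).1 := by
    ext ζ
    have : TT (ι ζ) = (ζ, 0) := by simp [hι, TT_apply]
    simp only [Function.comp_apply, hf, this]
    rfl
  open Pool.Agent.H58.Spi Set Metric in
  have r3 := hJ.third one_pos fun ζ hζ => (DifferentiableAt.comp
    (f := fun ζ : ℂ => ((ζ, 0) : ℂ × ℂ)) ζ ((two_cd good_F0 good_F2 _ 0 (ax2 hζ)).differentiableAt
      (by norm_num)) (by fun_prop)).fst.differentiableWithinAt
  rw [← e1, iteratedDeriv_eq_iteratedFDeriv, r2, r1] at r3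
  simp only [ContinuousLinearMap.compContinuousMultilinearMap_coe, Function.comp_apply,
    ContinuousMultilinearMap.compContinuousLinearMap_apply, hι,
    ContinuousLinearMap.smulRight_apply, ContinuousLinearMap.id_apply, one_smul] at r3
  rw [r3, norm_mul, Complex.norm_real, Real.norm_of_nonneg (by linarith)] at key
  norm_num [Nat.factorial] at key
  linarith

end Pool.Agent.S04332
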