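import Pool.Statements.S04348

set_option autoImplicit false
open MeasureTheory
open scoped ENNReal
open Pool Pool.MP_37b4fc_an

namespace Pool.Agent.S04348

open scoped BoundedContinuousFunction ZeroAtInfty Topology
open Filter

abbrev E0 : Type := ℕ →ᵇ ℝ
abbrev E1 : Type := C₀(ℕ, ℝ)

lemma apply_le (y : E1) (n : ℕ) : |y n| ≤ ‖y‖ := by
  have := y.toBCF.norm_coe_le_norm n
  simpa [ZeroAtInftyContinuousMap.norm_toBCF_eq_norm] using this

lemma norm_le1 (y : E1) (C : ℝ) (hC : 0 ≤ C) (h : ∀ n, |y n| ≤ C) : ‖y‖ ≤ C := by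
  rw [← ZeroAtInftyContinuousMap.norm_toBCF_eq_norm]
  exact (BoundedContinuousFunction.norm_le hC).2 h

lemma apply_le0 (y : E0) (n : ℕ) : |y n| ≤ ‖y‖ := y.norm_coe_le_norm n

lemma norm_le0 (y : E0) (C : ℝ) (hC : 0 ≤ C) (h : ∀ n, |y n| ≤ C) : ‖y‖ ≤ C :=
  (BoundedContinuousFunction.norm_le hC).2 h

noncomputable def mk0 (f : ℕ → ℝ) (C : ℝ) (h : ∀ n, |f n| ≤ C) : E0 :=
  BoundedContinuousFunction.ofNormedAddCommGroupDiscrete f C h

@[simp] lemma mk0_apply (f : ℕ → ℝ) (C : ℝ) (h : ∀ n, |f n| ≤ C) (n : ℕ) : mk0 f C h n = f n := rfl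

def mk1 (f : ℕ → ℝ) (h : Tendsto f atTop (𝓝 0)) : E1 where
  toFun := f
  continuous_toFun := continuous_of_discreteTopology
  zero_at_infty' := by
    rw [cocompact_eq_cofinite, Nat.cofinite_eq_atTop]
    exact h

@[simp] lemma mk1_apply (f : ℕ → ℝ) (h : Tendsto f atTop (𝓝 0)) (n : ℕ) : mk1 f h n = f n := rfl

lemma tend (y : E1) : Tendsto (fun n => y n) atTop (𝓝 0) := by
  have := y.zero_at_infty'
  rwa [cocompact_eq_cofinite, Nat.cofinite_eq_atTop] at this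

lemma w_le (y : E1) (n : ℕ) : |((4 : ℝ) ^ n)⁻¹ * y n| ≤ ‖y‖ := by
  have h1 : ((4 : ℝ) ^ n)⁻¹ ≤ 1 := inv_le_one_of_one_le₀ (one_le_pow₀ (by norm_num))
  have h2 : (0 : ℝ) ≤ ((4 : ℝ) ^ n)⁻¹ := by positivity
  rw [abs_mul, abs_of_nonneg h2]
  have := apply_le y n
  have := abs_nonneg (y n)
  nlinarith

noncomputable def iotaL : E1 →ₗ[ℝ] E0 where
  toFun y := mk0 (fun n => ((4 : ℝ) ^ n)⁻¹ * y n) ‖y‖ (w_le y)
  map_add' x y := by
    ext n
    simp [mul_add]
  map_smul' c x := by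
    ext n
    simp
    ring

noncomputable def iota : E1 →L[ℝ] E0 :=
  iotaL.mkContinuous 1 fun y => by
    rw [one_mul]
    exact norm_le0 _ _ (norm_nonneg _) (w_le y)

@[simp] lemma iota_apply (y : E1) (n : ℕ) : iota y n = ((4 : ℝ) ^ n)⁻¹ * y n := rfl

lemma iota_inj : Function.Injective iota := by
  intro x y h
  ext n
  have := congrArg (fun f : E0 => f n) h
  simp only [iota_apply] at this
  have h2 : ((4 : ℝ) ^ n)⁻¹ ≠ 0 := by positivity
  exact mul_left_cancel₀ h2 this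

noncomputable def U (x : E0) : E0 :=
  mk0 (fun n => min |x n| |x 0 - 1|) ‖x‖ fun n => by
    rw [abs_of_nonneg (le_min (abs_nonneg _) (abs_nonneg _))]
    exact (min_le_left _ _).trans (apply_le0 x n)

@[simp] lemma U_apply (x : E0) (n : ℕ) : U x n = min |x n| |x 0 - 1| := rfl

noncomputable def V (y : E1) : E1 :=
  mk1 (fun n => min |y n| (4 ^ n * |y 0 - 1|)) (by
    have h := (tend y).abs
    rw [abs_zero] at h
    refine squeeze_zero (fun n => le_min (abs_nonneg _) (by positivity)) (fun n => min_le_left _ _) h)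

@[simp] lemma V_apply (y : E1) (n : ℕ) : V y n = min |y n| (4 ^ n * |y 0 - 1|) := rfl

lemma min_lip (a b c d M : ℝ) (h1 : |a - c| ≤ M) (h2 : |b - d| ≤ M) : |min a b - min c d| ≤ M :=
  (abs_min_sub_min_le_max a b c d).trans (max_le h1 h2)

lemma U_lip (a b : E0) : ‖U a - U b‖ ≤ 1 * ‖a - b‖ := by
  rw [one_mul]
  refine norm_le0 _ _ (norm_nonneg _) fun n => ?_
  simp only [BoundedContinuousFunction.coe_sub, Pi.sub_apply, U_apply]
  apply min_lip
  · exact (abs_abs_sub_abs_le _ _).trans (apply_le0 (a - b) n)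
  · refine (abs_abs_sub_abs_le _ _).trans ?_
    have := apply_le0 (a - b) 0
    simpa using this

lemma U_iota (x : E1) : U (iota x) = iota (V x) := by
  ext n
  have h2 : (0 : ℝ) < ((4 : ℝ) ^ n)⁻¹ := by positivity
  simp only [U_apply, iota_apply, V_apply, pow_zero, inv_one, one_mul]
  rw [mul_min_of_nonneg _ _ h2.le, abs_mul, abs_of_pos h2, ← mul_assoc,
    inv_mul_cancel₀ (by positivity), one_mul]

lemma V_le (x : E1) : ‖V x‖ ≤ 1 * ‖x‖ := by
  rw [one_mul]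
  refine norm_le1 _ _ (norm_nonneg _) fun n => ?_
  rw [V_apply, abs_of_nonneg (le_min (abs_nonneg _) (by positivity))]
  exact (min_le_left _ _).trans (apply_le x n)

lemma V_cont : Continuous V := by
  rw [Metric.continuous_iff]
  intro y ε hε
  have h := (tend y).abs
  rw [abs_zero] at h
  obtain ⟨N, hN⟩ := eventually_atTop.1 (h.eventually (gt_mem_nhds (by linarith : (0 : ℝ) < ε / 4)))
  refine ⟨ε / 4 / 4 ^ N, by positivity, fun x hx => ?_⟩
  rw [dist_eq_norm] at hx ⊢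
  have h4 : (1 : ℝ) ≤ 4 ^ N := one_le_pow₀ (by norm_num)
  have hx1 : ‖x - y‖ * 4 ^ N < ε / 4 := by rwa [lt_div_iff₀ (by positivity)] at hx
  have hx2 : ‖x - y‖ < ε / 4 := by nlinarith [norm_nonneg (x - y)]
  refine lt_of_le_of_lt (norm_le1 _ (ε / 2) (by linarith) fun n => ?_) (by linarith)
  have hn : |x n - y n| ≤ ‖x - y‖ := by simpa using apply_le (x - y) n
  have h0 : |x 0 - y 0| ≤ ‖x - y‖ := by simpa using apply_le (x - y) 0
  simp only [ZeroAtInftyContinuousMap.coe_sub, Pi.sub_apply, V_apply]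
  by_cases hnN : N ≤ n
  · have h5 := hN n hnN
    have h6 : |x n| ≤ |x n - y n| + |y n| := by
      have := abs_add_le (x n - y n) (y n)
      simpa using this
    have h7 : min |x n| (4 ^ n * |x 0 - 1|) ≤ ε / 2 := (min_le_left _ _).trans (by linarith)
    have h8 : min |y n| (4 ^ n * |y 0 - 1|) ≤ ε / 2 := (min_le_left _ _).trans (by linarith)
    have h9 : 0 ≤ min |x n| (4 ^ n * |x 0 - 1|) := le_min (abs_nonneg _) (by positivity)
    have h10 : 0 ≤ min |y n| (4 ^ n * |y 0 - 1|) := le_min (abs_nonneg _) (by positivity)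
    rw [abs_le]
    constructor <;> linarith
  · apply min_lip
    · exact (abs_abs_sub_abs_le _ _).trans (by linarith)
    · rw [← mul_sub, abs_mul, abs_of_pos (by positivity : (0 : ℝ) < 4 ^ n)]
      have h5 : |(|x 0 - 1| - |y 0 - 1|)| ≤ ‖x - y‖ := by
        refine (abs_abs_sub_abs_le _ _).trans ?_
        simpa using h0
      have h6 : (4 : ℝ) ^ n ≤ 4 ^ N := pow_le_pow_right₀ (by norm_num) (by omega)
      have h7 : (4 : ℝ) ^ n * |(|x 0 - 1| - |y 0 - 1|)| ≤ 4 ^ N * ‖x - y‖ :=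
        mul_le_mul h6 h5 (abs_nonneg _) (by positivity)
      linarith

noncomputable def a : E0 := mk0 (fun n => ((2 : ℝ) ^ n)⁻¹) 1 fun n => by
  rw [abs_of_pos (by positivity)]
  exact inv_le_one_of_one_le₀ (one_le_pow₀ (by norm_num))

@[simp] lemma a_apply (n : ℕ) : a n = ((2 : ℝ) ^ n)⁻¹ := rfl

lemma bddK (x : E0) (t : ℝ) (ht : 0 < t) :
    BddBelow (Set.range fun y : E1 => ‖x - iota y‖ + t * ‖y‖) := by
  refine ⟨0, ?_⟩
  rintro _ ⟨y, rfl⟩
  positivity

lemma four_pow (n : ℕ) : (4 : ℝ) ^ n = 2 ^ n * 2 ^ n := by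
  rw [← mul_pow]
  norm_num

lemma K_upper (c : ℝ) (hc : 0 ≤ c) (t : ℝ) (ht : 0 < t) :
    ⨅ y : E1, (‖c • a - iota y‖ + t * ‖y‖) ≤ 2 * c * √t := by
  have hs : 0 < √t := Real.sqrt_pos.2 ht
  have hss : √t * √t = t := Real.mul_self_sqrt ht.le
  let y : E1 := mk1 (fun m => if (2 : ℝ) ^ m * √t ≤ 1 then c * 2 ^ m else 0) (by
    have h1 : Tendsto (fun m : ℕ => (2 : ℝ) ^ m * √t) atTop atTop :=
      (tendsto_pow_atTop_atTop_of_one_lt (by norm_num)).atTop_mul_const hs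
    refine tendsto_const_nhds.congr' ?_
    filter_upwards [h1.eventually_gt_atTop 1] with m hm
    rw [if_neg (not_le.2 hm)])
  refine (ciInf_le (bddK _ t ht) y).trans ?_
  have h1 : ‖c • a - iota y‖ ≤ c * √t := by
    refine norm_le0 _ _ (by positivity) fun m => ?_
    simp only [BoundedContinuousFunction.coe_sub, BoundedContinuousFunction.coe_smul,
      Pi.sub_apply, a_apply, iota_apply, y, mk1_apply, smul_eq_mul]
    split_ifs with hm
    · have : c * ((2 : ℝ) ^ m)⁻¹ - ((4 : ℝ) ^ m)⁻¹ * (c * 2 ^ m) = 0 := by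
        rw [four_pow]
        field_simp
        ring
      rw [this, abs_zero]
      positivity
    · rw [mul_zero, sub_zero, abs_of_nonneg (by positivity)]
      push Not at hm
      refine mul_le_mul_of_nonneg_left ?_ hc
      rw [inv_le_iff_one_le_mul₀ (by positivity)]
      linarith
  have h2 : ‖y‖ ≤ c / √t := by
    refine norm_le1 _ _ (by positivity) fun m => ?_
    simp only [y, mk1_apply]
    split_ifs with hm
    · rw [abs_of_nonneg (by positivity), le_div_iff₀ hs, mul_assoc]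
      nlinarith
    · rw [abs_zero]
      positivity
  have h3 : t * ‖y‖ ≤ c * √t := by
    calc t * ‖y‖ ≤ t * (c / √t) := mul_le_mul_of_nonneg_left h2 ht.le
      _ = c * √t := by
        field_simp
        nlinarith
  linarith

lemma K_nonneg (x : E0) (t : ℝ) (ht : 0 < t) : 0 ≤ ⨅ y : E1, (‖x - iota y‖ + t * ‖y‖) :=
  le_ciInf fun y => by positivity

lemma K_lower (x : E0) (n : ℕ) (t : ℝ) (ht : ((4 : ℝ) ^ n)⁻¹ ≤ t) :
    |x n| ≤ ⨅ y : E1, (‖x - iota y‖ + t * ‖y‖) := by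
  refine le_ciInf fun y => ?_
  have h1 := apply_le0 (x - iota y) n
  simp only [BoundedContinuousFunction.coe_sub, Pi.sub_apply, iota_apply] at h1
  have h2 := apply_le y n
  have h3 : (0 : ℝ) < ((4 : ℝ) ^ n)⁻¹ := by positivity
  have h4 : |x n| ≤ |x n - ((4 : ℝ) ^ n)⁻¹ * y n| + |((4 : ℝ) ^ n)⁻¹ * y n| := by
    have := abs_add_le (x n - ((4 : ℝ) ^ n)⁻¹ * y n) (((4 : ℝ) ^ n)⁻¹ * y n)
    simpa using this
  rw [abs_mul, abs_of_pos h3] at h4
  have h5 : ((4 : ℝ) ^ n)⁻¹ * |y n| ≤ t * ‖y‖ := mul_le_mul ht h2 (abs_nonneg _) (h3.le.trans ht)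
  linarith

noncomputable abbrev mu : Measure ℝ :=
  (volume.restrict (Set.Ioi (0:ℝ))).withDensity (fun t => ENNReal.ofReal t⁻¹)

lemma rpow_half (t : ℝ) (ht : 0 < t) : t ^ (-(1 / 2 : ℝ)) = (√t)⁻¹ := by
  rw [Real.rpow_neg ht.le, Real.sqrt_eq_rpow]

lemma norm_upper (c : ℝ) (hc : 0 ≤ c) :
    eLpNorm (fun t : ℝ => t ^ (-(1 / 2 : ℝ)) * ⨅ y : E1, (‖c • a - iota y‖ + t * ‖y‖)) ∞ mu
      ≤ ENNReal.ofReal (2 * c) := by
  rw [eLpNorm_exponent_top]
  apply eLpNormEssSup_le_of_ae_bound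
  have h : ∀ᵐ t ∂mu, t ∈ Set.Ioi (0 : ℝ) :=
    (withDensity_absolutelyContinuous _ _).ae_le (ae_restrict_mem measurableSet_Ioi)
  filter_upwards [h] with t ht
  have ht' : 0 < t := ht
  have hs : 0 < √t := Real.sqrt_pos.2 ht
  rw [rpow_half t ht', Real.norm_eq_abs,
    abs_of_nonneg (mul_nonneg (by positivity) (K_nonneg _ t ht')), inv_mul_le_iff₀ hs]
  have := K_upper c hc t ht'
  linarith

lemma norm_lower (x : E0) (n : ℕ) (hx : ((2 : ℝ) ^ n)⁻¹ ≤ |x n|) :
    ENNReal.ofReal (1 / 2) ≤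
      eLpNorm (fun t : ℝ => t ^ (-(1 / 2 : ℝ)) * ⨅ y : E1, (‖x - iota y‖ + t * ‖y‖)) ∞ mu := by
  by_contra hlt
  push Not at hlt
  rw [eLpNorm_exponent_top] at hlt
  have h1 := ae_le_eLpNormEssSup
    (f := fun t : ℝ => t ^ (-(1 / 2 : ℝ)) * ⨅ y : E1, (‖x - iota y‖ + t * ‖y‖)) (μ := mu)
  have hac : volume.restrict (Set.Ioi (0:ℝ)) ≪ mu := by
    refine withDensity_absolutelyContinuous' (by fun_prop) ?_
    filter_upwards [ae_restrict_mem measurableSet_Ioi] with t ht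
    have ht' : 0 < t := ht
    simpa using ht'
  have h2 := hac.ae_le h1
  have h4 : (0 : ℝ) < ((4 : ℝ) ^ n)⁻¹ := by positivity
  have h3 : ∀ᵐ t ∂(volume.restrict (Set.Ioi (0:ℝ))),
      t ∉ Set.Icc (((4 : ℝ) ^ n)⁻¹) (4 * ((4 : ℝ) ^ n)⁻¹) := by
    filter_upwards [h2] with t ht hmem
    have ht' : 0 < t := h4.trans_le hmem.1
    have hs : 0 < √t := Real.sqrt_pos.2 ht'
    have h5 := ht.trans_lt hlt
    have h6 := K_lower x n t hmem.1
    rw [rpow_half t ht', ← ofReal_norm, ENNReal.ofReal_lt_ofReal_iff (by norm_num),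
      Real.norm_eq_abs,
      abs_of_nonneg (mul_nonneg (by positivity) (K_nonneg _ t ht')), inv_mul_lt_iff₀ hs] at h5
    have h7 : √t ≤ 2 * ((2 : ℝ) ^ n)⁻¹ := by
      apply Real.sqrt_le_iff.2
      refine ⟨by positivity, hmem.2.trans (le_of_eq ?_)⟩
      rw [four_pow]
      field_simp
      ring
    linarith
  rw [ae_iff] at h3
  simp only [not_not] at h3
  have hsub : Set.Icc (((4 : ℝ) ^ n)⁻¹) (4 * ((4 : ℝ) ^ n)⁻¹) ⊆ Set.Ioi 0 :=
    fun t ht => h4.trans_le ht.1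
  rw [Set.ofPred_mem_eq, Measure.restrict_apply measurableSet_Icc,
    Set.inter_eq_left.2 hsub, Real.volume_Icc,
    ENNReal.ofReal_eq_zero] at h3
  linarith

/-- The negation of the preceding statement: For Banach couples A1⊂A0, B1⊂B0 and U Lipschitz A0→B0, mapping A1 to B1 with linear bound and continuously, U is continuous from the real interpolation space (A0,A1)θ,p;K to (B0,B1)θ,p;K for all 0<θ<1, 1≤p≤∞. -/
theorem result :
    ¬ (∀ (E0 E1 F0 F1 : Type)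
      [NormedAddCommGroup E0] [NormedSpace ℝ E0] [CompleteSpace E0]
      [NormedAddCommGroup E1] [NormedSpace ℝ E1] [CompleteSpace E1]
      [NormedAddCommGroup F0] [NormedSpace ℝ F0] [CompleteSpace F0]
      [NormedAddCommGroup F1] [NormedSpace ℝ F1] [CompleteSpace F1]
      (ιA : E1 →L[ℝ] E0) (ιB : F1 →L[ℝ] F0),
      Function.Injective ιA → Function.Injective ιB →
      ∀ (U : E0 → F0) (V : E1 → F1) (M0 M1 : ℝ),
        (∀ a b : E0, ‖U a - U b‖ ≤ M0 * ‖a - b‖) →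
        (∀ x : E1, U (ιA x) = ιB (V x)) →
        (∀ x : E1, ‖V x‖ ≤ M1 * ‖x‖) →
        Continuous V →
        ∀ θ : ℝ, 0 < θ → θ < 1 → ∀ p : ℝ≥0∞, 1 ≤ p →
        ∀ a : E0,
          eLpNorm (fun t : ℝ => t ^ (-θ) * ⨅ y : E1, (‖a - ιA y‖ + t * ‖y‖)) p
            ((volume.restrict (Set.Ioi (0:ℝ))).withDensity (fun t => ENNReal.ofReal t⁻¹)) < ∞ →
          ∀ ε : ℝ≥0∞, 0 < ε → ∃ δ : ℝ≥0∞, 0 < δ ∧ ∀ b : E0,
            eLpNorm (fun t : ℝ => t ^ (-θ) * ⨅ y : E1, (‖b - ιA y‖ + t * ‖y‖)) p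
              ((volume.restrict (Set.Ioi (0:ℝ))).withDensity (fun t => ENNReal.ofReal t⁻¹)) < ∞ →
            eLpNorm (fun t : ℝ => t ^ (-θ) * ⨅ y : E1, (‖(b - a) - ιA y‖ + t * ‖y‖)) p
              ((volume.restrict (Set.Ioi (0:ℝ))).withDensity (fun t => ENNReal.ofReal t⁻¹)) < δ →
            eLpNorm (fun t : ℝ => t ^ (-θ) * ⨅ z : F1, (‖(U b - U a) - ιB z‖ + t * ‖z‖)) p
              ((volume.restrict (Set.Ioi (0:ℝ))).withDensity (fun t => ENNReal.ofReal t⁻¹)) < ε) := by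
  intro h
  have ha := (norm_upper 1 zero_le_one).trans_lt ENNReal.ofReal_lt_top
  rw [one_smul] at ha
  obtain ⟨δ, hδ, H⟩ := h E0 E1 E0 E1 iota iota iota_inj iota_inj U V 1 1 U_lip U_iota V_le V_cont
    (1 / 2) (by norm_num) (by norm_num) ∞ le_top a ha (ENNReal.ofReal (1 / 2)) (by simp)
  obtain ⟨r, hr0, hr1, hr2⟩ := ENNReal.lt_iff_exists_real_btwn.1 hδ
  have hr : 0 < r := by simpa using hr1
  have hb := (norm_upper (1 + r / 2) (by linarith)).trans_lt ENNReal.ofReal_lt_top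
  have hd := norm_upper (r / 2) (by linarith)
  have e1 : (1 + r / 2) • a - a = (r / 2) • a := by
    rw [add_smul, one_smul]
    abel
  have e2 : 2 * (r / 2) = r := by ring
  rw [e2] at hd
  have H2 := H ((1 + r / 2) • a) hb (by rw [e1]; exact hd.trans_lt hr2)
  obtain ⟨n, hn⟩ := exists_pow_lt_of_lt_one (by linarith : 0 < r / 2) (by norm_num : (2 : ℝ)⁻¹ < 1)
  rw [inv_pow] at hn
  refine absurd H2 (not_lt.2 (norm_lower _ n ?_))
  have h2 : (0 : ℝ) < ((2 : ℝ) ^ n)⁻¹ := by positivity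
  simp only [BoundedContinuousFunction.coe_sub, Pi.sub_apply, U_apply,
    BoundedContinuousFunction.coe_smul, a_apply, smul_eq_mul, pow_zero, inv_one, mul_one,
    sub_self, abs_zero, add_sub_cancel_left]
  rw [min_eq_right (abs_nonneg (((2 : ℝ) ^ n)⁻¹)), sub_zero]
  refine le_trans ?_ (le_abs_self _)
  refine le_min ?_ ?_
  · rw [abs_of_pos (by positivity)]
    nlinarith
  · rw [abs_of_pos (by linarith)]
    exact hn.le

end Pool.Agent.S04348
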