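import Pool.Statements.S04351
import Pool.Agent.H87.GatB

set_option autoImplicit false
open Pool Pool.MP_37ff87_an

namespace Pool.Agent.S04351

theorem result :
    ∀ (X : Type) [NormedAddCommGroup X] [NormedSpace ℝ X] [CompleteSpace X]
      [TopologicalSpace.SeparableSpace X],
      TopologicalSpace.IsSeparable
          {f : X →L[ℝ] ℝ | ∃ x : X, ‖x‖ = 1 ∧
            ∀ v : X, HasLineDerivAt ℝ (fun y : X => ‖y‖) (f v) x v} →
        TopologicalSpace.SeparableSpace (X →L[ℝ] ℝ) := by
  intro X _ _ _ _ hD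
  by_contra hns
  refine Pool.Agent.H87.GatB.nonsep hns (hD.mono ?_)
  rintro f ⟨x, h1, h2, h3, h4⟩
  exact ⟨x, h1, fun v => h2.deriv f h3.le (h4.trans h1.symm) v⟩

end Pool.Agent.S04351
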