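import Pool.Statements.S04361
import Pool.Agent.H62.Cap

set_option autoImplicit false
open Pool Pool.MP_38bb9b_an

namespace Pool.Agent.S04361

open Polynomial MeasureTheory

lemma antider (r : ℂ[X]) (l : ℕ) (hr : r.Monic) (hl : r.natDegree = l) :
    ∃ p : ℂ[X], p.Monic ∧ p.natDegree = l + 1 ∧ derivative p = C ((l : ℂ) + 1) * r := by
  set p : ℂ[X] := ∑ i ∈ Finset.range (l + 1),
    monomial (i + 1) (((l : ℂ) + 1) * r.coeff i / ((i : ℂ) + 1)) with hp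
  have h1 : p.natDegree ≤ l + 1 := natDegree_sum_le_of_forall_le _ _ fun i hi =>
    (natDegree_monomial_le _).trans (by have := Finset.mem_range.mp hi; omega)
  have h2 : p.coeff (l + 1) = 1 := by
    have : r.coeff l = 1 := hl ▸ hr.coeff_natDegree
    simp [hp, coeff_monomial, this, Nat.cast_add_one_ne_zero]
  refine ⟨p, monic_of_natDegree_le_of_coeff_eq_one _ h1 h2,
    natDegree_eq_of_le_of_coeff_ne_zero h1 (by simp [h2]), ?_⟩
  conv_rhs => rw [r.as_sum_range, hl, Finset.mul_sum]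
  rw [hp, derivative_sum]
  refine Finset.sum_congr rfl fun i _ => ?_
  rw [derivative_monomial, C_mul_monomial, Nat.add_sub_cancel]
  congr 1
  have := Nat.cast_add_one_ne_zero (R := ℂ) i
  push_cast
  field_simp

lemma roots_fin (q : ℂ[X]) (N : ℕ) (hq : q.Monic) (hN : q.natDegree = N) :
    ∃ W : Fin N → ℂ, ∀ z, ‖q.eval z‖ = ∏ i, ‖z - W i‖ := by
  have hs := IsAlgClosed.splits q
  obtain ⟨L, hL⟩ := Quotient.exists_rep q.roots
  have h1 : L.length = N := by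
    rw [← hN, ← splits_iff_card_roots.mp hs, ← hL]
    rfl
  subst h1
  refine ⟨L.get, fun z => ?_⟩
  conv_lhs => rw [hs.eq_prod_roots_of_monic hq, ← hL]
  rw [← norm_prod]
  congr 1
  simp only [Multiset.quot_mk_to_coe, Multiset.map_coe, Multiset.prod_coe, eval_list_prod,
    List.map_map]
  rw [← Fin.prod_univ_fun_getElem]
  simp

lemma key (l : ℕ) : ∃ B : ℝ, 0 < B ∧ ∀ (K : Set ℂ) (q : ℂ[X]) (N : ℕ) (t : ℝ), q.Monic →
    q.natDegree = N + 1 → 0 < t → (∀ z ∈ K, ‖q.eval z‖ ≤ t ^ (N + 1)) →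
    ∃ p : ℂ[X], p.Monic ∧ p.natDegree = l + 1 ∧
      Real.sqrt (∫ z in K, ‖(derivative p).eval z‖ ^ 2) ≤ B * t ^ (l + 1) := by
  obtain ⟨C0, hC, h⟩ := H62.Cap.lemniscate l
  refine ⟨(l + 1) * √C0, by positivity, fun K q N t hq hN ht hK => ?_⟩
  obtain ⟨W, hW⟩ := roots_fin (q ^ ((l + 1) * 2)) ((l + 1) * (2 * (N + 1))) (hq.pow _)
    (by rw [hq.natDegree_pow, hN]; ring)
  obtain ⟨a, ha⟩ := h (N + 1) W (t ^ (l + 1)) K (by omega) (by positivity) fun z hz => by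
    rw [← hW, eval_pow, norm_pow]
    refine (pow_le_pow_left₀ (norm_nonneg _) (hK z hz) _).trans (le_of_eq (by ring))
  obtain ⟨p, h1, h2, h3⟩ := antider (∏ k, (X - C (a k))) l (monic_prod_X_sub_C _ _)
    (by rw [natDegree_finsetProd_X_sub_C_eq_card]; simp)
  refine ⟨p, h1, h2, ?_⟩
  have e : ∀ z, ‖(derivative p).eval z‖ ^ 2 = ((l : ℝ) + 1) ^ 2 * (∏ k, ‖z - a k‖) ^ 2 := by
    intro z
    rw [h3, eval_mul, eval_C, eval_prod, norm_mul, norm_prod, mul_pow]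
    congr 2
    · exact_mod_cast Complex.norm_natCast (l + 1)
    · simp
  simp_rw [e]
  rw [integral_const_mul, integral_eq_lintegral_of_nonneg_ae
    (Filter.Eventually.of_forall fun z => by positivity) (by fun_prop)]
  refine Real.sqrt_le_iff.mpr ⟨by positivity, ?_⟩
  rw [mul_pow, mul_pow, Real.sq_sqrt hC.le, mul_assoc]
  gcongr
  exact ENNReal.toReal_le_of_le_ofReal (by positivity) ha

/-- For each n ≥ 1 there is C > 0 such that every non-empty compact K in ℂ satisfies cap(K)^n ≥ C times the least area-L² norm on K of p′ over monic degree-n p, with cap given as the Chebyshev constant. -/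
theorem result :
    ∀ n : ℕ, 1 ≤ n → ∃ C : ℝ, 0 < C ∧ ∀ K : Set ℂ, IsCompact K → K.Nonempty →
      C * (⨅ p : {p : Polynomial ℂ // p.Monic ∧ p.natDegree = n},
            Real.sqrt (∫ z in K, ‖(Polynomial.derivative p.1).eval z‖ ^ 2)) ≤
        (⨅ m : ℕ,
            (⨅ q : {q : Polynomial ℂ // q.Monic ∧ q.natDegree = m + 1},
                sSup ((fun z => ‖q.1.eval z‖) '' K)) ^ ((1 : ℝ) / ((m : ℝ) + 1))) ^ n := by
  intro n hn
  obtain ⟨l, rfl⟩ : ∃ l, n = l + 1 := ⟨n - 1, by omega⟩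
  obtain ⟨B, hB, h⟩ := key l
  refine ⟨B⁻¹, by positivity, fun K hK _ => ?_⟩
  set Y := ⨅ p : {p : Polynomial ℂ // p.Monic ∧ p.natDegree = l + 1},
    Real.sqrt (∫ z in K, ‖(Polynomial.derivative p.1).eval z‖ ^ 2) with hY
  have hY0 : 0 ≤ Y := Real.iInf_nonneg fun _ => Real.sqrt_nonneg _
  obtain ⟨c, hc0, hc⟩ : ∃ c : ℝ, 0 ≤ c ∧ c ^ (l + 1) = B⁻¹ * Y :=
    ⟨(B⁻¹ * Y) ^ (((l + 1 : ℕ) : ℝ)⁻¹), by positivity,
      Real.rpow_inv_natCast_pow (by positivity) (by omega)⟩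
  rw [← hc]
  refine pow_le_pow_left₀ hc0 (le_ciInf fun m => ?_) _
  have : Nonempty {q : Polynomial ℂ // q.Monic ∧ q.natDegree = m + 1} :=
    ⟨⟨X ^ (m + 1), monic_X_pow _, natDegree_X_pow _⟩⟩
  have h1 : c ^ (m + 1) ≤ ⨅ q : {q : Polynomial ℂ // q.Monic ∧ q.natDegree = m + 1},
      sSup ((fun z => ‖q.1.eval z‖) '' K) := by
    refine le_ciInf fun q => le_of_forall_gt_imp_ge_of_dense fun τ hτ => ?_
    have hb : BddAbove ((fun z => ‖q.1.eval z‖) '' K) := (hK.image (by fun_prop)).bddAbove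
    have hτ0 : 0 < τ := lt_of_le_of_lt (Real.sSup_nonneg (by
      rintro _ ⟨z, -, rfl⟩
      exact norm_nonneg _)) hτ
    obtain ⟨t, ht, rfl⟩ : ∃ t : ℝ, 0 < t ∧ t ^ (m + 1) = τ :=
      ⟨τ ^ (((m + 1 : ℕ) : ℝ)⁻¹), by positivity, Real.rpow_inv_natCast_pow hτ0.le (by omega)⟩
    obtain ⟨p, p1, p2, p3⟩ := h K q.1 m t q.2.1 q.2.2 ht fun z hz =>
      (le_csSup hb ⟨z, hz, rfl⟩).trans hτ.le
    have h2 : Y ≤ B * t ^ (l + 1) := ciInf_le_of_le
      ⟨0, by rintro _ ⟨_, rfl⟩; exact Real.sqrt_nonneg _⟩ ⟨p, p1, p2⟩ p3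
    refine pow_le_pow_left₀ hc0 (le_of_pow_le_pow_left₀ (n := l + 1) (by omega) ht.le ?_) _
    rwa [hc, inv_mul_le_iff₀ hB]
  have h2 := Real.rpow_le_rpow (by positivity) h1 (show 0 ≤ (1 : ℝ) / ((m : ℝ) + 1) by positivity)
  refine le_trans (le_of_eq ?_) h2
  rw [one_div, ← Nat.cast_add_one, Real.pow_rpow_inv_natCast hc0 (by omega)]

end Pool.Agent.S04361
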