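import Pool.Statements.S04378
import Pool.Agent.H94.PS1

set_option autoImplicit false
open Pool Pool.MP_39e9bb_an

namespace Pool.Agent.S04378

open Set Filter Topology Complex Metric Pool.Agent.H94.PS Real in
/-- The negation of the preceding statement: There is B>0 such that for every f holomorphic on the unit disk with f(0)=0, f'(0)=1, some disk of radius B lies in the principal star: points w whose segment [0,w] lifts through f to a path from 0 in the disk avoiding zeros of f'. -/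
theorem result :
    ¬ (∃ B : ℝ, 0 < B ∧
      ∀ f : ℂ → ℂ, DifferentiableOn ℂ f (Metric.ball (0 : ℂ) 1) → f 0 = 0 → deriv f 0 = 1 →
        ∃ c : ℂ, Metric.ball c B ⊆
          {w : ℂ | ∃ γ : ℝ → ℂ, ContinuousOn γ (Set.Icc (0 : ℝ) 1) ∧ γ 0 = 0 ∧
            ∀ t ∈ Set.Icc (0 : ℝ) 1,
              γ t ∈ Metric.ball (0 : ℂ) 1 ∧ f (γ t) = (t : ℂ) * w ∧ deriv f (γ t) ≠ 0}) := by
  rintro ⟨B, hB, h⟩
  obtain ⟨ρ, r0, r1, r2⟩ : ∃ ρ : ℝ, 0 < ρ ∧ ρ ≤ 1 ∧ ρ ≤ B / 4 :=
    ⟨min 1 (B / 4), by positivity, min_le_left _ _, min_le_right _ _⟩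
  obtain ⟨N, hN⟩ := exists_nat_gt (3 / ρ * π / (B / 2))
  have N1 : (0 : ℝ) < N := lt_trans (by positivity) hN
  have N0 : N ≠ 0 := by rintro rfl; simp at N1
  have N2 : (N : ℂ) ≠ 0 := by exact_mod_cast N0
  have rc : (ρ : ℂ) ≠ 0 := by exact_mod_cast r0.ne'
  have hR : 1 ≤ (1 / ρ) ^ N := one_le_pow₀ (by rw [le_div_iff₀ r0]; linarith)
  obtain ⟨P, dP, P0, sy, hP⟩ := exP hR
  have dE : ∀ Z, HasDerivAt (fun Z => Z * cexp (P Z)) (cexp (P Z) * (1 + Z * deriv P Z)) Z :=
    fun Z => ((hasDerivAt_id' Z).mul (dP Z).hasDerivAt.cexp).congr_deriv (by ring)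
  have df : ∀ z, HasDerivAt (fun z => z * cexp (P ((z / ρ) ^ N) / N))
      (cexp (P ((z / ρ) ^ N) / N) * (1 + (z / ρ) ^ N * deriv P ((z / ρ) ^ N))) z := fun z => by
    refine ((hasDerivAt_id' z).mul (((dP _).hasDerivAt.comp z
      (((hasDerivAt_id' z).div_const (ρ : ℂ)).pow N)).div_const (N : ℂ)).cexp).congr_deriv ?_
    obtain ⟨M, rfl⟩ := Nat.exists_eq_succ_of_ne_zero N0
    simp only [Function.comp, Pi.pow_apply, Nat.succ_sub_one, pow_succ]
    field_simp
  obtain ⟨c, hc⟩ := h _ (fun z _ => (df z).differentiableAt.differentiableWithinAt) (by simp)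
    (by rw [(df 0).deriv]; simp [N0, P0])
  have key : ∀ w ∈ ball c B, ‖(w / ρ) ^ N‖ ≤ 3 * ((1 / ρ) ^ N) ^ 2 ∧
      (((w / ρ) ^ N).im = 0 → ((w / ρ) ^ N).re ≤ 1) := fun w hw => by
    obtain ⟨γ, g1, g2, g3⟩ := hc hw
    have hb : ∀ Z ∈ K ((1 / ρ) ^ N), ‖deriv (fun Z => Z * cexp (P Z)) Z - (1 - 2 * Z)‖ ≤ 1 / 4 :=
      fun Z hZ => (dE Z).deriv ▸ hP Z hZ
    have H : ∀ t ∈ Icc (0 : ℝ) 1, ‖(γ t / ρ) ^ N‖ ≤ (1 / ρ) ^ N ∧
        (γ t / ρ) ^ N * cexp (P ((γ t / ρ) ^ N)) = (t ^ N : ℝ) * (w / ρ) ^ N ∧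
        deriv (fun Z => Z * cexp (P Z)) ((γ t / ρ) ^ N) ≠ 0 := fun t ht => by
      obtain ⟨a1, a2, a3⟩ := g3 t ht
      refine ⟨?_, ?_, ?_⟩
      · rw [norm_pow, norm_div, norm_real, Real.norm_of_nonneg r0.le]
        gcongr
        exact (mem_ball_zero_iff.1 a1).le
      · rw [ofReal_pow, ← mul_pow, ← mul_div_assoc, ← a2, mul_div_right_comm, mul_pow,
          ← Complex.exp_nat_mul, mul_div_cancel₀ _ N2]
      · rw [(df _).deriv] at a3
        rw [(dE _).deriv]
        exact mul_ne_zero (Complex.exp_ne_zero _) (right_ne_zero_of_mul a3)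
    have L := lift hR (fun Z => (dE Z).differentiableAt) (fun Z => by simp [sy]) hb
      ((g1.div_const _).pow N) (by simp [g2, N0]) (fun t ht => pow_pos ht N) H
    obtain ⟨b1, b2, -⟩ := H 1 (right_mem_Icc.2 zero_le_one)
    have e := err (fun Z => (dE Z).differentiableAt) hb ⟨L.1, mem_closedBall_zero_iff.2 b1⟩
      (y := 0) ⟨show (0 : ℂ).re ≤ 3 / 4 by norm_num, mem_closedBall_self (by linarith)⟩
    simp only [b2, one_pow, ofReal_one, one_mul, zero_mul, sub_zero, Pi.pow_apply] at e L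
    generalize (w / ρ) ^ N = v at e L
    generalize (γ 1 / ρ) ^ N = Z at e L b1
    generalize (1 / ρ) ^ N = R at *
    refine ⟨?_, fun hv => ?_⟩
    · have h1 := norm_sub_norm_le v (Z * (1 - Z))
      have h2 := norm_sub_le 1 Z
      rw [norm_mul] at h1
      rw [norm_one] at h2
      nlinarith [mul_le_mul b1 (h2.trans (by linarith : _ ≤ 1 + R)) (norm_nonneg _) (by linarith)]
    · obtain ⟨x, rfl⟩ : ∃ x : ℝ, Z = x := ⟨Z.re, Complex.ext rfl (by simp [L.2 hv])⟩
      have h1 := (abs_le.1 ((abs_re_le_norm _).trans e)).2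
      simp only [sub_re, mul_re, ofReal_re, ofReal_im, one_re, zero_mul, sub_zero, norm_real,
        Real.norm_eq_abs] at h1
      nlinarith [sq_nonneg (|x| - 1), sq_abs x, le_abs_self x]
  have mem : ∀ β : ℝ, (‖c‖ + B / 2) * |β - arg c| < B / 2 →
      ((‖c‖ + B / 2 : ℝ) : ℂ) * cexp (I * β) ∈ ball c B := fun β hβ => by
    rw [mem_ball_iff_norm]
    nth_rewrite 2 [← norm_mul_exp_arg_mul_I c]
    rw [show ((‖c‖ + B / 2 : ℝ) : ℂ) * cexp (I * β) - ‖c‖ * cexp (arg c * I) = cexp (arg c * I) *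
      ((‖c‖ + B / 2 : ℝ) * (cexp (I * (β - arg c : ℝ)) - 1) + (B / 2 : ℝ)) by
        rw [show cexp (I * β) = cexp (arg c * I) * cexp (I * (β - arg c : ℝ)) by
          rw [← Complex.exp_add]; push_cast; ring_nf]
        push_cast; ring, norm_mul, norm_exp_ofReal_mul_I, one_mul]
    refine (norm_add_le _ _).trans_lt ?_
    rw [norm_mul, norm_real, norm_real, Real.norm_of_nonneg (by positivity),
      Real.norm_of_nonneg (by positivity)]
    have := mul_le_mul_of_nonneg_left (norm_exp_I_mul_ofReal_sub_one_le (x := β - arg c))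
      (show 0 ≤ ‖c‖ + B / 2 by positivity)
    rw [Real.norm_eq_abs] at this
    linarith
  by_cases hc : 3 / ρ < ‖c‖ + B / 2
  · have := (key _ (mem (arg c) (by simpa using hB))).1
    rw [norm_pow, norm_div, norm_mul, mul_comm I, norm_exp_ofReal_mul_I, mul_one, norm_real,
      norm_real, Real.norm_of_nonneg (by positivity), Real.norm_of_nonneg r0.le] at this
    have h1 : (3 * (1 / ρ) ^ 2) ^ N < ((‖c‖ + B / 2) / ρ) ^ N := by
      refine pow_lt_pow_left₀ ?_ (by positivity) N0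
      rw [lt_div_iff₀ r0]
      exact lt_of_eq_of_lt (by field_simp) hc
    rw [mul_pow, ← pow_mul, mul_comm 2, pow_mul] at h1
    have h2 : (3 : ℝ) ≤ 3 ^ N := le_self_pow₀ (by norm_num) N0
    nlinarith [mul_le_mul_of_nonneg_right h2 (sq_nonneg ((1 / ρ) ^ N))]
  · set k := round (arg c * N / (2 * π))
    have h1 : |2 * π * k / N - arg c| ≤ π / N := by
      have := abs_sub_round (arg c * N / (2 * π))
      rw [show 2 * π * k / N - arg c = -(2 * π / N) * (arg c * N / (2 * π) - k) by field_simp; ring,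
        abs_mul, abs_neg, abs_of_pos (by positivity)]
      exact (mul_le_mul_of_nonneg_left this (by positivity)).trans (le_of_eq (by ring))
    have h2 := key _ (mem (2 * π * k / N) (by
      refine (mul_le_mul (not_lt.1 hc) h1 (abs_nonneg _) (by positivity)).trans_lt ?_
      rw [div_lt_iff₀ (by positivity)] at hN
      rw [← mul_div_assoc, div_lt_iff₀ N1]; linarith))
    rw [mul_div_right_comm, mul_pow, ← Complex.exp_nat_mul,
      show (N : ℂ) * (I * (2 * π * k / N : ℝ)) = k * (2 * π * I) by push_cast; field_simp,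
      exp_int_mul_two_pi_mul_I, mul_one, ← ofReal_div, ← ofReal_pow] at h2
    have h3 := h2.2 (ofReal_im _)
    rw [ofReal_re] at h3
    exact not_lt.2 h3 (one_lt_pow₀ (by rw [lt_div_iff₀ r0]; linarith [norm_nonneg c]) N0)

end Pool.Agent.S04378
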