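import Pool.Statements.S04380
-- import your own Pool.Agent.* helpers here

set_option autoImplicit false
open Pool Pool.MP_39f9da_an

namespace Pool.Agent.S04380

lemma prim (f : ℤ → ZMod 2) : ∃ F : ℤ → ZMod 2, F 0 = 0 ∧ ∀ j, F j + F (j - 1) = f j := by
  have two : ∀ u : ZMod 2, u + u = 0 := by decide
  refine ⟨fun j => (∑ k ∈ Finset.range j.toNat, f (k + 1)) + ∑ k ∈ Finset.range (-j).toNat, f (-k),
    by simp, fun j => ?_⟩
  rcases le_or_gt j 0 with h | h
  · obtain ⟨n, rfl⟩ : ∃ n : ℕ, j = -n := ⟨(-j).toNat, by omega⟩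
    have e1 : (-(n : ℤ)).toNat = 0 := by omega
    have e2 : (-(n : ℤ) - 1).toNat = 0 := by omega
    have e3 : (-(-(n : ℤ))).toNat = n := by omega
    have e4 : (-(-(n : ℤ) - 1)).toNat = n + 1 := by omega
    simp only [e1, e2, e3, e4, Finset.sum_range_succ, Finset.sum_range_zero, zero_add]
    rw [← add_assoc, two, zero_add]
  · obtain ⟨n, rfl⟩ : ∃ n : ℕ, j = n + 1 := ⟨(j - 1).toNat, by omega⟩
    have e1 : ((n : ℤ) + 1).toNat = n + 1 := by omega
    have e2 : ((n : ℤ) + 1 - 1).toNat = n := by omega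
    have e3 : (-((n : ℤ) + 1)).toNat = 0 := by omega
    have e4 : (-((n : ℤ) + 1 - 1)).toNat = 0 := by omega
    simp only [e1, e2, e3, e4, Finset.sum_range_succ, Finset.sum_range_zero, add_zero]
    rw [add_right_comm, two, zero_add]

lemma integ (D E : ℤ → ℤ → ZMod 2) (h : ∀ i j, D i j + E i j + D (i - 1) j + E i (j - 1) = 0) :
    ∃ T : ℤ → ℤ → ZMod 2, ∀ i j, D i j = T i j + T i (j - 1) ∧ E i j = T i j + T (i - 1) j := by
  obtain ⟨R, -, hR⟩ := prim (fun i => E i 0)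
  choose F F0 hF using fun i => prim (D i)
  have step : ∀ a b c d e f g k r s : ZMod 2, a + b = e → c + d = f → e + g + f + k = 0 →
      (g = r + a + (s + c) ↔ k = r + b + (s + d)) := by decide
  have h1 : ∀ r a b : ZMod 2, a + b = r + a + (r + b) := by decide
  refine ⟨fun i j => R i + F i j, fun i j => ⟨?_, ?_⟩⟩
  · rw [← hF i j]; exact h1 _ _ _
  · induction j using Int.induction_on with
    | zero => simp only [F0, add_zero]; exact (hR i).symm
    | succ n ih =>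
      have := step _ _ _ _ _ _ _ _ (R i) (R (i - 1)) (hF i (n + 1)) (hF (i - 1) (n + 1)) (h i (n + 1))
      rw [add_sub_cancel_right] at this
      exact this.2 ih
    | pred n ih =>
      exact (step _ _ _ _ _ _ _ _ (R i) (R (i - 1)) (hF i (-n)) (hF (i - 1) (-n)) (h i (-n))).1 ih

section
variable {G : Type} [Group G] (a b : G)

def XX : Set (G → ZMod 2 × ZMod 2) :=
  {x | ∀ g, (x g).1 + (x g).2 + (x (a⁻¹ * g)).1 + (x (b⁻¹ * g)).2 = 1}

variable {a b}

lemma mulab (hc : Commute a b) (i j k l : ℤ) :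
    a ^ i * b ^ j * (a ^ k * b ^ l) = a ^ (i + k) * b ^ (j + l) := by
  rw [zpow_add, zpow_add, mul_assoc, ← mul_assoc (b ^ j), ← (hc.zpow_zpow k j).eq]
  simp only [mul_assoc]

lemma coords (hc : Commute a b) (hi : ∀ i j : ℤ, a ^ i * b ^ j = 1 → i = 0 ∧ j = 0) :
    ∃ (r : G → G) (u v : G → ℤ), (∀ g, g = a ^ u g * b ^ v g * r g) ∧
      (∀ g, r (a⁻¹ * g) = r g ∧ u (a⁻¹ * g) = u g - 1 ∧ v (a⁻¹ * g) = v g) ∧
      (∀ g, r (b⁻¹ * g) = r g ∧ u (b⁻¹ * g) = u g ∧ v (b⁻¹ * g) = v g - 1) := by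
  let s : Setoid G := ⟨fun g g' => ∃ i j : ℤ, g' = a ^ i * b ^ j * g,
    fun g => ⟨0, 0, by simp⟩,
    fun {g g'} ⟨i, j, e⟩ => ⟨-i, -j, by rw [e, ← mul_assoc, mulab hc]; simp⟩,
    fun {g g' g''} ⟨i, j, e⟩ ⟨k, l, e'⟩ => ⟨k + i, l + j, by rw [e', e, ← mul_assoc, mulab hc]⟩⟩
  have ex : ∀ g, ∃ i j : ℤ, g = a ^ i * b ^ j * (Quotient.mk s g).out := fun g => Quotient.mk_out (s := s) g
  choose u v huv using ex
  have uniq : ∀ (i j k l : ℤ) (r : G), a ^ i * b ^ j * r = a ^ k * b ^ l * r → i = k ∧ j = l := by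
    intro i j k l r e
    have e1 := mul_right_cancel e
    have := hi (i + -k) (j + -l) (by rw [← mulab hc, e1, mulab hc]; simp)
    omega
  have gen : ∀ (p q : ℤ) (g : G), (Quotient.mk s (a ^ p * b ^ q * g)).out = (Quotient.mk s g).out ∧
      u (a ^ p * b ^ q * g) = p + u g ∧ v (a ^ p * b ^ q * g) = q + v g := by
    intro p q g
    have e : Quotient.mk s (a ^ p * b ^ q * g) = Quotient.mk s g :=
      (Quotient.sound (s := s) ⟨p, q, rfl⟩).symm
    refine ⟨by rw [e], uniq _ _ _ _ (Quotient.mk s g).out ?_⟩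
    rw [← mulab hc, mul_assoc (a ^ p * b ^ q), ← huv g, ← e, ← huv]
  refine ⟨fun g => (Quotient.mk s g).out, u, v, huv, fun g => ?_, fun g => ?_⟩
  · have := gen (-1) 0 g
    simp only [zpow_neg_one, zpow_zero, mul_one, zero_add] at this
    exact ⟨this.1, by omega, this.2.2⟩
  · have := gen 0 (-1) g
    simp only [zpow_neg_one, zpow_zero, one_mul, zero_add] at this
    exact ⟨this.1, this.2.1, by omega⟩

lemma xx_ne (hc : Commute a b) (hi : ∀ i j : ℤ, a ^ i * b ^ j = 1 → i = 0 ∧ j = 0) :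
    ∃ x, x ∈ XX a b := by
  obtain ⟨r, u, v, -, h2, -⟩ := coords hc hi
  refine ⟨fun g => ((u g : ZMod 2), 0), fun g => ?_⟩
  simp only [(h2 g).2.1]
  push_cast
  generalize ((u g : ℤ) : ZMod 2) = z
  revert z; decide

lemma potential (hc : Commute a b) (hi : ∀ i j : ℤ, a ^ i * b ^ j = 1 → i = 0 ∧ j = 0)
    {x y : G → ZMod 2 × ZMod 2} (hx : x ∈ XX a b) (hy : y ∈ XX a b) :
    ∃ θ : G → ZMod 2, ∀ g, (x g).1 + (y g).1 = θ g + θ (b⁻¹ * g) ∧
      (x g).2 + (y g).2 = θ g + θ (a⁻¹ * g) := by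
  obtain ⟨r, u, v, h1, h2, h3⟩ := coords hc hi
  have ea : ∀ (i j : ℤ) (w : G), a⁻¹ * (a ^ i * b ^ j * w) = a ^ (i - 1) * b ^ j * w := by
    intro i j w
    rw [sub_eq_neg_add, zpow_add, zpow_neg_one]; simp only [mul_assoc]
  have eb : ∀ (i j : ℤ) (w : G), b⁻¹ * (a ^ i * b ^ j * w) = a ^ i * b ^ (j - 1) * w := by
    intro i j w
    have := mulab hc 0 (-1) i j
    simp only [zpow_zero, one_mul, zpow_neg_one, zero_add] at this
    rw [← mul_assoc, this, sub_eq_neg_add]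
  have key : ∀ p1 p2 p3 p4 q1 q2 q3 q4 : ZMod 2, p1 + p2 + p3 + p4 = 1 → q1 + q2 + q3 + q4 = 1 →
      p1 + q1 + (p2 + q2) + (p3 + q3) + (p4 + q4) = 0 := by decide
  choose T hT using fun w : G => integ
    (fun i j => (x (a ^ i * b ^ j * w)).1 + (y (a ^ i * b ^ j * w)).1)
    (fun i j => (x (a ^ i * b ^ j * w)).2 + (y (a ^ i * b ^ j * w)).2) (fun i j => by
      have p := hx (a ^ i * b ^ j * w)
      have q := hy (a ^ i * b ^ j * w)
      rw [ea, eb] at p q
      exact key _ _ _ _ _ _ _ _ p q)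
  refine ⟨fun g => T (r g) (u g) (v g), fun g => ?_⟩
  have := hT (r g) (u g) (v g)
  rw [← h1 g] at this
  simp only [(h2 g).1, (h2 g).2.1, (h2 g).2.2, (h3 g).1, (h3 g).2.1, (h3 g).2.2]
  exact this

lemma glue (hc : Commute a b) (hi : ∀ i j : ℤ, a ^ i * b ^ j = 1 → i = 0 ∧ j = 0) :
    ∃ Δ : Finset G, ∀ Ω₁ Ω₂ : Finset G, (∀ d ∈ Δ, ∀ w ∈ Ω₁, d * w ∉ Ω₂) →
      ∀ x₁ ∈ XX a b, ∀ x₂ ∈ XX a b, ∃ z ∈ XX a b,
        (∀ w ∈ Ω₁, z w = x₁ w) ∧ (∀ w ∈ Ω₂, z w = x₂ w) := by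
  classical
  let S : Finset G := {1, a⁻¹, b⁻¹}
  refine ⟨(S ×ˢ S).image (fun p => p.1⁻¹ * p.2), fun Ω₁ Ω₂ h x hx y hy => ?_⟩
  obtain ⟨θ, hθ⟩ := potential hc hi hx hy
  let ψ : G → ZMod 2 := fun g => if ∃ s ∈ S, ∃ w ∈ Ω₁, g = s * w then 0 else θ g
  have p0 : ∀ s ∈ S, ∀ w ∈ Ω₁, ψ (s * w) = 0 := fun s hs w hw => if_pos ⟨s, hs, w, hw, rfl⟩
  have p1 : ∀ s ∈ S, ∀ w ∈ Ω₂, ψ (s * w) = θ (s * w) := by
    intro s hs w hw
    apply if_neg
    rintro ⟨s', hs', w', hw', e⟩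
    refine h (s⁻¹ * s') (Finset.mem_image.2 ⟨(s, s'), Finset.mem_product.2 ⟨hs, hs'⟩, rfl⟩) w' hw' ?_
    rw [mul_assoc, ← e]; simpa using hw
  have m1 : (1 : G) ∈ S := by simp [S]
  have ma : a⁻¹ ∈ S := by simp [S]
  have mb : b⁻¹ ∈ S := by simp [S]
  refine ⟨fun g => ((x g).1 + (ψ g + ψ (b⁻¹ * g)), (x g).2 + (ψ g + ψ (a⁻¹ * g))), fun g => ?_,
    fun w hw => ?_, fun w hw => ?_⟩
  · have e : a⁻¹ * (b⁻¹ * g) = b⁻¹ * (a⁻¹ * g) := by
      rw [← mul_assoc, ← mul_assoc, hc.inv_inv.eq]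
    have key : ∀ p1 p2 p3 p4 s t u v : ZMod 2, p1 + p2 + p3 + p4 = 1 →
        p1 + (s + t) + (p2 + (s + u)) + (p3 + (u + v)) + (p4 + (t + v)) = 1 := by decide
    simp only [e]
    exact key _ _ _ _ _ _ _ _ (hx g)
  · have a0 := p0 1 m1 w hw
    rw [one_mul] at a0
    simp [a0, p0 _ ma w hw, p0 _ mb w hw]
  · have a0 := p1 1 m1 w hw
    rw [one_mul] at a0
    have key : ∀ p q : ZMod 2, p + (p + q) = q := by decide
    simp only [a0, p1 _ ma w hw, p1 _ mb w hw, ← (hθ w).1, ← (hθ w).2, key]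

lemma odd_ord {K : Type} [Group K] [Finite K] (c t : K) (h : t * c * t⁻¹ = c ^ 2) : Odd (orderOf c) := by
  have e1 : orderOf (c ^ 2) = orderOf c := by
    rw [← h]
    exact (MulEquiv.orderOf_eq (MulAut.conj t) c)
  rw [orderOf_pow] at e1
  have pos := orderOf_pos c
  rcases Nat.even_or_odd (orderOf c) with g | g
  · rw [Nat.gcd_eq_right (even_iff_two_dvd.1 g)] at e1
    omega
  · exact g

lemma odd_period {A : Type} (y : G → A) (hy : (Set.range (fun g : G => fun h : G => y (h * g))).Finite)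
    (c t : G) (h : t * c * t⁻¹ = c ^ 2) : ∃ m : ℕ, Odd m ∧ ∀ g, y (g * c ^ m) = y g := by
  letI : MulAction G (G → A) :=
    { smul := fun g y h => y (h * g)
      one_smul := fun y => funext fun h => congrArg y (mul_one h)
      mul_smul := fun g g' y => funext fun h => congrArg y (mul_assoc h g g').symm }
  haveI : Finite (MulAction.orbit G y) := hy
  let f := MulAction.toPermHom G (MulAction.orbit G y)
  refine ⟨orderOf (f c), odd_ord (f c) (f t) (by rw [← map_inv, ← map_mul, ← map_mul, h, map_pow]),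
    fun g => ?_⟩
  have e : f (c ^ orderOf (f c)) = 1 := by rw [map_pow, pow_orderOf_eq_one]
  have := congrArg (fun p : Equiv.Perm (MulAction.orbit G y) =>
    ((p ⟨y, MulAction.mem_orbit_self y⟩ : MulAction.orbit G y) : G → A) g) e
  exact this

lemma tele (f : ℤ → ZMod 2) (m : ℕ) (h : f (m - 1) = f (-1)) :
    ∑ i ∈ Finset.range m, (f i + f (i - 1)) = 0 := by
  have : ∀ n : ℕ, ∑ i ∈ Finset.range n, (f i + f (i - 1)) = f (n - 1) + f (-1) := by
    intro n
    induction n with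
    | zero => simp; generalize f (-1) = z; revert z; decide
    | succ n ih =>
      rw [Finset.sum_range_succ, ih]
      push_cast
      rw [add_sub_cancel_right]
      generalize f (-1) = z; generalize f (n - 1) = w; generalize f n = v
      revert z w v; decide
  rw [this, h]; generalize f (-1) = z; revert z; decide

lemma no_periodic (hc : Commute a b) (t : G) (ha : t * a * t⁻¹ = a ^ 2) (hb : t * b * t⁻¹ = b ^ 2)
    (y : G → ZMod 2 × ZMod 2) (hy : y ∈ XX a b)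
    (hf : (Set.range (fun g : G => fun h : G => y (h * g))).Finite) : False := by
  obtain ⟨m, m1, m2⟩ := odd_period y hf a t ha
  obtain ⟨n, n1, n2⟩ := odd_period y hf b t hb
  have c : ∀ i j : ℤ, ((y (a ^ i * b ^ j)).1 + (y (a ^ (i - 1) * b ^ j)).1) +
      ((y (a ^ i * b ^ j)).2 + (y (a ^ i * b ^ (j - 1))).2) = 1 := by
    intro i j
    have p := hy (a ^ i * b ^ j)
    have e1 := mulab hc (-1) 0 i j
    have e2 := mulab hc 0 (-1) i j
    simp only [zpow_zero, one_mul, mul_one, zpow_neg_one, zero_add] at e1 e2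
    rw [e1, e2, ← sub_eq_neg_add, ← sub_eq_neg_add] at p
    rw [← p]; ring
  have s1 : ∀ j : ℤ, ∑ i ∈ Finset.range m, ((y (a ^ (i : ℤ) * b ^ j)).1 + (y (a ^ ((i : ℤ) - 1) * b ^ j)).1) = 0 := by
    intro j
    apply tele (fun i => (y (a ^ i * b ^ j)).1) m
    have e := mulab hc (-1) j m 0
    rw [zpow_zero, mul_one, zpow_natCast, add_zero, ← sub_eq_neg_add] at e
    simp only [← e, m2]
  have s2 : ∀ i : ℤ, ∑ j ∈ Finset.range n, ((y (a ^ i * b ^ (j : ℤ))).2 + (y (a ^ i * b ^ ((j : ℤ) - 1))).2) = 0 := by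
    intro i
    apply tele (fun j => (y (a ^ i * b ^ j)).2) n
    have e := mulab hc i (-1) 0 n
    rw [zpow_zero, one_mul, zpow_natCast, add_zero, ← sub_eq_neg_add] at e
    simp only [← e, n2]
  have tot : ∑ i ∈ Finset.range m, ∑ j ∈ Finset.range n, (1 : ZMod 2) = 0 := by
    have e : ∀ i : ℕ, ∑ j ∈ Finset.range n, (1 : ZMod 2) = ∑ j ∈ Finset.range n,
        ((y (a ^ (i : ℤ) * b ^ (j : ℤ))).1 + (y (a ^ ((i : ℤ) - 1) * b ^ (j : ℤ))).1) := by
      intro i
      rw [← add_zero (∑ j ∈ Finset.range n, (_ + _)), ← s2 i, ← Finset.sum_add_distrib]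
      exact Finset.sum_congr rfl (fun j _ => (c i j).symm)
    rw [Finset.sum_congr rfl (fun i _ => e i)]
    rw [Finset.sum_comm]
    simp only [s1, Finset.sum_const_zero]
  simp only [Finset.sum_const, Finset.card_range, nsmul_eq_mul, mul_one] at tot
  rw [(ZMod.natCast_eq_one_iff_odd).2 m1, (ZMod.natCast_eq_one_iff_odd).2 n1] at tot
  revert tot; decide

end

abbrev Amb := (n : ℕ) → Equiv.Perm (ZMod (2 * n + 1) × ZMod (2 * n + 1))

def tr (p q : ℤ) : Amb := fun _ => Equiv.addLeft ((p : ZMod _), (q : ZMod _))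

def db : Amb := fun n =>
  { toFun := fun z => (2 * z.1, 2 * z.2)
    invFun := fun z => (((n + 1 : ℕ) : ZMod _) * z.1, ((n + 1 : ℕ) : ZMod _) * z.2)
    left_inv := fun z => by
      have e : ((n + 1 : ℕ) : ZMod (2 * n + 1)) * 2 = 1 := by
        have := ZMod.natCast_self (2 * n + 1)
        push_cast at this ⊢
        linear_combination this
      simp only [← mul_assoc, e, one_mul]
    right_inv := fun z => by
      have e : 2 * ((n + 1 : ℕ) : ZMod (2 * n + 1)) = 1 := by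
        have := ZMod.natCast_self (2 * n + 1)
        push_cast at this ⊢
        linear_combination this
      simp only [← mul_assoc, e, one_mul] }

lemma tr_mul (p q p' q' : ℤ) : tr p q * tr p' q' = tr (p + p') (q + q') := by
  funext n; ext z <;> simp [tr, add_assoc]

lemma tr_zero : tr 0 0 = 1 := by
  funext n; ext z <;> simp [tr]

lemma tr_zpow (p q i : ℤ) : tr p q ^ i = tr (i * p) (i * q) := by
  induction i using Int.induction_on with
  | zero => simp [tr_zero]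
  | succ n ih => rw [zpow_add_one, ih, tr_mul]; congr 1 <;> ring
  | pred n ih =>
    rw [zpow_sub_one, ih, mul_inv_eq_iff_eq_mul, tr_mul]; congr 1 <;> ring

lemma tr_inj (p q : ℤ) (h : tr p q = 1) : p = 0 ∧ q = 0 := by
  have key : ∀ n : ℕ, ((2 * n + 1 : ℕ) : ℤ) ∣ p ∧ ((2 * n + 1 : ℕ) : ℤ) ∣ q := by
    intro n
    have := congrArg (fun f : Amb => f n (0, 0)) h
    simp only [tr, Pi.one_apply, Equiv.Perm.coe_one, id, Equiv.coe_addLeft, Prod.mk_add_mk, add_zero,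
      Prod.mk.injEq] at this
    exact ⟨(ZMod.intCast_zmod_eq_zero_iff_dvd _ _).1 this.1, (ZMod.intCast_zmod_eq_zero_iff_dvd _ _).1 this.2⟩
  exact ⟨Int.eq_zero_of_abs_lt_dvd (key p.natAbs).1 (by rw [← Int.natCast_natAbs]; omega),
    Int.eq_zero_of_abs_lt_dvd (key q.natAbs).2 (by rw [← Int.natCast_natAbs]; omega)⟩

lemma db_tr (p q : ℤ) : db * tr p q * db⁻¹ = tr p q ^ 2 := by
  rw [mul_inv_eq_iff_eq_mul, sq, tr_mul]
  funext n; ext z <;> simp [tr, db] <;> ring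

/-- the finitely generated group generated by two translations and the doubling map -/
def GG : Subgroup Amb := Subgroup.closure {tr 1 0, tr 0 1, db}

def ga : GG := ⟨tr 1 0, Subgroup.subset_closure (by simp)⟩
def gb : GG := ⟨tr 0 1, Subgroup.subset_closure (by simp)⟩
def gt : GG := ⟨db, Subgroup.subset_closure (by simp)⟩

lemma gg_rf (g : GG) (hg : g ≠ 1) : ∃ H : Subgroup GG, H.FiniteIndex ∧ g ∉ H := by
  have : ∃ n, (g : Amb) n ≠ 1 := by
    by_contra hn
    push Not at hn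
    exact hg (Subtype.ext (funext hn))
  obtain ⟨n, hn⟩ := this
  exact ⟨((Pi.evalMonoidHom _ n).comp GG.subtype).ker, Subgroup.finiteIndex_ker _, hn⟩


/-- The negation of the preceding statement: For every residually finite group G and finite alphabet, every strongly irreducible subshift of finite type X over G has its finite-orbit configurations dense: any point of X can be matched on any finite set by a periodic point of X. -/
theorem result :
    ¬ (∀ (G : Type) [Group G],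
    (∀ g : G, g ≠ 1 → ∃ H : Subgroup G, H.FiniteIndex ∧ g ∉ H) →
    ∀ (A : Type) [Fintype A] (X : Set (G → A)),
      (∃ (S : Finset G) (P : Set (S → A)),
        X = {x | ∀ g : G, (fun s : S => x (s.1 * g)) ∈ P}) →
      (∃ Δ : Finset G, ∀ Ω₁ Ω₂ : Finset G,
        (∀ d ∈ Δ, ∀ w ∈ Ω₁, d * w ∉ Ω₂) →
        ∀ x₁ ∈ X, ∀ x₂ ∈ X, ∃ z ∈ X,
          (∀ w ∈ Ω₁, z w = x₁ w) ∧ (∀ w ∈ Ω₂, z w = x₂ w)) →
      ∀ x ∈ X, ∀ F : Finset G, ∃ y ∈ X,
        (Set.range (fun g : G => fun h : G => y (h * g))).Finite ∧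
        ∀ h ∈ F, y h = x h) := by
  intro H
  classical
  have hc : Commute ga gb := Subtype.ext (by
    show tr 1 0 * tr 0 1 = tr 0 1 * tr 1 0
    rw [tr_mul, tr_mul]; rfl)
  have hi : ∀ i j : ℤ, ga ^ i * gb ^ j = 1 → i = 0 ∧ j = 0 := by
    intro i j e
    have e' : tr 1 0 ^ i * tr 0 1 ^ j = 1 := by
      have := congrArg Subtype.val e
      simpa [ga, gb] using this
    rw [tr_zpow, tr_zpow, tr_mul] at e'
    simpa using tr_inj _ _ e'
  obtain ⟨x, hx⟩ := xx_ne hc hi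
  obtain ⟨y, hy, hf, -⟩ := H GG gg_rf (ZMod 2 × ZMod 2) (XX ga gb)
    ⟨{1, ga⁻¹, gb⁻¹}, {p | (p ⟨1, by simp⟩).1 + (p ⟨1, by simp⟩).2 + (p ⟨ga⁻¹, by simp⟩).1
      + (p ⟨gb⁻¹, by simp⟩).2 = 1}, by ext x; simp [XX]⟩ (glue hc hi) x hx ∅
  exact no_periodic hc gt (Subtype.ext (db_tr 1 0)) (Subtype.ext (db_tr 0 1)) y hy hf

end Pool.Agent.S04380
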