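import Pool.Statements.S04412
import Pool.Agent.H87.NSD3

set_option autoImplicit false
open Filter Topology
open Pool Pool.MP_3d1c33_an

namespace Pool.Agent.S04412

theorem result :
    ¬ (∀ (𝕜 : Type) [RCLike 𝕜] (E : Type) [NormedAddCommGroup E] [NormedSpace 𝕜 E]
      [CompleteSpace E],
      (∃ v : ℕ → (E →L[𝕜] E),
        (∀ n, v n ≠ 0) ∧
        (∀ n m, (v n).comp (v m) = if n = m then v n else 0) ∧
        (∀ x : E, Tendsto (fun N => ∑ n ∈ Finset.range N, v n x) atTop (𝓝 x))) →
      ∃ w : ℕ → (E →L[𝕜] E),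
        (∀ n, w n ≠ 0) ∧
        (∀ n m, (w n).comp (w m) = if n = m then w n else 0) ∧
        (∀ x : E, Tendsto (fun N => ∑ n ∈ Finset.range N, w n x) atTop (𝓝 x)) ∧
        (∀ n, ‖w n‖ = 1)) := by
  intro h
  open Pool.Agent.H87.NSD in
  obtain ⟨w, h0, h1, h2, h3⟩ := h ℝ Z ⟨fun n => (eZ.symm : JL →L[ℝ] Z).comp
      ((vv n).comp (eZ : Z →L[ℝ] JL)), fun n hn => vv_ne n (ContinuousLinearMap.ext fun x => by
        simpa using congrArg (fun T : Z →L[ℝ] Z => T (eZ.symm x)) hn), fun n m => by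
        refine ContinuousLinearMap.ext fun x => ?_
        have := congrArg (fun T : JL →L[ℝ] JL => T (eZ x)) (vv_comp n m)
        split_ifs at this ⊢ <;> simpa using this, fun x => by
        have := (eZ.symm.continuous.tendsto _).comp (vv_tend (eZ x))
        rw [eZ.symm_apply_apply] at this
        simpa [Function.comp_def] using this⟩
  exact Pool.Agent.H87.NSD.no_normal w h0 h1 h2 h3

end Pool.Agent.S04412
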