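import Pool.Statements.S04418
import Pool.Agent.H96.SG6

set_option autoImplicit false
open Pool Pool.MP_3d411c_an

namespace Pool.Agent.S04418


/-- The negation of the preceding statement: Let R be a commutative complex Banach algebra in which every element is quasinilpotent. If R has a map a on (0,∞) with a(s+t)=a(s)a(t) that is not identically zero, then it has such a map that is also norm-continuous on (0,∞). -/
theorem result :
    ¬ (∀ (R : Type) [NonUnitalNormedCommRing R] [NormedSpace ℂ R] [IsScalarTower ℂ R R]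
      [SMulCommClass ℂ R R] [CompleteSpace R],
      (∀ x : R, spectrum ℂ (Unitization.inr x : Unitization ℂ R) ⊆ {0}) →
      (∃ a : ℝ → R, (∀ s t : ℝ, 0 < s → 0 < t → a (s + t) = a s * a t) ∧
          ∃ t : ℝ, 0 < t ∧ a t ≠ 0) →
      ∃ b : ℝ → R, (∀ s t : ℝ, 0 < s → 0 < t → b (s + t) = b s * b t) ∧
          (∃ t : ℝ, 0 < t ∧ b t ≠ 0) ∧ ContinuousOn b (Set.Ioi 0)) := by
  intro h
  let ι : ℝ →+ ℝ := AddMonoidHom.id ℝ
  obtain ⟨b, h1, ⟨t, ht, h2⟩, h3⟩ := h (Pool.Agent.H96.SG.Alg ι) Pool.Agent.H96.SG.Alg.radical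
    ⟨fun t => if h : 0 < t then ((Real.exp (-t ^ 2) : ℝ) : ℂ) •
        Pool.Agent.H96.SG.da (ι := ι) ⟨t, h⟩ else 0, fun s t hs ht => by
      simp only [dif_pos hs, dif_pos ht, dif_pos (add_pos hs ht)]
      rw [smul_mul_smul_comm, Pool.Agent.H96.SG.da_mul, smul_smul]
      congr 1
      unfold Pool.Agent.H96.SG.cf
      rw [← Complex.ofReal_mul, ← Complex.ofReal_mul, ← Real.exp_add, ← Real.exp_add]
      congr 2
      simp only [ι, AddMonoidHom.id_apply]; ring, 1, one_pos, fun h0 => by
      simp only [dif_pos one_pos] at h0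
      have := congrArg norm h0
      rw [norm_smul, Pool.Agent.H96.SG.da_norm] at this
      simp at this⟩
  exact h2 (Pool.Agent.H96.SG.Alg.no_semigroup (ι := ι) Function.injective_id b h1 h3 ht)

end Pool.Agent.S04418
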