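import Pool.Statements.S04455
import Pool.Agent.Lead.ER.E

set_option autoImplicit false
open Pool Pool.MP_410a69_an

namespace Pool.Agent.S04455

/-- If w≥0 is bounded on [-1,1] with support [-1,1] and the monic orthogonal polynomials' L²(w dx)-norms have k-th roots tending to 1/2, then removing Lebesgue measure ≤ε from {w>0} leaves a set whose log capacity tends to 1/2 as ε→0. -/
theorem result :
    ∀ w : ℝ → ℝ, Measurable w → (∀ x, 0 ≤ w x) → (∃ M : ℝ, ∀ x, w x ≤ M) →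
      (∀ a b : ℝ, -1 ≤ a → a < b → b ≤ 1 → 0 < ∫ x in a..b, w x) →
      Filter.Tendsto
        (fun k : ℕ =>
          (sInf {t : ℝ | ∃ q : Polynomial ℝ, q.Monic ∧ q.natDegree = k ∧
              t = Real.sqrt (∫ x in (-1:ℝ)..1, (q.eval x) ^ 2 * w x)}) ^ ((1:ℝ) / k))
        Filter.atTop (nhds (1 / 2)) →
      ∀ η : ℝ, 0 < η → ∃ ε : ℝ, 0 < ε ∧
        ∀ E : Set ℝ, MeasurableSet E →
          E ⊆ {x : ℝ | x ∈ Set.Icc (-1:ℝ) 1 ∧ 0 < w x} →
          MeasureTheory.volume ({x : ℝ | x ∈ Set.Icc (-1:ℝ) 1 ∧ 0 < w x} \ E) ≤ ENNReal.ofReal ε →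
          1 / 2 - η ≤ sSup {c : ℝ | ∃ F : Set ℝ, IsCompact F ∧ F ⊆ E ∧
            c = sInf {s : ℝ | ∃ n : ℕ, 1 ≤ n ∧
              s = (sInf {t : ℝ | ∃ q : Polynomial ℝ, q.Monic ∧ q.natDegree = n ∧
                    t = sSup ((fun x => |q.eval x|) '' F)}) ^ ((1:ℝ) / n)}} := by
  intro w hw h0 ⟨M, hM⟩ _ hlim η hη
  haveI := Lead.ER.mu_fin w hw h0 M hM
  simp only [← Lead.ER.nrm_mu w hw h0] at hlim
  have hreg := Lead.ER.reg_of_tendsto _ (Lead.ER.mu_ae w) hlim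
  have hnn : ∀ (F : Set ℝ) (n : ℕ), 0 ≤ sInf {t : ℝ | ∃ q : Polynomial ℝ, q.Monic ∧ q.natDegree = n ∧
      t = sSup ((fun x => |q.eval x|) '' F)} := fun F n =>
    Real.sInf_nonneg (by
      rintro t ⟨q, -, -, rfl⟩
      exact Real.sSup_nonneg (by rintro _ ⟨x, -, rfl⟩; exact abs_nonneg _))
  by_cases hc : 1 / 2 - η ≤ 0
  · refine ⟨1, one_pos, fun E _ _ _ => hc.trans (Real.sSup_nonneg ?_)⟩
    rintro _ ⟨F, -, -, rfl⟩
    apply Real.sInf_nonneg
    rintro _ ⟨n, -, rfl⟩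
    exact Real.rpow_nonneg (hnn F n) _
  push Not at hc
  obtain ⟨ε, hε, H⟩ := Lead.ER.core w hw h0 M hM hreg _ hc (by linarith)
  refine ⟨ε / 2, by positivity, fun E hE hEW hv => ?_⟩
  have hEfin : MeasureTheory.volume E ≠ ⊤ :=
    ((MeasureTheory.measure_mono (fun x hx => (hEW hx).1)).trans_lt
      (isCompact_Icc (a := (-1:ℝ)) (b := 1)).measure_lt_top).ne
  obtain ⟨F, hFE, hFc, hFv⟩ := hE.exists_isCompact_sdiff_lt hEfin
    (show ENNReal.ofReal (ε / 2) ≠ 0 by simpa using hε)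
  have hv2 : MeasureTheory.volume ({x : ℝ | x ∈ Set.Icc (-1:ℝ) 1 ∧ 0 < w x} \ F) ≤
      ENNReal.ofReal ε := by
    have : {x : ℝ | x ∈ Set.Icc (-1:ℝ) 1 ∧ 0 < w x} \ F ⊆
        ({x : ℝ | x ∈ Set.Icc (-1:ℝ) 1 ∧ 0 < w x} \ E) ∪ (E \ F) := by
      intro x hx
      by_cases h : x ∈ E
      · exact Or.inr ⟨h, hx.2⟩
      · exact Or.inl ⟨hx.1, h⟩
    refine (MeasureTheory.measure_mono this).trans ((MeasureTheory.measure_union_le _ _).trans ?_)
    rw [show ε = ε / 2 + ε / 2 by ring, ENNReal.ofReal_add (by positivity) (by positivity)]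
    exact add_le_add hv hFv.le
  refine le_csSup_of_le ⟨1, ?_⟩ (by exact ⟨F, hFc, hFE, rfl⟩) ?_
  swap
  · refine le_csInf (by exact ⟨_, 1, le_rfl, rfl⟩) ?_
    rintro _ ⟨n, hn, rfl⟩
    by_contra hlt
    push Not at hlt
    have h1 := pow_lt_pow_left₀ hlt (Real.rpow_nonneg (hnn F n) _) (show n ≠ 0 by omega)
    rw [one_div (n:ℝ), Real.rpow_inv_natCast_pow (hnn F n) (by omega)] at h1
    obtain ⟨_, ⟨q, hq, hqn, rfl⟩, hq2⟩ := exists_lt_of_csInf_lt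
      (by exact ⟨_, Polynomial.X ^ n, Polynomial.monic_X_pow n, Polynomial.natDegree_X_pow n, rfl⟩) h1
    apply H F hFc.measurableSet hv2 q hq (by omega)
    intro x hx
    rw [hqn]
    refine le_trans (le_csSup (hFc.bddAbove_image (by fun_prop)) (by exact ⟨x, hx, rfl⟩)) hq2.le
  · rintro _ ⟨G, -, hGE, rfl⟩
    refine csInf_le_of_le ⟨0, ?_⟩ (by exact ⟨1, le_rfl, rfl⟩) ?_
    · rintro _ ⟨n, -, rfl⟩
      exact Real.rpow_nonneg (hnn G n) _
    · apply Real.rpow_le_one (hnn G 1) _ (by norm_num)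
      refine csInf_le_of_le ⟨0, ?_⟩ (by exact ⟨Polynomial.X, Polynomial.monic_X,
        Polynomial.natDegree_X, rfl⟩) ?_
      · rintro t ⟨q, -, -, rfl⟩
        exact Real.sSup_nonneg (by rintro _ ⟨x, -, rfl⟩; exact abs_nonneg _)
      · apply Real.sSup_le _ zero_le_one
        rintro _ ⟨x, hx, rfl⟩
        simpa using abs_le.mpr (hEW (hGE hx)).1

end Pool.Agent.S04455
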