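import Pool.Statements.S04462
import Pool.Agent.H63.Cogen2

set_option autoImplicit false
open Filter Topology
open Pool Pool.MP_413ec1_an

namespace Pool.Agent.S04462

/-- The negation of the preceding statement: On a complex Banach space, suppose A generates a bounded C0-semigroup and its inverse A⁻¹ also generates a bounded C0-semigroup. Then the bounded operator V with V(Ax−x)=Ax+x for all x in the domain of A has uniformly bounded powers. -/
theorem result :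
    ¬ (∀ (E : Type) [NormedAddCommGroup E] [NormedSpace ℂ E] [CompleteSpace E]
      (T S : ℝ → E →L[ℂ] E),
      T 0 = 1 → S 0 = 1 →
      (∀ s t : ℝ, 0 ≤ s → 0 ≤ t → T (s + t) = T s * T t) →
      (∀ s t : ℝ, 0 ≤ s → 0 ≤ t → S (s + t) = S s * S t) →
      (∀ x : E, ContinuousOn (fun t : ℝ => T t x) (Set.Ici 0)) →
      (∀ x : E, ContinuousOn (fun t : ℝ => S t x) (Set.Ici 0)) →
      (∃ M : ℝ, ∀ t : ℝ, 0 ≤ t → ‖T t‖ ≤ M) →
      (∃ M : ℝ, ∀ t : ℝ, 0 ≤ t → ‖S t‖ ≤ M) →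
      (∀ x y : E,
        Tendsto (fun t : ℝ => t⁻¹ • (T t x - x)) (𝓝[>] 0) (𝓝 y) ↔
          Tendsto (fun t : ℝ => t⁻¹ • (S t y - y)) (𝓝[>] 0) (𝓝 x)) →
      ∀ V : E →L[ℂ] E,
        (∀ x y : E, Tendsto (fun t : ℝ => t⁻¹ • (T t x - x)) (𝓝[>] 0) (𝓝 y) →
          V (y - x) = y + x) →
        ∃ C : ℝ, ∀ n : ℕ, ‖V ^ n‖ ≤ C) := by
  intro h
  obtain ⟨E, _, _, _, A, B, V, h1, h2, h3, h4, h5, h6⟩ := Pool.Agent.H63.Cogen.final
  obtain ⟨a1, a2, a3, a4⟩ := Pool.Agent.H63.Cogen.gen A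
  obtain ⟨b1, b2, b3, b4⟩ := Pool.Agent.H63.Cogen.gen B
  refine h6 (h E (fun t => NormedSpace.exp ((t : ℂ) • A)) (fun t => NormedSpace.exp ((t : ℂ) • B))
    a1 b1 (fun s t _ _ => a2 s t) (fun s t _ _ => b2 s t) (fun x => (a3 x).continuousOn)
    (fun x => (b3 x).continuousOn) ⟨1, fun t _ => h3 t⟩ ⟨1, fun t _ => h4 t⟩ (fun x y => ?_) V
    fun x y hxy => ?_)
  · rw [a4, b4]
    constructor
    · rintro rfl; exact congrArg (fun T : E →L[ℂ] E => T x) h2
    · rintro rfl; exact congrArg (fun T : E →L[ℂ] E => T y) h1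
  · rw [a4] at hxy
    subst hxy
    exact congrArg (fun T : E →L[ℂ] E => T x) h5

end Pool.Agent.S04462
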