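import Pool.Statements.S04486

set_option autoImplicit false
open MeasureTheory ProbabilityTheory
open Pool Pool.MP_42c79c_an

namespace Pool.Agent.S04486

noncomputable def W {n : ℕ} (i j : Fin n) : ℝ := if i = j then 1 else if j < i then -1 / 2 else 0

lemma W_succ {n : ℕ} (i j : Fin n) : W i.succ j.succ = W i j := by
  simp [W]

lemma W_00 {n : ℕ} : W (0 : Fin (n + 1)) 0 = 1 := by simp [W]

lemma W_s0 {n : ℕ} (i : Fin n) : W i.succ 0 = -1 / 2 := by
  simp [W, Fin.succ_ne_zero]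

lemma W_0s {n : ℕ} (i : Fin n) : W 0 i.succ = 0 := by
  simp [W, (Fin.succ_ne_zero i).symm]

lemma W_bd {n : ℕ} (i j : Fin n) : -1 / 2 ≤ W i j ∧ W i j ≤ 1 := by
  unfold W
  split_ifs <;> norm_num

lemma exists_LU (n : ℕ) : ∀ (δ γ : ℝ) (A : Fin (n + 1) → Fin (n + 1) → ℝ), 0 ≤ γ →
    2 ^ n * δ ≤ 1 / 5 → (∀ i j, j ≠ Fin.last n → |A i j - W i j| ≤ δ) →
    (∀ i, γ ≤ A i (Fin.last n)) →
    ∃ L U : Matrix (Fin (n + 1)) (Fin (n + 1)) ℝ,
      (∀ i j, i < j → L i j = 0) ∧ (∀ i, L i i = 1) ∧ (∀ i j, |L i j| ≤ 1) ∧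
      (∀ i j, j < i → U i j = 0) ∧ (∀ i j, A i j = ∑ k, L i k * U k j) ∧
      (5 / 4) ^ n * γ ≤ U (Fin.last n) (Fin.last n) := by
  induction n with
  | zero =>
    intro δ γ A _ _ _ h2
    refine ⟨fun _ _ => 1, A, ?_, ?_, ?_, ?_, ?_, ?_⟩
    · intro i j h
      fin_cases i
      fin_cases j
      simp at h
    · simp
    · simp
    · intro i j h
      fin_cases i
      fin_cases j
      simp at h
    · intro i j
      fin_cases i
      simp
    · simpa using h2 _
  | succ n ih =>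
    intro δ γ A hγ hδ h1 h2
    have h0l : (0 : Fin (n + 2)) ≠ Fin.last (n + 1) := (Fin.last_pos).ne
    have h00 := h1 0 0 h0l
    rw [W_00] at h00
    have hδ0 : 0 ≤ δ := (abs_nonneg _).trans h00
    have hp : (1 : ℝ) ≤ 2 ^ (n + 1) := one_le_pow₀ (by norm_num)
    have hδ1 : δ ≤ 1 / 5 := by nlinarith
    rw [abs_le] at h00
    have hA0 : 0 < A 0 0 := by linarith [h00.1]
    have hl : ∀ i : Fin (n + 1), -1 ≤ A i.succ 0 / A 0 0 ∧ A i.succ 0 / A 0 0 ≤ -1 / 4 := by
      intro i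
      have h := h1 i.succ 0 h0l
      rw [W_s0, abs_le] at h
      constructor
      · rw [le_div_iff₀ hA0]
        linarith [h.1, h00.1]
      · rw [div_le_iff₀ hA0]
        linarith [h.2, h00.2]
    have hl' : ∀ i : Fin (n + 1), |A i.succ 0 / A 0 0| ≤ 1 := by
      intro i
      rw [abs_le]
      constructor <;> linarith [(hl i).1, (hl i).2]
    obtain ⟨L, U, a1, a2, a3, a4, a5, a6⟩ := ih (2 * δ) (5 / 4 * γ)
      (fun i j => A i.succ j.succ - A i.succ 0 / A 0 0 * A 0 j.succ) (by positivity)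
      (by rw [pow_succ] at hδ; linarith)
      (by
        intro i j hj
        have hj' : j.succ ≠ Fin.last (n + 1) := by
          rw [← Fin.succ_last]
          exact fun h => hj (Fin.succ_injective _ h)
        have b1 := h1 i.succ j.succ hj'
        have b2 := h1 0 j.succ hj'
        rw [W_succ] at b1
        rw [W_0s, sub_zero] at b2
        have b3 : |A i.succ 0 / A 0 0 * A 0 j.succ| ≤ δ := by
          rw [abs_mul]
          have := hl' i
          have := abs_nonneg (A 0 j.succ)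
          nlinarith
        rw [abs_le] at b1 b3 ⊢
        constructor <;> linarith [b1.1, b1.2, b3.1, b3.2])
      (by
        intro i
        have b1 := h2 i.succ
        have b2 := h2 0
        have b3 := (hl i).2
        simp only [Fin.succ_last]
        nlinarith)
    refine ⟨fun i j => Fin.cases (Fin.cases 1 (fun i' => A i'.succ 0 / A 0 0) i)
        (fun j' => Fin.cases 0 (fun i' => L i' j') i) j,
      fun i j => Fin.cases (A 0 j) (fun i' => Fin.cases 0 (fun j' => U i' j') j) i,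
      ?_, ?_, ?_, ?_, ?_, ?_⟩
    · intro i j h
      induction j using Fin.cases with
      | zero => simp at h
      | succ j =>
        induction i using Fin.cases with
        | zero => simp
        | succ i => simpa using a1 i j (by simpa using h)
    · intro i
      induction i using Fin.cases with
      | zero => simp
      | succ i => simpa using a2 i
    · intro i j
      induction j using Fin.cases with
      | zero =>
        induction i using Fin.cases with
        | zero => simp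
        | succ i => simpa using hl' i
      | succ j =>
        induction i using Fin.cases with
        | zero => simp
        | succ i => simpa using a3 i j
    · intro i j h
      induction i using Fin.cases with
      | zero => simp at h
      | succ i =>
        induction j using Fin.cases with
        | zero => simp
        | succ j => simpa using a4 i j (by simpa using h)
    · intro i j
      rw [Fin.sum_univ_succ]
      induction i using Fin.cases with
      | zero => simp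
      | succ i =>
        induction j using Fin.cases with
        | zero =>
          simp only [Fin.cases_zero, Fin.cases_succ, mul_zero, Finset.sum_const_zero, add_zero]
          field_simp
        | succ j =>
          simp only [Fin.cases_zero, Fin.cases_succ]
          have := a5 i j
          linarith
    · rw [← Fin.succ_last]
      simp only [Fin.cases_succ]
      rw [pow_succ]
      linarith

lemma gauss_lower (a δ : ℝ) (_hδ : 0 ≤ δ) (ha : -2 ≤ a) (hb : a + δ ≤ 2) :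
    ENNReal.ofReal (δ / 32) ≤ gaussianReal 0 1 (Set.Icc a (a + δ)) := by
  rw [gaussianReal_apply _ one_ne_zero]
  have h1 : ∫⁻ _ in Set.Icc a (a + δ), ENNReal.ofReal (1 / 32)
      ≤ ∫⁻ x in Set.Icc a (a + δ), gaussianPDF 0 1 x := by
    refine setLIntegral_mono' measurableSet_Icc fun x hx => ?_
    rw [gaussianPDF]
    apply ENNReal.ofReal_le_ofReal
    rw [gaussianPDFReal]
    have h2 : √(2 * Real.pi * ((1 : NNReal) : ℝ)) ≤ 3 := by
      apply Real.sqrt_le_iff.2
      refine ⟨by norm_num, ?_⟩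
      have := Real.pi_lt_four
      simp only [NNReal.coe_one]
      linarith
    have h3 : 0 < √(2 * Real.pi * ((1 : NNReal) : ℝ)) := by
      apply Real.sqrt_pos.2
      have := Real.pi_pos
      simp only [NNReal.coe_one]
      linarith
    have h4 : (1 / 3 : ℝ) ≤ (√(2 * Real.pi * ((1 : NNReal) : ℝ)))⁻¹ := by
      rw [one_div]
      exact inv_anti₀ h3 h2
    have h5 : (1 / 9 : ℝ) ≤ Real.exp (-(x - 0) ^ 2 / (2 * ((1 : NNReal) : ℝ))) := by
      have h6 : Real.exp (-2) ≤ Real.exp (-(x - 0) ^ 2 / (2 * ((1 : NNReal) : ℝ))) := by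
        apply Real.exp_le_exp.2
        simp only [NNReal.coe_one]
        have := hx.1
        have := hx.2
        nlinarith
      refine le_trans ?_ h6
      have h7 : Real.exp 2 ≤ 9 := by
        have h8 := Real.exp_one_lt_d9
        have h9 : Real.exp 2 = Real.exp 1 * Real.exp 1 := by
          rw [← Real.exp_add]
          norm_num
        have := Real.exp_pos 1
        nlinarith
      rw [Real.exp_neg, one_div]
      exact inv_anti₀ (Real.exp_pos _) h7
    calc (1 / 32 : ℝ) ≤ 1 / 3 * (1 / 9) := by norm_num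
      _ ≤ _ := mul_le_mul h4 h5 (by norm_num) (by positivity)
  refine le_trans (le_of_eq ?_) h1
  rw [setLIntegral_const, Real.volume_Icc, ← ENNReal.ofReal_mul (by norm_num)]
  congr 1
  ring

lemma exists_n (c₁ c₂ : ℝ) (hc : 0 < c₂) : ∃ n : ℕ,
    (((n + 8) * (n + 1) ^ 2 : ℝ) / c₂ + 1) * (((n + 1 : ℕ) : ℝ) / 1) ^ c₁ * 2 < (5 / 4) ^ n := by
  set K := ⌈c₁⌉₊ with hK
  have h := tendsto_pow_const_div_const_pow_of_one_lt (K + 3) (by norm_num : (1 : ℝ) < 5 / 4)
  set C := 8 / c₂ + 1 with hC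
  have hC0 : 0 < C := by positivity
  obtain ⟨N, hN⟩ := Filter.eventually_atTop.1
    (h.eventually (gt_mem_nhds (by positivity : (0 : ℝ) < 2 / (5 * C))))
  refine ⟨N, ?_⟩
  have h1 := hN (N + 1) (by omega)
  rw [div_lt_div_iff₀ (by positivity) (by positivity)] at h1
  have hm : (1 : ℝ) ≤ ((N + 1 : ℕ) : ℝ) := by exact_mod_cast Nat.le_add_left 1 N
  have h2 : (((N + 1 : ℕ) : ℝ) / 1) ^ c₁ ≤ ((N + 1 : ℕ) : ℝ) ^ K := by
    rw [div_one, ← Real.rpow_natCast]
    exact Real.rpow_le_rpow_of_exponent_le hm (Nat.le_ceil _)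
  have h3 : (((N + 8) * (N + 1) ^ 2 : ℝ) / c₂ + 1) ≤ C * ((N + 1 : ℕ) : ℝ) ^ 3 := by
    have h4 : (1 : ℝ) ≤ ((N + 1 : ℕ) : ℝ) ^ 3 := one_le_pow₀ hm
    have h5 : ((N + 8) * (N + 1) ^ 2 : ℝ) ≤ 8 * ((N + 1 : ℕ) : ℝ) ^ 3 := by
      push_cast
      have : (0 : ℝ) ≤ N := Nat.cast_nonneg N
      nlinarith [sq_nonneg ((N : ℝ) + 1), mul_nonneg this (sq_nonneg ((N : ℝ) + 1))]
    have h6 : ((N + 8) * (N + 1) ^ 2 : ℝ) / c₂ ≤ 8 * ((N + 1 : ℕ) : ℝ) ^ 3 / c₂ := by gcongr
    have h7 : C * ((N + 1 : ℕ) : ℝ) ^ 3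
        = 8 * ((N + 1 : ℕ) : ℝ) ^ 3 / c₂ + ((N + 1 : ℕ) : ℝ) ^ 3 := by
      rw [hC]
      ring
    linarith
  have h4 : (((N + 8) * (N + 1) ^ 2 : ℝ) / c₂ + 1) * (((N + 1 : ℕ) : ℝ) / 1) ^ c₁
      ≤ (C * ((N + 1 : ℕ) : ℝ) ^ 3) * ((N + 1 : ℕ) : ℝ) ^ K :=
    mul_le_mul h3 h2 (by positivity) (by positivity)
  have h5 : (C * ((N + 1 : ℕ) : ℝ) ^ 3) * ((N + 1 : ℕ) : ℝ) ^ K
      = C * ((N + 1 : ℕ) : ℝ) ^ (K + 3) := by ring
  rw [pow_succ (5 / 4 : ℝ) N] at h1
  linarith

/-- The negation of the preceding statement: There are constants c₁ and c₂>0 such that for every n, every σ in (0,1], every real n×n Ā with spectral norm ≤ 1, and every x ≥ 1, the partial-pivoting growth factor of Ā+σG (G i.i.d. standard Gaussian) exceeds x(n/σ)^c₁ with probability ≤ 2^(−c₂x). -/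
theorem result :
    ¬ (∃ c₁ c₂ : ℝ, 0 < c₂ ∧ ∀ n : ℕ, ∀ σ : ℝ, 0 < σ → σ ≤ 1 →
    ∀ Abar : Matrix (Fin n) (Fin n) ℝ,
    (∀ v : Fin n → ℝ, ∑ i, (Abar.mulVec v i) ^ 2 ≤ ∑ i, v i ^ 2) →
    ∀ x : ℝ, 1 ≤ x →
    (Measure.pi fun _ : Fin n => Measure.pi fun _ : Fin n => gaussianReal 0 1)
      {G : Fin n → Fin n → ℝ | ∃ π : Equiv.Perm (Fin n), ∃ L U : Matrix (Fin n) (Fin n) ℝ,
        (∀ i j, i < j → L i j = 0) ∧ (∀ i, L i i = 1) ∧ (∀ i j, |L i j| ≤ 1) ∧
        (∀ i j, j < i → U i j = 0) ∧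
        (Matrix.of fun i j => Abar (π i) j + σ * G (π i) j) = L * U ∧
        x * ((n : ℝ) / σ) ^ c₁ * (⨆ i, ⨆ j, |Abar i j + σ * G i j|) < ⨆ i, ⨆ j, |U i j|}
      ≤ ENNReal.ofReal ((2 : ℝ) ^ (-(c₂ * x)))) := by
  rintro ⟨c₁, c₂, hc, H⟩
  obtain ⟨n, hn⟩ := exists_n c₁ c₂ hc
  set x : ℝ := ((n + 8) * (n + 1) ^ 2 : ℝ) / c₂ + 1 with hx
  have hx1 : 1 ≤ x := by
    have : (0 : ℝ) ≤ ((n + 8) * (n + 1) ^ 2 : ℝ) / c₂ := by positivity
    linarith
  have h := H (n + 1) 1 one_pos le_rfl 0 (by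
    intro v
    simp only [Matrix.zero_mulVec, Pi.zero_apply]
    simpa using Finset.sum_nonneg fun i _ => sq_nonneg (v i)) x hx1
  set δ : ℝ := ((2 : ℝ) ^ (n + 3))⁻¹ with hδ
  have hδ0 : 0 < δ := by positivity
  have hδ1 : 2 ^ n * δ = 1 / 8 := by
    rw [hδ]
    field_simp
    ring
  have hp : (1 : ℝ) ≤ 2 ^ n := one_le_pow₀ (by norm_num)
  have hδ2 : δ ≤ 1 / 8 := by nlinarith
  let a : Fin (n + 1) → Fin (n + 1) → ℝ := fun i j => if j = Fin.last n then 1 else W i j
  have ha : ∀ i j, -1 / 2 ≤ a i j ∧ a i j ≤ 1 := by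
    intro i j
    simp only [a]
    split_ifs
    · norm_num
    · exact W_bd i j
  have hbox : (Set.univ.pi fun i => Set.univ.pi fun j => Set.Icc (a i j) (a i j + δ)) ⊆
      {G : Fin (n + 1) → Fin (n + 1) → ℝ | ∃ π : Equiv.Perm (Fin (n + 1)),
        ∃ L U : Matrix (Fin (n + 1)) (Fin (n + 1)) ℝ,
        (∀ i j, i < j → L i j = 0) ∧ (∀ i, L i i = 1) ∧ (∀ i j, |L i j| ≤ 1) ∧
        (∀ i j, j < i → U i j = 0) ∧
        (Matrix.of fun i j => (0 : Matrix (Fin (n + 1)) (Fin (n + 1)) ℝ) (π i) j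
          + 1 * G (π i) j) = L * U ∧
        x * (((n + 1 : ℕ) : ℝ) / 1) ^ c₁ *
          (⨆ i, ⨆ j, |(0 : Matrix (Fin (n + 1)) (Fin (n + 1)) ℝ) i j + 1 * G i j|)
            < ⨆ i, ⨆ j, |U i j|} := by
    intro G hG
    have hG' : ∀ i j, a i j ≤ G i j ∧ G i j ≤ a i j + δ :=
      fun i j => hG i (Set.mem_univ _) j (Set.mem_univ _)
    obtain ⟨L, U, a1, a2, a3, a4, a5, a6⟩ := exists_LU n δ 1 G zero_le_one (by linarith)
      (by
        intro i j hj
        have := hG' i j
        simp only [a, if_neg hj] at this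
        rw [abs_le]
        constructor <;> linarith [this.1, this.2])
      (by
        intro i
        have := (hG' i (Fin.last n)).1
        simpa [a] using this)
    refine ⟨1, L, U, a1, a2, a3, a4, ?_, ?_⟩
    · ext i j
      simp [Matrix.mul_apply, a5 i j]
    · have b1 : (⨆ i, ⨆ j, |(0 : Matrix (Fin (n + 1)) (Fin (n + 1)) ℝ) i j + 1 * G i j|) ≤ 2 := by
        refine ciSup_le fun i => ciSup_le fun j => ?_
        have := hG' i j
        have := ha i j
        simp only [Matrix.zero_apply, zero_add, one_mul]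
        rw [abs_le]
        constructor <;> linarith [(hG' i j).1, (hG' i j).2, (ha i j).1, (ha i j).2]
      have b2 : |U (Fin.last n) (Fin.last n)| ≤ ⨆ i, ⨆ j, |U i j| :=
        le_ciSup_of_le (Finite.bddAbove_range _) (Fin.last n)
          (le_ciSup (f := fun j => |U (Fin.last n) j|) (Finite.bddAbove_range _) (Fin.last n))
      have b3 := le_abs_self (U (Fin.last n) (Fin.last n))
      have b4 : 0 ≤ x * (((n + 1 : ℕ) : ℝ) / 1) ^ c₁ := by positivity
      have b5 := mul_le_mul_of_nonneg_left b1 b4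
      linarith
  have h2 := (measure_mono hbox).trans h
  rw [Measure.pi_pi] at h2
  simp only [Measure.pi_pi] at h2
  have h3 : ∏ _i : Fin (n + 1), ∏ _j : Fin (n + 1), ENNReal.ofReal (δ / 32) ≤
      ∏ i : Fin (n + 1), ∏ j : Fin (n + 1), gaussianReal 0 1 (Set.Icc (a i j) (a i j + δ)) := by
    refine Finset.prod_le_prod' fun i _ => Finset.prod_le_prod' fun j _ => ?_
    exact gauss_lower _ _ hδ0.le (by linarith [(ha i j).1]) (by linarith [(ha i j).2])
  have h4 := h3.trans h2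
  simp only [Finset.prod_const, Finset.card_univ, Fintype.card_fin] at h4
  rw [← pow_mul, ← ENNReal.ofReal_pow (by positivity),
    ENNReal.ofReal_le_ofReal_iff (by positivity)] at h4
  have h5 : (δ / 32) ^ ((n + 1) * (n + 1)) = (2 : ℝ) ^ (-((n + 8) * (n + 1) ^ 2 : ℝ)) := by
    have e1 : δ / 32 = ((2 : ℝ) ^ (n + 8))⁻¹ := by
      rw [hδ]
      field_simp
      ring
    rw [e1, inv_pow, ← pow_mul, Real.rpow_neg (by norm_num), ← Real.rpow_natCast]
    congr 2
    push_cast
    ring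
  rw [h5, Real.rpow_le_rpow_left_iff (by norm_num)] at h4
  have h6 : c₂ * x = (n + 8) * (n + 1) ^ 2 + c₂ := by
    rw [hx]
    field_simp
  linarith

end Pool.Agent.S04486
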