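import Pool.Statements.S04488
import Pool.Agent.H89.BA4

set_option autoImplicit false
open MeasureTheory
open Pool Pool.MP_42c941_an

namespace Pool.Agent.S04488

/-- The negation of the preceding statement: For every finitely generated group with Følner sets, comeager many continuous actions on Cantor space have the set of ergodic invariant probability measures closed in the space of invariant probability measures (weak topology). -/
theorem result :
    ¬ (∀ (Γ : Type) [Group Γ], Group.FG Γ →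
    (∀ (F : Finset Γ) (ε : ℝ), 0 < ε → ∃ S : Finset Γ, S.Nonempty ∧
        ∀ g ∈ F, ((((fun x => g * x) '' (S : Set Γ)) \ (S : Set Γ)).ncard : ℝ) < ε * (S.card : ℝ)) →
    {a : {a : Γ → C(ℕ → Bool, ℕ → Bool) //
          a 1 = ContinuousMap.id (ℕ → Bool) ∧ ∀ g h : Γ, a (g * h) = (a g).comp (a h)} |
      IsClosed {ν : {μ : ProbabilityMeasure (ℕ → Bool) //
                  ∀ g : Γ, (μ : Measure (ℕ → Bool)).map (⇑(a.1 g)) = (μ : Measure (ℕ → Bool))} |
        ∀ s : Set (ℕ → Bool), MeasurableSet s → (∀ g : Γ, ⇑(a.1 g) ⁻¹' s = s) →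
          (ν.1 : Measure (ℕ → Bool)) s = 0 ∨ (ν.1 : Measure (ℕ → Bool)) s = 1}} ∈ residual _) := by
  intro h
  have hres := h H89.BA.Gam H89.BA.gam_fg H89.BA.gam_fol
  obtain ⟨φ, ε, m, a0, x0, hφ, hε, hm, h1, hmul, hc, hx0⟩ := H89.BA.model
  have hcount := H89.BA.gam_count
  have hcm : TopologicalSpace.IsCompletelyMetrizableSpace C(ℕ → Bool, ℕ → Bool) := H89.BA.cm_cs
  have hclo : IsClosed {a : H89.BA.Gam → C(ℕ → Bool, ℕ → Bool) |
      a 1 = ContinuousMap.id (ℕ → Bool) ∧ ∀ g h : H89.BA.Gam, a (g * h) = (a g).comp (a h)} := by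
    refine IsClosed.inter (isClosed_eq (continuous_apply 1) continuous_const) ?_
    change IsClosed {a : H89.BA.Gam → C(ℕ → Bool, ℕ → Bool) |
      ∀ g h : H89.BA.Gam, a (g * h) = (a g).comp (a h)}
    simp only [Set.ofPred_forall]
    refine isClosed_iInter fun g => isClosed_iInter fun h => isClosed_eq (continuous_apply _) ?_
    exact Continuous.compCM (continuous_apply g) (continuous_apply h)
  have hcm2 : TopologicalSpace.IsCompletelyMetrizableSpace {a : H89.BA.Gam → C(ℕ → Bool, ℕ → Bool) //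
      a 1 = ContinuousMap.id (ℕ → Bool) ∧ ∀ g h : H89.BA.Gam, a (g * h) = (a g).comp (a h)} :=
    hclo.isCompletelyMetrizableSpace
  have hop : IsOpen {a : {a : H89.BA.Gam → C(ℕ → Bool, ℕ → Bool) //
      a 1 = ContinuousMap.id (ℕ → Bool) ∧ ∀ g h : H89.BA.Gam, a (g * h) = (a g).comp (a h)} |
      H89.BA.Cond φ ε m a.1} := by
    have key : ∀ (g : H89.BA.Gam) (ψ : H89.BA.CS → H89.BA.GG), Continuous ψ →
        IsOpen {a : {a : H89.BA.Gam → C(ℕ → Bool, ℕ → Bool) //
          a 1 = ContinuousMap.id (ℕ → Bool) ∧ ∀ g h : H89.BA.Gam, a (g * h) = (a g).comp (a h)} |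
          ∀ x, φ (a.1 g x) = ψ x} := fun g ψ hψ =>
      (H89.BA.open_cond φ ψ hφ hψ).preimage (f := fun a : {a : H89.BA.Gam → C(ℕ → Bool, ℕ → Bool) //
          a 1 = ContinuousMap.id (ℕ → Bool) ∧ ∀ g h : H89.BA.Gam, a (g * h) = (a g).comp (a h)} =>
          a.1 g) ((continuous_apply g).comp continuous_subtype_val)
    have hc2 : ∀ (g : H89.BA.GG) (b : H89.BA.CS → Bool), Continuous b →
        Continuous fun x => cond (b x) g 1 * φ x := fun g b hb =>
      (continuous_of_discreteTopology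
        (f := fun q : Bool × H89.BA.GG => cond q.1 g 1 * q.2)).comp (hb.prodMk hφ)
    exact (key _ _ hφ).inter ((key _ _ (hc2 _ _ hε)).inter ((key _ _ (hc2 _ _ hε)).inter
      ((key _ _ (hc2 _ _ hm)).inter (key _ _ (hc2 _ _ hm)))))
  obtain ⟨a, ha1, ha2⟩ := (dense_of_mem_residual hres).inter_open_nonempty _ hop
    ⟨⟨a0, h1, hmul⟩, hc⟩
  obtain ⟨f1, f2⟩ := H89.BA.force φ ε m a.1 a.2.1 a.2.2 ha1 x0 hx0
  refine H89.BA.not_closed a.1 H89.BA.gam_fol a.2.2 (fun k x => ε (a.1 (H89.BA.T ^ k) x))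
    (fun k => hε.comp (a.1 _).continuous) f1 (fun j => ⟨H89.BA.T ^ j, fun x k => ?_⟩) x0 f2 ha2
  rw [zpow_add, a.2.2]
  rfl

end Pool.Agent.S04488
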