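import Pool.Statements.S04492
import Pool.Agent.H86.RoeF

set_option autoImplicit false
open scoped Classical
open Pool Pool.MP_42dd51_an

namespace Pool.Agent.S04492

open Pool.Agent.H86.Roe in
theorem adj_eq (X : Type) [MetricSpace X] : StarAlgebra.adjoin ℂ
    {a : lp (fun _ : X => ℂ) 2 →L[ℂ] lp (fun _ : X => ℂ) 2 |
      ∃ r : ℝ, ∀ x x' : X, r < dist x x' →
        inner ℂ (lp.single 2 x (1 : ℂ) : lp (fun _ : X => ℂ) 2)
          (a (lp.single 2 x' (1 : ℂ) : lp (fun _ : X => ℂ) 2)) = 0} = FP X := by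
  refine Eq.trans (congrArg _ ?_) (StarAlgebra.adjoin_eq (FP X))
  ext a
  refine exists_congr fun r => ⟨fun h x x' h' => ?_, fun h x x' h' => ?_⟩
  · rw [← inner_δ]
    exact h x' x (by rwa [dist_comm])
  · exact (inner_δ x _).trans (h x' x (by rwa [dist_comm]))

/-- The negation of the preceding statement: For all uniformly locally finite metric spaces X, Y, if the uniform Roe algebra of X embeds into that of Y via an injective (not necessarily unital) *-homomorphism, then there is a coarse map X → Y whose fibers have uniformly bounded size. -/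
theorem result :
    ¬ (∀ (X Y : Type) [MetricSpace X] [MetricSpace Y],
      (∀ r : ℝ, 0 < r → ∃ N : ℕ, ∀ x : X, (Metric.closedBall x r).encard ≤ (N : ℕ∞)) →
      (∀ r : ℝ, 0 < r → ∃ N : ℕ, ∀ y : Y, (Metric.closedBall y r).encard ≤ (N : ℕ∞)) →
      (∃ φ : ↥((StarAlgebra.adjoin ℂ
                {a : lp (fun _ : X => ℂ) 2 →L[ℂ] lp (fun _ : X => ℂ) 2 |
                  ∃ r : ℝ, ∀ x x' : X, r < dist x x' →
                    inner ℂ (lp.single 2 x (1 : ℂ) : lp (fun _ : X => ℂ) 2)
                      (a (lp.single 2 x' (1 : ℂ) : lp (fun _ : X => ℂ) 2)) = 0}).topologicalClosure)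
            →⋆ₙₐ[ℂ]
            ↥((StarAlgebra.adjoin ℂ
                {b : lp (fun _ : Y => ℂ) 2 →L[ℂ] lp (fun _ : Y => ℂ) 2 |
                  ∃ r : ℝ, ∀ y y' : Y, r < dist y y' →
                    inner ℂ (lp.single 2 y (1 : ℂ) : lp (fun _ : Y => ℂ) 2)
                      (b (lp.single 2 y' (1 : ℂ) : lp (fun _ : Y => ℂ) 2)) = 0}).topologicalClosure),
          Function.Injective φ) →
      ∃ f : X → Y,
        (∀ r : ℝ, 0 < r → ∃ s : ℝ, 0 < s ∧
            ∀ x x' : X, dist x x' ≤ r → dist (f x) (f x') ≤ s) ∧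
        ∃ N : ℕ, ∀ y : Y, (f ⁻¹' {y}).encard ≤ (N : ℕ∞)) := by
  open Pool.Agent.H86.Roe in
  intro h
  letI := mX
  letI := mY
  obtain ⟨f, h1, N, h2⟩ := h XX YY (fun r _ => by
      obtain ⟨N, hN⟩ := ulf_X r
      refine ⟨N, fun x => ?_⟩
      obtain ⟨F, h1, h2⟩ := hN x
      exact (Set.encard_le_encard h2).trans (by simpa [Set.encard_coe_eq_coe_finsetCard]))
    (fun r _ => by
      obtain ⟨N, hN⟩ := ulf_Y r
      refine ⟨N, fun x => ?_⟩
      obtain ⟨F, h1, h2⟩ := hN x
      exact (Set.encard_le_encard h2).trans (by simpa [Set.encard_coe_eq_coe_finsetCard]))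
    (by
      rw [adj_eq, adj_eq]
      exact ⟨{ toFun := fun a => ⟨setup.Φ a, setup.maps a.2⟩
               map_smul' := fun c a => Subtype.ext (setup.Φ_smul c a)
               map_zero' := Subtype.ext setup.Φ_zero
               map_add' := fun a b => Subtype.ext (setup.Φ_add a b)
               map_mul' := fun a b => Subtype.ext (setup.Φ_mul a b)
               map_star' := fun a => Subtype.ext (setup.Φ_star a) },
        fun a b h => Subtype.ext (setup.Φ_inj (congrArg Subtype.val h))⟩)
  obtain ⟨s, -, hs⟩ := h1 1 one_pos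
  exact no_map f s N hs h2

end Pool.Agent.S04492
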