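import Pool.Statements.S04499
import Pool.Agent.H94.BC4

set_option autoImplicit false
open MeasureTheory Filter Topology
open Pool Pool.MP_435399_an

namespace Pool.Agent.S04499

/-- If the kernels (1−z_n z)^(−2), z_n in the unit disc, do not span the Bergman space, and finite combinations converge in Bergman norm to f while tending uniformly to 0 on a disc outside the closed unit disc, then f is identically zero. -/
theorem result :
    ∀ (z : ℕ → ℂ), (∀ n, ‖z n‖ < 1) →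
      (∃ h : ℂ → ℂ, DifferentiableOn ℂ h (Metric.ball (0 : ℂ) 1) ∧
        IntegrableOn (fun w => ‖h w‖ ^ 2) (Metric.ball (0 : ℂ) 1) ∧
        ∃ ε : ℝ, 0 < ε ∧ ∀ (s : Finset ℕ) (a : ℕ → ℂ),
          ε ≤ ∫ w in Metric.ball (0 : ℂ) 1,
            ‖h w - ∑ n ∈ s, a n * ((1 - z n * w) ^ 2)⁻¹‖ ^ 2) →
      ∀ (S : ℕ → Finset ℕ) (c : ℕ → ℕ → ℂ) (f : ℂ → ℂ),
        DifferentiableOn ℂ f (Metric.ball (0 : ℂ) 1) →
        IntegrableOn (fun w => ‖f w‖ ^ 2) (Metric.ball (0 : ℂ) 1) →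
        Tendsto (fun j : ℕ => ∫ w in Metric.ball (0 : ℂ) 1,
            ‖(∑ n ∈ S j, c j n * ((1 - z n * w) ^ 2)⁻¹) - f w‖ ^ 2) atTop (𝓝 0) →
        ∀ (c0 : ℂ) (r : ℝ), 0 < r → Metric.ball c0 r ⊆ {w : ℂ | 1 < ‖w‖} →
          TendstoUniformlyOn
            (fun (j : ℕ) (w : ℂ) => ∑ n ∈ S j, c j n * ((1 - z n * w) ^ 2)⁻¹)
            (fun _ => (0 : ℂ)) atTop (Metric.ball c0 r) →
          ∀ w ∈ Metric.ball (0 : ℂ) 1, f w = 0 := by
  open Pool.Agent.H94.BC Pool.Agent.H88.H2 Pool.Agent.H88.PS in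
  rintro z hz ⟨h, h1, h2, ε, hε, h3⟩ S c f f1 f2 f3 c0 r hr hb hl w hw
  obtain ⟨g, B, g0, hg, gz⟩ := exists_g hz h1 h2 hε h3
  have e : ∀ (m : ℕ) (y : ℂ), ((m : ℝ) + 1) * ‖y‖ ^ 2 = ‖((m : ℂ) + 1) * y‖ ^ 2 / ((m : ℝ) + 1) :=
    fun m y => by
      rw [norm_mul, show ((m : ℂ) + 1) = ((m + 1 : ℕ) : ℂ) by simp, Complex.norm_natCast]
      push_cast
      field_simp
  have e1 : ∀ m : ℕ, ((m : ℂ) + 1) * (coef f m / (m + 1)) = coef f m := fun m =>
    mul_div_cancel₀ _ (Nat.cast_add_one_ne_zero m)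
  obtain ⟨T, hT, -⟩ := bess (rep_coef f1) f2
  have k := fun j => bess (A := fun m => (m + 1) * ∑ n ∈ S j, c j n * z n ^ m - coef f m)
    (fun w hw => hs_congr ((rep_ker hz (S j) (c j) w hw).sub (rep_coef f1 w hw))
      fun m => sub_mul _ _ _) (int_sub (rep_ker hz (S j) (c j)).diff f1 (int_ker hz _ _) f2)
  choose σ s1 s2 using k
  have x0 := main (x := fun m => coef f m / (m + 1)) hz g0 hg gz S c
    (hs_congr hT fun m => by rw [e, e1]) (σ := σ)
    (squeeze_zero (fun j => (s1 j).nonneg fun _ => by positivity) s2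
      (by simpa using f3.div_const Real.pi))
    (fun j => hs_congr (s1 j) fun m => by rw [e, mul_sub, e1]) hr hb fun w hw => hl.tendsto_at hw
  have := rep_coef f1 w (mem_ball_zero_iff.1 hw)
  refine this.unique (hs_congr hasSum_zero fun m => ?_)
  rw [← e1, show coef f m / (m + 1) = 0 from congrFun x0 m]
  simp

end Pool.Agent.S04499
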