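import Pool.Statements.S04518

set_option autoImplicit false
open MeasureTheory
open scoped Pointwise
open Pool Pool.MP_4442a2_an

namespace Pool.Agent.S04518

/-- boxes with a corner at the origin -/
def box (N : ℕ) (a : Fin N → ℝ) : Set (EuclideanSpace ℝ (Fin N)) :=
  {x | ∀ j, 0 ≤ x j ∧ x j ≤ a j}

theorem box_convex (N : ℕ) (a : Fin N → ℝ) : Convex ℝ (box N a) := by
  intro x hx y hy s t hs ht hst j
  simp only [PiLp.add_apply, PiLp.smul_apply, smul_eq_mul]
  have h1 := hx j
  have h2 := hy j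
  constructor
  · nlinarith [mul_nonneg hs h1.1, mul_nonneg ht h2.1]
  · have : a j = s * a j + t * a j := by rw [← add_mul, hst, one_mul]
    nlinarith [mul_le_mul_of_nonneg_left h1.2 hs, mul_le_mul_of_nonneg_left h2.2 ht]

theorem box_dist (N : ℕ) (a : Fin N → ℝ) (c : ℝ) (hc : 0 ≤ c) (ha : ∀ j, a j ≤ c)
    {x y : EuclideanSpace ℝ (Fin N)} (hx : x ∈ box N a) (hy : y ∈ box N a) :
    dist x y ≤ Real.sqrt (N * c ^ 2) := by
  rw [EuclideanSpace.dist_eq]
  apply Real.sqrt_le_sqrt
  calc ∑ i, dist (x i) (y i) ^ 2 ≤ ∑ _i : Fin N, c ^ 2 := by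
        apply Finset.sum_le_sum
        intro i _
        rw [Real.dist_eq, sq_abs]
        have h1 := hx i
        have h2 := hy i
        have h3 := ha i
        apply sq_le_sq' <;> linarith
    _ = N * c ^ 2 := by simp

theorem box_compact (N : ℕ) (a : Fin N → ℝ) : IsCompact (box N a) := by
  apply Metric.isCompact_of_isClosed_isBounded
  · have : box N a = ⋂ j, ({x : EuclideanSpace ℝ (Fin N) | 0 ≤ x j} ∩ {x | x j ≤ a j}) := by
      ext x; simp [box]
    rw [this]
    apply isClosed_iInter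
    intro j
    exact (isClosed_le continuous_const (by fun_prop)).inter (isClosed_le (by fun_prop) continuous_const)
  · rw [Metric.isBounded_iff]
    refine ⟨Real.sqrt (N * (∑ j, |a j|) ^ 2), fun x hx y hy => box_dist N a _ (by positivity) ?_ hx hy⟩
    intro j
    exact le_trans (le_abs_self _)
      (Finset.single_le_sum (f := fun j => |a j|) (fun i _ => abs_nonneg _) (Finset.mem_univ j))

theorem box_interior (N : ℕ) (a : Fin N → ℝ) (ha : ∀ j, 0 < a j) :
    (interior (box N a)).Nonempty := by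
  have hop : IsOpen (⋂ j, ({x : EuclideanSpace ℝ (Fin N) | 0 < x j} ∩ {x | x j < a j})) := by
    apply isOpen_iInter_of_finite
    intro j
    exact (isOpen_lt continuous_const (by fun_prop)).inter (isOpen_lt (by fun_prop) continuous_const)
  refine ⟨WithLp.toLp 2 (fun j => a j / 2), interior_maximal ?_ hop ?_⟩
  · intro x hx j
    have := Set.mem_iInter.mp hx j
    exact ⟨le_of_lt this.1, le_of_lt this.2⟩
  · rw [Set.mem_iInter]
    intro j
    have := ha j
    constructor
    · show 0 < a j / 2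
      linarith
    · show a j / 2 < a j
      linarith

theorem box_comb (N : ℕ) (a b : Fin N → ℝ) (t : ℝ) (h0 : 0 ≤ t) (h1 : t ≤ 1) :
    t • box N b + (1 - t) • box N a ⊆ box N (t • b + (1 - t) • a) := by
  rintro z ⟨_, ⟨x, hx, rfl⟩, _, ⟨y, hy, rfl⟩, rfl⟩ j
  simp only [PiLp.add_apply, PiLp.smul_apply, smul_eq_mul, Pi.add_apply, Pi.smul_apply]
  have h2 := hx j
  have h3 := hy j
  have h4 : 0 ≤ 1 - t := by linarith
  constructor
  · nlinarith [mul_nonneg h0 h2.1, mul_nonneg h4 h3.1]
  · nlinarith [mul_le_mul_of_nonneg_left h2.2 h0, mul_le_mul_of_nonneg_left h3.2 h4]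

/-- the minimal energy for the kernel of exponent minus one half -/
noncomputable def en (N : ℕ) (K : Set (EuclideanSpace ℝ (Fin N))) : ENNReal :=
  ⨅ (μ : Measure (EuclideanSpace ℝ (Fin N))) (_ : IsProbabilityMeasure μ) (_ : μ Kᶜ = 0),
    ∫⁻ x, ∫⁻ y, (edist x y) ^ (-(1 / 2) : ℝ) ∂μ ∂μ

theorem en_anti (N : ℕ) {K L : Set (EuclideanSpace ℝ (Fin N))} (h : K ⊆ L) : en N L ≤ en N K := by
  unfold en
  refine le_iInf fun μ => le_iInf fun hμ => le_iInf fun hK => ?_
  exact iInf_le_of_le μ (iInf_le_of_le hμ (iInf_le_of_le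
    (measure_mono_null (Set.compl_subset_compl.mpr h) hK) le_rfl))

theorem en_ge (N : ℕ) (K : Set (EuclideanSpace ℝ (Fin N))) (D : ENNReal)
    (hD : ∀ x ∈ K, ∀ y ∈ K, edist x y ≤ D) : D ^ (-(1 / 2) : ℝ) ≤ en N K := by
  unfold en
  refine le_iInf fun μ => le_iInf fun hμ => le_iInf fun hK => ?_
  have hae : ∀ᵐ x ∂μ, x ∈ K := hK
  calc D ^ (-(1 / 2) : ℝ) = ∫⁻ _x, ∫⁻ _y, D ^ (-(1 / 2) : ℝ) ∂μ ∂μ := by simp
    _ ≤ _ := by
      apply lintegral_mono_ae
      filter_upwards [hae] with x hx
      apply lintegral_mono_ae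
      filter_upwards [hae] with y hy
      rw [ENNReal.rpow_neg, ENNReal.rpow_neg]
      exact ENNReal.inv_le_inv.mpr (ENNReal.rpow_le_rpow (hD x hx y hy) (by norm_num))

/-- the energy bound for a unit segment -/
noncomputable def E1 : ENNReal :=
  ∫⁻ w, (Metric.ball (0 : ℝ) 2).indicator (fun w => ‖w‖ₑ ^ (-(1 / 2) : ℝ)) w

theorem E1_lt : E1 < ⊤ := by
  unfold E1
  rw [lintegral_indicator measurableSet_ball]
  have h : IntegrableOn (fun w : ℝ => ‖w‖ ^ (-(1 / 2) : ℝ)) (Metric.ball 0 2) volume := by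
    apply integrableOn_ball_of_norm_le_rpow (C := 1) (α := 1 / 2) (by simp) (by simp; norm_num)
    · refine Filter.Eventually.of_forall fun x => ?_
      rw [Real.norm_of_nonneg (by positivity), one_mul]
    · exact (measurable_norm.pow_const _).aestronglyMeasurable
  refine lt_of_le_of_lt (lintegral_mono_ae ?_) h.2
  have h0 : ∀ᵐ w : ℝ, w ≠ 0 := by simp [ae_iff]
  filter_upwards [ae_restrict_of_ae h0] with w hw
  have h1 : (0 : ℝ) ≤ ‖w‖ ^ (-(1 / 2) : ℝ) := by positivity
  rw [Real.enorm_of_nonneg h1, ← ofReal_norm,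
    ENNReal.ofReal_rpow_of_pos (norm_pos_iff.mpr hw)]

theorem en_le (N : ℕ) (i : Fin N) (K : Set (EuclideanSpace ℝ (Fin N))) (hK : IsClosed K)
    (hseg : ∀ u ∈ Set.Icc (0 : ℝ) 1, EuclideanSpace.single i u ∈ K) : en N K ≤ E1 := by
  have hc : Continuous (fun u : ℝ => (EuclideanSpace.single i u : EuclideanSpace ℝ (Fin N))) := by
    have : LipschitzWith 1 (fun u : ℝ => (EuclideanSpace.single i u : EuclideanSpace ℝ (Fin N))) := by
      intro u v; simp
    exact this.continuous
  have hm := hc.measurable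
  have hP : IsProbabilityMeasure (volume.restrict (Set.Icc (0 : ℝ) 1)) := ⟨by simp⟩
  unfold en
  refine iInf_le_of_le (Measure.map (fun u : ℝ => (EuclideanSpace.single i u : EuclideanSpace ℝ (Fin N)))
    (volume.restrict (Set.Icc (0 : ℝ) 1))) (iInf_le_of_le
      (Measure.isProbabilityMeasure_map hm.aemeasurable) (iInf_le_of_le ?_ ?_))
  · rw [Measure.map_apply hm hK.measurableSet.compl, Measure.restrict_apply' measurableSet_Icc]
    convert measure_empty (μ := (volume : Measure ℝ))
    ext u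
    simp only [Set.mem_inter_iff, Set.mem_preimage, Set.mem_compl_iff, Set.mem_empty_iff_false,
      iff_false, not_and]
    intro h1 h2
    exact h1 (hseg u h2)
  · have hP2 := Measure.isProbabilityMeasure_map (μ := volume.restrict (Set.Icc (0 : ℝ) 1))
      hm.aemeasurable
    refine le_trans (lintegral_mono_ae (g := fun _ => E1) ?_) (by simp)
    rw [ae_map_iff hm.aemeasurable]
    · filter_upwards [ae_restrict_mem measurableSet_Icc] with u hu
      rw [lintegral_map (by fun_prop) hm]
      unfold E1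
      rw [← lintegral_indicator measurableSet_Icc, ← lintegral_sub_left_eq_self
        ((Metric.ball (0 : ℝ) 2).indicator (fun w => ‖w‖ₑ ^ (-(1 / 2) : ℝ))) u]
      apply lintegral_mono
      intro v
      by_cases hv : v ∈ Set.Icc (0 : ℝ) 1
      · have hb : u - v ∈ Metric.ball (0 : ℝ) 2 := by
          rw [mem_ball_zero_iff, Real.norm_eq_abs, abs_lt]
          constructor <;> linarith [hu.1, hu.2, hv.1, hv.2]
        simp only [Set.indicator_of_mem hv, Set.indicator_of_mem hb]
        rw [EuclideanSpace.edist_single_same, edist_eq_enorm_sub]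
      · simp only [Set.indicator_of_notMem hv]
        exact zero_le
    · apply measurableSet_le _ measurable_const
      apply Measurable.lintegral_prod_right (f := fun x y : EuclideanSpace ℝ (Fin N) =>
        (edist x y) ^ (-(1 / 2) : ℝ))
      fun_prop

/-- The negation of the preceding statement: For N≥2, 0<α<N, with α-Riesz capacity = inverse of minimal energy ∬∣x−y∣^{α−N} over probability measures on K, Cap^{1/(N−α)} is concave under Minkowski combinations of convex bodies in ℝ^N. -/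
theorem result :
    ¬ (∀ (N : ℕ) (α : ℝ), 2 ≤ N → 0 < α → α < (N : ℝ) →
    ∀ Cap : Set (EuclideanSpace ℝ (Fin N)) → ENNReal,
      (∀ K : Set (EuclideanSpace ℝ (Fin N)),
        Cap K = (⨅ (μ : Measure (EuclideanSpace ℝ (Fin N)))
                  (_ : IsProbabilityMeasure μ) (_ : μ Kᶜ = 0),
                  ∫⁻ x, ∫⁻ y, (edist x y) ^ (α - (N : ℝ)) ∂μ ∂μ)⁻¹) →
      ∀ K₀ K₁ : Set (EuclideanSpace ℝ (Fin N)),
        IsCompact K₀ → Convex ℝ K₀ → (interior K₀).Nonempty →
        IsCompact K₁ → Convex ℝ K₁ → (interior K₁).Nonempty →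
        ∀ t : ℝ, 0 ≤ t → t ≤ 1 →
          ENNReal.ofReal t * Cap K₁ ^ (1 / ((N : ℝ) - α))
            + ENNReal.ofReal (1 - t) * Cap K₀ ^ (1 / ((N : ℝ) - α))
            ≤ Cap (t • K₁ + (1 - t) • K₀) ^ (1 / ((N : ℝ) - α))) := by
  intro h
  have hE : E1 ≠ ⊤ := E1_lt.ne
  have hc0 : (0 : ENNReal) < (E1⁻¹) ^ (2 : ℝ) :=
    ENNReal.rpow_pos_of_nonneg (ENNReal.inv_pos.mpr hE) (by norm_num)
  obtain ⟨r, hr0, hr⟩ : ∃ r : ℝ, 0 < r ∧ ENNReal.ofReal r < (E1⁻¹) ^ (2 : ℝ) := by
    obtain ⟨r, h1, h2, h3⟩ := ENNReal.lt_iff_exists_real_btwn.mp hc0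
    exact ⟨r, ENNReal.ofReal_pos.mp h2, h3⟩
  obtain ⟨N, hN⟩ := exists_nat_gt (max 2 (4 / r ^ 2))
  have hN2 : (2 : ℝ) < N := lt_of_le_of_lt (le_max_left _ _) hN
  have hNr : 4 / r ^ 2 < N := lt_of_le_of_lt (le_max_right _ _) hN
  have hN0 : (0 : ℝ) < N := by linarith
  have key := h N (N - 1 / 2) (by exact_mod_cast hN2.le) (by linarith) (by linarith)
    (fun K => (en N K)⁻¹) (by
      intro K
      have : (N : ℝ) - 1 / 2 - N = -(1 / 2) := by ring
      rw [this]; rfl)
  have hex : (1 : ℝ) / (N - (N - 1 / 2)) = 2 := by norm_num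
  simp only [hex] at key
  set c : ENNReal := (E1⁻¹) ^ (2 : ℝ) with hc
  have hconv : Convex ℝ {a : Fin N → ℝ | (∀ j, 0 < a j) ∧ c ≤ (en N (box N a))⁻¹ ^ (2 : ℝ)} := by
    intro b hb a ha t s ht hs hts
    have hs' : s = 1 - t := by linarith
    subst hs'
    constructor
    · intro j
      simp only [Pi.add_apply, Pi.smul_apply, smul_eq_mul]
      have h1 := hb.1 j
      have h2 := ha.1 j
      rcases ht.eq_or_lt with h3 | h3
      · subst h3; simpa using h2
      · nlinarith [mul_pos h3 h1, mul_nonneg hs h2.le]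
    · have h1 := key (box N a) (box N b) (box_compact N a) (box_convex N a) (box_interior N a ha.1)
        (box_compact N b) (box_convex N b) (box_interior N b hb.1) t ht (by linarith)
      have h2 : c = ENNReal.ofReal t * c + ENNReal.ofReal (1 - t) * c := by
        rw [← add_mul, ← ENNReal.ofReal_add ht hs]; simp
      calc c = ENNReal.ofReal t * c + ENNReal.ofReal (1 - t) * c := h2
        _ ≤ _ := add_le_add (mul_le_mul_right hb.2 _) (mul_le_mul_right ha.2 _)
        _ ≤ _ := h1
        _ ≤ _ := ENNReal.rpow_le_rpow (ENNReal.inv_le_inv.mpr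
            (en_anti N (box_comb N a b t ht (by linarith)))) (by norm_num)
  have hmem := hconv.sum_mem (t := Finset.univ) (w := fun _ : Fin N => (1 / N : ℝ))
    (z := fun i j => if j = i then (1 : ℝ) else 1 / N) (fun _ _ => by positivity)
    (by simp; field_simp) (by
      intro i _
      constructor
      · intro j
        show 0 < (if j = i then (1 : ℝ) else 1 / N)
        split_ifs
        · norm_num
        · positivity
      · apply ENNReal.rpow_le_rpow _ (by norm_num)
        apply ENNReal.inv_le_inv.mpr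
        apply en_le N i _ (box_compact N _).isClosed
        intro u hu j
        by_cases hj : j = i
        · subst hj; simpa using hu
        · simp [hj])
  obtain ⟨-, hle⟩ := hmem
  have hside : ∀ j, (∑ i : Fin N, (1 / N : ℝ) • (fun j => if j = i then (1 : ℝ) else 1 / N)) j ≤ 2 / N := by
    intro j
    rw [Finset.sum_apply]
    simp only [Pi.smul_apply, smul_eq_mul]
    rw [← Finset.mul_sum]
    have h1 : ∑ i : Fin N, (if j = i then (1 : ℝ) else 1 / N) ≤ ∑ i : Fin N, ((if j = i then (1 : ℝ) else 0) + 1 / N) := by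
      apply Finset.sum_le_sum
      intro i _
      have : (0 : ℝ) < 1 / N := by positivity
      split_ifs <;> linarith
    have h2 : ∑ i : Fin N, ((if j = i then (1 : ℝ) else 0) + 1 / N) = 2 := by
      rw [Finset.sum_add_distrib]; simp; field_simp; norm_num
    calc 1 / (N : ℝ) * _ ≤ 1 / N * 2 := by gcongr; linarith
      _ = 2 / N := by ring
  have hge := en_ge N (box N (∑ i : Fin N, (1 / N : ℝ) • (fun j => if j = i then (1 : ℝ) else 1 / N)))
    (ENNReal.ofReal r) (by
      intro x hx y hy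
      rw [edist_dist]
      apply ENNReal.ofReal_le_ofReal
      refine le_trans (box_dist N _ (2 / N) (by positivity) hside hx hy) ?_
      apply Real.sqrt_le_iff.mpr ⟨hr0.le, ?_⟩
      rw [div_lt_iff₀ (by positivity)] at hNr
      have : (N : ℝ) * (2 / N) ^ 2 = 4 / N := by field_simp; norm_num
      rw [this, div_le_iff₀ hN0]
      linarith)
  have h3 := ENNReal.rpow_le_rpow (ENNReal.inv_le_inv.mpr hge) (show (0 : ℝ) ≤ 2 by norm_num)
  rw [ENNReal.rpow_neg, inv_inv, ← ENNReal.rpow_mul] at h3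
  norm_num at h3 hle
  exact absurd (le_trans hle h3) (not_le.mpr hr)

end Pool.Agent.S04518
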