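import Pool.Statements.S04524
import Pool.Agent.H53.GqE

set_option autoImplicit false
open MeasureTheory Filter Topology
open Pool Pool.MP_4470cb_an

namespace Pool.Agent.S04524

/-- The negation of the preceding statement: For every integer p ≥ 2 and every strictly increasing integer sequence c_n, the ×p-invariant atomless probability measures on the circle whose dilates by c_n do not converge weak-* to Lebesgue form a comeager subset of all ×p-invariant probability measures. -/
theorem result :
    ¬ (∀ p : ℕ, 2 ≤ p → ∀ c : ℕ → ℤ, StrictMono c →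
      {μ : {ν : ProbabilityMeasure UnitAddCircle //
              (ν : Measure UnitAddCircle).map (fun x : UnitAddCircle => p • x)
                = (ν : Measure UnitAddCircle)} |
        (∀ x : UnitAddCircle, (μ.1 : Measure UnitAddCircle) {x} = 0) ∧
        ¬ (∀ f : C(UnitAddCircle, ℝ),
            Tendsto (fun n : ℕ => ∫ x, f (c n • x) ∂(μ.1 : Measure UnitAddCircle))
              atTop (𝓝 (∫ x, f x)))} ∈ residual _) := by
  intro H
  obtain ⟨c, hc, R, hR, h⟩ := Pool.Agent.H53.Gq.main
  haveI := Pool.Agent.H53.Gq.cpt
  haveI := Pool.Agent.H53.Gq.ne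
  obtain ⟨μ, h1, h2⟩ := (dense_of_mem_residual (inter_mem (H 3 (by norm_num) c hc) hR)).nonempty
  exact h1.2 (h μ h2)

end Pool.Agent.S04524
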