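import Pool.Statements.S04527
import Pool.Agent.H92.RapidDecay

set_option autoImplicit false
open Pointwise
open Pool Pool.MP_449b18_an

namespace Pool.Agent.S04527

/-- For every finitely generated group, rapid decay (a polynomial P(r) bounds the trilinear convolution form for f supported in the r-ball) holds iff some polynomial P(r) bounds the number of abc=1 triples in A×B×C by P(r)√(∣A∣∣B∣∣C∣) when A lies in the r-ball. -/
theorem result :
    ∀ (Γ : Type) [Group Γ] [DecidableEq Γ] (S : Finset Γ),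
      Subgroup.closure (S : Set Γ) = ⊤ →
      ((∃ P : Polynomial ℝ, ∀ (r : ℕ) (F G H : Finset Γ) (f g h : Γ → ℂ),
          F ⊆ (insert 1 (S ∪ S⁻¹)) ^ r →
          ‖∑ x ∈ F, ∑ y ∈ G, ∑ z ∈ H, (if x * y * z = 1 then f x * g y * h z else 0)‖
            ≤ P.eval (r : ℝ) *
              (Real.sqrt (∑ x ∈ F, ‖f x‖ ^ 2) * Real.sqrt (∑ y ∈ G, ‖g y‖ ^ 2) *
                Real.sqrt (∑ z ∈ H, ‖h z‖ ^ 2)))
        ↔
       (∃ P : Polynomial ℝ, ∀ (r : ℕ) (A B C : Finset Γ),
          A ⊆ (insert 1 (S ∪ S⁻¹)) ^ r →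
          (((A ×ˢ B ×ˢ C).filter (fun t => t.1 * t.2.1 * t.2.2 = 1)).card : ℝ)
            ≤ P.eval (r : ℝ) * Real.sqrt ((A.card : ℝ) * B.card * C.card))) := by
  intro Γ _ _ S _
  constructor
  · rintro ⟨P, hP⟩
    refine ⟨P, fun r A B C hA => ?_⟩
    have := hP r A B C (fun _ => 1) (fun _ => 1) (fun _ => 1) hA
    rw [Pool.Agent.H92.RapidDecay.sum_eq] at this
    rw [Real.sqrt_mul (by positivity), Real.sqrt_mul (by positivity)]
    simpa [Pool.Agent.H92.RapidDecay.Tr] using this
  · rintro ⟨P, hP⟩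
    set K := (insert 1 (S ∪ S⁻¹)).card with hK
    refine ⟨2 + (2 * (Polynomial.C (K : ℝ) * Polynomial.X) + 1) ^ 2 * (8 * P), fun r F G H f g h hF => ?_⟩
    have hp : 0 ≤ P.eval (r : ℝ) := by
      have := hP r {1} {1} {1} (by simpa using Finset.one_mem_pow (by simp))
      simp only [Finset.card_singleton, Nat.cast_one, mul_one, Real.sqrt_one] at this
      exact (Nat.cast_nonneg _).trans this
    have hL : F.card ≤ 2 ^ (K * r) := by
      refine (Finset.card_le_card hF).trans (Finset.card_pow_le.trans ?_)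
      rw [pow_mul]
      exact Nat.pow_le_pow_left Nat.lt_two_pow_self.le r
    have := Pool.Agent.H92.RapidDecay.main' (G := G) (H := H) hp hL
      (fun A hA B C => hP r A B C (hA.trans hF)) f g h
    simpa using this

end Pool.Agent.S04527
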