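import Pool.Statements.S04532
import Pool.Agent.H99.Comm3

set_option autoImplicit false
open Pool Pool.MP_4545a8_an

namespace Pool.Agent.S04532

open H99.Comm

lemma fin_comm {α : Type} [Finite α] (a : α) (F G : α → α) (h : Function.Commute F G) :
    ∃ b m, 1 ≤ m ∧ F^[m] b = b ∧ G^[m] b = b := by
  obtain ⟨i, j, hij, e⟩ : ∃ i j : ℕ, i < j ∧ (F ∘ G)^[i] a = (F ∘ G)^[j] a := by
    obtain ⟨i, j, hne, e⟩ := Finite.exists_ne_map_eq_of_infinite fun n : ℕ => (F ∘ G)^[n] a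
    rcases lt_or_gt_of_ne hne with c | c
    · exact ⟨i, j, c, e⟩
    · exact ⟨j, i, c, e.symm⟩
  obtain ⟨r, rfl⟩ : ∃ r, j = (r + 1) + i := ⟨j - i - 1, by omega⟩
  rw [Function.iterate_add_apply] at e
  have cF : Function.Commute F ((F ∘ G)^[r + 1]) :=
    ((Function.Commute.refl F).comp_right h).iterate_right _
  have cG : Function.Commute G ((F ∘ G)^[r + 1]) :=
    (h.symm.comp_right (Function.Commute.refl G)).iterate_right _
  let β := {b : α // (F ∘ G)^[r + 1] b = b}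
  let F' : β → β := fun b => ⟨F b.1, by rw [← cF.eq, b.2]⟩
  let G' : β → β := fun b => ⟨G b.1, by rw [← cG.eq, b.2]⟩
  have iF : Function.Injective F' := fun b c e => by
    have e' : F b.1 = F c.1 := congrArg Subtype.val e
    apply Subtype.ext
    rw [← b.2, ← c.2, Function.iterate_succ_apply, Function.iterate_succ_apply]
    simp only [Function.comp]
    rw [h.eq, h.eq, e']
  have iG : Function.Injective G' := fun b c e => by
    have e' : G b.1 = G c.1 := congrArg Subtype.val e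
    apply Subtype.ext
    rw [← b.2, ← c.2, Function.iterate_succ_apply, Function.iterate_succ_apply]
    simp only [Function.comp]
    rw [e']
  let b : β := ⟨_, e.symm⟩
  obtain ⟨m1, p1, q1⟩ := iF.mem_periodicPts b
  obtain ⟨m2, p2, q2⟩ := iG.mem_periodicPts b
  have vF : ∀ n (c : β), (F'^[n] c).1 = F^[n] c.1 := fun n => by
    induction n with
    | zero => intro c; rfl
    | succ n ih => intro c; rw [Function.iterate_succ_apply, ih]; rfl
  have vG : ∀ n (c : β), (G'^[n] c).1 = G^[n] c.1 := fun n => by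
    induction n with
    | zero => intro c; rfl
    | succ n ih => intro c; rw [Function.iterate_succ_apply, ih]; rfl
  refine ⟨b.1, m1 * m2, Nat.mul_pos p1 p2, ?_, ?_⟩
  · rw [← vF, (q1.mul_const m2).eq]
  · rw [← vG, (q2.const_mul m1).eq]

def NN : ℕ → ℕ
  | 0 => 1
  | n + 1 => NN n * 17 ^ (n + 1)

lemma NN_ge (n : ℕ) : n + 1 ≤ NN n := by
  induction n with
  | zero => simp [NN]
  | succ n ih =>
    have : 17 ≤ 17 ^ (n + 1) := by
      calc 17 = 17 ^ 1 := by norm_num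
        _ ≤ _ := Nat.pow_le_pow_right (by norm_num) (by omega)
    simp only [NN]; nlinarith

lemma NN_pos (n : ℕ) : (0 : ℝ) < NN n := by
  have := NN_ge n; exact_mod_cast (by omega : 0 < NN n)

noncomputable def pt (ξ : ℕ → ℕ) : ℝ := ⨆ n, (ξ n : ℝ) / NN n

lemma thr_step {ξ : ℕ → ℕ} (h : Thr ξ) (n : ℕ) :
    (ξ n : ℝ) / NN n ≤ (ξ (n + 1) : ℝ) / NN (n + 1) ∧
    ((ξ (n + 1) : ℝ) + 1) / NN (n + 1) ≤ ((ξ n : ℝ) + 1) / NN n := by
  have hp : 0 < 17 ^ (n + 1) := by positivity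
  have a := Nat.div_add_mod' (ξ (n + 1)) (17 ^ (n + 1))
  have b := Nat.mod_lt (ξ (n + 1)) hp
  rw [← h n] at a
  have c : ξ n * 17 ^ (n + 1) ≤ ξ (n + 1) := by omega
  have d : ξ (n + 1) + 1 ≤ (ξ n + 1) * 17 ^ (n + 1) := by rw [add_mul]; omega
  have c' : (ξ n : ℝ) * 17 ^ (n + 1) ≤ ξ (n + 1) := by exact_mod_cast c
  have d' : (ξ (n + 1) : ℝ) + 1 ≤ (ξ n + 1) * 17 ^ (n + 1) := by exact_mod_cast d
  have e : (NN (n + 1) : ℝ) = NN n * 17 ^ (n + 1) := by simp [NN]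
  have p := NN_pos n
  rw [e]
  constructor
  · rw [div_le_div_iff₀ p (by positivity)]; nlinarith
  · rw [div_le_div_iff₀ (by positivity) p]; nlinarith

lemma pt_mem {ξ : ℕ → ℕ} (h : Thr ξ) (n : ℕ) :
    (ξ n : ℝ) / NN n ≤ pt ξ ∧ pt ξ ≤ ((ξ n : ℝ) + 1) / NN n := by
  have m1 : Monotone fun n => (ξ n : ℝ) / NN n := monotone_nat_of_le_succ fun n => (thr_step h n).1
  have m2 : Antitone fun n => ((ξ n : ℝ) + 1) / NN n :=
    antitone_nat_of_succ_le fun n => (thr_step h n).2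
  have key : ∀ i j, (ξ i : ℝ) / NN i ≤ ((ξ j : ℝ) + 1) / NN j := fun i j => by
    calc (ξ i : ℝ) / NN i ≤ (ξ (max i j) : ℝ) / NN (max i j) := m1 (le_max_left i j)
      _ ≤ ((ξ (max i j) : ℝ) + 1) / NN (max i j) := by
        have := NN_pos (max i j); gcongr; linarith
      _ ≤ _ := m2 (le_max_right i j)
  exact ⟨le_ciSup (f := fun n => (ξ n : ℝ) / NN n) ⟨_, by rintro _ ⟨i, rfl⟩; exact key i 0⟩ n,
    ciSup_le fun i => key i n⟩

lemma pt_close {ξ η : ℕ → ℕ} (h : Thr ξ) (h' : Thr η) {n : ℕ} (hn : Nr (ξ n) (η n)) :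
    |pt ξ - pt η| ≤ 2 / NN n := by
  obtain ⟨a, b⟩ := pt_mem h n
  obtain ⟨c, d⟩ := pt_mem h' n
  have p := NN_pos n
  have e1 : (ξ n : ℝ) ≤ η n + 1 := by exact_mod_cast hn.1
  have e2 : (η n : ℝ) ≤ ξ n + 1 := by exact_mod_cast hn.2
  rw [div_le_iff₀ p] at a c
  rw [le_div_iff₀ p] at b d
  rw [abs_le, le_div_iff₀ p, neg_le, le_div_iff₀ p]
  constructor <;> nlinarith

lemma nr_of {ξ η : ℕ → ℕ} (h : Thr ξ) (h' : Thr η) {n : ℕ} (hn : |pt ξ - pt η| < 1 / NN n) :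
    Nr (ξ n) (η n) := by
  obtain ⟨a, b⟩ := pt_mem h n
  obtain ⟨c, d⟩ := pt_mem h' n
  have p := NN_pos n
  rw [div_le_iff₀ p] at a c
  rw [le_div_iff₀ p] at b d
  rw [abs_lt, lt_div_iff₀ p, neg_lt, lt_div_iff₀ p] at hn
  have e1 : (ξ n : ℝ) < η n + 2 := by nlinarith [hn.1, hn.2]
  have e2 : (η n : ℝ) < ξ n + 2 := by nlinarith [hn.1, hn.2]
  have e3 : ξ n < η n + 2 := by exact_mod_cast e1
  have e4 : η n < ξ n + 2 := by exact_mod_cast e2
  unfold Nr; omega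

lemma small {ε : ℝ} (hε : 0 < ε) : ∃ n, 2 / (NN n : ℝ) < ε := by
  obtain ⟨n, hn⟩ := exists_nat_gt (2 / ε)
  refine ⟨n, ?_⟩
  have a : (n : ℝ) + 1 ≤ NN n := by exact_mod_cast NN_ge n
  rw [div_lt_iff₀ (NN_pos n)]
  rw [div_lt_iff₀ hε] at hn
  nlinarith

lemma eq_of_small {x y : ℝ} (h : ∀ n, |x - y| ≤ 2 / NN n) : x = y := by
  by_contra hne
  obtain ⟨n, hn⟩ := small (abs_pos.2 (sub_ne_zero.2 hne))
  exact absurd (h n) (not_le.2 hn)

noncomputable def th (x : ℝ) (n : ℕ) : ℕ := ⌊x * NN n⌋₊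

lemma th_thr (x : ℝ) : Thr (th x) := fun n => by
  unfold th
  rw [← Nat.floor_div_natCast]
  congr 1
  simp only [NN]; push_cast; field_simp

lemma pt_th {x : ℝ} (hx : 0 ≤ x) : pt (th x) = x := eq_of_small fun n => by
  obtain ⟨a, b⟩ := pt_mem (th_thr x) n
  have p := NN_pos n
  have c : (th x n : ℝ) ≤ x * NN n := Nat.floor_le (by positivity)
  have d : x * NN n < th x n + 1 := Nat.lt_floor_add_one _
  rw [div_le_iff₀ p] at a
  rw [le_div_iff₀ p] at b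
  rw [abs_le, le_div_iff₀ p, neg_le, le_div_iff₀ p]
  constructor <;> nlinarith

structure Good (t : (ℕ → ℕ) → ℕ → ℕ) : Prop where
  thr : ∀ ξ, Thr ξ → Thr (t ξ)
  nr : ∀ ξ η n, Nr (ξ (n + 1)) (η (n + 1)) → Nr (t ξ n) (t η n)
  z : ∀ ξ, t ξ 0 = 0

lemma nr_adj {a b : ℕ} (h : Nr a b) : b = a ∨ b = a + 1 ∨ b + 1 = a := by unfold Nr at h; omega

lemma good_f : Good ft := ⟨fun _ h => h.ft, fun _ _ n h => ((T_inv n).rule' (nr_adj h)).1,
  fun _ => F0 _⟩
lemma good_g : Good gt := ⟨fun _ h => h.gt, fun _ _ n h => ((T_inv n).rule' (nr_adj h)).2.1,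
  fun _ => G0 _⟩

lemma Good.mem {t : (ℕ → ℕ) → ℕ → ℕ} (h : Good t) {ξ : ℕ → ℕ} (hξ : Thr ξ) :
    pt (t ξ) ∈ Set.Icc (0 : ℝ) 1 := by
  have := pt_mem (h.thr ξ hξ) 0
  simpa [h.z, NN] using this

lemma Good.close {t : (ℕ → ℕ) → ℕ → ℕ} (h : Good t) {ξ η : ℕ → ℕ} (hξ : Thr ξ) (hη : Thr η)
    {n : ℕ} (hn : |pt ξ - pt η| < 1 / NN (n + 1)) : |pt (t ξ) - pt (t η)| ≤ 2 / NN n :=
  pt_close (h.thr _ hξ) (h.thr _ hη) (h.nr _ _ _ (nr_of hξ hη hn))

noncomputable def Good.map {t : (ℕ → ℕ) → ℕ → ℕ} (h : Good t) :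
    C(Set.Icc (0 : ℝ) 1, Set.Icc (0 : ℝ) 1) where
  toFun x := ⟨pt (t (th x.1)), h.mem (th_thr _)⟩
  continuous_toFun := by
    rw [Metric.continuous_iff]
    intro b ε hε
    obtain ⟨n, hn⟩ := small hε
    refine ⟨1 / NN (n + 1), by have := NN_pos (n + 1); positivity, fun a ha => ?_⟩
    refine lt_of_le_of_lt (h.close (th_thr _) (th_thr _) ?_) hn
    rw [pt_th a.2.1, pt_th b.2.1]
    exact ha

lemma Good.map_pt {t : (ℕ → ℕ) → ℕ → ℕ} (h : Good t) {ξ : ℕ → ℕ} (hξ : Thr ξ)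
    {x : Set.Icc (0 : ℝ) 1} (e : pt ξ = x.1) : pt (t ξ) = (h.map x).1 :=
  eq_of_small fun n => h.close hξ (th_thr _) (by
    rw [pt_th x.2.1, e, sub_self, abs_zero]; have := NN_pos (n + 1); positivity)

lemma Good.it {t : (ℕ → ℕ) → ℕ → ℕ} (h : Good t) (k : ℕ) : ∀ {ξ : ℕ → ℕ}, Thr ξ →
    ∀ {x : Set.Icc (0 : ℝ) 1}, pt ξ = x.1 → Thr (t^[k] ξ) ∧ pt (t^[k] ξ) = ((h.map)^[k] x).1 := by
  induction k with
  | zero => intro ξ hξ x e; exact ⟨hξ, e⟩
  | succ k ih => intro ξ hξ x e; exact ih (h.thr _ hξ) (h.map_pt hξ e)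

lemma thr_ne {ξ η : ℕ → ℕ} (h : Thr ξ) (h' : Thr η) {n : ℕ} (e : ξ n ≠ η n) (m : ℕ) (hm : n ≤ m) :
    ξ m ≠ η m := by
  induction m, hm using Nat.le_induction with
  | base => exact e
  | succ m _ ih => intro c; apply ih; rw [h m, h' m, c]

lemma fib_finite (x : ℝ) : {ξ : ℕ → ℕ | Thr ξ ∧ pt ξ = x}.Finite := by
  have key : ∀ a b c : ℕ → ℕ, (Thr a ∧ pt a = x) → (Thr b ∧ pt b = x) → (Thr c ∧ pt c = x) →
      a ≠ b → c = a ∨ c = b := by
    intro a b c ha hb hc hab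
    by_contra hne
    push Not at hne
    obtain ⟨i, hi⟩ := Function.ne_iff.1 hab
    obtain ⟨j, hj⟩ := Function.ne_iff.1 hne.1
    obtain ⟨l, hl⟩ := Function.ne_iff.1 hne.2
    have e1 := thr_ne ha.1 hb.1 hi (i + j + l) (by omega)
    have e2 := thr_ne hc.1 ha.1 hj (i + j + l) (by omega)
    have e3 := thr_ne hc.1 hb.1 hl (i + j + l) (by omega)
    have p : (0 : ℝ) < 1 / NN (i + j + l) := by have := NN_pos (i + j + l); positivity
    have n1 := nr_of ha.1 hb.1 (n := i + j + l) (by rw [ha.2, hb.2]; simpa using p)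
    have n2 := nr_of hc.1 ha.1 (n := i + j + l) (by rw [ha.2, hc.2]; simpa using p)
    have n3 := nr_of hc.1 hb.1 (n := i + j + l) (by rw [hc.2, hb.2]; simpa using p)
    unfold Nr at *; omega
  by_cases h : ∃ a b : ℕ → ℕ, (Thr a ∧ pt a = x) ∧ (Thr b ∧ pt b = x) ∧ a ≠ b
  · obtain ⟨a, b, ha, hb, hab⟩ := h
    exact (Set.toFinite {a, b}).subset fun c hc => key a b c ha hb hc hab
  · push Not at h
    exact Set.Subsingleton.finite fun a ha b hb => h a b ha hb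

/-- The negation of the preceding statement: For every compact interval [a,b] and any two commuting continuous maps f, g from [a,b] to itself, some point of [a,b] is periodic for both f and g. -/
theorem result :
    ¬ (∀ a b : ℝ, a ≤ b →
      ∀ f g : C(Set.Icc a b, Set.Icc a b),
        (⇑f ∘ ⇑g = ⇑g ∘ ⇑f) →
          (Function.periodicPts ⇑f ∩ Function.periodicPts ⇑g).Nonempty) := by
  intro H
  obtain ⟨x, ⟨k1, p1, q1⟩, ⟨k2, p2, q2⟩⟩ := H 0 1 zero_le_one good_f.map good_g.map (by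
    funext x
    apply Subtype.ext
    have a := good_f.map_pt (th_thr x.1).gt (good_g.map_pt (th_thr x.1) (pt_th x.2.1))
    have b := good_g.map_pt (th_thr x.1).ft (good_f.map_pt (th_thr x.1) (pt_th x.2.1))
    simp only [Function.comp]
    rw [← a, ← b, ftgt.eq])
  have r1 := (q1.mul_const k2).eq
  have r2 := (q2.const_mul k1).eq
  set k := k1 * k2
  have hk : 0 < k := Nat.mul_pos p1 p2
  let α := {ξ : ℕ → ℕ | Thr ξ ∧ pt ξ = x.1}
  haveI : Finite α := fib_finite x.1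
  let F : α → α := fun ξ => ⟨ft^[k] ξ.1, by
    have := good_f.it k ξ.2.1 ξ.2.2; rw [r1] at this; exact this⟩
  let G : α → α := fun ξ => ⟨gt^[k] ξ.1, by
    have := good_g.it k ξ.2.1 ξ.2.2; rw [r2] at this; exact this⟩
  obtain ⟨b, m, hm, e1, e2⟩ := fin_comm (⟨th x.1, th_thr _, pt_th x.2.1⟩ : α) F G
    fun ξ => Subtype.ext ((ftgt.iterate_iterate k k).eq ξ.1)
  have vF : ∀ n (c : α), (F^[n] c).1 = ft^[k * n] c.1 := fun n => by
    induction n with
    | zero => intro c; rfl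
    | succ n ih => intro c; rw [Function.iterate_succ_apply, ih, mul_add, mul_one,
        Function.iterate_add_apply]
  have vG : ∀ n (c : α), (G^[n] c).1 = gt^[k * n] c.1 := fun n => by
    induction n with
    | zero => intro c; rfl
    | succ n ih => intro c; rw [Function.iterate_succ_apply, ih, mul_add, mul_one,
        Function.iterate_add_apply]
  exact no_orb (Nat.mul_pos hk hm) b.1 ⟨b.2.1, by rw [← vF, e1], by rw [← vG, e2]⟩

end Pool.Agent.S04532
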