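import Pool.Statements.S04536
import Mathlib

set_option autoImplicit false
open Pool Pool.MP_45d43b_an

namespace Pool.Agent.S04536

open Filter Topology

abbrev C0 := ZeroAtInftyContinuousMap ℕ ℝ

/-- A real sequence tending to zero, as an element of c_0. -/
def mk (u : ℕ → ℝ) (hu : Tendsto u atTop (𝓝 0)) : C0 :=
  { toFun := u
    continuous_toFun := continuous_of_discreteTopology
    zero_at_infty' := by
      rw [cocompact_eq_cofinite, Nat.cofinite_eq_atTop]; exact hu }

@[simp] lemma mk_apply (u : ℕ → ℝ) (hu : Tendsto u atTop (𝓝 0)) (n : ℕ) : mk u hu n = u n := rfl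

lemma tend (x : C0) : Tendsto (fun n => x n) atTop (𝓝 0) := by
  have := x.zero_at_infty'
  rw [cocompact_eq_cofinite, Nat.cofinite_eq_atTop] at this
  exact this

lemma abs_le_norm (x : C0) (n : ℕ) : |x n| ≤ ‖x‖ := by
  have := BoundedContinuousFunction.norm_coe_le_norm x.toBCF n
  simpa using this

lemma norm_le (x : C0) (c : ℝ) (hc : 0 ≤ c) (h : ∀ n, |x n| ≤ c) : ‖x‖ ≤ c := by
  rw [← ZeroAtInftyContinuousMap.norm_toBCF_eq_norm]
  exact (BoundedContinuousFunction.norm_le hc).2 (fun n => by simpa using h n)

/-- The map x ↦ (1 - ‖x‖, x_0, x_1, ...). -/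
noncomputable def T (x : C0) : C0 :=
  mk (fun n => Nat.casesOn n (1 - ‖x‖) (fun k => x k)) (by
    rw [← tendsto_add_atTop_iff_nat 1]
    exact tend x)

@[simp] lemma T_zero (x : C0) : T x 0 = 1 - ‖x‖ := rfl
@[simp] lemma T_succ (x : C0) (n : ℕ) : T x (n + 1) = x n := rfl

/-- The unit vectors. -/
noncomputable def e (k : ℕ) : C0 :=
  mk (fun n => if n = k then 1 else 0) (by
    apply tendsto_const_nhds.congr'
    filter_upwards [eventually_gt_atTop k] with n hn
    simp [hn.ne'])

lemma e_apply (k n : ℕ) : e k n = if n = k then 1 else 0 := rfl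

lemma norm_e (k : ℕ) : ‖e k‖ = 1 := by
  apply le_antisymm
  · apply norm_le _ _ zero_le_one
    intro n; rw [e_apply]; split_ifs <;> simp
  · have := abs_le_norm (e k) k
    simpa [e_apply] using this

lemma T_e (k : ℕ) : T (e k) = e (k + 1) := by
  ext n
  cases n with
  | zero => simp [norm_e, e_apply]
  | succ n => simp [e_apply]

lemma T_lip : LipschitzWith 1 T := by
  apply LipschitzWith.of_dist_le_mul
  intro x y
  simp only [NNReal.coe_one, one_mul, dist_eq_norm]
  apply norm_le _ _ (norm_nonneg _)
  intro n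
  cases n with
  | zero =>
    simp only [ZeroAtInftyContinuousMap.coe_sub, Pi.sub_apply, T_zero]
    have := abs_norm_sub_norm_le y x
    rw [norm_sub_rev] at this
    convert this using 2; ring
  | succ n =>
    have := abs_le_norm (x - y) n
    simpa using this

lemma T_maps : Set.MapsTo T (Metric.closedBall 0 1) (Metric.closedBall 0 1) := by
  intro x hx
  simp only [mem_closedBall_zero_iff] at hx ⊢
  apply norm_le _ _ zero_le_one
  intro n
  cases n with
  | zero =>
    rw [T_zero, abs_le]; have := norm_nonneg x; constructor <;> linarith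
  | succ n => rw [T_succ]; exact (abs_le_norm x n).trans hx

lemma T_nofix (x : C0) : T x ≠ x := by
  intro h
  have h1 : ∀ n, x n = x 0 := by
    intro n
    induction n with
    | zero => rfl
    | succ n ih =>
      have := T_succ x n
      rw [h] at this
      rw [this, ih]
  have h2 : x 0 = 0 := by
    have := tend x
    simp only [h1] at this
    exact tendsto_nhds_unique tendsto_const_nhds this
  have h3 : x = 0 := by ext n; rw [h1 n, h2]; rfl
  have h4 : T x 0 = x 0 := by rw [h]
  rw [T_zero, h2, h3] at h4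
  simp at h4

lemma weak_null (f : StrongDual ℝ C0) : Tendsto (fun n => f (e n)) atTop (𝓝 0) := by
  have hs : Summable (fun n => |f (e n)|) := by
    apply summable_of_sum_le (c := ‖f‖) (fun n => abs_nonneg _)
    intro F
    have h1 : ∑ n ∈ F, |f (e n)| = f (∑ n ∈ F, (SignType.sign (f (e n)) : ℝ) • e n) := by
      rw [map_sum]
      apply Finset.sum_congr rfl
      intro n _
      rw [map_smul, smul_eq_mul, sign_mul_self]
    have h2 : ‖∑ n ∈ F, (SignType.sign (f (e n)) : ℝ) • e n‖ ≤ 1 := by
      apply norm_le _ _ zero_le_one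
      intro m
      have : (∑ n ∈ F, (SignType.sign (f (e n)) : ℝ) • e n) m
          = ∑ n ∈ F, (SignType.sign (f (e n)) : ℝ) * (if m = n then 1 else 0) := by
        induction F using Finset.induction_on with
        | empty => simp
        | insert a s ha ih => 
          rw [Finset.sum_insert ha, Finset.sum_insert ha, ← ih]
          · simp [e_apply]
          · rw [map_sum]
            apply Finset.sum_congr rfl
            intro n _
            rw [map_smul, smul_eq_mul, sign_mul_self]
      rw [this]
      simp only [mul_ite, mul_one, mul_zero, Finset.sum_ite_eq]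
      split_ifs
      · rcases (SignType.sign (f (e m))) with _ | _ | _ <;> simp
      · simp
    rw [h1]
    calc _ ≤ ‖f (∑ n ∈ F, (SignType.sign (f (e n)) : ℝ) • e n)‖ := le_abs_self _
      _ ≤ ‖f‖ * ‖∑ n ∈ F, (SignType.sign (f (e n)) : ℝ) • e n‖ := f.le_opNorm _
      _ ≤ ‖f‖ * 1 := by gcongr
      _ = ‖f‖ := mul_one _
  exact hs.of_abs.tendsto_atTop_zero

lemma weak_tendsto :
    Tendsto (fun n => toWeakSpace ℝ C0 (e n)) atTop (𝓝 (toWeakSpace ℝ C0 0)) := by
  have hinj : Function.Injective (topDualPairing ℝ C0).flip := by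
    intro x y hxy
    rw [SeparatingDual.eq_iff_forall_dual_eq (R := ℝ)]
    intro g
    exact congrArg (fun φ => φ g) hxy
  refine (WeakBilin.tendsto_iff_forall_eval_tendsto _ hinj).2 ?_
  intro f
  have := weak_null f
  have h0 : ((topDualPairing ℝ C0).flip (toWeakSpace ℝ C0 0)) f = 0 := by
    change f 0 = 0
    simp
  rw [h0]
  exact this

theorem result :
    ¬ (∀ (S : Type) [CommSemigroup S] (C : Set (ZeroAtInftyContinuousMap ℕ ℝ))
      (T : S → ZeroAtInftyContinuousMap ℕ ℝ → ZeroAtInftyContinuousMap ℕ ℝ),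
      C.Nonempty → IsClosed C → Convex ℝ C →
      (∀ s, Set.MapsTo (T s) C C) →
      (∀ s, LipschitzOnWith 1 (T s) C) →
      (∀ s t, ∀ x ∈ C, T (s * t) x = T s (T t x)) →
      (∃ c ∈ C, IsCompact (closure
        (toWeakSpace ℝ (ZeroAtInftyContinuousMap ℕ ℝ) '' Set.range (fun s => T s c)))) →
      ∃ x ∈ C, ∀ s, T s x = x) := by
  intro h
  have hit : ∀ n, T^[n] (e 0) = e n := by
    intro n
    induction n with
    | zero => rfl
    | succ n ih => rw [Function.iterate_succ_apply', ih, T_e]
  obtain ⟨x, -, hx⟩ := h (Multiplicative ℕ) (Metric.closedBall 0 1)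
    (fun s => T^[Multiplicative.toAdd s]) ⟨0, by simp⟩ Metric.isClosed_closedBall
    (convex_closedBall 0 1) (fun s => T_maps.iterate _)
    (fun s => by simpa using (T_lip.iterate (Multiplicative.toAdd s)).lipschitzOnWith)
    (fun s t x _ => by simp [Function.iterate_add_apply])
    ⟨e 0, by simp [norm_e], by
      apply (weak_tendsto.isCompact_insert_range).closure_of_subset
      rintro _ ⟨_, ⟨s, rfl⟩, rfl⟩
      exact Or.inr ⟨Multiplicative.toAdd s, by simp only [hit]⟩⟩
  exact T_nofix x (hx (Multiplicative.ofAdd 1))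

end Pool.Agent.S04536
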