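import Pool.Statements.S04563
import Pool.Agent.H98.Surj

set_option autoImplicit false
open Pool Pool.MP_498e64_an

namespace Pool.Agent.S04563

open Pool.Agent.H98.Surj

theorem op_inj {M A ι : Type} [Monoid M] (σ : ι → M) (μ : (ι → A) → A) :
    ca (fun i => MulOpposite.op (σ i)) μ =
      (fun (y : M → A) (m : Mᵐᵒᵖ) => y m.unop) ∘
        (fun (x : M → A) (m : M) => μ (fun i => x (σ i * m))) ∘
        (fun (y : Mᵐᵒᵖ → A) (m : M) => y (MulOpposite.op m)) := by
  funext x m
  rfl

theorem bij1 {M A : Type} :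
    Function.Bijective (fun (y : M → A) (m : Mᵐᵒᵖ) => y m.unop) :=
  (Equiv.arrowCongr MulOpposite.opEquiv (Equiv.refl A)).bijective

theorem bij2 {M A : Type} :
    Function.Bijective (fun (y : Mᵐᵒᵖ → A) (m : M) => y (MulOpposite.op m)) :=
  (Equiv.arrowCongr MulOpposite.opEquiv (Equiv.refl A)).symm.bijective

theorem inj_iff {M A ι : Type} [Monoid M] (σ : ι → M) (μ : (ι → A) → A) :
    Function.Injective (ca (fun i => MulOpposite.op (σ i)) μ) ↔
      Function.Injective (fun (x : M → A) (m : M) => μ (fun i => x (σ i * m))) := by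
  rw [op_inj, Function.Injective.of_comp_iff bij1.1, Function.Injective.of_comp_iff' _ bij2]

theorem surj_iff {M A ι : Type} [Monoid M] (σ : ι → M) (μ : (ι → A) → A) :
    Function.Surjective (ca (fun i => MulOpposite.op (σ i)) μ) ↔
      Function.Surjective (fun (x : M → A) (m : M) => μ (fun i => x (σ i * m))) := by
  rw [op_inj, Function.Surjective.of_comp_iff' bij1, Function.Surjective.of_comp_iff _ bij2.2]

/-- Every locally surjunctive monoid is surjunctive. -/
theorem result :
    ∀ (M : Type) [Monoid M],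
      (∀ N : Submonoid M, N.FG →
        ∀ (A : Type) [Fintype A] (S : Finset N) (μ : (↥S → A) → A),
          Function.Injective (fun (x : N → A) (m : N) => μ (fun s => x (s.1 * m))) →
          Function.Surjective (fun (x : N → A) (m : N) => μ (fun s => x (s.1 * m)))) →
      ∀ (A : Type) [Fintype A] (S : Finset M) (μ : (↥S → A) → A),
        Function.Injective (fun (x : M → A) (m : M) => μ (fun s => x (s.1 * m))) →
        Function.Surjective (fun (x : M → A) (m : M) => μ (fun s => x (s.1 * m))) := by
  intro M _ hM A _ S μ hinj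
  classical
  rw [← surj_iff (fun s : S => s.1) μ]
  rw [← inj_iff (fun s : S => s.1) μ] at hinj
  refine transfer _ μ (fun G => ?_) hinj
  let N : Submonoid M := Submonoid.closure ((G.image MulOpposite.unop : Finset M) : Set M)
  have hfg : N.FG := ⟨_, rfl⟩
  let φ : ↥N.op →* (↥N)ᵐᵒᵖ :=
    { toFun := fun g => MulOpposite.op ⟨g.1.unop, g.2⟩
      map_one' := rfl
      map_mul' := fun _ _ => rfl }
  refine ⟨N.op, (↥N)ᵐᵒᵖ, inferInstance, φ, ?_, ?_, ?_⟩
  · intro g hg
    rw [Submonoid.mem_op]
    exact Submonoid.subset_closure (Finset.mem_coe.2 (Finset.mem_image_of_mem _ hg))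
  · intro a b _ _ hab
    have h1 : a.1.unop = b.1.unop := congrArg (fun q : (↥N)ᵐᵒᵖ => (q.unop : M)) hab
    exact Subtype.ext (MulOpposite.unop_injective h1)
  · intro σ' h
    have hσ : σ' = fun i => MulOpposite.op ((σ' i).unop) := rfl
    rw [hσ] at h ⊢
    rw [inj_iff] at h
    rw [surj_iff]
    let S' : Finset N := Finset.univ.image (fun i => (σ' i).unop)
    let μ' : (↥S' → A) → A := fun p =>
      μ (fun i => p ⟨(σ' i).unop, Finset.mem_image_of_mem _ (Finset.mem_univ i)⟩)
    exact hM N hfg A S' μ' h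

end Pool.Agent.S04563
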