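import Pool.Statements.S04566
import Pool.Agent.H92.Shift1

set_option autoImplicit false
open Pool Pool.MP_4998f1_an

namespace Pool.Agent.S04566

/-- The negation of the preceding statement: For a closed commutative operator algebra A on a Banach space with ‖a²‖=‖a‖², and invertible U with UAU⁻¹=A, if periodic characters are meagre in the Shilov boundary, σ(U) lies in the unit circle, and A is inverse-closed, then σ(aU) on X equals the spectrum of b↦a·UbU⁻¹ on A. -/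
theorem result :
    ¬ (∀ (X : Type) [NormedAddCommGroup X] [NormedSpace ℂ X] [CompleteSpace X]
    (A : Subalgebra ℂ (X →L[ℂ] X)) (U : (X →L[ℂ] X)ˣ)
    (S : Set (WeakDual.characterSpace ℂ A)) (P : Set (WeakDual.characterSpace ℂ A)),
    IsClosed (A : Set (X →L[ℂ] X)) →
    (∀ a ∈ A, ∀ b ∈ A, a * b = b * a) →
    (∀ a ∈ A, ‖a * a‖ = ‖a‖ ^ 2) →
    (∀ a ∈ A, U.val * a * U.inv ∈ A) →
    (∀ a ∈ A, U.inv * a * U.val ∈ A) →
    S = ⋂₀ {K : Set (WeakDual.characterSpace ℂ A) | IsClosed K ∧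
          ∀ a : A, ∃ χ ∈ K, ∀ ψ : WeakDual.characterSpace ℂ A, ‖ψ a‖ ≤ ‖χ a‖} →
    P = {χ : WeakDual.characterSpace ℂ A | ∃ n : ℕ, 0 < n ∧
          ∀ (a : X →L[ℂ] X) (ha : a ∈ A) (b : X →L[ℂ] X) (hb : b ∈ A),
            b = (U ^ n).val * a * (U ^ n).inv → χ (⟨b, hb⟩ : A) = χ (⟨a, ha⟩ : A)} →
    IsMeagre {x : S | x.val ∈ P} →
    spectrum ℂ U.val ⊆ Metric.sphere (0 : ℂ) 1 →
    (∀ (a : X →L[ℂ] X) (ha : a ∈ A), IsUnit a → IsUnit (⟨a, ha⟩ : A)) →
    ∀ a ∈ A, ∀ μ : ℂ,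
      (μ ∈ spectrum ℂ (a * U.val) ↔
        ¬ ∀ c ∈ A, ∃! b, b ∈ A ∧ c = μ • b - a * (U.val * b * U.inv))) := by
  intro H
  have H1 := H H92.Shift.X H92.Shift.A (H92.Shift.U H92.Shift.lam) _ _ H92.Shift.A_closed
    (by
      rintro a ⟨F, -, rF⟩ b ⟨G, -, rG⟩
      exact H92.Shift.op_ext fun f p => by
        rw [mul_apply_eq_comp, mul_apply_eq_comp, rF, rG, rG, rF, mul_left_comm])
    H92.Shift.sq_norm
    (by rintro a ⟨F, hF, rF⟩; exact ⟨_, hF.rot _, (H92.Shift.conj rF _).1⟩)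
    (by rintro a ⟨F, hF, rF⟩; exact ⟨_, hF.rot _, (H92.Shift.conj rF _).2⟩) rfl rfl
    (by
      convert IsMeagre.empty
      rw [Set.eq_empty_iff_forall_notMem]
      rintro ⟨χ, hχ⟩ ⟨n, hn, h⟩
      obtain ⟨p, rfl⟩ := hχ _ ⟨H92.Shift.K_closed, H92.Shift.K_bd⟩
      have r := H92.Shift.conj_pow H92.Shift.lam n H92.Shift.ww_rep
      have hm : _ ∈ H92.Shift.A := ⟨_, ⟨Continuous.continuousOn (by fun_prop),
        fun w _ => differentiableOn_const ((H92.Shift.lam : ℂ) ^ n * w),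
        fun _ _ => Differentiable.differentiableOn (by fun_prop)⟩, r⟩
      have h1 := h _ H92.Shift.ww_mem _ hm rfl
      simp only at h1
      rw [H92.Shift.ev_apply _ _ r, H92.Shift.ev_apply _ _ H92.Shift.ww_rep] at h1
      have h2 : (H92.Shift.inc p).1.2 ≠ 0 := fun e => by
        have := p.2.2
        rw [show p.1.2 = 0 from e] at this
        simp at this
      exact H92.Shift.lam_pow hn (mul_left_eq_self₀.1 h1 |>.resolve_right h2))
    (H92.Shift.spec_unit _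
      ((norm_mul_le _ _).trans (mul_le_one₀ (H92.Shift.M_le zero_le_one fun p => by
        simp [H92.Shift.u, norm_ne_zero_iff.2 (H92.Shift.z_ne p)]) (norm_nonneg _) (H92.Shift.V_le _)))
      ((norm_mul_le _ _).trans (mul_le_one₀ (H92.Shift.M_le zero_le_one fun p => by
        simp [H92.Shift.u', norm_ne_zero_iff.2 (H92.Shift.z_ne p)]) (norm_nonneg _) (H92.Shift.V_le _))))
    H92.Shift.inv_closed H92.Shift.zz H92.Shift.zz_mem (-3 / 4)
  refine H92.Shift.not_spec _ (H1.2 fun h => ?_)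
  obtain ⟨b, ⟨⟨F, -, rF⟩, hb⟩, -⟩ := h 1 (one_mem _)
  let p : H92.Shift.Z := ⟨(-3 / 4, 0), ⟨⟨by norm_num, by norm_num⟩, by simp⟩, Or.inr rfl⟩
  have h1 : (1 : ℂ) = -3 / 4 * b 1 p - (-3 / 4) * ((H92.Shift.U H92.Shift.lam).val * b *
      (H92.Shift.U H92.Shift.lam).inv) 1 p := congr($hb 1 p)
  rw [(H92.Shift.conj rF _).1, rF] at h1
  simp [p] at h1

end Pool.Agent.S04566
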