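import Pool.Statements.S04585
import Pool.Agent.H91.Tsir

set_option autoImplicit false
open MeasureTheory Filter Topology
open Pool Pool.MP_4a5259_an

namespace Pool.Agent.S04585

theorem result :
    ∃ (X : Type) (_ : NormedAddCommGroup X) (_ : NormedSpace ℝ X) (_ : CompleteSpace X),
      Function.Surjective (NormedSpace.inclusionInDoubleDual ℝ X) ∧
      ¬ FiniteDimensional ℝ X ∧
      ∀ f : ℕ → ℝ → X,
        (∀ n, StronglyMeasurable (f n)) →
        (∃ C : NNReal, ∀ n, eLpNorm (f n) 1 (volume.restrict (Set.Icc (0 : ℝ) 1)) ≤ (C : ENNReal)) →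
        (∀ φ : StrongDual ℝ X,
          TendstoInMeasure (volume.restrict (Set.Icc (0 : ℝ) 1))
            (fun n t => φ (f n t)) atTop (fun _ => (0 : ℝ))) →
        ∃ g : ℕ → ℕ, StrictMono g ∧
          ∀ φ : StrongDual ℝ X,
            ∀ᵐ t ∂(volume.restrict (Set.Icc (0 : ℝ) 1)),
              Tendsto (fun k => φ (f (g k) t)) atTop (𝓝 0) := by
  haveI : CompleteSpace (StrongDual ℝ H91.Tsir.T) := inferInstance
  haveI : IsProbabilityMeasure (volume.restrict (Set.Icc (0 : ℝ) 1)) := ⟨by simp⟩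
  exact ⟨StrongDual ℝ H91.Tsir.T, inferInstance, inferInstance, inferInstance, H91.Tsir.reflDual,
    H91.Tsir.not_fd, fun f hf ⟨C, hC⟩ hm => H91.Tsir.D1 f hf hC hm⟩

end Pool.Agent.S04585
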