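import Pool.Statements.S04606
import Pool.Agent.H92.EllEnd

set_option autoImplicit false
open MeasureTheory
open Pool Pool.MP_4bee3f_an

namespace Pool.Agent.S04606
open Pool.Agent.H92.EllEnd

/-- The negation of the preceding statement: For all n≥2, k, open connected Ω⊆ℝⁿ, and linear elliptic systems with a locally Lipschitz a.e. solution u whose a.e. Jacobian equals a nonvanishing J: if A,B,c,J are C^{k,1} then u is C^{k+1,1}, and if A,B,c,J are C^{k+1} then u is C^{k+2}. -/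
theorem result :
    ¬ (∀ (n : ℕ), 2 ≤ n → ∀ (k : ℕ) (Ω : Set (EuclideanSpace ℝ (Fin n))), IsOpen Ω → IsConnected Ω →
  ∀ (A : Fin n → Fin n → Fin n → EuclideanSpace ℝ (Fin n) → ℝ)
    (B : Fin n → Fin n → EuclideanSpace ℝ (Fin n) → ℝ)
    (c : Fin n → EuclideanSpace ℝ (Fin n) → ℝ)
    (u : Fin n → EuclideanSpace ℝ (Fin n) → ℝ)
    (J : EuclideanSpace ℝ (Fin n) → ℝ),
  (∀ x ∈ Ω, ∀ ξ : Fin n → ℝ, ξ ≠ 0 →
      (Matrix.of fun i l => ∑ j, ξ j * A j i l x).det ≠ 0) →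
  (∀ i, ∀ x ∈ Ω, ∃ C : NNReal, ∃ U ∈ nhds x, LipschitzOnWith C (u i) (U ∩ Ω)) →
  (∀ᵐ x ∂(volume.restrict Ω), ∀ i,
      ∑ j, ∑ l, A j i l x * fderiv ℝ (u l) x (EuclideanSpace.single j 1)
        + ∑ l, B i l x * u l x = c i x) →
  (∀ x ∈ Ω, J x ≠ 0) →
  (∀ᵐ x ∂(volume.restrict Ω),
      (Matrix.of fun i j => fderiv ℝ (u i) x (EuclideanSpace.single j 1)).det = J x) →
  (((∀ j i l, ContDiffOn ℝ k (A j i l) Ω ∧ ∀ x ∈ Ω, ∃ C : NNReal, ∃ U ∈ nhds x,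
        LipschitzOnWith C (iteratedFDeriv ℝ k (A j i l)) (U ∩ Ω)) ∧
    (∀ i l, ContDiffOn ℝ k (B i l) Ω ∧ ∀ x ∈ Ω, ∃ C : NNReal, ∃ U ∈ nhds x,
        LipschitzOnWith C (iteratedFDeriv ℝ k (B i l)) (U ∩ Ω)) ∧
    (∀ i, ContDiffOn ℝ k (c i) Ω ∧ ∀ x ∈ Ω, ∃ C : NNReal, ∃ U ∈ nhds x,
        LipschitzOnWith C (iteratedFDeriv ℝ k (c i)) (U ∩ Ω)) ∧
    (ContDiffOn ℝ k J Ω ∧ ∀ x ∈ Ω, ∃ C : NNReal, ∃ U ∈ nhds x,
        LipschitzOnWith C (iteratedFDeriv ℝ k J) (U ∩ Ω)) →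
    ∀ i, ContDiffOn ℝ (k + 1) (u i) Ω ∧ ∀ x ∈ Ω, ∃ C : NNReal, ∃ U ∈ nhds x,
        LipschitzOnWith C (iteratedFDeriv ℝ (k + 1) (u i)) (U ∩ Ω)) ∧
   ((∀ j i l, ContDiffOn ℝ (k + 1) (A j i l) Ω) ∧
    (∀ i l, ContDiffOn ℝ (k + 1) (B i l) Ω) ∧
    (∀ i, ContDiffOn ℝ (k + 1) (c i) Ω) ∧
    ContDiffOn ℝ (k + 1) J Ω →
    ∀ i, ContDiffOn ℝ (k + 2) (u i) Ω))) := by
  intro hall
  have hΩ : ∀ x ∈ Metric.ball (0 : E4) (1 / 10), x ∈ Metric.ball (0 : E4) 1 := fun x hx =>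
    Metric.ball_subset_ball (by norm_num) hx
  have hae : ∀ᵐ x ∂(volume.restrict (Metric.ball (0 : E4) (1 / 10))), x ≠ 0 := by
    refine ae_restrict_of_ae ?_
    rw [ae_iff]
    simp
  have reg : ∀ f : E4 → ℝ, (∃ C, LipschitzWith C f) →
      ContDiffOn ℝ (0 : ℕ) f (Metric.ball (0 : E4) (1 / 10)) ∧
      ∀ x ∈ Metric.ball (0 : E4) (1 / 10), ∃ C : NNReal, ∃ U ∈ nhds x,
        LipschitzOnWith C (iteratedFDeriv ℝ 0 f) (U ∩ Metric.ball (0 : E4) (1 / 10)) := by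
    rintro f ⟨C, hC⟩
    refine ⟨by simpa using hC.continuous.continuousOn, fun x _ => ⟨1 * C, Set.univ,
      Filter.univ_mem, LipschitzWith.lipschitzOnWith ?_⟩⟩
    rw [iteratedFDeriv_zero_eq_comp]
    exact (LinearIsometryEquiv.lipschitz _).comp hC
  have key := (hall 4 (by norm_num) 0 (Metric.ball 0 (1 / 10)) Metric.isOpen_ball
    ((convex_ball _ _).isConnected (Metric.nonempty_ball.2 (by norm_num)))
    (fun j i l _ => AA j i l) (fun _ _ _ => 0) cc uu JJ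
    (fun x _ ξ hξ => ellip ξ hξ)
    (fun i x hx => by
      obtain ⟨C, hC⟩ := uu_lip i
      exact ⟨C, Set.univ, Filter.univ_mem, hC.mono fun y hy => hΩ y hy.2⟩)
    (hae.mono fun x hx i => by simpa using eqn x hx i)
    (fun x hx => JJ_ne x (by simpa using hx))
    (hae.mono fun x hx => jac x hx)).1
    ⟨fun j i l => reg _ ⟨_, LipschitzWith.const _⟩, fun i l => reg _ ⟨_, LipschitzWith.const _⟩,
      fun i => reg _ (cc_lip i), reg _ JJ_lip⟩ 0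
  obtain ⟨C, U, hU, h⟩ := key.2 0 (by simp)
  exact not_lip C _ (Filter.inter_mem hU (Metric.ball_mem_nhds _ (by norm_num))) h

end Pool.Agent.S04606
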