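import Pool.Statements.S04611
import Pool.Agent.H99.Karp

set_option autoImplicit false
open Pool Pool.MP_4c66eb_an

namespace Pool.Agent.S04611

/-- For real f_0..f_n with f_n nonzero, if all complex zeros of sum f_k z^k are real and negative, then every root of P_n(z) = sum f_k f_{n-k} C(n,k)[(z)_k(z)_{n-k} - (z+1)_k(z-1)_{n-k}] is real and negative; the zero polynomial has no roots. -/
theorem result :
    ∀ (n : ℕ) (f : ℕ → ℝ), f n ≠ 0 →
      (∀ z : ℂ, (∑ k ∈ Finset.range (n + 1), (f k : ℂ) * z ^ k) = 0 →
          z.im = 0 ∧ z.re < 0) →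
      ∀ z ∈ (∑ k ∈ Finset.range (n + 1),
          Polynomial.C (((f k * f (n - k) * (n.choose k : ℝ)) : ℝ) : ℂ) *
            (ascPochhammer ℂ k * ascPochhammer ℂ (n - k) -
              (ascPochhammer ℂ k).comp (Polynomial.X + 1) *
                (ascPochhammer ℂ (n - k)).comp (Polynomial.X - 1))).roots,
        z.im = 0 ∧ z.re < 0 := by
  intro n f hn hf z hz
  have hF : H99.Karp.NR (H99.Karp.pol n fun k => (f k : ℂ)) := by
    intro w hw
    rw [H99.Karp.pol_eval] at hw
    exact hf w hw
  have hW := H99.Karp.NR_W hF (by exact_mod_cast hn)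
  have hmain := H99.Karp.main (H99.Karp.pol_natDegree n _) (by
    intro k hk
    rw [H99.Karp.pol_coeff, H99.Karp.pol_coeff, if_pos hk, if_pos (Nat.sub_le _ _),
      Nat.choose_symm hk, Nat.sub_sub_self hk]
    ring) hW
  have he : ∀ w : ℂ, (∑ k ∈ Finset.range (n + 1),
          Polynomial.C (((f k * f (n - k) * (n.choose k : ℝ)) : ℝ) : ℂ) *
            (ascPochhammer ℂ k * ascPochhammer ℂ (n - k) -
              (ascPochhammer ℂ k).comp (Polynomial.X + 1) *
                (ascPochhammer ℂ (n - k)).comp (Polynomial.X - 1))).eval w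
      = H99.Karp.L w w n (H99.Karp.pol n fun k => (f k : ℂ) * f (n - k) * n.choose k)
        - H99.Karp.L (w + 1) (w - 1) n
          (H99.Karp.pol n fun k => (f k : ℂ) * f (n - k) * n.choose k) := by
    intro w
    unfold H99.Karp.L
    rw [Polynomial.eval_finsetSum, ← Finset.sum_sub_distrib]
    refine Finset.sum_congr rfl fun k hk => ?_
    rw [H99.Karp.pol_coeff, if_pos (Nat.lt_succ_iff.1 (Finset.mem_range.1 hk))]
    simp only [Polynomial.eval_mul, Polynomial.eval_C, Polynomial.eval_sub, Polynomial.eval_comp,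
      Polynomial.eval_add, Polynomial.eval_X, Polynomial.eval_one, H99.Karp.asc_eval]
    push_cast
    ring
  obtain ⟨hne, hroot⟩ := Polynomial.mem_roots'.1 hz
  rcases hmain with h | h
  · exfalso
    apply hne
    apply Polynomial.funext
    intro w
    rw [he, h, Polynomial.eval_zero]
  · exact h z (by rw [← he]; exact hroot)

end Pool.Agent.S04611
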