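import Pool.Statements.S04624

set_option autoImplicit false
open MeasureTheory
open Pool Pool.MP_4d58d7_an

namespace Pool.Agent.S04624

/-- the sketch with sign s -/
noncomputable def om (s : ℝ) : Fin 2 → Fin 3 → ℝ := ![![1, 0, 1 / 10], ![0, 1, s / 10]]

theorem om_tr (s : ℝ) : (Matrix.of (om s)).transpose = !![1, 0; 0, 1; 1 / 10, s / 10] := by
  ext i j; fin_cases i <;> fin_cases j <;> rfl

/-- the law of the sketch -/
noncomputable def mu : Measure (Fin 2 → Fin 3 → ℝ) :=
  ENNReal.ofReal (1 / 101) • Measure.dirac 0 + ENNReal.ofReal (50 / 101) • Measure.dirac (om 1)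
    + ENNReal.ofReal (50 / 101) • Measure.dirac (om (-1))

theorem mu_apply (S : Set (Fin 2 → Fin 3 → ℝ)) :
    mu S = ENNReal.ofReal (1 / 101) * S.indicator 1 0 + ENNReal.ofReal (50 / 101) * S.indicator 1 (om 1)
      + ENNReal.ofReal (50 / 101) * S.indicator 1 (om (-1)) := by
  simp only [mu, Measure.add_apply, Measure.smul_apply, Measure.dirac_apply, smul_eq_mul]

instance : IsProbabilityMeasure mu := by
  constructor
  rw [mu_apply]
  simp only [Set.indicator_univ, Pi.one_apply, mul_one]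
  rw [← ENNReal.ofReal_add (by norm_num) (by norm_num),
    ← ENNReal.ofReal_add (by norm_num) (by norm_num)]
  norm_num

theorem mu_integral (f : (Fin 2 → Fin 3 → ℝ) → ℝ) :
    ∫ ω, f ω ∂mu = 1 / 101 * f 0 + 50 / 101 * f (om 1) + 50 / 101 * f (om (-1)) := by
  have hi : ∀ (c : ℝ) (a : Fin 2 → Fin 3 → ℝ), Integrable f (ENNReal.ofReal c • Measure.dirac a) :=
    fun c a => (integrable_dirac (by simp)).smul_measure ENNReal.ofReal_ne_top
  unfold mu
  rw [integral_add_measure ((hi _ _).add_measure (hi _ _)) (hi _ _),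
    integral_add_measure (hi _ _) (hi _ _)]
  simp only [integral_smul_measure, integral_dirac, smul_eq_mul]
  rw [ENNReal.toReal_ofReal (by norm_num), ENNReal.toReal_ofReal (by norm_num)]

/-- An OSI with injectivity one and failure probability 1/101 for which sketch-and-solve always
loses a fixed factor larger than one. -/
theorem result :
    ¬ (∃ C : ℝ, ∃ c₀ : ℝ, 0 < c₀ ∧
    ∀ (n d p k : ℕ), 0 < n → 0 < d → 0 < p → 0 < k →
    ∀ ε : ℝ, 0 < ε → ε < 1 →
    ∀ (A : Matrix (Fin n) (Fin d) ℝ), A.rank = d →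
    ∀ (B : Matrix (Fin n) (Fin p) ℝ),
    ∀ (μ : Measure (Fin n → Fin k → ℝ)) [IsProbabilityMeasure μ],
      (∀ x : Fin n → ℝ, ∫ ω, (∑ j, (∑ i, ω i j * x i) ^ 2) ∂μ = ∑ i, x i ^ 2) →
      (∀ V : Submodule ℝ (Fin n → ℝ), Module.finrank ℝ V = d →
         ENNReal.ofReal (99 / 100) ≤
           μ {ω | ∀ x ∈ V, (1 - ε) * ∑ i, x i ^ 2 ≤ ∑ j, (∑ i, ω i j * x i) ^ 2}) →
      ENNReal.ofReal c₀ ≤ μ {ω | ∀ G : Matrix (Fin d) (Fin k) ℝ,
          (Matrix.transpose (Matrix.of ω) * A) * G * (Matrix.transpose (Matrix.of ω) * A)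
              = Matrix.transpose (Matrix.of ω) * A →
          G * (Matrix.transpose (Matrix.of ω) * A) * G = G →
          Matrix.transpose ((Matrix.transpose (Matrix.of ω) * A) * G)
              = (Matrix.transpose (Matrix.of ω) * A) * G →
          Matrix.transpose (G * (Matrix.transpose (Matrix.of ω) * A))
              = G * (Matrix.transpose (Matrix.of ω) * A) →
          ∀ X : Matrix (Fin d) (Fin p) ℝ,
            Real.sqrt (∑ i, ∑ j, ((A * (G * Matrix.transpose (Matrix.of ω) * B) - B) i j) ^ 2) ≤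
              (1 + C * ε) * Real.sqrt (∑ i, ∑ j, ((A * X - B) i j) ^ 2)}) := by
  rintro ⟨C, c₀, hc₀, h⟩
  set ε : ℝ := 1 / (100000 * (|C| + 1)) with hε
  have hC1 : 0 < |C| + 1 := by positivity
  have hε0 : 0 < ε := by positivity
  have hε1 : ε < 1 := by
    rw [hε, div_lt_one (by positivity)]
    nlinarith [abs_nonneg C]
  have hCε : C * ε ≤ 1 / 100000 := by
    have h1 : C ≤ |C| + 1 := by linarith [le_abs_self C]
    calc C * ε ≤ (|C| + 1) * ε := by gcongr
      _ = 1 / 100000 := by rw [hε]; field_simp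
  have hrank : (!![1; 0] : Matrix (Fin 2) (Fin 1) ℝ).rank = 1 := by
    apply le_antisymm
    · simpa using Matrix.rank_le_width (!![1; 0] : Matrix (Fin 2) (Fin 1) ℝ)
    · have h1 : (!![1, 0] : Matrix (Fin 1) (Fin 2) ℝ) * (!![1; 0] : Matrix (Fin 2) (Fin 1) ℝ) = 1 := by
        ext i j; fin_cases i; fin_cases j; simp [Matrix.mul_apply]
      have h2 := Matrix.rank_mul_le_right (!![1, 0] : Matrix (Fin 1) (Fin 2) ℝ)
        (!![1; 0] : Matrix (Fin 2) (Fin 1) ℝ)
      rw [h1, Matrix.rank_one] at h2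
      simpa using h2
  have key := h 2 1 1 3 (by norm_num) (by norm_num) (by norm_num) (by norm_num) ε hε0 hε1
    !![1; 0] hrank !![1; 1] mu ?_ ?_
  · rw [mu_apply, Set.indicator_of_notMem, Set.indicator_of_notMem, Set.indicator_of_notMem] at key
    · simp at key
      linarith
    · intro hh
      rw [Set.mem_setOf_eq, om_tr] at hh
      have := hh !![100 / 101, 0, 10 / 101] ?_ ?_ ?_ ?_ !![1]
      · simp [Matrix.mul_apply, Fin.sum_univ_succ] at this
        have h2 := Real.sqrt_le_iff.mp (le_trans this (show 1 + C * ε ≤ 1 + 1 / 100000 by linarith))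
        norm_num at h2
      all_goals
        ext i j; fin_cases i <;> fin_cases j <;>
          simp [Matrix.mul_apply, Fin.sum_univ_succ] <;> norm_num
    · intro hh
      rw [Set.mem_setOf_eq, om_tr] at hh
      have := hh !![100 / 101, 0, 10 / 101] ?_ ?_ ?_ ?_ !![1]
      · simp [Matrix.mul_apply, Fin.sum_univ_succ] at this
        have h2 := Real.sqrt_le_iff.mp (le_trans this (show 1 + C * ε ≤ 1 + 1 / 100000 by linarith))
        norm_num at h2
      all_goals
        ext i j; fin_cases i <;> fin_cases j <;>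
          simp [Matrix.mul_apply, Fin.sum_univ_succ] <;> norm_num
    · intro hh
      have := hh 0 ?_ ?_ ?_ ?_ !![1]
      · simp [Matrix.mul_apply, Fin.sum_univ_succ, Matrix.vecMul, dotProduct] at this
        have h2 := Real.sqrt_le_iff.mp (le_trans this (show 1 + C * ε ≤ 1 + 1 / 100000 by linarith))
        norm_num at h2
      all_goals
        ext i j; fin_cases i <;> fin_cases j <;>
          simp [Matrix.mul_apply, Fin.sum_univ_succ]
  · intro x
    rw [mu_integral]
    simp [om, Fin.sum_univ_succ]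
    ring
  · intro V _
    rw [mu_apply]
    have hmem : ∀ s : ℝ, om s ∈ {ω : Fin 2 → Fin 3 → ℝ |
        ∀ x ∈ V, (1 - ε) * ∑ i, x i ^ 2 ≤ ∑ j, (∑ i, ω i j * x i) ^ 2} := by
      intro s x _
      simp [om, Fin.sum_univ_succ]
      nlinarith [sq_nonneg (x 0), sq_nonneg (x 1), sq_nonneg (10⁻¹ * x 0 + s / 10 * x 1),
        mul_nonneg hε0.le (sq_nonneg (x 0)), mul_nonneg hε0.le (sq_nonneg (x 1))]
    rw [Set.indicator_of_mem (hmem 1), Set.indicator_of_mem (hmem (-1))]
    simp only [Pi.one_apply, mul_one]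
    rw [add_assoc, ← ENNReal.ofReal_add (by norm_num) (by norm_num)]
    exact le_add_left (ENNReal.ofReal_le_ofReal (by norm_num))

end Pool.Agent.S04624
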