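import Pool.Statements.S04636
import Pool.Agent.H91.Assoc

set_option autoImplicit false
open Pool Pool.MP_4e7b39_an

namespace Pool.Agent.S04636

theorem result :
    ¬ (∀ T : ℝ × ℝ → ℝ × ℝ, Continuous T →
      ∃ L : List (ℝ × ℝ → ℝ × ℝ),
        (∀ S ∈ L, Continuous S ∧
          (∀ a b c : ℝ, (S ((S (a, b)).1, c)).1 = (S (a, (S (b, c)).1)).1) ∧
          (∀ a b c : ℝ, (S ((S (a, b)).2, c)).2 = (S (a, (S (b, c)).2)).2)) ∧
        T = L.foldr (fun S R => S ∘ R) id) := by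
  intro h
  obtain ⟨L, hL, hT⟩ := h (fun p => -p) continuous_neg
  have := (Pool.Agent.H91.Assoc.main L hL).2 (Homeomorph.neg (ℝ × ℝ)) hT
  have h1 := this (show ((0 : ℝ), (0 : ℝ)) ≤ (1, 1) from ⟨zero_le_one, zero_le_one⟩)
  have h2 := h1.1
  simp at h2
  linarith

end Pool.Agent.S04636
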