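import Pool.Statements.S04656
import Pool.Agent.H92.Glue4

set_option autoImplicit false
open MeasureTheory
open Pool Pool.MP_50702e_an

namespace Pool.Agent.S04656
open Pool.Agent.H92.Glue

/-- The negation of the preceding statement: Every subnormal operator on a separable complex Hilbert space is unitarily equivalent to multiplication by a bounded φ in R²(K,μ) on R²(K,μ), for some finite compactly supported μ and compact K containing its support. -/
theorem result :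
    ¬ (∀ (H : Type) [NormedAddCommGroup H] [InnerProductSpace ℂ H] [CompleteSpace H]
      [TopologicalSpace.SeparableSpace H] (S : H →L[ℂ] H),
      (∃ (E : Type) (_ : NormedAddCommGroup E) (_ : InnerProductSpace ℂ E) (_ : CompleteSpace E)
          (V : H →ₗᵢ[ℂ] E) (N : E →L[ℂ] E),
          IsStarNormal N ∧ N.comp V.toContinuousLinearMap = V.toContinuousLinearMap.comp S) →
      ∃ (μ : Measure ℂ) (K : Set ℂ) (R : Submodule ℂ (Lp ℂ 2 μ)) (φ : ℂ → ℂ) (U : H ≃ₗᵢ[ℂ] R),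
        IsFiniteMeasure μ ∧ IsCompact K ∧ μ Kᶜ = 0 ∧
        R = (Submodule.span ℂ
              {f : Lp ℂ 2 μ | ∃ p q : Polynomial ℂ, (∀ z ∈ K, q.eval z ≠ 0) ∧
                (f : ℂ → ℂ) =ᵐ[μ] fun z => p.eval z / q.eval z}).topologicalClosure ∧
        MemLp φ ⊤ μ ∧ (∃ f ∈ R, (f : ℂ → ℂ) =ᵐ[μ] φ) ∧
        ∀ x : H, ((U (S x) : Lp ℂ 2 μ) : ℂ → ℂ) =ᵐ[μ]
          fun z => φ z * ((U x : Lp ℂ 2 μ) : ℂ → ℂ) z) := by
  intro hall
  obtain ⟨H, _, _, _, _, S, hsub, hno⟩ :=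
    exists_op' (default : HilbertBasis ℤ ℂ (lp (fun _ : ℤ => ℂ) 2))
  obtain ⟨μ, K, R, φ, U0, hμ, hK, hμK, hR, -, -, hS⟩ := hall H S hsub
  obtain ⟨T, w, hT, hw⟩ := partA H S μ K R φ U0 hμ hK hμK hR hS
  exact hno T w hT hw

end Pool.Agent.S04656
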