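import Pool.Statements.S04668
import Pool.Agent.H49.HR6

set_option autoImplicit false
open Pool Pool.MP_5139aa_an

namespace Pool.Agent.S04668

/-- The negation of the preceding statement: If a compact metric system given by a homeomorphism embeds equivariantly and weakly-continuously into the unit ball of a Hilbert space with a unitary operator, then so does every factor of it. -/
theorem result :
    ¬ (∀ (X Y : Type) [MetricSpace X] [CompactSpace X] [MetricSpace Y] [CompactSpace Y]
      (T : X ≃ₜ X) (S : Y ≃ₜ Y) (π : X → Y),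
      Continuous π → Function.Surjective π → (∀ x, π (T x) = S (π x)) →
      (∃ (H : Type) (_ : NormedAddCommGroup H) (_ : InnerProductSpace ℂ H) (_ : CompleteSpace H)
          (U : H ≃ₗᵢ[ℂ] H) (f : X → H),
          Function.Injective f ∧ (∀ x, ‖f x‖ ≤ 1) ∧ (∀ x, f (T x) = U (f x)) ∧
          ∀ v : H, Continuous (fun x => inner ℂ v (f x))) →
      (∃ (H : Type) (_ : NormedAddCommGroup H) (_ : InnerProductSpace ℂ H) (_ : CompleteSpace H)
          (U : H ≃ₗᵢ[ℂ] H) (g : Y → H),
          Function.Injective g ∧ (∀ y, ‖g y‖ ≤ 1) ∧ (∀ y, g (S y) = U (g y)) ∧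
          ∀ v : H, Continuous (fun y => inner ℂ v (g y)))) := by
  intro h
  obtain ⟨f, _, hn, -, -, -, -, ⟨X, _, _, _, T, p, H, _, _, _, U, α, hp, hi, hb, he, hc⟩, hN⟩ :=
    Pool.Agent.H49.HR.main
  obtain ⟨H', _, _, _, U', g, gi, -, ge, gc⟩ :=
    @h X (Pool.Agent.H49.HR.Xf f) (TopologicalSpace.metrizableSpaceMetric X) (by assumption)
      (TopologicalSpace.metrizableSpaceMetric _) (by assumption) T (Pool.Agent.H49.HR.sig f) p
      hp.1 hp.2.1 hp.2.2 ⟨H, inferInstance, inferInstance, inferInstance, U, α, hi, hb, he, hc⟩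
  have hs := Pool.Agent.H49.HR.nil_factor (Pool.Agent.H49.HR.sig_trans f) hN
    (Pool.Agent.H49.HR.factor_id _) (Pool.Agent.H49.HR.noChain_group (𝕜 := ℂ)
      ⟨H', inferInstance, inferInstance, inferInstance, U', g, gi, ge, gc⟩
      (Pool.Agent.H49.HR.groupFactor_self _))
  exact not_subsingleton _ hs

end Pool.Agent.S04668
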