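import Pool.Statements.S04672
import Pool.Agent.H93.Log1
import Pool.Agent.H93.Log2
import Pool.Agent.H93.Log3
import Pool.Agent.H93.Log4

set_option autoImplicit false
open Pool Pool.MP_51cccb_an

namespace Pool.Agent.S04672

open Pool.Agent.H93 Log3 Log4 in
lemma main_est (γ : ℕ → ℂ) (c : ℝ) (hc : 0 < c)
    (hlow : ∀ z : ℂ, 1 / 2 ≤ ‖z‖ → ‖z‖ < 1 → c ≤ ‖F th z‖)
    (hγ : ∀ z : ℂ, ‖z‖ < 1 → z ≠ 0 →
      HasSum (fun k : ℕ => 2 * (((k : ℂ) + 1) * γ (k + 1) * z ^ (k + 1)))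
        (z * D th z / F th z - 1)) (m : ℕ) :
    ∃ ρ : ℝ, 0 < ρ ∧ ρ * 2 ^ m ≤ 1 ∧ (2 : ℝ) ^ m / 240 ≤
      4 * (ρ * ∑' k : ℕ, ((k : ℝ) + 1) * ‖γ (k + 1)‖ * (1 - ρ) ^ (k + 1)) + (400 / c + 1) := by
  have hW : 0 < 4 ^ m := by positivity
  set W := 4 ^ m with hWd
  set J := 2 * W - 1 with hJ
  have hb : ∀ i, i < W → bb (J - i) = 4 * W := by
    intro i hi
    rw [log_group (m := m) (by omega) (by rw [pow_succ]; omega), pow_succ, mul_comm]
  have hN : ∀ i, i < W → NN (J - i) = NN J := by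
    intro i hi
    have := hb 0 hW
    simp only [NN, hb i hi]; rw [Nat.sub_zero] at this; rw [this]
  set ρ := Real.exp (-NN J) with hρd
  have hρ : 0 < ρ := Real.exp_pos _
  have hexp : Real.exp (-(12 + 6 * ((4 * W : ℕ) : ℝ))) ≤ 1 / 240 * (1 / 2 ^ (4 * W)) := by
    have a1 : (2 : ℝ) ≤ Real.exp 1 := by linarith [Real.exp_one_gt_d9]
    have a2 : (2 : ℝ) ^ (12 + 4 * W) ≤ Real.exp (12 + 6 * ((4 * W : ℕ) : ℝ)) := by
      calc (2 : ℝ) ^ (12 + 4 * W) ≤ Real.exp 1 ^ (12 + 4 * W) := by gcongr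
        _ = Real.exp ((12 + 4 * W : ℕ) : ℝ) := by rw [← Real.exp_nat_mul, mul_one]
        _ ≤ _ := by
          rw [Real.exp_le_exp]; push_cast
          have : (0 : ℝ) ≤ W := Nat.cast_nonneg _
          linarith
    rw [Real.exp_neg, ← one_div, one_div_mul_one_div]
    apply one_div_le_one_div_of_le (by positivity)
    refine le_trans ?_ a2
    rw [pow_add]; gcongr; norm_num
  have hrat : ∀ i, i < W → ρ ≤ th (J - i) * (1 / 240 * (1 / 2 ^ (4 * W))) := by
    intro i hi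
    have := ratio (J - i)
    rw [hN i hi, hb i hi] at this
    refine this.trans ?_
    have := lac.pos (J - i)
    gcongr
  have h2W : (1 : ℝ) / 2 ^ (4 * W) ≤ 1 := by
    rw [div_le_one (by positivity)]; exact one_le_pow₀ (by norm_num)
  have hrat' : ∀ i, i < W → ρ ≤ th (J - i) / 240 := by
    intro i hi
    have h1 := hrat i hi
    have := lac.pos (J - i)
    calc ρ ≤ th (J - i) * (1 / 240 * (1 / 2 ^ (4 * W))) := h1
      _ ≤ th (J - i) * (1 / 240 * 1) := by gcongr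
      _ = _ := by ring
  have hρ1 : ρ ≤ 1 / 240 := by linarith [hrat' 0 hW, lac.le_one (J - 0)]
  have hJp := lac.pos J
  have hρJ : ρ * 2 ^ (4 * W) ≤ th J := by
    have h1 := hrat 0 hW
    rw [Nat.sub_zero] at h1
    calc ρ * 2 ^ (4 * W) ≤ th J * (1 / 240 * (1 / 2 ^ (4 * W))) * 2 ^ (4 * W) := by gcongr
      _ = th J / 240 := by field_simp
      _ ≤ th J := by linarith
  have hρW : ∀ n, n ≤ 4 * W → ρ * 2 ^ n ≤ th J := fun n hn =>
    le_trans (by gcongr; norm_num) hρJ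
  have hmW : m ≤ 4 * W := by
    have : m < 4 ^ m := Nat.lt_pow_self (by norm_num)
    omega
  refine ⟨ρ, hρ, (hρW m hmW).trans (lac.le_one J), ?_⟩
  set r : ℝ := 1 - ρ with hr
  have hr0 : 1 / 2 ≤ r := by linarith
  have hr1 : r < 1 := by linarith
  have hn : ∀ s, ‖(r : ℂ) * E s‖ = r := fun s => norm_rE (by linarith) s
  have hH : ∀ s : ℝ, HasSum (fun k : ℕ => (2 * (((k : ℂ) + 1) * γ (k + 1) * (r : ℂ) ^ (k + 1))) *
      Log1.ex ((k : ℝ) + 1) s)
      ((r : ℂ) * E s * D th (r * E s) / F th (r * E s) - 1) := by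
    intro s
    have hz0 : (r : ℂ) * E s ≠ 0 := by
      intro h; have := hn s; rw [h, norm_zero] at this; linarith
    refine Log2.hs_congr (hγ _ (by rw [hn]; exact hr1) hz0) (fun k => ?_) rfl
    have : Log1.ex ((k : ℝ) + 1) s = E s ^ (k + 1) := by
      unfold Log1.ex E; rw [← Complex.exp_nat_mul]; congr 1; push_cast; ring
    rw [this]; ring
  have hnc : ∀ k : ℕ, ‖2 * (((k : ℂ) + 1) * γ (k + 1) * (r : ℂ) ^ (k + 1))‖ =
      2 * (((k : ℝ) + 1) * ‖γ (k + 1)‖ * r ^ (k + 1)) := by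
    intro k
    have : ‖(k : ℂ) + 1‖ = (k : ℝ) + 1 := by exact_mod_cast Complex.norm_natCast (k + 1)
    rw [norm_mul, norm_mul, norm_mul, norm_pow, this, Complex.norm_two, Complex.norm_real,
      Real.norm_eq_abs, abs_of_nonneg (by linarith)]
  have hsum : Summable fun k : ℕ => ‖2 * (((k : ℂ) + 1) * γ (k + 1) * (r : ℂ) ^ (k + 1))‖ := by
    have := (hH 0).summable.norm
    simpa only [norm_mul _ (Log1.ex _ _), Log1.norm_ex, mul_one] using this
  have key := Log1.wiener _ _ _ hsum hH (fun i => th (J - i)) (1 / 2 ^ m) (th J / 4)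
    (400 * 2 ^ J / th J / c + 1) (1 / (120 * ρ) - 1) W (by positivity)
    (by rw [div_le_one (by positivity)]; exact one_le_pow₀ (by norm_num))
    (by
      rw [hWd]; push_cast
      rw [show (4 : ℝ) ^ m = (2 ^ m) ^ 2 by rw [← pow_mul, mul_comm, pow_mul]; norm_num]
      field_simp; rfl)
    (by positivity) (by positivity) (by simp only [Nat.sub_zero]; linarith)
    (fun j hj => by
      have := lac.lt (show J - (j + 1) < J - j by omega)
      have := lac.pos (J - (j + 1))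
      linarith)
    (fun i hi s h1 h2 => by
      refine (norm_sub_le _ _).trans ?_
      rw [norm_one, norm_div, norm_mul, hn]
      have a1 := D_upper lac (Nat.sub_le J i) hr0 hr1 h1 h2
      have a2 := hlow (r * E s) (by rw [hn]; exact hr0) (by rw [hn]; exact hr1)
      have a3 : r * ‖D th (r * E s)‖ ≤ 400 * 2 ^ J / th J := by
        nlinarith [norm_nonneg (D th (r * E s))]
      gcongr)
    (fun i hi => by
      have a0 := norm_sub_norm_le ((r : ℂ) * E (th (J - i)) * D th (r * E (th (J - i))) /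
        F th (r * E (th (J - i)))) 1
      refine le_trans ?_ a0
      rw [norm_one, norm_div, norm_mul, hn]
      have hi3 : ρ ≤ th (J - i) / 3 := by linarith [hrat' i hi, lac.pos (J - i)]
      have a1 := D_lower lac (J - i) hρ hi3
      have a2 := F_upper lac (J - i) hρ hi3 (by rw [hρd, ← hN i hi]; exact balance _)
      have a3 := hlow (r * E (th (J - i))) (by rw [hn]; exact hr0) (by rw [hn]; exact hr1)
      rw [← hr] at a1 a2
      refine sub_le_sub_right ?_ 1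
      have a4 : 0 < ‖F th (r * E (th (J - i)))‖ := by linarith
      calc 1 / (120 * ρ) = 1 / 2 * (2 ^ (J - i) / (3 * ρ)) / (20 * 2 ^ (J - i)) := by
            field_simp; ring
        _ ≤ _ := by gcongr)
  simp only [hnc] at key
  rw [tsum_mul_left] at key
  set A := ∑' k : ℕ, ((k : ℝ) + 1) * ‖γ (k + 1)‖ * r ^ (k + 1)
  have e1 : (1 : ℝ) / 2 ^ m * W = 2 ^ m := by
    rw [hWd]; push_cast
    rw [show (4 : ℝ) ^ m = (2 ^ m) ^ 2 by rw [← pow_mul, mul_comm, pow_mul]; norm_num]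
    field_simp
  rw [e1] at key
  have k2 := mul_le_mul_of_nonneg_left key hρ.le
  have e2 : ρ * (2 ^ m * (1 / (120 * ρ) - 1)) = 2 ^ m * (1 / 120 - ρ) := by field_simp
  have e3 : ρ * (2 ^ W * (400 * 2 ^ J / th J / c + 1)) =
      400 / c * (ρ * 2 ^ (W + J) / th J) + ρ * 2 ^ W := by rw [pow_add]; field_simp
  have e4 : ρ * 2 ^ (W + J) / th J ≤ 1 := by
    rw [div_le_one hJp]; exact hρW _ (by omega)
  have e5 : ρ * 2 ^ W ≤ 1 := (hρW _ (by omega)).trans (lac.le_one J)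
  have e6 : 400 / c * (ρ * 2 ^ (W + J) / th J) ≤ 400 / c * 1 := by gcongr
  have e7 : (2 : ℝ) ^ m * (1 / 240) ≤ 2 ^ m * (1 / 120 - ρ) := by gcongr; linarith
  rw [e2, mul_add, e3] at k2
  linarith

open Pool.Agent.H93 Log3 Log4 in
/-- The negation of the preceding statement: For every univalent f on the unit disk with f(0)=0, f'(0)=1 and log(f(z)/z)=2Σγ_k z^k, the sum Σ k∣γ_k∣ r^k is O(1/(1−r)) as r→1 from below. -/
theorem result :
    ¬ (∀ (f : ℂ → ℂ) (γ : ℕ → ℂ),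
      AnalyticOnNhd ℂ f (Metric.ball (0 : ℂ) 1) →
      Set.InjOn f (Metric.ball (0 : ℂ) 1) →
      f 0 = 0 →
      deriv f 0 = 1 →
      (∀ z : ℂ, ‖z‖ < 1 → z ≠ 0 →
        ∃ s : ℂ, HasSum (fun k : ℕ => γ (k + 1) * z ^ (k + 1)) s ∧
          f z = z * Complex.exp (2 * s)) →
      Asymptotics.IsBigO (nhdsWithin (1 : ℝ) (Set.Iio 1))
        (fun r : ℝ => ∑' k : ℕ, ((k : ℝ) + 1) * ‖γ (k + 1)‖ * r ^ (k + 1))
        (fun r : ℝ => 1 / (1 - r))) := by
  intro H
  have hd : D th 0 ≠ 0 := by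
    intro h; have := re_D_pos lac (z := 0) (by simp); rw [h] at this; simp at this
  have hFd : ∀ z : ℂ, ‖z‖ < 1 → HasDerivAt (F th) (D th z) z := fun z hz => (F_aux lac hz).2.2
  have hinj := Log2.injOn_of_re_pos _ _ hFd fun z hz => re_D_pos lac hz
  have hdiff : DifferentiableOn ℂ (F th) (Metric.ball 0 1) := fun z hz =>
    (hFd z (mem_ball_zero_iff.1 hz)).differentiableAt.differentiableWithinAt
  obtain ⟨c, hc, hlow⟩ := Log2.lower_bound (F th) _ hd
    (hdiff.analyticAt (Metric.ball_mem_nhds _ one_pos)) F_zero (hFd 0 (by simp)).deriv hinj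
  set f : ℂ → ℂ := fun z => F th z / D th 0 with hf
  have hfd : DifferentiableOn ℂ f (Metric.ball 0 1) := hdiff.div_const _
  have hf0 : f 0 = 0 := by simp [hf, F_zero]
  have hf' : ∀ z : ℂ, ‖z‖ < 1 → deriv f z = D th z / D th 0 := fun z hz =>
    ((hFd z hz).div_const _).deriv
  have hf1 : deriv f 0 = 1 := by rw [hf' 0 (by simp), div_self hd]
  have hfi : Set.InjOn f (Metric.ball 0 1) := fun a ha b hb hab =>
    hinj ha hb ((div_left_inj' hd).1 hab)
  obtain ⟨γ, h1, h2⟩ := Log2.log_coeffs f hfd hf0 hf1 hfi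
  have hO := H f γ (hfd.analyticOnNhd Metric.isOpen_ball) hfi hf0 hf1 h1
  obtain ⟨C, hC⟩ := hO.bound
  obtain ⟨u, hu, hsub⟩ := mem_nhdsLT_iff_exists_Ioo_subset.1 hC
  have hu' : 0 < 1 - u := sub_pos.2 hu
  obtain ⟨m, hm⟩ := pow_unbounded_of_one_lt
    (max (240 * (4 * C + (400 / c + 1))) (1 / (1 - u))) (show (1 : ℝ) < 2 by norm_num)
  obtain ⟨ρ, hρ, hρ1, hρ2⟩ := main_est γ c hc hlow (fun z hz hz0 => by
    refine Log2.hs_congr (h2 z hz hz0) (fun _ => rfl) ?_
    rw [hf' z hz]; simp only [hf]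
    congr 1
    by_cases h : F th z = 0
    · simp [h]
    · field_simp) m
  have m1 := (le_max_left _ _).trans_lt hm
  have m2 := (le_max_right _ _).trans_lt hm
  rw [div_lt_iff₀ hu'] at m2
  have hρu : ρ < 1 - u := by
    by_contra hh
    push Not at hh
    have : (2 : ℝ) ^ m * (1 - u) ≤ 2 ^ m * ρ := by gcongr
    linarith
  have := hsub (show 1 - ρ ∈ Set.Ioo u 1 from ⟨by linarith, by linarith⟩)
  simp only [Set.mem_ofPred_eq, sub_sub_cancel, Real.norm_eq_abs] at this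
  rw [abs_of_pos (one_div_pos.2 hρ), mul_one_div, le_div_iff₀ hρ] at this
  have h3 := le_abs_self (∑' k : ℕ, ((k : ℝ) + 1) * ‖γ (k + 1)‖ * (1 - ρ) ^ (k + 1))
  have h4 := mul_le_mul_of_nonneg_right h3 hρ.le
  linarith

end Pool.Agent.S04672
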