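import Pool.Statements.S04674

set_option autoImplicit false
open Pool Pool.MP_51da40_an

namespace Pool.Agent.S04674

open Complex Polynomial

/-- abscissa of the curve -/
noncomputable def xx (τ s : ℝ) : ℝ :=
  9 / 5 * (2 * s - 1 + s ^ 2 * τ ^ 2) / (3 * s - 1 + s ^ 2 * (3 - s) * τ ^ 2)

/-- the curve -/
noncomputable def zz (τ s : ℝ) : ℂ := (xx τ s : ℂ) * (1 + (s * τ : ℝ) * I)

/-- the cubic -/
noncomputable def ww (z : ℂ) : ℂ := z ^ 2 * (9 / 5 - z)

lemma den_pos {τ s : ℝ} (h1 : 51 / 100 ≤ s) (h2 : s ≤ 3) :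
    3 * s - 1 ≤ 3 * s - 1 + s ^ 2 * (3 - s) * τ ^ 2 := by
  have : 0 ≤ s ^ 2 * (3 - s) * τ ^ 2 := by
    have : 0 ≤ 3 - s := by linarith
    positivity
  linarith

lemma xx_bounds {τ s : ℝ} (h0 : 0 ≤ τ) (hτ : τ ≤ 1 / 100) (h1 : 51 / 100 ≤ s) (h2 : s ≤ 3) :
    1 / 1000 ≤ xx τ s ∧ xx τ s ≤ 113 / 100 := by
  have hd := den_pos (τ := τ) h1 h2
  have hτ2 : τ ^ 2 ≤ 1 / 10000 := by nlinarith
  have hs2 : s ^ 2 ≤ 9 := by nlinarith
  have hst : s ^ 2 * τ ^ 2 ≤ 9 / 10000 := by nlinarith [sq_nonneg s, sq_nonneg τ]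
  have hst0 : 0 ≤ s ^ 2 * τ ^ 2 := by positivity
  unfold xx
  constructor
  · rw [le_div_iff₀ (by linarith)]
    have : s ^ 2 * (3 - s) * τ ^ 2 ≤ 1 := by nlinarith
    nlinarith
  · rw [div_le_iff₀ (by linarith)]
    nlinarith

lemma xx_left {τ : ℝ} (h0 : 0 ≤ τ) (hτ : τ ≤ 1 / 100) : xx τ (51 / 100) ≤ 7 / 100 := by
  have hτ2 : τ ^ 2 ≤ 1 / 10000 := by nlinarith
  unfold xx
  rw [div_le_iff₀ (by positivity)]
  nlinarith [sq_nonneg τ]

lemma xx_right (τ : ℝ) : 1125 / 1000 ≤ xx τ 3 := by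
  unfold xx
  rw [le_div_iff₀ (by norm_num)]
  nlinarith [sq_nonneg τ]

lemma ww_zz {τ s : ℝ} (h0 : 0 ≤ τ) (hτ : τ ≤ 1 / 100) (h1 : 51 / 100 ≤ s) (h2 : s ≤ 3) :
    ∃ ρ : ℝ, 1 / 10 ^ 7 ≤ ρ ∧ ρ ≤ 9 / 10 ∧ ww (zz τ s) = ρ * (1 + τ * I) := by
  obtain ⟨hx1, hx2⟩ := xx_bounds h0 hτ h1 h2
  have hd := den_pos (τ := τ) h1 h2
  have hx : xx τ s * (3 * s - 1 + s ^ 2 * (3 - s) * τ ^ 2) = 9 / 5 * (2 * s - 1 + s ^ 2 * τ ^ 2) := by
    unfold xx
    rw [div_mul_cancel₀ _ (by linarith)]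
  have hτ2 : τ ^ 2 ≤ 1 / 10000 := by nlinarith
  have hs2 : s ^ 2 ≤ 9 := by nlinarith
  have hst : s ^ 2 * τ ^ 2 ≤ 9 / 10000 := by nlinarith [sq_nonneg s, sq_nonneg τ]
  have hst0 : 0 ≤ s ^ 2 * τ ^ 2 := by positivity
  unfold zz ww
  generalize xx τ s = x at *
  refine ⟨x ^ 2 * (9 / 5 * (1 - s ^ 2 * τ ^ 2) - x * (1 - 3 * (s ^ 2 * τ ^ 2))), ?_, ?_, ?_⟩
  · generalize s ^ 2 * τ ^ 2 = u at *
    have h3 : 1 / 2 ≤ 9 / 5 * (1 - u) - x * (1 - 3 * u) := by nlinarith
    have h4 : 1 / 10 ^ 6 ≤ x ^ 2 := by nlinarith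
    nlinarith
  · generalize s ^ 2 * τ ^ 2 = u at *
    have h3 : x ^ 2 * (9 / 5 - x) ≤ 865 / 1000 := by nlinarith [mul_nonneg (by linarith : 0 ≤ x + 3 / 5) (sq_nonneg (x - 6 / 5))]
    have h4 : x ^ 2 ≤ 2 := by nlinarith
    have h5 : x ^ 2 * (3 * x * u) ≤ 1 / 100 := by
      have : 3 * x * u ≤ 1 / 200 := by nlinarith
      have : 0 ≤ 3 * x * u := by positivity
      nlinarith
    have h6 : 0 ≤ x ^ 2 * u := by positivity
    nlinarith
  · apply Complex.ext
    · simp [pow_two]; ring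
    · simp [pow_two]
      linear_combination (-(x ^ 2 * τ)) * hx

theorem result :
    ¬ (∀ c : ℝ, 0 < c → ∀ ε : ℝ, 0 < ε → ∃ N : ℕ, ∀ n : ℕ, N ≤ n →
      ∀ f : Polynomial ℂ, f.Monic → f.natDegree = n →
        ∀ s : Finset (Set ℂ),
          (∀ C ∈ s, (∃ z : ℂ, ‖f.eval z‖ ≤ 1 ∧
              connectedComponentIn {w : ℂ | ‖f.eval w‖ ≤ 1} z = C) ∧
            1 + c < Metric.diam C) →
          (s.card : ℝ) ≤ ε * (n : ℝ)) := by
  classical
  intro H
  obtain ⟨N, hN⟩ := H (1 / 20) (by norm_num) (1 / 7000) (by norm_num)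
  obtain ⟨m, hm⟩ : ∃ m : ℕ, m = N + 1 := ⟨_, rfl⟩
  obtain ⟨k, hk⟩ : ∃ k : ℕ, k = 2000 * m := ⟨_, rfl⟩
  have hk0 : k ≠ 0 := by omega
  have hkR : (0 : ℝ) < k := by exact_mod_cast Nat.pos_of_ne_zero hk0
  have hke : Even k := ⟨1000 * m, by omega⟩
  obtain ⟨e, he⟩ : ∃ e : ℝ, e = (1 / 10 ^ 7) ^ k := ⟨_, rfl⟩
  have he0 : 0 < e := by rw [he]; positivity
  have he1 : e ≤ 1 := by rw [he]; exact pow_le_one₀ (by norm_num) (by norm_num)
  set g : ℂ[X] := X ^ 2 * (X - C (9 / 5)) with hg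
  have hgm : g.Monic := (monic_X_pow 2).mul (monic_X_sub_C _)
  have hgd : g.natDegree = 3 := by
    rw [hg, (monic_X_pow 2).natDegree_mul (monic_X_sub_C _), natDegree_X_pow, natDegree_X_sub_C]
  have hgkd : (g ^ k).natDegree = 3 * k := by rw [hgm.natDegree_pow, hgd, mul_comm]
  set f : ℂ[X] := g ^ k + C (1 + (e : ℂ)) with hf
  have hfm : f.Monic := by
    apply (hgm.pow k).add_of_left
    apply lt_of_le_of_lt degree_C_le
    rw [degree_eq_natDegree (hgm.pow k).ne_zero, hgkd]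
    exact_mod_cast (by omega : 0 < 3 * k)
  have hfd : f.natDegree = 3 * k := by rw [hf, natDegree_add_C, hgkd]
  have hev : ∀ z, f.eval z = ww z ^ k + (1 + e) := by
    intro z
    simp only [hf, hg, ww, eval_add, eval_pow, eval_mul, eval_X, eval_sub, eval_C]
    rw [← hke.neg_pow]; congr 2; ring
  set E : Set ℂ := {w : ℂ | ‖f.eval w‖ ≤ 1} with hE
  have hEre : ∀ z ∈ E, (ww z ^ k).re < 0 := by
    intro z hz
    have h1 : (f.eval z).re ≤ 1 := (re_le_norm _).trans hz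
    rw [hev] at h1
    simp only [add_re, one_re, ofReal_re] at h1
    linarith
  have hEb : Bornology.IsBounded E := by
    rw [isBounded_iff_forall_norm_le]
    refine ⟨3, fun z hz => ?_⟩
    by_contra hc
    rw [not_le] at hc
    have h1 : 10 ≤ ‖ww z‖ := by
      unfold ww
      rw [norm_mul, norm_pow, norm_sub_rev]
      have h2 := norm_sub_norm_le z (9 / 5)
      have h3 : ‖(9 / 5 : ℂ)‖ = 9 / 5 := by simp
      have h4 : 9 ≤ ‖z‖ ^ 2 := by nlinarith
      nlinarith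
    have h2 : ‖ww z‖ ≤ ‖ww z ^ k‖ := by
      rw [norm_pow]; exact le_self_pow₀ (by linarith) hk0
    have h3 : ‖f.eval z‖ ≤ 1 := hz
    rw [hev] at h3
    have h4 : ‖(1 + e : ℂ)‖ ≤ 2 := by
      refine (norm_add_le _ _).trans ?_
      rw [norm_one, norm_real, Real.norm_eq_abs, abs_of_pos he0]; linarith
    have h5 := norm_sub_le (ww z ^ k + (1 + e)) (1 + e)
    rw [add_sub_cancel_right] at h5
    linarith
  set θ : ℕ → ℝ := fun j => (2 * j + 1) * Real.pi / k with hθ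
  have hθb : ∀ j < m, 0 < θ j ∧ θ j ≤ 1 / 200 := by
    intro j hj
    refine ⟨by simp only [hθ]; positivity, ?_⟩
    simp only [hθ]
    rw [div_le_iff₀ hkR]
    have h1 : (j : ℝ) + 1 ≤ m := by exact_mod_cast hj
    have h2 : (k : ℝ) = 2000 * m := by rw [hk]; push_cast; ring
    have h3 : (0 : ℝ) ≤ j := Nat.cast_nonneg j
    nlinarith [Real.pi_le_four, Real.pi_pos]
  have hcos : ∀ j < m, 9 / 10 ≤ Real.cos (θ j) := by
    intro j hj
    obtain ⟨h1, h2⟩ := hθb j hj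
    have := Real.one_sub_sq_div_two_le_cos (x := θ j)
    nlinarith
  set τ : ℕ → ℝ := fun j => Real.sin (θ j) / Real.cos (θ j) with hτ
  have hτb : ∀ j < m, 0 ≤ τ j ∧ τ j ≤ 1 / 100 := by
    intro j hj
    obtain ⟨h1, h2⟩ := hθb j hj
    have h3 := hcos j hj
    have h4 := Real.sin_le h1.le
    have h5 : 0 ≤ Real.sin (θ j) := Real.sin_nonneg_of_nonneg_of_le_pi h1.le
      (by linarith [Real.pi_gt_three])
    refine ⟨by simp only [hτ]; positivity, ?_⟩
    simp only [hτ]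
    rw [div_le_iff₀ (by linarith)]; linarith
  have hcurve : ∀ j < m, ∀ s ∈ Set.Icc (51 / 100 : ℝ) 3, ∃ ρ : ℝ, 1 / 10 ^ 7 ≤ ρ ∧ ρ ≤ 1 ∧
      ww (zz (τ j) s) = ρ * exp (θ j * I) := by
    intro j hj s hs
    obtain ⟨ρ, h1, h2, h3⟩ := ww_zz (hτb j hj).1 (hτb j hj).2 hs.1 hs.2
    have h4 := hcos j hj
    have h5 := Real.cos_le_one (θ j)
    refine ⟨ρ / Real.cos (θ j), ?_, ?_, ?_⟩
    · rw [le_div_iff₀ (by linarith)]; nlinarith
    · rw [div_le_iff₀ (by linarith)]; nlinarith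
    · rw [h3, exp_mul_I, ← ofReal_cos, ← ofReal_sin]
      simp only [hτ]
      have : (Real.cos (θ j) : ℂ) ≠ 0 := by exact_mod_cast (by linarith : Real.cos (θ j) ≠ 0)
      rw [ofReal_div, ofReal_div]
      field_simp
  have hmemE : ∀ j < m, ∀ s ∈ Set.Icc (51 / 100 : ℝ) 3, zz (τ j) s ∈ E := by
    intro j hj s hs
    obtain ⟨ρ, h1, h2, h3⟩ := hcurve j hj s hs
    have h4 : exp (θ j * I) ^ k = -1 := by
      rw [← exp_nat_mul]
      have : (k : ℂ) * (θ j * I) = Real.pi * I + (j : ℕ) * (2 * Real.pi * I) := by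
        simp only [hθ]
        have : (k : ℂ) ≠ 0 := by exact_mod_cast hk0
        push_cast
        field_simp
        ring
      rw [this, exp_add, exp_nat_mul_two_pi_mul_I, exp_pi_mul_I, mul_one]
    show ‖f.eval _‖ ≤ 1
    rw [hev, h3, mul_pow, h4]
    have h5 : (ρ : ℂ) ^ k * -1 + (1 + e) = ((1 + e - ρ ^ k : ℝ) : ℂ) := by push_cast; ring
    rw [h5, norm_real, Real.norm_eq_abs, abs_le]
    have h6 : e ≤ ρ ^ k := by rw [he]; exact pow_le_pow_left₀ (by norm_num) h1 k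
    have h7 : ρ ^ k ≤ 1 := pow_le_one₀ (by linarith [show (0 : ℝ) < 1 / 10 ^ 7 by norm_num]) h2
    constructor <;> linarith
  have harg : ∀ j < m, arg (ww (zz (τ j) 3)) = θ j := by
    intro j hj
    obtain ⟨ρ, h1, h2, h3⟩ := hcurve j hj 3 ⟨by norm_num, le_rfl⟩
    obtain ⟨h4, h5⟩ := hθb j hj
    rw [h3, exp_mul_I]
    apply arg_mul_cos_add_sin_mul_I (by linarith [show (0 : ℝ) < 1 / 10 ^ 7 by norm_num])
    constructor <;> linarith [Real.pi_gt_three]
  set comp : ℕ → Set ℂ := fun j => connectedComponentIn E (zz (τ j) 3) with hcomp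
  have hsep : ∀ i j, i < j → j < m → comp i ≠ comp j := by
    intro i j hij hj heq
    have hi : i < m := hij.trans hj
    have hpc : IsPreconnected (comp i) := isPreconnected_connectedComponentIn
    have hsub : comp i ⊆ E := connectedComponentIn_subset _ _
    have hcont : ContinuousOn (fun z => arg (ww z)) (comp i) := by
      intro z hz
      apply ContinuousAt.continuousWithinAt
      apply ContinuousAt.comp (f := ww) (g := arg)
      · apply continuousAt_arg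
        by_contra hc
        rw [mem_slitPlane_iff, not_or, not_not] at hc
        have h1 := hEre z (hsub hz)
        have h2 : ww z = ((ww z).re : ℂ) := by apply Complex.ext <;> simp [hc.2]
        rw [h2, ← ofReal_pow, ofReal_re] at h1
        exact absurd (hke.pow_nonneg _) (not_le.2 h1)
      · unfold ww; fun_prop
    have h1 : zz (τ i) 3 ∈ comp i := mem_connectedComponentIn (hmemE i hi 3 ⟨by norm_num, le_rfl⟩)
    have h2 : zz (τ j) 3 ∈ comp i := by
      rw [heq]; exact mem_connectedComponentIn (hmemE j hj 3 ⟨by norm_num, le_rfl⟩)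
    have h3 := hpc.intermediate_value h1 h2 hcont
    rw [harg i hi, harg j hj] at h3
    have hij' : (i : ℝ) + 1 ≤ j := by exact_mod_cast hij
    obtain ⟨z, hz, hz2⟩ := h3 (show (2 * i + 2) * Real.pi / k ∈ Set.Icc (θ i) (θ j) by
      simp only [hθ]
      constructor <;> apply div_le_div_of_nonneg_right _ hkR.le <;>
        apply mul_le_mul_of_nonneg_right _ Real.pi_pos.le <;> linarith)
    have h4 := hEre z (hsub hz)
    have h5 : ww z ^ k = ((‖ww z‖ ^ k : ℝ) : ℂ) := by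
      conv_lhs => rw [← norm_mul_exp_arg_mul_I (ww z)]
      simp only at hz2
      rw [hz2, mul_pow, ← exp_nat_mul]
      have : (k : ℂ) * ((((2 * i + 2) * Real.pi / k : ℝ) : ℂ) * I) =
          ((i + 1 : ℕ) : ℂ) * (2 * Real.pi * I) := by
        have : (k : ℂ) ≠ 0 := by exact_mod_cast hk0
        push_cast
        field_simp
      rw [this, exp_nat_mul_two_pi_mul_I]; push_cast; ring
    rw [h5, ofReal_re] at h4
    exact absurd (by positivity) (not_le.2 h4)
  have hinj : Set.InjOn comp (Finset.range m : Set ℕ) := by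
    intro i hi j hj hij
    simp only [Finset.coe_range, Set.mem_Iio] at hi hj
    rcases lt_trichotomy i j with h | h | h
    · exact absurd hij (hsep i j h hj)
    · exact h
    · exact absurd hij.symm (hsep j i h hi)
  have hfin := hN (3 * k) (by omega) f hfm hfd ((Finset.range m).image comp) ?_
  · rw [Finset.card_image_of_injOn hinj, Finset.card_range] at hfin
    have h2 : ((3 * k : ℕ) : ℝ) = 6000 * m := by rw [hk]; push_cast; ring
    have h3 : (0 : ℝ) < m := by exact_mod_cast (by omega : 0 < m)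
    rw [h2] at hfin
    linarith
  · intro D hD
    obtain ⟨j, hj, rfl⟩ := Finset.mem_image.1 hD
    rw [Finset.mem_range] at hj
    refine ⟨⟨_, hmemE j hj 3 ⟨by norm_num, le_rfl⟩, rfl⟩, ?_⟩
    have hcz : ContinuousOn (zz (τ j)) (Set.Icc (51 / 100) 3) := by
      unfold zz xx
      apply ContinuousOn.mul _ (by fun_prop)
      apply continuous_ofReal.comp_continuousOn
      apply ContinuousOn.div (by fun_prop) (by fun_prop)
      intro s hs
      have := den_pos (τ := τ j) hs.1 hs.2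
      linarith [hs.1]
    have hsub : zz (τ j) '' Set.Icc (51 / 100) 3 ⊆ comp j := by
      apply IsPreconnected.subset_connectedComponentIn (isPreconnected_Icc.image _ hcz)
      · exact ⟨3, ⟨by norm_num, le_rfl⟩, rfl⟩
      · rintro _ ⟨s, hs, rfl⟩; exact hmemE j hj s hs
    have hb : Bornology.IsBounded (comp j) := hEb.subset (connectedComponentIn_subset _ _)
    have h1 := Metric.dist_le_diam_of_mem hb (hsub ⟨3, ⟨by norm_num, le_rfl⟩, rfl⟩)
      (hsub ⟨51 / 100, ⟨le_rfl, by norm_num⟩, rfl⟩)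
    refine lt_of_lt_of_le ?_ h1
    rw [dist_eq_norm]
    refine lt_of_lt_of_le ?_ (re_le_norm _)
    have h2 := xx_left (hτb j hj).1 (hτb j hj).2
    have h3 := xx_right (τ j)
    have h4 : ∀ s, (zz (τ j) s).re = xx (τ j) s := by intro s; simp [zz]
    rw [sub_re, h4, h4]
    linarith

end Pool.Agent.S04674
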