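import Pool.Statements.S04676

set_option autoImplicit false
open Pool Pool.MP_529e31_an

namespace Pool.Agent.S04676

/-- The sparse radii. -/
def R : ℕ → ℕ
  | 0 => 1
  | n + 1 => 400 * R n ^ 4

lemma R_ge (n : ℕ) : n + 1 ≤ R n := by
  induction n with
  | zero => simp [R]
  | succ n ih =>
    have h1 : R n ≤ R n ^ 4 := Nat.le_self_pow (by norm_num) _
    simp only [R]; omega

lemma R_mono : Monotone R := by
  apply monotone_nat_of_le_succ
  intro n
  have h1 : R n ≤ R n ^ 4 := Nat.le_self_pow (by norm_num) _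
  simp only [R]; omega

lemma pow_le_exp (N : ℕ) (r : ℝ) (h : 4 * (N : ℝ) ^ 2 ≤ r) (hr : 0 < r) : r ^ N ≤ Real.exp r := by
  have h1 := Real.pow_div_factorial_le_exp r hr.le (2 * N)
  have h2 : ((2 * N).factorial : ℝ) ≤ r ^ N := by
    have : ((2 * N).factorial : ℝ) ≤ ((2 * N : ℕ) : ℝ) ^ (2 * N) := by
      exact_mod_cast Nat.factorial_le_pow (2 * N)
    refine this.trans ?_
    rw [pow_mul]
    apply pow_le_pow_left₀ (by positivity)
    push_cast; nlinarith
  refine le_trans ?_ h1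
  rw [le_div_iff₀ (by positivity), two_mul, pow_add]
  have : ((N + N).factorial : ℝ) ≤ r ^ N := by rwa [two_mul] at h2
  gcongr

theorem result :
    ¬ (∀ ρ : ℝ, 0 < ρ → ∀ S : Set ℂ,
      (∀ f : ℂ → ℂ, Differentiable ℂ f →
        (∃ A B : ℝ, 0 < A ∧ 0 < B ∧ ∀ z : ℂ, ‖f z‖ ≤ B * Real.exp (A * ‖z‖ ^ ρ)) →
        (Bornology.IsBounded (f '' S) ↔ Bornology.IsBounded (Set.range f))) →
      ∀ k : ℂ → ℝ, Continuous k → (∀ z : ℂ, 0 < k z) →
        (∀ A : ℝ, 0 < A →
          Asymptotics.IsLittleO (Filter.cocompact ℂ) (fun z : ℂ => Real.exp (A * ‖z‖ ^ ρ)) k) →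
        ∃ k' : ℂ → ℝ, Continuous k' ∧ (∀ z : ℂ, 0 < k' z) ∧
          (∀ A : ℝ, 0 < A →
            Asymptotics.IsLittleO (Filter.cocompact ℂ) (fun z : ℂ => Real.exp (A * ‖z‖ ^ ρ)) k') ∧
          ∃ C : ℝ, 0 < C ∧
            ∀ f : ℂ → ℂ, Differentiable ℂ f →
              (∃ A B : ℝ, 0 < A ∧ 0 < B ∧ ∀ z : ℂ, ‖f z‖ ≤ B * Real.exp (A * ‖z‖ ^ ρ)) →
              (∀ z ∈ S, ‖f z‖ ≤ k' z) → ∀ z : ℂ, ‖f z‖ ≤ C * k z) := by
  intro H
  have H1 := H 1 one_pos {z | ∃ n, ‖z‖ = R n} ?_ (fun z => Real.exp (‖z‖ ^ 2)) (by fun_prop)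
    (fun z => Real.exp_pos _) ?_
  · obtain ⟨k', hc, hpos, hlo, C, hC, hf⟩ := H1
    -- lower bound for k'
    have hlow : ∃ c : ℝ, 0 < c ∧ ∀ z : ℂ, c * Real.exp ‖z‖ ≤ k' z := by
      have h1 := (hlo 1 one_pos).bound one_pos
      rw [Filter.eventually_iff, Filter.mem_cocompact] at h1
      obtain ⟨K, hK, hKs⟩ := h1
      have hg : Continuous (fun z : ℂ => k' z / Real.exp ‖z‖) :=
        hc.div (by fun_prop) (fun z => (Real.exp_pos _).ne')
      obtain ⟨c, hc0, hcK⟩ := hK.exists_forall_le' hg.continuousOn (a := 0)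
        (fun z _ => div_pos (hpos z) (Real.exp_pos _))
      refine ⟨min c 1, lt_min hc0 one_pos, fun z => ?_⟩
      by_cases hz : z ∈ K
      · have := hcK z hz
        rw [le_div_iff₀ (Real.exp_pos _)] at this
        exact le_trans (by gcongr; exact min_le_left _ _) this
      · have := hKs hz
        simp only [Set.mem_ofPred_eq, Real.rpow_one, one_mul, Real.norm_eq_abs,
          abs_of_pos (Real.exp_pos _), abs_of_pos (hpos z)] at this
        calc min c 1 * Real.exp ‖z‖ ≤ 1 * Real.exp ‖z‖ := by gcongr; exact min_le_right _ _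
          _ ≤ k' z := by simpa using this
    obtain ⟨c, hc0, hck⟩ := hlow
    obtain ⟨n, hn⟩ := exists_nat_gt (C / c)
    set r : ℝ := (R n : ℝ) with hr
    have hrn : (n : ℝ) + 1 ≤ r := by rw [hr]; exact_mod_cast R_ge n
    have hn0 : (0 : ℝ) ≤ n := Nat.cast_nonneg n
    have hr1 : 1 ≤ r := by linarith
    have hr0 : 0 < r := by linarith
    set N : ℕ := 10 * R n ^ 2 with hN
    have hnorm : ∀ z : ℂ, ‖(c : ℂ) * (z / r) ^ N‖ = c * (‖z‖ / r) ^ N := by
      intro z
      simp [abs_of_pos hc0, abs_of_pos hr0]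
    have h2 := hf (fun z => (c : ℂ) * (z / r) ^ N) (by fun_prop) ?_ ?_ ((3 * r : ℝ) : ℂ)
    · rw [hnorm] at h2
      have h3 : ‖((3 * r : ℝ) : ℂ)‖ = 3 * r := by
        rw [Complex.norm_real, Real.norm_eq_abs, abs_of_pos (by positivity)]
      rw [h3, mul_div_assoc, div_self hr0.ne', mul_one] at h2
      have h4 : Real.exp (N : ℝ) ≤ 3 ^ N := by
        rw [← Real.exp_one_pow]
        apply pow_le_pow_left₀ (Real.exp_pos _).le
        exact (Real.exp_one_lt_d9.trans (by norm_num)).le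
      have h5 : (N : ℝ) = (3 * r) ^ 2 + r ^ 2 := by rw [hN, hr]; push_cast; ring
      rw [h5, Real.exp_add] at h4
      have h6 : r ^ 2 + 1 ≤ Real.exp (r ^ 2) := Real.add_one_le_exp _
      have h7 : c * Real.exp (r ^ 2) ≤ C := by
        have hp := Real.exp_pos ((3 * r) ^ 2)
        have : c * (Real.exp ((3 * r) ^ 2) * Real.exp (r ^ 2)) ≤ C * Real.exp ((3 * r) ^ 2) :=
          le_trans (by gcongr) h2
        nlinarith
      rw [div_lt_iff₀ hc0] at hn
      have : r ≤ r ^ 2 := by nlinarith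
      nlinarith
    · refine ⟨1, c * N.factorial, one_pos, by positivity, fun z => ?_⟩
      rw [hnorm, Real.rpow_one, one_mul, mul_assoc]
      gcongr
      have h1 := Real.pow_div_factorial_le_exp ‖z‖ (norm_nonneg _) N
      rw [div_le_iff₀ (by positivity)] at h1
      calc (‖z‖ / r) ^ N ≤ ‖z‖ ^ N := by
            gcongr; exact div_le_self (norm_nonneg _) hr1
        _ ≤ _ := by linarith
    · rintro z ⟨m, hm⟩
      rw [hnorm]
      refine le_trans ?_ (hck z)
      gcongr
      rcases le_or_gt m n with hmn | hmn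
      · have : ‖z‖ / r ≤ 1 := by
          rw [div_le_one hr0, hm, hr]; exact_mod_cast R_mono hmn
        exact (pow_le_one₀ (by positivity) this).trans (Real.one_le_exp (norm_nonneg _))
      · have h1 : (R (n + 1) : ℝ) ≤ ‖z‖ := by rw [hm]; exact_mod_cast R_mono hmn
        have h2 : 4 * (N : ℝ) ^ 2 = R (n + 1) := by rw [hN]; simp only [R]; push_cast; ring
        have h3 : (0 : ℝ) < R (n + 1) := by
          have := R_ge (n + 1)
          have : 0 < R (n + 1) := by omega
          exact_mod_cast this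
        calc (‖z‖ / r) ^ N ≤ ‖z‖ ^ N := by
              gcongr; exact div_le_self (norm_nonneg _) hr1
          _ ≤ _ := pow_le_exp N _ (by linarith) (by linarith)
  · intro f hf _
    refine ⟨fun hb => ?_, fun hb => hb.subset (Set.image_subset_range _ _)⟩
    obtain ⟨M, hM⟩ := hb.exists_norm_le
    rw [isBounded_iff_forall_norm_le]
    refine ⟨M, ?_⟩
    rintro _ ⟨z, rfl⟩
    obtain ⟨n, hn⟩ := exists_nat_gt ‖z‖
    have hrn : (n : ℝ) + 1 ≤ R n := by exact_mod_cast R_ge n
    have hn0 : (0 : ℝ) ≤ n := Nat.cast_nonneg n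
    apply Complex.norm_le_of_forall_mem_frontier_norm_le (U := Metric.ball (0 : ℂ) (R n))
      Metric.isBounded_ball hf.diffContOnCl
    · intro w hw
      rw [frontier_ball _ (by linarith : (0 : ℝ) < R n).ne'] at hw
      exact hM _ ⟨w, ⟨n, by simpa using hw⟩, rfl⟩
    · apply subset_closure
      simp only [mem_ball_zero_iff]; linarith
  · intro A hA
    rw [Real.isLittleO_exp_comp_exp_comp]
    simp only [Real.rpow_one]
    have h1 : Filter.Tendsto (fun z : ℂ => ‖z‖) (Filter.cocompact ℂ) Filter.atTop :=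
      tendsto_norm_cocompact_atTop
    have h2 : Filter.Tendsto (fun t : ℝ => t ^ 2 - A * t) Filter.atTop Filter.atTop := by
      have : (fun t : ℝ => t ^ 2 - A * t) = fun t => t * (t - A) := by ext t; ring
      rw [this]
      exact Filter.tendsto_id.atTop_mul_atTop₀ (Filter.tendsto_atTop_add_const_right _ (-A) Filter.tendsto_id)
    exact h2.comp h1

end Pool.Agent.S04676
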