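import Pool.Statements.S04698
import Pool.Agent.H93.Til2

set_option autoImplicit false
open Pool Pool.MP_541d58_an

namespace Pool.Agent.S04698

/-- The negation of the preceding statement: There is a family of pairwise disjoint, bounded, closed convex sets with nonempty interior whose union is the whole real Hilbert space ℓ²(ℝ), i.e. ℓ₂ of continuum density. -/
theorem result :
    ¬ (∃ 𝒯 : Set (Set (lp (fun _ : ℝ => ℝ) (2 : ENNReal))),
      (∀ C ∈ 𝒯, IsClosed C ∧ Convex ℝ C ∧ (interior C).Nonempty ∧ Bornology.IsBounded C) ∧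
      𝒯.PairwiseDisjoint id ∧
      ⋃₀ 𝒯 = Set.univ) := by
  classical
  rintro ⟨𝒯, h1, h2, h3⟩
  haveI : Nontrivial (lp (fun _ : ℝ => ℝ) (2 : ENNReal)) := by
    refine ⟨⟨lp.single 2 (0 : ℝ) (1 : ℝ), 0, fun h => ?_⟩⟩
    have := congrArg (fun f : lp (fun _ : ℝ => ℝ) (2 : ENNReal) => f 0) h
    simp at this
  refine Pool.Agent.H93.Til.no_tiling 𝒯 (fun C hC => ?_) h2 h3
  obtain ⟨a, b, c, d⟩ := h1 C hC
  refine ⟨a, b, c, fun hu => ?_⟩
  rw [hu] at d
  exact NormedSpace.unbounded_univ ℝ _ d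

end Pool.Agent.S04698
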