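import Pool.Statements.S04713
import Pool.Agent.H96.CZ2

set_option autoImplicit false
open Pool Pool.MP_561634_an

namespace Pool.Agent.S04713


/-- For every integer p ≥ 3 and every real polynomial f = Σ a_k x^k, the polynomial Σ e^{-k^p} a_k x^k has at most as many nonreal zeros (with multiplicity) as f. -/
theorem result :
    ∀ p : ℕ, 3 ≤ p → ∀ f : Polynomial ℝ,
      (((∑ n ∈ f.support,
            Polynomial.C (f.coeff n * Real.exp (-((n : ℝ) ^ p))) * Polynomial.X ^ n).map
            (algebraMap ℝ ℂ)).roots.filter (fun z : ℂ => z.im ≠ 0)).card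
        ≤ ((f.map (algebraMap ℝ ℂ)).roots.filter (fun z : ℂ => z.im ≠ 0)).card := by
  intro p hp f
  refine Pool.Agent.H96.CZ.czds (γ := fun k => Real.exp (-((k : ℝ) ^ p)))
    (fun k => Real.exp_pos _) (Pool.Agent.H96.CZ.exp_conc hp) fun k => ?_
  rw [Polynomial.finsetSum_coeff]
  simp only [Polynomial.coeff_C_mul, Polynomial.coeff_X_pow, mul_ite, mul_one, mul_zero,
    Finset.sum_ite_eq]
  split_ifs with h
  · ring
  · rw [Polynomial.notMem_support_iff.1 h, mul_zero]

end Pool.Agent.S04713
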