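import Pool.Statements.S04718
import Pool.Agent.H87.DualIdx4

set_option autoImplicit false
open Pool Pool.MP_565a2b_an

namespace Pool.Agent.S04718

theorem result :
    ¬ ((∀ (X : Type) [NormedAddCommGroup X] [NormedSpace ℝ X] [CompleteSpace X],
      (∀ (Z : Type) [NormedAddCommGroup Z] [NormedSpace ℝ Z] [CompleteSpace Z],
        Nonempty ((Z →L[ℝ] ℝ) ≃ₗᵢ[ℝ] (X →L[ℝ] ℝ)) → Nonempty (Z ≃ₗᵢ[ℝ] X)) →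
      sInf {s : ℝ | ∃ T : (X →L[ℝ] ℝ) →L[ℝ] (X →L[ℝ] ℝ), ‖T‖ = 1 ∧
          s = sSup {r : ℝ | ∃ (x : X →L[ℝ] ℝ) (f : (X →L[ℝ] ℝ) →L[ℝ] ℝ),
            ‖x‖ = 1 ∧ ‖f‖ = 1 ∧ f x = 1 ∧ r = ‖f (T x)‖}}
        = sInf {s : ℝ | ∃ T : X →L[ℝ] X, ‖T‖ = 1 ∧
          s = sSup {r : ℝ | ∃ (x : X) (f : X →L[ℝ] ℝ),
            ‖x‖ = 1 ∧ ‖f‖ = 1 ∧ f x = 1 ∧ r = ‖f (T x)‖}}) ∧
    (∀ (X : Type) [NormedAddCommGroup X] [NormedSpace ℂ X] [CompleteSpace X],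
      (∀ (Z : Type) [NormedAddCommGroup Z] [NormedSpace ℂ Z] [CompleteSpace Z],
        Nonempty ((Z →L[ℂ] ℂ) ≃ₗᵢ[ℂ] (X →L[ℂ] ℂ)) → Nonempty (Z ≃ₗᵢ[ℂ] X)) →
      sInf {s : ℝ | ∃ T : (X →L[ℂ] ℂ) →L[ℂ] (X →L[ℂ] ℂ), ‖T‖ = 1 ∧
          s = sSup {r : ℝ | ∃ (x : X →L[ℂ] ℂ) (f : (X →L[ℂ] ℂ) →L[ℂ] ℂ),
            ‖x‖ = 1 ∧ ‖f‖ = 1 ∧ f x = 1 ∧ r = ‖f (T x)‖}}
        = sInf {s : ℝ | ∃ T : X →L[ℂ] X, ‖T‖ = 1 ∧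
          s = sSup {r : ℝ | ∃ (x : X) (f : X →L[ℂ] ℂ),
            ‖x‖ = 1 ∧ ‖f‖ = 1 ∧ f x = 1 ∧ r = ‖f (T x)‖}})) := by
  open Pool.Agent.H87.DualIdx in
  rintro ⟨h, -⟩
  have h1 := h X fun F _ _ _ ⟨Φ⟩ => upredX F Φ
  obtain ⟨S, hS, hS2⟩ := upperS
  have a1 : sInf {s : ℝ | ∃ T : (X →L[ℝ] ℝ) →L[ℝ] (X →L[ℝ] ℝ), ‖T‖ = 1 ∧ s = sSup (RS T)}
      ≤ 1 / 50 :=
    le_trans (csInf_le ⟨0, by rintro _ ⟨T, -, rfl⟩; exact RS_nonneg T⟩ (by exact ⟨S, hS, rfl⟩)) hS2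
  have a2 : 1 / 25 ≤ sInf {s : ℝ | ∃ T : X →L[ℝ] X, ‖T‖ = 1 ∧ s = sSup (RS T)} :=
    le_csInf ⟨_, _, idE (LinearIsometryEquiv.refl ℝ X), rfl⟩
      (by rintro _ ⟨T, hT, rfl⟩; exact lowerE (LinearIsometryEquiv.refl ℝ X) T hT)
  have a3 := (a2.trans_eq h1.symm).trans a1
  norm_num at a3

end Pool.Agent.S04718
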