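import Pool.Statements.S04719
import Pool.Agent.H98.Surj

set_option autoImplicit false
open Pool Pool.MP_565f87_an

namespace Pool.Agent.S04719

open Pool.Agent.H98.Surj in
/-- Every locally finite monoid is surjunctive. -/
theorem result :
    ∀ (M : Type) [Monoid M],
      (∀ s : Finset M, (Submonoid.closure (s : Set M) : Set M).Finite) →
      ∀ (k : ℕ) (τ : (M → Fin k) → (M → Fin k)),
        (∃ S : Finset M, ∃ μ : ({a : M // a ∈ S} → Fin k) → Fin k,
          ∀ (x : M → Fin k) (m : M), τ x m = μ (fun s => x (m * s.1))) →
        Function.Injective τ → Function.Surjective τ := by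
  intro M _ hM k τ ⟨S, μ, hτ⟩ hinj
  classical
  have he : τ = ca (fun s : {a : M // a ∈ S} => s.1) μ := by
    funext x m
    exact hτ x m
  rw [he] at hinj ⊢
  refine transfer _ μ (fun G => ?_) hinj
  let N : Submonoid M := Submonoid.closure (G : Set M)
  have hfin : Finite N := (hM G).to_subtype
  refine ⟨N, N, inferInstance, MonoidHom.id N, fun g hg => Submonoid.subset_closure hg, ?_, ?_⟩
  · intro a b _ _ hab
    exact hab
  · intro σ' h
    exact Finite.injective_iff_surjective.1 h

end Pool.Agent.S04719
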