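import Pool.Statements.S04722
import Pool.Agent.H92.LiuWang

set_option autoImplicit false
open MeasureTheory Real ComplexConjugate
open Pool Pool.MP_5691a6_an

namespace Pool.Agent.S04722
open Pool.Agent.H92.Fourier1 Pool.Agent.H92.LiuWang Set

abbrev E := EuclideanSpace ℝ (Fin 2)

noncomputable def e : E ≃ᵐ ℝ × ℝ :=
  (MeasurableEquiv.toLp 2 (Fin 2 → ℝ)).symm.trans MeasurableEquiv.finTwoArrow

lemma e_apply (x : E) : e x = (x 0, x 1) := rfl

lemma e_mp : MeasurePreserving e volume volume :=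
  (volume_preserving_finTwoArrow ℝ).comp
    (EuclideanSpace.volume_preserving_symm_measurableEquiv_toLp (Fin 2))

noncomputable def g (x : E) : ℂ := c ⌊x 0⌋ ⌊x 1⌋

def T : Set E := {x | ∃ a b : ℤ, Even (a + b) ∧ x 0 = a ∧ x 1 = b}
def S : Set E := {x | ∃ k l : ℤ, x 0 = k / 2 ∧ x 1 = l}

lemma atom (t s x : E) (a b k l : ℤ) (ha : t 0 = a) (hb : t 1 = b) (hk : s 0 = k / 2)
    (hl : s 1 = l) :
    g (x - t) * Complex.exp (2 * π * Complex.I * ((@inner ℝ _ _ s x : ℝ) : ℂ)) =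
      c (⌊x 0⌋ - a) (⌊x 1⌋ - b) * (ex l (x 1) * ex (k / 2) (x 0)) := by
  unfold g ex
  rw [← Complex.exp_add]
  simp only [PiLp.sub_apply, ha, hb, Int.floor_sub_intCast]
  congr 2
  rw [PiLp.inner_apply, Fin.sum_univ_two, hk, hl]
  simp only [RCLike.inner_apply, conj_trivial]
  push_cast; ring

lemma ip (t₁ s₁ t₂ s₂ : E) (a b k l a' b' k' l' : ℤ) (h : Even (a + b)) (h' : Even (a' + b'))
    (ha : t₁ 0 = a) (hb : t₁ 1 = b) (hk : s₁ 0 = k / 2) (hl : s₁ 1 = l)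
    (ha' : t₂ 0 = a') (hb' : t₂ 1 = b') (hk' : s₂ 0 = k' / 2) (hl' : s₂ 1 = l') :
    ∫ x, (g (x - t₁) * Complex.exp (2 * π * Complex.I * ((@inner ℝ _ _ s₁ x : ℝ) : ℂ))) *
      conj (g (x - t₂) * Complex.exp (2 * π * Complex.I * ((@inner ℝ _ _ s₂ x : ℝ) : ℂ))) =
      if k - k' = 0 ∧ l - l' = 0 ∧ a = a' ∧ b = b' then 1 else 0 := by
  rw [← inner_prod a b a' b' (k - k') (l - l') h h', ← e_mp.integral_comp']
  congr 1; ext x
  rw [atom t₁ s₁ x a b k l ha hb hk hl, atom t₂ s₂ x a' b' k' l' ha' hb' hk' hl', e_apply]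
  simp only [map_mul, c_conj, ex_conj]
  have e1 : ex ((l - l' : ℤ) : ℝ) (x 1) = ex l (x 1) * ex (-(l':ℝ)) (x 1) := by
    rw [← ex_add_left]; congr 1; push_cast; ring
  have e2 : ex (((k - k' : ℤ) : ℝ) / 2) (x 0) = ex (k / 2) (x 0) * ex (-((k':ℝ) / 2)) (x 0) := by
    rw [← ex_add_left]; congr 1; push_cast; ring
  rw [e1, e2]; ring

theorem result :
    ¬ (∀ (d : ℕ), 0 < d →
    ∀ (g : EuclideanSpace ℝ (Fin d) → ℂ) (T S : Set (EuclideanSpace ℝ (Fin d))),
      MemLp g 2 volume → HasCompactSupport g →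
      (∀ t₁ ∈ T, ∀ s₁ ∈ S, ∀ t₂ ∈ T, ∀ s₂ ∈ S, (t₁ ≠ t₂ ∨ s₁ ≠ s₂) →
        ∫ x, (g (x - t₁) * Complex.exp (2 * π * Complex.I * ((@inner ℝ _ _ s₁ x : ℝ) : ℂ))) *
          conj (g (x - t₂) * Complex.exp (2 * π * Complex.I * ((@inner ℝ _ _ s₂ x : ℝ) : ℂ))) = 0) →
      (∀ t ∈ T, ∀ s ∈ S,
        ∫ x, (g (x - t) * Complex.exp (2 * π * Complex.I * ((@inner ℝ _ _ s x : ℝ) : ℂ))) *
          conj (g (x - t) * Complex.exp (2 * π * Complex.I * ((@inner ℝ _ _ s x : ℝ) : ℂ))) = 1) →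
      (∀ f : EuclideanSpace ℝ (Fin d) → ℂ, MemLp f 2 volume →
        (∀ t ∈ T, ∀ s ∈ S,
          ∫ x, f x * conj (g (x - t) * Complex.exp (2 * π * Complex.I * ((@inner ℝ _ _ s x : ℝ) : ℂ))) = 0) →
        f =ᵐ[volume] 0) →
      ∃ Ω : Set (EuclideanSpace ℝ (Fin d)),
        MeasurableSet Ω ∧ 0 < volume Ω ∧ volume Ω < ⊤ ∧
        (∀ᵐ x ∂volume, ‖g x‖ = (volume Ω).toReal ^ (-(1 / 2 : ℝ)) * Ω.indicator (fun _ => (1 : ℝ)) x) ∧
        (∀ᵐ x ∂volume, ∃! l, l ∈ T ∧ x - l ∈ Ω) ∧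
        (∀ l ∈ S, ∀ m ∈ S, l ≠ m →
          ∫ x in Ω, Complex.exp (2 * π * Complex.I * ((@inner ℝ _ _ l x : ℝ) : ℂ)) *
            conj (Complex.exp (2 * π * Complex.I * ((@inner ℝ _ _ m x : ℝ) : ℂ))) = 0) ∧
        (∀ f : EuclideanSpace ℝ (Fin d) → ℂ, MemLp f 2 (volume.restrict Ω) →
          (∀ l ∈ S, ∫ x in Ω, f x * conj (Complex.exp (2 * π * Complex.I * ((@inner ℝ _ _ l x : ℝ) : ℂ))) = 0) →
          f =ᵐ[volume.restrict Ω] 0)) := by
  intro H
  have hg : MemLp g 2 volume := by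
    have := (memLp_c 0 0 2).comp_measurePreserving e_mp
    refine this.congr_norm ?_ ?_
    · have hm : Measurable g := by
        have := (meas_c 0 0).comp e.measurable
        convert this using 1
        ext x; simp [g, e_apply]
      exact hm.aestronglyMeasurable
    · exact Filter.Eventually.of_forall fun x => by simp [g, e_apply]
  have hs : HasCompactSupport g := by
    refine HasCompactSupport.intro (isCompact_closedBall (0 : E) 3) fun x hx => ?_
    by_contra hne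
    apply hx
    have := c_ne hne
    have h1 : (0:ℝ) ≤ x 0 := by
      have := Int.le_floor.mp (show (0:ℤ) ≤ ⌊x 0⌋ by omega); simpa using this
    have h2 : x 0 < 2 := by
      have := Int.floor_lt.mp (show ⌊x 0⌋ < (2:ℤ) by omega); simpa using this
    have h3 : (-1:ℝ) ≤ x 1 := by
      have := Int.le_floor.mp (show (-1:ℤ) ≤ ⌊x 1⌋ by omega); simpa using this
    have h4 : x 1 < 2 := by
      have := Int.floor_lt.mp (show ⌊x 1⌋ < (2:ℤ) by omega); simpa using this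
    rw [mem_closedBall_zero_iff, EuclideanSpace.norm_eq, Fin.sum_univ_two, Real.sqrt_le_iff]
    refine ⟨by norm_num, ?_⟩
    simp only [Real.norm_eq_abs, sq_abs]
    nlinarith
  obtain ⟨Ω, -, -, -, h4, h5, -, -⟩ := H 2 two_pos g T S hg hs
    (by
      rintro t₁ ⟨a, b, h, ha, hb⟩ s₁ ⟨k, l, hk, hl⟩ t₂ ⟨a', b', h', ha', hb'⟩ s₂ ⟨k', l', hk', hl'⟩
        hne
      rw [ip t₁ s₁ t₂ s₂ a b k l a' b' k' l' h h' ha hb hk hl ha' hb' hk' hl', if_neg]
      rintro ⟨h1, h2, h3, h4⟩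
      have h1' : k = k' := by omega
      have h2' : l = l' := by omega
      subst h1' h2' h3 h4
      rcases hne with hne | hne
      · apply hne; ext i; fin_cases i
        · exact ha.trans ha'.symm
        · exact hb.trans hb'.symm
      · apply hne; ext i; fin_cases i
        · exact hk.trans hk'.symm
        · exact hl.trans hl'.symm)
    (by
      rintro t ⟨a, b, h, ha, hb⟩ s ⟨k, l, hk, hl⟩
      rw [ip t s t s a b k l a b k l h h ha hb hk hl ha hb hk hl, if_pos]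
      simp)
    (by
      intro f hf hf0
      have h1 : MemLp (f ∘ e.symm) 2 volume := hf.comp_measurePreserving e_mp.symm
      have h2 := complete (f ∘ e.symm) h1 (by
        intro a b k l hab
        have := hf0 (e.symm ((a:ℝ), (b:ℝ))) ⟨a, b, hab, rfl, rfl⟩
          (e.symm ((((-k : ℤ):ℝ) / 2), ((-l : ℤ):ℝ))) ⟨-k, -l, rfl, rfl⟩
        rw [← this, ← e_mp.integral_comp']
        congr 1; ext x
        rw [atom _ _ x a b (-k) (-l) rfl rfl rfl rfl]
        simp only [map_mul, c_conj, ex_conj, Function.comp, MeasurableEquiv.symm_apply_apply]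
        rw [e_apply]
        simp only [Int.cast_neg, neg_neg, neg_div]
        ring)
      have h3 := e_mp.quasiMeasurePreserving.ae_eq_comp h2
      filter_upwards [h3] with x hx
      simpa using hx)
  let τ : E := e.symm ((1:ℝ), (-1:ℝ))
  have hτ : τ ∈ T := ⟨1, -1, by simp, by simp [τ]; rfl, by simp [τ]; rfl⟩
  have hτ0 : τ 0 = 1 := rfl
  have hτ1 : τ 1 = -1 := rfl
  have h0 : (0 : E) ∈ T := ⟨0, 0, by simp, by simp, by simp⟩
  have h6 : ∀ᵐ x ∂(volume : Measure E), g x ≠ 0 → x ∈ Ω := by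
    filter_upwards [h4] with x hx hne
    by_contra hn
    rw [indicator_of_notMem hn, mul_zero] at hx
    exact hne (norm_eq_zero.mp hx)
  have h7 : ∀ᵐ x ∂(volume : Measure E), g (x - τ) ≠ 0 → x - τ ∈ Ω :=
    (measurePreserving_sub_right volume τ).quasiMeasurePreserving.ae h6
  have h8 : ∀ᵐ x ∂(volume : Measure E), x ∉ e ⁻¹' (Ico (1:ℝ) 2 ×ˢ Ico (0:ℝ) 1) := by
    filter_upwards [h5, h6, h7] with x hx h6 h7 hmem
    obtain ⟨⟨m1, m2⟩, m3, m4⟩ := hmem
    rw [e_apply] at m1 m2 m3 m4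
    simp only at m1 m2 m3 m4
    have f0 : ⌊x 0⌋ = 1 := Int.floor_eq_iff.mpr ⟨by simpa using m1, by norm_num; linarith⟩
    have f1 : ⌊x 1⌋ = 0 := Int.floor_eq_iff.mpr ⟨by simpa using m3, by simpa using m4⟩
    have g1 : g x ≠ 0 := by
      unfold g; rw [f0, f1]; simp [c]
    have g2 : g (x - τ) ≠ 0 := by
      unfold g
      simp only [PiLp.sub_apply, hτ0, hτ1, sub_neg_eq_add, Int.floor_sub_one, Int.floor_add_one,
        f0, f1]
      simp [c]
    have := hx.unique ⟨h0, by simpa using h6 g1⟩ ⟨hτ, h7 g2⟩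
    have h9 := congrArg (fun v : E => v 0) this
    simp [hτ0] at h9
  rw [← measure_eq_zero_iff_ae_notMem, e_mp.measure_preimage_equiv, Measure.volume_eq_prod,
    Measure.prod_prod] at h8
  simp at h8

end Pool.Agent.S04722
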