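import Pool.Statements.S04734
import Pool.Agent.H62.Hill

set_option autoImplicit false
open Pool Pool.MP_5876d3_an

namespace Pool.Agent.S04734

/-- The negation of the preceding statement: For any locally integrable complex a-periodic q, if the zero order of (tr M)^2-4 at z exceeds the sum of the minimal (over base points in [0,a]) Dirichlet and Neumann zero orders at z, then that sum is 0. -/
theorem result :
    ¬ (∀ (a : ℝ), 0 < a → ∀ q : ℝ → ℂ, Function.Periodic q a →
    MeasureTheory.LocallyIntegrable q MeasureTheory.volume →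
    ∀ c dc s ds : ℝ → ℂ → ℝ → ℂ,
    (∀ (x₀ : ℝ) (z : ℂ), Continuous (c x₀ z) ∧ Continuous (dc x₀ z) ∧
      Continuous (s x₀ z) ∧ Continuous (ds x₀ z) ∧
      ∀ x : ℝ,
        (c x₀ z x = 1 + ∫ t in x₀..x, dc x₀ z t) ∧
        (dc x₀ z x = ∫ t in x₀..x, (q t - z) * c x₀ z t) ∧
        (s x₀ z x = ∫ t in x₀..x, ds x₀ z t) ∧
        (ds x₀ z x = 1 + ∫ t in x₀..x, (q t - z) * s x₀ z t)) →
    ∀ z : ℂ,
      (⨅ x₀ ∈ Set.Icc (0 : ℝ) a, analyticOrderAt (fun w : ℂ => s x₀ w (x₀ + a)) z) +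
        (⨅ x₀ ∈ Set.Icc (0 : ℝ) a, analyticOrderAt (fun w : ℂ => dc x₀ w (x₀ + a)) z)
        < analyticOrderAt (fun w : ℂ => (c 0 w a + ds 0 w a) ^ 2 - 4) z →
      (⨅ x₀ ∈ Set.Icc (0 : ℝ) a, analyticOrderAt (fun w : ℂ => s x₀ w (x₀ + a)) z) +
        (⨅ x₀ ∈ Set.Icc (0 : ℝ) a, analyticOrderAt (fun w : ℂ => dc x₀ w (x₀ + a)) z) = 0) := by
  intro H
  obtain ⟨q, y1, e1, y2, e2, qc, qp, hd, o1, o2, o3, o4⟩ := H62.Hill.main
  have cy : ∀ {f g : ℝ → ℂ}, (∀ x, HasDerivAt f (g x) x) → Continuous f := fun h =>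
    continuous_iff_continuousAt.mpr fun x => (h x).continuousAt
  have h0 : (0 : ℝ) ∈ Set.Icc 0 (4 * Real.pi) := ⟨le_rfl, by positivity⟩
  have key := H (4 * Real.pi) (by positivity) q qp qc.locallyIntegrable
    (fun x₀ z x => e2 z x₀ * y1 z x - e1 z x₀ * y2 z x)
    (fun x₀ z x => e2 z x₀ * e1 z x - e1 z x₀ * e2 z x)
    (fun x₀ z x => y1 z x₀ * y2 z x - y2 z x₀ * y1 z x)
    (fun x₀ z x => y1 z x₀ * e2 z x - y2 z x₀ * e1 z x) (fun x₀ z => ?_) 0 ?_
  · have := (add_eq_zero.mp key).1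
    exact absurd (this ▸ le_iInf₂ fun x _ => o1 x) (by simp)
  · have c1 := cy fun x => (hd z x).1
    have c2 := cy fun x => (hd z x).2.1
    have c3 := cy fun x => (hd z x).2.2.1
    have c4 := cy fun x => (hd z x).2.2.2.1
    have hw := (hd z x₀).2.2.2.2
    refine ⟨by fun_prop, by fun_prop, by fun_prop, by fun_prop, fun x => ⟨?_, ?_, ?_, ?_⟩⟩
    · rw [intervalIntegral.integral_eq_sub_of_hasDerivAt (fun t _ => ((hd z t).1.const_mul _).sub
        ((hd z t).2.2.1.const_mul _)) (Continuous.intervalIntegrable (by fun_prop) _ _)]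
      simp only [Pi.sub_apply]
      linear_combination hw
    · rw [intervalIntegral.integral_eq_sub_of_hasDerivAt (fun t _ => (((hd z t).2.1.const_mul
        (e2 z x₀)).sub ((hd z t).2.2.2.1.const_mul (e1 z x₀))).congr_deriv (by ring))
        (Continuous.intervalIntegrable (by fun_prop) _ _)]
      simp only [Pi.sub_apply]
      ring
    · rw [intervalIntegral.integral_eq_sub_of_hasDerivAt (fun t _ => ((hd z t).2.2.1.const_mul
        _).sub ((hd z t).1.const_mul _)) (Continuous.intervalIntegrable (by fun_prop) _ _)]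
      simp only [Pi.sub_apply]
      ring
    · rw [intervalIntegral.integral_eq_sub_of_hasDerivAt (fun t _ => (((hd z t).2.2.2.1.const_mul
        (y1 z x₀)).sub ((hd z t).2.1.const_mul (y2 z x₀))).congr_deriv (by ring))
        (Continuous.intervalIntegrable (by fun_prop) _ _)]
      simp only [Pi.sub_apply]
      linear_combination hw
  · refine lt_of_le_of_lt (add_le_add ((iInf₂_le 0 h0).trans o2.le) ((iInf₂_le 0 h0).trans o3.le))
      (lt_of_lt_of_le (by decide) o4)

end Pool.Agent.S04734
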