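import Pool.Statements.S04738
import Pool.Agent.H97.Wedge

set_option autoImplicit false
open scoped Topology
open Pool Pool.MP_5915c0_an

namespace Pool.Agent.S04738

/-- The negation of the preceding statement: M near z is a real-analytic generic submanifold cut out by ρ, and W = {ρ ∈ Γ} a wedge on M. If p/q is holomorphic on W with norm below 1 tending to 1 at M, it extends holomorphically to a neighbourhood of z. -/
theorem result :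
    ¬ (∀ (n d N : ℕ) (z : Fin n → ℂ) (U : Set (Fin n → ℂ)) (ρ : (Fin n → ℂ) → (Fin d → ℝ))
    (Γ : Set (Fin d → ℝ)) (p : (Fin n → ℂ) → EuclideanSpace ℂ (Fin N)) (q : (Fin n → ℂ) → ℂ)
    (g : (Fin n → ℂ) → EuclideanSpace ℂ (Fin N)),
    IsOpen U → z ∈ U → AnalyticOnNhd ℝ ρ U → ρ z = 0 →
    Function.Surjective (fderiv ℝ ρ z) →
    (∀ v : Fin n → ℂ, ∃ a b : Fin n → ℂ,
      fderiv ℝ ρ z a = 0 ∧ fderiv ℝ ρ z b = 0 ∧ v = a + Complex.I • b) →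
    IsOpen Γ → Convex ℝ Γ → Γ.Nonempty → (0 : Fin d → ℝ) ∉ Γ →
    (∀ x ∈ Γ, ∀ t : ℝ, 0 < t → t • x ∈ Γ) →
    AnalyticOnNhd ℂ p U → AnalyticOnNhd ℂ q U → ¬ (∀ᶠ w in 𝓝 z, q w = 0) →
    AnalyticOnNhd ℂ g {w | w ∈ U ∧ ρ w ∈ Γ} →
    (∀ w ∈ U, ρ w ∈ Γ → q w • g w = p w) →
    (∀ w ∈ U, ρ w ∈ Γ → ‖g w‖ < 1) →
    (∀ m ∈ U, ρ m = 0 →
      Filter.Tendsto (fun w => ‖g w‖) (𝓝[{w | w ∈ U ∧ ρ w ∈ Γ}] m) (𝓝 1)) →
    ∃ V ∈ 𝓝 z, ∃ F : (Fin n → ℂ) → EuclideanSpace ℂ (Fin N),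
      AnalyticOnNhd ℂ F V ∧ ∀ w ∈ V, w ∈ U → ρ w ∈ Γ → F w = g w) := by
  intro h
  refine H97.Wedge.no_ext (h 2 2 2 0 Set.univ H97.Wedge.rho H97.Wedge.Gam H97.Wedge.p H97.Wedge.q
    H97.Wedge.g isOpen_univ trivial (fun w _ => H97.Wedge.rho.analyticAt w) (map_zero _) ?_ ?_
    H97.Wedge.isOpen_Gam ?_ ⟨fun _ => 1, by simp [H97.Wedge.Gam]⟩ (by simp [H97.Wedge.Gam]) ?_
    (fun w _ => H97.Wedge.an_p w) (fun w _ => H97.Wedge.an_q w) H97.Wedge.q_not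
    (fun w hw => H97.Wedge.an_g w (H97.Wedge.Q_ne hw.2.1 hw.2.2)) ?_
    (fun w _ hw => H97.Wedge.g_lt w hw) (fun m _ hm => H97.Wedge.g_tendsto m hm))
  · rw [ContinuousLinearMap.fderiv]
    intro v
    exact ⟨fun i => (v i : ℂ) * Complex.I, by ext i; simp⟩
  · rw [ContinuousLinearMap.fderiv]
    intro v
    refine ⟨fun i => ((v i).re : ℂ), fun i => ((v i).im : ℂ), by ext i; simp, by ext i; simp, ?_⟩
    ext i
    simp [mul_comm Complex.I]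
  · intro x hx y hy a b ha hb hab
    obtain ⟨hx0, hx1⟩ := hx
    obtain ⟨hy0, hy1⟩ := hy
    rcases ha.eq_or_lt with rfl | ha'
    · have : b = 1 := by linarith
      subst this
      simpa [H97.Wedge.Gam] using And.intro hy0 hy1
    · constructor <;> simp only [Pi.add_apply, Pi.smul_apply, smul_eq_mul] <;> positivity
  · intro x hx t ht
    exact ⟨mul_pos ht hx.1, mul_pos ht hx.2⟩
  · intro w _ hw
    have h1 : H97.Wedge.q w ≠ 0 := H97.Wedge.Q_ne hw.1 hw.2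
    rw [H97.Wedge.g, smul_inv_smul₀ h1]

end Pool.Agent.S04738
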