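import Pool.Statements.S04759
import Pool.Agent.H98.Injunct

set_option autoImplicit false
open Set
open Pool Pool.MP_5b6163_an

namespace Pool.Agent.S04759

/-- There is a finite alphabet and a closed shift-invariant set X of bi-infinite sequences on which every surjective continuous shift-commuting self-map is injective, yet some injective such self-map is not surjective. -/
theorem result :
    ∃ n : ℕ, ∃ X : Set (ℤ → Fin n),
      IsClosed X ∧
      (∀ x : ℤ → Fin n, x ∈ X ↔ (fun i => x (i + 1)) ∈ X) ∧
      (∀ f : (ℤ → Fin n) → (ℤ → Fin n),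
        MapsTo f X X → ContinuousOn f X →
        (∀ x ∈ X, f (fun i => x (i + 1)) = fun i => f x (i + 1)) →
        SurjOn f X X → InjOn f X) ∧
      ¬ (∀ f : (ℤ → Fin n) → (ℤ → Fin n),
        MapsTo f X X → ContinuousOn f X →
        (∀ x ∈ X, f (fun i => x (i + 1)) = fun i => f x (i + 1)) →
        InjOn f X → SurjOn f X X) := by
  open Pool.Agent.H98.Injunct in
  refine ⟨3, X, isClosed_closure, fun x => ⟨sh_X 1 x, fun h => ?_⟩,
    fun f hm hc hs hsurj => inj f hm hc hs hsurj, fun h => ?_⟩
  · have := sh_X (-1) (sh 1 x) h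
    rwa [sh_sh, neg_add_cancel, sh_zero] at this
  · exact not_surj.2.2 (h (tau (-1)) not_surj.1 (cont_tau _).continuousOn
      (fun x _ => tau_sh (-1) 1 x) not_surj.2.1)

end Pool.Agent.S04759
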