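import Pool.Statements.S04769
import Pool.Agent.H94.AFOp

set_option autoImplicit false
open Pool Pool.MP_5c3535_an

namespace Pool.Agent.S04769

open Complex
open scoped Matrix.Norms.L2Operator

abbrev B (n : ℕ) : Type := Matrix (Fin 2 ⊕ Fin n) (Fin 2 ⊕ Fin n) ℂ

noncomputable def p : Fin 3 → Matrix (Fin 2) (Fin 2) ℂ :=
  ![!![1, 0; 0, 0], !![1 / 2, 1 / 2; 1 / 2, 1 / 2], !![1 / 2, -I / 2; I / 2, 1 / 2]]

noncomputable def emb (n : ℕ) (m : Matrix (Fin 2) (Fin 2) ℂ) : B n :=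
  Matrix.fromBlocks m 0 0 0

lemma emb_mul (n : ℕ) (a b : Matrix (Fin 2) (Fin 2) ℂ) : emb n a * emb n b = emb n (a * b) := by
  simp [emb, Matrix.fromBlocks_multiply]

lemma emb_smul (n : ℕ) (z : ℂ) (a : Matrix (Fin 2) (Fin 2) ℂ) : z • emb n a = emb n (z • a) := by
  simp [emb, Matrix.fromBlocks_smul]

lemma emb_star (n : ℕ) (a : Matrix (Fin 2) (Fin 2) ℂ) : star (emb n a) = emb n a.conjTranspose := by
  simp [emb, Matrix.star_eq_conjTranspose, Matrix.fromBlocks_conjTranspose]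

lemma p_mul (i : Fin 3) : p i * p i = p i := by
  fin_cases i <;> ext a b <;> fin_cases a <;> fin_cases b <;>
    simp [p, Matrix.mul_apply, Fin.sum_univ_two, Complex.ext_iff] <;> norm_num

lemma p_star (i : Fin 3) : (p i).conjTranspose = p i := by
  fin_cases i <;> ext a b <;> fin_cases a <;> fin_cases b <;>
    simp [p, Matrix.conjTranspose_apply]

lemma p_ne (i : Fin 3) : p i 0 0 ≠ 0 := by
  fin_cases i <;> simp [p]

lemma p_rel1 : p 0 * p 1 * p 2 * p 0 = ((1 + I) / 4) • p 0 := by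
  ext a b
  fin_cases a <;> fin_cases b <;>
    simp [p, Matrix.mul_apply, Fin.sum_univ_two, Complex.ext_iff] <;> norm_num

lemma p_rel2 : p 0 * (p 2 * (p 1 * p 0)) = ((1 - I) / 4) • p 0 := by
  ext a b
  fin_cases a <;> fin_cases b <;>
    simp [p, Matrix.mul_apply, Fin.sum_univ_two, Complex.ext_iff] <;> norm_num

lemma finrank_B (n : ℕ) : Module.finrank ℂ (B n) = (2 + n) * (2 + n) := by
  rw [Module.finrank_matrix]
  simp

lemma central (n : ℕ) (z : B n) (h : ∀ b, z * b = b * z) (hz : z * z = z) : z = 0 ∨ z = 1 := by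
  obtain ⟨s, hs⟩ := (Matrix.mem_range_scalar_iff_commute_single'
    (M := z)).2 fun i j => (h _).symm
  have e : z = s • (1 : B n) := by
    rw [← hs, Matrix.scalar_apply, Matrix.smul_one_eq_diagonal]
  have h1 : (1 : B n) ≠ 0 := by
    intro h0
    have := congrFun (congrFun h0 (Sum.inl 0)) (Sum.inl 0)
    simp at this
  rw [e, smul_mul_smul_comm, mul_one] at hz
  have h2 : s * s = s := smul_left_injective ℂ h1 hz
  by_cases h3 : s = 0
  · left
    rw [e, h3, zero_smul]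
  · right
    have h4 : s = 1 := by
      apply mul_left_cancel₀ h3
      rw [mul_one, h2]
    rw [e, h4, one_smul]

open Cardinal in
lemma exists_inj : ∃ f : (∀ n, Fin 3 → B n) → ℕ → Bool, Function.Injective f := by
  have h1 : ∀ n, #(Fin 3 → B n) ≤ 𝔠 := by
    intro n
    have e : #(B n) = #(Fin 2 ⊕ Fin n → Fin 2 ⊕ Fin n → ℂ) := rfl
    have h2 : ∀ (α β : Type) [Fintype α], #β ≤ 𝔠 → #(α → β) ≤ 𝔠 := by
      intro α β _ h
      rw [← power_def]
      calc #β ^ #α ≤ 𝔠 ^ #α := power_le_power_right h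
        _ ≤ 𝔠 ^ ℵ₀ := power_le_power_left continuum_ne_zero mk_le_aleph0
        _ = 𝔠 := continuum_power_aleph0
    refine h2 _ _ ?_
    rw [e]
    exact h2 _ _ (h2 _ _ mk_complex.le)
  have h3 : #(∀ n, Fin 3 → B n) ≤ #(ℕ → Bool) := by
    rw [mk_pi]
    refine (prod_le_prod _ (fun _ => 𝔠) h1).trans ?_
    simp
  obtain ⟨f⟩ := h3
  exact ⟨f, f.injective⟩

/-- Either some nonseparable C*-algebra with a norm-dense directed union of finite-dimensional *-subalgebras has no *-isomorphism onto its opposite, or some hyperfinite von Neumann algebra with nonseparable predual has none. -/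
theorem result :
    (∃ (A : Type) (_ : NonUnitalCStarAlgebra A),
      ¬ TopologicalSpace.SeparableSpace A ∧
      (∃ S : Set (NonUnitalStarSubalgebra ℂ A), DirectedOn (· ≤ ·) S ∧
        (∀ s ∈ S, FiniteDimensional ℂ (Submodule.span ℂ (s : Set A))) ∧
        Dense (⋃ s ∈ S, (s : Set A))) ∧
      IsEmpty (A ≃⋆ₐ[ℂ] Aᵐᵒᵖ)) ∨
    (∃ (H : Type) (_ : NormedAddCommGroup H) (_ : InnerProductSpace ℂ H) (_ : CompleteSpace H)
      (M : VonNeumannAlgebra H),
      (∃ S : Set (StarSubalgebra ℂ (H →L[ℂ] H)), DirectedOn (· ≤ ·) S ∧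
        (∀ s ∈ S, FiniteDimensional ℂ (Submodule.span ℂ (s : Set (H →L[ℂ] H)))) ∧
        Set.centralizer (Set.centralizer (⋃ s ∈ S, (s : Set (H →L[ℂ] H))))
          = (M.toStarSubalgebra : Set (H →L[ℂ] H))) ∧
      (¬ ∃ (K : Type) (_ : NormedAddCommGroup K) (_ : InnerProductSpace ℂ K) (_ : CompleteSpace K)
          (_ : TopologicalSpace.SeparableSpace K) (N : VonNeumannAlgebra K),
          Nonempty (M.toStarSubalgebra ≃⋆ₐ[ℂ] N.toStarSubalgebra)) ∧
      IsEmpty (M.toStarSubalgebra ≃⋆ₐ[ℂ] (M.toStarSubalgebra)ᵐᵒᵖ)) := by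
  left
  obtain ⟨f, hf⟩ := exists_inj
  refine Pool.Agent.H94.AFOp.main (B := B) ?_ central (fun n i => emb n (p i)) ?_ ?_
    ((1 + I) / 4) ((1 - I) / 4) ?_ ?_ ?_ f hf
  · intro m n h
    rw [finrank_B, finrank_B] at h
    have := Nat.mul_self_inj.1 h
    omega
  · intro n i
    refine ⟨?_, ?_⟩
    · change emb n (p i) * emb n (p i) = emb n (p i)
      rw [emb_mul, p_mul]
    · change star (emb n (p i)) = emb n (p i)
      rw [emb_star, p_star]
  · intro n i h
    exact p_ne i (congrFun (congrFun h (Sum.inl 0)) (Sum.inl 0))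
  · simp [Complex.ext_iff]
    norm_num
  · intro n
    rw [emb_mul, emb_mul, emb_mul, p_rel1, emb_smul]
  · intro n
    rw [emb_mul, emb_mul, emb_mul, p_rel2, emb_smul]

end Pool.Agent.S04769
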