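import Pool.Statements.S04808

set_option autoImplicit false
open Pool Pool.MP_5e6479_an

namespace Pool.Agent.S04808

open Complex

lemma not_poly (f : ℂ → ℂ) (h0 : ∀ z, f z ≠ 0) (a b : ℂ) (hab : f a ≠ f b) :
    ¬ ∃ p : Polynomial ℂ, ∀ z, f z = p.eval z := by
  rintro ⟨p, hp⟩
  by_cases hd : 0 < p.degree
  · obtain ⟨z, hz⟩ := Complex.exists_root hd
    exact h0 z (by rw [hp]; exact hz)
  · rw [not_lt] at hd
    rw [Polynomial.eq_C_of_degree_le_zero hd] at hp
    apply hab
    rw [hp, hp]; simp

theorem result :
    ¬ (∀ E : Set ℂ, IsClosed E →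
      (∃ f : ℂ → ℂ, Differentiable ℂ f ∧
          (¬ ∃ p : Polynomial ℂ, ∀ z, f z = p.eval z) ∧
          ∃ M : ℝ, ∀ z ∈ E, ‖f z‖ ≤ M) →
      (∃ g : ℂ → ℂ, Differentiable ℂ g ∧
          (¬ ∃ p : Polynomial ℂ, ∀ z, g z = p.eval z) ∧
          ∃ δ : ℝ, 0 < δ ∧ ∀ z ∉ E, δ ≤ ‖g z‖) →
      ∃ h : ℂ → ℂ, Differentiable ℂ h ∧
          (¬ ∃ p : Polynomial ℂ, ∀ z, h z = p.eval z) ∧
          (∃ M : ℝ, ∀ z ∈ E, ‖h z‖ ≤ M) ∧
          ∃ δ : ℝ, 0 < δ ∧ ∀ z ∉ E, δ ≤ ‖h z‖) := by
  intro H
  have H1 := H {z | z.re ≤ 0 ∨ Real.sin z.im = 0} ?_ ?_ ?_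
  · obtain ⟨h, hd, hnp, ⟨M, hM⟩, δ, hδ, hlow⟩ := H1
    simp only [Set.mem_ofPred_eq, not_or, not_le] at hM hlow
    -- lower bound on the whole right half plane
    have hlow' : ∀ z : ℂ, 0 < z.re → δ ≤ ‖h z‖ := by
      intro z hz
      by_cases hs : Real.sin z.im = 0
      · have hc : Real.cos z.im ≠ 0 := by
          intro hc
          have := Real.sin_sq_add_cos_sq z.im
          rw [hs, hc] at this; norm_num at this
        have ht : Filter.Tendsto (fun t : ℝ => ‖h (z + t * I)‖) (nhdsWithin 0 (Set.Ioi 0))
            (nhds ‖h z‖) := by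
          have hcont : Continuous (fun t : ℝ => ‖h (z + t * I)‖) := by
            have := hd.continuous
            fun_prop
          have := hcont.tendsto 0
          simp only [ofReal_zero, zero_mul, add_zero] at this
          exact this.mono_left nhdsWithin_le_nhds
        refine ge_of_tendsto ht ?_
        filter_upwards [Ioo_mem_nhdsGT Real.pi_pos] with t ht
        apply hlow
        refine ⟨by simpa using hz, ?_⟩
        have : (z + t * I).im = z.im + t := by simp
        rw [this, Real.sin_add, hs, zero_mul, zero_add]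
        exact mul_ne_zero hc (Real.sin_pos_of_pos_of_lt_pi ht.1 ht.2).ne'
      · exact hlow z ⟨hz, hs⟩
    have hMδ : δ ≤ M := (hlow' 1 (by simp)).trans (hM 1 (by simp))
    have hM0 : 0 < M := by linarith
    set R : ℝ := 16 * M / δ with hR
    have hR16 : 16 ≤ R := by rw [hR, le_div_iff₀ hδ]; linarith
    -- bound far to the right
    have hfar : ∀ z : ℂ, R ≤ z.re → ‖h z‖ ≤ 2 * M := by
      intro z hz
      set k : ℤ := ⌊z.im / Real.pi⌋ with hk
      set c : ℂ := ⟨z.re, k * Real.pi⟩ with hc
      have hdist : dist z c ≤ 4 := by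
        have h1 : (k : ℝ) * Real.pi ≤ z.im := by
          rw [← le_div_iff₀ Real.pi_pos]; exact Int.floor_le _
        have h2 : z.im < (k + 1) * Real.pi := by
          rw [← div_lt_iff₀ Real.pi_pos]; exact Int.lt_floor_add_one _
        have h3 : z - c = ((z.im - k * Real.pi : ℝ) : ℂ) * I := by
          apply Complex.ext <;> simp [hc]
        rw [dist_eq_norm, h3, norm_mul, norm_I, mul_one, norm_real, Real.norm_eq_abs,
          abs_of_nonneg (by linarith)]
        nlinarith [Real.pi_le_four]
      have hpos : ∀ w ∈ Metric.ball c R, 0 < w.re := by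
        intro w hw
        have h1 : |(w - c).re| ≤ ‖w - c‖ := abs_re_le_norm _
        rw [mem_ball_iff_norm] at hw
        have h2 := (abs_le.1 h1).1
        simp only [sub_re, hc] at h2
        linarith
      have hne : ∀ w ∈ Metric.ball c R, h w ≠ 0 := by
        intro w hw h0
        have := hlow' w (hpos w hw)
        rw [h0, norm_zero] at this; linarith
      have hG : ∀ w ∈ Metric.ball c R, ‖(h w)⁻¹‖ ≤ δ⁻¹ := by
        intro w hw
        rw [norm_inv]
        exact inv_anti₀ hδ (hlow' w (hpos w hw))
      have hcR : c ∈ Metric.ball c R := Metric.mem_ball_self (by linarith)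
      have hzR : z ∈ Metric.ball c R := by rw [Metric.mem_ball]; linarith
      have hS := Complex.dist_le_div_mul_dist_of_mapsTo_ball (f := fun w => (h w)⁻¹) (c := c)
        (R₁ := R) (R₂ := 2 * δ⁻¹) (z := z) (hd.differentiableOn.inv hne) (by
          intro w hw
          rw [Metric.mem_closedBall, dist_eq_norm]
          have := norm_sub_le (h w)⁻¹ (h c)⁻¹
          linarith [hG w hw, hG c hcR]) hzR
      have h4 : 2 * δ⁻¹ / R * dist z c ≤ (2 * M)⁻¹ := by
        calc 2 * δ⁻¹ / R * dist z c ≤ 2 * δ⁻¹ / R * 4 := by gcongr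
          _ = (2 * M)⁻¹ := by rw [hR]; field_simp; norm_num
      have h5 : M⁻¹ ≤ ‖(h c)⁻¹‖ := by
        rw [norm_inv]
        apply inv_anti₀ (norm_pos_iff.2 (hne c hcR))
        apply hM
        right
        simp [hc]
      have h6 : (2 * M)⁻¹ ≤ ‖(h z)⁻¹‖ := by
        rw [dist_eq_norm] at hS
        have h7 := norm_sub_norm_le (h c)⁻¹ (h z)⁻¹
        rw [norm_sub_rev] at h7
        have : M⁻¹ = (2 * M)⁻¹ + (2 * M)⁻¹ := by field_simp; norm_num
        linarith
      rw [norm_inv] at h6
      exact (inv_le_inv₀ (by positivity) (norm_pos_iff.2 (hne z hzR))).1 h6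
    have hall : ∀ z : ℂ, ‖h z‖ ≤ 2 * M := by
      intro z
      rcases le_or_gt z.re 0 with h0 | h0
      · have := hM z (Or.inl h0); linarith
      rcases le_or_gt R z.re with h1 | h1
      · exact hfar z h1
      obtain ⟨n, hn⟩ := exists_nat_gt |z.im|
      have hn' : |z.im| < n * Real.pi := by
        have : (0 : ℝ) ≤ n := Nat.cast_nonneg n
        nlinarith [Real.pi_gt_three]
      have hnp : -((n : ℝ) * Real.pi) < n * Real.pi := by
        have := abs_nonneg z.im
        linarith
      apply Complex.norm_le_of_forall_mem_frontier_norm_le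
        (U := Set.Ioo 0 R ×ℂ Set.Ioo (-(n * Real.pi)) (n * Real.pi))
        ((Metric.isBounded_Ioo _ _).reProdIm (Metric.isBounded_Ioo _ _)) hd.diffContOnCl
      · intro w hw
        rw [frontier_reProdIm, frontier_Ioo hnp, frontier_Ioo (by linarith)] at hw
        rcases hw with hw | hw
        · have h2 := hw.2
          have : Real.sin w.im = 0 := by
            rcases h2 with h2 | h2
            · rw [h2]; simp
            · simp only [Set.mem_singleton_iff] at h2
              rw [h2]; simp
          have := hM w (Or.inr this); linarith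
        · have h2 := hw.1
          rcases h2 with h2 | h2
          · have := hM w (Or.inl (le_of_eq h2)); linarith
          · exact hfar w (le_of_eq (Eq.symm h2))
      · apply subset_closure
        exact ⟨⟨h0, h1⟩, abs_lt.1 hn'⟩
    apply hnp
    have hb : Bornology.IsBounded (Set.range h) := by
      rw [isBounded_iff_forall_norm_le]
      exact ⟨2 * M, by rintro _ ⟨z, rfl⟩; exact hall z⟩
    exact ⟨Polynomial.C (h 0), fun z => by simpa using hd.apply_eq_apply_of_bounded hb z 0⟩
  · apply IsClosed.union
    · exact isClosed_le continuous_re continuous_const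
    · exact isClosed_eq (by fun_prop) continuous_const
  · have hn : ∀ z : ℂ, ‖exp (exp z * I)‖ = Real.exp (-(Real.exp z.re * Real.sin z.im)) := by
      intro z
      rw [norm_exp]; simp [exp_im]
    refine ⟨fun z => exp (exp z * I), by fun_prop, ?_, Real.exp 1, ?_⟩
    · apply not_poly _ (fun z => exp_ne_zero _) 0 ((Real.pi / 2 : ℝ) * I)
      intro h
      have := congrArg norm h
      simp only [hn] at this
      have := Real.exp_injective this
      simp at this
    · intro z hz
      rw [hn, Real.exp_le_exp]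
      rcases hz with hz | hz
      · have h1 : Real.exp z.re ≤ 1 := Real.exp_le_one_iff.2 hz
        have h2 := Real.neg_one_le_sin z.im
        have h3 := Real.exp_pos z.re
        nlinarith
      · rw [hz]; simp
  · refine ⟨exp, differentiable_exp, ?_, 1, one_pos, ?_⟩
    · apply not_poly _ exp_ne_zero 0 1
      intro h
      have := congrArg norm h
      rw [norm_exp, norm_exp] at this
      have := Real.exp_injective this
      simp at this
    · intro z hz
      simp only [Set.mem_ofPred_eq, not_or, not_le] at hz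
      rw [norm_exp]
      exact Real.one_le_exp hz.1.le

end Pool.Agent.S04808
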