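import Pool.Statements.S04810
import Pool.Agent.H88.Nb5

set_option autoImplicit false
open Pool Pool.MP_5e7086_an

namespace Pool.Agent.S04810

/-- The negation of the preceding statement: There are 0<p<1, a metric space M and an infinite-dimensional real Banach space X such that X maps boundedly into the free p-space of M with a bounded left inverse, i.e. X is isomorphic to a complemented subspace. -/
theorem result :
    ¬ (∃ (p : ℝ), 0 < p ∧ p < 1 ∧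
    ∃ (M : Type) (_ : MetricSpace M)
      (F : Type) (_ : AddCommGroup F) (_ : Module ℝ F)
      (N : F → ℝ) (ι : (M →₀ ℝ) →ₗ[ℝ] F),
      (∀ x, 0 ≤ N x) ∧ (∀ x, N x = 0 ↔ x = 0) ∧
      (∀ (c : ℝ) (x : F), N (c • x) = |c| * N x) ∧
      (∀ x y, N (x + y) ^ p ≤ N x ^ p + N y ^ p) ∧
      (∀ s : ℕ → F, (∀ ε > 0, ∃ K : ℕ, ∀ m ≥ K, ∀ n ≥ K, N (s m - s n) < ε) →
          ∃ z, Filter.Tendsto (fun n => N (s n - z)) Filter.atTop (nhds 0)) ∧
      (∀ μ : M →₀ ℝ, μ.sum (fun _ a => a) = 0 →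
         IsGLB {t : ℝ | ∃ (n : ℕ) (b : Fin n → ℝ) (u v : Fin n → M),
             μ = ∑ j, b j • (Finsupp.single (u j) (1:ℝ) - Finsupp.single (v j) (1:ℝ)) ∧
             t = ∑ j, |b j| ^ p * dist (u j) (v j) ^ p} (N (ι μ) ^ p)) ∧
      (∀ z : F, ∀ ε > 0, ∃ μ : M →₀ ℝ, μ.sum (fun _ a => a) = 0 ∧ N (z - ι μ) < ε) ∧
      ∃ (X : Type) (_ : NormedAddCommGroup X) (_ : NormedSpace ℝ X),
        CompleteSpace X ∧ ¬ FiniteDimensional ℝ X ∧
        ∃ (T : X →ₗ[ℝ] F) (S : F →ₗ[ℝ] X),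
          (∃ C : ℝ, ∀ x, N (T x) ≤ C * ‖x‖) ∧
          (∃ C : ℝ, ∀ y, ‖S y‖ ≤ C * N y) ∧
          ∀ x, S (T x) = x) := by
  rintro ⟨p, hp, hp1, M, _, F, _, _, N, ι, h0, h1, hs, ht, -, hg, hd, X, _, _, -, hX, T, S,
    ⟨C, hC⟩, ⟨D, hD⟩, e⟩
  refine hX (H88.Nb.main hp hp1 N ι h0 h1 hs ht hg hd T (c := (|D| + 1)⁻¹) (by positivity)
    fun x => ⟨?_, hC x⟩)
  rw [inv_mul_le_iff₀ (by positivity)]
  have := hD (T x)
  rw [e] at this
  nlinarith [h0 (T x), le_abs_self D]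

end Pool.Agent.S04810
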