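import Pool.Statements.S04834
import Pool.Agent.H89.Wael

set_option autoImplicit false
open Pool Pool.MP_6079fc_an

namespace Pool.Agent.S04834

/-- The negation of the preceding statement: Take δ≥0 on C^n: K-Lipschitz, vanishing at infinity, ∣s∣δ(s) bounded, −log δ psh on {δ>0}. For εK<1, if g is locally Σu_i f_i on balls B(s,εδ(s)) with ∣u_i∣<Mδ(s)^−N, then g=Σh_i f_i with h_i in O(δ). -/
theorem result :
    ¬ (∀ (n q k : ℕ) (δ : EuclideanSpace ℂ (Fin n) → ℝ) (K : NNReal),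
    (∀ s, 0 ≤ δ s) → Continuous δ →
    Filter.Tendsto δ (Filter.cocompact _) (nhds 0) →
    LipschitzWith K δ →
    (∃ C : ℝ, ∀ s, ‖s‖ * δ s ≤ C) →
    (∀ a b : EuclideanSpace ℂ (Fin n), (∀ ζ : ℂ, ‖ζ‖ ≤ 1 → 0 < δ (a + ζ • b)) →
       (∫ θ in (0:ℝ)..(2 * Real.pi),
          Real.log (δ (a + Complex.exp ((θ : ℂ) * Complex.I) • b)))
        ≤ 2 * Real.pi * Real.log (δ a)) →
    ∀ ε : ℝ, 0 < ε → ε * (K : ℝ) < 1 →
    ∀ (f : Fin k → EuclideanSpace ℂ (Fin n) → (Fin q → ℂ))
      (g : EuclideanSpace ℂ (Fin n) → (Fin q → ℂ)),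
      (∀ i, DifferentiableOn ℂ (f i) {s | 0 < δ s} ∧
        ∃ N : ℕ, ∃ C : ℝ, ∀ z, 0 < δ z → δ z ^ N * ‖f i z‖ ≤ C) →
      (DifferentiableOn ℂ g {s | 0 < δ s} ∧
        ∃ N : ℕ, ∃ C : ℝ, ∀ z, 0 < δ z → δ z ^ N * ‖g z‖ ≤ C) →
      (∃ M : ℝ, ∃ N : ℕ, ∀ s, 0 < δ s →
        ∃ u : Fin k → EuclideanSpace ℂ (Fin n) → ℂ,
          (∀ i, DifferentiableOn ℂ (u i) (Metric.ball s (ε * δ s))) ∧
          (∀ z ∈ Metric.ball s (ε * δ s), g z = ∑ i, u i z • f i z) ∧
          (∀ i, ∀ z ∈ Metric.ball s (ε * δ s), ‖u i z‖ < M / δ s ^ N)) →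
      ∃ h : Fin k → EuclideanSpace ℂ (Fin n) → ℂ,
        (∀ i, DifferentiableOn ℂ (h i) {s | 0 < δ s} ∧
          ∃ N : ℕ, ∃ C : ℝ, ∀ z, 0 < δ z → δ z ^ N * ‖h i z‖ ≤ C) ∧
        ∀ z, 0 < δ z → g z = ∑ i, h i z • f i z) := by
  intro H
  have hn : ∀ z : EuclideanSpace ℂ (Fin 1), ‖z‖ = ‖z 0‖ := fun z => by
    simp [EuclideanSpace.norm_eq]
  have hd : Differentiable ℂ fun z : EuclideanSpace ℂ (Fin 1) => z 0 := by fun_prop
  have hdJ : ∀ P : ℕ → ℂ → ℂ, (∀ j, Differentiable ℂ (P j)) → ∀ z : EuclideanSpace ℂ (Fin 1),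
      0 < H89.Wael.d (z 0) →
      DifferentiableAt ℂ (fun z : EuclideanSpace ℂ (Fin 1) =>
        P (H89.Wael.J (z 0)) (H89.Wael.w (z 0))) z := fun P hP z hz =>
    DifferentiableAt.comp (g := fun u => P (H89.Wael.J u) (H89.Wael.w u))
      (f := fun z : EuclideanSpace ℂ (Fin 1) => z 0) z (H89.Wael.diff_J P hP hz) (hd z)
  have hO : ∀ P : ℕ → ℂ → ℂ, (∀ j, Differentiable ℂ (P j)) → (∀ j u, ‖u‖ ≤ 1 → ‖P j u‖ ≤ 1) →
      DifferentiableOn ℂ (fun (z : EuclideanSpace ℂ (Fin 1)) (_ : Fin 1) =>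
        P (H89.Wael.J (z 0)) (H89.Wael.w (z 0))) {s | 0 < H89.Wael.d (s 0)} ∧
      ∃ N : ℕ, ∃ C : ℝ, ∀ z : EuclideanSpace ℂ (Fin 1), 0 < H89.Wael.d (z 0) →
        H89.Wael.d (z 0) ^ N * ‖fun _ : Fin 1 => P (H89.Wael.J (z 0)) (H89.Wael.w (z 0))‖ ≤ C := by
    intro P hP hb
    refine ⟨fun z hz => (differentiableAt_pi.2 fun _ => hdJ P hP z hz).differentiableWithinAt,
      0, 1, fun z hz => ?_⟩
    rw [pow_zero, one_mul, pi_norm_const]
    exact hb _ _ (H89.Wael.d_pos hz).le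
  obtain ⟨h, h1, h2⟩ := H 1 1 2 (fun z => H89.Wael.d (z 0)) 1 (fun s => H89.Wael.d_nonneg _)
    (H89.Wael.d_cont.comp hd.continuous)
    (by
      have h4 : Filter.Tendsto (fun s : EuclideanSpace ℂ (Fin 1) => ‖s‖)
          (Filter.cocompact _) Filter.atTop := by
        apply tendsto_norm_cocompact_atTop
      have h3 : Filter.Tendsto (fun s : EuclideanSpace ℂ (Fin 1) => 3 / ‖s‖)
          (Filter.cocompact _) (nhds 0) :=
        h4.const_div_atTop 3
      refine squeeze_zero' (Filter.Eventually.of_forall fun s => H89.Wael.d_nonneg _) ?_ h3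
      filter_upwards [h4.eventually_gt_atTop 0] with s hs
      rw [le_div_iff₀ hs, mul_comm, hn]
      exact H89.Wael.norm_d _)
    (LipschitzWith.of_le_add fun x y => by
      rw [dist_eq_norm, hn]; exact H89.Wael.d_lip _ _)
    ⟨3, fun s => by rw [hn]; exact H89.Wael.norm_d _⟩
    (fun a b hab => H89.Wael.psh (a := a 0) (b := b 0) hab)
    (1 / 2) (by norm_num) (by norm_num)
    ![fun z _ => H89.Wael.w (z 0) ^ (H89.Wael.J (z 0) + 1),
      fun z _ => (1 / 2) ^ (H89.Wael.J (z 0) + 1)]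
    (fun z _ => 1 / 2 * H89.Wael.w (z 0) ^ H89.Wael.J (z 0))
    (Fin.forall_fin_two.2 ⟨hO (fun j u => u ^ (j + 1)) (fun j => by fun_prop) fun j u hu => by
        rw [norm_pow]; exact pow_le_one₀ (norm_nonneg _) hu,
      hO (fun j _ => (1 / 2) ^ (j + 1)) (fun j => by fun_prop) fun j u _ => by
        rw [norm_pow]; exact pow_le_one₀ (norm_nonneg _) (by simp; norm_num)⟩)
    (hO (fun j u => 1 / 2 * u ^ j) (fun j => by fun_prop) fun j u hu => by
      have := pow_le_one₀ (n := j) (norm_nonneg _) hu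
      rw [norm_mul, norm_pow]
      have h3 : ‖(1 / 2 : ℂ)‖ = 1 / 2 := by simp
      rw [h3]; linarith)
    ⟨10, 0, fun s hs => by
      have hb : ∀ z ∈ Metric.ball s (1 / 2 * H89.Wael.d (s 0)),
          H89.Wael.J (z 0) = H89.Wael.J (s 0) ∧
          ‖H89.Wael.w (z 0) - H89.Wael.w (s 0)‖ < 1 / 2 / (H89.Wael.J (s 0) + 1) := by
        intro z hz
        rw [Metric.mem_ball, dist_eq_norm, hn] at hz
        exact H89.Wael.ball_J hs hz
      have hw : ∀ z ∈ Metric.ball s (1 / 2 * H89.Wael.d (s 0)),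
          H89.Wael.w (z 0) = z 0 - 3 * H89.Wael.J (s 0) := fun z hz => by
        rw [← (hb z hz).1]; rfl
      by_cases hc : 1 / 2 + 1 / 2 / ((H89.Wael.J (s 0) : ℝ) + 1) ≤ ‖H89.Wael.w (s 0)‖
      · have hlow : ∀ z ∈ Metric.ball s (1 / 2 * H89.Wael.d (s 0)),
            1 / 2 < ‖z 0 - 3 * (H89.Wael.J (s 0) : ℂ)‖ := by
          intro z hz
          have := norm_sub_norm_le (H89.Wael.w (s 0)) (H89.Wael.w (z 0))
          rw [norm_sub_rev] at this
          rw [← hw z hz]
          linarith [(hb z hz).2]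
        have hne : ∀ z ∈ Metric.ball s (1 / 2 * H89.Wael.d (s 0)),
            z 0 - 3 * (H89.Wael.J (s 0) : ℂ) ≠ 0 := by
          intro z hz e
          have := hlow z hz
          rw [e] at this
          norm_num at this
        refine ⟨![fun z => 1 / 2 / (z 0 - 3 * H89.Wael.J (s 0)), fun _ => 0],
          Fin.forall_fin_two.2 ⟨fun z hz => ?_, differentiableOn_const _⟩, fun z hz => ?_,
          Fin.forall_fin_two.2 ⟨fun z hz => ?_, fun z hz => by simp⟩⟩
        · have h5 : DifferentiableAt ℂ (fun z : EuclideanSpace ℂ (Fin 1) =>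
              1 / 2 / (z 0 - 3 * (H89.Wael.J (s 0) : ℂ))) z := by
            simp only [div_eq_mul_inv]
            exact (((hd z).sub_const _).inv (hne z hz)).const_mul _
          exact h5.differentiableWithinAt
        · funext i
          have := hne z hz
          simp only [Fin.sum_univ_two, Matrix.cons_val_zero, Matrix.cons_val_one, Pi.add_apply,
            Pi.smul_apply, smul_eq_mul, hw z hz]
          field_simp
          ring
        · have := hlow z hz
          simp only [Matrix.cons_val_zero, norm_div, pow_zero, div_one]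
          rw [div_lt_iff₀ (by linarith)]
          simp
          linarith
      · refine ⟨![fun _ => 0, fun z => (2 * (z 0 - 3 * H89.Wael.J (s 0))) ^ H89.Wael.J (s 0)],
          Fin.forall_fin_two.2 ⟨differentiableOn_const _, fun z hz => ?_⟩, fun z hz => ?_,
          Fin.forall_fin_two.2 ⟨fun z hz => by simp, fun z hz => ?_⟩⟩
        · exact ((((hd z).sub_const _).const_mul _).pow _).differentiableWithinAt
        · funext i
          simp only [Fin.sum_univ_two, Matrix.cons_val_zero, Matrix.cons_val_one, Pi.add_apply,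
            Pi.smul_apply, smul_eq_mul, hw z hz, (hb z hz).1]
          have h5 : (2 : ℂ) ^ H89.Wael.J (s 0) * (1 / 2) ^ H89.Wael.J (s 0) = 1 := by
            rw [← mul_pow]; norm_num
          rw [mul_pow]
          linear_combination (-(1 / 2) * (z 0 - 3 * (H89.Wael.J (s 0) : ℂ)) ^ H89.Wael.J (s 0)) * h5
        · simp only [Matrix.cons_val_zero, Matrix.cons_val_one, norm_pow, pow_zero, div_one]
          apply H89.Wael.pow_bd _ (norm_nonneg _)
          have := norm_sub_norm_le (H89.Wael.w (z 0)) (H89.Wael.w (s 0))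
          rw [norm_mul, ← hw z hz]
          have h3 : ‖(2 : ℂ)‖ = 2 := by simp
          have h4 : 2 / ((H89.Wael.J (s 0) : ℝ) + 1) =
              4 * (1 / 2 / ((H89.Wael.J (s 0) : ℝ) + 1)) := by ring
          rw [h3, h4]
          linarith [(hb z hz).2, not_le.1 hc]⟩
  obtain ⟨N, C, hC⟩ := (h1 1).2
  have hι : Differentiable ℂ fun u : ℂ => (EuclideanSpace.single 0 u : EuclideanSpace ℂ (Fin 1)) := by
    have : (fun u : ℂ => (EuclideanSpace.single 0 u : EuclideanSpace ℂ (Fin 1))) =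
        fun u : ℂ => u • (EuclideanSpace.single 0 1 : EuclideanSpace ℂ (Fin 1)) := by
      funext u; ext i; fin_cases i; simp
    rw [this]; fun_prop
  have hι0 : ∀ u : ℂ, (EuclideanSpace.single 0 u : EuclideanSpace ℂ (Fin 1)) 0 = u := by simp
  have hop : IsOpen {s : EuclideanSpace ℂ (Fin 1) | 0 < H89.Wael.d (s 0)} :=
    isOpen_lt continuous_const (H89.Wael.d_cont.comp hd.continuous)
  refine H89.Wael.no_global (fun u => h 0 (EuclideanSpace.single 0 u))
    (fun u => h 1 (EuclideanSpace.single 0 u)) (fun u hu => ?_) N C (fun u hu => ?_)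
    (fun u hu => ?_)
  · exact (((h1 0).1 _ (by simpa using hu)).differentiableAt
      (hop.mem_nhds (by simpa using hu))).comp u (hι u)
  · have := hC (EuclideanSpace.single 0 u) (by simpa using hu)
    simpa only [hι0] using this
  · have := congrFun (h2 (EuclideanSpace.single 0 u) (by simpa using hu)) 0
    simpa only [Fin.sum_univ_two, Matrix.cons_val_zero, Matrix.cons_val_one, Pi.add_apply,
      Pi.smul_apply, smul_eq_mul, hι0] using this

end Pool.Agent.S04834
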