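import Pool.Statements.S04841
import Pool.Agent.H63.HA5

set_option autoImplicit false
open Pool Pool.MP_60e615_an

namespace Pool.Agent.S04841

/-- There is a nonempty closed shift-invariant set X of finite-alphabet bi-infinite sequences and an injective homomorphism from the discrete Heisenberg group into the group of shift-commuting homeomorphisms of X. -/
theorem result :
    ∃ (k : ℕ) (X : Set (ℤ → ℕ)), X.Nonempty ∧ IsClosed X ∧ (∀ x ∈ X, ∀ n : ℤ, x n < k) ∧
      (∀ x : ℤ → ℕ, x ∈ X ↔ (fun n : ℤ => x (n + 1)) ∈ X) ∧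
      ∃ ρ : ℤ × ℤ × ℤ → Equiv.Perm X, Function.Injective ρ ∧
        (∀ a b c a' b' c' : ℤ,
          ρ (a + a', b + b', c + c' + a * b') = ρ (a, b, c) * ρ (a', b', c')) ∧
        (∀ g : ℤ × ℤ × ℤ, Continuous (ρ g)) ∧
        (∀ g : ℤ × ℤ × ℤ, ∀ p q : X,
          ((q : ℤ → ℕ) = fun n : ℤ => (p : ℤ → ℕ) (n + 1)) →
            (((ρ g q : X) : ℤ → ℕ) = fun n : ℤ => ((ρ g p : X) : ℤ → ℕ) (n + 1))) := by
  obtain ⟨k, h⟩ := H63.HA.main
  obtain ⟨X, h1, h2, h3, h4, ρ, h5, h6⟩ := h ℕ Fin.val Fin.val_injective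
  refine ⟨k, X, h1, isClosed_of_closure_subset fun z hz => h2 z fun N => ?_, fun x hx n => ?_,
    fun x => ⟨fun hx => h4 x hx 1, fun hx => by simpa using h4 _ hx (-1)⟩, ρ, h5,
    fun a b c a' b' c' => ρ.map_mul (a, b, c) (a', b', c'), fun g => ?_, fun g p q e => ?_⟩
  · obtain ⟨y, e, hy⟩ := mem_closure_iff.1 hz (Set.pi (Set.Icc (-N : ℤ) N) fun i => {z i})
      (isOpen_set_pi (Set.finite_Icc _ _) fun _ _ => isOpen_discrete _) fun _ _ => rfl
    exact ⟨y, hy, fun i hi => e i (abs_le.1 hi)⟩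
  · obtain ⟨i, e⟩ := h3 x hx n
    exact e ▸ i.2
  · obtain ⟨F, hF, e⟩ := h6 g
    obtain ⟨r, hr⟩ := hF.at
    refine continuous_induced_rng.2 (continuous_pi fun n => (IsLocallyConstant.iff_eventually_eq _).2
      (fun p => ?_) |>.continuous)
    have : ∀ᶠ q : X in nhds p, ∀ i ∈ Set.Icc (-(n.natAbs + r : ℕ) : ℤ) (n.natAbs + r : ℕ), q.1 i = p.1 i :=
      (Set.finite_Icc _ _).eventually_all.2 fun i _ => ((IsLocallyConstant.iff_continuous _).2
        ((continuous_apply i).comp continuous_subtype_val)).eventually_eq p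
    filter_upwards [this] with q hq
    simp only [Function.comp, e]
    exact hr _ _ n.natAbs (fun i hi => hq i (abs_le.1 hi)) n (by simp)
  · obtain ⟨F, hF, e'⟩ := h6 g
    exact (e' q).trans (e ▸ (hF.1 p 1).trans (by rw [e' p]))

end Pool.Agent.S04841
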