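import Pool.Statements.S04844
import Pool.Agent.H98.Snoha

set_option autoImplicit false
open Filter Topology
open Pool Pool.MP_613746_an

namespace Pool.Agent.S04844

/-- The negation of the preceding statement: For any nonempty compact metric space and commuting continuous maps f, g on it, some point x is uniformly recurrent for both: for each neighbourhood U of x, the times n with f^n(x) in U (resp. g^n(x) in U) have bounded gaps. -/
theorem result :
    ¬ (∀ (X : Type) [MetricSpace X] [CompactSpace X] [Nonempty X]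
      (f g : X → X), Continuous f → Continuous g → f ∘ g = g ∘ f →
      ∃ x : X,
        (∀ U ∈ 𝓝 x, ∃ N : ℕ, ∀ m : ℕ, ∃ k : ℕ, m ≤ k ∧ k ≤ m + N ∧ f^[k] x ∈ U) ∧
        (∀ U ∈ 𝓝 x, ∃ N : ℕ, ∀ m : ℕ, ∃ k : ℕ, m ≤ k ∧ k ≤ m + N ∧ g^[k] x ∈ U)) := by
  intro h
  open Pool.Agent.H98.Snoha in
  letI : MetricSpace X := TopologicalSpace.metrizableSpaceMetric X
  haveI : CompactSpace Pool.Agent.H98.Snoha.X :=
    isCompact_iff_compactSpace.1 Pool.Agent.H98.Snoha.X_closed.isCompact
  haveI : Nonempty Pool.Agent.H98.Snoha.X := Pool.Agent.H98.Snoha.X_ne.to_subtype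
  obtain ⟨x, h1, h2⟩ := h Pool.Agent.H98.Snoha.X (Pool.Agent.H98.Snoha.shX (1, 0))
    (Pool.Agent.H98.Snoha.shX (0, 1)) (Pool.Agent.H98.Snoha.cont_shX _)
    (Pool.Agent.H98.Snoha.cont_shX _) (Pool.Agent.H98.Snoha.shX_comm _ _)
  exact Pool.Agent.H98.Snoha.main x h1 h2

end Pool.Agent.S04844
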