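import Pool.Statements.S04862
import Pool.Agent.H58.NoFHC

set_option autoImplicit false
open Pool Pool.MP_63a02b_an

namespace Pool.Agent.S04862

theorem result :
    ¬ (∀ (𝕂 : Type) [RCLike 𝕂] (X : Type) [AddCommGroup X] [Module 𝕂 X] [UniformSpace X]
      [IsUniformAddGroup X] [CompleteSpace X] [TopologicalSpace.MetrizableSpace X]
      [TopologicalSpace.SeparableSpace X] [ContinuousSMul 𝕂 X] (T : X →L[𝕂] X),
      ((∃ x : X, Dense (Set.range (fun n : ℕ => (T ^ n) x))) ∧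
        Dense {x : X | ∃ n : ℕ, 0 < n ∧ (T ^ n) x = x}) →
      (∀ U V : Set X, IsOpen U → IsOpen V → U.Nonempty → V.Nonempty →
        ∃ N : ℕ, ∀ n : ℕ, N ≤ n → ((⇑(T ^ n)) ⁻¹' V ∩ U).Nonempty) →
      (∃ x : X, ∀ U : Set X, IsOpen U → U.Nonempty →
        ∃ δ : ℝ, 0 < δ ∧ ∃ N₀ : ℕ, ∀ N : ℕ, N₀ ≤ N →
          δ * (N : ℝ) ≤ (Nat.card {n : ℕ // n < N ∧ (T ^ n) x ∈ U} : ℝ)) →
      ∃ X₀ : Set X, Dense X₀ ∧ ∃ S : X → X, (∀ x ∈ X₀, S x ∈ X₀) ∧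
        ∀ x ∈ X₀, Summable (fun n : ℕ => (T ^ n) x) ∧
          Summable (fun n : ℕ => S^[n] x) ∧ T (S x) = x) := by
  open Pool.Agent.H58.NoFHC in
  intro h
  obtain ⟨x, hx⟩ := fhc
  have hd : Dense (Set.range (fun n : ℕ => (T ^ n) x)) := by
    refine dense_iff_inter_open.2 fun U hU hne => ?_
    obtain ⟨δ, hδ, N, hN⟩ := hx U hU hne
    have h1 := hN (N + 1) (Nat.le_succ N)
    have h2 : (0 : ℝ) < δ * ((N + 1 : ℕ) : ℝ) := by positivity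
    have h3 : 0 < Nat.card {n : ℕ // n < N + 1 ∧ (T ^ n) x ∈ U} := by exact_mod_cast h2.trans_le h1
    obtain ⟨⟨n, -, hn⟩⟩ := (Nat.card_pos_iff.1 h3).1
    exact ⟨_, hn, n, rfl⟩
  haveI : TopologicalSpace.SeparableSpace X := ⟨⟨_, Set.countable_range _, hd⟩⟩
  obtain ⟨X₀, h0, S, h1, h2⟩ := h ℝ X T ⟨⟨x, hd⟩, dense_per⟩ mixing ⟨x, hx⟩
  obtain ⟨F, hF⟩ := exists_fin (z := fun j => if j = 0 then 1 else 0) (N := 1)
    fun j hj => if_neg (by omega)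
  have h3 : cl 0 F = 0 := h0.induction (P := fun G => cl 0 G = 0)
    (fun G hG => nocrit X₀ S h1 h2 G hG 0) (isClosed_eq (cl 0).continuous continuous_const) F
  rw [cl_apply, hF] at h3
  simp at h3

end Pool.Agent.S04862
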