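import Pool.Statements.S04882
import Pool.Agent.H87.Troy4

set_option autoImplicit false
open Pool Pool.MP_65146e_an

namespace Pool.Agent.S04882

theorem result :
    ¬ (∀ (X : Type) [NormedAddCommGroup X] [NormedSpace ℝ X] [CompleteSpace X],
    (∃ (Γ : Type) (φ : WeakDual ℝ X → (Γ → ℝ)),
        ContinuousOn φ {f : WeakDual ℝ X | ∀ x : X, |f x| ≤ ‖x‖} ∧
        Set.InjOn φ {f : WeakDual ℝ X | ∀ x : X, |f x| ≤ ‖x‖} ∧
        ∀ f ∈ {f : WeakDual ℝ X | ∀ x : X, |f x| ≤ ‖x‖},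
          (Function.support (φ f)).Countable) →
    (∃ N : X → ℝ,
        (∃ c C : ℝ, 0 < c ∧ 0 < C ∧ ∀ x : X, c * ‖x‖ ≤ N x ∧ N x ≤ C * ‖x‖) ∧
        (∀ x y : X, N (x + y) ≤ N x + N y) ∧
        (∀ (a : ℝ) (x : X), N (a • x) = |a| * N x) ∧
        ∀ x : X, x ≠ 0 → ∃ L : X →L[ℝ] ℝ, ∀ v : X, HasLineDerivAt ℝ N (L v) x v) →
    ∃ M : X → ℝ,
        (∃ c C : ℝ, 0 < c ∧ 0 < C ∧ ∀ x : X, c * ‖x‖ ≤ M x ∧ M x ≤ C * ‖x‖) ∧
        (∀ x y : X, M (x + y) ≤ M x + M y) ∧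
        (∀ (a : ℝ) (x : X), M (a • x) = |a| * M x) ∧
        ∀ f g : X →L[ℝ] ℝ, f ≠ g → (∀ x : X, f x ≤ M x) → (∀ x : X, g x ≤ M x) →
          ∃ r : ℝ, r < 1 ∧ ∀ x : X, (1 / 2 : ℝ) * (f x + g x) ≤ r * M x) := by
  intro H
  obtain ⟨S⟩ := H87.Troy.exSys H87.Troy.cG (H87.Troy.irr H87.Troy.cG_asym)
  obtain ⟨M, h1, -, h2, h3⟩ := H _ ⟨H87.Troy.G, fun f a => f (S.e a),
    (continuous_pi fun a => WeakDual.eval_continuous _).continuousOn,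
    fun f _ g _ h => S.ext (f := f) (g := g) (congrFun h), fun f _ => S.wld f⟩
    ⟨S.N, ⟨1 / 3, 1, by simp, by simp, fun x => ⟨S.N_low x, by simpa using S.N_up x⟩⟩, S.N_add,
      S.N_smul, fun x hx => S.gat hx⟩
  obtain ⟨f, g, h4, h5, h6, h7⟩ := H87.Troy.norot H87.Troy.cG_asym H87.Troy.cG_univ S M h1 h2
  obtain ⟨r, h8, h9⟩ := h3 f g h4 h5 h6
  obtain ⟨y, a1, a2⟩ := h7 (2 * max r 0) (by linarith [max_lt h8 one_pos])
  obtain ⟨c, C, h0, -, hM⟩ := h1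
  have a3 : 0 ≤ M y := le_trans (by positivity) (hM y).1
  nlinarith [h9 y, le_max_left r 0, le_max_right r 0]

end Pool.Agent.S04882
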