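import Pool.Statements.S04889

set_option autoImplicit false
open Pool Pool.MP_65dae3_an

namespace Pool.Agent.S04889

theorem digits_zero (d : ℕ → ℤ) (hd : ∀ n, |d n| ≤ 3)
    (h : HasSum (fun n => (d n : ℝ) * (1 / 8) ^ n) 0) (n : ℕ) : d n = 0 := by
  induction n using Nat.strong_induction_on with
  | _ n ih =>
    have h1 := (hasSum_nat_add_iff' (n + 1)).mpr h
    rw [Finset.sum_range_succ, Finset.sum_eq_zero (fun i hi => by
      rw [ih i (Finset.mem_range.mp hi)]; simp)] at h1
    have h2 : HasSum (fun i : ℕ => (3 * (1 / 8 : ℝ) ^ (n + 1)) * (1 / 8) ^ i)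
        ((3 * (1 / 8 : ℝ) ^ (n + 1)) * (1 - 1 / 8)⁻¹) :=
      (hasSum_geometric_of_lt_one (by norm_num) (by norm_num)).mul_left _
    have h3 := h1.norm_le_of_bounded h2 (fun i => by
      rw [norm_mul, Real.norm_eq_abs, Real.norm_of_nonneg (by positivity), pow_add]
      have : |(d (i + (n + 1)) : ℝ)| ≤ 3 := by exact_mod_cast hd _
      have h0 : (0 : ℝ) < (1 / 8) ^ i * (1 / 8) ^ (n + 1) := by positivity
      nlinarith)
    by_contra hne
    have h4 : (1 : ℝ) ≤ |(d n : ℝ)| := by exact_mod_cast Int.one_le_abs hne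
    rw [zero_add, zero_sub, norm_neg, norm_mul, Real.norm_eq_abs, Real.norm_of_nonneg (by positivity),
      pow_succ] at h3
    have h0 : (0 : ℝ) < (1 / 8) ^ n := by positivity
    nlinarith

/-- first index attached to a coordinate -/
def A (n : ℕ) : ℕ := (Nat.unpair (Nat.unpair n).1).1
/-- second index attached to a coordinate -/
def B (n : ℕ) : ℕ := (Nat.unpair (Nat.unpair n).1).2
/-- first weight -/
def a (n : ℕ) : ℤ := if Nat.sqrt (A n) = Nat.sqrt (B n) then 0 else 1
/-- second weight -/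
def b (n : ℕ) : ℤ :=
  if Nat.sqrt (A n) = Nat.sqrt (B n) then 0 else if (Nat.unpair n).2 = 0 then 1 else -1

/-- the dependent terms -/
noncomputable def z (k : ℕ) : ℝ :=
  ∑' n : (A ⁻¹' {k} : Set ℕ), (a n : ℝ) * (1 / 8) ^ (n : ℕ) +
    ∑' n : (B ⁻¹' {k} : Set ℕ), (b n : ℝ) * (1 / 8) ^ (n : ℕ)

/-- the series -/
noncomputable def x (m : ℕ) : ℝ := if m % 2 = 0 then (1 / 8) ^ (m / 2) else z (m / 2)

/-- zero or one -/
def i (p : Bool) : ℤ := if p then 1 else 0

/-- total digit -/
def c (ε : ℕ → Bool) (n : ℕ) : ℤ := i (ε (2 * n)) + i (ε (2 * A n + 1)) * a n + i (ε (2 * B n + 1)) * b n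

theorem summ (d : ℕ → ℤ) (hd : ∀ n, |d n| ≤ 3) : Summable (fun n => (d n : ℝ) * (1 / 8) ^ n) := by
  refine Summable.of_norm_bounded
    ((summable_geometric_of_lt_one (r := 1 / 8) (by norm_num) (by norm_num)).mul_left 3) fun n => ?_
  rw [norm_mul, Real.norm_eq_abs, Real.norm_of_nonneg (by positivity)]
  have : |(d n : ℝ)| ≤ 3 := by exact_mod_cast hd _
  gcongr

theorem main_sum (ε : ℕ → Bool) : HasSum (fun m => if ε m = true then x m else 0)
    (∑' n, (c ε n : ℝ) * (1 / 8) ^ n) := by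
  have h0 := summ (fun n => i (ε (2 * n))) (fun n => by simp only [i]; split_ifs <;> simp)
  have h1 := summ (fun n => i (ε (2 * A n + 1)) * a n)
    (fun n => by simp only [i, a]; split_ifs <;> simp)
  have h2 := summ (fun n => i (ε (2 * B n + 1)) * b n)
    (fun n => by simp only [i, b]; split_ifs <;> simp)
  have h3 := (h1.hasSum.tsum_fiberwise A).add (h2.hasSum.tsum_fiberwise B)
  have h4 := HasSum.even_add_odd (f := fun m => if ε m = true then x m else 0)
    (h0.hasSum.congr_fun fun n => by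
      simp only [x, i]; split_ifs <;> simp_all)
    (h3.congr_fun fun k => by
      have e1 : ∀ n : (A ⁻¹' {k} : Set ℕ), A n = k := fun n => n.2
      have e2 : ∀ n : (B ⁻¹' {k} : Set ℕ), B n = k := fun n => n.2
      have : (2 * k + 1) / 2 = k := by omega
      simp only [e1, e2, x, i, this]
      split_ifs <;> simp_all [z])
  convert h4 using 1
  rw [← h1.tsum_add h2, ← h0.tsum_add (h1.add h2)]
  congr 1
  funext n
  simp only [c]; push_cast; ring

theorem c_eq (ε η : ℕ → Bool)
    (h : ∑' m, (if ε m = true then x m else 0) = ∑' m, (if η m = true then x m else 0)) (n : ℕ) :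
    c ε n = c η n := by
  rw [(main_sum ε).tsum_eq, (main_sum η).tsum_eq] at h
  have hb : ∀ (ε : ℕ → Bool) n, |c ε n| ≤ 3 := by
    intro ε n
    simp only [c, i, a, b]; split_ifs <;> simp
  have h1 := (summ _ (hb ε)).hasSum.sub (summ _ (hb η)).hasSum
  rw [h, sub_self] at h1
  have := digits_zero (fun n => c ε n - c η n) (fun n => by
    simp only [c, i, a, b]; split_ifs <;> simp) (h1.congr_fun fun n => by push_cast; ring) n
  linarith

theorem same_group (ε η : ℕ → Bool) (h : ∀ n, c ε n = c η n) (k l : ℕ)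
    (hk : ε (2 * k + 1) ≠ η (2 * k + 1)) (hl : ε (2 * l + 1) ≠ η (2 * l + 1)) :
    Nat.sqrt k = Nat.sqrt l := by
  by_contra hne
  have h1 := h (Nat.pair (Nat.pair k l) 0)
  have h2 := h (Nat.pair (Nat.pair k l) 1)
  simp only [c, a, b, A, B, Nat.unpair_pair, if_neg hne, i] at h1 h2
  revert h1 h2 hk hl
  cases ε (2 * k + 1) <;> cases η (2 * k + 1) <;> cases ε (2 * l + 1) <;> cases η (2 * l + 1) <;>
    simp <;> split_ifs <;> simp

theorem fibre_finite (t : ℝ) :
    Finite {ε : ℕ → Bool // ∑' n, (if ε n = true then x n else 0) = t} := by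
  rcases isEmpty_or_nonempty {ε : ℕ → Bool // ∑' n, (if ε n = true then x n else 0) = t} with h | ⟨⟨e⟩⟩
  · infer_instance
  have hc : ∀ ε η : {ε : ℕ → Bool // ∑' n, (if ε n = true then x n else 0) = t},
      ∀ n, c ε.1 n = c η.1 n := fun ε η => c_eq _ _ (ε.2.trans η.2.symm)
  obtain ⟨g, hg⟩ : ∃ g, ∀ ε : {ε : ℕ → Bool // ∑' n, (if ε n = true then x n else 0) = t},
      ∀ k, Nat.sqrt k ≠ g → ε.1 (2 * k + 1) = e.1 (2 * k + 1) := by
    by_cases h : ∃ ε : {ε : ℕ → Bool // ∑' n, (if ε n = true then x n else 0) = t},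
        ∃ k, ε.1 (2 * k + 1) ≠ e.1 (2 * k + 1)
    · obtain ⟨e1, k1, h1⟩ := h
      refine ⟨Nat.sqrt k1, fun ε k hk => ?_⟩
      by_contra h2
      have h3 : e1.1 (2 * k + 1) = e.1 (2 * k + 1) := by
        by_contra h3
        exact hk (same_group _ _ (hc e1 e) k k1 h3 h1)
      have h4 : ε.1 (2 * k1 + 1) = e.1 (2 * k1 + 1) := by
        by_contra h4
        exact hk (same_group _ _ (hc ε e) k k1 h2 h4)
      exact hk (same_group _ _ (hc ε e1) k k1 (by rwa [h3]) (by rw [h4]; exact h1.symm))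
    · push Not at h
      exact ⟨0, fun ε k _ => h ε k⟩
  refine Finite.of_injective (fun ε => fun k : Fin ((g + 1) * (g + 1)) => ε.1 (2 * k + 1)) ?_
  intro ε η h
  have hodd : ∀ k, ε.1 (2 * k + 1) = η.1 (2 * k + 1) := by
    intro k
    by_cases hk : Nat.sqrt k = g
    · exact congrFun h ⟨k, hk ▸ Nat.lt_succ_sqrt k⟩
    · rw [hg ε k hk, hg η k hk]
  apply Subtype.ext
  funext m
  rcases Nat.even_or_odd' m with ⟨n, rfl | rfl⟩
  · have := hc ε η n
    simp only [c, hodd, add_left_inj, i] at this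
    revert this
    cases ε.1 (2 * n) <;> cases η.1 (2 * n) <;> simp
  · exact hodd n

/-- target digits for group N -/
def tg (N n : ℕ) : ℤ :=
  if Nat.sqrt (A n) ≠ Nat.sqrt (B n) ∧ (Nat.sqrt (A n) = N ∨ (Nat.unpair n).2 = 0) then 1 else 0

/-- points of a large fibre -/
def pt (N k : ℕ) (m : ℕ) : Bool :=
  if m % 2 = 0 then
    decide (tg N (m / 2) - i (decide (A (m / 2) = k)) * a (m / 2) - i (decide (B (m / 2) = k)) * b (m / 2) = 1)
  else decide (m / 2 = k)

theorem c_pt (N k : ℕ) (hk : Nat.sqrt k = N) (n : ℕ) : c (pt N k) n = tg N n := by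
  have e1 : ∀ j, (2 * j + 1) / 2 = j := fun j => by omega
  have e2 : ∀ j, (2 * j + 1) % 2 ≠ 0 := fun j => by omega
  simp only [c, pt, e1, e2, if_false, Nat.mul_mod_right, if_true, Nat.mul_div_cancel_left _ two_pos]
  by_cases h1 : A n = k <;> by_cases h2 : B n = k <;>
    by_cases h3 : Nat.sqrt (A n) = Nat.sqrt (B n) <;> by_cases h4 : (Nat.unpair n).2 = 0 <;>
    by_cases h5 : Nat.sqrt (A n) = N <;> simp_all [i, a, b, tg]


/-- There is an absolutely convergent real series such that, counting 0-1 sequences whose subsum equals t, some t gives arbitrarily large finite counts, and no t gives countably infinitely many or continuum many. -/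
theorem result :
    ∃ x : ℕ → ℝ, Summable (fun n => |x n|) ∧
      (∀ N : ℕ, ∃ t : ℝ, ∃ k : ℕ, N ≤ k ∧
        Cardinal.mk {ε : ℕ → Bool // ∑' n, (if ε n = true then x n else 0) = t} = (k : Cardinal)) ∧
      (∀ t : ℝ,
        Cardinal.mk {ε : ℕ → Bool // ∑' n, (if ε n = true then x n else 0) = t} ≠ Cardinal.aleph0 ∧
        Cardinal.mk {ε : ℕ → Bool // ∑' n, (if ε n = true then x n else 0) = t} ≠ Cardinal.continuum) := by
  refine ⟨x, ?_, ?_, ?_⟩
  · simpa using (main_sum (fun _ => true)).summable.abs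
  · intro N
    have hf := fibre_finite (∑' n, (tg N n : ℝ) * (1 / 8) ^ n)
    refine ⟨∑' n, (tg N n : ℝ) * (1 / 8) ^ n, Nat.card _, ?_, Nat.cast_card.symm⟩
    have hs : ∀ j : Fin N, Nat.sqrt (N * N + j) = N := fun j =>
      Nat.sqrt_add_eq N (by have := j.2; omega)
    have := Nat.card_le_card_of_injective (fun j : Fin N => (⟨pt N (N * N + j), by
      rw [(main_sum _).tsum_eq]; simp only [c_pt N _ (hs j)]⟩ :
        {ε : ℕ → Bool // ∑' n, (if ε n = true then x n else 0) = ∑' n, (tg N n : ℝ) * (1 / 8) ^ n})) (by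
      intro j l h
      have h1 := congrFun (congrArg Subtype.val h) (2 * (N * N + j) + 1)
      have e1 : (2 * (N * N + j) + 1) / 2 = N * N + j := by omega
      have e2 : (2 * (N * N + j) + 1) % 2 ≠ 0 := by omega
      simp [pt, e1, e2] at h1
      exact Fin.ext h1)
    simpa using this
  · intro t
    have hf := fibre_finite t
    have := Cardinal.lt_aleph0_of_finite {ε : ℕ → Bool // ∑' n, (if ε n = true then x n else 0) = t}
    exact ⟨this.ne, (this.trans Cardinal.aleph0_lt_continuum).ne⟩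

end Pool.Agent.S04889
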