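import Pool.Statements.S04908
-- import your own Pool.Agent.* helpers here

set_option autoImplicit false
open Pool Pool.MP_68b5a7_an

namespace Pool.Agent.S04908

noncomputable def th : ℝ := Real.sqrt 2 / 4

lemma th_bounds : 1/4 < th ∧ th < 1/2 := by
  unfold th
  have h1 : 1 < Real.sqrt 2 := by rw [Real.lt_sqrt] <;> norm_num
  have h2 : Real.sqrt 2 < 2 := by rw [Real.sqrt_lt'] <;> norm_num
  constructor <;> linarith

lemma th_irr (N : ℕ) (j : ℤ) : ((N : ℝ) + 1) * th ≠ j / 2 := by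
  intro h
  apply irrational_sqrt_two
  refine ⟨2 * j / (N + 1), ?_⟩
  unfold th at h
  have : (N : ℝ) + 1 ≠ 0 := by positivity
  push_cast
  field_simp
  linarith

open Classical in
noncomputable def φ (p : ℝ × ℝ) : ℝ × ℝ :=
  if p.1 < 1/2 ∧ p.2 < 1/2 then
    (if p.1 < 1/2 - th then p.1 + th else p.1 + (th - 1/2),
     if p.2 < th then p.2 + (1/2 - th) else p.2 + (-th))
  else p

lemma orbit (N : ℕ) : 0 < (φ^[N + 1] (0, 0)).1 ∧ (φ^[N + 1] (0, 0)).1 < 1/2 ∧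
    (φ^[N + 1] (0, 0)).1 + (φ^[N + 1] (0, 0)).2 = 1/2 ∧
    ∃ j : ℤ, (φ^[N + 1] (0, 0)).1 = ((N : ℝ) + 1) * th - j / 2 := by
  obtain ⟨t1, t2⟩ := th_bounds
  induction N with
  | zero =>
    have : φ (0, 0) = (th, 1/2 - th) := by
      unfold φ
      rw [if_pos (by norm_num), if_pos (by simp only; linarith), if_pos (by simp only; linarith)]
      simp
    simp only [zero_add, Function.iterate_one, this]
    refine ⟨by linarith, t2, by ring, 0, by simp⟩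
  | succ N ih =>
    rw [Function.iterate_succ_apply']
    obtain ⟨h1, h2, h3, j, h4⟩ := ih
    generalize φ^[N + 1] (0, 0) = p at *
    have hne : p.1 ≠ 1/2 - th := by
      intro h
      apply th_irr (N + 1) (j + 1)
      push_cast
      linarith
    unfold φ
    rw [if_pos ⟨h2, by linarith⟩]
    rcases lt_or_gt_of_ne hne with h | h
    · rw [if_pos h, if_neg (by linarith)]
      refine ⟨by simp only; linarith, by simp only; linarith, by simp only; linarith, j, ?_⟩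
      push_cast; linarith
    · rw [if_neg (by linarith), if_pos (by linarith)]
      refine ⟨by simp only; linarith, by simp only; linarith, by simp only; linarith, j + 1, ?_⟩
      push_cast; linarith

lemma sq_le_shift {x : ℝ} (h0 : 0 ≤ x) (h1 : x ≤ 1/2) (k : ℤ) : x ^ 2 ≤ (x + k) ^ 2 := by
  rcases le_or_gt 0 k with h | h
  · have : (0:ℝ) ≤ k := by exact_mod_cast h
    nlinarith
  · have : (k:ℝ) ≤ -1 := by exact_mod_cast (by omega : k ≤ -1)
    nlinarith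


/-- The negation of the preceding statement: For every partition of [0,1)² into finitely many half-open rectangles whose translates also partition it, the piecewise-translation map returns every point to within ε of itself, in Euclidean torus distance, at some time N ≥ 1. -/
theorem result :
    ¬ (∀ (m : ℕ) (a1 b1 a2 b2 v1 v2 : Fin m → ℝ) (φ : ℝ × ℝ → ℝ × ℝ),
      Pairwise (fun r s : Fin m =>
        Disjoint (Set.Ico (a1 r) (b1 r) ×ˢ Set.Ico (a2 r) (b2 r))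
          (Set.Ico (a1 s) (b1 s) ×ˢ Set.Ico (a2 s) (b2 s))) →
      (⋃ r : Fin m, Set.Ico (a1 r) (b1 r) ×ˢ Set.Ico (a2 r) (b2 r))
          = Set.Ico (0:ℝ) 1 ×ˢ Set.Ico (0:ℝ) 1 →
      Pairwise (fun r s : Fin m =>
        Disjoint
          (Set.Ico (a1 r + v1 r) (b1 r + v1 r) ×ˢ Set.Ico (a2 r + v2 r) (b2 r + v2 r))
          (Set.Ico (a1 s + v1 s) (b1 s + v1 s) ×ˢ Set.Ico (a2 s + v2 s) (b2 s + v2 s))) →
      (⋃ r : Fin m,
          Set.Ico (a1 r + v1 r) (b1 r + v1 r) ×ˢ Set.Ico (a2 r + v2 r) (b2 r + v2 r))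
          = Set.Ico (0:ℝ) 1 ×ˢ Set.Ico (0:ℝ) 1 →
      (∀ r : Fin m, ∀ x ∈ Set.Ico (a1 r) (b1 r) ×ˢ Set.Ico (a2 r) (b2 r),
          φ x = (x.1 + v1 r, x.2 + v2 r)) →
      ∀ x ∈ Set.Ico (0:ℝ) 1 ×ˢ Set.Ico (0:ℝ) 1, ∀ ε : ℝ, 0 < ε →
        ∃ N : ℕ, 1 ≤ N ∧ ∃ k1 k2 : ℤ,
          ((φ^[N] x).1 - x.1 + (k1 : ℝ)) ^ 2 + ((φ^[N] x).2 - x.2 + (k2 : ℝ)) ^ 2 ≤ ε ^ 2) := by
  intro H
  obtain ⟨t1, t2⟩ := th_bounds
  have h := H 6 ![0, 1/2 - th, 0, 1/2 - th, 1/2, 0] ![1/2 - th, 1/2, 1/2 - th, 1/2, 1, 1]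
    ![th, th, 0, 0, 0, 1/2] ![1/2, 1/2, th, th, 1/2, 1]
    ![th, th - 1/2, th, th - 1/2, 0, 0] ![-th, -th, 1/2 - th, 1/2 - th, 0, 0] φ ?_ ?_ ?_ ?_ ?_
    (0, 0) (by simp) (1/4) (by norm_num)
  · obtain ⟨N, hN, k1, k2, h⟩ := h
    obtain ⟨N, rfl⟩ := Nat.exists_eq_add_of_le' hN
    obtain ⟨h1, h2, h3, -⟩ := orbit N
    generalize φ^[N + 1] (0, 0) = p at *
    have a1 := sq_le_shift h1.le h2.le k1
    have a2 := sq_le_shift (x := p.2) (by linarith) (by linarith) k2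
    simp only [sub_zero] at h
    nlinarith [sq_nonneg (p.1 - p.2)]
  · intro r s hrs
    rw [Set.disjoint_left]
    rintro ⟨x, y⟩ ⟨⟨a1, a2⟩, a3, a4⟩ ⟨⟨b1, b2⟩, b3, b4⟩
    fin_cases r <;> fin_cases s <;> first
      | exact absurd rfl hrs
      | (simp only [Fin.zero_eta, Fin.mk_one, Fin.reduceFinMk, Matrix.cons_val] at a1 a2 a3 a4 b1 b2 b3 b4; linarith)
  · ext ⟨x, y⟩
    simp only [Set.mem_iUnion, Set.mem_prod, Set.mem_Ico]
    constructor
    · rintro ⟨r, ⟨a1, a2⟩, a3, a4⟩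
      fin_cases r <;> simp only [Fin.zero_eta, Fin.mk_one, Fin.reduceFinMk, Matrix.cons_val] at a1 a2 a3 a4 <;>
        refine ⟨⟨?_, ?_⟩, ?_, ?_⟩ <;> linarith
    · rintro ⟨⟨a1, a2⟩, a3, a4⟩
      by_cases c1 : y < 1/2
      · by_cases c2 : x < 1/2
        · by_cases c3 : x < 1/2 - th <;> by_cases c4 : y < th
          · exact ⟨2, by simp only [Matrix.cons_val]; refine ⟨⟨?_, ?_⟩, ?_, ?_⟩ <;> linarith⟩
          · exact ⟨0, by simp only [Matrix.cons_val]; refine ⟨⟨?_, ?_⟩, ?_, ?_⟩ <;> linarith⟩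
          · exact ⟨3, by simp only [Matrix.cons_val]; refine ⟨⟨?_, ?_⟩, ?_, ?_⟩ <;> linarith⟩
          · exact ⟨1, by simp only [Matrix.cons_val]; refine ⟨⟨?_, ?_⟩, ?_, ?_⟩ <;> linarith⟩
        · exact ⟨4, by simp only [Matrix.cons_val]; refine ⟨⟨?_, ?_⟩, ?_, ?_⟩ <;> linarith⟩
      · exact ⟨5, by simp only [Matrix.cons_val]; refine ⟨⟨?_, ?_⟩, ?_, ?_⟩ <;> linarith⟩
  · intro r s hrs
    rw [Set.disjoint_left]
    rintro ⟨x, y⟩ ⟨⟨a1, a2⟩, a3, a4⟩ ⟨⟨b1, b2⟩, b3, b4⟩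
    fin_cases r <;> fin_cases s <;> first
      | exact absurd rfl hrs
      | (simp only [Fin.zero_eta, Fin.mk_one, Fin.reduceFinMk, Matrix.cons_val] at a1 a2 a3 a4 b1 b2 b3 b4; linarith)
  · ext ⟨x, y⟩
    simp only [Set.mem_iUnion, Set.mem_prod, Set.mem_Ico]
    constructor
    · rintro ⟨r, ⟨a1, a2⟩, a3, a4⟩
      fin_cases r <;> simp only [Fin.zero_eta, Fin.mk_one, Fin.reduceFinMk, Matrix.cons_val] at a1 a2 a3 a4 <;>
        refine ⟨⟨?_, ?_⟩, ?_, ?_⟩ <;> linarith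
    · rintro ⟨⟨a1, a2⟩, a3, a4⟩
      by_cases c1 : y < 1/2
      · by_cases c2 : x < 1/2
        · by_cases c3 : x < th <;> by_cases c4 : y < 1/2 - th
          · exact ⟨1, by simp only [Matrix.cons_val]; refine ⟨⟨?_, ?_⟩, ?_, ?_⟩ <;> linarith⟩
          · exact ⟨3, by simp only [Matrix.cons_val]; refine ⟨⟨?_, ?_⟩, ?_, ?_⟩ <;> linarith⟩
          · exact ⟨0, by simp only [Matrix.cons_val]; refine ⟨⟨?_, ?_⟩, ?_, ?_⟩ <;> linarith⟩
          · exact ⟨2, by simp only [Matrix.cons_val]; refine ⟨⟨?_, ?_⟩, ?_, ?_⟩ <;> linarith⟩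
        · exact ⟨4, by simp only [Matrix.cons_val]; refine ⟨⟨?_, ?_⟩, ?_, ?_⟩ <;> linarith⟩
      · exact ⟨5, by simp only [Matrix.cons_val]; refine ⟨⟨?_, ?_⟩, ?_, ?_⟩ <;> linarith⟩
  · rintro r ⟨x, y⟩ ⟨⟨a1, a2⟩, a3, a4⟩
    unfold φ
    fin_cases r <;> simp only [Fin.zero_eta, Fin.mk_one, Fin.reduceFinMk, Matrix.cons_val] at a1 a2 a3 a4 ⊢
    · rw [if_pos ⟨by linarith, by linarith⟩,
        if_pos (by linarith), if_neg (by linarith)]
    · rw [if_pos ⟨by linarith, by linarith⟩,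
        if_neg (by linarith), if_neg (by linarith)]
    · rw [if_pos ⟨by linarith, by linarith⟩,
        if_pos (by linarith), if_pos (by linarith)]
    · rw [if_pos ⟨by linarith, by linarith⟩,
        if_neg (by linarith), if_pos (by linarith)]
    · rw [if_neg (by intro h; linarith [h.1])]; simp
    · rw [if_neg (by intro h; linarith [h.2])]; simp

end Pool.Agent.S04908
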