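import Pool.Statements.S04934
import Pool.Agent.H87.DLD1

set_option autoImplicit false
open Pool Pool.MP_6ac155_an

namespace Pool.Agent.S04934

theorem result :
    ¬ (∃ (X : Type) (_ : NormedAddCommGroup X) (_ : NormedSpace ℝ X) (_ : CompleteSpace X),
      (∀ (f : X →L[ℝ] ℝ) (α : ℝ), 0 < α → ∀ x : X, ‖x‖ = 1 → ‖f‖ - α < f x →
        ∀ ε : ℝ, 0 < ε → ∃ y : X, ‖y‖ ≤ 1 ∧ ‖f‖ - α < f y ∧ 2 - ε < ‖x - y‖) ∧
      ¬ (∀ (n : ℕ) (g : Fin n → (X →L[ℝ] ℝ)) (δ : ℝ), 0 < δ → ∀ x : X, ‖x‖ = 1 →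
        ∀ ε : ℝ, 0 < ε → ∃ y : X, ‖y‖ ≤ 1 ∧ (∀ i, |g i (y - x)| < δ) ∧ 2 - ε < ‖x - y‖)) := by
  rintro ⟨X, _, _, _, hL, hD⟩
  refine hD fun n g δ hδ x hx ε hε => ?_
  refine Pool.Agent.H87.DLD.main (fun i => (g i : X →ₗ[ℝ] ℝ)) (fun i => ‖g i‖)
    (fun i y => (g i).le_opNorm y) (fun c z hz e he => ?_) hδ x hx hε
  set f : X →L[ℝ] ℝ := -∑ i, c i • g i with hf
  have h1 : f z ≤ ‖f‖ := (le_abs_self _).trans ((f.le_opNorm z).trans (by rw [hz, mul_one]))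
  obtain ⟨y, hy, h2, h3⟩ := hL f (‖f‖ - f z + 1) (by linarith) z hz (by linarith) e he
  refine ⟨y, hy, ?_, h3⟩
  have h4 : f (y - z) = -∑ i, c i * g i (y - z) := by
    simp [hf]
  rw [map_sub] at h4
  have h5 : ∑ i, c i * (g i : X →ₗ[ℝ] ℝ) (y - z) = ∑ i, c i * g i (y - z) := rfl
  linarith

end Pool.Agent.S04934
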