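import Pool.Statements.S04946
import Pool.Agent.H58.WotOpen

set_option autoImplicit false
open Pool Pool.MP_6b330e_an

namespace Pool.Agent.S04946

theorem result :
    ¬ (∀ (X : Type) [NormedAddCommGroup X] [NormedSpace ℂ X] [CompleteSpace X]
      [TopologicalSpace.SeparableSpace X],
      ¬ FiniteDimensional ℂ X →
      Function.Surjective (NormedSpace.inclusionInDoubleDual ℂ X) →
      (@IsMeagre {T : X →L[ℂ] X // ‖T‖ ≤ 1}
          (TopologicalSpace.induced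
            (fun (T : {T : X →L[ℂ] X // ‖T‖ ≤ 1}) (p : X × (X →L[ℂ] ℂ)) => p.2 (T.1 p.1))
            (Pi.topologicalSpace : TopologicalSpace (X × (X →L[ℂ] ℂ) → ℂ)))
          {T | ∀ (x : X) (f : X →L[ℂ] ℂ),
              Filter.Tendsto (fun n : ℕ => f ((T.1 ^ n) x)) Filter.atTop (nhds 0)}) ∧
      ({T : {T : X →L[ℂ] X // ‖T‖ ≤ 1} | ∀ x : X, ∃ J : Set ℕ,
          Filter.Tendsto (fun N : ℕ => (Nat.card (J ∩ Set.Iio N : Set ℕ) : ℝ) / (N : ℝ))
            Filter.atTop (nhds 1) ∧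
          ∀ f : X →L[ℂ] ℂ,
            Filter.Tendsto (fun n : ℕ => f ((T.1 ^ n) x))
              (Filter.atTop ⊓ Filter.principal J) (nhds 0)} ∈
        @residual {T : X →L[ℂ] X // ‖T‖ ≤ 1}
          (TopologicalSpace.induced
            (fun (T : {T : X →L[ℂ] X // ‖T‖ ≤ 1}) (p : X × (X →L[ℂ] ℂ)) => p.2 (T.1 p.1))
            (Pi.topologicalSpace : TopologicalSpace (X × (X →L[ℂ] ℂ) → ℂ))))) := by
  intro h
  obtain ⟨e, he⟩ := Pool.Agent.H58.WotOpen.exists_unit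
  exact Pool.Agent.H58.WotOpen.sp.not_meagre e he
    (h Pool.Agent.H58.WotOpen.XX Pool.Agent.H58.WotOpen.not_fd Pool.Agent.H58.WotOpen.sp.refl).1

end Pool.Agent.S04946
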