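import Pool.Statements.S04955
import Pool.Agent.H87.NonBR

set_option autoImplicit false
open Pool Pool.MP_6c2b6a_an

namespace Pool.Agent.S04955

theorem result :
    ∀ (X : Type) [NormedAddCommGroup X] [NormedSpace ℝ X] [CompleteSpace X],
      (∃ φ : (X →L[ℝ] ℝ) →L[ℝ] ℝ, ∀ x : X, ∃ f : X →L[ℝ] ℝ, φ f ≠ f x) →
      ∃ A : Set (X × (X →L[ℝ] ℝ)),
        (∀ p ∈ A, ∀ q ∈ A, 0 ≤ (p.2 - q.2) (p.1 - q.1)) ∧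
        (∀ z : X × (X →L[ℝ] ℝ), (∀ p ∈ A, 0 ≤ (z.2 - p.2) (z.1 - p.1)) → z ∈ A) ∧
        ∃ (x : X) (xs : X →L[ℝ] ℝ) (α β : ℝ), 0 < α ∧ 0 < β ∧
          (∃ c : ℝ, -(α * β) < c ∧ ∀ p ∈ A, c ≤ (p.2 - xs) (p.1 - x)) ∧
          ∀ p ∈ A, ¬ (‖p.1 - x‖ < α ∧ ‖p.2 - xs‖ < β) := by
  intro X _ _ _ ⟨φ, hφ⟩
  obtain ⟨x, f, L, K, hL, hx, hf, hfx⟩ := Pool.Agent.H87.JamesSeq.james φ hφ
  obtain ⟨A, h1, h2, z, h3, h4⟩ := Pool.Agent.H87.NonBR.main x f L K hL hx hf hfx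
  refine ⟨A, h1, h2, z.1, z.2, 2 * L, 1 / L, by positivity, by positivity, ⟨-1, ?_, h3⟩,
    fun p hp h => absurd h.2 (not_lt.2 (h4 p hp))⟩
  have : 2 * L * (1 / L) = 2 := by field_simp
  rw [this]; norm_num

end Pool.Agent.S04955
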