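import Pool.Statements.S04961
import Pool.Agent.H97.Bergman3
import Pool.Agent.H97.Bergman4

set_option autoImplicit false
open MeasureTheory
open Pool Pool.MP_6c36f4_an

namespace Pool.Agent.S04961

/-- There is a domain in ℂⁿ (n ≥ 1) and reals 1 < a < b such that, for p > 1, its Bergman projection satisfies ‖Pf‖_p ≤ C‖f‖_p on L² ∩ Lᵖ exactly when a ≤ p ≤ b. -/
theorem result : ∃ n : ℕ, 1 ≤ n ∧ ∃ Ω : Set (Fin n → ℂ), IsOpen Ω ∧ IsConnected Ω ∧
    ∃ a b : ℝ, 1 < a ∧ a < b ∧ ∀ p : ℝ, 1 < p →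
      ((∃ C : ℝ, ∀ f g : (Fin n → ℂ) → ℂ,
          MemLp f 2 (volume.restrict Ω) →
          MemLp f (ENNReal.ofReal p) (volume.restrict Ω) →
          DifferentiableOn ℂ g Ω →
          MemLp g 2 (volume.restrict Ω) →
          (∀ h : (Fin n → ℂ) → ℂ, DifferentiableOn ℂ h Ω → MemLp h 2 (volume.restrict Ω) →
              ∫ z in Ω, (f z - g z) * (starRingEnd ℂ) (h z) = 0) →
          eLpNorm g (ENNReal.ofReal p) (volume.restrict Ω)
            ≤ ENNReal.ofReal C * eLpNorm f (ENNReal.ofReal p) (volume.restrict Ω))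
        ↔ (a ≤ p ∧ p ≤ b)) := by
  refine ⟨2, by norm_num, H97.Bergman.Om H97.Bergman.rho, H97.Bergman.Om_open,
    H97.Bergman.Om_connected H97.Bergman.rho_pos, 3 / 2, 3, by norm_num, by norm_num,
    fun p hp => ?_⟩
  refine H97.Bergman.rank_one (e := fun y : Fin 2 → ℂ => y 0) (measurable_pi_apply 0)
    (fun q h1 h3 => H97.Bergman.memLp_e h1 h3) (fun q h3 => H97.Bergman.lint_e_inf h3)
    (fun h => DifferentiableOn ℂ h (H97.Bergman.Om H97.Bergman.rho)) (fun h hd h2 => ?_)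
    (fun c => by fun_prop) p hp
  obtain ⟨c, hc⟩ := H97.Bergman.bergman H97.Bergman.Om_open H97.Bergman.rho_meas
    H97.Bergman.rho_pos H97.Bergman.mono_inf hd h2
  exact ⟨c, (ae_restrict_iff' H97.Bergman.Om_open.measurableSet).mpr
    (Filter.Eventually.of_forall hc)⟩

end Pool.Agent.S04961
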