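import Pool.Statements.S04975
import Pool.Agent.H53.HmC

set_option autoImplicit false
open Pool Pool.MP_6deb90_an

namespace Pool.Agent.S04975

/-- There is a real c such that for all 2 ≤ n < m and complex a, b, 1 + H_1(z) + a H_n(z) + b H_m(z) has a zero z with ∣Im z∣ ≤ c, where H_k(z) = (-1)^k e^{z^2} (d/dz)^k e^{-z^2}. -/
theorem result :
    ∃ c : ℝ, ∀ n m : ℕ, 2 ≤ n → n < m → ∀ a b : ℂ, ∃ z : ℂ,
      |z.im| ≤ c ∧
      1 + (-1 : ℂ) ^ 1 * Complex.exp (z ^ 2) *
            iteratedDeriv 1 (fun w : ℂ => Complex.exp (-w ^ 2)) z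
        + a * ((-1 : ℂ) ^ n * Complex.exp (z ^ 2) *
            iteratedDeriv n (fun w : ℂ => Complex.exp (-w ^ 2)) z)
        + b * ((-1 : ℂ) ^ m * Complex.exp (z ^ 2) *
            iteratedDeriv m (fun w : ℂ => Complex.exp (-w ^ 2)) z) = 0 := by
  open Pool.Agent.H53.Hm Polynomial in
  refine ⟨T ^ 6, fun n m hn hnm a b => ?_⟩
  have hT := T_ge
  have hT1 : (1 : ℝ) ≤ T := by linarith
  let c : ℕ → ℂ := fun j => if j = n then a else if j = m then b else 1
  let K : Finset ℕ := {0, 1, n, m}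
  have hsum : ∀ {M : Type} [AddCommMonoid M] (f : ℕ → M),
      ∑ i ∈ K, f i = f 0 + f 1 + f n + f m := by
    intro M _ f
    simp only [K]
    rw [Finset.sum_insert (by simp; omega), Finset.sum_insert (by simp; omega),
      Finset.sum_insert (by simp; omega), Finset.sum_singleton]
    simp only [add_assoc]
  have c0 : c 0 = 1 := by simp only [c]; rw [if_neg (by omega), if_neg (by omega)]
  have c1 : c 1 = 1 := by simp only [c]; rw [if_neg (by omega), if_neg (by omega)]
  have cn : c n = a := by simp only [c, if_true]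
  have cm : c m = b := by simp only [c]; rw [if_neg (by omega), if_true]
  have hdom : ∀ i : ℕ, ∃ k ∈ ({1, n, m} : Finset ℕ),
      ∑ j ∈ K, ‖c j‖ * P j (T ^ i) ≤ 4 * (‖c k‖ * P k (T ^ i)) := by
    intro i
    have hy : (1 : ℝ) ≤ T ^ i := one_le_pow₀ hT1
    obtain ⟨k, hk, hmax⟩ := Finset.exists_max_image ({1, n, m} : Finset ℕ)
      (fun k => ‖c k‖ * P k (T ^ i)) (by simp)
    refine ⟨k, hk, ?_⟩
    rw [hsum]
    have h1 := hmax 1 (by simp)
    have h2 := hmax n (by simp)
    have h3 := hmax m (by simp)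
    have h0 : ‖c 0‖ * P 0 (T ^ i) ≤ ‖c 1‖ * P 1 (T ^ i) := by
      rw [c0, c1, P_zero, P_one]; simp; linarith
    linarith
  choose f hf1 hf2 using hdom
  obtain ⟨k, hk, hcard⟩ := Finset.exists_lt_card_fiber_of_mul_lt_card_of_maps_to
    (s := Finset.range 7) (t := ({1, n, m} : Finset ℕ)) (f := f) (n := 2)
    (fun i _ => hf1 i) (by
      have := Finset.card_le_three (a := 1) (b := n) (c := m)
      rw [Finset.card_range]; omega)
  set s := (Finset.range 7).filter (fun i => f i = k) with hs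
  let e := s.orderEmbOfCardLe (k := 3) hcard
  have he : ∀ i, e i < 7 ∧ f (e i) = k := by
    intro i
    have := s.orderEmbOfCardLe_mem hcard i
    have h2 := Finset.mem_filter.1 this
    exact ⟨Finset.mem_range.1 h2.1, h2.2⟩
  have e01 : e 0 < e 1 := e.strictMono (by decide)
  have e12 : e 1 < e 2 := e.strictMono (by decide)
  obtain ⟨k', rfl⟩ : ∃ k', k = k' + 1 := by
    refine ⟨k - 1, ?_⟩
    simp only [Finset.mem_insert, Finset.mem_singleton] at hk
    omega
  have hstep : ∀ i j : ℕ, i < j → T * T ^ i ≤ T ^ j := by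
    intro i j hij
    rw [← pow_succ']
    exact pow_le_pow_right₀ hT1 hij
  obtain ⟨z, hz1, hz2⟩ := three_scales K Finset.card_le_four c k'
    (by simp only [K, Finset.mem_insert] at hk ⊢; exact Or.inr hk)
    (one_le_pow₀ hT1) (hstep _ _ e01) (hstep _ _ e12) (by
      intro y hy
      simp only [Set.mem_insert_iff, Set.mem_singleton_iff] at hy
      rcases hy with rfl | rfl | rfl
      · rw [← (he 0).2]; exact hf2 _
      · rw [← (he 1).2]; exact hf2 _
      · rw [← (he 2).2]; exact hf2 _)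
  refine ⟨z, ?_, ?_⟩
  · have h1 : ‖z‖ < T ^ (e 2) := mem_ball_zero_iff.1 hz1
    have h2 : T ^ (e 2) ≤ T ^ 6 := pow_le_pow_right₀ hT1 (by have := (he 2).1; omega)
    linarith [Complex.abs_im_le_norm z]
  · rw [herm_eq, herm_eq, herm_eq]
    rw [hsum, c0, c1, cn, cm] at hz2
    simpa [H_zero] using hz2

end Pool.Agent.S04975
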