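import Pool.Statements.S04980
import Pool.Agent.H92.Dist1

set_option autoImplicit false
open MeasureTheory Set
open Pool Pool.MP_6ded3d_an

namespace Pool.Agent.S04980

/-- The negation of the preceding statement: For all n≥2, bounded domains Ω, p>1 and homeomorphic g of finite distortion with L^p inner distortion, every homeomorphism with g's boundary values minimizing the L^p inner-distortion energy is a C^∞ diffeomorphism of Ω onto g(Ω). -/
theorem result :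
    ¬ (∀ (n : ℕ), 2 ≤ n →
  ∀ (Ω : Set (EuclideanSpace ℝ (Fin n))), IsOpen Ω → IsConnected Ω → Bornology.IsBounded Ω →
  ∀ (opNorm : Matrix (Fin n) (Fin n) ℝ → ℝ),
    (∀ A : Matrix (Fin n) (Fin n) ℝ,
      opNorm A = ‖LinearMap.toContinuousLinearMap (Matrix.toEuclideanLin A)‖) →
  ∀ (FD : (EuclideanSpace ℝ (Fin n) → EuclideanSpace ℝ (Fin n)) →
      (EuclideanSpace ℝ (Fin n) → Matrix (Fin n) (Fin n) ℝ) → Prop),
    (∀ (f : EuclideanSpace ℝ (Fin n) → EuclideanSpace ℝ (Fin n))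
       (Df : EuclideanSpace ℝ (Fin n) → Matrix (Fin n) (Fin n) ℝ),
      FD f Df ↔
      ((∀ i : Fin n, LocallyIntegrableOn (fun x => WithLp.ofLp (f x) i) Ω) ∧
       (∀ i j : Fin n, LocallyIntegrableOn (fun x => Df x i j) Ω) ∧
       (∀ φ : EuclideanSpace ℝ (Fin n) → ℝ,
          ContDiff ℝ ((⊤ : ℕ∞) : WithTop ℕ∞) φ → HasCompactSupport φ → tsupport φ ⊆ Ω →
          ∀ i j : Fin n,
            ∫ x in Ω, WithLp.ofLp (f x) i * fderiv ℝ φ x (EuclideanSpace.single j (1 : ℝ))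
              = - ∫ x in Ω, Df x i j * φ x) ∧
       LocallyIntegrableOn (fun x => (Df x).det) Ω ∧
       (∀ᵐ x ∂(volume.restrict Ω), 0 ≤ (Df x).det) ∧
       ∃ K : EuclideanSpace ℝ (Fin n) → ℝ, Measurable K ∧ (∀ x ∈ Ω, 1 ≤ K x) ∧
         ∀ᵐ x ∂(volume.restrict Ω), opNorm (Df x) ^ n ≤ K x * (Df x).det)) →
  ∀ (KI : (EuclideanSpace ℝ (Fin n) → Matrix (Fin n) (Fin n) ℝ) → EuclideanSpace ℝ (Fin n) → ℝ),
    (∀ (Df : EuclideanSpace ℝ (Fin n) → Matrix (Fin n) (Fin n) ℝ) (x : EuclideanSpace ℝ (Fin n)),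
      KI Df x = if 0 < (Df x).det
        then opNorm (Df x).adjugate ^ n / (Df x).det ^ (n - 1) else 1) →
  ∀ p : ℝ, 1 < p →
  ∀ g : EuclideanSpace ℝ (Fin n) → EuclideanSpace ℝ (Fin n),
    ContinuousOn g (closure Ω) → InjOn g (closure Ω) → g '' closure Ω = closure (g '' Ω) →
    (∃ Dg : EuclideanSpace ℝ (Fin n) → Matrix (Fin n) (Fin n) ℝ,
      FD g Dg ∧ ∫⁻ x in Ω, ENNReal.ofReal (KI Dg x ^ p) < ⊤) →
  ∀ (f : EuclideanSpace ℝ (Fin n) → EuclideanSpace ℝ (Fin n))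
    (Df : EuclideanSpace ℝ (Fin n) → Matrix (Fin n) (Fin n) ℝ),
    ContinuousOn f (closure Ω) → InjOn f (closure Ω) → f '' closure Ω = closure (g '' Ω) →
    (∀ x ∈ frontier Ω, f x = g x) → FD f Df →
    (∀ (h : EuclideanSpace ℝ (Fin n) → EuclideanSpace ℝ (Fin n))
       (Dh : EuclideanSpace ℝ (Fin n) → Matrix (Fin n) (Fin n) ℝ),
       ContinuousOn h (closure Ω) → InjOn h (closure Ω) → h '' closure Ω = closure (g '' Ω) →
       (∀ x ∈ frontier Ω, h x = g x) → FD h Dh →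
       ∫⁻ x in Ω, ENNReal.ofReal (KI Df x ^ p) ≤ ∫⁻ x in Ω, ENNReal.ofReal (KI Dh x ^ p)) →
    (f '' Ω = g '' Ω ∧ ContDiffOn ℝ ((⊤ : ℕ∞) : WithTop ℕ∞) f Ω ∧
      ∃ f' : EuclideanSpace ℝ (Fin n) → EuclideanSpace ℝ (Fin n),
        MapsTo f' (g '' Ω) Ω ∧ (∀ x ∈ Ω, f' (f x) = x) ∧ (∀ y ∈ g '' Ω, f (f' y) = y) ∧
        ContDiffOn ℝ ((⊤ : ℕ∞) : WithTop ℕ∞) f' (g '' Ω))) := by
  intro H
  have H1 := H 2 le_rfl (Metric.ball H92.Area.cc (1 / 2)) Metric.isOpen_ball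
    (Metric.isConnected_ball (by norm_num)) Metric.isBounded_ball
    (fun A => ‖H92.Area.clm A‖) (fun A => rfl) _ (fun f Df => Iff.rfl)
    (fun Df x => H92.Area.KI (Df x)) (fun Df x => rfl) 2 (by norm_num) H92.Area.f0
  have hcl : closure (Metric.ball H92.Area.cc (1 / 2)) = Metric.closedBall H92.Area.cc (1 / 2) :=
    closure_ball _ (by norm_num)
  have hfr : frontier (Metric.ball H92.Area.cc (1 / 2)) = Metric.sphere H92.Area.cc (1 / 2) :=
    frontier_ball _ (by norm_num)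
  have him : H92.Area.f0 '' Metric.closedBall H92.Area.cc (1 / 2) =
      closure (H92.Area.f0 '' Metric.ball H92.Area.cc (1 / 2)) := by
    rw [← hcl]
    exact image_closure_of_isCompact (hcl ▸ isCompact_closedBall _ _) (hcl ▸ H92.Area.f0_cont)
  rw [hcl, hfr] at H1
  have sb : Metric.ball H92.Area.cc (1 / 2) ⊆ Metric.closedBall H92.Area.cc (1 / 2) :=
    Metric.ball_subset_closedBall
  have hBm : MeasurableSet (Metric.ball H92.Area.cc (1 / 2)) := measurableSet_ball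
  have cJ0 : ContinuousOn (fun x => (H92.Area.D0 x).det) (Metric.closedBall H92.Area.cc (1 / 2)) := by
    simp only [Matrix.det_fin_two]
    exact ((H92.Area.D0_cont 0 0).mul (H92.Area.D0_cont 1 1)).sub
      ((H92.Area.D0_cont 0 1).mul (H92.Area.D0_cont 1 0))
  have lI : ∀ {F : H92.Area.E → ℝ}, ContinuousOn F (Metric.closedBall H92.Area.cc (1 / 2)) →
      LocallyIntegrableOn F (Metric.ball H92.Area.cc (1 / 2)) := fun hF =>
    ((hF.integrableOn_compact (isCompact_closedBall _ _)).mono_set sb).locallyIntegrableOn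
  have A1 := fun i : Fin 2 => lI ((EuclideanSpace.proj i : H92.Area.E →L[ℝ] ℝ).continuous.comp_continuousOn
    H92.Area.f0_cont)
  have A2 := fun i j : Fin 2 => lI (H92.Area.D0_cont i j)
  have A4 : ∀ᵐ x ∂(volume.restrict (Metric.ball H92.Area.cc (1 / 2))), 0 ≤ (H92.Area.D0 x).det := by
    filter_upwards [ae_restrict_mem hBm] with x hx
    have := H92.Area.s_pos (sb hx); have := H92.Area.K0_ge x
    rw [H92.Area.D0_det (sb hx)]; positivity
  have A5 : Measurable H92.Area.K0 := by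
    unfold H92.Area.K0; fun_prop
  have A6 : ∀ᵐ x ∂(volume.restrict (Metric.ball H92.Area.cc (1 / 2))),
      ‖H92.Area.clm (H92.Area.D0 x)‖ ^ 2 ≤ H92.Area.K0 x * (H92.Area.D0 x).det := by
    filter_upwards [ae_restrict_mem hBm] with x hx
    rw [H92.Area.D0_det (sb hx)]
    exact (H92.Area.D0_op (sb hx)).1.trans (le_of_eq (by ring))
  simp only [Real.rpow_two] at H1
  refine H92.Area.not_smooth (H1 H92.Area.f0_cont H92.Area.f0_inj him
    ⟨H92.Area.D0, ⟨A1, A2, fun φ h1 h2 h3 i j => H92.Area.f0_weak i φ h1 h2 h3 j, lI cJ0, A4,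
      H92.Area.K0, A5, fun x _ => H92.Area.K0_ge x, A6⟩, ?_⟩ H92.Area.f0 H92.Area.D0
    H92.Area.f0_cont H92.Area.f0_inj him (fun _ _ => rfl)
    ⟨A1, A2, fun φ h1 h2 h3 i j => H92.Area.f0_weak i φ h1 h2 h3 j, lI cJ0, A4,
      H92.Area.K0, A5, fun x _ => H92.Area.K0_ge x, A6⟩ ?_).2.1
  · refine (setLIntegral_mono' hBm fun x hx => ENNReal.ofReal_le_ofReal
      (pow_le_pow_left₀ (H92.Area.KI_D0 (sb hx)).1 (H92.Area.KI_D0 (sb hx)).2 2)).trans_lt ?_
    exact (((H92.Area.K0_cont.pow 2).integrableOn_compact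
      (isCompact_closedBall _ _)).mono_set sb).lintegral_lt_top
  · rintro h Dh c1 c2 c3 c4 ⟨-, d2, d3, d4, d5, K, -, -, d6⟩
    exact H92.Area.minimal c1 c2 (c3.trans him.symm) c4 d2 (fun i φ h1 h2 h3 j => d3 φ h1 h2 h3 i j)
      d4 d5 d6

end Pool.Agent.S04980
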