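import Pool.Statements.S04985
import Pool.Agent.H91.PolyIndex

set_option autoImplicit false
open Pool Pool.MP_6eb165_an

namespace Pool.Agent.S04985

theorem result :
    ∃ (𝕂 : Type) (_ : RCLike 𝕂) (X : Type) (_ : NormedAddCommGroup X)
      (_ : NormedSpace 𝕂 X) (_ : CompleteSpace X) (L : ℝ),
      Filter.Tendsto
        (fun k : ℕ => sSup {c : ℝ | 0 ≤ c ∧
          ∀ (A : ContinuousMultilinearMap 𝕂 (fun _ : Fin k => X) X) (y : X), ‖y‖ ≤ 1 →
            c * ‖A (fun _ => y)‖ ≤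
              ⨆ p : {p : X × (X →L[𝕂] 𝕂) // ‖p.1‖ = 1 ∧ ‖p.2‖ = 1 ∧ p.2 p.1 = 1},
                ‖p.1.2 (A (fun _ => p.1.1))‖})
        Filter.atTop (nhds L) ∧ L ≠ 0 ∧ L ≠ 1 := by
  obtain ⟨L, hL, h1, h2⟩ := Pool.Agent.H91.PolyIndex.tendsto_index ℂ Pool.Agent.H91.PolyIndex.X
    (1 / 2) (9 / 10) Pool.Agent.H91.PolyIndex.half_mem Pool.Agent.H91.PolyIndex.index_one
  exact ⟨ℂ, inferInstance, Pool.Agent.H91.PolyIndex.X, inferInstance, inferInstance, inferInstance,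
    L, hL, by intro h; rw [h] at h1; norm_num at h1, by intro h; rw [h] at h2; norm_num at h2⟩

end Pool.Agent.S04985
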