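import Pool.Statements.S04999
import Pool.Agent.H88.Pel4

set_option autoImplicit false
open Pool Pool.MP_6fa8f6_an

namespace Pool.Agent.S04999

theorem result :
    ∃ (E : Type) (_ : NormedAddCommGroup E) (_ : NormedSpace ℝ E) (_ : CompleteSpace E)
      (K : Set (WeakSpace ℝ E)),
      Convex ℝ K ∧ IsCompact K ∧ ¬ TopologicalSpace.MetrizableSpace (↥K) ∧
      ∃ (L : Type) (_ : TopologicalSpace L) (_ : CompactSpace L) (_ : T2Space L),
        TotallyDisconnectedSpace L ∧ Nonempty (C(↥K, ℝ) ≃L[ℝ] C(L, ℝ)) := by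
  obtain ⟨K, h1, h2, ⟨e⟩⟩ := H88.Pel.final
  obtain ⟨f⟩ := H88.Pel.iso
  have : CompactSpace K := isCompact_iff_compactSpace.1 h2
  refine ⟨H88.Pel.EE, inferInstance, inferInstance, inferInstance, K, h1, h2, fun _ => ?_,
    H88.Pel.LL, inferInstance, inferInstance, inferInstance, inferInstance,
    ⟨(ContinuousLinearEquiv.equivOfInverse
      (ContinuousMap.compCLM ℝ ℝ (e : C(H88.Pel.K0 H88.Pel.LL, K)))
      (ContinuousMap.compCLM ℝ ℝ (e.symm : C(K, H88.Pel.K0 H88.Pel.LL)))
      (fun g => by ext; simp) fun g => by ext; simp).trans f⟩⟩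
  let _ := TopologicalSpace.metrizableSpaceMetric K
  exact H88.Pel.not_sep (e.symm.surjective.denseRange.separableSpace e.symm.continuous)

end Pool.Agent.S04999
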