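import Pool.Statements.S05004
import Pool.Agent.H87.MonoGap2

set_option autoImplicit false
open Pool Pool.MP_700ccb_an

namespace Pool.Agent.S05004

theorem result :
    ¬ (∀ (X : Type) [NormedAddCommGroup X] [NormedSpace ℝ X] [CompleteSpace X]
      (A : X →L[ℝ] (X →L[ℝ] ℝ)) (B : X → Set (X →L[ℝ] ℝ)),
      (∀ x : X, 0 ≤ A x x) →
      (∀ (x y : X) (u v : X →L[ℝ] ℝ), u ∈ B x → v ∈ B y → 0 ≤ (u - v) (x - y)) →
      (∀ (x : X) (u : X →L[ℝ] ℝ),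
          (∀ (y : X) (v : X →L[ℝ] ℝ), v ∈ B y → 0 ≤ (u - v) (x - y)) → u ∈ B x) →
      ((∀ (x y : X) (u v : X →L[ℝ] ℝ), u ∈ B x → v ∈ B y →
          0 ≤ ((A x + u) - (A y + v)) (x - y)) ∧
        (∀ (x : X) (w : X →L[ℝ] ℝ),
          (∀ (y : X) (v : X →L[ℝ] ℝ), v ∈ B y → 0 ≤ (w - (A y + v)) (x - y)) →
            ∃ u ∈ B x, w = A x + u))) := by
  intro H
  obtain ⟨G, z, hz, h1, h2, h3, -, -, -, h4⟩ := Pool.Agent.H87.MonoGap.core
  obtain ⟨g, hg, -⟩ := (H _ (Pool.Agent.H87.MonoGap.u.smulRight Pool.Agent.H87.MonoGap.u)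
    (fun x => {f | (x, f) ∈ G}) (fun x => mul_self_nonneg (Pool.Agent.H87.MonoGap.u x))
    (fun x y f g hf hg => h1 x y f g hf hg) (fun x f hf => h2 x f hf)).2 z _
    (fun y g hg => h4 y g hg)
  have := h3 _ _ hg
  rw [hz] at this
  norm_num at this

end Pool.Agent.S05004
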