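import Pool.Statements.S05009
import Pool.Agent.H96.WO8

set_option autoImplicit false
open scoped InnerProductSpace MeasureTheory
open Pool Pool.MP_707689_an

namespace Pool.Agent.S05009

/-- For commuting self-adjoint pairs (A1,A2),(B1,B2) with A_j−B_j in the Lorentz ideal (∑ s_k/√(k+1)<∞) and absolutely continuous joint spectral measure of (A1,A2), exp(−itB1)exp(itA1)x converges as t→+∞ for every x. -/
theorem result :
  ∀ (H : Type) [NormedAddCommGroup H] [InnerProductSpace ℂ H] [CompleteSpace H]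
    (A₁ A₂ B₁ B₂ : H →L[ℂ] H),
    IsSelfAdjoint A₁ → IsSelfAdjoint A₂ → IsSelfAdjoint B₁ → IsSelfAdjoint B₂ →
    Commute A₁ A₂ → Commute B₁ B₂ →
    Summable (fun k : ℕ =>
      sInf {r : ℝ | ∃ F : H →L[ℂ] H,
        Module.rank ℂ (LinearMap.range (F : H →ₗ[ℂ] H)) ≤ (k : Cardinal) ∧
        r = ‖(A₁ - B₁) - F‖} / Real.sqrt ((k : ℝ) + 1)) →
    Summable (fun k : ℕ =>
      sInf {r : ℝ | ∃ F : H →L[ℂ] H,
        Module.rank ℂ (LinearMap.range (F : H →ₗ[ℂ] H)) ≤ (k : Cardinal) ∧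
        r = ‖(A₂ - B₂) - F‖} / Real.sqrt ((k : ℝ) + 1)) →
    (∀ x : H, ∃ μ : MeasureTheory.Measure (ℝ × ℝ),
      MeasureTheory.IsFiniteMeasure μ ∧ μ ≪ MeasureTheory.volume ∧
      ∀ s t : ℝ,
        ⟪x, ((∑' n : ℕ, ((n.factorial : ℂ)⁻¹) • (((Complex.I * (s : ℂ)) • A₁) ^ n)) *
              (∑' n : ℕ, ((n.factorial : ℂ)⁻¹) • (((Complex.I * (t : ℂ)) • A₂) ^ n))) x⟫_ℂ =
          ∫ p, Complex.exp (Complex.I * ((s * p.1 + t * p.2 : ℝ) : ℂ)) ∂μ) →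
    ∀ x : H, ∃ y : H,
      Filter.Tendsto
        (fun t : ℝ =>
          (∑' n : ℕ, ((n.factorial : ℂ)⁻¹) • (((-(Complex.I * (t : ℂ))) • B₁) ^ n))
            ((∑' n : ℕ, ((n.factorial : ℂ)⁻¹) • (((Complex.I * (t : ℂ)) • A₁) ^ n)) x))
        Filter.atTop (nhds y) := by
  intro H _ _ _ A₁ A₂ B₁ B₂ a1 a2 b1 b2 ca cb s1 s2 hac x
  obtain ⟨Φ, p1, p2⟩ := H96.WO.exists_hom a1 a2 ca
    (ρ := ‖A₁ + Complex.I • A₂‖ + ‖B₁ + Complex.I • B₂‖) (le_add_of_nonneg_right (norm_nonneg _))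
    (by positivity)
  obtain ⟨Ψ, q1, q2⟩ := H96.WO.exists_hom b1 b2 cb
    (ρ := ‖A₁ + Complex.I • A₂‖ + ‖B₁ + Complex.I • B₂‖) (le_add_of_nonneg_left (norm_nonneg _))
    (by positivity)
  have l1 : H96.WO.LZ (H96.WO.K1 Φ Ψ) := H96.WO.lz_of_summable _ (by
    rw [H96.WO.K1, p1, q1]; exact s1)
  have l2 : H96.WO.LZ (H96.WO.K2 Φ Ψ) := H96.WO.lz_of_summable _ (by
    rw [H96.WO.K2, p2, q2]; exact s2)
  have ex : ∀ T : H →L[ℂ] H, (∑' n : ℕ, ((n.factorial : ℂ)⁻¹) • T ^ n) = NormedSpace.exp T :=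
    fun T => (congrFun (NormedSpace.exp_eq_tsum ℂ) T).symm
  have u1 : ∀ (Θ : H96.WO.Hom (Metric.closedBall (0 : ℂ)
      (‖A₁ + Complex.I • A₂‖ + ‖B₁ + Complex.I • B₂‖)) H) (t : ℝ),
      H96.WO.U Θ t = NormedSpace.exp ((Complex.I * (t : ℂ)) • Θ (H96.WO.reC _)) := fun Θ t => by
    rw [H96.WO.U_eq, mul_smul]; congr 1; simp
  have u2 : ∀ t : ℝ, H96.WO.U Φ (t * Complex.I) =
      NormedSpace.exp ((Complex.I * (t : ℂ)) • A₂) := fun t => by
    rw [H96.WO.U_eq, p2, mul_smul]; congr 1; simp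
  have hA : H96.WO.AC Φ := fun x μ J R => by
    have := R.fin
    obtain ⟨ν, hν, hν', h⟩ := hac x
    have mp := Complex.volume_preserving_equiv_real_prod.symm
    have e : μ = ν.map Complex.measurableEquivRealProd.symm := by
      apply MeasureTheory.Measure.ext_of_charFun
      ext ξ
      rw [H96.WO.charFun_eq, H96.WO.charFun_eq, ← R.char, MeasureTheory.integral_map_equiv]
      have h2 := h ξ.re ξ.im
      rw [ex, ex, ← p1, ← u1, ← u2, mul_apply_eq_comp, ← H96.WO.U_add,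
        Complex.re_add_im] at h2
      rw [h2]
      congr 1
    rw [e, ← mp.map_eq]
    exact hν'.map Complex.measurableEquivRealProd.symm.measurable
  obtain ⟨y, hy⟩ := H96.WO.main hA l1 l2 x
  refine ⟨y, (hy.comp (H96.WO.ray (ω := 1) (by simp))).congr fun t => ?_⟩
  simp only [Function.comp, H96.WO.ψ, mul_one]
  rw [ex, ex, ← Complex.ofReal_neg, u1, u1, p1, q1]
  simp

end Pool.Agent.S05009
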