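import Pool.Statements.S05050
import Pool.Agent.H58.FRec

set_option autoImplicit false
open Pool Pool.MP_7364f6_an

namespace Pool.Agent.S05050

theorem result :
    ¬ (∀ (𝕜 : Type) [RCLike 𝕜] (X : Type) [AddCommGroup X] [Module 𝕜 X] [Module ℝ X]
      [IsScalarTower ℝ 𝕜 X] [UniformSpace X] [IsUniformAddGroup X] [CompleteSpace X]
      [TopologicalSpace.MetrizableSpace X] [ContinuousSMul 𝕜 X] [LocallyConvexSpace ℝ X]
      (T : X →L[𝕜] X),
      {x : X | ∀ U ∈ nhds x, ∃ δ : ℝ, 0 < δ ∧ ∃ N : ℕ, ∀ n : ℕ, N ≤ n →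
          δ * (n : ℝ) ≤ ((Set.ncard {k : ℕ | k < n ∧ (T ^ k) x ∈ U} : ℕ) : ℝ)} = Set.univ ∨
      IsMeagre {x : X | ∀ U ∈ nhds x, ∃ δ : ℝ, 0 < δ ∧ ∃ N : ℕ, ∀ n : ℕ, N ≤ n →
          δ * (n : ℝ) ≤ ((Set.ncard {k : ℕ | k < n ∧ (T ^ k) x ∈ U} : ℕ) : ℝ)}) := by
  open Pool.Agent.H58.FRec in
  intro h
  rcases h ℝ (L Om) (T sh W W_pos W_bd) with h1 | h1
  · have hy := (Set.eq_univ_iff_forall.1 h1) yv (Metric.ball yv 1) (Metric.ball_mem_nhds _ one_pos)
    obtain ⟨δ, hδ, N, hN⟩ := hy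
    obtain ⟨n, hn⟩ := exists_nat_gt (1 / δ)
    have h2 := hN (n + N) (by omega)
    have h3 : {k : ℕ | k < n + N ∧ (T sh W W_pos W_bd ^ k) yv ∈ Metric.ball yv 1} ⊆ {0} := by
      intro k hk
      by_contra hc
      have := far k hc
      have h4 := hk.2
      rw [mem_ball_iff_norm] at h4
      linarith
    have h4 := Set.ncard_le_ncard h3 (Set.finite_singleton 0)
    rw [Set.ncard_singleton] at h4
    have h5 : δ * ((n + N : ℕ) : ℝ) ≤ 1 := h2.trans (by exact_mod_cast h4)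
    rw [div_lt_iff₀ hδ] at hn
    have := (Nat.cast_nonneg N : (0 : ℝ) ≤ N)
    push_cast at h5
    nlinarith
  · have h2 := residual_of (T sh W W_pos W_bd) (ces sh W W_pos W_bd W_ces)
      (dense_per sh W W_pos W_bd fun a => ⟨4 ^ (a.1 + 1), by positivity, by
        obtain ⟨j, a⟩ := a
        rw [sh_pow, ZMod.natCast_self, add_zero]⟩)
    have h3 := (dense_of_mem_residual (Filter.inter_mem h2 h1)).nonempty
    simp at h3

end Pool.Agent.S05050
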