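import Pool.Statements.S05072
import Pool.Agent.H96.Lib

set_option autoImplicit false
open Pool Pool.MP_75b936_an

namespace Pool.Agent.S05072

open Pool.Agent.H96.Lib in
/-- the generators -/
noncomputable def gen (g : ℝ → ℝ) : Fin 6 → ℝ → ℝ := ![g, db, hp 0, hp 1, ch 0, ch 1]

open Pool.Agent.H96.Lib in
theorem gen_cont (g : ℝ → ℝ) (hg : Continuous g) (i : Fin 6) : Continuous (gen g i) := by
  fin_cases i
  exacts [hg, continuous_id.add rd_cont, hp_cont 0, hp_cont 1, ch_cont 0, ch_cont 1]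

/-- evaluation of a polynomial in the generators -/
noncomputable def ev (g : ℝ → ℝ) (P : MvPolynomial (Fin 6) ℤ) (x : ℝ) : ℝ :=
  MvPolynomial.aeval (fun i => gen g i x) P

theorem ev_cont (g : ℝ → ℝ) (hg : Continuous g) (P : MvPolynomial (Fin 6) ℤ) : Continuous (ev g P) := by
  unfold ev
  induction P using MvPolynomial.induction_on with
  | C a => simpa using continuous_const
  | add p q hp hq => simpa using hp.fun_add hq
  | mul_X p i hp => simpa using hp.fun_mul (gen_cont g hg i)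

theorem ev_congr (g1 g2 : ℝ → ℝ) (P : MvPolynomial (Fin 6) ℤ) (x : ℝ) (h : g1 x = g2 x) :
    ev g1 P x = ev g2 P x := by
  unfold ev
  congr 2
  funext i
  fin_cases i <;> simp [gen, h]

open Pool.Agent.H96.Lib in
theorem foldr_rep (g : ℝ → ℝ) (k : ℕ) (j : Fin 6) (x : ℝ) :
    (List.replicate k (1 : Fin 6) ++ [j]).foldr (fun j y => gen g j y) x = db^[k] (gen g j x) := by
  induction k with
  | zero => simp
  | succ k ih =>
    rw [List.replicate_succ, List.cons_append, List.foldr_cons, ih, Function.iterate_succ_apply']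
    rfl

open Pool.Agent.H96.Lib in
theorem main : ∃ g : C(ℝ, ℝ), ∀ (P Q : MvPolynomial (Fin 6) ℤ) (q : ℚ), ∃ k l : ℕ, ∀ (p : ℤ) (x : ℝ),
    ch p x * g (db^[k] (hp p x)) = ch p x * pr (ev g P) (ev g Q) q x ∧
    ch p x * g (db^[l] (hp p x)) = ch p x * mn (ev g Q) q x ^ 2 := by
  haveI : Countable (MvPolynomial (Fin 6) ℤ) := by
    rw [← Cardinal.mk_le_aleph0_iff]
    exact MvPolynomial.cardinalMk_le_max_lift.trans (by simp)
  obtain ⟨e, he⟩ := exists_surjective_nat (MvPolynomial (Fin 6) ℤ × MvPolynomial (Fin 6) ℤ × ℚ × Bool)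
  obtain ⟨g, hg⟩ := library (fun g k => if (e k.unpair.1).2.2.2 then
      ⟨_, pr_cont _ _ (ev_cont g g.continuous (e k.unpair.1).1) (ev_cont g g.continuous (e k.unpair.1).2.1)
        (min (e k.unpair.1).2.2.1 ((k : ℝ) - 2))⟩
    else ⟨_, (mn_cont _ (ev_cont g g.continuous (e k.unpair.1).2.1)
        (min (e k.unpair.1).2.2.1 ((k : ℝ) - 2))).pow 2⟩) (by
      intro a g1 g2 k h hk x hx
      have h1 : ∀ P, Set.EqOn (ev g1 P) (ev g2 P)
          (Set.uIcc (min (e k.unpair.1).2.2.1 ((k : ℝ) - 2)) x) := fun P t ht =>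
        ev_congr _ _ _ _ (h (ht.2.trans (max_le ((min_le_right _ _).trans hk) hx)))
      split_ifs
      · exact pr_congr _ _ _ _ _ _ (h1 _) (h1 _)
      · exact congrArg (· ^ 2) (mn_congr _ _ _ _ (h1 _)))
  refine ⟨g, fun P Q q => ?_⟩
  obtain ⟨a, ha⟩ := he (P, Q, q, true)
  obtain ⟨b, hb⟩ := he (P, Q, q, false)
  have h1 : ∀ c : ℕ, min (q : ℝ) ((Nat.pair c ⌈(q : ℝ) + 2⌉₊ : ℕ) - 2) = q := by
    intro c
    have h2 : (⌈(q : ℝ) + 2⌉₊ : ℝ) ≤ (Nat.pair c ⌈(q : ℝ) + 2⌉₊ : ℕ) := by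
      exact_mod_cast Nat.right_le_pair _ _
    exact min_eq_left (by linarith [Nat.le_ceil ((q : ℝ) + 2)])
  refine ⟨Nat.pair a ⌈(q : ℝ) + 2⌉₊, Nat.pair b ⌈(q : ℝ) + 2⌉₊, fun p x => ⟨?_, ?_⟩⟩
  · rw [hg]
    simp only [Nat.unpair_pair, ha, if_true, ContinuousMap.coe_mk, h1]
  · rw [hg]
    simp only [Nat.unpair_pair, hb, Bool.false_eq_true, if_false, ContinuousMap.coe_mk, h1, Pi.pow_apply]

/-- The negation of the preceding statement: For any continuous f_1..f_n not all zero there are a rational combination R of them, defined on an open interval I, such that no antiderivative of R on I equals on I a rational combination of superpositions of the f_i. -/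
theorem result :
    ¬ (∀ n : ℕ, ∀ f : Fin n → ℝ → ℝ, (∀ i, Continuous (f i)) → (∃ i x, f i x ≠ 0) →
      ∃ (R : ℝ → ℝ) (I : Set ℝ), IsOpen I ∧ I.OrdConnected ∧ I.Nonempty ∧
        (∃ P Q : MvPolynomial (Fin n) ℤ, MvPolynomial.constantCoeff P = 0 ∧
          ((∀ x ∈ I, R x = MvPolynomial.aeval (fun i => f i x) P) ∨
           (MvPolynomial.constantCoeff Q = 0 ∧
             ∀ x ∈ I, MvPolynomial.aeval (fun i => f i x) Q ≠ 0 ∧
               R x = MvPolynomial.aeval (fun i => f i x) P /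
                 MvPolynomial.aeval (fun i => f i x) Q))) ∧
        ¬ ∃ F : ℝ → ℝ, (∀ x ∈ I, HasDerivAt F (R x) x) ∧
          ∃ P Q : MvPolynomial (Fin n × List (Fin n)) ℤ, MvPolynomial.constantCoeff P = 0 ∧
            ((∀ x ∈ I, F x =
                MvPolynomial.aeval
                  (fun v : Fin n × List (Fin n) => f v.1 (v.2.foldr (fun j y => f j y) x)) P) ∨
             (MvPolynomial.constantCoeff Q = 0 ∧
               ∀ x ∈ I,
                 MvPolynomial.aeval
                   (fun v : Fin n × List (Fin n) => f v.1 (v.2.foldr (fun j y => f j y) x)) Q ≠ 0 ∧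
                 F x =
                   MvPolynomial.aeval
                     (fun v : Fin n × List (Fin n) => f v.1 (v.2.foldr (fun j y => f j y) x)) P /
                   MvPolynomial.aeval
                     (fun v : Fin n × List (Fin n) => f v.1 (v.2.foldr (fun j y => f j y) x)) Q))) := by
  open Pool.Agent.H96.Lib in
  intro H
  obtain ⟨g, hg⟩ := main
  obtain ⟨R, I, hI1, hI2, ⟨x0, hx0⟩, ⟨P, Q, -, hR⟩, hn⟩ := H 6 (gen g) (gen_cont g g.continuous)
    ⟨1, 1, by
      have := rd_eq 1 1 (by norm_num)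
      change db 1 ≠ 0
      rw [db, this]; norm_num⟩
  obtain ⟨Q', hQ⟩ : ∃ Q', ∀ x ∈ I, ev g Q' x ≠ 0 ∧ R x = ev g P x / ev g Q' x := by
    rcases hR with h | h
    · exact ⟨1, fun x hx => by simp [ev, h x hx]⟩
    · exact ⟨Q, h.2⟩
  obtain ⟨q, hq⟩ := Rat.denseRange_cast.exists_mem_open hI1 ⟨x0, hx0⟩
  obtain ⟨k, l, hkl⟩ := hg P Q' q
  have hcont : ContinuousOn (fun t => ev g P t / ev g Q' t) I :=
    (ev_cont g g.continuous P).continuousOn.div (ev_cont g g.continuous Q').continuousOn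
      fun x hx => (hQ x hx).1
  refine hn ⟨fun x => ∫ t in (q : ℝ)..x, ev g P t / ev g Q' t, fun x hx => ?_,
    MvPolynomial.X (4, []) * MvPolynomial.X (0, List.replicate k 1 ++ [2]) +
      MvPolynomial.X (5, []) * MvPolynomial.X (0, List.replicate k 1 ++ [3]),
    MvPolynomial.X (4, []) * MvPolynomial.X (0, List.replicate l 1 ++ [2]) +
      MvPolynomial.X (5, []) * MvPolynomial.X (0, List.replicate l 1 ++ [3]),
    by simp, Or.inr ⟨by simp, fun x hx => ?_⟩⟩
  · rw [(hQ x hx).2]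
    exact intervalIntegral.integral_hasDerivAt_right
      ((hcont.mono (hI2.uIcc_subset hq hx)).intervalIntegrable)
      (hcont.stronglyMeasurableAtFilter hI1 x hx) (hcont.continuousAt (hI1.mem_nhds hx))
  · have h1 : ∀ t ∈ Set.uIcc (q : ℝ) x, ev g Q' t ≠ 0 := fun t ht => (hQ t (hI2.uIcc_subset hq hx ht)).1
    have h2 := mn_pos _ (ev_cont g g.continuous Q') _ _ h1
    have h3 := ch_pos x
    have h4 := hkl 0 x
    have h5 := hkl 1 x
    push_cast at h4 h5
    simp only [map_add, map_mul, MvPolynomial.aeval_X, foldr_rep, List.foldr_nil]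
    change ch 0 x * g (db^[l] (hp 0 x)) + ch 1 x * g (db^[l] (hp 1 x)) ≠ 0 ∧
      _ = (ch 0 x * g (db^[k] (hp 0 x)) + ch 1 x * g (db^[k] (hp 1 x))) /
        (ch 0 x * g (db^[l] (hp 0 x)) + ch 1 x * g (db^[l] (hp 1 x)))
    rw [h4.1, h4.2, h5.1, h5.2, pr_eq _ _ (ev_cont g g.continuous Q') _ _ h1, ← add_mul, ← add_mul]
    refine ⟨by positivity, ?_⟩
    field_simp

end Pool.Agent.S05072
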