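import Pool.Statements.S05077
import Pool.Agent.H56.Erg3

set_option autoImplicit false
open Pool Pool.MP_760d08_an

namespace Pool.Agent.S05077

/-- In every real uniformly convex Banach space, for every nonexpansive self-map U of the closed unit ball and every x in the ball, the averages (n+1)⁻¹ Σ_{j≤n} U^j x converge weakly to a fixed point of U. -/
theorem result :
    ∀ (X : Type) [NormedAddCommGroup X] [NormedSpace ℝ X] [CompleteSpace X]
      [UniformConvexSpace X] (U : X → X),
      Set.MapsTo U (Metric.closedBall (0 : X) 1) (Metric.closedBall (0 : X) 1) →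
      (∀ x ∈ Metric.closedBall (0 : X) 1, ∀ y ∈ Metric.closedBall (0 : X) 1,
          ‖U x - U y‖ ≤ ‖x - y‖) →
      ∀ x ∈ Metric.closedBall (0 : X) 1, ∃ p ∈ Metric.closedBall (0 : X) 1, U p = p ∧
        ∀ f : X →L[ℝ] ℝ,
          Filter.Tendsto
            (fun n : ℕ => f ((((n : ℝ) + 1)⁻¹) • ∑ j ∈ Finset.range (n + 1), U^[j] x))
            Filter.atTop (nhds (f p)) := by
  intro X _ _ _ _ U h1 h2 x hx
  simp only [Set.MapsTo, mem_closedBall_zero_iff] at h1 h2 hx ⊢
  have h : H56.Erg.NE U := ⟨fun x hx => h1 hx, fun x y hx hy => h2 x hx y hy⟩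
  simpa [H56.Erg.av] using H56.Erg.main h (fun n => (h.iter n).ball x hx) (H56.Erg.ao_av h hx)

end Pool.Agent.S05077
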