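import Pool.Statements.S05086

set_option autoImplicit false
open Pool Pool.MP_7697ea_an

namespace Pool.Agent.S05086

def g : ℕ → ℕ
  | 0 => 35831808
  | 1 => 128397312
  | 2 => 175426560
  | 3 => 114939648
  | 4 => 38816064
  | 5 => 7587216
  | 6 => 916356
  | 7 => 69805
  | 8 => 3279
  | 9 => 87
  | 10 => 1
  | _ => 0

theorem sum_tuple3 (n : ℕ) (F : (Fin 3 → ℕ) → ℂ) :
    ∑ k ∈ Finset.Nat.antidiagonalTuple 3 n, F k
      = ∑ a ∈ Finset.range (n + 1), ∑ b ∈ Finset.range (n + 1 - a), F ![a, b, n - a - b] := by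
  rw [Finset.sum_sigma']
  symm
  apply Finset.sum_nbij' (fun x => ![x.1, x.2, n - x.1 - x.2]) (fun k => ⟨k 0, k 1⟩)
  · rintro ⟨a, b⟩ h
    simp only [Finset.mem_sigma, Finset.mem_range] at h
    rw [Finset.Nat.mem_antidiagonalTuple, Fin.sum_univ_three]
    simp
    omega
  · intro k h
    rw [Finset.Nat.mem_antidiagonalTuple, Fin.sum_univ_three] at h
    simp only [Finset.mem_sigma, Finset.mem_range]
    omega
  · rintro ⟨a, b⟩ _
    simp
  · intro k h
    rw [Finset.Nat.mem_antidiagonalTuple, Fin.sum_univ_three] at h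
    funext i
    fin_cases i
    · simp
    · simp
    · simp; omega
  · intro x _
    rfl

def A (k : ℕ) (w : ℂ) : ℂ := ∏ i ∈ Finset.range k, (w + i)

theorem eval_poch (k : ℕ) (w : ℂ) : (ascPochhammer ℂ k).eval w = A k w := by
  unfold A
  induction k with
  | zero => simp
  | succ k ih => rw [ascPochhammer_succ_eval, Finset.prod_range_succ, ih]

theorem term_eq (a b c : ℕ) (z : ℂ) :
    (Nat.multinomial Finset.univ ![a, b, c] : ℂ) * (∏ i, (((g (![a, b, c] i) : ℝ)) : ℂ)) *
      Matrix.det (Matrix.of (fun i j : Fin 3 =>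
        (ascPochhammer ℂ (![a, b, c] i)).eval (z + ((j : ℕ) : ℂ) - ((i : ℕ) : ℂ))))
    = (((a + b + c).factorial / (a.factorial * b.factorial * c.factorial) * (g a * g b * g c) : ℕ) : ℂ) *
      (A a z * A b z * A c z - A a z * A b (z + 1) * A c (z - 1)
        - A a (z + 1) * A b (z - 1) * A c z + A a (z + 1) * A b (z + 1) * A c (z - 2)
        + A a (z + 2) * A b (z - 1) * A c (z - 1) - A a (z + 2) * A b z * A c (z - 2)) := by
  rw [Nat.multinomial_univ_three, Matrix.det_fin_three, Fin.prod_univ_three]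
  simp only [Matrix.of_apply, eval_poch]
  have e1 : z + 2 - 1 = z + 1 := by ring
  have e2 : z + 1 - 2 = z - 1 := by ring
  simp [e1, e2]

theorem P_eval (z : ℂ) : ∑ k ∈ Finset.Nat.antidiagonalTuple 3 10,
    (Nat.multinomial Finset.univ k : ℂ) * (∏ i, (((g (k i) : ℝ)) : ℂ)) *
      Matrix.det (Matrix.of (fun i j : Fin 3 =>
        (ascPochhammer ℂ (k i)).eval (z + ((j : ℕ) : ℂ) - ((i : ℕ) : ℂ))))
    = 3914924182102396108800 * (z + 2) * (z + 3) * (34823331 * z ^ 2 + 94032547 * z + 65431351) := by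
  rw [sum_tuple3]
  simp only [term_eq]
  simp only [Finset.sum_range_succ, Finset.sum_range_zero, g, Nat.factorial, Nat.reduceSub,
    Nat.reduceAdd, A, Finset.prod_range_succ, Finset.prod_range_zero, Nat.succ_eq_add_one,
    Nat.reduceMul, Nat.reduceDiv]
  push_cast
  ring

theorem result :
    ¬ (∀ (n : ℕ) (f : ℕ → ℝ), f n ≠ 0 →
      (∀ z : ℂ, ∑ k ∈ Finset.range (n + 1), (f k : ℂ) * z ^ k = 0 → z.im = 0 ∧ z.re < 0) →
      ∀ r : ℕ, 2 ≤ r →
        (∃ w : ℂ, ∑ k ∈ Finset.Nat.antidiagonalTuple r n,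
            (Nat.multinomial Finset.univ k : ℂ) * (∏ i, (f (k i) : ℂ)) *
              Matrix.det (Matrix.of (fun i j : Fin r =>
                (ascPochhammer ℂ (k i)).eval (w + ((j : ℕ) : ℂ) - ((i : ℕ) : ℂ)))) ≠ 0) →
        ∀ z : ℂ, ∑ k ∈ Finset.Nat.antidiagonalTuple r n,
            (Nat.multinomial Finset.univ k : ℂ) * (∏ i, (f (k i) : ℂ)) *
              Matrix.det (Matrix.of (fun i j : Fin r =>
                (ascPochhammer ℂ (k i)).eval (z + ((j : ℕ) : ℂ) - ((i : ℕ) : ℂ)))) = 0 →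
          z.im = 0 ∧ z.re < 0) := by
  intro h
  have h1 := h 10 (fun k => (g k : ℝ)) (by simp [g]) ?_ 3 (by norm_num)
    ⟨0, by rw [P_eval]; norm_num⟩
  · obtain ⟨s, hs⟩ : ∃ s : ℂ, s ^ 2 = 94032547 ^ 2 - 4 * 34823331 * 65431351 :=
      ⟨_, Complex.cpow_nat_inv_pow _ two_ne_zero⟩
    have h2 := (h1 ((-94032547 + s) / (2 * 34823331)) (by
      rw [P_eval]
      apply mul_eq_zero_of_right
      linear_combination (1 / (4 * 34823331) : ℂ) * hs)).1
    have h3 : s.im = 0 := by
      have : s = 2 * 34823331 * ((-94032547 + s) / (2 * 34823331)) + 94032547 := by ring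
      rw [this]
      generalize (-94032547 + s) / (2 * 34823331) = w at h2
      simp [h2]
    have h4 := congrArg Complex.re hs
    rw [sq, Complex.mul_re, h3] at h4
    norm_num at h4
    nlinarith [mul_self_nonneg s.re]
  · intro z hz
    have : (z + 1) ^ 3 * (z + 12) ^ 7 = 0 := by
      rw [← hz]
      simp only [Finset.sum_range_succ, Finset.sum_range_zero, g]
      push_cast
      ring
    rcases mul_eq_zero.1 this with h2 | h2
    · have := pow_eq_zero_iff (by norm_num) |>.1 h2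
      rw [show z = -1 by linear_combination this]; simp
    · have := pow_eq_zero_iff (by norm_num) |>.1 h2
      rw [show z = -12 by linear_combination this]; simp

end Pool.Agent.S05086
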