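import Pool.Statements.S05097
import Pool.Agent.H2.UbB

set_option autoImplicit false
open scoped ENNReal
open Pool Pool.MP_786be7_an

namespace Pool.Agent.S05097

/-- Every real Banach space with an equivalent norm Fréchet smooth off 0, density continuum, and a (long) unconditional basis admits a bi-Lipschitz map into ℓ∞ whose every coordinate is Gâteaux differentiable everywhere. -/
theorem result :
  ∀ (X : Type) [NormedAddCommGroup X] [NormedSpace ℝ X] [CompleteSpace X],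
    (∃ N : X → ℝ, (∀ x y : X, N (x + y) ≤ N x + N y) ∧
      (∀ (c : ℝ) (x : X), N (c • x) = |c| * N x) ∧
      (∃ a b : ℝ, 0 < a ∧ 0 < b ∧ ∀ x : X, a * ‖x‖ ≤ N x ∧ N x ≤ b * ‖x‖) ∧
      ∀ x : X, x ≠ 0 → DifferentiableAt ℝ N x) →
    ((∃ D : Set X, Dense D ∧ Cardinal.mk ↥D = Cardinal.continuum) ∧
      ∀ D : Set X, Dense D → Cardinal.continuum ≤ Cardinal.mk ↥D) →
    (∃ (Γ : Type) (e : Γ → X) (f : Γ → X →L[ℝ] ℝ),
      (∀ i : Γ, f i (e i) = 1) ∧ (∀ i j : Γ, i ≠ j → f i (e j) = 0) ∧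
      ∀ x : X, HasSum (fun γ : Γ => f γ x • e γ) x) →
    ∃ (φ : X → lp (fun _ : ℕ => ℝ) ∞) (K L : NNReal),
      LipschitzWith K φ ∧ AntilipschitzWith L φ ∧
      ∀ (j : ℕ) (x : X), ∃ g : X →L[ℝ] ℝ, ∀ h : X,
        HasDerivAt (fun t : ℝ => φ (x + t • h) j) (g h) 0 := by
  intro X _ _ _ hN hD hB
  obtain ⟨N, hN1, hN2, ⟨a, b, ha, hb, hN3⟩, hN4⟩ := hN
  obtain ⟨⟨D, hD1, hD2⟩, -⟩ := hD
  obtain ⟨Γ, e, f, h1, h0, hs⟩ := hB
  let B : Pool.Agent.H2.Ub.Bas X Γ := ⟨e, f, h1, h0, hs⟩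
  obtain ⟨ι, hι⟩ := B.exists_inj D hD1 hD2
  obtain ⟨p, c, C, hc, hC, hp, hm, hl⟩ :=
    B.exists_lattice (Seminorm.of N hN1 fun c x => hN2 c x) a b ha hb hN3 hN4
  exact B.main p c C hc hC hp hm hl ι hι

end Pool.Agent.S05097
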