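import Pool.Statements.S05106
import Pool.Agent.H97.Wave

set_option autoImplicit false
open Pool Pool.MP_7987d1_an

namespace Pool.Agent.S05106

/-- The negation of the preceding statement: For 1≤n≤8, every C² solution of Δu−u_t=u³−u for t<0 with ∣u∣≤1, ∂u/∂x_n>0 and u_t≥0 has the form u(x,t)=g(ν·x) for a unit vector ν, i.e. is one-dimensional and time-independent. -/
theorem result :
    ¬ (∀ m : ℕ, m + 1 ≤ 8 → ∀ u : EuclideanSpace ℝ (Fin (m + 1)) × ℝ → ℝ,
    ContDiffOn ℝ 2 u {p | p.2 < 0} →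
    (∀ x : EuclideanSpace ℝ (Fin (m + 1)), ∀ t : ℝ, t < 0 →
      |u (x, t)| ≤ 1 ∧
      (∑ i : Fin (m + 1), iteratedFDeriv ℝ 2 (fun y => u (y, t)) x
          (fun _ => EuclideanSpace.single i (1 : ℝ)))
        - deriv (fun s => u (x, s)) t = u (x, t) ^ 3 - u (x, t) ∧
      0 < fderiv ℝ (fun y => u (y, t)) x (EuclideanSpace.single (Fin.last m) (1 : ℝ)) ∧
      0 ≤ deriv (fun s => u (x, s)) t) →
    ∃ ν : EuclideanSpace ℝ (Fin (m + 1)), ‖ν‖ = 1 ∧
      ∃ g : ℝ → ℝ, ∀ x : EuclideanSpace ℝ (Fin (m + 1)), ∀ t : ℝ, t < 0 →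
        u (x, t) = g (inner ℝ ν x)) := by
  intro h
  obtain ⟨ν, -, g, hg⟩ := h 0 (by norm_num) Pool.Agent.H97.Wave.u
    Pool.Agent.H97.Wave.smooth.contDiffOn (by
      intro x t _
      have h0 := Pool.Agent.H97.Wave.u_pos (x, t)
      have h1 := Pool.Agent.H97.Wave.u_lt (x, t)
      have ha := Pool.Agent.H97.Wave.a_pos
      have hp : 0 < Pool.Agent.H97.Wave.u (x, t) * (1 - Pool.Agent.H97.Wave.u (x, t)) :=
        mul_pos h0 (by linarith)
      refine ⟨by rw [abs_of_pos h0]; exact h1.le, ?_, ?_, ?_⟩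
      · rw [Fin.sum_univ_succ, iteratedFDeriv_two_apply, Pool.Agent.H97.Wave.hxx,
          (Pool.Agent.H97.Wave.ht x t).deriv, Pool.Agent.H97.Wave.L_single,
          Pool.Agent.H97.Wave.a_sq]
        simp only [Finset.univ_eq_empty, Finset.sum_empty]
        ring
      · rw [Pool.Agent.H97.Wave.fderiv_x]
        have : (Fin.last 0) = (0 : Fin (0 + 1)) := rfl
        rw [this, smul_apply, Pool.Agent.H97.Wave.L_single]
        exact mul_pos hp ha
      · rw [(Pool.Agent.H97.Wave.ht x t).deriv]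
        positivity)
  apply Pool.Agent.H97.Wave.ne
  rw [hg 0 (-1) (by norm_num), hg 0 (-2) (by norm_num)]

end Pool.Agent.S05106
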