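import Pool.Statements.S05124
import Mathlib
import Pool.Agent.H93.ExC

set_option autoImplicit false
open Topology
open Pool Pool.MP_7b2682_an

namespace Pool.Agent.S05124

/-- The negation of the preceding statement: For every real or complex Banach space X and bounded operator T, if the vectors whose return sets to each neighbourhood have positive lower density are dense, then some dense linear subspace consists entirely of such vectors. -/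
theorem result :
    ¬ (∀ (𝕜 : Type) [RCLike 𝕜] (X : Type) [NormedAddCommGroup X] [NormedSpace 𝕜 X]
      [CompleteSpace X] (T : X →L[𝕜] X),
      Dense {x : X | ∀ U ∈ 𝓝 x, ∃ δ : ℝ, 0 < δ ∧ ∃ N₀ : ℕ, ∀ N : ℕ, N₀ ≤ N →
          δ * (N : ℝ) ≤ (({n : ℕ | 1 ≤ n ∧ n ≤ N ∧ (T ^ n) x ∈ U}.ncard : ℕ) : ℝ)} →
      ∃ M : Submodule 𝕜 X, Dense (M : Set X) ∧
        (M : Set X) ⊆ {x : X | ∀ U ∈ 𝓝 x, ∃ δ : ℝ, 0 < δ ∧ ∃ N₀ : ℕ, ∀ N : ℕ, N₀ ≤ N →
          δ * (N : ℝ) ≤ (({n : ℕ | 1 ≤ n ∧ n ≤ N ∧ (T ^ n) x ∈ U}.ncard : ℕ) : ℝ)}) := by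
  intro h
  obtain ⟨X, _, _, _, T, h1, h2, -⟩ := Pool.Agent.H93.ExC.exC
  have e : ∀ (n : ℕ) (x : X), (T ^ n) x = T^[n] x := fun n x => by
    rw [FunLike.coe_pow_eq_iterate]
  obtain ⟨M, hM, hs⟩ := h ℝ X T (by simp only [e]; exact h1)
  obtain ⟨x, hx, U, hU, hz⟩ := h2 M hM
  obtain ⟨δ, hδ, N₀, hN⟩ := hs hx U hU
  obtain ⟨N₁, hN₁⟩ := hz δ hδ
  have h3 := hN (N₀ + N₁ + 1) (by omega)
  simp only [e] at h3
  exact absurd (hN₁ (N₀ + N₁ + 1) (by omega)) (not_lt.2 h3)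

end Pool.Agent.S05124
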