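import Pool.Statements.S05159
import Pool.Agent.H41.Bd11

set_option autoImplicit false
open Pool Pool.MP_7d8448_an

namespace Pool.Agent.S05159

/-- There is a holomorphic f on the bidisk in H^2 such that every H^1 function is an H^1-limit of polynomial multiples of f, but not every H^2 function is an H^2-limit of polynomial multiples of f. -/
theorem result :
  ∃ f : ℂ × ℂ → ℂ,
    DifferentiableOn ℂ f (Metric.ball (0 : ℂ × ℂ) 1) ∧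
    (⨆ r ∈ Set.Ioo (0:ℝ) 1,
        ∫⁻ x in Set.Icc (0:ℝ) (2 * Real.pi) ×ˢ Set.Icc (0:ℝ) (2 * Real.pi),
          (‖f ((r:ℂ) * Complex.exp ((x.1:ℂ) * Complex.I),
               (r:ℂ) * Complex.exp ((x.2:ℂ) * Complex.I))‖ₑ) ^ (2:ℝ)) < ⊤ ∧
    (∀ g : ℂ × ℂ → ℂ, DifferentiableOn ℂ g (Metric.ball (0 : ℂ × ℂ) 1) →
      (⨆ r ∈ Set.Ioo (0:ℝ) 1,
        ∫⁻ x in Set.Icc (0:ℝ) (2 * Real.pi) ×ˢ Set.Icc (0:ℝ) (2 * Real.pi),
          (‖g ((r:ℂ) * Complex.exp ((x.1:ℂ) * Complex.I),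
               (r:ℂ) * Complex.exp ((x.2:ℂ) * Complex.I))‖ₑ) ^ (1:ℝ)) < ⊤ →
      ∀ ε : ENNReal, 0 < ε → ∃ P : MvPolynomial (Fin 2) ℂ,
        (⨆ r ∈ Set.Ioo (0:ℝ) 1,
          ∫⁻ x in Set.Icc (0:ℝ) (2 * Real.pi) ×ˢ Set.Icc (0:ℝ) (2 * Real.pi),
            (‖MvPolynomial.eval ![(r:ℂ) * Complex.exp ((x.1:ℂ) * Complex.I),
                                  (r:ℂ) * Complex.exp ((x.2:ℂ) * Complex.I)] P *
                f ((r:ℂ) * Complex.exp ((x.1:ℂ) * Complex.I),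
                   (r:ℂ) * Complex.exp ((x.2:ℂ) * Complex.I)) -
              g ((r:ℂ) * Complex.exp ((x.1:ℂ) * Complex.I),
                 (r:ℂ) * Complex.exp ((x.2:ℂ) * Complex.I))‖ₑ) ^ (1:ℝ)) < ε) ∧
    ¬ (∀ g : ℂ × ℂ → ℂ, DifferentiableOn ℂ g (Metric.ball (0 : ℂ × ℂ) 1) →
      (⨆ r ∈ Set.Ioo (0:ℝ) 1,
        ∫⁻ x in Set.Icc (0:ℝ) (2 * Real.pi) ×ˢ Set.Icc (0:ℝ) (2 * Real.pi),
          (‖g ((r:ℂ) * Complex.exp ((x.1:ℂ) * Complex.I),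
               (r:ℂ) * Complex.exp ((x.2:ℂ) * Complex.I))‖ₑ) ^ (2:ℝ)) < ⊤ →
      ∀ ε : ENNReal, 0 < ε → ∃ P : MvPolynomial (Fin 2) ℂ,
        (⨆ r ∈ Set.Ioo (0:ℝ) 1,
          ∫⁻ x in Set.Icc (0:ℝ) (2 * Real.pi) ×ˢ Set.Icc (0:ℝ) (2 * Real.pi),
            (‖MvPolynomial.eval ![(r:ℂ) * Complex.exp ((x.1:ℂ) * Complex.I),
                                  (r:ℂ) * Complex.exp ((x.2:ℂ) * Complex.I)] P *
                f ((r:ℂ) * Complex.exp ((x.1:ℂ) * Complex.I),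
                   (r:ℂ) * Complex.exp ((x.2:ℂ) * Complex.I)) -
              g ((r:ℂ) * Complex.exp ((x.1:ℂ) * Complex.I),
                 (r:ℂ) * Complex.exp ((x.2:ℂ) * Complex.I))‖ₑ) ^ (2:ℝ)) < ε) := by
  exact Pool.Agent.H41.Bd.main5

end Pool.Agent.S05159
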