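import Pool.Statements.S05168
import Pool.Agent.H60.HSe

set_option autoImplicit false
open MeasureTheory
open Pool Pool.MP_7dd24e_an

namespace Pool.Agent.S05168

/-- The negation of the preceding statement: If two nested topological spheres in R^3 bound a shell whose Newtonian potential is constant in the inner cavity, then the two surfaces are the images of concentric spheres of radii 1 and k<1 under one invertible affine map. -/
theorem result :
    ¬ (∀ (S S₁ U T₁ : Set (EuclideanSpace ℝ (Fin 3))),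
    Nonempty (S ≃ₜ Metric.sphere (0 : EuclideanSpace ℝ (Fin 3)) 1) →
    Nonempty (S₁ ≃ₜ Metric.sphere (0 : EuclideanSpace ℝ (Fin 3)) 1) →
    IsOpen U → IsConnected U → Bornology.IsBounded U → frontier U = S →
    IsOpen T₁ → IsConnected T₁ → Bornology.IsBounded T₁ → frontier T₁ = S₁ →
    closure T₁ ⊆ U →
    (∃ c : ℝ, ∀ P ∈ T₁, ∫ M in U \ closure T₁, (dist P M)⁻¹ = c) →
    ∃ (f : EuclideanSpace ℝ (Fin 3) ≃ᵃ[ℝ] EuclideanSpace ℝ (Fin 3)) (k : ℝ),
      0 < k ∧ k < 1 ∧
      S = f '' Metric.sphere (0 : EuclideanSpace ℝ (Fin 3)) 1 ∧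
      S₁ = f '' Metric.sphere (0 : EuclideanSpace ℝ (Fin 3)) k) := by
  intro H
  obtain ⟨D, hS, hD, c, hc⟩ := Pool.Agent.H60.HS.main
  have hU := Pool.Agent.H60.HS.DU_star
  obtain ⟨f, k, -, -, e, -⟩ := H _ _ _ _ hU.homeo hS.homeo isOpen_interior hU.conn
    (hU.cp.isBounded.subset interior_subset) rfl isOpen_interior hS.conn
    (hS.cp.isBounded.subset interior_subset) rfl (by rw [hS.clo]; exact hD)
    ⟨c, fun P hP => by rw [hS.clo]; exact hc P (interior_subset hP)⟩
  exact Pool.Agent.H60.HS.not_ell f e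

end Pool.Agent.S05168
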