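import Pool.Statements.S05202
import Pool.Agent.H62.Gab4

set_option autoImplicit false
open MeasureTheory
open Pool Pool.MP_7f688b_an

namespace Pool.Agent.S05202

/-- The negation of the preceding statement: For every measurable E in R^d of positive finite measure whose L2(E) has an orthogonal exponential basis, some set S of pairs (a,b) makes the functions 1_E(x-a)e^{-2πi x·b} an orthogonal basis of L2(R^d). -/
theorem result :
    ¬ (∀ (d : ℕ) (E : Set (EuclideanSpace ℝ (Fin d))),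
    MeasurableSet E → 0 < volume E → volume E < ⊤ →
    (∃ Λ : Set (EuclideanSpace ℝ (Fin d)),
      (∀ l ∈ Λ, ∀ l' ∈ Λ, l ≠ l' →
        ∫ x in E, Complex.exp (2 * (Real.pi : ℂ) * Complex.I * ((inner ℝ x (l - l') : ℝ) : ℂ)) = 0) ∧
      (∀ f : EuclideanSpace ℝ (Fin d) → ℂ, MemLp f 2 (volume.restrict E) →
        (∀ l ∈ Λ, ∫ x in E, f x * Complex.exp (-(2 * (Real.pi : ℂ) * Complex.I * ((inner ℝ x l : ℝ) : ℂ))) = 0) →
        f =ᵐ[volume.restrict E] 0)) →
    ∃ S : Set (EuclideanSpace ℝ (Fin d) × EuclideanSpace ℝ (Fin d)),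
      (∀ p ∈ S, ∀ q ∈ S, p ≠ q →
        ∫ x, (E.indicator (fun _ => (1 : ℂ)) (x - p.1) *
              Complex.exp (-(2 * (Real.pi : ℂ) * Complex.I * ((inner ℝ x p.2 : ℝ) : ℂ)))) *
            starRingEnd ℂ (E.indicator (fun _ => (1 : ℂ)) (x - q.1) *
              Complex.exp (-(2 * (Real.pi : ℂ) * Complex.I * ((inner ℝ x q.2 : ℝ) : ℂ)))) = 0) ∧
      (∀ f : EuclideanSpace ℝ (Fin d) → ℂ, MemLp f 2 volume →
        (∀ p ∈ S, ∫ x, f x * starRingEnd ℂ (E.indicator (fun _ => (1 : ℂ)) (x - p.1) *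
              Complex.exp (-(2 * (Real.pi : ℂ) * Complex.I * ((inner ℝ x p.2 : ℝ) : ℂ)))) = 0) →
        f =ᵐ[volume] 0)) := by
  open Pool.Agent.H62.Gab Pool.Agent.H92.CellGabor in
  · intro h
    have e1 : ∀ x b : V 3, Complex.exp (-(2 * (Real.pi : ℂ) * Complex.I * ((inner ℝ x b : ℝ) : ℂ))) = ee x b :=
      fun x b => by rw [ee]; congr 1; ring
    refine (h 3 (EA A6) (meas_EA _) (by rw [vol_EA]; exact_mod_cast (by decide : 0 < A6.card))
      (fin_EA _) ⟨{l | ∃ j k, l = fr (ℓ j) + ι k}, ?_, fun f hf H => spec_complete A6 _ spec_inv hf fun j k => ?_⟩).elim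
      fun S ⟨h1, h2⟩ => ?_
    · rintro _ ⟨j, k, rfl⟩ _ ⟨j', k', rfl⟩ hne
      refine Eq.trans ?_ (spec_orth j' j k' k hne.symm)
      congr 1; ext x
      rw [← e1, ← neg_sub, inner_neg_right]
      congr 1; push_cast; ring
    · simpa only [e1] using H _ ⟨j, k, rfl⟩
    · simp only [e1] at h1 h2
      exact no_gabor S h1 h2

end Pool.Agent.S05202
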