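import Pool.Statements.S05205
import Pool.Agent.H99.Wp3

set_option autoImplicit false
open Pool Pool.MP_7f7d18_an

namespace Pool.Agent.S05205

/-- For every compact non-polar K in the reals with equilibrium measure μ, every p ≥ 1, n ≥ 1 and real monic P of degree n: the integral of ∣P∣^p against μ is at least (2^p/√π)·Γ((p+1)/2)/Γ(p/2+1)·cap(K)^(np). -/
theorem result :
    ∀ (K : Set ℝ), IsCompact K → ∀ (D : ℝ), Metric.diam K < D →
    ∀ (μ : MeasureTheory.Measure ℝ), MeasureTheory.IsProbabilityMeasure μ → μ Kᶜ = 0 →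
    (∫⁻ x, ∫⁻ y, (if x = y then (⊤ : ENNReal) else ENNReal.ofReal (Real.log (D / |x - y|))) ∂μ ∂μ) < ⊤ →
    (∀ ν : MeasureTheory.Measure ℝ, MeasureTheory.IsProbabilityMeasure ν → ν Kᶜ = 0 →
      (∫⁻ x, ∫⁻ y, (if x = y then (⊤ : ENNReal) else ENNReal.ofReal (Real.log (D / |x - y|))) ∂μ ∂μ)
        ≤ (∫⁻ x, ∫⁻ y, (if x = y then (⊤ : ENNReal) else ENNReal.ofReal (Real.log (D / |x - y|))) ∂ν ∂ν)) →
    ∀ p : ℝ, 1 ≤ p → ∀ n : ℕ, 1 ≤ n → ∀ P : Polynomial ℝ, P.Monic → P.natDegree = n →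
      (2 : ℝ) ^ p / Real.sqrt Real.pi * Real.Gamma ((p + 1) / 2) / Real.Gamma (p / 2 + 1)
        * (D * Real.exp (-(∫⁻ x, ∫⁻ y, (if x = y then (⊤ : ENNReal) else ENNReal.ofReal (Real.log (D / |x - y|))) ∂μ ∂μ).toReal)) ^ ((n : ℝ) * p)
      ≤ ∫ x, |P.eval x| ^ p ∂μ := by
  intro K hK D hD μ _ hμ hE hmin p hp n hn P hP hd
  obtain ⟨h1, h2⟩ := Pool.Agent.H99.Wp.frostman hK hD μ hμ hE hmin
  have h3 := Pool.Agent.H99.Wp.main h1 h2 hK hμ hp hn hP hd
  have hD0 : 0 < D := Metric.diam_nonneg.trans_lt hD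
  rw [Pool.Agent.H99.Wp.cos_integral hp, Real.mul_rpow (by norm_num) (by positivity),
    ← Real.rpow_natCast_mul (Real.exp_pos _).le, sub_eq_add_neg, Real.exp_add,
    Real.exp_log hD0] at h3
  refine le_of_mul_le_mul_left (le_of_eq_of_le ?_ h3) (by positivity)
  have h4 := Real.mul_self_sqrt Real.pi_pos.le
  have h5 : 0 < Real.sqrt Real.pi := by positivity
  simp only [Pool.Agent.H99.Wp.kk]
  nth_rewrite 1 [← h4]
  field_simp

end Pool.Agent.S05205
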