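import Pool.Statements.S05214
import Pool.Agent.H91.Discrete

set_option autoImplicit false
open Pool Pool.MP_80a07b_an

namespace Pool.Agent.S05214

theorem result :
    ¬ (∃ (X : Type) (_ : NormedAddCommGroup X) (_ : NormedSpace ℝ X), CompleteSpace X ∧
      (∀ φ : (X →L[ℝ] ℝ) →L[ℝ] ℝ, ∃ x : X, ∀ f : X →L[ℝ] ℝ, φ f = f x) ∧
      ∃ G : Subgroup (X →L[ℝ] X)ˣ, (G : Set (X →L[ℝ] X)ˣ).Infinite ∧
        (∃ C : ℝ, ∀ g ∈ G, ‖g.val‖ ≤ C) ∧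
        (∀ g ∈ G, ∃ s : Finset X, ∀ x : X, g.val x - x ∈ Submodule.span ℝ (s : Set X)) ∧
        (∀ g ∈ G, ∃ s : Finset X, ∃ ε : ℝ, 0 < ε ∧ ∀ h ∈ G,
          (∀ x ∈ s, ‖h.val x - g.val x‖ < ε) → h = g)) := by
  rintro ⟨X, _, _, _, hr, G, hinf, hC, hF, hd⟩
  apply hinf
  apply Pool.Agent.H91.Discrete.main hr G hC
  · intro g hg
    obtain ⟨s, hs⟩ := hF g hg
    exact ⟨1, norm_one, s, fun x => by rw [one_smul]; exact hs x⟩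
  · exact hd 1 G.one_mem

end Pool.Agent.S05214
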