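import Pool.Statements.S05217
import Pool.Agent.H60.UPf

set_option autoImplicit false
open Pool Pool.MP_81537f_an

namespace Pool.Agent.S05217

/-- For every p ≥ 1, if f with f(0)=1 lies in V_{2p} but not V_{2p−2}, then f's Taylor series never has 2p+2 consecutive zero coefficients. V_{2p} means: a real entire function of genus ≤ 2p+1 with only real zeros, times exp(−a z^{2p+2}) with a ≥ 0. -/
theorem result :
    ∀ p : ℕ, 1 ≤ p → ∀ f : ℂ → ℂ,
      (∃ (c : ℂ) (m : ℕ) (a : ℝ) (β : Polynomial ℝ) (y : ℕ → ℝ),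
        0 ≤ a ∧ β.natDegree ≤ 2 * p + 1 ∧ Summable (fun n => |y n| ^ (2 * p + 2)) ∧
        ∀ z : ℂ, f z = c * z ^ m *
          Complex.exp (-(a : ℂ) * z ^ (2 * p + 2) + Polynomial.aeval z β) *
          ∏' n, ((1 - (y n : ℂ) * z) *
            Complex.exp (∑ j ∈ Finset.Icc 1 (2 * p + 1), ((y n : ℂ) * z) ^ j / (j : ℂ)))) →
      (¬ ∃ (c : ℂ) (m : ℕ) (a : ℝ) (β : Polynomial ℝ) (y : ℕ → ℝ),
        0 ≤ a ∧ β.natDegree ≤ 2 * p - 1 ∧ Summable (fun n => |y n| ^ (2 * p)) ∧
        ∀ z : ℂ, f z = c * z ^ m *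
          Complex.exp (-(a : ℂ) * z ^ (2 * p) + Polynomial.aeval z β) *
          ∏' n, ((1 - (y n : ℂ) * z) *
            Complex.exp (∑ j ∈ Finset.Icc 1 (2 * p - 1), ((y n : ℂ) * z) ^ j / (j : ℂ)))) →
      f 0 = 1 →
      ¬ ∃ n : ℕ, ∀ j : ℕ, j < 2 * p + 2 → iteratedDeriv (n + j) f 0 = 0 := by
  rintro p hp f ⟨c, m, a, β, y, ha, hβ, hy, hf⟩ hnot hf0 ⟨n, hn⟩
  have h0 := hf 0
  have hs0 : ∀ n, (1 - (y n : ℂ) * 0) * Complex.exp
      (∑ j ∈ Finset.Icc 1 (2 * p + 1), ((y n : ℂ) * 0) ^ j / (j : ℂ)) = 1 := by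
    intro n
    rw [Finset.sum_eq_zero (fun j hj => by
      rw [mul_zero, zero_pow (by have := (Finset.mem_Icc.1 hj).1; omega), zero_div])]
    simp
  simp only [hs0, tprod_one, mul_one, hf0] at h0
  have hm : m = 0 := by
    by_contra h
    rw [zero_pow h] at h0
    simp at h0
  subst hm
  rw [pow_zero, mul_one, zero_pow (by omega), mul_zero, zero_add] at h0
  have hβ0 : Polynomial.aeval (0 : ℂ) β = ((β.coeff 0 : ℝ) : ℂ) := by
    rw [Polynomial.coeff_zero_eq_eval_zero]
    simpa using Polynomial.aeval_ofReal (K := ℂ) β 0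
  obtain ⟨N, y', h1, h2⟩ := Pool.Agent.H60.UP.main (d := 2 * p + 1) (y := y) (a := a)
    (β := β - Polynomial.C (β.coeff 0)) (f := f) (n := n) ⟨p + 1, by ring⟩ hy ha
    ((Polynomial.natDegree_sub_le _ _).trans (by simpa using hβ)) (fun z => by
      rw [hf z, pow_zero, mul_one]
      congr 1
      rw [map_sub, Polynomial.aeval_C, ← add_sub_assoc, Complex.exp_sub,
        eq_div_iff (Complex.exp_ne_zero _), mul_right_comm]
      rw [hβ0] at h0
      erw [← h0]
      rw [one_mul]) hf0 hn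
  refine hnot ⟨1, 0, 0, -∑ i ∈ Finset.range N, ∑ j ∈ Finset.Icc 1 (2 * p - 1),
    Polynomial.C (y' i ^ j / j) * Polynomial.X ^ j, y', le_rfl, ?_, ?_, fun z => ?_⟩
  · rw [Polynomial.natDegree_neg]
    refine Polynomial.natDegree_sum_le_of_forall_le _ _ fun k _ => ?_
    refine Polynomial.natDegree_sum_le_of_forall_le _ _ fun j hj => ?_
    exact (Polynomial.natDegree_C_mul_X_pow_le _ _).trans (Finset.mem_Icc.1 hj).2
  · refine summable_of_ne_finset_zero (s := Finset.range N) fun n hn => ?_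
    rw [h1 n (by simpa using hn), abs_zero, zero_pow (by omega)]
  · rw [h2 z, tprod_eq_prod (s := Finset.range N) (fun n hn => by
      rw [h1 n (by simpa using hn), Finset.sum_eq_zero (fun j hj => by
        rw [Complex.ofReal_zero, zero_mul,
          zero_pow (by have := (Finset.mem_Icc.1 hj).1; omega), zero_div])]
      simp), Finset.prod_mul_distrib, ← Complex.exp_sum, pow_zero, one_mul, one_mul,
      mul_left_comm, ← Complex.exp_add]
    have : -((0 : ℝ) : ℂ) * z ^ (2 * p) + Polynomial.aeval z (-∑ i ∈ Finset.range N,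
        ∑ j ∈ Finset.Icc 1 (2 * p - 1), Polynomial.C (y' i ^ j / j) * Polynomial.X ^ j) +
        ∑ i ∈ Finset.range N, ∑ j ∈ Finset.Icc 1 (2 * p - 1), ((y' i : ℂ) * z) ^ j / (j : ℂ)
        = 0 := by
      simp only [map_neg, map_sum, map_mul, Polynomial.aeval_C, map_pow, Polynomial.aeval_X,
        Complex.coe_algebraMap, mul_pow]
      push_cast
      simp only [div_mul_eq_mul_div]
      ring
    rw [this, Complex.exp_zero, mul_one]

end Pool.Agent.S05217
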