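import Pool.Statements.S05220
import Pool.Agent.H28.Equi4

set_option autoImplicit false
open MeasureTheory
open Pool Pool.MP_816d1e_an

namespace Pool.Agent.S05220

/-- The negation of the preceding statement: Let K be a compact non-polar subset of the reals whose logarithmic equilibrium measure equals the h-Hausdorff measure restricted to K, for some continuous nondecreasing h with h(0)=0. Then K has Hausdorff dimension 0. -/
theorem result :
    ¬ (∀ (K : Set ℝ), IsCompact K →
  ∀ (h : NNReal → NNReal), Continuous h → Monotone h → h 0 = 0 →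
  ∀ (μ : Measure ℝ), IsProbabilityMeasure μ → μ Kᶜ = 0 →
  (∃ ν : Measure ℝ, IsProbabilityMeasure ν ∧ ν Kᶜ = 0 ∧
      (∫⁻ x, ∫⁻ y, (if x = y then (⊤ : ENNReal)
          else ENNReal.ofReal (Real.log (Metric.diam K + 1) - Real.log (dist x y))) ∂ν ∂ν) < ⊤) →
  (∀ ν : Measure ℝ, IsProbabilityMeasure ν → ν Kᶜ = 0 →
      (∫⁻ x, ∫⁻ y, (if x = y then (⊤ : ENNReal)
          else ENNReal.ofReal (Real.log (Metric.diam K + 1) - Real.log (dist x y))) ∂μ ∂μ)
        ≤ (∫⁻ x, ∫⁻ y, (if x = y then (⊤ : ENNReal)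
          else ENNReal.ofReal (Real.log (Metric.diam K + 1) - Real.log (dist x y))) ∂ν ∂ν)) →
  μ = (Measure.mkMetric (fun r : ENNReal => ((h r.toNNReal : NNReal) : ENNReal))).restrict K →
  dimH K = 0) := by
  intro H
  open Pool.Agent.H28.Equi in
  have hK : Set.range (pr 0) ⊆ Set.Icc (-1) 1 := by
    rintro _ ⟨η, rfl⟩; exact abs_le.1 (pr_abs 0 η)
  open Pool.Agent.H28.Equi in
  have hb : Bornology.IsBounded (Set.range (pr 0)) := (Metric.isBounded_Icc _ _).subset hK
  open Pool.Agent.H28.Equi in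
  have hd : Metric.diam (Set.range (pr 0)) ≤ 2 :=
    (Metric.diam_mono hK (Metric.isBounded_Icc _ _)).trans (by rw [Real.diam_Icc] <;> norm_num)
  open Pool.Agent.H28.Equi in
  have key : ∀ ν : Measure ℝ, IsProbabilityMeasure ν → ν (Set.range (pr 0))ᶜ = 0 →
      (∫⁻ x, ∫⁻ y, (if x = y then (⊤ : ENNReal) else ENNReal.ofReal
        (Real.log (Metric.diam (Set.range (pr 0)) + 1) - Real.log (dist x y))) ∂ν ∂ν) +
        ENNReal.ofReal (Real.log 3 - Real.log (Metric.diam (Set.range (pr 0)) + 1)) = En Lk ν ν := by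
    intro ν _ hν
    have ae : ∀ᵐ x ∂ν, x ∈ Set.range (pr 0) := hν
    have cs : ∀ (f : ℝ → ENNReal) (c : ENNReal), ∫⁻ x, f x ∂ν + c = ∫⁻ x, f x + c ∂ν := by
      intro f c; rw [lintegral_add_right _ measurable_const]; simp
    rw [cs]
    refine lintegral_congr_ae (ae.mono fun x hx => ?_)
    simp only
    rw [cs]
    refine lintegral_congr_ae (ae.mono fun y hy => ?_)
    simp only [Lk]
    split_ifs with e
    · simp
    · have h0 := Metric.diam_nonneg (s := Set.range (pr 0))
      rw [← ENNReal.ofReal_add (sub_nonneg.2 (Real.log_le_log (dist_pos.2 e)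
        ((Metric.dist_le_diam_of_mem hb hx hy).trans (by linarith))))
        (sub_nonneg.2 (Real.log_le_log (by linarith) (by linarith)))]
      congr 1; ring
  open Pool.Agent.H28.Equi in
  obtain ⟨c, hc, hV⟩ := VV_const
  open Pool.Agent.H28.Equi in
  have hmin := fun (ν : Measure ℝ) [IsProbabilityMeasure ν] hν => energy_min hK mu ν mu_K hν hc (by
    rintro _ ⟨ω, rfl⟩
    rw [mu, lintegral_map (Lk_meas _) (pr_cont 0).measurable]
    exact hV ω)
  open Pool.Agent.H28.Equi in
  refine dim_pos (H _ (isCompact_range (pr_cont 0)) hh hh_cont hh_mono hh_zero mu mu_prob mu_K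
    ⟨mu, mu_prob, mu_K, ?_⟩ (fun ν _ hν => ?_) mu_eq)
  · exact lt_of_le_of_lt (le_self_add.trans ((key _ inferInstance Pool.Agent.H28.Equi.mu_K).trans
      (hmin _ Pool.Agent.H28.Equi.mu_K).1).le) hc.lt_top
  · refine (ENNReal.add_le_add_iff_right ENNReal.ofReal_ne_top).1
      ((key _ inferInstance Pool.Agent.H28.Equi.mu_K).le.trans ((hmin ν hν).2.trans (key ν inferInstance hν).ge))

end Pool.Agent.S05220
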