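import Pool.Statements.S05232
import Pool.Agent.H87.MonoGap2

set_option autoImplicit false
open Pool Pool.MP_826cdb_an

namespace Pool.Agent.S05232

theorem result :
    ¬ (∀ (X : Type) [NormedAddCommGroup X] [NormedSpace ℝ X] [CompleteSpace X]
      (A B : Set (X × (X →L[ℝ] ℝ))),
      (∀ (x y : X) (a b : X →L[ℝ] ℝ), (x, a) ∈ A → (y, b) ∈ A → 0 ≤ (a - b) (x - y)) →
      (∀ (z : X) (c : X →L[ℝ] ℝ),
          (∀ (x : X) (a : X →L[ℝ] ℝ), (x, a) ∈ A → 0 ≤ (c - a) (z - x)) → (z, c) ∈ A) →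
      (∀ (x y : X) (a b : X →L[ℝ] ℝ), (x, a) ∈ B → (y, b) ∈ B → 0 ≤ (a - b) (x - y)) →
      (∀ (z : X) (c : X →L[ℝ] ℝ),
          (∀ (x : X) (a : X →L[ℝ] ℝ), (x, a) ∈ B → 0 ≤ (c - a) (z - x)) → (z, c) ∈ B) →
      ({x : X | ∃ a : X →L[ℝ] ℝ, (x, a) ∈ A} ∩
          interior {x : X | ∃ b : X →L[ℝ] ℝ, (x, b) ∈ B}).Nonempty →
      (∀ (x y : X) (a b a' b' : X →L[ℝ] ℝ),
          (x, a) ∈ A → (x, b) ∈ B → (y, a') ∈ A → (y, b') ∈ B →
          0 ≤ ((a + b) - (a' + b')) (x - y)) ∧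
      (∀ (z : X) (c : X →L[ℝ] ℝ),
          (∀ (x : X) (a b : X →L[ℝ] ℝ), (x, a) ∈ A → (x, b) ∈ B →
              0 ≤ (c - (a + b)) (z - x)) →
          ∃ (a b : X →L[ℝ] ℝ), (z, a) ∈ A ∧ (z, b) ∈ B ∧ c = a + b)) := by
  intro H
  obtain ⟨G, z, hz, h1, h2, h3, ⟨x, f, hx, -⟩, -, -, h4⟩ := Pool.Agent.H87.MonoGap.core
  have huniv : {x : Pool.Agent.H87.MonoGap.X | ∃ b, (x, b) ∈
      {p : Pool.Agent.H87.MonoGap.P |
        p.2 = Pool.Agent.H87.MonoGap.u p.1 • Pool.Agent.H87.MonoGap.u}} = Set.univ :=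
    Set.eq_univ_of_forall fun x => ⟨Pool.Agent.H87.MonoGap.u x • Pool.Agent.H87.MonoGap.u, rfl⟩
  obtain ⟨g, -, hg, -⟩ := (H _ G
    {p | p.2 = Pool.Agent.H87.MonoGap.u p.1 • Pool.Agent.H87.MonoGap.u}
    h1 h2
    (fun x y a b ha hb => by
      obtain rfl : a = Pool.Agent.H87.MonoGap.u x • Pool.Agent.H87.MonoGap.u := ha
      obtain rfl : b = Pool.Agent.H87.MonoGap.u y • Pool.Agent.H87.MonoGap.u := hb
      exact Pool.Agent.H87.MonoGap.rank_one_mono x y)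
    (fun z c hc => Pool.Agent.H87.MonoGap.rank_one_max z c fun y => hc y _ rfl)
    ⟨x, ⟨f, hx⟩, by rw [huniv, interior_univ]; trivial⟩).2 z _
    (fun y a b ha hb => by
      obtain rfl : b = Pool.Agent.H87.MonoGap.u y • Pool.Agent.H87.MonoGap.u := hb
      rw [add_comm]
      exact h4 y a ha)
  have := h3 _ _ hg
  rw [hz] at this
  norm_num at this

end Pool.Agent.S05232
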