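import Pool.Statements.S05268
import Pool.Agent.H39.Can4

set_option autoImplicit false
open Pool Pool.MP_846a4c_an

namespace Pool.Agent.S05268

/-- The negation of the preceding statement: In every locally compact Hausdorff group, if n copies of A and n copies of B are equidecomposable with Borel pieces (left translations plus level permutations), n ≥ 1, then A and B are Borel-equidecomposable by left translations. -/
theorem result :
    ¬ (∀ (G : Type) [Group G] [TopologicalSpace G] [IsTopologicalGroup G] [LocallyCompactSpace G]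
    [T2Space G] [MeasurableSpace G] [BorelSpace G] (A B : Set G) (n : ℕ), 0 < n →
    (∃ (k : ℕ) (P : Fin k → Set (G × ℕ)) (g : Fin k → G) (σ : Fin k → Equiv.Perm ℕ),
      (∀ i, MeasurableSet (P i)) ∧
      Pairwise (fun i j => Disjoint (P i) (P j)) ∧
      (⋃ i, P i) = A ×ˢ Set.Iio n ∧
      Pairwise (fun i j =>
        Disjoint ((fun p : G × ℕ => (g i * p.1, σ i p.2)) '' P i)
                 ((fun p : G × ℕ => (g j * p.1, σ j p.2)) '' P j)) ∧
      (⋃ i, (fun p : G × ℕ => (g i * p.1, σ i p.2)) '' P i) = B ×ˢ Set.Iio n) →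
    ∃ (k : ℕ) (P : Fin k → Set G) (g : Fin k → G),
      (∀ i, MeasurableSet (P i)) ∧
      Pairwise (fun i j => Disjoint (P i) (P j)) ∧
      (⋃ i, P i) = A ∧
      Pairwise (fun i j =>
        Disjoint ((fun x : G => g i * x) '' P i) ((fun x : G => g j * x) '' P j)) ∧
      (⋃ i, (fun x : G => g i * x) '' P i) = B) := by
  intro h
  obtain ⟨k, P, g, h1, h2, h3, h4, h5⟩ :=
    h Pool.Agent.H39.Can.G _ _ 2 two_pos Pool.Agent.H39.Can.two_copies
  have hA : ∀ i, ∀ p ∈ P i, H39.Can.Ev p ∧ ¬ H39.Can.Ev (g i * p) := by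
    intro i p hp
    obtain ⟨w, hw, rfl⟩ := h3.le (Set.mem_iUnion.2 ⟨i, hp⟩)
    obtain ⟨w', hw', h6⟩ := h5.le (Set.mem_iUnion.2 ⟨i, _, hp, rfl⟩)
    exact ⟨hw, fun h7 => hw' (h6 ▸ h7)⟩
  refine H39.Can.no_match
    (M := fun p q => ∃ i, (p ∈ P i ∧ q = g i * p) ∨ (q ∈ P i ∧ p = g i * q)) ?_
    (fun p q h => h.imp fun _ h => h.symm) ?_ ?_ ?_
    (Γ := Set.range g ∪ Set.range fun i => (g i)⁻¹)
    ((Set.finite_range _).union (Set.finite_range _)) ?_
  · rw [Set.ofPred_exists]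
    refine MeasurableSet.iUnion fun i => MeasurableSet.union
      ((measurable_fst (h1 i)).inter (measurableSet_eq_fun measurable_snd (by fun_prop)))
      ((measurable_snd (h1 i)).inter (measurableSet_eq_fun measurable_fst (by fun_prop)))
  · rintro p q q' ⟨i, ⟨a1, a2⟩ | ⟨a1, a2⟩⟩ ⟨j, ⟨b1, b2⟩ | ⟨b1, b2⟩⟩
    · obtain rfl : i = j := by
        by_contra h
        exact Set.disjoint_left.1 (h2 h) a1 b1
      rw [a2, b2]
    · exact absurd (b2 ▸ (hA i p a1).1) (hA j q' b1).2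
    · exact absurd (a2 ▸ (hA j p b1).1) (hA i q a1).2
    · obtain rfl : i = j := by
        by_contra h
        exact Set.disjoint_left.1 (h4 h) ⟨q, a1, a2.symm⟩ ⟨q', b1, b2.symm⟩
      exact mul_left_cancel (a2.symm.trans b2)
  · intro w
    by_cases hw : H39.Can.Ev (H39.Can.th w)
    · obtain ⟨i, hi⟩ := Set.mem_iUnion.1 (h3.ge ⟨w, hw, rfl⟩)
      obtain ⟨w', -, h6⟩ := h5.le (Set.mem_iUnion.2 ⟨i, _, hi, rfl⟩)
      exact ⟨w', i, Or.inl ⟨hi, h6⟩⟩
    · obtain ⟨i, p, hi, h6⟩ := Set.mem_iUnion.1 (h5.ge ⟨w, hw, rfl⟩)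
      obtain ⟨w', -, rfl⟩ := h3.le (Set.mem_iUnion.2 ⟨i, hi⟩)
      exact ⟨w', i, Or.inr ⟨hi, h6.symm⟩⟩
  · rintro p q ⟨i, ⟨a1, rfl⟩ | ⟨a1, rfl⟩⟩ <;> simp [hA i _ a1]
  · rintro p q ⟨i, ⟨-, rfl⟩ | ⟨-, rfl⟩⟩
    · exact ⟨g i, Or.inl ⟨i, rfl⟩, rfl⟩
    · exact ⟨(g i)⁻¹, Or.inr ⟨i, rfl⟩, by simp⟩

end Pool.Agent.S05268
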