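import Pool.Statements.S05295
import Pool.Agent.H63.OneWay3

set_option autoImplicit false
open Pool Pool.MP_88e1ca_an

namespace Pool.Agent.S05295

/-- There is a one-sided subshift over a finite alphabet and an automorphism (shift-commuting bijective block map) whose iterates fⁿ have radii that are unbounded yet eventually at most εn for every ε>0. -/
theorem result :
    ∃ (k : ℕ) (X : Set (ℕ → Fin k)) (f : (ℕ → Fin k) → (ℕ → Fin k)),
      (∀ x : ℕ → Fin k, (∀ m : ℕ, ∃ y ∈ X, ∀ i < m, y i = x i) → x ∈ X) ∧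
      (∀ x ∈ X, (fun i => x (i + 1)) ∈ X) ∧
      Set.MapsTo f X X ∧ Set.InjOn f X ∧ Set.SurjOn f X X ∧
      (∀ x ∈ X, f (fun i => x (i + 1)) = fun i => f x (i + 1)) ∧
      (∃ r : ℕ, ∀ x ∈ X, ∀ y ∈ X, (∀ i ≤ r, x i = y i) → f x 0 = f y 0) ∧
      (∀ R : ℕ, ∃ n : ℕ, ∃ x ∈ X, ∃ y ∈ X,
        (∀ i ≤ R, x i = y i) ∧ f^[n] x 0 ≠ f^[n] y 0) ∧
      (∀ ε : ℝ, 0 < ε → ∃ N : ℕ, ∀ n ≥ N, ∃ r : ℕ, (r : ℝ) ≤ ε * n ∧
        ∀ x ∈ X, ∀ y ∈ X, (∀ i ≤ r, x i = y i) → f^[n] x 0 = f^[n] y 0) := by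
  classical
  obtain ⟨k, ⟨E⟩⟩ := Finite.exists_equiv_fin H63.OneWay.St
  have s1 : ∀ x : ℕ → H63.OneWay.St, E.symm ∘ (E ∘ x) = x := fun x => funext fun i => by simp
  have s2 : ∀ x : ℕ → Fin k, E ∘ (E.symm ∘ x) = x := fun x => funext fun i => by simp
  have hc : ∀ (n : ℕ) (x : ℕ → Fin k), (fun x : ℕ → Fin k => E ∘ H63.OneWay.f (E.symm ∘ x))^[n] x =
      E ∘ H63.OneWay.f^[n] (E.symm ∘ x) := fun n x => by
    induction n with
    | zero => funext i; simp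
    | succ n ih =>
      rw [Function.iterate_succ_apply', Function.iterate_succ_apply', ih, s1]
  have hY : ∀ x, x ∈ H63.OneWay.Y ↔ ∀ k, x ∈ H63.OneWay.X k := fun x => Set.mem_iInter
  refine ⟨k, {x | E.symm ∘ x ∈ H63.OneWay.Y}, fun x => E ∘ H63.OneWay.f (E.symm ∘ x), fun x h => ?_,
    fun x hx => H63.OneWay.Y_σ hx 1, fun x hx => ?_, fun x _ y _ h => ?_, fun x hx => ?_,
    fun x _ => rfl, ⟨1, fun x _ y _ h => ?_⟩, fun R => ?_, fun ε hε => ?_⟩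
  · choose y hy h using h
    show E.symm ∘ x ∈ ⋂ k, H63.OneWay.X k
    refine (isClosed_iInter fun k => (H63.OneWay.X_cpt k).1.isClosed).mem_of_tendsto
      (f := fun m => E.symm ∘ y m) (b := Filter.atTop) (tendsto_pi_nhds.2 fun i => ?_) (.of_forall hy)
    exact tendsto_const_nhds.congr' ((Filter.eventually_gt_atTop i).mono fun m hm => by
      simp [h m i hm])
  · show E.symm ∘ (E ∘ _) ∈ H63.OneWay.Y
    rw [s1, hY]
    exact fun k => H63.OneWay.X_f k _ ((hY _).1 hx k)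
  · exact E.symm.injective.comp_left (Function.LeftInverse.injective H63.OneWay.g_f
      (E.injective.comp_left h))
  · refine ⟨E ∘ H63.OneWay.g (E.symm ∘ x), ?_, ?_⟩
    · show E.symm ∘ (E ∘ _) ∈ H63.OneWay.Y
      rw [s1, hY]
      intro k
      obtain ⟨y, hy, e⟩ := H63.OneWay.X_g k _ ((hY _).1 hx k)
      rwa [← e, H63.OneWay.g_f]
    · show E ∘ H63.OneWay.f (E.symm ∘ (E ∘ _)) = x
      rw [s1, H63.OneWay.f_g, s2]
  · simp [H63.OneWay.f, h 0 (by omega), h 1 le_rfl]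
  · obtain ⟨n, x, hx, y, hy, h, hne⟩ := H63.OneWay.unb R
    refine ⟨n, E ∘ x, by simpa [s1] using hx, E ∘ y,
      by simpa [s1] using hy, fun i hi => by simp [h i hi], ?_⟩
    rw [hc, hc, s1, s1]
    exact E.injective.ne hne
  · obtain ⟨j, hj⟩ := pow_unbounded_of_one_lt (200 / ε) (by norm_num : (1 : ℝ) < 8)
    refine ⟨40 ^ j, fun n hn => ⟨100 * 5 ^ j * (n / 40 ^ j + 1), ?_, fun x hx y hy h => ?_⟩⟩
    · have h1 : 1 ≤ n / 40 ^ j := (Nat.one_le_div_iff (by positivity)).2 hn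
      have h2 : ((40 ^ j * (n / 40 ^ j) : ℕ) : ℝ) ≤ n := Nat.cast_le.2 (Nat.mul_div_le _ _)
      obtain ⟨q, hq⟩ : ∃ q, q = n / 40 ^ j := ⟨_, rfl⟩
      rw [← hq] at h1 h2 ⊢
      have h3 : (1 : ℝ) ≤ q := by exact_mod_cast h1
      rw [div_lt_iff₀ hε] at hj
      push_cast at h2 ⊢
      rw [show (40 : ℝ) = 8 * 5 by norm_num, mul_pow] at h2
      have h5 : (0 : ℝ) < 5 ^ j := by positivity
      nlinarith [mul_le_mul_of_nonneg_left h2 hε.le, mul_pos h5 (sub_pos.2 hj), mul_nonneg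
        (mul_pos h5 (sub_pos.2 hj)).le (sub_nonneg.2 h3), mul_nonneg h5.le (sub_nonneg.2 h3)]
    · rw [hc, hc]
      exact congrArg E (H63.OneWay.rm j _ _ ((hY _).1 hx j) _ ((hY _).1 hy j) 0
        (fun i _ hi => congrArg E.symm (h i (by omega))) n (Nat.lt_mul_div_succ n (by positivity)).le)

end Pool.Agent.S05295
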