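import Pool.Statements.S05322

set_option autoImplicit false
open Pool Pool.MP_8b3f09_an

namespace Pool.Agent.S05322

open Filter Topology in
lemma bound {X : Type} [NormedAddCommGroup X] [NormedSpace ℝ X] [CompleteSpace X] (e : ℕ → X)
    (a : X → ℕ → ℝ) (ha : ∀ x, HasSum (fun n => a x n • e n) x)
    (hu : ∀ x (b : ℕ → ℝ), HasSum (fun n => b n • e n) x → b = a x) :
    ∃ C : ℝ, ∀ x (F : Finset ℕ), ‖∑ n ∈ F, a x n • e n‖ ≤ C * ‖x‖ := by
  classical
  let W : Submodule ℝ (lp (fun _ : Finset ℕ => X) ⊤ × X) :=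
    { carrier := {p | (∀ n, p.1 {n} ∈ Submodule.span ℝ {e n}) ∧
        (∀ F : Finset ℕ, p.1 F = ∑ n ∈ F, p.1 {n}) ∧ Tendsto (fun F => p.1 F) atTop (𝓝 p.2)}
      add_mem' := by
        rintro p q ⟨h1, h2, h3⟩ ⟨k1, k2, k3⟩
        refine ⟨fun n => Submodule.add_mem _ (h1 n) (k1 n), fun F => ?_, h3.add k3⟩
        change p.1 F + q.1 F = ∑ n ∈ F, (p.1 {n} + q.1 {n})
        rw [Finset.sum_add_distrib, ← h2, ← k2]
      zero_mem' := ⟨fun n => Submodule.zero_mem _, fun F => by simp, tendsto_const_nhds⟩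
      smul_mem' := by
        rintro c p ⟨h1, h2, h3⟩
        refine ⟨fun n => Submodule.smul_mem _ c (h1 n), fun F => ?_, h3.const_smul c⟩
        change c • p.1 F = ∑ n ∈ F, c • p.1 {n}
        rw [← Finset.smul_sum, ← h2] }
  have hev : ∀ F : Finset ℕ, Continuous (fun p : lp (fun _ : Finset ℕ => X) ⊤ × X => p.1 F) :=
    fun F => (continuous_apply F).comp (lp.uniformContinuous_coe.continuous.comp continuous_fst)
  have hW : IsClosed (W : Set (lp (fun _ : Finset ℕ => X) ⊤ × X)) := by
    refine IsClosed.and ?_ (IsClosed.and ?_ ?_)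
    · simp only [Set.setOf_forall]
      exact isClosed_iInter fun n =>
        (Submodule.span ℝ {e n}).closed_of_finiteDimensional.preimage (hev {n})
    · simp only [Set.setOf_forall]
      exact isClosed_iInter fun F => isClosed_eq (hev F) (continuous_finsetSum _ fun n _ => hev {n})
    · have he : Equicontinuous (fun (F : Finset ℕ) (p : lp (fun _ : Finset ℕ => X) ⊤ × X) =>
          p.1 F) := by
        refine (LipschitzWith.uniformEquicontinuous _ 1 fun F => ?_).equicontinuous
        refine LipschitzWith.of_dist_le_mul fun p q => ?_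
        rw [dist_eq_norm, dist_eq_norm, NNReal.coe_one, one_mul]
        exact (lp.norm_apply_le_norm ENNReal.top_ne_zero (p.1 - q.1) F).trans (norm_fst_le (p - q))
      exact he.isClosed_setOfPred_tendsto continuous_snd
  have : CompleteSpace W := hW.completeSpace_coe
  let π : W →L[ℝ] X := ContinuousLinearMap.snd ℝ _ _ ∘L W.subtypeL
  have hs : Function.Surjective π := by
    intro x
    have hb : Memℓp (fun F : Finset ℕ => ∑ n ∈ F, a x n • e n) ⊤ := by
      apply memℓp_infty
      obtain ⟨A, hA⟩ := summable_iff_vanishing_norm.mp (ha x).summable 1 zero_lt_one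
      refine ⟨∑ n ∈ A, ‖a x n • e n‖ + 1, ?_⟩
      rintro _ ⟨F, rfl⟩
      dsimp only
      rw [← Finset.sum_inter_add_sum_sdiff F A]
      refine (norm_add_le _ _).trans (add_le_add ((norm_sum_le _ _).trans ?_)
        (hA _ Finset.sdiff_disjoint).le)
      exact Finset.sum_le_sum_of_subset_of_nonneg Finset.inter_subset_right
        fun _ _ _ => norm_nonneg _
    refine ⟨⟨(⟨_, hb⟩, x), fun n => ?_, fun F => ?_, ha x⟩, rfl⟩
    · change ∑ k ∈ {n}, a x k • e k ∈ _
      rw [Finset.sum_singleton]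
      exact Submodule.smul_mem _ _ (Submodule.mem_span_singleton_self _)
    · change ∑ k ∈ F, a x k • e k = ∑ n ∈ F, ∑ k ∈ {n}, a x k • e k
      simp
  obtain ⟨C, -, hC⟩ := π.exists_preimage_norm_le hs
  refine ⟨C, fun x F => ?_⟩
  obtain ⟨⟨⟨φ, y⟩, h1, h2, h3⟩, rfl, hn⟩ := hC x
  choose b hb using fun n => Submodule.mem_span_singleton.1 (h1 n)
  have h4 : ∀ F : Finset ℕ, φ F = ∑ n ∈ F, b n • e n := fun F => by
    simp only [hb]; exact h2 F
  have h5 : b = a y := hu y b (by
    have := h3
    simp only [h4] at this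
    exact this)
  change ‖∑ n ∈ F, a y n • e n‖ ≤ _
  rw [← h5, ← h4]
  exact (lp.norm_apply_le_norm ENNReal.top_ne_zero φ F).trans ((norm_fst_le (φ, y)).trans hn)

/-- The negation of the preceding statement: There is a real Banach space with an unconditional basis such that no point x of its closed unit ball has a sequence of slices of the ball with x in the closed convex hull of every selection of points from those slices. -/
theorem result :
    ¬ (∃ (X : Type) (_ : NormedAddCommGroup X) (_ : NormedSpace ℝ X) (_ : CompleteSpace X)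
      (e : ℕ → X),
      (∀ x : X, ∃! a : ℕ → ℝ, HasSum (fun n => a n • e n) x) ∧
      ∀ x ∈ Metric.closedBall (0 : X) 1,
        ¬ ∃ (f : ℕ → (X →L[ℝ] ℝ)) (α : ℕ → ℝ),
            (∀ n, f n ≠ 0 ∧ 0 < α n) ∧
            ∀ y : ℕ → X,
              (∀ n, y n ∈ Metric.closedBall (0 : X) 1 ∧ ‖f n‖ - α n < f n (y n)) →
              x ∈ closure (convexHull ℝ (Set.range y))) := by
  classical
  rintro ⟨X, _, _, _, e, hb, h⟩
  choose a ha hu using hb
  obtain ⟨C, hC⟩ := bound e a ha hu
  have h1 : ∀ n, a (e n) = Pi.single n 1 := fun n => (hu _ _ (by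
    have := hasSum_single (f := fun k => (Pi.single n 1 : ℕ → ℝ) k • e k) n
      (fun k hk => by simp [Pi.single_eq_of_ne hk])
    simpa using this)).symm
  have he : ∀ n, e n ≠ 0 := fun n h0 => by
    have h2 := hu (e n) 0 (by simpa [h0] using hasSum_zero)
    have := congrFun (h2.trans (h1 n)) n
    simp at this
  let c0 : ℕ → X →ₗ[ℝ] ℝ := fun n =>
    { toFun := fun x => a x n
      map_add' := fun x y => by
        rw [← hu (x + y) (a x + a y) (by simpa [add_smul] using (ha x).add (ha y))]; rfl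
      map_smul' := fun r x => by
        rw [← hu (r • x) (r • a x) (by simpa [mul_smul] using (ha x).const_smul r)]; rfl }
  let c : ℕ → X →L[ℝ] ℝ := fun n => (c0 n).mkContinuous (C / ‖e n‖) fun x => by
    have := hC x {n}
    rw [Finset.sum_singleton, norm_smul] at this
    rw [div_mul_eq_mul_div, le_div_iff₀ (norm_pos_iff.2 (he n))]
    exact this
  have hc : ∀ n x, c n x = a x n := fun _ _ => rfl
  have hc0 : c 0 ≠ 0 := fun h0 => by
    have := hc 0 (e 0)
    rw [h0, h1] at this
    simp at this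
  obtain ⟨t, -, htc, ht⟩ :=
    ((Set.countable_range c).isSeparable.span (R := ℝ)).exists_countable_dense_subset
  have htn : t.Nonempty := closure_nonempty_iff.1 ⟨0, ht (Submodule.zero_mem _)⟩
  obtain ⟨u, rfl⟩ := htc.exists_eq_range htn
  refine h 0 (by simp) ⟨fun n => if u n.unpair.1 = 0 then c 0 else u n.unpair.1,
    fun n => 1 / ((n.unpair.2 : ℝ) + 1), fun n => ⟨?_, by positivity⟩, fun y hy => ?_⟩
  · dsimp only
    split_ifs with h0
    exacts [hc0, h0]
  by_contra hn
  obtain ⟨g, δ, hδ, hg⟩ := geometric_hahn_banach_point_closed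
    (convex_convexHull ℝ _).closure isClosed_closure hn
  rw [map_zero] at hδ
  have hg' : ∀ n, δ < g (y n) := fun n =>
    hg _ (subset_closure (subset_convexHull ℝ _ ⟨n, rfl⟩))
  let G : Finset ℕ → X →L[ℝ] ℝ := fun A => ∑ i ∈ A, g (e i) • c i
  have hG : ∀ A x, G A x = g (∑ i ∈ A, a x i • e i) := fun A x => by
    simp [G, hc, mul_comm]
  have hGb : BddAbove (Set.range fun A => ‖G A‖) := ⟨‖g‖ * |C|, by
    rintro _ ⟨A, rfl⟩
    refine ContinuousLinearMap.opNorm_le_bound _ (by positivity) fun x => ?_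
    rw [hG, mul_assoc]
    exact (g.le_opNorm _).trans (mul_le_mul_of_nonneg_left ((hC x A).trans
      (mul_le_mul_of_nonneg_right (le_abs_self C) (norm_nonneg _))) (norm_nonneg _))⟩
  set V := ⨆ A, ‖G A‖ with hV
  have hle : ∀ A, ∀ z ∈ Metric.closedBall (0 : X) 1, G A z ≤ V := fun A z hz =>
    (le_abs_self _).trans (((G A).unit_le_opNorm z (by simpa using hz)).trans (le_ciSup hGb A))
  have hlim : ∀ z, Filter.Tendsto (fun A => G A z) Filter.atTop (nhds (g z)) := fun z => by
    simp only [hG]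
    exact (g.continuous.tendsto z).comp (ha z)
  have key : ∀ A, ∀ z ∈ Metric.closedBall (0 : X) 1, g z ≤ G A z + V := fun A z hz => by
    refine le_of_tendsto (hlim z) ?_
    filter_upwards [Filter.eventually_ge_atTop A] with B hB
    have : G B z = G (B \ A) z + G A z := by
      rw [← add_apply, Finset.sum_sdiff hB]
    linarith [hle (B \ A) z hz]
  have hVδ : δ < V := by simpa [G] using (hg' 0).trans_le (key ∅ _ (hy 0).1)
  obtain ⟨A, hA⟩ := exists_lt_of_lt_ciSup (show V - δ / 4 < ⨆ A, ‖G A‖ by linarith)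
  have hm : -G A ∈ Submodule.span ℝ (Set.range c) := Submodule.neg_mem _
    (Submodule.sum_mem _ fun i _ => Submodule.smul_mem _ _ (Submodule.subset_span ⟨i, rfl⟩))
  obtain ⟨_, ⟨i, rfl⟩, hi⟩ := Metric.mem_closure_iff.1 (ht hm) (δ / 4) (by positivity)
  obtain ⟨k, hk⟩ := exists_nat_one_div_lt (show 0 < δ / 4 by positivity)
  rw [dist_eq_norm] at hi
  have h3 : ‖G A‖ - δ / 4 < ‖u i‖ := by
    have := norm_sub_norm_le (-G A) (u i)
    rw [norm_neg] at this
    linarith
  have h4 : u i ≠ 0 := fun h0 => by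
    rw [h0, norm_zero] at h3; linarith
  obtain ⟨h5, h6⟩ := hy (Nat.pair i k)
  simp only [Nat.unpair_pair, h4, if_false] at h6
  have h7 := (-G A - u i).unit_le_opNorm (y (Nat.pair i k)) (by simpa using h5)
  have h8 := (abs_le.1 h7).1
  simp only [sub_apply, neg_apply] at h8
  linarith [key A _ h5, hg' (Nat.pair i k)]

end Pool.Agent.S05322
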