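import Pool.Statements.S05328
-- import your own Pool.Agent.* helpers here

set_option autoImplicit false
open Filter Topology
open Pool Pool.MP_8ba4a6_an

namespace Pool.Agent.S05328

noncomputable def m (x : ℝ) : ℝ := max (5/32) (max (min 1 (3 - x)) (11 - 20 * x))

lemma m_pos (x : ℝ) : 0 < m x := lt_of_lt_of_le (by norm_num) (le_max_left _ _)

lemma m_anti {x y : ℝ} (h : x ≤ y) : m y ≤ m x := by
  unfold m
  apply max_le_max le_rfl
  apply max_le_max
  · exact min_le_min le_rfl (by linarith)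
  · linarith

lemma m_cont : Continuous m := by
  unfold m; fun_prop

lemma m_mid {x : ℝ} (h : |x - 1| ≤ 1/2) : m x = 1 := by
  have h1 := abs_le.mp h
  unfold m
  rw [min_eq_left (by linarith), max_eq_left (a := (1:ℝ)) (by linarith), max_eq_right (by norm_num)]

lemma m_q : m (1/4) = 6 := by
  unfold m
  rw [min_eq_left (by norm_num)]
  norm_num

lemma m_three : m 3 = 5/32 := by
  unfold m
  rw [min_eq_right (by norm_num)]
  norm_num

noncomputable def f (x y : ℝ) : ℝ := m x * (2 / (1 + y)) / x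

lemma diag_anti {x₁ x₂ : ℝ} (h1 : 0 < x₁) (h : x₁ < x₂) : x₂ * f x₂ x₂ < x₁ * f x₁ x₁ := by
  have h2 : 0 < x₂ := h1.trans h
  have e1 : x₁ * f x₁ x₁ = m x₁ * (2 / (1 + x₁)) := by unfold f; field_simp
  have e2 : x₂ * f x₂ x₂ = m x₂ * (2 / (1 + x₂)) := by unfold f; field_simp
  rw [e1, e2]
  have a1 : 2 / (1 + x₂) < 2 / (1 + x₁) := by
    apply div_lt_div_of_pos_left <;> linarith
  have a2 := m_anti h.le
  have a3 := m_pos x₂
  have a4 : 0 < 2 / (1 + x₁) := by positivity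
  calc m x₂ * (2 / (1 + x₂)) < m x₂ * (2 / (1 + x₁)) := by gcongr
    _ ≤ m x₁ * (2 / (1 + x₁)) := by gcongr

lemma f_one : f 1 1 = 1 := by
  unfold f; rw [m_mid (by norm_num)]; norm_num

lemma key (x : ℕ → ℝ) (hx : ∀ n : ℕ, x (n + 2) = x (n + 1) * f (x (n + 1)) (x n))
    (s : ℝ) (hs : |x 0 - 1| + |x 1 - 1| = s) (hs4 : s < 1/4) :
    ∀ n : ℕ, |x n - 1| ≤ 2 * s * (5/6) ^ n ∧ |x (n+1) - 1| ≤ 2 * s * (5/6) ^ (n+1) := by
  have a0 := abs_nonneg (x 0 - 1)
  have a1 := abs_nonneg (x 1 - 1)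
  have hs0 : 0 ≤ s := by linarith
  have hb : ∀ n : ℕ, 2 * s * (5/6 : ℝ) ^ n ≤ 1/2 := by
    intro n
    have : (5/6 : ℝ) ^ n ≤ 1 := pow_le_one₀ (by norm_num) (by norm_num)
    nlinarith [pow_nonneg (show (0:ℝ) ≤ 5/6 by norm_num) n]
  intro n
  induction n with
  | zero => constructor <;> norm_num <;> linarith
  | succ n ih =>
    refine ⟨ih.2, ?_⟩
    have h1 : |x n - 1| ≤ 1/2 := ih.1.trans (hb n)
    have h2 : |x (n+1) - 1| ≤ 1/2 := ih.2.trans (hb (n+1))
    have h1' := abs_le.mp h1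
    have h2' := abs_le.mp h2
    have p1 : 0 < x (n+1) := by linarith
    have p0 : 0 < 1 + x n := by linarith
    have e : x (n + 1 + 1) - 1 = (1 - x n) / (1 + x n) := by
      rw [show n + 1 + 1 = n + 2 from rfl, hx n]
      unfold f
      rw [m_mid h2]
      field_simp
      ring
    rw [e, abs_div, abs_of_pos p0, div_le_iff₀ p0, abs_sub_comm]
    have h3 := ih.1
    have h4 : 0 ≤ 2 * s * (5/6 : ℝ) ^ n := by positivity
    have h5 : 2 * s * (5/6 : ℝ) ^ (n + 1 + 1) = 2 * s * (5/6 : ℝ) ^ n * (25/36) := by ring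
    rw [h5]
    nlinarith


/-- The negation of the preceding statement: If f>0 is continuous on the positive quadrant, nonincreasing in x, strictly decreasing in y, x·f(x,x) strictly decreasing, and the unique positive equilibrium of x_{n+1}=x_n f(x_n,x_{n-1}) is locally asymptotically stable, then every positive solution converges to it. -/
theorem result :
    ¬ (∀ (f : ℝ → ℝ → ℝ) (xbar : ℝ),
      ContinuousOn (fun p : ℝ × ℝ => f p.1 p.2) (Set.Ioi (0:ℝ) ×ˢ Set.Ioi (0:ℝ)) →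
      (∀ x y : ℝ, 0 < x → 0 < y → 0 < f x y) →
      (∀ x₁ x₂ y : ℝ, 0 < x₁ → x₁ ≤ x₂ → 0 < y → f x₂ y ≤ f x₁ y) →
      (∀ x y₁ y₂ : ℝ, 0 < x → 0 < y₁ → y₁ < y₂ → f x y₂ < f x y₁) →
      (∀ x₁ x₂ : ℝ, 0 < x₁ → x₁ < x₂ → x₂ * f x₂ x₂ < x₁ * f x₁ x₁) →
      0 < xbar →
      f xbar xbar = 1 →
      (∀ y : ℝ, 0 < y → f y y = 1 → y = xbar) →
      (∀ ε : ℝ, 0 < ε → ∃ δ : ℝ, 0 < δ ∧
        ∀ x : ℕ → ℝ, 0 < x 0 → 0 < x 1 →
          (∀ n : ℕ, x (n + 2) = x (n + 1) * f (x (n + 1)) (x n)) →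
          |x 0 - xbar| + |x 1 - xbar| < δ →
          ∀ n : ℕ, |x n - xbar| < ε) →
      (∃ γ : ℝ, 0 < γ ∧
        ∀ x : ℕ → ℝ, 0 < x 0 → 0 < x 1 →
          (∀ n : ℕ, x (n + 2) = x (n + 1) * f (x (n + 1)) (x n)) →
          |x 0 - xbar| + |x 1 - xbar| < γ →
          Tendsto x atTop (𝓝 xbar)) →
      ∀ x : ℕ → ℝ, 0 < x 0 → 0 < x 1 →
        (∀ n : ℕ, x (n + 2) = x (n + 1) * f (x (n + 1)) (x n)) →
        Tendsto x atTop (𝓝 xbar)) := by
  intro H
  let x : ℕ → ℝ := fun n => if n % 2 = 0 then 1/4 else 3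
  have hx : ∀ n : ℕ, x (n + 2) = x (n + 1) * f (x (n + 1)) (x n) := by
    intro n
    rcases Nat.mod_two_eq_zero_or_one n with h | h
    · have h1 : (n + 1) % 2 = 1 := by omega
      have h2 : (n + 2) % 2 = 0 := by omega
      simp only [x, h, h1, h2, f]
      norm_num [m_three]
    · have h1 : (n + 1) % 2 = 0 := by omega
      have h2 : (n + 2) % 2 = 1 := by omega
      simp only [x, h, h1, h2, f]
      have := m_q
      norm_num at this ⊢
      rw [this]; norm_num
  have hT := H f 1 ?_ ?_ ?_ ?_ ?_ one_pos f_one ?_ ?_ ?_ x (by simp [x]) (by simp [x]) hx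
  · have h1 := (Metric.tendsto_atTop.mp hT) (1/2) (by norm_num)
    obtain ⟨N, hN⟩ := h1
    have h2 := hN (2 * N) (by omega)
    have h3 : x (2 * N) = 1/4 := by simp [x]
    rw [h3, Real.dist_eq] at h2
    norm_num [abs_of_neg] at h2
  · unfold f
    apply ContinuousOn.div
    · apply ContinuousOn.mul
      · exact (m_cont.comp continuous_fst).continuousOn
      · apply ContinuousOn.div continuousOn_const (by fun_prop)
        intro p hp
        have : 0 < p.2 := hp.2
        positivity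
    · fun_prop
    · intro p hp
      exact ne_of_gt hp.1
  · intro x y hx hy
    have := m_pos x
    unfold f; positivity
  · intro x₁ x₂ y h1 h2 hy
    unfold f
    have := m_anti h2
    have := m_pos x₁
    have := m_pos x₂
    gcongr
  · intro x y₁ y₂ hx h1 h2
    unfold f
    have := m_pos x
    gcongr
  · intro x₁ x₂ h1 h2
    exact diag_anti h1 h2
  · intro y hy h
    rcases lt_trichotomy y 1 with h1 | h1 | h1
    · have := diag_anti hy h1
      rw [h, f_one] at this; linarith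
    · exact h1
    · have := diag_anti one_pos h1
      rw [h, f_one] at this; linarith
  · intro ε hε
    refine ⟨min (1/4) (ε/2), by positivity, ?_⟩
    intro x _ _ hx hs n
    have h1 := lt_of_lt_of_le hs (min_le_left _ _)
    have h2 := lt_of_lt_of_le hs (min_le_right _ _)
    have h3 := (key x hx _ rfl h1 n).1
    have h4 : (5/6 : ℝ) ^ n ≤ 1 := pow_le_one₀ (by norm_num) (by norm_num)
    have h5 : 0 ≤ |x 0 - 1| + |x 1 - 1| := by positivity
    nlinarith
  · refine ⟨1/4, by norm_num, ?_⟩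
    intro x _ _ hx hs
    have h3 := fun n => (key x hx _ rfl hs n).1
    rw [tendsto_iff_norm_sub_tendsto_zero]
    refine squeeze_zero (fun n => norm_nonneg _) h3 ?_
    have := (tendsto_pow_atTop_nhds_zero_of_lt_one (show (0:ℝ) ≤ 5/6 by norm_num) (by norm_num)).const_mul
      (2 * (|x 0 - 1| + |x 1 - 1|))
    simpa using this

end Pool.Agent.S05328
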