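import Pool.Statements.S05340
import Pool.Agent.H91.StrongSub

set_option autoImplicit false
open Pool Pool.MP_8cad90_an

namespace Pool.Agent.S05340

theorem result :
    ¬ (∀ (𝕜 : Type) [RCLike 𝕜] (E : Type) [NormedAddCommGroup E] [NormedSpace 𝕜 E]
      [CompleteSpace E], ¬ FiniteDimensional 𝕜 E →
      ∃ G : Submodule 𝕜 E, 2 ≤ Module.rank 𝕜 G ∧
        ∃ x : E, x ≠ 0 ∧ ∀ g ∈ G, ∀ α : 𝕜, ‖g‖ ≤ ‖g + α • x‖) := by
  intro h
  have hinf : ¬ FiniteDimensional ℝ Pool.Agent.H91.StrongSub.N.Sp := by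
    intro hf
    exact Pool.Agent.H91.StrongSub.H_inf
      (Pool.Agent.H91.StrongSub.N.toX.finiteDimensional)
  obtain ⟨G, hG, x, hx, hGx⟩ := h ℝ Pool.Agent.H91.StrongSub.N.Sp hinf
  exact Pool.Agent.H91.StrongSub.main G hG x hx (fun g hg a => hGx g hg a)

end Pool.Agent.S05340
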