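import Pool.Statements.S05386
import Pool.Agent.H97.Hyper

set_option autoImplicit false
open Pool Pool.MP_90924b_an Pool.Agent.H97.Hyper

namespace Pool.Agent.S05386

/-- The negation of the preceding statement: For a countable set A in the unit ball of C^N lying in a (rho,c,q)-wedge, if the union of hyperplanes {(z,a)=∣a∣^2}, a in A, is the zero set of a nonzero bounded holomorphic function on the ball, then the sum of 1-∣a∣^2 over A is finite. -/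
theorem result :
    ¬ (∀ (N : ℕ) (ρ q c : ℝ), 0 < ρ → ρ < 1 → 0 < q → q < 1 → 0 < c →
    ∀ (e₀ : EuclideanSpace ℂ (Fin N)), ‖e₀‖ = 1 →
    ∀ (A : Set (EuclideanSpace ℂ (Fin N))), A.Countable → A ⊆ Metric.ball 0 1 →
    (∀ a ∈ A, ‖a‖ < ρ ∨
      (|(1 - inner ℂ e₀ a).im| ≤ c * (1 - inner ℂ e₀ a).re ∧
        ‖a‖ ^ 2 - ‖inner ℂ e₀ a‖ ^ 2 ≤ q * (1 - ‖inner ℂ e₀ a‖ ^ 2) ∧
        (1 - inner ℂ e₀ a).re ≤ 1 / (c ^ 2 + 1))) →
    (∃ f : EuclideanSpace ℂ (Fin N) → ℂ,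
      DifferentiableOn ℂ f (Metric.ball 0 1) ∧
      (∃ M : ℝ, ∀ z ∈ Metric.ball (0 : EuclideanSpace ℂ (Fin N)) 1, ‖f z‖ ≤ M) ∧
      (∃ z ∈ Metric.ball (0 : EuclideanSpace ℂ (Fin N)) 1, f z ≠ 0) ∧
      {z | z ∈ Metric.ball (0 : EuclideanSpace ℂ (Fin N)) 1 ∧ f z = 0} =
        {z | z ∈ Metric.ball (0 : EuclideanSpace ℂ (Fin N)) 1 ∧
          ∃ a ∈ A, inner ℂ a z = (((‖a‖ ^ 2 : ℝ)) : ℂ)}) →
    Summable (fun a : A => 1 - ‖(a : EuclideanSpace ℂ (Fin N))‖ ^ 2)) := by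
  intro h
  refine not_summable (h 2 (1 / 2) (7 / 8) 1 (by norm_num) (by norm_num) (by norm_num)
    (by norm_num) one_pos (EuclideanSpace.single 0 1) (by simp) A A_count ?_ ?_
    ⟨f, f_diff, ⟨_, fun z hz => f_bd hz⟩, ⟨0, by simp, fun h0 => ?_⟩, ?_⟩)
  · rintro _ ⟨k, ω, h1, rfl⟩
    have h2 := pt_sq h1
    have h3 := e_pos k
    have h4 := e_le k
    rw [mem_ball_zero_iff, ← sq_lt_one_iff₀ (norm_nonneg _), h2, P]
    nlinarith
  · rintro _ ⟨k, ω, h1, rfl⟩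
    have h3 := e_pos k
    have h4 := e_le k
    have h5 : inner ℂ (EuclideanSpace.single (0 : Fin 2) (1 : ℂ)) (pt k ω) =
        ((1 - e k : ℝ) : ℂ) := by
      rw [EuclideanSpace.inner_single_left]; simp [pt]
    rw [h5, pt_sq h1, Complex.norm_real, Real.norm_eq_abs, sq_abs, P]
    refine Or.inr ⟨by simp [h3.le], by nlinarith, by simp; linarith⟩
  · obtain ⟨k, hk⟩ := (f_zero (by simp)).mp h0
    simp [u, nn_ne k] at hk
  · ext z
    refine and_congr_right fun hz => (f_zero hz).trans ⟨?_, ?_⟩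
    · rintro ⟨k, hk⟩
      exact ⟨_, ⟨k, _, hk, rfl⟩, (inner_pt hk hz).mpr rfl⟩
    · rintro ⟨_, ⟨k, ω, h1, rfl⟩, h2⟩
      exact ⟨k, by rw [(inner_pt h1 hz).mp h2, h1]⟩

end Pool.Agent.S05386
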