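import Pool.Statements.S05388
import Pool.Agent.H51.HypL1c

set_option autoImplicit false
open Pool Pool.MP_90e313_an

namespace Pool.Agent.S05388
open Pool.Agent.H51.HypL1

/-- The negation of the preceding statement: Every real or complex Banach space with a Schauder basis has a Schauder basis whose basis constant equals the infimum of the basis constants over all its Schauder bases. -/
theorem result :
    ¬ (∀ (𝕜 : Type) [RCLike 𝕜] (E : Type) [NormedAddCommGroup E] [NormedSpace 𝕜 E] [CompleteSpace E],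
      (∃ e : ℕ → E, ∀ x : E, ∃! a : ℕ → 𝕜,
          Filter.Tendsto (fun n : ℕ => ∑ i ∈ Finset.range n, a i • e i) Filter.atTop (nhds x)) →
      ∃ e : ℕ → E,
        (∀ x : E, ∃! a : ℕ → 𝕜,
          Filter.Tendsto (fun n : ℕ => ∑ i ∈ Finset.range n, a i • e i) Filter.atTop (nhds x)) ∧
        ∀ (a : ℕ → 𝕜) (m n : ℕ), m ≤ n →
          ‖∑ i ∈ Finset.range m, a i • e i‖ ≤
            sInf {K : ℝ | ∃ f : ℕ → E,
                (∀ x : E, ∃! b : ℕ → 𝕜,
                  Filter.Tendsto (fun k : ℕ => ∑ i ∈ Finset.range k, b i • f i) Filter.atTop (nhds x)) ∧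
                ∀ (b : ℕ → 𝕜) (p q : ℕ), p ≤ q →
                  ‖∑ i ∈ Finset.range p, b i • f i‖ ≤ K * ‖∑ i ∈ Finset.range q, b i • f i‖} *
              ‖∑ i ∈ Finset.range n, a i • e i‖) := by
  intro h
  obtain ⟨e, h1, h2⟩ := h ℝ E ⟨f 0, basis_f 0⟩
  refine no_basis e h1 fun a m n hmn => (h2 a m n hmn).trans
    (mul_le_of_le_one_left (norm_nonneg _) (le_of_forall_pos_le_add fun δ hδ => ?_))
  obtain ⟨K, hK⟩ := exists_ps δ hδ
  refine le_trans (csInf_le ⟨0, ?_⟩ ?_) hK
  · rintro C ⟨g, hg, hC⟩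
    have h3 := hC (fun _ => 1) 1 1 le_rfl
    simp only [Finset.range_one, Finset.sum_singleton, one_smul] at h3
    have h4 : g 0 ≠ 0 := by
      intro h0
      obtain ⟨a0, -, hu⟩ := hg 0
      have e1 := hu 0 (by simp)
      have e2 := hu (Pi.single 0 1) (by
        have : ∀ k, ∑ i ∈ Finset.range k, (Pi.single 0 1 : ℕ → ℝ) i • g i = 0 := fun k =>
          Finset.sum_eq_zero fun i _ => by
            by_cases hi : i = 0
            · simp [hi, h0]
            · simp [hi]
        simp [this])
      have := congrFun (e1.trans e2.symm) 0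
      simp at this
    have h5 := norm_pos_iff.mpr h4
    exact nonneg_of_mul_nonneg_left (h5.le.trans h3) h5
  · refine ⟨f K, basis_f K, fun b p q hpq => ?_⟩
    have := P_norm K p (∑ i ∈ Finset.range q, b i • f K i)
    rwa [P_sum, min_eq_left hpq] at this

end Pool.Agent.S05388
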