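import Pool.Statements.S05428
import Pool.Agent.H87.Heis

set_option autoImplicit false
open Pool Pool.MP_935ebb_an

namespace Pool.Agent.S05428

theorem result :
    ¬ (∀ (G : Type) [Group G],
      (∃ μ : Set G → ℝ, (∀ A, 0 ≤ μ A) ∧ μ Set.univ = 1 ∧
        (∀ A B : Set G, Disjoint A B → μ (A ∪ B) = μ A + μ B) ∧
        (∀ (g : G) (A : Set G), μ ((fun x => g * x) '' A) = μ A)) →
      ∀ I : Submodule ℂ (lp (fun _ : G => ℂ) 1),
        IsClosed (I : Set (lp (fun _ : G => ℂ) 1)) →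
        (∀ f g : lp (fun _ : G => ℂ) 1, g ∈ I → ∀ h : lp (fun _ : G => ℂ) 1,
          (∀ x : G, h x = ∑' y : G, f y * g (y⁻¹ * x)) → h ∈ I) →
        (∀ f g : lp (fun _ : G => ℂ) 1, g ∈ I → ∀ h : lp (fun _ : G => ℂ) 1,
          (∀ x : G, h x = ∑' y : G, g y * f (y⁻¹ * x)) → h ∈ I) →
        (∀ H : Subgroup G, (∀ a ∈ H, ∀ b ∈ H, a * b = b * a) →
          ∃ s : Finset (lp (fun _ : G => ℂ) 1),
            (∀ v ∈ s, ∀ x : G, x ∉ H → v x = 0) ∧
            ∀ f : lp (fun _ : G => ℂ) 1, (∀ x : G, x ∉ H → f x = 0) →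
              f ∈ I ⊔ Submodule.span ℂ (s : Set (lp (fun _ : G => ℂ) 1))) →
        FiniteDimensional ℂ (lp (fun _ : G => ℂ) 1 ⧸ I)) := by
  intro h
  refine H87.Heis.not_fd (h H87.Heis.G (H87.LocFin.amenable_of_locally_finite _ H87.Heis.locfin)
    H87.Heis.I H87.Heis.I_closed ?_ ?_ H87.Heis.abel)
  · intro f g hg k hk
    rw [H87.Heis.mem_I] at hg ⊢
    intro n
    rw [H87.LocFin.pair_conv _ _ (H87.Heis.chi_mul n) f g k hk, hg n, mul_zero]
  · intro f g hg k hk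
    rw [H87.Heis.mem_I] at hg ⊢
    intro n
    rw [H87.LocFin.pair_conv _ _ (H87.Heis.chi_mul n) g f k hk, hg n, zero_mul]

end Pool.Agent.S05428
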