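import Pool.Statements.S05438
import Pool.Agent.H87.LipSC2

set_option autoImplicit false
open Pool Pool.MP_938f3b_an

namespace Pool.Agent.S05438

theorem result :
    ¬ (∀ (X : Type) [NormedAddCommGroup X] [NormedSpace ℝ X] [CompleteSpace X],
      (∃ f : X → lp (fun _ : ℕ => ℝ) ⊤, ∃ K₁ K₂ : NNReal,
          LipschitzWith K₁ f ∧ AntilipschitzWith K₂ f) →
      ∃ N : X → ℝ, ∃ c C : ℝ, 0 < c ∧ 0 < C ∧
        (∀ x : X, c * ‖x‖ ≤ N x ∧ N x ≤ C * ‖x‖) ∧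
        (∀ x y : X, N (x + y) ≤ N x + N y) ∧
        (∀ (r : ℝ) (x : X), N (r • x) = |r| * N x) ∧
        (∀ x y : X, N x = 1 → N y = 1 → x ≠ y → N ((1 / 2 : ℝ) • (x + y)) < 1)) := by
  intro h
  obtain ⟨N, c, C, hc, hC, h1, h2, h3, h4⟩ := h H87.LipSC.X H87.LipSC.embeds
  exact H87.LipSC.not_sc N c C hc hC h1 h2 h3 h4

end Pool.Agent.S05438
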