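import Pool.Statements.S05460

set_option autoImplicit false
open Pool Pool.MP_95bae3_an

namespace Pool.Agent.S05460

open BoundedContinuousFunction

/-- Translation of a finite set of integers. -/
def sh (m : ℤ) (s : Finset ℤ) : Finset ℤ := s.image (· + m)

lemma mem_sh {m j : ℤ} {s : Finset ℤ} : j ∈ sh m s ↔ j - m ∈ s := by
  simp only [sh, Finset.mem_image]
  exact ⟨fun ⟨a, ha, e⟩ => by rwa [← e, add_sub_cancel_right], fun h => ⟨_, h, by ring⟩⟩

/-- The lamplighter group. -/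
def L : Type := Finset ℤ × ℤ

instance : Countable L := inferInstanceAs (Countable (Finset ℤ × ℤ))
instance : Mul L := ⟨fun a b => (symmDiff (sh b.2 a.1) b.1, a.2 + b.2)⟩
instance : One L := ⟨(∅, 0)⟩
instance : Inv L := ⟨fun a => (sh (-a.2) a.1, -a.2)⟩

lemma mul1 (a b : L) : (a * b).1 = symmDiff (sh b.2 a.1) b.1 := rfl
lemma mul2 (a b : L) : (a * b).2 = a.2 + b.2 := rfl
lemma one1 : (1 : L).1 = ∅ := rfl
lemma one2 : (1 : L).2 = 0 := rfl
lemma inv1 (a : L) : (a⁻¹).1 = sh (-a.2) a.1 := rfl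
lemma inv2 (a : L) : (a⁻¹).2 = -a.2 := rfl

lemma L.ext {a b : L} (h1 : ∀ j, j ∈ a.1 ↔ j ∈ b.1) (h2 : a.2 = b.2) : a = b :=
  Prod.ext (Finset.ext h1) h2

instance : Group L := Group.ofLeftAxioms
  (fun a b c => L.ext (fun j => by
      simp only [mul1, mul2, Finset.mem_symmDiff, mem_sh, sub_sub, add_comm c.2 b.2]
      tauto) (by simp only [mul2, add_assoc]))
  (fun a => L.ext (fun j => by simp [mul1, one1, Finset.mem_symmDiff, mem_sh])
    (by simp [mul2, one2]))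
  (fun a => L.ext (fun j => by simp [mul1, one1, inv1, Finset.mem_symmDiff, mem_sh])
    (by simp [mul2, one2, inv2]))

lemma folner (F : Finset L) (ε : ℝ) (hε : 0 < ε) : ∃ A : Set L, A.Finite ∧ A.Nonempty ∧
    ∀ g ∈ F, ((symmDiff ((fun x => g * x) '' A) A).ncard : ℝ) < ε * (A.ncard : ℝ) := by
  classical
  obtain ⟨R, hR⟩ : ∃ R : ℕ, ∀ g ∈ F, |g.2| ≤ R := by
    obtain ⟨b, hb⟩ := (F.image fun g : L => |g.2|).bddAbove
    exact ⟨b.toNat, fun g hg =>
      (hb (Finset.mem_coe.2 (Finset.mem_image_of_mem _ hg))).trans (Int.self_le_toNat b)⟩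
  obtain ⟨N, hN⟩ := exists_nat_gt (4 * R / ε)
  have hN0 : (0 : ℝ) < N := lt_of_le_of_lt (by positivity) hN
  have hN1 : 0 < N := by exact_mod_cast hN0
  let S : Finset ℤ := F.biUnion fun g => (Finset.Ico (0 : ℤ) N).biUnion fun m => sh m g.1
  have hS : ∀ g ∈ F, ∀ m : ℤ, 0 ≤ m → m < N → sh m g.1 ⊆ S := fun g hg m h0 h1 j hj =>
    Finset.mem_biUnion.2 ⟨g, hg, Finset.mem_biUnion.2 ⟨m, Finset.mem_Ico.2 ⟨h0, h1⟩, hj⟩⟩
  have hsd : ∀ s u : Finset ℤ, s ⊆ S → u ⊆ S → symmDiff s u ⊆ S := fun s u h1 h2 j hj => by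
    rcases Finset.mem_symmDiff.1 hj with h | h
    · exact h1 h.1
    · exact h2 h.1
  let A : Finset L := S.powerset ×ˢ Finset.Ico (0 : ℤ) N
  let B : Finset L := S.powerset ×ˢ (Finset.Ico (-R : ℤ) R ∪ Finset.Ico (N - R : ℤ) (N + R))
  have mA : ∀ x : L, x ∈ A ↔ x.1 ⊆ S ∧ 0 ≤ x.2 ∧ x.2 < N := fun x => by
    have : x ∈ A ↔ x.1 ∈ S.powerset ∧ x.2 ∈ Finset.Ico (0 : ℤ) N := Finset.mem_product
    rw [this, Finset.mem_powerset, Finset.mem_Ico]
  have mB : ∀ x : L, x ∈ B ↔ x.1 ⊆ S ∧ ((-R ≤ x.2 ∧ x.2 < R) ∨ (N - R ≤ x.2 ∧ x.2 < N + R)) :=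
    fun x => by
    have : x ∈ B ↔ x.1 ∈ S.powerset ∧
      x.2 ∈ (Finset.Ico (-R : ℤ) R ∪ Finset.Ico (N - R : ℤ) (N + R)) := Finset.mem_product
    rw [this, Finset.mem_powerset, Finset.mem_union, Finset.mem_Ico, Finset.mem_Ico]
  have cA : A.card = S.powerset.card * N := by
    have : A.card = S.powerset.card * (Finset.Ico (0 : ℤ) N).card := Finset.card_product _ _
    rw [this]
    simp
  have cB : B.card ≤ S.powerset.card * (4 * R) := by
    have : B.card = S.powerset.card *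
      (Finset.Ico (-R : ℤ) R ∪ Finset.Ico (N - R : ℤ) (N + R)).card := Finset.card_product _ _
    rw [this]
    refine Nat.mul_le_mul_left _ ((Finset.card_union_le _ _).trans ?_)
    simp only [Int.card_Ico]
    omega
  refine ⟨A, A.finite_toSet, ⟨1, Finset.mem_coe.2 ((mA 1).2 ?_)⟩, fun g hg => ?_⟩
  · simp [one1, one2, hN1]
  have hg2 := abs_le.1 (hR g hg)
  have sub : symmDiff ((fun x => g * x) '' (A : Set L)) A ⊆ B := by
    intro x hx
    rw [Finset.mem_coe, mB]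
    rcases Set.mem_symmDiff.1 hx with ⟨⟨a, ha, rfl⟩, h2⟩ | ⟨h1, h2⟩
    · rw [Finset.mem_coe, mA] at ha h2
      have h3 : (g * a).1 ⊆ S := hsd _ _ (hS g hg _ ha.2.1 ha.2.2) ha.1
      refine ⟨h3, ?_⟩
      simp only [h3, true_and, mul2] at h2 ⊢
      omega
    · rw [Finset.mem_coe, mA] at h1
      refine ⟨h1.1, ?_⟩
      by_contra h3
      refine h2 ⟨(symmDiff (sh (x.2 - g.2) g.1) x.1, x.2 - g.2), Finset.mem_coe.2 ((mA _).2
        ⟨hsd _ _ (hS g hg _ (by omega) (by omega)) h1.1, by dsimp only; omega,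
          by dsimp only; omega⟩), L.ext (fun j => ?_) (by simp [mul2])⟩
      simp only [mul1, Finset.mem_symmDiff]
      tauto
  have h1 := Set.ncard_le_ncard sub B.finite_toSet
  rw [Set.ncard_coe_finset] at h1 ⊢
  have h2 : (0 : ℝ) < S.powerset.card := by
    rw [Finset.card_powerset]
    positivity
  have h3 : ((symmDiff ((fun x => g * x) '' (A : Set L)) A).ncard : ℝ)
      ≤ S.powerset.card * (4 * R) := by exact_mod_cast h1.trans cB
  rw [cA]
  push_cast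
  rw [div_lt_iff₀ hε] at hN
  nlinarith

instance : TopologicalSpace L := ⊥
instance : DiscreteTopology L := ⟨rfl⟩

/-- Right translation on bounded functions. -/
noncomputable def Rt (g : L) : (L →ᵇ ℝ) →L[ℝ] (L →ᵇ ℝ) :=
  compContinuousCLM ℝ ℝ ⟨fun k => k * g, continuous_of_discreteTopology⟩

lemma Rt_apply (g : L) (f : L →ᵇ ℝ) (k : L) : Rt g f k = f (k * g) := rfl

lemma Rt_mul (g h : L) (f : L →ᵇ ℝ) : Rt g (Rt h f) = Rt (g * h) f := by
  ext k
  simp only [Rt_apply, mul_assoc]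

lemma Rt_one (f : L →ᵇ ℝ) : Rt 1 f = f := by
  ext k
  simp only [Rt_apply, mul_one]

lemma Rt_norm (g : L) (f : L →ᵇ ℝ) : ‖Rt g f‖ = ‖f‖ := by
  have h : ∀ (g : L) (f : L →ᵇ ℝ), ‖Rt g f‖ ≤ ‖f‖ := fun g f => norm_compContinuous_le _ _
  refine le_antisymm (h g f) ?_
  have := h g⁻¹ (Rt g f)
  rwa [Rt_mul, inv_mul_cancel, Rt_one] at this

/-- A bounded harmonic function. -/
noncomputable def φ : L →ᵇ ℝ := ofNormedAddCommGroupDiscrete
  (fun k => if k.2 ≤ 0 then (if k.2 ∈ k.1 then -1 else 1) else 0) 1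
  (fun k => by split_ifs <;> simp)

lemma φ_apply (k : L) : φ k = if k.2 ≤ 0 then (if k.2 ∈ k.1 then -1 else 1) else 0 := rfl

/-- The closed span of the orbit. -/
noncomputable def Y : Submodule ℝ (L →ᵇ ℝ) :=
  (Submodule.span ℝ (Set.range fun g => Rt g φ)).topologicalClosure

lemma Y_inv (g : L) {f : L →ᵇ ℝ} (hf : f ∈ Y) : Rt g f ∈ Y := by
  have h : Y ≤ Y.comap (Rt g : (L →ᵇ ℝ) →ₗ[ℝ] (L →ᵇ ℝ)) := by
    refine Submodule.topologicalClosure_minimal _ (Submodule.span_le.2 ?_) ?_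
    · rintro _ ⟨k, rfl⟩
      exact Submodule.le_topologicalClosure _ (Submodule.subset_span ⟨g * k, (Rt_mul g k φ).symm⟩)
    · exact (Submodule.isClosed_topologicalClosure _).preimage (Rt g).continuous
  exact h hf

instance : CompleteSpace Y := (Submodule.isClosed_topologicalClosure _).completeSpace_coe

instance : TopologicalSpace.SeparableSpace Y :=
  (((Set.countable_range _).isSeparable.span (R := ℝ)).closure).separableSpace

/-- The action on `Y`. -/
noncomputable def act (g : L) : Y ≃ₗᵢ[ℝ] Y where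
  toFun x := ⟨Rt g x, Y_inv g x.2⟩
  invFun x := ⟨Rt g⁻¹ x, Y_inv g⁻¹ x.2⟩
  map_add' x y := Subtype.ext (map_add (Rt g) _ _)
  map_smul' c x := Subtype.ext (map_smul (Rt g) _ _)
  left_inv x := Subtype.ext (by simp only [Rt_mul, inv_mul_cancel, Rt_one])
  right_inv x := Subtype.ext (by simp only [Rt_mul, mul_inv_cancel, Rt_one])
  norm_map' x := Rt_norm g x

/-- The action as a homomorphism. -/
noncomputable def ρ : L →* (Y ≃ₗᵢ[ℝ] Y) := MonoidHom.mk' act fun g h => by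
  ext1 x
  exact Subtype.ext (Rt_mul g h x).symm

lemma harm : (1 / 2 : ℝ) • (φ + Rt (({0}, 0) : Finset ℤ × ℤ) φ) = Rt ((∅, 1) : Finset ℤ × ℤ) φ := by
  ext k
  simp only [BoundedContinuousFunction.smul_apply, BoundedContinuousFunction.add_apply, Rt_apply,
    φ_apply, mul1, mul2, Finset.mem_symmDiff, mem_sh, smul_eq_mul]
  rcases lt_trichotomy k.2 0 with h | h | h
  · by_cases h1 : k.2 ∈ k.1 <;> simp [h1, h.le, h.ne, show k.2 + 1 ≤ 0 by omega] <;> norm_num
  · by_cases h1 : (0 : ℤ) ∈ k.1 <;> simp [h1, h]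
  · simp [not_le.2 h, show ¬ (k.2 + 1 ≤ 0) by omega]

lemma neq : φ ≠ Rt (({0}, 0) : Finset ℤ × ℤ) φ := by
  intro h
  have := congrArg (fun f : L →ᵇ ℝ => f 1) h
  simp [Rt_apply, φ_apply, one1, one2] at this
  norm_num at this


/-- The negation of the preceding statement: Every countable group satisfying the Følner condition, acting by linear isometries on a separable real Banach space, admits an equivalent norm that is invariant under the action and strictly convex. -/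
theorem result :
    ¬ (∀ (G : Type) [Group G] [Countable G],
      (∀ (F : Finset G) (ε : ℝ), 0 < ε → ∃ A : Set G, A.Finite ∧ A.Nonempty ∧
          ∀ g ∈ F, ((symmDiff ((fun x => g * x) '' A) A).ncard : ℝ) < ε * (A.ncard : ℝ)) →
      ∀ (X : Type) [NormedAddCommGroup X] [NormedSpace ℝ X] [CompleteSpace X]
        [TopologicalSpace.SeparableSpace X] (ρ : G →* (X ≃ₗᵢ[ℝ] X)),
      ∃ N : X → ℝ,
        (∀ x y : X, N (x + y) ≤ N x + N y) ∧
        (∀ (c : ℝ) (x : X), N (c • x) = |c| * N x) ∧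
        (∃ a b : ℝ, 0 < a ∧ 0 < b ∧ ∀ x : X, a * ‖x‖ ≤ N x ∧ N x ≤ b * ‖x‖) ∧
        (∀ (g : G) (x : X), N (ρ g x) = N x) ∧
        (∀ x y : X, N x = 1 → N y = 1 → x ≠ y → N ((1 / 2 : ℝ) • (x + y)) < 1)) := by
  intro h
  obtain ⟨N, -, hsm, ⟨a, b, ha, -, hab⟩, hinv, hsc⟩ := h L folner Y ρ
  let x : Y := ⟨φ, Submodule.le_topologicalClosure _ (Submodule.subset_span ⟨1, Rt_one φ⟩)⟩
  let g : L := (({0}, 0) : Finset ℤ × ℤ)
  let k : L := ((∅, 1) : Finset ℤ × ℤ)
  have h1 : x ≠ ρ g x := fun e => neq (congrArg Subtype.val e)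
  have h2 : (1 / 2 : ℝ) • (x + ρ g x) = ρ k x := Subtype.ext harm
  have h0 : x ≠ 0 := fun e => h1 (by rw [e]; exact ((ρ g).map_zero).symm)
  have h5 : 0 < ‖(x : L →ᵇ ℝ)‖ := norm_pos_iff.2 fun e => h0 (Subtype.ext e)
  have hN : 0 < N x := lt_of_lt_of_le (mul_pos ha h5) (hab x).1
  have h3 : N ((N x)⁻¹ • x) = 1 := by
    rw [hsm, abs_of_pos (inv_pos.2 hN), inv_mul_cancel₀ hN.ne']
  have h4 := hsc ((N x)⁻¹ • x) (ρ g ((N x)⁻¹ • x)) h3 (by rw [hinv, h3]) (fun e => h1 (by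
    rw [map_smul] at e
    exact smul_right_injective _ (inv_pos.2 hN).ne' e))
  rw [map_smul, ← smul_add, smul_comm, h2, ← map_smul, hinv, h3] at h4
  exact lt_irrefl _ h4

end Pool.Agent.S05460
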