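import Pool.Statements.S05486
import Pool.Agent.H99.Comm4

set_option autoImplicit false
open Pool Pool.MP_97b1c0_an

namespace Pool.Agent.S05486

/-- The negation of the preceding statement: For any two commuting continuous maps of the unit square whose first output coordinate depends only on the first input coordinate (triangular maps), some point is periodic for both maps. -/
theorem result :
    ¬ (∀ F G : unitInterval × unitInterval → unitInterval × unitInterval,
      Continuous F → Continuous G →
      (∀ p q : unitInterval × unitInterval, p.1 = q.1 → (F p).1 = (F q).1) →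
      (∀ p q : unitInterval × unitInterval, p.1 = q.1 → (G p).1 = (G q).1) →
      F ∘ G = G ∘ F →
      (Function.periodicPts F ∩ Function.periodicPts G).Nonempty) := by
  intro H
  apply H99.Comm4.main
  intro f g hfg
  have it : ∀ (h : unitInterval → unitInterval) (n : ℕ) (p : unitInterval × unitInterval),
      ((fun q : unitInterval × unitInterval => (h q.1, q.2))^[n] p).1 = h^[n] p.1 := by
    intro h n
    induction n with
    | zero => intro p; rfl
    | succ n ih => intro p; rw [Function.iterate_succ_apply, ih]; rfl
  obtain ⟨p, ⟨k1, p1, q1⟩, ⟨k2, p2, q2⟩⟩ := H (fun q => (f q.1, q.2)) (fun q => (g q.1, q.2))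
    (by fun_prop) (by fun_prop) (fun p q e => by simp only [e]) (fun p q e => by simp only [e])
    (by funext q; exact Prod.ext (congrFun hfg q.1) rfl)
  refine ⟨p.1, ⟨k1, p1, ?_⟩, ⟨k2, p2, ?_⟩⟩
  · exact (it f k1 p).symm.trans (congrArg Prod.fst q1.eq)
  · exact (it g k2 p).symm.trans (congrArg Prod.fst q2.eq)

end Pool.Agent.S05486
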