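import Pool.Statements.S05490
import Pool.Agent.H51.HypL1c

set_option autoImplicit false
open Filter Topology
open Pool Pool.MP_97ee8d_an

namespace Pool.Agent.S05490
open Pool.Agent.H51.HypL1

/-- The negation of the preceding statement: For every real or complex Banach space with a finite-dimensional decomposition, some decomposition has partial-sum projections whose norms are bounded by any bound valid for every other decomposition, so the decomposition constant is attained. -/
theorem result :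
    ¬ (∀ (𝕜 : Type) [RCLike 𝕜] (E : Type) [NormedAddCommGroup E] [NormedSpace 𝕜 E]
      [CompleteSpace E],
      (∃ P : ℕ → E →L[𝕜] E,
          (∀ n, FiniteDimensional 𝕜 (LinearMap.range (P n : E →ₗ[𝕜] E))) ∧
          (∀ n m, (P n).comp (P m) = P (min n m)) ∧
          (∀ x : E, Tendsto (fun n => P n x) atTop (𝓝 x))) →
      ∃ P : ℕ → E →L[𝕜] E,
        ((∀ n, FiniteDimensional 𝕜 (LinearMap.range (P n : E →ₗ[𝕜] E))) ∧
          (∀ n m, (P n).comp (P m) = P (min n m)) ∧
          (∀ x : E, Tendsto (fun n => P n x) atTop (𝓝 x))) ∧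
        ∀ Q : ℕ → E →L[𝕜] E,
          ((∀ n, FiniteDimensional 𝕜 (LinearMap.range (Q n : E →ₗ[𝕜] E))) ∧
            (∀ n m, (Q n).comp (Q m) = Q (min n m)) ∧
            (∀ x : E, Tendsto (fun n => Q n x) atTop (𝓝 x))) →
          ∀ c : ℝ, (∀ m, ‖Q m‖ ≤ c) → ∀ n, ‖P n‖ ≤ c) := by
  intro h
  obtain ⟨Q, ⟨h1, h2, h3⟩, h4⟩ := h ℝ E ⟨P 0, P_fin 0, P_comp 0, P_tendsto 0⟩
  refine no_seq Q h1 (fun n x => ?_) h3 fun n => le_of_forall_pos_le_add fun δ hδ => ?_
  · have := h2 n n
    rw [min_self] at this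
    exact congrArg (fun T : E →L[ℝ] E => T x) this
  · obtain ⟨K, hK⟩ := exists_ps δ hδ
    exact h4 (P K) ⟨P_fin K, P_comp K, P_tendsto K⟩ _ (fun m => (P_opNorm K m).trans hK) n

end Pool.Agent.S05490
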