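import Pool.Statements.S05498

set_option autoImplicit false
open Classical
open Pool Pool.MP_987215_an

namespace Pool.Agent.S05498

/-- the node (4+3i)/5 -/
noncomputable def z0 : ℂ := ⟨4 / 5, 3 / 5⟩
/-- the node (4-3i)/5 -/
noncomputable def z1 : ℂ := ⟨4 / 5, -3 / 5⟩

theorem z_ne : z0 ≠ z1 := by
  intro h
  have := congrArg Complex.im h
  simp [z0, z1] at this
  norm_num at this

theorem card_eq (w : ℂ) : (Finset.univ.filter (fun j : Fin 2 => ![z0, z1] j = w)).card =
    (if z0 = w then 1 else 0) + (if z1 = w then 1 else 0) := by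
  rw [Finset.card_filter, Fin.sum_univ_two]
  by_cases h0 : z0 = w <;> by_cases h1 : z1 = w <;> simp [h0, h1]

theorem conj0 : starRingEnd ℂ z0 = z1 := by
  apply Complex.ext <;> simp [z0, z1]
  norm_num

theorem conj1 : starRingEnd ℂ z1 = z0 := by
  apply Complex.ext <;> simp [z0, z1]
  norm_num

theorem iter2 : iteratedDeriv 2 (fun w : ℂ => w ^ 4 / 12) = fun w => w ^ 2 := by
  have h1 : deriv (fun w : ℂ => w ^ 4 / 12) = fun w => w ^ 3 / 3 := by
    funext w
    have : HasDerivAt (fun w : ℂ => w ^ 4 / 12) (((4:ℕ) * w ^ 3) / 12) w :=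
      (hasDerivAt_pow 4 w).div_const 12
    rw [this.deriv]; push_cast; ring
  have h2 : deriv (fun w : ℂ => w ^ 3 / 3) = fun w => w ^ 2 := by
    funext w
    have : HasDerivAt (fun w : ℂ => w ^ 3 / 3) (((3:ℕ) * w ^ 2) / 3) w :=
      (hasDerivAt_pow 3 w).div_const 3
    rw [this.deriv]; push_cast; ring
  rw [show (2:ℕ) = 1 + 1 from rfl, iteratedDeriv_succ, iteratedDeriv_one, h1, h2]

/-- Counterexample with two nodes (4 ± 3i)/5, first derivative, and g(w) = w^4/12. -/
theorem result :
    ¬ (∀ (n : ℕ), 1 ≤ n → ∀ k : ℕ, k ≤ n - 1 → ∀ z : Fin n → ℂ, (∀ j, ‖z j‖ ≤ 1) →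
    (∀ w : ℂ, w.im ≠ 0 →
      (Finset.univ.filter (fun j => z j = w)).card =
        (Finset.univ.filter (fun j => z j = starRingEnd ℂ w)).card) →
    (∀ w : ℂ, w.im = 0 → Even (Finset.univ.filter (fun j => z j = w)).card) →
    IsLUB {e : ℝ | ∃ g : ℂ → ℂ, ∃ p : Polynomial ℂ,
        Differentiable ℂ g ∧
        (∀ w : ℂ, ‖w‖ ≤ 1 → ‖iteratedDeriv n g w‖ ≤ 1) ∧
        p.degree < (n : WithBot ℕ) ∧
        (∀ j : Fin n, ∀ i : ℕ, i < (Finset.univ.filter (fun l => z l = z j)).card →
          iteratedDeriv i (fun x => p.eval x) (z j) = iteratedDeriv i g (z j)) ∧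
        e = ‖iteratedDeriv k g 1 - iteratedDeriv k (fun x => p.eval x) 1‖}
      (‖iteratedDeriv k (fun x => (∏ j : Fin n, (Polynomial.X - Polynomial.C (z j))).eval x) 1‖
        / (n.factorial : ℝ))) := by
  intro h
  have hn : ∀ j : Fin 2, ‖![z0, z1] j‖ ≤ 1 := by
    intro j
    fin_cases j <;> simp [z0, z1, Complex.norm_def, Complex.normSq_mk] <;> norm_num
  have key := h 2 (by norm_num) 1 (by norm_num) ![z0, z1] hn ?_ ?_
  · have hub := key.1
    have hmem := @hub (97 / 375) ⟨fun w => w ^ 4 / 12,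
      Polynomial.C (28 / 375) * Polynomial.X + Polynomial.C (-13 / 100), ?_, ?_, ?_, ?_, ?_⟩
    · have hd : iteratedDeriv 1 (fun x : ℂ => (∏ j : Fin 2,
          (Polynomial.X - Polynomial.C (![z0, z1] j))).eval x) 1 = 2 / 5 := by
        rw [iteratedDeriv_one]
        have : (fun x : ℂ => (∏ j : Fin 2, (Polynomial.X - Polynomial.C (![z0, z1] j))).eval x)
            = fun x => (x - z0) * (x - z1) := by
          funext x; simp [Fin.prod_univ_two]
        rw [this]
        have h2 : HasDerivAt (fun x : ℂ => (x - z0) * (x - z1)) (1 * (1 - z1) + (1 - z0) * 1) 1 :=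
          ((hasDerivAt_id (1:ℂ)).sub_const z0).mul ((hasDerivAt_id (1:ℂ)).sub_const z1)
        rw [h2.deriv]
        apply Complex.ext <;> simp [z0, z1] <;> norm_num
      rw [hd] at hmem
      simp [Nat.factorial] at hmem
      norm_num at hmem
    · fun_prop
    · intro w hw
      rw [iter2]
      simp only [norm_pow]
      exact pow_le_one₀ (norm_nonneg _) hw
    · exact lt_of_le_of_lt Polynomial.degree_linear_le (by norm_num)
    · intro j i hi
      rw [card_eq] at hi
      have hi0 : i = 0 := by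
        fin_cases j
        · simp [z_ne.symm] at hi; exact hi
        · simp [z_ne] at hi; exact hi
      subst hi0
      simp only [iteratedDeriv_zero]
      fin_cases j
      · apply Complex.ext <;> simp [z0, pow_succ] <;> norm_num
      · apply Complex.ext <;> simp [z1, pow_succ] <;> norm_num
    · rw [iteratedDeriv_one, iteratedDeriv_one]
      have h1 : HasDerivAt (fun w : ℂ => w ^ 4 / 12) (((4:ℕ) * (1:ℂ) ^ 3) / 12) 1 :=
        (hasDerivAt_pow 4 1).div_const 12
      have h2 : deriv (fun x : ℂ => (Polynomial.C (28 / 375 : ℂ) * Polynomial.X +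
          Polynomial.C (-13 / 100)).eval x) 1 = 28 / 375 := by
        rw [Polynomial.deriv]; simp
      rw [h1.deriv, h2]
      have : (((4:ℕ) * (1:ℂ) ^ 3) / 12 - 28 / 375 : ℂ) = ((97 / 375 : ℝ) : ℂ) := by
        push_cast; ring
      rw [this, Complex.norm_real]
      norm_num
  · intro w _
    rw [card_eq, card_eq]
    have e0 : (z0 = starRingEnd ℂ w) ↔ (z1 = w) := by
      constructor
      · intro h; rw [← conj0, h]; simp
      · intro h; rw [← h, conj1]
    have e1 : (z1 = starRingEnd ℂ w) ↔ (z0 = w) := by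
      constructor
      · intro h; rw [← conj1, h]; simp
      · intro h; rw [← h, conj0]
    simp only [e0, e1]
    omega
  · intro w hw
    rw [card_eq]
    have e0 : z0 ≠ w := by
      intro h; rw [← h] at hw; simp [z0] at hw
    have e1 : z1 ≠ w := by
      intro h; rw [← h] at hw; simp [z1] at hw
    simp [e0, e1]

end Pool.Agent.S05498
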