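import Pool.Statements.S05499
import Mathlib

set_option autoImplicit false
open MeasureTheory
open Pool Pool.MP_98de44_an

namespace Pool.Agent.S05499

open Filter Set

/-- An eigenfunction of an ergodic map vanishes a.e. or is nonzero a.e. -/
lemma zero_or {β : Type} [MeasurableSpace β] {ν : Measure β} {S : β → β} (hS : Ergodic S ν)
    {f : β → ℂ} (hf : Measurable f) {c : ℂ} (hc : c ≠ 0)
    (h : f ∘ S =ᵐ[ν] fun x => c * f x) : (∀ᵐ x ∂ν, f x = 0) ∨ (∀ᵐ x ∂ν, f x ≠ 0) := by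
  have hm : MeasurableSet {x | f x = 0} := hf (measurableSet_singleton 0)
  have := hS.quasiErgodic.ae_mem_or_ae_notMem₀ hm.nullMeasurableSet (by
    filter_upwards [h] with x hx
    simp only [Function.comp] at hx
    change (f (S x) = 0) = (f x = 0)
    rw [hx]; simp [hc])
  exact this

/-- An eigenfunction of T is a.e. constant when T × T is ergodic. -/
lemma eigen_const {α : Type} [MeasurableSpace α] {μ : Measure α} [SigmaFinite μ] (hμ : μ ≠ 0)
    {T : α → α} (hE : Ergodic (Prod.map T T) (μ.prod μ)) {g : α → ℂ} (hg : Measurable g)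
    (hne : ∀ᵐ x ∂μ, g x ≠ 0) {c : ℂ} (hc : c ≠ 0) (h : ∀ᵐ x ∂μ, g (T x) = c * g x) :
    ∃ a, ∀ᵐ x ∂μ, g x = a := by
  have h1 : ∀ᵐ p : α × α ∂(μ.prod μ), g (T p.1) = c * g p.1 :=
    Measure.quasiMeasurePreserving_fst.ae h
  have h2 : ∀ᵐ p : α × α ∂(μ.prod μ), g (T p.2) = c * g p.2 :=
    Measure.quasiMeasurePreserving_snd.ae h
  have h3 : ∀ᵐ p : α × α ∂(μ.prod μ), g p.2 ≠ 0 :=
    Measure.quasiMeasurePreserving_snd.ae hne
  have hG : Measurable (fun p : α × α => g p.1 / g p.2) := by fun_prop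
  obtain ⟨k, hk⟩ := hE.ae_eq_const_of_ae_eq_comp_ae hG.aestronglyMeasurable (by
    filter_upwards [h1, h2] with p hp1 hp2
    simp only [Function.comp, Prod.map_fst, Prod.map_snd, hp1, hp2]
    exact mul_div_mul_left _ _ hc)
  have h4 : ∀ᵐ p : α × α ∂(μ.prod μ), g p.1 = k * g p.2 := by
    filter_upwards [hk, h3] with p hp hp3
    simp only [Function.const] at hp
    rw [← hp]; field_simp
  have h5 : ∀ᵐ p : α × α ∂(μ.prod μ), g p.2 = k * g p.1 :=
    Measure.measurePreserving_swap.quasiMeasurePreserving.ae h4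
  have h6 := Measure.ae_ae_of_ae_prod h5
  have : (ae μ).NeBot := ae_neBot.2 hμ
  obtain ⟨x, hx⟩ := h6.exists
  exact ⟨k * g x, hx⟩

theorem result :
    ∀ (α : Type) [MeasurableSpace α] [StandardBorelSpace α]
      (μ : MeasureTheory.Measure α) [MeasureTheory.SigmaFinite μ] (T : α ≃ᵐ α),
      μ Set.univ = ⊤ →
      MeasureTheory.MeasurePreserving (⇑T) μ μ →
      MeasureTheory.Conservative (⇑T) μ →
      Ergodic (Prod.map ⇑T ⇑T) (μ.prod μ) →
      ∀ (f : α × α → ℂ), Measurable f → ∀ c : ℂ,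
        (f ∘ Prod.map ⇑T ⇑T =ᵐ[μ.prod μ] fun x => c * f x) →
        ∃ a : ℂ, f =ᵐ[μ.prod μ] fun _ => a := by
  intro α _ _ μ _ T hμ hT _ hE f hf c h
  have hμ0 : μ ≠ 0 := by rintro rfl; simp at hμ
  have hNe : (ae μ).NeBot := ae_neBot.2 hμ0
  by_cases hc : c = 0
  · refine ⟨0, ?_⟩
    have hs : MeasurePreserving (Prod.map T.symm T.symm) (μ.prod μ) (μ.prod μ) :=
      (hT.symm T).prod (hT.symm T)
    filter_upwards [hs.quasiMeasurePreserving.ae h] with p hp
    simpa [hc, Prod.map] using hp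
  rcases zero_or hE hf hc h with h0 | h0
  · exact ⟨0, h0⟩
  -- the eigenfunction composed with id × T
  have hU : MeasurePreserving (Prod.map id T) (μ.prod μ) (μ.prod μ) :=
    (MeasurePreserving.id μ).prod hT
  have hF : ∀ᵐ p : α × α ∂(μ.prod μ), f (T p.1, T (T p.2)) = c * f (p.1, T p.2) :=
    hU.quasiMeasurePreserving.ae h
  have hF0 : ∀ᵐ p : α × α ∂(μ.prod μ), f (p.1, T p.2) ≠ 0 := hU.quasiMeasurePreserving.ae h0
  have hG : Measurable (fun p : α × α => f (p.1, T p.2) / f p) := by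
    have := T.measurable
    fun_prop
  obtain ⟨k, hk⟩ := hE.ae_eq_const_of_ae_eq_comp_ae hG.aestronglyMeasurable (by
    filter_upwards [hF, h] with p hp1 hp2
    simp only [Function.comp, Prod.map_fst, Prod.map_snd] at hp2 ⊢
    rw [hp1, hp2]
    exact mul_div_mul_left _ _ hc)
  have h4 : ∀ᵐ p : α × α ∂(μ.prod μ), f (p.1, T p.2) = k * f p ∧ f p ≠ 0 ∧ k ≠ 0 := by
    filter_upwards [hk, h0, hF0] with p hp hp3 hp4
    simp only [Function.const] at hp
    refine ⟨by rw [← hp]; field_simp, hp3, ?_⟩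
    rw [← hp]; exact div_ne_zero hp4 hp3
  have h5 : ∀ᵐ x ∂μ, ∃ a, ∀ᵐ y ∂μ, f (x, y) = a := by
    filter_upwards [Measure.ae_ae_of_ae_prod h4] with x hx
    have hk0 : k ≠ 0 := hx.exists.choose_spec.2.2
    exact eigen_const hμ0 hE (g := fun y => f (x, y)) (by fun_prop)
      (hx.mono fun y hy => hy.2.1) hk0 (hx.mono fun y hy => hy.1)
  -- choose a good second coordinate
  have h6 : ∀ᵐ x ∂μ, ∀ᵐ y₀ ∂μ, ∀ᵐ y ∂μ, f (x, y) = f (x, y₀) := by
    filter_upwards [h5] with x ⟨a, ha⟩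
    filter_upwards [ha] with y₀ hy₀
    filter_upwards [ha] with y hy
    rw [hy, hy₀]
  have hms : MeasurableSet {q : (α × α) × α | f (q.1.1, q.2) = f (q.1.1, q.1.2)} :=
    measurableSet_eq_fun (by fun_prop) (by fun_prop)
  have hms2 : MeasurableSet {p : α × α | ∀ᵐ y ∂μ, f (p.1, y) = f (p.1, p.2)} := by
    have := measurable_measure_prodMk_left (ν := μ) hms.compl
    have h7 := this (measurableSet_singleton 0)
    exact h7
  have h7 := (Measure.ae_ae_comm (μ := μ) (ν := μ)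
    (p := fun x y₀ => ∀ᵐ y ∂μ, f (x, y) = f (x, y₀)) hms2).1 h6
  obtain ⟨y₀, hy₀⟩ := h7.exists
  have h8 : ∀ᵐ p : α × α ∂(μ.prod μ), f p = f (p.1, y₀) :=
    (Measure.ae_prod_iff_ae_ae (measurableSet_eq_fun hf (by fun_prop))).2 hy₀
  have h9 : ∀ᵐ p : α × α ∂(μ.prod μ), f (T p.1, y₀) = c * f (p.1, y₀) ∧ f (p.1, y₀) ≠ 0 := by
    filter_upwards [h8, hE.toMeasurePreserving.quasiMeasurePreserving.ae h8, h, h0]
      with p a1 a2 a3 a4
    simp only [Function.comp, Prod.map_fst] at a2 a3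
    rw [← a2, a3, ← a1]; exact ⟨rfl, a4⟩
  have h10 : ∀ᵐ x ∂μ, f (T x, y₀) = c * f (x, y₀) ∧ f (x, y₀) ≠ 0 := by
    filter_upwards [Measure.ae_ae_of_ae_prod h9] with x hx
    exact hx.exists.choose_spec
  obtain ⟨a, ha⟩ := eigen_const hμ0 hE (g := fun x => f (x, y₀)) (by fun_prop)
    (h10.mono fun x hx => hx.2) hc (h10.mono fun x hx => hx.1)
  refine ⟨a, ?_⟩
  filter_upwards [h8, Measure.quasiMeasurePreserving_fst.ae ha] with p a1 a2
  rw [a1, a2]

end Pool.Agent.S05499
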