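import Pool.Statements.S05524

set_option autoImplicit false
open Pool Pool.MP_9b0ce4_an

namespace Pool.Agent.S05524

open TopologicalSpace

section
variable {X : Type} [NormedAddCommGroup X] [NormedSpace ℝ X] (T : X ≃ₗᵢ[ℝ] X)

/-- `x` lies in the closed absolutely convex hull of the orbit of `m` (dual form). -/
def Dom (x m : X) : Prop :=
  ∀ (φ : X →L[ℝ] ℝ) (s : ℝ), (∀ n : ℤ, |φ ((T ^ n) m)| ≤ s) → |φ x| ≤ s

/-- Composition with a power of `T`. -/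
noncomputable def tw (j : ℤ) (φ : X →L[ℝ] ℝ) : X →L[ℝ] ℝ :=
  φ.comp (T ^ j).toLinearIsometry.toContinuousLinearMap

lemma tw_apply (j : ℤ) (φ : X →L[ℝ] ℝ) (x : X) : tw T j φ x = φ ((T ^ j) x) := rfl

lemma tw_norm (j : ℤ) {φ : X →L[ℝ] ℝ} (h : ‖φ‖ ≤ 1) : ‖tw T j φ‖ ≤ 1 := by
  refine ContinuousLinearMap.opNorm_le_bound _ zero_le_one fun x => ?_
  rw [tw_apply]
  refine (φ.le_opNorm _).trans ?_
  rw [LinearIsometryEquiv.norm_map]
  exact mul_le_mul_of_nonneg_right h (norm_nonneg _)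

lemma pw (i j : ℤ) (x : X) : (T ^ i) ((T ^ j) x) = (T ^ (i + j)) x := by
  rw [zpow_add]
  rfl

lemma compact_img (m : X) (P : Set (WeakDual ℝ X)) (hP : IsClosed P) :
    IsCompact {k : ℤ → ℝ | ∃ ψ : X →L[ℝ] ℝ, ‖ψ‖ ≤ 1 ∧ StrongDual.toWeakDual ψ ∈ P ∧
      ∀ n : ℤ, ψ ((T ^ n) m) = k n} := by
  have h1 := ((WeakDual.isCompact_closedBall (0 : StrongDual ℝ X) 1).inter_right hP).image
    (f := fun ψ : WeakDual ℝ X => fun n : ℤ => ψ ((T ^ n) m))
    (continuous_pi fun n => WeakDual.eval_continuous _)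
  convert h1 using 1
  ext k
  constructor
  · rintro ⟨ψ, h1, h2, h3⟩
    exact ⟨StrongDual.toWeakDual ψ, ⟨by simpa using h1, h2⟩, funext h3⟩
  · rintro ⟨ψ, ⟨h1, h2⟩, h3⟩
    exact ⟨WeakDual.toStrongDual ψ, by simpa using h1, h2, fun n => congrFun h3 n⟩

lemma lift {x m : X} (h : Dom T x m) {φ : X →L[ℝ] ℝ} (hφ : ‖φ‖ ≤ 1) :
    ∃ ψ : X →L[ℝ] ℝ, ‖ψ‖ ≤ 1 ∧ ∀ n : ℤ, ψ ((T ^ n) m) = φ ((T ^ n) x) := by
  let W : Set X := {y | ∃ ψ : X →L[ℝ] ℝ, ‖ψ‖ ≤ 1 ∧ ∀ n : ℤ, ψ ((T ^ n) m) = φ ((T ^ n) y)}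
  have hc : IsClosed W := by
    have h1 := (compact_img T m Set.univ isClosed_univ).isClosed.preimage
      (f := fun y : X => fun n : ℤ => φ ((T ^ n) y)) (by fun_prop)
    convert h1 using 1
    ext y
    simp [W]
  have hv : Convex ℝ W := by
    rintro y ⟨ψ, h1, h2⟩ z ⟨χ, h3, h4⟩ a b ha hb hab
    refine ⟨a • ψ + b • χ, ?_, fun n => by simp [h2, h4]⟩
    refine (norm_add_le _ _).trans ?_
    rw [norm_smul, norm_smul, Real.norm_of_nonneg ha, Real.norm_of_nonneg hb]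
    nlinarith
  by_contra hx
  obtain ⟨f, u, h1, h2⟩ := geometric_hahn_banach_closed_point hv hc hx
  have h3 := h f u fun j => by
    have a1 := h1 ((T ^ j) m) ⟨tw T j φ, tw_norm T j hφ, fun n => by
      rw [tw_apply, pw, pw, add_comm]⟩
    have a2 := h1 (-(T ^ j) m) ⟨-tw T j φ, by rw [norm_neg]; exact tw_norm T j hφ, fun n => by
      rw [map_neg, map_neg, ContinuousLinearMap.neg_apply, tw_apply, pw, pw, add_comm]⟩
    rw [map_neg] at a2
    exact abs_le.2 ⟨by linarith, a1.le⟩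
  linarith [le_abs_self (f x)]

lemma key {m d : X} (h1 : Dom T (m + d) m) (h2 : Dom T (m - d) m) : d = 0 := by
  have hc := compact_img T m {ψ : WeakDual ℝ X | ψ d = ‖d‖}
    (isClosed_eq (WeakDual.eval_continuous d) continuous_const)
  obtain ⟨g, hg1, hg2⟩ := exists_dual_vector'' ℝ d
  obtain ⟨e, he⟩ := hc.extremePoints_nonempty ⟨fun n => g ((T ^ n) m), g, hg1, hg2, fun _ => rfl⟩
  rw [mem_extremePoints_iff_left] at he
  obtain ⟨⟨φ, a1, a2, a3⟩, he⟩ := he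
  replace a2 : φ d = ‖d‖ := a2
  obtain ⟨ψ, b1, b2⟩ := lift T h1 a1
  obtain ⟨χ, c1, c2⟩ := lift T h2 a1
  have s1 : ∀ n : ℤ, ψ ((T ^ n) m) + χ ((T ^ n) m) = 2 * φ ((T ^ n) m) := fun n => by
    rw [b2, c2, map_add, map_sub, map_add, map_sub]
    ring
  have s2 := h1 (ψ + χ - (2 : ℝ) • φ) 0 fun n => by simp [s1 n]
  have s3 := s1 0
  simp only [zpow_zero, LinearIsometryEquiv.coe_one, id_eq] at s3
  simp only [abs_nonpos_iff, ContinuousLinearMap.sub_apply, ContinuousLinearMap.add_apply,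
    ContinuousLinearMap.smul_apply, map_add, smul_eq_mul] at s2
  have le : ∀ ω : X →L[ℝ] ℝ, ‖ω‖ ≤ 1 → ω d ≤ ‖d‖ := fun ω hω =>
    (le_abs_self _).trans ((ω.le_opNorm d).trans (by nlinarith [norm_nonneg d]))
  have d1 := le ψ b1
  have d2 := le χ c1
  have e1 := he (fun n => ψ ((T ^ n) m)) ⟨ψ, b1, show ψ d = ‖d‖ by linarith, fun _ => rfl⟩
    (fun n => χ ((T ^ n) m)) ⟨χ, c1, show χ d = ‖d‖ by linarith, fun _ => rfl⟩
    ⟨1 / 2, 1 / 2, by norm_num, by norm_num, by norm_num, funext fun n => by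
      simp only [Pi.add_apply, Pi.smul_apply, smul_eq_mul]
      linarith [s1 n, a3 n]⟩
  have e2 := congrFun e1 0
  have e3 := b2 0
  have e4 := a3 0
  simp only [zpow_zero, LinearIsometryEquiv.coe_one, id_eq, map_add] at e2 e3 e4
  exact norm_eq_zero.1 (by linarith)

/-- The invariant seminorm attached to a vector and a level. -/
noncomputable def p (u : X × ℝ) (x : X) : ℝ :=
  ⨆ φ : {φ : X →L[ℝ] ℝ // ‖φ‖ ≤ 1 ∧ ∀ n : ℤ, |φ ((T ^ n) u.1)| ≤ u.2}, |φ.1 x|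

lemma abs_le_norm {φ : X →L[ℝ] ℝ} (h : ‖φ‖ ≤ 1) (x : X) : |φ x| ≤ ‖x‖ :=
  (φ.le_opNorm x).trans (by nlinarith [norm_nonneg x])

lemma p_nonneg (u : X × ℝ) (x : X) : 0 ≤ p T u x := Real.iSup_nonneg fun _ => abs_nonneg _

lemma p_le (u : X × ℝ) (x : X) : p T u x ≤ ‖x‖ :=
  Real.iSup_le (fun φ => abs_le_norm φ.2.1 x) (norm_nonneg _)

lemma le_p (u : X × ℝ) (x : X) (φ : X →L[ℝ] ℝ) (h1 : ‖φ‖ ≤ 1)
    (h2 : ∀ n : ℤ, |φ ((T ^ n) u.1)| ≤ u.2) : |φ x| ≤ p T u x :=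
  le_ciSup (f := fun φ : {φ : X →L[ℝ] ℝ // ‖φ‖ ≤ 1 ∧ ∀ n : ℤ, |φ ((T ^ n) u.1)| ≤ u.2} => |φ.1 x|)
    ⟨‖x‖, by rintro _ ⟨ψ, rfl⟩; exact abs_le_norm ψ.2.1 x⟩ ⟨φ, h1, h2⟩

lemma p_add (u : X × ℝ) (x y : X) : p T u (x + y) ≤ p T u x + p T u y :=
  Real.iSup_le (fun φ => by
    rw [map_add]
    exact (abs_add_le _ _).trans (add_le_add (le_p T u x _ φ.2.1 φ.2.2) (le_p T u y _ φ.2.1 φ.2.2)))
    (add_nonneg (p_nonneg _ _ _) (p_nonneg _ _ _))

lemma p_smul (u : X × ℝ) (r : ℝ) (x : X) : p T u (r • x) = |r| * p T u x := by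
  simp only [p, map_smul, smul_eq_mul, abs_mul]
  rw [Real.mul_iSup_of_nonneg (abs_nonneg r)]

lemma p_inv (u : X × ℝ) (x : X) : p T u (T x) = p T u x := by
  have h : ∀ (j : ℤ) (x : X), p T u ((T ^ j) x) ≤ p T u x := fun j x =>
    Real.iSup_le (fun φ => le_p T u x (tw T j φ.1) (tw_norm T j φ.2.1) fun n => by
      rw [tw_apply, pw]
      exact φ.2.2 _) (p_nonneg _ _ _)
  refine le_antisymm (by simpa using h 1 x) ?_
  simpa using h (-1) (T x)

variable [SeparableSpace X]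

lemma dom_of {x m : X} (h : ∀ k, p T (denseSeq (X × ℝ) k) x ≤ p T (denseSeq (X × ℝ) k) m) :
    Dom T x m := by
  have main : ∀ (φ : X →L[ℝ] ℝ) (s : ℝ), ‖φ‖ ≤ 1 → (∀ n : ℤ, |φ ((T ^ n) m)| ≤ s) → |φ x| ≤ s := by
    intro φ s h1 h2
    refine le_of_forall_pos_le_add fun δ hδ => ?_
    have s0 : 0 ≤ s := (abs_nonneg _).trans (h2 0)
    obtain ⟨k, hk⟩ := (denseRange_denseSeq (X × ℝ)).exists_dist_lt (m, s + δ / 2)
      (show 0 < δ / 4 by linarith)
    set u := denseSeq (X × ℝ) k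
    rw [Prod.dist_eq, max_lt_iff, Real.dist_eq, abs_lt, dist_eq_norm] at hk
    dsimp only at hk
    have a1 := le_p T u x φ h1 fun n => by
      have b1 := abs_le_norm h1 ((T ^ n) (m - u.1))
      rw [LinearIsometryEquiv.norm_map, map_sub, map_sub] at b1
      have b2 := abs_sub_abs_le_abs_sub (φ ((T ^ n) u.1)) (φ ((T ^ n) m))
      rw [abs_sub_comm] at b2
      linarith [h2 n, hk.1, hk.2.2]
    have a2 : p T u m ≤ s + δ := Real.iSup_le (fun ψ => by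
      have b1 := abs_le_norm ψ.2.1 (m - u.1)
      have b2 := ψ.2.2 0
      simp only [zpow_zero, LinearIsometryEquiv.coe_one, id_eq] at b2
      rw [map_sub] at b1
      have b3 := abs_sub_abs_le_abs_sub (ψ.1 m) (ψ.1 u.1)
      linarith [hk.1, hk.2.1]) (by linarith)
    linarith [h k]
  intro φ s hs
  have c0 : 0 < ‖φ‖ + 1 := by positivity
  have h1 := main ((‖φ‖ + 1)⁻¹ • φ) ((‖φ‖ + 1)⁻¹ * s) (by
    rw [norm_smul, Real.norm_of_nonneg (inv_pos.2 c0).le, inv_mul_le_iff₀ c0]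
    linarith) fun n => by
    rw [ContinuousLinearMap.smul_apply, smul_eq_mul, abs_mul, abs_of_pos (inv_pos.2 c0)]
    exact mul_le_mul_of_nonneg_left (hs n) (inv_pos.2 c0).le
  rw [ContinuousLinearMap.smul_apply, smul_eq_mul, abs_mul, abs_of_pos (inv_pos.2 c0)] at h1
  exact le_of_mul_le_mul_left h1 (inv_pos.2 c0)

/-- The weighted sum of squares. -/
noncomputable def S (x : X) : ℝ :=
  ‖x‖ ^ 2 + ∑' k : ℕ, (1 / 2 : ℝ) ^ k * p T (denseSeq (X × ℝ) k) x ^ 2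

lemma term_le (x : X) (k : ℕ) :
    (1 / 2 : ℝ) ^ k * p T (denseSeq (X × ℝ) k) x ^ 2 ≤ (1 / 2 : ℝ) ^ k * ‖x‖ ^ 2 :=
  mul_le_mul_of_nonneg_left (pow_le_pow_left₀ (p_nonneg _ _ _) (p_le _ _ _) 2) (by positivity)

lemma summ (x : X) : Summable fun k : ℕ => (1 / 2 : ℝ) ^ k * p T (denseSeq (X × ℝ) k) x ^ 2 :=
  Summable.of_nonneg_of_le (fun _ => by positivity) (term_le T x)
    (summable_geometric_two.mul_right _)

lemma S_ge (x : X) : ‖x‖ ^ 2 ≤ S T x :=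
  le_add_of_nonneg_right (tsum_nonneg fun _ => by positivity)

lemma S_le (x : X) : S T x ≤ (2 * ‖x‖) ^ 2 := by
  have h := (summ T x).tsum_le_tsum (term_le T x) (summable_geometric_two.mul_right _)
  rw [tsum_mul_right, tsum_geometric_two] at h
  unfold S
  nlinarith

lemma sq_ineq {a b c l : ℝ} (hl : 0 < l) (hc : 0 ≤ c) (h : c ≤ a + b) :
    c ^ 2 ≤ (1 + l) * a ^ 2 + (1 + l⁻¹) * b ^ 2 := by
  have h1 : c ^ 2 ≤ (a + b) ^ 2 := pow_le_pow_left₀ hc h 2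
  have h2 : (1 + l) * a ^ 2 + (1 + l⁻¹) * b ^ 2 - (a + b) ^ 2 = l⁻¹ * (l * a - b) ^ 2 := by
    field_simp
    ring
  have h3 : 0 ≤ l⁻¹ * (l * a - b) ^ 2 := by positivity
  linarith

lemma S_add (x y : X) {l : ℝ} (hl : 0 < l) : S T (x + y) ≤ (1 + l) * S T x + (1 + l⁻¹) * S T y := by
  have h1 := sq_ineq hl (norm_nonneg _) (norm_add_le x y)
  have h2 := (summ T (x + y)).tsum_le_tsum (fun k => ?_)
    (((summ T x).mul_left (1 + l)).add ((summ T y).mul_left (1 + l⁻¹)))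
  · rw [((summ T x).mul_left (1 + l)).tsum_add ((summ T y).mul_left (1 + l⁻¹)), tsum_mul_left,
      tsum_mul_left] at h2
    unfold S
    linarith
  · have h3 := mul_le_mul_of_nonneg_left (sq_ineq hl (p_nonneg T _ _)
      (p_add T (denseSeq (X × ℝ) k) x y)) (show 0 ≤ (1 / 2 : ℝ) ^ k by positivity)
    linarith

lemma S_eq {x y : X} (h : 2 * S T x + 2 * S T y ≤ S T (x + y)) (k : ℕ) :
    2 * p T (denseSeq (X × ℝ) k) x ≤ p T (denseSeq (X × ℝ) k) (x + y) := by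
  have h1 := sq_ineq one_pos (norm_nonneg _) (norm_add_le x y)
  have hs := (((summ T x).mul_left 2).add ((summ T y).mul_left 2)).sub (summ T (x + y))
  have h2 := hs.le_tsum k fun j _ => by
    have h3 := mul_le_mul_of_nonneg_left (sq_ineq one_pos (p_nonneg T _ _)
      (p_add T (denseSeq (X × ℝ) j) x y)) (show 0 ≤ (1 / 2 : ℝ) ^ j by positivity)
    linarith
  rw [(((summ T x).mul_left 2).add ((summ T y).mul_left 2)).tsum_sub (summ T (x + y)),
    ((summ T x).mul_left 2).tsum_add ((summ T y).mul_left 2), tsum_mul_left, tsum_mul_left] at h2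
  unfold S at h
  have h4 := p_add T (denseSeq (X × ℝ) k) x y
  have h5 := p_nonneg T (denseSeq (X × ℝ) k) (x + y)
  have h6 := p_nonneg T (denseSeq (X × ℝ) k) x
  have h7 := p_nonneg T (denseSeq (X × ℝ) k) y
  set a := p T (denseSeq (X × ℝ) k) x
  set b := p T (denseSeq (X × ℝ) k) y
  set c := p T (denseSeq (X × ℝ) k) (x + y)
  have h8 : (1 / 2 : ℝ) ^ k * (2 * a ^ 2 + 2 * b ^ 2 - c ^ 2) ≤ (1 / 2 : ℝ) ^ k * 0 := by
    norm_num at h1
    linarith
  have h9 := le_of_mul_le_mul_left h8 (by positivity)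
  have h10 : c ^ 2 ≤ (a + b) ^ 2 := pow_le_pow_left₀ h5 h4 2
  have h11 : a = b := by nlinarith [sq_nonneg (a - b)]
  rw [← h11] at h9
  exact (pow_le_pow_iff_left₀ (by linarith) h5 two_ne_zero).1 (by nlinarith)

end


/-- The negation of the preceding statement: There is a separable real Banach space with a surjective linear isometry T such that no equivalent norm on the space is both T-invariant and strictly convex. -/
theorem result :
    ¬ (∃ (X : Type) (_ : NormedAddCommGroup X) (_ : NormedSpace ℝ X),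
      CompleteSpace X ∧ TopologicalSpace.SeparableSpace X ∧
      ∃ T : X ≃ₗᵢ[ℝ] X,
        ¬ ∃ N : X → ℝ,
          (∀ x y : X, N (x + y) ≤ N x + N y) ∧
          (∀ (r : ℝ) (x : X), N (r • x) = |r| * N x) ∧
          (∃ c C : ℝ, 0 < c ∧ 0 < C ∧ ∀ x : X, c * ‖x‖ ≤ N x ∧ N x ≤ C * ‖x‖) ∧
          (∀ x : X, N (T x) = N x) ∧
          (∀ x y : X, N x = 1 → N y = 1 → x ≠ y → N (x + y) < 2)) := by
  rintro ⟨X, _, _, -, _, T, h⟩
  have S0 : ∀ x, 0 ≤ S T x := fun x => (sq_nonneg _).trans (S_ge T x)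
  have hsm : ∀ (r : ℝ) (x : X), S T (r • x) = |r| ^ 2 * S T x := fun r x => by
    simp only [S, p_smul, norm_smul, Real.norm_eq_abs, mul_pow, mul_add]
    rw [← tsum_mul_left]
    congr 2
    funext k
    ring
  refine h ⟨fun x => √(S T x), fun x y => ?_, fun r x => ?_, ⟨1, 2, one_pos, two_pos, fun x =>
    ⟨?_, ?_⟩⟩, fun x => ?_, fun x y hx hy hxy => ?_⟩
  · by_cases hx : x = 0
    · simp [hx]
    by_cases hy : y = 0
    · simp [hy]
    have a1 : 0 < √(S T x) := Real.sqrt_pos.2 (lt_of_lt_of_le (by positivity) (S_ge T x))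
    have a2 : 0 < √(S T y) := Real.sqrt_pos.2 (lt_of_lt_of_le (by positivity) (S_ge T y))
    have a3 := S_add T x y (div_pos a2 a1)
    refine Real.sqrt_le_iff.2 ⟨by positivity, a3.trans (le_of_eq ?_)⟩
    have b1 := Real.sq_sqrt (S0 x)
    have b2 := Real.sq_sqrt (S0 y)
    set a := √(S T x)
    set b := √(S T y)
    rw [← b1, ← b2]
    field_simp
    ring
  · simp only [hsm]
    rw [Real.sqrt_mul (sq_nonneg _), Real.sqrt_sq (abs_nonneg r)]
  · rw [one_mul]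
    exact Real.le_sqrt_of_sq_le (S_ge T x)
  · exact Real.sqrt_le_iff.2 ⟨by positivity, S_le T x⟩
  · simp only [S, p_inv, LinearIsometryEquiv.norm_map]
  · by_contra hc
    push Not at hc
    have a1 : S T x = 1 := Real.sqrt_eq_one.1 hx
    have a2 : S T y = 1 := Real.sqrt_eq_one.1 hy
    have a3 : 2 ^ 2 ≤ S T (x + y) := (Real.le_sqrt' two_pos).1 hc
    have b1 := S_eq T (x := x) (y := y) (by linarith)
    have b2 := S_eq T (x := y) (y := x) (by rw [add_comm y x]; linarith)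
    have c1 : Dom T (x + y + (x - y)) (x + y) := dom_of T fun k => by
      rw [show x + y + (x - y) = (2 : ℝ) • x by module, p_smul, abs_two]
      exact b1 k
    have c2 : Dom T (x + y - (x - y)) (x + y) := dom_of T fun k => by
      rw [show x + y - (x - y) = (2 : ℝ) • y by module, p_smul, abs_two, add_comm x y]
      exact b2 k
    exact hxy (sub_eq_zero.1 (key T c1 c2))

end Pool.Agent.S05524
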