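import Pool.Statements.S05526
import Pool.Agent.H99.GVN

set_option autoImplicit false
open Pool Pool.MP_9b2fd3_an

namespace Pool.Agent.S05526

open Pool.Agent.H99.GVN Pool.Agent.H86.Roe in
/-- The negation of the preceding statement: For factors M, N on separable Hilbert spaces, neither of dimension ≤ 4, any commutativity-preserving bijection φ of self-adjoint parts has the form φ(a) = J(b) for a Jordan *-isomorphism J and some self-adjoint b in the double commutant of a. -/
theorem result :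
    ¬ (∀ (H : Type) [NormedAddCommGroup H] [InnerProductSpace ℂ H] [CompleteSpace H]
      [TopologicalSpace.SeparableSpace H]
      (K : Type) [NormedAddCommGroup K] [InnerProductSpace ℂ K] [CompleteSpace K]
      [TopologicalSpace.SeparableSpace K]
      (M : VonNeumannAlgebra H) (N : VonNeumannAlgebra K),
      (∀ z ∈ M, (∀ x ∈ M, x * z = z * x) → ∃ c : ℂ, z = c • (1 : H →L[ℂ] H)) →
      (∀ z ∈ N, (∀ x ∈ N, x * z = z * x) → ∃ c : ℂ, z = c • (1 : K →L[ℂ] K)) →
      (¬ ∃ s : Finset (H →L[ℂ] H), s.card ≤ 4 ∧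
          ∀ x ∈ M, x ∈ Submodule.span ℂ (s : Set (H →L[ℂ] H))) →
      (¬ ∃ s : Finset (K →L[ℂ] K), s.card ≤ 4 ∧
          ∀ x ∈ N, x ∈ Submodule.span ℂ (s : Set (K →L[ℂ] K))) →
      ∀ φ : {a : H →L[ℂ] H // a ∈ M ∧ IsSelfAdjoint a} →
            {b : K →L[ℂ] K // b ∈ N ∧ IsSelfAdjoint b},
        Function.Bijective φ →
        (∀ a b, Commute a.1 b.1 ↔ Commute (φ a).1 (φ b).1) →
        ∃ J : (H →L[ℂ] H) → (K →L[ℂ] K),
          Set.BijOn J (M : Set (H →L[ℂ] H)) (N : Set (K →L[ℂ] K)) ∧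
          (∀ x ∈ M, ∀ y ∈ M, ∀ c : ℂ,
            J (x + y) = J x + J y ∧ J (c • x) = c • J x ∧
            J (star x) = star (J x) ∧
            J (x * y + y * x) = J x * J y + J y * J x) ∧
          ∀ a : {a : H →L[ℂ] H // a ∈ M ∧ IsSelfAdjoint a},
            ∃ b : H →L[ℂ] H, IsSelfAdjoint b ∧
              b ∈ Set.centralizer (Set.centralizer ({a.1} : Set (H →L[ℂ] H))) ∧
              J b = (φ a).1) := by
  classical
  intro h
  let S := {a : H A →L[ℂ] H A // a ∈ M A ∧ IsSelfAdjoint a}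
  let p : S := ⟨a1 * a1, mul_mem a1_mem a1_mem, by
    rw [IsSelfAdjoint, star_mul, a1_sa.star_eq]⟩
  let q : S := ⟨a1, a1_mem, a1_sa⟩
  have d_sa : IsSelfAdjoint (L d) := by rw [IsSelfAdjoint, L_star, d_inv]
  let r : S := ⟨L d, L_mem d, d_sa⟩
  let w : S := ⟨a1 + L d, add_mem a1_mem (L_mem d), a1_sa.add d_sa⟩
  have hpq : ∀ x ∈ M A, Commute p.1 x ↔ Commute q.1 x := fun x hx =>
    ⟨fun h => by
      have h1 := comm_of_sq hx h
      exact Commute.add_left h1 (comm_inv h1), fun h => h.mul_left h⟩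
  have hsw : ∀ c : S, ∀ x ∈ M A, Commute c.1 x ↔ Commute (Equiv.swap p q c).1 x := by
    intro c x hx
    rw [Equiv.swap_apply_def]
    split_ifs with h1 h2
    · rw [h1]; exact hpq x hx
    · rw [h2]; exact (hpq x hx).symm
    · rfl
  have hfac : ∀ z ∈ M A, (∀ x ∈ M A, x * z = z * x) → ∃ c : ℂ, z = c • 1 :=
    fun z hz h => scalar hz (h _ (L_mem _)) (h _ (L_mem _))
  have hns := not_span (fun i : Fin 5 => (⟨1, (i : ℕ)⟩ : A)) fun i j h => by
    simpa [Fin.ext_iff] using congrArg A.b h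
  obtain ⟨J, hJ, hlin, hb⟩ := h (H A) (H A) (M A) (M A) hfac hfac hns hns (Equiv.swap p q)
    (Equiv.swap p q).bijective fun a b => by
      rw [hsw a b.1 b.2.1, Commute.symm_iff, hsw b _ (Equiv.swap p q a).2.1, Commute.symm_iff]
  have hM : ∀ (c : S) b, b ∈ Set.centralizer (Set.centralizer ({c.1} : Set (H A →L[ℂ] H A))) →
      b ∈ M A := fun c b hb => mem_M.2 fun g => hb _ (by
        rintro _ rfl; exact (mem_M.1 c.2.1 g).symm)
  have hC : ∀ (c : S) b, b ∈ Set.centralizer (Set.centralizer ({c.1} : Set (H A →L[ℂ] H A))) →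
      ∀ x, Commute c.1 x → Commute x b := fun c b hb x hx => hb _ (by rintro _ rfl; exact hx)
  have i1 : Commute a1 (Ind fun y : A => y.b = 0) :=
    Commute.add_left (Ind_L _ _ fun y => by simp) (Ind_L _ _ fun y => by simp)
  have q0 : hat q.1 d = 0 := hat_Ind (fun y : A => y.b = 0) rfl i1 (by simp)
  have p0 : hat p.1 d = 0 := hat_Ind (fun y : A => y.b = 0) rfl (i1.mul_left i1) (by simp)
  have r1 : hat r.1 d = 1 := by
    change hat (L d) d = 1
    rw [hat_L, δ_apply, if_pos rfl]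
  have w1 : hat w.1 d = 1 := by
    change hat q.1 d + hat r.1 d = 1
    rw [q0, r1, zero_add]
  obtain ⟨b1, -, m1, e1⟩ := hb p
  obtain ⟨b2, -, m2, e2⟩ := hb r
  obtain ⟨b3, -, m3, e3⟩ := hb w
  rw [Equiv.swap_apply_left] at e1
  rw [Equiv.swap_apply_of_ne_of_ne (fun h => by simp [h, p0] at r1)
    (fun h => by simp [h, q0] at r1)] at e2
  rw [Equiv.swap_apply_of_ne_of_ne (fun h => by simp [h, p0] at w1)
    (fun h => by simp [h, q0] at w1)] at e3
  have M1 := hM p b1 m1
  have M2 := hM r b2 m2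
  have e4 : b3 = b1 + b2 := hJ.injOn (hM w b3 m3) (add_mem M1 M2) (by
    rw [(hlin b1 M1 b2 M2 0).1, e1, e2, e3])
  have hd1 : d ≠ 1 := fun h => by simpa using congrArg A.b h
  have hdd : d * d = 1 := by ext <;> simp
  have e5 : b2 = hat b2 1 • 1 + hat b2 d • L d := by
    refine ext_hat M2 (add_mem (smul_mem (one_mem _) _) (smul_mem (L_mem _) _)) fun y => ?_
    change _ = hat b2 1 • (δ 1 : H A) y + hat b2 d • hat (L d) y
    rw [hat_L, δ_apply, δ_apply]
    by_cases h1 : y = 1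
    · simp [h1, hd1.symm]
    by_cases h2 : y = d
    · simp [h2, hd1]
    simp only [h1, h2, if_false, smul_zero, add_zero]
    refine hat_Ind (fun y : A => y = 1 ∨ y = d) (Or.inl rfl)
      (hC r b2 m2 _ (Ind_L _ _ fun y => ?_)).symm (by simp [h1, h2])
    rw [inv_mul_eq_one, inv_mul_eq_iff_eq_mul, hdd, or_comm, eq_comm (a := d)]
  set α := hat b2 1
  set β := hat b2 d
  have c1 : Commute a1 b1 := hC p b1 m1 a1 ((Commute.refl a1).mul_left (Commute.refl a1))
  have c2 : Commute (L d) b2 := hC r b2 m2 _ (Commute.refl _)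
  have c3 : Commute (a1 + L d) (b1 + b2) := e4 ▸ hC w b3 m3 _ (Commute.refl _)
  have ta : Commute a1 (L t) := Commute.add_left (Commute.refl _) (comm_inv rfl)
  have c4 : Commute (L t) b1 := hC p b1 m1 _ (ta.mul_left ta)
  obtain ⟨γ, hγ⟩ := scalar (x := b1 - β • a1) (sub_mem M1 (smul_mem a1_mem _))
    (c4.sub_right (ta.symm.smul_right β)) (by
      have k1 := c1.eq
      have k2 := c2.eq
      have k3 := c3.eq
      have k4 : a1 * b2 - b2 * a1 = β • (a1 * L d - L d * a1) := by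
        rw [e5]; simp only [mul_add, add_mul, mul_smul_comm, smul_mul_assoc, smul_sub, mul_one,
          one_mul]; abel
      have k5 : L d * b1 - b1 * L d = -(a1 * b2 - b2 * a1) := by
        rw [mul_add, mul_add, add_mul, add_mul, add_mul, add_mul, k1, k2] at k3
        rw [← sub_eq_zero] at k3 ⊢; rw [← k3]; abel
      rw [k4] at k5
      rw [← sub_eq_zero, mul_sub, sub_mul, mul_smul_comm, smul_mul_assoc]
      rw [← sub_eq_zero] at k5; rw [← k5, smul_sub]; abel)
  have sq : ∀ y : A, IsSquare (((t * t)⁻¹ * y).a : ℚ) ↔ IsSquare (y.a : ℚ) := fun y => by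
    have e : (((t * t)⁻¹ * y).a : ℚ) = 2⁻¹ * 2⁻¹ * y.a := by simp
    rw [e]
    constructor
    · rintro ⟨z, hz⟩; exact ⟨2 * z, by linarith⟩
    · rintro ⟨z, hz⟩; exact ⟨z / 2, by linarith⟩
  have i2 : Commute (L (t * t)) (Ind fun y : A => IsSquare (y.a : ℚ)) := Ind_L _ _ sq
  have i3 : Commute p.1 (Ind fun y : A => IsSquare (y.a : ℚ)) := by
    change Commute (a1 * a1) _
    rw [a1_sq]
    exact ((i2.add_left (comm_inv i2)).add_left (Commute.one_left _)).add_left
      (Commute.one_left _)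
  have z1 : hat b1 t = 0 := hat_Ind _ (by simp) (hC p b1 m1 _ i3).symm (by
    rw [t_a]; norm_num)
  have ht1 : t ≠ 1 := fun h => by
    have := congrArg (fun y : A => (y.a : ℚ)) h
    simp at this
  have ht2 : t ≠ t⁻¹ := fun h => by
    have := congrArg (fun y : A => (y.a : ℚ)) h
    simp at this; norm_num at this
  have z2 : hat a1 t = 1 := by
    change hat (L t) t + hat (L t⁻¹) t = 1
    rw [hat_L, hat_L, δ_apply, δ_apply, if_pos rfl, if_neg ht2, add_zero]
  have z3 : β = 0 := by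
    have : hat b1 t - β • hat a1 t = γ • (δ 1 : H A) t := congrArg (fun x => hat x t) hγ
    rw [z1, z2, δ_apply, if_neg ht1] at this
    simpa using this
  rw [z3, zero_smul, sub_zero] at hγ
  rw [z3, zero_smul, add_zero] at e5
  have o1 := one_mem (M A)
  rw [hγ, (hlin 1 o1 1 o1 γ).2.1] at e1
  rw [e5, (hlin 1 o1 1 o1 α).2.1] at e2
  have z4 : γ • hat (J 1) d = 0 := (congrArg (fun x => hat x d) e1).trans q0
  have z5 : α • hat (J 1) d = 1 := (congrArg (fun x => hat x d) e2).trans r1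
  have z6 : γ • hat (J 1) t = 1 := (congrArg (fun x => hat x t) e1).trans z2
  rcases smul_eq_zero.1 z4 with h | h
  · simp [h] at z6
  · simp [h] at z5

end Pool.Agent.S05526
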