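import Pool.Statements.S05528
import Pool.Agent.H87.AGM2
import Pool.Agent.H87.AGM3

set_option autoImplicit false
open Filter Topology
open Pool Pool.MP_9b8acd_an

namespace Pool.Agent.S05528

theorem result :
    ¬ (∀ (𝕜 : Type) [RCLike 𝕜] (X : Type) [NormedAddCommGroup X] [NormedSpace 𝕜 X]
      [CompleteSpace X] (e : ℕ → X) (e' : ℕ → X →L[𝕜] 𝕜),
      (∀ i j : ℕ, e' i (e j) = if i = j then (1 : 𝕜) else 0) →
      Dense ((Submodule.span 𝕜 (Set.range e) : Submodule 𝕜 X) : Set X) →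
      (∀ x : X, (∀ i : ℕ, e' i x = 0) → x = 0) →
      (∃ C : ℝ, ∀ (x : X) (A B : Finset ℕ),
        (∀ i ∈ A, ∀ j : ℕ, j ∉ A → ‖e' j x‖ ≤ ‖e' i x‖) →
        B.card ≤ A.card →
        ‖x - ∑ i ∈ A, e' i x • e i‖ ≤ C * ‖x - ∑ i ∈ B, e' i x • e i‖) →
      ∃ π : Equiv.Perm ℕ, ∀ x : X,
        Tendsto (fun n : ℕ => ∑ k ∈ Finset.range n, e' (π k) x • e (π k)) atTop (𝓝 x)) := by
  intro h
  obtain ⟨κ, n, φ, h1, h2, h3⟩ := Pool.Agent.H87.AGM.design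
  obtain ⟨π, hπ⟩ := h ℝ (Pool.Agent.H87.AGM.X h1) (Pool.Agent.H87.AGM.e h1)
    (Pool.Agent.H87.AGM.co h1) (Pool.Agent.H87.AGM.co_e h1) (Pool.Agent.H87.AGM.dense h1)
    (Pool.Agent.H87.AGM.total h1) ⟨8, Pool.Agent.H87.AGM.greedy h1⟩
  exact Pool.Agent.H87.AGM.not_schauder h1 h2 π (h3 π) hπ

end Pool.Agent.S05528
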