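import Pool.Statements.S05534
import Pool.Agent.H87.MonoCone2

set_option autoImplicit false
open Pool Pool.MP_9c3653_an

namespace Pool.Agent.S05534

open Pool.Agent.H87.MonoCone in
theorem result :
    ¬ (∀ (X : Type) [NormedAddCommGroup X] [NormedSpace ℝ X] [CompleteSpace X]
      (A : X → Set (X →L[ℝ] ℝ)),
      (∀ x y : X, ∀ f ∈ A x, ∀ g ∈ A y, 0 ≤ (f - g) (x - y)) →
      (∀ (x : X) (f : X →L[ℝ] ℝ),
          (∀ y : X, ∀ g ∈ A y, 0 ≤ (f - g) (x - y)) → f ∈ A x) →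
      Convex ℝ {x : X | (A x).Nonempty} →
      ∀ U : Set X, IsOpen U → Convex ℝ U →
        (U ∩ {x : X | (A x).Nonempty}).Nonempty →
        ∀ x ∈ U, ∀ f : X →L[ℝ] ℝ,
          (∀ y ∈ U, ∀ g ∈ A y, 0 ≤ (f - g) (x - y)) → f ∈ A x) := by
  intro H
  obtain ⟨f, hf⟩ := fail
  have h := H X AA AA_mono (fun x g hg => AA_max (p := (x, g)) hg) AA_convex {z | fu z < 0}
    (isOpen_lt fu.continuous continuous_const) (convex_halfSpace_lt fu.isLinear 0)
    ⟨((-1, 1), 0), by simp, _, AA_of (base_mem (-1) 1) ⟨by simp, fun j => by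
      have : (1 / 3 : ℝ) ^ j ≤ (1 / 2) ^ j := pow_le_pow_left₀ (by norm_num) (by norm_num) j
      rw [ps_apply]
      simp only [ZeroAtInftyContinuousMap.zero_apply]
      linarith⟩⟩
    za (by simp [za]) f hf
  have : (0 : ℝ) ≤ -1 := h.1.1
  norm_num at this

end Pool.Agent.S05534
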