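import Pool.Statements.S05544
import Pool.Agent.H87.MonoGap2

set_option autoImplicit false
open Pool Pool.MP_9cd69f_an

namespace Pool.Agent.S05544

theorem result :
    ¬ (∀ (X : Type) [NormedAddCommGroup X] [NormedSpace ℝ X] [CompleteSpace X]
    (A B : X → Set (X →L[ℝ] ℝ)),
    (∃ S : Submodule ℝ (X × (X →L[ℝ] ℝ)), ∀ (x : X) (f : X →L[ℝ] ℝ), f ∈ A x ↔ (x, f) ∈ S) →
    ((∀ (x y : X) (f g : X →L[ℝ] ℝ), f ∈ A x → g ∈ A y → 0 ≤ (f - g) (x - y)) ∧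
      (∀ (x : X) (f : X →L[ℝ] ℝ),
        (∀ (y : X) (g : X →L[ℝ] ℝ), g ∈ A y → 0 ≤ (f - g) (x - y)) → f ∈ A x)) →
    ((∀ (x y : X) (f g : X →L[ℝ] ℝ), f ∈ B x → g ∈ B y → 0 ≤ (f - g) (x - y)) ∧
      (∀ (x : X) (f : X →L[ℝ] ℝ),
        (∀ (y : X) (g : X →L[ℝ] ℝ), g ∈ B y → 0 ≤ (f - g) (x - y)) → f ∈ B x)) →
    (∀ z : X, ∃ t : ℝ, 0 < t ∧ ∃ a b : X, (A a).Nonempty ∧ (B b).Nonempty ∧ z = t • (a - b)) →
    ((∀ (x y : X) (f g : X →L[ℝ] ℝ),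
        (∃ f₁ ∈ A x, ∃ f₂ ∈ B x, f = f₁ + f₂) →
        (∃ g₁ ∈ A y, ∃ g₂ ∈ B y, g = g₁ + g₂) → 0 ≤ (f - g) (x - y)) ∧
      (∀ (x : X) (f : X →L[ℝ] ℝ),
        (∀ (y : X) (g : X →L[ℝ] ℝ), (∃ g₁ ∈ A y, ∃ g₂ ∈ B y, g = g₁ + g₂) →
          0 ≤ (f - g) (x - y)) →
        ∃ f₁ ∈ A x, ∃ f₂ ∈ B x, f = f₁ + f₂))) := by
  intro H
  obtain ⟨G, z, hz, h1, h2, h3, ⟨x, f, hx, -⟩, -, -, h4⟩ := Pool.Agent.H87.MonoGap.core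
  obtain ⟨-, -, g, hg, -⟩ := (H _
    (fun x => {f | f = Pool.Agent.H87.MonoGap.u x • Pool.Agent.H87.MonoGap.u})
    (fun x => {f | (x, f) ∈ G})
    ⟨(Pool.Agent.H87.MonoGap.u.smulRight Pool.Agent.H87.MonoGap.u).toLinearMap.graph,
      fun x f => Iff.rfl⟩
    ⟨fun x y a b ha hb => by
      obtain rfl : a = _ := ha
      obtain rfl : b = _ := hb
      exact Pool.Agent.H87.MonoGap.rank_one_mono x y,
     fun z c hc => Pool.Agent.H87.MonoGap.rank_one_max z c fun y => hc y _ rfl⟩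
    ⟨h1, h2⟩
    (fun w => ⟨1, one_pos, w + x, x, ⟨_, rfl⟩, ⟨f, hx⟩, by simp⟩)).2 z _
    (fun y g ⟨a, ha, b, hb, hg⟩ => by
      obtain rfl : a = _ := ha
      rw [hg]
      exact h4 y b hb)
  have := h3 _ _ hg
  rw [hz] at this
  norm_num at this

end Pool.Agent.S05544
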