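import Pool.Statements.S05550
import Pool.Agent.H87.DualIdx4

set_option autoImplicit false
open Pool Pool.MP_9d0e4c_an

namespace Pool.Agent.S05550

theorem result :
    ¬ (∀ (𝕜 : Type) [RCLike 𝕜] (X : Type) [NormedAddCommGroup X] [NormedSpace ℝ X]
      [NormedSpace 𝕜 X] [IsScalarTower ℝ 𝕜 X] [CompleteSpace X],
      (∀ (f : ℝ → X) (K : NNReal), LipschitzWith K f →
        ∀ᵐ t ∂(MeasureTheory.volume : MeasureTheory.Measure ℝ), DifferentiableAt ℝ f t) →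
      (⨅ T : {T : X →L[𝕜] X // ‖T‖ = 1},
          ⨆ p : {p : X × (X →L[𝕜] 𝕜) // ‖p.1‖ = 1 ∧ ‖p.2‖ = 1 ∧ p.2 p.1 = 1},
            ‖p.1.2 (T.1 p.1.1)‖)
        =
      (⨅ T : {T : (X →L[𝕜] 𝕜) →L[𝕜] (X →L[𝕜] 𝕜) // ‖T‖ = 1},
          ⨆ p : {p : (X →L[𝕜] 𝕜) × ((X →L[𝕜] 𝕜) →L[𝕜] 𝕜) //
                  ‖p.1‖ = 1 ∧ ‖p.2‖ = 1 ∧ p.2 p.1 = 1},
            ‖p.1.2 (T.1 p.1.1)‖)) := by
  open Pool.Agent.H87.DualIdx in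
  intro h
  have h1 := h ℝ X rnpX
  obtain ⟨S, hS, hS2⟩ := upper
  have a1 := (h1.le.trans (ciInf_le ⟨0, by
    rintro _ ⟨T, rfl⟩
    exact Real.iSup_nonneg fun _ => norm_nonneg _⟩ ⟨S, hS⟩)).trans
    (Real.iSup_le (fun p => hS2 p.1.1 p.1.2 p.2.1 p.2.2.1 p.2.2.2) (by norm_num))
  have : Nonempty {T : X →L[ℝ] X // ‖T‖ = 1} := ⟨⟨_, idE (LinearIsometryEquiv.refl ℝ X)⟩⟩
  have a2 := le_trans (le_ciInf (c := 1 / 25) fun T => by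
    obtain ⟨x, f, b1, b2, b3, b4⟩ := lower T.1 T.2
    exact b4.trans (le_ciSup (f := fun p : {p : X × (X →L[ℝ] ℝ) //
      ‖p.1‖ = 1 ∧ ‖p.2‖ = 1 ∧ p.2 p.1 = 1} => ‖p.1.2 (T.1 p.1.1)‖)
      ⟨‖T.1‖, by rintro _ ⟨p, rfl⟩; exact st_le _ _ _ p.2.1 p.2.2.1⟩ ⟨(x, f), b1, b2, b3⟩)) a1
  norm_num at a2

end Pool.Agent.S05550
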