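import Pool.Statements.S05573
import Pool.Agent.H88.Polya

set_option autoImplicit false
open Pool Pool.MP_9e511b_an

namespace Pool.Agent.S05573

theorem result :
    ∀ d : ℕ, 1 ≤ d → ∀ p : ℝ, (d : ℝ) < p →
      ∃ c : ℝ, c < 1 ∧
        ∀ Ω : Set (EuclideanSpace ℝ (Fin d)), IsOpen Ω → Bornology.IsBounded Ω → Ω.Nonempty →
          ∀ ψ : EuclideanSpace ℝ (Fin d) → ℝ, ContDiff ℝ (⊤ : ℕ∞) ψ → HasCompactSupport ψ →
            tsupport ψ ⊆ Ω → ψ ≠ 0 →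
            (⨅ φ : {φ : EuclideanSpace ℝ (Fin d) → ℝ //
                  ContDiff ℝ (⊤ : ℕ∞) φ ∧ HasCompactSupport φ ∧ tsupport φ ⊆ Ω ∧ φ ≠ 0},
                (∫ x, ‖fderiv ℝ φ.1 x‖ ^ p) / (∫ x, |φ.1 x| ^ p)) *
              ((∫ x, |ψ x|) ^ p / (∫ x, ‖fderiv ℝ ψ x‖ ^ p))
            ≤ c * ((MeasureTheory.volume Ω).toReal) ^ (p - 1) := by
  intro d hd p hp
  have h1 : (1:ℝ) ≤ d := by exact_mod_cast hd
  obtain ⟨c, hc, H⟩ := H88.Polya.main (E := EuclideanSpace ℝ (Fin d)) MeasureTheory.volume (p := p)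
    (by linarith) (by simpa using hp)
  refine ⟨c, hc, fun Ω a1 a2 _ ψ b1 b2 b3 b4 => H Ω a1 a2 ψ b1 b2 b3 b4 _ (fun φ c1 c2 c3 c4 => ?_)⟩
  refine ciInf_le_of_le ⟨0, ?_⟩ ⟨φ, c1, c2, c3, c4⟩ le_rfl
  rintro _ ⟨χ, rfl⟩
  exact div_nonneg (MeasureTheory.integral_nonneg (fun _ => by positivity))
    (MeasureTheory.integral_nonneg (fun _ => by positivity))

end Pool.Agent.S05573
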