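import Pool.Statements.S05597
import Pool.Agent.H63.Cliff2

set_option autoImplicit false
open Pool Pool.MP_9fb148_an

namespace Pool.Agent.S05597

/-- For Hermitian n×n matrices A_1..A_d (n ≥ 1) and any nonzero Hermitian Clifford representation γ_1..γ_d, some real point x makes the spectral localizer Σ (A_j − x_j I) ⊗ γ_j singular. -/
theorem result :
    ∀ (n d m : ℕ), 0 < n → 0 < m →
      ∀ (A : Fin d → Matrix (Fin n) (Fin n) ℂ) (γ : Fin d → Matrix (Fin m) (Fin m) ℂ),
        (∀ j, (A j).IsHermitian) →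
        (∀ j, (γ j).IsHermitian) →
        (∀ j, γ j * γ j = 1) →
        (∀ j k, j ≠ k → γ j * γ k = -(γ k * γ j)) →
        ∃ x : Fin d → ℝ,
          (∑ j : Fin d,
            Matrix.kronecker (A j - ((x j : ℂ)) • (1 : Matrix (Fin n) (Fin n) ℂ)) (γ j)).det = 0 := by
  intro n d m hn hm A γ h1 h2 h3 h4
  haveI : Nonempty (Fin n × Fin m) := ⟨(⟨0, hn⟩, ⟨0, hm⟩)⟩
  obtain ⟨x, hx⟩ := Pool.Agent.H63.Cliff.all_case d
    (fun j => Matrix.kronecker (1 : Matrix (Fin n) (Fin n) ℂ) (γ j))
    (fun j => Matrix.kronecker (A j) (1 : Matrix (Fin m) (Fin m) ℂ))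
    (fun j => by simp [Matrix.IsHermitian, Matrix.conjTranspose_kronecker, (h2 _).eq])
    (fun j => by simp [← Matrix.mul_kronecker_mul, h3])
    (fun j k h => by simp [← Matrix.mul_kronecker_mul, h4 j k h, Pool.Agent.H63.Cliff.kron_neg])
    (fun j => by simp [Matrix.IsHermitian, Matrix.conjTranspose_kronecker, (h1 _).eq])
    (fun j k => by simp [commute_iff_eq, ← Matrix.mul_kronecker_mul])
  refine ⟨x, ?_⟩
  rw [← hx, ← Finset.sum_sub_distrib]
  congr 1
  refine Finset.sum_congr rfl fun j _ => ?_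
  simp only [Matrix.kronecker, ← Matrix.mul_kronecker_mul, mul_one, one_mul]
  ext
  simp [sub_mul, mul_assoc]

end Pool.Agent.S05597
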