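import Pool.Statements.S05601
import Pool.Agent.H96.RN1

set_option autoImplicit false
open Pool Pool.MP_9fe0db_an

namespace Pool.Agent.S05601

/-- For a real Banach space and 1<p≤2≤q: if it has an equivalent norm with convexity modulus at least Kε^q and one with smoothness modulus at most Kt^p, then some single equivalent norm has both bounds. -/
theorem result :
    ∀ (X : Type) [NormedAddCommGroup X] [NormedSpace ℝ X] [CompleteSpace X],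
    ∀ p q : ℝ, 1 < p → p ≤ 2 → 2 ≤ q →
    (∃ N : X → ℝ,
        ((∀ x y : X, N (x + y) ≤ N x + N y) ∧
          (∀ (c : ℝ) (x : X), N (c • x) = |c| * N x) ∧
          ∃ a b : ℝ, 0 < a ∧ 0 < b ∧ ∀ x : X, a * ‖x‖ ≤ N x ∧ N x ≤ b * ‖x‖) ∧
        ∃ K : ℝ, 0 < K ∧ ∀ ε : ℝ, 0 < ε → ε ≤ 2 → ∀ x y : X, N x = 1 → N y = 1 →
          ε ≤ N (x - y) → K * ε ^ q ≤ 1 - N ((1 / 2 : ℝ) • (x + y))) →
    (∃ N : X → ℝ,
        ((∀ x y : X, N (x + y) ≤ N x + N y) ∧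
          (∀ (c : ℝ) (x : X), N (c • x) = |c| * N x) ∧
          ∃ a b : ℝ, 0 < a ∧ 0 < b ∧ ∀ x : X, a * ‖x‖ ≤ N x ∧ N x ≤ b * ‖x‖) ∧
        ∃ K : ℝ, 0 < K ∧ ∀ t : ℝ, 0 < t → t ≤ 1 → ∀ x y : X, N x = 1 → N y = 1 →
          (N (x + t • y) + N (x - t • y)) / 2 - 1 ≤ K * t ^ p) →
    ∃ N : X → ℝ,
        ((∀ x y : X, N (x + y) ≤ N x + N y) ∧
          (∀ (c : ℝ) (x : X), N (c • x) = |c| * N x) ∧
          ∃ a b : ℝ, 0 < a ∧ 0 < b ∧ ∀ x : X, a * ‖x‖ ≤ N x ∧ N x ≤ b * ‖x‖) ∧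
        (∃ K : ℝ, 0 < K ∧ ∀ ε : ℝ, 0 < ε → ε ≤ 2 → ∀ x y : X, N x = 1 → N y = 1 →
          ε ≤ N (x - y) → K * ε ^ q ≤ 1 - N ((1 / 2 : ℝ) • (x + y))) ∧
        ∃ K : ℝ, 0 < K ∧ ∀ t : ℝ, 0 < t → t ≤ 1 → ∀ x y : X, N x = 1 → N y = 1 →
          (N (x + t • y) + N (x - t • y)) / 2 - 1 ≤ K * t ^ p := by
  intro X _ _ _ p q hp hp2 hq ⟨N1, ⟨a1, s1, a, b, a0, b0, hab⟩, K1, k1, h1⟩
    ⟨N2, ⟨a2, s2, a', b', a0', b0', hab'⟩, K2, k2, h2⟩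
  obtain ⟨N, n1, n2, n3⟩ := H96.RN.main (Seminorm.of N1 a1 s1) (Seminorm.of N2 a2 s2)
    (l := b / a') (R := b' / a + 1) hp hp2 hq (by positivity)
    (le_add_of_nonneg_left (by positivity)) (fun x => by
      show N1 x ≤ _ * N2 x
      rw [div_mul_eq_mul_div, le_div_iff₀ a0']
      nlinarith [(hab x).2, (hab' x).1]) (fun x => by
      show N2 x ≤ _ * N1 x
      have h3 : N2 x ≤ b' / a * N1 x := by
        rw [div_mul_eq_mul_div, le_div_iff₀ a0]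
        nlinarith [(hab x).1, (hab' x).2]
      have := (mul_nonneg a0.le (norm_nonneg x)).trans (hab x).1
      linarith) k1 k2 h1 h2
  refine ⟨N, ⟨map_add_le_add N, map_smul_eq_mul N, a, b / a' * b', a0, by positivity,
    fun x => ⟨(hab x).1.trans (n1 x).1, (n1 x).2.trans ?_⟩⟩, n2, n3⟩
  rw [mul_assoc]
  exact mul_le_mul_of_nonneg_left (hab' x).2 (by positivity)

end Pool.Agent.S05601
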