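import Pool.Statements.S05628
import Pool.Agent.H97.OneRadius

set_option autoImplicit false
open MeasureTheory
open Pool Pool.MP_a19bc9_an

namespace Pool.Agent.S05628

/-- The negation of the preceding statement: For every n ≥ 1, a bounded continuous complex function on the unit ball of ℂⁿ that satisfies the invariant sphere-mean identity at each point for at least one radius satisfies it at every point for every radius in (0,1), i.e. is M-harmonic. -/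
theorem result :
    ¬ (∀ n : ℕ, 1 ≤ n →
  ∀ (φ : (Fin n → ℂ) → (Fin n → ℂ) → (Fin n → ℂ)),
    (∀ z w, φ z w = (1 - ∑ j, w j * starRingEnd ℂ (z j))⁻¹ •
        (z - ((∑ j, w j * starRingEnd ℂ (z j)) / (∑ j, z j * starRingEnd ℂ (z j))) • z
          - ((Real.sqrt (1 - ∑ j, ‖z j‖ ^ 2) : ℝ) : ℂ) •
              (w - ((∑ j, w j * starRingEnd ℂ (z j)) / (∑ j, z j * starRingEnd ℂ (z j))) • z))) →
  ∀ (B : Set (Fin n → ℂ)), B = {x : Fin n → ℂ | ∑ j, ‖x j‖ ^ 2 < 1} →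
  ∀ (avg : ((Fin n → ℂ) → ℂ) → (Fin n → ℂ) → ℝ → ℂ),
    (∀ u z r, avg u z r = ((MeasureTheory.volume B).toReal : ℂ)⁻¹ *
        ∫ x in B, u (φ z (((r / Real.sqrt (∑ j, ‖x j‖ ^ 2) : ℝ) : ℂ) • x))) →
  ∀ u : (Fin n → ℂ) → ℂ, ContinuousOn u B → (∃ M : ℝ, ∀ z ∈ B, ‖u z‖ ≤ M) →
    (∀ z ∈ B, ∃ r : ℝ, 0 < r ∧ r < 1 ∧ avg u z r = u z) →
    ∀ z ∈ B, ∀ r : ℝ, 0 < r → r < 1 → avg u z r = u z) := by
  intro h
  obtain ⟨r, h0, h1, h2⟩ := Pool.Agent.H97.OneRadius.not_harmonic (n := 1) le_rfl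
  exact h2 (h 1 le_rfl Pool.Agent.H97.OneRadius.phi (fun _ _ => rfl)
    (Pool.Agent.H97.OneRadius.Ball 1) rfl Pool.Agent.H97.OneRadius.avg (fun _ _ _ => rfl)
    (fun x => (Pool.Agent.H97.OneRadius.U x : ℂ)) Pool.Agent.H97.OneRadius.Uc_an.continuousOn
    ⟨1, Pool.Agent.H97.OneRadius.Uc_bd⟩
    (fun z hz => Pool.Agent.H97.OneRadius.one_radius le_rfl hz) 0
    (by simp [Pool.Agent.H97.OneRadius.Ball]) r h0 h1)

end Pool.Agent.S05628
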