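import Pool.Statements.S05639
import Pool.Agent.H87.DenF8

set_option autoImplicit false
open Pool Pool.MP_a1e890_an

namespace Pool.Agent.S05639

theorem result :
    ∀ p : Seminorm ℝ (BoundedContinuousFunction (Set.Iic (Cardinal.aleph.{0} 1).ord) ℝ),
      (∃ c : ℝ, 0 < c ∧ ∀ x, c * ‖x‖ ≤ p x) →
      (∃ C : ℝ, 0 < C ∧ ∀ x, p x ≤ C * ‖x‖) →
      ∀ ε : ℝ, 0 < ε →
        ∃ q : Seminorm ℝ (BoundedContinuousFunction (Set.Iic (Cardinal.aleph.{0} 1).ord) ℝ),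
          (∃ c : ℝ, 0 < c ∧ ∀ x, c * ‖x‖ ≤ q x) ∧
          (∃ C : ℝ, 0 < C ∧ ∀ x, q x ≤ C * ‖x‖) ∧
          ContDiffOn ℝ 1 (fun x => q x) {x | x ≠ 0} ∧
          ∀ x, ‖x‖ ≤ 1 → |p x - q x| < ε := by
  exact H87.DenF.main2

end Pool.Agent.S05639
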