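import Pool.Statements.S05651
import Pool.Agent.H99.Widom3

set_option autoImplicit false
open MeasureTheory Filter
open Pool Pool.MP_a2ac39_an

namespace Pool.Agent.S05651

open Pool.Agent.H99.Widom

theorem null_compl (e : Fin 4 → Bool) :
    (P.map (Ph e)) (Set.range fun s => (cod 0 s : ℂ))ᶜ = 0 := by
  have hc : Continuous fun s => (cod 0 s : ℂ) := Complex.continuous_ofReal.comp (continuous_cod 0)
  rw [Measure.map_apply (continuous_Ph e).measurable
    (isCompact_range hc).isClosed.measurableSet.compl]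
  convert measure_empty (μ := P)
  ext ω
  simp [Ph]

theorem lg_comp : (fun p : ℂ × ℂ => Real.log ‖p.1 - p.2‖) ∘ Prod.map (Ph e2) (Ph e2) = D 0 := by
  funext p
  simp only [Function.comp_apply, Prod.map_fst, Prod.map_snd, Ph, D]
  rw [← Complex.ofReal_sub, Complex.norm_real, Real.norm_eq_abs]

/-- There is an atomless compactly supported probability measure on ℂ, mutually singular with the equilibrium measure of its support, whose L² monic-polynomial Widom factors ‖P_n‖/cap^n stay eventually above a positive constant. -/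
theorem result :
  ∃ (μ : Measure ℂ) (K : Set ℂ) (ν : Measure ℂ),
    IsProbabilityMeasure μ ∧ NoAtoms μ ∧
    IsCompact K ∧ μ Kᶜ = 0 ∧
    (∀ U : Set ℂ, IsOpen U → (U ∩ K).Nonempty → 0 < μ U) ∧
    IsProbabilityMeasure ν ∧ ν Kᶜ = 0 ∧ NoAtoms ν ∧
    Integrable (fun p : ℂ × ℂ => Real.log ‖p.1 - p.2‖) (ν.prod ν) ∧
    (∀ ρ : Measure ℂ, IsProbabilityMeasure ρ → ρ Kᶜ = 0 → NoAtoms ρ →
      Integrable (fun p : ℂ × ℂ => Real.log ‖p.1 - p.2‖) (ρ.prod ρ) →
      ∫ p, Real.log ‖p.1 - p.2‖ ∂(ρ.prod ρ) ≤ ∫ p, Real.log ‖p.1 - p.2‖ ∂(ν.prod ν)) ∧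
    μ.MutuallySingular ν ∧
    ∃ c : ℝ, 0 < c ∧ ∀ᶠ n : ℕ in atTop,
      c ≤ (⨅ P : {P : Polynomial ℂ // P.Monic ∧ P.natDegree = n},
            Real.sqrt (∫ z, ‖P.1.eval z‖ ^ 2 ∂μ)) /
          Real.exp (∫ p, Real.log ‖p.1 - p.2‖ ∂(ν.prod ν)) ^ n := by
  have hc : Continuous fun s => (cod 0 s : ℂ) := Complex.continuous_ofReal.comp (continuous_cod 0)
  have m1 := (continuous_Ph e1).measurable
  have m2 := (continuous_Ph e2).measurable
  have hprod : (P.map (Ph e2)).prod (P.map (Ph e2)) =
      (P.prod P).map (Prod.map (Ph e2) (Ph e2)) := Measure.map_prod_map _ _ m2 m2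
  have hI : ∫ p, Real.log ‖p.1 - p.2‖ ∂((P.map (Ph e2)).prod (P.map (Ph e2))) = 0 := by
    rw [hprod, integral_map (m2.prodMap m2).aemeasurable measurable_lg.aestronglyMeasurable]
    exact (congrArg (integral (P.prod P)) lg_comp).trans D_zero
  refine ⟨P.map (Ph e1), Set.range fun s => (cod 0 s : ℂ), P.map (Ph e2),
    Measure.isProbabilityMeasure_map m1.aemeasurable,
    noAtoms (by rw [ENNReal.div_lt_iff (by simp) (by simp)]; norm_num) U_e1, isCompact_range hc,
    null_compl e1, ?_, Measure.isProbabilityMeasure_map m2.aemeasurable, null_compl e2,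
    noAtoms (by simp) U_e2, ?_, fun ρ h1 h2 h3 h4 => ?_, singular, 1, one_pos,
    Eventually.of_forall fun n => ?_⟩
  · rintro V hV ⟨_, h, s, rfl⟩
    rw [Measure.map_apply m1 hV.measurableSet]
    refine full_support (hV.preimage (continuous_Ph e1)) (ω := fun i => if s i then 1 else 0) ?_
    have : (e1 ∘ fun i => if s i then 1 else 0) = s := by
      funext i
      cases hs : s i <;> simp [e1, hs]
    simpa [Ph, this] using h
  · rw [hprod, integrable_map_measure measurable_lg.aestronglyMeasurable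
      (m2.prodMap m2).aemeasurable, lg_comp]
    exact integrable_D 0
  · rw [hI]
    have : NullSingletonClass ρ := h3
    exact energy_le ρ h2 h4
  · rw [hI, Real.exp_zero, one_pow, div_one]
    have : Nonempty {P : Polynomial ℂ // P.Monic ∧ P.natDegree = n} :=
      ⟨⟨Polynomial.X ^ n, Polynomial.monic_X_pow n, Polynomial.natDegree_X_pow n⟩⟩
    refine le_ciInf fun Q => ?_
    rw [integral_map (f := fun z => ‖Q.1.eval z‖ ^ 2) m1.aemeasurable
      (Q.1.continuous.norm.pow 2).aestronglyMeasurable, Real.one_le_sqrt]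
    have := widom n 0 Q.1 Q.2.1 Q.2.2
    rw [pow_zero, ite_self] at this
    exact this

end Pool.Agent.S05651
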