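import Pool.Statements.S05654

set_option autoImplicit false
open Filter Topology
open Pool Pool.MP_a2b00d_an

namespace Pool.Agent.S05654

open scoped InnerProductSpace

section
variable {G : Type}

/-- The Hilbert space. -/
noncomputable abbrev H (G : Type) := lp (fun _ : G => ℂ) 2

lemma hs2 (v : H G) : HasSum (fun x => ‖v x‖ ^ 2) (‖v‖ ^ 2) := by
  simpa using lp.hasSum_norm (p := 2) (by norm_num) v

/-- Permutation operators. -/
noncomputable def U (e : G ≃ G) : H G →ₗᵢ[ℂ] H G where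
  toFun v := ⟨fun x => v (e x), memℓp_gen (by
    simpa [Function.comp_def] using (e.summable_iff (f := fun x => ‖v x‖ ^ 2)).2 (hs2 v).summable)⟩
  map_add' _ _ := rfl
  map_smul' _ _ := rfl
  norm_map' v := by
    refine (pow_left_inj₀ (norm_nonneg _) (norm_nonneg _) two_ne_zero).1 ?_
    exact (hs2 _).unique ((e.hasSum_iff (f := fun x => ‖v x‖ ^ 2)).2 (hs2 v))

/-- Permutation operators as continuous linear maps. -/
noncomputable def V (e : G ≃ G) : H G →L[ℂ] H G := (U e).toContinuousLinearMap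

lemma V_apply (e : G ≃ G) (v : H G) (x : G) : V e v x = v (e x) := rfl

lemma V_adj (e : G ≃ G) : star (V e) = V e.symm := by
  rw [ContinuousLinearMap.star_eq_adjoint, eq_comm, ContinuousLinearMap.eq_adjoint_iff]
  intro v w
  rw [lp.inner_eq_tsum, lp.inner_eq_tsum, ← e.tsum_eq]
  simp [V_apply]

variable [Group G] [DecidableEq G]

/-- The delta function at the unit. -/
noncomputable def δ : H G := lp.single 2 1 1

lemma δ_apply (x : G) : (δ : H G) x = if x = 1 then 1 else 0 := by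
  simp [δ, lp.single_apply, Pi.single_apply]

/-- Commuting with right translations. -/
def C (S : H G →L[ℂ] H G) : Prop := ∀ g : G, Commute (V (Equiv.mulRight g)) S

omit [DecidableEq G] in
lemma C.adj {S : H G →L[ℂ] H G} (h : C S) : C (star S) := fun g => by
  have := (h g⁻¹).star_star
  rwa [V_adj, Equiv.mulRight_symm, inv_inv] at this

omit [DecidableEq G] in
lemma C.app {S : H G →L[ℂ] H G} (h : C S) (g : G) (v : H G) :
    S (V (Equiv.mulRight g) v) = V (Equiv.mulRight g) (S v) :=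
  (congrArg (fun A : H G →L[ℂ] H G => A v) (h g).eq).symm

lemma expand {S : H G →L[ℂ] H G} (h : C S) (v : H G) (x : G) :
    HasSum (fun g => v g * S δ (x * g⁻¹)) (S v x) := by
  have h1 := (lp.hasSum_single (by norm_num) v).mapL ((lp.evalCLM ℂ (fun _ : G => ℂ) 2 x).comp S)
  refine HasSum.congr_fun h1 fun g => ?_
  have e : lp.single 2 g (v g) = v g • V (Equiv.mulRight g⁻¹) δ := by
    ext y
    simp [V_apply, δ_apply, lp.single_apply, Pi.single_apply, mul_inv_eq_one]
  rw [e, map_smul, ContinuousLinearMap.comp_apply, h.app]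
  rfl

lemma C.ext {S T : H G →L[ℂ] H G} (hS : C S) (hT : C T) (h : S δ = T δ) : S = T := by
  ext1 v
  ext x
  exact (expand hS v x).unique (h ▸ expand hT v x)

lemma trace {S T : H G →L[ℂ] H G} (hS : C S) (hT : C T) : S (T δ) 1 = T (S δ) 1 := by
  refine (expand hS (T δ) 1).unique ((Equiv.inv G).hasSum_iff.1 ?_)
  refine HasSum.congr_fun (expand hT (S δ) 1) fun g => ?_
  simp [mul_comm]

lemma inj {T : H G →L[ℂ] H G} (hT : C T) (hu : IsUnit (T * star T)) :
    Function.Injective T ∧ ∃ ψ, T ψ = δ := by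
  obtain ⟨u, hu⟩ := hu
  have hW : C (↑u⁻¹ : H G →L[ℂ] H G) := fun g =>
    Commute.units_inv_right (by rw [hu]; exact (hT g).mul_right (hT.adj g))
  set W : H G →L[ℂ] H G := ↑u⁻¹
  have h1 : T * (star T * W) = 1 := by rw [← mul_assoc, ← hu, Units.mul_inv]
  have h1' : ∀ v, T ((star T * W) v) = v := fun v => congrArg (fun A : H G →L[ℂ] H G => A v) h1
  have hR : C (star T * W) := fun g => (hT.adj g).mul_right (hW g)
  have h2 : (star T * W) (T δ) 1 = 1 := by rw [trace hR hT, h1', δ_apply, if_pos rfl]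
  have h3 : (star T * W) (T δ) = δ := by
    rw [eq_comm, ← sub_eq_zero, ← inner_self_eq_zero (𝕜 := ℂ), inner_sub_left]
    have b1 : ⟪(star T * W) (T δ), δ - (star T * W) (T δ)⟫_ℂ = 0 := by
      change ⟪(ContinuousLinearMap.adjoint T) (W (T δ)), _⟫_ℂ = 0
      rw [ContinuousLinearMap.adjoint_inner_left, map_sub, h1', sub_self, inner_zero_right]
    rw [b1, sub_zero]
    nth_rewrite 1 [δ]
    rw [lp.inner_single_left, lp.coeFn_sub, Pi.sub_apply, h2, δ_apply]
    simp
  have h4 : star T * W * T = 1 :=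
    C.ext (fun g => (hR g).mul_right (hT g)) (fun g => Commute.one_right _) h3
  refine ⟨Function.LeftInverse.injective (g := star T * W) fun v => ?_, _, h1' δ⟩
  exact congrArg (fun A : H G →L[ℂ] H G => A v) h4

omit [DecidableEq G]

/-- Convolution operator. -/
noncomputable def conv (a : G → ℂ) : H G →L[ℂ] H G := ∑' g, a g • V (Equiv.mulLeft g⁻¹)

lemma conv_apply {a : G → ℂ} (ha : Summable fun g => ‖a g‖) (v : H G) (x : G) :
    HasSum (fun g => a g * v (g⁻¹ * x)) (conv a v x) := by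
  have h1 : Summable fun g => a g • V (Equiv.mulLeft g⁻¹) := .of_norm_bounded ha fun g => by
    rw [norm_smul]
    exact mul_le_of_le_one_right (norm_nonneg _) (U _).norm_toContinuousLinearMap_le
  exact h1.hasSum.mapL ((lp.evalCLM ℂ (fun _ : G => ℂ) 2 x).comp (ContinuousLinearMap.apply ℂ _ v))

lemma conv_C {a : G → ℂ} (ha : Summable fun g => ‖a g‖) : C (conv a) := fun g => by
  ext1 v
  ext x
  refine (conv_apply ha v (x * g)).unique (HasSum.congr_fun (conv_apply ha _ x) fun h => ?_)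
  simp [V_apply, mul_assoc]

lemma fubini {a b : G → ℂ} (ha : Summable fun g => ‖a g‖) (hb : Summable fun g => ‖b g‖)
    {c : G → ℂ} (h : ∀ x, HasSum (fun g => a g * b (g⁻¹ * x)) (c x)) :
    HasSum c ((∑' g, a g) * ∑' g, b g) := by
  let e : G × G ≃ G × G := ⟨fun p => (p.2, p.2⁻¹ * p.1), fun p => (p.1 * p.2, p.1),
    fun p => by simp, fun p => by simp⟩
  rw [tsum_mul_tsum_of_summable_norm ha hb]
  exact (e.hasSum_iff.2 (summable_mul_of_summable_norm ha hb).hasSum).prod_fiberwise h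

end

open FreeGroup

lemma iso {v b c : FreeGroup ℕ → ℝ} {sv sb sc : ℝ} (hv : HasSum v sv) (hb : HasSum b sb)
    (hc : HasSum c sc) (v0 : ∀ x, 0 ≤ v x) (b0 : ∀ x, 0 ≤ b x) (c0 : ∀ x, 0 ≤ c x)
    (h1 : ∀ x, v x ≤ v (of 0 * x) + b x) (h2 : ∀ x, v x ≤ v (of 1 * x) + c x) : sv ≤ sb + sc := by
  have s := fun w : ℕ × Bool => (hv.summable.indicator (startsWith w)).hasSum
  have key : ∀ (n : ℕ) {b : FreeGroup ℕ → ℝ} {sb : ℝ}, HasSum b sb → (∀ x, 0 ≤ b x) →
      (∀ x, v x ≤ v (of n * x) + b x) → sv ≤ (∑' x, (startsWith (n, false)).indicator v x)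
        + (∑' x, (startsWith (n, true)).indicator v x) + sb := by
    intro n b sb hb b0 h
    refine hasSum_le (fun x => ?_) hv
      (((s _).add ((Equiv.mulLeft (of n)).hasSum_iff.2 (s _))).add hb)
    by_cases hx : x ∈ startsWith (n, false)
    · rw [Set.indicator_of_mem hx]
      have := Set.indicator_nonneg (s := startsWith (n, true)) (fun x _ => v0 x) (of n * x)
      simp only [Function.comp_apply, Equiv.coe_mulLeft]
      linarith [b0 x]
    · have := startsWith_mk_mul (w := (n, true)) x hx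
      simp only [Function.comp_apply, Equiv.coe_mulLeft]
      rw [Set.indicator_of_notMem hx, Set.indicator_of_mem (show of n * x ∈ _ from this)]
      linarith [h x]
  have k := hasSum_le (fun x => ?_)
    ((((s (0, false)).add (s (0, true))).add (s (1, false))).add (s (1, true))) hv
  · linarith [key 0 hb b0 h1, key 1 hc c0 h2]
  · have := v0 x
    simp only [Set.indicator_apply, startsWith, Set.mem_ofPred_eq]
    split_ifs <;> simp_all

lemma coer (w : H (FreeGroup ℕ)) : ‖w‖ ^ 2 ≤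
    8 * (‖w - V (Equiv.mulLeft (of 0)) w‖ ^ 2 + ‖w - V (Equiv.mulLeft (of 1)) w‖ ^ 2) := by
  have s := fun n : ℕ => ((hs2 (w - V (Equiv.mulLeft (of n)) w)).mul_left 4).add
    (((hs2 w).add ((Equiv.mulLeft (of n)).hasSum_iff.2 (hs2 w))).div_const 8)
  have p : ∀ (n : ℕ) x, ‖w x‖ ^ 2 ≤ ‖w (of n * x)‖ ^ 2 +
      (4 * ‖(w - V (Equiv.mulLeft (of n)) w) x‖ ^ 2 + (‖w x‖ ^ 2 + ‖w (of n * x)‖ ^ 2) / 8) := by
    intro n x
    have e : (w - V (Equiv.mulLeft (of n)) w) x = w x - w (of n * x) := rfl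
    have h1 := norm_sub_norm_le (w x) (w (of n * x))
    rw [e]
    have h2 := norm_nonneg (w x)
    have h3 := norm_nonneg (w (of n * x))
    have h4 := norm_nonneg (w x - w (of n * x))
    nlinarith [mul_le_mul_of_nonneg_right h1 (add_nonneg h2 h3),
      sq_nonneg (8 * ‖w x - w (of n * x)‖ - (‖w x‖ + ‖w (of n * x)‖)),
      sq_nonneg (‖w x‖ - ‖w (of n * x)‖)]
  have := iso (hs2 w) (s 0) (s 1) (fun _ => by positivity)
    (fun _ => by simp only [Function.comp_apply]; positivity)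
    (fun _ => by simp only [Function.comp_apply]; positivity) (p 0) (p 1)
  linarith

lemma l1 (ψ : H (FreeGroup ℕ)) (h0 : Summable fun x => ‖ψ x - ψ (x * (of 0)⁻¹)‖)
    (h1 : Summable fun x => ‖ψ x - ψ (x * (of 1)⁻¹)‖) : Summable fun x => ‖ψ x‖ := by
  rw [← (Equiv.inv _).summable_iff]
  refine summable_of_sum_le (c := (∑' x, ‖ψ x - ψ (x * (of 0)⁻¹)‖) +
    ∑' x, ‖ψ x - ψ (x * (of 1)⁻¹)‖) (fun _ => norm_nonneg _) fun F => ?_
  refine le_of_forall_pos_le_add fun ε hε => ?_
  set η := ε / (F.card + 1) with hη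
  have η0 : 0 < η := by positivity
  have fin : Summable fun x : FreeGroup ℕ => max (‖ψ x⁻¹‖ - η) 0 := by
    have b1 := ((Equiv.inv _).summable_iff.2 (hs2 ψ).summable).tendsto_cofinite_zero.eventually
      (gt_mem_nhds (show 0 < η ^ 2 by positivity))
    refine summable_of_hasFiniteSupport ((eventually_cofinite.1 b1).subset fun x hx hx' => hx ?_)
    exact max_eq_right (sub_nonpos.2 (lt_of_pow_lt_pow_left₀ 2 η0.le hx').le)
  have p : ∀ (n : ℕ) x, max (‖ψ x⁻¹‖ - η) 0 ≤ max (‖ψ (of n * x)⁻¹‖ - η) 0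
      + ‖ψ x⁻¹ - ψ (x⁻¹ * (of n)⁻¹)‖ := fun n x => by
    rw [mul_inv_rev]
    have b1 := norm_sub_norm_le (ψ x⁻¹) (ψ (x⁻¹ * (of n)⁻¹))
    have b2 := le_max_left (‖ψ (x⁻¹ * (of n)⁻¹)‖ - η) 0
    exact max_le (by linarith) (by positivity)
  have b1 := iso fin.hasSum ((Equiv.inv _).hasSum_iff.2 h0.hasSum)
    ((Equiv.inv _).hasSum_iff.2 h1.hasSum) (fun _ => le_max_right _ _) (fun _ => norm_nonneg _)
    (fun _ => norm_nonneg _) (p 0) (p 1)
  have b2 := fin.sum_le_tsum F fun _ _ => le_max_right _ _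
  have b3 : ∑ x ∈ F, ‖ψ x⁻¹‖ ≤ ∑ x ∈ F, (max (‖ψ x⁻¹‖ - η) 0 + η) :=
    Finset.sum_le_sum fun x _ => by linarith [le_max_left (‖ψ x⁻¹‖ - η) 0]
  rw [Finset.sum_add_distrib, Finset.sum_const, nsmul_eq_mul] at b3
  have b4 : (F.card + 1) * η = ε := by
    rw [hη]
    field_simp
  change ∑ x ∈ F, ‖ψ x⁻¹‖ ≤ _
  nlinarith


/-- The negation of the preceding statement: Every ℓ¹-null sequence in the augmentation ideal of ℓ¹ of the countably generated free group factors as one ideal element a convolved with an ℓ¹-null sequence from the ideal. -/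
theorem result :
    ¬ (∀ x : ℕ → FreeGroup ℕ → ℂ,
      (∀ n, Summable (fun g => ‖x n g‖) ∧ ∑' g, x n g = 0) →
      Tendsto (fun n => ∑' g, ‖x n g‖) atTop (𝓝 0) →
      ∃ a : FreeGroup ℕ → ℂ, Summable (fun g => ‖a g‖) ∧ ∑' g, a g = 0 ∧
        ∃ y : ℕ → FreeGroup ℕ → ℂ,
          (∀ n, Summable (fun g => ‖y n g‖) ∧ ∑' g, y n g = 0) ∧
          Tendsto (fun n => ∑' g, ‖y n g‖) atTop (𝓝 0) ∧
          ∀ n g, x n g = ∑' h, a h * y n (h⁻¹ * g)) := by
  intro h
  let x : ℕ → FreeGroup ℕ → ℂ := fun n g =>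
    if n < 2 then (if g = 1 then 1 else 0) - (if g = of n then 1 else 0) else 0
  obtain ⟨a, a1, a2, y, y1, -, y2⟩ := h x (fun n => by
    by_cases hn : n < 2
    · have b := (hasSum_ite_eq (1 : FreeGroup ℕ) (1 : ℂ)).sub (hasSum_ite_eq (of n) (1 : ℂ))
      simp only [x, hn, if_true]
      exact ⟨b.summable.norm, by rw [b.tsum_eq, sub_self]⟩
    · simp only [x, hn, if_false]
      simp [summable_zero]) (by
    refine tendsto_const_nhds.congr' ?_
    filter_upwards [eventually_ge_atTop 2] with n hn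
    simp only [x, not_lt.2 hn, if_false]
    simp)
  have yδ : ∀ n g, conv (y n) δ g = y n g := fun n g => by
    refine (conv_apply (y1 n).1 δ g).unique (HasSum.congr_fun (hasSum_ite_eq g (y n g)) fun k => ?_)
    simp only [δ_apply, inv_mul_eq_one]
    split_ifs with hk <;> simp [hk]
  have ay : ∀ n, n < 2 → ∀ g, conv a (conv (y n) δ) g
      = (if g = 1 then 1 else 0) - (if g = of n then 1 else 0) := fun n hn g => by
    rw [← (conv_apply a1 _ g).tsum_eq]
    simp only [yδ, ← y2, x, hn, if_true]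
  have fac : ∀ n, n < 2 → conv a * conv (y n) = 1 - V (Equiv.mulLeft (of n)⁻¹) := fun n hn => by
    refine C.ext (fun g => (conv_C a1 g).mul_right (conv_C (y1 n).1 g))
      (fun g => (Commute.one_right _).sub_right ?_) ?_
    · ext1 v
      ext z
      change v ((of n)⁻¹ * (z * g)) = v (((of n)⁻¹ * z) * g)
      rw [mul_assoc]
    · ext g
      refine (ay n hn g).trans ?_
      change _ = δ g - δ ((of n)⁻¹ * g)
      simp only [δ_apply, inv_mul_eq_one, eq_comm (a := g)]
  have bd : ∀ n, n < 2 → ∀ w, ‖w - V (Equiv.mulLeft (of n)) w‖ ^ 2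
      ≤ ‖star (conv (y n))‖ ^ 2 * ‖star (conv a) w‖ ^ 2 := fun n hn w => by
    have b := congrArg (fun A : H (FreeGroup ℕ) →L[ℂ] H (FreeGroup ℕ) => star A w) (fac n hn)
    simp only [star_mul, star_sub, star_one, V_adj, Equiv.mulLeft_symm, inv_inv] at b
    rw [← mul_pow]
    refine pow_le_pow_left₀ (norm_nonneg _) ?_ 2
    exact (le_of_eq (congrArg Norm.norm b.symm)).trans 
      ((star (conv (y n))).le_opNorm (star (conv a) w))
  set K := 8 * (‖star (conv (y 0))‖ ^ 2 + ‖star (conv (y 1))‖ ^ 2) + 1 with hK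
  have K0 : 0 < K := by positivity
  obtain ⟨i, ψ, hψ⟩ := inj (conv_C a1) (ContinuousLinearMap.isUnit_of_forall_le_norm_inner_map _
    (c := ⟨K⁻¹, by positivity⟩) (inv_pos.2 K0) fun w => by
      have e : ⟪(conv a * star (conv a)) w, w⟫_ℂ = ⟪star (conv a) w, star (conv a) w⟫_ℂ :=
        (ContinuousLinearMap.adjoint_inner_right (conv a) (star (conv a) w) w).symm
      rw [e, inner_self_eq_norm_sq_to_K, norm_pow, RCLike.norm_ofReal, abs_norm]
      change ‖w‖ ^ 2 * K⁻¹ ≤ _
      rw [mul_inv_le_iff₀ K0]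
      nlinarith [coer w, bd 0 (by norm_num) w, bd 1 (by norm_num) w, sq_nonneg ‖star (conv a) w‖])
  have grad : ∀ n, n < 2 → Summable fun g => ‖ψ g - ψ (g * (of n)⁻¹)‖ := fun n hn => by
    have b : conv (y n) δ = ψ - V (Equiv.mulRight (of n)⁻¹) ψ := i (by
      rw [map_sub, (conv_C a1).app, hψ]
      ext g
      refine (ay n hn g).trans ?_
      change _ = δ g - δ (g * (of n)⁻¹)
      simp only [δ_apply, mul_inv_eq_one])
    refine (y1 n).1.congr fun g => ?_
    rw [← yδ, b]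
    rfl
  have b1 := fubini a1 (l1 ψ (grad 0 (by norm_num)) (grad 1 (by norm_num))) (conv_apply a1 ψ)
  rw [a2, zero_mul, hψ] at b1
  have b2 := b1.unique (HasSum.congr_fun (hasSum_ite_eq (1 : FreeGroup ℕ) (1 : ℂ)) δ_apply)
  exact zero_ne_one b2

end Pool.Agent.S05654
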