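import Pool.Statements.S05673
import Pool.Agent.H94.HD8

set_option autoImplicit false
open MeasureTheory
open Pool Pool.MP_a3494b_an

namespace Pool.Agent.S05673

open H94.HD Finset

noncomputable def ch (n : ℕ) (x : ℕ → UnitAddCircle) : ℂ :=
  ∏ k ∈ range n, fourier (-((n.factorization (Nat.nth Nat.Prime k) : ℕ) : ℤ)) (x k)

lemma ch_eq {n N : ℕ} (h : n ≤ N) (x : ℕ → UnitAddCircle) :
    ch n x = (starRingEnd ℂ) (∏ i : Fin N, ez (x i) ^ n.factorization (pr i)) := by
  rw [Fin.prod_univ_eq_prod_range (fun i => ez (x i) ^ n.factorization (pr i)), map_prod, ch]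
  simp only [ez_pow, ← fourier_neg]
  refine prod_subset (range_mono h) fun i _ hi => ?_
  have := Nat.add_two_le_nth_prime i
  rw [Nat.factorization_eq_zero_of_lt (by simp at hi; omega)]
  simp

noncomputable def cc (n : ℕ) : ℝ := if n = 1 then 1 else (√n * Real.log n)⁻¹

/-- There is a bounded measurable function on the infinite torus with Haar measure whose Fourier coefficient at the exponent vector of n is 1 for n=1 and 1/(√n·log n) for n≥2, i.e. whose Riesz projection is the symbol φ₀. -/
theorem result :
    ∃ f : (ℕ → UnitAddCircle) → ℂ,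
      MemLp f ⊤ (Measure.infinitePi (fun _ : ℕ => AddCircle.haarAddCircle (T := 1))) ∧
      (∫ x, f x ∂(Measure.infinitePi (fun _ : ℕ => AddCircle.haarAddCircle (T := 1)))) = 1 ∧
      ∀ n : ℕ, 2 ≤ n →
        (∫ x, (∏ k ∈ Finset.range n,
            fourier (-((n.factorization (Nat.nth Nat.Prime k) : ℕ) : ℤ)) (x k)) * f x
          ∂(Measure.infinitePi (fun _ : ℕ => AddCircle.haarAddCircle (T := 1))))
          = (((Real.sqrt n * Real.log n)⁻¹ : ℝ) : ℂ) := by
  obtain ⟨C, C0, hC⟩ := bohr
  have ezc := ez_cont
  have cm : ∀ n, Continuous (ch n) := fun n => by unfold ch; fun_prop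
  obtain ⟨f, f1, f2⟩ := symb (Measure.infinitePi fun _ : ℕ => mT) (fun n => ch (n + 1))
    (fun n => MemLp.of_bound (cm _).aestronglyMeasurable 1 (.of_forall fun x => by
      simp [ch, norm_prod])) (fun n => cc (n + 1)) C0.le fun a => by
      set N := a.support.sup id + 1 with hN
      have e : ∀ F : ℕ → ℂ, ∑ n ∈ a.support, a n * F (n + 1) = ∑ m ∈ Icc 1 N, a (m - 1) * F m := by
        intro F
        rw [← Finset.Ico_add_one_right_eq_Icc, sum_Ico_eq_sum_range]
        simp only [Nat.add_sub_cancel, add_comm 1, Nat.add_sub_cancel]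
        refine sum_subset (fun n hn => mem_range.2 ?_) fun n _ hn => ?_
        · exact Nat.lt_succ_of_le (le_sup (f := id) hn)
        · rw [Finsupp.notMem_support_iff.1 hn, zero_mul]
      have N1 : 1 ≤ N := by omega
      have H := hC N N1 fun m => (starRingEnd ℂ) (a (m - 1))
      rw [← (mp_fin (N + 1)).map_eq, integral_map (mp_fin (N + 1)).measurable.aemeasurable
        (Continuous.aestronglyMeasurable (by fun_prop))] at H
      rw [e fun n => cc n]
      refine (norm_sum_le _ _).trans (le_trans (le_of_eq ?_) (H.trans (le_of_eq ?_)))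
      · rw [← insert_Icc_add_one_left_eq_Icc N1, sum_insert (by simp)]
        congr 1
        · simp [cc]
        · refine sum_congr rfl fun m hm => ?_
          have := (mem_Icc.1 hm).1
          rw [norm_mul, cc, if_neg (by omega), Complex.norm_real, RCLike.norm_conj, div_eq_mul_inv,
            Real.norm_of_nonneg (by have := Real.log_natCast_nonneg m; positivity)]
      · refine congrArg (C * ·) (integral_congr_ae (.of_forall fun x => ?_))
        beta_reduce
        rw [e fun n => ch n x, ← RCLike.norm_conj, map_sum]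
        refine congrArg norm (sum_congr rfl fun m hm => ?_)
        rw [ch_eq ((mem_Icc.1 hm).2.trans (Nat.le_succ N)), map_mul, Complex.conj_conj]
  refine ⟨f, f1, ?_, fun n hn => ?_⟩
  · simpa [ch, cc] using f2 0
  · have := f2 (n - 1)
    rw [show n - 1 + 1 = n by omega, cc, if_neg (by omega)] at this
    exact this

end Pool.Agent.S05673
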