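import Pool.Statements.S05690
import Pool.Agent.H51.HypL1c

set_option autoImplicit false
open Pool Pool.MP_a56edf_an

namespace Pool.Agent.S05690
open Pool.Agent.H51.HypL1

/-- The negation of the preceding statement: Let E be a separable real or complex Banach space and λ ≥ 1. Suppose for every δ > 0, compact Q and ε > 0, some finite-rank projection of norm ≤ λ+δ is within ε of the identity on Q. Then the same holds with norm ≤ λ. -/
theorem result :
    ¬ (∀ (𝕜 : Type) [RCLike 𝕜] (E : Type) [NormedAddCommGroup E] [NormedSpace 𝕜 E]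
      [CompleteSpace E] [TopologicalSpace.SeparableSpace E] (lam : ℝ), 1 ≤ lam →
      (∀ δ : ℝ, 0 < δ → ∀ Q : Set E, IsCompact Q → ∀ ε : ℝ, 0 < ε →
        ∃ u : E →L[𝕜] E, FiniteDimensional 𝕜 (LinearMap.range (u : E →ₗ[𝕜] E)) ∧
          u.comp u = u ∧ ‖u‖ ≤ lam + δ ∧ ∀ x ∈ Q, ‖u x - x‖ ≤ ε) →
      (∀ Q : Set E, IsCompact Q → ∀ ε : ℝ, 0 < ε →
        ∃ u : E →L[𝕜] E, FiniteDimensional 𝕜 (LinearMap.range (u : E →ₗ[𝕜] E)) ∧
          u.comp u = u ∧ ‖u‖ ≤ lam ∧ ∀ x ∈ Q, ‖u x - x‖ ≤ ε)) := by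
  intro h
  obtain ⟨u, h1, h2, h3, h4⟩ := h ℝ E 1 le_rfl pap {y 0 1, y 0 2}
    ((Set.finite_singleton _).insert _).isCompact (1 / 10) (by norm_num)
  exact no_proj (fun x => congrArg (fun T : E →L[ℝ] E => T x) h2) h3 (h4 _ (by simp))
    (h4 _ (by simp)) h1

end Pool.Agent.S05690
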