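import Pool.Statements.S05708
import Pool.Agent.H87.Troy4

set_option autoImplicit false
open Pool Pool.MP_a65686_an

namespace Pool.Agent.S05708

theorem result :
    ¬ (∀ (X : Type) [NormedAddCommGroup X] [NormedSpace ℝ X] [CompleteSpace X],
      (∃ (I : Type) (e : I → X) (f : I → (X →L[ℝ] ℝ)),
          Uncountable I ∧
          (∀ i : I, f i (e i) = 1) ∧
          (∀ i j : I, i ≠ j → f i (e j) = 0) ∧
          ∀ x : X, HasSum (fun i => f i x • e i) x) →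
      (∃ N : X → ℝ,
          (∃ c C : ℝ, 0 < c ∧ 0 < C ∧ ∀ x : X, c * ‖x‖ ≤ N x ∧ N x ≤ C * ‖x‖) ∧
          (∀ x y : X, N (x + y) ≤ N x + N y) ∧
          (∀ (a : ℝ) (x : X), N (a • x) = |a| * N x) ∧
          ∀ x : X, x ≠ 0 → ∃ L : X →L[ℝ] ℝ,
            ∀ h : X, HasDerivAt (fun t : ℝ => N (x + t • h)) (L h) 0) →
      ∃ N : X → ℝ,
          (∃ c C : ℝ, 0 < c ∧ 0 < C ∧ ∀ x : X, c * ‖x‖ ≤ N x ∧ N x ≤ C * ‖x‖) ∧
          (∀ x y : X, N (x + y) ≤ N x + N y) ∧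
          (∀ (a : ℝ) (x : X), N (a • x) = |a| * N x) ∧
          ∀ φ ψ : X →L[ℝ] ℝ, φ ≠ ψ →
            sSup ((fun x => φ x) '' {x : X | N x ≤ 1}) = 1 →
            sSup ((fun x => ψ x) '' {x : X | N x ≤ 1}) = 1 →
            sSup ((fun x => (φ + ψ) x) '' {x : X | N x ≤ 1}) < 2) := by
  intro H
  obtain ⟨S⟩ := H87.Troy.exSys H87.Troy.cG (H87.Troy.irr H87.Troy.cG_asym)
  obtain ⟨M, h1, -, h2, h3⟩ := H _ ⟨H87.Troy.G, S.e, S.co, inferInstance, by simp [S.bi],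
    fun i j h => by simp [S.bi, h], S.hs⟩
    ⟨S.N, ⟨1 / 3, 1, by simp, by simp, fun x => ⟨S.N_low x, by simpa using S.N_up x⟩⟩, S.N_add,
      S.N_smul, fun x hx => S.gat hx⟩
  obtain ⟨f, g, h4, h5, h6, h7⟩ := H87.Troy.norot H87.Troy.cG_asym H87.Troy.cG_univ S M h1 h2
  have h0 : M 0 ≤ 1 := by simpa using (h2 0 0).trans_le (by simp : _ ≤ (1 : ℝ))
  have key : ∀ f g : _ →L[ℝ] ℝ, (∀ x, f x ≤ M x) → (∀ x, g x ≤ M x) →
      (∀ t < (2 : ℝ), ∃ y, M y ≤ 1 ∧ t < f y + g y) →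
      sSup ((fun x => f x) '' {x | M x ≤ 1}) = 1 := fun f g h5 h6 h7 =>
    csSup_eq_of_forall_le_of_forall_lt_exists_gt ⟨_, 0, h0, rfl⟩
      (by rintro _ ⟨x, hx, rfl⟩; exact (h5 x).trans hx) fun t ht => by
        obtain ⟨y, a1, a2⟩ := h7 (t + 1) (by linarith)
        exact ⟨_, ⟨y, a1, rfl⟩, by linarith [h6 y]⟩
  obtain ⟨y, a1, a2⟩ := h7 _ (h3 f g h4 (key f g h5 h6 h7)
    (key g f h6 h5 (by simpa only [add_comm] using h7)))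
  refine a2.not_ge (le_csSup ⟨2, ?_⟩ ⟨y, a1, rfl⟩)
  rintro _ ⟨x, hx, rfl⟩
  have : M x ≤ 1 := hx
  show f x + g x ≤ 2
  linarith [h5 x, h6 x]

end Pool.Agent.S05708
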