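import Pool.Statements.S05709
import Pool.Agent.H89.DJ2

set_option autoImplicit false
open Pool Pool.MP_a66ead_an

namespace Pool.Agent.S05709

/-- For every real Banach space X whose bidual modulo X is infinite-dimensional and every λ ≥ 1, some equivalent norm on X has Banach–Mazur distance at least λ to every space isometric to a dual space. -/
theorem result :
    ∀ (X : Type) [NormedAddCommGroup X] [NormedSpace ℝ X] [CompleteSpace X],
      (∀ n : ℕ, ∃ φ : Fin n → ((X →L[ℝ] ℝ) →L[ℝ] ℝ),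
        ∀ (c : Fin n → ℝ) (x : X),
          (∀ f : X →L[ℝ] ℝ, ∑ i, c i * φ i f = f x) → c = 0) →
      ∀ l : ℝ, 1 ≤ l →
        ∃ N : Seminorm ℝ X,
          (∃ a b : ℝ, 0 < a ∧ 0 < b ∧ ∀ x : X, a * ‖x‖ ≤ N x ∧ N x ≤ b * ‖x‖) ∧
          ∀ (Z : Type) [NormedAddCommGroup Z] [NormedSpace ℝ Z]
            (T : X ≃ₗ[ℝ] (Z →L[ℝ] ℝ)) (a b : ℝ),
            (∀ x : X, ‖T x‖ ≤ a * N x) → (∀ x : X, N x ≤ b * ‖T x‖) → l ≤ a * b := by
  intro X _ _ _ hX l _
  exact Pool.Agent.H89.DJ.main hX l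

end Pool.Agent.S05709
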