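import Pool.Statements.S05711
import Pool.Agent.H26.Wr3

set_option autoImplicit false
open MeasureTheory
open scoped FourierTransform
open Pool Pool.MP_a6b860_an

namespace Pool.Agent.S05711

/-- For every d ≥ 1 there is a unitary U on L²(ℝ^d) such that, whenever f, g have a.e. equal moduli, Fourier transforms of a.e. equal modulus, and Uf, Ug of a.e. equal modulus, then f = c·g for some complex c with ∣c∣ = 1. -/
theorem result :
    ∀ d : ℕ, 1 ≤ d →
      ∀ F : Lp ℂ 2 (volume : Measure (EuclideanSpace ℝ (Fin d))) ≃ₗᵢ[ℂ]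
          Lp ℂ 2 (volume : Measure (EuclideanSpace ℝ (Fin d))),
        (∀ f : Lp ℂ 2 (volume : Measure (EuclideanSpace ℝ (Fin d))),
            Integrable (⇑f) volume →
              (⇑(F f)) =ᵐ[volume] 𝓕 (⇑f)) →
        ∃ U : Lp ℂ 2 (volume : Measure (EuclideanSpace ℝ (Fin d))) ≃ₗᵢ[ℂ]
            Lp ℂ 2 (volume : Measure (EuclideanSpace ℝ (Fin d))),
          ∀ f g : Lp ℂ 2 (volume : Measure (EuclideanSpace ℝ (Fin d))),
            (∀ᵐ x ∂volume, ‖f x‖ = ‖g x‖) →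
            (∀ᵐ x ∂volume, ‖(F f) x‖ = ‖(F g) x‖) →
            (∀ᵐ x ∂volume, ‖(U f) x‖ = ‖(U g) x‖) →
            ∃ c : ℂ, ‖c‖ = 1 ∧ f = c • g := by
  intro d hd F _
  obtain ⟨U, hU, h⟩ := Pool.Agent.H26.Wr.main (d := d) ⟨0, hd⟩
  exact ⟨Unitary.linearIsometryEquiv ⟨U, hU⟩, fun f g h1 _ h3 => h f g h1 h3⟩

end Pool.Agent.S05711
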