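import Pool.Statements.S05730
import Pool.Agent.H89.AutConj

set_option autoImplicit false
open MeasureTheory
open Pool Pool.MP_a7cd30_an

namespace Pool.Agent.S05730

/-- The negation of the preceding statement: Give measure-preserving automorphisms of [0,1] the weak topology. Then for every compact set K of them, the set of all automorphisms a.e. equal to some conjugate R⁻¹SR with S in K is meagre. -/
theorem result :
    ¬ (∀ τ : TopologicalSpace
        {e : ℝ ≃ᵐ ℝ // MeasurePreserving (⇑e) (volume.restrict (Set.Icc (0:ℝ) 1))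
          (volume.restrict (Set.Icc (0:ℝ) 1))},
      τ = (⨅ (A : Set ℝ) (_ : MeasurableSet A) (B : Set ℝ) (_ : MeasurableSet B),
            TopologicalSpace.induced
              (fun T : {e : ℝ ≃ᵐ ℝ // MeasurePreserving (⇑e) (volume.restrict (Set.Icc (0:ℝ) 1))
                  (volume.restrict (Set.Icc (0:ℝ) 1))} =>
                ((volume.restrict (Set.Icc (0:ℝ) 1)) ((⇑T.1) ⁻¹' A ∩ B)).toReal)
              (inferInstance : TopologicalSpace ℝ)) →
      ∀ K : Set {e : ℝ ≃ᵐ ℝ // MeasurePreserving (⇑e) (volume.restrict (Set.Icc (0:ℝ) 1))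
          (volume.restrict (Set.Icc (0:ℝ) 1))},
        @IsCompact _ τ K →
        @IsMeagre _ τ
          {T : {e : ℝ ≃ᵐ ℝ // MeasurePreserving (⇑e) (volume.restrict (Set.Icc (0:ℝ) 1))
              (volume.restrict (Set.Icc (0:ℝ) 1))} |
            ∃ R S : {e : ℝ ≃ᵐ ℝ // MeasurePreserving (⇑e) (volume.restrict (Set.Icc (0:ℝ) 1))
                (volume.restrict (Set.Icc (0:ℝ) 1))},
              S ∈ K ∧
              Filter.EventuallyEq (ae (volume.restrict (Set.Icc (0:ℝ) 1)))
                (⇑T.1) (fun x => R.1.symm (S.1 (R.1 x)))}) := by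
  intro h
  obtain ⟨K, hK, hO⟩ := Pool.Agent.H89.AutTop.main
  have h1 := h _ Pool.Agent.H89.AutTop.top_eq.symm K hK
  rw [Set.eq_univ_of_forall (s := {T | _}) fun T => by
    obtain ⟨R, S, h2, h3⟩ := hO T
    exact ⟨R, S, h2, Filter.Eventually.of_forall h3⟩] at h1
  have h2 : IsMeagre (Set.univ : Set Pool.Agent.H89.AutTop.G) := h1
  have : Nonempty Pool.Agent.H89.AutTop.G := ⟨⟨MeasurableEquiv.refl ℝ, MeasurePreserving.id _⟩⟩
  exact not_isMeagre_of_isOpen isOpen_univ Set.univ_nonempty h2

end Pool.Agent.S05730
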