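import Pool.Statements.S05776
import Pool.Agent.H93.Tor2
import Pool.Agent.H93.Tor3

set_option autoImplicit false
open Pool Pool.MP_ab96c2_an

namespace Pool.Agent.S05776

open Set Filter Topology Metric InnerProductSpace Complex
open Pool.Agent.H93.Tor1 Pool.Agent.H93.Tor2 Pool.Agent.H93.Tor3

lemma nsq (z : ℂ) : ‖z‖ ^ 2 = z.re ^ 2 + z.im ^ 2 := by
  rw [Complex.sq_norm, normSq_apply]; ring

lemma harm_neg {h : ℂ → ℝ} (hh : HarmonicOnNhd h Om) : HarmonicOnNhd (fun z => h (-z)) Om := by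
  intro z hz
  obtain ⟨r, hr, hrΩ⟩ := Metric.isOpen_iff.1 isOpen_Om (-z) (neg_Om.2 hz)
  obtain ⟨F, hF, hFe⟩ := (hh.mono hrΩ).exists_analyticOnNhd_ball_re_eq
  have a : AnalyticAt ℂ (fun w => F (-w)) z :=
    (hF _ (mem_ball_self hr)).comp (f := fun w : ℂ => -w) (by fun_prop)
  refine (harmonicAt_congr_nhds ?_).1 a.harmonicAt_re
  filter_upwards [ball_mem_nhds z hr] with w hw
  exact hFe (by rwa [mem_ball, dist_neg_neg])

lemma symm_h {h : ℂ → ℝ} (hh : HarmonicOnNhd h Om) (hc : ContinuousOn h (closure Om))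
    (h0 : ∀ z, z ∉ Om → h z = ‖z‖ ^ 2 / 2) (z : ℂ) (hz : z ∈ Om) : h (-z) = h z := by
  have m : MapsTo (fun z : ℂ => -z) (closure Om) (closure Om) :=
    MapsTo.closure (fun z hz => neg_Om.2 hz) continuous_neg
  have key := compare isOpen_Om bounded_Om hc (subM_of_harm isOpen_Om hh) (harm_neg hh)
    (hc.comp continuous_neg.continuousOn m) (fun z _ hz => by
      rw [h0 z hz, h0 (-z) (fun k => hz (neg_Om.1 k)), norm_neg])
  refine le_antisymm ?_ (key z (subset_closure hz))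
  simpa using key (-z) (subset_closure (neg_Om.2 hz))

lemma up1 {h : ℂ → ℝ} (hh : HarmonicOnNhd h Om) (hc : ContinuousOn h (closure Om))
    (h0 : ∀ z, z ∉ Om → h z = ‖z‖ ^ 2 / 2) (z : ℂ) (hz : z ∈ Om) :
    h z ≤ 9 + 0 * z.re + 0 * z.im + 1 / 2 * (z.re ^ 2 - z.im ^ 2) := by
  refine compare isOpen_Om bounded_Om hc (subM_of_harm isOpen_Om hh)
    (fun z _ => harm_quad 9 0 0 (1 / 2) z) (by fun_prop) (fun z hz hz' => ?_) z (subset_closure hz)
  have : z.im ^ 2 ≤ 9 := by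
    refine closure_minimal (t := {z : ℂ | z.im ^ 2 ≤ 9}) (fun w hw => ?_)
      (isClosed_le (by fun_prop) (by fun_prop)) hz
    have := hw.1.bd
    simp only [mem_ofPred_eq]
    nlinarith
  rw [h0 z hz', nsq]; linarith

lemma up2 {h : ℂ → ℝ} (hh : HarmonicOnNhd h Om) (hc : ContinuousOn h (closure Om))
    (h0 : ∀ z, z ∉ Om → h z = ‖z‖ ^ 2 / 2) : h 0 ≤ 409 / 400 := by
  let Q : Set ℂ := {z | z.re ^ 2 < 400 ∧ z.im ^ 2 < 1}
  have hQ : IsOpen Q := IsOpen.and (isOpen_lt (by fun_prop) (by fun_prop))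
    (isOpen_lt (by fun_prop) (by fun_prop))
  have hs : Q ⊆ Om := fun z hz => by
    obtain ⟨a, b⟩ := hz
    exact ⟨Or.inl ⟨by nlinarith, by nlinarith, Or.inl (by nlinarith)⟩,
      Or.inl ⟨by nlinarith, by nlinarith, Or.inl (by nlinarith)⟩⟩
  have := compare hQ (bounded_Om.subset hs) (hc.mono (closure_mono hs))
    (subM_of_harm hQ (hh.mono hs))
    (fun z _ => harm_quad (409 / 400) 0 0 (209 / 400) z) (by fun_prop) (fun z hz hz' => ?_) 0
    (subset_closure (by norm_num [Q]))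
  · simpa using this
  have ⟨a, b⟩ : z.re ^ 2 ≤ 400 ∧ z.im ^ 2 ≤ 1 := by
    refine closure_minimal (t := {z : ℂ | z.re ^ 2 ≤ 400 ∧ z.im ^ 2 ≤ 1})
      (fun w hw => ⟨hw.1.le, hw.2.le⟩)
      (IsClosed.and (isClosed_le (by fun_prop) (by fun_prop))
        (isClosed_le (by fun_prop) (by fun_prop))) hz
  by_cases hO : z ∈ Om
  · have := up1 hh hc h0 z hO
    by_cases k : z.re ^ 2 < 400
    · exfalso
      have e : z.im ^ 2 = 1 := le_antisymm b (not_lt.1 fun k' => hz' ⟨k, k'⟩)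
      have x1 : z.re < 20 := by nlinarith
      have x2 : -20 < z.re := by nlinarith
      rcases sq_eq_one_iff.1 e with e | e
      · rcases hO.2 with ⟨c, _⟩ | ⟨_, c⟩ | ⟨_, c, _⟩ <;> linarith
      · rcases hO.1 with ⟨c, _⟩ | ⟨_, c⟩ | ⟨_, c, _⟩ <;> linarith
    · linarith
  · rw [h0 z hO, nsq]
    by_cases k : z.re ^ 2 < 400
    · have e : z.im ^ 2 = 1 := le_antisymm b (not_lt.1 fun k' => hz' ⟨k, k'⟩)
      nlinarith [sq_nonneg z.re]
    · linarith

/-- the comparison function -/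
noncomputable def F (w : ℂ) : ℝ :=
  7 / 4 * p w - 14 / 25 * (p w * (4 * p w ^ 2 - 3 * ‖w‖))
    - 1 / 5 * (p w * (16 * p w ^ 4 - 20 * p w ^ 2 * ‖w‖ + 5 * ‖w‖ ^ 2))
    + 1 / 50 * (p w * (64 * p w ^ 6 - 112 * p w ^ 4 * ‖w‖ + 56 * p w ^ 2 * ‖w‖ ^ 2 - 7 * ‖w‖ ^ 3))

lemma F_eq (w : ℂ) : F w = (((7 / 4 : ℝ) : ℂ) * w ^ (2⁻¹ : ℂ) - ((14 / 25 : ℝ) : ℂ) * (w ^ (2⁻¹ : ℂ)) ^ 3
    - ((1 / 5 : ℝ) : ℂ) * (w ^ (2⁻¹ : ℂ)) ^ 5 + ((1 / 50 : ℝ) : ℂ) * (w ^ (2⁻¹ : ℂ)) ^ 7).re := by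
  have h1 : (w ^ (2⁻¹ : ℂ)) ^ 2 = w := cpow_ofNat_inv_pow w 2
  have h2 : p w = (w ^ (2⁻¹ : ℂ)).re := by rw [cpow_inv_two_re, p]
  generalize w ^ (2⁻¹ : ℂ) = s at h1 h2
  have h3 : ‖w‖ = s.re ^ 2 + s.im ^ 2 := by rw [← h1, norm_pow, nsq]
  unfold F
  rw [h2, h3]
  simp only [add_re, sub_re, ofReal_re, ofReal_im, pow_succ, pow_zero, one_mul, mul_re, mul_im]
  ring

lemma low {h : ℂ → ℝ} (hh : HarmonicOnNhd h Om) (hc : ContinuousOn h (closure Om))
    (h0 : ∀ z, ‖z‖ ^ 2 / 2 ≤ h z) :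
    ∃ z ∈ Om, 409 / 400 < h z - ‖z‖ ^ 2 / 2 := by
  let c : ℂ := ⟨20, 1⟩
  let D : Set ℂ := {z | ‖z - c‖ < 2 ∧ z - c ∈ slitPlane}
  have hD : IsOpen D := IsOpen.and (isOpen_lt (by fun_prop) (by fun_prop))
    (isOpen_slitPlane.preimage (by fun_prop : Continuous fun z : ℂ => z - c))
  have hs : D ⊆ Om := fun z hz => by
    obtain ⟨a, b⟩ := hz
    have e := nsq (z - c)
    simp only [mem_slitPlane_iff, sub_re, sub_im, c] at b e
    have a' : (z.re - 20) ^ 2 + (z.im - 1) ^ 2 < 4 := by nlinarith [norm_nonneg (z - c)]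
    have x1 : 18 < z.re := by nlinarith [sq_nonneg (z.im - 1)]
    have y1 : -1 < z.im := by nlinarith [sq_nonneg (z.re - 20)]
    have y2 : z.im < 3 := by nlinarith [sq_nonneg (z.re - 20)]
    refine ⟨Or.inl ⟨y1, y2, Or.inr a'⟩, ?_⟩
    rcases lt_trichotomy z.im 1 with k | k | k
    · exact Or.inl ⟨by linarith, by linarith, Or.inl (by linarith)⟩
    · refine Or.inr (Or.inl ⟨by linarith, ?_⟩)
      rcases b with b | b
      · linarith
      · exact absurd (by linarith) b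
    · exact Or.inr (Or.inr ⟨by linarith, by linarith, Or.inl (by linarith)⟩)
  let U : ℂ → ℝ := fun z => F (z - c) + (-1 + 0 * z.re + 2 * z.im + 1 / 2 * (z.re ^ 2 - z.im ^ 2))
  have hU : HarmonicOnNhd U D := fun z hz => by
    have a : AnalyticAt ℂ (fun w => (w - c) ^ (2⁻¹ : ℂ)) z :=
      AnalyticAt.cpow (by fun_prop) analyticAt_const hz.2
    have b : AnalyticAt ℂ (fun w => ((7 / 4 : ℝ) : ℂ) * (w - c) ^ (2⁻¹ : ℂ)
        - ((14 / 25 : ℝ) : ℂ) * ((w - c) ^ (2⁻¹ : ℂ)) ^ 3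
        - ((1 / 5 : ℝ) : ℂ) * ((w - c) ^ (2⁻¹ : ℂ)) ^ 5
        + ((1 / 50 : ℝ) : ℂ) * ((w - c) ^ (2⁻¹ : ℂ)) ^ 7) z :=
      (((analyticAt_const.mul a).sub (analyticAt_const.mul (a.pow 3))).sub
        (analyticAt_const.mul (a.pow 5))).add (analyticAt_const.mul (a.pow 7))
    have d := b.harmonicAt_re.add (harm_quad (-1) 0 2 (1 / 2) z)
    convert d using 1
    funext w
    simp only [U, Pi.add_apply, F_eq]
  have hUc : Continuous U := by unfold U F; fun_prop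
  have z0 : (c + (16 / 25 : ℝ)) ∈ D := by
    refine ⟨?_, ?_⟩
    · rw [add_sub_cancel_left, Complex.norm_real]; norm_num
    · rw [add_sub_cancel_left]; exact ofReal_mem_slitPlane.2 (by norm_num)
  have := compare hD (bounded_Om.subset hs) hUc.continuousOn (subM_of_harm hD hU) (hh.mono hs)
    (hc.mono (closure_mono hs)) (fun z hz hz' => ?_) _ (subset_closure z0)
  · refine ⟨_, hs z0, ?_⟩
    have n : ‖(((16 / 25 : ℝ)) : ℂ)‖ = 16 / 25 := by rw [Complex.norm_real]; norm_num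
    have pp : p ((16 / 25 : ℝ) : ℂ) = 4 / 5 := by
      rw [p, n, ofReal_re, show ((16 / 25 : ℝ) + 16 / 25) / 2 = (4 / 5) ^ 2 by norm_num,
        Real.sqrt_sq (by norm_num)]
    simp only [U, F, add_sub_cancel_left, n, pp] at this
    rw [nsq]
    simp only [add_re, add_im, ofReal_re, ofReal_im, c] at this ⊢
    linarith
  refine le_trans ?_ (h0 z)
  have a : ‖z - c‖ ≤ 2 := closure_minimal (t := {z : ℂ | ‖z - c‖ ≤ 2}) (fun w hw => hw.1.le)
    (isClosed_le (by fun_prop) (by fun_prop)) hz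
  have e1 := im_sq (z - c)
  have e2 := p_sq (z - c)
  have e3 := p_nonneg (z - c)
  have e4 : (z - c).im = z.im - 1 := by simp [c]
  rw [e4] at e1
  suffices F (z - c) ≤ (z.im - 1) ^ 2 by simp only [U, nsq]; linarith
  by_cases k : z - c ∈ slitPlane
  · have r2 : ‖z - c‖ = 2 := le_antisymm a (not_lt.1 fun k' => hz' ⟨k', k⟩)
    have e5 : p (z - c) ^ 2 ≤ 2 := by linarith [re_le_norm (z - c)]
    rw [e1, F, r2]
    generalize p (z - c) = t at e3 e5
    have k1 : 8 / 25 * t * (4 - t ^ 2) ≤ 1 := by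
      nlinarith [mul_nonneg (sq_nonneg (t - 29 / 25)) (by linarith : 0 ≤ t + 58 / 25)]
    have k2 : 0 ≤ 4 * t ^ 2 * (2 - t ^ 2) := mul_nonneg (by positivity) (by linarith)
    nlinarith [mul_le_mul_of_nonneg_left k1 k2]
  · have e5 : p (z - c) = 0 := by
      simp only [mem_slitPlane_iff, not_or, not_lt, not_not] at k
      have : ‖z - c‖ ^ 2 = (-(z - c).re) ^ 2 := by rw [nsq, k.2]; ring
      rw [sq_eq_sq₀ (norm_nonneg _) (by linarith [k.1])] at this
      rw [p, this]; simp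
    rw [F, e5]; nlinarith [sq_nonneg (z.im - 1)]


/-- The negation of the preceding statement: For every bounded simply connected planar domain, the number of critical points of its torsion function (Δv=−2, v=0 on the boundary) is at most 2m−1, where m is the number of components of the set of local maxima of the distance to the boundary. -/
theorem result :
    ¬ (∀ (Ω : Set ℂ), IsOpen Ω → Bornology.IsBounded Ω → SimplyConnectedSpace Ω →
    ∀ (v : ℂ → ℝ), ContDiffOn ℝ 2 v Ω →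
      (∀ z ∈ Ω, fderiv ℝ (fun w => fderiv ℝ v w (1 : ℂ)) z (1 : ℂ)
          + fderiv ℝ (fun w => fderiv ℝ v w Complex.I) z Complex.I = -2) →
      ContinuousOn v (closure Ω) →
      (∀ z ∈ frontier Ω, v z = 0) →
      Set.encard {z : ℂ | z ∈ Ω ∧ fderiv ℝ v z = 0}
        ≤ 2 * ENat.card (ConnectedComponents
              {z : ℂ | z ∈ Ω ∧ IsLocalMax (fun w : ℂ => Metric.infDist w Ωᶜ) z}) - 1) := by
  intro H
  obtain ⟨h, hh, hc, h1, h0⟩ := torsion isOpen_Om bounded_Om ray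
  obtain ⟨l1, l2⟩ := laplace isOpen_Om hh
  have sc : SimplyConnectedSpace Om := simply sec (by unfold sec; fun_prop) 3 (by norm_num)
    (fun z hz => ⟨hz.1.bd.1, hz.1.bd.2.1⟩) (fun y hy => Rt_sec hy.1 hy.2) (fun z hz t ht => by
      have m : (⟨sec z.im, z.im⟩ : ℂ) ∈ Om := Rt_sec hz.1.bd.1 hz.1.bd.2.1
      rcases le_total (sec z.im) z.re with k | k
      · exact hconv (x2 := z.re) m hz (by nlinarith [ht.1, ht.2]) (by nlinarith [ht.1, ht.2])
      · exact hconv (x1 := z.re) hz m (by nlinarith [ht.1, ht.2]) (by nlinarith [ht.1, ht.2]))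
  have vc : ContinuousOn (fun z => h z - ‖z‖ ^ 2 / 2) (closure Om) := hc.sub (by fun_prop)
  have key := H Om isOpen_Om bounded_Om sc _ l1 l2 vc (fun z hz => by
    rw [isOpen_Om.frontier_eq] at hz
    simp only [h0 z hz.2, sub_self])
  rw [locmax_eq] at key
  have : PreconnectedSpace Ga := isPreconnected_iff_preconnectedSpace.1 pre_Ga
  have c1 : ENat.card (ConnectedComponents Ga) ≤ 1 := ENat.card_le_one_iff_subsingleton _ |>.2 inferInstance
  obtain ⟨z0, a1, a2⟩ := low hh hc h1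
  obtain ⟨z1, b1, b2⟩ := bounded_Om.isCompact_closure.exists_isMaxOn ⟨z0, subset_closure a1⟩ vc
  have b3 : h z0 - ‖z0‖ ^ 2 / 2 ≤ h z1 - ‖z1‖ ^ 2 / 2 := b2 (subset_closure a1)
  have b4 : z1 ∈ Om := by
    by_contra k
    rw [h0 z1 k] at b3; linarith
  have b5 : z1 ≠ 0 := by
    rintro rfl
    have := up2 hh hc h0
    simp at b3; linarith
  have b6 : fderiv ℝ (fun z => h z - ‖z‖ ^ 2 / 2) z1 = 0 :=
    (b2.isLocalMax (mem_of_superset (isOpen_Om.mem_nhds b4) subset_closure)).fderiv_eq_zero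
  have o0 : (0 : ℂ) ∈ Om := by norm_num [Om, Rt]
  have b7 : fderiv ℝ (fun z => h z - ‖z‖ ^ 2 / 2) 0 = 0 := by
    have d := ((l1.contDiffAt (isOpen_Om.mem_nhds o0)).differentiableAt (by norm_num)).hasFDerivAt
    set f := fderiv ℝ (fun z => h z - ‖z‖ ^ 2 / 2) 0
    have d' : HasFDerivAt (fun z => h z - ‖z‖ ^ 2 / 2) f (-0) := by rwa [neg_zero]
    have d2 := d'.comp (0 : ℂ) (hasFDerivAt_id (𝕜 := ℝ) (0 : ℂ)).neg
    have d3 : HasFDerivAt (fun z => h z - ‖z‖ ^ 2 / 2) (f.comp (-ContinuousLinearMap.id ℝ ℂ)) 0 := by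
      refine d2.congr_of_eventuallyEq ?_
      filter_upwards [isOpen_Om.mem_nhds o0] with w hw
      simp [symm_h hh hc h0 w hw]
    have := d.unique d3
    ext1 t
    have e := congrArg (fun g : ℂ →L[ℝ] ℝ => g t) this
    simp at e ⊢
    linarith
  have e2 : ({z1, 0} : Set ℂ).encard ≤ 2 * ENat.card (ConnectedComponents Ga) - 1 := by
    refine le_trans (encard_le_encard ?_) key
    rintro z (rfl | rfl)
    · exact ⟨b4, b6⟩
    · exact ⟨o0, b7⟩
  rw [encard_pair b5] at e2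
  have e3 : 2 * ENat.card (ConnectedComponents Ga) - 1 ≤ 2 * 1 - 1 := by gcongr
  have := e2.trans e3
  revert this
  decide

end Pool.Agent.S05776
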