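import Pool.Statements.S05779

set_option autoImplicit false
open Pool Pool.MP_abc713_an

namespace Pool.Agent.S05779

open scoped BoundedContinuousFunction ZeroAtInfty Topology
open Filter

abbrev E1 : Type := C₀(ℕ, ℝ)

lemma apply_le (y : E1) (n : ℕ) : |y n| ≤ ‖y‖ := by
  have := y.toBCF.norm_coe_le_norm n
  simpa [ZeroAtInftyContinuousMap.norm_toBCF_eq_norm] using this

lemma norm_le1 (y : E1) (C : ℝ) (hC : 0 ≤ C) (h : ∀ n, |y n| ≤ C) : ‖y‖ ≤ C := by
  rw [← ZeroAtInftyContinuousMap.norm_toBCF_eq_norm]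
  exact (BoundedContinuousFunction.norm_le hC).2 h

def mk1 (f : ℕ → ℝ) (h : Tendsto f atTop (𝓝 0)) : E1 where
  toFun := f
  continuous_toFun := continuous_of_discreteTopology
  zero_at_infty' := by
    rw [cocompact_eq_cofinite, Nat.cofinite_eq_atTop]
    exact h

@[simp] lemma mk1_apply (f : ℕ → ℝ) (h : Tendsto f atTop (𝓝 0)) (n : ℕ) : mk1 f h n = f n := rfl

lemma tend (y : E1) : Tendsto (fun n => y n) atTop (𝓝 0) := by
  have := y.zero_at_infty'
  rwa [cocompact_eq_cofinite, Nat.cofinite_eq_atTop] at this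

lemma w_le (y : E1) (k : ℕ) : |((k : ℝ) + 2) / ((k : ℝ) + 1) * y (k + 1)| ≤ 2 * |y (k + 1)| := by
  have h0 : (0 : ℝ) ≤ k := Nat.cast_nonneg k
  rw [abs_mul, abs_of_nonneg (by positivity)]
  apply mul_le_mul_of_nonneg_right _ (abs_nonneg _)
  rw [div_le_iff₀ (by positivity)]
  linarith

lemma w_tend (y : E1) :
    Tendsto (fun k : ℕ => ((k : ℝ) + 2) / ((k : ℝ) + 1) * y (k + 1)) atTop (𝓝 0) := by
  have h1 : Tendsto (fun k : ℕ => 2 * |y (k + 1)|) atTop (𝓝 0) := by
    have := (((tend y).comp (tendsto_add_atTop_nat 1)).abs).const_mul 2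
    simpa using this
  exact squeeze_zero_norm (fun k => w_le y k) h1

noncomputable def TL : E1 →ₗ[ℝ] E1 where
  toFun y := mk1 _ (w_tend y)
  map_add' x y := by
    ext n
    simp [mul_add]
  map_smul' c x := by
    ext n
    simp
    ring

noncomputable def T : E1 →L[ℝ] E1 :=
  TL.mkContinuous 2 fun y => by
    refine norm_le1 _ _ (by positivity) fun k => (w_le y k).trans ?_
    have := apply_le y (k + 1)
    linarith

lemma T_apply (y : E1) (k : ℕ) : T y k = ((k : ℝ) + 2) / ((k : ℝ) + 1) * y (k + 1) := rfl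

lemma Tpow_apply (n : ℕ) : ∀ (y : E1) (k : ℕ),
    (T ^ n) y k = ((n + k : ℕ) + 1 : ℝ) / ((k : ℝ) + 1) * y (n + k) := by
  induction n with
  | zero =>
    intro y k
    have : (k : ℝ) + 1 ≠ 0 := by positivity
    simp [this]
  | succ n ih =>
    intro y k
    rw [pow_succ', ContinuousLinearMap.mul_apply, T_apply, ih]
    have e : n + (k + 1) = n + 1 + k := by ring
    rw [e]
    have h1 : (k : ℝ) + 1 ≠ 0 := by positivity
    have h2 : (k : ℝ) + 1 + 1 ≠ 0 := by positivity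
    push_cast
    field_simp
    ring

lemma fin_tend (f : ℕ →₀ ℚ) : Tendsto (fun k => (f k : ℝ)) atTop (𝓝 0) := by
  apply tendsto_const_nhds.congr'
  filter_upwards [eventually_gt_atTop (f.support.sup id)] with k hk
  have : k ∉ f.support := fun h => by
    have : k ≤ f.support.sup id := Finset.le_sup (f := id) h
    omega
  rw [Finsupp.notMem_support_iff.mp this]; simp

def emb (f : ℕ →₀ ℚ) : E1 := mk1 _ (fin_tend f)

lemma emb_dense (v : E1) (r : ℝ) (hr : 0 < r) : ∃ f, ‖emb f - v‖ ≤ r := by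
  classical
  obtain ⟨K, hK⟩ := Metric.tendsto_atTop.mp (tend v) r hr
  choose q hq using fun t => exists_rat_near (v t) hr
  refine ⟨Finsupp.onFinset (Finset.range K) (fun t => if t < K then q t else 0) (by
    intro t ht
    by_contra h
    simp at h
    simp [not_lt.mpr h] at ht), norm_le1 _ _ hr.le fun t => ?_⟩
  simp only [ZeroAtInftyContinuousMap.coe_sub, Pi.sub_apply, emb, mk1_apply,
    Finsupp.onFinset_apply]
  split_ifs with h
  · rw [abs_sub_comm]; exact (hq t).le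
  · have := hK t (not_lt.mp h)
    simpa using this.le

instance : TopologicalSpace.SeparableSpace E1 := by
  refine ⟨Set.range emb, Set.countable_range _, Metric.dense_iff.mpr fun v r hr => ?_⟩
  obtain ⟨f, hf⟩ := emb_dense v (r / 2) (half_pos hr)
  exact ⟨emb f, by rw [Metric.mem_ball, dist_eq_norm]; linarith, f, rfl⟩

instance : Nontrivial E1 := ⟨emb (Finsupp.single 0 1), 0, fun h => by
  have := congrArg (fun y : E1 => y 0) h
  simp [emb] at this⟩

lemma labels : ∃ lab : ℕ → ℕ, ∀ l, ∃ G, ∀ m, ∃ i, m ≤ i ∧ i < m + G ∧ lab i = l := by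
  refine ⟨fun i => padicValNat 2 (i + 1), fun l => ⟨2 ^ (l + 1) + 2 ^ l, fun m => ?_⟩⟩
  have hp : 0 < 2 ^ l := by positivity
  have h1 := Nat.div_add_mod m (2 ^ (l + 1))
  have h2 := Nat.mod_lt m (show 0 < 2 ^ (l + 1) by positivity)
  set c := m / 2 ^ (l + 1)
  have e : 2 ^ l * (2 * (c + 1) + 1) = 2 ^ (l + 1) * c + 2 ^ (l + 1) + 2 ^ l := by ring
  refine ⟨2 ^ l * (2 * (c + 1) + 1) - 1, by omega, by omega, ?_⟩
  have e2 : 2 ^ l * (2 * (c + 1) + 1) - 1 + 1 = 2 ^ l * (2 * (c + 1) + 1) := by omega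
  simp only [e2]
  rw [padicValNat.mul (by positivity) (by omega), padicValNat.prime_pow,
    padicValNat.eq_zero_of_not_dvd (by omega)]
  simp

lemma pattern : ∃ π : ℕ → ℝ, (∀ t, |π t| ≤ Nat.log 2 t) ∧
    ∀ (b : ℕ), b < 2 → ∀ y : E1, (∀ t, Nat.log 2 t % 2 = b → ((t : ℝ) + 1) * y t = π t) →
      ∀ U : Set E1, IsOpen U → U.Nonempty →
          ∃ δ : ℝ, 0 < δ ∧ ∀ᶠ N : ℕ in Filter.atTop,
            δ * (N : ℝ) ≤ (({n : ℕ | n < N ∧ (T ^ n) y ∈ U}.ncard : ℕ) : ℝ) := by
  classical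
  obtain ⟨lab, hlab⟩ := labels
  obtain ⟨σ, hσ⟩ := exists_surjective_nat ((ℕ →₀ ℚ) × ℕ)
  let Y : ℕ → ℕ → ℝ := fun l r => ((r : ℝ) + 1) * ((σ l).1 r : ℝ)
  have hdata : ∀ l, ∃ p J : ℕ, (∀ r, 2 ^ p ≤ r → (σ l).1 r = 0) ∧ (∀ r, |Y l r| ≤ J) ∧
      (∀ r, |Y l r| ≤ 1 / (((σ l).2 : ℝ) + 1) * 2 ^ p) := by
    intro l
    set f := (σ l).1
    let M : ℝ := ∑ r ∈ f.support, |Y l r|
    have hM : ∀ r, |Y l r| ≤ M := by
      intro r
      by_cases h : r ∈ f.support
      · exact Finset.single_le_sum (f := fun r => |Y l r|) (fun _ _ => abs_nonneg _) h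
      · have : f r = 0 := Finsupp.notMem_support_iff.mp h
        have h2 : Y l r = 0 := by simp only [Y]; rw [this]; simp
        rw [h2, abs_zero]
        exact Finset.sum_nonneg fun _ _ => abs_nonneg _
    obtain ⟨J, hJ⟩ := exists_nat_ge M
    refine ⟨f.support.sup id + J * ((σ l).2 + 1), J, fun r hr => ?_, fun r => (hM r).trans hJ,
      fun r => (hM r).trans (hJ.trans ?_)⟩
    · by_contra h
      have h1 : r ≤ f.support.sup id := Finset.le_sup (f := id) (Finsupp.mem_support_iff.mpr h)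
      have h2 := Nat.lt_two_pow_self (n := f.support.sup id + J * ((σ l).2 + 1))
      omega
    · have h2 := Nat.lt_two_pow_self (n := f.support.sup id + J * ((σ l).2 + 1))
      have h3 : J * ((σ l).2 + 1) ≤ 2 ^ (f.support.sup id + J * ((σ l).2 + 1)) := by omega
      have h4 : (J : ℝ) * (((σ l).2 : ℝ) + 1) ≤ 2 ^ (f.support.sup id + J * ((σ l).2 + 1)) := by
        exact_mod_cast h3
      rw [one_div, ← div_eq_inv_mul, le_div_iff₀ (by positivity)]
      exact h4
  choose p J hp hJ hε using hdata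
  refine ⟨fun t => if J (lab (Nat.log 2 t / 2)) ≤ Nat.log 2 t then
    Y (lab (Nat.log 2 t / 2)) (t % 2 ^ p (lab (Nat.log 2 t / 2))) else 0, fun t => ?_, ?_⟩
  · simp only
    split_ifs with h
    · exact (hJ _ _).trans (by exact_mod_cast h)
    · simp
  intro b hb y hy U hU ⟨v, hv⟩
  obtain ⟨r, hr, hrU⟩ := Metric.isOpen_iff.mp hU v hv
  obtain ⟨f, hf⟩ := emb_dense v (r / 2) (half_pos hr)
  obtain ⟨e, he⟩ := exists_nat_one_div_lt (show 0 < r / 8 by positivity)
  obtain ⟨l, hl⟩ := hσ (f, e)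
  obtain ⟨G, hG⟩ := hlab l
  set ε : ℝ := 1 / ((e : ℝ) + 1) with hεd
  have hε0 : 0 < ε := by positivity
  obtain ⟨t0, ht0⟩ := Metric.tendsto_atTop.mp (tend y) ε hε0
  have hσ1 : (σ l).1 = f := by rw [hl]
  have hσ2 : (σ l).2 = e := by rw [hl]
  have good : ∀ j i : ℕ, j % 2 = b → lab (j / 2) = l → J l ≤ j → t0 ≤ j → p l + 1 ≤ j →
      2 * (2 ^ p l * i) < 2 ^ j → (T ^ (2 ^ j + 2 ^ p l * i)) y ∈ U := by
    intro j i hj1 hj2 hj3 hj4 hj5 hi
    apply hrU
    rw [Metric.mem_ball, dist_eq_norm]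
    have key : ‖(T ^ (2 ^ j + 2 ^ p l * i)) y - emb f‖ ≤ 4 * ε := by
      refine norm_le1 _ _ (by positivity) fun k => ?_
      simp only [ZeroAtInftyContinuousMap.coe_sub, Pi.sub_apply, emb, mk1_apply, Tpow_apply]
      set n := 2 ^ j + 2 ^ p l * i with hn
      have hk1 : (0 : ℝ) < (k : ℝ) + 1 := by positivity
      have hdv : 2 ^ p l ∣ 2 ^ j := pow_dvd_pow 2 (by omega)
      have hpj : 2 * 2 ^ p l ≤ 2 ^ j := by
        rw [← pow_succ']; exact Nat.pow_le_pow_right (by norm_num) hj5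
      by_cases hc : n + k < 2 ^ (j + 1)
      · have hlog : Nat.log 2 (n + k) = j := Nat.log_eq_of_pow_le_of_lt_pow (by omega) hc
        have h1 := hy (n + k) (by rw [hlog, hj1])
        simp only [hlog, hj2, if_pos hj3] at h1
        have h2 : (n + k) % 2 ^ p l = k % 2 ^ p l := by
          have : 2 ^ p l ∣ n := dvd_add hdv (dvd_mul_right _ _)
          obtain ⟨c, hc⟩ := this
          rw [hc, Nat.mul_add_mod]
        rw [h2] at h1
        rw [div_mul_eq_mul_div, h1]
        by_cases hk : k < 2 ^ p l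
        · rw [Nat.mod_eq_of_lt hk]
          simp only [Y, hσ1]
          rw [mul_div_cancel_left₀ _ hk1.ne', sub_self, abs_zero]
          positivity
        · have h3 := hp l k (not_lt.mp hk)
          rw [hσ1] at h3
          rw [h3, Rat.cast_zero, sub_zero, abs_div, abs_of_pos hk1, div_le_iff₀ hk1]
          refine (hε l _).trans ?_
          rw [hσ2, ← hεd]
          have h4 : ((2 : ℝ)) ^ p l ≤ k := by exact_mod_cast not_lt.mp hk
          nlinarith
      · have h3 := hp l k (by rw [pow_succ] at hc; omega)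
        rw [hσ1] at h3
        have h4 : n + k + 1 ≤ 4 * (k + 1) := by rw [pow_succ] at hc; omega
        have h5 : (((n + k : ℕ) : ℝ) + 1) / ((k : ℝ) + 1) ≤ 4 := by
          rw [div_le_iff₀ hk1]; exact_mod_cast h4
        have h6 := ht0 (n + k) (by have := Nat.lt_two_pow_self (n := j); omega)
        rw [Real.dist_eq, sub_zero] at h6
        rw [h3, Rat.cast_zero, sub_zero, abs_mul, abs_of_nonneg (by positivity)]
        exact mul_le_mul h5 h6.le (abs_nonneg _) (by norm_num)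
    have := norm_add_le ((T ^ (2 ^ j + 2 ^ p l * i)) y - emb f) (emb f - v)
    rw [sub_add_sub_cancel] at this
    linarith
  refine ⟨1 / 2 ^ (2 * G + 5 + p l), by positivity, ?_⟩
  filter_upwards [eventually_ge_atTop (2 ^ (2 * G + 4 + J l + t0 + p l + 1))] with N hN
  have hN0 : N ≠ 0 := by
    have : 0 < 2 ^ (2 * G + 4 + J l + t0 + p l + 1) := by positivity
    omega
  have hL : 2 * G + 4 + J l + t0 + p l + 1 ≤ Nat.log 2 N := Nat.le_log_of_pow_le (by norm_num) hN
  have hL1 := Nat.pow_log_le_self 2 hN0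
  have hL2 := Nat.lt_pow_succ_log_self (b := 2) (by norm_num) N
  set L := Nat.log 2 N
  obtain ⟨i, hi1, hi2, hi3⟩ := hG (L / 2 - G - 1)
  obtain ⟨c, hc⟩ : ∃ c, 2 * i + b = p l + 1 + c := ⟨2 * i + b - (p l + 1), by omega⟩
  have hsub : (fun s => 2 ^ (2 * i + b) + 2 ^ p l * s) '' (Finset.range (2 ^ c) : Set ℕ) ⊆
      {n : ℕ | n < N ∧ (T ^ n) y ∈ U} := by
    rintro _ ⟨s, hs, rfl⟩
    have hs' : s < 2 ^ c := by simpa using hs
    have h1 : 2 * (2 ^ p l * s) < 2 ^ (2 * i + b) := by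
      rw [hc, pow_add, pow_succ]
      have : 2 ^ p l * s < 2 ^ p l * 2 ^ c := Nat.mul_lt_mul_of_pos_left hs' (by positivity)
      nlinarith
    refine ⟨?_, good _ _ (by omega) (by rw [← hi3]; congr 1; omega) (by omega) (by omega)
      (by omega) h1⟩
    have h2 : 2 ^ (2 * i + b + 1) ≤ 2 ^ L := Nat.pow_le_pow_right (by norm_num) (by omega)
    rw [pow_succ] at h2
    simp only
    omega
  have hfin : {n : ℕ | n < N ∧ (T ^ n) y ∈ U}.Finite :=
    (Set.finite_lt_nat N).subset fun n hn => hn.1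
  have h1 := Set.ncard_le_ncard hsub hfin
  rw [Set.ncard_image_of_injective _ (fun s s' h => by
    have : 0 < 2 ^ p l := by positivity
    simp only [add_right_inj] at h
    exact Nat.eq_of_mul_eq_mul_left this h), Set.ncard_coe_finset, Finset.card_range] at h1
  have h2 : N ≤ 2 ^ c * 2 ^ (2 * G + 5 + p l) := by
    rw [← pow_add]
    exact hL2.le.trans (Nat.pow_le_pow_right (by norm_num) (by omega))
  have h3 : (N : ℝ) ≤ 2 ^ c * 2 ^ (2 * G + 5 + p l) := by exact_mod_cast h2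
  have h4 : ((2 : ℝ)) ^ c ≤ (({n : ℕ | n < N ∧ (T ^ n) y ∈ U}.ncard : ℕ) : ℝ) := by
    exact_mod_cast h1
  rw [one_div, ← div_eq_inv_mul, div_le_iff₀ (by positivity)]
  exact h3.trans (mul_le_mul_of_nonneg_right h4 (by positivity))

lemma log_tend : Tendsto (fun t : ℕ => (Nat.log 2 t : ℝ) / ((t : ℝ) + 1)) atTop (𝓝 0) := by
  have h1 : Tendsto (fun j : ℕ => (j : ℝ) / 2 ^ j) atTop (𝓝 0) := by
    simpa using tendsto_pow_const_div_const_pow_of_one_lt 1 (show (1 : ℝ) < 2 by norm_num)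
  have h2 : Tendsto (fun t : ℕ => Nat.log 2 t) atTop atTop := by
    refine tendsto_atTop_atTop.mpr fun b => ⟨2 ^ b, fun a ha => ?_⟩
    exact Nat.le_log_of_pow_le (by norm_num) ha
  refine squeeze_zero' (Eventually.of_forall fun t => by positivity) ?_ (h1.comp h2)
  filter_upwards [eventually_ge_atTop 1] with t ht
  have h3 : ((2 : ℝ)) ^ Nat.log 2 t ≤ t := by exact_mod_cast Nat.pow_log_le_self 2 (by omega)
  exact div_le_div_of_nonneg_left (by positivity) (by positivity) (by linarith)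


/-- There is a bounded operator T on a nonzero separable real or complex Banach space such that every vector is a sum of two vectors whose orbits visit each nonempty open set with positive lower density. -/
theorem result :
    ∃ (𝕜 : Type) (_ : RCLike 𝕜) (X : Type) (_ : NormedAddCommGroup X)
      (_ : NormedSpace 𝕜 X) (_ : CompleteSpace X)
      (_ : TopologicalSpace.SeparableSpace X) (_ : Nontrivial X)
      (T : X →L[𝕜] X),
      ∀ x : X, ∃ y z : X, x = y + z ∧
        (∀ U : Set X, IsOpen U → U.Nonempty →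
          ∃ δ : ℝ, 0 < δ ∧ ∀ᶠ N : ℕ in Filter.atTop,
            δ * (N : ℝ) ≤ (({n : ℕ | n < N ∧ (T ^ n) y ∈ U}.ncard : ℕ) : ℝ)) ∧
        (∀ U : Set X, IsOpen U → U.Nonempty →
          ∃ δ : ℝ, 0 < δ ∧ ∀ᶠ N : ℕ in Filter.atTop,
            δ * (N : ℝ) ≤ (({n : ℕ | n < N ∧ (T ^ n) z ∈ U}.ncard : ℕ) : ℝ)) := by
  refine ⟨ℝ, inferInstance, E1, inferInstance, inferInstance, inferInstance, inferInstance,
    inferInstance, T, fun x => ?_⟩
  obtain ⟨π, hπ, h⟩ := pattern
  have hw : Tendsto (fun t : ℕ => π t / ((t : ℝ) + 1)) atTop (𝓝 0) := by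
    refine squeeze_zero_norm (fun t => ?_) log_tend
    rw [Real.norm_eq_abs, abs_div, abs_of_pos (show (0 : ℝ) < (t : ℝ) + 1 by positivity)]
    exact div_le_div_of_nonneg_right (hπ t) (by positivity)
  have hy : Tendsto (fun t : ℕ => if Nat.log 2 t % 2 = 0 then π t / ((t : ℝ) + 1)
      else x t - π t / ((t : ℝ) + 1)) atTop (𝓝 0) :=
    hw.if' (by simpa using (tend x).sub hw)
  refine ⟨mk1 _ hy, x - mk1 _ hy, by abel, h 0 (by norm_num) _ fun t ht => ?_,
    h 1 (by norm_num) _ fun t ht => ?_⟩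
  · have : (t : ℝ) + 1 ≠ 0 := by positivity
    simp only [mk1_apply, if_pos ht]
    field_simp
  · have : (t : ℝ) + 1 ≠ 0 := by positivity
    have h2 : ¬ Nat.log 2 t % 2 = 0 := by omega
    simp only [ZeroAtInftyContinuousMap.coe_sub, Pi.sub_apply, mk1_apply, if_neg h2]
    field_simp
    ring

end Pool.Agent.S05779
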