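import Pool.Statements.S05788
import Pool.Agent.H91.James

set_option autoImplicit false
open Pool Pool.MP_aca27d_an

namespace Pool.Agent.S05788

theorem result :
    ¬ (∀ (E F : Type) [NormedAddCommGroup E] [NormedSpace ℝ E] [CompleteSpace E]
      [NormedAddCommGroup F] [NormedSpace ℝ F] [CompleteSpace F],
      ((¬ ∃ (T : E →L[ℝ] F) (C : ℝ), ∀ x : E, ‖x‖ ≤ C * ‖T x‖) ∧
       (¬ ∃ (T : F →L[ℝ] E) (C : ℝ), ∀ y : F, ‖y‖ ≤ C * ‖T y‖)) →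
      ((¬ ∃ (T : (E × E) →L[ℝ] (F × F)) (C : ℝ), ∀ x : E × E, ‖x‖ ≤ C * ‖T x‖) ∧
       (¬ ∃ (T : (F × F) →L[ℝ] (E × E)) (C : ℝ), ∀ y : F × F, ‖y‖ ≤ C * ‖T y‖))) := by
  intro h
  exact (h (H91.James.G H91.James.uE) (H91.James.G H91.James.uF)
    ⟨H91.James.not_EF, H91.James.not_FE⟩).1 H91.James.embed

end Pool.Agent.S05788
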