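import Pool.Statements.S05789
import Pool.Agent.H26.Nq3

set_option autoImplicit false
open Pool Pool.MP_acb846_an

namespace Pool.Agent.S05789

/-- There is a bounded operator on ℓ²(ℚ) whose closed invariant subspaces are exactly 0, the whole space, and, for real t, the functions supported on rationals ≤ t or on rationals < t. -/
theorem result :
    ∃ T : lp (fun _ : ℚ => ℂ) 2 →L[ℂ] lp (fun _ : ℚ => ℂ) 2,
      ∀ M : Submodule ℂ (lp (fun _ : ℚ => ℂ) 2),
        (IsClosed (M : Set (lp (fun _ : ℚ => ℂ) 2)) ∧ ∀ x ∈ M, T x ∈ M) ↔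
          (M = ⊥ ∨ M = ⊤ ∨
            ∃ t : ℝ,
              (∀ f : lp (fun _ : ℚ => ℂ) 2, f ∈ M ↔ ∀ q : ℚ, t < (q : ℝ) → f q = 0) ∨
              (∀ f : lp (fun _ : ℚ => ℂ) 2, f ∈ M ↔ ∀ q : ℚ, t ≤ (q : ℝ) → f q = 0)) := by
  obtain ⟨T, hT⟩ := Pool.Agent.H26.Nq.main
  refine ⟨T, fun M => (hT M).trans ⟨?_, ?_⟩⟩
  · rintro ⟨L, hL, h⟩
    rcases Pool.Agent.H26.Nq.lower_cases L hL with rfl | rfl | ⟨t, ht | ht⟩
    · left
      refine (Submodule.eq_bot_iff M).2 fun f hf => lp.ext (funext fun r => ?_)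
      exact (h f).1 hf r (by simp)
    · right; left
      exact Submodule.eq_top_iff'.2 fun f => (h f).2 fun r hr => absurd (Set.mem_univ r) hr
    · right; right
      exact ⟨t, Or.inl fun f => by simp only [h, ht]⟩
    · right; right
      exact ⟨t, Or.inr fun f => by simp only [h, ht]⟩
  · rintro (rfl | rfl | ⟨t, h | h⟩)
    · refine ⟨∅, isLowerSet_empty, fun f => ⟨fun hf r _ => ?_, fun hf => ?_⟩⟩
      · rw [(Submodule.mem_bot ℂ).1 hf]; simp
      · exact (Submodule.mem_bot ℂ).2 (lp.ext (funext fun r => hf r (by simp)))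
    · exact ⟨Set.univ, isLowerSet_univ, fun f => by simp⟩
    · refine ⟨{q : ℚ | (q : ℝ) ≤ t}, fun a b hab ha => ?_, fun f => by simp [h]⟩
      exact le_trans (show (b : ℝ) ≤ a by exact_mod_cast hab) ha
    · refine ⟨{q : ℚ | (q : ℝ) < t}, fun a b hab ha => ?_, fun f => by simp [h]⟩
      exact lt_of_le_of_lt (show (b : ℝ) ≤ a by exact_mod_cast hab) ha

end Pool.Agent.S05789
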