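import Pool.Statements.S05794
import Pool.Agent.H53.FkE

set_option autoImplicit false
open Pool Pool.MP_ad3787_an

namespace Pool.Agent.S05794

abbrev Idx (N : ℕ) := {α : Fin 1 → ℕ // α ∈ Finset.filter (fun α : Fin 1 → ℕ => ∑ i, α i ≤ N)
  (Fintype.piFinset fun _ : Fin 1 => Finset.range (N + 1))}

def eqv (N : ℕ) : Idx N ≃ Fin (N + 1) where
  toFun a := ⟨a.1 0, by
    have := (Finset.mem_filter.1 a.2).2
    simp only [Fin.sum_univ_one] at this
    exact Nat.lt_succ_of_le this⟩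
  invFun i := ⟨fun _ => i, by
    simp only [Finset.mem_filter, Fintype.mem_piFinset, Finset.mem_range, Fin.sum_univ_one]
    exact ⟨fun _ => i.2, Nat.le_of_lt_succ i.2⟩⟩
  left_inv a := by
    apply Subtype.ext
    funext i
    rw [Subsingleton.elim i 0]
  right_inv i := rfl

theorem det_eq (N : ℕ) (y : Idx N → Fin 1 → ℂ) :
    (Matrix.of (fun a b : Idx N => ∏ i, y a i ^ (b.1 i))).det =
      (Matrix.vandermonde (fun j => y ((eqv N).symm j) 0)).det := by
  rw [← Matrix.det_submatrix_equiv_self (eqv N).symm]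
  congr 1
  ext i j
  simp [Matrix.vandermonde_apply, eqv]

noncomputable def phi (p : MvPolynomial (Fin 1) ℂ) : Polynomial ℂ :=
  MvPolynomial.aeval (fun _ => Polynomial.X) p

noncomputable def psi (f : Polynomial ℂ) : MvPolynomial (Fin 1) ℂ :=
  Polynomial.aeval (MvPolynomial.X 0) f

theorem phi_eval (p : MvPolynomial (Fin 1) ℂ) (x : Fin 1 → ℂ) :
    (phi p).eval (x 0) = MvPolynomial.eval x p := by
  unfold phi
  induction p using MvPolynomial.induction_on with
  | C a => simp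
  | add p q hp hq => simp [hp, hq]
  | mul_X p i hp => simp [hp, Subsingleton.elim i 0]

theorem phi_deg (p : MvPolynomial (Fin 1) ℂ) : (phi p).natDegree ≤ p.totalDegree := by
  have := MvPolynomial.aeval_natDegree_le p le_rfl (fun _ => Polynomial.X) (n := 1) (by simp)
  simpa [phi] using this

theorem phi_psi (f : Polynomial ℂ) : phi (psi f) = f := by
  unfold phi psi
  rw [← Polynomial.aeval_algHom_apply]
  simp

theorem psi_eval (f : Polynomial ℂ) (x : Fin 1 → ℂ) :
    MvPolynomial.eval x (psi f) = f.eval (x 0) := by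
  rw [← phi_eval, phi_psi]

theorem psi_deg (f : Polynomial ℂ) : (psi f).totalDegree = f.natDegree := by
  apply le_antisymm
  · unfold psi
    rw [Polynomial.aeval_eq_sum_range]
    refine MvPolynomial.totalDegree_finsetSum_le fun i hi => ?_
    refine (MvPolynomial.totalDegree_smul_le _ _).trans ?_
    rw [MvPolynomial.totalDegree_X_pow]
    exact Nat.le_of_lt_succ (Finset.mem_range.1 hi)
  · conv_lhs => rw [← phi_psi f]
    exact phi_deg _

/-- The negation of the preceding statement: For every compact L-regular K in C^d there is c>1 such that any Fekete arrays of order ceil(cn) form an admissible mesh: for some C, every polynomial of degree at most n bounded by 1 on the order-ceil(cn) array is bounded by C on K. -/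
theorem result :
    ¬ (∀ (d : ℕ) (K : Set (Fin d → ℂ)), IsCompact K →
      (∃ Φ : (Fin d → ℂ) → ℝ, Continuous Φ ∧ ∀ z : Fin d → ℂ,
        IsLUB {t : ℝ | t = 1 ∨ ∃ p : MvPolynomial (Fin d) ℂ, 1 ≤ p.totalDegree ∧
          (∀ x ∈ K, ‖MvPolynomial.eval x p‖ ≤ 1) ∧
          t = ‖MvPolynomial.eval z p‖ ^ ((1 : ℝ) / (p.totalDegree : ℝ))} (Φ z)) →
      ∃ c : ℝ, 1 < c ∧
        ∀ F : (N : ℕ) → {α : Fin d → ℕ // α ∈ Finset.filter (fun α : Fin d → ℕ => ∑ i, α i ≤ N)
              (Fintype.piFinset fun _ : Fin d => Finset.range (N + 1))} → (Fin d → ℂ),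
          (∀ N : ℕ, (∀ a, F N a ∈ K) ∧
            ∀ y : {α : Fin d → ℕ // α ∈ Finset.filter (fun α : Fin d → ℕ => ∑ i, α i ≤ N)
              (Fintype.piFinset fun _ : Fin d => Finset.range (N + 1))} → (Fin d → ℂ),
              (∀ a, y a ∈ K) →
              ‖(Matrix.of (fun a b : {α : Fin d → ℕ // α ∈ Finset.filter (fun α : Fin d → ℕ => ∑ i, α i ≤ N)
                  (Fintype.piFinset fun _ : Fin d => Finset.range (N + 1))} =>
                  ∏ i, y a i ^ (b.1 i))).det‖ ≤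
              ‖(Matrix.of (fun a b : {α : Fin d → ℕ // α ∈ Finset.filter (fun α : Fin d → ℕ => ∑ i, α i ≤ N)
                  (Fintype.piFinset fun _ : Fin d => Finset.range (N + 1))} =>
                  ∏ i, F N a i ^ (b.1 i))).det‖) →
          ∃ C : ℝ, ∀ n : ℕ, ∀ p : MvPolynomial (Fin d) ℂ, p.totalDegree ≤ n →
            (∀ a, ‖MvPolynomial.eval (F ⌈c * (n : ℝ)⌉₊ a) p‖ ≤ 1) →
            ∀ z ∈ K, ‖MvPolynomial.eval z p‖ ≤ C) := by
  open Pool.Agent.H53.Fk in
  intro hall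
  obtain ⟨K, Φ, hK, hne, hΦ, h1, h2, h3, h4⟩ := main
  have hK1 : IsCompact {x : Fin 1 → ℂ | x 0 ∈ K} := by
    have : {x : Fin 1 → ℂ | x 0 ∈ K} = (fun z : ℂ => fun _ : Fin 1 => z) '' K := by
      ext x
      constructor
      · intro hx
        exact ⟨x 0, hx, funext fun i => by rw [Subsingleton.elim i 0]⟩
      · rintro ⟨z, hz, rfl⟩
        exact hz
    rw [this]
    exact hK.image (by fun_prop)
  obtain ⟨c, hc, hF⟩ := hall 1 _ hK1 ⟨fun x => Φ (x 0), by fun_prop, fun z => ⟨by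
    rintro t (rfl | ⟨p, hp1, hp2, rfl⟩)
    · exact h1 _
    · rw [← phi_eval]
      exact h2 (phi p) _ hp1 (phi_deg p) (fun x hx => by
        have := hp2 (fun _ => x) hx
        rwa [← phi_eval] at this) _, by
    intro u hu
    refine h3 _ u (hu (Or.inl rfl)) fun p hp hpK => hu (Or.inr ⟨psi p, by rwa [psi_deg],
      fun x hx => by rw [psi_eval]; exact hpK _ hx, by rw [psi_eval, psi_deg]⟩)⟩⟩
  choose v hv using fun m => exists_fek hK hne m
  obtain ⟨C, hC⟩ := hF (fun N a _ => v N (eqv N a)) (fun N => ⟨fun a => (hv N).1 _, fun y hy => by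
    rw [det_eq, det_eq]
    simp only [Equiv.apply_symm_apply]
    exact (hv N).2 _ (fun j => hy _)⟩)
  obtain ⟨k, hk⟩ := exists_nat_gt (2 * c + |C|)
  have hk2 : (2 : ℝ) < k := by linarith [abs_nonneg C]
  have hk1 : 1 ≤ k := by exact_mod_cast (by linarith : (1 : ℝ) ≤ k)
  obtain ⟨n0, hn0, hg⟩ := h4 k hk1
  have hn0' : (1 : ℝ) ≤ n0 := by exact_mod_cast hn0
  have hc0 : 0 < c := by linarith
  set n := ⌊((k : ℝ) * n0 - 1) / c⌋₊ with hn
  have hpos : 0 ≤ ((k : ℝ) * n0 - 1) / c := div_nonneg (by nlinarith) hc0.le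
  have e1 : c * n ≤ k * n0 - 1 := by
    have := Nat.floor_le hpos
    rw [← hn, le_div_iff₀ hc0] at this
    linarith
  have e2 : (k : ℝ) * n0 - 1 < c * (n + 1) := by
    have := Nat.lt_floor_add_one (((k : ℝ) * n0 - 1) / c)
    rw [← hn, div_lt_iff₀ hc0] at this
    linarith
  have e3 : n0 ≤ n := by
    apply Nat.le_floor
    rw [le_div_iff₀ hc0]
    nlinarith [abs_nonneg C]
  have e4 : ⌈c * (n : ℝ)⌉₊ + 1 ≤ k * n0 := by
    have h5 : 1 ≤ k * n0 := Nat.mul_pos hk1 hn0
    have : ⌈c * (n : ℝ)⌉₊ ≤ k * n0 - 1 := by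
      apply Nat.ceil_le.2
      rw [Nat.cast_sub h5]; push_cast; exact e1
    omega
  have e5 : k * n0 ≤ ⌈c * (n : ℝ)⌉₊ + k := by
    have := Nat.le_ceil (c * (n : ℝ))
    have h6 : ((k * n0 : ℕ) : ℝ) ≤ ((⌈c * (n : ℝ)⌉₊ + k : ℕ) : ℝ) := by
      push_cast; linarith [abs_nonneg C]
    exact_mod_cast h6
  obtain ⟨P, hP1, hP2, z, hz, hP3⟩ := hg _ e4 e5 _ (hv _)
  have := hC n (psi P) (by rw [psi_deg]; omega) (fun a => by rw [psi_eval]; exact hP2 _)
    (fun _ => z) hz
  rw [psi_eval] at this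
  linarith [le_abs_self C]

end Pool.Agent.S05794
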