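import Pool.Statements.S05804
import Pool.Agent.H98.Tree3

set_option autoImplicit false
open Pool Pool.MP_ae3328_an

namespace Pool.Agent.S05804

/-- The negation of the preceding statement: For every separable real Banach space X whose norm, restricted to each nonzero closed subspace, is Fréchet differentiable at some point of that subspace, the dual space X* is separable. -/
theorem result :
    ¬ (∀ (X : Type) [NormedAddCommGroup X] [NormedSpace ℝ X] [CompleteSpace X]
      [TopologicalSpace.SeparableSpace X],
      (∀ Y : Submodule ℝ X, IsClosed (Y : Set X) → Y ≠ ⊥ →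
        ∃ y : Y, DifferentiableAt ℝ (fun z : Y => ‖z‖) y) →
      TopologicalSpace.SeparableSpace (X →L[ℝ] ℝ)) := by
  intro h
  exact Pool.Agent.H98.Tree.not_sep (h Pool.Agent.H98.Tree.XT fun Y hc _ =>
    Pool.Agent.H98.Tree.somewhere' Y hc)

end Pool.Agent.S05804
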