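import Pool.Statements.S05816
import Pool.Agent.H62.Cogen

set_option autoImplicit false
open Filter Topology
open Pool Pool.MP_ae9c87_an

namespace Pool.Agent.S05816

/-- The negation of the preceding statement: For every contractive strongly continuous semigroup T on a complex Hilbert space with cogenerator V = I − 2∫₀^∞ e^{−t}T(t)dt, T(t)x → 0 weakly for all x iff Vⁿx → 0 weakly for all x. -/
theorem result :
    ¬ (∀ (H : Type) [NormedAddCommGroup H] [InnerProductSpace ℂ H] [CompleteSpace H]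
      (T : ℝ → H →L[ℂ] H),
      T 0 = 1 →
      (∀ s t : ℝ, 0 ≤ s → 0 ≤ t → T (s + t) = T s * T t) →
      (∀ x : H, ContinuousOn (fun t : ℝ => T t x) (Set.Ici 0)) →
      (∀ t : ℝ, 0 ≤ t → ‖T t‖ ≤ 1) →
      ((∀ x y : H, Tendsto (fun t : ℝ => inner ℂ (T t x) y) atTop (𝓝 0)) ↔
        (∀ x y : H, Tendsto (fun n : ℕ =>
            inner ℂ ((fun z : H => z - (2 : ℂ) •
              ∫ t in Set.Ioi (0 : ℝ), ((Real.exp (-t) : ℝ) : ℂ) • T t z)^[n] x) y)
            atTop (𝓝 0)))) := by
  intro H
  obtain ⟨μ, h1, h2⟩ := H62.Riesz.exists_measure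
  have key := (H (MeasureTheory.Lp ℂ 2 (μ : MeasureTheory.Measure (Set.Icc (1 : ℝ) 2)))
    (fun t => H62.Cogen.M μ (H62.Cogen.E t)) ?_ (fun s t _ _ => ?_)
    (fun x => Continuous.continuousOn (by fun_prop))
    (fun t _ => H62.Cogen.M_norm _ _ fun x => (H62.Cogen.norm_E t x).le)).mpr (fun x y => ?_)
    (H62.Cogen.L μ 1) (H62.Cogen.L μ 1)
  · have h3 : Tendsto (fun k : ℕ => 2 * Real.pi * 64 ^ k) atTop atTop :=
      (tendsto_pow_atTop_atTop_of_one_lt (by norm_num)).const_mul_atTop (by positivity)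
    have h4 := key.comp h3
    have h5 : ∀ k : ℕ, inner ℂ (H62.Cogen.M μ (H62.Cogen.E (2 * Real.pi * 64 ^ k))
        (H62.Cogen.L μ 1)) (H62.Cogen.L μ 1) = (1 / 2 : ℂ) := fun k => by
      have := congrArg (starRingEnd ℂ) (h1 k)
      rw [← integral_conj] at this
      rw [H62.Cogen.M_L, H62.Cogen.inner_L]
      refine Eq.trans ?_ (this.trans (by rw [map_div₀, map_one, Complex.conj_ofNat]))
      congr 1
      ext x
      simp only [mul_one, ContinuousMap.one_apply, one_mul, H62.Cogen.E_apply, H62.Riesz.e]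
      congr 2
      push_cast
      ring
    simp only [Function.comp_def, h5] at h4
    simpa using tendsto_nhds_unique h4 tendsto_const_nhds
  · rw [← H62.Cogen.M_one]
    congr 1
    ext x
    simp [H62.Cogen.E_apply]
  · rw [← H62.Cogen.M_mul]
    congr 1
    ext x
    simp [H62.Cogen.E_apply, mul_add, Complex.exp_add]
  · have hc := funext (H62.Cogen.cogen (H62.Cogen.M μ) (H62.Cogen.M_one _))
    rw [hc]
    refine (H62.Cogen.weak μ h2 x y).congr fun n => ?_
    congr 1
    induction n with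
    | zero => simp [H62.Cogen.M_one]
    | succ n ih => rw [Function.iterate_succ_apply', ← ih, pow_succ', H62.Cogen.M_mul]; rfl

end Pool.Agent.S05816
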