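import Pool.Statements.S05845
import Pool.Agent.H90.BoxOsc

set_option autoImplicit false
open Pool Pool.MP_b07b06_an

namespace Pool.Agent.S05845

open Pool.Agent.H90.BoxOsc

lemma count_eq (e : ℝ ≃ₗᵢ[ℝ] EuclideanSpace ℝ (Fin 1)) (K : Set ℝ) (δ : ℝ) :
    {m : ℕ | ∃ s : Finset (EuclideanSpace ℝ (Fin 1)),
      s.card = m ∧ e '' K ⊆ ⋃ x ∈ s, Metric.closedBall x δ} =
    {m : ℕ | ∃ s : Finset ℝ, s.card = m ∧ K ⊆ ⋃ x ∈ s, Metric.closedBall x δ} := by
  ext m
  constructor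
  · rintro ⟨s, hs, h⟩
    refine ⟨s.map e.symm.toEquiv.toEmbedding, by simpa using hs, fun x hx => ?_⟩
    have := h ⟨x, hx, rfl⟩
    simp only [Set.mem_iUnion] at this ⊢
    obtain ⟨y, hy, h2⟩ := this
    refine ⟨e.symm y, Finset.mem_map_of_mem _ hy, ?_⟩
    rw [Metric.mem_closedBall, ← e.dist_map, e.apply_symm_apply]
    exact h2
  · rintro ⟨s, hs, h⟩
    refine ⟨s.map e.toEquiv.toEmbedding, by simpa using hs, ?_⟩
    rintro _ ⟨x, hx, rfl⟩
    have := h hx
    simp only [Set.mem_iUnion] at this ⊢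
    obtain ⟨y, hy, h2⟩ := this
    refine ⟨e y, Finset.mem_map_of_mem _ hy, ?_⟩
    rw [Metric.mem_closedBall, e.dist_map]
    exact h2

/-- Differentiable contractions whose attractor has no box dimension. -/
theorem result :
    ∃ (d n : ℕ) (f : Fin n → EuclideanSpace ℝ (Fin d) → EuclideanSpace ℝ (Fin d))
      (K : Set (EuclideanSpace ℝ (Fin d))),
      (∀ i, Differentiable ℝ (f i)) ∧
      (∀ i, ∃ c : NNReal, ContractingWith c (f i)) ∧
      K.Nonempty ∧ IsCompact K ∧ K = ⋃ i, f i '' K ∧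
      ¬ ∃ L : ℝ, Filter.Tendsto
        (fun δ : ℝ =>
          Real.log ((sInf {m : ℕ | ∃ s : Finset (EuclideanSpace ℝ (Fin d)),
              s.card = m ∧ K ⊆ ⋃ x ∈ s, Metric.closedBall x δ} : ℕ) : ℝ)
            / (-Real.log δ))
        (nhdsWithin 0 (Set.Ioi 0)) (nhds L) := by
  obtain ⟨a, f, hd, hl, hK⟩ := ifs
  let e : ℝ ≃ₗᵢ[ℝ] EuclideanSpace ℝ (Fin 1) := (OrthonormalBasis.singleton (Fin 1) ℝ).repr
  refine ⟨1, 3, fun i => e ∘ f i ∘ e.symm, e '' KK a, fun i => ?_, fun i => ⟨3 / 4, ?_, ?_⟩,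
    ⟨e 0, 0, Or.inl rfl, rfl⟩, (KK_compact a).image e.continuous, ?_, ?_⟩
  · exact e.differentiable.comp ((hd i).comp e.symm.differentiable)
  · rw [← NNReal.coe_lt_coe]; norm_num
  · have := e.lipschitz.comp ((hl i).comp e.symm.lipschitz)
    simpa using this
  · conv_lhs => rw [hK]
    rw [Set.image_iUnion]
    congr 1
    funext i
    rw [← Set.image_comp, ← Set.image_comp]
    congr 1
    funext x
    simp
  · simp only [count_eq]
    exact no_limit a

end Pool.Agent.S05845
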