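import Pool.Statements.S05847
import Pool.Agent.H87.SymKott

set_option autoImplicit false
open Pool Pool.MP_b0b663_an

namespace Pool.Agent.S05847

theorem result :
    ∃ c : ℝ, 1 < c ∧
      ∀ (X : Type) [NormedAddCommGroup X] [NormedSpace ℝ X] [CompleteSpace X],
        ¬ Function.Surjective (NormedSpace.inclusionInDoubleDual ℝ X) →
        ∀ d : ℝ, d < c →
          ∃ x : ℕ → X, (∀ n, ‖x n‖ ≤ 1) ∧
            ∀ n m : ℕ, n ≠ m → d ≤ ‖x n + x m‖ ∧ d ≤ ‖x n - x m‖ := by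
  refine ⟨11 / 10, by norm_num, fun X _ _ _ h d hd => ?_⟩
  obtain ⟨x, f, h1, h2, h3⟩ := Pool.Agent.H87.JamesSharp.james h (K := 4 / 3) (by norm_num)
  obtain ⟨y, h4, h5⟩ := Pool.Agent.H87.SymKott.main (D := 11 / 10) (by norm_num) (by norm_num)
    x f h1 h2 h3
  exact ⟨y, h4, fun n m h => ⟨hd.le.trans (h5 n m h).1, hd.le.trans (h5 n m h).2⟩⟩

end Pool.Agent.S05847
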