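import Pool.Statements.S05873
import Pool.Agent.H94.PureState

set_option autoImplicit false
open Pool Pool.MP_b405c8_an

namespace Pool.Agent.S05873

open Pool.Agent.H94.PureState
open scoped ComplexStarModule

section
variable {A : Type} [CStarAlgebra A] [PartialOrder A] [StarOrderedRing A]

/-- The cone of elements with positive real part. -/
def P (A : Type) [CStarAlgebra A] [PartialOrder A] : Set A := {x | 0 ≤ (ℜ x : A)}

omit [StarOrderedRing A] in
lemma memP {x : A} (hx : IsSelfAdjoint x) : x ∈ P A ↔ 0 ≤ x := by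
  rw [P, Set.mem_setOf_eq, hx.coe_realPart]

lemma memP' {x : A} (hx : 0 ≤ x) : x ∈ P A := (memP (.of_nonneg hx)).2 hx

lemma sa (t : ℝ) : IsSelfAdjoint (t • (1 : A)) := (IsSelfAdjoint.all t).smul (.one A)

lemma cone [Nontrivial A] : Cone (P A) 1 where
  add x hx y hy := by
    simp only [P, Set.mem_setOf_eq, map_add, AddSubgroup.coe_add] at *
    exact add_nonneg hx hy
  smul c hc x hx := by
    simp only [P, Set.mem_setOf_eq, map_smul, selfAdjoint.val_smul] at *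
    exact smul_nonneg hc hx
  unit x := ⟨‖(ℜ x : A)‖, by
    simp only [P, Set.mem_setOf_eq, map_sub, AddSubgroup.coe_sub, (sa _).coe_realPart, sub_nonneg]
    rw [← Algebra.algebraMap_eq_smul_one]
    exact (ℜ x).2.le_algebraMap_norm_self⟩
  mem := memP' zero_le_one
  proper h := by
    rw [memP (IsSelfAdjoint.one A).neg, neg_nonneg] at h
    exact one_ne_zero (le_antisymm h zero_le_one)

lemma up {a c : A} (ha : 0 ≤ a ∧ IsUnit a) (h : a ≤ c) : 0 ≤ c ∧ IsUnit c :=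
  ⟨ha.1.trans h, CStarAlgebra.isUnit_of_le a h ⟨ha.1, ha.2⟩⟩

lemma scal {t : ℝ} (ht : 0 < t) : 0 ≤ t • (1 : A) ∧ IsUnit (t • (1 : A)) :=
  ⟨smul_nonneg ht.le zero_le_one, by
    rw [← Algebra.algebraMap_eq_smul_one]
    exact (IsUnit.mk0 t ht.ne').map _⟩

variable [Nontrivial A] {ω : A →ₗ[ℝ] ℝ}

omit [Nontrivial A] in
lemma mono (h : ∀ x ∈ P A, 0 ≤ ω x) {a b : A} (hab : a ≤ b) : ω a ≤ ω b := by
  have := h _ (memP' (sub_nonneg.2 hab))
  rwa [map_sub, sub_nonneg] at this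

omit [Nontrivial A] [StarOrderedRing A] in
lemma re_eq (h : ∀ x ∈ P A, 0 ≤ ω x) (x : A) : ω (ℜ x : A) = ω x := by
  have h1 := h (x - (ℜ x : A)) (by simp [P, (ℜ x).2.coe_realPart])
  have h2 := h ((ℜ x : A) - x) (by simp [P, (ℜ x).2.coe_realPart])
  rw [map_sub] at h1 h2
  linarith

lemma dir (h : Pure (P A) 1 ω) {a b : A} (ha : IsSelfAdjoint a) (hb : IsSelfAdjoint b) {β r : ℝ}
    (h1 : ω a ≤ β) (h2 : ω b ≤ β) (hr : β < r) : ∃ c, a ≤ c ∧ b ≤ c ∧ ω c < r := by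
  obtain ⟨c, c1, c2⟩ := h.directed cone ![a, b] β (fun i => by
    fin_cases i
    exacts [h1, h2]) (r - β) (by linarith)
  have b1 := c1 0
  have b2 := c1 1
  simp only [P, Set.mem_setOf_eq, map_sub, AddSubgroup.coe_sub, Matrix.cons_val_zero,
    Matrix.cons_val_one, ha.coe_realPart, hb.coe_realPart, sub_nonneg] at b1 b2
  exact ⟨ℜ c, b1, b2, by rw [re_eq h.pos]; linarith⟩

lemma pos (h : Pure (P A) 1 ω) {a : A} (ha : 0 ≤ a ∧ IsUnit a) : 0 < ω a := by
  obtain ⟨r, r0, r1⟩ := (CFC.exists_pos_algebraMap_le_iff (.of_nonneg ha.1)).2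
    fun x hx => IsStrictlyPositive.spectrum_pos (a := a) ⟨ha.1, ha.2⟩ hx
  have := mono h.pos r1
  rw [Algebra.algebraMap_eq_smul_one, map_smul, h.one, smul_eq_mul, mul_one] at this
  linarith

lemma ideal (h : Pure (P A) 1 ω) {J : Set A} {r : ℝ} (hr : 0 < r) {b : A} (hb : IsSelfAdjoint b)
    (hJ : ∀ c ∈ J, IsSelfAdjoint c) (h1 : ∀ d, 0 ≤ d ∧ IsUnit d → ω d < r → ∃ c ∈ J, d ≤ c)
    (h2 : ∀ c ∈ J, ∀ d ∈ J, ∃ x ∈ J, c ≤ x ∧ d ≤ x) (h3 : ∀ c ∈ J, ¬ b ≤ c) :
    ∀ c ∈ J, ω c ≤ ω b := by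
  have hh : 0 < r / 2 := half_pos hr
  obtain ⟨c0, hc0, hc0'⟩ := h1 _ (scal hh) (by simp [h.one, hr])
  have C : Cone {x | ∃ l : ℝ, 0 ≤ l ∧ ∃ c ∈ J, x - l • (b - c) ∈ P A} 1 :=
    ⟨by
      rintro x ⟨l, l0, c, hc, hx⟩ y ⟨m, m0, d, hd, hy⟩
      obtain ⟨z, hz, z1, z2⟩ := h2 c hc d hd
      refine ⟨l + m, add_nonneg l0 m0, z, hz, ?_⟩
      convert cone.add _ (cone.add _ hx _ hy) _ (memP' (add_nonneg
        (smul_nonneg l0 (sub_nonneg.2 z1)) (smul_nonneg m0 (sub_nonneg.2 z2)))) using 1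
      module,
    by
      rintro m m0 x ⟨l, l0, c, hc, hx⟩
      refine ⟨m * l, mul_nonneg m0 l0, c, hc, ?_⟩
      convert cone.smul m m0 _ hx using 1
      module,
    fun x => (cone.unit x).imp fun t ht => ⟨0, le_rfl, c0, hc0, by simpa using ht⟩,
    ⟨0, le_rfl, c0, hc0, by simpa using cone.mem⟩,
    by
      rintro ⟨l, l0, c, hc, hx⟩
      rcases l0.eq_or_lt with l1 | l1
      · exact cone.proper (by simpa [← l1] using hx)
      · refine h3 c hc ?_
        have := cone.smul l⁻¹ (inv_pos.2 l1).le _ (cone.add _ hx _ cone.mem)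
        rw [show -1 - l • (b - c) + 1 = l • (c - b) by module, smul_smul, inv_mul_cancel₀ l1.ne',
          one_smul, memP ((hJ c hc).sub hb), sub_nonneg] at this
        exact this⟩
  obtain ⟨φ, hφ, -⟩ := C.exists_pure 0
  have p1 : ∀ x ∈ P A, 0 ≤ φ x := fun x hx => hφ.pos x ⟨0, le_rfl, c0, hc0, by simpa using hx⟩
  have p2 : ∀ c ∈ J, φ c ≤ φ b := fun c hc => by
    have := hφ.pos (b - c) ⟨1, zero_le_one, c, hc, by simpa using memP' (le_refl (0 : A))⟩
    rwa [map_sub, sub_nonneg] at this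
  have p3 : ∀ d, 0 ≤ d ∧ IsUnit d → ω d < r → φ d ≤ φ b := fun d d1 d2 => by
    obtain ⟨c, c1, c2⟩ := h1 d d1 d2
    exact (mono p1 c2).trans (p2 c c1)
  have β0 : 0 < φ b := by
    have := (mono p1 hc0').trans (p2 c0 hc0)
    rw [map_smul, hφ.one, smul_eq_mul] at this
    linarith
  have p4 : ∀ x ∈ P A, r * φ x ≤ φ b * ω x := fun x hx => by
    refine le_of_forall_pos_le_add fun ε hε => ?_
    set δ := ε / (2 * φ b) with hδ
    have δ0 : 0 < δ := by positivity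
    have w0 := h.pos x hx
    have l0 : 0 < r / (ω x + 2 * δ) := by positivity
    have := p3 ((r / (ω x + 2 * δ)) • ((ℜ x : A) + δ • 1)) (up (scal (mul_pos l0 δ0)) (by
      rw [smul_add, smul_smul]
      exact le_add_of_nonneg_left (smul_nonneg l0.le hx))) (by
      rw [map_smul, map_add, map_smul, h.one, re_eq h.pos, smul_eq_mul, smul_eq_mul, div_mul_eq_mul_div,
        div_lt_iff₀ (by positivity)]
      nlinarith)
    rw [map_smul, map_add, map_smul, hφ.one, re_eq p1, smul_eq_mul, smul_eq_mul, div_mul_eq_mul_div,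
      div_le_iff₀ (by positivity)] at this
    have e : φ b * (2 * δ) = ε := by
      rw [hδ]
      field_simp
    nlinarith
  have p5 := h.pure ((r / φ b) • φ) (fun x hx => mul_nonneg (div_pos hr β0).le (p1 x hx))
    fun x hx => by
      rw [LinearMap.smul_apply, smul_eq_mul, div_mul_eq_mul_div, div_le_iff₀ β0]
      linarith [p4 x hx]
  have p6 : ∀ x, φ x = ω x := fun x => by
    have := p5 x
    simp only [LinearMap.smul_apply, smul_eq_mul, hφ.one, mul_one] at this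
    exact mul_left_cancel₀ (div_pos hr β0).ne' this
  intro c hc
  rw [← p6, ← p6]
  exact p2 c hc

variable {G : Type} [CommGroup G] {v : G → A}

lemma star1 (h : Pure (P A) 1 ω) (hv : ∀ g, 0 ≤ v g ∧ IsUnit (v g))
    (hs : ∀ a, 0 ≤ a ∧ IsUnit a → ∃ g, v g = a) (hm : ∀ a b c, v a ≤ v b → v (a * c) ≤ v (b * c))
    (g a b : G) {r : ℝ} (hr : 0 < r) (hg : ∀ d, ω (v d) < r → ∃ x, ω (v x) < ω (v b) ∧ v d ≤ v (x * g))
    (hab : ω (v a) < ω (v b)) : ω (v (a * g)) ≤ ω (v (b * g)) := by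
  refine ideal h (J := {c | ∃ x, ω (v x) < ω (v b) ∧ c = v (x * g)}) hr (.of_nonneg (hv _).1)
    ?_ ?_ ?_ ?_ _ ⟨a, hab, rfl⟩
  · rintro _ ⟨x, -, rfl⟩
    exact .of_nonneg (hv _).1
  · intro d d1 d2
    obtain ⟨d, rfl⟩ := hs d d1
    obtain ⟨x, x1, x2⟩ := hg d d2
    exact ⟨_, ⟨x, x1, rfl⟩, x2⟩
  · rintro _ ⟨x, hx, rfl⟩ _ ⟨y, hy, rfl⟩
    obtain ⟨c, c1, c2, c3⟩ := dir h (.of_nonneg (hv x).1) (.of_nonneg (hv y).1) (le_max_left _ _)
      (le_max_right _ _) (max_lt hx hy)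
    obtain ⟨c, rfl⟩ := hs c (up (hv x) c1)
    exact ⟨_, ⟨c, c3, rfl⟩, hm _ _ _ c1, hm _ _ _ c2⟩
  · rintro _ ⟨x, hx, rfl⟩ hle
    have := mono h.pos (hm _ _ g⁻¹ hle)
    simp only [mul_inv_cancel_right] at this
    linarith

lemma star2 (h : Pure (P A) 1 ω) (hv : ∀ g, 0 ≤ v g ∧ IsUnit (v g))
    (hs : ∀ a, 0 ≤ a ∧ IsUnit a → ∃ g, v g = a) (hm : ∀ a b c, v a ≤ v b → v (a * c) ≤ v (b * c))
    (g a b : G) (hab : ω (v a) < ω (v b)) : ω (v (a * g)) ≤ ω (v (b * g)) := by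
  obtain ⟨k, hk⟩ := hs (v 1 + v g⁻¹) (up (hv 1) (le_add_of_nonneg_right (hv _).1))
  have k1 : v 1 ≤ v k := hk ▸ le_add_of_nonneg_right (hv _).1
  have k2 : v g⁻¹ ≤ v k := hk ▸ le_add_of_nonneg_left (hv _).1
  refine star1 h hv hs hm g a b (pos h (hv (a * k⁻¹))) (fun d hd => ⟨d * k, ?_, ?_⟩) hab
  · have := star1 h hv hs hm k d (a * k⁻¹) (pos h (hv (a * k⁻¹)))
      (fun x hx => ⟨x, hx, by simpa [mul_comm] using hm _ _ x k1⟩) hd
    rw [inv_mul_cancel_right] at this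
    linarith
  · have := hm _ _ (g * d) k2
    rwa [inv_mul_cancel_left, ← mul_assoc, mul_comm, ← mul_assoc] at this

lemma down (h : Pure (P A) 1 ω) (hv : ∀ g, 0 ≤ v g ∧ IsUnit (v g))
    (hs : ∀ a, 0 ≤ a ∧ IsUnit a → ∃ g, v g = a) (hm : ∀ a b c, v a ≤ v b → v (a * c) ≤ v (b * c))
    (a b : G) {r : ℝ} (hr : 0 < r) (h1 : r < ω (v a)) (h2 : r < ω (v b)) :
    ∃ c, v c ≤ v a ∧ v c ≤ v b ∧ r ≤ ω (v c) := by
  obtain ⟨s, s1, s2⟩ := exists_between (lt_min h1 h2)
  obtain ⟨z, hz⟩ := hs _ (scal hr)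
  obtain ⟨y, hy⟩ := hs _ (scal (hr.trans s1))
  have wz : ω (v z) = r := by simp [hz, h.one]
  have wy : ω (v y) = s := by simp [hy, h.one]
  have key : ∀ x, s < ω (v x) → ω (v (y * z * x⁻¹)) ≤ r := fun x hx => by
    have := star2 h hv hs hm (z * x⁻¹) y x (by rwa [wy])
    rwa [← mul_assoc, mul_comm z x⁻¹, mul_inv_cancel_left, wz] at this
  obtain ⟨c, c1, c2, c3⟩ := dir h (.of_nonneg (hv _).1) (.of_nonneg (hv _).1)
    (key a (s2.trans_le (min_le_left _ _))) (key b (s2.trans_le (min_le_right _ _))) s1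
  obtain ⟨c, rfl⟩ := hs c (up (hv _) c1)
  have low : ∀ x, v (y * z * x⁻¹) ≤ v c → v (y * z * c⁻¹) ≤ v x := fun x hx => by
    have := hm _ _ (x * c⁻¹) hx
    rwa [mul_assoc, inv_mul_cancel_left, mul_comm x, mul_inv_cancel_left] at this
  refine ⟨y * z * c⁻¹, low a c1, low b c2, ?_⟩
  by_contra hc
  have := star2 h hv hs hm (c * z⁻¹) (y * z * c⁻¹) z (by rw [wz]; exact not_le.1 hc)
  rw [mul_assoc, inv_mul_cancel_left, mul_inv_cancel_right, mul_comm c, mul_inv_cancel_left,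
    wy] at this
  linarith

lemma definite (h : Pure (P A) 1 ω) (hv : ∀ g, 0 ≤ v g ∧ IsUnit (v g))
    (hs : ∀ a, 0 ≤ a ∧ IsUnit a → ∃ g, v g = a) (hm : ∀ a b c, v a ≤ v b → v (a * c) ≤ v (b * c))
    (a : G) : ω ((v a - ω (v a) • 1) * (v a - ω (v a) • 1)) ≤ 0 := by
  set α := ω (v a) with hα
  have α0 : 0 < α := pos h (hv a)
  obtain ⟨b, hb⟩ := hs _ (scal α0)
  have wb : ω (v b) = α := by simp [hb, h.one]
  rw [← hb]
  refine le_of_forall_pos_le_add fun ε hε => ?_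
  set K := 2 * (‖v a‖ + ‖v b‖) + 1 with hK
  have K0 : 0 < K := by positivity
  set δ := min (ε / K) (α / 2) with hδ
  have δ0 : 0 < δ := lt_min (by positivity) (by positivity)
  have δ1 : δ * K ≤ ε := (le_div_iff₀ K0).1 (min_le_left _ _)
  have δ2 : δ ≤ α / 2 := min_le_right _ _
  obtain ⟨c, c1, c2, c3⟩ := down h hv hs hm a b (r := α - δ) (by linarith) (by linarith)
    (by linarith)
  have sq : ∀ x : G, v c ≤ v x → ω (v x) = α → ω ((v x - v c) * (v x - v c)) ≤ ‖v x‖ * δ := by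
    intro x hx wx
    have p0 := sub_nonneg.2 hx
    have b1 := CStarAlgebra.star_left_conjugate_le_norm_smul (a := CFC.sqrt (v x - v c))
      (IsSelfAdjoint.of_nonneg p0)
    have q := (IsSelfAdjoint.of_nonneg (CFC.sqrt_nonneg (v x - v c))).star_eq
    have q2 := CFC.sqrt_mul_sqrt_self (v x - v c) p0
    rw [q, q2] at b1
    have q3 : CFC.sqrt (v x - v c) * (v x - v c) * CFC.sqrt (v x - v c)
        = (v x - v c) * (v x - v c) := by
      generalize CFC.sqrt (v x - v c) = s at q2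
      rw [← q2]
      noncomm_ring
    rw [q3] at b1
    have b2 := mono h.pos b1
    rw [map_smul, map_sub, smul_eq_mul] at b2
    have b3 := CStarAlgebra.norm_le_norm_of_nonneg_of_le p0 (sub_le_self _ (hv c).1)
    have b4 := mono h.pos hx
    refine b2.trans (mul_le_mul b3 (by linarith) (by linarith) (norm_nonneg _))
  have b1 := sq a c1 rfl
  have b2 := sq b c2 wb
  have b3 := h.pos _ (memP' (star_mul_self_nonneg (v a - v c + (v b - v c))))
  rw [(IsSelfAdjoint.of_nonneg (add_nonneg (sub_nonneg.2 c1) (sub_nonneg.2 c2))).star_eq] at b3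
  have e : (v a - v b) * (v a - v b) = (v a - v c) * (v a - v c) + (v a - v c) * (v a - v c)
      + (v b - v c) * (v b - v c) + (v b - v c) * (v b - v c)
      - (v a - v c + (v b - v c)) * (v a - v c + (v b - v c)) := by noncomm_ring
  rw [e, map_sub, map_add, map_add, map_add]
  nlinarith

lemma comm0 (hv : ∀ g, 0 ≤ v g ∧ IsUnit (v g))
    (hs : ∀ a, 0 ≤ a ∧ IsUnit a → ∃ g, v g = a) (hm : ∀ a b c, v a ≤ v b → v (a * c) ≤ v (b * c))
    (a : G) {y : A} (hy : IsSelfAdjoint y) : Complex.I • (v a * y - y * v a) ≤ 0 := by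
  have ha := IsSelfAdjoint.of_nonneg (hv a).1
  have hz : IsSelfAdjoint (Complex.I • (v a * y - y * v a)) := by
    rw [IsSelfAdjoint, star_smul, star_sub, star_mul, star_mul, ha.star_eq, hy.star_eq]
    simp [← smul_neg]
  obtain ⟨ω, h, h1⟩ := cone.exists_pure (Complex.I • (v a * y - y * v a))
  have b1 := definite h hv hs hm a
  set x := v a - ω (v a) • 1 with hx
  have xs : IsSelfAdjoint x := ha.sub (sa _)
  have e : v a * y - y * v a = x * y - y * x := by
    simp [hx, sub_mul, mul_sub]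
  have b2 : ω (Complex.I • (v a * y - y * v a)) ≤ 0 := by
    rw [e]
    by_contra hc
    replace hc := not_le.1 hc
    set μ := ω (Complex.I • (x * y - y * x))
    set l := (|ω (y * y)| + 1) / μ with hl
    have b3 := h.pos _ (memP' (star_mul_self_nonneg (l • x - Complex.I • y)))
    have e2 : star (l • x - Complex.I • y) * (l • x - Complex.I • y)
        = (l * l) • (x * x) - l • (Complex.I • (x * y - y * x)) + y * y := by
      rw [star_sub, star_smul, star_smul, xs.star_eq, hy.star_eq]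
      simp only [star_trivial, RCLike.star_def, Complex.conj_I, sub_mul, mul_sub, smul_mul_assoc,
        mul_smul_comm, smul_sub, smul_smul, neg_smul, neg_mul, mul_neg, smul_neg,
        Complex.I_mul_I, one_smul, neg_neg, smul_comm Complex.I l]
      abel
    rw [e2, map_add, map_sub, map_smul, map_smul, smul_eq_mul, smul_eq_mul] at b3
    have e3 : l * μ = |ω (y * y)| + 1 := div_mul_cancel₀ _ hc.ne'
    nlinarith [le_abs_self (ω (y * y)), mul_self_nonneg l]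
  rw [← map_zero (algebraMap ℝ A), le_algebraMap_iff_spectrum_le hz]
  intro x hx
  refine le_of_forall_pos_le_add fun ε hε => ?_
  obtain ⟨t, t1, t2⟩ := h1 ε hε
  rw [memP ((sa t).sub hz), sub_nonneg, ← Algebra.algebraMap_eq_smul_one,
    le_algebraMap_iff_spectrum_le hz] at t1
  linarith [t1 x hx]

lemma comm1 (hv : ∀ g, 0 ≤ v g ∧ IsUnit (v g))
    (hs : ∀ a, 0 ≤ a ∧ IsUnit a → ∃ g, v g = a) (hm : ∀ a b c, v a ≤ v b → v (a * c) ≤ v (b * c))
    (x y : A) : x * y = y * x := by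
  have h1 : ∀ x y : A, IsSelfAdjoint x → IsSelfAdjoint y → Commute x y := fun x y hx hy => by
    obtain ⟨a, ha⟩ := hs (x + (‖x‖ + 1) • 1) (up (scal one_pos) (by
      have := hx.neg_algebraMap_norm_le_self
      rw [Algebra.algebraMap_eq_smul_one, neg_le_iff_add_nonneg] at this
      rw [add_smul, ← add_assoc]
      exact le_add_of_nonneg_left this))
    have b1 := comm0 hv hs hm a hy
    have b2 := comm0 hv hs hm a hy.neg
    rw [mul_neg, neg_mul, neg_sub_neg, ← neg_sub, smul_neg, neg_nonpos] at b2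
    have b3 := sub_eq_zero.1 ((smul_eq_zero.1 (le_antisymm b1 b2)).resolve_left Complex.I_ne_zero)
    have b4 : x * y = y * x := by simpa [ha, add_mul, mul_add] using b3
    exact b4
  rw [← realPart_add_I_smul_imaginaryPart x, ← realPart_add_I_smul_imaginaryPart y]
  refine Commute.add_left (Commute.add_right ?_ (Commute.smul_right ?_ _))
    (Commute.smul_left (Commute.add_right ?_ (Commute.smul_right ?_ _)) _) <;>
  exact h1 _ _ (Subtype.prop _) (Subtype.prop _)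

end


/-- In a unital C*-algebra, if some operation makes the positive invertible elements a commutative group whose translations preserve the usual order, then the algebra's own multiplication is commutative. -/
theorem result :
    ∀ (A : Type) [CStarAlgebra A] [PartialOrder A] [StarOrderedRing A],
    ∀ (op : A → A → A),
      (∀ a b : A, (0 ≤ a ∧ IsUnit a) → (0 ≤ b ∧ IsUnit b) →
          (0 ≤ op a b ∧ IsUnit (op a b))) →
      (∀ a b c : A, (0 ≤ a ∧ IsUnit a) → (0 ≤ b ∧ IsUnit b) → (0 ≤ c ∧ IsUnit c) →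
          op (op a b) c = op a (op b c)) →
      (∀ a b : A, (0 ≤ a ∧ IsUnit a) → (0 ≤ b ∧ IsUnit b) → op a b = op b a) →
      (∃ e : A, (0 ≤ e ∧ IsUnit e) ∧
          (∀ a : A, (0 ≤ a ∧ IsUnit a) → op e a = a) ∧
          (∀ a : A, (0 ≤ a ∧ IsUnit a) → ∃ b : A, (0 ≤ b ∧ IsUnit b) ∧ op a b = e)) →
      (∀ a b c : A, (0 ≤ a ∧ IsUnit a) → (0 ≤ b ∧ IsUnit b) → (0 ≤ c ∧ IsUnit c) →
          a ≤ b → op a c ≤ op b c) →
      ∀ x y : A, x * y = y * x := by
  intro A _ _ _ op h1 h2 h3 ⟨e, he, h4, h5⟩ h6 x y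
  rcases subsingleton_or_nontrivial A with hA | hA
  · exact Subsingleton.elim _ _
  choose! inv hi1 hi2 using h5
  letI : Mul {a : A // 0 ≤ a ∧ IsUnit a} := ⟨fun a b => ⟨op a b, h1 _ _ a.2 b.2⟩⟩
  letI : One {a : A // 0 ≤ a ∧ IsUnit a} := ⟨⟨e, he⟩⟩
  letI : Inv {a : A // 0 ≤ a ∧ IsUnit a} := ⟨fun a => ⟨inv a, hi1 _ a.2⟩⟩
  letI : Group {a : A // 0 ≤ a ∧ IsUnit a} := Group.ofLeftAxioms
    (fun a b c => Subtype.ext (h2 _ _ _ a.2 b.2 c.2)) (fun a => Subtype.ext (h4 _ a.2))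
    (fun a => Subtype.ext ((h3 _ _ (hi1 _ a.2) a.2).trans (hi2 _ a.2)))
  letI : CommGroup {a : A // 0 ≤ a ∧ IsUnit a} :=
    { mul_comm := fun a b => Subtype.ext (h3 _ _ a.2 b.2) }
  exact comm1 (G := {a : A // 0 ≤ a ∧ IsUnit a}) (v := Subtype.val) (fun g => g.2)
    (fun a ha => ⟨⟨a, ha⟩, rfl⟩) (fun a b c h => h6 _ _ _ a.2 b.2 c.2 h) x y

end Pool.Agent.S05873
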