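import Pool.Statements.S05892
import Pool.Agent.H97.Ch5

set_option autoImplicit false
open scoped NNReal ENNReal
open Pool Pool.MP_b6a3e4_an

namespace Pool.Agent.S05892

/-- The negation of the preceding statement: Let T be a continuous operator on a complex separable Fréchet space and 0≤a<b≤∞. If for each α in (a,b) the spans of eigenvectors with eigenvalues of modulus <α and >α are dense, then some x has a dense zT-orbit for every z with 1/b<∣z∣<1/a. -/
theorem result :
    ¬ (∀ (X : Type) [AddCommGroup X] [Module ℂ X] [UniformSpace X] [IsUniformAddGroup X]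
    [ContinuousSMul ℂ X] [LocallyConvexSpace ℝ X] [TopologicalSpace.MetrizableSpace X]
    [CompleteSpace X] [TopologicalSpace.SeparableSpace X]
    (T : X →L[ℂ] X) (a : ℝ≥0) (b : ℝ≥0∞), (a : ℝ≥0∞) < b →
    (∀ α : ℝ≥0, a < α → (α : ℝ≥0∞) < b →
      Dense ((Submodule.span ℂ {x : X | ∃ z : ℂ, ‖z‖₊ < α ∧ T x = z • x}) : Set X) ∧
      Dense ((Submodule.span ℂ {x : X | ∃ z : ℂ, α < ‖z‖₊ ∧ T x = z • x}) : Set X)) →
    ∃ x : X, ∀ z : ℂ, (a : ℝ≥0∞) * (‖z‖₊ : ℝ≥0∞) < 1 → 1 < b * (‖z‖₊ : ℝ≥0∞) →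
      Dense (Set.range (fun n : ℕ => ((z • T) ^ n) x))) := by
  intro h
  obtain ⟨S⟩ := H97.Ch.exists_spec fun l n => TopologicalSpace.denseSeq H97.Ch.E (l / 2).unpair.1 n
  obtain ⟨x, hx⟩ := @h H97.Ch.E _ _ _ _ _
    (@NormedSpace.toLocallyConvexSpace H97.Ch.E _ NormedSpace.complexToReal) _ _ _ S.T 2 3 (by norm_num) fun α h1 h2 => by
    have h3 : (α:ℝ) < 3 := by exact_mod_cast h2
    have h4 : (2:ℝ) < α := by exact_mod_cast h1
    constructor
    · refine S.dense_sub _ (TopologicalSpace.denseRange_denseSeq _) (fun _ _ => rfl) _ 0 two_pos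
        fun j hj => Submodule.subset_span ⟨_, ?_, S.eig j⟩
      have := H97.Ch.zz_E (hj.trans (by simp))
      rw [← NNReal.coe_lt_coe, coe_nnnorm, Complex.norm_real, Real.norm_of_nonneg (by linarith)]
      linarith
    · refine S.dense_sub _ (TopologicalSpace.denseRange_denseSeq _) (fun _ _ => rfl) _ 1 one_lt_two
        fun j hj => Submodule.subset_span ⟨_, ?_, S.eig j⟩
      have := H97.Ch.zz_F (hj.trans (by simp))
      rw [← NNReal.coe_lt_coe, coe_nnnorm, Complex.norm_real, Real.norm_of_nonneg (by linarith)]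
      linarith
  obtain ⟨r, r1, r2, r3⟩ := S.not_common x
  have e : (‖(r:ℂ)‖₊ : ℝ) = r := by
    rw [coe_nnnorm, Complex.norm_real, Real.norm_of_nonneg (by linarith)]
  refine r3 (hx r ?_ ?_)
  · have : 2 * ‖(r:ℂ)‖₊ < 1 := by rw [← NNReal.coe_lt_coe]; push_cast [e]; linarith
    exact_mod_cast this
  · have : 1 < 3 * ‖(r:ℂ)‖₊ := by rw [← NNReal.coe_lt_coe]; push_cast [e]; linarith
    exact_mod_cast this

end Pool.Agent.S05892
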