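import Pool.Statements.S05908
import Pool.Agent.H94.NZ4

set_option autoImplicit false
open MeasureTheory
open Pool Pool.MP_b7ec12_an

namespace Pool.Agent.S05908

/-- The negation of the preceding statement: Take a measure-preserving Lagrangian flow of a Borel field b on the 2-torus and a continuous W^{1,1} map f. If ∂_t f + (∇f)b is integrable in time along a.e. trajectory, then t ↦ f(t, H_t(x)) is absolutely continuous on [0,T] for a.e. x. -/
theorem result :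
    ¬ (∀ (T : ℝ), 0 < T →
  ∀ (b X f ft : ℝ → (Fin 2 → ℝ) → (Fin 2 → ℝ)) (Df : ℝ → (Fin 2 → ℝ) → Fin 2 → (Fin 2 → ℝ)),
  Measurable (Function.uncurry b) →
  (∀ (t : ℝ) (x : Fin 2 → ℝ) (k : Fin 2 → ℤ), b t (x + (fun i => (k i : ℝ))) = b t x) →
  Measurable (Function.uncurry X) →
  (∀ᵐ x ∂(volume.restrict (Set.pi Set.univ fun _ : Fin 2 => Set.Ico (0:ℝ) 1)),
     X 0 x = x ∧ IntegrableOn (fun t => b t (X t x)) (Set.Icc 0 T) ∧
     ∀ t ∈ Set.Icc (0:ℝ) T, X t x = x + ∫ s in (0:ℝ)..t, b s (X s x)) →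
  (∀ t ∈ Set.Icc (0:ℝ) T,
     Measure.map (fun x i => Int.fract (X t x i))
       (volume.restrict (Set.pi Set.univ fun _ : Fin 2 => Set.Ico (0:ℝ) 1))
     = volume.restrict (Set.pi Set.univ fun _ : Fin 2 => Set.Ico (0:ℝ) 1)) →
  ContinuousOn (Function.uncurry f) (Set.Icc (0:ℝ) T ×ˢ (Set.univ : Set (Fin 2 → ℝ))) →
  (∀ (t : ℝ) (x : Fin 2 → ℝ) (k : Fin 2 → ℤ), f t (x + (fun i => (k i : ℝ))) = f t x) →
  Measurable (Function.uncurry ft) →
  Measurable (Function.uncurry Df) →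
  (∀ R : ℝ,
     IntegrableOn (Function.uncurry ft) (Set.Ioo (0:ℝ) T ×ˢ Metric.closedBall (0 : Fin 2 → ℝ) R) ∧
     IntegrableOn (Function.uncurry Df) (Set.Ioo (0:ℝ) T ×ˢ Metric.closedBall (0 : Fin 2 → ℝ) R)) →
  (∀ φ : ℝ × (Fin 2 → ℝ) → ℝ, ContDiff ℝ 1 φ → HasCompactSupport φ →
     tsupport φ ⊆ Set.Ioo (0:ℝ) T ×ˢ (Set.univ : Set (Fin 2 → ℝ)) →
     ((∫ p, fderiv ℝ φ p ((1:ℝ), (0 : Fin 2 → ℝ)) • f p.1 p.2)
        = - ∫ p, φ p • ft p.1 p.2) ∧
     ∀ j : Fin 2,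
       (∫ p, fderiv ℝ φ p ((0:ℝ), (Pi.single j (1:ℝ) : Fin 2 → ℝ)) • f p.1 p.2)
         = - ∫ p, φ p • Df p.1 p.2 j) →
  (∀ᵐ x ∂(volume.restrict (Set.pi Set.univ fun _ : Fin 2 => Set.Ico (0:ℝ) 1)),
     IntegrableOn (fun t => ft t (X t x) + ∑ j : Fin 2, b t (X t x) j • Df t (X t x) j)
       (Set.Ioo (0:ℝ) T)) →
  ∀ᵐ x ∂(volume.restrict (Set.pi Set.univ fun _ : Fin 2 => Set.Ico (0:ℝ) 1)),
     ∃ h : ℝ → (Fin 2 → ℝ), IntegrableOn h (Set.Icc (0:ℝ) T) ∧
       ∀ t ∈ Set.Icc (0:ℝ) T, f t (X t x) = f 0 (X 0 x) + ∫ s in (0:ℝ)..t, h s) := by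
  open Pool.Agent.H94.NZ in
  intro H
  obtain ⟨c, ψ, D⟩ := exists_dat
  obtain ⟨τ, σ, P, F⟩ := D.exists_fl
  have hP : 0 < P := by rw [← F.one, ← F.zero]; exact F.mono one_pos
  have hm : Measurable (Function.uncurry fun (_ : ℝ) (x : Fin 2 → ℝ) (j : Fin 2) =>
      DD c 0 x j • (1 : Fin 2 → ℝ)) :=
    measurable_pi_lambda _ fun j =>
      (((measurable_pi_apply j).comp D.D_meas).comp measurable_snd).smul_const _
  have hc : MeasurableSet (Set.pi Set.univ fun _ : Fin 2 => Set.Ico (0 : ℝ) 1) :=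
    MeasurableSet.univ_pi fun _ => measurableSet_Ico
  have key := H P hP (fun _ => bb ψ) (XX ψ τ σ) (fun _ x => rr c 0 x • (1 : Fin 2 → ℝ))
    (fun _ _ => 0) (fun _ x j => DD c 0 x j • (1 : Fin 2 → ℝ)) (D.b_meas.comp measurable_snd)
    (fun _ => D.b_per) (D.X_meas F)
    ((ae_restrict_mem hc).mono fun x hx => D.traj F (hx 1 trivial) hP.le)
    (fun t _ => D.preserve F t)
    (((D.r_cont.comp (f := fun p : ℝ × (Fin 2 → ℝ) => ((0 : ℝ), p.2))
      (by fun_prop)).smul continuous_const).continuousOn)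
    (fun _ x k => by rw [D.r_per]) measurable_const hm
    (fun R => ⟨integrableOn_zero, Integrable.mono' (mm_box _ (by simp) R) hm.aestronglyMeasurable
      (ae_restrict_of_ae (KK_ae'.mono fun p hp =>
        (pi_norm_le_iff_of_nonempty _).2 fun j => by
          simpa [norm_smul, Function.uncurry] using D.D_le 0 hp j))⟩)
    (fun φ h1 h2 _ => ⟨by
        simp only [smul_smul, integral_smul_const, D.ibp0 φ h1 h2]; simp,
      fun j => by simp only [smul_smul, integral_smul_const, D.ibp φ h1 h2 j, neg_smul]⟩)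
    (Filter.Eventually.of_forall fun x => by simp [smul_smul, D.g_zero])
  obtain ⟨x, ⟨h, hi, he⟩, h0, h1⟩ := D.exists_pt key
  have hj : ∀ j, IntegrableOn (fun s => h s j) (Set.Icc 0 P) := fun j => hi.eval j
  refine D.not_ac F (x 0) (fun s => h s 0) (hj 0) fun t ht => ?_
  have := congrFun (he t ht) 0
  simp only [XX, h1, if_true, D.r_ln (D.th h0 h1), Pi.add_apply, Pi.smul_apply, Pi.one_apply,
    smul_eq_mul, mul_one] at this
  rw [this, intervalIntegral.integral_of_le ht.1, intervalIntegral.integral_of_le ht.1,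
    eval_integral fun j => (hj j).mono_set fun s hs => ⟨hs.1.le, hs.2.trans ht.2⟩]

end Pool.Agent.S05908
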