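import Pool.Statements.S05912
-- import your own Pool.Agent.* helpers here

set_option autoImplicit false
open Filter Topology
open Pool Pool.MP_b82e9e_an

namespace Pool.Agent.S05912

def N : ℕ → ℕ
  | 0 => 1
  | j + 1 => 8 * (N j + N j ^ 2 + 1)

lemma N_lt (j : ℕ) : N j < N (j + 1) := by
  rw [N]; omega

lemma N_mono : StrictMono N := strictMono_nat_of_lt_succ N_lt

lemma N_ex (a : ℕ) : ∃ j, a ≤ N j := ⟨a, N_mono.id_le a⟩

noncomputable def J (a : ℕ) : ℕ := Nat.find (N_ex a)

lemma J_le {a k : ℕ} (h : a ≤ N k) : J a ≤ k := Nat.find_min' _ h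

lemma J_mono {a b : ℕ} (h : a ≤ b) : J a ≤ J b := J_le (h.trans (Nat.find_spec (N_ex b)))

lemma J_tendsto : Tendsto J atTop atTop := by
  rw [tendsto_atTop_atTop]
  intro K
  refine ⟨N K + 1, fun a ha => ?_⟩
  by_contra h
  have h1 : a ≤ N (J a) := Nat.find_spec (N_ex a)
  have h2 : N (J a) ≤ N K := N_mono.monotone (by omega)
  omega

noncomputable def c (a : ℕ) : ℝ := 4 / ((J a : ℝ) + 1)

lemma c_pos (a : ℕ) : 0 < c a := by unfold c; positivity

lemma c_anti {a b : ℕ} (h : a ≤ b) : c b ≤ c a := by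
  unfold c
  have : (J a : ℝ) ≤ J b := by exact_mod_cast J_mono h
  gcongr

lemma c_ge {a k : ℕ} (h : a ≤ N k) : 4 / ((k : ℝ) + 1) ≤ c a := by
  unfold c
  have : (J a : ℝ) ≤ k := by exact_mod_cast J_le h
  gcongr

lemma c_tendsto : Tendsto c atTop (𝓝 0) := by
  have := (tendsto_one_div_add_atTop_nhds_zero_nat (𝕜 := ℝ)).comp J_tendsto
  have h2 := this.const_mul 4
  simp only [mul_zero] at h2
  refine h2.congr fun a => ?_
  simp only [c, Function.comp]; ring

noncomputable def clip (x : ℝ) : ℝ := max 0 (min x 1)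

lemma clip_nonneg (x : ℝ) : 0 ≤ clip x := le_max_left _ _
lemma clip_le_one (x : ℝ) : clip x ≤ 1 := max_le zero_le_one (min_le_right _ _)
lemma clip_mono {x y : ℝ} (h : x ≤ y) : clip x ≤ clip y := by unfold clip; gcongr
lemma clip_sub (x d : ℝ) (hd : 0 ≤ d) : clip x - d ≤ clip (x - d) := by
  unfold clip
  simp only [max_def, min_def]
  split_ifs <;> linarith
lemma clip_pos {x : ℝ} (h : 0 < clip x) : 0 < x := by
  by_contra h1
  have := clip_mono (not_lt.mp h1)
  have h0 : clip 0 = 0 := by simp [clip]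
  linarith

abbrev Z := ℝ × ℕ × ℕ

def F (z : Z) : Set Z := {(z.1, z.2.1 + 1, z.2.2 - 1), (z.1 - c z.2.1, z.2.1 + 1, z.2.1 ^ 2)}

noncomputable def r (z : Z) : ℝ := if z.2.2 = 0 then 0 else clip z.1

lemma r_nonneg (z : Z) : 0 ≤ r z := by
  unfold r; split_ifs; exacts [le_rfl, clip_nonneg _]

lemma r_le (z : Z) : r z ≤ clip z.1 := by
  unfold r; split_ifs; exacts [clip_nonneg _, le_rfl]

lemma x_anti {s : ℕ → Z} (hs : ∀ t, s (t + 1) ∈ F (s t)) : Antitone fun t => (s t).1 := by
  apply antitone_nat_of_succ_le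
  intro t
  rcases hs t with h | h <;> rw [h]
  have := c_pos (s t).2.1
  simp only; linarith

lemma hasSum_unif (M : ℕ) (g : ℕ → ℝ) :
    HasSum (fun t => (if t < M then 1 / (M : ℝ) else 0) * g t)
      (1 / (M : ℝ) * ∑ t ∈ Finset.range M, g t) := by
  have : (1 / (M : ℝ) * ∑ t ∈ Finset.range M, g t) =
      ∑ t ∈ Finset.range M, (if t < M then 1 / (M : ℝ) else 0) * g t := by
    rw [Finset.mul_sum]
    refine Finset.sum_congr rfl fun t ht => ?_
    rw [if_pos (Finset.mem_range.mp ht)]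
  rw [this]
  apply hasSum_sum_of_ne_finset_zero
  intro t ht
  rw [if_neg (by simpa using ht), zero_mul]

noncomputable def val (θ : ℕ → ℝ) (z : Z) : ℝ :=
  sSup {x : ℝ | ∃ s : ℕ → Z, s 0 = z ∧ (∀ t, s (t + 1) ∈ F (s t)) ∧
    x = ∑' t, θ t * r (s (t + 1))}

noncomputable def ces (n t : ℕ) : ℝ := if t < n + 1 then 1 / ((n : ℝ) + 1) else 0

lemma hasSum_ces (n : ℕ) (g : ℕ → ℝ) :
    HasSum (fun t => ces n t * g t) (1 / ((n : ℝ) + 1) * ∑ t ∈ Finset.range (n + 1), g t) := by
  have := hasSum_unif (n + 1) g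
  push_cast at this
  exact this

noncomputable def play (z : Z) (m t : ℕ) : Z :=
  if t ≤ m then (z.1, z.2.1 + t, z.2.2 - t)
  else (z.1 - c (z.2.1 + m), z.2.1 + t, (z.2.1 + m) ^ 2 - (t - m - 1))

lemma play_zero (z : Z) (m : ℕ) : play z m 0 = z := by simp [play]

lemma play_mem (z : Z) (m t : ℕ) : play z m (t + 1) ∈ F (play z m t) := by
  unfold play F
  rcases lt_trichotomy t m with h | h | h
  · rw [if_pos (show t + 1 ≤ m by omega), if_pos (show t ≤ m by omega)]
    left
    simp only [Prod.mk.injEq, true_and]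
    omega
  · subst h
    rw [if_neg (show ¬ t + 1 ≤ t by omega), if_pos le_rfl]
    right
    simp only [Set.mem_singleton_iff, Prod.mk.injEq, true_and]
    omega
  · rw [if_neg (show ¬ t + 1 ≤ m by omega), if_neg (show ¬ t ≤ m by omega)]
    left
    simp only [Prod.mk.injEq, true_and]
    omega

lemma ces_up (n : ℕ) (z : Z) (x : ℝ) (hx : x ∈ {x : ℝ | ∃ s : ℕ → Z, s 0 = z ∧
    (∀ t, s (t + 1) ∈ F (s t)) ∧ x = ∑' t, ces n t * r (s (t + 1))}) : x ≤ clip z.1 := by
  obtain ⟨s, h0, hs, rfl⟩ := hx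
  rw [(hasSum_ces n _).tsum_eq]
  have h1 : ∑ t ∈ Finset.range (n + 1), r (s (t + 1)) ≤ ∑ t ∈ Finset.range (n + 1), clip z.1 := by
    refine Finset.sum_le_sum fun t _ => (r_le _).trans (clip_mono ?_)
    rw [← h0]
    exact x_anti hs (Nat.zero_le _)
  simp only [Finset.sum_const, Finset.card_range, nsmul_eq_mul] at h1
  push_cast at h1
  rw [one_div, inv_mul_le_iff₀ (by positivity)]
  exact h1

lemma val_ces_le (n : ℕ) (z : Z) : val (ces n) z ≤ clip z.1 :=
  csSup_le ⟨_, play z 0, play_zero z 0, play_mem z 0, rfl⟩ (ces_up n z)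

lemma val_ces_ge (n : ℕ) (z : Z) :
    clip z.1 - (c (n.sqrt + 1) + 2 / ((n.sqrt : ℝ) + 1)) ≤ val (ces n) z := by
  set m := n.sqrt + 1 with hm
  refine le_trans ?_ (le_csSup ⟨clip z.1, ces_up n z⟩
    ⟨play z m, play_zero z m, play_mem z m, rfl⟩)
  rw [(hasSum_ces n _).tsum_eq]
  have hm1 : n < m ^ 2 := Nat.lt_succ_sqrt' n
  have hm2 : n.sqrt ^ 2 ≤ n := Nat.sqrt_le' n
  have h1 : ∀ t ∈ Finset.range (n + 1),
      (clip z.1 - c m) - (if t < m then 1 else 0) ≤ r (play z m (t + 1)) := by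
    intro t ht
    have ht' := Finset.mem_range.mp ht
    split_ifs with h
    · have := clip_le_one z.1
      have := c_pos m
      have := r_nonneg (play z m (t + 1))
      linarith
    · have h2 : m ^ 2 ≤ (z.2.1 + m) ^ 2 := Nat.pow_le_pow_left (by omega) 2
      unfold play r
      rw [if_neg (show ¬ t + 1 ≤ m by omega), if_neg (by simp only; omega)]
      have := clip_sub z.1 (c (z.2.1 + m)) (c_pos _).le
      have := c_anti (show m ≤ z.2.1 + m by omega)
      simp only
      linarith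
  have h2 := Finset.sum_le_sum h1
  rw [Finset.sum_sub_distrib] at h2
  have h3 : ∑ t ∈ Finset.range (n + 1), (if t < m then (1:ℝ) else 0) ≤ m := by
    rw [Finset.sum_boole]
    have : ((Finset.range (n + 1)).filter (fun t => t < m)) ⊆ Finset.range m := by
      intro t ht
      simp only [Finset.mem_filter, Finset.mem_range] at ht ⊢
      exact ht.2
    have := Finset.card_le_card this
    rw [Finset.card_range] at this
    exact_mod_cast this
  simp only [Finset.sum_const, Finset.card_range, nsmul_eq_mul] at h2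
  push_cast at h2
  have h4 : (m : ℝ) ≤ ((n : ℝ) + 1) * (2 / ((n.sqrt : ℝ) + 1)) := by
    have h5 : ((n.sqrt : ℝ)) ^ 2 ≤ n := by exact_mod_cast hm2
    rw [hm, ← mul_div_assoc, le_div_iff₀ (by positivity)]
    push_cast
    nlinarith [sq_nonneg ((n.sqrt : ℝ) - 1)]
  rw [one_div, le_inv_mul_iff₀ (by positivity)]
  nlinarith

lemma err_tendsto : Tendsto (fun n : ℕ => c (n.sqrt + 1) + 2 / ((n.sqrt : ℝ) + 1)) atTop (𝓝 0) := by
  have hs : Tendsto Nat.sqrt atTop atTop := by
    rw [tendsto_atTop_atTop]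
    exact fun K => ⟨K ^ 2, fun a ha => Nat.le_sqrt'.mpr ha⟩
  have h1 := c_tendsto.comp ((tendsto_add_atTop_nat 1).comp hs)
  have h2 := ((tendsto_one_div_add_atTop_nhds_zero_nat (𝕜 := ℝ)).comp hs).const_mul 2
  have h3 := h1.add h2
  simp only [mul_zero, add_zero] at h3
  refine h3.congr fun n => ?_
  simp only [Function.comp]; ring

lemma ces_unif : TendstoUniformly (fun n z => val (ces n) z) (fun z => clip z.1) atTop := by
  rw [Metric.tendstoUniformly_iff]
  intro ε hε
  filter_upwards [err_tendsto.eventually (gt_mem_nhds hε)] with n hn z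
  have h1 := val_ces_le n z
  have h2 := val_ces_ge n z
  rw [Real.dist_eq, abs_lt]
  constructor <;> linarith

noncomputable def mix (k t : ℕ) : ℝ :=
  ∑ j ∈ Finset.range (k + 1),
    1 / ((k : ℝ) + 1) * (if t < N (j + 1) then 1 / (N (j + 1) : ℝ) else 0)

lemma hasSum_mix (k : ℕ) (g : ℕ → ℝ) : HasSum (fun t => mix k t * g t)
    (∑ j ∈ Finset.range (k + 1), 1 / ((k : ℝ) + 1) *
      (1 / (N (j + 1) : ℝ) * ∑ t ∈ Finset.range (N (j + 1)), g t)) := by
  have := hasSum_sum (s := Finset.range (k + 1))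
    fun j _ => (hasSum_unif (N (j + 1)) g).mul_left (1 / ((k : ℝ) + 1))
  refine this.congr_fun ?_ |> id
  intro t
  simp only [mix, Finset.sum_mul, mul_assoc]

lemma N_pos (j : ℕ) : (0 : ℝ) < N j := by
  have : N 0 ≤ N j := N_mono.monotone (Nat.zero_le j)
  have h : 0 < N j := lt_of_lt_of_le (by simp [N]) this
  exact_mod_cast h

lemma inv_a {s : ℕ → Z} (h0 : s 0 = (1, 0, 0)) (hs : ∀ t, s (t + 1) ∈ F (s t)) (t : ℕ) :
    (s t).2.1 = t ∧ (s t).2.2 ≤ t ^ 2 := by
  induction t with
  | zero => simp [h0]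
  | succ t ih =>
    have : t ^ 2 ≤ (t + 1) ^ 2 := Nat.pow_le_pow_left (by omega) 2
    rcases hs t with h | h <;> rw [h] <;> simp only [ih.1, true_and] <;> omega

lemma inv_b {s : ℕ → Z} (h0 : s 0 = (1, 0, 0)) (hs : ∀ t, s (t + 1) ∈ F (s t)) (T B d : ℕ)
    (hd : T + d ≤ B) : (s (T + d)).1 ≤ (s T).1 - c B ∨ (s (T + d)).2.2 ≤ T ^ 2 - d := by
  induction d with
  | zero => right; simpa using (inv_a h0 hs T).2
  | succ d ih =>
    have h1 := ih (by omega)
    have h2 := (inv_a h0 hs (T + d)).1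
    have h3 : (s (T + d)).1 ≤ (s T).1 := x_anti hs (by omega : T ≤ T + d)
    rw [← add_assoc]
    rcases hs (T + d) with h | h <;> rw [h]
    · rcases h1 with h1 | h1
      · exact Or.inl h1
      · right; simp only; omega
    · left
      have := c_anti (show T + d ≤ B by omega)
      simp only [h2]
      linarith

lemma window {s : ℕ → Z} (h0 : s 0 = (1, 0, 0)) (hs : ∀ t, s (t + 1) ∈ F (s t)) (j k : ℕ)
    (hj : j ≤ k) :
    1 / (N (j + 1) : ℝ) * ∑ t ∈ Finset.range (N (j + 1)), r (s (t + 1)) ≤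
      1 / 8 + ((k : ℝ) + 2) / 4 * (max (s (N j)).1 0 - max (s (N (j + 1))).1 0) := by
  have hN := N_pos (j + 1)
  have hP : max (s (N (j + 1))).1 0 ≤ max (s (N j)).1 0 :=
    max_le_max (x_anti hs (N_lt j).le) le_rfl
  by_cases hw : ∃ t, N j + N j ^ 2 ≤ t ∧ t < N (j + 1) ∧ 0 < r (s (t + 1))
  · obtain ⟨t, h1, h2, h3⟩ := hw
    have h4 : (s (t + 1)).2.2 ≠ 0 := by
      intro h; simp [r, h] at h3
    have h5 : 0 < (s (t + 1)).1 := clip_pos (h3.trans_le (r_le _))
    have h6 := inv_b h0 hs (N j) (N (j + 1)) (t + 1 - N j) (by omega)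
    rw [show N j + (t + 1 - N j) = t + 1 by omega] at h6
    have h7 : (s (t + 1)).1 ≤ (s (N j)).1 - c (N (j + 1)) := by
      rcases h6 with h | h
      · exact h
      · omega
    have h8 : (s (N (j + 1))).1 ≤ (s (t + 1)).1 := x_anti hs (by omega : t + 1 ≤ N (j + 1))
    have h9 : 4 / (((k + 1 : ℕ) : ℝ) + 1) ≤ c (N (j + 1)) := c_ge (N_mono.monotone (by omega))
    have h10 : max (s (N (j + 1))).1 0 ≤ (s (t + 1)).1 := max_le h8 h5.le
    have h11 : (s (N j)).1 ≤ max (s (N j)).1 0 := le_max_left _ _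
    have h12 : ∑ t ∈ Finset.range (N (j + 1)), r (s (t + 1)) ≤
        ∑ t ∈ Finset.range (N (j + 1)), (1:ℝ) :=
      Finset.sum_le_sum fun t _ => (r_le _).trans (clip_le_one _)
    simp only [Finset.sum_const, Finset.card_range, nsmul_eq_mul, mul_one] at h12
    have h13 : 1 / (N (j + 1) : ℝ) * ∑ t ∈ Finset.range (N (j + 1)), r (s (t + 1)) ≤ 1 := by
      rw [one_div, inv_mul_le_iff₀ hN]; linarith
    push_cast at h9
    rw [div_le_iff₀ (by positivity)] at h9
    have hk : (0:ℝ) ≤ k := by positivity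
    nlinarith
  · push Not at hw
    have h1 : ∀ t ∈ Finset.range (N (j + 1)),
        r (s (t + 1)) ≤ (if t < N j + N j ^ 2 then (1:ℝ) else 0) := by
      intro t ht
      split_ifs with h
      · exact (r_le _).trans (clip_le_one _)
      · exact hw t (by omega) (Finset.mem_range.mp ht)
    have h2 := Finset.sum_le_sum h1
    have h3 : ∑ t ∈ Finset.range (N (j + 1)), (if t < N j + N j ^ 2 then (1:ℝ) else 0) ≤
        (N j + N j ^ 2 : ℕ) := by
      rw [Finset.sum_boole]
      have : ((Finset.range (N (j + 1))).filter (fun t => t < N j + N j ^ 2)) ⊆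
          Finset.range (N j + N j ^ 2) := by
        intro t ht
        simp only [Finset.mem_filter, Finset.mem_range] at ht ⊢
        exact ht.2
      have := Finset.card_le_card this
      rw [Finset.card_range] at this
      exact_mod_cast this
    have h4 : (N (j + 1) : ℝ) = 8 * ((N j + N j ^ 2 : ℕ) + 1) := by
      rw [N]; push_cast; ring
    have h13 : 1 / (N (j + 1) : ℝ) * ∑ t ∈ Finset.range (N (j + 1)), r (s (t + 1)) ≤ 1 / 8 := by
      rw [one_div, inv_mul_le_iff₀ hN]; linarith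
    have hk : (0:ℝ) ≤ ((k : ℝ) + 2) / 4 * (max (s (N j)).1 0 - max (s (N (j + 1))).1 0) :=
      mul_nonneg (by positivity) (by linarith)
    linarith

lemma val_mix_le (k : ℕ) : val (mix k) (1, 0, 0) ≤ 5 / 8 := by
  refine csSup_le ⟨_, play _ 0, play_zero _ 0, play_mem _ 0, rfl⟩ ?_
  rintro x ⟨s, h0, hs, rfl⟩
  rw [(hasSum_mix k _).tsum_eq, ← Finset.mul_sum]
  have h1 := Finset.sum_le_sum (s := Finset.range (k + 1))
    fun j hj => window h0 hs j k (by have := Finset.mem_range.mp hj; omega)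
  rw [Finset.sum_add_distrib, ← Finset.mul_sum,
    Finset.sum_range_sub' (fun j => max (s (N j)).1 0)] at h1
  simp only [Finset.sum_const, Finset.card_range, nsmul_eq_mul] at h1
  push_cast at h1
  have h2 : max (s (N 0)).1 0 ≤ 1 := by
    refine max_le ?_ zero_le_one
    have := x_anti hs (Nat.zero_le (N 0))
    simpa [h0] using this
  have h3 : 0 ≤ max (s (N (k + 1))).1 0 := le_max_right _ _
  have hk : (0:ℝ) ≤ k := by positivity
  rw [one_div, inv_mul_le_iff₀ (by positivity)]
  nlinarith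

lemma tv_anti (θ : ℕ → ℝ) (h : Antitone θ) (M : ℕ) (hM : ∀ t, M ≤ t → θ t = 0) :
    ∑' t, |θ (t + 1) - θ t| = θ 0 := by
  rw [tsum_eq_sum (s := Finset.range M)]
  · have : ∀ t ∈ Finset.range M, |θ (t + 1) - θ t| = θ t - θ (t + 1) := by
      intro t _
      rw [abs_sub_comm, abs_of_nonneg (sub_nonneg.mpr (h (Nat.le_succ t)))]
    rw [Finset.sum_congr rfl this, Finset.sum_range_sub', hM M le_rfl, sub_zero]
  · intro t ht
    have : M ≤ t := by simpa using ht
    rw [hM t this, hM (t + 1) (by omega)]; simp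

lemma ite_anti (M : ℕ) (a : ℝ) (ha : 0 ≤ a) : Antitone fun t => if t < M then a else 0 := by
  intro s t hst
  simp only
  split_ifs <;> first | exact le_rfl | exact ha | omega

lemma tv_ces (n : ℕ) : ∑' t, |ces n (t + 1) - ces n t| = 1 / ((n : ℝ) + 1) := by
  rw [tv_anti (ces n) (ite_anti _ _ (by positivity)) (n + 1)]
  · simp [ces]
  · intro t ht; simp only [ces]; rw [if_neg (by omega)]

lemma tv_mix (k : ℕ) : ∑' t, |mix k (t + 1) - mix k t| =
    1 / ((k : ℝ) + 1) * ∑ j ∈ Finset.range (k + 1), 1 / (N (j + 1) : ℝ) := by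
  rw [tv_anti (mix k) ?_ (N (k + 1))]
  · rw [mix, Finset.mul_sum]
    refine Finset.sum_congr rfl fun j _ => ?_
    rw [if_pos (by exact_mod_cast N_pos (j + 1))]
  · intro t ht
    refine Finset.sum_eq_zero fun j hj => ?_
    have : N (j + 1) ≤ N (k + 1) := N_mono.monotone (by have := Finset.mem_range.mp hj; omega)
    rw [if_neg (by omega), mul_zero]
  · intro s t hst
    refine Finset.sum_le_sum fun j _ => ?_
    exact mul_le_mul_of_nonneg_left (ite_anti _ _ (by positivity) hst) (by positivity)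

lemma tv_mix_tendsto : Tendsto (fun k => ∑' t, |mix k (t + 1) - mix k t|) atTop (𝓝 0) := by
  simp only [tv_mix]
  have h1 : Tendsto (fun j => 1 / (N (j + 1) : ℝ)) atTop (𝓝 0) :=
    (tendsto_one_div_atTop_nhds_zero_nat (𝕜 := ℝ)).comp
      (N_mono.tendsto_atTop.comp (tendsto_add_atTop_nat 1))
  have h2 := h1.cesaro.comp (tendsto_add_atTop_nat 1)
  refine h2.congr fun k => ?_
  simp

noncomputable def th (k : ℕ) : ℕ → ℝ := if k % 2 = 0 then ces k else mix k


/-- The negation of the preceding statement: For any type Z, nonempty-valued F, r∈[0,1]: if the Cesàro values v_{n+1}(z)=sup over plays of (1/(n+1))Σ_{t≤n} r(s(t+1)) converge uniformly, then for any probability weights θ^k with Σ∣θ^k_{t+1}-θ^k_t∣→0, the values sup over plays of Σ θ^k_t r(s(t+1)) converge uniformly to some w. -/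
theorem result :
    ¬ (∀ (Z : Type) (F : Z → Set Z) (r : Z → ℝ),
      (∀ z, (F z).Nonempty) →
      (∀ z, 0 ≤ r z ∧ r z ≤ 1) →
      (∃ w : Z → ℝ, TendstoUniformly
          (fun (n : ℕ) (z : Z) =>
            sSup {x : ℝ | ∃ s : ℕ → Z, s 0 = z ∧ (∀ t, s (t + 1) ∈ F (s t)) ∧
              x = ∑' t, (if t < n + 1 then 1 / ((n : ℝ) + 1) else 0) * r (s (t + 1))})
          w atTop) →
      ∀ θ : ℕ → ℕ → ℝ,
        (∀ k t, 0 ≤ θ k t) →
        (∀ k, HasSum (θ k) 1) →
        Tendsto (fun k => ∑' t, |θ k (t + 1) - θ k t|) atTop (𝓝 0) →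
        ∃ w : Z → ℝ, TendstoUniformly
          (fun (k : ℕ) (z : Z) =>
            sSup {x : ℝ | ∃ s : ℕ → Z, s 0 = z ∧ (∀ t, s (t + 1) ∈ F (s t)) ∧
              x = ∑' t, θ k t * r (s (t + 1))})
          w atTop) := by
  intro H
  have hT := H Z F r (fun z => ⟨_, Or.inl rfl⟩)
    (fun z => ⟨r_nonneg z, (r_le z).trans (clip_le_one _)⟩) ⟨_, ces_unif⟩ th ?_ ?_ ?_
  · obtain ⟨w, hw⟩ := hT
    have h1 : Tendsto (fun k => val (th k) (1, 0, 0)) atTop (𝓝 (w (1, 0, 0))) :=
      hw.tendsto_at (1, 0, 0)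
    have h2 : Tendsto (fun k => val (ces k) (1, 0, 0)) atTop (𝓝 (clip 1)) :=
      ces_unif.tendsto_at (1, 0, 0)
    have he : Tendsto (fun k : ℕ => 2 * k) atTop atTop :=
      tendsto_id.const_mul_atTop' (by norm_num)
    have ho : Tendsto (fun k : ℕ => 2 * k + 1) atTop atTop := (tendsto_add_atTop_nat 1).comp he
    have h3 : w (1, 0, 0) = clip 1 := by
      refine tendsto_nhds_unique (h1.comp he) ((h2.comp he).congr fun k => ?_)
      simp [th]
    have h4 : w (1, 0, 0) ≤ 5 / 8 := by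
      refine le_of_tendsto' (h1.comp ho) fun k => ?_
      have : (2 * k + 1) % 2 ≠ 0 := by omega
      simp only [Function.comp, th, if_neg this]
      exact val_mix_le _
    have h5 : clip 1 = 1 := by simp [clip]
    linarith
  · intro k t
    unfold th
    split_ifs
    · unfold ces; split_ifs <;> positivity
    · refine Finset.sum_nonneg fun j _ => ?_
      split_ifs <;> positivity
  · intro k
    unfold th
    split_ifs
    · have := hasSum_ces k fun _ => 1
      simp only [mul_one, Finset.sum_const, Finset.card_range, nsmul_eq_mul] at this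
      push_cast at this
      rwa [one_div_mul_cancel (by positivity)] at this
    · have := hasSum_mix k fun _ => 1
      simp only [mul_one, Finset.sum_const, Finset.card_range, nsmul_eq_mul,
        one_div_mul_cancel (N_pos _).ne'] at this
      push_cast at this
      rwa [mul_one_div_cancel (by positivity)] at this
  · have h1 : Tendsto (fun k => ∑' t, |ces k (t + 1) - ces k t|) atTop (𝓝 0) := by
      simp only [tv_ces]
      exact tendsto_one_div_add_atTop_nhds_zero_nat
    have h2 := Tendsto.if' (p := fun k => k % 2 = 0) h1 tv_mix_tendsto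
    refine h2.congr fun k => ?_
    unfold th
    split_ifs <;> rfl

end Pool.Agent.S05912
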