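import Pool.Statements.S05922
import Pool.Agent.H93.Lu7

set_option autoImplicit false
open Pool Pool.MP_b97ffe_an

namespace Pool.Agent.S05922

/-- The negation of the preceding statement: For any metric space and subsets A, B: if A and B each bi-Lipschitz embed into some L1(μ) space, then their union A ∪ B also bi-Lipschitz embeds into some L1(μ) space. -/
theorem result :
    ¬ (∀ (X : Type) [MetricSpace X] (A B : Set X),
      (∃ (Ω : Type) (_ : MeasurableSpace Ω) (μ : MeasureTheory.Measure Ω)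
          (f : A → MeasureTheory.Lp ℝ 1 μ) (c C : ℝ), 0 < c ∧
          ∀ x y : A, c * dist x y ≤ dist (f x) (f y) ∧ dist (f x) (f y) ≤ C * dist x y) →
      (∃ (Ω : Type) (_ : MeasurableSpace Ω) (μ : MeasureTheory.Measure Ω)
          (f : B → MeasureTheory.Lp ℝ 1 μ) (c C : ℝ), 0 < c ∧
          ∀ x y : B, c * dist x y ≤ dist (f x) (f y) ∧ dist (f x) (f y) ≤ C * dist x y) →
      (∃ (Ω : Type) (_ : MeasurableSpace Ω) (μ : MeasureTheory.Measure Ω)
          (f : ↥(A ∪ B) → MeasureTheory.Lp ℝ 1 μ) (c C : ℝ), 0 < c ∧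
          ∀ x y : ↥(A ∪ B), c * dist x y ≤ dist (f x) (f y) ∧ dist (f x) (f y) ≤ C * dist x y)) := by
  intro h
  obtain ⟨m, h1, h2, h3⟩ := H93Lu.main
  obtain ⟨J, hJ⟩ := H93Lu.exists_iso
  letI := m
  obtain ⟨Ω, _, μ, f, c, C, hc, hf⟩ := h (H93Lu.L1 ⊕ H93Lu.L1) (Set.range Sum.inl)
    (Set.range Sum.inr)
    ⟨ℕ, inferInstance, MeasureTheory.Measure.count, fun x => J (Sum.elim id id x.1), 1, 1, one_pos,
      by
        rintro ⟨_, x, rfl⟩ ⟨_, y, rfl⟩
        rw [hJ, Subtype.dist_eq, one_mul]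
        exact ⟨(h1 x y).le, (h1 x y).ge⟩⟩
    ⟨ℕ, inferInstance, MeasureTheory.Measure.count, fun x => J (Sum.elim id id x.1), 1, 1, one_pos,
      by
        rintro ⟨_, x, rfl⟩ ⟨_, y, rfl⟩
        rw [hJ, Subtype.dist_eq, one_mul]
        exact ⟨(h2 x y).le, (h2 x y).ge⟩⟩
  have hu : ∀ x : H93Lu.L1 ⊕ H93Lu.L1, x ∈ Set.range Sum.inl ∪ Set.range Sum.inr := by
    rw [Set.range_inl_union_range_inr]; exact Set.mem_univ
  exact h3 Ω μ (fun x => f ⟨x, hu x⟩) c C hc fun x y => hf ⟨x, hu x⟩ ⟨y, hu y⟩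

end Pool.Agent.S05922
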