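import Pool.Statements.S05971
import Pool.Agent.H96.BorelIndep

set_option autoImplicit false
open Pool Pool.MP_bdf9ed_an

namespace Pool.Agent.S05971

open Pool.Agent.H96.BorelIndep

theorem ev_add (x : ℝ → ℝ) (m n m' n' : ℝ →₀ ℚ) :
    ev x (m + m') (n + n') = ev x m n + ev x m' n' := by
  simp only [ev, map_add]; ring

theorem ev_sub (x : ℝ → ℝ) (m n m' n' : ℝ →₀ ℚ) :
    ev x (m - m') (n - n') = ev x m n - ev x m' n' := by
  simp only [ev, map_sub]; ring

theorem ev_half (x : ℝ → ℝ) (m n : ℝ →₀ ℚ) :
    ev x ((1 / 2 : ℚ) • m) ((1 / 2 : ℚ) • n) = ev x m n / 2 := by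
  simp only [ev, map_smul, Rat.smul_def]; push_cast; ring

theorem ev_single (x : ℝ → ℝ) (a : ℝ) (s : ℚ) :
    ev x (Finsupp.single a 1) (Finsupp.single a s) = x a + s * a := by
  simp [ev, Rat.smul_def]

/-- combinations with all weights below one -/
def HH (x : ℝ → ℝ) : Set ℝ :=
  {y | ∃ m n : ℝ →₀ ℚ, m ≠ 0 ∧ (∀ g, 0 ≤ m g ∧ m g < 1) ∧ (∀ g, m g = 0 → n g = 0) ∧ y = ev x m n}

/-- boxes of tuples of a given pattern -/
def box (N : ℕ) (m : ℤ →₀ ℚ) : Set (ℤ → ℝ) :=
  {c | ∀ z, (m z = 0 → c z = 0) ∧ (m z ≠ 0 → cell N (c z) = z)}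

theorem box_meas (N : ℕ) (m : ℤ →₀ ℚ) : MeasurableSet (box N m) := by
  have : box N m = ⋂ z, {c : ℤ → ℝ | (m z = 0 → c z = 0) ∧ (m z ≠ 0 → cell N (c z) = z)} := by
    ext c; simp [box]
  rw [this]
  apply MeasurableSet.iInter
  intro z
  by_cases h : m z = 0
  · simp only [h, ne_eq, not_true_eq_false, false_imp_iff, and_true, true_imp_iff]
    exact measurableSet_eq_fun (measurable_pi_apply z) measurable_const
  · simp only [h, ne_eq, not_false_eq_true, false_imp_iff, true_and, true_imp_iff]
    exact measurableSet_eq_fun ((cell_meas N).comp (measurable_pi_apply z)) measurable_const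

open Classical in
theorem md_apply (N : ℕ) (m l : ℤ →₀ ℚ) (c : ℤ → ℝ) (hc : c ∈ box N m)
    (hl : ∀ z, m z = 0 → l z = 0) (b : ℝ) :
    Finsupp.mapDomain c l b = if m (cell N b) ≠ 0 ∧ c (cell N b) = b then l (cell N b) else 0 := by
  split_ifs with h
  · conv_lhs => rw [← h.2]
    apply Finsupp.mapDomain_apply' m.support
    · intro z hz
      simp only [Finset.mem_coe, Finsupp.mem_support_iff] at hz ⊢
      exact fun h0 => hz (hl z h0)
    · intro z hz w hw hzw
      simp only [Finset.mem_coe, Finsupp.mem_support_iff] at hz hw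
      rw [← (hc z).2 hz, ← (hc w).2 hw, hzw]
    · simpa using h.1
  · apply Finsupp.mapDomain_of_not_mem_image_support
    rintro ⟨w, hw, rfl⟩
    simp only [Finset.mem_coe, Finsupp.mem_support_iff] at hw
    have hmw : m w ≠ 0 := fun h0 => hw (hl w h0)
    apply h
    rw [(hc w).2 hmw]
    exact ⟨hmw, rfl⟩

theorem HH_meas (x : ℝ → ℝ) (hx : Measurable x)
    (hI : ∀ m n : ℝ →₀ ℚ, (∀ g, m g = 0 → n g = 0) → ev x m n = 0 → m = 0) :
    MeasurableSet (HH x) := by
  classical
  have hU : HH x = ⋃ (p : ℕ × (ℤ →₀ ℚ) × (ℤ →₀ ℚ)), ⋃ (_ : p.2.1 ≠ 0 ∧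
      (∀ z, 0 ≤ p.2.1 z ∧ p.2.1 z < 1) ∧ (∀ z, p.2.1 z = 0 → p.2.2 z = 0)),
      (fun c : ℤ → ℝ => ev x (Finsupp.mapDomain c p.2.1) (Finsupp.mapDomain c p.2.2)) ''
        box p.1 p.2.1 := by
    ext y
    simp only [Set.mem_iUnion, Set.mem_image]
    constructor
    · rintro ⟨m, n, hm0, hm1, hmn, rfl⟩
      obtain ⟨N, hN⟩ := exists_cell_inj m.support
      have hsub : n.support ⊆ m.support := by
        intro g hg
        rw [Finsupp.mem_support_iff] at hg ⊢
        exact fun h => hg (hmn g h)
      have hm' : ∀ g ∈ m.support, Finsupp.mapDomain (cell N) m (cell N g) = m g := fun g hg =>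
        Finsupp.mapDomain_apply' m.support m le_rfl hN hg
      have hn' : ∀ g ∈ m.support, Finsupp.mapDomain (cell N) n (cell N g) = n g := fun g hg =>
        Finsupp.mapDomain_apply' m.support n (by exact_mod_cast hsub) hN hg
      have hm2 : ∀ z, (¬ ∃ g ∈ m.support, cell N g = z) → Finsupp.mapDomain (cell N) m z = 0 :=
        fun z hz => Finsupp.mapDomain_of_not_mem_image_support hz
      have hn2 : ∀ z, (¬ ∃ g ∈ m.support, cell N g = z) → Finsupp.mapDomain (cell N) n z = 0 :=
        fun z hz => Finsupp.mapDomain_of_not_mem_image_support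
          (fun ⟨g, hg, hgz⟩ => hz ⟨g, hsub hg, hgz⟩)
      let c : ℤ → ℝ := fun z => if h : ∃ g ∈ m.support, cell N g = z then h.choose else 0
      have hc : ∀ g ∈ m.support, c (cell N g) = g := by
        intro g hg
        have h : ∃ g' ∈ m.support, cell N g' = cell N g := ⟨g, hg, rfl⟩
        simp only [c, dif_pos h]
        exact hN h.choose_spec.1 hg h.choose_spec.2
      refine ⟨(N, Finsupp.mapDomain (cell N) m, Finsupp.mapDomain (cell N) n), ⟨?_, ?_, ?_⟩, c, ?_, ?_⟩
      · obtain ⟨g, hg⟩ := Finsupp.support_nonempty_iff.mpr hm0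
        intro h0
        have := hm' g hg
        simp only at h0
        rw [h0] at this
        exact Finsupp.mem_support_iff.mp hg (by simpa using this.symm)
      · intro z
        by_cases h : ∃ g ∈ m.support, cell N g = z
        · obtain ⟨g, hg, rfl⟩ := h
          simp only [hm' g hg]; exact hm1 g
        · simp only [hm2 z h]; norm_num
      · intro z
        by_cases h : ∃ g ∈ m.support, cell N g = z
        · obtain ⟨g, hg, rfl⟩ := h
          simp only [hm' g hg, hn' g hg]; exact hmn g
        · intro _; exact hn2 z h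
      · intro z
        by_cases h : ∃ g ∈ m.support, cell N g = z
        · obtain ⟨g, hg, rfl⟩ := h
          simp only [hm' g hg, hc g hg]
          exact ⟨fun h0 => absurd h0 (Finsupp.mem_support_iff.mp hg), fun _ => trivial⟩
        · simp only [hm2 z h, c, dif_neg h]
          simp
      · simp only [← Finsupp.mapDomain_comp]
        rw [Finsupp.mapDomain_congr (f := c ∘ cell N) (g := id) (fun g hg => hc g hg),
          Finsupp.mapDomain_congr (f := c ∘ cell N) (g := id) (fun g hg => hc g (hsub hg))]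
        simp
    · rintro ⟨⟨N, m, n⟩, ⟨hm0, hm1, hmn⟩, c, hc, rfl⟩
      simp only at hm0 hm1 hmn hc
      refine ⟨_, _, ?_, ?_, ?_, rfl⟩
      · obtain ⟨z, hz⟩ := Finsupp.support_nonempty_iff.mpr hm0
        rw [Finsupp.mem_support_iff] at hz
        intro h0
        have := md_apply N m m c hc (fun _ h => h) (c z)
        rw [h0, (hc z).2 hz] at this
        simp [hz] at this
        exact hz this.symm
      · intro g
        rw [md_apply N m m c hc (fun _ h => h)]
        split_ifs
        · exact hm1 _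
        · norm_num
      · intro g
        rw [md_apply N m m c hc (fun _ h => h), md_apply N m n c hc hmn]
        split_ifs
        · exact hmn _
        · exact id
  rw [hU]
  refine MeasurableSet.iUnion fun p => MeasurableSet.iUnion fun hp => ?_
  obtain ⟨N, m, n⟩ := p
  obtain ⟨-, -, hmn⟩ := hp
  simp only at hmn ⊢
  apply (box_meas N m).image_of_measurable_injOn
  · simp only [ev, Finsupp.linearCombination_mapDomain]
    simp only [Finsupp.linearCombination_apply, Finsupp.sum, Rat.smul_def, Function.comp, id]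
    fun_prop
  · intro c hc c' hc' hcc
    simp only at hcc
    have h0 := hI (Finsupp.mapDomain c m - Finsupp.mapDomain c' m)
      (Finsupp.mapDomain c n - Finsupp.mapDomain c' n) (by
        intro g
        simp only [Finsupp.coe_sub, Pi.sub_apply]
        rw [md_apply N m m c hc (fun _ h => h), md_apply N m n c hc hmn,
          md_apply N m m c' hc' (fun _ h => h), md_apply N m n c' hc' hmn]
        split_ifs with h1 h2 h2
        · simp
        · intro h; exact absurd (by simpa using h) h1.1
        · intro h; exact absurd (by simpa using h) h2.1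
        · simp) (by rw [ev_sub, hcc, sub_self])
    funext z
    by_cases hz : m z = 0
    · rw [(hc z).1 hz, (hc' z).1 hz]
    · have h1 := congrArg (fun f : ℝ →₀ ℚ => f (c z)) h0
      simp only [Finsupp.coe_sub, Pi.sub_apply] at h1
      rw [md_apply N m m c hc (fun _ h => h), md_apply N m m c' hc' (fun _ h => h),
        (hc z).2 hz] at h1
      by_contra hne
      simp [hz, Ne.symm hne] at h1

/-- Every Borel set A of nonnegative reals containing 0 equals, for some Borel set B of reals, the set of all α ≥ 0 such that each point of B has a point of B at distance exactly α. -/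
theorem result :
    ∀ A : Set ℝ, MeasurableSet A → (0 : ℝ) ∈ A → A ⊆ Set.Ici (0 : ℝ) →
      ∃ B : Set ℝ, MeasurableSet B ∧
        {α : ℝ | 0 ≤ α ∧ ∀ x ∈ B, ∃ y ∈ B, |x - y| = α} = A := by
  classical
  intro A hA h0 hA0
  obtain ⟨x, hx, hI⟩ := exists_indep
  set D : Set ℝ := Set.Ioi 0 \ A with hD
  have hDm : MeasurableSet D := measurableSet_Ioi.diff hA
  have hinj : ∀ (a b : ℝ) (s t : ℚ), x a + s * a = x b + t * b → a = b := by
    intro a b s t h
    by_contra hab
    have h1 := hI (Finsupp.single a 1 - Finsupp.single b 1) (Finsupp.single a s - Finsupp.single b t)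
      (by
        intro g
        simp only [Finsupp.coe_sub, Pi.sub_apply, Finsupp.single_apply]
        split_ifs with h1 h2 h2
        · exact absurd (h1.trans h2.symm) hab
        · simp
        · simp
        · simp) (by rw [ev_sub, ev_single, ev_single, h, sub_self])
    have h2 := congrArg (fun f : ℝ →₀ ℚ => f a) h1
    simp [Finsupp.single_apply, Ne.symm hab] at h2
  let V : Set ℝ := {y | ∃ a ∈ D, ∃ s : ℚ, (s = 1 ∨ s = -1) ∧ y = x a + s * a}
  have hVm : MeasurableSet V := by
    have : V = (fun a => x a + ((1 : ℚ) : ℝ) * a) '' D ∪ (fun a => x a + ((-1 : ℚ) : ℝ) * a) '' D := by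
      ext y
      constructor
      · rintro ⟨a, ha, s, rfl | rfl, rfl⟩
        · exact Or.inl ⟨a, ha, rfl⟩
        · exact Or.inr ⟨a, ha, rfl⟩
      · rintro (⟨a, ha, rfl⟩ | ⟨a, ha, rfl⟩)
        · exact ⟨a, ha, 1, Or.inl rfl, rfl⟩
        · exact ⟨a, ha, -1, Or.inr rfl, rfl⟩
    rw [this]
    apply MeasurableSet.union
    · exact hDm.image_of_measurable_injOn (by fun_prop) (fun a _ b _ h => hinj a b _ _ h)
    · exact hDm.image_of_measurable_injOn (by fun_prop) (fun a _ b _ h => hinj a b _ _ h)
  have hmid : ∀ m n m' n' : ℝ →₀ ℚ, m ≠ 0 → (∀ g, 0 ≤ m g) → (∀ g, 0 ≤ m' g) →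
      (∀ g, m g + m' g < 2) → (∀ g, m g = 0 → n g = 0) → (∀ g, m' g = 0 → n' g = 0) →
      (ev x m n + ev x m' n') / 2 ∈ HH x := by
    intro m n m' n' hm hm0 hm0' hlt hmn hmn'
    refine ⟨(1 / 2 : ℚ) • (m + m'), (1 / 2 : ℚ) • (n + n'), ?_, ?_, ?_, by rw [ev_half, ev_add]⟩
    · obtain ⟨g, hg⟩ := Finsupp.support_nonempty_iff.mpr hm
      rw [Finsupp.mem_support_iff] at hg
      intro h
      have h1 := congrArg (fun f : ℝ →₀ ℚ => f g) h
      simp only [Finsupp.coe_smul, Finsupp.coe_add, Pi.smul_apply, Pi.add_apply, smul_eq_mul,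
        Finsupp.coe_zero, Pi.zero_apply] at h1
      exact hg (by linarith [hm0 g, hm0' g])
    · intro g
      simp only [Finsupp.coe_smul, Finsupp.coe_add, Pi.smul_apply, Pi.add_apply, smul_eq_mul]
      constructor <;> linarith [hm0 g, hm0' g, hlt g]
    · intro g
      simp only [Finsupp.coe_smul, Finsupp.coe_add, Pi.smul_apply, Pi.add_apply, smul_eq_mul]
      intro h
      rw [hmn g (by linarith [hm0 g, hm0' g]), hmn' g (by linarith [hm0 g, hm0' g])]
      simp
  have hs0 : ∀ a g : ℝ, 0 ≤ (Finsupp.single a (1 : ℚ)) g ∧ (Finsupp.single a (1 : ℚ)) g ≤ 1 := by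
    intro a g
    rw [Finsupp.single_apply]; split_ifs <;> norm_num
  have hs1 : ∀ (a g : ℝ) (s : ℚ), (Finsupp.single a (1 : ℚ)) g = 0 → (Finsupp.single a s) g = 0 := by
    intro a g s
    rw [Finsupp.single_apply, Finsupp.single_apply]; split_ifs <;> simp
  refine ⟨(HH x ∪ V)ᶜ, ((HH_meas x hx hI).union hVm).compl, ?_⟩
  ext a
  simp only [Set.mem_setOf_eq]
  constructor
  · rintro ⟨ha0, ha⟩
    by_contra haA
    have hapos : 0 < a := lt_of_le_of_ne ha0 (fun h => haA (h ▸ h0))
    have haD : a ∈ D := ⟨hapos, haA⟩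
    have hxa : x a ∈ (HH x ∪ V)ᶜ := by
      rintro (⟨m, n, hm, hm1, hmn, h⟩ | ⟨b, hb, s, hs, h⟩)
      · have h1 := hI (Finsupp.single a 1 - m) (Finsupp.single a 0 - n) (by
          intro g
          simp only [Finsupp.coe_sub, Pi.sub_apply, Finsupp.single_apply]
          split_ifs
          · intro h2; linarith [(hm1 g).2]
          · intro h2; rw [hmn g (by linarith)]; simp) (by rw [ev_sub, ev_single, ← h]; simp)
        have h2 := congrArg (fun f : ℝ →₀ ℚ => f a) h1
        simp at h2
        linarith [(hm1 a).2]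
      · have hab := hinj a b 0 s (by rw [← h]; simp)
        subst hab
        rcases hs with rfl | rfl <;> simp at h <;> linarith
    obtain ⟨y, hy, hxy⟩ := ha _ hxa
    apply hy
    right
    rcases (abs_eq ha0).mp hxy with h | h
    · exact ⟨a, haD, -1, Or.inr rfl, by push_cast; linarith⟩
    · exact ⟨a, haD, 1, Or.inl rfl, by push_cast; linarith⟩
  · intro haA
    have ha0 : 0 ≤ a := hA0 haA
    refine ⟨ha0, fun w hw => ?_⟩
    by_contra hcon
    push Not at hcon
    have h1 : w + a ∈ HH x ∪ V := by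
      by_contra h
      exact hcon _ h (by simp [abs_of_nonneg ha0])
    have h2 : w - a ∈ HH x ∪ V := by
      by_contra h
      exact hcon _ h (by simp [abs_of_nonneg ha0])
    have hw2 : w = ((w + a) + (w - a)) / 2 := by ring
    have hw3 : w = ((w - a) + (w + a)) / 2 := by ring
    apply hw
    rcases h1 with ⟨m, n, hm, hm1, hmn, h⟩ | ⟨b, hb, s, hs, h⟩
    · rcases h2 with ⟨m', n', hm', hm1', hmn', h'⟩ | ⟨b', hb', s', hs', h'⟩
      · left
        rw [hw2, h, h']
        exact hmid _ _ _ _ hm (fun g => (hm1 g).1) (fun g => (hm1' g).1)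
          (fun g => by linarith [(hm1 g).2, (hm1' g).2]) hmn hmn'
      · left
        rw [hw2, h, h', ← ev_single]
        exact hmid _ _ _ _ hm (fun g => (hm1 g).1) (fun g => (hs0 _ g).1)
          (fun g => by linarith [(hm1 g).2, (hs0 b' g).2]) hmn (fun g => hs1 _ g _)
    · rcases h2 with ⟨m', n', hm', hm1', hmn', h'⟩ | ⟨b', hb', s', hs', h'⟩
      · left
        rw [hw3, h, h', ← ev_single]
        exact hmid _ _ _ _ hm' (fun g => (hm1' g).1) (fun g => (hs0 _ g).1)
          (fun g => by linarith [(hm1' g).2, (hs0 b g).2]) hmn' (fun g => hs1 _ g _)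
      · by_cases hbb : b = b'
        · subst hbb
          have hb0 : 0 < b := hb.1
          rcases hs with rfl | rfl <;> rcases hs' with rfl | rfl <;> push_cast at h h'
          · right; exact ⟨b, hb, 1, Or.inl rfl, by push_cast; linarith⟩
          · exact absurd (show b ∈ A by rwa [show b = a by linarith]) hb.2
          · exfalso; linarith
          · right; exact ⟨b, hb, -1, Or.inr rfl, by push_cast; linarith⟩
        · left
          rw [hw2, h, h', ← ev_single, ← ev_single]
          refine hmid _ _ _ _ (by simp) (fun g => (hs0 _ g).1) (fun g => (hs0 _ g).1)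
            (fun g => ?_) (fun g => hs1 _ g _) (fun g => hs1 _ g _)
          rw [Finsupp.single_apply, Finsupp.single_apply]
          split_ifs with h3 h4
          · exact absurd (h3.trans h4.symm) hbb
          all_goals norm_num

end Pool.Agent.S05971
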