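import Pool.Statements.S05978
-- import your own Pool.Agent.* helpers here

set_option autoImplicit false
open MeasureTheory
open Pool Pool.MP_be6048_an

namespace Pool.Agent.S05978

open Set Complex Polynomial Metric

/-- length of the image of the segment -/
noncomputable def ell (s : ℂ) : ℝ := ∫ x in (-1 : ℝ)..1, ‖2 * (x : ℂ) - s‖

lemma ii (s : ℂ) (l r : ℝ) : IntervalIntegrable (fun x : ℝ => ‖2 * (x : ℂ) - s‖) volume l r :=
  Continuous.intervalIntegrable (by fun_prop) _ _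

lemma chord {z w : ℂ} {t : ℝ} (h0 : 0 ≤ t) (h1 : t ≤ 1) :
    ‖((1 - t : ℝ) : ℂ) * z + t * w‖ ≤ (1 - t) * ‖z‖ + t * ‖w‖ := by
  refine (norm_add_le _ _).trans (le_of_eq ?_)
  rw [norm_mul, norm_mul, norm_real, norm_real, Real.norm_of_nonneg h0,
    Real.norm_of_nonneg (by linarith)]

lemma pan (s : ℂ) (l h : ℝ) (hh : 0 < h) : ∫ x in l..(l + h), ‖2 * (x : ℂ) - s‖ ≤
    h * (‖2 * (l : ℂ) - s‖ + ‖2 * ((l + h : ℝ) : ℂ) - s‖) / 2 := by
  set A := ‖2 * (l : ℂ) - s‖
  set B := ‖2 * ((l + h : ℝ) : ℂ) - s‖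
  refine (intervalIntegral.integral_mono_on (g := fun x => (A - (B - A) / h * l) + (B - A) / h * x)
    (by linarith) (ii s _ _) (Continuous.intervalIntegrable (by fun_prop) _ _) fun x hx => ?_).trans
    (le_of_eq ?_)
  · have := chord (z := 2 * (l : ℂ) - s) (w := 2 * ((l + h : ℝ) : ℂ) - s) (t := (x - l) / h)
      (div_nonneg (by linarith [hx.1]) hh.le) ((div_le_one hh).2 (by linarith [hx.2]))
    have h' : (h : ℂ) ≠ 0 := ofReal_ne_zero.2 hh.ne'
    rw [show ((1 - (x - l) / h : ℝ) : ℂ) * (2 * (l : ℂ) - s) + ((x - l) / h : ℝ) *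
      (2 * ((l + h : ℝ) : ℂ) - s) = 2 * (x : ℂ) - s by push_cast; field_simp; ring] at this
    refine this.trans (le_of_eq ?_)
    field_simp; ring
  · rw [intervalIntegral.integral_add (by simp) (Continuous.intervalIntegrable (by fun_prop) _ _),
      intervalIntegral.integral_const_mul, integral_id, intervalIntegral.integral_const, smul_eq_mul]
    field_simp; ring

lemma pan' (s : ℂ) (l h : ℝ) (hh : 0 < h) :
    h * ‖((2 * l + h : ℝ) : ℂ) - s‖ ≤ ∫ x in l..(l + h), ‖2 * (x : ℂ) - s‖ := by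
  refine le_trans (le_of_eq ?_) (intervalIntegral.norm_integral_le_integral_norm (by linarith))
  rw [intervalIntegral.integral_sub (Continuous.intervalIntegrable (by fun_prop) _ _) (by simp),
    intervalIntegral.integral_const_mul, intervalIntegral.integral_ofReal, integral_id,
    intervalIntegral.integral_const, add_sub_cancel_left, ← Real.norm_of_nonneg hh.le,
    ← norm_smul, Real.norm_of_nonneg hh.le]
  congr 1
  simp only [real_smul]; push_cast; ring

lemma ell_sum (s : ℂ) (m : ℕ) (h : ℝ) (hm : m * h = 2) : ell s =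
    ∑ i ∈ Finset.range m, ∫ x in (-1 + i * h)..(-1 + i * h + h), ‖2 * (x : ℂ) - s‖ := by
  have := intervalIntegral.sum_integral_adjacent_intervals (a := fun i : ℕ => -1 + i * h) (n := m)
    fun k _ => ii s _ _
  simp only [Nat.cast_zero, zero_mul, add_zero, hm, Nat.cast_add, Nat.cast_one, add_mul, one_mul,
    ← add_assoc] at this
  rw [this, ell]; norm_num

lemma nsq (x : ℝ) (s : ℂ) : ‖(x : ℂ) - s‖ ^ 2 = (x - s.re) ^ 2 + s.im ^ 2 := by
  rw [Complex.sq_norm, normSq_apply]; simp; ring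

lemma trap (s : ℂ) (b : List ℕ) (hb : ∀ i : ℕ, i ≤ 10 →
    (2 * (-1 + i * (1 / 5 : ℝ)) - s.re) ^ 2 + s.im ^ 2 ≤ (b.getD i 0 / 1000 : ℝ) ^ 2) :
    ell s ≤ ∑ i ∈ Finset.range 10, (b.getD i 0 + b.getD (i + 1) 0 : ℝ) / 10000 := by
  have k : ∀ i : ℕ, i ≤ 10 → ‖2 * ((-1 + i * (1 / 5) : ℝ) : ℂ) - s‖ ≤ b.getD i 0 / 1000 := by
    intro i hi
    refine le_of_sq_le_sq ?_ (by positivity)
    rw [show 2 * ((-1 + i * (1 / 5) : ℝ) : ℂ) = ((2 * (-1 + i * (1 / 5)) : ℝ) : ℂ) by
      push_cast; rfl, nsq]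
    exact hb i hi
  rw [ell_sum s 10 (1 / 5) (by norm_num)]
  refine Finset.sum_le_sum fun i hi => (pan s _ _ (by norm_num)).trans ?_
  have hi := Finset.mem_range.1 hi
  have k1 := k i hi.le
  have k2 := k (i + 1) hi
  rw [show (-1 + ((i + 1 : ℕ) : ℝ) * (1 / 5)) = -1 + i * (1 / 5) + 1 / 5 by push_cast; ring] at k2
  linarith

lemma midp (s : ℂ) (b : List ℕ) (hb : ∀ i : ℕ, i < 10 →
    (b.getD i 0 / 1000 : ℝ) ^ 2 ≤ (2 * (-1 + i * (1 / 5 : ℝ)) + 1 / 5 - s.re) ^ 2 + s.im ^ 2) :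
    ∑ i ∈ Finset.range 10, (b.getD i 0 : ℝ) / 5000 ≤ ell s := by
  rw [ell_sum s 10 (1 / 5) (by norm_num)]
  refine Finset.sum_le_sum fun i hi => le_trans ?_ (pan' s _ _ (by norm_num))
  have := le_of_sq_le_sq ((hb i (Finset.mem_range.1 hi)).trans (nsq _ s).ge) (norm_nonneg _)
  linarith

lemma ell_le (s : ℂ) : ell s ≤ 2 + 2 * ‖s‖ := by
  rw [ell_sum s 2 1 (by norm_num), Finset.sum_range_succ, Finset.sum_range_one]
  have a := pan s (-1 + (0 : ℕ) * 1) 1 one_pos
  have b := pan s (-1 + (1 : ℕ) * 1) 1 one_pos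
  have c := norm_sub_le (-2) s
  have d := norm_sub_le 2 s
  norm_num at a b c d ⊢
  linarith

lemma ell_conv {z w : ℂ} {t : ℝ} (h0 : 0 ≤ t) (h1 : t ≤ 1) :
    ell (((1 - t : ℝ) : ℂ) * z + t * w) ≤ (1 - t) * ell z + t * ell w := by
  unfold ell
  rw [← intervalIntegral.integral_const_mul, ← intervalIntegral.integral_const_mul,
    ← intervalIntegral.integral_add ((ii _ _ _).const_mul _) ((ii _ _ _).const_mul _)]
  refine intervalIntegral.integral_mono_on (by norm_num) (ii _ _ _)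
    (((ii _ _ _).const_mul _).add ((ii _ _ _).const_mul _)) fun x _ => ?_
  refine le_trans (le_of_eq ?_) (chord h0 h1)
  congr 1; push_cast; ring

/-- the coordinate -/
noncomputable def X0 : C(Icc (-1 : ℝ) 1, ℂ) := ⟨fun x => ((x : ℝ) : ℂ), by fun_prop⟩

/-- sup norm of the monic quadratic -/
noncomputable def NN (a b : ℂ) : ℝ :=
  ‖(X0 - ContinuousMap.const _ a) * (X0 - ContinuousMap.const _ b)‖

lemma le_NN (a b : ℂ) {x : ℝ} (h0 : -1 ≤ x) (h1 : x ≤ 1) : ‖(x - a) * (x - b)‖ ≤ NN a b :=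
  ContinuousMap.norm_coe_le_norm ((X0 - ContinuousMap.const _ a) * (X0 - ContinuousMap.const _ b))
    ⟨x, h0, h1⟩

lemma NN_le {a b : ℂ} {M : ℝ} (hM : 0 ≤ M) (h : ∀ x : ℝ, x ∈ Icc (-1 : ℝ) 1 →
    ‖(x - a) * (x - b)‖ ≤ M) : NN a b ≤ M :=
  (ContinuousMap.norm_le _ hM).2 fun x => h x x.2

lemma NN_pos (a b : ℂ) : 0 < NN a b := by
  have h1 := le_NN a b (x := 1) (by norm_num) le_rfl
  have h2 := le_NN a b (x := -1) le_rfl (by norm_num)
  have h3 := le_NN a b (x := 0) (by norm_num) (by norm_num)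
  by_contra h
  have h0 : NN a b ≤ 0 := not_lt.1 h
  have e1 := norm_le_zero_iff.1 (h1.trans h0)
  have e2 := norm_le_zero_iff.1 (h2.trans h0)
  have e3 := norm_le_zero_iff.1 (h3.trans h0)
  push_cast at e1 e2 e3
  have : (2 : ℂ) = 0 := by linear_combination e1 + e2 - 2 * e3
  norm_num at this

lemma NN_comm (a b : ℂ) : NN a b = NN b a := by rw [NN, NN, mul_comm]

lemma far {a : ℂ} (b : ℂ) (ha : 100 ≤ ‖a‖) : ell (a + b) ≤ 59 / 20 * NN a b := by
  have h1 := le_NN a b (x := 1) (by norm_num) le_rfl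
  have h2 := le_NN a b (x := -1) le_rfl (by norm_num)
  rw [norm_mul] at h1 h2
  push_cast at h1 h2
  have a1 : ‖a‖ - 1 ≤ ‖1 - a‖ := by simpa [norm_sub_rev] using norm_sub_norm_le a 1
  have a2 : ‖a‖ - 1 ≤ ‖-1 - a‖ := by simpa [norm_sub_rev] using norm_sub_norm_le a (-1)
  have b1 : 2 ≤ ‖1 - b‖ + ‖-1 - b‖ := by
    simpa [one_add_one_eq_two] using norm_sub_le (1 - b) (-1 - b)
  have b2 : 2 * ‖b‖ ≤ ‖1 - b‖ + ‖-1 - b‖ := by
    have := norm_add_le (1 - b) (-1 - b)
    rwa [show 1 - b + (-1 - b) = -2 * b by ring, norm_mul, norm_neg, Complex.norm_two] at this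
  have c1 := mul_le_mul_of_nonneg_right a1 (norm_nonneg (1 - b))
  have c2 := mul_le_mul_of_nonneg_right a2 (norm_nonneg (-1 - b))
  have := ell_le (a + b)
  have := norm_add_le a b
  nlinarith [mul_le_mul_of_nonneg_left b1 (by linarith : 0 ≤ ‖a‖ - 1),
    mul_le_mul_of_nonneg_left b2 (by linarith : 0 ≤ ‖a‖ - 1), norm_nonneg b]

lemma re_le (α β : ℝ) (h : α ^ 2 + β ^ 2 ≤ 1) (z : ℂ) : α * z.re - β * z.im ≤ ‖z‖ := by
  refine le_of_sq_le_sq ?_ (norm_nonneg _) |>.trans' (le_abs_self _)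
  rw [sq_abs, Complex.sq_norm, normSq_apply]
  nlinarith [sq_nonneg (α * z.im + β * z.re), sq_nonneg z.re, sq_nonneg z.im]

/-- the sum of two points of the line -/
noncomputable def sl (S : ℝ) : ℂ := ⟨-101 / 50 + 24 / 25 * S, -7 / 25 * S⟩

lemma sl_conv {S0 S1 S L0 L1 : ℝ} (h : S0 < S1) (h0 : S0 ≤ S) (h1 : S ≤ S1) (l0 : ell (sl S0) ≤ L0)
    (l1 : ell (sl S1) ≤ L1) : ell (sl S) ≤ L0 + (S - S0) * ((L1 - L0) / (S1 - S0)) := by
  have p : 0 < S1 - S0 := by linarith
  have t0 : 0 ≤ (S - S0) / (S1 - S0) := div_nonneg (by linarith) p.le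
  have t1 : (S - S0) / (S1 - S0) ≤ 1 := (div_le_one p).2 (by linarith)
  have := ell_conv (z := sl S0) (w := sl S1) t0 t1
  rw [show ((1 - (S - S0) / (S1 - S0) : ℝ) : ℂ) * sl S0 + ((S - S0) / (S1 - S0) : ℝ) * sl S1 = sl S by
    apply Complex.ext <;> simp only [sl, add_re, add_im, re_ofReal_mul, im_ofReal_mul] <;>
      field_simp <;> ring] at this
  calc _ ≤ (1 - (S - S0) / (S1 - S0)) * L0 + (S - S0) / (S1 - S0) * L1 :=
        this.trans (by gcongr)
    _ = _ := by field_simp; ring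

lemma line {a b : ℂ} (ha : 7 * (a.re + 101 / 100) + 24 * a.im = 0)
    (hb : 7 * (b.re + 101 / 100) + 24 * b.im = 0) : ell (a + b) ≤ 59 / 20 * NN a b := by
  obtain ⟨t1, rfl⟩ : ∃ t : ℝ, a = ⟨-101 / 100 + 24 / 25 * t, -7 / 25 * t⟩ :=
    ⟨-25 / 7 * a.im, Complex.ext (by simp only; linarith) (by simp only; linarith)⟩
  obtain ⟨t2, rfl⟩ : ∃ t : ℝ, b = ⟨-101 / 100 + 24 / 25 * t, -7 / 25 * t⟩ :=
    ⟨-25 / 7 * b.im, Complex.ext (by simp only; linarith) (by simp only; linarith)⟩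
  set a : ℂ := ⟨-101 / 100 + 24 / 25 * t1, -7 / 25 * t1⟩ with ha'
  set b : ℂ := ⟨-101 / 100 + 24 / 25 * t2, -7 / 25 * t2⟩ with hb'
  have e : a + b = sl (t1 + t2) := by
    apply Complex.ext <;> simp only [sl, add_re, add_im, ha', hb'] <;> ring
  have k : ∀ x α β : ℝ, -1 ≤ x → x ≤ 1 → α ^ 2 + β ^ 2 ≤ 1 →
      α * ((x + 101 / 100) ^ 2 - 24 / 25 * (x + 101 / 100) * (t1 + t2) + 527 / 625 * (t1 * t2)) -
      β * (7 / 25 * (x + 101 / 100) * (t1 + t2) - 336 / 625 * (t1 * t2)) ≤ NN a b := by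
    intro x α β h0 h1 h2
    refine le_trans (le_of_eq ?_) ((re_le α β h2 _).trans (le_NN a b h0 h1))
    simp only [mul_re, mul_im, sub_re, sub_im, ofReal_re, ofReal_im, ha', hb']
    ring
  have tail : 11 / 5 ≤ ‖a + b‖ → ell (a + b) ≤ 59 / 20 * NN a b := fun h => by
    have h1 := le_NN a b (x := 1) (by norm_num) le_rfl
    have h2 := le_NN a b (x := -1) le_rfl (by norm_num)
    have := norm_sub_le ((((1 : ℝ) : ℂ) - a) * ((1 : ℝ) - b)) ((((-1 : ℝ) : ℂ) - a) * ((-1 : ℝ) - b))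
    rw [show (((1 : ℝ) : ℂ) - a) * ((1 : ℝ) - b) - (((-1 : ℝ) : ℂ) - a) * ((-1 : ℝ) - b) =
      -2 * (a + b) by push_cast; ring, norm_mul, norm_neg, Complex.norm_two] at this
    linarith [ell_le (a + b)]
  have l0 : ell (sl (-1 / 5)) ≤ 1771 / 400 :=
    (trap _ [220, 615, 1014, 1414, 1813, 2213, 2613, 3013, 3413, 3813, 4213] fun i hi => by
      interval_cases i <;> norm_num [sl]).trans (by norm_num [Finset.sum_range_succ])
  have l1 : ell (sl (23 / 10)) ≤ 5031 / 2000 :=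
    (trap _ [2281, 1901, 1531, 1180, 873, 671, 678, 889, 1200, 1552, 1924] fun i hi => by
      interval_cases i <;> norm_num [sl]).trans (by norm_num [Finset.sum_range_succ])
  have l2 : ell (sl (51 / 20)) ≤ 1669 / 625 :=
    (trap _ [2531, 2151, 1778, 1421, 1094, 833, 715, 806, 1052, 1373, 1727] fun i hi => by
      interval_cases i <;> norm_num [sl]).trans (by norm_num [Finset.sum_range_succ])
  have l3 : ell (sl (51 / 10)) ≤ 65247 / 10000 :=
    (trap _ [5081, 4699, 4319, 3944, 3574, 3212, 2859, 2520, 2202, 1916, 1676] fun i hi => by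
      interval_cases i <;> norm_num [sl]).trans (by norm_num [Finset.sum_range_succ])
  have r := abs_le.1 (abs_re_le_norm (a + b))
  have r' : (a + b).re = -101 / 50 + 24 / 25 * (t1 + t2) := by rw [e]; rfl
  have k1 := k (-1) (839 / 1000) (543 / 1000) le_rfl (by norm_num) (by norm_num)
  have k2 := k (-1) (839 / 1000) (68 / 125) le_rfl (by norm_num) (by norm_num)
  rcases le_total (t1 + t2) (-1 / 5) with c0 | c0
  · exact tail (by linarith [r.1])
  rcases le_total (t1 + t2) (23 / 10) with c1 | c1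
  · have := sl_conv (by norm_num) c0 c1 l0 l1
    have k3 := k 1 (83 / 200) (-909 / 1000) (by norm_num) le_rfl (by norm_num)
    rw [e]; linarith
  rcases le_total (t1 + t2) (51 / 20) with c2 | c2
  · have := sl_conv (by norm_num) c1 c2 l1 l2
    have k3 := k 1 (143 / 1000) (-989 / 1000) (by norm_num) le_rfl (by norm_num)
    rw [e]; linarith
  rcases le_total (t1 + t2) (51 / 10) with c3 | c3
  · have := sl_conv (by norm_num) c2 c3 l2 l3
    have k3 := k (19 / 20) (-171 / 1000) (-197 / 200) (by norm_num) (by norm_num) (by norm_num)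
    rw [e]; linarith
  · exact tail (by linarith [r.2])

lemma good : 59 / 20 < ell (⟨87 / 100, -55 / 100⟩ + ⟨-63 / 100, -31 / 100⟩) /
    NN ⟨87 / 100, -55 / 100⟩ ⟨-63 / 100, -31 / 100⟩ := by
  rw [lt_div_iff₀ (NN_pos _ _)]
  have a := midp (⟨87 / 100, -55 / 100⟩ + ⟨-63 / 100, -31 / 100⟩)
    [2213, 1851, 1509, 1202, 966, 860, 932, 1147, 1444, 1781] fun i hi => by
      interval_cases i <;> norm_num
  have b : NN ⟨87 / 100, -55 / 100⟩ ⟨-63 / 100, -31 / 100⟩ ≤ 471 / 500 :=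
    NN_le (by norm_num) fun x hx => by
      refine le_of_sq_le_sq ?_ (by norm_num)
      rw [norm_mul, mul_pow, nsq, nsq]
      have h : 0 ≤ 1 - x ^ 2 := by nlinarith [hx.1, hx.2]
      simp only
      nlinarith [mul_nonneg h (sq_nonneg (x - 6 / 25)), hx.1, hx.2]
  norm_num [Finset.sum_range_succ] at a ⊢
  linarith

lemma ratio (c a b : ℂ) (hc : c ≠ 0) :
    eLpNorm (fun x : ℝ => ((⇑derivative)^[1] (C c * ((X - C a) * (X - C b)))).eval (x : ℂ)) 1
      (volume.restrict (Icc (-1 : ℝ) 1)) /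
    eLpNorm (fun x : ℝ => (C c * ((X - C a) * (X - C b))).eval (x : ℂ)) ⊤
      (volume.restrict (Icc (-1 : ℝ) 1)) = ENNReal.ofReal (ell (a + b) / NN a b) := by
  have c0 : 0 < ‖c‖ := norm_pos_iff.2 hc
  have e1 : (fun x : ℝ => ((⇑derivative)^[1] (C c * ((X - C a) * (X - C b)))).eval (x : ℂ)) =
      fun x : ℝ => c * (2 * (x : ℂ) - (a + b)) := by
    funext x; simp; left; ring
  have e2 : (fun x : ℝ => (C c * ((X - C a) * (X - C b))).eval (x : ℂ)) =
      fun x : ℝ => c * ((x - a) * (x - b)) := by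
    funext x; simp
  have n1 : eLpNorm (fun x : ℝ => c * (2 * (x : ℂ) - (a + b))) 1 (volume.restrict (Icc (-1 : ℝ) 1))
      = ENNReal.ofReal (‖c‖ * ell (a + b)) := by
    rw [eLpNorm_one_eq_lintegral_enorm, ← ofReal_integral_norm_eq_lintegral_enorm
      (Continuous.integrableOn_Icc (by fun_prop)), integral_Icc_eq_integral_Ioc,
      ← intervalIntegral.integral_of_le (by norm_num), ell, ← intervalIntegral.integral_const_mul]
    simp only [norm_mul]
  have n2 : eLpNorm (fun x : ℝ => c * ((x - a) * (x - b))) ⊤ (volume.restrict (Icc (-1 : ℝ) 1))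
      = ENNReal.ofReal (‖c‖ * NN a b) := by
    rw [eLpNorm_exponent_top]
    have u : eLpNormEssSup (fun x : ℝ => c * ((x - a) * (x - b))) (volume.restrict (Icc (-1 : ℝ) 1))
        ≤ ENNReal.ofReal (‖c‖ * NN a b) := eLpNormEssSup_le_of_ae_bound
      (ae_restrict_of_forall_mem measurableSet_Icc fun x hx => by
        rw [norm_mul]; exact mul_le_mul_of_nonneg_left (le_NN a b hx.1 hx.2) c0.le)
    refine le_antisymm u ?_
    have v := ae_le_eLpNormEssSup (f := fun x : ℝ => c * ((x - a) * (x - b)))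
      (μ := volume.restrict (Icc (-1 : ℝ) 1))
    set E := eLpNormEssSup (fun x : ℝ => c * ((x - a) * (x - b))) (volume.restrict (Icc (-1 : ℝ) 1))
    have fin : E ≠ ⊤ := ne_top_of_le_ne_top ENNReal.ofReal_ne_top u
    have w := Measure.eqOn_Icc_of_ae_eq (μ := volume) (a := (-1 : ℝ)) (b := 1) (by norm_num)
      (f := fun x : ℝ => max ‖c * ((x - a) * (x - b))‖ E.toReal) (g := fun _ => E.toReal)
      (by
        filter_upwards [v] with x hx
        refine max_eq_right ?_
        rwa [← ofReal_norm, ENNReal.ofReal_le_iff_le_toReal fin] at hx)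
      (by fun_prop) continuousOn_const
    rw [ENNReal.ofReal_le_iff_le_toReal fin, ← le_div_iff₀' c0]
    refine NN_le (by positivity) fun x hx => ?_
    rw [le_div_iff₀' c0, ← norm_mul]
    exact max_eq_right_iff.1 (w hx)
  rw [e1, e2, n1, n2, ← ENNReal.ofReal_div_of_pos (mul_pos c0 (NN_pos a b)),
    mul_div_mul_left _ _ c0.ne']


/-- The negation of the preceding statement: Let G be a bounded open convex set in ℂ containing [-1,1], and 1 ≤ k ≤ n, 1 ≤ q ≤ ∞. Take any degree-n complex polynomial with no zeros in G that maximizes the L^q norm of its k-th derivative on [-1,1] over its sup norm there. Then all its zeros lie on the boundary of G. -/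
theorem result :
    ¬ (∀ G : Set ℂ, IsOpen G → Convex ℝ G → Bornology.IsBounded G →
      (∀ x : ℝ, x ∈ Set.Icc (-1 : ℝ) 1 → (x : ℂ) ∈ G) →
      ∀ n k : ℕ, 1 ≤ k → k ≤ n →
      ∀ q : ENNReal, 1 ≤ q →
      ∀ P : Polynomial ℂ, P.natDegree = n → (∀ z ∈ G, P.eval z ≠ 0) →
        (∀ Q : Polynomial ℂ, Q.natDegree = n → (∀ z ∈ G, Q.eval z ≠ 0) →
          eLpNorm (fun x : ℝ => ((⇑Polynomial.derivative)^[k] Q).eval (x : ℂ)) q
              (volume.restrict (Set.Icc (-1 : ℝ) 1)) /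
            eLpNorm (fun x : ℝ => Q.eval (x : ℂ)) ⊤
              (volume.restrict (Set.Icc (-1 : ℝ) 1))
          ≤
          eLpNorm (fun x : ℝ => ((⇑Polynomial.derivative)^[k] P).eval (x : ℂ)) q
              (volume.restrict (Set.Icc (-1 : ℝ) 1)) /
            eLpNorm (fun x : ℝ => P.eval (x : ℂ)) ⊤
              (volume.restrict (Set.Icc (-1 : ℝ) 1))) →
        ∀ z : ℂ, P.eval z = 0 → z ∈ frontier G) := by
  intro H
  let f : ℂ → ℝ := fun z => 7 * (z.re + 101 / 100) + 24 * z.im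
  have fc : Continuous f := by fun_prop
  let G : Set ℂ := {z | 0 < f z} ∩ ball 0 100
  have Go : IsOpen G := (isOpen_lt continuous_const fc).inter isOpen_ball
  have Gc : Convex ℝ G := by
    refine Convex.inter (fun z hz w hw s t hs ht h => ?_) (convex_ball _ _)
    simp only [mem_ofPred_eq, f, add_re, add_im, smul_re, smul_im, smul_eq_mul] at hz hw ⊢
    obtain rfl : s = 1 - t := by linarith
    rcases hs.eq_or_lt with h | h <;> nlinarith [mul_nonneg ht hw.le, mul_nonneg hs hz.le]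
  let K : Set (ℂ × ℂ) := (Gᶜ ∩ closedBall 0 100) ×ˢ (Gᶜ ∩ closedBall 0 100)
  have Kc : IsCompact K := ((isCompact_closedBall _ _).inter_left Go.isClosed_compl).prod
    ((isCompact_closedBall _ _).inter_left Go.isClosed_compl)
  have m0 : ((⟨87 / 100, -55 / 100⟩, ⟨-63 / 100, -31 / 100⟩) : ℂ × ℂ) ∈ K := by
    refine ⟨⟨fun h => ?_, ?_⟩, fun h => ?_, ?_⟩
    · have := h.1; norm_num [f] at this
    · rw [mem_closedBall_zero_iff]
      exact (norm_le_abs_re_add_abs_im _).trans (by norm_num [abs_of_pos])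
    · have := h.1; norm_num [f] at this
    · rw [mem_closedBall_zero_iff]
      exact (norm_le_abs_re_add_abs_im _).trans (by norm_num [abs_of_pos])
  have rc : Continuous fun p : ℂ × ℂ => ell (p.1 + p.2) / NN p.1 p.2 := by
    refine Continuous.div ?_ ?_ fun p => (NN_pos _ _).ne'
    · exact intervalIntegral.continuous_parametric_intervalIntegral_of_continuous'
        (f := fun (p : ℂ × ℂ) (x : ℝ) => ‖2 * (x : ℂ) - (p.1 + p.2)‖) (by fun_prop) _ _
    · exact ((continuous_const.sub (ContinuousMap.continuous_const'.comp continuous_fst)).mul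
        (continuous_const.sub (ContinuousMap.continuous_const'.comp continuous_snd))).norm
  obtain ⟨⟨a, b⟩, ⟨⟨a1, a2⟩, b1, b2⟩, hm⟩ := Kc.exists_isMaxOn ⟨_, m0⟩ rc.continuousOn
  have big : 59 / 20 < ell (a + b) / NN a b := good.trans_le (hm m0)
  have key := H G Go Gc (isBounded_ball.subset inter_subset_right) (fun x hx => ⟨by
      simp only [mem_ofPred_eq, f, ofReal_re, ofReal_im]; linarith [hx.1], by
      rw [mem_ball_zero_iff, norm_real, Real.norm_eq_abs, abs_lt]
      constructor <;> linarith [hx.1, hx.2]⟩) 2 1 le_rfl one_le_two 1 le_rfl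
    (C 1 * ((X - C a) * (X - C b))) (by
      rw [C_1, one_mul, natDegree_mul (X_sub_C_ne_zero _) (X_sub_C_ne_zero _), natDegree_X_sub_C,
        natDegree_X_sub_C]) (fun z hz h => by
      simp only [eval_mul, eval_sub, eval_X, eval_C, one_mul, mul_eq_zero, sub_eq_zero] at h
      rcases h with rfl | rfl
      exacts [a1 hz, b1 hz]) (fun Q hQ hz => by
      have Q0 : Q ≠ 0 := by rintro rfl; simp at hQ
      have s := IsAlgClosed.splits Q
      obtain ⟨a', b', e⟩ := Multiset.card_eq_two.1 (s.natDegree_eq_card_roots.symm.trans hQ)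
      have e' := s.eq_prod_roots
      rw [e] at e'
      simp only [Multiset.insert_eq_cons, Multiset.map_cons, Multiset.map_singleton,
        Multiset.prod_cons, Multiset.prod_singleton] at e'
      have n1 : a' ∉ G := fun h => hz _ h (by rw [e']; simp)
      have n2 : b' ∉ G := fun h => hz _ h (by rw [e']; simp)
      rw [e', ratio _ _ _ (leadingCoeff_ne_zero.2 Q0), ratio _ _ _ one_ne_zero]
      refine ENNReal.ofReal_le_ofReal ?_
      rcases le_total 100 ‖a'‖ with c | c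
      · exact ((div_le_iff₀ (NN_pos _ _)).2 (far b' c)).trans big.le
      rcases le_total 100 ‖b'‖ with d | d
      · rw [add_comm, NN_comm]
        exact ((div_le_iff₀ (NN_pos _ _)).2 (far a' d)).trans big.le
      exact hm (show (a', b') ∈ K from ⟨⟨n1, mem_closedBall_zero_iff.2 c⟩, n2,
        mem_closedBall_zero_iff.2 d⟩))
  have fr : ∀ z ∈ frontier G, f z = 0 ∨ 100 ≤ ‖z‖ := fun z hz => by
    rw [Go.frontier_eq] at hz
    have : 0 ≤ f z := closure_minimal (t := {z | 0 ≤ f z}) (fun w hw => (show 0 < f w from hw.1).le)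
      (isClosed_le continuous_const fc) hz.1
    by_contra h
    push Not at h
    exact hz.2 ⟨lt_of_le_of_ne this h.1.symm, mem_ball_zero_iff.2 h.2⟩
  refine absurd big (not_lt.2 ((div_le_iff₀ (NN_pos _ _)).2 ?_))
  rcases fr a (key a (by simp)) with c | c
  · rcases fr b (key b (by simp)) with d | d
    · exact line c d
    · rw [add_comm, NN_comm]; exact far a d
  · exact far b c

end Pool.Agent.S05978
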