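import Pool.Statements.S05987
import Pool.Agent.H51.BesC

set_option autoImplicit false
open Pool Pool.MP_bed2b2_an

namespace Pool.Agent.S05987
open Pool.Agent.H51.BesA

/-- For every unit complex number u, the Bessel function J_0 (given by its power series) takes the value 1 at most at one point t·u with t>0, i.e. J_0(z)=1 has at most one solution on each open ray from the origin. -/
theorem result :
    ∀ u : ℂ, ‖u‖ = 1 → ∀ s t : ℝ, 0 < s → 0 < t →
      (∑' n : ℕ, (-1 : ℂ) ^ n * (((s : ℂ) * u) / 2) ^ (2 * n) / ((n.factorial : ℂ)) ^ 2) = 1 →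
      (∑' n : ℕ, (-1 : ℂ) ^ n * (((t : ℂ) * u) / 2) ^ (2 * n) / ((n.factorial : ℂ)) ^ 2) = 1 →
      s = t := by
  intro u hu s t hs ht h1 h2
  rw [J_eq] at h1 h2
  exact Pool.Agent.H51.BesC.main u hu s t hs ht h1 h2

end Pool.Agent.S05987
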