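import Pool.Statements.S05991
import Pool.Agent.H93.Klee

set_option autoImplicit false
open Pool Pool.MP_bf1b21_an

namespace Pool.Agent.S05991

/-- There is an infinite compact Hausdorff space K such that C(K) with the sup norm is covered by closed balls of positive radius, each of which meets only finitely many balls of the cover. -/
theorem result :
    ∃ (K : Type) (_ : TopologicalSpace K) (_ : CompactSpace K) (_ : T2Space K),
      Infinite K ∧
      ∃ 𝓑 : Set (Set C(K, ℝ)),
        (∀ B ∈ 𝓑, ∃ (x : C(K, ℝ)) (r : ℝ), 0 < r ∧ B = Metric.closedBall x r) ∧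
        ⋃₀ 𝓑 = Set.univ ∧
        ∀ B ∈ 𝓑, {B' : Set C(K, ℝ) | B' ∈ 𝓑 ∧ (B ∩ B').Nonempty}.Finite := by
  obtain ⟨ctr, h1, h2⟩ := Pool.Agent.H93.Klee.cube_centres
  refine ⟨ℝ → Bool, inferInstance, inferInstance, inferInstance, inferInstance,
    Set.range (fun p => Metric.closedBall (ctr p) 1), ?_, ?_, ?_⟩
  · rintro B ⟨p, rfl⟩
    exact ⟨ctr p, 1, one_pos, rfl⟩
  · rw [Set.eq_univ_iff_forall]
    intro p
    exact ⟨_, ⟨p, rfl⟩, h1 p⟩
  · rintro B ⟨p, rfl⟩
    refine (Set.finite_singleton (Metric.closedBall (ctr p) 1)).subset ?_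
    rintro B' ⟨⟨q, rfl⟩, x, hxp, hxq⟩
    rcases h2 p q with h | h
    · simp [h]
    · exfalso
      have a : dist x (ctr p) ≤ 1 := hxp
      have b : dist x (ctr q) ≤ 1 := hxq
      have := dist_triangle_left (ctr p) (ctr q) x
      linarith

end Pool.Agent.S05991
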