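import Pool.Statements.S05997
import Pool.Agent.H91.Bisym

set_option autoImplicit false
open Pool Pool.MP_bfe0f8_an

namespace Pool.Agent.S05997

theorem result :
    ∀ (I : Set ℝ), I.OrdConnected → ∀ F : ℝ → ℝ → ℝ,
      (∀ x ∈ I, ∀ y ∈ I, F x y ∈ I) →
      (∀ x ∈ I, F x x = x) →
      (∀ x ∈ I, ∀ y ∈ I, ∀ u ∈ I, ∀ v ∈ I,
        F (F x y) (F u v) = F (F x u) (F y v)) →
      (∀ x ∈ I, StrictMonoOn (F x) I) →
      (∀ y ∈ I, StrictMonoOn (fun x => F x y) I) →
      ContinuousOn (Function.uncurry F) (I ×ˢ I) := by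
  intro I hI F hm h1 h2 h3 h4
  have := Pool.Agent.H91.Bisym.compactIcc I hI
  let G : (Fin 2 → I) → I := fun v => ⟨F (v 0) (v 1), hm _ (v 0).2 _ (v 1).2⟩
  have hG : Continuous G := by
    apply Pool.Agent.H91.Bisym.Bis.continuous
    refine ⟨fun x => Subtype.ext (h1 x x.2), fun M => Subtype.ext ?_, fun x i a b hab => ?_⟩
    · exact h2 _ (M 0 0).2 _ (M 0 1).2 _ (M 1 0).2 _ (M 1 1).2
    · fin_cases i
      · exact h4 _ (x 1).2 a.2 b.2 hab
      · exact h3 _ (x 0).2 a.2 b.2 hab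
  rw [continuousOn_iff_continuous_restrict]
  have hc : Continuous (fun p : ↥(I ×ˢ I) => (![⟨p.1.1, p.2.1⟩, ⟨p.1.2, p.2.2⟩] : Fin 2 → I)) := by
    apply continuous_pi
    intro i
    fin_cases i
    · exact Continuous.subtype_mk (continuous_fst.comp continuous_subtype_val) _
    · exact Continuous.subtype_mk (continuous_snd.comp continuous_subtype_val) _
  exact continuous_subtype_val.comp (hG.comp hc)

end Pool.Agent.S05997
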