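import Pool.Statements.S06006
import Mathlib

set_option autoImplicit false
open MeasureTheory
open Pool Pool.MP_c09e54_an

namespace Pool.Agent.S06006

open Set Filter Topology

lemma isometry_form (f : ℝ → ℝ) (hf : Isometry f) :
    ∃ (ε : ℤ) (c : ℝ), (ε = 1 ∨ ε = -1) ∧ ∀ x, f x = ε * x + c := by
  have h : ∀ x y, (f x - f y) ^ 2 = (x - y) ^ 2 := by
    intro x y
    have := hf.dist_eq x y
    rw [Real.dist_eq, Real.dist_eq] at this
    rw [← sq_abs, this, sq_abs]
  have h1 := h 1 0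
  have h2 : f 1 - f 0 = 1 ∨ f 1 - f 0 = -1 := by
    apply sq_eq_sq_iff_eq_or_eq_neg.1; linarith
  rcases h2 with h2 | h2
  · refine ⟨1, f 0, Or.inl rfl, fun x => ?_⟩
    have a := h x 0
    have b := h x 1
    have : f 1 = f 0 + 1 := by linarith
    rw [this] at b
    push_cast; nlinarith
  · refine ⟨-1, f 0, Or.inr rfl, fun x => ?_⟩
    have a := h x 0
    have b := h x 1
    have : f 1 = f 0 - 1 := by linarith
    rw [this] at b
    push_cast; nlinarith

section growth
variable {ι : Type} [Fintype ι] [DecidableEq ι] (c : ι → ℝ)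

/-- index set of words of length parameter N -/
noncomputable def idx (ι : Type) [Fintype ι] [DecidableEq ι] (N : ℕ) : Finset (ℤ × (ι → ℤ)) :=
  ({1, -1} : Finset ℤ) ×ˢ Fintype.piFinset (fun _ : ι => Finset.Icc (-(N : ℤ)) N)

lemma card_idx (N : ℕ) : (idx ι N).card = 2 * (2 * N + 1) ^ Fintype.card ι := by
  rw [idx, Finset.card_product, Fintype.card_piFinset]
  simp only [Int.card_Icc, Finset.prod_const, Finset.card_univ]
  have : ((N : ℤ) + 1 - -(N : ℤ)).toNat = 2 * N + 1 := by omega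
  rw [this]; rfl

/-- the orbit piece mod 1 -/
noncomputable def orb (N : ℕ) (x : ℝ) : Finset ℝ := by
  classical
  exact (idx ι N).image (fun p => Int.fract (p.1 * x + ∑ j, p.2 j * c j))

lemma mem_orb (N : ℕ) (x y : ℝ) : y ∈ orb c N x ↔
    ∃ p ∈ idx ι N, Int.fract (p.1 * x + ∑ j, p.2 j * c j) = y := by
  simp [orb]

lemma card_orb (N : ℕ) (x : ℝ) : (orb c N x).card ≤ 2 * (2 * N + 1) ^ Fintype.card ι := by
  rw [← card_idx]; exact Finset.card_image_le

lemma orb_nonempty (N : ℕ) (x : ℝ) : (orb c N x).Nonempty := by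
  refine ⟨_, (mem_orb c N x _).2 ⟨(1, 0), ?_, rfl⟩⟩
  simp [idx]

lemma orb_step (N : ℕ) (x y : ℝ) (hy : y ∈ orb c N x) (δ η : ℤ) (hδ : δ = 1 ∨ δ = -1)
    (hη : |η| ≤ 1) (j : ι) : Int.fract (δ * y + η * c j) ∈ orb c (N + 1) x := by
  obtain ⟨⟨ε, m⟩, hp, rfl⟩ := (mem_orb c N x y).1 hy
  simp only [idx, Finset.mem_product, Finset.mem_insert, Finset.mem_singleton,
    Fintype.mem_piFinset, Finset.mem_Icc] at hp
  refine (mem_orb c (N + 1) x _).2 ⟨(δ * ε, fun i => δ * m i + if i = j then η else 0), ?_, ?_⟩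
  · simp only [idx, Finset.mem_product, Finset.mem_insert, Finset.mem_singleton,
      Fintype.mem_piFinset, Finset.mem_Icc]
    refine ⟨?_, fun i => ?_⟩
    · rcases hδ with rfl | rfl <;> rcases hp.1 with rfl | rfl <;> simp
    · have := hp.2 i
      have h2 := abs_le.1 hη
      rcases hδ with rfl | rfl <;> split_ifs <;> push_cast <;> constructor <;> omega
  · rw [Int.fract_eq_fract]
    refine ⟨δ * ⌊(ε : ℝ) * x + ∑ j, (m j : ℝ) * c j⌋, ?_⟩
    simp only [Int.fract]
    have : ∑ i, (((δ * m i + if i = j then η else 0 : ℤ)) : ℝ) * c i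
        = δ * ∑ i, (m i : ℝ) * c i + η * c j := by
      rw [Finset.mul_sum]
      have : ∀ i, (((δ * m i + if i = j then η else 0 : ℤ)) : ℝ) * c i
          = δ * ((m i : ℝ) * c i) + if i = j then η * c j else 0 := by
        intro i; split_ifs with h
        · subst h; push_cast; ring
        · push_cast; ring
      simp only [this, Finset.sum_add_distrib, Finset.sum_ite_eq', Finset.mem_univ, if_true]
    rw [this]; push_cast; ring

lemma orb_mono (N M : ℕ) (h : N ≤ M) (x : ℝ) : orb c N x ⊆ orb c M x := by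
  intro y hy
  obtain ⟨p, hp, rfl⟩ := (mem_orb c N x y).1 hy
  refine (mem_orb c M x _).2 ⟨p, ?_, rfl⟩
  simp only [idx, Finset.mem_product, Fintype.mem_piFinset, Finset.mem_Icc] at hp ⊢
  refine ⟨hp.1, fun i => ?_⟩
  have := hp.2 i
  constructor <;> omega

end growth

lemma exists_large (K : ℕ) : ∃ m : ℕ, 2 * (2 * (2 * m) + 1) ^ K < 2 ^ m := by
  have h := isLittleO_pow_const_const_pow_of_one_lt (R := ℝ) K (r := 2) (by norm_num)
  have h2 := h.def (c := 1 / (4 * 5 ^ K)) (by positivity)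
  obtain ⟨m, hm, hm1⟩ := (h2.and (eventually_ge_atTop 1)).exists
  refine ⟨m, ?_⟩
  simp only [norm_pow, Real.norm_natCast, Real.norm_ofNat] at hm
  have h3 : ((2 * (2 * m) + 1 : ℕ) : ℝ) ≤ 5 * m := by
    have : (1 : ℝ) ≤ m := by exact_mod_cast hm1
    push_cast; linarith
  have h4 : ((2 * (2 * m) + 1 : ℕ) : ℝ) ^ K ≤ 5 ^ K * m ^ K := by
    rw [← mul_pow]; gcongr
  have h5 : (5 : ℝ) ^ K * m ^ K ≤ 2 ^ m / 4 := by
    calc (5 : ℝ) ^ K * m ^ K ≤ 5 ^ K * (1 / (4 * 5 ^ K) * 2 ^ m) := by gcongr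
      _ = 2 ^ m / 4 := by field_simp
  have h6 : (0 : ℝ) < 2 ^ m := by positivity
  have : (2 : ℝ) * ((2 * (2 * m) + 1 : ℕ) : ℝ) ^ K < 2 ^ m := by linarith
  exact_mod_cast this

lemma exists_good (T : Finset (ℤ × ℝ)) (hT : ∀ p ∈ T, p.1 = 1 ∨ p.1 = -1) (W E : Set ℝ)
    (hW : IsOpen W) (hWd : Dense W) (hE : volume E = 0) :
    ∃ x : ℝ, ∀ p ∈ T, (p.1 * x + p.2) ∈ W ∧ (p.1 * x + p.2) ∉ E := by
  have h1 : ∀ᵐ x : ℝ, ∀ p ∈ T, (p.1 * x + p.2) ∉ E := by
    rw [eventually_all_finset]
    intro p hp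
    have h0 : volume ((fun x => x + p.2) ⁻¹' E) = 0 := by
      rw [measure_preimage_add_right]; exact hE
    rcases hT p hp with h | h
    · rw [h]; simp only [Int.cast_one, one_mul]
      exact measure_eq_zero_iff_ae_notMem.1 h0
    · rw [h]; simp only [Int.cast_neg, Int.cast_one, neg_mul, one_mul]
      have : volume ((fun x : ℝ => -x) ⁻¹' ((fun x => x + p.2) ⁻¹' E)) = 0 := by
        rw [Measure.measure_preimage_neg]; exact h0
      exact measure_eq_zero_iff_ae_notMem.1 this
  have h2 := Measure.dense_of_ae h1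
  have h3 : Dense (⋂ p ∈ T, (fun x : ℝ => (p.1 : ℝ) * x + p.2) ⁻¹' W) := by
    refine dense_biInter_of_isOpen (S := (T : Set (ℤ × ℝ))) ?_ T.countable_toSet ?_
    · intro p _
      exact hW.preimage (by fun_prop)
    · intro p hp
      have hne : (p.1 : ℝ) ≠ 0 := by rcases hT p hp with h | h <;> simp [h]
      exact hWd.preimage ((Homeomorph.mulLeft₀ _ hne).trans (Homeomorph.addRight p.2)).isOpenMap
  have h4 : IsOpen (⋂ p ∈ T, (fun x : ℝ => (p.1 : ℝ) * x + p.2) ⁻¹' W) :=
    isOpen_biInter_finset (fun p _ => hW.preimage (by fun_prop))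
  obtain ⟨x, hx1, hx2⟩ := h2.inter_open_nonempty _ h4 h3.nonempty
  refine ⟨x, fun p hp => ⟨?_, hx2 p hp⟩⟩
  exact (mem_iInter₂.1 hx1) p hp

theorem result :
    ¬ (∀ A B : Set ℝ, NullMeasurableSet A volume → NullMeasurableSet B volume →
      Bornology.IsBounded A → Bornology.IsBounded B → volume A = volume B →
      ∃ E₁ E₂ : Set ℝ, volume E₁ = 0 ∧ volume E₂ = 0 ∧
        ∃ (n : ℕ) (P : Fin n → Set ℝ) (f : Fin n → ℝ → ℝ),
          (∀ i, NullMeasurableSet (P i) volume) ∧
          (∀ i, Isometry (f i)) ∧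
          Pairwise (fun i j => Disjoint (P i) (P j)) ∧
          Pairwise (fun i j => Disjoint (f i '' P i) (f j '' P j)) ∧
          (⋃ i, P i) = A \ E₁ ∧
          (⋃ i, f i '' P i) = B \ E₂) := by
  classical
  intro h
  have hQ : volume (range ((↑) : ℚ → ℝ)) < ENNReal.ofReal (1 / 2) := by
    rw [(countable_range _).measure_zero]; simp
  obtain ⟨V, hQV, hVo, hV⟩ := Set.exists_isOpen_lt_of_lt _ _ hQ
  set B : Set ℝ := V ∩ Ioo 0 1 with hB
  have hBo : IsOpen B := hVo.inter isOpen_Ioo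
  have hBv : volume B < ENNReal.ofReal (1 / 2) := (measure_mono inter_subset_left).trans_lt hV
  set a : ℝ := (volume B).toReal with ha
  have hBne : volume B ≠ ⊤ := hBv.ne_top
  have ha2 : a < 1 / 2 := ENNReal.toReal_lt_of_lt_ofReal hBv
  obtain ⟨E₁, E₂, -, hE₂, n, P, f, -, hf, hP, -, hA, hBf⟩ := h (Icc 0 a) B
    measurableSet_Icc.nullMeasurableSet hBo.measurableSet.nullMeasurableSet
    (Metric.isBounded_Icc 0 a) ((Metric.isBounded_Ioo 0 1).subset inter_subset_right)
    (by rw [Real.volume_Icc, sub_zero, ha, ENNReal.ofReal_toReal hBne])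
  choose ε c hε hfc using fun i => isometry_form (f i) (hf i)
  let d : Option (Fin n) → ℝ := fun o => o.elim (1 / 2) c
  obtain ⟨m, hm⟩ := exists_large (Fintype.card (Option (Fin n)))
  -- periodized sets
  let W : Set ℝ := ⋃ k : ℤ, (fun t : ℝ => t - k) ⁻¹' B
  let E : Set ℝ := ⋃ k : ℤ, (fun t : ℝ => t - k) ⁻¹' E₂
  have hWo : IsOpen W := isOpen_iUnion (fun k => hBo.preimage (by fun_prop))
  have hWd : Dense W := by
    have h1 : Dense (range ((↑) : ℤ → ℝ))ᶜ := (countable_range _).dense_compl ℝ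
    have h2 : IsOpen (range ((↑) : ℤ → ℝ))ᶜ := Int.isClosedEmbedding_coe_real.isClosed_range.isOpen_compl
    refine (Rat.denseRange_cast.inter_of_isOpen_right h1 h2).mono ?_
    rintro _ ⟨⟨q, rfl⟩, hq⟩
    refine mem_iUnion.2 ⟨⌊(q : ℝ)⌋, ?_, ?_, ?_⟩
    · exact hQV ⟨q - ⌊(q : ℝ)⌋, by push_cast; rfl⟩
    · have := Int.floor_le (q : ℝ)
      rcases this.lt_or_eq with h | h
      · exact sub_pos.2 h
      · exact absurd ⟨_, h⟩ hq
    · have := Int.lt_floor_add_one (q : ℝ)
      show (q : ℝ) - _ < 1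
      linarith
  have hE : volume E = 0 := by
    refine measure_iUnion_null (fun k => ?_)
    simp only [sub_eq_add_neg]
    rw [measure_preimage_add_right]; exact hE₂
  obtain ⟨x, hx⟩ := exists_good
    ((idx (Option (Fin n)) (2 * m)).image (fun p => (p.1, ∑ j, p.2 j * d j))) (by
      intro p hp
      obtain ⟨q, hq, rfl⟩ := Finset.mem_image.1 hp
      simp only [idx, Finset.mem_product, Finset.mem_insert, Finset.mem_singleton] at hq
      exact hq.1) W E hWo hWd hE
  have hgood : ∀ y ∈ orb d (2 * m) x, y ∈ B \ E₂ := by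
    intro y hy
    obtain ⟨p, hp, rfl⟩ := (mem_orb d _ x y).1 hy
    obtain ⟨h1, h2⟩ := hx _ (Finset.mem_image_of_mem _ hp)
    simp only at h1 h2
    constructor
    · obtain ⟨k, hk⟩ := mem_iUnion.1 h1
      have hk' := hk.2
      have : Int.fract ((p.1 : ℝ) * x + ∑ j, p.2 j * d j) = (p.1 : ℝ) * x + ∑ j, p.2 j * d j - k := by
        rw [Int.fract_eq_iff]
        exact ⟨hk'.1.le, hk'.2, k, by ring⟩
      rw [this]; exact hk
    · intro hmem
      exact h2 (mem_iUnion.2 ⟨_, hmem⟩)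
  have hstep : ∀ N, N + 2 ≤ 2 * m → 2 * (orb d N x).card ≤ (orb d (N + 2) x).card := by
    intro N hN
    have hex : ∀ y ∈ orb d N x, ∃ p, ∃ i, p ∈ P i ∧ f i p = y := by
      intro y hy
      have := hgood y (orb_mono d _ _ (by omega) x hy)
      rw [← hBf] at this
      obtain ⟨i, p, hp, hpy⟩ := mem_iUnion.1 this
      exact ⟨p, i, hp, hpy⟩
    choose! g hg using hex
    have hrange : ∀ y ∈ orb d N x, 0 ≤ g y ∧ g y < 1 / 2 := by
      intro y hy
      obtain ⟨i, hi, -⟩ := hg y hy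
      have : g y ∈ Icc 0 a \ E₁ := by rw [← hA]; exact mem_iUnion.2 ⟨i, hi⟩
      exact ⟨this.1.1, this.1.2.trans_lt ha2⟩
    have hinj : Set.InjOn g (orb d N x) := by
      intro y hy z hz hyz
      obtain ⟨i, hi, hi2⟩ := hg y hy
      obtain ⟨j, hj, hj2⟩ := hg z hz
      by_cases hij : i = j
      · subst hij; rw [← hi2, ← hj2, hyz]
      · exact absurd (hyz ▸ hi) (fun h' => Set.disjoint_left.1 (hP hij) h' hj)
    have hmem1 : ∀ y ∈ orb d N x, g y ∈ orb d (N + 1) x := by
      intro y hy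
      obtain ⟨i, -, hi2⟩ := hg y hy
      have h1 := orb_step d N x y hy (ε i) (-ε i) (hε i)
        (by rcases hε i with h | h <;> simp [h]) (some i)
      have h2 : ((ε i : ℤ) : ℝ) * y + ((-ε i : ℤ) : ℝ) * d (some i) = g y := by
        have h3 : d (some i) = c i := rfl
        rw [h3]
        nth_rewrite 1 [← hi2]
        rw [hfc]
        rcases hε i with h | h <;> simp [h]
      rw [h2, Int.fract_eq_self.2 ⟨(hrange y hy).1, by linarith [(hrange y hy).2]⟩] at h1
      exact h1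
    have hmem2 : ∀ y ∈ orb d N x, g y + 1 / 2 ∈ orb d (N + 2) x := by
      intro y hy
      have h1 := orb_step d (N + 1) x _ (hmem1 y hy) 1 1 (Or.inl rfl) (by simp) none
      have h3 : d none = 1 / 2 := rfl
      rw [h3] at h1
      simp only [Int.cast_one, one_mul] at h1
      rw [Int.fract_eq_self.2 ⟨by linarith [(hrange y hy).1], by linarith [(hrange y hy).2]⟩] at h1
      exact h1
    have hc1 : ((orb d N x).image g).card = (orb d N x).card := Finset.card_image_of_injOn hinj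
    have hc2 : ((orb d N x).image (fun y => g y + 1 / 2)).card = (orb d N x).card :=
      Finset.card_image_of_injOn (fun y hy z hz hyz => hinj hy hz (by simpa using hyz))
    have hdisj : Disjoint ((orb d N x).image g) ((orb d N x).image (fun y => g y + 1 / 2)) := by
      rw [Finset.disjoint_left]
      intro t ht1 ht2
      obtain ⟨y, hy, rfl⟩ := Finset.mem_image.1 ht1
      obtain ⟨z, hz, hyz⟩ := Finset.mem_image.1 ht2
      linarith [(hrange y hy).2, (hrange z hz).1]
    have hsub : (orb d N x).image g ∪ (orb d N x).image (fun y => g y + 1 / 2)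
        ⊆ orb d (N + 2) x := by
      intro t ht
      rcases Finset.mem_union.1 ht with ht | ht
      · obtain ⟨y, hy, rfl⟩ := Finset.mem_image.1 ht
        exact orb_mono d _ _ (by omega) x (hmem1 y hy)
      · obtain ⟨y, hy, rfl⟩ := Finset.mem_image.1 ht
        exact hmem2 y hy
    have := Finset.card_le_card hsub
    rw [Finset.card_union_of_disjoint hdisj, hc1, hc2] at this
    omega
  have hpow : ∀ k, k ≤ m → 2 ^ k ≤ (orb d (2 * k) x).card := by
    intro k
    induction k with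
    | zero => intro _; exact (orb_nonempty d _ x).card_pos
    | succ k ih =>
      intro hk
      have h1 := ih (by omega)
      have h2 := hstep (2 * k) (by omega)
      rw [pow_succ, show 2 * (k + 1) = 2 * k + 2 by ring]
      omega
  have h1 := hpow m le_rfl
  have h2 := card_orb d (2 * m) x
  omega

end Pool.Agent.S06006
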