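import Pool.Statements.S06028
import Pool.Agent.H88.Berg4

set_option autoImplicit false
open Pool Pool.MP_c1f8f0_an

namespace Pool.Agent.S06028

theorem result :
    ¬ (∀ w σ : ℂ → ℝ,
    ((∀ z ∈ Metric.ball (0:ℂ) 1, 0 ≤ w z) ∧ UpperSemicontinuousOn w (Metric.ball (0:ℂ) 1) ∧
      ∀ z : ℂ, ∀ r : ℝ, 0 < r → Metric.closedBall z r ⊆ Metric.ball (0:ℂ) 1 →
        w z ≤ (2 * Real.pi)⁻¹ *
          ∫ θ in (0:ℝ)..2 * Real.pi, w (z + (r:ℂ) * Complex.exp ((θ:ℂ) * Complex.I))) →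
    ((∀ z ∈ Metric.ball (0:ℂ) 1, 0 ≤ σ z) ∧ UpperSemicontinuousOn σ (Metric.ball (0:ℂ) 1) ∧
      ∀ z : ℂ, ∀ r : ℝ, 0 < r → Metric.closedBall z r ⊆ Metric.ball (0:ℂ) 1 →
        σ z ≤ (2 * Real.pi)⁻¹ *
          ∫ θ in (0:ℝ)..2 * Real.pi, σ (z + (r:ℂ) * Complex.exp ((θ:ℂ) * Complex.I))) →
    ((∃ C : NNReal, ∀ f : ℂ → ℂ, Measurable f → (∃ M : ℝ, ∀ z, ‖f z‖ ≤ M) →
        (∃ s : ℝ, s < 1 ∧ ∀ z : ℂ, s < ‖z‖ → f z = 0) →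
        ∫⁻ z in Metric.ball (0:ℂ) 1,
            ‖∫ ζ in Metric.ball (0:ℂ) 1,
                f ζ * (σ ζ : ℂ) / (1 - z * starRingEnd ℂ ζ) ^ 2‖ₑ ^ 2 * ENNReal.ofReal (w z)
          ≤ (C : ENNReal) * ∫⁻ ζ in Metric.ball (0:ℂ) 1, ‖f ζ‖ₑ ^ 2 * ENNReal.ofReal (σ ζ)) ↔
     (∃ C : NNReal, ∀ f : ℂ → ℂ, Measurable f → (∃ M : ℝ, ∀ z, ‖f z‖ ≤ M) →
        (∃ s : ℝ, s < 1 ∧ ∀ z : ℂ, s < ‖z‖ → f z = 0) →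
        ∫⁻ z in Metric.ball (0:ℂ) 1,
            (∫⁻ ζ in Metric.ball (0:ℂ) 1,
                ‖f ζ‖ₑ * ENNReal.ofReal (σ ζ) / ‖1 - z * starRingEnd ℂ ζ‖ₑ ^ 2) ^ 2
              * ENNReal.ofReal (w z)
          ≤ (C : ENNReal) * ∫⁻ ζ in Metric.ball (0:ℂ) 1, ‖f ζ‖ₑ ^ 2 * ENNReal.ofReal (σ ζ)))) := by
  intro H
  obtain ⟨N, hN, hbig⟩ := Pool.Agent.H88.Berg.exists_N
  have h1 := H Pool.Agent.H88.Berg.ww (fun z => ‖1 - z‖ ^ 4 * Pool.Agent.H88.Berg.st N z)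
    ⟨fun z hz => (Pool.Agent.H88.Berg.ww_pos hz).le,
      Pool.Agent.H88.Berg.ww_cont.upperSemicontinuousOn, Pool.Agent.H88.Berg.ww_sub⟩
    ⟨fun z hz => (Pool.Agent.H88.Berg.sig_pos hN hz).le,
      (Pool.Agent.H88.Berg.sig_cont N).upperSemicontinuousOn, Pool.Agent.H88.Berg.sig_sub N⟩
  obtain ⟨C, hC⟩ := Pool.Agent.H88.Berg.upper' N
  obtain ⟨C', hC'⟩ := h1.1 ⟨C, fun f hf hM _ => hC f hf hM⟩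
  exact Pool.Agent.H88.Berg.no_bound hbig C'
    (fun f z => ∫⁻ ζ in Metric.ball (0:ℂ) 1,
      ‖f ζ‖ₑ * ENNReal.ofReal (‖1 - ζ‖ ^ 4 * Pool.Agent.H88.Berg.st N ζ)
        / ‖1 - z * starRingEnd ℂ ζ‖ₑ ^ 2)
    (fun s _ hs1 z hz => Pool.Agent.H88.Berg.T_lin N s hs1 z hz) hC'

end Pool.Agent.S06028
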