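import Pool.Statements.S06033
import Pool.Agent.H26.Bo4

set_option autoImplicit false
open Pool Pool.MP_c2be6c_an

namespace Pool.Agent.S06033

/-- Some complex Hilbert space has a family of closed subspaces with all of the following properties. It is a distributive complemented lattice under intersection and closed span, complete as a lattice, and has a strongly closed set of projections. Yet some closed subspace outside the family is invarian -/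
theorem result :
  ∃ (H : Type) (_ : NormedAddCommGroup H) (_ : InnerProductSpace ℂ H) (_ : CompleteSpace H)
    (E : Set (Submodule ℂ H)),
    (∀ M ∈ E, IsClosed (M : Set H)) ∧
    (⊥ : Submodule ℂ H) ∈ E ∧ (⊤ : Submodule ℂ H) ∈ E ∧
    (∀ A ∈ E, ∀ B ∈ E, A ⊓ B ∈ E) ∧
    (∀ A ∈ E, ∀ B ∈ E, (A ⊔ B).topologicalClosure ∈ E) ∧
    (∀ A ∈ E, ∀ B ∈ E, ∀ C ∈ E,
      A ⊓ (B ⊔ C).topologicalClosure = ((A ⊓ B) ⊔ (A ⊓ C)).topologicalClosure) ∧
    (∀ A ∈ E, ∃ B ∈ E, A ⊓ B = ⊥ ∧ (A ⊔ B).topologicalClosure = ⊤) ∧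
    (∀ S ⊆ E, ∃ M ∈ E, (∀ N ∈ S, N ≤ M) ∧ ∀ M' ∈ E, (∀ N ∈ S, N ≤ M') → M ≤ M') ∧
    (∀ M : Submodule ℂ H, IsClosed (M : Set H) →
      (∀ s : Finset H, ∀ ε : ℝ, 0 < ε → ∃ N ∈ E, ∀ x ∈ s, ∀ y z : H,
        y ∈ N → x - y ∈ N.orthogonal → z ∈ M → x - z ∈ M.orthogonal → ‖y - z‖ < ε) →
      M ∈ E) ∧
    ∃ M : Submodule ℂ H, IsClosed (M : Set H) ∧ M ∉ E ∧
      ∀ T : H →L[ℂ] H, (∀ N ∈ E, ∀ x ∈ N, T x ∈ N) → ∀ x ∈ M, T x ∈ M := by
  open Pool.Agent.H26.Bo MeasureTheory in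
  · classical
    let X := WithLp 2 (Lp ℂ 2 mu × WithLp 2 (K × Lp ℂ 2 mu))
    let q1 : X →L[ℂ] Lp ℂ 2 mu := WithLp.fstL 2 ℂ _ _
    let q2 : X →L[ℂ] K := WithLp.fstL 2 ℂ _ _ ∘L WithLp.sndL 2 ℂ _ _
    let q3 : X →L[ℂ] Lp ℂ 2 mu := WithLp.sndL 2 ℂ _ _ ∘L WithLp.sndL 2 ℂ _ _
    let S : Submodule ℂ X :=
      { carrier := {x | Rel (RR (q1 x)) (q2 x)}
        add_mem' := fun ha hb => by
          simp only [Set.mem_ofPred_eq, map_add] at *
          exact ha.add hb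
        zero_mem' := by
          simp only [Set.mem_ofPred_eq, map_zero]
          exact rel_zero
        smul_mem' := fun c x hx k => by
          rw [map_smul, map_smul, map_smul, lp.coeFn_smul, lp.coeFn_smul, Pi.smul_apply, Pi.smul_apply, hx k,
            smul_eq_mul, smul_eq_mul, mul_div_assoc] }
    have ev : ∀ k : ℕ, Continuous fun c : K => c k := fun k =>
      (continuous_apply k).comp lp.uniformContinuous_coe.continuous
    have hS : IsClosed (S : Set X) := by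
      show IsClosed {x | ∀ k : ℕ, RR (q1 x) k = q2 x k / ((k : ℂ) + 1)}
      rw [Set.setOf_forall]
      exact isClosed_iInter fun k => isClosed_eq ((ev k).comp (RR.continuous.comp q1.continuous))
        (((ev k).comp q2.continuous).div_const _)
    haveI : CompleteSpace S := hS.completeSpace_coe
    let p1 : S →L[ℂ] Lp ℂ 2 mu := q1 ∘L S.subtypeL
    let p2 : S →L[ℂ] K := q2 ∘L S.subtypeL
    let p3 : S →L[ℂ] Lp ℂ 2 mu := q3 ∘L S.subtypeL
    have hT : Tr (H := S) RR p1 p2 p3 := by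
      refine ⟨fun x y => ?_, fun x => x.2,
        fun f z v h => ⟨⟨WithLp.toLp 2 (f, WithLp.toLp 2 (z, v)), h⟩, rfl, rfl, rfl⟩⟩
      rw [Submodule.coe_inner, WithLp.prod_inner_apply, WithLp.prod_inner_apply, add_assoc]; rfl
    have hc : ∀ M ∈ Set.range (MM (H := S) (QQ mu) p1 p3), IsClosed (M : Set S) := by
      rintro _ ⟨E, rfl⟩; exact MM_closed E
    have hb : (⊥ : Submodule ℂ S) ∈ Set.range (MM (H := S) (QQ mu) p1 p3) := ⟨⊥, MM_bot sp hT⟩
    have hj : ∀ A ∈ Set.range (MM (H := S) (QQ mu) p1 p3), ∀ B ∈ Set.range (MM (H := S) (QQ mu) p1 p3),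
        (A ⊔ B).topologicalClosure ∈ Set.range (MM (H := S) (QQ mu) p1 p3) := by
      rintro _ ⟨E, rfl⟩ _ ⟨F, rfl⟩; exact ⟨_, (MM_sup sp hT E F).symm⟩
    refine ⟨S, inferInstance, inferInstance, inferInstance, Set.range (MM (H := S) (QQ mu) p1 p3), hc, hb,
      ⟨⊤, MM_top sp⟩, ?_, hj, ?_, ?_, compl_of _ hc hb hj (strong sp hT), strong sp hT,
      LinearMap.ker (p1 : S →ₗ[ℂ] Lp ℂ 2 mu), p1.isClosed_ker, ker_not sp hT,
      fun T h x hx => inv_ker sp hT T h hx⟩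
    · rintro _ ⟨E, rfl⟩ _ ⟨F, rfl⟩; exact ⟨_, (MM_inf sp E F).symm⟩
    · rintro _ ⟨E, rfl⟩ _ ⟨F, rfl⟩ _ ⟨G, rfl⟩
      rw [MM_sup sp hT, MM_inf sp, MM_inf sp, MM_inf sp, MM_sup sp hT, inf_sup_left]
    · rintro _ ⟨E, rfl⟩
      refine ⟨_, ⟨Eᶜ, rfl⟩, ?_, ?_⟩
      · rw [MM_inf sp, inf_compl_eq_bot, MM_bot sp hT]
      · rw [MM_sup sp hT, sup_compl_eq_top, MM_top sp]

end Pool.Agent.S06033
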