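import Pool.Statements.S06045
import Pool.Agent.H99.Ein3

set_option autoImplicit false
open Filter Topology
open Pool Pool.MP_c3b115_an

namespace Pool.Agent.S06045

open Pool.Agent.H99.Ein Complex Metric Set

theorem exists_enum : ∃ t : ℕ → ℂ, Function.Injective t ∧ (∀ n, t n ≠ 0) ∧
    Tendsto t atTop (cocompact ℂ) ∧ ∀ z, G z = 0 → z ∈ range t := by
  set T : Set ℂ := {z | G z = 0} ∪ range fun n : ℕ => (n + 1 : ℂ) with hT
  have hfin : ∀ K : Set ℂ, IsCompact K → (K ∩ T).Finite := by
    intro K hK
    rw [hT, inter_union_distrib_left]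
    refine (finite_zeros G_deriv (fun z => exp_ne_zero _) hK).union ?_
    obtain ⟨R, hR⟩ := hK.isBounded.subset_closedBall 0
    obtain ⟨N, hN⟩ := exists_nat_gt R
    refine ((finite_lt_nat N).image fun n : ℕ => (n + 1 : ℂ)).subset ?_
    rintro _ ⟨h, n, rfl⟩
    refine ⟨n, ?_, rfl⟩
    have h1 := (re_le_norm _).trans (mem_closedBall_zero_iff.1 (hR h))
    simp only [add_re, natCast_re, one_re] at h1
    have : (n : ℝ) < N := by linarith
    exact_mod_cast this
  have hc : T.Countable := by
    have : T = ⋃ n : ℕ, closedBall 0 n ∩ T := by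
      rw [← iUnion_inter, iUnion_closedBall_nat, univ_inter]
    rw [this]
    exact countable_iUnion fun n => (hfin _ (isCompact_closedBall _ _)).countable
  have hi : T.Infinite := (infinite_range_of_injective (f := fun n : ℕ => (n + 1 : ℂ))
    fun a b h => by simpa using h).mono subset_union_right
  have := hc.to_subtype
  have := hi.to_subtype
  obtain ⟨e⟩ : Nonempty (ℕ ≃ T) := nonempty_equiv_of_countable
  have hinj : Function.Injective fun n => (e n : ℂ) := Subtype.val_injective.comp e.injective
  refine ⟨fun n => e n, hinj, fun n h => ?_, ?_, fun z hz => ⟨e.symm ⟨z, Or.inl hz⟩, by simp⟩⟩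
  · beta_reduce at h
    rcases (e n).2 with h1 | ⟨m, h1⟩
    · rw [h, mem_ofPred_eq, G_zero] at h1; exact one_ne_zero h1
    · rw [h] at h1; exact Nat.cast_add_one_ne_zero m h1
  · rw [← Nat.cofinite_eq_atTop, hasBasis_cocompact.tendsto_right_iff]
    intro K hK
    refine ((hfin K hK).preimage hinj.injOn).subset fun n hn => ⟨?_, (e n).2⟩
    simpa using hn

/-- There exist complex sequences c, t with t nonzero, t tending to infinity, and sum ∣c_n∣/∣t_n∣^2 finite, such that f(z)=sum c_n/(z-t_n)^2 has infinite Nevanlinna order and only finitely many zeros. -/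
theorem result :
    ∃ (c t : ℕ → ℂ), (∀ n, t n ≠ 0) ∧ Tendsto t atTop (cocompact ℂ) ∧
      Summable (fun n => ‖c n‖ / ‖t n‖ ^ 2) ∧
      (∀ ρ : ℝ, ∀ R : ℝ, ∃ r > R,
        r ^ ρ < ValueDistribution.characteristic
          (fun z : ℂ => ∑' n, c n / (z - t n) ^ 2) ⊤ r) ∧
      {z : ℂ | 0 < meromorphicOrderAt (fun w : ℂ => ∑' n, c n / (w - t n) ^ 2) z}.Finite := by
  obtain ⟨t, hinj, h0, hlim, hZ⟩ := exists_enum
  set f0 : ℂ → ℂ := fun z => exp (exp z) / G z ^ 2 with hf0
  have hf : ∀ z, G z ≠ 0 →
      ∑' n, coef G (fun z => exp (exp z)) (t n) / (z - t n) ^ 2 = f0 z := by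
    intro z hz
    refine HasSum.tsum_eq ?_
    refine (hinj.hasSum_iff (f := fun s => coef G (fun z => exp (exp z)) s / (z - s) ^ 2)
      fun s hs => ?_).2 (expansion hz)
    rw [coef, if_neg fun h => hs (hZ s h), zero_div]
  have hne : ∀ z, ∀ᶠ w in 𝓝[≠] z, G w ≠ 0 := fun z =>
    (G_deriv z).eventually_ne (exp_ne_zero _)
  refine ⟨fun n => coef G (fun z => exp (exp z)) (t n), t, h0, hlim,
    summable_coef.comp_injective hinj, fun ρ R => ?_, ?_⟩
  · have hcod : (fun z : ℂ => ∑' n, coef G (fun z => exp (exp z)) (t n) / (z - t n) ^ 2)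
        =ᶠ[codiscrete ℂ] f0 := by
      rw [EventuallyEq, Filter.Eventually, mem_codiscrete]
      intro z
      rw [disjoint_principal_right, compl_compl]
      filter_upwards [hne z] with w hw using hf w hw
    have hG : Differentiable ℂ G := fun z => (G_deriv z).differentiableAt
    have hm : Meromorphic f0 := fun z =>
      ((differentiable_exp.cexp).analyticAt z).meromorphicAt.div
        ((hG.analyticAt z).meromorphicAt.pow 2)
    set C := max |Real.log ‖f0 0‖| |Real.log ‖meromorphicTrailingCoeffAt f0 0‖| with hC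
    have hC0 : 0 ≤ C := le_max_of_le_left (abs_nonneg _)
    obtain ⟨r, h1, h2, h3⟩ := ((eventually_gt_atTop R).and ((eventually_ge_atTop 10).and
      ((tendsto_exp_div_rpow_atTop (|ρ| + 1)).eventually_gt_atTop
        (8 * Real.pi * Real.exp 1 * (1 + C))))).exists
    have hr0 : 0 < r := by linarith
    refine ⟨r, h1, ?_⟩
    rw [ValueDistribution.characteristic_congr_codiscrete hcod hr0.ne']
    have h4 := abs_le.1 (ValueDistribution.characteristic_sub_characteristic_inv_le hm (R := r))
    have h5 := prox_lower h2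
    have h6 : ValueDistribution.proximity f0⁻¹ ⊤ r ≤ ValueDistribution.characteristic f0⁻¹ ⊤ r :=
      le_add_of_nonneg_right (ValueDistribution.logCounting_nonneg (by linarith))
    have h7 : r ^ ρ ≤ r ^ |ρ| := Real.rpow_le_rpow_of_exponent_le (by linarith) (le_abs_self ρ)
    have h8 : 1 ≤ r ^ |ρ| := Real.one_le_rpow (by linarith) (abs_nonneg ρ)
    have h9 : (1 + C) * r ^ |ρ| < Real.exp (r - 1) / (8 * Real.pi * r) := by
      rw [lt_div_iff₀ (by positivity), Real.rpow_add hr0, Real.rpow_one] at h3
      rw [Real.exp_sub, div_div, lt_div_iff₀ (by positivity)]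
      linarith
    rw [← hC] at h4
    nlinarith [h4.1]
  · convert finite_empty
    ext z
    simp only [mem_ofPred_eq, mem_empty_iff_false, iff_false]
    intro hz
    have h1 := (tendsto_zero_of_meromorphicOrderAt_pos hz).mul
      (((G_cont.pow 2).tendsto z).mono_left nhdsWithin_le_nhds)
    have h2 : Tendsto (fun w => exp (exp w)) (𝓝[≠] z) (𝓝 (exp (exp z))) :=
      ((continuous_exp.comp continuous_exp).tendsto z).mono_left nhdsWithin_le_nhds
    rw [zero_mul] at h1
    refine exp_ne_zero _ (tendsto_nhds_unique h2 (h1.congr' ?_))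
    filter_upwards [hne z] with w hw
    rw [hf w hw, hf0, Pi.pow_apply]
    field_simp

end Pool.Agent.S06045
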