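import Pool.Statements.S06057

set_option autoImplicit false
open Pool Pool.MP_c42e77_an

namespace Pool.Agent.S06057

open Filter Topology

theorem exists_dense_in_itself (Q : Set (ℕ → Bool)) (hQ : ¬ Q.Countable) :
    ∃ R : Set (ℕ → Bool), R ⊆ Q ∧ R.Nonempty ∧
      ∀ p ∈ R, ∀ m : ℕ, ∃ p' ∈ R, p' ≠ p ∧ ∀ i < m, p' i = p i := by
  let R : Set (ℕ → Bool) := {p ∈ Q | ∀ m : ℕ, ¬ {p' ∈ Q | ∀ i < m, p' i = p i}.Countable}
  have hc : (Q \ R).Countable := by
    have : Q \ R ⊆ ⋃ m : ℕ, ⋃ w : Fin m → Bool,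
        ⋃ (_ : {p' ∈ Q | ∀ i : Fin m, p' i = w i}.Countable), {p' ∈ Q | ∀ i : Fin m, p' i = w i} := by
      rintro p ⟨hp, hpR⟩
      simp only [R, Set.mem_setOf_eq, not_and, not_forall, not_not] at hpR
      obtain ⟨m, hm⟩ := hpR hp
      simp only [Set.mem_iUnion]
      refine ⟨m, fun i => p i, hm.mono ?_, hp, fun _ => rfl⟩
      exact fun p' hp' => ⟨hp'.1, fun i hi => hp'.2 ⟨i, hi⟩⟩
    refine Set.Countable.mono this ?_
    refine Set.countable_iUnion fun m => Set.countable_iUnion fun w => ?_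
    by_cases h : {p' ∈ Q | ∀ i : Fin m, p' i = w i}.Countable
    · simpa [h] using h
    · simp [h]
  refine ⟨R, fun p hp => hp.1, ?_, ?_⟩
  · by_contra h
    rw [Set.not_nonempty_iff_eq_empty] at h
    rw [h, Set.diff_empty] at hc
    exact hQ hc
  · intro p hp m
    by_contra h
    push Not at h
    apply hp.2 m
    refine (hc.union (Set.countable_singleton p)).mono ?_
    rintro p' ⟨h1, h2⟩
    by_cases h3 : p' ∈ R
    · right
      by_contra h4
      obtain ⟨i, hi, h5⟩ := h p' h3 h4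
      exact h5 (h2 i hi)
    · exact Or.inl ⟨h1, h3⟩

theorem step (R : Set (ℕ → Bool)) (b : Bool) (x : ℕ → ℝ) (hx : ∀ n, 0 < x n)
    (hx0 : Tendsto x atTop (𝓝 0))
    (hR : ∀ p ∈ R, ∀ m : ℕ, ∃ p' ∈ R, p' ≠ p ∧ ∀ i < m, p' i = p i)
    (hU : ∀ p ∈ R, {n | p n = b} ∈ hyperfilter ℕ) (k : ℕ)
    (s : {s : ℕ × ((ℕ → Bool) → (ℕ → Bool)) // (Set.range s.2).Finite ∧ ∀ η, s.2 η ∈ R}) :
    ∃ s' : {s : ℕ × ((ℕ → Bool) → (ℕ → Bool)) // (Set.range s.2).Finite ∧ ∀ η, s.2 η ∈ R},
      ∃ n, s.1.1 ≤ n ∧ n < s'.1.1 ∧ (∀ i < s.1.1, x n ≤ x i / 3) ∧ (∀ η, s.1.2 η n = b) ∧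
        (∀ η, ∀ i ≤ n, s'.1.2 η i = s.1.2 η i) ∧
        ∀ η τ, s.1.2 η = s.1.2 τ → (η k = τ k → s'.1.2 η = s'.1.2 τ) ∧
          (η k ≠ τ k → ∃ i < s'.1.1, s'.1.2 η i ≠ s'.1.2 τ i) := by
  obtain ⟨⟨m, q⟩, hfin, hq⟩ := s
  simp only at hfin hq ⊢
  have h1 : ∀ᶠ n in (hyperfilter ℕ : Filter ℕ), ∀ p ∈ Set.range q, p n = b := by
    rw [eventually_all_finite hfin]
    rintro p ⟨η, rfl⟩
    exact hU _ (hq η)
  have h2 : ∀ᶠ n in atTop, m ≤ n ∧ ∀ i ∈ Set.Iio m, x n ≤ x i / 3 := by
    refine (eventually_ge_atTop m).and ?_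
    rw [eventually_all_finite (Set.finite_Iio m)]
    intro i _
    exact hx0.eventually (ge_mem_nhds (by linarith [hx i]))
  have h3 : (hyperfilter ℕ : Filter ℕ) ≤ atTop := Nat.hyperfilter_le_atTop
  obtain ⟨n, hn1, hn2, hn3⟩ := (h1.and (h3 h2)).exists
  choose! alt halt hne hag using fun p hp => hR p hp (n + 1)
  have h4 : ∀ᶠ M in atTop, ∀ p ∈ Set.range q, ∃ i < M, alt p i ≠ p i := by
    rw [eventually_all_finite hfin]
    rintro p ⟨η, rfl⟩
    obtain ⟨i, hi⟩ := Function.ne_iff.mp (hne _ (hq η))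
    filter_upwards [eventually_gt_atTop i] with M hM
    exact ⟨i, hM, hi⟩
  obtain ⟨M, hM1, hM2⟩ := (h4.and (eventually_gt_atTop n)).exists
  refine ⟨⟨(M, fun η => if η k then alt (q η) else q η), ?_, ?_⟩, n, hn2, hM2, hn3,
    fun η => hn1 _ ⟨η, rfl⟩, ?_, ?_⟩
  · refine (hfin.union (hfin.image alt)).subset ?_
    rintro _ ⟨η, rfl⟩
    simp only
    split_ifs
    · exact Or.inr ⟨_, ⟨η, rfl⟩, rfl⟩
    · exact Or.inl ⟨η, rfl⟩
  · intro η
    simp only
    split_ifs
    · exact halt _ (hq η)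
    · exact hq η
  · intro η i hi
    simp only
    split_ifs
    · exact hag _ (hq η) i (by omega)
    · rfl
  · intro η τ h
    simp only
    refine ⟨fun h' => by rw [h, h'], fun h' => ?_⟩
    obtain ⟨i, hi, hi2⟩ := hM1 _ ⟨τ, rfl⟩
    refine ⟨i, hi, ?_⟩
    rw [h]
    revert h'
    cases η k <;> cases τ k <;> simp [hi2, hi2.symm]

theorem exists_tree (K : Set (ℕ → Bool)) (hK : IsClosed K) (hu : ¬ K.Countable) (x : ℕ → ℝ)
    (hx : ∀ n, 0 < x n) (hx0 : Tendsto x atTop (𝓝 0)) :
    ∃ (b : Bool) (n : ℕ → ℕ) (g : (ℕ → Bool) → (ℕ → Bool)), StrictMono n ∧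
      (∀ k, x (n (k + 1)) ≤ x (n k) / 3) ∧ Function.Injective g ∧ (∀ η, g η ∈ K) ∧
      ∀ η k, g η (n k) = b := by
  obtain ⟨b, hb⟩ : ∃ b : Bool, ¬ {p ∈ K | {n | p n = b} ∈ hyperfilter ℕ}.Countable := by
    by_contra h
    push Not at h
    apply hu
    refine ((h true).union (h false)).mono fun p hp => ?_
    rcases (hyperfilter ℕ).mem_or_compl_mem {n | p n = true} with h1 | h1
    · exact Or.inl ⟨hp, h1⟩
    · refine Or.inr ⟨hp, ?_⟩
      convert h1 using 1
      ext n; simp
  obtain ⟨R, hRQ, ⟨p0, hp0⟩, hR⟩ := exists_dense_in_itself _ hb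
  choose nxt n h1 h2 h3 h4 h5 h6 using step R b x hx hx0 hR (fun p hp => (hRQ hp).2)
  let s : ℕ → {s : ℕ × ((ℕ → Bool) → (ℕ → Bool)) // (Set.range s.2).Finite ∧ ∀ η, s.2 η ∈ R} :=
    fun k => Nat.rec ⟨(0, fun _ => p0), by simp, fun _ => hp0⟩ nxt k
  have hs : ∀ k, s (k + 1) = nxt k (s k) := fun k => rfl
  have hm : StrictMono (fun k => (s k).1.1) := strictMono_nat_of_lt_succ fun k => by
    rw [hs]; exact lt_of_le_of_lt (h1 k (s k)) (h2 k (s k))
  have hst : ∀ η k l, k ≤ l → ∀ i < (s k).1.1, (s l).1.2 η i = (s k).1.2 η i := by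
    intro η k l hkl i hi
    induction l, hkl using Nat.le_induction with
    | base => rfl
    | succ l hl ih =>
      rw [hs, h5 l (s l) η i, ih]
      exact le_trans (le_trans hi.le (hm.monotone hl)) (h1 l (s l))
  have hg : ∀ η k, ∀ i < (s k).1.1, (s (i + 1)).1.2 η i = (s k).1.2 η i := by
    intro η k i hi
    rcases le_total k (i + 1) with h | h
    · exact hst η k _ h i hi
    · exact (hst η _ k h i (lt_of_lt_of_le (Nat.lt_succ_self i) (hm.id_le (i + 1)))).symm
  refine ⟨b, fun k => n k (s k), fun η i => (s (i + 1)).1.2 η i, ?_, ?_, ?_, ?_, ?_⟩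
  · exact strictMono_nat_of_lt_succ fun k => lt_of_lt_of_le (h2 k (s k)) (h1 (k + 1) (s (k + 1)))
  · exact fun k => h3 (k + 1) (s (k + 1)) _ (h2 k (s k))
  · intro η τ h
    have key : ∀ k, (s k).1.2 η = (s k).1.2 τ ∧ ∀ j < k, η j = τ j := by
      intro k
      induction k with
      | zero => exact ⟨rfl, by simp⟩
      | succ k ih =>
        have hk : η k = τ k := by
          by_contra hne
          obtain ⟨i, hi, hi2⟩ := (h6 k (s k) η τ ih.1).2 hne
          apply hi2
          rw [← hs] at hi ⊢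
          rw [← hg η (k + 1) i hi, ← hg τ (k + 1) i hi]
          exact congrFun h i
        refine ⟨(h6 k (s k) η τ ih.1).1 hk, fun j hj => ?_⟩
        rcases Nat.lt_succ_iff_lt_or_eq.mp hj with h7 | rfl
        · exact ih.2 j h7
        · exact hk
    funext j
    exact (key (j + 1)).2 j (Nat.lt_succ_self j)
  · intro η
    refine hK.mem_of_tendsto (f := fun k => (s k).1.2 η) (b := atTop) ?_
      (Eventually.of_forall fun k => (hRQ ((s k).2.2 η)).1)
    rw [tendsto_pi_nhds]
    intro i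
    refine tendsto_const_nhds.congr' ?_
    filter_upwards [eventually_gt_atTop i] with k hk
    exact hg η k i (lt_of_lt_of_le hk (hm.id_le k))
  · intro η k
    simp only
    rw [hg η (k + 1) _ (h2 k (s k)), hs, h5 k (s k) η _ le_rfl, h4]

theorem summ (x : ℕ → ℝ) (hx : ∀ n, 0 < x n) (hs : Summable x) (ε : ℕ → Bool) :
    Summable (fun n => if ε n then x n else 0) :=
  Summable.of_nonneg_of_le (fun n => by split_ifs; exacts [(hx n).le, le_rfl])
    (fun n => by split_ifs; exacts [le_rfl, (hx n).le]) hs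

theorem cont (x : ℕ → ℝ) (hx : ∀ n, 0 < x n) (hs : Summable x) :
    Continuous (fun ε : ℕ → Bool => ∑' n, if ε n then x n else 0) := by
  refine continuous_tsum (fun n => ?_) hs (fun n ε => ?_)
  · exact (continuous_of_discreteTopology (f := fun c : Bool => if c then x n else 0)).comp
      (continuous_apply n)
  · split_ifs
    · rw [Real.norm_of_nonneg (hx n).le]
    · simpa using (hx n).le

theorem inj (w : ℕ → ℝ) (hw : ∀ n, 0 < w n) (hs : Summable w) (h3 : ∀ k, w (k + 1) ≤ w k / 3) :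
    Function.Injective (fun ε : ℕ → Bool => ∑' n, if ε n then w n else 0) := by
  intro η τ h
  simp only at h
  have h0 := (summ w hw hs η).hasSum.sub (summ w hw hs τ).hasSum
  rw [h, sub_self] at h0
  funext n
  induction n using Nat.strong_induction_on with
  | _ n ih =>
    have h1 := (hasSum_nat_add_iff' (n + 1)).mpr h0
    rw [Finset.sum_range_succ, Finset.sum_eq_zero (fun i hi => by
      rw [ih i (Finset.mem_range.mp hi)]; simp)] at h1
    have h2 : HasSum (fun i : ℕ => (w n / 3) * (1 / 3) ^ i) ((w n / 3) * (1 - 1 / 3)⁻¹) :=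
      (hasSum_geometric_of_lt_one (by norm_num) (by norm_num)).mul_left _
    have hb : ∀ i, w (i + (n + 1)) ≤ (w n / 3) * (1 / 3) ^ i := by
      intro i
      induction i with
      | zero => simpa using h3 n
      | succ i ih2 =>
        rw [show i + 1 + (n + 1) = i + (n + 1) + 1 by ring, pow_succ]
        linarith [h3 (i + (n + 1))]
    have h4 := h1.norm_le_of_bounded h2 (fun i => by
      refine le_trans ?_ (hb i)
      have := hw (i + (n + 1))
      split_ifs <;> simp [abs_of_pos this, this.le])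
    have := hw n
    revert h4
    cases η n <;> cases τ n <;> simp [abs_of_pos this] <;> linarith


/-- For every summable sequence of positive reals, the set of reals t that arise as a subsum in continuum-many ways is either empty or contains a subset homeomorphic to the Cantor space. -/
theorem result :
    ∀ x : ℕ → ℝ, (∀ n, 0 < x n) → Summable x →
      ({t : ℝ | Cardinal.mk (↥{ε : ℕ → Bool | (∑' n, if ε n then x n else 0) = t})
            = Cardinal.continuum} = ∅ ∨
        ∃ C : Set ℝ,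
          C ⊆ {t : ℝ | Cardinal.mk (↥{ε : ℕ → Bool | (∑' n, if ε n then x n else 0) = t})
                = Cardinal.continuum} ∧
          Nonempty (C ≃ₜ (ℕ → Bool))) := by
  intro x hx hs
  rcases Set.eq_empty_or_nonempty {t : ℝ | Cardinal.mk
    (↥{ε : ℕ → Bool | (∑' n, if ε n then x n else 0) = t}) = Cardinal.continuum} with h | ⟨t, ht⟩
  · exact Or.inl h
  right
  obtain ⟨b, n, g, hn, h3, hg, hgK, hgb⟩ := exists_tree
    {ε : ℕ → Bool | (∑' n, if ε n then x n else 0) = t}
    (isClosed_eq (cont x hx hs) continuous_const) (by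
      rw [← Cardinal.le_aleph0_iff_set_countable, show Cardinal.mk _ = _ from ht, not_le]
      exact Cardinal.aleph0_lt_continuum) x hx hs.tendsto_atTop_zero
  have hw : ∀ k, 0 < x (n k) := fun k => hx _
  have hsw : Summable (fun k => x (n k)) := hs.comp_injective hn.injective
  let F : (ℕ → Bool) → ℝ := fun η => (∑' k, if η k then x (n k) else 0) +
    (t - ∑' k, if b then x (n k) else 0)
  have hFc : Continuous F := (cont _ hw hsw).add continuous_const
  have hFi : Function.Injective F := fun η τ h => inj _ hw hsw h3 (add_right_cancel h)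
  refine ⟨Set.range F, ?_, ⟨(hFc.isClosedEmbedding hFi).isEmbedding.toHomeomorph.symm⟩⟩
  rintro _ ⟨η, rfl⟩
  have hc : Cardinal.mk (ℕ → Bool) = Cardinal.continuum := by simp
  apply le_antisymm
  · rw [← hc]; exact Cardinal.mk_set_le _
  rw [← hc]
  have hmem : ∀ ζ, Function.extend n η (g ζ) ∈
      {ε : ℕ → Bool | (∑' n, if ε n then x n else 0) = F η} := by
    intro ζ
    have h1 := (summ x hx hs (Function.extend n η (g ζ))).hasSum.sub (summ x hx hs (g ζ)).hasSum
    rw [← hn.injective.hasSum_iff (fun i hi => by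
      rw [Function.extend_apply' _ _ _ hi, sub_self])] at h1
    have h2 := (summ _ hw hsw η).hasSum.sub (summ _ hw hsw (fun _ => b)).hasSum
    have h4 := h1.unique (h2.congr_fun fun k => by
      simp only [Function.comp, hn.injective.extend_apply, hgb])
    have h5 : (∑' n, if g ζ n then x n else 0) = t := hgK ζ
    simp only [Set.mem_setOf_eq, F]
    linarith
  refine Cardinal.mk_le_of_injective (f := fun ζ => ⟨_, hmem ζ⟩) fun ζ ξ h => hg ?_
  funext i
  have h1 := congrFun (congrArg Subtype.val h) i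
  by_cases hi : ∃ k, n k = i
  · obtain ⟨k, rfl⟩ := hi
    rw [hgb, hgb]
  · simpa only [Function.extend_apply' _ _ _ hi] using h1

end Pool.Agent.S06057
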