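import Pool.Statements.S06070
import Pool.Agent.H87.MonoGap2

set_option autoImplicit false
open Pool Pool.MP_c4dd1f_an

namespace Pool.Agent.S06070

theorem result :
    ¬ (∀ (X : Type) [NormedAddCommGroup X] [NormedSpace ℝ X] [CompleteSpace X]
      (A : X → Set (X →L[ℝ] ℝ)),
      (∀ (x y : X) (xs ys : X →L[ℝ] ℝ), xs ∈ A x → ys ∈ A y → 0 ≤ (xs - ys) (x - y)) →
      (∀ (x : X) (xs : X →L[ℝ] ℝ),
          (∀ (y : X) (ys : X →L[ℝ] ℝ), ys ∈ A y → 0 ≤ (xs - ys) (x - y)) → xs ∈ A x) →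
      Convex ℝ (closure {x : X | (A x).Nonempty})) := by
  intro H
  obtain ⟨G, z, -, h1, h2, h3, ⟨x, f, hx, hx'⟩, ⟨y, g, hy, hy'⟩, -⟩ := Pool.Agent.H87.MonoGap.core
  have hc := H _ (fun x => {f | (x, f) ∈ G}) (fun x y f g hf hg => h1 x y f g hf hg)
    (fun x f hf => h2 x f hf)
  have hm := hc (subset_closure (show x ∈ {x | ({f | (x, f) ∈ G}).Nonempty} from ⟨f, hx⟩))
    (subset_closure (show y ∈ {x | ({f | (x, f) ∈ G}).Nonempty} from ⟨g, hy⟩))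
    (show (0 : ℝ) ≤ 1 / 2 by norm_num) (show (0 : ℝ) ≤ 1 / 2 by norm_num) (by norm_num)
  have hcl : IsClosed {w : Pool.Agent.H87.MonoGap.X |
      Pool.Agent.H87.MonoGap.u w ≤ 0 ∨ 1 ≤ Pool.Agent.H87.MonoGap.u w} :=
    (isClosed_le Pool.Agent.H87.MonoGap.u.continuous continuous_const).union
      (isClosed_le continuous_const Pool.Agent.H87.MonoGap.u.continuous)
  have := closure_minimal (fun w (hw : ({f | (w, f) ∈ G}).Nonempty) =>
    (h3 w _ hw.some_mem).imp le_of_lt le_of_lt) hcl hm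
  have h5 : Pool.Agent.H87.MonoGap.u ((1 / 2 : ℝ) • x + (1 / 2 : ℝ) • y) ≤ 0 ∨
      1 ≤ Pool.Agent.H87.MonoGap.u ((1 / 2 : ℝ) • x + (1 / 2 : ℝ) • y) := this
  rw [map_add, map_smul, map_smul, hx', hy'] at h5
  norm_num at h5

end Pool.Agent.S06070
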