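import Pool.Statements.S06082
import Pool.Agent.H90.NumIdxTwo

set_option autoImplicit false
open scoped ENNReal
open Pool Pool.MP_c5b4b2_an

namespace Pool.Agent.S06082

/-- The negation of the preceding statement: For every 1<p<∞, the numerical index of complex 2-dimensional l_p (inf over norm-one operators T of the sup of ∣f(Tx)∣ with ‖x‖=‖f‖=f(x)=1) equals 1/(p^(1/p) q^(1/q)), where q=p/(p-1). -/
theorem result :
    ¬ (∀ (p : ℝ≥0∞) [Fact (1 ≤ p)], 1 < p → p ≠ ⊤ →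
      sInf {c : ℝ | ∃ T : PiLp p (fun _ : Fin 2 => ℂ) →L[ℂ] PiLp p (fun _ : Fin 2 => ℂ),
          ‖T‖ = 1 ∧
          c = sSup {s : ℝ | ∃ (x : PiLp p (fun _ : Fin 2 => ℂ))
                (f : PiLp p (fun _ : Fin 2 => ℂ) →L[ℂ] ℂ),
                ‖x‖ = 1 ∧ ‖f‖ = 1 ∧ f x = 1 ∧ s = ‖f (T x)‖}}
        = 1 / (p.toReal ^ (1 / p.toReal) *
            (p.toReal / (p.toReal - 1)) ^ ((p.toReal - 1) / p.toReal))) := by
  intro h
  have : Fact (1 ≤ (4 : ℝ≥0∞)) := ⟨by norm_num⟩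
  have h4 := h 4 (by norm_num) (by simp)
  obtain ⟨T, hT, hv⟩ := Pool.Agent.H90.NumIdx.Two.plane (𝕜 := ℂ)
  have hk := Pool.Agent.H90.NumIdx.Two.kappa4
  have e : (4 : ℝ≥0∞).toReal = 4 := by norm_num
  have e1 : (4 : ℝ) / (4 - 1) = 4 / 3 := by norm_num
  have e2 : ((4 : ℝ) - 1) / 4 = 3 / 4 := by norm_num
  rw [e, e1, e2] at h4
  rw [← h4] at hk
  refine absurd hk (not_lt.2 (csInf_le_of_le ⟨0, ?_⟩ ⟨T, hT, rfl⟩ ?_))
  · rintro _ ⟨S, -, rfl⟩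
    exact Real.sSup_nonneg (by rintro r ⟨x, f, -, -, -, rfl⟩; exact norm_nonneg _)
  · refine Real.sSup_le ?_ (by norm_num)
    rintro _ ⟨x, g, hx, hg, hgx, rfl⟩
    exact hv x g hx hg hgx

end Pool.Agent.S06082
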