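import Pool.Statements.S06096
import Pool.Agent.H87.Mlur3

set_option autoImplicit false
open Filter Topology
open Pool Pool.MP_c718d4_an

namespace Pool.Agent.S06096

theorem result :
    ¬ (∀ (X : Type) [NormedAddCommGroup X] [NormedSpace ℝ X] [CompleteSpace X],
      (∀ Y : Submodule ℝ X, TopologicalSpace.SeparableSpace (↥Y) →
          TopologicalSpace.SeparableSpace (↥Y →L[ℝ] ℝ)) →
      (∃ p : Seminorm ℝ X,
          (∃ c C : ℝ, 0 < c ∧ 0 < C ∧ ∀ x : X, c * ‖x‖ ≤ p x ∧ p x ≤ C * ‖x‖) ∧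
          ∀ x y : X, p x = 1 → p y = 1 → x ≠ y → p (x + y) < 2) →
      ∃ q : Seminorm ℝ X,
        (∃ c C : ℝ, 0 < c ∧ 0 < C ∧ ∀ x : X, c * ‖x‖ ≤ q x ∧ q x ≤ C * ‖x‖) ∧
        ∀ x : X, q x = 1 → ∀ u : ℕ → X, (∀ n, q (u n) ≤ 1) →
          Tendsto (fun n => q (x + u n)) atTop (𝓝 1) →
          Tendsto (fun n => q (x - u n)) atTop (𝓝 1) →
          Tendsto (fun n => q (u n)) atTop (𝓝 0)) := by
  intro h
  obtain ⟨f, hf⟩ := exists_surjective_nat Pool.Agent.H87.Mlur.D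
  obtain ⟨q, ⟨c, C, hc, -, h1⟩, h2⟩ := h Pool.Agent.H87.Mlur.X Pool.Agent.H87.Mlur.asplund
    (Pool.Agent.H87.Mlur.sconv (fun n => Pool.Agent.H87.Mlur.ev (f n))
      (fun n => Pool.Agent.H87.Mlur.ev_le _) fun x hx =>
        Pool.Agent.H87.Mlur.ext_ev fun d => by obtain ⟨n, rfl⟩ := hf d; simp [hx n])
  obtain ⟨x, u, h3, h4, h5⟩ := Pool.Agent.H87.Mlur.main q C c hc h1
  exact Pool.Agent.H87.Mlur.notM q c hc x u h3 h4 h5 h2

end Pool.Agent.S06096
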