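import Pool.Statements.S06121
import Pool.Agent.H94.PureState

set_option autoImplicit false
open Pool Pool.MP_c8dc36_an

namespace Pool.Agent.S06121

open Pool.Agent.H94.PureState Filter Unitization
open scoped Topology ComplexStarModule CStarAlgebra

section
variable {A : Type} [NonUnitalCStarAlgebra A] [PartialOrder A] [StarOrderedRing A]

lemma alg_nonneg {t : ℝ} : 0 ≤ algebraMap ℝ A⁺¹ t ↔ 0 ≤ t := by
  refine ⟨fun h => ?_, fun h => ?_⟩
  · simpa using (StarOrderedRing.nonneg_iff_spectrum_nonneg (R := ℝ) _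
      (IsSelfAdjoint.algebraMap _ (IsSelfAdjoint.all t))).1 h t (by
        rw [spectrum.scalar_eq]; rfl)
  · rw [Algebra.algebraMap_eq_smul_one]
    exact smul_nonneg h zero_le_one

lemma norm_le_of {x : A} {t : ℝ} (hx : 0 ≤ x) (h : (x : A⁺¹) ≤ algebraMap ℝ A⁺¹ t) : ‖x‖ ≤ t := by
  have h1 : 0 ≤ (x : A⁺¹) := inr_nonneg_iff.2 hx
  rw [← norm_inr (𝕜 := ℂ)]
  exact (CStarAlgebra.norm_le_iff_le_algebraMap _ (alg_nonneg.1 (h1.trans h)) h1).2 h

lemma le_norm {x : A} (hx : IsSelfAdjoint x) : (x : A⁺¹) ≤ algebraMap ℝ A⁺¹ ‖x‖ := by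
  rw [← norm_inr (𝕜 := ℂ)]
  exact (hx.inr ℂ).le_algebraMap_norm_self

lemma state {s : A} (hs : 0 ≤ s) : ∃ w : A →ₗ[ℝ] ℝ,
    (∀ (x : A) (t : ℝ), IsSelfAdjoint x → (x : A⁺¹) ≤ algebraMap ℝ A⁺¹ t → w x ≤ t) ∧ ‖s‖ ≤ w s ∧
    ∀ a : Fin 3 → A, (∀ i, IsSelfAdjoint (a i)) → ∀ η > 0, ∃ (c : A) (κ : ℝ), IsSelfAdjoint c ∧
      (∀ i, algebraMap ℝ A⁺¹ (w (a i)) - (a i : A⁺¹) ≤ (c : A⁺¹) + algebraMap ℝ A⁺¹ κ) ∧
      w c + κ < η := by
  let j : A × ℝ →ₗ[ℝ] A⁺¹ := ((inrHom ℝ ℂ A).comp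
    ((selfAdjoint.submodule ℝ A).subtype.comp realPart)).coprod (Algebra.linearMap ℝ A⁺¹)
  have hj : ∀ (x : A) (t : ℝ), j (x, t) = ((ℜ x : A) : A⁺¹) + algebraMap ℝ A⁺¹ t := fun _ _ => rfl
  have hj' : ∀ (x : A) (t : ℝ), IsSelfAdjoint x → j (x, t) = (x : A⁺¹) + algebraMap ℝ A⁺¹ t :=
    fun x t hx => by rw [hj, hx.coe_realPart]
  have je : j (0, 1) = 1 := by rw [hj' 0 1 (.zero _)]; simp
  have C : Cone {v : A × ℝ | 0 ≤ j v} (0, 1) :=
    ⟨fun x hx y hy => by
      change 0 ≤ j (x + y)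
      rw [map_add]
      exact add_nonneg hx hy,
    fun c hc x hx => by
      change 0 ≤ j (c • x)
      rw [map_smul]
      exact smul_nonneg hc hx,
    fun x => ⟨‖j x‖, by
      change 0 ≤ j (_ - x)
      rw [map_sub, map_smul, je, sub_nonneg, ← Algebra.algebraMap_eq_smul_one]
      refine IsSelfAdjoint.le_algebraMap_norm_self ?_
      rw [show x = (x.1, x.2) from rfl, hj]
      exact ((ℜ x.1).2.inr ℂ).add (IsSelfAdjoint.algebraMap _ (IsSelfAdjoint.all _))⟩,
    by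
      change 0 ≤ j (0, 1)
      rw [je]
      exact zero_le_one,
    by
      change ¬ 0 ≤ j (-(0, 1))
      rw [map_neg, je, ← map_one (algebraMap ℝ A⁺¹), ← map_neg, alg_nonneg]
      norm_num⟩
  obtain ⟨ω, hω, h1⟩ := C.exists_pure (s, 0)
  have split : ∀ (x : A) (t : ℝ), ω (x, t) = ω (x, 0) + t := fun x t => by
    rw [show (x, t) = (x, 0) + t • ((0, 1) : A × ℝ) by simp, map_add, map_smul, hω.one]
    simp
  refine ⟨ω.comp (LinearMap.inl ℝ A ℝ), fun x t hx h => ?_, ?_, fun a ha η hη => ?_⟩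
  · have := hω.pos (-x, t) (by
      change 0 ≤ j (-x, t)
      rw [hj' _ _ hx.neg, inr_neg, neg_add_eq_sub, sub_nonneg]
      exact h)
    rw [split, show ((-x, 0) : A × ℝ) = -(x, 0) by simp, map_neg] at this
    change ω (x, 0) ≤ t
    linarith
  · refine le_of_forall_pos_le_add fun ε hε => ?_
    obtain ⟨t, t1, t2⟩ := h1 ε hε
    refine (norm_le_of hs ?_).trans t2.le
    replace t1 : 0 ≤ j (t • (0, 1) - (s, 0)) := t1
    rw [map_sub, map_smul, je, hj' _ _ (.of_nonneg hs), sub_nonneg, map_zero, add_zero,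
      ← Algebra.algebraMap_eq_smul_one] at t1
    exact t1
  · obtain ⟨c, c1, c2⟩ := hω.directed C (fun i => (-a i, ω (a i, 0))) 0 (fun i => by
      rw [split, show ((-a i, 0) : A × ℝ) = -(a i, 0) by simp, map_neg]
      simp) η hη
    refine ⟨ℜ c.1, c.2, (ℜ c.1).2, fun i => ?_, ?_⟩
    · have := c1 i
      replace this : 0 ≤ j (c - (-a i, ω (a i, 0))) := this
      rw [map_sub, hj' _ _ (ha i).neg, sub_nonneg, inr_neg, neg_add_eq_sub] at this
      exact this
    · have := hω.pos (c - ((ℜ c.1 : A), c.2)) (by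
        change 0 ≤ j _
        rw [map_sub, hj' _ _ (ℜ c.1).2, sub_nonneg]
        exact le_rfl)
      rw [map_sub, split (ℜ c.1 : A)] at this
      change ω ((ℜ c.1 : A), 0) + c.2 < η
      linarith

lemma tend (y : A) : Tendsto (fun u : A => u * y * u) (CStarAlgebra.approximateUnit A) (𝓝 y) := by
  have hl := CStarAlgebra.increasingApproximateUnit A
  rw [tendsto_iff_norm_sub_tendsto_zero]
  have h1 := tendsto_iff_norm_sub_tendsto_zero.1 (hl.tendsto_mul_left y)
  have h2 := tendsto_iff_norm_sub_tendsto_zero.1 (hl.tendsto_mul_right y)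
  refine squeeze_zero' (Eventually.of_forall fun _ => norm_nonneg _) ?_ (by simpa using h1.add h2)
  filter_upwards [hl.eventually_norm] with u hu
  rw [show u * y * u - y = u * (y * u - y) + (u * y - y) by noncomm_ring]
  refine (norm_add_le _ _).trans (add_le_add_left ((norm_mul_le _ _).trans ?_) _)
  exact mul_le_of_le_one_left (norm_nonneg _) hu

lemma cpos {y u : A} {M : ℝ} (hy : IsSelfAdjoint y) (hu : IsSelfAdjoint u) (hM : ‖y‖ ≤ M) :
    0 ≤ M • (u * u) - u * y * u := by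
  have h1 := CStarAlgebra.star_left_conjugate_le_norm_smul (a := u) hy
  have h2 := star_mul_self_nonneg u
  rw [hu.star_eq] at h1 h2
  exact sub_nonneg.2 (h1.trans (smul_le_smul_of_nonneg_right hM h2))

lemma cle {y u : A} {M : ℝ} (hy : IsSelfAdjoint y) (hu : IsSelfAdjoint u) (hu1 : ‖u‖ ≤ 1)
    (hM : 0 ≤ M) : ((y + (M • (u * u) - u * y * u) : A) : A⁺¹)
      ≤ algebraMap ℝ A⁺¹ (M + ‖u * y * u - y‖) := by
  have s1 : IsSelfAdjoint (u * y * u) := by simpa [hu.star_eq] using hy.conjugate u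
  have s2 : IsSelfAdjoint (M • (u * u)) :=
    (IsSelfAdjoint.all M).smul (by simpa [hu.star_eq] using IsSelfAdjoint.star_mul_self u)
  rw [show y + (M • (u * u) - u * y * u) = M • (u * u) + (y - u * y * u) by abel, inr_add, map_add,
    norm_sub_rev]
  refine add_le_add ((le_norm s2).trans ?_) (le_norm (hy.sub s1))
  rw [← sub_nonneg, ← map_sub, alg_nonneg, sub_nonneg, norm_smul, Real.norm_of_nonneg hM]
  exact mul_le_of_le_one_right hM ((norm_mul_le _ _).trans (mul_le_one₀ hu1 (norm_nonneg _) hu1))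

lemma order {a y : A} (ha : 0 ≤ a) (hy : IsSelfAdjoint y) {M : ℝ} (hM : ‖y‖ ≤ M) {δ : A → ℝ}
    (hδ : Tendsto δ (CStarAlgebra.approximateUnit A) (𝓝 0))
    (h : ∀ᶠ u in CStarAlgebra.approximateUnit A, ‖a + (M • (u * u) - u * y * u)‖ ≤ M + δ u) :
    a ≤ y := by
  have hl := CStarAlgebra.increasingApproximateUnit A
  have hw : IsSelfAdjoint (a - y) := (IsSelfAdjoint.of_nonneg ha).sub hy
  set p := (a - y)⁺ with hp
  have p0 : 0 ≤ p := CFC.posPart_nonneg _
  have ps : star p = p := (IsSelfAdjoint.of_nonneg p0).star_eq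
  have t1 : Tendsto (fun u : A => p * (a + (M • (u * u) - u * y * u)) * p)
      (CStarAlgebra.approximateUnit A) (𝓝 (p * a * p + (M • (p * p) - p * y * p))) := by
    have b1 := (hl.tendsto_mul_left p).mul (hl.tendsto_mul_right p)
    have b2 := ((tend y).const_mul p).mul_const p
    refine ((tendsto_const_nhds (x := p * a * p)).add ((b1.const_smul M).sub b2)).congr fun u => ?_
    simp only [mul_add, add_mul, mul_sub, sub_mul, mul_smul_comm, smul_mul_assoc, mul_assoc]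
  have t2 : Tendsto (fun u : A => (M + δ u) • (p * p)) (CStarAlgebra.approximateUnit A)
      (𝓝 ((M + 0) • (p * p))) := (tendsto_const_nhds.add hδ).smul_const _
  have t3 := le_of_tendsto_of_tendsto t1 t2 (by
    filter_upwards [h, hl.eventually_isSelfAdjoint] with u h1 h2
    have b1 := CStarAlgebra.star_left_conjugate_le_norm_smul (a := p)
      (IsSelfAdjoint.of_nonneg (add_nonneg ha (cpos hy h2 hM)))
    have b2 := star_mul_self_nonneg p
    rw [ps] at b1 b2
    exact b1.trans (smul_le_smul_of_nonneg_right h1 b2))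
  have e1 : p * (a - y) * p = p * p * p := by
    conv_lhs => rw [← CFC.posPart_sub_negPart (a - y) hw, mul_sub, ← hp]
    rw [hp, CFC.posPart_mul_negPart, sub_zero]
  have e2 : p * p * p = 0 := by
    refine le_antisymm ?_ (by simpa [ps] using star_left_conjugate_nonneg p0 p)
    rw [← e1, mul_sub, sub_mul]
    rw [add_zero, add_sub, add_comm, add_sub_assoc, add_le_iff_nonpos_right] at t3
    exact t3
  have e3 : p * p = 0 := by
    rw [← CStarRing.star_mul_self_eq_zero_iff, star_mul, ps, ← mul_assoc, e2, zero_mul]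
  have e4 : p = 0 := by rw [← CStarRing.star_mul_self_eq_zero_iff, ps, e3]
  exact sub_nonpos.1 ((CFC.posPart_eq_zero_iff _ hw).1 e4)

lemma three (a : Fin 3 → A) (ha : ∀ i, 0 ≤ a i) (ε : ℝ) (hε : 0 < ε) :
    ∃ (d : A) (t : Fin 3 → ℝ), 0 ≤ d ∧ (∀ i, (d : A⁺¹) ≤ (a i : A⁺¹) + algebraMap ℝ A⁺¹ (t i)) ∧
      ‖a 0 + a 1 + a 2‖ + t 0 + t 1 + t 2 ≤ 3 * ‖d‖ + ε := by
  have hl := CStarAlgebra.increasingApproximateUnit A
  have hs : 0 ≤ a 0 + a 1 + a 2 := add_nonneg (add_nonneg (ha 0) (ha 1)) (ha 2)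
  set s := a 0 + a 1 + a 2 with hs'
  by_cases h0 : s = 0
  · exact ⟨0, 0, le_rfl, fun i => by simpa using ha i, by simp [h0, hε.le]⟩
  have n0 : 0 < ‖s‖ := norm_pos_iff.2 h0
  obtain ⟨w, w1, w2, w3⟩ := state hs
  obtain ⟨c, κ, c1, c2, c3⟩ := w3 a (fun i => .of_nonneg (ha i)) (ε / 9) (by linarith)
  set M := ‖c‖ with hM
  have M0 : 0 ≤ M := norm_nonneg _
  set η := min (ε / (18 * (M + 1))) 1 with hη
  have η0 : 0 < η := lt_min (by positivity) one_pos
  have η1 : η ≤ 1 := min_le_right _ _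
  have η2 : η * (18 * (M + 1)) ≤ ε := (le_div_iff₀ (by positivity)).1 (min_le_left _ _)
  have r0 : 0 ≤ (1 - η) / ‖s‖ := div_nonneg (by linarith) n0.le
  have e1 : ∀ᶠ u in CStarAlgebra.approximateUnit A, ((1 - η) / ‖s‖) • s ≤ u := by
    refine (CStarAlgebra.hasBasis_approximateUnit A).eventually_iff.2
      ⟨((1 - η) / ‖s‖) • s, ⟨smul_nonneg r0 hs, ?_⟩, fun u hu => hu.1⟩
    rw [norm_smul, Real.norm_of_nonneg r0, div_mul_cancel₀ _ n0.ne']
    linarith
  have e2 := (tendsto_iff_norm_sub_tendsto_zero.1 (tend c)).eventually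
    (gt_mem_nhds (show 0 < ε / 18 by linarith))
  obtain ⟨u, ⟨u1, u2⟩, u3, u4⟩ := ((e1.and e2).and
    (hl.eventually_isSelfAdjoint.and hl.eventually_norm)).exists
  have d0 := cpos c1 u3 le_rfl
  have s1 : IsSelfAdjoint (u * c * u) := by simpa [u3.star_eq] using c1.conjugate u
  have s2 : IsSelfAdjoint (u * u) := by simpa [u3.star_eq] using IsSelfAdjoint.star_mul_self u
  refine ⟨M • (u * u) - u * c * u, fun i => M + ‖u * c * u - c‖ + κ - w (a i), d0, fun i => ?_, ?_⟩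
  · have b1 := cle c1 u3 u4 M0
    have b2 := c2 i
    rw [inr_add, ← le_sub_iff_add_le'] at b1
    refine b1.trans ?_
    rw [map_sub, map_add (algebraMap ℝ A⁺¹) _ κ, ← sub_nonneg]
    rw [← sub_nonneg] at b2
    convert b2 using 1
    abel
  · have b1 := w1 _ _ (.of_nonneg d0) (le_norm (.of_nonneg d0))
    have b2 := w1 _ _ (s1.sub c1) (le_norm (s1.sub c1))
    have b3 := w1 (((1 - η) / ‖s‖) • s - u) 0 ((IsSelfAdjoint.of_nonneg (smul_nonneg r0 hs)).sub u3)
      (by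
        rw [map_zero, ← neg_nonneg, ← inr_neg, inr_nonneg_iff, neg_sub]
        exact sub_nonneg.2 u1)
    have b4 := w1 (u + u - u * u) 1 ((u3.add u3).sub s2) (by
      have := star_mul_self_nonneg (1 - (u : A⁺¹))
      rw [star_sub, star_one, (u3.inr ℂ).star_eq] at this
      rw [map_one, ← sub_nonneg, inr_sub, inr_add, inr_mul]
      convert this using 1
      noncomm_ring)
    have b5 : w s = w (a 0) + w (a 1) + w (a 2) := by rw [hs', map_add, map_add]
    have b6 : 1 - η ≤ (1 - η) / ‖s‖ * w s := by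
      have := mul_le_mul_of_nonneg_left w2 r0
      rwa [div_mul_cancel₀ _ n0.ne'] at this
    simp only [map_sub, map_add, map_smul, smul_eq_mul] at b1 b2 b3 b4
    have b7 : M * (1 - 2 * η) ≤ M * w (u * u) := mul_le_mul_of_nonneg_left (by linarith) M0
    nlinarith

lemma norm_step {d a c : A} {t : ℝ} (hd : 0 ≤ d) (ha : 0 ≤ a) (hc : 0 ≤ c)
    (h : (d : A⁺¹) ≤ (a : A⁺¹) + algebraMap ℝ A⁺¹ t) : ‖d + c‖ ≤ ‖a + c‖ + t := by
  refine norm_le_of (add_nonneg hd hc) ?_
  have := le_norm (IsSelfAdjoint.of_nonneg (add_nonneg ha hc))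
  rw [inr_add] at this ⊢
  rw [map_add]
  calc (d : A⁺¹) + c ≤ a + algebraMap ℝ A⁺¹ t + c := add_le_add_left h _
    _ = a + c + algebraMap ℝ A⁺¹ t := by abel
    _ ≤ _ := add_le_add_left this _

end


/-- For any two C*-algebras, a map from the positive cone of the first onto the positive cone of the second with ‖T f + T g‖ = ‖T(f+g)‖ for all positive f, g must satisfy T(f+g) = T f + T g on positive elements. -/
theorem result :
    ∀ (A₁ A₂ : Type) [NonUnitalCStarAlgebra A₁] [PartialOrder A₁] [StarOrderedRing A₁]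
      [NonUnitalCStarAlgebra A₂] [PartialOrder A₂] [StarOrderedRing A₂] (T : A₁ → A₂),
      (∀ a : A₁, 0 ≤ a → 0 ≤ T a) →
      (∀ b : A₂, 0 ≤ b → ∃ a : A₁, 0 ≤ a ∧ T a = b) →
      (∀ f g : A₁, 0 ≤ f → 0 ≤ g → ‖T f + T g‖ = ‖T (f + g)‖) →
      ∀ f g : A₁, 0 ≤ f → 0 ≤ g → T (f + g) = T f + T g := by
  intro A₁ A₂ _ _ _ _ _ _ T hp hs hn
  have hl := CStarAlgebra.increasingApproximateUnit A₂
  have dbl : ∀ f, 0 ≤ f → ‖T (f + f)‖ = 2 * ‖T f‖ := fun f hf => by
    rw [← hn f f hf hf, ← two_smul ℝ, norm_smul]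
    simp
  have tri : ∀ f g k, 0 ≤ f → 0 ≤ g → 0 ≤ k → ‖T f + T g + T k‖ ≤ ‖T (f + g) + T k‖ := by
    intro f g k hf hg hk
    refine le_of_forall_pos_le_add fun ε hε => ?_
    obtain ⟨d, t, d0, d1, d2⟩ := three ![T f, T g, T k] (fun i => by
      fin_cases i
      exacts [hp f hf, hp g hg, hp k hk]) ε hε
    obtain ⟨h, h0, rfl⟩ := hs d d0
    have hh := add_nonneg h0 h0
    have b1 := norm_step d0 (hp f hf) (hp _ hh) (d1 0)
    have b2 := norm_step d0 (hp g hg) (hp _ (add_nonneg hf h0)) (d1 1)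
    have b3 := norm_step d0 (hp k hk) (hp _ (add_nonneg hf hg)) (d1 2)
    have b4 := norm_add_le (T h) (T (h + (h + h)))
    rw [hn _ _ h0 (add_nonneg h0 hh), ← add_assoc h h (h + h), dbl _ hh, dbl _ h0] at b4
    rw [hn _ _ h0 hh, hn _ _ hf hh] at b1
    rw [hn _ _ h0 (add_nonneg hf h0), hn _ _ hg (add_nonneg hf h0),
      show h + (f + h) = f + (h + h) by abel, show g + (f + h) = h + (f + g) by abel] at b2
    rw [hn _ _ h0 (add_nonneg hf hg), add_comm (T k)] at b3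
    simp only [Matrix.cons_val_zero, Matrix.cons_val_one, Matrix.cons_val] at d2
    linarith
  have sup : ∀ f g, 0 ≤ f → 0 ≤ g → T f + T g ≤ T (f + g) := fun f g hf hg => by
    have y0 := IsSelfAdjoint.of_nonneg (hp _ (add_nonneg hf hg))
    refine order (add_nonneg (hp f hf) (hp g hg)) y0 le_rfl
      (tendsto_iff_norm_sub_tendsto_zero.1 (tend (T (f + g)))) ?_
    filter_upwards [hl.eventually_isSelfAdjoint, hl.eventually_norm] with u u1 u2
    have c0 := cpos y0 u1 le_rfl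
    obtain ⟨k, k0, k1⟩ := hs _ c0
    have := tri f g k hf hg k0
    rw [k1] at this
    exact this.trans (norm_le_of (add_nonneg (hp _ (add_nonneg hf hg)) c0)
      (cle y0 u1 u2 (norm_nonneg _)))
  intro f g hf hg
  refine le_antisymm ?_ (sup f g hf hg)
  have a0 := IsSelfAdjoint.of_nonneg (hp f hf)
  have b0 := IsSelfAdjoint.of_nonneg (hp g hg)
  refine order (hp _ (add_nonneg hf hg)) (a0.add b0) (norm_add_le _ _)
    (δ := fun u => ‖u * T f * u - T f‖ + ‖u * T g * u - T g‖) (by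
      simpa using (tendsto_iff_norm_sub_tendsto_zero.1 (tend (T f))).add
        (tendsto_iff_norm_sub_tendsto_zero.1 (tend (T g)))) ?_
  filter_upwards [hl.eventually_isSelfAdjoint, hl.eventually_norm] with u u1 u2
  have c1 := cpos a0 u1 le_rfl
  have c2 := cpos b0 u1 le_rfl
  have n1 := norm_le_of (add_nonneg (hp f hf) c1) (cle a0 u1 u2 (norm_nonneg (T f)))
  have n2 := norm_le_of (add_nonneg (hp g hg) c2) (cle b0 u1 u2 (norm_nonneg (T g)))
  obtain ⟨f', f0, f1⟩ := hs _ c1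
  obtain ⟨g', g0, g1⟩ := hs _ c2
  have e : (‖T f‖ + ‖T g‖) • (u * u) - u * (T f + T g) * u = T f' + T g' := by
    rw [f1, g1, add_smul, mul_add, add_mul]
    abel
  rw [← f1, hn _ _ hf f0] at n1
  rw [← g1, hn _ _ hg g0] at n2
  have n3 := CStarAlgebra.norm_le_norm_of_nonneg_of_le
    (add_nonneg (hp _ (add_nonneg hf hg)) (add_nonneg (hp _ f0) (hp _ g0)))
    (add_le_add_right (sup f' g' f0 g0) (T (f + g)))
  rw [hn _ _ (add_nonneg hf hg) (add_nonneg f0 g0), add_add_add_comm,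
    ← hn _ _ (add_nonneg hf f0) (add_nonneg hg g0)] at n3
  have n4 := norm_add_le (T (f + f')) (T (g + g'))
  rw [e]
  linarith

end Pool.Agent.S06121
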