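import Pool.Statements.S06130
import Pool.Agent.H17.Tame

set_option autoImplicit false
open Pool Pool.MP_c98abc_an

namespace Pool.Agent.S06130

/-- The negation of the preceding statement: Fix a substitution whose incidence matrix has irreducible char. polynomial with a Pisot root and determinant ±1. Then for every continuous f, the shifts of f restricted to the substitution subshift contain no independent sequence, i.e. the subshift is tame. -/
theorem result :
    ¬ (∀ (d : ℕ) (σ : Fin d → List (Fin d)),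
    Irreducible (Matrix.of (fun i j : Fin d => (((σ j).count i : ℕ) : ℚ))).charpoly →
    (∃ r : ℝ, 1 < r ∧
      (r : ℂ) ∈ ((Matrix.of (fun i j : Fin d => (((σ j).count i : ℕ) : ℚ))).charpoly.map
        (algebraMap ℚ ℂ)).roots ∧
      ∀ z ∈ ((Matrix.of (fun i j : Fin d => (((σ j).count i : ℕ) : ℚ))).charpoly.map
        (algebraMap ℚ ℂ)).roots, z ≠ (r : ℂ) → ‖z‖ < 1) →
    |(Matrix.of (fun i j : Fin d => (((σ j).count i : ℕ) : ℚ))).det| = 1 →
    ∀ f : (ℤ → Fin d) → ℝ, Continuous f →
      ¬ ∃ (n : ℕ → ℤ) (a b : ℝ), a < b ∧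
        ∀ P Q : Finset ℕ, Disjoint P Q →
          ∃ x : ℤ → Fin d,
            (∀ m : ℤ, ∀ k : ℕ, ∃ N : ℕ, ∃ c : Fin d,
              List.IsInfix (List.ofFn (fun i : Fin k => x (m + ((i : ℕ) : ℤ))))
                ((fun w : List (Fin d) => w.flatMap σ)^[N] [c])) ∧
            (∀ j ∈ P, f (fun t => x (t + n j)) < a) ∧
            (∀ j ∈ Q, b < f (fun t => x (t + n j)))) := by
  intro h
  have hM : (Matrix.of (fun i j : Fin 2 => (((Agent.H17.HKS.ts j).count i : ℕ) : ℚ))) = !![2, 1; 1, 1] := by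
    ext i j
    fin_cases i <;> fin_cases j <;> simp [Agent.H17.HKS.ts] <;> decide
  have hc : (!![2, 1; 1, 1] : Matrix (Fin 2) (Fin 2) ℚ).charpoly =
      Polynomial.X ^ 2 - Polynomial.C 3 * Polynomial.X + Polynomial.C 1 := by
    rw [Matrix.charpoly_fin_two]
    norm_num [Matrix.trace_fin_two, Matrix.det_fin_two]
  have hd : (Polynomial.X ^ 2 - Polynomial.C 3 * Polynomial.X + Polynomial.C 1 :
      Polynomial ℚ).natDegree = 2 := by compute_degree!
  have h5 : Real.sqrt 5 ^ 2 = 5 := Real.sq_sqrt (by norm_num)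
  have h6 : 2 < Real.sqrt 5 := Real.lt_sqrt_of_sq_lt (by norm_num)
  have h7 : Real.sqrt 5 < 3 := (Real.sqrt_lt' (by norm_num)).2 (by norm_num)
  have h8 : ((Real.sqrt 5 : ℝ) : ℂ) ^ 2 = 5 := by exact_mod_cast h5
  have hne : (Polynomial.X ^ 2 - Polynomial.C 3 * Polynomial.X + Polynomial.C 1 :
      Polynomial ℚ).map (algebraMap ℚ ℂ) ≠ 0 := by
    rw [Ne, Polynomial.map_eq_zero]
    intro c
    rw [c] at hd
    simp at hd
  refine h 2 Agent.H17.HKS.ts ?_ ⟨(3 + Real.sqrt 5) / 2, by linarith, ?_, ?_⟩ ?_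
    (fun x => ((x 0 : ℕ) : ℝ)) ?_ ⟨fun j => (Agent.H17.HKS.tn j : ℤ), 1 / 3, 2 / 3, by norm_num, ?_⟩
  · rw [hM, hc]
    refine Polynomial.irreducible_of_degree_le_three_of_not_isRoot (by rw [hd]; decide) (fun x hx => ?_)
    simp only [Polynomial.IsRoot, Polynomial.eval_add, Polynomial.eval_sub, Polynomial.eval_pow,
      Polynomial.eval_X, Polynomial.eval_mul, Polynomial.eval_C] at hx
    have : IsSquare (5 : ℚ) := ⟨2 * x - 3, by linarith⟩
    revert this
    norm_num
  · rw [hM, hc, Polynomial.mem_roots hne]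
    simp only [Polynomial.IsRoot, Polynomial.map_add, Polynomial.map_sub, Polynomial.map_pow,
      Polynomial.map_X, Polynomial.map_mul, Polynomial.map_C, Polynomial.eval_add, Polynomial.eval_sub,
      Polynomial.eval_pow, Polynomial.eval_X, Polynomial.eval_mul, Polynomial.eval_C]
    push_cast
    simp only [map_ofNat, map_one]
    linear_combination (1 / 4 : ℂ) * h8
  · intro z hz hz'
    rw [hM, hc, Polynomial.mem_roots hne] at hz
    simp only [Polynomial.IsRoot, Polynomial.map_add, Polynomial.map_sub, Polynomial.map_pow,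
      Polynomial.map_X, Polynomial.map_mul, Polynomial.map_C, Polynomial.eval_add, Polynomial.eval_sub,
      Polynomial.eval_pow, Polynomial.eval_X, Polynomial.eval_mul, Polynomial.eval_C] at hz
    simp only [map_ofNat, map_one] at hz
    have : (z - (((3 + Real.sqrt 5) / 2 : ℝ) : ℂ)) * (z - (((3 - Real.sqrt 5) / 2 : ℝ) : ℂ)) = 0 := by
      push_cast
      linear_combination hz - (1 / 4 : ℂ) * h8
    rcases mul_eq_zero.1 this with c | c
    · exact absurd (sub_eq_zero.1 c) hz'
    · rw [sub_eq_zero.1 c, Complex.norm_real, Real.norm_eq_abs, abs_lt]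
      constructor <;> linarith
  · rw [hM]; norm_num [Matrix.det_fin_two]
  · exact (continuous_of_discreteTopology (f := fun a : Fin 2 => ((a : ℕ) : ℝ))).comp (continuous_apply 0)
  · intro P Q hPQ
    obtain ⟨x, hx, hz⟩ := Agent.H17.HKS.tpoint
    obtain ⟨N, hN⟩ := (P ∪ Q).finite_toSet.bddAbove
    obtain ⟨o, -, -, ho⟩ := Agent.H17.HKS.tinv (fun j => if j ∈ P then 0 else 1) (N + 1)
    obtain ⟨z, hz⟩ := hz (3 * (N + 1))
    have key : ∀ j, j ∈ P ∪ Q → x (0 + (Agent.H17.HKS.tn j : ℤ) + ((z + o : ℕ) : ℤ)) =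
        if j ∈ P then 0 else 1 := by
      intro j hj
      have : j ≤ N := hN (by exact_mod_cast hj)
      rw [← hz _ _ (ho j (by omega))]
      congr 1; push_cast; ring
    refine ⟨fun t => x (t + ((z + o : ℕ) : ℤ)), fun m k => ?_, fun j hj => ?_, fun j hj => ?_⟩
    · obtain ⟨N', e⟩ := hx (m + ((z + o : ℕ) : ℤ)) k
      refine ⟨N', 0, ?_⟩
      have : ∀ i : Fin k, m + ((i : ℕ) : ℤ) + ((z + o : ℕ) : ℤ) =
          m + ((z + o : ℕ) : ℤ) + ((i : ℕ) : ℤ) := fun i => by ring
      simp only [this]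
      exact e
    · simp only
      rw [key j (Finset.mem_union_left _ hj), if_pos hj]; norm_num
    · simp only
      rw [key j (Finset.mem_union_right _ hj), if_neg (Finset.disjoint_right.1 hPQ hj)]; norm_num

end Pool.Agent.S06130
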