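import Pool.Statements.S06143
import Pool.Agent.H94.HD7

set_option autoImplicit false
open Pool Pool.MP_ca4620_an

namespace Pool.Agent.S06143

/-- There is C>0 such that for every Dirichlet polynomial with coefficients a_1..a_N, C(∣a_1∣ + sum over k≥2 of ∣a_k∣/(√k ln k)) is at most the mean value lim (1/T)∫_{-T/2}^{T/2} ∣Σ a_k k^{-2πit}∣ dt. -/
theorem result :
    ∃ C : ℝ, 0 < C ∧ ∀ (N : ℕ), 1 ≤ N → ∀ (a : ℕ → ℂ), ∃ L : ℝ,
      Filter.Tendsto
        (fun T : ℝ => (1 / T) * ∫ t in (-T / 2)..(T / 2),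
          ‖∑ k ∈ Finset.Icc 1 N,
              a k / ((k : ℂ) ^ (2 * (Real.pi : ℂ) * Complex.I * (t : ℂ)))‖)
        Filter.atTop (nhds L) ∧
      C * (‖a 1‖ + ∑ k ∈ Finset.Icc 2 N, ‖a k‖ / (Real.sqrt k * Real.log k)) ≤ L := by
  obtain ⟨C, C0, hC⟩ := H94.HD.bohr
  refine ⟨C⁻¹, inv_pos.2 C0, fun N hN a => ⟨_, ?_, (inv_mul_le_iff₀ C0).2 (hC N hN a)⟩⟩
  have ezc := H94.HD.ez_cont
  have h := H94.HD.weyl (fun i : Fin (N + 1) => -Real.log (H94.HD.pr i)) H94.HD.log_indep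
    ⟨fun x => (‖∑ m ∈ Finset.Icc 1 N, a m * ∏ i, H94.HD.ez (x i) ^ m.factorization (H94.HD.pr i)‖ : ℝ),
      by fun_prop⟩
  simp only [ContinuousMap.coe_mk, integral_ofReal, intervalIntegral.integral_ofReal,
    ← Complex.ofReal_mul] at h
  rw [integral_complex_ofReal, Filter.tendsto_ofReal_iff] at h
  refine h.congr fun T => ?_
  congr 1
  refine intervalIntegral.integral_congr fun t _ => ?_
  refine congrArg norm (Finset.sum_congr rfl fun k hk => ?_)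
  obtain ⟨h1, h2⟩ := Finset.mem_Icc.1 hk
  rw [H94.HD.flow (by omega) (by omega), div_eq_mul_inv]

end Pool.Agent.S06143
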