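import Pool.Statements.S06172
-- import your own Pool.Agent.* helpers here

set_option autoImplicit false
open Pool Pool.MP_cc91a5_an

namespace Pool.Agent.S06172

open Filter Topology

abbrev X := ℕ → Bool

def T (x : X) : X := fun i => x (i + 1)

lemma T_cont : Continuous T := by unfold T; fun_prop

lemma T_iter (n : ℕ) (x : X) (i : ℕ) : T^[n] x i = x (i + n) := by
  induction n generalizing x with
  | zero => rfl
  | succ n ih => rw [Function.iterate_succ_apply, ih]; rfl

def nx (s b : Bool) : Bool := if b then false else !s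

noncomputable def F : Bool → ℕ → X → ℝ
  | _, 0, _ => 0
  | s, n + 1, x => (if x 0 && s then 1 else 0) + F (nx s (x 0)) n (T x)

def st : Bool → ℕ → X → Bool
  | s, 0, _ => s
  | s, n + 1, x => st (nx s (x 0)) n (T x)

lemma F_cont (n : ℕ) : ∀ s, Continuous (F s n) := by
  induction n with
  | zero => intro s; exact continuous_const
  | succ n ih =>
    intro s
    have h : Continuous fun p : Bool × X =>
        (if p.1 && s then (1:ℝ) else 0) + F (nx s p.1) n (T p.2) := by
      rw [continuous_prod_of_discrete_left]
      intro b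
      exact (continuous_const (y := if b && s then (1:ℝ) else 0)).add ((ih (nx s b)).comp T_cont)
    have h2 : Continuous fun x : X => (x 0, x) := by fun_prop
    exact h.comp h2

lemma F_diff (n : ℕ) : ∀ s s' x, |F s n x - F s' n x| ≤ 1 := by
  induction n with
  | zero => intro s s' x; simp [F]
  | succ n ih =>
    intro s s' x
    simp only [F]
    cases hx : x 0
    · simpa [nx] using ih _ _ _
    · cases s <;> cases s' <;> simp [nx]

lemma F_add (n m : ℕ) : ∀ s x, F s (n + m) x = F s n x + F (st s n x) m (T^[n] x) := by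
  induction n with
  | zero => intro s x; simp [F, st]
  | succ n ih =>
    intro s x
    rw [show n + 1 + m = (n + m) + 1 by ring]
    simp only [F, st, ih, Function.iterate_succ_apply]
    ring

lemma st_add (n m : ℕ) : ∀ s x, st s (n + m) x = st (st s n x) m (T^[n] x) := by
  induction n with
  | zero => intro s x; simp [st]
  | succ n ih =>
    intro s x
    rw [show n + 1 + m = (n + m) + 1 by ring]
    simp only [st, ih, Function.iterate_succ_apply]

lemma F_local (n : ℕ) : ∀ s (x y : X), (∀ k < n, x k = y k) →
    F s n x = F s n y ∧ st s n x = st s n y := by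
  induction n with
  | zero => intro s x y _; simp [F, st]
  | succ n ih =>
    intro s x y h
    have h0 := h 0 (by omega)
    have := ih (nx s (y 0)) (T x) (T y) (fun k hk => h (k + 1) (by omega))
    simp only [F, st, h0, this, and_self]

def dl (j : ℕ) : X := fun i => decide (i = j)

lemma T_dl (j : ℕ) : T (dl (j + 1)) = dl j := by
  ext i; simp [T, dl]

lemma F_dl (l : ℕ) : ∀ s, (F s (l + 1) (dl l) = 0 ∧ F (!s) (l + 1) (dl l) = 1 ∨
    F s (l + 1) (dl l) = 1 ∧ F (!s) (l + 1) (dl l) = 0) ∧ st s (l + 1) (dl l) = false := by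
  induction l with
  | zero => intro s; cases s <;> simp [F, st, dl, nx]
  | succ l ih =>
    intro s
    have h0 : dl (l + 1) 0 = false := by simp [dl]
    have e : ∀ s, F s (l + 1 + 1) (dl (l + 1)) = F (!s) (l + 1) (dl l) := by
      intro s; rw [F, h0, T_dl]; simp [nx]
    rw [e, e, st, h0, T_dl]
    exact ih (!s)

lemma F_dl_succ (l : ℕ) : F false (l + 2) (dl (l + 1)) = F true (l + 1) (dl l) := by
  have h0 : dl (l + 1) 0 = false := by simp [dl]
  rw [F, h0, T_dl]; simp [nx]

lemma F_zero (n : ℕ) : ∀ s, F s n (fun _ => false) = 0 := by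
  induction n with
  | zero => intro s; rfl
  | succ n ih =>
    intro s
    have : T (fun _ => false) = fun _ => false := rfl
    rw [F, this, ih]; simp

lemma ext_tendsto (x : X) (n : ℕ) :
    Tendsto (fun l => (fun i => x i || decide (i = n + l) : X)) atTop (𝓝 x) := by
  rw [tendsto_pi_nhds]
  intro i
  refine tendsto_const_nhds.congr' ?_
  filter_upwards [eventually_gt_atTop i] with l hl
  have : i ≠ n + l := by omega
  simp [this]

lemma main (g : X → ℝ) (hg : Continuous g) (B : ℝ)
    (hB : ∀ n : ℕ, 1 ≤ n → ∀ x : X, |F false n x - ∑ k ∈ Finset.range n, g (T^[k] x)| ≤ B) :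
    False := by
  set S : ℕ → X → ℝ := fun n x => ∑ k ∈ Finset.range n, g (T^[k] x) with hS
  have S_add : ∀ n m x, S (n + m) x = S n x + S m (T^[n] x) := by
    intro n m x
    simp only [hS, Finset.sum_range_add, ← Function.iterate_add_apply, add_comm]
  have S_cont : ∀ n, Continuous (S n) := fun n =>
    continuous_finsetSum _ fun k _ => hg.comp (T_cont.iterate k)
  have hB0 : 0 ≤ B := (abs_nonneg _).trans (hB 1 le_rfl fun _ => false)
  have hB' : ∀ n x, |F false n x - S n x| ≤ B := by
    intro n x
    rcases Nat.eq_zero_or_pos n with rfl | h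
    · simpa [hS, F] using hB0
    · exact hB n h x
  have g0 : g (fun _ => false) = 0 := by
    by_contra h
    obtain ⟨n, hn⟩ := exists_nat_gt (B / |g (fun _ => false)|)
    have h1 := hB' n fun _ => false
    have h2 : ∀ k, T^[k] (fun _ => false) = fun _ => false := fun k =>
      Function.iterate_fixed rfl k
    simp only [hS, F_zero, h2, Finset.sum_const, Finset.card_range, nsmul_eq_mul, zero_sub,
      abs_neg, abs_mul, Nat.abs_cast] at h1
    rw [div_lt_iff₀ (abs_pos.mpr h)] at hn
    linarith
  let d : ℕ → ℝ := fun l => F false (l + 1) (dl l) - S (l + 1) (dl l)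
  have hd : ∀ l, 1 - |g (dl (l + 1))| ≤ |d (l + 1) - d l| := by
    intro l
    have h1 : S (l + 1 + 1) (dl (l + 1)) = g (dl (l + 1)) + S (l + 1) (dl l) := by
      rw [add_comm (l + 1) 1, S_add]
      simp [hS, T_dl, add_comm]
    have h2 := (F_dl l false).1
    simp only [d, h1, F_dl_succ]
    simp only [Bool.not_false] at h2
    rcases h2 with ⟨a, b⟩ | ⟨a, b⟩ <;> rw [a, b] <;>
      cases abs_cases (g (dl (l + 1))) <;>
      rw [le_abs] <;> first | (left; linarith) | (right; linarith)
  have hgl : Tendsto (fun l => |g (dl (l + 1))|) atTop (𝓝 0) := by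
    have h1 := (hg.tendsto _).comp
      ((ext_tendsto (fun _ => false) 0).comp (tendsto_add_atTop_nat 1))
    rw [g0] at h1
    have h2 := h1.abs
    rw [abs_zero] at h2
    refine h2.congr fun l => ?_
    simp only [Function.comp, Bool.false_or, zero_add]
    rfl
  have hσ : ∃ σ : ℝ, |σ| = 1 ∧ ∃ᶠ l in atTop, 1 / 3 ≤ σ * d l := by
    by_contra hc
    push Not at hc
    have h1 := hc 1 (by simp)
    have h2 := hc (-1) (by simp)
    have h3 := (tendsto_add_atTop_nat 1).eventually (h1.and h2)
    obtain ⟨l, ⟨⟨a1, a2⟩, ⟨b1, b2⟩⟩, c⟩ :=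
      (((h1.and h2).and h3).and (hgl.eventually (gt_mem_nhds (show (0:ℝ) < 1/3 by norm_num)))).exists
    have := hd l
    rw [le_abs] at this
    rcases this with h | h <;> linarith
  obtain ⟨σ, hσ1, hσ⟩ := hσ
  have step : ∀ N : ℕ, ∃ n x, (∀ i, n ≤ i → x i = false) ∧ st false n x = false ∧
      (N : ℝ) / 4 ≤ σ * (F false n x - S n x) := by
    intro N
    induction N with
    | zero => exact ⟨0, fun _ => false, fun _ _ => rfl, rfl, by simp [F, hS]⟩
    | succ N ih =>
      obtain ⟨n, x, h1, h2, h3⟩ := ih
      have h4 := ((S_cont n).tendsto x).comp (ext_tendsto x n)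
      have h5 := (Metric.tendsto_nhds.mp h4) (1 / 12) (by norm_num)
      obtain ⟨l, hl1, hl2⟩ := (hσ.and_eventually h5).exists
      set y : X := fun i => x i || decide (i = n + l) with hy
      have e1 : T^[n] y = dl l := by
        ext i
        rw [T_iter]
        simp only [hy, dl, h1 (i + n) (by omega), Bool.false_or, decide_eq_decide]
        omega
      have e2 := F_local n false y x (fun k hk => by
        have : k ≠ n + l := by omega
        simp [hy, this])
      refine ⟨n + (l + 1), y, fun i hi => ?_, ?_, ?_⟩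
      · have : i ≠ n + l := by omega
        simp [hy, this, h1 i (by omega)]
      · rw [st_add, e1]; exact (F_dl l _).2
      · rw [F_add, S_add, e1, e2.1, e2.2, h2]
        simp only [Function.comp, Real.dist_eq] at hl2
        have h6 : |σ * (S n y - S n x)| < 1 / 12 := by rwa [abs_mul, hσ1, one_mul]
        have h7 := (abs_lt.mp h6).2
        simp only [d] at hl1
        push_cast
        linarith
  obtain ⟨N, hN⟩ := exists_nat_gt (4 * B)
  obtain ⟨n, x, -, -, h⟩ := step N
  have h1 : σ * (F false n x - S n x) ≤ B := by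
    refine (le_abs_self _).trans ?_
    rw [abs_mul, hσ1, one_mul]
    exact hB' n x
  linarith


/-- The negation of the preceding statement: For every continuous self-map T of a compact metric space and every almost additive sequence of continuous functions with bounded variations in the Bowen metric, some continuous g has Birkhoff sums uniformly within bounded distance of f_n. -/
theorem result :
    ¬ (∀ (X : Type) [MetricSpace X] [CompactSpace X] (T : X → X), Continuous T →
      ∀ f : ℕ → X → ℝ, (∀ n, Continuous (f n)) →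
        (∃ C : ℝ, ∀ n m : ℕ, 1 ≤ n → 1 ≤ m → ∀ x : X,
            |f (n + m) x - f n x - f m (T^[n] x)| ≤ C) →
        (∃ ε : ℝ, 0 < ε ∧ ∃ K : ℝ, ∀ n : ℕ, 1 ≤ n → ∀ x y : X,
            (∀ k : ℕ, k < n → dist (T^[k] x) (T^[k] y) < ε) →
              |f n x - f n y| ≤ K) →
        ∃ g : X → ℝ, Continuous g ∧ ∃ B : ℝ, ∀ n : ℕ, 1 ≤ n → ∀ x : X,
            |f n x - ∑ k ∈ Finset.range n, g (T^[k] x)| ≤ B) := by
  intro H
  let : MetricSpace X := PiNat.metricSpace
  have hT := H X T T_cont (F false) (fun n => F_cont n false) ⟨1, fun n m _ _ x => ?_⟩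
    ⟨1, one_pos, 0, fun n _ x y h => ?_⟩
  · obtain ⟨g, hg, B, hB⟩ := hT
    exact main g hg B hB
  · rw [F_add, add_sub_cancel_left]
    exact F_diff _ _ _ _
  · have := (F_local n false x y fun k hk => by
      have h1 := PiNat.apply_eq_of_dist_lt (n := 0) (i := 0) (by simpa using h k hk) le_rfl
      simpa [T_iter] using h1).1
    rw [this]; simp

end Pool.Agent.S06172
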