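import Pool.Statements.S06180
import Pool.Agent.H49.MD12

set_option autoImplicit false
open Filter Topology MeasureTheory
open Pool Pool.MP_cd1519_an

namespace Pool.Agent.S06180

/-- The negation of the preceding statement: For compact metric systems (X,T), (X',T') whose invariant probability measures match up pairwise by measure-theoretic (mod 0) isomorphisms in both directions, Möbius disjointness of (X,T) implies Möbius disjointness of (X',T'). -/
theorem result :
    ¬ (∀ (X : Type) [MetricSpace X] [CompactSpace X] [MeasurableSpace X] [BorelSpace X]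
    (X' : Type) [MetricSpace X'] [CompactSpace X'] [MeasurableSpace X'] [BorelSpace X']
    (T : X → X) (T' : X' → X'), Continuous T → Continuous T' →
    (∀ μ : Measure X, IsProbabilityMeasure μ → MeasurePreserving T μ μ →
      ∃ ν : Measure X', IsProbabilityMeasure ν ∧ MeasurePreserving T' ν ν ∧
        ∃ φ : X → X', ∃ ψ : X' → X, MeasurePreserving φ μ ν ∧ MeasurePreserving ψ ν μ ∧
          (∀ᵐ x ∂μ, φ (T x) = T' (φ x)) ∧ (∀ᵐ x ∂μ, ψ (φ x) = x) ∧
          (∀ᵐ y ∂ν, φ (ψ y) = y)) →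
    (∀ ν : Measure X', IsProbabilityMeasure ν → MeasurePreserving T' ν ν →
      ∃ μ : Measure X, IsProbabilityMeasure μ ∧ MeasurePreserving T μ μ ∧
        ∃ φ : X → X', ∃ ψ : X' → X, MeasurePreserving φ μ ν ∧ MeasurePreserving ψ ν μ ∧
          (∀ᵐ x ∂μ, φ (T x) = T' (φ x)) ∧ (∀ᵐ x ∂μ, ψ (φ x) = x) ∧
          (∀ᵐ y ∂ν, φ (ψ y) = y)) →
    (∀ (x : X) (f : X → ℂ), Continuous f →
      Tendsto (fun N : ℕ => (N : ℂ)⁻¹ * ∑ n ∈ Finset.range N,
        ((ArithmeticFunction.moebius n : ℤ) : ℂ) * f (T^[n] x)) atTop (𝓝 0)) →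
    (∀ (x : X') (f : X' → ℂ), Continuous f →
      Tendsto (fun N : ℕ => (N : ℂ)⁻¹ * ∑ n ∈ Finset.range N,
        ((ArithmeticFunction.moebius n : ℤ) : ℂ) * f (T'^[n] x)) atTop (𝓝 0))) := by
  intro h
  obtain ⟨G, p, hp, np⟩ := H49.MD.point
  letI : MetricSpace ((ℕ → Bool) × (ℕ → Bool)) := TopologicalSpace.metrizableSpaceMetric _
  haveI : CompactSpace (H49.MD.XS G) := isCompact_iff_compactSpace.1 (H49.MD.XS_closed G).isCompact
  haveI : CompactSpace (H49.MD.ZS G) := isCompact_iff_compactSpace.1 (H49.MD.ZS_closed G).isCompact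
  have m := H49.MD.mat (H49.MD.T1 G) (H49.MD.T1_cont G).measurable (H49.MD.ZS G)
    (H49.MD.ZS_closed G).measurableSet (H49.MD.T0 G) (H49.MD.T0_cont G).measurable (fun _ => rfl)
    (H49.MD.z0 G) (H49.MD.full G)
  refine np ?_
  simpa only [H49.MD.T1_it, add_zero] using h (H49.MD.ZS G) (H49.MD.XS G) _ _ (H49.MD.T0_cont G)
    (H49.MD.T1_cont G) m.1 m.2 (H49.MD.ZS_disj G) ⟨p, hp⟩
    (fun x => if x.1.1 0 = true then 1 else 0) ((continuous_of_discreteTopology
      (f := fun b : Bool => if b = true then (1 : ℂ) else 0)).comp (by fun_prop))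

end Pool.Agent.S06180
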