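import Pool.Statements.S06190
import Pool.Agent.H92.Bl3

set_option autoImplicit false
open scoped CStarMatrix
open Pool Pool.MP_cdaa24_an

namespace Pool.Agent.S06190

/-- The negation of the preceding statement: For all C*-algebras A, B and Hilbert spaces H, every jointly completely bounded bilinear map A×B→B(H) splits as φ₁(a,b)+φ₂(b,a), with φ₁ multiplicatively (Haagerup) bounded on A×B and φ₂ multiplicatively bounded on B×A. -/
theorem result :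
    ¬ (∀ (A B H : Type) [NonUnitalCStarAlgebra A] [PartialOrder A] [StarOrderedRing A]
      [NonUnitalCStarAlgebra B] [PartialOrder B] [StarOrderedRing B]
      [NormedAddCommGroup H] [InnerProductSpace ℂ H] [CompleteSpace H]
      (φ : A →ₗ[ℂ] B →ₗ[ℂ] (H →L[ℂ] H)),
      (∃ C : ℝ, ∀ (n m : ℕ) (a : CStarMatrix (Fin n) (Fin n) A)
          (b : CStarMatrix (Fin m) (Fin m) B) (x : Fin n × Fin m → H),
          ∑ p : Fin n × Fin m, ‖∑ q : Fin n × Fin m, φ (a p.1 q.1) (b p.2 q.2) (x q)‖ ^ 2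
            ≤ (C * ‖a‖ * ‖b‖) ^ 2 * ∑ q : Fin n × Fin m, ‖x q‖ ^ 2) →
      ∃ (φ₁ : A →ₗ[ℂ] B →ₗ[ℂ] (H →L[ℂ] H)) (φ₂ : B →ₗ[ℂ] A →ₗ[ℂ] (H →L[ℂ] H)),
        (∃ C : ℝ, ∀ (n : ℕ) (a : CStarMatrix (Fin n) (Fin n) A)
            (b : CStarMatrix (Fin n) (Fin n) B) (x : Fin n → H),
            ∑ i : Fin n, ‖∑ j : Fin n, ∑ k : Fin n, φ₁ (a i k) (b k j) (x j)‖ ^ 2
              ≤ (C * ‖a‖ * ‖b‖) ^ 2 * ∑ j : Fin n, ‖x j‖ ^ 2) ∧
        (∃ C : ℝ, ∀ (n : ℕ) (b : CStarMatrix (Fin n) (Fin n) B)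
            (a : CStarMatrix (Fin n) (Fin n) A) (x : Fin n → H),
            ∑ i : Fin n, ‖∑ j : Fin n, ∑ k : Fin n, φ₂ (b i k) (a k j) (x j)‖ ^ 2
              ≤ (C * ‖b‖ * ‖a‖) ^ 2 * ∑ j : Fin n, ‖x j‖ ^ 2) ∧
        ∀ (a : A) (b : B), φ a b = φ₁ a b + φ₂ b a) := by
  intro hall
  open Pool.Agent.H92.Bl in
  let _ : PartialOrder AA := CStarAlgebra.spectralOrder AA
  open Pool.Agent.H92.Bl in
  have : StarOrderedRing AA := CStarAlgebra.spectralOrderedRing AA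
  open Pool.Agent.H92.Bl in
  obtain ⟨φ₁, φ₂, ⟨C₁, h₁⟩, ⟨C₂, h₂⟩, h⟩ := hall AA AA HH (phi fun N i => ev i.val)
    ⟨2, phi_jcb _⟩
  open Pool.Agent.H92.Bl in
  refine no_split (fun N i => ev i.val) (fun N i => dl i.val) (fun N i => dl_star _)
    (fun N i j => ?_) (fun N i j => ?_) φ₁ φ₂ C₁ C₂ h₁ h₂ h
  · simp only [H92.Bl.dl_mul, (ZMod.val_injective _).eq_iff]
  · simp only [H92.Bl.ev_dl, (ZMod.val_injective _).eq_iff]

end Pool.Agent.S06190
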