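import Pool.Statements.S06198

set_option autoImplicit false
open Pool Pool.MP_cea7e0_an

namespace Pool.Agent.S06198

open Polynomial

theorem norm_le_of_roots (p : ℂ[X]) (h : ∀ w : ℂ, p.eval w = 0 → w.re < 0) (z w : ℂ)
    (hz : 0 ≤ z.re) (hw1 : w.re = -z.re) (hw2 : w.im = z.im) :
    ‖p.eval w‖ ≤ ‖p.eval z‖ := by
  have hs : p.Splits := IsAlgClosed.splits p
  rw [hs.eval_eq_prod_roots w, hs.eval_eq_prod_roots z, norm_mul, norm_mul]
  apply mul_le_mul_of_nonneg_left _ (norm_nonneg _)
  have hr : ∀ r ∈ p.roots, r.re < 0 := fun r hr => h r (mem_roots'.1 hr).2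
  generalize p.roots = m at hr
  induction m using Multiset.induction_on with
  | empty => simp
  | cons a m ih =>
    simp only [Multiset.map_cons, Multiset.prod_cons, norm_mul]
    have ha := hr a (Multiset.mem_cons_self _ _)
    have h1 : ‖w - a‖ ≤ ‖z - a‖ := by
      rw [← sq_le_sq₀ (norm_nonneg _) (norm_nonneg _), Complex.sq_norm, Complex.sq_norm,
        Complex.normSq_apply, Complex.normSq_apply]
      simp only [Complex.sub_re, Complex.sub_im, hw1, hw2]
      nlinarith
    exact mul_le_mul h1 (ih fun r hr' => hr r (Multiset.mem_cons_of_mem hr')) (norm_nonneg _)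
      (norm_nonneg _)

theorem aeval_poch (k : ℕ) (c : ℝ) (z : ℂ) :
    aeval z ((ascPochhammer ℝ k).comp (X + C c)) = ∏ i ∈ Finset.range k, (z + c + i) := by
  rw [aeval_comp]
  simp only [map_add, aeval_X, aeval_C, Complex.coe_algebraMap]
  generalize z + (c : ℂ) = w
  induction k with
  | zero => simp
  | succ k ih =>
    rw [ascPochhammer_succ_right, Finset.prod_range_succ, map_mul, ih]
    simp

def g : ℕ → ℕ
  | 0 => 1
  | 1 => 101
  | 2 => 102
  | 3 => 103
  | 4 => 104
  | 5 => 105
  | 6 => 106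
  | 7 => 107
  | 8 => 108
  | 9 => 107
  | 10 => 106
  | 11 => 105
  | 12 => 104
  | 13 => 103
  | 14 => 102
  | 15 => 101
  | 16 => 1
  | _ => 0

def ff (k : ℤ) : ℝ := if 0 ≤ k then (g k.toNat : ℝ) else 0

theorem g_big (k : ℕ) (h : 16 < k) : g k = 0 := by
  obtain ⟨j, rfl⟩ : ∃ j, k = j + 17 := ⟨k - 17, by omega⟩
  rfl

theorem g_lc : ∀ u < 17, ∀ x < 17, ∀ v < 17, u < x → x < v →
    g u * g v ≤ g x * g (u + v - x) := by decide +kernel

theorem ff_nonneg (k : ℤ) : 0 ≤ ff k := by
  unfold ff; split_ifs <;> positivity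

theorem ff_nat (k : ℕ) : ff k = g k := by simp [ff]

theorem ff_lc (u x y v : ℤ) (h1 : u < x) (h2 : x < v) (h3 : u + v = x + y) :
    ff u * ff v ≤ ff x * ff y := by
  by_cases hu : u < 0
  · have : ff u = 0 := by simp [ff, hu]
    rw [this, zero_mul]; exact mul_nonneg (ff_nonneg _) (ff_nonneg _)
  obtain ⟨u, rfl⟩ := Int.eq_ofNat_of_zero_le (not_lt.1 hu)
  obtain ⟨x, rfl⟩ := Int.eq_ofNat_of_zero_le (a := x) (by omega)
  obtain ⟨v, rfl⟩ := Int.eq_ofNat_of_zero_le (a := v) (by omega)
  have hy : y = ((u + v - x : ℕ) : ℤ) := by omega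
  rw [hy, ff_nat, ff_nat, ff_nat, ff_nat]
  by_cases hv : 16 < v
  · rw [g_big v hv]; simp only [Nat.cast_zero, mul_zero]; positivity
  exact_mod_cast g_lc u (by omega) x (by omega) v (by omega) (by omega) (by omega)

noncomputable def PP : ℝ[X] := ∑ k ∈ Finset.Nat.antidiagonalTuple 2 16,
          Polynomial.C ((Nat.multinomial Finset.univ k : ℝ) * ∏ i, ff ((k i : ℕ) : ℤ)) *
          (Matrix.of fun (i j : Fin 2) => (ascPochhammer ℝ (k i)).comp
              (Polynomial.X + Polynomial.C (((j : ℕ) : ℝ) - ((i : ℕ) : ℝ)))).det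

theorem PP_eval0 (z : ℂ) : aeval z PP = ∑ k ∈ Finset.range 17,
    ((Nat.choose 16 k * g k * g (16 - k) : ℕ) : ℂ) *
      ((∏ i ∈ Finset.range k, (z + i)) * (∏ i ∈ Finset.range (16 - k), (z + i))
        - (∏ i ∈ Finset.range k, (z + 1 + i)) * (∏ i ∈ Finset.range (16 - k), (z - 1 + i))) := by
  unfold PP
  rw [Finset.Nat.antidiagonalTuple_two, Finset.sum_map,
    Finset.Nat.sum_antidiagonal_eq_sum_range_succ_mk, map_sum]
  apply Finset.sum_congr rfl
  intro k hk
  have hk' : k ≤ 16 := by simpa [Nat.lt_succ_iff] using hk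
  have e : ((piFinTwoEquiv fun _ => ℕ).symm.toEmbedding (k, 16 - k)) = ![k, 16 - k] := rfl
  rw [e, Nat.multinomial_univ_two, Matrix.det_fin_two, Fin.prod_univ_two]
  simp only [Matrix.of_apply]
  rw [aeval_mul, aeval_sub, aeval_mul, aeval_mul, aeval_poch,
    aeval_poch, aeval_poch, aeval_poch, aeval_C]
  simp only [Matrix.cons_val_zero, Matrix.cons_val_one, ff_nat]
  rw [Nat.add_sub_cancel' hk', ← Nat.choose_eq_factorial_div_factorial hk']
  simp [mul_assoc, sub_eq_add_neg]

theorem PP_eval (z : ℂ) : aeval z PP = 213412456857600000 * z ^ 0 + 702230323215052800 * z ^ 1 + 992006924528424960 * z ^ 2 + 815811050866855680 * z ^ 3 + 445954481675539200 * z ^ 4 + 175567769701484160 * z ^ 5 + 52710788904533760 * z ^ 6 + 12566448272217840 * z ^ 7 + 2426153792290800 * z ^ 8 + 377148422130480 * z ^ 9 + 45830163178800 * z ^ 10 + 4145360790480 * z ^ 11 + 259721826000 * z ^ 12 + 9981244560 * z ^ 13 + 176382480 * z ^ 14 := by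
  rw [PP_eval0]
  simp only [Finset.sum_range_succ, Finset.sum_range_zero, g, Nat.choose, Finset.prod_range_succ,
    Finset.prod_range_zero, Nat.reduceSub]
  push_cast
  ring

theorem ev1 : aeval (1 / 2 + 5 * Complex.I) PP = (4393404163163354161875 / 1024) + (101179054248642654375 / 16) * Complex.I := by
  rw [PP_eval]
  linear_combination ((-855459157029362998125 / 256) * Complex.I ^ 0 + (13306230897950825625 / 2) * Complex.I ^ 1 + (5274591294110323509375 / 64) * Complex.I ^ 2 + (282183390148507640625) * Complex.I ^ 3 + (10179138217016478984375 / 16) * Complex.I ^ 4 + (1030377875384025000000) * Complex.I ^ 5 + (4849074694983884765625 / 4) * Complex.I ^ 6 + (1035641673140156250000) * Complex.I ^ 7 + (636502399422509765625) * Complex.I ^ 8 + (274704754406250000000) * Complex.I ^ 9 + (79151136489257812500) * Complex.I ^ 10 + (13691310937500000000) * Complex.I ^ 11 + (1076553222656250000) * Complex.I ^ 12) * Complex.I_mul_I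

theorem ev2 : aeval (-1 / 2 + 5 * Complex.I) PP = (-16014325092961804922625 / 1024) + (765755608922013835125 / 128) * Complex.I := by
  rw [PP_eval]
  linear_combination ((4011630558709695718875 / 256) * Complex.I ^ 0 + (-84093744809449895625 / 16) * Complex.I ^ 1 + (-587075658927095878125 / 64) * Complex.I ^ 2 + (296789352869643046875 / 8) * Complex.I ^ 3 + (1736687784200988984375 / 16) * Complex.I ^ 4 + (178725324466631250000) * Complex.I ^ 5 + (959361072862142578125 / 4) * Complex.I ^ 6 + (262528526980371093750) * Complex.I ^ 7 + (215909399429150390625) * Complex.I ^ 8 + (124754615261718750000) * Complex.I ^ 9 + (47472381782226562500) * Complex.I ^ 10 + (10676961914062500000) * Complex.I ^ 11 + (1076553222656250000) * Complex.I ^ 12) * Complex.I_mul_I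

theorem result :
    ¬ (∀ (n r d : ℕ), 2 ≤ r → r ≤ d → ∀ f : ℤ → ℝ,
      (∀ k : ℤ, (k < 0 ∨ (n : ℤ) < k) → f k = 0) →
      0 < f 0 → 0 < f (n : ℤ) →
      (∀ m : ℕ, m ≤ d → ∀ a b : Fin m → ℤ, StrictMono a → StrictMono b →
          0 ≤ (Matrix.of fun s t => f (a s - b t)).det) →
      ∀ P : Polynomial ℝ,
        P = ∑ k ∈ Finset.Nat.antidiagonalTuple r n,
          Polynomial.C ((Nat.multinomial Finset.univ k : ℝ) * ∏ i, f ((k i : ℕ) : ℤ)) *
          (Matrix.of fun (i j : Fin r) => (ascPochhammer ℝ (k i)).comp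
              (Polynomial.X + Polynomial.C (((j : ℕ) : ℝ) - ((i : ℕ) : ℝ)))).det →
        P ≠ 0 →
        (∀ z : ℂ, Polynomial.aeval z P = 0 → z.re < 0) ∧
        (∀ i : ℕ, i ≤ P.natDegree → 0 < P.coeff i)) := by
  intro h
  have h1 := h 16 2 2 le_rfl le_rfl ff ?_ ?_ ?_ ?_ PP rfl ?_
  · have h2 := norm_le_of_roots (PP.map (algebraMap ℝ ℂ))
      (fun w hw => h1.1 w (by rwa [eval_map_algebraMap] at hw))
      (1 / 2 + 5 * Complex.I) (-1 / 2 + 5 * Complex.I) (by simp) (by simp; norm_num) (by simp)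
    rw [eval_map_algebraMap, eval_map_algebraMap, ev1, ev2,
      ← sq_le_sq₀ (norm_nonneg _) (norm_nonneg _), Complex.sq_norm, Complex.sq_norm,
        Complex.normSq_apply, Complex.normSq_apply] at h2
    norm_num at h2
  · rintro k (hk | hk)
    · simp [ff, hk]
    · obtain ⟨k, rfl⟩ := Int.eq_ofNat_of_zero_le (a := k) (by omega)
      rw [ff_nat, g_big k (by omega)]; simp
  · have := ff_nat 0
    simp only [Nat.cast_zero] at this
    rw [this]; simp [g]
  · rw [ff_nat]; simp [g]
  · intro m hm a b ha hb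
    interval_cases m
    · simp
    · simp [ff_nonneg]
    · rw [Matrix.det_fin_two]
      simp only [Matrix.of_apply]
      have h1 : a 0 < a 1 := ha (by decide)
      have h2 : b 0 < b 1 := hb (by decide)
      have := ff_lc (a 0 - b 1) (a 0 - b 0) (a 1 - b 1) (a 1 - b 0) (by omega) (by omega) (by ring)
      linarith
  · intro h0
    have := PP_eval 0
    rw [h0] at this
    norm_num at this

end Pool.Agent.S06198
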