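import Pool.Statements.S06212
import Pool.Agent.H62.Haag

set_option autoImplicit false
open ComplexOrder
open Pool Pool.MP_cf2fa9_an

namespace Pool.Agent.S06212

/-- The negation of the preceding statement: For k ≥ 2, no nonzero positive definite ℓ²-coefficient ψ(g)=⟨λ(g)η,η⟩ lies below g ↦ (2k−1)^(−∣g∣/2) on the free group F_k. That is, the critical Haagerup function is singular to the Fourier algebra. -/
theorem result :
    ¬ (∀ k : ℕ, 2 ≤ k → ∀ η : FreeGroup (Fin k) → ℂ,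
    Summable (fun h => ‖η h‖ ^ 2) → η ≠ 0 →
    ¬ ∀ (n : ℕ) (g : Fin n → FreeGroup (Fin k)) (c : Fin n → ℂ),
      0 ≤ ∑ i, ∑ j, starRingEnd ℂ (c i) * c j *
        ((((1 / Real.sqrt (2 * (k : ℝ) - 1)) ^ (FreeGroup.toWord ((g i)⁻¹ * g j)).length : ℝ) : ℂ)
          - ∑' h, starRingEnd ℂ (η h) * η (((g i)⁻¹ * g j)⁻¹ * h))) := by
  intro H
  refine H 2 le_rfl (fun h => if h = 1 then 1 / 4 else 0)
    (summable_of_ne_finset_zero (s := {1}) fun b hb => by simp_all)
    (fun h => by simpa using congrFun h 1) fun n g c => ?_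
  set r : ℝ := 1 / Real.sqrt (2 * ((2 : ℕ) : ℝ) - 1) with hr
  have r2 : r ^ 2 = 1 / 3 := by
    rw [hr, div_pow, Real.sq_sqrt (by norm_num)]
    norm_num
  have r0 : 0 ≤ r := by positivity
  obtain ⟨N, hN⟩ := (Set.finite_range fun i => (g i).toWord.length).bddAbove
  have hN' : ∀ i, (g i).toWord.length ≤ N := fun i => hN ⟨i, rfl⟩
  have h1 := H62.Haag.lower c (fun i => (g i).toWord) r0 (by nlinarith) N
  set T := (List.finite_length_le (Fin 2 × Bool) N).toFinset with hT
  set T' := (List.finite_length_le (Fin 2 × Bool) (N + 1)).toFinset with hT'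
  have e1 : ∀ i j, r ^ ((g i)⁻¹ * g j).toWord.length =
      2 / 3 * ∑ p ∈ T', H62.Haag.φ r p (g i).toWord * H62.Haag.φ r p (g j).toWord +
      1 / 3 * (H62.Haag.φ r [] (g i).toWord * H62.Haag.φ r [] (g j).toWord) := fun i j => by
    obtain ⟨w, a, b, h1, h2, h3⟩ := H62.Haag.split (g i).toWord (g j).toWord
    rw [H62.Haag.len _ _ h1 h2 h3, ← H62.Haag.gram r w a b h3 T' fun p hp => ?_, r2, h1, h2]
    · norm_num
    · have := hN' i
      have := hp.length_le
      simp [hT', h1] at *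
      omega
  have e2 : ∀ i j, ∑' h, starRingEnd ℂ (if h = 1 then 1 / 4 else 0) *
      (if ((g i)⁻¹ * g j)⁻¹ * h = 1 then (1 / 4 : ℂ) else 0) = (1 / 16 * ∑ p ∈ T,
      (if p = (g i).toWord then 1 else 0) * (if p = (g j).toWord then 1 else 0) : ℝ) := fun i j => by
    rw [tsum_eq_single 1 fun h hh => by simp [hh], Finset.sum_eq_single_of_mem (g i).toWord
      (by simpa [hT] using hN' i) fun p _ hp => by simp [hp]]
    by_cases h : g i = g j
    · simp [h, Complex.conj_ofNat]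
      norm_num
    · simp [h, inv_mul_eq_one, Ne.symm h]
  have e3 : ∀ (S : Finset (List (Fin 2 × Bool))) (f : List (Fin 2 × Bool) → Fin n → ℝ),
      ∑ i, ∑ j, starRingEnd ℂ (c i) * c j * (∑ p ∈ S, f p i * f p j : ℝ) =
      (∑ p ∈ S, ‖∑ i, c i * f p i‖ ^ 2 : ℝ) := fun S f => by
    simp only [Complex.ofReal_sum, ← H62.Haag.quad, Finset.mul_sum]
    rw [Finset.sum_congr rfl fun i _ => Finset.sum_comm, Finset.sum_comm]
  simp only [e1, e2, Complex.ofReal_add, Complex.ofReal_mul (_ / _), mul_sub, mul_add,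
    mul_left_comm _ ((_ / _ : ℝ) : ℂ), Finset.sum_sub_distrib, Finset.sum_add_distrib,
    ← Finset.mul_sum, e3, H62.Haag.quad]
  rw [← Complex.ofReal_mul, ← Complex.ofReal_mul, ← Complex.ofReal_mul, ← Complex.ofReal_add,
    ← Complex.ofReal_sub, Complex.zero_le_real]
  norm_num only [Fintype.card_prod, Fintype.card_fin, Fintype.card_bool] at h1
  nlinarith [sq_nonneg ‖∑ i, c i * H62.Haag.φ r [] (g i).toWord‖,
    Finset.sum_nonneg (s := T') fun p _ => sq_nonneg ‖∑ i, c i * H62.Haag.φ r p (g i).toWord‖]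

end Pool.Agent.S06212
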