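import Pool.Statements.S06264
import Pool.Agent.H87.NoGat3
import Pool.Agent.H87.ScatAsp

set_option autoImplicit false
open Pool Pool.MP_d36c66_an

namespace Pool.Agent.S06264

theorem result :
    ¬ (∀ (X : Type) [NormedAddCommGroup X] [NormedSpace ℝ X] [CompleteSpace X],
      (∀ Y : Submodule ℝ X, TopologicalSpace.SeparableSpace ↥Y →
          TopologicalSpace.SeparableSpace (↥Y →L[ℝ] ℝ)) →
      (∃ (Γ : Type) (f : Γ → (X →L[ℝ] ℝ)),
          (∃ C : ℝ, ∀ γ, ‖f γ‖ ≤ C) ∧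
          (∀ x : X, Filter.Tendsto (fun γ => f γ x) Filter.cofinite (nhds 0)) ∧
          (∀ x : X, (∀ γ, f γ x = 0) → x = 0)) →
      ∃ N : X → ℝ,
        (∃ c C : ℝ, 0 < c ∧ ∀ x : X, c * ‖x‖ ≤ N x ∧ N x ≤ C * ‖x‖) ∧
        (∀ x y : X, N (x + y) ≤ N x + N y) ∧
        (∀ (a : ℝ) (x : X), N (a • x) = |a| * N x) ∧
        ∀ x : X, x ≠ 0 → ∃ φ : X →L[ℝ] ℝ,
          ∀ h : X, HasDerivAt (fun t : ℝ => N (x + t • h)) (φ h) 0) := by
  intro h
  obtain ⟨f, hf⟩ := exists_surjective_nat H87.NoGat.D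
  have _ : Nonempty H87.NoGat.K := ⟨H87.NoGat.P (0, ∅)⟩
  have h0 : ∀ n : ℕ, ‖(1 / (n + 1) : ℝ)‖ ≤ 1 := fun n => by
    rw [Real.norm_of_nonneg (by positivity)]
    exact div_le_one_of_le₀ (by simp) (by positivity)
  obtain ⟨N, ⟨c, C, hc, h5⟩, h3, h4, h6⟩ := h C(H87.NoGat.K, ℝ) (H87.Scat.asplund H87.NoGat.scattered)
    ⟨ℕ, fun n => (1 / (n + 1) : ℝ) • H87.NoGat.ev (H87.NoGat.P (f n)), ⟨1, fun n =>
      ContinuousLinearMap.opNorm_le_bound _ zero_le_one fun x => by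
        rw [smul_apply, norm_smul]
        exact mul_le_mul (h0 n) (x.norm_coe_le_norm _) (norm_nonneg _) zero_le_one⟩,
      fun x => by
        rw [Nat.cofinite_eq_atTop]
        exact (tendsto_one_div_add_atTop_nhds_zero_nat (𝕜 := ℝ)).zero_smul_isBoundedUnder_le
          (Filter.isBoundedUnder_of ⟨‖x‖, fun n => x.norm_coe_le_norm _⟩),
      fun x hx => ContinuousMap.ext (congrFun
      (H87.NoGat.P_dense.equalizer (map_continuous x) (map_continuous (0 : C(_, ℝ)))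
        (funext fun d => by
          obtain ⟨n, rfl⟩ := hf d
          exact (mul_eq_zero.1 (show (1 / (n + 1) : ℝ) * x _ = 0 from hx n)).resolve_left
            (by positivity))))⟩
  exact H87.NoGat.main (Seminorm.of N h3 h4) c (|C| + 1) hc (by positivity) (fun x => ⟨(h5 x).1,
    (h5 x).2.trans (mul_le_mul_of_nonneg_right (by linarith [le_abs_self C]) (norm_nonneg _))⟩) h6

end Pool.Agent.S06264
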