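import Pool.Statements.S06281

set_option autoImplicit false
open Pool Pool.MP_d4e048_an

namespace Pool.Agent.S06281

section
variable {R : Type} [Ring R] [Algebra ℂ R] [TopologicalSpace R] [IsTopologicalRing R]
  [ContinuousSMul ℂ R]

lemma path {γ δ : ℂ → R} (hγ : Continuous γ) (hδ : Continuous δ) (h1 : ∀ z, γ z * δ z = 1)
    (h2 : ∀ z, δ z * γ z = 1) (h0 : γ 0 = 1) (z : ℂ) :
    ∃ w ∈ connectedComponent (1 : Rˣ), (w : R) = γ z := by
  let Γ : ℂ → Rˣ := fun z => ⟨γ z, δ z, h1 z, h2 z⟩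
  have hc : Continuous Γ := Units.continuous_iff.2 ⟨hγ, hδ⟩
  exact ⟨Γ z, (isPreconnected_range hc).subset_connectedComponent ⟨0, Units.ext h0⟩ ⟨z, rfl⟩, rfl⟩

lemma nilp {n : R} (h : n * n = 0) : ∃ w ∈ connectedComponent (1 : Rˣ), (w : R) = 1 + n := by
  have := path (γ := fun z : ℂ => 1 + z • n) (δ := fun z : ℂ => 1 - z • n) (by fun_prop)
    (by fun_prop) (fun z => by simp [mul_sub, add_mul, h]) (fun z => by simp [sub_mul, mul_add, h])
    (by simp) 1
  simpa using this

lemma invol {g : R} (h : g * g = g + g) :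
    ∃ w ∈ connectedComponent (1 : Rˣ), (w : R) = 1 - g := by
  have key : ∀ a b : ℂ, a * b = 1 →
      (1 + ((a - 1) / 2) • g) * (1 + ((b - 1) / 2) • g) = (1 : R) := fun a b hab => by
    simp only [mul_add, add_mul, mul_one, one_mul, smul_mul_assoc, mul_smul_comm, h, smul_add,
      smul_smul]
    have e : (a - 1) / 2 + ((b - 1) / 2 + ((b - 1) / 2 * ((a - 1) / 2) +
      (b - 1) / 2 * ((a - 1) / 2))) = 0 := by linear_combination hab / 2
    rw [add_assoc, ← add_smul, ← add_smul, ← add_smul, e, zero_smul, add_zero]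
  have := path (γ := fun z : ℂ => 1 + ((Complex.exp z - 1) / 2) • g)
    (δ := fun z : ℂ => 1 + ((Complex.exp (-z) - 1) / 2) • g) (by fun_prop) (by fun_prop)
    (fun z => key _ _ (by rw [← Complex.exp_add]; simp))
    (fun z => key _ _ (by rw [← Complex.exp_add]; simp)) (by simp) (Real.pi * Complex.I)
  obtain ⟨w, h1, h2⟩ := this
  refine ⟨w, h1, ?_⟩
  rw [h2, Complex.exp_pi_mul_I, show ((-1 - 1) / 2 : ℂ) = -1 by norm_num, neg_one_smul,
    sub_eq_add_neg]

omit [Algebra ℂ R] [ContinuousSMul ℂ R] in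
lemma cc_mul {a w v : Rˣ} (hw : w ∈ connectedComponent (1 : Rˣ))
    (hv : v ∈ connectedComponent (1 : Rˣ)) : w * a * v ∈ connectedComponent a := by
  have h1 : w * a ∈ connectedComponent a := by
    simpa using (continuous_mul_right a).image_connectedComponent_subset 1 ⟨w, hw, rfl⟩
  have h2 : w * a * v ∈ connectedComponent (w * a) := by
    simpa using (continuous_mul_left (w * a)).image_connectedComponent_subset 1 ⟨v, hv, rfl⟩
  rwa [connectedComponent_eq h1]

end

section
variable {A : Type} [NormedRing A] [NormedAlgebra ℂ A]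

lemma swap {ι κ : Type} [Fintype ι] [DecidableEq ι] [Fintype κ] [DecidableEq κ]
    {E F : Matrix ι κ A} {E' F' : Matrix κ ι A} (h1 : E' * E = 1) (h2 : F' * F = 1)
    (h3 : E' * F = 0) (h4 : F' * E = 0) (X : Matrix κ κ A) (V : (Matrix ι ι A)ˣ)
    (hV : (V : Matrix ι ι A) = 1 + E * X * E') :
    ∃ W ∈ connectedComponent V, (W : Matrix ι ι A) = 1 + F * X * F' := by
  have e1 : (E' - F') * (E - F) = 1 + 1 := by
    simp only [Matrix.sub_mul, Matrix.mul_sub, h1, h2, h3, h4]
    abel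
  have e2 : (E - F) * (E' - F') * ((E - F) * (E' - F'))
      = (E - F) * (E' - F') + (E - F) * (E' - F') := by
    rw [Matrix.mul_assoc, ← Matrix.mul_assoc (E' - F'), e1, Matrix.add_mul, Matrix.one_mul,
      Matrix.mul_add]
  obtain ⟨w, hw, hw'⟩ := invol e2
  refine ⟨w * V * w, cc_mul hw hw, ?_⟩
  have e3 : (w : Matrix ι ι A) * E = F := by
    rw [hw', Matrix.sub_mul, Matrix.one_mul, Matrix.mul_assoc, Matrix.sub_mul E', h1, h4, sub_zero,
      Matrix.mul_one, sub_sub_cancel]
  have e4 : E' * (w : Matrix ι ι A) = F' := by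
    rw [hw', Matrix.mul_sub, Matrix.mul_one, ← Matrix.mul_assoc, Matrix.mul_sub E', h1, h3,
      sub_zero, Matrix.one_mul, sub_sub_cancel]
  have e5 : (w : Matrix ι ι A) * w = 1 := by
    rw [hw', mul_sub, sub_mul, sub_mul, e2]
    simp
  rw [Units.val_mul, Units.val_mul, hV, mul_add, add_mul, mul_one, e5, ← e3, ← e4]
  simp only [Matrix.mul_assoc]

omit [NormedAlgebra ℂ A] in
lemma two (h1 : ∃ x : A, x ≠ 0 ∧ ¬ IsUnit x) (h2 : ∀ x : A, x ≠ 0 → ∃ a b : A, a * x * b = 1) :
    ∃ s s' t t' : A, t * s = 1 ∧ t' * s' = 1 ∧ t * s' = 0 ∧ t' * s = 0 := by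
  obtain ⟨s, t, hts, hst⟩ : ∃ s t : A, t * s = 1 ∧ s * t ≠ 1 := by
    by_contra hc
    push Not at hc
    obtain ⟨x, hx, hu⟩ := h1
    obtain ⟨a, b, hab⟩ := h2 x hx
    have e1 := hc b (a * x) hab
    have e2 := hc (x * b) a (by rw [← mul_assoc, hab])
    exact hu ⟨⟨x, b * a, by rw [← mul_assoc, e2], by rw [mul_assoc, e1]⟩, rfl⟩
  obtain ⟨a, b, hab⟩ := h2 (1 - s * t) (sub_ne_zero.2 hst.symm)
  have e1 : t * (1 - s * t) = 0 := by rw [mul_sub, ← mul_assoc, hts]; simp
  have e2 : (1 - s * t) * s = 0 := by rw [sub_mul, mul_assoc, hts]; simp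
  refine ⟨s, (1 - s * t) * b, t, a * (1 - s * t), hts, ?_, by rw [← mul_assoc, e1, zero_mul],
    by rw [mul_assoc, e2, mul_zero]⟩
  have e3 : (1 - s * t) * (1 - s * t) = 1 - s * t := by
    rw [sub_mul, one_mul, mul_assoc, e1, mul_zero, sub_zero]
  rw [← mul_assoc, mul_assoc a, e3, hab]

omit [NormedAlgebra ℂ A] in
lemma many (h1 : ∃ x : A, x ≠ 0 ∧ ¬ IsUnit x) (h2 : ∀ x : A, x ≠ 0 → ∃ a b : A, a * x * b = 1) :
    ∃ σ τ : ℕ → A, ∀ i j, τ i * σ j = if i = j then 1 else 0 := by
  obtain ⟨s, s', t, t', a1, a2, a3, a4⟩ := two h1 h2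
  refine ⟨fun j => s ^ j * s', fun i => t' * t ^ i, fun i => ?_⟩
  induction i with
  | zero =>
    intro j
    cases j with
    | zero => simpa using a2
    | succ j => simp [pow_succ', ← mul_assoc, a4]
  | succ i ih =>
    intro j
    cases j with
    | zero => simp [pow_succ, mul_assoc, a3]
    | succ j =>
      have := ih j
      simp only [Nat.add_right_cancel_iff]
      rw [← this, pow_succ, pow_succ', ← mul_assoc t', mul_assoc s, mul_assoc _ t,
        ← mul_assoc t, a1, one_mul]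

lemma step1 (h1 : ∃ x : A, x ≠ 0 ∧ ¬ IsUnit x) (h2 : ∀ x : A, x ≠ 0 → ∃ a b : A, a * x * b = 1)
    (u : Aˣ) : ∃ v ∈ connectedComponent u, ∃ s t : A, t * s = 0 ∧ t * v * s ≠ 0 := by
  obtain ⟨s, s', t, t', a1, a2, a3, a4⟩ := two h1 h2
  by_cases h : (1 - s * t) * u * s = 0
  · obtain ⟨w, hw, hw'⟩ := nilp (n := s' * t) (by rw [mul_assoc, ← mul_assoc t, a3]; simp)
    refine ⟨w * u * 1, cc_mul hw mem_connectedComponent, s, t', a4, fun h0 => ?_⟩
    have e1 : (u : A) * s = s * (t * (u * s)) := by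
      rw [mul_assoc, sub_mul, one_mul, sub_eq_zero, mul_assoc] at h
      exact h
    have e2 : t' * (u * s) = 0 := by rw [e1, ← mul_assoc, a4, zero_mul]
    rw [mul_one, Units.val_mul, hw', mul_assoc, mul_assoc, add_mul, mul_add, one_mul, e2, zero_add,
      mul_assoc, ← mul_assoc t', a2, one_mul] at h0
    rw [h0, mul_zero, Units.mul_right_eq_zero] at e1
    obtain ⟨x, hx, -⟩ := h1
    exact hx (by rw [← one_mul x, ← a1, e1, mul_zero, zero_mul])
  · exact ⟨u, mem_connectedComponent, s, 1 - s * t, by rw [sub_mul, mul_assoc, a1]; simp, h⟩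

lemma step2 (h1 : ∃ x : A, x ≠ 0 ∧ ¬ IsUnit x) (h2 : ∀ x : A, x ≠ 0 → ∃ a b : A, a * x * b = 1)
    (u : Aˣ) : ∃ v ∈ connectedComponent u, ∃ x z : A, z * x = 1 ∧ v * x = x ∧ z * v = z := by
  obtain ⟨v, hv, s, t, a1, a2⟩ := step1 h1 h2 u
  obtain ⟨a, b, hab⟩ := h2 _ a2
  obtain ⟨x, y, b1, b2⟩ : ∃ x y : A, y * (v * x) = 1 ∧ y * x = 0 :=
    ⟨s * b, a * t, by rw [← hab]; simp only [mul_assoc],
      by rw [mul_assoc, ← mul_assoc t, a1]; simp⟩
  obtain ⟨z, c1, c2⟩ : ∃ z : A, z * x = 1 ∧ z * (v * x) = 0 :=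
    ⟨y * v - y * v * (v * x) * y, by rw [sub_mul, mul_assoc y, b1, mul_assoc _ y, b2]; simp,
      by rw [sub_mul, mul_assoc _ y, b1]; simp⟩
  have e1 : (z - y) * (x - v * x) = 1 + 1 := by
    simp only [sub_mul, mul_sub, b1, b2, c1, c2]
    abel
  obtain ⟨w, hw, hw'⟩ := invol (g := (x - v * x) * (z - y)) (by
    rw [mul_assoc, ← mul_assoc (z - y), e1, add_mul, one_mul, mul_add])
  have e2 : (w : A) * (v * x) = x := by
    rw [hw', sub_mul, mul_assoc, sub_mul z, c2, b1]
    simp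
  obtain ⟨n, hn, hn'⟩ := nilp (n := x * (z - z * (w * v))) (by
    rw [mul_assoc, ← mul_assoc (z - _), sub_mul, mul_assoc z, mul_assoc (w : A), e2]
    simp)
  refine ⟨w * v * n, ?_, x, z, c1, ?_, ?_⟩
  · rw [connectedComponent_eq hv]
    exact cc_mul hw hn
  · have e3 : (w : A) * v * x = x := by rw [mul_assoc, e2]
    rw [Units.val_mul, Units.val_mul, hn', mul_assoc, add_mul, mul_assoc x, sub_mul, mul_assoc z,
      e3, sub_self, mul_zero, add_zero, one_mul, e3]
  · rw [Units.val_mul, Units.val_mul, hn', mul_add, mul_one, mul_add, ← mul_assoc _ x,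
      mul_assoc (w : A) v x, e2, ← mul_assoc z x, c1]
    simp

/-- The corner embedding of a matrix algebra. -/
noncomputable def emb {κ : Type} [Fintype κ] [DecidableEq κ] (S : Matrix Unit κ A)
    (T : Matrix κ Unit A) (h : T * S = 1) : Matrix κ κ A →* A where
  toFun X := (1 + S * (X - 1) * T : Matrix Unit Unit A) () ()
  map_one' := by simp
  map_mul' X Y := by
    have e : 1 + S * (X * Y - 1) * T = (1 + S * (X - 1) * T) * (1 + S * (Y - 1) * T) := by
      have e1 : S * (X - 1) * T * (S * (Y - 1) * T) = S * ((X - 1) * (Y - 1)) * T := by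
        simp only [Matrix.mul_assoc]
        rw [← Matrix.mul_assoc T S, h, Matrix.one_mul]
      rw [mul_add, add_mul, add_mul, e1, show X * Y - 1 = (X - 1) + ((Y - 1) + (X - 1) * (Y - 1))
        by noncomm_ring]
      simp only [Matrix.mul_add, Matrix.add_mul, mul_one, one_mul, add_assoc]
    rw [e, Matrix.mul_apply, Fintype.sum_unique]

lemma emb_cont {κ : Type} [Fintype κ] [DecidableEq κ] (S : Matrix Unit κ A)
    (T : Matrix κ Unit A) (h : T * S = 1) : Continuous (emb S T h) := by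
  change Continuous fun X : Matrix κ κ A => (1 + S * (X - 1) * T : Matrix Unit Unit A) () ()
  fun_prop

lemma diag_conn (h1 : ∃ x : A, x ≠ 0 ∧ ¬ IsUnit x)
    (h2 : ∀ x : A, x ≠ 0 → ∃ a b : A, a * x * b = 1) (m : ℕ) (a : Aˣ)
    (U : (Matrix (Fin (m+1)) (Fin (m+1)) A)ˣ)
    (hU : (U : Matrix (Fin (m+1)) (Fin (m+1)) A) =
      Matrix.diagonal (fun i : Fin (m+1) => if i = 0 then (a : A) else 1))
    (hc : U ∈ connectedComponent (1 : (Matrix (Fin (m+1)) (Fin (m+1)) A)ˣ)) :
    a ∈ connectedComponent (1 : Aˣ) := by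
  obtain ⟨v, hv, x, z, a1, a2, a3⟩ := step2 h1 h2 a
  obtain ⟨σ, τ, hστ⟩ := many h1 h2
  let D : A →* Matrix (Fin (m+1)) (Fin (m+1)) A :=
    { toFun := fun b => Matrix.diagonal (fun i : Fin (m+1) => if i = 0 then b else 1)
      map_one' := by simp
      map_mul' := fun b c => by
        rw [Matrix.diagonal_mul_diagonal]
        congr 1
        funext i
        split_ifs <;> simp }
  have hD : Continuous D := by
    refine Continuous.matrix_diagonal (continuous_pi fun i => ?_)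
    split_ifs <;> fun_prop
  have b1 : Units.map D v ∈ connectedComponent (1 : (Matrix (Fin (m+1)) (Fin (m+1)) A)ˣ) := by
    have := (Continuous.units_map D hD).image_connectedComponent_subset a ⟨v, hv, rfl⟩
    rwa [show Units.map D a = U from Units.ext hU.symm, ← connectedComponent_eq hc] at this
  have p1 : z * (1 - x * z) = 0 := by rw [mul_sub, ← mul_assoc, a1]; simp
  have p2 : (1 - x * z) * x = 0 := by rw [sub_mul, mul_assoc, a1]; simp
  have p3 : (1 - x * z) * (1 - x * z) = 1 - x * z := by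
    rw [sub_mul, one_mul, mul_assoc, p1, mul_zero, sub_zero]
  let S : Matrix Unit (Fin (m+1)) A := Matrix.of fun _ j =>
    if j = 0 then (1 - x * z) + x * σ 0 * (x * z) else x * σ j
  let T : Matrix (Fin (m+1)) Unit A := Matrix.of fun i _ =>
    if i = 0 then (1 - x * z) + x * z * τ 0 * z else τ i * z
  have q : ∀ (c d : A) i j, c * τ i * z * (x * σ j * d) = if i = j then c * d else 0 := by
    intro c d i j
    rw [mul_assoc _ z, ← mul_assoc z, ← mul_assoc z, a1, one_mul, ← mul_assoc, mul_assoc c, hστ]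
    split_ifs <;> simp
  have hTS : T * S = 1 := by
    ext i j
    rw [Matrix.mul_apply, Fintype.sum_unique, Matrix.one_apply]
    simp only [S, T, Matrix.of_apply]
    by_cases hi : i = 0 <;> by_cases hj : j = 0
    · simp only [hi, hj, if_true]
      rw [add_mul, mul_add, mul_add, p3, q, ← mul_assoc (1 - x * z), ← mul_assoc (1 - x * z), p2,
        mul_assoc _ z (1 - x * z), p1, if_pos rfl, mul_assoc x z (x * z), ← mul_assoc z x z, a1]
      simp
    · have := q (x * z) 1 0 j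
      rw [mul_one, if_neg (by simpa [eq_comm] using hj)] at this
      simp only [hi, hj, if_true, if_false, eq_comm (a := (0 : Fin (m+1)))]
      rw [add_mul, this, ← mul_assoc, p2]
      simp
    · have := q 1 (x * z) i 0
      rw [one_mul, if_neg (by simpa using hi)] at this
      simp only [hi, hj, if_true, if_false]
      rw [mul_add, this, mul_assoc, p1]
      simp
    · have := q 1 1 i j
      simp only [one_mul, mul_one, Fin.val_inj] at this
      simp only [hi, hj, if_false, this]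
  have b2 := (Continuous.units_map _ (emb_cont S T hTS)).image_connectedComponent_subset 1
    ⟨_, b1, rfl⟩
  have b3 : Units.map (emb S T hTS) (Units.map D v) = v := by
    ext
    change (1 + S * (D v - 1) * T : Matrix Unit Unit A) () () = v
    have e : D v - 1 = Matrix.diagonal (fun i : Fin (m+1) => if i = 0 then (v : A) - 1 else 0) := by
      rw [← Matrix.diagonal_one]
      refine (Matrix.diagonal_sub _ _).trans ?_
      congr 1
      funext i
      split_ifs <;> simp
    have r1 : z * ((v : A) - 1) = 0 := by rw [mul_sub, a3]; simp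
    have r2 : ((v : A) - 1) * x = 0 := by rw [sub_mul, a2]; simp
    rw [e, Matrix.add_apply, Matrix.mul_apply, Finset.sum_eq_single 0 (fun j _ hj => by
      simp [Matrix.mul_diagonal, hj]) (by simp), Matrix.mul_diagonal]
    simp only [S, T, Matrix.of_apply, if_true, Matrix.one_apply_eq]
    have r3 : (1 - x * z + x * σ 0 * (x * z)) * ((v : A) - 1) = v - 1 := by
      rw [add_mul, sub_mul, mul_assoc x z, mul_assoc _ (x * z), mul_assoc x z, r1]
      simp
    have r4 : ((v : A) - 1) * (1 - x * z + x * z * τ 0 * z) = v - 1 := by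
      rw [mul_add, mul_sub, ← mul_assoc, ← mul_assoc, ← mul_assoc, ← mul_assoc, r2]
      simp
    rw [r3, r4, add_sub_cancel]
  rw [b3, map_one] at b2
  rw [connectedComponent_eq b2, ← connectedComponent_eq hv]
  exact mem_connectedComponent

end


/-- For every purely infinite simple complex Banach algebra A, the map [a] ↦ [diag(a,1,…,1)] from invertibles mod identity component to K₁(A) = components of GL_∞(A) is injective and surjective. -/
theorem result :
  ∀ (A : Type) [NormedRing A] [NormedAlgebra ℂ A] [CompleteSpace A],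
    (∃ x : A, x ≠ 0 ∧ ¬ IsUnit x) →
    (∀ x : A, x ≠ 0 → ∃ a b : A, a * x * b = 1) →
    ((∀ (m : ℕ) (a : Aˣ) (U : (Matrix (Fin (m+1)) (Fin (m+1)) A)ˣ),
        (U : Matrix (Fin (m+1)) (Fin (m+1)) A) =
          Matrix.diagonal (fun i : Fin (m+1) => if i = 0 then (a : A) else 1) →
        U ∈ connectedComponent (1 : (Matrix (Fin (m+1)) (Fin (m+1)) A)ˣ) →
        a ∈ connectedComponent (1 : Aˣ)) ∧
    (∀ (n : ℕ) (U : (Matrix (Fin (n+1)) (Fin (n+1)) A)ˣ),
      ∃ (k : ℕ) (a : Aˣ)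
        (V W : (Matrix (Fin (n+1) ⊕ Fin k) (Fin (n+1) ⊕ Fin k) A)ˣ),
        (V : Matrix (Fin (n+1) ⊕ Fin k) (Fin (n+1) ⊕ Fin k) A) =
          Matrix.fromBlocks (U : Matrix (Fin (n+1)) (Fin (n+1)) A) 0 0 1 ∧
        (W : Matrix (Fin (n+1) ⊕ Fin k) (Fin (n+1) ⊕ Fin k) A) =
          Matrix.diagonal (fun i : Fin (n+1) ⊕ Fin k =>
            if i = Sum.inl 0 then (a : A) else 1) ∧
        W ∈ connectedComponent V)) := by
  intro A _ _ _ h1 h2
  refine ⟨diag_conn h1 h2, fun n U => ?_⟩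
  obtain ⟨σ, τ, hστ⟩ := many h1 h2
  let S : Matrix Unit (Fin (n+1)) A := Matrix.of fun _ j => σ j
  let T : Matrix (Fin (n+1)) Unit A := Matrix.of fun i _ => τ i
  have hTS : T * S = 1 := by
    ext i j
    rw [Matrix.mul_apply, Fintype.sum_unique, Matrix.one_apply]
    simp only [S, T, Matrix.of_apply, hστ, Fin.val_inj]
  let a : Aˣ := Units.map (emb S T hTS) U
  let V : (Matrix (Fin (n+1) ⊕ Fin 1) (Fin (n+1) ⊕ Fin 1) A)ˣ :=
    ⟨Matrix.fromBlocks (U : Matrix (Fin (n+1)) (Fin (n+1)) A) 0 0 1,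
      Matrix.fromBlocks (U⁻¹ : (Matrix (Fin (n+1)) (Fin (n+1)) A)ˣ) 0 0 1,
      by simp [Matrix.fromBlocks_multiply], by simp [Matrix.fromBlocks_multiply]⟩
  let c : (Fin (n+1) ⊕ Fin 1) → Matrix (Fin (n+1) ⊕ Fin 1) Unit A :=
    fun k => Matrix.single k () 1
  let r : (Fin (n+1) ⊕ Fin 1) → Matrix Unit (Fin (n+1) ⊕ Fin 1) A :=
    fun k => Matrix.single () k 1
  have rc : ∀ k, r k * c k = 1 := fun k => by
    ext
    simp [r, c]
  have rc' : ∀ k l, k ≠ l → r k * c l = 0 := fun k l h => Matrix.single_mul_single_of_ne _ _ _ _ h _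
  let E : Matrix (Fin (n+1) ⊕ Fin 1) (Fin (n+1)) A := Matrix.fromRows 1 0
  let E' : Matrix (Fin (n+1)) (Fin (n+1) ⊕ Fin 1) A := Matrix.fromCols 1 0
  have e1 : E' * c (Sum.inr 0) = 0 := by
    ext i j
    simp [E', c, Matrix.mul_apply, Matrix.single_apply]
  have e2 : r (Sum.inr 0) * E = 0 := by
    ext i j
    simp [E, r, Matrix.mul_apply, Matrix.single_apply]
  obtain ⟨W1, w1, w2⟩ := swap (E := E) (E' := E') (F := c (Sum.inr 0) * S)
    (F' := T * r (Sum.inr 0)) (by simp [E, E', Matrix.fromCols_mul_fromRows])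
    (by rw [Matrix.mul_assoc, ← Matrix.mul_assoc (r _), rc, Matrix.one_mul, hTS])
    (by rw [← Matrix.mul_assoc, e1, Matrix.zero_mul])
    (by rw [Matrix.mul_assoc, e2, Matrix.mul_zero]) ((U : Matrix (Fin (n+1)) (Fin (n+1)) A) - 1) V
    (by
      simp only [V, E, E']
      rw [Matrix.fromRows_mul, Matrix.fromRows_mul_fromCols, ← Matrix.fromBlocks_one,
        Matrix.fromBlocks_add]
      simp)
  obtain ⟨W2, w3, w4⟩ := swap (E := c (Sum.inr 0)) (E' := r (Sum.inr 0)) (F := c (Sum.inl 0))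
    (F' := r (Sum.inl 0)) (rc _) (rc _) (rc' _ _ (by simp)) (rc' _ _ (by simp))
    (S * ((U : Matrix (Fin (n+1)) (Fin (n+1)) A) - 1) * T) W1
    (by rw [w2]; simp only [Matrix.mul_assoc])
  refine ⟨1, a, V, W2, rfl, ?_, by rwa [connectedComponent_eq w1]⟩
  rw [w4]
  have ea : (a : A) = 1 + (S * ((U : Matrix (Fin (n+1)) (Fin (n+1)) A) - 1) * T :
      Matrix Unit Unit A) () () := by
    change (1 + S * ((U : Matrix (Fin (n+1)) (Fin (n+1)) A) - 1) * T :
      Matrix Unit Unit A) () () = _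
    simp
  rw [ea]
  generalize S * ((U : Matrix (Fin (n+1)) (Fin (n+1)) A) - 1) * T = Y
  ext i j
  simp only [c, r, Matrix.single_mul_mul_single, Matrix.add_apply, Matrix.one_apply,
    Matrix.single_apply, Matrix.diagonal_apply, one_mul, mul_one]
  by_cases hij : i = j
  · subst hij
    by_cases hi : i = Sum.inl 0
    · simp [hi]
    · simp [hi, Ne.symm hi]
  · have : ¬ (Sum.inl 0 = i ∧ Sum.inl 0 = j) := fun h => hij (h.1.symm.trans h.2)
    simp [hij, this]

end Pool.Agent.S06281
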