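import Pool.Statements.S06302
import Pool.Agent.H91.SchwPre

set_option autoImplicit false
open Pool Pool.MP_d610ab_an

namespace Pool.Agent.S06302

theorem result :
    ¬ (∀ (f : ℂ → ℂ) (F : ℕ → ℂ → ℂ),
      (DifferentiableOn ℂ f {z : ℂ | 1 < ‖z‖} ∧ Set.InjOn f {z : ℂ | 1 < ‖z‖} ∧
        ∃ C : ℝ, ∀ z : ℂ, 2 < ‖z‖ → ‖f z - z‖ ≤ C) →
      (∀ n : ℕ, DifferentiableOn ℂ (F n) {z : ℂ | 1 < ‖z‖} ∧
        Set.InjOn (F n) {z : ℂ | 1 < ‖z‖} ∧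
        ∃ C : ℝ, ∀ z : ℂ, 2 < ‖z‖ → ‖F n z - z‖ ≤ C) →
      (∀ ε : ℝ, 0 < ε → ∃ N : ℕ, ∀ n : ℕ, N ≤ n → ∀ z : ℂ, 1 < ‖z‖ →
        (‖z‖ ^ 2 - 1) ^ 2 *
          ‖(deriv (fun w => deriv (deriv (F n)) w / deriv (F n) w) z
              - (1 / 2 : ℂ) * (deriv (deriv (F n)) z / deriv (F n) z) ^ 2)
            - (deriv (fun w => deriv (deriv f) w / deriv f w) z
              - (1 / 2 : ℂ) * (deriv (deriv f) z / deriv f z) ^ 2)‖ ≤ ε) →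
      (∀ ε : ℝ, 0 < ε → ∃ N : ℕ, ∀ n : ℕ, N ≤ n → ∀ z : ℂ, 1 < ‖z‖ →
        (‖z‖ ^ 2 - 1) *
          ‖deriv (deriv (F n)) z / deriv (F n) z - deriv (deriv f) z / deriv f z‖ ≤ ε)) := by
  intro h
  obtain ⟨N, hN⟩ := h _ _ Pool.Agent.H91.SchwPre.f_S Pool.Agent.H91.SchwPre.F_S
    Pool.Agent.H91.SchwPre.d2_small (1 / 16) (by norm_num)
  obtain ⟨z, hz, h1⟩ := Pool.Agent.H91.SchwPre.d1_big N
  exact absurd (hN N le_rfl z hz) (not_le.mpr h1)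

end Pool.Agent.S06302
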