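import Pool.Statements.S06321
import Pool.Agent.H87.Bourg

set_option autoImplicit false
open Pool Pool.MP_d71b46_an

namespace Pool.Agent.S06321

theorem result :
    ∃ (X : Type) (_ : NormedAddCommGroup X) (_ : NormedSpace ℝ X) (_ : CompleteSpace X)
      (K : Set X),
      IsClosed K ∧ Bornology.IsBounded K ∧ Convex ℝ K ∧ K.Nonempty ∧
      (∃ ε > 0, ∀ x ∈ K, x ∈ closure (convexHull ℝ (K \ Metric.ball x ε))) ∧
      ¬ IsMeagre {f : X →L[ℝ] ℝ | ∃ x ∈ K, ∀ y ∈ K, f y ≤ f x} := by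
  exact ⟨H87.Bourg.X, inferInstance, inferInstance, inferInstance, H87.Bourg.K, isClosed_closure,
    ((Metric.isBounded_closedBall (x := 0) (r := 1)).subset (H87.Bourg.K_sub
      Metric.isClosed_closedBall (convex_closedBall _ _) fun t =>
        mem_closedBall_zero_iff.2 (H87.Bourg.e_norm t))),
    (convex_convexHull _ _).closure, ⟨_, H87.Bourg.eK ⟨Classical.arbitrary _, 0⟩⟩,
    ⟨1 / 2, one_half_pos, fun x hx => H87.Bourg.nodent x hx⟩, H87.Bourg.main⟩

end Pool.Agent.S06321
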