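import Pool.Statements.S06346

set_option autoImplicit false
open Pool Pool.MP_d890fe_an
open Filter Topology Set

namespace Pool.Agent.S06346

/-- Self-maps of the reals that are constant off at most one point. -/
def SG : Type := {u : ℝ → ℝ // ∃ a y : ℝ, ∀ x, x ≠ a → u x = y}

instance : Semigroup SG where
  mul u v := ⟨u.1 ∘ v.1, by
    obtain ⟨a, y, h⟩ := v.2
    exact ⟨a, u.1 y, fun x hx => by simp [h x hx]⟩⟩
  mul_assoc _ _ _ := rfl

theorem mul_val (u v : SG) (x : ℝ) : (u * v).1 x = u.1 (v.1 x) := rfl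

/-- constant maps -/
def cst (y : ℝ) : SG := ⟨fun _ => y, 0, y, fun _ _ => rfl⟩

instance : Nonempty SG := ⟨cst 0⟩

theorem mul_cst (u : SG) (y : ℝ) : u * cst y = cst (u.1 y) := rfl

open Classical in
/-- the map sending `a` to `z` and everything else to `y` -/
noncomputable def spike (a y z : ℝ) : SG :=
  ⟨fun x => if x = a then z else y, a, y, fun x hx => by simp [hx]⟩

abbrev L : Type := lp (fun _ : SG => ℝ) ⊤

open Classical in
/-- indicator of `t 0 = a` -/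
noncomputable def ind (a : ℝ) : L :=
  ⟨fun t => if t.1 0 = a then 1 else 0, by
    refine memℓp_infty ⟨1, ?_⟩
    rintro _ ⟨t, rfl⟩
    by_cases h : t.1 0 = a <;> simp [h]⟩

open Classical in
theorem ind_apply (a : ℝ) (t : SG) : ind a t = if t.1 0 = a then 1 else 0 := rfl

theorem sum_abs_le (φ : L →L[ℝ] ℝ) (F : Finset ℝ) : ∑ a ∈ F, |φ (ind a)| ≤ ‖φ‖ := by
  classical
  let σ : ℝ → ℝ := fun a => if 0 ≤ φ (ind a) then 1 else -1
  have h1 : ∑ a ∈ F, |φ (ind a)| = φ (∑ a ∈ F, σ a • ind a) := by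
    rw [map_sum]
    refine Finset.sum_congr rfl fun a _ => ?_
    rw [map_smul, smul_eq_mul]
    by_cases h : 0 ≤ φ (ind a)
    · simp [σ, h, abs_of_nonneg h]
    · simp [σ, h, abs_of_neg (not_le.1 h)]
  have h2 : ‖∑ a ∈ F, σ a • ind a‖ ≤ 1 := by
    refine lp.norm_le_of_forall_le zero_le_one fun t => ?_
    rw [lp.coeFn_sum]
    simp only [Finset.sum_apply, lp.coeFn_smul, Pi.smul_apply, ind_apply, smul_eq_mul, mul_ite,
      mul_one, mul_zero, Finset.sum_ite_eq]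
    split_ifs with h
    · simp only [σ]; split_ifs <;> simp
    · simp
  rw [h1]
  calc φ (∑ a ∈ F, σ a • ind a) ≤ ‖φ (∑ a ∈ F, σ a • ind a)‖ := Real.le_norm_self _
    _ ≤ ‖φ‖ * ‖∑ a ∈ F, σ a • ind a‖ := φ.le_opNorm _
    _ ≤ ‖φ‖ * 1 := by gcongr
    _ = ‖φ‖ := mul_one _

theorem tendsto_ind :
    Tendsto (fun a : ℝ => toWeakSpace ℝ L (ind a)) cofinite (𝓝 (toWeakSpace ℝ L 0)) := by
  have hind : IsInducing (fun (x : WeakSpace ℝ L) (φ : L →L[ℝ] ℝ) =>
      (topDualPairing ℝ L).flip x φ) := ⟨rfl⟩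
  rw [hind.tendsto_nhds_iff, tendsto_pi_nhds]
  intro φ
  have hs : Summable fun a : ℝ => |φ (ind a)| :=
    summable_of_sum_le (fun a => abs_nonneg _) (sum_abs_le φ)
  have h := (summable_abs_iff.1 hs).tendsto_cofinite_zero
  have h0 : φ 0 = 0 := map_zero φ
  change Tendsto (fun a => φ (ind a)) cofinite (𝓝 (φ 0))
  rw [h0]; exact h

theorem exists_compact : ∃ K : Set (WeakSpace ℝ L), IsCompact K ∧
    ∀ g : L, (∃ s : SG, ∀ t : SG, g t = ind 1 (s * t)) → toWeakSpace ℝ L g ∈ K := by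
  have hK := tendsto_ind.isCompact_insert_range_of_cofinite
  have hc : Continuous fun x : WeakSpace ℝ L => toWeakSpace ℝ L 1 - x :=
    continuous_const.sub continuous_id
  refine ⟨_ ∪ _, hK.union (hK.image hc), ?_⟩
  rintro g ⟨⟨u, a, y, hu⟩, hg⟩
  have hg' : ∀ t : SG, g t = if u (t.1 0) = 1 then 1 else 0 := fun t => by
    rw [hg, ind_apply]; rfl
  by_cases hy : y = 1 <;> by_cases ha : u a = 1
  · right
    refine ⟨_, mem_insert _ _, ?_⟩
    show toWeakSpace ℝ L 1 - toWeakSpace ℝ L 0 = _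
    rw [← map_sub]; congr 1
    ext t
    rw [hg']
    by_cases ht : t.1 0 = a
    · simp [ht, ha]
    · simp [hu _ ht, hy]
  · right
    refine ⟨_, mem_insert_of_mem _ ⟨a, rfl⟩, ?_⟩
    show toWeakSpace ℝ L 1 - toWeakSpace ℝ L (ind a) = _
    rw [← map_sub]; congr 1
    ext t
    rw [hg']
    by_cases ht : t.1 0 = a
    · simp [ht, ha, ind_apply]
    · simp [hu _ ht, hy, ind_apply, ht]
  · left
    refine mem_insert_of_mem _ ⟨a, ?_⟩
    show toWeakSpace ℝ L (ind a) = _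
    congr 1
    ext t
    rw [hg']
    by_cases ht : t.1 0 = a
    · simp [ht, ha, ind_apply]
    · simp [hu _ ht, hy, ind_apply, ht]
  · left
    refine mem_insert_iff.2 (Or.inl ?_)
    congr 1
    ext t
    rw [hg']
    by_cases ht : t.1 0 = a
    · simp [ht, ha]
    · simp [hu _ ht, hy]

theorem fixed (E : Type) [NormedAddCommGroup E] [NormedSpace ℝ E]
    (C : Set (WeakDual ℝ E)) (T : SG → WeakDual ℝ E → WeakDual ℝ E) (hne : C.Nonempty)
    (hD : ∃ D : Set (WeakDual ℝ E), D.Countable ∧ D ⊆ C ∧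
          ∀ x ∈ C, ∀ ε : ℝ, 0 < ε → ∃ d ∈ D, ∀ e : E, |x e - d e| ≤ ε * ‖e‖)
    (hmap : ∀ s : SG, Set.MapsTo (T s) C C)
    (hmul : ∀ s t : SG, ∀ x ∈ C, T (s * t) x = T s (T t x))
    (hne' : ∀ s : SG, ∀ x ∈ C, ∀ y ∈ C, ∀ r : ℝ,
          (∀ e : E, |x e - y e| ≤ r * ‖e‖) →
          ∀ e : E, |T s x e - T s y e| ≤ r * ‖e‖) :
    ∃ x ∈ C, ∀ s : SG, T s x = x := by
  obtain ⟨x₀, hx₀⟩ := hne
  obtain ⟨D, hDc, -, hD⟩ := hD
  let p : ℝ → WeakDual ℝ E := fun y => T (cst y) x₀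
  have hpC : ∀ y, p y ∈ C := fun y => hmap _ hx₀
  have hTp : ∀ (s : SG) (y : ℝ), T s (p y) = p (s.1 y) := fun s y => by
    simp only [p]; rw [← hmul _ _ _ hx₀, mul_cst]
  have key : ∀ y z : ℝ, ∀ ε : ℝ, 0 < ε → ∀ e : E, |p z e - p y e| ≤ (2 * ε) * ‖e‖ := by
    intro y z ε hε
    choose d hdD hd using fun a => hD (p a) (hpC a) ε hε
    have : ¬ Function.Injective (fun a => (⟨d a, hdD a⟩ : D)) := by
      intro hinj
      haveI := hDc.to_subtype
      exact not_countable (α := ℝ) hinj.countable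
    obtain ⟨a, b, hab, hne⟩ := Function.not_injective_iff.1 this
    have hab' : d a = d b := congrArg Subtype.val hab
    have h1 : ∀ e : E, |p a e - p b e| ≤ (2 * ε) * ‖e‖ := fun e => by
      have h2 := hd a e
      have h3 := hd b e
      rw [hab'] at h2
      rw [abs_le] at *
      constructor <;> linarith [h2.1, h2.2, h3.1, h3.2]
    have h4 := hne' (spike a y z) _ (hpC a) _ (hpC b) _ h1
    rw [hTp, hTp] at h4
    simpa [spike, hne.symm] using h4
  have heq : ∀ y z : ℝ, p z = p y := by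
    intro y z
    apply DFunLike.ext
    intro e
    have : |p z e - p y e| ≤ 0 := by
      refine le_of_forall_pos_le_add fun δ hδ => ?_
      have h := key y z (δ / (2 * (‖e‖ + 1))) (by positivity) e
      have h2 : 2 * (δ / (2 * (‖e‖ + 1))) * ‖e‖ ≤ δ := by
        rw [show 2 * (δ / (2 * (‖e‖ + 1))) * ‖e‖ = δ * (‖e‖ / (‖e‖ + 1)) by field_simp]
        have : ‖e‖ / (‖e‖ + 1) ≤ 1 := by
          rw [div_le_one (by positivity)]; linarith
        nlinarith
      linarith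
    exact sub_eq_zero.1 (abs_nonpos_iff.1 this)
  exact ⟨p 0, hpC 0, fun s => by rw [hTp, heq 0]⟩

theorem result :
    ¬ (∀ (S : Type) [Semigroup S] [Nonempty S],
    (∀ (E : Type) [NormedAddCommGroup E] [NormedSpace ℝ E] [CompleteSpace E]
       (C : Set (WeakDual ℝ E)) (T : S → WeakDual ℝ E → WeakDual ℝ E),
       C.Nonempty → Convex ℝ C → IsCompact C →
       (∃ D : Set (WeakDual ℝ E), D.Countable ∧ D ⊆ C ∧
          ∀ x ∈ C, ∀ ε : ℝ, 0 < ε → ∃ d ∈ D, ∀ e : E, |x e - d e| ≤ ε * ‖e‖) →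
       (∀ s : S, Set.MapsTo (T s) C C) →
       (∀ s t : S, ∀ x ∈ C, T (s * t) x = T s (T t x)) →
       (∀ s : S, ∀ x ∈ C, ∀ y ∈ C, ∀ r : ℝ,
          (∀ e : E, |x e - y e| ≤ r * ‖e‖) →
          ∀ e : E, |T s x e - T s y e| ≤ r * ‖e‖) →
       (∀ s : S, ContinuousOn (T s) C) →
       ∃ x ∈ C, ∀ s : S, T s x = x) →
    ∃ m : lp (fun _ : S => ℝ) ⊤ →L[ℝ] ℝ,
      m 1 = 1 ∧
      (∀ g : lp (fun _ : S => ℝ) ⊤, (∀ t : S, 0 ≤ g t) → 0 ≤ m g) ∧
      ∀ f : lp (fun _ : S => ℝ) ⊤,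
        (∃ K : Set (WeakSpace ℝ (lp (fun _ : S => ℝ) ⊤)), IsCompact K ∧
          ∀ g : lp (fun _ : S => ℝ) ⊤, (∃ s : S, ∀ t : S, g t = f (s * t)) →
            toWeakSpace ℝ (lp (fun _ : S => ℝ) ⊤) g ∈ K) →
        ∀ s : S, ∀ g : lp (fun _ : S => ℝ) ⊤, (∀ t : S, g t = f (s * t)) → m g = m f) := by
  intro H
  obtain ⟨m, hm1, -, hm⟩ := H SG (fun E _ _ _ C T hne _ _ hD hmap hmul hne' _ =>
    fixed E C T hne hD hmap hmul hne')
  have h1 := hm (ind 1) exists_compact (cst 1) 1 (fun t => by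
    rw [ind_apply]; simp [mul_val, cst])
  have h0 := hm (ind 1) exists_compact (cst 0) 0 (fun t => by
    rw [ind_apply]; simp [mul_val, cst])
  rw [map_zero] at h0
  linarith

end Pool.Agent.S06346
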