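import Pool.Statements.S06360
import Pool.Agent.H41.Att6

set_option autoImplicit false
open Pool Pool.MP_d9f794_an

namespace Pool.Agent.S06360

/-- The negation of the preceding statement: Take a real Banach space X, a continuous map f, and a compact A. Suppose every compact set is eventually mapped by all further iterates of f into any given neighbourhood of A. Then f has a fixed point in A. -/
theorem result :
    ¬ (∀ (X : Type) [NormedAddCommGroup X] [NormedSpace ℝ X] [CompleteSpace X]
      (f : X → X), Continuous f →
      ∀ A : Set X, IsCompact A →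
        (∀ K : Set X, IsCompact K → ∀ U ∈ nhdsSet A,
          ∃ N : ℕ, ∀ n : ℕ, N ≤ n → f^[n] '' K ⊆ U) →
        ∃ x ∈ A, f x = x) := by
  intro h
  obtain ⟨d⟩ := Pool.Agent.H41.Att.exists_data
  obtain ⟨A, hA, h1, h2⟩ := d.main
  obtain ⟨x, hx, e⟩ := h _ d.f d.f_cont A hA h1
  exact h2 x hx e

end Pool.Agent.S06360
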