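import Pool.Statements.S06362
import Pool.Agent.H92.SphHull

set_option autoImplicit false
open scoped Manifold
open Pool Pool.MP_da00a8_an

namespace Pool.Agent.S06362

/-- The negation of the preceding statement: Every injectively immersed smooth compact surface in C^2 contains a compact set E whose polynomial hull has a point outside E, while every holomorphic map of the unit disc into hull minus E is constant. -/
theorem result :
    ¬ (∀ (M : Type) [TopologicalSpace M] [ChartedSpace (EuclideanSpace ℝ (Fin 2)) M]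
      [IsManifold (𝓡 2) ((⊤ : ℕ∞) : WithTop ℕ∞) M] [CompactSpace M] [Nonempty M]
      (f : M → (Fin 2 → ℂ)),
      ContMDiff (𝓡 2) 𝓘(ℝ, Fin 2 → ℂ) ((⊤ : ℕ∞) : WithTop ℕ∞) f →
      Function.Injective f →
      (∀ x : M, Function.Injective (mfderiv (𝓡 2) 𝓘(ℝ, Fin 2 → ℂ) f x)) →
      ∃ E : Set (Fin 2 → ℂ), E ⊆ Set.range f ∧ IsCompact E ∧
        (∃ z : Fin 2 → ℂ,
          (∀ p : MvPolynomial (Fin 2) ℂ, ∀ c : ℝ,
            (∀ w ∈ E, ‖MvPolynomial.eval w p‖ ≤ c) → ‖MvPolynomial.eval z p‖ ≤ c) ∧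
          z ∉ E) ∧
        ∀ g : ℂ → (Fin 2 → ℂ), DifferentiableOn ℂ g (Metric.ball (0 : ℂ) 1) →
          (∀ ζ ∈ Metric.ball (0 : ℂ) 1,
            (∀ p : MvPolynomial (Fin 2) ℂ, ∀ c : ℝ,
              (∀ w ∈ E, ‖MvPolynomial.eval w p‖ ≤ c) → ‖MvPolynomial.eval (g ζ) p‖ ≤ c) ∧
            g ζ ∉ E) →
          ∃ c : Fin 2 → ℂ, ∀ ζ ∈ Metric.ball (0 : ℂ) 1, g ζ = c) := by
  intro hall
  have : Fact (Module.finrank ℝ (EuclideanSpace ℝ (Fin 3)) = 2 + 1) := ⟨by simp⟩
  have : Nonempty (Metric.sphere (0 : EuclideanSpace ℝ (Fin 3)) 1) :=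
    (NormedSpace.sphere_nonempty.2 zero_le_one).to_subtype
  let A0 : EuclideanSpace ℝ (Fin 3) →ₗ[ℝ] (Fin 2 → ℂ) :=
    { toFun := fun x => ![⟨x 0, x 1⟩, (x 2 : ℂ)]
      map_add' := by
        intro x y; funext i; fin_cases i
        · apply Complex.ext <;> simp
        · simp
      map_smul' := by
        intro c x; funext i; fin_cases i
        · apply Complex.ext <;> simp
        · simp }
  let A : EuclideanSpace ℝ (Fin 3) →L[ℝ] (Fin 2 → ℂ) := LinearMap.toContinuousLinearMap A0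
  have hA : ∀ x, A x = ![⟨x 0, x 1⟩, (x 2 : ℂ)] := fun x => rfl
  have hAi : Function.Injective A := by
    intro x y h
    have h0 := congrFun h 0
    have h1 := congrFun h 1
    simp only [hA, Matrix.cons_val_zero, Matrix.cons_val_one, Complex.mk.injEq,
      Matrix.cons_val_fin_one, Complex.ofReal_inj] at h0 h1
    ext i; fin_cases i
    · exact h0.1
    · exact h0.2
    · exact h1
  obtain ⟨E, hEs, hE, ⟨z, hz, hzE⟩, hdisc⟩ :=
    hall (Metric.sphere (0 : EuclideanSpace ℝ (Fin 3)) 1) (fun x => A x)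
      (A.contMDiff.comp contMDiff_coe_sphere) (hAi.comp Subtype.val_injective) (by
        intro x
        have h1 : MDifferentiableAt (𝓡 2) 𝓘(ℝ, EuclideanSpace ℝ (Fin 3))
            ((↑) : Metric.sphere (0 : EuclideanSpace ℝ (Fin 3)) 1 → EuclideanSpace ℝ (Fin 3)) x :=
          (contMDiff_coe_sphere (m := 1) x).mdifferentiableAt one_ne_zero
        have h2 := (A.hasMFDerivAt (x := (x : EuclideanSpace ℝ (Fin 3)))).comp x h1.hasMFDerivAt
        have h3 := h2.mfderiv
        change Function.Injective (mfderiv (𝓡 2) 𝓘(ℝ, Fin 2 → ℂ) (A ∘ (↑)) x)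
        rw [h3]
        exact hAi.comp (mfderiv_coe_sphere_injective x))
  obtain ⟨g, hg, hgE, hne⟩ := Pool.Agent.H92.SphHull.main hE (by
    intro w hw
    obtain ⟨x, rfl⟩ := hEs hw
    have hx := x.2
    rw [mem_sphere_zero_iff_norm, EuclideanSpace.norm_eq, Real.sqrt_eq_one,
      Fin.sum_univ_three] at hx
    simp only [Real.norm_eq_abs, sq_abs] at hx
    simp only [hA, Matrix.cons_val_zero, Matrix.cons_val_one, Matrix.cons_val_fin_one,
      Complex.ofReal_im, Complex.ofReal_re, Complex.sq_norm, Complex.normSq_mk, true_and]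
    linarith) hz hzE
  obtain ⟨c, hc⟩ := hdisc g hg.differentiableOn hgE
  exact hne ((hc 0 (by simp)).trans (hc (1 / 2) (by simp; norm_num)).symm)

end Pool.Agent.S06362
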