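import Pool.Statements.S06389
import Pool.Agent.H88.MSeq2

set_option autoImplicit false
open Pool Pool.MP_dd1f31_an

namespace Pool.Agent.S06389

theorem result :
    ∃ p : ℕ → Polynomial ℝ,
      (∀ n, ∀ z : ℂ, Polynomial.aeval z (p n) = 0 → z.im = 0 ∧ z.re ≤ 0) ∧
      TendstoLocallyUniformly (fun n (z : ℂ) => Polynomial.aeval z (p n))
        (fun z : ℂ => ∑' k : ℕ,
          ((Real.sqrt (k : ℝ) / ((Nat.factorial k : ℝ) ^ 2) : ℝ) : ℂ) * z ^ k)
        Filter.atTop := by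
  exact H88.MSeq.sqrt_lp

end Pool.Agent.S06389
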