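import Pool.Statements.S06418

set_option autoImplicit false
open Pool Pool.MP_def338_an

namespace Pool.Agent.S06418

open Set Filter Topology

noncomputable def aa (n : ℕ) : ℝ := if n % 2 = 0 then 23/57 else 13/51

noncomputable def xx (n : ℕ) : ℝ :=
  (∏ i ∈ Finset.range n, (1 - aa i) / 2) * (1 - (1 - aa n) / 2)

lemma aa_add_two (n : ℕ) : aa (n + 2) = aa n := by
  unfold aa; rw [Nat.add_mod_right]

lemma aa0 : aa 0 = 23/57 := by simp [aa]
lemma aa1 : aa 1 = 13/51 := by simp [aa]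

lemma xx_add_two (n : ℕ) : xx (n + 2) = xx n / 9 := by
  unfold xx
  rw [Finset.prod_range_succ', Finset.prod_range_succ']
  have h : ∀ i, aa (i + 1 + 1) = aa i := fun i => aa_add_two i
  simp only [h, zero_add, aa0, aa1]
  ring

lemma xx0 : xx 0 = 15 * (8/171) := by simp [xx, aa0]; norm_num
lemma xx1 : xx 1 = 4 * (8/171) := by simp [xx, aa0, aa1]; norm_num

lemma xx_bound (n : ℕ) : 0 ≤ xx n ∧ xx n ≤ (1/3) ^ n := by
  induction n using Nat.strong_induction_on with
  | _ n ih =>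
    match n, ih with
    | 0, _ => rw [xx0]; norm_num
    | 1, _ => rw [xx1]; norm_num
    | (n + 2), ih =>
      have := ih n (by omega)
      rw [xx_add_two, pow_add]
      constructor
      · linarith [this.1]
      · have h2 := this.2
        norm_num at h2 ⊢
        linarith

noncomputable def SS (ε : ℕ → Bool) : ℝ := ∑' n, if ε n = true then xx n else 0

lemma term_bound (ε : ℕ → Bool) (n : ℕ) :
    ‖(if ε n = true then xx n else 0)‖ ≤ (1/3 : ℝ) ^ n := by
  split_ifs
  · rw [Real.norm_eq_abs, abs_of_nonneg (xx_bound n).1]; exact (xx_bound n).2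
  · simp

lemma geo : Summable (fun n : ℕ => (1/3 : ℝ) ^ n) :=
  summable_geometric_of_lt_one (by norm_num) (by norm_num)

lemma SS_summable (ε : ℕ → Bool) : Summable (fun n => if ε n = true then xx n else 0) :=
  Summable.of_norm_bounded geo (term_bound ε)

lemma SS_cont : Continuous SS := by
  unfold SS
  refine continuous_tsum (u := fun n => (1/3 : ℝ) ^ n) ?_ geo (fun n ε => term_bound ε n)
  intro n
  have h1 : Continuous (fun ε : ℕ → Bool => ε n) := continuous_apply n
  exact (continuous_of_discreteTopology (f := fun b : Bool => if b = true then xx n else 0)).comp h1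

lemma SS_rec (ε : ℕ → Bool) :
    SS ε = (if ε 0 = true then 15 * (8/171) else 0) + (if ε 1 = true then 4 * (8/171) else 0)
      + SS (fun n => ε (n + 2)) / 9 := by
  unfold SS
  rw [← (SS_summable ε).sum_add_tsum_nat_add 2]
  rw [Finset.sum_range_succ, Finset.sum_range_one, xx0, xx1, ← tsum_div_const]
  congr 1
  apply tsum_congr
  intro n
  rw [xx_add_two]
  split_ifs <;> simp

lemma SS_nonneg (ε : ℕ → Bool) : 0 ≤ SS ε := by
  apply tsum_nonneg
  intro n
  split_ifs
  · exact (xx_bound n).1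
  · exact le_rfl

lemma SS_true : SS (fun _ => true) = 1 := by
  have := SS_rec (fun _ => true)
  simp only [if_true] at this
  linarith

lemma SS_le (ε : ℕ → Bool) : SS ε ≤ 1 := by
  rw [← SS_true]
  apply Summable.tsum_le_tsum _ (SS_summable _) (SS_summable _)
  intro n
  simp only [if_true]
  split_ifs
  · exact le_rfl
  · exact (xx_bound n).1

def DD : Set ℝ := {z : ℝ | ∃ u ∈ range SS, ∃ v ∈ range SS, z = u - v}

lemma DD_compact : IsCompact DD := by
  have : DD = range (fun p : (ℕ → Bool) × (ℕ → Bool) => SS p.1 - SS p.2) := by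
    ext z
    constructor
    · rintro ⟨u, ⟨e, rfl⟩, v, ⟨f, rfl⟩, rfl⟩
      exact ⟨(e, f), rfl⟩
    · rintro ⟨p, rfl⟩
      exact ⟨_, ⟨p.1, rfl⟩, _, ⟨p.2, rfl⟩, rfl⟩
  rw [this]
  exact isCompact_range ((SS_cont.comp continuous_fst).sub (SS_cont.comp continuous_snd))

lemma DD_zero : (0 : ℝ) ∈ DD := ⟨_, ⟨fun _ => true, rfl⟩, _, ⟨fun _ => true, rfl⟩, by simp⟩

lemma DD_abs {z : ℝ} (hz : z ∈ DD) : -1 ≤ z ∧ z ≤ 1 := by
  obtain ⟨u, ⟨e, rfl⟩, v, ⟨f, rfl⟩, rfl⟩ := hz
  have := SS_le e; have := SS_le f; have := SS_nonneg e; have := SS_nonneg f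
  constructor <;> linarith

def cons2 (a b : Bool) (ε : ℕ → Bool) : ℕ → Bool
  | 0 => a
  | 1 => b
  | (n + 2) => ε n

lemma SS_cons (a b : Bool) (ε : ℕ → Bool) :
    SS (cons2 a b ε) = (if a = true then 15 * (8/171) else 0) + (if b = true then 4 * (8/171) else 0)
      + SS ε / 9 := by
  rw [SS_rec]; rfl

lemma DD_step {z : ℝ} (hz : z ∈ DD) (a b c d : Bool) :
    ((if a = true then 15 * (8/171) else 0) + (if b = true then 4 * (8/171) else 0)
      - (if c = true then 15 * (8/171) else 0) - (if d = true then 4 * (8/171) else 0) + z / 9 : ℝ)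
      ∈ DD := by
  obtain ⟨u, ⟨e, rfl⟩, v, ⟨f, rfl⟩, rfl⟩ := hz
  refine ⟨_, ⟨cons2 a b e, rfl⟩, _, ⟨cons2 c d f, rfl⟩, ?_⟩
  rw [SS_cons, SS_cons]; ring

lemma DD_digit {z : ℝ} (hz : z ∈ DD) (m : ℤ) :
    ∃ n : ℤ, ∃ w ∈ DD, (m : ℝ) * (8/171) + z / 9 = w + 9 * n * (8/171) := by
  have hm : m = 9 * (m / 9) + m % 9 := by omega
  have h0 : 0 ≤ m % 9 := by omega
  have h9 : m % 9 < 9 := by omega
  generalize m / 9 = q at hm
  generalize m % 9 = r at hm h0 h9
  subst hm
  interval_cases r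
  · exact ⟨q, _, DD_step hz false false false false, by push_cast; simp; ring⟩
  · exact ⟨q - 2, _, DD_step hz true true false false, by push_cast; simp; ring⟩
  · exact ⟨q - 1, _, DD_step hz true false false true, by push_cast; simp; ring⟩
  · exact ⟨q + 2, _, DD_step hz false false true false, by push_cast; simp; ring⟩
  · exact ⟨q, _, DD_step hz false true false false, by push_cast; simp; ring⟩
  · exact ⟨q + 1, _, DD_step hz false false false true, by push_cast; simp; ring⟩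
  · exact ⟨q - 1, _, DD_step hz true false false false, by push_cast; simp; ring⟩
  · exact ⟨q + 2, _, DD_step hz false true true false, by push_cast; simp; ring⟩
  · exact ⟨q + 3, _, DD_step hz false false true true, by push_cast; simp; ring⟩

lemma DD_approx (N : ℕ) (m : ℤ) :
    ∃ z ∈ DD, ∃ n : ℤ, (m : ℝ) * (8/171) / 9 ^ N = z / 9 + n * (8/171) := by
  induction N with
  | zero => exact ⟨0, DD_zero, m, by simp⟩
  | succ N ih =>
    obtain ⟨z, hz, n, h⟩ := ih
    obtain ⟨k, w, hw, h2⟩ := DD_digit hz n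
    refine ⟨w, hw, k, ?_⟩
    rw [pow_succ, ← div_div, h]
    linarith

def EE (n : ℤ) : Set ℝ := (fun z : ℝ => z / 9 + n * (8/171)) '' DD

lemma EE_closed (n : ℤ) : IsClosed (EE n) :=
  (DD_compact.image (by fun_prop)).isClosed

lemma EE_cover : ⋃ n, EE n = univ := by
  apply eq_univ_of_forall
  intro y
  -- finite closed union
  let F : Set ℝ := ⋃ n ∈ Finset.Icc (⌊y * (171/8)⌋ - 30) (⌊y * (171/8)⌋ + 30), EE n
  have hF : IsClosed F := isClosed_biUnion_finset (fun n _ => EE_closed n)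
  have hy : y ∈ F := by
    rw [← hF.closure_eq, Metric.mem_closure_iff]
    intro e he
    obtain ⟨N, hN⟩ := exists_pow_lt_of_lt_one he (by norm_num : (1/9 : ℝ) < 1)
    obtain ⟨z, hz, n, h⟩ := DD_approx N ⌊y * (171/8) * 9 ^ N⌋
    have h9 : (0 : ℝ) < 9 ^ N := by positivity
    have h91 : (1 : ℝ) ≤ 9 ^ N := one_le_pow₀ (by norm_num)
    have f1 := Int.floor_le (y * (171/8) * 9 ^ N)
    have f2 := Int.lt_floor_add_one (y * (171/8) * 9 ^ N)
    set m := ⌊y * (171/8) * 9 ^ N⌋ with hm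
    have e1 : (m : ℝ) * (8/171) / 9 ^ N ≤ y := by
      rw [div_le_iff₀ h9]; linarith
    have e2 : y - (1/9) ^ N ≤ (m : ℝ) * (8/171) / 9 ^ N := by
      rw [le_div_iff₀ h9, sub_mul, one_div, inv_pow, inv_mul_cancel₀ h9.ne']; linarith
    have e3 : (1/9 : ℝ) ^ N ≤ 1 := pow_le_one₀ (by norm_num) (by norm_num)
    have e4 : (0 : ℝ) < (1/9) ^ N := by positivity
    have hz' := DD_abs hz
    refine ⟨z / 9 + n * (8/171), ?_, ?_⟩
    · have g1 := Int.floor_le (y * (171/8))
      have g2 := Int.lt_floor_add_one (y * (171/8))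
      have n1 : ((⌊y * (171/8)⌋ - 30 : ℤ) : ℝ) ≤ n := by push_cast; linarith
      have n2 : (n : ℝ) ≤ ((⌊y * (171/8)⌋ + 30 : ℤ) : ℝ) := by push_cast; linarith
      have n3 : n ∈ Finset.Icc (⌊y * (171/8)⌋ - 30) (⌊y * (171/8)⌋ + 30) :=
        Finset.mem_Icc.2 ⟨by exact_mod_cast n1, by exact_mod_cast n2⟩
      exact mem_iUnion.2 ⟨n, mem_iUnion.2 ⟨n3, z, hz, rfl⟩⟩
    · rw [← h, Real.dist_eq, abs_lt]; constructor <;> linarith
  obtain ⟨n, hn⟩ := mem_iUnion.1 hy
  obtain ⟨_, hn⟩ := mem_iUnion.1 hn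
  exact mem_iUnion.2 ⟨n, hn⟩

lemma DD_interior : (interior DD).Nonempty := by
  obtain ⟨n, x, hx⟩ := nonempty_interior_of_iUnion_of_closed EE_closed EE_cover
  rw [mem_interior_iff_mem_nhds] at hx
  have hc : Continuous (fun z : ℝ => z / 9 + n * (8/171)) := by fun_prop
  refine ⟨9 * (x - n * (8/171)), ?_⟩
  rw [mem_interior_iff_mem_nhds]
  have h2 : (fun z : ℝ => z / 9 + n * (8/171)) ⁻¹' (EE n) ∈ 𝓝 (9 * (x - n * (8/171))) := by
    apply hc.continuousAt.preimage_mem_nhds
    convert hx using 2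
    ring
  refine mem_of_superset h2 ?_
  rintro z ⟨w, hw, h⟩
  have : w = z := by simp only at h; linarith
  exact this ▸ hw

lemma DD_unfold {z : ℝ} (hz : z ∈ DD) : ∃ a b c d : Bool, ∃ w ∈ DD, z =
    ((if a = true then 15 * (8/171) else 0) + (if b = true then 4 * (8/171) else 0)
      - (if c = true then 15 * (8/171) else 0) - (if d = true then 4 * (8/171) else 0) + w / 9 : ℝ) := by
  obtain ⟨u, ⟨e, rfl⟩, v, ⟨f, rfl⟩, rfl⟩ := hz
  refine ⟨e 0, e 1, f 0, f 1, _, ⟨_, ⟨fun n => e (n + 2), rfl⟩, _, ⟨fun n => f (n + 2), rfl⟩, rfl⟩, ?_⟩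
  rw [SS_rec e, SS_rec f]; ring

lemma gap (k : ℕ) : (1/3 : ℝ) * (1/9) ^ k ∉ DD := by
  induction k with
  | zero =>
    intro h
    obtain ⟨a, b, c, d, w, hw, h⟩ := DD_unfold h
    have := DD_abs hw
    cases a <;> cases b <;> cases c <;> cases d <;> simp at h <;> linarith [this.1, this.2]
  | succ k ih =>
    intro h
    obtain ⟨a, b, c, d, w, hw, h⟩ := DD_unfold h
    have := DD_abs hw
    have e3 : (1/9 : ℝ) ^ k ≤ 1 := pow_le_one₀ (by norm_num) (by norm_num)
    have e4 : (0 : ℝ) < (1/9) ^ k := by positivity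
    rw [pow_succ] at h
    generalize (1/9 : ℝ) ^ k = t at *
    have key : w = 1/3 * t := by
      cases a <;> cases b <;> cases c <;> cases d <;> simp at h <;> linarith [this.1, this.2]
    exact ih (key ▸ hw)

lemma zero_not_mem : (0 : ℝ) ∉ interior DD := by
  intro h
  rw [mem_interior_iff_mem_nhds] at h
  have ht : Tendsto (fun k : ℕ => (1/3 : ℝ) * (1/9) ^ k) atTop (𝓝 0) := by
    have := (tendsto_pow_atTop_nhds_zero_of_lt_one (by norm_num : (0 : ℝ) ≤ 1/9)
      (by norm_num)).const_mul (1/3 : ℝ)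
    simpa using this
  obtain ⟨k, hk⟩ := (ht.eventually h).exists
  exact gap k hk

/-- The negation of the statement. -/
theorem result :
    ¬ (∀ a : ℕ → ℝ, (∀ n, 0 < a n ∧ a n < 1) →
      ∀ C : Set ℝ,
        C = Set.range (fun ε : ℕ → Bool =>
          ∑' n, if ε n = true then
            (∏ i ∈ Finset.range n, (1 - a i) / 2) * (1 - (1 - a n) / 2) else 0) →
        (interior {z : ℝ | ∃ u ∈ C, ∃ v ∈ C, z = u - v}).Nonempty →
        (0 : ℝ) ∈ interior {z : ℝ | ∃ u ∈ C, ∃ v ∈ C, z = u - v}) := by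
  intro H
  refine zero_not_mem (H aa ?_ (range SS) rfl DD_interior)
  intro n
  unfold aa
  split_ifs <;> norm_num

end Pool.Agent.S06418
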