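import Pool.Statements.S06419
import Pool.Agent.H97.Gon

set_option autoImplicit false
open scoped ENNReal MeasureTheory
open Pool Pool.MP_df1243_an

namespace Pool.Agent.S06419

/-- For every compact E in [0,1] on the real axis whose 2-modulus of curves to the circle of radius 2 is positive, the 2-modulus of the family of rectifiable curves joining E to the rest of the real axis is infinite. -/
theorem result :
    ∀ E : Set (EuclideanSpace ℝ (Fin 2)), IsCompact E →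
      E ⊆ {x | x 1 = 0 ∧ 0 ≤ x 0 ∧ x 0 ≤ 1} →
      0 < (⨅ (ρ : EuclideanSpace ℝ (Fin 2) → ℝ≥0∞) (_ : Measurable ρ)
            (_ : ∀ γ : C(unitInterval, EuclideanSpace ℝ (Fin 2)),
              Function.Injective γ → γ 0 ∈ E → γ 1 ∈ Metric.sphere (0 : EuclideanSpace ℝ (Fin 2)) 2 →
              μH[1] (Set.range γ) < ⊤ → 1 ≤ ∫⁻ x in Set.range γ, ρ x ∂μH[1]),
            ∫⁻ x, ρ x ^ 2) →
      (⨅ (ρ : EuclideanSpace ℝ (Fin 2) → ℝ≥0∞) (_ : Measurable ρ)
            (_ : ∀ γ : C(unitInterval, EuclideanSpace ℝ (Fin 2)),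
              Function.Injective γ → γ 0 ∈ E → γ 1 ∈ ({x | x 1 = 0} \ E) →
              μH[1] (Set.range γ) < ⊤ → 1 ≤ ∫⁻ x in Set.range γ, ρ x ∂μH[1]),
            ∫⁻ x, ρ x ^ 2) = ⊤ := by
  intro E hE hE1 hpos
  by_contra hne
  obtain ⟨ρ, hρ⟩ := iInf_lt_iff.1 (lt_top_iff_ne_top.2 hne)
  obtain ⟨hm, hρ⟩ := iInf_lt_iff.1 hρ
  obtain ⟨ha, hρ⟩ := iInf_lt_iff.1 hρ
  refine absurd (ENNReal.le_of_forall_pos_le_add fun η hη _ => ?_) (not_le.2 hpos)
  have h1 : (0 : ℝ) < min ((η : ℝ) / 260) (1 / 200) := lt_min (div_pos (by exact_mod_cast hη) (by norm_num)) (by norm_num)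
  obtain ⟨σ, h2, h3, h4⟩ := H97.Gon.cap hE1 hE.isClosed hm hρ.ne ha h1
    ((min_le_right _ _).trans_lt (by norm_num))
  refine iInf_le_of_le σ (iInf_le_of_le h2 (iInf_le_of_le h3 (h4.trans ?_)))
  rw [zero_add, ← ENNReal.ofReal_coe_nnreal]
  refine ENNReal.ofReal_le_ofReal ?_
  have := min_le_left ((η : ℝ) / 260) (1 / 200)
  linarith

end Pool.Agent.S06419
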