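import Pool.Statements.S06423
import Pool.Agent.H2.WcE

set_option autoImplicit false
open Pool Pool.MP_df74ac_an

namespace Pool.Agent.S06423

/-- For every nonzero real WCG Banach space X: X has an equivalent norm that is Gateaux differentiable at every x ≠ 0 and Frechet differentiable at no x ≠ 0 if and only if the dual X* fails the convex weak*-point-of-continuity property (C*PCP). -/
theorem result :
  ∀ (X : Type) [NormedAddCommGroup X] [NormedSpace ℝ X] [CompleteSpace X] [Nontrivial X],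
    (∃ K : Set X,
        @IsCompact X (TopologicalSpace.induced (fun (x : X) (f : X →L[ℝ] ℝ) => f x) inferInstance) K ∧
        Dense ((Submodule.span ℝ K : Submodule ℝ X) : Set X)) →
    ((∃ N : X → ℝ,
        (∀ x y : X, N (x + y) ≤ N x + N y) ∧
        (∀ (r : ℝ) (x : X), N (r • x) = |r| * N x) ∧
        (∃ c₁ c₂ : ℝ, 0 < c₁ ∧ 0 < c₂ ∧ ∀ x : X, c₁ * ‖x‖ ≤ N x ∧ N x ≤ c₂ * ‖x‖) ∧
        (∀ x : X, x ≠ 0 → ∃ L : X →L[ℝ] ℝ,
            ∀ v : X, HasDerivAt (fun t : ℝ => N (x + t • v)) (L v) 0) ∧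
        (∀ x : X, x ≠ 0 → ¬ DifferentiableAt ℝ N x)) ↔
     ¬ (∀ C : Set (X →L[ℝ] ℝ), C.Nonempty → Convex ℝ C →
        @IsCompact (X →L[ℝ] ℝ)
          (TopologicalSpace.induced (fun (f : X →L[ℝ] ℝ) (x : X) => f x) inferInstance) C →
        ∃ z ∈ C, ∀ ε : ℝ, 0 < ε → ∃ U : Set (X →L[ℝ] ℝ),
          @IsOpen (X →L[ℝ] ℝ)
            (TopologicalSpace.induced (fun (f : X →L[ℝ] ℝ) (x : X) => f x) inferInstance) U ∧
          z ∈ U ∧ ∀ y ∈ C ∩ U, ‖y - z‖ < ε)) := by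
  intro X _ _ _ _ hW
  obtain ⟨K, hK, hd⟩ := hW
  have hK' : IsCompact (Pool.Agent.H2.Wc.ev '' K) :=
    (@Topology.IsInducing.isCompact_iff X _ (TopologicalSpace.induced
      (fun (x : X) (f : X →L[ℝ] ℝ) => f x) inferInstance) _ K _
      (@Topology.IsInducing.induced X _ _ (fun (x : X) (f : X →L[ℝ] ℝ) => f x))).mp hK
  obtain ⟨W⟩ := Pool.Agent.H2.Wc.exists_wk K hK' hd
  constructor
  · rintro ⟨N, h1, h2, ⟨a, b, ha, hb, h3⟩, h4, h5⟩ hcp
    obtain ⟨x, hx, h⟩ := Pool.Agent.H2.Wc.frechet_point hcp (Seminorm.of N h1 h2) ha hb h3 h4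
    exact h5 x hx h
  · intro h
    obtain ⟨p, a, b, ha, hb, h3, h4, h5⟩ := Pool.Agent.H2.Wc.rough_of_not_cp W h
    exact ⟨p, map_add_le_add p, fun r x => map_smul_eq_mul p r x, ⟨a, b, ha, hb, h3⟩, h4, h5⟩

end Pool.Agent.S06423
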