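import Pool.Statements.S06442
import Pool.Agent.H87.MBasis

set_option autoImplicit false
open Pool Pool.MP_e07177_an

namespace Pool.Agent.S06442

theorem result :
    ¬ (∀ (𝕜 : Type) [RCLike 𝕜] (E : Type) [NormedAddCommGroup E] [NormedSpace 𝕜 E]
      [CompleteSpace E] (x : ℕ → E),
      ((∃ f : ℕ → (E →L[𝕜] 𝕜),
          (∀ i j : ℕ, f i (x j) = if i = j then (1 : 𝕜) else 0) ∧
          (∀ v : E, (∀ n : ℕ, f n v = 0) → v = 0)) ∧
        Dense ((Submodule.span 𝕜 (Set.range x) : Submodule 𝕜 E) : Set E)) →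
      ∃ a b : ℕ → ℕ, StrictMono a ∧ StrictMono b ∧
        (∀ n : ℕ, (∃ k, a k = n) ↔ ¬ ∃ k, b k = n) ∧
        ∀ c : ℕ → ℕ, (c = a ∨ c = b) →
          ∃ p : ℕ → ℕ, StrictMono p ∧
            ∀ v ∈ (Submodule.span 𝕜 (Set.range (fun i => x (c i)))).topologicalClosure,
              ∃! t : ℕ → 𝕜,
                Filter.Tendsto
                  (fun k => ∑ i ∈ Finset.range (p k), t i • x (c i))
                  Filter.atTop (nhds v)) := by
  intro h
  obtain ⟨a, b, ha, hb, hab, h⟩ := h ℂ Pool.Agent.H87.MBasis.L1 Pool.Agent.H87.MBasis.x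
    ⟨⟨Pool.Agent.H87.MBasis.f, Pool.Agent.H87.MBasis.f_x, Pool.Agent.H87.MBasis.f_total⟩,
      Pool.Agent.H87.MBasis.x_dense⟩
  exact Pool.Agent.H87.MBasis.main a b ha hb hab h

end Pool.Agent.S06442
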