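import Pool.Statements.S06444
import Pool.Agent.H93.Onl1

set_option autoImplicit false
open MeasureTheory
open scoped ENNReal
open Pool Pool.MP_e081a1_an

namespace Pool.Agent.S06444

open Set Filter Topology Pool.Agent.H93.Onl1

lemma onl_one {X E F : Type*} [MeasurableSpace X] [MeasurableSingletonClass X] [Countable X]
    [NormedAddCommGroup E] [NormedSpace ℝ E] [Nontrivial E] [NormedAddCommGroup F]
    [NormedSpace ℝ F] (ν : Measure X) (hν : ∀ x, ν {x} ≠ ⊤) (h0 : ν ≠ 0) (T : Lp E 1 ν →L[ℝ] F) :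
    ∃ ξ : Lp E 1 ν, ξ ≠ 0 ∧ (∃ x, ∀ᵐ z ∂ν, z ∉ ({x} : Set X) → ξ z = 0) ∧
      1 / 2 * ‖T‖ * ‖ξ‖ ≤ ‖T ξ‖ := by
  classical
  by_contra H
  push Not at H
  have H' : ∀ (ξ : Lp E 1 ν) x, (∀ᵐ z ∂ν, z ∉ ({x} : Set X) → ξ z = 0) →
      ‖T ξ‖ ≤ 1 / 2 * ‖T‖ * ‖ξ‖ := fun ξ x h => by
    by_cases e : ξ = 0
    · simp [e]
    · exact (H ξ e ⟨x, h⟩).le
  have key : ∀ g : Lp E 1 ν, ‖T g‖ ≤ 1 / 2 * ‖T‖ * ‖g‖ := by
    intro g
    have hi : Integrable (fun z => ‖g z‖) ν := (L1.integrable_coeFn g).norm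
    let I : Set X → Lp E 1 ν := fun s =>
      ((Lp.memLp g).indicator (s := s) (to_countable s).measurableSet).toLp
    have hI : ∀ s, I s =ᵐ[ν] s.indicator g := fun s => MemLp.coeFn_toLp _
    have nI : ∀ s, ‖I s‖ = ∫ z in s, ‖g z‖ ∂ν := fun s => by
      rw [L1.norm_eq_integral_norm, ← integral_indicator (to_countable s).measurableSet]
      refine integral_congr_ae ?_
      filter_upwards [hI s] with z hz
      rw [hz, norm_indicator_eq_indicator_norm]
    have aI : ∀ s t, Disjoint s t → I (s ∪ t) = I s + I t := fun s t h => by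
      ext1
      filter_upwards [hI s, hI t, hI (s ∪ t), Lp.coeFn_add (I s) (I t)] with z a b c d
      rw [c, d, Pi.add_apply, a, b, indicator_union_of_disjoint h]
    have uI : I univ = g := by
      ext1
      filter_upwards [hI univ] with z a
      rw [a, indicator_univ]
    let a : X → ℝ := fun x => ∫ z in {x}, ‖g z‖ ∂ν
    have hs : HasSum a ‖g‖ := by
      have := hasSum_integral_iUnion (μ := ν) (s := fun x : X => ({x} : Set X))
        (f := fun z => ‖g z‖) (fun x => measurableSet_singleton x)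
        (fun x y h => disjoint_singleton.2 h) hi.integrableOn
      rwa [iUnion_of_singleton, Measure.restrict_univ, ← L1.norm_eq_integral_norm] at this
    have h1 : ∀ s : Finset X, ‖T (I s)‖ ≤ 1 / 2 * ‖T‖ * ∑ x ∈ s, a x ∧
        ∫ z in s, ‖g z‖ ∂ν = ∑ x ∈ s, a x := by
      intro s
      induction s using Finset.induction_on with
      | empty =>
        have := T.le_opNorm (I ∅)
        rw [nI] at this
        simpa using this
      | insert x s hx ih =>
        have d : Disjoint ({x} : Set X) s := by simpa using hx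
        rw [Finset.coe_insert, insert_eq, aI _ _ d, map_add, Finset.sum_insert hx, mul_add,
          setIntegral_union d (to_countable _).measurableSet hi.integrableOn hi.integrableOn, ih.2]
        refine ⟨(norm_add_le _ _).trans (add_le_add ?_ ih.1), rfl⟩
        have := H' (I {x}) x (by
          filter_upwards [hI {x}] with z a b
          rw [a, indicator_of_notMem b])
        rwa [nI] at this
    have h2 : ∀ s : Finset X, ‖T g‖ ≤ 1 / 2 * ‖T‖ * ∑ x ∈ s, a x + ‖T‖ * (‖g‖ - ∑ x ∈ s, a x) := by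
      intro s
      have e := aI s (s : Set X)ᶜ disjoint_compl_right
      rw [union_compl_self, uI] at e
      have b := T.le_opNorm (I (s : Set X)ᶜ)
      have c := integral_add_compl (μ := ν) (to_countable (s : Set X)).measurableSet hi
      rw [(h1 s).2, ← nI, ← L1.norm_eq_integral_norm] at c
      conv_lhs => rw [e, map_add]
      refine (norm_add_le _ _).trans (add_le_add (h1 s).1 ?_)
      rw [← c, add_sub_cancel_left]; exact b
    have := ge_of_tendsto' ((hs.const_mul (1 / 2 * ‖T‖)).add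
      ((tendsto_const_nhds (x := ‖g‖).sub hs).const_mul ‖T‖)) h2
    simpa using this
  have hT : ‖T‖ ≤ 1 / 2 * ‖T‖ := T.opNorm_le_bound (by positivity) key
  have hT0 : ‖T‖ = 0 := by linarith [norm_nonneg T]
  obtain ⟨x, hx⟩ : ∃ x, ν {x} ≠ 0 := by
    by_contra k
    push Not at k
    apply h0
    rw [← Measure.measure_univ_eq_zero, ← iUnion_of_singleton]
    exact measure_iUnion_null k
  obtain ⟨e, he⟩ := exists_ne (0 : E)
  have := H (indicatorConstLp 1 (measurableSet_singleton x) (hν x) e) (by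
    rw [← norm_ne_zero_iff, norm_indicatorConstLp one_ne_zero ENNReal.one_ne_top]
    have : 0 < ν.real {x} := ENNReal.toReal_pos hx (hν x)
    have : 0 < ‖e‖ := norm_pos_iff.2 he
    positivity) ⟨x, indicatorConstLp_coeFn_notMem⟩
  rw [hT0] at this
  linarith [norm_nonneg (T (indicatorConstLp 1 (measurableSet_singleton x) (hν x) e))]


/-- The negation of the preceding statement: For every p in [1,∞) other than 2, every bounded geometry metric space with the p-operator norm localization property (ℓ^p-valued L^p, all nonzero locally finite Borel measures) has Yu's property A. -/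
theorem result :
    ¬ (∀ (p : ℝ≥0∞) [Fact (1 ≤ p)], p ≠ ⊤ → p ≠ 2 →
    ∀ (X : Type) [MetricSpace X] [MeasurableSpace X] [BorelSpace X],
      (∀ R : ℝ, 0 < R → ∃ N : ℕ, ∀ x : X,
          (Metric.ball x R).Finite ∧ (Metric.ball x R).ncard ≤ N) →
      (∃ c : ℝ, 0 < c ∧ c ≤ 1 ∧ ∃ f : ℕ → ℕ, Monotone f ∧
        ∀ (ν : Measure X) [IsLocallyFiniteMeasure ν], ν ≠ 0 → ∀ r : ℕ,
          ∀ T : Lp (lp (fun _ : ℕ => ℝ) p) p ν →L[ℝ] Lp (lp (fun _ : ℕ => ℝ) p) p ν,
            (∀ x y : X, (r : ℝ) < dist x y →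
              ∃ U V : Set X, IsOpen U ∧ IsOpen V ∧ x ∈ U ∧ y ∈ V ∧
                ∀ g : Lp (lp (fun _ : ℕ => ℝ) p) p ν,
                  (∀ᵐ z ∂ν, z ∉ U → ⇑g z = 0) → ∀ᵐ z ∂ν, z ∈ V → ⇑(T g) z = 0) →
            ∃ ξ : Lp (lp (fun _ : ℕ => ℝ) p) p ν, ξ ≠ 0 ∧
              (∃ S : Set X, (∀ a ∈ S, ∀ b ∈ S, dist a b ≤ (f r : ℝ)) ∧
                ∀ᵐ z ∂ν, z ∉ S → ⇑ξ z = 0) ∧
              c * ‖T‖ * ‖ξ‖ ≤ ‖T ξ‖) →
      (∀ R : ℝ, 0 < R → ∀ ε : ℝ, 0 < ε →
        ∃ S : ℝ, ∃ A : X → Set (X × ℕ),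
          (∀ x, (A x).Finite) ∧ (∀ x, (x, 0) ∈ A x) ∧
          (∀ x, ∀ w ∈ A x, dist w.1 x ≤ S) ∧
          ∀ x y, dist x y < R →
            ((symmDiff (A x) (A y)).ncard : ℝ) < ε * ((A x ∩ A y).ncard : ℝ))) := by
  classical
  intro H
  have hl : ∀ i (x : Y), (sY i x).1 = x.1 := fun _ _ => rfl
  let : MetricSpace Y := met (lev := Sigma.fst) sY_sY hl
  have hd : ∀ x y : Y, dist x y = D sY Sigma.fst x y := fun _ _ => rfl
  let : MeasurableSpace Y := borel Y
  have : BorelSpace Y := ⟨rfl⟩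
  have : Countable Y := inferInstanceAs (Countable (Σ n : ℕ, Equiv.Perm {l // Good n l}))
  have : Nontrivial (lp (fun _ : ℕ => ℝ) 1) := ⟨lp.single 1 0 1, 0, fun h => by
    have := congrArg (fun f : lp (fun _ : ℕ => ℝ) 1 => f 0) h
    simp at this⟩
  obtain ⟨S, A, a1, a2, a3, a4⟩ := H 1 ENNReal.one_ne_top (by norm_num) Y (fun R _ => by
      obtain ⟨N, hN⟩ := bdd_geom (lev := Sigma.fst) sY_sY fin_Y ⌈R⌉₊
      refine ⟨N, fun x => hN x _ fun y hy => ?_⟩
      have hy' : (D sY Sigma.fst y x : ℝ) < R := hy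
      exact_mod_cast hy'.le.trans (Nat.le_ceil R))
    ⟨1 / 2, by norm_num, by norm_num, fun _ => 0, monotone_const, fun ν _ h0 r T _ => by
      obtain ⟨ξ, b1, ⟨x, b2⟩, b3⟩ := onl_one ν
        (fun x => (isCompact_singleton (x := x)).measure_ne_top) h0 T
      exact ⟨ξ, b1, ⟨{x}, by simp, b2⟩, b3⟩⟩ 2 two_pos (1 / 3) (by norm_num)
  have c := count (lev := Sigma.fst) sY_sY hl free_Y (fin_Y (⌈S⌉₊ + 1)).toFinset (⌈S⌉₊ + 1)
    (by simp) (fun x => (a1 x).toFinset) (fun x _ w hw => by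
      have := a3 x w (by simpa using hw)
      rw [hd] at this
      have : D sY Sigma.fst w.1 x ≤ ⌈S⌉₊ := by exact_mod_cast this.trans (Nat.le_ceil S)
      omega)
  refine absurd c (not_le.2 (Finset.sum_lt_sum_of_nonempty ⟨⟨⌈S⌉₊ + 1, 1⟩, by simp⟩ fun x _ => ?_))
  have k : ∀ i, 3 * (A x \ A (sY i x)).ncard < (A x).ncard := fun i => by
    have b := a4 x (sY i x) (by
      rw [hd]
      have : D sY Sigma.fst x (sY i x) ≤ 1 := D_le _ _ (Or.inl ⟨[i], le_rfl, rfl⟩)
      have : (D sY Sigma.fst x (sY i x) : ℝ) ≤ 1 := by exact_mod_cast this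
      linarith)
    have b1 : (A x \ A (sY i x)).ncard ≤ (symmDiff (A x) (A (sY i x))).ncard :=
      ncard_le_ncard subset_union_left (((a1 x).subset diff_subset).union
        ((a1 _).subset diff_subset))
    have b2 : (A x ∩ A (sY i x)).ncard ≤ (A x).ncard := ncard_le_ncard inter_subset_left (a1 x)
    have : 3 * (symmDiff (A x) (A (sY i x))).ncard < (A x ∩ A (sY i x)).ncard := by
      have : (3 : ℝ) * (symmDiff (A x) (A (sY i x))).ncard < (A x ∩ A (sY i x)).ncard := by
        linarith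
      exact_mod_cast this
    omega
  simp only [Finite.coe_toFinset, Fin.sum_univ_three]
  rw [← ncard_eq_toFinset_card _ (a1 x)]
  have := k 0
  have := k 1
  have := k 2
  omega

end Pool.Agent.S06444
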