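import Pool.Statements.S06452

set_option autoImplicit false
open Pool Pool.MP_e12d7b_an

namespace Pool.Agent.S06452

open Polynomial

def cp : ℕ → ℝ
  | 0 => 7
  | 1 => 73
  | 2 => 337
  | 3 => 898
  | 4 => 1507
  | 5 => 1639
  | 6 => 1221
  | 7 => 924
  | 8 => 1221
  | 9 => 1639
  | 10 => 1507
  | 11 => 898
  | 12 => 337
  | 13 => 73
  | 14 => 7
  | _ => 0

def cq : ℕ → ℝ
  | 0 => 1000000000000000000000000000000000000000000000000000000000000000000000000000000000000000000000000000000000000000000000000000000000000000000000000000000000000000000000000000000000000000000000000000000000000000000000000000000000000000000000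
  | 1 => 1001001001001002001000001001001001000000000000000000000000000000000000000000000000000000000000000000000000000000000000000000000000000000000000000000000000000000000000000000000000000000000000000000000000000000000000000000000000000000000000
  | 2 => 1001002002004004004004005005008003007004004003002001002001001000000000000000000000000000000000000000000000000000000000000000000000000000000000000000000000000000000000000000000000000000000000000000000000000000000000000000000000000000000
  | 3 => 1001002004005006008009013013016017018017018016013014013011007008004003002001001001000000000000000000000000000000000000000000000000000000000000000000000000000000000000000000000000000000000000000000000000000000000000000000000000000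
  | 4 => 1001003004006008013013022022029031038034041039042038040034033024024016016010011004005002001000001000000000000000000000000000000000000000000000000000000000000000000000000000000000000000000000000000000000000000000000000000
  | 5 => 1002003004009010017020028034042046055061065072073074072068063058054045040034024019013010006006001003000000000000000000000000000000000000000000000000000000000000000000000000000000000000000000000000000000000000
  | 6 => 2002005005011015023025038043056062078080094094102097106095100086083067062046044030027018016006006002002000001999000000000000000000000000000000000000000000000000000000000000000000000000000000000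
  | 7 => 1004001008010014021028036046057069076088095107110116116113107101093081077063054041033022017013008005003002001997001000000000000000000000000000000000000000000000000000000000000000
  | 8 => 2002005005011015023025038043056062078080094094102097106095100086083067062046044030027018016006006002002000001999000000000000000000000000000000000000000000000000
  | 9 => 1002003004009010017020028034042046055061065072073074072068063058054045040034024019013010006006001003000000000000000000000000000000000000000000
  | 10 => 1001003004006008013013022022029031038034041039042038040034033024024016016010011004005002001000001000000000000000000000000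
  | 11 => 1001002004005006008009013013016017018017018016013014013011007008004003002001001001000000000000000
  | 12 => 1001002002004004004004005005008003007004004003002001002001001000000000
  | 13 => 1001001001001002001000001001001001000000
  | 14 => 1000000
  | _ => 0

noncomputable def pp : ℝ[X] := ∑ k ∈ Finset.range 15, monomial k (cp k)
noncomputable def qq : ℝ[X] := ∑ k ∈ Finset.range 15, monomial k (cq k)

noncomputable def LL : ℝ[X] := (X + C ((10:ℝ) ^ 0)) * (X + C ((10:ℝ) ^ 3)) * (X + C ((10:ℝ) ^ 6)) * (X + C ((10:ℝ) ^ 9)) * (X + C ((10:ℝ) ^ 12)) * (X + C ((10:ℝ) ^ 21)) * (X + C ((10:ℝ) ^ 24)) * (X + C ((10:ℝ) ^ 27)) * (X + C ((10:ℝ) ^ 30)) * (X + C ((10:ℝ) ^ 33))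
noncomputable def Q1 : ℝ[X] := C 1000 * X ^ 2 + C (1999 * 10 ^ 15) * X + C (10 ^ 33)
noncomputable def Q2 : ℝ[X] := C 1000 * X ^ 2 + C (1999 * 10 ^ 18) * X + C (10 ^ 39)
noncomputable def Q0 : ℝ[X] := C 7 * X ^ 2 + C (-11) * X + C 7

theorem pp_eq : pp = (X + C 1) ^ 12 * Q0 := by
  apply Polynomial.funext
  intro x
  simp [pp, Q0, Finset.sum_range_succ, cp]
  ring

theorem qq_eq : qq = LL * (Q1 * Q2) := by
  apply Polynomial.funext
  intro x
  simp only [qq, LL, Q1, Q2, Finset.sum_range_succ, cq, Finset.sum_range_zero, eval_add, eval_mul,
    eval_monomial, eval_C, eval_X, eval_pow, eval_zero]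
  ring

theorem coeff_sum (c : ℕ → ℝ) (k : ℕ) :
    (∑ j ∈ Finset.range 15, monomial j (c j) : ℝ[X]).coeff k = if k < 15 then c k else 0 := by
  simp [coeff_monomial]

theorem pp_deg : pp.natDegree ≤ 14 := by
  rw [natDegree_le_iff_coeff_eq_zero]
  intro k hk
  rw [pp, coeff_sum, if_neg (by omega)]

theorem qq_deg : 14 ≤ qq.natDegree := by
  apply le_natDegree_of_ne_zero
  rw [qq, coeff_sum]
  simp [cq]

theorem qq_ne : qq ≠ 0 := by
  intro h
  have := qq_deg
  rw [h] at this
  simp at this

theorem pp_ne : pp ≠ 0 := by
  intro h
  have h1 : pp.coeff 0 = 7 := by rw [pp, coeff_sum]; simp [cp]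
  rw [h] at h1
  simp at h1

theorem pp_roots : 12 ≤ pp.roots.card := by
  have h := pp_ne
  rw [pp_eq] at h ⊢
  rw [roots_mul h, roots_pow, roots_X_add_C]
  simp

theorem Q12_roots : (Q1 * Q2).roots = 0 := by
  rw [Multiset.eq_zero_iff_forall_notMem]
  intro x hx
  have h := (mem_roots'.1 hx).2
  simp only [IsRoot.def, Q1, Q2, eval_add, eval_mul, eval_C, eval_X, eval_pow] at h
  have h1 : (0 : ℝ) < 1000 * x ^ 2 + 1999 * 10 ^ 15 * x + 10 ^ 33 := by
    nlinarith [sq_nonneg (2000 * x + 1999 * 10 ^ 15)]
  have h2 : (0 : ℝ) < 1000 * x ^ 2 + 1999 * 10 ^ 18 * x + 10 ^ 39 := by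
    nlinarith [sq_nonneg (2000 * x + 1999 * 10 ^ 18)]
  exact (mul_pos h1 h2).ne' h

theorem qq_roots : qq.roots.card ≤ 10 := by
  have h := qq_ne
  rw [qq_eq] at h ⊢
  rw [roots_mul h, Q12_roots, add_zero]
  refine (card_roots' _).trans ?_
  unfold LL
  compute_degree

noncomputable def gam (k : ℕ) : ℝ :=
  if k < 15 then cq k / cp k else cq 14 / cp 14 * (1 / 10 ^ 40) ^ ((k - 14) ^ 2)

theorem gam_big (j : ℕ) : gam (j + 14) = cq 14 / cp 14 * (1 / 10 ^ 40) ^ (j ^ 2) := by
  unfold gam
  split_ifs with h
  · have : j = 0 := by omega
    subst this
    simp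
  · simp

theorem result :
    ¬ (∀ γ : ℕ → ℝ, (∀ k, 0 < γ k) →
      (∀ k, 4 * γ k * γ (k + 2) < γ (k + 1) ^ 2) →
      ∀ p q : Polynomial ℝ, (∀ k, q.coeff k = γ k * p.coeff k) →
        q.natDegree - q.roots.card ≤ p.natDegree - p.roots.card) := by
  intro h
  have h1 := h gam ?_ ?_ pp qq ?_
  · have := pp_deg
    have := qq_deg
    have := pp_roots
    have := qq_roots
    omega
  · intro k
    unfold gam
    split_ifs with hk
    · interval_cases k <;> simp only [cp, cq] <;> positivity
    · simp only [cp, cq]; positivity
  · intro k
    by_cases hk : k < 14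
    · interval_cases k <;> simp only [gam, cp, cq] <;> norm_num
    · obtain ⟨j, rfl⟩ : ∃ j, k = j + 14 := ⟨k - 14, by omega⟩
      rw [show j + 14 + 2 = (j + 2) + 14 by ring, show j + 14 + 1 = (j + 1) + 14 by ring,
        gam_big, gam_big, gam_big]
      have hg : 0 < cq 14 / cp 14 := by simp only [cp, cq]; positivity
      generalize cq 14 / cp 14 = g at hg
      have ht : (0 : ℝ) < 1 / 10 ^ 40 := by positivity
      have ht2 : 4 * (1 / 10 ^ 40 : ℝ) ^ 2 < 1 := by norm_num
      generalize (1 / 10 ^ 40 : ℝ) = t at ht ht2
      have e1 : 4 * (g * t ^ j ^ 2) * (g * t ^ (j + 2) ^ 2)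
          = (g * t ^ (j + 1) ^ 2) ^ 2 * (4 * t ^ 2) := by ring
      rw [e1]
      have : 0 < (g * t ^ (j + 1) ^ 2) ^ 2 := by positivity
      nlinarith
  · intro k
    rw [pp, qq, coeff_sum, coeff_sum]
    split_ifs with hk
    · unfold gam
      rw [if_pos hk]
      have : cp k ≠ 0 := by interval_cases k <;> simp [cp]
      field_simp
    · simp

end Pool.Agent.S06452
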