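import Pool.Statements.S06470

set_option autoImplicit false
open Pool Pool.MP_e29dfb_an
open Set Filter Topology

namespace Pool.Agent.S06470

theorem lemA {K : Set ℝ} (hK : IsClosed K)
    (h : ∀ α : ℝ, 0 ≤ α → α ≤ 1 → ∀ x ∈ K, x + α ∈ K ∨ x - α ∈ K)
    {u k v : ℝ} (huk : u < k) (hkv : k < v) (huv : v - u ≤ 2) (hu : u ∉ K) (hv : v ∉ K) :
    k ∉ K := by
  intro hk
  have hcl : IsClosed (K ∩ Icc u v) := hK.inter isClosed_Icc
  have hne : (K ∩ Icc u v).Nonempty := ⟨k, hk, huk.le, hkv.le⟩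
  have hbd : BddBelow (K ∩ Icc u v) := ⟨u, fun x hx => hx.2.1⟩
  set p := sInf (K ∩ Icc u v) with hp
  have hpmem : p ∈ K ∩ Icc u v := hcl.csInf_mem hne hbd
  have hup : u < p := lt_of_le_of_ne hpmem.2.1 (fun h' => hu (h' ▸ hpmem.1))
  have hleft : ∀ w, u ≤ w → w < p → w ∉ K := by
    intro w h1 h2 hw
    have : p ≤ w := csInf_le hbd ⟨hw, h1, by linarith [hpmem.2.2]⟩
    linarith
  set S := {t : ℝ | p ≤ t ∧ t ≤ v ∧ Icc p t ⊆ K} with hS
  have hpS : p ∈ S := ⟨le_rfl, hpmem.2.2, by rw [Icc_self]; simpa using hpmem.1⟩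
  have hSbd : BddAbove S := ⟨v, fun t ht => ht.2.1⟩
  set r := sSup S with hr
  have hpr : p ≤ r := le_csSup hSbd hpS
  have hrv : r ≤ v := csSup_le ⟨p, hpS⟩ (fun t ht => ht.2.1)
  have hIco : Ico p r ⊆ K := by
    intro s hs
    obtain ⟨t, ht, hst⟩ := exists_lt_of_lt_csSup ⟨p, hpS⟩ hs.2
    exact ht.2.2 ⟨hs.1, hst.le⟩
  have hIcc : Icc p r ⊆ K := by
    rcases eq_or_lt_of_le hpr with h1 | h1
    · rw [← h1, Icc_self]; simpa using hpmem.1
    · rw [← closure_Ico h1.ne]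
      exact hK.closure_subset_iff.mpr hIco
  have hrK : r ∈ K := hIcc ⟨hpr, le_rfl⟩
  have hrv' : r < v := lt_of_le_of_ne hrv (fun h' => hv (h' ▸ hrK))
  set η := min (p - u) (v - r) with hη
  have hη0 : 0 < η := lt_min (by linarith) (by linarith)
  have hη1 : η ≤ p - u := min_le_left _ _
  have hη2 : η ≤ v - r := min_le_right _ _
  have hw : ∃ w, r < w ∧ w < r + η ∧ w ∉ K := by
    by_contra hcon
    push Not at hcon
    have : r + η / 2 ∈ S := by
      refine ⟨by linarith, by linarith, ?_⟩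
      intro s hs
      by_cases h1 : s ≤ r
      · exact hIcc ⟨hs.1, h1⟩
      · exact hcon s (not_le.mp h1) (by linarith [hs.2])
    have := le_csSup hSbd this
    linarith
  obtain ⟨w, hw1, hw2, hw3⟩ := hw
  have hm : (p + r) / 2 ∈ K := hIcc ⟨by linarith, by linarith⟩
  rcases h (w - (p + r) / 2) (by linarith) (by linarith) _ hm with h1 | h1
  · apply hw3
    convert h1 using 1; ring
  · exact hleft _ (by linarith) (by linarith) h1

theorem lemR {K : Set ℝ}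
    (H : ∀ u k v : ℝ, u < k → k < v → v - u ≤ 2 → u ∉ K → v ∉ K → k ∉ K) (y σ : ℝ)
    (hσ : σ = 1 ∨ σ = -1) :
    ∃ δ > 0, (∀ t, 0 < t → t < δ → y + σ * t ∈ K) ∨ (∀ t, 0 < t → t < δ → y + σ * t ∉ K) := by
  by_cases h : ∃ δ > 0, ∀ t, 0 < t → t < δ → y + σ * t ∈ K
  · obtain ⟨δ, h0, h1⟩ := h
    exact ⟨δ, h0, Or.inl h1⟩
  · push Not at h
    obtain ⟨t0, h0, h1, h2⟩ := h 1 one_pos
    refine ⟨t0, h0, Or.inr ?_⟩
    intro t ht ht0
    obtain ⟨t1, h3, h4, h5⟩ := h t ht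
    rcases hσ with rfl | rfl
    · exact H _ _ _ (by linarith) (by linarith) (by linarith) h5 h2
    · exact H _ _ _ (by linarith) (by linarith) (by linarith) h2 h5

theorem lemB {K : Set ℝ}
    (H : ∀ u k v : ℝ, u < k → k < v → v - u ≤ 2 → u ∉ K → v ∉ K → k ∉ K) (y : ℝ) :
    ∃ δ > 0, ∀ t, |t| < δ → ∀ l : ℝ, 0 < l → l ≤ 1 → (y + t ∈ K ↔ y + l * t ∈ K) := by
  obtain ⟨δ1, h1, h1'⟩ := lemR H y 1 (Or.inl rfl)
  obtain ⟨δ2, h2, h2'⟩ := lemR H y (-1) (Or.inr rfl)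
  refine ⟨min δ1 δ2, lt_min h1 h2, ?_⟩
  intro t ht l hl hl1
  have ht1 : |t| < δ1 := lt_of_lt_of_le ht (min_le_left _ _)
  have ht2 : |t| < δ2 := lt_of_lt_of_le ht (min_le_right _ _)
  rcases lt_trichotomy t 0 with h | h | h
  · rw [abs_of_neg h] at ht2
    have a1 : y + t = y + (-1) * (-t) := by ring
    have a2 : y + l * t = y + (-1) * (l * (-t)) := by ring
    have b1 : 0 < l * (-t) := mul_pos hl (by linarith)
    have b2 : l * (-t) < δ2 := by nlinarith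
    rw [a1, a2]
    rcases h2' with h' | h'
    · exact ⟨fun _ => h' _ b1 b2, fun _ => h' _ (by linarith) ht2⟩
    · exact ⟨fun hh => absurd hh (h' _ (by linarith) ht2), fun hh => absurd hh (h' _ b1 b2)⟩
  · subst h; simp
  · rw [abs_of_pos h] at ht1
    have a1 : y + t = y + 1 * t := by ring
    have a2 : y + l * t = y + 1 * (l * t) := by ring
    have b1 : 0 < l * t := mul_pos hl h
    have b2 : l * t < δ1 := by nlinarith
    rw [a1, a2]
    rcases h1' with h' | h'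
    · exact ⟨fun _ => h' _ b1 b2, fun _ => h' _ h ht1⟩
    · exact ⟨fun hh => absurd hh (h' _ h ht1), fun hh => absurd hh (h' _ b1 b2)⟩

/-- The compact set [0,1] ∪ {2} ∪ {2 + 1/n} is not the center of distances of a compact set. -/
theorem result :
    ¬ (∀ C : Set ℝ, IsCompact C → (0 : ℝ) ∈ C → C ⊆ Set.Ici (0 : ℝ) →
      ∃ K : Set ℝ, IsCompact K ∧
        {α : ℝ | 0 ≤ α ∧ ∀ x ∈ K, ∃ y ∈ K, |x - y| = α} = C) := by
  intro h
  have hlim : Tendsto (fun n : ℕ => (2 : ℝ) + 1 / ((n : ℝ) + 1)) atTop (𝓝 2) := by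
    have := tendsto_one_div_add_atTop_nhds_zero_nat (𝕜 := ℝ)
    simpa using this.const_add 2
  set C : Set ℝ := Icc 0 1 ∪ insert 2 (range fun n : ℕ => (2 : ℝ) + 1 / ((n : ℝ) + 1)) with hCdef
  have hCc : IsCompact C := isCompact_Icc.union hlim.isCompact_insert_range
  have hsub : C ⊆ Ici 0 := by
    rintro a (ha | ha | ⟨n, ha⟩)
    · exact ha.1
    · rw [ha]; norm_num
    · rw [← ha]; simp only [mem_Ici]; positivity
  obtain ⟨K, hK, hKC⟩ := h C hCc (Or.inl ⟨le_rfl, zero_le_one⟩) hsub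
  have hin : ∀ α ∈ C, ∀ x ∈ K, x + α ∈ K ∨ x - α ∈ K := by
    intro α hα x hx
    have h0 : 0 ≤ α := hsub hα
    rw [← hKC] at hα
    obtain ⟨y, hy, hxy⟩ := hα.2 x hx
    rcases (abs_eq h0).mp hxy with h1 | h1
    · right; have : x - α = y := by linarith
      rw [this]; exact hy
    · left; have : x + α = y := by linarith
      rw [this]; exact hy
  have H : ∀ u k v : ℝ, u < k → k < v → v - u ≤ 2 → u ∉ K → v ∉ K → k ∉ K :=
    fun u k v h1 h2 h3 h4 h5 =>
      lemA hK.isClosed (fun α h0 h1 => hin α (Or.inl ⟨h0, h1⟩)) h1 h2 h3 h4 h5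
  have hout : ∀ n : ℕ, ∃ x ∈ K, x + (2 + 1 / ((n : ℝ) + 3 / 2)) ∉ K ∧
      x - (2 + 1 / ((n : ℝ) + 3 / 2)) ∉ K := by
    intro n
    have hpos : 0 < 1 / ((n : ℝ) + 3 / 2) := by positivity
    have hnot : (2 + 1 / ((n : ℝ) + 3 / 2)) ∉ C := by
      rintro (ha | ha | ⟨m, ha⟩)
      · linarith [ha.2]
      · linarith
      · have h1 : 1 / ((m : ℝ) + 1) = 1 / ((n : ℝ) + 3 / 2) := by simpa using ha
        have h2 : ((m : ℝ) + 1) = ((n : ℝ) + 3 / 2) := by
          rw [one_div, one_div] at h1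
          exact inv_injective h1
        have h3 : ((2 * m : ℕ) : ℝ) = ((2 * n + 1 : ℕ) : ℝ) := by push_cast; linarith
        have h4 : 2 * m = 2 * n + 1 := by exact_mod_cast h3
        omega
    rw [← hKC] at hnot
    simp only [mem_setOf_eq, not_and, not_forall] at hnot
    obtain ⟨x, hx, hx'⟩ := hnot (by positivity)
    push Not at hx'
    refine ⟨x, hx, fun hh => hx' _ hh ?_, fun hh => hx' _ hh ?_⟩
    · rw [abs_of_neg (by linarith)]; ring
    · rw [abs_of_pos (by linarith)]; ring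
  choose xs hxs hxs1 hxs2 using hout
  obtain ⟨x, -, φ, hφ, hxφ⟩ := hK.tendsto_subseq hxs
  obtain ⟨δ0, h0, h0'⟩ := lemB H x
  obtain ⟨δ1, h1, h1'⟩ := lemB H (x + 2)
  obtain ⟨δ2, h2, h2'⟩ := lemB H (x - 2)
  set δ := min δ0 (min δ1 δ2) with hδ
  have hδ0 : 0 < δ := lt_min h0 (lt_min h1 h2)
  have hd0 : δ ≤ δ0 := min_le_left _ _
  have hd1 : δ ≤ δ1 := (min_le_right _ _).trans (min_le_left _ _)
  have hd2 : δ ≤ δ2 := (min_le_right _ _).trans (min_le_right _ _)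
  have hs : Tendsto (fun n : ℕ => 1 / (((φ n : ℕ) : ℝ) + 3 / 2)) atTop (𝓝 0) := by
    have h3 : Tendsto (fun n : ℕ => ((n : ℝ) + 3 / 2)) atTop atTop :=
      tendsto_atTop_add_const_right _ _ tendsto_natCast_atTop_atTop
    have h4 := h3.inv_tendsto_atTop.comp hφ.tendsto_atTop
    simpa [Function.comp_def] using h4
  have e1 : ∀ᶠ n in atTop, |xs (φ n) - x| < δ / 2 := by
    have := (Metric.tendsto_nhds.mp hxφ) (δ / 2) (by linarith)
    simpa [Real.dist_eq] using this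
  have e2 : ∀ᶠ n in atTop, 1 / (((φ n : ℕ) : ℝ) + 3 / 2) < δ / 2 :=
    hs.eventually (gt_mem_nhds (by linarith))
  obtain ⟨n, hn1, hn2⟩ := (e1.and e2).exists
  set t := xs (φ n) - x with ht
  set s := 1 / (((φ n : ℕ) : ℝ) + 3 / 2) with hsdef
  have hspos : 0 < s := by positivity
  obtain ⟨m, hm⟩ := exists_nat_one_div_lt hspos
  set l := (1 / ((m : ℝ) + 1)) / s with hl
  have hl0 : 0 < l := by positivity
  have hl1 : l ≤ 1 := by rw [hl, div_le_one hspos]; exact hm.le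
  have hls : l * s = 1 / ((m : ℝ) + 1) := by rw [hl]; field_simp
  have hxt : x + t ∈ K := by
    have : x + t = xs (φ n) := by rw [ht]; ring
    rw [this]; exact hxs _
  have hx' : x + l * t ∈ K := (h0' t (by linarith) l hl0 hl1).mp hxt
  have habs := abs_lt.mp hn1
  rcases hin (2 + 1 / ((m : ℝ) + 1)) (Or.inr (Or.inr ⟨m, rfl⟩)) _ hx' with h5 | h5
  · have a : x + l * t + (2 + 1 / ((m : ℝ) + 1)) = x + 2 + l * (t + s) := by
      rw [← hls]; ring
    rw [a] at h5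
    have := (h1' (t + s) (by rw [abs_lt]; constructor <;> linarith) l hl0 hl1).mpr h5
    apply hxs1 (φ n)
    convert this using 1
    rw [ht]; ring
  · have a : x + l * t - (2 + 1 / ((m : ℝ) + 1)) = x - 2 + l * (t - s) := by
      rw [← hls]; ring
    rw [a] at h5
    have := (h2' (t - s) (by rw [abs_lt]; constructor <;> linarith) l hl0 hl1).mpr h5
    apply hxs2 (φ n)
    convert this using 1
    rw [ht]; ring

end Pool.Agent.S06470
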