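import Pool.Statements.S06473
import Pool.Agent.H63.Mark3

set_option autoImplicit false
open Pool Pool.MP_e2d16f_an

namespace Pool.Agent.S06473

/-- Every metric space has Markov type 2 (bound on mean squared displacement of reversible stationary finite Markov chains after t steps) iff it has maximal Markov type 2 (same bound for the mean of the maximal squared displacement up to time t). -/
theorem result :
    ∀ (X : Type) [MetricSpace X],
      (∃ M : ℝ, ∀ (n : ℕ) (μ : Fin n → ℝ) (A : Matrix (Fin n) (Fin n) ℝ),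
        (∀ i, 0 ≤ μ i) → (∑ i, μ i = 1) → (∀ i j, 0 ≤ A i j) → (∀ i, ∑ j, A i j = 1) →
        (∀ i j, μ i * A i j = μ j * A j i) →
        ∀ (f : Fin n → X) (t : ℕ),
          ∑ i, ∑ j, μ i * (A ^ t) i j * dist (f i) (f j) ^ 2 ≤
            M ^ 2 * (t : ℝ) * ∑ i, ∑ j, μ i * A i j * dist (f i) (f j) ^ 2)
      ↔
      (∃ M : ℝ, ∀ (n : ℕ) (μ : Fin n → ℝ) (A : Matrix (Fin n) (Fin n) ℝ),
        (∀ i, 0 ≤ μ i) → (∑ i, μ i = 1) → (∀ i j, 0 ≤ A i j) → (∀ i, ∑ j, A i j = 1) →
        (∀ i j, μ i * A i j = μ j * A j i) →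
        ∀ (f : Fin n → X) (t : ℕ),
          ∑ w : Fin (t + 1) → Fin n,
              μ (w 0) * (∏ k : Fin t, A (w k.castSucc) (w k.succ)) *
                (⨆ s : Fin (t + 1), dist (f (w s)) (f (w 0)) ^ 2) ≤
            M ^ 2 * (t : ℝ) * ∑ i, ∑ j, μ i * A i j * dist (f i) (f j) ^ 2) := by
  intro X _
  constructor
  · rintro ⟨M, hM⟩
    refine ⟨1000 * M, fun n μ A m0 m1 h0 h1 hr f t => ?_⟩
    refine (Pool.Agent.H63.Mark.main (d := fun i j => dist (f i) (f j)) (sq_nonneg M)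
      (fun μ A a b c d e t => hM n μ A a b c d e f t) (fun _ _ => dist_nonneg)
      (fun _ => dist_self _) (fun _ _ => dist_comm _ _) (fun _ _ _ => dist_triangle _ _ _)
      m0 m1 h0 h1 hr t).trans_eq ?_
    ring
  · rintro ⟨M, hM⟩
    refine ⟨M, fun n μ A m0 m1 h0 h1 hr f t => le_trans ?_ (hM n μ A m0 m1 h0 h1 hr f t)⟩
    rw [← Pool.Agent.H63.Mark.PS_last A t μ fun i j => dist (f i) (f j) ^ 2]
    refine Pool.Agent.H63.Mark.PS_mono h0 m0 fun w => ?_
    rw [dist_comm]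
    exact le_ciSup (Finite.bddAbove_range fun s => dist (f (w s)) (f (w 0)) ^ 2) _

end Pool.Agent.S06473
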