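import Pool.Statements.S06480
import Pool.Agent.H87.DenF7

set_option autoImplicit false
open Filter Topology
open Pool Pool.MP_e3abba_an

namespace Pool.Agent.S06480

theorem result :
    ¬ (∀ (X : Type) [NormedAddCommGroup X] [NormedSpace ℝ X] [CompleteSpace X],
      (∀ p : Seminorm ℝ X, (∃ C : ℝ, 0 < C ∧ ∀ x : X, ‖x‖ ≤ C * p x ∧ p x ≤ C * ‖x‖) →
        ∀ ε : ℝ, 0 < ε → ∃ q : Seminorm ℝ X,
          (∃ C : ℝ, 0 < C ∧ ∀ x : X, ‖x‖ ≤ C * q x ∧ q x ≤ C * ‖x‖) ∧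
          (∀ x : X, x ≠ 0 → DifferentiableAt ℝ (fun y : X => q y) x) ∧
          ∀ x : X, ‖x‖ ≤ 1 → |p x - q x| ≤ ε) →
      ∃ p : Seminorm ℝ X, (∃ C : ℝ, 0 < C ∧ ∀ x : X, ‖x‖ ≤ C * p x ∧ p x ≤ C * ‖x‖) ∧
        ∃ N : (X →L[ℝ] ℝ) → ℝ,
          (∀ f : X →L[ℝ] ℝ, N f = ⨆ x : {x : X // p x ≤ 1}, f x.1) ∧
          ∀ (f : X →L[ℝ] ℝ) (g : ℕ → (X →L[ℝ] ℝ)),
            Tendsto (fun n : ℕ => 2 * N f ^ 2 + 2 * N (g n) ^ 2 - N (f + g n) ^ 2) atTop (𝓝 0) →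
            Tendsto (fun n : ℕ => ‖g n - f‖) atTop (𝓝 0)) := by
  exact H87.DenF.main1

end Pool.Agent.S06480
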