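import Pool.Statements.S06498
import Pool.Agent.H92.KS6

set_option autoImplicit false
open MeasureTheory
open Pool Pool.MP_e522c7_an

namespace Pool.Agent.S06498

/-- The negation of the preceding statement: In dimension d≥3, Keller–Segel data n0 (nonnegative, continuous, bounded, integrable, finite second moment) with ∬n0n0∣x−y∣^{2−d} > 2dM∣S^{d−1}∣ admit no global classical solution bounded on compact time intervals, i.e. they blow up in finite time. -/
theorem result :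
    ¬ (∀ d : ℕ, 3 ≤ d →
    ∀ n0 : EuclideanSpace ℝ (Fin d) → ℝ,
      Continuous n0 → (∀ x, 0 ≤ n0 x) → (∃ C : ℝ, ∀ x, n0 x ≤ C) →
      Integrable n0 → Integrable (fun x => ‖x‖ ^ 2 * n0 x) →
      (∫ x, ∫ y, n0 x * n0 y / ‖x - y‖ ^ (d - 2)) >
        2 * (d : ℝ) * (∫ x, n0 x) *
          ((d : ℝ) * (volume (Metric.ball (0 : EuclideanSpace ℝ (Fin d)) 1)).toReal) →
      ¬ ∃ n : ℝ → EuclideanSpace ℝ (Fin d) → ℝ,
          n 0 = n0 ∧
          ContinuousOn (fun p : ℝ × EuclideanSpace ℝ (Fin d) => n p.1 p.2)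
            (Set.Ici (0 : ℝ) ×ˢ Set.univ) ∧
          ContDiffOn ℝ 2 (fun p : ℝ × EuclideanSpace ℝ (Fin d) => n p.1 p.2)
            (Set.Ioi (0 : ℝ) ×ˢ Set.univ) ∧
          (∀ t : ℝ, 0 ≤ t → Integrable (n t)) ∧
          (∀ T : ℝ, 0 < T → ∃ C : ℝ, ∀ t ∈ Set.Icc (0 : ℝ) T, ∀ x, |n t x| ≤ C) ∧
          (∀ t : ℝ, 0 < t → ∀ x : EuclideanSpace ℝ (Fin d),
            deriv (fun s => n s x) t =
              (∑ i : Fin d, iteratedFDeriv ℝ 2 (n t) x
                  ![EuclideanSpace.single i (1 : ℝ), EuclideanSpace.single i (1 : ℝ)])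
              - fderiv ℝ (n t) x
                  ((-(1 / ((d : ℝ) *
                      (volume (Metric.ball (0 : EuclideanSpace ℝ (Fin d)) 1)).toReal))) •
                    ∫ y, (n t y / ‖x - y‖ ^ d) • (x - y))
              + n t x ^ 2)) := by
  intro H
  obtain ⟨ε, hε, hcl⟩ := H92.KS.classical
  have hε' : 0 < ε * Real.exp (-2) := by positivity
  obtain ⟨L, hL, hE⟩ := H92.KS.exists_tube hε'
  have hc := H92.KS.tube_contDiff (ε * Real.exp (-2)) L hL
  have hs := H92.KS.tube_cs (ε * Real.exp (-2)) L hL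
  obtain ⟨n, h0, h1, h2, h3, ⟨C, h4⟩, h5⟩ := hcl ((L + 1) ^ 2)⁻¹ (by positivity) _ hc hs
    (H92.KS.tube_W hε.le L hL)
  refine H 3 le_rfl _ hc.continuous (H92.KS.tube_nonneg hε'.le L hL)
    ⟨_, H92.KS.tube_le hε'.le L hL⟩ (hc.continuous.integrable_of_hasCompactSupport hs)
    (((continuous_norm.pow 2).mul hc.continuous).integrable_of_hasCompactSupport hs.mul_left)
    (by rw [H92.KS.sphere_area]; exact hE)
    ⟨n, h0, h1.continuousOn, h2, fun t _ => h3 t, fun T _ => ⟨C, fun t _ x => h4 t x⟩,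
      fun t ht x => ?_⟩
  rw [H92.KS.sphere_area]
  exact h5 t ht x

end Pool.Agent.S06498
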