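import Pool.Statements.S06503
import Pool.Agent.H63.Dist5

set_option autoImplicit false
open Pool Pool.MP_e59edf_an

namespace Pool.Agent.S06503

/-- Some one-sided subshift over a finite alphabet has an infinite-order automorphism g lying in a finite generating set S of automorphisms such that the word length of gⁿ with respect to S is o(n). -/
theorem result :
    ∃ (k : ℕ) (X : Set (ℕ → Fin k)), IsClosed X ∧
      (∀ x ∈ X, (fun n => x (n + 1)) ∈ X) ∧
      ∃ (S : Finset (Equiv.Perm X)) (g : Equiv.Perm X), g ∈ S ∧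
        (∀ h ∈ S, Continuous (h : X → X) ∧
          ∀ x y : X, ((y : ℕ → Fin k) = fun n => (x : ℕ → Fin k) (n + 1)) →
            ((h y : X) : ℕ → Fin k) = fun n => ((h x : X) : ℕ → Fin k) (n + 1)) ∧
        ¬ IsOfFinOrder g ∧
        ∀ ε : ℝ, 0 < ε → ∃ N : ℕ, ∀ n : ℕ, N ≤ n →
          ∃ l : List (Equiv.Perm X), (l.length : ℝ) ≤ ε * n ∧
            (∀ h ∈ l, h ∈ S ∨ h⁻¹ ∈ S) ∧ l.prod = g ^ n := by
  classical
  obtain ⟨k, ⟨E⟩⟩ := Finite.exists_equiv_fin H63.Dist.St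
  obtain ⟨X, h1, h2, s, h3, h4, h5⟩ := H63.Dist.oneSided E
  refine ⟨k, X, h1, h2, Finset.univ.image s, s 2, by simp, fun h hh => ?_, fun h => ?_, fun ε hε => ?_⟩
  · obtain ⟨g, -, rfl⟩ := Finset.mem_image.1 hh
    exact h3 g
  · obtain ⟨n, hn, e⟩ := isOfFinOrder_iff_pow_eq_one.1 h
    exact h4 n hn e
  · obtain ⟨N, hN⟩ := H63.Dist.sublin ε hε
    refine ⟨N, fun n hn => ?_⟩
    obtain ⟨l, hl, e⟩ := hN n hn
    have e' : (l.map fun p => if p.2 then s p.1 else (s p.1)⁻¹).prod = s 2 ^ n := h5 l n e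
    refine ⟨_, by simpa using hl, fun h hh => ?_, e'⟩
    obtain ⟨p, -, rfl⟩ := List.mem_map.1 hh
    split_ifs <;> simp

end Pool.Agent.S06503
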