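import Pool.Statements.S06510
import Pool.Agent.H96.Punct

set_option autoImplicit false
open Pool Pool.MP_e6ddea_an

namespace Pool.Agent.S06510

open Filter Topology InnerProductSpace Complex Metric Pool.Agent.H96.Punct in
theorem pk (z : ℂ) (hz : ‖z‖ < 1) : AnalyticAt ℂ (fun z : ℂ => (1 + z) / (1 - z)) z ∧
    0 < ((1 + z) / (1 - z)).re ∧ ((1 + z) / (1 - z)).re * ‖1 - z‖ ^ 2 = 1 - ‖z‖ ^ 2 := by
  have h1 : 1 - z ≠ 0 := by
    intro h
    rw [← sub_eq_zero.mp h] at hz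
    simp at hz
  have h2 := (poisson_re z).resolve_right fun h => h1 (by rw [h, sub_self])
  refine ⟨AnalyticAt.div (by fun_prop) (by fun_prop) h1, ?_, h2⟩
  have h3 : 0 < 1 - ‖z‖ ^ 2 := by nlinarith [norm_nonneg z]
  by_contra h
  nlinarith [mul_nonneg (neg_nonneg.mpr (not_lt.mp h)) (sq_nonneg ‖1 - z‖)]

open Filter Topology InnerProductSpace Complex Metric Pool.Agent.H96.Punct in
theorem grad (z : ℂ) (hz : z ≠ 0) :
    (‖gradient (fun y : ℂ => -Real.log ‖y‖) z‖ ^ 2)⁻¹ • gradient (fun y : ℂ => -Real.log ‖y‖) z = -z := by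
  have h1 : HasDerivAt (fun y : ℂ => -log (y / z) - (Real.log ‖z‖ : ℝ)) (-z⁻¹) z := by
    have := (((hasDerivAt_id z).div_const z).clog (by simp [hz])).fun_neg.sub_const ((Real.log ‖z‖ : ℝ) : ℂ)
    refine this.congr_deriv ?_
    simp [hz]
  have h2 := hasFDerivAt_re _ _ _ h1
  have h3 : (fun y : ℂ => -Real.log ‖y‖) =ᶠ[𝓝 z]
      fun y => (-log (y / z) - (Real.log ‖z‖ : ℝ)).re := by
    filter_upwards [isOpen_ne.mem_nhds hz] with y hy
    rw [sub_re, neg_re, log_re, ofReal_re, norm_div,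
      Real.log_div (norm_ne_zero_iff.mpr hy) (norm_ne_zero_iff.mpr hz)]
    ring
  have h4 : gradient (fun y : ℂ => -Real.log ‖y‖) z = (starRingEnd ℂ) (-z⁻¹) := by
    apply ext_inner_right ℝ
    intro v
    rw [inner_gradient_left, h3.fderiv_eq, h2.2]
    simp [mul_comm]
  rw [h4, norm_conj, norm_neg, norm_inv, inv_pow, inv_inv, real_smul]
  push_cast
  rw [← mul_conj', map_neg, map_inv₀]
  have : (starRingEnd ℂ) z ≠ 0 := by simpa using hz
  field_simp

/-- The negation of the preceding statement: For every non-simply-connected plane domain D with Green function g at z₀ and every normalized minimal positive harmonic K on D, some maximal Green line of g leaving z₀ has K equal to the Harnack function at each of its points. -/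
theorem result :
    ¬ (∀ (D : Set ℂ), IsOpen D → IsConnected D → ¬ SimplyConnectedSpace D →
    ∀ z₀ ∈ D, ∀ g : ℂ → ℝ,
      (InnerProductSpace.HarmonicOnNhd g (D \ {z₀}) ∧
        (∀ z ∈ D \ {z₀}, 0 < g z) ∧
        (∃ h : ℂ → ℝ, InnerProductSpace.HarmonicOnNhd h D ∧
          ∀ z ∈ D \ {z₀}, h z = g z + Real.log ‖z - z₀‖) ∧
        (∀ u : ℂ → ℝ,
          (InnerProductSpace.HarmonicOnNhd u (D \ {z₀}) ∧
            (∀ z ∈ D \ {z₀}, 0 < u z) ∧
            (∃ h : ℂ → ℝ, InnerProductSpace.HarmonicOnNhd h D ∧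
              ∀ z ∈ D \ {z₀}, h z = u z + Real.log ‖z - z₀‖)) →
          ∀ z ∈ D \ {z₀}, g z ≤ u z)) →
    ∀ K : ℂ → ℝ,
      (InnerProductSpace.HarmonicOnNhd K D ∧ (∀ z ∈ D, 0 < K z) ∧ K z₀ = 1 ∧
        ∀ u : ℂ → ℝ, InnerProductSpace.HarmonicOnNhd u D →
          (∀ z ∈ D, 0 < u z ∧ u z ≤ K z) →
          ∃ c : ℝ, ∀ z ∈ D, u z = c * K z) →
    ∃ (m : ℝ) (γ : ℝ → ℂ),
      (∀ s : ℝ, m < s →
        γ s ∈ D ∧ γ s ≠ z₀ ∧ gradient g (γ s) ≠ 0 ∧ g (γ s) = s ∧
        HasDerivAt γ ((‖gradient g (γ s)‖ ^ 2)⁻¹ • gradient g (γ s)) s) ∧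
      Filter.Tendsto γ Filter.atTop (nhds z₀) ∧
      (¬ ∃ (m' : ℝ) (γ' : ℝ → ℂ), m' < m ∧ (∀ s : ℝ, m < s → γ' s = γ s) ∧
        ∀ s : ℝ, m' < s →
          γ' s ∈ D ∧ γ' s ≠ z₀ ∧ gradient g (γ' s) ≠ 0 ∧
          HasDerivAt γ' ((‖gradient g (γ' s)‖ ^ 2)⁻¹ • gradient g (γ' s)) s) ∧
      ∀ s : ℝ, m < s →
        ∀ u : ℂ → ℝ, InnerProductSpace.HarmonicOnNhd u D → (∀ z ∈ D, 0 < u z) →
          u z₀ ≤ 1 → u (γ s) ≤ K (γ s)) := by
  open Filter Topology InnerProductSpace Complex Metric Pool.Agent.H96.Punct in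
  intro H
  have h0 : (0 : ℂ) ∈ ball (0 : ℂ) 1 \ {1 / 2} := by simp
  have H1 := H _ punct_open punct_connected punct_not_simply 0 h0 (fun y : ℂ => -Real.log ‖y‖)
    ⟨fun z hz => (AnalyticAt.harmonicAt_log_norm (f := fun z => z) analyticAt_id hz.2).neg,
      fun z hz => neg_pos.mpr (Real.log_neg (norm_pos_iff.mpr hz.2) (mem_ball_zero_iff.mp hz.1.1)),
      ⟨fun _ => 0, harmonicOnNhd_const _, fun z _ => by simp⟩, by
        rintro u ⟨-, h1, h, h2, h3⟩ z hz
        have h4 := green_min h h2 (fun y hy hy0 => by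
          have := h1 y ⟨hy, hy0⟩
          rw [h3 y ⟨hy, hy0⟩, sub_zero]; linarith) z hz.1
        rw [h3 z hz, sub_zero] at h4
        linarith⟩
    (fun z => ((1 + z) / (1 - z)).re)
    ⟨fun z hz => (pk z (mem_ball_zero_iff.mp hz.1)).1.harmonicAt_re,
      fun z hz => (pk z (mem_ball_zero_iff.mp hz.1)).2.1, by simp, by
        intro u hu hu2
        obtain ⟨F, hF, hF2⟩ := removable u hu 8 fun w hw hw2 => by
          have h1 := hu2 _ (near_mem w hw (by linarith))
          refine ⟨h1.1.le, h1.2.trans ((re_le_norm _).trans ?_)⟩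
          have h2 := norm_add_le (1 + 1 / 2 : ℂ) w
          have h3 := norm_add_le (1 - (1 / 2 + w)) w
          rw [show 1 - (1 / 2 + w) + w = 1 / 2 by ring, show ‖(1 / 2 : ℂ)‖ = 1 / 2 by simp] at h3
          rw [show ‖(1 + 1 / 2 : ℂ)‖ = 3 / 2 by norm_num] at h2
          rw [norm_div, div_le_iff₀ (by linarith), ← add_assoc]
          linarith
        obtain ⟨c, hc⟩ := minimal_disc F hF fun z hz => by
          by_cases h : z = 1 / 2
          · have h1 : Tendsto (fun y => (F y).re) (𝓝[≠] z) (𝓝 (F z).re) :=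
              tendsto_nhdsWithin_of_tendsto_nhds (continuous_re.continuousAt.comp
                (hF.differentiableAt (isOpen_ball.mem_nhds hz)).continuousAt)
            have h2 : Tendsto (fun y : ℂ => ((1 + y) / (1 - y)).re) (𝓝[≠] z) (𝓝 ((1 + z) / (1 - z)).re) :=
              tendsto_nhdsWithin_of_tendsto_nhds (continuous_re.continuousAt.comp
                (pk z (mem_ball_zero_iff.mp hz)).1.continuousAt)
            have h3 : ∀ᶠ y in 𝓝[≠] z, 0 ≤ (F y).re ∧ (F y).re ≤ ((1 + y) / (1 - y)).re := by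
              filter_upwards [self_mem_nhdsWithin, mem_nhdsWithin_of_mem_nhds (isOpen_ball.mem_nhds hz)]
                with y a b
              have hy : y ∈ ball (0 : ℂ) 1 \ {1 / 2} := ⟨b, h ▸ a⟩
              rw [hF2 y hy]
              exact ⟨(hu2 y hy).1.le, (hu2 y hy).2⟩
            exact ⟨ge_of_tendsto h1 (h3.mono fun y hy => hy.1),
              le_of_tendsto_of_tendsto h1 h2 (h3.mono fun y hy => hy.2)⟩
          · rw [hF2 z ⟨hz, h⟩]
            exact ⟨(hu2 z ⟨hz, h⟩).1.le, (hu2 z ⟨hz, h⟩).2⟩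
        exact ⟨c, fun z hz => by rw [← hF2 z hz, hc z hz.1]⟩⟩
  obtain ⟨m, γ, h1, -, -, h2⟩ := H1
  clear H
  have h3 : ∀ s ∈ Set.Ioi m, HasDerivAt (fun s : ℝ => (Real.exp s : ℂ) * γ s) 0 s := by
    intro s hs
    obtain ⟨-, a, -, -, b⟩ := h1 s hs
    rw [grad _ a] at b
    refine ((Real.hasDerivAt_exp s).ofReal_comp.fun_mul b).congr_deriv ?_
    ring
  obtain ⟨ω, hω⟩ := isOpen_Ioi.exists_is_const_of_deriv_eq_zero isPreconnected_Ioi
    (fun s hs => (h3 s hs).differentiableAt.differentiableWithinAt) fun s hs => (h3 s hs).deriv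
  set s := max m 3 + 1 with hs
  have hms : m < s := by linarith [le_max_left m 3]
  set t := Real.exp (-s) with ht
  have ht0 : 0 < t := Real.exp_pos _
  have ht1 : t ≤ 1 / 16 := by
    have h4 : t ≤ Real.exp (-4) := Real.exp_le_exp.mpr (by linarith [le_max_right m 3])
    have h5 := Real.add_one_le_exp 1
    have h6 : Real.exp (-4) * Real.exp 1 ^ 4 = 1 := by
      rw [← Real.exp_nat_mul, ← Real.exp_add]; norm_num
    have h7 : (2 : ℝ) ^ 4 ≤ Real.exp 1 ^ 4 := pow_le_pow_left₀ (by norm_num) (by linarith) 4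
    nlinarith [Real.exp_pos (-4)]
  have h4 : γ s = t * ω := by
    rw [← hω s hms, ← mul_assoc, ← ofReal_mul, ht, ← Real.exp_add]; simp
  have h5 : ‖ω‖ = 1 := by
    obtain ⟨-, a, -, b, -⟩ := h1 s hms
    have h6 : ‖γ s‖ = t := by
      rw [ht, ← neg_eq_iff_eq_neg.mp b, Real.exp_log (norm_pos_iff.mpr a)]
    rw [h4, norm_mul, norm_real, Real.norm_of_nonneg ht0.le] at h6
    exact mul_left_cancel₀ ht0.ne' (by rw [h6, mul_one])
  have h6 : ((1 + (t : ℂ)) / (1 - t)).re = (1 + t) / (1 - t) := by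
    rw [← ofReal_re ((1 + t) / (1 - t))]; push_cast; rfl
  have h7 := h2 s hms
  rw [h4] at h7
  by_cases hω1 : ω = 1
  · have hl := Real.log_pos (show (1 : ℝ) < 2 by norm_num)
    have hn : ∀ z : ℂ, ‖z‖ < 1 → ‖z - 1 / 2‖ < ‖1 - z / 2‖ := by
      intro z hz
      have h8 : normSq z < 1 := by rw [← Complex.sq_norm]; nlinarith [norm_nonneg z]
      rw [← sq_lt_sq₀ (norm_nonneg _) (norm_nonneg _), Complex.sq_norm, Complex.sq_norm]
      simp [normSq_apply] at h8 ⊢
      nlinarith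
    have h8 := h7 (fun z => (Real.log 2)⁻¹ * Real.log ‖(1 - z / 2) / (z - 1 / 2)‖) (fun z hz =>
      (AnalyticAt.harmonicAt_log_norm (f := fun z => (1 - z / 2) / (z - 1 / 2))
        (AnalyticAt.div (by fun_prop) (by fun_prop) (sub_ne_zero.mpr hz.2))
        (div_ne_zero (norm_pos_iff.mp ((norm_nonneg _).trans_lt (hn z (mem_ball_zero_iff.mp hz.1))))
          (sub_ne_zero.mpr hz.2))).const_smul (c := (Real.log 2)⁻¹))
      (fun z hz => mul_pos (inv_pos.mpr hl) (Real.log_pos (by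
        rw [norm_div, one_lt_div (norm_pos_iff.mpr (sub_ne_zero.mpr hz.2))]
        exact hn z (mem_ball_zero_iff.mp hz.1))))
      (by norm_num)
    simp only [hω1, mul_one, h6] at h8
    have h9 : ‖(1 - (t : ℂ) / 2) / (t - 1 / 2)‖ = 2 * ((1 - 2 * t) / (1 - t / 2))⁻¹ := by
      rw [show (1 - (t : ℂ) / 2) / (t - 1 / 2) = (((1 - t / 2) / (t - 1 / 2) : ℝ) : ℂ) by push_cast; rfl,
        norm_real, Real.norm_of_nonpos (div_nonpos_of_nonneg_of_nonpos (by linarith) (by linarith))]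
      have a1 : -(t - 1 / 2) ≠ 0 := by linarith
      have a2 : 1 - 2 * t ≠ 0 := by linarith
      rw [inv_div, ← div_neg, ← mul_div_assoc, div_eq_div_iff a1 a2]
      ring
    have h10 : 0 < (1 - 2 * t) / (1 - t / 2) := div_pos (by linarith) (by linarith)
    have h11 := Real.log_le_sub_one_of_pos h10
    rw [h9, Real.log_mul two_ne_zero (inv_pos.mpr h10).ne', Real.log_inv, inv_mul_le_iff₀ hl] at h8
    have h12 : (1 - 2 * t) / (1 - t / 2) ≤ 1 - 3 / 2 * t := by
      rw [div_le_iff₀ (by linarith)]; nlinarith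
    have h13 : (1 + t) / (1 - t) ≤ 1 + 32 / 15 * t := by
      rw [div_le_iff₀ (by linarith)]; nlinarith
    have h14 := mul_le_mul_of_nonneg_left h13 hl.le
    nlinarith [Real.log_two_lt_d9]
  · have hc : ∀ z : ℂ, ‖(starRingEnd ℂ) ω * z‖ = ‖z‖ := fun z => by rw [norm_mul, norm_conj, h5, one_mul]
    have h8 := h7 (fun z => ((1 + (starRingEnd ℂ) ω * z) / (1 - (starRingEnd ℂ) ω * z)).re) (fun z hz =>
      AnalyticAt.harmonicAt_re (AnalyticAt.comp (g := fun z : ℂ => (1 + z) / (1 - z))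
        (f := fun z => (starRingEnd ℂ) ω * z)
        (pk _ (by rw [hc]; exact mem_ball_zero_iff.mp hz.1)).1 (by fun_prop)))
      (fun z hz => (pk _ (by rw [hc]; exact mem_ball_zero_iff.mp hz.1)).2.1) (by simp)
    have h9 : (starRingEnd ℂ) ω * (t * ω) = t := by
      rw [mul_left_comm, conj_mul', h5]; simp
    simp only [h9, h6] at h8
    have h10 : ‖(t : ℂ) * ω‖ = t := by rw [norm_mul, h5, norm_real, Real.norm_of_nonneg ht0.le, mul_one]
    obtain ⟨-, h11, h12⟩ := pk (t * ω) (by rw [h10]; linarith)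
    rw [h10] at h12
    have h13 : normSq ω = 1 := by rw [← Complex.sq_norm, h5]; norm_num
    have h14 : ω.re < 1 := by
      refine lt_of_le_of_ne (h5 ▸ re_le_norm ω) fun h => hω1 (Complex.ext h ?_)
      rw [normSq_apply, h] at h13
      simpa using h13
    have h15 : (1 - t) ^ 2 < ‖1 - t * ω‖ ^ 2 := by
      rw [Complex.sq_norm]
      simp [normSq_apply] at h13 ⊢
      nlinarith
    rw [div_le_iff₀ (by linarith)] at h8
    nlinarith [mul_lt_mul_of_pos_left h15 h11]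

end Pool.Agent.S06510
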