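import Pool.Statements.S06537
import Pool.Agent.H55.HN4

set_option autoImplicit false
open Pool Pool.MP_e968d9_an

namespace Pool.Agent.S06537

open Pool.Agent.H55.HN in
/-- Every analytic selfmap of the right half-plane that induces a bounded composition operator on the Hardy space H² of the half-plane which is normal (tested on reproducing-kernel combinations) is a linear fractional map. -/
theorem result :
    ∀ φ : ℂ → ℂ,
      DifferentiableOn ℂ φ {z : ℂ | 0 < z.re} →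
      Set.MapsTo φ {z : ℂ | 0 < z.re} {z : ℂ | 0 < z.re} →
      (∃ C : NNReal, ∀ f : ℂ → ℂ, DifferentiableOn ℂ f {z : ℂ | 0 < z.re} →
        (⨆ (x : ℝ) (_ : 0 < x), ∫⁻ y : ℝ,
            (‖f ((x : ℂ) + (y : ℂ) * Complex.I)‖₊ : ENNReal) ^ 2) < ⊤ →
        (⨆ (x : ℝ) (_ : 0 < x), ∫⁻ y : ℝ,
            (‖f (φ ((x : ℂ) + (y : ℂ) * Complex.I))‖₊ : ENNReal) ^ 2)
          ≤ (C : ENNReal) * ⨆ (x : ℝ) (_ : 0 < x), ∫⁻ y : ℝ,
            (‖f ((x : ℂ) + (y : ℂ) * Complex.I)‖₊ : ENNReal) ^ 2) →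
      (∀ (n : ℕ) (c a : Fin n → ℂ), (∀ i, 0 < (a i).re) →
        (⨆ (x : ℝ) (_ : 0 < x), ∫⁻ y : ℝ,
            (‖∑ i, c i / (φ ((x : ℂ) + (y : ℂ) * Complex.I) + (starRingEnd ℂ) (a i))‖₊
              : ENNReal) ^ 2)
          = ⨆ (x : ℝ) (_ : 0 < x), ∫⁻ y : ℝ,
            (‖∑ i, c i / ((x : ℂ) + (y : ℂ) * Complex.I + (starRingEnd ℂ) (φ (a i)))‖₊
              : ENNReal) ^ 2) →
      ∃ a b c d : ℂ, a * d - b * c ≠ 0 ∧
        ∀ z : ℂ, 0 < z.re → c * z + d ≠ 0 ∧ φ z = (a * z + b) / (c * z + d) := by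
  intro φ hφ hm ⟨C, hC⟩ hN
  have hb : ∀ g, N (fun z => ev g (φ z)) ≤ C * N (ev g) := fun g =>
    hC (ev g) (ev_diff g) (by
      show N (ev g) < ⊤
      rw [N_ev]; exact ENNReal.ofReal_lt_top)
  obtain ⟨A, hA⟩ := exists_op (fun g z => ev g (φ z)) (fun g => (ev_diff g).comp hφ hm)
    (fun g h z _ => ev_add _ _ _) (fun c g z _ => ev_smul _ _ _) C hb
  set B := ContinuousLinearMap.adjoint A with hB
  have hBK : ∀ w ∈ P, B (K w) = K (φ w) := fun w hw => ext_inner_right ℂ fun v => by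
    rw [hB, ContinuousLinearMap.adjoint_inner_left]
    exact hA v w hw
  have hAB : ∀ g, ‖A g‖ = ‖B g‖ := by
    intro g
    refine Dense.induction (P := fun g => ‖A g‖ = ‖B g‖) dense_K (fun g hg => ?_)
      (isClosed_eq A.continuous.norm B.continuous.norm) g
    obtain ⟨n, c, a, ha, rfl⟩ := span_rep hg
    have h1 : N (fun z => ∑ i, c i / (φ z + (starRingEnd ℂ) (a i))) =
        N (fun z => ∑ i, c i / (z + (starRingEnd ℂ) (φ (a i)))) := hN n c a ha
    have h2 : N (ev (A (∑ i, c i • K (a i)))) =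
        N (fun z => ∑ i, c i / (φ z + (starRingEnd ℂ) (a i))) := N_congr fun z hz => by
      rw [hA _ z hz, ev_sum c a ha (hm hz)]; simp only [div_eq_mul_inv]
    have h3 : N (ev (B (∑ i, c i • K (a i)))) =
        N (fun z => ∑ i, c i / (z + (starRingEnd ℂ) (φ (a i)))) := N_congr fun z hz => by
      have : B (∑ i, c i • K (a i)) = ∑ i, c i • K (φ (a i)) := by
        rw [map_sum]
        exact Finset.sum_congr rfl fun i _ => by rw [map_smul, hBK _ (ha i)]
      rw [this, ev_sum c (fun i => φ (a i)) (fun i => hm (ha i)) hz]; simp only [div_eq_mul_inv]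
    rw [← h2, ← h3, N_ev, N_ev,
      ENNReal.ofReal_eq_ofReal_iff (by positivity) (by positivity)] at h1
    exact (pow_left_inj₀ (norm_nonneg _) (norm_nonneg _) two_ne_zero).1
      (mul_left_cancel₀ (by positivity) h1)
  have hnc : ∃ u ∈ P, φ 1 - φ u ≠ 0 := by
    by_contra hc
    push Not at hc
    have h1 : N (ev (A (K 1))) = N (fun _ => (φ 1 + (starRingEnd ℂ) 1)⁻¹) :=
      N_congr fun z hz => by
        rw [hA _ z hz, ev_K (hm hz) one_P, ← sub_eq_zero.1 (hc z hz)]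
    have h2 : (φ 1 + (starRingEnd ℂ) 1)⁻¹ ≠ 0 := inv_ne_zero (add_conj_ne (hm one_P) one_P)
    have h3 : N (fun _ => (φ 1 + (starRingEnd ℂ) 1)⁻¹) = ⊤ := by
      refine top_le_iff.1 (le_iSup₂_of_le (1 : ℝ) one_pos (le_of_eq ?_))
      rw [MeasureTheory.lintegral_const, Real.volume_univ, ENNReal.mul_top]
      exact pow_ne_zero _ (by simpa using h2)
    rw [h3, N_ev] at h1
    exact ENNReal.ofReal_ne_top h1
  have hAi : ∀ g, A g = 0 → g = 0 := fun g hg =>
    ev_inj0 g (id_comp hφ hm hnc (ev_diff g) fun z hz => by rw [← hA g z hz, hg, ev_zero])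
  have dr : ∀ T : H →L[ℂ] H, (∀ g, ContinuousLinearMap.adjoint T g = 0 → g = 0) →
      DenseRange (T : H →ₗ[ℂ] H) := by
    intro T hT
    have : Dense (LinearMap.range (T : H →ₗ[ℂ] H) : Set H) := by
      rw [Submodule.dense_iff_topologicalClosure_eq_top, Submodule.topologicalClosure_eq_top_iff,
        Submodule.eq_bot_iff]
      intro g hg
      refine hT g (ext_inner_left ℂ fun v => ?_)
      rw [ContinuousLinearMap.adjoint_inner_right, inner_zero_right]
      exact Submodule.inner_right_of_mem_orthogonal (LinearMap.mem_range_self _ v) hg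
    exact this
  have dA := dr A fun g hg => hAi g (norm_eq_zero.1 (by rw [hAB, hg, norm_zero]))
  have dB := dr B fun g hg => hAi g (by rwa [hB, ContinuousLinearMap.adjoint_adjoint] at hg)
  set W := (LinearEquiv.refl ℂ H).extendOfIsometry (B : H →ₗ[ℂ] H) (A : H →ₗ[ℂ] H) dB dA hAB
  have hW : ∀ g, W (B g) = A g := fun g => LinearEquiv.extendOfIsometry_eq _ _ _ dB dA hAB g
  have hsw : ∀ z u, ev (W.symm (K z)) u = (starRingEnd ℂ) (ev (W (K u)) z) := by
    intro z u
    rw [ev, ev, inner_conj_symm, ← W.inner_map_map, LinearIsometryEquiv.apply_symm_apply]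
  have hκ : ∀ z ∈ P, ∀ w ∈ P,
      ev (W.symm (K z)) (φ w) = ((starRingEnd ℂ) (φ z) + w)⁻¹ := by
    intro z hz w hw
    rw [hsw, ← hBK w hw, hW, hA _ z hz, ev_K (hm hz) hw]; simp
  have hid : ∀ z ∈ P, ∀ u ∈ P, ev (W.symm (K 1)) u - ev (W.symm (K z)) u -
      ((starRingEnd ℂ) (φ z) - (starRingEnd ℂ) (φ 1)) *
        (ev (W.symm (K z)) u * ev (W.symm (K 1)) u) = 0 := by
    intro z hz
    refine id_comp hφ hm hnc (((ev_diff _).sub (ev_diff _)).sub
      (((ev_diff _).mul (ev_diff _)).const_mul _)) fun w hw => ?_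
    rw [hκ z hz w hw, hκ 1 one_P w hw]
    have n1 := add_conj_ne hw (hm hz)
    have n2 := add_conj_ne hw (hm one_P)
    rw [add_comm] at n1 n2
    field_simp
    ring
  have hne : ∀ u ∈ P, ev (W.symm (K 1)) u ≠ 0 := by
    intro u hu h
    have h1 : W (K u) = 0 := ev_inj0 _ fun z hz => by
      have := hid z hz u hu
      rw [h, hsw] at this
      simpa using this
    have h2 : K u = 0 := by simpa using h1
    have h3 := ev_K hu hu
    rw [h2, ev_zero] at h3
    exact inv_ne_zero (add_conj_ne hu hu) h3.symm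
  set ψ : ℂ → ℂ := fun u => (ev (W.symm (K 1)) u)⁻¹ - (starRingEnd ℂ) (φ 1) with hψ
  have hψd : DifferentiableOn ℂ ψ P := ((ev_diff _).inv hne).sub_const _
  have hψφ : ∀ w ∈ P, ψ (φ w) = w := fun w hw => by
    simp only [hψ]; rw [hκ 1 one_P w hw, inv_inv]; ring
  have k1 : ∀ u ∈ P, ∀ z ∈ P, ev (W.symm (K z)) u * (ψ u + (starRingEnd ℂ) (φ z)) = 1 := by
    intro u hu z hz
    have h1 := hid z hz u hu
    have h2 := hne u hu
    simp only [hψ]
    field_simp
    linear_combination -h1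
  have k2 : ∀ z ∈ P, ∀ u ∈ P, ev (W (K u)) z * (φ z + (starRingEnd ℂ) (ψ u)) = 1 := by
    intro z hz u hu
    have := congrArg (starRingEnd ℂ) (k1 u hu z hz)
    rw [hsw] at this
    simpa [add_comm] using this
  have hnc2 : ∃ u ∈ P, ψ 1 - ψ u ≠ 0 := by
    by_contra hc
    push Not at hc
    have e1 := hc _ (hm one_P)
    have e2 := hc _ (hm two_P)
    rw [hψφ 1 one_P] at e1
    rw [hψφ 2 two_P] at e2
    exact one_ne_zero (α := ℂ) (by linear_combination e1 - e2)
  obtain ⟨a0, a1, a2, b0, b1, b2, ⟨u0, _, hu0⟩, hab⟩ := core W φ ψ hφ hψd k2 hnc2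
  obtain ⟨p0, p1, p2, q0, q1, q2, hp, hpq⟩ := core W.symm ψ φ hψd hφ k1 hnc
  refine alg hφ hm hnc (Polynomial.C p0 + Polynomial.C p1 * Polynomial.X +
    Polynomial.C p2 * Polynomial.X ^ 2) (Polynomial.C q0 + Polynomial.C q1 * Polynomial.X +
    Polynomial.C q2 * Polynomial.X ^ 2) (by simpa using hp) (by simpa using hpq)
    a0 a1 a2 b0 b1 b2 ?_ fun z hz => ?_
  · by_contra hc
    push Not at hc
    simp [hc.1, hc.2.1, hc.2.2] at hu0
  · have := hab _ (hm hz)
    rwa [hψφ z hz] at this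

end Pool.Agent.S06537
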