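import Pool.Statements.S06546
import Pool.Agent.H88.RTV

set_option autoImplicit false
open Pool Pool.MP_e9d911_an

namespace Pool.Agent.S06546

theorem result :
    ¬ (∀ (d : ℝ) (k n : ℕ), 0 < d → d < 1 → 0 < n →
    (∑ j ∈ Finset.range (k+1), (n.choose j : ℝ)) / 2 ^ n ≤ d →
    d < (∑ j ∈ Finset.range (k+1), ((n-1).choose j : ℝ)) / 2 ^ (n-1) →
    IsGLB {x : ℝ | ∃ a : ℕ → ℂ, Summable (fun j => ‖a j‖) ∧ a ≠ 0 ∧
        d * (∑' j, ‖a j‖) ≤ ∑ j ∈ Finset.range (k+1), ‖a j‖ ∧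
        x = (1 / (2 * Real.pi)) *
              (∫ θ in (0:ℝ)..(2 * Real.pi),
                Real.log ‖∑' j, a j * Complex.exp ((θ : ℂ) * Complex.I) ^ j‖)
            - Real.log (∑' j, ‖a j‖)}
      (Real.log
        ((((n-1).choose k : ℝ) /
            ((∑ j ∈ Finset.range (k+1), ((n-1).choose j : ℝ)) - d * 2 ^ (n-1)) - 1) /
          (((((n-1).choose k : ℝ) /
            ((∑ j ∈ Finset.range (k+1), ((n-1).choose j : ℝ)) - d * 2 ^ (n-1)) - 1) + 1)
            * 2 ^ (n-1))))) := by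
  intro H
  have h := (H (1 / 154) 1 11 (by norm_num) (by norm_num) (by norm_num)
    (by simp [Finset.sum_range_succ]; norm_num) (by simp [Finset.sum_range_succ]; norm_num)).1
    ⟨H88.RTV.co, H88.RTV.summ, H88.RTV.co_ne, H88.RTV.conc, rfl⟩
  rw [H88.RTV.integ, H88.RTV.tsum_norm, zero_sub, ← Real.log_inv] at h
  simp only [Finset.sum_range_succ, Finset.sum_range_zero, Nat.choose_zero_right,
    Nat.choose_one_right] at h
  rw [Real.log_le_log_iff (by norm_num) (by norm_num)] at h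
  norm_num at h

end Pool.Agent.S06546
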