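import Pool.Statements.S06568
import Mathlib
import Pool.Agent.H93.ExC

set_option autoImplicit false
open Pool Pool.MP_eb85b6_an

namespace Pool.Agent.S06568

/-- The negation of the preceding statement: For every real or complex Banach space X and bounded operator T: if the vectors whose return sets to each neighbourhood have positive upper density are dense, then some dense linear subspace consists entirely of such vectors. -/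
theorem result :
    ¬ (∀ (𝕂 : Type) [RCLike 𝕂] (X : Type) [NormedAddCommGroup X] [NormedSpace 𝕂 X]
      [CompleteSpace X] (T : X →L[𝕂] X),
      Dense {x : X | ∀ U ∈ nhds x, ∃ ε : ℝ, 0 < ε ∧ ∀ N₀ : ℕ, ∃ N : ℕ, N₀ < N ∧
          ε * (N : ℝ) ≤ (({n : ℕ | 1 ≤ n ∧ n ≤ N ∧ (⇑T)^[n] x ∈ U}.ncard : ℕ) : ℝ)} →
      ∃ M : Submodule 𝕂 X, Dense (M : Set X) ∧
        ∀ x ∈ M, ∀ U ∈ nhds x, ∃ ε : ℝ, 0 < ε ∧ ∀ N₀ : ℕ, ∃ N : ℕ, N₀ < N ∧
          ε * (N : ℝ) ≤ (({n : ℕ | 1 ≤ n ∧ n ≤ N ∧ (⇑T)^[n] x ∈ U}.ncard : ℕ) : ℝ)) := by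
  intro h
  obtain ⟨X, _, _, _, T, h1, h2, -⟩ := Pool.Agent.H93.ExC.exC
  obtain ⟨M, hM, hs⟩ := h ℝ X T (h1.mono (fun x hx U hU => by
    obtain ⟨δ, hδ, N₀, hN⟩ := hx U hU
    exact ⟨δ, hδ, fun N₁ => ⟨N₀ + N₁ + 1, by omega, hN _ (by omega)⟩⟩))
  obtain ⟨x, hx, U, hU, hz⟩ := h2 M hM
  obtain ⟨δ, hδ, hN⟩ := hs x hx U hU
  obtain ⟨N₁, hN₁⟩ := hz δ hδ
  obtain ⟨N, hN2, h3⟩ := hN N₁
  exact absurd (hN₁ N hN2) (not_lt.2 h3)

end Pool.Agent.S06568
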