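import Pool.Statements.S06578
import Pool.Agent.H87.IrsD2

set_option autoImplicit false
open Pool Pool.MP_ec292c_an

namespace Pool.Agent.S06578

theorem result :
    ¬ (∀ (X : Type) [NormedAddCommGroup X] [NormedSpace ℝ X] [CompleteSpace X]
      [TopologicalSpace.SeparableSpace X],
      ∃ K : Set X, IsCompact K ∧
        ∀ (Z : Type) [NormedAddCommGroup Z] [NormedSpace ℝ Z] [CompleteSpace Z],
          (∃ f : K → Z, Isometry f) → Nonempty (X →ₗᵢ[ℝ] Z)) := by
  exact H87.Irs.main

end Pool.Agent.S06578
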