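import Pool.Statements.S06580

set_option autoImplicit false
open Filter Topology MeasureTheory
open Pool Pool.MP_ec63c8_an

namespace Pool.Agent.S06580

open unitInterval in
/-- The multiplier `exp (t (-u + i v))` on the unit square. -/
noncomputable def E (t : ℝ) : C(I × I, ℂ) :=
  ⟨fun p => Complex.exp ((t : ℂ) * (-((p.1 : ℝ) : ℂ) + ((p.2 : ℝ) : ℂ) * Complex.I)), by fun_prop⟩

open unitInterval in
/-- The vector `sqrt u`. -/
noncomputable def x0 : C(I × I, ℂ) := ⟨fun p => ((√(p.1 : ℝ) : ℝ) : ℂ), by fun_prop⟩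

lemma normE (t : ℝ) (p : unitInterval × unitInterval) : ‖E t p‖ = Real.exp (-(t * p.1)) := by
  simp [E, Complex.norm_exp]

lemma normE_le {t : ℝ} (ht : 0 ≤ t) : ‖E t‖ ≤ 1 := by
  refine (ContinuousMap.norm_le _ zero_le_one).2 fun p => ?_
  rw [normE, Real.exp_le_one_iff]
  have := mul_nonneg ht p.1.2.1
  linarith

lemma contE : Continuous E := by
  refine ContinuousMap.continuous_of_continuous_uncurry E ?_
  change Continuous fun q : ℝ × (unitInterval × unitInterval) =>
    Complex.exp ((q.1 : ℂ) * (-((q.2.1 : ℝ) : ℂ) + ((q.2.2 : ℝ) : ℂ) * Complex.I))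
  fun_prop

lemma stable : Tendsto (fun t : ℝ => E t * x0) atTop (𝓝 0) := by
  rw [tendsto_zero_iff_norm_tendsto_zero]
  have h1 : Tendsto (fun t : ℝ => √(t⁻¹)) atTop (𝓝 0) := by
    have := (Real.continuous_sqrt.tendsto 0).comp tendsto_inv_atTop_zero
    rw [Real.sqrt_zero] at this
    exact this
  refine squeeze_zero' (Eventually.of_forall fun _ => norm_nonneg _) ?_ h1
  filter_upwards [eventually_gt_atTop (0 : ℝ)] with t ht
  refine (ContinuousMap.norm_le _ (Real.sqrt_nonneg _)).2 fun p => ?_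
  have hu : (0 : ℝ) ≤ p.1 := p.1.2.1
  rw [ContinuousMap.mul_apply, norm_mul, normE]
  have e : ‖x0 p‖ = √(p.1 : ℝ) := by simp [x0, abs_of_nonneg (Real.sqrt_nonneg _)]
  rw [e]
  apply Real.le_sqrt_of_sq_le
  rw [mul_pow, Real.sq_sqrt hu, ← one_div, le_div_iff₀ ht]
  have h2 := Real.add_one_le_exp (t * p.1)
  have h3 : Real.exp (-(t * p.1)) * Real.exp (t * p.1) = 1 := by
    rw [← Real.exp_add]; simp
  have h4 := Real.exp_pos (-(t * p.1))
  have h5 : Real.exp (-(t * p.1)) ≤ 1 := by
    rw [Real.exp_le_one_iff]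
    have := mul_nonneg ht.le hu
    linarith
  have h6 : Real.exp (-(t * p.1)) * (t * p.1) ≤ 1 := by nlinarith
  have h7 : 0 ≤ Real.exp (-(t * p.1)) * (t * p.1) := by positivity
  nlinarith

lemma lower {a s : ℝ} (ha : 0 < a) (ha1 : a ≤ 1) (hs : s ∈ Set.Icc (0 : ℝ) 1) :
    √a / (2 * a) ≤ ‖∫ t in Set.Ioi (0 : ℝ),
      Complex.exp (-(((a : ℂ) + (s : ℂ) * Complex.I) * (t : ℂ))) • (E t * x0)‖ := by
  let p : unitInterval × unitInterval := (⟨a, ha.le, ha1⟩, ⟨s, hs⟩)
  have hint : IntegrableOn (fun t : ℝ =>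
      Complex.exp (-(((a : ℂ) + (s : ℂ) * Complex.I) * (t : ℂ))) • (E t * x0)) (Set.Ioi 0) := by
    have h1 := (integrableOn_exp_mul_Ioi (a := -a) (by linarith) 0).mul_const ‖x0‖
    refine Integrable.mono' h1 ?_ ?_
    · have := contE
      exact Continuous.aestronglyMeasurable (by fun_prop)
    · refine (ae_restrict_iff' measurableSet_Ioi).2 (Eventually.of_forall fun t ht => ?_)
      rw [norm_smul, Complex.norm_exp]
      have e : (-(((a : ℂ) + (s : ℂ) * Complex.I) * (t : ℂ))).re = -a * t := by simp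
      rw [e]
      refine mul_le_mul_of_nonneg_left ?_ (Real.exp_pos _).le
      calc ‖E t * x0‖ ≤ ‖E t‖ * ‖x0‖ := norm_mul_le _ _
        _ ≤ 1 * ‖x0‖ := mul_le_mul_of_nonneg_right (normE_le (le_of_lt ht)) (norm_nonneg _)
        _ = ‖x0‖ := one_mul _
  refine le_trans ?_ (ContinuousMap.norm_coe_le_norm _ p)
  rw [ContinuousMap.integral_apply hint]
  have e : ∀ t : ℝ, (Complex.exp (-(((a : ℂ) + (s : ℂ) * Complex.I) * (t : ℂ))) • (E t * x0)) p
      = Complex.exp ((-(2 * a) : ℂ) * t) * ((√a : ℝ) : ℂ) := by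
    intro t
    simp only [ContinuousMap.smul_apply, ContinuousMap.mul_apply, E, x0, p, ContinuousMap.coe_mk,
      smul_eq_mul]
    rw [← mul_assoc, ← Complex.exp_add]
    congr 2
    ring
  simp_rw [e]
  rw [integral_mul_const, integral_exp_mul_complex_Ioi (by simp; linarith)]
  simp [abs_of_pos ha, abs_of_nonneg (Real.sqrt_nonneg a)]
  apply le_of_eq
  field_simp


/-- The negation of the preceding statement: For every bounded strongly continuous semigroup T on a complex Banach space and every x, T(t)x tends to 0 iff a times the integral over s of the squared norm of the Laplace-transform resolvent at a+is applied to x tends to 0 as a tends to 0 from above. -/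
theorem result :
    ¬ (∀ (X : Type) [NormedAddCommGroup X] [NormedSpace ℂ X] [CompleteSpace X]
      (T : ℝ → (X →L[ℂ] X)),
      T 0 = 1 →
      (∀ s t : ℝ, 0 ≤ s → 0 ≤ t → T (s + t) = T s * T t) →
      (∀ x : X, ContinuousOn (fun t : ℝ => T t x) (Set.Ici (0 : ℝ))) →
      (∃ M : ℝ, ∀ t : ℝ, 0 ≤ t → ‖T t‖ ≤ M) →
      ∀ x : X,
        (Tendsto (fun t : ℝ => T t x) atTop (𝓝 0) ↔
          Tendsto
            (fun a : ℝ => ENNReal.ofReal a *
              ∫⁻ s : ℝ,
                ((‖∫ t in Set.Ioi (0 : ℝ),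
                    Complex.exp (-(((a : ℂ) + (s : ℂ) * Complex.I) * (t : ℂ))) • T t x‖₊ : ENNReal)) ^ 2)
            (𝓝[>] (0 : ℝ)) (𝓝 0))) := by
  intro h
  have key := (h C(unitInterval × unitInterval, ℂ)
    (fun t => ContinuousLinearMap.mul ℂ C(unitInterval × unitInterval, ℂ) (E t)) ?_ ?_ ?_ ?_ x0).1
    stable
  · have h4 : (1 / 4 : ENNReal) ≤ 0 := by
      refine ge_of_tendsto key ?_
      filter_upwards [Ioc_mem_nhdsGT (show (0 : ℝ) < 1 by norm_num)] with a ha
      have h1 : ENNReal.ofReal (1 / (4 * a)) ≤ ∫⁻ s : ℝ,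
          ((‖∫ t in Set.Ioi (0 : ℝ), Complex.exp (-(((a : ℂ) + (s : ℂ) * Complex.I) * (t : ℂ))) •
            (ContinuousLinearMap.mul ℂ C(unitInterval × unitInterval, ℂ) (E t)) x0‖₊ : ENNReal))
              ^ 2 := by
        refine le_trans ?_ (setLIntegral_le_lintegral (Set.Icc (0 : ℝ) 1) _)
        refine le_trans ?_ (setLIntegral_mono' (f := fun _ => ENNReal.ofReal (1 / (4 * a)))
          measurableSet_Icc fun s hs => ?_)
        · simp
        · have h2 := lower ha.1 ha.2 hs
          rw [← enorm_eq_nnnorm, ← ofReal_norm, ← ENNReal.ofReal_pow (norm_nonneg _)]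
          apply ENNReal.ofReal_le_ofReal
          have h3 : (√a / (2 * a)) ^ 2 = 1 / (4 * a) := by
            have := ha.1
            rw [div_pow, Real.sq_sqrt ha.1.le]
            field_simp
            norm_num
          rw [← h3]
          have := ha.1
          exact pow_le_pow_left₀ (by positivity) h2 2
      refine le_trans ?_ (mul_le_mul_right h1 _)
      rw [← ENNReal.ofReal_mul ha.1.le]
      have e : a * (1 / (4 * a)) = 1 / 4 := by
        have := ha.1
        field_simp
      rw [e, ENNReal.ofReal_div_of_pos (by norm_num)]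
      simp
    simp at h4
  · ext f p
    simp [E]
  · intro s t _ _
    ext f p
    simp only [E, ContinuousLinearMap.mul_apply', ContinuousMap.mul_apply, ContinuousMap.coe_mk,
      mul_apply_eq_comp]
    rw [← mul_assoc, ← Complex.exp_add]
    congr 2
    push_cast
    ring
  · intro x
    have := contE
    exact Continuous.continuousOn (by
      simp only [ContinuousLinearMap.mul_apply']
      fun_prop)
  · exact ⟨1, fun t ht => (ContinuousLinearMap.opNorm_mul_apply_le _ _ _).trans (normE_le ht)⟩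

end Pool.Agent.S06580
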