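import Pool.Statements.S06585
import Pool.Agent.H88.Herm5

set_option autoImplicit false
open Pool Pool.MP_ecafe5_an

namespace Pool.Agent.S06585

theorem result :
    ∀ (T : Polynomial ℝ →ₗ[ℝ] Polynomial ℝ) (γ : ℕ → ℝ) (Q : ℕ → Polynomial ℝ),
      (∀ n : ℕ,
        T (((Polynomial.hermite n).map (Int.castRingHom ℝ)).comp
            (Polynomial.C (Real.sqrt 2) * Polynomial.X)) =
          γ n • (((Polynomial.hermite n).map (Int.castRingHom ℝ)).comp
            (Polynomial.C (Real.sqrt 2) * Polynomial.X))) →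
      (∀ p : Polynomial ℝ,
        (p = 0 ∨ ∀ z : ℂ, Polynomial.aeval z p = 0 → z.im = 0) →
        ((∑ n ∈ Finset.range (p.natDegree + 1),
            Polynomial.C (γ n * p.coeff n) * Polynomial.X ^ n) = 0 ∨
          ∀ z : ℂ, Polynomial.aeval z
            (∑ n ∈ Finset.range (p.natDegree + 1),
              Polynomial.C (γ n * p.coeff n) * Polynomial.X ^ n) = 0 → z.im = 0)) →
      (∀ p : Polynomial ℝ,
        T p = ∑ k ∈ Finset.range (p.natDegree + 1),
          Q k * (⇑Polynomial.derivative)^[k] p) →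
      (∀ k : ℕ, Q k = 0 ∨ ∀ z : ℂ, Polynomial.aeval z (Q k) = 0 → z.im = 0) →
      ∀ p : Polynomial ℝ,
        (p = 0 ∨ ∀ z : ℂ, Polynomial.aeval z p = 0 → z.im = 0) →
        (T p = 0 ∨ ∀ z : ℂ, Polynomial.aeval z (T p) = 0 → z.im = 0) := by
  intro T γ Q hT hγ hQ hQ' p hp
  refine H88.Herm.main (α := 1 / 2) (γ := γ) (by norm_num) (fun n => ?_) (fun q hq => ?_) hQ hQ' hp
  · have h := hT n
    rw [H88.Herm.herm_eq, map_smul, smul_comm] at h
    exact smul_right_injective _ (show (Real.sqrt 2) ^ n ≠ 0 by positivity) h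
  · have e : H88.MSeq.diag γ q = ∑ n ∈ Finset.range (q.natDegree + 1),
        Polynomial.C (γ n * q.coeff n) * Polynomial.X ^ n := by
      rw [H88.MSeq.diag, Polynomial.sum_over_range _ (by simp)]
      simp only [Polynomial.C_mul_X_pow_eq_monomial]
    rw [e]
    exact hγ q hq

end Pool.Agent.S06585
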