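import Pool.Statements.S06623
import Pool.Agent.H96.MR3

set_option autoImplicit false
open Pool Pool.MP_ef2f7d_an

namespace Pool.Agent.S06623


/-- There is a nonempty compact metric space with two minimal homeomorphisms T, S (all forward orbits dense) such that for no point x does (T^n x, S^n x) come arbitrarily close to (x,x) for some n ≥ 1. -/
theorem result :
    ∃ (X : Type) (_ : MetricSpace X) (_ : CompactSpace X) (_ : Nonempty X) (T S : X ≃ₜ X),
      (∀ x : X, Dense (Set.range (fun n : ℕ => (⇑T)^[n] x))) ∧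
      (∀ x : X, Dense (Set.range (fun n : ℕ => (⇑S)^[n] x))) ∧
      ∀ x : X, ¬ (∀ ε : ℝ, 0 < ε →
        ∃ n : ℕ, 0 < n ∧ dist ((⇑T)^[n] x) x < ε ∧ dist ((⇑S)^[n] x) x < ε) := by
  refine ⟨H96.MR.XX, TopologicalSpace.metrizableSpaceMetric _, inferInstance, inferInstance,
    H96.MR.TT, H96.MR.SS, H96.MR.TT_min, H96.MR.SS_min, fun x h => ?_⟩
  let _ := TopologicalSpace.metrizableSpaceMetric H96.MR.XX
  obtain ⟨U, hU, hn⟩ := H96.MR.non_rec x
  obtain ⟨ε, hε, hb⟩ := Metric.mem_nhds_iff.1 hU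
  obtain ⟨n, h0, h1, h2⟩ := h ε hε
  exact hn n h0 ⟨hb h1, hb h2⟩

end Pool.Agent.S06623
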