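import Pool.Statements.S06628
import Pool.Agent.H88.Satur2

set_option autoImplicit false
open Pool Pool.MP_efa496_an

namespace Pool.Agent.S06628

theorem result :
    ¬ (∀ (G : Set ℂ), IsOpen G → IsConnected G →
 ∀ (q : ℕ), 1 ≤ q →
 ∀ (P : Submodule ℂ (ℂ → Fin q → ℂ)),
 (∀ f ∈ P, DifferentiableOn ℂ f G ∧ ∀ w ∉ G, f w = 0) →
 (∀ (p : Polynomial ℂ), ∀ f ∈ P, (fun w => p.eval w • f w) ∈ P) →
 ∀ (τ : TopologicalSpace ↥P),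
 @T2Space ↥P τ → @IsTopologicalAddGroup ↥P τ _ → @ContinuousSMul ℂ ↥P _ _ τ →
 (∀ V ∈ @nhds ↥P τ 0, ∃ U ∈ @nhds ↥P τ 0, U ⊆ V ∧
   ∀ x ∈ U, ∀ y ∈ U, ∀ t : ℝ, 0 ≤ t → t ≤ 1 → (t : ℂ) • x + ((1 - t : ℝ) : ℂ) • y ∈ U) →
 (∀ (p : Polynomial ℂ) (g : ↥P → ↥P),
   (∀ x : ↥P, ((g x : ↥P) : ℂ → Fin q → ℂ) = fun w => p.eval w • (x : ℂ → Fin q → ℂ) w) →
   @Continuous ↥P ↥P τ τ g) →
 (∀ V ∈ @nhds ↥P τ 0, ∃ U ∈ @nhds ↥P τ 0, ∀ (c : ℂ), ∀ x ∈ U, ∀ g : ℂ → Fin q → ℂ,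
   DifferentiableOn ℂ g G → (∀ w ∉ G, g w = 0) →
   (∀ w ∈ G, (x : ℂ → Fin q → ℂ) w = (w - c) • g w) →
   ∃ y ∈ V, (y : ℂ → Fin q → ℂ) = g) →
 (∀ (n : ℕ) (F : Fin n → ↥P),
   (∀ g : ℂ → Fin q → ℂ, DifferentiableOn ℂ g G → (∀ w ∉ G, g w = 0) →
     (∀ w ∈ G, ∀ i, ‖g w i‖ ≤ ∑ m, ‖(F m : ℂ → Fin q → ℂ) w i‖) → g ∈ P) ∧
   (∀ V ∈ @nhds ↥P τ 0, ∃ r : ℝ, 0 < r ∧ ∀ a : ℂ, r ≤ ‖a‖ → ∀ x : ↥P,
     (∀ w ∈ G, ∀ i, ‖(x : ℂ → Fin q → ℂ) w i‖ ≤ ∑ m, ‖(F m : ℂ → Fin q → ℂ) w i‖) →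
     ∃ y ∈ V, x = a • y)) →
 ∀ (I : Submodule ℂ (ℂ → Fin q → ℂ)), I ≤ P →
 (∀ (p : Polynomial ℂ), ∀ f ∈ I, (fun w => p.eval w • f w) ∈ I) →
 (∀ f ∈ P, (∀ c ∈ G, ∃ (n : ℕ) (u : Fin n → ℂ → Fin q → ℂ) (h : Fin n → ℂ → ℂ),
     (∀ m, u m ∈ I) ∧ (∀ m, AnalyticAt ℂ (h m) c) ∧
     ∀ᶠ w in nhds c, f w = ∑ m, h m w • u m w) → f ∈ I) →
 ∀ (k : ℕ),
 (∃ c ∈ G, ∃ (u : Fin k → ℂ → Fin q → ℂ) (J : Fin k → Fin q), (∀ s, u s ∈ I) ∧ StrictMono J ∧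
   ¬ (∀ᶠ w in nhds c, (Matrix.of fun r s => u s w (J r)).det = 0)) →
 (∀ c ∈ G, ∀ (r : ℕ) (u : Fin r → ℂ → Fin q → ℂ) (J : Fin r → Fin q), (∀ s, u s ∈ I) →
   StrictMono J → ¬ (∀ᶠ w in nhds c, (Matrix.of fun a s => u s w (J a)).det = 0) → r ≤ k) →
 ∀ f ∈ P, ∀ V ∈ @nhds ↥P τ 0, ∀ Φ : ℂ → ℂ, DifferentiableOn ℂ Φ G →
 (∀ z ∈ G, ∀ (u : Fin k → ↥P) (J : Fin k → Fin q), (∀ s, u s ∈ V) →
   (∀ s, (u s : ℂ → Fin q → ℂ) ∈ I) → StrictMono J →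
   (Matrix.of fun r s => (u s : ℂ → Fin q → ℂ) z (J r)).det ≠ 0 →
   ‖Φ z‖ ≤ 1 + ∑ s, ‖((Matrix.of fun r s' => (u s' : ℂ → Fin q → ℂ) z (J r)).updateCol s
       (fun r => f z (J r))).det / (Matrix.of fun r s' => (u s' : ℂ → Fin q → ℂ) z (J r)).det‖) →
 ∃ C : ℝ, ∀ z ∈ G, ‖Φ z‖ ≤ C) := by
  intro h
  have key := h Set.univ isOpen_univ isConnected_univ 8 (by norm_num) H88.Satur2.P
    (fun f hf => ⟨hf.1.differentiableOn, fun w hw => absurd (Set.mem_univ w) hw⟩)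
    H88.Satur2.poly_mem H88.Satur2.FB.topology H88.Satur2.t2
    H88.Satur2.FB.toAddGroupFilterBasis.isTopologicalAddGroup H88.Satur2.FB.continuousSMul
    ?_ H88.Satur2.poly_cont ?_ ?_ H88.Satur2.I0 (fun f hf => hf.1)
    (fun p f hf => ⟨H88.Satur2.poly_mem p f hf.1, fun z j hz => by simp [hf.2 z j hz]⟩)
    ?_ 8 ?_ ?_ H88.Satur2.f0 H88.Satur2.f0_mem (H88.Satur2.B 0 1) (H88.Satur2.B_mem 0 one_pos)
    (fun z => z / 32) (by fun_prop)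
    (fun z _ u J hV hI hJ hdet => H88.Satur2.final z u J hV hI hJ hdet)
  · obtain ⟨C, hC⟩ := key
    have h1 := hC ((32 * (|C| + 1) : ℝ) : ℂ) (Set.mem_univ _)
    rw [norm_div, Complex.norm_real, Real.norm_eq_abs, abs_of_nonneg (by positivity)] at h1
    simp only [Complex.norm_ofNat] at h1
    linarith [le_abs_self C]
  · intro V hV
    obtain ⟨n, r, hr, hB⟩ := H88.Satur2.mem_nhds.1 hV
    refine ⟨H88.Satur2.B n r, H88.Satur2.B_mem n hr, hB, fun x hx y hy t ht0 ht1 => ?_⟩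
    have e1 := H88.Satur2.smul_B (a := (t : ℂ)) (s := t * r) hx
      (by rw [Complex.norm_real, Real.norm_eq_abs, abs_of_nonneg ht0])
    have e2 := H88.Satur2.smul_B (a := ((1 - t : ℝ) : ℂ)) (s := (1 - t) * r) hy
      (by rw [Complex.norm_real, Real.norm_eq_abs, abs_of_nonneg (by linarith)])
    have e3 := H88.Satur2.add_B e1 e2
    rwa [show t * r + (1 - t) * r = r by ring] at e3
  · intro V hV
    obtain ⟨n, r, hr, hB⟩ := H88.Satur2.mem_nhds.1 hV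
    refine ⟨H88.Satur2.B n (r / (Real.exp 8 * 3 ^ n)), H88.Satur2.B_mem n (by positivity),
      fun c x hx g hg _ hxg => ?_⟩
    have hg' : Differentiable ℂ g := differentiableOn_univ.1 hg
    have hxg' : ∀ w, (x : ℂ → Fin 8 → ℂ) w = (w - c) • g w := fun w => hxg w (Set.mem_univ w)
    have hgP : g ∈ H88.Satur2.P := by
      refine ⟨hg', fun m => ?_⟩
      obtain ⟨C, hC, h1⟩ := x.2.2 m
      exact ⟨C * (Real.exp 8 * 3 ^ m), by positivity,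
        H88.Satur2.div_est m C hC c x g hg' hxg' h1⟩
    refine ⟨⟨g, hgP⟩, hB fun z j => ?_, rfl⟩
    have h2 := H88.Satur2.div_est n _ (by positivity) c x g hg' hxg' hx z j
    rwa [div_mul_cancel₀ _ (by positivity)] at h2
  · intro n F
    have hsum : ∀ m, ∃ C, 0 ≤ C ∧ ∀ z j,
        ∑ i, ‖(F i : ℂ → Fin 8 → ℂ) z j‖ ≤ C * H88.Satur2.W m z j := by
      intro m
      choose C hC h1 using fun i => (F i).2.2 m
      refine ⟨∑ i, C i, Finset.sum_nonneg fun i _ => hC i, fun z j => ?_⟩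
      rw [Finset.sum_mul]
      exact Finset.sum_le_sum fun i _ => h1 i z j
    refine ⟨fun g hg _ hb => ⟨differentiableOn_univ.1 hg, fun m => ?_⟩, fun V hV => ?_⟩
    · obtain ⟨C, hC, h1⟩ := hsum m
      exact ⟨C, hC, fun z j => (hb z (Set.mem_univ z) j).trans (h1 z j)⟩
    · obtain ⟨m, r, hr, hB⟩ := H88.Satur2.mem_nhds.1 hV
      obtain ⟨C, hC, h1⟩ := hsum m
      refine ⟨C / r + 1, by positivity, fun a ha x hx => ?_⟩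
      have ha0 : 0 < ‖a‖ := lt_of_lt_of_le (by positivity) ha
      have ha1 : a ≠ 0 := norm_pos_iff.1 ha0
      refine ⟨a⁻¹ • x, hB (H88.Satur2.smul_B (r := C)
        (fun z j => (hx z (Set.mem_univ z) j).trans (h1 z j)) ?_), by rw [smul_inv_smul₀ ha1]⟩
      rw [norm_inv, inv_mul_le_iff₀ ha0]
      have h2 : C / r ≤ ‖a‖ := by linarith
      rwa [div_le_iff₀ hr] at h2
  · intro f hf hloc
    refine ⟨hf, fun z j hz => ?_⟩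
    obtain ⟨n, u, g, hu, -, hev⟩ := hloc z (Set.mem_univ z)
    rw [hev.self_of_nhds, Finset.sum_apply]
    exact Finset.sum_eq_zero fun m _ => by simp [(hu m).2 z j hz]
  · refine ⟨0, Set.mem_univ _, H88.Satur2.u0, id, fun s => ⟨H88.Satur2.u0_mem s, fun z j hz => ?_⟩,
      strictMono_id, fun hev => ?_⟩
    · unfold H88.Satur2.u0
      split_ifs <;> simp [hz]
    · have h1 := hev.self_of_nhds
      have h2 : (Matrix.of fun r s => H88.Satur2.u0 s 0 (id r)) = (1 : Matrix (Fin 8) (Fin 8) ℂ) := by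
        ext r s
        simp [H88.Satur2.u0, Matrix.one_apply]
      rw [h2, Matrix.det_one] at h1
      exact one_ne_zero h1
  · intro c _ r u J _ hJ _
    simpa using Fintype.card_le_of_injective J hJ.injective

end Pool.Agent.S06628
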