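import Pool.Statements.S06629
import Pool.Agent.H98.Surj

set_option autoImplicit false
open Pool Pool.MP_efaf6a_an

namespace Pool.Agent.S06629

open Pool.Agent.H98.Surj in
/-- Every commutative monoid is surjunctive. -/
theorem result :
    ∀ (M : Type) [CommMonoid M] (A : Type) [Finite A] (S : Finset M) (μ : (S → A) → A),
      Function.Injective (fun (x : M → A) (m : M) => μ (fun s : S => x (m * s.1))) →
      Function.Surjective (fun (x : M → A) (m : M) => μ (fun s : S => x (m * s.1))) := by
  intro M _ A _ S μ hinj
  classical
  refine transfer (fun s : S => s.1) μ (fun G => ?_) hinj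
  let N : Submonoid M := Submonoid.closure (G : Set M)
  have hfg : Monoid.FG N := (Monoid.fg_iff_submonoid_fg N).2 ⟨G, rfl⟩
  obtain ⟨Q, _, _, φ, hφ⟩ := sep_comm_finset (N := N) (G.subtype (fun g => g ∈ N))
  refine ⟨N, Q, inferInstance, φ, fun g hg => Submonoid.subset_closure hg, ?_, ?_⟩
  · intro a b ha hb hab
    exact hφ a (by simpa using ha) b (by simpa using hb) hab
  · intro σ' h
    exact Finite.injective_iff_surjective.1 h

end Pool.Agent.S06629
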