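import Pool.Statements.S06646
import Pool.Agent.H91.MeanValence

set_option autoImplicit false
open Pool Pool.MP_f04b5a_an

namespace Pool.Agent.S06646

theorem result :
    ¬ (∀ α : ℝ, 0 < α → α ≤ 1 / (1 + Real.exp Real.pi) →
      ∃ N : ℕ, ∀ f g : ℂ → ℂ,
        (DifferentiableOn ℂ f (Metric.ball (0 : ℂ) 1) ∧ Set.InjOn f (Metric.ball (0 : ℂ) 1) ∧
          f 0 = 0 ∧ deriv f 0 = 1) →
        (DifferentiableOn ℂ g (Metric.ball (0 : ℂ) 1) ∧ Set.InjOn g (Metric.ball (0 : ℂ) 1) ∧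
          g 0 = 0 ∧ deriv g 0 = 1) →
        ∀ w : ℂ,
          {z : ℂ | z ∈ Metric.ball (0 : ℂ) 1 ∧
              (α : ℂ) * f z + (1 - (α : ℂ)) * g z = w}.encard ≤ (N : ℕ∞)) := by
  intro h
  obtain ⟨N, hN⟩ := h (1 / (1 + Real.exp Real.pi)) (by positivity) le_rfl
  have h1 := hN _ _ Pool.Agent.H91.MeanValence.f_S Pool.Agent.H91.MeanValence.g_S (-1)
  have h2 : {z : ℂ | z ∈ Metric.ball (0 : ℂ) 1 ∧
      ((1 / (1 + Real.exp Real.pi) : ℝ) : ℂ) * Pool.Agent.H91.MeanValence.f z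
        + (1 - ((1 / (1 + Real.exp Real.pi) : ℝ) : ℂ)) * Pool.Agent.H91.MeanValence.g z = -1}.Infinite := by
    apply Set.infinite_of_injective_forall_mem Pool.Agent.H91.MeanValence.Zx_inj
    intro n
    exact ⟨by simpa using Pool.Agent.H91.Strip.Z_lt (Pool.Agent.H91.MeanValence.x_nonneg n),
      Pool.Agent.H91.MeanValence.val n⟩
  rw [h2.encard_eq] at h1
  exact absurd h1 (by simp)

end Pool.Agent.S06646
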