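import Pool.Statements.S06658
import Pool.Agent.H87.MonoGap2

set_option autoImplicit false
open Pool Pool.MP_f1354d_an

namespace Pool.Agent.S06658

theorem result :
    ¬ (∀ (X : Type) [NormedAddCommGroup X] [NormedSpace ℝ X] [CompleteSpace X]
      (A : X → Set (X →L[ℝ] ℝ)),
      ((∀ x y : X, ∀ xs ∈ A x, ∀ ys ∈ A y, 0 ≤ (xs - ys) (x - y)) ∧
        (∀ (x : X) (xs : X →L[ℝ] ℝ),
          (∀ y : X, ∀ ys ∈ A y, 0 ≤ (xs - ys) (x - y)) → xs ∈ A x)) →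
      ∀ U : Set X, IsOpen U → Convex ℝ U → (∃ y ∈ U, (A y).Nonempty) →
        ∀ x ∈ U, ∀ xs : X →L[ℝ] ℝ,
          (∀ y ∈ U, ∀ ys ∈ A y, 0 ≤ (xs - ys) (x - y)) → xs ∈ A x) := by
  intro H
  obtain ⟨G, z, hz, h1, h2, h3, ⟨x, f, hx, hx'⟩, -, h4, -⟩ := Pool.Agent.H87.MonoGap.core
  have hc := H _ (fun x => {f | (x, f) ∈ G})
    ⟨fun x y f hf g hg => h1 x y f g hf hg, fun x f hf => h2 x f fun y g hg => hf y g hg⟩
    {w | Pool.Agent.H87.MonoGap.u w < 1}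
    (isOpen_lt Pool.Agent.H87.MonoGap.u.continuous continuous_const)
    (convex_halfSpace_lt Pool.Agent.H87.MonoGap.u.isLinear 1)
    ⟨x, by rw [Set.mem_setOf_eq, hx']; norm_num, f, hx⟩ z
    (by rw [Set.mem_setOf_eq, hz]; norm_num) _
    (fun y hy g hg => h4 y g hg ((h3 y g hg).resolve_right (not_lt.2 (le_of_lt hy))))
  have := h3 _ _ hc
  rw [hz] at this
  norm_num at this

end Pool.Agent.S06658
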