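import Pool.Statements.S06672
import Pool.Agent.H91.Bim

set_option autoImplicit false
open Pool Pool.MP_f23f32_an

namespace Pool.Agent.S06672

/-- The negation of the preceding statement: For von Neumann algebras A ⊆ M on a Hilbert space with M ∩ A′ ⊆ A, suppose ψ is a contractive linear idempotent on M whose range is an A-bimodule. Then the range is closed under ½(ab*c + cb*a). -/
theorem result :
    ¬ (∀ (H : Type) [NormedAddCommGroup H] [InnerProductSpace ℂ H] [CompleteSpace H]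
      (M A : VonNeumannAlgebra H), A ≤ M →
      (∀ x ∈ M, (∀ a ∈ A, a * x = x * a) → x ∈ A) →
      ∀ ψ : (H →L[ℂ] H) →ₗ[ℂ] (H →L[ℂ] H),
        (∀ x ∈ M, ψ x ∈ M) →
        (∀ x ∈ M, ‖ψ x‖ ≤ ‖x‖) →
        (∀ x ∈ M, ψ (ψ x) = ψ x) →
        (∀ a ∈ A, ∀ x ∈ M,
          a * ψ x ∈ ψ '' (M : Set (H →L[ℂ] H)) ∧ ψ x * a ∈ ψ '' (M : Set (H →L[ℂ] H))) →
        ∀ x ∈ M, ∀ y ∈ M, ∀ z ∈ M,
          (1 / 2 : ℂ) • (ψ x * star (ψ y) * ψ z + ψ z * star (ψ y) * ψ x)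
            ∈ ψ '' (M : Set (H →L[ℂ] H))) := by
  intro h
  obtain ⟨H, _, _, _, M, A, ψ, T, hM, hA, hg, hψ, hT, hw⟩ := H91BM.cex
  obtain ⟨w, -, e⟩ := h H M A (fun x _ => hM x) (fun x _ hx => hA x hx) ψ (fun x _ => hM _)
    (fun x _ => hg.le x) (fun x _ => hψ x)
    (fun a ha x _ => ⟨⟨a * x, hM _, hg.l a ha x⟩, ⟨x * a, hM _, hg.r a ha x⟩⟩)
    T (hM _) 1 (hM _) T (hM _)
  refine hw w (e.trans ?_)
  rw [hT, hg.one, star_one, mul_one, ← two_smul ℂ, smul_smul]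
  norm_num

end Pool.Agent.S06672
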