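import Pool.Statements.S06680
import Pool.Agent.H49.WM3

set_option autoImplicit false
open MeasureTheory Filter Topology
open Pool Pool.MP_f2c841_an

namespace Pool.Agent.S06680

open H49.WM

lemma lev {p k r : ℕ} (hκ : 128 ≤ p ^ 7) (hp : 1 ≤ p) (h1 : p ^ k ∣ r) (h2 : r ≤ (p ^ k) ^ 3) :
    ∃ j, T (p ^ 7) j ∣ r ∧ r ≤ T (p ^ 7) (j + 1) ^ 3 := by
  classical
  have pw : ∀ j, ∃ t, T (p ^ 7) j = p ^ t := fun j => by
    induction j with
    | zero => exact ⟨0, rfl⟩
    | succ j ih => obtain ⟨t, ht⟩ := ih; exact ⟨7 + (7 + t * 4), by rw [T, ht]; ring⟩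
  have ex : ∃ j, ¬ T (p ^ 7) (j + 1) ∣ p ^ k := ⟨p ^ k, fun h => by
    have := Nat.le_of_dvd (by positivity) h
    have := (T_mono hκ).id_le (p ^ k + 1)
    simp only [id] at this
    omega⟩
  refine ⟨Nat.find ex, Dvd.dvd.trans ?_ h1, h2.trans (Nat.pow_le_pow_left ?_ 3)⟩
  · rcases h : Nat.find ex with _ | j
    · exact one_dvd _
    · exact not_not.1 (Nat.find_min ex (by omega))
  · have := Nat.find_spec ex
    obtain ⟨t, ht⟩ := pw (Nat.find ex + 1)
    rw [ht] at this ⊢
    exact Nat.pow_le_pow_right hp (not_lt.1 fun h => this (pow_dvd_pow _ h.le))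

/-- the shift as a measurable equivalence -/
def sh : (ℤ → Bool) ≃ᵐ (ℤ → Bool) where
  toFun := σ 1
  invFun := σ (-1)
  left_inv := fun ω => by simp [σ_σ, σ_zero]
  right_inv := fun ω => by simp [σ_σ, σ_zero]
  measurable_toFun := (σ 1).continuous.measurable
  measurable_invFun := (σ (-1)).continuous.measurable

/-- The negation of the preceding statement: Take any invertible measure-preserving map on a probability space that is weakly mixing in the Cesàro sense, and any positive-measure set A. Then for some positive integers n, k, the set A meets its preimage under the (2^n·3^k)-th iterate in positive measure. -/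
theorem result :
    ¬ (∀ (X : Type) [MeasurableSpace X] (μ : Measure X) [IsProbabilityMeasure μ]
      (e : X ≃ᵐ X),
      MeasurePreserving (⇑e) μ μ →
      (∀ A B : Set X, MeasurableSet A → MeasurableSet B →
        Tendsto (fun N : ℕ => (N : ℝ)⁻¹ *
          ∑ n ∈ Finset.range N,
            |μ.real ((⇑e)^[n] ⁻¹' A ∩ B) - μ.real A * μ.real B|)
          atTop (𝓝 0)) →
      ∀ A : Set X, MeasurableSet A → 0 < μ A →
        ∃ n k : ℕ, 1 ≤ n ∧ 1 ≤ k ∧ 0 < μ (A ∩ (⇑e)^[2 ^ n * 3 ^ k] ⁻¹' A)) := by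
  intro H
  obtain ⟨μ, hp, a1, a2, a3, a4⟩ := sys (κ := 2 ^ 7) (by norm_num)
  obtain ⟨ν, hq, b1, b2, b3, b4⟩ := sys (κ := 3 ^ 7) (by norm_num)
  have it : ∀ (n : ℕ) (A B : Set (ℤ → Bool)),
      (⇑(sh.prodCongr sh))^[n] ⁻¹' (A ×ˢ B) = (σ n ⁻¹' A) ×ˢ (σ n ⁻¹' B) := fun n A B => by
    rw [show ⇑(sh.prodCongr sh) = Prod.map (σ 1) (σ 1) from rfl, Prod.map_iterate, σ_iter]; rfl
  have sp : IsCountablySpanning Cyl :=
    ⟨fun _ => Set.univ, fun _ => ⟨0, fun _ _ _ => by simp⟩, Set.iUnion_const _⟩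
  have mp : MeasurePreserving (⇑(sh.prodCongr sh)) (μ.prod ν) (μ.prod ν) := a1.prod b1
  have m0 : MeasurableSet {ω : ℤ → Bool | ω 0} := Cyl.meas (Cyl.ev 0 {true})
  obtain ⟨n, k, hn, hk, h⟩ := H _ (μ.prod ν) (sh.prodCongr sh) mp
    (ext_wm (μ.prod ν) mp (𝒞 := Set.image2 (· ×ˢ ·) Cyl Cyl)
      (by rw [← generateFrom_prod_eq sp sp, ← Cyl.gen]) (Cyl.pi.prod Cyl.pi) (by
        rintro _ ⟨A, hA, A', hA', rfl⟩ _ ⟨B, hB, B', hB', rfl⟩
        have t := (a2 A hA B hB).add (b2 A' hA' B' hB')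
        rw [add_zero] at t
        refine squeeze_zero (fun N => ces_nonneg (fun n => abs_nonneg _) N) (fun N => ?_) t
        rw [← ces_add]
        refine ces_le (fun n => ?_) N
        simp only [it, Set.prod_inter_prod, measureReal_prod_prod]
        set x := μ.real (σ n ⁻¹' A ∩ B)
        set y := ν.real (σ n ⁻¹' A' ∩ B')
        have y1 : |y| ≤ 1 := by rw [abs_of_nonneg measureReal_nonneg]; exact measureReal_le_one
        have y2 : |μ.real A * μ.real B| ≤ 1 :=
          bmul (by rw [abs_of_nonneg measureReal_nonneg]; exact measureReal_le_one)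
            (by rw [abs_of_nonneg measureReal_nonneg]; exact measureReal_le_one)
        rw [show x * y - μ.real A * ν.real A' * (μ.real B * ν.real B') = (x - μ.real A * μ.real B) * y +
          μ.real A * μ.real B * (y - ν.real A' * ν.real B') by ring]
        refine (abs_add_le _ _).trans (add_le_add ?_ ?_) <;> rw [abs_mul]
        · exact mul_le_of_le_one_right (abs_nonneg _) y1
        · exact mul_le_of_le_one_left (abs_nonneg _) y2))
    ({ω | ω 0} ×ˢ {ω | ω 0}) (m0.prod m0) (by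
      rw [Measure.prod_prod]; exact ENNReal.mul_pos a3.ne' b3.ne')
  rw [it, Set.prod_inter_prod, Measure.prod_prod] at h
  have c1 : 2 ∣ 2 ^ n * 3 ^ k := (dvd_pow_self 2 (by omega)).mul_right _
  have c2 : ¬ 5 ∣ 2 ^ n * 3 ^ k := fun h => by
    rcases (Nat.Prime.dvd_mul (by norm_num)).1 h with h | h <;>
      exact absurd (Nat.Prime.dvd_of_dvd_pow (by norm_num) h) (by norm_num)
  rcases le_total k n with h' | h'
  · obtain ⟨j, j1, j2⟩ := lev (p := 2) (k := n) (r := 2 ^ n * 3 ^ k) (by norm_num) (by norm_num)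
      (Dvd.intro _ rfl) (by
        rw [pow_succ' _ 2, ← pow_mul, mul_comm n, pow_mul]
        exact Nat.mul_le_mul_left _ ((Nat.pow_le_pow_right (by norm_num) h').trans
          (Nat.pow_le_pow_left (by norm_num) _)))
    rw [a4 j _ j1 j2 (by omega) (by omega), zero_mul] at h
    exact lt_irrefl _ h
  · obtain ⟨j, j1, j2⟩ := lev (p := 3) (k := k) (r := 2 ^ n * 3 ^ k) (by norm_num) (by norm_num)
      (Dvd.intro_left _ rfl) (by
        rw [pow_succ _ 2, ← pow_mul, mul_comm k, pow_mul]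
        exact Nat.mul_le_mul_right _ ((Nat.pow_le_pow_right (by norm_num) h').trans
          (Nat.pow_le_pow_left (by norm_num) _)))
    rw [b4 j _ j1 j2 (by omega) (by omega), mul_zero] at h
    exact lt_irrefl _ h

end Pool.Agent.S06680
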