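import Pool.Statements.S06682
import Pool.Agent.H89.Mill

set_option autoImplicit false
open MeasureTheory
open Pool Pool.MP_f2ff95_an

namespace Pool.Agent.S06682

/-- The negation of the preceding statement: For E a finite union of intervals in [0,1), u_E the bounded harmonic function on the disk minus E (−1 on E, 0 on the circle), admissible r,K: every subharmonic u≤0 with min on each circle ∣z∣=t∈E at most −1 has level-set length ≥ that of u_E, with equality only for rotations of u_E. -/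
theorem result :
    ¬ (∀ (E : Set ℝ), E ⊆ Set.Ico 0 1 →
    (∃ S : Finset (Set ℝ), (∀ I ∈ S, I.OrdConnected) ∧ E = ⋃₀ (S : Set (Set ℝ))) →
    ∀ (F : Set ℂ), F = closure ((fun x : ℝ => (x : ℂ)) '' E) →
    ∀ (uE : ℂ → ℝ),
      ContDiffOn ℝ 2 uE (Metric.ball (0 : ℂ) 1 \ F) →
      (∀ z ∈ Metric.ball (0 : ℂ) 1 \ F,
        iteratedFDeriv ℝ 2 uE z ![(1 : ℂ), 1]
          + iteratedFDeriv ℝ 2 uE z ![Complex.I, Complex.I] = 0) →
      (∃ M : ℝ, ∀ z ∈ Metric.ball (0 : ℂ) 1, |uE z| ≤ M) →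
      (∀ z ∈ Metric.ball (0 : ℂ) 1 ∩ F, uE z = -1) →
      (∀ ζ ∈ Metric.ball (0 : ℂ) 1 ∩ F,
        Filter.Tendsto uE (nhdsWithin ζ (Metric.ball (0 : ℂ) 1 \ F)) (nhds (-1))) →
      (∀ ζ : ℂ, ‖ζ‖ = 1 → ζ ∉ F →
        Filter.Tendsto uE (nhdsWithin ζ (Metric.ball (0 : ℂ) 1 \ F)) (nhds 0)) →
      ∀ r K : ℝ, 0 < r → r < 1 → 0 < K → K < 1 →
      0 < volume {θ : ℝ | θ ∈ Set.Ico 0 (2 * Real.pi) ∧
            uE ((r : ℂ) * Complex.exp ((θ : ℂ) * Complex.I)) < -K} →
      volume {θ : ℝ | θ ∈ Set.Ico 0 (2 * Real.pi) ∧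
            uE ((r : ℂ) * Complex.exp ((θ : ℂ) * Complex.I)) < -K}
          < ENNReal.ofReal (2 * Real.pi) →
      ∀ u : ℂ → EReal,
        UpperSemicontinuousOn u (Metric.ball (0 : ℂ) 1) →
        (∃ z ∈ Metric.ball (0 : ℂ) 1, u z ≠ ⊥) →
        (∀ z ∈ Metric.ball (0 : ℂ) 1, ∃ ε : ℝ, 0 < ε ∧ ∀ ρ : ℝ, 0 < ρ → ρ < ε →
          u z ≤ -((((ENNReal.ofReal (2 * Real.pi))⁻¹ *
            ∫⁻ θ in Set.Ioc 0 (2 * Real.pi),
              (-u (z + (ρ : ℂ) * Complex.exp ((θ : ℂ) * Complex.I))).toENNReal) : ENNReal) : EReal)) →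
        (∀ z ∈ Metric.ball (0 : ℂ) 1, u z ≤ 0) →
        (∀ t ∈ E, (⨅ z ∈ Metric.sphere (0 : ℂ) t, u z) ≤ (-1 : EReal)) →
        volume {θ : ℝ | θ ∈ Set.Ico 0 (2 * Real.pi) ∧
            uE ((r : ℂ) * Complex.exp ((θ : ℂ) * Complex.I)) < -K}
          ≤ volume {θ : ℝ | θ ∈ Set.Ico 0 (2 * Real.pi) ∧
            u ((r : ℂ) * Complex.exp ((θ : ℂ) * Complex.I)) < (((-K : ℝ)) : EReal)} ∧
        (volume {θ : ℝ | θ ∈ Set.Ico 0 (2 * Real.pi) ∧
            u ((r : ℂ) * Complex.exp ((θ : ℂ) * Complex.I)) < (((-K : ℝ)) : EReal)}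
          = volume {θ : ℝ | θ ∈ Set.Ico 0 (2 * Real.pi) ∧
            uE ((r : ℂ) * Complex.exp ((θ : ℂ) * Complex.I)) < -K} →
          ∃ α : ℝ, ∀ z ∈ Metric.ball (0 : ℂ) 1,
            u z = ((uE (Complex.exp ((α : ℂ) * Complex.I) * z) : ℝ) : EReal))) := by
  intro H
  have c0 : (0 : ℝ) ≤ 999 / 1000 := by norm_num
  have c1 : (999 / 1000 : ℝ) < 1 := by norm_num
  have hF : closure ((fun x : ℝ => (x : ℂ)) '' Set.Ico (999 / 1000) 1) =
      (fun x : ℝ => (x : ℂ)) '' Set.Icc (999 / 1000) 1 := by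
    rw [Complex.isometry_ofReal.isClosedEmbedding.closure_image_eq, closure_Ico (by norm_num)]
  have hslit : ∀ z ∈ Metric.ball (0 : ℂ) 1 \ (fun x : ℝ => (x : ℂ)) '' Set.Icc (999 / 1000) 1,
      -H89.Mill.mob (999 / 1000) z ∈ Complex.slitPlane := by
    intro z hz
    have hz1 : ‖z‖ < 1 := by simpa using hz.1
    rcases H89.Mill.slit_or (H89.Mill.mob (999 / 1000) z) with h | ⟨x, hx, h⟩
    · exact h
    · exfalso
      have h2 := H89.Mill.mob_lt c0 c1 hz1
      rw [h, Complex.norm_real, Real.norm_eq_abs, abs_of_nonneg hx] at h2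
      refine hz.2 ⟨_, ⟨?_, ?_⟩, (H89.Mill.mob_inv c0 c1 hz1.le hx h).symm⟩
      · rw [le_div_iff₀ (by positivity)]; linarith
      · rw [div_le_iff₀ (by positivity)]; linarith
  have hharm : ∀ z ∈ Metric.ball (0 : ℂ) 1 \ (fun x : ℝ => (x : ℂ)) '' Set.Icc (999 / 1000) 1,
      InnerProductSpace.HarmonicAt H89.Mill.uE z := by
    intro z hz
    have hz1 : ‖z‖ < 1 := by simpa using hz.1
    exact H89.Mill.U_harm (H89.Mill.mob_an c0 c1 hz1.le) (H89.Mill.mob_lt c0 c1 hz1) (hslit z hz)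
  have hcont : ∀ z : ℂ, ‖z‖ < 1 → ContinuousAt H89.Mill.uE z := fun z hz =>
    ContinuousAt.comp (f := H89.Mill.mob (999 / 1000))
      (H89.Mill.U_cont (H89.Mill.mob_lt c0 c1 hz)) (H89.Mill.mob_an c0 c1 hz.le).continuousAt
  have hval : ∀ z ∈ Metric.ball (0 : ℂ) 1 ∩ (fun x : ℝ => (x : ℂ)) '' Set.Icc (999 / 1000) 1,
      H89.Mill.uE z = -1 := by
    rintro _ ⟨-, x, hx, rfl⟩
    rw [H89.Mill.uE, H89.Mill.mob_real,
      H89.Mill.U_real (div_nonneg (by linarith [hx.1]) (by linarith [hx.2]))]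
  have hn : ∀ θ : ℝ, ‖((4 / 5 : ℝ) : ℂ) * Complex.exp ((θ : ℂ) * Complex.I)‖ = 4 / 5 := by
    intro θ
    rw [norm_mul, Complex.norm_exp_ofReal_mul_I, Complex.norm_real, Real.norm_eq_abs,
      abs_of_pos (by norm_num), mul_one]
  have hpi := Real.pi_pos
  have hpos : 0 < volume {θ : ℝ | θ ∈ Set.Ico 0 (2 * Real.pi) ∧
      H89.Mill.uE (((4 / 5 : ℝ) : ℂ) * Complex.exp ((θ : ℂ) * Complex.I)) < -(277 / 100000)} := by
    have h1 : ContinuousAt (fun θ : ℝ =>
        H89.Mill.uE (((4 / 5 : ℝ) : ℂ) * Complex.exp ((θ : ℂ) * Complex.I))) 0 :=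
      ContinuousAt.comp (f := fun θ : ℝ => ((4 / 5 : ℝ) : ℂ) * Complex.exp ((θ : ℂ) * Complex.I))
        (hcont _ (by rw [hn]; norm_num)) (by fun_prop)
    have h2 := h1.eventually_lt (continuousAt_const (y := -(277 / 100000 : ℝ)))
      (by simpa using H89.Mill.uE_r)
    obtain ⟨η, hη, h3⟩ := Metric.eventually_nhds_iff.1 h2
    refine lt_of_lt_of_le ?_ (measure_mono (s := Set.Ico 0 (min η (2 * Real.pi))) ?_)
    · rw [Real.volume_Ico, ENNReal.ofReal_pos, sub_zero]
      positivity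
    · intro θ hθ
      refine ⟨⟨hθ.1, hθ.2.trans_le (min_le_right _ _)⟩, h3 ?_⟩
      rw [Real.dist_eq, sub_zero, abs_of_nonneg hθ.1]
      exact hθ.2.trans_le (min_le_left _ _)
  have key := (H (Set.Ico (999 / 1000) 1) (Set.Ico_subset_Ico c0 le_rfl)
    ⟨{Set.Ico (999 / 1000) 1}, by simpa using Set.ordConnected_Ico, by simp⟩ _ hF.symm
    H89.Mill.uE (fun z hz => (hharm z hz).1.contDiffWithinAt)
    (fun z hz => by
      have := (hharm z hz).2.self_of_nhds
      rw [InnerProductSpace.laplacian_eq_iteratedFDeriv_complexPlane] at this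
      exact this)
    ⟨1, fun z hz => abs_le.2 ⟨H89.Mill.U_ge (H89.Mill.mob_lt c0 c1 (by simpa using hz)),
      (H89.Mill.U_le _).trans zero_le_one⟩⟩ hval
    (fun z hz => by
      rw [← hval z hz]
      exact (hcont z (by simpa using hz.1)).continuousWithinAt)
    (fun ζ h1 h2 => by
      have h3 : ‖H89.Mill.mob (999 / 1000) ζ‖ = 1 := by
        have := H89.Mill.mob_sq c0 c1 h1.le
        rw [h1] at this
        have h4 : ‖H89.Mill.mob (999 / 1000) ζ‖ ^ 2 = 1 ^ 2 := by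
          simp only [one_pow, sub_self, mul_zero, zero_div] at this ⊢
          linarith
        exact (pow_left_inj₀ (norm_nonneg _) zero_le_one two_ne_zero).1 h4
      have h4 : (H89.Mill.mob (999 / 1000) ζ).re < 1 := by
        rcases H89.Mill.slit_or (H89.Mill.mob (999 / 1000) ζ) with h | ⟨x, hx, h⟩
        · rw [← h3]; exact H89.Mill.slit_re h
        · exfalso
          rw [h, Complex.norm_real, Real.norm_eq_abs, abs_of_nonneg hx] at h3
          subst h3
          refine h2 ⟨_, ?_, (H89.Mill.mob_inv c0 c1 h1.le hx h).symm⟩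
          norm_num
      have h5 := (H89.Mill.mob_an c0 c1 h1.le).continuousAt
      have h6 : ContinuousAt (fun w : ℂ =>
          -(2 / Real.pi * Real.arctan ((1 - ‖w‖) / (2 * √((‖w‖ - w.re) / 2)))))
          (H89.Mill.mob (999 / 1000) ζ) := by
        refine (continuousAt_const.mul (Real.continuous_arctan.continuousAt.comp ?_)).neg
        refine ContinuousAt.div (by fun_prop) (by fun_prop) ?_
        have : 0 < √((‖H89.Mill.mob (999 / 1000) ζ‖ - (H89.Mill.mob (999 / 1000) ζ).re) / 2) :=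
          Real.sqrt_pos.2 (by linarith)
        positivity
      have h7 := (h6.comp h5).continuousWithinAt
        (s := Metric.ball (0 : ℂ) 1 \ (fun x : ℝ => (x : ℂ)) '' Set.Icc (999 / 1000) 1)
      have h8 := h7.tendsto
      simp only [Function.comp_apply, h3, sub_self, zero_div, Real.arctan_zero, mul_zero,
        neg_zero] at h8
      refine h8.congr' ?_
      filter_upwards [self_mem_nhdsWithin] with z hz
      exact (H89.Mill.U_alt (H89.Mill.mob_lt c0 c1 (by simpa using hz.1))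
        (H89.Mill.slit_re (hslit z hz))).symm)
    (4 / 5) (277 / 100000) (by norm_num) (by norm_num) (by norm_num) (by norm_num) hpos
    (by
      refine lt_of_le_of_lt (measure_mono
        (t := Set.Ico 0 (Real.pi / 2) ∪ Set.Ioo (Real.pi + Real.pi / 2) (2 * Real.pi)) ?_) ?_
      · rintro θ ⟨h1, h2⟩
        by_contra hc
        simp only [Set.mem_union, Set.mem_Ico, Set.mem_Ioo, not_or, not_and, not_lt] at hc
        have h3 : Real.cos θ ≤ 0 := Real.cos_nonpos_of_pi_div_two_le_of_le (hc.1 h1.1)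
          (by by_contra h4; exact absurd (hc.2 (not_le.1 h4)) (not_le.2 h1.2))
        refine absurd h2 (not_lt.2 (H89.Mill.uE_far (hn θ) ?_))
        rw [Complex.re_ofReal_mul, Complex.exp_ofReal_mul_I_re]
        linarith
      · refine lt_of_le_of_lt (measure_union_le _ _) ?_
        rw [Real.volume_Ico, Real.volume_Ioo, ← ENNReal.ofReal_add (by linarith) (by linarith),
          ENNReal.ofReal_lt_ofReal_iff (by linarith)]
        linarith)
    (fun z => (H89.Mill.u z : EReal))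
    (ContinuousOn.upperSemicontinuousOn fun z hz =>
      (continuous_coe_real_ereal.continuousAt.comp
        (H89.Mill.u_cont (by simpa using hz))).continuousWithinAt)
    ⟨0, by simp, EReal.coe_ne_bot _⟩
    (fun z hz => H89.Mill.u_sub (by simpa using hz))
    (fun z hz => by exact_mod_cast H89.Mill.u_le (by simpa using hz))
    (fun t ht => by
      obtain ⟨z, h1, h2⟩ := H89.Mill.u_E ht.1 ht.2
      refine iInf₂_le_of_le z (by simpa using h1) ?_
      exact EReal.coe_le_coe_iff.2 h2)).1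
  have hempty : {θ : ℝ | θ ∈ Set.Ico 0 (2 * Real.pi) ∧
      (H89.Mill.u (((4 / 5 : ℝ) : ℂ) * Complex.exp ((θ : ℂ) * Complex.I)) : EReal) <
        (((-(277 / 100000) : ℝ)) : EReal)} = ∅ := by
    refine Set.eq_empty_of_forall_notMem fun θ hθ => ?_
    exact absurd (EReal.coe_lt_coe_iff.1 hθ.2) (not_lt.2 (H89.Mill.u_circ (hn θ)))
  rw [hempty, measure_empty] at key
  exact absurd hpos (not_lt.2 key)

end Pool.Agent.S06682
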