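import Pool.Statements.S06683
import Pool.Agent.H86.ThetaAll

set_option autoImplicit false
open Pool Pool.MP_f310b7_an
open Finset

namespace Pool.Agent.S06683

open Pool.Agent.H86.Theta

/-- the nearly optimal simplex for the absorption index -/
noncomputable def vv : Fin 5 → Fin 4 → ℝ :=
  ![![0, 0, 1, 10 / 43], ![0, 33 / 43, 0, 1], ![1, 0, 0, 10 / 43], ![1 / 2, 1, 1 / 2, 0],
    ![1, 33 / 43, 1, 1]]

theorem vv_indep : AffineIndependent ℝ vv := by
  rw [affineIndependent_iff]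
  intro s w h1 h2 e he
  let u : Fin 5 → ℝ := fun j => if j ∈ s then w j else 0
  have e1 : ∑ j, u j = 0 := by
    rw [← h1]; simp [u]
  have e2 : ∑ j, u j • vv j = 0 := by
    rw [← h2]; simp [u]
  have a0 := congrFun e2 0
  have a1 := congrFun e2 1
  have a2 := congrFun e2 2
  have a3 := congrFun e2 3
  simp [Fin.sum_univ_five, vv] at e1 a0 a1 a2 a3
  have : u e = 0 := by
    fin_cases e <;> simp only [Fin.reduceFinMk, Fin.zero_eta, Fin.mk_one] <;> linarith
  simpa [u, he] using this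

theorem vv_mem (j : Fin 5) : vv j ∈ Set.Icc (0 : Fin 4 → ℝ) 1 := by
  constructor <;> intro i <;> fin_cases j <;> fin_cases i <;> simp [vv] <;> norm_num

theorem vv_cover : Set.Icc (0 : Fin 4 → ℝ) 1 ⊆
    (AffineMap.homothety ((5 : ℝ)⁻¹ • ∑ j, vv j) (823 / 200 : ℝ)) '' convexHull ℝ (Set.range vv) := by
  rintro x ⟨h0, h1⟩
  have a0 : 0 ≤ x 0 := h0 0
  have a1 : 0 ≤ x 1 := h0 1
  have a2 : 0 ≤ x 2 := h0 2
  have a3 : 0 ≤ x 3 := h0 3
  have b0 : x 0 ≤ 1 := h1 0
  have b1 : x 1 ≤ 1 := h1 1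
  have b2 : x 2 ≤ 1 := h1 2
  have b3 : x 3 ≤ 1 := h1 3
  let lam : Fin 5 → ℝ :=
    ![1849 / 3498 - x 0 / 2 - 1849 / 3498 * x 1 + x 2 / 2 - 215 / 1749 * x 3,
      1319 / 3498 - x 0 / 2 + 215 / 1749 * x 1 - x 2 / 2 + 1849 / 3498 * x 3,
      1849 / 3498 + x 0 / 2 - 1849 / 3498 * x 1 - x 2 / 2 - 215 / 1749 * x 3,
      10 / 53 + 43 / 53 * x 1 - 43 / 53 * x 3,
      -2179 / 3498 + x 0 / 2 + 215 / 1749 * x 1 + x 2 / 2 + 1849 / 3498 * x 3]
  let w : Fin 5 → ℝ := fun j => 1 / 5 + (lam j - 1 / 5) * (200 / 823)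
  refine ⟨∑ j, w j • vv j, ?_, ?_⟩
  · refine (convex_convexHull ℝ _).sum_mem (fun j _ => ?_) ?_
      (fun j _ => subset_convexHull ℝ _ ⟨j, rfl⟩)
    · fin_cases j <;> simp [w, lam] <;> linarith
    · simp [w, lam, Fin.sum_univ_five]; ring
  · ext i
    rw [AffineMap.homothety_apply]
    fin_cases i <;> simp [w, lam, vv, Fin.sum_univ_five] <;> ring

/-- homogeneous coordinates -/
def hom (x : Fin 4 → ℝ) : Fin 5 → ℝ := Fin.cons 1 fun i => 2 * x i - 1

theorem exists_inv (v : Fin 5 → Fin 4 → ℝ) (hv : AffineIndependent ℝ v) :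
    ∃ l : Fin 5 → Fin 5 → ℝ, (∀ i q, ∑ k, l k q * hom (v k) i = if i = q then 1 else 0) ∧
      (∀ j k, ∑ i, l j i * hom (v k) i = if j = k then 1 else 0) := by
  let A : Matrix (Fin 5) (Fin 5) ℝ := Matrix.of fun k i => hom (v k) i
  have hli : LinearIndependent ℝ A.row := by
    rw [Fintype.linearIndependent_iff]
    intro g hg
    have h0 : ∑ k, g k = 0 := by
      have := congrFun hg 0
      simpa [A, hom, Matrix.row] using this
    have h1 : ∑ k, g k • v k = 0 := by
      ext i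
      have := congrFun hg i.succ
      simp only [A, hom, Matrix.row, Finset.sum_apply, Pi.smul_apply, Matrix.of_apply,
        Fin.cons_succ, smul_eq_mul, Pi.zero_apply] at this ⊢
      have e : ∑ k, g k * (2 * v k i - 1) = 2 * ∑ k, g k * v k i - ∑ k, g k := by
        rw [mul_sum, ← sum_sub_distrib]; exact sum_congr rfl fun k _ => by ring
      rw [e, h0] at this
      linarith
    intro k
    exact affineIndependent_iff.1 hv univ g h0 h1 k (mem_univ k)
  have hu : IsUnit A := Matrix.linearIndependent_rows_iff_isUnit.1 hli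
  have hd : IsUnit A.det := (Matrix.isUnit_iff_isUnit_det A).1 hu
  refine ⟨fun k q => A⁻¹ q k, fun i q => ?_, fun j k => ?_⟩
  · have := congrFun (congrFun (Matrix.nonsing_inv_mul A hd) q) i
    rw [Matrix.mul_apply, Matrix.one_apply] at this
    simp only [eq_comm (a := i)]
    exact this
  · have := congrFun (congrFun (Matrix.mul_nonsing_inv A hd) k) j
    rw [Matrix.mul_apply, Matrix.one_apply] at this
    simp only [eq_comm (a := j)]
    rw [← this]
    exact sum_congr rfl fun i _ => mul_comm _ _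

/-- values whose supremum is the projector norm -/
def TS (v : Fin 5 → Fin 4 → ℝ) : Set ℝ :=
  {t : ℝ | ∃ f : (Fin 4 → ℝ) → ℝ, ContinuousOn f (Set.Icc (0 : Fin 4 → ℝ) 1) ∧
    (∀ y ∈ Set.Icc (0 : Fin 4 → ℝ) 1, |f y| ≤ 1) ∧
    ∃ x ∈ Set.Icc (0 : Fin 4 → ℝ) 1, ∃ l : Fin 5 → ℝ,
      ∑ j, l j = 1 ∧ ∑ j, l j • v j = x ∧ t = |∑ j, f (v j) * l j|}

theorem abs_hom {x : Fin 4 → ℝ} (hx : x ∈ Set.Icc (0 : Fin 4 → ℝ) 1) (i : Fin 5) :
    |hom x i| ≤ 1 := by
  refine Fin.cases ?_ (fun i => ?_) i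
  · simp [hom]
  · have a : 0 ≤ x i := hx.1 i
    have b : x i ≤ 1 := hx.2 i
    simp only [hom, Fin.cons_succ]
    rw [abs_le]; constructor <;> linarith

theorem theta_lower (v : Fin 5 → Fin 4 → ℝ) (hv : AffineIndependent ℝ v)
    (hm : ∀ j, v j ∈ Set.Icc (0 : Fin 4 → ℝ) 1) : (2300 / 1024 : ℝ) ≤ sSup (TS v) := by
  by_contra hlt
  rw [not_le] at hlt
  obtain ⟨l, hcol, hrow⟩ := exists_inv v hv
  have hbd : BddAbove (TS v) := by
    refine ⟨∑ j, ∑ i, |l j i|, ?_⟩
    rintro t ⟨f, -, hf, x, hx, μ, h1, h2, rfl⟩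
    refine (abs_sum_le_sum_abs _ _).trans (sum_le_sum fun k _ => ?_)
    have e1 : ∀ i, ∑ j, μ j * hom (v j) i = hom x i := by
      intro i
      refine Fin.cases ?_ (fun i => ?_) i
      · simpa [hom] using h1
      · have := congrFun h2 i
        simp only [Finset.sum_apply, Pi.smul_apply, smul_eq_mul] at this
        simp only [hom, Fin.cons_succ]
        rw [← this, ← h1, mul_sum, ← sum_sub_distrib]
        refine sum_congr rfl fun j _ => ?_
        rw [h1]; ring
    have e2 : μ k = ∑ i, l k i * hom x i := by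
      simp only [← e1, mul_sum]
      rw [sum_comm]
      have : ∀ j, ∑ i, l k i * (μ j * hom (v j) i) = μ j * if k = j then 1 else 0 := fun j => by
        rw [← hrow k j, mul_sum]; exact sum_congr rfl fun i _ => by ring
      simp [this]
    rw [abs_mul, e2]
    calc |f (v k)| * |∑ i, l k i * hom x i| ≤ 1 * |∑ i, l k i * hom x i| := by
          gcongr; exact hf _ (hm k)
      _ ≤ ∑ i, |l k i * hom x i| := by rw [one_mul]; exact abs_sum_le_sum_abs _ _
      _ ≤ ∑ i, |l k i| := sum_le_sum fun i _ => by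
          rw [abs_mul]
          exact mul_le_of_le_one_right (abs_nonneg _) (abs_hom hx i)
  have key : ∀ x ∈ Set.Icc (0 : Fin 4 → ℝ) 1, ∀ τ : Fin 5 → ℝ, (∀ j, |τ j| ≤ 1) →
      ∑ j, ∑ i, τ j * hom x i * l j i ≤ 2300 / 1024 := by
    intro x hx τ hτ
    let f : (Fin 4 → ℝ) → ℝ := fun y => max (-1) (min 1 (∑ j, ∑ i, τ j * hom y i * l j i))
    have hfc : Continuous f := by
      refine continuous_const.max (continuous_const.min ?_)
      refine continuous_finsetSum _ fun j _ => continuous_finsetSum _ fun i _ => ?_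
      refine (continuous_const.mul ?_).mul continuous_const
      refine Fin.cases ?_ (fun i => ?_) i
      · simpa [hom] using continuous_const
      · simp only [hom, Fin.cons_succ]; fun_prop
    have hfv : ∀ k, f (v k) = τ k := by
      intro k
      have : ∀ j, ∑ i, τ j * hom (v k) i * l j i = τ j * if j = k then 1 else 0 := fun j => by
        rw [← hrow j k, mul_sum]; exact sum_congr rfl fun i _ => by ring
      obtain ⟨a, b⟩ := abs_le.1 (hτ k)
      simp [f, this, a, b]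
    have e1 : ∀ q, ∑ j, (∑ i, hom x i * l j i) * hom (v j) q = hom x q := by
      intro q
      simp only [sum_mul]
      rw [sum_comm]
      have : ∀ i, ∑ j, hom x i * l j i * hom (v j) q = hom x i * if q = i then 1 else 0 :=
        fun i => by rw [← hcol q i, mul_sum]; exact sum_congr rfl fun i _ => by ring
      simp [this]
    have hs : ∑ j, ∑ i, hom x i * l j i = 1 := by simpa [hom] using e1 0
    have hmem : |∑ j, f (v j) * ∑ i, hom x i * l j i| ∈ TS v := by
      refine ⟨f, hfc.continuousOn, fun y _ => ?_, x, hx, fun j => ∑ i, hom x i * l j i, hs, ?_, rfl⟩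
      · rw [abs_le]
        exact ⟨le_max_left _ _, max_le (by norm_num) (min_le_left _ _)⟩
      · ext q
        have := e1 q.succ
        simp only [hom, Fin.cons_succ] at this
        simp only [Finset.sum_apply, Pi.smul_apply, smul_eq_mul]
        have e : ∑ j, (∑ i, hom x i * l j i) * (2 * v j q - 1) =
            2 * ∑ j, (∑ i, hom x i * l j i) * v j q - ∑ j, ∑ i, hom x i * l j i := by
          rw [mul_sum, ← sum_sub_distrib]; exact sum_congr rfl fun k _ => by ring
        have this' : ∑ j, (∑ i, hom x i * l j i) * (2 * v j q - 1) = 2 * x q - 1 := this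
        rw [e, hs] at this'
        linarith
    have h3 := (le_csSup hbd hmem).trans hlt.le
    refine le_trans (le_of_eq ?_) ((le_abs_self _).trans h3)
    refine sum_congr rfl fun j _ => ?_
    rw [hfv, mul_sum]
    exact sum_congr rfl fun i _ => by ring
  refine not_feas l (fun k => hom (v k)) ⟨fun k => rfl, fun k => abs_hom (hm k), hcol, hrow, ?_⟩
  intro σ τ hσ hτ
  have k1 := key (fun i => (1 + σ i.succ) / 2)
    ⟨fun i => by have := abs_le.1 (hσ i.succ); simp only [Pi.zero_apply]; linarith,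
     fun i => by have := abs_le.1 (hσ i.succ); simp only [Pi.one_apply]; linarith⟩ τ hτ
  have k2 := key (fun i => (1 - σ i.succ) / 2)
    ⟨fun i => by have := abs_le.1 (hσ i.succ); simp only [Pi.zero_apply]; linarith,
     fun i => by have := abs_le.1 (hσ i.succ); simp only [Pi.one_apply]; linarith⟩ (fun j => -τ j)
    (fun j => by rw [abs_neg]; exact hτ j)
  obtain ⟨a, b⟩ := abs_le.1 (hσ 0)
  have e : ∑ j, ∑ i, τ j * σ i * l j i =
      (1 + σ 0) / 2 * (∑ j, ∑ i, τ j * hom (fun i => (1 + σ i.succ) / 2) i * l j i) +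
      (1 - σ 0) / 2 * (∑ j, ∑ i, -τ j * hom (fun i => (1 - σ i.succ) / 2) i * l j i) := by
    rw [mul_sum, mul_sum, ← sum_add_distrib]
    refine sum_congr rfl fun j _ => ?_
    rw [mul_sum, mul_sum, ← sum_add_distrib]
    refine sum_congr rfl fun i _ => ?_
    refine Fin.cases ?_ (fun i => ?_) i
    · simp only [hom, Fin.cons_zero]; ring
    · simp only [hom, Fin.cons_succ]; ring
  rw [e]
  nlinarith

/-- In dimension 4 the inequality between the absorption index and the projector norm is strict. -/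
theorem result :
    sInf ((fun v : Fin 5 → (Fin 4 → ℝ) =>
        sInf {σ : ℝ | 1 ≤ σ ∧ Set.Icc (0 : Fin 4 → ℝ) 1 ⊆
          (AffineMap.homothety ((5 : ℝ)⁻¹ • ∑ j, v j) σ) '' convexHull ℝ (Set.range v)}) ''
        {v : Fin 5 → (Fin 4 → ℝ) | AffineIndependent ℝ v ∧ ∀ j, v j ∈ Set.Icc (0 : Fin 4 → ℝ) 1})
    < (5 / 2 : ℝ) *
        (sInf ((fun v : Fin 5 → (Fin 4 → ℝ) =>
            sSup {t : ℝ | ∃ f : (Fin 4 → ℝ) → ℝ, ContinuousOn f (Set.Icc (0 : Fin 4 → ℝ) 1) ∧
              (∀ y ∈ Set.Icc (0 : Fin 4 → ℝ) 1, |f y| ≤ 1) ∧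
              ∃ x ∈ Set.Icc (0 : Fin 4 → ℝ) 1, ∃ l : Fin 5 → ℝ,
                ∑ j, l j = 1 ∧ ∑ j, l j • v j = x ∧ t = |∑ j, f (v j) * l j|}) ''
            {v : Fin 5 → (Fin 4 → ℝ) | AffineIndependent ℝ v ∧ ∀ j, v j ∈ Set.Icc (0 : Fin 4 → ℝ) 1})
          - 1) + 1 := by
  refine lt_of_le_of_lt (b := 823 / 200) ?_ ?_
  · refine csInf_le_of_le ⟨0, ?_⟩ ⟨vv, ⟨vv_indep, vv_mem⟩, rfl⟩ ?_
    · rintro _ ⟨v, -, rfl⟩
      exact Real.sInf_nonneg fun σ h => zero_le_one.trans h.1
    · exact csInf_le ⟨1, fun σ h => h.1⟩ ⟨by norm_num, vv_cover⟩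
  · have : (2300 / 1024 : ℝ) ≤ sInf ((fun v : Fin 5 → (Fin 4 → ℝ) => sSup (TS v)) ''
        {v : Fin 5 → (Fin 4 → ℝ) | AffineIndependent ℝ v ∧ ∀ j, v j ∈ Set.Icc (0 : Fin 4 → ℝ) 1}) := by
      refine le_csInf ⟨_, vv, ⟨vv_indep, vv_mem⟩, rfl⟩ ?_
      rintro _ ⟨v, ⟨h1, h2⟩, rfl⟩
      exact theta_lower v h1 h2
    unfold TS at this
    linarith

end Pool.Agent.S06683
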