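import Pool.Statements.S06696
import Pool.Agent.H90.SchDilD

set_option autoImplicit false
open scoped NNReal ENNReal
open Pool Pool.MP_f41f1b_an

namespace Pool.Agent.S06696

/-- The negation of the preceding statement: For 1<p<∞, every map on S_p that is contractive in both the trace norm and the operator norm has an isometric dilation: an isometric embedding J, a contractive projection P onto J(S_p), and a linear isometry U of S_p with P Uⁿ J = J Tⁿ for all n. -/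
theorem result :
    ¬ (∀ (H : Type) [NormedAddCommGroup H] [InnerProductSpace ℂ H] [CompleteSpace H]
      (b : HilbertBasis ℕ ℂ H) (Q : ℝ → (H →L[ℂ] H) → ℝ≥0∞),
      (∀ (r : ℝ) (x : H →L[ℂ] H),
        Q r x = ∑' n : ℕ, ENNReal.ofReal
          (inner ℂ (b n) ((cfc (fun t : ℝ => t ^ (r / 2)) (star x * x)) (b n))).re) →
      ∀ p : ℝ, 1 < p →
      ∀ T : (H →L[ℂ] H) →ₗ[ℂ] (H →L[ℂ] H),
        (∀ x, Q p x < ⊤ → Q p (T x) < ⊤) →
        (∃ C : ℝ≥0, ∀ x, Q p x < ⊤ → Q p (T x) ≤ (C : ℝ≥0∞) * Q p x) →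
        (∀ x, Q p x < ⊤ → Q 1 x < ⊤ → Q 1 (T x) ≤ Q 1 x) →
        (∀ x, Q p x < ⊤ → ‖T x‖ ≤ ‖x‖) →
        ∃ J P U : (H →L[ℂ] H) →ₗ[ℂ] (H →L[ℂ] H),
          (∀ x, Q p x < ⊤ → Q p (J x) = Q p x) ∧
          (∀ y, Q p y < ⊤ → ∃ x, Q p x < ⊤ ∧ P y = J x) ∧
          (∀ x, Q p x < ⊤ → P (J x) = J x) ∧
          (∀ y, Q p y < ⊤ → Q p (P y) ≤ Q p y) ∧
          (∀ x, Q p x < ⊤ → Q p (U x) = Q p x) ∧
          (∀ n : ℕ, ∀ x, Q p x < ⊤ → P ((U ^ n) (J x)) = J ((T ^ n) x))) := by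
  intro h
  let b : HilbertBasis ℕ ℂ (lp (fun _ : ℕ => ℂ) 2) := default
  obtain ⟨J, P, U, hJ, -, -, hP, hU, hd⟩ := h _ b (Pool.Agent.H90.SchDil.QQ b) (fun _ _ => rfl) 4
    (by norm_num) (Pool.Agent.H90.SchDil.TT b)
    (fun x _ => (Pool.Agent.H90.SchDil.QQ4_lt b _).2 (by
      rw [Pool.Agent.H90.SchDil.TT_eq]; exact Pool.Agent.H90.SchDil.DD_S4 b _ _))
    ⟨2, fun x hx => by
      have hx' := (Pool.Agent.H90.SchDil.QQ4_lt b x).1 hx
      have h2 : Pool.Agent.H90.SchDil.S4 b (Pool.Agent.H90.SchDil.TT b x) := by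
        rw [Pool.Agent.H90.SchDil.TT_eq]; exact Pool.Agent.H90.SchDil.DD_S4 b _ _
      rw [Pool.Agent.H90.SchDil.QQ4_eq b hx', Pool.Agent.H90.SchDil.QQ4_eq b h2]
      refine (ENNReal.ofReal_le_ofReal (Pool.Agent.H90.SchDil.TT_q4 b hx')).trans ?_
      rw [ENNReal.ofReal_mul (by norm_num)]
      simp⟩
    (fun x _ hx => Pool.Agent.H90.SchDil.TT_Q1 b x hx) (fun x _ => Pool.Agent.H90.SchDil.TT_norm b x)
  exact Pool.Agent.H90.SchDil.main b J P U hJ hP hU hd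

end Pool.Agent.S06696
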