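import Pool.Statements.S06702
-- import your own Pool.Agent.* helpers here

set_option autoImplicit false
open Pool Pool.MP_f44585_an

namespace Pool.Agent.S06702

open Filter Topology Finset Real

noncomputable def ee (u : ℝ) : ℂ := Complex.exp (((2 * π * u : ℝ) : ℂ) * Complex.I)

lemma ee_add (u v : ℝ) : ee (u + v) = ee u * ee v := by
  simp only [ee, ← Complex.exp_add]; congr 1; push_cast; ring

lemma ee_norm (u : ℝ) : ‖ee u‖ = 1 := Complex.norm_exp_ofReal_mul_I _

lemma ee_re (u : ℝ) : (ee u).re = cos (2 * π * u) := Complex.exp_ofReal_mul_I_re _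

lemma ee_sum (s : Finset ℕ) (f : ℕ → ℝ) : ee (∑ t ∈ s, f t) = ∏ t ∈ s, ee (f t) := by
  induction s using Finset.induction_on with
  | empty => simp [ee]
  | insert a s ha ih => rw [sum_insert ha, prod_insert ha, ee_add, ih]

noncomputable def fac (u : ℝ) : ℝ := ‖1 + ee u‖ / 2

lemma fac_nonneg (u : ℝ) : 0 ≤ fac u := by unfold fac; positivity

lemma fac_sq (u : ℝ) : fac u ^ 2 = (1 + cos (2 * π * u)) / 2 := by
  have h := ee_norm u
  rw [fac, div_pow, Complex.sq_norm, Complex.normSq_add, Complex.normSq_eq_norm_sq (ee u), h,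
    ← ee_re]
  simp; ring

lemma fac_le (u : ℝ) : fac u ≤ 1 := by
  nlinarith [fac_sq u, cos_le_one (2 * π * u), fac_nonneg u]

lemma cos_round (u : ℝ) (z : ℤ) : cos (2 * π * u) = cos (2 * π * |u - z|) := by
  rw [← abs_of_pos two_pi_pos, ← abs_mul, cos_abs, abs_of_pos two_pi_pos,
    ← cos_sub_int_mul_two_pi _ z]
  congr 1; ring

noncomputable def PP (γ : ℝ) (q : ℕ) (i : ℕ) : ℝ := ∏ t ∈ range i, fac (γ * q ^ t)

lemma PP_nonneg (γ : ℝ) (q i : ℕ) : 0 ≤ PP γ q i := prod_nonneg fun _ _ => fac_nonneg _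

lemma PP_le (γ : ℝ) (q i : ℕ) : PP γ q i ≤ 1 :=
  prod_le_one (fun _ _ => fac_nonneg _) fun _ _ => fac_le _

lemma freq (γ : ℝ) (hγ : Irrational γ) (q : ℕ) (hq : 2 ≤ q) :
    ∃ᶠ i in atTop, 1 / (2 * (q : ℝ)) ≤ |γ * q ^ i - round (γ * q ^ i)| := by
  rw [Filter.Frequently, eventually_atTop]
  rintro ⟨i0, h⟩
  simp only [not_le] at h
  have hq' : (2 : ℝ) ≤ q := by exact_mod_cast hq
  have h1 : ∀ n, γ * q ^ (i0 + n) - round (γ * q ^ (i0 + n)) =
      q ^ n * (γ * q ^ i0 - round (γ * q ^ i0)) := by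
    intro n
    induction n with
    | zero => simp
    | succ n ih =>
      have a1 := h (i0 + n) (by omega)
      have a2 := h (i0 + (n + 1)) (by omega)
      have a3 : |((q * round (γ * q ^ (i0 + n)) - round (γ * q ^ (i0 + (n + 1))) : ℤ) : ℝ)| < 1 := by
        have e : ((q * round (γ * q ^ (i0 + n)) - round (γ * q ^ (i0 + (n + 1))) : ℤ) : ℝ) =
            (γ * q ^ (i0 + (n + 1)) - round (γ * q ^ (i0 + (n + 1)))) -
              q * (γ * q ^ (i0 + n) - round (γ * q ^ (i0 + n))) := by push_cast; ring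
        rw [e]
        refine (abs_sub _ _).trans_lt ?_
        rw [abs_mul, abs_of_pos (by linarith : (0 : ℝ) < q)]
        rw [lt_div_iff₀ (by positivity)] at a1 a2
        nlinarith [abs_nonneg (γ * q ^ (i0 + (n + 1)) - round (γ * q ^ (i0 + (n + 1))))]
      have a4 : q * round (γ * q ^ (i0 + n)) - round (γ * q ^ (i0 + (n + 1))) = (0 : ℤ) := by
        rw [← Int.cast_abs] at a3
        exact Int.abs_lt_one_iff.mp (by exact_mod_cast a3)
      have a5 := congrArg (Int.cast (R := ℝ)) a4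
      push_cast at a5
      rw [pow_succ' (q : ℝ) n, mul_assoc, ← ih, ← add_assoc, pow_succ (q : ℝ)] at *
      linarith
  have h2 : γ * q ^ i0 - round (γ * q ^ i0) ≠ 0 := by
    have := (hγ.mul_natCast (m := q ^ i0) (by positivity)).ne_int (round (γ * q ^ i0))
    push_cast at this
    exact sub_ne_zero.mpr this
  obtain ⟨n, hn⟩ := pow_unbounded_of_one_lt (1 / |γ * q ^ i0 - round (γ * q ^ i0)|)
    (show (1 : ℝ) < q by linarith)
  have h3 := h (i0 + n) (by omega)
  rw [h1, abs_mul, abs_of_pos (by positivity : (0 : ℝ) < q ^ n),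
    lt_div_iff₀ (by positivity)] at h3
  rw [div_lt_iff₀ (abs_pos.mpr h2)] at hn
  nlinarith

lemma PP_tendsto (γ : ℝ) (hγ : Irrational γ) (q : ℕ) (hq : 2 ≤ q) :
    Tendsto (PP γ q) atTop (𝓝 0) := by
  have hq' : (2 : ℝ) ≤ q := by exact_mod_cast hq
  have anti : Antitone (PP γ q) := antitone_nat_of_succ_le fun n => by
    rw [PP, prod_range_succ]
    exact mul_le_of_le_one_right (PP_nonneg γ q n) (fac_le _)
  have hL := tendsto_atTop_ciInf anti ⟨0, by rintro _ ⟨n, rfl⟩; exact PP_nonneg _ _ _⟩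
  have h0 : 0 ≤ ⨅ i, PP γ q i := le_ciInf fun i => PP_nonneg _ _ _
  generalize ⨅ i, PP γ q i = L at hL h0
  have hc : cos (2 * π * (1 / (2 * q))) < 1 := by
    refine (cos_lt_cos_of_nonneg_of_le_pi le_rfl ?_ (by positivity)).trans_eq cos_zero
    rw [mul_one_div, div_le_iff₀ (by positivity)]
    nlinarith [pi_pos]
  have h1 := ((tendsto_add_atTop_iff_nat 1).mpr (hL.pow 2)).sub
    ((hL.pow 2).const_mul ((1 + cos (2 * π * (1 / (2 * q)))) / 2))
  have h2 := isClosed_Iic.mem_of_frequently_of_tendsto (s := Set.Iic 0)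
    ((freq γ hγ q hq).mono fun i hi => ?_) h1
  · have : L = 0 := by
      rw [Set.mem_Iic] at h2
      by_contra hne
      nlinarith [mul_pos (sub_pos.mpr hc) (sq_pos_of_ne_zero hne)]
    rwa [this] at hL
  · rw [Set.mem_Iic, PP, prod_range_succ, mul_pow, fac_sq, cos_round _ (round (γ * q ^ i)),
      sub_nonpos, mul_comm]
    refine mul_le_mul_of_nonneg_right ?_ (sq_nonneg _)
    have := cos_le_cos_of_nonneg_of_le_pi (x := 2 * π * (1 / (2 * q))) (by positivity)
      (y := 2 * π * |γ * q ^ i - round (γ * q ^ i)|)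
      (by nlinarith [abs_sub_round (γ * q ^ i), pi_pos])
      (mul_le_mul_of_nonneg_left hi two_pi_pos.le)
    linarith

lemma avg_cos (γ y0 : ℝ) (q : ℕ) (hq : 2 ≤ q) (l J j : ℕ) (hj : j < J) :
    ∑ s ∈ (range J).powerset, cos (2 * π * (γ * q ^ j * (y0 + ∑ t ∈ s, 1 / (q : ℝ) ^ (l + 1 + t))))
      ≤ 2 ^ J * PP γ q (j - l) := by
  have hq' : (0 : ℝ) < q := by exact_mod_cast (show 0 < q by omega)
  simp only [← ee_re, ← Complex.re_sum]
  simp only [mul_add, mul_sum, ee_add, ee_sum]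
  rw [← mul_sum, ← prod_one_add]
  refine (Complex.re_le_norm _).trans ?_
  rw [norm_mul, ee_norm, one_mul, norm_prod]
  have e : ∀ u, ‖1 + ee u‖ = 2 * fac u := fun u => by unfold fac; ring
  simp only [e, prod_mul_distrib, prod_const, card_range]
  refine mul_le_mul_of_nonneg_left ?_ (by positivity)
  refine (prod_le_prod_of_subset_of_le_one (s := range (j - l)) (by simp; omega)
    (fun _ _ => fac_nonneg _) fun _ _ _ => fac_le _).trans (le_of_eq ?_)
  rw [PP, ← prod_range_reflect]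
  refine prod_congr rfl fun t ht => ?_
  rw [mem_range] at ht
  obtain ⟨m, rfl⟩ : ∃ m, j = t + (l + 1 + m) := ⟨j - t - l - 1, by omega⟩
  rw [show t + (l + 1 + m) - l - 1 - t = m by omega, pow_add]
  congr 1
  field_simp

noncomputable def Φ (A : ℕ) (x : ℝ) : ℝ :=
  ∑ a ∈ range A, ∑ a' ∈ range A, cos (2 * π * (((a : ℝ) - a') * x))

lemma Φ_nonneg (A : ℕ) (x : ℝ) : 0 ≤ Φ A x := by
  have : Φ A x = (∑ a ∈ range A, cos (2 * π * (a * x))) ^ 2 +
      (∑ a ∈ range A, sin (2 * π * (a * x))) ^ 2 := by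
    simp only [Φ, sq, sum_mul_sum, ← sum_add_distrib, ← cos_sub]
    exact sum_congr rfl fun a _ => sum_congr rfl fun a' _ => by congr 1; ring
  rw [this]; positivity

lemma Φ_ge (A : ℕ) (x : ℝ) (z : ℤ) (h : |x - z| ≤ 1 / (8 * A)) : (A : ℝ) ^ 2 / 2 ≤ Φ A x := by
  have : ∑ _a ∈ range A, ∑ _a' ∈ range A, (1 / 2 : ℝ) ≤ Φ A x := by
    refine sum_le_sum fun a ha => sum_le_sum fun a' ha' => ?_
    rw [mem_range] at ha ha'
    have hA : (0 : ℝ) < A := by exact_mod_cast (show 0 < A by omega)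
    have h1 : |(a : ℝ) - a'| ≤ A := by
      have : (a : ℝ) ≤ A := by exact_mod_cast ha.le
      have : (a' : ℝ) ≤ A := by exact_mod_cast ha'.le
      rw [abs_le]; constructor <;> linarith [Nat.cast_nonneg (α := ℝ) a, Nat.cast_nonneg (α := ℝ) a']
    rw [cos_round _ ((a - a') * z), ← cos_pi_div_three]
    refine cos_le_cos_of_nonneg_of_le_pi (by positivity) (by linarith [pi_pos]) ?_
    push_cast
    rw [← mul_sub, abs_mul]
    have h2 : |(a : ℝ) - a'| * |x - z| ≤ A * (1 / (8 * A)) := by gcongr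
    have h3 : (A : ℝ) * (1 / (8 * A)) = 1 / 8 := by field_simp
    nlinarith [pi_pos]
  simp only [sum_const, card_range, nsmul_eq_mul] at this
  linarith

noncomputable def Ψ (b : ℝ) (A D J : ℕ) (y : ℝ) : ℝ :=
  ∑ j ∈ range J, ∑ d ∈ range D, ∑ d' ∈ range D,
    Φ A (b * y * 2 ^ (D * j + d) - b * y * 2 ^ (D * j + d'))

lemma Ψ_cont (b : ℝ) (A D J : ℕ) : Continuous (Ψ b A D J) := by
  unfold Ψ Φ; fun_prop

lemma Ψ_card (b : ℝ) (A D J : ℕ) (y : ℝ) (S : Finset ℕ) (hS : S ⊆ range (D * J))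
    (h : ∀ n ∈ S, ∀ n' ∈ S, ∃ z : ℤ, |b * y * 2 ^ n - b * y * 2 ^ n' - z| ≤ 1 / (8 * A)) :
    (A : ℝ) ^ 2 / 2 * (S.card : ℝ) ^ 2 ≤ J * Ψ b A D J y := by
  classical
  let c : ℕ → Finset ℕ := fun j => (range D).filter fun d => D * j + d ∈ S
  have h1 : S.card ≤ ∑ j ∈ range J, (c j).card := by
    refine le_trans (card_le_card (t := (range J).biUnion fun j => (c j).image (D * j + ·))
      fun n hn => ?_) (card_biUnion_le.trans (sum_le_sum fun j _ => card_image_le))
    have h2 := mem_range.mp (hS hn)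
    have hD : 0 < D := Nat.pos_of_mul_pos_right (lt_of_le_of_lt (Nat.zero_le _) h2) |> id
    simp only [mem_biUnion, mem_range, mem_image, c, mem_filter]
    exact ⟨n / D, Nat.div_lt_of_lt_mul h2, n % D, ⟨Nat.mod_lt _ hD, by rwa [Nat.div_add_mod]⟩,
      Nat.div_add_mod _ _⟩
  have h2 : (S.card : ℝ) ≤ ∑ j ∈ range J, ((c j).card : ℝ) := by exact_mod_cast h1
  have h3 := (pow_le_pow_left₀ (Nat.cast_nonneg _) h2 2).trans sq_sum_le_card_mul_sum_sq
  rw [card_range] at h3
  refine (mul_le_mul_of_nonneg_left h3 (by positivity)).trans ?_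
  rw [mul_left_comm, mul_sum]
  refine mul_le_mul_of_nonneg_left (sum_le_sum fun j _ => ?_) (Nat.cast_nonneg _)
  calc _ = ∑ _d ∈ c j, ∑ _d' ∈ c j, (A : ℝ) ^ 2 / 2 := by simp; ring
    _ ≤ ∑ d ∈ c j, ∑ d' ∈ c j, Φ A (b * y * 2 ^ (D * j + d) - b * y * 2 ^ (D * j + d')) := by
      refine sum_le_sum fun d hd => sum_le_sum fun d' hd' => ?_
      obtain ⟨z, hz⟩ := h _ (mem_filter.mp hd).2 _ (mem_filter.mp hd').2
      exact Φ_ge A _ z hz
    _ ≤ ∑ d ∈ c j, ∑ d' ∈ range D, Φ A (b * y * 2 ^ (D * j + d) - b * y * 2 ^ (D * j + d')) :=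
      sum_le_sum fun d _ => sum_le_sum_of_subset_of_nonneg (filter_subset _ _)
        fun _ _ _ => Φ_nonneg _ _
    _ ≤ _ := sum_le_sum_of_subset_of_nonneg (filter_subset _ _)
        fun _ _ _ => sum_nonneg fun _ _ => Φ_nonneg _ _

lemma stage (b : ℝ) (hb : Irrational b) (A D : ℕ) (hA : 1 ≤ A) (hD : A ≤ D) (y0 : ℝ) (l J0 : ℕ) :
    ∃ J, J0 ≤ J ∧ ∃ s ⊆ range J,
      Ψ b A D J (y0 + ∑ t ∈ s, 1 / ((2 ^ D : ℕ) : ℝ) ^ (l + 1 + t)) < 3 * D ^ 2 * A * J := by
  classical
  have hq : 2 ≤ 2 ^ D := le_self_pow (by norm_num) (by omega) |>.trans' (by norm_num)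
  let γ : ℕ → ℕ → ℕ → ℕ → ℝ := fun d d' a a' => ((a : ℝ) - a') * (2 ^ d - 2 ^ d') * b
  let R : ℕ → ℝ := fun j => ∑ d ∈ range D, ∑ d' ∈ range D, ∑ a ∈ range A, ∑ a' ∈ range A,
    if d = d' ∨ a = a' then 0 else PP (γ d d' a a') (2 ^ D) (j - l)
  have hR : Tendsto R atTop (𝓝 0) := by
    have : Tendsto R atTop (𝓝 (∑ _d ∈ range D, ∑ _d' ∈ range D, ∑ _a ∈ range A,
        ∑ _a' ∈ range A, (0 : ℝ))) := by
      refine tendsto_finsetSum _ fun d _ => tendsto_finsetSum _ fun d' _ =>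
        tendsto_finsetSum _ fun a _ => tendsto_finsetSum _ fun a' _ => ?_
      split_ifs with h
      · exact tendsto_const_nhds
      · refine (PP_tendsto _ ?_ _ hq).comp (tendsto_sub_atTop_nat l)
        push Not at h
        have := hb.intCast_mul (m := ((a : ℤ) - a') * (2 ^ d - 2 ^ d'))
          (mul_ne_zero (by omega) (sub_ne_zero.mpr fun h0 => h.1
            (pow_right_injective₀ (a := (2 : ℤ)) (by norm_num) (by norm_num) h0)))
        push_cast at this
        exact this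
    simpa using this
  obtain ⟨J, hJ1, hJ2⟩ := ((hR.cesaro.eventually (gt_mem_nhds one_pos)).and
    (eventually_ge_atTop (J0 + 1))).exists
  have hJ : (0 : ℝ) < J := by exact_mod_cast (show 0 < J by omega)
  rw [inv_mul_lt_iff₀ hJ, mul_one] at hJ1
  refine ⟨J, by omega, ?_⟩
  have hA' : (1 : ℝ) ≤ A := by exact_mod_cast hA
  have hD' : (A : ℝ) ≤ D := by exact_mod_cast hD
  have key : ∑ s ∈ (range J).powerset,
      Ψ b A D J (y0 + ∑ t ∈ s, 1 / ((2 ^ D : ℕ) : ℝ) ^ (l + 1 + t)) ≤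
      2 ^ J * ∑ j ∈ range J, (D * A ^ 2 + D ^ 2 * A + R j) := by
    simp only [Ψ, Φ]
    rw [sum_comm, mul_sum]
    refine sum_le_sum fun j hj => ?_
    have e : (D * A ^ 2 + D ^ 2 * A + R j : ℝ) = ∑ d ∈ range D, ∑ d' ∈ range D, ∑ a ∈ range A,
        ∑ a' ∈ range A, ((if d = d' then 1 else 0) + (if a = a' then 1 else 0) +
          if d = d' ∨ a = a' then 0 else PP (γ d d' a a') (2 ^ D) (j - l)) := by
      simp only [sum_add_distrib, R]
      congr 2
      · rw [sum_congr rfl (g := fun _ => (A : ℝ) ^ 2) fun d hd => by simp [hd, sq]]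
        simp
      · rw [sum_congr rfl (g := fun _ => (D : ℝ) * A) fun d _ => by
          rw [sum_congr rfl (g := fun _ => (A : ℝ)) fun d' _ => by
            rw [sum_congr rfl (g := fun _ => (1 : ℝ)) fun a ha => by simp [ha]]; simp]
          simp]
        simp; ring
    rw [e, sum_comm, mul_sum]
    refine sum_le_sum fun d _ => ?_
    rw [sum_comm, mul_sum]
    refine sum_le_sum fun d' _ => ?_
    rw [sum_comm, mul_sum]
    refine sum_le_sum fun a _ => ?_
    rw [sum_comm, mul_sum]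
    refine sum_le_sum fun a' _ => ?_
    refine le_trans (le_of_eq (sum_congr rfl fun s _ => ?_))
      ((avg_cos (γ d d' a a') y0 _ hq l J j (mem_range.mp hj)).trans
        (mul_le_mul_of_nonneg_left ?_ (by positivity)))
    · congr 2
      simp only [γ]
      push_cast
      rw [← pow_mul, pow_add, pow_add]; ring
    · have := PP_le (γ d d' a a') (2 ^ D) (j - l)
      by_cases h1 : d = d' <;> by_cases h2 : a = a' <;> simp [h1, h2] at this ⊢ <;> linarith
  obtain ⟨s, hs, h⟩ := exists_lt_of_sum_lt (s := (range J).powerset)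
    (g := fun _ => (3 * D ^ 2 * A * J : ℝ)) (key.trans_lt (by
      simp only [sum_add_distrib, sum_const, card_range, card_powerset, nsmul_eq_mul]
      push_cast
      refine mul_lt_mul_of_pos_left ?_ (by positivity)
      have h1 : (D : ℝ) * A ^ 2 ≤ D ^ 2 * A := by nlinarith [mul_nonneg (by linarith : (0 : ℝ) ≤ D) (by linarith : (0 : ℝ) ≤ A)]
      have h2 : (1 : ℝ) ≤ D ^ 2 * A := by nlinarith
      nlinarith))
  exact ⟨s, mem_powerset.mp hs, h⟩

def Good (b : ℝ) (e i : ℕ) (y : ℝ) : Prop :=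
  ∃ N, i ≤ N ∧ 0 < N ∧ ∀ S ⊆ range N,
    (∀ n ∈ S, ∀ n' ∈ S, ∃ z : ℤ, |b * y * 2 ^ n - b * y * 2 ^ n' - z| ≤ 1 / (8 * 2 ^ e)) →
      (S.card : ℝ) ^ 2 ≤ 6 / 2 ^ e * N ^ 2

lemma step (b : ℝ) (hb : Irrational b) (F : Finset ℕ) (L i : ℕ) (hF : F ⊆ range L) :
    ∃ (F' : Finset ℕ) (L' : ℕ), F' ⊆ range L' ∧ F ⊆ F' ∧ L < L' ∧
      (∀ v ∈ F', v ∉ F → L ≤ v ∧ ∀ u ∈ F', u < v → u + i ≤ v) ∧
      ∀ y, |y - ∑ n ∈ F', 1 / (2 : ℝ) ^ n| ≤ 2 / 2 ^ L' → Good b (Nat.unpair i).1 i y := by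
  classical
  generalize (Nat.unpair i).1 = e
  obtain ⟨D, hD1, hD2⟩ : ∃ D, 2 ^ e ≤ D ∧ i < D := ⟨2 ^ e + i, by omega, by
    have := Nat.two_pow_pos e; omega⟩
  obtain ⟨J, hJ, s, hs, h⟩ := stage b hb (2 ^ e) D Nat.one_le_two_pow hD1
    (∑ n ∈ F, 1 / (2 : ℝ) ^ n) L 1
  have big : ∀ t, L + D ≤ D * (L + 1 + t) := fun t => by nlinarith
  have hv : ∑ n ∈ F ∪ s.image fun t => D * (L + 1 + t), 1 / (2 : ℝ) ^ n =
      ∑ n ∈ F, 1 / (2 : ℝ) ^ n + ∑ t ∈ s, 1 / ((2 ^ D : ℕ) : ℝ) ^ (L + 1 + t) := by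
    rw [sum_union, sum_image]
    · simp [pow_mul]
    · intro t _ t' _ h
      have := Nat.eq_of_mul_eq_mul_left (by omega) h
      omega
    · refine disjoint_left.mpr fun n hn hn' => ?_
      obtain ⟨t, -, rfl⟩ := mem_image.mp hn'
      have := mem_range.mp (hF hn)
      have := big t
      omega
  rw [← hv] at h
  obtain ⟨δ, hδ, hball⟩ := Metric.eventually_nhds_iff.mp
    (((Ψ_cont b (2 ^ e) D J).tendsto _).eventually (gt_mem_nhds h))
  obtain ⟨m, hm⟩ := pow_unbounded_of_one_lt (2 / δ) (show (1 : ℝ) < 2 by norm_num)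
  refine ⟨F ∪ s.image fun t => D * (L + 1 + t), m + D * (L + 1 + J), fun n hn => ?_,
    subset_union_left, by have := big J; omega,
    fun v hv hvF => ?_, fun y hy => ⟨D * J, by nlinarith, Nat.mul_pos (by omega) hJ,
      fun S hS hz => ?_⟩⟩
  · rw [mem_range]
    rcases mem_union.mp hn with h1 | h1
    · have := mem_range.mp (hF h1)
      have := big J
      omega
    · obtain ⟨t, ht, rfl⟩ := mem_image.mp h1
      have := mem_range.mp (hs ht)
      have : D * (L + 1 + t) < D * (L + 1 + J) := Nat.mul_lt_mul_of_pos_left (by omega) (by omega)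
      omega
  · obtain ⟨t, -, rfl⟩ := mem_image.mp ((mem_union.mp hv).resolve_left hvF)
    have := big t
    refine ⟨by omega, fun u hu huv => ?_⟩
    rcases mem_union.mp hu with h1 | h1
    · have := mem_range.mp (hF h1)
      omega
    · obtain ⟨t', -, rfl⟩ := mem_image.mp h1
      have h2 := Nat.lt_of_mul_lt_mul_left huv
      have : D * (L + 1 + t' + 1) ≤ D * (L + 1 + t) := Nat.mul_le_mul_left _ h2
      rw [Nat.mul_succ] at this
      omega
  · have h1 : Ψ b (2 ^ e) D J y < _ := hball (by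
      rw [Real.dist_eq]
      refine hy.trans_lt ?_
      rw [div_lt_iff₀ hδ] at hm
      rw [div_lt_iff₀ (by positivity)]
      have : (2 : ℝ) ^ m ≤ 2 ^ (m + D * (L + 1 + J)) := pow_le_pow_right₀ (by norm_num) (by omega)
      nlinarith)
    have h2 := Ψ_card b (2 ^ e) D J y S hS (by simpa using hz)
    have h3 := mul_le_mul_of_nonneg_left h1.le (Nat.cast_nonneg (α := ℝ) J)
    push_cast at h2 h3 ⊢
    rw [div_mul_eq_mul_div, le_div_iff₀ (by positivity)]
    have h4 : (0 : ℝ) < 2 ^ e := by positivity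
    refine le_of_mul_le_mul_left ?_ h4
    nlinarith

noncomputable def dig (x : ℝ) (n : ℕ) : ℤ :=
  ⌊x * ((2 : ℕ) : ℝ) ^ (n + 1)⌋ - ((2 : ℕ) : ℤ) * ⌊x * ((2 : ℕ) : ℝ) ^ n⌋

lemma dig_eq (x : ℝ) (n : ℕ) : dig x n = ⌊x * 2 ^ (n + 1)⌋ - 2 * ⌊x * 2 ^ n⌋ := by simp [dig]

lemma exists_y (b : ℝ) (hb : Irrational b) : ∃ y : ℝ,
    Tendsto (fun N : ℕ => (((range N).filter fun n => dig y n ≠ 0).card : ℝ) / N) atTop (𝓝 0) ∧
      ∀ i, Good b (Nat.unpair i).1 i y := by
  classical
  choose! f g h using step b hb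
  let σ : ℕ → Finset ℕ × ℕ := fun i =>
    Nat.rec (∅, 0) (fun i p => (f p.1 p.2 i, g p.1 p.2 i)) i
  have inv : ∀ i, (σ i).1 ⊆ range (σ i).2 := fun i => by
    induction i with
    | zero => exact empty_subset _
    | succ i ih => exact (h _ _ i ih).1
  have hs := fun i => (h _ _ i (inv i)).2
  change ∀ i, (σ i).1 ⊆ (σ (i + 1)).1 ∧ (σ i).2 < (σ (i + 1)).2 ∧
    (∀ v ∈ (σ (i + 1)).1, v ∉ (σ i).1 → (σ i).2 ≤ v ∧ ∀ u ∈ (σ (i + 1)).1, u < v → u + i ≤ v) ∧
    ∀ y, |y - ∑ n ∈ (σ (i + 1)).1, 1 / (2 : ℝ) ^ n| ≤ 2 / 2 ^ (σ (i + 1)).2 → _ at hs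
  have h0 : (σ 0).1 = ∅ := rfl
  clear_value σ
  clear h f g
  have mF : Monotone fun i => (σ i).1 := monotone_nat_of_le_succ fun i => (hs i).1
  have mL : Monotone fun i => (σ i).2 := monotone_nat_of_le_succ fun i => (hs i).2.1.le
  let S : ℕ → Prop := fun n => ∃ i, n ∈ (σ i).1
  have hA : ∀ i n, S n → n < (σ i).2 → n ∈ (σ i).1 := by
    rintro i n ⟨j, hj⟩ hn
    induction j with
    | zero => simp [h0] at hj
    | succ j ih =>
      by_cases h1 : n ∈ (σ j).1
      · exact ih h1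
      · by_cases h2 : j + 1 ≤ i
        · exact mF h2 hj
        · have := ((hs j).2.2.1 n hj h1).1
          have : (σ i).2 ≤ (σ j).2 := mL (by omega)
          omega
  have hB : ∀ i v u, S v → (σ i).2 ≤ v → S u → u < v → u + i ≤ v := by
    rintro i v u ⟨j, hj⟩ hv hu huv
    induction j with
    | zero => simp [h0] at hj
    | succ j ih =>
      by_cases h1 : v ∈ (σ j).1
      · exact ih h1
      · have h2 := mem_range.mp (inv _ hj)
        have h3 := ((hs j).2.2.1 v hj h1).2 u (hA _ _ hu (by omega)) huv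
        by_cases h4 : j + 1 ≤ i
        · have : (σ (j + 1)).2 ≤ (σ i).2 := mL h4
          omega
        · omega
  let c : ℕ → ℝ := fun n => if S n then 1 / 2 ^ n else 0
  have c0 : ∀ n, 0 ≤ c n := fun n => by simp only [c]; split_ifs <;> positivity
  have c1 : ∀ n, c n ≤ (1 / 2) ^ n := fun n => by
    simp only [c]; split_ifs <;> simp
  have hc : Summable c := summable_geometric_two.of_nonneg_of_le c0 c1
  have tail : ∀ n, 0 ≤ ∑' s, c s - ∑ s ∈ range n, c s ∧
      ∑' s, c s - ∑ s ∈ range n, c s ≤ 2 / 2 ^ n := fun n => by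
    rw [← hc.sum_add_tsum_nat_add n, add_sub_cancel_left]
    refine ⟨tsum_nonneg fun _ => c0 _, ?_⟩
    refine (((summable_nat_add_iff n).mpr hc).tsum_le_tsum (fun s => c1 (s + n))
      ((summable_nat_add_iff n).mpr summable_geometric_two)).trans (le_of_eq ?_)
    simp only [pow_add, tsum_mul_right, tsum_geometric_two]
    simp [div_eq_mul_inv]
  refine ⟨∑' s, c s, ?_, fun i => (hs i).2.2.2 _ ?_⟩
  · have hd : ∀ n, ¬ S (n + 1) → ¬ S (n + 2) → dig (∑' s, c s) n = 0 := by
      intro n h1 h2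
      obtain ⟨z, hz⟩ : ∃ z : ℤ, (∑ s ∈ range (n + 1), c s) * 2 ^ n = z := by
        refine ⟨∑ s ∈ range (n + 1), if S s then 2 ^ (n - s) else 0, ?_⟩
        rw [sum_mul]
        push_cast
        refine sum_congr rfl fun s hs => ?_
        simp only [c]
        split_ifs
        · rw [pow_sub₀ _ two_ne_zero (by simpa [Nat.lt_succ_iff] using hs)]; ring
        · simp
      obtain ⟨h3, h4⟩ := tail (n + 3)
      rw [sum_range_succ, sum_range_succ] at h3 h4
      simp only [c, h1, h2, if_false, add_zero] at h3 h4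
      change 0 ≤ ∑' s, c s - ∑ s ∈ range (n + 1), c s at h3
      change ∑' s, c s - ∑ s ∈ range (n + 1), c s ≤ _ at h4
      rw [le_div_iff₀ (by positivity), pow_add] at h4
      have h5 := mul_nonneg h3 (show (0 : ℝ) ≤ 2 ^ n by positivity)
      have h6 : ⌊(∑' s, c s) * 2 ^ n⌋ = z := Int.floor_eq_iff.mpr ⟨by linarith, by linarith⟩
      have h7 : ⌊(∑' s, c s) * 2 ^ (n + 1)⌋ = 2 * z := by
        rw [Int.floor_eq_iff, pow_succ]; push_cast; constructor <;> linarith
      rw [dig_eq, h6, h7, sub_self]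
    have hcnt : ∀ i M, 0 < i → ((range M).filter S).card ≤ (σ i).2 + (M / i + 1) := by
      intro i M hi
      refine (card_le_card (t := range (σ i).2 ∪ ((range M).filter fun v => S v ∧ (σ i).2 ≤ v))
        fun v hv => ?_).trans ((card_union_le _ _).trans ?_)
      · simp only [mem_union, mem_filter, mem_range] at hv ⊢
        by_cases h : v < (σ i).2
        · exact Or.inl h
        · exact Or.inr ⟨hv.1, hv.2, by omega⟩
      · rw [card_range, add_le_add_iff_left, ← card_range (M / i + 1)]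
        refine card_le_card_of_injOn (· / i) (fun v hv => ?_) fun u hu v hv huv => ?_
        · simp only [coe_filter, mem_range, Set.mem_ofPred_eq, coe_range, Set.mem_Iio] at hv ⊢
          exact Nat.lt_succ_of_le (Nat.div_le_div_right hv.1.le)
        · simp only [coe_filter, mem_range, Set.mem_ofPred_eq] at hu hv huv
          have aux : ∀ u v, u + i ≤ v → u / i ≠ v / i := fun u v h => by
            have := Nat.div_le_div_right (c := i) h
            rw [Nat.add_div_right _ hi] at this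
            omega
          rcases lt_trichotomy u v with h | h | h
          · exact (aux u v (hB i v u hv.2.1 hv.2.2 hu.2.1 h) huv).elim
          · exact h
          · exact (aux v u (hB i u v hu.2.1 hu.2.2 hv.2.1 h) huv.symm).elim
    have hB2 : ∀ N, ((range N).filter fun n => dig (∑' s, c s) n ≠ 0).card ≤
        2 * ((range (N + 2)).filter S).card := by
      intro N
      have aux : ∀ j ≤ 2, ((range N).filter fun n => S (n + j)).card ≤
          ((range (N + 2)).filter S).card := fun j hj =>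
        card_le_card_of_injOn (· + j) (fun v hv => by
          simp only [coe_filter, mem_range, Set.mem_ofPred_eq] at hv ⊢
          exact ⟨by omega, hv.2⟩) fun u _ v _ h => by simpa using h
      refine (card_le_card (t := ((range N).filter fun n => S (n + 1)) ∪
        ((range N).filter fun n => S (n + 2))) fun v hv => ?_).trans ((card_union_le _ _).trans ?_)
      · simp only [mem_union, mem_filter] at hv ⊢
        by_contra hn
        exact hv.2 (hd v (fun h => hn (Or.inl ⟨hv.1, h⟩)) fun h => hn (Or.inr ⟨hv.1, h⟩))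
      · have := aux 1 (by omega)
        have := aux 2 le_rfl
        omega
    refine tendsto_order.mpr ⟨fun a ha => Eventually.of_forall fun N =>
      ha.trans_le (by positivity), fun a ha => ?_⟩
    obtain ⟨i, hi⟩ := exists_nat_gt (4 / a)
    have hi0 : (0 : ℝ) < i := lt_trans (by positivity) hi
    rw [div_lt_iff₀ ha] at hi
    filter_upwards [(tendsto_const_div_atTop_nhds_zero_nat (2 * ((σ i).2 + 3) : ℝ)).eventually
      (gt_mem_nhds (half_pos ha)), eventually_gt_atTop 0] with N h1 h2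
    have hN : (0 : ℝ) < N := by exact_mod_cast h2
    have h3 := (hB2 N).trans (Nat.mul_le_mul_left 2 (hcnt i (N + 2) (by exact_mod_cast hi0)))
    have h4 : (((N + 2) / i : ℕ) : ℝ) ≤ ((N + 2 : ℕ) : ℝ) / i := Nat.cast_div_le
    have h5 : ((N + 2 : ℕ) : ℝ) / i ≤ 2 + a / 4 * N := by
      have : (1 : ℝ) ≤ i := by exact_mod_cast (show 0 < i by exact_mod_cast hi0)
      rw [div_le_iff₀ hi0]; push_cast; nlinarith
    rw [div_lt_iff₀ hN] at h1 ⊢
    have h6 := (Nat.cast_le (α := ℝ)).mpr h3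
    rw [Nat.cast_mul, Nat.cast_add, Nat.cast_add] at h6
    push_cast at h1 h6 h4 h5 ⊢
    linarith
  · have : ∑ n ∈ (σ (i + 1)).1, 1 / (2 : ℝ) ^ n = ∑ s ∈ range (σ (i + 1)).2, c s := by
      simp only [c]
      rw [← sum_filter]
      refine sum_congr ?_ fun _ _ => rfl
      ext n
      simp only [mem_filter, mem_range]
      exact ⟨fun h => ⟨mem_range.mp (inv _ h), _, h⟩, fun h => hA _ _ h.2 h.1⟩
    rw [this, abs_of_nonneg (tail _).1]
    exact (tail _).2

lemma dig_mem (x : ℝ) (n : ℕ) : ∃ c : Fin 2, dig x n = ((c : ℕ) : ℤ) := by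
  have h1 := Int.floor_le (x * 2 ^ n)
  have h2 := Int.lt_floor_add_one (x * 2 ^ n)
  have h3 : 2 * ⌊x * 2 ^ n⌋ ≤ ⌊x * 2 ^ (n + 1)⌋ := by
    rw [Int.le_floor, pow_succ]; push_cast; linarith
  have h4 : ⌊x * 2 ^ (n + 1)⌋ < 2 * ⌊x * 2 ^ n⌋ + 2 := by
    rw [Int.floor_lt, pow_succ]; push_cast; linarith
  rw [dig_eq]
  by_cases h : ⌊x * 2 ^ (n + 1)⌋ = 2 * ⌊x * 2 ^ n⌋
  · exact ⟨0, by simp [h]⟩
  · exact ⟨1, by simp; omega⟩

lemma close (x : ℝ) (k n n' : ℕ) (h : ∀ i < k, dig x (n + i) = dig x (n' + i)) :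
    ∃ z : ℤ, |x * 2 ^ n - x * 2 ^ n' - z| ≤ 1 / 2 ^ k := by
  have h1 : ⌊x * 2 ^ (n + k)⌋ - ⌊x * 2 ^ (n' + k)⌋ = 2 ^ k * (⌊x * 2 ^ n⌋ - ⌊x * 2 ^ n'⌋) := by
    induction k with
    | zero => simp
    | succ k ih =>
      have h2 := h k (by omega)
      have h3 := ih fun i hi => h i (by omega)
      rw [dig_eq, dig_eq] at h2
      rw [← add_assoc, ← add_assoc, pow_succ' (2 : ℤ)]
      linarith
  refine ⟨⌊x * 2 ^ n⌋ - ⌊x * 2 ^ n'⌋, ?_⟩
  have h2 := congrArg (Int.cast (R := ℝ)) h1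
  have a1 := Int.floor_le (x * 2 ^ (n + k))
  have a2 := Int.lt_floor_add_one (x * 2 ^ (n + k))
  have a3 := Int.floor_le (x * 2 ^ (n' + k))
  have a4 := Int.lt_floor_add_one (x * 2 ^ (n' + k))
  push_cast at h2 ⊢
  generalize (⌊x * 2 ^ (n + k)⌋ : ℝ) = p at *
  generalize (⌊x * 2 ^ (n' + k)⌋ : ℝ) = p' at *
  rw [pow_add] at a1 a2 a3 a4
  rw [le_div_iff₀ (by positivity), ← abs_of_pos (show (0 : ℝ) < 2 ^ k by positivity), ← abs_mul,
    abs_le]
  constructor <;> linarith

lemma ent (x : ℝ) (k N : ℕ) (hN : 0 < N) (M : ℝ) (hM : 0 < M) (hM1 : M ≤ 1)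
    (h : ∀ w : Fin k → Fin 2,
      (((range N).filter fun n => ∀ i : Fin k, dig x (n + i) = ((w i : ℕ) : ℤ)).card : ℝ) ≤ M * N) :
    -log M ≤ ∑ w : Fin k → Fin 2, negMulLog
      ((((range N).filter fun n => ∀ i : Fin k, dig x (n + i) = ((w i : ℕ) : ℤ)).card : ℝ) / N) := by
  classical
  have hN' : (0 : ℝ) < N := by exact_mod_cast hN
  have h1 : N ≤ ∑ w : Fin k → Fin 2,
      ((range N).filter fun n => ∀ i : Fin k, dig x (n + i) = ((w i : ℕ) : ℤ)).card := by
    refine le_trans ((card_range N).ge.trans (card_le_card fun n hn => ?_)) card_biUnion_le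
    choose w hw using fun i : Fin k => dig_mem x (n + i)
    exact mem_biUnion.mpr ⟨w, mem_univ _, mem_filter.mpr ⟨hn, hw⟩⟩
  have h2 : (1 : ℝ) ≤ ∑ w : Fin k → Fin 2,
      (((range N).filter fun n => ∀ i : Fin k, dig x (n + i) = ((w i : ℕ) : ℤ)).card : ℝ) / N := by
    rw [← sum_div, one_le_div hN']
    exact_mod_cast h1
  have h3 : 0 ≤ -log M := neg_nonneg.mpr (log_nonpos hM.le hM1)
  refine (le_mul_of_one_le_right h3 h2).trans ?_
  rw [mul_sum]
  refine sum_le_sum fun w _ => ?_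
  have h4 := (div_le_iff₀ hN').mpr (h w)
  generalize hp : (((range N).filter fun n => ∀ i : Fin k,
    dig x (n + i) = ((w i : ℕ) : ℤ)).card : ℝ) / N = p at h4
  have h5 : 0 ≤ p := by rw [← hp]; positivity
  rcases h5.eq_or_lt with rfl | h6
  · simp
  · have := log_le_log h6 h4
    rw [negMulLog]
    nlinarith

lemma notD (b y : ℝ) (h : ∀ i, Good b (Nat.unpair i).1 i y) (k : ℕ) (hk : 1 ≤ k) (N0 : ℕ) :
    ∃ N, N0 ≤ N ∧ 1 / 1000 * (k : ℝ) < ∑ w : Fin k → Fin 2, negMulLog ((((range N).filter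
      fun n => ∀ i : Fin k, dig (b * y) (n + i) = ((w i : ℕ) : ℤ)).card : ℝ) / N) := by
  classical
  by_cases hk' : 12 ≤ k
  · obtain ⟨e, rfl⟩ : ∃ e, k = e + 3 := ⟨k - 3, by omega⟩
    obtain ⟨N, h1, h2, h3⟩ := h (Nat.pair e N0)
    rw [Nat.unpair_pair] at h3
    refine ⟨N, (Nat.right_le_pair _ _).trans h1, lt_of_lt_of_le ?_
      (ent _ _ N h2 ((9 / 10) ^ (e + 3)) (by positivity) (pow_le_one₀ (by norm_num) (by norm_num))
        fun w => ?_)⟩
    · rw [log_pow]
      have := log_le_sub_one_of_pos (show (0 : ℝ) < 9 / 10 by norm_num)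
      have : (0 : ℝ) < ((e + 3 : ℕ) : ℝ) := by positivity
      nlinarith
    · have h4 := h3 _ (filter_subset (fun n => ∀ i : Fin (e + 3),
          dig (b * y) (n + i) = ((w i : ℕ) : ℤ)) _) fun n hn n' hn' => by
        obtain ⟨z, hz⟩ := close (b * y) (e + 3) n n' fun i hi =>
          ((mem_filter.mp hn).2 ⟨i, hi⟩).trans ((mem_filter.mp hn').2 ⟨i, hi⟩).symm
        exact ⟨z, hz.trans (le_of_eq (by rw [pow_add]; ring))⟩
      refine (pow_le_pow_iff_left₀ (by positivity) (by positivity) two_ne_zero).mp (h4.trans ?_)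
      rw [mul_pow]
      refine mul_le_mul_of_nonneg_right ?_ (by positivity)
      have h5 : ((81 : ℝ) / 50) ^ 9 ≤ (81 / 50) ^ e := pow_le_pow_right₀ (by norm_num) (by omega)
      have h6 : (((9 : ℝ) / 10) ^ (e + 3)) ^ 2 * 2 ^ e = (81 / 50) ^ e * (81 / 100) ^ 3 := by
        rw [← pow_mul, mul_comm (e + 3), pow_mul, pow_add, mul_right_comm, ← mul_pow]; norm_num
      rw [div_le_iff₀ (by positivity), h6]
      norm_num at h5 ⊢
      linarith
  · obtain ⟨N, h1, h2, h3⟩ := h (Nat.pair 9 (N0 + 576))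
    rw [Nat.unpair_pair] at h3
    have h1' := (Nat.right_le_pair _ _).trans h1
    refine ⟨N, by omega, lt_of_lt_of_le ?_
      (ent _ _ N h2 (47 / 48) (by norm_num) (by norm_num) fun w => ?_)⟩
    · have := log_le_sub_one_of_pos (show (0 : ℝ) < 47 / 48 by norm_num)
      have : (k : ℝ) ≤ 11 := by exact_mod_cast (show k ≤ 11 by omega)
      linarith
    · generalize hc : ((w ⟨0, hk⟩ : ℕ) : ℤ) = c
      have h4 := h3 ((range N).filter fun n : ℕ => ∀ i : ℕ, i < 12 → dig (b * y) (n + i) = c)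
        (filter_subset _ _) fun n hn n' hn' => by
          rw [mem_filter] at hn hn'
          obtain ⟨z, hz⟩ := close (b * y) 12 n n' fun i hi =>
            (hn.2 i hi).trans (hn'.2 i hi).symm
          exact ⟨z, hz.trans (by norm_num)⟩
      have h5 : N ≤ ((range N).filter fun n : ℕ => ∀ i : ℕ, i < 12 → dig (b * y) (n + i) = c).card +
          ∑ _i ∈ range 12, (((range N).filter fun n => dig (b * y) n ≠ c).card + 12) := by
        refine ((card_range N).ge.trans (card_le_card (t := ((range N).filter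
          fun n : ℕ => ∀ i : ℕ, i < 12 → dig (b * y) (n + i) = c) ∪ (range 12).biUnion fun i =>
          (range N).filter fun n => dig (b * y) (n + i) ≠ c) fun n hn => ?_)).trans
          ((card_union_le _ _).trans (add_le_add le_rfl (card_biUnion_le.trans
            (sum_le_sum fun i hi => ?_))))
        · simp only [mem_union, mem_filter, mem_biUnion, hn, true_and, mem_range (n := 12)]
          by_contra hh
          push Not at hh
          obtain ⟨⟨i, hi, hi'⟩, hh⟩ := hh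
          exact hi' (hh i hi)
        · refine (card_le_card_of_injOn (· + i) (t := ((range N).filter
            fun n => dig (b * y) n ≠ c) ∪ Ico N (N + 12)) (fun v hv => ?_)
            fun u _ v _ h => by simpa using h).trans ((card_union_le _ _).trans (by simp))
          simp only [coe_filter, mem_range, Set.mem_ofPred_eq, coe_union, Set.mem_union,
            coe_Ico, Set.mem_Ico] at hv hi ⊢
          by_cases hh : v + i < N
          · exact Or.inl ⟨hh, hv.2⟩
          · exact Or.inr ⟨by omega, by omega⟩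
      have h6 : ((range N).filter fun n => ∀ i : Fin k,
          dig (b * y) (n + i) = ((w i : ℕ) : ℤ)).card +
          ((range N).filter fun n => dig (b * y) n ≠ c).card ≤ N := by
        rw [← card_union_of_disjoint]
        · exact (card_le_card (union_subset (filter_subset _ _) (filter_subset _ _))).trans
            (card_range N).le
        · exact disjoint_filter.mpr fun n _ h7 h8 => h8 (hc ▸ h7 ⟨0, hk⟩)
      rw [sum_const, card_range, smul_eq_mul] at h5
      have h7 := (Nat.cast_le (α := ℝ)).mpr h5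
      have h8 := (Nat.cast_le (α := ℝ)).mpr h6
      have h9 := (Nat.cast_le (α := ℝ)).mpr h1'
      push_cast at h7 h8 h9
      have h10 : (((range N).filter fun n : ℕ => ∀ i : ℕ, i < 12 → dig (b * y) (n + i) = c).card : ℝ) ≤
          N / 2 := by
        refine (pow_le_pow_iff_left₀ (by positivity) (by positivity) two_ne_zero).mp (h4.trans ?_)
        nlinarith [sq_nonneg (N : ℝ)]
      linarith [Nat.cast_nonneg (α := ℝ) N0]

lemma isD (y : ℝ) (h : Tendsto
    (fun N : ℕ => (((range N).filter fun n => dig y n ≠ 0).card : ℝ) / N) atTop (𝓝 0))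
    (w : Fin 1 → Fin 2) : Tendsto (fun N : ℕ => negMulLog ((((range N).filter
      fun n => ∀ i : Fin 1, dig y (n + i) = ((w i : ℕ) : ℤ)).card : ℝ) / N)) atTop (𝓝 0) := by
  simp only [Fin.forall_fin_one, Fin.val_zero, add_zero]
  by_cases hw : ((w 0 : ℕ) : ℤ) = 0
  · rw [hw, ← negMulLog_one]
    refine (continuous_negMulLog.tendsto 1).comp ?_
    have h1 := h.const_sub 1
    rw [sub_zero] at h1
    refine h1.congr' ((eventually_gt_atTop 0).mono fun N hN => ?_)
    have hN' : (N : ℝ) ≠ 0 := by positivity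
    have h2 := congrArg (Nat.cast (R := ℝ))
      (card_filter_add_card_filter_not (s := range N) fun n => dig y n = 0)
    rw [card_range] at h2
    push_cast at h2
    simp only
    rw [eq_div_iff hN', sub_mul, div_mul_cancel₀ _ hN']
    linarith
  · rw [← negMulLog_zero]
    refine (continuous_negMulLog.tendsto 0).comp (squeeze_zero (fun N => by positivity)
      (fun N => div_le_div_of_nonneg_right ?_ (Nat.cast_nonneg _)) h)
    refine Nat.cast_le.mpr (card_le_card fun n hn => ?_)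
    rw [mem_filter] at hn ⊢
    exact ⟨hn.1, fun h2 => hw (hn.2.symm.trans h2)⟩


/-- The negation of the preceding statement: For every base r≥2 there is an irrational b such that whenever the base-r digits of y have zero entropy along every limiting block-frequency distribution (deterministic), so do the digits of b·y. -/
theorem result :
    ¬ (∀ D : ℕ → ℝ → Prop,
    (∀ (r : ℕ) (y : ℝ), D r y ↔
      ∀ ε : ℝ, 0 < ε → ∃ k : ℕ, 1 ≤ k ∧ ∃ N₀ : ℕ, ∀ N : ℕ, N₀ ≤ N →
        ∑ w : Fin k → Fin r,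
          Real.negMulLog
            ((((Finset.range N).filter (fun n => ∀ i : Fin k,
                ⌊y * (r : ℝ) ^ (n + (i : ℕ) + 1)⌋ - (r : ℤ) * ⌊y * (r : ℝ) ^ (n + (i : ℕ))⌋
                  = ((w i : ℕ) : ℤ))).card : ℝ) / (N : ℝ))
          ≤ ε * (k : ℝ)) →
    ∀ r : ℕ, 2 ≤ r → ∃ b : ℝ, Irrational b ∧ ∀ y : ℝ, D r y → D r (b * y)) := by
  intro H
  obtain ⟨b, hb, h⟩ := H _ (fun _ _ => Iff.rfl) 2 le_rfl
  obtain ⟨y, h1, h2⟩ := exists_y b hb
  obtain ⟨k, hk, N0, h3⟩ := h y (fun ε hε => by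
    have h4 := tendsto_finsetSum Finset.univ fun w _ => isD y h1 w
    rw [sum_const_zero] at h4
    obtain ⟨N0, h5⟩ := eventually_atTop.mp (h4.eventually (ge_mem_nhds hε))
    exact ⟨1, le_rfl, N0, fun N hN => (h5 N hN).trans (by simp)⟩) (1 / 1000) (by norm_num)
  obtain ⟨N, h4, h5⟩ := notD b y h2 k hk N0
  exact h5.not_ge (h3 N h4)

end Pool.Agent.S06702
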