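import Pool.Statements.S06705
import Pool.Agent.H41.Fdc0

set_option autoImplicit false
open Pool Pool.MP_f478ee_an

namespace Pool.Agent.S06705

/-- Every countable group that has finite decomposition complexity for some proper length function admits a continuous action on the Cantor space ℕ→Bool whose transformation groupoid has finite dynamical complexity. -/
theorem result :
    ∀ (Γ : Type) [Group Γ] [Countable Γ],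
      (∃ ℓ : Γ → ℝ, (∀ g, 0 ≤ ℓ g) ∧ (∀ g, ℓ g = 0 ↔ g = 1) ∧ (∀ g, ℓ g⁻¹ = ℓ g) ∧
        (∀ g h, ℓ (g * h) ≤ ℓ g + ℓ h) ∧ (∀ R : ℝ, Set.Finite {g | ℓ g ≤ R}) ∧
        ∀ 𝒞 : Set (Set (Set Γ)),
          (∀ 𝒴 : Set (Set Γ), 𝒴.PairwiseDisjoint id →
            (∃ R : ℝ, ∀ Y ∈ 𝒴, ∀ a ∈ Y, ∀ b ∈ Y, ℓ (a⁻¹ * b) ≤ R) → 𝒴 ∈ 𝒞) →
          (∀ 𝒴 : Set (Set Γ), 𝒴.PairwiseDisjoint id →
            (∀ r : ℝ, 0 ≤ r → ∃ 𝒵₀ ∈ 𝒞, ∃ 𝒵₁ ∈ 𝒞, ∀ Y ∈ 𝒴, ∃ Y₀ Y₁ : Set Γ, Y = Y₀ ∪ Y₁ ∧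
              ∃ P₀ P₁ : Set (Set Γ), ⋃₀ P₀ = Y₀ ∧ ⋃₀ P₁ = Y₁ ∧
                (∀ A ∈ P₀, ∀ B ∈ P₀, A ≠ B → ∀ a ∈ A, ∀ b ∈ B, 2 * r < ℓ (a⁻¹ * b)) ∧
                (∀ A ∈ P₁, ∀ B ∈ P₁, A ≠ B → ∀ a ∈ A, ∀ b ∈ B, 2 * r < ℓ (a⁻¹ * b)) ∧
                (∀ A ∈ P₀, {y ∈ Y | ∃ z ∈ A, ℓ (y⁻¹ * z) < r} ∈ 𝒵₀) ∧
                (∀ A ∈ P₁, {y ∈ Y | ∃ z ∈ A, ℓ (y⁻¹ * z) < r} ∈ 𝒵₁)) → 𝒴 ∈ 𝒞) →
          ({Set.univ} : Set (Set Γ)) ∈ 𝒞) →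
      ∃ act : Γ → (ℕ → Bool) → (ℕ → Bool),
        (∀ g, Continuous (act g)) ∧ (∀ x, act 1 x = x) ∧
        (∀ (g h : Γ) (x : ℕ → Bool), act (g * h) x = act g (act h x)) ∧
        ∀ 𝒞 : Set (Set (Γ × (ℕ → Bool))),
          (∀ H : Set (Γ × (ℕ → Bool)),
            ((∀ (g h : Γ) (x : ℕ → Bool), (g, act h x) ∈ H → (h, x) ∈ H → (g * h, x) ∈ H) ∧
              (∀ (g : Γ) (x : ℕ → Bool), (g, x) ∈ H → (g⁻¹, act g x) ∈ H)) →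
            (∀ g : Γ, IsOpen {x : ℕ → Bool | (g, x) ∈ H}) →
            Set.Finite {g : Γ | ∃ x : ℕ → Bool, (g, x) ∈ H} → H ∈ 𝒞) →
          (∀ H : Set (Γ × (ℕ → Bool)),
            ((∀ (g h : Γ) (x : ℕ → Bool), (g, act h x) ∈ H → (h, x) ∈ H → (g * h, x) ∈ H) ∧
              (∀ (g : Γ) (x : ℕ → Bool), (g, x) ∈ H → (g⁻¹, act g x) ∈ H)) →
            (∀ g : Γ, IsOpen {x : ℕ → Bool | (g, x) ∈ H}) →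
            (∀ K : Set (Γ × (ℕ → Bool)), K ⊆ H →
              (∀ g : Γ, IsOpen {x : ℕ → Bool | (g, x) ∈ K}) →
              Set.Finite {g : Γ | ∃ x : ℕ → Bool, (g, x) ∈ K} →
              ∃ U₀ U₁ : Set (ℕ → Bool), IsOpen U₀ ∧ IsOpen U₁ ∧
                {x : ℕ → Bool | ((1 : Γ), x) ∈ H} ⊆ U₀ ∪ U₁ ∧
                ⋂₀ {S : Set (Γ × (ℕ → Bool)) |
                    ((∀ (g h : Γ) (x : ℕ → Bool), (g, act h x) ∈ S → (h, x) ∈ S → (g * h, x) ∈ S) ∧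
                      (∀ (g : Γ) (x : ℕ → Bool), (g, x) ∈ S → (g⁻¹, act g x) ∈ S)) ∧
                    {k ∈ K | k.2 ∈ U₀} ⊆ S} ∈ 𝒞 ∧
                ⋂₀ {S : Set (Γ × (ℕ → Bool)) |
                    ((∀ (g h : Γ) (x : ℕ → Bool), (g, act h x) ∈ S → (h, x) ∈ S → (g * h, x) ∈ S) ∧
                      (∀ (g : Γ) (x : ℕ → Bool), (g, x) ∈ S → (g⁻¹, act g x) ∈ S)) ∧
                    {k ∈ K | k.2 ∈ U₁} ⊆ S} ∈ 𝒞) →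
            H ∈ 𝒞) →
          (Set.univ : Set (Γ × (ℕ → Bool))) ∈ 𝒞 := by
  intro Γ _ _ ⟨ℓ, _, h1, hi, _, hp, H⟩
  have hg : Pool.Agent.H41.Fdc0.Good ({Set.univ} : Set (Set Γ)) := by
    refine H {𝒴 | Pool.Agent.H41.Fdc0.Good 𝒴}
      (fun 𝒴 hd hb => Pool.Agent.H41.Fdc0.good_base ℓ hi hp 𝒴 hd hb) (fun 𝒴 hd h => ?_)
    refine Pool.Agent.H41.Fdc0.good_step ℓ ((h1 1).2 rfl) 𝒴 hd fun r hr => ?_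
    obtain ⟨Z0, g0, Z1, g1, hY⟩ := h r hr
    refine ⟨Z0, g0, Z1, g1, fun Y hy => ?_⟩
    obtain ⟨Y0, Y1, e, P0, P1, e0, e1, -, -, k0, k1⟩ := hY Y hy
    exact ⟨Y0, Y1, e, P0, P1, e0, e1, k0, k1⟩
  obtain ⟨M, hM⟩ := Pool.Agent.H41.Fdc0.main hg
  exact ⟨M.act, M.cont, M.one, M.mul, hM⟩

end Pool.Agent.S06705
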