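import Pool.Statements.S06707
import Pool.Agent.H68.Hn4

set_option autoImplicit false
open Pool Pool.MP_f47e6d_an

namespace Pool.Agent.S06707

/-- For the map H(x,y)=(y,x+y^2) on C^2, every neighborhood U of the origin contains a periodic orbit of H (a point of some positive period) all of whose iterates lie in U and differ from the origin. -/
theorem result :
    ∀ U ∈ nhds ((0 : ℂ × ℂ)), ∃ p : ℂ × ℂ, ∃ n : ℕ, 0 < n ∧
      Function.IsPeriodicPt (fun q : ℂ × ℂ => (q.2, q.1 + q.2 ^ 2)) n p ∧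
      ∀ k : ℕ, (fun q : ℂ × ℂ => (q.2, q.1 + q.2 ^ 2))^[k] p ∈ U ∧
        (fun q : ℂ × ℂ => (q.2, q.1 + q.2 ^ 2))^[k] p ≠ 0 := by
  intro U hU
  obtain ⟨d, hd, hU⟩ := Metric.mem_nhds_iff.1 hU
  set H : ℂ × ℂ → ℂ × ℂ := fun q => (q.2, q.1 + q.2 ^ 2) with hH
  have hT : ∀ k, H^[2 * k] = H68.Hn.T^[k] := fun k => by
    rw [Function.iterate_mul]; rfl
  obtain ⟨p, n, hn, p0, hp, hb⟩ := H68.Hn.main (min (d / 4) 1) (by positivity)
  have m1 : min (d / 4) 1 ≤ d / 4 := min_le_left _ _
  have m2 : min (d / 4) 1 ≤ 1 := min_le_right _ _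
  refine ⟨p, 2 * n, by omega, ?_, fun k => ⟨hU ?_, ?_⟩⟩
  · show H^[2 * n] p = p
    rw [hT, hp]
  · rw [mem_ball_zero_iff]
    obtain ⟨j, rfl | rfl⟩ := Nat.even_or_odd' k
    · rw [hT]; linarith [hb j]
    · rw [Function.iterate_succ_apply', hT]
      have h1 := hb j
      generalize H68.Hn.T^[j] p = q at *
      have h2 := norm_fst_le q
      have h3 := norm_snd_le q
      have h4 := norm_add_le q.1 (q.2 ^ 2)
      rw [norm_pow] at h4
      have h5 := norm_nonneg q.2
      rw [Prod.norm_def, max_lt_iff]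
      constructor
      · show ‖q.2‖ < d
        linarith
      · show ‖q.1 + q.2 ^ 2‖ < d
        nlinarith
  · induction k with
    | zero => exact p0
    | succ k ih =>
      rw [Function.iterate_succ_apply']
      intro h0
      apply ih
      generalize H^[k] p = q at *
      have h1 : q.2 = 0 := congrArg Prod.fst h0
      have h2 : q.1 + q.2 ^ 2 = 0 := congrArg Prod.snd h0
      ext
      · simpa [h1] using h2
      · exact h1

end Pool.Agent.S06707
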