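import Pool.Statements.S06709
import Pool.Agent.H93.Ssd3

set_option autoImplicit false
open Pool Pool.MP_f490a9_an

namespace Pool.Agent.S06709

/-- Every nonseparable real Banach space with a separable subspace whose dual is nonseparable (i.e. non-Asplund) has an equivalent norm that is strongly subdifferentiable at no nonzero point. -/
theorem result :
    ∀ (X : Type) [NormedAddCommGroup X] [NormedSpace ℝ X] [CompleteSpace X],
      ¬ TopologicalSpace.SeparableSpace X →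
      (∃ Y : Submodule ℝ X, TopologicalSpace.SeparableSpace Y ∧
          ¬ TopologicalSpace.SeparableSpace (Y →L[ℝ] ℝ)) →
      ∃ N : Seminorm ℝ X,
        (∃ a b : ℝ, 0 < a ∧ 0 < b ∧ ∀ x : X, a * ‖x‖ ≤ N x ∧ N x ≤ b * ‖x‖) ∧
        ∀ x : X, x ≠ 0 →
          ¬ ∃ D : X → ℝ, ∀ ε : ℝ, 0 < ε → ∃ δ : ℝ, 0 < δ ∧
              ∀ h : X, ‖h‖ ≤ 1 → ∀ t : ℝ, 0 < t → t < δ →
                |(N (x + t • h) - N x) / t - D h| < ε := by
  rintro X _ _ _ - ⟨Y, hY, hns⟩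
  obtain ⟨K, _, _, _, _, e, y, he, hy, hS⟩ := Pool.Agent.H93.Ssd1.exists_sys X Y hns
  by_cases H : ∀ ψ : C(K, ℝ), (∀ k, 0 ≤ ψ k) → (∀ k, ψ k ≤ 1 / 24) → ∃ x : X, x ≠ 0 ∧ ∃ n c,
      (∃ k, 1 / 2 ≤ e (y n) k) ∧ ∀ k, 1 / 2 ≤ e (y n) k → e x k + ‖x‖ * ψ k = c
  · obtain ⟨n, hn, C, hC, h⟩ := Pool.Agent.H93.Ssd2.baire e y H
    obtain ⟨q, E, h1, h2, h3, h4⟩ := Pool.Agent.H93.Ssd3.oct_data e y he hS n hn C h
    obtain ⟨Q, h5, h6⟩ := Pool.Agent.H93.Ssd3.caseB q E C hC h1 h2 h3 h4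
    exact Pool.Agent.H93.Ssd2.final Q h5 h6
  · obtain ⟨ψ, H⟩ := not_forall.1 H
    obtain ⟨h0, H⟩ := Classical.not_imp.1 H
    obtain ⟨h1, H⟩ := Classical.not_imp.1 H
    exact Pool.Agent.H93.Ssd2.final _
      (Pool.Agent.H93.Ssd2.sub_sS isCompact_univ Set.univ_nonempty e he ψ h0
        fun k => by linarith [h1 k])
      fun x hx => Pool.Agent.H93.Ssd2.caseA e y hy hS ψ h0 h1 x
        fun n c a b => H ⟨x, hx, n, c, a, b⟩

end Pool.Agent.S06709
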