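import Pool.Statements.S06714
import Pool.Agent.H96.MS3

set_option autoImplicit false
open Pool Pool.MP_f4a1d1_an

namespace Pool.Agent.S06714

open Cardinal Set Pool.Agent.H96.MS in
lemma card_Y (G : Type) [Nonempty G] (hG : #G ≤ continuum) : #(Ysub G) ≤ continuum := by
  classical
  let h : (ℕ → G × ℝ) → G → ℝ := fun s g => if e : ∃ n, (s n).1 = g then (s e.choose).2 else 0
  have h1 : ∀ v : Ysub G, ∃ s, h s = (v.1 : G → ℝ) := by
    intro v
    obtain ⟨e, he⟩ := (Set.countable_iff_exists_subset_range).1 v.2
    refine ⟨fun n => (e n, v.1 (e n)), funext fun g => ?_⟩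
    simp only [h]
    split_ifs with hg
    · exact congrArg _ hg.choose_spec
    · by_contra h0
      exact hg (he (Ne.symm h0))
  choose s hs using h1
  have hinj : Function.Injective s := fun a b hab =>
    Subtype.ext (lp.ext (by rw [← hs a, ← hs b, hab]))
  refine (mk_le_of_injective hinj).trans ?_
  simp only [mk_pi, prod_const, mk_prod, lift_id, mk_real, mk_nat]
  calc (#G * continuum) ^ ℵ₀ ≤ continuum ^ ℵ₀ := by
        apply power_le_power_right
        calc #G * continuum ≤ continuum * continuum := mul_le_mul_left hG _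
          _ = continuum := continuum_mul_self
    _ = continuum := continuum_power_aleph0

open Cardinal Set in
lemma bdd (S : Set (ℵ₁ : Cardinal.{0}).ord.ToType) (hS : S.Countable) : ∃ a, ∀ s ∈ S, s < a := by
  by_contra h
  push Not at h
  have h1 : ∀ s : (ℵ₁ : Cardinal.{0}).ord.ToType, (Iic s).Countable := fun s => by
    rw [← Iio_insert]
    refine Set.Countable.insert _ ?_
    rw [← Cardinal.le_aleph0_iff_set_countable, ← Cardinal.lt_aleph_one_iff]
    exact (Cardinal.mk_Iio_lt s (by simp)).trans_eq (mk_ord_toType _)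
  have h2 : (univ : Set (ℵ₁ : Cardinal.{0}).ord.ToType).Countable :=
    (hS.biUnion fun s _ => h1 s).mono fun a _ => by
      obtain ⟨s, hs, ha⟩ := h a
      exact mem_biUnion hs ha
  rw [← Cardinal.le_aleph0_iff_set_countable, mk_univ, mk_ord_toType] at h2
  exact absurd h2 (not_le.2 aleph0_lt_aleph_one)


/-- The negation of the preceding statement: For all real Banach spaces X, Y and every bijection U from X to Y that preserves distances on some ball around each point, U preserves all distances (is an isometry). -/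
theorem result :
    ¬ (∀ (X Y : Type) [NormedAddCommGroup X] [NormedSpace ℝ X] [CompleteSpace X]
      [NormedAddCommGroup Y] [NormedSpace ℝ Y] [CompleteSpace Y] (U : X → Y),
      Function.Bijective U →
      (∀ x₀ : X, ∃ r : ℝ, 0 < r ∧ ∀ x ∈ Metric.ball x₀ r, ∀ y ∈ Metric.ball x₀ r,
        dist (U x) (U y) = dist x y) →
      Isometry U) := by
  intro H
  let W := (Cardinal.aleph 1 : Cardinal.{0}).ord.ToType
  let J := (Cardinal.continuum : Cardinal.{0}).ord.ToType
  have hW : Cardinal.mk W = Cardinal.aleph 1 := Cardinal.mk_ord_toType _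
  have hJ : Cardinal.mk J = Cardinal.continuum := Cardinal.mk_ord_toType _
  have nW : Nonempty W := Cardinal.mk_ne_zero_iff.1 (by rw [hW]; exact (Cardinal.aleph_pos 1).ne')
  have nJ : Nonempty J := Cardinal.mk_ne_zero_iff.1 (by rw [hJ]; exact Cardinal.continuum_ne_zero)
  let I := Lex (W × J)
  have nI : Nonempty I := ⟨toLex (Classical.arbitrary _, Classical.arbitrary _)⟩
  have hI : Cardinal.mk I ≤ Cardinal.continuum := by
    have : Cardinal.mk I = Cardinal.mk (W × J) := Cardinal.mk_congr ofLex
    rw [this, Cardinal.mk_prod, Cardinal.lift_id, Cardinal.lift_id, hW, hJ]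
    calc _ ≤ Cardinal.continuum * Cardinal.continuum :=
          mul_le_mul_left Cardinal.aleph_one_le_continuum _
      _ = _ := Cardinal.continuum_mul_self
  have hG : Cardinal.mk (I × I × ℚ) ≤ Cardinal.continuum := by
    simp only [Cardinal.mk_prod, Cardinal.lift_id, Cardinal.mk_denumerable]
    calc _ ≤ Cardinal.continuum * (Cardinal.continuum * Cardinal.continuum) :=
          mul_le_mul' hI (mul_le_mul' hI Cardinal.aleph0_le_continuum)
      _ = _ := by rw [Cardinal.continuum_mul_self, Cardinal.continuum_mul_self]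
  have hY := card_Y _ hG
  rw [← hJ] at hY
  obtain ⟨e⟩ := hY
  let y : I → H96.MS.Ysub (I × I × ℚ) := fun k => Function.invFun e (ofLex k).2
  let _ : TopologicalSpace I := ⊥
  have : DiscreteTopology I := ⟨rfl⟩
  obtain ⟨A, hA⟩ := H96.MS.exists_good y
  refine H96.MS.not_iso y A (Classical.arbitrary _) (H _ _ _ ⟨H96.MS.inj y A hA,
    H96.MS.surj y A hA fun v => ?_⟩ (H96.MS.local_iso y A))
  obtain ⟨a, ha⟩ := bdd _ (Set.Countable.image v.2 fun g => (ofLex g.1).1)
  have hv : y (toLex (a, e v)) = v := Function.leftInverse_invFun e.injective v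
  refine ⟨toLex (a, e v), hv, fun g hg => ?_⟩
  unfold H96.MS.yv
  rw [hv]
  by_contra h0
  have h1 := ha _ ⟨g, h0, rfl⟩
  have h2 : g.1 < toLex (a, e v) := Prod.Lex.lt_iff.2 (Or.inl h1)
  exact absurd hg (not_le.2 h2)

end Pool.Agent.S06714
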