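import Pool.Statements.S06726
import Pool.Agent.H89.RG2

set_option autoImplicit false
open Pool Pool.MP_f53fb8_an

namespace Pool.Agent.S06726

/-- The negation of the preceding statement: For K real or complex, every separable complete metrizable topological vector space over K whose continuous dual is infinite-dimensional admits a continuous linear operator with a vector whose orbit is dense. -/
theorem result :
    ¬ (∀ (𝕂 : Type) [RCLike 𝕂] (X : Type) [AddCommGroup X] [Module 𝕂 X] [UniformSpace X]
      [IsUniformAddGroup X] [ContinuousSMul 𝕂 X] [TopologicalSpace.MetrizableSpace X]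
      [CompleteSpace X] [TopologicalSpace.SeparableSpace X],
      ¬ FiniteDimensional 𝕂 (X →L[𝕂] 𝕂) →
        ∃ T : X →L[𝕂] X, ∃ x : X, Dense (Set.range (fun n : ℕ => (⇑T)^[n] x))) := by
  intro h
  open H89.RG in
  obtain ⟨T, x, hx⟩ := h ℝ ((ℕ → ℝ) × Z) fun _ => by
    let φ : ℕ → ((ℕ → ℝ) × Z →L[ℝ] ℝ) := fun i =>
      (ContinuousLinearMap.proj i).comp (ContinuousLinearMap.fst ℝ _ _)
    have : LinearIndependent ℝ φ := linearIndependent_iff'.2 fun s g e i hi => by
      have := DFunLike.congr_fun e (Pi.single i 1, 0)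
      simpa [φ, Pi.single_apply, hi] using this
    exact (not_finite_iff_infinite.2 inferInstance) this.finite
  let B := (ContinuousLinearMap.snd ℝ _ _).comp (T.comp (ContinuousLinearMap.inl ℝ _ _))
  obtain ⟨l, hl⟩ := H89.RG.rigid
    ((ContinuousLinearMap.snd ℝ _ _).comp (T.comp (ContinuousLinearMap.inr ℝ _ _)))
  have e : ∀ y, (T y).2 = B y.1 + l • y.2 := fun y => by
    rw [← hl]
    change _ = (T (y.1, 0)).2 + (T (0, y.2)).2
    rw [← Prod.snd_add, ← map_add]; simp
  have c := (B.continuous.norm.tendsto 0).eventually (gt_mem_nhds (show ‖B 0‖ < 1 by simp))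
  rw [nhds_pi] at c
  obtain ⟨I, I1, t, t1, t2⟩ := Filter.mem_pi.1 c
  have z : ∀ a : ℕ → ℝ, (∀ i ∈ I, a i = 0) → B a = 0 := fun a ha => by
    refine norm_le_zero_iff.1 (le_of_forall_pos_le_add fun ε ε0 => ?_)
    have h1 : ‖B ((ε ^ 2)⁻¹ • a)‖ < 1 := t2 fun i hi => by
      simpa [ha i hi] using mem_of_mem_nhds (t1 i)
    have h2 := H89.RG.Z_smul (ε ^ 2) (B ((ε ^ 2)⁻¹ • a))
    rw [← map_smul, smul_inv_smul₀ (by positivity), abs_sq, Real.sqrt_sq ε0.le] at h2
    nlinarith
  let F := Submodule.span ℝ (insert x.2 ((fun i => B (Pi.single i 1)) '' I))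
  haveI : FiniteDimensional ℝ F := FiniteDimensional.span_of_finite ℝ ((I1.image _).insert _)
  have hB : ∀ a, B a ∈ F := fun a => by
    have := z (a - ∑ i ∈ I1.toFinset, a i • Pi.single i 1) fun i hi => by
      simp [Finset.sum_apply, Pi.single_apply, hi]
    rw [map_sub, sub_eq_zero] at this
    rw [this, map_sum]
    exact F.sum_mem fun i hi => (map_smul B _ _).symm ▸ F.smul_mem _
      (Submodule.subset_span (.inr ⟨i, by simpa using hi, rfl⟩))
  have hF : ∀ n, (T^[n] x).2 ∈ F := fun n => by
    induction n with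
    | zero => exact Submodule.subset_span (.inl rfl)
    | succ n ih => rw [Function.iterate_succ_apply', e]; exact F.add_mem (hB _) (F.smul_mem _ ih)
  have top : ∀ y, y ∈ F := fun y => DenseRange.induction_on hx (p := fun y => y.2 ∈ F) (0, y)
    (F.closed_of_finiteDimensional.preimage continuous_snd) hF
  haveI : FiniteDimensional ℝ H89.RG.V :=
    FiniteDimensional.of_injective (H89.RG.io.codRestrict F fun _ => top _) fun _ _ e =>
      H89.RG.io_inj (congrArg Subtype.val e)
  exact (not_finite_iff_infinite.2 inferInstance)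
    (Finsupp.linearIndependent_single_one ℝ (ℕ × ℕ)).finite

end Pool.Agent.S06726
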