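import Pool.Statements.S06729
import Pool.Agent.H94.UO6

set_option autoImplicit false
open scoped ComplexOrder
open Pool Pool.MP_f5ec7d_an

namespace Pool.Agent.S06729

/-- For every concave monotone f on [0,∞) with f(0)≥0 and all complex PSD matrices A,B there are unitaries U,V with 0 ≤ f(A+B) − U f(A) U* ≤ V f(B) V* in the Loewner order. -/
theorem result :
    ∀ (n : ℕ) (f : ℝ → ℝ), ConcaveOn ℝ (Set.Ici 0) f → MonotoneOn f (Set.Ici 0) → 0 ≤ f 0 →
      ∀ (A B : Matrix (Fin n) (Fin n) ℂ) (hA : A.PosSemidef) (hB : B.PosSemidef),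
        ∃ U ∈ Matrix.unitaryGroup (Fin n) ℂ, ∃ V ∈ Matrix.unitaryGroup (Fin n) ℂ,
          ((((hA.add hB).isHermitian.eigenvectorUnitary : Matrix (Fin n) (Fin n) ℂ) *
              Matrix.diagonal (fun i => ((f ((hA.add hB).isHermitian.eigenvalues i) : ℝ) : ℂ)) *
              star ((hA.add hB).isHermitian.eigenvectorUnitary : Matrix (Fin n) (Fin n) ℂ)) -
            U * ((hA.isHermitian.eigenvectorUnitary : Matrix (Fin n) (Fin n) ℂ) *
              Matrix.diagonal (fun i => ((f (hA.isHermitian.eigenvalues i) : ℝ) : ℂ)) *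
              star (hA.isHermitian.eigenvectorUnitary : Matrix (Fin n) (Fin n) ℂ)) * star U).PosSemidef ∧
          (V * ((hB.isHermitian.eigenvectorUnitary : Matrix (Fin n) (Fin n) ℂ) *
              Matrix.diagonal (fun i => ((f (hB.isHermitian.eigenvalues i) : ℝ) : ℂ)) *
              star (hB.isHermitian.eigenvectorUnitary : Matrix (Fin n) (Fin n) ℂ)) * star V -
            ((((hA.add hB).isHermitian.eigenvectorUnitary : Matrix (Fin n) (Fin n) ℂ) *
              Matrix.diagonal (fun i => ((f ((hA.add hB).isHermitian.eigenvalues i) : ℝ) : ℂ)) *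
              star ((hA.add hB).isHermitian.eigenvectorUnitary : Matrix (Fin n) (Fin n) ℂ)) -
            U * ((hA.isHermitian.eigenvectorUnitary : Matrix (Fin n) (Fin n) ℂ) *
              Matrix.diagonal (fun i => ((f (hA.isHermitian.eigenvalues i) : ℝ) : ℂ)) *
              star (hA.isHermitian.eigenvectorUnitary : Matrix (Fin n) (Fin n) ℂ)) * star U)).PosSemidef := by
  intro n f hc hm h0 A B hA hB
  obtain ⟨U, hU, V, hV, h1, h2⟩ := Pool.Agent.H94.UO.main f hc hm h0 A B hA hB
  have key : ∀ (T W Z : Matrix (Fin n) (Fin n) ℂ), star W * W = 1 →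
      (T * star W) * (W * Z * star W) * star (T * star W) = T * Z * star T := by
    intro T W Z h
    rw [star_mul, star_star]
    simp only [mul_assoc]
    rw [← mul_assoc (star W) W (star T), h, one_mul, ← mul_assoc (star W) W, h, one_mul]
  have a1 := key U _ (Pool.Agent.H94.UO.D fun j => f (hA.1.eigenvalues j))
    (Unitary.mem_iff.1 hA.1.eigenvectorUnitary.2).1
  have a2 := key V _ (Pool.Agent.H94.UO.D fun j => f (hB.1.eigenvalues j))
    (Unitary.mem_iff.1 hB.1.eigenvectorUnitary.2).1
  rw [← a1] at h1 h2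
  rw [← a2] at h2
  exact ⟨_, mul_mem hU (Unitary.star_mem hA.1.eigenvectorUnitary.2), _,
    mul_mem hV (Unitary.star_mem hB.1.eigenvectorUnitary.2), h1, h2⟩

end Pool.Agent.S06729
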