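import Pool.Statements.S06734
import Pool.Agent.H97.Rossi

set_option autoImplicit false
open Pool Pool.MP_f65947_an

namespace Pool.Agent.S06734

/-- The negation of the preceding statement: For n at least 3, if the zero set in open U of a smooth function with nonzero gradient there has semidefinite Levi form, then every point with degenerate Levi form at all nearby zero-set points has a nonconstant holomorphic disc through it inside the zero set. -/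
theorem result :
    ¬ (∀ n : ℕ, 3 ≤ n → ∀ U : Set (Fin n → ℂ), IsOpen U →
  ∀ ρ : (Fin n → ℂ) → ℝ, ContDiff ℝ ((⊤ : ℕ∞) : WithTop ℕ∞) ρ →
  (∀ z ∈ U, ρ z = 0 → fderiv ℝ ρ z ≠ 0) →
  (∀ z ∈ U, ρ z = 0 → ∀ w : Fin n → ℂ, fderiv ℝ ρ z w = 0 →
      fderiv ℝ ρ z (Complex.I • w) = 0 →
      0 ≤ fderiv ℝ (fderiv ℝ ρ) z w w
        + fderiv ℝ (fderiv ℝ ρ) z (Complex.I • w) (Complex.I • w)) →
  ∀ ζ ∈ U, ρ ζ = 0 →
  (∃ ε > 0, ∀ z ∈ U, ρ z = 0 → dist z ζ < ε →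
      ∃ w : Fin n → ℂ, w ≠ 0 ∧ fderiv ℝ ρ z w = 0 ∧
        fderiv ℝ ρ z (Complex.I • w) = 0 ∧
        fderiv ℝ (fderiv ℝ ρ) z w w
          + fderiv ℝ (fderiv ℝ ρ) z (Complex.I • w) (Complex.I • w) = 0) →
  ∃ f : ℂ → (Fin n → ℂ), DifferentiableOn ℂ f (Metric.ball (0 : ℂ) 1) ∧ f 0 = ζ ∧
    (∃ t ∈ Metric.ball (0 : ℂ) 1, f t ≠ ζ) ∧
    ∀ t ∈ Metric.ball (0 : ℂ) 1, f t ∈ U ∧ ρ (f t) = 0) := by
  intro h
  obtain ⟨ρ, h1, h2, h3, h4, h5, h6⟩ := Pool.Agent.H97.Rossi.main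
  obtain ⟨f, g1, g2, ⟨t, ht, g3⟩, g4⟩ := h 3 le_rfl (Metric.ball 0 (1 / 8)) Metric.isOpen_ball ρ h1
    (fun z hz _ => h3 z hz) (fun z hz _ w _ _ => h4 z hz w) 0 (Metric.mem_ball_self (by norm_num)) h2
    ⟨1, one_pos, fun z hz _ _ => h5 z hz⟩
  exact g3 (h6 f g1 g2 g4 t ht)

end Pool.Agent.S06734
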