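import Pool.Statements.S06737
import Pool.Agent.H94.ZR3

set_option autoImplicit false
open Pool Pool.MP_f69e58_an

namespace Pool.Agent.S06737

/-- For p>0, α>-1 and any disc sequence with nondecreasing moduli satisfying ∫₀¹(1-r)^α e^{pN(r)}dr<∞, one can rotate each point so some nonzero analytic f with ∫(1-∣z∣²)^α∣f∣^p dA<∞ vanishes at all rotated points. -/
theorem result :
    ∀ (p α : ℝ), 0 < p → -1 < α →
    ∀ d : ℕ → ℂ, (∀ j, 0 < ‖d j‖) → (∀ j, ‖d j‖ ≤ ‖d (j + 1)‖) → (∀ j, ‖d j‖ < 1) →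
    (∀ t : ℝ, t < 1 → {j : ℕ | ‖d j‖ ≤ t}.Finite) →
    MeasureTheory.IntegrableOn
      (fun r : ℝ => (1 - r) ^ α *
        Real.exp (p * ∫ t in (0 : ℝ)..r, (Nat.card {j : ℕ // ‖d j‖ ≤ t} : ℝ) / t))
      (Set.Ioo 0 1) →
    ∃ θ : ℕ → ℝ, (∀ j, θ j ∈ Set.Ico 0 (2 * Real.pi)) ∧
      ∃ f : ℂ → ℂ, DifferentiableOn ℂ f (Metric.ball 0 1) ∧
        MeasureTheory.IntegrableOn (fun z : ℂ => (1 - ‖z‖ ^ 2) ^ α * ‖f z‖ ^ p)
          (Metric.ball 0 1) ∧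
        (∃ z ∈ Metric.ball (0 : ℂ) 1, f z ≠ 0) ∧
        ∀ j, f (d j * Complex.exp ((θ j : ℂ) * Complex.I)) = 0 := by
  intro p α hp hα d h0 hm h1 hfin hG
  obtain ⟨θ, f, hf1, hf2, hf3, hf4⟩ := H94.ZR.main hp hα (fun j => ‖d j‖) (h0 0)
    (fun j => monotone_nat_of_le_succ hm (Nat.zero_le j)) h1 hfin hG
  choose φ hφ1 hφ2 using fun j => H94.ZR.rot (d j) (θ j)
  exact ⟨φ, hφ1, f, hf1, hf2, ⟨0, Metric.mem_ball_self one_pos, hf3⟩,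
    fun j => by rw [hφ2]; exact hf4 j⟩

end Pool.Agent.S06737
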