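import Pool.Statements.S06750
import Pool.Agent.H96.DS3

set_option autoImplicit false
open Pool Pool.MP_f7b107_an

namespace Pool.Agent.S06750

/-- The negation of the preceding statement: Every real Banach space satisfying ‖x+y‖²+‖x−y‖² ≤ 2‖x‖²+2D²‖y‖² has a constant C ≥ 0 such that, for every predictable Rademacher sum, E‖Σ r_j f_j(r_1..r_{j-1})‖² ≤ C² E‖Σ r̃_j f_j(r_1..r_{j-1})‖² with r̃ an independent copy. -/
theorem result :
    ¬ (∀ (X : Type) [NormedAddCommGroup X] [NormedSpace ℝ X] [CompleteSpace X],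
      (∃ D : ℝ, ∀ x y : X, ‖x + y‖ ^ 2 + ‖x - y‖ ^ 2 ≤ 2 * ‖x‖ ^ 2 + 2 * D ^ 2 * ‖y‖ ^ 2) →
      ∃ C : ℝ, 0 ≤ C ∧
        ∀ (n : ℕ) (f : (j : Fin n) → (Fin (j : ℕ) → Bool) → X),
          (1 / 2 ^ n : ℝ) * ∑ ε : Fin n → Bool,
              ‖∑ j : Fin n, (if ε j then (1 : ℝ) else -1) •
                  f j (fun i => ε (Fin.castLE j.isLt.le i))‖ ^ 2
            ≤ C ^ 2 * ((1 / 4 ^ n : ℝ) * ∑ ε : Fin n → Bool, ∑ δ : Fin n → Bool,
              ‖∑ j : Fin n, (if δ j then (1 : ℝ) else -1) •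
                  f j (fun i => ε (Fin.castLE j.isLt.le i))‖ ^ 2)) := by
  exact Pool.Agent.H96.DS.main

end Pool.Agent.S06750
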