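import Pool.Statements.S06761
import Pool.Agent.H98.Flat4

set_option autoImplicit false
open Pool Pool.MP_f8d220_an

namespace Pool.Agent.S06761

/-- For every ε>0 there are arbitrarily large n and a degree-n polynomial with all coefficients of modulus 1 whose derivative's max modulus on the unit circle is at most (1+ε) times its min modulus there. -/
theorem result :
    ∀ ε : ℝ, 0 < ε → ∀ N : ℕ, ∃ n : ℕ, N ≤ n ∧ ∃ a : ℕ → ℂ, (∀ k ≤ n, ‖a k‖ = 1) ∧
      ∀ z w : ℂ, ‖z‖ = 1 → ‖w‖ = 1 →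
        ‖∑ k ∈ Finset.range (n + 1), (k : ℂ) * a k * z ^ (k - 1)‖ ≤
          (1 + ε) * ‖∑ k ∈ Finset.range (n + 1), (k : ℂ) * a k * w ^ (k - 1)‖ := by
  intro ε hε N
  have hC := H98.Flat.C0_nonneg
  obtain ⟨K, hK⟩ : ∃ K, K = 2 * H98.Flat.C0 + 30 := ⟨_, rfl⟩
  have K0 : 0 < K := by linarith
  obtain ⟨P, hP⟩ := exists_nat_ge (max (max (N : ℝ) 100) (max K ((4 * K + 2436) / (ε / (2 + ε)))))
  simp only [max_le_iff] at hP
  obtain ⟨⟨p1, p2⟩, p3, p4⟩ := hP
  have p0 : (1 : ℝ) ≤ P := by linarith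
  have pw : ∀ a : ℕ, a ≠ 0 → (P : ℝ) ≤ P ^ a := fun a h => le_self_pow₀ p0 h
  have hP4 : P ≤ P ^ 4 := by exact_mod_cast pw 4 (by norm_num)
  have p5 : 100 ≤ P := by exact_mod_cast p2
  obtain ⟨κ, hκ, c, h1, h2, h3⟩ := H98.Flat.step1 (P ^ 4) (p5.trans hP4)
  rw [← hK] at h2 h3
  obtain ⟨n, hn⟩ : ∃ n, n = (P ^ 4) ^ 100 := ⟨_, rfl⟩
  obtain ⟨M, hM⟩ : ∃ M, M = n ^ 3 := ⟨_, rfl⟩
  have hPn : P ≤ n := hn ▸ hP4.trans (Nat.le_self_pow (by norm_num) _)
  have hM0 : 0 < M := hM ▸ pow_pos (by omega) 3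
  rw [← hn] at h1 h2 h3
  obtain ⟨b, h4, h5⟩ := H98.Flat.reduce (l := P ^ 2) hM0 (by positivity)
    ((div_le_one (by positivity)).2 (by push_cast; linarith [pw 4 (by norm_num)])) h1 h2 h3
  have herr : K / (P ^ 4 : ℕ) + (2 * (Real.log (4 * (M + 1)) / P ^ 2 +
      P ^ 2 * (3 * (K / (P ^ 4 : ℕ))) / 2) + 14 * n * (n + 1) / M) ≤ ε / (2 + ε) := by
    have p6 : (4 * K + 2436) / P ≤ ε / (2 + ε) := by
      rw [div_le_iff₀ (by positivity)] at p4
      rw [div_le_iff₀ (by positivity)]; linarith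
    refine le_trans ?_ p6
    have c1 : (P : ℝ) ≤ n := by exact_mod_cast hPn
    have c2 : Real.log n = 400 * Real.log P := by
      rw [hn, ← pow_mul, Nat.cast_pow, Real.log_pow]; norm_num
    rw [hM]
    push_cast
    generalize (P : ℝ) = p at p0 p2 pw c1 c2
    generalize (n : ℝ) = y at c1 c2
    have a0 : 0 < p := by linarith
    have y0 : 0 < y := by linarith
    have a1 : K / p ^ 4 ≤ K / p := by gcongr; exact pw 4 (by norm_num)
    have a2 : Real.log (4 * (y ^ 3 + 1)) ≤ 1204 * p := by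
      have b1 : 1 ≤ y ^ 3 := one_le_pow₀ (by linarith)
      have b2 : 4 * (y ^ 3 + 1) ≤ y ^ 3 * p := by nlinarith
      refine (Real.log_le_log (by positivity) b2).trans ?_
      rw [Real.log_mul (by positivity) a0.ne', Real.log_pow, c2]
      have := Real.log_le_self a0.le
      push_cast; linarith
    have a3 : Real.log (4 * (y ^ 3 + 1)) / p ^ 2 ≤ 1204 / p := by
      rw [div_le_div_iff₀ (by positivity) a0]; nlinarith
    have a4 : p ^ 2 * (3 * (K / p ^ 4)) / 2 ≤ 3 / 2 * (K / p) := by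
      rw [show p ^ 2 * (3 * (K / p ^ 4)) / 2 = 3 / 2 * (K / p ^ 2) by field_simp]
      gcongr; exact pw 2 (by norm_num)
    have a5 : 14 * y * (y + 1) / y ^ 3 ≤ 28 / p := by
      rw [div_le_div_iff₀ (by positivity) a0]
      have b1 : y + 1 ≤ 2 * y := by linarith
      calc 14 * y * (y + 1) * p ≤ 14 * y * (2 * y) * y := by gcongr
        _ = _ := by ring
    have e : (4 * K + 2436) / p = K / p + (2 * (1204 / p + 3 / 2 * (K / p)) + 28 / p) := by ring
    rw [e]; linarith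
  have key : ∀ z : ℂ, ‖z‖ = 1 → |κ * ‖∑ k ∈ Finset.range (n + 1),
      (k : ℂ) * (if k = 0 then 1 else b k / (κ * k : ℝ)) * z ^ (k - 1)‖ - 1| ≤ ε / (2 + ε) := by
    intro z hz
    have e0 : H98.Flat.ee (Int.fract (z.arg / (2 * Real.pi))) = z := by
      have := H98.Flat.ee_add (Int.fract (z.arg / (2 * Real.pi))) ⌊z.arg / (2 * Real.pi)⌋
      rw [H98.Flat.ee_int, mul_one, Int.fract_add_floor] at this
      rw [← this, H98.Flat.ee]
      conv_rhs => rw [← Complex.norm_mul_exp_arg_mul_I z, hz]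
      have : (Real.pi : ℂ) ≠ 0 := by simp
      push_cast; rw [one_mul]; congr 1; field_simp
    have h6 := h5 _ (H98.Flat.fract_mem (z.arg / (2 * Real.pi)))
    have e1 : ∀ (j : ℕ) (t : ℝ), H98.Flat.ee (j * t) = H98.Flat.ee t ^ j := fun j t => by
      simp only [H98.Flat.ee, ← Complex.exp_nat_mul]; push_cast; ring_nf
    simp only [e1, e0] at h6
    have e2 : ∑ j ∈ Finset.range (n + 1), b j * z ^ j = κ * z *
        ∑ k ∈ Finset.range (n + 1),
          (k : ℂ) * (if k = 0 then 1 else b k / (κ * k : ℝ)) * z ^ (k - 1) := by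
      rw [Finset.mul_sum]
      refine Finset.sum_congr rfl fun k _ => ?_
      rcases k with _ | k
      · have : b 0 = 0 := by simpa using h4 0 (Nat.zero_le _)
        simp [this]
      · have a1 : (κ : ℂ) ≠ 0 := by exact_mod_cast hκ.ne'
        have a2 : (k : ℂ) + 1 ≠ 0 := by exact_mod_cast k.succ_ne_zero
        simp only [Nat.succ_ne_zero, if_false, Nat.add_sub_cancel]
        push_cast; field_simp; ring
    rw [e2, norm_mul, norm_mul, hz, mul_one, Complex.norm_real, Real.norm_of_nonneg hκ.le] at h6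
    exact h6.trans herr
  refine ⟨n, ?_, fun k => if k = 0 then 1 else b k / (κ * k : ℝ), fun k hk => ?_,
    fun z w hz hw => ?_⟩
  · have : N ≤ P := by exact_mod_cast p1
    exact this.trans hPn
  · beta_reduce
    split_ifs with h
    · simp
    · have : 0 < κ * k := mul_pos hκ (Nat.cast_pos.2 (Nat.pos_of_ne_zero h))
      rw [norm_div, h4 k hk, Complex.norm_real, Real.norm_of_nonneg this.le, div_self this.ne']
  · have a1 := (abs_le.1 (key z hz)).2
    have a2 := (abs_le.1 (key w hw)).1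
    refine le_of_mul_le_mul_left ?_ hκ
    have e : 1 + ε / (2 + ε) = (1 + ε) * (1 - ε / (2 + ε)) := by field_simp; ring
    nlinarith [mul_le_mul_of_nonneg_left a2 (show 0 ≤ 1 + ε by linarith)]

end Pool.Agent.S06761
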