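import Pool.Statements.S06826
import Pool.Agent.H87.MonoFPV

set_option autoImplicit false
open scoped Pointwise
open Pool Pool.MP_fd6009_an

namespace Pool.Agent.S06826

open Pool.Agent.H87.MonoGap in
theorem result :
    ¬ (∀ (X : Type) [NormedAddCommGroup X] [NormedSpace ℝ X] [CompleteSpace X]
    (A B : X → Set (X →L[ℝ] ℝ)),
    (∀ (x y : X) (a b : X →L[ℝ] ℝ), a ∈ A x → b ∈ A y → 0 ≤ (a - b) (x - y)) →
    (∀ (x : X) (a : X →L[ℝ] ℝ),
        (∀ (y : X) (b : X →L[ℝ] ℝ), b ∈ A y → 0 ≤ (a - b) (x - y)) → a ∈ A x) →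
    (∀ (x y : X) (a b : X →L[ℝ] ℝ), a ∈ B x → b ∈ B y → 0 ≤ (a - b) (x - y)) →
    (∀ (x : X) (a : X →L[ℝ] ℝ),
        (∀ (y : X) (b : X →L[ℝ] ℝ), b ∈ B y → 0 ≤ (a - b) (x - y)) → a ∈ B x) →
    ({x : X | (A x).Nonempty} ∩ interior {x : X | (B x).Nonempty}).Nonempty →
    (∀ U : Set X, IsOpen U → Convex ℝ U → (U ∩ {x : X | (A x).Nonempty}).Nonempty →
      ∀ x ∈ U, ∀ a : X →L[ℝ] ℝ,
        (∀ y ∈ U, ∀ b ∈ A y, 0 ≤ (a - b) (x - y)) → a ∈ A x) →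
    ((∀ (x y : X) (a b : X →L[ℝ] ℝ), a ∈ A x + B x → b ∈ A y + B y →
        0 ≤ (a - b) (x - y)) ∧
     (∀ (x : X) (a : X →L[ℝ] ℝ),
        (∀ (y : X) (b : X →L[ℝ] ℝ), b ∈ A y + B y → 0 ≤ (a - b) (x - y)) →
          a ∈ A x + B x))) := by
  intro H
  obtain ⟨q, hq, hq1⟩ := exists_AA (s := -1) (by norm_num)
  have hint : q.1 ∈ interior {x : X | (NC x).Nonempty} := by
    refine interior_maximal (t := {x : X | u x < 0}) 
      (fun x hx => show (NC x).Nonempty from ⟨0, le_of_lt hx, fun _ _ => le_rfl⟩)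
      (isOpen_lt u.continuous continuous_const) ?_
    show s1 q < 0
    rw [hq1]; norm_num
  have h := (H X (fun x => {f | (x, f) ∈ AA}) NC
    (fun x y f g hf hg => mono_AA _ hf _ hg)
    (fun x f hf => loc_mem (p := (x, f)) one_pos fun q hq _ => hf q.1 q.2 hq)
    NC_mono NC_max ⟨q.1, ⟨q.2, hq⟩, hint⟩
    (fun U hU _ _ x hx f hf => by
      obtain ⟨δ, hδ, hb⟩ := Metric.isOpen_iff.1 hU x hx
      exact loc_mem (p := (x, f)) hδ fun q hq h =>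
        hf q.1 (hb (by rwa [Metric.mem_ball, dist_comm, dist_eq_norm])) q.2 hq)).2
    (pt 1 2 Pool.Agent.H87.MonoGap.h 0).1 (pt 1 2 Pool.Agent.H87.MonoGap.h 0).2 (by
      rintro y _ ⟨f, hf, g, hg, rfl⟩
      have h1 : u y < 0 := lt_of_le_of_ne hg.1 (AA_ne hf)
      have h2 : 0 ≤ ((pt 1 2 Pool.Agent.H87.MonoGap.h 0).2 - f)
        ((pt 1 2 Pool.Agent.H87.MonoGap.h 0).1 - y) := AA_related hf h1
      simp only [_root_.sub_apply, _root_.add_apply, NC_zero h1 hg, add_zero] at h2 ⊢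
      exact h2)
  obtain ⟨-, -, g, hg, -⟩ := h
  have : (1 : ℝ) ≤ 0 := hg.1
  norm_num at this

end Pool.Agent.S06826
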