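import Pool.Statements.S06830
import Pool.Agent.H88.Wilm

set_option autoImplicit false
open Pool Pool.MP_fda7e3_an

namespace Pool.Agent.S06830

theorem result :
    ¬ (∀ (T : Polynomial ℂ) (x : ℂ), ‖(Polynomial.derivative T).eval x‖ < 1 →
      ∀ w : ℂ,
        {z : ℂ | z ∈ connectedComponentIn {u : ℂ | ‖(Polynomial.derivative T).eval u‖ < 1} x ∧
            starRingEnd ℂ z + T.eval z = w}.encard
          ≤ (((∑ᶠ z ∈ connectedComponentIn {u : ℂ | ‖(Polynomial.derivative T).eval u‖ < 1} x,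
                (Polynomial.derivative (Polynomial.derivative T)).rootMultiplicity z) + 1 : ℕ) : ℕ∞)) := by
  intro H
  obtain ⟨z, w, hne, h1, h2, e1, e2⟩ := H88.Wilm.main
  have h0 : ‖(Polynomial.derivative H88.Wilm.T).eval 0‖ < 1 := by
    rw [H88.Wilm.P_eval]; simp [H88.Wilm.Pf]
  have h := H H88.Wilm.T 0 h0 w
  have hz : (∑ᶠ z ∈ connectedComponentIn
      {u : ℂ | ‖(Polynomial.derivative H88.Wilm.T).eval u‖ < 1} 0,
      (Polynomial.derivative (Polynomial.derivative H88.Wilm.T)).rootMultiplicity z) = 0 := by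
    refine finsum_mem_eq_zero_of_forall_eq_zero (fun u hu => ?_)
    refine Polynomial.rootMultiplicity_eq_zero (fun hr => ?_)
    have h3 := connectedComponentIn_subset _ _ hu
    have h4 := H88.Wilm.crit (u := u) hr
    simp only [Set.mem_ofPred_eq, H88.Wilm.P_eval] at h3
    linarith
  rw [hz] at h
  rw [Nat.zero_add, Nat.cast_one] at h
  exact hne (Set.encard_le_one_iff.1 h z (starRingEnd ℂ z) ⟨h1, e1⟩ ⟨h2, e2⟩)

end Pool.Agent.S06830
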