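import Pool.Statements.S06856
import Pool.Agent.H56.Plk6

set_option autoImplicit false
open Pool Pool.MP_ff7d48_an

namespace Pool.Agent.S06856

/-- The negation of the preceding statement: For every set Γ, every closed subspace S of real ℓ1(Γ) has a linearly dense set M and a norming subspace N of its dual such that each functional in N is nonzero on only countably many elements of M, i.e. S is Plichko. -/
theorem result :
    ¬ (∀ (Γ : Type) (S : Submodule ℝ (lp (fun _ : Γ => ℝ) 1)),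
      IsClosed (S : Set (lp (fun _ : Γ => ℝ) 1)) →
        ∃ (M : Set ↥S) (N : Submodule ℝ (↥S →L[ℝ] ℝ)),
          Dense (Submodule.span ℝ M : Set ↥S) ∧
          (∃ r : ℝ, 0 < r ∧ ∀ x : ↥S, x ≠ 0 →
              ∃ f ∈ N, ‖f‖ ≤ 1 ∧ r * ‖x‖ < |f x|) ∧
          ∀ f ∈ N, Set.Countable {m : ↥S | m ∈ M ∧ f m ≠ 0}) := by
  intro h
  obtain ⟨Z, hZ, hn⟩ := Pool.Agent.H56.Plk.main2 ℝ
  obtain ⟨M, N, h1, ⟨r, hr, h2⟩, h3⟩ := h ℝ Z hZ
  refine hn ⟨M, N, r, hr, h1, fun x => ?_, h3⟩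
  by_cases hx : x = 0
  · exact ⟨0, N.zero_mem, ContinuousLinearMap.opNorm_zero.le.trans zero_le_one, by simp [hx]⟩
  · obtain ⟨f, f1, f2, f3⟩ := h2 x hx
    exact ⟨f, f1, f2, f3.le⟩

end Pool.Agent.S06856
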