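import Pool.Statements.S06877
import Pool.Agent.H14.RegT2

set_option autoImplicit false
open Pool Pool.MP_012ca0_co

namespace Pool.Agent.S06877

/-- For every odd n ≥ 3 there is a tournament on n vertices in which every vertex has out-degree (n−1)/2 and which has at least (n−1)!/2^n directed Hamilton cycles. -/
theorem result :
    ∀ n : ℕ, Odd n → 3 ≤ n →
      ∃ adj : Fin n → Fin n → Prop,
        (∀ v, ¬ adj v v) ∧
        (∀ v w, v ≠ w → (adj v w ↔ ¬ adj w v)) ∧
        (∀ v, {w : Fin n | adj v w}.ncard = (n - 1) / 2) ∧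
        ((Nat.factorial (n - 1) : ℝ) / (2 : ℝ) ^ n ≤
          (({c : Equiv.Perm (Fin n) |
              c.IsCycle ∧ c.support = Finset.univ ∧ ∀ v, adj v (c v)}.ncard : ℕ) : ℝ)) := by
  open Pool.Agent.H14.RegT Finset in
  intro n hodd h3
  classical
  have : NeZero n := ⟨by omega⟩
  have hinj : Function.Injective fun x : Fin n => -(x + x) := by
    intro x y h
    have h1 : (x - y) + (x - y) = 0 := by
      simp only at h
      rw [← sub_eq_zero] at h
      rw [← neg_eq_zero, ← h]; abel
    have h2 : 2 • (x - y) = 0 := by rw [two_nsmul]; exact h1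
    have h4 : addOrderOf (x - y) ∣ 2 := addOrderOf_dvd_of_nsmul_eq_zero h2
    have h5 : addOrderOf (x - y) ∣ n := by
      have := addOrderOf_dvd_card (x := x - y)
      rwa [Fintype.card_fin] at this
    have h6 : addOrderOf (x - y) = 1 :=
      Nat.eq_one_of_dvd_coprimes ((Nat.coprime_two_left).2 hodd) h4 h5
    exact sub_eq_zero.1 (AddMonoid.addOrderOf_eq_one_iff.1 h6)
  let μ : Equiv.Perm (Fin n) := Equiv.ofBijective _ (Finite.injective_iff_bijective.1 hinj)
  obtain ⟨ε, hε⟩ := exists_eps (α := Fin n) Fin.val μ (fun _ => rfl) (by simpa using h3)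
  refine ⟨adj Fin.val ε, fun v h => h.1 rfl, adj_tour _ Fin.val_injective ε, fun v => ?_, ?_⟩
  · simpa using adj_reg _ Fin.val_injective ε μ (fun _ => rfl) v
  · have : {c : Equiv.Perm (Fin n) | c.IsCycle ∧ c.support = univ ∧ ∀ v, adj Fin.val ε v (c v)} =
        ↑(univ.filter fun c : Equiv.Perm (Fin n) => Full c ∧ ∀ v, adj Fin.val ε v (c v)) := by
      ext c
      simp [Full, and_assoc]
    rw [this, Set.ncard_coe_finset, div_le_iff₀ (by positivity), mul_comm]
    rw [Fintype.card_fin] at hε
    have h7 : (n - 1).factorial ≤ 2 ^ n * (univ.filter fun c : Equiv.Perm (Fin n) =>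
        Full c ∧ ∀ v, adj Fin.val ε v (c v)).card := by convert hε
    exact_mod_cast h7

end Pool.Agent.S06877
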