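import Pool.Statements.S06884
import Pool.Agent.H25.Tough

set_option autoImplicit false
open Pool Pool.MP_016f39_co

namespace Pool.Agent.S06884

/-- The negation of the preceding statement: Every finite graph of minimum degree at least 3 in which no nonempty independent set S leaves more than ∣S∣ components has an edge uv such that deleting it, and also contracting it, keep that property. -/
theorem result :
    ¬ (∀ (V : Type) [Fintype V] [Nonempty V] (G : SimpleGraph V) [DecidableRel G.Adj],
      (∀ x : V, 3 ≤ G.degree x) →
      (∀ S : Finset V, S.Nonempty → G.IsIndepSet (S : Set V) →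
        Nat.card (G.induce ((S : Set V)ᶜ)).ConnectedComponent ≤ S.card) →
      ∃ u v : V, G.Adj u v ∧
        (∀ S : Finset V, S.Nonempty →
          (G.deleteEdges {s(u, v)}).IsIndepSet (S : Set V) →
          Nat.card ((G.deleteEdges {s(u, v)}).induce ((S : Set V)ᶜ)).ConnectedComponent
            ≤ S.card) ∧
        (∀ S : Finset {w : V // w ≠ v}, S.Nonempty →
          (SimpleGraph.fromRel (fun a b : {w : V // w ≠ v} =>
              G.Adj a.1 b.1 ∨ (a.1 = u ∧ G.Adj v b.1))).IsIndepSet
            (S : Set {w : V // w ≠ v}) →
          Nat.card ((SimpleGraph.fromRel (fun a b : {w : V // w ≠ v} =>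
              G.Adj a.1 b.1 ∨ (a.1 = u ∧ G.Adj v b.1))).induce
              ((S : Set {w : V // w ≠ v})ᶜ)).ConnectedComponent ≤ S.card)) := by
  intro h
  obtain ⟨u, v, huv, h1, h2⟩ := h (Fin 19) Pool.Agent.H25.Tough.G Pool.Agent.H25.Tough.deg
    Pool.Agent.H25.Tough.tough
  rcases Pool.Agent.H25.Tough.all_bad u v huv with h3 | h3
  · exact Pool.Agent.H25.Tough.del_fails u v h3 h1
  · exact Pool.Agent.H25.Tough.con_fails u v huv h3 h2

end Pool.Agent.S06884
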