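import Pool.Statements.S06890
import Pool.Agent.H33.TwistedGeo

set_option autoImplicit false
open Classical
open Pool Pool.MP_019aa5_co

namespace Pool.Agent.S06890
open Pool.Agent.H33.Twisted

/-- The negation of the preceding statement: For any field, any convexly realized (d−1)-dim complex in R^(d−1), any generic point x, and any linear system of parameters, the monomials of the visible-vertex sets G_F of the facets form a k-basis of the face ring modulo the parameters. -/
theorem result :
    ¬ (∀ (k : Type) [Field k] (n d : ℕ) (Δ : Finset (Finset (Fin n)))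
      (p : Fin n → EuclideanSpace ℝ (Fin (d - 1))) (x : EuclideanSpace ℝ (Fin (d - 1)))
      (θ : Fin d → MvPolynomial (Fin n) k) (J : Ideal (MvPolynomial (Fin n) k))
      (f : {F : Finset (Fin n) // F ∈ Δ ∧ F.card = d} → MvPolynomial (Fin n) k ⧸ J),
      1 ≤ d →
      (∀ S ∈ Δ, ∀ T : Finset (Fin n), T ⊆ S → T ∈ Δ) →
      (∀ i : Fin n, ({i} : Finset (Fin n)) ∈ Δ) →
      (∀ S ∈ Δ, S.card ≤ d) →
      (∃ S ∈ Δ, S.card = d) →
      (∀ S ∈ Δ, AffineIndependent ℝ (fun i : (S : Set (Fin n)) => p i)) →
      (∀ S ∈ Δ, ∀ T ∈ Δ,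
        convexHull ℝ (p '' (S : Set (Fin n))) ∩ convexHull ℝ (p '' (T : Set (Fin n))) =
          convexHull ℝ (p '' ((S ∩ T : Finset (Fin n)) : Set (Fin n)))) →
      Convex ℝ (⋃ S ∈ Δ, convexHull ℝ (p '' (S : Set (Fin n)))) →
      x ∈ (⋃ S ∈ Δ, convexHull ℝ (p '' (S : Set (Fin n)))) →
      (∀ H ∈ Δ, H.card + 1 = d → x ∉ affineSpan ℝ (p '' (H : Set (Fin n)))) →
      (∀ i, (θ i).IsHomogeneous 1) →
      J = Ideal.span ((fun S : Finset (Fin n) => ∏ i ∈ S, (MvPolynomial.X i : MvPolynomial (Fin n) k)) ''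
              {S : Finset (Fin n) | S ∉ Δ}) ⊔ Ideal.span (Set.range θ) →
      Module.Finite k (MvPolynomial (Fin n) k ⧸ J) →
      (∀ F, f F = Ideal.Quotient.mk J
          (∏ v ∈ F.1.filter (fun v =>
              (affineSpan ℝ (p '' ((F.1.erase v : Finset (Fin n)) : Set (Fin n)))).SOppSide x (p v)),
            (MvPolynomial.X v : MvPolynomial (Fin n) k))) →
      LinearIndependent k f ∧ Submodule.span k (Set.range f) = ⊤) := by
  intro h
  obtain ⟨hli, -⟩ := h ℚ 6 3 Δ p x0 θ J _ (by norm_num)
    (fun S hS T hT => by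
      obtain ⟨j, hj⟩ := mem_Δ.1 hS
      exact mem_Δ.2 ⟨j, hT.trans hj⟩)
    (by decide +kernel) (by decide +kernel) (by decide +kernel) aff_indep hull_inter
    (by rw [union_eq]; exact convex_convexHull ℝ _) x0_mem generic θ_hom rfl fin_quot
    (fun _ => rfl)
  let F : Fin 3 → {F : Finset (Fin 6) // F ∈ Δ ∧ F.card = 3} :=
    ![⟨{0, 3, 4}, by decide +kernel⟩, ⟨{1, 4, 5}, by decide +kernel⟩,
      ⟨{2, 5, 3}, by decide +kernel⟩]
  have hF : Function.Injective F := by decide +kernel
  have h2 := Fintype.linearIndependent_iff.1 (hli.comp F hF) (fun _ => 1) ?_ 0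
  · exact one_ne_zero h2
  · have k1 := filt 0 3 4 (by decide) (by decide) (by decide) (by decide) (by decide) (by decide)
      (by simp [L, px, py]; norm_num) (by simp [L, px, py]; norm_num)
      (by simp [L, px, py]; norm_num)
    have k2 := filt 1 4 5 (by decide) (by decide) (by decide) (by decide) (by decide) (by decide)
      (by simp [L, px, py]; norm_num) (by simp [L, px, py]; norm_num)
      (by simp [L, px, py]; norm_num)
    have k3 := filt 2 5 3 (by decide) (by decide) (by decide) (by decide) (by decide) (by decide)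
      (by simp [L, px, py]; norm_num) (by simp [L, px, py]; norm_num)
      (by simp [L, px, py]; norm_num)
    have m1 := congrArg
      (fun S => Ideal.Quotient.mk J (∏ v ∈ S, (MvPolynomial.X v : MvPolynomial (Fin 6) ℚ))) k1
    have m2 := congrArg
      (fun S => Ideal.Quotient.mk J (∏ v ∈ S, (MvPolynomial.X v : MvPolynomial (Fin 6) ℚ))) k2
    have m3 := congrArg
      (fun S => Ideal.Quotient.mk J (∏ v ∈ S, (MvPolynomial.X v : MvPolynomial (Fin 6) ℚ))) k3
    simp only [Fin.sum_univ_three, one_smul]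
    refine (congrArg₂ (· + ·) (congrArg₂ (· + ·) m1 m2) m3).trans ?_
    rw [Finset.prod_pair (by decide), Finset.prod_pair (by decide), Finset.prod_pair (by decide)]
    simp only [map_mul]
    exact dep

end Pool.Agent.S06890
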