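import Pool.Statements.S06936

set_option autoImplicit false
open Pool Pool.MP_038631_co

namespace Pool.Agent.S06936

/-- Two disjoint copies of the complete graph on 13 vertices. -/
def twoCliques : SimpleGraph (Fin 2 × Fin 13) where
  Adj a b := a ≠ b ∧ a.1 = b.1
  symm := ⟨fun _ _ h => ⟨h.1.symm, h.2.symm⟩⟩
  loopless := ⟨fun _ h => h.1 rfl⟩

instance : DecidableRel twoCliques.Adj := fun a b =>
  inferInstanceAs (Decidable (a ≠ b ∧ a.1 = b.1))

lemma walk_fst {a b : Fin 2 × Fin 13} (w : twoCliques.Walk a b) :
    ∀ x ∈ w.support, x.1 = a.1 := by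
  induction w with
  | nil => intro x hx; simp at hx; rw [hx]
  | cons h p ih =>
    intro x hx
    rw [SimpleGraph.Walk.support_cons, List.mem_cons] at hx
    rcases hx with rfl | hx
    · rfl
    · rw [ih x hx]; exact h.2.symm

lemma two_cycles {a b : Fin 2 × Fin 13} (p : twoCliques.Walk a a) (q : twoCliques.Walk b b)
    (hp : p.IsCycle) (hq : q.IsCycle) (lp : 7 ≤ p.length) (lq : 7 ≤ q.length)
    (hd : List.Disjoint p.support q.support) : a.1 ≠ b.1 := by
  intro hab
  have h1 := hp.support_nodup
  have h2 := hq.support_nodup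
  have hnd : (p.support.tail ++ q.support.tail).Nodup := by
    rw [List.nodup_append]
    refine ⟨h1, h2, ?_⟩
    intro x hx y hy hxy
    subst hxy
    exact hd (List.mem_of_mem_tail hx) (List.mem_of_mem_tail hy)
  have hlen : (p.support.tail ++ q.support.tail).length = p.length + q.length := by
    simp [SimpleGraph.Walk.length_support]
  have hfst : ∀ x ∈ p.support.tail ++ q.support.tail, x.1 = a.1 := by
    intro x hx
    rcases List.mem_append.1 hx with hx | hx
    · exact walk_fst p x (List.mem_of_mem_tail hx)
    · rw [hab]; exact walk_fst q x (List.mem_of_mem_tail hx)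
  have hnd2 : ((p.support.tail ++ q.support.tail).map Prod.snd).Nodup := by
    refine List.Nodup.map_on ?_ hnd
    intro x hx y hy hxy
    exact Prod.ext ((hfst x hx).trans (hfst y hy).symm) hxy
  have := hnd2.length_le_card
  rw [List.length_map, hlen, Fintype.card_fin] at this
  omega

/-- The negation of the preceding statement. Counterexample: k = 3, r = 7, two disjoint 13-cliques. -/
theorem result :
    ¬ (∀ k r : ℕ, 2 ≤ k → 3 ≤ r → Odd r →
      ∀ (V : Type) [Fintype V] (G : SimpleGraph V) [DecidableRel G.Adj],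
        r * k ≤ Fintype.card V →
        (∀ v : V, (r + 1) * k ≤ 2 * G.degree v) →
        ∃ (u : Fin k → V) (c : ∀ i : Fin k, G.Walk (u i) (u i)),
          (∀ i : Fin k, (c i).IsCycle ∧ r ≤ (c i).length) ∧
          ∀ i j : Fin k, i ≠ j → List.Disjoint (c i).support (c j).support) := by
  intro h
  obtain ⟨u, c, hc, hd⟩ := h 3 7 (by norm_num) (by norm_num) (by decide) (Fin 2 × Fin 13) twoCliques
    (by simp) (by decide)
  have key : ∀ i j : Fin 3, i ≠ j → (u i).1 ≠ (u j).1 := fun i j hij =>
    two_cycles (c i) (c j) (hc i).1 (hc j).1 (hc i).2 (hc j).2 (hd i j hij)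
  have h01 := key 0 1 (by decide)
  have h02 := key 0 2 (by decide)
  have h12 := key 1 2 (by decide)
  revert h01 h02 h12
  generalize (u 0).1 = x
  generalize (u 1).1 = y
  generalize (u 2).1 = z
  revert x y z
  decide

end Pool.Agent.S06936
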