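import Pool.Statements.S06973
import Pool.Agent.H28.Borsuk

set_option autoImplicit false
open Pool Pool.MP_058b80_co

namespace Pool.Agent.S06973

/-- For every matroid on a finite set with at least two bases, its bases can be split into (dimension of the base polytope + 1) classes so that, within each class, any two bases are strictly closer than the farthest pair of bases. -/
theorem result :
    ∀ (n : ℕ) (M : Matroid (Fin n)),
      (∃ B₁ B₂ : Set (Fin n), M.IsBase B₁ ∧ M.IsBase B₂ ∧ B₁ ≠ B₂) →
      ∃ f : Set (Fin n) →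
          Fin (Module.finrank ℝ
            (affineSpan ℝ
              ((fun B : Set (Fin n) => B.indicator (fun _ : Fin n => (1 : ℝ))) ''
                {B : Set (Fin n) | M.IsBase B})).direction + 1),
        ∀ B₁ B₂ : Set (Fin n), M.IsBase B₁ → M.IsBase B₂ → f B₁ = f B₂ →
          ∃ C₁ C₂ : Set (Fin n), M.IsBase C₁ ∧ M.IsBase C₂ ∧
            (symmDiff B₁ B₂).ncard < (symmDiff C₁ C₂).ncard := by
  intro n M h
  exact Pool.Agent.H28.Borsuk.main M _ (fun B B' hB hB' =>
    AffineSubspace.vsub_mem_direction (subset_affineSpan ℝ _ ⟨B, hB, rfl⟩)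
      (subset_affineSpan ℝ _ ⟨B', hB', rfl⟩)) h

end Pool.Agent.S06973
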