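import Pool.Statements.S07035
import Pool.Agent.H20.Pk4

set_option autoImplicit false
open Pool Pool.MP_086921_co

namespace Pool.Agent.S07035

/-- For every k there is N such that for all n ≥ N, any k graphs on n vertices each with at most n−k edges can be relabeled by permutations of the vertex set so that no two share an edge. -/
theorem result :
    ∀ k : ℕ, ∃ N : ℕ, ∀ n : ℕ, N ≤ n →
      ∀ G : Fin k → SimpleGraph (Fin n),
        (∀ i, Nat.card (G i).edgeSet ≤ n - k) →
        ∃ σ : Fin k → Equiv.Perm (Fin n),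
          ∀ i j : Fin k, i ≠ j →
            Disjoint ((G i).map (σ i).toEmbedding) ((G j).map (σ j).toEmbedding) := by
  intro k
  obtain ⟨N, hN⟩ := H20.Pk.pack k
  refine ⟨N + k, fun n hn G hG => ?_⟩
  classical
  obtain ⟨σ, hσ⟩ := hN (Fin n) (by rw [Fintype.card_fin]; omega) G fun i => by
    have h1 := (G i).sum_degrees_eq_twice_card_edges
    have h2 := hG i
    rw [Nat.card_eq_fintype_card, ← SimpleGraph.edgeFinset_card] at h2
    have h3 : ∀ v, (H20.Pk.nb (G i) v).card = (G i).degree v := fun v =>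
      congrArg Finset.card (Finset.ext fun u => by simp [H20.Pk.mem_nb])
    simp only [h3, Fintype.card_fin]
    omega
  refine ⟨fun i => (σ i).symm, fun i j ne => SimpleGraph.disjoint_left.2 fun x y h1 h2 => ?_⟩
  obtain ⟨a, b, k1, rfl, rfl⟩ := (SimpleGraph.map_adj _ _ _ _).1 h1
  obtain ⟨c, d, k2, e1, e2⟩ := (SimpleGraph.map_adj _ _ _ _).1 h2
  refine hσ i j ne ((σ i).symm a) ((σ i).symm b) ⟨by simpa using k1, ?_⟩
  simp only [Equiv.coe_toEmbedding] at e1 e2
  rw [← e1, ← e2]
  simpa using k2

end Pool.Agent.S07035
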