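import Pool.Statements.S07056

set_option autoImplicit false
open Pool Pool.MP_0959cd_co

namespace Pool.Agent.S07056

open Finset

/-- Arcs (with weights in twentieths) of the out-heavy half: root 0, children 1..4, leaves 5..8. -/
def w2 (u v : ℕ) : ℕ :=
  if u = 0 then (if 1 ≤ v ∧ v ≤ 4 then 5 else 0)
  else if u ≤ 4 then (if v = 0 then 14 else if v = u + 4 then 6 else 0)
  else (if v = 0 then 8 else if v + 4 = u then 13 else 0)

/-- Weights in twentieths: vertices 0..8 carry `w2`, vertices 9..17 carry its reverse, and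
each vertex 9 + i sends an arc of weight one to vertex i. -/
def w (u v : Fin 18) : ℕ :=
  if u.val < 9 then (if v.val < 9 then w2 u v else 0)
  else if v.val < 9 then (if u.val = v.val + 9 then 20 else 0)
  else w2 (v.val - 9) (u.val - 9)

def ok (s : Fin 18) : ℕ → Fin 18 → List (Fin 18) → ℕ → Bool
  | 0, _, _, _ => false
  | f + 1, cur, vis, acc =>
    (w cur s == 0 || decide (acc + w cur s < 20)) &&
      (List.finRange 18).all (fun v => w cur v == 0 || vis.contains v ||
        ok s f v (v :: vis) (acc + w cur v))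

lemma all_ok : ∀ s : Fin 18, ok s 19 s [s] 0 = true := by decide +kernel

lemma sound (c : ℕ → Fin 18) (L : ℕ) (hinj : ∀ i j, i ≤ L → j ≤ L → c i = c j → i = j)
    (hadj : ∀ i, i < L → w (c i) (c (i + 1)) ≠ 0) (hclose : w (c L) (c 0) ≠ 0) :
    ∀ (f j : ℕ) (vis : List (Fin 18)), j ≤ L → (∀ v ∈ vis, ∃ i, i ≤ j ∧ v = c i) →
      ok (c 0) f (c j) vis (∑ i ∈ range j, w (c i) (c (i + 1))) = true →
      ∑ i ∈ range L, w (c i) (c (i + 1)) + w (c L) (c 0) < 20 := by
  intro f
  induction f with
  | zero => intro j vis _ _ h; simp [ok] at h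
  | succ f ih =>
    intro j vis hj hvis h
    simp only [ok, Bool.and_eq_true, Bool.or_eq_true, beq_iff_eq, decide_eq_true_eq,
      List.all_eq_true, List.mem_finRange, List.contains_iff_mem, forall_const] at h
    rcases Nat.eq_or_lt_of_le hj with rfl | hlt
    · rcases h.1 with h1 | h1
      · exact absurd h1 hclose
      · exact h1
    · rcases h.2 (c (j + 1)) with (h1 | h1) | h1
      · exact absurd h1 (hadj j hlt)
      · obtain ⟨i, hi, he⟩ := hvis _ h1
        have := hinj _ _ hlt (by omega) he
        omega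
      · refine ih (j + 1) (c (j + 1) :: vis) hlt ?_ (by rw [sum_range_succ]; exact h1)
        intro v hv
        rcases List.mem_cons.1 hv with rfl | hv
        · exact ⟨j + 1, le_refl _, rfl⟩
        · obtain ⟨i, hi, he⟩ := hvis v hv
          exact ⟨i, by omega, he⟩

lemma w_out : ∀ u, 20 ≤ ∑ v, w u v := by decide +kernel
lemma w_in : ∀ u, 20 ≤ ∑ v, w v u := by decide +kernel
lemma w_le : ∀ u v, w u v ≤ 20 := by decide +kernel
lemma w_loop : ∀ u, w u u = 0 := by decide +kernel

/-- The negation of the preceding statement: In every finite nonempty loopless digraph with arc weights in [0,1] where each vertex has total out-weight at least 1 and total in-weight at least 1, some directed cycle has total weight at least 1. -/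
theorem result :
    ¬ (∀ (V : Type) [Fintype V] [Nonempty V] (G : Digraph V) (p : V → V → ℝ),
      (∀ v, ¬ G.Adj v v) →
      (∀ u v, 0 ≤ p u v ∧ p u v ≤ 1) →
      (∀ u v, ¬ G.Adj u v → p u v = 0) →
      (∀ u, 1 ≤ ∑ v, p u v) →
      (∀ u, 1 ≤ ∑ v, p v u) →
      ∃ (k : ℕ) (c : Fin (k + 2) → V),
        Function.Injective c ∧
        (∀ i, G.Adj (c i) (c (i + 1))) ∧
        1 ≤ ∑ i, p (c i) (c (i + 1))) := by
  intro H
  obtain ⟨k, c, hc, hadj, hsum⟩ := H (Fin 18) ⟨fun u v => w u v ≠ 0⟩
    (fun u v => (w u v : ℝ) / 20) (fun v h => h (w_loop v))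
    (fun u v => ⟨by positivity, by
      rw [div_le_one (by norm_num)]; exact_mod_cast w_le u v⟩)
    (fun u v h => by
      have : w u v = 0 := by simpa using h
      simp [this])
    (fun u => by
      rw [← sum_div, le_div_iff₀ (by norm_num), one_mul]; exact_mod_cast w_out u)
    (fun u => by
      rw [← sum_div, le_div_iff₀ (by norm_num), one_mul]; exact_mod_cast w_in u)
  rw [← sum_div, le_div_iff₀ (by norm_num), one_mul] at hsum
  have hsum' : 20 ≤ ∑ i, w (c i) (c (i + 1)) := by exact_mod_cast hsum
  set d : ℕ → Fin 18 := fun i => c (Fin.ofNat (k + 2) i) with hd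
  have e1 : ∀ i : ℕ, Fin.ofNat (k + 2) (i + 1) = Fin.ofNat (k + 2) i + 1 := by
    intro i; apply Fin.ext; simp [Fin.val_add]
  have e2 : d (k + 1 + 1) = d 0 := by
    simp only [hd]; congr 1; apply Fin.ext; simp
  have hsum2 : ∑ i, w (c i) (c (i + 1)) = ∑ i ∈ range (k + 2), w (d i) (d (i + 1)) := by
    rw [sum_range]
    refine sum_congr rfl (fun i _ => ?_)
    simp only [hd, e1]
    have : Fin.ofNat (k + 2) (i : ℕ) = i := by apply Fin.ext; simp
    rw [this]
  have hadj' : ∀ i, w (d i) (d (i + 1)) ≠ 0 := by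
    intro i
    simp only [hd, e1]
    exact hadj _
  have := sound d (k + 1) (fun i j hi hj h => by
      have := congrArg Fin.val (hc h)
      simpa [Nat.mod_eq_of_lt (show i < k + 2 by omega),
        Nat.mod_eq_of_lt (show j < k + 2 by omega)] using this)
    (fun i _ => hadj' i) (by rw [← e2]; exact hadj' _) 19 0 [d 0] (by omega)
    (fun v hv => ⟨0, le_refl _, by simpa using hv⟩) (by simpa using all_ok (d 0))
  rw [hsum2, sum_range_succ, e2] at hsum'
  omega

end Pool.Agent.S07056
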