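import Pool.Statements.S07059
import Pool.Agent.H21.Sem

set_option autoImplicit false
open Pool Pool.MP_095aaa_co

namespace Pool.Agent.S07059

/-- For cycles C_m, C_n (m,n ≥ 3) other than C3 with C4, the union C_m ∪ C_n has a super edge-magic total labeling (vertices get 1..m+n, edges get the rest, every edge sum constant) exactly when m+n is odd. -/
theorem result :
  ∀ m n : ℕ, 3 ≤ m → 3 ≤ n → ¬ ((m = 3 ∧ n = 4) ∨ (m = 4 ∧ n = 3)) →
    ((∃ f : Fin m ⊕ Fin n → ℕ, ∃ g : Fin m ⊕ Fin n → ℕ, ∃ k : ℕ,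
        Function.Injective f ∧
        Function.Injective g ∧
        (∀ v, 1 ≤ f v ∧ f v ≤ m + n) ∧
        (∀ e, m + n + 1 ≤ g e ∧ g e ≤ 2 * (m + n)) ∧
        (∀ i j : Fin m, j.val = (i.val + 1) % m →
            f (Sum.inl i) + f (Sum.inl j) + g (Sum.inl i) = k) ∧
        (∀ i j : Fin n, j.val = (i.val + 1) % n →
            f (Sum.inr i) + f (Sum.inr j) + g (Sum.inr i) = k))
      ↔ Odd (m + n)) := by
  intro m n hm hn h
  refine ⟨Pool.Agent.H21.Sem.odd m n (by omega) (by omega), fun ho => ?_⟩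
  rw [Nat.odd_iff] at ho
  by_cases e : m % 2 = 0
  · exact Pool.Agent.H21.Sem.all m n e (by omega) hm hn (by omega)
  · exact (Pool.Agent.H21.Sem.all n m (by omega) (by omega) hn hm (by omega)).swap

end Pool.Agent.S07059
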