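import Pool.Statements.S07067
import Pool.Agent.H16.Expand

set_option autoImplicit false
open Pool Pool.MP_099390_co

namespace Pool.Agent.S07067

open Pool.Agent.H16.Expand Finset

/-- For every finite graph G whose expansion G⁺ has crosscut number exactly 3, there is C such that every 3-uniform hypergraph on n vertices with no copy of G⁺ has at most C·n² edges. -/
theorem result :
  ∀ (V : Type) [Fintype V] (G : SimpleGraph V),
    ((∃ X : Finset (V ⊕ G.edgeSet), X.card = 3 ∧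
        ∀ (u v : V) (h : G.Adj u v),
          ((Sum.inl u : V ⊕ G.edgeSet) ∈ X ∧ (Sum.inl v : V ⊕ G.edgeSet) ∉ X ∧
              (Sum.inr ⟨s(u, v), (SimpleGraph.mem_edgeSet G).mpr h⟩ : V ⊕ G.edgeSet) ∉ X) ∨
          ((Sum.inl u : V ⊕ G.edgeSet) ∉ X ∧ (Sum.inl v : V ⊕ G.edgeSet) ∈ X ∧
              (Sum.inr ⟨s(u, v), (SimpleGraph.mem_edgeSet G).mpr h⟩ : V ⊕ G.edgeSet) ∉ X) ∨
          ((Sum.inl u : V ⊕ G.edgeSet) ∉ X ∧ (Sum.inl v : V ⊕ G.edgeSet) ∉ X ∧
              (Sum.inr ⟨s(u, v), (SimpleGraph.mem_edgeSet G).mpr h⟩ : V ⊕ G.edgeSet) ∈ X)) ∧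
     (∀ X : Finset (V ⊕ G.edgeSet),
        (∀ (u v : V) (h : G.Adj u v),
          ((Sum.inl u : V ⊕ G.edgeSet) ∈ X ∧ (Sum.inl v : V ⊕ G.edgeSet) ∉ X ∧
              (Sum.inr ⟨s(u, v), (SimpleGraph.mem_edgeSet G).mpr h⟩ : V ⊕ G.edgeSet) ∉ X) ∨
          ((Sum.inl u : V ⊕ G.edgeSet) ∉ X ∧ (Sum.inl v : V ⊕ G.edgeSet) ∈ X ∧
              (Sum.inr ⟨s(u, v), (SimpleGraph.mem_edgeSet G).mpr h⟩ : V ⊕ G.edgeSet) ∉ X) ∨
          ((Sum.inl u : V ⊕ G.edgeSet) ∉ X ∧ (Sum.inl v : V ⊕ G.edgeSet) ∉ X ∧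
              (Sum.inr ⟨s(u, v), (SimpleGraph.mem_edgeSet G).mpr h⟩ : V ⊕ G.edgeSet) ∈ X)) →
        3 ≤ X.card)) →
    ∃ C : ℝ, ∀ (n : ℕ) (H : Finset (Finset (Fin n))),
      (∀ e ∈ H, e.card = 3) →
      (¬ ∃ f : V → Fin n, Function.Injective f ∧
          ∃ g : G.edgeSet → Fin n, Function.Injective g ∧
            (∀ (e : G.edgeSet) (x : V), g e ≠ f x) ∧
            ∀ (u v : V) (h : G.Adj u v),
              ({f u, f v, g ⟨s(u, v), (SimpleGraph.mem_edgeSet G).mpr h⟩} : Finset (Fin n)) ∈ H) →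
      (H.card : ℝ) ≤ C * (n : ℝ) ^ 2 := by
  intro V _ G ⟨⟨X, hX, h⟩, _⟩
  classical
  apply main G
  have hc := card_toLeft_add_card_toRight (u := X)
  rw [hX] at hc
  have key : ∀ (a b : V) (hab : G.Adj a b),
      (a ∈ X.toLeft ∧ b ∉ X.toLeft) ∨ (b ∈ X.toLeft ∧ a ∉ X.toLeft) ∨
        (⟨s(a, b), hab⟩ : G.edgeSet) ∈ X.toRight := by
    intro a b hab
    simp only [mem_toLeft, mem_toRight]
    rcases h a b hab with h | h | h
    · exact Or.inl ⟨h.1, h.2.1⟩
    · exact Or.inr (Or.inl ⟨h.2.1, h.1⟩)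
    · exact Or.inr (Or.inr h.2.2)
  have key2 : ∀ (a b : V) (hab : G.Adj a b), (⟨s(a, b), hab⟩ : G.edgeSet) ∈ X.toRight →
      a ∉ X.toLeft ∧ b ∉ X.toLeft := by
    intro a b hab h'
    simp only [mem_toLeft, mem_toRight] at h' ⊢
    rcases h a b hab with h | h | h
    · exact absurd h' h.2.2
    · exact absurd h' h.2.2
    · exact ⟨h.1, h.2.1⟩
  obtain h0 | h0 | h0 | h0 : X.toRight.card = 0 ∨ X.toRight.card = 1 ∨ X.toRight.card = 2 ∨
    X.toRight.card = 3 := by omega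
  · refine Or.inr (Or.inr ⟨X.toLeft, by omega, fun a b hab => ?_⟩)
    rcases key a b hab with h | h | h
    · exact Or.inl h
    · exact Or.inr h
    · rw [card_eq_zero.1 h0] at h; simp at h
  · obtain ⟨⟨e, he⟩, h1⟩ := card_eq_one.1 h0
    obtain ⟨u, v, huv, h2⟩ := card_eq_two.1 (show X.toLeft.card = 2 by omega)
    induction e using Sym2.ind with
    | _ p q =>
      have h3 := key2 p q he (by rw [h1]; simp)
      simp only [h2, mem_insert, mem_singleton, not_or] at h3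
      refine Or.inr (Or.inl ⟨u, v, p, q, huv, G.ne_of_adj he, h3.1.1, h3.1.2, h3.2.1, h3.2.2,
        fun a b hab => ?_⟩)
      have h4 := key a b hab
      simp only [h1, h2, mem_insert, mem_singleton, not_or] at h4
      exact h4.imp_right (Or.imp_right (congrArg Subtype.val))
  · obtain ⟨e1, e2, he, h1⟩ := card_eq_two.1 h0
    obtain ⟨u, h2⟩ := card_eq_one.1 (show X.toLeft.card = 1 by omega)
    obtain ⟨p, q, r, s, d1, d2, d3, d4, d5, k1, k2⟩ := two_edges G e1 e2 he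
    refine Or.inl ⟨u, p, q, r, s, d1, d2, d3, d4, d5, fun a b hab => ?_⟩
    have h4 := key a b hab
    simp only [h1, h2, mem_insert, mem_singleton] at h4
    rcases h4 with h4 | h4 | h4 | h4
    · exact Or.inl h4.1
    · exact Or.inr (Or.inl h4.1)
    · exact Or.inr (Or.inr (Or.inl (by rw [← k1, ← h4])))
    · exact Or.inr (Or.inr (Or.inr (by rw [← k2, ← h4])))
  · obtain ⟨e1, e2, ⟨e, he⟩, h12, -, -, h1⟩ := card_eq_three.1 h0
    have h2 := card_eq_zero.1 (show X.toLeft.card = 0 by omega)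
    obtain ⟨p, q, r, s, d1, d2, d3, d4, d5, k1, k2⟩ := two_edges G e1 e2 h12
    induction e using Sym2.ind with
    | _ u v =>
      refine Or.inl ⟨u, p, q, r, s, d1, d2, d3, d4, d5, fun a b hab => ?_⟩
      have h4 := key a b hab
      simp only [h1, h2, mem_insert, mem_singleton, notMem_empty, false_and, false_or] at h4
      rcases h4 with h4 | h4 | h4
      · exact Or.inr (Or.inr (Or.inl (by rw [← k1, ← h4])))
      · exact Or.inr (Or.inr (Or.inr (by rw [← k2, ← h4])))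
      · rcases Sym2.eq_iff.1 (congrArg Subtype.val h4) with h5 | h5
        · exact Or.inl h5.1
        · exact Or.inr (Or.inl h5.2)

end Pool.Agent.S07067
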