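import Pool.Statements.S07094
import Pool.Agent.H22.HamSpace

set_option autoImplicit false
open Pool Pool.MP_0a7691_co

namespace Pool.Agent.S07094

/-- The negation of the preceding statement: There exist k and f such that every k-connected Hamiltonian graph on an odd number n of vertices with n at least f(independence number) has its Hamilton cycles spanning its whole cycle space over GF(2). -/
theorem result :
    ¬ (∃ k : ℕ, ∃ f : ℕ → ℕ,
      ∀ (V : Type) [Fintype V] [DecidableEq V] (G : SimpleGraph V),
        Odd (Fintype.card V) →
        (k < Fintype.card V ∧
          ∀ S : Finset V, S.card < k → (G.induce ((↑S : Set V)ᶜ)).Connected) →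
        G.IsHamiltonian →
        f G.indepNum ≤ Fintype.card V →
        Submodule.span (ZMod 2)
            {x : Sym2 V → ZMod 2 | ∃ (u : V) (p : G.Walk u u),
              p.IsHamiltonianCycle ∧
                x = Set.indicator {e : Sym2 V | e ∈ p.edges} (fun _ => (1 : ZMod 2))} =
          Submodule.span (ZMod 2)
            {x : Sym2 V → ZMod 2 | ∃ (u : V) (p : G.Walk u u),
              p.IsCycle ∧
                x = Set.indicator {e : Sym2 V | e ∈ p.edges} (fun _ => (1 : ZMod 2))}) := by
  exact Pool.Agent.H22.HamSpace.main

end Pool.Agent.S07094
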