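import Pool.Statements.S07114

set_option autoImplicit false
open Filter Topology
open Pool Pool.MP_0b90e2_co

namespace Pool.Agent.S07114

abbrev Edge (n : ℕ) := {e : Sym2 (Fin n) // ¬ e.IsDiag}

/-- The colouring of the complete graph on 2m vertices determined by g: an edge between the lower
half and the upper half gets the colour prescribed by g, every other edge gets colour 0. -/
def colAux (m : ℕ) (g : Fin m × Fin m → Fin 26) (u v : Fin (m + m)) : Fin 26 :=
  if h : u.1 < m ∧ m ≤ v.1 then g (⟨u.1, h.1⟩, ⟨v.1 - m, by omega⟩)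
  else if h : v.1 < m ∧ m ≤ u.1 then g (⟨v.1, h.1⟩, ⟨u.1 - m, by omega⟩) else 0

lemma colAux_symm (m : ℕ) (g : Fin m × Fin m → Fin 26) (u v : Fin (m + m)) :
    colAux m g u v = colAux m g v u := by
  unfold colAux
  split_ifs with h1 h2 h2 <;> first | rfl | omega

def col (m : ℕ) (g : Fin m × Fin m → Fin 26) (e : Edge (m + m)) : Fin 26 :=
  Sym2.lift ⟨colAux m g, colAux_symm m g⟩ e.1

lemma col_inj (m : ℕ) : Function.Injective (col m) := by
  intro g g' h
  funext ⟨a, b⟩
  have hne : ¬ (s((⟨a.1, by omega⟩ : Fin (m + m)), (⟨m + b.1, by omega⟩ : Fin (m + m)))).IsDiag := by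
    simp only [Sym2.mk_isDiag_iff, Fin.mk.injEq]; omega
  have := congrFun h ⟨_, hne⟩
  simpa [col, colAux] using this

lemma colAux_same (m : ℕ) (g : Fin m × Fin m → Fin 26) (u v : Fin (m + m))
    (h : (u.1 < m ↔ v.1 < m)) : colAux m g u v = 0 := by
  unfold colAux
  split_ifs with h1 h2 <;> first | rfl | omega

lemma col_good (m : ℕ) (g : Fin m × Fin m → Fin 26) (S : Finset (Fin (m + m))) (hS : S.card = 4) :
    ((Finset.univ.filter (fun e : Edge (m + m) => e.1 ∈ S.sym2)).image (col m g)).card < 6 := by
  classical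
  set A := S.filter (fun u => u.1 < m) with hA
  set B := S.filter (fun u => ¬ u.1 < m) with hB
  have hAB : A.card + B.card = 4 := by
    rw [hA, hB, Finset.card_filter_add_card_filter_not, hS]
  have hsub : (Finset.univ.filter (fun e : Edge (m + m) => e.1 ∈ S.sym2)).image (col m g) ⊆
      insert 0 ((A ×ˢ B).image (fun p => colAux m g p.1 p.2)) := by
    intro c hc
    simp only [Finset.mem_image, Finset.mem_filter, Finset.mem_univ, true_and] at hc
    obtain ⟨⟨e, he⟩, hmem, rfl⟩ := hc
    induction e using Sym2.ind with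
    | _ u v =>
      simp only [Finset.mk_mem_sym2_iff] at hmem
      simp only [col, Sym2.lift_mk, Finset.mem_insert, Finset.mem_image, Finset.mem_product]
      by_cases hu : u.1 < m <;> by_cases hv : v.1 < m
      · left; exact colAux_same m g u v (by tauto)
      · right; exact ⟨(u, v), ⟨by simp [hA, hmem.1, hu], by simp only [hB, Finset.mem_filter]; exact ⟨hmem.2, hv⟩⟩, rfl⟩
      · right
        exact ⟨(v, u), ⟨by simp [hA, hmem.2, hv], by simp only [hB, Finset.mem_filter]; exact ⟨hmem.1, hu⟩⟩,
          colAux_symm m g v u⟩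
      · left; exact colAux_same m g u v (by tauto)
  have h1 := Finset.card_le_card hsub
  have h2 := Finset.card_insert_le (0 : Fin 26) ((A ×ˢ B).image (fun p => colAux m g p.1 p.2))
  have h3 : ((A ×ˢ B).image (fun p => colAux m g p.1 p.2)).card ≤ A.card * B.card := by
    rw [← Finset.card_product]; exact Finset.card_image_le
  have h4 : A.card * B.card ≤ 4 := by
    have : A.card ≤ 4 := by omega
    obtain h : B.card = 4 - A.card := by omega
    rw [h]
    interval_cases A.card <;> simp
  omega

lemma count_ge (m : ℕ) : 26 ^ (m * m) ≤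
    Nat.card {c : Edge (m + m) → Fin 26 // ∀ S : Finset (Fin (m + m)), S.card = 4 →
      ((Finset.univ.filter (fun e : Edge (m + m) => e.1 ∈ S.sym2)).image c).card < 6} := by
  have := Nat.card_le_card_of_injective
    (fun g : Fin m × Fin m → Fin 26 => (⟨col m g, col_good m g⟩ : {c : Edge (m + m) → Fin 26 //
      ∀ S : Finset (Fin (m + m)), S.card = 4 →
      ((Finset.univ.filter (fun e : Edge (m + m) => e.1 ∈ S.sym2)).image c).card < 6}))
    (fun g g' h => col_inj m (congrArg Subtype.val h))
  simpa using this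

/-- The negation of the preceding statement. Counterexample: k = 4, s = 6, r = 26. -/
theorem result :
    ¬ (∀ k s r : ℕ, 3 ≤ k → 3 ≤ s → s ≤ k.choose 2 → s ≤ r →
      Tendsto
        (fun n : ℕ =>
          (Nat.card {c : {e : Sym2 (Fin n) // ¬ e.IsDiag} → Fin r //
              ∀ S : Finset (Fin n), S.card = k →
                ((Finset.univ.filter
                    (fun e : {e : Sym2 (Fin n) // ¬ e.IsDiag} => e.1 ∈ S.sym2)).image c).card < s} : ℝ)
            / ((r.choose (s - 1) : ℝ) * ((s : ℝ) - 1) ^ (n.choose 2)))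
        atTop (𝓝 1)) := by
  intro h
  have h1 := h 4 6 26 (by norm_num) (by norm_num) (by decide) (by norm_num)
  have h2 := h1.eventually (gt_mem_nhds (show (1 : ℝ) < 2 by norm_num))
  obtain ⟨N, hN⟩ := eventually_atTop.1 h2
  have h3 := hN ((N + 8) + (N + 8)) (by omega)
  set m := N + 8 with hm
  have h4 := (Nat.cast_le (α := ℝ)).2 (count_ge m)
  rw [Nat.cast_pow, Nat.cast_ofNat] at h4
  have hch : (m + m).choose 2 + m = 2 * (m * m) := by
    have : ∀ t : ℕ, (t + t).choose 2 + t = 2 * (t * t) := by
      intro t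
      induction t with
      | zero => simp
      | succ t ih =>
        have e : t + 1 + (t + 1) = (t + t + 1) + 1 := by ring
        rw [e, Nat.choose_succ_succ, Nat.choose_succ_succ (t + t) 1]
        simp only [Nat.choose_one_right, Nat.succ_eq_add_one]
        norm_num
        nlinarith
    exact this m
  have hc : (Nat.choose 26 (6 - 1) : ℝ) = 65780 := by
    have : Nat.choose 26 (6 - 1) = 65780 := by decide +kernel
    exact_mod_cast this
  rw [div_lt_iff₀ (by rw [hc]; positivity), hc] at h3
  have h5 : (((6 : ℕ) : ℝ) - 1) = 5 := by norm_num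
  rw [h5] at h3
  have h6 : (5 : ℝ) ^ ((m + m).choose 2) * 5 ^ m = 25 ^ (m * m) := by
    rw [← pow_add, hch, pow_mul]; norm_num
  have h7 : (25 : ℝ) ^ (m * m) ≤ 26 ^ (m * m) := by gcongr; norm_num
  have h8 : (5 : ℝ) ^ 8 ≤ 5 ^ m := by gcongr <;> [norm_num; omega]
  have h9 : (0 : ℝ) < 5 ^ ((m + m).choose 2) := by positivity
  have h10 := lt_of_le_of_lt h4 h3
  nlinarith

end Pool.Agent.S07114
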