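import Pool.Statements.S07181
import Pool.Agent.H25.Rosenfeld

set_option autoImplicit false
open Pool Pool.MP_0dd31c_co

namespace Pool.Agent.S07181

open Finset

lemma half_even (T : Finset ℕ) (k : ℕ) :
    ((range (2 * k)).filter (fun i => (i / 2 ∈ T ↔ i % 2 = 0))).card = k := by
  induction k with
  | zero => simp
  | succ k ih =>
    rw [card_filter] at ih ⊢
    rw [show 2 * (k + 1) = 2 * k + 1 + 1 by ring, sum_range_succ, sum_range_succ, ih]
    have e1 : (2 * k + 1) / 2 = k := by omega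
    have e2 : 2 * k / 2 = k := by omega
    have e3 : (2 * k + 1) % 2 = 1 := by omega
    have e4 : 2 * k % 2 = 0 := by omega
    rw [e1, e2, e3, e4]
    by_cases h : k ∈ T <;> simp [h]

lemma half (T : Finset ℕ) (N : ℕ) :
    ((range N).filter (fun i => (i / 2 ∈ T ↔ i % 2 = 0))).card = N / 2 ∨
    ((range N).filter (fun i => (i / 2 ∈ T ↔ i % 2 = 0))).card = N - N / 2 := by
  obtain ⟨k, rfl | rfl⟩ := Nat.even_or_odd' N
  · left; rw [half_even]; omega
  · have := half_even T k
    rw [card_filter] at this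
    rw [card_filter, sum_range_succ, this]
    split_ifs
    · right; omega
    · left; omega

lemma exists_idx (V : Finset ℕ) : ∃ idx : ℕ → ℕ, Set.InjOn idx V ∧ V.image idx = range V.card := by
  refine ⟨fun v => if h : v ∈ V then (V.equivFin ⟨v, h⟩ : ℕ) else 0, ?_, ?_⟩
  · intro v hv w hw h
    have hv' : v ∈ V := hv
    have hw' : w ∈ V := hw
    simp only [hv', hw', dif_pos] at h
    have := V.equivFin.injective (Fin.ext h)
    exact congrArg Subtype.val this
  · ext i
    simp only [mem_image, mem_range]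
    constructor
    · rintro ⟨v, hv, rfl⟩
      simp [hv]
    · intro hi
      refine ⟨(V.equivFin.symm ⟨i, hi⟩).1, (V.equivFin.symm ⟨i, hi⟩).2, ?_⟩
      simp

lemma asym (c : ℝ) (h1 : 1 < c) (h2 : c < 2) : ∃ β : ℝ, 0 < β ∧ ∃ n₀ : ℕ, ∀ n, n₀ ≤ n →
    4 * c ^ (n + 1) ≤ (2 - β) * β ^ n := by
  refine ⟨(c + 2) / 2, by linarith, ?_⟩
  set β := (c + 2) / 2 with hβ
  have hβ0 : 0 < β := by linarith
  have hr : c / β < 1 := by rw [div_lt_one hβ0]; linarith
  have ht := tendsto_pow_atTop_nhds_zero_of_lt_one (show 0 ≤ c / β by positivity) hr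
  have hε : 0 < (2 - β) / 8 := by linarith
  obtain ⟨n₀, hn₀⟩ := Filter.eventually_atTop.1 (ht.eventually (gt_mem_nhds hε))
  refine ⟨n₀, fun n hn => ?_⟩
  have h := hn₀ n hn
  rw [div_pow, div_lt_iff₀ (by positivity)] at h
  have hc : 0 < c ^ n := by positivity
  rw [pow_succ]
  nlinarith

/-- For every c in (1,2) there is n0 such that for n ≥ n0 every n-uniform finite hypergraph with all degrees at most c^n has a red set of exactly half (floor) of its vertices such that no edge is all red or all blue. -/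
theorem result :
    ∀ c : ℝ, 1 < c → c < 2 →
      ∃ n₀ : ℕ, ∀ n : ℕ, n₀ ≤ n →
        ∀ F : Finset (Finset ℕ),
          (∀ A ∈ F, A.card = n) →
          (∀ v : ℕ, ((F.filter (fun A => v ∈ A)).card : ℝ) ≤ c ^ n) →
          ∃ R : Finset ℕ, R ⊆ F.biUnion id ∧
            R.card = (F.biUnion id).card / 2 ∧
            ∀ A ∈ F, (A ∩ R).Nonempty ∧ ¬ A ⊆ R := by
  intro c h1 h2
  obtain ⟨β, hβ, n₀, hn₀⟩ := asym c h1 h2
  refine ⟨n₀ + 1, fun n hn F hF hdeg => ?_⟩
  obtain ⟨m, rfl⟩ : ∃ m, n = m + 1 := ⟨n - 1, by omega⟩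
  set V := F.biUnion id with hV
  have hAV : ∀ A ∈ F, A ⊆ V := fun A hA => subset_biUnion_of_mem id hA
  obtain ⟨idx, hinj, himg⟩ := exists_idx V
  set p : ℕ → ℕ := fun v => idx v / 2 with hp
  set F' := F.filter (fun A => (A.image p).card = m + 1) with hF'
  set Ev : Finset (Finset ℕ × Fin 2) := F' ×ˢ univ with hEv
  have hD : ∀ x, ((Ev.filter (fun B => x ∈ B.1.image p)).card : ℝ) ≤ 4 * c ^ (m + 1) := by
    intro x
    have e1 : Ev.filter (fun B => x ∈ B.1.image p) ⊆
        ((V.filter (fun v => p v = x)).biUnion (fun v => F.filter (fun A => v ∈ A))) ×ˢ univ := by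
      intro B hB
      obtain ⟨hB1, hB2⟩ := mem_filter.1 hB
      obtain ⟨v, hv, hvx⟩ := mem_image.1 hB2
      have hBF : B.1 ∈ F := (mem_filter.1 (mem_product.1 hB1).1).1
      exact mem_product.2 ⟨mem_biUnion.2 ⟨v, mem_filter.2 ⟨hAV _ hBF hv, hvx⟩,
        mem_filter.2 ⟨hBF, hv⟩⟩, mem_univ _⟩
    have e2 : (V.filter (fun v => p v = x)).card ≤ 2 := by
      have : (V.filter (fun v => p v = x)).card ≤ ({2 * x, 2 * x + 1} : Finset ℕ).card := by
        refine card_le_card_of_injOn idx ?_ (hinj.mono (by intro v hv; exact (mem_filter.1 hv).1))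
        intro v hv
        have := (mem_filter.1 (mem_coe.1 hv)).2
        simp only [hp] at this
        simp only [coe_insert, coe_singleton, Set.mem_insert_iff, Set.mem_singleton_iff]
        omega
      exact this.trans card_le_two
    have e3 : (((V.filter (fun v => p v = x)).biUnion
        (fun v => F.filter (fun A => v ∈ A))).card : ℝ) ≤ 2 * c ^ (m + 1) := by
      have a1 : (((V.filter (fun v => p v = x)).biUnion
          (fun v => F.filter (fun A => v ∈ A))).card : ℝ) ≤
          ∑ v ∈ V.filter (fun v => p v = x), ((F.filter (fun A => v ∈ A)).card : ℝ) := by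
        exact_mod_cast card_biUnion_le
      have a2 := sum_le_card_nsmul (V.filter (fun v => p v = x))
        (fun v => ((F.filter (fun A => v ∈ A)).card : ℝ)) _ (fun v _ => hdeg v)
      rw [nsmul_eq_mul] at a2
      have a3 : ((V.filter (fun v => p v = x)).card : ℝ) ≤ 2 := by exact_mod_cast e2
      have a4 : 0 < c ^ (m + 1) := by positivity
      nlinarith
    have e4 := card_le_card e1
    rw [card_product, card_univ, Fintype.card_fin] at e4
    have e5 : ((Ev.filter (fun B => x ∈ B.1.image p)).card : ℝ) ≤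
        (((V.filter (fun v => p v = x)).biUnion
          (fun v => F.filter (fun A => v ∈ A))).card : ℝ) * 2 := by exact_mod_cast e4
    linarith
  obtain ⟨T, hT⟩ := Pool.Agent.H25.Rosenfeld.exists_good Ev (fun B => B.1.image p)
    (fun B => (B.1.filter (fun v => idx v % 2 = B.2)).image p) m β (4 * c ^ (m + 1)) hβ
    (fun B hB => (mem_filter.1 (mem_product.1 hB).1).2) hD (hn₀ m (by omega))
  set R := V.filter (fun v => (idx v / 2 ∈ T ↔ idx v % 2 = 0)) with hR
  have hRc : R.card = ((range V.card).filter (fun i => (i / 2 ∈ T ↔ i % 2 = 0))).card := by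
    rw [← himg, filter_image, card_image_of_injOn]
    exact hinj.mono (by intro v hv; exact (mem_filter.1 hv).1)
  have mono : ∀ A ∈ F, ∀ b : Fin 2, ¬ ∀ v ∈ A, (idx v / 2 ∈ T ↔ idx v % 2 = b) := by
    intro A hA b h
    by_cases hA' : (A.image p).card = m + 1
    · refine hT (A, b) (mem_product.2 ⟨mem_filter.2 ⟨hA, hA'⟩, mem_univ _⟩) ?_
      ext y
      simp only [mem_inter, mem_image, mem_filter]
      constructor
      · rintro ⟨hy, v, hv, rfl⟩
        exact ⟨v, ⟨hv, (h v hv).1 hy⟩, rfl⟩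
      · rintro ⟨v, ⟨hv, hs⟩, rfl⟩
        exact ⟨(h v hv).2 hs, v, hv, rfl⟩
    · apply hA'
      rw [← hF A hA]
      refine card_image_of_injOn (fun v hv w hw hvw => hinj (hAV A hA hv) (hAV A hA hw) ?_)
      have a1 := h v hv
      have a2 := h w hw
      simp only [hp] at hvw
      rw [hvw, a2] at a1
      have := b.2
      omega
  have main : ∀ A ∈ F, (A ∩ R).Nonempty ∧ ¬ A ⊆ R := by
    intro A hA
    constructor
    · by_contra hne
      refine mono A hA 1 (fun v hv => ?_)
      have : v ∉ R := fun h => hne ⟨v, mem_inter.2 ⟨hv, h⟩⟩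
      simp only [hR, mem_filter, hAV A hA hv, true_and] at this
      have e : ((1 : Fin 2) : ℕ) = 1 := rfl
      rw [e]
      by_cases ht : idx v / 2 ∈ T
      · simp only [ht, true_iff] at this ⊢; omega
      · simp only [ht, false_iff] at this ⊢; omega
    · intro hsub
      exact mono A hA 0 (fun v hv => (mem_filter.1 (hsub hv)).2)
  have hRV : R ⊆ V := filter_subset _ _
  rcases half T V.card with h | h
  · exact ⟨R, hRV, hRc.trans h, main⟩
  · refine ⟨V \ R, sdiff_subset, ?_, fun A hA => ⟨?_, ?_⟩⟩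
    · rw [card_sdiff_of_subset hRV, hRc, h]; omega
    · obtain ⟨v, hv, hvR⟩ := not_subset.1 (main A hA).2
      exact ⟨v, mem_inter.2 ⟨hv, mem_sdiff.2 ⟨hAV A hA hv, hvR⟩⟩⟩
    · obtain ⟨v, hv⟩ := (main A hA).1
      intro hsub
      exact (mem_sdiff.1 (hsub (mem_inter.1 hv).1)).2 (mem_inter.1 hv).2

end Pool.Agent.S07181
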