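import Pool.Statements.S07189
import Pool.Agent.H22.Blow3

set_option autoImplicit false
open Pool Pool.MP_0e9ba1_co

namespace Pool.Agent.S07189

/-- There is a constant c such that for every k, any lists of at least c·k colours on the vertices of the infinite path blown up by K_k allow a choice of colours from the lists with no path whose colour sequence is a square. -/
theorem result :
  ∃ c : ℕ, ∀ k : ℕ, ∀ L : ℕ × Fin k → Finset ℕ, (∀ v, c * k ≤ (L v).card) →
    ∃ f : ℕ × Fin k → ℕ, (∀ v, f v ∈ L v) ∧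
      ∀ n : ℕ, 0 < n → ∀ v : ℕ → ℕ × Fin k,
        (∀ i j, i < 2 * n → j < 2 * n → v i = v j → i = j) →
        (∀ i, i + 1 < 2 * n →
          ((v i).1 + 1 = (v (i + 1)).1 ∨ (v (i + 1)).1 + 1 = (v i).1 ∨
            ((v i).1 = (v (i + 1)).1 ∧ (v i).2 ≠ (v (i + 1)).2))) →
        ¬ (∀ i, i < n → f (v i) = f (v (i + n))) := by
  exact Pool.Agent.H22.Blow.main

end Pool.Agent.S07189
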