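import Pool.Statements.S07199
import Pool.Agent.H83.EdgeOrb

set_option autoImplicit false
open Pool Pool.MP_0f290c_co

namespace Pool.Agent.S07199

/-- For every cardinal κ there is a group G such that every graph whose automorphism group is isomorphic to G has more than κ orbits of automorphisms acting on its edges. -/
theorem result :
    ∀ κ : Cardinal.{0}, ∃ (G : Type) (_ : Group G),
      ∀ (V : Type) (X : SimpleGraph V),
        Nonempty (G ≃* SimpleGraph.Iso X X) →
        ∀ S : Set (Sym2 V), S ⊆ X.edgeSet →
          (∀ e ∈ X.edgeSet, ∃ s ∈ S, ∃ φ : SimpleGraph.Iso X X, Sym2.map (⇑φ) s = e) →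
          κ < Cardinal.mk S := by
  exact Pool.Agent.H83.EdgeOrb.main

end Pool.Agent.S07199
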