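import Pool.Statements.S07214
import Pool.Agent.H1.Part2

set_option autoImplicit false
open N18cfefb3
open Filter Function Real
open scoped Pointwise
open Pool Pool.MP_0f9876_co

namespace Pool.Agent.S07214

/-- The negation of the preceding statement: ∃ c : ℕ → ℕ, ∀ n K, every partition of F_2^n into K (possibly empty) classes has some class i and an affine subspace S ⊆ A_i + A_i with n ≤ dim(dir S) + c K -/
theorem result :
    ¬ (∃ (c : ℕ → ℕ), ∀ (n K : ℕ) (A : Fin K → Set (𝔽₂ n)), (⋃ i, A i) = Set.univ → Pairwise (Disjoint on A) → ∃ (i : Fin K) (S : AffineSubspace (ZMod 2) (𝔽₂ n)), (S : Set (𝔽₂ n)) ⊆ A i + A i ∧ n ≤ Module.finrank (ZMod 2) S.direction + c K) := by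
  rintro ⟨c, hc⟩
  let ι := (Fin 209 × Bool) ⊕ Bool
  obtain ⟨n, hn, κ, hκ⟩ := Pool.Agent.H1.Part2.main (c (Fintype.card ι))
  obtain ⟨e⟩ : Nonempty (𝔽₂ (n + n) ≃ₗ[ZMod 2] Pool.Agent.H1.Part2.V n) :=
    FiniteDimensional.nonempty_linearEquiv_of_finrank_eq (by simp)
  obtain ⟨i, S, hS, hd⟩ := hc (n + n) (Fintype.card ι)
    (fun i => {x | κ (e x) = (Fintype.equivFin ι).symm i})
    (Set.eq_univ_of_forall fun x => Set.mem_iUnion.2 ⟨Fintype.equivFin ι (κ (e x)), by simp⟩)
    (fun i j hij => Set.disjoint_left.2 fun x hi hj =>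
      hij ((Fintype.equivFin ι).symm.injective (hi.symm.trans hj)))
  obtain ⟨x₀, hx₀⟩ : (S : Set (𝔽₂ (n + n))).Nonempty := by
    rcases S.eq_bot_or_nonempty with rfl | h
    · rw [AffineSubspace.direction_bot, finrank_bot] at hd; omega
    · exact h
  obtain ⟨φ, hφ⟩ := (finrank_le_iff_exists_linearMap (R := ZMod 2)
    (M := 𝔽₂ (n + n) ⧸ S.direction) (M' := Pool.Agent.H1.Part2.Y (c (Fintype.card ι)))).1 (by
      have : Module.finrank (ZMod 2) (𝔽₂ (n + n) ⧸ S.direction) + Module.finrank (ZMod 2) S.direction =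
          n + n := S.direction.finrank_quotient_add_finrank.trans (by simp)
      simp only [Module.finrank_fintype_fun_eq_card, Fintype.card_fin]
      omega)
  obtain ⟨z, hz, h⟩ := hκ ((Fintype.equivFin ι).symm i)
    (φ ∘ₗ S.direction.mkQ ∘ₗ e.symm.toLinearMap) (e x₀)
  have h1 : e.symm z - x₀ ∈ S.direction := by
    have := hφ hz
    simpa [Submodule.Quotient.eq] using this
  have h2 : e.symm z ∈ S := by
    have := AffineSubspace.vadd_mem_of_mem_direction h1 hx₀
    simpa using this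
  obtain ⟨x, hx, y, hy, hxy⟩ := hS h2
  exact h (e x) (e y) hx hy (by rw [← map_add]; exact (e.eq_symm_apply).1 hxy)

end Pool.Agent.S07214
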