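import Pool.Statements.S07220

set_option autoImplicit false
open Pool Pool.MP_0fb6b1_co

namespace Pool.Agent.S07220

/-- gadget parts -/
def A : Fin 3 → Finset ℕ := ![{0, 1, 2}, {0, 3, 4}, {1, 5, 6}]

/-- members of the family -/
def f (u : ℕ) (a : Fin 3) (j : ℕ) : Finset ℕ := A a ∪ Finset.Ico (7 + j) (7 + j + u)

lemma A_lt (a : Fin 3) : ∀ x ∈ A a, x < 7 := by
  revert a; decide

lemma A_card (a : Fin 3) : (A a).card = 3 := by
  revert a; decide

lemma f_card (u : ℕ) (a : Fin 3) (j : ℕ) : (f u a j).card = u + 3 := by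
  unfold f
  rw [Finset.card_union_of_disjoint, A_card, Nat.card_Ico]
  · omega
  · rw [Finset.disjoint_left]
    intro x hx hx'
    have := A_lt a x hx
    simp at hx'
    omega

lemma mem_f (u : ℕ) (a : Fin 3) (j x : ℕ) (hx : x < 7) : x ∈ f u a j ↔ x ∈ A a := by
  unfold f
  simp only [Finset.mem_union, Finset.mem_Ico]
  constructor
  · rintro (h | h)
    · exact h
    · omega
  · intro h; exact Or.inl h

lemma f_inj (u : ℕ) (hu : 0 < u) (a : Fin 3) : Function.Injective (f u a) := by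
  intro i j h
  have h1 : 7 + i ∈ f u a j := by
    rw [← h]; unfold f; simp; right; omega
  have h2 : 7 + j ∈ f u a i := by
    rw [h]; unfold f; simp; right; omega
  unfold f at h1 h2
  simp only [Finset.mem_union, Finset.mem_Ico] at h1 h2
  rcases h1 with h1 | h1
  · have := A_lt a _ h1; omega
  rcases h2 with h2 | h2
  · have := A_lt a _ h2; omega
  omega

lemma bad (u : ℕ) (a : Fin 3) (j i0 i1 i2 : ℕ) :
    f u a j ∩ f u 0 i0 ≠ (f u 1 i1 ∩ f u 0 i0) ∪ (f u 2 i2 ∩ f u 0 i0) := by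
  intro h
  have key : ∀ x, x < 7 → ((x ∈ A a ∧ x ∈ A 0) ↔ ((x ∈ A 1 ∧ x ∈ A 0) ∨ (x ∈ A 2 ∧ x ∈ A 0))) := by
    intro x hx
    have := Finset.ext_iff.mp h x
    simp only [Finset.mem_inter, Finset.mem_union, mem_f _ _ _ _ hx] at this
    exact this
  have k0 := key 0 (by norm_num)
  have k1 := key 1 (by norm_num)
  have k2 := key 2 (by norm_num)
  revert k0 k1 k2
  revert a
  intro a _ _
  fin_cases a <;> decide

theorem result :
    ¬ (∃ K : ℝ, ∀ ε : ℝ, 0 < ε → ∃ W : ℕ, ∀ w : ℕ, W ≤ w →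
      ∀ F : Finset (Finset ℕ), (∀ A ∈ F, A.card = w) → K ^ w ≤ (F.card : ℝ) →
        (1 - ε) * (F.card : ℝ) ^ 3 ≤
          (((F ×ˢ F ×ˢ F).filter
            (fun p : Finset ℕ × Finset ℕ × Finset ℕ =>
              ∃ T ∈ F, T ∩ p.1 = (p.2.1 ∩ p.1) ∪ (p.2.2 ∩ p.1))).card : ℝ)) := by
  rintro ⟨K, hK⟩
  obtain ⟨W, hW⟩ := hK (1 / 54) (by norm_num)
  set u := W + 1 with hu
  obtain ⟨M0, hM0⟩ := exists_nat_ge (K ^ (u + 3))
  set M := M0 + 1 with hM
  set G : Fin 3 → Finset (Finset ℕ) := fun a => (Finset.range M).image (f u a) with hG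
  have hGc : ∀ a, (G a).card = M := by
    intro a
    simp only [hG]
    rw [Finset.card_image_of_injective _ (f_inj u (by omega) a), Finset.card_range]
  set F : Finset (Finset ℕ) := G 0 ∪ G 1 ∪ G 2 with hF
  have hmem : ∀ S ∈ F, ∃ a j, S = f u a j := by
    intro S hS
    simp only [hF, hG, Finset.mem_union, Finset.mem_image] at hS
    rcases hS with (⟨j, _, h⟩ | ⟨j, _, h⟩) | ⟨j, _, h⟩
    · exact ⟨0, j, h.symm⟩
    · exact ⟨1, j, h.symm⟩
    · exact ⟨2, j, h.symm⟩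
  have hsub : ∀ a, G a ⊆ F := by
    intro a S hS
    simp only [hF, Finset.mem_union]
    fin_cases a
    · exact Or.inl (Or.inl hS)
    · exact Or.inl (Or.inr hS)
    · exact Or.inr hS
  have hFle : F.card ≤ 3 * M := by
    calc F.card ≤ (G 0 ∪ G 1).card + (G 2).card := Finset.card_union_le _ _
      _ ≤ (G 0).card + (G 1).card + (G 2).card := by
        have := Finset.card_union_le (G 0) (G 1); omega
      _ = 3 * M := by rw [hGc, hGc, hGc]; ring
  have hFge : M ≤ F.card := by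
    rw [← hGc 0]; exact Finset.card_le_card (hsub 0)
  have h := hW (u + 3) (by omega) F (by
    intro S hS
    obtain ⟨a, j, rfl⟩ := hmem S hS
    exact f_card u a j) (by
    have : (M : ℝ) ≤ F.card := by exact_mod_cast hFge
    have h2 : (M0 : ℝ) ≤ M := by simp [hM]
    linarith)
  have hs : ((F ×ˢ F ×ˢ F).filter
            (fun p : Finset ℕ × Finset ℕ × Finset ℕ =>
              ∃ T ∈ F, T ∩ p.1 = (p.2.1 ∩ p.1) ∪ (p.2.2 ∩ p.1))) ⊆
        (F ×ˢ F ×ˢ F) \ (G 0 ×ˢ G 1 ×ˢ G 2) := by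
    intro p hp
    rw [Finset.mem_filter] at hp
    rw [Finset.mem_sdiff]
    refine ⟨hp.1, ?_⟩
    intro hq
    obtain ⟨T, hT, hT2⟩ := hp.2
    obtain ⟨a, j, rfl⟩ := hmem T hT
    simp only [Finset.mem_product, hG, Finset.mem_image] at hq
    obtain ⟨⟨i0, _, h0⟩, ⟨i1, _, h1⟩, ⟨i2, _, h2⟩⟩ := hq
    rw [← h0, ← h1, ← h2] at hT2
    exact bad u a j i0 i1 i2 hT2
  have hsub3 : (G 0 ×ˢ G 1 ×ˢ G 2) ⊆ (F ×ˢ F ×ˢ F) :=
    Finset.product_subset_product (hsub 0) (Finset.product_subset_product (hsub 1) (hsub 2))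
  have hc := Finset.card_le_card hs
  rw [Finset.card_sdiff_of_subset hsub3] at hc
  have hle := Finset.card_le_card hsub3
  simp only [Finset.card_product, hGc] at hc hle
  have hc' : (((F ×ˢ F ×ˢ F).filter
            (fun p : Finset ℕ × Finset ℕ × Finset ℕ =>
              ∃ T ∈ F, T ∩ p.1 = (p.2.1 ∩ p.1) ∪ (p.2.2 ∩ p.1))).card : ℝ) ≤
        (F.card : ℝ) * (F.card * F.card) - M * (M * M) := by
    have := (Nat.cast_le (α := ℝ)).mpr hc
    rw [Nat.cast_sub hle] at this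
    push_cast at this
    exact this
  have hMpos : (0 : ℝ) < M := by simp [hM]; positivity
  have hF3 : (F.card : ℝ) ≤ 3 * M := by exact_mod_cast hFle
  have hF0 : (0 : ℝ) ≤ F.card := by positivity
  have : (F.card : ℝ) ^ 3 ≤ (3 * M) ^ 3 := pow_le_pow_left₀ hF0 hF3 3
  have hM3 : (0 : ℝ) < (M : ℝ) ^ 3 := by positivity
  nlinarith

end Pool.Agent.S07220
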