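import Pool.Statements.S07234
import Pool.Agent.H1.DiagD

set_option autoImplicit false
open Pool Pool.MP_109265_co

namespace Pool.Agent.S07234

def T0 : Finset (Finset (Fin 10)) :=
  {{0, 1, 5}, {0, 1, 7}, {0, 2, 4}, {0, 2, 6}, {0, 3, 6}, {0, 3, 8}, {0, 4, 9}, {0, 5, 8}, {0, 7, 9}, {1, 2, 3}, {1, 2, 5}, {1, 3, 4}, {1, 4, 9}, {1, 7, 8}, {1, 8, 9}, {2, 3, 8}, {2, 4, 7}, {2, 5, 6}, {2, 7, 8}, {3, 4, 5}, {3, 5, 7}, {3, 6, 9}, {3, 7, 9}, {4, 5, 8}, {4, 6, 7}, {4, 6, 8}, {5, 6, 7}, {6, 8, 9}}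

def lk : Fin 10 → List (Fin 10) :=
  ![[1, 5, 8, 3, 6, 2, 4, 9, 7], [0, 5, 2, 3, 4, 9, 8, 7], [0, 4, 7, 8, 3, 1, 5, 6], [0, 6, 9, 7, 5, 4, 1, 2, 8], [0, 2, 7, 6, 8, 5, 3, 1, 9], [0, 1, 2, 6, 7, 3, 4, 8], [0, 2, 5, 7, 4, 8, 9, 3], [0, 1, 8, 2, 4, 6, 5, 3, 9], [0, 3, 2, 7, 1, 9, 6, 4, 5], [0, 4, 1, 8, 6, 3, 7]]

lemma chain_reach {V : Type} (r : V → V → Prop) (l : List V)
    (h : l.IsChain (fun x y => x ≠ y ∧ r x y)) :
    ∀ a ∈ l, ∀ b ∈ l, (SimpleGraph.fromRel r).Reachable a b := by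
  have h2 : l.IsChain (SimpleGraph.fromRel r).Reachable :=
    h.imp (fun x y hxy => ((SimpleGraph.fromRel_adj r x y).2 ⟨hxy.1, Or.inl hxy.2⟩).reachable)
  have : Trans (SimpleGraph.fromRel r).Reachable (SimpleGraph.fromRel r).Reachable
      (SimpleGraph.fromRel r).Reachable := ⟨fun h1 h2 => h1.trans h2⟩
  have h3 := List.isChain_iff_pairwise.1 h2
  intro a ha b hb
  have : Std.Symm (SimpleGraph.fromRel r).Reachable := ⟨fun x y h => SimpleGraph.Reachable.symm h⟩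
  exact List.Pairwise.forall_of_forall (fun x _ => SimpleGraph.Reachable.refl x) h3 ha hb

lemma t1 : ∀ t ∈ T0, t.card = 3 := by decide +kernel
lemma t2 : ∀ v : Fin 10, ∃ t ∈ T0, v ∈ t := by decide +kernel
lemma t3 : ∀ t ∈ T0, ∀ e ∈ t.powersetCard 2, (T0.filter (fun s => e ⊆ s)).card = 2 := by
  decide +kernel
lemma t4 : ∀ v : Fin 10, (lk v).IsChain (fun x y => x ≠ y ∧ ({v, x, y} : Finset (Fin 10)) ∈ T0) := by
  decide +kernel
lemma t5 : ∀ v a : Fin 10, (∃ t ∈ T0, v ∈ t ∧ a ∈ t ∧ v ≠ a) → a ∈ lk v := by decide +kernel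
lemma t6 : ([0, 1, 5, 8, 3, 6, 2, 4, 9, 7] : List (Fin 10)).IsChain
    (fun x y => x ≠ y ∧ ∃ t ∈ T0, x ∈ t ∧ y ∈ t) := by decide +kernel
lemma t7 : ∀ a : Fin 10, a ∈ ([0, 1, 5, 8, 3, 6, 2, 4, 9, 7] : List (Fin 10)) := by decide
lemma t8 : T0.card = 28 := by decide +kernel

/-- The negation of the preceding statement: For every closed surface other than the sphere (Euler characteristic ε, given orientability), the least k such that every triangulation has a colouring with the vertices of any two edge-adjacent triangles all distinct is ⌊(13+√(169−48ε))/2⌋. -/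
theorem result :
    ¬ (∀ (ε : ℤ) (o : Bool), ε ≠ 2 →
    (∃ (n : ℕ) (T : Finset (Finset (Fin n))),
      0 < n ∧
      (∀ t ∈ T, t.card = 3) ∧
      (∀ v : Fin n, ∃ t ∈ T, v ∈ t) ∧
      (∀ t ∈ T, ∀ e ⊆ t, e.card = 2 → (T.filter (fun s => e ⊆ s)).card = 2) ∧
      (∀ v a b : Fin n, (∃ t ∈ T, v ∈ t ∧ a ∈ t ∧ v ≠ a) → (∃ t ∈ T, v ∈ t ∧ b ∈ t ∧ v ≠ b) →
        (SimpleGraph.fromRel (fun x y : Fin n => ({v, x, y} : Finset (Fin n)) ∈ T)).Reachable a b) ∧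
      (∀ a b : Fin n, (SimpleGraph.fromRel (fun x y : Fin n => ∃ t ∈ T, x ∈ t ∧ y ∈ t)).Reachable a b) ∧
      2 * (n : ℤ) - (T.card : ℤ) = 2 * ε ∧
      ((∃ s : Fin n → Fin n → Fin n → ℤ,
          (∀ a b c, s a b c = -s b a c) ∧ (∀ a b c, s a b c = s b c a) ∧
          (∀ a b c, ({a, b, c} : Finset (Fin n)) ∈ T → s a b c = 1 ∨ s a b c = -1) ∧
          (∀ a b c d, ({a, b, c} : Finset (Fin n)) ∈ T → ({a, b, d} : Finset (Fin n)) ∈ T →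
            c ≠ d → s a b c = -s a b d)) ↔ o = true)) →
    ∀ k : ℕ,
      (∀ (n : ℕ) (T : Finset (Finset (Fin n))),
        0 < n →
        (∀ t ∈ T, t.card = 3) →
        (∀ v : Fin n, ∃ t ∈ T, v ∈ t) →
        (∀ t ∈ T, ∀ e ⊆ t, e.card = 2 → (T.filter (fun s => e ⊆ s)).card = 2) →
        (∀ v a b : Fin n, (∃ t ∈ T, v ∈ t ∧ a ∈ t ∧ v ≠ a) → (∃ t ∈ T, v ∈ t ∧ b ∈ t ∧ v ≠ b) →
          (SimpleGraph.fromRel (fun x y : Fin n => ({v, x, y} : Finset (Fin n)) ∈ T)).Reachable a b) →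
        (∀ a b : Fin n, (SimpleGraph.fromRel (fun x y : Fin n => ∃ t ∈ T, x ∈ t ∧ y ∈ t)).Reachable a b) →
        2 * (n : ℤ) - (T.card : ℤ) = 2 * ε →
        ((∃ s : Fin n → Fin n → Fin n → ℤ,
            (∀ a b c, s a b c = -s b a c) ∧ (∀ a b c, s a b c = s b c a) ∧
            (∀ a b c, ({a, b, c} : Finset (Fin n)) ∈ T → s a b c = 1 ∨ s a b c = -1) ∧
            (∀ a b c d, ({a, b, c} : Finset (Fin n)) ∈ T → ({a, b, d} : Finset (Fin n)) ∈ T →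
              c ≠ d → s a b c = -s a b d)) ↔ o = true) →
        ∃ c : Fin n → Fin k, ∀ t₁ ∈ T, ∀ t₂ ∈ T, (t₁ ∩ t₂).card = 2 →
          Set.InjOn c (↑(t₁ ∪ t₂) : Set (Fin n)))
      ↔ ⌊(13 + Real.sqrt (169 - 48 * (ε : ℝ))) / 2⌋₊ ≤ k) := by
  intro h
  classical
  have key := h (-4) (decide (∃ s : Fin 10 → Fin 10 → Fin 10 → ℤ,
          (∀ a b c, s a b c = -s b a c) ∧ (∀ a b c, s a b c = s b c a) ∧
          (∀ a b c, ({a, b, c} : Finset (Fin 10)) ∈ T0 → s a b c = 1 ∨ s a b c = -1) ∧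
          (∀ a b c d, ({a, b, c} : Finset (Fin 10)) ∈ T0 → ({a, b, d} : Finset (Fin 10)) ∈ T0 →
            c ≠ d → s a b c = -s a b d))) (by norm_num)
    ⟨10, T0, by norm_num, t1, t2,
      fun t ht e he h2 => t3 t ht e (Finset.mem_powersetCard.2 ⟨he, h2⟩),
      fun v a b ha hb => chain_reach _ _ (t4 v) a (t5 v a ha) b (t5 v b hb),
      fun a b => chain_reach _ _ t6 a (t7 a) b (t7 b), by rw [t8]; norm_num,
      (decide_eq_true_iff).symm⟩ 15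
  have h15 := key.1 (fun n T _ c1 c2 c3 c4 c5 c6 _ =>
    Pool.Agent.H1.Diag.colour15 ⟨c1, c2, c3, c4, c5⟩ (by rw [Fintype.card_fin]; omega))
  have e : Real.sqrt (169 - 48 * (((-4 : ℤ)) : ℝ)) = 19 := by
    rw [show (169 - 48 * (((-4 : ℤ)) : ℝ)) = 19 ^ 2 by norm_num]
    exact Real.sqrt_sq (by norm_num)
  rw [e, show ((13 + 19 : ℝ) / 2) = ((16 : ℕ) : ℝ) by norm_num, Nat.floor_natCast] at h15
  omega

end Pool.Agent.S07234
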