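import Pool.Statements.S07263
import Pool.Agent.H16.AvgMix2

set_option autoImplicit false
open Pool Pool.MP_127f79_co

namespace Pool.Agent.S07263


/-- For every connected distance-regular graph other than K2 whose distance-i graphs are all connected, the sum of Schur squares of the adjacency matrix's spectral idempotents has rank equal to the number of vertices. -/
theorem result :
    ∀ (V : Type) [Fintype V] [DecidableEq V] (G : SimpleGraph V) [DecidableRel G.Adj],
      G.Connected →
      (∀ u v u' v' : V, G.dist u v = G.dist u' v' → ∀ j k : ℕ,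
        (Finset.univ.filter (fun w => G.dist u w = j ∧ G.dist v w = k)).card =
        (Finset.univ.filter (fun w => G.dist u' w = j ∧ G.dist v' w = k)).card) →
      (∀ i : ℕ, 1 ≤ i → i ≤ G.diam →
        (SimpleGraph.fromRel (fun u v : V => G.dist u v = i)).Connected) →
      Fintype.card V ≠ 2 →
      ∀ (s : Finset ℝ) (E : ℝ → Matrix V V ℝ),
        (∀ θ ∈ s, E θ * E θ = E θ) →
        (∀ θ ∈ s, ∀ θ' ∈ s, θ ≠ θ' → E θ * E θ' = 0) →
        (∑ θ ∈ s, E θ) = 1 →
        G.adjMatrix ℝ = ∑ θ ∈ s, θ • E θ →
        (∑ θ ∈ s, Matrix.hadamard (E θ) (E θ)).rank = Fintype.card V := by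
  intro V _ _ G _ hc hd hp hcard s E h1 h2 h3 h4
  exact Pool.Agent.H16.AvgMix.main hc hd hp hcard h1 h2 h3 h4

end Pool.Agent.S07263
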