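import Pool.Statements.S07275
import Pool.Agent.H3.Layer

set_option autoImplicit false
open Pool Pool.MP_12e063_co

namespace Pool.Agent.S07275

open Pool.Agent.H3.Layer Pool.Agent.H3.PST

/-- There are constants C,k such that arbitrarily large connected simple graphs exist with at most C·diam^k vertices, each having perfect state transfer: for some distinct u,v and time t, the (u,v) entry of exp(-itA) has modulus 1. -/
theorem result :
    ∃ C k : ℕ, ∀ N : ℕ, ∃ (n : ℕ) (G : SimpleGraph (Fin n)) (_ : DecidableRel G.Adj),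
      N < n ∧ G.Connected ∧ n ≤ C * G.diam ^ k ∧
      ∃ (u v : Fin n) (t : ℝ), u ≠ v ∧
        ‖∑' m : ℕ, ((-(t : ℂ) * Complex.I) ^ m / (m.factorial : ℂ)) *
            ((G.adjMatrix ℂ) ^ m) u v‖ = 1 := by
  classical
  refine ⟨48, 2, fun N => ?_⟩
  let e : Fin (Fintype.card (V (N + 1))) ≃ V (N + 1) := (Fintype.equivFin _).symm
  have hc : ((G (N + 1)).comap e).Connected :=
    (SimpleGraph.Iso.comap e (G (N + 1))).connected_iff.2 (connected N)
  have hd : 2 * N + 1 ≤ ((G (N + 1)).comap e).diam := by
    have := le_diam _ hc (fun a => ((e a).1.1 : ℕ)) (fun a b h => lip _ _ _ h)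
      (e.symm (c0 N)) (e.symm (top N))
    rw [e.apply_symm_apply, e.apply_symm_apply] at this
    simpa [c0, top] using this
  have hlt : ((G (N + 1)).comap e).diam ≤ Fintype.card (V (N + 1)) := by
    have : Nonempty (Fin (Fintype.card (V (N + 1)))) := hc.nonempty
    obtain ⟨a, b, hab⟩ := ((G (N + 1)).comap e).exists_dist_eq_diam
    obtain ⟨p, hp, hl⟩ := hc.exists_path_of_dist a b
    have := hp.length_lt
    rw [Fintype.card_fin] at this
    omega
  refine ⟨_, (G (N + 1)).comap e, inferInstance, by omega, hc, ?_, e.symm (v N), e.symm (u N),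
    Real.pi / 2, fun h => u_ne_v N (e.symm.injective h).symm, ?_⟩
  · have := card_le (N + 1)
    have h2 : (N + 1) ^ 2 ≤ ((G (N + 1)).comap e).diam ^ 2 := Nat.pow_le_pow_left (by omega) 2
    omega
  · rw [tsum_entry, exp_comap, e.apply_symm_apply, e.apply_symm_apply]
    have h := congrFun (pst N (-((Real.pi / 2 : ℝ) : ℂ) * Complex.I) (by
      rw [show -((Real.pi / 2 : ℝ) : ℂ) * Complex.I * 2 = -(Real.pi * Complex.I) by
        push_cast; ring, Complex.exp_neg, Complex.exp_pi_mul_I]
      norm_num)) (v N)
    rw [Matrix.mulVec_single_one] at h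
    simp only [Matrix.col_apply, Pi.single_eq_same] at h
    rw [h, norm_one]

end Pool.Agent.S07275
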