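import Pool.Statements.S07313
import Pool.Agent.H24.Crit3

set_option autoImplicit false
open Pool Pool.MP_1501a3_co

namespace Pool.Agent.S07313

/-- There exist c > 0 and l < 2 such that every finite graph G whose connectivity drops to exactly k − ∣X∣ after deleting any set X of at most 3 vertices has at most c·k^l vertices. -/
theorem result :
    ∃ c : ℝ, 0 < c ∧ ∃ l : ℝ, l < 2 ∧
      ∀ (n : ℕ) (G : SimpleGraph (Fin n)) (k : ℕ),
        (∀ X : Finset (Fin n), X.card ≤ 3 →
          ∃ j : ℕ, (j : ℤ) = (k : ℤ) - (X.card : ℤ) ∧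
            (j < (Xᶜ).card ∧
              ∀ S : Finset (Fin n), Disjoint S X → S.card < j →
                (G.induce (((X ∪ S : Finset (Fin n)) : Set (Fin n))ᶜ)).Connected) ∧
            ¬ (j + 1 < (Xᶜ).card ∧
              ∀ S : Finset (Fin n), Disjoint S X → S.card < j + 1 →
                (G.induce (((X ∪ S : Finset (Fin n)) : Set (Fin n))ᶜ)).Connected)) →
        (n : ℝ) ≤ c * (k : ℝ) ^ l := by
  refine ⟨16, by norm_num, (3 : ℝ) / 2, by norm_num, fun n G k h => ?_⟩
  obtain ⟨j, j1, j2, _⟩ := h ∅ (by simp)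
  have hj : j = k := by simpa using j1
  subst hj
  have := Pool.Agent.H24.Crit.mader (G := G) (k := j) (by simpa using j2.1) ?_ ?_ ?_
  · simpa using this
  · intro X hX
    obtain ⟨i, i1, _⟩ := h X hX
    omega
  · intro S hS
    have := j2.2 S (by simp) hS
    rwa [Finset.empty_union] at this
  · intro hn X hX
    obtain ⟨i, i1, _, i2⟩ := h X hX
    by_contra h1
    push Not at h1
    have e : j - X.card = i := by omega
    rw [e] at h1
    refine i2 ⟨?_, h1⟩
    rw [Finset.card_compl]
    omega

end Pool.Agent.S07313
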