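import Pool.Statements.S07316
import Pool.Agent.H26.StepUp

set_option autoImplicit false
open Pool Pool.MP_150b74_co

namespace Pool.Agent.S07316

/-- The negation of the preceding statement: For r≥3, q≥2, ε>0 there is D such that for every ρ in [0,1]^q with sum below q−ε, some C gives, for all k≥1, an n with ln n ≤ C·k^D where every q-colouring of r-sets of [n] has an S of size ≥k and colour j with min colour-j degree in S ≥ ρ_j·C(∣S∣−1,r−1). -/
theorem result :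
    ¬ (∀ r q : ℕ, 3 ≤ r → 2 ≤ q → ∀ ε : ℝ, 0 < ε →
      ∃ D : ℝ, ∀ ρ : Fin q → ℝ, (∀ i, 0 ≤ ρ i ∧ ρ i ≤ 1) → ∑ i, ρ i < (q : ℝ) - ε →
        ∃ C : ℝ, ∀ k : ℕ, 1 ≤ k → ∃ n : ℕ, Real.log (n : ℝ) ≤ C * (k : ℝ) ^ D ∧
          ∀ φ : Finset (Fin n) → Fin q, ∃ S : Finset (Fin n), k ≤ S.card ∧ ∃ j : Fin q,
            ∀ v ∈ S, ρ j * (((S.card - 1).choose (r - 1) : ℕ) : ℝ) ≤
              (((S.powersetCard r).filter (fun e => v ∈ e ∧ φ e = j)).card : ℝ)) := by
  intro h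
  obtain ⟨D, hD⟩ := h 4 9 (by norm_num) (by norm_num) (1 / 4) (by norm_num)
  obtain ⟨C, hC⟩ := hD H26.StepUp.rho (fun i => by
    unfold H26.StepUp.rho; split_ifs <;> norm_num) (by
    simp only [H26.StepUp.rho, Fin.sum_univ_succ, Fin.sum_univ_zero]
    norm_num [Fin.ext_iff])
  obtain ⟨m, hm, hlt⟩ := H26.StepUp.asym C D
  obtain ⟨n, hn, hφ⟩ := hC (m + 4) (by omega)
  obtain ⟨S, hS, j, hj⟩ := hφ (H26.StepUp.phi n)
  refine H26.StepUp.main m n hm ?_ S hS j hj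
  by_contra hn'
  have h1 : ((2 ^ (2 ^ m - 1) : ℕ) : ℝ) ≤ n := by exact_mod_cast (not_le.1 hn').le
  have h2 := Real.log_le_log (by positivity) h1
  rw [Nat.cast_pow, Real.log_pow] at h2
  exact absurd (h2.trans hn) (not_le.2 (by simpa using hlt))

end Pool.Agent.S07316
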