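import Pool.Statements.S07321
import Pool.Agent.H21.Ryser4

set_option autoImplicit false
open Pool Pool.MP_155e99_co

namespace Pool.Agent.S07321

/-- For every even n ≥ 2 with x² = n·y² + (−1)^((n²+n)/2)·z² nontrivially solvable, some integer (n²+n+1)-square matrix A has A·Aᵀ = nI+J, nonnegative column sums, one 0/1 column with a single zero, n+1 columns with n+1 ones and rest zeros, and all other columns summing to 0. -/
theorem result :
    ∀ n : ℕ, Even n → 2 ≤ n →
      (∃ x y z : ℤ, ¬ (x = 0 ∧ y = 0 ∧ z = 0) ∧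
        x ^ 2 = (n : ℤ) * y ^ 2 + (-1 : ℤ) ^ ((n ^ 2 + n) / 2) * z ^ 2) →
      ∃ A : Matrix (Fin (n ^ 2 + n + 1)) (Fin (n ^ 2 + n + 1)) ℤ,
        (∀ j, 0 ≤ ∑ i, A i j) ∧
        A * A.transpose =
          (n : ℤ) • (1 : Matrix (Fin (n ^ 2 + n + 1)) (Fin (n ^ 2 + n + 1)) ℤ)
            + Matrix.of (fun (_ : Fin (n ^ 2 + n + 1)) (_ : Fin (n ^ 2 + n + 1)) => (1 : ℤ)) ∧
        ∃ j₀ : Fin (n ^ 2 + n + 1), ∃ S : Finset (Fin (n ^ 2 + n + 1)),
          j₀ ∉ S ∧ S.card = n + 1 ∧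
          (∀ i, A i j₀ = 0 ∨ A i j₀ = 1) ∧
          (Finset.univ.filter (fun i => A i j₀ = 0)).card = 1 ∧
          (∀ j ∈ S, (∀ i, A i j = 0 ∨ A i j = 1) ∧
            (Finset.univ.filter (fun i => A i j = 1)).card = n + 1) ∧
          (∀ j, j ≠ j₀ → j ∉ S → ∑ i, A i j = 0) := by
  intro n he h2 h
  obtain ⟨M, hM, hc⟩ := H21.Ryser.core n (H21.Ryser.main n he h2 h)
  obtain ⟨A0, g1, g2⟩ := H21.Ryser.build n h2 M hM hc
  have er : Fin (n ^ 2 + n + 1) ≃ Option (Fin (n + 1) × Fin n) :=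
    Fintype.equivOfCardEq (by simp; ring)
  have ec : Fin (n ^ 2 + n + 1) ≃ Option (Fin (n + 1) ⊕ (Fin (n + 1) × Fin (n - 1))) :=
    Fintype.equivOfCardEq (by
      obtain ⟨m, rfl⟩ : ∃ m, n = m + 1 := ⟨n - 1, by omega⟩
      simp; ring)
  obtain ⟨c0, c1, c2, c3, c4, c5, c6⟩ := g2
  have hsum : ∀ j, ∑ i, A0 (er i) j = ∑ i, A0 i j := fun j => Equiv.sum_comp er (fun i => A0 i j)
  have hcard : ∀ (j) (a : ℤ), (Finset.univ.filter (fun i => A0 (er i) j = a)).card
      = (Finset.univ.filter (fun i => A0 i j = a)).card := by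
    intro j a
    rw [← Fintype.card_subtype, ← Fintype.card_subtype]
    exact Fintype.card_congr (er.subtypeEquiv (fun _ => Iff.rfl))
  refine ⟨Matrix.of fun i j => A0 (er i) (ec j), ?_, ?_, ec.symm none,
    Finset.univ.map ⟨fun g => ec.symm (some (Sum.inl g)), ?_⟩, ?_, ?_, ?_, ?_, ?_, ?_⟩
  · intro j
    simp only [Matrix.of_apply, hsum]
    exact c0 _
  · ext i i'
    simp only [Matrix.mul_apply, Matrix.transpose_apply, Matrix.of_apply, Matrix.add_apply,
      Matrix.smul_apply, Matrix.one_apply, smul_eq_mul]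
    rw [Equiv.sum_comp ec (fun j => A0 (er i) j * A0 (er i') j), g1]
    simp
  · intro a b hab
    simpa using hab
  · simp
  · simp
  · intro i
    simp only [Matrix.of_apply, Equiv.apply_symm_apply]
    exact c1 _
  · simp only [Matrix.of_apply, Equiv.apply_symm_apply, hcard]
    exact c2
  · intro j hj
    obtain ⟨g, -, rfl⟩ := Finset.mem_map.mp hj
    simp only [Function.Embedding.coeFn_mk, Matrix.of_apply, Equiv.apply_symm_apply, hcard]
    exact ⟨fun i => c3 _ _, c4 g⟩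
  · intro j h1 h3
    simp only [Matrix.of_apply, hsum]
    rcases hj : ec j with _ | g | g
    · exact absurd (by rw [← hj]; simp) h1
    · exact absurd (Finset.mem_map.mpr ⟨g, Finset.mem_univ _, by
        simp only [Function.Embedding.coeFn_mk]; rw [← hj]; simp⟩) h3
    · exact c5 g

end Pool.Agent.S07321
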