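import Pool.Statements.S07369
import Pool.Agent.H18.Inv2

set_option autoImplicit false
open Pool Pool.MP_172ed5_co

namespace Pool.Agent.S07369

/-- There are tournaments D1, D2, each with inversion number equal to its tournament minimum rank (min over vertex orders of GF(2) minimum rank of the backward-arc graph), such that the dijoin D1→D2 has inversion number below inv(D1)+inv(D2). -/
theorem result :
  ∃ (n m : ℕ) (D₁ : Fin n → Fin n → Prop) (D₂ : Fin m → Fin m → Prop),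
    ((∀ u, ¬ D₁ u u) ∧ ∀ u v, u ≠ v → (D₁ u v ↔ ¬ D₁ v u)) ∧
    ((∀ u, ¬ D₂ u u) ∧ ∀ u v, u ≠ v → (D₂ u v ↔ ¬ D₂ v u)) ∧
    sInf {k : ℕ | ∃ X : Fin k → Finset (Fin n), ∃ f : Fin n → ℕ, ∀ u v,
        ((D₁ u v ∧ Even (Finset.univ.filter (fun i => u ∈ X i ∧ v ∈ X i)).card) ∨
         (D₁ v u ∧ Odd (Finset.univ.filter (fun i => u ∈ X i ∧ v ∈ X i)).card)) → f u < f v}
      = sInf {r : ℕ | ∃ f : Fin n → ℕ, Function.Injective f ∧
          ∃ M : Matrix (Fin n) (Fin n) (ZMod 2), M.IsSymm ∧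
            (∀ u v, u ≠ v → (M u v = 1 ↔ ((D₁ u v ∧ f v < f u) ∨ (D₁ v u ∧ f u < f v)))) ∧
            M.rank = r} ∧
    sInf {k : ℕ | ∃ X : Fin k → Finset (Fin m), ∃ f : Fin m → ℕ, ∀ u v,
        ((D₂ u v ∧ Even (Finset.univ.filter (fun i => u ∈ X i ∧ v ∈ X i)).card) ∨
         (D₂ v u ∧ Odd (Finset.univ.filter (fun i => u ∈ X i ∧ v ∈ X i)).card)) → f u < f v}
      = sInf {r : ℕ | ∃ f : Fin m → ℕ, Function.Injective f ∧
          ∃ M : Matrix (Fin m) (Fin m) (ZMod 2), M.IsSymm ∧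
            (∀ u v, u ≠ v → (M u v = 1 ↔ ((D₂ u v ∧ f v < f u) ∨ (D₂ v u ∧ f u < f v)))) ∧
            M.rank = r} ∧
    ∃ J : Fin n ⊕ Fin m → Fin n ⊕ Fin m → Prop,
      (∀ x y, J x y ↔
        ((∃ a b, x = Sum.inl a ∧ y = Sum.inl b ∧ D₁ a b) ∨
         (∃ a b, x = Sum.inr a ∧ y = Sum.inr b ∧ D₂ a b) ∨
         (∃ a b, x = Sum.inl a ∧ y = Sum.inr b))) ∧
      sInf {k : ℕ | ∃ X : Fin k → Finset (Fin n ⊕ Fin m), ∃ f : Fin n ⊕ Fin m → ℕ, ∀ u v,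
          ((J u v ∧ Even (Finset.univ.filter (fun i => u ∈ X i ∧ v ∈ X i)).card) ∨
           (J v u ∧ Odd (Finset.univ.filter (fun i => u ∈ X i ∧ v ∈ X i)).card)) → f u < f v}
        <
      sInf {k : ℕ | ∃ X : Fin k → Finset (Fin n), ∃ f : Fin n → ℕ, ∀ u v,
          ((D₁ u v ∧ Even (Finset.univ.filter (fun i => u ∈ X i ∧ v ∈ X i)).card) ∨
           (D₁ v u ∧ Odd (Finset.univ.filter (fun i => u ∈ X i ∧ v ∈ X i)).card)) → f u < f v}
      + sInf {k : ℕ | ∃ X : Fin k → Finset (Fin m), ∃ f : Fin m → ℕ, ∀ u v,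
          ((D₂ u v ∧ Even (Finset.univ.filter (fun i => u ∈ X i ∧ v ∈ X i)).card) ∨
           (D₂ v u ∧ Odd (Finset.univ.filter (fun i => u ∈ X i ∧ v ∈ X i)).card)) → f u < f v} := by
  obtain ⟨Y, Z, hYZ, hY, hZ⟩ := H18.Inv.good42
  have t1 := H18.Inv.Tn_Tour (H35.Dijoin.gram_symm Y)
  have t2 := H18.Inv.Tn_Tour (H35.Dijoin.gram_symm Z)
  obtain ⟨n, e1, i1, a1, b1⟩ := H18.Inv.chain (R := 42) (by norm_num) 79 _ t1
    (H18.Inv.tmr_gt (H35.Dijoin.gram_symm Y) hY)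
  obtain ⟨m, e2, i2, a2, b2⟩ := H18.Inv.chain (R := 42) (by norm_num) 79 _ t2
    (H18.Inv.tmr_gt (H35.Dijoin.gram_symm Z) hZ)
  refine ⟨n, m, fun u v => H35.Dijoin.Tn (Y.transpose * Y) (e1 u) (e1 v),
    fun u v => H35.Dijoin.Tn (Z.transpose * Z) (e2 u) (e2 v), t1.comp i1, t2.comp i2, ?_, ?_, _,
    fun x y => Iff.rfl, ?_⟩
  · exact (congrArg sInf (H18.Inv.invSet_finset _)).trans
      (b1.trans (congrArg sInf (H18.Inv.tmrSet_eq (t1.comp i1)).symm))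
  · exact (congrArg sInf (H18.Inv.invSet_finset _)).trans
      (b2.trans (congrArg sInf (H18.Inv.tmrSet_eq (t2.comp i2)).symm))
  · rw [H18.Inv.invSet_finset fun u v => H35.Dijoin.Tn (Y.transpose * Y) (e1 u) (e1 v),
      H18.Inv.invSet_finset fun u v => H35.Dijoin.Tn (Z.transpose * Z) (e2 u) (e2 v)]
    refine lt_of_eq_of_lt (congrArg sInf (H18.Inv.invSet_finset _)) ?_
    refine lt_of_le_of_lt (Nat.sInf_le (H18.Inv.join_mem hYZ _ (Sum.map e1 e2) ?_)) (by omega)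
    rintro u v (⟨a, b, rfl, rfl, h⟩ | ⟨a, b, rfl, rfl, h⟩ | ⟨a, b, rfl, rfl⟩)
    · exact Sum.Lex.inl h
    · exact Sum.Lex.inr h
    · exact Sum.Lex.sep _ _

end Pool.Agent.S07369
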