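import Pool.Statements.S07377
import Pool.Agent.H98.Bil2

set_option autoImplicit false
open Pool Pool.MP_17bf10_co

namespace Pool.Agent.S07377

open scoped InnerProductSpace

theorem two {E : Type} [NormedAddCommGroup E] [InnerProductSpace ℝ E] {S : Finset E} {A B c u : E}
    {t : ℝ} (ht : 0 < t) (hu : ‖u‖ = 1) (hA : A = c + u) (hB : B = A - t • u) (hc : c ∈ S)
    (hP : ∀ s ∈ S, dist A s ≤ 1) :
    A ∈ frontier (⋂ c ∈ S, Metric.closedBall c (1 : ℝ)) ∧ A ≠ B ∧
      ((dist B A)⁻¹ • (B - A) + (dist B A)⁻¹ • (B - A)) ≠ 0 ∧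
      ∀ x ∈ (⋂ c ∈ S, Metric.closedBall c (1 : ℝ)),
        0 ≤ inner ℝ ((dist B A)⁻¹ • (B - A) + (dist B A)⁻¹ • (B - A)) (x - A) := by
  have e1 : B - A = (-t) • u := by rw [hB]; module
  have e2 : dist B A = t := by
    rw [dist_eq_norm, e1, norm_smul, hu, norm_neg, Real.norm_eq_abs, abs_of_pos ht, mul_one]
  have e3 : (dist B A)⁻¹ • (B - A) + (dist B A)⁻¹ • (B - A) = (-2:ℝ) • u := by
    rw [e2, e1, smul_smul, ← add_smul]
    congr 1
    field_simp
    norm_num
  have hu0 : u ≠ 0 := by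
    intro h
    rw [h, norm_zero] at hu
    exact zero_ne_one hu
  refine ⟨⟨subset_closure ?_, fun h => ?_⟩, fun h => ?_, ?_, fun x hx => ?_⟩
  · simp only [Set.mem_iInter, Metric.mem_closedBall]
    exact hP
  · have a1 : (⋂ c ∈ S, Metric.closedBall c (1 : ℝ)) ⊆ Metric.closedBall c 1 :=
      Set.biInter_subset_of_mem (t := fun c => Metric.closedBall c (1:ℝ)) hc
    have a2 := interior_mono a1 h
    rw [interior_closedBall c one_ne_zero, Metric.mem_ball, hA, dist_eq_norm, add_sub_cancel_left,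
      hu] at a2
    exact lt_irrefl _ a2
  · rw [h, dist_self] at e2
    exact ht.ne e2
  · rw [e3]
    exact smul_ne_zero (by norm_num) hu0
  · simp only [Set.mem_iInter, Metric.mem_closedBall] at hx
    have a1 := hx c hc
    rw [dist_eq_norm] at a1
    have a2 := real_inner_le_norm u (x - c)
    rw [hu] at a2
    have a3 : x - A = (x - c) - u := by rw [hA]; abel
    rw [e3, a3, real_inner_smul_left, inner_sub_right, real_inner_self_eq_norm_sq, hu]
    linarith

/-- In dimension d≥3, for an intersection of non-redundant unit balls with centres pairwise at distance ≤1, every closed generalized billiard trajectory on the boundary of minimal total length among all such trajectories has exactly 2 vertices. -/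
theorem result :
  ∀ d : ℕ, 3 ≤ d → ∀ S : Finset (EuclideanSpace ℝ (Fin d)), S.Nonempty →
    (∀ c ∈ S, ∀ c' ∈ S, dist c c' ≤ 1) →
    (∀ c ∈ S, ∃ x : EuclideanSpace ℝ (Fin d),
        (∀ c' ∈ S, c' ≠ c → dist x c' ≤ 1) ∧ 1 < dist x c) →
    ∀ n : ℕ, ∀ p : Fin n → EuclideanSpace ℝ (Fin d),
      (2 ≤ n ∧ ∀ i : Fin n,
        p i ∈ frontier (⋂ c ∈ S, Metric.closedBall c (1 : ℝ)) ∧
        p i ≠ p (finRotate n i) ∧
        ((dist (p (finRotate n i)) (p i))⁻¹ • (p (finRotate n i) - p i)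
          + (dist (p ((finRotate n).symm i)) (p i))⁻¹ • (p ((finRotate n).symm i) - p i)) ≠ 0 ∧
        ∀ x ∈ (⋂ c ∈ S, Metric.closedBall c (1 : ℝ)),
          0 ≤ inner ℝ ((dist (p (finRotate n i)) (p i))⁻¹ • (p (finRotate n i) - p i)
                + (dist (p ((finRotate n).symm i)) (p i))⁻¹ • (p ((finRotate n).symm i) - p i))
               (x - p i)) →
      (∀ m : ℕ, ∀ q : Fin m → EuclideanSpace ℝ (Fin d),
        (2 ≤ m ∧ ∀ j : Fin m,
          q j ∈ frontier (⋂ c ∈ S, Metric.closedBall c (1 : ℝ)) ∧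
          q j ≠ q (finRotate m j) ∧
          ((dist (q (finRotate m j)) (q j))⁻¹ • (q (finRotate m j) - q j)
            + (dist (q ((finRotate m).symm j)) (q j))⁻¹ • (q ((finRotate m).symm j) - q j)) ≠ 0 ∧
          ∀ x ∈ (⋂ c ∈ S, Metric.closedBall c (1 : ℝ)),
            0 ≤ inner ℝ ((dist (q (finRotate m j)) (q j))⁻¹ • (q (finRotate m j) - q j)
                  + (dist (q ((finRotate m).symm j)) (q j))⁻¹ • (q ((finRotate m).symm j) - q j))
                 (x - q j)) →
        ∑ i, dist (p i) (p (finRotate n i)) ≤ ∑ j, dist (q j) (q (finRotate m j))) →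
      n = 2 := by
  intro d hd S hS hfat _ n p hp hmin
  classical
  obtain ⟨hn, hp⟩ := hp
  obtain ⟨⟨ci, cj⟩, hij, hmax⟩ := (S ×ˢ S).exists_max_image (fun z => dist z.1 z.2) (hS.product hS)
  obtain ⟨hi, hj⟩ := Finset.mem_product.1 hij
  simp only at hi hj hmax
  obtain ⟨a, ha⟩ : ∃ a, a = dist ci cj := ⟨_, rfl⟩
  have ha0 : 0 ≤ a := ha ▸ dist_nonneg
  have ha1 : a ≤ 1 := ha ▸ hfat ci hi cj hj
  have hSa : ∀ c ∈ S, ∀ c' ∈ S, dist c c' ≤ a := fun c hc c' hc' =>
    ha ▸ hmax (c, c') (Finset.mem_product.2 ⟨hc, hc'⟩)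
  obtain ⟨u, hu, hcu⟩ : ∃ u : EuclideanSpace ℝ (Fin d), ‖u‖ = 1 ∧ cj = ci + a • u := by
    rcases eq_or_lt_of_le ha0 with h | h
    · refine ⟨EuclideanSpace.single ⟨0, by omega⟩ 1, by simp, ?_⟩
      rw [← h, zero_smul, add_zero]
      exact (dist_eq_zero.1 (ha ▸ h.symm)).symm
    · refine ⟨a⁻¹ • (cj - ci), ?_, ?_⟩
      · rw [norm_smul, norm_inv, Real.norm_eq_abs, abs_of_pos h, ← dist_eq_norm, dist_comm, ← ha,
          inv_mul_cancel₀ h.ne']
      · rw [smul_smul, mul_inv_cancel₀ h.ne', one_smul]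
        abel
  have hnu : ‖(1 - a) • u‖ = 1 - a := by
    rw [norm_smul, hu, Real.norm_eq_abs, abs_of_nonneg (by linarith), mul_one]
  have hA := two (S := S) (A := ci + u) (B := cj - u) (c := ci) (u := u) (t := 2 - a) (by linarith) hu
    rfl (by rw [hcu]; module) hi (fun s hs => by
      have a1 : dist (ci + u) cj = 1 - a := by
        rw [dist_eq_norm, ← hnu, hcu]
        congr 1
        module
      linarith [dist_triangle (ci + u) cj s, hSa cj hj s hs])
  have hB := two (S := S) (A := cj - u) (B := ci + u) (c := cj) (u := -u) (t := 2 - a) (by linarith)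
    (by rw [norm_neg, hu]) (sub_eq_add_neg _ _) (by rw [hcu]; module) hj (fun s hs => by
      have a1 : dist ci (cj - u) = 1 - a := by
        rw [dist_eq_norm, ← hnu, hcu]
        congr 1
        module
      rw [dist_comm] at a1
      linarith [dist_triangle (cj - u) ci s, hSa ci hi s hs])
  have hdAB : dist (ci + u) (cj - u) = 2 - a := by
    have : ci + u - (cj - u) = (2 - a) • u := by rw [hcu]; module
    rw [dist_eq_norm, this, norm_smul, hu, Real.norm_eq_abs, abs_of_nonneg (by linarith), mul_one]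
  have hL := hmin 2 ![ci + u, cj - u] ⟨le_refl _, fun j => by
    fin_cases j
    · exact hA
    · exact hB⟩
  have hR : ∑ j : Fin 2, dist (![ci + u, cj - u] j) (![ci + u, cj - u] (finRotate 2 j)) = 4 - 2 * a := by
    rw [Fin.sum_univ_two]
    show dist (ci + u) (cj - u) + dist (cj - u) (ci + u) = _
    rw [dist_comm (cj - u), hdAB]
    ring
  rw [hR] at hL
  obtain ⟨m, rfl⟩ : ∃ m, n = m + 1 := ⟨n - 1, by omega⟩
  have hrot : ∀ k, finRotate (m+1) (Fin.ofNat (m+1) k) = Fin.ofNat (m+1) (k+1) := by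
    intro k
    rw [finRotate_apply]
    apply Fin.ext
    simp [Fin.val_add, Fin.ofNat]
  have hsym : ∀ k, (finRotate (m+1)).symm (Fin.ofNat (m+1) (k+1)) = Fin.ofNat (m+1) k := by
    intro k
    rw [Equiv.symm_apply_eq, hrot]
  let x : ℕ → EuclideanSpace ℝ (Fin d) := fun k => p (Fin.ofNat (m+1) k)
  let l : ℕ → ℝ := fun k => dist (x (k+1)) (x k)
  let e : ℕ → EuclideanSpace ℝ (Fin d) := fun k => (l k)⁻¹ • (x (k+1) - x k)
  have hl : ∀ k, 0 < l k := fun k => by
    have := (hp (Fin.ofNat (m+1) k)).2.1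
    rw [hrot] at this
    exact dist_pos.2 this.symm
  have hbis : ∀ k, (dist (x (k+1+1)) (x (k+1)))⁻¹ • (x (k+1+1) - x (k+1))
      + (dist (x k) (x (k+1)))⁻¹ • (x k - x (k+1)) = e (k+1) - e k := by
    intro k
    simp only [e, l]
    rw [dist_comm (x k), sub_eq_add_neg (_ • _), ← smul_neg, neg_sub]
  have hpx : ∀ k, x (k + (m+1)) = x k := fun k => by
    simp only [x]
    congr 1
    apply Fin.ext
    simp [Fin.ofNat]
  have hpl : ∀ k, l (k + (m+1)) = l k := fun k => by
    simp only [l]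
    rw [Nat.add_right_comm k (m+1) 1, hpx, hpx]
  have hclosed : IsClosed (⋂ c ∈ S, Metric.closedBall c (1 : ℝ)) :=
    isClosed_biInter fun c _ => Metric.isClosed_closedBall
  refine Pool.Agent.H98.Bil.core hi ha0 ha1 hSa (e := e) (x := x) (l := l) (fun k => ?_) hl
    (fun k => ?_) (fun k => ?_) (fun k => ?_) (fun k z hz => ?_) (by omega) hpx (fun k => ?_) hpl ?_
  · simp only [e]
    rw [norm_smul, norm_inv, Real.norm_eq_abs, abs_of_pos (hl k), ← dist_eq_norm]
    exact inv_mul_cancel₀ (hl k).ne'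
  · simp only [e]
    rw [smul_smul, mul_inv_cancel₀ (hl k).ne', one_smul]
    abel
  · have := hclosed.frontier_subset (hp (Fin.ofNat (m+1) k)).1
    simp only [Set.mem_iInter, Metric.mem_closedBall] at this
    exact this
  · have := (hp (Fin.ofNat (m+1) (k+1))).2.2.1
    rw [hrot, hsym] at this
    rw [← hbis]
    exact this
  · have := (hp (Fin.ofNat (m+1) (k+1))).2.2.2 z (by
      simp only [Set.mem_iInter, Metric.mem_closedBall]
      exact hz)
    rw [hrot, hsym] at this
    rw [← hbis]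
    exact this
  · simp only [e]
    rw [hpl, Nat.add_right_comm k (m+1) 1, hpx, hpx]
  · rw [← Fin.sum_univ_eq_sum_range]
    refine le_trans (le_of_eq (Finset.sum_congr rfl fun i _ => ?_)) hL
    have a1 : Fin.ofNat (m+1) (i:ℕ) = i := by
      apply Fin.ext
      simp [Fin.ofNat, Nat.mod_eq_of_lt i.2]
    simp only [l, x]
    rw [← hrot, a1, dist_comm]

end Pool.Agent.S07377
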