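import Pool.Statements.S07422
-- import your own Pool.Agent.* helpers here

set_option autoImplicit false
open Pool Pool.MP_1a8fe4_co

namespace Pool.Agent.S07422

/-- The negation of the preceding statement: For a finite abelian group G, an m-subset A and 3 ≤ h ≤ m−1 with smallest prime divisor of ∣G∣ exceeding hm−h²+1: sums of h distinct elements of A number exactly hm−h²+1 iff h=1, h=m−1, the h=2,m=4 square case, or A is an arithmetic progression. -/
theorem result :
    ¬ (∀ (G : Type) [AddCommGroup G] [Fintype G] [DecidableEq G] (A : Finset G) (h : ℕ),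
      3 ≤ h → h + 1 ≤ A.card →
      h * A.card - h ^ 2 + 1 < Nat.minFac (Fintype.card G) →
      (((A.powersetCard h).image (fun s => ∑ x ∈ s, x)).card = h * A.card - h ^ 2 + 1 ↔
        (h = 1 ∨ h = A.card - 1 ∨
          (h = 2 ∧ A.card = 4 ∧
            ∃ a d₁ d₂ : G, A = {a, a + d₁, a + d₂, a + d₁ + d₂}) ∨
          ∃ a d : G, A = (Finset.range A.card).image (fun i => a + i • d)))) := by
  intro h
  have e0 : ({0, 1, 2, 4, 5, 7} : Finset (ZMod 11)).card = 6 := by decide +kernel
  have h1 := h (ZMod 11) {0, 1, 2, 4, 5, 7} 3 (by norm_num) (by rw [e0]; norm_num)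
    (by rw [e0, ZMod.card]; norm_num)
  rw [e0] at h1
  have h2 := h1.1 (by decide +kernel)
  revert h2
  decide +kernel

end Pool.Agent.S07422
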