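import Pool.Statements.S07442
import Pool.Agent.H22.A15

set_option autoImplicit false
open Pool Pool.MP_1b373f_co

namespace Pool.Agent.S07442

/-- The negation of the preceding statement: For every n ≥ 1 there is k such that every finite graph with all degrees at most 2^(n+1)−3 has a vertex colouring where each (n+1)-clique has two vertices of equal colour and every colour class has at most k vertices. -/
theorem result :
    ¬ (∀ n : ℕ, 1 ≤ n → ∃ k : ℕ, ∀ (V : Type) [Fintype V] (G : SimpleGraph V),
      (∀ v : V, (G.neighborSet v).ncard ≤ 2 ^ (n + 1) - 3) →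
      ∃ c : V → ℕ,
        (∀ s : Finset V, G.IsNClique (n + 1) s →
          ∃ x ∈ s, ∃ y ∈ s, x ≠ y ∧ c x = c y) ∧
        ∀ i : ℕ, {v : V | c v = i}.ncard ≤ k) := by
  intro h
  obtain ⟨k, hk⟩ := h 6 (by norm_num)
  obtain ⟨B, hB⟩ := Pool.Agent.H22.A15.main k
  apply hB
  apply hk
  intro v
  have hd := Pool.Agent.H22.A15.deg v.1
  refine le_trans ?_ (hd.2.trans (by norm_num))
  apply Set.ncard_le_ncard_of_injOn (fun x => x.1) _ _ hd.1
  · intro a ha
    exact ha
  · intro a _ b _ e
    exact Subtype.ext e

end Pool.Agent.S07442
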