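import Pool.Statements.S07453
import Pool.Agent.H20.UDec2

set_option autoImplicit false
open Pool Pool.MP_1bb742_co

namespace Pool.Agent.S07453

/-- For every ε,δ>0 and all large n, any two n-vertex graphs with equal edge counts above εn² can have their edge sets split into at most δn parts each, the i-th parts being isomorphic via a vertex permutation. -/
theorem result :
    ∀ ε : ℝ, 0 < ε → ∀ δ : ℝ, 0 < δ → ∃ N : ℕ, ∀ n : ℕ, N ≤ n →
      ∀ G G' : SimpleGraph (Fin n),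
        G.edgeSet.ncard = G'.edgeSet.ncard →
        ε * (n : ℝ) ^ 2 < (G.edgeSet.ncard : ℝ) →
        ∃ r : ℕ, (r : ℝ) ≤ δ * (n : ℝ) ∧
          ∃ c c' : Sym2 (Fin n) → Fin r,
            ∀ i : Fin r, ∃ σ : Equiv.Perm (Fin n),
              Sym2.map σ '' {e | e ∈ G.edgeSet ∧ c e = i} =
                {e | e ∈ G'.edgeSet ∧ c' e = i} := by
  classical
  intro ε hε δ hδ
  obtain ⟨p, hp⟩ := exists_nat_ge (max (5 / ε ^ 2) (28 / δ) + 1)
  have hp1 : 5 / ε ^ 2 ≤ (p : ℝ) := by linarith [le_max_left (5 / ε ^ 2) (28 / δ)]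
  have hp2 : 28 / δ ≤ (p : ℝ) := by linarith [le_max_right (5 / ε ^ 2) (28 / δ)]
  have hp0 : 0 < p := by
    have : (0 : ℝ) < 28 / δ := by positivity
    have : (0 : ℝ) < p := by linarith
    exact_mod_cast this
  obtain ⟨N, hN⟩ := exists_nat_ge (2 * (((2 * p) ^ 4 + 4 : ℕ) : ℝ) / δ)
  refine ⟨max p N, fun n hn G G' hc hm => ?_⟩
  have hpn : p ≤ n := le_trans (le_max_left _ _) hn
  have hNn : N ≤ n := le_trans (le_max_right _ _) hn
  set d := n / p with hdd
  have hd : 0 < d := Nat.div_pos hpn hp0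
  have hdp : d * p ≤ n := Nat.div_mul_le_self n p
  have hnq : n ≤ 2 * p * d := by
    have h1 : n < p * (d + 1) := Nat.lt_mul_div_succ n hp0
    nlinarith
  have hdp' : (d : ℝ) * p ≤ n := by exact_mod_cast hdp
  have hd' : (0 : ℝ) ≤ d := by positivity
  have hn0 : (0 : ℝ) < n := by
    have : 0 < n := by omega
    exact_mod_cast this
  have eA : G.edgeSet.ncard = G.edgeFinset.card := by
    rw [← SimpleGraph.coe_edgeFinset, Set.ncard_coe_finset]
  have eB : G'.edgeSet.ncard = G'.edgeFinset.card := by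
    rw [← SimpleGraph.coe_edgeFinset, Set.ncard_coe_finset]
  rw [eA, eB] at hc
  rw [eA] at hm
  have nA : H20.UDec.ND G.edgeFinset := fun e he =>
    G.not_isDiag_of_mem_edgeSet (SimpleGraph.mem_edgeFinset.mp he)
  have nB : H20.UDec.ND G'.edgeFinset := fun e he =>
    G'.not_isDiag_of_mem_edgeSet (SimpleGraph.mem_edgeFinset.mp he)
  have h5 : 5 * (d : ℝ) ≤ ε ^ 2 * n := by
    have a1 : 5 ≤ (p : ℝ) * ε ^ 2 := by
      rwa [div_le_iff₀ (by positivity)] at hp1
    have a2 : ε ^ 2 * ((d : ℝ) * p) ≤ ε ^ 2 * n := mul_le_mul_of_nonneg_left hdp' (by positivity)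
    nlinarith
  have D := H20.UDec.main_dec (V := Fin n) d (2 * p) hd (by simp; omega) (by simpa using hnq)
    nA nB hc (by
      rw [← hc, Fintype.card_fin]
      have a1 : (ε * (n : ℝ) ^ 2) ^ 2 ≤ (G.edgeFinset.card : ℝ) ^ 2 :=
        pow_le_pow_left₀ (by positivity) hm.le 2
      have a2 : (n : ℝ) ^ 3 * (5 * d) ≤ (n : ℝ) ^ 3 * (ε ^ 2 * n) :=
        mul_le_mul_of_nonneg_left h5 (by positivity)
      have a3 : (n : ℝ) ^ 2 * (5 * d * n) ≤ (G.edgeFinset.card : ℝ) * G.edgeFinset.card := by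
        nlinarith
      exact_mod_cast a3)
  obtain ⟨c, c', h1, h2, h3⟩ := D.colour
  set r := (2 * p) ^ 4 + 14 * d + 3 with hr
  refine ⟨r + 1, ?_, fun e => Fin.ofNat (r + 1) (c e), fun e => Fin.ofNat (r + 1) (c' e), ?_⟩
  · have a1 : 28 ≤ (p : ℝ) * δ := by rwa [div_le_iff₀ hδ] at hp2
    have a2 : δ * ((d : ℝ) * p) ≤ δ * n := mul_le_mul_of_nonneg_left hdp' hδ.le
    have a3 : 2 * (((2 * p) ^ 4 + 4 : ℕ) : ℝ) ≤ N * δ := by rwa [div_le_iff₀ hδ] at hN
    have a4 : (N : ℝ) ≤ n := by exact_mod_cast hNn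
    have a5 : (N : ℝ) * δ ≤ n * δ := mul_le_mul_of_nonneg_right a4 hδ.le
    have a6 : ((r + 1 : ℕ) : ℝ) = (((2 * p) ^ 4 + 4 : ℕ) : ℝ) + 14 * d := by
      rw [hr]; push_cast; ring
    rw [a6]
    nlinarith
  · intro i
    obtain ⟨σ, hσ⟩ := h3 i.val
    refine ⟨σ, ?_⟩
    have key : ∀ (H : SimpleGraph (Fin n)) (c : Sym2 (Fin n) → ℕ), (∀ e ∈ H.edgeFinset, c e < r) →
        {e | e ∈ H.edgeSet ∧ Fin.ofNat (r + 1) (c e) = i} =
          ((H.edgeFinset.filter fun e => c e = i.val : Finset (Sym2 (Fin n))) : Set _) := by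
      intro H c h
      ext e
      simp only [Set.mem_ofPred_eq, Finset.coe_filter, SimpleGraph.mem_edgeFinset]
      refine and_congr_right fun he => ?_
      have := h e (SimpleGraph.mem_edgeFinset.mpr he)
      rw [Fin.ext_iff, Fin.val_ofNat, Nat.mod_eq_of_lt (by omega)]
    rw [key G c h1, key G' c' h2, ← hσ, Finset.coe_image]

end Pool.Agent.S07453
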