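import Pool.Statements.S07497
import Pool.Agent.H21.KneserMain

set_option autoImplicit false
open Pool Pool.MP_1d3ff8_co

namespace Pool.Agent.S07497

/-- There is a constant c such that for every t, any placement of at least c·C(2t+1,t) pebbles on the odd graph K(2t+1,t) can reach any target vertex by pebbling moves (remove two pebbles from a vertex, add one to a neighbour). -/
theorem result :
  ∃ c : ℕ, ∀ t : ℕ, ∀ D : {s : Finset (Fin (2*t+1)) // s.card = t} → ℕ,
    ∀ r : {s : Finset (Fin (2*t+1)) // s.card = t},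
      c * Nat.choose (2*t+1) t ≤ ∑ x, D x →
      ∃ E : {s : Finset (Fin (2*t+1)) // s.card = t} → ℕ,
        Relation.ReflTransGen
          (fun A B : {s : Finset (Fin (2*t+1)) // s.card = t} → ℕ =>
            ∃ u v : {s : Finset (Fin (2*t+1)) // s.card = t},
              u ≠ v ∧ Disjoint u.1 v.1 ∧ B + Pi.single u 2 = A + Pi.single v 1) D E
        ∧ 1 ≤ E r := by
  refine ⟨2 + 30 * 2 ^ 30, fun t D r h => ?_⟩
  by_contra hn
  push Not at hn
  have hD : ∀ E, H21.Pebble.Reach H21.KneserAvg.R D E → E r = 0 := by
    intro E hE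
    have h1 : Relation.ReflTransGen
        (fun A B : {s : Finset (Fin (2*t+1)) // s.card = t} → ℕ =>
          ∃ u v : {s : Finset (Fin (2*t+1)) // s.card = t},
            u ≠ v ∧ Disjoint u.1 v.1 ∧ B + Pi.single u 2 = A + Pi.single v 1) D E :=
      Relation.ReflTransGen.mono (fun A B ⟨u, v, h1, h2⟩ => ⟨u, v, h1.1, h1.2, h2⟩) _ _ hE
    have := hn E h1
    omega
  have hpos : 0 < (2 * t + 1).choose t := Nat.choose_pos (by omega)
  rcases Nat.eq_zero_or_pos t with rfl | ht
  · have h0 := hD D (H21.Pebble.Reach.refl _)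
    have : ∑ x, D x = 0 := by
      apply Finset.sum_eq_zero
      intro x _
      have : x = r := Subtype.ext ((Finset.card_eq_zero.1 x.2).trans (Finset.card_eq_zero.1 r.2).symm)
      rw [this, h0]
    rw [this] at h
    simp at h
  · have h1 := H21.KneserMain.main ht (by simp) r D hD
    rw [Fintype.card_fin] at h1
    generalize (2 * t + 1).choose t = n at *
    generalize ∑ x, D x = s at *
    generalize 30 * 2 ^ 30 = K at *
    have h2 : t * ((2 + K) * n) ≤ (t + K) * n := le_trans (Nat.mul_le_mul_left _ h) h1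
    have h3 : K * n ≤ t * (K * n) := Nat.le_mul_of_pos_left _ ht
    have h4 : 0 < t * n := Nat.mul_pos ht hpos
    nlinarith

end Pool.Agent.S07497
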