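import Pool.Statements.S07506
import Pool.Agent.H14.KCut

set_option autoImplicit false
open Pool Pool.MP_1d7c98_co

namespace Pool.Agent.S07506

/-- The negation of the preceding statement: For each k≥2 there is a constant C so that every graph on n vertices with m edges, which stays connected after deleting fewer than k−1 vertices, has a k-colouring cutting at least (k−1)m/k + (k−1)n/(2k) − C edges. -/
theorem result :
    ¬ (∀ k : ℕ, 2 ≤ k → ∃ C : ℝ, ∀ n : ℕ, ∀ G : SimpleGraph (Fin n),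
      (∀ S : Finset (Fin n), S.card + 1 < k →
          (G.induce ((S : Set (Fin n))ᶜ)).Connected) →
      ∃ c : Fin n → Fin k,
        ((k : ℝ) - 1) / k * (G.edgeSet.ncard : ℝ) + ((k : ℝ) - 1) / (2 * k) * (n : ℝ) - C
          ≤ ({p : Fin n × Fin n | G.Adj p.1 p.2 ∧ c p.1 ≠ c p.2}.ncard : ℝ) / 2) := by
  intro h
  obtain ⟨C, hC⟩ := h 8 (by norm_num)
  obtain ⟨N, hN⟩ := exists_nat_gt (8 * |C|)
  have hN0 : 0 < N := by
    have : (0 : ℝ) ≤ 8 * |C| := by positivity
    have : (0 : ℝ) < N := by linarith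
    exact_mod_cast this
  classical
  let e : Pool.Agent.H14.KCut.V N ≃ Fin (N * 12) := finProdFinEquiv
  let G' : SimpleGraph (Fin (N * 12)) := (Pool.Agent.H14.KCut.G N).comap e.symm
  let φ : G' ≃g Pool.Agent.H14.KCut.G N := SimpleGraph.Iso.comap e.symm _
  obtain ⟨c, hc⟩ := hC (N * 12) G' (by
    intro S hS
    have h1 := Pool.Agent.H14.KCut.conn N hN0 (S.map e.symm.toEmbedding)
      (by rw [Finset.card_map]; omega)
    let ψ : G'.induce ((S : Set (Fin (N * 12)))ᶜ) ≃g
        (Pool.Agent.H14.KCut.G N).induce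
          (((S.map e.symm.toEmbedding : Finset _) : Set (Pool.Agent.H14.KCut.V N))ᶜ) :=
      { toEquiv := e.symm.subtypeEquiv (fun a => by simp)
        map_rel_iff' := Iff.rfl }
    exact ψ.connected_iff.2 h1)
  have h2 := Pool.Agent.H14.KCut.cut_le N (fun v => c (e v))
  have h3 := Pool.Agent.H14.KCut.edges_le' N
  have h4 : G'.edgeSet.ncard = (Pool.Agent.H14.KCut.G N).edgeSet.ncard :=
    Set.ncard_congr' φ.mapEdgeSet
  have h5 : {p : Fin (N * 12) × Fin (N * 12) | G'.Adj p.1 p.2 ∧ c p.1 ≠ c p.2}.ncard =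
      {p : Pool.Agent.H14.KCut.V N × Pool.Agent.H14.KCut.V N |
        (Pool.Agent.H14.KCut.G N).Adj p.1 p.2 ∧ c (e p.1) ≠ c (e p.2)}.ncard := by
    refine Set.ncard_congr' ((e.symm.prodCongr e.symm).subtypeEquiv fun p => ?_)
    simp [G']
  rw [h4, h5] at hc
  have h2' : (({p : Pool.Agent.H14.KCut.V N × Pool.Agent.H14.KCut.V N |
        (Pool.Agent.H14.KCut.G N).Adj p.1 p.2 ∧ c (e p.1) ≠ c (e p.2)}.ncard : ℕ) : ℝ) + 8 * N ≤
      2 * ((Pool.Agent.H14.KCut.G N).edgeSet.ncard : ℝ) := by exact_mod_cast h2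
  have h3' : 2 * ((Pool.Agent.H14.KCut.G N).edgeSet.ncard : ℝ) ≤ 146 * N := by exact_mod_cast h3
  have h6 := le_abs_self C
  push_cast at hc
  linarith

end Pool.Agent.S07506
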