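import Pool.Statements.S07514
import Pool.Agent.H4.Misere

set_option autoImplicit false
set_option synthInstance.maxSize 4096
open Pool Pool.MP_1dd9c6_co

namespace Pool.Agent.S07514

def opt : Fin 5 → List (Fin 5 → ℕ) :=
  ![[![0, 0, 0, 0, 0]],
    [![0, 0, 0, 0, 0], ![1, 0, 0, 0, 0]],
    [![0, 0, 0, 0, 0], ![0, 1, 0, 0, 0], ![0, 2, 0, 0, 0], ![1, 1, 0, 0, 0]],
    [![0, 0, 1, 0, 0], ![0, 1, 1, 0, 0], ![0, 2, 0, 0, 0], ![1, 0, 0, 0, 0]],
    [![0, 0, 0, 1, 0], ![0, 0, 2, 0, 0], ![0, 1, 0, 1, 0], ![0, 1, 1, 0, 0]]]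

def cc : Fin 5 → ℕ := ![0, 3, 2, 3, 1]

def pp : Fin 5 → ℕ := ![2, 2, 2, 2, 2]

def tbl (G : Fin 5 → ℕ) : Bool := Nat.testBit 1935898450055579455322781512698018154495998264797839391715180378224309815351824512700932075646603817661604672442677157273596990669305289332400777689983095378802848275321052818013933 (1 * G 0 + 2 * G 1 + 10 * G 2 + 40 * G 3 + 200 * G 4)

def NN (G : Fin 5 → ℕ) : Prop := tbl (H4.Misere.R cc pp G) = true

instance (G : Fin 5 → ℕ) : Decidable (NN G) := inferInstanceAs (Decidable (_ = true))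

lemma hp : ∀ i, 0 < pp i := by decide

lemma NN_add (G X : Fin 5 → ℕ) : NN (H4.Misere.R cc pp G + X) ↔ NN (G + X) := by
  unfold NN
  rw [H4.Misere.R_add']

lemma claimA (W : Fin 5 → ℕ)
    (h1 : NN (W + ![0, 0, 0, 1, 1]) ↔ NN (![0, 0, 0, 0, 2] + ![0, 0, 0, 1, 1]))
    (h2 : NN (W + ![0, 0, 0, 3, 1]) ↔ NN (![0, 0, 0, 0, 2] + ![0, 0, 0, 3, 1])) :
    W 1 = 0 ∧ W 2 = 0 ∧ W 3 = 0 := by
  rw [← NN_add W] at h1 h2
  have := H4.Misere.box5 (fun i => cc i + pp i) (fun W =>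
    (NN (W + ![0, 0, 0, 1, 1]) ↔ NN (![0, 0, 0, 0, 2] + ![0, 0, 0, 1, 1])) →
    (NN (W + ![0, 0, 0, 3, 1]) ↔ NN (![0, 0, 0, 0, 2] + ![0, 0, 0, 3, 1])) →
    W 1 = 0 ∧ W 2 = 0 ∧ W 3 = 0) (by decide +kernel) _ (H4.Misere.R_lt cc pp W hp) h1 h2
  have a1 := H4.Misere.rd_pos 2 2 (W 1)
  have a2 := H4.Misere.rd_pos 1 2 (W 2)
  have a3 := H4.Misere.rd_pos 2 2 (W 3)
  change H4.Misere.rd 3 2 (W 1) = 0 ∧ H4.Misere.rd 2 2 (W 2) = 0 ∧ H4.Misere.rd 3 2 (W 3) = 0
    at this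
  simp only [Nat.reduceAdd] at a1 a2 a3
  omega

lemma claimB (X : Fin 5 → ℕ) (h1 : X 1 = 0) (h2 : X 2 = 0) (h3 : X 3 = 0)
    (h : NN (X + ![0, 0, 0, 0, 2]) ↔ NN (X + 0)) : NN (X + 0) := by
  rw [← NN_add X, ← NN_add X] at h
  rw [← NN_add X]
  exact H4.Misere.box5 (fun i => cc i + pp i) (fun X => X 1 = 0 → X 2 = 0 → X 3 = 0 →
    (NN (X + ![0, 0, 0, 0, 2]) ↔ NN (X + 0)) → NN (X + 0)) (by decide +kernel) _
    (H4.Misere.R_lt cc pp X hp) (by simp [H4.Misere.R, h1, H4.Misere.rd, cc])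
    (by simp [H4.Misere.R, h2, H4.Misere.rd, cc]) (by simp [H4.Misere.R, h3, H4.Misere.rd, cc]) h

/-- The negation of the preceding statement: For any set of finite impartial games closed under sum and options with a game having a move, every maximal subgroup of its misère quotient contains the class of a misère P-position. -/
theorem result :
    ¬ (∀ (α : Type) (opts : α → Set α) (add : α → α → α) (N : α → Prop),
      (∀ g, (opts g).Finite) →
      WellFounded (fun a b : α => a ∈ opts b) →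
      (∀ g h, opts (add g h) = (fun g' => add g' h) '' opts g ∪ (fun h' => add g h') '' opts h) →
      (∀ g, N g ↔ (opts g = ∅ ∨ ∃ g' ∈ opts g, ¬ N g')) →
      (∃ g, (opts g).Nonempty) →
      ∀ E : α, (∀ Z, N (add (add E E) Z) ↔ N (add E Z)) →
        ∃ X : α, (∀ Z, N (add (add X E) Z) ↔ N (add X Z)) ∧
          (∃ Y : α, ∀ Z, N (add (add X Y) Z) ↔ N (add E Z)) ∧ ¬ N X) := by
  intro h
  obtain ⟨X, h1, ⟨Y, h2⟩, h3⟩ := h (Fin 5 → ℕ) (fun g => {K | H4.Misere.mv opt K g}) (· + ·) NN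
    (H4.Misere.mv_finite opt) (H4.Misere.mv_wf opt ![1, 2, 5, 8, 11] (by decide))
    (by
      intro g h
      ext K
      simp only [Set.mem_ofPred_eq, H4.Misere.mv_add, Set.mem_union, Set.mem_image, eq_comm])
    (by
      intro g
      have := H4.Misere.outcome opt cc pp hp (by decide) tbl
        (H4.Misere.box5 (fun i => cc i + 1 + pp i) _ (by decide +kernel)) g
      simpa only [NN, Set.eq_empty_iff_forall_notMem, Set.mem_ofPred_eq] using this)
    ⟨![1, 0, 0, 0, 0], _, 0, by decide, 0, by decide, rfl⟩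
    ![0, 0, 0, 0, 2]
    (by
      intro Z
      rw [← NN_add (![0, 0, 0, 0, 2] + ![0, 0, 0, 0, 2]), ← NN_add ![0, 0, 0, 0, 2]]
      have : H4.Misere.R cc pp (![0, 0, 0, 0, 2] + ![0, 0, 0, 0, 2]) =
        H4.Misere.R cc pp ![0, 0, 0, 0, 2] := by decide +kernel
      rw [this])
  obtain ⟨a1, a2, a3⟩ := claimA (X + Y) (h2 _) (h2 _)
  simp only [Pi.add_apply] at a1 a2 a3
  have h4 := h1 0
  rw [add_zero (X + _)] at h4
  have := claimB X (by omega) (by omega) (by omega) h4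
  rw [add_zero] at this
  exact h3 this

end Pool.Agent.S07514
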