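import Pool.Statements.S07547
import Pool.Agent.H12.PolyNorm

set_option autoImplicit false
open Pool Pool.MP_1ea79a_co

namespace Pool.Agent.S07547

/-- For every polyhedral norm N(x)=max_i ∣a_i·x∣ on R^n and every infinite set M in R^n, R^n can be coloured with n+1 colours so that no N-distance-preserving image of M is monochromatic. -/
theorem result :
    ∀ (n m : ℕ) (a : Fin m → Fin n → ℝ),
      (∀ x : Fin n → ℝ, x ≠ 0 → 0 < ⨆ i, |∑ j, a i j * x j|) →
      ∀ M : Set (Fin n → ℝ), M.Infinite →
        ∃ c : (Fin n → ℝ) → Fin (n + 1),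
          ∀ f : (Fin n → ℝ) → (Fin n → ℝ),
            (∀ x ∈ M, ∀ y ∈ M,
              (⨆ i, |∑ j, a i j * (f x j - f y j)|) =
                ⨆ i, |∑ j, a i j * (x j - y j)|) →
            ¬ ∃ k : Fin (n + 1), ∀ x ∈ M, c (f x) = k := by
  intro n m a hpos M hM
  classical
  have hm : Nonempty (Fin m) := by
    by_contra hne
    have hemp : IsEmpty (Fin m) := not_nonempty_iff.mp hne
    obtain ⟨x, _, hx⟩ := hM.exists_notMem_finset {0}
    have := hpos x (by simpa using hx)
    simp at this
  let L : Fin m → (Fin n → ℝ) →ₗ[ℝ] ℝ := fun i =>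
    { toFun := fun x => ∑ j, a i j * x j
      map_add' := fun x y => by simp [mul_add, Finset.sum_add_distrib]
      map_smul' := fun r x => by simp [Finset.mul_sum, mul_left_comm] }
  let l : Fin m × Bool → (Fin n → ℝ) →ₗ[ℝ] ℝ := fun p => if p.2 then L p.1 else -L p.1
  have hbdd : ∀ x : Fin n → ℝ, BddAbove (Set.range fun i => |∑ j, a i j * x j|) :=
    fun x => (Set.finite_range _).bddAbove
  obtain ⟨c, hc⟩ := H12.PolyNorm.main n l (fun x => ⨆ i, |∑ j, a i j * x j|)
    (by
      rintro ⟨i, b⟩ x
      refine le_trans ?_ (le_ciSup (hbdd x) i)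
      cases b
      · exact neg_le_abs (∑ j, a i j * x j)
      · exact le_abs_self (∑ j, a i j * x j))
    (by
      intro x
      obtain ⟨i, hi⟩ := exists_eq_ciSup_of_finite (f := fun i => |∑ j, a i j * x j|)
      rcases abs_choice (∑ j, a i j * x j) with h | h
      · exact ⟨(i, true), by rw [← hi, h]; rfl⟩
      · exact ⟨(i, false), by rw [← hi, h]; rfl⟩)
    hpos M hM
  exact ⟨c, fun f hf => hc f hf⟩

end Pool.Agent.S07547
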