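import Pool.Statements.S07556
import Pool.Agent.H50.AntiG

set_option autoImplicit false
open Pool Pool.MP_1f0029_co

namespace Pool.Agent.S07556

/-- The negation of the preceding statement: For all n and k: if some graph on n vertices has exactly k vertex subsets that are cliques (empty set included), then some poset on n points has exactly k subsets that are antichains (empty set included). -/
theorem result :
    ¬ (∀ n k : ℕ,
      (∃ G : SimpleGraph (Fin n),
          {s : Finset (Fin n) | G.IsClique (s : Set (Fin n))}.ncard = k) →
      ∃ (P : Type) (_ : Fintype P) (_ : PartialOrder P),
          Fintype.card P = n ∧
          {s : Finset P | IsAntichain (· ≤ ·) (s : Set P)}.ncard = k) := by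
  exact Pool.Agent.H50.Anti.main

end Pool.Agent.S07556
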