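import Pool.Statements.S07600
import Pool.Agent.H29.ModRado

set_option autoImplicit false
open Pool Pool.MP_2076c8_co

namespace Pool.Agent.S07600

/-- The negation of the preceding statement: For each k there is K such that, for all r and a_1..a_k in Z/2^r, with d ≤ r the largest exponent where 2^d divides some nonempty subset sum of the a_i, some K-colouring of Z/2^r makes every monochromatic solution of Σ a_i x_i = 0 have all x_i divisible by 2^(r−d). -/
theorem result :
    ¬ (∀ k : ℕ, ∃ K : ℕ, ∀ r : ℕ, ∀ a : Fin k → ZMod (2 ^ r), ∀ d : ℕ, d ≤ r →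
      (∃ I : Finset (Fin k), I.Nonempty ∧ (2 : ZMod (2 ^ r)) ^ d ∣ ∑ i ∈ I, a i) →
      (∀ d' : ℕ, d < d' → d' ≤ r → ∀ I : Finset (Fin k), I.Nonempty →
          ¬ (2 : ZMod (2 ^ r)) ^ d' ∣ ∑ i ∈ I, a i) →
      ∃ c : ZMod (2 ^ r) → Fin K, ∀ x : Fin k → ZMod (2 ^ r),
        (∀ i j, c (x i) = c (x j)) → ∑ i, a i * x i = 0 →
          ∀ i, (2 : ZMod (2 ^ r)) ^ (r - d) ∣ x i) := by
  exact Pool.Agent.H29.ModRado.main

end Pool.Agent.S07600
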