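import Pool.Statements.S07611
import Pool.Agent.H17.ACcv

set_option autoImplicit false
open Pool Pool.MP_210557_co

namespace Pool.Agent.S07611

/-- For all coprime naturals i<j with j≥6 there is an infinite word over {0,i,j} in which no three consecutive blocks of equal positive length have equal letter sums. -/
theorem result :
    ∀ i j : ℕ, Nat.Coprime i j → i < j → 6 ≤ j →
      ∃ w : ℕ → ℕ, (∀ n, w n = 0 ∨ w n = i ∨ w n = j) ∧
        ∀ p L : ℕ, 0 < L →
          ¬ ((∑ k ∈ Finset.range L, w (p + k)) = (∑ k ∈ Finset.range L, w (p + L + k)) ∧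
             (∑ k ∈ Finset.range L, w (p + L + k)) = (∑ k ∈ Finset.range L, w (p + 2 * L + k))) :=
  fun i j h _ hj => Pool.Agent.H17.AC.cv_free i j h hj

end Pool.Agent.S07611
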