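import Pool.Statements.S07614
import Pool.Agent.H5.TreeCol

set_option autoImplicit false
open Pool Pool.MP_2117ab_co

namespace Pool.Agent.S07614

/-- The negation of the preceding statement: For d ≥ 3, if a finite graph is the edge-disjoint union of d spanning trees, there is a placement in R^d where each edge of tree i has coordinate i as its unique largest coordinate difference (ℓ^∞ colour i). -/
theorem result :
    ¬ (∀ (d : ℕ), 3 ≤ d →
    ∀ (V : Type) [Fintype V] (G : SimpleGraph V) (T : Fin d → SimpleGraph V),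
      (∀ i, (T i).IsTree) →
      (∀ i j, i ≠ j → Disjoint (T i) (T j)) →
      G = ⨆ i, T i →
      ∃ p : V → Fin d → ℝ, ∀ i : Fin d, ∀ u v : V, G.Adj u v →
        ((T i).Adj u v ↔ ∀ j : Fin d, j ≠ i → |p u j - p v j| < |p u i - p v i|)) := by
  intro h
  obtain ⟨p, hp⟩ := h 3 le_rfl (Fin 6) ⊤ H5.TreeCol.T H5.TreeCol.tree H5.TreeCol.disj H5.TreeCol.sup
  exact H5.TreeCol.no_placement p hp

end Pool.Agent.S07614
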