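import Pool.Statements.S07623
import Pool.Agent.H22.Billiard4

set_option autoImplicit false
open scoped InnerProductSpace
open Pool Pool.MP_217bbd_co

namespace Pool.Agent.S07623

/-- For every fat disk-polygon D and every 0<ε≤inradius, any closed billiard path in D(ε) with vertices on its boundary whose angle bisectors are normal to supporting lines, and of minimal length among all such paths, is 2-periodic. -/
theorem result :
  ∀ (C : Finset (EuclideanSpace ℝ (Fin 2))), C.Nonempty →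
    (∀ c ∈ C, (⋂ c' ∈ C.erase c, Metric.closedBall c' (1:ℝ)) ≠ ⋂ c' ∈ C, Metric.closedBall c' (1:ℝ)) →
    (∀ c ∈ C, ∀ c' ∈ C, dist c c' ≤ 1) →
    ∀ D : Set (EuclideanSpace ℝ (Fin 2)), D = (⋂ c' ∈ C, Metric.closedBall c' (1:ℝ)) →
    ∀ ε : ℝ, 0 < ε → (∃ x, Metric.closedBall x ε ⊆ D) →
    ∀ K : Set (EuclideanSpace ℝ (Fin 2)),
      K = {y | ∃ x, Metric.closedBall x ε ⊆ D ∧ y ∈ Metric.closedBall x ε} →
    ∀ (n : ℕ) (p : ℕ → EuclideanSpace ℝ (Fin 2)),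
      (2 ≤ n ∧ (∀ i, p (i + n) = p i) ∧ (∀ i, p i ∈ frontier K) ∧ (∀ i, p i ≠ p (i + 1)) ∧
        ∀ i, ∃ v : EuclideanSpace ℝ (Fin 2), ‖v‖ = 1 ∧
          (∀ x ∈ K, ⟪v, x - p (i + 1)⟫_ℝ ≤ 0) ∧
          ‖p (i + 2) - p (i + 1)‖⁻¹ • (p (i + 2) - p (i + 1)) =
            (2 * ⟪v, ‖p i - p (i + 1)‖⁻¹ • (p i - p (i + 1))⟫_ℝ) • v
              - ‖p i - p (i + 1)‖⁻¹ • (p i - p (i + 1))) →
      (∀ (m : ℕ) (q : ℕ → EuclideanSpace ℝ (Fin 2)),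
        (2 ≤ m ∧ (∀ i, q (i + m) = q i) ∧ (∀ i, q i ∈ frontier K) ∧ (∀ i, q i ≠ q (i + 1)) ∧
          ∀ i, ∃ v : EuclideanSpace ℝ (Fin 2), ‖v‖ = 1 ∧
            (∀ x ∈ K, ⟪v, x - q (i + 1)⟫_ℝ ≤ 0) ∧
            ‖q (i + 2) - q (i + 1)‖⁻¹ • (q (i + 2) - q (i + 1)) =
              (2 * ⟪v, ‖q i - q (i + 1)‖⁻¹ • (q i - q (i + 1))⟫_ℝ) • v
                - ‖q i - q (i + 1)‖⁻¹ • (q i - q (i + 1))) →
        (∑ i ∈ Finset.range n, dist (p i) (p (i + 1))) ≤ ∑ i ∈ Finset.range m, dist (q i) (q (i + 1))) →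
      ∀ i, p (i + 2) = p i := by
  intro C hC _ hd D hD ε hε hx K hK n p hp hmin
  subst hD
  subst hK
  exact Pool.Agent.H22.Bil.main (Pool.Agent.H22.Bil.good_of C hC hd ε hε hx) n p hp hmin

end Pool.Agent.S07623
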