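import Pool.Statements.S07641
import Pool.Agent.H17.OrdRec

set_option autoImplicit false
open Pool Pool.MP_229fa6_co

namespace Pool.Agent.S07641

open Pool.Agent.H17.OrdRec

/-- For all large n, any two linear orders on an n-set, and any two distinct points x,y: some alternating composite φ_{z1}, φ_{z2}⁻¹, φ_{z3}, … (odd length) of the point-deleted order isomorphisms is defined at x and y and agrees there with the full isomorphism. -/
theorem result :
  ∃ N : ℕ, ∀ n : ℕ, N ≤ n → ∀ σ τ : Equiv.Perm (Fin n),
    ∀ R : Fin n → Fin n → Fin n → Prop,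
    (∀ z a b : Fin n, R z a b ↔
      (a ≠ z ∧ b ≠ z ∧
        (Finset.univ.filter (fun e : Fin n => e ≠ z ∧ σ e < σ a)).card =
        (Finset.univ.filter (fun e : Fin n => e ≠ z ∧ τ e < τ b)).card)) →
    ∀ x y : Fin n, x ≠ y →
    ∃ k : ℕ, ∃ s : Fin (2 * k + 1) → Fin n, ∃ p q : Fin (2 * k + 1 + 1) → Fin n,
      p 0 = x ∧ q 0 = y ∧
      p (Fin.last (2 * k + 1)) = τ.symm (σ x) ∧
      q (Fin.last (2 * k + 1)) = τ.symm (σ y) ∧
      ∀ i : Fin (2 * k + 1),
        (Even i.val →
          R (s i) (p i.castSucc) (p i.succ) ∧ R (s i) (q i.castSucc) (q i.succ)) ∧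
        (Odd i.val →
          R (s i) (p i.succ) (p i.castSucc) ∧ R (s i) (q i.succ) (q i.castSucc)) := by
  refine ⟨9, fun n hn σ τ R hR x y hxy => ?_⟩
  let ρ : Bool → Equiv.Perm (Fin n) := fun e => if e then τ else σ
  let P : Bool → ℕ → ℕ := fun e i =>
    if h : i < n then (ρ (!e) ((ρ e).symm ⟨i, h⟩) : ℕ) else 0
  have hlt : ∀ e i, i < n → P e i < n := by
    intro e i hi
    simp only [P, dif_pos hi]
    exact Fin.is_lt _
  have hinv : ∀ e i, i < n → P (!e) (P e i) = i := by
    intro e i hi
    simp [P, hi]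
  have hg := good hlt hinv hn (σ x) (σ y) (by
    intro h
    exact hxy (σ.injective (Fin.ext h))) (Fin.is_lt _) (Fin.is_lt _)
  obtain ⟨m, f, f0, fm, hf⟩ := path_of_conn hg
  have par : ∀ i, i ≤ m → (f i).1 = decide (i % 2 = 1) := by
    intro i
    induction i with
    | zero => intro _; simp [f0]
    | succ i ih =>
      intro hi
      rw [(hf i (by omega)).1, ih (by omega)]
      rcases Nat.mod_two_eq_zero_or_one i with h | h <;> simp [h, Nat.add_mod]
  have hm : m % 2 = 1 := by
    have := par m le_rfl
    rw [fm] at this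
    simpa using this
  obtain ⟨k, rfl⟩ : ∃ k, m = 2 * k + 1 := ⟨m / 2, by omega⟩
  let el : Bool → ℕ → Fin n := fun e a => if h : a < n then (ρ e).symm ⟨a, h⟩ else x
  have hel : ∀ e a, a < n → (ρ e (el e a) : ℕ) = a := by
    intro e a ha
    simp [el, ha]
  have hP : ∀ e a, a < n → (ρ (!e) (el e a) : ℕ) = P e a := by
    intro e a ha
    simp [el, P, ha]
  have hRel : ∀ z a b : Fin n, H17.OrdRec.Rel (σ z) (τ z) (σ a) (τ b) → R z a b := by
    intro z a b h
    rw [hR]
    have r1 := rank_card σ z a
    have r2 := rank_card τ z b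
    simp only [Fin.lt_def] at r1 r2
    unfold H17.OrdRec.Rel at h
    refine ⟨?_, ?_, ?_⟩
    · rintro rfl; omega
    · rintro rfl; omega
    · simp only [Fin.lt_def]
      split_ifs at r1 r2 <;> omega
  choose w hw using fun (i : Fin (2 * k + 1)) => (hf i i.is_lt).2.2.2.2.2
  refine ⟨k, fun i => el (f i).1 (w i), fun i => el (f i).1 (f i).2.1,
    fun i => el (f i).1 (f i).2.2, ?_, ?_, ?_, ?_, ?_⟩
  · simp [f0, el, ρ]
  · simp [f0, el, ρ]
  · simp [fm, el, ρ]
  · simp [fm, el, ρ]
  · intro i
    obtain ⟨s1, s2, s3, s4, s5, -⟩ := hf i i.is_lt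
    obtain ⟨w1, w2, w3⟩ := hw i
    have p1 := par i (by omega)
    simp only [Fin.val_castSucc, Fin.val_succ]
    constructor
    · intro he
      have e1 : (f i).1 = false := by rw [p1]; simpa using Nat.even_iff.mp he
      rw [e1] at w2 w3
      rw [s1, e1]
      have a1 := hel false _ w1
      have a2 := hP false _ w1
      have a3 := hel false _ s2
      have a4 := hel false _ s3
      have a5 := hel true _ s4
      have a6 := hel true _ s5
      simp only [ρ, Bool.not_false, if_true, Bool.false_eq_true, if_false] at a1 a2 a3 a4 a5 a6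
      constructor <;> apply hRel <;> simp only [Bool.not_false]
      · rw [a1, a2, a3, a5]; exact w2
      · rw [a1, a2, a4, a6]; exact w3
    · intro he
      have e1 : (f i).1 = true := by rw [p1]; simpa using Nat.odd_iff.mp he
      rw [e1] at w2 w3
      rw [s1, e1]
      have a1 := hel true _ w1
      have a2 := hP true _ w1
      have a3 := hel true _ s2
      have a4 := hel true _ s3
      have a5 := hel false _ s4
      have a6 := hel false _ s5
      simp only [ρ, Bool.not_true, if_true, Bool.false_eq_true, if_false] at a1 a2 a3 a4 a5 a6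
      constructor <;> apply hRel <;> simp only [Bool.not_true]
      · rw [a1, a2, a3, a5]; unfold H17.OrdRec.Rel at *; omega
      · rw [a1, a2, a4, a6]; unfold H17.OrdRec.Rel at *; omega

end Pool.Agent.S07641
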