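import Pool.Statements.S07644
import Pool.Agent.H43.Orb4
import Pool.Agent.H43.Orb7

set_option autoImplicit false
open Pool Pool.MP_22a609_co

namespace Pool.Agent.S07644
open Pool.Agent.H43.Orb

def FX (A : Set (Setoid (Fin 8866))) : Prop :=
  (∀ t ∈ A, t ∈ Proper pp) ∧ ∀ a ∈ A, ∀ b ∈ A, a ≤ b ∨ b ≤ a

lemma fx_mono : ∀ A B, A ⊆ B → FX B → FX A := fun _ _ h hB =>
  ⟨fun t ht => hB.1 t (h ht), fun a ha b hb => hB.2 a (h ha) b (h hb)⟩

lemma str_tup (k : ℕ) : Str (· < ·) (Proper pp) k ⊆ Tup FX := by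
  intro l hl
  refine ⟨hl.2.2, fun a ha b hb => ?_⟩
  have hs : l.Pairwise fun a b => a ≤ b ∨ b ≤ a := hl.2.1.imp fun h => Or.inl h.le
  haveI : Std.Symm fun a b : Setoid (Fin 8866) => a ≤ b ∨ b ≤ a := ⟨fun _ _ h => Or.symm h⟩
  exact List.Pairwise.forall_of_forall (R := fun a b : Setoid (Fin 8866) => a ≤ b ∨ b ≤ a)
    (fun _ _ => Or.inl le_rfl) hs ha hb

lemma not_tf : ¬ TF FX := by
  obtain ⟨z, c, φ, hz, hc, h0, h2, h1, hφ⟩ := Pool.Agent.H43.Orb.main
  intro h
  obtain ⟨w, hw, e⟩ := h z (on_mono (str_tup 4) hz) c (on_mono (str_tup 5) hc) h0 h2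
  let ψ : List (Setoid (Fin 8866)) → ZMod 2 := fun l => if l.length = 4 then φ l else 0
  have e1 : ∀ y ∈ On {l : List (Setoid (Fin 8866)) | l.length = 4}, ext ψ y = ext φ y :=
    fun y hy => lin_eq_on _ _ (fun l hl => by
      have : l.length = 4 := hl
      simp [ψ, this]) hy
  have e2 : ∀ y ∈ On {l : List (Setoid (Fin 8866)) | l.length ≠ 4}, ext ψ y = 0 :=
    fun y hy => lin_eq_on _ 0 (fun l hl => by
      have : l.length ≠ 4 := hl
      simp [ψ, this]) hy
  apply h1
  rw [← e1 z (on_mono (fun l hl => hl.1) hz), ← e]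
  refine lin_eq_on (ext ψ ∘ₗ d) 0 (fun l hl => ?_) hw
  simp only [LinearMap.comp_apply, d_sg, LinearMap.zero_apply]
  by_cases h5 : l.length = 5
  · rw [e1 _ (dl_on fun i hi => by
      show (l.eraseIdx i).length = 4
      rw [List.length_eraseIdx_of_lt hi, h5])]
    exact hφ l h5 hl.1 hl.2
  · exact e2 _ (dl_on fun i hi => by
      show (l.eraseIdx i).length ≠ 4
      rw [List.length_eraseIdx_of_lt hi]
      omega)

noncomputable instance : Fintype (Setoid (Fin 8866)) :=
  haveI : Finite (Setoid (Fin 8866)) :=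
    Finite.of_injective (fun s : Setoid (Fin 8866) => s.r) fun _ _ h => Setoid.ext fun a b =>
      iff_of_eq (congrFun (congrFun h a) b)
  Fintype.ofFinite _

lemma set_eq : {x : Setoid (Fin 8866) → ℝ | (∀ t, 0 ≤ x t) ∧ (∀ t, x t ≠ 0 → t ∈ Proper pp) ∧
    (∑ᶠ t, x t) = 1 ∧ (∀ a b, x a ≠ 0 → x b ≠ 0 → a ≤ b ∨ b ≤ a)} = Rl FX := by
  ext x
  simp only [Rl, FX, Set.mem_ofPred_eq, finsum_eq_sum_of_fintype]
  exact ⟨fun h => ⟨h.1, h.2.2.1, h.2.1, fun a ha b hb => h.2.2.2 a b ha hb⟩,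
    fun h => ⟨h.1, h.2.2.1, h.2.1, fun a b ha hb => h.2.2.2 a ha b hb⟩⟩

lemma key : ¬ (IsEmpty (Rl FX) ∨ ∃ (k : ℕ) (dd : Fin k → ℕ),
    Nonempty (ContinuousMap.HomotopyEquiv (Rl FX) (Wedge dd))) := by
  classical
  rintro (h | ⟨k, dd, ⟨e⟩⟩)
  · have ht : tau ∈ Proper pp := K_mem e2.2.1 e2.2.2.2.1
    have hs : {v | (Pi.single tau 1 : Setoid (Fin 8866) → ℝ) v ≠ 0} ⊆ {tau} := fun v hv => by
      by_contra h2
      exact hv (Pi.single_eq_of_ne h2 _)
    refine h.false ⟨Pi.single tau 1, fun v => ?_, by simp, fx_mono _ _ hs ⟨by simpa using ht, by simp⟩⟩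
    rw [Pi.single_apply]
    split_ifs <;> norm_num
  · exact not_tf (tf_of_wedge dd fx_mono ⟨by simp, by simp⟩ e)

/-- The negation of the preceding statement: For every partition p of n, the order complex of the proper part of the poset of joins of shape-p set partitions, and the unit-sphere link of the orbit arrangement of p in R^n, are each empty or homotopy equivalent to a finite wedge of spheres. -/
theorem result :
    ¬ (∀ (n : ℕ) (p : Nat.Partition n),
      (IsEmpty {x : Setoid (Fin n) → ℝ |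
          (∀ t, 0 ≤ x t) ∧
          (∀ t, x t ≠ 0 →
            ((∃ S : Set (Setoid (Fin n)),
                (∀ s ∈ S, ∃ f : Fin n → ℕ, s = Setoid.ker f ∧
                  Multiset.map (fun a => (Finset.univ.filter (fun z => f z = a)).card)
                    (Finset.univ.image f).val = p.parts) ∧
                sSup S = t) ∧ t ≠ ⊥ ∧ t ≠ ⊤)) ∧
          (∑ᶠ t, x t) = 1 ∧
          (∀ a b, x a ≠ 0 → x b ≠ 0 → a ≤ b ∨ b ≤ a)} ∨
        ∃ (k : ℕ) (d : Fin k → ℕ),
          Nonempty (ContinuousMap.HomotopyEquiv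
            {x : Setoid (Fin n) → ℝ |
              (∀ t, 0 ≤ x t) ∧
              (∀ t, x t ≠ 0 →
                ((∃ S : Set (Setoid (Fin n)),
                    (∀ s ∈ S, ∃ f : Fin n → ℕ, s = Setoid.ker f ∧
                      Multiset.map (fun a => (Finset.univ.filter (fun z => f z = a)).card)
                        (Finset.univ.image f).val = p.parts) ∧
                    sSup S = t) ∧ t ≠ ⊥ ∧ t ≠ ⊤)) ∧
              (∑ᶠ t, x t) = 1 ∧
              (∀ a b, x a ≠ 0 → x b ≠ 0 → a ≤ b ∨ b ≤ a)}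
            {y : (i : Fin k) → Fin (d i + 1) → ℝ |
              (∀ i, ∑ j, y i j ^ 2 = 1) ∧
              ∀ i i', i ≠ i' → y i = Pi.single 0 1 ∨ y i' = Pi.single 0 1})) ∧
      (IsEmpty {v : Fin n → ℝ |
          ∑ i, v i ^ 2 = 1 ∧
          ∃ s : Setoid (Fin n),
            (∃ f : Fin n → ℕ, s = Setoid.ker f ∧
              Multiset.map (fun a => (Finset.univ.filter (fun z => f z = a)).card)
                (Finset.univ.image f).val = p.parts) ∧
            ∀ i j, s.r i j → v i = v j} ∨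
        ∃ (k : ℕ) (d : Fin k → ℕ),
          Nonempty (ContinuousMap.HomotopyEquiv
            {v : Fin n → ℝ |
              ∑ i, v i ^ 2 = 1 ∧
              ∃ s : Setoid (Fin n),
                (∃ f : Fin n → ℕ, s = Setoid.ker f ∧
                  Multiset.map (fun a => (Finset.univ.filter (fun z => f z = a)).card)
                    (Finset.univ.image f).val = p.parts) ∧
                ∀ i j, s.r i j → v i = v j}
            {y : (i : Fin k) → Fin (d i + 1) → ℝ |
              (∀ i, ∑ j, y i j ^ 2 = 1) ∧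
              ∀ i i', i ≠ i' → y i = Pi.single 0 1 ∨ y i' = Pi.single 0 1}))) := by
  intro h
  have h1 := (h 8866 pp).1
  apply key
  rw [← set_eq]
  exact h1

end Pool.Agent.S07644
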