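import Pool.Statements.S07685
import Pool.Agent.H67.Geo3

set_option autoImplicit false
open Pool Pool.MP_246c79_co

namespace Pool.Agent.S07685

/-- Every infinite geometric lattice of finite rank r has a family of pairwise disjoint maximal chains of L minus its bottom and top such that every atom lies in one of these chains. -/
theorem result :
    ∀ (L : Type) [CompleteLattice L] [IsAtomistic L] [IsUpperModularLattice L] [Infinite L]
      (r : ℕ), Order.height (⊤ : L) = (r : ℕ∞) →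
      ∃ M : Set (Set L),
        (∀ m ∈ M,
          (∀ x ∈ m, x ≠ ⊥ ∧ x ≠ ⊤) ∧ IsChain (· ≤ ·) m ∧
          ∀ m' : Set L, (∀ x ∈ m', x ≠ ⊥ ∧ x ≠ ⊤) → IsChain (· ≤ ·) m' → m ⊆ m' → m' = m) ∧
        M.PairwiseDisjoint id ∧
        ∀ x : L, IsAtom x → ∃ m ∈ M, x ∈ m := by
  intro L _ _ _ _ r hr
  classical
  have hfin : ∀ a : L, Order.height a ≠ ⊤ := fun a =>
    ne_top_of_le_ne_top (by rw [hr]; exact ENat.coe_ne_top r) (Order.height_mono le_top)
  let ρ : L → ℕ := fun a => (Order.height a).toNat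
  have hρ : StrictMono ρ := by
    intro a c h
    have h1 := Order.height_strictMono h (lt_top_iff_ne_top.2 (hfin a))
    have e1 := ENat.coe_toNat (hfin a)
    have e2 := ENat.coe_toNat (hfin c)
    rw [← e1, ← e2] at h1
    exact_mod_cast h1
  have hinf : (H67.Geo.At (⊥ : L) ⊤).Infinite := by
    intro hf
    have := H67.Geo.fin_of_At hf
    exact Set.infinite_univ (this.subset (fun c _ => ⟨bot_le, le_top⟩))
  obtain ⟨m, h, c1, c2⟩ := H67.Geo.fam_all ρ hρ _ ⊥ ⊤ le_rfl hinf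
  refine ⟨m '' H67.Geo.At ⊥ ⊤, ?_, ?_, ?_⟩
  · rintro _ ⟨x, hx, rfl⟩
    obtain ⟨⟨s1, s2, s3, s4, s5⟩, hc⟩ := c1 x hx
    refine ⟨fun y hy => ⟨(hx.1.lt.trans_le (s3 y hy).1).ne', ((s3 y hy).2.trans_lt hc.lt).ne⟩,
      s4, fun m' a1 a2 a3 => Set.Subset.antisymm (fun z hz => ?_) a3⟩
    have cmp : ∀ y ∈ m x, z ≤ y ∨ y ≤ z := fun y hy => by
      by_cases e : z = y
      · exact Or.inl e.le
      · exact a2 hz (a3 hy) e
    refine s5 z ?_ ?_ cmp
    · rcases cmp x s1 with e | e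
      · rcases hx.1.eq_or_eq bot_le e with e' | e'
        · exact absurd e' (a1 z hz).1
        · exact e'.ge
      · exact e
    · rcases cmp _ s2 with e | e
      · exact e
      · rcases hc.eq_or_eq e le_top with e' | e'
        · exact e'.le
        · exact absurd e' (a1 z hz).2
  · rintro _ ⟨x, hx, rfl⟩ _ ⟨y, hy, rfl⟩ hne
    exact c2 x hx y hy (fun e => hne (by rw [e]))
  · intro x hx
    exact ⟨m x, ⟨x, ⟨hx.bot_covBy, le_top⟩, rfl⟩, (c1 x ⟨hx.bot_covBy, le_top⟩).1.1⟩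

end Pool.Agent.S07685
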