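import Pool.Statements.S07687
import Pool.Agent.H14.ChromInt

set_option autoImplicit false
open Pool Pool.MP_248d64_co

namespace Pool.Agent.S07687

/-- There is c>0 such that for all t≥3 and n, any finite family of graphs on n labelled vertices in which every pair (G,H), G=H allowed, has G∩H of chromatic number at least t has size at most 2^(C(n,2) − c t²). -/
theorem result :
    ∃ c : ℝ, 0 < c ∧ ∀ t : ℕ, 3 ≤ t → ∀ n : ℕ, ∀ F : Finset (SimpleGraph (Fin n)),
      (∀ G ∈ F, ∀ H ∈ F, (t : ℕ∞) ≤ (G ⊓ H).chromaticNumber) →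
        (F.card : ℝ) ≤ (2 : ℝ) ^ ((n.choose 2 : ℝ) - c * (t : ℝ) ^ 2) := by
  exact ⟨1 / 48, by norm_num, fun t ht _ F hF => Pool.Agent.H14.ChromInt.main t ht F hF⟩

end Pool.Agent.S07687
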