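import Pool.Statements.S07703
import Pool.Agent.H78.EvB5

set_option autoImplicit false
open Pool Pool.MP_253944_co

namespace Pool.Agent.S07703

/-- For 1≤k≤n−1, the S_{2n}-character of the top homology of partitions of [2n] with 2,4,…,2k blocks, computed as a signed count of σ-fixed chains, is a nonnegative integer combination of Young permutation characters (h-positivity). -/
theorem result :
    ∀ n k : ℕ, 1 ≤ k → k ≤ n - 1 →
      ∃ c : Nat.Partition (2 * n) → ℕ,
        ∀ σ : Equiv.Perm (Fin (2 * n)),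
          (∑ᶠ (C : Finset (Setoid (Fin (2 * n))))
              (_ : IsChain (· ≤ ·) (C : Set (Setoid (Fin (2 * n)))) ∧
                   (∀ r ∈ C, ∃ j : ℕ, 1 ≤ j ∧ j ≤ k ∧ Nat.card (Quotient r) = 2 * j) ∧
                   (∀ r ∈ C, Setoid.comap (⇑σ) r ∈ C)),
              (-1 : ℤ) ^ (k + C.card))
          = ∑ μ : Nat.Partition (2 * n), (c μ : ℤ) *
              (Nat.card {f : Fin (2 * n) → Fin μ.parts.toList.length //
                 (∀ x, f (σ x) = f x) ∧
                 ∀ i, (Finset.univ.filter (fun x => f x = i)).card = μ.parts.toList.get i} : ℤ) := by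
  classical
  intro n k hk1 hk2
  obtain ⟨c, hc⟩ := Pool.Agent.H78.EvB.cone_pos (X := Fin (2 * n))
    (Pool.Agent.H78.EvB.cone_GG (Pool.Agent.H78.EvB.DD k)) (2 * n) (by simp)
  refine ⟨c, fun σ => ?_⟩
  have hL := Pool.Agent.H78.EvB.lefschetz σ (by simp) (by simp; omega) k
  have hc' := hc σ
  beta_reduce at hc'
  refine Eq.trans ?_ (Eq.trans (b := Pool.Agent.H78.EvB.GG (Pool.Agent.H78.EvB.uu σ ⊥)
    (Pool.Agent.H78.EvB.vv σ ⊥) (Pool.Agent.H78.EvB.DD k) Finset.univ) rfl (by convert hc'))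
  have e : Pool.Agent.H78.EvB.GG (Pool.Agent.H78.EvB.uu σ ⊥)
      (Pool.Agent.H78.EvB.vv σ ⊥) (Pool.Agent.H78.EvB.DD k) Finset.univ = (-1) ^ k * ((-1) ^ k *
      Pool.Agent.H78.EvB.GG (Pool.Agent.H78.EvB.uu σ ⊥)
      (Pool.Agent.H78.EvB.vv σ ⊥) (Pool.Agent.H78.EvB.DD k) Finset.univ) := by
    rw [← mul_assoc, ← mul_pow]; simp
  rw [e, ← hL, Finset.mul_sum, finsum_eq_sum_of_fintype]
  simp only [finsum_eq_if]
  rw [← Finset.sum_filter]
  refine Finset.sum_congr ?_ (fun C _ => pow_add _ _ _)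
  ext C
  simp only [Finset.mem_filter, Finset.mem_univ, true_and, Finset.mem_powerset]
  constructor
  · rintro ⟨h1, h2, h3⟩
    refine ⟨fun r hr => Finset.mem_filter.2 ⟨Finset.mem_univ _, ?_, ?_⟩, h1⟩
    · have hn : Pool.Agent.H78.EvB.nb (Setoid.comap σ r) Finset.univ =
          Pool.Agent.H78.EvB.nb r Finset.univ := by
        have : (Finset.univ : Finset (Fin (2 * n))) = Finset.univ.image σ :=
          (Finset.image_univ_equiv σ).symm
        conv_rhs => rw [this]
        unfold Pool.Agent.H78.EvB.nb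
        rw [Finset.image_image]
        exact Pool.Agent.H78.EvB.card_image_ker _ _ _ (fun a _ b _ => by
          simp only [Function.comp, Quotient.eq]; rfl)
      have : Setoid.comap σ r = r := by
        by_contra hne
        rcases h1 (Finset.mem_coe.2 (h3 r hr)) (Finset.mem_coe.2 hr) hne with h | h
        · have := Pool.Agent.H78.EvB.nb_lt (lt_of_le_of_ne h hne); omega
        · have := Pool.Agent.H78.EvB.nb_lt (lt_of_le_of_ne h (Ne.symm hne)); omega
      intro a b
      conv_rhs => rw [← this]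
      rfl
    · rw [Pool.Agent.H78.EvB.nb_univ]; exact h2 r hr
  · rintro ⟨h1, h2⟩
    refine ⟨h2, fun r hr => ?_, fun r hr => ?_⟩
    · rw [← Pool.Agent.H78.EvB.nb_univ]; exact (Finset.mem_filter.1 (h1 hr)).2.2
    · have : Setoid.comap σ r = r := Setoid.ext (Finset.mem_filter.1 (h1 hr)).2.1
      rw [this]; exact hr

end Pool.Agent.S07703
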