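import Pool.Statements.S07755
import Pool.Agent.H54.Fermi

set_option autoImplicit false
open Matrix
open Pool Pool.MP_284e51_co

namespace Pool.Agent.S07755

open Pool.Agent.H54.Fermi

/-- For every finite simplicial complex and every k ≥ 1, any constant bounding the squared stretch of the boundary map ∂_k also bounds that of ∂_{k+1}; that is, the largest singular value of ∂_{k+1} is at most that of ∂_k. -/
theorem result :
    ∀ (n : ℕ) (K : Finset (Finset (Fin n))),
      (∀ s ∈ K, ∀ t : Finset (Fin n), t ⊆ s → t.Nonempty → t ∈ K) →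
      ∀ D : ℕ → Matrix (Finset (Fin n)) (Finset (Fin n)) ℝ,
        (∀ (m : ℕ) (t s : Finset (Fin n)),
          D m t s =
            if s ∈ K ∧ s.card = m then
              ∑ v ∈ s, (if t = s.erase v then
                (-1 : ℝ) ^ (Finset.filter (fun w => w < v) s).card else 0)
            else 0) →
        ∀ k : ℕ, 1 ≤ k →
          ∀ c : ℝ,
            (∀ y : Finset (Fin n) → ℝ,
              (D (k + 1) *ᵥ y) ⬝ᵥ (D (k + 1) *ᵥ y) ≤ c * (y ⬝ᵥ y)) →
            ∀ x : Finset (Fin n) → ℝ,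
              (D (k + 2) *ᵥ x) ⬝ᵥ (D (k + 2) *ᵥ x) ≤ c * (x ⬝ᵥ x) := by
  intro n K hK D hD k hk c hc x
  have h1 := D_mulVec (fun s => s ∈ K ∧ s.card = k + 1) (D (k + 1)) (hD (k + 1))
  have h2 := D_mulVec (fun s => s ∈ K ∧ s.card = k + 2) (D (k + 2)) (hD (k + 2))
  have hc0 : 0 ≤ c := by
    have h3 := hc (Pi.single ∅ 1)
    have h4 := dot_nonneg (D (k + 1) *ᵥ Pi.single ∅ 1)
    have h5 : (Pi.single ∅ 1 : Finset (Fin n) → ℝ) ⬝ᵥ Pi.single ∅ 1 = 1 := by simp
    rw [h5] at h3
    linarith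
  rw [h2]
  refine le_trans (main (fun s => s ∈ K ∧ s.card = k + 2) (fun s => s ∈ K ∧ s.card = k + 1) k
    (fun s h => h.2) ?_ c hc0 ?_ _ ?_) (mul_le_mul_of_nonneg_left (pr_le _ x) hc0)
  · intro t v hv h
    have h3 := h.2
    rw [Finset.card_insert_of_notMem hv] at h3
    exact ⟨hK _ h.1 t (Finset.subset_insert v t) (Finset.card_pos.mp (by omega)), by omega⟩
  · intro y hy
    have h3 := hc y
    rwa [h1, pr_eq _ y hy] at h3
  · intro s h
    by_contra h'
    exact h (if_neg h')

end Pool.Agent.S07755
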