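import Pool.Statements.S07759
import Pool.Agent.H15.FB5

set_option autoImplicit false
open Pool Pool.MP_288596_co

namespace Pool.Agent.S07759

/-- Every poset in which all antichains have size at most some fixed finite k has a chain C and a partition of its elements into antichains, each of which intersects C. -/
theorem result :
    ∀ (α : Type) [PartialOrder α],
      (∃ k : ℕ, ∀ A : Set α, IsAntichain (· ≤ ·) A → A.encard ≤ (k : ℕ∞)) →
      ∃ C : Set α, IsChain (· ≤ ·) C ∧
        ∃ D : Set (Set α), Setoid.IsPartition D ∧
          (∀ A ∈ D, IsAntichain (· ≤ ·) A) ∧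
          (∀ A ∈ D, (A ∩ C).Nonempty) := by
  exact Pool.Agent.H15.FB.spine

end Pool.Agent.S07759
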