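import Pool.Statements.S07782
import Pool.Agent.H6.AbReg

set_option autoImplicit false
open Pool Pool.MP_293fea_co

namespace Pool.Agent.S07782

/-- The negation of the preceding statement: For every k ≥ 2 and every sequence over a finite alphabet with finite k-kernel (k-automatic), the abelian complexity (number of Parikh vectors of length-n factors) has a k-kernel spanning a finitely generated ℤ-module (is k-regular). -/
theorem result :
    ¬ (∀ k : ℕ, 2 ≤ k → ∀ m : ℕ, ∀ x : ℕ → Fin m,
      {f : ℕ → Fin m | ∃ e r : ℕ, r < k ^ e ∧ f = fun n => x (k ^ e * n + r)}.Finite →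
      (Submodule.span ℤ
        {g : ℕ → ℤ | ∃ e r : ℕ, r < k ^ e ∧
          g = fun n =>
            ((Set.ncard {v : Fin m → ℕ | ∃ i : ℕ,
              v = fun c => ((Finset.range (k ^ e * n + r)).filter
                (fun j => x (i + j) = c)).card} : ℕ) : ℤ)}).FG) := by
  intro h
  exact Pool.Agent.H6.AbReg.not_fg
    (h 13 (by norm_num) 2 Pool.Agent.H6.AbReg.x Pool.Agent.H6.AbReg.kernel_finite)

end Pool.Agent.S07782
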