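import Pool.Statements.S07792
import Pool.Agent.H23.Bondage

set_option autoImplicit false
open Pool Pool.MP_29e5d4_co

namespace Pool.Agent.S07792

/-- The negation of the preceding statement: For every finite graph G in which deleting any single vertex lowers the domination number, deleting any set of at most δ(G) edges never raises the domination number; that is, the bondage number is at least δ(G)+1. -/
theorem result :
    ¬ (∀ (V : Type) [Fintype V] [DecidableEq V] (G : SimpleGraph V) [DecidableRel G.Adj]
      (γ : SimpleGraph V → Set V → ℕ),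
      (∀ (H : SimpleGraph V) (S : Set V),
        γ H S = sInf {n : ℕ | ∃ D : Finset V, (↑D : Set V) ⊆ S ∧ D.card = n ∧
          ∀ w ∈ S, w ∈ D ∨ ∃ u ∈ D, H.Adj u w}) →
      (∀ v : V, γ G {w | w ≠ v} < γ G Set.univ) →
      ∀ E' : Finset (Sym2 V), (↑E' : Set (Sym2 V)) ⊆ G.edgeSet →
        E'.card ≤ G.minDegree →
        γ (G.deleteEdges (↑E' : Set (Sym2 V))) Set.univ ≤ γ G Set.univ) := by
  intro h
  have := h (Fin 12) H23.Bondage.gr H23.Bondage.gam (fun _ _ => rfl) H23.Bondage.crit
    H23.Bondage.F H23.Bondage.F_sub H23.Bondage.mindeg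
  have h1 := H23.Bondage.ge5
  have h2 := H23.Bondage.le4
  omega

end Pool.Agent.S07792
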