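import Pool.Statements.S07806
import Pool.Agent.H16.Illum

set_option autoImplicit false
open Pool Pool.MP_2a6d80_co

namespace Pool.Agent.S07806


/-- The negation of the preceding statement: For every origin-symmetric convex body K in 3-space and every ε>0, some finite set of points outside K illuminates every boundary point of K, with the sum of their K-norms below 12+ε; that is, ill(K) ≤ 12. -/
theorem result :
    ¬ (∀ K : Set (EuclideanSpace ℝ (Fin 3)),
      Convex ℝ K → IsCompact K → (interior K).Nonempty → (∀ x ∈ K, -x ∈ K) →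
      ∀ ε : ℝ, 0 < ε →
        ∃ P : Finset (EuclideanSpace ℝ (Fin 3)),
          (∀ p ∈ P, p ∉ K) ∧
          (∀ q ∈ frontier K, ∃ p ∈ P, ∃ t : ℝ, 0 < t ∧ q + t • (q - p) ∈ interior K) ∧
          ∑ p ∈ P, gauge K p < 12 + ε) := by
  intro h
  obtain ⟨P, -, h2, h3⟩ := h H16.Illum.K H16.Illum.K_convex H16.Illum.K_compact
    ⟨0, H16.Illum.zero_int⟩ H16.Illum.K_symm 1 one_pos
  have := H16.Illum.main P h2
  linarith

end Pool.Agent.S07806
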