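import Pool.Statements.S07814
import Pool.Agent.H11.PD2

set_option autoImplicit false
open Pool Pool.MP_2ae84e_co

namespace Pool.Agent.S07814

/-- The negation of the preceding statement: For every finite connected graph with as many edges as vertices and every spanning tree of it, if the tree has a resolving partition into k nonempty classes, the graph has one into at most k+1 classes; i.e. pd(G) ≤ pd(T)+1. -/
theorem result :
    ¬ (∀ (V : Type) [Fintype V] (G T : SimpleGraph V),
      G.Connected → Nat.card G.edgeSet = Nat.card V → T ≤ G → T.IsTree →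
      ∀ k : ℕ,
        (∃ f : V → Fin k, Function.Surjective f ∧
          ∀ u w : V,
            (∀ i : Fin k,
              sInf ((fun v => T.dist u v) '' {v | f v = i}) =
              sInf ((fun v => T.dist w v) '' {v | f v = i})) → u = w) →
        ∃ m : ℕ, m ≤ k + 1 ∧
          ∃ g : V → Fin m, Function.Surjective g ∧
            ∀ u w : V,
              (∀ i : Fin m,
                sInf ((fun v => G.dist u v) '' {v | g v = i}) =
                sInf ((fun v => G.dist w v) '' {v | g v = i})) → u = w) := by
  intro H
  classical
  let N : ℕ := 49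
  let V : Type := {x : H11.PD.W N // H11.PD.valid x}
  haveI : Finite V := H11.PD.valid_finite.to_subtype
  letI : Fintype V := Fintype.ofFinite V
  let par : V → V := fun x => ⟨H11.PD.par x.1, H11.PD.par_valid _ x.2⟩
  let r : V := ⟨.leaf none, trivial⟩
  let u : V := ⟨.ball (fun _ => 0), by simp [H11.PD.valid]⟩
  let v : V := ⟨.path (N + 5), by simp [H11.PD.valid]⟩
  let T := H11.PD.ptree par
  have hne : ∀ x : V, x ≠ r → x.1 ≠ .leaf none := fun x hx h => hx (Subtype.ext h)
  have hpe : ∀ x : V, x ≠ r → H11.PD.eta (par x).1 + 1 = H11.PD.eta x.1 :=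
    fun x hx => H11.PD.eta_par _ x.2 (hne x hx)
  have hrr : par r = r := rfl
  have hT : T.IsTree := H11.PD.ptree_isTree par r (fun x => H11.PD.eta x.1)
    (fun x => H11.PD.eta_nonneg _ x.2) hrr hpe
  have hTa : ∀ x y : V, T.Adj x y → (x ≠ r ∧ y = par x) ∨ (y ≠ r ∧ x = par y) := by
    intro x y h
    obtain ⟨h1, h2 | h2⟩ := (H11.PD.ptree_adj par x y).mp h
    · exact Or.inl ⟨by rintro rfl; exact h1 (by rw [h2, hrr]), h2⟩
    · exact Or.inr ⟨by rintro rfl; exact h1 (by rw [h2, hrr]), h2⟩
  have hTp : ∀ x : V, x ≠ r → T.Adj x (par x) := by
    intro x hx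
    refine (H11.PD.ptree_adj par _ _).mpr ⟨fun h => ?_, Or.inl rfl⟩
    have := hpe x hx
    rw [← h] at this; omega
  have hηu : H11.PD.eta u.1 = 55 := by simp [u, H11.PD.eta, N]
  have hηv : H11.PD.eta v.1 = 1 := by simp [v, H11.PD.eta, N]
  have huv : u ≠ v := by intro h; rw [h] at hηu; omega
  have hnT : ¬ T.Adj u v := by
    intro h
    rcases hTa _ _ h with ⟨a, b⟩ | ⟨a, b⟩
    · have := hpe _ a; rw [← b] at this; omega
    · have := hpe _ a; rw [← b] at this; omega
  let G : SimpleGraph V := T ⊔ SimpleGraph.fromEdgeSet {s(u, v)}
  have hTG : T ≤ G := le_sup_left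
  have hG : G.Connected := hT.isConnected.mono hTG
  have hGuv : G.Adj u v := Or.inr (by simp [huv])
  have hcard : Nat.card G.edgeSet = Nat.card V := by
    have h1 := (SimpleGraph.isTree_iff_connected_and_card.mp hT).2
    have h2 : G.edgeSet = insert s(u, v) T.edgeSet := by
      simp only [G, SimpleGraph.edgeSet_sup, SimpleGraph.edgeSet_fromEdgeSet]
      ext e
      simp only [Set.mem_union, Set.mem_diff, Set.mem_singleton_iff, Set.mem_insert_iff,
        Sym2.mem_diagSet]
      constructor
      · rintro (h | ⟨h, _⟩)
        · exact Or.inr h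
        · exact Or.inl h
      · rintro (h | h)
        · exact Or.inr ⟨h, by rw [h]; simpa using huv⟩
        · exact Or.inl h
    rw [← h1, h2, Nat.card_coe_set_eq, Nat.card_coe_set_eq,
      Set.ncard_insert_of_notMem (by simpa using hnT)]
  -- potentials and classes
  let Φ : Option (Fin (N + 1)) → V → ℤ := fun c x =>
    match c with
    | none => H11.PD.eta x.1
    | some j => H11.PD.phi j x.1
  have hΦu : ∀ c c' x, Φ c x = 0 → Φ c' x = 0 → c = c' := by
    intro c c' x h h'
    cases c with
    | none =>
      cases c' with
      | none => rfl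
      | some j =>
        have := H11.PD.eta_zero _ x.2 h
        simp only [Φ] at h'
        rw [this] at h'; simp [H11.PD.phi] at h'
    | some j =>
      cases c' with
      | none =>
        have := H11.PD.eta_zero _ x.2 h'
        simp only [Φ] at h
        rw [this] at h; simp [H11.PD.phi] at h
      | some j' => rw [H11.PD.phi_zero j j' _ x.2 h h']
  have hΦ : ∀ c x, ((sInf ((fun w => T.dist x w) '' {w | Φ c w = 0}) : ℕ) : ℤ) = Φ c x := by
    intro c
    cases c with
    | none =>
      refine H11.PD.sInf_eq_pot T hT.isConnected _ (fun x => H11.PD.eta_nonneg _ x.2) ?_ ?_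
      · intro x y h
        simp only [Φ]
        rcases hTa _ _ h with ⟨a, b⟩ | ⟨a, b⟩
        · have := hpe _ a; rw [← b] at this; omega
        · have := hpe _ a; rw [← b] at this; omega
      · intro x hx
        have : x ≠ r := by rintro rfl; exact hx rfl
        exact ⟨par x, hTp x this, hpe x this⟩
    | some j =>
      refine H11.PD.sInf_eq_pot T hT.isConnected _ (fun x => H11.PD.phi_nonneg j _ x.2) ?_ ?_
      · intro x y h
        simp only [Φ]
        rcases hTa _ _ h with ⟨a, b⟩ | ⟨a, b⟩
        · rw [b]; exact (H11.PD.phi_par j _ x.2 (hne x a)).1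
        · rw [b]; exact (H11.PD.phi_par j _ y.2 (hne y a)).2
      · intro x hx
        obtain ⟨y, hy, h1, h2⟩ := H11.PD.phi_down j _ x.2 hx
        refine ⟨⟨y, hy⟩, (H11.PD.ptree_adj par _ _).mpr ⟨?_, ?_⟩, h2⟩
        · intro h
          have : x.1 = y := congrArg Subtype.val h
          rw [this] at h2; omega
        · rcases h1 with h1 | h1
          · exact Or.inl (Subtype.ext h1)
          · exact Or.inr (Subtype.ext h1)
  let cls : V → Option (Option (Fin (N + 1))) := fun x =>
    if h : ∃ c, Φ c x = 0 then some h.choose else none
  have hcls : ∀ x c, cls x = some c ↔ Φ c x = 0 := by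
    intro x c
    simp only [cls]
    split_ifs with h
    · constructor
      · intro h'
        have := h.choose_spec
        rw [Option.some.inj h'] at this; exact this
      · intro h'
        rw [hΦu _ _ _ h.choose_spec h']
    · simp only [false_iff, reduceCtorEq]
      exact fun h' => h ⟨c, h'⟩
  let e : Option (Option (Fin (N + 1))) ≃ Fin 52 := Fintype.equivFinOfCardEq (by simp [N])
  refine (H V G T hG hcard hTG hT 52 ⟨e ∘ cls, ?_, ?_⟩).elim ?_
  rotate_left 2
  · rintro m ⟨hm, g, hg, hres⟩
    let lf : Option (Fin (N + 1)) → V := fun o => ⟨.leaf o, trivial⟩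
    let b : (Fin N → Fin 7) → V := fun t =>
      ⟨.ball (Fin.snoc (α := fun _ => ℤ) (fun i => (t i : ℤ) - 3) (-3)), by
        refine ⟨by simp, fun j => ?_⟩
        refine Fin.lastCases ?_ (fun i => ?_) j
        · simp
        · simp only [Fin.snoc_last, Fin.snoc_castSucc]
          have := (t i).2
          constructor <;> omega⟩
    have hball : ∀ n : ℕ, ∀ x : V, ∀ t, x.1 = .ball t → t (Fin.last N) = -n → G.dist x u ≤ n := by
      intro n
      induction n with
      | zero =>
        intro x t hx ht
        have hv := x.2
        rw [hx] at hv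
        have : x = u := by
          apply Subtype.ext
          rw [hx]
          simp only [u]
          congr 1
          funext j
          have := hv.2 j
          push_cast at ht
          omega
        rw [this]; simp
      | succ n ih =>
        intro x t hx ht
        have hxr : x ≠ r := by rintro rfl; simp [r] at hx
        have h1 : G.dist x (par x) = 1 := SimpleGraph.dist_eq_one_iff_adj.mpr (hTG (hTp x hxr))
        have h2 := ih (par x) (fun j => t j - Int.sign (t j)) (by
          simp only [par]; rw [hx]; simp only [H11.PD.par]; rw [if_neg (by push_cast at ht; omega)])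
          (by have := H11.PD.sign_cases (t (Fin.last N)); push_cast at ht; omega)
        have := hG.dist_triangle (u := x) (v := par x) (w := u)
        omega
    refine absurd (H11.PD.count_bound G hG u v hGuv lf
      (fun a c h => H11.PD.W.leaf.inj (congrArg Subtype.val h)) ?_ ?_ b ?_
      (fun t => hball 3 (b t) _ rfl (by simp)) m (by simpa [N] using hm) g hg hres) (by simp [N])
    · intro o
      apply hTG
      cases o with
      | none => exact (hTp v (fun h => by have := congrArg Subtype.val h; simp [v, r] at this)).symm
      | some j => exact hTp (lf (some j)) (fun h => by have := congrArg Subtype.val h; simp [lf, r] at this)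
    · intro o y h
      rcases h with h | h
      · rcases hTa _ _ h with ⟨a, c⟩ | ⟨a, c⟩
        · cases o with
          | none => exact absurd rfl a
          | some j => exact c
        · have c' : H11.PD.W.leaf o = H11.PD.par y.1 := congrArg Subtype.val c
          apply Subtype.ext
          obtain ⟨y, hy⟩ := y
          cases y with
          | ball t => simp only [H11.PD.par] at c'; split_ifs at c' <;> simp at c'
          | pr z i s => simp only [H11.PD.par] at c'; split_ifs at c' <;> simp at c'
          | path a' =>
            simp only [H11.PD.par] at c'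
            split_ifs at c' with h
            simp [v, h]
          | leaf o' =>
            cases o' with
            | none => exact absurd rfl a
            | some j => simp [H11.PD.par] at c'
      · rw [SimpleGraph.fromEdgeSet_adj, Set.mem_singleton_iff, Sym2.eq_iff] at h
        rcases h.1 with ⟨h, _⟩ | ⟨h, _⟩ <;> (have := congrArg Subtype.val h; simp [lf, u, v] at this)
    · intro t t' h
      have h' : Fin.snoc (α := fun _ => ℤ) (fun i => (t i : ℤ) - 3) (-3) =
          Fin.snoc (α := fun _ => ℤ) (fun i => (t' i : ℤ) - 3) (-3) :=
        H11.PD.W.ball.inj (congrArg Subtype.val h)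
      funext i
      have := congrFun h' i.castSucc
      simp only [Fin.snoc_castSucc] at this
      apply Fin.ext; omega
  · refine e.surjective.comp ?_
    intro c
    cases c with
    | none =>
      refine ⟨v, ?_⟩
      simp only [cls]
      rw [dif_neg]
      rintro ⟨c, hc⟩
      cases c <;> simp [Φ, v, H11.PD.eta, H11.PD.phi] at hc
    | some c =>
      refine ⟨⟨.leaf c, trivial⟩, (hcls _ _).mpr ?_⟩
      cases c <;> simp [Φ, H11.PD.eta, H11.PD.phi]
  · intro x y h
    have hh : ∀ c, Φ c x = Φ c y := by
      intro c
      have := h (e (some c))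
      have hs : {w : V | (e ∘ cls) w = e (some c)} = {w | Φ c w = 0} := by
        ext w; simp [hcls]
      rw [hs] at this
      rw [← hΦ c x, ← hΦ c y, this]
    exact Subtype.ext (H11.PD.resolve _ _ x.2 y.2 (hh none) (fun j => hh (some j)))

end Pool.Agent.S07814
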