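import Pool.Statements.S07816
import Pool.Agent.H14.Sp4

set_option autoImplicit false
open Matrix
open scoped Classical
open Pool Pool.MP_2afb6f_co

namespace Pool.Agent.S07816

/-- The negation of the preceding statement: For a finite graph family with min chromatic number p+1, p ≥ 2, if some member embeds in a complete p-partite graph plus a matching inside one part, then for all large n every H-free n-vertex graph of maximum spectral radius also has the maximum edge count. -/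
theorem result :
    ¬ (∀ (m : ℕ) (k : Fin m → ℕ) (F : ∀ i : Fin m, SimpleGraph (Fin (k i))) (p : ℕ),
      2 ≤ p →
      (∃ i : Fin m, (F i).chromaticNumber = ((p + 1 : ℕ) : ℕ∞)) →
      (∀ i : Fin m, ((p + 1 : ℕ) : ℕ∞) ≤ (F i).chromaticNumber) →
      (∃ i : Fin m, ∃ N : ℕ, (F i).IsContained
        (SimpleGraph.fromRel (fun u v : Fin p × Fin N =>
          u.1 ≠ v.1 ∨ (u.1.val = 0 ∧ v.1.val = 0 ∧ u.2.val / 2 = v.2.val / 2)))) →
      ∃ N0 : ℕ, ∀ n : ℕ, N0 ≤ n → ∀ G : SimpleGraph (Fin n),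
        ((∀ i : Fin m, ¬ (F i).IsContained G) ∧
          ∀ G' : SimpleGraph (Fin n), (∀ i : Fin m, ¬ (F i).IsContained G') →
            ∀ x : Fin n → ℝ, x ≠ 0 → ∃ y : Fin n → ℝ, y ≠ 0 ∧
              (x ⬝ᵥ (G'.adjMatrix ℝ *ᵥ x)) * (y ⬝ᵥ y) ≤
                (y ⬝ᵥ (G.adjMatrix ℝ *ᵥ y)) * (x ⬝ᵥ x)) →
        ((∀ i : Fin m, ¬ (F i).IsContained G) ∧
          ∀ G' : SimpleGraph (Fin n), (∀ i : Fin m, ¬ (F i).IsContained G') →
            G'.edgeSet.ncard ≤ G.edgeSet.ncard)) := by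
  intro h
  let e := (Fintype.equivFin {F : SimpleGraph (Fin 48) // ¬ H14.Sp.P F}).symm
  have hL : ∀ (n : ℕ) (G : SimpleGraph (Fin n)),
      (∀ i, ¬ (e i).1.IsContained G) ↔ H14.Sp.Loc G := fun n G =>
    ⟨fun h F hF => by_contra fun hn => h (e.symm ⟨F, hn⟩) (by simpa using hF),
      fun h i hi => (e i).2 (h _ hi)⟩
  obtain ⟨N, hN⟩ := h _ (fun _ => 48) (fun i => (e i).1) 2 le_rfl
    ⟨e.symm ⟨_, H14.Sp.T3_not⟩, by simpa using H14.Sp.T3_chi⟩ (fun i => H14.Sp.chi_ge (e i).2)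
    ⟨e.symm ⟨_, H14.Sp.T3_not⟩, 48, by simpa using H14.Sp.T3_sub⟩
  obtain ⟨n, hn, G, h1, h2⟩ := H14.Sp.main N
  simp only [hL] at hN
  exact h2 (hN n hn G h1).2

end Pool.Agent.S07816
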