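import Pool.Statements.S07822
import Pool.Agent.H19.Cluster
-- import your own Pool.Agent.* helpers here

set_option autoImplicit false
open Pool Pool.MP_2b2760_co Pool.Agent.H19.Cluster Pool.Agent.H19.ParentTree

namespace Pool.Agent.S07822

/-- The negation of the preceding statement: There is f such that every finite graph of layered treewidth at most k with no K_{2,t} subgraph has a 3-colouring in which every monochromatic connected vertex set has at most f(k,t) vertices. -/
theorem result :
    ¬ (∃ f : ℕ → ℕ → ℕ, ∀ (k t : ℕ) (V : Type) [Fintype V] (G : SimpleGraph V),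
    (∃ (T : Type) (_ : Fintype T) (TT : SimpleGraph T) (B : T → Finset V) (ℓ : V → ℕ),
      TT.IsTree ∧
      (∀ v : V, (TT.induce {x | v ∈ B x}).Connected) ∧
      (∀ u v : V, G.Adj u v → ∃ x, u ∈ B x ∧ v ∈ B x) ∧
      (∀ u v : V, G.Adj u v → ℓ u ≤ ℓ v + 1 ∧ ℓ v ≤ ℓ u + 1) ∧
      (∀ x i, ((B x).filter (fun v => ℓ v = i)).card ≤ k)) →
    ¬ (completeBipartiteGraph (Fin 2) (Fin t)).IsContained G →
    ∃ c : V → Fin 3, ∀ S : Finset V, (∀ u ∈ S, ∀ w ∈ S, c u = c w) →
      (G.induce (S : Set V)).Connected → S.card ≤ f k t) := by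
  classical
  rintro ⟨f, hf⟩
  haveI : Fintype (XV (f 6 11) ((f 6 11 + 1) * ((f 6 11 + 1) * f 6 11 + 1))) := Fintype.ofFinite _
  obtain ⟨c, hc⟩ := hf 6 11 (VV (f 6 11) ((f 6 11 + 1) * ((f 6 11 + 1) * f 6 11 + 1))) (GG _ _)
    ⟨_, inferInstance, pgraph par, fun t => Finset.univ.filter (inB t), lay, tree,
      fun v => by
        have e : {x | v ∈ Finset.univ.filter (inB x)} = {t | inB t v} := by ext; simp
        rw [e]
        exact bag_conn v,
      fun u v h => by
        rcases (gadj.mp h).2 with h | h
        · simpa using edge_bag h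
        · simpa [and_comm] using edge_bag h,
      fun u v h => (gadj.mp h).2.elim lay_le fun h => (lay_le h).symm,
      fun t i => width t i _ fun v hv => by simpa using hv⟩ no_K2t
  exact no_col _ _ le_rfl c fun v _ s g h1 h2 => reach_bound _ c _ hc v s g h1 h2

end Pool.Agent.S07822
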