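import Pool.Statements.S07829
import Pool.Agent.H89.FG5

set_option autoImplicit false
open Matrix
open Pool Pool.MP_2b959d_co

namespace Pool.Agent.S07829

/-- For every n ≥ 1 there is an integer k ≥ 2 such that every n×n doubly stochastic real matrix A satisfies per(A^k) ≤ per(A). -/
theorem result :
    ∀ n : ℕ, 1 ≤ n → ∃ k : ℕ, 2 ≤ k ∧
      ∀ A : Matrix (Fin n) (Fin n) ℝ, A ∈ doublyStochastic ℝ (Fin n) →
        (A ^ k).permanent ≤ A.permanent := by
  intro n hn
  haveI : Nonempty (Fin n) := ⟨⟨0, hn⟩⟩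
  obtain ⟨k, hk⟩ := H89.FG.foregger (ι := Fin n)
  exact ⟨k + 2, by omega, fun A h => hk A (H89.FG.ds_iff.2 h) _ (by omega)⟩

end Pool.Agent.S07829
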