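import Pool.Statements.S07874
import Pool.Agent.H27.NetBlow

set_option autoImplicit false
open Pool Pool.MP_2d87f2_co

namespace Pool.Agent.S07874

/-- The negation of the preceding statement: For every infinite connected locally finite vertex-transitive graph G, every k ≥ 1 and every maximal k-separated vertex set S, the Cheeger constant of the graph on S joining points at distance ≤ 2k is at least the Cheeger constant of G. -/
theorem result :
    ¬ (∀ (V : Type) (G : SimpleGraph V), Infinite V → G.Connected →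
      (∀ v : V, (G.neighborSet v).Finite) →
      (∀ u v : V, ∃ φ : G ≃g G, φ u = v) →
      ∀ k : ℕ, 1 ≤ k →
      ∀ S : Set V,
        (∀ u ∈ S, ∀ v ∈ S, u ≠ v → k ≤ G.dist u v) →
        (∀ w : V, w ∉ S → ∃ u ∈ S, G.dist w u < k) →
        sInf {r : ℝ | ∃ A : Finset V, A.Nonempty ∧
            r = (Set.ncard {p : V × V | p.1 ∈ A ∧ p.2 ∉ A ∧ G.Adj p.1 p.2} : ℝ)
              / (A.card : ℝ)}
          ≤
        sInf {r : ℝ | ∃ A : Finset V, A.Nonempty ∧ (↑A : Set V) ⊆ S ∧
            r = (Set.ncard {p : V × V | p.1 ∈ A ∧ p.2 ∈ S ∧ p.2 ∉ A ∧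
                  G.dist p.1 p.2 ≤ 2 * k} : ℝ)
              / (A.card : ℝ)}) := by
  intro H
  classical
  have h := H _ Pool.Agent.H27.NetBlow.G inferInstance Pool.Agent.H27.NetBlow.conn
    Pool.Agent.H27.NetBlow.locfin Pool.Agent.H27.NetBlow.trans 2 (by norm_num)
    Pool.Agent.H27.NetBlow.S Pool.Agent.H27.NetBlow.S_sep Pool.Agent.H27.NetBlow.S_max
  let v : Pool.Agent.H27.NetBlow.V := ((0, 0), 0)
  have key : ∀ (P Q : Set ℝ) (x : ℝ), sInf P ≤ sInf Q → P.Nonempty → (∀ r ∈ P, 300 ≤ r) →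
      (∀ r ∈ Q, 0 ≤ r) → x ∈ Q → 300 ≤ x := fun P Q x a b c d e =>
    (le_csInf b c).trans (a.trans (csInf_le ⟨0, d⟩ e))
  have h2 := key _ _ _ h ⟨_, {v}, by simp, rfl⟩ (by
    rintro r ⟨A, hA, rfl⟩
    have hpos : (0 : ℝ) < A.card := by exact_mod_cast hA.card_pos
    rw [le_div_iff₀ hpos]
    exact_mod_cast Pool.Agent.H27.NetBlow.big A) (by
    rintro r ⟨A, -, -, rfl⟩
    positivity) ⟨{v}, by simp, by
    intro w hw
    simp only [Finset.coe_singleton, Set.mem_singleton_iff] at hw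
    subst hw
    exact ⟨rfl, rfl⟩, rfl⟩
  have h3 := Pool.Agent.H27.NetBlow.net_small v
  rw [Finset.card_singleton, Nat.cast_one, div_one] at h2
  have h4 : (300 : ℝ) ≤ ((256 : ℕ) : ℝ) := h2.trans (by exact_mod_cast h3)
  norm_num at h4

end Pool.Agent.S07874
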