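import Pool.Statements.S07884
import Pool.Agent.H27.ModAut

set_option autoImplicit false
open Pool Pool.MP_2de88f_co

namespace Pool.Agent.S07884

/-- The negation of the preceding statement: For every h there is a finite group G such that no nonempty finite modular lattice of height at most h has its automorphism group isomorphic to G. -/
theorem result :
    ¬ (∀ h : ℕ, ∃ (G : Type) (_ : Group G) (_ : Finite G),
      ∀ (L : Type) [Lattice L] [IsModularLattice L] [Finite L] [Nonempty L],
        Order.krullDim L ≤ (h : WithBot ℕ∞) → IsEmpty ((L ≃o L) ≃* G)) := by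
  intro H
  obtain ⟨G, _, hG, h⟩ := H 14
  obtain ⟨L, _, _, _, _, ⟨φ⟩, -, h1, -⟩ := Pool.Agent.H27.ModAut.main G
  exact (h L h1).false φ.symm

end Pool.Agent.S07884
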