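import Pool.Statements.S07886

set_option autoImplicit false
open Pool Pool.MP_2dea4c_co

namespace Pool.Agent.S07886

open Finset

def tl : Fin 18 → Fin 9 := ![0, 0, 7, 7, 1, 2, 4, 3, 1, 4, 4, 2, 3, 3, 7, 7, 8, 8]
def hd : Fin 18 → Fin 9 := ![2, 3, 1, 4, 2, 4, 3, 1, 5, 5, 5, 6, 6, 6, 8, 8, 7, 7]

/-- counting lemma for one spanning tree given by parent pointers -/
theorem tree_count (par : Fin 9 → Fin 9) (rk : Fin 9 → ℕ) (arc : Fin 9 → Fin 18)
    (T : Finset (Fin 18))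
    (h1 : ∀ v, v ≠ 0 → rk (par v) < rk v)
    (h2 : ∀ v, v ≠ 0 → arc v ∈ T ∧
      ((tl (arc v) = v ∧ hd (arc v) = par v) ∨ (tl (arc v) = par v ∧ hd (arc v) = v)))
    (h3 : ∀ u v, u ≠ 0 → v ≠ 0 → arc u = arc v → u = v) (p : Fin 9 → ℕ) :
    (univ.image p).card - 1 ≤ (T.filter (fun a => p (tl a) ≠ p (hd a))).card := by
  let C : Finset (Fin 9) := univ.filter (fun v => v ≠ 0 ∧ p v ≠ p (par v))
  have a1 : ∀ n, ∀ v, rk v = n → p v ∈ insert (p 0) (C.image p) := by
    intro n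
    induction n using Nat.strong_induction_on with
    | _ n ih =>
      intro v hv
      by_cases h0 : v = 0
      · subst h0; exact mem_insert_self _ _
      · by_cases e : p v = p (par v)
        · rw [e]
          exact ih _ (hv ▸ h1 v h0) _ rfl
        · exact mem_insert_of_mem (mem_image_of_mem _ (by simp [C, h0, e]))
  have a2 : (univ.image p).card ≤ C.card + 1 := by
    calc _ ≤ (insert (p 0) (C.image p)).card := by
          apply card_le_card
          intro x hx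
          obtain ⟨v, -, rfl⟩ := mem_image.1 hx
          exact a1 _ v rfl
      _ ≤ (C.image p).card + 1 := card_insert_le _ _
      _ ≤ C.card + 1 := by have := card_image_le (s := C) (f := p); omega
  have a3 : C.card ≤ (T.filter (fun a => p (tl a) ≠ p (hd a))).card := by
    apply card_le_card_of_injOn arc
    · intro v hv
      simp only [C, coe_filter, mem_univ, true_and, Set.mem_ofPred_eq] at hv ⊢
      obtain ⟨b1, b2⟩ := h2 v hv.1
      refine ⟨b1, ?_⟩
      rcases b2 with ⟨e1, e2⟩ | ⟨e1, e2⟩ <;> rw [e1, e2]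
      · exact hv.2
      · exact hv.2.symm
    · intro u hu v hv e
      simp only [C, coe_filter, mem_univ, true_and, Set.mem_ofPred_eq] at hu hv
      exact h3 u v hu.1 hv.1 e
  omega

theorem pc (p : Fin 9 → ℕ) : 2 * ((univ.image p).card - 1) ≤
    Fintype.card {a : Fin 18 // p (tl a) ≠ p (hd a)} := by
  have t1 := tree_count ![0, 2, 0, 6, 3, 4, 2, 1, 7] ![0, 2, 1, 3, 4, 5, 2, 3, 4]
    ![0, 4, 0, 12, 6, 9, 11, 2, 14] {0, 4, 12, 6, 9, 11, 2, 14}
    (by decide) (by decide) (by decide) p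
  have t2 := tree_count ![0, 3, 4, 0, 5, 1, 3, 4, 7] ![0, 2, 5, 1, 4, 3, 2, 5, 6]
    ![0, 7, 5, 1, 10, 8, 13, 3, 15] {7, 5, 1, 10, 8, 13, 3, 15}
    (by decide) (by decide) (by decide) p
  rw [Fintype.card_subtype]
  have hd' : Disjoint (({0, 4, 12, 6, 9, 11, 2, 14} : Finset (Fin 18)).filter
      (fun a => p (tl a) ≠ p (hd a)))
      (({7, 5, 1, 10, 8, 13, 3, 15} : Finset (Fin 18)).filter (fun a => p (tl a) ≠ p (hd a))) :=
    disjoint_filter_filter (by decide)
  have := card_le_card (s := (({0, 4, 12, 6, 9, 11, 2, 14} : Finset (Fin 18)).filter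
      (fun a => p (tl a) ≠ p (hd a))) ∪
      (({7, 5, 1, 10, 8, 13, 3, 15} : Finset (Fin 18)).filter (fun a => p (tl a) ≠ p (hd a))))
      (t := univ.filter (fun a => p (tl a) ≠ p (hd a))) (by
        intro a ha
        rw [mem_union, mem_filter, mem_filter] at ha
        rw [mem_filter]
        exact ⟨mem_univ _, ha.elim (·.2) (·.2)⟩)
  rw [card_union_of_disjoint hd'] at this
  omega

theorem cut (f : Fin 18 → Fin 2) (i : Fin 2)
    (h : (SimpleGraph.fromRel
      (fun u v : Fin 9 => ∃ a : Fin 18, f a = i ∧ tl a = u ∧ hd a = v)).Connected)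
    (χ : Fin 9 → Bool) (u v : Fin 9) (huv : χ u ≠ χ v) :
    ∃ a, χ (tl a) ≠ χ (hd a) ∧ f a = i := by
  obtain ⟨w⟩ := h u v
  induction w with
  | nil => exact absurd rfl huv
  | @cons x y z hadj w ih =>
    by_cases e : χ x = χ y
    · exact ih (e ▸ huv)
    · rw [SimpleGraph.fromRel_adj] at hadj
      rcases hadj.2 with ⟨a, h1, h2, h3⟩ | ⟨a, h1, h2, h3⟩
      · exact ⟨a, by rw [h2, h3]; exact e, h1⟩
      · exact ⟨a, by rw [h2, h3]; exact fun e' => e e'.symm, h1⟩

set_option synthInstance.maxSize 2000 in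
theorem core : ∀ a0 a1 : Fin 2, (∀ i, a0 = i ∨ a1 = i) → ∀ a2 a3 : Fin 2, (∀ i, a2 = i ∨ a3 = i) →
    ∀ a4 : Fin 2, (∀ i, a0 = i ∨ a4 = i) → ∀ a5 : Fin 2, (∀ i, a3 = i ∨ a5 = i) →
    ∀ a6 : Fin 2, (∀ i, a1 = i ∨ a6 = i) → ∀ a7 : Fin 2, (∀ i, a2 = i ∨ a7 = i) →
    ∀ a8 a11 : Fin 2, (∀ i, a3 = i ∨ a4 = i ∨ a7 = i ∨ a8 = i) →
    (∀ i, a2 = i ∨ a5 = i ∨ a6 = i ∨ a8 = i) → (∀ i, a0 = i ∨ a6 = i ∨ a7 = i ∨ a11 = i) →
    (∀ i, a1 = i ∨ a4 = i ∨ a5 = i ∨ a11 = i) → False := by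
  decide +kernel

/-- The negation of the preceding statement: For any k ≥ 1 and any loopless finite directed multigraph that is k-partition-connected when undirected, with a root of in-degree 0 and all other in-degrees at least k, the arcs split into k weakly connected spanning parts, each entering every non-root vertex. -/
theorem result :
    ¬ (∀ (V : Type) [Fintype V] [DecidableEq V] (A : Type) [Fintype A]
      (tail head : A → V) (k : ℕ) (r₀ : V),
      0 < k →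
      (∀ a : A, tail a ≠ head a) →
      (∀ p : V → ℕ,
        k * ((Finset.univ.image p).card - 1) ≤
          Fintype.card {a : A // p (tail a) ≠ p (head a)}) →
      (∀ a : A, head a ≠ r₀) →
      (∀ v : V, v ≠ r₀ → k ≤ Fintype.card {a : A // head a = v}) →
      ∃ f : A → Fin k,
        (∀ i : Fin k,
          (SimpleGraph.fromRel
            (fun u v : V => ∃ a : A, f a = i ∧ tail a = u ∧ head a = v)).Connected) ∧
        (∀ i : Fin k, ∀ v : V, v ≠ r₀ → ∃ a : A, f a = i ∧ head a = v)) := by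
  intro hall
  obtain ⟨f, h1, h2⟩ := hall (Fin 9) (Fin 18) tl hd 2 0 (by norm_num) (by decide) pc (by decide)
    (by decide)
  have C : ∀ (χ : Fin 9 → Bool) (v : Fin 9) (L : List (Fin 18)), χ 0 ≠ χ v →
      (∀ a, χ (tl a) ≠ χ (hd a) → a ∈ L) → ∀ i, ∃ a ∈ L, f a = i := by
    intro χ v L h3 h4 i
    obtain ⟨a, h5, h6⟩ := cut f i (h1 i) χ 0 v h3
    exact ⟨a, h4 a h5, h6⟩
  have D : ∀ (v : Fin 9) (L : List (Fin 18)), v ≠ 0 →
      (∀ a, hd a = v → a ∈ L) → ∀ i, ∃ a ∈ L, f a = i := by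
    intro v L h3 h4 i
    obtain ⟨a, h5, h6⟩ := h2 i v h3
    exact ⟨a, h4 a h6, h5⟩
  refine core (f 0) (f 1) ?_ (f 2) (f 3) ?_ (f 4) ?_ (f 5) ?_ (f 6) ?_ (f 7) ?_ (f 8) (f 11)
    ?_ ?_ ?_ ?_
  · simpa using C (fun v => decide (v ≠ 0)) 1 [0, 1] (by decide) (by decide)
  · simpa using C (fun v => decide (v = 7 ∨ v = 8)) 7 [2, 3] (by decide) (by decide)
  · simpa using D 2 [0, 4] (by decide) (by decide)
  · simpa using D 4 [3, 5] (by decide) (by decide)
  · simpa using D 3 [1, 6] (by decide) (by decide)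
  · simpa using D 1 [2, 7] (by decide) (by decide)
  · simpa using C (fun v => decide (v = 1 ∨ v = 7 ∨ v = 8)) 7 [3, 4, 7, 8] (by decide) (by decide)
  · simpa using C (fun v => decide (v = 4 ∨ v = 5 ∨ v = 7 ∨ v = 8)) 7 [2, 5, 6, 8] (by decide)
      (by decide)
  · simpa using C (fun v => decide (v = 1 ∨ v = 2 ∨ v = 4 ∨ v = 5 ∨ v = 7 ∨ v = 8)) 7
      [0, 6, 7, 11] (by decide) (by decide)
  · simpa using C (fun v => decide (v ≠ 0 ∧ v ≠ 2)) 7 [1, 4, 5, 11] (by decide) (by decide)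

end Pool.Agent.S07886
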