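import Pool.Statements.S07905
import Pool.Agent.H3.EnergyArith

set_option autoImplicit false
open Pool Pool.MP_2eecae_co

namespace Pool.Agent.S07905

open Finset Matrix Pool.Agent.H3.EnergyArith

variable {V : Type} [Fintype V] [DecidableEq V]

theorem spec (A : Matrix V V ℝ) (hA : A.IsHermitian) :
    ∃ U : Matrix V V ℝ, A = U * diagonal hA.eigenvalues * Uᵀ ∧ Uᵀ * U = 1 ∧ U * Uᵀ = 1 := by
  refine ⟨hA.eigenvectorUnitary, ?_, ?_, ?_⟩
  · have := hA.spectral_theorem
    rw [Unitary.conjStarAlgAut_apply] at this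
    simpa [star_eq_conjTranspose] using this
  · simpa [star_eq_conjTranspose] using Unitary.coe_star_mul_self hA.eigenvectorUnitary
  · simpa [star_eq_conjTranspose] using Unitary.coe_mul_star_self hA.eigenvectorUnitary

theorem sum_sq (A : Matrix V V ℝ) (hA : A.IsHermitian) :
    ∑ i, hA.eigenvalues i ^ 2 = (A * A).trace := by
  obtain ⟨U, h1, h2, h3⟩ := spec A hA
  generalize hA.eigenvalues = x at h1
  have : A * A = U * (diagonal x * diagonal x) * Uᵀ := by
    rw [h1]
    calc _ = U * diagonal x * (Uᵀ * U) * diagonal x * Uᵀ := by simp only [Matrix.mul_assoc]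
      _ = _ := by rw [h2]; simp only [Matrix.mul_one, Matrix.mul_assoc]
  rw [this, trace_mul_cycle, h2, Matrix.one_mul, diagonal_mul_diagonal, trace_diagonal]
  simp only [sq]

theorem rayleigh (A : Matrix V V ℝ) (hA : A.IsHermitian) (l : ℝ) (hl : ∀ i, hA.eigenvalues i ≤ l)
    (y : V → ℝ) : y ⬝ᵥ A *ᵥ y ≤ l * (y ⬝ᵥ y) := by
  obtain ⟨U, h1, h2, h3⟩ := spec A hA
  generalize hA.eigenvalues = x at h1 hl
  have e1 : y ⬝ᵥ A *ᵥ y = (Uᵀ *ᵥ y) ⬝ᵥ diagonal x *ᵥ (Uᵀ *ᵥ y) := by
    rw [h1, ← mulVec_mulVec, ← mulVec_mulVec, dotProduct_mulVec y U, mulVec_transpose]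
  have e2 : y ⬝ᵥ y = (Uᵀ *ᵥ y) ⬝ᵥ (Uᵀ *ᵥ y) := by
    rw [mulVec_transpose U y, ← dotProduct_mulVec, ← mulVec_transpose, mulVec_mulVec, h3,
      one_mulVec]
  rw [e1, e2]
  simp only [dotProduct, mulVec_diagonal, mul_sum]
  exact sum_le_sum fun i _ => by nlinarith [hl i, mul_self_nonneg ((Uᵀ *ᵥ y) i)]

omit [DecidableEq V] in
theorem low (a : V → V → ℝ) (hs : ∀ i j, a i j = a j i) (h1 : ∀ i j, a i j ≤ 1) (δ x : ℝ)
    (hδ : ∀ i, δ ≤ ∑ j, a i j) (v : V → ℝ) (hv : v ≠ 0) (he : ∀ i, ∑ j, a i j * v j = x * v i) :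
    δ - Fintype.card V ≤ x := by
  have hp : 0 < ∑ i, v i ^ 2 := by
    obtain ⟨i, hi⟩ := Function.ne_iff.1 hv
    exact sum_pos' (fun i _ => sq_nonneg _) ⟨i, mem_univ _, sq_pos_of_ne_zero hi⟩
  have e1 : ∑ i, ∑ j, a i j * (v i * v j) = x * ∑ i, v i ^ 2 := by
    rw [mul_sum]
    refine sum_congr rfl fun i _ => ?_
    rw [sq, ← mul_assoc, ← he i, sum_mul]
    exact sum_congr rfl fun j _ => by ring
  have e2 : ∑ i, ∑ j, v i * v j = (∑ i, v i) ^ 2 := by rw [sq, sum_mul_sum]
  have e3 : ∑ i, ∑ j, (1 - a i j) * v i ^ 2 ≤ (Fintype.card V - δ) * ∑ i, v i ^ 2 := by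
    rw [mul_sum]
    refine sum_le_sum fun i _ => ?_
    rw [← sum_mul, sum_sub_distrib]
    simp only [sum_const, card_univ, nsmul_eq_mul, mul_one]
    exact mul_le_mul_of_nonneg_right (by linarith [hδ i]) (sq_nonneg _)
  have e4 : ∑ i, ∑ j, (1 - a i j) * v j ^ 2 = ∑ i, ∑ j, (1 - a i j) * v i ^ 2 := by
    rw [sum_comm]; simp only [hs]
  have e5 : 0 ≤ ∑ i, ∑ j, ((1 - a i j) * v i ^ 2 + (1 - a i j) * v j ^ 2 - 2 * (v i * v j) +
      2 * (a i j * (v i * v j))) := sum_nonneg fun i _ => sum_nonneg fun j _ => by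
    nlinarith [mul_nonneg (sub_nonneg.2 (h1 i j)) (sq_nonneg (v i - v j))]
  simp only [sum_add_distrib, sum_sub_distrib, ← mul_sum] at e5
  simp only [← mul_sum] at e1 e2
  refine le_of_mul_le_mul_right ?_ hp
  nlinarith [sq_nonneg (∑ i, v i)]

theorem hsf (a : V → V → ℝ) (hs : ∀ i j, a i j = a j i) (h0 : ∀ i j, 0 ≤ a i j)
    (h1 : ∀ i j, a i j ≤ 1) (hd : ∀ i, a i i = 0) (δ x : ℝ)
    (hδ : ∀ i, δ ≤ ∑ j, a i j) (v : V → ℝ) (hv : v ≠ 0) (he : ∀ i, ∑ j, a i j * v j = x * v i) :
    |x| * (|x| - δ + 1) ≤ ∑ i, ∑ j, a i j - (Fintype.card V - 1) * δ := by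
  have hp : 0 < ∑ i, |v i| := by
    obtain ⟨i, hi⟩ := Function.ne_iff.1 hv
    exact sum_pos' (fun i _ => abs_nonneg _) ⟨i, mem_univ _, abs_pos.2 hi⟩
  have hw : ∀ i, |x| * |v i| ≤ ∑ j, a i j * |v j| := fun i => by
    rw [← abs_mul, ← he i]
    exact (abs_sum_le_sum_abs _ _).trans (le_of_eq (sum_congr rfl fun j _ => by
      rw [abs_mul, abs_of_nonneg (h0 i j)]))
  set d : V → ℝ := fun i => ∑ j, a i j with hdd
  have e1 : |x| * ∑ i, |v i| ≤ ∑ i, d i * |v i| := by
    rw [mul_sum]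
    refine (sum_le_sum fun i _ => hw i).trans (le_of_eq ?_)
    rw [sum_comm]
    exact sum_congr rfl fun i _ => by simp only [hdd, sum_mul, hs i]
  have e2 : ∑ i, (d i - δ + 1) * (|x| * |v i|) ≤ ∑ i, (d i - δ + 1) * ∑ j, a i j * |v j| :=
    sum_le_sum fun i _ => mul_le_mul_of_nonneg_left (hw i) (by linarith [hδ i])
  have e3 : ∑ i, (d i - δ + 1) * ∑ j, a i j * |v j| ≤
      (∑ i, d i - (Fintype.card V - 1) * δ) * ∑ j, |v j| := by
    simp only [mul_sum]
    rw [sum_comm]
    refine sum_le_sum fun j _ => ?_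
    simp only [← mul_assoc, ← sum_mul]
    refine mul_le_mul_of_nonneg_right ?_ (abs_nonneg _)
    have : ∑ i, (d i - δ + 1) * a i j ≤
        ∑ i, (d i - δ + a j i - if i = j then d j - δ else 0) := by
      refine sum_le_sum fun i _ => ?_
      split_ifs with h
      · subst h; simp [hd]
      · have := mul_le_mul_of_nonneg_left (h1 i j) (sub_nonneg.2 (hδ i))
        rw [hs j i]; simp only [hdd]; linarith
    simp only [sum_add_distrib, sum_sub_distrib, sum_ite_eq', mem_univ, if_true, sum_const,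
      card_univ, nsmul_eq_mul] at this
    simp only [hdd] at this ⊢
    linarith
  have e4 : ∑ i, (d i - δ + 1) * (|x| * |v i|) =
      |x| * (∑ i, d i * |v i| - (δ - 1) * ∑ i, |v i|) := by
    simp only [mul_sum, ← sum_sub_distrib]
    exact sum_congr rfl fun i _ => by ring
  refine le_of_mul_le_mul_right ?_ hp
  have := mul_le_mul_of_nonneg_left e1 (abs_nonneg x)
  nlinarith

/-- For every finite simple graph whose real adjacency matrix has nonzero determinant, the sum of absolute values of the adjacency eigenvalues is at least the maximum degree plus the minimum degree. -/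
theorem result :
    ∀ (V : Type) [Fintype V] [DecidableEq V] (G : SimpleGraph V) [DecidableRel G.Adj]
      (hA : (G.adjMatrix ℝ).IsHermitian),
      (G.adjMatrix ℝ).det ≠ 0 →
        ((G.maxDegree + G.minDegree : ℕ) : ℝ) ≤ ∑ i, |hA.eigenvalues i| := by
  intro V _ _ G _ hA hdet
  rcases isEmpty_or_nonempty V with hV | hV
  · simp
  by_contra hcon
  push Not at hcon
  set A := G.adjMatrix ℝ with hAd
  set x := hA.eigenvalues with hx
  obtain ⟨i0, -, hi0⟩ := exists_max_image univ (fun i => |x i|) univ_nonempty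
  have hs : ∀ i j, A i j = A j i := fun i j => by simp [hAd, G.adj_comm]
  have h0 : ∀ i j, 0 ≤ A i j := fun i j => by simp only [hAd, G.adjMatrix_apply]; split_ifs <;> simp
  have h1 : ∀ i j, A i j ≤ 1 := fun i j => by simp only [hAd, G.adjMatrix_apply]; split_ifs <;> simp
  have hd : ∀ i, A i i = 0 := fun i => by simp [hAd]
  have hdeg : ∀ i, ∑ j, A i j = G.degree i := fun i => by
    simp [hAd, ← G.card_neighborFinset_eq_degree, G.neighborFinset_eq_filter]
  have hδ : ∀ i, (G.minDegree : ℝ) ≤ ∑ j, A i j := fun i => by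
    rw [hdeg]; exact_mod_cast G.minDegree_le_degree i
  have hev : ∀ k, ∃ v : V → ℝ, v ≠ 0 ∧ ∀ i, ∑ j, A i j * v j = x k * v i := fun k =>
    ⟨_, (WithLp.ofLp_eq_zero 2).ne.2 <| hA.eigenvectorBasis.orthonormal.ne_zero k,
      fun i => congrFun (hA.mulVec_eigenvectorBasis k) i⟩
  have tr1 : ∑ i, x i = 0 := by
    have := hA.trace_eq_sum_eigenvalues
    simp only [RCLike.ofReal_real_eq_id, id] at this
    rw [← this]; simp [trace, hd]
  have tr2 : ∑ i, x i ^ 2 = ∑ i, ∑ j, A i j := by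
    rw [sum_sq A hA]
    simp only [Matrix.trace, Matrix.diag, Matrix.mul_apply]
    refine sum_congr rfl fun i _ => sum_congr rfl fun j _ => ?_
    rw [hs j i]; simp only [hAd, G.adjMatrix_apply]; split_ifs <;> simp
  have hprod : A.det = ∏ i, x i := by simpa using hA.det_eq_prod_eigenvalues
  have hx0 : ∀ i, x i ≠ 0 := fun i h => hdet (hprod ▸ prod_eq_zero (mem_univ i) h)
  have hlog : 0 ≤ ∑ i, Real.log |x i| := by
    rw [← Real.log_prod (fun i _ => abs_ne_zero.2 (hx0 i)), ← abs_prod, ← hprod]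
    refine Real.log_nonneg ?_
    have e : A.det = ((G.adjMatrix ℤ).det : ℝ) := by
      rw [Int.cast_det]; congr 1; ext i j; simp [hAd]
    rw [e] at hdet ⊢
    exact_mod_cast Int.one_le_abs (by exact_mod_cast hdet)
  have hray : ∑ i, ∑ j, A i j ≤ |x i0| * Fintype.card V := by
    simpa [dotProduct, mulVec] using rayleigh A hA |x i0|
      (fun i => (le_abs_self _).trans (hi0 i (mem_univ _))) (fun _ => 1)
  obtain ⟨vM, hM⟩ := G.exists_maximal_degree_vertex
  obtain ⟨vm, hm⟩ := G.exists_minimal_degree_vertex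
  have hT : (Fintype.card V - 1) * (G.minDegree : ℝ) + G.maxDegree ≤ ∑ i, ∑ j, A i j := by
    rw [← add_sum_erase _ _ (mem_univ vM), hdeg, ← hM, add_comm]
    have := card_nsmul_le_sum (univ.erase vM) _ _ fun i _ => hδ i
    rw [card_erase_of_mem (mem_univ _), card_univ, nsmul_eq_mul,
      Nat.cast_pred Fintype.card_pos] at this
    linarith
  have hδ1 : 1 ≤ G.minDegree := by
    by_contra h
    refine hdet (det_eq_zero_of_row_eq_zero vm fun j => ?_)
    have : G.degree vm = 0 := by omega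
    have h2 := hdeg vm
    rw [this, Nat.cast_zero] at h2
    exact (sum_eq_zero_iff_of_nonneg fun j _ => h0 vm j).1 h2 j (mem_univ _)
  have hlt : G.maxDegree < Fintype.card V := hM ▸ G.degree_lt_card_verts vM
  have hle : G.minDegree ≤ G.maxDegree := G.minDegree_le_maxDegree
  obtain ⟨a, ha⟩ : ∃ a, Fintype.card V = G.maxDegree + a + 1 := ⟨_, (Nat.exists_eq_add_of_lt hlt).choose_spec⟩
  obtain ⟨r, hr⟩ : ∃ r, Fintype.card V = G.minDegree + r + 1 :=
    Nat.exists_eq_add_of_lt (lt_of_le_of_lt hle hlt)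
  have hr1 : r ≠ 1 := by
    rintro rfl
    have key : ∀ p q w, p ≠ q → ¬ G.Adj p q → w ≠ p → w ≠ q → G.Adj p w := by
      intro p q w hpq hn hwp hwq
      by_contra hw
      have h2 : G.neighborFinset p ⊆ ({p, q, w} : Finset V)ᶜ := by
        intro z hz
        rw [G.mem_neighborFinset] at hz
        simp only [mem_compl, mem_insert, mem_singleton, not_or]
        exact ⟨hz.ne', fun e => hn (e ▸ hz), fun e => hw (e ▸ hz)⟩
      have h3 := card_le_card h2
      rw [card_compl, card_eq_three.2 ⟨p, q, w, hpq, hwp.symm, hwq.symm, rfl⟩,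
        G.card_neighborFinset_eq_degree] at h3
      have := G.minDegree_le_degree p
      omega
    obtain ⟨u, hu, hn⟩ : ∃ u, vm ≠ u ∧ ¬ G.Adj vm u := by
      by_contra h
      push Not at h
      have h2 : univ.erase vm ⊆ G.neighborFinset vm := fun z hz =>
        (G.mem_neighborFinset _ _).2 (h z (mem_erase.1 hz).1.symm)
      have h3 := card_le_card h2
      rw [card_erase_of_mem (mem_univ _), card_univ, G.card_neighborFinset_eq_degree] at h3
      omega
    refine hdet (det_zero_of_row_eq hu (funext fun w => ?_))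
    have hn' : ¬ G.Adj u vm := fun h => hn h.symm
    by_cases e1 : w = vm
    · simp [hAd, e1, hn']
    by_cases e2 : w = u
    · simp [hAd, e2, hn]
    simp [hAd, key vm u w hu hn e1 e2, key u vm w hu.symm hn' e2 e1]
  have ha' : (Fintype.card V : ℝ) = G.maxDegree + a + 1 := by exact_mod_cast ha
  have hr' : (Fintype.card V : ℝ) = G.minDegree + r + 1 := by exact_mod_cast hr
  have hle' : (G.minDegree : ℝ) ≤ G.maxDegree := by exact_mod_cast hle
  push_cast at hcon
  generalize G.minDegree = δ at *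
  generalize (G.maxDegree : ℝ) = Δ at *
  have hn : (0 : ℝ) < Fintype.card V := by exact_mod_cast Fintype.card_pos
  have hb : (δ : ℝ) ≤ |x i0| := le_of_mul_le_mul_right (by linarith) hn
  have ep : ∀ s : Finset V, ∑ i ∈ s, (|x i| + x i) ≤ ∑ i, |x i| := fun s => by
    have := sum_le_sum_of_subset_of_nonneg (subset_univ s)
      (f := fun i => |x i| + x i) fun i _ _ => by linarith [neg_abs_le (x i)]
    rwa [sum_add_distrib (s := univ), tr1, add_zero] at this
  have em : |x i0| - x i0 ≤ ∑ i, |x i| := by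
    have := single_le_sum (f := fun i => |x i| - x i) (fun i _ => sub_nonneg.2 (le_abs_self _))
      (mem_univ i0)
    rwa [sum_sub_distrib, tr1, sub_zero] at this
  have h2l : 2 * |x i0| ≤ ∑ i, |x i| := by
    have := ep {i0}
    rw [sum_singleton] at this
    cases abs_cases (x i0) <;> linarith
  have hlow : ∀ k, -((r : ℝ) + 1) ≤ x k := fun k => by
    obtain ⟨v, hv, he⟩ := hev k
    have := low A hs h1 δ (x k) hδ v hv he
    linarith
  have hrange : ∀ i ∈ univ.erase i0, |x i| ≤ (r : ℝ) + 1 := by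
    intro i hi
    have e1 := ep {i, i0}
    rw [sum_pair (mem_erase.1 hi).1] at e1
    have e2 := hi0 i (mem_univ _)
    have e3 := hlow i
    have e4 := hlow i0
    have : (0 : ℝ) ≤ a := by positivity
    have : (0 : ℝ) ≤ r := by positivity
    cases abs_cases (x i0) <;> cases abs_cases (x i) <;> linarith
  obtain ⟨v, hv, he⟩ := hev i0
  have hh := hsf A hs h0 h1 hd δ (x i0) hδ v hv he
  have main : ∀ M : ℝ, 0 ≤ M → (∀ i ∈ univ.erase i0, |x i| ≤ M) →
      3 * (∑ i, ∑ j, A i j - |x i0| ^ 2 - (δ + r) + 2 * (a + (|x i0| - δ))) <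
        (4 * M + 2) * (Real.log |x i0| - a - (|x i0| - δ)) := by
    intro M hM0 hM
    have g := sum_le_sum fun i hi => gain (abs_pos.2 (hx0 i)) (hM i hi)
    simp only [sub_sq, ← mul_sum, sum_add_distrib, sum_sub_distrib, sq_abs, mul_one, one_pow,
      sum_const, card_erase_of_mem (mem_univ i0), card_univ, nsmul_eq_mul,
      Nat.cast_pred Fintype.card_pos] at g
    rw [← add_sum_erase _ _ (mem_univ i0)] at hcon hlog tr2
    rw [← tr2, sq_abs]
    nlinarith
  have hra : 2 * (|x i0| - δ) + a < r := by linarith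
  have hr2 : 2 ≤ r := by
    have : (0 : ℝ) ≤ a := by positivity
    have : (0 : ℝ) < r := by linarith
    have : 0 < r := by exact_mod_cast this
    omega
  refine arith δ r a (|x i0| - δ) (∑ i, ∑ j, A i j - |x i0| ^ 2 - (δ + r) +
    2 * (a + (|x i0| - δ))) hδ1 hr2 (by linarith) hra ?_ ?_ ?_ ?_ ?_
  · rw [hr'] at hray hT; nlinarith
  · rw [hr'] at hh; nlinarith
  · rw [hr'] at hT; nlinarith
  · simpa using main |x i0| (abs_nonneg _) fun i _ => hi0 i (mem_univ _)
  · simpa using main (r + 1) (by positivity) hrange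

end Pool.Agent.S07905
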