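import Pool.Statements.S07940
import Pool.Agent.H7.Nest2

set_option autoImplicit false
open Pool Pool.MP_30b0f7_co

namespace Pool.Agent.S07940

open Pool.Agent.H7.Nest2

/-- The negation of the preceding statement: Every finite tolerance graph (intervals, positive tolerances, edge iff overlap length ≥ smaller tolerance) has a bounded NeST representation: neighborhood subtrees of a weighted tree, edge iff the intersection diameter ≥ smaller tolerance, each tolerance ≤ its subtree's diameter. -/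
theorem result :
    ¬ (∀ (n : ℕ) (G : SimpleGraph (Fin n)),
      (∃ (a b t : Fin n → ℝ), (∀ i, a i ≤ b i) ∧ (∀ i, 0 < t i) ∧
        ∀ i j, i ≠ j →
          (G.Adj i j ↔ min (t i) (t j) ≤ min (b i) (b j) - max (a i) (a j))) →
      ∃ (m : ℕ) (T : SimpleGraph (Fin m)) (w : Sym2 (Fin m) → ℝ)
        (d : Fin m → Fin m → ℝ) (c : Fin n → Fin m) (r t : Fin n → ℝ),
        T.IsTree ∧
        (∀ e ∈ T.edgeSet, 0 < w e) ∧
        (∀ (x y : Fin m) (p : T.Walk x y), p.IsPath → d x y = (p.edges.map w).sum) ∧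
        (∀ i, 0 ≤ r i ∧ 0 ≤ t i) ∧
        (∀ i (x y : Fin m), T.Adj x y → d (c i) x < r i → d (c i) y ≤ r i) ∧
        (∀ i, ∃ x y : Fin m, d (c i) x ≤ r i ∧ d (c i) y ≤ r i ∧ t i ≤ d x y) ∧
        ∀ i j, i ≠ j →
          (G.Adj i j ↔ ∃ x y : Fin m,
            d (c i) x ≤ r i ∧ d (c j) x ≤ r j ∧
            d (c i) y ≤ r i ∧ d (c j) y ≤ r j ∧
            min (t i) (t j) ≤ d x y)) := by
  intro H
  obtain ⟨N, hN⟩ := core
  let e := (Fintype.equivFin (Vx N)).symm
  let G : SimpleGraph (Fin (Fintype.card (Vx N))) :=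
    { Adj := fun i j => i ≠ j ∧ min (tl N (e i)) (tl N (e j)) ≤
        min (rb N (e i)) (rb N (e j)) - max (la N (e i)) (la N (e j))
      symm := ⟨fun i j h => ⟨h.1.symm, by
        rw [min_comm, min_comm (rb N (e j)), max_comm]
        exact h.2⟩⟩
      loopless := ⟨fun i h => h.1 rfl⟩ }
  obtain ⟨m, T, w, d, c, r, t, hT, hw, hd, h1, h2, h3, h4⟩ := H _ G
    ⟨fun i => la N (e i), fun i => rb N (e i), fun i => tl N (e i), fun i => (la_lt N _).le,
      fun i => tl_pos N _, fun i j hij => and_iff_right hij⟩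
  have cm := d_comm hT hd
  obtain ⟨o⟩ := hT.connected.nonempty
  have key : ∀ i j, i ≠ j → (G.Adj i j ↔ min (t i) (t j) ≤ r i + r j - d (c i) (c j)) := by
    intro i j hij
    rw [h4 i j hij]
    constructor
    · rintro ⟨x, y, a1, a2, a3, a4, a5⟩
      have := d_four hT hw hd x y (c i) (c j)
      rcases le_max_iff.1 this with k | k <;> linarith
    · intro k
      by_cases k1 : ∀ z, d (c i) z ≤ r i → d (c j) z ≤ r j
      · obtain ⟨x, y, a1, a2, a3⟩ := h3 i
        exact ⟨x, y, a1, k1 x a1, a2, k1 y a2, (min_le_left _ _).trans a3⟩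
      by_cases k2 : ∀ z, d (c j) z ≤ r j → d (c i) z ≤ r i
      · obtain ⟨x, y, a1, a2, a3⟩ := h3 j
        exact ⟨x, y, k2 x a1, a1, k2 y a2, a2, (min_le_right _ _).trans a3⟩
      push Not at k1 k2
      obtain ⟨z0, a0, b0⟩ := k1
      obtain ⟨z1, a1, b1⟩ := k2
      have := le_min (h1 i).2 (h1 j).2
      obtain ⟨u, v, q1, q2, q3, q4, q5⟩ := overlap hT hw hd (c i) (c j) (r i) (r j) (by linarith)
        (h2 i) (h2 j) z0 z1 a0 b0 b1 a1
      exact ⟨u, v, q1, q2, q3, q4, k.trans q5⟩
  refine hN (fun x y => d (c (e.symm x)) (c (e.symm y))) (fun x => d o (c (e.symm x)))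
    (fun x => r (e.symm x)) (fun x => t (e.symm x)) (fun x y => cm _ _) (fun x y z => ?_)
    (fun x y hxy => ?_)
  · have := d_four hT hw hd (c (e.symm x)) (c (e.symm z)) (c (e.symm y)) o
    rw [cm (c (e.symm y)) o, cm (c (e.symm y)) (c (e.symm x)), add_comm (d o (c (e.symm x)))]
      at this
    exact this
  · have hne : e.symm x ≠ e.symm y := e.symm.injective.ne hxy
    rw [← key _ _ hne]
    simp only [G, Equiv.apply_symm_apply]
    exact (and_iff_right hne).symm

end Pool.Agent.S07940
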