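import Pool.Statements.S07947

set_option autoImplicit false
open Classical
open Pool Pool.MP_31464c_co

namespace Pool.Agent.S07947

open SimpleGraph

lemma start_le_one {V : Type} {G : SimpleGraph V} {u w a b : V} (p : G.Walk u w) (hp : p.IsPath)
    (ha : s(u, a) ∈ p.edges) (hb : s(u, b) ∈ p.edges) : a = b := by
  cases p with
  | nil => simp at ha
  | @cons _ x _ h q =>
    rw [Walk.cons_isPath_iff] at hp
    simp only [Walk.edges_cons, List.mem_cons] at ha hb
    have key : ∀ c, (s(u, c) = s(u, x) ∨ s(u, c) ∈ q.edges) → c = x := by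
      intro c hc
      rcases hc with hc | hc
      · rcases Sym2.eq_iff.mp hc with h1 | h1
        · exact h1.2
        · exact absurd h1.1 h.ne
      · exact absurd (q.fst_mem_support_of_mem_edges hc) hp.2
    rw [key a ha, key b hb]

lemma le_two {V : Type} {G : SimpleGraph V} {u w : V} (p : G.Walk u w) (hp : p.IsPath)
    {v a b c : V} (ha : s(v, a) ∈ p.edges) (hb : s(v, b) ∈ p.edges) (hc : s(v, c) ∈ p.edges)
    (hab : a ≠ b) (hac : a ≠ c) (hbc : b ≠ c) : False := by
  induction p with
  | nil => simp at ha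
  | @cons u x w h q ih =>
    by_cases hv : v = u
    · subst hv
      exact hab (start_le_one _ hp ha hb)
    · rw [Walk.cons_isPath_iff] at hp
      simp only [Walk.edges_cons, List.mem_cons] at ha hb hc
      have key : ∀ d, s(v, d) = s(u, x) → v = x ∧ d = u := by
        intro d hd
        rcases Sym2.eq_iff.mp hd with h1 | h1
        · exact absurd h1.1 hv
        · exact h1
      rcases ha with ha | ha <;> rcases hb with hb | hb <;> rcases hc with hc | hc
      · exact hab ((key a ha).2.trans (key b hb).2.symm)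
      · exact hab ((key a ha).2.trans (key b hb).2.symm)
      · exact hac ((key a ha).2.trans (key c hc).2.symm)
      · obtain ⟨rfl, -⟩ := key a ha
        exact hbc (start_le_one q hp.1 hb hc)
      · exact hbc ((key b hb).2.trans (key c hc).2.symm)
      · obtain ⟨rfl, -⟩ := key b hb
        exact hac (start_le_one q hp.1 ha hc)
      · obtain ⟨rfl, -⟩ := key c hc
        exact hab (start_le_one q hp.1 ha hb)
      · exact ih hp.1 ha hb hc

lemma same_side {V : Type} {G : SimpleGraph V} (A : V → Prop) {u w : V} (p : G.Walk u w)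
    (h : ∀ x y, s(x, y) ∈ p.edges → A x → A y) : ∀ x ∈ p.support, (A x ↔ A u) := by
  induction p with
  | nil => intro x hx; simp at hx; rw [hx]
  | @cons u x w hadj q ih =>
    intro y hy
    simp only [Walk.support_cons, List.mem_cons] at hy
    rcases hy with rfl | hy
    · rfl
    · rw [ih (fun a b hab => h a b (by simp [hab])) y hy]
      exact ⟨h x u (by simp [Sym2.eq_swap]), h u x (by simp)⟩

/-- disjoint union of K4 and K3 -/
def G7 : SimpleGraph (Fin 7) where
  Adj x y := x ≠ y ∧ (x.val < 4 ↔ y.val < 4)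
  symm := ⟨fun _ _ h => ⟨h.1.symm, h.2.symm⟩⟩
  loopless := ⟨fun _ h => h.1 rfl⟩

instance : DecidableRel G7.Adj := fun x y =>
  inferInstanceAs (Decidable (x ≠ y ∧ (x.val < 4 ↔ y.val < 4)))

lemma deg7 (x : Fin 7) : G7.degree x = if x.val < 4 then 3 else 2 := by
  revert x; decide

lemma two (P Q : Sym2 (Fin 7) → Prop)
    (hP : ∀ v a b c : Fin 7, P s(v, a) → P s(v, b) → P s(v, c) → a ≠ b → a ≠ c → b ≠ c → False)
    (hQ : ∀ v a b c : Fin 7, Q s(v, a) → Q s(v, b) → Q s(v, c) → a ≠ b → a ≠ c → b ≠ c → False)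
    (h : ∀ x y : Fin 7, (P s(x, y) ↔ ¬ Q s(x, y)) ↔ G7.Adj x y) (x y : Fin 7)
    (hx : x.val < 4) (hy : ¬ y.val < 4) : ¬ P s(x, y) := by
  intro hp
  have hq : Q s(x, y) := by
    by_contra hq
    have := (h x y).mp ⟨fun _ => hq, fun _ => hp⟩
    exact hy (this.2.mp hx)
  have ex : ∃ a b c : Fin 7, G7.Adj x a ∧ G7.Adj x b ∧ G7.Adj x c ∧ a ≠ b ∧ a ≠ c ∧ b ≠ c := by
    have : ∀ x : Fin 7, x.val < 4 →
        ∃ a b c : Fin 7, G7.Adj x a ∧ G7.Adj x b ∧ G7.Adj x c ∧ a ≠ b ∧ a ≠ c ∧ b ≠ c := by
      decide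
    exact this x hx
  obtain ⟨a, b, c, ha, hb, hc, hab, hac, hbc⟩ := ex
  have ny : ∀ d, G7.Adj x d → d ≠ y := by
    rintro d hd rfl
    exact hy (hd.2.mp hx)
  have h1 := (h x a).mpr ha
  have h2 := (h x b).mpr hb
  have h3 := (h x c).mpr hc
  by_cases q1 : Q s(x, a) <;> by_cases q2 : Q s(x, b) <;> by_cases q3 : Q s(x, c)
  · exact hQ x a b y q1 q2 hq hab (ny a ha) (ny b hb)
  · exact hQ x a b y q1 q2 hq hab (ny a ha) (ny b hb)
  · exact hQ x a c y q1 q3 hq hac (ny a ha) (ny c hc)
  · exact hP x b c y (h2.mpr q2) (h3.mpr q3) hp hbc (ny b hb) (ny c hc)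
  · exact hQ x b c y q2 q3 hq hbc (ny b hb) (ny c hc)
  · exact hP x a c y (h1.mpr q1) (h3.mpr q3) hp hac (ny a ha) (ny c hc)
  · exact hP x a b y (h1.mpr q1) (h2.mpr q2) hp hab (ny a ha) (ny b hb)
  · exact hP x a b y (h1.mpr q1) (h2.mpr q2) hp hab (ny a ha) (ny b hb)

lemma no45 {u w : Fin 7} (p : (⊤ : SimpleGraph (Fin 7)).Walk u w)
    (h : ∀ x y : Fin 7, x.val < 4 → ¬ y.val < 4 → s(x, y) ∉ p.edges)
    (a : Fin 7) (h0 : s(0, a) ∈ p.edges) : s(4, 5) ∉ p.edges := by
  intro h45
  have key := same_side (fun x : Fin 7 => x.val < 4) p (by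
    intro x y hxy hx
    by_contra hy
    exact h x y hx hy hxy)
  have k0 := key 0 (p.fst_mem_support_of_mem_edges h0)
  have k4 := key 4 (p.fst_mem_support_of_mem_edges h45)
  have : ((0 : Fin 7).val < 4 ↔ (4 : Fin 7).val < 4) := k0.trans k4.symm
  revert this; decide

/-- There is a finite simple graph G such that no family of k paths in the complete graph on its vertices, with k at most max(number of odd-degree vertices / 2, ceil((max degree + 1)/2)), has symmetric difference of edge sets equal to E(G). -/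
theorem result :
    ∃ (n : ℕ) (G : SimpleGraph (Fin n)),
      ∀ k : ℕ,
        k ≤ max ((Finset.univ.filter (fun x : Fin n => Odd (G.degree x))).card / 2)
                ((G.maxDegree + 2) / 2) →
        ¬ ∃ (u w : Fin k → Fin n)
            (P : ∀ i : Fin k, (⊤ : SimpleGraph (Fin n)).Walk (u i) (w i)),
            (∀ i, (P i).IsPath) ∧
            ∀ e : Sym2 (Fin n),
              (Odd ((Finset.univ.filter (fun i : Fin k => e ∈ (P i).edges)).card)
                ↔ e ∈ G.edgeSet) := by
  refine ⟨7, G7, fun k hk => ?_⟩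
  have hd : ∀ (x : Fin 7) (inst : Fintype (G7.neighborSet x)),
      @SimpleGraph.degree _ G7 x inst = if x.val < 4 then 3 else 2 := by
    intro x inst
    convert deg7 x
  have hk2 : k ≤ 2 := by
    refine hk.trans (max_le ?_ ?_)
    · simp only [hd]
      decide
    · have : @SimpleGraph.maxDegree _ G7 _ (fun a b => propDecidable (G7.Adj a b)) ≤ 3 := by
        apply @maxDegree_le_of_forall_degree_le _ G7 _ (fun a b => propDecidable (G7.Adj a b))
        intro v
        rw [hd]
        split_ifs <;> omega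
      omega
  rintro ⟨u, w, P, hP, h⟩
  obtain rfl | rfl | rfl : k = 0 ∨ k = 1 ∨ k = 2 := by omega
  · have := (h s(0, 1)).mpr (by decide)
    simp at this
  · have key : ∀ e, e ∈ G7.edgeSet → e ∈ (P 0).edges := by
      intro e he
      have := (h e).mpr he
      by_contra hc
      rw [Finset.card_filter, Fin.sum_univ_one] at this
      simp [hc] at this
    exact le_two (P 0) (hP 0) (key s(0, 1) (by decide)) (key s(0, 2) (by decide))
      (key s(0, 3) (by decide)) (by decide) (by decide) (by decide)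
  · have key : ∀ x y : Fin 7, (s(x, y) ∈ (P 0).edges ↔ ¬ s(x, y) ∈ (P 1).edges) ↔ G7.Adj x y := by
      intro x y
      rw [← mem_edgeSet, ← h, Finset.card_filter, Fin.sum_univ_two]
      by_cases h0 : s(x, y) ∈ (P 0).edges <;> by_cases h1 : s(x, y) ∈ (P 1).edges <;>
        simp [h0, h1]
    have key' : ∀ x y : Fin 7, (s(x, y) ∈ (P 1).edges ↔ ¬ s(x, y) ∈ (P 0).edges) ↔ G7.Adj x y := by
      intro x y
      rw [← key]; tauto
    have l0 := fun v a b c => @le_two _ _ _ _ (P 0) (hP 0) v a b c
    have l1 := fun v a b c => @le_two _ _ _ _ (P 1) (hP 1) v a b c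
    have t0 := two (fun e => e ∈ (P 0).edges) (fun e => e ∈ (P 1).edges) l0 l1 key
    have t1 := two (fun e => e ∈ (P 1).edges) (fun e => e ∈ (P 0).edges) l1 l0 key'
    have e1 := (key 0 1).mpr (by decide)
    have e2 := (key 0 2).mpr (by decide)
    have e3 := (key 0 3).mpr (by decide)
    have e4 := (key 4 5).mpr (by decide)
    have n0 : ∃ a, s(0, a) ∈ (P 0).edges := by
      by_contra hc
      push Not at hc
      refine l1 0 1 2 3 ?_ ?_ ?_ (by decide) (by decide) (by decide)
      · by_contra h'; exact hc _ (e1.mpr h')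
      · by_contra h'; exact hc _ (e2.mpr h')
      · by_contra h'; exact hc _ (e3.mpr h')
    have n1 : ∃ a, s(0, a) ∈ (P 1).edges := by
      by_contra hc
      push Not at hc
      exact l0 0 1 2 3 (e1.mpr (hc _)) (e2.mpr (hc _)) (e3.mpr (hc _))
        (by decide) (by decide) (by decide)
    obtain ⟨a, ha⟩ := n0
    obtain ⟨b, hb⟩ := n1
    exact no45 (P 0) t0 a ha (e4.mpr (no45 (P 1) t1 b hb))

end Pool.Agent.S07947
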