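import Pool.Statements.S07958
import Pool.Agent.H23.PCube

set_option autoImplicit false
open Pool Pool.MP_31b721_co

namespace Pool.Agent.S07958

/-- The negation of the preceding statement: Every finite graph with an edge that embeds isometrically into a hypercube has a proper edge-coloring using exactly colors 1..t for some t ≥ 1, with each vertex's incident edge colors forming a consecutive integer interval. -/
theorem result :
    ¬ (∀ (V : Type) [Fintype V] (G : SimpleGraph V),
      (∃ u v : V, G.Adj u v) →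
      (∃ (n : ℕ) (f : V → (Fin n → Bool)),
          Function.Injective f ∧ ∀ u v : V, hammingDist (f u) (f v) = G.dist u v) →
      ∃ (t : ℕ) (c : Sym2 V → ℕ),
        1 ≤ t ∧
        (∀ u v : V, G.Adj u v → 1 ≤ c s(u, v) ∧ c s(u, v) ≤ t) ∧
        (∀ k : ℕ, 1 ≤ k → k ≤ t → ∃ u v : V, G.Adj u v ∧ c s(u, v) = k) ∧
        (∀ u v w : V, G.Adj u v → G.Adj u w → v ≠ w → c s(u, v) ≠ c s(u, w)) ∧
        (∀ (u v w : V) (k : ℕ), G.Adj u v → G.Adj u w →
            c s(u, v) ≤ k → k ≤ c s(u, w) → ∃ x : V, G.Adj u x ∧ c s(u, x) = k)) := by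
  intro h
  obtain ⟨t, c, -, -, -, h1, h2⟩ := h _ H23.PCube.G ⟨_, _, (H23.PCube.facts 0).1⟩
    ⟨21, H23.PCube.f, H23.PCube.f_inj, H23.PCube.dist_eq⟩
  exact H23.PCube.not_col c h1 h2

end Pool.Agent.S07958
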