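import Pool.Statements.S07966
import Pool.Agent.H22.TruncPet

set_option autoImplicit false
open Pool Pool.MP_31d2fb_co

namespace Pool.Agent.S07966

/-- The negation of the preceding statement: For every finite loopless cubic multigraph with a nowhere-zero Z2^3 flow using at most 5 distinct vertex lines, every 2-factor C0 extends by a second 2-factor C1 and an even subgraph C2 so that C0, C1, C2 together cover all edges. -/
theorem result :
    ¬ (∀ (n m : ℕ) (s t : Fin m → Fin n), (∀ e, s e ≠ t e) →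
      (∀ v : Fin n, (Finset.univ.filter (fun e : Fin m => s e = v ∨ t e = v)).card = 3) →
      (∃ f : Fin m → (Fin 3 → ZMod 2), (∀ e, f e ≠ 0) ∧
        (∀ v : Fin n, ∑ e ∈ Finset.univ.filter (fun e : Fin m => s e = v ∨ t e = v), f e = 0) ∧
        ((Finset.univ : Finset (Fin n)).image
          (fun v : Fin n => (Finset.univ.filter (fun e : Fin m => s e = v ∨ t e = v)).image f)).card ≤ 5) →
      ∀ C0 : Finset (Fin m),
        (∀ v : Fin n, (C0.filter (fun e : Fin m => s e = v ∨ t e = v)).card = 2) →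
        ∃ C1 C2 : Finset (Fin m),
          (∀ v : Fin n, (C1.filter (fun e : Fin m => s e = v ∨ t e = v)).card = 2) ∧
          (∀ v : Fin n, Even (C2.filter (fun e : Fin m => s e = v ∨ t e = v)).card) ∧
          C0 ∪ C1 ∪ C2 = Finset.univ) := by
  intro h
  obtain ⟨C1, C2, h1, h2, h3⟩ := h 30 45 Pool.Agent.H22.TruncPet.s Pool.Agent.H22.TruncPet.t
    Pool.Agent.H22.TruncPet.loopless Pool.Agent.H22.TruncPet.cubic
    ⟨Pool.Agent.H22.TruncPet.fl, Pool.Agent.H22.TruncPet.f1, Pool.Agent.H22.TruncPet.f2,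
      Pool.Agent.H22.TruncPet.f3⟩ Pool.Agent.H22.TruncPet.C0 Pool.Agent.H22.TruncPet.c0
  exact Pool.Agent.H22.TruncPet.main C1 C2 h1 h2 h3

end Pool.Agent.S07966
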