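import Pool.Statements.S08001
import Pool.Agent.H5.Zim4

set_option autoImplicit false
open Pool Pool.MP_32f4b2_co

namespace Pool.Agent.S08001

/-- For every pattern p with n distinct variables: some infinite word over a finite alphabet has no factor that is an abelian instance of p if and only if the Zimin word Z_n has no factor that is an abelian instance of p. -/
theorem result :
    ∀ p : List ℕ,
      (∃ k : ℕ, ∃ x : ℕ → Fin k, ∀ i m : ℕ,
        ¬ ∃ f : Fin p.length → List (Fin k),
            (∀ t, f t ≠ []) ∧
            (List.ofFn f).flatten = (List.range m).map (fun t => x (i + t)) ∧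
            ∀ a b : Fin p.length, p.get a = p.get b → (f a).Perm (f b))
      ↔
      ¬ ∃ w : List ℕ,
          w <:+: (Nat.rec (motive := fun _ => List ℕ) []
                    (fun j z => z ++ [j + 1] ++ z) p.toFinset.card) ∧
          ∃ f : Fin p.length → List ℕ,
            (∀ t, f t ≠ []) ∧
            (List.ofFn f).flatten = w ∧
            ∀ a b : Fin p.length, p.get a = p.get b → (f a).Perm (f b) := by
  intro p
  classical
  change _ ↔ ¬ ∃ w : List ℕ, w <:+: H5.Zim4.Z p.toFinset.card ∧ _
  constructor
  · rintro ⟨k, x, hx⟩ ⟨w, hw, f, hne, hfl, hperm⟩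
    letI : Inhabited (Fin k) := ⟨x 0⟩
    obtain ⟨M, hM⟩ := H5.Zim4.unav (Fin k) p.toFinset.card
    obtain ⟨h, hh, hin⟩ := hM x 0
    have h1 : w.flatMap h <:+: (H5.Zim4.Z p.toFinset.card).flatMap h := by
      obtain ⟨s, t, hst⟩ := hw
      exact ⟨s.flatMap h, t.flatMap h, by rw [← hst]; simp⟩
    obtain ⟨i, m, e⟩ := H5.Zim4.infix_range x M _ (h1.trans hin)
    refine hx i m ⟨fun t => (f t).flatMap h, ?_, ?_, ?_⟩
    · intro t
      obtain ⟨a, l, hl⟩ := List.exists_cons_of_ne_nil (hne t)
      simp [hl, hh a]
    · rw [← e, ← hfl]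
      have : ∀ Ls : List (List ℕ), (Ls.map (fun l => l.flatMap h)).flatten = Ls.flatten.flatMap h := by
        intro Ls
        induction Ls with
        | nil => simp
        | cons A Ls ih => simp [ih]
      rw [← this, List.map_ofFn]
      rfl
    · intro a b hab
      exact (hperm a b hab).flatMap_right h
  · intro hZ
    obtain ⟨q, hq, hp⟩ := Nat.exists_infinite_primes (3 * p.length + 8)
    haveI : Fact q.Prime := ⟨hp⟩
    set e := Fintype.equivFin (ZMod q × ZMod q)
    refine ⟨_, fun t => e (H5.Zim1.W q t), ?_⟩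
    rintro i m ⟨f, hne, hfl, hperm⟩
    apply hZ
    have hfl' : (List.ofFn f).flatten = (List.range' i m).map (fun t => e (H5.Zim1.W q t)) := by
      rw [hfl, List.range'_eq_map_range, List.map_map]; rfl
    obtain ⟨c, -, cb, hc⟩ := H5.Zim4.cuts_of_flat _ _ i m hfl'
    have hc' : ∀ j (hj : j < p.length), c (j + 1) = c j + (f ⟨j, hj⟩).length ∧
        f ⟨j, hj⟩ = (List.range' (c j) (f ⟨j, hj⟩).length).map (fun t => e (H5.Zim1.W q t)) := by
      intro j hj
      have := hc j (by simpa using hj)
      rw [List.getElem_ofFn] at this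
      exact this
    have hlt : ∀ j < p.length, c j < c (j + 1) := by
      intro j hj
      have := List.length_pos_iff.2 (hne ⟨j, hj⟩)
      have := (hc' j hj).1
      omega
    have hpf : ∀ j (hj : j < p.length), p.getD j 0 = p.get ⟨j, hj⟩ := by
      intro j hj; simp [hj]
    obtain ⟨N, d, I⟩ := H5.Zim3.main q (fun j => p.getD j 0) p.length hq (i + m) c
      (fun j _ => cb j) (fun j hj => (hlt j hj).le) (by
        intro j hj j' hj' hpp g
        have hs : ∀ j (hj : j < p.length), H5.Zim1.S (H5.Zim1.W q) g (c (j + 1)) -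
            H5.Zim1.S (H5.Zim1.W q) g (c j) = ((f ⟨j, hj⟩).map (fun s => g (e.symm s))).sum := by
          intro j hj
          rw [(hc' j hj).2, H5.Zim4.sum_range', ← (hc' j hj).1]
          simp [H5.Zim1.S]
        rw [hs j hj, hs j' hj']
        apply List.Perm.sum_eq
        apply List.Perm.map
        apply hperm
        rw [← hpf, ← hpf]; exact hpp)
    have hN : N ≤ p.toFinset.card := by
      refine I.card.trans ((H5.Zim3.NE_le _ _ _).trans (Finset.card_le_card ?_))
      intro x hx
      obtain ⟨j, hj, rfl⟩ := Finset.mem_image.1 hx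
      rw [hpf j (Finset.mem_range.1 hj)]
      exact List.mem_toFinset.2 (List.get_mem _ _)
    obtain ⟨h0, hf⟩ := H5.Zim4.flat_cuts H5.Zim3.zl p.length d I.mono
    refine ⟨_, ?_, _, ?_, hf, ?_⟩
    · rw [H5.Zim4.Z_eq]
      apply List.IsInfix.map
      have b := I.bd p.length
      have b2 : 2 ^ N ≤ 2 ^ p.toFinset.card := Nat.pow_le_pow_right (by norm_num) hN
      refine ⟨List.range' 0 (d 0), List.range' (d p.length) (2 ^ p.toFinset.card - 1 - d p.length), ?_⟩
      rw [List.range_eq_range', show 2 ^ p.toFinset.card - 1 = d 0 + (d p.length - d 0) +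
        (2 ^ p.toFinset.card - 1 - d p.length) by omega, ← List.range'_append_1,
        ← List.range'_append_1]
      simp only [zero_add, Nat.add_sub_cancel' h0, Nat.add_sub_cancel_left]
    · intro t
      have := I.lo t t.2 (hlt t t.2)
      simp; omega
    · intro a b hab
      rw [List.perm_iff_count]
      intro x
      have := I.con a a.2 b b.2 (by rw [hpf _ a.2, hpf _ b.2]; exact hab)
        (fun y => if y = x then 1 else 0)
      have ma := I.mono a a.2
      have mb := I.mono b b.2
      zify
      rw [H5.Zim4.count_sum, H5.Zim4.count_sum, H5.Zim4.sum_range', H5.Zim4.sum_range',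
        Nat.add_sub_cancel' ma, Nat.add_sub_cancel' mb]
      exact this

end Pool.Agent.S08001
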