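import Pool.Statements.S08046

set_option autoImplicit false
open Classical
open Pool Pool.MP_34e2ea_co

namespace Pool.Agent.S08046

abbrev E := EuclideanSpace ℝ (Fin 4)

noncomputable def pa (s : ℝ) : E := WithLp.toLp 2 ![s, Real.sqrt (1 - s ^ 2), 0, 0]

noncomputable def pb (s : ℝ) : E := WithLp.toLp 2 ![0, 0, s, Real.sqrt (1 - s ^ 2)]

lemma norm_pa (s : ℝ) (h0 : 0 ≤ s) (h1 : s ≤ 1) : ‖pa s‖ = 1 := by
  have : 0 ≤ 1 - s ^ 2 := by nlinarith
  rw [EuclideanSpace.norm_eq]
  simp [pa, Fin.sum_univ_four, Real.sq_sqrt this]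

lemma norm_pb (s : ℝ) (h0 : 0 ≤ s) (h1 : s ≤ 1) : ‖pb s‖ = 1 := by
  have : 0 ≤ 1 - s ^ 2 := by nlinarith
  rw [EuclideanSpace.norm_eq]
  simp [pb, Fin.sum_univ_four, Real.sq_sqrt this]

lemma dist_ab (s t : ℝ) (h0 : 0 ≤ s) (h1 : s ≤ 1) (h2 : 0 ≤ t) (h3 : t ≤ 1) :
    dist (pa s) (pb t) = Real.sqrt 2 := by
  have a : 0 ≤ 1 - s ^ 2 := by nlinarith
  have b : 0 ≤ 1 - t ^ 2 := by nlinarith
  rw [EuclideanSpace.dist_eq]
  congr 1
  simp [pa, pb, Fin.sum_univ_four, Real.sq_sqrt a, Real.sq_sqrt b, Real.dist_eq]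
  ring

lemma dist_bb (s t : ℝ) : |s - t| ≤ dist (pb s) (pb t) := by
  have := PiLp.dist_apply_le (pb s) (pb t) (2 : Fin 4)
  simpa [pb, Real.dist_eq] using this

lemma dist_aa (s t δ : ℝ) (hδ : δ ≤ 1) (h0 : 0 ≤ s) (h1 : s ≤ δ / 2) (h2 : 0 ≤ t)
    (h3 : t ≤ δ / 2) : dist (pa s) (pa t) ≤ δ := by
  have hd : 0 ≤ δ := by linarith
  have k : ∀ u : ℝ, 0 ≤ u → u ≤ δ / 2 →
      1 - δ / 2 ≤ Real.sqrt (1 - u ^ 2) ∧ Real.sqrt (1 - u ^ 2) ≤ 1 := by
    intro u u0 u1
    constructor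
    · apply Real.le_sqrt_of_sq_le; nlinarith
    · rw [Real.sqrt_le_left zero_le_one]; nlinarith
  obtain ⟨a1, a2⟩ := k s h0 h1
  obtain ⟨b1, b2⟩ := k t h2 h3
  rw [EuclideanSpace.dist_eq, Real.sqrt_le_left hd]
  simp only [pa, Fin.sum_univ_four, Real.dist_eq, sq_abs]
  simp
  have c1 : (s - t) ^ 2 ≤ (δ / 2) ^ 2 := sq_le_sq' (by linarith) (by linarith)
  have c2 : (Real.sqrt (1 - s ^ 2) - Real.sqrt (1 - t ^ 2)) ^ 2 ≤ (δ / 2) ^ 2 :=
    sq_le_sq' (by linarith) (by linarith)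
  nlinarith

lemma borsuk (K : Set E) (hK : IsCompact K) (hd : Metric.diam K = 1) :
    ∃ f : E → Fin (Fintype.card (Fin 4 → ZMod 4)),
      ∀ i, Metric.diam (K ∩ f ⁻¹' {i}) < 1 := by
  refine ⟨fun x => Fintype.equivFin _ (fun c => ((⌊3 * x c⌋ : ℤ) : ZMod 4)), fun i => ?_⟩
  refine lt_of_le_of_lt (Metric.diam_le_of_forall_dist_le (C := 2 / 3) (by norm_num) ?_)
    (by norm_num)
  rintro x ⟨hx, hxi⟩ y ⟨hy, hyi⟩
  have hxy : (fun c => ((⌊3 * x c⌋ : ℤ) : ZMod 4)) = fun c => ((⌊3 * y c⌋ : ℤ) : ZMod 4) := by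
    apply (Fintype.equivFin _).injective
    exact hxi.trans hyi.symm
  have h1 : dist x y ≤ 1 := hd ▸ Metric.dist_le_diam_of_mem hK.isBounded hx hy
  have h2 : ∀ c, (x c - y c) ^ 2 ≤ 1 / 9 := by
    intro c
    have h3 : |x c - y c| ≤ 1 := by
      have := PiLp.dist_apply_le x y c
      rw [Real.dist_eq] at this; linarith
    have h4 := congrFun hxy c
    simp only at h4
    rw [ZMod.intCast_eq_intCast_iff'] at h4
    obtain ⟨h5, h6⟩ := abs_le.1 h3
    have a1 := Int.floor_le (3 * x c)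
    have a2 := Int.lt_floor_add_one (3 * x c)
    have b1 := Int.floor_le (3 * y c)
    have b2 := Int.lt_floor_add_one (3 * y c)
    have c1 : ⌊3 * x c⌋ < ⌊3 * y c⌋ + 4 := by
      have : (⌊3 * x c⌋ : ℝ) < ⌊3 * y c⌋ + 4 := by linarith
      exact_mod_cast this
    have c2 : ⌊3 * y c⌋ < ⌊3 * x c⌋ + 4 := by
      have : (⌊3 * y c⌋ : ℝ) < ⌊3 * x c⌋ + 4 := by linarith
      exact_mod_cast this
    have c3 : ⌊3 * x c⌋ = ⌊3 * y c⌋ := by
      push_cast at h4; omega
    rw [c3] at a1 a2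
    nlinarith
  rw [EuclideanSpace.dist_eq, Real.sqrt_le_left (by norm_num)]
  simp only [Fin.sum_univ_four, Real.dist_eq, sq_abs]
  have := h2 0; have := h2 1; have := h2 2; have := h2 3
  linarith

/-- Counterexample in dimension four: many points on a short arc of one unit circle and a fixed
number of points on an orthogonal unit circle. -/
theorem result :
    ¬ (∀ d k : ℕ, ∃ N : ℕ, ∀ S : Finset (EuclideanSpace ℝ (Fin d)),
      N ≤ S.card →
      (∀ x ∈ S, x ∉ convexHull ℝ ((↑S : Set (EuclideanSpace ℝ (Fin d))) \ {x})) →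
      ∀ m : ℕ,
        (∀ K : Set (EuclideanSpace ℝ (Fin d)), IsCompact K → Metric.diam K = 1 →
          ∃ f : EuclideanSpace ℝ (Fin d) → Fin m,
            ∀ i : Fin m, Metric.diam (K ∩ f ⁻¹' {i}) < 1) →
        (SimpleGraph.fromRel (fun x y : S =>
          ((S.offDiag.image (fun p => dist p.1 p.2)).filter
            (fun r => dist (x : EuclideanSpace ℝ (Fin d)) (y : EuclideanSpace ℝ (Fin d)) < r)).card
              < k)).Colorable m) := by
  intro H
  obtain ⟨m, hbor⟩ : ∃ m : ℕ, ∀ K : Set E, IsCompact K → Metric.diam K = 1 →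
      ∃ f : E → Fin m, ∀ i, Metric.diam (K ∩ f ⁻¹' {i}) < 1 := ⟨_, borsuk⟩
  obtain ⟨N, hN⟩ := H 4 ((m + 1) * (m + 1) + 2)
  set δ : ℝ := 1 / (m + 1) with hδ
  have hm1 : (0 : ℝ) < m + 1 := by positivity
  have hδ0 : 0 < δ := by positivity
  have hδ1 : δ ≤ 1 := by rw [hδ, div_le_one hm1]; linarith [(Nat.cast_nonneg m : (0 : ℝ) ≤ m)]
  let tb : Fin (m + 1) → E := fun i => pb (i * δ)
  let ta : Fin N → E := fun j => pa (j * (δ / 2 / (N + 1)))
  have hb0 : ∀ i : Fin (m + 1), 0 ≤ (i : ℝ) * δ ∧ (i : ℝ) * δ ≤ 1 := by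
    intro i
    refine ⟨by positivity, ?_⟩
    have : (i : ℝ) ≤ m + 1 := by exact_mod_cast i.2.le
    rw [hδ, mul_one_div, div_le_one hm1]; exact this
  have ha0 : ∀ j : Fin N, 0 ≤ (j : ℝ) * (δ / 2 / (N + 1)) ∧ (j : ℝ) * (δ / 2 / (N + 1)) ≤ δ / 2 := by
    intro j
    refine ⟨by positivity, ?_⟩
    have : (j : ℝ) ≤ N + 1 := by exact_mod_cast (j.2.le.trans (Nat.le_succ N))
    have h2 : (0 : ℝ) < N + 1 := by positivity
    calc (j : ℝ) * (δ / 2 / (N + 1)) ≤ (N + 1) * (δ / 2 / (N + 1)) := by gcongr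
      _ = δ / 2 := by field_simp
  have hbb : ∀ i j, i ≠ j → δ ≤ dist (tb i) (tb j) := by
    intro i j hij
    refine le_trans ?_ (dist_bb _ _)
    rw [← sub_mul, abs_mul, abs_of_pos hδ0]
    have : (1 : ℝ) ≤ |(i : ℝ) - j| := by
      have h : (i : ℤ) - j ≠ 0 := by
        intro h; apply hij; ext; omega
      have := Int.one_le_abs h
      exact_mod_cast this
    nlinarith
  have iA : Function.Injective ta := by
    intro i j h
    have := congrArg (fun v : E => v 0) h
    simp [ta, pa] at this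
    rcases this with h | h | h
    · exact Fin.ext h
    · exact absurd h hδ0.ne'
    · exact absurd h (by positivity)
  let S : Finset E := Finset.univ.image ta ∪ Finset.univ.image tb
  have hS1 : ∀ x ∈ S, ‖x‖ = 1 := by
    intro x hx
    rcases Finset.mem_union.1 hx with h | h
    · obtain ⟨j, -, rfl⟩ := Finset.mem_image.1 h
      exact norm_pa _ (ha0 j).1 (by linarith [(ha0 j).2])
    · obtain ⟨j, -, rfl⟩ := Finset.mem_image.1 h
      exact norm_pb _ (hb0 j).1 (hb0 j).2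
  have hcol := hN S (by
      calc N = (Finset.univ.image ta).card := by rw [Finset.card_image_of_injective _ iA]; simp
        _ ≤ S.card := Finset.card_le_card Finset.subset_union_left)
    (by
      intro x hx hh
      have hc : Convex ℝ {y : E | inner ℝ x y < 1} :=
        convex_halfSpace_lt (innerSL ℝ x).toLinearMap.isLinear 1
      have := convexHull_min (s := (↑S : Set E) \ {x}) (t := {y : E | inner ℝ x y < 1}) (by
        rintro y ⟨hy, hyx⟩
        exact (inner_lt_one_iff_real_of_norm_eq_one (hS1 x hx) (hS1 y hy)).2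
          (fun h => hyx h.symm)) hc hh
      simp [hS1 x hx] at this)
    m hbor
  obtain ⟨col⟩ := hcol
  have hmem : ∀ i, tb i ∈ S := fun i =>
    Finset.mem_union_right _ (Finset.mem_image_of_mem _ (Finset.mem_univ i))
  have hinj : Function.Injective fun i => col ⟨tb i, hmem i⟩ := by
    intro i j h
    by_contra hij
    refine col.valid ?_ h
    rw [SimpleGraph.fromRel_adj]
    refine ⟨?_, Or.inl ?_⟩
    · intro h
      have h2 : tb i = tb j := congrArg Subtype.val h
      have := hbb i j hij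
      rw [h2, dist_self] at this
      linarith
    · have hsub : ((S.offDiag.image (fun p => dist p.1 p.2)).filter
          (fun r => dist (tb i) (tb j) < r)) ⊆ insert (Real.sqrt 2)
          (Finset.univ.image fun p : Fin (m + 1) × Fin (m + 1) => dist (tb p.1) (tb p.2)) := by
        intro r hr
        obtain ⟨hr1, hr2⟩ := Finset.mem_filter.1 hr
        obtain ⟨⟨x, y⟩, hp, rfl⟩ := Finset.mem_image.1 hr1
        obtain ⟨hx, hy, -⟩ := Finset.mem_offDiag.1 hp
        simp only at hx hy hr2 ⊢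
        rcases Finset.mem_union.1 hx with hx | hx <;> rcases Finset.mem_union.1 hy with hy | hy <;>
          obtain ⟨a, -, rfl⟩ := Finset.mem_image.1 hx <;>
          obtain ⟨b, -, rfl⟩ := Finset.mem_image.1 hy
        · have := dist_aa _ _ δ hδ1 (ha0 a).1 (ha0 a).2 (ha0 b).1 (ha0 b).2
          have := hbb i j hij
          exact absurd hr2 (by simp only [ta]; linarith)
        · rw [Finset.mem_insert]; left
          exact dist_ab _ _ (ha0 a).1 (by linarith [(ha0 a).2]) (hb0 b).1 (hb0 b).2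
        · rw [Finset.mem_insert]; left
          rw [dist_comm]
          exact dist_ab _ _ (ha0 b).1 (by linarith [(ha0 b).2]) (hb0 a).1 (hb0 a).2
        · rw [Finset.mem_insert]; right
          exact Finset.mem_image.2 ⟨(a, b), Finset.mem_univ _, rfl⟩
      refine lt_of_le_of_lt (Finset.card_le_card hsub) ?_
      refine lt_of_le_of_lt (Finset.card_insert_le _ _) ?_
      have := Finset.card_image_le (s := Finset.univ)
        (f := fun p : Fin (m + 1) × Fin (m + 1) => dist (tb p.1) (tb p.2))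
      simp only [Finset.card_univ, Fintype.card_prod, Fintype.card_fin] at this
      omega
  have := Fintype.card_le_of_injective _ hinj
  simp at this

end Pool.Agent.S08046
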