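import Pool.Statements.S08058


set_option autoImplicit false
open Pool Pool.MP_351e72_co

namespace Pool.Agent.S08058

/-- The negation of the preceding statement: For h hyperbolic w.r.t. e of degree d and v_j in the closed cone summing to e with traces ≤ ε, every real zero of ∏(1−D_{v_j})h(te) is ≤ some zero of the one for v = (ε/d)e (k times), (1−kε/d)e, then 0s, k=⌊d/ε⌋. -/
theorem result :
    ¬ (∀ (n d m : ℕ) (h : MvPolynomial (Fin n) ℝ) (e : Fin n → ℝ) (ε : ℝ),
      h.IsHomogeneous d →
      MvPolynomial.eval e h ≠ 0 →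
      (∀ (x : Fin n → ℝ) (z : ℂ),
          MvPolynomial.aeval (fun i => z * (e i : ℂ) - (x i : ℂ)) h = 0 → z.im = 0) →
      0 < ε → 0 < m → (d : ℝ) ≤ (m : ℝ) * ε →
      ∀ v : Fin m → Fin n → ℝ,
        (∀ j, ∀ t : ℝ, t < 0 → MvPolynomial.eval (fun i => t * e i - v j i) h ≠ 0) →
        (∑ j, v j = e) →
        (∀ j, (∑ i, v j i * MvPolynomial.eval e (MvPolynomial.pderiv i h))
              / MvPolynomial.eval e h ≤ ε) →
        ∀ t : ℝ,
          MvPolynomial.eval (fun i => t * e i)
            (((List.ofFn (fun j : Fin m =>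
                ((1 : Module.End ℝ (MvPolynomial (Fin n) ℝ)) - ∑ i : Fin n,
                  v j i • (MvPolynomial.pderiv (R := ℝ) i).toLinearMap))).prod :
                Module.End ℝ (MvPolynomial (Fin n) ℝ)) h) = 0 →
          ∃ s : ℝ, t ≤ s ∧
            MvPolynomial.eval (fun i => s * e i)
              (((List.ofFn (fun j : Fin m =>
                  ((1 : Module.End ℝ (MvPolynomial (Fin n) ℝ)) - ∑ i : Fin n,
                    ((if (j : ℕ) < ⌊(d : ℝ) / ε⌋₊ then ε / (d : ℝ)
                      else if (j : ℕ) = ⌊(d : ℝ) / ε⌋₊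
                        then 1 - (⌊(d : ℝ) / ε⌋₊ : ℝ) * ε / (d : ℝ)
                      else 0) * e i) •
                    (MvPolynomial.pderiv (R := ℝ) i).toLinearMap))).prod :
                  Module.End ℝ (MvPolynomial (Fin n) ℝ)) h) = 0) := by
  intro H
  have c : ∀ (i : Fin 2) (k : ℕ) [k.AtLeastTwo],
      MvPolynomial.pderiv i (OfNat.ofNat k : MvPolynomial (Fin 2) ℝ) = 0 :=
    fun i k _ => (MvPolynomial.pderiv i).map_natCast k
  have c1 := fun i => c i 25
  have c2 := fun i => c i 24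
  have c3 := fun i => c i 23
  have hf : ⌊((26 : ℕ) : ℝ) / (25 / 2)⌋₊ = 2 := by
    rw [Nat.floor_eq_iff (by positivity)]; norm_num
  obtain ⟨s, h1, h2⟩ := H 2 26 3 (MvPolynomial.X 0 ^ 25 * MvPolynomial.X 1) ![1, 1] (25 / 2)
    (((MvPolynomial.isHomogeneous_X ℝ 0).pow 25).mul (MvPolynomial.isHomogeneous_X ℝ 1))
    (by simp) (by
      intro x z hz
      simp only [map_mul, map_pow, MvPolynomial.aeval_X, mul_eq_zero, Matrix.cons_val_zero,
        Matrix.cons_val_one, Complex.ofReal_one, mul_one, ne_eq, OfNat.ofNat_ne_zero,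
        not_false_eq_true, pow_eq_zero_iff, sub_eq_zero] at hz
      rcases hz with rfl | rfl <;> simp) (by norm_num) (by norm_num) (by norm_num)
    ![![1 / 2, 0], ![1 / 2, 0], ![0, 1]] (by
      intro j t ht
      fin_cases j <;> simp <;> constructor <;> linarith)
    (by ext i; fin_cases i <;> simp [Fin.sum_univ_succ]; norm_num)
    (by
      intro j
      fin_cases j <;> simp [Fin.sum_univ_succ, Pi.single_apply] <;> norm_num)
    15 (by
      simp [List.ofFn_succ, Fin.sum_univ_succ, Pi.single_apply, MvPolynomial.smul_eq_C_mul, c1, c2, c3]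
      norm_num)
  rw [hf] at h2
  simp [List.ofFn_succ, Fin.sum_univ_succ, Pi.single_apply, MvPolynomial.smul_eq_C_mul, c1, c2, c3] at h2
  have h3 : s ^ 23 * (s ^ 3 - 26 * s ^ 2 + 18125 / 104 * s - 46875 / 338) = 0 := by
    rw [← h2]; ring
  have h4 : 0 < s ^ 3 - 26 * s ^ 2 + 18125 / 104 * s - 46875 / 338 := by
    nlinarith [sq_nonneg (s - 15), mul_nonneg (sub_nonneg.mpr h1) (sq_nonneg (s - 15))]
  exact absurd h3 (by positivity)

end Pool.Agent.S08058
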