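import Pool.Statements.S08110
-- import your own Pool.Agent.* helpers here

set_option autoImplicit false
universe u
open Pool Pool.MP_375da3_co

namespace Pool.Agent.S08110

/-- The negation of the preceding statement: For every distributive lattice T: if T order-embeds into a product of chains indexed by ι, then T embeds as a sublattice into some product of chains indexed by ι; that is, algebraic dimension equals order dimension. -/
theorem result :
    ¬ (∀ (T : Type u) [DistribLattice T] (ι : Type u) (C : ι → Type u)
      [∀ i, LinearOrder (C i)],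
      Nonempty (T ↪o ((i : ι) → C i)) →
        ∃ (D : ι → Type u) (_ : ∀ i, LinearOrder (D i)),
          ∃ f : LatticeHom T ((i : ι) → D i), Function.Injective f) := by
  classical
  intro h
  have key := h (Finset (ULift.{u} ℝ)) (ULift.{u} (ℚ × ℚ)) (fun _ => ULift.{u} Prop) ?_
  · obtain ⟨D, hD, f, hf⟩ := key
    have h1 : ∀ x : ULift.{u} ℝ, ∃ i, f {x} i ≠ f ∅ i := by
      intro x
      by_contra hc
      push Not at hc
      have : f {x} = f ∅ := funext hc
      have := hf this
      simp at this
    choose g hg using h1
    have hinj : Function.Injective g := by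
      intro x y hxy
      by_contra hne
      have h2 : f ({x} ⊓ {y}) = f {x} ⊓ f {y} := map_inf f _ _
      have h3 : ({x} ⊓ {y} : Finset (ULift.{u} ℝ)) = ∅ := by
        ext z
        simp only [Finset.inf_eq_inter, Finset.mem_inter, Finset.mem_singleton,
          Finset.notMem_empty, iff_false, not_and]
        intro h1 h2
        exact hne (h1.symm.trans h2)
      rw [h3] at h2
      have h4 := congrFun h2 (g x)
      simp only [Pi.inf_apply] at h4
      rcases le_total (f {x} (g x)) (f {y} (g x)) with h5 | h5
      · rw [inf_eq_left.mpr h5] at h4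
        exact hg x h4.symm
      · rw [inf_eq_right.mpr h5, hxy] at h4
        exact hg y h4.symm
    have hc : Countable (ULift.{u} ℝ) := hinj.countable
    have hc2 : Countable ℝ := (Equiv.ulift.{u}).symm.injective.countable
    exact not_countable hc2
  · refine ⟨OrderEmbedding.ofMapLEIff
      (fun S i => ULift.up (∃ x ∈ S, (i.down.1 : ℝ) < x.down ∧ x.down < (i.down.2 : ℝ))) ?_⟩
    intro A B
    constructor
    · intro hle x hx
      by_contra hxB
      have hcl : IsClosed ((fun z : ULift.{u} ℝ => z.down) '' (B : Set (ULift.{u} ℝ))) :=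
        (B.finite_toSet.image _).isClosed
      have hx2 : x.down ∈ ((fun z : ULift.{u} ℝ => z.down) '' (B : Set (ULift.{u} ℝ)))ᶜ := by
        rintro ⟨z, hz, hzx⟩
        have : z = x := ULift.ext _ _ hzx
        exact hxB (this ▸ hz)
      obtain ⟨a, b, ⟨ha, hb⟩, hsub⟩ :=
        mem_nhds_iff_exists_Ioo_subset.mp (hcl.isOpen_compl.mem_nhds hx2)
      obtain ⟨p, hp1, hp2⟩ := exists_rat_btwn ha
      obtain ⟨q, hq1, hq2⟩ := exists_rat_btwn hb
      have := hle (ULift.up (p, q))
      have h5 : ∃ y ∈ B, (p : ℝ) < y.down ∧ y.down < (q : ℝ) := this ⟨x, hx, hp2, hq1⟩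
      obtain ⟨y, hy, hy1, hy2⟩ := h5
      exact hsub ⟨hp1.trans hy1, hy2.trans hq2⟩ ⟨y, hy, rfl⟩
    · intro hle i
      rintro ⟨x, hx, h1⟩
      exact ⟨x, hle hx, h1⟩

end Pool.Agent.S08110
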