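import Pool.Statements.S08206
import Pool.Agent.H9.Sausage

set_option autoImplicit false
open Pool Pool.MP_3b2b47_co

namespace Pool.Agent.S08206

open Pool.Agent.H9.Sausage MeasureTheory Set

abbrev E := EuclideanSpace ℝ (Fin 3)

def C : Set E := {v | |v 0| + |v 1| + |v 2| ≤ 1}

def L : List (ℤ × ℤ × ℤ) := [(-3, 0, 0), (-2, -1, 0), (-2, 0, -1), (-2, 0, 1), (-2, 1, 0), (-1, -2, 0), (-1, -1, -1), (-1, -1, 1), (-1, 0, -2), (-1, 0, 0), (-1, 0, 2), (-1, 1, -1), (-1, 1, 1), (-1, 2, 0), (0, -3, 0), (0, -2, -1), (0, -2, 1), (0, -1, -2), (0, -1, 0), (0, -1, 2), (0, 0, -3), (0, 0, -1), (0, 0, 1), (0, 0, 3), (0, 1, -2), (0, 1, 0), (0, 1, 2), (0, 2, -1), (0, 2, 1), (0, 3, 0), (1, -2, 0), (1, -1, -1), (1, -1, 1), (1, 0, -2), (1, 0, 0), (1, 0, 2), (1, 1, -1), (1, 1, 1), (1, 2, 0), (2, -1, 0), (2, 0, -1), (2, 0, 1), (2, 1, 0), (3, 0, 0)]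

def P (i : Fin 44) : ℤ × ℤ × ℤ := L.getD i.val (0, 0, 0)

lemma P_inj : ∀ i j : Fin 44, P i = P j → i = j := by decide +kernel

lemma P_prop : ∀ i : Fin 44, ((P i).1 + (P i).2.1 + (P i).2.2) % 2 = 1 ∧
    |(P i).1| + |(P i).2.1| + |(P i).2.2| ≤ 3 := by decide +kernel

noncomputable def xx (i : Fin 44) : E :=
  WithLp.toLp 2 ![((P i).1 : ℝ), ((P i).2.1 : ℝ), ((P i).2.2 : ℝ)]

noncomputable def ff (s0 s1 s2 : ℤ) : E →L[ℝ] ℝ :=
  (s0 : ℝ) • EuclideanSpace.proj (0 : Fin 3) + (s1 : ℝ) • EuclideanSpace.proj (1 : Fin 3) +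
    (s2 : ℝ) • EuclideanSpace.proj (2 : Fin 3)

lemma ff_apply (s0 s1 s2 : ℤ) (v : E) : ff s0 s1 s2 v = s0 * v 0 + s1 * v 1 + s2 * v 2 := by
  simp [ff]

lemma ff_bound (s0 s1 s2 : ℤ) (h0 : s0 = 1 ∨ s0 = -1) (h1 : s1 = 1 ∨ s1 = -1)
    (h2 : s2 = 1 ∨ s2 = -1) (v : E) (hv : v ∈ C) : -1 ≤ ff s0 s1 s2 v ∧ ff s0 s1 s2 v ≤ 1 := by
  rw [ff_apply]
  have hv' : |v 0| + |v 1| + |v 2| ≤ 1 := hv
  have a0 := le_abs_self (v 0); have b0 := neg_abs_le (v 0)
  have a1 := le_abs_self (v 1); have b1 := neg_abs_le (v 1)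
  have a2 := le_abs_self (v 2); have b2 := neg_abs_le (v 2)
  rcases h0 with rfl | rfl <;> rcases h1 with rfl | rfl <;> rcases h2 with rfl | rfl <;>
    push_cast <;> constructor <;> linarith

lemma sep (s0 s1 s2 : ℤ) (h0 : s0 = 1 ∨ s0 = -1) (h1 : s1 = 1 ∨ s1 = -1)
    (h2 : s2 = 1 ∨ s2 = -1) (i j : Fin 44)
    (h : s0 * (P i).1 + s1 * (P i).2.1 + s2 * (P i).2.2 <
      s0 * (P j).1 + s1 * (P j).2.1 + s2 * (P j).2.2) :
    ∃ f : E →L[ℝ] ℝ, ∃ c : ℝ, f ≠ 0 ∧
      (∀ v ∈ C, f (xx i + v) ≤ c) ∧ (∀ v ∈ C, c ≤ f (xx j + v)) ∧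
      ∀ k : Fin 44, (∀ v ∈ C, f (xx k + v) ≤ c) ∨ (∀ v ∈ C, c ≤ f (xx k + v)) := by
  let N : Fin 44 → ℤ := fun k => s0 * (P k).1 + s1 * (P k).2.1 + s2 * (P k).2.2
  have hN : ∀ k, ff s0 s1 s2 (xx k) = (N k : ℝ) := by
    intro k; rw [ff_apply]; simp [xx, N]
  have hodd : ∀ k, N k % 2 = 1 := by
    intro k
    have := (P_prop k).1
    simp only [N]
    rcases h0 with rfl | rfl <;> rcases h1 with rfl | rfl <;> rcases h2 with rfl | rfl <;> omega
  have up : ∀ k, N k ≤ N i → ∀ v ∈ C, ff s0 s1 s2 (xx k + v) ≤ (N i : ℝ) + 1 := by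
    intro k hk v hv
    have := ff_bound s0 s1 s2 h0 h1 h2 v hv
    rw [map_add, hN]
    have : (N k : ℝ) ≤ N i := by exact_mod_cast hk
    linarith
  have dn : ∀ k, N i < N k → ∀ v ∈ C, (N i : ℝ) + 1 ≤ ff s0 s1 s2 (xx k + v) := by
    intro k hk v hv
    have := ff_bound s0 s1 s2 h0 h1 h2 v hv
    rw [map_add, hN]
    have h3 : N i + 2 ≤ N k := by have := hodd k; have := hodd i; omega
    have : (N i : ℝ) + 2 ≤ N k := by exact_mod_cast h3
    linarith
  refine ⟨ff s0 s1 s2, (N i : ℝ) + 1, ?_, up i le_rfl, dn j h, fun k => ?_⟩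
  · intro hf
    have h1 := hN i
    have h2 := hN j
    rw [hf] at h1 h2
    have : (N i : ℝ) < N j := by exact_mod_cast h
    simp at h1 h2
    linarith
  · rcases le_or_gt (N k) (N i) with hk | hk
    · exact Or.inl (up k hk)
    · exact Or.inr (dn k hk)

lemma sepAll (i j : Fin 44) (hij : i ≠ j) :
    ∃ f : E →L[ℝ] ℝ, ∃ c : ℝ, f ≠ 0 ∧
      (∀ v ∈ C, f (xx i + v) ≤ c) ∧ (∀ v ∈ C, c ≤ f (xx j + v)) ∧
      ∀ k : Fin 44, (∀ v ∈ C, f (xx k + v) ≤ c) ∨ (∀ v ∈ C, c ≤ f (xx k + v)) := by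
  have hne : ¬ ((P i).1 = (P j).1 ∧ (P i).2.1 = (P j).2.1 ∧ (P i).2.2 = (P j).2.2) := by
    rintro ⟨a, b, c⟩
    exact hij (P_inj i j (Prod.ext a (Prod.ext b c)))
  let s : ℤ → ℤ → ℤ := fun a b => if a ≤ b then 1 else -1
  have hs : ∀ a b, s a b = 1 ∨ s a b = -1 := by
    intro a b; simp only [s]; split_ifs <;> simp
  refine sep (s (P i).1 (P j).1) (s (P i).2.1 (P j).2.1) (s (P i).2.2 (P j).2.2) (hs _ _) (hs _ _)
    (hs _ _) i j ?_
  simp only [s]
  split_ifs <;> omega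

lemma convex_ball (r : ℝ) : Convex ℝ {v : E | |v 0| + |v 1| + |v 2| ≤ r} := by
  intro x hx y hy a b ha hb hab
  simp only [mem_setOf_eq, PiLp.add_apply, PiLp.smul_apply, smul_eq_mul] at *
  have k : ∀ p q : ℝ, |a * p + b * q| ≤ a * |p| + b * |q| := by
    intro p q
    refine (abs_add_le _ _).trans ?_
    rw [abs_mul, abs_mul, abs_of_nonneg ha, abs_of_nonneg hb]
  have := k (x 0) (y 0); have := k (x 1) (y 1); have := k (x 2) (y 2)
  have h1 := mul_le_mul_of_nonneg_left hx ha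
  have h2 := mul_le_mul_of_nonneg_left hy hb
  have : a * r + b * r = r := by rw [← add_mul, hab, one_mul]
  nlinarith

lemma vol_tr (S : Set E) : volume S = volume ((WithLp.toLp 2 : X → E) ⁻¹' S) := by
  have := (EuclideanSpace.volume_preserving_symm_measurableEquiv_toLp (Fin 3)).symm
  exact (this.measure_preimage_equiv S).symm

lemma far (y z : E) (f : E →L[ℝ] ℝ) (c : ℝ) (hf : f ≠ 0)
    (h1 : ∀ v ∈ C, f (y + v) ≤ c) (h2 : ∀ v ∈ C, c ≤ f (z + v)) :
    2 ≤ |(z - y) 0| + |(z - y) 1| + |(z - y) 2| := by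
  let e : Fin 3 → E := fun m => EuclideanSpace.single m 1
  have he : ∀ m, e m ∈ C ∧ -e m ∈ C := by
    intro m; fin_cases m <;> simp [e, C]
  have hdec : ∀ v : E, f v = v 0 * f (e 0) + v 1 * f (e 1) + v 2 * f (e 2) := by
    intro v
    have : v = v 0 • e 0 + v 1 • e 1 + v 2 • e 2 := by
      ext m; fin_cases m <;> simp [e]
    conv_lhs => rw [this]
    simp
  set D := f (z - y) with hD
  have hb : ∀ m, 2 * |f (e m)| ≤ D := by
    intro m
    have a1 := h1 _ (he m).1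
    have a2 := h1 _ (he m).2
    have a3 := h2 _ (he m).1
    have a4 := h2 _ (he m).2
    rw [map_add] at a1 a2 a3 a4
    rw [map_neg] at a2 a4
    rw [hD, map_sub]
    rcases abs_cases (f (e m)) with h | h <;> linarith
  have hDpos : 0 < D := by
    by_contra hh
    push Not at hh
    apply hf
    ext v
    have z0 : ∀ m, f (e m) = 0 := by
      intro m
      have := hb m
      have := abs_nonneg (f (e m))
      exact abs_eq_zero.1 (by linarith)
    rw [hdec v, z0, z0, z0]; simp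
  have h3 := hdec (z - y)
  rw [← hD] at h3
  have k : ∀ m, 2 * ((z - y) m * f (e m)) ≤ |(z - y) m| * D := by
    intro m
    have a := le_abs_self ((z - y) m * f (e m))
    rw [abs_mul] at a
    have b := mul_le_mul_of_nonneg_left (hb m) (abs_nonneg ((z - y) m))
    nlinarith
  have k0 := k 0; have k1 := k 1; have k2 := k 2
  by_contra hh
  push Not at hh
  nlinarith

/-- Counterexample: the regular octahedron in dimension three and 44 translates taken from the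
tetrahedral-octahedral honeycomb. -/
theorem result :
    ¬ (∀ d : ℕ, 3 ≤ d → ∀ C : Set (EuclideanSpace ℝ (Fin d)),
    Convex ℝ C → IsCompact C → (interior C).Nonempty → (∀ v ∈ C, -v ∈ C) →
    ∀ n : ℕ, 1 < n →
    ∃ y : Fin n → EuclideanSpace ℝ (Fin d),
      Collinear ℝ (Set.range y) ∧
      (∀ i j : Fin n, i ≠ j → ∃ f : EuclideanSpace ℝ (Fin d) →L[ℝ] ℝ, ∃ c : ℝ, f ≠ 0 ∧
         (∀ v ∈ C, f (y i + v) ≤ c) ∧ (∀ v ∈ C, c ≤ f (y j + v)) ∧
         ∀ k : Fin n, (∀ v ∈ C, f (y k + v) ≤ c) ∨ (∀ v ∈ C, c ≤ f (y k + v))) ∧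
      ∀ x : Fin n → EuclideanSpace ℝ (Fin d),
        (∀ i j : Fin n, i ≠ j → ∃ f : EuclideanSpace ℝ (Fin d) →L[ℝ] ℝ, ∃ c : ℝ, f ≠ 0 ∧
           (∀ v ∈ C, f (x i + v) ≤ c) ∧ (∀ v ∈ C, c ≤ f (x j + v)) ∧
           ∀ k : Fin n, (∀ v ∈ C, f (x k + v) ≤ c) ∨ (∀ v ∈ C, c ≤ f (x k + v))) →
        MeasureTheory.volume (convexHull ℝ (⋃ i, (fun v => y i + v) '' C)) ≤
          MeasureTheory.volume (convexHull ℝ (⋃ i, (fun v => x i + v) '' C))) := by
  intro H
  have hcont : Continuous fun v : E => |v 0| + |v 1| + |v 2| := by fun_prop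
  have hcomp : IsCompact C := by
    refine Metric.isCompact_of_isClosed_isBounded (isClosed_le hcont continuous_const) ?_
    refine (Metric.isBounded_closedBall (x := (0 : E)) (r := 1)).subset ?_
    intro v hv
    have hv' : |v 0| + |v 1| + |v 2| ≤ 1 := hv
    rw [mem_closedBall_zero_iff, EuclideanSpace.norm_eq, Real.sqrt_le_left zero_le_one]
    simp only [Fin.sum_univ_three, Real.norm_eq_abs]
    have := abs_nonneg (v 0); have := abs_nonneg (v 1); have := abs_nonneg (v 2)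
    nlinarith [mul_nonneg (abs_nonneg (v 0)) (abs_nonneg (v 1)),
      mul_nonneg (abs_nonneg (v 0)) (abs_nonneg (v 2)),
      mul_nonneg (abs_nonneg (v 1)) (abs_nonneg (v 2))]
  have hint : (interior C).Nonempty := by
    refine ⟨0, ?_⟩
    refine mem_interior.2 ⟨{v : E | |v 0| + |v 1| + |v 2| < 1}, fun v hv => (le_of_lt (show |v 0| + |v 1| + |v 2| < 1 from hv) : |v 0| + |v 1| + |v 2| ≤ 1),
      isOpen_lt hcont continuous_const, by simp⟩
  obtain ⟨y, hcol, hsep, hmin⟩ := H 3 le_rfl C (convex_ball 1) hcomp hint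
    (by intro v hv; simpa [C] using hv) 44 (by norm_num)
  have hle := hmin xx sepAll
  have hup : volume (convexHull ℝ (⋃ i, (fun v => xx i + v) '' C)) ≤ ENNReal.ofReal (256 / 3) := by
    have : convexHull ℝ (⋃ i, (fun v => xx i + v) '' C) ⊆
        {v : E | |v 0| + |v 1| + |v 2| ≤ 4} := by
      refine convexHull_min ?_ (convex_ball 4)
      intro z hz
      obtain ⟨i, v, hv, rfl⟩ := mem_iUnion.1 hz
      have hv' : |v 0| + |v 1| + |v 2| ≤ 1 := hv
      have hp : |((P i).1 : ℝ)| + |((P i).2.1 : ℝ)| + |((P i).2.2 : ℝ)| ≤ 3 := by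
        exact_mod_cast (P_prop i).2
      have a0 := abs_add_le ((P i).1 : ℝ) (v 0)
      have a1 := abs_add_le ((P i).2.1 : ℝ) (v 1)
      have a2 := abs_add_le ((P i).2.2 : ℝ) (v 2)
      show |((P i).1 : ℝ) + v 0| + |((P i).2.1 : ℝ) + v 1| + |((P i).2.2 : ℝ) + v 2| ≤ 4
      linarith
    refine (measure_mono this).trans ?_
    rw [vol_tr, ← vol_ball4]
    exact le_of_eq rfl
  obtain ⟨p, w, hw⟩ := (collinear_iff_exists_forall_eq_smul_vadd _).1 hcol
  choose t ht using fun i => hw (y i) ⟨i, rfl⟩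
  set N := |w 0| + |w 1| + |w 2| with hN
  have hN0 : 0 ≤ N := by positivity
  have hdist : ∀ i j, |(y j - y i) 0| + |(y j - y i) 1| + |(y j - y i) 2| = |t j * N - t i * N| := by
    intro i j
    have : y j - y i = (t j - t i) • w := by
      rw [ht i, ht j]; simp [sub_smul]
    rw [this, ← sub_mul, abs_mul, abs_of_nonneg hN0]
    simp only [PiLp.smul_apply, smul_eq_mul, abs_mul, hN]
    ring
  have hfar : ∀ i j, i ≠ j → 2 ≤ |t j * N - t i * N| := by
    intro i j hij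
    obtain ⟨f, c, hf, h1, h2, -⟩ := hsep i j hij
    rw [← hdist]
    exact far _ _ f c hf h1 h2
  have hinj : Function.Injective fun i => t i * N := by
    intro i j h
    by_contra hij
    have := hfar i j hij
    simp only at h
    rw [h] at this
    norm_num at this
  obtain ⟨a, ha, b, hb, hab⟩ := spread 43 2 (Finset.univ.image fun i => t i * N)
    (by rw [Finset.card_image_of_injective _ hinj]; simp) (by
      intro a ha b hb hab
      obtain ⟨i, -, rfl⟩ := Finset.mem_image.1 ha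
      obtain ⟨j, -, rfl⟩ := Finset.mem_image.1 hb
      exact hfar j i (fun h => hab (by rw [h])))
  obtain ⟨i, -, rfl⟩ := Finset.mem_image.1 ha
  obtain ⟨j, -, rfl⟩ := Finset.mem_image.1 hb
  have h86 : 86 ≤ n1 (y j - y i).ofLp := by
    have := hdist i j
    have h2 := le_abs_self (t j * N - t i * N)
    simp only [n1]
    push_cast at hab
    linarith
  have hlow := volK _ (lt_of_lt_of_le (by norm_num) h86)
  have hsub : (fun z => (y i).ofLp + z) '' K (y j - y i).ofLp ⊆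
      (WithLp.toLp 2 : X → E) ⁻¹' (convexHull ℝ (⋃ i, (fun v => y i + v) '' C)) := by
    rintro _ ⟨z, ⟨s, s0, s1, hz⟩, rfl⟩
    have hv : WithLp.toLp 2 (z - s • (y j - y i).ofLp) ∈ C := hz
    set v : E := WithLp.toLp 2 (z - s • (y j - y i).ofLp) with hvdef
    have m1 : y i + v ∈ convexHull ℝ (⋃ i, (fun v => y i + v) '' C) :=
      subset_convexHull _ _ (mem_iUnion.2 ⟨i, v, hv, rfl⟩)
    have m2 : y j + v ∈ convexHull ℝ (⋃ i, (fun v => y i + v) '' C) :=
      subset_convexHull _ _ (mem_iUnion.2 ⟨j, v, hv, rfl⟩)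
    have := (convex_convexHull ℝ _) m1 m2 (sub_nonneg.2 s1) s0 (by ring)
    rw [mem_preimage]
    convert this using 1
    ext m
    simp [hvdef]
    ring
  have h5 := measure_mono (μ := volume) hsub
  rw [Set.image_add_left, measure_preimage_add, ← vol_tr] at h5
  have h6 : ENNReal.ofReal 86 ≤ ENNReal.ofReal (256 / 3) :=
    ((ENNReal.ofReal_le_ofReal h86).trans hlow).trans (h5.trans (hle.trans hup))
  rw [ENNReal.ofReal_le_ofReal_iff (by norm_num)] at h6
  norm_num at h6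

end Pool.Agent.S08206
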