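import Pool.Statements.S08224
import Pool.Agent.H4.SubGame

set_option autoImplicit false
open Pool Pool.MP_3c1ca0_co

namespace Pool.Agent.S08224

/-- The negation of the preceding statement: For every finite set D of integer vectors with positive sums and nonnegative entries, the normal-play losing positions of the subtraction game on ℕ^d with moves x→y, x−y∈D, form a finite union of sets b+ℕp₁+…+ℕpₘ. -/
theorem result :
    ¬ (∀ (d : ℕ) (D : Finset (Fin d → ℤ)),
      (∀ a ∈ D, 0 < ∑ i, a i) →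
      (∀ a ∈ D, ∀ i, 0 ≤ a i) →
      ∀ P : Set (Fin d → ℕ),
        (∀ x : Fin d → ℕ, x ∈ P ↔
          ∀ y : Fin d → ℕ, (fun i => (x i : ℤ) - (y i : ℤ)) ∈ D → y ∉ P) →
        ∃ (k : ℕ) (b : Fin k → Fin d → ℕ) (m : Fin k → ℕ)
          (p : ∀ i : Fin k, Fin (m i) → Fin d → ℕ),
          P = {x | ∃ i : Fin k, ∃ c : Fin (m i) → ℕ, x = b i + ∑ j, c j • p i j}) := by
  intro h
  classical
  let D : Finset (Fin 2 → ℤ) :=
    (H4.SubGame.moves.map (fun s => (![(s.1 : ℤ), (s.2 : ℤ)] : Fin 2 → ℤ))).toFinset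
  have hD : ∀ a, a ∈ D ↔ ∃ s ∈ H4.SubGame.moves, a = ![(s.1 : ℤ), (s.2 : ℤ)] := by
    intro a
    simp only [D, List.mem_toFinset, List.mem_map]
    constructor
    · rintro ⟨s, hs, rfl⟩; exact ⟨s, hs, rfl⟩
    · rintro ⟨s, hs, rfl⟩; exact ⟨s, hs, rfl⟩
  have h1 : ∀ a ∈ D, 0 < ∑ i, a i := by
    intro a ha
    obtain ⟨s, hs, rfl⟩ := (hD a).1 ha
    have := (H4.SubGame.small s hs).1
    simp only [Fin.sum_univ_two, Matrix.cons_val_zero, Matrix.cons_val_one]
    omega
  have h2 : ∀ a ∈ D, ∀ i, 0 ≤ a i := by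
    intro a ha i
    obtain ⟨s, hs, rfl⟩ := (hD a).1 ha
    fin_cases i <;> simp
  obtain ⟨k, b, m, p, hP⟩ := h 2 D h1 h2 {x | H4.SubGame.val (x 0) (x 1)} (by
    intro x
    simp only [Set.mem_ofPred_eq]
    rw [H4.SubGame.val_rec]
    constructor
    · intro hx y hy
      obtain ⟨s, hs, he⟩ := (hD _).1 hy
      have e0 := congrFun he 0
      have e1 := congrFun he 1
      simp only [Matrix.cons_val_zero, Matrix.cons_val_one] at e0 e1
      have f0 : y 0 = x 0 - s.1 := by omega
      have f1 : y 1 = x 1 - s.2 := by omega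
      rw [f0, f1]
      exact hx s hs (by omega) (by omega)
    · intro hx s hs l0 l1
      have := hx ![x 0 - s.1, x 1 - s.2] ((hD _).2 ⟨s, hs, by
        funext i
        fin_cases i
        · simp only [Fin.zero_eta, Matrix.cons_val_zero]; omega
        · simp only [Fin.mk_one, Matrix.cons_val_one, Matrix.cons_val_zero]; omega⟩)
      simpa using this)
  let pt : ℕ → Fin 2 → ℕ := fun j => ![216 * (2 ^ j - 1) + 192, 2 ^ j - 1]
  have hpt : ∀ j, ∃ i : Fin k, ∃ c : Fin (m i) → ℕ, pt j = b i + ∑ l, c l • p i l := by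
    intro j
    have : pt j ∈ {x : Fin 2 → ℕ | H4.SubGame.val (x 0) (x 1)} := by
      simp only [pt, Set.mem_ofPred_eq, Matrix.cons_val_zero, Matrix.cons_val_one]
      rw [H4.SubGame.val_line]
      have : 0 < 2 ^ j := by positivity
      exact ⟨j, by omega⟩
    rw [hP] at this
    exact this
  choose I c hc using hpt
  obtain ⟨i, hi⟩ := Finite.exists_infinite_fiber I
  let e : ℕ ↪ (I ⁻¹' {i}) := Infinite.natEmbedding _
  have hex : ∀ n, ∃ c' : Fin (m i) → ℕ, pt (e n).1 = b i + ∑ l, c' l • p i l := by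
    intro n
    have h3 : I (e n).1 = i := (e n).2
    have h4 := hc (e n).1
    have h5 : ∃ c' : Fin (m (I (e n).1)) → ℕ,
        pt (e n).1 = b (I (e n).1) + ∑ l, c' l • p (I (e n).1) l := ⟨_, h4⟩
    rw [h3] at h5
    exact h5
  choose f hf using hex
  obtain ⟨u, v, huv, hle⟩ := wellQuasiOrdered_le f
  have hne : (e u).1 ≠ (e v).1 := by
    intro h6
    have := e.injective (Subtype.ext h6)
    omega
  set ju := (e u).1
  set jv := (e v).1
  let z : Fin 2 → ℕ := b i + ∑ l, (f v l + (f v l - f u l)) • p i l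
  have hz : z ∈ {x : Fin 2 → ℕ | H4.SubGame.val (x 0) (x 1)} := by
    rw [hP]
    exact ⟨i, _, rfl⟩
  have hsum : z + pt ju = pt jv + pt jv := by
    rw [hf u, hf v]
    simp only [z]
    have : ∑ l, (f v l + (f v l - f u l)) • p i l + ∑ l, f u l • p i l =
        ∑ l, f v l • p i l + ∑ l, f v l • p i l := by
      rw [← Finset.sum_add_distrib, ← Finset.sum_add_distrib]
      refine Finset.sum_congr rfl fun l _ => ?_
      rw [← add_smul, ← add_smul]
      have : f u l ≤ f v l := hle l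
      have h7 : f v l + (f v l - f u l) + f u l = f v l + f v l := by omega
      rw [h7]
    calc b i + ∑ l, (f v l + (f v l - f u l)) • p i l + (b i + ∑ l, f u l • p i l)
        = b i + b i + (∑ l, (f v l + (f v l - f u l)) • p i l + ∑ l, f u l • p i l) := by abel
      _ = _ := by rw [this]; abel
  have s0 := congrFun hsum 0
  have s1 := congrFun hsum 1
  simp only [pt, Pi.add_apply, Matrix.cons_val_zero, Matrix.cons_val_one] at s0 s1
  have pu : 0 < 2 ^ ju := by positivity
  have pv : 0 < 2 ^ jv := by positivity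
  have z0 : z 0 = 216 * z 1 + 192 := by omega
  simp only [Set.mem_ofPred_eq] at hz
  rw [z0, H4.SubGame.val_line] at hz
  obtain ⟨j, hj⟩ := hz
  apply hne
  apply H4.SubGame.pow_add_pow (a := j)
  rw [pow_succ]
  omega

end Pool.Agent.S08224
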