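import Pool.Statements.S08258
import Pool.Agent.H10.Plane

set_option autoImplicit false
open Pool Pool.MP_3d7919_co

namespace Pool.Agent.S08258

open Pool.Agent.H10.Plane

def P : Fin 7 → ℤ × ℤ := ![(7, 6), (2, 2), (5, 5), (1, 0), (1, 6), (2, 3), (3, 5)]

lemma P_inj : Function.Injective P := by decide

lemma P_gen : ∀ i j k : Fin 7, i ≠ j → j ≠ k → i ≠ k → oz (P i) (P j) (P k) ≠ 0 := by
  decide +kernel

lemma P_key : ∀ s : Finset (Fin 7), ∑ i ∈ s, (i.val + 1) = 2 * 7 →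
    ∃ a ∈ s, ∃ b ∈ s, ∃ c ∈ s, ∃ q, q ∉ s ∧ 0 < oz (P a) (P b) (P c) ∧ 0 ≤ oz (P b) (P c) (P q) ∧
      0 ≤ oz (P c) (P a) (P q) ∧ 0 ≤ oz (P a) (P b) (P q) := by
  decide +kernel

/-- The negation of the preceding statement: For every n ≥ 5 and n distinct plane points with no three collinear, labelled 1..n, some subset cut out by a convex set has label sum exactly 2n. -/
theorem result :
    ¬ (∀ n : ℕ, 5 ≤ n →
      ∀ p : Fin n → EuclideanSpace ℝ (Fin 2),
        Function.Injective p →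
        (∀ i j k : Fin n, i ≠ j → j ≠ k → i ≠ k →
          ¬ Collinear ℝ ({p i, p j, p k} : Set (EuclideanSpace ℝ (Fin 2)))) →
        ∃ s : Finset (Fin n),
          (∃ S : Set (EuclideanSpace ℝ (Fin 2)), Convex ℝ S ∧ ∀ i : Fin n, p i ∈ S ↔ i ∈ s) ∧
          ∑ i ∈ s, (i.val + 1) = 2 * n) := by
  intro h
  obtain ⟨s, ⟨S, hS, hs⟩, hsum⟩ := h 7 (by norm_num) (fun i => pt (P i)) (pt_inj.comp P_inj)
    (fun i j k hij hjk hik hc => by
      have := o_eq_zero_of_collinear _ _ _ hc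
      rw [o_pt] at this
      exact P_gen i j k hij hjk hik (by exact_mod_cast this))
  obtain ⟨a, ha, b, hb, c, hc, q, hq, h0, h1, h2, h3⟩ := P_key s hsum
  apply hq
  rw [← hs]
  apply mem_of_o S hS _ _ _ _ ((hs a).mpr ha) ((hs b).mpr hb) ((hs c).mpr hc) <;>
    (rw [o_pt]; assumption_mod_cast)

end Pool.Agent.S08258
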