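import Pool.Statements.S08274
import Pool.Agent.H6.UniformMixing2

set_option autoImplicit false
open Matrix
open Pool Pool.MP_3e2ec7_co

namespace Pool.Agent.S08274

/-- The negation of the preceding statement: For every finite simple graph and real time τ, if all entries of exp(iτA) have equal absolute value, then every eigenvalue of exp(iτA) is a root of unity. -/
theorem result :
    ¬ (∀ (V : Type) [Fintype V] [DecidableEq V] (G : SimpleGraph V) [DecidableRel G.Adj] (τ : ℝ),
      (∀ a b c d : V,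
        ‖(NormedSpace.exp ((Complex.I * (τ : ℂ)) • G.adjMatrix ℂ)) a b‖ =
          ‖(NormedSpace.exp ((Complex.I * (τ : ℂ)) • G.adjMatrix ℂ)) c d‖) →
      ∀ μ : ℂ, (∃ v : V → ℂ, v ≠ 0 ∧
          (NormedSpace.exp ((Complex.I * (τ : ℂ)) • G.adjMatrix ℂ)) *ᵥ v = μ • v) →
        ∃ k : ℕ, 0 < k ∧ μ ^ k = 1) := by
  intro h
  open Pool.Agent.H6.UniformMixing in
  obtain ⟨k, hk, h1⟩ := h G X (-t) (fun a b c d => by rw [entry, entry]) _
    ⟨fun x => P x ![0,0,1,0], fun h0 => by
      have h1 := norm_ψ (dot 0 ![0,0,1,0])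
      have h2 : ψ (dot 0 ![0,0,1,0]) = 0 := congrFun h0 0
      rw [h2] at h1
      simp at h1, eigen _ _⟩
  exact Pool.Agent.H6.UniformMixing.not_root k hk h1

end Pool.Agent.S08274
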