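import Pool.Statements.S08283
import Pool.Agent.H24.IRLow

set_option autoImplicit false
open Pool Pool.MP_3e8e5c_co

namespace Pool.Agent.S08283

open Pool.Agent.H24.IR

/-- closed neighbourhoods, as bit masks; edges: 0-1 0-3 0-6 0-8 0-9 0-12 1-2 1-4 1-7 1-10 1-13 2-3 2-5 2-8 2-11 2-14 3-4 3-6 3-12 3-15 4-5 4-7 4-13 4-16 5-6 5-8 5-14 5-17 6-7 6-9 6-15 7-8 7-10 7-16 8-11 8-17 -/
def nb (v : Fin 18) : ℕ := (17125475598735547418778496591214040704021540790542045566933232477018943602285026781177821687190347 >>> (18 * v.val)) % 262144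

def G : SimpleGraph (Fin 18) := ofB fun a b => (nb a).testBit b.val

instance : DecidableRel G.Adj := by unfold G; infer_instance

theorem hnb : ∀ a w, (nb a).testBit w.val = true ↔ (w = a ∨ G.Adj a w) := by decide +kernel

theorem hb : ∀ a, nb a < 2 ^ 18 := by decide +kernel

theorem low : chk nb 5 [] (List.finRange 18) = true := by decide +kernel

def nb' (a b v : Fin 18) : ℕ :=
  if v = a then nb v ^^^ 2 ^ b.val else if v = b then nb v ^^^ 2 ^ a.val else nb v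

def T : List (Fin 18 × Fin 18 × List (Fin 18)) :=
  [(0, 1, [0, 3, 6, 14]), (0, 3, [0, 2, 5, 8]), (0, 6, [0, 1, 4, 7]), (0, 8, [0, 3, 6, 16]), (0, 9, [0, 3, 4, 6, 10]), (0, 12, [0, 1, 3, 6, 16]), (1, 2, [1, 4, 7, 15]), (1, 4, [0, 1, 3, 6]), (1, 7, [0, 3, 6, 7]), (1, 10, [0, 1, 4, 7, 15]), (1, 13, [0, 3, 6, 13, 17]), (2, 3, [0, 3, 6, 10]), (2, 5, [0, 3, 5, 6]), (2, 8, [0, 2, 3, 6]), (2, 11, [0, 3, 6, 11, 16]), (2, 14, [0, 3, 6, 13, 14]), (3, 4, [0, 3, 6, 17]), (3, 6, [1, 4, 6, 7]), (3, 12, [0, 2, 3, 6, 17]), (3, 15, [0, 3, 4, 6, 10]), (4, 5, [1, 4, 7, 9]), (4, 7, [0, 3, 4, 6]), (4, 13, [0, 3, 6, 13, 14]), (4, 16, [0, 1, 4, 7, 15]), (5, 6, [0, 3, 6, 13]), (5, 8, [0, 3, 6, 8]), (5, 14, [0, 2, 5, 8, 15]), (5, 17, [0, 3, 6, 16, 17]), (6, 7, [0, 3, 6, 11]), (6, 9, [0, 2, 3, 6, 17]), (6, 15, [0, 1, 3, 6, 16]), (7, 8, [1, 4, 7, 12]), (7, 10, [0, 3, 6, 10, 14]), (7, 16, [0, 3, 6, 16, 17]), (8,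 11, [0, 2, 5, 8, 15]), (8, 17, [0, 3, 6, 13, 17])]

theorem T_cov : ∀ a b, G.Adj a b → ∃ t ∈ T, (t.1 = a ∧ t.2.1 = b) ∨ (t.1 = b ∧ t.2.1 = a) := by
  decide +kernel

theorem T_ok : ∀ t ∈ T, irrB (nb' t.1 t.2.1) t.2.2 = true ∧ extB (nb' t.1 t.2.1) t.2.2 = false ∧
    t.2.2.length ≤ 5 ∧ (∀ v, nb' t.1 t.2.1 v < 2 ^ 18) ∧
    ∀ v w, (nb' t.1 t.2.1 v).testBit w.val = true ↔
      (w = v ∨ (G.Adj v w ∧ ¬ ((v = t.1 ∧ w = t.2.1) ∨ (v = t.2.1 ∧ w = t.1)))) := by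
  decide +kernel

/-- There is a finite simple graph with at least one edge such that deleting any single edge strictly lowers the lower irredundance number (the least size of a maximal irredundant vertex set). -/
theorem result :
    ∃ n : ℕ, ∃ G : SimpleGraph (Fin n), G.edgeSet.Nonempty ∧
      ∀ e ∈ G.edgeSet,
        sInf {k : ℕ | ∃ S : Finset (Fin n),
            Maximal (fun T : Finset (Fin n) => ∀ v ∈ T, ∃ w : Fin n,
                (w = v ∨ (G.deleteEdges {e}).Adj v w) ∧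
                ∀ u ∈ T, u ≠ v → ¬ (w = u ∨ (G.deleteEdges {e}).Adj u w)) S ∧
            S.card = k}
          <
        sInf {k : ℕ | ∃ S : Finset (Fin n),
            Maximal (fun T : Finset (Fin n) => ∀ v ∈ T, ∃ w : Fin n,
                (w = v ∨ G.Adj v w) ∧
                ∀ u ∈ T, u ≠ v → ¬ (w = u ∨ G.Adj u w)) S ∧
            S.card = k} := by
  refine ⟨18, G, ⟨s(0, 1), (by decide +kernel : G.Adj 0 1)⟩, fun e => ?_⟩
  induction e using Sym2.ind with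
  | _ a b =>
    intro he
    obtain ⟨t, ht, hab⟩ := T_cov a b he
    have e1 : s(a, b) = s(t.1, t.2.1) := by
      rcases hab with ⟨h1, h2⟩ | ⟨h1, h2⟩
      · rw [h1, h2]
      · rw [h1, h2, Sym2.eq_swap]
    obtain ⟨h1, h2, h3, h4, h5⟩ := T_ok t ht
    have A := lower_le (G.deleteEdges {s(a, b)}) (nb' t.1 t.2.1) (fun v w => by
      rw [h5, SimpleGraph.deleteEdges_adj, Set.mem_singleton_iff, e1, Sym2.eq_iff]) h4 t.2.2 h1 h2
    have B := lt_lower G nb hnb hb 5 low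
    exact lt_of_le_of_lt (A.trans h3) B

end Pool.Agent.S08283
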