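import Pool.Statements.S08294
import Pool.Agent.H4.ColEdge

set_option autoImplicit false
open Pool Pool.MP_3ee535_co

namespace Pool.Agent.S08294

/-- The negation of the preceding statement: For finite graphs G1, G2: if for every k their k-colouring graphs have equally many edges (counted as ordered pairs of proper colourings differing at exactly one vertex), then for every k they have equally many proper k-colourings. -/
theorem result :
    ¬ (∀ (n m : ℕ) (G₁ : SimpleGraph (Fin n)) (G₂ : SimpleGraph (Fin m)),
      (∀ k : ℕ,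
        Nat.card {p : G₁.Coloring (Fin k) × G₁.Coloring (Fin k) //
            Nat.card {v : Fin n // p.1 v ≠ p.2 v} = 1} =
          Nat.card {p : G₂.Coloring (Fin k) × G₂.Coloring (Fin k) //
            Nat.card {v : Fin m // p.1 v ≠ p.2 v} = 1}) →
      ∀ k : ℕ, Nat.card (G₁.Coloring (Fin k)) = Nat.card (G₂.Coloring (Fin k))) := by
  intro h
  have h3 := h 8 8 (H4.ColEdge.gr H4.ColEdge.L1) (H4.ColEdge.gr H4.ColEdge.L2) (by
    intro k
    rw [H4.ColEdge.f1, H4.ColEdge.f2]
    by_cases hk : k < 4
    · interval_cases k <;> decide +kernel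
    · obtain ⟨m, rfl⟩ : ∃ m, k = m + 4 := ⟨k - 4, by omega⟩
      simp only [Fin.sum_univ_succ, Fin.prod_univ_succ, Fin.sum_univ_zero, Fin.prod_univ_zero,
        Matrix.cons_val_zero, Matrix.cons_val_succ]
      have e1 : m + 4 - 1 = m + 3 := by omega
      have e2 : m + 4 - 2 = m + 2 := by omega
      have e3 : m + 4 - 3 = m + 1 := by omega
      have e4 : m + 4 - 4 = m := by omega
      simp only [e1, e2, e3, e4, Nat.sub_zero]
      ring) 3
  have h1 : IsEmpty ((H4.ColEdge.gr H4.ColEdge.L1).Coloring (Fin 3)) := by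
    refine ⟨fun c => ?_⟩
    have a1 := c.valid (v := 0) (w := 1) (by decide)
    have a2 := c.valid (v := 0) (w := 2) (by decide)
    have a3 := c.valid (v := 0) (w := 3) (by decide)
    have a4 := c.valid (v := 1) (w := 2) (by decide)
    have a5 := c.valid (v := 1) (w := 3) (by decide)
    have a6 := c.valid (v := 2) (w := 3) (by decide)
    revert a1 a2 a3 a4 a5 a6
    generalize c 0 = x0
    generalize c 1 = x1
    generalize c 2 = x2
    generalize c 3 = x3
    intro a1 a2 a3 a4 a5 a6
    omega
  have h2 : Nonempty ((H4.ColEdge.gr H4.ColEdge.L2).Coloring (Fin 3)) :=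
    ⟨SimpleGraph.Coloring.mk ![0, 1, 2, 0, 1, 2, 2, 2] (by decide)⟩
  rw [Nat.card_of_isEmpty] at h3
  exact Nat.card_pos.ne h3

end Pool.Agent.S08294
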