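import Pool.Statements.S08323
import Pool.Agent.H3.Furstenberg

set_option autoImplicit false
open Pool Pool.MP_400a6b_co

namespace Pool.Agent.S08323

open Pool.Agent.H3.Furstenberg MvPowerSeries

theorem bound (R : M2) (h : IsRat R) :
    ∃ K : ℚ, 1 ≤ K ∧ ∀ m : Fin 2 →₀ ℕ, |coeff m R| ≤ K ^ (m 0 + m 1 + 1) := by
  obtain ⟨Q, ⟨d, rfl⟩, h0, ⟨p, hp⟩⟩ := h
  rw [← coeff_zero_eq_constantCoeff_apply, MvPolynomial.coeff_coe] at h0
  have hpos : 0 < |d.coeff 0| := abs_pos.2 h0
  set A : ℚ := ∑ a ∈ d.support, |d.coeff a| with hA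
  set B : ℚ := ∑ a ∈ p.support, |p.coeff a| with hB
  have hA0 : 0 ≤ A := Finset.sum_nonneg fun _ _ => abs_nonneg _
  have hB0 : 0 ≤ B := Finset.sum_nonneg fun _ _ => abs_nonneg _
  have hBm : ∀ m, |p.coeff m| ≤ B := by
    intro m
    by_cases hm : m ∈ p.support
    · exact Finset.single_le_sum (f := fun a => |p.coeff a|) (fun _ _ => abs_nonneg _) hm
    · rw [MvPolynomial.notMem_support_iff.1 hm]; simpa using hB0
  set K : ℚ := (A + B) / |d.coeff 0| + 1 with hK
  have hK1 : 1 ≤ K := by
    have : 0 ≤ (A + B) / |d.coeff 0| := by positivity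
    linarith
  have hKd : A + B ≤ K * |d.coeff 0| := by
    rw [hK, add_mul, div_mul_cancel₀ _ hpos.ne']
    linarith
  refine ⟨K, hK1, fun m => ?_⟩
  induction m using WellFoundedLT.induction with
  | ind m ih =>
    have e := congrArg (coeff m) hp
    have hmem : (m, (0 : Fin 2 →₀ ℕ)) ∈ Finset.HasAntidiagonal.antidiagonal m := by simp
    rw [MvPolynomial.coeff_coe, coeff_mul, ← Finset.add_sum_erase _ _ hmem] at e
    simp only [MvPolynomial.coeff_coe] at e
    have h1 : |∑ x ∈ (Finset.HasAntidiagonal.antidiagonal m).erase (m, 0),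
        coeff x.1 R * d.coeff x.2| ≤ K ^ (m 0 + m 1) * A := by
      refine (Finset.abs_sum_le_sum_abs _ _).trans ?_
      calc _ ≤ ∑ x ∈ (Finset.HasAntidiagonal.antidiagonal m).erase (m, 0),
            K ^ (m 0 + m 1) * |d.coeff x.2| := by
            refine Finset.sum_le_sum fun x hx => ?_
            rw [Finset.mem_erase, Finset.HasAntidiagonal.mem_antidiagonal] at hx
            have hne : x.2 ≠ 0 := fun e => hx.1 (Prod.ext (by simpa [e] using hx.2) e)
            have hlt : x.1 < m := by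
              refine lt_of_le_of_ne (hx.2 ▸ le_self_add) fun e => hne ?_
              have := hx.2
              rw [e] at this
              simpa using this
            rw [abs_mul]
            refine mul_le_mul_of_nonneg_right ((ih _ hlt).trans ?_) (abs_nonneg _)
            apply pow_le_pow_right₀ hK1
            have a0 : x.1 0 + x.2 0 = m 0 := by rw [← hx.2]; simp
            have a1 : x.1 1 + x.2 1 = m 1 := by rw [← hx.2]; simp
            have : x.2 0 ≠ 0 ∨ x.2 1 ≠ 0 := by
              by_contra hc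
              push Not at hc
              exact hne (ext2 hc.1 hc.2)
            omega
        _ ≤ _ := by
            rw [← Finset.mul_sum]
            refine mul_le_mul_of_nonneg_left ?_ (by positivity)
            have inj : Set.InjOn (fun x : (Fin 2 →₀ ℕ) × (Fin 2 →₀ ℕ) => x.2)
                ((Finset.HasAntidiagonal.antidiagonal m).erase (m, 0) : Finset _) := by
              intro x hx y hy hxy
              have hx' := Finset.HasAntidiagonal.mem_antidiagonal.1 (Finset.mem_of_mem_erase hx)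
              have hy' := Finset.HasAntidiagonal.mem_antidiagonal.1 (Finset.mem_of_mem_erase hy)
              have hxy' : x.2 = y.2 := hxy
              refine Prod.ext ?_ hxy'
              rw [hxy', ← hy'] at hx'
              exact add_right_cancel hx'
            rw [← Finset.sum_image (f := fun a => |d.coeff a|) inj]
            rw [← Finset.sum_filter_ne_zero]
            refine Finset.sum_le_sum_of_subset_of_nonneg (fun a ha => ?_) fun _ _ _ => abs_nonneg _
            simpa using (Finset.mem_filter.1 ha).2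
    have h2 : |coeff m R| * |d.coeff 0| ≤ B + K ^ (m 0 + m 1) * A := by
      rw [← abs_mul, ← sub_eq_iff_eq_add.2 e]
      exact (abs_sub _ _).trans (add_le_add (hBm m) h1)
    have h3 : 1 ≤ K ^ (m 0 + m 1) := one_le_pow₀ hK1
    refine le_of_mul_le_mul_right (h2.trans ?_) hpos
    rw [pow_succ, mul_assoc]
    nlinarith

theorem coeff_X_mul' (i : Fin 2) (R : M2) (m : Fin 2 →₀ ℕ) :
    coeff m (X i * R) = if m i = 0 then 0 else coeff (m - Finsupp.single i 1) R := by
  rw [X_def, coeff_monomial_mul, one_mul]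
  by_cases h : m i = 0
  · rw [if_pos h, if_neg (by rw [Finsupp.single_le_iff]; omega)]
  · rw [if_neg h, if_pos (by rw [Finsupp.single_le_iff]; omega)]

def E1 (K : ℚ) : M2 := fun m => K ^ (m 0 + m 1)
def E0 (K : ℚ) : M2 := fun m => if m 0 = 0 then K ^ (m 1) else 0

theorem coeff_E1 (K : ℚ) (m : Fin 2 →₀ ℕ) : coeff m (E1 K) = K ^ (m 0 + m 1) := rfl
theorem coeff_E0 (K : ℚ) (m : Fin 2 →₀ ℕ) :
    coeff m (E0 K) = if m 0 = 0 then K ^ (m 1) else 0 := rfl

theorem E1_rat (K : ℚ) : IsRat (E1 K) := by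
  have h1 : E1 K - C K * (X 0 * E1 K) = E0 K := by
    ext m
    rw [map_sub, coeff_C_mul, coeff_X_mul', coeff_E1, coeff_E1, coeff_E0]
    split_ifs with h
    · simp [h]
    · obtain ⟨t, ht⟩ := Nat.exists_eq_succ_of_ne_zero h
      simp [ht]
      ring
  have h2 : E0 K - C K * (X 1 * E0 K) = 1 := by
    ext m
    rw [map_sub, coeff_C_mul, coeff_X_mul', coeff_E0, coeff_E0, coeff_one]
    by_cases h : m 1 = 0
    · by_cases h' : m 0 = 0
      · rw [if_pos (ext2 h' h)]; simp [h, h']
      · rw [if_neg (fun e : m = 0 => h' (by simp [e]))]; simp [h, h']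
    · rw [if_neg (fun e : m = 0 => h (by simp [e]))]
      obtain ⟨t, ht⟩ := Nat.exists_eq_succ_of_ne_zero h
      by_cases h' : m 0 = 0
      · simp [ht, h']
        ring
      · simp [ht, h']
  refine ⟨(1 + C (-K) * X 0) * (1 + C (-K) * X 1),
    (isPoly_one.add ((isPoly_C _).mul (isPoly_X _))).mul
      (isPoly_one.add ((isPoly_C _).mul (isPoly_X _))), by simp, ?_⟩
  have : E1 K * ((1 + C (-K) * X 0) * (1 + C (-K) * X 1)) = 1 := by
    rw [map_neg]
    linear_combination (1 - C K * X 1) * h1 + h2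
  rw [this]
  exact isPoly_one

theorem E2_rat (K : ℚ) : IsRat (σ (PowerSeries.mk fun n => K ^ n)) := by
  refine ⟨1 + C (-K) * (X 0 * X 1),
    isPoly_one.add ((isPoly_C _).mul ((isPoly_X _).mul (isPoly_X _))), by simp, ?_⟩
  have h : (PowerSeries.mk fun n => K ^ n) * (1 + PowerSeries.C (-K) * PowerSeries.X) = 1 := by
    ext n
    rcases n with _ | n
    · simp [mul_add]
    · rw [mul_add, mul_one, ← mul_assoc, map_add, PowerSeries.coeff_succ_mul_X,
        PowerSeries.coeff_mul_C]
      simp [pow_succ, PowerSeries.coeff_one]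
  rw [← σ_X, ← σ_C, ← map_mul, ← map_one σ, ← map_add, ← map_mul, h, map_one]
  exact isPoly_one

/-- For every F ∈ ℚ⟦x⟧ with all coefficients ≥ 0 that is algebraic over ℚ[x] (nonzero p ∈ ℚ[x][T] with p(F)=0), there is a bivariate rational power series R = P/Q (Q(0)≠0) with all Taylor coefficients ≥ 0 whose diagonal coefficients [x^n y^n]R equal [x^n]F. -/
theorem result :
    ∀ F : PowerSeries ℚ,
      (∀ n : ℕ, 0 ≤ PowerSeries.coeff n F) →
      (∃ p : Polynomial (Polynomial ℚ), p ≠ 0 ∧
          Polynomial.eval₂ Polynomial.coeToPowerSeries.ringHom F p = 0) →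
      ∃ R : MvPowerSeries (Fin 2) ℚ,
        (∃ P Q : MvPolynomial (Fin 2) ℚ,
            MvPolynomial.constantCoeff Q ≠ 0 ∧
            R * (Q : MvPowerSeries (Fin 2) ℚ) = (P : MvPowerSeries (Fin 2) ℚ)) ∧
        (∀ m : Fin 2 →₀ ℕ, 0 ≤ MvPowerSeries.coeff m R) ∧
        (∀ n : ℕ, MvPowerSeries.coeff (Finsupp.single 0 n + Finsupp.single 1 n) R
            = PowerSeries.coeff n F) := by
  rintro F hF ⟨p, hp, h⟩
  obtain ⟨R, hR, hd⟩ := diag_rat F p hp h
  obtain ⟨K, hK, hb⟩ := bound R hR
  have hc : ∀ m : Fin 2 →₀ ℕ, coeff m (R + (C K * E1 K +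
      C (-K) * σ (PowerSeries.mk fun n => (K ^ 2) ^ n))) =
      coeff m R + if m 0 = m 1 then 0 else K ^ (m 0 + m 1 + 1) := by
    intro m
    rw [map_add, map_add, coeff_C_mul, coeff_C_mul, coeff_E1, coeff_σ]
    split_ifs with h
    · rw [PowerSeries.coeff_mk, ← h]; ring
    · ring
  refine ⟨R + (C K * E1 K + C (-K) * σ (PowerSeries.mk fun n => (K ^ 2) ^ n)), ?_, ?_, ?_⟩
  · obtain ⟨Q, ⟨q, rfl⟩, h0, ⟨r, hr⟩⟩ := hR.add (((isPoly_C K).isRat.mul (E1_rat K)).add
      ((isPoly_C (-K)).isRat.mul (E2_rat (K ^ 2))))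
    refine ⟨r, q, ?_, hr.symm⟩
    rwa [← coeff_zero_eq_constantCoeff_apply, MvPolynomial.coeff_coe] at h0
  · intro m
    rw [hc]
    split_ifs with h
    · rw [show m = dg (m 0) from ext2 (by simp) (by simp [h]), hd, add_zero]
      exact hF _
    · have := abs_le.1 (hb m)
      linarith
  · intro n
    have := hc (dg n)
    rw [if_pos (by simp), add_zero, hd] at this
    exact this

end Pool.Agent.S08323
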