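import Pool.Statements.S08353
-- import your own Pool.Agent.* helpers here

set_option autoImplicit false
open Pool Pool.MP_4150d6_co

namespace Pool.Agent.S08353

/-- the parts of the complete tripartite graph with parts of sizes 3, 2, 2 -/
def p : Fin 7 → ℕ := ![0, 0, 0, 1, 1, 2, 2]

def G : SimpleGraph (Fin 7) where
  Adj u v := p u ≠ p v
  symm := ⟨fun _ _ h => h.symm⟩
  loopless := ⟨fun _ h => h rfl⟩

instance : DecidableRel G.Adj := fun u v => inferInstanceAs (Decidable (p u ≠ p v))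

def ok1 (d e g h a : ℕ) : Bool :=
  (a != d) && (a != e) && (a != g) && (a != h) && (a + d != d + g) && (a + d != d + h) && (a + d != e + g) && (a + d != e + h) && (a + e != d + g) && (a + e != d + h) && (a + e != e + g) && (a + e != e + h) && (a + g != d + g) && (a + g != d + h) && (a + g != e + g) && (a + g != e + h) && (a + h != d + g) && (a + h != d + h) && (a + h != e + g) && (a + h != e + h) && (decide (a + e ≤ d + g + 15)) && (decide (a + h ≤ d + g + 15)) && (decide (e + h ≤ a + d + 15)) && (decide (e + h ≤ d + g + 15))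

def ok2 (d e g h a b : ℕ) : Bool :=
  (decide (b + e ≤ a + d + 15)) && (decide (b + e ≤ a + g + 15)) && (decide (b + h ≤ a + d + 15)) && (decide (b + h ≤ a + g + 15)) && (a + d != b + e) && (a + d != b + g) && (a + d != b + h) && (a + e != b + d) && (a + e != b + g) && (a + e != b + h) && (a + g != b + d) && (a + g != b + e) && (a + g != b + h) && (a + h != b + d) && (a + h != b + e) && (a + h != b + g)

def chk (d e g h : ℕ) (L : List ℕ) : Bool :=
  L.all fun a => L.all fun b => !(decide (a < b) && ok2 d e g h a b) ||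
    L.all fun c => !(decide (b < c) && ok2 d e g h a c && ok2 d e g h b c)

def allOk : Bool :=
  (List.range 16).all fun d => (List.range 16).all fun e => !(decide (d < e)) ||
    (List.range 16).all fun g => !(decide (d < g)) || (List.range 16).all fun h =>
      !(decide (g < h) && e != g && e != h && d + h != e + g) ||
        chk d e g h ((List.range 16).filter (ok1 d e g h))

theorem allOk_eq : allOk = true := by decide +kernel

theorem key (d e g h a b c : ℕ) (hd : d < e) (he : e < 16) (hdg : d < g) (hg : g < h)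
    (hh : h < 16) (h1 : e ≠ g) (h2 : e ≠ h) (h3 : d + h ≠ e + g) (hab : a < b) (hbc : b < c)
    (hc : c < 16) (oa : ok1 d e g h a = true) (ob : ok1 d e g h b = true)
    (oc : ok1 d e g h c = true) (ab : ok2 d e g h a b = true) (ac : ok2 d e g h a c = true)
    (bc : ok2 d e g h b c = true) : False := by
  have H := allOk_eq
  simp only [allOk, List.all_eq_true, List.mem_range, Bool.or_eq_true, Bool.not_eq_true',
    decide_eq_false_iff_not] at H
  rcases H d (by omega) e he with H | H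
  · exact H hd
  rcases H g (by omega) with H | H
  · exact H hdg
  rcases H h hh with H | H
  · simp [hg, h1, h2, h3] at H
  simp only [chk, List.all_eq_true, List.mem_filter, List.mem_range, Bool.or_eq_true,
    Bool.not_eq_true'] at H
  rcases H a ⟨by omega, oa⟩ b ⟨by omega, ob⟩ with H | H
  · simp [hab, ab] at H
  have := H c ⟨hc, oc⟩
  simp [hbc, ac, bc] at this

section
variable {f : Fin 7 → ℕ} (inj : Function.Injective f)
  (rng : ∀ u v x y, p u ≠ p v → p x ≠ p y → f u + f v ≤ f x + f y + 15)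
  (dist : ∀ u v x y, p u ≠ p v → p x ≠ p y → ¬((u = x ∧ v = y) ∨ (u = y ∧ v = x)) →
    f u + f v ≠ f x + f y)
include inj rng dist

theorem L1 (d e g h a : Fin 7) (i j : ℕ) (hi : i ≠ 0) (hj : j ≠ 0) (hij : i ≠ j)
    (hd : p d = i) (he : p e = i) (hg : p g = j) (hh : p h = j) (ha : p a = 0) :
    ok1 (f d) (f e) (f g) (f h) (f a) = true := by
  simp only [ok1, Bool.and_eq_true, bne_iff_ne, decide_eq_true_eq]
  refine ⟨⟨⟨⟨⟨⟨⟨⟨⟨⟨⟨⟨⟨⟨⟨⟨⟨⟨⟨⟨⟨⟨⟨?_, ?_⟩, ?_⟩, ?_⟩, ?_⟩, ?_⟩, ?_⟩, ?_⟩, ?_⟩, ?_⟩, ?_⟩, ?_⟩, ?_⟩, ?_⟩, ?_⟩, ?_⟩, ?_⟩, ?_⟩, ?_⟩, ?_⟩, ?_⟩, ?_⟩, ?_⟩, ?_⟩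
  · exact inj.ne (by rintro rfl; omega)
  · exact inj.ne (by rintro rfl; omega)
  · exact inj.ne (by rintro rfl; omega)
  · exact inj.ne (by rintro rfl; omega)
  · exact dist _ _ _ _ (by omega) (by omega) (by rintro (⟨h1, h2⟩ | ⟨h1, h2⟩) <;> (have := congrArg p h1; omega))
  · exact dist _ _ _ _ (by omega) (by omega) (by rintro (⟨h1, h2⟩ | ⟨h1, h2⟩) <;> (have := congrArg p h1; omega))
  · exact dist _ _ _ _ (by omega) (by omega) (by rintro (⟨h1, h2⟩ | ⟨h1, h2⟩) <;> (have := congrArg p h1; omega))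
  · exact dist _ _ _ _ (by omega) (by omega) (by rintro (⟨h1, h2⟩ | ⟨h1, h2⟩) <;> (have := congrArg p h1; omega))
  · exact dist _ _ _ _ (by omega) (by omega) (by rintro (⟨h1, h2⟩ | ⟨h1, h2⟩) <;> (have := congrArg p h1; omega))
  · exact dist _ _ _ _ (by omega) (by omega) (by rintro (⟨h1, h2⟩ | ⟨h1, h2⟩) <;> (have := congrArg p h1; omega))
  · exact dist _ _ _ _ (by omega) (by omega) (by rintro (⟨h1, h2⟩ | ⟨h1, h2⟩) <;> (have := congrArg p h1; omega))
  · exact dist _ _ _ _ (by omega) (by omega) (by rintro (⟨h1, h2⟩ | ⟨h1, h2⟩) <;> (have := congrArg p h1; omega))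
  · exact dist _ _ _ _ (by omega) (by omega) (by rintro (⟨h1, h2⟩ | ⟨h1, h2⟩) <;> (have := congrArg p h1; omega))
  · exact dist _ _ _ _ (by omega) (by omega) (by rintro (⟨h1, h2⟩ | ⟨h1, h2⟩) <;> (have := congrArg p h1; omega))
  · exact dist _ _ _ _ (by omega) (by omega) (by rintro (⟨h1, h2⟩ | ⟨h1, h2⟩) <;> (have := congrArg p h1; omega))
  · exact dist _ _ _ _ (by omega) (by omega) (by rintro (⟨h1, h2⟩ | ⟨h1, h2⟩) <;> (have := congrArg p h1; omega))
  · exact dist _ _ _ _ (by omega) (by omega) (by rintro (⟨h1, h2⟩ | ⟨h1, h2⟩) <;> (have := congrArg p h1; omega))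
  · exact dist _ _ _ _ (by omega) (by omega) (by rintro (⟨h1, h2⟩ | ⟨h1, h2⟩) <;> (have := congrArg p h1; omega))
  · exact dist _ _ _ _ (by omega) (by omega) (by rintro (⟨h1, h2⟩ | ⟨h1, h2⟩) <;> (have := congrArg p h1; omega))
  · exact dist _ _ _ _ (by omega) (by omega) (by rintro (⟨h1, h2⟩ | ⟨h1, h2⟩) <;> (have := congrArg p h1; omega))
  · exact rng _ _ _ _ (by omega) (by omega)
  · exact rng _ _ _ _ (by omega) (by omega)
  · exact rng _ _ _ _ (by omega) (by omega)
  · exact rng _ _ _ _ (by omega) (by omega)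

theorem L2 (d e g h a b : Fin 7) (i j : ℕ) (hi : i ≠ 0) (hj : j ≠ 0)
    (hd : p d = i) (he : p e = i) (hg : p g = j) (hh : p h = j) (ha : p a = 0) (hb : p b = 0)
    (hab : a ≠ b) : ok2 (f d) (f e) (f g) (f h) (f a) (f b) = true := by
  simp only [ok2, Bool.and_eq_true, bne_iff_ne, decide_eq_true_eq]
  refine ⟨⟨⟨⟨⟨⟨⟨⟨⟨⟨⟨⟨⟨⟨⟨?_, ?_⟩, ?_⟩, ?_⟩, ?_⟩, ?_⟩, ?_⟩, ?_⟩, ?_⟩, ?_⟩, ?_⟩, ?_⟩, ?_⟩, ?_⟩, ?_⟩, ?_⟩
  · exact rng _ _ _ _ (by omega) (by omega)
  · exact rng _ _ _ _ (by omega) (by omega)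
  · exact rng _ _ _ _ (by omega) (by omega)
  · exact rng _ _ _ _ (by omega) (by omega)
  · exact dist _ _ _ _ (by omega) (by omega) (by rintro (⟨h1, h2⟩ | ⟨h1, h2⟩); exacts [hab h1, by have := congrArg p h1; omega])
  · exact dist _ _ _ _ (by omega) (by omega) (by rintro (⟨h1, h2⟩ | ⟨h1, h2⟩); exacts [hab h1, by have := congrArg p h1; omega])
  · exact dist _ _ _ _ (by omega) (by omega) (by rintro (⟨h1, h2⟩ | ⟨h1, h2⟩); exacts [hab h1, by have := congrArg p h1; omega])
  · exact dist _ _ _ _ (by omega) (by omega) (by rintro (⟨h1, h2⟩ | ⟨h1, h2⟩); exacts [hab h1, by have := congrArg p h1; omega])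
  · exact dist _ _ _ _ (by omega) (by omega) (by rintro (⟨h1, h2⟩ | ⟨h1, h2⟩); exacts [hab h1, by have := congrArg p h1; omega])
  · exact dist _ _ _ _ (by omega) (by omega) (by rintro (⟨h1, h2⟩ | ⟨h1, h2⟩); exacts [hab h1, by have := congrArg p h1; omega])
  · exact dist _ _ _ _ (by omega) (by omega) (by rintro (⟨h1, h2⟩ | ⟨h1, h2⟩); exacts [hab h1, by have := congrArg p h1; omega])
  · exact dist _ _ _ _ (by omega) (by omega) (by rintro (⟨h1, h2⟩ | ⟨h1, h2⟩); exacts [hab h1, by have := congrArg p h1; omega])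
  · exact dist _ _ _ _ (by omega) (by omega) (by rintro (⟨h1, h2⟩ | ⟨h1, h2⟩); exacts [hab h1, by have := congrArg p h1; omega])
  · exact dist _ _ _ _ (by omega) (by omega) (by rintro (⟨h1, h2⟩ | ⟨h1, h2⟩); exacts [hab h1, by have := congrArg p h1; omega])
  · exact dist _ _ _ _ (by omega) (by omega) (by rintro (⟨h1, h2⟩ | ⟨h1, h2⟩); exacts [hab h1, by have := congrArg p h1; omega])
  · exact dist _ _ _ _ (by omega) (by omega) (by rintro (⟨h1, h2⟩ | ⟨h1, h2⟩); exacts [hab h1, by have := congrArg p h1; omega])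

theorem L3 (hb : ∀ v, f v < 16) (d e g h a b c : Fin 7) (i j : ℕ) (hi : i ≠ 0) (hj : j ≠ 0)
    (hij : i ≠ j) (hd : p d = i) (he : p e = i) (hg : p g = j) (hh : p h = j) (ha : p a = 0)
    (hb' : p b = 0) (hc : p c = 0) (h1 : f d < f e) (h2 : f d < f g) (h3 : f g < f h)
    (h4 : f a < f b) (h5 : f b < f c) : False := by
  have n1 : a ≠ b := by rintro rfl; omega
  have n2 : a ≠ c := by rintro rfl; omega
  have n3 : b ≠ c := by rintro rfl; omega
  exact key (f d) (f e) (f g) (f h) (f a) (f b) (f c) h1 (hb _) h2 h3 (hb _)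
    (inj.ne (by rintro rfl; omega)) (inj.ne (by rintro rfl; omega))
    (dist _ _ _ _ (by omega) (by omega) (by rintro (⟨q1, q2⟩ | ⟨q1, q2⟩); exacts [by rw [q1] at h1; omega, by have := congrArg p q1; omega]))
    h4 h5 (hb _)
    (L1 inj rng dist d e g h a i j hi hj hij hd he hg hh ha)
    (L1 inj rng dist d e g h b i j hi hj hij hd he hg hh hb')
    (L1 inj rng dist d e g h c i j hi hj hij hd he hg hh hc)
    (L2 inj rng dist d e g h a b i j hi hj hd he hg hh ha hb' n1)
    (L2 inj rng dist d e g h a c i j hi hj hd he hg hh ha hc n2)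
    (L2 inj rng dist d e g h b c i j hi hj hd he hg hh hb' hc n3)

theorem L4 (hb : ∀ v, f v < 16) : False := by
  obtain ⟨a, b, c, ha, hb', hc, h4, h5⟩ : ∃ a b c, p a = 0 ∧ p b = 0 ∧ p c = 0 ∧
      f a < f b ∧ f b < f c := by
    have n1 : f 0 ≠ f 1 := inj.ne (by decide)
    have n2 : f 0 ≠ f 2 := inj.ne (by decide)
    have n3 : f 1 ≠ f 2 := inj.ne (by decide)
    by_cases c1 : f 0 < f 1 <;> by_cases c2 : f 0 < f 2 <;> by_cases c3 : f 1 < f 2
    · exact ⟨0, 1, 2, rfl, rfl, rfl, by omega, by omega⟩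
    · exact ⟨0, 2, 1, rfl, rfl, rfl, by omega, by omega⟩
    · omega
    · exact ⟨2, 0, 1, rfl, rfl, rfl, by omega, by omega⟩
    · exact ⟨1, 0, 2, rfl, rfl, rfl, by omega, by omega⟩
    · omega
    · exact ⟨1, 2, 0, rfl, rfl, rfl, by omega, by omega⟩
    · exact ⟨2, 1, 0, rfl, rfl, rfl, by omega, by omega⟩
  obtain ⟨d, e, hd, he, h1⟩ : ∃ d e, p d = 1 ∧ p e = 1 ∧ f d < f e := by
    have n1 : f 3 ≠ f 4 := inj.ne (by decide)
    by_cases c1 : f 3 < f 4
    · exact ⟨3, 4, rfl, rfl, c1⟩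
    · exact ⟨4, 3, rfl, rfl, by omega⟩
  obtain ⟨g, h, hg, hh, h3⟩ : ∃ d e, p d = 2 ∧ p e = 2 ∧ f d < f e := by
    have n1 : f 5 ≠ f 6 := inj.ne (by decide)
    by_cases c1 : f 5 < f 6
    · exact ⟨5, 6, rfl, rfl, c1⟩
    · exact ⟨6, 5, rfl, rfl, by omega⟩
  have n1 : f d ≠ f g := inj.ne (by rintro rfl; omega)
  by_cases c1 : f d < f g
  · exact L3 inj rng dist hb d e g h a b c 1 2 (by decide) (by decide) (by decide) hd he hg hh ha hb'
      hc h1 c1 h3 h4 h5
  · exact L3 inj rng dist hb g h d e a b c 2 1 (by decide) (by decide) (by decide) hg hh hd he ha hb'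
      hc h3 (by omega) h1 h4 h5
end

theorem card_edges : G.edgeFinset.card = 16 := by decide +kernel


/-- Some finite simple graph with q ≥ 1 edges is harmonious (vertex labels in Z_q, injective except one repeat allowed for trees, distinct edge sums mod q) but has no sequential labeling (injective labels in 0..q−1, or 0..q for trees, with edge sums exactly q consecutive integers). -/
theorem result :
    ∃ (n : ℕ) (G : SimpleGraph (Fin n)) (q : ℕ),
      Nat.card G.edgeSet = q ∧ 1 ≤ q ∧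
      (∃ f : Fin n → ZMod q,
        (Function.Injective f ∨ (G.IsTree ∧ Function.Surjective f)) ∧
        ∀ a b c d : Fin n, G.Adj a b → G.Adj c d →
          f a + f b = f c + f d → s(a, b) = s(c, d)) ∧
      ¬ (∃ (f : Fin n → ℕ) (m : ℕ),
          Function.Injective f ∧
          ((∀ v, f v < q) ∨ (G.IsTree ∧ ∀ v, f v ≤ q)) ∧
          (∀ a b : Fin n, G.Adj a b → m ≤ f a + f b ∧ f a + f b < m + q) ∧
          ∀ a b c d : Fin n, G.Adj a b → G.Adj c d →
            f a + f b = f c + f d → s(a, b) = s(c, d)) := by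
  refine ⟨7, G, 16, ?_, by norm_num, ⟨![3, 7, 13, 0, 9, 1, 2], Or.inl (by decide +kernel),
    by decide +kernel⟩, ?_⟩
  · rw [Nat.card_eq_fintype_card, ← SimpleGraph.edgeFinset_card, card_edges]
  · rintro ⟨f, m, inj, hb, hr, hd⟩
    have hb' : ∀ v, f v < 16 := by
      rcases hb with hb | ⟨ht, _⟩
      · exact hb
      · have := ht.card_edgeFinset
        rw [card_edges] at this
        simp at this
    refine L4 inj ?_ ?_ hb'
    · intro u v x y h1 h2
      have := hr u v h1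
      have := hr x y h2
      omega
    · intro u v x y h1 h2 h3 h4
      exact h3 (Sym2.eq_iff.1 (hd u v x y h1 h2 h4))

end Pool.Agent.S08353
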