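import Pool.Statements.S08412

set_option autoImplicit false
open MeasureTheory
open Pool Pool.MP_436c60_co

namespace Pool.Agent.S08412

/-- item values (the 3 x 9 instance of Feige, Sapir and Tauber, padded by three null items) -/
def v : Fin 3 → Fin 12 → ℕ :=
  ![![1, 16, 23, 26, 4, 10, 12, 19, 9, 0, 0, 0], ![1, 16, 22, 26, 4, 9, 13, 20, 9, 0, 0, 0],
    ![1, 15, 23, 25, 4, 10, 13, 20, 9, 0, 0, 0]]

/-- balanced partitions witnessing the maximin shares -/
def part : Fin 3 → Fin 3 → Fin 4 → Fin 12 :=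
  ![![![0, 1, 2, 9], ![3, 4, 5, 10], ![6, 7, 8, 11]],
    ![![0, 3, 6, 9], ![1, 4, 7, 10], ![2, 5, 8, 11]],
    ![![1, 3, 9, 10], ![2, 4, 6, 11], ![0, 5, 7, 8]]]

lemma part_inj : ∀ i p p' l l', part i p l = part i p' l' → p = p' ∧ l = l' := by decide

lemma part_val : ∀ i p, 840 ≤ ∑ l, (200 + v i (part i p l)) := by decide

lemma v_le : ∀ i j, v i j ≤ 26 := by decide

def S (i a0 a1 a2 a3 a4 a5 a6 a7 a8 : Fin 3) : ℕ :=
  (if a0 = i then v i 0 else 0) + (if a1 = i then v i 1 else 0) + (if a2 = i then v i 2 else 0) +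
  (if a3 = i then v i 3 else 0) + (if a4 = i then v i 4 else 0) + (if a5 = i then v i 5 else 0) +
  (if a6 = i then v i 6 else 0) + (if a7 = i then v i 7 else 0) + (if a8 = i then v i 8 else 0)

lemma dec : ∀ a0 a1 a2 a3 a4 a5 a6 a7 a8 : Fin 3, ∃ i, S i a0 a1 a2 a3 a4 a5 a6 a7 a8 < 40 := by
  decide +kernel

lemma dec2 (o : Fin 12 → Fin 3) : ∃ i, ∑ j, (if o j = i then v i j else 0) < 40 := by
  obtain ⟨i, hi⟩ := dec (o 0) (o 1) (o 2) (o 3) (o 4) (o 5) (o 6) (o 7) (o 8)
  refine ⟨i, ?_⟩
  have h9 : v i 9 = 0 := by clear * -; revert i; decide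
  have h10 : v i 10 = 0 := by clear * -; revert i; decide
  have h11 : v i 11 = 0 := by clear * -; revert i; decide
  have : ∑ j, (if o j = i then v i j else 0) =
      S i (o 0) (o 1) (o 2) (o 3) (o 4) (o 5) (o 6) (o 7) (o 8) +
      ((if o 9 = i then v i 9 else 0) + (if o 10 = i then v i 10 else 0) +
        (if o 11 = i then v i 11 else 0)) := by
    simp only [Fin.sum_univ_succ, S, Fin.sum_univ_zero]
    simp only [add_assoc, add_zero]
    rfl
  rw [this, h9, h10, h11]
  simpa using hi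

lemma fin_core (J : Fin 3 → Fin 4 → Fin 12) (t : Fin 3 → Fin 12 → ℝ) (h0 : ∀ i j, 0 ≤ t i j)
    (h1 : ∀ j, ∑ i, t i j ≤ 1) (h2 : ∀ i j, (∀ l, J i l ≠ j) → t i j = 0)
    (h3 : ∀ i, (840 : ℝ) ≤ ∑ j, ((200 + v i j : ℕ) : ℝ) * t i j) : False := by
  by_cases hs : Function.Surjective (fun p : Fin 3 × Fin 4 => J p.1 p.2)
  · have hb : Function.Bijective (fun p : Fin 3 × Fin 4 => J p.1 p.2) :=
      (Fintype.bijective_iff_surjective_and_card _).mpr ⟨hs, by simp⟩
    let e := Equiv.ofBijective _ hb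
    obtain ⟨i, hi⟩ := dec2 (fun j => (e.symm j).1)
    have k1 : ∀ j, ((200 + v i j : ℕ) : ℝ) * t i j ≤
        ((if (e.symm j).1 = i then 200 else 0 : ℕ) : ℝ) +
          ((if (e.symm j).1 = i then v i j else 0 : ℕ) : ℝ) := by
      intro j
      split_ifs with h
      · have : t i j ≤ 1 := le_trans (Finset.single_le_sum (f := fun i => t i j)
          (fun i _ => h0 i j) (Finset.mem_univ i)) (h1 j)
        have h4 : (0 : ℝ) ≤ ((200 + v i j : ℕ) : ℝ) := by positivity
        have := mul_le_mul_of_nonneg_left this h4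
        push_cast at this ⊢
        linarith
      · rw [h2 i j]
        · simp
        · intro l hl
          apply h
          have : e (i, l) = j := hl
          rw [← this, e.symm_apply_apply]
    have k2 := (h3 i).trans (Finset.sum_le_sum fun j _ => k1 j)
    rw [Finset.sum_add_distrib, ← Nat.cast_sum, ← Nat.cast_sum] at k2
    have k3 : ∑ j, (if (e.symm j).1 = i then 200 else 0 : ℕ) = 800 := by
      rw [← Equiv.sum_comp e]
      simp only [Equiv.symm_apply_apply, Fintype.sum_prod_type]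
      revert i
      intro i _ _ _
      fin_cases i <;> rfl
    rw [k3] at k2
    have k4 : ((∑ j, (if (e.symm j).1 = i then v i j else 0) : ℕ) : ℝ) < 40 := by
      exact_mod_cast hi
    push_cast at k2 k4
    linarith
  · unfold Function.Surjective at hs
    push Not at hs
    obtain ⟨j0, hj0⟩ := hs
    have k1 : ∑ i : Fin 3, (840 : ℝ) ≤ ∑ i, ∑ j, ((200 + v i j : ℕ) : ℝ) * t i j :=
      Finset.sum_le_sum fun i _ => h3 i
    rw [Finset.sum_comm] at k1
    have k2 : ∀ j, ∑ i, ((200 + v i j : ℕ) : ℝ) * t i j ≤ 226 - if j = j0 then 226 else 0 := by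
      intro j
      split_ifs with h
      · rw [h]
        simp [fun i => h2 i j0 (fun l => hj0 (i, l))]
      · have : ∑ i, ((200 + v i j : ℕ) : ℝ) * t i j ≤ ∑ i, 226 * t i j := by
          refine Finset.sum_le_sum fun i _ => mul_le_mul_of_nonneg_right ?_ (h0 i j)
          have := v_le i j
          exact_mod_cast (by omega : 200 + v i j ≤ 226)
        rw [← Finset.mul_sum] at this
        linarith [h1 j]
    have k3 := k1.trans (Finset.sum_le_sum fun j _ => k2 j)
    rw [Finset.sum_sub_distrib] at k3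
    simp at k3
    linarith

/-- the islands -/
def I (j : Fin 12) : Set ℝ := Set.Icc (2 * ((j : ℕ) : ℝ)) (2 * ((j : ℕ) : ℝ) + 1)

lemma I_vol (j : Fin 12) : volume (I j) = 1 := by simp [I]

lemma I_disj (j j' : Fin 12) (x : ℝ) (h : x ∈ I j) (h' : x ∈ I j') : j = j' := by
  simp only [I, Set.mem_Icc] at h h'
  have a1 : (2 * (j : ℕ) : ℝ) ≤ 2 * (j' : ℕ) + 1 := by linarith
  have a2 : (2 * (j' : ℕ) : ℝ) ≤ 2 * (j : ℕ) + 1 := by linarith
  have b1 : 2 * (j : ℕ) ≤ 2 * (j' : ℕ) + 1 := by exact_mod_cast a1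
  have b2 : 2 * (j' : ℕ) ≤ 2 * (j : ℕ) + 1 := by exact_mod_cast a2
  apply Fin.ext
  omega

/-- the value measures -/
noncomputable def mu (i : Fin 3) : Measure ℝ :=
  ∑ j : Fin 12, ((200 + v i j : ℕ) : ENNReal) • volume.restrict (I j)

lemma mu_apply (i : Fin 3) (X : Set ℝ) :
    mu i X = ∑ j : Fin 12, ((200 + v i j : ℕ) : ENNReal) * volume.restrict (I j) X := by
  simp [mu, Measure.finsetSum_apply]

lemma res_le (j : Fin 12) (X : Set ℝ) : volume.restrict (I j) X ≤ 1 := by
  refine (measure_mono (Set.subset_univ X)).trans ?_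
  rw [Measure.restrict_apply_univ, I_vol]

/-- The negation of the preceding statement: For m,n,k ≥ 2 and any n finite measures with densities on a cake of m separated islands, there is an allocation giving each agent at most k intervals, each within one island, worth at least that agent's k-interval maximin share. -/
theorem result :
    ¬ (∀ m n k : ℕ, 2 ≤ m → 2 ≤ n → 2 ≤ k →
    ∀ μ : Fin n → Measure ℝ, (∀ i, IsFiniteMeasure (μ i)) → (∀ i, μ i ≪ volume) →
    ∃ a b : Fin n → Fin k → ℝ,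
      (∀ i l, ∃ j : ℕ, j < m ∧
        Set.Ioo (a i l) (b i l) ⊆ Set.Icc (2 * (j : ℝ)) (2 * (j : ℝ) + 1)) ∧
      (∀ i i', i ≠ i' →
        Disjoint (⋃ l, Set.Ioo (a i l) (b i l)) (⋃ l, Set.Ioo (a i' l) (b i' l))) ∧
      ∀ i, ∀ c d : Fin n → Fin k → ℝ,
        (∀ p l, ∃ j : ℕ, j < m ∧
          Set.Ioo (c p l) (d p l) ⊆ Set.Icc (2 * (j : ℝ)) (2 * (j : ℝ) + 1)) →
        (∀ p p', p ≠ p' →
          Disjoint (⋃ l, Set.Ioo (c p l) (d p l)) (⋃ l, Set.Ioo (c p' l) (d p' l))) →
        ∃ p, μ i (⋃ l, Set.Ioo (c p l) (d p l)) ≤ μ i (⋃ l, Set.Ioo (a i l) (b i l))) := by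
  intro H
  obtain ⟨a, b, h1, h2, h3⟩ := H 12 3 4 (by norm_num) (by norm_num) (by norm_num) mu (by
    intro i
    constructor
    rw [mu_apply]
    refine ENNReal.sum_lt_top.mpr fun j _ => ENNReal.mul_lt_top (by simp) ?_
    exact lt_of_le_of_lt (res_le j _) (by simp)) (by
    intro i X hX
    rw [mu_apply]
    refine Finset.sum_eq_zero fun j _ => ?_
    rw [Measure.absolutelyContinuous_restrict hX, mul_zero])
  choose J hJ hJ2 using h1
  set X : Fin 3 → Set ℝ := fun i => ⋃ l, Set.Ioo (a i l) (b i l) with hX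
  have hXm : ∀ i, MeasurableSet (X i) := fun i => MeasurableSet.iUnion fun l => measurableSet_Ioo
  have hfin : ∀ i j, volume.restrict (I j) (X i) ≠ ⊤ := fun i j =>
    (lt_of_le_of_lt (res_le j _) (by simp)).ne
  refine fin_core (fun i l => ⟨J i l, hJ i l⟩) (fun i j => (volume.restrict (I j) (X i)).toReal)
    (fun i j => ENNReal.toReal_nonneg) ?_ ?_ ?_
  · intro j
    have := sum_measure_le_measure_univ (μ := volume.restrict (I j)) (s := Finset.univ) (t := X)
      (fun i _ => (hXm i).nullMeasurableSet) (fun i _ i' _ h => (h2 i i' h).aedisjoint)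
    rw [Measure.restrict_apply_univ, I_vol] at this
    rw [← ENNReal.toReal_sum (fun i _ => hfin i j)]
    simpa using ENNReal.toReal_mono (by simp) this
  · intro i j hj
    rw [Measure.restrict_apply (hXm i)]
    have : X i ∩ I j = ∅ := by
      rw [Set.eq_empty_iff_forall_notMem]
      rintro x ⟨hx, hx'⟩
      obtain ⟨l, hl⟩ := Set.mem_iUnion.mp hx
      exact hj l (I_disj _ _ x (hJ2 i l hl) hx')
    simp [this]
  · intro i
    have sub : ∀ p l, Set.Ioo (2 * ((part i p l : ℕ) : ℝ)) (2 * ((part i p l : ℕ) : ℝ) + 1) ⊆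
        I (part i p l) := fun p l => Set.Ioo_subset_Icc_self
    obtain ⟨p, hp⟩ := h3 i (fun p l => 2 * ((part i p l : ℕ) : ℝ))
      (fun p l => 2 * ((part i p l : ℕ) : ℝ) + 1)
      (fun p l => ⟨part i p l, (part i p l).is_lt, sub p l⟩) (by
        intro p p' hpp
        rw [Set.disjoint_left]
        intro x hx hx'
        obtain ⟨l, hl⟩ := Set.mem_iUnion.mp hx
        obtain ⟨l', hl'⟩ := Set.mem_iUnion.mp hx'
        exact hpp (part_inj i p p' l l' (I_disj _ _ x (sub p l hl) (sub p' l' hl'))).1)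
    have low : (840 : ENNReal) ≤ mu i (⋃ l, Set.Ioo (2 * ((part i p l : ℕ) : ℝ))
        (2 * ((part i p l : ℕ) : ℝ) + 1)) := by
      rw [mu_apply]
      have inj : Function.Injective (part i p) := fun l l' h => (part_inj i p p l l' h).2
      refine le_trans ?_ (Finset.sum_le_sum_of_subset
        (Finset.subset_univ (Finset.univ.image (part i p))))
      rw [Finset.sum_image (fun l _ l' _ h => inj h)]
      have e1 : (840 : ENNReal) ≤ ∑ l, ((200 + v i (part i p l) : ℕ) : ENNReal) := by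
        exact_mod_cast part_val i p
      refine e1.trans (Finset.sum_le_sum fun l _ => ?_)
      refine le_mul_of_one_le_right' ?_
      refine le_trans ?_ (measure_mono (Set.subset_iUnion _ l))
      rw [Measure.restrict_apply measurableSet_Ioo, Set.inter_eq_left.mpr (sub p l)]
      simp
    have := low.trans hp
    rw [mu_apply] at this
    have h4 := ENNReal.toReal_mono (ENNReal.sum_ne_top.mpr fun j _ =>
      ENNReal.mul_ne_top (by simp) (hfin i j)) this
    rw [ENNReal.toReal_sum (fun j _ => ENNReal.mul_ne_top (by simp) (hfin i j))] at h4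
    simp only [ENNReal.toReal_mul, ENNReal.toReal_natCast] at h4
    simpa using h4

end Pool.Agent.S08412
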