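import Pool.Statements.S08470
import Pool.Agent.H11.Inv5

set_option autoImplicit false
open Pool Pool.MP_45d82d_co

namespace Pool.Agent.S08470

/-- The negation of the preceding statement: For every k, the number of 1324-avoiding permutations of length n with exactly k inversions is a nondecreasing function of n. -/
theorem result :
    ¬ (∀ k : ℕ, Monotone (fun n : ℕ =>
      Nat.card {σ : Equiv.Perm (Fin n) //
        (¬ ∃ a b c d : Fin n, a < b ∧ b < c ∧ c < d ∧
            σ a < σ c ∧ σ c < σ b ∧ σ b < σ d) ∧
        Nat.card {p : Fin n × Fin n // p.1 < p.2 ∧ σ p.2 < σ p.1} = k})) := by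
  intro H
  refine H11.Inv.not_monotone fun k => ?_
  convert H k using 2 with n
  classical
  rw [H11.Inv.cnt, Nat.subtype_card]
  intro σ
  simp only [Finset.mem_filter, Finset.mem_univ, true_and, H11.Inv.AvP, H11.Inv.invP]
  rw [Nat.subtype_card (Finset.univ.filter
    (fun p : Fin n × Fin n => p.1 < p.2 ∧ σ p.2 < σ p.1)) (by simp)]

end Pool.Agent.S08470
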