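import Pool.Statements.S08517
import Pool.Agent.H20.Ed6
import Pool.Agent.H20.EdK4
import Pool.Agent.H20.EdK5
import Pool.Agent.H20.EdK6
import Pool.Agent.H20.EdK7
import Pool.Agent.H20.EdK8

set_option autoImplicit false
open Pool Pool.MP_47ad0a_co

namespace Pool.Agent.S08517

/-- There is a constant c such that for every n, the m-eternal domination number of the n×n grid (guards on distinct vertices, all may move one step per attack) is at most its domination number plus c. -/
theorem result :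
    ∃ c : ℕ, ∀ n : ℕ,
      sInf {k : ℕ | ∃ F : Set (Finset (Fin n × Fin n)), F.Nonempty ∧
          (∀ D ∈ F, D.card = k) ∧
          ∀ D ∈ F, ∀ v : Fin n × Fin n, ∃ D' ∈ F, v ∈ D' ∧
            ∃ f : Fin n × Fin n → Fin n × Fin n,
              Set.InjOn f (D : Set (Fin n × Fin n)) ∧ D.image f = D' ∧
              ∀ x ∈ D, f x = x ∨
                (SimpleGraph.boxProd (SimpleGraph.pathGraph n)
                  (SimpleGraph.pathGraph n)).Adj x (f x)}
        ≤ sInf {k : ℕ | ∃ D : Finset (Fin n × Fin n), D.card = k ∧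
            ∀ v : Fin n × Fin n, v ∈ D ∨ ∃ u ∈ D,
              (SimpleGraph.boxProd (SimpleGraph.pathGraph n)
                (SimpleGraph.pathGraph n)).Adj u v} + c := by
  refine ⟨600, fun n => ?_⟩
  by_cases hn : n < 24
  · refine (Nat.sInf_le (m := (Finset.univ : Finset (Fin n × Fin n)).card) ?_).trans ?_
    · refine ⟨{Finset.univ}, ⟨_, rfl⟩, fun D hD => by rw [hD], fun D hD v => ?_⟩
      exact ⟨D, hD, by rw [hD]; exact Finset.mem_univ v, id, Set.injOn_id _, Finset.image_id,
        fun x _ => Or.inl rfl⟩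
    · rw [Finset.card_univ, Fintype.card_prod, Fintype.card_fin]
      have : n * n ≤ 24 * 24 := Nat.mul_le_mul hn.le hn.le
      omega
  have up : ∃ k, H20.Ed.Et n k ∧ 5 * k ≤ n ^ 2 + 4 * n + 1280 := by
    have : n % 5 = 3 ∨ n % 5 = 0 ∨ n % 5 = 2 ∨ n % 5 = 4 ∨ n % 5 = 1 := by omega
    rcases this with h | h | h | h | h
    · exact H20.Ed.upper_of (by norm_num) H20.Ed.good4 H20.Ed.len4 H20.Ed.cnt4 ((n - 8) / 5)
        (by omega) (by omega)
    · exact H20.Ed.upper_of (by norm_num) H20.Ed.good5 H20.Ed.len5 H20.Ed.cnt5 ((n - 10) / 5)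
        (by omega) (by omega)
    · exact H20.Ed.upper_of (by norm_num) H20.Ed.good6 H20.Ed.len6 H20.Ed.cnt6 ((n - 12) / 5)
        (by omega) (by omega)
    · exact H20.Ed.upper_of (by norm_num) H20.Ed.good7 H20.Ed.len7 H20.Ed.cnt7 ((n - 14) / 5)
        (by omega) (by omega)
    · exact H20.Ed.upper_of (by norm_num) H20.Ed.good8 H20.Ed.len8 H20.Ed.cnt8 ((n - 16) / 5)
        (by omega) (by omega)
  obtain ⟨k, hk, b⟩ := up
  refine (Nat.sInf_le (m := k) hk).trans ?_
  obtain ⟨D, c, d⟩ := Nat.sInf_mem (s := {k : ℕ | ∃ D : Finset (Fin n × Fin n), D.card = k ∧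
    ∀ v : Fin n × Fin n, v ∈ D ∨ ∃ u ∈ D,
      (SimpleGraph.boxProd (SimpleGraph.pathGraph n) (SimpleGraph.pathGraph n)).Adj u v})
    ⟨_, Finset.univ, rfl, fun v => Or.inl (Finset.mem_univ v)⟩
  have := H20.Ed.lower (by omega) D d
  rw [← c]
  omega

end Pool.Agent.S08517
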