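import Pool.Statements.S08528
import Pool.Agent.H10.Part

set_option autoImplicit false
open Pool Pool.MP_47f029_co

namespace Pool.Agent.S08528

/-- The negation of the preceding statement: Every finite geometric simplicial complex homeomorphic to a closed ball is partitionable: each facet F gets a subface R(F), and every face, empty face included, lies in exactly one interval [R(F), F]. -/
theorem result :
    ¬ (∀ (n d : ℕ) (K : Geometry.SimplicialComplex ℝ (EuclideanSpace ℝ (Fin n))),
      K.faces.Finite →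
      Nonempty (↥K.space ≃ₜ ↥(Metric.closedBall (0 : EuclideanSpace ℝ (Fin d)) 1)) →
      ∃ R : Finset (EuclideanSpace ℝ (Fin n)) → Finset (EuclideanSpace ℝ (Fin n)),
        (∀ F ∈ K.facets, R F ⊆ F) ∧
        ∀ σ : Finset (EuclideanSpace ℝ (Fin n)), (σ = ∅ ∨ σ ∈ K.faces) →
          ∃! F, F ∈ K.facets ∧ R F ⊆ σ ∧ σ ⊆ F) := by
  intro h
  obtain ⟨R, h1, h2⟩ := h 13 3 _ (Pool.Agent.H10.Geo.faces_finite 13 Pool.Agent.H10.PartData.B)
    Pool.Agent.H10.Part.is_ball
  exact Pool.Agent.H10.Part.not_part R h1 h2

end Pool.Agent.S08528
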