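import Pool.Statements.S08553
import Pool.Agent.H14.Sy3

set_option autoImplicit false
open Pool Pool.MP_4912e6_co

namespace Pool.Agent.S08553

/-- There is a connected compact Hausdorff group G with normalized Haar measure, some r ≥ 1, and a measurable r-coloring of G so that every measurable monochromatic set A with A = gA⁻¹g for some g has measure at most some c < 1/r². -/
theorem result :
    ∃ (G : Type) (_ : Group G) (_ : TopologicalSpace G) (_ : IsTopologicalGroup G)
      (_ : CompactSpace G) (_ : ConnectedSpace G) (_ : T2Space G)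
      (_ : MeasurableSpace G) (_ : BorelSpace G)
      (μ : MeasureTheory.Measure G) (_ : μ.IsHaarMeasure) (_ : μ.Regular)
      (_ : MeasureTheory.IsProbabilityMeasure μ)
      (r : ℕ) (χ : G → Fin r) (c : ENNReal),
      0 < r ∧ Measurable χ ∧ c < ((r : ENNReal) ^ 2)⁻¹ ∧
      ∀ (A : Set G) (i : Fin r) (g : G),
        MeasurableSet A → A ⊆ χ ⁻¹' {i} →
        (fun x => g * x⁻¹ * g) '' A = A → μ A ≤ c := by
  obtain ⟨P, hP, hpr⟩ := Nat.exists_infinite_primes 1000000
  haveI : Fact P.Prime := ⟨hpr⟩
  have hP' : (1000000 : ℝ) ≤ P := by exact_mod_cast hP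
  haveI : Fact (0 < (P : ℝ)) := ⟨by linarith⟩
  letI : MeasurableSpace (H14.Sy.G P) := borel _
  haveI : BorelSpace (H14.Sy.G P) := ⟨rfl⟩
  haveI : MeasureTheory.IsProbabilityMeasure
      (MeasureTheory.Measure.haarMeasure (⊤ : TopologicalSpace.PositiveCompacts (H14.Sy.G P))) :=
    ⟨MeasureTheory.Measure.haarMeasure_self⟩
  refine ⟨H14.Sy.G P, inferInstance, inferInstance, inferInstance, inferInstance, inferInstance,
    inferInstance, inferInstance, inferInstance, MeasureTheory.Measure.haarMeasure ⊤,
    inferInstance, inferInstance, inferInstance, 2, H14.Sy.col,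
    ENNReal.ofReal (1 / 4 - 1 / 1000000), by norm_num, H14.Sy.col_meas, ?_, ?_⟩
  · have : (((2 : ℕ) : ENNReal) ^ 2)⁻¹ = ENNReal.ofReal (1 / 4) := by
      rw [one_div, ENNReal.ofReal_inv_of_pos (by norm_num)]
      norm_num
    rw [this, ENNReal.ofReal_lt_ofReal_iff (by norm_num)]
    norm_num
  · intro B c g hB h1 h2
    have := H14.Sy.bound (by omega) (MeasureTheory.Measure.haarMeasure ⊤) c g B hB h1 h2
    rw [← MeasureTheory.ofReal_measureReal]
    refine ENNReal.ofReal_le_ofReal (this.trans ?_)
    have : (4 : ℝ) / P ≤ 4 / 1000000 := by gcongr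
    linarith

end Pool.Agent.S08553
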