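import Pool.Statements.S08598
-- import your own Pool.Agent.* helpers here

set_option autoImplicit false
open Pool Pool.MP_4a9f27_co

namespace Pool.Agent.S08598

theorem main (p k : ℕ) [Fact p.Prime] (hk : k ≤ p) :
    ∃ S : Finset (Multiplicative (ZMod p × ℤ)),
      Set.ncard {g : Multiplicative (ZMod p × ℤ) | ∃ l : List (Multiplicative (ZMod p × ℤ)), l.Nodup ∧ (∀ x ∈ l, x ∈ S) ∧ l.prod = g} ≤ p * (k + 1) ∧
      ∀ H : Subgroup (Multiplicative (ZMod p × ℤ)), (H : Set (Multiplicative (ZMod p × ℤ))).Finite →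
        (Nat.card H = 1 ∧ p - 1 ≤ Set.ncard ((S : Set (Multiplicative (ZMod p × ℤ))) \ (H : Set _))) ∨
        (p ≤ Nat.card H ∧ k ≤ Set.ncard ((S : Set (Multiplicative (ZMod p × ℤ))) \ (H : Set _))) := by
  classical
  have hp : p.Prime := Fact.out
  have : NeZero p := ⟨hp.ne_zero⟩
  let S0 : Finset (Multiplicative (ZMod p × ℤ)) := Finset.univ.image (fun a : ZMod p => Multiplicative.ofAdd (a, (0:ℤ)))
  let S1 : Finset (Multiplicative (ZMod p × ℤ)) := (Finset.range k).image (fun a : ℕ => Multiplicative.ofAdd ((a : ZMod p), (1:ℤ)))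
  have c1 : S1.card = k := by
    rw [Finset.card_image_of_injOn, Finset.card_range]
    intro a ha b hb h
    simp only [Finset.coe_range, Set.mem_Iio] at ha hb
    have h' : (a : ZMod p) = b := congrArg (fun x => (Multiplicative.toAdd x).1) h
    rw [ZMod.natCast_eq_natCast_iff'] at h'
    rwa [Nat.mod_eq_of_lt (by omega), Nat.mod_eq_of_lt (by omega)] at h'
  have z0 : ∀ x ∈ S0, (Multiplicative.toAdd x).2 = 0 := by
    intro x hx
    obtain ⟨a, -, rfl⟩ := Finset.mem_image.1 hx
    rfl
  have z1 : ∀ x ∈ S1, (Multiplicative.toAdd x).2 = 1 := by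
    intro x hx
    obtain ⟨a, -, rfl⟩ := Finset.mem_image.1 hx
    rfl
  refine ⟨S0 ∪ S1, ?_, ?_⟩
  · let T : Finset (Multiplicative (ZMod p × ℤ)) :=
      ((Finset.univ : Finset (ZMod p)) ×ˢ (Finset.range (k+1))).image (fun a => Multiplicative.ofAdd (a.1, (a.2 : ℤ)))
    have hT : T.card ≤ p * (k+1) := by
      refine Finset.card_image_le.trans ?_
      simp [ZMod.card]
    refine le_trans ?_ hT
    rw [← Set.ncard_coe_finset]
    refine Set.ncard_le_ncard ?_ T.finite_toSet
    rintro g ⟨l, hl, hS, rfl⟩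
    have e : (Multiplicative.toAdd l.prod).2 = ∑ x ∈ l.toFinset, (Multiplicative.toAdd x).2 := by
      have q := List.prod_toFinset (fun x : Multiplicative (ZMod p × ℤ) => x) hl
      rw [List.map_id'] at q
      rw [← q, toAdd_prod, Prod.snd_sum]
    have lo : 0 ≤ ∑ x ∈ l.toFinset, (Multiplicative.toAdd x).2 := by
      refine Finset.sum_nonneg fun x hx => ?_
      rcases Finset.mem_union.1 (hS x (List.mem_toFinset.1 hx)) with h | h
      · rw [z0 x h]
      · rw [z1 x h]; norm_num
    have hi : ∑ x ∈ l.toFinset, (Multiplicative.toAdd x).2 ≤ k := by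
      calc ∑ x ∈ l.toFinset, (Multiplicative.toAdd x).2 ≤ ∑ x ∈ l.toFinset, (if x ∈ S1 then (1:ℤ) else 0) := by
            refine Finset.sum_le_sum fun x hx => ?_
            rcases Finset.mem_union.1 (hS x (List.mem_toFinset.1 hx)) with h | h
            · rw [z0 x h]; split_ifs <;> norm_num
            · rw [z1 x h, if_pos h]
        _ = ((l.toFinset.filter (· ∈ S1)).card : ℤ) := by rw [Finset.sum_boole]
        _ ≤ (S1.card : ℤ) := by
            exact_mod_cast Finset.card_le_card (fun x hx => (Finset.mem_filter.1 hx).2)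
        _ = k := by rw [c1]
    rw [← e] at lo hi
    simp only [T, Finset.coe_image, Set.mem_image, Finset.mem_coe, Finset.mem_product, Finset.mem_univ, true_and, Finset.mem_range]
    refine ⟨((Multiplicative.toAdd l.prod).1, (Multiplicative.toAdd l.prod).2.toNat), by show Int.toNat _ < k + 1; omega, ?_⟩
    simp only [Int.toNat_of_nonneg lo]
    rfl
  · intro H hH
    have : Finite H := hH
    have hz : ∀ x ∈ H, (Multiplicative.toAdd x).2 = 0 := by
      intro x hx
      have h1 : (⟨x, hx⟩ : H) ^ Nat.card H = 1 := pow_card_eq_one'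
      have h2 : x ^ Nat.card H = 1 := congrArg Subtype.val h1
      have h3 := congrArg (fun y => (Multiplicative.toAdd y).2) h2
      simp only [toAdd_pow, Prod.smul_snd, toAdd_one, Prod.snd_zero, smul_eq_zero] at h3
      rcases h3 with h3 | h3
      · exact absurd h3 Nat.card_pos.ne'
      · exact h3
    have fin : (((S0 ∪ S1 : Finset _) : Set (Multiplicative (ZMod p × ℤ))) \ (H : Set _)).Finite := (S0 ∪ S1).finite_toSet.sdiff
    by_cases hb : H = ⊥
    · left
      subst hb
      refine ⟨by simp, ?_⟩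
      have : (S0.erase 1).card = p - 1 := by
        rw [Finset.card_erase_of_mem, Finset.card_image_of_injective]
        · simp [ZMod.card]
        · intro a b h
          exact congrArg (fun x => (Multiplicative.toAdd x).1) h
        · exact Finset.mem_image.2 ⟨0, Finset.mem_univ _, rfl⟩
      rw [← this, ← Set.ncard_coe_finset]
      refine Set.ncard_le_ncard ?_ fin
      intro x hx
      simp only [Finset.coe_erase, Set.mem_sdiff, Finset.mem_coe, Set.mem_singleton_iff] at hx
      refine ⟨by simp [hx.1], by simpa using hx.2⟩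
    · right
      constructor
      · obtain ⟨⟨x, hx⟩, hx1⟩ := (Subgroup.ne_bot_iff_exists_ne_one).1 hb
        have h1 : (⟨x, hx⟩ : H) ^ p = 1 := by
          apply Subtype.ext
          show x ^ p = 1
          apply Multiplicative.toAdd.injective
          ext
          · simp
          · simp [hz x hx]
        have h2 : orderOf (⟨x, hx⟩ : H) = p := orderOf_eq_prime h1 hx1
        have h3 := orderOf_dvd_natCard (⟨x, hx⟩ : H)
        rw [h2] at h3
        exact Nat.le_of_dvd Nat.card_pos h3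
      · rw [← c1, ← Set.ncard_coe_finset]
        refine Set.ncard_le_ncard ?_ fin
        intro x hx
        refine ⟨by simp [Finset.mem_coe.1 hx], fun h => ?_⟩
        have := hz x h
        rw [z1 x hx] at this
        norm_num at this


/-- The negation of the preceding statement: There is c>0 such that for every group G and finite S in G, some finite subgroup H has #(products of distinct elements of S in any order, including 1) at least ∣H∣ + c·∣H∣·∣S minus H∣². -/
theorem result :
    ¬ (∃ c : ℝ, 0 < c ∧ ∀ (G : Type) [Group G] (S : Finset G),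
      ∃ H : Subgroup G, (H : Set G).Finite ∧
        ((Set.ncard {g : G | ∃ l : List G, l.Nodup ∧ (∀ x ∈ l, x ∈ S) ∧ l.prod = g} : ℕ) : ℝ)
          ≥ (Nat.card H : ℝ) + c * (Nat.card H : ℝ)
              * ((Set.ncard ((S : Set G) \ (H : Set G)) : ℕ) : ℝ) ^ 2) := by
  rintro ⟨c, hc, h⟩
  obtain ⟨k, hk⟩ := exists_nat_gt (1 / c)
  have hk1 : 1 < c * k := by rwa [div_lt_iff₀ hc, mul_comm] at hk
  obtain ⟨N, hN⟩ := exists_nat_gt (4 * (k + 1) / c)
  obtain ⟨p, hpN, hp⟩ := Nat.exists_infinite_primes (N + k + 2)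
  have : Fact p.Prime := ⟨hp⟩
  obtain ⟨S, h1, h2⟩ := main p k (by omega)
  obtain ⟨H, hH, h3⟩ := h _ S
  have h1' := (Nat.cast_le (α := ℝ)).2 h1
  push_cast at h1'
  have hk0 : (0:ℝ) < k := by
    by_contra hh
    have : (k:ℝ) = 0 := le_antisymm (not_lt.1 hh) (Nat.cast_nonneg _)
    rw [this] at hk1; linarith
  have hp2 : (N:ℝ) + k + 2 ≤ p := by exact_mod_cast hpN
  have hN0 : (0:ℝ) ≤ N := Nat.cast_nonneg _
  rcases h2 H hH with ⟨a, b⟩ | ⟨a, b⟩
  · rw [a] at h3
    have b' : (p:ℝ) - 1 ≤ (Set.ncard ((S : Set (Multiplicative (ZMod p × ℤ))) \ (H : Set (Multiplicative (ZMod p × ℤ)))) : ℕ) := by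
      have := (Nat.cast_le (α := ℝ)).2 b
      rwa [Nat.cast_sub hp.one_le, Nat.cast_one] at this
    have b2 : ((p:ℝ) / 2) ^ 2 ≤ ((Set.ncard ((S : Set (Multiplicative (ZMod p × ℤ))) \ (H : Set (Multiplicative (ZMod p × ℤ)))) : ℕ) : ℝ) ^ 2 :=
      pow_le_pow_left₀ (by positivity) (by linarith) 2
    have b3 := mul_le_mul_of_nonneg_left b2 hc.le
    rw [div_lt_iff₀ hc] at hN
    have b4 : 4 * ((k:ℝ) + 1) < p * c := by nlinarith
    have b5 : (p:ℝ) * (4 * ((k:ℝ) + 1)) < p * (p * c) := mul_lt_mul_of_pos_left b4 (by linarith)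
    push_cast at h3
    nlinarith
  · have a' : (p:ℝ) ≤ Nat.card H := by exact_mod_cast a
    have b' : (k:ℝ) ≤ (Set.ncard ((S : Set (Multiplicative (ZMod p × ℤ))) \ (H : Set (Multiplicative (ZMod p × ℤ)))) : ℕ) := by exact_mod_cast b
    have b2 : (k:ℝ) ^ 2 ≤ ((Set.ncard ((S : Set (Multiplicative (ZMod p × ℤ))) \ (H : Set (Multiplicative (ZMod p × ℤ)))) : ℕ) : ℝ) ^ 2 :=
      pow_le_pow_left₀ hk0.le b' 2
    have hH0 : (0:ℝ) < Nat.card H := by linarith
    have b3 := mul_le_mul_of_nonneg_left b2 (mul_pos hc hH0).le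
    have b4 : (k:ℝ) < c * k ^ 2 := by nlinarith
    have b5 := mul_lt_mul_of_pos_left b4 hH0
    have b6 : (p:ℝ) * (k + 1) ≤ Nat.card H * (k + 1) := mul_le_mul_of_nonneg_right a' (by linarith)
    nlinarith

end Pool.Agent.S08598
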