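import Pool.Statements.S08599

set_option autoImplicit false
open Pool Pool.MP_4adf9f_co

namespace Pool.Agent.S08599

open DihedralGroup

/-- The group `Z13 × S3` of order `78 = 81 - 3`. -/
abbrev A := Multiplicative (ZMod 13)
abbrev Γ := A × DihedralGroup 3

/-- A relative difference set in `Z13 × S3` relative to `S3`. -/
def ρ (a : ZMod 13) : Option (DihedralGroup 3) :=
  if a = 2 then some (r 0) else if a = 4 then some (r 1) else if a = 5 then some (r 2)
  else if a = 6 then some (r 1) else if a = 7 then some (sr 0) else if a = 8 then some (sr 0)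
  else if a = 10 then some (r 0) else if a = 11 then some (sr 0) else if a = 12 then some (r 2)
  else none

def D0 (a : ZMod 13) : Bool := a = 0 || a = 1 || a = 3 || a = 9

def P : Type := A ⊕ Γ
def L : Type := A ⊕ Γ

instance : Fintype P := inferInstanceAs (Fintype (A ⊕ Γ))
instance : Fintype L := inferInstanceAs (Fintype (A ⊕ Γ))
instance : DecidableEq P := inferInstanceAs (DecidableEq (A ⊕ Γ))
instance : DecidableEq L := inferInstanceAs (DecidableEq (A ⊕ Γ))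

def inc : (A ⊕ Γ) → (A ⊕ Γ) → Bool
  | .inl i, .inl j => D0 (Multiplicative.toAdd (i⁻¹ * j))
  | .inr g, .inl j => g.1 = j
  | .inl i, .inr h => i = h.1
  | .inr g, .inr h => ρ (Multiplicative.toAdd (h⁻¹ * g).1) = some (h⁻¹ * g).2

def act (g : Γ) : (A ⊕ Γ) → (A ⊕ Γ)
  | .inl i => .inl (g.1 * i)
  | .inr h => .inr (g * h)

lemma act_one (x : A ⊕ Γ) : act 1 x = x := by cases x <;> simp [act]
lemma act_mul (g h : Γ) (x : A ⊕ Γ) : act (g * h) x = act g (act h x) := by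
  cases x <;> simp [act, mul_assoc]

lemma inc_act (g : Γ) (p l : A ⊕ Γ) : inc (act g p) (act g l) = inc p l := by
  rcases p with i | a <;> rcases l with j | h <;> simp only [act, inc]
  · congr 2; group
  · simp
  · simp
  · have : (g * h)⁻¹ * (g * a) = h⁻¹ * a := by group
    rw [this]

def perm (g : Γ) : Equiv.Perm (A ⊕ Γ) where
  toFun := act g
  invFun := act g⁻¹
  left_inv x := by rw [← act_mul]; simp [act_one]
  right_inv x := by rw [← act_mul]; simp [act_one]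

def φ : Γ →* Equiv.Perm P × Equiv.Perm L where
  toFun g := (perm g, perm g)
  map_one' := by ext x <;> exact act_one x
  map_mul' g h := by ext x <;> exact act_mul g h x

instance : Membership P L := ⟨fun l p => inc p l = true⟩

lemma mem_iff (p : P) (l : L) : p ∈ l ↔ inc p l = true := Iff.rfl

lemma rep (l : A ⊕ Γ) : ∃ g : Γ, l = act g (.inl 1) ∨ l = act g (.inr 1) := by
  rcases l with j | h
  · exact ⟨(j, 1), Or.inl (by simp [act])⟩
  · exact ⟨h, Or.inr (by simp [act])⟩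

lemma uniq1 : ∀ l : A ⊕ Γ, l ≠ .inl 1 → ∀ p, inc p (.inl 1) = true → inc p l = true →
    ∀ q, inc q (.inl 1) = true → inc q l = true → p = q := by decide +kernel
lemma uniq2 : ∀ l : A ⊕ Γ, l ≠ .inr 1 → ∀ p, inc p (.inr 1) = true → inc p l = true →
    ∀ q, inc q (.inr 1) = true → inc q l = true → p = q := by decide +kernel
lemma ex1 : ∀ l : A ⊕ Γ, ∃ p, inc p (.inl 1) = true ∧ inc p l = true := by decide +kernel
lemma ex2 : ∀ l : A ⊕ Γ, ∃ p, inc p (.inr 1) = true ∧ inc p l = true := by decide +kernel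

lemma act_inv (g : Γ) (x : A ⊕ Γ) : act g (act g⁻¹ x) = x := (perm g).right_inv x

lemma uniq (l m p q : A ⊕ Γ) (h : l ≠ m) (h1 : inc p l = true) (h2 : inc q l = true)
    (h3 : inc p m = true) (h4 : inc q m = true) : p = q := by
  obtain ⟨g, hg⟩ := rep l
  rw [← act_inv g p, ← act_inv g q]
  rw [← act_inv g p] at h1 h3
  rw [← act_inv g q] at h2 h4
  rw [← act_inv g m] at h h3 h4
  rcases hg with rfl | rfl <;> rw [inc_act] at h1 h2 h3 h4
  · rw [uniq1 (act g⁻¹ m) (fun e => h (by rw [e])) _ h1 h3 _ h2 h4]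
  · rw [uniq2 (act g⁻¹ m) (fun e => h (by rw [e])) _ h1 h3 _ h2 h4]

lemma ex (l m : A ⊕ Γ) : ∃ p, inc p l = true ∧ inc p m = true := by
  obtain ⟨g, hg⟩ := rep l
  rw [← act_inv g m]
  rcases hg with rfl | rfl
  · obtain ⟨p, hp⟩ := ex1 (act g⁻¹ m)
    exact ⟨act g p, by rw [inc_act, inc_act]; exact hp⟩
  · obtain ⟨p, hp⟩ := ex2 (act g⁻¹ m)
    exact ⟨act g p, by rw [inc_act, inc_act]; exact hp⟩

lemma nd1 : ∀ l : A ⊕ Γ, ∃ p : A, ¬ inc (.inl p) l = true := by decide +kernel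
lemma nd2 : ∀ p : A ⊕ Γ, ∃ l : A, ¬ inc p (.inl l) = true := by decide +kernel

noncomputable instance hp : Configuration.HasPoints P L where
  exists_point l := by obtain ⟨p, hp⟩ := nd1 l; exact ⟨.inl p, hp⟩
  exists_line p := by obtain ⟨l, hl⟩ := nd2 p; exact ⟨.inl l, hl⟩
  eq_or_eq := by
    intro p q l m h1 h2 h3 h4
    by_cases h : l = m
    · exact Or.inr h
    · exact Or.inl (uniq l m p q h h1 h2 h3 h4)
  mkPoint := fun {l m} _ => (ex l m).choose
  mkPoint_ax := fun {l m} _ => (ex l m).choose_spec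

def b (n : ZMod 13) : A ⊕ Γ := .inl (Multiplicative.ofAdd n)

noncomputable instance plane : Configuration.ProjectivePlane P L :=
  { hp, Configuration.HasPoints.hasLines (P := P) (L := L) rfl with
    exists_config := ⟨b 2, b 0, b 1, b 5, b 1, b 9, by
      simp only [mem_iff]; decide +kernel⟩ }

lemma cardP : Fintype.card P = 91 := by
  change Fintype.card (A ⊕ Γ) = 91
  simp [DihedralGroup.card]

lemma order_eq : Configuration.ProjectivePlane.order P L = 9 := by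
  have h := Configuration.ProjectivePlane.card_points P L
  rw [cardP] at h
  nlinarith [h, Nat.lt_or_ge (Configuration.ProjectivePlane.order P L) 9,
    sq_nonneg ((Configuration.ProjectivePlane.order P L : ℤ) - 9)]

lemma φ_inj : Function.Injective φ := by
  intro g h e
  have : act g (.inr 1) = act h (.inr 1) := congrArg (fun x => x.1 (Sum.inr 1 : A ⊕ Γ)) e
  simpa [act] using this

lemma quasi (g h : Γ) (x : A ⊕ Γ) (e : act g x = x) : act g (act h x) = act h x := by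
  rcases x with i | a <;> simp only [act, Sum.inl.injEq, Sum.inr.injEq] at e ⊢
  · have : g.1 = 1 := by simpa using e
    simp [this]
  · have : g = 1 := by simpa using e
    simp [this]

lemma moves (x : A ⊕ Γ) : ∃ g : Γ, act g x ≠ x := by
  refine ⟨(Multiplicative.ofAdd 1, 1), ?_⟩
  rcases x with i | a <;> simp only [act, ne_eq, Sum.inl.injEq, Sum.inr.injEq, mul_eq_right]
  · decide
  · decide

/-- The Hughes plane of order 9 with the group `Z13 × S3`. -/
theorem result :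
    ∃ (P L : Type) (_ : Finite P) (_ : Finite L) (_ : Membership P L)
      (_ : Configuration.ProjectivePlane P L)
      (Γ : Subgroup (Equiv.Perm P × Equiv.Perm L)) (k : ℕ),
      Configuration.ProjectivePlane.order P L = k ^ 2 ∧
      k ^ 2 ≠ 4 ∧
      (∀ g ∈ Γ, ∀ p : P, ∀ l : L, p ∈ l ↔ g.1 p ∈ g.2 l) ∧
      (∀ g ∈ Γ, ∀ p : P, g.1 p = p → ∀ h ∈ Γ, g.1 (h.1 p) = h.1 p) ∧
      (∀ g ∈ Γ, ∀ l : L, g.2 l = l → ∀ h ∈ Γ, g.2 (h.2 l) = h.2 l) ∧
      Nat.card Γ = k ^ 4 - k ∧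
      2 * Nat.card Γ > k ^ 4 + k ^ 2 + 1 ∧
      (∃ p q : P, (¬ ∃ g ∈ Γ, g.1 p = q) ∧
        ∀ r : P, (∃ g ∈ Γ, g.1 p = r) ∨ (∃ g ∈ Γ, g.1 q = r)) ∧
      (∃ l m : L, (¬ ∃ g ∈ Γ, g.2 l = m) ∧
        ∀ r : L, (∃ g ∈ Γ, g.2 l = r) ∨ (∃ g ∈ Γ, g.2 m = r)) ∧
      (∀ p : P, ∃ g ∈ Γ, g.1 p ≠ p) ∧
      (∀ l : L, ∃ g ∈ Γ, g.2 l ≠ l) := by
  have hc : Nat.card φ.range = 78 := by
    rw [← Nat.card_congr (MonoidHom.ofInjective φ_inj).toEquiv]
    simp [DihedralGroup.card]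
  refine ⟨P, L, inferInstance, inferInstance, inferInstance, plane, φ.range, 3, order_eq,
    by norm_num, ?_, ?_, ?_, by rw [hc]; norm_num, by rw [hc]; norm_num, ?_, ?_, ?_, ?_⟩
  · rintro _ ⟨g, rfl⟩ p l
    rw [mem_iff, mem_iff, ← inc_act g]; rfl
  · rintro _ ⟨g, rfl⟩ p e _ ⟨h, rfl⟩
    exact quasi g h p e
  · rintro _ ⟨g, rfl⟩ p e _ ⟨h, rfl⟩
    exact quasi g h p e
  · refine ⟨Sum.inl 1, Sum.inr 1, ?_, fun x => ?_⟩
    · rintro ⟨_, ⟨g, rfl⟩, e⟩
      exact Sum.inl_ne_inr e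
    · obtain ⟨g, hg | hg⟩ := rep x
      · exact Or.inl ⟨_, ⟨g, rfl⟩, hg.symm⟩
      · exact Or.inr ⟨_, ⟨g, rfl⟩, hg.symm⟩
  · refine ⟨Sum.inl 1, Sum.inr 1, ?_, fun x => ?_⟩
    · rintro ⟨_, ⟨g, rfl⟩, e⟩
      exact Sum.inl_ne_inr e
    · obtain ⟨g, hg | hg⟩ := rep x
      · exact Or.inl ⟨_, ⟨g, rfl⟩, hg.symm⟩
      · exact Or.inr ⟨_, ⟨g, rfl⟩, hg.symm⟩
  · intro p
    obtain ⟨g, hg⟩ := moves p
    exact ⟨_, ⟨g, rfl⟩, hg⟩
  · intro p
    obtain ⟨g, hg⟩ := moves p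
    exact ⟨_, ⟨g, rfl⟩, hg⟩

end Pool.Agent.S08599
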