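import Pool.Statements.S08616
import Pool.Agent.H25.Fans

set_option autoImplicit false
open Pool Pool.MP_4bab84_co

namespace Pool.Agent.S08616

open Pool.Agent.H25.Fans

/-- The negation of the preceding statement: Every induced-minor-closed class of finite planar graphs is well-quasi-ordered by induced minors if and only if the alternating double wheels it contains (even cycle plus two hubs, one per colour class) have bounded size. -/
theorem result :
    ¬ (∀ P : (n : ℕ) → SimpleGraph (Fin n) → Prop,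
    (∀ n (G : SimpleGraph (Fin n)), P n G →
      ∃ f : Fin n → ℝ × ℝ, Function.Injective f ∧
      ∃ γ : (i j : Fin n) → Path (f i) (f j),
        (∀ i j, G.Adj i j → i < j → Function.Injective ⇑(γ i j)) ∧
        (∀ i j, G.Adj i j → i < j → ∀ t : unitInterval, (t : ℝ) ∈ Set.Ioo (0 : ℝ) 1 →
            ∀ v, γ i j t ≠ f v) ∧
        (∀ i j k l, G.Adj i j → i < j → G.Adj k l → k < l → (i ≠ k ∨ j ≠ l) →
          ∀ s t : unitInterval, (s : ℝ) ∈ Set.Ioo (0 : ℝ) 1 → (t : ℝ) ∈ Set.Ioo (0 : ℝ) 1 →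
            γ i j s ≠ γ k l t)) →
    (∀ n m (G : SimpleGraph (Fin n)) (H : SimpleGraph (Fin m)), P n G →
      (∃ B : Fin m → Set (Fin n), (∀ i, (G.induce (B i)).Connected) ∧
         (∀ i j, i ≠ j → Disjoint (B i) (B j)) ∧
         (∀ i j, i ≠ j → (H.Adj i j ↔ ∃ u ∈ B i, ∃ v ∈ B j, G.Adj u v))) → P m H) →
    ((∀ g : ℕ → (Σ n : ℕ, SimpleGraph (Fin n)), (∀ i, P (g i).1 (g i).2) →
        ∃ i j, i < j ∧ ∃ B : Fin (g i).1 → Set (Fin (g j).1),
          (∀ a, ((g j).2.induce (B a)).Connected) ∧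
          (∀ a b, a ≠ b → Disjoint (B a) (B b)) ∧
          (∀ a b, a ≠ b → ((g i).2.Adj a b ↔ ∃ u ∈ B a, ∃ v ∈ B b, (g j).2.Adj u v)))
     ↔ ∃ N : ℕ, ∀ k : ℕ, 2 ≤ k →
        P (2 * k + 2) (SimpleGraph.fromRel (fun a b : Fin (2 * k + 2) =>
          (a.val < 2 * k ∧ b.val < 2 * k ∧ b.val = (a.val + 1) % (2 * k)) ∨
          (a.val = 2 * k ∧ b.val < 2 * k ∧ b.val % 2 = 0) ∨
          (a.val = 2 * k + 1 ∧ b.val < 2 * k ∧ b.val % 2 = 1))) → k ≤ N)) := by
  intro H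
  have h := (H (fun _ G => ∃ τ, Good G τ) (fun n G ⟨τ, hτ⟩ => planar hτ)
    (fun n m G K ⟨τ, hτ⟩ ⟨B, hB⟩ => by
      obtain ⟨τ', h', -⟩ := closure (H := K) (B := B) hτ hB
      exact ⟨τ', h'⟩)).2 ⟨4, fun k _ ⟨τ, hτ⟩ => wheel hτ⟩
  obtain ⟨i, j, hij, B, hB⟩ := h (fun i => ⟨i + 14, fan i⟩) (fun i => ⟨_, fan_good i⟩)
  exact antichain hij B hB

end Pool.Agent.S08616
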