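import Pool.Statements.S08682
import Pool.Agent.H10.CubeIllum

set_option autoImplicit false
open Pool Pool.MP_4e5a55_co

namespace Pool.Agent.S08682

/-- The negation of the preceding statement: For all d and l<d: the least number of l-dimensional affine subspaces missing the unit d-cube that illuminate all its boundary points equals the least size of a binary length-d code in which every word is within Hamming distance l of a codeword. -/
theorem result :
    ¬ (∀ d l : ℕ, l < d →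
      sInf {n : ℕ | ∃ L : Fin n → AffineSubspace ℝ (Fin d → ℝ),
          (∀ i, Module.finrank ℝ (L i).direction = l ∧
              ∀ y ∈ L i, ¬ (∀ j, 0 ≤ y j ∧ y j ≤ 1)) ∧
          ∀ x : Fin d → ℝ, (∀ j, 0 ≤ x j ∧ x j ≤ 1) → ¬ (∀ j, 0 < x j ∧ x j < 1) →
            ∃ i, ∃ y ∈ L i, ∃ t : ℝ, 0 < t ∧
              ∀ j, 0 < (x + t • (x - y)) j ∧ (x + t • (x - y)) j < 1}
        =
      sInf {n : ℕ | ∃ C : Finset (Fin d → Bool), C.card = n ∧
          ∀ w : Fin d → Bool, ∃ c ∈ C, hammingDist w c ≤ l}) := by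
  intro h
  have h5 := h 5 1 (by norm_num)
  have hle : sInf {n : ℕ | ∃ L : Fin n → AffineSubspace ℝ (Fin 5 → ℝ),
          (∀ i, Module.finrank ℝ (L i).direction = 1 ∧
              ∀ y ∈ L i, ¬ (∀ j, 0 ≤ y j ∧ y j ≤ 1)) ∧
          ∀ x : Fin 5 → ℝ, (∀ j, 0 ≤ x j ∧ x j ≤ 1) → ¬ (∀ j, 0 < x j ∧ x j < 1) →
            ∃ i, ∃ y ∈ L i, ∃ t : ℝ, 0 < t ∧
              ∀ j, 0 < (x + t • (x - y)) j ∧ (x + t • (x - y)) j < 1} ≤ 6 :=
    Nat.sInf_le ⟨H10.CubeIllum.L, fun i => ⟨H10.CubeIllum.L_dim i, H10.CubeIllum.L_avoid i⟩,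
      fun x hx _ => H10.CubeIllum.L_illum x hx⟩
  rw [h5] at hle
  have hne : {n : ℕ | ∃ C : Finset (Fin 5 → Bool), C.card = n ∧
          ∀ w : Fin 5 → Bool, ∃ c ∈ C, hammingDist w c ≤ 1}.Nonempty :=
    ⟨_, Finset.univ, rfl, fun w => ⟨w, Finset.mem_univ _, by simp⟩⟩
  obtain ⟨C, hC, hcov⟩ := Nat.sInf_mem hne
  exact H10.CubeIllum.no_code C (hC ▸ hle) hcov

end Pool.Agent.S08682
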