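import Pool.Statements.S08686
-- import your own Pool.Agent.* helpers here

set_option autoImplicit false
open Pool Pool.MP_4e7ec3_co

namespace Pool.Agent.S08686

/-- four clusters of three points each -/
noncomputable def F : Finset ℝ :=
  {0, 1/100, 2/100, 10/100, 11/100, 12/100, 88/100, 89/100, 90/100, 98/100, 99/100, 1}

/-- each cluster goes to the middle point of its partner cluster -/
noncomputable def T (p : ℝ) : ℝ :=
  if p < 5/100 then 11/100 else if p < 1/2 then 1/100 else if p < 95/100 then 99/100 else 89/100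

lemma mem_F (p : ℝ) : p ∈ F ↔ p = 0 ∨ p = 1/100 ∨ p = 2/100 ∨ p = 10/100 ∨ p = 11/100 ∨
    p = 12/100 ∨ p = 88/100 ∨ p = 89/100 ∨ p = 90/100 ∨ p = 98/100 ∨ p = 99/100 ∨ p = 1 := by
  simp [F]

lemma step (p q : ℝ)
    (h : q = T p ∨ (q ∈ F ∧ q < T p ∧ ∀ r ∈ F, r < T p → r ≤ q) ∨
      (q ∈ F ∧ T p < q ∧ ∀ r ∈ F, T p < r → q ≤ r)) : |q - T p| ≤ 1/100 := by
  have hm : T p - 1/100 ∈ F := by
    rw [mem_F]; unfold T; split_ifs <;> norm_num
  have hp : T p + 1/100 ∈ F := by
    rw [mem_F]; unfold T; split_ifs <;> norm_num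
  rw [abs_le]
  rcases h with h | ⟨_, h1, h2⟩ | ⟨_, h1, h2⟩
  · rw [h]; norm_num
  · have := h2 _ hm (by linarith); constructor <;> linarith
  · have := h2 _ hp (by linarith); constructor <;> linarith

/-- The negation of the preceding statement: There is a constant k such that for every finite F in [0,1] containing 0 and 1, every ε>0, and every T:F→F moving each point by more than ε, some p₀ in F reaches a point at distance at least 1/3 in at most k/ε steps, each step going to T(p) or a neighbour of T(p) in F. -/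
theorem result :
    ¬ (∃ k : ℝ, ∀ (F : Finset ℝ) (ε : ℝ) (T : ℝ → ℝ),
      (∀ p ∈ F, 0 ≤ p ∧ p ≤ 1) → (0 : ℝ) ∈ F → (1 : ℝ) ∈ F → 0 < ε →
      (∀ p ∈ F, T p ∈ F ∧ ε < |p - T p|) →
      ∃ p₀ ∈ F, ∃ n : ℕ, (n : ℝ) ≤ k / ε ∧
        ∃ x : ℕ → ℝ, x 0 = p₀ ∧
          (∀ i < n,
            x (i + 1) = T (x i) ∨
            (x (i + 1) ∈ F ∧ x (i + 1) < T (x i) ∧
              ∀ r ∈ F, r < T (x i) → r ≤ x (i + 1)) ∨
            (x (i + 1) ∈ F ∧ T (x i) < x (i + 1) ∧
              ∀ r ∈ F, T (x i) < r → x (i + 1) ≤ r)) ∧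
          1 / 3 ≤ |x n - p₀|) := by
  rintro ⟨k, H⟩
  obtain ⟨p₀, hp₀, n, -, x, hx0, hstep, hfar⟩ := H F (5/100) T
    (by intro p hp; rw [mem_F] at hp
        rcases hp with h | h | h | h | h | h | h | h | h | h | h | h <;> rw [h] <;> norm_num)
    (by rw [mem_F]; norm_num) (by rw [mem_F]; norm_num) (by norm_num)
    (by intro p hp; rw [mem_F] at hp; rw [mem_F]
        rcases hp with h | h | h | h | h | h | h | h | h | h | h | h <;> rw [h] <;>
          norm_num [T, lt_abs])
  have low : ∀ p q : ℝ, p < 1/2 → |q - T p| ≤ 1/100 → 0 ≤ q ∧ q ≤ 12/100 := by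
    intro p q hp h
    rw [abs_le] at h
    unfold T at h
    split_ifs at h <;> constructor <;> linarith [h.1, h.2]
  have high : ∀ p q : ℝ, 1/2 ≤ p → |q - T p| ≤ 1/100 → 88/100 ≤ q ∧ q ≤ 1 := by
    intro p q hp h
    rw [abs_le] at h
    unfold T at h
    split_ifs at h <;> constructor <;> linarith [h.1, h.2]
  have h0 : (0 ≤ p₀ ∧ p₀ ≤ 12/100) ∨ (88/100 ≤ p₀ ∧ p₀ ≤ 1) := by
    rw [mem_F] at hp₀
    rcases hp₀ with h | h | h | h | h | h | h | h | h | h | h | h <;> rw [h] <;> norm_num
  rcases h0 with h0 | h0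
  · have inv : ∀ i ≤ n, 0 ≤ x i ∧ x i ≤ 12/100 := by
      intro i
      induction i with
      | zero => intro _; rw [hx0]; exact h0
      | succ i ih =>
        intro hi
        have := ih (by omega)
        exact low (x i) _ (by linarith [this.2]) (step _ _ (hstep i (by omega)))
    have := inv n le_rfl
    rw [le_abs] at hfar
    rcases hfar with h | h <;> linarith [this.1, this.2, h0.1, h0.2]
  · have inv : ∀ i ≤ n, 88/100 ≤ x i ∧ x i ≤ 1 := by
      intro i
      induction i with
      | zero => intro _; rw [hx0]; exact h0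
      | succ i ih =>
        intro hi
        have := ih (by omega)
        exact high (x i) _ (by linarith [this.1]) (step _ _ (hstep i (by omega)))
    have := inv n le_rfl
    rw [le_abs] at hfar
    rcases hfar with h | h <;> linarith [this.1, this.2, h0.1, h0.2]

end Pool.Agent.S08686
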