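import Pool.Statements.S08710
import Pool.Agent.H23.Tashkinov

set_option autoImplicit false
open Pool Pool.MP_4fae64_co

namespace Pool.Agent.S08710

/-- The negation of the preceding statement: In a loopless multigraph with chromatic index k+1, k ≥ Δ+1, e critical and φ a k-colouring of G−e, every vertex set built from e by the extended Tashkinov rules E2 and E3 is elementary: no two of its vertices miss the same colour. -/
theorem result :
    ¬ (∀ (V E : Type) [Fintype V] [Fintype E] [DecidableEq V] [DecidableEq E]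
    (src tgt : E → V) (k : ℕ) (e : E) (φ : E → Fin k),
    (∀ f : E, src f ≠ tgt f) →
    (∀ v : V, Set.ncard {f : E | src f = v ∨ tgt f = v} + 1 ≤ k) →
    (¬ ∃ ψ : E → Fin k, ∀ f g : E, f ≠ g →
        (∃ v : V, (src f = v ∨ tgt f = v) ∧ (src g = v ∨ tgt g = v)) → ψ f ≠ ψ g) →
    (∀ f g : E, f ≠ e → g ≠ e → f ≠ g →
        (∃ v : V, (src f = v ∨ tgt f = v) ∧ (src g = v ∨ tgt g = v)) → φ f ≠ φ g) →
    ∀ (A : Finset V) (F : Finset E),
      (∀ S : Set (Finset V × Finset E),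
        Prod.mk ({src e, tgt e} : Finset V) ({e} : Finset E) ∈ S →
        (∀ B : Finset V, ∀ H : Finset E, Prod.mk B H ∈ S →
          ∀ f : E, f ≠ e → ∀ a b : V, a ∈ B → b ∉ B →
          ((src f = a ∧ tgt f = b) ∨ (src f = b ∧ tgt f = a)) →
          (∃ z ∈ B, ∀ g : E, g ≠ e → (src g = z ∨ tgt g = z) → φ g ≠ φ f) →
          Prod.mk (insert b B) (insert f H) ∈ S) →
        (∀ B : Finset V, ∀ H : Finset E, Prod.mk B H ∈ S →
          (∀ g : E, g ≠ e → ∀ a b : V, a ∈ B → b ∉ B →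
            ((src g = a ∧ tgt g = b) ∨ (src g = b ∧ tgt g = a)) →
            ∀ z ∈ B, ∃ g' : E, g' ≠ e ∧ (src g' = z ∨ tgt g' = z) ∧ φ g' = φ g) →
          ∀ α : Fin k,
          (∃ g₁ g₂ : E, g₁ ≠ g₂ ∧ g₁ ≠ e ∧ g₂ ≠ e ∧ φ g₁ = α ∧ φ g₂ = α ∧
            (∃ a b : V, a ∈ B ∧ b ∉ B ∧
              ((src g₁ = a ∧ tgt g₁ = b) ∨ (src g₁ = b ∧ tgt g₁ = a))) ∧
            (∃ a b : V, a ∈ B ∧ b ∉ B ∧
              ((src g₂ = a ∧ tgt g₂ = b) ∨ (src g₂ = b ∧ tgt g₂ = a)))) →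
          ∀ f : E, f ≠ e → φ f = α → ∀ a b : V, a ∈ B → b ∉ B →
          ((src f = a ∧ tgt f = b) ∨ (src f = b ∧ tgt f = a)) →
          ∀ u ∈ B, ∀ γ : Fin k,
          (∀ g : E, g ≠ e → (src g = u ∨ tgt g = u) → φ g ≠ γ) →
          (∀ g ∈ H, g ≠ e → φ g ≠ γ) →
          (∃ m : ℕ, ∃ w : ℕ → V, ∃ p : ℕ → E, 0 < m ∧ w 0 = u ∧ p (m - 1) = f ∧
            (∀ i : ℕ, i < m → p i ≠ e ∧ (φ (p i) = α ∨ φ (p i) = γ) ∧
              ((src (p i) = w i ∧ tgt (p i) = w (i + 1)) ∨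
               (src (p i) = w (i + 1) ∧ tgt (p i) = w i))) ∧
            (∀ i j : ℕ, i < m → j < m → i ≠ j → p i ≠ p j) ∧
            (∀ i : ℕ, i + 1 < m → ¬ ∃ a' b' : V, a' ∈ B ∧ b' ∉ B ∧
              ((src (p i) = a' ∧ tgt (p i) = b') ∨ (src (p i) = b' ∧ tgt (p i) = a')))) →
          Prod.mk (insert b B) (insert f H) ∈ S) →
        Prod.mk A F ∈ S) →
      ∀ u ∈ A, ∀ v ∈ A, u ≠ v → ∀ c : Fin k,
        (∀ f : E, f ≠ e → (src f = u ∨ tgt f = u) → φ f ≠ c) →
        ∃ f : E, f ≠ e ∧ (src f = v ∨ tgt f = v) ∧ φ f = c) := by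
  intro h
  have key := h (Fin 6) (Fin 18) H23.Tashkinov.src H23.Tashkinov.tgt 8 0 H23.Tashkinov.phi
    (by decide) H23.Tashkinov.deg H23.Tashkinov.not_col (by decide +kernel)
    (insert 5 (insert 0 {H23.Tashkinov.src 0, H23.Tashkinov.tgt 0})) (insert 15 (insert 3 {0}))
    (by
      intro S h1 h2 h3
      have s2 := h2 _ _ h1 3 (by decide) 2 0 (by decide) (by decide) (by decide)
        (by decide +kernel)
      refine h3 _ _ s2 (by decide +kernel) 7 ⟨15, 16, by decide +kernel⟩ 15 (by decide) (by decide)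
        0 5 (by decide) (by decide) (by decide) 0 (by decide) 0 (by decide +kernel)
        (by decide +kernel) ⟨1, fun i => if i = 0 then 0 else 5, fun _ => 15, by decide, by decide,
          rfl, ?_, ?_, ?_⟩
      · intro i hi
        obtain rfl : i = 0 := by omega
        decide
      · intro i j hi hj hij
        omega
      · intro i hi
        omega)
    0 (by decide) 5 (by decide) (by decide) 0 (by decide +kernel)
  revert key
  decide +kernel

end Pool.Agent.S08710
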