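import Pool.Statements.S08725
import Pool.Agent.H10.Steklov

set_option autoImplicit false
open Classical
open Pool Pool.MP_507ed2_co

namespace Pool.Agent.S08725

/-- For infinite connected bounded-degree graphs G1, G2 roughly quasi-isometric, if every finite vertex set of G1 with boundary B (∣B∣≥2) has first Steklov eigenvalue ≤ C/∣B∣^α, then some constant gives the same bound with the same α for G2. -/
theorem result :
    ∀ (V₁ V₂ : Type) (G₁ : SimpleGraph V₁) (G₂ : SimpleGraph V₂) (α : ℝ), 0 < α →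
      Infinite V₁ → Infinite V₂ → G₁.Connected → G₂.Connected →
      (∃ D : ℕ, ∀ v : V₁, (G₁.neighborSet v).encard ≤ (D : ℕ∞)) →
      (∃ D : ℕ, ∀ v : V₂, (G₂.neighborSet v).encard ≤ (D : ℕ∞)) →
      (∃ φ : V₁ → V₂, ∃ a b c : ℝ, 1 ≤ a ∧ 0 ≤ b ∧ 0 ≤ c ∧
        (∀ x y : V₁, (G₁.dist x y : ℝ) / a - b ≤ (G₂.dist (φ x) (φ y) : ℝ) ∧
          (G₂.dist (φ x) (φ y) : ℝ) ≤ a * (G₁.dist x y : ℝ) + b) ∧
        ∀ z : V₂, ∃ x : V₁, (G₂.dist (φ x) z : ℝ) ≤ c) →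
      (∃ C : ℝ, ∀ Ω B : Finset V₁, (∀ v : V₁, v ∈ B ↔ v ∉ Ω ∧ ∃ u ∈ Ω, G₁.Adj u v) →
        2 ≤ B.card → ∃ f : V₁ → ℝ, ∑ x ∈ B, f x = 0 ∧ 0 < ∑ x ∈ B, f x ^ 2 ∧
          (∑ x ∈ Ω, ∑ y ∈ Ω, (if G₁.Adj x y then (f x - f y) ^ 2 else 0)) / 2 +
            (∑ x ∈ Ω, ∑ y ∈ B, (if G₁.Adj x y then (f x - f y) ^ 2 else 0))
            ≤ C / (B.card : ℝ) ^ α * ∑ x ∈ B, f x ^ 2) →
      (∃ C : ℝ, ∀ Ω B : Finset V₂, (∀ v : V₂, v ∈ B ↔ v ∉ Ω ∧ ∃ u ∈ Ω, G₂.Adj u v) →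
        2 ≤ B.card → ∃ f : V₂ → ℝ, ∑ x ∈ B, f x = 0 ∧ 0 < ∑ x ∈ B, f x ^ 2 ∧
          (∑ x ∈ Ω, ∑ y ∈ Ω, (if G₂.Adj x y then (f x - f y) ^ 2 else 0)) / 2 +
            (∑ x ∈ Ω, ∑ y ∈ B, (if G₂.Adj x y then (f x - f y) ^ 2 else 0))
            ≤ C / (B.card : ℝ) ^ α * ∑ x ∈ B, f x ^ 2) := by
  intro V₁ V₂ G₁ G₂ α hα i1 i2 c₁ c₂ ⟨D₁, d₁⟩ ⟨D₂, d₂⟩ ⟨φ, a, b, c, ha, hb, hc, hφ, hs⟩ ⟨C, hC⟩
  choose ψ hψ using hs
  obtain ⟨A, hA⟩ := exists_nat_ge (a + b + a * b + c)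
  have ab : 0 ≤ a * b := by positivity
  have h1 : ∀ x y, G₂.dist (φ x) (φ y) ≤ A * G₁.dist x y + A := fun x y => by
    have h := (hφ x y).2
    have : a * (G₁.dist x y : ℝ) ≤ A * (G₁.dist x y : ℝ) :=
      mul_le_mul_of_nonneg_right (by linarith) (by positivity)
    have : (G₂.dist (φ x) (φ y) : ℝ) ≤ A * (G₁.dist x y : ℝ) + A := by linarith
    exact_mod_cast this
  have h2 : ∀ x y, G₁.dist x y ≤ A * G₂.dist (φ x) (φ y) + A := fun x y => by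
    have h := (hφ x y).1
    rw [sub_le_iff_le_add, div_le_iff₀ (by linarith)] at h
    have : a * (G₂.dist (φ x) (φ y) : ℝ) ≤ A * (G₂.dist (φ x) (φ y) : ℝ) :=
      mul_le_mul_of_nonneg_right (by linarith) (by positivity)
    have : (G₁.dist x y : ℝ) ≤ A * (G₂.dist (φ x) (φ y) : ℝ) + A := by linarith
    exact_mod_cast this
  have h3 : ∀ z, G₂.dist (φ (ψ z)) z ≤ A := fun z => by
    have : (G₂.dist (φ (ψ z)) z : ℝ) ≤ A := by linarith [hψ z]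
    exact_mod_cast this
  obtain ⟨K, K0, hK⟩ := H10.Steklov.transfer G₁ G₂ c₁ c₂ D₁ D₂ d₁ d₂ φ ψ A h1 h2 h3
  obtain ⟨N, hN⟩ := Filter.eventually_atTop.mp
    ((((tendsto_rpow_atTop hα).comp tendsto_natCast_atTop_atTop).eventually_ge_atTop
      (2 * K * |C|)).and (Filter.eventually_ge_atTop 2))
  have K1 : (0 : ℝ) < K := by exact_mod_cast K0
  refine ⟨2 * K ^ 2 * |C| * (K : ℝ) ^ α + D₂ * ((K * N : ℕ) : ℝ) ^ α, fun Ω B hB h2B => ?_⟩
  obtain ⟨Ω', B', hB', hcard, htr⟩ := hK Ω B hB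
  have B0 : (0 : ℝ) < B.card := by exact_mod_cast (by omega : 0 < B.card)
  have Bα : 0 < (B.card : ℝ) ^ α := by positivity
  by_cases hn : N ≤ B'.card
  · obtain ⟨n1, n2⟩ := hN _ hn
    simp only [Function.comp] at n1
    obtain ⟨f, f0, f1, f2⟩ := hC Ω' B' hB' n2
    change H10.Steklov.En G₁ Ω' B' f ≤ _ at f2
    obtain ⟨m, hm⟩ : ∃ m, m = (∑ z ∈ B, f (ψ z)) / B.card := ⟨_, rfl⟩
    obtain ⟨e1, e2⟩ := htr f m
    have B1 : (0 : ℝ) < B'.card := by exact_mod_cast (by omega : 0 < B'.card)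
    have Bα' : 0 < (B'.card : ℝ) ^ α := by positivity
    have s1 : ∑ x ∈ B', f x ^ 2 ≤ ∑ x ∈ B', (f x - m) ^ 2 := by
      have : ∑ x ∈ B', (f x - m) ^ 2 =
          ∑ x ∈ B', f x ^ 2 - 2 * m * ∑ x ∈ B', f x + ∑ x ∈ B', m ^ 2 := by
        rw [Finset.mul_sum, ← Finset.sum_sub_distrib, ← Finset.sum_add_distrib]
        exact Finset.sum_congr rfl fun x _ => by ring
      have p : 0 ≤ ∑ x ∈ B', m ^ 2 := by positivity
      rw [this, f0]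
      linarith
    obtain ⟨l, hl⟩ : ∃ l, l = |C| / (B'.card : ℝ) ^ α := ⟨_, rfl⟩
    have l0 : 0 ≤ l := by rw [hl]; positivity
    have f3 : H10.Steklov.En G₁ Ω' B' f ≤ l * ∑ x ∈ B', f x ^ 2 := f2.trans <|
      mul_le_mul_of_nonneg_right (by rw [hl]; gcongr; exact le_abs_self C) f1.le
    have l1 : K * l ≤ 1 / 2 := by
      rw [hl, ← mul_div_assoc, div_le_iff₀ Bα']
      linarith
    have l2 : l ≤ |C| * (K : ℝ) ^ α / (B.card : ℝ) ^ α := by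
      rw [hl, div_le_div_iff₀ Bα' Bα, mul_assoc, ← Real.mul_rpow K1.le B1.le]
      gcongr
      exact_mod_cast hcard
    have f4 := mul_le_mul_of_nonneg_left f3 K1.le
    have f5 := mul_le_mul_of_nonneg_right l1 f1.le
    have s2 : ∑ x ∈ B', f x ^ 2 ≤ 2 * K * ∑ z ∈ B, (f (ψ z) - m) ^ 2 := by linarith
    have s3 : 0 < ∑ z ∈ B, (f (ψ z) - m) ^ 2 := by
      by_contra h
      have : 2 * K * ∑ z ∈ B, (f (ψ z) - m) ^ 2 ≤ 0 :=
        mul_nonpos_of_nonneg_of_nonpos (by positivity) (not_lt.mp h)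
      linarith
    refine ⟨fun z => f (ψ z) - m, ?_, s3, ?_⟩
    · rw [Finset.sum_sub_distrib, Finset.sum_const, nsmul_eq_mul, hm]
      field_simp
      ring
    · change H10.Steklov.En G₂ Ω B _ ≤ _
      have f6 := mul_le_mul_of_nonneg_left s2 (mul_nonneg K1.le l0)
      have f7 : 2 * K ^ 2 * l ≤ (2 * K ^ 2 * |C| * (K : ℝ) ^ α + D₂ * ((K * N : ℕ) : ℝ) ^ α) /
          (B.card : ℝ) ^ α := by
        have p : 0 ≤ D₂ * ((K * N : ℕ) : ℝ) ^ α / (B.card : ℝ) ^ α := by positivity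
        have := mul_le_mul_of_nonneg_left l2 (show (0 : ℝ) ≤ 2 * K ^ 2 by positivity)
        rw [add_div, mul_assoc (2 * (K : ℝ) ^ 2), mul_div_assoc]
        linarith
      have f8 := mul_le_mul_of_nonneg_right f7 s3.le
      linarith
  · obtain ⟨u, hu, v, hv, uv⟩ := Finset.one_lt_card.mp h2B
    let f : V₂ → ℝ := fun x => (if x = u then 1 else 0) - (if x = v then 1 else 0)
    have z : ∀ x ∈ Ω, f x = 0 := fun x hx => by
      have a1 : x ≠ u := fun h => ((hB u).mp hu).1 (h ▸ hx)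
      have a2 : x ≠ v := fun h => ((hB v).mp hv).1 (h ▸ hx)
      simp [f, a1, a2]
    have s0 : 0 < ∑ x ∈ B, f x ^ 2 :=
      Finset.sum_pos' (fun x _ => by positivity) ⟨u, hu, by simp [f, uv]⟩
    refine ⟨f, by simp [f, hu, hv], s0, ?_⟩
    have e1 : ∑ x ∈ Ω, ∑ y ∈ Ω, (if G₂.Adj x y then (f x - f y) ^ 2 else 0) = 0 :=
      Finset.sum_eq_zero fun x hx => Finset.sum_eq_zero fun y hy => by simp [z x hx, z y hy]
    have e2 : ∑ x ∈ Ω, ∑ y ∈ B, (if G₂.Adj x y then (f x - f y) ^ 2 else 0) ≤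
        D₂ * ∑ x ∈ B, f x ^ 2 := by
      rw [Finset.sum_comm, Finset.mul_sum]
      refine Finset.sum_le_sum fun y _ => ?_
      refine le_trans (le_of_eq ?_) (H10.Steklov.adj_sum G₂ D₂ d₂ y Ω (fun _ => f y ^ 2) _
        (by positivity) fun _ _ => le_rfl)
      exact Finset.sum_congr rfl fun x hx => by simp [z x hx, G₂.adj_comm]
    have e3 : (D₂ : ℝ) ≤ (2 * K ^ 2 * |C| * (K : ℝ) ^ α + D₂ * ((K * N : ℕ) : ℝ) ^ α) /
        (B.card : ℝ) ^ α := by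
      rw [le_div_iff₀ Bα]
      have p : 0 ≤ 2 * K ^ 2 * |C| * (K : ℝ) ^ α := by positivity
      have : (B.card : ℝ) ^ α ≤ ((K * N : ℕ) : ℝ) ^ α := by
        gcongr
        exact hcard.trans (Nat.mul_le_mul_left _ (by omega))
      have := mul_le_mul_of_nonneg_left this (show (0 : ℝ) ≤ D₂ by positivity)
      linarith
    have := mul_le_mul_of_nonneg_right e3 s0.le
    rw [e1]
    linarith

end Pool.Agent.S08725
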