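import Pool.Statements.S08767
import Pool.Agent.H31.Schemes2

set_option autoImplicit false
open Pool Pool.MP_52f1b6_co

namespace Pool.Agent.S08767

/-- There is g(k,l) so that for k<l, n≥g(k,l), any colouring of k-subsets of an n-set using all r colours with exactly r distinct count-vectors on l-sets admits orderings making the colour-by-scheme count matrix upper triangular with nonzero diagonal. -/
theorem result :
    ∃ g : ℕ → ℕ → ℕ, ∀ k l : ℕ, k < l → ∀ n r : ℕ, g k l ≤ n →
      ∀ c : Finset (Fin n) → Fin r,
        (∀ i : Fin r, ∃ K : Finset (Fin n), K.card = k ∧ c K = i) →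
        (((Finset.univ : Finset (Finset (Fin n))).filter (fun L => L.card = l)).image
            (fun L => fun i : Fin r => ((L.powersetCard k).filter (fun K => c K = i)).card)).card = r →
        ∃ e : Fin r ≃ Fin r, ∃ σ : Fin r → Finset (Fin n),
          (∀ j, (σ j).card = l) ∧
          Function.Injective
            (fun j => fun i : Fin r => (((σ j).powersetCard k).filter (fun K => c K = i)).card) ∧
          (∀ i j : Fin r, j < i →
            (((σ j).powersetCard k).filter (fun K => c K = e i)).card = 0) ∧
          (∀ j : Fin r,
            (((σ j).powersetCard k).filter (fun K => c K = e j)).card ≠ 0) := by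
  classical
  refine ⟨fun k l => if h : k < l then (Pool.Agent.H31.Schemes.one_new k l h).choose else 0,
    fun k l hkl n r hn c hs hc => ?_⟩
  simp only [dif_pos hkl] at hn
  exact Pool.Agent.H31.Schemes.triang (fun L : Finset (Fin n) => L.card = l)
    (Pool.Agent.H31.Schemes.sch k c)
    ((Pool.Agent.H31.Schemes.one_new k l hkl).choose_spec n r hn c hs hc)

end Pool.Agent.S08767
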