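import Pool.Statements.S08780
import Pool.Agent.H1.TwoSq

set_option autoImplicit false
open Pool Pool.MP_53cd62_co

namespace Pool.Agent.S08780

/-- The negation of the preceding statement: For each even d ≥ 2 there are constants C, c > 0 such that for every finite field F of odd characteristic with q elements, every E ⊆ F^d with ∣E∣ ≥ C q^{d/2} has at least c·q distinct values of ∑(x_k − y_k)² over x, y in E. -/
theorem result :
    ¬ (∀ d : ℕ, Even d → 2 ≤ d →
      ∃ C c : ℝ, 0 < C ∧ 0 < c ∧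
        ∀ (F : Type) [Field F] [Fintype F] [DecidableEq F], ringChar F ≠ 2 →
          ∀ E : Finset (Fin d → F),
            C * ((Fintype.card F : ℝ) ^ (d / 2)) ≤ (E.card : ℝ) →
              c * (Fintype.card F : ℝ) ≤
                (((E ×ˢ E).image (fun p => ∑ k, (p.1 k - p.2 k) ^ 2)).card : ℝ)) := by
  classical
  intro h
  obtain ⟨C, c, hC, hc, h⟩ := h 2 even_two le_rfl
  obtain ⟨L, hL⟩ := exists_nat_gt C
  have hL0 : (0 : ℝ) < L := hC.trans hL
  have hL1 : 0 < L := by exact_mod_cast hL0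
  obtain ⟨M, hM, hg⟩ := Pool.Agent.H1.TwoSq.g_small (ε := c / (8 * L)) (by positivity)
  obtain ⟨p, hp, hp1, hp2⟩ := Nat.exists_prime_lt_and_le_two_mul (2 * L * M ^ 2) (by positivity)
  have : Fact p.Prime := ⟨hp⟩
  have hMM : M ≤ M ^ 2 := Nat.le_self_pow (by norm_num) M
  have hN : 2 * L * M ≤ p := (Nat.mul_le_mul_left _ hMM).trans hp1.le
  have hp3 : p ≠ 2 := by
    have : 0 < L * M ^ 2 := by positivity
    rw [mul_assoc] at hp1; omega
  set N := 2 * L * M with hNdef
  let φ : ℕ × ℕ → (Fin 2 → ZMod p) := fun z => ![(z.1 : ZMod p), (z.2 : ZMod p)]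
  have h1 := h (ZMod p) (by rwa [ZMod.ringChar_zmod_n]) ((Finset.range N ×ˢ Finset.range N).image φ)
  have hE : ((Finset.range N ×ˢ Finset.range N).image φ).card = N * N := by
    rw [Finset.card_image_of_injOn, Finset.card_product, Finset.card_range]
    intro x hx y hy hxy
    have hx := Finset.mem_product.1 hx
    have hy := Finset.mem_product.1 hy
    simp only [Finset.mem_range] at hx hy
    have e1 : (x.1 : ZMod p) = y.1 := congrFun hxy 0
    have e2 : (x.2 : ZMod p) = y.2 := congrFun hxy 1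
    rw [ZMod.natCast_eq_natCast_iff', Nat.mod_eq_of_lt (by omega), Nat.mod_eq_of_lt (by omega)] at e1 e2
    exact Prod.ext e1 e2
  rw [hE, ZMod.card] at h1
  have hp1' : (2 : ℝ) * L * M ^ 2 < p := by exact_mod_cast hp1
  have hp2' : (p : ℝ) ≤ 2 * (2 * L * M ^ 2) := by exact_mod_cast hp2
  have hM' : (1 : ℝ) ≤ M := by exact_mod_cast hM
  have h2 := h1 (by
    rw [hNdef]; push_cast
    have : (0 : ℝ) ≤ p := by positivity
    calc C * (p : ℝ) ^ 1 ≤ L * (2 * (2 * L * M ^ 2)) := by rw [pow_one]; gcongr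
      _ = _ := by ring)
  have h3 : ((((Finset.range N ×ˢ Finset.range N).image φ) ×ˢ
      ((Finset.range N ×ˢ Finset.range N).image φ)).image
      (fun q => ∑ k, (q.1 k - q.2 k) ^ 2)) ⊆
      ((Finset.range (2 * N ^ 2)).filter fun n => ∃ a b : ℕ, n = a ^ 2 + b ^ 2).image
        (fun n : ℕ => (n : ZMod p)) := by
    intro z hz
    obtain ⟨⟨u, v⟩, huv, rfl⟩ := Finset.mem_image.1 hz
    obtain ⟨hu, hv⟩ := Finset.mem_product.1 huv
    obtain ⟨x, hx, rfl⟩ := Finset.mem_image.1 hu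
    obtain ⟨y, hy, rfl⟩ := Finset.mem_image.1 hv
    have hx := Finset.mem_product.1 hx
    have hy := Finset.mem_product.1 hy
    simp only [Finset.mem_range] at hx hy
    have key : ∀ a b : ℕ, a < N → b < N → ∃ d : ℕ, d < N ∧ ((a : ZMod p) - b) ^ 2 = (d : ZMod p) ^ 2 := by
      intro a b ha hb
      rcases le_total a b with h | h
      · exact ⟨b - a, by omega, by rw [Nat.cast_sub h]; ring⟩
      · exact ⟨a - b, by omega, by rw [Nat.cast_sub h]⟩
    obtain ⟨d1, hd1, e1⟩ := key _ _ hx.1 hy.1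
    obtain ⟨d2, hd2, e2⟩ := key _ _ hx.2 hy.2
    refine Finset.mem_image.2 ⟨d1 ^ 2 + d2 ^ 2, Finset.mem_filter.2 ⟨Finset.mem_range.2 ?_, d1, d2, rfl⟩, ?_⟩
    · have := Nat.pow_lt_pow_left hd1 (n := 2) (by norm_num)
      have := Nat.pow_lt_pow_left hd2 (n := 2) (by norm_num)
      omega
    · simp only [Fin.sum_univ_two, φ, Matrix.cons_val_zero, Matrix.cons_val_one]
      rw [e1, e2]; push_cast; rfl
  have h4 := ((Finset.card_le_card h3).trans Finset.card_image_le).trans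
    (Pool.Agent.H1.TwoSq.count M (2 * N ^ 2) hM)
  have h5 : 2 * N ^ 2 / M = 8 * L ^ 2 * M := by
    rw [hNdef]
    exact Nat.div_eq_of_eq_mul_left hM (by ring)
  rw [h5] at h4
  have h6 : c * p ≤ (8 * L ^ 2 * M + 1) * (Pool.Agent.H1.TwoSq.g M : ℝ) :=
    h2.trans (by exact_mod_cast h4)
  have h7 : (8 * L ^ 2 * M + 1) * (Pool.Agent.H1.TwoSq.g M : ℝ) ≤
      (8 * L ^ 2 * M + 1) * (c / (8 * L) * M) := by gcongr
  have hL2 : (1 : ℝ) ≤ L := by exact_mod_cast hL1
  have h8 : (8 * L ^ 2 * M + 1) * (c / (8 * L) * M) ≤ (8 * L ^ 2 * M + 8 * L ^ 2 * M) * (c / (8 * L) * M) := by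
    gcongr
    nlinarith
  have h9 : (8 * L ^ 2 * M + 8 * L ^ 2 * M) * (c / (8 * L) * M) = c * (2 * L * M ^ 2) := by
    field_simp; ring
  nlinarith

end Pool.Agent.S08780
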