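import Pool.Statements.S08786
import Pool.Agent.H22.Mader

set_option autoImplicit false
open Pool Pool.MP_542d22_co

namespace Pool.Agent.S08786

/-- The negation of the preceding statement: For every r ≥ 1, every finite loopless multidigraph with at least one vertex and all out-degrees at least r has distinct vertices x, y joined by r pairwise edge-disjoint directed walks from x to y. -/
theorem result :
    ¬ (∀ (r : ℕ), 1 ≤ r → ∀ (V E : Type) [Finite V] [Finite E] [Nonempty V] (tail head : E → V),
      (∀ e, tail e ≠ head e) →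
      (∀ v : V, r ≤ Nat.card {e : E // tail e = v}) →
      ∃ x y : V, x ≠ y ∧ ∃ P : Fin r → List E,
        (∀ i, P i ≠ [] ∧ (∀ e ∈ (P i).head?, tail e = x) ∧
          (∀ e ∈ (P i).getLast?, head e = y) ∧
          ∀ (k : ℕ) (a b : E), (P i)[k]? = some a → (P i)[k+1]? = some b → head a = tail b) ∧
        ∀ i j, i ≠ j → ∀ e ∈ P i, e ∉ P j) := by
  intro h
  obtain ⟨x, y, hxy, P, h1, h2⟩ := h 4 (by norm_num) (Fin 8) (Fin 32) H22.Mader.tl H22.Mader.hd
    H22.Mader.loopless H22.Mader.outdeg
  exact H22.Mader.main x y hxy P h1 h2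

end Pool.Agent.S08786
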