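import Pool.Statements.S08874

set_option autoImplicit false
open Pool Pool.MP_5833ce_co

namespace Pool.Agent.S08874

/-- Rows of the matrix A+I of the counterexample on 24 vertices, as bit masks.  The vertices are
24 points of the projective space of dimension 4 over the field with three elements, and the
entry at (x,y) is the square of the form x1y1+x2y2+x3y3+x4y4-x5y5. -/
def rows : List ℕ :=
  [16055737, 15989178, 16764476, 12230447, 8056503, 15590079, 16775104, 14333683, 15400779,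
   524284, 15960029, 14506783, 8248267, 12411891, 9829239, 9623551, 16088678, 16156638,
   16218725, 16267772, 12582111, 8336767, 15670775, 14675439]

def mb (a b : Fin 24) : Bool := (rows.getD a.val 0).testBit b.val

theorem mb_symm : ∀ a b : Fin 24, mb a b = mb b a := by decide +kernel

theorem mb_diag : ∀ a : Fin 24, mb a a = true := by decide +kernel

def gr : SimpleGraph (Fin 24) where
  Adj a b := a ≠ b ∧ mb a b = true
  symm := ⟨fun a b h => ⟨h.1.symm, by rw [mb_symm]; exact h.2⟩⟩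
  loopless := ⟨fun a h => h.1 rfl⟩

instance : DecidableRel gr.Adj := fun a b =>
  inferInstanceAs (Decidable (a ≠ b ∧ mb a b = true))

def mz (a b : Fin 24) : ZMod 3 := if mb a b = true then 1 else 0

theorem sum_eq (f : Fin 24 → ZMod 3) (v : Fin 24) :
    f v + ∑ w ∈ gr.neighborFinset v, f w = ∑ w, mz v w * f w := by
  rw [← Finset.add_sum_erase Finset.univ _ (Finset.mem_univ v)]
  have h1 : mz v v = 1 := by simp [mz, mb_diag]
  rw [h1, one_mul]
  congr 1
  rw [SimpleGraph.neighborFinset_eq_filter, Finset.sum_filter]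
  rw [← Finset.add_sum_erase Finset.univ _ (Finset.mem_univ v)]
  simp only [SimpleGraph.irrefl, if_false, zero_add]
  refine Finset.sum_congr rfl fun w hw => ?_
  have hne : v ≠ w := (Finset.ne_of_mem_erase hw).symm
  by_cases h : mb v w = true
  · have : gr.Adj v w := ⟨hne, h⟩
    simp [mz, h, this]
  · have : ¬ gr.Adj v w := fun hh => h hh.2
    simp [mz, h, this]

/-- Coefficients expressing rows 11 to 23 through rows 0 to 10. -/
def co : List (List ℕ) :=
  [[1, 1, 1, 2, 2, 2, 0, 0, 0, 0, 0],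
   [0, 0, 1, 0, 1, 1, 2, 0, 2, 0, 0],
   [1, 1, 2, 0, 2, 2, 2, 2, 0, 0, 0],
   [0, 0, 0, 0, 2, 1, 2, 0, 1, 1, 0],
   [0, 0, 1, 0, 2, 0, 1, 0, 2, 1, 0],
   [0, 2, 2, 2, 2, 0, 2, 2, 2, 0, 1],
   [0, 0, 1, 1, 1, 0, 1, 1, 1, 2, 2],
   [2, 0, 0, 0, 0, 0, 0, 0, 0, 2, 2],
   [0, 0, 2, 0, 0, 0, 2, 0, 0, 2, 0],
   [2, 2, 1, 2, 1, 1, 1, 1, 0, 2, 0],
   [0, 0, 2, 0, 1, 2, 1, 0, 1, 2, 0],
   [0, 0, 0, 0, 0, 2, 0, 0, 2, 2, 0],
   [2, 2, 2, 1, 1, 1, 0, 2, 0, 2, 0]]

def cz (i : Fin 13) (b : Fin 11) : ZMod 3 := (((co.getD i.val []).getD b.val 0 : ℕ) : ZMod 3)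

def bas (b : Fin 11) : Fin 24 := ⟨b.val, by omega⟩
def dep (i : Fin 13) : Fin 24 := ⟨i.val + 11, by omega⟩

theorem rel : ∀ (i : Fin 13) (w : Fin 24), mz (dep i) w = ∑ b, cz i b * mz (bas b) w := by
  decide +kernel

def sg (x : Bool) : ZMod 3 := if x then 1 else 2

theorem fin_check : ∀ x0 x1 x2 x3 x4 x5 x6 x7 x8 x9 x10 : Bool, ∃ i : Fin 13,
    cz i 0 * sg x0 + cz i 1 * sg x1 + cz i 2 * sg x2 + cz i 3 * sg x3 + cz i 4 * sg x4
      + cz i 5 * sg x5 + cz i 6 * sg x6 + cz i 7 * sg x7 + cz i 8 * sg x8 + cz i 9 * sg x9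
      + cz i 10 * sg x10 = 0 := by
  decide +kernel

theorem sg_ex : ∀ a : ZMod 3, a ≠ 0 → ∃ x, a = sg x := by decide

/-- The negation of the preceding statement: For every k ≥ 2 and every finite simple graph, some labeling of the vertices by integers mod k makes the sum of labels over each vertex's closed neighbourhood nonzero mod k. -/
theorem result :
    ¬ (∀ k : ℕ, 2 ≤ k →
      ∀ (V : Type) [Fintype V] (G : SimpleGraph V) [DecidableRel G.Adj],
        ∃ f : V → ZMod k, ∀ v : V, f v + ∑ w ∈ G.neighborFinset v, f w ≠ 0) := by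
  intro h
  obtain ⟨f, hf⟩ := h 3 (by norm_num) (Fin 24) gr
  simp only [sum_eq] at hf
  have key : ∀ i : Fin 13, ∑ w, mz (dep i) w * f w
      = ∑ b, cz i b * ∑ w, mz (bas b) w * f w := by
    intro i
    simp only [rel, Finset.sum_mul, Finset.mul_sum, mul_assoc]
    exact Finset.sum_comm
  choose x hx using fun b : Fin 11 => sg_ex _ (hf (bas b))
  obtain ⟨i, hi⟩ := fin_check (x 0) (x 1) (x 2) (x 3) (x 4) (x 5) (x 6) (x 7) (x 8) (x 9) (x 10)
  apply hf (dep i)
  rw [key]
  simp only [hx]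
  simpa [Fin.sum_univ_succ, add_assoc] using hi

end Pool.Agent.S08874
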