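import Pool.Statements.S08910
-- import your own Pool.Agent.* helpers here

set_option autoImplicit false
open Pool Pool.MP_598d99_co

namespace Pool.Agent.S08910

/-- The negation of the preceding statement: For any colouring of the s-subsets of an N-set with m colours, when s ≤ t and t+1 ≤ N/2, the number of distinct colour-count vectors of t-subsets is at most that of (t+1)-subsets. -/
theorem result :
    ¬ (∀ (N s m : ℕ) (c : Finset (Fin N) → Fin m) (t : ℕ),
      s ≤ t → 2 * (t + 1) ≤ N →
        (((Finset.univ : Finset (Fin N)).powersetCard t).image
            (fun T : Finset (Fin N) => fun i : Fin m =>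
              ((T.powersetCard s).filter (fun S => c S = i)).card)).card
        ≤
        (((Finset.univ : Finset (Fin N)).powersetCard (t + 1)).image
            (fun T : Finset (Fin N) => fun i : Fin m =>
              ((T.powersetCard s).filter (fun S => c S = i)).card)).card) := by
  intro h
  have := h 10 2 2 (fun S => if (∀ x ∈ S, 6 ≤ x.val) ∨
    ((∃ x ∈ S, x.val < 3) ∧ ∃ x ∈ S, 3 ≤ x.val ∧ x.val < 6) then 1 else 0) 4 (by norm_num) (by norm_num)
  revert this
  decide +kernel

end Pool.Agent.S08910
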