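import Pool.Statements.S08938
import Pool.Agent.H6.MetricPolytope

set_option autoImplicit false
open Pool Pool.MP_5ac6d8_co

namespace Pool.Agent.S08938

/-- The negation of the preceding statement: Every bounded full-dimensional polytope in d-dimensional Euclidean space (d ≥ 1) given by m linear inequalities can be covered by m of its subsets, each of strictly smaller diameter than the polytope. -/
theorem result :
    ¬ (∀ (d m : ℕ) (a : Fin m → EuclideanSpace ℝ (Fin d)) (b : Fin m → ℝ)
      (P : Set (EuclideanSpace ℝ (Fin d))),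
      1 ≤ d →
      P = ⋂ i, {x : EuclideanSpace ℝ (Fin d) | @inner ℝ _ _ (a i) x ≤ b i} →
      Bornology.IsBounded P →
      (interior P).Nonempty →
      ∃ S : Fin m → Set (EuclideanSpace ℝ (Fin d)),
        (∀ i, S i ⊆ P ∧ Metric.diam (S i) < Metric.diam P) ∧ P ⊆ ⋃ i, S i) := by
  intro h
  open Pool.Agent.H6.MetricPolytope in
  obtain ⟨S, hS, hc⟩ := h d m (fun c => av (ec.symm c)) (fun _ => 1) P one_le_d rfl bounded_P
    interior_P
  exact Pool.Agent.H6.MetricPolytope.no_cover S hS hc

end Pool.Agent.S08938
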