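import Pool.Statements.S08958
import Pool.Agent.H16.PsEar
import Pool.Agent.H16.PsEar2

set_option autoImplicit false
open Pool Pool.MP_5b9ab2_co

namespace Pool.Agent.S08958


/-- The negation of the preceding statement: For every complex with a PS ear decomposition (a PS-sphere with PS-balls of the same dimension attached along their boundaries), its h-vector is the degree-count vector of a finite pure multicomplex of monomials. -/
theorem result :
    ¬ (∀ (n d : ℕ) (Δ : Finset (Finset (Fin n))),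
    (∃ (m : ℕ) (A : ℕ → Finset (Fin n)) (P : ℕ → Finset (Finset (Fin n)))
        (E : ℕ → Finset (Finset (Fin n))),
      (∀ j, E j = (A j ∪ (P j).sup id).powerset.filter (fun F => ∀ B ∈ P j, ¬ B ⊆ F)) ∧
      A 0 = ∅ ∧
      (∀ j ≤ m, (∀ B ∈ P j, 2 ≤ B.card ∧ Disjoint (A j) B) ∧
        (∀ B ∈ P j, ∀ C ∈ P j, B ≠ C → Disjoint B C) ∧
        (A j).card + ∑ B ∈ P j, (B.card - 1) = d) ∧
      (∀ j, 1 ≤ j → j ≤ m → (A j).Nonempty ∧
        ((Finset.range j).biUnion E) ∩ E j = (E j).filter (fun F => ¬ A j ⊆ F)) ∧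
      Δ = (Finset.range (m + 1)).biUnion E) →
    ∃ (r : ℕ) (M : Finset (Fin r → ℕ)),
      (∀ μ ∈ M, ∀ ν : Fin r → ℕ, ν ≤ μ → ν ∈ M) ∧
      (∀ μ ∈ M, ∀ ν ∈ M, (∀ κ ∈ M, μ ≤ κ → κ = μ) → (∀ κ ∈ M, ν ≤ κ → κ = ν) →
        ∑ i, μ i = ∑ i, ν i) ∧
      ∀ k : ℕ, (((M.filter (fun μ => ∑ i, μ i = k)).card : ℤ) =
        if k ≤ d then
          ∑ i ∈ Finset.range (k + 1), (-1 : ℤ) ^ (k - i) * (((d - i).choose (k - i) : ℕ) : ℤ) *
            ((Δ.filter (fun F => F.card = i)).card : ℤ)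
        else 0)) := by
  intro H
  obtain ⟨r, M, hd, hp, hk⟩ := H 10 7 ((Finset.range (2 + 1)).biUnion Pool.Agent.H16.PsEar2.E)
    ⟨2, Pool.Agent.H16.PsEar2.A, Pool.Agent.H16.PsEar2.P, Pool.Agent.H16.PsEar2.E, fun _ => rfl, rfl,
      fun j hj => Pool.Agent.H16.PsEar2.shape j (Finset.mem_range.2 (by omega)), by
      intro j h1 h2
      have hj : j = 1 ∨ j = 2 := by omega
      rcases hj with rfl | rfl
      · exact ⟨⟨9, by decide⟩, Pool.Agent.H16.PsEar2.int1⟩
      · exact ⟨⟨9, by decide⟩, Pool.Agent.H16.PsEar2.int2⟩, rfl⟩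
  have hv : ∀ k ∈ Finset.range 8, ((M.filter (fun μ => ∑ i, μ i = k)).card : ℤ) =
      [1, 3, 6, 7, 8, 7, 5, 3].getD k 0 := by
    intro k hk8
    rw [hk k, if_pos (by have := Finset.mem_range.1 hk8; omega)]
    rw [Finset.sum_congr rfl (g := fun i => (-1 : ℤ) ^ (k - i) * (((7 - i).choose (k - i) : ℕ) : ℤ) *
      (([1, 10, 45, 117, 191, 199, 126, 40].getD i 0 : ℕ) : ℤ)) (fun i hi => by
        rw [Pool.Agent.H16.PsEar2.fvec i (by
          have := Finset.mem_range.1 hk8
          have := Finset.mem_range.1 hi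
          exact Finset.mem_range.2 (by omega))])]
    clear hk
    revert k
    decide +kernel
  refine Pool.Agent.H16.PsEar.not_pure r M hd hp ?_ ?_ ?_ ?_ ?_ ?_ ?_ ?_
  · exact Int.natCast_inj.1 ((hv 1 (by decide)).trans (by decide))
  · exact Int.natCast_inj.1 ((hv 2 (by decide)).trans (by decide))
  · exact Int.natCast_inj.1 ((hv 3 (by decide)).trans (by decide))
  · exact Int.natCast_inj.1 ((hv 4 (by decide)).trans (by decide))
  · exact Int.natCast_inj.1 ((hv 5 (by decide)).trans (by decide))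
  · exact Int.natCast_inj.1 ((hv 6 (by decide)).trans (by decide))
  · exact Int.natCast_inj.1 ((hv 7 (by decide)).trans (by decide))
  · intro μ hμ
    by_contra hlt
    have h0 := hk (∑ i, μ i)
    rw [if_neg hlt] at h0
    have : (M.filter (fun ν => ∑ i, ν i = ∑ i, μ i)).card = 0 := by exact_mod_cast h0
    rw [Finset.card_eq_zero] at this
    have hm : μ ∈ M.filter (fun ν => ∑ i, ν i = ∑ i, μ i) := Finset.mem_filter.2 ⟨hμ, rfl⟩
    rw [this] at hm
    exact absurd hm (Finset.notMem_empty _)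

end Pool.Agent.S08958
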