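import Pool.Statements.S08963
import Pool.Agent.H28.Eu5

set_option autoImplicit false
open MvPolynomial
open Pool Pool.MP_5bb951_co

namespace Pool.Agent.S08963

/-- For every Eulerian graded poset with 0̂,1̂ of rank 2m+1 whose rank-sum forms are a regular sequence in its face ring over a char-2 field, multiplication by a generic linear form ω on k[P]/(θ) satisfies ker ω_i = im ω_{i−1} for all i<m. -/
theorem result :
  ∀ (m : ℕ) (P : Type) [PartialOrder P] [Fintype P] [BoundedOrder P] [GradeOrder ℕ P],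
    grade ℕ (⊥ : P) = 0 → grade ℕ (⊤ : P) = 2 * m + 1 →
    (∀ x y : P, x < y →
      Nat.card {z : P // x ≤ z ∧ z ≤ y ∧ Even (grade ℕ z)} =
        Nat.card {z : P // x ≤ z ∧ z ≤ y ∧ ¬ Even (grade ℕ z)}) →
    ∀ (k : Type) [Field k] [Algebra (ZMod 2) k],
    RingTheory.Sequence.IsWeaklyRegular
      (MvPolynomial P k ⧸ Ideal.span {f : MvPolynomial P k | ∃ x y : P, ¬ x ≤ y ∧ ¬ y ≤ x ∧ f = X x * X y})
      ((List.range (2 * m + 2)).map (fun i : ℕ =>
        Ideal.Quotient.mk (Ideal.span {f : MvPolynomial P k | ∃ x y : P, ¬ x ≤ y ∧ ¬ y ≤ x ∧ f = X x * X y})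
          (∑ x : P, if grade ℕ x = i then (X x : MvPolynomial P k) else 0))) →
    ∀ c : P → k, AlgebraicIndependent (ZMod 2) c →
    ∀ i : ℕ, i < m → ∀ p : MvPolynomial P k, p.IsHomogeneous i →
      Ideal.Quotient.mk
          (Ideal.span {f : MvPolynomial P k | ∃ x y : P, ¬ x ≤ y ∧ ¬ y ≤ x ∧ f = X x * X y} ⊔
            Ideal.span (Set.range (fun j : Fin (2 * m + 2) =>
              ∑ x : P, if grade ℕ x = (j : ℕ) then (X x : MvPolynomial P k) else 0)))
          ((∑ x : P, C (c x) * X x) * p) = 0 →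
      (i = 0 ∧
        Ideal.Quotient.mk
          (Ideal.span {f : MvPolynomial P k | ∃ x y : P, ¬ x ≤ y ∧ ¬ y ≤ x ∧ f = X x * X y} ⊔
            Ideal.span (Set.range (fun j : Fin (2 * m + 2) =>
              ∑ x : P, if grade ℕ x = (j : ℕ) then (X x : MvPolynomial P k) else 0))) p = 0) ∨
      (0 < i ∧ ∃ q : MvPolynomial P k, q.IsHomogeneous (i - 1) ∧
        Ideal.Quotient.mk
          (Ideal.span {f : MvPolynomial P k | ∃ x y : P, ¬ x ≤ y ∧ ¬ y ≤ x ∧ f = X x * X y} ⊔
            Ideal.span (Set.range (fun j : Fin (2 * m + 2) =>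
              ∑ x : P, if grade ℕ x = (j : ℕ) then (X x : MvPolynomial P k) else 0))) p =
        Ideal.Quotient.mk
          (Ideal.span {f : MvPolynomial P k | ∃ x y : P, ¬ x ≤ y ∧ ¬ y ≤ x ∧ f = X x * X y} ⊔
            Ideal.span (Set.range (fun j : Fin (2 * m + 2) =>
              ∑ x : P, if grade ℕ x = (j : ℕ) then (X x : MvPolynomial P k) else 0)))
          ((∑ x : P, C (c x) * X x) * q)) := by
  intro m P _ _ _ _ h0 h1 hE k _ _ hR c hc i hi p hp e
  classical
  obtain ⟨Dr, hD⟩ := H28.Eu.der P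
  letI : Algebra (FractionRing (MvPolynomial P (ZMod 2))) k := (IsFractionRing.lift
    (g := (aeval c : MvPolynomial P (ZMod 2) →ₐ[ZMod 2] k).toRingHom) hc).toAlgebra
  have ec : ∀ x, algebraMap (FractionRing (MvPolynomial P (ZMod 2))) k
      (algebraMap (MvPolynomial P (ZMod 2)) _ (X x)) = c x := fun x =>
    (IsFractionRing.lift_algebraMap _ _).trans (aeval_X c x)
  have et : ∀ j, (∑ x : P, if grade ℕ x = j then (X x : MvPolynomial P k) else 0) =
      H28.Eu.th k (grade ℕ) j := fun j => Finset.sum_congr rfl fun _ _ => by congr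
  have er : Set.range (fun j : Fin (2 * m + 2) => H28.Eu.th k (grade ℕ : P → ℕ) j) =
      H28.Eu.th k (grade ℕ) '' Set.Iio (2 * m + 2) :=
    Set.ext fun _ => ⟨fun ⟨j, a⟩ => ⟨j, j.2, a⟩, fun ⟨j, a, b⟩ => ⟨⟨j, a⟩, b⟩⟩
  simp only [et, er, Ideal.Quotient.eq_zero_iff_mem, Ideal.Quotient.eq] at hR e ⊢
  obtain ⟨q, a, b, d⟩ := H28.Eu.fin (k := k) grade_strictMono h0 h1 (fun x y h => by
      have := hE x y h
      simp only [Nat.card_eq_fintype_card, Fintype.card_subtype, ← and_assoc,
        ← Finset.filter_filter] at this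
      rw [← Finset.sum_filter_add_sum_filter_not _ fun z => Even (grade ℕ z),
        Finset.sum_congr rfl fun z hz => (Finset.mem_filter.1 hz).2.neg_one_pow,
        Finset.sum_congr rfl fun z hz =>
          (Nat.not_even_iff_odd.1 (Finset.mem_filter.1 hz).2).neg_one_pow]
      simp only [Finset.sum_const, nsmul_eq_mul, mul_one, mul_neg, add_neg_eq_zero, Nat.cast_inj]
      convert this using 3 <;> simp [Finset.filter_filter]) hD (fun j hj r hr => by
      have h2 := hR.regular_mod_prev j (by simp; omega)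
      have e2 : (Ideal.ofList (((List.range (2 * m + 2)).map fun i : ℕ =>
          Ideal.Quotient.mk (H28.Eu.II k P) (H28.Eu.th k (grade ℕ) i)).take j) • ⊤ :
          Submodule _ (MvPolynomial P k ⧸ H28.Eu.II k P)) =
          (Ideal.span (H28.Eu.th k (grade ℕ) '' Set.Iio j)).map (Ideal.Quotient.mk _) := by
        rw [Ideal.smul_eq_mul, Ideal.mul_top, Ideal.map_span, Ideal.ofList, ← List.map_take,
          List.take_range, min_eq_left (by omega)]
        congr 1
        ext
        simp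
      rw [isSMulRegular_quotient_iff_mem_of_smul_mem] at h2
      rw [sup_comm, ← Ideal.mem_quotient_iff_mem_sup, ← e2] at hr ⊢
      refine h2 _ ?_
      rw [List.getElem_map, List.getElem_range]
      exact hr) hi hp (by simp only [ec]; exact e)
  simp only [ec] at d
  rcases i.eq_zero_or_pos with f | f
  · exact Or.inl ⟨f, by rwa [b f, mul_zero, sub_zero] at d⟩
  · exact Or.inr ⟨f, q, a, d⟩

end Pool.Agent.S08963
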