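import Pool.Statements.S09017
import Pool.Agent.H26.Ap4

set_option autoImplicit false
open Classical
open Pool Pool.MP_5d5585_co

namespace Pool.Agent.S09017

/-- For d≥3 there are c1,c2>0 such that for any finite X in R^d of diameter ≤1 with ∣X∣≥c1·ε1^(-d), the pairs at distance ≤ε1 number at least c2·ε1^d·ε2^(-(d+1)/2) (if ε1≤ε2), else c2·ε1^((d-1)/2), times the pairs at distance ≥1−ε2. -/
theorem result :
    ∀ d : ℕ, 3 ≤ d →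
      ∃ c₁ c₂ : ℝ, 0 < c₁ ∧ 0 < c₂ ∧
        ∀ ε₁ ε₂ : ℝ, 0 < ε₁ → ε₁ < 1 → 0 < ε₂ → ε₂ < 1 →
          ∀ X : Finset (EuclideanSpace ℝ (Fin d)),
            (∀ x ∈ X, ∀ y ∈ X, dist x y ≤ 1) →
            c₁ * ε₁ ^ (-(d : ℝ)) ≤ (X.card : ℝ) →
            (ε₁ ≤ ε₂ →
              c₂ * ε₁ ^ (d : ℝ) * ε₂ ^ (-(((d : ℝ) + 1) / 2)) *
                  ((X.offDiag.filter (fun p => 1 - ε₂ ≤ dist p.1 p.2)).card : ℝ)
                ≤ ((X.offDiag.filter (fun p => dist p.1 p.2 ≤ ε₁)).card : ℝ)) ∧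
            (ε₂ < ε₁ →
              c₂ * ε₁ ^ (((d : ℝ) - 1) / 2) *
                  ((X.offDiag.filter (fun p => 1 - ε₂ ≤ dist p.1 p.2)).card : ℝ)
                ≤ ((X.offDiag.filter (fun p => dist p.1 p.2 ≤ ε₁)).card : ℝ)) := by
  intro d hd
  obtain ⟨m, rfl⟩ : ∃ m, d = m + 1 := ⟨d - 1, by omega⟩
  obtain ⟨c₁, c₂, h1, h2, h⟩ := Pool.Agent.H26.Ap.core m (by omega)
  refine ⟨c₁, c₂, h1, h2, fun ε₁ ε₂ a1 a2 a3 a4 X hX hc => ⟨fun h12 => h ε₁ ε₂ a1 a4 h12 X hX hc,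
    fun h21 => ?_⟩⟩
  have h3 := h ε₁ ε₁ a1 a2 le_rfl X hX hc
  rw [mul_assoc c₂, ← Real.rpow_add a1] at h3
  have e : ((m + 1 : ℕ) : ℝ) + -((((m + 1 : ℕ) : ℝ) + 1) / 2) = (((m + 1 : ℕ) : ℝ) - 1) / 2 := by
    ring
  rw [e] at h3
  refine le_trans (mul_le_mul_of_nonneg_left ?_ (by positivity)) h3
  refine Nat.cast_le.2 (Finset.card_le_card fun p hp => ?_)
  rw [Finset.mem_filter] at hp ⊢
  exact ⟨hp.1, by linarith [hp.2]⟩

end Pool.Agent.S09017
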