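import Pool.Statements.S09026
import Pool.Agent.Lead.Goddyn

set_option autoImplicit false
open scoped Classical
open Pool Pool.MP_5dc923_co

namespace Pool.Agent.S09026

open Pool.Agent.Lead.Goddyn Pool.Agent.Lead.Cov4 in
theorem result :
    ¬ (∀ (V : Type) [Fintype V] (G : SimpleGraph V) (w : Sym2 V → ℕ),
    (∀ a b : V, G.Adj a b → (G \ SimpleGraph.fromEdgeSet {s(a, b)}).Reachable a b) →
    (∀ a b : V, G.Adj a b → 2 ≤ w s(a, b)) →
    (∀ v : V, Even (∑ u : V, if G.Adj v u then w s(v, u) else 0)) →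
    (∀ S : Finset V, ∀ a b : V, a ∈ S → b ∉ S → G.Adj a b →
      2 * w s(a, b) ≤
        ∑ u : V, ∑ v : V, if (u ∈ S ∧ v ∉ S ∧ G.Adj u v) then w s(u, v) else 0) →
    ∃ (n : ℕ) (x : Fin n → V) (p : ∀ i, G.Walk (x i) (x i)),
      (∀ i, (p i).IsCycle) ∧
      ∀ a b : V, G.Adj a b →
        (∑ i : Fin n, if s(a, b) ∈ (p i).edges then 1 else 0) = w s(a, b)) := by
  intro h
  obtain ⟨n, x, p, hp, hs⟩ := h (Fin 10) G w
    (fun a b hab => by
      obtain ⟨c, d, e, h1, h2, h3, h4⟩ := bridge0 a b hab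
      have k : ∀ u v : Fin 10, (adj u v = true ∧ s(u, v) ≠ s(a, b)) →
          (G \ SimpleGraph.fromEdgeSet {s(a, b)}).Reachable u v := by
        intro u v huv
        refine SimpleGraph.Adj.reachable ?_
        rw [SimpleGraph.sdiff_adj, SimpleGraph.fromEdgeSet_adj]
        exact ⟨huv.1, fun hh => huv.2 hh.1⟩
      exact (k _ _ h1).trans ((k _ _ h2).trans ((k _ _ h3).trans (k _ _ h4))))
    (fun a b _ => (w0_bd a b).1)
    (fun v => by
      have := even0 v
      convert this using 3 <;> rfl)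
    (fun S a b ha hb _ => by
      rcases cut0 (fun u => decide (u ∈ S)) with h1 | h1
      · have := h1 a b
        simp [ha, hb] at this
      · refine le_trans (w0_bd a b).2 (le_trans h1 (le_of_eq ?_))
        refine Finset.sum_congr rfl (fun u _ => Finset.sum_congr rfl (fun v _ => ?_))
        have e : (decide (u ∈ S) = true ∧ ¬ decide (v ∈ S) = true ∧ adj u v = true) ↔ (u ∈ S ∧ v ∉ S ∧ G.Adj u v) := by
          simp [G]
        simp only [e, w_mk])
  refine Lead.Goddyn.no_cover x p hp (fun e => ?_)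
  have h1 := hs (Lead.Goddyn.A e) (Lead.Goddyn.B e) (ed_adj e)
  rw [w_mk] at h1
  rw [← h1]
  push_cast
  refine Finset.sum_congr rfl (fun i _ => ?_)
  have : s(Lead.Goddyn.A e, Lead.Goddyn.B e) = ed e := rfl
  rw [this]
  by_cases hj : ed e ∈ (p i).edges <;> simp [I, hj]

end Pool.Agent.S09026
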