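import Pool.Statements.S09056
import Pool.Agent.H16.InterCount2

set_option autoImplicit false
open Pool Pool.MP_5f100a_co

namespace Pool.Agent.S09056

open Pool.Agent.H16.InterCount

/-- The negation of the preceding statement: For all n and N with 2^(n-1) < N ≤ 2^n, some family of N subsets of an n-set has, for every s, at least as many s-element pairwise-intersecting subfamilies as any other family of N subsets. -/
theorem result :
    ¬ (∀ n N : ℕ, 2 ^ (n - 1) < N → N ≤ 2 ^ n →
      ∃ A : Finset (Finset (Fin n)), A.card = N ∧
        ∀ s : ℕ, ∀ B : Finset (Finset (Fin n)), B.card = N →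
          ((B.powersetCard s).filter
              (fun F => ∀ X ∈ F, ∀ Y ∈ F, X ≠ Y → ¬ Disjoint X Y)).card ≤
          ((A.powersetCard s).filter
              (fun F => ∀ X ∈ F, ∀ Y ∈ F, X ≠ Y → ¬ Disjoint X Y)).card) := by
  intro h
  obtain ⟨A, hA, h2⟩ := h 7 109 (by norm_num) (by norm_num)
  refine final A hA (fun s B hB => ?_)
  unfold ic
  convert h2 s B hB

end Pool.Agent.S09056
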