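import Pool.Statements.S09078
import Pool.Agent.H28.Ex5

set_option autoImplicit false
open scoped Classical
open Pool Pool.MP_5f9c07_co

namespace Pool.Agent.S09078

/-- The negation of the preceding statement: For every finite field of order q and k ≥ 1, every simple GF(q)-representable tangential k-block isomorphic to the simplification of a quotient of the cycle matroid of K_{q^k+1} has a modular hyperplane. -/
theorem result :
    ¬ (∀ (F : Type) [Field F] [Fintype F] (k : ℕ), 1 ≤ k →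
  ∀ (α : Type) [Fintype α] (M : Matroid α),
    (∃ (n : ℕ) (v : α → Fin n → F),
      ∀ I ⊆ M.E, (M.Indep I ↔ LinearIndependent F (fun x : I => v x))) →
    (∀ e ∈ M.E, ∀ f ∈ M.E, M.Indep {e, f}) →
    (∀ j ≤ k,
      (∑ X ∈ Finset.univ.filter (fun X : Finset α => (↑X : Set α) ⊆ M.E),
        (-1 : ℤ) ^ X.card * ((Fintype.card F : ℤ) ^ j) ^
          ((M.eRk M.E).toNat - (M.eRk (↑X : Set α)).toNat)) ≤ 0) →
    (∀ N : Matroid α,
      (∃ C D : Set α, C ⊆ M.E ∧ D ⊆ M.E ∧ Disjoint C D ∧ (C ∪ D).Nonempty ∧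
        N = (M.contract C).delete D) →
      (∀ e ∈ N.E, ∀ f ∈ N.E, N.Indep {e, f}) →
      ∃ j ≤ k, 0 <
        (∑ X ∈ Finset.univ.filter (fun X : Finset α => (↑X : Set α) ⊆ N.E),
          (-1 : ℤ) ^ X.card * ((Fintype.card F : ℤ) ^ j) ^
            ((N.eRk N.E).toNat - (N.eRk (↑X : Set α)).toNat))) →
    (∃ K Q : Matroid (Sym2 (Fin (Fintype.card F ^ k + 1))),
      K.E = {e | ¬ e.IsDiag} ∧
      (∀ I ⊆ K.E, (K.Indep I ↔ (SimpleGraph.fromEdgeSet I).IsAcyclic)) ∧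
      Q.E = K.E ∧ (∀ X, Q.IsFlat X → K.IsFlat X) ∧
      ∃ S ⊆ Q.E, (∀ e ∈ S, ∀ f ∈ S, Q.Indep {e, f}) ∧
        (∀ e ∈ Q.E, Q.Indep {e} → ∃ f ∈ S, e = f ∨ ¬ Q.Indep {e, f}) ∧
        ∃ g : α → Sym2 (Fin (Fintype.card F ^ k + 1)),
          Set.InjOn g M.E ∧ g '' M.E = S ∧
          ∀ I ⊆ M.E, (M.Indep I ↔ Q.Indep (g '' I))) →
    ∃ H : Set α, M.IsFlat H ∧ M.eRk H + 1 = M.eRk M.E ∧
      ∀ X : Set α, M.IsFlat X →
        M.eRk H + M.eRk X = M.eRk (H ∪ X) + M.eRk (H ∩ X)) := by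
  intro h
  have hcard : Fintype.card (ZMod 5) ^ 1 + 1 = 6 := by simp
  obtain ⟨H, h1, h2, h3⟩ := h (ZMod 5) 1 le_rfl (Fin 10) Pool.Agent.H28.Ex5.M
    ⟨3, _, Pool.Agent.H28.Crit.represents_of_rep Pool.Agent.H28.Ex5.rep⟩ Pool.Agent.H28.Ex5.simple
    (fun j hj => by
      by_contra hcon
      refine Pool.Agent.H28.Ex5.block ⟨j, hj, ?_⟩
      unfold Pool.Agent.H28.TangDefs.charPoly
      convert lt_of_not_ge hcon)
    (by
      rintro N ⟨C, D, hC, hD, -, hne, rfl⟩ hs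
      obtain ⟨j, hj, hpos⟩ := Pool.Agent.H28.Crit.critLE_of_tangents Pool.Agent.H28.Ex5.rep
        Pool.Agent.H28.Ex5.simple 1 Pool.Agent.H28.Ex5.tangents hC hD hne
        (fun e he => by simpa using hs e he e he)
      refine ⟨j, hj, ?_⟩
      unfold Pool.Agent.H28.TangDefs.charPoly at hpos
      convert hpos)
    (by
      have := Pool.Agent.H28.Ex5.normal
      rw [← hcard] at this
      exact this)
  exact Pool.Agent.H28.Ex5.no_modular H ⟨⟨h1, h3⟩, h2⟩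

end Pool.Agent.S09078
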