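import Pool.Statements.S09169
import Pool.Agent.H28.Kos4

set_option autoImplicit false
open Pool Pool.MP_62af7b_co

namespace Pool.Agent.S09169

/-- For every natural m, only finitely many rational polynomials p with p(1)=m arise as p(k)=K_{kλ,kν} for all k≥1, where λ,ν are partitions and K is the Kostka number (count of semistandard tableaux of shape kλ, content kν). -/
theorem result :
    ∀ m : ℕ, Set.Finite {p : Polynomial ℚ | p.eval 1 = (m : ℚ) ∧
      ∃ lam nu : ℕ → ℕ, Antitone lam ∧ Antitone nu ∧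
        (∃ N : ℕ, ∀ i, N ≤ i → lam i = 0 ∧ nu i = 0) ∧
        ∀ k : ℕ, 1 ≤ k → p.eval (k : ℚ) =
          ((Nat.card {T : ℕ × ℕ → ℕ //
              (∀ x : ℕ × ℕ, ¬ (x.2 < k * lam x.1) → T x = 0) ∧
              (∀ i j : ℕ, j + 1 < k * lam i → T (i, j) ≤ T (i, j + 1)) ∧
              (∀ i j : ℕ, j < k * lam (i + 1) → T (i, j) < T (i + 1, j)) ∧
              (∀ c : ℕ, Set.ncard {x : ℕ × ℕ | x.2 < k * lam x.1 ∧ T x = c} = k * nu c)} : ℕ) : ℚ)} := by
  intro m
  obtain ⟨c, D, h⟩ := H28.Kos.bound m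
  refine (H28.Kos.fin_poly ((c + 1) ^ (m - 1)) (D * (m - 1))).subset ?_
  rintro p ⟨h1, l, v, hl, hv, ⟨N, hN⟩, hp⟩
  have key : ∀ k : ℕ, 1 ≤ k →
      p.eval (k : ℚ) = (H28.Kos.K N (fun j => k * l j) (fun j => k * v j) : ℕ) := by
    intro k hk
    rw [hp k hk, ← (H28.Kos.card_Tab (fun j => k * v j) N (fun j => k * l j)
      (fun a b hab => Nat.mul_le_mul_left k (hl hab)) fun j hj => by simp [(hN j hj).1]).2]
    refine congrArg _ (Nat.card_congr (Equiv.subtypeEquivRight fun T => ?_))
    refine and_congr_right fun _ => and_congr_right fun _ => and_congr_right fun _ => ?_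
    have hfin : ∀ c, {x : ℕ × ℕ | x.2 < k * l x.1 ∧ T x = c}.Finite := by
      intro c
      refine ((Set.finite_Iio N).prod (Set.finite_Iio (k * l 0))).subset ?_
      rintro ⟨i, j⟩ ⟨hx, -⟩
      refine ⟨?_, lt_of_lt_of_le hx (Nat.mul_le_mul_left k (hl (Nat.zero_le i)))⟩
      by_contra hc
      simp [(hN i (not_lt.1 hc)).1] at hx
    constructor
    · intro h
      refine ⟨fun x hx => ?_, fun c _ => h c⟩
      by_contra hc
      have := h (T x)
      rw [(hN _ (not_lt.1 hc)).2, mul_zero, Set.ncard_eq_zero (hfin _)] at this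
      exact (Set.eq_empty_iff_forall_notMem.1 this) x ⟨hx, rfl⟩
    · rintro ⟨h2, h3⟩ c
      rcases lt_or_ge c N with hc | hc
      · exact h3 c hc
      · rw [(hN c hc).2, mul_zero, Set.ncard_eq_zero (hfin _)]
        refine Set.eq_empty_iff_forall_notMem.2 fun x hx => ?_
        have := h2 x hx.1
        have := hx.2
        omega
  have e : H28.Kos.K N l v = m := by
    have := key 1 le_rfl
    simp only [one_mul, Nat.cast_one] at this
    rw [h1] at this
    exact_mod_cast this.symm
  intro k hk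
  refine ⟨_, ?_, key k hk⟩
  have := h k hk N l v (fun j _ => hl (Nat.le_succ j)) hv e.le
  rwa [e, mul_pow, ← pow_mul] at this

end Pool.Agent.S09169
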