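import Pool.Statements.S09184
import Pool.Agent.H28.Abz

set_option autoImplicit false
open Pool Pool.MP_633b85_co

namespace Pool.Agent.S09184

/-- The negation of the preceding statement: For a matroid on S×{1,2} where no circuit contains both copies of an element, with f(X)=rank(X×{1,2}) and matchings meaning f(X)=2∣X∣, S can be covered by at most (fractional matching cover number)+1 matchings. -/
theorem result :
    ¬ (∀ (S : Type) [Fintype S] [DecidableEq S] (M : Matroid (S × Fin 2)),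
    M.E = Set.univ →
    (∀ C : Set (S × Fin 2), M.IsCircuit C → ∀ e : S, ¬ ((e, 0) ∈ C ∧ (e, 1) ∈ C)) →
    ∀ w : Finset S → ℝ,
      (∀ X, 0 ≤ w X) →
      (∀ X, w X ≠ 0 →
        M.eRk ((↑X : Set S) ×ˢ (Set.univ : Set (Fin 2))) = ((2 * X.card : ℕ) : ℕ∞)) →
      (∀ e : S, 1 ≤ ∑ X ∈ Finset.univ.filter (fun X : Finset S => e ∈ X), w X) →
      ∃ (k : ℕ) (c : Fin k → Finset S),
        (∀ i, M.eRk ((↑(c i) : Set S) ×ˢ (Set.univ : Set (Fin 2)))
              = ((2 * (c i).card : ℕ) : ℕ∞)) ∧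
        (∀ e : S, ∃ i, e ∈ c i) ∧
        (k : ℝ) ≤ (∑ X, w X) + 1) := by
  intro H
  obtain ⟨k, c, h1, h2, h3⟩ := H H28.Abz.SS H28.Abz.MM H28.Abz.MM_E H28.Abz.MM_circ
    (fun X => ((Finset.univ.filter fun q => H28.Abz.st q = X).card : ℝ) / 32)
    (fun X => by positivity)
    (fun X hX => by
      obtain ⟨q, hq⟩ := Finset.card_pos.1 (Nat.pos_of_ne_zero fun h => hX (by rw [h]; simp))
      rw [← (Finset.mem_filter.1 hq).2, H28.Abz.MM_rk]
      exact H28.Abz.st_indep q)
    (fun e => by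
      have := Finset.sum_card_fiberwise_eq_card_filter Finset.univ
        (Finset.univ.filter fun X : Finset H28.Abz.SS => e ∈ X) H28.Abz.st
      simp only [Finset.mem_filter, Finset.mem_univ, true_and, H28.Abz.st_cnt] at this
      rw [← Finset.sum_div, ← Nat.cast_sum, this]
      norm_num)
  rw [← Finset.sum_div, ← Nat.cast_sum,
    ← Finset.card_eq_sum_card_fiberwise fun _ _ => Finset.mem_coe.2 (Finset.mem_univ _)] at h3
  simp only [Finset.card_univ, Fintype.card_prod, Fintype.card_fin, Fintype.card_bool] at h3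
  have hk : k < 3 := by
    have : (k : ℝ) < 3 := by
      norm_num at h3
      linarith
    exact_mod_cast this
  obtain ⟨i, -⟩ := h2 default
  have h0 : 0 < k := i.pos
  have a := (H28.Abz.MM_rk _).1 (h1 ⟨0, h0⟩)
  have b := (H28.Abz.MM_rk _).1 (h1 ⟨k - 1, by omega⟩)
  refine H28.Abz.no_two _ _ (fun e => ?_) a.1 a.2 b.1 b.2
  obtain ⟨⟨j, hj⟩, he⟩ := h2 e
  by_cases h : j = 0
  · subst h
    exact Or.inl he
  · obtain rfl : j = k - 1 := by omega
    exact Or.inr he

end Pool.Agent.S09184
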