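import Pool.Statements.S09188
import Pool.Agent.H26.AdmB

set_option autoImplicit false
open Cardinal
open Pool Pool.MP_637f5b_co

namespace Pool.Agent.S09188

/-- The negation of the preceding statement: For isomorphism-closed classes A1, A2 of finite graphs: if for each infinite κ some graph of chromatic number exactly κ has all its finite subgraphs in A1, and likewise for A2, then the same holds for A1 ∩ A2. -/
theorem result :
    ¬ (∀ (A₁ A₂ : (n : ℕ) → SimpleGraph (Fin n) → Prop),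
      (∀ (n m : ℕ) (G : SimpleGraph (Fin n)) (H : SimpleGraph (Fin m)),
          Nonempty (G ≃g H) → A₁ n G → A₁ m H) →
      (∀ (n m : ℕ) (G : SimpleGraph (Fin n)) (H : SimpleGraph (Fin m)),
          Nonempty (G ≃g H) → A₂ n G → A₂ m H) →
      (∀ κ : Cardinal.{0}, Cardinal.aleph0 ≤ κ →
          ∃ (V : Type) (G : SimpleGraph V),
            (∃ α : Type, Cardinal.mk α = κ ∧ Nonempty (G.Coloring α)) ∧
            (∀ β : Type, Cardinal.mk β < κ → IsEmpty (G.Coloring β)) ∧
            ∀ (n : ℕ) (F : SimpleGraph (Fin n)) (f : F →g G),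
              Function.Injective f → A₁ n F) →
      (∀ κ : Cardinal.{0}, Cardinal.aleph0 ≤ κ →
          ∃ (V : Type) (G : SimpleGraph V),
            (∃ α : Type, Cardinal.mk α = κ ∧ Nonempty (G.Coloring α)) ∧
            (∀ β : Type, Cardinal.mk β < κ → IsEmpty (G.Coloring β)) ∧
            ∀ (n : ℕ) (F : SimpleGraph (Fin n)) (f : F →g G),
              Function.Injective f → A₂ n F) →
      (∀ κ : Cardinal.{0}, Cardinal.aleph0 ≤ κ →
          ∃ (V : Type) (G : SimpleGraph V),
            (∃ α : Type, Cardinal.mk α = κ ∧ Nonempty (G.Coloring α)) ∧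
            (∀ β : Type, Cardinal.mk β < κ → IsEmpty (G.Coloring β)) ∧
            ∀ (n : ℕ) (F : SimpleGraph (Fin n)) (f : F →g G),
              Function.Injective f → (A₁ n F ∧ A₂ n F))) := by
  intro h
  have iso : ∀ {P : ∀ {W : Type}, (W → W → Prop) → Prop}, H26.Adm.Good @P →
      ∀ (n m : ℕ) (G : SimpleGraph (Fin n)) (H : SimpleGraph (Fin m)),
        Nonempty (G ≃g H) → H26.Adm.Cls @P G → H26.Adm.Cls @P H :=
    fun hP _ _ _ _ ⟨e⟩ => hP.sub e.symm.toHom e.symm.injective
  obtain ⟨V, G, -, h1, h2⟩ := h (fun _ F => H26.Adm.Cls @H26.Adm.P1 F)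
    (fun _ F => H26.Adm.Cls @H26.Adm.P2 F) (iso H26.Adm.good1) (iso H26.Adm.good2)
    (fun κ hκ => by
      have := (H26.Adm.adm1 κ).resolve_right (aleph0_pos.trans_le hκ).ne'
      exact ⟨_, _, this.1, this.2, fun n F f hf => H26.Adm.good1.sub f hf
        ⟨_, fun x y h => h.2, H26.Adm.Ar1_P1 κ⟩⟩)
    (fun κ hκ => by
      have := H26.Adm.adm2 κ hκ
      obtain ⟨d, -⟩ := H26.Adm.Ox_bdd hκ ∅ (by simp)
      exact ⟨_, _, this.1, this.2, fun n F f hf => H26.Adm.good2.sub f hf
        ⟨_, fun x y h => h.2, H26.Adm.Ar2_P2 κ d⟩⟩)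
    (Cardinal.aleph 1) Cardinal.aleph0_lt_aleph_one.le
  obtain ⟨c⟩ := H26.Adm.col_both G (H26.Adm.good1.compact G fun n F f hf => (h2 n F f hf).1)
    (H26.Adm.good2.compact G fun n F f hf => (h2 n F f hf).2)
  exact (h1 (ℕ × ℕ) (by simpa using Cardinal.aleph0_lt_aleph_one)).false c

end Pool.Agent.S09188
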