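import Pool.Statements.S09202
import Pool.Agent.H14.StarGraph

set_option autoImplicit false
open Classical
open Pool Pool.MP_640286_co

namespace Pool.Agent.S09202

/-- The negation of the preceding statement: For every connected graph H with at least two vertices, the maximum over proper labelings f of 1-1/λ(T_f)^2 is exactly the critical edge density: blow-ups with all densities above it contain H transversally, and below it some blow-up avoids H. -/
theorem result :
    ¬ (∀ n : ℕ, ∀ H : SimpleGraph (Fin (n+2)), H.Connected →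
    ∃ B : ℝ,
      B = sSup {β : ℝ | ∃ f : Equiv.Perm (Fin (n+2)),
        (∀ k : Fin (n+2), (H.induce {v | f.symm v ≤ k}).Connected) ∧
        ∃ P : Finset (Finset (Fin (n+2))),
          P = Finset.univ.filter (fun S : Finset (Fin (n+2)) => (0 : Fin (n+2)) ∈ S ∧
                ∀ a ∈ S, ∀ b ∈ S, a < b → (∀ c ∈ S, ¬ (a < c ∧ c < b)) → H.Adj (f a) (f b)) ∧
          β = 1 - ((sSup {q : ℝ | ∃ x : Finset (Fin (n+2)) → ℝ,
                (∑ S ∈ P, x S ^ 2) = 1 ∧
                q = ∑ S ∈ P, ∑ T ∈ P,
                  (if ((∃ m : Fin (n+2), m ∉ S ∧ (∀ a ∈ S, a < m) ∧ T = insert m S) ∨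
                       (∃ m : Fin (n+2), m ∉ T ∧ (∀ a ∈ T, a < m) ∧ S = insert m T))
                   then x S * x T else 0)}) ^ 2)⁻¹} ∧
      (∀ m : ℕ, ∀ π : Fin m → Fin (n+2), ∀ G : SimpleGraph (Fin m),
        Function.Surjective π →
        (∀ x y, G.Adj x y → H.Adj (π x) (π y)) →
        (∀ i j, H.Adj i j →
          B < (Nat.card {p : Fin m × Fin m // π p.1 = i ∧ π p.2 = j ∧ G.Adj p.1 p.2} : ℝ) /
            ((Nat.card {x : Fin m // π x = i} : ℝ) * (Nat.card {x : Fin m // π x = j} : ℝ))) →
        ∃ a : Fin (n+2) → Fin m, (∀ i, π (a i) = i) ∧ ∀ i j, H.Adj i j → G.Adj (a i) (a j)) ∧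
      (∀ d : ℝ, d < B →
        ∃ m : ℕ, ∃ π : Fin m → Fin (n+2), ∃ G : SimpleGraph (Fin m),
          Function.Surjective π ∧
          (∀ x y, G.Adj x y → H.Adj (π x) (π y)) ∧
          (∀ i j, H.Adj i j →
            d < (Nat.card {p : Fin m × Fin m // π p.1 = i ∧ π p.2 = j ∧ G.Adj p.1 p.2} : ℝ) /
              ((Nat.card {x : Fin m // π x = i} : ℝ) * (Nat.card {x : Fin m // π x = j} : ℝ))) ∧
          ¬ ∃ a : Fin (n+2) → Fin m, (∀ i, π (a i) = i) ∧ ∀ i j, H.Adj i j → G.Adj (a i) (a j))) := by
  intro h
  let e : Pool.Agent.H14.StarGraph.W ≃ Fin (43 + 2) := Fintype.equivFinOfCardEq (by simp)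
  let H : SimpleGraph (Fin (43 + 2)) := Pool.Agent.H14.StarGraph.HW.comap e.symm
  have hH : H.Connected :=
    (SimpleGraph.Iso.comap e.symm _).connected_iff.2 Pool.Agent.H14.StarGraph.HW_conn
  obtain ⟨B, hB, h2, -⟩ := h 43 H hH
  have hBle : B ≤ 1 - ((399 / 100 : ℝ) ^ 2)⁻¹ := by
    rw [hB]
    refine Real.sSup_le ?_ (by norm_num)
    rintro β ⟨f, hf, P, hP, hβ⟩
    have hearly : ∀ k : Fin (43 + 2), k ≠ 0 → ∃ q, q < k ∧ H.Adj (f k) (f q) := by
      intro k hk
      have hr := (hf k).preconnected ⟨f k, by simp⟩ ⟨f 0, by simp⟩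
      obtain ⟨w⟩ := hr
      have hne : (⟨f k, by simp⟩ : {v | f.symm v ≤ k}) ≠ ⟨f 0, by simp⟩ := by
        intro h'
        exact hk (f.injective (congrArg Subtype.val h'))
      obtain ⟨u, hu, -⟩ := w.exists_eq_cons_of_ne hne
      have hu' : H.Adj (f k) u.1 := hu
      refine ⟨f.symm u.1, lt_of_le_of_ne u.2 ?_, by simpa using hu'⟩
      intro h'
      have h3 : u.1 = f k := (Equiv.symm_apply_eq f).1 h'
      rw [h3] at hu'
      exact H.irrefl hu'
    obtain ⟨c, hc⟩ := Pool.Agent.H14.StarGraph.all_weights (fun w => (f.symm (e w)).val)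
      (fun u v h' => e.injective (f.symm.injective (Fin.ext h'))) (by
        intro w hw
        obtain ⟨q, hq, hadj⟩ := hearly (f.symm (e w)) (fun h' => hw (by rw [h']; rfl))
        refine ⟨e.symm (f q), by simpa [H] using hadj, by simpa using hq⟩)
    have h01 : H.Adj (f 0) (f 1) := by
      obtain ⟨q, hq, hadj⟩ := hearly 1 (by decide)
      have : q = 0 := by
        apply Fin.ext
        have : q.val < 1 := hq
        simp only [Fin.val_zero]
        omega
      rw [this] at hadj
      exact hadj.symm
    have := Pool.Agent.H14.StarSpec.beta_le (fun a b => H.Adj (f a) (f b)) h01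
      (fun p => c (e.symm (f p))) (fun p => (hc _).1) (399 / 100) (by
        intro p
        have h3 := (hc (e.symm (f p))).2
        rw [← Equiv.sum_comp (f.trans e.symm)] at h3
        simp only [Equiv.trans_apply, Equiv.apply_symm_apply, Equiv.symm_apply_apply,
          Fin.val_eq_zero_iff, Fin.val_fin_lt] at h3
        convert h3 using 4
        rfl)
    rw [hβ, hP]
    convert this
    all_goals rfl
  let d : Pool.Agent.H14.StarGraph.U ≃ Fin 106 := Fintype.equivFinOfCardEq (by simp)
  obtain ⟨a, ha1, ha2⟩ := h2 106 (fun x => e (Pool.Agent.H14.StarGraph.pr (d.symm x)))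
    (Pool.Agent.H14.StarGraph.GU.comap d.symm)
    (e.surjective.comp (Pool.Agent.H14.StarGraph.pr_surj.comp d.symm.surjective))
    (by
      intro x y hxy
      have : Pool.Agent.H14.StarGraph.adjU (d.symm x) (d.symm y) = true := hxy
      simp only [Pool.Agent.H14.StarGraph.adjU, Bool.and_eq_true] at this
      simpa [H, Pool.Agent.H14.StarGraph.HW] using this.1.1)
    (by
      intro i j hij
      have hsz : ∀ i, Nat.card {x : Fin 106 //
          e (Pool.Agent.H14.StarGraph.pr (d.symm x)) = i} =
          Pool.Agent.H14.StarGraph.sz (e.symm i) := by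
        intro i
        rw [Nat.card_congr (d.symm.subtypeEquiv
          (q := fun x => Pool.Agent.H14.StarGraph.pr x = e.symm i)
          (fun x => by simp [Equiv.eq_symm_apply])), Nat.card_eq_fintype_card,
          Fintype.card_subtype]
        unfold Pool.Agent.H14.StarGraph.sz
        congr
      have hcnt : Nat.card {p : Fin 106 × Fin 106 //
          e (Pool.Agent.H14.StarGraph.pr (d.symm p.1)) = i ∧
          e (Pool.Agent.H14.StarGraph.pr (d.symm p.2)) = j ∧
          (Pool.Agent.H14.StarGraph.GU.comap d.symm).Adj p.1 p.2} =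
          Pool.Agent.H14.StarGraph.cnt (e.symm i) (e.symm j) := by
        rw [Nat.card_congr ((d.symm.prodCongr d.symm).subtypeEquiv
          (q := fun x => Pool.Agent.H14.StarGraph.pr x.1 = e.symm i ∧
            Pool.Agent.H14.StarGraph.pr x.2 = e.symm j ∧
            Pool.Agent.H14.StarGraph.adjU x.1 x.2 = true)
          (fun x => by simp [Equiv.eq_symm_apply, Pool.Agent.H14.StarGraph.GU])),
          Nat.card_eq_fintype_card, Fintype.card_subtype]
        unfold Pool.Agent.H14.StarGraph.cnt
        rw [Finset.sum_filter, Finset.card_filter, Fintype.sum_prod_type]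
        refine Finset.sum_congr rfl fun x _ => ?_
        by_cases hx : Pool.Agent.H14.StarGraph.pr x = e.symm i
        · simp only [hx, true_and, if_true, Finset.card_filter]
        · simp [hx]
      rw [hcnt, hsz, hsz]
      have h3 := Pool.Agent.H14.StarGraph.dens (e.symm i) (e.symm j) hij
      have h4 : (0 : ℝ) < Pool.Agent.H14.StarGraph.sz (e.symm i) := by
        exact_mod_cast Pool.Agent.H14.StarGraph.sz_pos _
      have h5 : (0 : ℝ) < Pool.Agent.H14.StarGraph.sz (e.symm j) := by
        exact_mod_cast Pool.Agent.H14.StarGraph.sz_pos _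
      have h6 : (16 : ℝ) * Pool.Agent.H14.StarGraph.cnt (e.symm i) (e.symm j) =
          15 * (Pool.Agent.H14.StarGraph.sz (e.symm i) * Pool.Agent.H14.StarGraph.sz (e.symm j)) := by
        exact_mod_cast h3
      refine hBle.trans_lt ?_
      rw [lt_div_iff₀ (by positivity)]
      have h7 := mul_pos h4 h5
      nlinarith)
  refine Pool.Agent.H14.StarGraph.no_trans (fun w => d.symm (a (e w))) ?_ ?_
  · intro w
    exact e.injective (ha1 (e w))
  · intro u v huv
    exact ha2 (e u) (e v) (by simpa [H] using huv)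

end Pool.Agent.S09202
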