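import Pool.Statements.S09302
import Pool.Agent.H7.Isc2
import Pool.Agent.H28.VecMat

set_option autoImplicit false
open Pool Pool.MP_6a070e_co

namespace Pool.Agent.S09302

/-- The negation of the preceding statement: Every nonempty finite connected binary matroid (circuits meet cocircuits evenly) whose cocircuits all have at least 5 elements has a circuit D whose deletion leaves a matroid where any two distinct elements share a circuit. -/
theorem result :
    ¬ (∀ (α : Type) [Fintype α] (M : Matroid α),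
      M.E.Nonempty →
      (∀ C K : Set α, M.IsCircuit C → M.IsCocircuit K → Even (C ∩ K).ncard) →
      (∀ e ∈ M.E, ∀ f ∈ M.E, e ≠ f → ∃ C : Set α, M.IsCircuit C ∧ e ∈ C ∧ f ∈ C) →
      (∀ K : Set α, M.IsCocircuit K → 5 ≤ K.ncard) →
      ∃ D : Set α, M.IsCircuit D ∧
        ∀ e ∈ (M.delete D).E, ∀ f ∈ (M.delete D).E, e ≠ f →
          ∃ C : Set α, (M.delete D).IsCircuit C ∧ e ∈ C ∧ f ∈ C) := by
  classical
  intro H
  obtain ⟨k, n, x, hk, hA, hB⟩ := H7.Isc.exists_code 7
  obtain ⟨m, v, hv⟩ := H7.Isc.exists_rep x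
  let M : Matroid (Fin n) := H28.VecMat.vec (ZMod 2) v
  have hE : M.E = Set.univ := rfl
  have hI : ∀ I, M.Indep I ↔ ∀ φ : H7.Isc.W k, (∀ i, i ∉ I → φ ⬝ᵥ x i = 0) → φ = 0 := by
    intro I
    rw [H28.VecMat.vec_indep, hv]
    refine forall_congr' fun φ => imp_congr_right fun _ => ⟨fun h => ?_, fun h i => by simp [h]⟩
    by_contra h0
    obtain ⟨i, hi, -⟩ := hB φ φ h0 h0
    rw [h i] at hi
    exact zero_ne_one hi
  have circ : ∀ φ : H7.Isc.W k, φ ≠ 0 → M.IsCircuit {i | φ ⬝ᵥ x i = 1} := by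
    intro φ h0
    rw [Matroid.isCircuit_iff_forall_ssubset]
    refine ⟨⟨fun h => h0 ((hI _).1 h φ fun i hi => (H7.Isc.z2 _).resolve_right hi), by simp [hE]⟩,
      fun J hJ => (hI J).2 fun ψ hψ => ?_⟩
    by_contra h1
    by_cases e : ψ = φ
    · obtain ⟨i, hi, hi'⟩ := Set.exists_of_ssubset hJ
      have := hψ i hi'
      rw [e, show φ ⬝ᵥ x i = 1 from hi] at this
      exact one_ne_zero this
    · obtain ⟨i, h3, h4⟩ := hB ψ (ψ - φ) h1 (sub_ne_zero.2 e)
      have hiJ : i ∈ J := by
        by_contra hn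
        rw [hψ i hn] at h3
        exact zero_ne_one h3
      rw [sub_dotProduct, h3, show φ ⬝ᵥ x i = 1 from hJ.subset hiJ] at h4
      simp at h4
  have circ' : ∀ C, M.IsCircuit C → ∃ φ : H7.Isc.W k, φ ≠ 0 ∧ C = {i | φ ⬝ᵥ x i = 1} := by
    intro C hC
    have := hC.not_indep
    rw [hI] at this
    push Not at this
    obtain ⟨φ, h1, h2⟩ := this
    refine ⟨φ, h2, (hC.eq_of_dep_subset (circ φ h2).dep fun i hi => ?_).symm⟩
    by_contra hn
    have := h1 i hn
    rw [show φ ⬝ᵥ x i = 1 from hi] at this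
    exact one_ne_zero this
  obtain ⟨i0, -⟩ := H7.Isc.two_out hk hB 0
  obtain ⟨D, hD, hD'⟩ := H (Fin n) M ⟨i0, by simp [hE]⟩
    (by
      intro C K hC hK
      obtain ⟨ψ, -, rfl⟩ := circ' C hC
      obtain ⟨S, hS, hSK, hS0⟩ : ∃ S : Finset (Fin n), S.Nonempty ∧ S ⊆ K.toFinset ∧
          ∑ i ∈ S, x i = 0 := by
        by_contra hn
        push Not at hn
        obtain ⟨e, he⟩ := hK.nonempty
        obtain ⟨φ, h1, h2⟩ := H7.Isc.exists_sep' K.toFinset hn (Set.mem_toFinset.2 he)
        have h0 : φ ≠ 0 := by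
          rintro rfl
          simp at h1
        refine (circ φ h0).inter_isCocircuit_ne_singleton hK (e := e) ?_
        ext i
        refine ⟨fun hi => ?_, fun hi => by rw [hi]; exact ⟨h1, he⟩⟩
        by_contra hn
        have := h2 i (Set.mem_toFinset.2 hi.2) hn
        rw [show φ ⬝ᵥ x i = 1 from hi.1] at this
        exact one_ne_zero this
      have hKS : K = S := by
        rw [Matroid.isCocircuit_iff_minimal_compl_nonspanning] at hK
        refine (hK.eq_of_subset ?_ fun i hi => Set.mem_toFinset.1 (hSK hi)).symm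
        intro hsp
        obtain ⟨e, he⟩ := hS
        have h1 : e ∈ M.closure (M.E \ S) := by rw [hsp.closure_eq]; simp [hE]
        rw [Matroid.mem_closure_iff_exists_isCircuit (by simp [he])] at h1
        obtain ⟨C, h2, h3, h4⟩ := h1
        obtain ⟨φ, -, rfl⟩ := circ' C h3
        have h5 := H7.Isc.even_of_sum S hS0 φ
        have h6 : {i | φ ⬝ᵥ x i = 1} ∩ (S : Set (Fin n)) = {e} := by
          ext i
          refine ⟨fun hi => ?_, fun hi => by rw [hi]; exact ⟨h4, he⟩⟩
          rcases h2 hi.1 with h | h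
          · exact h
          · exact (h.2 hi.2).elim
        rw [h6, Set.ncard_singleton] at h5
        exact absurd h5 (by decide)
      rw [hKS]
      exact H7.Isc.even_of_sum S hS0 ψ)
    (by
      intro e _ f _ _
      have he : x e ≠ 0 := by simpa using hA {e} (by simp) (by simp)
      have hf : x f ≠ 0 := by simpa using hA {f} (by simp) (by simp)
      obtain ⟨φ, h1, h2⟩ := H7.Isc.exists_both he hf
      rw [dotProduct_comm] at h1 h2
      refine ⟨_, circ φ ?_, h1, h2⟩
      rintro rfl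
      simp at h1)
    (by
      intro K hK
      by_contra hlt
      obtain ⟨e, he⟩ := hK.nonempty
      obtain ⟨φ, h1, h2⟩ := H7.Isc.exists_sep hA K.toFinset
        (by rw [← Set.ncard_eq_toFinset_card']; omega) (Set.mem_toFinset.2 he)
      have h0 : φ ≠ 0 := by
        rintro rfl
        simp at h1
      refine (circ φ h0).inter_isCocircuit_ne_singleton hK (e := e) ?_
      ext i
      refine ⟨fun hi => ?_, fun hi => by rw [hi]; exact ⟨h1, he⟩⟩
      by_contra hn
      have := h2 i (Set.mem_toFinset.2 hi.2) hn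
      rw [show φ ⬝ᵥ x i = 1 from hi.1] at this
      exact one_ne_zero this)
  obtain ⟨φ, h0, rfl⟩ := circ' D hD
  obtain ⟨i, j, hij, hi, hj⟩ := H7.Isc.two_out hk hB φ
  obtain ⟨C, hC, -⟩ := hD' i (by simp [hE, hi]) j (by simp [hE, hj]) hij
  rw [Matroid.delete_isCircuit_iff] at hC
  obtain ⟨ψ, h1, rfl⟩ := circ' C hC.1
  obtain ⟨l, h2, h3⟩ := hB φ ψ h0 h1
  exact Set.disjoint_left.1 hC.2 h3 h2

end Pool.Agent.S09302
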