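import Pool.Statements.S09318

set_option autoImplicit false
open Pool Pool.MP_6b5009_co

namespace Pool.Agent.S09318

/-- Adjacency bitmasks: the Groetzsch graph on 0..10, with seven more vertices so that the
vertex set is partitioned into six triangles. -/
def msk : Fin 18 → ℕ :=
  ![33362, 196773, 4426, 8852, 16681, 3090, 5125, 9226, 17428, 33801, 3040, 1056, 68, 136, 272,
    513, 131074, 65538]

def adjB (u v : Fin 18) : Bool := (msk u).testBit v

def G : SimpleGraph (Fin 18) where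
  Adj u v := adjB u v = true
  symm := ⟨by decide +kernel⟩
  loopless := ⟨by decide +kernel⟩

def tri : Fin 18 → Fin 6 := ![4, 5, 1, 2, 3, 0, 1, 2, 3, 4, 0, 0, 1, 2, 3, 4, 5, 5]

theorem tri_adj : ∀ u v : Fin 18, tri u = tri v → u ≠ v → adjB u v = true := by decide +kernel

def g2 : Fin 18 → Finset (Fin 6) :=
  ![{1, 5}, {3, 4}, {0, 5}, {1, 3}, {2, 4}, {0, 1}, {2, 3}, {0, 2}, {1, 3}, {0, 2}, {4, 5}, {2, 3},
    {1, 4}, {4, 5}, {0, 5}, {3, 4}, {0, 1}, {2, 5}]

def g3 : Fin 18 → Finset (Fin 9) :=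
  ![{1, 2, 4}, {0, 5, 7}, {2, 3, 8}, {4, 5, 6}, {0, 7, 8}, {1, 3, 6}, {5, 6, 7}, {1, 3, 8},
    {1, 5, 6}, {3, 7, 8}, {0, 2, 4}, {5, 7, 8}, {0, 1, 4}, {0, 2, 7}, {2, 3, 4}, {0, 5, 6},
    {1, 2, 3}, {4, 6, 8}]

theorem g2_ok : (∀ v, (g2 v).card = 2) ∧ ∀ u v, adjB u v = true → Disjoint (g2 u) (g2 v) := by
  decide +kernel

theorem g3_ok : (∀ v, (g3 v).card = 2 + 1) ∧ ∀ u v, adjB u v = true → Disjoint (g3 u) (g3 v) := by
  decide +kernel

theorem indep_le (s : Finset (Fin 18)) (hs : ∀ u ∈ s, ∀ v ∈ s, u ≠ v → ¬ G.Adj u v) :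
    s.card ≤ 6 := by
  have : s.card ≤ (Finset.univ : Finset (Fin 6)).card := by
    apply Finset.card_le_card_of_injOn tri (fun _ _ => Finset.mem_coe.2 (Finset.mem_univ _))
    intro u hu v hv e
    by_contra hne
    exact hs u hu v hv hne (tri_adj u v e hne)
  simpa using this

theorem indepNum_eq : G.indepNum = 6 := by
  apply le_antisymm
  · obtain ⟨s, hs⟩ := G.exists_isNIndepSet_indepNum
    rw [← hs.card_eq]
    apply indep_le
    intro u hu v hv hne
    exact hs.isIndepSet hu hv hne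
  · have h : G.IsIndepSet (({0, 2, 13, 14, 11, 16} : Finset (Fin 18)) : Set (Fin 18)) := by
      have : ∀ u ∈ ({0, 2, 13, 14, 11, 16} : Finset (Fin 18)),
          ∀ v ∈ ({0, 2, 13, 14, 11, 16} : Finset (Fin 18)), adjB u v = false := by decide +kernel
      intro u hu v hv _ hadj
      have h1 := this u hu v hv
      have h2 : adjB u v = true := hadj
      rw [h1] at h2
      exact absurd h2 (by simp)
    have := h.card_le_indepNum
    exact le_trans (by decide) this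

theorem no3 : ∀ a0 a1 : Fin 3, a0 ≠ a1 → ∀ a2 : Fin 3, a1 ≠ a2 → ∀ a3 : Fin 3, a2 ≠ a3 →
    ∀ a4 : Fin 3, a3 ≠ a4 → a4 ≠ a0 → ∀ z : Fin 3,
    ∀ b0 : Fin 3, b0 ≠ a1 → b0 ≠ a4 → z ≠ b0 → ∀ b1 : Fin 3, b1 ≠ a2 → b1 ≠ a0 → z ≠ b1 →
    ∀ b2 : Fin 3, b2 ≠ a3 → b2 ≠ a1 → z ≠ b2 → ∀ b3 : Fin 3, b3 ≠ a4 → b3 ≠ a2 → z ≠ b3 →
    ∀ b4 : Fin 3, b4 ≠ a0 → b4 ≠ a3 → z ≠ b4 → False := by
  decide +kernel

theorem not_col3 : ¬ G.Colorable 3 := by
  rintro ⟨c⟩
  have e : ∀ u v : Fin 18, adjB u v = true → c u ≠ c v := fun u v h => c.valid h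
  exact no3 (c 0) (c 1) (e _ _ (by decide)) (c 2) (e _ _ (by decide)) (c 3) (e _ _ (by decide))
    (c 4) (e _ _ (by decide)) (e _ _ (by decide)) (c 10)
    (c 5) (e _ _ (by decide)) (e _ _ (by decide)) (e _ _ (by decide))
    (c 6) (e _ _ (by decide)) (e _ _ (by decide)) (e _ _ (by decide))
    (c 7) (e _ _ (by decide)) (e _ _ (by decide)) (e _ _ (by decide))
    (c 8) (e _ _ (by decide)) (e _ _ (by decide)) (e _ _ (by decide))
    (c 9) (e _ _ (by decide)) (e _ _ (by decide)) (e _ _ (by decide))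

theorem count (m : ℕ) (f : Fin 18 → Finset (Fin m)) (h1 : ∀ v, (f v).card = 2) :
    ∑ c : Fin m, (Finset.univ.filter (fun v => c ∈ f v)).card = 36 := by
  have : ∑ c : Fin m, (Finset.univ.filter (fun v => c ∈ f v)).card = ∑ v : Fin 18, (f v).card := by
    simp only [Finset.card_filter]
    rw [Finset.sum_comm]
    refine Finset.sum_congr rfl fun v _ => ?_
    simp
  rw [this]
  simp [h1]

theorem each_le (m : ℕ) (f : Fin 18 → Finset (Fin m))
    (h2 : ∀ u v, G.Adj u v → Disjoint (f u) (f v)) (c : Fin m) :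
    (Finset.univ.filter (fun v => c ∈ f v)).card ≤ 6 := by
  apply indep_le
  intro u hu v hv _ hadj
  simp only [Finset.mem_filter, Finset.mem_univ, true_and] at hu hv
  exact Finset.disjoint_left.1 (h2 u v hadj) hu hv

theorem inf2 : sInf {m : ℕ | ∃ g : Fin 18 → Finset (Fin m),
            (∀ v, (g v).card = 2) ∧ ∀ u v, G.Adj u v → Disjoint (g u) (g v)} = 6 := by
  have hmem : 6 ∈ {m : ℕ | ∃ g : Fin 18 → Finset (Fin m),
            (∀ v, (g v).card = 2) ∧ ∀ u v, G.Adj u v → Disjoint (g u) (g v)} :=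
    ⟨g2, g2_ok.1, g2_ok.2⟩
  apply le_antisymm (Nat.sInf_le hmem)
  obtain ⟨g, h1, h2⟩ := Nat.sInf_mem ⟨6, hmem⟩
  have c1 := count _ g h1
  have c2 : ∑ c, (Finset.univ.filter (fun v => c ∈ g v)).card ≤ ∑ _c : Fin _, 6 :=
    Finset.sum_le_sum fun c _ => each_le _ g h2 c
  rw [c1] at c2
  simp only [Finset.sum_const, Finset.card_univ, Fintype.card_fin, smul_eq_mul] at c2
  omega

theorem sat (m : ℕ) (hm : m = 6) (f : Fin 18 → Finset (Fin m)) (h1 : ∀ v, (f v).card = 2)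
    (h2 : ∀ u v, G.Adj u v → Disjoint (f u) (f v)) (c : Fin m) :
    (Finset.univ.filter (fun v => c ∈ f v)).card = G.indepNum := by
  subst hm
  rw [indepNum_eq]
  have c1 := count _ f h1
  have c2 := each_le _ f h2
  by_contra hne
  have hlt : (Finset.univ.filter (fun v => c ∈ f v)).card < 6 := lt_of_le_of_ne (c2 c) hne
  have c3 : ∑ c : Fin 6, (Finset.univ.filter (fun v => c ∈ f v)).card < ∑ _c : Fin 6, 6 :=
    Finset.sum_lt_sum (fun c _ => c2 c) ⟨c, Finset.mem_univ _, hlt⟩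
  rw [c1] at c3
  simp at c3

/-- The negation of the preceding statement: For every finite graph G and k ≥ 1: if every k-fold coloring of G using the minimum number of colors uses each color on exactly α(G) vertices, then the (k+1)-fold chromatic number equals the k-fold chromatic number plus the chromatic number. -/
theorem result :
    ¬ (∀ (n : ℕ) (G : SimpleGraph (Fin n)) (k : ℕ), 1 ≤ k →
      (∀ f : Fin n → Finset (Fin (sInf {m : ℕ | ∃ g : Fin n → Finset (Fin m),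
            (∀ v, (g v).card = k) ∧ ∀ u v, G.Adj u v → Disjoint (g u) (g v)})),
          (∀ v, (f v).card = k) →
          (∀ u v, G.Adj u v → Disjoint (f u) (f v)) →
          ∀ c, (Finset.univ.filter (fun v => c ∈ f v)).card = G.indepNum) →
      ((sInf {m : ℕ | ∃ g : Fin n → Finset (Fin m),
            (∀ v, (g v).card = k + 1) ∧ ∀ u v, G.Adj u v → Disjoint (g u) (g v)} : ℕ) : ℕ∞)
        = ((sInf {m : ℕ | ∃ g : Fin n → Finset (Fin m),
            (∀ v, (g v).card = k) ∧ ∀ u v, G.Adj u v → Disjoint (g u) (g v)} : ℕ) : ℕ∞)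
          + G.chromaticNumber) := by
  intro hall
  have h := hall 18 G 2 (by norm_num) (fun f h1 h2 c => sat _ inf2 f h1 h2 c)
  rw [inf2] at h
  have h9 : sInf {m : ℕ | ∃ g : Fin 18 → Finset (Fin m),
            (∀ v, (g v).card = 2 + 1) ∧ ∀ u v, G.Adj u v → Disjoint (g u) (g v)} ≤ 9 :=
    Nat.sInf_le ⟨g3, g3_ok.1, g3_ok.2⟩
  have h4 : ¬ G.chromaticNumber ≤ ((3 : ℕ) : ℕ∞) := by
    rw [SimpleGraph.chromaticNumber_le_iff_colorable]
    exact not_col3
  apply h4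
  have h9' : ((6 : ℕ) : ℕ∞) + G.chromaticNumber ≤ ((9 : ℕ) : ℕ∞) := by
    rw [← h]; exact_mod_cast h9
  have : ((6 : ℕ) : ℕ∞) + G.chromaticNumber ≤ ((6 : ℕ) : ℕ∞) + ((3 : ℕ) : ℕ∞) := by
    refine le_trans h9' ?_
    norm_num
  exact (ENat.add_le_add_iff_left (by simp)).1 this

end Pool.Agent.S09318
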