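import Pool.Statements.S09347
import Pool.Agent.H6.Eternal

set_option autoImplicit false
open Pool Pool.MP_6cb088_co

namespace Pool.Agent.S09347

/-- There is a finite triangle-free graph whose eternal domination number (one guard moves per attack) equals its independence number, which is strictly less than its clique covering number (chromatic number of the complement). -/
theorem result :
  ∃ (V : Type) (_ : Fintype V) (_ : DecidableEq V) (G : SimpleGraph V),
    G.CliqueFree 3 ∧
    (∃ F : Set (Finset V), F.Nonempty ∧ ∀ D ∈ F, D.card = G.indepNum ∧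
        ∀ v : V, ∃ u ∈ D, (u = v ∨ G.Adj u v) ∧ insert v (D.erase u) ∈ F) ∧
    (∀ k : ℕ, k < G.indepNum → ¬ ∃ F : Set (Finset V), F.Nonempty ∧ ∀ D ∈ F, D.card = k ∧
        ∀ v : V, ∃ u ∈ D, (u = v ∨ G.Adj u v) ∧ insert v (D.erase u) ∈ F) ∧
    ((G.indepNum : ℕ∞) < Gᶜ.chromaticNumber) := by
  exact ⟨_, inferInstance, inferInstance, _, Pool.Agent.H6.Eternal.main⟩

end Pool.Agent.S09347
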