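import Pool.Statements.S09362
import Pool.Agent.H16.Unital

set_option autoImplicit false
open Pool Pool.MP_6d5213_co

namespace Pool.Agent.S09362


/-- The negation of the preceding statement: There are constants a, b such that every simple matroid representable over a finite field of size q ≥ 4, with no minor isomorphic to the cycle matroid of K4, has at most (a·q + b)·r elements, where r is its rank. -/
theorem result :
    ¬ (∃ a b : ℝ, ∀ (F : Type) [Field F] [Fintype F], 4 ≤ Fintype.card F →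
      ∀ (α : Type) [Fintype α] (M : Matroid α),
        (∃ (n : ℕ) (v : α → (Fin n → F)),
            ∀ I ⊆ M.E, M.Indep I ↔ LinearIndependent F (fun x : I => v x)) →
        (∀ e ∈ M.E, ∀ f ∈ M.E, M.Indep {e, f}) →
        (¬ ∃ N : Matroid α, Matroid.IsMinor N M ∧
            ∃ φ : α → Sym2 (Fin 4), Set.BijOn φ N.E {s | ¬ s.IsDiag} ∧
              ∀ I ⊆ N.E, N.Indep I ↔ (SimpleGraph.fromEdgeSet (φ '' I)).IsAcyclic) →
        ∀ B : Set α, M.IsBase B →
          (M.E.ncard : ℝ) ≤ (a * (Fintype.card F : ℝ) + b) * (B.ncard : ℝ)) := by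
  rintro ⟨a, b, h⟩
  obtain ⟨k, hk⟩ := exists_nat_ge (3 * (|a| + |b|))
  obtain ⟨p, hpk, hp⟩ := Nat.exists_infinite_primes (k + 3)
  have : Fact p.Prime := ⟨hp⟩
  classical
  have : Fintype (GaloisField p 2) := Fintype.ofFinite _
  have hc : Fintype.card (GaloisField p 2) = p ^ 2 := by
    rw [← Nat.card_eq_fintype_card, GaloisField.card p 2 (by norm_num)]
  obtain ⟨σ, v, h1, h2⟩ := S09362Aux.unital p (by omega)
  obtain ⟨B, hB⟩ := (S09362Aux.vm (GaloisField p 2) v).exists_isBase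
  have h3 := h (GaloisField p 2) (by rw [hc]; nlinarith) _ (S09362Aux.vm (GaloisField p 2) v)
    ⟨3, v, fun I _ => S09362Aux.vm_indep v I⟩
    (fun e _ f _ => (S09362Aux.vm_indep v _).2 (h1 e f)) (S09362Aux.no_minor σ v h1 h2) B hB
  have h4 : (B.ncard : ℝ) ≤ 3 := by
    exact_mod_cast S09362Aux.card_le v B ((S09362Aux.vm_indep v _).1 hB.indep)
  rw [S09362Aux.vm_E, Set.ncard_univ, Nat.card_eq_fintype_card, Fintype.card_prod, hc,
    ZMod.card] at h3
  push_cast at h3
  have h5 : (k : ℝ) + 3 ≤ p := by exact_mod_cast hpk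
  have h6 : (0 : ℝ) ≤ k := Nat.cast_nonneg _
  have h7 : (1 : ℝ) ≤ (p : ℝ) ^ 2 := by nlinarith
  have h8 : a * (p : ℝ) ^ 2 + b ≤ (|a| + |b|) * (p : ℝ) ^ 2 := by
    nlinarith [le_abs_self a, le_abs_self b, abs_nonneg b]
  have h9 : (0 : ℝ) ≤ (|a| + |b|) * (p : ℝ) ^ 2 := by positivity
  have h10 : (0 : ℝ) ≤ B.ncard := Nat.cast_nonneg _
  have h11 : (a * (p : ℝ) ^ 2 + b) * B.ncard ≤ (|a| + |b|) * (p : ℝ) ^ 2 * 3 :=
    (mul_le_mul_of_nonneg_right h8 h10).trans (mul_le_mul_of_nonneg_left h4 h9)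
  nlinarith

end Pool.Agent.S09362
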