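import Pool.Statements.S09371
import Pool.Agent.H20.Lag9

set_option autoImplicit false
open Pool Pool.MP_6da058_co

namespace Pool.Agent.S09371

/-- For every r at least 3 there is n such that if G and H are r-graphs with at least n vertices each, whose Lagrangian density equals r! times the Lagrangian of the complete r-graph on one fewer vertex, then their disjoint union has the same property. -/
theorem result :
  ∀ r : ℕ, 3 ≤ r →
  ∀ lam : (m : ℕ) → Finset (Finset (Fin m)) → ℝ,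
    (∀ (m : ℕ) (E : Finset (Finset (Fin m))),
      lam m E = sSup {y : ℝ | ∃ x : Fin m → ℝ, (∀ i, 0 ≤ x i) ∧ ∑ i, x i = 1 ∧
        y = ∑ e ∈ E, ∏ i ∈ e, x i}) →
  ∀ perfect : (t : ℕ) → Finset (Finset (Fin t)) → Prop,
    (∀ (t : ℕ) (F : Finset (Finset (Fin t))), perfect t F ↔
      sSup {y : ℝ | ∃ m : ℕ, ∃ G : Finset (Finset (Fin m)), (∀ e ∈ G, e.card = r) ∧
          (¬ ∃ f : Fin t → Fin m, Function.Injective f ∧ ∀ e ∈ F, e.image f ∈ G) ∧
          y = (r.factorial : ℝ) * lam m G}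
        = (r.factorial : ℝ) * lam (t - 1) (Finset.powersetCard r (Finset.univ : Finset (Fin (t - 1))))) →
  ∃ n : ℕ, ∀ (a b : ℕ) (G : Finset (Finset (Fin a))) (H : Finset (Finset (Fin b))),
    (∀ e ∈ G, e.card = r) → (∀ e ∈ H, e.card = r) → n ≤ a → n ≤ b →
    perfect a G → perfect b H →
    perfect (a + b) (G.image (fun e => e.image (Fin.castAdd b)) ∪
      H.image (fun e => e.image (Fin.natAdd a))) := by
  intro r hr lam hlam perfect hperf
  obtain ⟨k, rfl⟩ : ∃ k, r = k + 2 := ⟨r - 2, by omega⟩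
  have hk : 1 ≤ k := by omega
  obtain ⟨D, hD⟩ := H20.Lag.consts k
  obtain ⟨n0, hn0, hDn, hsp⟩ := H20.Lag.split2 hD hk
  have fac : (0 : ℝ) < (k + 2).factorial := by exact_mod_cast Nat.factorial_pos _
  have up : ∀ (m : ℕ) (E : Finset (Finset (Fin m))) (B : ℝ), 0 ≤ B →
      (∀ y : Fin m → ℝ, (∀ v, 0 ≤ y v) → ∑ v, y v = 1 →
        (k + 2).factorial * H20.Lag.pw E y ≤ B) → (k + 2).factorial * lam m E ≤ B := by
    intro m E B hB h
    rw [hlam, ← le_div_iff₀' fac]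
    refine Real.sSup_le ?_ (div_nonneg hB fac.le)
    rintro _ ⟨y, h1, h2, rfl⟩
    rw [le_div_iff₀' fac]
    exact h y h1 h2
  have low : ∀ (m : ℕ) (E : Finset (Finset (Fin m))), (∀ e ∈ E, e.card = k + 2) →
      ∀ y : Fin m → ℝ, (∀ v, 0 ≤ y v) → ∑ v, y v = 1 →
        (k + 2).factorial * H20.Lag.pw E y ≤ (k + 2).factorial * lam m E := by
    intro m E hE y h1 h2
    rw [hlam]
    refine mul_le_mul_of_nonneg_left (le_csSup ⟨1 / (k + 2).factorial, ?_⟩ ⟨y, h1, h2, rfl⟩) fac.le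
    rintro _ ⟨z, h1, h2, rfl⟩
    rw [le_div_iff₀' fac]
    exact H20.Lag.pw_le_one hE h1 h2
  have val : ∀ n : ℕ, n0 ≤ n → (k + 2).factorial *
      lam n (Finset.powersetCard (k + 2) Finset.univ) = H20.Lag.g (k + 2) (1 / n) ∧
      0 ≤ H20.Lag.g (k + 2) (1 / n) := by
    intro n hn
    have hn' : (n0 : ℝ) ≤ n := by exact_mod_cast hn
    have hn1 : (0 : ℝ) < n := by exact_mod_cast hn0.trans_le hn
    obtain ⟨e1, e2⟩ := H20.Lag.lowK hD (hn0.trans_le hn)
    have h0 : 0 ≤ H20.Lag.g (k + 2) (1 / n) :=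
      e2 ▸ mul_nonneg fac.le (H20.Lag.pw_nonneg fun _ => by positivity)
    refine ⟨le_antisymm (up _ _ _ h0 fun y h1 h2 => H20.Lag.upK hD hk
      (by rw [mul_one_div, div_le_one hn1]; linarith) h1 h2) ?_, h0⟩
    exact e2 ▸ low _ _ (fun e he => (Finset.mem_powersetCard.1 he).2) _
      (fun _ => by positivity) e1
  have bdd : ∀ (t : ℕ) (F : Finset (Finset (Fin t))), BddAbove {y : ℝ | ∃ m : ℕ,
      ∃ G : Finset (Finset (Fin m)), (∀ e ∈ G, e.card = k + 2) ∧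
        (¬ ∃ f : Fin t → Fin m, Function.Injective f ∧ ∀ e ∈ F, e.image f ∈ G) ∧
        y = ((k + 2).factorial : ℝ) * lam m G} := by
    intro t F
    refine ⟨1, ?_⟩
    rintro _ ⟨m, G, h1, -, rfl⟩
    exact up _ _ _ zero_le_one fun y h2 h3 => H20.Lag.pw_le_one h1 h2 h3
  have use : ∀ (p : ℕ) (G : Finset (Finset (Fin (p + 1)))), n0 ≤ p → perfect (p + 1) G →
      ∀ (m : ℕ) (Γ : Finset (Finset (Fin m))), (∀ e ∈ Γ, e.card = k + 2) →
        H20.Lag.Bd (k + 2) Γ (H20.Lag.Has G Γ) (H20.Lag.g (k + 2) (1 / p)) := by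
    intro p G hp hG m Γ hΓ
    refine H20.Lag.transfer (fun m Γ h1 h2 y h3 h4 => (low m Γ h1 y h3 h4).trans ?_) hΓ
    rw [← (val p hp).1]
    exact (le_csSup (bdd _ G) ⟨m, Γ, h1, h2, rfl⟩).trans (le_of_eq ((hperf _ _).1 hG))
  refine ⟨n0 + 1, fun a b G H _ _ ha hb hG hH => ?_⟩
  obtain ⟨p, rfl⟩ : ∃ p, a = p + 1 := ⟨a - 1, by omega⟩
  obtain ⟨q, rfl⟩ : ∃ q, b = q + 1 := ⟨b - 1, by omega⟩
  rw [hperf]
  have hv := val (p + 1 + (q + 1) - 1) (by omega)
  refine le_antisymm (Real.sSup_le ?_ (hv.1 ▸ hv.2)) (le_csSup (bdd _ _)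
    ⟨_, _, fun e he => (Finset.mem_powersetCard.1 he).2, fun ⟨f, hf, _⟩ => ?_, rfl⟩)
  · rintro _ ⟨m, Γ, h1, h2, rfl⟩
    rw [hv.1]
    refine up _ _ _ hv.2 fun y h3 h4 => not_lt.1 fun h5 => h2 ?_
    have e : ((p + 1 + (q + 1) - 1 : ℕ) : ℝ) = p + q + 1 := by
      rw [show p + 1 + (q + 1) - 1 = p + q + 1 by omega]
      push_cast
      ring
    rw [e] at h5
    have uG := use p G (by omega) hG m Γ h1
    have uH := use q H (by omega) hH m Γ h1
    rcases le_total p q with h | h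
    · obtain ⟨A, g1, g2⟩ := hsp p q (by omega) h _ Γ _ _ h1 uG uH y h3 h4 h5
      exact H20.Lag.combine g1 g2
    · obtain ⟨A, g1, g2⟩ := hsp q p (by omega) h _ Γ _ _ h1 uH uG y h3 h4
        (by rwa [add_comm (q : ℝ)])
      exact H20.Lag.combine g2 (by rwa [compl_compl])
  · have := Fintype.card_le_of_injective f hf
    simp only [Fintype.card_fin] at this
    omega

end Pool.Agent.S09371
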