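import Pool.Statements.S09384
-- import your own Pool.Agent.* helpers here

set_option autoImplicit false
open Pool Pool.MP_6e435d_co

namespace Pool.Agent.S09384

def mv : List (Fin 13 × Fin 13) :=
  (List.finRange 13).flatMap fun i => ((List.finRange 13).filter fun j =>
    i.val + 1 == j.val || j.val + 1 == i.val).map fun j => (i, j)

def ev : ℕ → Bool → (Fin 13 → Option Bool) → Bool → Bool
  | 0, _, _, _ => false
  | f + 1, true, p, b => mv.any fun m => p m.1 == some b && p m.2 == some (!b) &&
      ev f false (Function.update (Function.update p m.1 none) m.2 (some b)) (!b)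
  | f + 1, false, p, b => mv.all fun m => !(p m.1 == some b && p m.2 == some (!b)) ||
      ev f true (Function.update (Function.update p m.1 none) m.2 (some b)) (!b)

lemma mem_mv (i j : Fin 13) : (i, j) ∈ mv ↔ (i.val + 1 = j.val ∨ j.val + 1 = i.val) := by
  revert i j
  decide +kernel

lemma ev_sound (W : (Fin 13 → Option Bool) → Bool → Prop)
    (hW : ∀ (p : Fin 13 → Option Bool) (b : Bool), W p b ↔ ∃ i j : Fin 13,
      (i.val + 1 = j.val ∨ j.val + 1 = i.val) ∧ p i = some b ∧ p j = some (!b) ∧
        ¬ W (Function.update (Function.update p i none) j (some b)) (!b)) (f : ℕ) :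
    ∀ p b, (ev f true p b = true → W p b) ∧ (ev f false p b = true → ¬ W p b) := by
  induction f with
  | zero => intro p b; simp [ev]
  | succ f ih =>
    intro p b
    constructor
    · intro h
      simp only [ev, List.any_eq_true, Bool.and_eq_true, beq_iff_eq] at h
      obtain ⟨⟨i, j⟩, hm, ⟨h1, h2⟩, h3⟩ := h
      exact (hW p b).2 ⟨i, j, (mem_mv i j).1 hm, h1, h2, (ih _ _).2 h3⟩
    · intro h hw
      obtain ⟨i, j, hm, h1, h2, h3⟩ := (hW p b).1 hw
      simp only [ev, List.all_eq_true] at h
      have := h (i, j) ((mem_mv i j).2 hm)
      simp only [h1, h2, beq_self_eq_true, Bool.and_self, Bool.not_true, Bool.false_or] at this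
      exact h3 ((ih _ _).1 this)

lemma ev_start : ev 14 false (fun i => some (decide (i.val % 2 = 0))) true = true := by
  decide +kernel

def cnt (p : Fin 13 → Option Bool) : ℕ := (Finset.univ.filter fun i => p i ≠ none).card

lemma cnt_lt (p : Fin 13 → Option Bool) (i j : Fin 13) (b c : Bool) (hij : i ≠ j)
    (hi : p i = some b) (hj : p j = some c) :
    cnt (Function.update (Function.update p i none) j (some b)) < cnt p := by
  apply Finset.card_lt_card
  constructor
  · intro k hk
    simp only [Finset.mem_filter, Finset.mem_univ, true_and] at hk ⊢
    by_cases h1 : k = j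
    · subst h1; simp [hj]
    · rw [Function.update_of_ne h1] at hk
      by_cases h2 : k = i
      · subst h2; simp at hk
      · rwa [Function.update_of_ne h2] at hk
  · intro h
    have := h (x := i) (by simp [hi])
    simp [Function.update_of_ne hij] at this

def WW : ℕ → (Fin 13 → Option Bool) → Bool → Prop
  | 0, _, _ => False
  | f + 1, p, b => ∃ i j : Fin 13, (i.val + 1 = j.val ∨ j.val + 1 = i.val) ∧ p i = some b ∧
      p j = some (!b) ∧ ¬ WW f (Function.update (Function.update p i none) j (some b)) (!b)

lemma WW_stab (f : ℕ) : ∀ g p b, cnt p < f → cnt p < g → (WW f p b ↔ WW g p b) := by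
  induction f with
  | zero => intro g p b h; omega
  | succ f ih =>
    intro g p b h1 h2
    rcases g with _ | g
    · omega
    simp only [WW]
    refine exists_congr fun i => exists_congr fun j => and_congr_right fun hij =>
      and_congr_right fun hi => and_congr_right fun hj => not_congr ?_
    have := cnt_lt p i j b (!b) (by rintro rfl; omega) hi hj
    exact ih g _ _ (by omega) (by omega)

/-- The negation of the preceding statement: For every n ≥ 13, in normal-play Clobber on a 1×n strip starting from alternating blue/red pieces, the player to move wins, whether Left (blue) or Right (red) moves first. -/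
theorem result :
    ¬ (∀ n : ℕ, 13 ≤ n →
      ∀ W : (Fin n → Option Bool) → Bool → Prop,
        (∀ (p : Fin n → Option Bool) (b : Bool),
          W p b ↔
            ∃ i j : Fin n,
              (i.val + 1 = j.val ∨ j.val + 1 = i.val) ∧
              p i = some b ∧ p j = some (!b) ∧
              ¬ W (Function.update (Function.update p i none) j (some b)) (!b)) →
        W (fun i => some (decide (i.val % 2 = 0))) true ∧
        W (fun i => some (decide (i.val % 2 = 0))) false) := by
  intro h
  have hW : ∀ (p : Fin 13 → Option Bool) (b : Bool), WW (cnt p + 1) p b ↔ ∃ i j : Fin 13,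
      (i.val + 1 = j.val ∨ j.val + 1 = i.val) ∧ p i = some b ∧ p j = some (!b) ∧
        ¬ WW (cnt (Function.update (Function.update p i none) j (some b)) + 1)
          (Function.update (Function.update p i none) j (some b)) (!b) := by
    intro p b
    rw [WW]
    refine exists_congr fun i => exists_congr fun j => and_congr_right fun hij =>
      and_congr_right fun hi => and_congr_right fun hj => not_congr ?_
    have := cnt_lt p i j b (!b) (by rintro rfl; omega) hi hj
    exact WW_stab _ _ _ _ this (by omega)
  exact (ev_sound (fun p b => WW (cnt p + 1) p b) hW 14 _ _).2 ev_start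
    (h 13 le_rfl (fun p b => WW (cnt p + 1) p b) hW).1

end Pool.Agent.S09384
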