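import Pool.Statements.S09386
import Pool.Agent.H7.Tri2

set_option autoImplicit false
open Pool Pool.MP_6e559c_co

namespace Pool.Agent.S09386

/-- The negation of the preceding statement: For any sequence of finite real-representable matroids, none having a minor isomorphic to U_{3,6}, some two distinct indices i ≠ j have the i-th matroid isomorphic to a minor of the j-th. Equivalently, this class has no infinite antichain under minors. -/
theorem result :
    ¬ (∀ M : ℕ → Matroid ℕ,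
      (∀ i, (M i).E.Finite ∧
        (∃ n : ℕ, ∃ v : ℕ → (Fin n → ℝ),
          ∀ I : Set ℕ, I ⊆ (M i).E → ((M i).Indep I ↔ LinearIndepOn ℝ v I)) ∧
        ¬ (∃ N : Matroid ℕ, N.IsMinor (M i) ∧ N.E.encard = 6 ∧
            ∀ I : Set ℕ, N.Indep I ↔ (I ⊆ N.E ∧ I.encard ≤ 3))) →
      ∃ i j : ℕ, i ≠ j ∧
        ∃ f : ℕ → ℕ, ∃ hf : Set.InjOn f (M i).E, ((M i).map f hf).IsMinor (M j)) := by
  intro H
  have hk : ∀ (k : ℕ) (N : Matroid ℕ), N.IsMinor (H7.Tri.MM k) → ∃ C : Set ℕ, C.Finite ∧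
      N.E ⊆ Set.Iio (3 * k) ∧ Disjoint N.E C ∧ ∀ I ⊆ N.E, N.Indep I ↔ H7.Tri.LI k (I ∪ C) := by
    intro k N hN
    obtain ⟨C, h1, h2, h3, h4⟩ := H7.Tri.minor_struct hN
    refine ⟨C, (Set.finite_Iio _).subset h1, h2, h3, fun I hI => ?_⟩
    rw [h4 I hI, H7.Tri.MM_indep]
    exact and_iff_left (Set.union_subset (hI.trans h2) h1)
  obtain ⟨i, j, hij, f, hf, hm⟩ := H (fun i => H7.Tri.MM (i + 4)) (fun i =>
    ⟨Set.finite_Iio _, H7.Tri.rep _, by
      rintro ⟨N, hN, h6, hI⟩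
      obtain ⟨C, -, -, h3, h4⟩ := hk _ N hN
      refine H7.Tri.no_u36 (k := i + 4) h3 h6 fun I hIN => ?_
      rw [← h4 I hIN, hI, and_iff_right hIN]⟩)
  obtain ⟨C, h1, h2, h3, h4⟩ := hk _ _ hm
  rw [Matroid.map_ground] at h2 h3 h4
  have := H7.Tri.anti (i := i + 4) (k := j + 4) (by omega) (by omega) h1 hf
    (fun x hx => ⟨h2 ⟨x, hx, rfl⟩, fun hc => Set.disjoint_left.1 h3 ⟨x, hx, rfl⟩ hc⟩)
    (fun I hI => by
      rw [← h4 _ (Set.image_mono hI), Matroid.map_image_indep_iff hI, H7.Tri.MM_indep]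
      exact (and_iff_left hI).symm)
  omega

end Pool.Agent.S09386
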