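import Pool.Statements.S09406
import Pool.Agent.H89.BP3
import Pool.Agent.H89.BP4

set_option autoImplicit false
open Pool Pool.MP_6f60ef_co

namespace Pool.Agent.S09406

/-- The negation of the preceding statement: If G is a complete graph or a complete bipartite graph with an even number of edges, then G has a drawing on two planes with minimum total crossings among all such drawings whose two plane subgraphs are isomorphic. -/
theorem result :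
    ¬ (∀ (V : Type) [Finite V] (G : SimpleGraph V),
      (G = ⊤ ∨ ∃ a b : ℕ, Nonempty (G ≃g completeBipartiteGraph (Fin a) (Fin b))) →
      Even (Set.ncard G.edgeSet) →
      ∃ (c : V → V → Fin 2) (p : Fin 2 → V → ℂ) (γ : Fin 2 → V → V → ℝ → ℂ),
        ((∀ u v : V, G.Adj u v → c u v = c v u) ∧
          (∀ i : Fin 2, Function.Injective (p i)) ∧
          (∀ i : Fin 2, ∀ u v : V, G.Adj u v → c u v = i →
            ContinuousOn (γ i u v) (Set.Icc (0:ℝ) 1) ∧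
            Set.InjOn (γ i u v) (Set.Icc (0:ℝ) 1) ∧
            γ i u v 0 = p i u ∧ γ i u v 1 = p i v ∧
            (∀ t : ℝ, 0 ≤ t → t ≤ 1 → γ i v u t = γ i u v (1 - t)) ∧
            ∀ t : ℝ, 0 < t → t < 1 → ∀ w : V, γ i u v t ≠ p i w) ∧
          Set.Finite {x : Fin 2 × V × V × V × V × ℂ |
            G.Adj x.2.1 x.2.2.1 ∧ G.Adj x.2.2.2.1 x.2.2.2.2.1 ∧
            c x.2.1 x.2.2.1 = x.1 ∧ c x.2.2.2.1 x.2.2.2.2.1 = x.1 ∧
            ¬ (x.2.1 = x.2.2.2.1 ∧ x.2.2.1 = x.2.2.2.2.1) ∧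
            ¬ (x.2.1 = x.2.2.2.2.1 ∧ x.2.2.1 = x.2.2.2.1) ∧
            (∃ t : ℝ, 0 < t ∧ t < 1 ∧ γ x.1 x.2.1 x.2.2.1 t = x.2.2.2.2.2) ∧
            (∃ t : ℝ, 0 < t ∧ t < 1 ∧ γ x.1 x.2.2.2.1 x.2.2.2.2.1 t = x.2.2.2.2.2)}) ∧
        Nonempty (SimpleGraph.fromRel (fun u v => G.Adj u v ∧ c u v = 0) ≃g
          SimpleGraph.fromRel (fun u v => G.Adj u v ∧ c u v = 1)) ∧
        ∀ (c' : V → V → Fin 2) (p' : Fin 2 → V → ℂ) (γ' : Fin 2 → V → V → ℝ → ℂ),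
          ((∀ u v : V, G.Adj u v → c' u v = c' v u) ∧
            (∀ i : Fin 2, Function.Injective (p' i)) ∧
            (∀ i : Fin 2, ∀ u v : V, G.Adj u v → c' u v = i →
              ContinuousOn (γ' i u v) (Set.Icc (0:ℝ) 1) ∧
              Set.InjOn (γ' i u v) (Set.Icc (0:ℝ) 1) ∧
              γ' i u v 0 = p' i u ∧ γ' i u v 1 = p' i v ∧
              (∀ t : ℝ, 0 ≤ t → t ≤ 1 → γ' i v u t = γ' i u v (1 - t)) ∧
              ∀ t : ℝ, 0 < t → t < 1 → ∀ w : V, γ' i u v t ≠ p' i w) ∧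
            Set.Finite {x : Fin 2 × V × V × V × V × ℂ |
              G.Adj x.2.1 x.2.2.1 ∧ G.Adj x.2.2.2.1 x.2.2.2.2.1 ∧
              c' x.2.1 x.2.2.1 = x.1 ∧ c' x.2.2.2.1 x.2.2.2.2.1 = x.1 ∧
              ¬ (x.2.1 = x.2.2.2.1 ∧ x.2.2.1 = x.2.2.2.2.1) ∧
              ¬ (x.2.1 = x.2.2.2.2.1 ∧ x.2.2.1 = x.2.2.2.1) ∧
              (∃ t : ℝ, 0 < t ∧ t < 1 ∧ γ' x.1 x.2.1 x.2.2.1 t = x.2.2.2.2.2) ∧
              (∃ t : ℝ, 0 < t ∧ t < 1 ∧ γ' x.1 x.2.2.2.1 x.2.2.2.2.1 t = x.2.2.2.2.2)}) →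
          Set.ncard {x : Fin 2 × V × V × V × V × ℂ |
              G.Adj x.2.1 x.2.2.1 ∧ G.Adj x.2.2.2.1 x.2.2.2.2.1 ∧
              c x.2.1 x.2.2.1 = x.1 ∧ c x.2.2.2.1 x.2.2.2.2.1 = x.1 ∧
              ¬ (x.2.1 = x.2.2.2.1 ∧ x.2.2.1 = x.2.2.2.2.1) ∧
              ¬ (x.2.1 = x.2.2.2.2.1 ∧ x.2.2.1 = x.2.2.2.1) ∧
              (∃ t : ℝ, 0 < t ∧ t < 1 ∧ γ x.1 x.2.1 x.2.2.1 t = x.2.2.2.2.2) ∧
              (∃ t : ℝ, 0 < t ∧ t < 1 ∧ γ x.1 x.2.2.2.1 x.2.2.2.2.1 t = x.2.2.2.2.2)} ≤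
            Set.ncard {x : Fin 2 × V × V × V × V × ℂ |
              G.Adj x.2.1 x.2.2.1 ∧ G.Adj x.2.2.2.1 x.2.2.2.2.1 ∧
              c' x.2.1 x.2.2.1 = x.1 ∧ c' x.2.2.2.1 x.2.2.2.2.1 = x.1 ∧
              ¬ (x.2.1 = x.2.2.2.1 ∧ x.2.2.1 = x.2.2.2.2.1) ∧
              ¬ (x.2.1 = x.2.2.2.2.1 ∧ x.2.2.1 = x.2.2.2.1) ∧
              (∃ t : ℝ, 0 < t ∧ t < 1 ∧ γ' x.1 x.2.1 x.2.2.1 t = x.2.2.2.2.2) ∧
              (∃ t : ℝ, 0 < t ∧ t < 1 ∧ γ' x.1 x.2.2.2.1 x.2.2.2.2.1 t = x.2.2.2.2.2)}) := by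
  intro H
  obtain ⟨c, p, γ, ⟨hsym, hinj, hγ, hfin⟩, ⟨φ⟩, hmin⟩ := H (Fin 9) ⊤ (Or.inl rfl) (by
    rw [← SimpleGraph.coe_edgeFinset, Set.ncard_coe_finset,
      SimpleGraph.card_edgeFinset_top_eq_card_choose_two]
    decide)
  have sub : ∀ x : Fin 2 × Fin 9 × Fin 9 × Fin 9 × Fin 9 × ℂ,
      ((⊤ : SimpleGraph (Fin 9)).Adj x.2.1 x.2.2.1 ∧
        (⊤ : SimpleGraph (Fin 9)).Adj x.2.2.2.1 x.2.2.2.2.1 ∧
        H89.BP.col x.2.1 x.2.2.1 = x.1 ∧ H89.BP.col x.2.2.2.1 x.2.2.2.2.1 = x.1 ∧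
        ¬ (x.2.1 = x.2.2.2.1 ∧ x.2.2.1 = x.2.2.2.2.1) ∧
        ¬ (x.2.1 = x.2.2.2.2.1 ∧ x.2.2.1 = x.2.2.2.1) ∧
        (∃ t : ℝ, 0 < t ∧ t < 1 ∧ H89.BP.sg x.1 x.2.1 x.2.2.1 t = x.2.2.2.2.2) ∧
        (∃ t : ℝ, 0 < t ∧ t < 1 ∧ H89.BP.sg x.1 x.2.2.2.1 x.2.2.2.2.1 t = x.2.2.2.2.2)) →
      x ∈ ((H89.BP.cr8.map ⟨fun q => ((1 : Fin 2), q.1, q.2.1, q.2.2.1, q.2.2.2, H89.BP.z0),
        by rintro ⟨a, b, c, d⟩ ⟨a', b', c', d'⟩ h; simpa using h⟩ :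
        Finset (Fin 2 × Fin 9 × Fin 9 × Fin 9 × Fin 9 × ℂ)) : Set _) := by
    rintro ⟨i, a, b, c, d, z⟩ ⟨h1, h2, h3, h4, h5, h6, h7, h8⟩
    simp only at h1 h2 h3 h4 h5 h6 h7 h8
    subst h3
    obtain ⟨k1, k2, k3⟩ := H89.BP.cross a b c d z h1.ne h2.ne h4.symm h5 h6 h7 h8
    rw [Finset.mem_coe, Finset.mem_map]
    exact ⟨_, k2, by simp [k1, k3]⟩
  have hle := (hmin H89.BP.col H89.BP.pt H89.BP.sg ⟨fun u v _ => H89.BP.d0 u v, H89.BP.pt_inj,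
    fun i u v h hc => ⟨by unfold H89.BP.sg; fun_prop, (H89.BP.sg_inj i u v h.ne).injOn,
      H89.BP.sg0 i u v, H89.BP.sg1 i u v,
      fun t _ _ => by unfold H89.BP.sg; push_cast; ring, H89.BP.sg_ne i u v h.ne hc⟩,
    (Finset.finite_toSet _).subset sub⟩).trans
    (Set.ncard_le_ncard sub (Finset.finite_toSet _))
  rw [Set.ncard_coe_finset, Finset.card_map, H89.BP.cr8_card] at hle
  have hφ : ∀ u v : Fin 9, u ≠ v → (c (φ u) (φ v) = 1 ↔ c u v = 0) := by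
    intro u v h
    have h' : φ u ≠ φ v := fun e => h (φ.injective e)
    have := φ.map_rel_iff (a := u) (b := v)
    simp only [SimpleGraph.fromRel_adj, SimpleGraph.top_adj] at this
    rw [← hsym _ _ h, ← hsym _ _ h'] at this
    simpa [h, h', h.symm, h'.symm] using this
  have key : ∀ i : Fin 2, ∃ a b e d : Fin 9, ∃ z : ℂ, a ≠ b ∧ e ≠ d ∧ a ≠ e ∧ a ≠ d ∧ b ≠ e ∧
      b ≠ d ∧ c a b = i ∧ c e d = i ∧ (∃ t : ℝ, 0 < t ∧ t < 1 ∧ γ i a b t = z) ∧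
      (∃ t : ℝ, 0 < t ∧ t < 1 ∧ γ i e d t = z) := by
    intro i
    by_contra hn
    refine H89.BP.nonplanar φ.toEquiv (fun u v => decide (c u v = i))
      (fun a b h => by rw [hsym a b h]) (fun a b h => ?_) (p i) (γ i)
      (fun a b h hc => ?_) (fun a b e d h1 h2 h3 h4 n1 n2 n3 n4 s hs t ht eq => ?_)
    · have := hφ a b h
      change decide (c (φ a) (φ b) = i) = _
      revert this
      generalize c (φ a) (φ b) = x
      generalize c a b = y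
      clear hn
      revert i x y
      decide
    · have := hγ i a b h (by simpa using hc)
      exact ⟨this.1, this.2.2.1, this.2.2.2.1⟩
    · have c1 : c a b = i := by simpa using h3
      have c2 : c e d = i := by simpa using h4
      obtain ⟨-, -, a0, a1, -, a2⟩ := hγ i a b h1 c1
      obtain ⟨-, -, b0, b1, -, b2⟩ := hγ i e d h2 c2
      rcases hs.1.eq_or_lt with rfl | s0
      · rw [a0] at eq
        rcases ht.1.eq_or_lt with rfl | t0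
        · exact n1 (hinj i (eq.trans b0))
        rcases ht.2.eq_or_lt with rfl | t1
        · exact n2 (hinj i (eq.trans b1))
        exact b2 t t0 t1 a eq.symm
      rcases hs.2.eq_or_lt with rfl | s1
      · rw [a1] at eq
        rcases ht.1.eq_or_lt with rfl | t0
        · exact n3 (hinj i (eq.trans b0))
        rcases ht.2.eq_or_lt with rfl | t1
        · exact n4 (hinj i (eq.trans b1))
        exact b2 t t0 t1 b eq.symm
      rcases ht.1.eq_or_lt with rfl | t0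
      · exact a2 s s0 s1 e (eq.trans b0)
      rcases ht.2.eq_or_lt with rfl | t1
      · exact a2 s s0 s1 d (eq.trans b1)
      exact hn ⟨a, b, e, d, _, h1, h2, n1, n2, n3, n4, c1, c2, ⟨s, s0, s1, eq⟩, ⟨t, t0, t1, rfl⟩⟩
  obtain ⟨a, b, e, d, z, h1, h2, n1, n2, n3, n4, c1, c2, g1, g2⟩ := key 0
  obtain ⟨a', b', e', d', z', h1', h2', n1', n2', n3', n4', c1', c2', g1', g2'⟩ := key 1
  have rev : ∀ u v : Fin 9, u ≠ v → c u v = 0 → (∃ t : ℝ, 0 < t ∧ t < 1 ∧ γ 0 u v t = z) →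
      c v u = 0 ∧ ∃ t : ℝ, 0 < t ∧ t < 1 ∧ γ 0 v u t = z := by
    rintro u v h hc ⟨t, t0, t1, e⟩
    refine ⟨by rw [← hsym u v h, hc], 1 - t, by linarith, by linarith, ?_⟩
    rw [(hγ 0 u v h hc).2.2.2.2.1 _ (by linarith) (by linarith), sub_sub_cancel, e]
  obtain ⟨c3, g3⟩ := rev a b h1 c1 g1
  obtain ⟨c4, g4⟩ := rev e d h2 c2 g2
  let F : Finset (Fin 2 × Fin 9 × Fin 9 × Fin 9 × Fin 9 × ℂ) :=
    {(1, a', b', e', d', z'), (0, a, b, e, d, z), (0, b, a, e, d, z), (0, a, b, d, e, z),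
      (0, b, a, d, e, z), (0, e, d, a, b, z), (0, e, d, b, a, z), (0, d, e, a, b, z),
      (0, d, e, b, a, z)}
  have hF : F.card = 9 := by
    simp only [F]
    repeat rw [Finset.card_insert_of_notMem]
    · rfl
    all_goals simp [h1, h2, n1, n2, n3, n4, h1.symm, h2.symm, n1.symm, n2.symm, n3.symm, n4.symm]
  have := (Set.ncard_le_ncard (s := (F : Set _)) ?_ hfin).trans hle
  · rw [Set.ncard_coe_finset, hF] at this
    omega
  intro x hx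
  simp only [F, Finset.coe_insert, Finset.coe_singleton, Set.mem_insert_iff,
    Set.mem_singleton_iff] at hx
  rcases hx with rfl | rfl | rfl | rfl | rfl | rfl | rfl | rfl | rfl
  · exact ⟨h1', h2', c1', c2', fun h => n1' h.1, fun h => n2' h.1, g1', g2'⟩
  · exact ⟨h1, h2, c1, c2, fun h => n1 h.1, fun h => n2 h.1, g1, g2⟩
  · exact ⟨h1.symm, h2, c3, c2, fun h => n3 h.1, fun h => n4 h.1, g3, g2⟩
  · exact ⟨h1, h2.symm, c1, c4, fun h => n2 h.1, fun h => n1 h.1, g1, g4⟩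
  · exact ⟨h1.symm, h2.symm, c3, c4, fun h => n4 h.1, fun h => n3 h.1, g3, g4⟩
  · exact ⟨h2, h1, c2, c1, fun h => n1 h.1.symm, fun h => n3 h.1.symm, g2, g1⟩
  · exact ⟨h2, h1.symm, c2, c3, fun h => n3 h.1.symm, fun h => n1 h.1.symm, g2, g3⟩
  · exact ⟨h2.symm, h1, c4, c1, fun h => n2 h.1.symm, fun h => n4 h.1.symm, g4, g1⟩
  · exact ⟨h2.symm, h1.symm, c4, c3, fun h => n4 h.1.symm, fun h => n2 h.1.symm, g4, g3⟩

end Pool.Agent.S09406
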