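import Pool.Statements.S09469
import Pool.Agent.H7.CyclicSTS

set_option autoImplicit false
open Pool Pool.MP_72c5f4_co

namespace Pool.Agent.S09469

open Pool.Agent.H7 Pool.Agent.H7.CyclicSTS

/-- For every M, all sufficiently large n with n ≡ 1 or 3 mod 6 admit at least M pairwise non-isomorphic cyclic Steiner triple systems on Z/nZ, i.e. the number of cyclic STS(n) up to isomorphism tends to infinity. -/
theorem result :
    ∀ M : ℕ, ∃ N : ℕ, ∀ n : ℕ, N ≤ n → (n % 6 = 1 ∨ n % 6 = 3) →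
      ∃ B : Fin M → Finset (Finset (ZMod n)),
        (∀ i, (∀ b ∈ B i, b.card = 3) ∧
          (∀ x y : ZMod n, x ≠ y → ∃! b : Finset (ZMod n), b ∈ B i ∧ x ∈ b ∧ y ∈ b) ∧
          (∀ b ∈ B i, b.image (fun x => x + 1) ∈ B i)) ∧
        (∀ i j, i ≠ j → ¬ ∃ σ : Equiv.Perm (ZMod n),
          ∀ b : Finset (ZMod n), b ∈ B i ↔ b.map σ.toEmbedding ∈ B j) := by
  intro M
  refine ⟨180 * M + 72, fun n hn h => ?_⟩
  have : NeZero n := ⟨by omega⟩
  obtain ⟨b, hb⟩ := Heffter.sol n (by omega) h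
  have hF := fam_of_sol n h b hb
  generalize (fun i : Fin (n / 6) => ((i.val + 1 : ℕ) : ZMod n)) = A at hF
  generalize (fun i : Fin (n / 6) => ((b (i.val + 1) : ℕ) : ZMod n)) = C at hF
  obtain ⟨f, hf1, hf2⟩ := pick n M (Finset.univ.image (fun ε : Fin (n / 6) → Bool =>
      blocks (rel (sw ε A C) (sw ε C A))))
    (by
      intro B hB
      obtain ⟨ε, _, rfl⟩ := Finset.mem_image.1 hB
      exact iso_shift _ _)
    (by
      rw [Finset.card_image_of_injective _ hF.sw_inj]
      simp only [Finset.card_univ, Fintype.card_fun, Fintype.card_bool, Fintype.card_fin]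
      refine le_trans ?_ (growth M (n / 6) (by omega))
      exact Nat.mul_le_mul_left _ (by omega))
  refine ⟨f, fun i => ?_, hf2⟩
  obtain ⟨ε, _, he⟩ := Finset.mem_image.1 (hf1 i)
  rw [← he]
  exact ⟨blocks_card (hF.sw ε).cyc, blocks_pair (hF.sw ε).cyc, blocks_shift _ 1⟩

end Pool.Agent.S09469
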