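import Pool.Statements.S09487
import Pool.Agent.H14.Zs4

set_option autoImplicit false
open Pool Pool.MP_73989e_co

namespace Pool.Agent.S09487

/-- For every prime p there is a constant c such that for any graph G on n vertices with p dividing its edge count, every Z_p-colouring of the edges of K_{n+c} contains a copy of G whose edge colours sum to 0 mod p. -/
theorem result :
    ∀ p : ℕ, p.Prime → ∃ c : ℕ, ∀ n : ℕ, ∀ G : SimpleGraph (Fin n),
      ∀ [inst : DecidableRel G.Adj], p ∣ G.edgeFinset.card →
        ∀ f : Sym2 (Fin (n + c)) → ZMod p,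
          ∃ φ : Fin n ↪ Fin (n + c),
            ∑ e ∈ G.edgeFinset, f (Sym2.map φ e) = 0 := by
  intro k hk
  have : NeZero k := ⟨hk.ne_zero⟩
  obtain ⟨c, hc⟩ := H14.Zs.main k
  refine ⟨c, fun n G _ h f => ?_⟩
  obtain ⟨φ, hφ⟩ := hc (Fin n) (Fin (n + c)) G f (by convert h) (by simp)
  exact ⟨φ, by convert hφ⟩

end Pool.Agent.S09487
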