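import Pool.Statements.S09503
import Pool.Agent.H78.SqsA

set_option autoImplicit false
open Pool Pool.MP_741a63_co

namespace Pool.Agent.S09503

/-- The limsup, as v grows, of the largest number of colours in a colouring of a Steiner quadruple system on v points where every block has two same-coloured points, divided by log₂ v, equals 1. -/
theorem result :
    (∀ ε : ℝ, 0 < ε → ∃ N : ℕ, ∀ v : ℕ, N ≤ v → ∀ B : Finset (Finset (Fin v)),
      (∀ b ∈ B, b.card = 4) →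
      (∀ T : Finset (Fin v), T.card = 3 → ∃! b, b ∈ B ∧ T ⊆ b) →
      ∀ c : Fin v → ℕ, (∀ b ∈ B, ∃ x ∈ b, ∃ y ∈ b, x ≠ y ∧ c x = c y) →
      ((Finset.univ.image c).card : ℝ) ≤ (1 + ε) * Real.logb 2 (v : ℝ)) ∧
    (∀ ε : ℝ, 0 < ε → ∀ N : ℕ, ∃ v : ℕ, N ≤ v ∧ ∃ B : Finset (Finset (Fin v)),
      (∀ b ∈ B, b.card = 4) ∧
      (∀ T : Finset (Fin v), T.card = 3 → ∃! b, b ∈ B ∧ T ⊆ b) ∧
      ∃ c : Fin v → ℕ, (∀ b ∈ B, ∃ x ∈ b, ∃ y ∈ b, x ≠ y ∧ c x = c y) ∧
      (1 - ε) * Real.logb 2 (v : ℝ) ≤ ((Finset.univ.image c).card : ℝ)) := by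
  constructor
  · intro ε hε
    refine ⟨2 ^ ⌈4 / ε⌉₊, fun v hv B h4 hU c hc => ?_⟩
    have hv1 : 1 ≤ v := le_trans Nat.one_le_two_pow hv
    have hv0 : (0:ℝ) < v := by exact_mod_cast hv1
    have h := Pool.Agent.H78.Sqs.upper B h4 hU c hc (by simpa using hv1)
    rw [Fintype.card_fin] at h
    have h1 : ((Finset.univ.image c).card : ℝ) ≤ Real.logb 2 (16 * v) := by
      rw [Real.le_logb_iff_rpow_le (by norm_num) (by positivity), Real.rpow_natCast]
      exact h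
    have h16 : Real.logb 2 16 = 4 := by
      rw [show (16:ℝ) = 2 ^ (4:ℝ) by norm_num, Real.logb_rpow (by norm_num) (by norm_num)]
    rw [Real.logb_mul (by norm_num) hv0.ne', h16] at h1
    have h2 : (⌈4 / ε⌉₊ : ℝ) ≤ Real.logb 2 v := by
      rw [Real.le_logb_iff_rpow_le (by norm_num) hv0, Real.rpow_natCast]
      exact_mod_cast hv
    have h3 : 4 / ε ≤ Real.logb 2 v := (Nat.le_ceil _).trans h2
    rw [div_le_iff₀ hε] at h3
    linarith
  · intro ε hε N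
    obtain ⟨B, h4, hU, c, hc, hn⟩ := Pool.Agent.H78.Sqs.lower N
    refine ⟨2 ^ N, Nat.lt_two_pow_self.le, B, h4, hU, c, hc, ?_⟩
    have h1 : Real.logb 2 ((2 ^ N : ℕ) : ℝ) = N := by
      rw [Nat.cast_pow, Nat.cast_ofNat, Real.logb_pow]
      simp
    have h2 : (N : ℝ) ≤ ((Finset.univ.image c).card : ℝ) := by exact_mod_cast hn
    have h3 : (0:ℝ) ≤ N := Nat.cast_nonneg N
    rw [h1]
    nlinarith

end Pool.Agent.S09503
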