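import Pool.Statements.S09522
import Pool.Agent.H21.FracPeb

set_option autoImplicit false
open Pool Pool.MP_74a576_co

namespace Pool.Agent.S09522

/-- The negation of the preceding statement: There is a constant c such that for every finite connected graph and every t ≥ 1, t times the optimal pebbling number is at most c times the optimal t-pebbling number, i.e. optimal pebbling number ≤ c · fractional optimal pebbling number. -/
theorem result :
    ¬ (∃ c : ℕ, ∀ (V : Type) [Fintype V] [DecidableEq V] (G : SimpleGraph V), G.Connected →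
      ∀ t : ℕ, 1 ≤ t → ∀ D : V → ℕ,
        (∀ r : V, ∃ D' : V → ℕ,
            Relation.ReflTransGen
              (fun A B : V → ℕ => ∃ u v : V, G.Adj u v ∧ 2 ≤ A u ∧
                B = Function.update (Function.update A u (A u - 2)) v (A v + 1)) D D' ∧
            t ≤ D' r) →
        ∃ E : V → ℕ,
          (∀ r : V, ∃ E' : V → ℕ,
              Relation.ReflTransGen
                (fun A B : V → ℕ => ∃ u v : V, G.Adj u v ∧ 2 ≤ A u ∧
                  B = Function.update (Function.update A u (A u - 2)) v (A v + 1)) E E' ∧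
              1 ≤ E' r) ∧
          t * ∑ v, E v ≤ c * ∑ v, D v) := by
  rintro ⟨c, hc⟩
  have hm : 0 < 4 * c + 1 := by omega
  obtain ⟨m, hmc⟩ : ∃ m, m = 4 * c + 1 := ⟨_, rfl⟩
  obtain ⟨l, hl⟩ : ∃ l, l = 2 * m := ⟨_, rfl⟩
  obtain ⟨q, hq⟩ : ∃ q, q = 2 ^ l := ⟨_, rfl⟩
  have hl0 : 0 < l := by omega
  have hq0 : 0 < q := by rw [hq]; positivity
  have h := hc (H21.FracPeb.Vx q l) (H21.FracPeb.G q l) (H21.FracPeb.connected hq0 hl0)
    (2 ^ m) Nat.one_le_two_pow (H21.FracPeb.D q l)
  rw [H21.Pebble.graph_step_iff] at h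
  obtain ⟨E, hE, hle⟩ := h (H21.FracPeb.solvable m (by omega) hl hq)
  have h1 := H21.FracPeb.lower hl0 hq E hE
  rw [H21.FracPeb.sum_D] at hle
  have h2 : m < 2 ^ m := Nat.lt_two_pow_self
  have h3 : 0 < q * q := Nat.mul_pos hq0 hq0
  have h4 : 2 ^ m * (q * q) ≤ 4 * c * (q * q) := by nlinarith
  have h5 := Nat.le_of_mul_le_mul_right h4 h3
  omega

end Pool.Agent.S09522
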