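import Pool.Statements.S09534
import Pool.Agent.H54.Spec

set_option autoImplicit false
open Classical
open Pool Pool.MP_7523ff_co

namespace Pool.Agent.S09534

/-- The negation of the preceding statement: There are α in (0,2), c>0 and n0 such that for n≥n0 and c·n^α ≤ m ≤ C(n,2), every connected n-vertex m-edge graph of least spectral radius is r-colorable, where e(T(n,r−1)) < m ≤ e(T(n,r)). -/
theorem result :
    ¬ (∃ α : ℝ, 0 < α ∧ α < 2 ∧ ∃ c : ℝ, 0 < c ∧ ∃ n₀ : ℕ, ∀ n : ℕ, n₀ ≤ n →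
      ∀ m : ℕ, c * (n : ℝ) ^ α ≤ (m : ℝ) → m ≤ n.choose 2 →
      ∀ G : SimpleGraph (Fin n), G.Connected → G.edgeSet.ncard = m →
        (∀ H : SimpleGraph (Fin n), H.Connected → H.edgeSet.ncard = m →
          sSup (spectrum ℝ (G.adjMatrix ℝ)) ≤ sSup (spectrum ℝ (H.adjMatrix ℝ))) →
        ∀ r : ℕ, 2 ≤ r →
          (SimpleGraph.turanGraph n (r - 1)).edgeSet.ncard < m →
          m ≤ (SimpleGraph.turanGraph n r).edgeSet.ncard →
          G.Colorable r) := by
  rintro ⟨α, _, h2, c, _, n₀, h⟩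
  obtain ⟨t, ht, hn, hc⟩ := Pool.Agent.H54.Spec.exists_t α h2 c n₀
  obtain ⟨h3, h4⟩ := Pool.Agent.H54.Spec.circ_min t
  obtain ⟨h5, h6⟩ := Pool.Agent.H54.Spec.turan_two t
  refine Pool.Agent.H54.Spec.no_min_colorable t ht _ h3 h4
    (h (4 * t + 1) hn _ hc ?_ _ (Pool.Agent.H54.Spec.circ_connected t ht) h3 h4 2 le_rfl ?_ ?_)
  · rw [Nat.choose_two_right, Nat.add_sub_cancel, Nat.le_div_iff_mul_le (by norm_num)]
    nlinarith
  · rw [h5]; positivity
  · rw [h6]; nlinarith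

end Pool.Agent.S09534
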