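import Pool.Statements.S09566
import Pool.Agent.H26.IEOp

set_option autoImplicit false
open Pool Pool.MP_766cb7_co

namespace Pool.Agent.S09566

/-- The negation of the preceding statement: Let f on subsets of S be increasing, monotone, idempotent and have the exchange property, and satisfy (C) and (H) with independent and spanning defined via f. Then some matroid (B-matroid) on S has closure equal to f. -/
theorem result :
    ¬ (∀ (α : Type) (S : Set α) (f : Set α → Set α),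
      (∀ X, X ⊆ S → f X ⊆ S) →
      (∀ X, X ⊆ S → X ⊆ f X) →
      (∀ X Y, X ⊆ Y → Y ⊆ S → f X ⊆ f Y) →
      (∀ X, X ⊆ S → f (f X) = f X) →
      (∀ X, X ⊆ S → ∀ p ∈ S, ∀ q, q ∈ f (insert p X) → q ∉ f X → p ∈ f (insert q X)) →
      (∀ Y, Y ⊆ S → ∀ p ∈ f Y, ∃ U : Set α,
          Minimal (fun W : Set α => W ⊆ Y ∧ p ∈ f W) U ∧
          ∀ x ∈ U, x ∉ f (U \ {x})) →
      (∀ Y, Y ⊆ S → ∀ p ∈ S, p ∉ f Y → ∃ V : Set α,
          Maximal (fun W : Set α => Y ⊆ W ∧ W ⊆ S ∧ p ∉ f W) V ∧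
          f (insert p V) = S) →
      ∃ M : Matroid α, M.E = S ∧ ∀ X, X ⊆ S → M.closure X = f X) := by
  intro h
  obtain ⟨𝓑, hg, h0, hc, hY⟩ := H26.IEOp.exists_family
  obtain ⟨M, hE, hM⟩ := h H26.IEOp.Gd Set.univ (H26.IEOp.op 𝓑) (fun _ _ => Set.subset_univ _)
    (fun X _ => H26.IEOp.op_ext 𝓑 X) (fun X Y hXY _ => H26.IEOp.op_mono 𝓑 hXY)
    (fun X _ => H26.IEOp.op_idem 𝓑 X)
    (by
      intro X _ p _ q hq hq'
      have hp : p ∉ X := fun hc => hq' (by rwa [Set.insert_eq_of_mem hc] at hq)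
      have e : insert p X \ {p} = X := Set.insert_sdiff_self_of_notMem hp
      obtain ⟨x, hx, hx'⟩ := H26.IEOp.op_cl4 hg {p} (insert p X) q hq (by rwa [e])
      obtain rfl : x = p := hx
      rwa [e] at hx')
    (fun Y _ p hp => H26.IEOp.op_C hg h0 Y p hp)
    (by
      intro Y _ p _ hp
      obtain ⟨V, hV, hV'⟩ := H26.IEOp.op_H hg hc Y p hp
      refine ⟨V, ?_, hV'⟩
      simpa using hV)
  have hM' : ∀ X, M.closure X = H26.IEOp.op 𝓑 X := fun X => hM X (Set.subset_univ _)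
  have hJ : M.Indep H26.IEOp.J := by
    rw [Matroid.indep_iff_forall_notMem_closure_sdiff (by rw [hE]; exact Set.subset_univ _)]
    intro e he
    rw [hM', H26.IEOp.op_nspan]
    · exact fun hc => hc.2 rfl
    · rintro ⟨B, hB, hBJ⟩
      refine Set.not_infinite.2 Set.finite_empty ((hY ∅).1 ⟨B, hB, ?_⟩)
      exact hBJ.trans (Set.sdiff_subset.trans Set.subset_union_left)
  obtain ⟨I, hI, hJI⟩ := hJ.subset_isBasis_of_subset (X := H26.IEOp.J ∪ Set.range H26.IEOp.mid)
    Set.subset_union_left (by rw [hE]; exact Set.subset_univ _)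
  have e := H26.IEOp.between hJI hI.subset
  by_cases hfin : {n | H26.IEOp.mid n ∈ I}.Finite
  · have h1 := hI.subset_closure
    rw [hM', H26.IEOp.op_nspan] at h1
    · obtain ⟨n, hn⟩ := hfin.infinite_compl.nonempty
      exact hn (h1 (Or.inr ⟨n, rfl⟩))
    · rw [e]
      exact fun hc => (hY _).1 hc hfin
  · have hinf : {n | H26.IEOp.mid n ∈ I}.Infinite := hfin
    obtain ⟨n, hn⟩ := hinf.nonempty
    have h1 := hI.indep.notMem_closure_sdiff_of_mem hn
    rw [hM', H26.IEOp.op_span] at h1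
    · exact h1 (Set.mem_univ _)
    · obtain ⟨B, hB, hBs⟩ := (hY _).2 (hinf.sdiff (Set.finite_singleton n))
      refine ⟨B, hB, hBs.trans ?_⟩
      rintro x (hx | ⟨m, hm, rfl⟩)
      · exact ⟨hJI hx, fun hc => H26.IEOp.mid_not_J n (hc ▸ hx)⟩
      · exact ⟨hm.1, fun hc => hm.2 (H26.IEOp.mid_inj hc)⟩

end Pool.Agent.S09566
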