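import Pool.Statements.S09583
import Pool.Agent.H28.ZeroFree
import Pool.Agent.H28.EdgeMenger

set_option autoImplicit false
open Pool Pool.MP_770436_co

namespace Pool.Agent.S09583

open Module Submodule Pool.Agent.H28

theorem count_lemma {E U : Type} [Fintype E] [DecidableEq E] [AddCommGroup U] [Module (ZMod 2) U]
    [Fintype U] (χ : E → Dual (ZMod 2) U) (m : ℕ) :
    (Nat.card {c : Fin m → U // ∀ e, ¬ ∀ i, χ e (c i) = 0} : ℂ) =
      ∑ X : Finset E, (-1 : ℂ) ^ X.card *
        ((2 : ℂ) ^ m) ^ (finrank (ZMod 2) U - finrank (ZMod 2) (span (ZMod 2) (χ '' (X : Set E)))) := by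
  classical
  have h1 : (Nat.card {c : Fin m → U // ∀ e, ¬ ∀ i, χ e (c i) = 0} : ℂ) =
      ∑ c : Fin m → U, ∏ e : E, (1 + - (if ∀ i, χ e (c i) = 0 then (1 : ℂ) else 0)) := by
    rw [Nat.card_eq_fintype_card, Fintype.card_subtype, Finset.card_filter]
    push_cast
    refine Finset.sum_congr rfl fun c _ => ?_
    split_ifs with h
    · symm
      refine Finset.prod_eq_one fun e _ => ?_
      rw [if_neg (h e)]; simp
    · symm
      push Not at h
      obtain ⟨e, he⟩ := h
      refine Finset.prod_eq_zero (Finset.mem_univ e) ?_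
      rw [if_pos he]; simp
  rw [h1]
  simp only [Finset.prod_one_add, Finset.powerset_univ]
  rw [Finset.sum_comm]
  refine Finset.sum_congr rfl fun X _ => ?_
  simp only [Finset.prod_neg, ← Finset.mul_sum]
  congr 1
  set A := (span (ZMod 2) (χ '' (X : Set E))).dualCoannihilator with hA
  have hmem : ∀ u : U, u ∈ A ↔ ∀ e ∈ X, χ e u = 0 := by
    intro u
    rw [hA, Submodule.mem_dualCoannihilator]
    constructor
    · exact fun h e he => h _ (subset_span ⟨e, he, rfl⟩)
    · intro h φ hφ
      have : span (ZMod 2) (χ '' (X : Set E)) ≤ LinearMap.ker (Module.Dual.eval (ZMod 2) U u) := by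
        rw [span_le]
        rintro _ ⟨e, he, rfl⟩
        exact h e he
      exact this hφ
  have h2 : ∀ c : Fin m → U, ∏ e ∈ X, (if ∀ i, χ e (c i) = 0 then (1 : ℂ) else 0) =
      ∏ i, if c i ∈ A then (1 : ℂ) else 0 := by
    intro c
    rw [Finset.prod_ite_zero, Finset.prod_ite_zero]
    simp only [Finset.prod_const_one, Finset.mem_univ, true_imp_iff, hmem]
    congr 1
    exact propext ⟨fun h i e he => h e he i, fun h e he i => h i e he⟩
  simp only [h2]
  rw [← Fintype.piFinset_univ, ← Finset.prod_univ_sum (fun _ => Finset.univ)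
    (fun (_ : Fin m) (u : U) => if u ∈ A then (1 : ℂ) else 0)]
  have h3 : ∑ u : U, (if u ∈ A then (1 : ℂ) else 0) = (2 : ℂ) ^ finrank (ZMod 2) A := by
    rw [Finset.sum_boole, ← Fintype.card_subtype, Module.card_eq_pow_finrank (K := ZMod 2)]
    simp
  have h4 := Subspace.finrank_add_finrank_dualCoannihilator_eq (span (ZMod 2) (χ '' (X : Set E)))
  rw [← hA] at h4
  rw [h3, Finset.prod_const, Finset.card_univ, Fintype.card_fin, ← pow_mul, ← pow_mul, mul_comm]
  congr 2
  omega

/-- the functional `g ↦ g a + g b` attached to the pair `a b` -/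
noncomputable def chi {V : Type} : Sym2 V → Dual (ZMod 2) (V → ZMod 2) :=
  Sym2.lift ⟨fun a b => LinearMap.proj a + LinearMap.proj b, fun _ _ => add_comm _ _⟩

theorem chi_apply {V : Type} (a b : V) (g : V → ZMod 2) : chi s(a, b) g = g a + g b := rfl

theorem add_eq_zero_iff : ∀ x y : ZMod 2, x + y = 0 ↔ x = y := by decide

theorem card_col {V : Type} (G : SimpleGraph V) (m : ℕ) :
    Nat.card (G.Coloring (Fin (2 ^ m))) =
      Nat.card {c : Fin m → V → ZMod 2 // ∀ e : G.edgeSet, ¬ ∀ i, chi (e : Sym2 V) (c i) = 0} := by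
  have e1 : Fin (2 ^ m) ≃ (Fin m → ZMod 2) := Fintype.equivOfCardEq (by simp)
  rw [Nat.card_congr (G.recolorOfEquiv e1)]
  refine Nat.card_congr ⟨fun C => ⟨fun i v => C v i, ?_⟩, fun c => SimpleGraph.Coloring.mk
    (fun v i => c.1 i v) ?_, fun C => rfl, fun c => rfl⟩
  · rintro ⟨e, he⟩ h
    induction e using Sym2.ind with
    | h a b =>
      apply C.valid (G.mem_edgeSet.1 he)
      funext i
      exact (add_eq_zero_iff _ _).1 (h i)
  · intro a b hab h
    exact c.2 ⟨s(a, b), hab⟩ fun i => (add_eq_zero_iff _ _).2 (congrFun h i)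

/-- For each k ≥ 1 there is C such that, for every finite graph whose maximum over distinct vertex pairs of the number of edge-disjoint connecting paths is exactly k, every complex root z of its chromatic polynomial satisfies ∣z − 1∣ ≤ C. -/
theorem result :
    ∀ k : ℕ, 0 < k → ∃ C : ℝ, ∀ (V : Type) [Fintype V] (G : SimpleGraph V),
      ((∃ u v : V, u ≠ v ∧ ∃ p : Fin k → G.Walk u v,
          (∀ i, (p i).IsPath) ∧ Pairwise (fun i j => List.Disjoint (p i).edges (p j).edges)) ∧
       (∀ u v : V, u ≠ v → ¬ ∃ p : Fin (k + 1) → G.Walk u v,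
          (∀ i, (p i).IsPath) ∧ Pairwise (fun i j => List.Disjoint (p i).edges (p j).edges))) →
      ∀ P : Polynomial ℂ,
        (∀ n : ℕ, P.eval (n : ℂ) = ((Nat.card (G.Coloring (Fin n)) : ℕ) : ℂ)) →
        ∀ z : ℂ, P.IsRoot z → ‖z - 1‖ ≤ C := by
  classical
  rintro k - 
  refine ⟨2 * 4 ^ k + 1, ?_⟩
  rintro V _ G ⟨-, hG⟩ P hP z hz
  let χ : G.edgeSet → Dual (ZMod 2) (V → ZMod 2) := fun e => chi (e : Sym2 V)
  let r := finrank (ZMod 2) (V → ZMod 2)
  have hPeq : P = ∑ X : Finset G.edgeSet, Polynomial.C ((-1 : ℂ) ^ X.card) *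
      Polynomial.X ^ (r - finrank (ZMod 2) (span (ZMod 2) (χ '' (X : Set G.edgeSet)))) := by
    apply Polynomial.eq_of_infinite_eval_eq
    refine Set.infinite_of_injective_forall_mem (f := fun m : ℕ => ((2 ^ m : ℕ) : ℂ)) ?_ ?_
    · intro a b hab
      exact Nat.pow_right_injective le_rfl (Nat.cast_injective hab)
    · intro m
      rw [Set.mem_ofPred_eq, hP, card_col, count_lemma χ m]
      simp [Polynomial.eval_finsetSum, r]
  have hcut := EdgeMenger.odd_cut (G := G) k fun s t hst => EdgeMenger.menger k (hG s t hst)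
  have hz' : ‖z‖ ≤ 2 * 4 ^ k := by
    refine ZeroFree.root_bound (K := ZMod 2) χ ?_ k ?_ r ?_ z ?_
    · rintro ⟨e, he⟩ h
      induction e using Sym2.ind with
      | h a b =>
        have hne : a ≠ b := (G.mem_edgeSet.1 he).ne
        have := LinearMap.congr_fun h (Pi.single a 1)
        simp [χ, chi_apply, hne.symm] at this
    · intro w hw hw0
      let T : Finset V := Finset.univ.filter fun v => w (Pi.single v 1) ≠ 0
      have hone : ∀ x : ZMod 2, x ≠ 0 → x = 1 := by decide
      have hval : ∀ Y : Finset V, w (fun v => if v ∈ Y then 1 else 0) = ((Y ∩ T).card : ZMod 2) := by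
        intro Y
        have : (fun v => if v ∈ Y then (1 : ZMod 2) else 0) = ∑ v ∈ Y, Pi.single v 1 := by
          funext x
          simp [Finset.sum_apply, Pi.single_apply]
        rw [this, map_sum, ← Finset.filter_mem_eq_inter, Finset.card_filter]
        push_cast
        refine Finset.sum_congr rfl fun v _ => ?_
        by_cases h : w (Pi.single v 1) = 0
        · simp [T, h]
        · simp [T, hone _ h]
      have hTne : T.Nonempty := by
        by_contra hT
        rw [Finset.not_nonempty_iff_eq_empty, Finset.filter_eq_empty_iff] at hT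
        apply hw0
        refine (Pi.basisFun (ZMod 2) V).ext fun v => ?_
        simpa using hT (Finset.mem_univ v)
      have hTev : Even T.card := by
        have h1 := hval Finset.univ
        have h2 : span (ZMod 2) (Set.range χ) ≤
            LinearMap.ker (Module.Dual.eval (ZMod 2) (V → ZMod 2) (fun _ => 1)) := by
          rw [span_le]
          rintro _ ⟨⟨e, he⟩, rfl⟩
          induction e using Sym2.ind with
          | h a b => exact (add_eq_zero_iff _ _).2 rfl
        have h3 : w (fun _ => 1) = 0 := h2 hw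
        simp only [Finset.mem_univ, if_true, Finset.univ_inter] at h1
        rw [h3] at h1
        exact (ZMod.natCast_eq_zero_iff_even).1 h1.symm
      obtain ⟨Y, hY, hYk⟩ := hcut _ T rfl hTne hTev
      refine ⟨Module.Dual.eval (ZMod 2) (V → ZMod 2) (fun v => if v ∈ Y then 1 else 0), ?_, ?_⟩
      · rw [Module.Dual.eval_apply, hval, Ne, ZMod.natCast_eq_zero_iff_even]
        exact Nat.not_even_iff_odd.2 hY
      · refine le_trans ?_ hYk
        have hc : EdgeMenger.cut G Y = (Finset.univ.filter fun p : V × V =>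
            p.1 ∈ Y ∧ p.2 ∉ Y ∧ G.Adj p.1 p.2).card := by
          rw [Finset.card_filter, EdgeMenger.cut, Fintype.sum_prod_type]
        rw [hc, ← Finset.card_image_of_injective _ Subtype.val_injective]
        refine le_trans (Finset.card_le_card ?_) (Finset.card_image_le (f := fun p => s(p.1, p.2)))
        intro e he
        simp only [Finset.mem_image, Finset.mem_filter, Finset.mem_univ, true_and] at he ⊢
        obtain ⟨⟨e, he'⟩, h1, rfl⟩ := he
        induction e using Sym2.ind with
        | h a b =>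
          have hadj := G.mem_edgeSet.1 he'
          simp only [Module.Dual.eval_apply, χ, chi_apply, Ne, add_eq_zero_iff] at h1
          by_cases ha : a ∈ Y <;> by_cases hb : b ∈ Y
          · simp [ha, hb] at h1
          · exact ⟨(a, b), ⟨ha, hb, hadj⟩, rfl⟩
          · exact ⟨(b, a), ⟨hb, ha, hadj.symm⟩, Sym2.eq_swap⟩
          · simp [ha, hb] at h1
    · exact (Submodule.finrank_le _).trans (Subspace.dual_finrank_eq).le
    · have := hz
      rw [Polynomial.IsRoot, hPeq] at this
      simpa [Polynomial.eval_finsetSum] using this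
  have := norm_sub_le z 1
  rw [norm_one] at this
  linarith

end Pool.Agent.S09583
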