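import Pool.Statements.S09613
import Pool.Agent.H30.SqB

set_option autoImplicit false
open Pool Pool.MP_78b1ee_co

namespace Pool.Agent.S09613

/-- For every N there is a list of distinct rationals of length at least N with no two adjacent order-isomorphic blocks of length at least 2, such that inserting any new value at any position creates such a pair. -/
theorem result :
    ∀ N : ℕ, ∃ w : List ℚ, N ≤ w.length ∧ w.Nodup ∧
      (¬ ∃ i ℓ : ℕ, 2 ≤ ℓ ∧ i + 2 * ℓ ≤ w.length ∧
          ∀ a < ℓ, ∀ b < ℓ,
            (w.getD (i + a) 0 < w.getD (i + b) 0 ↔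
              w.getD (i + ℓ + a) 0 < w.getD (i + ℓ + b) 0)) ∧
      ∀ p : ℕ, p ≤ w.length → ∀ x : ℚ, x ∉ w →
        ∃ i ℓ : ℕ, 2 ≤ ℓ ∧ i + 2 * ℓ ≤ w.length + 1 ∧
          ∀ a < ℓ, ∀ b < ℓ,
            ((w.take p ++ x :: w.drop p).getD (i + a) 0 <
                (w.take p ++ x :: w.drop p).getD (i + b) 0 ↔
              (w.take p ++ x :: w.drop p).getD (i + ℓ + a) 0 <
                (w.take p ++ x :: w.drop p).getD (i + ℓ + b) 0) := by
  intro N
  obtain ⟨f, n, hN, hinj, hsq, hext⟩ := Pool.Agent.H30.SqA.main N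
  have hlen : ((List.range n).map f).length = n := by simp
  have hget : ∀ q, q < n → ((List.range n).map f).getD q 0 = f q := by
    intro q hq
    rw [List.getD_eq_getElem?_getD]
    simp [hq]
  refine ⟨(List.range n).map f, by omega, ?_, ?_, ?_⟩
  · refine List.Nodup.map_on ?_ List.nodup_range
    intro p hp q hq h
    exact hinj p q (List.mem_range.1 hp) (List.mem_range.1 hq) h
  · rintro ⟨i, l, h1, h2, h3⟩
    rw [hlen] at h2
    apply hsq i l h1 h2
    intro a ha b hb
    have := h3 a ha b hb
    rwa [hget _ (by omega), hget _ (by omega), hget _ (by omega), hget _ (by omega)] at this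
  · intro p hp x hx
    rw [hlen] at hp ⊢
    obtain ⟨i, l, h1, h2, h3⟩ := hext p hp x (by
      intro q hq h
      apply hx
      rw [h]
      exact List.mem_map_of_mem (List.mem_range.2 hq))
    refine ⟨i, l, h1, h2, ?_⟩
    intro a ha b hb
    rw [Pool.Agent.H30.SqA.getD_ins f n p x hp _ (by omega),
      Pool.Agent.H30.SqA.getD_ins f n p x hp _ (by omega),
      Pool.Agent.H30.SqA.getD_ins f n p x hp _ (by omega),
      Pool.Agent.H30.SqA.getD_ins f n p x hp _ (by omega)]
    exact h3 a ha b hb

end Pool.Agent.S09613
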