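import Pool.Statements.S09645
import Pool.Agent.H6.Gupta

set_option autoImplicit false
open Pool Pool.MP_7aa778_co

namespace Pool.Agent.S09645

/-- For every n ≥ 2 there is a cyclic word of length at most floor(n²/2) over n symbols such that every permutation of the n symbols is a subsequence of some rotation of the word. -/
theorem result :
    ∀ n : ℕ, 2 ≤ n →
      ∃ l : List (Fin n), l.length ≤ n ^ 2 / 2 ∧
        ∀ σ : Equiv.Perm (Fin n), ∃ k : ℕ,
          List.Sublist (List.ofFn (⇑σ)) (l.rotate k) := by
  exact Pool.Agent.H6.Gupta.main

end Pool.Agent.S09645
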