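import Pool.Statements.S09654
import Pool.Agent.H15.Pat2

set_option autoImplicit false
open Pool Pool.MP_7ad145_co

namespace Pool.Agent.S09654Aux
open Finset Pool.Agent.H15.Pat

theorem exF {n : ℕ} (H : Finset (Finset (Fin n))) (hH : ∀ e ∈ H, e.card = 2) (hc : 11 * n < H.card) :
    ∃ φ : Fin 12 → Fin n, Function.Injective φ ∧ ∀ e ∈ FF, e.image φ ∈ H := by
  classical
  have avoid : ∀ (S : Finset (Fin n)) (d : ℕ), (∀ x ∈ S, (H.filter (fun e => x ∈ e)).card ≤ d) →
      S.card * d < H.card → ∃ u v, u ∉ S ∧ v ∉ S ∧ u ≠ v ∧ ({u, v} : Finset (Fin n)) ∈ H := by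
    intro S d hd hlt
    obtain ⟨e, he, he'⟩ := exists_mem_notMem_of_card_lt_card
      (lt_of_le_of_lt (card_biUnion_le_card_mul S _ d hd) hlt)
    obtain ⟨u, v, huv, rfl⟩ := card_eq_two.1 (hH e he)
    exact ⟨u, v, fun h => he' (mem_biUnion.2 ⟨u, h, mem_filter.2 ⟨he, by simp⟩⟩),
      fun h => he' (mem_biUnion.2 ⟨v, h, mem_filter.2 ⟨he, by simp⟩⟩), huv, he⟩
  have degn : ∀ x : Fin n, (H.filter (fun e => x ∈ e)).card ≤ n := by
    intro x
    refine le_trans (card_le_card (filter_subset_filter _ (fun e he =>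
      (mem_powersetCard.2 ⟨subset_univ _, hH e he⟩ : e ∈ EE n)))) ?_
    rw [deg_EE]; omega
  obtain ⟨x, y, hx, hy, hxy, hxyH⟩ := avoid (univ.filter (fun x => (H.filter (fun e => x ∈ e)).card ≤ 11)) 11
    (fun x hx => (mem_filter.1 hx).2) (by
      have := card_le_univ (univ.filter (fun x => (H.filter (fun e => x ∈ e)).card ≤ 11))
      rw [Fintype.card_fin] at this
      omega)
  have nbr : ∀ x, x ∉ univ.filter (fun x => (H.filter (fun e => x ∈ e)).card ≤ 11) →
      ∀ S : Finset (Fin n), S.card ≤ 10 → ∃ u, u ∉ S ∧ ({x, u} : Finset (Fin n)) ∈ H := by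
    intro x hx S hS
    have hx' : 11 < (H.filter (fun e => x ∈ e)).card := by simpa using hx
    obtain ⟨e, he, he'⟩ := exists_mem_notMem_of_card_lt_card
      (s := S.image (fun u => ({x, u} : Finset (Fin n)))) (t := H.filter (fun e => x ∈ e))
      (lt_of_le_of_lt card_image_le (by omega))
    obtain ⟨he1, he2⟩ := mem_filter.1 he
    obtain ⟨u, v, huv, rfl⟩ := card_eq_two.1 (hH e he1)
    simp only [mem_insert, mem_singleton] at he2
    rcases he2 with rfl | rfl
    · exact ⟨v, fun h => he' (mem_image_of_mem _ h), he1⟩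
    · rw [pair_comm] at he1 he'
      exact ⟨u, fun h => he' (mem_image_of_mem _ h), he1⟩
  obtain ⟨φ, hφ, e0, e1, a2, a3, a4, a5, a6, a8, a10⟩ := embed
    (fun u v => ({u, v} : Finset (Fin n)) ∈ H) (fun u v => ({u, v} : Finset (Fin n)) ∈ H) x y hxy
    (nbr x hx) (nbr y hy) (fun S hS => avoid S n (fun x _ => degn x) (by nlinarith))
  subst e0 e1
  refine ⟨φ, hφ, fun e he => ?_⟩
  simp only [FF, mem_insert, mem_singleton] at he
  rcases he with rfl | rfl | rfl | rfl | rfl | rfl | rfl | rfl <;>
    (rw [image_insert, image_singleton]; assumption)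

def LH {n : ℕ} (v w : Fin n) (e : Finset (Fin n)) : Finset (Option (Fin 6)) :=
  if e ∈ (EE n).erase {v, w} then
    (if v ∈ e ∨ w ∈ e then {some 2, some 3, some 4, some 5} else {some 0, some 1}) else {none}

set_option synthInstance.maxSize 4096 in
theorem good_LH {n : ℕ} (v w : Fin n) (c : Finset (Fin n) → Option (Fin 6))
    (hc : c ∈ Fintype.piFinset (LH v w)) : Good ((EE n).erase {v, w}) c := by
  have h0 := Fintype.mem_piFinset.1 hc
  refine ⟨fun e => ?_, ?_⟩
  · have := h0 e
    unfold LH at this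
    split_ifs at this with h1 h2
    · simp only [mem_insert, mem_singleton] at this
      rcases this with h | h | h | h <;> simp [h, -mem_erase, h1]
    · simp only [mem_insert, mem_singleton] at this
      rcases this with h | h <;> simp [h, -mem_erase, h1]
    · simp only [mem_singleton] at this
      simp [this, -mem_erase, h1]
  · rintro ⟨φ, hφ, h1, h2⟩
    have key : ∀ i j : Fin 12, ({i, j} : Finset (Fin 12)) ∈ FF →
        ((φ i = v ∨ φ i = w ∨ φ j = v ∨ φ j = w) ↔
          ¬ (c (({i, j} : Finset (Fin 12)).image φ) = some 0 ∨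
            c (({i, j} : Finset (Fin 12)).image φ) = some 1)) := by
      intro i j hij
      have := h0 (({i, j} : Finset (Fin 12)).image φ)
      unfold LH at this
      rw [if_pos (h1 _ hij)] at this
      split_ifs at this with h3
      · simp only [mem_insert, mem_singleton, image_insert, image_singleton] at this h3 ⊢
        refine iff_of_true (by tauto) ?_
        rcases this with h | h | h | h <;> simp [h]
      · simp only [mem_insert, mem_singleton, image_insert, image_singleton] at this h3 ⊢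
        refine iff_of_false (by tauto) (not_not.2 this)
    have k01 := key 0 1 (by decide)
    have k02 := key 0 2 (by decide)
    have k03 := key 0 3 (by decide)
    have k14 := key 1 4 (by decide)
    have k15 := key 1 5 (by decide)
    have k67 := key 6 7 (by decide)
    have k89 := key 8 9 (by decide)
    have kab := key 10 11 (by decide)
    rw [(h2 {0,3} (by decide) {0,2} (by decide)).2 (by decide)] at k03
    rw [(h2 {1,4} (by decide) {0,2} (by decide)).2 (by decide)] at k14
    rw [(h2 {1,5} (by decide) {0,2} (by decide)).2 (by decide)] at k15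
    rw [(h2 {8,9} (by decide) {6,7} (by decide)).2 (by decide)] at k89
    rw [(h2 {10,11} (by decide) {6,7} (by decide)).2 (by decide)] at kab
    have n1 := (h2 {0,1} (by decide) {0,2} (by decide)).not.2 (by decide)
    have n2 := (h2 {0,1} (by decide) {6,7} (by decide)).not.2 (by decide)
    have n3 := (h2 {0,2} (by decide) {6,7} (by decide)).not.2 (by decide)
    have hne := (mem_erase.1 (h1 {0,1} (by decide))).1
    rw [image_insert, image_singleton] at hne
    generalize c (({0, 1} : Finset (Fin 12)).image φ) = β at *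
    generalize c (({0, 2} : Finset (Fin 12)).image φ) = α at *
    generalize c (({6, 7} : Finset (Fin 12)).image φ) = γ at *
    have inj : ∀ i j, ∀ x, φ i = x → φ j = x → i = j := fun i j x h h' => hφ (h.trans h'.symm)
    have hn1 : ¬ (φ 0 = v ∧ φ 1 = w) := by rintro ⟨rfl, rfl⟩; exact hne rfl
    have hn2 : ¬ (φ 0 = w ∧ φ 1 = v) := by rintro ⟨rfl, rfl⟩; exact hne (pair_comm _ _)
    obtain ⟨i, hi⟩ : ∃ i : Option (Fin 12), ∀ j, φ j = v ↔ i = some j := by
      by_cases h : ∃ j, φ j = v
      · obtain ⟨j, hj⟩ := h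
        exact ⟨some j, fun k => ⟨fun hk => congrArg some (inj _ _ _ hj hk),
          fun hk => (Option.some.inj hk) ▸ hj⟩⟩
      · exact ⟨none, fun k => ⟨fun hk => (h ⟨k, hk⟩).elim, fun hk => by cases hk⟩⟩
    obtain ⟨i', hi'⟩ : ∃ i : Option (Fin 12), ∀ j, φ j = w ↔ i = some j := by
      by_cases h : ∃ j, φ j = w
      · obtain ⟨j, hj⟩ := h
        exact ⟨some j, fun k => ⟨fun hk => congrArg some (inj _ _ _ hj hk),
          fun hk => (Option.some.inj hk) ▸ hj⟩⟩
      · exact ⟨none, fun k => ⟨fun hk => (h ⟨k, hk⟩).elim, fun hk => by cases hk⟩⟩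
    simp only [hi, hi'] at k01 k02 k03 k14 k15 k67 k89 kab hn1 hn2
    have hγ : γ = some 0 ∨ γ = some 1 := by
      by_contra hh
      have b1 := k67.2 hh
      have b2 := k89.2 hh
      have b3 := kab.2 hh
      clear * - b1 b2 b3
      revert i i'; decide +kernel
    have hα : ¬ (α = some 0 ∨ α = some 1) := by
      intro hh
      have hβ : ¬ (β = some 0 ∨ β = some 1) := by
        clear * - hγ hh n1 n2 n3
        revert α β γ; decide +kernel
      have a1 := k01.2 hβ
      have a2 := k02.not.2 (not_not.2 hh)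
      have a3 := k14.not.2 (not_not.2 hh)
      clear * - a1 a2 a3
      revert i i'; decide +kernel
    have a1 := k02.2 hα
    have a2 := k03.2 hα
    have a3 := k14.2 hα
    have a4 := k15.2 hα
    clear * - a1 a2 a3 a4 hn1 hn2
    revert i i'; decide +kernel

theorem card_LH {n : ℕ} (v w : Fin n) (hvw : v ≠ w) :
    2 ^ ((EE n).card + 2 * n) ≤ 32 * (Fintype.piFinset (LH v w)).card := by
  rw [Fintype.card_piFinset, ← prod_subset (subset_univ ((EE n).erase {v, w}))
    (fun e _ he => by simp [LH, -mem_erase, he])]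
  have h1 : ∀ e ∈ (EE n).erase {v, w}, (LH v w e).card =
      2 ^ (1 + (if v ∈ e then 1 else 0) + (if w ∈ e then 1 else 0)) := by
    intro e he
    unfold LH
    rw [if_pos he]
    have : ¬ (v ∈ e ∧ w ∈ e) := by
      rintro ⟨h1, h2⟩
      obtain ⟨h3, h4⟩ := mem_erase.1 he
      exact h3 (eq_of_subset_of_card_le (insert_subset h1 (singleton_subset_iff.2 h2))
        (by rw [(mem_powersetCard.1 h4).2, card_pair hvw])).symm
    by_cases hv : v ∈ e <;> by_cases hw : w ∈ e <;> simp_all
  rw [prod_congr rfl h1, prod_pow_eq_pow_sum]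
  have h2 := add_sum_erase (EE n) (fun e => 1 + (if v ∈ e then 1 else 0) + (if w ∈ e then 1 else 0))
    (pair_mem hvw)
  simp only [sum_add_distrib, ← card_filter, deg_EE, sum_const, smul_eq_mul, mul_one, mem_insert,
    mem_singleton, true_or, or_true, if_true] at h2 ⊢
  rw [show (32 : ℕ) = 2 ^ 5 from rfl, ← pow_add]
  refine Nat.pow_le_pow_right (by norm_num) ?_
  have := v.2
  omega

end Pool.Agent.S09654Aux

namespace Pool.Agent.S09654

/-- The negation of the preceding statement: Fix r,k≥2, a linear k-graph F with ex(n,F)=o(n^k), and a pattern of F with t≥3 classes. For large n, no n-vertex k-graph has more r-edge-colourings avoiding F in that pattern than the complete k-graph, with equality only for it. -/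
theorem result :
    ¬ (∀ (r k m t : ℕ), 2 ≤ r → 2 ≤ k → 3 ≤ t →
  ∀ (F : Finset (Finset (Fin m))),
    (∀ e ∈ F, e.card = k) →
    (∀ e ∈ F, ∀ e' ∈ F, e ≠ e' → (e ∩ e').card ≤ 1) →
    (∀ ε : ℝ, 0 < ε → ∃ N : ℕ, ∀ n : ℕ, N ≤ n → ∀ H : Finset (Finset (Fin n)),
       (∀ e ∈ H, e.card = k) →
       (¬ ∃ φ : Fin m → Fin n, Function.Injective φ ∧ ∀ e ∈ F, e.image φ ∈ H) →
       (H.card : ℝ) ≤ ε * (n : ℝ) ^ k) →
    ∀ (p : Finset (Fin m) → Fin t), (∀ i : Fin t, ∃ e ∈ F, p e = i) →
    ∃ n₀ : ℕ, ∀ n : ℕ, n₀ ≤ n →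
      ∀ C : Finset (Finset (Fin n)) → ℕ,
        (∀ H : Finset (Finset (Fin n)),
          C H = Nat.card {c : Finset (Fin n) → Option (Fin r) //
            (∀ e : Finset (Fin n), c e = none ↔ e ∉ H) ∧
            ¬ ∃ φ : Fin m → Fin n, Function.Injective φ ∧
                (∀ e ∈ F, e.image φ ∈ H) ∧
                (∀ e ∈ F, ∀ e' ∈ F,
                  (c (e.image φ) = c (e'.image φ) ↔ p e = p e'))}) →
        ∀ H : Finset (Finset (Fin n)), (∀ e ∈ H, e.card = k) →
          C H ≤ C (Finset.powersetCard k (Finset.univ : Finset (Fin n))) ∧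
          (C H = C (Finset.powersetCard k (Finset.univ : Finset (Fin n))) ↔
            H = Finset.powersetCard k (Finset.univ : Finset (Fin n)))) := by
  classical
  intro h
  obtain ⟨n₀, hn₀⟩ := h 6 2 12 3 (by norm_num) le_rfl le_rfl H15.Pat.FF H15.Pat.FF_card (by
      intro e he e' he'
      simp only [H15.Pat.FF, Finset.mem_insert, Finset.mem_singleton] at he he'
      rcases he with rfl | rfl | rfl | rfl | rfl | rfl | rfl | rfl <;>
        rcases he' with rfl | rfl | rfl | rfl | rfl | rfl | rfl | rfl <;> decide) (by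
      intro ε hε
      obtain ⟨N, hN⟩ := exists_nat_gt (11 / ε)
      refine ⟨N, fun n hn H hH hF => ?_⟩
      have h1 : H.card ≤ 11 * n := by
        by_contra hc
        exact hF (S09654Aux.exF H hH (by omega))
      have h2 : (H.card : ℝ) ≤ 11 * n := by exact_mod_cast h1
      have h3 : (N : ℝ) ≤ n := by exact_mod_cast hn
      rw [div_lt_iff₀ hε] at hN
      have h4 : (0 : ℝ) ≤ n := by positivity
      have h5 : 11 ≤ ε * n := by nlinarith
      nlinarith) H15.Pat.pp (by
      intro i
      fin_cases i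
      · exact ⟨{0, 2}, by decide, by decide⟩
      · exact ⟨{0, 1}, by decide, by decide⟩
      · exact ⟨{6, 7}, by decide, by decide⟩)
  obtain ⟨A, d, hA, hup⟩ := H15.Pat.upper
  have ht := tendsto_pow_const_div_const_pow_of_one_lt d (r := 2) (by norm_num)
  obtain ⟨n, hn1, hn2, hn3⟩ := ((ht.eventually (gt_mem_nhds (show (0 : ℝ) < 1 / (32 * A) by positivity))).and
    ((Filter.eventually_ge_atTop n₀).and (Filter.eventually_ge_atTop 400))).exists
  let v : Fin n := ⟨0, by omega⟩
  let w : Fin n := ⟨1, by omega⟩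
  have hvw : v ≠ w := by simp [v, w]
  have h1 := (hn₀ n hn2 (fun H => Nat.card {c // H15.Pat.Good H c}) (fun H => rfl)
    ((H15.Pat.EE n).erase {v, w})
    (fun e he => (Finset.mem_powersetCard.1 (Finset.mem_erase.1 he).2).2)).1
  simp only [Nat.card_eq_fintype_card, Fintype.card_subtype] at h1
  have h2 : (Fintype.piFinset (S09654Aux.LH v w)).card ≤
      (Finset.univ.filter (fun c => H15.Pat.Good ((H15.Pat.EE n).erase {v, w}) c)).card :=
    Finset.card_le_card (fun c hc => Finset.mem_filter.2 ⟨Finset.mem_univ _, S09654Aux.good_LH v w c hc⟩)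
  have h3 := (S09654Aux.card_LH v w hvw).trans (Nat.mul_le_mul_left 32 (h2.trans h1))
  have h4 := hup n hn3
  have h5 : (2 : ℝ) ^ ((H15.Pat.EE n).card + 2 * n) ≤
      32 * (A * (n : ℝ) ^ d * 2 ^ ((H15.Pat.EE n).card + n)) := by
    refine le_trans ?_ (mul_le_mul_of_nonneg_left h4 (by norm_num))
    exact_mod_cast h3
  rw [div_lt_div_iff₀ (by positivity) (by positivity)] at hn1
  rw [two_mul, ← add_assoc, pow_add] at h5
  have h6 : (0 : ℝ) < 2 ^ ((H15.Pat.EE n).card + n) := by positivity
  nlinarith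

end Pool.Agent.S09654
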