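import Pool.Statements.S09671
import Pool.Agent.H14.Lacun

set_option autoImplicit false
open Pool Pool.MP_7c2ef8_co

namespace Pool.Agent.S09671

/-- For every set K of positive integers with all ratios b/a (a<b in K) above some fixed 1+δ, some finite number of colors colors ℤ so that no progression with difference in K contains two adjacent identical blocks. -/
theorem result :
    ∀ K : Set ℕ, (∀ k ∈ K, 0 < k) →
      (∃ δ : ℝ, 0 < δ ∧ ∀ a ∈ K, ∀ b ∈ K, a < b → (1 + δ) * (a : ℝ) < (b : ℝ)) →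
      ∃ N : ℕ, ∃ c : ℤ → Fin N,
        ∀ k ∈ K, ∀ a : ℤ, ∀ n : ℕ, 0 < n →
          ∃ i : ℕ, i < n ∧
            c (a + (i : ℤ) * (k : ℤ)) ≠ c (a + ((n : ℤ) + (i : ℤ)) * (k : ℤ)) := by
  open Pool.Agent.H14.Lacun in
  rintro K hK0 ⟨ε, hε, hK⟩
  obtain ⟨D1, α1, hD1, h1⟩ := exists_alpha K hK0 ε hε hK
  obtain ⟨D2, α2, hD2, h2⟩ := exists_alpha {m | ∃ k ∈ K, m = k ^ 4}
    (by rintro _ ⟨k, hk, rfl⟩; exact pow_pos (hK0 k hk) 4) ε hε (by
      rintro _ ⟨a, ha, rfl⟩ _ ⟨b, hb, rfl⟩ hab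
      have hab' : a < b := lt_of_pow_lt_pow_left₀ 4 (Nat.zero_le _) hab
      have h3 := hK a ha b hb hab'
      have ha0 : (0 : ℝ) < a := by exact_mod_cast hK0 a ha
      have h4 : (a : ℝ) ^ 3 ≤ (b : ℝ) ^ 3 :=
        pow_le_pow_left₀ ha0.le (by exact_mod_cast hab'.le) 3
      have h5 : (0 : ℝ) < (a : ℝ) ^ 3 := by positivity
      have hb0 : (0 : ℝ) < b := by exact_mod_cast hK0 b hb
      push_cast
      calc (1 + ε) * (a : ℝ) ^ 4 = ((1 + ε) * a) * (a : ℝ) ^ 3 := by ring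
        _ < b * (a : ℝ) ^ 3 := mul_lt_mul_of_pos_right h3 h5
        _ ≤ b * (b : ℝ) ^ 3 := mul_le_mul_of_nonneg_left h4 hb0.le
        _ = _ := by ring)
  obtain ⟨L, hL⟩ : ∃ L : ℕ, L = 1728 * D1 * D2 := ⟨_, rfl⟩
  obtain ⟨c, hc⟩ := coarse L (by rw [hL]; positivity)
  refine ⟨L * L, fun x => finProdFinEquiv (c (α1 * x), c (α2 / 24 * (x : ℝ) ^ 4)), ?_⟩
  intro k hk a n hn
  by_contra hcon
  push Not at hcon
  have hD1' : (1 : ℝ) ≤ D1 := by exact_mod_cast hD1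
  have hD2' : (1 : ℝ) ≤ D2 := by exact_mod_cast hD2
  have hLr : (L : ℝ) = 1728 * D1 * D2 := by rw [hL]; push_cast; ring
  have hn' : (1 : ℝ) ≤ n := by exact_mod_cast hn
  have hcon' := fun i hi => Prod.mk.inj (finProdFinEquiv.injective (hcon i hi))
  by_cases h3 : n ≤ 3
  · obtain ⟨z, hz⟩ := hc _ _ (hcon' 0 hn).1.symm
    have h4 := h1 k hk n hn z
    have e : α1 * ((a + ((n : ℤ) + ((0 : ℕ) : ℤ)) * (k : ℤ) : ℤ) : ℝ) -
        α1 * ((a + ((0 : ℕ) : ℤ) * (k : ℤ) : ℤ) : ℝ) - z = n * k * α1 - z := by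
      push_cast; ring
    rw [e] at hz
    have h5 := h4.trans_lt hz
    rw [div_lt_div_iff₀ (by positivity) (by rw [hLr]; positivity), hLr] at h5
    have h6 : (n : ℝ) ^ 3 ≤ 3 ^ 3 := pow_le_pow_left₀ (by positivity) (by exact_mod_cast h3) 3
    nlinarith
  · have hLpos : (0 : ℝ) < L := by rw [hLr]; positivity
    obtain ⟨z, hz⟩ := cube_small (n * (k ^ 4 : ℕ) * α2) (1 / L) (by
        rw [mul_one_div, div_le_one hLpos, hLr]; nlinarith) ((n - 1) / 3) (by omega) (by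
      intro i hi1 hi2
      have hg : ∀ i : ℕ, i < n → ∃ z : ℤ, |α2 / 24 * ((a : ℝ) + (n + i) * k) ^ 4 -
          α2 / 24 * ((a : ℝ) + i * k) ^ 4 - z| < 1 / (L : ℝ) := by
        intro i hi
        obtain ⟨z, hz⟩ := hc _ _ (hcon' i hi).2.symm
        push_cast at hz
        exact ⟨z, hz⟩
      obtain ⟨z0, hz0⟩ := hg 0 hn
      obtain ⟨z1, hz1⟩ := hg i (by omega)
      obtain ⟨z2, hz2⟩ := hg (2 * i) (by omega)
      obtain ⟨z3, hz3⟩ := hg (3 * i) (by omega)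
      refine ⟨z3 - 3 * z2 + 3 * z1 - z0, ?_⟩
      rw [abs_lt] at hz0 hz1 hz2 hz3 ⊢
      push_cast at hz0 hz1 hz2 hz3 ⊢
      have e : (i : ℝ) ^ 3 * (n * (k : ℝ) ^ 4 * α2) =
          (α2 / 24 * ((a : ℝ) + (n + 3 * i) * k) ^ 4 - α2 / 24 * ((a : ℝ) + 3 * i * k) ^ 4) -
          3 * (α2 / 24 * ((a : ℝ) + (n + 2 * i) * k) ^ 4 - α2 / 24 * ((a : ℝ) + 2 * i * k) ^ 4) +
          3 * (α2 / 24 * ((a : ℝ) + (n + i) * k) ^ 4 - α2 / 24 * ((a : ℝ) + i * k) ^ 4) -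
          (α2 / 24 * ((a : ℝ) + (n + 0) * k) ^ 4 - α2 / 24 * ((a : ℝ) + 0 * k) ^ 4) := by ring
      rw [e]
      constructor <;> linarith [hz0.1, hz0.2, hz1.1, hz1.2, hz2.1, hz2.2, hz3.1, hz3.2])
    have h4 := h2 (k ^ 4) ⟨k, hk, rfl⟩ n hn z
    set H := (n - 1) / 3 with hH
    have h5 : (n : ℝ) ≤ 6 * H := by exact_mod_cast (by omega : n ≤ 6 * H)
    have h6 : (n : ℝ) ^ 3 ≤ (6 * H) ^ 3 := pow_le_pow_left₀ (by positivity) h5 3
    set τ := |(n : ℝ) * (k ^ 4 : ℕ) * α2 - z|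
    have h7 : 0 ≤ τ := abs_nonneg _
    rw [div_le_iff₀ (by positivity)] at h4
    rw [mul_one_div, lt_div_iff₀ hLpos, hLr] at hz
    have h8 : τ * (D2 * (n : ℝ) ^ 3) ≤ τ * (D2 * (6 * H) ^ 3) :=
      mul_le_mul_of_nonneg_left (mul_le_mul_of_nonneg_left h6 (by positivity)) h7
    have h9 : 0 ≤ (H : ℝ) ^ 3 * τ * D2 := by positivity
    nlinarith

end Pool.Agent.S09671
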