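import Pool.Statements.S09674
import Pool.Agent.H15.TreeDec

set_option autoImplicit false
open Pool Pool.MP_7c3aa9_co

namespace Pool.Agent.S09674

open Pool.Agent.H15.TreeDec

/-- One direction of the adjacency: triangle 0,1,2; hub 3 joined to 0,1 and to leaves 5..14;
hub 4 joined to 2 and to leaves 15..24. -/
def rel (u v : Fin 25) : Bool :=
  (u.val < v.val && v.val ≤ 2) || (u.val ≤ 1 && v.val == 3) || (u.val == 2 && v.val == 4) ||
  (u.val == 3 && 5 ≤ v.val && v.val ≤ 14) || (u.val == 4 && 15 ≤ v.val)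

def G0 : SimpleGraph (Fin 25) where
  Adj u v := (rel u v || rel v u) = true
  symm := ⟨fun u v h => by rw [Bool.or_comm]; exact h⟩
  loopless := ⟨by decide +kernel⟩

instance : DecidableRel G0.Adj := fun u v => inferInstanceAs (Decidable ((rel u v || rel v u) = true))

def bag (i : Fin 23) : Finset (Fin 25) :=
  if h : i.val < 10 then {3, ⟨5 + i.val, by omega⟩}
  else if i.val = 10 then {3, 0, 1}
  else if i.val = 11 then {0, 1, 2}
  else if i.val = 12 then {2, 4}
  else {4, ⟨i.val + 2, by have := i.2; omega⟩}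

def lo (v : Fin 25) : ℕ :=
  if v.val ≤ 1 then 10 else if v.val = 2 then 11 else if v.val = 3 then 0 else if v.val = 4 then 12
  else if v.val ≤ 14 then v.val - 5 else v.val - 2

def hi (v : Fin 25) : ℕ :=
  if v.val ≤ 1 then 11 else if v.val = 2 then 12 else if v.val = 3 then 10 else if v.val = 4 then 22
  else if v.val ≤ 14 then v.val - 5 else v.val - 2

theorem bag_iff : ∀ v : Fin 25, ∀ i : Fin 23, v ∈ bag i ↔ lo v ≤ i.val ∧ i.val ≤ hi v := by
  decide +kernel
theorem lo_hi : ∀ v : Fin 25, lo v ≤ hi v ∧ hi v < 23 := by decide +kernel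
theorem bag_card : ∀ i, (bag i).card ≤ 3 := by decide +kernel
theorem bag_cov : ∀ v, ∃ i, v ∈ bag i := by decide +kernel
theorem bag_edge : ∀ u v, G0.Adj u v → ∃ i, u ∈ bag i ∧ v ∈ bag i := by decide +kernel
theorem tri_edges : ∀ u v : Fin 25, G0.Adj u v → u ≠ 3 → u ≠ 4 → v ≠ 3 → v ≠ 4 →
    s(u, v) = s(0, 1) ∨ s(u, v) = s(0, 2) ∨ s(u, v) = s(1, 2) := by decide +kernel

def l4 (i : Fin 10) : Fin 25 := ⟨15 + i.val, by have := i.2; omega⟩
def l3 (i : Fin 10) : Fin 25 := ⟨5 + i.val, by have := i.2; omega⟩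
theorem l4_adj : ∀ i, G0.Adj 4 (l4 i) := by decide +kernel
theorem l3_adj : ∀ i, G0.Adj 3 (l3 i) := by decide +kernel
theorem l4_inj : Function.Injective l4 := by decide +kernel
theorem l3_inj : Function.Injective l3 := by decide +kernel

def ty (m : ℕ) {n : ℕ} (v : Fin n) : ℕ := if v.val < 9 then 0 else if v.val < 9 + m then 1 else 2

def HH (m : ℕ) : Finset (Finset (Fin (2 * m + 9))) :=
  (Finset.powersetCard 3 Finset.univ).filter
    (fun e => (∃ a ∈ e, ty m a = 0) ∧ (∃ a ∈ e, ty m a = 1) ∧ (∃ a ∈ e, ty m a = 2))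

theorem HH_card (m : ℕ) : 9 * (m * m) ≤ (HH m).card := by
  classical
  let f : Fin 9 × Fin m × Fin m → Finset (Fin (2 * m + 9)) := fun p =>
    {⟨p.1.val, by have := p.1.2; omega⟩, ⟨9 + p.2.1.val, by have := p.2.1.2; omega⟩,
      ⟨9 + m + p.2.2.val, by have := p.2.2.2; omega⟩}
  have hinj : Function.Injective f := by
    rintro ⟨a, b, c⟩ ⟨a', b', c'⟩ h
    have h1 : (⟨a.val, by have := a.2; omega⟩ : Fin (2 * m + 9)) ∈ f (a', b', c') := by
      rw [← h]; simp [f]
    have h2 : (⟨9 + b.val, by have := b.2; omega⟩ : Fin (2 * m + 9)) ∈ f (a', b', c') := by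
      rw [← h]; simp [f]
    have h3 : (⟨9 + m + c.val, by have := c.2; omega⟩ : Fin (2 * m + 9)) ∈ f (a', b', c') := by
      rw [← h]; simp [f]
    simp only [f, Finset.mem_insert, Finset.mem_singleton, Fin.mk.injEq] at h1 h2 h3
    have := a.2; have := a'.2; have := b.2; have := b'.2
    ext <;> simp <;> omega
  have : (Finset.univ.image f) ⊆ HH m := by
    intro e he
    obtain ⟨⟨a, b, c⟩, -, rfl⟩ := Finset.mem_image.1 he
    have := a.2; have := b.2; have := c.2
    refine Finset.mem_filter.2 ⟨Finset.mem_powersetCard.2 ⟨Finset.subset_univ _, ?_⟩, ?_, ?_, ?_⟩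
    · rw [Finset.card_eq_three]
      refine ⟨_, _, _, ?_, ?_, ?_, rfl⟩ <;> simp only [ne_eq, Fin.mk.injEq] <;> omega
    · exact ⟨⟨a.val, by omega⟩, by simp [f], by simp [ty]⟩
    · exact ⟨⟨9 + b.val, by omega⟩, by simp [f], by simp [ty]⟩
    · refine ⟨⟨9 + m + c.val, by omega⟩, by simp [f], ?_⟩
      simp only [ty]
      rw [if_neg (by omega), if_neg (by omega)]
  have h3 := Finset.card_le_card this
  rw [Finset.card_image_of_injective _ hinj] at h3
  simpa using h3

theorem HH_free (m : ℕ) : ¬ (∃ (φ : Fin 25 → Fin (2 * m + 9)) (w : Fin 25 → Fin 25 → Fin (2 * m + 9)),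
              Function.Injective φ ∧
              (∀ u v, G0.Adj u v →
                (∀ x, w u v ≠ φ x) ∧ ({φ u, φ v, w u v} : Finset (Fin (2 * m + 9))) ∈ HH m) ∧
              (∀ u v u' v', G0.Adj u v → G0.Adj u' v' → w u v = w u' v' →
                (u = u' ∧ v = v') ∨ (u = v' ∧ v = u'))) := by
  rintro ⟨φ, w, hφ, h1, h2⟩
  have hty : ∀ u v, G0.Adj u v → ty m (φ u) ≠ ty m (φ v) ∧
      (ty m (φ u) = 0 ∨ ty m (φ v) = 0 ∨ ty m (w u v) = 0) := by
    intro u v huv
    have := (Finset.mem_filter.1 (h1 u v huv).2).2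
    simp only [Finset.mem_insert, Finset.mem_singleton, exists_eq_or_imp, exists_eq_left] at this
    omega
  have hle : ∀ v : Fin (2 * m + 9), ty m v ≤ 2 := by
    intro v; unfold ty; split_ifs <;> omega
  have hlt : ∀ v : Fin (2 * m + 9), ty m v = 0 → v.val < 9 := by
    intro v hv; unfold ty at hv; split_ifs at hv <;> omega
  have main : ∀ (h : Fin 25) (l : Fin 10 → Fin 25), Function.Injective l → (∀ i, G0.Adj h (l i)) →
      ty m (φ h) ≠ 0 → False := by
    intro h l hl hadj hh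
    let s : Fin 10 → Fin (2 * m + 9) := fun i => if ty m (φ (l i)) = 0 then φ (l i) else w h (l i)
    have hs0 : ∀ i, ty m (s i) = 0 := by
      intro i
      have := (hty h (l i) (hadj i)).2
      simp only [s]
      split_ifs with hc
      · exact hc
      · tauto
    have hsinj : Function.Injective s := by
      intro i j hij
      simp only [s] at hij
      split_ifs at hij with c1 c2 c2
      · exact hl (hφ hij)
      · exact absurd hij.symm ((h1 h (l j) (hadj j)).1 _)
      · exact absurd hij ((h1 h (l i) (hadj i)).1 _)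
      · rcases h2 _ _ _ _ (hadj i) (hadj j) hij with ⟨-, h3⟩ | ⟨h3, -⟩
        · exact hl h3
        · exact absurd h3 (hadj j).ne
    let s' : Fin 10 → Fin 9 := fun i => ⟨(s i).val, hlt _ (hs0 i)⟩
    have hs' : Function.Injective s' := by
      intro i j hij
      apply hsinj
      simp only [s', Fin.mk.injEq] at hij
      exact Fin.ext hij
    have := Fintype.card_le_of_injective s' hs'
    simp at this
  have a01 := (hty 0 1 (by decide)).1
  have a02 := (hty 0 2 (by decide)).1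
  have a12 := (hty 1 2 (by decide)).1
  have a03 := (hty 0 3 (by decide)).1
  have a13 := (hty 1 3 (by decide)).1
  have a24 := (hty 2 4 (by decide)).1
  have b0 := hle (φ 0)
  have b1 := hle (φ 1)
  have b2 := hle (φ 2)
  by_cases c3 : ty m (φ 3) = 0
  · exact main 4 l4 l4_inj l4_adj (by omega)
  · by_cases c2 : ty m (φ 2) = 0
    · exact main 4 l4 l4_inj l4_adj (by omega)
    · exact main 3 l3 l3_inj l3_adj c3

theorem result :
    ¬ (∀ (k : ℕ) (G : SimpleGraph (Fin k)),
    (∃ (m : ℕ) (T : SimpleGraph (Fin m)) (B : Fin m → Finset (Fin k)),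
      T.IsTree ∧ (∀ i, (B i).card ≤ 3) ∧ (∀ v, ∃ i, v ∈ B i) ∧
      (∀ u v, G.Adj u v → ∃ i, u ∈ B i ∧ v ∈ B i) ∧
      (∀ v, (T.induce {i | v ∈ B i}).Connected)) →
    ¬ (∃ (m : ℕ) (T : SimpleGraph (Fin m)) (B : Fin m → Finset (Fin k)),
      T.IsTree ∧ (∀ i, (B i).card ≤ 2) ∧ (∀ v, ∃ i, v ∈ B i) ∧
      (∀ u v, G.Adj u v → ∃ i, u ∈ B i ∧ v ∈ B i) ∧
      (∀ v, (T.induce {i | v ∈ B i}).Connected)) →
    Asymptotics.IsEquivalent Filter.atTop
      (fun n : ℕ => ((sSup {c : ℕ | ∃ H : Finset (Finset (Fin n)),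
          (∀ h ∈ H, h.card = 3) ∧
          ¬ (∃ (φ : Fin k → Fin n) (w : Fin k → Fin k → Fin n),
              Function.Injective φ ∧
              (∀ u v, G.Adj u v →
                (∀ x, w u v ≠ φ x) ∧ ({φ u, φ v, w u v} : Finset (Fin n)) ∈ H) ∧
              (∀ u v u' v', G.Adj u v → G.Adj u' v' → w u v = w u' v' →
                (u = u' ∧ v = v') ∨ (u = v' ∧ v = u'))) ∧
          H.card = c} : ℕ) : ℝ))
      (fun n : ℕ => (((sInf {c : ℕ | ∃ S : Finset (Fin k),
          (∀ u ∈ S, ∀ v ∈ S, ¬ G.Adj u v) ∧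
          c = S.card + {e ∈ G.edgeSet | ∀ v ∈ e, v ∉ S}.ncard} : ℕ) : ℝ) - 1)
        * ((n.choose 2 : ℕ) : ℝ))) := by
  classical
  intro hall
  have heq := hall 25 G0 ⟨23, SimpleGraph.pathGraph 23, bag, path_isTree 22, bag_card, bag_cov, bag_edge,
    fun v => path_interval_connected _ (lo v) (hi v) (lo_hi v).1 (lo_hi v).2 (fun i => bag_iff v i)⟩
    (by
      rintro ⟨m, T, B, hT, hc, -, he, hcon⟩
      obtain ⟨p, hp⟩ := he 0 1 (by decide)
      obtain ⟨q, hq⟩ := he 0 2 (by decide)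
      obtain ⟨r, hr⟩ := he 1 2 (by decide)
      obtain ⟨z, z0, z1, z2⟩ := helly3 T hT.isAcyclic _ _ _ (hcon 0) (hcon 1) (hcon 2) p q r hp hq hr
      have hsub : ({0, 1, 2} : Finset (Fin 25)) ⊆ B z := by
        intro x hx
        simp only [Finset.mem_insert, Finset.mem_singleton] at hx
        rcases hx with rfl | rfl | rfl
        · exact z0
        · exact z1
        · exact z2
      have h3 := Finset.card_le_card hsub
      have h4 : ({0, 1, 2} : Finset (Fin 25)).card = 3 := by decide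
      have := hc z
      omega)
  set σ : ℕ := sInf {c : ℕ | ∃ S : Finset (Fin 25),
          (∀ u ∈ S, ∀ v ∈ S, ¬ G0.Adj u v) ∧
          c = S.card + {e ∈ G0.edgeSet | ∀ v ∈ e, v ∉ S}.ncard} with hσ
  have hσ5 : σ ≤ 5 := by
    have h1 : σ ≤ ({3, 4} : Finset (Fin 25)).card +
        {e ∈ G0.edgeSet | ∀ v ∈ e, v ∉ ({3, 4} : Finset (Fin 25))}.ncard :=
      Nat.sInf_le ⟨{3, 4}, by decide, rfl⟩
    have h2 : ({3, 4} : Finset (Fin 25)).card = 2 := by decide
    have h3 : {e ∈ G0.edgeSet | ∀ v ∈ e, v ∉ ({3, 4} : Finset (Fin 25))} ⊆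
        {s(0, 1), s(0, 2), s(1, 2)} := by
      intro e he
      induction e using Sym2.ind with
      | _ u v =>
        obtain ⟨h4, h5⟩ := he
        have hu := h5 u (by simp)
        have hv := h5 v (by simp)
        simp only [Finset.mem_insert, Finset.mem_singleton, not_or] at hu hv
        exact tri_edges u v h4 hu.1 hu.2 hv.1 hv.2
    have h4 := Set.ncard_le_ncard h3 (Set.toFinite _)
    have h5 := Set.ncard_insert_le (s(0, 1) : Sym2 (Fin 25)) {s(0, 2), s(1, 2)}
    have h6 := Set.ncard_insert_le (s(0, 2) : Sym2 (Fin 25)) {s(1, 2)}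
    rw [Set.ncard_singleton] at h6
    omega
  have hb := heq.isLittleO.def (c := 1 / 20) (by norm_num)
  rw [Filter.eventually_atTop] at hb
  obtain ⟨N, hN⟩ := hb
  obtain ⟨m, hm⟩ : ∃ m, m = N + 200 := ⟨_, rfl⟩
  have h1 := hN (2 * m + 9) (by omega)
  simp only [Pi.sub_apply, Real.norm_eq_abs] at h1
  have hlow : 9 * (m * m) ≤ sSup {c : ℕ | ∃ H : Finset (Finset (Fin (2 * m + 9))),
          (∀ h ∈ H, h.card = 3) ∧
          ¬ (∃ (φ : Fin 25 → Fin (2 * m + 9)) (w : Fin 25 → Fin 25 → Fin (2 * m + 9)),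
              Function.Injective φ ∧
              (∀ u v, G0.Adj u v →
                (∀ x, w u v ≠ φ x) ∧ ({φ u, φ v, w u v} : Finset (Fin (2 * m + 9))) ∈ H) ∧
              (∀ u v u' v', G0.Adj u v → G0.Adj u' v' → w u v = w u' v' →
                (u = u' ∧ v = v') ∨ (u = v' ∧ v = u'))) ∧
          H.card = c} := by
    refine (HH_card m).trans (le_csSup ⟨Fintype.card (Finset (Fin (2 * m + 9))), ?_⟩ ?_)
    · rintro c ⟨H, -, -, rfl⟩
      exact Finset.card_le_univ H
    · exact ⟨HH m, fun e he => (Finset.mem_powersetCard.1 (Finset.mem_filter.1 he).1).2,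
        HH_free m, rfl⟩
  generalize sSup (α := ℕ) _ = X at h1 hlow
  have hX : 9 * ((m : ℝ) * m) ≤ X := by exact_mod_cast hlow
  have hC : (((2 * m + 9).choose 2 : ℕ) : ℝ) ≤ (2 * m + 9 : ℝ) ^ 2 / 2 := by
    have := Nat.choose_le_pow_div (α := ℝ) 2 (2 * m + 9)
    simpa using this
  have hC0 : (0 : ℝ) ≤ (((2 * m + 9).choose 2 : ℕ) : ℝ) := by positivity
  generalize (((2 * m + 9).choose 2 : ℕ) : ℝ) = C at h1 hC hC0
  have hs5 : (σ : ℝ) ≤ 5 := by exact_mod_cast hσ5
  have hs0 : (0 : ℝ) ≤ σ := by positivity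
  have hg : |((σ : ℝ) - 1) * C| ≤ 4 * C := by
    rw [abs_mul, abs_of_nonneg hC0]
    apply mul_le_mul_of_nonneg_right _ hC0
    rw [abs_le]; constructor <;> linarith
  have h2 := le_abs_self ((X : ℝ) - ((σ : ℝ) - 1) * C)
  have h3 := le_abs_self (((σ : ℝ) - 1) * C)
  have hm' : (200 : ℝ) ≤ m := by
    have : 200 ≤ m := by omega
    exact_mod_cast this
  nlinarith

end Pool.Agent.S09674
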