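import Pool.Statements.S09686
import Pool.Agent.H7.Isc1
import Pool.Agent.H28.VecMat

set_option autoImplicit false
open Pool Pool.MP_7c85f7_co

namespace Pool.Agent.S09686

/-- The negation of the preceding statement: There is a number t such that every finite nonempty binary matroid in which any two elements share a circuit and every cocircuit has at least t elements has a circuit D whose deletion leaves a matroid where any two elements share a circuit. -/
theorem result :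
    ¬ (∃ t : ℕ, ∀ (α : Type) (M : Matroid α),
      M.E.Finite → M.E.Nonempty →
      (∃ (n : ℕ) (v : α → (Fin n → ZMod 2)),
        ∀ I : Set α, M.Indep I ↔ (I ⊆ M.E ∧ LinearIndepOn (ZMod 2) v I)) →
      (∀ e ∈ M.E, ∀ f ∈ M.E, e ≠ f → ∃ C : Set α, M.IsCircuit C ∧ e ∈ C ∧ f ∈ C) →
      (∀ K : Set α, M.IsCocircuit K → t ≤ K.ncard) →
      ∃ D : Set α, M.IsCircuit D ∧
        ∀ e ∈ (M.restrict (M.E \ D)).E, ∀ f ∈ (M.restrict (M.E \ D)).E, e ≠ f →
          ∃ C : Set α, (M.restrict (M.E \ D)).IsCircuit C ∧ e ∈ C ∧ f ∈ C) := by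
  classical
  rintro ⟨t, H⟩
  obtain ⟨k, n, x, hk, hA, hB⟩ := H7.Isc.exists_code (t + 2)
  obtain ⟨m, v, hv⟩ := H7.Isc.exists_rep x
  let M : Matroid (Fin n) := H28.VecMat.vec (ZMod 2) v
  have hE : M.E = Set.univ := rfl
  have hI : ∀ I, M.Indep I ↔ ∀ φ : H7.Isc.W k, (∀ i, i ∉ I → φ ⬝ᵥ x i = 0) → φ = 0 := by
    intro I
    rw [H28.VecMat.vec_indep, hv]
    refine forall_congr' fun φ => imp_congr_right fun _ => ⟨fun h => ?_, fun h i => by simp [h]⟩
    by_contra h0
    obtain ⟨i, hi, -⟩ := hB φ φ h0 h0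
    rw [h i] at hi
    exact zero_ne_one hi
  have circ : ∀ φ : H7.Isc.W k, φ ≠ 0 → M.IsCircuit {i | φ ⬝ᵥ x i = 1} := by
    intro φ h0
    rw [Matroid.isCircuit_iff_forall_ssubset]
    refine ⟨⟨fun h => h0 ((hI _).1 h φ fun i hi => (H7.Isc.z2 _).resolve_right hi), by simp [hE]⟩,
      fun J hJ => (hI J).2 fun ψ hψ => ?_⟩
    by_contra h1
    by_cases e : ψ = φ
    · obtain ⟨i, hi, hi'⟩ := Set.exists_of_ssubset hJ
      have := hψ i hi'
      rw [e, show φ ⬝ᵥ x i = 1 from hi] at this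
      exact one_ne_zero this
    · obtain ⟨i, h3, h4⟩ := hB ψ (ψ - φ) h1 (sub_ne_zero.2 e)
      have hiJ : i ∈ J := by
        by_contra hn
        rw [hψ i hn] at h3
        exact zero_ne_one h3
      rw [sub_dotProduct, h3, show φ ⬝ᵥ x i = 1 from hJ.subset hiJ] at h4
      simp at h4
  have circ' : ∀ C, M.IsCircuit C → ∃ φ : H7.Isc.W k, φ ≠ 0 ∧ C = {i | φ ⬝ᵥ x i = 1} := by
    intro C hC
    have := hC.not_indep
    rw [hI] at this
    push Not at this
    obtain ⟨φ, h1, h2⟩ := this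
    refine ⟨φ, h2, (hC.eq_of_dep_subset (circ φ h2).dep fun i hi => ?_).symm⟩
    by_contra hn
    have := h1 i hn
    rw [show φ ⬝ᵥ x i = 1 from hi] at this
    exact one_ne_zero this
  obtain ⟨i0, -⟩ := H7.Isc.two_out hk hB 0
  obtain ⟨D, hD, hD'⟩ := H (Fin n) M (Set.toFinite _) ⟨i0, by simp [hE]⟩
    ⟨m, v, fun I => by simp [M]⟩
    (by
      intro e _ f _ _
      have he : x e ≠ 0 := by simpa using hA {e} (by simp) (by simp)
      have hf : x f ≠ 0 := by simpa using hA {f} (by simp) (by simp)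
      obtain ⟨φ, h1, h2⟩ := H7.Isc.exists_both he hf
      rw [dotProduct_comm] at h1 h2
      refine ⟨_, circ φ ?_, h1, h2⟩
      rintro rfl
      simp at h1)
    (by
      intro K hK
      by_contra hlt
      obtain ⟨e, he⟩ := hK.nonempty
      obtain ⟨φ, h1, h2⟩ := H7.Isc.exists_sep hA K.toFinset
        (by rw [← Set.ncard_eq_toFinset_card']; omega) (Set.mem_toFinset.2 he)
      have h0 : φ ≠ 0 := by
        rintro rfl
        simp at h1
      refine (circ φ h0).inter_isCocircuit_ne_singleton hK (e := e) ?_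
      ext i
      refine ⟨fun hi => ?_, fun hi => by rw [hi]; exact ⟨h1, he⟩⟩
      by_contra hn
      have := h2 i (Set.mem_toFinset.2 hi.2) hn
      rw [show φ ⬝ᵥ x i = 1 from hi.1] at this
      exact one_ne_zero this)
  obtain ⟨φ, h0, rfl⟩ := circ' D hD
  obtain ⟨i, j, hij, hi, hj⟩ := H7.Isc.two_out hk hB φ
  obtain ⟨C, hC, -⟩ := hD' i (by simp [hE, hi]) j (by simp [hE, hj]) hij
  rw [Matroid.restrict_isCircuit_iff Set.sdiff_subset] at hC
  obtain ⟨ψ, h1, rfl⟩ := circ' C hC.1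
  obtain ⟨l, h2, h3⟩ := hB φ ψ h0 h1
  exact (hC.2 h3).2 h2

end Pool.Agent.S09686
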