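import Pool.Statements.S09704
import Pool.Agent.H60.STb

set_option autoImplicit false
open Pool Pool.MP_7de4e5_co

namespace Pool.Agent.S09704

/-- The negation of the preceding statement: For every ε>0, for all large n, any n points in a √3 by (n−1) rectangle lie in a connected plane set of 1-dimensional Hausdorff measure at most √3(n−1)+ε. -/
theorem result :
    ¬ (∀ ε : ℝ, 0 < ε → ∃ N : ℕ, ∀ n : ℕ, N ≤ n →
      ∀ P : Fin n → EuclideanSpace ℝ (Fin 2),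
        (∀ i, 0 ≤ P i 0 ∧ P i 0 ≤ Real.sqrt 3 ∧ 0 ≤ P i 1 ∧ P i 1 ≤ (n : ℝ) - 1) →
        ∃ S : Set (EuclideanSpace ℝ (Fin 2)), IsConnected S ∧ (∀ i, P i ∈ S) ∧
          MeasureTheory.Measure.hausdorffMeasure 1 S ≤
            ENNReal.ofReal (Real.sqrt 3 * ((n : ℝ) - 1) + ε)) := by
  intro h
  obtain ⟨N, hN⟩ := h (1 / 20) (by norm_num)
  obtain ⟨P, hP, hb⟩ := H60.ST.main (N + 3) (by omega)
  obtain ⟨S, hS, hPS, hH⟩ := hN (N + 3) (by omega) P hP
  have h3 : (0 : ℝ) < Real.sqrt 3 := by positivity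
  have h33 : Real.sqrt 3 ^ 2 = 3 := Real.sq_sqrt (by norm_num)
  have hn : (0 : ℝ) ≤ ((N + 3 : ℕ) : ℝ) - 1 := by
    push_cast
    have : (0 : ℝ) ≤ N := by positivity
    linarith
  have := hb S hS hPS _ (by positivity) hH
  have e : 2 / Real.sqrt 3 * (Real.sqrt 3 * (((N + 3 : ℕ) : ℝ) - 1) + 1 / 20)
      = 2 * (((N + 3 : ℕ) : ℝ) - 1) + 1 / 10 / Real.sqrt 3 := by
    field_simp
    ring
  rw [e] at this
  have h1 : (1 : ℝ) < Real.sqrt 3 := by nlinarith
  have h2 : (1 / 10 : ℝ) / Real.sqrt 3 < 1 / 10 := div_lt_self (by norm_num) h1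
  linarith

end Pool.Agent.S09704
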