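import Pool.Statements.S09798
-- import your own Pool.Agent.* helpers here

set_option autoImplicit false
open Pool Pool.MP_82152b_co

namespace Pool.Agent.S09798Aux
open Finset

def adjB (u v : Fin 5) : Bool :=
  (u.val, v.val) ∈ [(0,1),(1,0),(0,2),(2,0),(1,3),(3,1),(1,4),(4,1),(2,3),(3,2),(2,4),(4,2),(3,4),(4,3)]

def H : SimpleGraph (Fin 5) where
  Adj u v := adjB u v = true
  symm := ⟨by decide⟩
  loopless := ⟨by decide⟩

instance : DecidableRel H.Adj := fun u v => inferInstanceAs (Decidable (adjB u v = true))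

theorem three {α : Type*} (s : Set α) (hf : s.Finite) (h : s.ncard ≤ 2) (a b c : α) (ha : a ∈ s)
    (hb : b ∈ s) (hc : c ∈ s) (hab : a ≠ b) (hac : a ≠ c) (hbc : b ≠ c) : False := by
  have h1 : ({a, b, c} : Set α) ⊆ s := by
    intro x hx
    rcases hx with rfl | rfl | rfl <;> assumption
  have h2 := Set.ncard_le_ncard h1 hf
  rw [Set.ncard_eq_three.2 ⟨a, b, c, hab, hac, hbc, rfl⟩] at h2
  omega

theorem common {n : ℕ} (G : SimpleGraph (Fin n))
    (hG : ∀ S : Finset (Fin n), S.Nonempty → ∃ v ∈ S, {w : Fin n | w ∈ S ∧ G.Adj v w}.ncard ≤ 2)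
    (a b : Fin n) (hab : a ≠ b) :
    {c | G.Adj a c ∧ G.Adj b c ∧ ∃ d, G.Adj a d ∧ G.Adj b d ∧ G.Adj c d}.ncard ≤ 2 := by
  classical
  set C := {c | G.Adj a c ∧ G.Adj b c ∧ ∃ d, G.Adj a d ∧ G.Adj b d ∧ G.Adj c d} with hC
  obtain ⟨v, hv, h⟩ := hG (insert a (insert b C.toFinset)) (insert_nonempty _ _)
  simp only [mem_insert, Set.mem_toFinset] at hv h
  rcases hv with rfl | rfl | hv
  · refine le_trans (Set.ncard_le_ncard ?_) h
    exact fun c hc => ⟨Or.inr (Or.inr hc), hc.1⟩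
  · refine le_trans (Set.ncard_le_ncard ?_) h
    exact fun c hc => ⟨Or.inr (Or.inr hc), hc.2.1⟩
  · obtain ⟨h1, h2, d, h3, h4, h5⟩ := hv
    exact (three _ (Set.toFinite _) h a b d ⟨Or.inl rfl, h1.symm⟩ ⟨Or.inr (Or.inl rfl), h2.symm⟩
      ⟨Or.inr (Or.inr ⟨h3, h4, v, h1, h2, h5.symm⟩), h5⟩ hab h3.ne h4.ne).elim

theorem count {n : ℕ} (G : SimpleGraph (Fin n))
    (hG : ∀ S : Finset (Fin n), S.Nonempty → ∃ v ∈ S, {w : Fin n | w ∈ S ∧ G.Adj v w}.ncard ≤ 2)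
    (k : ℕ) : ∀ S : Finset (Fin n), S.card = k →
    {φ : Fin 5 ↪ Fin n | (∀ u v, H.Adj u v → G.Adj (φ u) (φ v)) ∧ ∀ u, φ u ∈ S}.ncard ≤ 16 * k := by
  classical
  induction k with
  | zero =>
    intro S hS
    rw [card_eq_zero] at hS
    subst hS
    have : {φ : Fin 5 ↪ Fin n | (∀ u v, H.Adj u v → G.Adj (φ u) (φ v)) ∧
        ∀ u, φ u ∈ (∅ : Finset (Fin n))} = ∅ := by
      ext φ; simp
    rw [this]; simp
  | succ k ih =>
    intro S hS
    obtain ⟨v, hv, h⟩ := hG S (card_pos.1 (by omega))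
    have h1 := ih (S.erase v) (by rw [card_erase_of_mem hv]; omega)
    set N := {w : Fin n | w ∈ S ∧ G.Adj v w} with hN
    set T := {φ : Fin 5 ↪ Fin n | (∀ u v, H.Adj u v → G.Adj (φ u) (φ v)) ∧ (∀ u, φ u ∈ S) ∧ φ 0 = v}
    have hsub : {φ : Fin 5 ↪ Fin n | (∀ u v, H.Adj u v → G.Adj (φ u) (φ v)) ∧ ∀ u, φ u ∈ S} ⊆
        {φ : Fin 5 ↪ Fin n | (∀ u v, H.Adj u v → G.Adj (φ u) (φ v)) ∧ ∀ u, φ u ∈ S.erase v} ∪ T := by
      rintro φ ⟨hφ, hS⟩
      by_cases h0 : φ 0 = v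
      · exact Or.inr ⟨hφ, hS, h0⟩
      · refine Or.inl ⟨hφ, fun u => mem_erase.2 ⟨fun hu => ?_, hS u⟩⟩
        have hu0 : u ≠ 0 := fun h => h0 (h ▸ hu)
        obtain ⟨a, b, c, ha, hb, hc, hab, hac, hbc⟩ : ∃ a b c, H.Adj u a ∧ H.Adj u b ∧ H.Adj u c ∧
            a ≠ b ∧ a ≠ c ∧ b ≠ c := by
          clear hu; revert u; decide
        exact three N (Set.toFinite _) h (φ a) (φ b) (φ c) ⟨hS _, hu ▸ hφ _ _ ha⟩
          ⟨hS _, hu ▸ hφ _ _ hb⟩ ⟨hS _, hu ▸ hφ _ _ hc⟩ (φ.injective.ne hab) (φ.injective.ne hac)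
          (φ.injective.ne hbc)
    have hT : T.ncard ≤ 16 := by
      set C : Fin n → Fin n → Finset (Fin n) := fun a b => if a = b then ∅ else
        {c | G.Adj a c ∧ G.Adj b c ∧ ∃ d, G.Adj a d ∧ G.Adj b d ∧ G.Adj c d}.toFinset with hC
      have hCc : ∀ a b, (C a b).card ≤ 2 := by
        intro a b
        simp only [hC]
        split_ifs with hab
        · simp
        · rw [← Set.ncard_eq_toFinset_card']; exact common G hG a b hab
      set R : Finset ((Fin n × Fin n) × (Fin n × Fin n)) :=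
        (N.toFinset ×ˢ N.toFinset).biUnion (fun p => ({p} : Finset _) ×ˢ (C p.1 p.2 ×ˢ C p.1 p.2))
      have hR : R.card ≤ 16 := by
        refine (card_biUnion_le_card_mul _ _ 4 (fun p _ => ?_)).trans ?_
        · rw [card_product, card_product, card_singleton, one_mul]
          exact Nat.mul_le_mul (hCc _ _) (hCc _ _)
        · rw [card_product, ← Set.ncard_eq_toFinset_card']
          have := Nat.mul_le_mul h h
          omega
      refine le_trans ?_ hR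
      rw [← Set.ncard_coe_finset]
      refine Set.ncard_le_ncard_of_injOn (fun φ => ((φ 1, φ 2), (φ 3, φ 4))) ?_ ?_
      · rintro φ ⟨hφ, hS, h0⟩
        have h12 : φ 1 ≠ φ 2 := φ.injective.ne (by decide)
        refine mem_coe.2 (mem_biUnion.2 ⟨(φ 1, φ 2), ?_, ?_⟩)
        · simp only [mem_product, Set.mem_toFinset]
          exact ⟨⟨hS _, h0 ▸ hφ _ _ (by decide)⟩, ⟨hS _, h0 ▸ hφ _ _ (by decide)⟩⟩
        · simp only [mem_product, mem_singleton, true_and, hC, if_neg h12, Set.mem_toFinset]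
          exact ⟨⟨hφ _ _ (by decide), hφ _ _ (by decide), φ 4, hφ _ _ (by decide), hφ _ _ (by decide),
            hφ _ _ (by decide)⟩, ⟨hφ _ _ (by decide), hφ _ _ (by decide), φ 3, hφ _ _ (by decide),
            hφ _ _ (by decide), hφ _ _ (by decide)⟩⟩
      · rintro φ ⟨-, -, h0⟩ ψ ⟨-, -, h0'⟩ hh
        simp only [Prod.mk.injEq] at hh
        ext u
        fin_cases u
        · exact congrArg Fin.val (h0.trans h0'.symm)
        · exact congrArg Fin.val hh.1.1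
        · exact congrArg Fin.val hh.1.2
        · exact congrArg Fin.val hh.2.1
        · exact congrArg Fin.val hh.2.2
    have h2 := (Set.ncard_le_ncard hsub).trans (Set.ncard_union_le _ _)
    omega

def A : H.Subgraph where
  verts := {v | v.val ≤ 2}
  Adj u v := H.Adj u v ∧ (u = 0 ∨ v = 0)
  adj_sub := fun h => h.1
  edge_vert := by intro u v; revert u v; simp only [Set.mem_setOf_eq]; decide
  symm := ⟨fun u v h => ⟨h.1.symm, h.2.symm⟩⟩

def B : H.Subgraph where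
  verts := {v | v ≠ 0}
  Adj u v := H.Adj u v ∧ (u ≠ 0 ∧ v ≠ 0)
  adj_sub := fun h => h.1
  edge_vert := fun h => h.2.1
  symm := ⟨fun u v h => ⟨h.1.symm, h.2.symm⟩⟩

theorem AB : A ⊔ B = ⊤ := by
  ext u v
  · simp only [SimpleGraph.Subgraph.verts_sup, A, B, Set.mem_union, Set.mem_setOf_eq,
      SimpleGraph.Subgraph.verts_top, Set.mem_univ, iff_true]
    revert u; decide
  · simp only [SimpleGraph.Subgraph.sup_adj, A, B, SimpleGraph.Subgraph.top_adj]
    tauto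

theorem ABc : (A.verts ∩ B.verts).ncard ≤ 2 := by
  have : A.verts ∩ B.verts = {1, 2} := by
    ext u
    simp only [A, B, Set.mem_inter_iff, Set.mem_setOf_eq, Set.mem_insert_iff, Set.mem_singleton_iff]
    revert u; decide
  rw [this]
  exact (Set.ncard_insert_le _ _).trans (by simp)

theorem ABd : ∀ u v, A.Adj u v → ¬ B.Adj u v := by
  intro u v h1 h2
  rcases h1.2 with h | h
  · exact h2.2.1 h
  · exact h2.2.2 h

end Pool.Agent.S09798Aux

namespace Pool.Agent.S09798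

/-- The negation of the preceding statement: For every k and every nonempty k-degenerate graph H with flap number f (1 if H has no (≤k)-separation, else the max number of pairwise independent ones), the max number of copies of H in an n-vertex k-degenerate graph is Θ(n^f). -/
theorem result :
    ¬ (∀ (k : ℕ) (V : Type) [Fintype V] [Nonempty V] (H : SimpleGraph V),
    (∀ S : Finset V, S.Nonempty → ∃ v ∈ S, {w : V | w ∈ S ∧ H.Adj v w}.ncard ≤ k) →
    ∀ f : ℕ,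
      (((¬ ∃ A B : H.Subgraph, A ⊔ B = ⊤ ∧ (∀ u v, A.Adj u v → ¬ B.Adj u v) ∧
            (∃ v, v ∈ A.verts ∧ v ∉ B.verts) ∧ (∃ v, v ∈ B.verts ∧ v ∉ A.verts) ∧
            (A.verts ∩ B.verts).ncard ≤ k) ∧ f = 1) ∨
       ((∃ A B : H.Subgraph, A ⊔ B = ⊤ ∧ (∀ u v, A.Adj u v → ¬ B.Adj u v) ∧
            (∃ v, v ∈ A.verts ∧ v ∉ B.verts) ∧ (∃ v, v ∈ B.verts ∧ v ∉ A.verts) ∧
            (A.verts ∩ B.verts).ncard ≤ k) ∧
         IsGreatest {m : ℕ | ∃ A B : Fin m → H.Subgraph,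
            (∀ i, A i ⊔ B i = ⊤ ∧ (∀ u v, (A i).Adj u v → ¬ (B i).Adj u v) ∧
              (∃ v, v ∈ (A i).verts ∧ v ∉ (B i).verts) ∧
              (∃ v, v ∈ (B i).verts ∧ v ∉ (A i).verts) ∧
              ((A i).verts ∩ (B i).verts).ncard ≤ k) ∧
            ∀ i j, i ≠ j →
              (∀ u v, (A i).Adj u v → ¬ (A j).Adj u v) ∧
              ∀ v, v ∈ (A i).verts → v ∉ (B i).verts → ¬ (v ∈ (A j).verts ∧ v ∉ (B j).verts)} f)) →
      ∃ c₁ c₂ : ℝ, 0 < c₁ ∧ 0 < c₂ ∧ ∃ N : ℕ, ∀ n : ℕ, N ≤ n →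
        (∃ G : SimpleGraph (Fin n),
            (∀ S : Finset (Fin n), S.Nonempty → ∃ v ∈ S, {w : Fin n | w ∈ S ∧ G.Adj v w}.ncard ≤ k) ∧
            c₁ * (n : ℝ) ^ f ≤
              (({φ : V ↪ Fin n | ∀ u v, H.Adj u v → G.Adj (φ u) (φ v)}.ncard : ℕ) : ℝ)) ∧
        ∀ G : SimpleGraph (Fin n),
            (∀ S : Finset (Fin n), S.Nonempty → ∃ v ∈ S, {w : Fin n | w ∈ S ∧ G.Adj v w}.ncard ≤ k) →
            (({φ : V ↪ Fin n | ∀ u v, H.Adj u v → G.Adj (φ u) (φ v)}.ncard : ℕ) : ℝ) ≤ c₂ * (n : ℝ) ^ f) := by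
  classical
  intro h
  open S09798Aux in
  set M := {m : ℕ | ∃ A B : Fin m → H.Subgraph,
            (∀ i, A i ⊔ B i = ⊤ ∧ (∀ u v, (A i).Adj u v → ¬ (B i).Adj u v) ∧
              (∃ v, v ∈ (A i).verts ∧ v ∉ (B i).verts) ∧
              (∃ v, v ∈ (B i).verts ∧ v ∉ (A i).verts) ∧
              ((A i).verts ∩ (B i).verts).ncard ≤ 2) ∧
            ∀ i j, i ≠ j →
              (∀ u v, (A i).Adj u v → ¬ (A j).Adj u v) ∧
              ∀ v, v ∈ (A i).verts → v ∉ (B i).verts → ¬ (v ∈ (A j).verts ∧ v ∉ (B j).verts)} with hM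
  have s1 : ∃ v, v ∈ S09798Aux.A.verts ∧ v ∉ S09798Aux.B.verts :=
    ⟨0, by simp [S09798Aux.A], by simp [S09798Aux.B]⟩
  have s2 : ∃ v, v ∈ S09798Aux.B.verts ∧ v ∉ S09798Aux.A.verts :=
    ⟨3, by simp [S09798Aux.B], by simp [S09798Aux.A]⟩
  have h2 : 2 ∈ M := by
    refine ⟨![S09798Aux.A, S09798Aux.B], ![S09798Aux.B, S09798Aux.A], ?_, ?_⟩
    · intro i
      fin_cases i
      · exact ⟨S09798Aux.AB, S09798Aux.ABd, s1, s2, S09798Aux.ABc⟩
      · exact ⟨(sup_comm _ _).trans S09798Aux.AB, fun u v h1 h2 => S09798Aux.ABd u v h2 h1, s2, s1,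
          by rw [Set.inter_comm]; exact S09798Aux.ABc⟩
    · intro i j hij
      fin_cases i <;> fin_cases j
      · exact (hij rfl).elim
      · exact ⟨S09798Aux.ABd, fun v h1 _ h3 => h3.2 h1⟩
      · exact ⟨fun u v h1 h2 => S09798Aux.ABd u v h2 h1, fun v h1 _ h3 => h3.2 h1⟩
      · exact (hij rfl).elim
  have hb : BddAbove M := by
    refine ⟨5, fun m hm => ?_⟩
    obtain ⟨A, B, h1, h3⟩ := hm
    choose v hv using fun i => (h1 i).2.2.1
    have : Function.Injective v := by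
      intro i j hij
      by_contra hne
      exact (h3 i j hne).2 (v i) (hv i).1 (hv i).2 (hij ▸ hv j)
    simpa using Fintype.card_le_of_injective v this
  have hg : IsGreatest M (sSup M) := ⟨Nat.sSup_mem ⟨2, h2⟩ hb, fun m hm => le_csSup hb hm⟩
  have hf : 2 ≤ sSup M := hg.2 h2
  obtain ⟨c₁, c₂, hc₁, -, N, hN⟩ := h 2 (Fin 5) S09798Aux.H (by
      intro S hS
      have : ∀ S : Finset (Fin 5), S.Nonempty → ∃ v ∈ S,
          (S.filter (fun w => S09798Aux.H.Adj v w)).card ≤ 2 := by decide +kernel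
      obtain ⟨v, hv, h3⟩ := this S hS
      refine ⟨v, hv, ?_⟩
      rw [← Set.ncard_coe_finset] at h3
      simpa using h3) (sSup M)
    (Or.inr ⟨⟨S09798Aux.A, S09798Aux.B, S09798Aux.AB, S09798Aux.ABd, s1, s2, S09798Aux.ABc⟩, hg⟩)
  obtain ⟨n, hn1, hn2⟩ : ∃ n : ℕ, N ≤ n ∧ 16 / c₁ + 1 < n := by
    obtain ⟨n, hn⟩ := exists_nat_gt (16 / c₁ + 1)
    exact ⟨max N n, le_max_left _ _, hn.trans_le (by exact_mod_cast le_max_right _ _)⟩
  obtain ⟨⟨G, hG, hc⟩, -⟩ := hN n hn1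
  have h3 := S09798Aux.count G hG n Finset.univ (by simp)
  simp only [Finset.mem_univ, implies_true, and_true] at h3
  have h4 : ((16 * n : ℕ) : ℝ) ≥ c₁ * (n : ℝ) ^ sSup M := hc.trans (by exact_mod_cast h3)
  have h5 : 0 < 16 / c₁ := by positivity
  have h6 : (n : ℝ) ^ 2 ≤ (n : ℝ) ^ sSup M := pow_le_pow_right₀ (by linarith) hf
  have h7 : 16 < c₁ * n := by
    have : 16 / c₁ < n := by linarith
    rw [div_lt_iff₀ hc₁] at this; linarith
  push_cast at h4
  have hn0 : (0 : ℝ) < n := by linarith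
  nlinarith [mul_le_mul_of_nonneg_left h6 hc₁.le, mul_lt_mul_of_pos_right h7 hn0]

end Pool.Agent.S09798
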