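import Pool.Statements.S09801
import Pool.Agent.H58.SP3

set_option autoImplicit false
open Pool Pool.MP_8269f7_co

namespace Pool.Agent.S09801

theorem Z_col {n : ℕ} (G : SimpleGraph (Fin n)) [DecidableRel G.Adj] (q : ℕ) :
    Pool.Agent.H58.SP.Z (fun e : Sym2 (Fin n) => if e ∈ G.edgeSet then (0 : ℂ) else 1) q =
      (Nat.card (G.Coloring (Fin q)) : ℂ) := by
  classical
  have h1 : ∀ σ : Fin n → Fin q,
      Pool.Agent.H58.SP.term (fun e : Sym2 (Fin n) => if e ∈ G.edgeSet then (0 : ℂ) else 1) σ =
      if ∀ u v, G.Adj u v → σ u ≠ σ v then 1 else 0 := by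
    intro σ
    unfold Pool.Agent.H58.SP.term
    split_ifs with h
    · refine Finset.prod_eq_one fun e _ => ?_
      induction e using Sym2.ind with
      | h a b =>
        by_cases hab : G.Adj a b
        · simp [h a b hab]
        · simp [hab]
    · push Not at h
      obtain ⟨u, v, huv, he⟩ := h
      refine Finset.prod_eq_zero (Finset.mem_univ s(u, v)) ?_
      simp [he, huv]
  have h2 : Nat.card (G.Coloring (Fin q)) =
      Nat.card {σ : Fin n → Fin q // ∀ u v, G.Adj u v → σ u ≠ σ v} := by
    refine Nat.card_congr ⟨fun c => ⟨c, fun u v h => c.valid h⟩,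
      fun σ => SimpleGraph.Coloring.mk σ.1 fun {u v} h => σ.2 u v h, fun c => rfl, fun σ => rfl⟩
  unfold Pool.Agent.H58.SP.Z
  simp only [h1]
  rw [h2, Nat.card_eq_fintype_card, Fintype.card_subtype, Finset.sum_boole]

/-- There is a constant C such that for every k ≥ 2, every complex chromatic root of every finite simple graph with no K4 minor and maximum degree at most k has modulus at most C·k/log k. -/
theorem result :
    ∃ C : ℝ, ∀ k : ℕ, 2 ≤ k → ∀ n : ℕ, ∀ G : SimpleGraph (Fin n),
      (¬ ∃ f : Fin 4 → Set (Fin n),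
          (∀ i, (G.induce (f i)).Connected) ∧
          (∀ i j, i ≠ j → Disjoint (f i) (f j)) ∧
          (∀ i j, i ≠ j → ∃ x ∈ f i, ∃ y ∈ f j, G.Adj x y)) →
      (∀ v, (G.neighborSet v).ncard ≤ k) →
      ∀ P : Polynomial ℂ,
        (∀ q : ℕ, 0 < q → P.eval (q : ℂ) = (Nat.card (G.Coloring (Fin q)) : ℂ)) →
        ∀ z : ℂ, P.eval z = 0 → ‖z‖ ≤ C * k / Real.log k := by
  classical
  refine ⟨128, fun k hk n G hK hdeg P hP z hz => ?_⟩
  by_contra hcon
  push Not at hcon
  have hk2 : (2 : ℝ) ≤ k := by exact_mod_cast hk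
  have hlog : 0 < Real.log k := Real.log_pos (by linarith)
  have hR : 0 < ‖z‖ := lt_trans (by positivity) hcon
  set s := Real.exp (Real.log k / 2) with hs
  have hs0 : 0 < s := Real.exp_pos _
  have hss : s * s = k := by
    rw [hs, ← Real.exp_add, add_halves, Real.exp_log (by linarith)]
  have hls : Real.log k ≤ 2 * s := by
    have := Real.add_one_le_exp (Real.log k / 2)
    linarith
  rw [div_lt_iff₀ hlog] at hcon
  have h1 : Real.exp (64 * k / ‖z‖) ≤ s := by
    apply Real.exp_le_exp.2
    rw [div_le_iff₀ hR]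
    linarith
  have h2 : 32 * s ≤ ‖z‖ := by
    by_contra h
    push Not at h
    nlinarith
  obtain ⟨Q, hQ, hQ'⟩ := Pool.Agent.H58.SP.main (V := Fin n) z k hR (by linarith) _ G
    (fun e => if e ∈ G.edgeSet then (0 : ℂ) else 1) le_rfl
    (fun ⟨f, a, b, c⟩ => hK ⟨f, fun i => (a i).connected, b, c⟩)
    (fun u v h => by simp [h])
  have hQP : Q = Polynomial.X ^ {v | ∃ u, G.Adj v u}.ncard * P := by
    apply Pool.Agent.H58.SP.poly_ext
    intro m hm
    rw [hQ, Z_col]
    simp [hP m hm]
  refine hQ' ⟨fun u v => if G.Adj u v then 1 else 0, fun u v => ?_, fun u => ?_, fun u v h => ?_,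
    fun u v => ?_⟩ (by simp [hQP, hz])
  · beta_reduce
    split_ifs <;> norm_num
  · rw [Finset.sum_boole]
    have := hdeg u
    rw [Set.ncard_eq_toFinset_card'] at this
    have e : (G.neighborSet u).toFinset = Finset.univ.filter (fun v => G.Adj u v) := by
      ext v; simp
    rw [e] at this
    exact_mod_cast this
  · simp [h]
  · refine le_trans ?_ (Real.one_le_exp (Pool.Agent.H58.SP.Phi_nonneg hR ?_ ?_))
    · beta_reduce
      split_ifs <;> simp
    · beta_reduce
      split_ifs <;> norm_num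
    · beta_reduce
      split_ifs <;> norm_num

end Pool.Agent.S09801
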