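import Pool.Statements.S09803
import Pool.Agent.H5.StsAct2

set_option autoImplicit false
open Pool Pool.MP_828a2e_co

namespace Pool.Agent.S09803

/-- There is a constant c such that every finite group of order n embeds in the automorphism group of some Steiner triple system on at most n^c points. -/
theorem result :
    ∃ c : ℕ, ∀ (G : Type) [Group G] [Fintype G],
      ∃ (V : Type) (_ : Fintype V) (_ : DecidableEq V) (B : Finset (Finset V)),
        (∀ b ∈ B, b.card = 3) ∧
        (∀ x y : V, x ≠ y → ∃! b, b ∈ B ∧ x ∈ b ∧ y ∈ b) ∧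
        Fintype.card V ≤ (Fintype.card G) ^ c ∧
        ∃ φ : G →* Equiv.Perm V, Function.Injective φ ∧
          ∀ g : G, ∀ b ∈ B, b.image (⇑(φ g)) ∈ B := by
  refine ⟨8, fun G _ _ => ?_⟩
  by_cases h : Fintype.card G = 1
  · have hs : Subsingleton G := Fintype.card_le_one_iff_subsingleton.mp h.le
    refine ⟨Unit, inferInstance, inferInstance, ∅, by simp, fun x y hxy => absurd rfl hxy,
      by simp [h], 1, fun a b _ => Subsingleton.elim a b, by simp⟩
  · obtain ⟨V, i1, i2, B, b1, b2, b3, b4⟩ := Pool.Agent.H5.StsAct.main G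
    refine ⟨V, i1, i2, B, b1, b2, b3.trans ?_, b4⟩
    have h0 : 0 < Fintype.card G := Fintype.card_pos
    have h2 : 2 ^ 6 ≤ Fintype.card G ^ 6 := Nat.pow_le_pow_left (by omega) 6
    calc 36 * Fintype.card G ^ 2 ≤ Fintype.card G ^ 6 * Fintype.card G ^ 2 :=
          Nat.mul_le_mul_right _ (by omega)
      _ = Fintype.card G ^ 8 := by ring

end Pool.Agent.S09803
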