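import Pool.Statements.S09824
import Pool.Agent.H35.CC

set_option autoImplicit false
open Pool Pool.MP_836894_co

namespace Pool.Agent.S09824

theorem result :
    ¬ (∀ (n : ℕ) (G : SimpleGraph (Fin n)), G.Connected →
      (∀ a b c d : Fin n, G.Adj a b → G.Adj c d →
        ∃ k : ℕ, ¬ G.Colorable k ∧
          ∃ col : Fin n → Fin k,
            col a = col b ∧ col c = col d ∧
            (∀ u v : Fin n, G.Adj u v →
              ¬ Relation.ReflTransGen
                  (fun x y : Fin n =>
                    (x = a ∧ y = b) ∨ (x = b ∧ y = a) ∨ (x = c ∧ y = d) ∨ (x = d ∧ y = c))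
                  u v →
              col u ≠ col v)) →
      G = ⊤) := by
  open Pool.Agent.H35.CC in
  intro h
  have := h 15 G conn fun a b c d h1 h2 => by
    obtain ⟨col, k1, k2, k3⟩ := key a b h1 c d h2
    refine ⟨7, not_col, col, k1, k2, fun u v huv hn e => hn ?_⟩
    rcases k3 u v huv e with r | ⟨w, r, r'⟩
    · exact .single r
    · exact (Relation.ReflTransGen.single r).tail r'
  have h2 : G.Adj 0 2 := this ▸ (by decide : (0 : Fin 15) ≠ 2)
  exact absurd h2 (by decide)

end Pool.Agent.S09824
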