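import Pool.Statements.S09857
import Pool.Agent.H10.DirGeo

set_option autoImplicit false
open Pool Pool.MP_853269_co

namespace Pool.Agent.S09857

/-- For every prime p and every set A of exactly p points in F_p^3, either A lies in some affine plane, or the lines through the origin spanned by differences of distinct points of A number at least p+1. -/
theorem result :
    ∀ (p : ℕ), p.Prime → ∀ (A : Finset (Fin 3 → ZMod p)), A.card = p →
      (∃ v : Fin 3 → ZMod p, v ≠ 0 ∧ ∃ c : ZMod p, ∀ a ∈ A, ∑ i, v i * a i = c) ∨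
      p + 1 ≤ Set.ncard {W : Submodule (ZMod p) (Fin 3 → ZMod p) |
        ∃ a ∈ A, ∃ b ∈ A, a ≠ b ∧ W = Submodule.span (ZMod p) {a - b}} := by
  open Classical Finset H10.DirPoly H10.DirGeo in
  intro p hp A hA
  have := Fact.mk hp
  by_contra hcon
  push Not at hcon
  obtain ⟨np0, hn⟩ := hcon
  have np : ¬ Planar (ZMod p) A := by
    rintro ⟨φ, h0, c, h⟩
    have e : ∀ a, φ a = ∑ i, φ (fun j => if i = j then 1 else 0) * a i := fun a => by
      rw [LinearMap.pi_apply_eq_sum_univ]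
      simp [mul_comm]
    obtain ⟨a, ha, n⟩ := np0 (fun i => φ fun j => if i = j then 1 else 0) (fun z => h0 (by
      refine LinearMap.ext fun a => ?_
      rw [e]
      exact sum_eq_zero fun i _ => by rw [show φ _ = 0 from congrFun z i, zero_mul])) c
    exact n (by rw [← e, h a ha])
  have rk : Module.finrank (ZMod p) (Module.Dual (ZMod p) (Fin 3 → ZMod p)) = 3 := by simp
  have hperp : ∀ v w : Fin 3 → ZMod p, ∃ φ : Module.Dual (ZMod p) (Fin 3 → ZMod p),
      φ ≠ 0 ∧ φ v = 0 ∧ φ w = 0 := fun v w => by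
    obtain ⟨φ, h1, h2⟩ := (Submodule.ne_bot_iff _).mp (LinearMap.ker_ne_bot_of_finrank_lt
      (f := (Module.Dual.eval (ZMod p) _ v).prod (Module.Dual.eval (ZMod p) _ w)) (by simp))
    exact ⟨φ, h2, by simpa using h1⟩
  have p5 : 5 ≤ p := by
    by_contra c
    have := hp.two_le
    have : p ≠ 4 := by rintro rfl; exact absurd hp (by norm_num)
    obtain ⟨x, y, z, e⟩ : ∃ x y z, A = {x, y, z} := by
      by_cases c : p = 2
      · obtain ⟨x, y, -, e⟩ := card_eq_two.mp (hA.trans c)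
        exact ⟨x, x, y, by simp [e]⟩
      · obtain ⟨x, y, z, -, -, -, e⟩ := card_eq_three.mp (hA.trans (by omega : p = 3))
        exact ⟨x, y, z, e⟩
    obtain ⟨φ, h0, h1, h2⟩ := hperp (y - x) (z - x)
    rw [map_sub, sub_eq_zero] at h1 h2
    exact np ⟨φ, h0, φ x, by simp [e, h1, h2]⟩
  obtain ⟨r, r1, r2⟩ : ∃ r, 3 * r ≤ p + 1 ∧ p ≤ 3 * r + 1 := ⟨(p + 1) / 3, by omega, by omega⟩
  have cov : Cov (ZMod p) A r := by
    by_contra c
    have := two_count hperp np (two hperp r (by omega) np c) (Set.toFinite _)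
    nlinarith
  obtain ⟨D0, eD⟩ : ∃ D0, D0 = {W : Submodule (ZMod p) (Fin 3 → ZMod p) |
    ∃ a ∈ A, ∃ b ∈ A, a ≠ b ∧ W = Submodule.span (ZMod p) {a - b}} := ⟨_, rfl⟩
  rw [← eD, Set.ncard_eq_toFinset_card _ (Set.toFinite _)] at hn
  have ex : ∀ W ∈ D0, ∃ d, d ≠ 0 ∧ W = Submodule.span (ZMod p) {d} := by
    rw [eD]
    rintro _ ⟨a, -, b, -, n, rfl⟩
    exact ⟨_, sub_ne_zero.mpr n, rfl⟩
  choose! gen g0 g1 using ex
  obtain ⟨S, eS⟩ : ∃ S, S = (Set.toFinite D0).toFinset.image gen := ⟨_, rfl⟩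
  have cS : #S ≤ p := eS ▸ card_image_le.trans (by omega)
  obtain ⟨l, hl⟩ := avoid (K := ZMod p) S (by
    intro d hd
    obtain ⟨W, hW, rfl⟩ := mem_image.mp (eS ▸ hd)
    exact g0 W ((Set.Finite.mem_toFinset _).mp hW)) (by rwa [ZMod.card])
  have key : ∀ a ∈ A, ∀ b ∈ A, a ≠ b → ∃ d ∈ S, ∃ m : ZMod p, m ≠ 0 ∧ m • d = a - b := by
    intro a ha b hb n
    have hW : Submodule.span (ZMod p) {a - b} ∈ D0 := eD ▸ ⟨a, ha, b, hb, n, rfl⟩
    obtain ⟨m, hm⟩ := Submodule.mem_span_singleton.mp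
      (g1 _ hW ▸ Submodule.mem_span_singleton_self (a - b) :
        a - b ∈ Submodule.span (ZMod p) {gen (Submodule.span (ZMod p) {a - b})})
    exact ⟨_, eS ▸ mem_image.mpr ⟨_, (Set.Finite.mem_toFinset _).mpr hW, rfl⟩, m,
      fun z => n (by rw [z, zero_smul] at hm; exact sub_eq_zero.mp hm.symm), hm⟩
  have linj : ∀ a ∈ A, ∀ b ∈ A, a ≠ b → l a ≠ l b := fun a ha b hb n => by
    obtain ⟨d, hd, m, m0, e⟩ := key a ha b hb n
    rw [← sub_ne_zero, ← map_sub, ← e, map_smul]
    exact mul_ne_zero m0 (hl d hd)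
  obtain ⟨a0, ha0, b0, hb0, n0⟩ := one_lt_card.mp (show 1 < #A by omega)
  have l0 : LinearIndependent (ZMod p) ![l] := by
    rw [linearIndependent_unique_iff]
    rintro h
    exact linj a0 ha0 b0 hb0 n0 (by simp [show l = 0 from h])
  obtain ⟨ν, l1⟩ := exists_linearIndependent_cons_of_lt_finrank l0 (by omega)
  obtain ⟨μ, l2⟩ := exists_linearIndependent_cons_of_lt_finrank l1 (by omega)
  change LinearIndependent (ZMod p) ![μ, ν, l] at l2
  have hsp : ∀ φ : Module.Dual (ZMod p) (Fin 3 → ZMod p), ∃ α β γ, ∀ a,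
      φ a = α * μ a + β * l a + γ * ν a := fun φ => by
    have : φ ∈ Submodule.span (ZMod p) (Set.range ![μ, ν, l]) := by
      rw [l2.span_eq_top_of_card_eq_finrank (by simp)]; trivial
    obtain ⟨c, hc⟩ := (Submodule.mem_span_range_iff_exists_fun _).mp this
    refine ⟨c 0, c 2, c 1, fun a => ?_⟩
    rw [← hc]
    simp [Fin.sum_univ_three]
    ring
  obtain ⟨D, D1, D2⟩ := exists_superset_card_eq
    (s := S.image fun d => (μ d / l d, ν d / l d)) (n := p) (card_image_le.trans cS)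
    (by simpa [ZMod.card] using Nat.le_mul_self p)
  have nm := cov_mom μ l ν hsp cov (fun j hj => cast_ne _ (by omega) (by omega)) (fun _ => 1)
    (by simp)
  unfold Mom at nm
  push Not at nm
  obtain ⟨k, k1, k2⟩ := nm
  obtain ⟨α, β, γ, h1, Δ, h2, h3⟩ := core A hA μ l ν D D2 (fun a ha b hb n => by
    obtain ⟨d, hd, m, m0, e⟩ := key a ha b hb n
    refine ⟨linj a ha b hb n, _, D1 (mem_image.mpr ⟨d, hd, rfl⟩), ?_⟩
    have := hl d hd
    simp only [← map_sub, ← e, map_smul, smul_eq_mul]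
    constructor <;> field_simp) k (by omega) p5 (by simpa using k2)
  obtain ⟨r', r3, r4⟩ : ∃ r', p ≤ 2 * r' + 1 ∧ 2 * r' < p := by
    have := hp.eq_two_or_odd
    exact ⟨p / 2, by omega, by omega⟩
  let pr : (Fin 3 → ZMod p) → ZMod p × ZMod p := fun a => (l a, α * μ a + β * ν a + γ * l a)
  have cA : #(A.image pr) = p := by
    rw [card_image_of_injOn fun a ha b hb e => by_contra fun n =>
      linj a ha b hb n (congrArg Prod.fst e), hA]
  have mom := redei (A.image pr) cA Prod.fst Prod.snd Δ r' (by omega) (by omega) (by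
    intro x hx y hy n
    obtain ⟨a, ha, rfl⟩ := mem_image.mp hx
    obtain ⟨b, hb, rfl⟩ := mem_image.mp hy
    have n' : a ≠ b := fun e => n (e ▸ rfl)
    exact ⟨linj a ha b hb n', h3 a ha b hb n'⟩)
  obtain ⟨u, v, hu⟩ := line (K := ZMod p) r' (card_pos.mp (by omega)) (cA.le.trans r3) fun c =>
    cov_mom _ Prod.fst Prod.snd (fun φ => ⟨0, φ (1, 0), φ (0, 1), fun a => by
      rw [show a = a.1 • (1, 0) + a.2 • (0, 1) by simp, map_add, map_smul, map_smul]
      simp [mul_comm]⟩) c (fun j hj => cast_ne _ (by omega) (by omega)) _ (by simp) mom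
  have v1 : v.1 ≠ 0 := fun z => by
    obtain ⟨s, hs⟩ := hu _ (mem_image_of_mem pr ha0)
    obtain ⟨t, ht⟩ := hu _ (mem_image_of_mem pr hb0)
    have a := congrArg Prod.fst hs
    have b := congrArg Prod.fst ht
    simp only [pr, Prod.fst_add, Prod.smul_fst, z, smul_zero] at a b
    exact linj a0 ha0 b0 hb0 n0 (a.trans b.symm)
  refine np ⟨(v.1 * α) • μ + (v.1 * β) • ν + (v.1 * γ - v.2) • l, fun z => ?_,
    v.1 * u.2 - v.2 * u.1, fun a ha => ?_⟩
  · have := Fintype.linearIndependent_iff.mp l2 ![v.1 * α, v.1 * β, v.1 * γ - v.2]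
      (by simpa [Fin.sum_univ_three] using z)
    rcases h1 with h | h
    exacts [mul_ne_zero v1 h (this 0), mul_ne_zero v1 h (this 1)]
  · obtain ⟨s, hs⟩ := hu _ (mem_image_of_mem pr ha)
    have a := congrArg Prod.fst hs
    have b := congrArg Prod.snd hs
    simp only [pr, Prod.fst_add, Prod.smul_fst, Prod.snd_add, Prod.smul_snd, smul_eq_mul] at a b
    simp only [LinearMap.add_apply, LinearMap.smul_apply, smul_eq_mul]
    linear_combination v.1 * b - v.2 * a

end Pool.Agent.S09857
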