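import Pool.Statements.S09866

set_option autoImplicit false
open SimpleGraph
open Pool Pool.MP_85b484_co

namespace Pool.Agent.S09866

/-- Adjacency table of the necklace of four diamonds closed by one edge. -/
def adjN (a b : ℕ) : Bool :=
  Nat.testBit 280762466178597581640382941435589343139375951753222 (13 * a + b)

lemma adj_symm : ∀ a b : Fin 13, adjN a.val b.val = true → adjN b.val a.val = true := by
  decide +kernel
lemma adj_irr : ∀ a : Fin 13, ¬ adjN a.val a.val = true := by decide +kernel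

def G : SimpleGraph (Fin 13) where
  Adj a b := adjN a.val b.val = true
  symm := ⟨adj_symm⟩
  loopless := ⟨adj_irr⟩

instance : DecidableRel G.Adj := fun a b => inferInstanceAs (Decidable (adjN a.val b.val = true))

abbrev T := ℕ × ℕ × ℕ

def L : List T :=
  [(0,0,0), (1,1,1), (2,2,2), (3,3,3), (4,4,4), (5,5,5), (6,6,6), (7,7,7), (8,8,8), (9,9,9),
   (10,10,10), (11,11,11), (12,12,12), (0,1,0), (0,2,0), (0,12,0), (1,2,1), (1,3,1), (2,3,2),
   (3,4,3), (3,5,3), (4,5,4), (4,6,4), (5,6,5), (6,7,6), (6,8,6), (7,8,7), (7,9,7), (8,9,8),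
   (9,10,9), (9,11,9), (10,11,10), (10,12,10), (11,12,11), (0,1,2), (0,1,3), (0,1,12), (0,2,3),
   (0,2,12), (0,10,12), (0,11,12), (1,2,3), (1,3,4), (1,3,5), (2,3,4), (2,3,5), (3,4,5), (3,4,6),
   (3,5,6), (4,5,6), (4,6,7), (4,6,8), (5,6,7), (5,6,8), (6,7,8), (6,7,9), (6,8,9), (7,8,9),
   (7,9,10), (7,9,11), (8,9,10), (8,9,11), (9,10,11), (9,10,12), (9,11,12), (10,11,12)]

def memT (v : ℕ) (p : T) : Bool := v == p.1 || v == p.2.1 || v == p.2.2

def nb (v : ℕ) (p : T) : Bool := adjN v p.1 || adjN v p.2.1 || adjN v p.2.2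

def compat (p q : T) : Bool :=
  !(memT p.1 q) && !(memT p.2.1 q) && !(memT p.2.2 q) && (nb p.1 q || nb p.2.1 q || nb p.2.2 q)

def check : Bool :=
  L.all fun p => L.all fun q => !(compat p q) || L.all fun r => !(compat p r && compat q r) ||
    L.all fun s => !(compat p s && compat q s && compat r s)

lemma check_true : check = true := by decide +kernel

def cover : Bool :=
  (List.range 13).all fun a => (List.range 13).all fun b => (List.range 13).all fun c =>
    !((a == b && a == c) || (nb a (a, b, c) && nb b (a, b, c) && nb c (a, b, c))) ||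
      L.any fun p => memT a p && memT b p && memT c p &&
        memT p.1 (a, b, c) && memT p.2.1 (a, b, c) && memT p.2.2 (a, b, c)

lemma cover_true : cover = true := by decide +kernel

/-- `p` lists the elements of `S`. -/
def Rep (S : Finset (Fin 13)) (p : T) : Prop :=
  ∀ v : ℕ, memT v p = true ↔ ∃ x ∈ S, x.val = v

lemma exists_triple (S : Finset (Fin 13)) (h : S.card ≤ 3) (hne : S.Nonempty) :
    ∃ a b c, S = {a, b, c} := by
  have h0 := hne.card_pos
  have : S.card = 1 ∨ S.card = 2 ∨ S.card = 3 := by omega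
  rcases this with h1 | h1 | h1
  · obtain ⟨a, rfl⟩ := Finset.card_eq_one.1 h1
    exact ⟨a, a, a, by simp⟩
  · obtain ⟨a, b, -, rfl⟩ := Finset.card_eq_two.1 h1
    exact ⟨a, b, b, by simp⟩
  · obtain ⟨a, b, c, -, -, -, rfl⟩ := Finset.card_eq_three.1 h1
    exact ⟨a, b, c, rfl⟩

lemma has_nb (S : Finset (Fin 13)) (hc : (G.induce (S : Set (Fin 13))).Connected)
    {u v : Fin 13} (hu : u ∈ S) (hv : v ∈ S) (huv : u ≠ v) : ∃ w ∈ S, G.Adj u w := by
  obtain ⟨p⟩ := hc.preconnected ⟨u, hu⟩ ⟨v, hv⟩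
  cases p with
  | nil => exact absurd rfl huv
  | cons h _ =>
    rename_i w _
    exact ⟨w.1, w.2, h⟩

lemma exists_rep (S : Finset (Fin 13)) (h : S.card ≤ 3)
    (hc : (G.induce (S : Set (Fin 13))).Connected) : ∃ p ∈ L, Rep S p := by
  obtain ⟨⟨x, hx⟩⟩ := hc.nonempty
  obtain ⟨a, b, c, hS⟩ := exists_triple S h ⟨x, hx⟩
  have hcov := cover_true
  simp only [cover, List.all_eq_true, List.mem_range] at hcov
  have h1 := hcov a.val a.2 b.val b.2 c.val c.2
  have key : ∀ u ∈ S, ∀ v ∈ S, u ≠ v → nb u.val (a.val, b.val, c.val) = true := by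
    intro u hu v hv huv
    obtain ⟨w, hw, hadj⟩ := has_nb S hc hu hv huv
    have hadj' : adjN u.val w.val = true := hadj
    rw [hS] at hw
    simp only [Finset.mem_insert, Finset.mem_singleton] at hw
    rcases hw with rfl | rfl | rfl <;> simp [nb, hadj']
  have ha : a ∈ S := by simp [hS]
  have hb : b ∈ S := by simp [hS]
  have hcS : c ∈ S := by simp [hS]
  have hcond : ((a.val == b.val && a.val == c.val) || (nb a.val (a.val, b.val, c.val) &&
      nb b.val (a.val, b.val, c.val) && nb c.val (a.val, b.val, c.val))) = true := by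
    by_cases hab : a = b
    · by_cases hac : a = c
      · simp [← hab, ← hac]
      · rw [key a ha c hcS hac, key b hb c hcS (hab ▸ hac), key c hcS a ha (Ne.symm hac)]
        simp
    · by_cases hac : a = c
      · rw [key a ha b hb hab, key b hb a ha (Ne.symm hab), key c hcS b hb (hac ▸ hab)]
        simp
      · rw [key a ha b hb hab, key b hb a ha (Ne.symm hab), key c hcS a ha (Ne.symm hac)]
        simp
  rw [hcond] at h1
  simp only [Bool.not_true, Bool.false_or, List.any_eq_true, Bool.and_eq_true] at h1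
  obtain ⟨p, hp, ⟨⟨⟨⟨h2, h3⟩, h4⟩, h5⟩, h6⟩, h7⟩ := h1
  refine ⟨p, hp, fun v => ⟨fun hv => ?_, ?_⟩⟩
  · have hv' : memT v (a.val, b.val, c.val) = true := by
      simp only [memT, Bool.or_eq_true, beq_iff_eq] at hv
      rcases hv with (rfl | rfl) | rfl <;> assumption
    simp only [memT, Bool.or_eq_true, beq_iff_eq] at hv'
    rcases hv' with (rfl | rfl) | rfl
    · exact ⟨a, ha, rfl⟩
    · exact ⟨b, hb, rfl⟩
    · exact ⟨c, hcS, rfl⟩
  · rintro ⟨y, hy, rfl⟩
    rw [hS] at hy
    simp only [Finset.mem_insert, Finset.mem_singleton] at hy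
    rcases hy with rfl | rfl | rfl <;> assumption

lemma compat_of {S U : Finset (Fin 13)} {p q : T} (hp : Rep S p) (hq : Rep U q)
    (hd : Disjoint S U) (ha : ∃ u ∈ S, ∃ v ∈ U, G.Adj u v) : compat p q = true := by
  have hn : ∀ v, memT v p = true → memT v q = false := by
    intro v hv
    by_contra h
    obtain ⟨x, hx, rfl⟩ := (hp v).1 hv
    obtain ⟨y, hy, hxy⟩ := (hq x.val).1 (by simpa using h)
    have : y = x := Fin.ext hxy
    exact Finset.disjoint_left.1 hd hx (this ▸ hy)
  obtain ⟨u, hu, v, hv, huv⟩ := ha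
  have huv' : adjN u.val v.val = true := huv
  have h1 := (hp u.val).2 ⟨u, hu, rfl⟩
  have h2 := (hq v.val).2 ⟨v, hv, rfl⟩
  have h3 : nb u.val q = true := by
    simp only [memT, Bool.or_eq_true, beq_iff_eq] at h2
    rcases h2 with (h | h) | h <;> simp [nb, ← h, huv']
  have h4 : (nb p.1 q || nb p.2.1 q || nb p.2.2 q) = true := by
    simp only [memT, Bool.or_eq_true, beq_iff_eq] at h1
    rcases h1 with (h | h) | h <;> simp [← h, h3]
  unfold compat
  rw [hn p.1 (by simp [memT]), hn p.2.1 (by simp [memT]), hn p.2.2 (by simp [memT]), h4]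
  rfl

lemma diamond : ∀ a b c d : Fin 3, a ≠ b → a ≠ c → b ≠ c → b ≠ d → c ≠ d → a = d := by decide

lemma not_col (c : Fin 13 → Fin 3) (hc : ∀ u v, G.Adj u v → c u ≠ c v) : False := by
  have h1 := diamond (c 0) (c 1) (c 2) (c 3) (hc _ _ (by decide +kernel))
    (hc _ _ (by decide +kernel)) (hc _ _ (by decide +kernel)) (hc _ _ (by decide +kernel))
    (hc _ _ (by decide +kernel))
  have h2 := diamond (c 3) (c 4) (c 5) (c 6) (hc _ _ (by decide +kernel))
    (hc _ _ (by decide +kernel)) (hc _ _ (by decide +kernel)) (hc _ _ (by decide +kernel))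
    (hc _ _ (by decide +kernel))
  have h3 := diamond (c 6) (c 7) (c 8) (c 9) (hc _ _ (by decide +kernel))
    (hc _ _ (by decide +kernel)) (hc _ _ (by decide +kernel)) (hc _ _ (by decide +kernel))
    (hc _ _ (by decide +kernel))
  have h4 := diamond (c 9) (c 10) (c 11) (c 12) (hc _ _ (by decide +kernel))
    (hc _ _ (by decide +kernel)) (hc _ _ (by decide +kernel)) (hc _ _ (by decide +kernel))
    (hc _ _ (by decide +kernel))
  exact hc 0 12 (by decide +kernel) (h1.trans (h2.trans (h3.trans h4)))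

lemma tri_avoid : ∀ a b : Fin 13, ∃ i : Fin 4, ∀ j : Fin 3,
    a.val ≠ 3 * i.val + j.val ∧ b.val ≠ 3 * i.val + j.val := by decide +kernel

lemma tri_adj : ∀ u v w : Fin 13, ∀ i : Fin 4, u.val = 3 * i.val → v.val = 3 * i.val + 1 →
    w.val = 3 * i.val + 2 → G.Adj u v ∧ G.Adj v w ∧ G.Adj u w := by decide +kernel

lemma no_emb (n : ℕ) (hn : 11 ≤ n) (H : SimpleGraph (Fin n))
    (hH : n ≤ 13 → ∀ a b c, H.Adj a b → H.Adj b c → H.Adj a c → False) : IsEmpty (H ↪g G) := by
  refine ⟨fun f => ?_⟩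
  have hle : n ≤ 13 := by simpa using Fintype.card_le_of_injective f f.injective
  set S : Finset (Fin 13) := Finset.univ.map f.toEmbedding with hS
  have hcard : Sᶜ.card ≤ 2 := by
    rw [Finset.card_compl, hS, Finset.card_map]
    simp
    omega
  have hab : ∃ a b : Fin 13, ∀ v, v ≠ a → v ≠ b → v ∈ S := by
    have : Sᶜ.card = 0 ∨ Sᶜ.card = 1 ∨ Sᶜ.card = 2 := by omega
    rcases this with h1 | h1 | h1
    · refine ⟨0, 0, fun v _ _ => ?_⟩
      by_contra h
      have : v ∈ Sᶜ := Finset.mem_compl.2 h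
      rw [Finset.card_eq_zero.1 h1] at this
      simp at this
    · obtain ⟨a, ha⟩ := Finset.card_eq_one.1 h1
      refine ⟨a, a, fun v hv _ => ?_⟩
      by_contra h
      have : v ∈ Sᶜ := Finset.mem_compl.2 h
      rw [ha] at this
      simp at this
      exact hv this
    · obtain ⟨a, b, -, ha⟩ := Finset.card_eq_two.1 h1
      refine ⟨a, b, fun v hv hv' => ?_⟩
      by_contra h
      have : v ∈ Sᶜ := Finset.mem_compl.2 h
      rw [ha] at this
      simp at this
      rcases this with h | h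
      · exact hv h
      · exact hv' h
  obtain ⟨a, b, hab⟩ := hab
  obtain ⟨i, hi⟩ := tri_avoid a b
  have hi4 := i.2
  have get : ∀ j : Fin 3, ∃ x, (f x).val = 3 * i.val + j.val := by
    intro j
    have hj := j.2
    have := hab ⟨3 * i.val + j.val, by omega⟩ (fun h => (hi j).1 (by rw [← h]))
      (fun h => (hi j).2 (by rw [← h]))
    rw [hS, Finset.mem_map] at this
    obtain ⟨x, -, hx⟩ := this
    exact ⟨x, by have := congrArg Fin.val hx; simpa using this⟩
  obtain ⟨x, hx⟩ := get 0
  obtain ⟨y, hy⟩ := get 1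
  obtain ⟨z, hz⟩ := get 2
  obtain ⟨h1, h2, h3⟩ := tri_adj (f x) (f y) (f z) i (by simpa using hx) (by simpa using hy)
    (by simpa using hz)
  exact hH hle x y z (f.map_adj_iff.1 h1) (f.map_adj_iff.1 h2) (f.map_adj_iff.1 h3)

lemma c11 : ∀ a b c, (cycleGraph 11).Adj a b → (cycleGraph 11).Adj b c →
    (cycleGraph 11).Adj a c → False := by decide +kernel
lemma c13 : ∀ a b c, (cycleGraph 13).Adj a b → (cycleGraph 13).Adj b c →
    (cycleGraph 13).Adj a c → False := by decide +kernel

/-- The negation of the preceding statement: For every m ≥ 2 and finite graph G: every induced subgraph has a K_t-model with connected branch sets of size ≤ m for some t it is t-colourable with, iff G has no induced cycle of length 2k+1 with 2k ≥ 3m. -/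
theorem result :
    ¬ (∀ m : ℕ, 2 ≤ m → ∀ (V : Type) [Fintype V] (G : SimpleGraph V),
    (∀ S : Finset V, ∃ t : ℕ, (G.induce (S : Set V)).Colorable t ∧
      ∃ f : Fin t → Finset V,
        (∀ i, f i ⊆ S ∧ (f i).card ≤ m ∧ (G.induce ((f i : Finset V) : Set V)).Connected) ∧
        ∀ i j, i ≠ j → Disjoint (f i) (f j) ∧ ∃ u ∈ f i, ∃ v ∈ f j, G.Adj u v)
    ↔ (∀ k : ℕ, 3 * m ≤ 2 * k → IsEmpty (SimpleGraph.cycleGraph (2 * k + 1) ↪g G))) := by
  intro h
  have h1 := (h 3 (by norm_num) (Fin 13) G).2 (by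
    intro k hk
    apply no_emb _ (by omega)
    intro hle
    have : k = 5 ∨ k = 6 := by omega
    rcases this with rfl | rfl
    · exact c11
    · exact c13)
  obtain ⟨t, hcol, f, hf, hd⟩ := h1 Finset.univ
  have ht : 4 ≤ t := by
    by_contra hlt
    obtain ⟨c⟩ := hcol.mono (show t ≤ 3 by omega)
    exact not_col (fun v => c ⟨v, by simp⟩) (fun u v huv => c.valid huv)
  choose p hpL hp using fun i => exists_rep (f i) (hf i).2.1 (hf i).2.2
  have hc : ∀ i j, i ≠ j → compat (p i) (p j) = true :=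
    fun i j hij => compat_of (hp i) (hp j) (hd i j hij).1 (hd i j hij).2
  have hk := check_true
  simp only [check, List.all_eq_true] at hk
  let i0 : Fin t := ⟨0, by omega⟩
  let i1 : Fin t := ⟨1, by omega⟩
  let i2 : Fin t := ⟨2, by omega⟩
  let i3 : Fin t := ⟨3, by omega⟩
  have h2 := hk _ (hpL i0) _ (hpL i1)
  rw [hc i0 i1 (by simp [i0, i1])] at h2
  simp only [Bool.not_true, Bool.false_or, List.all_eq_true] at h2
  have h3 := h2 _ (hpL i2)
  rw [hc i0 i2 (by simp [i0, i2]), hc i1 i2 (by simp [i1, i2])] at h3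
  simp only [Bool.and_self, Bool.not_true, Bool.false_or, List.all_eq_true] at h3
  have h4 := h3 _ (hpL i3)
  rw [hc i0 i3 (by simp [i0, i3]), hc i1 i3 (by simp [i1, i3]), hc i2 i3 (by simp [i2, i3])] at h4
  simp at h4

end Pool.Agent.S09866
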