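import Pool.Statements.S09888
import Pool.Agent.H26.CutsetCE

set_option autoImplicit false
open Pool Pool.MP_8697c3_co

namespace Pool.Agent.S09888

/-- The negation of the preceding statement: Every nonempty partial order in which each nonempty chain has a sup and an inf has a cutset A and pairwise disjoint maximal chains F such that each point of A lies in exactly one chain of F and each chain of F contains exactly one point of A. -/
theorem result :
    ¬ (∀ (P : Type) [PartialOrder P] [Nonempty P],
      (∀ c : Set P, IsChain (· ≤ ·) c → c.Nonempty →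
        (∃ a : P, IsLUB c a) ∧ (∃ a : P, IsGLB c a)) →
      ∃ (F : Set (Set P)) (A : Set P),
        (∀ C ∈ F, IsMaxChain (· ≤ ·) C) ∧
        F.PairwiseDisjoint id ∧
        (∀ C : Set P, IsMaxChain (· ≤ ·) C → (A ∩ C).Nonempty) ∧
        (∀ a ∈ A, ∃! C : Set P, C ∈ F ∧ a ∈ C) ∧
        (∀ C ∈ F, ∃! a : P, a ∈ A ∧ a ∈ C)) := by
  intro h
  haveI : Nonempty H26.CutsetCE.P := ⟨H26.CutsetCE.z 0⟩
  obtain ⟨F, A, h1, h2, h3, h4, h5⟩ := h H26.CutsetCE.P H26.CutsetCE.complete
  exact H26.CutsetCE.no_menger F A h1 h2 h3 h4 h5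

end Pool.Agent.S09888
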