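import Pool.Statements.S09896

set_option autoImplicit false
open Pool Pool.MP_86c288_co

namespace Pool.Agent.S09896

open Classical

variable {V : Type} [Fintype V] (G : SimpleGraph V)

/-- the set S can be properly coloured with colours below k -/
def Col (S : Set V) (k : ℕ) : Prop :=
  ∃ c : V → ℕ, (∀ v ∈ S, c v < k) ∧ ∀ u ∈ S, ∀ v ∈ S, G.Adj u v → c u ≠ c v

def Ind (I : Set V) : Prop := ∀ u ∈ I, ∀ v ∈ I, ¬ G.Adj u v

def Dom (I T : Set V) : Prop := ∀ v ∈ T, ∃ w ∈ I, G.Adj v w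

theorem ext_max (S J : Set V) (hJ : J ⊆ S) (hi : Ind G J) :
    ∃ I : Set V, J ⊆ I ∧ I ⊆ S ∧ Ind G I ∧ Dom G I (S \ I) := by
  have hfin : ({I : Set V | J ⊆ I ∧ I ⊆ S ∧ Ind G I}).Finite := Set.toFinite _
  obtain ⟨I, hI⟩ := hfin.exists_maximal ⟨J, subset_rfl, hJ, hi⟩
  obtain ⟨⟨h1, h2, h3⟩, hmax⟩ := hI
  refine ⟨I, h1, h2, h3, ?_⟩
  intro v hv
  by_contra hcon
  push Not at hcon
  have hmem : insert v I ∈ {I : Set V | J ⊆ I ∧ I ⊆ S ∧ Ind G I} := by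
    refine ⟨h1.trans (Set.subset_insert _ _), Set.insert_subset hv.1 h2, ?_⟩
    intro a ha b hb hab
    rcases ha with rfl | ha <;> rcases hb with rfl | hb
    · exact G.irrefl hab
    · exact hcon b hb hab
    · exact hcon a ha hab.symm
    · exact h3 a ha b hb hab
  have := hmax hmem (Set.subset_insert _ _)
  exact hv.2 (this (Set.mem_insert _ _))

theorem has_edge (S : Set V) (k : ℕ) (hk : 1 ≤ k) (h : ¬ Col G S k) :
    ∃ u ∈ S, ∃ y ∈ S, G.Adj u y := by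
  by_contra hcon
  push Not at hcon
  exact h ⟨fun _ => 0, fun _ _ => hk, fun u hu v hv huv => absurd huv (hcon u hu v hv)⟩

theorem step2 (htf : ∀ a b c, G.Adj a b → G.Adj a c → ¬ G.Adj b c) (S : Set V) (k : ℕ) (hk : 1 ≤ k)
    (h : ¬ Col G S (k + 2)) :
    ∃ u ∈ S, ∃ y ∈ S, ∃ I1 I2 : Set V, G.Adj u y ∧ I1 ⊆ S \ {u, y} ∧ I2 ⊆ (S \ {u, y}) \ I1 ∧
      Dom G I1 ((S \ {u, y}) \ I1) ∧ Dom G I2 (((S \ {u, y}) \ I1) \ I2) ∧
      ¬ Col G (((S \ {u, y}) \ I1) \ I2) k := by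
  obtain ⟨u, hu, y, hy, huy⟩ := has_edge G S (k + 2) (by omega) h
  obtain ⟨I1, a1, a2, a3, a4⟩ := ext_max G (S \ {u, y}) {w | w ∈ S \ {u, y} ∧ G.Adj y w}
    (fun w hw => hw.1) (fun a ha b hb => htf y a b ha.2 hb.2)
  obtain ⟨I2, b1, b2, b3, b4⟩ := ext_max G ((S \ {u, y}) \ I1)
    {w | w ∈ (S \ {u, y}) \ I1 ∧ G.Adj u w}
    (fun w hw => hw.1) (fun a ha b hb => htf u a b ha.2 hb.2)
  refine ⟨u, hu, y, hy, I1, I2, huy, a2, b2, a4, b4, ?_⟩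
  rintro ⟨c, hc1, hc2⟩
  apply h
  have hne : u ≠ y := huy.ne
  have huI1 : u ∉ I1 := fun hh => (a2 hh).2 (by simp)
  have hyI1 : y ∉ I1 := fun hh => (a2 hh).2 (by simp)
  have huI2 : u ∉ I2 := fun hh => (b2 hh).1.2 (by simp)
  have hyI2 : y ∉ I2 := fun hh => (b2 hh).1.2 (by simp)
  let d : V → ℕ := fun v => if v ∈ I1 then k else if v ∈ I2 ∨ v = y then k + 1
    else if v = u then 0 else c v
  have rest : ∀ v ∈ S, v ∉ I1 → ¬ (v ∈ I2 ∨ v = y) → v ≠ u → v ∈ ((S \ {u, y}) \ I1) \ I2 := by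
    intro v hv h1 h2 h3
    rw [not_or] at h2
    refine ⟨⟨⟨hv, ?_⟩, h1⟩, h2.1⟩
    simp [h3, h2.2]
  have yn : ∀ v ∈ S, G.Adj y v → v ≠ u → v ∈ I1 := by
    intro v hv hadj hvu
    apply a1
    refine ⟨⟨hv, ?_⟩, hadj⟩
    simp [hvu, hadj.ne']
  have un : ∀ v ∈ S, G.Adj u v → v ∉ I1 → v ∈ I2 ∨ v = y := by
    intro v hv hadj h1
    by_cases hvy : v = y
    · exact Or.inr hvy
    · left
      apply b1
      refine ⟨⟨⟨hv, ?_⟩, h1⟩, hadj⟩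
      simp [hvy, hadj.ne']
  refine ⟨d, ?_, ?_⟩
  · intro v hv
    simp only [d]
    split_ifs with h1 h2 h3
    · omega
    · omega
    · omega
    · have := hc1 v (rest v hv h1 h2 h3); omega
  · intro a ha b hb hab
    simp only [d]
    by_cases p1 : a ∈ I1 <;> by_cases q1 : b ∈ I1
    · exact absurd hab (a3 a p1 b q1)
    · rw [if_pos p1, if_neg q1]
      split_ifs with h2 h3
      · omega
      · omega
      · have := hc1 b (rest b hb q1 h2 h3); omega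
    · rw [if_neg p1, if_pos q1]
      split_ifs with h2 h3
      · omega
      · omega
      · have := hc1 a (rest a ha p1 h2 h3); omega
    · rw [if_neg p1, if_neg q1]
      by_cases p2 : a ∈ I2 ∨ a = y <;> by_cases q2 : b ∈ I2 ∨ b = y
      · exfalso
        rcases p2 with p2 | p2 <;> rcases q2 with q2 | q2
        · exact b3 a p2 b q2 hab
        · subst q2
          exact p1 (yn a ha hab.symm (fun e => huI2 (e ▸ p2)))
        · subst p2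
          exact q1 (yn b hb hab (fun e => huI2 (e ▸ q2)))
        · exact hab.ne (p2.trans q2.symm)
      · rw [if_pos p2, if_neg q2]
        split_ifs with h3
        · omega
        · have := hc1 b (rest b hb q1 q2 h3); omega
      · rw [if_neg p2, if_pos q2]
        split_ifs with h3
        · omega
        · have := hc1 a (rest a ha p1 p2 h3); omega
      · rw [if_neg p2, if_neg q2]
        by_cases p3 : a = u
        · subst p3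
          exact absurd (un b hb hab q1) q2
        · by_cases q3 : b = u
          · subst q3
            exact absurd (un a ha hab.symm p1) p2
          · rw [if_neg p3, if_neg q3]
            exact hc2 a (rest a ha p1 p2 p3) b (rest b hb q1 q2 q3) hab

theorem step1 (htf : ∀ a b c, G.Adj a b → G.Adj a c → ¬ G.Adj b c) (S : Set V)
    (h : ¬ Col G S 2) :
    ∃ I : Set V, I ⊆ S ∧ Dom G I (S \ I) ∧ ∃ u ∈ S \ I, ∃ a ∈ S \ I, ∃ b ∈ S \ I,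
      G.Adj a b ∧ u ≠ a ∧ u ≠ b := by
  obtain ⟨u, hu, y, hy, huy⟩ := has_edge G S 2 (by omega) h
  obtain ⟨I, a1, a2, a3, a4⟩ := ext_max G S {w | w ∈ S ∧ G.Adj u w}
    (fun w hw => hw.1) (fun a ha b hb => htf u a b ha.2 hb.2)
  have huI : u ∉ I := fun hh => a3 u hh y (a1 ⟨hy, huy⟩) huy
  refine ⟨I, a2, a4, u, ⟨hu, huI⟩, ?_⟩
  by_contra hcon
  push Not at hcon
  apply h
  refine ⟨fun v => if v ∈ I then 1 else 0, ?_, ?_⟩
  · intro v _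
    by_cases p : v ∈ I <;> simp [p]
  · intro a ha b hb hab
    by_cases p : a ∈ I <;> by_cases q : b ∈ I
    · exact absurd hab (a3 a p b q)
    · simp [p, q]
    · simp [p, q]
    · exfalso
      by_cases e1 : u = a
      · subst e1
        exact q (a1 ⟨hb, hab⟩)
      · have e2 := hcon a ⟨ha, p⟩ b ⟨hb, q⟩ hab e1
        subst e2
        exact p (a1 ⟨ha, hab.symm⟩)

theorem of_sets (A : Fin 8 → Set V) (hd : ∀ i j, i < j → ∀ v, v ∈ A i → v ∉ A j)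
    (he : ∀ i j, i < j → ∃ u ∈ A i, ∃ v ∈ A j, G.Adj u v) :
    ∃ f : V → Fin 8, Function.Surjective f ∧
      ∀ i j : Fin 8, i ≠ j → ∃ u v, G.Adj u v ∧ f u = i ∧ f v = j := by
  let f : V → Fin 8 := fun v => if h : ∃ i, v ∈ A i then h.choose else 0
  have hf : ∀ i v, v ∈ A i → f v = i := by
    intro i v hv
    have h : ∃ i, v ∈ A i := ⟨i, hv⟩
    simp only [f, dif_pos h]
    have h2 := h.choose_spec
    rcases lt_trichotomy h.choose i with hl | hl | hl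
    · exact absurd hv (hd _ _ hl v h2)
    · exact hl
    · exact absurd h2 (hd _ _ hl v hv)
  have hc : ∀ i j : Fin 8, i ≠ j → ∃ u v, G.Adj u v ∧ f u = i ∧ f v = j := by
    intro i j hij
    rcases lt_or_gt_of_ne hij with hl | hl
    · obtain ⟨u, hu, v, hv, huv⟩ := he i j hl
      exact ⟨u, v, huv, hf _ _ hu, hf _ _ hv⟩
    · obtain ⟨u, hu, v, hv, huv⟩ := he j i hl
      exact ⟨v, u, huv.symm, hf _ _ hv, hf _ _ hu⟩
  refine ⟨f, ?_, hc⟩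
  intro i
  obtain ⟨j, hj⟩ := exists_ne i
  obtain ⟨u, v, _, hu, _⟩ := hc i j hj.symm
  exact ⟨u, hu⟩

theorem disj (I1 I2 I3 I4 I5 S1 S2 : Set V) (u1 y1 u2 y2 u a b : V)
    (n12 : u1 ≠ y1) (n22 : u2 ≠ y2) (nab : a ≠ b) (hua : u ≠ a) (hub : u ≠ b)
    (m1 : ∀ v, v ∈ I1 → v ≠ u1 ∧ v ≠ y1)
    (m2 : ∀ v, v ∈ I2 → (v ≠ u1 ∧ v ≠ y1) ∧ v ∉ I1)
    (mS1 : ∀ v, v ∈ S1 → ((v ≠ u1 ∧ v ≠ y1) ∧ v ∉ I1) ∧ v ∉ I2)
    (m3 : ∀ v, v ∈ I3 → v ∈ S1 ∧ v ≠ u2 ∧ v ≠ y2)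
    (m4 : ∀ v, v ∈ I4 → (v ∈ S1 ∧ v ≠ u2 ∧ v ≠ y2) ∧ v ∉ I3)
    (mS2 : ∀ v, v ∈ S2 → ((v ∈ S1 ∧ v ≠ u2 ∧ v ≠ y2) ∧ v ∉ I3) ∧ v ∉ I4)
    (m5 : ∀ v, v ∈ I5 → v ∈ S2)
    (hu : u ∈ S2) (ha : a ∈ S2) (hb : b ∈ S2) (hu2 : u2 ∈ S1) (hy2 : y2 ∈ S1)
    (hu5 : u ∉ I5) (ha5 : a ∉ I5) (hb5 : b ∉ I5) :
    ∀ i j : Fin 8, i < j → ∀ v,
      v ∈ (![I1, I2, I3, I4, I5, {a, y1}, {b, y2}, {u, u1, u2}] : Fin 8 → Set V) i →
      v ∉ (![I1, I2, I3, I4, I5, {a, y1}, {b, y2}, {u, u1, u2}] : Fin 8 → Set V) j := by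
  intro i j hij v
  have k1 := m1 v
  have k2 := m2 v
  have k3 := m3 v
  have k4 := m4 v
  have k5 := m5 v
  have k6 := mS1 v
  have k7 := mS2 v
  have hu' := mS2 u hu
  have ha' := mS2 a ha
  have hb' := mS2 b hb
  have hu'' := mS1 u hu'.1.1.1
  have ha'' := mS1 a ha'.1.1.1
  have hb'' := mS1 b hb'.1.1.1
  have hu2' := mS1 u2 hu2
  have hy2' := mS1 y2 hy2
  clear m1 m2 m3 m4 m5 mS1 mS2
  fin_cases i <;> fin_cases j <;> simp only [Fin.lt_def] at hij <;> try omega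
  all_goals simp only [Fin.zero_eta, Fin.mk_one, Fin.reduceFinMk, Matrix.cons_val_zero,
      Matrix.cons_val_one, Matrix.cons_val, Set.mem_insert_iff, Set.mem_singleton_iff]
  all_goals grind

theorem main (htf : ∀ a b c, G.Adj a b → G.Adj a c → ¬ G.Adj b c) (h : ¬ Col G Set.univ 6) :
    ∃ f : V → Fin 8, Function.Surjective f ∧
      ∀ i j : Fin 8, i ≠ j → ∃ u v, G.Adj u v ∧ f u = i ∧ f v = j := by
  obtain ⟨u1, -, y1, -, I1, I2, e1, s1, s2, d1, d2, n1⟩ := step2 G htf Set.univ 4 (by omega) h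
  obtain ⟨u2, hu2, y2, hy2, I3, I4, e2, s3, s4, d3, d4, n2⟩ := step2 G htf _ 2 (by omega) n1
  obtain ⟨I5, s5, d5, u, hu, a, ha, b, hb, hab, hua, hub⟩ := step1 G htf _ n2
  set S1 := ((Set.univ \ {u1, y1}) \ I1) \ I2 with hS1
  set S2 := ((S1 \ {u2, y2}) \ I3) \ I4 with hS2
  have n12 : u1 ≠ y1 := e1.ne
  have n22 : u2 ≠ y2 := e2.ne
  have nab : a ≠ b := hab.ne
  obtain ⟨w5, hw5, _⟩ := d5 u hu
  obtain ⟨w4, hw4, _⟩ := d4 u hu.1
  obtain ⟨w3, hw3, _⟩ := d3 u hu.1.1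
  obtain ⟨w2, hw2, _⟩ := d2 u hu.1.1.1.1
  have D : ∀ (I T : Set V), Dom G I T → ∀ B : Set V, ∀ v ∈ B, v ∈ T →
      ∃ x ∈ I, ∃ y ∈ B, G.Adj x y := by
    intro I T hd B v hv hT
    obtain ⟨w, hw, hadj⟩ := hd v hT
    exact ⟨w, hw, v, hv, hadj.symm⟩
  have m1 : ∀ v, v ∈ I1 → v ≠ u1 ∧ v ≠ y1 := fun v hv => by simpa using s1 hv
  have m2 : ∀ v, v ∈ I2 → (v ≠ u1 ∧ v ≠ y1) ∧ v ∉ I1 := fun v hv => by simpa using s2 hv
  have mS1 : ∀ v, v ∈ S1 → ((v ≠ u1 ∧ v ≠ y1) ∧ v ∉ I1) ∧ v ∉ I2 := fun v hv => by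
    simpa [hS1] using hv
  have m3 : ∀ v, v ∈ I3 → v ∈ S1 ∧ v ≠ u2 ∧ v ≠ y2 := fun v hv => by simpa using s3 hv
  have m4 : ∀ v, v ∈ I4 → (v ∈ S1 ∧ v ≠ u2 ∧ v ≠ y2) ∧ v ∉ I3 := fun v hv => by
    simpa using s4 hv
  have mS2 : ∀ v, v ∈ S2 → ((v ∈ S1 ∧ v ≠ u2 ∧ v ≠ y2) ∧ v ∉ I3) ∧ v ∉ I4 := fun v hv => by
    simpa [hS2] using hv
  have m5 : ∀ v, v ∈ I5 → v ∈ S2 := fun v hv => s5 hv
  have hu' := mS2 u hu.1
  have ha' := mS2 a ha.1
  have hb' := mS2 b hb.1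
  have hu'' := mS1 u hu'.1.1.1
  have ha'' := mS1 a ha'.1.1.1
  have hb'' := mS1 b hb'.1.1.1
  have hu2' := mS1 u2 hu2
  have hy2' := mS1 y2 hy2
  have hu5 := hu.2
  have ha5 := ha.2
  have hb5 := hb.2
  apply of_sets G ![I1, I2, I3, I4, I5, {a, y1}, {b, y2}, {u, u1, u2}]
  · exact disj I1 I2 I3 I4 I5 S1 S2 u1 y1 u2 y2 u a b n12 n22 nab hua hub m1 m2 mS1 m3 m4 mS2 m5
      hu.1 ha.1 hb.1 hu2 hy2 hu5 ha5 hb5
  · intro i j hij
    fin_cases i <;> fin_cases j <;> simp only [Fin.lt_def] at hij <;> try omega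
    all_goals simp only [Fin.zero_eta, Fin.mk_one, Fin.reduceFinMk, Matrix.cons_val_zero,
      Matrix.cons_val_one, Matrix.cons_val]
    · exact D _ _ d1 _ w2 hw2 (s2 hw2)
    · exact D _ _ d1 _ w3 hw3 (s3 hw3).1.1
    · exact D _ _ d1 _ w4 hw4 (s4 hw4).1.1.1
    · exact D _ _ d1 _ w5 hw5 (s5 hw5).1.1.1.1
    · exact D _ _ d1 _ a (by simp) ha.1.1.1.1.1
    · exact D _ _ d1 _ b (by simp) hb.1.1.1.1.1
    · exact D _ _ d1 _ u (by simp) hu.1.1.1.1.1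
    · exact D _ _ d2 _ w3 hw3 (s3 hw3).1
    · exact D _ _ d2 _ w4 hw4 (s4 hw4).1.1
    · exact D _ _ d2 _ w5 hw5 (s5 hw5).1.1.1
    · exact D _ _ d2 _ a (by simp) ha.1.1.1.1
    · exact D _ _ d2 _ b (by simp) hb.1.1.1.1
    · exact D _ _ d2 _ u (by simp) hu.1.1.1.1
    · exact D _ _ d3 _ w4 hw4 (s4 hw4)
    · exact D _ _ d3 _ w5 hw5 (s5 hw5).1
    · exact D _ _ d3 _ a (by simp) ha.1.1
    · exact D _ _ d3 _ b (by simp) hb.1.1
    · exact D _ _ d3 _ u (by simp) hu.1.1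
    · exact D _ _ d4 _ w5 hw5 (s5 hw5)
    · exact D _ _ d4 _ a (by simp) ha.1
    · exact D _ _ d4 _ b (by simp) hb.1
    · exact D _ _ d4 _ u (by simp) hu.1
    · exact D _ _ d5 _ a (by simp) ha
    · exact D _ _ d5 _ b (by simp) hb
    · exact D _ _ d5 _ u (by simp) hu
    · exact ⟨a, by simp, b, by simp, hab⟩
    · exact ⟨y1, by simp, u1, by simp, e1.symm⟩
    · exact ⟨y2, by simp, u2, by simp, e2.symm⟩

/-- The negation of the preceding statement: For all integers 2 ≤ a ≤ b ≤ c ≤ d ≤ e there is a finite graph with clique number a, chromatic number b, Grundy number c, achromatic number d and pseudoachromatic number e. -/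
theorem result :
    ¬ (∀ a b c d e : ℕ, 2 ≤ a → a ≤ b → b ≤ c → c ≤ d → d ≤ e →
  ∃ n : ℕ, ∃ G : SimpleGraph (Fin n),
    ((∃ s : Finset (Fin n), G.IsNClique a s) ∧ ∀ s : Finset (Fin n), ¬ G.IsNClique (a + 1) s) ∧
    G.chromaticNumber = (b : ℕ∞) ∧
    ((∃ f : Fin n → Fin c, Function.Surjective f ∧ (∀ u v, G.Adj u v → f u ≠ f v) ∧
        ∀ v, ∀ j : Fin c, j < f v → ∃ u, G.Adj v u ∧ f u = j) ∧
      ∀ k : ℕ, c < k → ¬ ∃ f : Fin n → Fin k, Function.Surjective f ∧ (∀ u v, G.Adj u v → f u ≠ f v) ∧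
        ∀ v, ∀ j : Fin k, j < f v → ∃ u, G.Adj v u ∧ f u = j) ∧
    ((∃ f : Fin n → Fin d, Function.Surjective f ∧ (∀ u v, G.Adj u v → f u ≠ f v) ∧
        ∀ i j : Fin d, i ≠ j → ∃ u v, G.Adj u v ∧ f u = i ∧ f v = j) ∧
      ∀ k : ℕ, d < k → ¬ ∃ f : Fin n → Fin k, Function.Surjective f ∧ (∀ u v, G.Adj u v → f u ≠ f v) ∧
        ∀ i j : Fin k, i ≠ j → ∃ u v, G.Adj u v ∧ f u = i ∧ f v = j) ∧
    ((∃ f : Fin n → Fin e, Function.Surjective f ∧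
        ∀ i j : Fin e, i ≠ j → ∃ u v, G.Adj u v ∧ f u = i ∧ f v = j) ∧
      ∀ k : ℕ, e < k → ¬ ∃ f : Fin n → Fin k, Function.Surjective f ∧
        ∀ i j : Fin k, i ≠ j → ∃ u v, G.Adj u v ∧ f u = i ∧ f v = j)) := by
  intro hall
  obtain ⟨n, G, ⟨-, hω⟩, hχ, -, -, -, hψ⟩ :=
    hall 2 7 7 7 7 (by norm_num) (by norm_num) (by norm_num) (by norm_num) (by norm_num)
  apply hψ 8 (by norm_num)
  apply main G
  · intro a b c h1 h2 h3
    apply hω {a, b, c}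
    rw [SimpleGraph.is3Clique_triple_iff]
    exact ⟨h1, h2, h3⟩
  · rintro ⟨c, h1, h2⟩
    have hc : G.Colorable 6 := ⟨SimpleGraph.Coloring.mk (fun v => ⟨c v, h1 v trivial⟩) (by
      intro u v huv e
      exact h2 u trivial v trivial huv (congrArg Fin.val e))⟩
    have := hc.chromaticNumber_le
    rw [hχ] at this
    have h3 : (7 : ℕ) ≤ 6 := by exact_mod_cast this
    omega

end Pool.Agent.S09896
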