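import Pool.Statements.S09903
import Pool.Agent.H7.Crit4

set_option autoImplicit false
open Pool Pool.MP_87579d_co

namespace Pool.Agent.S09903

open Pool.Agent.H7.Crit

/-- For every N there is a tree with at least N vertices that has no nonrepetitive 3-colouring and has a nonrepetitive 4-colouring, while every proper connected subtree has a nonrepetitive 3-colouring. -/
theorem result :
    ∀ N : ℕ, ∃ m : ℕ, N ≤ m ∧ ∃ G : SimpleGraph (Fin m), G.IsTree ∧
      (¬ ∃ c : Fin m → Fin 3, ∀ (u v : Fin m) (p : G.Walk u v), p.IsPath →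
          ∀ n : ℕ, 0 < n → p.support.length = 2 * n →
            (p.support.map c).take n ≠ (p.support.map c).drop n) ∧
      (∃ c : Fin m → Fin 4, ∀ (u v : Fin m) (p : G.Walk u v), p.IsPath →
          ∀ n : ℕ, 0 < n → p.support.length = 2 * n →
            (p.support.map c).take n ≠ (p.support.map c).drop n) ∧
      ∀ H : G.Subgraph, H.Connected → H ≠ ⊤ →
        ∃ c : H.verts → Fin 3, ∀ (u v : H.verts) (p : H.coe.Walk u v), p.IsPath →
          ∀ n : ℕ, 0 < n → p.support.length = 2 * n →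
            (p.support.map c).take n ≠ (p.support.map c).drop n := by
  classical
  intro N
  obtain ⟨W, E, hw, hb, hm⟩ := exists_min N
  -- vertex set
  have hfin : {u : VV | ∃ v, RE W E u v}.Finite := by
    refine (E.finite_toSet.biUnion (t := fun e : Sym2 VV => {x | x ∈ e}) fun e _ => ?_).subset ?_
    · exact (e.toFinset.finite_toSet).subset fun x hx => by simpa using hx
    · rintro u ⟨v, h⟩
      exact Set.mem_biUnion (show s(u, v) ∈ (E : Set (Sym2 VV)) from h.2) (Sym2.mem_mk_left u v)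
  set S := hfin.toFinset with hS
  have memS : ∀ u, u ∈ S ↔ ∃ v, RE W E u v := fun u => by simp [hS]
  let φ : Fin S.card → VV := fun a => (S.equivFin.symm a).1
  have φi : Function.Injective φ := fun a b h => S.equivFin.symm.injective (Subtype.ext h)
  have φm : ∀ a, φ a ∈ S := fun a => (S.equivFin.symm a).2
  have φs : ∀ u ∈ S, ∃ a, φ a = u := fun u hu => ⟨S.equivFin ⟨u, hu⟩, by simp [φ]⟩
  let G : SimpleGraph (Fin S.card) :=
    { Adj := fun a b => RE W E (φ a) (φ b)
      symm := ⟨fun a b h => h.symm⟩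
      loopless := ⟨fun a h => h.1.rank rfl⟩ }
  have GA : ∀ a b, G.Adj a b ↔ RE W E (φ a) (φ b) := fun _ _ => Iff.rfl
  have bothS : ∀ u v, RE W E u v → u ∈ S ∧ v ∈ S := fun u v h =>
    ⟨(memS u).2 ⟨v, h⟩, (memS v).2 ⟨u, h.symm⟩⟩
  obtain ⟨u0, u1, h0⟩ : ∃ u v, RE W E u v := by
    by_contra hn
    exact hb ⟨fun _ => 0, fun n hn' f h1 _ _ => hn ⟨_, _, h1 0 (by omega)⟩⟩
  obtain ⟨a0, rfl⟩ := φs u0 (bothS _ _ h0).1
  have ψ : ∃ ψ : VV → Fin S.card, ∀ u ∈ S, φ (ψ u) = u := by
    refine ⟨fun u => if h : u ∈ S then (φs u h).choose else a0, fun u hu => ?_⟩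
    simp only [hu, dif_pos]
    exact (φs u hu).choose_spec
  obtain ⟨ψ, hψ⟩ := ψ
  have nc : ¬ ∃ c : Fin S.card → Fin 3, NR G.Adj c := by
    rintro ⟨c, hc⟩
    refine hb ⟨fun u => c (ψ u), hc.pull (· ∈ S) ψ bothS (fun u v h => ?_) (fun u v a b h => ?_)
      (fun _ _ _ _ h => h)⟩
    · rw [GA, hψ u (bothS _ _ h).1, hψ v (bothS _ _ h).2]; exact h
    · rw [← hψ u a, h, hψ v b]
  have er : ∀ a b, G.Adj a b → ∃ c : VV → Fin 3, ∀ {V' C' : Type} {R' : V' → V' → Prop} {c' : V' → C'}
      (T : V' → Prop) (g : V' → Fin S.card), (∀ u v, R' u v → T u ∧ T v) →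
      (∀ u v, R' u v → G.Adj (g u) (g v) ∧ s(g u, g v) ≠ s(a, b)) →
      (∀ u v, T u → T v → g u = g v → u = v) →
      (∀ u v, T u → T v → c' u = c' v → c (φ (g u)) = c (φ (g v))) → NR R' c' := by
    intro a b h
    obtain ⟨c, hc⟩ := hm _ h.2
    refine ⟨c, fun T g h1 h2 h3 h4 => hc.pull T (fun u => φ (g u)) h1 (fun u v h => ?_)
      (fun u v a b h => h3 u v a b (φi h)) h4⟩
    refine ⟨(h2 u v h).1.1, Finset.mem_erase.mpr ⟨fun e => (h2 u v h).2 ?_, (h2 u v h).1.2⟩⟩
    rw [Sym2.eq_iff] at e ⊢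
    rcases e with e | e
    · exact Or.inl ⟨φi e.1, φi e.2⟩
    · exact Or.inr ⟨φi e.1, φi e.2⟩
  have nb : ∀ a, ∃ b, G.Adj a b := by
    intro a
    obtain ⟨v, hv⟩ := (memS _).1 (φm a)
    obtain ⟨b, rfl⟩ := φs v (bothS _ _ hv).2
    exact ⟨b, hv⟩
  have conn : G.Connected := by
    refine (G.connected_iff_exists_forall_reachable).2 ⟨a0, fun x => ?_⟩
    by_contra hx
    obtain ⟨b0, hb0⟩ := nb a0
    obtain ⟨y, hy⟩ := nb x
    obtain ⟨c1, h1⟩ := er x y hy
    obtain ⟨c2, h2⟩ := er a0 b0 hb0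
    refine nc ⟨fun a => if G.Reachable a0 a then c1 (φ a) else c2 (φ a), fun n hn f f1 f2 H => ?_⟩
    have hr : ∀ t < 2 * n, (G.Reachable a0 (f t) ↔ G.Reachable a0 (f 0)) := by
      intro t ht
      induction t with
      | zero => rfl
      | succ t ih =>
        rw [← ih (by omega)]
        exact ⟨fun r => r.trans (f1 t ht).symm.reachable, fun r => r.trans (f1 t ht).reachable⟩
    by_cases r : G.Reachable a0 (f 0)
    · refine h1 (R' := fun u v => G.Adj u v ∧ G.Reachable a0 u ∧ G.Reachable a0 v)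
        (c' := fun a => c1 (φ a)) (fun _ => True) id (fun _ _ _ => ⟨trivial, trivial⟩)
        (fun u v h => ⟨h.1, fun e => ?_⟩) (fun _ _ _ _ h => h) (fun _ _ _ _ h => h) n hn f
        (fun t ht => ⟨f1 t ht, (hr t (by omega)).2 r, (hr (t + 1) ht).2 r⟩) f2 fun t ht => ?_
      · rw [Sym2.eq_iff] at e
        rcases e with e | e
        · exact hx (e.1 ▸ h.2.1)
        · exact hx (e.2 ▸ h.2.2)
      · simpa [(hr t (by omega)).2 r, (hr (t + n) (by omega)).2 r] using H t ht
    · refine h2 (R' := fun u v => G.Adj u v ∧ ¬ G.Reachable a0 u ∧ ¬ G.Reachable a0 v)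
        (c' := fun a => c2 (φ a)) (fun _ => True) id (fun _ _ _ => ⟨trivial, trivial⟩)
        (fun u v h => ⟨h.1, fun e => ?_⟩) (fun _ _ _ _ h => h) (fun _ _ _ _ h => h) n hn f
        (fun t ht => ⟨f1 t ht, fun q => r ((hr t (by omega)).1 q), fun q => r ((hr (t + 1) ht).1 q)⟩)
        f2 fun t ht => ?_
      · rw [Sym2.eq_iff] at e
        rcases e with e | e
        · exact h.2.1 (by rw [show u = a0 from e.1])
        · exact h.2.2 (by rw [show v = a0 from e.2])
      · have q1 : ¬ G.Reachable a0 (f t) := fun q => r ((hr t (by omega)).1 q)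
        have q2 : ¬ G.Reachable a0 (f (t + n)) := fun q => r ((hr (t + n) (by omega)).1 q)
        simpa [q1, q2] using H t ht
  refine ⟨S.card, ?_, G, ⟨conn, acyclic φ φi fun a b h => h.1⟩, fun ⟨c, hc⟩ => nc ⟨c, nr_of_wn hc⟩,
    ?_, ?_⟩
  · by_contra hN
    obtain ⟨x, -, hx⟩ := Finset.univ.exists_min_image (fun a => (φ a).1) ⟨a0, Finset.mem_univ _⟩
    have wl : ∀ a b (p : G.Walk a b), (φ b).1 ≤ (φ a).1 + p.length := by
      intro a b p
      induction p with
      | nil => simp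
      | cons h p ih =>
        have := h.1.near.1
        rw [SimpleGraph.Walk.length_cons]; omega
    have up : ∀ a, (φ a).1 ≤ (φ x).1 + N := fun a => by
      refine (conn.preconnected x a).elim_path fun p => ?_
      have := wl _ _ p.1
      have := p.2.length_lt
      rw [Fintype.card_fin] at this
      omega
    obtain ⟨j, hj⟩ := hw (φ x).1
    have lo : ∀ a, (φ x).1 ≤ (φ a).1 := fun a => hx a (Finset.mem_univ _)
    have dn : ∀ a b, Dn W (φ a) (φ b) → Dn w (j + 1 + ((φ a).1 - (φ x).1), (φ a).2)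
        (j + 1 + ((φ b).1 - (φ x).1), (φ b).2) := by
      rintro a b ⟨p1, p2, p3⟩
      refine ⟨by rw [p1], ?_, p3⟩
      have := lo a; have := up a
      have e1 := hj ((φ a).1 - (φ x).1) (by omega)
      have e2 := hj ((φ a).1 - (φ x).1 + 2) (by omega)
      rw [show (φ x).1 + ((φ a).1 - (φ x).1) = (φ a).1 by omega] at e1
      rw [show (φ x).1 + ((φ a).1 - (φ x).1 + 2) = (φ a).1 + 2 by omega] at e2
      show w (j + 1 + ((φ a).1 - (φ x).1)) = w (j + 1 + ((φ a).1 - (φ x).1 + 2))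
      rw [← e1, ← e2, p2]
    have rt : ∀ a b, Rt (φ a) (φ b) → Rt (j + 1 + ((φ a).1 - (φ x).1), (φ a).2)
        (j + 1 + ((φ b).1 - (φ x).1), (φ b).2) := by
      rintro a b ⟨p1, p2, p3⟩
      refine ⟨p1, p2, ?_⟩
      have := lo a
      show j + 1 + ((φ b).1 - (φ x).1) = j + 1 + ((φ a).1 - (φ x).1) + 1
      omega
    refine nc ⟨fun a => ⟨col (j + 1 + ((φ a).1 - (φ x).1), (φ a).2), Nat.mod_lt _ (by norm_num)⟩,
      nr_w.pull (fun _ => True) (fun a => (j + 1 + ((φ a).1 - (φ x).1), (φ a).2))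
        (fun _ _ _ => ⟨trivial, trivial⟩) (fun a b h => ?_) (fun a b _ _ h => φi ?_)
        (fun _ _ _ _ h => congrArg Fin.val h)⟩
    · rcases h.1 with q | q | q | q
      · exact Or.inl (rt _ _ q)
      · exact Or.inr (Or.inl (rt _ _ q))
      · exact Or.inr (Or.inr (Or.inl (dn _ _ q)))
      · exact Or.inr (Or.inr (Or.inr (dn _ _ q)))
    · have := lo a; have := lo b
      simp only [Prod.mk.injEq] at h
      exact Prod.ext (by omega) h.2
  · obtain ⟨b0, hb0⟩ := nb a0
    obtain ⟨c, h⟩ := er a0 b0 hb0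
    refine ⟨fun a => if a = a0 then 3 else (c (φ a)).castSucc, wn_of_nr fun n hn f f1 f2 H => ?_⟩
    have ne3 : ∀ z : Fin 3, z.castSucc ≠ (3 : Fin 4) := by decide
    have hr : ∀ t < 2 * n, f t ≠ a0 := by
      have key : ∀ t < n, f t ≠ a0 ∧ f (t + n) ≠ a0 := by
        intro t ht
        have := H t ht
        by_cases q1 : f t = a0 <;> by_cases q2 : f (t + n) = a0
        · have := f2 t (t + n) (by omega) (by omega) (q1.trans q2.symm); omega
        · simp only [q1, q2, if_true, if_false] at this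
          exact absurd this.symm (ne3 _)
        · simp only [q1, q2, if_true, if_false] at this
          exact absurd this (ne3 _)
        · exact ⟨q1, q2⟩
      intro t ht
      by_cases q : t < n
      · exact (key t q).1
      · have := (key (t - n) (by omega)).2
        rwa [show t - n + n = t by omega] at this
    refine h (R' := fun u v => G.Adj u v ∧ u ≠ a0 ∧ v ≠ a0)
        (c' := fun a => c (φ a)) (fun _ => True) id (fun _ _ _ => ⟨trivial, trivial⟩)
        (fun u v h => ⟨h.1, fun e => ?_⟩) (fun _ _ _ _ h => h) (fun _ _ _ _ h => h) n hn f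
        (fun t ht => ⟨f1 t ht, hr t (by omega), hr (t + 1) ht⟩) f2 fun t ht => ?_
    · rw [Sym2.eq_iff] at e
      rcases e with e | e
      · exact h.2.1 e.1
      · exact h.2.2 e.2
    · have := H t ht
      simp only [hr t (by omega), hr (t + n) (by omega), if_false] at this
      exact Fin.castSucc_injective _ this
  · intro H _ hH
    obtain ⟨a, b, hab, hn⟩ : ∃ a b, G.Adj a b ∧ ¬ H.Adj a b := by
      by_contra hc
      push Not at hc
      refine hH (SimpleGraph.Subgraph.ext ?_ ?_)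
      · refine Set.eq_univ_of_forall fun a => ?_
        obtain ⟨b, hb⟩ := nb a
        exact (hc a b hb).fst_mem
      · ext a b
        exact ⟨fun h => h.adj_sub, hc a b⟩
    obtain ⟨c, h⟩ := er a b hab
    refine ⟨fun u => c (φ u.1), wn_of_nr (h (fun _ => True) Subtype.val (fun _ _ _ => ⟨trivial, trivial⟩)
      (fun u v q => ⟨SimpleGraph.Subgraph.Adj.adj_sub q, fun e => hn ?_⟩)
      (fun _ _ _ _ q => Subtype.ext q) (fun _ _ _ _ q => q))⟩
    have q' : H.Adj u.1 v.1 := q
    rw [Sym2.eq_iff] at e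
    rcases e with e | e
    · rw [← e.1, ← e.2]; exact q'
    · rw [← e.1, ← e.2]; exact q'.symm

end Pool.Agent.S09903
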