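import Pool.Statements.S09922
import Pool.Agent.H56.PermCount

set_option autoImplicit false
open Classical
open Pool Pool.MP_880652_co

namespace Pool.Agent.S09922

def rel : List (ℕ × ℕ) := [(0,3),(1,3),(0,4),(2,4),(1,5),(2,5),(0,6),(1,6),(2,6),(3,6)]

def P7 : Type := Fin 7

instance : Fintype P7 := inferInstanceAs (Fintype (Fin 7))

def lt7 (a b : Fin 7) : Bool := decide ((a.val, b.val) ∈ rel)

instance : PartialOrder P7 where
  le a b := a = b ∨ lt7 a b = true
  lt a b := lt7 a b = true
  le_refl a := Or.inl rfl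
  le_trans := by
    show ∀ a b c : Fin 7, (a = b ∨ lt7 a b = true) → (b = c ∨ lt7 b c = true) → (a = c ∨ lt7 a c = true)
    decide
  le_antisymm := by
    show ∀ a b : Fin 7, (a = b ∨ lt7 a b = true) → (b = a ∨ lt7 b a = true) → a = b
    decide
  lt_iff_le_not_ge := by
    show ∀ a b : Fin 7, lt7 a b = true ↔ (a = b ∨ lt7 a b = true) ∧ ¬ (b = a ∨ lt7 b a = true)
    decide

def cnt (l : List ℕ) : ℕ := rel.countP (fun p => decide (l.getD p.1 0 < l.getD p.2 0))

open Pool.Agent.H56.PermCount in
theorem inner (σ : Equiv.Perm (Fin 7)) :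
    (Finset.univ.filter (fun p : Fin 7 × Fin 7 => lt7 p.1 p.2 = true ∧ σ p.1 < σ p.2)).card
      = cnt (toL σ) := by
  have h : (Finset.univ.filter (fun p : Fin 7 × Fin 7 => lt7 p.1 p.2 = true ∧ σ p.1 < σ p.2))
      = (({(0,3),(1,3),(0,4),(2,4),(1,5),(2,5),(0,6),(1,6),(2,6),(3,6)} : Finset (Fin 7 × Fin 7)).filter
        (fun p => σ p.1 < σ p.2)) := by
    rw [← Finset.filter_filter]
    congr 1
    decide
  rw [h, Finset.card_filter]
  have e0 := toL_getD σ 0
  have e1 := toL_getD σ 1
  have e2 := toL_getD σ 2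
  have e3 := toL_getD σ 3
  have e4 := toL_getD σ 4
  have e5 := toL_getD σ 5
  have e6 := toL_getD σ 6
  simp only [Fin.val_zero, Fin.val_one, Fin.val_two] at e0 e1 e2
  change (toL σ).getD 3 0 = _ at e3
  change (toL σ).getD 4 0 = _ at e4
  change (toL σ).getD 5 0 = _ at e5
  change (toL σ).getD 6 0 = _ at e6
  rw [Finset.sum_insert (by decide), Finset.sum_insert (by decide), Finset.sum_insert (by decide),
    Finset.sum_insert (by decide), Finset.sum_insert (by decide), Finset.sum_insert (by decide),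
    Finset.sum_insert (by decide), Finset.sum_insert (by decide), Finset.sum_insert (by decide),
    Finset.sum_singleton]
  simp only [cnt, rel, List.countP_cons, List.countP_nil, e0, e1, e2, e3, e4, e5, e6,
    decide_eq_true_eq, Fin.lt_def]
  omega

open Pool.Agent.H56.PermCount in
theorem count (m : ℕ) (hm : m = 7) (i : ℕ) (inst : Fintype (P7 ≃ Fin m))
    (d1 : ∀ σ : P7 ≃ Fin m, DecidablePred (fun p : P7 × P7 => p.1 < p.2 ∧ σ p.1 < σ p.2))
    (d2 : DecidablePred (fun σ : P7 ≃ Fin m =>
      (@Finset.filter _ (fun p : P7 × P7 => p.1 < p.2 ∧ σ p.1 < σ p.2) (d1 σ) Finset.univ).card = i)) :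
    (@Finset.filter _ (fun σ : P7 ≃ Fin m =>
      (@Finset.filter _ (fun p : P7 × P7 => p.1 < p.2 ∧ σ p.1 < σ p.2) (d1 σ) Finset.univ).card = i) d2
        (@Finset.univ _ inst)).card
      = ((List.range 7).permutations').countP (fun l => decide (cnt l = i)) := by
  subst hm
  rw [← card_perm]
  have key : ∀ σ : P7 ≃ Fin 7,
      (@Finset.filter _ (fun p : P7 × P7 => p.1 < p.2 ∧ σ p.1 < σ p.2) (d1 σ) Finset.univ).card
        = cnt (toL (n := 7) σ) := by
    intro σ
    refine Eq.trans ?_ (inner σ)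
    apply congrArg Finset.card
    ext p
    rw [@Finset.mem_filter _ _ (d1 σ)]
    refine Iff.trans ?_ (@Finset.mem_filter _ _ (_) _ _).symm
    exact ⟨fun h => ⟨Finset.mem_univ _, h.2⟩, fun h => ⟨Finset.mem_univ _, h.2⟩⟩
  apply Finset.card_bij (fun σ _ => (σ : Equiv.Perm (Fin 7)))
  · intro σ hσ
    have h := (@Finset.mem_filter _ _ d2 _ _).1 hσ
    refine Finset.mem_filter.2 ⟨Finset.mem_univ _, ?_⟩
    exact decide_eq_true ((key σ).symm.trans h.2)
  · intro a _ b _ h
    exact h
  · intro σ hσ
    refine ⟨σ, ?_, rfl⟩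
    have h := (Finset.mem_filter.1 hσ).2
    refine (@Finset.mem_filter _ _ d2 _ _).2 ⟨@Finset.mem_univ _ inst _, ?_⟩
    exact (key σ).trans (of_decide_eq_true h)

theorem c4 : ((List.range 7).permutations').countP (fun l => decide (cnt l = 4)) = 792 := by
  decide +kernel
theorem c5 : ((List.range 7).permutations').countP (fun l => decide (cnt l = 5)) = 764 := by
  decide +kernel
theorem c6 : ((List.range 7).permutations').countP (fun l => decide (cnt l = 6)) = 792 := by
  decide +kernel

theorem kc : (Finset.univ.filter (fun p : Fin 7 × Fin 7 => lt7 p.1 p.2 = true)).card = 10 := by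
  decide

theorem kcard (d : DecidablePred (fun p : P7 × P7 => p.1 < p.2)) :
    (@Finset.filter _ (fun p : P7 × P7 => p.1 < p.2) d Finset.univ).card = 10 := by
  refine Eq.trans ?_ kc
  apply congrArg Finset.card
  ext p
  rw [@Finset.mem_filter _ _ d]
  refine Iff.trans ?_ (@Finset.mem_filter _ _ (_) _ _).symm
  exact ⟨fun h => ⟨Finset.mem_univ _, h.2⟩, fun h => ⟨Finset.mem_univ _, h.2⟩⟩


/-- The negation of the preceding statement: For every finite poset with k comparable pairs, let a_i count linear orders of its points agreeing with exactly i comparable pairs; then a_0,…,a_k increases weakly up to some index and decreases weakly after it. -/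
theorem result :
    ¬ (∀ (α : Type) [Fintype α] [PartialOrder α] (a : ℕ → ℕ),
      (∀ i : ℕ, a i =
        (Finset.univ.filter (fun σ : α ≃ Fin (Fintype.card α) =>
          (Finset.univ.filter (fun p : α × α => p.1 < p.2 ∧ σ p.1 < σ p.2)).card = i)).card) →
      ∃ m : ℕ,
        (∀ i j : ℕ, i ≤ j → j ≤ m → a i ≤ a j) ∧
        (∀ i j : ℕ, m ≤ i → i ≤ j →
          j ≤ (Finset.univ.filter (fun p : α × α => p.1 < p.2)).card → a j ≤ a i)) := by
  intro H
  have hc : Fintype.card P7 = 7 := Fintype.card_fin 7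
  obtain ⟨m, h1, h2⟩ := H P7 _ (fun _ => rfl)
  simp only [count _ hc, kcard] at h1 h2
  by_cases hm : 5 ≤ m
  · have := h1 4 5 (by norm_num) hm
    rw [c4, c5] at this
    omega
  · have := h2 5 6 (by omega) (by norm_num) (by norm_num)
    rw [c5, c6] at this
    omega

end Pool.Agent.S09922
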