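import Pool.Statements.S09946
import Pool.Agent.H15.Girth

set_option autoImplicit false
open Pool Pool.MP_8888ff_co

namespace Pool.Agent.S09946

/-- The negation of the preceding statement: For every graph family whose members all contain a cycle and one is bipartite, some c>0 ensures every graph with min degree δ≥1 and max degree Δ has a spanning F-free subgraph of min degree at least c·ex(K_Δ,F)·δ/Δ². -/
theorem result :
    ¬ (∀ F : Set (Σ k : ℕ, SimpleGraph (Fin k)),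
      (∀ p ∈ F, ¬ p.2.IsAcyclic) →
      (∃ p ∈ F, p.2.Colorable 2) →
      ∃ c : ℝ, 0 < c ∧
        ∀ δ Δ : ℕ, 1 ≤ δ → δ ≤ Δ →
          ∀ n : ℕ, ∀ G : SimpleGraph (Fin n),
            (∀ v, δ ≤ (G.neighborSet v).ncard) →
            (∃ v, (G.neighborSet v).ncard = δ) →
            (∀ v, (G.neighborSet v).ncard ≤ Δ) →
            (∃ v, (G.neighborSet v).ncard = Δ) →
            ∀ T : SimpleGraph (Fin Δ),
              (∀ p ∈ F, ¬ p.2.IsContained T) →
              ∃ H : SimpleGraph (Fin n), H ≤ G ∧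
                (∀ p ∈ F, ¬ p.2.IsContained H) ∧
                ∀ v, c * (T.edgeSet.ncard : ℝ) * (δ : ℝ) / (Δ : ℝ) ^ 2
                  ≤ ((H.neighborSet v).ncard : ℝ)) := by
  classical
  intro h
  have hex : ∀ k L : ℕ, ∃ n, L + 1 < n ∧ ∃ T : SimpleGraph (Fin n), Pool.Agent.H15.Girth.Loc (L + 1) T ∧
      k * n ≤ T.edgeSet.ncard := fun k L => Pool.Agent.H15.Girth.exists_girth k (L + 1) (by omega)
  choose nxt hlt T hT hE using hex
  let D : ℕ → ℕ := fun k => Nat.rec 3 (fun k d => nxt k d) k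
  have hD0 : D 0 = 3 := rfl
  have hDs : ∀ k, D (k + 1) = nxt k (D k) := fun _ => rfl
  have hmono : StrictMono D := strictMono_nat_of_lt_succ (fun k => by
    rw [hDs]; have := hlt k (D k); omega)
  obtain ⟨c, hc, hh⟩ := h {p | ¬ p.2.IsAcyclic ∧ ∃ j, p.1 = D j + 1} (fun p hp => hp.1) (by
    refine ⟨⟨4, SimpleGraph.cycleGraph 4⟩, ⟨fun ha => ?_, 0, rfl⟩, ?_⟩
    · exact SimpleGraph.isAcyclic_iff_free_cycleGraph.1 ha 4 (by norm_num) (SimpleGraph.IsContained.refl _)
    · refine ⟨SimpleGraph.Coloring.mk (fun v : Fin 4 => (⟨v.val % 2, Nat.mod_lt _ (by norm_num)⟩ : Fin 2)) ?_⟩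
      decide)
  obtain ⟨k, hk⟩ := exists_nat_gt (1 / c)
  set Δ := nxt k (D k) with hΔ
  have hΔ1 : D k + 1 < Δ := hlt k (D k)
  have hdeg : ∀ v : Fin (Δ + 1), ((⊤ : SimpleGraph (Fin (Δ + 1))).neighborSet v).ncard = Δ := by
    intro v
    have : (⊤ : SimpleGraph (Fin (Δ + 1))).neighborSet v = {v}ᶜ := by
      ext w; simp [eq_comm]
    rw [this, Set.ncard_compl]
    simp
  obtain ⟨H, -, hH, hHd⟩ := hh Δ Δ (by omega) le_rfl (Δ + 1) ⊤ (fun v => (hdeg v).ge) ⟨0, hdeg 0⟩
    (fun v => (hdeg v).le) ⟨0, hdeg 0⟩ (T k (D k)) (by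
      rintro ⟨m, p⟩ ⟨hp, j, hj⟩ ⟨f⟩
      dsimp only at hp hj f
      by_cases hjk : j ≤ k
      · have h1 := hT k (D k) m (by have := hmono.monotone hjk; omega) f.toEmbedding
        exact hp (h1.anti (fun x y hxy => f.toHom.map_adj hxy))
      · have h1 := Fintype.card_le_of_embedding f.toEmbedding
        have h2 : D (k + 1) ≤ D j := hmono.monotone (show k + 1 ≤ j by omega)
        rw [hDs] at h2
        simp only [Fintype.card_fin] at h1
        omega)
  have hac : H.IsAcyclic := by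
    by_contra hna
    exact hH ⟨Δ + 1, H⟩ ⟨hna, k + 1, rfl⟩ (SimpleGraph.IsContained.refl _)
  haveI : Nontrivial (Fin (Δ + 1)) := Fin.nontrivial_iff_two_le.2 (by omega)
  obtain ⟨F, hHF, -, hF⟩ := (SimpleGraph.connected_top (V := Fin (Δ + 1))).exists_isTree_le_of_le_of_isAcyclic
    le_top hac
  obtain ⟨v, hv⟩ := hF.exists_vert_degree_one_of_nontrivial
  have h1 : (H.neighborSet v).ncard ≤ 1 := by
    rw [← SimpleGraph.card_neighborFinset_eq_degree, SimpleGraph.neighborFinset_def,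
      ← Set.ncard_eq_toFinset_card'] at hv
    exact (Set.ncard_le_ncard (fun w hw => hHF hw)).trans hv.le
  have h2 := (hHd v).trans (show ((H.neighborSet v).ncard : ℝ) ≤ 1 by exact_mod_cast h1)
  have h3 : (k : ℝ) * Δ ≤ (T k (D k)).edgeSet.ncard := by exact_mod_cast hE k (D k)
  have hΔ0 : (0 : ℝ) < Δ := by exact_mod_cast (by omega : 0 < Δ)
  rw [div_le_one (by positivity)] at h2
  rw [div_lt_iff₀ hc] at hk
  have h4 : c * ((k : ℝ) * Δ) * Δ ≤ c * (T k (D k)).edgeSet.ncard * Δ := by gcongr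
  nlinarith [mul_pos hΔ0 hΔ0]

end Pool.Agent.S09946
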