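import Pool.Statements.S09950
import Pool.Agent.H14.Beck2

set_option autoImplicit false
open Pool Pool.MP_88b929_co

namespace Pool.Agent.S09950

/-- The negation of the preceding statement: There is a constant C such that for all large N, whenever the two-colour coalition has a winning strategy in the (2:1) game on K_N for a red or white K_q, then q is at most 2 log_3 N − 2 log_3 log_3 N + C. -/
theorem result :
    ¬ (∃ C : ℝ, ∃ N₀ : ℕ, ∀ N : ℕ, N₀ ≤ N → ∀ q : ℕ,
    (∀ S : Set (Set (Fin N × Fin N) × Set (Fin N × Fin N) × Set (Fin N × Fin N)),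
      (∀ R W B : Set (Fin N × Fin N),
        ((∃ e f : Fin N × Fin N, e.1 < e.2 ∧ f.1 < f.2 ∧ e ≠ f ∧ e ∉ R ∧ e ∉ W ∧ e ∉ B ∧
            f ∉ R ∧ f ∉ W ∧ f ∉ B ∧
            ((∃ K : Finset (Fin N), K.card = q ∧
                ∀ x ∈ K, ∀ y ∈ K, x < y → (x, y) ∈ insert e R) ∨
             (∃ K : Finset (Fin N), K.card = q ∧
                ∀ x ∈ K, ∀ y ∈ K, x < y → (x, y) ∈ insert f W) ∨
             ((∃ g : Fin N × Fin N, g.1 < g.2 ∧ g ∉ R ∧ g ∉ W ∧ g ∉ B ∧ g ≠ e ∧ g ≠ f) ∧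
              ∀ g : Fin N × Fin N, g.1 < g.2 → g ∉ R → g ∉ W → g ∉ B → g ≠ e → g ≠ f →
                (insert e R, insert f W, insert g B) ∈ S))) ∨
         (∃ e : Fin N × Fin N, e.1 < e.2 ∧ e ∉ R ∧ e ∉ W ∧ e ∉ B ∧
            (∀ f : Fin N × Fin N, f.1 < f.2 → f ∉ R → f ∉ W → f ∉ B → f = e) ∧
            ((∃ K : Finset (Fin N), K.card = q ∧
                ∀ x ∈ K, ∀ y ∈ K, x < y → (x, y) ∈ insert e R) ∨
             (∃ K : Finset (Fin N), K.card = q ∧
                ∀ x ∈ K, ∀ y ∈ K, x < y → (x, y) ∈ insert e W)))) →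
        (R, W, B) ∈ S) →
      ((∅ : Set (Fin N × Fin N)), (∅ : Set (Fin N × Fin N)), (∅ : Set (Fin N × Fin N))) ∈ S) →
    (q : ℝ) ≤ 2 * Real.logb 3 (N : ℝ) - 2 * Real.logb 3 (Real.logb 3 (N : ℝ)) + C) := by
  open Pool.Agent.H14.Beck Finset in
  rintro ⟨C, N₀, H⟩
  classical
  have t1 := tendsto_pow_const_div_const_pow_of_one_lt 1 (by norm_num : (1 : ℝ) < 5 / 4)
  have t2 := tendsto_pow_const_div_const_pow_of_one_lt 11 (by norm_num : (1 : ℝ) < 5)
  have t3 := tendsto_pow_const_div_const_pow_of_one_lt 1 (by norm_num : (1 : ℝ) < 9 / 5)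
  have e1 := t1.eventually (gt_mem_nhds (by norm_num : (0 : ℝ) < 1 / 72))
  have e2 := t2.eventually (gt_mem_nhds (by norm_num : (0 : ℝ) < 1 / (24576 * 4 ^ 11)))
  have e3 := t3.eventually (gt_mem_nhds (by positivity : (0 : ℝ) < 1 / (16 * 3 ^ (C / 2))))
  obtain ⟨g, ⟨⟨g1, g2⟩, g3⟩, g4⟩ :=
    (((e1.and e2).and e3).and (Filter.eventually_ge_atTop (N₀ + 1))).exists
  obtain ⟨q, hq⟩ : ∃ q, q = 2 * (2 * g) := ⟨_, rfl⟩
  obtain ⟨M, hM⟩ : ∃ M, M = 5 ^ g := ⟨_, rfl⟩
  have hM0 : 0 < M := by rw [hM]; positivity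
  have hM1 : (3 * q) * (3 * 2 ^ (2 * g + 1)) ≤ M := by
    rw [div_lt_iff₀ (by positivity), div_pow, div_mul_div_comm, lt_div_iff₀ (by positivity)] at g1
    have : (g : ℝ) * (72 * 4 ^ g) ≤ 5 ^ g := by simpa using g1.le
    have h2 : g * (72 * 4 ^ g) ≤ 5 ^ g := by exact_mod_cast this
    rw [hq, hM, pow_succ, pow_mul]
    norm_num
    linarith
  have hM2 : 24576 * q ^ 11 ≤ M := by
    rw [div_lt_div_iff₀ (by positivity) (by positivity)] at g2
    have : (g : ℝ) ^ 11 * (24576 * 4 ^ 11) ≤ 5 ^ g := by linarith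
    have h2 : g ^ 11 * (24576 * 4 ^ 11) ≤ 5 ^ g := by exact_mod_cast this
    rw [hq, hM]
    calc 24576 * (2 * (2 * g)) ^ 11 = g ^ 11 * (24576 * 4 ^ 11) := by ring
      _ ≤ _ := h2
  obtain ⟨m, hm⟩ : ∃ m, m = q * M := ⟨_, rfl⟩
  have hqm : q ≤ m := by rw [hm]; exact Nat.le_mul_of_pos_right _ hM0
  have hvlt : ∀ p : Fin q × Fin M, p.1.val * M + p.2.val < m := by
    intro p
    have h1 : (p.1.val + 1) * M ≤ q * M := Nat.mul_le_mul_right _ p.1.2
    have := p.2.2
    rw [hm]; nlinarith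
  let v : Fin q × Fin M → Fin (4 * m) := fun p => ⟨p.1.val * M + p.2.val, by
    have := hvlt p; omega⟩
  have hmono : ∀ p p' : Fin q × Fin M, p.1 < p'.1 → v p < v p' := by
    intro p p' h
    have h1 : (p.1.val + 1) * M ≤ p'.1.val * M := Nat.mul_le_mul_right _ h
    have := p.2.2
    show p.1.val * M + p.2.val < p'.1.val * M + p'.2.val
    nlinarith
  have hv : Function.Injective v := by
    intro p p' h
    have h1 : p.1 = p'.1 := by
      rcases lt_trichotomy p.1 p'.1 with h2 | h2 | h2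
      · exact absurd h (hmono _ _ h2).ne
      · exact h2
      · exact absurd h (hmono _ _ h2).ne'
    have h2 : p.1.val * M + p.2.val = p'.1.val * M + p'.2.val := congrArg Fin.val h
    rw [h1] at h2
    exact Prod.ext h1 (Fin.ext (by omega))
  let lo : Finset (Fin (4 * m)) := univ.filter fun x => x.val < m
  have hlo : lo.card = m := by
    rw [Fin.card_filter_val_lt]; omega
  have hhi : loᶜ.card = 3 * m := by
    rw [card_compl, hlo, Fintype.card_fin]; omega
  have key := H (4 * m) (by omega) q (fun S hS => beck0 (fun e => e.1 < e.2)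
    ((lo ×ˢ lo).filter fun e => e.1 < e.2) (lo ×ˢ loᶜ) (by
      intro e he he'
      exact mem_compl.1 (mem_product.1 he).2 (mem_product.1 (mem_filter.1 he').1).2)
    (fun e he => (mem_filter.1 he).2) (by
      intro e he
      obtain ⟨h1, h2⟩ := mem_product.1 he
      simp only [lo, mem_compl, mem_filter, mem_univ, true_and] at h1 h2
      exact Fin.lt_def.2 (by omega)) (AA v) (by
      intro f e he
      obtain ⟨p, hp, rfl⟩ := mem_image.1 he
      simp only [mem_filter, mem_product, lo, mem_univ, true_and, ed]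
      exact ⟨⟨hvlt _, hvlt _⟩, hmono _ _ (mem_filter.1 hp).2⟩)
    (fun R => ∃ K : Finset (Fin (4 * m)), K.card = q ∧ ∀ x ∈ K, ∀ y ∈ K, x < y → (x, y) ∈ R) (by
      intro f R hR
      refine ⟨univ.image fun c => v (c, f c), ?_, ?_⟩
      · rw [card_image_of_injective _ (fun c c' h => congrArg Prod.fst (hv h))]; simp
      · intro x hx y hy hxy
        obtain ⟨c, -, rfl⟩ := mem_image.1 hx
        obtain ⟨c', -, rfl⟩ := mem_image.1 hy
        refine hR _ (mem_image.2 ⟨(c, c'), ?_, rfl⟩)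
        simp only [pairs, mem_filter, mem_product, mem_univ, true_and]
        rcases lt_trichotomy c c' with h | h | h
        · exact h
        · subst h; exact absurd hxy (lt_irrefl _)
        · exact absurd hxy (hmono (c', f c') (c, f c) h).not_gt) S (by
      rintro R W B ⟨e, f, a1, a2, a3, a4, a5, a6, a7, a8, a9, h | h⟩
      · exact hS R W B (Or.inl ⟨e, f, a1, a2, a3, a4, a5, a6, a7, a8, a9, Or.inl h⟩)
      · exact hS R W B (Or.inl ⟨e, f, a1, a2, a3, a4, a5, a6, a7, a8, a9, Or.inr (Or.inr h)⟩))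
    ((q * M) ^ 2) ∅ (by simp) (by
      refine (card_filter_le _ _).trans ?_
      rw [card_product, hlo, ← hm, sq]) (by
      rw [card_product, hlo, hhi, ← hm]
      nlinarith) (by
      rw [TT_empty hv]
      have : (0 : ℝ) < M := by exact_mod_cast hM0
      positivity) (init_inv hv (2 * g) hq (by omega) hM1 hM2))
  have hN : ((4 * m : ℕ) : ℝ) = 16 * g * 5 ^ g := by rw [hm, hq, hM]; push_cast; ring
  have hg0 : (0 : ℝ) < g := by exact_mod_cast (by omega : 0 < g)
  have h3N : (3 : ℝ) ≤ ((4 * m : ℕ) : ℝ) := by exact_mod_cast (by omega : 3 ≤ 4 * m)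
  have b1 : 0 ≤ Real.logb 3 (Real.logb 3 ((4 * m : ℕ) : ℝ)) := by
    apply Real.logb_nonneg (by norm_num)
    rw [Real.le_logb_iff_rpow_le (by norm_num) (by linarith)]
    simpa using h3N
  have b2 : Real.logb 3 ((4 * m : ℕ) : ℝ) < 2 * g - C / 2 := by
    rw [Real.logb_lt_iff_lt_rpow (by norm_num) (by linarith), hN, Real.rpow_sub (by norm_num),
      lt_div_iff₀ (by positivity)]
    rw [div_lt_div_iff₀ (by positivity) (by positivity), div_pow, one_mul,
      lt_div_iff₀ (by positivity)] at g3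
    have : (3 : ℝ) ^ (2 * (g : ℝ)) = 9 ^ g := by
      rw [Real.rpow_mul (by norm_num), Real.rpow_natCast]; norm_num
    rw [this]
    linarith
  have b3 : (q : ℝ) = 4 * g := by rw [hq]; push_cast; ring
  linarith

end Pool.Agent.S09950
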