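import Pool.Statements.S10003
import Pool.Agent.H60.SMe

set_option autoImplicit false
open MeasureTheory
open Pool Pool.MP_8b7b81_co

namespace Pool.Agent.S10003

/-- There is a compact convex plane set C with nonempty interior, not a closed disc, such that every finite union of isometric copies of C has boundary-length-to-area ratio at most that of C itself. -/
theorem result :
    ∃ C : Set (EuclideanSpace ℝ (Fin 2)),
      IsCompact C ∧ Convex ℝ C ∧ (interior C).Nonempty ∧
      (∀ (x : EuclideanSpace ℝ (Fin 2)) (r : ℝ), C ≠ Metric.closedBall x r) ∧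
      ∀ (n : ℕ) (f : Fin n → (EuclideanSpace ℝ (Fin 2) ≃ᵢ EuclideanSpace ℝ (Fin 2))),
        μH[1] (frontier (⋃ i, (f i) '' C)) * volume C
          ≤ μH[1] (frontier C) * volume (⋃ i, (f i) '' C) := by
  exact ⟨H60.SM.CC, H60.SM.CC_compact, H60.SM.CC_convex, H60.SM.CC_int, H60.SM.CC_ne, H60.SM.main⟩

end Pool.Agent.S10003
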