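import Pool.Statements.S10062
import Pool.Agent.H10.Unit3G

set_option autoImplicit false
open Pool Pool.MP_8d5faa_co

namespace Pool.Agent.S10062

/-- The negation of the preceding statement: For every ε>0 and all large odd q, the unitary polarity graph of PG(2,q²) (points adjacent when Σ xᵢ yᵢ^q = 0) has a set of at least (1/2−ε)q⁴ points containing no triangle. -/
theorem result :
    ¬ (∀ ε : ℝ, 0 < ε → ∃ N : ℕ, ∀ (q : ℕ) (F : Type) [Field F] [Fintype F],
      Odd q → N ≤ q → Fintype.card F = q ^ 2 →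
      ∃ S : Finset (Projectivization F (Fin 3 → F)),
        (1 / 2 - ε) * (q : ℝ) ^ 4 ≤ (S.card : ℝ) ∧
        ∀ x ∈ S, ∀ y ∈ S, ∀ z ∈ S, x ≠ y → y ≠ z → x ≠ z →
          ¬ ((∑ i : Fin 3, x.rep i * (y.rep i) ^ q) = 0 ∧
             (∑ i : Fin 3, y.rep i * (z.rep i) ^ q) = 0 ∧
             (∑ i : Fin 3, x.rep i * (z.rep i) ^ q) = 0)) := by
  open Classical Finset H10.Unit3 in
  intro H
  obtain ⟨N, hN⟩ := H (1 / 200) (by norm_num)
  have : Fact (Nat.Prime 7) := ⟨by norm_num⟩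
  obtain ⟨k, ek⟩ : ∃ k, k = N + 9 := ⟨_, rfl⟩
  let F := GaloisField 7 (2 * k)
  have := Fintype.ofFinite F
  have cF : Fintype.card F = (7 ^ k) ^ 2 := by
    rw [← Nat.card_eq_fintype_card, GaloisField.card 7 _ (by omega), ← pow_mul, mul_comm]
  have q1 : 10 ^ 7 ≤ 7 ^ k := le_trans (by norm_num) (Nat.pow_le_pow_right (by norm_num)
    (show 9 ≤ k by omega))
  obtain ⟨S, h1, h2⟩ := hN (7 ^ k) F (Odd.pow (by decide))
    (le_trans (by omega) (Nat.lt_pow_self (by norm_num : 1 < 7)).le) cF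
  have o : Ok (iterateFrobenius F 7 k) (7 ^ k) := ⟨fun x => rfl, cF, by omega⟩
  generalize iterateFrobenius F 7 k = σ at o
  generalize 7 ^ k = q at *
  let A : Finset (V F) := {v | ∃ hv : v ≠ 0, Projectivization.mk F v hv ∈ S}
  have hA : ∀ v, v ∈ A ↔ ∃ hv : v ≠ 0, Projectivization.mk F v hv ∈ S := fun v => by simp [A]
  have mk : ∀ (v : V F) (c : F) (h1 : c • v ≠ 0) (h2 : v ≠ 0),
      Projectivization.mk F (c • v) h1 = Projectivization.mk F v h2 := fun v c h1 h2 =>
    (Projectivization.mk_eq_mk_iff' F _ _ h1 h2).mpr ⟨c, rfl⟩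
  have b := bound o A (fun v c c0 => by
    rw [hA, hA]
    exact ⟨fun ⟨a, b⟩ => ⟨right_ne_zero_of_smul a, mk v c a _ ▸ b⟩,
      fun ⟨a, b⟩ => ⟨smul_ne_zero c0 a, (mk v c _ a).symm ▸ b⟩⟩) (fun g hg hh => by
    have hg' := (mem_filter.mp hg).2
    have ex : ∀ i, g i ∈ A := fun i => by fin_cases i; exacts [hh.1, hh.2.1, hh.2.2]
    simp only [hA] at ex
    choose n m using ex
    have ne : ∀ i j, i ≠ j → Projectivization.mk F (g i) (n i) ≠
        Projectivization.mk F (g j) (n j) := fun i j ij e => by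
      obtain ⟨c, hc⟩ := (Projectivization.mk_eq_mk_iff' F _ _ _ _).mp e
      have a := h_smul (σ := σ) c 1 (g j) (g j)
      rw [hc, one_smul, hg', hg', if_neg ij, if_pos rfl, map_one, mul_one, mul_one] at a
      exact n i (by rw [← hc, ← a, zero_smul])
    have og : ∀ i j, i ≠ j → ∑ l, (Projectivization.mk F (g i) (n i)).rep l *
        (Projectivization.mk F (g j) (n j)).rep l ^ q = 0 := fun i j ij => by
      obtain ⟨a, ha⟩ := Projectivization.exists_smul_eq_mk_rep F (g i) (n i)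
      obtain ⟨c, hc⟩ := Projectivization.exists_smul_eq_mk_rep F (g j) (n j)
      have e := h_smul (σ := σ) a c (g i) (g j)
      rw [hg', if_neg ij, mul_zero] at e
      rw [← ha, ← hc, Fin.sum_univ_three, ← o.pw, ← o.pw, ← o.pw]
      exact e
    exact h2 _ (m 0) _ (m 1) _ (m 2) (ne _ _ (by decide)) (ne _ _ (by decide))
      (ne _ _ (by decide)) ⟨og _ _ (by decide), og _ _ (by decide), og _ _ (by decide)⟩) q1
  have c : #(S ×ˢ univ.erase (0 : F)) ≤ #A := by
    refine card_le_card_of_injOn (fun x => x.2 • x.1.rep) ?_ ?_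
    · rintro ⟨P, c⟩ hx
      simp only [coe_product, Set.mem_prod, mem_coe, mem_erase, hA] at hx ⊢
      refine ⟨smul_ne_zero hx.2.1 P.rep_nonzero, ?_⟩
      rw [mk _ _ _ P.rep_nonzero, Projectivization.mk_rep]
      exact hx.1
    · rintro ⟨P, c⟩ hx ⟨P', c'⟩ hx' e
      simp only [coe_product, Set.mem_prod, mem_coe, mem_erase] at hx hx' e
      have : P = P' := by
        rw [← P.mk_rep, ← P'.mk_rep, ← mk _ c (smul_ne_zero hx.2.1 P.rep_nonzero),
          ← mk _ c' (smul_ne_zero hx'.2.1 P'.rep_nonzero)]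
        simp only [e]
      subst this
      rw [smul_left_injective F P.rep_nonzero e]
  rw [card_product, card_erase_of_mem (mem_univ _), card_univ, cF] at c
  have q2 : 1 ≤ q ^ 2 := Nat.one_le_pow _ _ (by omega)
  have c' : (#S : ℝ) * (q ^ 2 - 1) ≤ #A := by exact_mod_cast c
  have q3 : (1 : ℝ) ≤ q ^ 2 := by exact_mod_cast q2
  have := mul_le_mul_of_nonneg_right h1 (sub_nonneg.mpr q3)
  linarith

end Pool.Agent.S10062
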