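import Pool.Statements.S10106

set_option autoImplicit false
open Pool Pool.MP_8f9b2f_co

namespace Pool.Agent.S10106

open Finset

section
variable {ι : Type} [DecidableEq ι]

def cnt (B : Finset ι) (x : ι → Bool) : ℕ := (B.filter (fun i => x i = true)).card

def maj (r : ℕ) (B : Finset ι) (x : ι → Bool) : Bool := decide (r < cnt B x)

def comb (m1 m2 a b : Bool) : Bool := (!m1 && !m2) || (m1 && m2 && a) || (a && b)

def fn (r : ℕ) (B1 B2 : Finset ι) (a b : ι) (x : ι → Bool) : Bool :=
  comb (maj r B1 x) (maj r B2 x) (x a) (x b)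

def shift (B1 B2 : Finset ι) (a b : ι) (d : Bool × Bool × Bool × Bool) (x : ι → Bool) :
    ι → Bool := fun i =>
  xor (x i) (if i ∈ B1 then d.1 else if i ∈ B2 then d.2.1 else if i = a then d.2.2.1
    else if i = b then d.2.2.2 else false)

theorem shift_shift (B1 B2 : Finset ι) (a b : ι) (d : Bool × Bool × Bool × Bool) (x : ι → Bool) :
    shift B1 B2 a b d (shift B1 B2 a b d x) = x := by
  funext i
  simp [shift]

theorem maj_xor (r : ℕ) (B : Finset ι) (hB : B.card = 2 * r + 1) (x y : ι → Bool) (c : Bool)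
    (h : ∀ i ∈ B, y i = xor (x i) c) : maj r B y = xor (maj r B x) c := by
  cases c
  · have : cnt B y = cnt B x := by
      unfold cnt
      congr 1
      apply filter_congr
      intro i hi
      simp [h i hi]
    simp [maj, this]
  · have h1 : cnt B y + cnt B x = 2 * r + 1 := by
      unfold cnt
      rw [← hB, ← card_filter_add_card_filter_not (s := B) (fun i => x i = true), add_comm]
      congr 2
      apply filter_congr
      intro i hi
      simp [h i hi]
    unfold maj
    by_cases h2 : r < cnt B x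
    · have : ¬ r < cnt B y := by omega
      simp [h2, this]
    · have : r < cnt B y := by omega
      simp [h2, this]

theorem fn_shift (r : ℕ) (B1 B2 : Finset ι) (a b : ι) (h1 : B1.card = 2 * r + 1)
    (h2 : B2.card = 2 * r + 1) (hd : Disjoint B1 B2) (ha1 : a ∉ B1) (ha2 : a ∉ B2)
    (hb1 : b ∉ B1) (hb2 : b ∉ B2) (hab : a ≠ b) (d : Bool × Bool × Bool × Bool) (x : ι → Bool) :
    fn r B1 B2 a b (shift B1 B2 a b d x) =
      comb (xor (maj r B1 x) d.1) (xor (maj r B2 x) d.2.1) (xor (x a) d.2.2.1)
        (xor (x b) d.2.2.2) := by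
  unfold fn
  rw [maj_xor r B1 h1 x _ d.1, maj_xor r B2 h2 x _ d.2.1]
  · simp [shift, ha1, ha2, hb1, hb2, hab.symm]
  · intro i hi
    have : i ∉ B1 := fun h => (disjoint_left.1 hd) h hi
    simp [shift, hi, this]
  · intro i hi
    simp [shift, hi]

theorem comb_count (p q s t : Bool) :
    (univ.filter (fun d : Bool × Bool × Bool × Bool =>
      comb (xor p d.1) (xor q d.2.1) (xor s d.2.2.1) (xor t d.2.2.2) = true)).card = 8 := by
  revert p q s t
  decide

theorem balanced [Fintype ι] (r : ℕ) (B1 B2 : Finset ι) (a b : ι) (h1 : B1.card = 2 * r + 1)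
    (h2 : B2.card = 2 * r + 1) (hd : Disjoint B1 B2) (ha1 : a ∉ B1) (ha2 : a ∉ B2)
    (hb1 : b ∉ B1) (hb2 : b ∉ B2) (hab : a ≠ b) :
    2 * (univ.filter (fun x => fn r B1 B2 a b x = true)).card = 2 ^ Fintype.card ι := by
  have key : ∀ d : Bool × Bool × Bool × Bool,
      (univ.filter (fun x => fn r B1 B2 a b (shift B1 B2 a b d x) = true)).card =
        (univ.filter (fun x => fn r B1 B2 a b x = true)).card := by
    intro d
    apply card_bij' (fun x _ => shift B1 B2 a b d x) (fun x _ => shift B1 B2 a b d x)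
    · intro x hx
      simpa using hx
    · intro x hx
      simpa [shift_shift] using hx
    · intro x _
      exact shift_shift _ _ _ _ _ _
    · intro x _
      exact shift_shift _ _ _ _ _ _
  have hsum : ∑ d : Bool × Bool × Bool × Bool,
      (univ.filter (fun x => fn r B1 B2 a b (shift B1 B2 a b d x) = true)).card =
      ∑ x : ι → Bool, (univ.filter (fun d : Bool × Bool × Bool × Bool =>
        fn r B1 B2 a b (shift B1 B2 a b d x) = true)).card := by
    simp only [card_filter]
    exact sum_comm
  simp only [key] at hsum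
  simp only [fn_shift r B1 B2 a b h1 h2 hd ha1 ha2 hb1 hb2 hab, comb_count] at hsum
  simp at hsum
  omega

theorem near [Fintype ι] (r : ℕ) (B1 B2 : Finset ι) (a b : ι) (x : ι → Bool) :
    ∃ y, fn r B1 B2 a b y = true ∧ hammingDist x y ≤ 2 := by
  refine ⟨fun i => if i = a ∨ i = b then true else x i, ?_, ?_⟩
  · simp [fn, comb]
  · unfold hammingDist
    calc _ ≤ ({a, b} : Finset ι).card := by
          apply card_le_card
          intro i hi
          by_contra hc
          simp at hi hc
          simp [hc] at hi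
      _ ≤ 2 := card_le_two

theorem deep [Fintype ι] (r : ℕ) (B1 B2 : Finset ι) (a b : ι) (y : ι → Bool)
    (hy : fn r B1 B2 a b y = false) : r + 1 ≤ hammingDist (fun _ => false) y := by
  have hc : ∀ B : Finset ι, cnt B y ≤ hammingDist (fun _ => false) y := by
    intro B
    unfold cnt hammingDist
    apply card_le_card
    intro i hi
    simp at hi ⊢
    exact hi.2
  by_contra hlt
  have e1 : maj r B1 y = false := by
    have := hc B1
    simp [maj]; omega
  have e2 : maj r B2 y = false := by
    have := hc B2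
    simp [maj]; omega
  simp [fn, comb, e1, e2] at hy

theorem fn_zero (r : ℕ) (B1 B2 : Finset ι) (a b : ι) :
    fn r B1 B2 a b (fun _ => false) = true := by
  simp [fn, comb, maj, cnt]

end

/-- The negation of the preceding statement: There exist α<2 and K such that for every n≥1 and all balanced f,g on {0,1}^n, some bijection φ with g∘φ=f has Hamming-Lipschitz constants of φ and φ⁻¹ whose product is at most K·n^α. -/
theorem result :
    ¬ (∃ α : ℝ, α < 2 ∧ ∃ K : ℝ, ∀ n : ℕ, 1 ≤ n → ∀ f g : (Fin n → Bool) → Bool,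
      2 * (Finset.univ.filter (fun x => f x = true)).card = 2 ^ n →
      2 * (Finset.univ.filter (fun x => g x = true)).card = 2 ^ n →
      ∃ φ : (Fin n → Bool) ≃ (Fin n → Bool), (∀ x, g (φ x) = f x) ∧
        ∃ C₁ C₂ : ℝ, 0 ≤ C₁ ∧ 0 ≤ C₂ ∧
          (∀ x y, (hammingDist (φ x) (φ y) : ℝ) ≤ C₁ * (hammingDist x y : ℝ)) ∧
          (∀ x y, (hammingDist (φ.symm x) (φ.symm y) : ℝ) ≤ C₂ * (hammingDist x y : ℝ)) ∧
          C₁ * C₂ ≤ K * (n : ℝ) ^ α) := by
  rintro ⟨α, hα, K, H⟩
  have ht : Filter.Tendsto (fun r : ℕ => ((4 * r + 4 : ℕ) : ℝ) ^ (2 - α)) Filter.atTop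
      Filter.atTop := by
    apply (tendsto_rpow_atTop (by linarith)).comp
    apply tendsto_natCast_atTop_atTop.comp
    apply Filter.tendsto_atTop_mono (f := id) (fun r => by simp; omega) Filter.tendsto_id
  obtain ⟨r, hr⟩ := (ht.eventually_gt_atTop (64 * K)).exists
  set n := 4 * r + 4 with hn
  let a : Fin n := ⟨0, by omega⟩
  let b : Fin n := ⟨1, by omega⟩
  have hab : a ≠ b := by simp [a, b, Fin.ext_iff]
  have hcard : ((univ.erase a).erase b).card = 4 * r + 2 := by
    rw [card_erase_of_mem (by simp [hab.symm]), card_erase_of_mem (by simp)]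
    simp; omega
  obtain ⟨B1, hB1, h1⟩ := exists_subset_card_eq (s := (univ.erase a).erase b) (n := 2 * r + 1)
    (by omega)
  set B2 := ((univ.erase a).erase b) \ B1 with hB2
  have h2 : B2.card = 2 * r + 1 := by
    rw [hB2, card_sdiff_of_subset hB1]; omega
  have hd : Disjoint B1 B2 := disjoint_sdiff
  have ha1 : a ∉ B1 := fun h => by simpa using hB1 h
  have hb1 : b ∉ B1 := fun h => by simpa using hB1 h
  have ha2 : a ∉ B2 := by simp [hB2]
  have hb2 : b ∉ B2 := by simp [hB2]
  have hbal := balanced r B1 B2 a b h1 h2 hd ha1 ha2 hb1 hb2 hab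
  rw [Fintype.card_fin] at hbal
  set f := fn r B1 B2 a b with hf
  have hbal2 : 2 * (univ.filter (fun x => (!f x) = true)).card = 2 ^ n := by
    have := card_filter_add_card_filter_not (s := (univ : Finset (Fin n → Bool)))
      (fun x => f x = true)
    simp only [card_univ, Fintype.card_fun, Fintype.card_bool, Fintype.card_fin] at this
    have e : (univ.filter (fun x => (!f x) = true)) = univ.filter (fun x => ¬ f x = true) := by
      apply filter_congr; intro x _; simp
    rw [e]; omega
  obtain ⟨φ, hφ, C₁, C₂, hC1, hC2, L1, L2, hprod⟩ := H n (by omega) f (fun x => !f x) hbal hbal2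
  have b1 : (r + 1 : ℝ) ≤ C₁ * 2 := by
    obtain ⟨y, hy, hdist⟩ := near r B1 B2 a b (φ.symm (fun _ => false))
    have h0 : f (φ y) = false := by
      have := hφ y
      rw [← hf] at hy
      rw [hy] at this
      simpa using this
    have h3 := deep r B1 B2 a b (φ y) h0
    have h4 := L1 (φ.symm (fun _ => false)) y
    rw [Equiv.apply_symm_apply] at h4
    have h5 : (hammingDist (φ.symm (fun _ => false)) y : ℝ) ≤ 2 := by exact_mod_cast hdist
    have h6 : (r + 1 : ℝ) ≤ hammingDist (fun _ : Fin n => false) (φ y) := by exact_mod_cast h3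
    nlinarith
  have b2 : (r + 1 : ℝ) ≤ C₂ * 2 := by
    obtain ⟨y, hy, hdist⟩ := near r B1 B2 a b (φ (fun _ => false))
    have h0 : f (φ.symm y) = false := by
      have := hφ (φ.symm y)
      rw [← hf] at hy
      rw [Equiv.apply_symm_apply, hy] at this
      simpa using this.symm
    have h3 := deep r B1 B2 a b (φ.symm y) h0
    have h4 := L2 (φ (fun _ => false)) y
    rw [Equiv.symm_apply_apply] at h4
    have h5 : (hammingDist (φ (fun _ => false)) y : ℝ) ≤ 2 := by exact_mod_cast hdist
    have h6 : (r + 1 : ℝ) ≤ hammingDist (fun _ : Fin n => false) (φ.symm y) := by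
      exact_mod_cast h3
    nlinarith
  have hnpos : (0 : ℝ) < n := by positivity
  have hpow : (n : ℝ) ^ (2 - α) * (n : ℝ) ^ α = (n : ℝ) ^ 2 := by
    rw [← Real.rpow_add hnpos]; simp
  have hpa : 0 < (n : ℝ) ^ α := Real.rpow_pos_of_pos hnpos α
  have hnr : (n : ℝ) = 4 * (r + 1) := by rw [hn]; push_cast; ring
  have h7 : 64 * K * (n : ℝ) ^ α < (n : ℝ) ^ 2 := by
    rw [← hpow]; exact mul_lt_mul_of_pos_right hr hpa
  have h8 : (r + 1 : ℝ) * (r + 1) ≤ (C₁ * 2) * (C₂ * 2) :=
    mul_le_mul b1 b2 (by positivity) (by positivity)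
  rw [hnr] at h7
  rw [hnr] at hprod
  nlinarith

end Pool.Agent.S10106
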