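import Pool.Statements.S10114
import Pool.Agent.H2.HadProof

set_option autoImplicit false
open Pool Pool.MP_903d4d_co

namespace Pool.Agent.S10114

/-- The negation of the preceding statement: For every graph with at least 2 vertices, let r be the largest r with K_r minus an edge as a subgraph. Then the Hadamard critical exponent is r-2: all real powers at least r-2 keep every nonnegative PSD G-patterned matrix PSD, and no smaller threshold works. -/
theorem result :
    ¬ (∀ (V : Type) [Fintype V] [DecidableEq V] (G : SimpleGraph V), 2 ≤ Fintype.card V →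
    ∀ r : ℕ,
      ((∃ f : Fin r → V, Function.Injective f ∧ ∃ a b : Fin r, a ≠ b ∧
          ∀ i j : Fin r, i ≠ j → ¬(i = a ∧ j = b) → ¬(i = b ∧ j = a) → G.Adj (f i) (f j)) ∧
       (∀ s : ℕ, (∃ f : Fin s → V, Function.Injective f ∧ ∃ a b : Fin s, a ≠ b ∧
          ∀ i j : Fin s, i ≠ j → ¬(i = a ∧ j = b) → ¬(i = b ∧ j = a) → G.Adj (f i) (f j)) →
          s ≤ r)) →
      ((∀ β : ℝ, 0 < β → (r : ℝ) - 2 ≤ β →
          ∀ A : Matrix V V ℝ, A.PosSemidef → (∀ i j, 0 ≤ A i j) →
            (∀ i j, i ≠ j → ¬ G.Adj i j → A i j = 0) →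
            (A.map (fun x : ℝ => x ^ β)).PosSemidef) ∧
       (∀ α : ℝ, 0 ≤ α → α < (r : ℝ) - 2 →
          ∃ β : ℝ, α ≤ β ∧ 0 < β ∧ ∃ A : Matrix V V ℝ, A.PosSemidef ∧ (∀ i j, 0 ≤ A i j) ∧
            (∀ i j, i ≠ j → ¬ G.Adj i j → A i j = 0) ∧
            ¬ (A.map (fun x : ℝ => x ^ β)).PosSemidef))) := by
  intro h
  open Pool.Agent.H2.Had in
  refine npsd ((h V G (by simp) 3 ⟨⟨![2048, 0, 2049], by decide, 0, 2, by decide, ?_⟩, ?_⟩).1 _
    (by norm_num) (by norm_num) A psd (fun i j => ?_) fun i j n f => ?_)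
  · unfold Pool.Agent.H2.Had.G
    decide +kernel
  · rintro s ⟨f, -, a, b, n, h⟩
    by_contra l
    have : 1 < ({a, b}ᶜ : Finset (Fin s)).card := by
      rw [Finset.card_compl, Finset.card_pair n, Fintype.card_fin]; omega
    obtain ⟨c, hc, d, hd, e⟩ := Finset.one_lt_card.1 this
    simp only [Finset.mem_compl, Finset.mem_insert, Finset.mem_singleton, not_or] at hc hd
    exact Pool.Agent.H2.Had.tri (h a c (Ne.symm hc.1) (by tauto) (by tauto))
      (h c d e (by tauto) (by tauto)) (h a d (Ne.symm hd.1) (by tauto) (by tauto))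
  · unfold Pool.Agent.H2.Had.A Pool.Agent.H2.Had.a
    split_ifs <;> norm_num
  · have f : ¬ _ ∈ _ ++ _ := f
    rw [List.mem_append, not_or] at f
    unfold Pool.Agent.H2.Had.A Pool.Agent.H2.Had.a
    rw [if_neg (by simpa [Fin.ext_iff] using n), if_neg f.1, if_neg f.2]

end Pool.Agent.S10114
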