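import Pool.Statements.S10122
import Pool.Agent.H28.Scramble

set_option autoImplicit false
open Pool Pool.MP_908e85_co

namespace Pool.Agent.S10122

/-- The negation of the preceding statement: For even k and a rank-k matroid, if k sets of size k have multiset union equal to that of k bases, then each set's elements can be spread over k columns so every column takes one element per set and forms a basis. -/
theorem result :
    ¬ (∀ (α : Type) (M : Matroid α) (k : ℕ), Even k →
      ∀ (F B : Fin k → Finset α),
        (∀ i, M.IsBase (↑(B i) : Set α)) →
        (∀ i, (B i).card = k) →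
        (∀ i, (F i).card = k) →
        (∑ i, (F i).val = ∑ i, (B i).val) →
        ∃ σ : Fin k → Fin k → α,
          (∀ i, Function.Injective (σ i) ∧ ∀ j, σ i j ∈ F i) ∧
          (∀ j, Function.Injective (fun i => σ i j) ∧
            M.IsBase (Set.range (fun i => σ i j)))) := by
  intro h
  exact Pool.Agent.H28.Scramble.no_dec (h (Fin 16) Pool.Agent.H28.Scramble.M 4 (by decide)
    Pool.Agent.H28.Scramble.FF Pool.Agent.H28.Scramble.BB Pool.Agent.H28.Scramble.base
    (by decide) (by decide) Pool.Agent.H28.Scramble.union)

end Pool.Agent.S10122
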