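import Pool.Statements.S10123
import Pool.Agent.H14.Corners

set_option autoImplicit false
open Pool Pool.MP_9095c8_co

namespace Pool.Agent.S10123

/-- There are α, δ > 0 such that for every ε > 0 and arbitrarily large N, some A in (Z/NZ)^2 has density within ε of α, all nontrivial Fourier coefficients at most ε, and at most (α^3 − δ)N^3 corners (x,y,d). -/
theorem result :
    ∃ α δ : ℝ, 0 < α ∧ 0 < δ ∧
      ∀ ε : ℝ, 0 < ε → ∀ M : ℕ, ∃ n : ℕ, M ≤ n + 1 ∧
        ∃ A : Finset (ZMod (n + 1) × ZMod (n + 1)),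
          |(A.card : ℝ) / ((n : ℝ) + 1) ^ 2 - α| ≤ ε ∧
          (∀ r : ZMod (n + 1) × ZMod (n + 1), r ≠ 0 →
            ‖∑ x ∈ A, Complex.exp (2 * (Real.pi : ℂ) * Complex.I *
                (((r.1 * x.1 + r.2 * x.2 : ZMod (n + 1)).val : ℂ)) / ((n : ℂ) + 1))‖
              ≤ ε * ((n : ℝ) + 1) ^ 2) ∧
          (((Finset.univ : Finset (ZMod (n + 1) × ZMod (n + 1) × ZMod (n + 1))).filter
              (fun t : ZMod (n + 1) × ZMod (n + 1) × ZMod (n + 1) =>
                (t.1, t.2.1) ∈ A ∧ (t.1 + t.2.2, t.2.1) ∈ A ∧ (t.1, t.2.1 + t.2.2) ∈ A)).card : ℝ)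
            ≤ (α ^ 3 - δ) * ((n : ℝ) + 1) ^ 3 := by
  open Pool.Agent.H14.Corners Finset in
  refine ⟨3 / 4, 1 / 128, by norm_num, by norm_num, fun ε hε M => ?_⟩
  obtain ⟨n, hn⟩ := exists_nat_ge (max (M : ℝ) (128 * (1 + 9 * (1 / ε ^ 2))))
  have hM : (M : ℝ) ≤ n := (le_max_left _ _).trans hn
  have hn2 : 128 * (1 + 9 * (1 / ε ^ 2)) ≤ n := (le_max_right _ _).trans hn
  refine ⟨n, by have : M ≤ n := (by exact_mod_cast hM); omega, ?_⟩
  have hL : (0 : ℝ) < 1 / ε ^ 2 := by positivity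
  obtain ⟨u, v, w, h⟩ := exists_good (N := n + 1) (1 / ε ^ 2) hL.le
  push_cast at h
  set N : ℝ := (n : ℝ) + 1 with hN
  have hNpos : 0 < N := by positivity
  have hsm : N ^ 2 + 9 * (1 / ε ^ 2) * N ^ 2 ≤ N ^ 3 / 128 := by
    have : (1 + 9 * (1 / ε ^ 2)) ≤ N / 128 := by linarith
    calc _ = (1 + 9 * (1 / ε ^ 2)) * N ^ 2 := by ring
      _ ≤ N / 128 * N ^ 2 := mul_le_mul_of_nonneg_right this (sq_nonneg _)
      _ = _ := by ring
  have hc := cor_nonneg u v w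
  have hu := Q_nonneg u
  have hv := Q_nonneg v
  have hw := Q_nonneg w
  have hN3 : 0 < N ^ 3 := by positivity
  have hQ : Q u + Q v + Q w ≤ ε ^ 2 * N ^ 3 := by
    have h1 : 1 / ε ^ 2 * (Q u + Q v + Q w) ≤ N ^ 3 := by linarith
    rw [one_div, inv_mul_le_iff₀ (by positivity)] at h1
    exact h1
  have hh : ∀ f : ZMod (n + 1) → Bool, Q f ≤ ε ^ 2 * N ^ 3 → ∀ r, ‖hat f r‖ ^ 2 ≤ ε * N ^ 2 := by
    intro f hf r
    have h1 := hat_bound f r
    push_cast at h1
    rw [← hN] at h1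
    have h2 : N * Q f ≤ (ε * N ^ 2) ^ 2 := by
      calc N * Q f ≤ N * (ε ^ 2 * N ^ 3) := mul_le_mul_of_nonneg_left hf hNpos.le
        _ = _ := by ring
    exact (pow_le_pow_iff_left₀ (sq_nonneg _) (by positivity) two_ne_zero).1 (h1.trans h2)
  have hp : ∀ a b : ℂ, ‖a‖ ^ 2 ≤ ε * N ^ 2 → ‖b‖ ^ 2 ≤ ε * N ^ 2 → ‖a * b‖ ≤ ε * N ^ 2 := by
    intro a b ha hb
    rw [norm_mul]
    nlinarith [sq_nonneg (‖a‖ - ‖b‖)]
  have herr : ∀ r : ZMod (n + 1) × ZMod (n + 1), ‖(hat u r.1 * hat v r.2 +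
      hat v (r.2 - r.1) * hat w r.1 + hat u (r.1 - r.2) * hat w r.2) / 4‖ ≤ ε * N ^ 2 := by
    intro r
    have a1 := hp _ _ (hh u (by linarith) r.1) (hh v (by linarith) r.2)
    have a2 := hp _ _ (hh v (by linarith) (r.2 - r.1)) (hh w (by linarith) r.1)
    have a3 := hp _ _ (hh u (by linarith) (r.1 - r.2)) (hh w (by linarith) r.2)
    have a4 := norm_add₃_le (a := hat u r.1 * hat v r.2) (b := hat v (r.2 - r.1) * hat w r.1)
      (c := hat u (r.1 - r.2) * hat w r.2)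
    rw [norm_div]
    have : ‖(4 : ℂ)‖ = 4 := by simp
    rw [this]
    have : 0 ≤ ε * N ^ 2 := by positivity
    linarith
  refine ⟨AA u v w, ?_, ?_, ?_⟩
  · have h1 := fourier_A u v w 0
    have h2 := herr 0
    simp only [Prod.fst_zero, Prod.snd_zero, zero_mul, mul_zero, add_zero, AddChar.map_zero_eq_one,
      sum_const, card_univ, ZMod.card, nsmul_eq_mul, mul_one] at h1 h2
    have h3 : ‖((((AA u v w).card : ℝ) - 3 / 4 * N ^ 2 : ℝ) : ℂ)‖ ≤ ε * N ^ 2 := by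
      refine le_trans (le_of_eq ?_) h2
      rw [← norm_neg]
      congr 1
      rw [hN]
      push_cast at h1 ⊢
      rw [h1]
      ring
    rw [Complex.norm_real, Real.norm_eq_abs] at h3
    have : ((AA u v w).card : ℝ) / N ^ 2 - 3 / 4 =
        (((AA u v w).card : ℝ) - 3 / 4 * N ^ 2) / N ^ 2 := by
      field_simp
    rw [this, abs_div, abs_of_pos (by positivity : 0 < N ^ 2), div_le_iff₀ (by positivity)]
    exact h3
  · intro r hr
    have h1 := fourier_A u v w r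
    have h0 : (∑ x : ZMod (n + 1), ZMod.stdAddChar (x * r.1)) *
        ∑ y : ZMod (n + 1), ZMod.stdAddChar (y * r.2) = 0 := by
      rw [AddChar.sum_mulShift _ (ZMod.isPrimitive_stdAddChar _),
        AddChar.sum_mulShift _ (ZMod.isPrimitive_stdAddChar _)]
      by_cases a1 : r.1 = 0
      · have a2 : r.2 ≠ 0 := fun a2 => hr (Prod.ext a1 a2)
        simp [a2]
      · simp [a1]
    rw [h0, mul_zero, zero_sub] at h1
    have h2 := herr r
    rw [← norm_neg, ← h1] at h2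
    refine le_trans (le_of_eq ?_) h2
    congr 1
    refine sum_congr rfl fun x _ => ?_
    rw [ZMod.stdAddChar_apply, ZMod.toCircle_apply]
    push_cast
    rfl
  · rw [cor_eq]
    have : 0 ≤ 1 / ε ^ 2 * (Q u + Q v + Q w) := by positivity
    linarith

end Pool.Agent.S10123
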