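import Pool.Statements.S10141
import Pool.Agent.H2.EntGirth

set_option autoImplicit false
open Pool Pool.MP_9137bf_co

namespace Pool.Agent.S10141

/-- With ρ the real root of x^3-x-2, for every ε>0 and all large g, every finite connected graph with half its vertices of degree 2, half of degree 3, and girth at least g has at least ρ^((1-ε)g/2) vertices. -/
theorem result :
  ∀ ρ : ℝ, ρ ^ 3 - ρ - 2 = 0 →
  ∀ ε : ℝ, 0 < ε →
  ∃ g₀ : ℕ, ∀ g : ℕ, g₀ ≤ g →
  ∀ (V : Type) [Fintype V] [DecidableEq V] (G : SimpleGraph V) [DecidableRel G.Adj],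
    G.Connected →
    (∀ v, G.degree v = 2 ∨ G.degree v = 3) →
    2 * (Finset.univ.filter (fun v => G.degree v = 2)).card = Fintype.card V →
    (g : ℕ∞) ≤ G.egirth →
    ρ ^ ((1 - ε) * (g : ℝ) / 2) ≤ (Fintype.card V : ℝ) := by
  intro ρ h ε hε
  obtain ⟨n, hn⟩ := exists_nat_ge (2 / ε)
  refine ⟨n + 1, fun g hg V _ _ G _ hcon hd hc hgi => ?_⟩
  have : Nonempty V := hcon.nonempty
  have h1 := H2.Ent.moore G h hd hc hgi ((g - 1) / 2) (by omega)
  refine le_trans ?_ h1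
  rw [← Real.rpow_natCast]
  refine Real.rpow_le_rpow_of_exponent_le (by linarith [(H2.Ent.rho_bd h).1]) ?_
  have h2 : g ≤ 2 * ((g - 1) / 2) + 2 := by omega
  have h3 : (g : ℝ) ≤ 2 * (((g - 1) / 2 : ℕ) : ℝ) + 2 := by exact_mod_cast h2
  have h4 : (n : ℝ) + 1 ≤ g := by exact_mod_cast hg
  rw [div_le_iff₀ hε] at hn
  nlinarith

end Pool.Agent.S10141
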