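import Pool.Statements.S10153

set_option autoImplicit false
open Pool Pool.MP_91f506_co

namespace Pool.Agent.S10153

open Finset

variable {V : Type} [Fintype V] [DecidableEq V] (G : SimpleGraph V) [DecidableRel G.Adj]

/-- union of the neighbourhoods of the members of F -/
def N (F : Finset V) : Finset V := univ.filter (fun u => ∃ y ∈ F, G.Adj y u)

theorem mem_N {F : Finset V} {u : V} : u ∈ N G F ↔ ∃ y ∈ F, G.Adj y u := by simp [N]

/-- Seymour's linear algebra lemma -/
theorem seymour (F : Finset V) :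
    (∀ F' ⊆ F, F'.Nonempty → F'.card < (N G F').card) →
    ∃ c : V → Bool, ∀ y ∈ F, (∃ a, G.Adj y a ∧ c a = true) ∧ (∃ b, G.Adj y b ∧ c b = false) := by
  induction F using Finset.strongInduction with
  | H F ih =>
    intro h
    rcases F.eq_empty_or_nonempty with rfl | hne
    · exact ⟨fun _ => true, by simp⟩
    have hlt := h F subset_rfl hne
    let L : (N G F → ℚ) →ₗ[ℚ] (F → ℚ) :=
      { toFun := fun x y => ∑ u : N G F, if G.Adj y.1 u.1 then x u else 0
        map_add' := by
          intro x z; funext y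
          simp only [Pi.add_apply, ← sum_add_distrib]
          refine sum_congr rfl fun u _ => ?_
          split_ifs <;> simp
        map_smul' := by
          intro r x; funext y
          simp only [Pi.smul_apply, smul_eq_mul, RingHom.id_apply, mul_sum]
          refine sum_congr rfl fun u _ => ?_
          split_ifs <;> simp }
    have hker : LinearMap.ker L ≠ ⊥ := LinearMap.ker_ne_bot_of_finrank_lt (by simpa using hlt)
    obtain ⟨x, hx, hx0⟩ := Submodule.exists_mem_ne_zero_of_ne_bot hker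
    have hx' : ∀ y : F, (∑ u : N G F, if G.Adj y.1 u.1 then x u else 0) = 0 :=
      fun y => congrFun hx y
    let X : V → ℚ := fun v => if h : v ∈ N G F then x ⟨v, h⟩ else 0
    have hX : ∀ u : N G F, X u.1 = x u := fun u => by simp [X, u.2]
    let F' := F.filter (fun y => ∀ u, G.Adj y u → X u = 0)
    have hss : F' ⊂ F := by
      obtain ⟨u, hu⟩ : ∃ u, x u ≠ 0 := by
        by_contra hc
        push Not at hc
        exact hx0 (funext hc)
      obtain ⟨y, hy, hyu⟩ := (mem_N G).1 u.2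
      refine ⟨filter_subset _ _, fun hsub => ?_⟩
      have := (mem_filter.1 (hsub hy)).2 u.1 hyu
      rw [hX] at this
      exact hu this
    obtain ⟨c', hc'⟩ := ih F' hss (fun F'' h1 h2 => h F'' (h1.trans hss.subset) h2)
    refine ⟨fun u => if X u = 0 then c' u else decide (0 < X u), fun y hy => ?_⟩
    by_cases hyF : y ∈ F'
    · obtain ⟨⟨a, ha, ha'⟩, ⟨b, hb, hb'⟩⟩ := hc' y hyF
      have h0 := (mem_filter.1 hyF).2
      exact ⟨⟨a, ha, by simp [h0 a ha, ha']⟩, ⟨b, hb, by simp [h0 b hb, hb']⟩⟩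
    · have : ∃ u, G.Adj y u ∧ X u ≠ 0 := by
        by_contra hc
        push Not at hc
        exact hyF (mem_filter.2 ⟨hy, hc⟩)
      obtain ⟨u, hu, hu0⟩ := this
      have huN : u ∈ N G F := (mem_N G).2 ⟨y, hy, hu⟩
      have hs := hx' ⟨y, hy⟩
      have hnz : (if G.Adj y u then x ⟨u, huN⟩ else 0) ≠ 0 := by
        rw [if_pos hu, ← hX]; exact hu0
      constructor
      · obtain ⟨a, -, ha⟩ := exists_pos_of_sum_zero_of_exists_nonzero
          (fun u : N G F => if G.Adj y u.1 then x u else 0) hs ⟨⟨u, huN⟩, mem_univ _, hnz⟩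
        by_cases hadj : G.Adj y a.1
        · rw [if_pos hadj, ← hX] at ha
          exact ⟨a.1, hadj, by simp [ha, ha.ne']⟩
        · rw [if_neg hadj] at ha
          exact absurd ha (lt_irrefl _)
      · obtain ⟨a, -, ha⟩ := exists_pos_of_sum_zero_of_exists_nonzero
          (fun u : N G F => - (if G.Adj y u.1 then x u else 0))
          (by rw [sum_neg_distrib, hs, neg_zero]) ⟨⟨u, huN⟩, mem_univ _, neg_ne_zero.2 hnz⟩
        by_cases hadj : G.Adj y a.1
        · rw [if_pos hadj, ← hX] at ha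
          have ha2 : X a.1 < 0 := by linarith
          exact ⟨a.1, hadj, by simp [ha2.ne, ha2.le]⟩
        · rw [if_neg hadj] at ha
          simp at ha

def Closed (Y : Finset V) : Prop := ∀ y ∈ Y, ∀ u, G.Adj y u → ∀ z, G.Adj z u → z ∈ Y

theorem dc (hr : G.IsRegularOfDegree 3) (F : Finset V) :
    ∑ u ∈ N G F, (F.filter (fun y => G.Adj y u)).card = 3 * F.card := by
  have h1 : ∑ u ∈ N G F, (F.filter (fun y => G.Adj y u)).card =
      ∑ y ∈ F, ((N G F).filter (fun u => G.Adj y u)).card := by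
    simp only [card_filter]
    rw [sum_comm]
  rw [h1, mul_comm, ← smul_eq_mul, ← sum_const]
  refine sum_congr rfl fun y hy => ?_
  rw [← hr y, ← SimpleGraph.card_neighborFinset_eq_degree]
  congr 1
  ext u
  simp only [mem_filter, SimpleGraph.mem_neighborFinset]
  exact ⟨fun h => h.2, fun h => ⟨(mem_N G).2 ⟨y, hy, h⟩, h⟩⟩

theorem fil_sub (F : Finset V) (u : V) :
    F.filter (fun y => G.Adj y u) ⊆ G.neighborFinset u := by
  intro y hy
  simp only [mem_filter] at hy
  simpa using hy.2.symm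

theorem fil_le (hr : G.IsRegularOfDegree 3) (F : Finset V) (u : V) :
    (F.filter (fun y => G.Adj y u)).card ≤ 3 := by
  rw [← hr u, ← SimpleGraph.card_neighborFinset_eq_degree]
  exact card_le_card (fil_sub G F u)

theorem card_le_N (hr : G.IsRegularOfDegree 3) (F : Finset V) : F.card ≤ (N G F).card := by
  have h1 := dc G hr F
  have h2 : ∑ u ∈ N G F, (F.filter (fun y => G.Adj y u)).card ≤ ∑ _u ∈ N G F, 3 :=
    sum_le_sum fun u _ => fil_le G hr F u
  simp only [sum_const, smul_eq_mul] at h2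
  omega

theorem closed_of_le (hr : G.IsRegularOfDegree 3) (F : Finset V) (h : (N G F).card ≤ F.card) :
    Closed G F := by
  intro y hy u hu z hz
  by_contra hzF
  have h1 := dc G hr F
  have h2 : ∑ u ∈ N G F, (F.filter (fun y => G.Adj y u)).card < ∑ _u ∈ N G F, 3 := by
    refine sum_lt_sum (fun u _ => fil_le G hr F u) ⟨u, (mem_N G).2 ⟨y, hy, hu⟩, ?_⟩
    rw [← hr u, ← SimpleGraph.card_neighborFinset_eq_degree]
    refine card_lt_card ⟨fil_sub G F u, fun hsub => hzF ?_⟩
    have : z ∈ G.neighborFinset u := by simpa using hz.symm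
    exact (mem_filter.1 (hsub this)).1
  simp only [sum_const, smul_eq_mul] at h2
  omega

def Tr (Y S : Finset V) : Prop := ∀ y ∈ Y, ∃ u ∈ S, G.Adj y u

theorem localPair (hr : G.IsRegularOfDegree 3) (Y : Finset V)
    (hmin : ∀ F ⊂ Y, F.Nonempty → F.card < (N G F).card) (v : V) (hv : v ∈ N G Y) :
    ∃ x ∈ N G Y, ∃ S1 S2 : Finset V, S1 ⊆ N G Y ∧ S2 ⊆ N G Y ∧ Tr G Y S1 ∧ Tr G Y S2 ∧
      ∀ u, (if u ∈ S1 then 1 else 0) + (if u ∈ S2 then 1 else 0) + (if u = x then 1 else 0)
        ≤ 1 + (if u = v then 1 else 0) := by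
  obtain ⟨e, he, hev⟩ := (mem_N G).1 hv
  obtain ⟨c, hc⟩ := seymour G (Y.erase e)
    (fun F h1 h2 => hmin F (lt_of_le_of_lt h1 (erase_ssubset he)) h2)
  have key : ∀ y, ∃ a b d, a ≠ b ∧ a ≠ d ∧ b ≠ d ∧ ∀ u, G.Adj y u ↔ (u = a ∨ u = b ∨ u = d) := by
    intro y
    have := hr y
    rw [← SimpleGraph.card_neighborFinset_eq_degree, card_eq_three] at this
    obtain ⟨a, b, d, h1, h2, h3, h4⟩ := this
    refine ⟨a, b, d, h1, h2, h3, fun u => ?_⟩
    rw [← SimpleGraph.mem_neighborFinset, h4]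
    simp
  -- a colour t which appears on two neighbours of e
  have hmaj : ∃ t : Bool, ∃ a b, a ≠ b ∧ G.Adj e a ∧ G.Adj e b ∧ c a = t ∧ c b = t := by
    obtain ⟨a, b, d, h1, h2, h3, h4⟩ := key e
    have ha := (h4 a).2 (by simp)
    have hb := (h4 b).2 (by simp)
    have hd := (h4 d).2 (by simp)
    by_cases e1 : c a = c b
    · exact ⟨c a, a, b, h1, ha, hb, rfl, e1.symm⟩
    · by_cases e2 : c a = c d
      · exact ⟨c a, a, d, h2, ha, hd, rfl, e2.symm⟩
      · refine ⟨c b, b, d, h3, hb, hd, rfl, ?_⟩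
        revert e1 e2
        cases c a <;> cases c b <;> cases c d <;> simp
  obtain ⟨t, a0, b0, hab0, ha0, hb0, ca0, cb0⟩ := hmaj
  by_cases hbi : ∃ d, G.Adj e d ∧ c d ≠ t
  · obtain ⟨d, hd, cd⟩ := hbi
    refine ⟨v, hv, (N G Y).filter (fun u => c u = t), (N G Y).filter (fun u => c u ≠ t),
      filter_subset _ _, filter_subset _ _, ?_, ?_, ?_⟩
    · intro y hy
      by_cases hye : y = e
      · subst hye
        exact ⟨a0, mem_filter.2 ⟨(mem_N G).2 ⟨y, hy, ha0⟩, ca0⟩, ha0⟩
      · obtain ⟨⟨a, ha, ha'⟩, ⟨b, hb, hb'⟩⟩ := hc y (mem_erase.2 ⟨hye, hy⟩)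
        cases t
        · exact ⟨b, mem_filter.2 ⟨(mem_N G).2 ⟨y, hy, hb⟩, hb'⟩, hb⟩
        · exact ⟨a, mem_filter.2 ⟨(mem_N G).2 ⟨y, hy, ha⟩, ha'⟩, ha⟩
    · intro y hy
      by_cases hye : y = e
      · subst hye
        exact ⟨d, mem_filter.2 ⟨(mem_N G).2 ⟨y, hy, hd⟩, cd⟩, hd⟩
      · obtain ⟨⟨a, ha, ha'⟩, ⟨b, hb, hb'⟩⟩ := hc y (mem_erase.2 ⟨hye, hy⟩)
        cases t
        · exact ⟨a, mem_filter.2 ⟨(mem_N G).2 ⟨y, hy, ha⟩, by simp [ha']⟩, ha⟩
        · exact ⟨b, mem_filter.2 ⟨(mem_N G).2 ⟨y, hy, hb⟩, by simp [hb']⟩, hb⟩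
    · intro u
      simp only [mem_filter]
      by_cases h1 : c u = t <;> by_cases h2 : u ∈ N G Y <;> simp [h1, h2]
  · push Not at hbi
    -- blocked vertices
    have hblock : ∀ y ∈ Y.erase e, ∃ b, ∀ x, x ≠ b → G.Adj y x → ∃ z, z ≠ x ∧ G.Adj y z ∧ c z = c x := by
      intro y hy
      obtain ⟨a, b, d, h1, h2, h3, h4⟩ := key y
      have ha := (h4 a).2 (by simp)
      have hb := (h4 b).2 (by simp)
      have hd := (h4 d).2 (by simp)
      by_cases e1 : c a = c b
      · refine ⟨d, fun x hx hyx => ?_⟩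
        rcases (h4 x).1 hyx with rfl | rfl | rfl
        · exact ⟨b, h1.symm, hb, e1.symm⟩
        · exact ⟨a, h1, ha, e1⟩
        · exact absurd rfl hx
      · by_cases e2 : c a = c d
        · refine ⟨b, fun x hx hyx => ?_⟩
          rcases (h4 x).1 hyx with rfl | rfl | rfl
          · exact ⟨d, h2.symm, hd, e2.symm⟩
          · exact absurd rfl hx
          · exact ⟨a, h2, ha, e2⟩
        · have e3 : c b = c d := by
            revert e1 e2
            cases c a <;> cases c b <;> cases c d <;> simp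
          refine ⟨a, fun x hx hyx => ?_⟩
          rcases (h4 x).1 hyx with rfl | rfl | rfl
          · exact absurd rfl hx
          · exact ⟨d, h3.symm, hd, e3.symm⟩
          · exact ⟨b, h3, hb, e3⟩
    choose! β hβ using hblock
    have hlt : ((Y.erase e).image β).card < (N G Y).card := by
      have h1 := card_image_le (s := Y.erase e) (f := β)
      have h2 := card_erase_lt_of_mem he
      have h3 := card_le_N G hr Y
      omega
    obtain ⟨x, hx, hxβ⟩ := exists_mem_notMem_of_card_lt_card hlt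
    have surv : ∀ y ∈ Y.erase e, ∀ a, G.Adj y a → ∃ z, z ≠ x ∧ G.Adj y z ∧ c z = c a := by
      intro y hy a ha
      by_cases hax : a = x
      · subst hax
        exact hβ y hy a (fun e => hxβ (mem_image.2 ⟨y, hy, e.symm⟩)) ha
      · exact ⟨a, hax, ha, rfl⟩
    have both : ∀ y ∈ Y.erase e, ∀ s : Bool, ∃ z, z ≠ x ∧ G.Adj y z ∧ c z = s := by
      intro y hy s
      obtain ⟨⟨a, ha, ha'⟩, ⟨b, hb, hb'⟩⟩ := hc y hy
      cases s
      · rw [← hb']; exact surv y hy b hb
      · rw [← ha']; exact surv y hy a ha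
    refine ⟨x, hx, ((N G Y).filter (fun u => c u = t)).erase x,
      insert v (((N G Y).filter (fun u => c u = !t)).erase x), ?_, ?_, ?_, ?_, ?_⟩
    · exact (erase_subset _ _).trans (filter_subset _ _)
    · exact insert_subset hv ((erase_subset _ _).trans (filter_subset _ _))
    · intro y hy
      by_cases hye : y = e
      · subst hye
        by_cases hax : a0 = x
        · exact ⟨b0, mem_erase.2 ⟨fun e => hab0 (hax.trans e.symm),
            mem_filter.2 ⟨(mem_N G).2 ⟨y, hy, hb0⟩, cb0⟩⟩, hb0⟩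
        · exact ⟨a0, mem_erase.2 ⟨hax, mem_filter.2 ⟨(mem_N G).2 ⟨y, hy, ha0⟩, ca0⟩⟩, ha0⟩
      · obtain ⟨z, h1, h2, h3⟩ := both y (mem_erase.2 ⟨hye, hy⟩) t
        exact ⟨z, mem_erase.2 ⟨h1, mem_filter.2 ⟨(mem_N G).2 ⟨y, hy, h2⟩, h3⟩⟩, h2⟩
    · intro y hy
      by_cases hye : y = e
      · subst hye
        exact ⟨v, mem_insert_self _ _, hev⟩
      · obtain ⟨z, h1, h2, h3⟩ := both y (mem_erase.2 ⟨hye, hy⟩) (!t)
        exact ⟨z, mem_insert_of_mem
          (mem_erase.2 ⟨h1, mem_filter.2 ⟨(mem_N G).2 ⟨y, hy, h2⟩, h3⟩⟩), h2⟩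
    · intro u
      have hvt := hbi v hev
      simp only [mem_filter, mem_erase, mem_insert]
      by_cases h0 : u = v
      · subst h0
        by_cases h3 : u = x <;> simp [h3, hvt, hv]
      · by_cases h3 : u = x
        · subst h3
          simp [h0]
        · by_cases h2 : u ∈ N G Y
          · cases t <;> cases h1 : c u <;> simp [h0, h3, h2]
          · simp [h0, h3, h2]

def Good (Y : Finset V) : Prop :=
  ∃ (ι : Type) (_ : Fintype ι) (S : ι → Finset V), 0 < Fintype.card ι ∧
    (∀ i, S i ⊆ N G Y ∧ Tr G Y (S i)) ∧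
    ∀ u, 2 * (∑ i, if u ∈ S i then 1 else 0) ≤ Fintype.card ι

theorem good_min (hr : G.IsRegularOfDegree 3) (Y : Finset V) (hne : Y.Nonempty)
    (hmin : ∀ F ⊂ Y, F.Nonempty → F.card < (N G F).card) : Good G Y := by
  have h := localPair G hr Y hmin
  choose! φ hφ S1 S2 h1 h2 h3 h4 h5 using h
  have hN : (N G Y).Nonempty := by
    rw [← card_pos]
    exact lt_of_lt_of_le hne.card_pos (card_le_N G hr Y)
  obtain ⟨C, hC, hCmin⟩ := exists_min_image
    ((N G Y).powerset.filter (fun C => C.Nonempty ∧ ∀ v ∈ C, φ v ∈ C)) card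
    ⟨N G Y, by simp only [mem_filter, mem_powerset]; exact ⟨subset_rfl, hN, hφ⟩⟩
  simp only [mem_filter, mem_powerset] at hC hCmin
  obtain ⟨hC1, hC2, hC3⟩ := hC
  have himg : C.image φ = C := by
    have hs : C.image φ ⊆ C := by
      intro u hu
      obtain ⟨v, hv, rfl⟩ := mem_image.1 hu
      exact hC3 v hv
    apply eq_of_subset_of_card_le hs
    apply hCmin
    refine ⟨hs.trans hC1, hC2.image _, fun v hv => mem_image_of_mem _ (hs hv)⟩
  refine ⟨C × Bool, inferInstance, fun p => if p.2 then S1 p.1.1 else S2 p.1.1, ?_, ?_, ?_⟩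
  · simpa using hC2
  · rintro ⟨⟨v, hv⟩, b⟩
    cases b
    · exact ⟨h2 v (hC1 hv), h4 v (hC1 hv)⟩
    · exact ⟨h1 v (hC1 hv), h3 v (hC1 hv)⟩
  · intro u
    rw [Fintype.sum_prod_type]
    simp only [Fintype.sum_bool, if_true, Bool.false_eq_true, if_false, Fintype.card_prod,
      Fintype.card_coe, Fintype.card_bool]
    rw [sum_coe_sort C (fun v => (if u ∈ S1 v then 1 else 0) + (if u ∈ S2 v then 1 else 0))]
    have a1 := sum_le_sum (s := C) fun v hv => h5 v (hC1 hv) u
    rw [sum_add_distrib, sum_add_distrib (f := fun _ => 1)] at a1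
    have a2 : (∑ v ∈ C, if u = v then 1 else 0) ≤ ∑ v ∈ C, if u = φ v then 1 else 0 := by
      by_cases hu : u ∈ C
      · rw [sum_ite_eq, if_pos hu]
        rw [← himg] at hu
        obtain ⟨v, hv, rfl⟩ := mem_image.1 hu
        have := single_le_sum (f := fun w => if φ v = φ w then 1 else 0)
          (fun _ _ => Nat.zero_le _) hv
        simpa using this
      · rw [sum_ite_eq, if_neg hu]
        exact Nat.zero_le _
    simp only [sum_const, smul_eq_mul, mul_one] at a1
    omega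

theorem good_union (Y1 Y2 : Finset V) (hd : Disjoint (N G Y1) (N G Y2))
    (g1 : Good G Y1) (g2 : Good G Y2) : Good G (Y1 ∪ Y2) := by
  obtain ⟨ι, _, S, p1, s1, c1⟩ := g1
  obtain ⟨κ, _, T, p2, s2, c2⟩ := g2
  have m1 : N G Y1 ⊆ N G (Y1 ∪ Y2) := fun u hu => by
    obtain ⟨y, hy, h⟩ := (mem_N G).1 hu
    exact (mem_N G).2 ⟨y, mem_union_left _ hy, h⟩
  have m2 : N G Y2 ⊆ N G (Y1 ∪ Y2) := fun u hu => by
    obtain ⟨y, hy, h⟩ := (mem_N G).1 hu
    exact (mem_N G).2 ⟨y, mem_union_right _ hy, h⟩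
  refine ⟨ι × κ, inferInstance, fun p => S p.1 ∪ T p.2, ?_, ?_, ?_⟩
  · rw [Fintype.card_prod]; positivity
  · rintro ⟨i, j⟩
    refine ⟨union_subset ((s1 i).1.trans m1) ((s2 j).1.trans m2), fun y hy => ?_⟩
    rcases mem_union.1 hy with hy | hy
    · obtain ⟨u, hu, h⟩ := (s1 i).2 y hy
      exact ⟨u, mem_union_left _ hu, h⟩
    · obtain ⟨u, hu, h⟩ := (s2 j).2 y hy
      exact ⟨u, mem_union_right _ hu, h⟩
  · intro u
    rw [Fintype.sum_prod_type, Fintype.card_prod]
    by_cases hu : u ∈ N G Y1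
    · have hn : ∀ j, u ∉ T j := fun j h => disjoint_left.1 hd hu ((s2 j).1 h)
      simp only [mem_union, hn, or_false, sum_const, card_univ, smul_eq_mul]
      rw [← mul_sum]
      nlinarith [c1 u]
    · have hn : ∀ i, u ∉ S i := fun i h => hu ((s1 i).1 h)
      simp only [mem_union, hn, false_or, sum_const, card_univ, smul_eq_mul]
      nlinarith [c2 u]

theorem good_all (hr : G.IsRegularOfDegree 3) (Y : Finset V) : Closed G Y → Good G Y := by
  induction Y using Finset.strongInduction with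
  | H Y ih =>
    intro hY
    rcases Y.eq_empty_or_nonempty with rfl | hne
    · exact ⟨Unit, inferInstance, fun _ => ∅, by simp, by simp [Tr], by simp⟩
    by_cases hmin : ∀ F ⊂ Y, F.Nonempty → F.card < (N G F).card
    · exact good_min G hr Y hne hmin
    · push Not at hmin
      obtain ⟨F, hF, hFne, hle⟩ := hmin
      have hFc := closed_of_le G hr F hle
      have hc2 : Closed G (Y \ F) := by
        intro y hy u hu z hz
        rw [mem_sdiff] at hy ⊢
        exact ⟨hY y hy.1 u hu z hz, fun hzF => hy.2 (hFc z hzF u hz y hu)⟩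
      have := good_union G F (Y \ F) (by
        rw [disjoint_left]
        intro u h1 h2
        obtain ⟨y, hy, h⟩ := (mem_N G).1 h1
        obtain ⟨z, hz, h'⟩ := (mem_N G).1 h2
        exact (mem_sdiff.1 hz).2 (hFc y hy u h z h'))
        (ih F hF hFc) (ih _ (sdiff_ssubset hF.subset hFne) hc2)
      rwa [union_sdiff_of_subset hF.subset] at this

/-- Every finite cubic graph has a nonnegative weighting of its total dominating sets with each vertex in sets of total weight at most 1 and overall weight at least 2, i.e. fractional total domatic number at least 2. -/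
theorem result :
    ∀ (V : Type) [Fintype V] [DecidableEq V] (G : SimpleGraph V) [DecidableRel G.Adj],
      G.IsRegularOfDegree 3 →
      ∃ w : Finset V → ℝ,
        (∀ S, 0 ≤ w S) ∧
        (∀ S, w S ≠ 0 → ∀ v : V, ∃ u ∈ S, G.Adj v u) ∧
        (∀ v : V, ∑ S ∈ Finset.univ.filter (fun S : Finset V => v ∈ S), w S ≤ 1) ∧
        2 ≤ ∑ S, w S := by
  intro V _ _ G _ hr
  obtain ⟨ι, _, S, p, s, c⟩ := good_all G hr univ (fun _ _ _ _ _ _ => mem_univ _)
  have p' : (0 : ℝ) < Fintype.card ι := by exact_mod_cast p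
  refine ⟨fun T => ∑ i, if S i = T then 2 / (Fintype.card ι : ℝ) else 0, ?_, ?_, ?_, ?_⟩
  · intro T
    refine sum_nonneg fun i _ => ?_
    split_ifs
    · positivity
    · exact le_rfl
  · intro T hT v
    obtain ⟨i, -, hi⟩ := exists_ne_zero_of_sum_ne_zero hT
    have : S i = T := by
      by_contra hc
      exact hi (if_neg hc)
    rw [← this]
    exact (s i).2 v (mem_univ _)
  · intro v
    rw [sum_comm]
    have h1 : ∀ i, (∑ T ∈ Finset.univ.filter (fun S : Finset V => v ∈ S),
        if S i = T then 2 / (Fintype.card ι : ℝ) else 0) =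
        2 / (Fintype.card ι : ℝ) * ((if v ∈ S i then 1 else 0 : ℕ) : ℝ) := by
      intro i
      rw [sum_ite_eq]
      by_cases h : v ∈ S i <;> simp [h]
    simp only [h1]
    rw [← mul_sum, ← Nat.cast_sum, div_mul_eq_mul_div, div_le_one p']
    exact_mod_cast c v
  · rw [sum_comm]
    simp only [sum_ite_eq, mem_univ, if_true, sum_const, card_univ, nsmul_eq_mul]
    rw [mul_div_cancel₀ _ p'.ne']

end Pool.Agent.S10153
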