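import Pool.Statements.S10173
import Pool.Agent.H9.Isoclinic

set_option autoImplicit false
open Pool Pool.MP_932050_co

namespace Pool.Agent.S10173

open Pool.Agent.H9.Isoclinic

/-- A linear bound for equi-isoclinic subspaces with a fixed angle. -/
theorem result :
    ∀ k : ℕ, 1 ≤ k → ∀ α : ℝ, 0 ≤ α → α ≤ 1 →
      ∃ C : ℝ, ∀ d : ℕ, k ≤ d →
        ∀ S : Finset (Submodule ℝ (EuclideanSpace ℝ (Fin d))),
          (∀ U ∈ S, Module.finrank ℝ U = k) →
          (∀ U ∈ S, ∀ V ∈ S, U ≠ V →
            ∀ u ∈ U, ‖u‖ = 1 → ‖V.orthogonalProjection u‖ = α) →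
          (S.card : ℝ) ≤ C * d := by
  intro k hk α h0 h1
  refine ⟨1 + k * (1 + α) / α ^ 2, fun d hd S h2 h3 => ?_⟩
  have k1 : (1 : ℝ) ≤ k := by exact_mod_cast hk
  have d1 : (1 : ℝ) ≤ d := by exact_mod_cast hk.trans hd
  have c0 : 0 ≤ k * (1 + α) / α ^ 2 := by positivity
  have hα : ∀ U ∈ S, ∀ V ∈ S, U ≠ V → ∀ u ∈ U, ‖V.starProjection u‖ = α * ‖u‖ := by
    intro U hU V hV hUV u hu
    by_cases hu0 : u = 0
    · simp [hu0]
    have hn : ‖u‖ ≠ 0 := norm_ne_zero_iff.2 hu0
    have := h3 U hU V hV hUV (‖u‖⁻¹ • u) (U.smul_mem _ hu) (by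
      rw [norm_smul, norm_inv, norm_norm, inv_mul_cancel₀ hn])
    rw [map_smul, norm_smul, norm_inv, norm_norm] at this
    change ‖u‖⁻¹ * ‖V.starProjection u‖ = α at this
    rw [← this]; field_simp
  have N0 : (0 : ℝ) ≤ S.card := Nat.cast_nonneg _
  rcases h0.eq_or_lt with h | h
  · have := bound0 k α S h2 hα h.symm
    simp only [finrank_euclideanSpace, Fintype.card_fin] at this
    nlinarith
  rcases h1.eq_or_lt with g | g
  · have : S.card ≤ 1 := by
      rw [Finset.card_le_one]
      intro U hU V hV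
      by_contra hUV
      apply hUV
      apply Submodule.eq_of_le_of_finrank_eq _ ((h2 U hU).trans (h2 V hV).symm)
      intro u hu
      have a := hα U hU V hV hUV u hu
      have b := Submodule.norm_sq_eq_add_norm_sq_starProjection u V
      rw [a, g, one_mul, Submodule.starProjection_orthogonal_val] at b
      have c : u - V.starProjection u = 0 := by
        rw [← norm_eq_zero]
        exact pow_eq_zero_iff (two_ne_zero) |>.1 (by linarith)
      rw [sub_eq_zero] at c
      rw [c]
      exact V.starProjection_apply_mem u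
    have : (S.card : ℝ) ≤ 1 := by exact_mod_cast this
    nlinarith
  · have := bound k α S h2 hα h0 h1
    simp only [finrank_euclideanSpace, Fintype.card_fin] at this
    have e : α ^ 2 * S.card ≤ α ^ 2 + d * (k * (1 + α)) := by
      have h4 : 0 < (k : ℝ) * (1 - α) := mul_pos (by linarith) (by linarith)
      refine le_of_mul_le_mul_left ?_ h4
      nlinarith
    have a2 : 0 < α ^ 2 := by positivity
    have e2 : (1 + k * (1 + α) / α ^ 2) * d = (α ^ 2 * d + d * (k * (1 + α))) / α ^ 2 := by
      field_simp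
    rw [e2, le_div_iff₀ a2]
    nlinarith

end Pool.Agent.S10173
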