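import Pool.Statements.S10196
-- import your own Pool.Agent.* helpers here

set_option autoImplicit false
open Pool Pool.MP_93ee52_co

namespace Pool.Agent.S10196

def r (a b : ℕ) : Bool :=
  (Nat.blt a 8 && (b == a + 8 || b == 16 || b == 17)) ||
    (Nat.ble 8 a && Nat.blt a 16 && (b == 18 || b == 19))

def G : SimpleGraph (Fin (10 * 2)) where
  Adj a b := (r a b || r b a) = true
  symm := ⟨fun a b h => by rwa [Bool.or_comm]⟩
  loopless := ⟨by decide⟩

instance : DecidableRel G.Adj := fun a b => inferInstanceAs (Decidable ((r a b || r b a) = true))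

def mem (t a : ℕ) : Bool :=
  (Nat.blt a 8 && (t + 1).testBit a) || (Nat.ble 8 a && Nat.blt a 16 && !(t + 1).testBit (a - 8))

def dec (t : ℕ) : ℕ := ((List.range 8).map (fun a => if mem t a then 2 ^ a else 0)).sum

lemma h1 : ∀ t : Fin 254, ∀ a b : Fin (10 * 2), mem t a = true → mem t b = true → ¬ G.Adj a b := by
  decide +kernel

lemma h2 : ∀ t : Fin 254, ∀ a : Fin (10 * 2), mem t a = true ∨ ∃ b : Fin (10 * 2),
    mem t b = true ∧ G.Adj a b := by
  decide +kernel

lemma h3 : ∀ t : Fin 254, dec t = t + 1 := by decide +kernel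

lemma h4 : ∀ a b c : Fin (10 * 2), G.Adj a b → G.Adj a c → ¬ G.Adj b c := by decide +kernel

/-- The negation of the preceding statement: For every n, every triangle-free simple graph on 10n vertices in which each vertex has degree at least 3 has at most 15^n maximal independent sets (independent sets maximal under inclusion). -/
theorem result :
    ¬ (∀ (n : ℕ) (G : SimpleGraph (Fin (10 * n))) [DecidableRel G.Adj],
      G.CliqueFree 3 →
      (∀ v : Fin (10 * n), 3 ≤ G.degree v) →
      {s : Set (Fin (10 * n)) | Maximal G.IsIndepSet s}.ncard ≤ 15 ^ n) := by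
  intro h
  have := h 2 G (fun s hs => by
    obtain ⟨a, b, c, k1, k2, k3, -⟩ := SimpleGraph.is3Clique_iff.1 hs
    exact h4 a b c k1 k2 k3) (by decide +kernel)
  let S : Fin 254 → Set (Fin (10 * 2)) := fun t => {a | mem t a = true}
  have hS : Function.Injective S := by
    intro t t' e
    have e1 : ∀ a : Fin (10 * 2), mem t a = mem t' a := fun a =>
      Bool.eq_iff_iff.2 (Set.ext_iff.1 e a)
    have e2 : dec t = dec t' := by
      unfold dec
      refine congrArg List.sum (List.map_congr_left fun a ha => ?_)
      rw [e1 ⟨a, by have := List.mem_range.1 ha; omega⟩]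
    rw [h3, h3] at e2
    exact Fin.ext (by omega)
  have hsub : Set.range S ⊆ {s : Set (Fin (10 * 2)) | Maximal G.IsIndepSet s} := by
    rintro _ ⟨t, rfl⟩
    refine ⟨fun a ha b hb _ => h1 t a b ha hb, fun s hs hle a ha => ?_⟩
    rcases h2 t a with h | ⟨b, hb, hab⟩
    · exact h
    · exact absurd hab (hs ha (hle hb) hab.ne)
  have h5 := Set.ncard_le_ncard hsub
  rw [Set.ncard_range_of_injective hS] at h5
  simp only [Nat.card_eq_fintype_card, Fintype.card_fin] at h5
  omega

end Pool.Agent.S10196
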