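import Pool.Statements.S10267
import Pool.Agent.H6.Derived

set_option autoImplicit false
open Pool Pool.MP_96d021_co

namespace Pool.Agent.S10267

/-- There is a positive f such that every finite multi-hypergraph of rank at most r (r ≥ 1) whose derived graphs are all d-colourable has a strong colouring with at most f(d)·r colours. -/
theorem result :
    ∃ f : ℕ → ℝ, (∀ n, 0 < f n) ∧
      ∀ (V ι : Type) [Fintype V] [Fintype ι] (e : ι → Finset V) (d r : ℕ),
        1 ≤ r → (∀ i, (e i).card ≤ r) →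
        (∀ p : ι → V × V,
            (∀ i, 2 ≤ (e i).card →
              (p i).1 ∈ e i ∧ (p i).2 ∈ e i ∧ (p i).1 ≠ (p i).2) →
            (SimpleGraph.fromRel
              (fun u v : V => ∃ i, 2 ≤ (e i).card ∧ p i = (u, v))).Colorable d) →
        ∃ k : ℕ, (k : ℝ) ≤ f d * (r : ℝ) ∧
          ∃ c : V → Fin k, ∀ i, Set.InjOn c ((e i : Finset V) : Set V) := by
  refine ⟨fun d => ((Pool.Agent.H6.Derived.CC d + 1) * d ^ (d * d) + 1 : ℕ),
    fun n => by positivity, ?_⟩
  intro V ι _ _ e d r hr1 hr hcol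
  classical
  rcases isEmpty_or_nonempty V with hV | hV
  · exact ⟨0, by rw [Nat.cast_zero]; positivity, isEmptyElim, fun i u => isEmptyElim u⟩
  have hg : Pool.Agent.H6.Derived.Good e d := by
    intro I p hp
    have hdef : ∀ i, ∃ q : V × V, (i ∈ I → q = p i) ∧
        (2 ≤ (e i).card → q.1 ∈ e i ∧ q.2 ∈ e i ∧ q.1 ≠ q.2) := by
      intro i
      by_cases hi : i ∈ I
      · exact ⟨p i, fun _ => rfl, fun _ => hp i hi⟩
      · by_cases h2 : 2 ≤ (e i).card
        · obtain ⟨a, ha, b, hb, hab⟩ := Finset.one_lt_card.1 h2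
          exact ⟨(a, b), fun h => absurd h hi, fun _ => ⟨ha, hb, hab⟩⟩
        · exact ⟨p i, fun _ => rfl, fun h => absurd h h2⟩
    choose q hq1 hq2 using hdef
    obtain ⟨c⟩ := hcol q hq2
    refine ⟨c, fun i hi => c.valid ?_⟩
    rw [SimpleGraph.fromRel_adj]
    exact ⟨(hp i hi).2.2, Or.inl ⟨i, Finset.one_lt_card.2
      ⟨_, (hp i hi).1, _, (hp i hi).2.1, (hp i hi).2.2⟩, hq1 i hi⟩⟩
  have hd : 0 < d := by
    obtain ⟨c, -⟩ := hg ∅ (fun _ => Classical.arbitrary _) (by simp)
    exact (c (Classical.arbitrary V)).pos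
  obtain ⟨c, hc⟩ := Pool.Agent.H6.Derived.main hd hg hr
  refine ⟨_, ?_, fun v => Fintype.equivFin _ (c v),
    fun i u hu w hw h => hc i hu hw ((Fintype.equivFin _).injective h)⟩
  simp only [Fintype.card_prod, Fintype.card_fin, Fintype.card_fun]
  have : (Pool.Agent.H6.Derived.CC d * r + 1) * d ^ (d * d) ≤
      ((Pool.Agent.H6.Derived.CC d + 1) * d ^ (d * d) + 1) * r := by
    nlinarith [Nat.zero_le (d ^ (d * d)), Nat.mul_le_mul_left (d ^ (d * d)) hr1]
  exact_mod_cast this

end Pool.Agent.S10267
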