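import Pool.Statements.S10310
import Pool.Agent.H16.DiffP

set_option autoImplicit false
open Pool Pool.MP_987dc0_co

namespace Pool.Agent.S10310


/-- The negation of the preceding statement: For every r ≥ 1, every r-differential poset has, in each rank n, at least as many elements as the number of r-tuples of partitions of total size n, i.e. at least the rank-n size of the r-th power of Young's lattice. -/
theorem result :
    ¬ (∀ (r : ℕ), 0 < r →
      ∀ (P : Type) [PartialOrder P] [OrderBot P] [LocallyFiniteOrder P] (ρ : P → ℕ),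
        ρ ⊥ = 0 →
        (∀ x y : P, x ⋖ y → ρ y = ρ x + 1) →
        (∀ n : ℕ, {x : P | ρ x = n}.Finite) →
        (∀ x : P, {z : P | x ⋖ z}.Finite ∧
            {z : P | x ⋖ z}.ncard = {z : P | z ⋖ x}.ncard + r) →
        (∀ x y : P, x ≠ y →
            {z : P | z ⋖ x ∧ z ⋖ y}.ncard = {z : P | x ⋖ z ∧ y ⋖ z}.ncard) →
        ∀ n : ℕ,
          (∑ f ∈ Finset.Nat.antidiagonalTuple r n, ∏ i, Fintype.card (Nat.Partition (f i)))
            ≤ {x : P | ρ x = n}.ncard) := by
  exact Pool.Agent.H16.DiffP.main

end Pool.Agent.S10310
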