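import Pool.Statements.S10323
import Pool.Agent.H20.TreePart

set_option autoImplicit false
open Pool Pool.MP_993692_co

namespace Pool.Agent.S10323

open Complex Classical

abbrev E (N : ℕ) := ℝ × (Fin N → ℂ)

variable {N : ℕ}

noncomputable def ev (p : E N) (k : ℕ) : ℂ := if h : k < N then p.2 ⟨k, h⟩ else 0

noncomputable def rot (p : E N) : ℂ := exp ((p.1 : ℂ) * I)

noncomputable def A (c : ℕ) (p : E N) : List ℕ → ℂ
  | [] => 0
  | e :: r => rot p * (ev p (2 * c + e) + A c p r)

noncomputable def pos (c : ℕ) (p : E N) (l : List ℕ) (k : ℕ) : ℂ :=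
  A c p l + rot p ^ l.length * ev p k

theorem an_ev (k : ℕ) (q : E N) : AnalyticAt ℝ (fun p : E N => ev p k) q := by
  unfold ev
  by_cases h : k < N
  · simp only [h, dif_pos]
    exact ((ContinuousLinearMap.proj (R := ℝ) (φ := fun _ : Fin N => ℂ) ⟨k, h⟩).comp
      (ContinuousLinearMap.snd ℝ ℝ (Fin N → ℂ))).analyticAt q
  · simp only [h, dif_neg, not_false_eq_true]
    exact analyticAt_const

theorem an_rot (q : E N) : AnalyticAt ℝ (fun p : E N => rot p) q := by
  unfold rot
  have h1 : AnalyticAt ℝ (fun p : E N => (p.1 : ℂ) * I) q :=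
    ((ofRealCLM.comp (ContinuousLinearMap.fst ℝ ℝ (Fin N → ℂ))).analyticAt q).mul analyticAt_const
  exact (analyticAt_cexp.restrictScalars (𝕜 := ℝ)).comp h1

theorem an_A (c : ℕ) (l : List ℕ) (q : E N) : AnalyticAt ℝ (fun p : E N => A c p l) q := by
  induction l with
  | nil => exact analyticAt_const
  | cons e r ih => exact (an_rot q).mul ((an_ev _ q).add ih)

theorem an_pos (c : ℕ) (l : List ℕ) (k : ℕ) (q : E N) :
    AnalyticAt ℝ (fun p : E N => pos c p l k) q :=
  (an_A c l q).add (((an_rot q).pow _).mul (an_ev _ q))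

theorem dense_ne (f : E N → ℂ) (hf : ∀ q, AnalyticAt ℝ f q) (h : ∃ p, f p ≠ 0) :
    IsOpen {p | f p ≠ 0} ∧ Dense {p | f p ≠ 0} := by
  have hc : Continuous f := continuous_iff_continuousAt.2 fun q => (hf q).continuousAt
  refine ⟨isOpen_ne_fun hc continuous_const, fun q => ?_⟩
  by_contra hq
  obtain ⟨p, hp⟩ := h
  apply hp
  refine AnalyticOnNhd.eqOn_zero_of_preconnected_of_eventuallyEq_zero (𝕜 := ℝ) (U := Set.univ)
    (fun q _ => hf q) isPreconnected_univ (Set.mem_univ q) ?_ (Set.mem_univ p)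
  have := notMem_closure_iff_nhdsWithin_eq_bot.1 hq
  rw [← Filter.eventually_false_iff_eq_bot, eventually_nhdsWithin_iff] at this
  filter_upwards [this] with x hx
  by_contra h
  exact hx h

theorem norm_rot (p : E N) : ‖rot p‖ = 1 := norm_exp_ofReal_mul_I _

theorem rot_ne (p : E N) : rot p ≠ 0 := exp_ne_zero _

theorem A_app (c : ℕ) (p : E N) (l : List ℕ) (e : ℕ) :
    A c p (l ++ [e]) = A c p l + rot p ^ (l.length + 1) * ev p (2 * c + e) := by
  induction l with
  | nil => simp [A]
  | cons x r ih => simp only [List.cons_append, A, ih, List.length_cons]; ring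

noncomputable def upd (p : E N) (k : ℕ) (t : ℂ) : E N :=
  (p.1, fun i => if i.val = k then t else p.2 i)

theorem ev_upd_ne (p : E N) (k j : ℕ) (t : ℂ) (h : j ≠ k) : ev (upd p k t) j = ev p j := by
  unfold ev upd
  by_cases h1 : j < N <;> simp [h1, h]

theorem ev_upd (p : E N) (k : ℕ) (t : ℂ) (h : k < N) : ev (upd p k t) k = t := by
  unfold ev upd
  simp [h]

theorem A_upd (c : ℕ) (p : E N) (k : ℕ) (t : ℂ) (h : k < 2 * c) (l : List ℕ) :
    A c (upd p k t) l = A c p l := by
  induction l with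
  | nil => rfl
  | cons e r ih =>
    simp only [A, ih]
    rw [ev_upd_ne p k _ t (by omega)]
    rfl

theorem move (c : ℕ) (p : E N) (l : List ℕ) (k : ℕ) (h : k < 2 * c) (hN : k < N) (τ : ℂ) :
    ∃ q : E N, pos c q l k = τ ∧ ∀ m j, j ≠ k → pos c q m j = pos c p m j := by
  refine ⟨upd p k ((τ - A c p l) / rot p ^ l.length), ?_, ?_⟩
  · unfold pos
    rw [A_upd c p k _ h, ev_upd p k _ hN]
    have : rot p ^ l.length ≠ 0 := pow_ne_zero _ (rot_ne p)
    change A c p l + rot p ^ l.length * _ = τ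
    field_simp
    ring
  · intro m j hj
    unfold pos
    rw [A_upd c p k _ h, ev_upd_ne p k j _ hj]
    rfl

open Polynomial in
noncomputable def P : List ℕ → Polynomial ℂ
  | [] => 0
  | e :: r => X * (C ((e : ℂ) + 1) + P r)

theorem P_zero (l : List ℕ) : (P l).coeff 0 = 0 := by
  cases l <;> simp [P]

theorem P_inj (l m : List ℕ) (h : P l = P m) : l = m := by
  have k0 : ∀ (e : ℕ) r, P (e :: r) ≠ 0 := by
    intro e r h
    simp only [P, mul_eq_zero, Polynomial.X_ne_zero, false_or] at h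
    have := congrArg (fun q => Polynomial.coeff q 0) h
    simp only [Polynomial.coeff_add, Polynomial.coeff_C_zero, P_zero, add_zero,
      Polynomial.coeff_zero] at this
    exact Nat.cast_add_one_ne_zero e this
  induction l generalizing m with
  | nil =>
    cases m with
    | nil => rfl
    | cons e r => exact absurd h.symm (k0 e r)
  | cons x s ih =>
    cases m with
    | nil => exact absurd h (k0 x s)
    | cons e r =>
      simp only [P] at h
      have h1 := mul_left_cancel₀ Polynomial.X_ne_zero h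
      have := congrArg (fun q => Polynomial.coeff q 0) h1
      simp only [Polynomial.coeff_add, Polynomial.coeff_C_zero, P_zero, add_zero,
        add_left_inj, Nat.cast_inj] at this
      subst this
      rw [ih r (add_left_cancel h1)]

theorem sepAddr (c : ℕ) (l m : List ℕ) (hl : ∀ e ∈ l, e < c) (hm : ∀ e ∈ m, e < c) (h : l ≠ m)
    (k : ℕ) (hk : k < 2 * c) : ∃ p : E (3 * c), pos c p l k ≠ pos c p m k := by
  by_contra hc
  push Not at hc
  let y : Fin (3 * c) → ℂ := fun i => if i.val < 2 * c then 0 else ((i.val - 2 * c : ℕ) : ℂ) + 1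
  have e1 : ∀ θ : ℝ, ev ((θ, y) : E (3 * c)) k = 0 := by
    intro θ
    have : k < 3 * c := by omega
    simp [ev, y, this, hk]
  have e2 : ∀ θ : ℝ, ∀ l : List ℕ, (∀ e ∈ l, e < c) →
      A c ((θ, y) : E (3 * c)) l = (P l).eval (exp ((θ : ℂ) * I)) := by
    intro θ l
    induction l with
    | nil => simp [A, P]
    | cons e r ih =>
      intro h
      have h1 : 2 * c + e < 3 * c := by have := h e (by simp); omega
      simp only [A, P, ih (fun x hx => h x (by simp [hx]))]
      simp [ev, y, h1, rot]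
  apply h
  apply P_inj
  apply Polynomial.eq_of_infinite_eval_eq
  have hinf : (Set.Ioo (0 : ℝ) 1).Infinite := Set.Ioo_infinite (by norm_num)
  refine Set.infinite_of_injOn_mapsTo (f := fun θ : ℝ => exp ((θ : ℂ) * I)) ?_ ?_ hinf
  · intro a ha b hb e
    have pi3 := Real.pi_gt_three
    have := exp_inj_of_neg_pi_lt_of_le_pi (x := (a : ℂ) * I) (y := (b : ℂ) * I)
      (by simp; linarith [ha.1]) (by simp; linarith [ha.2]) (by simp; linarith [hb.1])
      (by simp; linarith [hb.2]) e
    simpa using this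
  · intro θ _
    have := hc (θ, y)
    unfold pos at this
    rw [e1, e2 θ l hl, e2 θ m hm] at this
    simpa using this

noncomputable def D (a b c : ℂ) : ℂ :=
  (b - a) * (starRingEnd ℂ) (c - a) - (starRingEnd ℂ) (b - a) * (c - a)

theorem D_mid (a c : ℂ) (h : a ≠ c) : D a (a + I * (c - a)) c ≠ 0 := by
  have h1 : c - a ≠ 0 := sub_ne_zero.2 h.symm
  have h2 : (starRingEnd ℂ) (c - a) ≠ 0 := (map_ne_zero _).2 h1
  have : D a (a + I * (c - a)) c = 2 * I * ((c - a) * (starRingEnd ℂ) (c - a)) := by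
    unfold D
    simp only [add_sub_cancel_left, map_mul, conj_I]
    ring
  rw [this]
  exact mul_ne_zero (mul_ne_zero two_ne_zero I_ne_zero) (mul_ne_zero h1 h2)

theorem D_swap (a b c : ℂ) : D a b c = - D b a c := by
  unfold D
  simp only [map_sub]
  ring

theorem D_seg (a b : ℂ) (s t : ℝ) (h : s + t = 1) : D a b (s • a + t • b) = 0 := by
  have : s = 1 - t := by linarith
  subst this
  unfold D
  simp only [real_smul, map_sub, map_add, map_mul, conj_ofReal]
  push_cast
  ring

theorem geom (c : ℕ) (V : Type) [Fintype V] (G : SimpleGraph V) (addr : V → List ℕ) (lab : V → ℕ)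
    (h1 : ∀ v, lab v < c ∧ ∀ e ∈ addr v, e < c)
    (h2 : ∀ u v, addr u = addr v → lab u = lab v → u = v)
    (h3 : ∀ u v, G.Adj u v →
        addr u = addr v ∨ (∃ e, addr v = addr u ++ [e]) ∨ ∃ e, addr u = addr v ++ [e]) :
    ∃ z : V → ℂ, Function.Injective z ∧
      (∀ u v w, G.Adj u v → w ≠ u → w ≠ v → D (z u) (z v) (z w) ≠ 0) ∧
      {d : ℝ | ∃ u v, G.Adj u v ∧ dist (z u) (z v) = d}.ncard ≤ (3 * c) ^ 2 + (3 * c) ^ 3 := by
  let lam : V → ℕ := fun v => lab v + c * ((addr v).length % 2)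
  have l1 : ∀ v, lam v < 2 * c := by
    intro v
    have := (h1 v).1
    rcases Nat.mod_two_eq_zero_or_one (addr v).length with h | h <;> simp only [lam, h] <;> omega
  have l2 : ∀ u v, lam u = lam v → lab u = lab v ∧ (addr u).length % 2 = (addr v).length % 2 := by
    intro u v e
    have := (h1 v).1
    have := (h1 u).1
    rcases Nat.mod_two_eq_zero_or_one (addr v).length with h | h <;>
      rcases Nat.mod_two_eq_zero_or_one (addr u).length with h' | h' <;>
      simp only [lam, h, h'] at e <;> omega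
  have l3 : ∀ u v, G.Adj u v → lam u ≠ lam v := by
    intro u v huv e
    obtain ⟨e1, e2⟩ := l2 u v e
    rcases h3 u v huv with h | ⟨x, h⟩ | ⟨x, h⟩
    · exact huv.ne (h2 u v h e1)
    · rw [h] at e2; simp at e2; omega
    · rw [h] at e2; simp at e2; omega
  let z : E (3 * c) → V → ℂ := fun p v => pos c p (addr v) (lam v)
  have w1 : ∀ u v, u ≠ v → ∃ p, z p u ≠ z p v := by
    intro u v huv
    by_cases e : lam u = lam v
    · have := sepAddr c (addr u) (addr v) (h1 u).2 (h1 v).2
        (fun h => huv (h2 u v h (l2 u v e).1)) (lam u) (l1 u)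
      simp only [z]
      rw [← e]
      exact this
    · obtain ⟨q, a1, a2⟩ := move c (0 : E (3 * c)) (addr u) (lam u) (l1 u)
        (by have := l1 u; omega) (z 0 v + 1)
      refine ⟨q, ?_⟩
      simp only [z] at a1 ⊢
      rw [a1, a2 _ _ (Ne.symm e)]
      simp
  have w2' : ∀ u v w, lam v ≠ lam u → lam v ≠ lam w → u ≠ w → ∃ p, D (z p u) (z p v) (z p w) ≠ 0 := by
    intro u v w n1 n2 n3
    obtain ⟨p, hp⟩ := w1 u w n3
    obtain ⟨q, a1, a2⟩ := move c p (addr v) (lam v) (l1 v)
      (by have := l1 v; omega) (z p u + I * (z p w - z p u))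
    refine ⟨q, ?_⟩
    simp only [z] at a1 hp ⊢
    rw [a1, a2 _ _ n1.symm, a2 _ _ n2.symm]
    exact D_mid _ _ hp
  have w2 : ∀ u v w, G.Adj u v → w ≠ u → w ≠ v → ∃ p, D (z p u) (z p v) (z p w) ≠ 0 := by
    intro u v w huv n1 n2
    by_cases e : lam v = lam w
    · obtain ⟨p, hp⟩ := w2' v u w (l3 u v huv) (e ▸ l3 u v huv) n2.symm
      exact ⟨p, by rw [D_swap]; exact neg_ne_zero.2 hp⟩
    · exact w2' u v w (l3 u v huv).symm e n1.symm
  have az : ∀ v q, AnalyticAt ℝ (fun p => z p v) q := fun v q => an_pos c _ _ q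
  have ac : ∀ (f : E (3 * c) → ℂ) q, AnalyticAt ℝ f q →
      AnalyticAt ℝ (fun p => (starRingEnd ℂ) (f p)) q :=
    fun f q hf => ((conjCLE : ℂ →L[ℝ] ℂ).analyticAt _).comp hf
  let S1 : V × V → Set (E (3 * c)) := fun i => {p | i.1 ≠ i.2 → z p i.1 - z p i.2 ≠ 0}
  let S2 : V × V × V → Set (E (3 * c)) := fun i => {p | (G.Adj i.1 i.2.1 ∧ i.2.2 ≠ i.1 ∧
    i.2.2 ≠ i.2.1) → D (z p i.1) (z p i.2.1) (z p i.2.2) ≠ 0}
  have s1 : ∀ i, IsOpen (S1 i) ∧ Dense (S1 i) := by
    rintro ⟨u, v⟩
    by_cases h : u = v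
    · simp [S1, h]
    · simp only [S1, ne_eq, h, not_false_eq_true, forall_const]
      refine dense_ne _ (fun q => (az u q).sub (az v q)) ?_
      obtain ⟨p, hp⟩ := w1 u v h
      exact ⟨p, sub_ne_zero.2 hp⟩
  have s2 : ∀ i, IsOpen (S2 i) ∧ Dense (S2 i) := by
    rintro ⟨u, v, w⟩
    by_cases h : G.Adj u v ∧ w ≠ u ∧ w ≠ v
    · have : S2 (u, v, w) = {p | D (z p u) (z p v) (z p w) ≠ 0} := by
        ext p; exact ⟨fun h' => h' h, fun h' _ => h'⟩
      rw [this]
      refine dense_ne _ (fun q => ?_) (w2 u v w h.1 h.2.1 h.2.2)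
      exact (((az v q).sub (az u q)).mul (ac _ q ((az w q).sub (az u q)))).sub
        ((ac _ q ((az v q).sub (az u q))).mul ((az w q).sub (az u q)))
    · have : S2 (u, v, w) = Set.univ := by
        ext p; exact ⟨fun _ => trivial, fun _ h' => absurd h' h⟩
      rw [this]
      simp
  obtain ⟨p, p1, p2⟩ := ((dense_iInter_of_isOpen (fun i => (s1 i).1) (fun i => (s1 i).2)).inter_of_isOpen_right
    (dense_iInter_of_isOpen (fun i => (s2 i).1) (fun i => (s2 i).2))
    (isOpen_iInter_of_finite fun i => (s2 i).1)).nonempty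
  rw [Set.mem_iInter] at p1 p2
  refine ⟨z p, ?_, fun u v w a b c => p2 (u, v, w) ⟨a, b, c⟩, ?_⟩
  · intro u v e
    by_contra h
    exact p1 (u, v) h (sub_eq_zero.2 e)
  · let R := Finset.range (3 * c)
    let F1 := (R ×ˢ R).image (fun i => ‖ev p i.1 - ev p i.2‖)
    let F2 := (R ×ˢ R ×ˢ R).image (fun i => ‖rot p * (ev p i.1 + ev p i.2.1) - ev p i.2.2‖)
    have mR : ∀ v, lam v ∈ R := fun v => Finset.mem_range.2 (by have := l1 v; omega)
    have pc : ∀ u v e, addr v = addr u ++ [e] → dist (z p v) (z p u) ∈ F2 := by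
      intro u v e h
      have he : e < c := (h1 v).2 e (by simp [h])
      refine Finset.mem_image.2 ⟨(2 * c + e, lam v, lam u), Finset.mem_product.2
        ⟨Finset.mem_range.2 (by omega), Finset.mem_product.2 ⟨mR v, mR u⟩⟩, ?_⟩
      have : z p v - z p u = rot p ^ (addr u).length *
          (rot p * (ev p (2 * c + e) + ev p (lam v)) - ev p (lam u)) := by
        simp only [z, pos, h, A_app, List.length_append, List.length_singleton]
        ring
      rw [dist_eq_norm, this, norm_mul, norm_pow, norm_rot]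
      simp
    have hsub : {d : ℝ | ∃ u v, G.Adj u v ∧ dist (z p u) (z p v) = d} ⊆ ↑(F1 ∪ F2) := by
      rintro d ⟨u, v, huv, rfl⟩
      rw [Finset.mem_coe, Finset.mem_union]
      rcases h3 u v huv with h | ⟨x, h⟩ | ⟨x, h⟩
      · left
        refine Finset.mem_image.2 ⟨(lam u, lam v), Finset.mem_product.2 ⟨mR u, mR v⟩, ?_⟩
        have : z p u - z p v = rot p ^ (addr v).length * (ev p (lam u) - ev p (lam v)) := by
          simp only [z, pos, h]
          ring
        rw [dist_eq_norm, this, norm_mul, norm_pow, norm_rot]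
        simp
      · right; rw [dist_comm]; exact pc u v x h
      · right; exact pc v u x h
    refine (Set.ncard_le_ncard hsub (Finset.finite_toSet _)).trans ?_
    rw [Set.ncard_coe_finset]
    refine (Finset.card_union_le _ _).trans (Nat.add_le_add ?_ ?_)
    · refine Finset.card_image_le.trans ?_
      simp [R, sq]
    · refine Finset.card_image_le.trans ?_
      simp only [R, Finset.card_product, Finset.card_range]
      exact le_of_eq (by ring)

/-- For all k, ℓ there is D such that every finite graph with treewidth ≤ k and max degree ≤ ℓ has a straight-line plane drawing with distinct vertex points and no vertex on a non-incident edge, using at most D distinct edge lengths. -/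
theorem result :
    ∀ k ℓ : ℕ, ∃ D : ℕ, ∀ (V : Type) [Fintype V] (G : SimpleGraph V),
      (∃ (ι : Type) (_ : Fintype ι) (T : SimpleGraph ι) (B : ι → Finset V),
        T.IsTree ∧ (∀ i, (B i).card ≤ k + 1) ∧ (∀ v, ∃ i, v ∈ B i) ∧
        (∀ u v, G.Adj u v → ∃ i, u ∈ B i ∧ v ∈ B i) ∧
        (∀ v i j, v ∈ B i → v ∈ B j → ∃ q : T.Walk i j, ∀ x ∈ q.support, v ∈ B x)) →
      (∀ v, (G.neighborSet v).ncard ≤ ℓ) →
      ∃ p : V → EuclideanSpace ℝ (Fin 2), Function.Injective p ∧
        (∀ u v w, G.Adj u v → w ≠ u → w ≠ v → p w ∉ segment ℝ (p u) (p v)) ∧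
        {d : ℝ | ∃ u v, G.Adj u v ∧ dist (p u) (p v) = d}.ncard ≤ D := by
  intro k l
  obtain ⟨c, hc⟩ := H20.TreePart.treePartition (k + 1) l
  refine ⟨(3 * c) ^ 2 + (3 * c) ^ 3, ?_⟩
  rintro V _ G ⟨ι, _, T, B, hT, h1, h2, h3, h4⟩ hl
  obtain ⟨addr, lab, a1, a2, a3⟩ := hc V G (H20.TreeSep.hasSep T G hT B _ h1 h2 h3 h4) hl
  obtain ⟨z, z1, z2, z3⟩ := geom c V G addr lab a1 a2 a3
  let φ := orthonormalBasisOneI.repr
  refine ⟨fun v => φ (z v), φ.injective.comp z1, ?_, ?_⟩
  · rintro u v w huv n1 n2 ⟨s, t, -, -, hst, e⟩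
    apply z2 u v w huv n1 n2
    have : z w = s • z u + t • z v := by
      apply φ.injective
      rw [map_add, map_smul, map_smul]
      exact e.symm
    rw [this]
    exact D_seg _ _ s t hst
  · simpa only [LinearIsometryEquiv.dist_map] using z3

end Pool.Agent.S10323
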