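import Pool.Statements.S10346
import Pool.Agent.H12.Cluster

set_option autoImplicit false
open Pool Pool.MP_9a52ae_co

namespace Pool.Agent.S10346

/-- The negation of the preceding statement: For every permutation pattern σ of length at least 2, the reciprocal of the exponential generating function of permutations avoiding σ as a consecutive pattern extends to an entire function on ℂ. -/
theorem result :
    ¬ (∀ k : ℕ, 2 ≤ k → ∀ σ : Equiv.Perm (Fin k),
      ∃ f : ℂ → ℂ, Differentiable ℂ f ∧
        ∀ᶠ z in nhds (0 : ℂ),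
          f z * (∑' n : ℕ,
            ((Nat.card {π : Equiv.Perm (Fin n) //
                ¬ ∃ i : ℕ, i + k ≤ n ∧
                  ∀ a b : Fin k,
                    (σ a < σ b ↔
                      (if h : i + (a : ℕ) < n then ((π ⟨i + (a : ℕ), h⟩ : Fin n) : ℕ) else 0) <
                      (if h : i + (b : ℕ) < n then ((π ⟨i + (b : ℕ), h⟩ : Fin n) : ℕ) else 0))} : ℕ) : ℂ)
              * z ^ n / ((Nat.factorial n : ℕ) : ℂ)) = 1) := by
  classical
  intro h
  let σ : Equiv.Perm (Fin 6) := ⟨![1, 4, 3, 0, 5, 2], ![3, 0, 5, 2, 1, 4], by decide, by decide⟩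
  obtain ⟨f, hf, h1⟩ := h 6 (by norm_num) σ
  refine Pool.Agent.H12.Cluster.not_entire f hf (h1.mono fun z hz => ?_)
  rw [← hz]
  congr 1
  refine tsum_congr fun n => ?_
  have key : ∀ x : ℕ → ℕ, (∀ a b : Fin 6, σ a < σ b ↔ x a < x b) ↔ Pool.Agent.H12.Cluster.O x := by
    intro x
    constructor
    · intro hx
      exact ⟨(hx 3 0).mp (by decide), (hx 0 5).mp (by decide), (hx 5 2).mp (by decide),
        (hx 2 1).mp (by decide), (hx 1 4).mp (by decide)⟩
    · rintro ⟨a1, a2, a3, a4, a5⟩ a b
      fin_cases a <;> fin_cases b <;> simp [σ] <;> omega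
  rw [Pool.Agent.H12.Cluster.A, Pool.Agent.H12.Cluster.T, Nat.card_eq_fintype_card,
    Fintype.card_subtype, Finset.card_filter]
  push_cast
  rw [div_mul_eq_mul_div]
  congr 2
  refine Finset.sum_congr rfl fun π _ => ?_
  rw [Pool.Agent.H12.Cluster.I]
  simp only [← key, ite_not]
  rw [apply_ite Complex.ofReal]
  exact if_congr Iff.rfl rfl rfl

end Pool.Agent.S10346
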