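import Pool.Statements.S10356
import Pool.Agent.H50.Fpp

set_option autoImplicit false
open Pool Pool.MP_9adbbf_co

namespace Pool.Agent.S10356

/-- The negation of the preceding statement: For every finite poset with the up-set (Alexandrov) topology in which every order-preserving self-map has a fixed point, the space is connected and any two closed connected sets covering it have connected intersection. -/
theorem result :
    ¬ (∀ (X : Type) [PartialOrder X] [Fintype X] [TopologicalSpace X] [Topology.IsUpperSet X],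
      (∀ f : X →o X, ∃ x, f x = x) →
        (ConnectedSpace X ∧
          ∀ A B : Set X, IsClosed A → IsClosed B → IsConnected A → IsConnected B →
            A ∪ B = Set.univ → IsConnected (A ∩ B))) := by
  intro h
  let _ : TopologicalSpace H50.Fpp.P := Topology.upperSet _
  have : Topology.IsUpperSet H50.Fpp.P := ⟨rfl⟩
  let e : Fin 17 → H50.Fpp.P := id
  have cl : ∀ y : H50.Fpp.P, IsClosed (Set.Iic y) := fun y =>
    Topology.IsUpperSet.isClosed_iff_isLower.2 (isLowerSet_Iic y)
  have pc : ∀ y : H50.Fpp.P, IsPreconnected (Set.Iic y) := fun y => by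
    rw [← Topology.IsUpperSet.closure_singleton]
    exact isPreconnected_singleton.closure
  have le_def : ∀ a b : H50.Fpp.P, a ≤ b ↔ H50.Fpp.le a b = true := fun _ _ => Iff.rfl
  have key := (h H50.Fpp.P H50.Fpp.fpp).2 (Set.Iic (e 14) ∪ Set.Iic (e 15) ∪ Set.Iic (e 16))
    (Set.Iic (e 12) ∪ Set.Iic (e 13)) (((cl _).union (cl _)).union (cl _)) ((cl _).union (cl _))
    ⟨⟨e 16, Or.inr Set.self_mem_Iic⟩, IsPreconnected.union (e 4) (Or.inl ((le_def _ _).2 (by decide)))
      ((le_def _ _).2 (by decide)) (IsPreconnected.union (e 4) ((le_def _ _).2 (by decide))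
        ((le_def _ _).2 (by decide)) (pc _) (pc _)) (pc _)⟩
    ⟨⟨e 13, Or.inr Set.self_mem_Iic⟩, IsPreconnected.union (e 5) ((le_def _ _).2 (by decide))
      ((le_def _ _).2 (by decide)) (pc _) (pc _)⟩
    (Set.eq_univ_of_forall (by
      simp only [Set.mem_union, Set.mem_Iic, le_def]
      change ∀ x : Fin 17, _
      decide +kernel))
  obtain ⟨x, -, h1, h2⟩ := isPreconnected_closed_iff.1 key.2 _ _ (cl (e 6)) (cl (e 8)) (by
      simp only [Set.subset_def, Set.mem_inter_iff, Set.mem_union, Set.mem_Iic, le_def]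
      change ∀ x : Fin 17, _
      decide +kernel)
    ⟨e 6, ⟨Or.inl (Or.inl ((le_def _ _).2 (by decide))), Or.inr ((le_def _ _).2 (by decide))⟩, Set.self_mem_Iic⟩
    ⟨e 8, ⟨Or.inr ((le_def _ _).2 (by decide)), Or.inl ((le_def _ _).2 (by decide))⟩, Set.self_mem_Iic⟩
  revert x
  simp only [Set.mem_Iic, le_def]
  change ∀ x : Fin 17, _
  decide +kernel

end Pool.Agent.S10356
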