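import Pool.Statements.S10390

set_option autoImplicit false
open Pool Pool.MP_9c2e29_co

namespace Pool.Agent.S10390

/-- x-coordinates (in quarters) of the eight vertices on the flat torus. -/
def px : Fin 8 → ℤ := ![0, 2, 1, 0, 3, 2, 1, 3]
/-- y-coordinates (in quarters). -/
def py : Fin 8 → ℤ := ![0, 3, 1, 3, 2, 0, 2, 1]

/-- x-displacement of the straight edge from u to v. -/
def dx : Fin 8 → Fin 8 → ℤ :=
  ![![0, 2, 1, 0, -1, -2, 1, -1],
    ![-2, 0, -1, 2, 1, 0, -1, 1],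
    ![-1, 1, 0, -1, -2, 1, 0, 0],
    ![0, -2, 1, 0, -1, 0, 1, 0],
    ![1, -1, 2, 1, 0, 0, 0, 0],
    ![2, 0, -1, 0, 0, 0, -1, 1],
    ![-1, 1, 0, -1, 0, 1, 0, 2],
    ![1, -1, 0, 0, 0, -1, -2, 0]]

/-- y-displacement of the straight edge from u to v. -/
def dy : Fin 8 → Fin 8 → ℤ :=
  ![![0, -1, 1, -1, 2, 0, -2, 1],
    ![1, 0, 2, 0, -1, 1, -1, -2],
    ![-1, -2, 0, 2, 1, -1, 0, 0],
    ![1, 0, -2, 0, -1, 0, -1, 0],
    ![-2, 1, -1, 1, 0, 0, 0, -1],
    ![0, -1, 1, 0, 0, 0, 2, 1],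
    ![2, 1, 0, 1, 0, -2, 0, -1],
    ![-1, 2, 0, 0, 1, -1, 1, 0]]

/-- The graph: join of an edge with the triangular prism, that is K8 minus a 6-cycle. -/
def adjB (u v : Fin 8) : Bool := (dx u v != 0) || (dy u v != 0)

def G : SimpleGraph (Fin 8) where
  Adj u v := adjB u v = true
  symm := ⟨by decide⟩
  loopless := ⟨by decide⟩

instance : DecidableRel G.Adj := fun u v => inferInstanceAs (Decidable (adjB u v = true))

def sep (a b w : ℤ) : Bool :=
  ((a != 0 || b != 0) && (decide (w ≤ min 0 a + min 0 b) || decide (max 0 a + max 0 b ≤ w)))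
    || (a == 0 && b == 0 && w != 0)

theorem sep_sound (a b w : ℤ) (h : sep a b w = true) (s t : ℝ) (s0 : 0 < s) (s1 : s < 1)
    (t0 : 0 < t) (t1 : t < 1) : s * a + t * b ≠ w := by
  intro e
  simp only [sep, Bool.or_eq_true, Bool.and_eq_true, bne_iff_ne, ne_eq, decide_eq_true_eq,
    beq_iff_eq] at h
  have key : ∀ (c : ℤ) (r : ℝ), 0 < r → r < 1 →
      (((min 0 c : ℤ) : ℝ) ≤ r * c ∧ r * c ≤ ((max 0 c : ℤ) : ℝ)) ∧
      (c ≠ 0 → ((min 0 c : ℤ) : ℝ) < r * c ∧ r * c < ((max 0 c : ℤ) : ℝ)) := by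
    intro c r r0 r1
    rcases lt_trichotomy c 0 with hc | hc | hc
    · have h1 : min 0 c = c := min_eq_right hc.le
      have h2 : max 0 c = 0 := max_eq_left hc.le
      have hc' : (c : ℝ) < 0 := by exact_mod_cast hc
      rw [h1, h2]
      push_cast
      refine ⟨⟨by nlinarith, by nlinarith⟩, fun _ => ⟨by nlinarith, by nlinarith⟩⟩
    · subst hc
      simp
    · have h1 : min 0 c = 0 := min_eq_left hc.le
      have h2 : max 0 c = c := max_eq_right hc.le
      have hc' : (0 : ℝ) < c := by exact_mod_cast hc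
      rw [h1, h2]
      push_cast
      refine ⟨⟨by nlinarith, by nlinarith⟩, fun _ => ⟨by nlinarith, by nlinarith⟩⟩
  obtain ⟨⟨a1, a2⟩, a3⟩ := key a s s0 s1
  obtain ⟨⟨b1, b2⟩, b3⟩ := key b t t0 t1
  rcases h with ⟨h0, h1⟩ | ⟨⟨ha, hb⟩, hw⟩
  · have hlt : ((min 0 a : ℤ) : ℝ) + ((min 0 b : ℤ) : ℝ) < s * a + t * b ∧
        s * a + t * b < ((max 0 a : ℤ) : ℝ) + ((max 0 b : ℤ) : ℝ) := by
      rcases h0 with h0 | h0
      · obtain ⟨c1, c2⟩ := a3 h0
        constructor <;> linarith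
      · obtain ⟨c1, c2⟩ := b3 h0
        constructor <;> linarith
    rcases h1 with h1 | h1
    · have : (w : ℝ) ≤ ((min 0 a : ℤ) : ℝ) + ((min 0 b : ℤ) : ℝ) := by exact_mod_cast h1
      linarith [hlt.1]
    · have : ((max 0 a : ℤ) : ℝ) + ((max 0 b : ℤ) : ℝ) ≤ (w : ℝ) := by exact_mod_cast h1
      linarith [hlt.2]
  · subst ha; subst hb
    apply hw
    have : (w : ℝ) = 0 := by rw [← e]; simp
    exact_mod_cast this

/-- no solution of s D + t E = W with s, t in the open unit interval. -/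
def nosol (d1 d2 e1 e2 w1 w2 : ℤ) : Bool :=
  sep d1 e1 w1 || sep d2 e2 w2 ||
  sep 0 (d1 * e2 - d2 * e1) (d1 * w2 - d2 * w1) ||
  sep (e1 * d2 - e2 * d1) 0 (e1 * w2 - e2 * w1)

theorem nosol_sound (d1 d2 e1 e2 w1 w2 : ℤ) (h : nosol d1 d2 e1 e2 w1 w2 = true)
    (s t : ℝ) (s0 : 0 < s) (s1 : s < 1) (t0 : 0 < t) (t1 : t < 1)
    (h1 : s * d1 + t * e1 = w1) (h2 : s * d2 + t * e2 = w2) : False := by
  simp only [nosol, Bool.or_eq_true] at h
  rcases h with ((h | h) | h) | h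
  · exact sep_sound _ _ _ h s t s0 s1 t0 t1 h1
  · exact sep_sound _ _ _ h s t s0 s1 t0 t1 h2
  · apply sep_sound _ _ _ h s t s0 s1 t0 t1
    push_cast
    rw [← h1, ← h2]; ring
  · apply sep_sound _ _ _ h s t s0 s1 t0 t1
    push_cast
    rw [← h1, ← h2]; ring

theorem circ_eq {x y : ℝ} (h : ((x / 4 : ℝ) : AddCircle (1:ℝ)) = ((y / 4 : ℝ) : AddCircle (1:ℝ))) :
    ∃ m : ℤ, x - y = 4 * m := by
  have h2 : ((x / 4 - y / 4 : ℝ) : AddCircle (1:ℝ)) = 0 := by
    rw [AddCircle.coe_sub, h, sub_self]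
  rw [AddCircle.coe_eq_zero_iff] at h2
  obtain ⟨m, hm⟩ := h2
  refine ⟨m, ?_⟩
  simp at hm
  linarith

theorem circ_of {x y : ℝ} (m : ℤ) (h : x - y = 4 * m) :
    ((x / 4 : ℝ) : AddCircle (1:ℝ)) = ((y / 4 : ℝ) : AddCircle (1:ℝ)) := by
  have h2 : ((x / 4 - y / 4 : ℝ) : AddCircle (1:ℝ)) = 0 := by
    rw [AddCircle.coe_eq_zero_iff]
    refine ⟨m, ?_⟩
    simp
    linarith
  rw [AddCircle.coe_sub] at h2
  exact sub_eq_zero.mp h2

noncomputable def p (v : Fin 8) : AddCircle (1:ℝ) × AddCircle (1:ℝ) :=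
  ((((px v : ℝ) / 4 : ℝ) : AddCircle (1:ℝ)), (((py v : ℝ) / 4 : ℝ) : AddCircle (1:ℝ)))

noncomputable def seg (a d : ℝ) : C(unitInterval, AddCircle (1:ℝ)) where
  toFun t := (((a + (t : ℝ) * d) / 4 : ℝ) : AddCircle (1:ℝ))
  continuous_toFun := by
    have : Continuous (fun t : unitInterval => (a + (t : ℝ) * d) / 4) := by fun_prop
    exact (AddCircle.continuous_mk' (1:ℝ)).comp this

noncomputable def γ (u v : Fin 8) : C(unitInterval, AddCircle (1:ℝ) × AddCircle (1:ℝ)) :=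
  (seg (px u) (dx u v)).prodMk (seg (py u) (dy u v))

theorem γ_apply (u v : Fin 8) (t : unitInterval) : γ u v t =
    (((((px u : ℝ) + (t : ℝ) * (dx u v : ℝ)) / 4 : ℝ) : AddCircle (1:ℝ)),
     ((((py u : ℝ) + (t : ℝ) * (dy u v : ℝ)) / 4 : ℝ) : AddCircle (1:ℝ))) := rfl

theorem dbound : ∀ u v : Fin 8, -2 ≤ dx u v ∧ dx u v ≤ 2 ∧ -2 ≤ dy u v ∧ dy u v ≤ 2 := by
  decide +kernel

theorem pbound : ∀ u : Fin 8, 0 ≤ px u ∧ px u ≤ 3 ∧ 0 ≤ py u ∧ py u ≤ 3 := by
  decide +kernel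

theorem dend : ∀ u v : Fin 8, adjB u v = true →
    (px u + dx u v - px v) % 4 = 0 ∧ (py u + dy u v - py v) % 4 = 0 := by
  decide +kernel

theorem pinj : ∀ u v : Fin 8, px u = px v → py u = py v → u = v := by
  decide +kernel

theorem chk1 : ∀ u v w : Fin 8, adjB u v = true → ∀ m n : Fin 3,
    nosol (dx u v) (dy u v) 0 0 (px w - px u + 4 * ((m : ℕ) - 1)) (py w - py u + 4 * ((n : ℕ) - 1))
      = true := by
  decide +kernel

theorem chk2 : ∀ u v : Fin 8, adjB u v = true → ∀ u' v' : Fin 8, adjB u' v' = true →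
    ¬ ((u = u' ∧ v = v') ∨ (u = v' ∧ v = u')) → ∀ m n : Fin 3,
    nosol (dx u v) (dy u v) (- dx u' v') (- dy u' v')
      (px u' - px u + 4 * ((m : ℕ) - 1)) (py u' - py u + 4 * ((n : ℕ) - 1)) = true := by
  decide +kernel

theorem fin3 (m : ℤ) (h1 : -2 < m) (h2 : m < 2) : ∃ k : Fin 3, m = ((k : ℕ) : ℤ) - 1 := by
  have : m = -1 ∨ m = 0 ∨ m = 1 := by omega
  rcases this with h | h | h
  · exact ⟨0, by simp [h]⟩
  · exact ⟨1, by simp [h]⟩
  · exact ⟨2, by simp [h]⟩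

theorem rng (a b d e m : ℤ) (s t : ℝ) (s0 : 0 < s) (s1 : s < 1) (t0 : 0 < t) (t1 : t < 1)
    (ha : 0 ≤ a ∧ a ≤ 3) (hb : 0 ≤ b ∧ b ≤ 3) (hd : -2 ≤ d ∧ d ≤ 2) (he : -2 ≤ e ∧ e ≤ 2)
    (h : ((a : ℝ) + s * d) - (b + t * e) = 4 * m) :
    ∃ k : Fin 3, s * d + t * ((-e : ℤ) : ℝ) = ((b - a + 4 * (((k : ℕ) : ℤ) - 1) : ℤ) : ℝ) := by
  have a1 : (0 : ℝ) ≤ a := by exact_mod_cast ha.1
  have a2 : (a : ℝ) ≤ 3 := by exact_mod_cast ha.2
  have b1 : (0 : ℝ) ≤ b := by exact_mod_cast hb.1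
  have b2 : (b : ℝ) ≤ 3 := by exact_mod_cast hb.2
  have d1 : (-2 : ℝ) ≤ d := by exact_mod_cast hd.1
  have d2 : (d : ℝ) ≤ 2 := by exact_mod_cast hd.2
  have e1 : (-2 : ℝ) ≤ e := by exact_mod_cast he.1
  have e2 : (e : ℝ) ≤ 2 := by exact_mod_cast he.2
  have m1 : (-2 : ℝ) < m := by nlinarith
  have m2 : (m : ℝ) < 2 := by nlinarith
  obtain ⟨k, hk⟩ := fin3 m (by exact_mod_cast m1) (by exact_mod_cast m2)
  refine ⟨k, ?_⟩
  rw [← hk]
  push_cast
  linarith

theorem embeds : ∃ (p : Fin 8 → AddCircle (1:ℝ) × AddCircle (1:ℝ))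
         (γ : Fin 8 → Fin 8 → C(unitInterval, AddCircle (1:ℝ) × AddCircle (1:ℝ))),
         Function.Injective p ∧
         (∀ u v, G.Adj u v → γ u v 0 = p u ∧ γ u v 1 = p v ∧ Function.Injective (γ u v)) ∧
         (∀ (u v w : Fin 8) (t : unitInterval), G.Adj u v → 0 < (t:ℝ) → (t:ℝ) < 1 →
            γ u v t ≠ p w) ∧
         (∀ (u v u' v' : Fin 8) (s t : unitInterval), G.Adj u v → G.Adj u' v' →
            ¬ ((u = u' ∧ v = v') ∨ (u = v' ∧ v = u')) →
            0 < (s:ℝ) → (s:ℝ) < 1 → 0 < (t:ℝ) → (t:ℝ) < 1 → γ u v s ≠ γ u' v' t) := by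
  refine ⟨p, γ, ?_, ?_, ?_, ?_⟩
  · intro u v h
    simp only [p, Prod.mk.injEq] at h
    obtain ⟨m, hm⟩ := circ_eq h.1
    obtain ⟨n, hn⟩ := circ_eq h.2
    have hm' : px u - px v = 4 * m := by exact_mod_cast hm
    have hn' : py u - py v = 4 * n := by exact_mod_cast hn
    have := pbound u
    have := pbound v
    exact pinj u v (by omega) (by omega)
  · intro u v h
    refine ⟨?_, ?_, ?_⟩
    · rw [γ_apply]; simp [p]
    · rw [γ_apply]
      obtain ⟨h1, h2⟩ := dend u v h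
      simp only [p, Prod.mk.injEq]
      constructor
      · apply circ_of ((px u + dx u v - px v) / 4)
        have : px u + dx u v - px v = 4 * ((px u + dx u v - px v) / 4) := by omega
        have h3 : ((px u + dx u v - px v : ℤ) : ℝ) = ((4 * ((px u + dx u v - px v) / 4) : ℤ) : ℝ) := by
          rw [← this]
        push_cast at h3
        simpa using h3
      · apply circ_of ((py u + dy u v - py v) / 4)
        have : py u + dy u v - py v = 4 * ((py u + dy u v - py v) / 4) := by omega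
        have h3 : ((py u + dy u v - py v : ℤ) : ℝ) = ((4 * ((py u + dy u v - py v) / 4) : ℤ) : ℝ) := by
          rw [← this]
        push_cast at h3
        simpa using h3
    · intro s t hst
      rw [γ_apply, γ_apply] at hst
      simp only [Prod.mk.injEq] at hst
      obtain ⟨m, hm⟩ := circ_eq hst.1
      obtain ⟨n, hn⟩ := circ_eq hst.2
      obtain ⟨d1, d2, d3, d4⟩ := dbound u v
      have s0 := s.2.1
      have s1 := s.2.2
      have t0 := t.2.1
      have t1 := t.2.2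
      have key : ∀ (d k : ℤ), -2 ≤ d → d ≤ 2 → ((s : ℝ) - t) * d = 4 * k → d ≠ 0 → s = t := by
        intro d k h1 h2 h3 h4
        have h1' : (-2 : ℝ) ≤ d := by exact_mod_cast h1
        have h2' : (d : ℝ) ≤ 2 := by exact_mod_cast h2
        have k1 : (-1 : ℝ) < k := by nlinarith
        have k2 : (k : ℝ) < 1 := by nlinarith
        have k1' : -1 < k := by exact_mod_cast k1
        have k2' : k < 1 := by exact_mod_cast k2
        have k0 : k = 0 := by omega
        subst k0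
        have h4' : (d : ℝ) ≠ 0 := by exact_mod_cast h4
        have : (s : ℝ) - t = 0 := by
          rcases mul_eq_zero.mp (by simpa using h3 : ((s : ℝ) - t) * d = 0) with h | h
          · exact h
          · exact absurd h h4'
        exact Subtype.ext (by linarith)
      have hadj : adjB u v = true := h
      simp only [adjB, Bool.or_eq_true, bne_iff_ne, ne_eq] at hadj
      rcases hadj with h0 | h0
      · exact key _ m d1 d2 (by linarith) h0
      · exact key _ n d3 d4 (by linarith) h0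
  · intro u v w t h t0 t1 e
    rw [γ_apply] at e
    simp only [p, Prod.mk.injEq] at e
    obtain ⟨m, hm⟩ := circ_eq e.1
    obtain ⟨n, hn⟩ := circ_eq e.2
    obtain ⟨d1, d2, d3, d4⟩ := dbound u v
    obtain ⟨a1, a2, a3, a4⟩ := pbound u
    obtain ⟨b1, b2, b3, b4⟩ := pbound w
    obtain ⟨k, hk⟩ := rng (px u) (px w) (dx u v) 0 m t t t0 t1 t0 t1 ⟨a1, a2⟩ ⟨b1, b2⟩ ⟨d1, d2⟩
      (by norm_num) (by simpa using hm)
    obtain ⟨l, hl⟩ := rng (py u) (py w) (dy u v) 0 n t t t0 t1 t0 t1 ⟨a3, a4⟩ ⟨b3, b4⟩ ⟨d3, d4⟩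
      (by norm_num) (by simpa using hn)
    exact nosol_sound _ _ _ _ _ _ (chk1 u v w h k l) t t t0 t1 t0 t1 (by simpa using hk)
      (by simpa using hl)
  · intro u v u' v' s t h h' hne s0 s1 t0 t1 e
    rw [γ_apply, γ_apply] at e
    simp only [Prod.mk.injEq] at e
    obtain ⟨m, hm⟩ := circ_eq e.1
    obtain ⟨n, hn⟩ := circ_eq e.2
    obtain ⟨d1, d2, d3, d4⟩ := dbound u v
    obtain ⟨e1, e2, e3, e4⟩ := dbound u' v'
    obtain ⟨a1, a2, a3, a4⟩ := pbound u
    obtain ⟨b1, b2, b3, b4⟩ := pbound u'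
    obtain ⟨k, hk⟩ := rng (px u) (px u') (dx u v) (dx u' v') m s t s0 s1 t0 t1 ⟨a1, a2⟩ ⟨b1, b2⟩
      ⟨d1, d2⟩ ⟨e1, e2⟩ hm
    obtain ⟨l, hl⟩ := rng (py u) (py u') (dy u v) (dy u' v') n s t s0 s1 t0 t1 ⟨a3, a4⟩ ⟨b3, b4⟩
      ⟨d3, d4⟩ ⟨e3, e4⟩ hn
    exact nosol_sound _ _ _ _ _ _ (chk2 u v h u' v' h' hne k l) s t s0 s1 t0 t1 hk hl

/-- first colour partition -/
def π1 : Fin 8 → Fin 5 := ![0, 1, 2, 3, 4, 4, 2, 3]
/-- second colour partition -/
def π2 : Fin 8 → Fin 5 := ![0, 1, 2, 3, 4, 3, 4, 2]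

def c1 : G.Coloring (Fin 5) := SimpleGraph.Coloring.mk π1 (by
  have : ∀ u v : Fin 8, adjB u v = true → π1 u ≠ π1 v := by decide +kernel
  intro u v h; exact this u v h)

def c2 : G.Coloring (Fin 5) := SimpleGraph.Coloring.mk π2 (by
  have : ∀ u v : Fin 8, adjB u v = true → π2 u ≠ π2 v := by decide +kernel
  intro u v h; exact this u v h)

theorem path3 : ∀ a b : Fin 5, a ≠ b → ∀ x v : Fin 8, (π1 x = a ∨ π1 x = b) → (π1 v = a ∨ π1 v = b) →
    ∃ y z : Fin 8, (π1 y = a ∨ π1 y = b) ∧ (π1 z = a ∨ π1 z = b) ∧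
      (x = y ∨ adjB x y = true) ∧ (y = z ∨ adjB y z = true) ∧ (z = v ∨ adjB z v = true) := by
  decide +kernel

theorem step (c c' : Fin 8 → Fin 5) (hc : ∃ σ : Equiv.Perm (Fin 5), c = σ ∘ π1)
    (h : ∃ (a b : Fin 5) (x : Fin 8), ∀ v : Fin 8,
            ((SimpleGraph.fromRel (fun y z => G.Adj y z ∧ (c y = a ∨ c y = b) ∧
                (c z = a ∨ c z = b))).Reachable x v → c' v = Equiv.swap a b (c v)) ∧
            (¬ (SimpleGraph.fromRel (fun y z => G.Adj y z ∧ (c y = a ∨ c y = b) ∧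
                (c z = a ∨ c z = b))).Reachable x v → c' v = c v)) :
    ∃ σ : Equiv.Perm (Fin 5), c' = σ ∘ π1 := by
  obtain ⟨σ, rfl⟩ := hc
  obtain ⟨a, b, x, h⟩ := h
  set H := SimpleGraph.fromRel (fun y z => G.Adj y z ∧ ((σ ∘ π1) y = a ∨ (σ ∘ π1) y = b) ∧
                ((σ ∘ π1) z = a ∨ (σ ∘ π1) z = b)) with hH
  have hout : ∀ v, ¬ ((σ ∘ π1) v = a ∨ (σ ∘ π1) v = b) → c' v = (σ ∘ π1) v := by
    intro v hv
    by_cases hr : H.Reachable x v
    · rw [(h v).1 hr]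
      rw [not_or] at hv
      exact Equiv.swap_apply_of_ne_of_ne hv.1 hv.2
    · exact (h v).2 hr
  by_cases hab : a = b
  · refine ⟨σ, funext fun v => ?_⟩
    by_cases hr : H.Reachable x v
    · rw [(h v).1 hr, hab]; simp
    · exact (h v).2 hr
  by_cases hx : (σ ∘ π1) x = a ∨ (σ ∘ π1) x = b
  · refine ⟨σ.trans (Equiv.swap a b), funext fun v => ?_⟩
    by_cases hv : (σ ∘ π1) v = a ∨ (σ ∘ π1) v = b
    · have conv : ∀ y, ((σ ∘ π1) y = a ∨ (σ ∘ π1) y = b) ↔ (π1 y = σ.symm a ∨ π1 y = σ.symm b) := by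
        intro y
        simp only [Function.comp, Equiv.eq_symm_apply]
      obtain ⟨y, z, hy, hz, e1, e2, e3⟩ := path3 (σ.symm a) (σ.symm b)
        (fun e => hab (σ.symm.injective e)) x v ((conv x).1 hx) ((conv v).1 hv)
      have one : ∀ y z, ((σ ∘ π1) y = a ∨ (σ ∘ π1) y = b) → ((σ ∘ π1) z = a ∨ (σ ∘ π1) z = b) →
          (y = z ∨ adjB y z = true) → H.Reachable y z := by
        intro y z hy hz e
        rcases e with e | e
        · subst e; exact SimpleGraph.Reachable.refl _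
        · apply SimpleGraph.Adj.reachable
          rw [hH, SimpleGraph.fromRel_adj]
          have hadj : G.Adj y z := e
          exact ⟨hadj.ne, Or.inl ⟨hadj, hy, hz⟩⟩
      have hr : H.Reachable x v :=
        ((one x y hx ((conv y).2 hy) e1).trans (one y z ((conv y).2 hy) ((conv z).2 hz) e2)).trans
          (one z v ((conv z).2 hz) hv e3)
      rw [(h v).1 hr]; rfl
    · rw [hout v hv]
      rw [not_or] at hv
      exact (Equiv.swap_apply_of_ne_of_ne hv.1 hv.2).symm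
  · refine ⟨σ, funext fun v => ?_⟩
    by_cases hr : H.Reachable x v
    · have hxv : x = v := by
        obtain ⟨w⟩ := hr
        cases w with
        | nil => rfl
        | cons hadj _ =>
          rw [hH, SimpleGraph.fromRel_adj] at hadj
          rcases hadj.2 with h1 | h1
          · exact absurd h1.2.1 hx
          · exact absurd h1.2.2 hx
      subst hxv
      exact hout x hx
    · exact (h v).2 hr

/-- The negation of the preceding statement: For every finite graph that embeds in the torus, any two proper 5-colorings can be transformed into each other by a finite sequence of Kempe chain swaps (swapping two colors on one connected two-colored component). -/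
theorem result :
    ¬ (∀ (V : Type) [Fintype V] (G : SimpleGraph V),
      (∃ (p : V → AddCircle (1:ℝ) × AddCircle (1:ℝ))
         (γ : V → V → C(unitInterval, AddCircle (1:ℝ) × AddCircle (1:ℝ))),
         Function.Injective p ∧
         (∀ u v, G.Adj u v → γ u v 0 = p u ∧ γ u v 1 = p v ∧ Function.Injective (γ u v)) ∧
         (∀ (u v w : V) (t : unitInterval), G.Adj u v → 0 < (t:ℝ) → (t:ℝ) < 1 →
            γ u v t ≠ p w) ∧
         (∀ (u v u' v' : V) (s t : unitInterval), G.Adj u v → G.Adj u' v' →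
            ¬ ((u = u' ∧ v = v') ∨ (u = v' ∧ v = u')) →
            0 < (s:ℝ) → (s:ℝ) < 1 → 0 < (t:ℝ) → (t:ℝ) < 1 → γ u v s ≠ γ u' v' t)) →
      ∀ c₁ c₂ : G.Coloring (Fin 5),
        Relation.ReflTransGen
          (fun c c' : V → Fin 5 => ∃ (a b : Fin 5) (x : V), ∀ v : V,
            ((SimpleGraph.fromRel (fun y z => G.Adj y z ∧ (c y = a ∨ c y = b) ∧
                (c z = a ∨ c z = b))).Reachable x v → c' v = Equiv.swap a b (c v)) ∧
            (¬ (SimpleGraph.fromRel (fun y z => G.Adj y z ∧ (c y = a ∨ c y = b) ∧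
                (c z = a ∨ c z = b))).Reachable x v → c' v = c v))
          (⇑c₁) (⇑c₂)) := by
  intro hall
  have h := hall (Fin 8) G embeds c1 c2
  have inv : ∀ c' : Fin 8 → Fin 5, Relation.ReflTransGen
          (fun c c' : Fin 8 → Fin 5 => ∃ (a b : Fin 5) (x : Fin 8), ∀ v : Fin 8,
            ((SimpleGraph.fromRel (fun y z => G.Adj y z ∧ (c y = a ∨ c y = b) ∧
                (c z = a ∨ c z = b))).Reachable x v → c' v = Equiv.swap a b (c v)) ∧
            (¬ (SimpleGraph.fromRel (fun y z => G.Adj y z ∧ (c y = a ∨ c y = b) ∧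
                (c z = a ∨ c z = b))).Reachable x v → c' v = c v))
          (⇑c1) c' → ∃ σ : Equiv.Perm (Fin 5), c' = σ ∘ π1 := by
    intro c' hc'
    induction hc' with
    | refl => exact ⟨1, rfl⟩
    | tail _ hstep ih => exact step _ _ ih hstep
  obtain ⟨σ, hσ⟩ := inv _ h
  have e1 : π2 2 = σ (π1 2) := congrFun hσ 2
  have e2 : π2 6 = σ (π1 6) := congrFun hσ 6
  have e3 : π1 2 = π1 6 := by decide
  rw [e3, ← e2] at e1
  exact absurd e1 (by decide)

end Pool.Agent.S10390
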