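import Pool.Statements.S10393
import Pool.Agent.H5.StsRig3

set_option autoImplicit false
open Pool Pool.MP_9c4767_co

namespace Pool.Agent.S10393

/-- There is a constant c such that every finite group of order n is isomorphic to the full automorphism group of some Steiner triple system on at most n^c points. -/
theorem result :
    ∃ c : ℕ, ∀ (G : Type) [Group G] [Fintype G],
      ∃ (m : ℕ) (B : Finset (Finset (Fin m))),
        m ≤ (Fintype.card G) ^ c ∧
        (∀ b ∈ B, b.card = 3) ∧
        (∀ x y : Fin m, x ≠ y → ∃! b, b ∈ B ∧ x ∈ b ∧ y ∈ b) ∧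
        ∃ φ : G →* Equiv.Perm (Fin m), Function.Injective φ ∧
          ∀ σ : Equiv.Perm (Fin m),
            (σ ∈ φ.range ↔ ∀ b : Finset (Fin m), (b ∈ B ↔ b.map σ.toEmbedding ∈ B)) := by
  refine ⟨19, fun G _ _ => ?_⟩
  by_cases h : Fintype.card G = 1
  · have hs : Subsingleton G := Fintype.card_le_one_iff_subsingleton.mp h.le
    refine ⟨1, ∅, by simp [h], by simp, fun x y hxy => absurd (Subsingleton.elim x y) hxy, 1,
      fun a b _ => Subsingleton.elim a b, fun σ => ?_⟩
    simp [Subsingleton.elim σ 1]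
  have h0 : 0 < Fintype.card G := Fintype.card_pos
  obtain ⟨V, i1, op, o1, o2, φ, o3, o4⟩ := Pool.Agent.H5.StsAct.mainR G (by omega)
  let e : V ≃ Fin (Fintype.card V) := Fintype.equivFin V
  obtain ⟨B, b1, b2, b3⟩ := Pool.Agent.H5.StsAct.blocks2
    (fun x y => e (op (e.symm x) (e.symm y)))
    ⟨fun x => by simp [o1.idem], fun x y => by rw [o1.comm], fun x y => by simp [o1.canc]⟩
  refine ⟨_, B, o2.trans ?_, b1, b2, (e.permCongrHom : _ →* _).comp φ,
    e.permCongrHom.injective.comp o3, fun σ => ?_⟩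
  · have h2 : 2 ^ 16 ≤ Fintype.card G ^ 16 := Nat.pow_le_pow_left (by omega) 16
    calc 2 ^ 16 * Fintype.card G ^ 3 ≤ Fintype.card G ^ 16 * Fintype.card G ^ 3 :=
          Nat.mul_le_mul_right _ h2
      _ = Fintype.card G ^ 19 := by ring
  · rw [← b3]
    constructor
    · rintro ⟨g, rfl⟩ x y
      have := (o4 _).2 ⟨g, rfl⟩ (e.symm x) (e.symm y)
      simp [this]
    · intro hσ
      obtain ⟨g, hg⟩ := (o4 (e.permCongr.symm σ)).1 fun x y => by
        have := hσ (e x) (e y)
        simp only [Equiv.symm_apply_apply] at this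
        simp [this]
      exact ⟨g, by ext x; simp [hg]⟩

end Pool.Agent.S10393
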