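import Pool.Statements.S10399
import Pool.Agent.H11.Simsun

set_option autoImplicit false
open scoped BigOperators
open Pool Pool.MP_9cb2a9_co

namespace Pool.Agent.S10399

/-- For the integer sequences a_i(n) and b_i(n) fixed by the given recurrences and initial conditions, b_i(n) ≤ a_i(2n) holds for every n and every i with 2 ≤ i ≤ n. -/
theorem result :
  ∀ a b : ℕ → ℕ → ℤ,
    a 0 1 = 1 → a 1 2 = 1 →
    (∀ n : ℕ, 1 < n → a 0 n = 0) →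
    (∀ i n : ℕ, n < 2 * i → a i n = 0) →
    (∀ i n : ℕ, 1 ≤ i → 1 ≤ n →
        a i (n + 1) = (i : ℤ) * a i n + ((n : ℤ) - 2 * (i : ℤ) + 2) * a (i - 1) n) →
    (∀ n : ℕ, 2 ≤ n → b 2 n = 1) →
    (∀ i n : ℕ, ¬ (2 ≤ i ∧ i ≤ n) → b i n = 0) →
    (∀ i n : ℕ, 3 ≤ i → i ≤ n →
        b i n = ∑ k ∈ Finset.range (i + 1),
          ((Nat.choose (2 * n - 2 * i + k) k : ℕ) : ℤ) *
            ∑ r ∈ Finset.Icc 1 (i / 2),
              (-1 : ℤ) ^ (r - 1) * ((Nat.choose (i - k) (i - 2 * r) : ℕ) : ℤ) * b (i - k) (n - r)) →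
    ∀ n i : ℕ, 2 ≤ i → i ≤ n → b i n ≤ a i (2 * n) := by
  intro a b _ h1 h0 hz hr k2 k0 kr n i hi hn
  obtain ⟨p, rfl⟩ : ∃ p, n = p + 2 := ⟨n - 2, by omega⟩
  rw [Pool.Agent.H11.Simsun.b_eq b k2 k0 kr, show 2 * (p + 2) = 2 * (p + 1) + 2 by ring,
    Pool.Agent.H11.Simsun.a_eq a h1 h0 hz hr]
  refine Pool.Agent.H11.Simsun.L_le _ (fun m j c => ?_)
  simp only [Pool.Agent.H11.Simsun.dl, Pi.zero_apply]
  split_ifs <;> norm_num

end Pool.Agent.S10399
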