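import Pool.Statements.S10402
import Pool.Agent.H19.Cluster
-- import your own Pool.Agent.* helpers here

set_option autoImplicit false
open Pool Pool.MP_9cfd90_co Pool.Agent.H19.Cluster Pool.Agent.H19.ParentTree

namespace Pool.Agent.S10402

/-- The negation of the preceding statement: There is f such that for all s ≥ 2, k, t, every finite graph of layered treewidth at most k with no K_{s,t} subgraph has an (s+1)-colouring whose monochromatic components each have at most f(k,s,t) vertices. -/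
theorem result :
    ¬ (∃ f : ℕ → ℕ → ℕ → ℕ, ∀ s : ℕ, 2 ≤ s → ∀ k t : ℕ, ∀ (V : Type) [Fintype V] (G : SimpleGraph V),
      (∃ (ι : Type) (_ : Fintype ι) (T : SimpleGraph ι) (B : ι → Set V) (ℓ : V → ℕ),
        T.IsTree ∧ (∀ v : V, ∃ i, v ∈ B i) ∧
        (∀ u v : V, G.Adj u v → ∃ i, u ∈ B i ∧ v ∈ B i) ∧
        (∀ v : V, (T.induce {i | v ∈ B i}).Connected) ∧
        (∀ u v : V, G.Adj u v → ℓ u ≤ ℓ v + 1) ∧
        (∀ (i : ι) (n : ℕ), Set.ncard {x : V | x ∈ B i ∧ ℓ x = n} ≤ k)) →
      (¬ ∃ φ : completeBipartiteGraph (Fin s) (Fin t) →g G, Function.Injective φ) →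
      ∃ c : V → Fin (s + 1), ∀ v : V,
        Set.ncard {u : V | (G ⊓ SimpleGraph.fromRel (fun x y => c x = c y)).Reachable v u}
          ≤ f k s t) := by
  classical
  rintro ⟨f, hf⟩
  haveI : Fintype (XV (f 6 2 11) ((f 6 2 11 + 1) * ((f 6 2 11 + 1) * f 6 2 11 + 1))) :=
    Fintype.ofFinite _
  obtain ⟨c, hc⟩ := hf 2 le_rfl 6 11
    (VV (f 6 2 11) ((f 6 2 11 + 1) * ((f 6 2 11 + 1) * f 6 2 11 + 1))) (GG _ _)
    ⟨_, inferInstance, pgraph par, fun t => {v | inB t v}, lay, tree,
      fun v => by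
        obtain ⟨⟨t, ht⟩⟩ := (bag_conn v).nonempty
        exact ⟨t, ht⟩,
      fun u v h => by
        rcases (gadj.mp h).2 with h | h
        · simpa using edge_bag h
        · simpa [and_comm] using edge_bag h,
      fun v => bag_conn v,
      fun u v h => (gadj.mp h).2.elim (fun h => (lay_le h).1) fun h => (lay_le h).2,
      fun t i => by
        rw [Set.ncard_eq_toFinset_card']
        exact width t i _ fun v hv => by simpa using hv⟩
    (fun ⟨φ, hφ⟩ => no_K2t ⟨⟨φ, hφ⟩⟩)
  refine no_col _ _ le_rfl c fun v _ s g h1 h2 => ?_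
  refine le_trans ?_ (hc v)
  rw [Set.ncard_eq_toFinset_card']
  refine Finset.card_le_card_of_injOn g (fun i hi => ?_) h1
  have hle : mono (GG _ _) c ≤ GG _ _ ⊓ SimpleGraph.fromRel (fun x y => c x = c y) := by
    intro a b hab
    exact ⟨hab.1, (SimpleGraph.fromRel_adj _ _ _).mpr ⟨hab.1.ne, Or.inl hab.2⟩⟩
  simpa using (h2 i hi).mono hle

end Pool.Agent.S10402
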