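import Pool.Statements.S10420
import Pool.Agent.H27.ModAut

set_option autoImplicit false
open Pool Pool.MP_9ddcd7_co

namespace Pool.Agent.S10420

/-- The negation of the preceding statement: For every natural number c there is a finite group G of order n that is not isomorphic to the automorphism group of any finite modular lattice with at most n^c elements. -/
theorem result :
    ¬ (∀ c : ℕ, ∃ (G : Type) (_ : Group G) (_ : Finite G),
      ∀ (L : Type) [Lattice L] [IsModularLattice L] [Finite L],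
        Nat.card L ≤ Nat.card G ^ c → IsEmpty ((L ≃o L) ≃* G)) := by
  intro H
  obtain ⟨G, _, hG, h⟩ := H 23
  have hpos : 0 < Nat.card G := Nat.card_pos
  by_cases h1 : Nat.card G = 1
  · have hs : Subsingleton G := (Nat.card_eq_one_iff_unique.mp h1).1
    have : Subsingleton (Unit ≃o Unit) := ⟨fun a b => DFunLike.ext _ _ fun _ => rfl⟩
    have : Unique G := ⟨⟨1⟩, fun _ => Subsingleton.elim _ _⟩
    have : Unique (Unit ≃o Unit) := ⟨⟨1⟩, fun _ => Subsingleton.elim _ _⟩
    exact (h Unit (by simp [h1])).false MulEquiv.ofUnique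
  · obtain ⟨L, _, _, _, _, ⟨φ⟩, -, -, h2⟩ := Pool.Agent.H27.ModAut.main G
    refine (h L (h2.trans ?_)).false φ.symm
    obtain ⟨n, hn⟩ : ∃ n, Nat.card G = n + 2 := ⟨Nat.card G - 2, by omega⟩
    rw [hn]
    have a : (n + 2) * (n + 2 + 2) + 2 ≤ (n + 2) ^ 4 := by
      nlinarith [Nat.zero_le n, Nat.zero_le (n ^ 2), Nat.zero_le (n ^ 3), Nat.zero_le (n ^ 4)]
    have b : 5 ≤ (n + 2) ^ 3 := by
      nlinarith [Nat.zero_le n, Nat.zero_le (n ^ 2), Nat.zero_le (n ^ 3)]
    calc _ ≤ ((n + 2) ^ 4) ^ 5 * (n + 2) ^ 3 := Nat.mul_le_mul (Nat.pow_le_pow_left a 5) b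
      _ = _ := by ring

end Pool.Agent.S10420
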