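import Pool.Statements.S10425
import Pool.Agent.H21.IndPath

set_option autoImplicit false
open Pool Pool.MP_9e1b23_co

namespace Pool.Agent.S10425
open Finset Pool.Agent.H21.IndPath
open scoped Classical

def Hom {A K : Type} (G : SimpleGraph A) (R : K → K → Prop) (φ : A → K) : Prop :=
  ∀ u v, G.Adj u v → R (φ u) (φ v)

noncomputable def Z {A K : Type} [Fintype A] [Fintype K] (G : SimpleGraph A) (R : K → K → Prop)
    (w : K → ℕ) : ℕ := ∑ φ : A → K, if Hom G R φ then ∏ u, w (φ u) else 0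

theorem blow {A K : Type} [Fintype A] [Fintype K] (G : SimpleGraph A) (R : K → K → Prop)
    (w : K → ℕ) :
    Nat.card {f : A → Σ a, Fin (w a) // ∀ u v, G.Adj u v → R (f u).1 (f v).1} = Z G R w := by
  let e : {f : A → Σ a, Fin (w a) // ∀ u v, G.Adj u v → R (f u).1 (f v).1} ≃
      Σ φ : {φ : A → K // Hom G R φ}, ∀ u, Fin (w (φ.1 u)) :=
    ⟨fun f => ⟨⟨fun u => (f.1 u).1, f.2⟩, fun u => (f.1 u).2⟩,
      fun p => ⟨fun u => ⟨p.1.1 u, p.2 u⟩, p.1.2⟩, fun _ => rfl, fun _ => rfl⟩
  rw [Nat.card_congr e, Nat.card_sigma, Z, ← sum_filter,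
    sum_subtype (univ.filter (Hom G R)) (p := Hom G R) (F := inferInstance) (by simp)]
  simp [Nat.card_pi]

def R1 (a b : Bool) : Prop := ¬ (a = true ∧ b = true)
def R2 (a b : Fin 5) : Prop := a.1 + 1 = b.1 ∨ b.1 + 1 = a.1
def w2 : Fin 5 → ℕ := ![41, 1, 1, 4, 30]

def R (k : ℕ) : Bool ⊕ Fin k × Fin 5 → Bool ⊕ Fin k × Fin 5 → Prop
  | .inl a, .inl b => R1 a b
  | .inr p, .inr q => p.1 = q.1 ∧ R2 p.2 q.2
  | _, _ => False

def w (k : ℕ) : Bool ⊕ Fin k × Fin 5 → ℕ := Sum.elim (fun _ => 410) fun p => w2 p.2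

theorem split {A : Type} [Fintype A] (G : SimpleGraph A) (hG : G.Connected) (k : ℕ) :
    Z G (R k) (w k) = Z G R1 (fun _ => 410) + k * Z G R2 w2 := by
  obtain ⟨a⟩ := hG.nonempty
  let e : (A → Bool) ⊕ Fin k × (A → Fin 5) → A → Bool ⊕ Fin k × Fin 5 :=
    Sum.elim (fun g u => .inl (g u)) fun p u => .inr (p.1, p.2 u)
  rw [Z, ← Fintype.sum_of_injective e ?_ (fun x => if Hom G (R k) (e x) then ∏ u, w k (e x u) else 0)
    _ ?_ (fun _ => rfl), Fintype.sum_sum_type, Fintype.sum_prod_type]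
  · congr 1
    rw [sum_congr rfl (g := fun _ => Z G R2 w2)]
    · simp
    · intro i _
      refine sum_congr rfl fun g _ => if_congr ?_ rfl rfl
      simp [Hom, e, R]
  · rintro (g | ⟨i, g⟩) (g' | ⟨i', g'⟩) h
    · congr 1; funext u; simpa [e] using congrFun h u
    · simpa [e] using congrFun h a
    · simpa [e] using congrFun h a
    · have h1 : ∀ u, i = i' ∧ g u = g' u := fun u => by simpa [e] using congrFun h u
      rw [(h1 a).1, show g = g' from funext fun u => (h1 u).2]
  · intro φ h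
    refine if_neg fun hφ => h ?_
    let tag : Bool ⊕ Fin k × Fin 5 → Option (Fin k) := Sum.elim (fun _ => none) fun p => some p.1
    have h1 : ∀ u v, G.Reachable u v → tag (φ u) = tag (φ v) := by
      rintro u v ⟨p⟩
      induction p with
      | nil => rfl
      | @cons x y _ h _ ih =>
        refine Eq.trans ?_ ih
        have := hφ x y h
        revert this
        rcases φ x with _ | _ <;> rcases φ y with _ | _ <;> simp +contextual [R, tag]
    have h2 := fun u => h1 u a (hG u a)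
    rcases ha : φ a with b | ⟨i, b⟩ <;> rw [ha] at h2
    · refine ⟨.inl fun u => (φ u).elim id fun _ => true, funext fun u => ?_⟩
      have := h2 u
      revert this
      simp only [e, Sum.elim_inl]
      rcases φ u with _ | _ <;> simp [tag]
    · refine ⟨.inr (i, fun u => (φ u).elim (fun _ => 0) Prod.snd), funext fun u => ?_⟩
      have := h2 u
      revert this
      simp only [e, Sum.elim_inr]
      rcases φ u with _ | _ <;> simp +contextual [tag, Prod.ext_iff]

theorem Z1 {A : Type} [Fintype A] (G : SimpleGraph A) (m : ℕ) :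
    Z G R1 (fun _ => m) = ind G univ * m ^ Fintype.card A := by
  rw [Z, ← sum_filter, sum_congr rfl (g := fun _ => m ^ Fintype.card A) (by simp), sum_const,
    smul_eq_mul, ind]
  congr 1
  refine card_bij (fun φ _ => univ.filter fun u => φ u = true) ?_ ?_ ?_
  · intro φ h
    refine mem_filter.2 ⟨by simp, fun u hu v hv a => ?_⟩
    exact (mem_filter.1 h).2 u v a ⟨(mem_filter.1 hu).2, (mem_filter.1 hv).2⟩
  · intro φ _ ψ _ h
    funext u
    simpa using Finset.ext_iff.1 h u
  · intro S hS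
    refine ⟨fun u => decide (u ∈ S), mem_filter.2 ⟨mem_univ _, fun u v a h => ?_⟩, by simp⟩
    exact (mem_filter.1 hS).2 u (by simpa using h.1) v (by simpa using h.2) a

theorem Z_le {A K : Type} [Fintype A] [Fintype K] (G : SimpleGraph A) (R : K → K → Prop)
    (w : K → ℕ) (m : ℕ) (h : ∀ a, w a ≤ m) :
    Z G R w ≤ (Fintype.card K * m) ^ Fintype.card A := by
  refine (sum_le_card_nsmul _ _ (m ^ Fintype.card A) fun φ _ => ?_).trans (by simp [mul_pow])
  split_ifs
  · exact prod_le_pow_card _ _ _ fun u _ => h _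
  · positivity

def spider : SimpleGraph (Fin 7) where
  Adj u v := (u.1, v.1) ∈ [(0, 1), (1, 2), (2, 3), (3, 4), (4, 5), (2, 6)] ∨
    (v.1, u.1) ∈ [(0, 1), (1, 2), (2, 3), (3, 4), (4, 5), (2, 6)]
  symm := ⟨fun _ _ h => h.symm⟩
  loopless := ⟨by decide⟩

instance : DecidableRel spider.Adj := fun _ _ => inferInstanceAs (Decidable (_ ∨ _))
instance : DecidableRel R2 := fun _ _ => inferInstanceAs (Decidable (_ ∨ _))

theorem sum_cons (n : ℕ) [Fintype (Fin (n + 1) → Fin 5)] (f : (Fin (n + 1) → Fin 5) → ℕ) :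
    ∑ φ, f φ = ∑ a, ∑ ψ : Fin n → Fin 5, f (Fin.cons a ψ) := by
  rw [← Equiv.sum_comp (Fin.consEquiv fun _ => Fin 5), Fintype.sum_prod_type]
  rfl

theorem Z7 (G : SimpleGraph (Fin 7)) (j : Fin 7)
    (h : ∀ φ, Hom G R2 φ ↔ R2 (φ 0) (φ 1) ∧ R2 (φ 1) (φ 2) ∧ R2 (φ 2) (φ 3) ∧ R2 (φ 3) (φ 4) ∧
      R2 (φ 4) (φ 5) ∧ R2 (φ j) (φ 6)) : Z G R2 w2 = ∑ a, ∑ b, ∑ c, ∑ d, ∑ e, ∑ f, ∑ g,
      if R2 a b ∧ R2 b c ∧ R2 c d ∧ R2 d e ∧ R2 e f ∧ R2 (![a, b, c, d, e, f, g] j) g
      then w2 a * w2 b * w2 c * w2 d * w2 e * w2 f * w2 g else 0 := by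
  simp only [Z, h, Fin.prod_univ_seven]
  simp only [sum_cons, Fintype.sum_unique]
  rfl

theorem R2_symm (a b : Fin 5) (h : R2 a b) : R2 b a := h.symm

theorem Zs : Z spider R2 w2 = 71853008 := by
  rw [Z7 spider 2]
  · decide +kernel
  · intro φ
    refine ⟨fun h => by refine ⟨?_, ?_, ?_, ?_, ?_, ?_⟩ <;> exact h _ _ (by decide), ?_⟩
    rintro ⟨h1, h2, h3, h4, h5, h6⟩ u v
    fin_cases u <;> fin_cases v <;> simp [spider] <;> first | assumption | exact R2_symm _ _ ‹_›

theorem Zp : Z (SimpleGraph.pathGraph 7) R2 w2 = 71853400 := by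
  rw [Z7 _ 5]
  · decide +kernel
  · intro φ
    refine ⟨fun h => by
      refine ⟨?_, ?_, ?_, ?_, ?_, ?_⟩ <;> exact h _ _ (by simp [SimpleGraph.pathGraph_adj]), ?_⟩
    rintro ⟨h1, h2, h3, h4, h5, h6⟩ u v
    fin_cases u <;> fin_cases v <;> simp [SimpleGraph.pathGraph_adj] <;>
      first | assumption | exact R2_symm _ _ ‹_›


/-- There is a finite graph H with loops allowed, and numbers α<β, such that some tree on α vertices has fewer H-colorings than the α-vertex path, yet for every n≥β the n-vertex path has at most as many H-colorings as every tree on n vertices. -/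
theorem result :
    ∃ (V : Type) (_ : Finite V) (R : V → V → Prop),
      (∀ a b, R a b → R b a) ∧
      ∃ α β : ℕ, α < β ∧
        (∃ T : SimpleGraph (Fin α), T.IsTree ∧
          Nat.card {f : Fin α → V // ∀ u v, T.Adj u v → R (f u) (f v)} <
            Nat.card {f : Fin α → V //
              ∀ u v, (SimpleGraph.pathGraph α).Adj u v → R (f u) (f v)}) ∧
        ∀ n : ℕ, β ≤ n → ∀ T : SimpleGraph (Fin n), T.IsTree →
          Nat.card {f : Fin n → V //
              ∀ u v, (SimpleGraph.pathGraph n).Adj u v → R (f u) (f v)} ≤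
            Nat.card {f : Fin n → V // ∀ u v, T.Adj u v → R (f u) (f v)} := by
  let k := 820 ^ 7
  refine ⟨Σ a, Fin (w k a), inferInstance, fun x y => R k x.1 y.1, ?_, 7, k, by norm_num [k],
    ⟨spider, ?_, ?_⟩, fun n hn T hT => ?_⟩
  · rintro ⟨a | a, x⟩ ⟨b | b, y⟩ h
    · exact fun e => h e.symm
    · exact h
    · exact h
    · exact ⟨h.1.symm, h.2.symm⟩
  · rw [SimpleGraph.isTree_iff_connected_and_card]
    refine ⟨by decide, ?_⟩
    rw [Nat.card_eq_fintype_card, Nat.card_eq_fintype_card, SimpleGraph.card_edgeSet]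
    decide
  · rw [blow, blow, split _ (by decide), split _ (SimpleGraph.pathGraph_connected 6), Zs, Zp]
    have := Z_le spider R1 (fun _ => 410) 410 fun _ => le_rfl
    simp only [Fintype.card_bool, Fintype.card_fin] at this
    omega
  · obtain ⟨m, rfl⟩ : ∃ m, n = m + 1 := ⟨n - 1, by have := (show 0 < k by positivity); omega⟩
    obtain ⟨h1, h2⟩ := main T hT.isAcyclic 0 (m + 1) univ (by simp)
    rcases h1.eq_or_lt with h3 | h3
    · obtain ⟨e, e1, e2, e3⟩ := h2 h3.symm
      have hi : Function.Surjective fun i : Fin (m + 1) => e i := fun x => by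
        obtain ⟨i, a, b⟩ := (e1 x).1 (mem_univ _)
        exact ⟨⟨i, a⟩, b⟩
      let s := Equiv.ofBijective _ (Finite.surjective_iff_bijective.1 hi)
      refine Nat.card_le_card_of_injective (fun f => ⟨f.1 ∘ s.symm, fun u v h => f.2 _ _ ?_⟩) ?_
      · rw [SimpleGraph.pathGraph_adj, ← e3 _ (Fin.is_lt _) _ (Fin.is_lt _)]
        show T.Adj (s (s.symm u)) (s (s.symm v))
        simpa using h
      · intro f g h
        exact Subtype.ext (s.symm.surjective.injective_comp_right (congrArg Subtype.val h))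
    · rw [blow, blow, split _ hT.connected, split _ (SimpleGraph.pathGraph_connected m), Z1, Z1]
      have h4 := ind_path (m + 1) (m + 1) le_rfl
      rw [filter_true_of_mem fun i _ => i.is_lt] at h4
      have h5 := Z_le (SimpleGraph.pathGraph (m + 1)) R2 w2 41 (by decide)
      simp only [Fintype.card_fin] at h5 ⊢
      have h6 : k * (5 * 41) ^ (m + 1) ≤ 410 ^ (m + 1) := by
        rw [show 410 = 2 * (5 * 41) from rfl, mul_pow 2]
        exact Nat.mul_le_mul_right _ (hn.trans Nat.lt_two_pow_self.le)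
      have h7 := Nat.mul_le_mul_right (410 ^ (m + 1)) (Nat.succ_le_of_lt h3)
      have h8 := Nat.mul_le_mul_left k h5
      rw [h4]
      rw [Nat.succ_mul] at h7
      omega

end Pool.Agent.S10425
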