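import Pool.Statements.S10441
import Pool.Agent.H4.SPZero

set_option autoImplicit false
open Pool Pool.MP_9ef6ec_co

namespace Pool.Agent.S10441

/-- For every complex q with 0 < ∣q−1∣ < 5/27 and every finite simple graph with no K4 minor (i.e. series-parallel), the chromatic polynomial, written as the sum over edge subsets A of (−1)^∣A∣ q^(components of A), is nonzero at q. -/
theorem result :
    ∀ (q : ℂ), 0 < ‖q - 1‖ → ‖q - 1‖ < (5 / 27 : ℝ) →
      ∀ (n : ℕ) (G : SimpleGraph (Fin n)) [DecidableRel G.Adj],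
        (¬ ∃ f : Fin 4 → Set (Fin n),
            (∀ i j, i ≠ j → Disjoint (f i) (f j)) ∧
            (∀ i, (G.induce (f i)).Connected) ∧
            (∀ i j, i ≠ j → ∃ u ∈ f i, ∃ v ∈ f j, G.Adj u v)) →
        (∑ A ∈ G.edgeFinset.powerset,
            ((-1 : ℂ) ^ A.card *
              q ^ Nat.card (SimpleGraph.fromEdgeSet (↑A : Set (Sym2 (Fin n)))).ConnectedComponent)) ≠ 0 := by
  intro q h0 h1 n G _ hK
  obtain ⟨r, r0, r1, hr⟩ := H4.SPZero.exists_r h0 h1
  have hq : q ≠ 0 := by
    rintro rfl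
    norm_num at h1
  have key := H4.SPZero.Z_ne r0 r1 hr hq _ G.edgeFinset rfl
    (fun e he => G.not_isDiag_of_mem_edgeFinset he)
    (by
      rw [SimpleGraph.coe_edgeFinset, SimpleGraph.fromEdgeSet_edgeSet]
      rintro ⟨f, h2, h3, h4⟩
      exact hK ⟨f, h2, fun i => (h3 i).connected, h4⟩)
    (fun _ => -1)
    (by
      intro e _
      refine ⟨by simpa using r0.le, ?_, ?_⟩
      · rw [← sub_eq_add_neg, ← hr]
        simp only [norm_neg, norm_one, mul_one]
        nlinarith [pow_pos r0 2, pow_pos r0 3]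
      · rw [← sub_eq_add_neg]
        exact norm_pos_iff.1 h0)
  simpa [H4.SPZero.Z, H4.SPZero.kk] using key

end Pool.Agent.S10441
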