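import Pool.Statements.S10454
import Pool.Agent.H23.OddCol

set_option autoImplicit false
open Pool Pool.MP_9fba86_co

namespace Pool.Agent.S10454

/-- The negation of the preceding statement: Some constant d exists such that every finite 2-connected graph (connected, at least 3 vertices, no cut vertex) of odd order with minimum degree at least d has a 3-edge-colouring where each colour meets each vertex in zero or an odd number of edges. -/
theorem result :
    ¬ (∃ d : ℕ, ∀ (V : Type) [Fintype V] (G : SimpleGraph V),
      G.Connected →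
      3 ≤ Fintype.card V →
      (∀ v : V, (G.induce {w : V | w ≠ v}).Connected) →
      Odd (Fintype.card V) →
      (∀ v : V, d ≤ (G.neighborSet v).ncard) →
      ∃ c : Sym2 V → Fin 3, ∀ (v : V) (i : Fin 3),
        {w : V | G.Adj v w ∧ c s(v, w) = i}.ncard = 0 ∨
          Odd {w : V | G.Adj v w ∧ c s(v, w) = i}.ncard) := by
  rintro ⟨d, hd⟩
  obtain ⟨c, hc⟩ := hd (H23.OddCol.W d) (H23.OddCol.gr d) (H23.OddCol.conn d)
    (by rw [H23.OddCol.card_W]; omega) (H23.OddCol.vert_conn d)
    (by rw [H23.OddCol.card_W]; exact ⟨3 * d + 4, by ring⟩) (H23.OddCol.mindeg d)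
  exact H23.OddCol.no_col d c hc

end Pool.Agent.S10454
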