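import Pool.Statements.S10486
import Pool.Agent.H8.Hex4

set_option autoImplicit false
open Pool Pool.MP_a14c6f_co

namespace Pool.Agent.S10486

/-- The negation of the preceding statement: Every closed-disk-like planar set that is invariant under some 60-degree rotation and some line reflection, and whose isometric copies tile the plane, is a union of finitely many (at least one) congruent closed regular hexagons with disjoint interiors. -/
theorem result :
    ¬ (∀ T : Set ℂ,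
    Nonempty (T ≃ₜ Metric.closedBall (0 : ℂ) 1) →
    (∃ c : ℂ, (fun z : ℂ => c + Complex.exp (((Real.pi / 3 : ℝ) : ℂ) * Complex.I) * (z - c)) '' T = T) →
    (∃ a w : ℂ, ‖w‖ = 1 ∧ (fun z : ℂ => a + w * (starRingEnd ℂ) (z - a)) '' T = T) →
    (∃ g : ℕ → (ℂ ≃ᵢ ℂ), (⋃ i, (g i) '' T) = Set.univ ∧
        Pairwise (fun i j => Disjoint (interior ((g i) '' T)) (interior ((g j) '' T)))) →
    ∃ m : ℕ, 1 ≤ m ∧ ∃ (ρ : ℝ) (c w : Fin m → ℂ), 0 < ρ ∧ (∀ i, ‖w i‖ = ρ) ∧
      Pairwise (fun i j =>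
        Disjoint
          (interior (convexHull ℝ (Set.range (fun k : Fin 6 =>
            c i + w i * Complex.exp (((k : ℕ) : ℂ) * ((Real.pi / 3 : ℝ) : ℂ) * Complex.I)))))
          (interior (convexHull ℝ (Set.range (fun k : Fin 6 =>
            c j + w j * Complex.exp (((k : ℕ) : ℂ) * ((Real.pi / 3 : ℝ) : ℂ) * Complex.I)))))) ∧
      T = ⋃ i, convexHull ℝ (Set.range (fun k : Fin 6 =>
            c i + w i * Complex.exp (((k : ℕ) : ℂ) * ((Real.pi / 3 : ℝ) : ℂ) * Complex.I)))) := by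
  open Pool.Agent.H8.Hex Set Filter Topology Metric Complex in
  intro hT
  obtain ⟨H, S, e, te, hH, hD, hW, h0⟩ := limit
  have lim0 : ∀ a b : ℂ, (∀ n, ‖a - b‖ ≤ 2 * e n) → a = b := fun a b h =>
    sub_eq_zero.1 (norm_le_zero_iff.1 (ge_of_tendsto' (by simpa using te.const_mul 2) h))
  have tri : ∀ a b c : ℂ, ‖a - b‖ ≤ ‖a - c‖ + ‖b - c‖ := fun a b c => by
    simpa using norm_sub_le (a - c) (b - c)
  have HL : ∀ z l, Lam l → H (z + l) = H z + l := fun z l hl => lim0 _ _ fun n => by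
    have a := tri (H (z + l)) (H z + l) ((S n).h (z + l))
    have b := hH n (z + l)
    rw [(S n).hL z l hl] at a b
    rw [add_sub_add_right_eq_sub] at a
    linarith [hH n z]
  have hG : ∀ n (k : ℕ) (t : ℝ), 0 ≤ t → t ≤ 1 → (S n).h (om ^ k + om ^ k * om ^ 2 * t) =
      om ^ k * (S n).w.Γ ((S n).θ t) := fun n k t a b => by
    rw [(S n).hE _ _ t (Ed.pow k) a b, Wd.Γ]; ring
  have θc : ∀ n, Continuous (S n).θ := fun n =>
    (LipschitzWith.of_le_add_mul ⟨(S n).N, (S n).N0.le⟩ fun a b => by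
      rcases le_total a b with h | h
      · exact ((S n).mono h).trans (le_add_of_nonneg_right (by positivity))
      · rw [Real.dist_eq, abs_of_nonneg (by linarith)]
        exact sub_le_iff_le_add'.1 ((S n).θl b a h).2).continuous
  have o6 : om ^ 6 = 1 := by have := om_sq; grind
  let K := H '' {z | Nn z = 1}
  have bdd : ∀ s : Set ℂ, (∀ z ∈ s, Nn z ≤ 1) → Bornology.IsBounded s := fun s h =>
    isBounded_iff_forall_norm_le.2 ⟨2, fun z hz => by linarith [(Nn_norm z).1, h z hz]⟩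
  have Kc : IsClosed K := H.isClosedMap _ (isClosed_eq Nn_cont continuous_const)
  have rot : ∀ (j : ℕ), ∀ x ∈ K, om ^ j * x ∈ K := by
    rintro j _ ⟨z, hz, rfl⟩
    refine ⟨om ^ j * z, (Nn_pow j z).trans hz, lim0 _ _ fun n => ?_⟩
    obtain ⟨k, t, a, b, rfl⟩ := (bd_iff z).1 hz
    have c := hH n (om ^ (j + k) + om ^ (j + k) * om ^ 2 * t)
    have d := hH n (om ^ k + om ^ k * om ^ 2 * t)
    rw [hG n _ t a b] at c d
    rw [show om ^ j * (om ^ k + om ^ k * om ^ 2 * t) = om ^ (j + k) + om ^ (j + k) * om ^ 2 * t by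
      ring]
    refine (tri _ _ _).trans (le_of_le_of_eq (add_le_add c ?_) (two_mul _).symm)
    rwa [pow_add, mul_assoc (om ^ j), ← mul_sub, norm_mul, norm_pow, om_norm, one_pow, one_mul]
  obtain ⟨v, v1, mir⟩ : ∃ v : ℂ, ‖v‖ = 1 ∧ ∀ x ∈ K, v * (starRingEnd ℂ) x ∈ K := by
    choose u u1 u2 using fun n => (S n).w.Γ_mir (S n).hD
    obtain ⟨v, hv, φ, hφ, tv⟩ := (isCompact_sphere (0 : ℂ) 1).tendsto_subseq (x := u)
      fun n => mem_sphere_zero_iff_norm.2 (u1 n)
    refine ⟨v, mem_sphere_zero_iff_norm.1 hv, ?_⟩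
    rintro _ ⟨z, hz, rfl⟩
    obtain ⟨k, t, a, b, rfl⟩ := (bd_iff z).1 hz
    set z := om ^ k + om ^ k * om ^ 2 * t
    have : ∀ n, ∃ y ∈ K, ‖y - u n * (starRingEnd ℂ) (H z)‖ ≤ 2 * e n := fun n => by
      obtain ⟨k', s, c, d, f⟩ := u2 n k ((S n).θ t)
      obtain ⟨r, ⟨r0, r1⟩, rfl⟩ := intermediate_value_Icc zero_le_one (θc n).continuousOn
        (show s ∈ Icc _ _ from ⟨(S n).θ0.trans_le c, d.trans_eq (S n).θ1.symm⟩)
      have g : om ^ k' = om ^ (k' % 6).toNat := by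
        rw [← zpow_natCast, Int.toNat_of_nonneg (by omega)]
        conv_lhs => rw [← Int.emod_add_mul_ediv k' 6, zpow_add₀ om_ne, zpow_mul, zpow_ofNat, o6,
          one_zpow, mul_one]
      rw [zpow_natCast, ← hG n k t a b, g, ← hG n _ r r0 r1] at f
      refine ⟨_, ⟨_, (bd_iff _).2 ⟨(k' % 6).toNat, r, r0, r1, rfl⟩, rfl⟩,
        (tri _ _ _).trans (le_of_le_of_eq (add_le_add (hH n _) ?_) (two_mul _).symm)⟩
      rw [← f, ← mul_sub, ← map_sub, norm_mul, u1, one_mul, Complex.norm_conj]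
      exact hH n z
    choose y y1 y2 using this
    refine Kc.mem_of_tendsto (b := atTop) (f := fun n => y (φ n)) ?_ (.of_forall fun n => y1 _)
    have := (tendsto_zero_iff_norm_tendsto_zero.2 (squeeze_zero (fun _ => norm_nonneg _)
      (fun n => y2 (φ n)) (by simpa using (te.comp hφ.tendsto_atTop).const_mul 2))).add
      (tv.mul_const ((starRingEnd ℂ) (H z)))
    simpa using this
  have z0 : (0 : ℂ) ∈ H '' {z | Nn z < 1} := by
    refine ⟨H.symm 0, ?_, by simp⟩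
    have a := hH 0 (H.symm 0)
    have b := hD 0
    simp only [h0, s0, w0D, H.apply_symm_apply, id, zero_sub, norm_neg, norm_one] at a b
    exact ((Nn_norm _).2.trans_lt (by linarith))
  let T := H '' {z | Nn z ≤ 1}
  have cv1 : Convex ℝ {z | Nn z < 1} := by simpa using Nn_conv.convex_lt 1
  have cv2 : Convex ℝ {z | Nn z ≤ 1} := by simpa using Nn_conv.convex_le 1
  have op1 : IsOpen {z | Nn z < 1} := isOpen_lt Nn_cont continuous_const
  have inv : ∀ σ σ' : ℂ → ℂ, Continuous σ → σ 0 = 0 → (∀ z, σ' (σ z) = z) → (∀ x ∈ K, σ x ∈ K) →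
      (∀ x ∈ K, σ' x ∈ K) → ∀ x ∈ T, σ x ∈ T := by
    rintro σ σ' c c0 c1 c2 c3 _ ⟨z, hz, rfl⟩
    rcases (show Nn z ≤ 1 from hz).lt_or_eq with h | h
    · refine image_mono (s := {z | Nn z < 1}) (fun x h => le_of_lt (a := Nn x) h)
        (IsPreconnected.subset_left_of_subset_union (s := σ '' (H '' {z | Nn z < 1}))
        (v := H '' {z | 1 < Nn z}) (H.isOpenMap _ op1)
        (H.isOpenMap _ (isOpen_lt continuous_const Nn_cont))
        ((disjoint_image_iff H.injective).2 (Set.disjoint_left.2 fun x a b => lt_asymm (a := Nn x) a b)) ?_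
        ⟨0, ⟨0, z0, c0⟩, z0⟩ ((cv1.isPreconnected.image H
          H.continuous.continuousOn).image σ c.continuousOn) ⟨_, ⟨z, h, rfl⟩, rfl⟩)
      rintro _ ⟨_, ⟨x, hx, rfl⟩, rfl⟩
      obtain ⟨y, hy⟩ := H.surjective (σ (H x))
      rcases lt_trichotomy (Nn y) 1 with a | a | a
      · exact .inl ⟨y, a, hy⟩
      · obtain ⟨x', a1, a2⟩ := c3 _ ⟨y, a, hy⟩
        rw [c1] at a2
        exact absurd (H.injective a2 ▸ a1) (ne_of_lt hx)
      · exact .inr ⟨y, a, hy⟩
    · exact image_mono (s := {z | Nn z = 1}) (fun _ h => le_of_eq h) (c2 _ ⟨z, h, rfl⟩)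
  have inv2 : ∀ σ σ' : ℂ → ℂ, Continuous σ → Continuous σ' → σ 0 = 0 → σ' 0 = 0 →
      (∀ z, σ' (σ z) = z) → (∀ z, σ (σ' z) = z) → (∀ x ∈ K, σ x ∈ K) →
      (∀ x ∈ K, σ' x ∈ K) → σ '' T = T := fun σ σ' a b c d f g h i =>
    Subset.antisymm (image_subset_iff.2 (inv σ σ' a c f h i))
      fun x hx => ⟨_, inv σ' σ b d g i h x hx, g x⟩
  have Ti : ∀ x ∈ interior T, ∃ z, Nn z < 1 ∧ H z = x := fun x hx => by
    rw [← H.image_interior] at hx
    exact hx.imp fun z h => ⟨int_lt h.1, h.2⟩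
  let l : ℤ × ℤ → ℂ := fun p => (3 * p.1 + p.2 : ℤ) + p.2 * om
  have hl : ∀ p, Lam (l p) := fun p => ⟨_, _, by omega, rfl⟩
  let E := Denumerable.eqv (ℤ × ℤ)
  refine absurd (hT T ?_ ⟨0, ?_⟩ ?_
    ⟨fun i => IsometryEquiv.addRight (l (E.symm i)), ?_, ?_⟩) ?_
  · obtain ⟨g, -, hg, -⟩ := exists_homeomorph_image_interior_closure_frontier_eq_unitBall cv2
      ⟨0, interior_maximal (t := {z | Nn z < 1}) (fun x h => le_of_lt (a := Nn x) h) op1
        (show Nn 0 < 1 by simp [Nn, cx, cy])⟩ (bdd _ fun _ h => h)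
    rw [(isClosed_le Nn_cont continuous_const).closure_eq] at hg
    exact ⟨(H.image _).symm.trans ((g.image _).trans (.setCongr hg))⟩
  · simp only [zero_add, sub_zero]
    exact inv2 (om * ·) (om ^ 5 * ·) (by fun_prop) (by fun_prop) (by simp) (by simp)
      (fun z => by linear_combination z * o6) (fun z => by linear_combination z * o6)
      (by simpa using rot 1) (rot 5)
  · refine ⟨0, v, v1, ?_⟩
    simp only [zero_add, sub_zero]
    have : ∀ z, v * (starRingEnd ℂ) (v * (starRingEnd ℂ) z) = z := fun z => by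
      rw [map_mul, conj_conj, ← mul_assoc, mul_conj, normSq_eq_norm_sq, v1]; simp
    exact inv2 _ _ (by fun_prop) (by fun_prop) (by simp) (by simp) this this mir mir
  · refine eq_univ_of_forall fun z => ?_
    obtain ⟨a, b, h⟩ := cover (H.symm z)
    refine mem_iUnion.2 ⟨E (a, b), _, ⟨_, h, rfl⟩, ?_⟩
    beta_reduce
    rw [E.symm_apply_apply, IsometryEquiv.addRight_apply, ← HL _ _ (hl _)]
    simp [l]
  · refine fun i j hij => Set.disjoint_left.2 fun x hi hj => hij (E.symm.injective ?_)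
    beta_reduce at hi hj
    generalize E.symm i = p at *
    generalize E.symm j = p' at *
    have : ∀ p, x ∈ interior (IsometryEquiv.addRight (l p) '' T) →
        ∃ z, Nn z < 1 ∧ H (z + l p) = x := fun p h => by
      obtain ⟨y, a, b⟩ := ((IsometryEquiv.addRight (l p)).toHomeomorph.image_interior T).ge h
      obtain ⟨z, c, rfl⟩ := Ti y a
      exact ⟨z, c, (HL _ _ (hl _)).trans b⟩
    obtain ⟨z, a, b⟩ := this p hi
    obtain ⟨z', a', b'⟩ := this p' hj
    have d := H.injective (b.trans b'.symm)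
    have f := sep (X := 3 * p.1 + p.2 - (3 * p'.1 + p'.2)) (Y := p.2 - p'.2) (by omega) (by
      have := Nn_add z' ((-1 : ℝ) * z)
      rw [Nn_smul] at this
      refine lt_of_eq_of_lt (congrArg _ ?_) (this.trans_lt (by norm_num; linarith))
      simp only [l] at d
      push_cast at d ⊢
      linear_combination d)
    exact Prod.ext (by omega) (by omega)
  rintro ⟨m, -, ρ, c, w, ρ0, hw, -, hU⟩
  have ex : ∀ k : ℕ, exp (k * ((Real.pi / 3 : ℝ) : ℂ) * I) = om ^ k := fun k => by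
    rw [om, ← exp_nat_mul, mul_assoc]
  simp only [ex] at hU
  have w0 : ∀ i, w i ≠ 0 := fun i => norm_pos_iff.1 (hw i ▸ ρ0)
  let γ : ℝ → ℂ := fun t => H (om ^ 0 + om ^ 0 * om ^ 2 * t)
  have γc : Continuous γ := H.continuous.comp (by fun_prop)
  let F : Fin m × ℕ → Set ℝ := fun p => {t | ((γ t - (c p.1 + w p.1 * om ^ p.2)) *
    (starRingEnd ℂ) (w p.1 * om ^ p.2 * om ^ 2)).im = 0} ∪ (Ioo 0 1)ᶜ
  have cov : ∀ t ∈ Ioo (0 : ℝ) 1, ∃ p, t ∈ F p := fun t ht => by
    have a := (bd_iff _).2 ⟨0, t, ht.1.le, ht.2.le, rfl⟩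
    obtain ⟨i, hi⟩ := mem_iUnion.1 (hU.le ⟨_, a.le, rfl⟩)
    set Q := convexHull ℝ (range fun k : Fin 6 => c i + w i * om ^ (k : ℕ))
    have cQ : Convex ℝ Q := convex_convexHull _ _
    have q1 : ∀ k : ℕ, c i + w i * om ^ k ∈ Q := fun k => subset_convexHull _ _
      ⟨⟨k % 6, Nat.mod_lt _ (by norm_num)⟩, by simp only [← pow_eq_pow_mod k o6]⟩
    have q2 : ∀ y, Nn y = 1 → c i + w i * y ∈ Q := fun y hy => by
      obtain ⟨k, s, s0, s1, rfl⟩ := (bd_iff y).1 hy
      refine mem_of_eq_of_mem ?_ (cQ (q1 k) (q1 (k + 1)) (a := 1 - s) (by linarith) s0 (by ring))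
      simp only [real_smul]; push_cast
      linear_combination w i * om ^ k * s * om_sq
    have q3 : ∀ y, Nn y < 1 → c i + w i * y ∈ Q := fun y hy => by
      obtain ⟨r, x, r0, r1, hx, rfl⟩ : ∃ (r : ℝ) (x : ℂ), 0 ≤ r ∧ r < 1 ∧ Nn x = 1 ∧ y = r * x := by
        by_cases h : y = 0
        · exact ⟨0, _, le_rfl, one_pos, a, by simp [h]⟩
        have : 0 < Nn y := by linarith [(Nn_norm y).1, norm_pos_iff.2 h]
        refine ⟨Nn y, ((Nn y)⁻¹ : ℝ) * y, this.le, hy, ?_, ?_⟩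
        · rw [Nn_smul, abs_of_pos (inv_pos.2 this), inv_mul_cancel₀ this.ne']
        · rw [← mul_assoc, ← ofReal_mul, mul_inv_cancel₀ this.ne']; simp
      refine mem_of_eq_of_mem ?_ (cQ (q2 x hx) (q2 ((-1 : ℝ) * x) (by simp [Nn_smul, hx, -ofReal_neg]))
        (a := (1 + r) / 2) (b := (1 - r) / 2) (by linarith) (by linarith) (by ring))
      simp only [real_smul]; push_cast; ring
    have q4 : ∀ x ∈ Q, Nn ((x - c i) / w i) ≤ 1 := convexHull_min (by
      rintro _ ⟨k, rfl⟩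
      change Nn ((c i + w i * om ^ (k : ℕ) - c i) / w i) ≤ 1
      rw [add_sub_cancel_left, mul_div_cancel_left₀ _ (w0 i)]
      exact ((bd_iff _).2 ⟨k, 0, le_rfl, zero_le_one, by simp⟩).le) fun x hx y hy a b ha hb hab =>
        mem_of_eq_of_mem (s := {z | Nn z ≤ 1}) (by
          have : (a + b : ℂ) = 1 := by exact_mod_cast hab
          simp only [real_smul]
          linear_combination c i / w i * this) (cv2 hx hy ha hb hab)
    have e1 : ∀ x, c i + w i * ((x - c i) / w i) = x := fun x => by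
      rw [mul_div_cancel₀ _ (w0 i)]; ring
    rcases (q4 _ hi).lt_or_eq with h | h
    · obtain ⟨z, b1, b2⟩ := Ti (γ t) (interior_maximal (t := {x | Nn ((x - c i) / w i) < 1})
        (fun x hx => hU.ge (mem_iUnion.2 ⟨i, e1 x ▸ q3 _ hx⟩))
        (isOpen_lt (Nn_cont.comp (by fun_prop)) continuous_const) h)
      exact absurd (H.injective b2 ▸ b1) (a ▸ lt_irrefl _)
    · obtain ⟨k, s, -, -, hs⟩ := (bd_iff _).1 h
      refine ⟨(i, k), .inl ?_⟩
      rw [mem_ofPred_eq, show γ t - (c i + w i * om ^ k) = s * (w i * om ^ k * om ^ 2) by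
        rw [← e1 (γ t), hs]; ring, mul_assoc, mul_conj, ← ofReal_mul,
        ofReal_im]
  haveI : Nonempty (Fin m × ℕ) := ⟨(cov (1 / 2) (by norm_num)).choose⟩
  obtain ⟨t, t1, t2⟩ := (dense_iUnion_interior_of_closed (f := F) (fun p =>
    (isClosed_eq (by fun_prop) continuous_const).union isOpen_Ioo.isClosed_compl)
    (eq_univ_of_forall fun t => mem_iUnion.2 (by
      by_cases h : t ∈ Ioo (0 : ℝ) 1
      exacts [cov t h, ⟨Classical.arbitrary _, .inr h⟩]))).exists_mem_open isOpen_Ioo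
      (nonempty_Ioo.2 zero_lt_one)
  obtain ⟨p, hp⟩ := mem_iUnion.1 t1
  obtain ⟨β, hβ, sub⟩ := mem_nhdsGE_iff_exists_Icc_subset.1 (nhdsWithin_le_nhds
    (inter_mem (mem_interior_iff_mem_nhds.1 hp) (isOpen_Ioo.mem_nhds t2)))
  obtain ⟨n, hn⟩ := pow_unbounded_of_one_lt (3 / (β - t)) one_lt_two
  have a1 := ((S n).θl t β hβ.le).1
  rw [hW, div_lt_iff₀ (by linarith)] at *
  set j := ⌈(S n).θ t⌉
  have a2 : ((S n).θ t) ≤ j := Int.le_ceil _
  have a3 : (j : ℝ) < (S n).θ t + 1 := Int.ceil_lt_add_one _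
  set w' := (S n).w
  set b := (starRingEnd ℂ) (w p.1 * om ^ p.2 * om ^ 2)
  have pt : ∀ i : ℤ, j ≤ i → i ≤ j + 2 → ∃ z, ((z - (c p.1 + w p.1 * om ^ p.2)) * b).im = 0 ∧
      ‖z - (1 + om ^ 2 * (w'.p i / w'.D))‖ ≤ e n := fun i h1 h2 => by
    have h1 : (j : ℝ) ≤ i := by exact_mod_cast h1
    have h2 : (i : ℝ) ≤ j + 2 := by exact_mod_cast h2
    obtain ⟨r, hr, f⟩ := intermediate_value_Icc hβ.le (θc n).continuousOn
      (show (i : ℝ) ∈ Icc _ _ from ⟨by linarith, by linarith⟩)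
    obtain ⟨g1, g2⟩ := sub hr
    have := hH n (om ^ 0 + om ^ 0 * om ^ 2 * r)
    rw [hG n 0 r g2.1.le g2.2.le, f, Wd.Γ, Wd.P_int, pow_zero om, one_mul (_ + _)] at this
    exact ⟨γ r, g1.resolve_right (not_not.2 g2), by simpa only [γ, pow_zero] using this⟩
  obtain ⟨z1, b1, c1⟩ := pt j le_rfl (by omega)
  obtain ⟨z2, b2, c2⟩ := pt (j + 1) (by omega) (by omega)
  obtain ⟨z3, b3, c3⟩ := pt (j + 1 + 1) (by omega) (by omega)
  have D0 := (S n).hD
  have o := om_ne
  set V := om ^ 2 * om ^ w'.d j / w'.D with hV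
  have V0 : V ≠ 0 := div_ne_zero (mul_ne_zero (pow_ne_zero _ o) (zpow_ne_zero _ o)) D0
  have est : ∀ x y X Y u : ℂ, ‖x - X‖ ≤ e n → ‖y - Y‖ ≤ e n → Y - X = u * V →
      ‖(y - x) / V - u‖ ≤ 1 / 5 := fun x y X Y u h1 h2 h3 => by
    rw [show (y - x) / V - u = ((y - Y) - (x - X)) / V by
      rw [eq_div_iff V0, sub_mul, div_mul_cancel₀ _ V0, ← h3]; ring, norm_div, hV, norm_div,
      norm_mul, zn, norm_pow, om_norm, one_pow, one_mul, one_div, div_inv_eq_mul]
    have := mul_le_mul_of_nonneg_right ((norm_sub_le _ _).trans (add_le_add h2 h1))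
      (norm_nonneg w'.D)
    linarith [hD n]
  obtain ⟨u, u1, u2⟩ : ∃ u, (u = om ∨ u = 1 - om) ∧ om ^ w'.d (j + 1) = u * om ^ w'.d j := by
    rcases w'.step j with h | h
    · exact ⟨_, .inl rfl, by rw [h, zpow_add_one₀ o, mul_comm]⟩
    · refine ⟨_, .inr rfl, ?_⟩
      rw [show w'.d j = w'.d (j + 1) + 1 by omega, zpow_add_one₀ o]
      linear_combination om ^ w'.d (j + 1) * om_sq
  refine noncol (c := V * b) (mul_ne_zero V0 (by simp [b, o, w0]))
    (est _ _ _ _ 1 c1 c2 (by rw [w'.p_succ, hV]; ring))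
    (est _ _ _ _ u c2 c3 (by rw [w'.p_succ (j + 1), u2, hV]; ring)) u1 ?_ ?_ <;>
    rw [← mul_assoc, div_mul_cancel₀ _ V0] <;> simp only [sub_mul, sub_im] at * <;> linarith

end Pool.Agent.S10486
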