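import Pool.Statements.S10579
import Pool.Agent.H3.P6Main

set_option autoImplicit false
open Pool Pool.MP_a55661_co

namespace Pool.Agent.S10579

theorem p6 {V : Type} (G : SimpleGraph V) (hP : IsEmpty (SimpleGraph.pathGraph 6 ↪g G))
    (a b c d e f : V) (ab : a = b ∨ G.Adj a b) (bc : b = c ∨ G.Adj b c) (cd : c = d ∨ G.Adj c d)
    (de : d = e ∨ G.Adj d e) (ef : e = f ∨ G.Adj e f) :
    (a = c ∨ G.Adj a c) ∨ (a = d ∨ G.Adj a d) ∨ (a = e ∨ G.Adj a e) ∨ (a = f ∨ G.Adj a f) ∨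
    (b = d ∨ G.Adj b d) ∨ (b = e ∨ G.Adj b e) ∨ (b = f ∨ G.Adj b f) ∨ (c = e ∨ G.Adj c e) ∨
    (c = f ∨ G.Adj c f) ∨ (d = f ∨ G.Adj d f) := by
  by_contra hc
  have hc' := hc
  simp only [not_or] at hc'
  obtain ⟨⟨n1, m1⟩, ⟨n2, m2⟩, ⟨n3, m3⟩, ⟨n4, m4⟩, ⟨n5, m5⟩, ⟨n6, m6⟩, ⟨n7, m7⟩, ⟨n8, m8⟩,
    ⟨n9, m9⟩, n10, m10⟩ := hc'
  have ab' : G.Adj a b := ab.resolve_left fun h => hc (Or.inl (h ▸ bc))
  have bc' : G.Adj b c := bc.resolve_left fun h => hc (Or.inl (h ▸ ab))
  have cd' : G.Adj c d := cd.resolve_left fun h => m5 (h ▸ bc')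
  have de' : G.Adj d e := de.resolve_left fun h => m8 (h ▸ cd')
  have ef' : G.Adj e f := ef.resolve_left fun h => m10 (h ▸ de')
  have key : ∀ i j : Fin 6, i < j →
      ((![a, b, c, d, e, f] : Fin 6 → V) i ≠ (![a, b, c, d, e, f] : Fin 6 → V) j ∧
      (G.Adj ((![a, b, c, d, e, f] : Fin 6 → V) i) ((![a, b, c, d, e, f] : Fin 6 → V) j) ↔
        i.val + 1 = j.val)) := by
    have := ab'.ne
    have := bc'.ne
    have := cd'.ne
    have := de'.ne
    have := ef'.ne
    intro i j hij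
    fin_cases i <;> fin_cases j <;> first | exact absurd hij (by decide) | simp [*]
  refine hP.false ⟨⟨![a, b, c, d, e, f], fun i j hij => ?_⟩, fun {i j} => ?_⟩
  · rcases lt_trichotomy i j with h | h | h
    · exact absurd hij (key i j h).1
    · exact h
    · exact absurd hij.symm (key j i h).1
  · rw [SimpleGraph.pathGraph_adj]
    change G.Adj ((![a, b, c, d, e, f] : Fin 6 → V) i) ((![a, b, c, d, e, f] : Fin 6 → V) j) ↔ _
    rcases lt_trichotomy i j with h | h | h
    · rw [(key i j h).2]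
      have : i.val < j.val := h
      omega
    · subst h
      simp
    · rw [G.adj_comm, (key j i h).2]
      have : j.val < i.val := h
      omega

/-- For every finite graph with no induced 6-vertex path that has a set D whose closed neighbourhoods partition the vertices, the square graph (distance 1 or 2) contains no induced complement of an odd cycle of length at least 5. -/
theorem result :
    ∀ (V : Type) [Fintype V] (G : SimpleGraph V),
      IsEmpty (SimpleGraph.pathGraph 6 ↪g G) →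
      (∃ D : Set V, ∀ v : V, ∃! d : V, d ∈ D ∧ (d = v ∨ G.Adj d v)) →
      ∀ k : ℕ, 5 ≤ k → Odd k →
        IsEmpty ((SimpleGraph.cycleGraph k)ᶜ ↪g
          SimpleGraph.fromRel (fun u v : V => G.Adj u v ∨ ∃ w, G.Adj u w ∧ G.Adj w v)) := by
  intro V _ G hP ⟨D, hD⟩ k hk ho
  refine ⟨fun f => ?_⟩
  let X : H3.P6.Ctx V :=
    { N := fun u v => u = v ∨ G.Adj u v
      dom := fun v => (hD v).choose
      refl := fun _ => Or.inl rfl
      symm := fun _ _ h => h.imp Eq.symm G.adj_symm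
      d1 := fun v => (hD v).choose_spec.1.2
      d2 := fun u v w h1 h2 => (hD w).unique ⟨(hD u).choose_spec.1.1, h1⟩
        ⟨(hD v).choose_spec.1.1, h2⟩
      p6 := p6 G hP }
  have far : ∀ x y : Fin k, X.Far (f x) (f y) ↔ (SimpleGraph.cycleGraph k).Adj x y := by
    intro x y
    have hf := f.map_rel_iff (a := x) (b := y)
    rw [SimpleGraph.compl_adj, SimpleGraph.fromRel_adj] at hf
    constructor
    · intro h
      by_contra hn
      by_cases e : x = y
      · exact h ⟨f x, Or.inl rfl, Or.inl (by rw [e])⟩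
      · rcases (hf.2 ⟨e, hn⟩).2 with (c | ⟨w, c1, c2⟩) | (c | ⟨w, c1, c2⟩)
        · exact h ⟨f y, Or.inr c, Or.inl rfl⟩
        · exact h ⟨w, Or.inr c1, Or.inr c2.symm⟩
        · exact h ⟨f x, Or.inl rfl, Or.inr c⟩
        · exact h ⟨w, Or.inr c2.symm, Or.inr c1⟩
    · rintro h ⟨w, c1, c2⟩
      have ne : f x ≠ f y := fun e => h.ne (f.injective e)
      refine (hf.1 ⟨ne, ?_⟩).2 h
      rcases c1 with c1 | c1 <;> rcases c2 with c2 | c2
      · exact absurd (c1.trans c2.symm) ne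
      · exact Or.inr (Or.inl (c1 ▸ c2))
      · exact Or.inl (Or.inl (c2 ▸ c1))
      · exact Or.inl (Or.inr ⟨w, c1, c2.symm⟩)
  obtain ⟨m, rfl⟩ : ∃ m, k = m + 2 := ⟨k - 2, by omega⟩
  refine H3.P6.main X (a := fun n => f (Fin.ofNat (m + 2) n)) (fun i j => ?_) hk ho (fun n => ?_)
  · rw [far, SimpleGraph.cycleGraph_adj, sub_eq_iff_eq_add', sub_eq_iff_eq_add', Fin.ext_iff,
      Fin.ext_iff, Fin.val_add, Fin.val_add, or_comm]
    simp [eq_comm]
  · congr 1
    ext
    simp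

end Pool.Agent.S10579
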