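import Pool.Statements.S10582

set_option autoImplicit false
open Pool Pool.MP_a55b46_co

namespace Pool.Agent.S10582

/-- adjacency test: core `0..14` is a clique, vertex `15+j` sees six cyclically consecutive core vertices -/
def adjB (x y : ℕ) : Bool :=
  (x != y) && ((decide (x < 15) && decide (y < 15)) ||
    (decide (x < 15) && decide ((x + 9 * y) % 15 < 6)) ||
    (decide (y < 15) && decide ((y + 9 * x) % 15 < 6)))

def G40 : SimpleGraph (Fin 40) where
  Adj x y := adjB x.val y.val = true
  symm := ⟨by decide +kernel⟩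
  loopless := ⟨by decide +kernel⟩

instance : DecidableRel G40.Adj := fun x y => inferInstanceAs (Decidable (adjB x.val y.val = true))

def K (v : Fin 40) : Finset (Fin 40) := Finset.univ.filter (fun u => u = v ∨ G40.Adj v u)
def I (v : Fin 40) : Finset (Fin 40) := Finset.univ.filter (fun u => ¬ G40.Adj v u)
def core : Finset (Fin 40) := Finset.univ.filter (fun u => u.val < 15)
def out : Finset (Fin 40) := Finset.univ.filter (fun u => ¬ u.val < 15)

lemma K_clique : ∀ v : Fin 40, ¬ v.val < 15 → ∀ x ∈ K v, ∀ y ∈ K v, x ≠ y → G40.Adj x y := by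
  decide +kernel
lemma K_card : ∀ v : Fin 40, ¬ v.val < 15 → 6 < (K v).card := by decide +kernel
lemma I_indep : ∀ v : Fin 40, v.val < 15 → ∀ x ∈ I v, ∀ y ∈ I v, x ≠ y → ¬ G40.Adj x y := by
  decide +kernel
lemma I_card : ∀ v : Fin 40, v.val < 15 → 15 < (I v).card := by decide +kernel
lemma core_clique : ∀ x ∈ core, ∀ y ∈ core, x ≠ y → G40.Adj x y := by decide +kernel
lemma core_card : 6 < core.card := by decide +kernel
lemma out_indep : ∀ x ∈ out, ∀ y ∈ out, x ≠ y → ¬ G40.Adj x y := by decide +kernel
lemma out_card : 15 < out.card := by decide +kernel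

lemma h40 : (40 : ℕ) ∈ {n : ℕ | ∃ G : SimpleGraph (Fin n),
          (∀ s : Finset (Fin n),
            Maximal (fun t : Finset (Fin n) => G.IsClique (t : Set (Fin n))) s → 6 < s.card) ∧
          (∀ s : Finset (Fin n),
            Maximal (fun t : Finset (Fin n) => G.IsIndepSet (t : Set (Fin n))) s →
              15 < s.card)} := by
  refine ⟨G40, fun s hs => ?_, fun s hs => ?_⟩
  · by_cases hv : ∃ v ∈ s, ¬ v.val < 15
    · obtain ⟨v, hvs, hv⟩ := hv
      have h1 : s ⊆ K v := by
        intro u hu
        simp only [K, Finset.mem_filter, Finset.mem_univ, true_and]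
        by_cases huv : u = v
        · exact Or.inl huv
        · exact Or.inr (hs.1 hvs hu (Ne.symm huv))
      have h2 : K v ⊆ s := hs.2 (fun x hx y hy hxy => K_clique v hv x hx y hy hxy) h1
      exact lt_of_lt_of_le (K_card v hv) (Finset.card_le_card h2)
    · push Not at hv
      have h1 : s ⊆ core := fun u hu => by simpa [core] using hv u hu
      have h2 : core ⊆ s := hs.2 (fun x hx y hy hxy => core_clique x hx y hy hxy) h1
      exact lt_of_lt_of_le core_card (Finset.card_le_card h2)
  · by_cases hv : ∃ v ∈ s, v.val < 15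
    · obtain ⟨v, hvs, hv⟩ := hv
      have h1 : s ⊆ I v := by
        intro u hu
        simp only [I, Finset.mem_filter, Finset.mem_univ, true_and]
        by_cases huv : v = u
        · subst huv; exact G40.irrefl
        · exact hs.1 hvs hu huv
      have h2 : I v ⊆ s := hs.2 (fun x hx y hy hxy => I_indep v hv x hx y hy hxy) h1
      exact lt_of_lt_of_le (I_card v hv) (Finset.card_le_card h2)
    · push Not at hv
      have h1 : s ⊆ out := fun u hu => by simpa [out] using hv u hu
      have h2 : out ⊆ s := hs.2 (fun x hx y hy hxy => out_indep x hx y hy hxy) h1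
      exact lt_of_lt_of_le out_card (Finset.card_le_card h2)

lemma hmin (a b : ℕ) (ha : 0 < a) (hab : a ≤ b) (h1 : a * b ≤ 15) (h2 : 15 ≤ a * (b + 1)) :
    |((2 * 6 : ℕ) : ℤ) - ((7 : ℕ) : ℤ)| ≤ |((a * 6 : ℕ) : ℤ) - (b : ℤ)| := by
  have ha3 : a ≤ 3 := by nlinarith
  have hb : b ≤ 15 := by nlinarith
  interval_cases a <;> interval_cases b <;> simp_all

/-- The negation of the preceding statement: For 2 ≤ ℓ < ⌊m/2⌋ and any (α,β) in N_m minimizing the gap between αℓ and β, the least order of a graph whose maximal cliques all exceed ℓ vertices and maximal independent sets all exceed m vertices is ℓ+m+β+αℓ, plus 1 if m≠αβ. -/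
theorem result :
    ¬ (∀ ℓ m : ℕ, 2 ≤ ℓ → ℓ < m / 2 →
      ∀ α β : ℕ, (0 < α ∧ α ≤ β ∧ α * β ≤ m ∧ m ≤ α * (β + 1)) →
        (∀ a b : ℕ, 0 < a → a ≤ b → a * b ≤ m → m ≤ a * (b + 1) →
          |((α * ℓ : ℕ) : ℤ) - (β : ℤ)| ≤ |((a * ℓ : ℕ) : ℤ) - (b : ℤ)|) →
        IsLeast
          {n : ℕ | ∃ G : SimpleGraph (Fin n),
            (∀ s : Finset (Fin n),
              Maximal (fun t : Finset (Fin n) => G.IsClique (t : Set (Fin n))) s → ℓ < s.card) ∧
            (∀ s : Finset (Fin n),
              Maximal (fun t : Finset (Fin n) => G.IsIndepSet (t : Set (Fin n))) s → m < s.card)}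
          (ℓ + m + β + α * ℓ + (if m = α * β then 0 else 1))) := by
  intro H
  have h := (H 6 15 (by norm_num) (by norm_num) 2 7 (by norm_num) hmin).2
  have := h h40
  norm_num at this

end Pool.Agent.S10582
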