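import Pool.Statements.S10590
import Pool.Agent.H19.DPPoly
-- import your own Pool.Agent.* helpers here

set_option autoImplicit false
open Pool Pool.MP_a59ce0_co

namespace Pool.Agent.S10590

/-- The negation of the preceding statement: For every finite graph G, the DP color function (minimum over all m-fold correspondence covers of the number of independent transversals) agrees with some real polynomial in m for all sufficiently large m. -/
theorem result :
    ¬ (∀ (n : ℕ) (G : SimpleGraph (Fin n)), ∃ N : ℕ, ∃ p : Polynomial ℝ, ∀ m : ℕ, N ≤ m →
      (((sInf {k : ℕ | ∃ M : Fin n → Fin n → Fin m → Fin m → Prop,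
          (∀ u v i j, M u v i j → G.Adj u v) ∧
          (∀ u v i j, M u v i j → M v u j i) ∧
          (∀ u v i j j', M u v i j → M u v i j' → j = j') ∧
          (∀ u v i i' j, M u v i j → M u v i' j → i = i') ∧
          k = Set.ncard {f : Fin n → Fin m | ∀ u v, ¬ M u v (f u) (f v)}} : ℕ) : ℝ)
        = p.eval (m : ℝ))) := by
  intro h
  exact Pool.Agent.H19.DPPoly.not_poly (h 11 Pool.Agent.H19.DPPoly.G0)

end Pool.Agent.S10590
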