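import Pool.Statements.S10592
import Pool.Agent.H32.Brauer

set_option autoImplicit false
open Pool Pool.MP_a5a405_co

namespace Pool.Agent.S10592

/-- The negation of the preceding statement: Fix nonzero integers a_i, b_i, c_i and n ≥ 1. Every finite colouring gives nonzero one-colour x_i, y_i, w_i, z_i with a_i x_i + b_i y_i = c_i w_i z_i^n for all i iff some rational n-th power lies in every set {a_i/c_i, b_i/c_i, (a_i+b_i)/c_i}. -/
theorem result :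
    ¬ (∀ (k : ℕ) (a b c : Fin k → ℤ) (n : ℕ),
      (∀ i, a i ≠ 0 ∧ b i ≠ 0 ∧ c i ≠ 0) → 1 ≤ n →
      ((∀ (r : ℕ) (χ : ℤ → Fin r), ∃ (x y w z : Fin k → ℤ) (col : Fin r),
          ∀ i, x i ≠ 0 ∧ y i ≠ 0 ∧ w i ≠ 0 ∧ z i ≠ 0 ∧
            a i * x i + b i * y i = c i * w i * z i ^ n ∧
            χ (x i) = col ∧ χ (y i) = col ∧ χ (w i) = col ∧ χ (z i) = col) ↔
        ∃ q : ℚ, ∀ i, q ^ n = (a i : ℚ) / (c i : ℚ) ∨ q ^ n = (b i : ℚ) / (c i : ℚ) ∨
          q ^ n = ((a i : ℚ) + (b i : ℚ)) / (c i : ℚ))) := by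
  exact Pool.Agent.H32.Brauer.main

end Pool.Agent.S10592
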