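import Pool.Statements.S10606
import Pool.Agent.H31.Shift

set_option autoImplicit false
open Finset
open Pool Pool.MP_a60f11_co

namespace Pool.Agent.S10606

/-- The negation of the preceding statement: f(3)=3/8: for every n≥4 some law of events on 3-subsets of [n] gives each shift pair (A,B) Pr(E_A and not E_B) at least 3/8, and for every ε>0 some n forces a shift pair below 3/8+ε. -/
theorem result :
    ¬ ((∀ n : ℕ, 4 ≤ n →
      ∃ p : Finset (Finset (Fin n)) → ℝ,
        (∀ ω, 0 ≤ p ω) ∧ (∑ ω, p ω) = 1 ∧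
        ∀ g : Fin 4 → Fin n, StrictMono g →
          (3 / 8 : ℝ) ≤ ∑ ω ∈ Finset.univ.filter
            (fun ω : Finset (Finset (Fin n)) =>
              (Finset.univ.image (fun i : Fin 3 => g (Fin.castSucc i))) ∈ ω ∧
              (Finset.univ.image (fun i : Fin 3 => g (Fin.succ i))) ∉ ω), p ω) ∧
    (∀ ε : ℝ, 0 < ε →
      ∃ n : ℕ, 4 ≤ n ∧
        ∀ p : Finset (Finset (Fin n)) → ℝ,
          (∀ ω, 0 ≤ p ω) → (∑ ω, p ω) = 1 →
          ∃ g : Fin 4 → Fin n, StrictMono g ∧
            (∑ ω ∈ Finset.univ.filter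
              (fun ω : Finset (Finset (Fin n)) =>
                (Finset.univ.image (fun i : Fin 3 => g (Fin.castSucc i))) ∈ ω ∧
                (Finset.univ.image (fun i : Fin 3 => g (Fin.succ i))) ∉ ω), p ω)
              < 3 / 8 + ε)) := by
  rintro ⟨_, h⟩
  obtain ⟨n, _, hn⟩ := h (1 / 256) (by norm_num)
  obtain ⟨p, h0, h1, h2⟩ := Pool.Agent.H31.Shift.letters (n := n) (k := 3) (D := 4) (by norm_num)
    (fun z => Pool.Agent.H31.Shift.rule4 (z 0) (z 1) (z 2) = true) 97
    (by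
      have := Pool.Agent.H31.Shift.tuple4 Pool.Agent.H31.Shift.rule4
      rw [← Pool.Agent.H31.Shift.cnt4]
      convert this)
  obtain ⟨g, hg, hlt⟩ := hn p h0 h1
  have h3 := h2 g hg
  have h4 : ((97 : ℕ) : ℝ) / ((4 : ℕ) : ℝ) ^ (3 + 1) = 3 / 8 + 1 / 256 := by norm_num
  rw [h4] at h3
  refine absurd hlt (not_lt.mpr (le_of_eq ?_))
  rw [← h3]

end Pool.Agent.S10606
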