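import Pool.Statements.S10616
-- import your own Pool.Agent.* helpers here

set_option autoImplicit false
open Pool Pool.MP_a6f6ae_co

namespace Pool.Agent.S10616

def v (i : ℕ) : ℤ := [197571622345, -897660649809, 1390027262944, -1057701415635, 460495210729,
  -123687092931, 21202563294, -2325507359, 157957414, -6051995, 100000].getD i 0

def B (n : ℕ) : ℕ := ∑ k ∈ Finset.range (n + 1), (n.choose k) ^ 2 * ((n + k).choose k)

lemma neg : ∑ i ∈ Finset.range 11, ∑ j ∈ Finset.range 11, v i * v j * (B (i + j + 1) : ℤ) < 0 := by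
  simp only [B, Nat.choose_eq_fast_choose]
  decide +kernel

/-- The negation of the preceding statement: There is a measure on the nonnegative reals whose n-th moments are the Apéry numbers A_n = sum of C(n,k)^2 C(n+k,k)^2, and another whose n-th moments are B_n = sum of C(n,k)^2 C(n+k,k), for all n. -/
theorem result :
    ¬ ((∃ μ : MeasureTheory.Measure ℝ, μ (Set.Iio 0) = 0 ∧ ∀ n : ℕ,
      ∫⁻ x, ENNReal.ofReal (x ^ n) ∂μ =
        ((∑ k ∈ Finset.range (n + 1), (n.choose k) ^ 2 * ((n + k).choose k) ^ 2 : ℕ) : ENNReal)) ∧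
    (∃ μ : MeasureTheory.Measure ℝ, μ (Set.Iio 0) = 0 ∧ ∀ n : ℕ,
      ∫⁻ x, ENNReal.ofReal (x ^ n) ∂μ =
        ((∑ k ∈ Finset.range (n + 1), (n.choose k) ^ 2 * ((n + k).choose k) : ℕ) : ENNReal))) := by
  rintro ⟨-, μ, h0, h⟩
  have ae : ∀ᵐ x ∂μ, (0 : ℝ) ≤ x := by
    rw [MeasureTheory.ae_iff]
    simpa [Set.Iio] using h0
  have nn : ∀ n : ℕ, 0 ≤ᵐ[μ] fun x : ℝ => x ^ n := fun n => ae.mono fun x hx => pow_nonneg hx n
  have it : ∀ n : ℕ, MeasureTheory.Integrable (fun x : ℝ => x ^ n) μ := fun n =>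
    ⟨by fun_prop, (MeasureTheory.hasFiniteIntegral_iff_ofReal (nn n)).2
      (by rw [h n]; exact ENNReal.natCast_lt_top _)⟩
  have e : ∀ n : ℕ, ∫ x, x ^ n ∂μ = (B n : ℝ) := fun n => by
    rw [MeasureTheory.integral_eq_lintegral_of_nonneg_ae (nn n) (it n).1, h n,
      ENNReal.toReal_natCast, B]
  have p : 0 ≤ ∫ x, ∑ i ∈ Finset.range 11, ∑ j ∈ Finset.range 11,
      (v i * v j : ℝ) * x ^ (i + j + 1) ∂μ := by
    refine MeasureTheory.integral_nonneg_of_ae (ae.mono fun x hx => ?_)
    have : ∑ i ∈ Finset.range 11, ∑ j ∈ Finset.range 11, (v i * v j : ℝ) * x ^ (i + j + 1) =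
        x * (∑ i ∈ Finset.range 11, (v i : ℝ) * x ^ i) ^ 2 := by
      rw [sq, Finset.sum_mul_sum, Finset.mul_sum]
      refine Finset.sum_congr rfl fun i _ => ?_
      rw [Finset.mul_sum]
      exact Finset.sum_congr rfl fun j _ => by ring
    simp only [this]
    exact mul_nonneg hx (sq_nonneg _)
  rw [MeasureTheory.integral_finsetSum _ fun i _ =>
    MeasureTheory.integrable_finsetSum _ fun j _ => (it _).const_mul _] at p
  simp only [MeasureTheory.integral_finsetSum _ fun j _ => (it _).const_mul _,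
    MeasureTheory.integral_const_mul, e] at p
  have q := neg
  have : ((∑ i ∈ Finset.range 11, ∑ j ∈ Finset.range 11, v i * v j * (B (i + j + 1) : ℤ) : ℤ) : ℝ)
      < 0 := by exact_mod_cast q
  push_cast at this
  exact absurd p (not_le.2 this)

end Pool.Agent.S10616
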