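import Pool.Statements.S10620
import Pool.Agent.H11.Norm.K5

set_option autoImplicit false
open Pool Pool.MP_a73857_co

namespace Pool.Agent.S10620

/-- The negation of the preceding statement: For every d ≥ 2 and finite graph H, exactly one holds: comeagre-many norms on ℝ^d have a unit distance graph containing H as a subgraph, or comeagre-many have one not containing H. Norms carry the topology of uniform convergence on compacts. -/
theorem result :
    ¬ (∀ d : ℕ, 2 ≤ d → ∀ n : ℕ, ∀ H : SimpleGraph (Fin n),
      Xor'
        ({N : {f : C(Fin d → ℝ, ℝ) //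
              (∀ x, f x = 0 → x = 0) ∧
              (∀ x y, f (x + y) ≤ f x + f y) ∧
              (∀ (c : ℝ) x, f (c • x) = |c| * f x)} |
            ∃ φ : Fin n → (Fin d → ℝ), Function.Injective φ ∧
              ∀ u v, H.Adj u v → N.1 (φ u - φ v) = 1} ∈ residual _)
        ({N : {f : C(Fin d → ℝ, ℝ) //
              (∀ x, f x = 0 → x = 0) ∧
              (∀ x y, f (x + y) ≤ f x + f y) ∧
              (∀ (c : ℝ) x, f (c • x) = |c| * f x)} |
            ¬ ∃ φ : Fin n → (Fin d → ℝ), Function.Injective φ ∧
              ∀ u v, H.Adj u v → N.1 (φ u - φ v) = 1} ∈ residual _)) := by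
  intro h
  have h1 := h 3 (by norm_num) 5 ⊤
  simp only [Pool.Agent.H11.Norm.equi_iff] at h1
  rcases h1 with h1 | h1
  · exact Pool.Agent.H11.Norm.not_residual_equi h1.1
  · exact Pool.Agent.H11.Norm.not_residual_not_equi h1.1

end Pool.Agent.S10620
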