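import Pool.Statements.S10628
-- import your own Pool.Agent.* helpers here

set_option autoImplicit false
open Pool Pool.MP_a76d3a_co

namespace Pool.Agent.S10628

/-- the weights -/
def a : Fin 3 → Fin 3 → ℕ := ![![1, 0, 1], ![0, 22, 25], ![1, 25, 28]]

def A : Sym2 (Fin 3) → ℕ := Sym2.lift ⟨a, by decide⟩

/-- a 4-cycle 0 1 2 3 with leaves 4 at 0 and 5 at 1 -/
def r : Fin 6 → Fin 6 → Bool := fun u v =>
  (u, v) ∈ [(0, 1), (1, 2), (2, 3), (3, 0), (0, 4), (1, 5), (1, 0), (2, 1), (3, 2), (0, 3), (4, 0), (5, 1)]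

def sg : Fin 6 → Fin 6 → Bool := fun u v => (u, v) ∈ [(3, 0), (0, 3)]

def G : SimpleGraph (Fin 6) where
  Adj u v := r u v = true
  symm := ⟨by decide⟩
  loopless := ⟨by decide⟩

instance : DecidableRel G.Adj := fun u v => inferInstanceAs (Decidable (r u v = true))

def H : SimpleGraph (Fin 6 × Bool) where
  Adj x y := r x.1 y.1 = true ∧ y.2 = xor x.2 (sg x.1 y.1)
  symm := ⟨by decide⟩
  loopless := ⟨by decide⟩

instance : DecidableRel H.Adj := fun x y =>
  inferInstanceAs (Decidable (r x.1 y.1 = true ∧ y.2 = xor x.2 (sg x.1 y.1)))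

theorem sum_cons {n : ℕ} (F : (Fin (n + 1) → Fin 3) → ℕ) :
    ∑ φ, F φ = ∑ x, ∑ ψ : Fin n → Fin 3, F (Matrix.vecCons x ψ) := by
  rw [← Fintype.sum_prod_type', ← (Fin.consEquiv fun _ => Fin 3).sum_comp]
  rfl

theorem edgesG : G.edgeFinset = {s(0, 1), s(1, 2), s(2, 3), s(3, 0), s(0, 4), s(1, 5)} := by
  decide +kernel

theorem edgesH : H.edgeFinset =
    {s((0, false), (1, false)), s((1, false), (2, false)), s((2, false), (3, false)),
     s((3, false), (0, true)), s((0, true), (1, true)), s((1, true), (2, true)),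
     s((2, true), (3, true)), s((3, true), (0, false)), s((0, false), (4, false)),
     s((1, false), (5, false)), s((0, true), (4, true)), s((1, true), (5, true))} := by
  decide +kernel

theorem ZG : ∑ φ : Fin 6 → Fin 3, ∏ e ∈ G.edgeFinset, A (Sym2.map φ e) = 16444998284 := by
  have h : ∀ φ : Fin 6 → Fin 3, ∏ e ∈ G.edgeFinset, A (Sym2.map φ e) =
      a (φ 0) (φ 1) * a (φ 1) (φ 2) * a (φ 2) (φ 3) * a (φ 3) (φ 0) * a (φ 0) (φ 4) *
        a (φ 1) (φ 5) := by
    intro φ
    rw [edgesG]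
    repeat rw [Finset.prod_insert (by decide)]
    simp only [Finset.prod_singleton, Sym2.map_mk, A, Sym2.lift_mk]
    ring
  simp only [h, sum_cons, Matrix.cons_val, Finset.univ_unique, Finset.sum_singleton]
  decide +kernel

/-- numbering of the vertices of the lift -/
def ι : Fin 12 ≃ Fin 6 × Bool where
  toFun := ![(0, false), (1, false), (2, false), (3, false), (0, true), (1, true), (2, true),
    (3, true), (4, false), (5, false), (4, true), (5, true)]
  invFun := fun p => if p.2 then ![4, 5, 6, 7, 10, 11] p.1 else ![0, 1, 2, 3, 8, 9] p.1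
  left_inv := by decide
  right_inv := by decide

theorem ZH : ∑ φ : Fin 6 × Bool → Fin 3, ∏ e ∈ H.edgeFinset, A (Sym2.map φ e) =
    16444998284 ^ 2 + 77361180112 := by
  have h : ∀ φ : Fin 12 → Fin 3, ∏ e ∈ H.edgeFinset, A (Sym2.map (φ ∘ ι.symm) e) =
      a (φ 0) (φ 1) * a (φ 1) (φ 2) * a (φ 2) (φ 3) * a (φ 3) (φ 4) * a (φ 4) (φ 5) *
        a (φ 5) (φ 6) * a (φ 6) (φ 7) * a (φ 7) (φ 0) * a (φ 0) (φ 8) * a (φ 1) (φ 9) *
        a (φ 4) (φ 10) * a (φ 5) (φ 11) := by
    intro φ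
    rw [edgesH]
    repeat rw [Finset.prod_insert (by decide)]
    simp only [Finset.prod_singleton, Sym2.map_mk, A, Sym2.lift_mk]
    simp only [mul_assoc]
    rfl
  rw [← (Equiv.arrowCongr ι (Equiv.refl (Fin 3))).sum_comp]
  have h2 : ∀ φ : Fin 12 → Fin 3, (Equiv.arrowCongr ι (Equiv.refl (Fin 3))) φ = φ ∘ ι.symm :=
    fun _ => rfl
  simp only [h2, h, sum_cons, Matrix.cons_val, Finset.univ_unique, Finset.sum_singleton,
    ← Finset.mul_sum, ← Finset.sum_mul]
  decide +kernel


/-- The negation of the preceding statement: For every finite bipartite graph G, every 2-lift H of G, and every nonnegative symmetric weight matrix A, the weighted homomorphism count of H into A is at most that of G squared, i.e. that of two disjoint copies of G. -/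
theorem result :
    ¬ (∀ (V : Type) [Fintype V] [DecidableEq V] (G : SimpleGraph V) [DecidableRel G.Adj],
      G.Colorable 2 →
      ∀ (H : SimpleGraph (V × Bool)) [DecidableRel H.Adj],
        (∃ s : V → V → Bool, (∀ u v, s u v = s v u) ∧
          ∀ u v : V, ∀ i j : Bool,
            H.Adj (u, i) (v, j) ↔ (G.Adj u v ∧ j = xor i (s u v))) →
        ∀ (n : ℕ) (A : Sym2 (Fin n) → ℝ), (∀ z, 0 ≤ A z) →
          (∑ φ : V × Bool → Fin n, ∏ e ∈ H.edgeFinset, A (Sym2.map φ e)) ≤
            (∑ φ : V → Fin n, ∏ e ∈ G.edgeFinset, A (Sym2.map φ e)) ^ 2) := by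
  intro h
  have h1 := h (Fin 6) G ⟨⟨![0, 1, 0, 1, 1, 0], by decide⟩⟩ H
    ⟨sg, by decide, fun _ _ _ _ => Iff.rfl⟩ 3 (fun z => (A z : ℝ)) (fun _ => Nat.cast_nonneg _)
  simp only [← Nat.cast_prod, ← Nat.cast_sum] at h1
  rw [ZG, ZH] at h1
  norm_num at h1

end Pool.Agent.S10628
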