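import Pool.Statements.S10644
import Pool.Agent.H9.Heil

set_option autoImplicit false
open Pool Pool.MP_a813b7_co

namespace Pool.Agent.S10644

/-- The negation of the preceding statement: For every ε>0 there is N so that for all n≥N (n≥2), any 3n distinct points in the unit square can be split into n triples whose triangles have pairwise disjoint interiors and total area less than ε. -/
theorem result :
    ¬ (∀ ε : ℝ, 0 < ε → ∃ N : ℕ, ∀ n : ℕ, N ≤ n → 2 ≤ n →
      ∀ p : Fin (3 * n) → ℝ × ℝ, Function.Injective p →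
        (∀ k, 0 ≤ (p k).1 ∧ (p k).1 ≤ 1 ∧ 0 ≤ (p k).2 ∧ (p k).2 ≤ 1) →
        ∃ σ : Fin (3 * n) ≃ Fin n × Fin 3,
          (∀ i j : Fin n, i ≠ j →
            Disjoint
              (interior (convexHull ℝ
                ({p (σ.symm (i, 0)), p (σ.symm (i, 1)), p (σ.symm (i, 2))} : Set (ℝ × ℝ))))
              (interior (convexHull ℝ
                ({p (σ.symm (j, 0)), p (σ.symm (j, 1)), p (σ.symm (j, 2))} : Set (ℝ × ℝ))))) ∧
          (∑ i : Fin n,
            |((p (σ.symm (i, 1))).1 - (p (σ.symm (i, 0))).1) *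
                ((p (σ.symm (i, 2))).2 - (p (σ.symm (i, 0))).2) -
              ((p (σ.symm (i, 2))).1 - (p (σ.symm (i, 0))).1) *
                ((p (σ.symm (i, 1))).2 - (p (σ.symm (i, 0))).2)| / 2) < ε) := by
  intro h
  obtain ⟨N0, hN⟩ := h ((1 / 2 ^ 210) ^ 2 / 73) (by positivity)
  obtain ⟨n, h1, h2, p, p1, p2, p3⟩ := Pool.Agent.H9.Heil.main N0
  obtain ⟨σ, s1, s2⟩ := hN n h1 h2 p p1 p2
  exact absurd s2 (not_lt.2 (p3 σ s1))

end Pool.Agent.S10644
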