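import Pool.Statements.S10658
import Pool.Agent.H4.CapEq
import Pool.Agent.H33.Equistar

set_option autoImplicit false
open Pool Pool.MP_a8adbc_co

namespace Pool.Agent.S10658

/-- The negation of the preceding statement: For every finite simple graph G: if G and its complement are both equistable, then G and its complement are both general partition graphs. -/
theorem result :
    ¬ (∀ (V : Type) [Fintype V] (G : SimpleGraph V),
      (∀ H : SimpleGraph V, (H = G ∨ H = Gᶜ) →
        ∃ φ : V → ℝ, (∀ v, 0 < φ v) ∧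
          ∀ S : Finset V,
            (Maximal (fun s : Finset V => H.IsIndepSet (s : Set V)) S ↔ ∑ v ∈ S, φ v = 1)) →
      (∀ H : SimpleGraph V, (H = G ∨ H = Gᶜ) →
        ∃ n : ℕ, ∃ U : V → Finset (Fin n),
          (∀ v, (U v).Nonempty) ∧
          (∀ u v, u ≠ v → (H.Adj u v ↔ ¬ Disjoint (U u) (U v))) ∧
          ∀ S : Finset V, Maximal (fun s : Finset V => H.IsIndepSet (s : Set V)) S →
            (∀ u ∈ S, ∀ v ∈ S, u ≠ v → Disjoint (U u) (U v)) ∧
            S.biUnion U = Finset.univ)) := by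
  classical
  intro h
  have hw : ∀ i, (0 : ℝ) < (H33.Equistar.w i : ℝ) / 116 := fun i => by
    have : ∀ i, 0 < H33.Equistar.w i := by decide
    exact div_pos (by exact_mod_cast this i) (by norm_num)
  have hφ : ∀ S : Finset (Fin 14), Maximal (fun s : Finset (Fin 14) =>
      H33.Equistar.G.IsIndepSet (s : Set (Fin 14))) S ↔
      ∑ v ∈ S, (H33.Equistar.w v : ℝ) / 116 = 1 := fun S => by
    rw [H33.Equistar.max_iff, ← H33.Equistar.sum_iff, ← Finset.sum_div,
      div_eq_one_iff_eq (by norm_num)]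
    exact_mod_cast Iff.rfl
  obtain ⟨n, U, h1, h2, h3⟩ := h _ (H4.CapEq.X H33.Equistar.G) (by
    rintro H (rfl | rfl)
    · exact H4.CapEq.eqX
    · simpa only [SimpleGraph.isIndepSet_compl] using H4.CapEq.eqC hw hφ) _ (Or.inr rfl)
  simp only [SimpleGraph.isIndepSet_compl] at h3
  obtain ⟨u, -⟩ := h1 (.inl (0, 0))
  refine H33.Equistar.no_perfect (Finset.univ.filter fun e => ∃ i, u ∈ U (.inl (e, i))) ?_
    fun v => ?_
  · intro e he f hf hef
    simp only [Finset.coe_filter, Finset.mem_univ, true_and, Set.mem_ofPred_eq] at he hf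
    obtain ⟨i, hi⟩ := he
    obtain ⟨j, hj⟩ := hf
    have h4 := ((h2 _ _ (by simp [hef])).2 (Finset.not_disjoint_iff.2 ⟨u, hi, hj⟩)).2
    by_contra h5
    exact h4 (H4.CapEq.adj_ll.2 ⟨by simp [hef], h5⟩)
  · have h4 := (H33.Equistar.max_iff _).2 ⟨v, rfl⟩
    have h5 := (h3 _ (H4.CapEq.blow_max h4 (Finset.nonempty_of_sum_ne_zero
      (by rw [(hφ _).1 h4]; norm_num)))).2
    obtain ⟨x, h6, h7⟩ := Finset.mem_biUnion.1 (h5 ▸ Finset.mem_univ u)
    obtain ⟨y, h8, rfl⟩ := H4.CapEq.mem_blow.1 h6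
    exact ⟨y.1, Finset.mem_inter.2 ⟨Finset.mem_filter.2 ⟨Finset.mem_univ _, y.2, h7⟩, h8⟩⟩

end Pool.Agent.S10658
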