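import Pool.Statements.S10662
import Pool.Agent.H26.PerB

set_option autoImplicit false
open Pool Pool.MP_a8e1ec_co

namespace Pool.Agent.S10662

/-- The negation of the preceding statement: Every locally finite graph whose automorphism group has finitely many vertex orbits, with a component containing two edges, has an edge-coloring with two differently colored edges in one component, whose color-preserving automorphisms have finitely many vertex orbits. -/
theorem result :
    ¬ (∀ (V : Type) (G : SimpleGraph V),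
      (∀ v : V, (G.neighborSet v).Finite) →
      (∃ S : Finset V, ∀ v : V, ∃ s ∈ S, ∃ φ : G ≃g G, φ s = v) →
      (∃ u v w x : V, G.Adj u v ∧ G.Adj w x ∧ G.Reachable u w ∧ s(u, v) ≠ s(w, x)) →
      ∃ (C : Type) (c : Sym2 V → C),
        (∃ u v w x : V, G.Adj u v ∧ G.Adj w x ∧ G.Reachable u w ∧ c s(u, v) ≠ c s(w, x)) ∧
        (∃ S : Finset V, ∀ v : V, ∃ s ∈ S, ∃ φ : G ≃g G,
          (∀ a b : V, G.Adj a b → c s(φ a, φ b) = c s(a, b)) ∧ φ s = v)) := by
  intro h
  obtain ⟨V, G, h1, h2, h3, h4⟩ := H26.Per.final
  obtain ⟨C, c, ⟨u, v, w, x, a1, a2, _, hne⟩, hp⟩ := h V G h1 h2 h3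
  exact hne (h4 C c hp u v w x a1 a2)

end Pool.Agent.S10662
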