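import Pool.Statements.S10670

set_option autoImplicit false
open Pool Pool.MP_a94970_co

namespace Pool.Agent.S10670

open Finset Classical

variable {L : ℕ}

/-- c and j lie in the same dyadic block of level l -/
def Same (l : ℕ) (c j : Fin L → Bool) : Prop := ∀ i : Fin L, l ≤ i.val → c i = j i

abbrev W (L : ℕ) := (Fin L → Bool) ⊕ (Fin (L + 1) × (Fin L → Bool))

def adj : W L → W L → Prop
  | Sum.inl c, Sum.inr p => Same p.1.val c p.2
  | Sum.inr p, Sum.inl c => Same p.1.val c p.2
  | _, _ => False

def G (L : ℕ) : SimpleGraph (W L) where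
  Adj := adj
  symm := ⟨by rintro (a | a) (b | b) h <;> exact h⟩
  loopless := ⟨by rintro (a | a) h <;> exact h⟩

theorem conn (L : ℕ) : (G L).Connected := by
  have h0 : ∀ c : Fin L → Bool, (G L).Adj (Sum.inr (Fin.last L, fun _ => false)) (Sum.inl c) := by
    intro c i hi
    have := i.2
    simp at hi
    omega
  have h1 : ∀ v : W L, (G L).Reachable (Sum.inr (Fin.last L, fun _ => false)) v := by
    rintro (c | p)
    · exact (h0 c).reachable
    · refine (h0 p.2).reachable.trans (SimpleGraph.Adj.reachable ?_)
      intro i _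
      rfl
  haveI : Nonempty (W L) := ⟨Sum.inl fun _ => false⟩
  exact ⟨fun u v => (h1 u).symm.trans (h1 v)⟩

noncomputable def cnt (S : Finset (Fin L → Bool)) (l : ℕ) (j : Fin L → Bool) : ℕ :=
  (S.filter (fun c => Same l c j)).card

def flp (i : Fin L) (j : Fin L → Bool) : Fin L → Bool := Function.update j i (!j i)

theorem flp_flp (i : Fin L) (j : Fin L → Bool) : flp i (flp i j) = j := by
  funext k
  by_cases h : k = i
  · subst h; simp [flp]
  · simp [flp, Function.update_of_ne h]

theorem cnt_succ (S : Finset (Fin L → Bool)) (i : Fin L) (j : Fin L → Bool) :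
    cnt S (i.val + 1) j = cnt S i.val j + cnt S i.val (flp i j) := by
  unfold cnt
  rw [← card_union_of_disjoint]
  · congr 1
    ext c
    simp only [mem_filter, mem_union]
    constructor
    · rintro ⟨hc, h⟩
      by_cases e : c i = j i
      · left
        refine ⟨hc, fun k hk => ?_⟩
        by_cases hki : k = i
        · rw [hki]; exact e
        · exact h k (by have : k.val ≠ i.val := fun e => hki (Fin.ext e); omega)
      · right
        refine ⟨hc, fun k hk => ?_⟩
        by_cases hki : k = i
        · subst hki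
          simp only [flp, Function.update_self]
          revert e
          cases c k <;> cases j k <;> simp
        · simp only [flp, Function.update_of_ne hki]
          exact h k (by have : k.val ≠ i.val := fun e => hki (Fin.ext e); omega)
    · rintro (⟨hc, h⟩ | ⟨hc, h⟩)
      · exact ⟨hc, fun k hk => h k (by omega)⟩
      · refine ⟨hc, fun k hk => ?_⟩
        have hki : k ≠ i := fun e => by subst e; omega
        have := h k (by omega)
        simpa [flp, Function.update_of_ne hki] using this
  · rw [disjoint_left]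
    intro c h1 h2
    simp only [mem_filter] at h1 h2
    have a := h1.2 i le_rfl
    have b := h2.2 i le_rfl
    simp only [flp, Function.update_self] at b
    rw [a] at b
    revert b
    cases j i <;> simp

noncomputable def A (S : Finset (Fin L → Bool)) (l : ℕ) : ℕ :=
  ∑ j : Fin L → Bool, if cnt S l j = 1 then 1 else 0

noncomputable def B (S : Finset (Fin L → Bool)) (l : ℕ) : ℕ :=
  ∑ j : Fin L → Bool, if 2 ≤ cnt S l j then 1 else 0

theorem stepAB (S : Finset (Fin L → Bool)) (i : Fin L) :
    2 * (A S i.val + B S i.val) ≤ A S (i.val + 1) + 2 * B S (i.val + 1) := by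
  have e1 : A S i.val + B S i.val = ∑ j : Fin L → Bool, if 1 ≤ cnt S i.val j then 1 else 0 := by
    unfold A B
    rw [← sum_add_distrib]
    refine sum_congr rfl fun j _ => ?_
    split_ifs <;> omega
  have e2 : (∑ j : Fin L → Bool, if 1 ≤ cnt S i.val j then 1 else 0) =
      ∑ j : Fin L → Bool, if 1 ≤ cnt S i.val (flp i j) then 1 else 0 := by
    symm
    exact Equiv.sum_comp (Function.Involutive.toPerm (flp i) (flp_flp i))
      (fun j => if 1 ≤ cnt S i.val j then 1 else 0)
  rw [two_mul, e1]
  nth_rewrite 2 [e2]
  unfold A B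
  rw [mul_sum, ← sum_add_distrib, ← sum_add_distrib]
  refine sum_le_sum fun j _ => ?_
  rw [cnt_succ]
  split_ifs <;> omega

theorem sumA (S : Finset (Fin L → Bool)) (l : ℕ) (hl : l ≤ L) :
    ∑ k ∈ range (l + 1), A S k ≤ 2 * (A S l + B S l) := by
  induction l with
  | zero => simp; omega
  | succ l ih =>
    rw [sum_range_succ]
    have h1 := ih (by omega)
    have h2 := stepAB S ⟨l, by omega⟩
    simp only at h2
    omega

theorem topAB (S : Finset (Fin L → Bool)) (l : ℕ) : A S l + B S l ≤ 2 ^ L := by
  unfold A B
  rw [← sum_add_distrib]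
  calc _ ≤ ∑ _j : Fin L → Bool, 1 := sum_le_sum fun j _ => by split_ifs <;> omega
    _ = 2 ^ L := by simp

theorem bound (L : ℕ) (f : W L → ℕ) (hf : ∀ v, f v = 0 → ∃! u, (G L).Adj v u ∧ f u = 2) :
    (L + 1) * 2 ^ L ≤ (∑ v, f v) + 2 * 2 ^ L := by
  let S : Finset (Fin L → Bool) := univ.filter (fun c => f (Sum.inl c) = 2)
  have h1 : ∀ p : Fin (L + 1) × (Fin L → Bool),
      1 ≤ f (Sum.inr p) + (if cnt S p.1.val p.2 = 1 then 1 else 0) := by
    intro p
    by_cases h0 : f (Sum.inr p) = 0
    · obtain ⟨u, ⟨hu1, hu2⟩, hu3⟩ := hf _ h0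
      rcases u with c | q
      · have : cnt S p.1.val p.2 = 1 := by
          unfold cnt
          rw [card_eq_one]
          refine ⟨c, ?_⟩
          ext d
          simp only [S, mem_filter, mem_univ, true_and, mem_singleton]
          constructor
          · rintro ⟨h2, h3⟩
            have := hu3 (Sum.inl d) ⟨h3, h2⟩
            exact Sum.inl.inj this
          · rintro rfl
            exact ⟨hu2, hu1⟩
        rw [if_pos this]; omega
      · exact absurd hu1 (fun h => h)
    · omega
  have h2 := sum_le_sum (s := univ) fun p _ => h1 p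
  rw [sum_add_distrib] at h2
  have h3 : (∑ p : Fin (L + 1) × (Fin L → Bool), if cnt S p.1.val p.2 = 1 then 1 else 0) =
      ∑ k ∈ range (L + 1), A S k := by
    rw [Fintype.sum_prod_type, ← Fin.sum_univ_eq_sum_range]
    rfl
  have h4 := sumA S L le_rfl
  have h5 := topAB S L
  have h6 : ∑ v, f v = ∑ c, f (Sum.inl c) + ∑ p, f (Sum.inr p) := Fintype.sum_sum_type f
  simp only [sum_const, card_univ, Fintype.card_prod, Fintype.card_fin, Fintype.card_pi,
    Fintype.card_bool, prod_const, smul_eq_mul, mul_one] at h2
  omega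

/-- The negation of the preceding statement: Every connected finite simple graph on n ≥ 3 vertices has a 0/1/2 labelling where each 0-vertex has exactly one neighbour labelled 2, with total label sum at most 4n/5. -/
theorem result :
    ¬ (∀ (V : Type) [Fintype V] (G : SimpleGraph V),
      G.Connected → 3 ≤ Fintype.card V →
      ∃ f : V → ℕ, (∀ v, f v ≤ 2) ∧
        (∀ v, f v = 0 → ∃! u, G.Adj v u ∧ f u = 2) ∧
        5 * (∑ v, f v) ≤ 4 * Fintype.card V) := by
  intro hall
  have hc : ∀ L : ℕ, Fintype.card (W L) = 2 ^ L + (L + 1) * 2 ^ L := by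
    intro L
    simp
  obtain ⟨f, -, h2, h3⟩ := hall (W 14) (G 14) (conn 14) (by rw [hc]; norm_num)
  have := bound 14 f h2
  rw [hc] at h3
  omega

end Pool.Agent.S10670
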