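import Pool.Statements.S10688
import Pool.Agent.H20.Fc1

set_option autoImplicit false
open Pool Pool.MP_aa5d6e_co

namespace Pool.Agent.S10688

/-- The negation of the preceding statement: For every finite graph G that is k-choosable, and every real r > k and integer m ≥ 1, G is (⌈rm⌉, m)-choosable. Equivalently, the strong fractional choice number of G is at most its choice number. -/
theorem result :
    ¬ (∀ (V : Type) [Fintype V] (G : SimpleGraph V) (k : ℕ),
    (∀ L : V → Finset ℕ, (∀ v, (L v).card = k) →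
        ∃ c : V → ℕ, (∀ v, c v ∈ L v) ∧ ∀ u v, G.Adj u v → c u ≠ c v) →
    ∀ r : ℝ, (k : ℝ) < r → ∀ m : ℕ, 1 ≤ m →
      ∀ L : V → Finset ℕ, (∀ v, (L v).card = ⌈r * (m : ℝ)⌉₊) →
        ∃ f : V → Finset ℕ, (∀ v, f v ⊆ L v ∧ (f v).card = m) ∧
          ∀ u v, G.Adj u v → Disjoint (f u) (f v)) := by
  intro h
  refine H20.Fc.notfold (h _ (H20.Fc.G H20.Fc.Idx) 3 (H20.Fc.choos _) (31 / 10) (by norm_num) 10
    (by norm_num) H20.Fc.Lst fun v => ?_)
  rw [H20.Fc.Lst_card]
  have : (31 / 10 : ℝ) * ((10 : ℕ) : ℝ) = ((31 : ℕ) : ℝ) := by norm_num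
  rw [this, Nat.ceil_natCast]

end Pool.Agent.S10688
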