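import Pool.Statements.S10690
import Pool.Agent.H12.InvKL3

set_option autoImplicit false
open Classical
open Pool Pool.MP_aa61ff_co

namespace Pool.Agent.S10690

/-- The negation of the preceding statement: For every finite matroid, the coefficient sequence of its inverse Kazhdan–Lusztig polynomial is log-concave and has no internal zeros. Here Q is characterised as the incidence-algebra inverse, up to signs, of the KL polynomials defined via characteristic polynomials of flat intervals. -/
theorem result :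
    ¬ (∀ (n : ℕ) (M : Matroid (Fin n)), M.E = Set.univ →
  ∀ (P Q : Finset (Fin n) → Finset (Fin n) → Polynomial ℤ),
  (∀ F : Finset (Fin n), M.IsFlat (F : Set (Fin n)) → P F F = 1 ∧ Q F F = 1) →
  (∀ F G : Finset (Fin n), M.IsFlat (F : Set (Fin n)) → M.IsFlat (G : Set (Fin n)) → F ⊂ G →
     2 * (P F G).natDegree < (M.eRk (G : Set (Fin n))).toNat - (M.eRk (F : Set (Fin n))).toNat ∧
     Polynomial.reflect ((M.eRk (G : Set (Fin n))).toNat - (M.eRk (F : Set (Fin n))).toNat) (P F G) =
       ∑ H ∈ Finset.univ.filter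
           (fun H : Finset (Fin n) => M.IsFlat (H : Set (Fin n)) ∧ F ⊆ H ∧ H ⊆ G),
         (∑ A ∈ (H \ F).powerset,
            (-1 : Polynomial ℤ) ^ A.card *
              Polynomial.X ^ ((M.eRk (H : Set (Fin n))).toNat
                - (M.eRk ((A ∪ F : Finset (Fin n)) : Set (Fin n))).toNat)) * P H G ∧
     ∑ H ∈ Finset.univ.filter
           (fun H : Finset (Fin n) => M.IsFlat (H : Set (Fin n)) ∧ F ⊆ H ∧ H ⊆ G),
         (-1 : Polynomial ℤ) ^ ((M.eRk (H : Set (Fin n))).toNat - (M.eRk (F : Set (Fin n))).toNat)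
           * P F H * Q H G = 0) →
  ∀ L : Finset (Fin n), (L : Set (Fin n)) = M.closure ∅ →
  (∀ i : ℕ, (Q L Finset.univ).coeff i * (Q L Finset.univ).coeff (i + 2)
      ≤ (Q L Finset.univ).coeff (i + 1) ^ 2) ∧
  (∀ i j k : ℕ, i < j → j < k → (Q L Finset.univ).coeff i ≠ 0 →
      (Q L Finset.univ).coeff k ≠ 0 → (Q L Finset.univ).coeff j ≠ 0)) := by
  intro h
  have key := h H12.InvKL.n H12.InvKL.M H12.InvKL.M_E H12.InvKL.PP H12.InvKL.QQ
    (fun A _ => H12.InvKL.diag A)
    (fun A B fA fB hAB => by
      simp only [H12.InvKL.rk]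
      have := H12.InvKL.main fA fB hAB
      simp only [H12.InvKL.Fl, H12.InvKL.chi] at this
      convert this)
    ∅ H12.InvKL.closure_empty.symm
  have k1 := key.1 1
  rw [H12.InvKL.QQ_top] at k1
  simp [Polynomial.coeff_X, Polynomial.coeff_X_pow] at k1

end Pool.Agent.S10690
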