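import Pool.Statements.S10718
import Pool.Agent.H9.Par2

set_option autoImplicit false
open Pool Pool.MP_ab53bf_co

namespace Pool.Agent.S10718

/-- The negation of the preceding statement: If two ordinary proper n-gons have the same pattern and some dihedral relabelling of the second makes corresponding edges same-direction parallel, then some such relabelling admits a continuous deformation of the first into it keeping the pattern and all edge directions. -/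
theorem result :
    ¬ (∀ (n : ℕ), 3 ≤ n →
  ∀ (Edge : (Fin n → ℝ × ℝ) → Fin n → Set (ℝ × ℝ)),
    (∀ x i, Edge x i = segment ℝ (x i) (x (finRotate n i))) →
  ∀ (Pend : (Fin n → ℝ × ℝ) → ℝ → Fin n → ℝ × ℝ),
    (∀ x ε i, Pend x ε i = x i + ε • ((2:ℝ) • x i - x ((finRotate n).symm i) - x (finRotate n i))) →
  ∀ (Ordinary : (Fin n → ℝ × ℝ) → Prop),
    (∀ x, Ordinary x ↔ ∀ (p : ℝ × ℝ) (i j k : Fin n), p ∈ Edge x i → p ∈ Edge x j → p ∈ Edge x k →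
      i = j ∨ j = k ∨ i = k) →
  ∀ (Proper : (Fin n → ℝ × ℝ) → Prop),
    (∀ x, Proper x ↔ (∀ i, x i ≠ x (finRotate n i)) ∧
      ∀ i, ¬ Collinear ℝ ({x ((finRotate n).symm i), x i, x (finRotate n i)} : Set (ℝ × ℝ))) →
  ∀ (MapSet : (Fin n → ℝ × ℝ) → ℝ → Set (ℝ × ℝ)),
    (∀ x ε, MapSet x ε = (⋃ i, Edge x i) ∪ ⋃ i, segment ℝ (x i) (Pend x ε i)) →
  ∀ (Nodes : (Fin n → ℝ × ℝ) → ℝ → Set (ℝ × ℝ)),
    (∀ x ε, Nodes x ε = Set.range x ∪ {p : ℝ × ℝ | ∃ i j, i ≠ j ∧ p ∈ Edge x i ∧ p ∈ Edge x j}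
      ∪ Set.range (Pend x ε)) →
  ∀ (SamePattern : (Fin n → ℝ × ℝ) → (Fin n → ℝ × ℝ) → Prop),
    (∀ x y, SamePattern x y ↔ ∃ δ : ℝ, 0 < δ ∧ ∀ ε₁ ε₂ : ℝ, 0 < ε₁ → ε₁ < δ → 0 < ε₂ → ε₂ < δ →
      ∃ h : Homeomorph (ℝ × ℝ) (ℝ × ℝ), h '' MapSet x ε₁ = MapSet y ε₂ ∧ h '' Nodes x ε₁ = Nodes y ε₂) →
  ∀ (Dihedral : Equiv.Perm (Fin n) → Prop),
    (∀ σ, Dihedral σ ↔ (∀ i, σ (finRotate n i) = finRotate n (σ i)) ∨
      (∀ i, σ (finRotate n i) = (finRotate n).symm (σ i))) →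
  ∀ (Parallel : (Fin n → ℝ × ℝ) → (Fin n → ℝ × ℝ) → Prop),
    (∀ x z, Parallel x z ↔ ∀ i, ∃ c : ℝ, 0 < c ∧ z (finRotate n i) - z i = c • (x (finRotate n i) - x i)) →
  ∀ x y : Fin n → ℝ × ℝ,
    Ordinary x → Proper x → Ordinary y → Proper y → SamePattern x y →
    (∃ σ : Equiv.Perm (Fin n), Dihedral σ ∧ Parallel x (fun i => y (σ i))) →
    ∃ σ : Equiv.Perm (Fin n), Dihedral σ ∧ Parallel x (fun i => y (σ i)) ∧
      ∃ X : ℝ → Fin n → ℝ × ℝ,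
        (∀ j, ContinuousOn (fun t => X t j) (Set.Icc (0:ℝ) 1)) ∧
        X 0 = x ∧ X 1 = (fun i => y (σ i)) ∧
        ∀ t ∈ Set.Icc (0:ℝ) 1,
          Ordinary (X t) ∧ Proper (X t) ∧ SamePattern x (X t) ∧ Parallel x (X t)) := by
  open Pool.Agent.H9.Par in
  intro H
  have fr : ∀ i : Fin 10, finRotate 10 i = i + 1 := fun i => finRotate_succ_apply i
  have fs : ∀ i : Fin 10, (finRotate 10).symm i = i - 1 := fun i => by
    rw [Equiv.symm_apply_eq, fr, sub_add_cancel]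
  have nx : ∀ i, x i ≠ x (i + 1) := fun i e => ncx i (by rw [← e]; simp [collinear_pair])
  have ny : ∀ i, y i ≠ y (i + 1) := fun i e => ncy i (by rw [← e]; simp [collinear_pair])
  obtain ⟨σ, hσ, p, X, c, h0, h1, h⟩ := H 10 (by norm_num) E (fun z i => by rw [fr]; rfl)
    (fun z e i => z i + e • U z i) (fun z e i => by rw [fr, fs]; rfl) _ (fun _ => Iff.rfl)
    _ (fun _ => Iff.rfl) MS (fun _ _ => rfl) NS (fun _ _ => rfl) _ (fun _ _ => Iff.rfl)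
    _ (fun _ => Iff.rfl) _ (fun _ _ => Iff.rfl) x y ordx (by simpa only [fr, fs] using ⟨nx, ncx⟩)
    ordy (by simpa only [fr, fs] using ⟨ny, ncy⟩)
    ⟨1 / 300, by norm_num, fun a b a1 a2 b1 b2 => (relx a1 a2 b1 b2).trans (relm b)⟩
    ⟨1, Or.inl fun _ => rfl, by simp only [fr]; exact ply⟩
  simp only [fr, fs] at hσ p h
  exact nodef X c h0 (h1.trans (uniq σ hσ p)) fun t ht => ⟨(h t ht).2.2.2, (h t ht).1⟩

end Pool.Agent.S10718
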