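import Pool.Statements.S10726
import Pool.Agent.H25.Dtd

set_option autoImplicit false
open Pool Pool.MP_abcac9_co

namespace Pool.Agent.S10726

/-- The negation of the preceding statement: For some N, every connected finite graph on n ≥ N vertices with minimum degree at least 3 has a vertex set S of size at most 4n/5 such that every vertex has at least two neighbours in S. -/
theorem result :
    ¬ (∃ N : ℕ, ∀ (V : Type) [Fintype V] [DecidableEq V] (G : SimpleGraph V) [DecidableRel G.Adj],
      N ≤ Fintype.card V → G.Connected → (∀ v : V, 3 ≤ G.degree v) →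
        ∃ S : Finset V, (∀ v : V, 2 ≤ (S.filter (fun u => G.Adj v u)).card) ∧
          5 * S.card ≤ 4 * Fintype.card V) := by
  rintro ⟨N, h⟩
  have hc : Fintype.card (H25.Dtd.V (N + 2 + 3)) = (N + 2 + 3) * 31 + 1 := by simp
  obtain ⟨S, hS, hcard⟩ := h (H25.Dtd.V (N + 2 + 3)) (H25.Dtd.G (N + 2 + 3)) (by omega)
    (H25.Dtd.conn _) (H25.Dtd.deg (N + 2))
  have := H25.Dtd.big_set _ S hS
  omega

end Pool.Agent.S10726
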