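import Pool.Statements.S10752
import Pool.Agent.H26.RadoCE

set_option autoImplicit false
open MeasureTheory
open Pool Pool.MP_ac9a20_co

namespace Pool.Agent.S10752

/-- The negation of the preceding statement: For every permutation group G on a countable set: some G-invariant graph is isomorphic to the Rado graph iff flipping an independent fair coin per G-orbit on 2-subsets gives a graph isomorphic to the Rado graph with positive probability. -/
theorem result :
    ¬ (∀ (Ω : Type) [Countable Ω] (G : Subgroup (Equiv.Perm Ω)),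
    (∃ Γ : SimpleGraph Ω, (∀ g ∈ G, ∀ x y : Ω, Γ.Adj (g x) (g y) ↔ Γ.Adj x y) ∧
        Nonempty (Γ ≃g SimpleGraph.fromRel (fun i j : ℕ => Nat.testBit j i = true))) ↔
    (Measure.infinitePi
        (fun _ : {S : Set (Sym2 Ω) // ∃ e : Sym2 Ω, ¬ e.IsDiag ∧
            S = {e' : Sym2 Ω | ∃ g ∈ G, Sym2.map (⇑g) e = e'}} =>
          (PMF.uniformOfFintype Bool).toMeasure))
      {c : {S : Set (Sym2 Ω) // ∃ e : Sym2 Ω, ¬ e.IsDiag ∧
            S = {e' : Sym2 Ω | ∃ g ∈ G, Sym2.map (⇑g) e = e'}} → Bool |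
        Nonempty (SimpleGraph.fromRel
            (fun x y : Ω => ∃ S : {S : Set (Sym2 Ω) // ∃ e : Sym2 Ω, ¬ e.IsDiag ∧
                S = {e' : Sym2 Ω | ∃ g ∈ G, Sym2.map (⇑g) e = e'}},
              s(x, y) ∈ S.1 ∧ c S = true)
          ≃g SimpleGraph.fromRel (fun i j : ℕ => Nat.testBit j i = true))} > 0) := by
  intro h
  have h1 := (h H26.RadoCE.Om H26.RadoCE.G).1 ⟨H26.RadoCE.Γ, fun g hg => hg.2, H26.RadoCE.iso_Rg⟩
  refine (ne_of_gt h1) (measure_mono_null ?_
    (H26.RadoCE.measure_zero H26.RadoCE.O H26.RadoCE.O_inj))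
  intro c hc n
  exact H26.RadoCE.differ c hc n

end Pool.Agent.S10752
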