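import Pool.Statements.S10760
import Pool.Agent.H22.Groetzsch

set_option autoImplicit false
open Pool Pool.MP_ace675_co

namespace Pool.Agent.S10760

/-- The negation of the preceding statement: For every finite triangle-free graph H with minimum degree d ≥ 1, the least minimum degree among 2-colour Ramsey-minimal graphs for H is exactly 2d−1: some minimal one attains it and none goes below. -/
theorem result :
    ¬ (∀ (n : ℕ) (H : SimpleGraph (Fin n)) (d : ℕ), H.CliqueFree 3 → 1 ≤ d →
      (∀ v : Fin n, d ≤ (H.neighborSet v).ncard) →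
      (∃ v : Fin n, (H.neighborSet v).ncard = d) →
      (∃ (m : ℕ) (G : SimpleGraph (Fin m)),
          ((∀ c : Fin m → Fin m → Bool, (∀ x y : Fin m, c x y = c y x) →
              ∃ b : Bool, ∃ f : Fin n → Fin m, Function.Injective f ∧
                ∀ u v : Fin n, H.Adj u v → G.Adj (f u) (f v) ∧ c (f u) (f v) = b) ∧
           (∀ v : Fin m, ∃ w : Fin m, G.Adj v w) ∧
           (∀ G' : SimpleGraph (Fin m), G' < G →
              ¬ (∀ c : Fin m → Fin m → Bool, (∀ x y : Fin m, c x y = c y x) →
                  ∃ b : Bool, ∃ f : Fin n → Fin m, Function.Injective f ∧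
                    ∀ u v : Fin n, H.Adj u v → G'.Adj (f u) (f v) ∧ c (f u) (f v) = b))) ∧
          (∀ v : Fin m, 2 * d - 1 ≤ (G.neighborSet v).ncard) ∧
          (∃ v : Fin m, (G.neighborSet v).ncard = 2 * d - 1)) ∧
      (∀ (m : ℕ) (G : SimpleGraph (Fin m)),
          ((∀ c : Fin m → Fin m → Bool, (∀ x y : Fin m, c x y = c y x) →
              ∃ b : Bool, ∃ f : Fin n → Fin m, Function.Injective f ∧
                ∀ u v : Fin n, H.Adj u v → G.Adj (f u) (f v) ∧ c (f u) (f v) = b) ∧
           (∀ v : Fin m, ∃ w : Fin m, G.Adj v w) ∧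
           (∀ G' : SimpleGraph (Fin m), G' < G →
              ¬ (∀ c : Fin m → Fin m → Bool, (∀ x y : Fin m, c x y = c y x) →
                  ∃ b : Bool, ∃ f : Fin n → Fin m, Function.Injective f ∧
                    ∀ u v : Fin n, H.Adj u v → G'.Adj (f u) (f v) ∧ c (f u) (f v) = b))) →
          ∀ v : Fin m, 2 * d - 1 ≤ (G.neighborSet v).ncard)) := by
  intro h
  obtain ⟨⟨m, G, ⟨h1, _, h2⟩, _, u, hu⟩, _⟩ := h 13 H22.Groetzsch.H 1 H22.Groetzsch.free le_rfl H22.Groetzsch.deg
    ⟨11, H22.Groetzsch.deg11⟩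
  exact H22.Groetzsch.main G h1 h2 u hu

end Pool.Agent.S10760
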