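import Pool.Statements.S10770
import Pool.Agent.H54.Spec

set_option autoImplicit false
open Pool Pool.MP_ad5ca6_co

namespace Pool.Agent.S10770

/-- The negation of the preceding statement: For every positive integer k and every n-vertex digraph with 0/1 adjacency matrix and zero diagonal, if some eigenvalue has modulus at least n/k, then the digraph has a directed cycle of length between 2 and k. -/
theorem result :
    ¬ (∀ (n k : ℕ), 0 < k →
      ∀ (A : Matrix (Fin n) (Fin n) ℂ),
        (∀ i j, A i j = 0 ∨ A i j = 1) →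
        (∀ i, A i i = 0) →
        (∃ μ ∈ spectrum ℂ A, (n : ℝ) / (k : ℝ) ≤ ‖μ‖) →
        ∃ m : ℕ, 2 ≤ m ∧ m ≤ k ∧
          ∃ v : Fin m → Fin n, Function.Injective v ∧
            ∀ i : Fin m, A (v i) (v (finRotate m i)) = 1) := by
  intro h
  let A : Matrix (Fin 12) (Fin 12) ℂ := fun i j =>
    if j.val / 2 = (i.val / 2 + 1) % 6 ∨ (j.val = i.val + 1 ∧ i.val % 2 = 0) then 1 else 0
  have hA : ∀ i j, A i j = 1 →
      j.val / 2 = (i.val / 2 + 1) % 6 ∨ (j.val = i.val + 1 ∧ i.val % 2 = 0) := by
    intro i j hij
    by_contra hc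
    simp only [A, if_neg hc] at hij
    exact zero_ne_one hij
  have hs : ((√2 : ℝ) : ℂ) * ((√2 : ℝ) : ℂ) = 2 := by
    rw [← Complex.ofReal_mul, Real.mul_self_sqrt (by norm_num)]; simp
  obtain ⟨m, hm2, hm5, v, _, hv⟩ := h 12 5 (by norm_num) A
    (fun i j => by simp only [A]; split_ifs <;> simp)
    (fun i => by simp only [A]; rw [if_neg (by omega)])
    ⟨((1 + √2 : ℝ) : ℂ), by
      apply Pool.Agent.H54.Spec.mem_spectrum_of_eigen A _
        (fun i => if i.val % 2 = 0 then ((√2 : ℝ) : ℂ) else 1)
      · intro h0
        have := congrFun h0 1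
        simp at this
      · funext i
        fin_cases i <;>
          simp [A, Matrix.mulVec, dotProduct, Fin.sum_univ_succ, add_mul, hs] <;> ring, by
      rw [Complex.norm_real, Real.norm_of_nonneg (by positivity)]
      have : (1.4 : ℝ) ≤ √2 := Real.le_sqrt_of_sq_le (by norm_num)
      push_cast
      linarith⟩
  have hv' := fun i => hA _ _ (hv i)
  have hb : ∀ i, (v i).val < 12 := fun i => (v i).2
  interval_cases m
  · have h0 := hv' 0
    have h1 := hv' 1
    have := hb 0
    have := hb 1
    rw [show finRotate 2 0 = 1 from rfl] at h0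
    rw [show finRotate 2 1 = 0 from rfl] at h1
    omega
  · have h0 := hv' 0
    have h1 := hv' 1
    have h2 := hv' 2
    have := hb 0
    have := hb 1
    have := hb 2
    rw [show finRotate 3 0 = 1 from rfl] at h0
    rw [show finRotate 3 1 = 2 from rfl] at h1
    rw [show finRotate 3 2 = 0 from rfl] at h2
    omega
  · have h0 := hv' 0
    have h1 := hv' 1
    have h2 := hv' 2
    have h3 := hv' 3
    have := hb 0
    have := hb 1
    have := hb 2
    have := hb 3
    rw [show finRotate 4 0 = 1 from rfl] at h0
    rw [show finRotate 4 1 = 2 from rfl] at h1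
    rw [show finRotate 4 2 = 3 from rfl] at h2
    rw [show finRotate 4 3 = 0 from rfl] at h3
    omega
  · have h0 := hv' 0
    have h1 := hv' 1
    have h2 := hv' 2
    have h3 := hv' 3
    have h4 := hv' 4
    have := hb 0
    have := hb 1
    have := hb 2
    have := hb 3
    have := hb 4
    rw [show finRotate 5 0 = 1 from rfl] at h0
    rw [show finRotate 5 1 = 2 from rfl] at h1
    rw [show finRotate 5 2 = 3 from rfl] at h2
    rw [show finRotate 5 3 = 4 from rfl] at h3
    rw [show finRotate 5 4 = 0 from rfl] at h4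
    omega

end Pool.Agent.S10770
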