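import Pool.Statements.S10777
import Pool.Agent.H56.LinExt

set_option autoImplicit false
open Pool Pool.MP_ae076f_co

namespace Pool.Agent.S10777

/-- For all n and s ≤ n, every partial order on n points with exactly s(n−s) comparable pairs has at most s!(n−s)! linear extensions, i.e. the complete bipartite height-two poset attains the maximum. -/
theorem result :
    ∀ (n s : ℕ), s ≤ n →
      ∀ (le : Fin n → Fin n → Prop),
        (∀ a, le a a) →
        (∀ a b, le a b → le b a → a = b) →
        (∀ a b c, le a b → le b c → le a c) →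
        Nat.card {p : Fin n × Fin n // le p.1 p.2 ∧ p.1 ≠ p.2} = s * (n - s) →
        Nat.card {σ : Equiv.Perm (Fin n) // ∀ a b, le a b → σ a ≤ σ b}
          ≤ Nat.factorial s * Nat.factorial (n - s) := by
  classical
  intro n s hs le _ _ _ hk
  have hb := Pool.Agent.H56.LinExt.bound (fun a b : Fin n => le a b ∧ a ≠ b) s (n - s) (by omega)
    (by
      rw [← hk, Nat.card_eq_fintype_card, Fintype.card_subtype]
      unfold Pool.Agent.H56.LinExt.K
      rw [Finset.univ_product_univ]
      congr 1
      ext p
      simp)
  refine le_trans ?_ hb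
  rw [Nat.card_eq_fintype_card, Fintype.card_subtype]
  apply Finset.card_le_card_of_injOn (fun σ a => (σ a : ℕ))
  · intro σ hσ
    have h := (Finset.mem_filter.1 (Finset.mem_coe.1 hσ)).2
    simp only [Pool.Agent.H56.LinExt.T, Finset.coe_filter, Fintype.mem_piFinset, Finset.mem_range,
      Set.mem_ofPred_eq, Finset.mem_univ, not_true_eq_false, Finset.card_univ, Fintype.card_fin]
    refine ⟨fun a => (σ a).2, fun a h => h.elim, fun a _ => (σ a).2, fun a _ b _ e => ?_,
      fun a _ b _ e => ?_⟩
    · exact σ.injective (Fin.ext e)
    · exact lt_of_le_of_ne (h a b e.1) (fun e' => e.2 (σ.injective (Fin.ext e')))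
  · intro σ _ τ _ h
    ext a
    exact congrFun h a

end Pool.Agent.S10777
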