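import Pool.Statements.S10780
import Pool.Agent.H19.Laz

set_option autoImplicit false
open Pool Pool.MP_ae0825_co

namespace Pool.Agent.S10780

/-- The negation of the preceding statement: For 2 ≤ r ≤ 9, q ≥ r, n ≥ r: any n-vertex graph with as many edges as the Turán graph T_r(n) but not isomorphic to it has strictly fewer proper q-colorings than T_r(n). -/
theorem result :
    ¬ (∀ r q n : ℕ, 2 ≤ r → r ≤ 9 → r ≤ q → r ≤ n →
      ∀ G : SimpleGraph (Fin n),
        Nat.card G.edgeSet = Nat.card (SimpleGraph.turanGraph n r).edgeSet →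
        IsEmpty (G ≃g SimpleGraph.turanGraph n r) →
        Nat.card (G.Coloring (Fin q)) <
          Nat.card ((SimpleGraph.turanGraph n r).Coloring (Fin q))) := by
  open Pool.Agent.H19.Laz in
  intro h
  obtain ⟨G, h1, h2⟩ := exG
  have h3 := lt_of_le_of_lt turan_le (lt_of_lt_of_le num h2)
  refine absurd (h 9 13 9000 (by norm_num) le_rfl (by norm_num) (by norm_num) G
    (h1.trans edgesT.symm) ⟨fun e => ?_⟩) (not_lt.mpr h3.le)
  haveI : Finite ((SimpleGraph.turanGraph 9000 9).Coloring (Fin 13)) :=
    Finite.of_injective (fun c => (c : Fin 9000 → Fin 13)) DFunLike.coe_injective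
  refine absurd (Nat.card_le_card_of_injective
    (fun c : G.Coloring (Fin 13) =>
      (c.comp e.symm.toHom : (SimpleGraph.turanGraph 9000 9).Coloring (Fin 13))) ?_)
    (not_le.mpr h3)
  intro c c' hc
  ext v
  have := congrArg (fun d : (SimpleGraph.turanGraph 9000 9).Coloring (Fin 13) => d (e v)) hc
  change c (e.symm (e v)) = c' (e.symm (e v)) at this
  rw [e.symm_apply_apply] at this
  rw [this]

end Pool.Agent.S10780
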