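import Pool.Statements.S10818
import Pool.Agent.H5.Touch3

set_option autoImplicit false
open Pool Pool.MP_afcf11_co

namespace Pool.Agent.S10818

/-- The negation of the preceding statement: For d ≥ 2, m > 2 and every convex body K in R^d: some set of at least (m−1)(d+1) translates has two touching members among any m, and every such set has at most (m−1)2^d translates. -/
theorem result :
    ¬ (∀ (d m : ℕ), 2 ≤ d → 2 < m →
      ∀ K : Set (EuclideanSpace ℝ (Fin d)), Convex ℝ K → IsCompact K → (interior K).Nonempty →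
        (∃ T : Finset (EuclideanSpace ℝ (Fin d)), (m - 1) * (d + 1) ≤ T.card ∧
          ∀ S ⊆ T, S.card = m → ∃ x ∈ S, ∃ y ∈ S, x ≠ y ∧
            ((fun z => x + z) '' K ∩ (fun z => y + z) '' K).Nonempty ∧
            interior ((fun z => x + z) '' K) ∩ interior ((fun z => y + z) '' K) = ∅) ∧
        (∀ T : Finset (EuclideanSpace ℝ (Fin d)),
          (∀ S ⊆ T, S.card = m → ∃ x ∈ S, ∃ y ∈ S, x ≠ y ∧
            ((fun z => x + z) '' K ∩ (fun z => y + z) '' K).Nonempty ∧
            interior ((fun z => x + z) '' K) ∩ interior ((fun z => y + z) '' K) = ∅) →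
          T.card ≤ (m - 1) * 2 ^ d)) := by
  intro h
  obtain ⟨T, hT, hS⟩ := Pool.Agent.H5.Touch.big 4000 3995940 (by norm_num)
  have := (h 2 3995940 le_rfl (by norm_num) Pool.Agent.H5.Touch.Oct
    Pool.Agent.H5.Touch.oct_convex Pool.Agent.H5.Touch.oct_compact
    Pool.Agent.H5.Touch.oct_int).2 T hS
  rw [hT] at this
  norm_num at this

end Pool.Agent.S10818
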