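import Pool.Statements.S10849
import Pool.Agent.H10.Skeleton

set_option autoImplicit false
open Pool Pool.MP_b0e7a9_co

namespace Pool.Agent.S10849

/-- For a nondegenerate d-simplex with vertices in the closed unit ball, 0 ≤ k < d, and x in the simplex: if the open ball of radius ρ at x misses every k-face, then ρ ≤ sqrt((d-k)/(d(k+1))). -/
theorem result :
    ∀ (d k : ℕ), 0 < d → k < d →
    ∀ (p : Fin (d + 1) → EuclideanSpace ℝ (Fin d)), AffineIndependent ℝ p →
    (∀ i, ‖p i‖ ≤ 1) →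
    ∀ (x : EuclideanSpace ℝ (Fin d)), x ∈ convexHull ℝ (Set.range p) →
    ∀ ρ : ℝ,
      Disjoint (Metric.ball x ρ)
        (⋃ (s : Finset (Fin (d + 1))) (_ : s.card = k + 1), convexHull ℝ (p '' (s : Set (Fin (d + 1))))) →
      ρ ≤ Real.sqrt (((d : ℝ) - (k : ℝ)) / ((d : ℝ) * ((k : ℝ) + 1))) := by
  intro d k hd hk p _ hp x hx ρ hdis
  obtain ⟨S, hS, z, hz, h⟩ := H10.Skeleton.main p hp x hx (k + 1) (by omega) (by simp; omega)
  have hc : H10.Skeleton.c (Fintype.card (Fin (d + 1))) (k + 1) =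
      ((d : ℝ) - (k : ℝ)) / ((d : ℝ) * ((k : ℝ) + 1)) := by
    unfold H10.Skeleton.c
    simp only [Fintype.card_fin]
    push_cast
    rw [add_sub_add_right_eq_sub, add_sub_cancel_right, mul_comm]
  rw [hc] at h
  have hnot : z ∉ Metric.ball x ρ := fun hb =>
    Set.disjoint_left.mp hdis hb (Set.mem_iUnion₂.mpr ⟨S, hS, hz⟩)
  rw [Metric.mem_ball, dist_eq_norm, not_lt] at hnot
  exact hnot.trans (Real.le_sqrt_of_sq_le h)

end Pool.Agent.S10849
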