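import Pool.Statements.S10880
import Pool.Agent.H34.Cw

set_option autoImplicit false
open Pool Pool.MP_b23e6d_co

namespace Pool.Agent.S10880

/-- The negation of the preceding statement: For every hereditary class of finite graphs: if some k bounds the clique-width (via k-label expressions) of all its 2-connected prime members, then some k bounds the clique-width of every graph in the class. -/
theorem result :
    ¬ (∀ 𝒢 : (n : ℕ) → SimpleGraph (Fin n) → Prop,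
      (∀ (n m : ℕ) (G : SimpleGraph (Fin n)) (H : SimpleGraph (Fin m)),
          Nonempty (SimpleGraph.Embedding H G) → 𝒢 n G → 𝒢 m H) →
      (∃ k : ℕ, ∀ (n : ℕ) (G : SimpleGraph (Fin n)), 𝒢 n G →
          (3 ≤ n ∧ G.Connected ∧ ∀ v : Fin n, (G.induce {w | w ≠ v}).Connected) →
          (3 ≤ n ∧ ∀ M : Set (Fin n),
              (∀ x, x ∉ M → ∀ y ∈ M, ∀ z ∈ M, (G.Adj x y ↔ G.Adj x z)) →
              M.Subsingleton ∨ M = Set.univ) →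
          ∃ ℓ : ℕ → Fin k, ∀ P : Finset ℕ → SimpleGraph ℕ → (ℕ → Fin k) → Prop,
            ((∀ ℓ₀ : ℕ → Fin k, P ∅ ⊥ ℓ₀) ∧
             (∀ (i : ℕ) (ℓ₀ : ℕ → Fin k), P {i} ⊥ ℓ₀) ∧
             (∀ (S₁ S₂ : Finset ℕ) (H₁ H₂ : SimpleGraph ℕ) (ℓ₁ ℓ₂ : ℕ → Fin k),
                P S₁ H₁ ℓ₁ → P S₂ H₂ ℓ₂ → Disjoint S₁ S₂ →
                P (S₁ ∪ S₂) (H₁ ⊔ H₂) (fun v => if v ∈ S₁ then ℓ₁ v else ℓ₂ v)) ∧
             (∀ (S : Finset ℕ) (H : SimpleGraph ℕ) (ℓ₀ : ℕ → Fin k) (a b : Fin k),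
                a ≠ b → P S H ℓ₀ →
                P S (H ⊔ SimpleGraph.fromRel
                  (fun u v => u ∈ S ∧ v ∈ S ∧ ℓ₀ u = a ∧ ℓ₀ v = b)) ℓ₀) ∧
             (∀ (S : Finset ℕ) (H : SimpleGraph ℕ) (ℓ₀ : ℕ → Fin k) (a b : Fin k),
                P S H ℓ₀ → P S H (fun v => if ℓ₀ v = a then b else ℓ₀ v))) →
            P (Finset.range n) (G.map Fin.valEmbedding) ℓ) →
      (∃ k : ℕ, ∀ (n : ℕ) (G : SimpleGraph (Fin n)), 𝒢 n G →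
          ∃ ℓ : ℕ → Fin k, ∀ P : Finset ℕ → SimpleGraph ℕ → (ℕ → Fin k) → Prop,
            ((∀ ℓ₀ : ℕ → Fin k, P ∅ ⊥ ℓ₀) ∧
             (∀ (i : ℕ) (ℓ₀ : ℕ → Fin k), P {i} ⊥ ℓ₀) ∧
             (∀ (S₁ S₂ : Finset ℕ) (H₁ H₂ : SimpleGraph ℕ) (ℓ₁ ℓ₂ : ℕ → Fin k),
                P S₁ H₁ ℓ₁ → P S₂ H₂ ℓ₂ → Disjoint S₁ S₂ →
                P (S₁ ∪ S₂) (H₁ ⊔ H₂) (fun v => if v ∈ S₁ then ℓ₁ v else ℓ₂ v)) ∧
             (∀ (S : Finset ℕ) (H : SimpleGraph ℕ) (ℓ₀ : ℕ → Fin k) (a b : Fin k),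
                a ≠ b → P S H ℓ₀ →
                P S (H ⊔ SimpleGraph.fromRel
                  (fun u v => u ∈ S ∧ v ∈ S ∧ ℓ₀ u = a ∧ ℓ₀ v = b)) ℓ₀) ∧
             (∀ (S : Finset ℕ) (H : SimpleGraph ℕ) (ℓ₀ : ℕ → Fin k) (a b : Fin k),
                P S H ℓ₀ → P S H (fun v => if ℓ₀ v = a then b else ℓ₀ v))) →
            P (Finset.range n) (G.map Fin.valEmbedding) ℓ)) := by
  intro h
  obtain ⟨k, hk⟩ := h (fun _ G => Pool.Agent.H34.Cw.Cls G) (fun _ _ _ _ ⟨e⟩ hG => hG.emb e)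
    ⟨0, fun n G hG h1 h2 => (hG.not_both h1.1 h1.2.1 h1.2.2 h2.2).elim⟩
  obtain ⟨n, G, hG, W, hW⟩ := Pool.Agent.H34.Cw.unbounded k
  obtain ⟨ℓ, hℓ⟩ := hk n G hG
  exact hW ℓ (hℓ (Pool.Agent.H34.Cw.Sep W (k + 1)) ⟨Pool.Agent.H34.Cw.sep_empty,
    Pool.Agent.H34.Cw.sep_single (by omega),
    fun _ _ _ _ _ _ => Pool.Agent.H34.Cw.sep_union,
    fun _ _ _ a b _ => Pool.Agent.H34.Cw.sep_join a b,
    fun _ _ _ a b => Pool.Agent.H34.Cw.sep_relabel a b⟩)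

end Pool.Agent.S10880
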