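import Pool.Statements.S10882
import Pool.Agent.H19.Berge

set_option autoImplicit false
open Pool Pool.MP_b245d9_co

namespace Pool.Agent.S10882

/-- The negation of the preceding statement: For every finite graph with chromatic number 4 and every orientation of it, there is a directed path on 4 vertices and a proper 4-colouring giving the path's vertices 4 distinct colours. -/
theorem result :
    ¬ (∀ (V : Type) [Fintype V] (G : SimpleGraph V),
      G.chromaticNumber = 4 →
      ∀ D : V → V → Prop,
        (∀ u v, D u v → G.Adj u v) →
        (∀ u v, G.Adj u v → (D u v ↔ ¬ D v u)) →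
        ∃ (p : Fin 4 → V) (c : G.Coloring (Fin 4)),
          (∀ i : Fin 3, D (p i.castSucc) (p i.succ)) ∧
          Function.Injective (fun i => c (p i))) := by
  open Pool.Agent.H19.Berge in
  intro h
  obtain ⟨p, c, h1, h2⟩ := h (Fin 11) G chi D (fun _ _ h => Or.inl h) (by decide)
  exact norb p c h1 h2

end Pool.Agent.S10882
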