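import Pool.Statements.S10902

set_option autoImplicit false
open Pool Pool.MP_b33253_co

namespace Pool.Agent.S10902

/-- The negation of the preceding statement: For every colouring of the rationals with finitely many colours there are rationals x and d, with d nonzero, such that x, x+d, x+1/d and x+d+1/d all have the same colour. -/
theorem result :
    ¬ (∀ (r : ℕ) (c : ℚ → Fin r), ∃ x d : ℚ, d ≠ 0 ∧
      c (x + d) = c x ∧ c (x + 1 / d) = c x ∧ c (x + d + 1 / d) = c x) := by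
  intro H
  obtain ⟨x, d, hd, h1, h2, h3⟩ := H 4 (fun x => ⟨(⌊x ^ 2⌋ % 4).toNat, by omega⟩)
  simp only [Fin.mk.injEq] at h1 h2 h3
  have e : (x + d + 1 / d) ^ 2 - (x + d) ^ 2 - (x + 1 / d) ^ 2 + x ^ 2 = 2 := by
    field_simp; ring
  have a0 := Int.floor_le (x ^ 2)
  have a1 := Int.floor_le ((x + d) ^ 2)
  have a2 := Int.floor_le ((x + 1 / d) ^ 2)
  have a3 := Int.floor_le ((x + d + 1 / d) ^ 2)
  have b0 := Int.lt_floor_add_one (x ^ 2)
  have b1 := Int.lt_floor_add_one ((x + d) ^ 2)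
  have b2 := Int.lt_floor_add_one ((x + 1 / d) ^ 2)
  have b3 := Int.lt_floor_add_one ((x + d + 1 / d) ^ 2)
  generalize ⌊x ^ 2⌋ = n0 at *
  generalize ⌊(x + d) ^ 2⌋ = n1 at *
  generalize ⌊(x + 1 / d) ^ 2⌋ = n2 at *
  generalize ⌊(x + d + 1 / d) ^ 2⌋ = n3 at *
  have c1 : ((n3 - n1 - n2 + n0 : ℤ) : ℚ) < 4 := by push_cast; linarith
  have c2 : (0 : ℚ) < ((n3 - n1 - n2 + n0 : ℤ) : ℚ) := by push_cast; linarith
  have c3 : n3 - n1 - n2 + n0 < 4 := by exact_mod_cast c1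
  have c4 : 0 < n3 - n1 - n2 + n0 := by exact_mod_cast c2
  omega

end Pool.Agent.S10902
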