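import Pool.Statements.S10933
import Pool.Agent.H14.BE4

set_option autoImplicit false
open Pool Pool.MP_b4ba96_co

namespace Pool.Agent.S10933

/-- There are graphs G_n on n vertices such that, for all large n, G_n is K4-free, has no isolated vertex, and its most repeated degree occurs exactly 4 times, with independence number divided by n tending to 0. -/
theorem result :
    ∃ N : ℕ, ∃ G : (n : ℕ) → SimpleGraph (Fin n),
      (∀ n ≥ N,
        (G n).CliqueFree 4 ∧
        (∀ v : Fin n, 1 ≤ ((G n).neighborSet v).ncard) ∧
        (∀ d : ℕ, {v : Fin n | ((G n).neighborSet v).ncard = d}.ncard ≤ 4) ∧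
        (∃ d : ℕ, {v : Fin n | ((G n).neighborSet v).ncard = d}.ncard = 4)) ∧
      Filter.Tendsto (fun n : ℕ => ((G n).indepNum : ℝ) / (n : ℝ)) Filter.atTop (nhds 0) := by
  exact Pool.Agent.H14.BE.main

end Pool.Agent.S10933
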