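import Pool.Statements.S10936
import Pool.Agent.H28.MinorRec

set_option autoImplicit false
open Pool Pool.MP_b4c394_co

namespace Pool.Agent.S10936

/-- The negation of the preceding statement: Every finite matroid M with at least two elements is minor reconstructible: any matroid N on the same ground set with N\e isomorphic to M\e and N/e isomorphic to M/e for every element e is isomorphic to M. -/
theorem result :
    ¬ (∀ (α : Type) (M N : Matroid α), M.Finite → N.E = M.E → 2 ≤ M.E.ncard →
      (∀ e ∈ M.E,
        (∃ f : α → α, Set.BijOn f (M.delete {e}).E (N.delete {e}).E ∧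
          ∀ I ⊆ (M.delete {e}).E, ((M.delete {e}).Indep I ↔ (N.delete {e}).Indep (f '' I))) ∧
        (∃ f : α → α, Set.BijOn f (M.contract {e}).E (N.contract {e}).E ∧
          ∀ I ⊆ (M.contract {e}).E, ((M.contract {e}).Indep I ↔ (N.contract {e}).Indep (f '' I)))) →
      ∃ f : α → α, Set.BijOn f M.E N.E ∧ ∀ I ⊆ M.E, (M.Indep I ↔ N.Indep (f '' I))) := by
  intro h
  exact Pool.Agent.H28.MinorRec.not_iso (h (Fin 12) Pool.Agent.H28.MinorRec.MM
    Pool.Agent.H28.MinorRec.NN ⟨Set.toFinite _⟩ rfl
    (by
      show 2 ≤ (Set.univ : Set (Fin 12)).ncard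
      simp [Set.ncard_univ])
    (fun e _ => ⟨Pool.Agent.H28.MinorRec.del e, Pool.Agent.H28.MinorRec.con e⟩))

end Pool.Agent.S10936
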