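import Pool.Statements.S10980
import Pool.Agent.H24.VWC

set_option autoImplicit false
open Pool Pool.MP_b6d645_co

namespace Pool.Agent.S10980

open Pool.Agent.H24.VWC Pool.Agent.H24.IndepGF

lemma indep_map {V U : Type} (G : SimpleGraph V) (e : U ≃ V) (s : Finset U) :
    (G.comap e).IsIndepSet (s : Set U) ↔ G.IsIndepSet ((s.map e.toEmbedding : Finset V) : Set V) := by
  constructor
  · intro h x hx y hy hxy
    simp only [Finset.coe_map, Set.mem_image, Finset.mem_coe, Equiv.coe_toEmbedding] at hx hy
    obtain ⟨x, hx, rfl⟩ := hx
    obtain ⟨y, hy, rfl⟩ := hy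
    exact h hx hy (fun h => hxy (by rw [h]))
  · intro h x hx y hy hxy
    exact h (by simpa using hx) (by simpa using hy) (fun h => hxy (e.injective h))

lemma cnt_comap {V U : Type} (G : SimpleGraph V) (e : U ≃ V) (k : ℕ) :
    cnt (G.comap e) k = cnt G k := by
  unfold cnt
  apply Set.ncard_congr (fun s _ => s.map e.toEmbedding)
  · intro s hs
    exact ⟨(indep_map G e s).mp hs.1, by rw [Finset.card_map]; exact hs.2⟩
  · intro s t _ _ h
    exact Finset.map_injective _ h
  · intro t ht
    have : (t.map e.symm.toEmbedding).map e.toEmbedding = t := by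
      ext x; simp
    refine ⟨t.map e.symm.toEmbedding, ⟨?_, by rw [Finset.card_map]; exact ht.2⟩, this⟩
    rw [indep_map, this]; exact ht.1

/-- The negation of the preceding statement: Take any graph on n vertices with no isolated vertex in which every maximal independent set has exactly n/2 vertices. Then the counts of independent sets of size k, for k = 0, 1, 2, ..., first weakly increase and then weakly decrease. -/
theorem result :
    ¬ (∀ (n : ℕ) (G : SimpleGraph (Fin n)),
      (∀ v : Fin n, ∃ w : Fin n, G.Adj v w) →
      (∀ s : Finset (Fin n),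
        Maximal (fun t : Finset (Fin n) => G.IsIndepSet (t : Set (Fin n))) s →
          2 * s.card = n) →
      ∃ m : ℕ,
        (∀ i : ℕ, i < m →
          {s : Finset (Fin n) | G.IsIndepSet (s : Set (Fin n)) ∧ s.card = i}.ncard ≤
          {s : Finset (Fin n) | G.IsIndepSet (s : Set (Fin n)) ∧ s.card = i + 1}.ncard) ∧
        (∀ i : ℕ, m ≤ i →
          {s : Finset (Fin n) | G.IsIndepSet (s : Set (Fin n)) ∧ s.card = i + 1}.ncard ≤
          {s : Finset (Fin n) | G.IsIndepSet (s : Set (Fin n)) ∧ s.card = i}.ncard)) := by
  intro H
  classical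
  let e : Fin (Fintype.card (W 222 136 4)) ≃ W 222 136 4 := (Fintype.equivFin _).symm
  obtain ⟨m, h1, h2⟩ := H (Fintype.card (W 222 136 4)) ((relG (Rel 222 136 4)).comap e)
    (by
      intro v
      obtain ⟨w, hw⟩ := relG_noiso _ (Rel_refl 222 136 4) (e v)
      exact ⟨e.symm w, by simpa using hw⟩)
    (by
      intro s hs
      have h := relG_card _ (Rel_refl 222 136 4) (Rel_trans _ _ _) (s.map e.toEmbedding)
        ((indep_map _ e s).mp hs.1) (by
          intro v hv hi
          have h3 : ((relG (Rel 222 136 4)).comap e).IsIndepSet
              ((insert (e.symm v) s : Finset _) : Set _) := by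
            rw [indep_map, Finset.map_insert]
            simpa using hi
          have h4 := hs.2 h3 (Finset.subset_insert _ _)
          apply hv
          have := h4 (Finset.mem_insert_self _ _)
          simpa using this)
      rw [Finset.card_map] at h
      rw [h, card_W]
      simp)
  have hv := valley
  rw [← cnt_comap _ e, ← cnt_comap _ e 403, ← cnt_comap _ e 405] at hv
  by_cases hm : 403 < m
  · have := h1 403 hm
    exact absurd hv.1 (not_lt.mpr this)
  · have := h2 404 (by omega)
    exact absurd hv.2 (not_lt.mpr this)

end Pool.Agent.S10980
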