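import Pool.Statements.S11019
import Pool.Agent.H24.Mono4

set_option autoImplicit false
open Pool Pool.MP_b89653_co

namespace Pool.Agent.S11019

/-- For every r there is m such that every edge colouring of K_n whose vertices see on average at most r colours admits a partition of the vertices into at most m monochromatic cycles (empty, single vertex, single edge allowed). -/
theorem result :
    ∀ r : ℕ, ∃ m : ℕ, ∀ n : ℕ, ∀ c : Fin n → Fin n → ℕ,
      (∀ u v, c u v = c v u) →
      (∑ v : Fin n, ((Finset.univ.erase v).image (c v)).card ≤ r * n) →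
      ∃ k : ℕ, k ≤ m ∧ ∃ C : Fin k → List (Fin n),
        (∀ j : Fin k, (C j).Nodup ∧
          ∃ col : ℕ, ∀ i : ℕ, ∀ a b : Fin n,
            (C j)[i]? = some a →
            (C j)[(i + 1) % (C j).length]? = some b →
            a ≠ b → c a b = col) ∧
        (∀ v : Fin n, ∃! j : Fin k, v ∈ C j) := by
  intro r
  obtain ⟨M, h⟩ := Pool.Agent.H24.Mono.mean_cover r
  refine ⟨M, fun n c hc hs => ?_⟩
  obtain ⟨P, h1, h2, h3, h4⟩ := h (Fin n) Finset.univ c hc (by simpa using hs)
  rw [List.nodup_flatMap] at h3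
  refine ⟨P.length, h1, fun j => (P[j]).2, fun j => ⟨h3.1 _ (List.getElem_mem _), (P[j]).1, ?_⟩, ?_⟩
  · intro i a b ha hb hab
    exact (Pool.Agent.H24.Mono.cyc_index (h2 _ (List.getElem_mem _)) i a b ha hb hab).2
  · intro v
    obtain ⟨q, hq, hv⟩ := List.mem_flatMap.1 ((h4 v).2 (Finset.mem_univ v))
    obtain ⟨i, hi, rfl⟩ := List.getElem_of_mem hq
    refine ⟨⟨i, hi⟩, hv, ?_⟩
    intro j hj
    have hp := List.pairwise_iff_getElem.1 h3.2
    apply Fin.ext
    by_contra hne
    rcases Nat.lt_or_gt_of_ne hne with hlt | hlt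
    · exact hp j i j.2 hi hlt hj hv
    · exact hp i j hi j.2 hlt hv hj

end Pool.Agent.S11019
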