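import Pool.Statements.S11046

set_option autoImplicit false
open Pool Pool.MP_b9906a_co

namespace Pool.Agent.S11046

lemma poly4 {K : Type} [Field K] [Fintype K] (hK : Fintype.card K = 1024)
    (c1 c2 c3 c4 : K) (e1 e2 e3 e4 : ℕ) (h1 : e1 < 1024) (h2 : e2 < 1024) (h3 : e3 < 1024)
    (h4 : e4 < 1024) (n2 : e1 ≠ e2) (n3 : e1 ≠ e3) (n4 : e1 ≠ e4)
    (h : ∀ x : K, c1 * x ^ e1 + c2 * x ^ e2 + c3 * x ^ e3 + c4 * x ^ e4 = 0) : c1 = 0 := by
  set P : Polynomial K := Polynomial.monomial e1 c1 + Polynomial.monomial e2 c2 +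
    Polynomial.monomial e3 c3 + Polynomial.monomial e4 c4 with hP
  have hdeg : P.natDegree < 1024 := by
    have a1 := Polynomial.natDegree_monomial_le (m := e1) c1
    have a2 := Polynomial.natDegree_monomial_le (m := e2) c2
    have a3 := Polynomial.natDegree_monomial_le (m := e3) c3
    have a4 := Polynomial.natDegree_monomial_le (m := e4) c4
    have b1 := Polynomial.natDegree_add_le (Polynomial.monomial e1 c1) (Polynomial.monomial e2 c2)
    have b2 := Polynomial.natDegree_add_le (Polynomial.monomial e1 c1 + Polynomial.monomial e2 c2)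
      (Polynomial.monomial e3 c3)
    have b3 := Polynomial.natDegree_add_le (Polynomial.monomial e1 c1 + Polynomial.monomial e2 c2 +
      Polynomial.monomial e3 c3) (Polynomial.monomial e4 c4)
    rw [hP]
    omega
  have hz : P = 0 := by
    apply Polynomial.eq_zero_of_natDegree_lt_card_of_eval_eq_zero P (f := id)
      Function.injective_id
    · intro x
      simp only [hP, Polynomial.eval_add, Polynomial.eval_monomial, id]
      exact h x
    · rw [hK]; exact hdeg
  have := congrArg (fun Q => Polynomial.coeff Q e1) hz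
  simp only [hP, Polynomial.coeff_add, Polynomial.coeff_monomial, if_neg n2.symm, if_neg n3.symm,
    if_neg n4.symm, Polynomial.coeff_zero] at this
  simpa using this

lemma exists_order {K : Type} [Field K] [Fintype K] (hK : Fintype.card K = 1024) (r : ℕ)
    [Fact r.Prime] (hr : r ∣ 1023) : ∃ μ : K, orderOf μ = r := by
  classical
  obtain ⟨u, hu⟩ := exists_prime_orderOf_dvd_card (G := Kˣ) r (by
    rw [Fintype.card_units, hK]; exact hr)
  exact ⟨u, by rw [orderOf_units, hu]⟩

lemma five_dvd (i : ℕ) (h : 2 ^ i ≡ 1 [MOD 31]) : 5 ∣ i := by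
  have h1 : 2 ^ i ≡ 2 ^ (i % 5) [MOD 31] := by
    conv_lhs => rw [← Nat.div_add_mod i 5, pow_add, pow_mul]
    have : (2 ^ 5) ^ (i / 5) ≡ 1 ^ (i / 5) [MOD 31] := Nat.ModEq.pow _ (by decide)
    rw [one_pow] at this
    simpa using this.mul_right (2 ^ (i % 5))
  have h2 := h1.symm.trans h
  have h3 : i % 5 < 5 := Nat.mod_lt _ (by norm_num)
  apply Nat.dvd_of_mod_eq_zero
  generalize i % 5 = r at h2 h3
  interval_cases r <;> first | rfl | (exfalso; revert h2; decide)

/-- The negation of the preceding statement: For n>5, if q-polynomials f,g on F_{q^n} with max linearity field F_q have equal images of f(x)/x, then either one ΓL(2,q^n) map sends both graphs to graphs of αx^{q^i}, βx^{q^j} with gcd(i,n)=gcd(j,n)=1 and equal norms, or g(x) equals f(lx)/l or f̂(lx)/l. -/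
theorem result :
    ¬ (∀ (q n : ℕ) (K : Type) [Field K] [Fintype K],
      IsPrimePow q → Fintype.card K = q ^ n → 5 < n →
      ∀ (a b : Fin n → K),
        (∀ t : ℕ, t ∣ n → 1 < t →
          ¬ ∀ μ : K, μ ^ (q ^ t) = μ → ∀ x : K,
            (∑ k : Fin n, a k * (μ * x) ^ (q ^ (k : ℕ))) = μ * ∑ k : Fin n, a k * x ^ (q ^ (k : ℕ))) →
        (∀ t : ℕ, t ∣ n → 1 < t →
          ¬ ∀ μ : K, μ ^ (q ^ t) = μ → ∀ x : K,
            (∑ k : Fin n, b k * (μ * x) ^ (q ^ (k : ℕ))) = μ * ∑ k : Fin n, b k * x ^ (q ^ (k : ℕ))) →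
        {z : K | ∃ x : K, x ≠ 0 ∧ z = (∑ k : Fin n, a k * x ^ (q ^ (k : ℕ))) / x} =
          {z : K | ∃ x : K, x ≠ 0 ∧ z = (∑ k : Fin n, b k * x ^ (q ^ (k : ℕ))) / x} →
        (∃ (σ : K ≃+* K) (c₁ c₂ c₃ c₄ α β : K) (i j : ℕ),
            c₁ * c₄ - c₂ * c₃ ≠ 0 ∧ Nat.Coprime i n ∧ Nat.Coprime j n ∧
            Set.range (fun x : K =>
              (c₁ * σ x + c₂ * σ (∑ k : Fin n, a k * x ^ (q ^ (k : ℕ))),
               c₃ * σ x + c₄ * σ (∑ k : Fin n, a k * x ^ (q ^ (k : ℕ))))) =
              Set.range (fun y : K => (y, α * y ^ (q ^ i))) ∧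
            Set.range (fun x : K =>
              (c₁ * σ x + c₂ * σ (∑ k : Fin n, b k * x ^ (q ^ (k : ℕ))),
               c₃ * σ x + c₄ * σ (∑ k : Fin n, b k * x ^ (q ^ (k : ℕ))))) =
              Set.range (fun y : K => (y, β * y ^ (q ^ j))) ∧
            (∏ k ∈ Finset.range n, α ^ (q ^ k)) = ∏ k ∈ Finset.range n, β ^ (q ^ k)) ∨
        (∃ l : K, l ≠ 0 ∧
            ((∀ x : K, (∑ k : Fin n, b k * x ^ (q ^ (k : ℕ))) =
                (∑ k : Fin n, a k * (l * x) ^ (q ^ (k : ℕ))) / l) ∨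
             (∀ x : K, (∑ k : Fin n, b k * x ^ (q ^ (k : ℕ))) =
                (∑ k : Fin n, (a k) ^ (q ^ (n - (k : ℕ))) * (l * x) ^ (q ^ (n - (k : ℕ)))) / l)))) := by
  intro H
  let K := GaloisField 2 10
  let _ : Fintype K := Fintype.ofFinite K
  have hK : Fintype.card K = 1024 := by
    rw [← Nat.card_eq_fintype_card, GaloisField.card 2 10 (by norm_num)]; norm_num
  have hpow : ∀ x : K, x ^ 1024 = x := fun x => by rw [← hK]; exact FiniteField.pow_card x
  have two : (2 : K) = 0 := CharTwo.two_eq_zero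
  have : Fact (Nat.Prime 31) := ⟨by norm_num⟩
  obtain ⟨μ, hμ⟩ := exists_order hK 3 (by norm_num)
  obtain ⟨ν, hν⟩ := exists_order hK 31 (by norm_num)
  have μ3 : μ ^ 3 = 1 := by rw [← hμ]; exact pow_orderOf_eq_one μ
  have ν31 : ν ^ 31 = 1 := by rw [← hν]; exact pow_orderOf_eq_one ν
  have μ0 : μ ≠ 0 := by rintro rfl; simp at μ3
  have ν0 : ν ≠ 0 := by rintro rfl; simp at ν31
  have μ1 : μ ≠ 1 := by rintro rfl; simp at hμ
  have ν1 : ν ≠ 1 := by rintro rfl; simp at hν
  have ν3 : ν ^ 3 ≠ 1 := by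
    intro h
    have := orderOf_dvd_of_pow_eq_one h
    rw [hν] at this
    omega
  let a : Fin 10 → K := ![0, 1, 0, 0, 0, 0, 1, 0, 0, 0]
  let b : Fin 10 → K := ![0, 0, 1, 0, 0, 0, 0, 1, 0, 0]
  have fa : ∀ x : K, ∑ k : Fin 10, a k * x ^ (2 ^ (k : ℕ)) = x ^ 2 + x ^ 64 := by
    intro x; simp [a, Fin.sum_univ_succ]
  have fb : ∀ x : K, ∑ k : Fin 10, b k * x ^ (2 ^ (k : ℕ)) = x ^ 4 + x ^ 128 := by
    intro x; simp [b, Fin.sum_univ_succ]
  have fc : ∀ x : K, ∑ k : Fin 10, a k ^ (2 ^ (10 - (k : ℕ))) * x ^ (2 ^ (10 - (k : ℕ))) =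
      x ^ 512 + x ^ 16 := by
    intro x; simp [a, Fin.sum_univ_succ]
  have hT : ∀ x : K, (x + x ^ 32) ^ 32 = x + x ^ 32 := by
    intro x
    have := add_pow_char_pow (p := 2) (n := 5) x (x ^ 32)
    norm_num at this
    rw [this, ← pow_mul, hpow, add_comm]
  have hf : ∀ x : K, x ^ 2 + x ^ 64 = (x + x ^ 32) ^ 2 := by
    intro x; linear_combination (-x ^ 33) * two
  have hg : ∀ x : K, x ^ 4 + x ^ 128 = (x + x ^ 32) ^ 4 := by
    intro x; linear_combination (-2 * x ^ 35 - 3 * x ^ 66 - 2 * x ^ 97) * two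
  have tcases : ∀ t : ℕ, t ∣ 10 → 1 < t → t = 2 ∨ t = 5 ∨ t = 10 := by
    intro t ht h1
    have := Nat.le_of_dvd (by norm_num) ht
    interval_cases t <;> omega
  have μ4 : μ ^ 2 ^ 2 = μ := by norm_num; linear_combination μ * μ3
  have ν32 : ν ^ 2 ^ 5 = ν := by norm_num; linear_combination ν * ν31
  have ν1024 : ν ^ 2 ^ 10 = ν := hpow ν
  have key := H 2 10 K (Nat.prime_two.prime.isPrimePow) hK (by norm_num) a b (by
    intro t ht h1 h
    simp only [fa] at h
    have hh : ∀ m : K, m ^ 2 ^ t = m → m ^ 2 - m = 0 := by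
      intro m hm
      apply poly4 hK _ (m ^ 64 - m) 0 0 2 64 0 0 <;> try norm_num
      intro x
      linear_combination h m hm x
    rcases tcases t ht h1 with rfl | rfl | rfl
    · exact μ1 (mul_left_cancel₀ μ0 (by linear_combination hh μ μ4))
    · exact ν1 (mul_left_cancel₀ ν0 (by linear_combination hh ν ν32))
    · exact ν1 (mul_left_cancel₀ ν0 (by linear_combination hh ν ν1024))) (by
    intro t ht h1 h
    simp only [fb] at h
    have hh : ∀ m : K, m ^ 2 ^ t = m → m ^ 4 - m = 0 := by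
      intro m hm
      apply poly4 hK _ (m ^ 128 - m) 0 0 4 128 0 0 <;> try norm_num
      intro x
      linear_combination h m hm x
    have hh2 : ∀ m : K, m ^ 2 ^ t = m → m ^ 128 - m = 0 := by
      intro m hm
      apply poly4 hK _ (m ^ 4 - m) 0 0 128 4 0 0 <;> try norm_num
      intro x
      linear_combination h m hm x
    rcases tcases t ht h1 with rfl | rfl | rfl
    · have h2 : μ ^ 126 = 1 := by
        rw [show 126 = 3 * 42 by norm_num, pow_mul, μ3, one_pow]
      exact μ1 (mul_left_cancel₀ μ0 (by linear_combination hh2 μ μ4 - μ ^ 2 * h2))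
    · exact ν3 (mul_left_cancel₀ ν0 (by linear_combination hh ν ν32))
    · exact ν3 (mul_left_cancel₀ ν0 (by linear_combination hh ν ν1024))) (by
    simp only [fa, fb, hf, hg]
    have scal : ∀ x l : K, l ^ 32 = l → l * x + (l * x) ^ 32 = l * (x + x ^ 32) := by
      intro x l hl
      rw [mul_pow, hl]; ring
    ext z
    simp only [Set.mem_ofPred_eq]
    constructor
    · rintro ⟨x, hx, rfl⟩
      by_cases hc : x + x ^ 32 = 0
      · exact ⟨x, hx, by simp [hc]⟩
      · have c32 := hT x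
        set c := x + x ^ 32 with hcdef
        have c31 : c ^ 31 = 1 := mul_left_cancel₀ hc (by linear_combination c32)
        refine ⟨c ^ 20 * x, mul_ne_zero (pow_ne_zero _ hc) hx, ?_⟩
        rw [scal x (c ^ 20) (by rw [← pow_mul, mul_comm, pow_mul, c32]), ← hcdef]
        rw [div_eq_div_iff hx (mul_ne_zero (pow_ne_zero _ hc) hx)]
        have : c ^ 62 = 1 := by rw [show 62 = 31 * 2 by norm_num, pow_mul, c31, one_pow]
        linear_combination (-(c ^ 22 * x)) * this
    · rintro ⟨x, hx, rfl⟩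
      by_cases hc : x + x ^ 32 = 0
      · exact ⟨x, hx, by simp [hc]⟩
      · have c32 := hT x
        set c := x + x ^ 32 with hcdef
        refine ⟨c ^ 2 * x, mul_ne_zero (pow_ne_zero _ hc) hx, ?_⟩
        rw [scal x (c ^ 2) (by rw [← pow_mul, mul_comm, pow_mul, c32]), ← hcdef]
        rw [div_eq_div_iff hx (mul_ne_zero (pow_ne_zero _ hc) hx)]
        ring)
  simp only [fa, fb, fc] at key
  rcases key with ⟨σ, c₁, c₂, c₃, c₄, α, β, i, j, hdet, hi, -, h1, -, -⟩ | ⟨l, hl, h | h⟩
  · have mem : ∀ x : K, c₃ * σ x + c₄ * σ (x ^ 2 + x ^ 64) =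
        α * (c₁ * σ x + c₂ * σ (x ^ 2 + x ^ 64)) ^ 2 ^ i := by
      intro x
      have : (c₁ * σ x + c₂ * σ (x ^ 2 + x ^ 64), c₃ * σ x + c₄ * σ (x ^ 2 + x ^ 64)) ∈
          Set.range (fun y : K => (y, α * y ^ (2 ^ i))) := by
        rw [← h1]; exact ⟨x, rfl⟩
      obtain ⟨y, hy⟩ := this
      simp only [Prod.mk.injEq] at hy
      rw [← hy.1, hy.2]
    have z1 : (1 : K) ^ 2 + 1 ^ 64 = 0 := by linear_combination two
    have zν : ν ^ 2 + ν ^ 64 = 0 := by
      have : ν ^ 62 = 1 := by rw [show 62 = 31 * 2 by norm_num, pow_mul, ν31, one_pow]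
      linear_combination ν ^ 2 * this + ν ^ 2 * two
    have m1 := mem 1
    have m2 := mem ν
    rw [z1] at m1
    rw [zν] at m2
    simp only [map_zero, mul_zero, add_zero, map_one, mul_one, mul_pow] at m1 m2
    by_cases c30 : c₃ = 0
    · rw [c30, mul_zero, sub_zero] at hdet
      have c10 : c₁ ≠ 0 := left_ne_zero_of_mul hdet
      have c40 : c₄ ≠ 0 := right_ne_zero_of_mul hdet
      have α0 : α = 0 := by
        rw [c30] at m1
        rcases mul_eq_zero.mp m1.symm with h | h
        · exact h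
        · exact absurd h (pow_ne_zero _ c10)
      have : (1 : K) = 0 := by
        apply poly4 hK _ 1 0 0 2 64 0 0 <;> try norm_num
        intro x
        have := mem x
        rw [c30, α0, zero_mul, zero_mul, zero_add] at this
        rcases mul_eq_zero.mp this with h | h
        · exact absurd h c40
        · exact (map_eq_zero_iff σ σ.injective).mp h
      exact one_ne_zero this
    · rw [← mul_assoc, ← m1] at m2
      have h2 : σ ν = σ ν ^ 2 ^ i := mul_left_cancel₀ c30 m2
      rw [← map_pow] at h2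
      have h3 : ν ^ 2 ^ i = ν ^ 1 := by rw [pow_one]; exact (σ.injective h2).symm
      have hfin : IsOfFinOrder ν := by
        rw [← orderOf_pos_iff, hν]; norm_num
      rw [hfin.pow_eq_pow_iff_modEq, hν] at h3
      have h5 := five_dvd i h3
      have := Nat.Coprime.eq_one_of_dvd (Nat.Coprime.coprime_dvd_left h5 hi) (by norm_num)
      omega
  · have : l = 0 := by
      apply poly4 hK _ l (-l ^ 2) (-l ^ 64) 4 128 2 64 <;> try norm_num
      intro x
      have := h x
      rw [eq_div_iff hl] at this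
      linear_combination this
    exact hl this
  · have : l = 0 := by
      apply poly4 hK _ l (-l ^ 512) (-l ^ 16) 4 128 512 16 <;> try norm_num
      intro x
      have := h x
      rw [eq_div_iff hl, mul_pow, mul_pow] at this
      linear_combination this
    exact hl this

end Pool.Agent.S11046
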