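import Pool.Statements.S11060
import Pool.Agent.H22.SCC3

set_option autoImplicit false
open Classical
open Pool Pool.MP_ba3dea_co

namespace Pool.Agent.S11060

/-- The negation of the preceding statement: Every finite 3-vertex-connected simple graph has a cycle cover of minimum total length in which each edge lies in at most two of the cycles. -/
theorem result :
    ¬ (∀ (V : Type) [Fintype V] (G : SimpleGraph V),
      (3 < Fintype.card V ∧
        ∀ S : Finset V, S.card < 3 → (G.induce ((↑S : Set V)ᶜ)).Connected) →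
      ∃ F : List (Σ u : V, G.Walk u u),
        ((∀ c ∈ F, c.2.IsCycle) ∧
          ∀ e ∈ G.edgeSet, ∃ c ∈ F, e ∈ c.2.edges) ∧
        (∀ F' : List (Σ u : V, G.Walk u u),
          ((∀ c ∈ F', c.2.IsCycle) ∧
            ∀ e ∈ G.edgeSet, ∃ c ∈ F', e ∈ c.2.edges) →
          (F.map (fun c => c.2.length)).sum ≤ (F'.map (fun c => c.2.length)).sum) ∧
        ∀ e ∈ G.edgeSet, F.countP (fun c => decide (e ∈ c.2.edges)) ≤ 2) := by
  intro h
  obtain ⟨F, ⟨hc, hcov⟩, hmin, h2⟩ := h (Fin 30) (H22.EL.gr H22.SCC3.s H22.SCC3.t)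
    ⟨by simp, H22.SCC3.conn⟩
  obtain ⟨F', hF', hlen⟩ := H22.Cyc.exists_cover H22.SCC3.s H22.SCC3.t H22.SCC3.loopless _ H22.SCC3.cover_ok
  have h67 := hmin F' hF'
  rw [hlen, H22.SCC3.cover_len] at h67
  obtain ⟨X, x1, x2, x3, x4⟩ := H22.Cyc.matrix_of H22.SCC3.s H22.SCC3.t H22.SCC3.loopless H22.SCC3.inj
    H22.SCC3.inc H22.SCC3.inc_spec H22.SCC3.inc_nodup F (fun c hc' => (hc c hc').isTrail.edges_nodup)
    (fun c x => decide (x ∈ c.2.edges)) (fun c x => by simp)
  refine H22.SCC3.comb X x1 x2 (fun e => ?_) (x4 ▸ h67)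
  have he : H22.EL.ends H22.SCC3.s H22.SCC3.t e ∈ (H22.EL.gr H22.SCC3.s H22.SCC3.t).edgeSet :=
    (H22.EL.mem_edgeSet_gr _ _ H22.SCC3.loopless _).2 ⟨e, rfl⟩
  rw [x3]
  constructor
  · obtain ⟨c, hc1, hc2⟩ := hcov _ he
    exact List.countP_pos_iff.2 ⟨c, hc1, by simpa using hc2⟩
  · convert h2 _ he

end Pool.Agent.S11060
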