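import Pool.Statements.S11082
import Pool.Agent.H14.Mg2

set_option autoImplicit false
open Pool Pool.MP_bb01b3_co

namespace Pool.Agent.S11082

/-- The negation of the preceding statement: For every graph H with chromatic number p+1, p≥2, whose decomposition family contains a matching: there is C so that for all large n, some H-extremal n-vertex graph is a join of a B(H)-extremal graph on γ−1 vertices with a graph within C edges of T_p(n−γ+1). -/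
theorem result :
    ¬ (∀ (h p : ℕ) (H : SimpleGraph (Fin h)), H.chromaticNumber = ((p + 1 : ℕ) : ℕ∞) → 2 ≤ p →
  ∀ Dec : (m : ℕ) → SimpleGraph (Fin m) → Prop,
    (∀ (m : ℕ) (M : SimpleGraph (Fin m)), Dec m M ↔ ∃ t : ℕ, H.IsContained
      (SimpleGraph.fromRel (fun x y : Fin m ⊕ (Fin p × Fin t) =>
        Sum.elim (fun a => Sum.elim (fun b => M.Adj a b) (fun q => q.1.val ≠ 0) y)
          (fun q => Sum.elim (fun _ => q.1.val ≠ 0) (fun q' => q.1 ≠ q'.1) y) x))) →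
  ∀ Mem : (m : ℕ) → SimpleGraph (Fin m) → Prop,
    (∀ (m : ℕ) (M : SimpleGraph (Fin m)), Mem m M ↔ (Dec m M ∧
      ∀ (m' : ℕ) (M' : SimpleGraph (Fin m')), M'.IsContained M → Dec m' M' → M.IsContained M')) →
  (∃ (m : ℕ) (M : SimpleGraph (Fin m)), Mem m M ∧ ∀ v, ∃! w, M.Adj v w) →
  ∀ γ β : ℕ,
    IsLeast {k : ℕ | ∃ (m : ℕ) (M : SimpleGraph (Fin m)) (S : Finset (Fin m)), Mem m M ∧
      (∀ a b, M.Adj a b → a ∈ S ∨ b ∈ S) ∧ (∀ a ∈ S, ∀ b ∈ S, ¬ M.Adj a b) ∧ S.card = k} γ →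
    IsLeast {k : ℕ | ∃ (m : ℕ) (M : SimpleGraph (Fin m)) (S : Finset (Fin m)), Mem m M ∧
      (∀ a b, M.Adj a b → a ∈ S ∨ b ∈ S) ∧ S.card = k} β →
  ∀ BF : SimpleGraph (Fin (γ - 1)) → Prop,
    (∀ G : SimpleGraph (Fin (γ - 1)), BF G ↔
      ((β = γ → ¬ (⊤ : SimpleGraph (Fin γ)).IsContained G) ∧
       (β ≠ γ → ∀ (m : ℕ) (M : SimpleGraph (Fin m)) (S : Finset (Fin m)), Mem m M →
          (∀ a b, M.Adj a b → a ∈ S ∨ b ∈ S) → S.card < γ →
          ¬ (M.induce (S : Set (Fin m))).IsContained G))) →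
  ∃ C N : ℕ, ∀ n ≥ N, ∃ (H1 : SimpleGraph (Fin (γ - 1))) (H2 : SimpleGraph (Fin (n - γ + 1))),
    BF H1 ∧ (∀ G : SimpleGraph (Fin (γ - 1)), BF G → G.edgeSet.ncard ≤ H1.edgeSet.ncard) ∧
    (symmDiff H2.edgeSet (SimpleGraph.turanGraph (n - γ + 1) p).edgeSet).ncard ≤ C ∧
    ¬ H.IsContained (SimpleGraph.fromRel (fun x y : Fin (γ - 1) ⊕ Fin (n - γ + 1) =>
        Sum.elim (fun a => Sum.elim (fun b => H1.Adj a b) (fun _ => True) y)
          (fun a => Sum.elim (fun _ => True) (fun b => H2.Adj a b) y) x)) ∧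
    ∀ G : SimpleGraph (Fin n), ¬ H.IsContained G → G.edgeSet.ncard ≤
      (SimpleGraph.fromRel (fun x y : Fin (γ - 1) ⊕ Fin (n - γ + 1) =>
        Sum.elim (fun a => Sum.elim (fun b => H1.Adj a b) (fun _ => True) y)
          (fun a => Sum.elim (fun _ => True) (fun b => H2.Adj a b) y) x)).edgeSet.ncard) := by
  intro h
  have hne : {k : ℕ | ∃ (m : ℕ) (M : SimpleGraph (Fin m)) (S : Finset (Fin m)), H14.Mg.Mem m M ∧
      (∀ a b, M.Adj a b → a ∈ S ∨ b ∈ S) ∧ S.card = k}.Nonempty :=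
    ⟨_, 6, H14.Mg.M3, Finset.univ, H14.Mg.mem_M3, fun a _ _ => Or.inl (Finset.mem_univ a), rfl⟩
  obtain ⟨C, N, hN⟩ := h 14 2 H14.Mg.H H14.Mg.chi le_rfl H14.Mg.Dec (fun _ _ => Iff.rfl)
    H14.Mg.Mem (fun _ _ => Iff.rfl) ⟨6, H14.Mg.M3, H14.Mg.mem_M3, by
      simp only [ExistsUnique]
      decide⟩ 2 _ H14.Mg.gamma
    ⟨Nat.sInf_mem hne, fun _ hk => Nat.sInf_le hk⟩ _ (fun _ => Iff.rfl)
  obtain ⟨n, hn, hm⟩ := H14.Mg.main C N
  obtain ⟨H1, H2, -, -, h1, h2, h3⟩ := hN n hn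
  obtain ⟨G, h4, h5⟩ := hm H1 H2 h1 h2
  exact absurd (h3 G h4) (not_le.2 h5)

end Pool.Agent.S11082
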