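import Pool.Statements.S11108
import Pool.Agent.H28.VecMat

set_option autoImplicit false
open Pool Pool.MP_bc6ab1_co

namespace Pool.Agent.S11108

open Pool.Agent.H28.VecMat

instance : Fact (Nat.Prime 7) := ⟨by norm_num⟩

/-- six points of a conic in the plane over the field with seven elements -/
def phi1 : Fin 6 → Fin 3 → ZMod 7 :=
  ![![1, 0, 0], ![0, 1, 0], ![0, 0, 1], ![1, 1, 1], ![1, 2, 3], ![1, 3, 2]]

/-- a complete six-arc -/
def phi2 : Fin 6 → Fin 3 → ZMod 7 :=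
  ![![1, 0, 0], ![0, 1, 0], ![0, 0, 1], ![1, 1, 1], ![1, 2, 3], ![1, 3, 4]]

def det3 (x y z : Fin 3 → ZMod 7) : ZMod 7 :=
  x 0 * y 1 * z 2 - x 0 * y 2 * z 1 - x 1 * y 0 * z 2 + x 1 * y 2 * z 0 + x 2 * y 0 * z 1
    - x 2 * y 1 * z 0

theorem arc1 : ∀ a b c : Fin 6, a ≠ b → a ≠ c → b ≠ c → det3 (phi1 a) (phi1 b) (phi1 c) ≠ 0 := by
  decide +kernel

theorem arc2 : ∀ a b c : Fin 6, a ≠ b → a ≠ c → b ≠ c → det3 (phi2 a) (phi2 b) (phi2 c) ≠ 0 := by
  decide +kernel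

theorem free1 : ∀ a b : Fin 6, a ≠ b → det3 ![1, 5, 6] (phi1 a) (phi1 b) ≠ 0 := by
  decide +kernel

theorem compl2 : ∀ x y z : ZMod 7, ∃ a b : Fin 6, a ≠ b ∧
    det3 ![x, y, z] (phi2 a) (phi2 b) = 0 := by
  decide +kernel

theorem ind_of_arc (φ : Fin 6 → Fin 3 → ZMod 7)
    (h : ∀ a b c : Fin 6, a ≠ b → a ≠ c → b ≠ c → det3 (φ a) (φ b) (φ c) ≠ 0) (I : Set (Fin 6)) :
    LinearIndepOn (ZMod 7) φ I ↔ I.ncard ≤ 3 := by
  refine indep_iff_ncard_le (ZMod 7) (by simp) φ ?_ I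
  intro e he
  rw [Matrix.det_fin_three]
  exact h (e 0) (e 1) (e 2) (he.ne (by decide)) (he.ne (by decide)) (he.ne (by decide))

/-- the alternating form `(x, y) ↦ det (p, x, y)` -/
noncomputable def D (p : Fin 3 → ZMod 7) : (Fin 3 → ZMod 7) [⋀^Fin 2]→ₗ[ZMod 7] ZMod 7 :=
  (Matrix.detRowAlternating : (Fin 3 → ZMod 7) [⋀^Fin 3]→ₗ[ZMod 7] ZMod 7).curryLeft p

theorem D_apply (p : Fin 3 → ZMod 7) (v : Fin 2 → Fin 3 → ZMod 7) :
    D p v = det3 p (v 0) (v 1) := by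
  have : D p v = Matrix.det (Matrix.of (Matrix.vecCons p v)) := rfl
  rw [this, Matrix.det_fin_three]
  rfl

theorem exists_D (L : (Fin 3 → ZMod 7) [⋀^Fin 2]→ₗ[ZMod 7] ZMod 7) :
    ∃ x y z : ZMod 7, L = D ![x, y, z] := by
  let b := Pi.basisFun (ZMod 7) (Fin 3)
  have hsw : ∀ i j : Fin 3, L ![b j, b i] = - L ![b i, b j] := by
    intro i j
    have := L.map_swap (v := ![b i, b j]) (i := 0) (j := 1) (by decide)
    rw [← this]
    congr 1
    funext t
    fin_cases t <;> rfl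
  refine ⟨L ![b 1, b 2], L ![b 2, b 0], L ![b 0, b 1], ?_⟩
  refine b.ext_alternating ?_
  intro v hv
  have hv' : (fun i => b (v i)) = ![b (v 0), b (v 1)] := by
    funext t
    fin_cases t <;> rfl
  have hne : v 0 ≠ v 1 := hv.ne (by decide)
  rw [hv', D_apply]
  generalize v 0 = i at hne ⊢
  generalize v 1 = j at hne ⊢
  have h1 := hsw 0 1
  have h2 := hsw 1 2
  have h3 := hsw 2 0
  have hb : ∀ i j : Fin 3, b i j = if j = i then 1 else 0 := by
    intro i j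
    simp [b, Pi.single_apply]
  have key : ∀ i j : Fin 3, i ≠ j → (i = 0 ∧ j = 1) ∨ (i = 1 ∧ j = 0) ∨ (i = 1 ∧ j = 2) ∨
      (i = 2 ∧ j = 1) ∨ (i = 2 ∧ j = 0) ∨ (i = 0 ∧ j = 2) := by decide
  rcases key i j hne with ⟨rfl, rfl⟩ | ⟨rfl, rfl⟩ | ⟨rfl, rfl⟩ | ⟨rfl, rfl⟩ | ⟨rfl, rfl⟩ |
    ⟨rfl, rfl⟩
  · simp [det3, hb]
  · rw [h1]; simp [det3, hb]
  · simp [det3, hb]
  · rw [h2]; simp [det3, hb]
  · simp [det3, hb]
  · rw [h3]; simp [det3, hb]

/-- The negation of the preceding statement: For any loopless matroid with two linear representations over the same finite field and any k ≥ 2, for every c, c alternating k-forms separating all rank-k flats exist for one representation iff they exist for the other. -/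
theorem result :
    ¬ (∀ (F : Type) [Field F] [Fintype F] (n : ℕ) (M : Matroid (Fin n)),
      M.E = Set.univ → M.Loopless →
      ∀ (k : ℕ), 2 ≤ k →
      ∀ (d₁ d₂ : ℕ) (φ₁ : Fin n → (Fin d₁ → F)) (φ₂ : Fin n → (Fin d₂ → F)),
        (∀ I : Set (Fin n), M.Indep I ↔ LinearIndepOn F φ₁ I) →
        (∀ I : Set (Fin n), M.Indep I ↔ LinearIndepOn F φ₂ I) →
        ∀ c : ℕ,
          (∃ L : Fin c → ((Fin d₁ → F) [⋀^Fin k]→ₗ[F] F),
              ∀ X : Set (Fin n), M.IsFlat X → M.eRk X = (k : ℕ∞) →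
                ∃ i : Fin c, ∃ e : Fin k → Fin n,
                  Function.Injective e ∧ M.IsBasis (Set.range e) X ∧ L i (φ₁ ∘ e) ≠ 0) ↔
          (∃ L : Fin c → ((Fin d₂ → F) [⋀^Fin k]→ₗ[F] F),
              ∀ X : Set (Fin n), M.IsFlat X → M.eRk X = (k : ℕ∞) →
                ∃ i : Fin c, ∃ e : Fin k → Fin n,
                  Function.Injective e ∧ M.IsBasis (Set.range e) X ∧ L i (φ₂ ∘ e) ≠ 0)) := by
  intro h
  have hM : ∀ I : Set (Fin 6), (vec (ZMod 7) phi1).Indep I ↔ I.ncard ≤ 3 := fun I => by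
    rw [vec_indep, ind_of_arc phi1 arc1]
  have hloop : (vec (ZMod 7) phi1).Loopless := by
    rw [Matroid.loopless_iff_forall_isNonloop]
    intro e _
    rw [← Matroid.indep_singleton, hM]
    simp
  have h' := h (ZMod 7) 6 (vec (ZMod 7) phi1) rfl hloop 2 le_rfl 3 3 phi1 phi2
    (fun I => vec_indep _ _ _) (fun I => by rw [hM, ind_of_arc phi2 arc2]) 1
  have hleft : ∃ L : Fin 1 → ((Fin 3 → ZMod 7) [⋀^Fin 2]→ₗ[ZMod 7] ZMod 7),
      ∀ X : Set (Fin 6), (vec (ZMod 7) phi1).IsFlat X → (vec (ZMod 7) phi1).eRk X = ((2 : ℕ) : ℕ∞) →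
        ∃ i : Fin 1, ∃ e : Fin 2 → Fin 6, Function.Injective e ∧
          (vec (ZMod 7) phi1).IsBasis (Set.range e) X ∧ L i (phi1 ∘ e) ≠ 0 := by
    refine ⟨fun _ => D ![1, 5, 6], fun X _ hX => ?_⟩
    obtain ⟨I, hI⟩ := (vec (ZMod 7) phi1).exists_isBasis X (Set.subset_univ _)
    rw [hI.eRk_eq_encard] at hX
    obtain ⟨a, b, hab, rfl⟩ := Set.encard_eq_two.1 hX
    refine ⟨0, ![a, b], ?_, ?_, ?_⟩
    · intro s t hst
      fin_cases s <;> fin_cases t
      · rfl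
      · exact absurd hst hab
      · exact absurd hst hab.symm
      · rfl
    · simpa [Matrix.range_cons, Set.pair_comm] using hI
    · rw [D_apply]
      exact free1 a b hab
  obtain ⟨L, hL⟩ := h'.1 hleft
  obtain ⟨x, y, z, hxyz⟩ := exists_D (L 0)
  obtain ⟨a, b, hab, h0⟩ := compl2 x y z
  have hind : (vec (ZMod 7) phi1).Indep {a, b} := by
    rw [hM, Set.ncard_pair hab]; norm_num
  have hflat : (vec (ZMod 7) phi1).IsFlat {a, b} := by
    rw [Matroid.isFlat_iff_closure_eq]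
    refine Set.Subset.antisymm ?_ ((vec (ZMod 7) phi1).subset_closure _ (Set.subset_univ _))
    intro c hc
    by_contra hn
    rw [hind.mem_closure_iff_of_notMem hn] at hc
    refine hc.not_indep ?_
    rw [hM, Set.ncard_insert_of_notMem hn, Set.ncard_pair hab]
  obtain ⟨i, e, he, hb, hne⟩ := hL {a, b} hflat
    (by rw [hind.eRk_eq_encard, Set.encard_pair hab]; rfl)
  obtain rfl : i = 0 := Subsingleton.elim _ _
  rw [hxyz, D_apply] at hne
  have h0' : e 0 ∈ ({a, b} : Set (Fin 6)) := hb.subset ⟨0, rfl⟩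
  have h1' : e 1 ∈ ({a, b} : Set (Fin 6)) := hb.subset ⟨1, rfl⟩
  have h01 : e 0 ≠ e 1 := he.ne (by decide)
  simp only [Function.comp] at hne
  rcases h0' with h0' | h0' <;> rcases h1' with h1' | h1'
  · exact h01 (h0'.trans h1'.symm)
  · rw [h0', h1'] at hne; exact hne h0
  · rw [h0', h1'] at hne
    apply hne
    rw [← neg_eq_zero, ← h0]
    simp only [det3]
    ring
  · exact h01 (h0'.trans h1'.symm)

end Pool.Agent.S11108
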