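import Pool.Statements.S11150
import Pool.Agent.H27.ModAut

set_option autoImplicit false
open Pool Pool.MP_be50aa_co

namespace Pool.Agent.S11150

/-- The negation of the preceding statement: For every k there is a finite group G that is not isomorphic to the automorphism group of any finite modular lattice that order-embeds into a product of k chains (i.e. has order dimension at most k). -/
theorem result :
    ¬ (∀ k : ℕ, ∃ (G : Type) (_ : Group G), Finite G ∧
      ∀ (L : Type) [Lattice L] [IsModularLattice L] [Finite L],
        Nonempty (L ↪o (Fin k → ℕ)) →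
          ¬ ∃ φ : G ≃ (L ≃o L), ∀ a b : G, φ (a * b) = (φ b).trans (φ a)) := by
  intro H
  obtain ⟨G, _, hG, h⟩ := H 11
  obtain ⟨L, _, _, _, _, ⟨φ⟩, h1, -, -⟩ := Pool.Agent.H27.ModAut.main G
  exact h L h1 ⟨φ.toEquiv, fun a b => φ.map_mul a b⟩

end Pool.Agent.S11150
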