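import Pool.Statements.S11156
import Pool.Agent.H14.Hs5

set_option autoImplicit false
open Pool Pool.MP_be97b2_co

namespace Pool.Agent.S11156

/-- The negation of the preceding statement: For n,r ≥ 2, every measurable r-coloring of the unit n-sphere has a measurable monochromatic subset invariant under some nonidentity orientation-preserving involutive isometry, of normalized measure at least 1/r^2. -/
theorem result :
    ¬ (∀ n r : ℕ, 1 < n → 1 < r →
    ∀ c : EuclideanSpace ℝ (Fin (n+1)) → Fin r, Measurable c →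
      ∃ (i : Fin r)
        (g : EuclideanSpace ℝ (Fin (n+1)) ≃ₗᵢ[ℝ] EuclideanSpace ℝ (Fin (n+1)))
        (A : Set (EuclideanSpace ℝ (Fin (n+1)))),
        g ≠ LinearIsometryEquiv.refl ℝ (EuclideanSpace ℝ (Fin (n+1))) ∧
        (∀ x, g (g x) = x) ∧
        LinearMap.det (g.toLinearEquiv : EuclideanSpace ℝ (Fin (n+1)) →ₗ[ℝ] EuclideanSpace ℝ (Fin (n+1))) = 1 ∧
        MeasurableSet A ∧
        A ⊆ Metric.sphere (0 : EuclideanSpace ℝ (Fin (n+1))) 1 ∧
        (∀ x ∈ A, c x = i) ∧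
        g '' A = A ∧
        ((r : ENNReal) ^ 2)⁻¹ ≤
          ((MeasureTheory.volume : MeasureTheory.Measure (EuclideanSpace ℝ (Fin (n+1)))).toSphere Set.univ)⁻¹ *
          (MeasureTheory.volume : MeasureTheory.Measure (EuclideanSpace ℝ (Fin (n+1)))).toSphere (Subtype.val ⁻¹' A)) := by
  intro h
  obtain ⟨c, hc, hlt⟩ := H14.Hs.final
  obtain ⟨i, g, A, h1, h2, h3, -, -, h6, h7, h8⟩ := h 2 2 (by norm_num) (by norm_num)
    (fun x => finTwoEquiv.symm (c x)) ((measurable_of_countable _).comp hc)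
  obtain ⟨u, hu⟩ := H14.Hs.classify g h1 h2 h3
  have hs : (Subtype.val ⁻¹' A : Set H14.Hs.S) ⊆
      {x : H14.Hs.S | c x = finTwoEquiv i ∧ c (H14.Hs.rf u x) = finTwoEquiv i} := by
    intro x hx
    refine ⟨(Equiv.symm_apply_eq _).1 (h6 _ hx), (Equiv.symm_apply_eq _).1 (h6 _ ?_)⟩
    rw [← hu, ← h7]
    exact Set.mem_image_of_mem _ hx
  have h9 : (((2 : ℕ) : ENNReal) ^ 2)⁻¹ ≤ H14.Hs.nu (Subtype.val ⁻¹' A) := h8
  have h10 := (MeasureTheory.measureReal_mono (μ := H14.Hs.nu) hs).trans_lt (hlt u _)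
  have h11 := ENNReal.toReal_mono (MeasureTheory.measure_ne_top _ _) h9
  have h12 : ((((2 : ℕ) : ENNReal) ^ 2)⁻¹).toReal = 1 / 4 := by
    simp
    norm_num
  rw [h12] at h11
  exact absurd (h11.trans_lt h10) (lt_irrefl _)

end Pool.Agent.S11156
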