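import Pool.Statements.S11159
import Pool.Agent.H16.Conv3b

set_option autoImplicit false
open Classical
open Pool Pool.MP_bea7cd_co

namespace Pool.Agent.S11159


/-- For some n there is a set of n points in the plane in strictly convex position with three distinct distances, each realized by more than n unordered pairs of the points. Equivalently, the third most frequent distance occurs more than n times. -/
theorem result :
    ∃ n : ℕ, ∃ S : Finset (EuclideanSpace ℝ (Fin 2)),
      S.card = n ∧
      (∀ p ∈ S, p ∉ convexHull ℝ ((S : Set (EuclideanSpace ℝ (Fin 2))) \ {p})) ∧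
      ∃ d₁ d₂ d₃ : ℝ, d₁ ≠ d₂ ∧ d₁ ≠ d₃ ∧ d₂ ≠ d₃ ∧
        2 * n < (S.offDiag.filter (fun pq => dist pq.1 pq.2 = d₁)).card ∧
        2 * n < (S.offDiag.filter (fun pq => dist pq.1 pq.2 = d₂)).card ∧
        2 * n < (S.offDiag.filter (fun pq => dist pq.1 pq.2 = d₃)).card := by
  exact H16.R3.main

end Pool.Agent.S11159
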