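import Pool.Statements.S11179
import Pool.Agent.H24.IrrE

set_option autoImplicit false
open Pool Pool.MP_bf8eef_co

namespace Pool.Agent.S11179

/-- For every connected graph F with at least 3 vertices there is a finite graph G with at least 2 vertices in which no two vertices lie in the same number of subgraphs isomorphic to F. -/
theorem result :
    ∀ (n : ℕ) (F : SimpleGraph (Fin n)), 3 ≤ n → F.Connected →
      ∃ (m : ℕ) (G : SimpleGraph (Fin m)), 2 ≤ m ∧
        Function.Injective
          (fun v : Fin m =>
            {H : G.Subgraph | Nonempty (H.coe ≃g F) ∧ v ∈ H.verts}.ncard) := by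
  intro n F hn hF
  obtain ⟨m, G, hm, h⟩ := Pool.Agent.H24.IrrE.unrooted_main F hn hF 2
  exact ⟨m, G, hm, h⟩

end Pool.Agent.S11179
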