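import Pool.Statements.S11193
import Pool.Agent.H28.Mc4

set_option autoImplicit false
open Pool Pool.MP_c044fe_co

namespace Pool.Agent.S11193

/-- For every graph G on k≥1 vertices, for all large n, every graph F such that every 2-colouring of F's edges has a monochromatic copy of nG contains floor(r(nG)/k) vertex-disjoint copies of G. -/
theorem result :
    ∀ k : ℕ, 0 < k → ∀ G : SimpleGraph (Fin k), ∃ n₀ : ℕ, ∀ n : ℕ, n₀ ≤ n →
      ∀ m : ℕ, ∀ F : SimpleGraph (Fin m),
        (∀ c : Fin m → Fin m → Bool, (∀ x y : Fin m, c x y = c y x) →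
          ∃ b : Bool, ∃ f : Fin n × Fin k → Fin m,
            Function.Injective f ∧
              ∀ p q : Fin n × Fin k, p.1 = q.1 → G.Adj p.2 q.2 →
                F.Adj (f p) (f q) ∧ c (f p) (f q) = b) →
        ∃ f : Fin (sInf {N : ℕ | ∀ c : Fin N → Fin N → Bool,
                (∀ x y : Fin N, c x y = c y x) → ∃ b : Bool,
                ∃ g : Fin n × Fin k → Fin N, Function.Injective g ∧
                  ∀ p q : Fin n × Fin k, p.1 = q.1 → G.Adj p.2 q.2 →
                    c (g p) (g q) = b} / k) × Fin k → Fin m,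
          Function.Injective f ∧
            ∀ p q : Fin (sInf {N : ℕ | ∀ c : Fin N → Fin N → Bool,
                (∀ x y : Fin N, c x y = c y x) → ∃ b : Bool,
                ∃ g : Fin n × Fin k → Fin N, Function.Injective g ∧
                  ∀ p q : Fin n × Fin k, p.1 = q.1 → G.Adj p.2 q.2 →
                    c (g p) (g q) = b} / k) × Fin k,
              p.1 = q.1 → G.Adj p.2 q.2 → F.Adj (f p) (f q) := by
  intro k hk G
  haveI : Nonempty (Fin k) := ⟨⟨0, hk⟩⟩
  obtain ⟨n0, h⟩ := Pool.Agent.H28.Mc.main G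
  refine ⟨n0, fun n hn m F hF => ?_⟩
  have := h n hn m F.Adj fun d hd => by
    obtain ⟨b, f, f1, f2⟩ := hF d hd
    exact ⟨b, f, f1, fun _ => Finset.mem_univ _, f2⟩
  rw [Fintype.card_fin] at this
  obtain ⟨f, f1, -, f2⟩ := this
  exact ⟨f, f1, f2⟩

end Pool.Agent.S11193
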