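import Pool.Statements.S11210
import Pool.Agent.H4.Misere

set_option autoImplicit false
set_option synthInstance.maxSize 4096
open Pool Pool.MP_c0cbcd_co

namespace Pool.Agent.S11210

def opt : Fin 4 → List (Fin 4 → ℕ) :=
  ![[![0, 0, 0, 0]],
    [![0, 0, 0, 0], ![1, 0, 0, 0]],
    [![0, 1, 0, 0], ![1, 0, 0, 0], ![1, 2, 0, 0]],
    [![0, 1, 0, 0], ![1, 1, 1, 0]]]

def cc : Fin 4 → ℕ := ![0, 1, 2, 1]

def pp : Fin 4 → ℕ := ![2, 2, 1, 2]

def tbl (G : Fin 4 → ℕ) : Bool := Nat.testBit 13192934718893549 (1 * G 0 + 2 * G 1 + 6 * G 2 + 18 * G 3)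

def gr (G : Fin 4 → ℕ) : ℕ := G 0 % 2 + 2 * (G 1 % 2)

/-- The negation of the preceding statement: For every closed set of finite impartial games (closed under options and sums), any two games in it that are misère-indistinguishable modulo the set (same misère outcome when added to every member) have the same normal-play Grundy value. -/
theorem result :
    ¬ (∀ (A : Type) (add : A → A → A) (mv : A → A → Prop),
      (∀ G : A, Set.Finite {K : A | mv K G}) →
      WellFounded mv →
      (∀ G H K : A, mv K (add G H) ↔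
          ((∃ G' : A, mv G' G ∧ K = add G' H) ∨ (∃ H' : A, mv H' H ∧ K = add G H'))) →
      ∀ (N : A → Prop),
        (∀ G : A, N G ↔ ((∀ K : A, ¬ mv K G) ∨ ∃ K : A, mv K G ∧ ¬ N K)) →
      ∀ (g : A → ℕ),
        (∀ G : A, (∀ K : A, mv K G → g K ≠ g G) ∧
          (∀ m : ℕ, m < g G → ∃ K : A, mv K G ∧ g K = m)) →
      ∀ G H : A, (∀ X : A, (N (add G X) ↔ N (add H X))) → g G = g H) := by
  intro h
  have hp : ∀ i, 0 < pp i := by decide
  have := h (Fin 4 → ℕ) (· + ·) (H4.Misere.mv opt) (H4.Misere.mv_finite opt)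
    (H4.Misere.mv_wf opt ![1, 2, 6, 10] (by decide)) (H4.Misere.mv_add opt)
    (fun G => tbl (H4.Misere.R cc pp G) = true)
    (H4.Misere.outcome opt cc pp hp (by decide) tbl
      (H4.Misere.box4 (fun i => cc i + 1 + pp i) _ (by decide +kernel)))
    (fun G => gr (H4.Misere.R cc pp G))
    (H4.Misere.grundy opt cc pp hp gr
      (H4.Misere.box4 (fun i => cc i + 1 + pp i) _ (by decide +kernel)))
    ![0, 0, 0, 1] ![1, 0, 0, 2] (by
      intro X
      rw [← H4.Misere.R_add cc pp ![0, 0, 0, 1] X, ← H4.Misere.R_add cc pp ![1, 0, 0, 2] X]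
      exact H4.Misere.box4 (fun i => cc i + pp i) (fun Y =>
        tbl (H4.Misere.R cc pp (![0, 0, 0, 1] + Y)) = true ↔
          tbl (H4.Misere.R cc pp (![1, 0, 0, 2] + Y)) = true) (by decide +kernel) _
        (H4.Misere.R_lt cc pp X hp))
  revert this
  decide +kernel

end Pool.Agent.S11210
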