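import Pool.Statements.S11222
-- import your own Pool.Agent.* helpers here

set_option autoImplicit false
open Pool Pool.MP_c11f96_co

namespace Pool.Agent.S11222Aux
open Finset

def P (i j : ℕ) : Bool := (j + 7 - i) % 7 == 1 || (j + 7 - i) % 7 == 2 || (j + 7 - i) % 7 == 4

def dd (i : ℕ) : ℕ := if i ≤ 8 then i - 6 else i - 7

def R (i j : Fin 14) : Bool :=
  if i.val < 6 then
    (if j.val < 6 then P (i.val + 1) (j.val + 1) else if j.val ≤ 8 then P 0 (i.val + 1) else P (i.val + 1) 0)
  else if j.val < 6 then (if i.val ≤ 8 then P (j.val + 1) 0 else P 0 (j.val + 1))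
  else P (dd i.val) (dd j.val)

def y (i : Fin 14) : ℤ := if i.val < 6 then -1 else if i.val ≤ 8 then 3 else 1

def sz (s : ℕ) (i : Fin 14) : ℕ :=
  if i.val < 6 then 4 * s + 4 else if i.val = 8 then s else if i.val = 9 then s + 2 else 2 * s + 2

theorem R_irr : ∀ i, R i i = false := by decide
theorem R_asym : ∀ i j, R i j = true → R j i = false := by decide +kernel
theorem R_bar : ∀ a b, R a b = true → ∀ c, R a c = true → R b c = true → ∀ d, R a d = true → R b d = true →
    R c d = true → 0 ≤ y a + y b + y c + y d := by decide +kernel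

theorem sz_sum (s : ℕ) : ∑ i, sz s i = 38 * s + 38 := by
  simp [Fin.sum_univ_succ, sz]; omega

theorem y_sum (s : ℕ) : ∑ i, (sz s i : ℤ) * y i = -2 := by
  simp [Fin.sum_univ_succ, sz, y]; omega

theorem deg_out (s : ℕ) (i : Fin 14) : 17 * s + 16 ≤ ∑ j, if R i j = true then sz s j else 0 := by
  fin_cases i <;> simp [Fin.sum_univ_succ, sz, R, P, dd] <;> omega

theorem deg_in (s : ℕ) (i : Fin 14) : 17 * s + 16 ≤ ∑ j, if R j i = true then sz s j else 0 := by
  fin_cases i <;> simp [Fin.sum_univ_succ, sz, R, P, dd] <;> omega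

theorem cells (s : ℕ) : ∃ cell : Fin (38 * s + 38) → Fin 14,
    ∀ j, (univ.filter (fun x => cell x = j)).card = sz s j := by
  have hc : Fintype.card (Σ j : Fin 14, Fin (sz s j)) = 38 * s + 38 := by
    rw [Fintype.card_sigma]; simpa using sz_sum s
  let e := (Fintype.equivFinOfCardEq hc).symm
  refine ⟨fun x => (e x).1, fun j => ?_⟩
  have h1 : (univ.filter (fun x => (e x).1 = j)).card =
      (univ.filter (fun v : (Σ j : Fin 14, Fin (sz s j)) => v.1 = j)).card :=
    card_equiv e (by simp)
  rw [h1, card_filter, Fintype.sum_sigma]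
  rw [sum_eq_single j (fun b _ hb => by simp [hb]) (by simp)]
  simp

theorem fib {n s : ℕ} (cell : Fin n → Fin 14) (h : ∀ j, (univ.filter (fun x => cell x = j)).card = sz s j)
    {M : Type} [AddCommMonoid M] (g : Fin 14 → M) : ∑ x, g (cell x) = ∑ j, sz s j • g j := by
  rw [← sum_fiberwise (s := univ) (g := cell)]
  refine sum_congr rfl (fun j _ => ?_)
  rw [sum_congr rfl (fun x hx => by rw [(mem_filter.1 hx).2]), sum_const, h]

theorem reg4 : IsGreatest {m : ℕ | ∃ T : Fin m → Fin m → Prop,
          (∀ x, ¬ T x x) ∧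
          (∀ x y, x ≠ y → (T x y ↔ ¬ T y x)) ∧
          (∀ v, Set.ncard {w | T v w} = Set.ncard {w | T w v}) ∧
          ¬ ∃ f : Fin 4 → Fin m, Function.Injective f ∧
              ∀ i j : Fin 4, i < j → T (f i) (f j)} 7 := by
  constructor
  · refine ⟨fun i j => P i.val j.val = true, by decide, by decide, fun v => ?_, ?_⟩
    · have h1 : {w : Fin 7 | P v.val w.val = true} = ↑(univ.filter (fun w : Fin 7 => P v.val w.val = true)) := by
        simp
      have h2 : {w : Fin 7 | P w.val v.val = true} = ↑(univ.filter (fun w : Fin 7 => P w.val v.val = true)) := by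
        simp
      rw [h1, h2, Set.ncard_coe_finset, Set.ncard_coe_finset]
      clear h1 h2
      revert v; decide
    · rintro ⟨f, -, hf⟩
      have key : ∀ a b : Fin 7, P a.val b.val = true → ∀ c : Fin 7, P a.val c.val = true →
          P b.val c.val = true → ∀ d : Fin 7, P a.val d.val = true → P b.val d.val = true →
          P c.val d.val = true → False := by decide +kernel
      exact key _ _ (hf 0 1 (by decide)) _ (hf 0 2 (by decide)) (hf 1 2 (by decide)) _
        (hf 0 3 (by decide)) (hf 1 3 (by decide)) (hf 2 3 (by decide))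
  · rintro m ⟨T, h1, h2, h3, h4⟩
    by_contra hm
    push Not at hm
    let v : Fin m := ⟨0, by omega⟩
    have ne : ∀ x y, T x y → x ≠ y := fun x y h hxy => h1 x (hxy ▸ h)
    have tot : ∀ x y, x ≠ y → T x y ∨ T y x := fun x y h => by
      by_cases h5 : T y x
      · exact Or.inr h5
      · exact Or.inl ((h2 x y h).2 h5)
    have hcov : (Set.univ : Set (Fin m)) ⊆ insert v ({w | T v w} ∪ {w | T w v}) := by
      intro w _
      by_cases h : v = w
      · exact Or.inl h.symm
      · exact Or.inr (tot v w h)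
    have h5 := (Set.ncard_le_ncard hcov).trans ((Set.ncard_insert_le _ _).trans
      (Nat.add_le_add_right (Set.ncard_union_le _ _) 1))
    rw [Set.ncard_univ, Nat.card_eq_fintype_card, Fintype.card_fin, ← h3 v] at h5
    have h6 : 3 < {w | T v w}.ncard := by omega
    obtain ⟨a, ha, b, hb, c, hc, d, hd, hab, hac, had, hbc, hbd, hcd⟩ :=
      (Set.three_lt_ncard (Set.toFinite _)).1 h6
    have key : ∀ x y z, T v x → T v y → T v z → T x y → T x z → T y z → False := by
      intro x y z a1 a2 a3 a4 a5 a6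
      refine h4 ⟨![v, x, y, z], ?_, ?_⟩
      · rw [← List.nodup_ofFn]
        simp [ne _ _ a1, ne _ _ a2, ne _ _ a3, ne _ _ a4, ne _ _ a5, ne _ _ a6]
      · intro i j hij
        fin_cases i <;> fin_cases j <;> first | assumption | exact absurd hij (by decide)
    simp only [Set.mem_ofPred_eq] at ha hb hc hd
    have := tot a b hab
    have := tot a c hac
    have := tot a d had
    have := tot b c hbc
    have := tot b d hbd
    have := tot c d hcd
    grind

end Pool.Agent.S11222Aux

namespace Pool.Agent.S11222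

/-- The negation of the preceding statement: For k≥4 with reg(k) the largest order of a regular tournament with no transitive k-subtournament, and any ε>0: every large oriented graph on n vertices, k∣n, semidegree ≥ (1/2−(k−1)/(2k·reg(k))+ε)n, splits into disjoint transitive k-tournaments. -/
theorem result :
    ¬ (∀ k : ℕ, 4 ≤ k → ∀ r : ℕ,
      IsGreatest {m : ℕ | ∃ T : Fin m → Fin m → Prop,
          (∀ x, ¬ T x x) ∧
          (∀ x y, x ≠ y → (T x y ↔ ¬ T y x)) ∧
          (∀ v, Set.ncard {w | T v w} = Set.ncard {w | T w v}) ∧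
          ¬ ∃ f : Fin k → Fin m, Function.Injective f ∧
              ∀ i j : Fin k, i < j → T (f i) (f j)} r →
      ∀ ε : ℝ, 0 < ε → ∃ n0 : ℕ, ∀ n : ℕ, n0 ≤ n → k ∣ n →
        ∀ G : Fin n → Fin n → Prop,
          (∀ x, ¬ G x x) →
          (∀ x y, G x y → ¬ G y x) →
          (∀ v, ((1:ℝ)/2 - ((k:ℝ) - 1) / (2 * (k:ℝ) * (r:ℝ)) + ε) * (n:ℝ)
                  ≤ (Set.ncard {w | G v w} : ℝ) ∧
                ((1:ℝ)/2 - ((k:ℝ) - 1) / (2 * (k:ℝ) * (r:ℝ)) + ε) * (n:ℝ)
                  ≤ (Set.ncard {w | G w v} : ℝ)) →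
          ∃ f : Fin (n / k) → Fin k → Fin n,
            Function.Bijective (fun p : Fin (n / k) × Fin k => f p.1 p.2) ∧
            ∀ t : Fin (n / k), ∀ i j : Fin k, i < j → G (f t i) (f t j)) := by
  intro h
  obtain ⟨n0, hn0⟩ := h 4 le_rfl 7 S11222Aux.reg4 (1 / 2128) (by norm_num)
  set s := 2 * n0 + 99 with hs
  obtain ⟨cell, hcell⟩ := S11222Aux.cells s
  obtain ⟨f, hf, hT⟩ := hn0 (38 * s + 38) (by omega) (by omega)
    (fun x y => S11222Aux.R (cell x) (cell y) = true) (fun x => by simp [S11222Aux.R_irr])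
    (fun x y hxy => by simp [S11222Aux.R_asym _ _ hxy]) (by
      intro v
      have hs' : (99 : ℝ) ≤ s := by exact_mod_cast (by omega : 99 ≤ s)
      have h1 : {w | S11222Aux.R (cell v) (cell w) = true} =
          ↑(Finset.univ.filter (fun w => S11222Aux.R (cell v) (cell w) = true)) := by simp
      have h2 : {w | S11222Aux.R (cell w) (cell v) = true} =
          ↑(Finset.univ.filter (fun w => S11222Aux.R (cell w) (cell v) = true)) := by simp
      rw [h1, h2, Set.ncard_coe_finset, Set.ncard_coe_finset, Finset.card_filter, Finset.card_filter,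
        S11222Aux.fib cell hcell (fun j => if S11222Aux.R (cell v) j = true then 1 else 0),
        S11222Aux.fib cell hcell (fun j => if S11222Aux.R j (cell v) = true then 1 else 0)]
      simp only [smul_eq_mul, mul_ite, mul_one, mul_zero]
      have a1 : ((17 * s + 16 : ℕ) : ℝ) ≤ _ := Nat.cast_le.2 (S11222Aux.deg_out s (cell v))
      have a2 : ((17 * s + 16 : ℕ) : ℝ) ≤ _ := Nat.cast_le.2 (S11222Aux.deg_in s (cell v))
      refine ⟨le_trans ?_ a1, le_trans ?_ a2⟩ <;> (push_cast; linarith))
  have h1 := S11222Aux.fib cell hcell S11222Aux.y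
  simp only [nsmul_eq_mul] at h1
  rw [S11222Aux.y_sum, ← hf.sum_comp (fun x => S11222Aux.y (cell x)), Fintype.sum_prod_type] at h1
  have h2 : 0 ≤ ∑ t, ∑ i, S11222Aux.y (cell (f t i)) := Finset.sum_nonneg (fun t _ => by
    rw [Fin.sum_univ_four]
    exact S11222Aux.R_bar _ _ (hT t 0 1 (by decide)) _ (hT t 0 2 (by decide)) (hT t 1 2 (by decide)) _
        (hT t 0 3 (by decide)) (hT t 1 3 (by decide)) (hT t 2 3 (by decide)))
  exact absurd (h2.trans_eq h1) (by norm_num)

end Pool.Agent.S11222
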