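import Pool.Statements.S11236
-- import your own Pool.Agent.* helpers here

set_option autoImplicit false
open Pool Pool.MP_c19f90_co

namespace Pool.Agent.S11236

abbrev T := (Fin 3 × Fin 46) ⊕ (Fin 3 × Bool) ⊕ Fin 9

def xo (i : Fin 3) (j : Fin 46) : ℤ :=
  if i = 0 then (if (j : ℕ) < 23 then (j : ℕ) + 1 else (j : ℕ) + 2)
  else (if (j : ℕ) < 22 then (j : ℕ) + 1 else (j : ℕ) + 2)

def ψ : T → Fin 4 → ℤ
  | .inl (0, j) => ![1, 0, 0, xo 0 j]
  | .inl (1, j) => ![0, 1, 0, xo 1 j]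
  | .inl (2, j) => ![0, 0, 1, xo 2 j]
  | .inr (.inl (0, true)) => ![1, 1, 0, 0]
  | .inr (.inl (0, false)) => ![1, -1, 0, 1]
  | .inr (.inl (1, true)) => ![0, 1, 1, 0]
  | .inr (.inl (1, false)) => ![0, 1, -1, 0]
  | .inr (.inl (2, true)) => ![1, 0, 1, 0]
  | .inr (.inl (2, false)) => ![-1, 0, 1, 0]
  | .inr (.inr j) => ![0, 0, 0, ![1, 2, 3, 4, 24, 25, 26, 27, 28] j]

def φ (t : T) : Fin 4 → ZMod 48 := fun c => (ψ t c : ZMod 48)

theorem φ_inj : Function.Injective φ := by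
  have : ∀ s t : T, (∀ c, φ s c = φ t c) → s = t := by decide +kernel
  exact fun s t h => this s t (congrFun h)

theorem blk (χ : Fin 46 → ℤ) (h : ∀ j, χ j = 0 ∨ χ j = 1) (x : Fin 46 → ℤ) :
    0 ≤ ∑ j, χ j ∧ ∑ j, χ j ≤ 46 ∧ (∑ j, χ j = 0 → (∀ j, χ j = 0) ∧ ∑ j, χ j * x j = 0) ∧
      (∑ j, χ j = 46 → ∑ j, χ j * x j = ∑ j, x j) := by
  have h0 : ∀ j ∈ (Finset.univ : Finset (Fin 46)), 0 ≤ χ j := fun j _ => by
    rcases h j with h | h <;> omega
  have h1 : ∀ j ∈ (Finset.univ : Finset (Fin 46)), 0 ≤ 1 - χ j := fun j _ => by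
    rcases h j with h | h <;> omega
  have h2 : ∑ j, (1 - χ j) = 46 - ∑ j, χ j := by simp [Finset.sum_sub_distrib]
  have h3 := Finset.sum_nonneg h1
  refine ⟨Finset.sum_nonneg h0, by omega, fun hs => ?_, fun hs => ?_⟩
  · have := (Finset.sum_eq_zero_iff_of_nonneg h0).1 hs
    have h4 : ∀ j, χ j = 0 := fun j => this j (Finset.mem_univ _)
    exact ⟨h4, by simp [h4]⟩
  · have := (Finset.sum_eq_zero_iff_of_nonneg h1).1 (by omega)
    refine Finset.sum_congr rfl fun j hj => ?_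
    have := this j hj
    have : χ j = 1 := by omega
    simp [this]

theorem free (J : Finset T) (hJ : J.Nonempty) : ∑ t ∈ J, φ t ≠ 0 := by
  intro h
  set χ : T → ℤ := fun t => if t ∈ J then 1 else 0 with hχ
  have hc : ∀ t, χ t = 0 ∨ χ t = 1 := fun t => by simp only [hχ]; split_ifs <;> simp
  have hd : ∀ c, (48 : ℤ) ∣ ∑ t, χ t * ψ t c := by
    intro c
    have := congrFun h c
    rw [Finset.sum_apply] at this
    simp only [φ, Pi.zero_apply] at this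
    rw [← Int.cast_sum, ZMod.intCast_zmod_eq_zero_iff_dvd] at this
    simpa [hχ] using this
  have b0 := blk (fun j => χ (.inl (0, j))) (fun j => hc _) (xo 0)
  have b1 := blk (fun j => χ (.inl (1, j))) (fun j => hc _) (xo 1)
  have b2 := blk (fun j => χ (.inl (2, j))) (fun j => hc _) (xo 2)
  have s0 : ∑ j, xo 0 j = 1104 := by decide +kernel
  have s1 : ∑ j, xo 1 j = 1105 := by decide +kernel
  have s2 : ∑ j, xo 2 j = 1105 := by decide +kernel
  rw [s0] at b0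
  rw [s1] at b1
  rw [s2] at b2
  have d0 := hd 0
  have d1 := hd 1
  have d2 := hd 2
  have d3 := hd 3
  simp only [Fintype.sum_sum_type, Fintype.sum_prod_type, Fin.sum_univ_three, Fintype.sum_bool,
    ψ, Matrix.cons_val_zero, Matrix.cons_val_one, Matrix.cons_val, mul_one, mul_zero,
    Finset.sum_const_zero, add_zero, zero_add, mul_neg] at d0 d1 d2 d3
  simp only [Fin.sum_univ_succ (n := 8), Fin.sum_univ_eight, Matrix.cons_val_zero,
    Matrix.cons_val_succ, Matrix.cons_val_one, Matrix.cons_val] at d3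
  have c1 := hc (.inr (.inl (0, true)))
  have c2 := hc (.inr (.inl (0, false)))
  have c3 := hc (.inr (.inl (1, true)))
  have c4 := hc (.inr (.inl (1, false)))
  have c5 := hc (.inr (.inl (2, true)))
  have c6 := hc (.inr (.inl (2, false)))
  have e0 := hc (.inr (.inr 0))
  have e1 := hc (.inr (.inr (Fin.succ 0)))
  have e2 := hc (.inr (.inr (Fin.succ 1)))
  have e3 := hc (.inr (.inr (Fin.succ 2)))
  have e4 := hc (.inr (.inr (Fin.succ 3)))
  have e5 := hc (.inr (.inr (Fin.succ 4)))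
  have e6 := hc (.inr (.inr (Fin.succ 5)))
  have e7 := hc (.inr (.inr (Fin.succ 6)))
  have e8 := hc (.inr (.inr (Fin.succ 7)))
  obtain ⟨p0, q0, r0, t0⟩ := b0
  obtain ⟨p1, q1, r1, t1⟩ := b1
  obtain ⟨p2, q2, r2, t2⟩ := b2
  have key : ∃ c : ℤ, 0 ≤ c ∧ c ≤ 3 ∧ (48 : ℤ) ∣ c - (∑ j, χ (.inl (0, j)) * xo 0 j +
      ∑ j, χ (.inl (1, j)) * xo 1 j + ∑ j, χ (.inl (2, j)) * xo 2 j + χ (.inr (.inl (0, false)))) ∧
      (c = 0 → ∑ j, χ (.inl (0, j)) = 0 ∧ ∑ j, χ (.inl (1, j)) = 0 ∧ ∑ j, χ (.inl (2, j)) = 0 ∧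
        χ (.inr (.inl (0, true))) = 0 ∧ χ (.inr (.inl (0, false))) = 0 ∧
        χ (.inr (.inl (1, true))) = 0 ∧ χ (.inr (.inl (1, false))) = 0 ∧
        χ (.inr (.inl (2, true))) = 0 ∧ χ (.inr (.inl (2, false))) = 0) := by
    have r0' := fun h => (r0 h).2
    have r1' := fun h => (r1 h).2
    have r2' := fun h => (r2 h).2
    clear r0 r1 r2 d3 e0 e1 e2 e3 e4 e5 e6 e7 e8 hd hc
    generalize ∑ j, χ (.inl (0, j)) * xo 0 j = S0 at *
    generalize ∑ j, χ (.inl (1, j)) * xo 1 j = S1 at *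
    generalize ∑ j, χ (.inl (2, j)) * xo 2 j = S2 at *
    generalize ∑ j, χ (.inl (0, j)) = a0 at *
    generalize ∑ j, χ (.inl (1, j)) = a1 at *
    generalize ∑ j, χ (.inl (2, j)) = a2 at *
    have ha0 : a0 = 0 ∨ a0 = 46 := by omega
    have ha1 : a1 = 0 ∨ a1 = 46 := by omega
    have ha2 : a2 = 0 ∨ a2 = 46 := by omega
    refine ⟨(if a0 = 0 then 0 else 0) + (if a1 = 0 then 0 else 1) + (if a2 = 0 then 0 else 1) +
      χ (.inr (.inl (0, false))), ?_, ?_, ?_, ?_⟩ <;> split_ifs <;> omega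
  obtain ⟨c, k0, k1, k2, k3⟩ := key
  have hz : c = 0 ∧ χ (.inr (.inr 0)) = 0 ∧ χ (.inr (.inr (Fin.succ 0))) = 0 ∧
      χ (.inr (.inr (Fin.succ 1))) = 0 ∧ χ (.inr (.inr (Fin.succ 2))) = 0 ∧
      χ (.inr (.inr (Fin.succ 3))) = 0 ∧ χ (.inr (.inr (Fin.succ 4))) = 0 ∧
      χ (.inr (.inr (Fin.succ 5))) = 0 ∧ χ (.inr (.inr (Fin.succ 6))) = 0 ∧
      χ (.inr (.inr (Fin.succ 7))) = 0 := by
    clear k3 r0 r1 r2 t0 t1 t2 p0 p1 p2 q0 q1 q2 d0 d1 d2 c1 c2 c3 c4 c5 c6 hd hc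
    omega
  obtain ⟨z, z0, z1, z2, z3, z4, z5, z6, z7, z8⟩ := hz
  obtain ⟨y0, y1, y2, y3, y4, y5, y6, y7, y8⟩ := k3 z
  obtain ⟨t, ht⟩ := hJ
  have h1 : χ t = 1 := by simp [hχ, ht]
  have h0 : χ t = 0 := by
    rcases t with ⟨i, j⟩ | ⟨i, b⟩ | j
    · fin_cases i
      exacts [(r0 y0).1 j, (r1 y1).1 j, (r2 y2).1 j]
    · fin_cases i <;> cases b <;> assumption
    · fin_cases j <;> assumption
  omega

/-- The negation of the preceding statement: For all r ≥ 3 and k ≥ 2, the largest subset of (Z_k)^r with no nonempty subset summing to zero has exactly the size given by the stated lower-bound formula (separate cases for r = 3 and r ≥ 4). -/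
theorem result :
    ¬ (∀ r k : ℕ, 3 ≤ r → 2 ≤ k → ∀ n : ℕ,
      n = (if r = 3 then
              (if k ≤ 3 then 3 * (k - 1)
               else 2 * k + ⌊(Real.sqrt (8 * (k : ℝ) - 31) - 1) / 2⌋₊)
           else
              (if k ≤ r + 1 then r * (k - 1)
               else (r - 1) * k + ⌊(Real.sqrt (8 * ((k : ℝ) - (r : ℝ)) + 1) - 1) / 2⌋₊)) →
      (∃ A : Finset (Fin r → ZMod k), A.card = n ∧
          ∀ B : Finset (Fin r → ZMod k), B ⊆ A → B.Nonempty → ∑ x ∈ B, x ≠ 0) ∧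
      (∀ A : Finset (Fin r → ZMod k),
          (∀ B : Finset (Fin r → ZMod k), B ⊆ A → B.Nonempty → ∑ x ∈ B, x ≠ 0) →
          A.card ≤ n)) := by
  intro h
  have hf : ⌊(Real.sqrt (8 * (((48 : ℕ) : ℝ) - ((4 : ℕ) : ℝ)) + 1) - 1) / 2⌋₊ ≤ 8 := by
    apply Nat.le_of_lt_succ
    rw [Nat.floor_lt' (by norm_num)]
    have : Real.sqrt (8 * (((48 : ℕ) : ℝ) - ((4 : ℕ) : ℝ)) + 1) < 19 := by
      rw [Real.sqrt_lt' (by norm_num)]; norm_num
    have e : ((Nat.succ 8 : ℕ) : ℝ) = 9 := by norm_num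
    rw [e]
    clear h
    generalize Real.sqrt (8 * (((48 : ℕ) : ℝ) - ((4 : ℕ) : ℝ)) + 1) = x at *
    linarith
  have h2 := (h 4 48 (by norm_num) (by norm_num) _ rfl).2 (Finset.univ.image φ) (by
    intro B hB hne
    obtain ⟨J, -, rfl⟩ := Finset.subset_image_iff.1 hB
    rw [Finset.sum_image fun a _ b _ h => φ_inj h]
    exact free J (Finset.image_nonempty.1 hne))
  rw [Finset.card_image_of_injective _ φ_inj, if_neg (by norm_num), if_neg (by norm_num)] at h2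
  have : (Finset.univ : Finset T).card = 153 := by simp
  omega

end Pool.Agent.S11236
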