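import Pool.Statements.S11238

set_option autoImplicit false
open Pool Pool.MP_c1e4cd_co

namespace Pool.Agent.S11238

open Finset

theorem card_fix (n : ℕ) (s : Finset (Fin n)) :
    (univ.filter (fun σ : Equiv.Perm (Fin n) => ∀ x ∈ s, σ x = x)).card =
      (n - s.card).factorial := by
  have h := Fintype.card_congr (Equiv.Perm.subtypeEquivSubtypePerm (fun x : Fin n => x ∉ s))
  rw [Fintype.card_perm, Fintype.card_subtype, Fintype.card_subtype] at h
  have e : (univ.filter (fun x : Fin n => x ∉ s)) = sᶜ := by ext; simp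
  rw [e, card_compl, Fintype.card_fin] at h
  rw [h]
  congr 1
  ext σ
  simp

/-- The negation of the preceding statement: Some C₀>0 works for all n≥1: if A⊆S_n, c=∣A∣/(n-1)!, and 1_A is within mean-square εc/n of the span of 1-coset indicators, then 1_A is within C₀εc/n of a union of round(c) distinct 1-cosets, and ∣c−round(c)∣≤C₀ε. -/
theorem result :
    ¬ (∃ C₀ : ℝ, 0 < C₀ ∧ ∀ n : ℕ, 1 ≤ n → ∀ A : Finset (Equiv.Perm (Fin n)), ∀ ε : ℝ, 0 ≤ ε →
    (∃ a : Fin n → Fin n → ℝ,
      (1 / (n.factorial : ℝ)) * ∑ σ : Equiv.Perm (Fin n),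
          ((if σ ∈ A then (1:ℝ) else 0) - ∑ i : Fin n, a i (σ i)) ^ 2
        ≤ ε * ((A.card : ℝ) / ((n - 1).factorial : ℝ)) / n) →
    ∃ S : Finset (Fin n × Fin n),
      (S.card : ℤ) = round ((A.card : ℝ) / ((n - 1).factorial : ℝ)) ∧
      (1 / (n.factorial : ℝ)) * ∑ σ : Equiv.Perm (Fin n),
          ((if σ ∈ A then (1:ℝ) else 0) - (if ∃ p ∈ S, σ p.1 = p.2 then (1:ℝ) else 0)) ^ 2
        ≤ C₀ * ε * ((A.card : ℝ) / ((n - 1).factorial : ℝ)) / n ∧
      |(A.card : ℝ) / ((n - 1).factorial : ℝ)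
          - ((round ((A.card : ℝ) / ((n - 1).factorial : ℝ)) : ℤ) : ℝ)| ≤ C₀ * ε) := by
  rintro ⟨C₀, hC, H⟩
  obtain ⟨m, hm⟩ := exists_nat_gt (C₀ + 2)
  have hm2 : (2 : ℝ) < m := by linarith
  let u : Fin (m + 2) := 0
  let v : Fin (m + 2) := 1
  have huv : u ≠ v := by simp [u, v]
  let A : Finset (Equiv.Perm (Fin (m + 2))) := univ.filter (fun σ => σ u ≠ u ∧ σ v ≠ v)
  have c1 : (univ.filter (fun σ : Equiv.Perm (Fin (m + 2)) => σ u = u)).card =
      (m + 1).factorial := by
    have := card_fix (m + 2) {u}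
    simpa using this
  have c2 : (univ.filter (fun σ : Equiv.Perm (Fin (m + 2)) => σ v = v)).card =
      (m + 1).factorial := by
    have := card_fix (m + 2) {v}
    simpa using this
  have c3 : (univ.filter (fun σ : Equiv.Perm (Fin (m + 2)) => σ u = u ∧ σ v = v)).card =
      m.factorial := by
    have := card_fix (m + 2) {u, v}
    rw [card_pair huv] at this
    simpa using this
  have hid : ∀ σ : Equiv.Perm (Fin (m + 2)), (if σ ∈ A then (1:ℝ) else 0) =
      1 - (if σ u = u then (1:ℝ) else 0) - (if σ v = v then (1:ℝ) else 0)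
        + (if σ u = u ∧ σ v = v then (1:ℝ) else 0) := by
    intro σ
    by_cases h1 : σ u = u <;> by_cases h2 : σ v = v <;> simp [A, h1, h2]
  have hA : (A.card : ℝ) = (m + 2).factorial - 2 * (m + 1).factorial + m.factorial := by
    have : (A.card : ℝ) = ∑ σ : Equiv.Perm (Fin (m + 2)), (if σ ∈ A then (1:ℝ) else 0) := by
      simp
    rw [this]
    simp only [hid, sum_add_distrib, sum_sub_distrib, sum_boole, c1, c2, c3]
    simp [Fintype.card_perm]
    ring
  have hf : (0 : ℝ) < m.factorial := by exact_mod_cast Nat.factorial_pos m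
  have f1 : ((m + 1).factorial : ℝ) = (m + 1) * m.factorial := by
    rw [Nat.factorial_succ]; push_cast; ring
  have f2 : ((m + 2).factorial : ℝ) = (m + 2) * ((m + 1) * m.factorial) := by
    rw [Nat.factorial_succ (m + 1), Nat.cast_mul, f1]; push_cast; ring
  have hc : (A.card : ℝ) / ((m + 2 - 1).factorial : ℝ) = m + 1 / (m + 1) := by
    have : m + 2 - 1 = m + 1 := by omega
    rw [this, hA, f2, f1]
    field_simp
    ring
  have hcpos : (0 : ℝ) < m + 1 / (m + 1) := by positivity
  have hround : round ((m : ℝ) + 1 / (m + 1)) = m := by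
    rw [round_eq, Int.floor_eq_iff]
    have : (1 : ℝ) / (m + 1) < 1 / 2 := by
      apply one_div_lt_one_div_of_lt <;> linarith
    have h0 : (0 : ℝ) < 1 / (m + 1) := by positivity
    constructor
    · push_cast; linarith
    · push_cast; linarith
  have main := H (m + 2) (by omega) A (1 / ((m + 1) * (m + 1 / (m + 1)))) (by positivity) ?_
  · obtain ⟨S, -, -, h3⟩ := main
    rw [hc, hround] at h3
    have h0 : (0 : ℝ) < 1 / (m + 1) := by positivity
    have e : (m : ℝ) + 1 / (m + 1) - ((m : ℤ) : ℝ) = 1 / (m + 1) := by push_cast; ring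
    rw [e, abs_of_pos h0] at h3
    have h4 : C₀ * (1 / ((m + 1) * (m + 1 / (m + 1)))) =
        (1 / (m + 1)) * (C₀ / (m + 1 / (m + 1))) := by
      field_simp
    rw [h4] at h3
    have h5 : C₀ / (m + 1 / (m + 1)) < 1 := by
      rw [div_lt_one hcpos]; linarith
    nlinarith
  · refine ⟨fun i j => (if i = u then 1 - (if j = u then 1 else 0) else 0)
        - (if i = v then (if j = v then 1 else 0) else 0), ?_⟩
    have hs : ∀ σ : Equiv.Perm (Fin (m + 2)),
        ((if σ ∈ A then (1:ℝ) else 0) - ∑ i : Fin (m + 2),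
          ((if i = u then (1:ℝ) - (if σ i = u then 1 else 0) else 0)
            - (if i = v then (if σ i = v then 1 else 0) else 0))) ^ 2 =
          (if σ u = u ∧ σ v = v then (1:ℝ) else 0) := by
      intro σ
      rw [sum_sub_distrib, sum_ite_eq', sum_ite_eq', hid]
      by_cases h1 : σ u = u <;> by_cases h2 : σ v = v <;> simp [h1, h2]
    simp only [hs, sum_boole, c3]
    rw [hc, f2]
    apply le_of_eq
    push_cast
    field_simp

end Pool.Agent.S11238
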