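import Pool.Statements.S11244
import Pool.Agent.H1.Lamp

set_option autoImplicit false
open Pointwise
open Pool Pool.MP_c21415_co

namespace Pool.Agent.S11244

/-- The negation of the preceding statement: There is an absolute constant c such that for any group and finite A, B with ∣AB∣ < α∣A∣ and ∣AbB∣ ≤ α∣A∣ for every b in B, each h ≥ 1 admits a nonempty X ⊆ A with ∣XB^h∣ ≤ α^(ch)∣X∣. -/
theorem result :
    ¬ (∃ c : ℝ, ∀ (G : Type) [Group G] [DecidableEq G] (A B : Finset G) (α : ℝ),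
      (((A * B).card : ℝ) < α * (A.card : ℝ)) →
      (∀ b ∈ B, (((A * {b} * B).card : ℝ) ≤ α * (A.card : ℝ))) →
      ∀ h : ℕ, 1 ≤ h →
        ∃ X : Finset G, X ⊆ A ∧ X.Nonempty ∧
          (((X * B ^ h).card : ℝ) ≤ α ^ (c * (h : ℝ)) * (X.card : ℝ))) := by
  rintro ⟨c, h⟩
  classical
  obtain ⟨k, hk⟩ := exists_nat_gt ((3 : ℝ) ^ (c * ((5 : ℕ) : ℝ)))
  have hk0 : (0 : ℝ) < k := lt_trans (Real.rpow_pos_of_pos (by norm_num) _) hk
  have hk1 : 0 < k := by exact_mod_cast hk0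
  have : NeZero k := ⟨by omega⟩
  obtain ⟨A, B, hA, h1, h2, h3⟩ := Pool.Agent.H1.Lamp.main k
  have hA' : (A.card : ℝ) = (k : ℝ) ^ 2 := by exact_mod_cast hA
  have hsq : (0 : ℝ) < (k : ℝ) ^ 2 := by positivity
  obtain ⟨X, hX, hne, hc⟩ := h _ A B 3
    (by
      have : ((A * B).card : ℝ) ≤ 2 * (k : ℝ) ^ 2 := by exact_mod_cast h1
      rw [hA']; linarith)
    (by
      intro b hb
      have : ((A * {b} * B).card : ℝ) ≤ 2 * (k : ℝ) ^ 2 := by exact_mod_cast h2 b hb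
      rw [hA']; linarith) 5 (by norm_num)
  have h4 : (B ^ 5).card ≤ (X * B ^ 5).card := Finset.card_le_card_mul_left hne
  have h5 : (k : ℝ) ^ 3 ≤ ((X * B ^ 5).card : ℝ) := by exact_mod_cast h3.trans h4
  have h6 : (X.card : ℝ) ≤ (k : ℝ) ^ 2 := by
    rw [← hA']; exact_mod_cast Finset.card_le_card hX
  have h7 : (3 : ℝ) ^ (c * ((5 : ℕ) : ℝ)) * (X.card : ℝ) ≤ (3 : ℝ) ^ (c * ((5 : ℕ) : ℝ)) * (k : ℝ) ^ 2 :=
    mul_le_mul_of_nonneg_left h6 (Real.rpow_pos_of_pos (by norm_num) _).le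
  have h8 : (3 : ℝ) ^ (c * ((5 : ℕ) : ℝ)) * (k : ℝ) ^ 2 < k * (k : ℝ) ^ 2 :=
    mul_lt_mul_of_pos_right hk hsq
  nlinarith

end Pool.Agent.S11244
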