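import Pool.Statements.S11254
import Pool.Agent.H18.Inv2

set_option autoImplicit false
open Pool Pool.MP_c24a34_co

namespace Pool.Agent.S11254

/-- The negation of the preceding statement: For finite oriented graphs D_1..D_k each with inversion number 1 or even, the inversion number of their join (disjoint union plus all arcs from D_i to D_j for i<j) equals the sum of their inversion numbers. -/
theorem result :
    ¬ (∀ (k : ℕ) (n : Fin k → ℕ) (D : (i : Fin k) → Digraph (Fin (n i))),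
    (∀ (i : Fin k) (a b : Fin (n i)), (D i).Adj a b → ¬ (D i).Adj b a) →
    (∀ i : Fin k,
      sInf {m : ℕ | ∃ X : Fin m → Set (Fin (n i)), ∃ f : Fin (n i) → ℕ, ∀ u v : Fin (n i),
        ((D i).Adj u v ∧ Even (Nat.card {j : Fin m // u ∈ X j ∧ v ∈ X j})) ∨
        ((D i).Adj v u ∧ Odd (Nat.card {j : Fin m // u ∈ X j ∧ v ∈ X j})) → f u < f v} = 1 ∨
      Even (sInf {m : ℕ | ∃ X : Fin m → Set (Fin (n i)), ∃ f : Fin (n i) → ℕ, ∀ u v : Fin (n i),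
        ((D i).Adj u v ∧ Even (Nat.card {j : Fin m // u ∈ X j ∧ v ∈ X j})) ∨
        ((D i).Adj v u ∧ Odd (Nat.card {j : Fin m // u ∈ X j ∧ v ∈ X j})) → f u < f v})) →
    sInf {m : ℕ | ∃ X : Fin m → Set (Σ i : Fin k, Fin (n i)),
        ∃ f : (Σ i : Fin k, Fin (n i)) → ℕ, ∀ u v : (Σ i : Fin k, Fin (n i)),
        ((u.1 < v.1 ∨ ∃ (i : Fin k) (a b : Fin (n i)),
            u = ⟨i, a⟩ ∧ v = ⟨i, b⟩ ∧ (D i).Adj a b) ∧
          Even (Nat.card {j : Fin m // u ∈ X j ∧ v ∈ X j})) ∨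
        ((v.1 < u.1 ∨ ∃ (i : Fin k) (a b : Fin (n i)),
            v = ⟨i, a⟩ ∧ u = ⟨i, b⟩ ∧ (D i).Adj a b) ∧
          Odd (Nat.card {j : Fin m // u ∈ X j ∧ v ∈ X j})) → f u < f v}
    = ∑ i : Fin k,
      sInf {m : ℕ | ∃ X : Fin m → Set (Fin (n i)), ∃ f : Fin (n i) → ℕ, ∀ u v : Fin (n i),
        ((D i).Adj u v ∧ Even (Nat.card {j : Fin m // u ∈ X j ∧ v ∈ X j})) ∨
        ((D i).Adj v u ∧ Odd (Nat.card {j : Fin m // u ∈ X j ∧ v ∈ X j})) → f u < f v}) := by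
  intro H
  obtain ⟨Y, Z, hYZ, hY, hZ⟩ := H18.Inv.good42
  have t1 := H18.Inv.Tn_Tour (H35.Dijoin.gram_symm Y)
  have t2 := H18.Inv.Tn_Tour (H35.Dijoin.gram_symm Z)
  have as : ∀ {T : Fin 80 → Fin 80 → Prop}, H18.Inv.Tour T → ∀ u v, T u v → ¬ T v u := by
    intro T h u v huv
    refine (h.2 u v ?_).1 huv
    rintro rfl
    exact h.1 _ huv
  obtain ⟨B1, s1, e1⟩ := H18.Inv.sub_exact (as t1) 42 (H18.Inv.inv_gt Y hY).le
  obtain ⟨B2, s2, e2⟩ := H18.Inv.sub_exact (as t2) 42 (H18.Inv.inv_gt Z hZ).le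
  let B : Fin 2 → Fin 80 → Fin 80 → Prop := ![B1, B2]
  have e : ∀ i, sInf (H18.Inv.invSet (B i)) = 42 := Fin.forall_fin_two.2 ⟨e1, e2⟩
  have := H 2 (fun _ => 80) (fun i => ⟨B i⟩)
    (Fin.forall_fin_two.2 ⟨fun a b h h' => as t1 _ _ (s1 _ _ h) (s1 _ _ h'),
      fun a b h h' => as t2 _ _ (s2 _ _ h) (s2 _ _ h')⟩)
    (fun i => Or.inr (by
      rw [H18.Inv.invSet_set (B i), e]
      decide))
  simp only [H18.Inv.invSet_set (B _), e] at this
  rw [H18.Inv.invSet_set (V := Σ _ : Fin 2, Fin 80) (fun u v => u.1 < v.1 ∨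
    ∃ (i : Fin 2) (a b : Fin 80), u = ⟨i, a⟩ ∧ v = ⟨i, b⟩ ∧ B i a b)] at this
  refine absurd (this ▸ Nat.sInf_le (H18.Inv.join_mem hYZ _
    (fun u : Σ _ : Fin 2, Fin 80 => if u.1 = 0 then Sum.inl u.2 else Sum.inr u.2) ?_)) (by decide)
  rintro ⟨i, a⟩ ⟨j, b⟩ (h | ⟨k, c, d, h1, h2, h⟩)
  · change i < j at h
    have hi : i = 0 := by omega
    have hj : j = 1 := by omega
    subst hi hj
    exact Sum.Lex.sep _ _
  · cases h1
    cases h2
    revert h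
    refine Fin.cases (fun h => ?_) (fun i h => ?_) i
    · exact Sum.Lex.inl (s1 _ _ h)
    · obtain rfl : i = 0 := Subsingleton.elim _ _
      exact Sum.Lex.inr (s2 _ _ h)

end Pool.Agent.S11254
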