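import Pool.Statements.S11268
import Pool.Agent.H32.SqCycle

set_option autoImplicit false
open Pool Pool.MP_c32a86_co

namespace Pool.Agent.S11268

/-- The negation of the preceding statement: For every ε>0 and every r>1 there is a finite group G and an r-coloring of G such that, for every center c and color i, fewer than ε·∣G∣ elements x have both x and c x⁻¹ c of color i. -/
theorem result :
    ¬ (∀ ε : ℝ, 0 < ε → ∀ r : ℕ, 1 < r →
      ∃ (G : Type) (_ : Group G) (_ : Fintype G), ∃ χ : G → Fin r,
        ∀ c : G, ∀ i : Fin r,
          ((Finset.univ.filter (fun x : G => χ x = i ∧ χ (c * x⁻¹ * c) = i)).card : ℝ)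
            < ε * (Fintype.card G : ℝ)) := by
  exact Pool.Agent.H32.SqCycle.main

end Pool.Agent.S11268
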