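import Pool.Statements.S11286
-- import your own Pool.Agent.* helpers here

set_option autoImplicit false
open Pool Pool.MP_c40d78_co

namespace Pool.Agent.S11286

/-- three points on a circle about the origin in the plane z = 0, three points on the z-axis -/
noncomputable def pts : Fin (2 * 3) → EuclideanSpace ℝ (Fin 3) :=
  ![!₂[440, 0, 0], !₂[-264, 352, 0], !₂[-264, -352, 0], !₂[0, 0, 0], !₂[0, 0, 42], !₂[0, 0, -42]]

/-- dual potentials certifying that the matching is max-sum -/
def pot : Fin (2 * 3) → ℝ := ![396, 396, 396, 44, 46, 46]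

/-- the matching -/
def sig : Equiv.Perm (Fin (2 * 3)) := Equiv.swap 0 3 * Equiv.swap 1 4 * Equiv.swap 2 5

lemma dist_le (i j : Fin (2 * 3)) (h : i ≠ j) : dist (pts i) (pts j) ≤ pot i + pot j := by
  rw [EuclideanSpace.dist_eq, Real.sqrt_le_iff]
  fin_cases i <;> fin_cases j <;> first
    | exact absurd rfl h
    | (simp [pts, pot, Fin.sum_univ_three, Real.dist_eq, sq_abs] <;> norm_num)

lemma sig_val : sig 0 = 3 ∧ sig 1 = 4 ∧ sig 2 = 5 ∧ sig 3 = 0 ∧ sig 4 = 1 ∧ sig 5 = 2 := by
  decide

lemma dist_sig (i : Fin (2 * 3)) : dist (pts i) (pts (sig i)) = pot i + pot (sig i) := by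
  obtain ⟨h0, h1, h2, h3, h4, h5⟩ := sig_val
  have key : ∀ a b : Fin (2 * 3), 0 ≤ pot a + pot b →
      ∑ k, (pts a k - pts b k) ^ 2 = (pot a + pot b) ^ 2 →
      dist (pts a) (pts b) = pot a + pot b := by
    intro a b h0 h
    rw [EuclideanSpace.dist_eq]
    simp only [Real.dist_eq, sq_abs]
    rw [h, Real.sqrt_sq h0]
  fin_cases i
  · show dist (pts 0) (pts (sig 0)) = pot 0 + pot (sig 0)
    rw [h0]; apply key <;> simp [pts, pot, Fin.sum_univ_three] <;> norm_num
  · show dist (pts 1) (pts (sig 1)) = pot 1 + pot (sig 1)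
    rw [h1]; apply key <;> simp [pts, pot, Fin.sum_univ_three] <;> norm_num
  · show dist (pts 2) (pts (sig 2)) = pot 2 + pot (sig 2)
    rw [h2]; apply key <;> simp [pts, pot, Fin.sum_univ_three] <;> norm_num
  · show dist (pts 3) (pts (sig 3)) = pot 3 + pot (sig 3)
    rw [h3]; apply key <;> simp [pts, pot, Fin.sum_univ_three] <;> norm_num
  · show dist (pts 4) (pts (sig 4)) = pot 4 + pot (sig 4)
    rw [h4]; apply key <;> simp [pts, pot, Fin.sum_univ_three] <;> norm_num
  · show dist (pts 5) (pts (sig 5)) = pot 5 + pot (sig 5)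
    rw [h5]; apply key <;> simp [pts, pot, Fin.sum_univ_three] <;> norm_num

lemma pts_inj : Function.Injective pts := by
  intro i j h
  have h0 := congrArg (fun v => v 0) h
  have h1 := congrArg (fun v => v 1) h
  have h2 := congrArg (fun v => v 2) h
  fin_cases i <;> fin_cases j <;> first
    | rfl
    | (exfalso; revert h0 h1 h2; simp [pts]; done)
    | (exfalso; revert h0 h1 h2; simp [pts]; norm_num)

lemma ball_iff (x a b : EuclideanSpace ℝ (Fin 3)) (h : dist x (midpoint ℝ a b) < dist a b / 2) :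
    (x 0 - a 0) * (x 0 - b 0) + (x 1 - a 1) * (x 1 - b 1) + (x 2 - a 2) * (x 2 - b 2) < 0 := by
  have h1 : dist x (midpoint ℝ a b) ^ 2 < (dist a b / 2) ^ 2 :=
    pow_lt_pow_left₀ h dist_nonneg (by norm_num)
  rw [div_pow, EuclideanSpace.dist_sq_eq, EuclideanSpace.dist_sq_eq] at h1
  simp only [Fin.sum_univ_three, Real.dist_eq, sq_abs, midpoint_eq_smul_add, PiLp.smul_apply,
    PiLp.add_apply, smul_eq_mul, invOf_eq_inv] at h1
  nlinarith

/-- The negation of the preceding statement: For any dimension d and any 2n distinct points in R^d, every perfect matching maximizing the total Euclidean length of its edges has a point lying in all open balls whose diameters are the matched edges. -/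
theorem result :
    ¬ (∀ (d n : ℕ) (p : Fin (2 * n) → EuclideanSpace ℝ (Fin d)), Function.Injective p →
      ∀ σ : Equiv.Perm (Fin (2 * n)), (∀ i, σ (σ i) = i) → (∀ i, σ i ≠ i) →
        (∀ τ : Equiv.Perm (Fin (2 * n)), (∀ i, τ (τ i) = i) → (∀ i, τ i ≠ i) →
          ∑ i, dist (p i) (p (τ i)) ≤ ∑ i, dist (p i) (p (σ i))) →
        ∃ x : EuclideanSpace ℝ (Fin d), ∀ i,
          dist x (midpoint ℝ (p i) (p (σ i))) < dist (p i) (p (σ i)) / 2) := by
  intro H
  obtain ⟨h0, h1, h2, h3, h4, h5⟩ := sig_val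
  obtain ⟨x, hx⟩ := H 3 3 pts pts_inj sig (by decide) (by decide) (by
    intro τ _ hτ
    calc ∑ i, dist (pts i) (pts (τ i)) ≤ ∑ i, (pot i + pot (τ i)) :=
          Finset.sum_le_sum fun i _ => dist_le i _ (hτ i).symm
      _ = ∑ i, (pot i + pot (sig i)) := by
          rw [Finset.sum_add_distrib, Finset.sum_add_distrib, Equiv.sum_comp τ pot,
            Equiv.sum_comp sig pot]
      _ = ∑ i, dist (pts i) (pts (sig i)) := by simp only [dist_sig])
  have a0 := ball_iff _ _ _ (hx 0)
  have a1 := ball_iff _ _ _ (hx 1)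
  have a2 := ball_iff _ _ _ (hx 2)
  rw [h0] at a0
  rw [h1] at a1
  rw [h2] at a2
  simp [pts] at a0 a1 a2
  nlinarith [sq_nonneg (x 0), sq_nonneg (x 1), sq_nonneg (x 2)]

end Pool.Agent.S11286
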