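import Pool.Statements.S11298
import Pool.Agent.H22.ChromRam

set_option autoImplicit false
open Pool Pool.MP_c4704f_co

namespace Pool.Agent.S11298

/-- The negation of the preceding statement: There is c>0 such that for every finite graph G with an edge and every vertex v, the chromatic Ramsey number of G minus v is at least c times the chromatic Ramsey number of G. -/
theorem result :
    ¬ (∃ c : ℝ, 0 < c ∧
      ∀ (n : ℕ) (G : SimpleGraph (Fin (n + 1))) (v : Fin (n + 1)),
        G.edgeSet.Nonempty →
          c * ((sInf {N : ℕ | ∃ (m : ℕ) (H : SimpleGraph (Fin m)), H.Colorable N ∧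
                ∀ col : Fin m → Fin m → Bool, (∀ a b, col a b = col b a) →
                  ∃ (f : Fin (n + 1) → Fin m) (b : Bool),
                  Function.Injective f ∧
                  ∀ x y : Fin (n + 1), G.Adj x y →
                    H.Adj (f x) (f y) ∧ col (f x) (f y) = b} : ℕ) : ℝ)
            ≤ ((sInf {N : ℕ | ∃ (m : ℕ) (H : SimpleGraph (Fin m)), H.Colorable N ∧
                ∀ col : Fin m → Fin m → Bool, (∀ a b, col a b = col b a) →
                  ∃ (f : Fin n → Fin m) (b : Bool),
                  Function.Injective f ∧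
                  ∀ x y : Fin n, G.Adj (v.succAbove x) (v.succAbove y) →
                    H.Adj (f x) (f y) ∧ col (f x) (f y) = b} : ℕ) : ℝ)) := by
  rintro ⟨c, hc, h⟩
  obtain ⟨k, hk⟩ := exists_pow_lt_of_lt_one (x := c / 10) (y := (4 / 5 : ℝ)) (by positivity) (by norm_num)
  have h4 : (1 : ℝ) ≤ 4 ^ k := one_le_pow₀ (by norm_num)
  have e16 : (16 : ℝ) ^ k = 4 ^ k * 4 ^ k := by rw [← mul_pow]; norm_num
  obtain ⟨n, r, n0, hQ, hs, hi, harr⟩ := H22.ChromRam.core (l := 4 ^ k) (N := 10 * 16 ^ k) h4
    (by push_cast; rw [e16]; nlinarith)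
  have h1 := h n (H22.ChromRam.cone r hs) 0 ⟨s(0, Fin.succ ⟨0, n0⟩),
    (SimpleGraph.mem_edgeSet _).2 (H22.ChromRam.cone_zero r hs _)⟩
  have lo : 20 ^ k ≤ sInf {N : ℕ | ∃ (m : ℕ) (H : SimpleGraph (Fin m)), H.Colorable N ∧
                ∀ col : Fin m → Fin m → Bool, (∀ a b, col a b = col b a) →
                  ∃ (f : Fin (n + 1) → Fin m) (b : Bool),
                  Function.Injective f ∧
                  ∀ x y : Fin (n + 1), (H22.ChromRam.cone r hs).Adj x y →
                    H.Adj (f x) (f y) ∧ col (f x) (f y) = b} := by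
    refine le_csInf (H22.ChromRam.host_any _) ?_
    rintro N ⟨m, H, a1, a2⟩
    exact H22.ChromRam.lower r hs hi hQ N m H a1 a2
  have up : sInf {N : ℕ | ∃ (m : ℕ) (H : SimpleGraph (Fin m)), H.Colorable N ∧
                ∀ col : Fin m → Fin m → Bool, (∀ a b, col a b = col b a) →
                  ∃ (f : Fin n → Fin m) (b : Bool),
                  Function.Injective f ∧
                  ∀ x y : Fin n, (H22.ChromRam.cone r hs).Adj ((0 : Fin (n + 1)).succAbove x)
                      ((0 : Fin (n + 1)).succAbove y) →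
                    H.Adj (f x) (f y) ∧ col (f x) (f y) = b} ≤ 10 * 16 ^ k := by
    apply Nat.sInf_le
    obtain ⟨m, H, a1, a2⟩ := H22.ChromRam.upper r harr
    refine ⟨m, H, a1, fun col hcol => ?_⟩
    obtain ⟨f, b, b1, b2⟩ := a2 col hcol
    refine ⟨f, b, b1, fun x y hxy => b2 x y ?_⟩
    rw [Fin.succAbove_zero] at hxy
    exact (H22.ChromRam.cone_succ r hs hi x y).1 hxy
  have lo' := (Nat.cast_le (α := ℝ)).2 lo
  have up' := (Nat.cast_le (α := ℝ)).2 up
  have f1 := (mul_le_mul_of_nonneg_left lo' hc.le).trans (h1.trans up')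
  push_cast at f1
  have e20 : (16 : ℝ) ^ k = (4 / 5) ^ k * 20 ^ k := by rw [← mul_pow]; norm_num
  have p20 : (0 : ℝ) < 20 ^ k := by positivity
  rw [e20] at f1
  nlinarith

end Pool.Agent.S11298
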