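import Pool.Statements.S11334
import Pool.Agent.H81.Ins2

set_option autoImplicit false
open Pool Pool.MP_c611ca_co

namespace Pool.Agent.S11334

open Set Module Pool.Agent.H81.Ins

section
variable {d : ℕ} {ι : Type}

lemma face (p : ι → E d) (l : E d →L[ℝ] ℝ) {c : ℝ} (h : ∀ i, l (p i) ≤ c) :
    IsExposed ℝ (convexHull ℝ (range p)) (convexHull ℝ (p '' {i | l (p i) = c})) := by
  have hx := expo (S := range p) l (c := c) (by rintro _ ⟨i, rfl⟩; exact h i)
  have : range p ∩ {x ∈ convexHull ℝ (range p) | l x = c} = p '' {i | l (p i) = c} := by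
    ext v
    refine ⟨?_, ?_⟩
    · rintro ⟨⟨i, rfl⟩, -, e⟩; exact ⟨i, e, rfl⟩
    · rintro ⟨i, e, rfl⟩; exact ⟨⟨i, rfl⟩, subset_convexHull ℝ _ ⟨i, rfl⟩, e⟩
  rwa [supp hx, this] at hx

lemma edge (p : ι → E d) (l : E d →L[ℝ] ℝ) {a b : ι} (e : l (p b) = l (p a))
    (h : ∀ i, i ≠ a → i ≠ b → l (p i) < l (p a)) :
    IsExtreme ℝ (convexHull ℝ (range p)) (segment ℝ (p a) (p b)) := by
  have := (face p l (c := l (p a)) fun i => by
    by_cases h1 : i = a
    · rw [h1]
    by_cases h2 : i = b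
    · rw [h2, e]
    exact (h i h1 h2).le).isExtreme
  have s : {i | l (p i) = l (p a)} = {a, b} := by
    ext i
    refine ⟨fun k => by_contra fun n => ?_, ?_⟩
    · simp only [mem_insert_iff, mem_singleton_iff, not_or] at n
      exact (h i n.1 n.2).ne k
    · rintro (rfl | rfl)
      exacts [rfl, e]
  rwa [s, image_pair, convexHull_pair] at this

lemma vert (p : ι → E d) (l : E d →L[ℝ] ℝ) {a : ι} (h : ∀ i, i ≠ a → l (p i) < l (p a)) :
    p a ∈ (convexHull ℝ (range p)).extremePoints ℝ := by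
  have := edge p l (a := a) (b := a) rfl fun i k _ => h i k
  rwa [segment_same, isExtreme_singleton] at this

lemma nonedge {K : Set (E d)} {x y z w u : E d} (h : IsExtreme ℝ K (segment ℝ x y))
    (hw : w ∈ K.extremePoints ℝ) (hu : u ∈ K) (hz : z ∈ segment ℝ x y)
    (k : z ∈ openSegment ℝ w u) : x = w ∨ y = w :=
  (mem_extremePoints_iff_forall_segment.mp hw).2 _ (h.1 (left_mem_segment ℝ x y)) _
    (h.1 (right_mem_segment ℝ x y)) (h.2 hw.1 hu hz k)

lemma top {W : Submodule ℝ (E d)} (h : ∀ k, ∃ t : ℝ, t ≠ 0 ∧ EuclideanSpace.single k t ∈ W) :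
    W = ⊤ := by
  refine eq_top_iff.mpr fun x _ => ?_
  choose t t0 ht using h
  have : x = ∑ k, (x k / t k) • EuclideanSpace.single k (t k) := by
    ext j; simp [Pi.single_apply, t0]
  rw [this]
  exact W.sum_mem fun k _ => W.smul_mem _ (ht k)

noncomputable def cv (a : Fin d → ℤ) : E d := WithLp.toLp 2 fun k => (a k : ℝ)

def dt (a b : Fin d → ℤ) : ℤ := ∑ k, a k * b k

lemma lf (a b : Fin d → ℤ) : innerSL ℝ (cv a) (cv b) = (dt a b : ℝ) := by
  simp [cv, dt, PiLp.inner_apply, mul_comm]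

lemma cv_inj {a b : Fin d → ℤ} (h : cv a = cv b) : a = b :=
  funext fun k => by simpa [cv] using congrArg (· k) h

noncomputable def eqv (p : ι → E d) (hp : Function.Injective p)
    (h : ∀ a, p a ∈ (convexHull ℝ (range p)).extremePoints ℝ) :
    ι ≃ (convexHull ℝ (range p)).extremePoints ℝ :=
  Equiv.ofBijective (fun a => ⟨p a, h a⟩) ⟨fun _ _ e => hp (congrArg Subtype.val e), fun x => by
    obtain ⟨a, e⟩ := extremePoints_convexHull_subset x.2
    exact ⟨a, Subtype.ext e⟩⟩
end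

abbrev I := Fin 6 × Bool
abbrev J := I ⊕ Fin 20

def sg (b : Bool) : ℤ := if b then 1 else -1

def T : Fin 20 → Fin 6 → ℤ :=
  ![![1, 1, 1, -1, -1, -1], ![1, 1, -1, 1, -1, -1], ![1, 1, -1, -1, 1, -1],
    ![1, 1, -1, -1, -1, 1], ![1, -1, 1, 1, -1, -1], ![1, -1, 1, -1, 1, -1],
    ![1, -1, 1, -1, -1, 1], ![1, -1, -1, 1, 1, -1], ![1, -1, -1, 1, -1, 1],
    ![1, -1, -1, -1, 1, 1], ![-1, 1, 1, 1, -1, -1], ![-1, 1, 1, -1, 1, -1],
    ![-1, 1, 1, -1, -1, 1], ![-1, 1, -1, 1, 1, -1], ![-1, 1, -1, 1, -1, 1],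
    ![-1, 1, -1, -1, 1, 1], ![-1, -1, 1, 1, 1, -1], ![-1, -1, 1, 1, -1, 1],
    ![-1, -1, 1, -1, 1, 1], ![-1, -1, -1, 1, 1, 1]]

def p (a : I) (k : Fin 5) : ℤ := if a.1 = 5 then -sg a.2 else if k.castSucc = a.1 then sg a.2 else 0

def q : J → Fin 6 → ℤ
  | .inl a, k => if k = a.1 then 5 * sg a.2 else 0
  | .inr b, k => T b k

def adj : J → J → Bool
  | .inl a, .inl b => a.1 ≠ b.1
  | .inl a, .inr b => T b a.1 = sg a.2
  | .inr b, .inl a => T b a.1 = sg a.2
  | .inr _, .inr _ => false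

def Lp (a b : I) (k : Fin 5) : ℤ := if k.castSucc = a.1 then 2 * sg a.2 else
  if k.castSucc = b.1 then 2 * sg b.2 else -(sg a.2 + sg b.2) / 2

def Vp (a : I) (k : Fin 5) : ℤ := if k.castSucc = a.1 then 5 * sg a.2 else -sg a.2

def Lq : J → J → Fin 6 → ℤ
  | .inl a, .inl b, k => q (.inl a) k + q (.inl b) k
  | .inl a, .inr b, k => q (.inl a) k + 20 * T b k
  | .inr b, .inl a, k => q (.inl a) k + 20 * T b k
  | .inr _, .inr _, _ => 0

def Tp (b : Fin 20) (k : Fin 5) : ℤ := T b k.castSucc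

lemma d1 : ∀ a i, i ≠ a → dt (Vp a) (p i) < dt (Vp a) (p a) := by decide +kernel
lemma d2 : ∀ a i, i ≠ a → dt (q a) (q i) < dt (q a) (q a) := by decide +kernel
lemma d3 : ∀ a b : I, a.1 ≠ b.1 → dt (Lp a b) (p b) = dt (Lp a b) (p a) ∧
    ∀ i, i ≠ a → i ≠ b → dt (Lp a b) (p i) < dt (Lp a b) (p a) := by decide +kernel
lemma d4 : ∀ a b, adj a b → dt (Lq a b) (q b) = dt (Lq a b) (q a) ∧
    ∀ i, i ≠ a → i ≠ b → dt (Lq a b) (q i) < dt (Lq a b) (q a) := by decide +kernel
lemma d5 : ∀ a b : I, a ≠ b → a.1 = b.1 → ∃ c e, c ≠ a ∧ c ≠ b ∧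
    ∀ k, p a k + p b k = p c k + p e k := by decide +kernel
lemma d6 : ∀ a b, a ≠ b → ¬ adj a b → ∃ c, c ≠ a ∧ c ≠ b ∧
    ∑ k, |11 * (q a k + q b k) - q c k| ≤ 105 := by decide +kernel
lemma d7 : ∀ b a, dt (Tp b) (p a) ≤ 1 ∧ (dt (Tp b) (p a) = 1 ↔ T b a.1 = sg a.2) := by
  decide +kernel
lemma d8 : ∀ b c, (∀ a : I, T b a.1 = sg a.2 → T c a.1 = sg a.2) → b = c := by decide +kernel
lemma d9 : ∀ s : Fin 6 → Bool, ∑ i, sg (s i) = 0 → ∃ b, ∀ i, T b i = sg (s i) := by
  decide +kernel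
lemma d10 : ∀ a b, adj a b = adj b a ∧ (adj a b → a ≠ b) := by decide +kernel
lemma d11 : ∀ b (k : Fin 5), ∃ a : I, T b a.1 = sg a.2 ∧ sg a.2 ≠ 0 ∧
    ∀ j, p a j = if j = k then sg a.2 else 0 := by decide +kernel

noncomputable abbrev P (a : I) : E 5 := cv (p a)
noncomputable abbrev Q (a : J) : E 6 := cv (q a)

lemma vP (a : I) : P a ∈ (convexHull ℝ (range P)).extremePoints ℝ :=
  vert P (innerSL ℝ (cv (Vp a))) fun i h => by rw [lf, lf]; exact_mod_cast d1 a i h

lemma vQ (a : J) : Q a ∈ (convexHull ℝ (range Q)).extremePoints ℝ :=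
  vert Q (innerSL ℝ (Q a)) fun i h => by rw [lf, lf]; exact_mod_cast d2 a i h

lemma iP : Function.Injective P := fun a b e => by_contra fun h => by
  have := d1 b a h
  rw [cv_inj e] at this
  exact lt_irrefl _ this

lemma iQ : Function.Injective Q := fun a b e => by_contra fun h => by
  have := d2 b a h
  rw [cv_inj e] at this
  exact lt_irrefl _ this

lemma eP {a b : I} (h : a ≠ b) :
    IsExtreme ℝ (convexHull ℝ (range P)) (segment ℝ (P a) (P b)) ↔ a.1 ≠ b.1 := by
  refine ⟨fun k e => ?_, fun k => edge P (innerSL ℝ (cv (Lp a b)))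
    (by rw [lf, lf, (d3 a b k).1]) fun i h1 h2 => by
      rw [lf, lf]; exact_mod_cast (d3 a b k).2 i h1 h2⟩
  obtain ⟨c, e, h1, h2, h3⟩ := d5 a b h e
  rcases nonedge k (vP c) (vP e).1 (z := (1 / 2 : ℝ) • P a + (1 / 2 : ℝ) • P b)
    ⟨_, _, by norm_num, by norm_num, by norm_num, rfl⟩
    ⟨1 / 2, 1 / 2, by norm_num, by norm_num, by norm_num, by
      ext j
      have : (p a j : ℝ) + p b j = p c j + p e j := by exact_mod_cast h3 j
      simp [cv]; linarith⟩ with h | h
  exacts [h1 (iP h).symm, h2 (iP h).symm]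

lemma l1 {z : E 6} (h : ∑ k, |z k| ≤ 5) : z ∈ convexHull ℝ (range Q) := by
  obtain ⟨s, hs⟩ : ∃ s, s = ∑ k, |z k| := ⟨_, rfl⟩
  have e : z = ∑ a : I, ((|z a.1| + sg a.2 * z a.1) / 10 + (5 - s) / 60) • Q (.inl a) := by
    ext j
    simp [Fintype.sum_prod_type, cv, q, sg, Finset.sum_add_distrib]
    ring
  rw [e]
  refine (convex_convexHull ℝ _).sum_mem (fun a _ => ?_) ?_ fun a _ => (vQ _).1
  · have := abs_le.mp (le_refl |z a.1|)
    rcases a with ⟨i, _ | _⟩ <;> simp only [sg] at * <;> push_cast <;> linarith [this.1, this.2]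
  · simp only [Fintype.sum_prod_type, Fin.sum_univ_six, Fintype.sum_bool, sg] at hs ⊢
    push_cast
    linarith

lemma eQ {a b : J} (h : a ≠ b) :
    IsExtreme ℝ (convexHull ℝ (range Q)) (segment ℝ (Q a) (Q b)) ↔ adj a b := by
  refine ⟨fun k => by_contra fun e => ?_, fun k => edge Q (innerSL ℝ (cv (Lq a b)))
    (by rw [lf, lf, (d4 a b k).1]) fun i h1 h2 => by
      rw [lf, lf]; exact_mod_cast (d4 a b k).2 i h1 h2⟩
  obtain ⟨c, h1, h2, h3⟩ := d6 a b h e
  rcases nonedge k (vQ c) (u := (1 / 21 : ℝ) • cv fun k => 11 * (q a k + q b k) - q c k)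
    (l1 (by
      have : ∑ k, |((11 * (q a k + q b k) - q c k : ℤ) : ℝ)| ≤ 105 := by exact_mod_cast h3
      simp only [cv, PiLp.smul_apply, smul_eq_mul, abs_mul, ← Finset.mul_sum]
      rw [abs_of_pos (by norm_num)]
      linarith))
    (z := (1 / 2 : ℝ) • Q a + (1 / 2 : ℝ) • Q b)
    ⟨_, _, by norm_num, by norm_num, by norm_num, rfl⟩
    ⟨1 / 22, 21 / 22, by norm_num, by norm_num, by norm_num, by ext j; simp [cv]; ring⟩ with h | h
  exacts [h1 (iQ h).symm, h2 (iQ h).symm]

lemma vs (S : Set (E 5)) : vectorSpan ℝ (convexHull ℝ S) = vectorSpan ℝ S := by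
  rw [← direction_affineSpan, affineSpan_convexHull, direction_affineSpan]

lemma tP : vectorSpan ℝ (range P) = ⊤ := top fun k => ⟨2, two_ne_zero, by
  convert vsub_mem_vectorSpan ℝ (mem_range_self (f := P) (k.castSucc, true))
    (mem_range_self (k.castSucc, false))
  ext j
  have : k.castSucc ≠ 5 := by revert k; decide
  by_cases h : j = k <;> simp [cv, p, sg, this, h] <;> norm_num⟩

lemma tQ : vectorSpan ℝ (range Q) = ⊤ := top fun k => ⟨10, by norm_num, by
  convert vsub_mem_vectorSpan ℝ (mem_range_self (f := Q) (.inl (k, true)))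
    (mem_range_self (.inl (k, false)))
  ext j
  by_cases h : j = k <;> simp [cv, q, sg, h] <;> norm_num⟩

def Fb (b : Fin 20) : Set (E 5) := convexHull ℝ (P '' {a | T b a.1 = sg a.2})

lemma lT (b : Fin 20) (a : I) : innerSL ℝ (cv (Tp b)) (P a) = 1 ↔ T b a.1 = sg a.2 := by
  rw [lf, ← (d7 b a).2]; norm_cast

lemma lF (b : Fin 20) : ∀ x ∈ Fb b, innerSL ℝ (cv (Tp b)) x = 1 :=
  convexHull_min (by rintro _ ⟨a, h, rfl⟩; exact (lT b a).mpr h)
    (convex_hyperplane (innerSL ℝ (cv (Tp b))).toLinearMap.isLinear 1)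

lemma mF (b : Fin 20) (a : I) : P a ∈ Fb b ↔ T b a.1 = sg a.2 :=
  ⟨fun h => (lT b a).mp (lF b _ h), fun h => subset_convexHull ℝ _ ⟨a, h, rfl⟩⟩

lemma fF (b : Fin 20) : IsExposed ℝ (convexHull ℝ (range P)) (Fb b) ∧
    finrank ℝ (vectorSpan ℝ (Fb b)) = 4 := by
  refine ⟨?_, le_antisymm ?_ ?_⟩
  · have := face P (innerSL ℝ (cv (Tp b))) (c := 1) fun a => by
      rw [lf]; exact_mod_cast (d7 b a).1
    simp only [lT] at this
    exact this
  · obtain ⟨a, ha, -⟩ := d11 b 0
    have h1 : vectorSpan ℝ (Fb b) ≠ ⊤ := fun e => by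
      have : vectorSpan ℝ (Fb b) ≤ LinearMap.ker (innerSL ℝ (cv (Tp b))).toLinearMap := by
        rw [vectorSpan_def, Submodule.span_le]
        rintro _ ⟨x, hx, y, hy, rfl⟩
        show innerSL ℝ (cv (Tp b)) (x - y) = 0
        rw [map_sub, lF b x hx, lF b y hy, sub_self]
      have h0 : innerSL ℝ (cv (Tp b)) (P a) = 0 := this (e ▸ Submodule.mem_top)
      rw [(lT b a).mpr ha] at h0
      exact one_ne_zero h0
    have := Submodule.finrank_lt h1
    simp only [finrank_euclideanSpace, Fintype.card_fin] at this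
    omega
  · have h1 : vectorSpan ℝ (insert 0 (P '' {a | T b a.1 = sg a.2})) = ⊤ := top fun k => by
      obtain ⟨a, ha, h0, h⟩ := d11 b k
      refine ⟨sg a.2, by exact_mod_cast h0, ?_⟩
      convert vsub_mem_vectorSpan ℝ (mem_insert_of_mem _ (mem_image_of_mem P (show a ∈
        {a : I | T b a.1 = sg a.2} from ha))) (mem_insert (0 : E 5) _)
      ext j
      by_cases e : j = k <;> simp [cv, h, e]
    have := finrank_vectorSpan_insert_le_set ℝ (P '' {a | T b a.1 = sg a.2}) 0
    rw [h1, finrank_top, finrank_euclideanSpace, Fintype.card_fin] at this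
    rw [Fb, vs]
    omega

lemma cF {F : Set (E 5)} (h : IsExposed ℝ (convexHull ℝ (range P)) F)
    (hd : finrank ℝ (vectorSpan ℝ F) = 4) : ∃ b, Fb b = F := by
  classical
  rcases F.eq_empty_or_nonempty with rfl | ⟨x, hx⟩
  · rw [vectorSpan_empty, finrank_bot] at hd
    omega
  have hs := supp h
  obtain ⟨l, hl⟩ := h ⟨x, hx⟩
  obtain ⟨c, hc⟩ : ∃ c, c = l x := ⟨_, rfl⟩
  have hx' := hl.subset hx
  have le : ∀ a, l (P a) ≤ c := fun a => hc ▸ hx'.2 _ (vP a).1
  let A := Finset.univ.filter fun a => l (P a) = c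
  have hA : F = convexHull ℝ (P '' A) := by
    rw [hs]
    congr 1
    ext v
    refine ⟨?_, ?_⟩
    · rintro ⟨⟨a, rfl⟩, k⟩
      exact ⟨a, by simpa [A] using (le a).antisymm (hc ▸ (hl.subset k).2 _ hx'.1), rfl⟩
    · rintro ⟨a, k, rfl⟩
      have k : l (P a) = c := by simpa [A] using k
      exact ⟨⟨a, rfl⟩, hl.symm.subset ⟨(vP a).1, fun y hy => k ▸ hc ▸ hx'.2 y hy⟩⟩
  rw [hA, vs] at hd
  obtain ⟨y, hy⟩ : ∃ y : Fin 6 → ℝ, ∀ a, l (P a) = sg a.2 * y a.1 :=
    ⟨fun i => l (P (i, true)), fun a => by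
      rw [← smul_eq_mul, ← map_smul]
      congr 1
      ext j
      simp only [cv, p, PiLp.smul_apply, smul_eq_mul]
      split_ifs <;> simp [sg]⟩
  have s0 : ∑ i, y i = 0 := by
    have : ∑ i, P (i, true) = 0 := by
      ext j
      have : ∑ i, p (i, true) j = 0 := by revert j; decide
      simpa [cv] using congrArg (Int.cast : ℤ → ℝ) this
    simpa [hy, sg] using congrArg l this
  have b1 : ∀ i, y i ≤ c := fun i => by simpa [hy, sg] using le (i, true)
  have b2 : ∀ i, -y i ≤ c := fun i => by simpa [hy, sg] using le (i, false)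
  have c0 : 0 < c := by
    by_contra n
    have : A = Finset.univ := Finset.eq_univ_of_forall fun a => by
      have : y a.1 = 0 := by linarith [b1 a.1, b2 a.1]
      simp only [A, Finset.mem_filter, Finset.mem_univ, true_and, hy, this, mul_zero]
      linarith [b1 a.1, b2 a.1]
    rw [this, Finset.coe_univ, image_univ, tP] at hd
    simp at hd
  have h5 : 5 ≤ A.card := by
    by_contra n
    rcases Nat.eq_zero_or_eq_succ_pred A.card with e | e
    · rw [Finset.card_eq_zero.mp e, Finset.coe_empty, image_empty, vectorSpan_empty,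
        finrank_bot] at hd
      omega
    · have := finrank_vectorSpan_image_finset_le ℝ P A e
      rw [Finset.coe_image, hd] at this
      omega
  have mA : ∀ a, a ∈ A ↔ sg a.2 * y a.1 = c := fun a => by simp [A, hy]
  have h6 : (A.image Prod.fst).card = A.card := Finset.card_image_of_injOn <| by
    rintro ⟨i, s⟩ h1 ⟨j, t⟩ h2 (rfl : i = j)
    have h1 := (mA _).mp h1
    have h2 := (mA _).mp h2
    cases s <;> cases t <;> simp [sg] at h1 h2 ⊢ <;> linarith
  obtain ⟨j, hj⟩ := Finset.card_le_one_iff_subset_singleton.mp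
    (show (A.image Prod.fst)ᶜ.card ≤ 1 by rw [Finset.card_compl, h6, Fintype.card_fin]; omega)
  have h7 : ∀ i, i ≠ j → y i = c ∨ y i = -c := fun i hi => by
    have : i ∈ A.image Prod.fst := by_contra fun n => hi (by simpa using hj (by simpa using n))
    obtain ⟨⟨_, s⟩, h1, rfl⟩ := Finset.mem_image.mp this
    have h1 := (mA _).mp h1
    cases s <;> simp [sg] at h1 ⊢ <;> [right; left] <;> linarith
  have h8 : ∀ i, y i = c ∨ y i = -c := fun i => by
    by_cases hi : i = j
    · have t := fun k : Fin 5 => h7 _ (Fin.succAbove_ne j k)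
      have s := s0
      rw [Fin.sum_univ_succAbove _ j, Fin.sum_univ_five] at s
      have u1 := b1 j
      have u2 := b2 j
      rw [hi]
      rcases t 0 with a0 | a0 <;> rcases t 1 with a1 | a1 <;> rcases t 2 with a2 | a2 <;>
        rcases t 3 with a3 | a3 <;> rcases t 4 with a4 | a4 <;>
        first | (left; linarith) | (right; linarith)
    · exact h7 i hi
  have h9 : ∀ i, y i = sg (decide (y i = c)) * c := fun i => by
    by_cases e : y i = c
    · simp [e, sg]
    · simpa [e, sg] using (h8 i).resolve_left e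
  obtain ⟨b, hb⟩ := d9 (fun i => decide (y i = c)) (by
    rw [Finset.sum_congr rfl fun i _ => h9 i, ← Finset.sum_mul] at s0
    exact_mod_cast (mul_eq_zero.mp s0).resolve_right c0.ne')
  refine ⟨b, ?_⟩
  rw [hA, Fb]
  congr 2
  ext ⟨i, s⟩
  rw [Finset.mem_coe, mA, mem_setOf_eq, hb, h9]
  generalize decide (y i = c) = t
  cases s <;> cases t <;> simp [sg] <;> linarith

noncomputable def eF : Fin 20 ≃ {F : Set (E 5) // IsExposed ℝ (convexHull ℝ (range P)) F ∧
    finrank ℝ (vectorSpan ℝ F) = 4} :=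
  Equiv.ofBijective (fun b => ⟨Fb b, fF b⟩) ⟨fun b c e => d8 b c fun a h => (mF c a).mp
    ((show Fb b = Fb c from congrArg Subtype.val e).subset ((mF b a).mpr h)), fun F => by
      obtain ⟨b, e⟩ := cF F.2.1 F.2.2
      exact ⟨b, Subtype.ext e⟩⟩

/-- The negation of the preceding statement: For every 5-polytope P, if the graph of its Kleetope (P's graph plus one new vertex per facet joined to that facet's vertices) is isomorphic to the graph of some d'-dimensional polytope, then d' = 5. -/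
theorem result :
    ¬ (∀ P : Finset (EuclideanSpace ℝ (Fin 5)),
      affineSpan ℝ (P : Set (EuclideanSpace ℝ (Fin 5))) = ⊤ →
      ∀ d' : ℕ, ∀ Q : Finset (EuclideanSpace ℝ (Fin d')),
        affineSpan ℝ (Q : Set (EuclideanSpace ℝ (Fin d'))) = ⊤ →
        Nonempty
          (SimpleGraph.fromRel
              (fun a b :
                  (↥(Set.extremePoints ℝ (convexHull ℝ (P : Set (EuclideanSpace ℝ (Fin 5))))))
                    ⊕ {F : Set (EuclideanSpace ℝ (Fin 5)) //
                        IsExposed ℝ (convexHull ℝ (P : Set (EuclideanSpace ℝ (Fin 5)))) F ∧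
                          Module.finrank ℝ (vectorSpan ℝ F) = 4} =>
                (∃ u v, a = Sum.inl u ∧ b = Sum.inl v ∧
                    IsExtreme ℝ (convexHull ℝ (P : Set (EuclideanSpace ℝ (Fin 5))))
                      (segment ℝ (u : EuclideanSpace ℝ (Fin 5)) (v : EuclideanSpace ℝ (Fin 5)))) ∨
                (∃ u F, a = Sum.inl u ∧ b = Sum.inr F ∧
                    (u : EuclideanSpace ℝ (Fin 5)) ∈ F.1))
            ≃g SimpleGraph.fromRel
              (fun x y :
                  ↥(Set.extremePoints ℝ (convexHull ℝ (Q : Set (EuclideanSpace ℝ (Fin d'))))) =>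
                IsExtreme ℝ (convexHull ℝ (Q : Set (EuclideanSpace ℝ (Fin d'))))
                  (segment ℝ (x : EuclideanSpace ℝ (Fin d')) (y : EuclideanSpace ℝ (Fin d'))))) →
        d' = 5) := by
  classical
  intro h
  have h := h (Finset.univ.image P) ?_ 6 (Finset.univ.image Q) ?_ ?_
  · omega
  all_goals simp only [Finset.coe_image, Finset.coe_univ, image_univ]
  · exact (AffineSubspace.affineSpan_eq_top_iff_vectorSpan_eq_top_of_nonempty ℝ _ _
      (range_nonempty _)).mpr tP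
  · exact (AffineSubspace.affineSpan_eq_top_iff_vectorSpan_eq_top_of_nonempty ℝ _ _
      (range_nonempty _)).mpr tQ
  rw [Finset.coe_image, Finset.coe_image, Finset.coe_univ, Finset.coe_univ, image_univ, image_univ]
  refine ⟨⟨((eqv P iP vP).sumCongr eF).symm.trans (eqv Q iQ vQ), fun {a b} => ?_⟩⟩
  obtain ⟨a, rfl⟩ := ((eqv P iP vP).sumCongr eF).surjective a
  obtain ⟨b, rfl⟩ := ((eqv P iP vP).sumCongr eF).surjective b
  simp only [Equiv.trans_apply, Equiv.symm_apply_apply, SimpleGraph.fromRel_adj, ne_eq,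
    EmbeddingLike.apply_eq_iff_eq]
  refine and_congr_right fun n => ?_
  refine (or_congr (eQ n) (eQ (Ne.symm n))).trans ?_
  rw [(d10 b a).1, or_self]
  rcases a with a | a <;> rcases b with b | b
  · have n : a ≠ b := fun e => n (by rw [e])
    have e1 := eP n
    have e2 := eP n.symm
    simp only [adj, Equiv.sumCongr_apply, Sum.map_inl, Sum.inl.injEq, reduceCtorEq, false_and,
      and_false, exists_false, or_false, exists_and_left, exists_eq_left', decide_eq_true_eq]
    exact ⟨fun h => Or.inl (e1.mpr h), fun h => h.elim e1.mp fun h => (e2.mp h).symm⟩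
  · simp only [adj, Equiv.sumCongr_apply, Sum.map_inl, Sum.map_inr, Sum.inl.injEq, Sum.inr.injEq,
      reduceCtorEq, false_and, and_false, exists_false, or_false, false_or, exists_and_left,
      exists_eq_left', decide_eq_true_eq]
    exact (mF b a).symm
  · simp only [adj, Equiv.sumCongr_apply, Sum.map_inl, Sum.map_inr, Sum.inl.injEq, Sum.inr.injEq,
      reduceCtorEq, false_and, and_false, exists_false, or_false, false_or, exists_and_left,
      exists_eq_left', decide_eq_true_eq]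
    exact (mF a b).symm
  · simp [adj]

end Pool.Agent.S11334
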