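import Pool.Statements.S11363
import Pool.Agent.H7.GT1

set_option autoImplicit false
open Pool Pool.MP_c705d2_co

namespace Pool.Agent.S11363

open H7.GT in
/-- complement of the Berlekamp - van Lint - Seidel graph -/
def G : SimpleGraph (Fin 243) where
  Adj u v := u ≠ v ∧ ad u v = false
  symm := ⟨fun u v h => ⟨h.1.symm, by rw [ad_symm _ _ u.2 v.2]; exact h.2⟩⟩
  loopless := ⟨fun u h => h.1 rfl⟩

open H7.GT in
def F : Set (Finset (Fin 243)) :=
  {D | D.card = 3 ∧ ¬ ∃ w : ℕ, w < 243 ∧ ∀ u ∈ D, ad u w = true}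

open H7.GT in
theorem memF (a b c : Fin 243) (hab : a ≠ b) (hac : a ≠ c) (hbc : b ≠ c) :
    ({a, b, c} : Finset (Fin 243)) ∈ F ↔ ¬ CN a b c := by
  unfold F CN
  simp only [Set.mem_ofPred_eq, Finset.card_eq_three.2 ⟨a, b, c, hab, hac, hbc, rfl⟩, true_and,
    Finset.mem_insert, Finset.mem_singleton, forall_eq_or_imp, forall_eq]

/-- There is a finite graph and a number k such that every dominating set has at least k vertices, k guards can eternally defend the graph by moving one guard per attack, and the vertices cannot be covered by k cliques. -/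
theorem result :
    ∃ n : ℕ, ∃ G : SimpleGraph (Fin n), ∃ k : ℕ, ∃ F : Set (Finset (Fin n)),
      F.Nonempty ∧
      (∀ D ∈ F, D.card = k) ∧
      (∀ D ∈ F, ∀ v : Fin n, v ∉ D →
        ∃ u ∈ D, G.Adj u v ∧ insert v (D.erase u) ∈ F) ∧
      (∀ S : Finset (Fin n), (∀ v : Fin n, v ∈ S ∨ ∃ u ∈ S, G.Adj u v) → k ≤ S.card) ∧
      (k : ℕ∞) < Gᶜ.chromaticNumber := by
  refine ⟨243, G, 3, F, ⟨{0, 1, 2}, ?_⟩, fun D hD => hD.1, ?_, ?_, ?_⟩
  · rw [memF _ _ _ (by decide) (by decide) (by decide)]
    exact H7.GT.notCN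
  · intro D hD r hr
    obtain ⟨a, x, y, hax, hay, hxy, rfl⟩ := Finset.card_eq_three.1 hD.1
    rw [memF _ _ _ hax hay hxy] at hD
    simp only [Finset.mem_insert, Finset.mem_singleton, not_or] at hr
    obtain ⟨h0, h1, h2⟩ := hr
    by_contra hne
    simp only [Finset.mem_insert, Finset.mem_singleton, exists_eq_or_imp, exists_eq_left, not_or,
      not_and] at hne
    obtain ⟨n1, n2, n3⟩ := hne
    have e1 : insert r (({a, x, y} : Finset (Fin 243)).erase a) = {r, x, y} := by
      ext z; simp only [Finset.mem_insert, Finset.mem_erase, Finset.mem_singleton]; grind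
    have e2 : insert r (({a, x, y} : Finset (Fin 243)).erase x) = {a, r, y} := by
      ext z; simp only [Finset.mem_insert, Finset.mem_erase, Finset.mem_singleton]; grind
    have e3 : insert r (({a, x, y} : Finset (Fin 243)).erase y) = {a, x, r} := by
      ext z; simp only [Finset.mem_insert, Finset.mem_erase, Finset.mem_singleton]; grind
    rw [e1, memF _ _ _ h1 h2 hxy, not_not] at n1
    rw [e2, memF _ _ _ (Ne.symm h0) hay h2, not_not] at n2
    rw [e3, memF _ _ _ hax (Ne.symm h0) (Ne.symm h1), not_not] at n3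
    have v : ∀ p q : Fin 243, p ≠ q → (p : ℕ) ≠ q := fun p q h h' => h (Fin.ext h')
    refine H7.GT.key a x y r a.2 x.2 y.2 r.2 (v _ _ hxy) (v _ _ hax.symm) (v _ _ hay.symm) hD
      (v _ _ h0) (v _ _ h1) (v _ _ h2) ?_ ?_ ?_
    · cases h : H7.GT.ad a r
      · exact Or.inr (n1 ⟨Ne.symm h0, h⟩)
      · exact Or.inl rfl
    · cases h : H7.GT.ad x r
      · exact Or.inr (n2 ⟨Ne.symm h1, h⟩)
      · exact Or.inl rfl
    · cases h : H7.GT.ad y r
      · exact Or.inr (n3 ⟨Ne.symm h2, h⟩)
      · exact Or.inl rfl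
  · intro S hS
    by_contra hlt
    have : ∃ a b : Fin 243, ∀ u ∈ S, u = a ∨ u = b := by
      have h2 : S.card = 0 ∨ S.card = 1 ∨ S.card = 2 := by omega
      rcases h2 with h | h | h
      · rw [Finset.card_eq_zero] at h
        exact ⟨0, 0, by simp [h]⟩
      · obtain ⟨a, rfl⟩ := Finset.card_eq_one.1 h
        exact ⟨a, a, by simp⟩
      · obtain ⟨a, b, -, rfl⟩ := Finset.card_eq_two.1 h
        exact ⟨a, b, by simp⟩
    obtain ⟨a, b, hab⟩ := this
    obtain ⟨w, hw, h1, h2⟩ := H7.GT.common a b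
    have all : ∀ u ∈ S, H7.GT.ad u w = true := by
      intro u hu
      rcases hab u hu with rfl | rfl
      exacts [h1, h2]
    rcases hS ⟨w, hw⟩ with h | ⟨u, hu, h⟩
    · have := all _ h
      rw [H7.GT.ad_irr] at this
      exact absurd this (by simp)
    · have := h.2
      rw [all u hu] at this
      exact absurd this (by simp)
  · by_contra hle
    rw [not_lt, SimpleGraph.chromaticNumber_le_iff_colorable] at hle
    obtain ⟨c⟩ := hle
    refine H7.GT.nocol (fun i => if h : i < 243 then c ⟨i, h⟩ else 0) ?_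
    intro u v hu hv h
    simp only [hu, hv, dif_pos]
    apply c.valid
    have hne : (⟨u, hu⟩ : Fin 243) ≠ ⟨v, hv⟩ := by
      intro e
      have : u = v := congrArg Fin.val e
      rw [this, H7.GT.ad_irr] at h
      exact absurd h (by simp)
    rw [SimpleGraph.compl_adj]
    refine ⟨hne, fun h' => ?_⟩
    have := h'.2
    simp only [h] at this
    exact absurd this (by simp)

end Pool.Agent.S11363
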