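import Pool.Statements.S11381
import Pool.Agent.H12.Phi

set_option autoImplicit false
open scoped Pointwise
open Pool Pool.MP_c81765_co

namespace Pool.Agent.S11381

/-- For a finite group acting by affine lattice maps on Z^n and a full-dimensional invariant lattice polytope P, each g gives (dim P^g)! times the lattice-normalized volume of P^g, times det(I−ρ(g)) off the fixed space, divided by ind(P^g): a natural number. -/
theorem result :
    ∀ (n : ℕ) (G : Type) [Group G] [Fintype G]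
      (ρ : G →* Matrix.GeneralLinearGroup (Fin n) ℤ) (t : G → (Fin n → ℤ)),
      (∀ g h : G, t (g * h) = (ρ g).val.mulVec (t h) + t g) →
      ∀ (S : Finset (Fin n → ℤ)) (P : Set (Fin n → ℝ)),
      P = convexHull ℝ ((fun (z : Fin n → ℤ) (i : Fin n) => (z i : ℝ)) '' (S : Set (Fin n → ℤ))) →
      affineSpan ℝ P = ⊤ →
      (∀ g : G, (fun x : Fin n → ℝ =>
          ((ρ g).val.map (Int.cast : ℤ → ℝ)).mulVec x + (fun i => (t g i : ℝ))) '' P = P) →
      ∀ g : G,
      ∀ Pg : Set (Fin n → ℝ),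
      Pg = {x : Fin n → ℝ | x ∈ P ∧
        ((ρ g).val.map (Int.cast : ℤ → ℝ)).mulVec x + (fun i => (t g i : ℝ)) = x} →
      ∀ ind : ℕ,
      ind = sInf {k : ℕ | 0 < k ∧ ∃ z : Fin n → ℤ,
        (fun i => (z i : ℝ)) ∈ affineSpan ℝ ((k : ℝ) • Pg)} →
      ∀ d : ℕ, d = Module.finrank ℝ (affineSpan ℝ Pg).direction →
      ∀ D : ℤ,
      D = Polynomial.eval 1 (Polynomial.divByMonic (ρ g).val.charpoly
            ((Polynomial.X - Polynomial.C (1 : ℤ)) ^ ((ρ g).val.charpoly.rootMultiplicity 1))) →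
      ∃ N : ℕ, Filter.Tendsto
        (fun m : ℕ => (d.factorial : ℝ) *
          ((Set.ncard {z : Fin n → ℤ |
              (fun i => (z i : ℝ)) ∈ (((m * ind : ℕ) : ℝ)) • Pg} : ℝ) /
            (((m * ind : ℕ) : ℝ)) ^ d) * (D : ℝ) / (ind : ℝ))
        Filter.atTop (nhds (N : ℝ)) := by
  intro n G _ _ ρ t ht S P hP hsp hinv g Pg hPg ind hind d hd D hD
  have h1 : t 1 = 0 := by
    have := ht 1 1
    simpa using this
  have h2 : ∀ k : ℕ, Pool.Agent.H12.Phi.hom (ρ g).val (t g) ^ k =
      Pool.Agent.H12.Phi.hom (ρ (g ^ k)).val (t (g ^ k)) := by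
    intro k
    induction k with
    | zero => simp [Pool.Agent.H12.Phi.hom, h1]; exact Matrix.fromBlocks_one.symm
    | succ k ih =>
      rw [pow_succ, ih, pow_succ, ht, map_mul, Units.val_mul]
      simp only [Pool.Agent.H12.Phi.hom, Matrix.fromBlocks_multiply]
      congr 1
      · simp
      · ext i j; simp [Matrix.mul_apply, Matrix.mulVec, dotProduct]
      · simp
      · simp
  refine Pool.Agent.H12.Phi.main (ρ g).val (t g) (Fintype.card G) Fintype.card_pos ?_
    (fun i => (S.equivFin.symm i : Fin n → ℤ)) P ?_ hsp ?_ Pg hPg ind hind d hd D hD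
  · rw [h2, pow_card_eq_one, h1, map_one]
    exact Matrix.fromBlocks_one
  · rw [hP]
    congr 1
    ext x
    constructor
    · rintro ⟨z, hz, rfl⟩
      exact ⟨S.equivFin ⟨z, hz⟩, by simp; rfl⟩
    · rintro ⟨i, rfl⟩
      exact ⟨_, (S.equivFin.symm i).2, rfl⟩
  · intro x hx
    rw [← hinv g]
    exact ⟨x, hx, rfl⟩

end Pool.Agent.S11381
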