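import Pool.Statements.S11432
import Pool.Agent.H15.Mantel

set_option autoImplicit false
open Pool Pool.MP_ca83f8_co

namespace Pool.Agent.S11432
open Pool.Agent.H15.Mantel

/-- Three disjoint triangles. -/
def F3 : Finset (Finset (Fin 9)) :=
  {{0, 1}, {0, 2}, {1, 2}, {3, 4}, {3, 5}, {4, 5}, {6, 7}, {6, 8}, {7, 8}}

theorem F3_card : ∀ e ∈ F3, e.card = 2 := by decide +kernel
theorem F3_lin : ∀ e ∈ F3, ∀ f ∈ F3, e ≠ f → (e ∩ f).card ≤ 1 := by decide +kernel

theorem upper {n : ℕ} (G : Finset (Finset (Fin n))) (h2 : ∀ e ∈ G, e.card = 2)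
    (hfree : ¬ ∃ φ : Fin 9 ↪ Fin n, ∀ e ∈ F3, e.map φ ∈ G) :
    4 * G.card ≤ n ^ 2 + 24 * n := by
  classical
  rcases step G h2 with h | ⟨a, b, c, hab, hac, hbc, e1, e2, e3, hc⟩
  · omega
  set G1 := G.filter (fun e => a ∉ e ∧ b ∉ e ∧ c ∉ e) with hG1
  have h21 : ∀ e ∈ G1, e.card = 2 := fun e he => h2 e (Finset.mem_filter.1 he).1
  rcases step G1 h21 with h | ⟨a', b', c', hab', hac', hbc', f1, f2, f3, hc'⟩
  · omega
  set G2 := G1.filter (fun e => a' ∉ e ∧ b' ∉ e ∧ c' ∉ e) with hG2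
  have h22 : ∀ e ∈ G2, e.card = 2 := fun e he => h21 e (Finset.mem_filter.1 he).1
  rcases step G2 h22 with h | ⟨x, y, z, hxy, hxz, hyz, g1, g2, g3, -⟩
  · omega
  exfalso
  simp only [hG2, hG1, Finset.mem_filter, Finset.mem_insert, Finset.mem_singleton, not_or] at f1 f2 f3 g1 g2 g3
  apply hfree
  have hinj : Function.Injective (![a, b, c, a', b', c', x, y, z] : Fin 9 → Fin n) := by
    have hn : ([a, b, c, a', b', c', x, y, z] : List (Fin n)).Nodup := by
      obtain ⟨⟨-, ⟨u1, u2⟩, ⟨u3, u4⟩, u5, u6⟩, ⟨v1, v2⟩, ⟨v3, v4⟩, v5, v6⟩ := g1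
      obtain ⟨⟨-, ⟨-, w2⟩, ⟨-, w4⟩, -, w6⟩, ⟨-, z2⟩, ⟨-, z4⟩, -, z6⟩ := g2
      obtain ⟨-, ⟨s1, s2⟩, ⟨s3, s4⟩, s5, s6⟩ := f1
      obtain ⟨-, ⟨-, t2⟩, ⟨-, t4⟩, -, t6⟩ := f2
      simp [*]
    have := List.nodup_ofFn.1 (show (List.ofFn
      (![a, b, c, a', b', c', x, y, z] : Fin 9 → Fin n)).Nodup by simpa using hn)
    exact this
  refine ⟨⟨_, hinj⟩, ?_⟩
  intro e he
  simp only [F3, Finset.mem_insert, Finset.mem_singleton] at he
  rcases he with rfl | rfl | rfl | rfl | rfl | rfl | rfl | rfl | rfl <;>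
    simp [Finset.map_insert] <;> tauto

/-- pairs with one end below `m` and one end at least `m`. -/
theorem cross_card {n m : ℕ} (hm : m ≤ n) (X : Finset (Finset (Fin n)))
    (hX : ∀ a b : Fin n, a.val < m → m ≤ b.val → ({a, b} : Finset (Fin n)) ∈ X) :
    m * (n - m) ≤ X.card := by
  classical
  let f : Fin m × Fin (n - m) → Finset (Fin n) := fun p =>
    {⟨p.1.val, by have := p.1.2; omega⟩, ⟨m + p.2.val, by have := p.2.2; omega⟩}
  have hinj : Function.Injective f := by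
    rintro ⟨a, b⟩ ⟨c, d⟩ h
    have h1 : (⟨a.val, by have := a.2; omega⟩ : Fin n) ∈ f (c, d) := by
      rw [← h]; simp [f]
    have h2 : (⟨m + b.val, by have := b.2; omega⟩ : Fin n) ∈ f (c, d) := by
      rw [← h]; simp [f]
    simp only [f, Finset.mem_insert, Finset.mem_singleton, Fin.mk.injEq] at h1 h2
    have := a.2; have := c.2
    ext <;> simp <;> omega
  have : (Finset.univ.image f) ⊆ X := by
    intro e he
    obtain ⟨p, -, rfl⟩ := Finset.mem_image.1 he
    exact hX _ _ p.1.2 (by simp)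
  have h3 := Finset.card_le_card this
  rw [Finset.card_image_of_injective _ hinj] at h3
  simpa using h3

theorem tri_inside {n m : ℕ} (u v w : Fin n)
    (h1 : u.val < m ∨ v.val < m) (h2 : u.val < m ∨ w.val < m) (h3 : v.val < m ∨ w.val < m) :
    (u.val < m ∧ v.val < m) ∨ (u.val < m ∧ w.val < m) ∨ (v.val < m ∧ w.val < m) := by
  omega

theorem result :
    ¬ (∀ (k m : ℕ) (F : Finset (Finset (Fin m))) (ex : ℕ → ℕ), 2 ≤ k →
      (∀ e ∈ F, e.card = k) →
      (∀ e ∈ F, ∀ f ∈ F, e ≠ f → (e ∩ f).card ≤ 1) →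
      (∀ n : ℕ, ex n = sSup {t : ℕ | ∃ G : Finset (Finset (Fin n)),
          (∀ e ∈ G, e.card = k) ∧
          (¬ ∃ φ : Fin m ↪ Fin n, ∀ e ∈ F, e.map φ ∈ G) ∧ G.card = t}) →
      (∃ c : ℝ, 0 < c ∧ ∃ N : ℕ, ∀ n ≥ N, c * (n : ℝ) ^ k ≤ (ex n : ℝ)) →
      ∃ r0 : ℕ, ∀ r ≥ r0, ∃ n0 : ℕ, ∀ n ≥ n0, ∀ H : Finset (Finset (Fin n)),
        (∀ e ∈ H, e.card = k) →
        (Nat.card {c : {x // x ∈ H} → Fin r //
            ¬ ∃ φ : Fin m ↪ Fin n, (∀ e ∈ F, e.map φ ∈ H) ∧
              ∀ e ∈ F, ∀ f ∈ F, ∀ x y : {x // x ∈ H},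
                x.1 = e.map φ → y.1 = f.map φ → e ≠ f → c x ≠ c y} ≤ r ^ ex n ∧
        (Nat.card {c : {x // x ∈ H} → Fin r //
            ¬ ∃ φ : Fin m ↪ Fin n, (∀ e ∈ F, e.map φ ∈ H) ∧
              ∀ e ∈ F, ∀ f ∈ F, ∀ x y : {x // x ∈ H},
                x.1 = e.map φ → y.1 = f.map φ → e ≠ f → c x ≠ c y} = r ^ ex n ↔
          ((¬ ∃ φ : Fin m ↪ Fin n, ∀ e ∈ F, e.map φ ∈ H) ∧ H.card = ex n)))) := by
  classical
  intro hall
  let S : (n : ℕ) → Set ℕ := fun n => {t : ℕ | ∃ G : Finset (Finset (Fin n)),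
          (∀ e ∈ G, e.card = 2) ∧
          (¬ ∃ φ : Fin 9 ↪ Fin n, ∀ e ∈ F3, e.map φ ∈ G) ∧ G.card = t}
  have hbdd : ∀ n, ∀ t ∈ S n, 4 * t ≤ n ^ 2 + 24 * n := by
    rintro n t ⟨G, h2, hf, rfl⟩
    exact upper G h2 hf
  have hB : ∀ n, BddAbove (S n) := fun n => ⟨n ^ 2 + 24 * n, fun t ht => by
    have := hbdd n t ht; omega⟩
  have hup : ∀ n, 4 * sSup (S n) ≤ n ^ 2 + 24 * n := by
    intro n
    rcases (S n).eq_empty_or_nonempty with h | h
    · rw [h]; simp
    · exact hbdd n _ (Nat.sSup_mem h (hB n))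
  have hlow : ∀ n, (n / 2) * (n - n / 2) ≤ sSup (S n) := by
    intro n
    let G : Finset (Finset (Fin n)) := (Finset.powersetCard 2 Finset.univ).filter
      (fun e => (∃ a ∈ e, a.val < n / 2) ∧ (∃ b ∈ e, n / 2 ≤ b.val))
    have hG : G.card ∈ S n := by
      refine ⟨G, fun e he => (Finset.mem_powersetCard.1 (Finset.mem_filter.1 he).1).2, ?_, rfl⟩
      rintro ⟨φ, hφ⟩
      have a1 := (Finset.mem_filter.1 (hφ {0, 1} (by simp [F3]))).2
      have a2 := (Finset.mem_filter.1 (hφ {0, 2} (by simp [F3]))).2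
      have a3 := (Finset.mem_filter.1 (hφ {1, 2} (by simp [F3]))).2
      simp only [Finset.map_insert, Finset.map_singleton, Finset.mem_insert, Finset.mem_singleton,
        exists_eq_or_imp, exists_eq_left] at a1 a2 a3
      omega
    refine le_trans (cross_card (Nat.div_le_self n 2) G ?_) (le_csSup (hB n) hG)
    intro a b ha hb
    have hab : a ≠ b := by rintro rfl; omega
    refine Finset.mem_filter.2 ⟨Finset.mem_powersetCard.2 ⟨Finset.subset_univ _, Finset.card_pair hab⟩,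
      ⟨a, by simp, ha⟩, ⟨b, by simp, hb⟩⟩
  obtain ⟨r0, hr0⟩ := hall 2 9 F3 (fun n => sSup (S n)) le_rfl F3_card F3_lin
    (fun n => rfl) ⟨1 / 8, by norm_num, 2, fun n hn => by
      have h1 := hlow n
      have h2 : n ^ 2 ≤ 8 * ((n / 2) * (n - n / 2)) := by
        obtain ⟨q, hq⟩ : ∃ q, n = 2 * q ∨ n = 2 * q + 1 := ⟨n / 2, by omega⟩
        rcases hq with rfl | rfl
        · have e1 : 2 * q / 2 = q := by omega
          have e2 : 2 * q - q = q := by omega
          rw [e1, e2]; nlinarith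
        · have e1 : (2 * q + 1) / 2 = q := by omega
          have e2 : 2 * q + 1 - q = q + 1 := by omega
          rw [e1, e2]
          have : 1 ≤ q := by omega
          nlinarith
      have h3 : n ^ 2 ≤ 8 * sSup (S n) := by omega
      have h4 : ((n ^ 2 : ℕ) : ℝ) ≤ ((8 * sSup (S n) : ℕ) : ℝ) := by exact_mod_cast h3
      push_cast at h4
      show (1 / 8 : ℝ) * (n : ℝ) ^ 2 ≤ ((sSup (S n) : ℕ) : ℝ)
      linarith⟩
  obtain ⟨r', hr'⟩ : ∃ r', r' = r0 := ⟨_, rfl⟩
  obtain ⟨n0, hn0⟩ := hr0 (r' + 2) (by omega)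
  set r := r' + 2 with hr
  obtain ⟨m, hm⟩ : ∃ m, m = n0 + 24 * r + 2 := ⟨_, rfl⟩
  let H : Finset (Finset (Fin (2 * m))) := (Finset.powersetCard 2 Finset.univ).filter
      (fun e => ∃ a ∈ e, a.val < m)
  have hH2 : ∀ e ∈ H, e.card = 2 :=
    fun e he => (Finset.mem_powersetCard.1 (Finset.mem_filter.1 he).1).2
  have key := (hn0 (2 * m) (by omega) H hH2).1
  let ins : {x // x ∈ H} → Prop := fun x => ∀ a ∈ x.1, a.val < m
  let T : {x // x ∈ H} → Finset (Fin r) := fun x => if ins x then {0, 1} else Finset.univ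
  have hsub : (Fintype.piFinset T).card ≤ Nat.card {c : {x // x ∈ H} → Fin r //
            ¬ ∃ φ : Fin 9 ↪ Fin (2 * m), (∀ e ∈ F3, e.map φ ∈ H) ∧
              ∀ e ∈ F3, ∀ f ∈ F3, ∀ x y : {x // x ∈ H},
                x.1 = e.map φ → y.1 = f.map φ → e ≠ f → c x ≠ c y} := by
    rw [Nat.card_eq_fintype_card, Fintype.card_subtype]
    apply Finset.card_le_card
    intro c hc
    rw [Fintype.mem_piFinset] at hc
    refine Finset.mem_filter.2 ⟨Finset.mem_univ _, ?_⟩
    rintro ⟨φ, hφ, hrain⟩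
    have hin : ∀ i j : Fin 9, ({i, j} : Finset (Fin 9)) ∈ F3 → (φ i).val < m ∨ (φ j).val < m := by
      intro i j hij
      have := (Finset.mem_filter.1 (hφ _ hij)).2
      simpa using this
    have hcol : ∀ i j : Fin 9, (hij : ({i, j} : Finset (Fin 9)) ∈ F3) →
        (φ i).val < m → (φ j).val < m →
        c ⟨_, hφ _ hij⟩ = 0 ∨ c ⟨_, hφ _ hij⟩ = 1 := by
      intro i j hij h1 h2
      have h3 := hc ⟨_, hφ _ hij⟩
      have h4 : ins ⟨_, hφ _ hij⟩ := by
        intro a ha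
        simp only [Finset.map_insert, Finset.map_singleton, Finset.mem_insert,
          Finset.mem_singleton] at ha
        rcases ha with rfl | rfl <;> assumption
      simp only [T, if_pos h4, Finset.mem_insert, Finset.mem_singleton] at h3
      exact h3
    have hA : ∃ e, ∃ he : e ∈ F3, (∀ i ∈ e, i.val < 3) ∧
        (c ⟨_, hφ _ he⟩ = 0 ∨ c ⟨_, hφ _ he⟩ = 1) := by
      rcases tri_inside _ _ _ (hin 0 1 (by decide)) (hin 0 2 (by decide)) (hin 1 2 (by decide)) with
        h | h | h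
      · exact ⟨_, by decide, by decide, hcol 0 1 (by decide) h.1 h.2⟩
      · exact ⟨_, by decide, by decide, hcol 0 2 (by decide) h.1 h.2⟩
      · exact ⟨_, by decide, by decide, hcol 1 2 (by decide) h.1 h.2⟩
    have hB' : ∃ e, ∃ he : e ∈ F3, (∀ i ∈ e, 3 ≤ i.val ∧ i.val < 6) ∧
        (c ⟨_, hφ _ he⟩ = 0 ∨ c ⟨_, hφ _ he⟩ = 1) := by
      rcases tri_inside _ _ _ (hin 3 4 (by decide)) (hin 3 5 (by decide)) (hin 4 5 (by decide)) with
        h | h | h
      · exact ⟨_, by decide, by decide, hcol 3 4 (by decide) h.1 h.2⟩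
      · exact ⟨_, by decide, by decide, hcol 3 5 (by decide) h.1 h.2⟩
      · exact ⟨_, by decide, by decide, hcol 4 5 (by decide) h.1 h.2⟩
    have hC : ∃ e, ∃ he : e ∈ F3, (∀ i ∈ e, 6 ≤ i.val) ∧
        (c ⟨_, hφ _ he⟩ = 0 ∨ c ⟨_, hφ _ he⟩ = 1) := by
      rcases tri_inside _ _ _ (hin 6 7 (by decide)) (hin 6 8 (by decide)) (hin 7 8 (by decide)) with
        h | h | h
      · exact ⟨_, by decide, by decide, hcol 6 7 (by decide) h.1 h.2⟩
      · exact ⟨_, by decide, by decide, hcol 6 8 (by decide) h.1 h.2⟩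
      · exact ⟨_, by decide, by decide, hcol 7 8 (by decide) h.1 h.2⟩
    obtain ⟨e1, he1, p1, q1⟩ := hA
    obtain ⟨e2, he2, p2, q2⟩ := hB'
    obtain ⟨e3, he3, p3, q3⟩ := hC
    have hne : ∀ e ∈ F3, e.Nonempty := fun e he => Finset.card_pos.1 (by rw [F3_card e he]; norm_num)
    have n12 : e1 ≠ e2 := by
      rintro rfl
      obtain ⟨i, hi⟩ := hne _ he1
      have := p1 i hi; have := p2 i hi; omega
    have n13 : e1 ≠ e3 := by
      rintro rfl
      obtain ⟨i, hi⟩ := hne _ he1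
      have := p1 i hi; have := p3 i hi; omega
    have n23 : e2 ≠ e3 := by
      rintro rfl
      obtain ⟨i, hi⟩ := hne _ he2
      have := p2 i hi; have := p3 i hi; omega
    have d12 := hrain e1 he1 e2 he2 ⟨_, hφ _ he1⟩ ⟨_, hφ _ he2⟩ rfl rfl n12
    have d13 := hrain e1 he1 e3 he3 ⟨_, hφ _ he1⟩ ⟨_, hφ _ he3⟩ rfl rfl n13
    have d23 := hrain e2 he2 e3 he3 ⟨_, hφ _ he2⟩ ⟨_, hφ _ he3⟩ rfl rfl n23
    rcases q1 with q1 | q1 <;> rcases q2 with q2 | q2 <;> rcases q3 with q3 | q3 <;>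
      first
        | exact d12 (q1.trans q2.symm)
        | exact d13 (q1.trans q3.symm)
        | exact d23 (q2.trans q3.symm)
  have hcard : (Fintype.piFinset T).card =
      2 ^ (Finset.univ.filter ins).card * r ^ (Finset.univ.filter (fun x => ¬ ins x)).card := by
    rw [Fintype.card_piFinset]
    have : ∀ x, (T x).card = if ins x then 2 else r := by
      intro x
      by_cases h : ins x
      · simp only [T, if_pos h]
        exact Finset.card_pair (by simp [hr, Fin.ext_iff])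
      · simp [T, if_neg h]
    simp only [this]
    rw [Finset.prod_ite]
    simp
  have hsubf : ∀ (p : Finset (Fin (2 * m)) → Prop) [DecidablePred p],
      (Finset.univ.filter (fun x : {x // x ∈ H} => p x.1)).card = (H.filter p).card := by
    intro p _
    rw [← Finset.card_map ⟨Subtype.val, Subtype.val_injective⟩]
    congr 1
    ext e
    simp only [Finset.mem_map, Finset.mem_filter, Finset.mem_univ, true_and,
      Function.Embedding.coeFn_mk, Subtype.exists, exists_and_right, exists_eq_right]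
    tauto
  have c1 : m.choose 2 ≤ (Finset.univ.filter ins).card := by
    have := hsubf (fun e => ∀ a ∈ e, a.val < m)
    refine le_trans ?_ (le_of_eq (by convert this.symm))
    let A : Finset (Fin (2 * m)) := Finset.univ.filter (fun a => a.val < m)
    have hA : A.card = m := by
      have := Fin.card_filter_val_lt (n := 2 * m) (m := m)
      rw [this]; omega
    have hA2 : m.choose 2 = (Finset.powersetCard 2 A).card := by
      rw [Finset.card_powersetCard, hA]
    rw [hA2]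
    apply Finset.card_le_card
    intro e he
    rw [Finset.mem_powersetCard] at he
    have h1 : ∀ a ∈ e, a.val < m := fun a ha => (Finset.mem_filter.1 (he.1 ha)).2
    refine Finset.mem_filter.2 ⟨Finset.mem_filter.2
      ⟨Finset.mem_powersetCard.2 ⟨Finset.subset_univ _, he.2⟩, ?_⟩, h1⟩
    obtain ⟨a, ha⟩ : e.Nonempty := Finset.card_pos.1 (by omega)
    exact ⟨a, ha, h1 a ha⟩
  have c2 : m * m ≤ (Finset.univ.filter (fun x => ¬ ins x)).card := by
    have := hsubf (fun e => ¬ ∀ a ∈ e, a.val < m)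
    refine le_trans ?_ (le_of_eq (by convert this.symm))
    have h3 := cross_card (n := 2 * m) (m := m) (by omega)
      (H.filter (fun e => ¬ ∀ a ∈ e, a.val < m)) (by
        intro a b ha hb
        have hab : a ≠ b := by rintro rfl; omega
        refine Finset.mem_filter.2 ⟨Finset.mem_filter.2 ⟨Finset.mem_powersetCard.2
          ⟨Finset.subset_univ _, Finset.card_pair hab⟩, a, by simp, ha⟩, ?_⟩
        intro h
        have := h b (by simp)
        omega)
    have e : 2 * m - m = m := by omega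
    rwa [e] at h3
  have u1 : sSup (S (2 * m)) ≤ m * m + 12 * m := by
    have := hup (2 * m)
    nlinarith
  have hrpos : 1 ≤ r := by omega
  have b1 : r ^ sSup (S (2 * m)) ≤ r ^ (12 * m) * r ^ (m * m) := by
    rw [← pow_add]; exact Nat.pow_le_pow_right hrpos (by omega)
  have b2 : r ^ (12 * m) < 2 ^ (m.choose 2) := by
    calc r ^ (12 * m) ≤ (2 ^ r) ^ (12 * m) := Nat.pow_le_pow_left (Nat.lt_two_pow_self).le _
      _ = 2 ^ (r * (12 * m)) := by rw [← pow_mul]
      _ < 2 ^ (m.choose 2) := by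
        apply Nat.pow_lt_pow_right (by norm_num)
        rw [Nat.choose_two_right]
        apply Nat.lt_of_lt_of_le (Nat.lt_succ_self _)
        rw [Nat.le_div_iff_mul_le (by norm_num)]
        have e : m - 1 = n0 + 24 * r + 1 := by omega
        rw [e]
        nlinarith
  have b3 : 2 ^ (m.choose 2) * r ^ (m * m) ≤ (Fintype.piFinset T).card := by
    rw [hcard]
    exact Nat.mul_le_mul (Nat.pow_le_pow_right (by norm_num) c1) (Nat.pow_le_pow_right hrpos c2)
  have b4 : r ^ (12 * m) * r ^ (m * m) < 2 ^ (m.choose 2) * r ^ (m * m) :=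
    Nat.mul_lt_mul_of_pos_right b2 (by positivity)
  have : (Fintype.piFinset T).card ≤ r ^ sSup (S (2 * m)) := hsub.trans key
  omega

end Pool.Agent.S11432
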