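import Pool.Statements.S11450
import Pool.Agent.H16.ComBase

set_option autoImplicit false
open Pool Pool.MP_cb399b_co

namespace Pool.Agent.S11450


/-- The negation of the preceding statement: For a finite matroid of rank r on E with ∣E∣ = kr+1, k ≥ 2, if E minus x and E minus y each split into k disjoint bases, then there are such splittings of both that have a basis in common. -/
theorem result :
    ¬ (∀ (α : Type) (M : Matroid α) (k : ℕ), 2 ≤ k → M.E.Finite →
      M.E.encard = (k : ℕ∞) * M.eRank + 1 →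
      ∀ x y : α, x ∈ M.E → y ∈ M.E →
      (∃ B : Fin k → Set α, (∀ i, M.IsBase (B i)) ∧
          (∀ i j, i ≠ j → Disjoint (B i) (B j)) ∧
          (⋃ i, B i) = M.E \ {x}) →
      (∃ B : Fin k → Set α, (∀ i, M.IsBase (B i)) ∧
          (∀ i j, i ≠ j → Disjoint (B i) (B j)) ∧
          (⋃ i, B i) = M.E \ {y}) →
      ∃ P Q : Fin k → Set α,
        (∀ i, M.IsBase (P i)) ∧ (∀ i j, i ≠ j → Disjoint (P i) (P j)) ∧
          (⋃ i, P i) = M.E \ {x} ∧
        (∀ i, M.IsBase (Q i)) ∧ (∀ i j, i ≠ j → Disjoint (Q i) (Q j)) ∧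
          (⋃ i, Q i) = M.E \ {y} ∧
        ∃ i j, P i = Q j) := by
  intro H
  have b1 : Pool.Agent.H16.ComBase.M0.IsBase (({0, 1, 2, 4} : Finset (Fin 9)) : Set _) :=
    Pool.Agent.H16.ComBase.base_of _ (by decide +kernel) (by decide +kernel)
  have b2 : Pool.Agent.H16.ComBase.M0.IsBase (({3, 5, 6, 8} : Finset (Fin 9)) : Set _) :=
    Pool.Agent.H16.ComBase.base_of _ (by decide +kernel) (by decide +kernel)
  have b3 : Pool.Agent.H16.ComBase.M0.IsBase (({0, 1, 2, 3} : Finset (Fin 9)) : Set _) :=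
    Pool.Agent.H16.ComBase.base_of _ (by decide +kernel) (by decide +kernel)
  have b4 : Pool.Agent.H16.ComBase.M0.IsBase (({4, 5, 6, 7} : Finset (Fin 9)) : Set _) :=
    Pool.Agent.H16.ComBase.base_of _ (by decide +kernel) (by decide +kernel)
  obtain ⟨P, Q, p1, -, p3, q1, -, q3, i, j, e⟩ := H (Fin 9) Pool.Agent.H16.ComBase.M0 2 le_rfl
    (Set.toFinite _) (by
      rw [← b1.encard_eq_eRank, Pool.Agent.H16.ComBase.M0_E, Set.encard_coe_eq_coe_finsetCard,
        Set.encard_univ, ENat.card_eq_coe_fintype_card]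
      decide) 7 8 (by simp [Pool.Agent.H16.ComBase.M0_E]) (by simp [Pool.Agent.H16.ComBase.M0_E])
    (Pool.Agent.H16.ComBase.part 7 _ _ b1 b2 (by decide) (by decide))
    (Pool.Agent.H16.ComBase.part 8 _ _ b3 b4 (by decide) (by decide))
  have a := Pool.Agent.H16.ComBase.other 7 P p1 p3 i
  have b := Pool.Agent.H16.ComBase.other 8 Q q1 q3 j
  rw [← e] at b
  exact Pool.Agent.H16.ComBase.no_common (P i) (p1 i).indep a.1 b.1 a.2 b.2

end Pool.Agent.S11450
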