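import Pool.Statements.S11475
import Pool.Agent.H50.SteinD

set_option autoImplicit false
open scoped Classical
open Pool Pool.MP_cc41ac_co

namespace Pool.Agent.S11475

/-- The ratio of Steiner minimal tree length to minimal spanning tree length for the vertices of a regular d-simplex converges, as d goes to infinity, to sqrt(3)/(4 - sqrt(2)). -/
theorem result :
    Filter.Tendsto
      (fun d : ℕ =>
        sInf {L : ℝ | ∃ T : Finset (EuclideanSpace ℝ (Fin (d+1))),
          (Finset.univ.image (fun i : Fin (d+1) => EuclideanSpace.single i (1:ℝ))) ⊆ T ∧
          ∃ G : SimpleGraph T, G.Connected ∧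
            L = (∑ x : T, ∑ y : T,
                  if G.Adj x y then
                    dist (x : EuclideanSpace ℝ (Fin (d+1))) (y : EuclideanSpace ℝ (Fin (d+1)))
                  else 0) / 2}
        /
        sInf {L : ℝ | ∃ T : Finset (EuclideanSpace ℝ (Fin (d+1))),
          T = Finset.univ.image (fun i : Fin (d+1) => EuclideanSpace.single i (1:ℝ)) ∧
          ∃ G : SimpleGraph T, G.Connected ∧
            L = (∑ x : T, ∑ y : T,
                  if G.Adj x y then
                    dist (x : EuclideanSpace ℝ (Fin (d+1))) (y : EuclideanSpace ℝ (Fin (d+1)))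
                  else 0) / 2})
      Filter.atTop (nhds (Real.sqrt 3 / (4 - Real.sqrt 2))) := by
  exact Pool.Agent.H50.Stein.main

end Pool.Agent.S11475
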