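import Pool.Statements.S11500
import Pool.Agent.H30.Picker

set_option autoImplicit false
open Filter
open Pool Pool.MP_cd7f8f_co

namespace Pool.Agent.S11500

/-- The negation of the preceding statement: In the n×n Picker–Chooser row discrepancy game, the largest row lead (Picker marks minus Chooser marks) Picker can guarantee at game end is (1+o(1))·sqrt(2 n log n) as n grows. -/
theorem result :
    ¬ (∀ ε : ℝ, ε > 0 → ∀ᶠ n : ℕ in atTop,
      (∃ k : ℤ, (1 - ε) * Real.sqrt (2 * (n : ℝ) * Real.log n) ≤ (k : ℝ) ∧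
        ∃ W : Set (Finset (Fin n × Fin n) × Finset (Fin n × Fin n)),
          ((∅ : Finset (Fin n × Fin n)), (∅ : Finset (Fin n × Fin n))) ∈ W ∧
          ∀ p ∈ W,
            ((p.1 ∪ p.2).card + 2 > n * n ∧
              ∃ i : Fin n, k ≤ ((Finset.filter (fun x : Fin n × Fin n => x.1 = i) p.1).card : ℤ)
                  - ((Finset.filter (fun x : Fin n × Fin n => x.1 = i) p.2).card : ℤ)) ∨
            ∃ a b : Fin n × Fin n, a ≠ b ∧ a ∉ p.1 ∪ p.2 ∧ b ∉ p.1 ∪ p.2 ∧
              (insert a p.1, insert b p.2) ∈ W ∧ (insert b p.1, insert a p.2) ∈ W) ∧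
      (∀ k : ℤ,
        (∃ W : Set (Finset (Fin n × Fin n) × Finset (Fin n × Fin n)),
          ((∅ : Finset (Fin n × Fin n)), (∅ : Finset (Fin n × Fin n))) ∈ W ∧
          ∀ p ∈ W,
            ((p.1 ∪ p.2).card + 2 > n * n ∧
              ∃ i : Fin n, k ≤ ((Finset.filter (fun x : Fin n × Fin n => x.1 = i) p.1).card : ℤ)
                  - ((Finset.filter (fun x : Fin n × Fin n => x.1 = i) p.2).card : ℤ)) ∨
            ∃ a b : Fin n × Fin n, a ≠ b ∧ a ∉ p.1 ∪ p.2 ∧ b ∉ p.1 ∪ p.2 ∧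
              (insert a p.1, insert b p.2) ∈ W ∧ (insert b p.1, insert a p.2) ∈ W) →
        (k : ℝ) ≤ (1 + ε) * Real.sqrt (2 * (n : ℝ) * Real.log n))) := by
  intro h
  have h1 := h (1 / 10) (by norm_num)
  have h2 : ∀ᶠ n : ℕ in atTop, (16 : ℝ) ≤ Real.log n :=
    (Real.tendsto_log_atTop.comp tendsto_natCast_atTop_atTop).eventually_ge_atTop 16
  obtain ⟨n, ⟨⟨k, hk, W, h0, hW⟩, -⟩, hL, hn⟩ := (h1.and (h2.and (eventually_ge_atTop 2))).exists
  have hb := Pool.Agent.H30.Picker.main hn k W h0 hW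
  have hN : (2 : ℝ) ≤ n := by exact_mod_cast hn
  have e1 : (7 / 5 : ℝ) * Real.sqrt (n * Real.log n) ≤ Real.sqrt (2 * (n : ℝ) * Real.log n) := by
    apply Real.le_sqrt_of_sq_le
    rw [mul_pow, Real.sq_sqrt (by positivity)]
    have : (0 : ℝ) ≤ n * Real.log n := by positivity
    nlinarith
  have e2 : 4 * Real.sqrt n ≤ Real.sqrt (n * Real.log n) := by
    apply Real.le_sqrt_of_sq_le
    rw [mul_pow, Real.sq_sqrt (by positivity)]
    nlinarith
  have e3 : 0 < Real.sqrt n := Real.sqrt_pos.2 (by linarith)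
  linarith

end Pool.Agent.S11500
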