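import Pool.Statements.S11510

set_option autoImplicit false
open Pool Pool.MP_cde6cd_co

namespace Pool.Agent.S11510

def e1 : List (List ℕ) := [[1, 0, 0, 2, 0, 1, 3, 1], [0, 0, 2, 2, 1, 1, 1, 1], [0, 0, 2, 1, 1, 1, 3, 0], [0, 0, 1, 1, 1, 1, 0, 0], [0, 1, 3, 3, 1, 0, 0, 0], [1, 1, 3, 3, 0, 0, 0, 0], [1, 1, 1, 0, 0, 0, 0, 1], [1, 1, 0, 0, 0, 0, 1, 1]]
def e2 : List (List ℕ) := [[2, 3, 0, 1, 0, 1, 2, 1], [3, 3, 3, 3, 1, 1, 3, 3], [3, 3, 1, 1, 1, 1, 1, 3], [3, 3, 1, 1, 1, 1, 3, 3], [1, 0, 3, 0, 1, 0, 3, 2], [0, 0, 2, 2, 0, 0, 0, 0], [0, 0, 2, 0, 0, 0, 0, 0], [0, 0, 0, 0, 0, 0, 0, 0]]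
def e3 : List (List ℕ) := [[1, 2, 3, 2, 3, 0, 3, 0], [0, 0, 2, 2, 2, 2, 0, 0], [0, 2, 2, 2, 0, 0, 0, 0], [2, 2, 2, 2, 0, 0, 0, 0], [3, 2, 3, 0, 3, 2, 1, 0], [0, 0, 0, 0, 0, 0, 0, 0], [2, 0, 0, 0, 0, 0, 0, 0], [0, 0, 0, 0, 0, 0, 0, 0]]

def tb (e : List (List ℕ)) (a b : ZMod 8) : ℕ := (e.getD a.val []).getD b.val 0

lemma tb0 : ∀ a b : ZMod 8, (tb e1 b (0 - a - b) + tb e2 a (0 - a - b) + tb e3 a b) % 4 = 0 := by
  decide +kernel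
lemma tb1 : ∀ a b : ZMod 8, (tb e1 b (1 - a - b) + tb e2 a (1 - a - b) + tb e3 a b) % 4 = 0 := by
  decide +kernel
lemma tb4 : ∀ a b : ZMod 8, (tb e1 b (4 - a - b) + tb e2 a (4 - a - b) + tb e3 a b) % 4 = 1 := by
  decide +kernel

def Λ (φ : ZMod 8 → ℂ) : ℝ := (φ 0).re + (φ 1).re + (φ 4).im

lemma eq_one_of_re {z : ℂ} (h : ‖z‖ ≤ 1) (h1 : z.re = 1) : z = 1 := by
  have h2 : z.re ^ 2 + z.im ^ 2 ≤ 1 := by
    have := Complex.sq_norm z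
    rw [Complex.normSq_apply] at this
    nlinarith [norm_nonneg z]
  apply Complex.ext
  · simpa using h1
  · simp only [Complex.one_im]; nlinarith [sq_nonneg z.im]

lemma eq_I_of_im {z : ℂ} (h : ‖z‖ ≤ 1) (h1 : z.im = 1) : z = Complex.I := by
  have h2 : z.re ^ 2 + z.im ^ 2 ≤ 1 := by
    have := Complex.sq_norm z
    rw [Complex.normSq_apply] at this
    nlinarith [norm_nonneg z]
  apply Complex.ext
  · simp only [Complex.I_re]; nlinarith [sq_nonneg z.re]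
  · simpa using h1

lemma step (a b : ZMod 8 → ℂ) (p q r : ℂ) (h0 : ∀ z, b z * a z * p = 1)
    (h1 : ∀ z, b (z + 1) * a z * q = 1) (h4 : ∀ z, b (z + 4) * a z * r = Complex.I) :
    p ≠ 0 ∧ r ≠ 0 ∧ r * p ^ 3 = Complex.I * q ^ 4 ∧ r ^ 2 = -p ^ 2 := by
  have ha : ∀ z, a z ≠ 0 := fun z h => by simpa [h] using h0 z
  have hb : ∀ z, b z ≠ 0 := fun z h => by simpa [h] using h0 z
  have hp : p ≠ 0 := fun h => by simpa [h] using h0 0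
  have hr : r ≠ 0 := fun h => by simpa [h, Complex.ext_iff] using h4 0
  have k1 : ∀ z, b (z + 1) * q = b z * p := fun z => by
    apply mul_left_cancel₀ (ha z)
    linear_combination h1 z - h0 z
  have k4 : ∀ z, b (z + 4) * r = Complex.I * (b z * p) := fun z => by
    apply mul_left_cancel₀ (ha z)
    linear_combination h4 z - Complex.I * h0 z
  have a0 : b 1 * q = b 0 * p := k1 0
  have a1 : b 2 * q = b 1 * p := k1 1
  have a2 : b 3 * q = b 2 * p := k1 2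
  have a3 : b 4 * q = b 3 * p := k1 3
  have c0 : b 4 * r = Complex.I * (b 0 * p) := k4 0
  have c4 : b 0 * r = Complex.I * (b 4 * p) := k4 4
  have d : b 4 * q ^ 4 = b 0 * p ^ 4 := by
    linear_combination q ^ 3 * a3 + q ^ 2 * p * a2 + q * p ^ 2 * a1 + p ^ 3 * a0
  refine ⟨hp, hr, ?_, ?_⟩
  · apply mul_left_cancel₀ (mul_ne_zero (hb 0) hp)
    linear_combination q ^ 4 * c0 - r * d
  · apply mul_left_cancel₀ (hb 0)
    linear_combination r * c4 + Complex.I * p * c0 + b 0 * p ^ 2 * Complex.I_mul_I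

lemma gen_lt (f₁ f₂ : ZMod 8 → ZMod 8 → ℂ) (h : ZMod 8 → ℂ) (n1 : ∀ a b, ‖f₁ a b‖ ≤ 1)
    (n2 : ∀ a b, ‖f₂ a b‖ ≤ 1) (n3 : ∀ a, ‖h a‖ ≤ 1) :
    Λ (fun g => ((Fintype.card (ZMod 8) : ℂ) ^ 2)⁻¹ *
      ∑ x₁ : ZMod 8, ∑ x₂ : ZMod 8, f₁ x₂ (g - x₁ - x₂) * f₂ x₁ (g - x₁ - x₂) * h (x₁ + x₂)) < 3 := by
  set T : ZMod 8 → ZMod 8 → ZMod 8 → ℂ :=
    fun g x₁ x₂ => f₁ x₂ (g - x₁ - x₂) * f₂ x₁ (g - x₁ - x₂) * h (x₁ + x₂) with hT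
  have nT : ∀ g x y, ‖T g x y‖ ≤ 1 := fun g x y => by
    simp only [hT, norm_mul]
    exact mul_le_one₀ (mul_le_one₀ (n1 _ _) (norm_nonneg _) (n2 _ _)) (norm_nonneg _) (n3 _)
  have r1 : ∀ g x y, (T g x y).re ≤ 1 := fun g x y => (Complex.re_le_norm _).trans (nT g x y)
  have r2 : ∀ g x y, (T g x y).im ≤ 1 := fun g x y => (Complex.im_le_norm _).trans (nT g x y)
  have hc : ((Fintype.card (ZMod 8) : ℂ) ^ 2)⁻¹ = ((1 / 64 : ℝ) : ℂ) := by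
    rw [ZMod.card]; push_cast; norm_num
  by_contra hge
  have hsum : ∑ p : ZMod 8 × ZMod 8, (3 : ℝ) ≤ ∑ p : ZMod 8 × ZMod 8,
      ((T 0 p.1 p.2).re + (T 1 p.1 p.2).re + (T 4 p.1 p.2).im) := by
    simp only [Λ, hc, Complex.re_ofReal_mul, Complex.im_ofReal_mul, Complex.re_sum,
      Complex.im_sum, not_lt] at hge
    simp only [Finset.sum_add_distrib, Fintype.sum_prod_type, Finset.sum_const, Finset.card_univ,
      Fintype.card_prod, ZMod.card, nsmul_eq_mul, hT]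
    push_cast
    linarith
  have hall : ∀ p : ZMod 8 × ZMod 8,
      (T 0 p.1 p.2).re + (T 1 p.1 p.2).re + (T 4 p.1 p.2).im = 3 := by
    intro p
    have hle : ∀ p ∈ (Finset.univ : Finset (ZMod 8 × ZMod 8)),
        (T 0 p.1 p.2).re + (T 1 p.1 p.2).re + (T 4 p.1 p.2).im ≤ 3 := fun p _ => by
      linarith [r1 0 p.1 p.2, r1 1 p.1 p.2, r2 4 p.1 p.2]
    exact (Finset.sum_eq_sum_iff_of_le hle).mp
      (le_antisymm (Finset.sum_le_sum hle) hsum) p (Finset.mem_univ p)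
  have t0 : ∀ x y, T 0 x y = 1 := fun x y => eq_one_of_re (nT _ _ _) (by
    linarith [hall (x, y), r1 0 x y, r1 1 x y, r2 4 x y])
  have t1 : ∀ x y, T 1 x y = 1 := fun x y => eq_one_of_re (nT _ _ _) (by
    linarith [hall (x, y), r1 0 x y, r1 1 x y, r2 4 x y])
  have t4 : ∀ x y, T 4 x y = Complex.I := fun x y => eq_I_of_im (nT _ _ _) (by
    linarith [hall (x, y), r1 0 x y, r1 1 x y, r2 4 x y])
  have key : ∀ y : ZMod 8, h y ≠ 0 ∧ h (y + 4) ≠ 0 ∧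
      h (y + 4) * h y ^ 3 = Complex.I * h (y + 1) ^ 4 ∧ h (y + 4) ^ 2 = -h y ^ 2 := by
    intro y
    refine step (fun z => f₂ (y - z) (-y)) (fun z => f₁ z (-y)) _ _ _ (fun z => ?_)
      (fun z => ?_) (fun z => ?_)
    · have := t0 (y - z) z
      simp only [hT] at this
      rwa [show 0 - (y - z) - z = -y by ring, show y - z + z = y by ring] at this
    · have := t1 (y - z) (z + 1)
      simp only [hT] at this
      rwa [show 1 - (y - z) - (z + 1) = -y by ring, show y - z + (z + 1) = y + 1 by ring] at this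
    · have := t4 (y - z) (z + 4)
      simp only [hT] at this
      rwa [show 4 - (y - z) - (z + 4) = -y by ring, show y - z + (z + 4) = y + 4 by ring] at this
  obtain ⟨p0, p4, a0, b0⟩ : h 0 ≠ 0 ∧ h 4 ≠ 0 ∧ h 4 * h 0 ^ 3 = Complex.I * h 1 ^ 4 ∧
    h 4 ^ 2 = -h 0 ^ 2 := key 0
  have a4 : h 0 * h 4 ^ 3 = Complex.I * h 5 ^ 4 := (key 4).2.2.1
  have b1 : h 5 ^ 2 = -h 1 ^ 2 := (key 1).2.2.2
  have : 2 * h 4 * h 0 ^ 3 = 0 := by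
    linear_combination a0 - a4 + h 0 * h 4 * b0 - Complex.I * (h 5 ^ 2 - h 1 ^ 2) * b1
  simp [p0, p4] at this


/-- The negation of the preceding statement: For every finite abelian group G, the convex hull of the averages E over x1+x2+x3=g of f1(x2,x3)f2(x1,x3)f3(x1,x2), with complex f_i bounded by 1, equals the convex hull obtained when f3(x1,x2) is replaced by h(x1+x2). -/
theorem result :
    ¬ (∀ (G : Type) [AddCommGroup G] [Fintype G],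
      convexHull ℝ {φ : G → ℂ | ∃ f₁ f₂ f₃ : G → G → ℂ,
          (∀ a b, ‖f₁ a b‖ ≤ 1) ∧ (∀ a b, ‖f₂ a b‖ ≤ 1) ∧ (∀ a b, ‖f₃ a b‖ ≤ 1) ∧
          φ = fun g => ((Fintype.card G : ℂ) ^ 2)⁻¹ *
            ∑ x₁ : G, ∑ x₂ : G, f₁ x₂ (g - x₁ - x₂) * f₂ x₁ (g - x₁ - x₂) * f₃ x₁ x₂}
      = convexHull ℝ {φ : G → ℂ | ∃ f₁ f₂ : G → G → ℂ, ∃ h : G → ℂ,
          (∀ a b, ‖f₁ a b‖ ≤ 1) ∧ (∀ a b, ‖f₂ a b‖ ≤ 1) ∧ (∀ a, ‖h a‖ ≤ 1) ∧
          φ = fun g => ((Fintype.card G : ℂ) ^ 2)⁻¹ *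
            ∑ x₁ : G, ∑ x₂ : G, f₁ x₂ (g - x₁ - x₂) * f₂ x₁ (g - x₁ - x₂) * h (x₁ + x₂)}) := by
  intro H
  have H8 := H (ZMod 8)
  have hconv : Convex ℝ {φ : ZMod 8 → ℂ | Λ φ < 3} :=
    convex_halfSpace_lt (f := Λ) ⟨fun x y => by simp [Λ]; ring, fun c x => by simp [Λ]; ring⟩ 3
  have hnorm : ∀ n : ℕ, ‖Complex.I ^ n‖ ≤ 1 := fun n => by simp
  have hmem := subset_convexHull ℝ _ (show (fun g : ZMod 8 =>
      ((Fintype.card (ZMod 8) : ℂ) ^ 2)⁻¹ * ∑ x₁ : ZMod 8, ∑ x₂ : ZMod 8,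
        Complex.I ^ tb e1 x₂ (g - x₁ - x₂) * Complex.I ^ tb e2 x₁ (g - x₁ - x₂)
          * Complex.I ^ tb e3 x₁ x₂) ∈ {φ : ZMod 8 → ℂ | ∃ f₁ f₂ f₃ : ZMod 8 → ZMod 8 → ℂ,
          (∀ a b, ‖f₁ a b‖ ≤ 1) ∧ (∀ a b, ‖f₂ a b‖ ≤ 1) ∧ (∀ a b, ‖f₃ a b‖ ≤ 1) ∧
          φ = fun g => ((Fintype.card (ZMod 8) : ℂ) ^ 2)⁻¹ *
            ∑ x₁ : ZMod 8, ∑ x₂ : ZMod 8,
              f₁ x₂ (g - x₁ - x₂) * f₂ x₁ (g - x₁ - x₂) * f₃ x₁ x₂} from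
    ⟨fun a b => Complex.I ^ tb e1 a b, fun a b => Complex.I ^ tb e2 a b,
      fun a b => Complex.I ^ tb e3 a b, fun _ _ => hnorm _, fun _ _ => hnorm _,
      fun _ _ => hnorm _, rfl⟩)
  rw [H8] at hmem
  have hlt := convexHull_min (by
    rintro φ ⟨f₁, f₂, h, n1, n2, n3, rfl⟩
    exact gen_lt f₁ f₂ h n1 n2 n3) hconv hmem
  have hI : ∀ n : ℕ, Complex.I ^ n = Complex.I ^ (n % 4) := fun n =>
    pow_eq_pow_mod n Complex.I_pow_four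
  simp only [Set.mem_ofPred_eq, Λ, ← pow_add] at hlt
  simp only [hI (_ + _ + _), tb0, tb1, tb4] at hlt
  simp [ZMod.card] at hlt
  norm_num at hlt

end Pool.Agent.S11510
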