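import Pool.Statements.S11520
import Pool.Agent.H10.Third

set_option autoImplicit false
open MeasureTheory
open Pool Pool.MP_ced1be_co

namespace Pool.Agent.S11520

/-- The negation of the preceding statement: For any two measurable planar sets of finite area, some open disk or open half-plane contains exactly one third of the area of each set. -/
theorem result :
    ¬ (∀ A₁ A₂ : Set (EuclideanSpace ℝ (Fin 2)),
      MeasurableSet A₁ → MeasurableSet A₂ →
      volume A₁ < ⊤ → volume A₂ < ⊤ →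
      ∃ S : Set (EuclideanSpace ℝ (Fin 2)),
        ((∃ (p : EuclideanSpace ℝ (Fin 2)) (r : ℝ), 0 < r ∧ S = Metric.ball p r) ∨
         (∃ (v : EuclideanSpace ℝ (Fin 2)) (c : ℝ), v ≠ 0 ∧
            S = {x : EuclideanSpace ℝ (Fin 2) | inner ℝ v x < c})) ∧
        volume (A₁ ∩ S) = volume A₁ / 3 ∧
        volume (A₂ ∩ S) = volume A₂ / 3) := by
  intro h
  obtain ⟨A₁, A₂, m1, m2, f1, f2, hA⟩ := H10.Third.main
  obtain ⟨S, hS, e1, e2⟩ := h A₁ A₂ m1 m2 f1 f2
  rcases hS with ⟨p, r, r0, rfl⟩ | ⟨v, c, -, rfl⟩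
  · refine hA _ 1 (-2 * p 0) (-2 * p 1) (p 0 ^ 2 + p 1 ^ 2 - r ^ 2) zero_le_one (fun x => ?_) e1 e2
    rw [Metric.mem_ball, EuclideanSpace.dist_eq, Real.sqrt_lt' r0]
    simp only [Fin.sum_univ_two, Real.dist_eq, sq_abs, H10.Third.n]
    constructor <;> intro <;> linarith
  · refine hA _ 0 (v 0) (v 1) (-c) le_rfl (fun x => ?_) e1 e2
    simp only [Set.mem_setOf_eq, PiLp.inner_apply, Fin.sum_univ_two, RCLike.inner_apply,
      conj_trivial]
    constructor <;> intro <;> linarith

end Pool.Agent.S11520
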