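import Pool.Statements.S11541
import Pool.Agent.H59.SD3

set_option autoImplicit false
open Pointwise
open Pool Pool.MP_cf8024_co

namespace Pool.Agent.S11541

/-- For every K>0 there is C such that for all n≥1, every nonempty A in F_2^n with density at least 1/2−K/√n has sumset A+A containing a coset x+V of a subspace V of codimension at most C. -/
theorem result :
    ∀ K : ℝ, 0 < K → ∃ C : ℕ, ∀ n : ℕ, 1 ≤ n →
      ∀ A : Finset (Fin n → ZMod 2), A.Nonempty →
        (1 / 2 : ℝ) - K / Real.sqrt (n : ℝ) ≤ (A.card : ℝ) / (2 : ℝ) ^ n →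
          ∃ V : Submodule (ZMod 2) (Fin n → ZMod 2), ∃ x : Fin n → ZMod 2,
            n ≤ Module.finrank (ZMod 2) V + C ∧
            ∀ v ∈ V, x + v ∈ A + A := by
  intro K hK
  obtain ⟨C, hC⟩ := Pool.Agent.H59.SD.near_half K hK
  refine ⟨C, fun n hn A hA h => ?_⟩
  obtain ⟨V, h1, h2⟩ := hC n hn A hA h
  exact ⟨V, 0, h1, fun v hv => by simpa using h2 v hv⟩

end Pool.Agent.S11541
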