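import Pool.Statements.S11547
import Pool.Agent.H15.Hold3

set_option autoImplicit false
open Pool Pool.MP_cfb0df_co

namespace Pool.Agent.S11547Aux
open Finset Pool.Agent.H15.Hold3

theorem sum_succ {V : Type*} [Fintype V] {n : ℕ} (Φ : (Fin (n + 1) → V) → ℝ) :
    ∑ f, Φ f = ∑ x : V, ∑ f : Fin n → V, Φ (Matrix.vecCons x f) := by
  rw [← (Fin.consEquiv (fun _ : Fin (n + 1) => V)).sum_comp, Fintype.sum_prod_type]
  rfl

theorem sum_zero {V : Type*} [Fintype V] (Φ : (Fin 0 → V) → ℝ) : ∑ f, Φ f = Φ ![] := by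
  rw [Fintype.sum_unique]; congr 1

def p : Fin 18 → Fin 16 × Fin 16 :=
  ![(0,6),(6,5),(5,1),(0,3),(3,4),(4,2),(2,1),
    (7,15),(15,8),(7,14),(14,8),(7,12),(12,13),(13,9),(7,10),(10,11),(11,9),(8,9)]

def e (i : Fin 18) : Finset (Fin 16) := {(p i).1, (p i).2}

theorem sumC7 {V : Type*} [Fintype V] (g : V → V → V → ℝ) :
    ∑ x : Fin 7 → V, W g (x 0) (x 6) * W g (x 6) (x 5) * W g (x 5) (x 1) *
      (W g (x 0) (x 3) * W g (x 3) (x 4) * W g (x 4) (x 2) * W g (x 2) (x 1)) = C7 g := by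
  simp only [sum_succ, sum_zero, Matrix.cons_val]
  simp only [C7, U2, U3, mul_sum, sum_mul]

theorem sumFF {V : Type*} [Fintype V] (g : V → V → V → ℝ) :
    ∑ x : Fin 9 → V, W g (x 0) (x 8) * W g (x 8) (x 1) * (W g (x 0) (x 7) * W g (x 7) (x 1)) *
      (W g (x 0) (x 5) * W g (x 5) (x 6) * W g (x 6) (x 2)) *
      (W g (x 0) (x 3) * W g (x 3) (x 4) * W g (x 4) (x 2)) * W g (x 1) (x 2) = FF g := by
  simp only [sum_succ, sum_zero, Matrix.cons_val]
  simp only [FF, U2, U3, mul_sum, sum_mul]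

theorem sumH {V : Type*} [Fintype V] (g : V → V → V → ℝ) :
    ∑ f : Fin 16 → V, ∏ i : Fin 18, W g (f (p i).1) (f (p i).2) = C7 g * FF g := by
  rw [← sumC7, ← sumFF, sum_mul_sum, ← Fintype.sum_prod_type']
  symm
  refine Fintype.sum_equiv (Fin.appendEquiv 7 9) _ _ (fun q => ?_)
  obtain ⟨x, y⟩ := q
  have hx : ∀ i : Fin 7, Fin.appendEquiv 7 9 (x, y) (Fin.castAdd 9 i) = x i :=
    fun i => Fin.append_left x y i
  have hy : ∀ i : Fin 9, Fin.appendEquiv 7 9 (x, y) (Fin.natAdd 7 i) = y i :=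
    fun i => Fin.append_right x y i
  dsimp only
  rw [← hx 0, ← hx 1, ← hx 2, ← hx 3, ← hx 4, ← hx 5, ← hx 6, ← hy 0, ← hy 1, ← hy 2, ← hy 3,
    ← hy 4, ← hy 5, ← hy 6, ← hy 7, ← hy 8]
  generalize Fin.appendEquiv 7 9 (x, y) = f
  simp only [Fin.prod_univ_succ, Fin.prod_univ_zero, p, Matrix.cons_val_zero, Matrix.cons_val_succ]
  show f 0 |> fun _ => W g (f 0) (f 6) * W g (f 6) (f 5) * W g (f 5) (f 1) *
      (W g (f 0) (f 3) * W g (f 3) (f 4) * W g (f 4) (f 2) * W g (f 2) (f 1)) *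
      (W g (f 7) (f 15) * W g (f 15) (f 8) * (W g (f 7) (f 14) * W g (f 14) (f 8)) *
      (W g (f 7) (f 12) * W g (f 12) (f 13) * W g (f 13) (f 9)) *
      (W g (f 7) (f 10) * W g (f 10) (f 11) * W g (f 11) (f 9)) * W g (f 8) (f 9)) = _
  ring

noncomputable def gg {n : ℕ} (G : Finset (Finset (Fin n))) (a b c : Fin n) : ℝ :=
  if ({a, b, c} : Finset (Fin n)) ∈ G then 1 else 0

theorem count {n : ℕ} (G : Finset (Finset (Fin n))) :
    ((Finset.univ.filter
      (fun f : Fin 16 ⊕ (Fin 18 × Fin (3 - 2)) → Fin n =>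
        ∀ i : Fin 18,
          ((e i).image (Sum.inl : Fin 16 → Fin 16 ⊕ (Fin 18 × Fin (3 - 2))) ∪
            (Finset.univ : Finset (Fin (3 - 2))).image
              (fun j : Fin (3 - 2) =>
                (Sum.inr (i, j) : Fin 16 ⊕ (Fin 18 × Fin (3 - 2))))).image f ∈ G)).card : ℝ)
      = C7 (gg G) * FF (gg G) := by
  rw [← sumH, card_filter]
  push_cast
  rw [← (Equiv.sumArrowEquivProdArrow _ _ _).symm.sum_comp, Fintype.sum_prod_type]
  refine sum_congr rfl (fun f1 _ => ?_)
  have h1 : ∏ i : Fin 18, W (gg G) (f1 (p i).1) (f1 (p i).2) =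
      ∏ q : Fin 18 × Fin (3 - 2), ∑ z ∈ univ, gg G z (f1 (p q.1).1) (f1 (p q.1).2) := by
    rw [Fintype.prod_prod_type]
    refine prod_congr rfl (fun i _ => ?_)
    simp [W]
  rw [h1, prod_univ_sum, Fintype.piFinset_univ]
  refine sum_congr rfl (fun f2 _ => ?_)
  rw [Fintype.prod_prod_type]
  have h2 : ∀ i : Fin 18, ((e i).image (Sum.inl : Fin 16 → Fin 16 ⊕ (Fin 18 × Fin (3 - 2))) ∪
            (Finset.univ : Finset (Fin (3 - 2))).image
              (fun j : Fin (3 - 2) =>
                (Sum.inr (i, j) : Fin 16 ⊕ (Fin 18 × Fin (3 - 2))))).image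
              ((Equiv.sumArrowEquivProdArrow _ _ _).symm (f1, f2)) =
        {f2 (i, (0 : Fin 1)), f1 (p i).1, f1 (p i).2} := by
    intro i
    have : (Finset.univ : Finset (Fin (3 - 2))) = {(0 : Fin 1)} := by decide
    rw [this, e]
    simp only [image_union, image_insert, image_singleton,
      Equiv.sumArrowEquivProdArrow_symm_apply_inl, Equiv.sumArrowEquivProdArrow_symm_apply_inr]
    ext x; simp only [mem_union, mem_insert, mem_singleton]; tauto
  simp only [h2]
  have h3 : ∀ i : Fin 18, ∏ j : Fin (3 - 2), gg G (f2 (i, j)) (f1 (p i).1) (f1 (p i).2) =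
      gg G (f2 (i, (0 : Fin 1))) (f1 (p i).1) (f1 (p i).2) := fun i => Fin.prod_univ_one _
  rw [prod_congr rfl (fun i _ => h3 i)]
  simp only [gg]
  rw [Fintype.prod_ite_zero]
  simp

theorem edges {n : ℕ} (G : Finset (Finset (Fin n))) (hG : ∀ g ∈ G, g.card = 3) :
    ((Nat.factorial 3 * G.card : ℕ) : ℝ) ≤ ∑ b, ∑ c, W (gg G) b c := by
  have h1 : ∑ b, ∑ c, W (gg G) b c =
      ((univ.filter (fun t : Fin n × Fin n × Fin n => ({t.2.2, t.1, t.2.1} : Finset (Fin n)) ∈ G)).card : ℝ) := by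
    rw [card_filter]; push_cast
    simp only [Fintype.sum_prod_type, W, gg]
  rw [h1]
  norm_cast
  rw [card_eq_sum_card_fiberwise (f := fun t : Fin n × Fin n × Fin n => ({t.2.2, t.1, t.2.1} : Finset (Fin n)))
    (s := univ.filter (fun t : Fin n × Fin n × Fin n => ({t.2.2, t.1, t.2.1} : Finset (Fin n)) ∈ G))
    (t := G) (fun t ht => (mem_filter.1 ht).2), mul_comm, ← smul_eq_mul]
  refine card_nsmul_le_sum _ _ _ (fun s hs => ?_)
  obtain ⟨a, b, c, hab, hac, hbc, rfl⟩ := card_eq_three.1 (hG s hs)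
  have hsub : ({(a,b,c),(a,c,b),(b,a,c),(b,c,a),(c,a,b),(c,b,a)} : Finset (Fin n × Fin n × Fin n)) ⊆
      (univ.filter (fun t : Fin n × Fin n × Fin n => ({t.2.2, t.1, t.2.1} : Finset (Fin n)) ∈ G)).filter
        (fun t => ({t.2.2, t.1, t.2.1} : Finset (Fin n)) = {a, b, c}) := by
    intro t ht
    have : ({t.2.2, t.1, t.2.1} : Finset (Fin n)) = {a, b, c} := by
      simp only [mem_insert, mem_singleton] at ht
      rcases ht with rfl | rfl | rfl | rfl | rfl | rfl <;>
        (ext x; simp only [mem_insert, mem_singleton] <;> tauto)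
    exact mem_filter.2 ⟨mem_filter.2 ⟨mem_univ _, this ▸ hs⟩, this⟩
  refine le_trans ?_ (card_le_card hsub)
  have hba := hab.symm
  have hca := hac.symm
  have hcb := hbc.symm
  rw [card_insert_of_notMem, card_insert_of_notMem, card_insert_of_notMem, card_insert_of_notMem,
    card_insert_of_notMem, card_singleton] <;> simp [*, Nat.factorial]

end Pool.Agent.S11547Aux

namespace Pool.Agent.S11547

/-- There exist k ≥ 2, r > k and a k-uniform hypergraph H that fails the Sidorenko density inequality for some finite k-graph, while its r-expansion (each edge padded with r−k new degree-one vertices) satisfies the Sidorenko inequality against every finite r-graph. -/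
theorem result :
    ∃ (k r a m : ℕ) (e : Fin m → Finset (Fin a)),
      2 ≤ k ∧ k < r ∧ Function.Injective e ∧ (∀ i, (e i).card = k) ∧
      (¬ ∀ n : ℕ, 0 < n → ∀ G : Finset (Finset (Fin n)), (∀ g ∈ G, g.card = k) →
        (((k.factorial * G.card : ℕ) : ℝ) / (n : ℝ) ^ k) ^ m ≤
          ((Finset.univ.filter
              (fun f : Fin a → Fin n => ∀ i : Fin m, (e i).image f ∈ G)).card : ℝ)
            / (n : ℝ) ^ a) ∧
      (∀ n : ℕ, 0 < n → ∀ G : Finset (Finset (Fin n)), (∀ g ∈ G, g.card = r) →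
        (((r.factorial * G.card : ℕ) : ℝ) / (n : ℝ) ^ r) ^ m ≤
          ((Finset.univ.filter
              (fun f : Fin a ⊕ (Fin m × Fin (r - k)) → Fin n =>
                ∀ i : Fin m,
                  ((e i).image (Sum.inl : Fin a → Fin a ⊕ (Fin m × Fin (r - k))) ∪
                    (Finset.univ : Finset (Fin (r - k))).image
                      (fun j : Fin (r - k) =>
                        (Sum.inr (i, j) : Fin a ⊕ (Fin m × Fin (r - k))))).image f ∈ G)).card : ℝ)
            / (n : ℝ) ^ (a + m * (r - k))) := by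
  refine ⟨2, 3, 16, 18, S11547Aux.e, le_rfl, by norm_num, by decide +kernel, by decide +kernel, ?_, ?_⟩
  · intro h
    have h1 := h 2 (by norm_num) {Finset.univ} (by simp)
    have h2 : (Finset.univ.filter (fun f : Fin 16 → Fin 2 => ∀ i : Fin 18,
        (S11547Aux.e i).image f ∈ ({Finset.univ} : Finset (Finset (Fin 2))))) = ∅ := by
      refine Finset.filter_eq_empty_iff.2 (fun f _ hf => ?_)
      have h3 : ∀ i, (f (S11547Aux.p i).1).val ≠ (f (S11547Aux.p i).2).val := by
        intro i hi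
        have h4 := Finset.mem_singleton.1 (hf i)
        have h5 := congrArg Finset.card h4
        rw [S11547Aux.e, Finset.image_insert, Finset.image_singleton, Fin.ext hi] at h5
        simp at h5
      have a0 : (f 0).val ≠ (f 6).val := h3 0
      have a1 : (f 6).val ≠ (f 5).val := h3 1
      have a2 : (f 5).val ≠ (f 1).val := h3 2
      have a3 : (f 0).val ≠ (f 3).val := h3 3
      have a4 : (f 3).val ≠ (f 4).val := h3 4
      have a5 : (f 4).val ≠ (f 2).val := h3 5
      have a6 : (f 2).val ≠ (f 1).val := h3 6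
      have := (f 0).2; have := (f 1).2; have := (f 2).2; have := (f 3).2
      have := (f 4).2; have := (f 5).2; have := (f 6).2
      omega
    rw [h2] at h1
    norm_num at h1
  · intro n hn G hG
    rw [S11547Aux.count G]
    have h1 := S11547Aux.edges G hG
    have h2 := Pool.Agent.H15.Hold3.main (S11547Aux.gg G)
      (fun a b c => by unfold S11547Aux.gg; split_ifs <;> norm_num)
      (fun a b c => by unfold S11547Aux.gg; rw [Finset.insert_comm])
      (fun a b c => by unfold S11547Aux.gg; rw [Finset.pair_comm b c])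
    rw [Fintype.card_fin] at h2
    have hn' : (0 : ℝ) < n := by exact_mod_cast hn
    rw [div_pow, div_le_div_iff₀ (by positivity) (by positivity)]
    calc _ ≤ (∑ b, ∑ c, Pool.Agent.H15.Hold3.W (S11547Aux.gg G) b c) ^ 18 * (n : ℝ) ^ (16 + 18 * (3 - 2)) := by
          gcongr
      _ ≤ (Pool.Agent.H15.Hold3.C7 (S11547Aux.gg G) * Pool.Agent.H15.Hold3.FF (S11547Aux.gg G) * (n : ℝ) ^ 20) *
          (n : ℝ) ^ (16 + 18 * (3 - 2)) := by gcongr
      _ = _ := by ring

end Pool.Agent.S11547
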