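import Pool.Statements.S11563
import Pool.Agent.H97.Pack4

set_option autoImplicit false
open Pool Pool.MP_d03aa7_co

namespace Pool.Agent.S11563

/-- For every α>0 there is N such that for all n≥N, any two n-vertex graphs G, H, each contained (as a subgraph, up to relabelling) in G(n,1/2) with probability ≥ α, pack: some vertex permutation maps H's edges to non-edges of G. -/
theorem result :
    ∀ α : ℝ, 0 < α → ∃ N : ℕ, ∀ n : ℕ, N ≤ n → ∀ G H : SimpleGraph (Fin n),
      α ≤ ({K : SimpleGraph (Fin n) | ∃ f : Fin n → Fin n, Function.Injective f ∧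
              ∀ u v, G.Adj u v → K.Adj (f u) (f v)}.ncard : ℝ)
            / (Nat.card (SimpleGraph (Fin n)) : ℝ) →
      α ≤ ({K : SimpleGraph (Fin n) | ∃ f : Fin n → Fin n, Function.Injective f ∧
              ∀ u v, H.Adj u v → K.Adj (f u) (f v)}.ncard : ℝ)
            / (Nat.card (SimpleGraph (Fin n)) : ℝ) →
      ∃ σ : Fin n ≃ Fin n, ∀ u v, H.Adj u v → ¬ G.Adj (σ u) (σ v) := by
  intro α hα
  obtain ⟨r, hr⟩ := pow_unbounded_of_one_lt (1 / α) (show (1 : ℝ) < 2 by norm_num)
  obtain ⟨N, hN⟩ := H97.Pack.pack r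
  refine ⟨N, fun n hn G H hG hH => ?_⟩
  have key : ∀ K : SimpleGraph (Fin n),
      α ≤ ({K' : SimpleGraph (Fin n) | ∃ f : Fin n → Fin n, Function.Injective f ∧
              ∀ u v, K.Adj u v → K'.Adj (f u) (f v)}.ncard : ℝ)
            / (Nat.card (SimpleGraph (Fin n)) : ℝ) → H97.Pack.Rich K r := by
    intro K h
    have e : {K' : SimpleGraph (Fin n) | ∃ f : Fin n → Fin n, Function.Injective f ∧
        ∀ u v, K.Adj u v → K'.Adj (f u) (f v)} = (H97.Pack.Emb K : Set _) := by
      ext K'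
      simp [H97.Pack.Emb]
    have p : (0 : ℝ) < Fintype.card (SimpleGraph (Fin n)) := by exact_mod_cast Fintype.card_pos
    rw [e, Set.ncard_coe_finset, Nat.card_eq_fintype_card, le_div_iff₀ p] at h
    rw [div_lt_iff₀ hα] at hr
    have : (Fintype.card (SimpleGraph (Fin n)) : ℝ) < 2 ^ r * (H97.Pack.Emb K).card :=
      calc _ = 1 * (Fintype.card (SimpleGraph (Fin n)) : ℝ) := (one_mul _).symm
        _ < 2 ^ r * α * Fintype.card (SimpleGraph (Fin n)) := mul_lt_mul_of_pos_right hr p
        _ ≤ _ := by rw [mul_assoc]; exact mul_le_mul_of_nonneg_left h (by positivity)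
    unfold H97.Pack.Rich
    exact_mod_cast this
  obtain ⟨σ, hσ⟩ := hN n hn H G (key H hH) (key G hG)
  exact ⟨σ, fun u v a b => hσ u v ⟨a, b⟩⟩

end Pool.Agent.S11563
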