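import Pool.Statements.S11620
import Pool.Agent.H2.NBTail

set_option autoImplicit false
open scoped Classical
open Pool Pool.MP_d250d1_co

namespace Pool.Agent.S11620

/-- The negation of the preceding statement: For all real ρ and ε>0 there is N such that every connected simple graph with min degree ≥2, at least N vertices and non-backtracking spectral radius ρ has at least two eigenvalues (with multiplicity) of modulus ≥ √ρ−ε. -/
theorem result :
    ¬ (∀ ρ : ℝ, ∀ ε : ℝ, 0 < ε → ∃ N : ℕ,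
      ∀ (V : Type) [Fintype V] (G : SimpleGraph V),
        G.Connected →
        (∀ v : V, 2 ≤ G.degree v) →
        N ≤ Fintype.card V →
        ∀ s : Multiset ℂ,
          s = (Matrix.charpoly (Matrix.of (fun d e : G.Dart =>
                if d.snd = e.fst ∧ e.snd ≠ d.fst then (1 : ℂ) else 0))).roots →
          ((∃ z ∈ s, ‖z‖ = ρ) ∧ (∀ z ∈ s, ‖z‖ ≤ ρ)) →
          2 ≤ (s.filter (fun z : ℂ => Real.sqrt ρ - ε ≤ ‖z‖)).card) := by
  intro H
  have hs : (141 : ℝ) / 100 < Real.sqrt 2 := Real.lt_sqrt_of_sq_lt (by norm_num)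
  obtain ⟨N, hN⟩ := H 2 (Real.sqrt 2 - 141 / 100) (by linarith)
  let L := H2.NB.fam N
  let b : Fin L.length → Bool := fun i => L[i].1
  let n : Fin L.length → ℕ := fun i => L[i].2
  have hok : ∀ i : Fin L.length, H2.NB.ok L[i] := fun i => H2.NB.fam_ok N _ (List.getElem_mem _)
  have hn : ∀ i, 2 ≤ n i := fun i => (hok i).1
  have hb : ∀ i, b i = true → 3 ≤ n i := fun i => (hok i).2
  have hlen : N + 2 ≤ L.length := by
    have := H2.NB.tl_len N 19
    simp only [L, H2.NB.fam, List.length_append]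
    omega
  have hsum : ∀ z : ℂ, ∑ i, H2.NB.Un (b i) (n i) z / H2.NB.Dn (b i) (n i) z = (L.map (H2.NB.Sz z)).sum :=
    fun z => Fin.sum_univ_fun_getElem L (H2.NB.Sz z)
  have hh : ‖(1 / 2 : ℂ)‖ ≤ 100 / 141 := by norm_num
  have i0 : 0 < L.length := by omega
  have i1 : 1 < L.length := by omega
  have nb2 := H2.NB.two_nb b n hn hb ⟨0, i0⟩ ⟨1, i1⟩ (by simp)
  obtain ⟨a0, -, ha0, -⟩ := nb2 none
  obtain ⟨g1, g2⟩ := H2.NB.gen (H2.NB.Gr b n) none (141 / 100) (by norm_num) (by norm_num)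
    (fun z z0 hz f hf => by
      have hz' : ‖z‖ ≤ 100 / 141 := by rwa [inv_div] at hz
      obtain ⟨p, q⟩ := H2.NB.H1g b n hn hb z z0 (by linarith)
        (fun i => H2.NB.Dn_ne z hz' _ (hok i)) f hf
      exact ⟨p, fun h => H2.NB.fam_only N z hz' ((hsum z).symm.trans (q h))⟩)
    (H2.NB.f0 b n)
    (H2.NB.f0_VE b n hn hb (fun i => H2.NB.Dn_ne _ hh _ (hok i)) ((hsum _).trans (H2.NB.fam_half N)))
    (H2.NB.f0_pos b n hn) ⟨(none, a0), ha0⟩
  have h := hN (H2.NB.Vt n) (H2.NB.Gr b n) (H2.NB.conn b n hn)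
    (fun v => by
      obtain ⟨a, c, ha, hc, hac⟩ := nb2 v
      exact H2.NB.deg2 _ v a c ha hc hac)
    (by
      have := H2.NB.card_ge n hn
      rw [Fintype.card_fin] at this
      omega) _ rfl g1
  rw [sub_sub_cancel] at h
  have h2 : 2 ≤ 1 := h.trans g2
  omega

end Pool.Agent.S11620
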