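import Pool.Statements.S11646
import Pool.Agent.H30.MobE

set_option autoImplicit false
open Classical
open Pool Pool.MP_d308b2_co

namespace Pool.Agent.S11646

/-- The negation of the preceding statement: There is a function f on naturals such that for all permutations σ, τ, the absolute value of the Möbius function μ(σ,τ) of the pattern-containment poset is at most f of the number of occurrences of σ in τ. -/
theorem result :
    ¬ (∃ f : ℕ → ℕ, ∀ m : (Σ n : ℕ, Equiv.Perm (Fin n)) → (Σ n : ℕ, Equiv.Perm (Fin n)) → ℤ,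
      (∀ x, m x x = 1) →
      (∀ x y, (¬ ∃ e : Fin x.1 → Fin y.1, StrictMono e ∧
          ∀ i j, x.2 i < x.2 j ↔ y.2 (e i) < y.2 (e j)) → m x y = 0) →
      (∀ x y, x ≠ y →
        (∃ e : Fin x.1 → Fin y.1, StrictMono e ∧
          ∀ i j, x.2 i < x.2 j ↔ y.2 (e i) < y.2 (e j)) →
        ∑ k ∈ Finset.range (y.1 + 1), ∑ ρ : Equiv.Perm (Fin k),
          (if (∃ e : Fin x.1 → Fin k, StrictMono e ∧
                ∀ i j, x.2 i < x.2 j ↔ ρ (e i) < ρ (e j)) ∧
              (∃ e : Fin k → Fin y.1, StrictMono e ∧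
                ∀ i j, ρ i < ρ j ↔ y.2 (e i) < y.2 (e j))
            then m x ⟨k, ρ⟩ else 0) = 0) →
      ∀ x y, |m x y| ≤
        ((f {e : Fin x.1 → Fin y.1 | StrictMono e ∧
            ∀ i j, x.2 i < x.2 j ↔ y.2 (e i) < y.2 (e j)}.ncard : ℕ) : ℤ)) := by
  rintro ⟨f, hf⟩
  obtain ⟨m, h1, h2, h3⟩ := Pool.Agent.H30.MobA.exists_mu
  have hb := hf m h1 h2 (fun x y a b => by
    have h4 := h3 x y a b
    refine Eq.trans ?_ h4
    refine Finset.sum_congr rfl fun k _ => Finset.sum_congr rfl fun ρ _ => ?_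
    exact if_congr Iff.rfl rfl rfl)
  let k := f 0 + f 1 + f 2 + 4
  have a := hb (Pool.Agent.H30.MobA.pat (Pool.Agent.H30.MobB.val k) (Pool.Agent.H30.MobB.E1 k))
    (Pool.Agent.H30.MobA.pat (Pool.Agent.H30.MobB.val k) (Pool.Agent.H30.MobB.U k))
  have b := Pool.Agent.H30.MobB.main m h1 h3 k
  have c := Pool.Agent.H30.MobB.count k
  have d : ∀ n, n ≤ 2 → f n ≤ f 0 + f 1 + f 2 := by
    intro n hn
    interval_cases n <;> omega
  have e := d _ c
  have e2 := neg_abs_le (m (Pool.Agent.H30.MobA.pat (Pool.Agent.H30.MobB.val k)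
    (Pool.Agent.H30.MobB.E1 k))
    (Pool.Agent.H30.MobA.pat (Pool.Agent.H30.MobB.val k) (Pool.Agent.H30.MobB.U k)))
  have hk : (k : ℤ) = f 0 + f 1 + f 2 + 4 := by simp [k]
  have e3 : ((f {e | Pool.Agent.H30.MobA.Emb
      (Pool.Agent.H30.MobA.pat (Pool.Agent.H30.MobB.val k) (Pool.Agent.H30.MobB.E1 k))
      (Pool.Agent.H30.MobA.pat (Pool.Agent.H30.MobB.val k) (Pool.Agent.H30.MobB.U k)) e}.ncard : ℕ)
      : ℤ) ≤ f 0 + f 1 + f 2 := by exact_mod_cast e
  have a2 := a.trans e3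
  linarith

end Pool.Agent.S11646
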