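import Pool.Statements.S11695
import Pool.Agent.H81.Ins1
import Pool.Agent.H81.Ins2

set_option autoImplicit false
open Pool Pool.MP_d56329_co

namespace Pool.Agent.S11695

open Set Module Pool.Agent.H81.Ins in
theorem quad {d : ℕ} [Nontrivial (E d)] (S : Finset (E d))
    (hS : (interior (convexHull ℝ (S : Set (E d)))).Nonempty)
    (hn : {F : Set (E d) | IsExposed ℝ (convexHull ℝ (S : Set (E d))) F ∧ F.Nonempty ∧
      finrank ℝ (vectorSpan ℝ F) + 1 = d}.ncard ≤ d + 3) :
    ∃ (σ : E d × ℝ →ₗ[ℝ] ℝ) (B : LinearMap.BilinForm ℝ (E d × ℝ)), σ ≠ 0 ∧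
      (∀ x y, B x y = B y x) ∧ (∀ w, σ w = 0 → w ≠ 0 → B w w < 0) ∧
      ∀ v ∈ (convexHull ℝ (S : Set (E d))).extremePoints ℝ,
        0 < σ (v, 1) ∧ B (v, 1) (v, 1) = 0 := by
  classical
  set P := convexHull ℝ (S : Set (E d)) with hP
  set Fs := {F : Set (E d) | IsExposed ℝ P F ∧ F.Nonempty ∧ finrank ℝ (vectorSpan ℝ F) + 1 = d}
  have hfin : Fs.Finite := Finite.of_injOn (f := fun F => (S : Set (E d)) ∩ F)
    (fun F _ => inter_subset_left) (fun F hF G hG h => by
      rw [supp hF.1, supp hG.1]; exact congrArg _ h) S.finite_toSet.finite_subsets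
  have := hfin.fintype
  have hcard : Fintype.card Fs ≤ d + 3 := by
    rwa [← Nat.card_eq_fintype_card, Nat.card_coe_set_eq]
  have htop : vectorSpan ℝ P = ⊤ := AffineSubspace.vectorSpan_eq_top_of_affineSpan_eq_top ℝ _ _
    (by rw [hP, affineSpan_convexHull]
        exact interior_convexHull_nonempty_iff_affineSpan_eq_top.mp hS)
  have h1 : ∀ F : Fs, ∃ (l : E d →ₗ[ℝ] ℝ) (c : ℝ), (∀ x ∈ P, l x ≤ c) ∧ (∀ x ∈ F.1, l x = c) ∧
      vectorSpan ℝ F.1 = LinearMap.ker l := by
    rintro ⟨F, hF, ⟨a, ha⟩, hd⟩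
    obtain ⟨l, hl⟩ := hF ⟨a, ha⟩
    have ha' := hl.subset ha
    have e : ∀ x ∈ F, l x = l a := fun x hx =>
      (ha'.2 x (hl.subset hx).1).antisymm ((hl.subset hx).2 a ha'.1)
    refine ⟨l.toLinearMap, l a, ha'.2, e, ?_⟩
    change vectorSpan ℝ F = _
    have hl0 : l.toLinearMap ≠ 0 := fun h => by
      have h0 : ∀ x, l x = 0 := LinearMap.congr_fun h
      have : F = P := by rw [hl]; simp [h0]
      rw [this, htop, finrank_top, finrank_euclideanSpace_fin] at hd
      omega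
    have w2 := Module.Dual.finrank_ker_add_one_of_ne_zero hl0
    rw [finrank_euclideanSpace_fin] at w2
    refine Submodule.eq_of_le_of_finrank_eq ?_ (by omega)
    rw [vectorSpan_eq_span_vsub_set_right ℝ ha, Submodule.span_le]
    rintro _ ⟨s, hs, rfl⟩
    simp [e s hs]
  choose l c l1 l2 l3 using h1
  let A : E d × ℝ →ₗ[ℝ] (Fs → ℝ) :=
    LinearMap.pi fun F => c F • LinearMap.snd ℝ _ _ - l F ∘ₗ LinearMap.fst ℝ _ _
  have hA : ∀ y t F, A (y, t) F = c F * t - l F y := fun y t F => by simp [A]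
  have key : ∀ v ∈ P.extremePoints ℝ, ∀ w : E d × ℝ, (∀ F, A (v, 1) F = 0 → A w F = 0) →
      w = w.2 • (v, 1) := by
    rintro v hv ⟨y, t⟩ h
    by_contra hc
    have hy : y - t • v ≠ 0 := fun e => hc (by simp [sub_eq_zero.mp e])
    obtain ⟨F, f1, f2, f3, f4⟩ := facet_at S hS hv hy
    let G : Fs := ⟨F, f1, ⟨v, f2⟩, f3⟩
    have e1 := l2 G v f2
    have e2 := h G (by rw [hA, e1]; ring)
    refine f4 ((l3 G).symm.le ?_)
    rw [hA] at e2
    rw [LinearMap.mem_ker, map_sub, map_smul, e1, smul_eq_mul]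
    linarith
  obtain ⟨v1, hv1, v2, hv2, hv12⟩ : (P.extremePoints ℝ).Nontrivial := by
    by_contra h
    rw [not_nontrivial_iff] at h
    have h2 : P.Subsingleton := by
      rw [hP, ← hull_ext S]
      rcases h.eq_empty_or_singleton with e | ⟨x, e⟩ <;> rw [← hP, e] <;> simp
    rcases h2.eq_empty_or_singleton with e | ⟨x, e⟩ <;> rw [e] at hS <;> simp at hS
  have inj : Function.Injective A := by
    rw [injective_iff_map_eq_zero]
    intro w hw
    have a := key v1 hv1 w fun F _ => by simp [hw]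
    have b := key v2 hv2 w fun F _ => by simp [hw]
    by_cases ht : w.2 = 0
    · rw [a, ht, zero_smul]
    · exact absurd (Prod.ext_iff.mp (smul_right_injective _ ht (a.symm.trans b))).1 hv12
  obtain ⟨lam, ε, s, g1, g2, g3⟩ := gale (LinearMap.range A) (by
    rw [LinearMap.finrank_range_of_inj inj]; simpa using hcard)
  obtain ⟨M, m1, m2, m3⟩ := quadric ε s g2
  let X : E d × ℝ →ₗ[ℝ] (Fs → ℝ) := LinearMap.pi fun F => lam F • LinearMap.proj F ∘ₗ A
  have hX : ∀ w F, X w F = lam F * A w F := fun w F => rfl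
  have x0 : ∀ w, w ≠ 0 → X w ≠ 0 := fun w hw h => hw (inj (by
    ext F
    have := congrFun h F
    simpa [hX, (g1 F).ne'] using this))
  have xp : ∀ v ∈ P.extremePoints ℝ, ∀ F, 0 ≤ X (v, 1) F := fun v hv F => by
    rw [hX, hA]
    exact mul_nonneg (g1 F).le (by linarith [l1 F v hv.1])
  let σ : E d × ℝ →ₗ[ℝ] ℝ := ∑ F, LinearMap.proj F ∘ₗ X
  have hσ : ∀ w, σ w = ∑ F, X w F := fun w => by simp [σ]
  have sp : ∀ v ∈ P.extremePoints ℝ, 0 < σ (v, 1) := fun v hv => by
    obtain ⟨F, hF⟩ := Function.ne_iff.mp (x0 (v, 1) (by simp))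
    rw [hσ]
    exact Finset.sum_pos' (fun F _ => xp v hv F) ⟨F, Finset.mem_univ _, (xp v hv F).lt_of_ne' hF⟩
  refine ⟨σ, LinearMap.mk₂ ℝ (fun x y => ∑ i, ∑ j, M i j * X x i * X y j) ?_ ?_ ?_ ?_,
    fun h => ?_, fun x y => ?_, fun w h0 hw => ?_, fun v hv => ⟨sp v hv, ?_⟩⟩
  · intros; simp only [map_add, Pi.add_apply, mul_add, add_mul, Finset.sum_add_distrib]
  · intros
    simp only [map_smul, Pi.smul_apply, smul_eq_mul, Finset.mul_sum]
    exact Finset.sum_congr rfl fun i _ => Finset.sum_congr rfl fun j _ => by ring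
  · intros; simp only [map_add, Pi.add_apply, mul_add, Finset.sum_add_distrib]
  · intros
    simp only [map_smul, Pi.smul_apply, smul_eq_mul, Finset.mul_sum]
    exact Finset.sum_congr rfl fun i _ => Finset.sum_congr rfl fun j _ => by ring
  · simpa [h] using sp v1 hv1
  · simp only [LinearMap.mk₂_apply]
    rw [Finset.sum_comm]
    exact Finset.sum_congr rfl fun i _ => Finset.sum_congr rfl fun j _ => by rw [m1 j i]; ring
  · exact m2 (X w) ((g3 _).mp ⟨w, rfl⟩).1 (hσ w ▸ h0) (x0 w hw)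
  · refine m3 (X (v, 1)) ⟨xp v hv, ((g3 _).mp ⟨_, rfl⟩).1, ((g3 _).mp ⟨_, rfl⟩).2,
      fun y y0 y1 y2 => ?_⟩
    have e : ∀ i, lam i * (y i / lam i) = y i := fun i => mul_div_cancel₀ _ (g1 i).ne'
    obtain ⟨w, hw⟩ := (g3 fun i => y i / lam i).mpr (by simp only [e]; exact ⟨y1, y2⟩)
    have := key v hv w fun F hF => by
      simp only [hw, y0 F (by rw [hX, hF, mul_zero]), zero_div]
    refine ⟨w.2, ?_⟩
    rw [← map_smul, ← this]
    ext F
    rw [hX, hw, e]

/-- For every full-dimensional polytope in R^d with at most d+3 facets, there is a polytope whose generating points all lie on one sphere and whose vertices correspond bijectively to the first's, with vertex sets of faces matching exactly. -/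
theorem result :
    ∀ d : ℕ, ∀ S : Finset (EuclideanSpace ℝ (Fin d)),
      (interior (convexHull ℝ (S : Set (EuclideanSpace ℝ (Fin d))))).Nonempty →
      {F : Set (EuclideanSpace ℝ (Fin d)) |
          IsExposed ℝ (convexHull ℝ (S : Set (EuclideanSpace ℝ (Fin d)))) F ∧ F.Nonempty ∧
            Module.finrank ℝ (vectorSpan ℝ F) + 1 = d}.ncard ≤ d + 3 →
      ∃ T : Finset (EuclideanSpace ℝ (Fin d)), ∃ c : EuclideanSpace ℝ (Fin d), ∃ r : ℝ,
        (T : Set (EuclideanSpace ℝ (Fin d))) ⊆ Metric.sphere c r ∧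
        ∃ e : EuclideanSpace ℝ (Fin d) → EuclideanSpace ℝ (Fin d),
          Set.BijOn e
            ((convexHull ℝ (S : Set (EuclideanSpace ℝ (Fin d)))).extremePoints ℝ)
            ((convexHull ℝ (T : Set (EuclideanSpace ℝ (Fin d)))).extremePoints ℝ) ∧
          ∀ A ⊆ (convexHull ℝ (S : Set (EuclideanSpace ℝ (Fin d)))).extremePoints ℝ,
            (IsExposed ℝ (convexHull ℝ (S : Set (EuclideanSpace ℝ (Fin d)))) (convexHull ℝ A) ↔
              IsExposed ℝ (convexHull ℝ (T : Set (EuclideanSpace ℝ (Fin d))))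
                (convexHull ℝ (e '' A))) := by
  intro d S hS hn
  rcases subsingleton_or_nontrivial (EuclideanSpace ℝ (Fin d)) with h | h
  · exact ⟨S, 0, 0, fun x _ => by simpa using Subsingleton.elim x 0, id, Set.bijOn_id _,
      fun A _ => by rw [Set.image_id]⟩
  · obtain ⟨σ, B, h1, h2, h3, h4⟩ := quad S hS hn
    exact H81.Ins.inscribe S σ h1 B h2 h3 h4

end Pool.Agent.S11695
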