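import Pool.Statements.S11699
import Pool.Agent.H18.Halv9

set_option autoImplicit false
open Pool Pool.MP_d5da3b_co

namespace Pool.Agent.S11699

/-- If 3<k<v and C(v−i,k−i) is even for i=0,1,2,3, the k-subsets of a v-set split into two parts, each containing every 3-subset in exactly C(v−3,k−3)/2 blocks: a halving into two 3-designs. -/
theorem result :
    ∀ v k : ℕ, 3 < k → k < v →
      (∀ i ∈ Finset.range 4, Even ((v - i).choose (k - i))) →
      ∃ B : Finset (Finset (Fin v)),
        B ⊆ Finset.powersetCard k (Finset.univ : Finset (Fin v)) ∧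
        ∀ T : Finset (Fin v), T.card = 3 →
          2 * (B.filter (fun S => T ⊆ S)).card = (v - 3).choose (k - 3) := by
  intro v k h3 hkv he
  obtain ⟨l, h1, h2⟩ := H18.Halv.feas (t := 3) h3.le hkv.le
    fun i hi => he i (Finset.mem_range.2 (by omega))
  obtain ⟨B, a, b⟩ := H18.Halv.design_of_part (t := 3) h3.le
    ((H18.Halv.main h1 h2).on (Finset.univ : Finset (Fin v)) (by simp))
  exact ⟨B, a, fun T hT => by simpa using b T (Finset.subset_univ _) hT⟩

end Pool.Agent.S11699
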