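import Pool.Statements.S11707
import Pool.Agent.H33.ThreeGraph

set_option autoImplicit false
open Classical
open Pool Pool.MP_d61016_co

namespace Pool.Agent.S11707
open Pool.Agent.H33.ThreeGraph

lemma classes {n : ℕ} (r : Fin n → Fin n → Prop) (h1 : Equivalence r)
    (h2 : ∀ a b c, r a b ∨ r b c ∨ r a c) : ∃ c : Fin n → Bool, ∀ u v, r u v ↔ c u = c v := by
  rcases isEmpty_or_nonempty (Fin n) with h | ⟨⟨x⟩⟩
  · exact ⟨fun _ => false, fun u => h.elim u⟩
  · refine ⟨fun u => decide (r x u), fun u v => ?_⟩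
    rw [decide_eq_decide]
    constructor
    · intro h
      exact ⟨fun h' => h1.trans h' h, fun h' => h1.trans h' (h1.symm h)⟩
    · intro h
      rcases h2 x u v with h' | h' | h'
      · exact h1.trans (h1.symm h') (h.1 h')
      · exact h'
      · exact h1.trans (h1.symm (h.2 h')) h'

/-- Every finite three-graph A embeds as an induced substructure in some finite three-graph B such that every partial automorphism of A extends to an automorphism of B. -/
theorem result :
    ∀ (n : ℕ) (rA : Fin n → Fin n → Prop) (HA : Finset (Finset (Fin n))),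
      (Equivalence rA ∧ (∀ a b c, rA a b ∨ rA b c ∨ rA a c) ∧
        (∀ e ∈ HA, e.card = 4 ∧ ∀ v ∈ e, (e.filter (fun w => rA v w)).card = 2) ∧
        (∀ S : Finset (Fin n), S.card = 5 →
          (∀ v ∈ S, (S.filter (fun w => rA v w)).card ≤ 3) →
          Even (HA.filter (fun e => e ⊆ S)).card)) →
      ∃ (m : ℕ) (rB : Fin m → Fin m → Prop) (HB : Finset (Finset (Fin m))),
        (Equivalence rB ∧ (∀ a b c, rB a b ∨ rB b c ∨ rB a c) ∧
          (∀ e ∈ HB, e.card = 4 ∧ ∀ v ∈ e, (e.filter (fun w => rB v w)).card = 2) ∧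
          (∀ S : Finset (Fin m), S.card = 5 →
            (∀ v ∈ S, (S.filter (fun w => rB v w)).card ≤ 3) →
            Even (HB.filter (fun e => e ⊆ S)).card)) ∧
        ∃ f : Fin n ↪ Fin m,
          (∀ x y, rA x y ↔ rB (f x) (f y)) ∧
          (∀ e : Finset (Fin n), e ∈ HA ↔ e.map f ∈ HB) ∧
          ∀ (S : Finset (Fin n)) (p : Fin n → Fin n),
            Set.InjOn p (S : Set (Fin n)) →
            (∀ x ∈ S, ∀ y ∈ S, rA x y ↔ rA (p x) (p y)) →
            (∀ e ⊆ S, e ∈ HA ↔ e.image p ∈ HA) →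
            ∃ σ : Fin m ≃ Fin m,
              (∀ x y, rB x y ↔ rB (σ x) (σ y)) ∧
              (∀ e : Finset (Fin m), e ∈ HB ↔ e.map σ.toEmbedding ∈ HB) ∧
              ∀ x ∈ S, σ (f x) = f (p x) := by
  rintro n rA HA ⟨h1, h2, h3, h4⟩
  obtain ⟨c, hc⟩ := classes rA h1 h2
  have hsh : ∀ e ∈ HA, Shape c e := fun e he => (shape_iff rA c hc e).1 (h3 e he)
  obtain ⟨s, hs, hrep⟩ := exists_rep rA c hc HA hsh h4
  let ε : Fin (Fintype.card (Wt (Fin n))) ≃ Wt (Fin n) := (Fintype.equivFin _).symm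
  let cB : Fin (Fintype.card (Wt (Fin n))) → Bool := fun u => (ε u).2.1
  let sB : Fin (Fintype.card (Wt (Fin n))) → Fin (Fintype.card (Wt (Fin n))) → ZMod 2 :=
    fun u v => sW (ε u) (ε v)
  have hsB : ∀ u v, sB u v = sB v u := fun u v => add_comm _ _
  have hB := rep_Hof cB sB
  have he : ∀ x, emb c s x = (x, c x, chi c s x) := fun _ => rfl
  refine ⟨_, fun u v => cB u = cB v, Hof cB sB, ⟨⟨fun _ => rfl, Eq.symm, Eq.trans⟩, ?_, ?_, ?_⟩,
    (emb c s).trans ε.symm.toEmbedding, ?_, ?_, ?_⟩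
  · intro a b d
    beta_reduce
    cases cB a <;> cases cB b <;> cases cB d <;> simp
  · intro e hme
    exact (shape_iff (fun u v => cB u = cB v) cB (fun _ _ => Iff.rfl) e).2 (hB.1 e hme)
  · intro S hS h5
    exact five_of_rep (fun u v => cB u = cB v) cB (fun _ _ => Iff.rfl) sB hsB _ hB S hS h5
  · intro x y
    rw [hc]
    simp [cB, he]
  · intro e
    refine rep_map hrep hB hsB _ false (fun _ => 0) (fun v => by simp [cB, he]) ?_ e
    intro u v huv
    have := chi_add c s hs u v huv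
    simpa [sB, sW, he] using this
  · intro S p hp hr hH
    obtain ⟨τ, g, k1, k2⟩ := switch_exists hrep hs S p
      (fun x hx y hy => by rw [← hc, ← hc]; exact hr x hx y hy) hH
    obtain ⟨σ, G, m1, m2, m3⟩ := sign_eppa c s hs S p hp τ g k1 k2
    refine ⟨ε.trans (σ.trans ε.symm), ?_, ?_, ?_⟩
    · intro x y
      simp only [cB, Equiv.trans_apply, Equiv.apply_symm_apply, m1]
      cases (ε x).2.1 <;> cases (ε y).2.1 <;> cases τ <;> simp
    · intro e
      refine rep_map hB hB hsB _ τ (fun u => G (ε u)) (fun v => by simp [cB, m1]) ?_ e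
      intro u v huv
      simpa [sB] using m2 (ε u) (ε v) huv
    · intro x hx
      simp [m3 x hx]

end Pool.Agent.S11707
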