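import Pool.Statements.S11724
import Pool.Agent.H35.PatData

set_option autoImplicit false
open Pool Pool.MP_d6bcd1_co

namespace Pool.Agent.S11724

theorem result :
    ¬ (∀ (v b k r : ℕ), 0 < v → 0 < b → 0 < k → 0 < r → v * r = b * k →
  ∀ (IsDesign : Matrix (Fin v) (Fin b) ℕ → Prop),
    (∀ M, IsDesign M ↔ ((∀ j, ∑ i, M i j = k) ∧ (∀ i, ∑ j, M i j = r))) →
  ∀ (InB : Matrix (Fin v) (Fin b) ℕ → Prop),
    (∀ M, InB M ↔ (IsDesign M ∧ (∀ i j, M i j ≤ 1) ∧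
      (SimpleGraph.fromRel (fun i j : Fin v => 0 < (M * M.transpose) i j)).Connected)) →
  ∀ (Γ : Matrix (Fin v) (Fin b) ℕ → ℕ → ℤ),
    (∀ M h, Γ M h = Matrix.trace
      ((M.map (fun x : ℕ => (x : ℤ)) * (M.map (fun x : ℕ => (x : ℤ))).transpose
        - (r : ℤ) • (1 : Matrix (Fin v) (Fin v) ℤ)) ^ h)) →
  ∀ (ev : Matrix (Fin v) (Fin b) ℕ → Multiset ℝ),
    (∀ M, ev M = (Matrix.charpoly ((r : ℝ) • (1 : Matrix (Fin v) (Fin v) ℝ)
        - (1 / (k : ℝ)) • (M.map (fun x : ℕ => (x : ℝ)) * (M.map (fun x : ℕ => (x : ℝ))).transpose))).roots.erase 0) →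
  ∀ D, InB D →
    ((∀ D', IsDesign D' → (0 : ℝ) ∉ ev D' →
        ((0 : ℝ) ∉ ev D ∧ ((ev D).map (fun x => x⁻¹)).sum ≤ ((ev D').map (fun x => x⁻¹)).sum)) ↔
     (∀ D', InB D' → ∀ t : ℕ, 2 ≤ t →
        (∀ h : ℕ, 2 ≤ h → h < t → Γ D' h = Γ D h) → Γ D t ≤ Γ D' t))) := by
  open Pool.Agent.H35.Pat in
  intro H
  let B : Set Des := {M | ((∀ j, ∑ i, M i j = 2) ∧ (∀ i, ∑ j, M i j = 7)) ∧ (∀ i j, M i j ≤ 1) ∧
    (SimpleGraph.fromRel (fun i j : Fin 18 => 0 < (M * M.transpose) i j)).Connected}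
  have b0 : inc E0 ∈ B := ⟨d0, d0', conn0⟩
  have fin : B.Finite := (Set.Finite.pi' fun _ : Fin 18 => Set.Finite.pi' fun _ : Fin 63 =>
    Set.finite_Iic 1).subset fun M h => h.2.1
  obtain ⟨D, hD, h⟩ := exists_lex B fin ⟨_, b0⟩ fun M h => (am M ^ h).trace
  obtain ⟨z, l⟩ := (H 18 63 2 7 (by decide) (by decide) (by decide) (by decide) rfl _
    (fun _ => Iff.rfl) _ (fun _ => Iff.rfl) _ (fun _ _ => rfl) _ (fun _ => rfl) D hD).2 h
    (inc E1) d1 up1.1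
  refine (up1.2.trans_le (low D hD.1.1 hD.1.2 hD.2.1 ?_ (fun e => ?_) z)).not_ge l
  · have := h _ b0 2 le_rfl fun _ _ _ => by omega
    rwa [am0, g2] at this
  · have := h _ b0 3 (by decide) fun k _ _ => by
      obtain rfl : k = 2 := by omega
      rw [am0, g2, e]
    rwa [am0, g3] at this

end Pool.Agent.S11724
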