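import Pool.Statements.S11730
import Pool.Agent.H8.Plank

set_option autoImplicit false
open MeasureTheory
open Pool Pool.MP_d7a99c_co

namespace Pool.Agent.S11730

/-- The negation of the preceding statement: For any finitely many planar strips with given unit normals and positive widths summing to 1, and any planar convex body with perimeter at most 2, the strips can be translated so that their union covers the body. -/
theorem result :
    ¬ (∀ (n : ℕ) (u : Fin n → EuclideanSpace ℝ (Fin 2)) (w : Fin n → ℝ),
      (∀ i, ‖u i‖ = 1) → (∀ i, 0 < w i) → (∑ i, w i) = 1 →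
      ∀ B : Set (EuclideanSpace ℝ (Fin 2)),
        IsCompact B → Convex ℝ B → (interior B).Nonempty →
        MeasureTheory.Measure.hausdorffMeasure 1 (frontier B) ≤ 2 →
        ∃ c : Fin n → ℝ,
          B ⊆ ⋃ i, {x : EuclideanSpace ℝ (Fin 2) |
            c i ≤ inner ℝ x (u i) ∧ inner ℝ x (u i) ≤ c i + w i}) := by
  intro H
  obtain ⟨c, hc⟩ := H 2 Pool.Agent.H8.Plank.u (fun _ => 1 / 2) Pool.Agent.H8.Plank.norm_u
    (fun _ => by norm_num) (by simp) Pool.Agent.H8.Plank.B Pool.Agent.H8.Plank.compact_B
    Pool.Agent.H8.Plank.convex_B Pool.Agent.H8.Plank.int_ne Pool.Agent.H8.Plank.perim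
  exact Pool.Agent.H8.Plank.not_cover c hc

end Pool.Agent.S11730
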