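import Pool.Statements.S11734
import Pool.Agent.H3.Markov

set_option autoImplicit false
open Pool Pool.MP_d7b467_co

namespace Pool.Agent.S11734

open Pool.Agent.H3.Markov

abbrev Cell := Fin 14 × Fin 14 × Fin 14

def tT : List (List ℕ) := [[1, 10, 0, 0, 5, 14, 0, 0, 0, 0, 13, 0, 0, 4], [0, 1, 2, 0, 0, 0, 7, 0,
  0, 0, 0, 0, 0, 0], [0, 0, 3, 1, 0, 0, 0, 0, 0, 0, 0, 0, 2, 0], [0, 8, 0, 3, 4, 0, 0, 0, 0, 0, 0,
  0, 0, 0], [0, 0, 0, 0, 0, 5, 0, 11, 6, 0, 0, 0, 0, 0], [6, 0, 0, 0, 0, 0, 1, 0, 9, 0, 0, 0, 0,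
  0], [0, 3, 7, 0, 0, 9, 0, 0, 11, 5, 0, 0, 1, 0], [0, 0, 0, 0, 8, 0, 0, 5, 0, 0, 10, 0, 0, 0],
  [0, 0, 0, 0, 0, 12, 9, 0, 0, 7, 0, 0, 0, 0], [0, 5, 0, 0, 0, 0, 0, 0, 0, 0, 8, 13, 0, 0], [0, 0,
  0, 0, 0, 0, 0, 0, 0, 12, 0, 5, 0, 14], [0, 2, 0, 0, 0, 0, 0, 10, 0, 0, 0, 0, 11, 0], [0, 0, 0,
  4, 0, 1, 0, 0, 0, 0, 0, 0, 0, 12], [13, 0, 0, 0, 0, 6, 0, 0, 0, 0, 0, 14, 0, 0]]

def tS : List (List ℕ) := [[13, 1, 0, 0, 4, 5, 0, 0, 0, 0, 10, 0, 0, 14], [0, 2, 7, 0, 0, 0, 1, 0,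
  0, 0, 0, 0, 0, 0], [0, 0, 2, 3, 0, 0, 0, 0, 0, 0, 0, 0, 1, 0], [0, 3, 0, 4, 8, 0, 0, 0, 0, 0, 0,
  0, 0, 0], [0, 0, 0, 0, 0, 6, 0, 5, 11, 0, 0, 0, 0, 0], [1, 0, 0, 0, 0, 0, 9, 0, 6, 0, 0, 0, 0,
  0], [0, 5, 3, 0, 0, 1, 0, 0, 9, 7, 0, 0, 11, 0], [0, 0, 0, 0, 5, 0, 0, 10, 0, 0, 8, 0, 0, 0],
  [0, 0, 0, 0, 0, 9, 7, 0, 0, 12, 0, 0, 0, 0], [0, 8, 0, 0, 0, 0, 0, 0, 0, 0, 13, 5, 0, 0], [0, 0,
  0, 0, 0, 0, 0, 0, 0, 5, 0, 14, 0, 12], [0, 10, 0, 0, 0, 0, 0, 11, 0, 0, 0, 0, 2, 0], [0, 0, 0,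
  1, 0, 12, 0, 0, 0, 0, 0, 0, 0, 4], [6, 0, 0, 0, 0, 14, 0, 0, 0, 0, 0, 13, 0, 0]]

def tS' : List (List ℕ) := [[13, 5, 0, 0, 4, 1, 0, 0, 0, 0, 10, 0, 0, 14], [0, 2, 7, 0, 0, 0, 1,
  0, 0, 0, 0, 0, 0, 0], [0, 0, 2, 3, 0, 0, 0, 0, 0, 0, 0, 0, 1, 0], [0, 3, 0, 4, 8, 0, 0, 0, 0, 0,
  0, 0, 0, 0], [0, 0, 0, 0, 0, 6, 0, 5, 11, 0, 0, 0, 0, 0], [1, 0, 0, 0, 0, 0, 9, 0, 6, 0, 0, 0,
  0, 0], [0, 1, 3, 0, 0, 5, 0, 0, 9, 7, 0, 0, 11, 0], [0, 0, 0, 0, 5, 0, 0, 10, 0, 0, 8, 0, 0, 0],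
  [0, 0, 0, 0, 0, 9, 7, 0, 0, 12, 0, 0, 0, 0], [0, 8, 0, 0, 0, 0, 0, 0, 0, 0, 13, 5, 0, 0], [0, 0,
  0, 0, 0, 0, 0, 0, 0, 5, 0, 14, 0, 12], [0, 10, 0, 0, 0, 0, 0, 11, 0, 0, 0, 0, 2, 0], [0, 0, 0,
  1, 0, 12, 0, 0, 0, 0, 0, 0, 0, 4], [6, 0, 0, 0, 0, 14, 0, 0, 0, 0, 0, 13, 0, 0]]

def lW : List Cell := [(0, 0, 0), (5, 0, 5), (5, 6, 0), (0, 10, 12), (13, 0, 12), (4, 8, 5), (5,
  8, 8), (13, 5, 5), (1, 1, 0), (1, 6, 6), (8, 6, 8), (9, 10, 7), (9, 11, 12), (7, 10, 9), (0, 1,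
  9), (13, 11, 13), (4, 5, 4), (4, 7, 10), (6, 8, 10), (6, 5, 8), (0, 5, 13), (1, 2, 1), (11, 1,
  1), (6, 2, 6), (8, 9, 6), (8, 5, 11), (3, 1, 7), (9, 1, 4), (7, 4, 7), (10, 11, 4), (7, 7, 4),
  (11, 7, 9), (10, 13, 13), (11, 12, 10), (6, 12, 0), (0, 13, 3), (2, 2, 2), (2, 12, 1), (6, 1,
  2), (6, 9, 4), (10, 9, 11), (12, 5, 0), (12, 13, 11), (3, 3, 2), (3, 4, 3), (0, 4, 4), (2, 3,
  0), (12, 3, 3)]

def lB : List Cell := [(0, 0, 0), (5, 0, 0), (5, 0, 0), (0, 0, 12), (0, 0, 12), (5, 8, 5), (5, 8,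
  5), (13, 0, 5), (1, 6, 0), (1, 6, 0), (5, 6, 8), (9, 10, 12), (9, 10, 12), (0, 10, 9), (0, 10,
  9), (13, 11, 12), (4, 5, 5), (4, 8, 10), (4, 8, 10), (6, 8, 8), (13, 5, 13), (1, 1, 1), (1, 1,
  1), (1, 2, 6), (8, 6, 6), (8, 5, 8), (9, 1, 7), (9, 1, 7), (7, 10, 7), (9, 11, 4), (7, 7, 9),
  (7, 7, 9), (10, 11, 13), (11, 7, 10), (6, 12, 10), (0, 13, 13), (2, 2, 1), (2, 2, 1), (6, 2, 2),
  (6, 9, 6), (8, 9, 11), (12, 5, 11), (12, 5, 11), (3, 1, 2), (3, 4, 7), (7, 4, 4), (2, 12, 0),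
  (12, 13, 3)]

def lP : List (Fin 48) := [0, 0, 0, 0, 0, 1, 1, 1, 2, 2, 2, 3, 3, 3, 3, 4, 5, 5, 5, 6, 7, 8, 8, 9,
  9, 10, 11, 11, 11, 12, 13, 13, 15, 17, 18, 20, 21, 21, 23, 23, 24, 25, 25, 26, 26, 28, 34, 35]

def mk (t : List (List ℕ)) : Tab 14 14 14 ℕ := fun i j k =>
  if (t.getD i []).getD j 0 = k + 1 then 1 else 0

def T : Tab 14 14 14 ℕ := mk tT

def avail (i j k : Fin 14) : Prop :=
  ∑ k', T i j k' ≠ 0 ∧ ∑ j', T i j' k ≠ 0 ∧ ∑ i', T i' j k ≠ 0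

instance (i j k : Fin 14) : Decidable (avail i j k) := by unfold avail; infer_instance

def Link (c d : Cell) : Prop :=
  (c.1 = d.1 ∧ c.2.1 = d.2.1 ∧ c.2.2 ≠ d.2.2 ∧ ∑ k, T c.1 c.2.1 k = 1 ∧
      ∀ k, k ≠ c.2.2 → k ≠ d.2.2 → ¬ avail c.1 c.2.1 k) ∨
  (c.1 = d.1 ∧ c.2.2 = d.2.2 ∧ c.2.1 ≠ d.2.1 ∧ ∑ j, T c.1 j c.2.2 = 1 ∧
      ∀ j, j ≠ c.2.1 → j ≠ d.2.1 → ¬ avail c.1 j c.2.2) ∨
  (c.2.1 = d.2.1 ∧ c.2.2 = d.2.2 ∧ c.1 ≠ d.1 ∧ ∑ i, T i c.2.1 c.2.2 = 1 ∧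
      ∀ i, i ≠ c.1 → i ≠ d.1 → ¬ avail i c.2.1 c.2.2)

instance (c d : Cell) : Decidable (Link c d) := by unfold Link; infer_instance

theorem zero_of (X : Tab 14 14 14 ℕ) (h : Same T X) (i j k : Fin 14) (ha : ¬ avail i j k) :
    X i j k = 0 := by
  unfold avail at ha
  rw [h.1, h.2.1, h.2.2] at ha
  by_contra hx
  apply ha
  refine ⟨fun e => hx ?_, fun e => hx ?_, fun e => hx ?_⟩
  · exact Finset.sum_eq_zero_iff.1 e k (Finset.mem_univ _)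
  · exact Finset.sum_eq_zero_iff.1 e j (Finset.mem_univ _)
  · exact Finset.sum_eq_zero_iff.1 e i (Finset.mem_univ _)

theorem link_sum (X : Tab 14 14 14 ℕ) (h : Same T X) (c d : Cell) (hl : Link c d) :
    X c.1 c.2.1 c.2.2 + X d.1 d.2.1 d.2.2 = 1 := by
  obtain ⟨a, b, c⟩ := c
  obtain ⟨a', b', c'⟩ := d
  rcases hl with ⟨rfl, rfl, h3, h4, h5⟩ | ⟨rfl, rfl, h3, h4, h5⟩ | ⟨rfl, rfl, h3, h4, h5⟩
  · rw [← h4, h.1]
    exact (Fintype.sum_eq_add c c' h3 fun x hx => zero_of X h _ _ _ (h5 x hx.1 hx.2)).symm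
  · rw [← h4, h.2.1]
    exact (Fintype.sum_eq_add (f := fun j => X a j c) b b' h3
      fun x hx => zero_of X h _ _ _ (h5 x hx.1 hx.2)).symm
  · rw [← h4, h.2.2]
    exact (Fintype.sum_eq_add (f := fun i => X i b c) a a' h3
      fun x hx => zero_of X h _ _ _ (h5 x hx.1 hx.2)).symm

def W (t : Fin 48) : Cell := lW.getD t (0, 0, 0)
def Bk (t : Fin 48) : Cell := lB.getD t (0, 0, 0)
def par (t : Fin 48) : Fin 48 := lP.getD t 0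

theorem chain : ∀ t : Fin 48, t ≠ 0 → par t < t ∧ Link (W t) (Bk t) ∧ Link (W (par t)) (Bk t) := by
  decide +kernel

theorem cover : ∀ i j k, T i j k = 0 ∨ (T i j k = 1 ∧ ∃ t, W t = (i, j, k)) := by
  decide +kernel

theorem isolated (X : Tab 14 14 14 ℕ) (h : Same T X) :
    X = T ∨ ∀ i j k, T i j k = 0 ∨ X i j k = 0 := by
  have key : ∀ t : Fin 48, X (W t).1 (W t).2.1 (W t).2.2 = X (W 0).1 (W 0).2.1 (W 0).2.2 := by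
    intro t
    induction t using WellFoundedLT.induction with
    | ind t ih =>
      by_cases h0 : t = 0
      · rw [h0]
      · obtain ⟨c1, c2, c3⟩ := chain t h0
        have a1 := link_sum X h _ _ c2
        have a2 := link_sum X h _ _ c3
        have a3 := ih _ c1
        omega
  by_cases hz : X (W 0).1 (W 0).2.1 (W 0).2.2 = 0
  · refine Or.inr fun i j k => ?_
    rcases cover i j k with e | ⟨-, t, e⟩
    · exact Or.inl e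
    · have := key t
      rw [e, hz] at this
      exact Or.inr this
  · left
    have hle : ∀ i j k, T i j k ≤ X i j k := by
      intro i j k
      rcases cover i j k with e | ⟨e', t, e⟩
      · omega
      · have := key t
        rw [e] at this
        simp only at this
        omega
    funext i j k
    exact ((Finset.sum_eq_sum_iff_of_le fun k _ => hle i j k).1 (h.1 i j) k
      (Finset.mem_univ _)).symm

instance (u v : Tab 14 14 14 ℕ) : Decidable (Same u v) := by unfold Same; infer_instance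

theorem sameS : Same T (mk tS) := by decide +kernel
theorem sameS' : Same T (mk tS') := by decide +kernel
theorem difs : (∃ i j k, T i j k ≠ 0) ∧ (∃ i j k, mk tS i j k ≠ T i j k) ∧
    (∃ i j k, mk tS' i j k ≠ T i j k) ∧ (∃ i j k, mk tS i j k ≠ mk tS' i j k) := by
  decide +kernel

/-- The negation of the preceding statement: For all sizes I,J,K, any two minimal finite Markov bases of the no-3-way interaction model (moves with zero two-way margins connecting every fiber of nonnegative tables) coincide up to the signs of the moves. -/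
theorem result :
    ¬ (∀ I J K : ℕ,
    ∀ IsMB : Finset (Fin I → Fin J → Fin K → ℤ) → Prop,
      (∀ B : Finset (Fin I → Fin J → Fin K → ℤ), IsMB B ↔
        ((∀ m ∈ B, (∀ i j, ∑ k, m i j k = 0) ∧ (∀ i k, ∑ j, m i j k = 0) ∧
            (∀ j k, ∑ i, m i j k = 0)) ∧
          ∀ u v : Fin I → Fin J → Fin K → ℕ,
            (∀ i j, ∑ k, u i j k = ∑ k, v i j k) →
            (∀ i k, ∑ j, u i j k = ∑ j, v i j k) →
            (∀ j k, ∑ i, u i j k = ∑ i, v i j k) →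
            Relation.ReflTransGen
              (fun w w' : Fin I → Fin J → Fin K → ℕ =>
                ∃ m ∈ B, (∀ i j k, (w' i j k : ℤ) = (w i j k : ℤ) + m i j k) ∨
                  (∀ i j k, (w' i j k : ℤ) = (w i j k : ℤ) - m i j k))
              u v)) →
    ∀ B B' : Finset (Fin I → Fin J → Fin K → ℤ),
      (IsMB B ∧ ∀ C, C ⊂ B → ¬ IsMB C) →
      (IsMB B' ∧ ∀ C, C ⊂ B' → ¬ IsMB C) →
      ∀ m : Fin I → Fin J → Fin K → ℤ, (m ∈ B ∨ -m ∈ B) ↔ (m ∈ B' ∨ -m ∈ B')) := by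
  intro H
  obtain ⟨d0, ⟨i1, j1, k1, d1⟩, ⟨i2, j2, k2, d2⟩, ⟨i3, j3, k3, d3⟩⟩ := difs
  obtain ⟨B, B', h1, h2, m, m1, m2, m3⟩ := not_unique T isolated d0 (mk tS) (mk tS') sameS
    (fun e => d1 (by rw [e])) sameS' (fun e => d2 (by rw [e])) (fun e => d3 (by rw [e]))
  have := H 14 14 14 MB (fun B => ⟨fun h => ⟨h.1, fun u v a b c => h.2 u v ⟨a, b, c⟩⟩,
    fun h => ⟨h.1, fun u v a => h.2 u v a.1 a.2.1 a.2.2⟩⟩) B B' h1 h2 m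
  rcases this.1 (Or.inl m1) with h | h
  · exact m2 h
  · exact m3 h

end Pool.Agent.S11734
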