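import Pool.Statements.S11804
-- import your own Pool.Agent.* helpers here

set_option autoImplicit false
open Pool Pool.MP_da9eaf_co

namespace Pool.Agent.S11804

theorem parab {ι : Type} (p : ι → (Fin 2 → ℝ)) (h1 : ∀ e, p e 1 = (p e 0 + 1)^2)
    (h2 : ∀ e e', p e 0 = p e' 0 → e = e') : ConvexIndependent ℝ p := by
  intro s x hx
  by_contra hn
  have hc : Convex ℝ {z : Fin 2 → ℝ | 0 < z 1 - 2 * (p x 0 + 1) * (z 0 + 1) + (p x 0 + 1)^2} := by
    intro a ha b hb u v hu hv huv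
    simp only [Set.mem_setOf_eq, Pi.add_apply, Pi.smul_apply, smul_eq_mul] at ha hb ⊢
    obtain rfl : v = 1 - u := by linarith
    rcases eq_or_lt_of_le hu with h | h
    · subst h
      linarith
    · nlinarith [mul_pos h ha, mul_nonneg hv hb.le]
  have := convexHull_min (s := p '' s) (fun z hz => by
    obtain ⟨e, he, rfl⟩ := hz
    have a1 : p e 0 - p x 0 ≠ 0 := fun h => hn (h2 e x (by linarith) ▸ he)
    have a2 := sq_pos_of_ne_zero a1
    show 0 < p e 1 - _ + _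
    rw [h1]
    nlinarith) hc hx
  have a3 : 0 < p x 1 - 2 * (p x 0 + 1) * (p x 0 + 1) + (p x 0 + 1)^2 := this
  rw [h1] at a3
  nlinarith

noncomputable def pt (m v : ℕ) : Fin 2 → ℝ :=
  if v < m then ![v, (1 - m) * (v:ℝ)^2]
  else if v < 2 * m then ![m * ((v:ℝ) - m + 1), (m^2 - m) * ((v:ℝ) - m + 1)^2]
  else ![-1, m * ((v:ℝ) - 2 * m)^2]

theorem pt_inj {m : ℕ} (hm : 0 < m) {v w : ℕ} (h : pt m v = pt m w) : v = w := by
  have h0 := congrFun h 0
  have h1 := congrFun h 1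
  have hm' : (1:ℝ) ≤ m := by exact_mod_cast hm
  have key : ∀ a b : ℕ, a < m → ¬ b < m → (a:ℝ) ≠ m * ((b:ℝ) - m + 1) := by
    intro a b ha hb h
    have a1 : (a:ℝ) < m := by exact_mod_cast ha
    have a2 : (m:ℝ) ≤ b := by exact_mod_cast not_lt.1 hb
    nlinarith
  have key2 : ∀ b : ℕ, ¬ b < m → (-1:ℝ) ≠ m * ((b:ℝ) - m + 1) := by
    intro b hb h
    have a2 : (m:ℝ) ≤ b := by exact_mod_cast not_lt.1 hb
    nlinarith
  have key3 : ∀ a : ℕ, (-1:ℝ) ≠ a := fun a h => by
    have : (0:ℝ) ≤ a := Nat.cast_nonneg a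
    linarith
  unfold pt at h0 h1
  split_ifs at h0 h1 with a1 a2 a3 a4 a5 a6 a7 a8 <;>
    simp only [Matrix.cons_val_zero, Matrix.cons_val_one] at h0 h1
  · exact_mod_cast h0
  · exact absurd h0 (key _ _ a1 a2)
  · exact absurd h0.symm (key3 _)
  · exact absurd h0.symm (key _ _ a5 a1)
  · have := mul_left_cancel₀ (by linarith : (m:ℝ) ≠ 0) h0
    have : (v:ℝ) = w := by linarith
    exact_mod_cast this
  · exact absurd h0.symm (key2 _ a1)
  · exact absurd h0 (key3 _)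
  · exact absurd h0 (key2 _ a7)
  · have b1 := mul_left_cancel₀ (by linarith : (m:ℝ) ≠ 0) h1
    have b2 : ((2 * m : ℕ):ℝ) ≤ v := by exact_mod_cast not_lt.1 a4
    have b3 : ((2 * m : ℕ):ℝ) ≤ w := by exact_mod_cast not_lt.1 a8
    push_cast at b2 b3
    have := (pow_left_inj₀ (by linarith) (by linarith) two_ne_zero).1 b1
    have : (v:ℝ) = w := by linarith
    exact_mod_cast this

def edge (m : ℕ) (z : Fin m × Fin m) : Finset (Fin (4 * m)) :=
  {⟨z.1, by omega⟩, ⟨m + z.2, by omega⟩, ⟨2 * m + (z.1 + z.2 + 1), by omega⟩}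

theorem edge_card (m : ℕ) (z : Fin m × Fin m) : (edge m z).card = 3 := by
  have h1 := z.1.2
  have h2 := z.2.2
  unfold edge
  rw [Finset.card_eq_three]
  refine ⟨_, _, _, ?_, ?_, ?_, rfl⟩ <;> simp only [ne_eq, Fin.mk.injEq] <;> omega

theorem edge_sum (m : ℕ) (z : Fin m × Fin m) : ∑ v ∈ edge m z, pt m v
    = ![(z.1:ℝ) + m * (z.2 + 1) - 1, ((z.1:ℝ) + m * (z.2 + 1))^2] := by
  have h1 := z.1.2
  have h2 := z.2.2
  unfold edge
  rw [Finset.sum_insert (by simp only [Finset.mem_insert, Finset.mem_singleton, Fin.mk.injEq]; omega),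
    Finset.sum_pair (by simp only [ne_eq, Fin.mk.injEq]; omega)]
  simp only [pt]
  rw [if_pos h1, if_neg (by omega), if_pos (by omega), if_neg (by omega), if_neg (by omega)]
  ext i
  fin_cases i
  · simp
    ring
  · simp
    ring

theorem edge_key (m : ℕ) (z z' : Fin m × Fin m)
    (h : (∑ v ∈ edge m z, pt m v) 0 = (∑ v ∈ edge m z', pt m v) 0) : z = z' := by
  rw [edge_sum, edge_sum] at h
  simp only [Matrix.cons_val_zero] at h
  have a1 : (z.1:ℕ) + m * z.2 = z'.1 + m * z'.2 := by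
    have : ((z.1:ℕ):ℝ) + m * (z.2:ℕ) = (z'.1:ℕ) + m * (z'.2:ℕ) := by linarith
    exact_mod_cast this
  have a2 := congrArg (· % m) a1
  simp only [Nat.add_mul_mod_self_left, Nat.mod_eq_of_lt z.1.2, Nat.mod_eq_of_lt z'.1.2] at a2
  rw [a2] at a1
  have a3 := Nat.eq_of_mul_eq_mul_left (Nat.zero_lt_of_lt z.1.2) (Nat.add_left_cancel a1)
  exact Prod.ext (Fin.ext a2) (Fin.ext a3)

/-- The negation of the preceding statement: For 2≤d≤k there is a rational α with d-1<α<d such that the maximum number of edges of a k-uniform hypergraph on n vertices with an injective embedding into R^d whose edge barycenters are in convex position is Θ(n^α). -/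
theorem result :
    ¬ (∀ d k : ℕ, 2 ≤ d → d ≤ k →
      ∃ α : ℚ, ((d : ℝ) - 1 < (α : ℝ)) ∧ ((α : ℝ) < (d : ℝ)) ∧
        ∃ c C : ℝ, 0 < c ∧ 0 < C ∧ ∃ N : ℕ, ∀ n : ℕ, N ≤ n →
          (∀ E : Finset (Finset (Fin n)), (∀ e ∈ E, e.card = k) →
              (∃ f : Fin n → (Fin d → ℝ), Function.Injective f ∧
                  ConvexIndependent ℝ (fun e : ↥E => ∑ v ∈ e.1, f v)) →
              (E.card : ℝ) ≤ C * (n : ℝ) ^ (α : ℝ)) ∧
          (∃ E : Finset (Finset (Fin n)), (∀ e ∈ E, e.card = k) ∧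
              (∃ f : Fin n → (Fin d → ℝ), Function.Injective f ∧
                  ConvexIndependent ℝ (fun e : ↥E => ∑ v ∈ e.1, f v)) ∧
              c * (n : ℝ) ^ (α : ℝ) ≤ (E.card : ℝ))) := by
  intro h
  obtain ⟨α, _, h2, c, C, _, hC, N, hN⟩ := h 2 3 (le_refl _) (by norm_num)
  have hα : (0:ℝ) < 2 - α := by
    push_cast at h2
    linarith
  have ht := (tendsto_rpow_atTop hα).comp tendsto_natCast_atTop_atTop
  obtain ⟨m, hm1, hm2, hm3⟩ := ((ht.eventually_gt_atTop (C * 4 ^ (α:ℝ))).and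
    ((Filter.eventually_ge_atTop N).and (Filter.eventually_ge_atTop 1))).exists
  have hinj : Function.Injective (edge m) := fun z z' hz => edge_key m z z' (by rw [hz])
  have hb := (hN (4 * m) (by omega)).1 (Finset.univ.image (edge m))
    (fun e he => by
      obtain ⟨z, _, rfl⟩ := Finset.mem_image.1 he
      exact edge_card m z)
    ⟨fun v => pt m v, fun v w hvw => Fin.ext (pt_inj hm3 hvw), parab _ (fun e => by
      obtain ⟨z, _, hz⟩ := Finset.mem_image.1 e.2
      rw [← hz, edge_sum]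
      simp) (fun e e' he => by
      obtain ⟨z, _, hz⟩ := Finset.mem_image.1 e.2
      obtain ⟨z', _, hz'⟩ := Finset.mem_image.1 e'.2
      rw [← hz, ← hz'] at he
      exact Subtype.ext (by rw [← hz, ← hz', edge_key m z z' he]))⟩
  rw [Finset.card_image_of_injective _ hinj] at hb
  simp only [Finset.card_univ, Fintype.card_prod, Fintype.card_fin] at hb
  push_cast at hb
  have hm0 : (0:ℝ) < m := by exact_mod_cast hm3
  rw [Real.mul_rpow (by norm_num) hm0.le] at hb
  have e : (m:ℝ) * m = (m:ℝ) ^ (2 - (α:ℝ)) * (m:ℝ) ^ (α:ℝ) := by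
    rw [← Real.rpow_add hm0, sub_add_cancel, Real.rpow_two, sq]
  have hp : 0 < (m:ℝ) ^ (α:ℝ) := Real.rpow_pos_of_pos hm0 _
  have hm4 : C * 4 ^ (α:ℝ) < (m:ℝ) ^ (2 - (α:ℝ)) := hm1
  rw [e] at hb
  nlinarith [mul_lt_mul_of_pos_right hm4 hp]

end Pool.Agent.S11804
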