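import Pool.Statements.S11813
import Pool.Agent.H24.Crit3

set_option autoImplicit false
open Pool Pool.MP_dae418_co

namespace Pool.Agent.S11813

/-- There exist l, c>0 and e<2 such that every finite graph in which deleting any set X of at most l vertices leaves connectivity exactly k−∣X∣ has at most c·k^e vertices. -/
theorem result :
    ∃ l : ℕ, ∃ c : ℝ, 0 < c ∧ ∃ e : ℝ, e < 2 ∧
      ∀ (k : ℕ) (V : Type) [Fintype V] [DecidableEq V] (G : SimpleGraph V),
        (∀ X : Finset V, X.card ≤ l →
          X.card ≤ k ∧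
          (k - X.card < (Xᶜ).card ∧
            ∀ S : Finset V, S ⊆ Xᶜ → S.card < k - X.card →
              (G.induce (↑((X ∪ S)ᶜ) : Set V)).Connected) ∧
          ¬ (k - X.card + 1 < (Xᶜ).card ∧
            ∀ S : Finset V, S ⊆ Xᶜ → S.card < k - X.card + 1 →
              (G.induce (↑((X ∪ S)ᶜ) : Set V)).Connected)) →
        (Fintype.card V : ℝ) ≤ c * (k : ℝ) ^ e := by
  refine ⟨3, 16, by norm_num, (3 : ℝ) / 2, by norm_num, fun k V _ _ G h => ?_⟩
  have h0 := h ∅ (by simp)
  refine Pool.Agent.H24.Crit.mader (G := G) (by simpa using h0.2.1.1) (fun X hX => (h X hX).1) ?_ ?_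
  · intro S hS
    have := h0.2.1.2 S (by simp) (by simpa using hS)
    rwa [Finset.empty_union, Finset.coe_compl] at this
  · intro hn X hX
    obtain ⟨h2, _, h3⟩ := h X hX
    by_contra h1
    push Not at h1
    refine h3 ⟨?_, fun S s1 s2 => ?_⟩
    · rw [Finset.card_compl]
      omega
    · rw [Finset.coe_compl]
      exact h1 S (Finset.disjoint_left.2 (fun v a b => Finset.mem_compl.1 (s1 a) b)) s2

end Pool.Agent.S11813
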