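import Pool.Statements.S11816

set_option autoImplicit false
open Pool Pool.MP_daf6f7_co

namespace Pool.Agent.S11816

/-- The stars of the eleven vertices of the Groetzsch graph, as sets of its twenty edges. -/
def star : Fin 11 → Finset (Fin 20) :=
  ![{0, 4, 8, 13}, {0, 1, 5, 10}, {1, 2, 7, 12}, {2, 3, 9, 14}, {3, 4, 6, 11}, {5, 6, 15},
    {7, 8, 16}, {9, 10, 17}, {11, 12, 18}, {13, 14, 19}, {15, 16, 17, 18, 19}]

/-- Six matchings covering every star at least twice. -/
def mt : Fin 6 → Finset (Fin 11) :=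
  ![{0, 2, 10}, {1, 3, 10}, {0, 3, 5, 8}, {1, 4, 6, 9}, {2, 4, 7, 9}, {5, 6, 7, 8, 9}]

lemma mt_disj : ∀ k, ∀ i ∈ mt k, ∀ j ∈ mt k, i ≠ j → Disjoint (star i) (star j) := by
  decide +kernel

lemma mt_cover : ∀ i : Fin 11, 2 ≤ (Finset.univ.filter (fun k : Fin 6 => i ∈ mt k)).card := by
  decide +kernel

lemma big (S : Finset (Fin 11)) : ∃ k, S.card ≤ (S ∩ mt k).card * 3 := by
  by_contra h
  push Not at h
  have h1 : ∑ k : Fin 6, (S ∩ mt k).card =
      ∑ i ∈ S, (Finset.univ.filter (fun k : Fin 6 => i ∈ mt k)).card := by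
    have e : ∀ k : Fin 6, (S ∩ mt k).card = ∑ i ∈ S, if i ∈ mt k then 1 else 0 := by
      intro k
      rw [← Finset.filter_mem_eq_inter, Finset.card_filter]
    simp only [e, Finset.card_filter]
    exact Finset.sum_comm
  have h2 : S.card * 2 ≤ ∑ i ∈ S, (Finset.univ.filter (fun k : Fin 6 => i ∈ mt k)).card := by
    have := Finset.card_nsmul_le_sum S _ 2 (fun i _ => mt_cover i)
    simpa using this
  rw [← h1, Fin.sum_univ_six] at h2
  have := h 0; have := h 1; have := h 2; have := h 3; have := h 4; have := h 5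
  omega

lemma deg : Finset.univ.sup
    (fun v : Fin 20 => (Finset.univ.filter (fun i : Fin 11 => v ∈ star i)).card) + 1 = 3 := by
  decide +kernel

lemma nocol (c0 c1 c2 c3 c4 c5 c6 c7 c8 c9 c10 : Fin 3)
    (h0 : c0 ≠ c1) (h1 : c1 ≠ c2) (h2 : c2 ≠ c3) (h3 : c3 ≠ c4) (h4 : c4 ≠ c0)
    (h5 : c5 ≠ c1) (h6 : c5 ≠ c4) (h7 : c6 ≠ c2) (h8 : c6 ≠ c0) (h9 : c7 ≠ c3) (h10 : c7 ≠ c1)
    (h11 : c8 ≠ c4) (h12 : c8 ≠ c2) (h13 : c9 ≠ c0) (h14 : c9 ≠ c3)
    (h15 : c10 ≠ c5) (h16 : c10 ≠ c6) (h17 : c10 ≠ c7) (h18 : c10 ≠ c8) (h19 : c10 ≠ c9) :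
    False := by
  omega

/-- The negation of the preceding statement: For any finite hypergraph (edges may repeat) in which every subfamily of edges has a matching of size at least its edge count divided by its max degree plus one, the edges can be colored with max degree plus one colors so same-colored edges are disjoint. -/
theorem result :
    ¬ (∀ (V : Type) [Fintype V] [DecidableEq V] (m : ℕ) (e : Fin m → Finset V),
    (∀ i, (e i).Nonempty) →
    (∀ S : Finset (Fin m), ∃ M ⊆ S,
        (∀ i ∈ M, ∀ j ∈ M, i ≠ j → Disjoint (e i) (e j)) ∧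
        S.card ≤ M.card *
          (Finset.univ.sup (fun v : V => (S.filter (fun i => v ∈ e i)).card) + 1)) →
    ∃ c : Fin m → Fin (Finset.univ.sup
        (fun v : V => (Finset.univ.filter (fun i : Fin m => v ∈ e i)).card) + 1),
      ∀ i j, i ≠ j → c i = c j → Disjoint (e i) (e j)) := by
  intro H
  have h := H (Fin 20) 11 star (by decide +kernel) ?_
  · obtain ⟨c, hc⟩ := h
    have key : ∀ i j, i ≠ j → ¬ Disjoint (star i) (star j) →
        Fin.cast deg (c i) ≠ Fin.cast deg (c j) := by
      intro i j hij hd he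
      exact hd (hc i j hij (Fin.cast_injective deg he))
    exact nocol _ _ _ _ _ _ _ _ _ _ _
      (key 0 1 (by decide) (by decide +kernel)) (key 1 2 (by decide) (by decide +kernel))
      (key 2 3 (by decide) (by decide +kernel)) (key 3 4 (by decide) (by decide +kernel))
      (key 4 0 (by decide) (by decide +kernel)) (key 5 1 (by decide) (by decide +kernel))
      (key 5 4 (by decide) (by decide +kernel)) (key 6 2 (by decide) (by decide +kernel))
      (key 6 0 (by decide) (by decide +kernel)) (key 7 3 (by decide) (by decide +kernel))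
      (key 7 1 (by decide) (by decide +kernel)) (key 8 4 (by decide) (by decide +kernel))
      (key 8 2 (by decide) (by decide +kernel)) (key 9 0 (by decide) (by decide +kernel))
      (key 9 3 (by decide) (by decide +kernel)) (key 10 5 (by decide) (by decide +kernel))
      (key 10 6 (by decide) (by decide +kernel)) (key 10 7 (by decide) (by decide +kernel))
      (key 10 8 (by decide) (by decide +kernel)) (key 10 9 (by decide) (by decide +kernel))
  · intro S
    by_cases hS : ∀ i ∈ S, ∀ j ∈ S, i ≠ j → Disjoint (star i) (star j)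
    · exact ⟨S, Finset.Subset.refl S, hS, Nat.le_mul_of_pos_right _ (Nat.succ_pos _)⟩
    · push Not at hS
      obtain ⟨i, hi, j, hj, hij, hd⟩ := hS
      obtain ⟨v, hvi, hvj⟩ := Finset.not_disjoint_iff.1 hd
      have h2 : 2 ≤ (S.filter (fun i => v ∈ star i)).card := by
        have hsub : ({i, j} : Finset (Fin 11)) ⊆ S.filter (fun i => v ∈ star i) := by
          intro x hx
          simp only [Finset.mem_insert, Finset.mem_singleton] at hx
          rcases hx with rfl | rfl <;> simp [*]
        have := Finset.card_le_card hsub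
        rwa [Finset.card_pair hij] at this
      have h3 : 2 ≤ Finset.univ.sup
          (fun v : Fin 20 => (S.filter (fun i => v ∈ star i)).card) :=
        le_trans h2 (Finset.le_sup (f := fun v : Fin 20 => (S.filter (fun i => v ∈ star i)).card)
          (Finset.mem_univ v))
      obtain ⟨k, hk⟩ := big S
      refine ⟨S ∩ mt k, Finset.inter_subset_left, ?_, ?_⟩
      · intro a ha b hb hab
        exact mt_disj k a (Finset.mem_inter.1 ha).2 b (Finset.mem_inter.1 hb).2 hab
      · exact le_trans hk (Nat.mul_le_mul_left _ (by omega))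

end Pool.Agent.S11816
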