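import Pool.Statements.S11846
import Pool.Agent.H35.ZsF2

set_option autoImplicit false
open scoped Classical
open Pool Pool.MP_dc28e4_co

namespace Pool.Agent.S11846

theorem result :
    ¬ (∀ ε : ℝ, 0 < ε → ∃ M : ℕ, ∀ m : ℕ, M ≤ m → ∀ k : ℕ, ∀ G : SimpleGraph (Fin k),
    G.IsAcyclic → G.edgeSet.ncard = m →
    ((sInf {N : ℕ | ∀ c : Sym2 (Fin N) → ZMod m, ∃ f : Fin k → Fin N,
        Function.Injective f ∧
        (∑ u : Fin k, ∑ v : Fin k,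
          (if u < v ∧ G.Adj u v then c s(f u, f v) else (0 : ZMod m))) = 0} : ℕ) : ℝ) ≤
    (1 + ε) * ((sInf {N : ℕ | ∀ c : Sym2 (Fin N) → Bool, ∃ f : Fin k → Fin N,
        Function.Injective f ∧ ∃ b : Bool, ∀ u v : Fin k, G.Adj u v →
          c s(f u, f v) = b} : ℕ) : ℝ)) := by
  intro H
  obtain ⟨M, hM⟩ := H (1 / 50) (by norm_num)
  obtain ⟨b, hb3, hbM⟩ : ∃ b : ℕ, 3 ≤ b ∧ M ≤ b := ⟨M + 3, by omega, by omega⟩
  have h := hM (b + 12 * b) (by omega) _ (H35.ZsF.GG (12 * b) b) (H35.ZsF.acyclic _ _)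
    (H35.ZsF.ncard_edges _ _)
  simp only [H35.ZsF.sum_edges] at h
  haveI : NeZero (b + 12 * b) := ⟨by omega⟩
  have h1 : 2 * (b + 12 * b) - 1 ≤ sInf {N : ℕ | ∀ c : Sym2 (Fin N) → ZMod (b + 12 * b),
      ∃ f : Fin (b + 1 + (b + 12 * b)) → Fin N, Function.Injective f ∧
        ∑ j, c s(f (H35.ZsF.rt (12 * b) b j), f (H35.ZsF.ch (12 * b) b j)) = 0} := by
    apply le_csInf
    · obtain ⟨N, hN⟩ := H35.ZsF.finite_mono (12 * b) b (by omega) (ZMod (b + 12 * b))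
      refine ⟨N, fun c => ?_⟩
      obtain ⟨γ, f, hf, hc⟩ := hN c
      refine ⟨f, hf, ?_⟩
      rw [Finset.sum_congr rfl (fun j _ => hc j), Finset.sum_const, Finset.card_univ,
        Fintype.card_fin, nsmul_eq_mul, ZMod.natCast_self, zero_mul]
    · intro N hN
      by_contra hlt
      obtain ⟨c, hc⟩ := H35.ZsF.lower (12 * b) b N (by omega) (by omega)
      obtain ⟨f, hf, h0⟩ := hN c
      exact hc f hf h0
  have h2 : sInf {N : ℕ | ∀ c : Sym2 (Fin N) → Bool,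
      ∃ f : Fin (b + 1 + (b + 12 * b)) → Fin N, Function.Injective f ∧ ∃ t : Bool,
        ∀ u v, (H35.ZsF.GG (12 * b) b).Adj u v → c s(f u, f v) = t} ≤ 25 * b := by
    apply Nat.sInf_le
    intro c
    obtain ⟨t, f, hf, hc⟩ := H35.ZsF.upper c (b := b) (by omega) (Fintype.card_fin _)
    refine ⟨f, hf, t, ?_⟩
    rintro u v ⟨j, ⟨rfl, rfl⟩ | ⟨rfl, rfl⟩⟩
    · exact hc j
    · rw [Sym2.eq_swap]
      exact hc j
  generalize sInf {N : ℕ | ∀ c : Sym2 (Fin N) → ZMod (b + 12 * b),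
      ∃ f : Fin (b + 1 + (b + 12 * b)) → Fin N, Function.Injective f ∧
        ∑ j, c s(f (H35.ZsF.rt (12 * b) b j), f (H35.ZsF.ch (12 * b) b j)) = 0} = X at h h1
  generalize sInf {N : ℕ | ∀ c : Sym2 (Fin N) → Bool,
      ∃ f : Fin (b + 1 + (b + 12 * b)) → Fin N, Function.Injective f ∧ ∃ t : Bool,
        ∀ u v, (H35.ZsF.GG (12 * b) b).Adj u v → c s(f u, f v) = t} = Y at h h2
  have h3 : ((26 * b : ℕ) : ℝ) ≤ ((X + 1 : ℕ) : ℝ) := Nat.cast_le.2 (by omega)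
  have h4 : (Y : ℝ) ≤ ((25 * b : ℕ) : ℝ) := Nat.cast_le.2 h2
  have h5 : (3 : ℝ) ≤ b := by exact_mod_cast hb3
  push_cast at h3 h4
  linarith

end Pool.Agent.S11846
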