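import Pool.Statements.S11856
import Pool.Agent.H51.Dean

set_option autoImplicit false
open Pool Pool.MP_dc9599_co

namespace Pool.Agent.S11856

/-- The negation of the preceding statement: Every oriented graph on n vertices in which each vertex has equal in- and out-degree splits into at most 2n/3 directed cycles, with every arc lying on exactly one cycle. -/
theorem result :
    ¬ (∀ (n : ℕ) (A : Finset (Fin n × Fin n)),
      (∀ u v : Fin n, (u, v) ∈ A → (v, u) ∉ A) →
      (∀ v : Fin n, (A.filter (fun e => e.1 = v)).card = (A.filter (fun e => e.2 = v)).card) →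
      ∃ L : List (List (Fin n)),
        3 * L.length ≤ 2 * n ∧
        (∀ c ∈ L, c.Nodup ∧ 2 ≤ c.length ∧ ∀ e ∈ c.zip (c.rotate 1), e ∈ A) ∧
        (∀ e ∈ A, ∃ c ∈ L, e ∈ c.zip (c.rotate 1)) ∧
        L.Pairwise (fun c d => ∀ e ∈ c.zip (c.rotate 1), e ∉ d.zip (d.rotate 1))) := by
  intro h
  obtain ⟨L, h1, h2, h3, h4⟩ := h 31 H51.Dean.A H51.Dean.ori H51.Dean.eul
  have := H51.Dean.main L h2 h3 h4
  omega

end Pool.Agent.S11856
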