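import Pool.Statements.S11866

set_option autoImplicit false
open Pool Pool.MP_dcf9ac_co

namespace Pool.Agent.S11866

/-- Edge list of the bicycle graph on 12 vertices (triangle-free, independence number 4, 20 edges). -/
def edges : List (ℕ × ℕ) :=
  [(0, 1), (0, 7), (0, 9), (1, 2), (1, 8), (2, 3), (2, 10), (3, 4), (3, 9), (4, 5), (4, 11), (5, 6),
   (5, 10), (6, 7), (6, 8), (7, 11), (8, 9), (8, 11), (9, 10), (10, 11)]

def adjB (u v : ℕ) : Bool := edges.contains (u, v) || edges.contains (v, u)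

def bike : SimpleGraph (Fin 12) where
  Adj u v := adjB u.1 v.1 = true
  symm := ⟨fun u v h => by revert u v; decide⟩
  loopless := ⟨fun u => by revert u; decide⟩

instance : DecidableRel bike.Adj := fun u v => inferInstanceAs (Decidable (adjB u.1 v.1 = true))

def cE (a0 a1 a2 a3 a4 a5 a6 a7 a8 a9 a10 a11 : Bool) : ℕ :=
  (a0 && a1).toNat + (a0 && a7).toNat + (a0 && a9).toNat + (a1 && a2).toNat + (a1 && a8).toNat + (a2 && a3).toNat + (a2 && a10).toNat + (a3 && a4).toNat + (a3 && a9).toNat + (a4 && a5).toNat + (a4 && a11).toNat + (a5 && a6).toNat + (a5 && a10).toNat + (a6 && a7).toNat + (a6 && a8).toNat + (a7 && a11).toNat + (a8 && a9).toNat + (a8 && a11).toNat + (a9 && a10).toNat + (a10 && a11).toNat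

def cV (a0 a1 a2 a3 a4 a5 a6 a7 a8 a9 a10 a11 : Bool) : ℕ :=
  a0.toNat + a1.toNat + a2.toNat + a3.toNat + a4.toNat + a5.toNat + a6.toNat + a7.toNat + a8.toNat + a9.toNat + a10.toNat + a11.toNat

lemma check : ∀ a0 a1 a2 a3 a4 a5 a6 a7 a8 a9 a10 a11 : Bool,
    (Nat.ble 3 (cV a0 a1 a2 a3 a4 a5 a6 a7 a8 a9 a10 a11) → Nat.ble (cE a0 a1 a2 a3 a4 a5 a6 a7 a8 a9 a10 a11 + 4) (2 * cV a0 a1 a2 a3 a4 a5 a6 a7 a8 a9 a10 a11)) ∧
    (Nat.ble 5 (cV a0 a1 a2 a3 a4 a5 a6 a7 a8 a9 a10 a11) → Nat.ble 1 (cE a0 a1 a2 a3 a4 a5 a6 a7 a8 a9 a10 a11)) := by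
  decide +kernel

/-- number of edges inside the set coded by a Boolean vector -/
def cntE (f : Fin 12 → Bool) : ℕ := cE (f 0) (f 1) (f 2) (f 3) (f 4) (f 5) (f 6) (f 7) (f 8) (f 9) (f 10) (f 11)

def cntV (f : Fin 12 → Bool) : ℕ := cV (f 0) (f 1) (f 2) (f 3) (f 4) (f 5) (f 6) (f 7) (f 8) (f 9) (f 10) (f 11)

lemma check' (f : Fin 12 → Bool) : (3 ≤ cntV f → cntE f + 4 ≤ 2 * cntV f) ∧ (5 ≤ cntV f → 1 ≤ cntE f) := by
  have := check (f 0) (f 1) (f 2) (f 3) (f 4) (f 5) (f 6) (f 7) (f 8) (f 9) (f 10) (f 11)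
  simpa only [Nat.ble_eq, cntV, cntE] using this

lemma toNat_dec (p : Prop) [Decidable p] : (decide p).toNat = if p then 1 else 0 := by
  by_cases h : p <;> simp [h]

lemma cntV_eq (S : Finset (Fin 12)) : cntV (fun i => decide (i ∈ S)) = S.card := by
  have : S.card = ∑ i : Fin 12, if i ∈ S then 1 else 0 := by simp
  rw [this]
  simp only [cntV, cV, toNat_dec, Fin.sum_univ_succ, Fin.sum_univ_zero]
  simp only [add_assoc, add_zero]
  rfl

lemma cntE_eq (S : Finset (Fin 12)) :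
    (Finset.univ.filter (fun p : Fin 12 × Fin 12 => p.1 ∈ S ∧ p.2 ∈ S ∧ bike.Adj p.1 p.2)).card =
      2 * cntE (fun i => decide (i ∈ S)) := by
  have h : ∀ u v : Fin 12, (if u ∈ S ∧ v ∈ S ∧ bike.Adj u v then 1 else 0) =
      (adjB u.1 v.1).toNat * (decide (u ∈ S) && decide (v ∈ S)).toNat := by
    intro u v
    by_cases h1 : u ∈ S <;> by_cases h2 : v ∈ S <;> by_cases h3 : adjB u.1 v.1 = true <;>
      simp [h1, h2, h3, bike]
  rw [Finset.card_filter, Fintype.sum_prod_type]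
  simp only [h]
  generalize hf : (fun i : Fin 12 => decide (i ∈ S)) = f
  have hf' : ∀ i, decide (i ∈ S) = f i := fun i => by rw [← hf]
  simp only [hf']
  simp only [Fin.sum_univ_succ, Fin.sum_univ_zero, cntE, cE]
  have tn : ∀ a b : Bool, (a && b).toNat = a.toNat * b.toNat := by decide
  simp [adjB, edges, tn]
  ring

lemma free : bikeᶜ.CliqueFree 5 := by
  intro S hS
  have h := (check' (fun i => decide (i ∈ S))).2
  rw [cntV_eq, hS.2] at h
  have h2 := h le_rfl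
  have h3 := cntE_eq S
  have : (Finset.univ.filter (fun p : Fin 12 × Fin 12 => p.1 ∈ S ∧ p.2 ∈ S ∧ bike.Adj p.1 p.2)).Nonempty := by
    rw [← Finset.card_pos]; omega
  obtain ⟨p, hp⟩ := this
  simp only [Finset.mem_filter, Finset.mem_univ, true_and] at hp
  have := hS.1 hp.1 hp.2.1 hp.2.2.ne
  exact this.2 hp.2.2

open Classical in
/-- The negation of the preceding statement. Counterexample: k = 3, r = 5, the bicycle graph. -/
theorem result :
    ¬ (∀ r k : ℕ, 2 ≤ r → 3 ≤ k →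
      (∀ G : SimpleGraph (Fin (k * (r - 1))), Gᶜ.CliqueFree r →
        ∃ S : Finset (Fin (k * (r - 1))), 3 ≤ S.card ∧
          ((k : ℝ) + 1) / 2 ≤
            ((((Finset.univ.filter (fun p : Fin (k * (r - 1)) × Fin (k * (r - 1)) =>
                p.1 ∈ S ∧ p.2 ∈ S ∧ G.Adj p.1 p.2)).card : ℝ) / 2 - 1) /
              ((S.card : ℝ) - 2))) ∧
      (∃ G : SimpleGraph (Fin (k * (r - 1))), Gᶜ.CliqueFree r ∧
        ∀ S : Finset (Fin (k * (r - 1))), 3 ≤ S.card →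
          ((((Finset.univ.filter (fun p : Fin (k * (r - 1)) × Fin (k * (r - 1)) =>
                p.1 ∈ S ∧ p.2 ∈ S ∧ G.Adj p.1 p.2)).card : ℝ) / 2 - 1) /
              ((S.card : ℝ) - 2)) ≤ ((k : ℝ) + 1) / 2)) := by
  intro h
  obtain ⟨S, hS, hle⟩ := (h 5 3 (by norm_num) (by norm_num)).1 bike free
  have h1 := (check' (fun i => decide (i ∈ S))).1
  rw [cntV_eq] at h1
  have h2 := h1 hS
  have h3 := cntE_eq S
  have h4 : ((Finset.univ.filter (fun p : Fin (3 * (5 - 1)) × Fin (3 * (5 - 1)) =>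
                p.1 ∈ S ∧ p.2 ∈ S ∧ bike.Adj p.1 p.2)).card : ℝ) + 8 ≤ 4 * (S.card : ℝ) := by
    have : (Finset.univ.filter (fun p : Fin 12 × Fin 12 => p.1 ∈ S ∧ p.2 ∈ S ∧ bike.Adj p.1 p.2)).card + 8
        ≤ 4 * S.card := by omega
    exact_mod_cast this
  have h5 : (3 : ℝ) ≤ S.card := by exact_mod_cast hS
  rw [le_div_iff₀ (by linarith)] at hle
  have key : ∀ inst : DecidablePred (fun p : Fin (3 * (5 - 1)) × Fin (3 * (5 - 1)) =>
      p.1 ∈ S ∧ p.2 ∈ S ∧ bike.Adj p.1 p.2),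
      ((@Finset.filter _ _ inst Finset.univ).card : ℝ) + 8 ≤ 4 * (S.card : ℝ) := by
    intro inst; convert h4
  have contra : ∀ x : ℝ, x + 8 ≤ 4 * (S.card : ℝ) →
      ¬ ((((3 : ℕ) : ℝ) + 1) / 2 * ((S.card : ℝ) - 2) ≤ x / 2 - 1) := by
    intro x hx hy
    push_cast at hy
    linarith
  exact contra _ (key _) hle

end Pool.Agent.S11866
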