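import Pool.Statements.S11888
-- import your own Pool.Agent.* helpers here

set_option autoImplicit false
open Pool Pool.MP_dd77b8_co

namespace Pool.Agent.S11888

lemma growth (d : ℝ) (hd : 32 ≤ d) : 2 * d < Real.exp (d ^ ((4 : ℝ) / 5)) := by
  have hd0 : 0 ≤ d := by linarith
  set z := d ^ ((1 : ℝ) / 5) with hz
  have hz0 : 0 ≤ z := Real.rpow_nonneg hd0 _
  have h5 : z ^ 5 = d := by
    rw [hz, ← Real.rpow_natCast, ← Real.rpow_mul hd0]; norm_num
  have h4 : z ^ 4 = d ^ ((4 : ℝ) / 5) := by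
    rw [hz, ← Real.rpow_natCast, ← Real.rpow_mul hd0]; norm_num
  have hz2 : 2 ≤ z := by
    by_contra h
    push Not at h
    have : z ^ 5 < 2 ^ 5 := pow_lt_pow_left₀ h hz0 (by norm_num)
    linarith
  have he := Real.quadratic_le_exp_of_nonneg (x := z ^ 4) (by positivity)
  rw [← h4, ← h5]
  have h3 : 8 ≤ z ^ 3 := by
    have := pow_le_pow_left₀ (by norm_num : (0 : ℝ) ≤ 2) hz2 3
    linarith
  have h5p : 0 < z ^ 5 := by positivity
  have : (z ^ 4) ^ 2 = z ^ 5 * z ^ 3 := by ring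
  nlinarith [pow_nonneg hz0 4]

lemma cap_diam {ι : Type*} [Fintype ι] (A : Set (EuclideanSpace ℝ ι)) (T : ι) (s c : ℝ)
    (hs : s ^ 2 = 1) (hc : 0 < c) (hA : ∀ f ∈ A, ‖f‖ = 1 ∧ c ≤ s * f T) :
    Metric.diam A < 2 := by
  have h1 : Metric.diam A ≤ Real.sqrt (4 - 4 * c ^ 2) := by
    apply Metric.diam_le_of_forall_dist_le (Real.sqrt_nonneg _)
    intro f hf g hg
    obtain ⟨hf1, hf2⟩ := hA f hf
    obtain ⟨hg1, hg2⟩ := hA g hg
    apply Real.le_sqrt_of_sq_le
    have hp := parallelogram_law_with_norm ℝ f g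
    have hT : ‖(f + g) T‖ ≤ ‖f + g‖ := PiLp.norm_apply_le (f + g) T
    have hT2 : ((f + g) T) ^ 2 ≤ ‖f + g‖ ^ 2 := by
      rw [← sq_abs]
      exact pow_le_pow_left₀ (abs_nonneg _) hT 2
    have h3 : (2 * c) ^ 2 ≤ (s * (f T + g T)) ^ 2 :=
      pow_le_pow_left₀ (by positivity) (by linarith) 2
    rw [mul_pow s, hs] at h3
    simp only [PiLp.add_apply] at hT2
    rw [dist_eq_norm]
    rw [hf1, hg1] at hp
    nlinarith
  have h2 : Real.sqrt (4 - 4 * c ^ 2) < 2 := by
    rw [Real.sqrt_lt' (by norm_num)]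
    nlinarith
  linarith

lemma big_coord {ι : Type*} [Fintype ι] (f : EuclideanSpace ℝ ι) (hf : ‖f‖ = 1) :
    ∃ T : ι, (1 : ℝ) / (Fintype.card ι + 1) ≤ |f T| := by
  by_contra h
  push Not at h
  have h1 : ‖f‖ ^ 2 = ∑ i, ‖f i‖ ^ 2 := EuclideanSpace.norm_sq_eq f
  set d : ℝ := (Fintype.card ι : ℝ) with hd
  have hd0 : 0 ≤ d := by positivity
  have h2 : ∑ i, ‖f i‖ ^ 2 ≤ ∑ _i : ι, (1 / (d + 1)) ^ 2 := by
    apply Finset.sum_le_sum
    intro i _
    exact pow_le_pow_left₀ (norm_nonneg _) (h i).le 2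
  rw [Finset.sum_const, Finset.card_univ, nsmul_eq_mul, ← h1, hf, ← hd] at h2
  have h3 : d * (1 / (d + 1)) ^ 2 < 1 := by
    rw [div_pow, one_pow, mul_one_div, div_lt_one (by positivity)]
    nlinarith
  linarith

lemma single_mem (n : ℕ) (T₀ : {T : Finset (Fin n) // T.card = 4}) (s : ℝ) :
    ∃ g : Finset (Fin n) → ℝ,
      EuclideanSpace.single T₀ s = WithLp.toLp 2 (fun T : {T : Finset (Fin n) // T.card = 4} =>
        ∏ S ∈ T.1.powersetCard 3, g S) := by
  classical
  obtain ⟨S₀, hS₀⟩ : (T₀.1.powersetCard 3).Nonempty := by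
    rw [Finset.powersetCard_nonempty, T₀.2]; norm_num
  refine ⟨fun S => if S = S₀ then s else if S ⊆ T₀.1 then 1 else 0, ?_⟩
  ext T
  simp only [EuclideanSpace.single_apply]
  split_ifs with h
  · subst h
    rw [← Finset.mul_prod_erase _ _ hS₀, if_pos rfl, Finset.prod_eq_one, mul_one]
    intro S hS
    rw [Finset.mem_erase, Finset.mem_powersetCard] at hS
    rw [if_neg hS.1, if_pos hS.2.1]
  · have hne : ¬ T.1 ⊆ T₀.1 := by
      intro hsub
      apply h
      apply Subtype.ext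
      exact Finset.eq_of_subset_of_card_le hsub (by rw [T.2, T₀.2])
    obtain ⟨a, haT, haT₀⟩ := Finset.not_subset.1 hne
    obtain ⟨S, hS1, hS2, hS3⟩ := Finset.exists_subsuperset_card_eq
      (s := {a}) (t := T.1) (n := 3) (by simpa using haT) (by simp) (by rw [T.2]; norm_num)
    have haS : a ∈ S := hS1 (by simp)
    symm
    apply Finset.prod_eq_zero (i := S) (by rw [Finset.mem_powersetCard]; exact ⟨hS2, hS3⟩)
    have h1 : ¬ S ⊆ T₀.1 := fun hh => haT₀ (hh haS)
    have h2 : S ≠ S₀ := by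
      rintro rfl
      exact h1 (Finset.mem_powersetCard.1 hS₀).1
    rw [if_neg h2, if_neg h1]

/-- The negation of the preceding statement: For all large n, any way of writing the unit-norm vectors f_g of U_{4,n} in R^{C(n,4)} as a union of m sets, each of diameter below that of the whole set, needs m ≥ exp(C(n,4)^{4/5}). -/
theorem result :
    ¬ (∃ N : ℕ, ∀ n : ℕ, N ≤ n →
      ∀ X : Set (EuclideanSpace ℝ {T : Finset (Fin n) // T.card = 4}),
        X = {f | ∃ g : Finset (Fin n) → ℝ,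
              f = WithLp.toLp 2 (fun T : {T : Finset (Fin n) // T.card = 4} =>
                    ∏ S ∈ T.1.powersetCard 3, g S) ∧ ‖f‖ = 1} →
        ∀ m : ℕ, ∀ A : Fin m → Set (EuclideanSpace ℝ {T : Finset (Fin n) // T.card = 4}),
          (⋃ i, A i) = X →
          (∀ i, Metric.diam (A i) < Metric.diam X) →
          Real.exp (((n.choose 4 : ℕ) : ℝ) ^ ((4 : ℝ) / 5)) ≤ (m : ℝ)) := by
  rintro ⟨N, H⟩
  classical
  set n := max N 7 with hn
  have hn7 : 7 ≤ n := le_max_right _ _
  have hcard : Fintype.card {T : Finset (Fin n) // T.card = 4} = n.choose 4 := by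
    simp
  have hch : 35 ≤ n.choose 4 := by
    have := Nat.choose_le_choose 4 hn7
    have h2 : Nat.choose 7 4 = 35 := by decide
    omega
  set X : Set (EuclideanSpace ℝ {T : Finset (Fin n) // T.card = 4}) :=
    {f | ∃ g : Finset (Fin n) → ℝ,
              f = WithLp.toLp 2 (fun T : {T : Finset (Fin n) // T.card = 4} =>
                    ∏ S ∈ T.1.powersetCard 3, g S) ∧ ‖f‖ = 1} with hX
  have hXn : ∀ f ∈ X, ‖f‖ = 1 := by
    rintro f ⟨g, -, hf⟩; exact hf
  have hne : Nonempty {T : Finset (Fin n) // T.card = 4} := by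
    rw [← Fintype.card_pos_iff, hcard]; omega
  obtain ⟨T₀⟩ := hne
  have hdiam : 2 ≤ Metric.diam X := by
    have hb : Bornology.IsBounded X := by
      apply (Metric.isBounded_closedBall (x := 0) (r := 1)).subset
      intro f hf
      simp [hXn f hf]
    have m1 : EuclideanSpace.single T₀ (1 : ℝ) ∈ X := by
      obtain ⟨g, hg⟩ := single_mem n T₀ 1
      exact ⟨g, hg, by simp⟩
    have m2 : EuclideanSpace.single T₀ (-1 : ℝ) ∈ X := by
      obtain ⟨g, hg⟩ := single_mem n T₀ (-1)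
      exact ⟨g, hg, by simp⟩
    have := Metric.dist_le_diam_of_mem hb m1 m2
    rw [EuclideanSpace.dist_single_same, Real.dist_eq] at this
    norm_num at this
    exact this
  let e := Fintype.equivFin ({T : Finset (Fin n) // T.card = 4} × Bool)
  let c : ℝ := 1 / (Fintype.card {T : Finset (Fin n) // T.card = 4} + 1)
  have hc : 0 < c := by positivity
  let A : Fin (Fintype.card ({T : Finset (Fin n) // T.card = 4} × Bool)) →
      Set (EuclideanSpace ℝ {T : Finset (Fin n) // T.card = 4}) :=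
    fun i => {f | f ∈ X ∧ c ≤ (if (e.symm i).2 then 1 else -1) * f (e.symm i).1}
  have key := H n (le_max_left _ _) X rfl _ A (by
    apply Set.Subset.antisymm
    · intro f hf
      obtain ⟨i, hi⟩ := Set.mem_iUnion.1 hf
      exact hi.1
    · intro f hf
      obtain ⟨T, hT⟩ := big_coord f (hXn f hf)
      rcases le_abs.1 hT with h | h
      · exact Set.mem_iUnion.2 ⟨e (T, true), hf, by simpa [c] using h⟩
      · exact Set.mem_iUnion.2 ⟨e (T, false), hf, by simpa [c] using h⟩) (by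
    intro i
    refine lt_of_lt_of_le ?_ hdiam
    apply cap_diam (A i) (e.symm i).1 (if (e.symm i).2 then 1 else -1) c
      (by split_ifs <;> norm_num) hc
    intro f hf
    exact ⟨hXn f hf.1, hf.2⟩)
  rw [Fintype.card_prod, hcard, Fintype.card_bool] at key
  have hg := growth ((n.choose 4 : ℕ) : ℝ) (by exact_mod_cast (by omega : 32 ≤ n.choose 4))
  push_cast at key
  linarith

end Pool.Agent.S11888
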