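import Pool.Statements.S11898
import Pool.Agent.H4.InterConf

set_option autoImplicit false
open Pool Pool.MP_ddc6c3_co

namespace Pool.Agent.S11898

/-- The negation of the preceding statement: Consider closed convex sets in R^d whose common intersection is a convex body strictly inside each one, and let n ≥ 2 be least such that any n of them intersect in that body. Then their union is a union of at most (d+1)(n-1) closed convex sets. -/
theorem result :
    ¬ (∀ (d n : ℕ) (I : Type) (K : I → Set (EuclideanSpace ℝ (Fin d))),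
      (∀ α, IsClosed (K α) ∧ Convex ℝ (K α)) →
      IsCompact (⋂ β, K β) →
      Convex ℝ (⋂ β, K β) →
      (interior (⋂ β, K β)).Nonempty →
      (∀ α, (⋂ β, K β) ⊂ K α) →
      2 ≤ n →
      (∀ S : Finset I, S.card = n → (⋂ α ∈ S, K α) = ⋂ β, K β) →
      (∀ m : ℕ, (∀ S : Finset I, S.card = m → (⋂ α ∈ S, K α) = ⋂ β, K β) → n ≤ m) →
      ∃ C : Fin ((d + 1) * (n - 1)) → Set (EuclideanSpace ℝ (Fin d)),
        (∀ i, IsClosed (C i) ∧ Convex ℝ (C i)) ∧ (⋃ i, C i) = ⋃ α, K α) := by
  intro h
  open H4.InterConf in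
  obtain ⟨B0, hB0⟩ := (Set.finite_range (fun ij : Fin 33 × Fin 33 =>
    ‖pt (tt ij.1) (tt ij.2)‖)).bddAbove
  let B := max B0 1
  have hB : ∀ i j, H4.InterConf.pt (H4.InterConf.tt i) (H4.InterConf.tt j) ∈
      Metric.closedBall (0 : H4.InterConf.E) B := by
    intro i j
    rw [mem_closedBall_zero_iff]
    exact (hB0 ⟨(i, j), rfl⟩).trans (le_max_left _ _)
  have hss : ∀ α, (⋂ β, H4.InterConf.KK B β) ⊂ H4.InterConf.KK B α := by
    intro α
    refine ⟨Set.iInter_subset _ α, fun hsub => ?_⟩
    obtain ⟨j, hj⟩ := H4.InterConf.other α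
    have h1 : H4.InterConf.pt (H4.InterConf.tt α) (H4.InterConf.tt j) ∈ H4.InterConf.KK B α :=
      ⟨hB α j, fun k hk => H4.InterConf.pt_le j hk⟩
    have h2 := ((H4.InterConf.mem_all B _).1 (hsub h1)).2 α
    have h3 := H4.InterConf.pt_self hj.symm
    linarith
  obtain ⟨C, hC, hU⟩ := h 4 2 (Fin 33) (H4.InterConf.KK B)
    (fun α => ⟨H4.InterConf.KK_closed B α, H4.InterConf.KK_convex B α⟩)
    ((isCompact_closedBall (0 : H4.InterConf.E) B).of_isClosed_subset
      (isClosed_iInter fun α => H4.InterConf.KK_closed B α)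
      (fun x hx => ((H4.InterConf.mem_all B x).1 hx).1))
    (convex_iInter fun α => H4.InterConf.KK_convex B α)
    (by
      refine ⟨0, mem_interior.2 ⟨Metric.ball 0 B ∩
        ⋂ k, {x | H4.InterConf.phi (H4.InterConf.tt k) x < 0}, ?_, ?_, ?_⟩⟩
      · intro x hx
        rw [H4.InterConf.mem_all]
        exact ⟨Metric.ball_subset_closedBall hx.1, fun k => (Set.mem_iInter.1 hx.2 k).le⟩
      · exact Metric.isOpen_ball.inter (isOpen_iInter_of_finite fun k =>
          isOpen_lt (H4.InterConf.phi_cont _) continuous_const)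
      · refine ⟨Metric.mem_ball_self (lt_of_lt_of_le one_pos (le_max_right _ _)), ?_⟩
        simp [H4.InterConf.phi])
    hss le_rfl
    (by
      intro S hS
      obtain ⟨a, b, hab, rfl⟩ := Finset.card_eq_two.1 hS
      ext x
      rw [H4.InterConf.mem_all]
      simp only [Finset.mem_insert, Finset.mem_singleton, Set.mem_iInter, forall_eq_or_imp,
        forall_eq]
      constructor
      · rintro ⟨ha, hb⟩
        refine ⟨ha.1, fun k => ?_⟩
        by_cases hk : k = a
        · subst hk; exact hb.2 k hab
        · exact ha.2 k hk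
      · intro hx
        exact ⟨⟨hx.1, fun k _ => hx.2 k⟩, ⟨hx.1, fun k _ => hx.2 k⟩⟩)
    (by
      intro m hm
      by_contra hlt
      have : m = 0 ∨ m = 1 := by omega
      rcases this with rfl | rfl
      · have h0 := hm ∅ rfl
        have h1 := hss 0
        rw [← h0] at h1
        simp at h1
        exact h1.2 (Set.subset_univ _)
      · have h0 := hm {0} rfl
        have h1 := hss 0
        rw [← h0] at h1
        simp at h1)
  exact H4.InterConf.no_cover B hB C (fun i => (hC i).2) hU

end Pool.Agent.S11898
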