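import Pool.Statements.S11952
import Pool.Agent.H19.Klein

set_option autoImplicit false
open Pool Pool.MP_dfb409_co

namespace Pool.Agent.S11952

/-- The negation of the preceding statement: Every finite K4-free graph that is not 3-colorable has distinct vertices x,y and two 3-colorable subgraphs containing x,y but not edge xy, one where every 3-coloring separates x,y and one where every 3-coloring equates them. -/
theorem result :
    ¬ (∀ (V : Type) [Fintype V] (G : SimpleGraph V),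
      G.CliqueFree 4 → ¬ G.Colorable 3 →
      ∃ x y : V, x ≠ y ∧
        ∃ G₁ G₂ : G.Subgraph,
        ∃ hx₁ : x ∈ G₁.verts, ∃ hy₁ : y ∈ G₁.verts,
        ∃ hx₂ : x ∈ G₂.verts, ∃ hy₂ : y ∈ G₂.verts,
          ¬ G₁.Adj x y ∧ ¬ G₂.Adj x y ∧
          G₁.coe.Colorable 3 ∧ G₂.coe.Colorable 3 ∧
          (∀ c : G₁.coe.Coloring (Fin 3), c ⟨x, hx₁⟩ ≠ c ⟨y, hy₁⟩) ∧
          (∀ c : G₂.coe.Coloring (Fin 3), c ⟨x, hx₂⟩ = c ⟨y, hy₂⟩)) := by
  open Pool.Agent.H19.Klein in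
  intro h
  obtain ⟨x, y, hne, G₁, G₂, hx₁, hy₁, hx₂, hy₂, n₁, n₂, c₁, c₂, d₁, d₂⟩ :=
    h (Fin 49) G cliqueFree not_col
  by_cases hxy : G.Adj x y
  · obtain ⟨e, h0, h1, -⟩ := entry x y hxy
    have h3 : cc e 0 x ≠ cc e 0 y := d₁ (restr G₁ x y n₁ (cc e 0) (h1 0 h0))
    refine not_col ⟨SimpleGraph.Coloring.mk (cc e 0) fun {u v} huv => ?_⟩
    by_cases he : s(u, v) = s(x, y)
    · rcases Sym2.eq_iff.mp he with ⟨a, b⟩ | ⟨a, b⟩
      · rw [a, b]; exact h3
      · rw [a, b]; exact h3.symm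
    · exact h1 0 h0 u v huv he
  · cases ha : isA x y
    · obtain ⟨u, v, huv, hm⟩ := missing G₂ c₂
      obtain ⟨e, -, h1, h2⟩ := entry u v huv
      obtain ⟨j, hj, h3⟩ := (h2 x y hne hxy).2 ha
      exact h3 (d₂ (restr G₂ u v hm (cc e j) (h1 j hj)))
    · obtain ⟨u, v, huv, hm⟩ := missing G₁ c₁
      obtain ⟨e, -, h1, h2⟩ := entry u v huv
      obtain ⟨j, hj, h3⟩ := (h2 x y hne hxy).1 ha
      exact d₁ (restr G₁ u v hm (cc e j) (h1 j hj)) h3

end Pool.Agent.S11952
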