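import Pool.Statements.S11965
import Pool.Agent.H49.Mo2

set_option autoImplicit false
open Pool Pool.MP_e032b8_co

namespace Pool.Agent.S11965

/-- For every k at least 3 and every c > 0, for all large n there is a set of at least c·k^n/√n points in {0,…,k−1}^n such that no k of them lie on one real line. -/
theorem result :
    ∀ k : ℕ, 3 ≤ k → ∀ c : ℝ, 0 < c → ∃ N : ℕ, ∀ n : ℕ, N ≤ n →
      ∃ S : Finset (Fin n → Fin k),
        c * (k : ℝ) ^ n / Real.sqrt (n : ℝ) ≤ (S.card : ℝ) ∧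
        ∀ T : Finset (Fin n → Fin k), T ⊆ S → T.card = k →
          ¬ Collinear ℝ ((fun (x : Fin n → Fin k) (i : Fin n) => (((x i : ℕ)) : ℝ)) ''
              (T : Set (Fin n → Fin k))) := by
  intro k hk c hc
  classical
  obtain ⟨R, hR⟩ : ∃ R : ℕ, 16 * c < R := exists_nat_gt _
  have R0 : (0 : ℝ) < R := by linarith
  obtain ⟨A, hA⟩ : ∃ A : ℕ, A = (k - 1) ^ (R * 8) * (R * 8 + 1) := ⟨_, rfl⟩
  have A1 : 1 ≤ A := hA ▸ Nat.mul_pos (Nat.pow_pos (by omega)) (by omega)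
  obtain ⟨B, hB⟩ : ∃ B : ℕ, 38 * c * A < B := exists_nat_gt _
  refine ⟨(k + B) ^ 8, fun n hn => ?_⟩
  obtain ⟨s, s1, s2⟩ := Pool.Agent.H49.Mo.root n
  have s3 : k + B ≤ s := Nat.lt_succ_iff.1 (lt_of_pow_lt_pow_left₀ 8 (Nat.zero_le _) (hn.trans_lt s2))
  have n0 : 0 < n := lt_of_lt_of_le (Nat.pow_pos (by omega)) hn
  obtain ⟨p, pp, p1, p2⟩ := Nat.exists_prime_lt_and_le_two_mul s (by omega)
  haveI := Fact.mk pp
  obtain ⟨φ, f1, f2⟩ := Pool.Agent.H49.Mo.colour k n R p hk (by omega)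
    (s2.le.trans (Nat.pow_le_pow_left p1 8)) (by exact_mod_cast R0)
  obtain ⟨G, L, g1, g2⟩ := Pool.Agent.H49.Mo.central k n hk n0
  have f3 : ∀ x, φ x < 4 * A * s ^ 2 := fun x => (f1 x).trans_le (by
    have h1 : p ^ 2 ≤ (2 * s) ^ 2 := Nat.pow_le_pow_left p2 2
    have h2 : 1 ≤ p ^ 2 := Nat.pow_pos pp.pos
    calc _ ≤ (k - 1) ^ (R * 8) * ((R * 8 + 1) * (2 * s) ^ 2) :=
          Nat.mul_le_mul_left _ (by nlinarith)
      _ = _ := by rw [hA]; ring)
  have q0 : 0 < √(n : ℝ) := Real.sqrt_pos.2 (by exact_mod_cast n0)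
  have q1 : (s : ℝ) ^ 4 ≤ √n := Real.le_sqrt_of_sq_le (by
    rw [← pow_mul]; exact_mod_cast s1)
  set W := ⌈4 * √(n : ℝ)⌉₊ + 1 with hW
  have w1 : ((W / R : ℕ) : ℝ) ≤ 4 * √n / R + 2 := by
    have h1 := Nat.ceil_lt_add_one (show 0 ≤ 4 * √(n : ℝ) by positivity)
    have h2 : (1 : ℝ) ≤ R := by exact_mod_cast (show 0 < R by exact_mod_cast R0)
    refine Nat.cast_div_le.trans ?_
    rw [div_add' _ _ _ R0.ne', hW]
    push_cast
    exact div_le_div_of_nonneg_right (by linarith) R0.le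
  obtain ⟨γ, -, hγ⟩ := Finset.exists_le_card_fiber_of_nsmul_le_card_of_maps_to
    (f := fun x => Pool.Agent.H49.Mo.ex x / R + φ x) (s := G)
    (t := Finset.Ico (L / R) (L / R + (W / R + 4 * A * s ^ 2 + 1))) (b := c * (k : ℝ) ^ n / √n)
    (fun x hx => by
      obtain ⟨h1, h2⟩ := g2 x hx
      have h3 : L / R ≤ _ := Nat.div_le_div_right h1
      have h4 : _ ≤ (L + W) / R := Nat.div_le_div_right h2
      have h5 : (L + W) / R ≤ L / R + W / R + 1 := Nat.add_div_le_div_add_div_add_one _ _ _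
      have := f3 x
      exact Finset.mem_Ico.2 ⟨by omega, by omega⟩) ⟨L / R, by simp⟩ (by
      refine le_trans ?_ g1
      rw [Nat.card_Ico, Nat.add_sub_cancel_left, nsmul_eq_mul, ← mul_div_assoc, div_le_iff₀ q0,
        ← mul_assoc, mul_right_comm (3 / 4 : ℝ)]
      refine mul_le_mul_of_nonneg_right ?_ (by positivity)
      have h1 : 4 * √(n : ℝ) / R * c ≤ √n / 4 := by
        rw [div_mul_eq_mul_div, div_le_div_iff₀ R0 (by norm_num)]; nlinarith
      have h2 : (B : ℝ) ≤ s := by exact_mod_cast (show B ≤ s by omega)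
      have h3 : (1 : ℝ) ≤ s := by exact_mod_cast (show 1 ≤ s by omega)
      have h4 : (1 : ℝ) ≤ A := by exact_mod_cast A1
      have h5 : (1 : ℝ) ≤ A * s ^ 2 := by nlinarith
      have h6 : 38 * c * A * s ^ 2 ≤ s ^ 2 * s ^ 2 :=
        mul_le_mul_of_nonneg_right (by nlinarith) (by positivity)
      have h7 := mul_le_mul_of_nonneg_right w1 hc.le
      have h8 := mul_le_mul_of_nonneg_right h5 hc.le
      push_cast
      nlinarith)
  refine ⟨_, hγ, fun T hT hk' hcol => ?_⟩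
  obtain ⟨x, hx, y, hy, z, hz, w, i0, h0, hw⟩ := Pool.Agent.H49.Mo.line hk T hk' hcol
  have e1 := (Finset.mem_filter.1 (hT hx)).2
  have e2 := (Finset.mem_filter.1 (hT hy)).2
  have e3 := (Finset.mem_filter.1 (hT hz)).2
  exact f2 x y z w i0 h0 hw (e1.trans e2.symm) (e1.trans e3.symm)

end Pool.Agent.S11965
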