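import Pool.Statements.S11991
import Pool.Agent.H28.ZeroFree

set_option autoImplicit false
open Pool Pool.MP_e19463_co

namespace Pool.Agent.S11991

/-- There is a function C such that for every loopless binary matroid M whose cocycle space has a basis of vectors of weight at most k, every complex root of the characteristic polynomial of M has modulus at most C(k). -/
theorem result :
  ∃ C : ℕ → ℝ, ∀ (m n : ℕ) (A : Matrix (Fin m) (Fin n) (ZMod 2)),
    (∀ j : Fin n, ∃ i : Fin m, A i j ≠ 0) →
    ∀ k : ℕ,
    (∃ s : Finset (Fin n → ZMod 2),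
        LinearIndependent (ZMod 2)
          (fun v : (s : Set (Fin n → ZMod 2)) => (v : Fin n → ZMod 2)) ∧
        Submodule.span (ZMod 2) (s : Set (Fin n → ZMod 2)) =
          Submodule.span (ZMod 2) (Set.range A) ∧
        ∀ v ∈ s, (Finset.univ.filter (fun j : Fin n => v j ≠ 0)).card ≤ k) →
    ∀ q : ℂ,
      (∑ X : Finset (Fin n), (-1 : ℂ) ^ X.card *
        q ^ (Module.finrank (ZMod 2)
                (Submodule.span (ZMod 2)
                  (Set.range (fun j : Fin n => fun i : Fin m => A i j))) -
             Module.finrank (ZMod 2)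
                (Submodule.span (ZMod 2)
                  ((fun j : Fin n => fun i : Fin m => A i j) '' (X : Set (Fin n)))))) = 0 →
      ‖q‖ ≤ C k := by
  refine ⟨fun k => 2 * 4 ^ k, ?_⟩
  rintro m n A hA k ⟨s, -, hspan, hs⟩ q hq
  refine Pool.Agent.H28.ZeroFree.root_bound (K := ZMod 2)
    (fun j : Fin n => fun i : Fin m => A i j) ?_ k ?_ _ le_rfl q hq
  · intro j hj
    obtain ⟨i, hi⟩ := hA j
    exact hi (congrFun hj i)
  · intro w hw hw0
    obtain ⟨x, rfl⟩ := (Submodule.mem_span_range_iff_exists_fun _).1 hw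
    let ψ : (Fin n → ZMod 2) →ₗ[ZMod 2] ZMod 2 := ∑ j, x j • LinearMap.proj j
    have hψ : ∀ v, ψ v = ∑ j, x j * v j := by
      intro v
      simp [ψ, LinearMap.sum_apply]
    have hex : ∃ v ∈ s, ψ v ≠ 0 := by
      by_contra hcon
      push Not at hcon
      have hle : Submodule.span (ZMod 2) (s : Set (Fin n → ZMod 2)) ≤ LinearMap.ker ψ := by
        rw [Submodule.span_le]
        exact fun v hv => hcon v hv
      apply hw0
      funext i
      have := hle (hspan ▸ Submodule.subset_span ⟨i, rfl⟩ : A i ∈ _)
      rw [LinearMap.mem_ker, hψ] at this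
      simpa [Finset.sum_apply] using this
    obtain ⟨v, hvs, hv⟩ := hex
    have hv' : v ∈ Submodule.span (ZMod 2) (Set.range A) := hspan ▸ Submodule.subset_span hvs
    obtain ⟨y, hy⟩ := (Submodule.mem_span_range_iff_exists_fun _).1 hv'
    let φ : (Fin m → ZMod 2) →ₗ[ZMod 2] ZMod 2 := ∑ i, y i • LinearMap.proj i
    have hφ : ∀ j, φ (fun i => A i j) = v j := by
      intro j
      rw [← hy]
      simp [φ, LinearMap.sum_apply, Finset.sum_apply]
    refine ⟨φ, ?_, ?_⟩
    · rw [map_sum]
      simp only [map_smul, hφ, smul_eq_mul]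
      rwa [hψ] at hv
    · simp only [hφ]
      exact hs v hvs

end Pool.Agent.S11991
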