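import Pool.Statements.S11998
-- import your own Pool.Agent.* helpers here

set_option autoImplicit false
open Pool Pool.MP_e1ba52_co

namespace Pool.Agent.S11998

abbrev F := Fin 6

def chk : List (F × F) → List (F × F × F) → Bool
  | [], K => K.all fun t => t.2.2 == t.1 + t.2.1
  | x :: xs, K => (List.finRange 6).all fun s =>
      (K.any fun t => t.2.2 == s && ((t.1 == x.1 && t.2.1 != x.2) || (t.2.1 == x.2 && t.1 != x.1)))
        || chk xs ((x.1, x.2, s) :: K)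

theorem sound (M : F → F → F) (h1 : ∀ i, Function.Injective (M i))
    (h2 : ∀ j, Function.Injective (fun i => M i j)) : ∀ (xs : List (F × F)) (K : List (F × F × F)),
    chk xs K = true → (∀ t ∈ K, M t.1 t.2.1 = t.2.2) →
      (∀ t ∈ K, t.2.2 = t.1 + t.2.1) ∧ ∀ x ∈ xs, M x.1 x.2 = x.1 + x.2 := by
  intro xs
  induction xs with
  | nil => intro K h _; simpa [chk] using h
  | cons x xs ih =>
    intro K h hK
    simp only [chk, List.all_eq_true, Bool.or_eq_true, List.any_eq_true, Bool.and_eq_true,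
      beq_iff_eq, bne_iff_ne] at h
    rcases h (M x.1 x.2) (List.mem_finRange _) with ⟨t, ht, e, ⟨a, b⟩ | ⟨a, b⟩⟩ | h
    · exact absurd (h1 x.1 (by rw [← e, ← hK t ht, a])) b.symm
    · exact absurd (h2 x.2 (by simp only; rw [← e, ← hK t ht, a])) b.symm
    · obtain ⟨g1, g2⟩ := ih _ h (by
        intro t ht
        rcases List.mem_cons.1 ht with rfl | ht
        exacts [rfl, hK t ht])
      refine ⟨fun t ht => g1 t (List.mem_cons_of_mem _ ht), fun y hy => ?_⟩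
      rcases List.mem_cons.1 hy with rfl | hy
      exacts [g1 _ List.mem_cons_self, g2 y hy]

def SL : List (F × F) := [(0, 0), (0, 5), (2, 0), (2, 1), (3, 0), (3, 1), (3, 3), (3, 5), (4, 0), (4, 4), (4, 5), (5, 0), (5, 1), (5, 3), (5, 4), (5, 5)]

def rest : List (F × F) := [(1, 0), (1, 5), (2, 5), (5, 2), (3, 2), (3, 4), (0, 4), (1, 4), (1, 1), (0, 1), (0, 3), (0, 2), (1, 3), (1, 2), (2, 3), (2, 4), (2, 2), (4, 1), (4, 2), (4, 3)]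

def alts : List (F → F → F) := [![![1, 2, 3, 4, 0, 5], ![0, 5, 2, 3, 4, 1], ![2, 3, 4, 1, 5, 0], ![3, 4, 5, 0, 1, 2], ![4, 1, 0, 5, 2, 3], ![5, 0, 1, 2, 3, 4]],
  ![![0, 5, 2, 3, 4, 1], ![1, 2, 3, 4, 0, 5], ![2, 3, 4, 1, 5, 0], ![3, 4, 5, 0, 1, 2], ![4, 1, 0, 5, 2, 3], ![5, 0, 1, 2, 3, 4]],
  ![![0, 2, 3, 1, 4, 5], ![2, 5, 4, 3, 0, 1], ![1, 3, 2, 4, 5, 0], ![3, 4, 5, 0, 1, 2], ![4, 1, 0, 5, 2, 3], ![5, 0, 1, 2, 3, 4]],
  ![![0, 3, 2, 1, 4, 5], ![1, 2, 3, 4, 5, 0], ![2, 5, 4, 3, 0, 1], ![3, 4, 5, 0, 1, 2], ![4, 1, 0, 5, 2, 3], ![5, 0, 1, 2, 3, 4]],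
  ![![0, 1, 2, 3, 4, 5], ![3, 2, 4, 5, 0, 1], ![2, 3, 5, 4, 1, 0], ![1, 4, 3, 0, 5, 2], ![4, 5, 0, 1, 2, 3], ![5, 0, 1, 2, 3, 4]],
  ![![0, 2, 3, 4, 1, 5], ![1, 4, 2, 3, 5, 0], ![2, 3, 4, 5, 0, 1], ![3, 1, 5, 0, 4, 2], ![4, 5, 0, 1, 2, 3], ![5, 0, 1, 2, 3, 4]],
  ![![0, 2, 3, 4, 1, 5], ![1, 5, 2, 3, 4, 0], ![2, 3, 4, 0, 5, 1], ![3, 4, 5, 1, 0, 2], ![4, 1, 0, 5, 2, 3], ![5, 0, 1, 2, 3, 4]],
  ![![0, 2, 3, 1, 4, 5], ![1, 5, 4, 3, 0, 2], ![2, 3, 5, 4, 1, 0], ![3, 4, 2, 0, 5, 1], ![4, 1, 0, 5, 2, 3], ![5, 0, 1, 2, 3, 4]],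
  ![![0, 1, 2, 3, 4, 5], ![4, 2, 3, 1, 5, 0], ![2, 3, 4, 5, 0, 1], ![3, 4, 5, 0, 1, 2], ![1, 5, 0, 4, 2, 3], ![5, 0, 1, 2, 3, 4]],
  ![![0, 1, 2, 3, 4, 5], ![1, 5, 3, 4, 2, 0], ![2, 3, 4, 5, 0, 1], ![3, 4, 5, 0, 1, 2], ![4, 2, 0, 1, 5, 3], ![5, 0, 1, 2, 3, 4]],
  ![![0, 1, 2, 3, 4, 5], ![1, 2, 0, 4, 5, 3], ![2, 3, 4, 5, 0, 1], ![3, 4, 5, 0, 1, 2], ![4, 5, 3, 1, 2, 0], ![5, 0, 1, 2, 3, 4]],
  ![![0, 1, 2, 3, 4, 5], ![5, 2, 3, 4, 0, 1], ![2, 3, 4, 5, 1, 0], ![3, 4, 1, 0, 5, 2], ![4, 5, 0, 1, 2, 3], ![1, 0, 5, 2, 3, 4]],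
  ![![0, 2, 3, 4, 1, 5], ![1, 5, 2, 3, 4, 0], ![2, 3, 4, 5, 0, 1], ![3, 4, 1, 0, 5, 2], ![4, 0, 5, 1, 2, 3], ![5, 1, 0, 2, 3, 4]],
  ![![0, 2, 4, 3, 1, 5], ![1, 5, 3, 2, 4, 0], ![2, 3, 5, 4, 0, 1], ![3, 4, 1, 0, 5, 2], ![4, 1, 0, 5, 2, 3], ![5, 0, 2, 1, 3, 4]],
  ![![0, 1, 2, 3, 4, 5], ![1, 2, 5, 4, 3, 0], ![2, 3, 4, 5, 0, 1], ![3, 4, 1, 0, 5, 2], ![4, 5, 0, 1, 2, 3], ![5, 0, 3, 2, 1, 4]],
  ![![0, 1, 2, 3, 4, 5], ![1, 2, 3, 4, 5, 0], ![2, 3, 1, 5, 0, 4], ![3, 4, 5, 0, 1, 2], ![4, 5, 0, 1, 2, 3], ![5, 0, 4, 2, 3, 1]]]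

/-- The negation of the preceding statement: For every n ≥ 1, the largest size of a critical set of the cyclic latin square (i,j) ↦ i+j mod n is exactly n(n-1)/2. A critical set is a set of cells forcing a unique completion, where removing any one cell destroys uniqueness. -/
theorem result :
    ¬ (∀ n : ℕ, 1 ≤ n →
      IsGreatest
        {k : ℕ | ∃ S : Finset (Fin n × Fin n),
          (∀ M : Fin n → Fin n → Fin n,
              (∀ i, Function.Injective (M i)) →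
              (∀ j, Function.Injective (fun i => M i j)) →
              (∀ c ∈ S, M c.1 c.2 = c.1 + c.2) →
              M = fun i j => i + j) ∧
          (∀ c ∈ S, ∃ M : Fin n → Fin n → Fin n,
              (∀ i, Function.Injective (M i)) ∧
              (∀ j, Function.Injective (fun i => M i j)) ∧
              (∀ d ∈ S.erase c, M d.1 d.2 = d.1 + d.2) ∧
              M ≠ fun i j => i + j) ∧
          S.card = k}
        (n * (n - 1) / 2)) := by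
  intro h
  have h6 : 16 ≤ 6 * (6 - 1) / 2 := by
    refine (h 6 (by norm_num)).2 ⟨SL.toFinset, fun M h1 h2 h3 => ?_, fun c hc => ?_, by decide +kernel⟩
    · have h4 := (sound M h1 h2 rest (SL.map fun x => (x.1, x.2, x.1 + x.2)) (by decide +kernel) (by
        intro t ht
        obtain ⟨x, hx, rfl⟩ := List.mem_map.1 ht
        exact h3 x (List.mem_toFinset.2 hx))).2
      have h5 : ∀ i j : F, (i, j) ∈ SL ∨ (i, j) ∈ rest := by decide +kernel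
      funext i j
      rcases h5 i j with e | e
      exacts [h3 _ (List.mem_toFinset.2 e), h4 _ e]
    · have h4 : ∀ c ∈ SL, ∃ M ∈ alts, (∀ i j k, M i j = M i k → j = k) ∧
          (∀ j i k, M i j = M k j → i = k) ∧ (∀ d ∈ SL, d ≠ c → M d.1 d.2 = d.1 + d.2) ∧
          ∃ i j, M i j ≠ i + j := by decide +kernel
      obtain ⟨M, -, a1, a2, a3, i, j, a4⟩ := h4 c (List.mem_toFinset.1 hc)
      exact ⟨M, fun i => a1 i, fun j => a2 j, fun d hd => a3 d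
        (List.mem_toFinset.1 (Finset.mem_erase.1 hd).2) (Finset.mem_erase.1 hd).1,
        fun e => a4 (by rw [e])⟩
  omega

end Pool.Agent.S11998
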