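import Pool.Statements.S12030
import Pool.Agent.H27.CosetStab

set_option autoImplicit false
open Pool Pool.MP_e2957e_co

namespace Pool.Agent.S12030

/-- The negation of the preceding statement: There is an absolute C₁>0 such that any A⊂S_n of size c(n−1)! whose transposition-graph edge boundary is at most ∣A∣(n!−∣A∣)/(n−1)!+δn∣A∣ lies within symmetric difference C₁cδ(n−1)! of a union of c distinct 1-cosets {σ: σ(i)=j}. -/
theorem result :
    ¬ (∃ C₁ : ℝ, 0 < C₁ ∧
      ∀ (n : ℕ), 1 ≤ n →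
      ∀ (c : ℕ) (δ : ℝ), 0 ≤ δ →
      ∀ A : Finset (Equiv.Perm (Fin n)),
        A.card = c * Nat.factorial (n - 1) →
        ((((A ×ˢ (Finset.univ.filter (fun p : Fin n × Fin n => p.1 < p.2))).filter
            (fun x => x.1 * Equiv.swap x.2.1 x.2.2 ∉ A)).card : ℕ) : ℝ)
          ≤ (A.card : ℝ) * ((Nat.factorial n : ℝ) - (A.card : ℝ)) / (Nat.factorial (n - 1) : ℝ)
            + δ * (n : ℝ) * (A.card : ℝ) →
        ∃ P : Finset (Fin n × Fin n), P.card = c ∧
          ((symmDiff A (Finset.univ.filter (fun σ : Equiv.Perm (Fin n) => ∃ p ∈ P, σ p.1 = p.2))).card : ℝ)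
            ≤ C₁ * (c : ℝ) * δ * (Nat.factorial (n - 1) : ℝ)) := by
  rintro ⟨C, hC, H⟩
  obtain ⟨K, hK⟩ := exists_nat_gt (7 * C + 1)
  set m := K ^ 2 + 2 * K + 1 with hm
  have hm0 : (0 : ℝ) ≤ m := Nat.cast_nonneg m
  have hf : (0 : ℝ) < ((m + 1).factorial : ℝ) := by exact_mod_cast Nat.factorial_pos _
  have f2 : (((m + 2).factorial : ℕ) : ℝ) = (m + 2) * ((m + 1).factorial : ℝ) := by
    rw [Nat.factorial_succ (m + 1)]; push_cast; ring
  have f3 : (((m + 3).factorial : ℕ) : ℝ) = (m + 3) * ((m + 2) * ((m + 1).factorial : ℝ)) := by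
    rw [Nat.factorial_succ (m + 2)]; push_cast; rw [f2]; ring
  obtain ⟨P, hP, h⟩ := H (m + 3) (by omega) (m + 1) (7 / ((m + 3) * (m + 1))) (by positivity)
    (Pool.Agent.H27.CosetStab.A m) Pool.Agent.H27.CosetStab.card_A (by
      have hb := Pool.Agent.H27.CosetStab.boundary (m := m)
      refine le_trans (Nat.cast_le.mpr hb) ?_
      rw [Pool.Agent.H27.CosetStab.card_A]
      simp only [show m + 3 - 1 = m + 2 from rfl]
      push_cast
      rw [f3, f2]
      set N : ℝ := ((m + 1).factorial : ℝ)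
      have e1 : ((m : ℝ) + 1) * ((m + 2) * N) * ((m + 3) * ((m + 2) * N) - (m + 1) * ((m + 2) * N)) /
          ((m + 2) * N) = 2 * (m + 1) * ((m + 2) * N) := by
        field_simp
        ring
      have e2 : 7 / (((m : ℝ) + 3) * (m + 1)) * (m + 3) * ((m + 1) * ((m + 2) * N)) =
          7 * ((m + 2) * N) := by
        field_simp
      rw [e1, e2]
      nlinarith [mul_nonneg hm0 hf.le])
  have h2 := Pool.Agent.H27.CosetStab.far K (by omega) (by omega) P hP
  have h3 := (Nat.cast_le (α := ℝ)).mpr h2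
  rw [Nat.cast_mul, Nat.cast_add] at h3
  simp only [show m + 3 - 1 = m + 2 from rfl] at h
  push_cast at h
  rw [f2] at h
  set N : ℝ := ((m + 1).factorial : ℝ)
  have e3 : C * ((m : ℝ) + 1) * (7 / ((m + 3) * (m + 1))) * ((m + 2) * N) =
      7 * C * N * ((m + 2) / (m + 3)) := by
    field_simp
  have e4 : ((m : ℝ) + 2) / (m + 3) ≤ 1 := by
    rw [div_le_one (by positivity)]; linarith
  rw [e3] at h
  have e5 : 7 * C * N * (((m : ℝ) + 2) / (m + 3)) ≤ 7 * C * N :=
    mul_le_of_le_one_right (by positivity) e4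
  nlinarith

end Pool.Agent.S12030
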