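import Pool.Statements.S12088
import Pool.Agent.H24.VWC

set_option autoImplicit false
open Pool Pool.MP_e4c5f9_co

namespace Pool.Agent.S12088

open Pool.Agent.H24.VWC Pool.Agent.H24.IndepGF

lemma ex_max : ∃ s : Finset (W 222 136 4), (relG (Rel 222 136 4)).IsIndepSet (s : Set (W 222 136 4)) ∧
    (∀ v, v ∉ s → ¬ (relG (Rel 222 136 4)).IsIndepSet (insert v (s : Set (W 222 136 4)))) := by
  classical
  refine ⟨Finset.univ.filter (fun v => v.2 = true), indep_of_side _ _ true (by simp), ?_⟩
  rintro ⟨i, x⟩ hv h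
  cases x
  · have hadj : (relG (Rel 222 136 4)).Adj (i, false) (i, true) :=
      Or.inl ⟨rfl, rfl, Rel_refl _ _ _ i⟩
    exact h (Set.mem_insert _ _) (Set.mem_insert_of_mem _ (by simp)) hadj.ne hadj
  · simp at hv

/-- The negation of the preceding statement: For every finite graph with no isolated vertices whose maximal independent sets all have size n/2, the counts s_k of independent sets of size k satisfy s_{k-1}·s_{k+1} ≤ s_k² for all k ≥ 1. -/
theorem result :
    ¬ (∀ (V : Type) [Fintype V] (G : SimpleGraph V),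
      (∀ v : V, ∃ w : V, G.Adj v w) →
      (∀ s t : Finset V,
        (G.IsIndepSet (s : Set V) ∧ ∀ v : V, v ∉ s → ¬ G.IsIndepSet (insert v (s : Set V))) →
        (G.IsIndepSet (t : Set V) ∧ ∀ v : V, v ∉ t → ¬ G.IsIndepSet (insert v (t : Set V))) →
        s.card = t.card) →
      (∃ s : Finset V, G.IsIndepSet (s : Set V) ∧
        (∀ v : V, v ∉ s → ¬ G.IsIndepSet (insert v (s : Set V))) ∧
        2 * s.card = Fintype.card V) →
      ∀ k : ℕ, 1 ≤ k →
        {s : Finset V | G.IsIndepSet (s : Set V) ∧ s.card = k - 1}.ncard *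
          {s : Finset V | G.IsIndepSet (s : Set V) ∧ s.card = k + 1}.ncard ≤
          {s : Finset V | G.IsIndepSet (s : Set V) ∧ s.card = k}.ncard ^ 2) := by
  intro H
  have h := H (W 222 136 4) (relG (Rel 222 136 4)) (relG_noiso _ (Rel_refl _ _ _))
    (by
      intro s t hs ht
      rw [relG_card _ (Rel_refl _ _ _) (Rel_trans _ _ _) s hs.1 hs.2,
        relG_card _ (Rel_refl _ _ _) (Rel_trans _ _ _) t ht.1 ht.2])
    (by
      obtain ⟨s, h1, h2⟩ := ex_max
      refine ⟨s, h1, h2, ?_⟩
      rw [relG_card _ (Rel_refl _ _ _) (Rel_trans _ _ _) s h1 h2, card_W]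
      simp) 404 (by norm_num)
  have hv := valley
  change cnt (relG (Rel 222 136 4)) 403 * cnt (relG (Rel 222 136 4)) 405 ≤
    cnt (relG (Rel 222 136 4)) 404 ^ 2 at h
  have := Nat.mul_lt_mul'' hv.1 hv.2
  rw [sq] at h
  omega

end Pool.Agent.S12088
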