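import Pool.Statements.S12102
import Pool.Agent.H29.Dom3

set_option autoImplicit false
open Pool Pool.MP_e5f8e2_co

namespace Pool.Agent.S12102

open Pool.Agent.H29.Dom Finset

theorem ncard_eq (ι L : Type) [Fintype ι] [Fintype L] [DecidableEq ι] [DecidableEq L] (i : ℕ) :
    {S : Finset (V ι L) | S.card = i ∧ ∀ v, v ∈ S ∨ ∃ u ∈ S, (G ι L).Adj v u}.ncard = dd ι L i := by
  unfold dd
  rw [← Set.ncard_coe_finset]
  congr 1
  ext S
  simp only [Dm, Set.mem_ofPred_eq, coe_filter, mem_univ, true_and]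

theorem tail_t (lo hi x m : ℕ)
    (h : run 3515 (2 ^ 1000) (1851 ^ 5) ((1851 + 1850) ^ 5 - 1851 ^ 5) ((1851 + 1850) ^ 10)
      ((1851 + 1850) ^ 10 - 1850 ^ 10) 1 lo hi *
      (((1851 + 1850) ^ 5 - 1851 ^ 5) * 1010612) ^ 3515 * 1850 ^ x ≤
      m * 2 ^ 1175 * ((31 * 1850 ^ 5 * 1000000) ^ 3515 * 1851 ^ x)) :
    W (Fin 3515) (Fin 5) lo hi ((1851 : ℕ) / (1850 : ℕ)) /
      ((1851 : ℕ) / (1850 : ℕ)) ^ (5 * (3515 * 3515) + x) ≤
      m * (31 ^ 3515 * 1023 ^ (3515 * 3515) * ((2 ^ 1175 : ℕ) : ℝ) / ((2 ^ 1000 : ℕ) : ℝ)) :=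
  tail_bound 3515 (2 ^ 1000) 1851 1850 lo hi x _ 1010612 1000000 (2 ^ 1175) m
    (Nat.two_pow_pos _) (by decide) (by decide) (by decide) _ _ (by decide +kernel)
    (by decide +kernel) (by decide +kernel) (by decide +kernel) le_rfl (by decide +kernel) h

theorem tail_s (lo hi x m : ℕ)
    (h : run 3515 (2 ^ 1000) (1850 ^ 5) ((1850 + 1851) ^ 5 - 1850 ^ 5) ((1850 + 1851) ^ 10)
      ((1850 + 1851) ^ 10 - 1851 ^ 10) 1 lo hi *
      (((1850 + 1851) ^ 5 - 1850 ^ 5) * 992020) ^ 3515 * 1851 ^ x ≤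
      m * 2 ^ 1175 * ((31 * 1851 ^ 5 * 1000000) ^ 3515 * 1850 ^ x)) :
    W (Fin 3515) (Fin 5) lo hi ((1850 : ℕ) / (1851 : ℕ)) /
      ((1850 : ℕ) / (1851 : ℕ)) ^ (5 * (3515 * 3515) + x) ≤
      m * (31 ^ 3515 * 1023 ^ (3515 * 3515) * ((2 ^ 1175 : ℕ) : ℝ) / ((2 ^ 1000 : ℕ) : ℝ)) :=
  tail_bound 3515 (2 ^ 1000) 1850 1851 lo hi x _ 992020 1000000 (2 ^ 1175) m
    (Nat.two_pow_pos _) (by decide) (by decide) (by decide) _ _ (by decide +kernel)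
    (by decide +kernel) (by decide +kernel) (by decide +kernel) le_rfl (by decide +kernel) h

theorem combine (d : ℕ → ℕ) (P : ℕ) (c LA LB A1 A2 B1 B2 B3 : ℝ) (hc : 0 < c)
    (hLA : (812 : ℕ) * c ≤ LA) (hLB : (301 : ℕ) * c ≤ LB) (hA1 : A1 ≤ (8 : ℕ) * c)
    (hA2 : A2 ≤ (8 : ℕ) * c) (hB1 : B1 ≤ (3 : ℕ) * c) (hB2 : B2 ≤ (3 : ℕ) * c)
    (hB3 : B3 ≤ (3 : ℕ) * c)
    (hI : LA - A1 - A2 ≤ ∑ i ∈ Ico (P + 5000) (P + 39000), (d i : ℝ))
    (hK : LB - B1 - B2 ≤ ∑ i ∈ Ico (P + 52000) (P + 86000), (d i : ℝ))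
    (hJ : ∑ i ∈ Ico (P + 39000) (P + 52000), (d i : ℝ) ≤ A2 + B3) :
    ¬ ∃ k : ℕ, (∀ i j : ℕ, i ≤ j → j ≤ k → d i ≤ d j) ∧
      (∀ i j : ℕ, k ≤ i → i ≤ j → d j ≤ d i) := by
  refine not_unimodal d (P + 5000) (P + 39000) (P + 52000) (P + 86000) (by omega) ?_ ?_
  · rw [show P + 39000 - (P + 5000) = 34000 by omega, show P + 52000 - (P + 39000) = 13000 by omega]
    push_cast at *
    linarith
  · rw [show P + 86000 - (P + 52000) = 34000 by omega,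
      show P + 52000 - (P + 39000) = 13000 by omega]
    push_cast at *
    linarith

theorem main : ¬ ∃ k : ℕ, (∀ i j : ℕ, i ≤ j → j ≤ k →
      dd (Fin 3515) (Fin 5) i ≤ dd (Fin 3515) (Fin 5) j) ∧
    (∀ i j : ℕ, k ≤ i → i ≤ j → dd (Fin 3515) (Fin 5) j ≤ dd (Fin 3515) (Fin 5) i) := by
  have hs : (0 : ℝ) < (1850 : ℕ) / (1851 : ℕ) := by norm_num
  have hs1 : ((1850 : ℕ) / (1851 : ℕ) : ℝ) ≤ 1 := by norm_num
  have ht : (1 : ℝ) ≤ (1851 : ℕ) / (1850 : ℕ) := by norm_num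
  have hJ := cnt_upper (ι := Fin 3515) (L := Fin 5) 1758 (5 * (3515 * 3515) + 39000)
    (5 * (3515 * 3515) + 52000) _ _ hs hs1 ht
  rw [Fintype.card_fin] at hJ
  exact combine _ (5 * (3515 * 3515)) _ _ _ _ _ _ _ _
    (div_pos (mul_pos (mul_pos (pow_pos (by norm_num) _) (pow_pos (by norm_num) _))
      (Nat.cast_pos.2 (Nat.two_pow_pos _))) (Nat.cast_pos.2 (Nat.two_pow_pos _)))
    (total_bound 3515 (2 ^ 1000) 1758 (3515 + 1) (2 ^ 1175) 812 (Nat.two_pow_pos _)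
      (by decide +kernel))
    (total_bound 3515 (2 ^ 1000) 1 1758 (2 ^ 1175) 301 (Nat.two_pow_pos _) (by decide +kernel))
    (tail_s 1758 (3515 + 1) 5000 8 (by decide +kernel))
    (tail_t 1758 (3515 + 1) 39000 8 (by decide +kernel))
    (tail_s 1 1758 52000 3 (by decide +kernel))
    (tail_t 1 1758 86000 3 (by decide +kernel))
    (tail_s 0 1758 52000 3 (by decide +kernel))
    (cnt_lower 1758 (3515 + 1) _ _ (by decide) _ _ hs hs1 ht)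
    (cnt_lower 1 1758 _ _ (by decide) _ _ hs hs1 ht) hJ

/-- The negation of the preceding statement: For every finite simple graph, the numbers d_i of dominating vertex sets of size i form a unimodal sequence: for some k they are non-decreasing for i ≤ k and non-increasing for i ≥ k. -/
theorem result :
    ¬ (∀ (V : Type) [Fintype V] (G : SimpleGraph V),
      ∃ k : ℕ,
        (∀ i j : ℕ, i ≤ j → j ≤ k →
          {S : Finset V | S.card = i ∧ ∀ v : V, v ∈ S ∨ ∃ u ∈ S, G.Adj v u}.ncard ≤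
          {S : Finset V | S.card = j ∧ ∀ v : V, v ∈ S ∨ ∃ u ∈ S, G.Adj v u}.ncard) ∧
        (∀ i j : ℕ, k ≤ i → i ≤ j →
          {S : Finset V | S.card = j ∧ ∀ v : V, v ∈ S ∨ ∃ u ∈ S, G.Adj v u}.ncard ≤
          {S : Finset V | S.card = i ∧ ∀ v : V, v ∈ S ∨ ∃ u ∈ S, G.Adj v u}.ncard)) := by
  intro h
  have := h (V (Fin 3515) (Fin 5)) (G (Fin 3515) (Fin 5))
  simp only [ncard_eq] at this
  exact main this

end Pool.Agent.S12102
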