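import Pool.Statements.S12106
-- import your own Pool.Agent.* helpers here

set_option autoImplicit false
open Pool Pool.MP_e67bad_co

namespace Pool.Agent.S12106

/-- The negation of the preceding statement: For k≥2 and n≥1, over nonzero real a where no nonzero integer vector with entries in [-k,k] satisfies a·x=0, the max number of integer x with entries in [-(k+1),k+1] and a·x=0 is ((1+√2)^n+(1-√2)^n)/2. -/
theorem result :
    ¬ (∀ k : ℕ, 2 ≤ k → ∀ n : ℕ, 1 ≤ n →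
      (∃ a : Fin n → ℝ, a ≠ 0 ∧
          (∀ x : Fin n → ℤ, (∀ i, |x i| ≤ (k : ℤ)) →
              ∑ i, a i * (x i : ℝ) = 0 → x = 0) ∧
          (((Fintype.piFinset fun _ : Fin n => Finset.Icc (-((k : ℤ) + 1)) ((k : ℤ) + 1)).filter
              (fun x => ∑ i, a i * (x i : ℝ) = 0)).card : ℝ)
            = ((1 + Real.sqrt 2) ^ n + (1 - Real.sqrt 2) ^ n) / 2) ∧
      (∀ a : Fin n → ℝ, a ≠ 0 →
          (∀ x : Fin n → ℤ, (∀ i, |x i| ≤ (k : ℤ)) →
              ∑ i, a i * (x i : ℝ) = 0 → x = 0) →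
          (((Fintype.piFinset fun _ : Fin n => Finset.Icc (-((k : ℤ) + 1)) ((k : ℤ) + 1)).filter
              (fun x => ∑ i, a i * (x i : ℝ) = 0)).card : ℝ)
            ≤ ((1 + Real.sqrt 2) ^ n + (1 - Real.sqrt 2) ^ n) / 2)) := by
  intro h
  have e : ∀ x : Fin 4 → ℤ, ∑ i, (![2, 15, 21, 24] : Fin 4 → ℝ) i * (x i : ℝ) = 0 ↔
      2 * x 0 + 15 * x 1 + 21 * x 2 + 24 * x 3 = 0 := by
    intro x
    simp only [Fin.sum_univ_four, Matrix.cons_val_zero, Matrix.cons_val_one, Matrix.cons_val]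
    norm_cast
  have h1 := (h 2 le_rfl 4 (by norm_num)).2 ![2, 15, 21, 24]
    (fun h => by simpa using congrFun h 0) (by
      intro x hx h0
      rw [e] at h0
      have a0 := abs_le.1 (hx 0)
      have a1 := abs_le.1 (hx 1)
      have a2 := abs_le.1 (hx 2)
      have a3 := abs_le.1 (hx 3)
      push_cast at a0 a1 a2 a3
      have key : ∀ p q r s : ℤ, -2 ≤ p ∧ p ≤ 2 → -2 ≤ q ∧ q ≤ 2 → -2 ≤ r ∧ r ≤ 2 → -2 ≤ s ∧ s ≤ 2 →
          2 * p + 15 * q + 21 * r + 24 * s = 0 → p = 0 ∧ q = 0 ∧ r = 0 ∧ s = 0 := by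
        rintro p q r s ⟨_, _⟩ ⟨_, _⟩ ⟨_, _⟩ ⟨_, _⟩ h
        interval_cases r <;> interval_cases s <;> omega
      obtain ⟨b0, b1, b2, b3⟩ := key _ _ _ _ a0 a1 a2 a3 h0
      funext i
      fin_cases i
      exacts [b0, b1, b2, b3])
  rw [Finset.filter_congr (fun x _ => e x)] at h1
  have h2 : ((Fintype.piFinset fun _ : Fin 4 => Finset.Icc (-(((2 : ℕ) : ℤ) + 1)) (((2 : ℕ) : ℤ) + 1)).filter
      (fun x => 2 * x 0 + 15 * x 1 + 21 * x 2 + 24 * x 3 = 0)).card = 19 := by decide +kernel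
  have h3 : ((1 + Real.sqrt 2) ^ 4 + (1 - Real.sqrt 2) ^ 4) / 2 = 17 := by
    have := Real.sq_sqrt (show (0 : ℝ) ≤ 2 by norm_num)
    have h4 : Real.sqrt 2 ^ 4 = 4 := by rw [show 4 = 2 * 2 by rfl, pow_mul, this]; norm_num
    linear_combination 6 * this + h4
  rw [h2, h3] at h1
  norm_num at h1

end Pool.Agent.S12106
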