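import Pool.Statements.S12180
import Pool.Agent.H28.BinRank

set_option autoImplicit false
open Pool Pool.MP_e962e1_co

namespace Pool.Agent.S12180

open Pool.Agent.H28.BinRank Submodule Module

/-- twenty-one points of the binary projective space of rank six -/
def pts : List ℕ := [1, 2, 3, 8, 12, 13, 20, 22, 23, 25, 26, 38, 39, 42, 43, 47, 48, 49, 52, 60, 61]

def code (v : Fin 6 → ZMod 2) : ℕ :=
  (v 0).val + 2 * (v 1).val + 4 * (v 2).val + 8 * (v 3).val + 16 * (v 4).val + 32 * (v 5).val

theorem vec_code : ∀ v : Fin 6 → ZMod 2, vec 6 (code v) = v ∧ code v < 2 ^ 6 := by decide +kernel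

theorem hcf : cf 21 pts = [1, -21, 175, -735, 1624, -1764, 720] := by decide +kernel

theorem hcode : (pts.map (vec 6)).map code = pts := by decide +kernel

theorem hnodup : (pts.map (vec 6)).Nodup := by decide +kernel

/-- the point set -/
def S : Finset (Fin 6 → ZMod 2) := (pts.map (vec 6)).toFinset

theorem h0 : (0 : Fin 6 → ZMod 2) ∉ S := by decide +kernel

theorem hbasis : ∀ i : Fin 6, ∃ a ∈ pts, ∃ b ∈ pts, ∃ c ∈ pts,
    (Pi.single i 1 : Fin 6 → ZMod 2) = vec 6 a + vec 6 b + vec 6 c := by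
  decide +kernel

def dot (a b : ℕ) : ZMod 2 := ∑ i, vec 6 a i * vec 6 b i

theorem hnomod : ∀ l : Fin 64, l.1 = 0 ∨ ∃ a ∈ pts, ∃ b ∈ pts, a ≠ b ∧ dot l a = 1 ∧ dot l b = 1 ∧
    a ^^^ b ∉ pts := by decide +kernel

theorem mem_S {a : ℕ} (ha : a ∈ pts) : vec 6 a ∈ S :=
  List.mem_toFinset.2 (List.mem_map_of_mem ha)

theorem hinj : ∀ a ∈ pts, ∀ b ∈ pts, ∀ c ∈ pts,
    (vec 6 a = vec 6 b → a = b) ∧ (vec 6 (a ^^^ b) = vec 6 c → a ^^^ b = c) := by
  have key : ∀ a, a < 2 ^ 6 → code (vec 6 a) = a := by decide +kernel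
  have hlt : ∀ a ∈ pts, a < 2 ^ 6 := by decide +kernel
  intro a ha b hb c hc
  constructor
  · intro h
    rw [← key a (hlt a ha), h, key b (hlt b hb)]
  · intro h
    rw [← key _ (Nat.xor_lt_two_pow (hlt a ha) (hlt b hb)), h, key c (hlt c hc)]

theorem span_S : span (ZMod 2) (S : Set (Fin 6 → ZMod 2)) = ⊤ := by
  rw [eq_top_iff, ← (Pi.basisFun (ZMod 2) (Fin 6)).span_eq, span_le]
  rintro _ ⟨i, rfl⟩
  obtain ⟨a, ha, b, hb, c, hc, h⟩ := hbasis i
  rw [Pi.basisFun_apply, h]
  exact add_mem (add_mem (subset_span (mem_S ha)) (subset_span (mem_S hb))) (subset_span (mem_S hc))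

/-- The negation of the preceding statement: For any finite set S of nonzero vectors over GF(2), if its matroid's characteristic polynomial equals (x−1)(x−2)⋯(x−n), then there is a maximal chain of flats of ranks 0,1,…,n, each modular, ending at span S; that is, the matroid is supersolvable. -/
theorem result :
    ¬ (∀ (m : ℕ) (S : Finset (Fin m → ZMod 2)), (0 : Fin m → ZMod 2) ∉ S →
    ∀ n : ℕ,
      (∑ X ∈ S.powerset, (-1 : Polynomial ℤ) ^ X.card *
          Polynomial.X ^ (Module.finrank (ZMod 2)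
              ↥(Submodule.span (ZMod 2) (S : Set (Fin m → ZMod 2))) -
            Module.finrank (ZMod 2)
              ↥(Submodule.span (ZMod 2) (X : Set (Fin m → ZMod 2)))))
        = ∏ i ∈ Finset.range n, (Polynomial.X - Polynomial.C ((i : ℤ) + 1)) →
      ∃ W : ℕ → Submodule (ZMod 2) (Fin m → ZMod 2),
        (∀ i, i ≤ n → Module.finrank (ZMod 2) ↥(W i) = i) ∧
        (∀ i, i < n → W i ≤ W (i + 1)) ∧
        W n = Submodule.span (ZMod 2) (S : Set (Fin m → ZMod 2)) ∧
        (∀ i, i ≤ n →
          Submodule.span (ZMod 2)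
            ((S : Set (Fin m → ZMod 2)) ∩ (W i : Set (Fin m → ZMod 2))) = W i) ∧
        (∀ i, i ≤ n → ∀ U : Submodule (ZMod 2) (Fin m → ZMod 2),
          Submodule.span (ZMod 2)
            ((S : Set (Fin m → ZMod 2)) ∩ (U : Set (Fin m → ZMod 2))) = U →
          Module.finrank (ZMod 2) ↥(W i) + Module.finrank (ZMod 2) ↥U =
            Module.finrank (ZMod 2) ↥(W i ⊔ U) +
            Module.finrank (ZMod 2)
              ↥(Submodule.span (ZMod 2)
                ((S : Set (Fin m → ZMod 2)) ∩ (W i : Set (Fin m → ZMod 2)) ∩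
                  (U : Set (Fin m → ZMod 2)))))) := by
  intro h
  obtain ⟨W, h1, -, -, -, h5⟩ := h 6 S h0 6 (by
    have := sum_eq_cf (m := 6) (pts.map (vec 6)) hnodup 21 code
      (fun k => (Polynomial.X : Polynomial ℤ) ^ (6 - k)) (by decide) (fun v => (vec_code v).2)
    have hid : (fun v => vec 6 (code v)) = id := funext fun v => (vec_code v).1
    rw [hid, Set.image_id_eq] at this
    rw [span_S, finrank_top, Module.finrank_fin_fun]
    refine this.trans ?_
    rw [hcode, hcf]
    simp only [ev, Finset.prod_range_succ, Finset.prod_range_zero, eq_intCast]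
    push_cast
    ring)
  have h2 := h1 5 (by norm_num)
  obtain ⟨v, hv⟩ : ∃ v, v ∉ W 5 := by
    by_contra hcon
    push Not at hcon
    have : W 5 = ⊤ := eq_top_iff.2 fun v _ => hcon v
    rw [this, finrank_top, Module.finrank_fin_fun] at h2
    omega
  obtain ⟨f, hfv, hle⟩ := Submodule.exists_le_ker_of_notMem hv
  let L : Fin 6 → ZMod 2 := fun i => f (Pi.single i 1)
  have hf : ∀ x, f x = ∑ i, L i * x i := by
    intro x
    conv_lhs => rw [pi_eq_sum_univ' x, map_sum]
    exact Finset.sum_congr rfl fun i _ => by rw [map_smul, smul_eq_mul, mul_comm]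
  have hf' : ∀ a, f (vec 6 a) = dot (code L) a := by
    intro a
    rw [hf, dot, (vec_code L).1]
  rcases hnomod ⟨code L, (vec_code L).2⟩ with h6 | ⟨a, ha, b, hb, hab, h7, h8, h9⟩
  · have : L = 0 := by rw [← (vec_code L).1, show code L = 0 from h6, vec_zero]
    exact hfv (by rw [hf, this]; simp)
  · rw [← hf'] at h7 h8
    have ha0 : vec 6 a ≠ 0 := fun hh => h0 (hh ▸ mem_S ha)
    have hb0 : vec 6 b ≠ 0 := fun hh => h0 (hh ▸ mem_S hb)
    have hcase : ∀ c : ZMod 2, c = 0 ∨ c = 1 := by decide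
    have hU := h5 5 (by norm_num) (span (ZMod 2) {vec 6 a, vec 6 b}) (by
      apply le_antisymm
      · exact span_le.2 Set.inter_subset_right
      · refine span_mono ?_
        rintro x (rfl | rfl)
        · exact ⟨mem_S ha, subset_span (by simp)⟩
        · exact ⟨mem_S hb, subset_span (by simp)⟩)
    have hemp : (S : Set (Fin 6 → ZMod 2)) ∩ (W 5 : Set (Fin 6 → ZMod 2)) ∩
        (span (ZMod 2) {vec 6 a, vec 6 b} : Submodule (ZMod 2) (Fin 6 → ZMod 2)) = ∅ := by
      rw [Set.eq_empty_iff_forall_notMem]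
      rintro x ⟨⟨hxS, hxW⟩, hx⟩
      obtain ⟨s, t, rfl⟩ := mem_span_pair.1 hx
      have h10 : f (s • vec 6 a + t • vec 6 b) = 0 := hle hxW
      rw [map_add, map_smul, map_smul, h7, h8] at h10
      rcases hcase s with rfl | rfl <;> rcases hcase t with rfl | rfl
      · exact h0 (by simpa using hxS)
      · simp at h10
      · simp at h10
      · rw [one_smul, one_smul, ← vec_xor] at hxS
        obtain ⟨c, hc, hc'⟩ := List.mem_map.1 (List.mem_toFinset.1 hxS)
        exact h9 ((hinj a ha b hb c hc).2 hc'.symm ▸ hc)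
    have hrk : finrank (ZMod 2) (span (ZMod 2) {vec 6 a, vec 6 b}) = 2 := by
      have hli : LinearIndependent (ZMod 2) ![vec 6 a, vec 6 b] := by
        rw [LinearIndependent.pair_iff' ha0]
        intro c hc
        rcases hcase c with rfl | rfl
        · exact hb0 (by simpa using hc.symm)
        · exact hab ((hinj a ha b hb b hb).1 (by simpa using hc))
      have := finrank_span_eq_card hli
      rwa [Matrix.range_cons, Matrix.range_cons, Matrix.range_empty, Set.union_empty,
        Set.singleton_union] at this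
    rw [hemp, span_empty, finrank_bot, h2, hrk] at hU
    have := Submodule.finrank_le (W 5 ⊔ span (ZMod 2) {vec 6 a, vec 6 b})
    rw [Module.finrank_fin_fun] at this
    omega

end Pool.Agent.S12180
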