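import Pool.Statements.S12216
import Pool.Agent.H33.Blowup

set_option autoImplicit false
open Classical
open Pool Pool.MP_eaf560_co

namespace Pool.Agent.S12216
open Pool.Agent.H33.Blowup Polynomial

/-- Five cliques of sizes 1, 6, 5, 6, 1 in a row, consecutive ones completely joined. -/
def cl : Fin 19 → Fin 5 := ![0, 1, 1, 1, 1, 1, 1, 2, 2, 2, 2, 2, 3, 3, 3, 3, 3, 3, 4]

def near (a b : Fin 5) : Bool := a.val ≤ b.val + 1 && b.val ≤ a.val + 1
def near' (a b : Fin 5) : Bool := near a b || (a.val == 0 && b.val == 4) || (a.val == 4 && b.val == 0)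

def G : SimpleGraph (Fin 19) where
  Adj i j := i ≠ j ∧ near (cl i) (cl j) = true
  symm := ⟨fun i j h => ⟨h.1.symm, by
    have : ∀ a b, near a b = true → near b a = true := by decide
    exact this _ _ h.2⟩⟩
  loopless := ⟨fun _ h => h.1 rfl⟩

lemma near_refl : ∀ a, near a a = true := by decide
lemma near'_refl : ∀ a, near' a a = true := by decide
lemma near'_iff : ∀ i j : Fin 19, i ≠ j → (near' (cl i) (cl j) = true ↔
    near (cl i) (cl j) = true ∨ (i = 0 ∧ j = 18 ∨ i = 18 ∧ j = 0)) := by decide +kernel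

lemma size : ∀ b, (Finset.univ.filter (fun j => cl j = b)).card = ![1, 6, 5, 6, 1] b := by
  decide +kernel

lemma evalG (x : ℝ) : (G.adjMatrix ℝ).charpoly.eval x =
    (x + 1) ^ 14 * ((x - 6) * (x + 1) * (x + 4) * (x ^ 2 - 13 * x + 6)) := by
  rw [eval_blowup (by norm_num) cl (fun a b => if near a b = true then 1 else 0)
    !![1, 6, 0, 0, 0; 1, 6, 5, 0, 0; 0, 6, 5, 6, 0; 0, 0, 5, 6, 1; 0, 0, 0, 6, 1] _ 1]
  · congr 1
    simp [Matrix.det_succ_row_zero, Fin.sum_univ_succ, Matrix.diagonal_apply, Fin.succAbove]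
    ring
  · intro i j
    by_cases h : i = j
    · subst h
      simp [near_refl]
    · rw [SimpleGraph.adjMatrix_apply]
      simp [G, h]
  · intro a b
    rw [size]
    fin_cases a <;> fin_cases b <;> simp [near]

lemma evalG' (x : ℝ) : ((G ⊔ SimpleGraph.edge 0 18).adjMatrix ℝ).charpoly.eval x =
    (x + 1) ^ 14 * ((x ^ 2 - 4 * x - 11) * (x ^ 3 - 10 * x ^ 2 - 37 * x + 64)) := by
  rw [eval_blowup (by norm_num) cl (fun a b => if near' a b = true then 1 else 0)
    !![1, 6, 0, 0, 1; 1, 6, 5, 0, 0; 0, 6, 5, 6, 0; 0, 0, 5, 6, 1; 1, 0, 0, 6, 1] _ 1]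
  · congr 1
    simp [Matrix.det_succ_row_zero, Fin.sum_univ_succ, Matrix.diagonal_apply, Fin.succAbove]
    ring
  · intro i j
    by_cases h : i = j
    · subst h
      simp [near'_refl]
    · rw [SimpleGraph.adjMatrix_apply]
      simp only [SimpleGraph.sup_adj, SimpleGraph.edge_adj]
      simp [G, h, near'_iff i j h]
  · intro a b
    rw [size]
    fin_cases a <;> fin_cases b <;> simp [near, near']

lemma root : ∃ r : ℝ, -3.87 ≤ r ∧ r ≤ -3.86 ∧ r ^ 3 - 10 * r ^ 2 - 37 * r + 64 = 0 := by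
  have hc : ContinuousOn (fun r : ℝ => r ^ 3 - 10 * r ^ 2 - 37 * r + 64)
      (Set.Icc (-3.87) (-3.86)) := by fun_prop
  obtain ⟨r, ⟨h1, h2⟩, h3⟩ := intermediate_value_Icc (by norm_num) hc
    (show (0 : ℝ) ∈ _ by constructor <;> norm_num)
  exact ⟨r, h1, h2, h3⟩

lemma quad (s c : ℝ) (hs : 0 < s) (hc : 0 < c) (hD : 0 ≤ s ^ 2 - 4 * c) :
    ∃ a b : ℝ, 0 < a ∧ 0 < b ∧ a + b = s ∧ a * b = c := by
  have h1 := Real.sq_sqrt hD
  have h2 := Real.sqrt_nonneg (s ^ 2 - 4 * c)
  refine ⟨(s + √(s ^ 2 - 4 * c)) / 2, (s - √(s ^ 2 - 4 * c)) / 2, by linarith, ?_, by ring,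
    by linarith⟩
  have : √(s ^ 2 - 4 * c) < s := by
    rw [Real.sqrt_lt' hs]
    linarith
  linarith

/-- The negation of the preceding statement: For every real p ≥ 3, every finite simple graph G and distinct non-adjacent vertices u, v, the sum of p-th powers of positive adjacency eigenvalues of G plus edge uv is at least that of G. -/
theorem result :
    ¬ (∀ p : ℝ, 3 ≤ p → ∀ (n : ℕ) (G : SimpleGraph (Fin n)) (u v : Fin n), u ≠ v → ¬ G.Adj u v →
      ((((G ⊔ SimpleGraph.edge u v).adjMatrix ℝ).charpoly.roots.filter (fun x => 0 < x)).map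
          (fun x => x ^ p)).sum ≥
        (((G.adjMatrix ℝ).charpoly.roots.filter (fun x => 0 < x)).map (fun x => x ^ p)).sum) := by
  intro h
  have h0 := h 3 le_rfl 19 G 0 18 (by decide) (fun h => absurd h.2 (by decide))
  obtain ⟨a, b, ha, hb, hab, hab'⟩ := quad 13 6 (by norm_num) (by norm_num) (by norm_num)
  obtain ⟨r, r1, r2, r3⟩ := root
  obtain ⟨c, d, hc, hd, hcd, hcd'⟩ := quad (10 - r) (r ^ 2 - 10 * r - 37) (by linarith)
    (by nlinarith) (by nlinarith)
  have s1 : √15 ^ 2 = 15 := Real.sq_sqrt (by norm_num)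
  have s2 : √15 ≤ 3.873 := Real.sqrt_le_iff.2 ⟨by norm_num, by norm_num⟩
  have s3 : 3 ≤ √15 := Real.le_sqrt_of_sq_le (by norm_num)
  have e1 : (G.adjMatrix ℝ).charpoly.roots =
      Multiset.replicate 14 (-1) + {6, -1, -4, a, b} := by
    apply roots_eq
    intro x
    rw [evalG]
    simp only [Multiset.map_add, Multiset.prod_add, Multiset.map_replicate,
      Multiset.prod_replicate, Multiset.insert_eq_cons, Multiset.map_cons, Multiset.prod_cons,
      Multiset.map_singleton, Multiset.prod_singleton]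
    have : x ^ 2 - 13 * x + 6 = (x - a) * (x - b) := by linear_combination x * hab - hab'
    rw [this]
    ring
  have e2 : ((G ⊔ SimpleGraph.edge 0 18).adjMatrix ℝ).charpoly.roots =
      Multiset.replicate 14 (-1) + {2 + √15, 2 - √15, r, c, d} := by
    apply roots_eq
    intro x
    rw [evalG']
    simp only [Multiset.map_add, Multiset.prod_add, Multiset.map_replicate,
      Multiset.prod_replicate, Multiset.insert_eq_cons, Multiset.map_cons, Multiset.prod_cons,
      Multiset.map_singleton, Multiset.prod_singleton]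
    have k1 : x ^ 2 - 4 * x - 11 = (x - (2 + √15)) * (x - (2 - √15)) := by
      linear_combination s1
    have k2 : x ^ 3 - 10 * x ^ 2 - 37 * x + 64 = (x - r) * ((x - c) * (x - d)) := by
      linear_combination r3 + (x - r) * x * hcd - (x - r) * hcd'
    rw [k1, k2]
    ring
  have z : Multiset.filter (fun x : ℝ => 0 < x) (Multiset.replicate 14 (-1)) = 0 := by
    rw [Multiset.filter_eq_nil]
    intro x hx
    rw [Multiset.eq_of_mem_replicate hx]
    norm_num
  have n1 : ¬ (0 : ℝ) < 2 - √15 := by linarith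
  have n2 : ¬ (0 : ℝ) < r := by linarith
  have p1 : (0 : ℝ) < 2 + √15 := by linarith
  rw [e1, e2, Multiset.filter_add, Multiset.filter_add, z] at h0
  simp only [Multiset.insert_eq_cons, zero_add] at h0
  rw [Multiset.filter_cons_of_pos _ p1, Multiset.filter_cons_of_neg _ n1,
    Multiset.filter_cons_of_neg _ n2, Multiset.filter_cons_of_pos _ hc,
    Multiset.filter_cons_of_pos _ (show (0 : ℝ) < 6 by norm_num),
    Multiset.filter_cons_of_neg _ (show ¬ (0 : ℝ) < -1 by norm_num),
    Multiset.filter_cons_of_neg _ (show ¬ (0 : ℝ) < -4 by norm_num),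
    Multiset.filter_cons_of_pos _ ha, Multiset.filter_singleton, Multiset.filter_singleton,
    if_pos hd, if_pos hb] at h0
  simp only [Multiset.map_cons, Multiset.sum_cons, Multiset.map_singleton,
    Multiset.sum_singleton, Real.rpow_ofNat] at h0
  have q1 : a ^ 3 + b ^ 3 = 1963 := by
    have : a ^ 3 + b ^ 3 = (a + b) ^ 3 - 3 * (a * b) * (a + b) := by ring
    rw [this, hab, hab']
    norm_num
  have q2 : c ^ 3 + d ^ 3 = 1918 - r ^ 3 := by
    have : c ^ 3 + d ^ 3 = (c + d) ^ 3 - 3 * (c * d) * (c + d) := by ring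
    rw [this, hcd, hcd']
    linear_combination 3 * r3
  have q3 : (2 + √15) ^ 3 = 98 + 27 * √15 := by linear_combination (6 + √15) * s1
  have q4 : -r ^ 3 ≤ 58 := by nlinarith
  linarith

end Pool.Agent.S12216
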