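import Pool.Statements.S12226
import Pool.Agent.H32.TriCone

set_option autoImplicit false
open Classical
open Pool Pool.MP_eb5675_co

namespace Pool.Agent.S12226

/-- The negation of the preceding statement: For every finite graph G and real edge vector x: x is a nonnegative combination of triangle edge-indicator vectors iff the sum of v_H(e)·x(e) is at least 0 for every triangle-free subgraph H, with v_H equal to -1 on H-edges, 2 inside V', 1/2 on edges with exactly one end in V', 0 otherwise. -/
theorem result :
    ¬ (∀ (V : Type) [Fintype V] (G : SimpleGraph V) (x : Sym2 V → ℝ),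
      (∃ c : Finset V → ℝ, (∀ t, 0 ≤ c t) ∧
          ∀ e ∈ G.edgeFinset,
            x e = ∑ t ∈ G.cliqueFinset 3, (if (∀ v ∈ e, v ∈ t) then c t else 0)) ↔
      (∀ (V' : Finset V) (H : SimpleGraph V), H ≤ G →
          (∀ u v, H.Adj u v → u ∈ V' ∧ v ∈ V') → H.CliqueFree 3 →
          0 ≤ ∑ e ∈ G.edgeFinset,
            (if e ∈ H.edgeSet then (-1 : ℝ)
              else if (∀ v ∈ e, v ∈ V') then 2
              else if (∃ v ∈ e, v ∈ V') then 1 / 2
              else 0) * x e)) := by
  intro h
  obtain ⟨c, hc, h2⟩ := (h (Fin 6) ⊤ Pool.Agent.H32.TriCone.x).2 (fun V' H _ h1 h2 => by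
    convert Pool.Agent.H32.TriCone.valid V' H h1 h2)
  refine Pool.Agent.H32.TriCone.notcone _ (fun t ht => ?_) c hc (fun e he => by
    convert h2 e (by simpa only [SimpleGraph.mem_edgeFinset] using he))
  rw [← Finset.mem_coe, SimpleGraph.coe_cliqueFinset] at ht
  exact SimpleGraph.IsNClique.card_eq ht

end Pool.Agent.S12226
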