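import Pool.Statements.S12244
import Pool.Agent.H6.EPT2

set_option autoImplicit false
open Pool Pool.MP_ebe746_co

namespace Pool.Agent.S12244

/-- The negation of the preceding statement: For degree bounds h,s at least 2 (or infinite) and 2 ≤ p ≤ p', any finite graph representable by subtrees of a host tree of max degree ≤ h, subtrees of max degree ≤ s, adjacency iff ≥ p shared vertices, is also representable with p'. -/
theorem result :
    ¬ (∀ (h s : ℕ∞), 2 ≤ h → 2 ≤ s → ∀ (p p' : ℕ), 2 ≤ p → p ≤ p' →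
    ∀ (n : ℕ) (G : SimpleGraph (Fin n)),
      (∃ (m : ℕ) (T : SimpleGraph (Fin m)) (S : Fin n → Set (Fin m)),
        T.IsTree ∧
        (∀ w, ((T.neighborSet w).ncard : ℕ∞) ≤ h) ∧
        (∀ v, (S v).Nonempty ∧ (T.induce (S v)).Connected) ∧
        (∀ v, ∀ w ∈ S v, ((T.neighborSet w ∩ S v).ncard : ℕ∞) ≤ s) ∧
        (∀ u v, u ≠ v → (G.Adj u v ↔ p ≤ (S u ∩ S v).ncard))) →
      (∃ (m : ℕ) (T : SimpleGraph (Fin m)) (S : Fin n → Set (Fin m)),
        T.IsTree ∧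
        (∀ w, ((T.neighborSet w).ncard : ℕ∞) ≤ h) ∧
        (∀ v, (S v).Nonempty ∧ (T.induce (S v)).Connected) ∧
        (∀ v, ∀ w ∈ S v, ((T.neighborSet w ∩ S v).ncard : ℕ∞) ≤ s) ∧
        (∀ u v, u ≠ v → (G.Adj u v ↔ p' ≤ (S u ∩ S v).ncard)))) := by
  intro H
  open Pool.Agent.H6.EPT Pool.Agent.H6.TreeMet in
  obtain ⟨m, T, S, hT, -, hc, hd, hG⟩ := H ⊤ 2 le_top le_rfl 4 5 (by norm_num) (by norm_num) 160 G0
    ⟨88, T0, S0, T0_tree, fun _ => le_top,
      fun v => ⟨by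
        obtain ⟨a, l, e⟩ := List.exists_cons_of_ne_nil (pth_ok v).2.2.1
        have ha : a ∈ pth v := by rw [e]; exact List.mem_cons_self
        exact ⟨⟨a, (pth_ok v).2.1 a ha⟩, ha⟩,
        conn_list _ (pth_ok v).2.1 (pth_ok v).2.2.1 (pth_ok v).2.2.2.1⟩,
      fun v w hw => by exact_mod_cast deg_ok v w hw,
      fun u v huv => ⟨fun h => h.2, fun h => ⟨huv, h⟩⟩⟩
  open Pool.Agent.H6.EPT Pool.Agent.H6.TreeMet in
  have hL : ∀ v, Line T.dist (S v) := fun v =>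
    line_of hT (hc v).2 (fun w hw => by exact_mod_cast hd v w hw)
  open Pool.Agent.H6.EPT Pool.Agent.H6.TreeMet in
  refine no_rep (tm_of_tree hT) S hL (fun u v huv => ?_)
  open Pool.Agent.H6.EPT Pool.Agent.H6.TreeMet in
  rw [← ov_iff (tm_of_tree hT) (hL u) (hL v), ← hG u v huv, ← inter_card]
  exact ⟨fun h => ⟨huv, h⟩, fun h => h.2⟩

end Pool.Agent.S12244
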