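import Pool.Statements.S12266
import Pool.Agent.H24.IR

set_option autoImplicit false
open Pool Pool.MP_ed2cb0_co

namespace Pool.Agent.S12266

open Pool.Agent.H24.IR

def mask : Fin 9 → ℕ := ![96, 272, 136, 320, 160, 384, 384, 256, 0]

/-- edges: 0-5 0-6 1-4 1-8 2-3 2-7 3-6 3-8 4-5 4-7 5-7 5-8 6-7 6-8 7-8 -/
def G : SimpleGraph (Fin 9) := ofB fun a b => (mask a).testBit b.val

instance : DecidableRel G.Adj := by unfold G; infer_instance

def X : Fin 11 → Finset (Fin 9) := ![{0, 1, 3, 6}, {0, 1, 3, 7}, {0, 1, 3, 8}, {0, 2, 4, 5}, {0, 2, 4, 7}, {0, 2, 4, 8}, {1, 2, 5, 6}, {1, 2, 5, 7}, {1, 2, 6, 8}, {1, 3, 6, 8}, {2, 4, 5, 7}]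

theorem X_inj : Function.Injective X := by decide +kernel

theorem X_irr : ∀ i, Irredundant G (X i) ∧ (X i).card = 4 := by decide +kernel

theorem X_all : ∀ S, Irredundant G S → S.card ≤ 4 ∧ (S.card = 4 → ∃ i, S = X i) :=
  all_nine _ (by decide +kernel)

def hmask : Fin 11 → ℕ := ![6, 5, 515, 48, 1064, 24, 384, 1088, 576, 260, 144]

def H : SimpleGraph (Fin 11) := ofB fun a b => (hmask a).testBit b.val

instance : DecidableRel H.Adj := by unfold H; infer_instance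

theorem X_adj : ∀ i j : Fin 11, (X i ≠ X j ∧
    ((∃ u v : Fin 9, X i \ X j = {u} ∧ X j \ X i = {v} ∧ G.Adj u v) ∨
     (∃ u v : Fin 9, X j \ X i = {u} ∧ X i \ X j = {v} ∧ G.Adj u v))) ↔ H.Adj i j := by
  decide +kernel

theorem H_conn : H.Connected := by
  have h : ∀ a b : Fin 11, H.Adj a b → H.Reachable a b := fun a b h => h.reachable
  have r1 := h 0 1 (by decide +kernel)
  have r2 := h 0 2 (by decide +kernel)
  have r9 := r2.trans (h 2 9 (by decide +kernel))
  have r8 := r9.trans (h 9 8 (by decide +kernel))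
  have r6 := r8.trans (h 8 6 (by decide +kernel))
  have r7 := r6.trans (h 6 7 (by decide +kernel))
  have r10 := r7.trans (h 7 10 (by decide +kernel))
  have r4 := r10.trans (h 10 4 (by decide +kernel))
  have r3 := r4.trans (h 4 3 (by decide +kernel))
  have r5 := r4.trans (h 4 5 (by decide +kernel))
  have r : ∀ a, H.Reachable 0 a := by
    intro a
    fin_cases a
    exacts [SimpleGraph.Reachable.refl _, r1, r2, r3, r4, r5, r6, r7, r8, r9, r10]
  exact ⟨fun a b => (r a).symm.trans (r b)⟩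

set_option synthInstance.maxSize 4000 in
theorem H_claw : ∀ a b c d : Fin 11, H.Adj a b → H.Adj a c → H.Adj a d → b ≠ c → b ≠ d → c ≠ d →
    H.Adj b c ∨ H.Adj b d ∨ H.Adj c d := by decide +kernel

theorem H_far : ¬ ((0 : Fin 11) = 3 ∨ H.Adj 0 3 ∨ ∃ z, H.Adj 0 z ∧ H.Adj z 3) := by
  decide +kernel

theorem near_of_iso {W : Type} {K : SimpleGraph W} (φ : H ≃g K)
    (h : ∀ x y : W, x = y ∨ K.Adj x y ∨ ∃ z, K.Adj x z ∧ K.Adj z y) : False := by
  apply H_far
  rcases h (φ 0) (φ 3) with h | h | ⟨z, h1, h2⟩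
  · exact Or.inl (φ.injective h)
  · exact Or.inr (Or.inl (φ.map_adj_iff.1 h))
  · obtain ⟨z, rfl⟩ := φ.surjective z
    exact Or.inr (Or.inr ⟨z, φ.map_adj_iff.1 h1, φ.map_adj_iff.1 h2⟩)

/-- The negation of the preceding statement: Every finite connected claw-free graph isomorphic to the slide IR-graph of some finite graph G is isomorphic to a complete graph or to K_m □ K_k with m, k ≥ 2. -/
theorem result :
    ¬ (∀ (n : ℕ) (H : SimpleGraph (Fin n)), H.Connected →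
    (∀ a b c d : Fin n, H.Adj a b → H.Adj a c → H.Adj a d → b ≠ c → b ≠ d → c ≠ d →
        H.Adj b c ∨ H.Adj b d ∨ H.Adj c d) →
    (∃ (p : ℕ) (G : SimpleGraph (Fin p)),
      Nonempty (H ≃g SimpleGraph.fromRel
        (fun (D E : {D : Finset (Fin p) //
            (∀ v ∈ D, ∃ w : Fin p, (w = v ∨ G.Adj v w) ∧
                ∀ u ∈ D, u ≠ v → ¬ (w = u ∨ G.Adj u w)) ∧
            ∀ F : Finset (Fin p),
              (∀ v ∈ F, ∃ w : Fin p, (w = v ∨ G.Adj v w) ∧
                  ∀ u ∈ F, u ≠ v → ¬ (w = u ∨ G.Adj u w)) →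
              F.card ≤ D.card}) =>
          ∃ u v : Fin p, D.1 \ E.1 = {u} ∧ E.1 \ D.1 = {v} ∧ G.Adj u v))) →
    (∃ k : ℕ, Nonempty (H ≃g (⊤ : SimpleGraph (Fin k)))) ∨
    (∃ m k : ℕ, 2 ≤ m ∧ 2 ≤ k ∧
      Nonempty (H ≃g SimpleGraph.boxProd (⊤ : SimpleGraph (Fin m)) (⊤ : SimpleGraph (Fin k))))) := by
  intro HH
  obtain ⟨e, he⟩ := equiv_of (Irredundant G) X X_inj X_irr X_all
  have := HH 11 H H_conn H_claw ⟨9, G, ⟨⟨e, by
    intro i j
    rw [SimpleGraph.fromRel_adj, ← X_adj, ← he, ← he]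
    exact and_congr_left' (not_congr Subtype.ext_iff)⟩⟩⟩
  rcases this with ⟨k, ⟨φ⟩⟩ | ⟨m, k, -, -, ⟨φ⟩⟩
  · refine near_of_iso φ fun x y => ?_
    by_cases h : x = y
    · exact Or.inl h
    · exact Or.inr (Or.inl h)
  · refine near_of_iso φ ?_
    rintro ⟨a, b⟩ ⟨c, d⟩
    by_cases h1 : a = c
    · by_cases h2 : b = d
      · left; rw [h1, h2]
      · right; left; simp [h1, h2]
    · by_cases h2 : b = d
      · right; left; simp [h1, h2]
      · right; right; exact ⟨(c, b), by simp [h1], by simp [h2]⟩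

end Pool.Agent.S12266
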