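import Pool.Statements.S12292
import Pool.Agent.H14.Good1

set_option autoImplicit false
open Pool Pool.MP_eee601_co

namespace Pool.Agent.S12292

/-- The negation of the preceding statement: For each d≥3 there is ε>0 such that for every graph H, all large enough connected graphs G with max degree ≤d and bandwidth ≤ε∣G∣ satisfy R(G,H) ≤ (χ(H)−1)(∣G∣−1)+σ(H), i.e. are H-good. -/
theorem result :
    ¬ (∀ d : ℕ, 3 ≤ d → ∃ ε : ℝ, 0 < ε ∧
    ∀ k : ℕ, 1 ≤ k → ∀ H : SimpleGraph (Fin k), ∃ n₀ : ℕ, ∀ n : ℕ, n₀ ≤ n →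
      ∀ G : SimpleGraph (Fin n), G.Connected →
        (∀ v : Fin n, (G.neighborSet v).ncard ≤ d) →
        (∃ π : Fin n ≃ Fin n, ∀ u v : Fin n, G.Adj u v →
            |((π u : ℕ) : ℝ) - ((π v : ℕ) : ℝ)| ≤ ε * (n : ℝ)) →
        ∀ c : Fin k → Fin H.chromaticNumber.toNat,
          (∀ u v : Fin k, H.Adj u v → c u ≠ c v) →
          ∀ i : Fin H.chromaticNumber.toNat,
            ∀ N : ℕ, N = (H.chromaticNumber.toNat - 1) * (n - 1)
                + (Finset.univ.filter (fun v : Fin k => c v = i)).card →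
            ∀ F : SimpleGraph (Fin N),
              (∃ f : Fin n → Fin N, Function.Injective f ∧
                  ∀ u v : Fin n, G.Adj u v → F.Adj (f u) (f v)) ∨
              (∃ g : Fin k → Fin N, Function.Injective g ∧
                  ∀ u v : Fin k, H.Adj u v → Fᶜ.Adj (g u) (g v))) := by
  open Pool.Agent.H14.RGood Finset in
  intro h
  classical
  obtain ⟨ε, hε, h⟩ := h 20 (by norm_num)
  obtain ⟨J0, hJ0⟩ := exists_nat_ge (1 / ε)
  obtain ⟨J, hJ, hJ1⟩ : ∃ J : ℕ, 1 ≤ ε * J ∧ 1 ≤ J := by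
    refine ⟨J0 + 1, ?_, by omega⟩
    rw [div_le_iff₀ hε] at hJ0
    push_cast
    nlinarith
  obtain ⟨R, hR⟩ : ∃ R : ℕ, R = 4 * (12 * J) ^ 9 + 1 := ⟨_, rfl⟩
  have hRpos : 0 < R := by omega
  obtain ⟨p, hp, hp1, hp2⟩ := Nat.exists_prime_lt_and_le_two_mul (R ^ 4) (by positivity)
  have : Fact p.Prime := ⟨hp⟩
  have hppos := hp.pos
  obtain ⟨a, ha⟩ : ∃ a : ℕ, a = p * (2 * R ^ 2 + 1) := ⟨_, rfl⟩
  have hapos : 0 < a := by rw [ha]; positivity
  obtain ⟨n₀, h⟩ := h (a + 1) (by omega) ⊤
  obtain ⟨m, hm⟩ : ∃ m : ℕ, m = n₀ + R ^ 2 := ⟨_, rfl⟩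
  have hR2 : 0 < R ^ 2 := by positivity
  have hmpos : 0 < m := by omega
  obtain ⟨n, hn⟩ : ∃ n : ℕ, n = m * J := ⟨_, rfl⟩
  have hmn : m ≤ n := by rw [hn]; exact Nat.le_mul_of_pos_right _ hJ1
  obtain ⟨N, hN⟩ : ∃ N : ℕ, N = a * (n - 1) + 1 := ⟨_, rfl⟩
  have hNa : N ≤ a * n := by
    obtain ⟨n', rfl⟩ : ∃ n', n = n' + 1 := ⟨n - 1, by omega⟩
    rw [hN, Nat.add_sub_cancel, mul_add]
    omega
  obtain ⟨t, ht⟩ : ∃ t : ℕ, t = N / (p * p) + 1 := ⟨_, rfl⟩
  have htb : t * R ^ 2 ≤ 4 * J * m := by
    have h1 : N / (p * p) * (p * p) ≤ N := Nat.div_mul_le_self _ _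
    have h2 : N / (p * p) * p ≤ (2 * R ^ 2 + 1) * n := by
      apply Nat.le_of_mul_le_mul_right _ hppos
      calc N / (p * p) * p * p = N / (p * p) * (p * p) := by ring
        _ ≤ a * n := h1.trans hNa
        _ = _ := by rw [ha]; ring
    have h3 : N / (p * p) * R ^ 2 ≤ 3 * n := by
      apply Nat.le_of_mul_le_mul_right _ hR2
      calc N / (p * p) * R ^ 2 * R ^ 2 = N / (p * p) * R ^ 4 := by ring
        _ ≤ N / (p * p) * p := Nat.mul_le_mul_left _ hp1.le
        _ ≤ (2 * R ^ 2 + 1) * n := h2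
        _ ≤ (3 * R ^ 2) * n := Nat.mul_le_mul_right _ (by omega)
        _ = _ := by ring
    have h4 : R ^ 2 ≤ n := by omega
    rw [ht, add_mul, mul_assoc, mul_comm J m, ← hn]
    omega
  have hRr : (0 : ℝ) < R := by exact_mod_cast hRpos
  have hJr : (1 : ℝ) ≤ J := by exact_mod_cast hJ1
  obtain ⟨π, hπ⟩ := exists_perms (fun u v : ZMod p × ZMod p => u = v ∨ T0 u v) (m := m) (t := t)
    hmpos (fun v v' hv => by convert T_codeg v v' hv) (4 * J / R) (by positivity) (by
      have h1 : (t : ℝ) * R ^ 2 ≤ 4 * J * m := by exact_mod_cast htb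
      have h2 : (0 : ℝ) ≤ m := by positivity
      rw [div_pow, div_mul_eq_mul_div, le_div_iff₀ (by positivity)]
      have h3 : (J : ℝ) * m ≤ J * J * m := by
        apply mul_le_mul_of_nonneg_right _ h2
        nlinarith
      nlinarith) (by
      have h1 : (p : ℝ) ≤ 2 * R ^ 4 := by exact_mod_cast hp2
      have h2 : 4 * (12 * (J : ℝ)) ^ 9 < R := by
        rw [hR]; push_cast; linarith
      simp only [Fintype.card_prod, ZMod.card]
      push_cast
      have h3 : (p : ℝ) * p ≤ 4 * R ^ 8 := by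
        have : (0 : ℝ) ≤ p := by positivity
        nlinarith
      have e : (3 * (4 * (J : ℝ) / R)) ^ 9 = (12 * J) ^ 9 / R ^ 9 := by
        rw [← div_pow]; congr 1; ring
      rw [e, mul_div_assoc', div_lt_one (by positivity)]
      calc (p : ℝ) * p * (12 * J) ^ 9 ≤ 4 * R ^ 8 * (12 * J) ^ 9 :=
            mul_le_mul_of_nonneg_right h3 (by positivity)
        _ = (4 * (12 * J) ^ 9) * R ^ 8 := by ring
        _ < R * R ^ 8 := mul_lt_mul_of_pos_right h2 (by positivity)
        _ = _ := by ring)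
  let ι : Fin m → Fin n := Fin.castLE hmn
  let G : SimpleGraph (Fin n) := SimpleGraph.fromRel fun u v =>
    (u : ℕ) + 1 = v ∨ ∃ i x, u = ι x ∧ v = ι (π i x)
  let e : Fin (p * p) ≃ ZMod p × ZMod p := Fintype.equivOfCardEq (by simp)
  let β : Fin N → ZMod p × ZMod p := fun i => e ⟨i % (p * p), Nat.mod_lt _ (by positivity)⟩
  let F : SimpleGraph (Fin N) := SimpleGraph.fromRel fun i j => β i = β j ∨ T0 (β i) (β j)
  have hχ : (⊤ : SimpleGraph (Fin (a + 1))).chromaticNumber.toNat = a + 1 := by
    rw [SimpleGraph.chromaticNumber_top]; simp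
  have hconn : G.Connected := by
    have : Nonempty (Fin n) := ⟨⟨0, by omega⟩⟩
    have : NeZero n := ⟨by omega⟩
    refine SimpleGraph.Connected.mono (G := SimpleGraph.pathGraph n) ?_
      ⟨SimpleGraph.pathGraph_preconnected n⟩
    intro u v huv
    rw [SimpleGraph.pathGraph_adj] at huv
    simp only [G, SimpleGraph.fromRel_adj]
    refine ⟨by rintro rfl; omega, ?_⟩
    rcases huv with h1 | h1
    · exact Or.inl (Or.inl h1)
    · exact Or.inr (Or.inl h1)
  have hdeg : ∀ v : Fin n, (G.neighborSet v).ncard ≤ 20 := by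
    intro v
    let g1 : Fin 9 → Fin n := fun i => if hv : (v : ℕ) < m then ι (π i ⟨v, hv⟩) else v
    let g2 : Fin 9 → Fin n := fun i => if hv : (v : ℕ) < m then ι ((π i).symm ⟨v, hv⟩) else v
    let A1 : Finset (Fin n) := univ.filter fun u => (v : ℕ) + 1 = u
    let A2 : Finset (Fin n) := univ.filter fun u => (u : ℕ) + 1 = v
    have hsub : G.neighborSet v ⊆ ↑((A1 ∪ A2) ∪ (univ.image g1 ∪ univ.image g2)) := by
      intro u hu
      simp only [G, SimpleGraph.mem_neighborSet, SimpleGraph.fromRel_adj] at hu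
      simp only [coe_union, coe_image, coe_univ, Set.image_univ, Set.mem_union, mem_coe,
        Set.mem_range, A1, A2, mem_filter, mem_univ, true_and]
      rcases hu.2 with (h1 | ⟨i, x, h1, h2⟩) | (h1 | ⟨i, x, h1, h2⟩)
      · exact Or.inl (Or.inl h1)
      · refine Or.inr (Or.inl ⟨i, ?_⟩)
        subst h1 h2
        have : ((ι x : Fin n) : ℕ) < m := x.2
        simp only [g1, dif_pos this]
        rfl
      · exact Or.inl (Or.inr h1)
      · refine Or.inr (Or.inr ⟨i, ?_⟩)
        subst h1 h2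
        have : ((ι (π i x) : Fin n) : ℕ) < m := (π i x).2
        simp only [g2, dif_pos this]
        congr 1
        rw [Equiv.symm_apply_eq]
        rfl
    refine le_trans (Set.ncard_le_ncard hsub (Finset.finite_toSet _)) ?_
    rw [Set.ncard_coe_finset]
    have a1 : A1.card ≤ 1 := card_le_one.2 fun x hx y hy => by
      simp only [A1, mem_filter, mem_univ, true_and] at hx hy
      exact Fin.ext (by omega)
    have a2 : A2.card ≤ 1 := card_le_one.2 fun x hx y hy => by
      simp only [A2, mem_filter, mem_univ, true_and] at hx hy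
      exact Fin.ext (by omega)
    have a3 := card_image_le (s := univ) (f := g1)
    have a4 := card_image_le (s := univ) (f := g2)
    have a5 := card_union_le (A1 ∪ A2) (univ.image g1 ∪ univ.image g2)
    have a6 := card_union_le A1 A2
    have a7 := card_union_le (univ.image g1) (univ.image g2)
    simp only [card_univ, Fintype.card_fin] at a3 a4
    omega
  have hbw : ∀ u v : Fin n, G.Adj u v → |((u : ℕ) : ℝ) - ((v : ℕ) : ℝ)| ≤ ε * (n : ℝ) := by
    intro u v huv
    have h1 : (m : ℝ) ≤ ε * n := by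
      rw [hn]; push_cast
      have : (0 : ℝ) ≤ m := by positivity
      nlinarith
    refine le_trans ?_ h1
    have h2 : (u : ℕ) ≤ v + m ∧ (v : ℕ) ≤ u + m := by
      simp only [G, SimpleGraph.fromRel_adj] at huv
      rcases huv.2 with (h1 | ⟨i, x, h1, h2⟩) | (h1 | ⟨i, x, h1, h2⟩)
      · omega
      · have a1 : (u : ℕ) < m := by rw [h1]; exact x.2
        have a2 : (v : ℕ) < m := by rw [h2]; exact (π i x).2
        omega
      · omega
      · have a1 : (v : ℕ) < m := by rw [h1]; exact x.2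
        have a2 : (u : ℕ) < m := by rw [h2]; exact (π i x).2
        omega
    have h3 : ((u : ℕ) : ℝ) ≤ (v : ℕ) + m := by exact_mod_cast h2.1
    have h4 : ((v : ℕ) : ℝ) ≤ (u : ℕ) + m := by exact_mod_cast h2.2
    rw [abs_le]
    constructor <;> linarith
  have key := h n (by omega) G hconn hdeg ⟨Equiv.refl _, hbw⟩ (Fin.cast hχ.symm)
    (fun u v huv e => huv (Fin.cast_injective _ e)) (Fin.cast hχ.symm 0) N (by
      have : (univ.filter fun v : Fin (a + 1) => Fin.cast hχ.symm v = Fin.cast hχ.symm 0) = {0} := by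
        ext v
        simp only [mem_filter, mem_univ, true_and, mem_singleton]
        exact (Fin.cast_injective _).eq_iff
      rw [this, hχ, hN]
      simp) F
  rcases key with ⟨f, hf, hadj⟩ | ⟨g, hg, hadj⟩
  · have hι : Function.Injective ι := Fin.castLE_injective hmn
    obtain ⟨i, x, hx⟩ := hπ (fun x => β (f (ι x))) (by
      intro v
      rw [ht, ← card_range (N / (p * p) + 1)]
      refine card_le_card_of_injOn (fun x => (f (ι x) : ℕ) / (p * p)) ?_ ?_
      · intro x _
        simp only [coe_range, Set.mem_Iio]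
        exact Nat.lt_succ_of_le (Nat.div_le_div_right (f (ι x)).2.le)
      · intro x hx y hy hxy
        simp only [coe_filter, mem_univ, true_and, Set.mem_ofPred_eq] at hx hy
        have h1 : (f (ι x) : ℕ) % (p * p) = (f (ι y) : ℕ) % (p * p) := by
          have := e.injective (hx.trans hy.symm)
          exact congrArg Fin.val this
        apply hι
        apply hf
        apply Fin.ext
        simp only at hxy
        rw [← Nat.div_add_mod (f (ι x)) (p * p), ← Nat.div_add_mod (f (ι y)) (p * p), hxy, h1])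
    apply hx
    by_cases hxx : π i x = x
    · left; rw [hxx]
    · have : G.Adj (ι x) (ι (π i x)) := by
        simp only [G, SimpleGraph.fromRel_adj]
        exact ⟨fun e => hxx (hι e).symm, Or.inl (Or.inr ⟨i, x, rfl, rfl⟩)⟩
      have h2 := hadj _ _ this
      simp only [F, SimpleGraph.fromRel_adj] at h2
      rcases h2.2 with h3 | h3 | h3
      · exact h3
      · exact Or.inl h3.symm
      · exact Or.inr (T0_symm h3)
  · have hne : ∀ u v : Fin (a + 1), u ≠ v → β (g u) ≠ β (g v) ∧ ¬ T0 (β (g u)) (β (g v)) := by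
      intro u v huv
      have h2 := hadj u v huv
      simp only [F, SimpleGraph.compl_adj, SimpleGraph.fromRel_adj] at h2
      have h3 := h2.2
      push Not at h3
      exact (h3 h2.1).1
    have hinj : Function.Injective fun u => β (g u) := by
      intro u v huv
      by_contra hc
      exact (hne u v hc).1 huv
    have := indep_bound (univ.image fun u => β (g u)) (by
      intro u hu v hv huv
      obtain ⟨x, -, rfl⟩ := mem_image.1 hu
      obtain ⟨y, -, rfl⟩ := mem_image.1 hv
      exact (hne x y (fun e => huv (by rw [e]))).2) (2 * R ^ 2) (by positivity) (by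
        have h1 : (p : ℝ) ≤ 2 * R ^ 4 := by exact_mod_cast hp2
        have : (0 : ℝ) ≤ R ^ 4 := by positivity
        nlinarith)
    rw [card_image_of_injective _ hinj] at this
    simp only [card_univ, Fintype.card_fin] at this
    rw [ha] at this
    push_cast at this
    linarith

end Pool.Agent.S12292
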