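import Pool.Statements.S12322
import Pool.Agent.H23.GoodLabelCycle

set_option autoImplicit false
open Pool Pool.MP_f027b3_co

namespace Pool.Agent.S12322

/-- The negation of the preceding statement: For each c<4 there is N such that every graph with no isolated vertex, no good edge labeling, good labelings on all proper spanning subgraphs, and average degree below c has at most N vertices. -/
theorem result :
    ¬ (∀ c : ℝ, c < 4 → ∃ N : ℕ, ∀ (n : ℕ) (G : SimpleGraph (Fin n)),
      (∀ v : Fin n, ∃ w : Fin n, G.Adj v w) →
      (¬ ∃ f : Fin n → Fin n → ℝ, (∀ a b : Fin n, f a b = f b a) ∧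
          (∀ x y z w : Fin n, G.Adj x y → G.Adj z w → f x y = f z w →
              (x = z ∧ y = w) ∨ (x = w ∧ y = z)) ∧
          ∀ (u : Fin n) (p : G.Walk u u), p.IsCycle →
            ∃ i j : ℕ, i < p.length ∧ j < p.length ∧ i ≠ j ∧
              f (p.getVert ((i + 1) % p.length)) (p.getVert ((i + 1) % p.length + 1)) <
                f (p.getVert i) (p.getVert (i + 1)) ∧
              f (p.getVert ((i + p.length - 1) % p.length))
                  (p.getVert ((i + p.length - 1) % p.length + 1)) <
                f (p.getVert i) (p.getVert (i + 1)) ∧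
              f (p.getVert ((j + 1) % p.length)) (p.getVert ((j + 1) % p.length + 1)) <
                f (p.getVert j) (p.getVert (j + 1)) ∧
              f (p.getVert ((j + p.length - 1) % p.length))
                  (p.getVert ((j + p.length - 1) % p.length + 1)) <
                f (p.getVert j) (p.getVert (j + 1))) →
      (∀ H : SimpleGraph (Fin n), H < G →
        ∃ f : Fin n → Fin n → ℝ, (∀ a b : Fin n, f a b = f b a) ∧
          (∀ x y z w : Fin n, H.Adj x y → H.Adj z w → f x y = f z w →
              (x = z ∧ y = w) ∨ (x = w ∧ y = z)) ∧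
          ∀ (u : Fin n) (p : H.Walk u u), p.IsCycle →
            ∃ i j : ℕ, i < p.length ∧ j < p.length ∧ i ≠ j ∧
              f (p.getVert ((i + 1) % p.length)) (p.getVert ((i + 1) % p.length + 1)) <
                f (p.getVert i) (p.getVert (i + 1)) ∧
              f (p.getVert ((i + p.length - 1) % p.length))
                  (p.getVert ((i + p.length - 1) % p.length + 1)) <
                f (p.getVert i) (p.getVert (i + 1)) ∧
              f (p.getVert ((j + 1) % p.length)) (p.getVert ((j + 1) % p.length + 1)) <
                f (p.getVert j) (p.getVert (j + 1)) ∧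
              f (p.getVert ((j + p.length - 1) % p.length))
                  (p.getVert ((j + p.length - 1) % p.length + 1)) <
                f (p.getVert j) (p.getVert (j + 1))) →
      2 * (G.edgeSet.ncard : ℝ) < c * (n : ℝ) → n ≤ N) := by
  intro h
  obtain ⟨N, hN⟩ := h (7 / 2) (by norm_num)
  let m := 2 * N + 7
  have hm : 7 ≤ m := by omega
  have ho : m % 2 = 1 := by omega
  have : NeZero m := ⟨by omega⟩
  have hcard : Fintype.card (ZMod m ⊕ (ZMod m × Bool)) = 3 * m := by
    simp [ZMod.card]
    ring
  let e : Fin (3 * m) ≃ (ZMod m ⊕ (ZMod m × Bool)) := (Fintype.equivFinOfCardEq hcard).symm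
  have := hN (3 * m) ((H23.GoodLabelCycle.G0 m).comap e) ?_ ?_ ?_ ?_
  · omega
  · intro v
    rcases hv : e v with a | ⟨i, b⟩
    · refine ⟨e.symm (Sum.inr (a, true)), ?_⟩
      simp only [SimpleGraph.comap_adj, hv, Equiv.apply_symm_apply]
      exact H23.GoodLabelCycle.adj_lo a true
    · refine ⟨e.symm (Sum.inl i), ?_⟩
      simp only [SimpleGraph.comap_adj, hv, Equiv.apply_symm_apply]
      exact (H23.GoodLabelCycle.adj_lo i b).symm
  · rintro ⟨f, hs, hinj, hc⟩
    exact H23.GoodLabelCycle.bad hm ho e.symm e.symm.injective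
      (fun a b hab => by simpa using hab) hs hinj hc
  · intro H hH
    have hex : ∃ u v, ((H23.GoodLabelCycle.G0 m).comap e).Adj u v ∧ ¬ H.Adj u v := by
      by_contra hno
      push Not at hno
      exact hH.not_ge (fun u v huv => hno u v huv)
    obtain ⟨u, v, h1, h2⟩ := hex
    have hle : H.comap e.symm ≤ H23.GoodLabelCycle.G0 m := by
      intro a b hab
      simpa using hH.le hab
    obtain ⟨g, hgs, hg⟩ := H23.GoodLabelCycle.wcrit_of_missing hm ho hle (u := e u) (v := e v)
      h1 (by simpa using h2)
    obtain ⟨F, hF, hc⟩ := H23.GoodLabel.exists_crit hgs hg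
    have hc' := hc.comap (G' := H) e (fun a b hab => by simpa using hab)
    have hF' : Function.Injective (fun z : Sym2 (Fin (3 * m)) => F (z.map e)) :=
      hF.comp (Sym2.map.injective e.injective)
    refine ⟨fun a b => F s(e a, e b), fun a b => congrArg F Sym2.eq_swap, ?_,
      H23.GoodLabel.cycGood_of_crit hF' hc'⟩
    intro x y z w _ _ hxy
    have := hF' (a₁ := s(x, y)) (a₂ := s(z, w)) hxy
    rwa [Sym2.eq_iff] at this
  · have h1 : ((H23.GoodLabelCycle.G0 m).comap e).edgeSet.ncard
        = (H23.GoodLabelCycle.G0 m).edgeSet.ncard :=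
      Set.ncard_congr' (SimpleGraph.Iso.comap e _).mapEdgeSet
    have h2 := H23.GoodLabelCycle.card_edges hm
    rw [h1]
    have h3 : ((H23.GoodLabelCycle.G0 m).edgeSet.ncard : ℝ) ≤ 5 * m := by exact_mod_cast h2
    have h4 : (7 : ℝ) ≤ m := by exact_mod_cast hm
    push_cast
    linarith

end Pool.Agent.S12322
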