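import Pool.Statements.S12323
import Pool.Agent.H16.FlatProd

set_option autoImplicit false
open Pool Pool.MP_f03f2f_co

namespace Pool.Agent.S12323

open Pool.Agent.H16.FlatProd

/-- For r≥1, s≥2r+1 and 0≤k<⌊(s−1)/r⌋: take multigraphs where every s-set spans at most a·C(s,2)+t_r(s)+k edges. Their max product of multiplicities, raised to 1/C(n,2), tends to a^{1/r}(a+1)^{(r−1)/r}. -/
theorem result :
    ∀ r a s : ℕ, 1 ≤ r → 2 * r + 1 ≤ s → ∀ k : ℕ, k + 1 ≤ (s - 1) / r →
      Filter.Tendsto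
        (fun n : ℕ =>
          (sSup {x : ℝ | ∃ w : Sym2 (Fin n) → ℕ,
              (∀ S : Finset (Fin n), S.card = s →
                ∑ e ∈ S.sym2.filter (fun e => ¬ e.IsDiag), w e ≤
                  a * s.choose 2 +
                    ((Finset.univ : Finset (Fin s × Fin s)).filter
                      (fun p => p.1 < p.2 ∧ p.1.val % r ≠ p.2.val % r)).card + k) ∧
              x = ∏ e ∈ (Finset.univ : Finset (Sym2 (Fin n))).filter (fun e => ¬ e.IsDiag),
                    (w e : ℝ)}) ^ ((1 : ℝ) / (n.choose 2 : ℝ)))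
        Filter.atTop
        (nhds ((a : ℝ) ^ ((1 : ℝ) / r) * ((a : ℝ) + 1) ^ (((r : ℝ) - 1) / r))) := by
  intro r a s hr hs k hk
  simp only [tt_eq r hr s, E_univ]
  change Filter.Tendsto (fun n : ℕ => (sSup {x : ℝ | ∃ w : Sym2 (Fin n) → ℕ,
    (∀ S : Finset (Fin n), S.card = s → ∑ e ∈ E S, w e ≤ a * s.choose 2 + tt r s + k) ∧
      x = ∏ e ∈ E (Finset.univ : Finset (Fin n)), (w e : ℝ)}) ^ ((1 : ℝ) / (n.choose 2 : ℝ))) _ _
  have hr' : (0 : ℝ) < r := by exact_mod_cast hr
  rcases Nat.eq_zero_or_pos a with rfl | ha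
  · rw [Nat.cast_zero, Real.zero_rpow (by positivity), zero_mul (M₀ := ℝ)]
    refine tendsto_const_nhds.congr' ?_
    filter_upwards [Filter.eventually_ge_atTop s] with n hn
    have hN : (0 : ℝ) < n.choose 2 := by exact_mod_cast Nat.choose_pos (by omega)
    have h0 : ∀ w : Sym2 (Fin n) → ℕ,
        (∀ S : Finset (Fin n), S.card = s → ∑ e ∈ E S, w e ≤ 0 * s.choose 2 + tt r s + k) →
        ∏ e ∈ E (Finset.univ : Finset (Fin n)), (w e : ℝ) = 0 := by
      intro w hw
      obtain ⟨S, -, hS⟩ := Finset.exists_subset_card_eq (s := (Finset.univ : Finset (Fin n)))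
        (n := s) (by simpa using hn)
      by_contra hne
      have h1 : ∑ e ∈ E S, 1 ≤ ∑ e ∈ E S, w e := by
        apply Finset.sum_le_sum
        intro e he
        have h2 : e ∈ E (Finset.univ : Finset (Fin n)) := by
          simp only [E, Finset.mem_filter] at he ⊢
          exact ⟨by simp, he.2⟩
        have := Finset.prod_ne_zero_iff.1 hne e h2
        exact Nat.pos_of_ne_zero (by exact_mod_cast this)
      rw [← Finset.card_eq_sum_ones, card_E, hS] at h1
      have h3 := hw S hS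
      have h4 := tt_add r s (by omega)
      omega
    have h5 : {x : ℝ | ∃ w : Sym2 (Fin n) → ℕ,
        (∀ S : Finset (Fin n), S.card = s → ∑ e ∈ E S, w e ≤ 0 * s.choose 2 + tt r s + k) ∧
        x = ∏ e ∈ E (Finset.univ : Finset (Fin n)), (w e : ℝ)} = {0} := by
      ext x
      constructor
      · rintro ⟨w, hw, rfl⟩
        exact h0 w hw
      · rintro rfl
        exact ⟨fun _ => 0, fun S _ => by simp, (h0 _ (fun S _ => by simp)).symm⟩
    rw [h5, csSup_singleton, Real.zero_rpow (by positivity)]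
  · rw [lam_eq r a hr ha]
    obtain ⟨q, hq⟩ : ∃ q, q = a * s.choose 2 + tt r s + k := ⟨_, rfl⟩
    have hl := one_le_lam r a hr ha
    have hQ : (1 : ℝ) ≤ (q : ℝ) + 1 := by linarith [(Nat.cast_nonneg q : (0 : ℝ) ≤ q)]
    have hlim := (lim (((q : ℝ) + 1) ^ s) (by positivity)).mul_const (lam r a)
    rw [one_mul] at hlim
    have hup : ∀ n, s ≤ n → ∀ x ∈ {x : ℝ | ∃ w : Sym2 (Fin n) → ℕ,
        (∀ S : Finset (Fin n), S.card = s → ∑ e ∈ E S, w e ≤ a * s.choose 2 + tt r s + k) ∧
        x = ∏ e ∈ E (Finset.univ : Finset (Fin n)), (w e : ℝ)},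
        x ≤ (((q : ℝ) + 1) ^ s) ^ n * lam r a ^ n.choose 2 := by
      rintro n hn x ⟨w, hw, rfl⟩
      rw [← hq] at hw
      refine upper r a s q hr ha w _ hQ ?_ (by omega) hw n _ (by simp)
      intro u v huv
      have := w_le (by omega) hn w hw u v huv
      exact_mod_cast Nat.le_succ_of_le this
    have hlo : ∀ n, ∃ x ∈ {x : ℝ | ∃ w : Sym2 (Fin n) → ℕ,
        (∀ S : Finset (Fin n), S.card = s → ∑ e ∈ E S, w e ≤ a * s.choose 2 + tt r s + k) ∧
        x = ∏ e ∈ E (Finset.univ : Finset (Fin n)), (w e : ℝ)}, lam r a ^ n.choose 2 ≤ x := by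
      intro n
      refine ⟨_, ⟨tw r a, fun S hS => (tw_sum r a hr s S hS).trans (Nat.le_add_right _ _), rfl⟩, ?_⟩
      have := tw_prod r a hr ha (n := n) n le_rfl
      rwa [Finset.filter_true_of_mem (fun u _ => u.2)] at this
    refine tendsto_of_tendsto_of_tendsto_of_le_of_le' tendsto_const_nhds hlim ?_ ?_
    · filter_upwards [Filter.eventually_ge_atTop s] with n hn
      have hN : n.choose 2 ≠ 0 := (Nat.choose_pos (by omega)).ne'
      obtain ⟨x, hx, h1⟩ := hlo n
      have h2 := h1.trans (le_csSup ⟨_, hup n hn⟩ hx)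
      have h3 := Real.rpow_le_rpow (by positivity) h2
        (z := (1 : ℝ) / (n.choose 2 : ℝ)) (by positivity)
      rwa [one_div, Real.pow_rpow_inv_natCast (by linarith) hN, ← one_div] at h3
    · filter_upwards [Filter.eventually_ge_atTop s] with n hn
      have hN : n.choose 2 ≠ 0 := (Nat.choose_pos (by omega)).ne'
      obtain ⟨x, hx, h1⟩ := hlo n
      have h2 := h1.trans (le_csSup ⟨_, hup n hn⟩ hx)
      have h3 := Real.rpow_le_rpow (le_trans (by positivity) h2) (csSup_le ⟨x, hx⟩ (hup n hn))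
        (z := (1 : ℝ) / (n.choose 2 : ℝ)) (by positivity)
      refine h3.trans (le_of_eq ?_)
      rw [Real.mul_rpow (by positivity) (by positivity), Real.rpow_natCast_mul (by positivity)]
      congr 1
      rw [one_div, Real.pow_rpow_inv_natCast (by linarith) hN]

end Pool.Agent.S12323
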