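import Pool.Statements.S12348
import Pool.Agent.H1.PwBohr

set_option autoImplicit false
open Pool Pool.MP_f13a95_co

namespace Pool.Agent.S12348

/-- The negation of the preceding statement: Suppose each of B and D contains the intersection of a translated Bohr neighbourhood with a set containing arbitrarily long intervals. Then the product set B·D contains (r + mℤ) ∩ T for some m ≥ 1, some r, and some T containing arbitrarily long intervals. -/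
theorem result :
    ¬ (∀ B D : Set ℤ,
      (∃ (d : ℕ) (α : Fin d → ℝ) (ε : ℝ) (n₀ : ℤ) (T : Set ℤ), 0 < ε ∧
        (∀ L : ℕ, ∃ a : ℤ, ∀ k : ℕ, k < L → a + (k : ℤ) ∈ T) ∧
        ∀ n ∈ T, (∀ i : Fin d,
          |((n - n₀ : ℤ) : ℝ) * α i - (round (((n - n₀ : ℤ) : ℝ) * α i) : ℝ)| < ε) → n ∈ B) →
      (∃ (d : ℕ) (α : Fin d → ℝ) (ε : ℝ) (n₀ : ℤ) (T : Set ℤ), 0 < ε ∧
        (∀ L : ℕ, ∃ a : ℤ, ∀ k : ℕ, k < L → a + (k : ℤ) ∈ T) ∧
        ∀ n ∈ T, (∀ i : Fin d,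
          |((n - n₀ : ℤ) : ℝ) * α i - (round (((n - n₀ : ℤ) : ℝ) * α i) : ℝ)| < ε) → n ∈ D) →
      ∃ (m r : ℤ) (T : Set ℤ), 0 < m ∧
        (∀ L : ℕ, ∃ a : ℤ, ∀ k : ℕ, k < L → a + (k : ℤ) ∈ T) ∧
        ∀ n ∈ T, n ≡ r [ZMOD m] → ∃ b ∈ B, ∃ c ∈ D, n = b * c) := by
  intro h
  open Pool.Agent.H1.PwBohr in
  obtain ⟨m, r, S, hm, hS, h⟩ := h {n | n ∈ T 0 ∧ U n} {n | n ∈ T 1 ∧ U n}
    ⟨1, fun _ => √2, 1 / 10, 0, T 0, by norm_num, T_thick 0 (by norm_num),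
      fun n hn h => ⟨hn, by simpa [U] using h 0⟩⟩
    ⟨1, fun _ => √2, 1 / 10, 0, T 1, by norm_num, T_thick 1 (by norm_num),
      fun n hn h => ⟨hn, by simpa [U] using h 0⟩⟩
  refine main m r S hm hS fun n hn hr => ?_
  obtain ⟨b, hb, c, hc, rfl⟩ := h n hn hr
  exact prod_cl hb.1 hb.2 hc.1 hc.2

end Pool.Agent.S12348
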