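import Pool.Statements.S12369
import Pool.Agent.H28.GS5

set_option autoImplicit false
open Pool Pool.MP_f210e3_co

namespace Pool.Agent.S12369

/-- For every d ≥ 1, tree T and k, there is c such that any finite family of distinct d-spheres in R^(d+1) whose orthogonality graph has no induced T and no K_k has that graph c-colourable. -/
theorem result :
    ∀ d : ℕ, 1 ≤ d →
      ∀ m : ℕ, ∀ T : SimpleGraph (Fin m), T.IsTree →
        ∀ k : ℕ, ∃ c : ℕ,
          ∀ n : ℕ, ∀ S : Fin n → EuclideanSpace ℝ (Fin (d + 1)) × ℝ,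
            Function.Injective S →
            (∀ i, 0 < (S i).2) →
            ¬ Nonempty (T ↪g SimpleGraph.fromRel
                (fun i j : Fin n => dist (S i).1 (S j).1 ^ 2 = (S i).2 ^ 2 + (S j).2 ^ 2)) →
            (SimpleGraph.fromRel
                (fun i j : Fin n => dist (S i).1 (S j).1 ^ 2 = (S i).2 ^ 2 + (S j).2 ^ 2)).CliqueFree k →
            (SimpleGraph.fromRel
                (fun i j : Fin n => dist (S i).1 (S j).1 ^ 2 = (S i).2 ^ 2 + (S j).2 ^ 2)).Colorable c := by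
  intro d _ m T hT k
  let U := {x : EuclideanSpace ℝ (Fin (d + 1)) × ℝ // 0 < x.2}
  let o : U → U → Prop := fun x y => dist x.1.1 y.1.1 ^ 2 = x.1.2 ^ 2 + y.1.2 ^ 2
  have osym : ∀ x y, o x y → o y x := fun x y h => by
    simp only [o] at h ⊢; rw [dist_comm, h, add_comm]
  have hirr : ∀ x, ¬ o x x := fun x h => by
    simp only [o, dist_self] at h
    have := x.2
    nlinarith
  let l : U → (EuclideanSpace ℝ (Fin (d + 1)) × ℝ × ℝ) →ₗ[ℝ] ℝ := fun y =>
    { toFun := fun a => a.2.1 + a.2.2 * (‖y.1.1‖ ^ 2 - y.1.2 ^ 2) - 2 * inner ℝ y.1.1 a.1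
      map_add' := fun a b => by simp [inner_add_right]; ring
      map_smul' := fun r a => by simp [inner_smul_right]; ring }
  obtain ⟨c, hc⟩ := Pool.Agent.H28.GS.gs_rel (o := o) (q := fun _ _ => False) osym
    (fun x => (x.1.1, ‖x.1.1‖ ^ 2 - x.1.2 ^ 2, (1 : ℝ))) (fun y => LinearMap.ker (l y))
    (fun x y => by
      simp only [o, l, LinearMap.mem_ker, LinearMap.coe_mk, AddHom.coe_mk, dist_eq_norm,
        norm_sub_sq_real, real_inner_comm y.1.1 x.1.1]
      constructor <;> intro h <;> linarith)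
    (fun _ _ h => h) (fun _ _ _ h _ => h) hirr (fun _ _ h => h.elim) (fun x => ⟨x, hirr x⟩)
    T hT.isAcyclic k
  refine ⟨c, fun n S _ hS h1 h2 => hc n (fun i => ⟨S i, hS i⟩) _ (fun i j => ?_) h1 h2⟩
  rw [SimpleGraph.fromRel_adj]
  constructor
  · rintro ⟨-, h | h⟩
    · exact ⟨h, id⟩
    · exact ⟨osym ⟨S j, hS j⟩ ⟨S i, hS i⟩ h, id⟩
  · rintro ⟨h, -⟩
    refine ⟨?_, Or.inl h⟩
    rintro rfl
    exact hirr _ h

end Pool.Agent.S12369
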