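import Pool.Statements.S12383
import Pool.Agent.H12.Bent

set_option autoImplicit false
open Pool Pool.MP_f2f693_co

namespace Pool.Agent.S12383

/-- For m=2k: eventually ∣B_m∣^4/∣X_m∣>1, and loglog(∣B_m∣^4/∣X_m∣)/loglog(#bent-iterative functions on m+2 variables) tends to 1 as k grows, logs base 2, counted via 4-tuples of bent functions with duals summing to 1. -/
theorem result :
  ∀ (W : (m : ℕ) → ((Fin m → ZMod 2) → ZMod 2) → (Fin m → ZMod 2) → ℤ),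
    (∀ m f y, W m f y = ∑ x : Fin m → ZMod 2, (-1 : ℤ) ^ (f x + ∑ i, x i * y i).val) →
  ∀ (B : (m : ℕ) → Set ((Fin m → ZMod 2) → ZMod 2)),
    (∀ m, B m = {f | ∀ y, |W m f y| = 2 ^ (m / 2)}) →
  ∀ (L : ℕ → ℝ),
    (∀ m, L m = ((B m).ncard : ℝ) ^ 4 /
      (({g | ∃ f ∈ B m, ∃ h ∈ B m, g = f + h} : Set ((Fin m → ZMod 2) → ZMod 2)).ncard : ℝ)) →
  ∀ (BI : ℕ → ℝ),
    (∀ m, BI m = (({t : Fin 4 → ((Fin m → ZMod 2) → ZMod 2) |
        (∀ i, t i ∈ B m) ∧ ∀ y, ∏ i, W m (t i) y = -(2 ^ (m / 2)) ^ 4}).ncard : ℝ)) →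
  (∃ K : ℕ, ∀ k ≥ K, 1 < L (2 * k)) ∧
  Filter.Tendsto
    (fun k : ℕ => Real.logb 2 (Real.logb 2 (L (2 * k))) / Real.logb 2 (Real.logb 2 (BI (2 * k))))
    Filter.atTop (nhds 1) := by
  intro W hW B hB L hL BI hBI
  have eW : W = H12.Bent.W := by funext m f y; rw [hW]; rfl
  subst eW
  have eB : B = H12.Bent.B := by funext m; rw [hB]; rfl
  subst eB
  let b : ℕ → ℝ := fun k => ((H12.Bent.B (2 * k)).ncard : ℝ)
  have hb : ∀ k : ℕ, (2 : ℝ) ^ (2 * k) ≤ b k := fun k => by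
    have := H12.Bent.card_ge k
    simp only [b]
    exact_mod_cast this
  have hb' : ∀ k : ℕ, (k : ℝ) + 1 ≤ b k := fun k => by
    refine le_trans ?_ (hb k)
    have : k + 1 ≤ 2 ^ (2 * k) :=
      le_trans (by omega) (Nat.succ_le_of_lt (Nat.lt_two_pow_self (n := 2 * k)))
    exact_mod_cast this
  have hbt : Filter.Tendsto b Filter.atTop Filter.atTop :=
    Filter.tendsto_atTop_mono hb'
      (Filter.tendsto_atTop_add_const_right _ 1 tendsto_natCast_atTop_atTop)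
  have hLb : ∀ k, b k ^ 2 ≤ L (2 * k) ∧ L (2 * k) ≤ b k ^ 4 := by
    intro k
    rw [hL]
    obtain ⟨f, hf⟩ := H12.Bent.exists_bent k
    have h1 := H12.Bent.X_le (2 * k)
    have h2 : 0 < ({g | ∃ f ∈ H12.Bent.B (2 * k), ∃ h ∈ H12.Bent.B (2 * k), g = f + h} :
        Set ((Fin (2 * k) → ZMod 2) → ZMod 2)).ncard :=
      (Set.ncard_pos (Set.toFinite _)).mpr ⟨f + f, f, hf, f, hf, rfl⟩
    set X := ({g | ∃ f ∈ H12.Bent.B (2 * k), ∃ h ∈ H12.Bent.B (2 * k), g = f + h} :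
        Set ((Fin (2 * k) → ZMod 2) → ZMod 2)).ncard
    have h1' : (X : ℝ) ≤ b k ^ 2 := by simp only [b]; exact_mod_cast h1
    have h2' : (1 : ℝ) ≤ X := by exact_mod_cast h2
    constructor
    · rw [le_div_iff₀ (by linarith)]
      show b k ^ 2 * X ≤ b k ^ 4
      have : 0 ≤ b k ^ 2 := by positivity
      nlinarith
    · exact div_le_self (by positivity) h2'
  have hBb : ∀ k, b k ^ 2 ≤ BI (2 * k) ∧ BI (2 * k) ≤ b k ^ 4 := by
    intro k
    rw [hBI]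
    simp only [b]
    exact ⟨by exact_mod_cast H12.Bent.BI_ge (2 * k), by exact_mod_cast H12.Bent.BI_le (2 * k)⟩
  refine ⟨⟨1, fun k hk => ?_⟩, H12.Bent.squeeze b _ _ hbt hLb hBb⟩
  have h1 := hb' k
  have h2 : (1 : ℝ) ≤ k := by exact_mod_cast hk
  have h3 := (hLb k).1
  nlinarith

end Pool.Agent.S12383
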