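import Pool.Statements.S12396
import Pool.Agent.H11.Inv5

set_option autoImplicit false
open Pool Pool.MP_f42431_co

namespace Pool.Agent.S12396

/-- The negation of the preceding statement: For every non-identity pattern p and every k, n: the number of p-avoiding permutations of length n with exactly k inversions is at most the number of such permutations of length n+1. -/
theorem result :
    ¬ (∀ (m : ℕ) (p : Equiv.Perm (Fin m)), p ≠ 1 → ∀ k n : ℕ,
      Nat.card {σ : Equiv.Perm (Fin n) //
          (¬ ∃ f : Fin m ↪o Fin n, ∀ i j : Fin m, p i < p j ↔ σ (f i) < σ (f j)) ∧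
          ((Finset.univ : Finset (Fin n × Fin n)).filter
              (fun q => q.1 < q.2 ∧ σ q.2 < σ q.1)).card = k}
        ≤ Nat.card {σ : Equiv.Perm (Fin (n + 1)) //
          (¬ ∃ f : Fin m ↪o Fin (n + 1), ∀ i j : Fin m, p i < p j ↔ σ (f i) < σ (f j)) ∧
          ((Finset.univ : Finset (Fin (n + 1) × Fin (n + 1))).filter
              (fun q => q.1 < q.2 ∧ σ q.2 < σ q.1)).card = k}) := by
  intro H
  refine H11.Inv.not_monotone fun k => monotone_nat_of_le_succ fun n => ?_
  have key : ∀ (n : ℕ) (σ : Equiv.Perm (Fin n)),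
      (¬ ∃ f : Fin 4 ↪o Fin n, ∀ i j : Fin 4,
        Equiv.swap (1 : Fin 4) 2 i < Equiv.swap (1 : Fin 4) 2 j ↔ σ (f i) < σ (f j)) ↔
      H11.Inv.AvP σ := by
    intro n σ
    unfold H11.Inv.AvP
    refine not_congr ⟨?_, ?_⟩
    · rintro ⟨f, hf⟩
      exact ⟨f 0, f 1, f 2, f 3, f.strictMono (by decide), f.strictMono (by decide),
        f.strictMono (by decide), (hf 0 2).1 (by decide), (hf 2 1).1 (by decide),
        (hf 1 3).1 (by decide)⟩
    · rintro ⟨a, b, c, d, h1, h2, h3, h4, h5, h6⟩
      refine ⟨OrderEmbedding.ofStrictMono ![a, b, c, d] ?_, ?_⟩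
      · refine Fin.strictMono_iff_lt_succ.2 fun i => ?_
        fin_cases i
        exacts [h1, h2, h3]
      · have e : ∀ i : Fin 4, Equiv.swap (1 : Fin 4) 2 i = ![0, 2, 1, 3] i := by decide
        have h7 := h4.trans h5
        have h8 := h5.trans h6
        have h9 := h7.trans h6
        intro i j
        rw [e, e]
        fin_cases i <;> fin_cases j <;>
          simp [h4, h5, h6, h7, h8, h9, h4.not_gt, h5.not_gt, h6.not_gt, h7.not_gt, h8.not_gt,
            h9.not_gt]
  have e : ∀ n : ℕ, H11.Inv.cnt k n = Nat.card {σ : Equiv.Perm (Fin n) //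
      (¬ ∃ f : Fin 4 ↪o Fin n, ∀ i j : Fin 4,
        Equiv.swap (1 : Fin 4) 2 i < Equiv.swap (1 : Fin 4) 2 j ↔ σ (f i) < σ (f j)) ∧
      ((Finset.univ : Finset (Fin n × Fin n)).filter
        (fun q => q.1 < q.2 ∧ σ q.2 < σ q.1)).card = k} := by
    intro n
    classical
    rw [H11.Inv.cnt, Nat.subtype_card]
    intro σ
    simp only [Finset.mem_filter, Finset.mem_univ, true_and, key, H11.Inv.invP]
  rw [e, e]
  exact H 4 (Equiv.swap 1 2) (by decide) k n

end Pool.Agent.S12396
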