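import Pool.Statements.S12427
import Pool.Agent.H16.QAp2

set_option autoImplicit false
open Pool Pool.MP_f59cb1_co

namespace Pool.Agent.S12427


/-- With A_n(q) = sum over k ≤ n of C(n,k)^2 C(n+k,k) q^k, for every n ≥ 1 every coefficient of A_{n+1}(q)A_{n-1}(q) − A_n(q)^2 is nonnegative (q-log-convexity). -/
theorem result :
    ∀ A : ℕ → Polynomial ℤ,
      (∀ n : ℕ, A n = ∑ k ∈ Finset.range (n + 1),
          Polynomial.monomial k (((n.choose k : ℤ)) ^ 2 * ((n + k).choose k : ℤ))) →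
      ∀ n i : ℕ, 0 ≤ (A (n + 2) * A n - A (n + 1) ^ 2).coeff i := by
  intro A hA n i
  have hc : ∀ m k : ℕ, (((A m).coeff k : ℤ) : ℚ) = Pool.Agent.H16.QAp.aa m k := by
    intro m k
    rw [hA, Polynomial.finsetSum_coeff]
    simp only [Polynomial.coeff_monomial]
    rw [Finset.sum_ite_eq' (Finset.range (m + 1)) k
      (fun k => ((m.choose k : ℤ)) ^ 2 * ((m + k).choose k : ℤ))]
    unfold Pool.Agent.H16.QAp.aa
    split_ifs with h
    · push_cast
      rfl
    · have : m < k := by
        rw [Finset.mem_range] at h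
        omega
      simp [Nat.choose_eq_zero_of_lt this]
  have h := Pool.Agent.H16.QAp.main_sum n i
  have e : (((A (n + 2) * A n - A (n + 1) ^ 2).coeff i : ℤ) : ℚ) =
      ∑ p ∈ Finset.HasAntidiagonal.antidiagonal i,
        (Pool.Agent.H16.QAp.aa (n + 2) p.1 * Pool.Agent.H16.QAp.aa n p.2 -
          Pool.Agent.H16.QAp.aa (n + 1) p.1 * Pool.Agent.H16.QAp.aa (n + 1) p.2) := by
    rw [Polynomial.coeff_sub, sq, Polynomial.coeff_mul, Polynomial.coeff_mul, Finset.sum_sub_distrib]
    push_cast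
    simp only [hc]
  rw [← e] at h
  exact_mod_cast h

end Pool.Agent.S12427
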