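import Pool.Statements.S12439
import Pool.Agent.H14.Babai4

set_option autoImplicit false
open Pool Pool.MP_f6404a_co

namespace Pool.Agent.S12439

/-- There are connected vertex-transitive graphs of degree at most D with vertex counts tending to infinity, and radii d_n, such that the d_n-sphere has at least half the vertices, 99% of it has no neighbour at distance d_n+1, and diameter is at least 1.9 d_n. -/
theorem result :
    ∃ (D : ℕ) (N : ℕ → ℕ) (G : ∀ n, SimpleGraph (Fin (N n))) (d : ℕ → ℕ),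
      Filter.Tendsto N Filter.atTop Filter.atTop ∧
      ∀ n, (G n).Connected ∧
        (∀ u v : Fin (N n), ∃ φ : G n ≃g G n, φ u = v) ∧
        (∀ v : Fin (N n), ((G n).neighborSet v).ncard ≤ D) ∧
        ∃ v₀ : Fin (N n),
          N n ≤ 2 * {v : Fin (N n) | (G n).dist v₀ v = d n}.ncard ∧
          99 * {v : Fin (N n) | (G n).dist v₀ v = d n}.ncard ≤
            100 * {v : Fin (N n) | (G n).dist v₀ v = d n ∧
              ∀ w : Fin (N n), (G n).Adj v w → (G n).dist v₀ w ≠ d n + 1}.ncard ∧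
          19 * d n ≤ 10 * (G n).diam := by
  open Pool.Agent.H14.Babai in
  have key : ∀ K : ℕ, K = 1958592 → ∀ j : ℕ, ∃ N : ℕ, j ≤ N ∧ ∃ G : SimpleGraph (Fin N), ∃ d : ℕ, G.Connected ∧
        (∀ u v : Fin N, ∃ φ : G ≃g G, φ u = v) ∧
        (∀ v : Fin N, (G.neighborSet v).ncard ≤ 910 * (2 * K + 1)) ∧
        ∃ v₀ : Fin N,
          N ≤ 2 * {v : Fin N | G.dist v₀ v = d}.ncard ∧
          99 * {v : Fin N | G.dist v₀ v = d}.ncard ≤
            100 * {v : Fin N | G.dist v₀ v = d ∧
              ∀ w : Fin N, G.Adj v w → G.dist v₀ w ≠ d + 1}.ncard ∧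
          19 * d ≤ 10 * G.diam := by
    intro K hK j
    have H := hn_pow (j + 3)
    have hM : 0 < 101 ^ j := by positivity
    have hd : 101 ^ (j + 3) = 1030301 * 101 ^ j := by ring
    have : NeZero (2 * 101 ^ j) := ⟨by omega⟩
    have : NeZero (101 ^ (j + 3)) := ⟨by omega⟩
    have := finite_R (101 ^ (j + 3))
    let _ : Fintype (VG (101 ^ (j + 3))) := Fintype.ofFinite _
    obtain ⟨f, hf, hf1, hf2⟩ := goodG H
    have hg := goodH hM K
    have ht := tailH hM K hK
    rw [← hd] at ht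
    rw [Nat.card_eq_fintype_card] at hf2
    obtain ⟨c1, c2⟩ := combine hg hf (101 ^ (j + 3)) hf1 hf2 ht
    obtain ⟨G, hG⟩ := (hf.prod hg).final (101 ^ (j + 3)) c1 c2
      ⟨((0, 0), fun _ => ((101 ^ j : ℕ) : ZMod (2 * 101 ^ j))), by
        have := fH_top hM K
        simp only [this]
        rw [hK]
        omega⟩
    refine ⟨_, ?_, G, _, hG⟩
    rw [Fintype.card_prod, ← Nat.card_eq_fintype_card (α := VG _), Nat.card_prod, Nat.card_prod,
      card_R, Nat.card_zmod]
    have h1 : j < 101 ^ (j + 3) := lt_of_lt_of_le (by omega : j < j + 3)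
      (Nat.lt_pow_self (by norm_num)).le
    have h2 : 0 < Fintype.card (VH K (101 ^ j)) := Fintype.card_pos
    have h3 : 0 < 101 ^ 101 ^ (j + 3) := by positivity
    have h4 : 101 ^ (j + 3) ≤ 101 ^ (j + 3) * 101 ^ (j + 3) := Nat.le_mul_self _
    calc j ≤ 1 * (101 ^ (j + 3) * 101 ^ (j + 3)) * 1 := by omega
      _ ≤ _ := Nat.mul_le_mul (Nat.mul_le_mul h3 le_rfl) h2
  choose N hN G d hG using key _ rfl
  exact ⟨_, N, G, d, Filter.tendsto_atTop_mono hN Filter.tendsto_id, hG⟩

end Pool.Agent.S12439
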