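import Pool.Statements.S12455
import Pool.Agent.H35.LsD

set_option autoImplicit false
open Pool Pool.MP_f6f5a0_co

namespace Pool.Agent.S12455

theorem result :
    ∀ n : ℕ, 3 < n → ∀ j : ℕ, j ≤ 2 →
      ∃ f : Finset (Fin (3 ^ (n + 1) + 2)) → Fin 3,
        ∀ c : Fin 3, ∀ T : Finset (Fin (3 ^ (n + 1) + 2)), T.card = 2 →
          3 * (Finset.univ.filter
                (fun S : Finset (Fin (3 ^ (n + 1) + 2)) =>
                  S.card = 3 ^ n + j ∧ T ⊆ S ∧ f S = c)).card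
            = Nat.choose (3 ^ (n + 1)) (3 ^ n + j - 2) := by
  intro n hn j hj
  have hK : 81 ≤ 3 ^ n := by
    calc 81 = 3 ^ 4 := by norm_num
      _ ≤ 3 ^ n := Nat.pow_le_pow_right (by norm_num) hn
  have hq : 3 ^ (n + 1) = 3 * 3 ^ n := by ring
  have dv : ∀ i, 0 < i → i < 3 ^ (n + 1) → 3 ∣ (3 ^ (n + 1)).choose i := fun i h1 h2 =>
    Nat.Prime.dvd_choose_pow Nat.prime_three (by omega) (by omega)
  have dv1 : ∀ i, 1 < i → i < 3 ^ (n + 1) → 3 ∣ (3 ^ (n + 1) + 1).choose i := by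
    intro i h1 h2
    obtain ⟨a, rfl⟩ : ∃ a, i = a + 1 := ⟨i - 1, by omega⟩
    rw [Nat.choose_succ_succ']
    exact dvd_add (dv _ (by omega) (by omega)) (dv _ (by omega) h2)
  have dv2 : ∀ i, 2 < i → i < 3 ^ (n + 1) → 3 ∣ (3 ^ (n + 1) + 1 + 1).choose i := by
    intro i h1 h2
    obtain ⟨a, rfl⟩ : ∃ a, i = a + 1 := ⟨i - 1, by omega⟩
    rw [Nat.choose_succ_succ']
    exact dvd_add (dv1 _ (by omega) (by omega)) (dv1 _ (by omega) h2)
  obtain ⟨d, ⟨f, hf⟩, hd⟩ := Pool.Agent.H35.Ls.large' (X := Fin (3 ^ (n + 1) + 2)) (3 ^ n + j)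
    (by omega) (by rw [Fintype.card_fin]; omega) (by rw [Fintype.card_fin]; omega) (by
      intro i hi
      rw [Fintype.card_fin]
      have : i = 0 ∨ i = 1 ∨ i = 2 := by omega
      rcases this with rfl | rfl | rfl
      · exact dv2 _ (by omega) (by omega)
      · exact dv1 _ (by omega) (by omega)
      · exact dv _ (by omega) (by omega))
  refine ⟨f, fun c T hT => ?_⟩
  have h := hd c T hT
  rw [← hf, Fintype.card_fin, Nat.add_sub_cancel] at h
  have e : (∑ b ∈ Finset.powersetCard (3 ^ n + j) Finset.univ,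
      if f b = c then Pool.Agent.H35.Ls.ph b T else 0) =
      ((Finset.univ.filter (fun S : Finset (Fin (3 ^ (n + 1) + 2)) =>
        S.card = 3 ^ n + j ∧ T ⊆ S ∧ f S = c)).card : ℕ) := by
    rw [Finset.card_filter, Finset.powersetCard_eq_filter, Finset.sum_filter,
      Finset.powerset_univ]
    push_cast
    refine Finset.sum_congr rfl fun S _ => ?_
    unfold Pool.Agent.H35.Ls.ph
    by_cases h1 : S.card = 3 ^ n + j <;> by_cases h2 : T ⊆ S <;> by_cases h3 : f S = c <;>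
      simp [h1, h2, h3]
  rw [e] at h
  exact_mod_cast h

end Pool.Agent.S12455
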