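import Pool.Statements.S12466

set_option autoImplicit false
open Pool Pool.MP_f7a12b_co

namespace Pool.Agent.S12466

/-- A family of fewer than `d` subsets of a large set has a cell with at least `d` points. -/
theorem exists_cell (d : ℕ) (F : Finset (Finset (Fin (2 ^ d * d)))) (hF : F.card < d) :
    ∃ C : Finset (Fin (2 ^ d * d)), d ≤ C.card ∧
      ∀ B ∈ F, (∀ a ∈ C, a ∈ B) ∨ (∀ a ∈ C, a ∉ B) := by
  classical
  have h1 : ∀ a ∈ (Finset.univ : Finset (Fin (2 ^ d * d))),
      F.filter (fun B => a ∈ B) ∈ F.powerset := by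
    intro a _
    exact Finset.mem_powerset.2 (Finset.filter_subset _ _)
  have h2 : F.powerset.card * d ≤ (Finset.univ : Finset (Fin (2 ^ d * d))).card := by
    rw [Finset.card_powerset, Finset.card_univ, Fintype.card_fin]
    exact Nat.mul_le_mul_right _ (Nat.pow_le_pow_right (by norm_num) hF.le)
  obtain ⟨y, _, hy⟩ := Finset.exists_le_card_fiber_of_mul_le_card_of_maps_to h1
    ⟨∅, Finset.empty_mem_powerset _⟩ h2
  refine ⟨_, hy, fun B hB => ?_⟩
  by_cases hBy : B ∈ y
  · left
    intro a ha
    have := (Finset.mem_filter.1 ha).2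
    rw [← this] at hBy
    exact (Finset.mem_filter.1 hBy).2
  · right
    intro a ha haB
    have := (Finset.mem_filter.1 ha).2
    rw [← this] at hBy
    exact hBy (Finset.mem_filter.2 ⟨hB, haB⟩)

/-- The chosen cell. -/
noncomputable def cell (d : ℕ) (F : Finset (Finset (Fin (2 ^ d * d)))) :
    Finset (Fin (2 ^ d * d)) :=
  if h : F.card < d then Classical.choose (exists_cell d F h) else ∅

theorem cell_spec (d : ℕ) (F : Finset (Finset (Fin (2 ^ d * d)))) (hF : F.card < d) :
    d ≤ (cell d F).card ∧ ∀ B ∈ F, (∀ a ∈ cell d F, a ∈ B) ∨ (∀ a ∈ cell d F, a ∉ B) := by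
  unfold cell
  rw [dif_pos hF]
  exact Classical.choose_spec (exists_cell d F hF)

/-- Vertices: points and families of sets of points. -/
abbrev W (d : ℕ) : Type := Fin (2 ^ d * d) ⊕ Finset (Finset (Fin (2 ^ d * d)))

/-- Arcs. -/
def adj (d : ℕ) : W d → W d → Prop
  | Sum.inl _, Sum.inl _ => False
  | Sum.inl _, Sum.inr G => ∃ B, G = Finset.univ.erase B
  | Sum.inr F, Sum.inl a => F.card < d ∧ a ∈ cell d F
  | Sum.inr F, Sum.inr G => d ≤ F.card ∧ ∃ B ∈ F, G = F.erase B

theorem erase_inj {α : Type} [DecidableEq α] (F : Finset α) {B B' : α} (hB : B ∈ F)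
    (h : F.erase B = F.erase B') : B = B' := by
  by_contra hne
  have : B ∈ F.erase B' := Finset.mem_erase.2 ⟨hne, hB⟩
  rw [← h] at this
  exact (Finset.notMem_erase B F) this

theorem loopless (d : ℕ) (v : W d) : ¬ adj d v v := by
  rcases v with a | F
  · exact fun h => h
  · rintro ⟨_, B, hB, h⟩
    have : B ∈ F.erase B := h ▸ hB
    exact (Finset.notMem_erase B F) this

theorem outdeg (d : ℕ) (v : W d) : d ≤ {w : W d | adj d v w}.ncard := by
  classical
  rcases v with a | F
  · have hsub : (fun B : Finset (Fin (2 ^ d * d)) =>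
        (Sum.inr (Finset.univ.erase B) : W d)) '' Set.univ ⊆ {w : W d | adj d (Sum.inl a) w} := by
      rintro _ ⟨B, _, rfl⟩
      exact ⟨B, rfl⟩
    refine le_trans ?_ (Set.ncard_le_ncard hsub (Set.toFinite _))
    rw [Set.ncard_image_of_injective _ (fun B B' h =>
      erase_inj Finset.univ (Finset.mem_univ B) (Sum.inr_injective h)), Set.ncard_univ,
      Nat.card_eq_fintype_card, Fintype.card_finset, Fintype.card_fin]
    calc d ≤ 2 ^ d * d := Nat.le_mul_of_pos_left _ (by positivity)
      _ ≤ 2 ^ (2 ^ d * d) := Nat.lt_two_pow_self.le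
  · by_cases hF : F.card < d
    · have hsub : (fun a => (Sum.inl a : W d)) '' (cell d F : Set _) ⊆
          {w : W d | adj d (Sum.inr F) w} := by
        rintro _ ⟨a, ha, rfl⟩
        exact ⟨hF, ha⟩
      refine le_trans ?_ (Set.ncard_le_ncard hsub (Set.toFinite _))
      rw [Set.ncard_image_of_injective _ Sum.inl_injective, Set.ncard_coe_finset]
      exact (cell_spec d F hF).1
    · have hsub : (fun B => (Sum.inr (F.erase B) : W d)) '' (F : Set _) ⊆
          {w : W d | adj d (Sum.inr F) w} := by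
        rintro _ ⟨B, hB, rfl⟩
        exact ⟨not_lt.1 hF, B, hB, rfl⟩
      refine le_trans ?_ (Set.ncard_le_ncard hsub (Set.toFinite _))
      rw [Set.InjOn.ncard_image (fun B hB B' _ h =>
        erase_inj F hB (Sum.inr_injective h)), Set.ncard_coe_finset]
      exact not_lt.1 hF

theorem no_split (d : ℕ) (X : Set (W d))
    (h1 : ∀ y, y ∉ X → ∃ x ∈ X, adj d y x)
    (h2 : ∀ y, y ∉ X → ∃ u w, u ≠ w ∧ (u ∉ X ∧ adj d y u) ∧ (w ∉ X ∧ adj d y w)) :
    X = Set.univ := by
  classical
  set A' : Finset (Fin (2 ^ d * d)) := Finset.univ.filter (fun a => (Sum.inl a : W d) ∉ X)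
    with hA'
  have memA : ∀ a, a ∈ A' ↔ (Sum.inl a : W d) ∉ X := by
    intro a
    simp [hA']
  have key : ∀ (n : ℕ) (F : Finset (Finset (Fin (2 ^ d * d)))), F.card = n → A' ∈ F →
      (Sum.inr F : W d) ∈ X := by
    intro n
    induction n using Nat.strong_induction_on with
    | _ n ih =>
      intro F hn hAF
      by_contra hF
      by_cases hd : F.card < d
      · obtain ⟨x, hx, hax⟩ := h1 _ hF
        obtain ⟨u, _, _, ⟨hu, hau⟩, _⟩ := h2 _ hF
        rcases x with x | x
        · rcases u with u | u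
          · rcases (cell_spec d F hd).2 A' hAF with h | h
            · exact (memA x).1 (h x hax.2) hx
            · exact h u hau.2 ((memA u).2 hu)
          · exact absurd hau.1 (not_le.2 hd)
        · exact absurd hax.1 (not_le.2 hd)
      · obtain ⟨u, w, huw, ⟨hu, hau⟩, ⟨hw, haw⟩⟩ := h2 _ hF
        rcases u with u | u
        · exact hd hau.1
        rcases w with w | w
        · exact hd haw.1
        obtain ⟨_, B, hB, rfl⟩ := hau
        obtain ⟨_, B', hB', rfl⟩ := haw
        by_cases hBA : A' = B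
        · have hB'A : A' ≠ B' := by
            intro h
            apply huw
            rw [← hBA, ← h]
          exact hw (ih _ (hn ▸ Finset.card_erase_lt_of_mem hB') _ rfl
            (Finset.mem_erase.2 ⟨hB'A, hAF⟩))
        · exact hu (ih _ (hn ▸ Finset.card_erase_lt_of_mem hB) _ rfl
            (Finset.mem_erase.2 ⟨hBA, hAF⟩))
  have hpt : ∀ a, (Sum.inl a : W d) ∈ X := by
    intro a
    by_contra ha
    obtain ⟨u, w, huw, ⟨hu, hau⟩, ⟨hw, haw⟩⟩ := h2 _ ha
    rcases u with u | u
    · exact hau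
    rcases w with w | w
    · exact haw
    obtain ⟨B, rfl⟩ := hau
    obtain ⟨B', rfl⟩ := haw
    by_cases hBA : A' = B
    · have hB'A : A' ≠ B' := by
        intro h
        apply huw
        rw [← hBA, ← h]
      exact hw (key _ _ rfl (Finset.mem_erase.2 ⟨hB'A, Finset.mem_univ _⟩))
    · exact hu (key _ _ rfl (Finset.mem_erase.2 ⟨hBA, Finset.mem_univ _⟩))
  have hfam : ∀ (n : ℕ) (F : Finset (Finset (Fin (2 ^ d * d)))), F.card = n →
      (Sum.inr F : W d) ∈ X := by
    intro n
    induction n using Nat.strong_induction_on with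
    | _ n ih =>
      intro F hn
      by_contra hF
      obtain ⟨u, _, _, ⟨hu, hau⟩, _⟩ := h2 _ hF
      rcases u with u | u
      · exact hu (hpt u)
      · obtain ⟨_, B, hB, rfl⟩ := hau
        exact hu (ih _ (hn ▸ Finset.card_erase_lt_of_mem hB) _ rfl)
  ext v
  rcases v with a | F
  · simpa using hpt a
  · simpa using hfam _ F rfl

/-- The negation of the preceding statement: There is f such that for every k ≥ 1, every finite nonempty loopless digraph with minimum out-degree ≥ f(k) has a proper vertex subset X, with every vertex outside X having an out-neighbour in X, such that the digraph with X deleted has minimum out-degree ≥ k. -/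
theorem result :
    ¬ (∃ f : ℕ → ℕ, ∀ k : ℕ, 1 ≤ k →
      ∀ (V : Type) [Fintype V] [Nonempty V] (D : Digraph V),
        (∀ v, ¬ D.Adj v v) →
        (∀ v, f k ≤ {w : V | D.Adj v w}.ncard) →
        ∃ X : Set V, X ≠ Set.univ ∧
          (∀ y, y ∉ X → ∃ x ∈ X, D.Adj y x) ∧
          (∀ v, v ∉ X → k ≤ {w : V | w ∉ X ∧ D.Adj v w}.ncard)) := by
  rintro ⟨f, hf⟩
  have : Nonempty (W (f 2)) := ⟨Sum.inr ∅⟩
  obtain ⟨X, hX, h1, h2⟩ := hf 2 (by norm_num) (W (f 2)) ⟨adj (f 2)⟩ (loopless _) (outdeg _)
  refine hX (no_split _ X h1 fun y hy => ?_)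
  have h := h2 y hy
  obtain ⟨u, w, hu, hw, huw⟩ := (Set.one_lt_ncard_iff (Set.toFinite _)).1 h
  exact ⟨u, w, huw, hu, hw⟩

end Pool.Agent.S12466
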