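import Pool.Statements.S12482
import Pool.Agent.H22.FS6

set_option autoImplicit false
open Pool Pool.MP_f87a07_co

namespace Pool.Agent.S12482

/-- The negation of the preceding statement: There is a constant C such that for all n and all graphs X, Y on n vertices, any two bijections in the same component of the friends-and-strangers graph FS(X,Y) are at distance at most exp(C·n). -/
theorem result :
    ¬ (∃ C : ℝ, ∀ n : ℕ, ∀ X Y : SimpleGraph (Fin n), ∀ σ τ : Equiv.Perm (Fin n),
      (SimpleGraph.fromRel (fun s t : Equiv.Perm (Fin n) =>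
          ∃ a b : Fin n, X.Adj a b ∧ Y.Adj (s a) (s b) ∧ t = s * Equiv.swap a b)).Reachable σ τ →
      (((SimpleGraph.fromRel (fun s t : Equiv.Perm (Fin n) =>
          ∃ a b : Fin n, X.Adj a b ∧ Y.Adj (s a) (s b) ∧ t = s * Equiv.swap a b)).dist σ τ : ℕ) : ℝ)
        ≤ Real.exp (C * n)) := by
  exact Pool.Agent.H22.FS.main

end Pool.Agent.S12482
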