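import Pool.Statements.S12504
-- import your own Pool.Agent.* helpers here

set_option autoImplicit false
open Pool Pool.MP_f90e5e_co

namespace Pool.Agent.S12504

def f : Fin 3 → Fin 16 → Fin 16 := ![![1, 0, 3, 2, 5, 4, 7, 6, 9, 8, 11, 10, 13, 12, 15, 14], ![7, 2, 1, 4, 3, 6, 5, 0, 15, 10, 9, 12, 11, 14, 13, 8], ![4, 5, 6, 7, 0, 1, 2, 3, 12, 13, 14, 15, 8, 9, 10, 11]]
def u : Fin 3 → Fin 8 → Fin 16 := ![![0, 2, 4, 6, 8, 10, 12, 14], ![1, 3, 5, 7, 9, 11, 13, 15], ![0, 1, 2, 3, 8, 9, 10, 11]]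
def w : Fin 3 → Fin 8 → Fin 16 := ![![1, 3, 5, 7, 9, 11, 13, 15], ![2, 4, 6, 0, 10, 12, 14, 8], ![4, 5, 6, 7, 12, 13, 14, 15]]

theorem f_inv : ∀ i a, f i (f i a) = a := by decide +kernel
theorem f_ne : ∀ i a, f i a ≠ a := by decide +kernel
theorem f_disj : ∀ i j a, f i a = f j a → i = j := by decide +kernel
theorem f_uw : ∀ i k, f i (u i k) = w i k := by decide +kernel
theorem f_cov : ∀ i a, ∃ k, a = u i k ∨ a = w i k := by decide +kernel
theorem uw_inj : ∀ i k l, ((u i k = u i l ∧ w i k = w i l) ∨ (u i k = w i l ∧ w i k = u i l)) → k = l := by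
  decide +kernel

def MM (i : Fin 3) : (⊤ : SimpleGraph (Fin 16)).Subgraph where
  verts := Set.univ
  Adj a b := f i a = b
  adj_sub := by
    intro a b h
    simp only [SimpleGraph.top_adj]
    rw [← h]; exact (f_ne i a).symm
  edge_vert := fun _ => Set.mem_univ _
  symm := ⟨by intro a b h; rw [← h]; exact f_inv i a⟩

theorem MM_pm (i : Fin 3) : (MM i).IsPerfectMatching := by
  refine ⟨?_, fun v => Set.mem_univ v⟩
  intro v _
  exact ⟨f i v, rfl, fun y hy => Eq.symm hy⟩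

theorem MM_disj (i j : Fin 3) (h : i ≠ j) : Disjoint (MM i).edgeSet (MM j).edgeSet := by
  rw [Set.disjoint_left]
  intro e
  induction e using Sym2.ind with
  | _ a b =>
    intro h1 h2
    rw [SimpleGraph.Subgraph.mem_edgeSet] at h1 h2
    exact h (f_disj i j a (Eq.trans h1 (Eq.symm h2)))

def G : SimpleGraph (Fin 16) where
  Adj a b := f 0 a = b ∨ f 1 a = b ∨ f 2 a = b
  symm := ⟨by
    intro a b h
    rcases h with h | h | h
    · left; rw [← h]; exact f_inv _ a
    · right; left; rw [← h]; exact f_inv _ a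
    · right; right; rw [← h]; exact f_inv _ a⟩
  loopless := ⟨by
    intro a h
    rcases h with h | h | h <;> exact f_ne _ a h⟩

theorem G_edges : G.edgeSet = (MM 0).edgeSet ∪ (MM 1).edgeSet ∪ (MM 2).edgeSet := by
  ext e
  induction e using Sym2.ind with
  | _ a b =>
    simp only [Set.mem_union, SimpleGraph.Subgraph.mem_edgeSet, SimpleGraph.mem_edgeSet]
    exact or_assoc.symm

theorem G_comp : ∃ c : G.ConnectedComponent,
    IsEmpty (G.induce c.supp ≃g (⊤ : SimpleGraph (Fin 4))) := by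
  refine ⟨G.connectedComponentMk 0, ⟨fun φ => ?_⟩⟩
  have h0 : (0 : Fin 16) ∈ (G.connectedComponentMk 0).supp := by
    rw [SimpleGraph.ConnectedComponent.mem_supp_iff]
  have h01 : G.Adj 1 0 := Or.inl (by decide +kernel)
  have h12 : G.Adj 2 1 := Or.inr (Or.inl (by decide +kernel))
  have h2 : (2 : Fin 16) ∈ (G.connectedComponentMk 0).supp := by
    rw [SimpleGraph.ConnectedComponent.mem_supp_iff, SimpleGraph.ConnectedComponent.eq]
    exact h12.reachable.trans h01.reachable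
  have hne : φ ⟨0, h0⟩ ≠ φ ⟨2, h2⟩ := by
    intro h
    have := φ.injective h
    simp at this
  have hadj : (G.induce (G.connectedComponentMk 0).supp).Adj ⟨0, h0⟩ ⟨2, h2⟩ := by
    rw [← φ.map_adj_iff]; exact hne
  have : G.Adj 0 2 := hadj
  revert this
  unfold G
  decide +kernel

open Classical in
theorem count (M : G.Subgraph) (i : Fin 3) :
    (M.edgeSet ∩ (MM i).edgeSet).ncard =
      ∑ k : Fin 8, (decide (M.Adj (u i k) (w i k))).toNat := by
  have hs : M.edgeSet ∩ (MM i).edgeSet =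
      ↑((Finset.univ.filter (fun k : Fin 8 => M.Adj (u i k) (w i k))).image
        (fun k => s(u i k, w i k))) := by
    ext e
    induction e using Sym2.ind with
    | _ a b =>
      simp only [Set.mem_inter_iff, SimpleGraph.Subgraph.mem_edgeSet, Finset.coe_image,
        Set.mem_image, Finset.mem_coe, Finset.mem_filter, Finset.mem_univ, true_and]
      constructor
      · rintro ⟨h1, h2⟩
        have h2' : f i a = b := h2
        obtain ⟨k, hk | hk⟩ := f_cov i a
        · have hb : b = w i k := by rw [← h2', hk, f_uw]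
          exact ⟨k, by rw [← hk, ← hb]; exact h1, by rw [hk, hb]⟩
        · have hb : b = u i k := by rw [← h2', hk, ← f_uw, f_inv]
          exact ⟨k, by rw [← hk, ← hb]; exact h1.symm, by rw [hk, hb, Sym2.eq_swap]⟩
      · rintro ⟨k, h1, h2⟩
        rw [Sym2.eq_iff] at h2
        rcases h2 with ⟨ha, hb⟩ | ⟨ha, hb⟩
        · subst ha hb
          exact ⟨h1, f_uw i k⟩
        · subst ha hb
          refine ⟨h1.symm, ?_⟩
          show f i (w i k) = u i k
          rw [← f_uw, f_inv]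
  rw [hs, Set.ncard_coe_finset, Finset.card_image_of_injective, Finset.card_filter]
  · refine Finset.sum_congr rfl fun k _ => ?_
    by_cases h : M.Adj (u i k) (w i k) <;> simp [h]
  · intro k l h
    exact uw_inj i k l (Sym2.eq_iff.1 h)

set_option synthInstance.maxSize 4000 in
theorem comp : ∀ (a0 a1 a2 a3 b0 b1 b2 b3 c0 c1 c2 c3 : Bool),
    (¬ (a0 = true ∧ b3 = true)) → (¬ (a0 = true ∧ c0 = true)) → (¬ (b3 = true ∧ c0 = true)) → (¬ (a0 = true ∧ b0 = true)) → (¬ (a0 = true ∧ c1 = true)) → (¬ (b0 = true ∧ c1 = true)) → (¬ (a1 = true ∧ b0 = true)) → (¬ (a1 = true ∧ c2 = true)) → (¬ (b0 = true ∧ c2 = true)) → (¬ (a1 = true ∧ b1 = true)) → (¬ (a1 = true ∧ c3 = true)) → (¬ (b1 = true ∧ c3 = true)) → (¬ (a2 = true ∧ b1 = true)) → (¬ (a2 = true ∧ c0 = true)) → (¬ (b1 = true ∧ c0 = true)) → (¬ (a2 = true ∧ b2 = true)) → (¬ (a2 = true ∧ c1 = true)) → (¬ (b2 = true ∧ c1 = true)) → (¬ (a3 = true ∧ b2 = true)) → (¬ (a3 = true ∧ c2 = true)) → (¬ (b2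 = true ∧ c2 = true)) → (¬ (a3 = true ∧ b3 = true)) → (¬ (a3 = true ∧ c3 = true)) → (¬ (b3 = true ∧ c3 = true)) →
    (a0.toNat + a1.toNat + a2.toNat + a3.toNat + (b0.toNat + b1.toNat + b2.toNat + b3.toNat) +
      (c0.toNat + c1.toNat + c2.toNat + c3.toNat) ≤ 3 ∨
    a0.toNat + a1.toNat + a2.toNat + a3.toNat = 4 ∨ b0.toNat + b1.toNat + b2.toNat + b3.toNat = 4 ∨
    2 ≤ c0.toNat + c1.toNat + c2.toNat + c3.toNat) := by
  decide +kernel

theorem share : ∀ (i j : Fin 3) (k l : Fin 8), i ≠ j →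
    (u i k = u j l → w i k ≠ w j l) ∧ (u i k = w j l → w i k ≠ u j l) ∧
    (w i k = u j l → u i k ≠ w j l) ∧ (w i k = w j l → u i k ≠ u j l) := by
  decide +kernel

open Classical in
theorem excl (M : G.Subgraph) (hM : M.IsMatching) (i j : Fin 3) (k l : Fin 8)
    (h : i ≠ j ∧ (u i k = u j l ∨ u i k = w j l ∨ w i k = u j l ∨ w i k = w j l)) :
    ¬ (decide (M.Adj (u i k) (w i k)) = true ∧ decide (M.Adj (u j l) (w j l)) = true) := by
  rintro ⟨h1, h2⟩
  rw [decide_eq_true_eq] at h1 h2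
  have key : ∀ a b c, M.Adj a b → M.Adj a c → b = c := fun a b c hb hc =>
    (hM (M.edge_vert hb)).unique hb hc
  obtain ⟨s1, s2, s3, s4⟩ := share i j k l h.1
  rcases h.2 with h' | h' | h' | h'
  · exact s1 h' (key _ _ _ h1 (h' ▸ h2))
  · exact s2 h' (key _ _ _ h1 (h' ▸ h2.symm))
  · exact s3 h' (key _ _ _ h1.symm (h' ▸ h2))
  · exact s4 h' (key _ _ _ h1.symm (h' ▸ h2.symm))

/-- The negation of the preceding statement: If a graph on 2n vertices is the union of three edge-disjoint perfect matchings and has a component not isomorphic to K4, then for all a1+a2+a3=n-1 it has a matching using exactly ai edges from the i-th matching. -/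
theorem result :
    ¬ (∀ (V : Type) [Fintype V] (n : ℕ), Fintype.card V = 2 * n →
    ∀ (M₁ M₂ M₃ : (⊤ : SimpleGraph V).Subgraph),
      M₁.IsPerfectMatching → M₂.IsPerfectMatching → M₃.IsPerfectMatching →
      Disjoint M₁.edgeSet M₂.edgeSet → Disjoint M₁.edgeSet M₃.edgeSet →
      Disjoint M₂.edgeSet M₃.edgeSet →
      ∀ G : SimpleGraph V, G.edgeSet = M₁.edgeSet ∪ M₂.edgeSet ∪ M₃.edgeSet →
      (∃ c : G.ConnectedComponent,
        IsEmpty (G.induce c.supp ≃g (⊤ : SimpleGraph (Fin 4)))) →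
      ∀ a₁ a₂ a₃ : ℕ, a₁ + a₂ + a₃ + 1 = n →
      ∃ M : G.Subgraph, M.IsMatching ∧
        (M.edgeSet ∩ M₁.edgeSet).ncard = a₁ ∧
        (M.edgeSet ∩ M₂.edgeSet).ncard = a₂ ∧
        (M.edgeSet ∩ M₃.edgeSet).ncard = a₃) := by
  classical
  intro H
  obtain ⟨M, hM, h1, h2, h3⟩ := H (Fin 16) 8 (by simp) (MM 0) (MM 1) (MM 2) (MM_pm 0) (MM_pm 1) (MM_pm 2)
    (MM_disj 0 1 (by decide)) (MM_disj 0 2 (by decide)) (MM_disj 1 2 (by decide)) G G_edges G_comp
    3 3 1 rfl
  rw [count, Fin.sum_univ_eight] at h1 h2 h3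
  have c1 := comp (decide (M.Adj (u 0 0) (w 0 0))) (decide (M.Adj (u 0 1) (w 0 1))) (decide (M.Adj (u 0 2) (w 0 2))) (decide (M.Adj (u 0 3) (w 0 3))) (decide (M.Adj (u 1 0) (w 1 0))) (decide (M.Adj (u 1 1) (w 1 1))) (decide (M.Adj (u 1 2) (w 1 2))) (decide (M.Adj (u 1 3) (w 1 3))) (decide (M.Adj (u 2 0) (w 2 0))) (decide (M.Adj (u 2 1) (w 2 1))) (decide (M.Adj (u 2 2) (w 2 2))) (decide (M.Adj (u 2 3) (w 2 3)))
    (excl M hM 0 1 0 3 (by decide +kernel))
    (excl M hM 0 2 0 0 (by decide +kernel))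
    (excl M hM 1 2 3 0 (by decide +kernel))
    (excl M hM 0 1 0 0 (by decide +kernel))
    (excl M hM 0 2 0 1 (by decide +kernel))
    (excl M hM 1 2 0 1 (by decide +kernel))
    (excl M hM 0 1 1 0 (by decide +kernel))
    (excl M hM 0 2 1 2 (by decide +kernel))
    (excl M hM 1 2 0 2 (by decide +kernel))
    (excl M hM 0 1 1 1 (by decide +kernel))
    (excl M hM 0 2 1 3 (by decide +kernel))
    (excl M hM 1 2 1 3 (by decide +kernel))
    (excl M hM 0 1 2 1 (by decide +kernel))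
    (excl M hM 0 2 2 0 (by decide +kernel))
    (excl M hM 1 2 1 0 (by decide +kernel))
    (excl M hM 0 1 2 2 (by decide +kernel))
    (excl M hM 0 2 2 1 (by decide +kernel))
    (excl M hM 1 2 2 1 (by decide +kernel))
    (excl M hM 0 1 3 2 (by decide +kernel))
    (excl M hM 0 2 3 2 (by decide +kernel))
    (excl M hM 1 2 2 2 (by decide +kernel))
    (excl M hM 0 1 3 3 (by decide +kernel))
    (excl M hM 0 2 3 3 (by decide +kernel))
    (excl M hM 1 2 3 3 (by decide +kernel))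
  have c2 := comp (decide (M.Adj (u 0 4) (w 0 4))) (decide (M.Adj (u 0 5) (w 0 5))) (decide (M.Adj (u 0 6) (w 0 6))) (decide (M.Adj (u 0 7) (w 0 7))) (decide (M.Adj (u 1 4) (w 1 4))) (decide (M.Adj (u 1 5) (w 1 5))) (decide (M.Adj (u 1 6) (w 1 6))) (decide (M.Adj (u 1 7) (w 1 7))) (decide (M.Adj (u 2 4) (w 2 4))) (decide (M.Adj (u 2 5) (w 2 5))) (decide (M.Adj (u 2 6) (w 2 6))) (decide (M.Adj (u 2 7) (w 2 7)))
    (excl M hM 0 1 4 7 (by decide +kernel))
    (excl M hM 0 2 4 4 (by decide +kernel))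
    (excl M hM 1 2 7 4 (by decide +kernel))
    (excl M hM 0 1 4 4 (by decide +kernel))
    (excl M hM 0 2 4 5 (by decide +kernel))
    (excl M hM 1 2 4 5 (by decide +kernel))
    (excl M hM 0 1 5 4 (by decide +kernel))
    (excl M hM 0 2 5 6 (by decide +kernel))
    (excl M hM 1 2 4 6 (by decide +kernel))
    (excl M hM 0 1 5 5 (by decide +kernel))
    (excl M hM 0 2 5 7 (by decide +kernel))
    (excl M hM 1 2 5 7 (by decide +kernel))
    (excl M hM 0 1 6 5 (by decide +kernel))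
    (excl M hM 0 2 6 4 (by decide +kernel))
    (excl M hM 1 2 5 4 (by decide +kernel))
    (excl M hM 0 1 6 6 (by decide +kernel))
    (excl M hM 0 2 6 5 (by decide +kernel))
    (excl M hM 1 2 6 5 (by decide +kernel))
    (excl M hM 0 1 7 6 (by decide +kernel))
    (excl M hM 0 2 7 6 (by decide +kernel))
    (excl M hM 1 2 6 6 (by decide +kernel))
    (excl M hM 0 1 7 7 (by decide +kernel))
    (excl M hM 0 2 7 7 (by decide +kernel))
    (excl M hM 1 2 7 7 (by decide +kernel))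
  omega

end Pool.Agent.S12504
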