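import Pool.Statements.S12511
import Pool.Agent.H6.Parallelotope

set_option autoImplicit false
open Pool Pool.MP_f96441_co

namespace Pool.Agent.S12511

/-- For all sufficiently large d, a residual (Baire-generic, Hausdorff metric) set of convex bodies in ℝ^d has no non-degenerate d-parallelotope whose 2^d vertices all lie on the body's boundary. -/
theorem result :
    ∃ d₀ : ℕ, ∀ d : ℕ, d₀ ≤ d →
      {K : ConvexBody (EuclideanSpace ℝ (Fin d)) |
        ¬ ∃ (x : EuclideanSpace ℝ (Fin d)) (v : Fin d → EuclideanSpace ℝ (Fin d)),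
          LinearIndependent ℝ v ∧
          ∀ s : Finset (Fin d),
            x + ∑ i ∈ s, v i ∈ frontier (K : Set (EuclideanSpace ℝ (Fin d)))}
        ∈ residual (ConvexBody (EuclideanSpace ℝ (Fin d))) := by
  refine ⟨5, fun d hd => ?_⟩
  let V : Finset (Fin d) → (EuclideanSpace ℝ (Fin d) × (Fin d → EuclideanSpace ℝ (Fin d))) →L[ℝ]
      EuclideanSpace ℝ (Fin d) := fun s =>
    ContinuousLinearMap.fst ℝ _ _ +
      ∑ i ∈ s, (ContinuousLinearMap.proj i).comp (ContinuousLinearMap.snd ℝ _ _)
  have hV : ∀ s θ, V s θ = θ.1 + ∑ i ∈ s, θ.2 i := by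
    intro s θ
    simp [V]
  have h := Pool.Agent.H6.Parallelotope.main (by
    have := Pool.Agent.H6.Parallelotope.two_pow d hd
    simpa [Module.finrank_prod, Module.finrank_pi_fintype] using this) V
  refine Filter.mem_of_superset h ?_
  rintro K hK ⟨x, v, hv, hfr⟩
  refine hK ⟨(x, v), fun s t e => ?_, fun s => by rw [hV]; exact hfr s⟩
  simp only [hV, add_right_inj] at e
  have h1 : ∑ i, ((if i ∈ s then (1 : ℝ) else 0) - (if i ∈ t then (1 : ℝ) else 0)) • v i = 0 := by
    simp only [sub_smul, Finset.sum_sub_distrib, ite_smul, one_smul, zero_smul,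
      Finset.sum_ite_mem, Finset.univ_inter]
    rw [e, sub_self]
  have h2 := Fintype.linearIndependent_iff.1 hv _ h1
  ext i
  have := h2 i
  by_cases a : i ∈ s <;> by_cases b : i ∈ t <;> simp_all

end Pool.Agent.S12511
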