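import Pool.Statements.S12514
import Pool.Agent.H3.Layer

set_option autoImplicit false
open Pool Pool.MP_f96bdb_co

namespace Pool.Agent.S12514

open Pool.Agent.H3.Layer Pool.Agent.H3.PST

/-- The negation of the preceding statement: There are k > 3 and c > 0 such that every finite connected graph with perfect state transfer between two distinct vertices (exp(itA)e_u = γe_v, ∣γ∣=1) has edge count at least c·D^k, D its diameter. -/
theorem result :
    ¬ (∃ k : ℝ, 3 < k ∧ ∃ c : ℝ, 0 < c ∧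
      ∀ (V : Type) [Fintype V] [DecidableEq V] (G : SimpleGraph V) [DecidableRel G.Adj],
        G.Connected →
        (∃ u v : V, u ≠ v ∧ ∃ t : ℝ, ∃ γ : ℂ, ‖γ‖ = 1 ∧
          (NormedSpace.exp ((Complex.I * (t : ℂ)) • G.adjMatrix ℂ)).mulVec (Pi.single u 1)
            = Pi.single v γ) →
        c * (G.diam : ℝ) ^ k ≤ (G.edgeFinset.card : ℝ)) := by
  rintro ⟨k, hk, c, hc, H⟩
  have ht : Filter.Tendsto (fun N : ℕ => ((N + 1 : ℕ) : ℝ) ^ (k - 3)) Filter.atTop
      Filter.atTop := by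
    apply (tendsto_rpow_atTop (by linarith)).comp
    apply tendsto_natCast_atTop_atTop.comp
    exact Filter.tendsto_add_atTop_nat 1
  obtain ⟨N, hN⟩ := (ht.eventually_gt_atTop (1152 / c)).exists
  have h := H (V (N + 1)) (G (N + 1)) (connected N) ⟨u N, v N, u_ne_v N, Real.pi / 2, 1, norm_one,
    pst N _ (by
      rw [show Complex.I * ((Real.pi / 2 : ℝ) : ℂ) * 2 = Real.pi * Complex.I by
        push_cast; ring, Complex.exp_pi_mul_I])⟩
  have hd : 2 * N + 1 ≤ (G (N + 1)).diam := by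
    have := le_diam _ (connected N) (fun a => (a.1.1 : ℕ)) (fun a b h => lip _ _ _ h)
      (c0 N) (top N)
    simpa [c0, top] using this
  have hd' : ((N + 1 : ℕ) : ℝ) ≤ (G (N + 1)).diam := by exact_mod_cast (by omega)
  have hpos : (0 : ℝ) < ((N + 1 : ℕ) : ℝ) := by positivity
  have h1 : ((N + 1 : ℕ) : ℝ) ^ k ≤ ((G (N + 1)).diam : ℝ) ^ k :=
    Real.rpow_le_rpow hpos.le hd' (by linarith)
  have h2 : ((G (N + 1)).edgeFinset.card : ℝ) ≤ 1152 * ((N + 1 : ℕ) : ℝ) ^ 3 := by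
    exact_mod_cast edges_le (N + 1)
  have h3 : ((N + 1 : ℕ) : ℝ) ^ k = ((N + 1 : ℕ) : ℝ) ^ (k - 3) * ((N + 1 : ℕ) : ℝ) ^ 3 := by
    rw [← Real.rpow_natCast _ 3, ← Real.rpow_add hpos]
    norm_num
  rw [div_lt_iff₀ hc] at hN
  have h4 : (0 : ℝ) < ((N + 1 : ℕ) : ℝ) ^ 3 := by positivity
  have h5 := mul_lt_mul_of_pos_right hN h4
  have h6 := mul_le_mul_of_nonneg_left h1 hc.le
  rw [h3] at h6
  nlinarith

end Pool.Agent.S12514
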