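import Pool.Statements.S12526
import Pool.Agent.H24.IR

set_option autoImplicit false
open Pool Pool.MP_fa3e6d_co

namespace Pool.Agent.S12526

open Pool.Agent.H24.IR

def mask : Fin 9 → ℕ := ![480, 472, 440, 336, 160, 192, 256, 0, 0]

/-- edges: 0-5 0-6 0-7 0-8 1-3 1-4 1-6 1-7 1-8 2-3 2-4 2-5 2-7 2-8 3-4 3-6 3-8 4-5 4-7 5-6 5-7 6-8 -/
def G : SimpleGraph (Fin 9) := ofB fun a b => (mask a).testBit b.val

instance : DecidableRel G.Adj := by unfold G; infer_instance

def X : Fin 7 → Finset (Fin 9) := ![{1, 3, 6}, {1, 6, 8}, {0, 1, 8}, {0, 1, 2}, {0, 2, 7}, {2, 5, 7}, {2, 4, 5}]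

theorem X_inj : Function.Injective X := by decide +kernel

theorem X_irr : ∀ i, Irredundant G (X i) ∧ (X i).card = 3 := by decide +kernel

theorem X_all : ∀ S, Irredundant G S → S.card ≤ 3 ∧ (S.card = 3 → ∃ i, S = X i) :=
  hall_three G X (by decide +kernel) (by decide +kernel)

theorem X_adj : ∀ i j : Fin 7, (X i ≠ X j ∧
    ((∃ v ∈ X i, ∃ v' ∈ X j, G.Adj v v' ∧ X j = insert v' ((X i).erase v)) ∨
     (∃ v ∈ X j, ∃ v' ∈ X i, G.Adj v v' ∧ X i = insert v' ((X j).erase v)))) ↔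
    (i.val + 1 = j.val ∨ j.val + 1 = i.val) := by decide +kernel

/-- The negation of the preceding statement: For every finite graph G, its slide IR-graph (maximum irredundant sets, adjacent when one is obtained from the other by sliding a vertex along an edge) is not isomorphic to any path on n≥3 vertices nor any cycle on n≥5 vertices. -/
theorem result :
    ¬ (∀ (m : ℕ) (G : SimpleGraph (Fin m)),
      (∀ n : ℕ, 3 ≤ n →
        IsEmpty (SimpleGraph.pathGraph n ≃g
          SimpleGraph.fromRel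
            (fun D D' : {S : Finset (Fin m) //
                (∀ v ∈ S, ∃ w, (w = v ∨ G.Adj v w) ∧ ∀ u ∈ S, u ≠ v → ¬ (w = u ∨ G.Adj u w)) ∧
                ∀ T : Finset (Fin m),
                  (∀ v ∈ T, ∃ w, (w = v ∨ G.Adj v w) ∧ ∀ u ∈ T, u ≠ v → ¬ (w = u ∨ G.Adj u w)) →
                  T.card ≤ S.card} =>
              ∃ v ∈ D.1, ∃ v' ∈ D'.1, G.Adj v v' ∧ D'.1 = insert v' (D.1.erase v)))) ∧
      (∀ n : ℕ, 5 ≤ n →
        IsEmpty (SimpleGraph.cycleGraph n ≃g
          SimpleGraph.fromRel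
            (fun D D' : {S : Finset (Fin m) //
                (∀ v ∈ S, ∃ w, (w = v ∨ G.Adj v w) ∧ ∀ u ∈ S, u ≠ v → ¬ (w = u ∨ G.Adj u w)) ∧
                ∀ T : Finset (Fin m),
                  (∀ v ∈ T, ∃ w, (w = v ∨ G.Adj v w) ∧ ∀ u ∈ T, u ≠ v → ¬ (w = u ∨ G.Adj u w)) →
                  T.card ≤ S.card} =>
              ∃ v ∈ D.1, ∃ v' ∈ D'.1, G.Adj v v' ∧ D'.1 = insert v' (D.1.erase v))))) := by
  intro H
  obtain ⟨e, he⟩ := equiv_of (Irredundant G) X X_inj X_irr X_all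
  refine ((H 9 G).1 7 (by norm_num)).false ⟨e, ?_⟩
  intro i j
  rw [SimpleGraph.fromRel_adj, SimpleGraph.pathGraph_adj, ← X_adj, ← he, ← he]
  exact and_congr_left' (not_congr Subtype.ext_iff)

end Pool.Agent.S12526
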