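import Pool.Statements.S12528
import Pool.Agent.H35.WpF

set_option autoImplicit false
open Pool Pool.MP_fa5b42_co

namespace Pool.Agent.S12528

theorem result :
    ¬ (∀ P : Set (EuclideanSpace ℝ (Fin 2)),
      Nonempty (P ≃ₜ Metric.closedBall (0 : EuclideanSpace ℝ (Fin 2)) 1) →
      (∃ s : Finset (EuclideanSpace ℝ (Fin 2) × EuclideanSpace ℝ (Fin 2)),
        frontier P ⊆ ⋃ p ∈ s, segment ℝ p.1 p.2) →
      (∃ 𝒯 : Fin 14 → Set (Set (EuclideanSpace ℝ (Fin 2))),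
        (∀ i,
          (∀ A ∈ 𝒯 i, ∃ g : EuclideanSpace ℝ (Fin 2) ≃ᵢ EuclideanSpace ℝ (Fin 2),
              A = (⇑g) '' P) ∧
          ⋃₀ (𝒯 i) = Set.univ ∧
          (𝒯 i).Pairwise (fun A B => Disjoint (interior A) (interior B)) ∧
          (∃ u v : EuclideanSpace ℝ (Fin 2),
            LinearIndependent ℝ ![u, v] ∧
            (fun A : Set (EuclideanSpace ℝ (Fin 2)) =>
                (fun x : EuclideanSpace ℝ (Fin 2) => x + u) '' A) '' (𝒯 i) = 𝒯 i ∧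
            (fun A : Set (EuclideanSpace ℝ (Fin 2)) =>
                (fun x : EuclideanSpace ℝ (Fin 2) => x + v) '' A) '' (𝒯 i) = 𝒯 i)) ∧
        (∀ i j, i ≠ j →
          ¬ ∃ φ : (EuclideanSpace ℝ (Fin 2) ≃ᵢ EuclideanSpace ℝ (Fin 2)) →
                (EuclideanSpace ℝ (Fin 2) ≃ᵢ EuclideanSpace ℝ (Fin 2)),
              Set.BijOn φ
                {g : EuclideanSpace ℝ (Fin 2) ≃ᵢ EuclideanSpace ℝ (Fin 2) |
                  (fun A : Set (EuclideanSpace ℝ (Fin 2)) => (⇑g) '' A) '' (𝒯 i) = 𝒯 i}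
                {g : EuclideanSpace ℝ (Fin 2) ≃ᵢ EuclideanSpace ℝ (Fin 2) |
                  (fun A : Set (EuclideanSpace ℝ (Fin 2)) => (⇑g) '' A) '' (𝒯 j) = 𝒯 j} ∧
              ∀ g ∈ {g : EuclideanSpace ℝ (Fin 2) ≃ᵢ EuclideanSpace ℝ (Fin 2) |
                  (fun A : Set (EuclideanSpace ℝ (Fin 2)) => (⇑g) '' A) '' (𝒯 i) = 𝒯 i},
              ∀ h ∈ {g : EuclideanSpace ℝ (Fin 2) ≃ᵢ EuclideanSpace ℝ (Fin 2) |
                  (fun A : Set (EuclideanSpace ℝ (Fin 2)) => (⇑g) '' A) '' (𝒯 i) = 𝒯 i},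
              φ (g * h) = φ g * φ h)) →
      ∃ a b c : EuclideanSpace ℝ (Fin 2),
        P = convexHull ℝ {a, b, c} ∧
        EuclideanGeometry.angle b a c = Real.pi / 6 ∧
        EuclideanGeometry.angle a b c = Real.pi / 3 ∧
        EuclideanGeometry.angle a c b = Real.pi / 2) := by
  intro H
  open Pool.Agent.H35.Wp in
  obtain ⟨a, b, c, h, -⟩ := H (Tile (1, 1)) P_ball P_front
    ⟨fun i => Til (CC (NN i) (tb i)), fun i => ⟨by
      rintro A ⟨m, hm, rfl⟩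
      obtain ⟨g, p, -, -, e⟩ := tile_cong ((good i).od m hm)
      exact ⟨g, e⟩, cover (good i), disj (good i), pt (NN i : ℤ) (0 : ℤ), pt (0 : ℤ) (NN i : ℤ),
      lin_ind _ (per i).2.2, transl (good i) _ _ (per i).1, transl (good i) _ _ (per i).2.1⟩,
    fun i j hij ⟨φ, hb, hm⟩ => noniso i j hij φ hb hm⟩
  exact Pool.Agent.H35.Wp.P_not_tri a b c h

end Pool.Agent.S12528
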