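import Pool.Statements.S12545
import Pool.Agent.H8.DiscMain

set_option autoImplicit false
open Pool Pool.MP_fac573_co

namespace Pool.Agent.S12545

/-- For 1 ≤ t < √3 and any nonempty finite set of plane points with pairwise distances at most t, the perimeter of the intersection of the unit disks centred at them is at least 2π − 6·arcsin(t/2). -/
theorem result :
    ∀ t : ℝ, 1 ≤ t → t < Real.sqrt 3 →
      ∀ C : Finset (EuclideanSpace ℝ (Fin 2)), C.Nonempty →
        (∀ x ∈ C, ∀ y ∈ C, dist x y ≤ t) →
          ENNReal.ofReal (2 * Real.pi - 6 * Real.arcsin (t / 2)) ≤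
            MeasureTheory.Measure.hausdorffMeasure (1 : ℝ)
              (frontier (⋂ c ∈ C, Metric.closedBall c (1 : ℝ))) := by
  exact Pool.Agent.H8.Disc.final

end Pool.Agent.S12545
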