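import Pool.Statements.S12603
import Pool.Agent.H26.SandsRival

set_option autoImplicit false
open Pool Pool.MP_fd2cdc_co

namespace Pool.Agent.S12603

/-- Every infinite poset with a uniform bound on chain sizes has an infinite antichain H such that each element is comparable to no element of H, exactly one element of H, or infinitely many elements of H. -/
theorem result :
    ∀ (P : Type) [PartialOrder P], Infinite P →
      (∃ n : ℕ, ∀ s : Set P, IsChain (· ≤ ·) s → s.encard ≤ (n : ℕ∞)) →
      ∃ H : Set P, H.Infinite ∧ IsAntichain (· ≤ ·) H ∧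
        ∀ x : P,
          ({h | h ∈ H ∧ (x ≤ h ∨ h ≤ x)}.encard = 0 ∨
           {h | h ∈ H ∧ (x ≤ h ∨ h ≤ x)}.encard = 1 ∨
           {h | h ∈ H ∧ (x ≤ h ∨ h ≤ x)}.Infinite) := by
  intro P _ hP hb
  obtain ⟨h1, h2⟩ := H26.SandsRival.wf_of_bound hb
  obtain ⟨H, h3, h4, h5⟩ := H26.SandsRival.main (P := P)
  refine ⟨H, h3, h4, fun x => ?_⟩
  rcases h5 x with h | h
  · rcases h.eq_empty_or_singleton with h' | ⟨a, h'⟩
    · exact Or.inl (Set.encard_eq_zero.2 h')
    · exact Or.inr (Or.inl (Set.encard_eq_one.2 ⟨a, h'⟩))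
  · exact Or.inr (Or.inr h)

end Pool.Agent.S12603
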