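import Pool.Statements.S12612
-- import your own Pool.Agent.* helpers here

set_option autoImplicit false
open Pool Pool.MP_fd6c89_co

namespace Pool.Agent.S12612
open Finset

theorem weak_sidon (S : Finset ℕ) (hc : S.card = 40) (hb : ∀ s ∈ S, s < 820)
    (hS : ∀ a ∈ S, ∀ b ∈ S, ∀ c ∈ S, ∀ d ∈ S, a < b → c < d → a + b = c + d → a = c) : False := by
  let A : ℕ → ℕ := fun u => ∑ s ∈ S, if s ≤ u ∧ u < s + 240 then 1 else 0
  have h1 : ∑ u ∈ range 1060, A u = 9600 := by
    simp only [A]
    rw [Finset.sum_comm, Finset.sum_congr rfl (g := fun _ => 240)]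
    · simp [hc]
    · intro s hs
      have := hb s hs
      rw [← Finset.card_filter]
      have : (range 1060).filter (fun u => s ≤ u ∧ u < s + 240) = Ico s (s + 240) := by
        ext u; simp; omega
      rw [this]; simp
  have h2 : ∑ u ∈ range 1060, A u ^ 2 ≤ ∑ p ∈ S ×ˢ S, (240 - Nat.dist p.1 p.2) := by
    simp only [A, sq, Finset.sum_mul_sum]
    rw [Finset.sum_comm, Finset.sum_product]
    apply Finset.sum_le_sum
    intro s _
    rw [Finset.sum_comm]
    apply Finset.sum_le_sum
    intro s' _
    simp only [ite_mul, one_mul, zero_mul, ← ite_and]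
    rw [← Finset.card_filter]
    have : (range 1060).filter (fun u => (s ≤ u ∧ u < s + 240) ∧ s' ≤ u ∧ u < s' + 240) ⊆
        Ico (max s s') (min s s' + 240) := by
      intro u; simp only [mem_filter, mem_Ico, mem_range]; omega
    refine (card_le_card this).trans ?_
    rw [Nat.card_Ico, Nat.dist]
    omega
  let P := (S ×ˢ S).filter fun p => p.1 < p.2
  have h3 : ∑ p ∈ P, (240 - Nat.dist p.1 p.2) ≤ 38280 := by
    rw [← Finset.sum_filter_add_sum_filter_not P (fun p => 2 * p.2 - p.1 ∈ S)]
    have a1 : ∑ p ∈ P.filter (fun p => 2 * p.2 - p.1 ∈ S), (240 - Nat.dist p.1 p.2) ≤ 9600 := by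
      have b1 : (P.filter (fun p => 2 * p.2 - p.1 ∈ S)).card ≤ S.card := by
        apply Finset.card_le_card_of_injOn (fun p => p.2)
        · intro p hp
          simp only [P, coe_filter, mem_filter, mem_product, Set.mem_ofPred_eq] at hp
          exact hp.1.1.2
        · intro p hp q hq e
          simp only [P, coe_filter, mem_filter, mem_product, Set.mem_ofPred_eq] at hp hq e
          refine Prod.ext ?_ e
          exact hS _ hp.1.1.1 _ hp.2 _ hq.1.1.1 _ hq.2 (by omega) (by omega) (by omega)
      refine le_trans (Finset.sum_le_card_nsmul _ _ 240 fun p _ => Nat.sub_le _ _) ?_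
      rw [smul_eq_mul]; omega
    have a2 : ∑ p ∈ P.filter (fun p => ¬ 2 * p.2 - p.1 ∈ S), (240 - Nat.dist p.1 p.2) ≤ 28680 := by
      rw [← Finset.sum_image (f := fun d => 240 - d) (g := fun p : ℕ × ℕ => Nat.dist p.1 p.2)]
      · refine le_trans (Finset.sum_le_sum_of_subset (t := Ico 1 820) ?_) (by decide +kernel)
        intro d hd
        simp only [P, mem_image, mem_filter, mem_product] at hd
        obtain ⟨p, hp, rfl⟩ := hd
        have := hb _ hp.1.1.2
        simp only [mem_Ico, Nat.dist]
        omega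
      · rintro ⟨a, b⟩ hp ⟨c, d⟩ hq e
        simp only [P, coe_filter, mem_filter, mem_product, Set.mem_ofPred_eq, Nat.dist] at hp hq e
        have n1 : a ≠ d := by
          rintro rfl
          exact hq.2 (by rw [show 2 * a - c = b by omega]; exact hp.1.1.2)
        have n2 : b ≠ c := by
          rintro rfl
          exact hp.2 (by rw [show 2 * b - a = d by omega]; exact hq.1.1.2)
        have : a = c := by
          rcases lt_or_gt_of_ne n1 with c1 | c1 <;> rcases lt_or_gt_of_ne n2 with c2 | c2
          · have := hS _ hp.1.1.1 _ hq.1.1.2 _ hp.1.1.2 _ hq.1.1.1 c1 c2 (by omega); omega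
          · exact hS _ hp.1.1.1 _ hq.1.1.2 _ hq.1.1.1 _ hp.1.1.2 c1 c2 (by omega)
          · omega
          · have := hS _ hq.1.1.2 _ hp.1.1.1 _ hq.1.1.1 _ hp.1.1.2 c1 c2 (by omega); omega
        exact Prod.ext this (by simp only; omega)
    omega
  have h4 : ∑ p ∈ S ×ˢ S, (240 - Nat.dist p.1 p.2) ≤ 86160 := by
    have e : ∀ p ∈ S ×ˢ S, (240 - Nat.dist p.1 p.2) =
        (if p.1 < p.2 then 240 - Nat.dist p.1 p.2 else 0) +
        (if p.2 < p.1 then 240 - Nat.dist p.2 p.1 else 0) + (if p.1 = p.2 then 240 else 0) := by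
      intro p _
      simp only [Nat.dist]
      split_ifs <;> omega
    rw [Finset.sum_congr rfl e, sum_add_distrib, sum_add_distrib]
    have a1 : ∑ p ∈ S ×ˢ S, (if p.2 < p.1 then 240 - Nat.dist p.2 p.1 else 0) =
        ∑ p ∈ S ×ˢ S, (if p.1 < p.2 then 240 - Nat.dist p.1 p.2 else 0) := by
      rw [Finset.sum_product, Finset.sum_product_right]
    have a2 : ∑ p ∈ S ×ˢ S, (if p.1 = p.2 then 240 else 0) = 9600 := by
      rw [Finset.sum_product, Finset.sum_congr rfl (g := fun _ => 240)]
      · simp [hc]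
      · intro s hs; simp [hs]
    rw [a1, a2, ← Finset.sum_filter]
    change ∑ p ∈ P, _ + ∑ p ∈ P, _ + _ ≤ _
    omega
  have h5 := sq_sum_le_card_mul_sum_sq (s := range 1060) (f := A)
  rw [h1, card_range] at h5
  omega

abbrev V := Fin 40 ⊕ {p : Fin 40 × Fin 40 // p.1 < p.2}

def rel : V → V → Prop
  | Sum.inl i, Sum.inr p => i = p.1.1 ∨ i = p.1.2
  | Sum.inr p, Sum.inl i => i = p.1.1 ∨ i = p.1.2
  | _, _ => False

def G : SimpleGraph V where
  Adj := rel
  symm := ⟨by rintro (i | p) (j | q) h <;> exact h⟩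
  loopless := ⟨by rintro (i | p) h <;> exact h⟩

noncomputable instance : DecidableRel G.Adj := Classical.decRel _

theorem cardV : Fintype.card V = 820 := by decide +kernel

theorem nbr (p : {p : Fin 40 × Fin 40 // p.1 < p.2}) :
    G.neighborFinset (Sum.inr p) = {Sum.inl p.1.1, Sum.inl p.1.2} := by
  ext (i | q) <;> simp [G, rel]


/-- The negation of the preceding statement: For every finite simple graph, there is a bijective labeling of the vertices by 1..n making all neighbour-label sums distinct if and only if distinct vertices always have distinct open neighbourhoods. -/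
theorem result :
    ¬ (∀ (V : Type) [Fintype V] [DecidableEq V] (G : SimpleGraph V) [DecidableRel G.Adj],
      (∃ f : V ≃ Fin (Fintype.card V),
          Function.Injective
            (fun v : V => ∑ u ∈ G.neighborFinset v, ((f u : ℕ) + 1)))
        ↔ ∀ u v : V, u ≠ v → G.neighborSet u ≠ G.neighborSet v) := by
  intro h
  obtain ⟨f, hf⟩ := (h V G).2 (by
    rintro (i | p) (j | q) hne e
    · have hij : i ≠ j := fun h => hne (by rw [h])
      obtain ⟨k, hki, hkj⟩ : ∃ k : Fin 40, k ≠ i ∧ k ≠ j :=
        (by decide +kernel : ∀ i j : Fin 40, ∃ k : Fin 40, k ≠ i ∧ k ≠ j) i j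
      rcases lt_or_gt_of_ne hki with c | c
      · have := Set.ext_iff.1 e (Sum.inr ⟨(k, i), c⟩)
        simp [G, rel, hij.symm, hkj.symm] at this
      · have := Set.ext_iff.1 e (Sum.inr ⟨(i, k), c⟩)
        simp [G, rel, hij.symm, hkj.symm] at this
    · have := Set.ext_iff.1 e (Sum.inl q.1.1)
      simp [G, rel] at this
    · have := Set.ext_iff.1 e (Sum.inl p.1.1)
      simp [G, rel] at this
    · have h1 := Set.ext_iff.1 e (Sum.inl p.1.1)
      have h2 := Set.ext_iff.1 e (Sum.inl p.1.2)
      simp [G, rel] at h1 h2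
      have := p.2
      have := q.2
      apply hne
      congr 1
      apply Subtype.ext
      apply Prod.ext <;> omega)
  have hinj : Function.Injective fun i : Fin 40 => (f (Sum.inl i) : ℕ) := fun i j e =>
    Sum.inl_injective (f.injective (Fin.ext e))
  have key : ∀ i j k l : Fin 40, i < j → k < l →
      (f (Sum.inl i) : ℕ) + f (Sum.inl j) = f (Sum.inl k) + f (Sum.inl l) → i = k ∧ j = l := by
    intro i j k l h1 h2 e
    have := @hf (Sum.inr ⟨(i, j), h1⟩) (Sum.inr ⟨(k, l), h2⟩) (by
      simp only [nbr]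
      rw [Finset.sum_pair (by simpa using h1.ne), Finset.sum_pair (by simpa using h2.ne)]
      omega)
    simpa using this
  refine weak_sidon (univ.image fun i : Fin 40 => (f (Sum.inl i) : ℕ)) ?_ ?_ ?_
  · rw [Finset.card_image_of_injective _ hinj]; simp
  · intro s hs
    obtain ⟨i, -, rfl⟩ := Finset.mem_image.1 hs
    exact lt_of_lt_of_eq (f _).2 cardV
  · simp only [Finset.mem_image, Finset.mem_univ, true_and]
    rintro _ ⟨i, rfl⟩ _ ⟨j, rfl⟩ _ ⟨k, rfl⟩ _ ⟨l, rfl⟩ h1 h2 e
    have n1 : i ≠ j := by rintro rfl; omega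
    have n2 : k ≠ l := by rintro rfl; omega
    rcases lt_or_gt_of_ne n1 with c1 | c1 <;> rcases lt_or_gt_of_ne n2 with c2 | c2
    · rw [(key i j k l c1 c2 e).1]
    · obtain ⟨rfl, rfl⟩ := key i j l k c1 c2 (by omega); omega
    · obtain ⟨rfl, rfl⟩ := key j i k l c1 c2 (by omega); omega
    · rw [(key j i l k c1 c2 (by omega)).2]

end Pool.Agent.S12612
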