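import Pool.Statements.S12636
-- import your own Pool.Agent.* helpers here

set_option autoImplicit false
open Filter Topology
open Pool Pool.MP_fef54c_co

namespace Pool.Agent.S12636

/-- a perfect ruler with four marks -/
def u : Fin 4 → ℤ := ![0, 1, 4, 6]

def cc : Fin 2 → ℤ := ![1, 0]

/-- the seven values from `-3` to `3` -/
def v (j : Fin 7) : ℤ := (j : ℤ) - 3

theorem diff : ∀ j j' : Fin 7, ∃ a b : Fin 4, u a - u b = v j - v j' := by decide

theorem moment (n : ℕ) : ∀ (c : Fin n → ℝ) (b : ℝ),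
    ∑ z : Fin n → Fin 7, (b + ∑ l, c l * (v (z l) : ℝ)) ^ 2 = 7 ^ n * (b ^ 2 + 4 * ∑ l, c l ^ 2) := by
  induction n with
  | zero => intro c b; simp
  | succ n ih =>
    intro c b
    rw [← (Fin.consEquiv fun _ : Fin (n + 1) => Fin 7).sum_comp, Fintype.sum_prod_type]
    simp only [Fin.consEquiv_apply, Fin.sum_univ_succ (n := n), Fin.cons_zero, Fin.cons_succ,
      ← add_assoc, ih]
    simp only [Fin.sum_univ_seven, v]
    norm_num
    ring

theorem geom (K : ℝ) (hK : 0 < K) (N : ℕ) :
    ∑ y ∈ Finset.Icc (-(N : ℤ)) N, Real.exp (-(|(y : ℝ)| / K)) ≤ 2 * (K + 1) := by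
  set r := Real.exp (-(1 / K)) with hr
  have hr0 : 0 < r := Real.exp_pos _
  have hr1 : r * (K + 1) ≤ K := by
    have h1 : 1 / K + 1 ≤ Real.exp (1 / K) := Real.add_one_le_exp _
    have h2 : r * Real.exp (1 / K) = 1 := by rw [hr, ← Real.exp_add]; simp
    have h3 : r * (1 / K + 1) ≤ 1 := by nlinarith
    have h4 : r * (K + 1) = K * (r * (1 / K + 1)) := by field_simp; ring
    rw [h4]
    nlinarith
  have key : ∀ N : ℕ, ∑ y ∈ Finset.Icc (-(N : ℤ)) N, Real.exp (-(|(y : ℝ)| / K))
      ≤ 2 * (K + 1) - 2 * K * r ^ N := by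
    intro N
    induction N with
    | zero => simp; linarith
    | succ N ih =>
      have hI : Finset.Icc (-((N + 1 : ℕ) : ℤ)) ((N + 1 : ℕ) : ℤ) =
          insert (-((N + 1 : ℕ) : ℤ)) (insert ((N + 1 : ℕ) : ℤ) (Finset.Icc (-(N : ℤ)) N)) := by
        ext y
        simp only [Finset.mem_Icc, Finset.mem_insert]
        omega
      have he : Real.exp (-(((N : ℝ) + 1) / K)) = r ^ (N + 1) := by
        rw [hr, ← Real.exp_nat_mul]
        congr 1
        push_cast
        ring
      rw [hI, Finset.sum_insert (by simp only [Finset.mem_Icc, Finset.mem_insert]; omega),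
        Finset.sum_insert (by simp only [Finset.mem_Icc]; omega)]
      push_cast
      rw [abs_neg, abs_of_nonneg (by positivity), he]
      have hp : 0 < r ^ N := pow_pos hr0 N
      have : r ^ (N + 1) * (K + 1) ≤ K * r ^ N := by rw [pow_succ]; nlinarith
      nlinarith
  have := key N
  have hp : 0 < r ^ N := pow_pos hr0 N
  nlinarith

theorem lower (n : ℕ) (hn : 1 ≤ n) (S : Finset (Fin n → Fin 2))
    (hS : Function.Injective (fun (x : Fin n → Fin 4) (s : S) =>
      ∑ l : Fin n, cc ((s : Fin n → Fin 2) l) * u (x l))) :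
    n * Real.log 7 ≤ S.card * (3 + Real.log n / 2) := by
  classical
  let Y : (Fin n → Fin 7) → S → ℤ := fun z s => ∑ l, cc ((s : Fin n → Fin 2) l) * v (z l)
  have hY : Function.Injective Y := by
    intro z z' h
    choose a b hab using diff
    have : (fun l => a (z l) (z' l)) = fun l => b (z l) (z' l) := by
      apply hS
      funext s
      have h1 := congrFun h s
      simp only [Y] at h1
      rw [← sub_eq_zero, ← Finset.sum_sub_distrib] at h1 ⊢
      rw [← h1]
      refine Finset.sum_congr rfl fun l _ => ?_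
      rw [← mul_sub, ← mul_sub, hab]
    funext l
    have h2 := hab (z l) (z' l)
    rw [congrFun this l, sub_self] at h2
    simp only [v] at h2
    ext
    omega
  have hcc : ∀ j, cc j = 1 ∨ cc j = 0 := by decide
  have hYb : ∀ z s, Y z s ∈ Finset.Icc (-((3 * n : ℕ) : ℤ)) ((3 * n : ℕ) : ℤ) := by
    intro z s
    rw [Finset.mem_Icc, ← abs_le]
    refine (Finset.abs_sum_le_sum_abs _ _).trans ?_
    refine (Finset.sum_le_card_nsmul _ _ 3 fun l _ => ?_).trans (by simp [mul_comm])
    have := (z l).2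
    rcases hcc ((s : Fin n → Fin 2) l) with h | h <;> rw [h] <;> simp only [v] <;> rw [abs_le] <;>
      omega
  set K := 2 * Real.sqrt n with hK
  have hn' : (1 : ℝ) ≤ n := by exact_mod_cast hn
  have hsq : 1 ≤ Real.sqrt n := Real.one_le_sqrt.2 hn'
  have hK0 : 0 < K := by linarith
  have hK2 : K ^ 2 = 4 * n := by rw [hK, mul_pow, Real.sq_sqrt (by linarith)]; norm_num
  set m := S.card with hm
  have hup : ∑ z : Fin n → Fin 7, Real.exp (-(∑ s : S, |(Y z s : ℝ)| / K)) ≤ (2 * (K + 1)) ^ m := by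
    have h1 : ∑ z : Fin n → Fin 7, Real.exp (-(∑ s : S, |(Y z s : ℝ)| / K)) =
        ∑ y ∈ Finset.univ.image Y, ∏ s : S, Real.exp (-(|(y s : ℝ)| / K)) := by
      rw [Finset.sum_image fun a _ b _ h => hY h]
      refine Finset.sum_congr rfl fun z _ => ?_
      rw [← Real.exp_sum, Finset.sum_neg_distrib]
    rw [h1]
    calc _ ≤ ∑ y ∈ Fintype.piFinset fun _ : S => Finset.Icc (-((3 * n : ℕ) : ℤ)) ((3 * n : ℕ) : ℤ),
            ∏ s : S, Real.exp (-(|(y s : ℝ)| / K)) := by
          refine Finset.sum_le_sum_of_subset_of_nonneg ?_ fun _ _ _ => by positivity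
          intro y hy
          obtain ⟨z, -, rfl⟩ := Finset.mem_image.1 hy
          exact Fintype.mem_piFinset.2 (hYb z)
      _ = ∏ _s : S, ∑ y ∈ Finset.Icc (-((3 * n : ℕ) : ℤ)) ((3 * n : ℕ) : ℤ),
            Real.exp (-(|(y : ℝ)| / K)) := by
          rw [Finset.prod_univ_sum]
      _ ≤ ∏ _s : S, (2 * (K + 1)) :=
          Finset.prod_le_prod (fun _ _ => by positivity) fun _ _ => geom K hK0 _
      _ = _ := by simp [hm]
  have hmean : ∀ s : S, ∑ z : Fin n → Fin 7, |(Y z s : ℝ)| / K ≤ 7 ^ n := by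
    intro s
    have h1 := moment n (fun l => (cc ((s : Fin n → Fin 2) l) : ℝ)) 0
    have h2 : ∑ l, (cc ((s : Fin n → Fin 2) l) : ℝ) ^ 2 ≤ n := by
      refine (Finset.sum_le_card_nsmul _ _ 1 fun l _ => ?_).trans (by simp)
      rcases hcc ((s : Fin n → Fin 2) l) with h | h <;> rw [h] <;> norm_num
    have h3 : ∑ z : Fin n → Fin 7, (Y z s : ℝ) ^ 2 ≤ 7 ^ n * K ^ 2 := by
      simp only [zero_add] at h1
      simp only [Y]
      push_cast
      rw [h1, hK2]
      have : (0 : ℝ) < 7 ^ n := by positivity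
      nlinarith
    calc ∑ z : Fin n → Fin 7, |(Y z s : ℝ)| / K
        ≤ ∑ z : Fin n → Fin 7, ((Y z s : ℝ) ^ 2 / K ^ 2 + 1) / 2 := by
          refine Finset.sum_le_sum fun z _ => ?_
          rw [← sq_abs (Y z s : ℝ), ← div_pow]
          nlinarith [sq_nonneg (|(Y z s : ℝ)| / K - 1)]
      _ = ((∑ z : Fin n → Fin 7, (Y z s : ℝ) ^ 2) / K ^ 2 + 7 ^ n) / 2 := by
          rw [← Finset.sum_div, Finset.sum_add_distrib, ← Finset.sum_div]
          simp
      _ ≤ 7 ^ n := by
          have : (∑ z : Fin n → Fin 7, (Y z s : ℝ) ^ 2) / K ^ 2 ≤ 7 ^ n := by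
            rw [div_le_iff₀ (by positivity)]; exact h3
          linarith
  have hlow : Real.exp (-m) * 7 ^ n ≤
      ∑ z : Fin n → Fin 7, Real.exp (-(∑ s : S, |(Y z s : ℝ)| / K)) := by
    have h1 : ∀ a : ℝ, Real.exp (-m) * (1 + m - a) ≤ Real.exp (-a) := by
      intro a
      have h2 : Real.exp (-a) = Real.exp (-m) * Real.exp (m - a) := by
        rw [← Real.exp_add]; congr 1; ring
      rw [h2]
      refine mul_le_mul_of_nonneg_left ?_ (Real.exp_pos _).le
      have := Real.add_one_le_exp (m - a)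
      linarith
    refine le_trans ?_ (Finset.sum_le_sum fun z _ => h1 _)
    rw [← Finset.mul_sum]
    refine mul_le_mul_of_nonneg_left ?_ (Real.exp_pos _).le
    rw [Finset.sum_sub_distrib, Finset.sum_comm]
    have h3 : ∑ s : S, ∑ z : Fin n → Fin 7, |(Y z s : ℝ)| / K ≤ m * 7 ^ n :=
      (Finset.sum_le_card_nsmul _ _ _ fun s _ => hmean s).trans (by simp [hm])
    simp only [Finset.sum_const, Finset.card_univ, Fintype.card_fun, Fintype.card_fin,
      nsmul_eq_mul]
    push_cast
    nlinarith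
  have hfin := Real.log_le_log (by positivity) (hlow.trans hup)
  rw [Real.log_mul (by positivity) (by positivity), Real.log_exp, Real.log_pow, Real.log_pow] at hfin
  have hl : Real.log (2 * (K + 1)) ≤ 2 + Real.log n / 2 := by
    have h1 : 2 * (K + 1) ≤ Real.exp 2 * Real.sqrt n := by
      have h2 : (6 : ℝ) ≤ Real.exp 2 := by
        have h3 := Real.exp_one_gt_d9
        have h4 : Real.exp 2 = Real.exp 1 * Real.exp 1 := by rw [← Real.exp_add]; norm_num
        rw [h4]; nlinarith
      nlinarith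
    refine (Real.log_le_log (by positivity) h1).trans ?_
    rw [Real.log_mul (by positivity) (by positivity), Real.log_exp, Real.log_sqrt (by linarith)]
  have hm0 : (0 : ℝ) ≤ m := by positivity
  nlinarith

/-- The negation of the preceding statement: For every p×q integer matrix with p ≥ 2 whose distinct rows never differ by a constant vector, the least size of S ⊆ [q]^n making the row-sum map on [p]^n injective, times log base p of n, divided by n, tends to 2. -/
theorem result :
    ¬ (∀ (p q : ℕ) (M : Matrix (Fin p) (Fin q) ℤ),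
      2 ≤ p →
      (∀ i j : Fin p, i ≠ j → ∃ s t : Fin q, M i s - M j s ≠ M i t - M j t) →
      Tendsto
        (fun n : ℕ =>
          ((sInf {k : ℕ | ∃ S : Finset (Fin n → Fin q), S.card = k ∧
              Function.Injective
                (fun (x : Fin n → Fin p) (s : S) =>
                  ∑ l : Fin n, M (x l) ((s : Fin n → Fin q) l))} : ℕ) : ℝ)
            * Real.logb (p : ℝ) (n : ℝ) / (n : ℝ))
        atTop (𝓝 2)) := by
  intro h
  have h1 := h 4 2 (Matrix.of fun i j => cc j * u i) (by norm_num) (by decide)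
  have h2 := h1.eventually (gt_mem_nhds (show (2 : ℝ) < 21 / 10 by norm_num))
  have h3 : ∀ᶠ n : ℕ in atTop, (60 : ℝ) ≤ Real.log n :=
    (Real.tendsto_log_atTop.comp tendsto_natCast_atTop_atTop).eventually (eventually_ge_atTop 60)
  obtain ⟨n, hn1, hn2, hn⟩ := (h2.and (h3.and (eventually_ge_atTop 1))).exists
  have hne : {k : ℕ | ∃ S : Finset (Fin n → Fin 2), S.card = k ∧
      Function.Injective (fun (x : Fin n → Fin 4) (s : S) =>
        ∑ l : Fin n, (Matrix.of fun i j => cc j * u i : Matrix (Fin 4) (Fin 2) ℤ) (x l)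
          ((s : Fin n → Fin 2) l))}.Nonempty := by
    refine ⟨_, Finset.univ, rfl, fun x x' hx => ?_⟩
    funext l
    have h4 := congrFun hx ⟨fun i => if i = l then 0 else 1, Finset.mem_univ _⟩
    have h5 : ∀ y : Fin n → Fin 4, ∑ i : Fin n, cc (if i = l then 0 else 1) * u (y i) = u (y l) := by
      intro y
      rw [Finset.sum_eq_single l]
      · simp [cc]
      · intro i _ hi
        simp [cc, hi]
      · simp
    simp only [Matrix.of_apply, h5] at h4
    have hu : ∀ a b, u a = u b → a = b := by decide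
    exact hu _ _ h4
  obtain ⟨S, hS, hinj⟩ := Nat.sInf_mem hne
  rw [← hS] at hn1
  have h6 := lower n hn S hinj
  have hn' : (0 : ℝ) < n := by exact_mod_cast hn
  have hl4 : 0 < Real.log 4 := Real.log_pos (by norm_num)
  have hl7 : 5 * Real.log 4 ≤ 4 * Real.log 7 := by
    have := Real.log_le_log (by norm_num : (0 : ℝ) < 4 ^ 5) (by norm_num : (4 : ℝ) ^ 5 ≤ 7 ^ 4)
    rw [Real.log_pow, Real.log_pow] at this
    exact_mod_cast this
  rw [div_lt_iff₀ hn', Real.logb, ← mul_div_assoc, div_lt_iff₀ (by exact_mod_cast hl4)] at hn1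
  push_cast at hn1
  have hm0 : (0 : ℝ) ≤ S.card := by positivity
  have h7 : (S.card : ℝ) * (3 + Real.log n / 2) ≤ S.card * (11 / 20 * Real.log n) :=
    mul_le_mul_of_nonneg_left (by linarith) hm0
  nlinarith

end Pool.Agent.S12636
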