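import Pool.Statements.S12638
import Pool.Agent.H3.IrMain

set_option autoImplicit false
open Pool Pool.MP_fef8d9_co

namespace Pool.Agent.S12638

open Pool.Agent.H3.Ir

/-- The negation of the preceding statement: For every finite graph, lower irredundance equals domination number on all induced subgraphs if and only if they are equal on every induced subgraph whose lower irredundance number is at most 5. -/
theorem result :
    ¬ (∀ (V : Type) [Fintype V] [DecidableEq V] (G : SimpleGraph V)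
      (irr : Finset V → Finset V → Prop) (ir gam : Finset V → ℕ),
      (∀ W S : Finset V, irr W S ↔
        (S ⊆ W ∧ ∀ v ∈ S, ∃ u ∈ W, (u = v ∨ G.Adj u v) ∧
          ∀ w ∈ S, w ≠ v → ¬ (u = w ∨ G.Adj u w))) →
      (∀ W : Finset V, ir W = sInf {n : ℕ | ∃ S : Finset V, irr W S ∧
          (∀ x ∈ W, x ∉ S → ¬ irr W (insert x S)) ∧ S.card = n}) →
      (∀ W : Finset V, gam W = sInf {n : ℕ | ∃ D : Finset V, D ⊆ W ∧
          (∀ x ∈ W, x ∈ D ∨ ∃ d ∈ D, G.Adj x d) ∧ D.card = n}) →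
      ((∀ W : Finset V, ir W = gam W) ↔
        (∀ W : Finset V, ir W ≤ 5 → ir W = gam W))) := by
  intro H
  have key := H V G (fun W S => S ⊆ W ∧ Irr W S) _ _
    (fun W S => by simp only [G_nb, Irr]) (fun W => rfl) (fun W => rfl)
  have dom : ∀ (D : Finset V) (x : V), (x ∈ D ∨ ∃ d ∈ D, G.Adj x d) ↔ ∃ d ∈ D, nb x d = true := by
    intro D x
    simp only [← G_nb]
    constructor
    · rintro (h | ⟨d, h, e⟩)
      exacts [⟨x, h, Or.inl rfl⟩, ⟨d, h, Or.inr e⟩]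
    · rintro ⟨d, h, rfl | e⟩
      exacts [Or.inl h, Or.inr ⟨d, h, e⟩]
  simp only [dom] at key
  have ne : ∀ W : Finset V, {n : ℕ | ∃ D : Finset V, D ⊆ W ∧
      (∀ x ∈ W, ∃ d ∈ D, nb x d = true) ∧ D.card = n}.Nonempty := fun W =>
    ⟨_, W, subset_rfl, fun x hx => ⟨x, hx, nb_refl x⟩, rfl⟩
  have le : ∀ W : Finset V, sInf {n : ℕ | ∃ D : Finset V, D ⊆ W ∧
      (∀ x ∈ W, ∃ d ∈ D, nb x d = true) ∧ D.card = n} ∈ {n : ℕ | ∃ S : Finset V,
        (S ⊆ W ∧ Irr W S) ∧ (∀ x ∈ W, x ∉ S → ¬ (insert x S ⊆ W ∧ Irr W (insert x S))) ∧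
        S.card = n} := by
    intro W
    obtain ⟨D, h1, h2, h3⟩ := Nat.sInf_mem (ne W)
    refine ⟨D, ⟨h1, fun v hv => ?_⟩, fun x hx hx' h => ?_, h3⟩
    · by_contra hc
      push Not at hc
      have : (D.erase v).card ∈ {n : ℕ | ∃ D : Finset V, D ⊆ W ∧
          (∀ x ∈ W, ∃ d ∈ D, nb x d = true) ∧ D.card = n} := by
        refine ⟨_, (Finset.erase_subset _ _).trans h1, fun x hx => ?_, rfl⟩
        obtain ⟨d, hd, e⟩ := h2 x hx
        by_cases c : d = v
        · obtain ⟨w, hw, n, e'⟩ := hc x hx (c ▸ e)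
          exact ⟨w, Finset.mem_erase.2 ⟨n, hw⟩, e'⟩
        · exact ⟨d, Finset.mem_erase.2 ⟨c, hd⟩, e⟩
      have h4 := Nat.sInf_le this
      have := Finset.card_erase_lt_of_mem hv
      omega
    · obtain ⟨u, hu, -, hw⟩ := h.2 x (Finset.mem_insert_self _ _)
      obtain ⟨d, hd, e⟩ := h2 u hu
      exact hw d (Finset.mem_insert_of_mem hd) (fun c => hx' (c ▸ hd)) e
  have all := key.2 fun W h5 => by
    refine le_antisymm (Nat.sInf_le (le W)) ?_
    obtain ⟨S, ⟨h1, h2⟩, h3, h4⟩ := Nat.sInf_mem (Set.nonempty_of_mem (le W))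
    obtain ⟨D, d1, d2, d3⟩ := small W S h1 h2
      (fun x hx hx' h => h3 x hx hx' ⟨Finset.insert_subset hx h1, h⟩) (by omega)
    exact le_trans (Nat.sInf_le (m := D.card) ⟨D, d1, d2, rfl⟩) (h4 ▸ d3)
  have e := all Finset.univ
  obtain ⟨D, -, h2, h3⟩ := Nat.sInf_mem (ne Finset.univ)
  have h7 := big D fun x => h2 x (Finset.mem_univ _)
  rw [h3, ← e] at h7
  have h6 : 6 ∈ {n : ℕ | ∃ S : Finset V, (S ⊆ Finset.univ ∧ Irr Finset.univ S) ∧
      (∀ x ∈ Finset.univ, x ∉ S → ¬ (insert x S ⊆ Finset.univ ∧ Irr Finset.univ (insert x S))) ∧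
      S.card = n} :=
    ⟨{0, 1, 2, 3, 4, 5}, ⟨Finset.subset_univ _, six.1⟩, fun x _ hx h => six.2 x hx h.2, by decide⟩
  have := Nat.sInf_le h6
  omega

end Pool.Agent.S12638
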