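import Pool.Statements.S12678
import Pool.Agent.H81.Pruf2

set_option autoImplicit false
open Pool Pool.MP_034e58_gt

namespace Pool.Agent.S12678

open Set Topology Cardinal Pool.Agent.H81 Pool.Agent.H81.Pruf in
theorem main : ∃ (A : Set ℝ) (a : J A), Irrational a.1 ∧
    ∀ e : U A → M A, IsOpenEmbedding e → ¬ DenseRange e := by
  classical
  let I : Type := C(ℝ × ℝ, ℝ × ℝ) × {γ : ℚ → ℝ × ℝ // #(G γ) = 𝔠}
  have hI : #I ≤ 𝔠 := by
    have h2 : #{γ : ℚ → ℝ × ℝ // #(G γ) = 𝔠} ≤ 𝔠 :=
      (mk_subtype_le _).trans (by simp [mk_real])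
    rw [mk_prod, lift_id, lift_id]
    calc _ ≤ 𝔠 * 𝔠 := mul_le_mul' Bern.mk_cont h2
      _ = 𝔠 := continuum_mul_self
  let L : C(ℝ × ℝ, ℝ × ℝ) → ℝ → ℝ × ℝ := fun g a => Filter.limUnder Filter.atBot fun t => g (a, t)
  let f : I → ℝ → ℝ := fun i a => if (L i.1 a).2 = 0 then (L i.1 a).1 else 0
  obtain ⟨A, hA, H⟩ := Bern.rigid hI f (fun i => G i.2.1) (fun i => i.2.2) (range ((↑) : ℚ → ℝ))
    (countable_range _)
  have hirr : ∀ a ∈ A, Irrational a := fun a ha => by
    obtain ⟨i, hi⟩ := hA a ha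
    exact hi.1
  have hne : A.Nonempty := by
    rcases H (0, ⟨fun _ => (0, 1), G_card (c1 := 0) (c2 := 0) fun _ _ _ => one_pos⟩) with
      ⟨a, ha, -⟩ | ⟨S, -, hS⟩
    · exact ⟨a, ha⟩
    · obtain ⟨a, ha, -⟩ := Bern.exists_new (S := ∅)
        (le_antisymm ((mk_set_le _).trans mk_real.le) hS) (by simpa using continuum_pos)
      exact ⟨a, ha.1⟩
  obtain ⟨a0, ha0⟩ := hne
  let a : J A := ⟨a0, Or.inl ha0⟩
  have ha : Irrational a.1 := hirr _ ha0
  refine ⟨A, a, ha, fun e he hd => ?_⟩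
  have := t2 a ha
  obtain ⟨γ, hγ, c1, c2, hc⟩ := win he hd a ha
  let g : C(ℝ × ℝ, ℝ × ℝ) :=
    ⟨fun v => pr (e (io a ha ((v.1 - a.1) / Real.exp v.2, Real.exp v.2))),
      cont_pr.comp (he.continuous.comp ((cont_io a ha).comp
        (Continuous.prodMk (Continuous.div (by fun_prop) (by fun_prop)
          fun v => (Real.exp_pos _).ne') (by fun_prop))))⟩
  have hL : ∀ (b : J A) (hb : Irrational b.1), L g b.1 = pr (e (io b hb 0)) := by
    intro b hb
    refine Filter.Tendsto.limUnder_eq ?_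
    have h1 : (fun t => g (b.1, t)) = fun t => pr (e (io b hb (0, Real.exp t))) := by
      funext t
      change pr (e (io a ha ((b.1 - a.1) / Real.exp t, Real.exp t))) = _
      congr 2
      apply Subtype.ext
      have := psi_trans a b (v := (0, Real.exp t)) (ns_pos a (Real.exp_pos t))
        (ns_pos b (Real.exp_pos t))
      simpa [io] using this.symm
    rw [h1]
    refine ((cont_pr.comp (he.continuous.comp (cont_io b hb))).tendsto 0).comp ?_
    exact Filter.Tendsto.prodMk_nhds tendsto_const_nhds Real.tendsto_exp_atBot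
  rcases H (g, ⟨γ, G_card hc⟩) with ⟨b0, hb0, hG, h⟩ | ⟨S, hS, hS'⟩
  · let b : J A := ⟨b0, Or.inl hb0⟩
    have hb : Irrational b.1 := hirr _ hb0
    have hLb : L g b0 = pr (e (io b hb 0)) := hL b hb
    simp only [f, hLb] at h
    by_cases h0 : (pr (e (io b hb 0))).2 = 0
    · rw [if_pos h0] at h
      rcases h with h | h
      · exact nofix he hγ b hb hG (Prod.ext h h0)
      · obtain ⟨c, v, hc, -, -⟩ := axis _ h0
        rw [← hc] at h
        exact c.2.elim h.1 fun h' => h' h.2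
    · rw [if_neg h0] at h
      rcases h with h | h
      · exact hb ⟨0, by simpa using h⟩
      · exact h.2 ⟨0, by simp⟩
  · have hcount : ∀ s : ℝ, {x | x ∈ A ∧ f (g, ⟨γ, G_card hc⟩) x = s}.Countable := by
      intro s
      have h1 : ({a} ∪ {c : J A | c.1 = s}).Countable :=
        (countable_singleton a).union
          ((countable_singleton s).preimage_of_injOn Subtype.val_injective.injOn)
      refine ((h1.biUnion fun c _ => count he c).image fun x => x.1.1).mono ?_
      rintro x ⟨hx, hf⟩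
      let b : J A := ⟨x, Or.inl hx⟩
      have hb : Irrational b.1 := hirr _ hx
      have hLb : L g x = pr (e (io b hb 0)) := hL b hb
      simp only [f, hLb] at hf
      refine ⟨⟨b, hb⟩, ?_, rfl⟩
      by_cases h0 : (pr (e (io b hb 0))).2 = 0
      · rw [if_pos h0] at hf
        obtain ⟨c, v, hc, -, hv⟩ := axis _ h0
        exact mem_biUnion (Or.inr (hc.trans hf)) ⟨v, hv.symm⟩
      · exact mem_biUnion (Or.inl rfl) ⟨_, (off_axis _ h0 a ha).symm⟩
    have hsub : {x | x ∈ A ∧ f (g, ⟨γ, G_card hc⟩) x ∈ S} =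
        ⋃ s : S, {x | x ∈ A ∧ f (g, ⟨γ, G_card hc⟩) x = s} := by
      ext x; simp
    rw [hsub] at hS'
    refine absurd (hS'.trans (mk_iUnion_le_sum_mk.trans ((sum_le_sum _ (fun _ => ℵ₀)
      fun s : S => mk_le_aleph0_iff.mpr (hcount s.1).to_subtype).trans_eq (sum_const' _ _))))
      (not_le.mpr (mul_lt_of_lt aleph0_le_continuum hS aleph0_lt_continuum))

/-- The negation of the preceding statement: In every connected, separable, Hausdorff space locally homeomorphic to Euclidean n-space, each nonempty open set is homeomorphic to some open set that is dense in the whole space. -/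
theorem result :
    ¬ (∀ (n : ℕ) (M : Type) [TopologicalSpace M]
      [ChartedSpace (EuclideanSpace ℝ (Fin n)) M]
      [T2Space M] [ConnectedSpace M] [TopologicalSpace.SeparableSpace M],
      ∀ U : Set M, IsOpen U → U.Nonempty →
        ∃ V : Set M, IsOpen V ∧ Dense V ∧ Nonempty (U ≃ₜ V)) := by
  intro H
  obtain ⟨A, a, ha, h⟩ := main
  let _ := H81.Pruf.charted a ha
  have := H81.Pruf.t2 a ha
  have := H81.Pruf.conn a ha
  have := H81.Pruf.sep a ha
  obtain ⟨V, hV, hd, ⟨φ⟩⟩ := H 2 (H81.Pruf.M A) (H81.Pruf.U A) H81.Pruf.U_open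
    ⟨_, a, ha, 0, rfl⟩
  refine h (Subtype.val ∘ φ) (hV.isOpenEmbedding_subtypeVal.comp φ.isOpenEmbedding) ?_
  unfold DenseRange
  rwa [Set.range_comp, φ.surjective.range_eq, Set.image_univ, Subtype.range_coe]

end Pool.Agent.S12678
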