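import Pool.Statements.S12700
import Pool.Agent.H82.TrinC

set_option autoImplicit false
open Pool Pool.MP_0764dd_gt

namespace Pool.Agent.S12700

theorem result :
    ¬ (∀ (X : Type) [TopologicalSpace X] [CompactSpace X] [T2Space X] (A : ℕ → Set X),
      (⋃ n, A n) = Set.univ →
      (∀ n, ∃ (𝒮 : Set (Set X)) (f : Set X → Ordinal.{0}), A n ∈ 𝒮 ∧
        ∀ S ∈ 𝒮, ∀ x ∈ S, ∀ V : Set X, IsOpen V → x ∈ V →
          ∃ U : Set X, IsOpen U ∧ x ∈ U ∧ U ∩ S ⊆ V ∧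
            ((S ∩ closure (U ∩ S)) \ U) ∈ 𝒮 ∧ f ((S ∩ closure (U ∩ S)) \ U) < f S) →
      ∃ (𝒮 : Set (Set X)) (f : Set X → Ordinal.{0}), (Set.univ : Set X) ∈ 𝒮 ∧
        ∀ S ∈ 𝒮, ∀ x ∈ S, ∀ V : Set X, IsOpen V → x ∈ V →
          ∃ U : Set X, IsOpen U ∧ x ∈ U ∧ U ∩ S ⊆ V ∧
            ((S ∩ closure (U ∩ S)) \ U) ∈ 𝒮 ∧ f ((S ∩ closure (U ∩ S)) \ U) < f S) := by
  intro h
  obtain ⟨e, he⟩ := exists_surjective_nat (Option (ℕ × Bool))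
  refine Pool.Agent.H82.Trin.no_trind (h Pool.Agent.H82.Trin.X
    (fun n => Pool.Agent.H82.Trin.piece (e n)) ?_ fun n => Pool.Agent.H82.Trin.piece_trind (e n))
  refine Set.eq_univ_of_forall fun x => ?_
  obtain ⟨i, hi⟩ := Pool.Agent.H82.Trin.piece_cover x
  obtain ⟨n, rfl⟩ := he i
  exact Set.mem_iUnion.2 ⟨n, hi⟩

end Pool.Agent.S12700
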