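import Pool.Statements.S12716
import Pool.Agent.H57.Spread

set_option autoImplicit false
open Pool Pool.MP_08e893_gt

namespace Pool.Agent.S12716

/-- The negation of the preceding statement: For every Tychonoff space X and subspace Y, the spread of C_p(Y) (continuous real functions on Y, pointwise topology) equals the spread of the subspace of restrictions to Y of continuous real functions on X. -/
theorem result :
    ¬ (∀ (X : Type) [TopologicalSpace X] [T35Space X] (Y : Set X),
      (⨆ D : {D : Set (Y → ℝ) //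
          D ⊆ Set.range (fun f : C(Y, ℝ) => (f : Y → ℝ)) ∧ DiscreteTopology D},
          Cardinal.mk D.1)
        =
      (⨆ D : {D : Set (Y → ℝ) //
          D ⊆ Set.range (fun f : C(X, ℝ) => fun y : Y => f y.1) ∧ DiscreteTopology D},
          Cardinal.mk D.1)) := by
  intro h
  obtain ⟨Y, ⟨D, h1, h2⟩, h3⟩ := Pool.Agent.H57.Pr.spread
  have h4 := h _ Y
  haveI : Nonempty {D : Set (Y → ℝ) //
      D ⊆ Set.range (fun f : C(Pool.Agent.H57.Pr.W2 → Fin 3 → ℝ, ℝ) => fun y : Y => f y.1) ∧
        DiscreteTopology D} := ⟨⟨∅, Set.empty_subset _, inferInstance⟩⟩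
  exact (Order.lt_succ _).not_ge ((h2.trans (le_ciSup (f := fun D : {D : Set (Y → ℝ) //
      D ⊆ Set.range (fun f : C(Y, ℝ) => (f : Y → ℝ)) ∧ DiscreteTopology D} => Cardinal.mk D.1)
    (Cardinal.bddAbove_range _) ⟨D, h1⟩)).trans
    (h4.le.trans (ciSup_le' fun E => h3 E.1 E.2.1 E.2.2)))

end Pool.Agent.S12716
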