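import Pool.Statements.S12734
import Pool.Agent.H58.SW4

set_option autoImplicit false
open scoped Pointwise
open Pool Pool.MP_0b6b0e_gt

namespace Pool.Agent.S12734

/-- The negation of the preceding statement: For all n≥2 and 1≤i≤n−1, among convex bodies in R^n with the origin inside (Hausdorff metric), those sharing all i-dimensional central section volumes with some other body L, L≠K and L≠−K, form a meagre set. -/
theorem result :
    ¬ (∀ n : ℕ, 2 ≤ n → ∀ i : ℕ, 1 ≤ i → i ≤ n - 1 →
      IsMeagre {K : {K : ConvexBody (EuclideanSpace ℝ (Fin n)) //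
                    (0 : EuclideanSpace ℝ (Fin n)) ∈
                      interior (K : Set (EuclideanSpace ℝ (Fin n)))} |
        ∃ L : ConvexBody (EuclideanSpace ℝ (Fin n)),
          (0 : EuclideanSpace ℝ (Fin n)) ∈
              interior (L : Set (EuclideanSpace ℝ (Fin n))) ∧
          (L : Set (EuclideanSpace ℝ (Fin n))) ≠
              (K.1 : Set (EuclideanSpace ℝ (Fin n))) ∧
          (L : Set (EuclideanSpace ℝ (Fin n))) ≠
              -(K.1 : Set (EuclideanSpace ℝ (Fin n))) ∧
          ∀ S : Submodule ℝ (EuclideanSpace ℝ (Fin n)), Module.finrank ℝ S = i →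
            MeasureTheory.Measure.hausdorffMeasure (i : ℝ)
                ((L : Set (EuclideanSpace ℝ (Fin n))) ∩
                  (S : Set (EuclideanSpace ℝ (Fin n)))) =
            MeasureTheory.Measure.hausdorffMeasure (i : ℝ)
                ((K.1 : Set (EuclideanSpace ℝ (Fin n))) ∩
                  (S : Set (EuclideanSpace ℝ (Fin n))))}) := by
  intro h
  have h := h 2 le_rfl 1 le_rfl le_rfl
  have := H58SW.complete (E := H58SW.E2)
  have : BaireSpace {K : ConvexBody H58SW.E2 // (0 : H58SW.E2) ∈ interior (K : Set H58SW.E2)} :=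
    (H58SW.isOpen_int (E := H58SW.E2)).baireSpace
  have h0 : (0 : H58SW.E2) ∈ interior (H58SW.K0 : Set H58SW.E2) :=
    mem_interior_iff_mem_nhds.2 (Filter.mem_of_superset
      (Metric.closedBall_mem_nhds 0 (by norm_num)) H58SW.ball_K0)
  refine not_isMeagre_of_isOpen (Metric.isOpen_ball (x := ⟨H58SW.K0, h0⟩) (ε := 1 / 1000000))
    ⟨_, Metric.mem_ball_self (by norm_num)⟩ (h.mono ?_)
  intro K hK
  simpa using H58SW.twin K.1 K.2 hK

end Pool.Agent.S12734
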