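import Pool.Statements.S12744
import Pool.Agent.H33.CenHom

set_option autoImplicit false
open Pool Pool.MP_0decd7_gt

namespace Pool.Agent.S12744

/-- The negation of the preceding statement: Let X be the Stone–Čech remainder of ℕ. The space of all families of clopen subsets of X with the finite intersection property, topologized as a subspace of the product 2^(clopens of X), is homogeneous. -/
theorem result :
    ¬ (∀ R : Set (StoneCech ℕ), R = (Set.range (stoneCechUnit : ℕ → StoneCech ℕ))ᶜ →
    ∀ C : Set (TopologicalSpace.Clopens R → Bool),
      C = {f | ∀ F : Finset (TopologicalSpace.Clopens R),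
              (∀ U ∈ F, f U = true) → (⋂ U ∈ F, (U : Set R)).Nonempty} →
      ∀ x y : C, ∃ h : C ≃ₜ C, h x = y) := by
  intro h
  exact Pool.Agent.H33.CenHom.main _ rfl (h _ rfl _ rfl)

end Pool.Agent.S12744
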