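import Pool.Statements.S12748
import Pool.Agent.H83.MO

set_option autoImplicit false
open Function
open Pool Pool.MP_0eaf94_gt

namespace Pool.Agent.S12748

/-- The negation of the preceding statement: For a continuous surjection f between compact metric spaces and open G₁, G₂ covering Y: if each restriction of f over closure(Gᵢ) is an open map followed by a monotone map, then f itself is an open map followed by a monotone map. -/
theorem result :
    ¬ (∀ (X Y : Type) [MetricSpace X] [CompactSpace X] [MetricSpace Y] [CompactSpace Y]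
      (f : X → Y), Continuous f → Surjective f →
      ∀ G₁ G₂ : Set Y, IsOpen G₁ → IsOpen G₂ → G₁ ∪ G₂ = Set.univ →
      (∃ (Z : Type) (_ : MetricSpace Z) (_ : CompactSpace Z)
          (h : ↥(f ⁻¹' closure G₁) → Z) (g : Z → ↥(closure G₁)),
          Continuous h ∧ IsOpenMap h ∧ Surjective h ∧
          Continuous g ∧ Surjective g ∧ (∀ y, IsConnected (g ⁻¹' {y})) ∧
          ∀ x : ↥(f ⁻¹' closure G₁), ((g (h x) : ↥(closure G₁)) : Y) = f x) →
      (∃ (Z : Type) (_ : MetricSpace Z) (_ : CompactSpace Z)
          (h : ↥(f ⁻¹' closure G₂) → Z) (g : Z → ↥(closure G₂)),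
          Continuous h ∧ IsOpenMap h ∧ Surjective h ∧
          Continuous g ∧ Surjective g ∧ (∀ y, IsConnected (g ⁻¹' {y})) ∧
          ∀ x : ↥(f ⁻¹' closure G₂), ((g (h x) : ↥(closure G₂)) : Y) = f x) →
      ∃ (Z : Type) (_ : MetricSpace Z) (_ : CompactSpace Z)
          (h : X → Z) (g : Z → Y),
          Continuous h ∧ IsOpenMap h ∧ Surjective h ∧
          Continuous g ∧ Surjective g ∧ (∀ y, IsConnected (g ⁻¹' {y})) ∧
          ∀ x : X, g (h x) = f x) := by
  intro H
  have c1 : closure {y : unitInterval | (y : ℝ) < 2 / 3} ⊆ {y | (y : ℝ) ≤ 2 / 3} :=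
    closure_minimal (fun y hy => le_of_lt (a := (y : ℝ)) hy)
      (isClosed_le continuous_subtype_val continuous_const)
  have c2 : closure {y : unitInterval | 1 / 3 < (y : ℝ)} ⊆ {y | 1 / 3 ≤ (y : ℝ)} :=
    closure_minimal (fun y hy => le_of_lt (b := (y : ℝ)) hy)
      (isClosed_le continuous_const continuous_subtype_val)
  obtain ⟨Z, _, _, h, g, hc, ho, -, gc, gs, gf, hgf⟩ := H H83.MO.XS unitInterval H83.MO.f
    H83.MO.f_cont H83.MO.f_surj {y | (y : ℝ) < 2 / 3} {y | 1 / 3 < (y : ℝ)}
    (isOpen_lt continuous_subtype_val continuous_const)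
    (isOpen_lt continuous_const continuous_subtype_val)
    (by
      ext y
      simp only [Set.mem_union, Set.mem_setOf_eq, Set.mem_univ, iff_true]
      by_contra hn
      push Not at hn
      linarith [hn.1, hn.2])
    (H83.MO.localMO _ isClosed_closure 0 (fun _ t => t) continuous_snd (fun _ _ _ => rfl) (by
      intro e he y hy t
      have hy1 : y ≠ 1 := fun h1 => by
        have := c1 hy
        rw [h1] at this
        norm_num at this
      simp [H83.MO.XS, he, hy1]))
    (H83.MO.localMO _ isClosed_closure 1 H83.MO.fl H83.MO.cfl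
      (by rintro e (rfl | rfl) t <;> simp only [H83.MO.fl] <;> ring) (by
      intro e he y hy t
      have hy1 : y ≠ 0 := fun h1 => by
        have := c2 hy
        rw [h1] at this
        norm_num at this
      have h2 : H83.MO.fl e t ∈ Set.Icc (0 : ℝ) 1 ↔ t ∈ Set.Icc (0 : ℝ) 1 := by
        rcases he with rfl | rfl <;> simp only [H83.MO.fl, Set.mem_Icc] <;> constructor <;>
          rintro ⟨h1, h2⟩ <;> constructor <;> linarith
      rw [h2]
      simp [H83.MO.XS, he, hy1]))
  exact H83.MO.not_MO Z h g hc ho gc gs gf hgf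

end Pool.Agent.S12748
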