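import Pool.Statements.S12763
import Pool.Agent.H82.CpCp

set_option autoImplicit false
open Pool Pool.MP_10e961_gt

namespace Pool.Agent.S12763

theorem result :
    ∀ (κ : Cardinal.{0}), Cardinal.aleph0 ≤ κ →
      ∀ (X Y : Type) [TopologicalSpace X] [T35Space X] [TopologicalSpace Y] [T35Space Y],
        (∀ A : Set X, Cardinal.mk (↥A) ≤ κ → Cardinal.mk (↥(closure A)) ≤ κ) →
        Nonempty ({g : {f : X → ℝ // Continuous f} → ℝ // Continuous g} ≃ₜ
                  {g : {f : Y → ℝ // Continuous f} → ℝ // Continuous g}) →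
        ∀ B : Set Y, Cardinal.mk (↥B) ≤ κ → Cardinal.mk (↥(closure B)) ≤ κ := by
  intro κ hκ X Y _ _ _ _ hX ⟨e⟩ B hB
  exact H82.CpCp.scattered hκ hX e B hB

end Pool.Agent.S12763
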