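import Pool.Statements.S12765
import Pool.Agent.H33.KAn

set_option autoImplicit false
open Pool Pool.MP_1117a1_gt

namespace Pool.Agent.S12765

/-- For compact Hausdorff X, Y: if the n-th iterated pointwise function spaces C_{p,n}(X) and C_{p,n}(Y) are homeomorphic, then C_p(X) is K-analytic (compact-valued usco cover from Baire space) iff C_p(Y) is. -/
theorem result :
    ∀ (X Y : Type) [TopologicalSpace X] [TopologicalSpace Y],
      CompactSpace X → T2Space X → CompactSpace Y → T2Space Y →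
      ∀ (n : ℕ) (A B : ℕ → Type) [∀ k, TopologicalSpace (A k)] [∀ k, TopologicalSpace (B k)],
        Nonempty (A 0 ≃ₜ X) →
        (∀ k, Nonempty (A (k + 1) ≃ₜ {f : A k → ℝ // Continuous f})) →
        Nonempty (B 0 ≃ₜ Y) →
        (∀ k, Nonempty (B (k + 1) ≃ₜ {f : B k → ℝ // Continuous f})) →
        Nonempty (A n ≃ₜ B n) →
        ((∃ F : (ℕ → ℕ) → Set {f : X → ℝ // Continuous f},
            (∀ s, IsCompact (F s)) ∧ (∀ z, ∃ s, z ∈ F s) ∧
            ∀ U : Set {f : X → ℝ // Continuous f}, IsOpen U → IsOpen {s | F s ⊆ U}) ↔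
         (∃ F : (ℕ → ℕ) → Set {f : Y → ℝ // Continuous f},
            (∀ s, IsCompact (F s)) ∧ (∀ z, ∃ s, z ∈ F s) ∧
            ∀ U : Set {f : Y → ℝ // Continuous f}, IsOpen U → IsOpen {s | F s ⊆ U})) := by
  intro X Y _ _ _ _ _ _ n A B _ _ ⟨a0⟩ a ⟨b0⟩ b ⟨e⟩
  rw [← Pool.Agent.H33.KAn.ka_iff, ← Pool.Agent.H33.KAn.ka_iff]
  exact ⟨Pool.Agent.H33.KAn.main n A B a0 (fun k => (a k).some) b0 (fun k => (b k).some) e,
    Pool.Agent.H33.KAn.main n B A b0 (fun k => (b k).some) a0 (fun k => (a k).some) e.symm⟩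

end Pool.Agent.S12765
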