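import Pool.Statements.S12767
import Pool.Agent.H82.ScEG3

set_option autoImplicit false
open Pool Pool.MP_11262c_gt

namespace Pool.Agent.S12767

open Pool.Agent.H82.ScEG2 in
theorem result :
    ∀ (X : Type) [TopologicalSpace X],
      (∃ (K : Type) (_ : TopologicalSpace K), CompactSpace K ∧ T2Space K ∧
        ∃ f : X → (K → ℝ), Topology.IsEmbedding f ∧ ∀ x, Continuous (f x)) →
      LindelofSpace X →
      (∀ S : Set X, S.Nonempty → ∃ x ∈ S, ∃ U : Set X, IsOpen U ∧ U ∩ S = {x}) →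
      ∃ D : ℕ → Set X, (⋃ n, D n) = Set.univ ∧ ∀ n, DiscreteTopology (D n) := by
  rintro X _ ⟨K, _, _, -, h1⟩ h2 h3
  obtain ⟨D, h4, h5⟩ := lindelof K X ⟨h1, h2, h3⟩
  refine ⟨D, Set.eq_univ_of_univ_subset h4, fun n => discreteTopology_iff_isOpen_singleton.2 ?_⟩
  rintro ⟨x, hx⟩
  obtain ⟨U, hU, h6⟩ := h5 n x hx
  have h7 : x ∈ U ∩ D n := h6 ▸ rfl
  refine isOpen_induced_iff.2 ⟨U, hU, Set.eq_singleton_iff_unique_mem.2 ⟨h7.1, fun y hy => ?_⟩⟩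
  have h8 : y.1 ∈ U ∩ D n := ⟨hy, y.2⟩
  rw [h6] at h8
  exact Subtype.ext h8

end Pool.Agent.S12767
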