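import Pool.Statements.S12771
import Pool.Agent.H83.ZSet

set_option autoImplicit false
open Pool Pool.MP_1144d4_gt

namespace Pool.Agent.S12771

/-- In the space of continuous surjections of [0,1] (sup metric), for every continuous positive ε there is a continuous self-map moving each point less than ε into the complement of the closure of the transitive maps, i.e. that closure is a Z-set. -/
theorem result :
    ∀ ε : {f : C(Set.Icc (0:ℝ) 1, Set.Icc (0:ℝ) 1) // Function.Surjective ⇑f} → ℝ,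
      Continuous ε → (∀ g, 0 < ε g) →
      ∃ φ : {f : C(Set.Icc (0:ℝ) 1, Set.Icc (0:ℝ) 1) // Function.Surjective ⇑f} →
          {f : C(Set.Icc (0:ℝ) 1, Set.Icc (0:ℝ) 1) // Function.Surjective ⇑f},
        Continuous φ ∧ ∀ g, dist (φ g) g < ε g ∧
          φ g ∉ closure {h : {f : C(Set.Icc (0:ℝ) 1, Set.Icc (0:ℝ) 1) // Function.Surjective ⇑f} |
            ∀ U V : Set (Set.Icc (0:ℝ) 1), IsOpen U → IsOpen V → U.Nonempty → V.Nonempty →
              ∃ n : ℕ, 0 < n ∧ ((⇑h.1)^[n] '' U ∩ V).Nonempty} := by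
  intro ε hε hpos
  obtain ⟨φ, hφ, h⟩ := Pool.Agent.H83.ZSet.main ε hε hpos
  refine ⟨φ, hφ, fun g => ⟨(h g).1, fun hc => ?_⟩⟩
  obtain ⟨p, η, a, hη, ha, hm⟩ := (h g).2
  obtain ⟨k, hk, hT⟩ := mem_closure_iff.1 hc _
    ((ContinuousMap.isOpen_setOfPred_mapsTo (isCompact_closedBall p η)
      (Metric.isOpen_ball (x := p) (ε := η))).preimage continuous_subtype_val) hm
  obtain ⟨n, -, _, ⟨y, hy, rfl⟩, hy'⟩ := hT (Metric.ball p η) (Metric.closedBall p η)ᶜ
    Metric.isOpen_ball Metric.isClosed_closedBall.isOpen_compl ⟨p, Metric.mem_ball_self hη⟩ ⟨a, ha⟩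
  have hk' : Set.MapsTo k.1 (Metric.closedBall p η) (Metric.closedBall p η) :=
    Set.MapsTo.mono_right hk Metric.ball_subset_closedBall
  exact hy' (hk'.iterate n (Metric.ball_subset_closedBall hy))

end Pool.Agent.S12771
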