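import Pool.Statements.S12798
import Pool.Agent.H62.Irred

set_option autoImplicit false
open Pool Pool.MP_1501ba_gt

namespace Pool.Agent.S12798

/-- The negation of the preceding statement: Take a compact connected metric space M and a continuous surjection f onto [0,1] with connected fibres, such that no closed proper subset mapped onto [0,1] has f restricted to it with connected fibres. Then some two points of M lie in no proper closed connected subset. -/
theorem result :
    ¬ (∀ (M : Type) [MetricSpace M] [CompactSpace M] [ConnectedSpace M]
      (f : C(M, unitInterval)),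
      Function.Surjective f →
      (∀ t : unitInterval, IsPreconnected (f ⁻¹' {t})) →
      (∀ D : Set M, IsClosed D → D ≠ Set.univ → f '' D = Set.univ →
        ¬ ∀ t : unitInterval, IsPreconnected (D ∩ f ⁻¹' {t})) →
      ∃ p q : M, ∀ K : Set M, IsClosed K → IsConnected K → p ∈ K → q ∈ K →
        K = Set.univ) := by
  intro h
  obtain ⟨M, i1, i2, i3, f, h1, h2, h3, h4⟩ := Pool.Agent.H62.Irred.final
  obtain ⟨p, q, hpq⟩ := h M f h1 h2 h3
  obtain ⟨K, k1, k2, k3, k4, k5⟩ := h4 p q
  exact k5 (hpq K k1 k2 k3 k4)

end Pool.Agent.S12798
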