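import Pool.Statements.S12801
import Pool.Agent.H8.Hedge

set_option autoImplicit false
open Pool Pool.MP_15cd64_gt

namespace Pool.Agent.S12801

/-- There exist two analytic hedgehogs of R^3 with the same curvature function on the unit sphere such that neither support function is ±(the other composed with an isometry) plus a linear term. Support functions are taken as 1-homogeneous; curvature function = σ₂ of the Hessian. -/
theorem result :
    ∃ H₁ H₂ : EuclideanSpace ℝ (Fin 3) → ℝ,
      (∀ x : EuclideanSpace ℝ (Fin 3), ∀ c : ℝ, 0 < c → H₁ (c • x) = c * H₁ x) ∧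
      (∀ x : EuclideanSpace ℝ (Fin 3), ∀ c : ℝ, 0 < c → H₂ (c • x) = c * H₂ x) ∧
      AnalyticOnNhd ℝ H₁ {x : EuclideanSpace ℝ (Fin 3) | x ≠ 0} ∧
      AnalyticOnNhd ℝ H₂ {x : EuclideanSpace ℝ (Fin 3) | x ≠ 0} ∧
      (∀ u : EuclideanSpace ℝ (Fin 3), ‖u‖ = 1 →
        (∑ i : Fin 3, ∑ j : Fin 3,
          (fderiv ℝ (fderiv ℝ H₁) u (EuclideanSpace.single i 1) (EuclideanSpace.single i 1) *
            fderiv ℝ (fderiv ℝ H₁) u (EuclideanSpace.single j 1) (EuclideanSpace.single j 1) -
           fderiv ℝ (fderiv ℝ H₁) u (EuclideanSpace.single i 1) (EuclideanSpace.single j 1) *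
            fderiv ℝ (fderiv ℝ H₁) u (EuclideanSpace.single j 1) (EuclideanSpace.single i 1)) / 2)
        =
        (∑ i : Fin 3, ∑ j : Fin 3,
          (fderiv ℝ (fderiv ℝ H₂) u (EuclideanSpace.single i 1) (EuclideanSpace.single i 1) *
            fderiv ℝ (fderiv ℝ H₂) u (EuclideanSpace.single j 1) (EuclideanSpace.single j 1) -
           fderiv ℝ (fderiv ℝ H₂) u (EuclideanSpace.single i 1) (EuclideanSpace.single j 1) *
            fderiv ℝ (fderiv ℝ H₂) u (EuclideanSpace.single j 1) (EuclideanSpace.single i 1)) / 2)) ∧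
      ¬ ∃ A : EuclideanSpace ℝ (Fin 3) ≃ₗᵢ[ℝ] EuclideanSpace ℝ (Fin 3),
        ∃ t : EuclideanSpace ℝ (Fin 3), ∃ ε : ℝ, (ε = 1 ∨ ε = -1) ∧
          ∀ x : EuclideanSpace ℝ (Fin 3), H₂ x = ε * H₁ (A x) + inner ℝ x t := by
  open Pool.Agent.H8.Hedge in
  refine ⟨H 1, H (-1), hom 1, hom (-1), fun x hx => an 1 hx, fun x hx => an (-1) hx,
    fun u hu => ?_, ?_⟩
  · have h0 : u ≠ 0 := by rintro rfl; simp at hu
    simp only [D2 _ h0, M, r2, Q, p, q, Fin.sum_univ_three]
    simp
    ring
  · rintro ⟨A, t, ε, hε, h⟩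
    let e : V := EuclideanSpace.single 0 1
    have a := h (A.symm e)
    have b := h (-A.symm e)
    have c := bound (x := A.symm e) (by simp [e])
    have d : H 1 e = 6 := by
      have : r e = 2 := by
        rw [r, show Q e = 2 ^ 2 by simp [Q, e]; norm_num, Real.sqrt_sq (by norm_num)]
      simp [H, this, e]; norm_num
    rw [map_neg, even, even, inner_neg_left] at b
    rw [A.apply_symm_apply, d] at a b
    rcases hε with rfl | rfl <;> linarith [abs_lt.1 c]

end Pool.Agent.S12801
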