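import Pool.Statements.S12835
import Pool.Agent.H83.Push

set_option autoImplicit false
open Filter Topology
open Pool Pool.MP_1a07a1_gt

namespace Pool.Agent.S12835

/-- For every n ≥ 2 and every nonempty closed set C in the unit sphere of ℝⁿ, some sequence of self-homeomorphisms of the sphere converges pointwise everywhere to points of C, with every point of C attained as a limit. -/
theorem result :
    ∀ n : ℕ, 2 ≤ n →
      ∀ C : Set ↥(Metric.sphere (0 : EuclideanSpace ℝ (Fin n)) (1 : ℝ)),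
        IsClosed C → C.Nonempty →
        ∃ H : ℕ → (↥(Metric.sphere (0 : EuclideanSpace ℝ (Fin n)) (1 : ℝ)) ≃ₜ
                    ↥(Metric.sphere (0 : EuclideanSpace ℝ (Fin n)) (1 : ℝ))),
          (∀ p : ↥(Metric.sphere (0 : EuclideanSpace ℝ (Fin n)) (1 : ℝ)),
              ∃ q ∈ C, Tendsto (fun k : ℕ => H k p) atTop (𝓝 q)) ∧
          (∀ q ∈ C, ∃ p : ↥(Metric.sphere (0 : EuclideanSpace ℝ (Fin n)) (1 : ℝ)),
              Tendsto (fun k : ℕ => H k p) atTop (𝓝 q)) := by
  intro n hn C hC ⟨c, hc⟩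
  obtain ⟨m, rfl⟩ : ∃ m, n = m + 1 := ⟨n - 1, by omega⟩
  have hv : ‖c.1‖ = 1 := by simpa using c.2
  have hv₀ : c.1 ≠ 0 := fun h => by simp [h] at hv
  haveI : Fact (Module.finrank ℝ (EuclideanSpace ℝ (Fin (m + 1))) = m + 1) := ⟨by simp⟩
  have hV : Module.finrank ℝ (Fin m → ℝ) = Module.finrank ℝ (Submodule.span ℝ {c.1})ᗮ := by
    rw [Submodule.finrank_orthogonal_span_singleton (n := m) hv₀]; simp
  let e : (Fin m → ℝ) ≃ₜ (Submodule.span ℝ {c.1})ᗮ :=
    (FiniteDimensional.nonempty_continuousLinearEquiv_of_finrank_eq hV).some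
  haveI : ConnectedSpace (Metric.sphere (0 : EuclideanSpace ℝ (Fin (m + 1))) (1 : ℝ)) :=
    isConnected_iff_connectedSpace.1 (isConnected_sphere (by
      rw [← Module.finrank_eq_rank]; simp only [finrank_euclideanSpace, Fintype.card_fin]
      exact_mod_cast hn) _ zero_le_one)
  obtain ⟨H, h1, h2⟩ := Pool.Agent.H83.Push.main
    (e.onePointCongr.trans (onePointHyperplaneHomeoUnitSphere hv)) hC hc
  exact ⟨H, h1, fun q hq => ⟨q, tendsto_const_nhds.congr fun k => (h2 q hq k).symm⟩⟩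

end Pool.Agent.S12835
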