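import Pool.Statements.S12849
import Pool.Agent.H68.Gn6

set_option autoImplicit false
open Pool Pool.MP_1ce9e9_gt
open Pool.Agent.H68.Gn

namespace Pool.Agent.S12849

/-- There is a nonempty finite plane set S such that for every N some straight-line planar net with simple unit-weight edges has exactly S as its unbalanced vertices and more than N balanced vertices (degree ≥3, unit edge vectors summing to 0). -/
theorem result :
    ∃ S : Finset ℂ, S.Nonempty ∧
      ∀ N : ℕ, ∃ V : Finset ℂ, ∃ G : SimpleGraph ℂ,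
        (∀ a b : ℂ, G.Adj a b → a ∈ V ∧ b ∈ V) ∧
        (∀ a b c d : ℂ, G.Adj a b → G.Adj c d →
            ¬ ((a = c ∧ b = d) ∨ (a = d ∧ b = c)) →
            ∀ x ∈ segment ℝ a b ∩ segment ℝ c d, (x = a ∨ x = b) ∧ (x = c ∨ x = d)) ∧
        (∀ a b v : ℂ, G.Adj a b → v ∈ V → v ∈ segment ℝ a b → v = a ∨ v = b) ∧
        S ⊆ V ∧
        (∀ v ∈ V, v ∈ S ↔
            ¬ (3 ≤ (G.neighborSet v).ncard ∧
               (∑ᶠ w ∈ G.neighborSet v, (w - v) / ((‖w - v‖ : ℝ) : ℂ)) = 0)) ∧
        N < Set.ncard {v : ℂ | v ∈ V ∧ 3 ≤ (G.neighborSet v).ncard ∧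
               (∑ᶠ w ∈ G.neighborSet v, (w - v) / ((‖w - v‖ : ℝ) : ℂ)) = 0} := by
  classical
  obtain ⟨η, h0, h1, hch⟩ := chain
  refine ⟨insert (R 1 ⟨1, η⟩) (insert (R (-1) ⟨1, -η⟩)
    (Finset.univ.image fun x : Fin 2 × Fin 3 => R (sg x.1) (sp x.2))), by simp, fun N => ?_⟩
  obtain ⟨p, p0, p1, pb, pG, pc⟩ := hch (2 * N + 2) (by omega)
  have hp : ∀ k, |(p k).re - 1| ≤ 1 / 100 ∧ |(p k).im| ≤ 1 / 100 := fun k => by
    have a := Complex.abs_re_le_norm (p k - 1)
    have b := Complex.abs_im_le_norm (p k - 1)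
    have c := pb k
    simp only [Complex.sub_re, Complex.sub_im, Complex.one_re, Complex.one_im, sub_zero] at a b
    constructor <;> linarith
  have hc := cone p _ pc
  obtain ⟨V, G, c1, c2, c3, c4, c5, c6, c7⟩ := net p _ hp hc
  have q0 : R 1 ⟨1, η⟩ = qq p 0 := by simp [qq, sg, p0]
  have q1 : R (-1) ⟨1, -η⟩ = qq p (2 * N + 2 + 1) := by
    rw [qq, p1, sg_succ, sg_succ, sg_succ, sg, pow_mul]; simp
  have s2 : ∀ k, ∃ e : Fin 2, sg e = sg k := fun k => by
    rcases sg_or k with h | h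
    · exact ⟨0, by rw [h]; simp [sg]⟩
    · exact ⟨1, by rw [h]; simp [sg]⟩
  have mid : ∀ k, k + 1 ≤ 2 * N + 2 → qq p (k + 1) ∈ V ∧
      3 ≤ (G.neighborSet (qq p (k + 1))).ncard ∧ tot p (2 * N + 2) (qq p (k + 1)) = 0 :=
    fun k hk => ⟨(c4 _ hk none).1, c7 _ hk, tot_mid p _ hp hc k hk (pG k hk)⟩
  rw [q0, q1]
  refine ⟨V, G, c1, c2, c3, fun v hv => ?_, fun v hv => ⟨fun h h' => ?_, fun h => ?_⟩, ?_⟩
  · simp only [Finset.mem_insert, Finset.mem_image, Finset.mem_univ, true_and] at hv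
    rcases hv with rfl | rfl | ⟨x, rfl⟩
    · exact (c4 0 (by omega) none).1
    · exact (c4 _ le_rfl none).2
    · exact (c4 x.1 (by omega) (some x.2)).2
  · have := h'.2
    rw [c5 v hv] at this
    simp only [Finset.mem_insert, Finset.mem_image, Finset.mem_univ, true_and] at h
    rcases h with rfl | rfl | ⟨x, rfl⟩
    · exact tot_zero p _ hp hc this
    · exact tot_last p _ hp hc this
    · exact tot_sp p _ hp _ (by omega) _ this
  · by_contra hn
    simp only [Finset.mem_insert, Finset.mem_image, Finset.mem_univ, true_and, not_or,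
      not_exists] at hn
    obtain ⟨n0, n1, n2⟩ := hn
    rw [c5 v hv] at h
    have key : ∀ k, k ≤ 2 * N + 2 + 1 → qq p k ≠ v := by
      rintro (_ | k) hk rfl
      · exact n0 rfl
      · rcases hk.eq_or_lt with e | e
        · exact n1 (by rw [e])
        · exact h (mid k (by omega)).2
    refine h (c6 v hv fun k hk o => ⟨key k (by omega), ?_⟩)
    rcases o with _ | j
    · exact key (k + 1) (by omega)
    · obtain ⟨e, he⟩ := s2 k
      have := n2 (e, j)
      rw [he] at this
      exact this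
  · have hi : Set.InjOn (fun k => qq p (k + 1)) (Finset.range (N + 1) : Set ℕ) := by
      intro i hi j hj e
      simp only [Finset.coe_range, Set.mem_Iio] at hi hj
      have := qinj p _ hc _ _ (by omega) (by omega) e
      omega
    refine lt_of_lt_of_le (b := ((fun k => qq p (k + 1)) '' (Finset.range (N + 1) : Set ℕ)).ncard)
      (by rw [hi.ncard_image, Set.ncard_coe_finset, Finset.card_range]; omega)
      (Set.ncard_le_ncard ?_ (V.finite_toSet.subset fun v hv => hv.1))
    rintro _ ⟨k, hk, rfl⟩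
    simp only [Finset.coe_range, Set.mem_Iio] at hk
    obtain ⟨a, b, c⟩ := mid k (by omega)
    exact ⟨a, b, (c5 _ a).trans c⟩

end Pool.Agent.S12849
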