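import Pool.Statements.S12863
import Pool.Agent.H84.WijChoquet

set_option autoImplicit false
open Pool Pool.MP_1e945b_gt

namespace Pool.Agent.S12863

/-- For a metrizable space X: if, for every compatible metric d, player II has a winning strategy in the strong Choquet game on the nonempty closed sets of X with the Wijsman topology of d, then X admits a compatible complete metric. -/
theorem result :
  ∀ (X : Type) [t : TopologicalSpace X], TopologicalSpace.MetrizableSpace X →
    (∀ (m : MetricSpace X), m.toUniformSpace.toTopologicalSpace = t →
      ∀ τ : TopologicalSpace {A : Set X // IsClosed A ∧ A.Nonempty},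
        τ = ⨅ x : X, TopologicalSpace.induced
              (fun A : {A : Set X // IsClosed A ∧ A.Nonempty} =>
                @EMetric.infEdist X m.toPseudoEMetricSpace x A.1)
              (inferInstance : TopologicalSpace ENNReal) →
        ∃ σ : List ({A : Set X // IsClosed A ∧ A.Nonempty} ×
                Set {A : Set X // IsClosed A ∧ A.Nonempty}) →
              Set {A : Set X // IsClosed A ∧ A.Nonempty},
          (∀ (h : List ({A : Set X // IsClosed A ∧ A.Nonempty} ×
                Set {A : Set X // IsClosed A ∧ A.Nonempty}))
              (y : {A : Set X // IsClosed A ∧ A.Nonempty})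
              (U : Set {A : Set X // IsClosed A ∧ A.Nonempty}),
              y ∈ U → @IsOpen _ τ U →
                @IsOpen _ τ (σ (h ++ [(y, U)])) ∧ y ∈ σ (h ++ [(y, U)]) ∧
                  σ (h ++ [(y, U)]) ⊆ U) ∧
          ∀ p : ℕ → ({A : Set X // IsClosed A ∧ A.Nonempty} ×
                Set {A : Set X // IsClosed A ∧ A.Nonempty}),
            (∀ n, (p n).1 ∈ (p n).2 ∧ @IsOpen _ τ (p n).2) →
            (∀ n, (p (n + 1)).2 ⊆ σ (List.ofFn (fun i : Fin (n + 1) => p i.val))) →
            (⋂ n, σ (List.ofFn (fun i : Fin (n + 1) => p i.val))).Nonempty) →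
    ∃ m : MetricSpace X, m.toUniformSpace.toTopologicalSpace = t ∧
      @CompleteSpace X m.toUniformSpace := by
  intro X t hX h
  let m0 : MetricSpace X := TopologicalSpace.metrizableSpaceMetric X
  have := @Pool.Agent.H84.WijChoquet.main X m0 (fun m e => by
    subst e
    exact h m rfl _ rfl)
  exact this.complete

end Pool.Agent.S12863
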