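import Pool.Statements.S12876
import Pool.Agent.H33.ScatVal

set_option autoImplicit false
open Pool Pool.MP_206312_gt

namespace Pool.Agent.S12876

/-- The negation of the preceding statement: There is a compact Hausdorff scattered space embedded in a cube [0,1]^Γ so that points with coordinates tending to zero are dense, and which contains a homeomorphic copy of the ordinal interval [0, ω₂]. -/
theorem result :
    ¬ (∃ (X : Type) (_ : TopologicalSpace X), CompactSpace X ∧ T2Space X ∧
      (∀ A : Set X, A.Nonempty → ∃ x ∈ A, ∃ U : Set X, IsOpen U ∧ U ∩ A = {x}) ∧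
      (∃ (Γ : Type) (e : X → (Γ → ℝ)), Topology.IsEmbedding e ∧
        (∀ x γ, e x γ ∈ Set.Icc (0 : ℝ) 1) ∧
        Dense {x : X | ∀ ε : ℝ, 0 < ε → {γ : Γ | ε ≤ |e x γ|}.Finite}) ∧
      ∃ f : Set.Iic (Cardinal.aleph.{0} 2).ord → X, Topology.IsEmbedding f) := by
  rintro ⟨X, _, _, _, hs, ⟨Γ, e, he, -, hD⟩, f, hf⟩
  refine Pool.Agent.H33.ScatVal.main he (hD.mono fun x hx => ?_) hs f hf
  refine (Set.countable_iUnion fun n : ℕ =>
    (hx _ (Nat.one_div_pos_of_nat (n := n))).countable).mono fun γ hγ => ?_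
  obtain ⟨n, hn⟩ := exists_nat_one_div_lt (abs_pos.2 hγ)
  exact Set.mem_iUnion.2 ⟨n, hn.le⟩

end Pool.Agent.S12876
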