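import Pool.Statements.S12878
import Pool.Agent.H83.Lelek2

set_option autoImplicit false
open Filter Topology
open Pool Pool.MP_211c6f_gt

namespace Pool.Agent.S12878

/-- The negation of the preceding statement: For the Lelek fan, any two pairings of dense disjoint sequences of endpoints whose point-pair identifications give Hausdorff quotients yield homeomorphic quotient spaces. -/
theorem result :
    ¬ (∀ (X : Type) [MetricSpace X] [CompactSpace X] [ConnectedSpace X] [PathConnectedSpace X]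
    (v : X) (E : Set X),
    (∀ K M : Set X, IsClosed K → IsConnected K → IsClosed M → IsConnected M →
      IsPreconnected (K ∩ M)) →
    (∀ w : X, (∃ γ : Fin 3 → unitInterval → X,
        (∀ i, Continuous (γ i) ∧ Function.Injective (γ i) ∧ γ i 0 = w) ∧
        ∀ i j, i ≠ j → Set.range (γ i) ∩ Set.range (γ j) = {w}) ↔ w = v) →
    (∀ (x : ℕ → X) (y : X) (S : ℕ → Set X) (T : Set X),
      Tendsto x atTop (𝓝 y) →
      (∀ n, (x n = v ∧ S n = {v}) ∨ ∃ γ : unitInterval → X, Continuous γ ∧
        Function.Injective γ ∧ γ 0 = v ∧ γ 1 = x n ∧ Set.range γ = S n) →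
      ((y = v ∧ T = {v}) ∨ ∃ γ : unitInterval → X, Continuous γ ∧
        Function.Injective γ ∧ γ 0 = v ∧ γ 1 = y ∧ Set.range γ = T) →
      Tendsto (fun n => Metric.hausdorffDist (S n) T) atTop (𝓝 0)) →
    E = {e : X | ∀ γ : unitInterval → X, Continuous γ → Function.Injective γ →
      e ∈ Set.range γ → e = γ 0 ∨ e = γ 1} →
    Dense E →
    ∀ (a b a' b' : ℕ → X) (D D' : Setoid X),
      Function.Injective a → Function.Injective b → (∀ n, a n ∈ E ∧ b n ∈ E) →
      Disjoint (Set.range a) (Set.range b) → Dense (Set.range a) → Dense (Set.range b) →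
      Function.Injective a' → Function.Injective b' → (∀ n, a' n ∈ E ∧ b' n ∈ E) →
      Disjoint (Set.range a') (Set.range b') → Dense (Set.range a') → Dense (Set.range b') →
      D = sInf {s : Setoid X | ∀ n, s.r (a n) (b n)} →
      D' = sInf {s : Setoid X | ∀ n, s.r (a' n) (b' n)} →
      T2Space (Quotient D) → T2Space (Quotient D') →
      Nonempty (Quotient D ≃ₜ Quotient D')) := by
  intro H
  obtain ⟨a, b, h, hc⟩ := H83.Lelek.pair1
  obtain ⟨a', b', h', hc'⟩ := H83.Lelek.pair2
  have dj : ∀ {a b : ℕ → H83.Lelek.X}, H83.Lelek.Pr a b → Disjoint (Set.range a) (Set.range b) :=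
    fun h => Set.disjoint_left.2 (by
      rintro _ ⟨m, rfl⟩ ⟨n, e⟩
      exact h.dj m n e.symm)
  obtain ⟨e⟩ := H H83.Lelek.X H83.Lelek.v H83.Lelek.E H83.Lelek.unicoh H83.Lelek.ramif
    H83.Lelek.smooth rfl (h.da.mono (by
      rintro _ ⟨n, rfl⟩
      exact H83.Lelek.top_sub (h.top n).1)) a b a' b' _ _ h.ia h.ib
    (fun n => ⟨H83.Lelek.top_sub (h.top n).1, H83.Lelek.top_sub (h.top n).2⟩) (dj h) h.da h.db
    h'.ia h'.ib
    (fun n => ⟨H83.Lelek.top_sub (h'.top n).1, H83.Lelek.top_sub (h'.top n).2⟩) (dj h') h'.da h'.db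
    rfl rfl h.t2 h'.t2
  refine hc ?_
  have := e.isPreconnected_preimage.2 (hc' (e (H83.Lelek.π a b H83.Lelek.v)))
  refine Eq.mpr (congrArg IsPreconnected ?_) this
  ext p
  exact (not_congr e.injective.eq_iff).symm

end Pool.Agent.S12878
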