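import Pool.Statements.S12880
import Pool.Agent.H88.Zon7

set_option autoImplicit false
open Pool Pool.MP_217de7_gt

namespace Pool.Agent.S12880

/-- The negation of the preceding statement: For every ε>0, in all large dimensions n, every centered zonoid in ℝⁿ whose polar is also a zonoid has a linear image squeezed between the unit ball and its (1+ε)-dilate, i.e. Banach–Mazur distance to the ball tends to 1. -/
theorem result :
    ¬ (∀ ε : ℝ, 0 < ε → ∃ N : ℕ, ∀ n : ℕ, N ≤ n →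
      ∀ Z : Set (EuclideanSpace ℝ (Fin n)),
        (Z.Nonempty ∧ IsCompact Z ∧
          ∀ δ : ℝ, 0 < δ → ∃ m : ℕ, ∃ v : Fin m → EuclideanSpace ℝ (Fin n),
            Metric.hausdorffDist Z
              {x | ∃ t : Fin m → ℝ, (∀ i, |t i| ≤ 1) ∧ x = ∑ i, t i • v i} < δ) →
        (({y | ∀ x ∈ Z, inner ℝ x y ≤ (1 : ℝ)} : Set (EuclideanSpace ℝ (Fin n))).Nonempty ∧
          IsCompact ({y | ∀ x ∈ Z, inner ℝ x y ≤ (1 : ℝ)} : Set (EuclideanSpace ℝ (Fin n))) ∧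
          ∀ δ : ℝ, 0 < δ → ∃ m : ℕ, ∃ v : Fin m → EuclideanSpace ℝ (Fin n),
            Metric.hausdorffDist
              ({y | ∀ x ∈ Z, inner ℝ x y ≤ (1 : ℝ)} : Set (EuclideanSpace ℝ (Fin n)))
              {x | ∃ t : Fin m → ℝ, (∀ i, |t i| ≤ 1) ∧ x = ∑ i, t i • v i} < δ) →
        ∃ T : EuclideanSpace ℝ (Fin n) ≃ₗ[ℝ] EuclideanSpace ℝ (Fin n),
          Metric.closedBall (0 : EuclideanSpace ℝ (Fin n)) 1 ⊆ T '' Z ∧
            T '' Z ⊆ Metric.closedBall (0 : EuclideanSpace ℝ (Fin n)) (1 + ε)) := by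
  intro H
  obtain ⟨N, hN⟩ := H (1 / 20) (by norm_num)
  set e : EuclideanSpace ℝ (Fin (N + 2)) := EuclideanSpace.single 0 1 with he
  set e' : EuclideanSpace ℝ (Fin (N + 2)) := EuclideanSpace.single 1 1 with he'
  have h1 : ‖e‖ = 1 := by simp [he]
  have h2 : ‖e'‖ = 1 := by simp [he']
  have h3 : inner ℝ e e' = 0 := by simp [he, he', EuclideanSpace.inner_single_left]
  obtain ⟨T1, T2, a1, a2, a3⟩ := Pool.Agent.H88.Zon.bodies e e' h1 h2 h3
  obtain ⟨W1, hW1, b1⟩ := Pool.Agent.H88.Zon.exists_vec T1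
  obtain ⟨W2, hW2, b2⟩ := Pool.Agent.H88.Zon.exists_vec T2
  have z1 := Pool.Agent.H88.Zon.body_zonoid hW1
  have z2 := Pool.Agent.H88.Zon.body_zonoid hW2
  simp only [← b1] at z1
  simp only [← b2] at z2
  rw [← a3] at z1
  rw [← a2] at z2
  obtain ⟨T, c1, c2⟩ := hN (N + 2) (by omega) {x | ‖T1 x‖ ≤ 1} z2 z1
  exact Pool.Agent.H88.Zon.far e e' h1 h2 h3 T1 a1 T c1 c2

end Pool.Agent.S12880
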