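import Pool.Statements.S12905
import Pool.Agent.H8.Illum

set_option autoImplicit false
open Pool Pool.MP_26bcd4_gt

namespace Pool.Agent.S12905

/-- There is a natural number N such that for every compact convex set with nonempty interior in 3-space, every primitive inner illuminating set of it (a boundary subset illuminating from inside, no proper subset of which does) has at most N elements. -/
theorem result :
    ∃ N : ℕ, ∀ K : Set (EuclideanSpace ℝ (Fin 3)),
      IsCompact K → Convex ℝ K → (interior K).Nonempty →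
      ∀ A : Set (EuclideanSpace ℝ (Fin 3)),
        (A ⊆ frontier K ∧
          ∀ x ∈ frontier K, ∃ a ∈ A, ∃ ε : ℝ, 0 < ε ∧ ε < 1 ∧
            (1 - ε) • x + ε • a ∈ interior K) →
        (∀ B : Set (EuclideanSpace ℝ (Fin 3)), B ⊆ A → B ≠ A →
          ¬ (B ⊆ frontier K ∧
            ∀ x ∈ frontier K, ∃ b ∈ B, ∃ ε : ℝ, 0 < ε ∧ ε < 1 ∧
              (1 - ε) • x + ε • b ∈ interior K)) →
        A.encard ≤ (N : ℕ∞) := by
  refine ⟨10 ^ 12, fun K hK hc ⟨o, ho⟩ A ⟨hA, hI⟩ hP => ?_⟩
  have hf : frontier K ⊆ K := hK.isClosed.frontier_subset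
  have hx : ∀ a : A, ∃ x ∈ frontier K, (∃ ε : ℝ, (1 - ε) • x + ε • a.1 ∈ interior K) ∧
      ∀ b : A, a ≠ b → (1 - 1 / 2 : ℝ) • x + (1 / 2 : ℝ) • b.1 ∉ interior K := fun a => by
    have := hP (A \ {a.1}) Set.diff_subset fun e => (e.ge a.2).2 rfl
    push Not at this
    obtain ⟨x, hx, h⟩ := this (Set.diff_subset.trans hA)
    obtain ⟨c, hc, ε, h1, h2, h3⟩ := hI x hx
    refine ⟨x, hx, ⟨ε, ?_⟩, fun b e => h b ⟨b.2, fun c => e (Subtype.ext c).symm⟩ _
      (by norm_num) (by norm_num)⟩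
    by_contra h4
    exact h c ⟨hc, fun e => h4 (e ▸ h3)⟩ ε h1 h2 h3
  choose x hx h1 h2 using hx
  have hg : ∀ a b : A, ∃ g : Pool.Agent.H8.Illum.G, a ≠ b →
      (∀ y ∈ interior K, 0 < Pool.Agent.H8.Illum.ev g y) ∧
      (∀ y ∈ K, 0 ≤ Pool.Agent.H8.Illum.ev g y) ∧ Pool.Agent.H8.Illum.ev g (x a) = 0 ∧
      Pool.Agent.H8.Illum.ev g b = 0 := fun a b => by
    by_cases e : a = b
    · exact ⟨0, fun h => absurd e h⟩
    obtain ⟨f, hf'⟩ := geometric_hahn_banach_open_point hc.interior isOpen_interior (h2 a b e)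
    have : ∀ y ∈ K, f y ≤ f ((1 - 1 / 2 : ℝ) • x a + (1 / 2 : ℝ) • b.1) := fun y hy =>
      closure_minimal (fun z hz => (hf' z hz).le) (isClosed_le f.continuous continuous_const)
        (hc.closure_interior_eq_closure_of_nonempty_interior ⟨o, ho⟩ ▸ subset_closure hy)
    refine ⟨(f, _), fun _ => ⟨fun y hy => sub_pos.2 (hf' y hy), fun y hy => sub_nonneg.2 (this y hy),
      ?_, ?_⟩⟩ <;>
    · have a1 := this _ (hf (hx a))
      have a2 := this _ (hf (hA b.2))
      simp only [Pool.Agent.H8.Illum.ev, map_add, map_smul, smul_eq_mul] at a1 a2 ⊢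
      linarith
  choose g hg using hg
  have C : Pool.Agent.H8.Illum.Cfg x (fun a : A => a.1) o g :=
    ⟨fun i j e => (hg i j e).2.2.1, fun i j e => (hg i j e).2.2.2,
      fun i j k e => (hg i j e).2.1 _ (hf (hx k)), fun i j k e => (hg i j e).2.1 _ (hf (hA k.2)),
      fun i j e => (hg i j e).1 o ho, fun i j k e a b => by
        obtain ⟨ε, h⟩ := h1 k
        have := (hg i j e).1 _ h
        simp only [Pool.Agent.H8.Illum.ev, map_add, map_smul, smul_eq_mul] at a b this
        rw [← sub_eq_zero.1 a, ← sub_eq_zero.1 b] at this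
        linarith⟩
  by_contra hn
  obtain ⟨t, ht, e⟩ := Set.exists_subset_encard_eq (Order.add_one_le_of_lt (not_le.1 hn))
  have ft : t.Finite := Set.finite_of_encard_eq_coe (k := 10 ^ 12 + 1) (by rw [e]; norm_cast)
  classical
  have := C.bound (ft.toFinset.subtype (· ∈ A))
  rw [Finset.card_subtype, Finset.filter_true_of_mem fun y hy => ht (ft.mem_toFinset.1 hy)] at this
  rw [ft.encard_eq_coe_toFinset_card] at e
  norm_cast at e
  omega

end Pool.Agent.S12905
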