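import Pool.Statements.S12910
import Pool.Agent.H81.HadZon

set_option autoImplicit false
open Pool Pool.MP_26fc11_gt

namespace Pool.Agent.S12910

/-- The negation of the preceding statement: There is an absolute constant C such that for every n ≥ 1 and every centrally symmetric convex body K in R^n, some unit direction u has vol of the polar of the Steiner symmetral of K along u at most C times vol of the polar of K. -/
theorem result :
    ¬ (∃ C : ℝ, ∀ n : ℕ, 1 ≤ n → ∀ K : Set (EuclideanSpace ℝ (Fin n)),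
      IsCompact K → Convex ℝ K → (interior K).Nonempty → (∀ x ∈ K, -x ∈ K) →
      ∃ u : EuclideanSpace ℝ (Fin n), ‖u‖ = 1 ∧
        MeasureTheory.volume
          {y : EuclideanSpace ℝ (Fin n) |
            ∀ x ∈ {z : EuclideanSpace ℝ (Fin n) |
                (∃ s : ℝ, z + s • u ∈ K) ∧
                ENNReal.ofReal (2 * |inner ℝ z u|) ≤
                  MeasureTheory.volume {s : ℝ | z + s • u ∈ K}},
              inner ℝ x y ≤ (1 : ℝ)}
        ≤ ENNReal.ofReal C *
          MeasureTheory.volume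
            {y : EuclideanSpace ℝ (Fin n) | ∀ x ∈ K, inner ℝ x y ≤ (1 : ℝ)}) := by
  rintro ⟨C, h⟩
  obtain ⟨n, hn, K, hc, hK, hi, hs, h0, h1, H⟩ := H81.HadZon.main (|C| + 1)
  obtain ⟨u, hu, h2⟩ := h n hn K hc hK hi hs
  have h3 : ENNReal.ofReal (|C| + 1) * MeasureTheory.volume {y | ∀ x ∈ K, inner ℝ x y ≤ (1 : ℝ)} ≤
      ENNReal.ofReal C * MeasureTheory.volume {y | ∀ x ∈ K, inner ℝ x y ≤ (1 : ℝ)} := by
    refine le_trans (H u hu _ ?_) h2
    intro y hy x hx
    obtain ⟨s1, s2, a1, a2, a3⟩ := H81.SteinerPolar.chord hc hK hu hx.1 hx.2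
    exact hy x s1 s2 a1 a2 a3
  rw [ENNReal.mul_le_mul_iff_left h0 h1, ENNReal.ofReal_le_ofReal_iff'] at h3
  rcases h3 with h3 | h3 <;> linarith [le_abs_self C, abs_nonneg C]

end Pool.Agent.S12910
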