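import Pool.Statements.S12922

set_option autoImplicit false
open Pool Pool.MP_28e94d_gt

namespace Pool.Agent.S12922

open Set Filter Topology

/-- the invariant: a compact normal subgroup of countable index on which the conjugations
are equicontinuous -/
def Inv (H : Type) [Group H] [TopologicalSpace H] : Prop :=
  ∃ N : Subgroup H, N.Normal ∧ IsCompact (N : Set H) ∧ Countable (H ⧸ N) ∧
    ∀ U ∈ 𝓝 (1 : H), ∃ V ∈ 𝓝 (1 : H), ∀ g : H, ∀ x ∈ N, x ∈ V → g * x * g⁻¹ ∈ U

theorem countable_quot_iff {H : Type} [Group H] (N : Subgroup H) :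
    Countable (H ⧸ N) ↔ ∃ c : H → ℕ, ∀ a b, c a = c b → a⁻¹ * b ∈ N := by
  constructor
  · intro h
    obtain ⟨e, he⟩ := Countable.exists_injective_nat (H ⧸ N)
    exact ⟨fun a => e a, fun a b hab => QuotientGroup.eq.1 (he hab)⟩
  · rintro ⟨c, hc⟩
    refine ⟨⟨fun q => c q.out, fun p q hpq => ?_⟩⟩
    have := QuotientGroup.eq.2 (hc _ _ hpq)
    simpa using this

theorem inv_compact (H : Type) [Group H] [TopologicalSpace H] [IsTopologicalGroup H]
    [CompactSpace H] : Inv H := by
  refine ⟨⊤, inferInstance, isCompact_univ, (countable_quot_iff _).2 ⟨fun _ => 0, by simp⟩, ?_⟩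
  intro U hU
  obtain ⟨U', hU'U, hU'o, hU'⟩ := mem_nhds_iff.1 hU
  have hc : Continuous (fun p : H × H => p.1 * p.2 * p.1⁻¹) := by fun_prop
  obtain ⟨u, v, -, hv, hu1, hv1, huv⟩ := generalized_tube_lemma (isCompact_univ (X := H))
    (isCompact_singleton (x := (1 : H))) (hU'o.preimage hc) (by
      rintro ⟨a, b⟩ ⟨-, hb⟩
      have : b = 1 := hb
      subst this
      simpa using hU')
  refine ⟨v, hv.mem_nhds (hv1 rfl), fun g x _ hx => hU'U ?_⟩
  exact huv (a := (g, x)) ⟨hu1 (mem_univ _), hx⟩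

theorem inv_countable (H : Type) [Group H] [TopologicalSpace H] [Countable H] : Inv H := by
  refine ⟨⊥, inferInstance, by simp, ?_, ?_⟩
  · obtain ⟨e, he⟩ := Countable.exists_injective_nat H
    exact (countable_quot_iff _).2 ⟨e, fun a b hab => by simp [he hab]⟩
  · intro U hU
    refine ⟨univ, univ_mem, fun g x hx _ => ?_⟩
    rw [Subgroup.mem_bot.1 hx]
    simpa using mem_of_mem_nhds hU

theorem inv_prod (H₁ : Type) [Group H₁] [TopologicalSpace H₁]
    (H₂ : Type) [Group H₂] [TopologicalSpace H₂] (h₁ : Inv H₁) (h₂ : Inv H₂) :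
    Inv (H₁ × H₂) := by
  obtain ⟨N₁, hn₁, hc₁, hq₁, he₁⟩ := h₁
  obtain ⟨N₂, hn₂, hc₂, hq₂, he₂⟩ := h₂
  refine ⟨N₁.prod N₂, inferInstance, hc₁.prod hc₂, ?_, ?_⟩
  · obtain ⟨c₁, h₁⟩ := (countable_quot_iff _).1 hq₁
    obtain ⟨c₂, h₂⟩ := (countable_quot_iff _).1 hq₂
    refine (countable_quot_iff _).2 ⟨fun a => Nat.pair (c₁ a.1) (c₂ a.2), fun a b hab => ?_⟩
    obtain ⟨e1, e2⟩ := Nat.pair_eq_pair.1 hab
    exact ⟨h₁ _ _ e1, h₂ _ _ e2⟩
  · intro U hU
    obtain ⟨U₁, hU₁, U₂, hU₂, hUU⟩ := mem_nhds_prod_iff.1 hU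
    obtain ⟨V₁, hV₁, h₁⟩ := he₁ U₁ hU₁
    obtain ⟨V₂, hV₂, h₂⟩ := he₂ U₂ hU₂
    refine ⟨V₁ ×ˢ V₂, prod_mem_nhds hV₁ hV₂, fun g x hx hxV => hUU ?_⟩
    exact ⟨h₁ g.1 x.1 hx.1 hxV.1, h₂ g.2 x.2 hx.2 hxV.2⟩

theorem inv_sub (H : Type) [Group H] [TopologicalSpace H]
    (L : Subgroup H) (hL : IsClosed (L : Set H)) (h : Inv H) : Inv L := by
  obtain ⟨N, hn, hc, hq, he⟩ := h
  refine ⟨N.comap L.subtype, inferInstance, hL.isClosedEmbedding_subtypeVal.isCompact_preimage hc,
    ?_, ?_⟩
  · obtain ⟨c, h⟩ := (countable_quot_iff _).1 hq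
    exact (countable_quot_iff _).2 ⟨fun a => c a, fun a b hab => h _ _ hab⟩
  · intro U hU
    obtain ⟨U', hU', hUU⟩ := (mem_nhds_subtype _ _ _).1 hU
    obtain ⟨V, hV, h⟩ := he U' hU'
    refine ⟨Subtype.val ⁻¹' V, continuous_subtype_val.continuousAt.preimage_mem_nhds hV,
      fun g x hx hxV => hUU ?_⟩
    exact h g x hx hxV

theorem inv_image (H₁ : Type) [Group H₁] [TopologicalSpace H₁] [IsTopologicalGroup H₁]
    (H₂ : Type) [Group H₂] [TopologicalSpace H₂] [T2Space H₂]
    (f : H₁ →* H₂) (hf : Continuous f) (hs : Function.Surjective f) (h : Inv H₁) : Inv H₂ := by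
  obtain ⟨N, hn, hc, hq, he⟩ := h
  refine ⟨N.map f, hn.map f hs, hc.image hf, ?_, ?_⟩
  · obtain ⟨c, h⟩ := (countable_quot_iff _).1 hq
    choose s hs' using hs
    refine (countable_quot_iff _).2 ⟨fun a => c (s a), fun a b hab => ⟨_, h _ _ hab, ?_⟩⟩
    simp [hs']
  · intro U hU
    have hU' : f ⁻¹' U ∈ 𝓝 (1 : H₁) := hf.continuousAt.preimage_mem_nhds (by simpa using hU)
    obtain ⟨V₀, hV₀, h⟩ := he _ hU'
    obtain ⟨V, hVV, hVo, hV1⟩ := mem_nhds_iff.1 hV₀
    let S : Set H₁ := ⋃ k ∈ {k : H₁ | k ∈ N ∧ f k = 1}, (fun x => x * k) ⁻¹' V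
    have hSo : IsOpen S := isOpen_biUnion fun k _ => hVo.preimage (by fun_prop)
    have hC : IsClosed (f '' ((N : Set H₁) \ S)) := ((hc.diff hSo).image hf).isClosed
    refine ⟨(f '' ((N : Set H₁) \ S))ᶜ, hC.isOpen_compl.mem_nhds ?_, ?_⟩
    · rintro ⟨x, ⟨hxN, hxS⟩, hx⟩
      refine hxS (mem_biUnion (x := x⁻¹) ⟨N.inv_mem hxN, by simp [hx]⟩ ?_)
      simpa using hV1
    · rintro g _ ⟨x, hxN, rfl⟩ hx
      have hxS : x ∈ S := by
        by_contra hcon
        exact hx ⟨x, ⟨hxN, hcon⟩, rfl⟩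
      obtain ⟨k, ⟨hkN, hk⟩, hxk⟩ := mem_iUnion₂.1 hxS
      obtain ⟨g', rfl⟩ := hs g
      have := h g' (x * k) (N.mul_mem hxN hkN) (hVV hxk)
      simpa [hk] using this

/-- the compact-by-discrete lamplighter group -/
@[ext] structure LG : Type where
  f : ℤ → ZMod 2
  n : ℤ

instance : Mul LG := ⟨fun a b => ⟨fun i => a.f i + b.f (i - a.n), a.n + b.n⟩⟩
instance : One LG := ⟨⟨0, 0⟩⟩
instance : _root_.Inv LG := ⟨fun a => ⟨fun i => - a.f (i + a.n), - a.n⟩⟩

@[simp] theorem mul_f (a b : LG) (i : ℤ) : (a * b).f i = a.f i + b.f (i - a.n) := rfl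
@[simp] theorem mul_n (a b : LG) : (a * b).n = a.n + b.n := rfl
@[simp] theorem one_f (i : ℤ) : (1 : LG).f i = 0 := rfl
@[simp] theorem one_n : (1 : LG).n = 0 := rfl
@[simp] theorem inv_f (a : LG) (i : ℤ) : (a⁻¹).f i = - a.f (i + a.n) := rfl
@[simp] theorem inv_n (a : LG) : (a⁻¹).n = - a.n := rfl

instance : Group LG := Group.ofLeftAxioms
  (fun a b c => by
    ext i
    · simp [add_assoc, sub_sub]
    · simp [add_assoc])
  (fun a => by ext i <;> simp)
  (fun a => by
    ext i
    · simp only [mul_f, inv_f, inv_n, sub_neg_eq_add, neg_add_cancel, one_f]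
    · simp)

def emb (a : LG) : (ℤ → ZMod 2) × ℤ := (a.f, a.n)

instance : TopologicalSpace LG := TopologicalSpace.induced emb inferInstance

theorem emb_inducing : IsInducing emb := ⟨rfl⟩

theorem emb_embedding : IsEmbedding emb :=
  ⟨emb_inducing, fun a b h => by
    obtain ⟨h1, h2⟩ := Prod.ext_iff.1 h
    exact LG.ext h1 h2⟩

theorem cont_f : Continuous LG.f := continuous_fst.comp emb_inducing.continuous
theorem cont_n : Continuous LG.n := continuous_snd.comp emb_inducing.continuous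

theorem cont_ev : Continuous (fun p : (ℤ → ZMod 2) × ℤ => p.1 p.2) :=
  continuous_prod_of_discrete_right.2 fun b => continuous_apply b

theorem cont_iff {X : Type} [TopologicalSpace X] (u : X → LG) (h1 : ∀ i, Continuous fun x => (u x).f i)
    (h2 : Continuous fun x => (u x).n) : Continuous u :=
  emb_inducing.continuous_iff.2 ((continuous_pi h1).prodMk h2)

instance : IsTopologicalGroup LG where
  continuous_mul := by
    refine cont_iff _ (fun i => ?_) ((cont_n.comp continuous_fst).add (cont_n.comp continuous_snd))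
    refine ((continuous_apply i).comp (cont_f.comp continuous_fst)).add ?_
    exact cont_ev.comp ((cont_f.comp continuous_snd).prodMk
      (continuous_const.sub (cont_n.comp continuous_fst)))
  continuous_inv := by
    refine cont_iff _ (fun i => ?_) cont_n.neg
    exact (cont_ev.comp (cont_f.prodMk (continuous_const.add cont_n))).neg

instance : T2Space LG := emb_embedding.t2Space

instance : SecondCountableTopology LG := emb_inducing.secondCountableTopology

def K : Subgroup LG where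
  carrier := {a | a.n = 0}
  one_mem' := rfl
  mul_mem' := by
    intro a b ha hb
    simp only [mem_ofPred_eq] at *
    simp [ha, hb]
  inv_mem' := by
    intro a ha
    simp only [mem_ofPred_eq] at *
    simp [ha]

theorem K_compact : IsCompact (K : Set LG) := by
  have : (K : Set LG) = range (fun f : ℤ → ZMod 2 => (⟨f, 0⟩ : LG)) := by
    ext a
    constructor
    · intro ha
      exact ⟨a.f, LG.ext rfl (Eq.symm ha)⟩
    · rintro ⟨f, rfl⟩
      rfl
  rw [this]
  exact isCompact_range (cont_iff _ (fun i => continuous_apply i) continuous_const)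

theorem K_sep : TopologicalSpace.SeparableSpace K := by
  have : SecondCountableTopology K :=
    TopologicalSpace.Subtype.secondCountableTopology (K : Set LG)
  infer_instance

theorem not_inv : ¬ Inv LG := by
  classical
  rintro ⟨N, hn, -, hq, he⟩
  obtain ⟨c, hc⟩ := (countable_quot_iff _).1 hq
  let el : Set ℕ → LG := fun s => ⟨fun i => if 0 ≤ i ∧ i.toNat ∈ s then 1 else 0, 0⟩
  have := Function.cantor_injective (fun s => c (el s))
  obtain ⟨s, t, hst, hne⟩ := Function.not_injective_iff.1 this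
  have hx := hc _ _ hst
  set x := (el s)⁻¹ * el t with hxdef
  have hx0 : ∀ i < 0, x.f i = 0 := by
    intro i hi
    simp [hxdef, el, not_le.2 hi]
  have hxn : x.n = 0 := by simp [hxdef, el]
  have hj : ∃ j, x.f j ≠ 0 := by
    by_contra hcon
    push Not at hcon
    apply hne
    ext k
    have := hcon k
    simp only [hxdef, el, mul_f, inv_f, inv_n, add_zero, neg_zero, sub_zero, Int.toNat_natCast,
      Int.natCast_nonneg, true_and] at this
    by_cases h1 : k ∈ s <;> by_cases h2 : k ∈ t <;> simp_all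
  obtain ⟨j, hj⟩ := hj
  have hU : {a : LG | a.f j = 0} ∈ 𝓝 (1 : LG) := by
    refine IsOpen.mem_nhds ?_ rfl
    exact (isOpen_discrete {(0 : ZMod 2)}).preimage ((continuous_apply j).comp cont_f)
  obtain ⟨V, hV, h⟩ := he _ hU
  let g : ℤ → LG := fun m => ⟨0, m⟩
  have hlim : Tendsto (fun m => g m * x * (g m)⁻¹) atTop (𝓝 1) := by
    rw [emb_inducing.tendsto_nhds_iff]
    refine Tendsto.prodMk_nhds (tendsto_pi_nhds.2 fun i => ?_) ?_
    · refine tendsto_const_nhds.congr' ?_
      filter_upwards [eventually_gt_atTop i] with m hm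
      simp [g, hx0 (i - m) (by omega)]
    · refine tendsto_const_nhds.congr' (Eventually.of_forall fun m => ?_)
      simp [g, hxn]
  obtain ⟨m, hm⟩ := (hlim.eventually hV).exists
  have := h (g m)⁻¹ _ (hn.conj_mem x hx (g m)) hm
  apply hj
  simpa [mul_assoc] using this

theorem result :
    ¬ (∀ (G : Type) [Group G] [TopologicalSpace G] [IsTopologicalGroup G] [T2Space G],
      ((∀ P : (H : Type) → [Group H] → [TopologicalSpace H] → Prop,
          (∀ (H : Type) [Group H] [TopologicalSpace H] [IsTopologicalGroup H] [T2Space H],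
              CompactSpace H → TopologicalSpace.SeparableSpace H → P H) →
          (∀ (H : Type) [Group H] [TopologicalSpace H] [IsTopologicalGroup H] [T2Space H],
              Countable H → P H) →
          (∀ (H₁ : Type) [Group H₁] [TopologicalSpace H₁] [IsTopologicalGroup H₁] [T2Space H₁]
              (H₂ : Type) [Group H₂] [TopologicalSpace H₂] [IsTopologicalGroup H₂] [T2Space H₂],
              P H₁ → P H₂ → P (H₁ × H₂)) →
          (∀ (H : Type) [Group H] [TopologicalSpace H] [IsTopologicalGroup H] [T2Space H]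
              (L : Subgroup H), IsClosed (L : Set H) → P H → P L) →
          (∀ (H₁ : Type) [Group H₁] [TopologicalSpace H₁] [IsTopologicalGroup H₁] [T2Space H₁]
              (H₂ : Type) [Group H₂] [TopologicalSpace H₂] [IsTopologicalGroup H₂] [T2Space H₂]
              (f : H₁ →* H₂), Continuous f → Function.Surjective f → P H₁ → P H₂) →
          P G) ↔
        ∃ K : Subgroup G, CompactSpace K ∧ TopologicalSpace.SeparableSpace K ∧
          Countable (G ⧸ K))) := by
  intro H
  refine not_inv ((H LG).2 ⟨K, isCompact_iff_compactSpace.1 K_compact, K_sep, ?_⟩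
    (fun H _ _ => Inv H) ?_ ?_ ?_ ?_ ?_)
  · obtain ⟨e, he⟩ := Countable.exists_injective_nat ℤ
    refine (countable_quot_iff _).2 ⟨fun a => e a.n, fun a b hab => ?_⟩
    change (a⁻¹ * b).n = 0
    simp [he hab]
  · intro H _ _ _ _ _ _
    exact inv_compact H
  · intro H _ _ _ _ _
    exact inv_countable H
  · intro H₁ _ _ _ _ H₂ _ _ _ _
    exact inv_prod H₁ H₂
  · intro H _ _ _ _
    exact inv_sub H
  · intro H₁ _ _ _ _ H₂ _ _ _ _
    exact inv_image H₁ H₂

end Pool.Agent.S12922
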