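import Pool.Statements.S12936
import Pool.Agent.H81.Spiral

set_option autoImplicit false
open Pool Pool.MP_2a9133_gt

namespace Pool.Agent.S12936

/-- The negation of the preceding statement: For every connected metric space X, the semi-span of X (sup over connected Z ⊆ X×X with second projection inside first of inf distance) is at most twice its surjective semi-span (same, first projection all of X). -/
theorem result :
    ¬ (∀ (X : Type) [MetricSpace X] [ConnectedSpace X],
      (⨆ (Z : Set (X × X)) (_ : IsConnected Z) (_ : Prod.snd '' Z ⊆ Prod.fst '' Z),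
          ⨅ p ∈ Z, edist p.1 p.2)
        ≤ (2 : ENNReal) *
          (⨆ (Z : Set (X × X)) (_ : IsConnected Z) (_ : Prod.fst '' Z = Set.univ),
            ⨅ p ∈ Z, edist p.1 p.2)) := by
  intro H
  obtain ⟨Z, z1, z2, z3⟩ := Pool.Agent.H81.Spiral.big
  have : (2 : ENNReal) ≤ _ := le_trans (le_iSup₂_of_le Z z1 (by exact le_iSup_of_le z2.ge z3))
    (H Pool.Agent.H81.Spiral.XS)
  rw [show (⨆ (Z : Set (Pool.Agent.H81.Spiral.XS × Pool.Agent.H81.Spiral.XS)) (_ : IsConnected Z)
    (_ : Prod.fst '' Z = Set.univ), ⨅ p ∈ Z, edist p.1 p.2) = 0 from le_antisymm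
      (iSup_le fun Z => iSup_le fun h => iSup_le fun k => (Pool.Agent.H81.Spiral.diag Z h k).le)
      zero_le] at this
  simp at this

end Pool.Agent.S12936
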