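import Pool.Statements.S12972
import Pool.Agent.H80.CoarseCount

set_option autoImplicit false
open Pool Pool.MP_2fc951_gt

namespace Pool.Agent.S12972

open Pool.Agent.H80.CoarseCount

/-- the vertex set of the comb, as a type synonym carrying the path metric -/
def Vx (_σ : ℕ → Σ n : ℕ, Equiv.Perm (Fin n)) : Type := ℕ × ℕ

noncomputable instance instMetric (σ : ℕ → Σ n : ℕ, Equiv.Perm (Fin n)) : MetricSpace (Vx σ) where
  dist x y := ((comb σ).dist x y : ℝ)
  dist_self x := by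
    have : (comb σ).dist x x = 0 := SimpleGraph.dist_self
    exact_mod_cast this
  dist_comm x y := by
    have : (comb σ).dist x y = (comb σ).dist y x := SimpleGraph.dist_comm
    exact_mod_cast this
  dist_triangle x y z := by
    have := (comb_connected σ).dist_triangle (u := x) (v := y) (w := z)
    exact_mod_cast this
  eq_of_dist_eq_zero := by
    intro x y h
    have h' : (comb σ).dist x y = 0 := by exact_mod_cast h
    exact (comb_connected σ).dist_eq_zero_iff.1 h'

theorem dist_def (σ : ℕ → Σ n : ℕ, Equiv.Perm (Fin n)) (x y : ℕ × ℕ) :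
    dist (show Vx σ from x) (show Vx σ from y) = ((comb σ).dist x y : ℝ) := rfl

theorem finite_ball {X : Type} [MetricSpace X]
    (hX : ∀ r : ℝ, 0 < r → ∃ N : ℕ, ∀ x : X, ∀ s : Finset X,
        (↑s : Set X) ⊆ Metric.closedBall x r → s.card ≤ N) (r : ℝ) :
    ∃ N : ℕ, ∀ x : X, (Metric.closedBall x r).Finite ∧ (Metric.closedBall x r).ncard ≤ N := by
  obtain ⟨N, hN⟩ := hX (max r 1) (lt_of_lt_of_le one_pos (le_max_right _ _))
  refine ⟨N, fun x => ?_⟩
  have hsub : Metric.closedBall x r ⊆ Metric.closedBall x (max r 1) :=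
    Metric.closedBall_subset_closedBall (le_max_left _ _)
  have hfin : (Metric.closedBall x r).Finite := by
    by_contra h
    obtain ⟨s, hs, hcard⟩ := Set.Infinite.exists_subset_card_eq h (N + 1)
    have := hN x s (hs.trans hsub)
    omega
  refine ⟨hfin, ?_⟩
  rw [Set.ncard_eq_toFinset_card _ hfin]
  exact hN x _ (by simpa using hsub)

/-- The negation of the preceding statement: There is a metric space X of bounded geometry (closed r-balls have uniformly bounded finite size) such that every bounded-geometry metric space Y admits a coarse embedding into X. -/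
theorem result :
    ¬ (∃ (X : Type) (_ : MetricSpace X),
    (∀ r : ℝ, 0 < r → ∃ N : ℕ, ∀ x : X, ∀ s : Finset X,
        (↑s : Set X) ⊆ Metric.closedBall x r → s.card ≤ N) ∧
    ∀ (Y : Type) [MetricSpace Y],
      (∀ r : ℝ, 0 < r → ∃ N : ℕ, ∀ y : Y, ∀ s : Finset Y,
          (↑s : Set Y) ⊆ Metric.closedBall y r → s.card ≤ N) →
      ∃ f : Y → X, ∃ ρm ρp : ℝ → ℝ,
        MonotoneOn ρm (Set.Ici 0) ∧ MonotoneOn ρp (Set.Ici 0) ∧
        (∀ t : ℝ, 0 ≤ t → 0 ≤ ρm t ∧ 0 ≤ ρp t) ∧
        Filter.Tendsto ρm Filter.atTop Filter.atTop ∧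
        ∀ y y' : Y, ρm (dist y y') ≤ dist (f y) (f y') ∧
          dist (f y) (f y') ≤ ρp (dist y y')) := by
  rintro ⟨X, _, hX, H⟩
  have hball := finite_ball hX
  choose Nb hNb using hball
  -- X is countable
  have hcount : Countable X := by
    rcases isEmpty_or_nonempty X with h | ⟨⟨x0⟩⟩
    · infer_instance
    · have : (Set.univ : Set X) = ⋃ n : ℕ, Metric.closedBall x0 n := by
        ext x
        simp only [Set.mem_univ, Set.mem_iUnion, Metric.mem_closedBall, true_iff]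
        exact exists_nat_ge _
      rw [← Set.countable_univ_iff, this]
      exact Set.countable_iUnion fun n => (hNb n x0).1.countable
  -- bounded geometry of every comb
  have hY : ∀ σ : ℕ → Σ n : ℕ, Equiv.Perm (Fin n), ∀ r : ℝ, 0 < r → ∃ N : ℕ, ∀ y : Vx σ,
      ∀ s : Finset (Vx σ), (↑s : Set (Vx σ)) ⊆ Metric.closedBall y r → s.card ≤ N := by
    intro σ r _
    refine ⟨(6 + 1) ^ ⌈r⌉₊, fun y s hs => ?_⟩
    obtain ⟨h1, h2⟩ := ball_bound (comb σ) (comb_connected σ) 6 (comb_degree σ) y ⌈r⌉₊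
    have hsub : (↑s : Set (Vx σ)) ⊆ {w : ℕ × ℕ | (comb σ).dist y w ≤ ⌈r⌉₊} := by
      intro w hw
      have h3 : dist w y ≤ r := hs hw
      rw [dist_comm] at h3
      have h4 : (((comb σ).dist y w : ℕ) : ℝ) ≤ (⌈r⌉₊ : ℝ) := h3.trans (Nat.le_ceil r)
      exact_mod_cast h4
    have := Set.ncard_le_ncard hsub h1
    rw [Set.ncard_coe_finset] at this
    exact this.trans h2
  rcases isEmpty_or_nonempty X with hE | hNE
  · obtain ⟨f, -⟩ := H (Vx fun _ => ⟨0, 1⟩) (hY _)
    exact hE.elim (f (show ℕ × ℕ from (0, 0)))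
  obtain ⟨en, hen⟩ := exists_surjective_nat (X × ℕ × ℕ)
  have hbad := fun k : ℕ => exists_bad_perm (fun a b : X => dist b a ≤ ((en k).2.1 : ℝ))
    (Metric.closedBall (en k).1 (k * (en k).2.1)) (hNb _ _).1 (Nb ((en k).2.1 : ℝ)) (7 ^ (en k).2.2)
    (fun x => hNb _ x)
  choose n τ hbad using hbad
  let σ : ℕ → Σ n : ℕ, Equiv.Perm (Fin n) := fun k => ⟨n k, τ k⟩
  obtain ⟨f, ρm, ρp, -, hp, -, ht, hf⟩ := H (Vx σ) (hY σ)
  let g : ℕ × ℕ → X := fun p => f p
  obtain ⟨L, hL⟩ := exists_nat_ge (ρp 1)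
  have hlip : ∀ p q : ℕ × ℕ, (comb σ).dist p q ≤ 1 → dist (g q) (g p) ≤ L := by
    intro p q h
    rw [dist_comm]
    refine (hf p q).2.trans (le_trans (hp ?_ ?_ ?_) hL)
    · exact dist_nonneg
    · exact (zero_le_one : (0 : ℝ) ≤ 1)
    · rw [dist_def]; exact_mod_cast h
  obtain ⟨R, hR⟩ : ∃ R : ℕ, ∀ p q : ℕ × ℕ, dist (g q) (g p) ≤ L → (comb σ).dist p q ≤ R := by
    obtain ⟨r, hr⟩ := Filter.eventually_atTop.1 (ht.eventually_gt_atTop (L : ℝ))
    refine ⟨⌈r⌉₊, fun p q h => ?_⟩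
    by_contra hcon
    push Not at hcon
    have h1 : r ≤ dist (show Vx σ from p) (show Vx σ from q) := by
      rw [dist_def]
      exact (Nat.le_ceil r).trans (by exact_mod_cast hcon.le)
    have h2 := hr _ h1
    have h3 := (hf p q).1
    rw [dist_comm] at h
    exact absurd (h3.trans h) (not_le.2 h2)
  obtain ⟨k, hk⟩ := hen (g (0, 0), L, R)
  have hspine : ∀ m : ℕ, dist (g (m, 0)) (g (0, 0)) ≤ m * L := by
    intro m
    induction m with
    | zero => simp
    | succ m ih =>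
      have h1 := hlip _ _ (SimpleGraph.dist_eq_one_iff_adj.2 (comb_adj_spine σ m)).le
      have h2 := dist_triangle (g (m + 1, 0)) (g (m, 0)) (g (0, 0))
      push_cast
      linarith
  refine hbad k (fun i => g (k, i)) ?_ ?_ ?_ ?_
  · rw [hk]; exact hspine k
  · intro i
    rw [hk]
    exact hlip _ _ (SimpleGraph.dist_eq_one_iff_adj.2 (comb_adj_tooth σ k i)).le
  · intro i
    rw [hk]
    exact hlip _ _ (comb_dist_perm σ k i)
  · intro i
    rw [hk]
    obtain ⟨h1, h2⟩ := tooth_count σ k i R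
    have hsub : {j : ℕ | dist (g (k, j)) (g (k, i)) ≤ (L : ℝ)} ⊆
        {j : ℕ | (comb σ).dist (k, i) (k, j) ≤ R} := fun j hj => hR _ _ hj
    exact ⟨h1.subset hsub, (Set.ncard_le_ncard hsub h1).trans h2⟩

end Pool.Agent.S12972
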