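import Pool.Statements.S12983
import Pool.Agent.H71.Ing3

set_option autoImplicit false
open Pool Pool.MP_321614_gt

namespace Pool.Agent.S12983

/-- There is a nondegenerate metric continuum M such that every monotone continuous image of M onto a metric space contains no nondegenerate chainable subcontinuum (chainable meaning it has ε-chain covers for every ε > 0). -/
theorem result :
    ∃ (M : Type) (_ : MetricSpace M), CompactSpace M ∧ ConnectedSpace M ∧ Nontrivial M ∧
      ∀ (Y : Type) (_ : MetricSpace Y) (f : M → Y),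
        Continuous f → Function.Surjective f → (∀ y : Y, IsConnected (f ⁻¹' {y})) →
        ¬ ∃ K : Set Y, IsCompact K ∧ IsConnected K ∧ K.Nontrivial ∧
          ∀ ε : ℝ, 0 < ε → ∃ (n : ℕ) (U : Fin n → Set Y),
            (∀ i, IsOpen (U i)) ∧
            (∀ i, Metric.diam (U i ∩ K) < ε) ∧
            K ⊆ ⋃ i, U i ∧
            (∀ i j, (U i ∩ U j ∩ K).Nonempty ↔ (i.val ≤ j.val + 1 ∧ j.val ≤ i.val + 1)) := by
  have := Pool.Agent.H71.Ing.M_metr
  exact ⟨Pool.Agent.H71.Ing.M, TopologicalSpace.metrizableSpaceMetric _,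
    (inferInstanceAs (CompactSpace Pool.Agent.H71.Ing.M)),
    (inferInstanceAs (ConnectedSpace Pool.Agent.H71.Ing.M)), inferInstance,
    fun Y _ f hf hs hm => Pool.Agent.H71.Ing.final Y f hf hs hm⟩

end Pool.Agent.S12983
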