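import Pool.Statements.S12986
import Pool.Agent.H33.RzS3

set_option autoImplicit false
open Pool Pool.MP_32433e_gt

namespace Pool.Agent.S12986

/-- The negation of the preceding statement: For compact Hausdorff X: if the pointwise closure in C_p(X) of every set of at most continuum many continuous functions is Lindelöf Σ, then C_p(X) itself is Lindelöf Σ, i.e. X is Gul'ko compact. -/
theorem result :
    ¬ (∀ (X : Type) [TopologicalSpace X] [CompactSpace X] [T2Space X],
      (∀ A : Set (X → ℝ), (∀ f ∈ A, Continuous f) → Cardinal.mk ↥A ≤ Cardinal.continuum →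
        ∃ (ι : Type) (F : Set ((ι → unitInterval) × (ℕ → unitInterval)))
          (g : (ι → unitInterval) × (ℕ → unitInterval) → (X → ℝ)),
          F = closure F ∩ (Set.univ ×ˢ (Prod.snd '' F)) ∧ ContinuousOn g F ∧
          g '' F = closure A ∩ {f : X → ℝ | Continuous f}) →
      ∃ (ι : Type) (F : Set ((ι → unitInterval) × (ℕ → unitInterval)))
        (g : (ι → unitInterval) × (ℕ → unitInterval) → (X → ℝ)),
        F = closure F ∩ (Set.univ ×ˢ (Prod.snd '' F)) ∧ ContinuousOn g F ∧
        g '' F = {f : X → ℝ | Continuous f}) := by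
  intro h
  exact Pool.Agent.H33.RzS2.not_gu (Pool.Agent.H33.RzS3.gu_of_ls (Pool.Agent.H33.RzS3.CF.ls
    (h Pool.Agent.H33.RzS2.XX fun A hc hA =>
      Pool.Agent.H33.RzS3.cf_of_ls (Pool.Agent.H33.RzS2.ls_closure hc hA))))

end Pool.Agent.S12986
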