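import Pool.Statements.S13015
import Pool.Agent.H33.BernGrp

set_option autoImplicit false
open TopologicalSpace
open Pool Pool.MP_36bcbe_gt

namespace Pool.Agent.S13015

/-- There exist Hausdorff pseudocompact abelian topological groups G and H, each of whose closed subgroups is separable, such that G×H has a closed σ-compact subgroup that is not separable. -/
theorem result :
    ∃ (G H : Type) (_ : TopologicalSpace G) (_ : CommGroup G) (_ : IsTopologicalGroup G)
      (_ : T2Space G) (_ : TopologicalSpace H) (_ : CommGroup H) (_ : IsTopologicalGroup H)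
      (_ : T2Space H),
      (∀ f : G → ℝ, Continuous f → ∃ C : ℝ, ∀ x, |f x| ≤ C) ∧
      (∀ f : H → ℝ, Continuous f → ∃ C : ℝ, ∀ x, |f x| ≤ C) ∧
      (∀ S : Subgroup G, IsClosed (S : Set G) → SeparableSpace ↥S) ∧
      (∀ S : Subgroup H, IsClosed (S : Set H) → SeparableSpace ↥S) ∧
      ∃ S : Subgroup (G × H), IsClosed (S : Set (G × H)) ∧
        IsSigmaCompact (S : Set (G × H)) ∧ ¬ SeparableSpace ↥S := by
  exact Pool.Agent.H33.BernGrp.final

end Pool.Agent.S13015
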