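import Pool.Statements.S13025
import Pool.Agent.H85.ApoSC

set_option autoImplicit false
open Pool Pool.MP_39b482_gt

namespace Pool.Agent.S13025

/-- Every noncompact Hausdorff second-countable n-manifold with n>1 that has no two-point compactification has Stone–Čech remainder that is a continuum in which any two distinct points are separated by a subcontinuum containing one in its interior and missing the other. -/
theorem result :
    ∀ (n : ℕ) (M : Type) [TopologicalSpace M] [T2Space M] [SecondCountableTopology M]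
      [ChartedSpace (EuclideanSpace ℝ (Fin n)) M],
      1 < n → NoncompactSpace M →
      (¬ ∃ (Y : Type) (τ : TopologicalSpace Y), CompactSpace Y ∧ T2Space Y ∧
          ∃ f : M → Y, Topology.IsEmbedding f ∧ DenseRange f ∧ (Set.range f)ᶜ.ncard = 2) →
      (IsCompact ((Set.range (stoneCechUnit : M → StoneCech M))ᶜ) ∧
       IsConnected ((Set.range (stoneCechUnit : M → StoneCech M))ᶜ) ∧
       ∀ x ∈ (Set.range (stoneCechUnit : M → StoneCech M))ᶜ,
         ∀ y ∈ (Set.range (stoneCechUnit : M → StoneCech M))ᶜ, x ≠ y →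
           ∃ K : Set (StoneCech M), K ⊆ (Set.range (stoneCechUnit : M → StoneCech M))ᶜ ∧
             IsCompact K ∧ IsConnected K ∧ y ∉ K ∧
             ∃ U : Set (StoneCech M), IsOpen U ∧ x ∈ U ∧
               U ∩ (Set.range (stoneCechUnit : M → StoneCech M))ᶜ ⊆ K) := by
  intro n M _ _ _ _ hn hnc h2
  open Pool.Agent.H85.Apo Set Filter Topology in
  have : LocallyCompactSpace M := ChartedSpace.locallyCompactSpace (EuclideanSpace ℝ (Fin n)) M
  have : NormalSpace M := inferInstance
  have hch : ∀ x : M, ∃ e : OpenPartialHomeomorph M (Fin n → ℝ), x ∈ e.source := fun x =>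
    ⟨(chartAt (EuclideanSpace ℝ (Fin n)) x).transHomeomorph
      (EuclideanSpace.equiv (Fin n) ℝ).toHomeomorph, by simp⟩
  have hu : IsOpenEmbedding (stoneCechUnit : M → StoneCech M) :=
    isOpen_range_of_dense isEmbedding_stoneCechUnit denseRange_stoneCechUnit
  have hns : ¬ Splits (univ : Set M) := fun h => h2 (twoPt_of_splits h)
  have hcl : IsClosed (range (stoneCechUnit : M → StoneCech M))ᶜ := hu.isOpen_range.isClosed_compl
  have hall : ∀ z, z ∈ closure ((stoneCechUnit : M → StoneCech M) '' univ) := fun z => by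
    rw [image_univ]; exact denseRange_stoneCechUnit z
  refine ⟨hcl.isCompact, ⟨?_, ?_⟩, fun x hx y hy hxy => ?_⟩
  · rw [nonempty_compl]
    intro h
    refine hnc.noncompact_univ (hu.isInducing.isCompact_iff.2 ?_)
    rw [image_univ, h]
    exact isCompact_univ
  · have := preconn_of_not_splits hu isClosed_univ hns
    rwa [eq_univ_of_forall hall, univ_inter] at this
  · obtain ⟨g, hg0, hg1, -⟩ := exists_continuous_zero_one_of_isClosed (isClosed_singleton (x := x))
      (isClosed_singleton (x := y)) (disjoint_singleton.2 hxy)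
    have hgu : Continuous fun m : M => g (stoneCechUnit m) := g.continuous.comp hu.continuous
    obtain ⟨κ, hκ, T, Q, O, D, col, hlf, hcell, hd, hcov⟩ := good_closed hn hch
      (B := {m | 2 / 3 ≤ g (stoneCechUnit m)}) (G := {m | 1 / 3 < g (stoneCechUnit m)})
      (isClosed_le continuous_const hgu) (isOpen_lt continuous_const hgu) fun m hm => by
        simp only [mem_ofPred_eq] at hm ⊢
        linarith
    have hy1 := mem_closure_piece (hall y) (isOpen_lt (continuous_const (y := (2 / 3 : ℝ)))
      g.continuous) (by simp [hg1 rfl]; norm_num)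
    have hy2 : y ∈ closure (⋃ c : κ, stoneCechUnit '' ⋃ t : {t // col t = c}, Q t) := by
      refine closure_mono ?_ hy1
      rintro _ ⟨m, hm, rfl⟩
      obtain ⟨t, ht⟩ := mem_iUnion.1 (hcov (le_of_lt (b := g (stoneCechUnit m)) hm.2))
      exact mem_iUnion.2 ⟨col t, m, mem_iUnion.2 ⟨⟨t, rfl⟩, ht⟩, rfl⟩
    rw [closure_iUnion_of_finite] at hy2
    obtain ⟨c, hc⟩ := mem_iUnion.1 hy2
    have hlf' : LocallyFinite fun t : {t // col t = c} => D t :=
      hlf.comp_injective Subtype.val_injective
    have hW : IsClosed (⋃ t : {t // col t = c}, O t)ᶜ :=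
      (isOpen_iUnion fun t : {t // col t = c} => (hcell t).2.1).isClosed_compl
    have hC : IsClosed (⋃ t : {t // col t = c}, Q t) :=
      (hlf'.subset fun t => (hcell t).2.2.2.1.trans (hcell t).2.2.2.2.1).isClosed_iUnion
        fun t => (hcell t).1
    have hpre := preconn_of_not_splits hu hW fun h => hns (splits_of_cells hlf'
      (fun t => (hcell t).2.2.1) (fun t => (hcell t).2.2.2.2.1) (fun t => (hcell t).2.2.2.2.2.1)
      (fun s t hst => hd s t (fun h => hst (Subtype.ext h)) (s.2.trans t.2.symm)) h)
    have hU : IsOpen {z | g z < 1 / 3} := isOpen_lt g.continuous continuous_const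
    have hsub : {z | g z < 1 / 3} ⊆
        closure (stoneCechUnit '' (⋃ t : {t // col t = c}, O t)ᶜ) := fun z hz => by
      refine closure_mono (image_mono fun m hm h => ?_) (mem_closure_piece (hall z) hU hz)
      obtain ⟨t, ht⟩ := mem_iUnion.1 h
      have h1 : 1 / 3 < g (stoneCechUnit m) := (hcell t).2.2.2.2.2.2 ((hcell t).2.2.2.2.1 ht)
      have h3 : g (stoneCechUnit m) < 1 / 3 := hm.2
      linarith
    have hxU : x ∈ {z | g z < 1 / 3} := by simp [hg0 rfl]
    refine ⟨_, inter_subset_right, (isClosed_closure.inter hcl).isCompact,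
      ⟨⟨x, hsub hxU, hx⟩, hpre⟩, fun h => ?_, _, hU, hxU, fun z hz => ⟨hsub hz.1, hz.2⟩⟩
    refine Set.disjoint_left.1 (sc_disjoint hW hC ?_) h.1 hc
    exact disjoint_compl_left_iff_subset.2 (iUnion_mono fun t => (hcell t).2.2.2.1)

end Pool.Agent.S13025
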