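import Pool.Statements.S13032
import Pool.Agent.H15.Ltg3

set_option autoImplicit false
open Pool Pool.MP_3a0f08_gt

namespace Pool.Agent.S13032

/-- The negation of the preceding statement: Every compact Hausdorff group whose left translations are continuous carries a Borel probability measure giving positive measure to every nonempty open set. -/
theorem result :
    ¬ (∀ (G : Type) [Group G] [TopologicalSpace G] [CompactSpace G] [T2Space G]
      [MeasurableSpace G] [BorelSpace G],
      (∀ g : G, Continuous (fun x : G => g * x)) →
      ∃ μ : MeasureTheory.Measure G, MeasureTheory.IsProbabilityMeasure μ ∧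
        ∀ U : Set G, IsOpen U → U.Nonempty → 0 < μ U) := by
  intro h
  obtain ⟨G, _, _, _, _, h1, W, w1, w2⟩ := Pool.Agent.H15.Ltg.main
  let _ := borel G
  have : BorelSpace G := ⟨rfl⟩
  obtain ⟨μ, _, h2⟩ := h G h1
  have := MeasureTheory.Measure.countable_meas_pos_of_disjoint_iUnion (μ := μ)
    (fun t => (w1 t).1.measurableSet) w2
  rw [Set.eq_univ_of_forall (s := {t | 0 < μ (W t)}) fun t => h2 _ (w1 t).1 (w1 t).2] at this
  have := Cardinal.mk_le_aleph0_iff.2 (Set.countable_univ_iff.1 this)
  exact Cardinal.aleph0_lt_continuum.not_ge (by simpa using this)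

end Pool.Agent.S13032
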