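import Pool.Statements.S13035
import Pool.Agent.H71.Hag3

set_option autoImplicit false
open Pool Pool.MP_3ae40e_gt

namespace Pool.Agent.S13035

/-- Every nondegenerate metric continuum in which any two subcontinua with nonempty interior meet, and which has no weak cut point, contains an uncountable family of pairwise disjoint triods. -/
theorem result :
    ∀ (X : Type) [TopologicalSpace X] [TopologicalSpace.MetrizableSpace X]
      [CompactSpace X] [ConnectedSpace X] [Nontrivial X],
      (∀ A B : Set X, IsCompact A → IsConnected A → (interior A).Nonempty →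
        IsCompact B → IsConnected B → (interior B).Nonempty → (A ∩ B).Nonempty) →
      (¬ ∃ x p q : X, p ≠ x ∧ q ≠ x ∧
        ∀ K : Set X, IsCompact K → IsConnected K → p ∈ K → q ∈ K → x ∈ K) →
      ∃ 𝒯 : Set (Set X), ¬ 𝒯.Countable ∧ 𝒯.PairwiseDisjoint id ∧
        ∀ T ∈ 𝒯, IsCompact T ∧ IsConnected T ∧
          ∃ Z : Set X, Z ⊆ T ∧ IsCompact Z ∧ IsConnected Z ∧
            ∃ A B C : Set X, A.Nonempty ∧ B.Nonempty ∧ C.Nonempty ∧
              T \ Z = A ∪ B ∪ C ∧
              closure A ∩ B = ∅ ∧ A ∩ closure B = ∅ ∧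
              closure A ∩ C = ∅ ∧ A ∩ closure C = ∅ ∧
              closure B ∩ C = ∅ ∧ B ∩ closure C = ∅ := by
  intro X _ _ _ _ _ hS hW
  letI := TopologicalSpace.metrizableSpaceMetric X
  exact Pool.Agent.H71.Hag.main hS hW

end Pool.Agent.S13035
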