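import Pool.Statements.S13048
import Pool.Agent.H41.Ctr

set_option autoImplicit false
open Pool Pool.MP_3c821f_gt

namespace Pool.Agent.S13048

/-- The negation of the preceding statement: For every compact connected contractible metric space M, every homeomorphism f of M with some iterate f^n = id (n ≥ 1) has a fixed point. -/
theorem result :
    ¬ (∀ (M : Type) [MetricSpace M] [CompactSpace M] [ConnectedSpace M] [ContractibleSpace M]
      (f : M ≃ₜ M), (∃ n : ℕ, 0 < n ∧ (⇑f)^[n] = id) → ∃ x : M, f x = x) := by
  intro h
  obtain ⟨M, i1, i2, i3, i4, f, h1, h2⟩ := Pool.Agent.H41.Ctr.main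
  obtain ⟨x, hx⟩ := h M f ⟨6, by norm_num, h1⟩
  exact h2 x hx

end Pool.Agent.S13048
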