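import Pool.Statements.S13052
import Pool.Agent.H82.Navy

set_option autoImplicit false
open Pool Pool.MP_3dcd8c_gt

namespace Pool.Agent.S13052

theorem result :
    ¬ (∀ (X : Type) [TopologicalSpace X] [T3Space X],
      (∀ 𝓕 : Set (Set X),
        (∀ F ∈ 𝓕, IsClosed F ∧ IsLindelof F) →
        (∀ x : X, ∃ N ∈ nhds x, {F : Set X | F ∈ 𝓕 ∧ (F ∩ N).Nonempty}.Subsingleton) →
        ∃ U : Set X → Set X,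
          (∀ F ∈ 𝓕, IsOpen (U F) ∧ F ⊆ U F) ∧
          (∀ F ∈ 𝓕, ∀ G ∈ 𝓕, F ≠ G → Disjoint (U F) (U G))) →
      (∀ 𝒰 : Set (Set X), (∀ U ∈ 𝒰, IsOpen U) → ⋃₀ 𝒰 = Set.univ →
        ∃ 𝒱 : Set (Set X), (∀ V ∈ 𝒱, IsOpen V) ∧ ⋃₀ 𝒱 = Set.univ ∧
          (∀ V ∈ 𝒱, ∃ U ∈ 𝒰, V ⊆ U) ∧
          ∀ x : X, {V : Set X | V ∈ 𝒱 ∧ x ∈ V}.Finite) →
      (∀ 𝒰 : Set (Set X), (∀ U ∈ 𝒰, IsOpen U) → ⋃₀ 𝒰 = Set.univ →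
        ∃ 𝒱 : Set (Set X), (∀ V ∈ 𝒱, IsOpen V) ∧ ⋃₀ 𝒱 = Set.univ ∧
          (∀ V ∈ 𝒱, ∃ U ∈ 𝒰, V ⊆ U) ∧
          ∀ x : X, ∃ N ∈ nhds x, {V : Set X | V ∈ 𝒱 ∧ (V ∩ N).Nonempty}.Countable)) := by
  intro h
  refine H82.Navy.not_paraLindelof (h H82.Navy.X H82.Navy.slcwh H82.Navy.metacompact _ ?_ ?_)
  · rintro _ ⟨t, rfl⟩
    exact H82.Navy.isOpen_slab 0 t
  · refine Set.eq_univ_of_forall ?_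
    rintro (g | d)
    · exact ⟨_, ⟨g 0, rfl⟩, by rintro g' h; cases h; rfl⟩
    · exact ⟨_, ⟨0, rfl⟩, by rintro g' h; cases h⟩

end Pool.Agent.S13052
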