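import Pool.Statements.S13061
import Pool.Agent.H85.SphProd

set_option autoImplicit false
open MeasureTheory Metric
open Pool Pool.MP_3f0dd2_gt

namespace Pool.Agent.S13061

/-- For every n and linearly independent normals a_1..a_n, the spherical simplex {x on the sphere: <x,a_i> ≥ 0} times its polar has volume product at most that of the positive orthant on the sphere times its polar. -/
theorem result :
    ∀ (n : ℕ) (a : Fin n → EuclideanSpace ℝ (Fin n)), LinearIndependent ℝ a →
      (volume : Measure (EuclideanSpace ℝ (Fin n))).toSphere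
          (setOf fun x : sphere (0 : EuclideanSpace ℝ (Fin n)) 1 =>
            ∀ i, 0 ≤ @inner ℝ (EuclideanSpace ℝ (Fin n)) _ x.1 (a i)) *
        (volume : Measure (EuclideanSpace ℝ (Fin n))).toSphere
          (setOf fun x : sphere (0 : EuclideanSpace ℝ (Fin n)) 1 =>
            ∀ y : sphere (0 : EuclideanSpace ℝ (Fin n)) 1,
              (∀ i, 0 ≤ @inner ℝ (EuclideanSpace ℝ (Fin n)) _ y.1 (a i)) →
                0 ≤ @inner ℝ (EuclideanSpace ℝ (Fin n)) _ x.1 y.1)
      ≤
      (volume : Measure (EuclideanSpace ℝ (Fin n))).toSphere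
          (setOf fun x : sphere (0 : EuclideanSpace ℝ (Fin n)) 1 =>
            ∀ i, 0 ≤ @inner ℝ (EuclideanSpace ℝ (Fin n)) _ x.1
              (EuclideanSpace.single i (1 : ℝ))) *
        (volume : Measure (EuclideanSpace ℝ (Fin n))).toSphere
          (setOf fun x : sphere (0 : EuclideanSpace ℝ (Fin n)) 1 =>
            ∀ y : sphere (0 : EuclideanSpace ℝ (Fin n)) 1,
              (∀ i, 0 ≤ @inner ℝ (EuclideanSpace ℝ (Fin n)) _ y.1
                (EuclideanSpace.single i (1 : ℝ))) →
                0 ≤ @inner ℝ (EuclideanSpace ℝ (Fin n)) _ x.1 y.1) := by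
  intro n a ha
  refine Pool.Agent.H85.SphProd.main a ha ?_ ?_
    (fun x hx i => by simpa [EuclideanSpace.inner_single_right] using hx i) fun x hx y hy => ?_
  · change MeasurableSet (Set.ofPred _)
    rw [Set.ofPred_forall]
    exact MeasurableSet.iInter fun i => (isClosed_le continuous_const (by fun_prop)).measurableSet
  · change MeasurableSet (Set.ofPred _)
    simp only [Set.ofPred_forall]
    exact (isClosed_iInter fun y => isClosed_iInter fun _ =>
      isClosed_le continuous_const (by fun_prop)).measurableSet
  · rw [PiLp.inner_apply]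
    exact Finset.sum_nonneg fun i _ => mul_nonneg
      (by simpa [EuclideanSpace.inner_single_right] using hy i) (hx i)

end Pool.Agent.S13061
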