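import Pool.Statements.S13078
import Pool.Agent.H41.Wc4

set_option autoImplicit false
open Pool Pool.MP_4194ae_gt

namespace Pool.Agent.S13078

/-- The negation of the preceding statement: For n ≥ 1, if a continuum M admits, for every ε > 0, a weakly confluent continuous surjection onto the closed n-ball with all fibres of diameter < ε, then every continuous self-map of M has a fixed point. -/
theorem result :
    ¬ (∀ (n : ℕ), 0 < n →
      ∀ (M : Type) [MetricSpace M] [CompactSpace M] [ConnectedSpace M],
        (∀ ε : ℝ, 0 < ε →
          ∃ f : M → Metric.closedBall (0 : EuclideanSpace ℝ (Fin n)) 1,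
            Continuous f ∧ Function.Surjective f ∧
            (∀ y, Metric.diam (f ⁻¹' {y}) < ε) ∧
            (∀ K : Set (Metric.closedBall (0 : EuclideanSpace ℝ (Fin n)) 1),
              IsCompact K → IsConnected K →
                ∃ C : Set M, IsCompact C ∧ IsConnected C ∧ f '' C = K)) →
        ∀ g : M → M, Continuous g → ∃ x, g x = x) := by
  intro h
  obtain ⟨M, i1, i2, i3, h1, G, hG, h2⟩ := Pool.Agent.H41.Wc.main
  obtain ⟨x, hx⟩ := h 5 (by norm_num) M h1 G hG
  exact h2 x hx

end Pool.Agent.S13078
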