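import Pool.Statements.S13080
import Pool.Agent.H82.KSep

set_option autoImplicit false
open Pool Pool.MP_41b9bf_gt

namespace Pool.Agent.S13080

theorem result :
    ¬ (∀ (X Y : Type) [TopologicalSpace X] [T35Space X] [TopologicalSpace Y] [T35Space Y],
      (∃ S : Set X, Dense S ∧ IsSigmaCompact S) →
      (∃ T : C(X, ℝ) ≃ₗ[ℝ] C(Y, ℝ),
        @Continuous (C(X, ℝ)) (C(Y, ℝ))
          (TopologicalSpace.induced (fun f : C(X, ℝ) => (f : X → ℝ))
            (inferInstance : TopologicalSpace (X → ℝ)))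
          (TopologicalSpace.induced (fun g : C(Y, ℝ) => (g : Y → ℝ))
            (inferInstance : TopologicalSpace (Y → ℝ)))
          (⇑T) ∧
        @Continuous (C(Y, ℝ)) (C(X, ℝ))
          (TopologicalSpace.induced (fun g : C(Y, ℝ) => (g : Y → ℝ))
            (inferInstance : TopologicalSpace (Y → ℝ)))
          (TopologicalSpace.induced (fun f : C(X, ℝ) => (f : X → ℝ))
            (inferInstance : TopologicalSpace (X → ℝ)))
          (⇑T.symm)) →
      ∃ S : Set Y, Dense S ∧ IsSigmaCompact S) := by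
  intro h
  have : T35Space (H82.KSep.Om ⊕ ℕ × H82.KSep.X) := H82.FS.t35_sum
  obtain ⟨A, h1, h2⟩ := h _ _ H82.KSep.ksep H82.KSep.lequiv
  exact H82.KSep.not_ksep h1 h2

end Pool.Agent.S13080
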