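import Pool.Statements.S13082
import Pool.Agent.H86.SSep

set_option autoImplicit false
open TopologicalSpace
open Pool Pool.MP_41eeb1_gt

namespace Pool.Agent.S13082

open Pool.Agent.H86.SSep

theorem result :
    ¬ (∀ (G : Type) [TopologicalSpace G] [Group G] [IsTopologicalGroup G] [T2Space G]
      [LocallyCompactSpace G] [SeparableSpace G],
      ∀ (H : Type) [TopologicalSpace H] [Group H] [IsTopologicalGroup H] [T2Space H],
        (∀ K : Subgroup H, IsClosed (K : Set H) → SeparableSpace K) →
        ∀ L : Subgroup (G × H), IsClosed (L : Set (G × H)) → SeparableSpace L) := by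
  intro h
  obtain ⟨L, hL, hL'⟩ := exists_nonseparable (Multiplicative ℝ) (MonoidHom.id _) continuous_id
    Function.surjective_id
  have i1 : T2Space (Multiplicative ℝ) := inferInstanceAs (T2Space ℝ)
  have i2 : LocallyCompactSpace (Multiplicative ℝ) := inferInstanceAs (LocallyCompactSpace ℝ)
  have i3 : SeparableSpace (Multiplicative ℝ) := inferInstanceAs (SeparableSpace ℝ)
  have i4 : T2Space (Multiplicative HH) := inferInstanceAs (T2Space HH)
  exact hL' (h (Multiplicative ℝ) (Multiplicative HH)
    (fun K _ => closed_subgroup_separable K) L hL)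

end Pool.Agent.S13082
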