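import Pool.Statements.S13094
import Pool.Agent.H82.UnifDense

set_option autoImplicit false
open Pool Pool.MP_440a64_gt

namespace Pool.Agent.S13094

open Pool.Agent.H82.UnifDense in
theorem result :
    ¬ (∀ (X : Type) [TopologicalSpace X] [T35Space X] (D : Set C(X, ℝ)),
      (∀ f : C(X, ℝ), ∀ ε : ℝ, 0 < ε → ∃ g ∈ D, ∀ x : X, |f x - g x| < ε) →
      (∃ N : Set C(X, ℝ) → Set (Set C(X, ℝ)),
        (∀ A : Set C(X, ℝ), A ⊆ D → A.Countable →
          (N A).Countable ∧ (∀ n ∈ N A, n ⊆ D) ∧
          ∀ y ∈ D,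
            y ∈ @closure _ (TopologicalSpace.induced (fun f : C(X, ℝ) => (⇑f : X → ℝ)) inferInstance) A →
            ∀ U : Set C(X, ℝ),
              @IsOpen _ (TopologicalSpace.induced (fun f : C(X, ℝ) => (⇑f : X → ℝ)) inferInstance) U →
              y ∈ U → ∃ n ∈ N A, y ∈ n ∧ n ⊆ U) ∧
        (∀ A B : Set C(X, ℝ), A ⊆ B → B ⊆ D → B.Countable → N A ⊆ N B) ∧
        (∀ A : ℕ → Set C(X, ℝ), Monotone A → (∀ k, A k ⊆ D ∧ (A k).Countable) →
          N (⋃ k, A k) = ⋃ k, N (A k))) →
      (∃ N : Set C(X, ℝ) → Set (Set C(X, ℝ)),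
        (∀ A : Set C(X, ℝ), A.Countable →
          (N A).Countable ∧
          ∀ y : C(X, ℝ),
            y ∈ @closure _ (TopologicalSpace.induced (fun f : C(X, ℝ) => (⇑f : X → ℝ)) inferInstance) A →
            ∀ U : Set C(X, ℝ),
              @IsOpen _ (TopologicalSpace.induced (fun f : C(X, ℝ) => (⇑f : X → ℝ)) inferInstance) U →
              y ∈ U → ∃ n ∈ N A, y ∈ n ∧ n ⊆ U) ∧
        (∀ A B : Set C(X, ℝ), A ⊆ B → B.Countable → N A ⊆ N B) ∧
        (∀ A : ℕ → Set C(X, ℝ), Monotone A → (∀ k, (A k).Countable) →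
          N (⋃ k, A k) = ⋃ k, N (A k)))) := by
  classical
  intro H
  have hev : ∀ x : X, @Continuous C(X, ℝ) ℝ
      (TopologicalSpace.induced (fun f : C(X, ℝ) => (⇑f : X → ℝ)) inferInstance) _ (fun f => f x) :=
    fun x => by
      letI := TopologicalSpace.induced (fun f : C(X, ℝ) => (⇑f : X → ℝ)) inferInstance
      exact (continuous_apply x).comp continuous_induced_dom
  have H' := H X (Set.range d) ?_ ?_
  · obtain ⟨N, hN, -, -⟩ := H'
    let A : Set C(X, ℝ) :=
      Set.range fun p : ℕ × Finset ℕ => ind (fun v => ∀ k < p.1, k ∈ v ↔ k ∈ p.2)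
    obtain ⟨hc, hnet⟩ := hN A (Set.countable_range _)
    have key : ∀ w : Set ℕ, ∃ n ∈ N A, ind (fun v => v = w) ∈ n ∧
        n ⊆ {g : C(X, ℝ) | 1 / 2 < g (X.y w)} := by
      intro w
      letI := TopologicalSpace.induced (fun f : C(X, ℝ) => (⇑f : X → ℝ)) inferInstance
      apply hnet
      · refine mem_closure_of_tendsto (b := Filter.atTop)
          (f := fun n : ℕ => ind (fun v => ∀ k < n, k ∈ v ↔ k ∈ w)) ?_ ?_
        · rw [nhds_induced, Filter.tendsto_comap_iff, tendsto_pi_nhds]
          exact ind_tendsto w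
        · refine Filter.Eventually.of_forall fun n => ⟨(n, (Finset.range n).filter (· ∈ w)), ?_⟩
          simp only
          congr 1
          funext v
          refine propext (forall_congr' fun k => forall_congr' fun hk => ?_)
          simp [hk]
      · exact isOpen_lt continuous_const (hev _)
      · simp [ind]; norm_num
    choose n hn hn1 hn2 using key
    have hinj : Function.Injective n := by
      intro w w' e
      have := hn2 w' (e ▸ hn1 w)
      by_contra hne
      simp [ind, Ne.symm hne] at this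
      norm_num at this
    have hcount : (Set.univ : Set (Set ℕ)).Countable :=
      (hc.preimage_of_injOn hinj.injOn).mono fun w _ => hn w
    obtain ⟨f, hf⟩ := hcount.exists_eq_range Set.univ_nonempty
    exact Function.cantor_surjective f (Set.range_eq_univ.1 hf.symm)
  · intro f ε hε
    obtain ⟨m, hm⟩ := exists_nat_one_div_lt hε
    exact ⟨d (f, m), ⟨_, rfl⟩, fun x => (d_close (f, m) x).trans hm⟩
  · refine ⟨fun A => ⋃ g ∈ A, (fun i => {d i}) '' {i | g (X.t (code i)) ≠ g X.inf}, ?_, ?_, ?_⟩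
    · intro A _ hA
      refine ⟨hA.biUnion fun g _ => Set.Countable.image ?_ _, ?_, ?_⟩
      · exact (good_of_cont g.continuous).preimage_of_injOn code_inj.injOn
      · intro n hn
        simp only [Set.mem_iUnion] at hn
        obtain ⟨g, _, i, _, rfl⟩ := hn
        exact Set.singleton_subset_iff.2 ⟨i, rfl⟩
      · rintro _ ⟨i, rfl⟩ hcl U _ hU
        letI := TopologicalSpace.induced (fun f : C(X, ℝ) => (⇑f : X → ℝ)) inferInstance
        obtain ⟨g, hg, hgA⟩ := mem_closure_iff.1 hcl {g | g (X.t (code i)) ≠ g X.inf}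
          (isOpen_ne_fun (hev _) (hev _)) (d_ne i)
        refine ⟨{d i}, ?_, rfl, Set.singleton_subset_iff.2 hU⟩
        simp only [Set.mem_iUnion]
        exact ⟨g, hgA, i, hg, rfl⟩
    · intro A B hAB _ _
      exact Set.biUnion_subset_biUnion_left hAB
    · intro A _ _
      exact Set.biUnion_iUnion _ _

end Pool.Agent.S13094
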