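import Pool.Statements.S13106
import Pool.Agent.H94.Poly2

set_option autoImplicit false
open MeasureTheory
open scoped Pointwise
open Pool Pool.MP_46ea74_gt

namespace Pool.Agent.S13106

/-- The negation of the preceding statement: For n at least 2, p in [0,1], convex bodies K, L in R^n containing 0: with S_p(A) the boundary integral of h_A(normal)^(1-p) against (n-1)-Hausdorff measure, S_p(K+L)^(1/(n-p)) is at least S_p(K)^(1/(n-p)) plus S_p(L)^(1/(n-p)). -/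
theorem result :
    ¬ (∀ n : ℕ, 2 ≤ n → ∀ p : ℝ, 0 ≤ p → p ≤ 1 →
  ∀ K L : Set (EuclideanSpace ℝ (Fin n)),
    Convex ℝ K → IsCompact K → (interior K).Nonempty → (0 : EuclideanSpace ℝ (Fin n)) ∈ K →
    Convex ℝ L → IsCompact L → (interior L).Nonempty → (0 : EuclideanSpace ℝ (Fin n)) ∈ L →
    ∀ Sp : Set (EuclideanSpace ℝ (Fin n)) → ℝ,
      (∀ A : Set (EuclideanSpace ℝ (Fin n)), Sp A =
        ∫ x in frontier A,
          (sSup {t : ℝ | ∃ u : EuclideanSpace ℝ (Fin n), ‖u‖ = 1 ∧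
            (∀ y ∈ A, @inner ℝ _ _ y u ≤ @inner ℝ _ _ x u) ∧ t = @inner ℝ _ _ x u}) ^ (1 - p)
          ∂(μH[(n : ℝ) - 1])) →
      Sp K ^ (1 / ((n : ℝ) - p)) + Sp L ^ (1 / ((n : ℝ) - p))
        ≤ Sp (K + L) ^ (1 / ((n : ℝ) - p))) := by
  intro hall
  have hK := Pool.Agent.H94.Poly.zero_mem_interior 5 19 (1 / 25) 20 12 (by norm_num) (by norm_num)
    (by norm_num) (by norm_num) (by norm_num)
  have hL := Pool.Agent.H94.Poly.zero_mem_interior 19 5 (1 / 25) 12 20 (by norm_num) (by norm_num)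
    (by norm_num) (by norm_num) (by norm_num)
  have h := hall 2 le_rfl (1 / 2) (by norm_num) (by norm_num)
    (Pool.Agent.H94.Poly.house 5 19 (1 / 25) 20 12) (Pool.Agent.H94.Poly.house 19 5 (1 / 25) 12 20)
    (Pool.Agent.H94.Poly.body_convex _ _) (Pool.Agent.H94.Poly.house_compact _ _ _ _ _) ⟨0, hK⟩
    (interior_subset hK)
    (Pool.Agent.H94.Poly.body_convex _ _) (Pool.Agent.H94.Poly.house_compact _ _ _ _ _) ⟨0, hL⟩
    (interior_subset hL) _ (fun _ => rfl)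
  have e1 : ((2 : ℕ) : ℝ) - 1 = 1 := by norm_num
  rw [Pool.Agent.H94.Poly.house_add, e1] at h
  have i1 := Pool.Agent.H94.Poly.house_integral (fun x => x ^ (1 - (1 / 2 : ℝ))) 5 19 (1 / 25) 20 12
    (by norm_num) (by norm_num) (by norm_num) (by norm_num) (by norm_num) (by norm_num)
    (by norm_num)
  have i2 := Pool.Agent.H94.Poly.house_integral (fun x => x ^ (1 - (1 / 2 : ℝ))) 19 5 (1 / 25) 12 20
    (by norm_num) (by norm_num) (by norm_num) (by norm_num) (by norm_num) (by norm_num)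
    (by norm_num)
  have i3 := Pool.Agent.H94.Poly.house_integral (fun x => x ^ (1 - (1 / 2 : ℝ))) 24 24 (2 / 25) 32 32
    (by norm_num) (by norm_num) (by norm_num) (by norm_num) (by norm_num) (by norm_num)
    (by norm_num)
  unfold Pool.Agent.H94.Poly.supp at i1 i2 i3
  simp only [] at h i1 i2 i3
  rw [i1, i2, i3] at h
  have a1 := Pool.Agent.H94.Poly.sq_lo 19 4.3588 (by norm_num)
  have a2 := Pool.Agent.H94.Poly.sq_lo (61 / 1861 * 20) 0.80966 (by norm_num)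
  have a3 := Pool.Agent.H94.Poly.sq_lo (61 / 1861 * 12) 0.62716 (by norm_num)
  have a4 := Pool.Agent.H94.Poly.sq_lo 5 2.236 (by norm_num)
  have a5 := Pool.Agent.H94.Poly.sq_lo (1 / 25) 0.2 (by norm_num)
  have b1 := Pool.Agent.H94.Poly.sq_hi 24 4.899 (by norm_num) (by norm_num)
  have b2 := Pool.Agent.H94.Poly.sq_hi (61 / 1861 * 32) 1.02416 (by norm_num) (by norm_num)
  have b3 := Pool.Agent.H94.Poly.sq_hi (2 / 25) 0.28285 (by norm_num) (by norm_num)
  have b4 := Pool.Agent.H94.Poly.sq_lo 24 0 (by norm_num)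
  have b5 := Pool.Agent.H94.Poly.sq_lo (61 / 1861 * 32) 0 (by norm_num)
  have b6 := Pool.Agent.H94.Poly.sq_lo (2 / 25) 0 (by norm_num)
  have he : (0 : ℝ) ≤ 1 / (((2 : ℕ) : ℝ) - 1 / 2) := by norm_num
  have c1 := Pool.Agent.H94.Poly.cube 2.864 (by norm_num)
  have c2 := Pool.Agent.H94.Poly.cube 4.045 (by norm_num)
  have hfin : ∀ x y z : ℝ, (2.864 : ℝ) ^ 3 ≤ x → (2.864 : ℝ) ^ 3 ≤ y → 0 ≤ z → z ≤ (4.045 : ℝ) ^ 3 →
      ¬ (x ^ (1 / (((2 : ℕ) : ℝ) - 1 / 2)) + y ^ (1 / (((2 : ℕ) : ℝ) - 1 / 2))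
        ≤ z ^ (1 / (((2 : ℕ) : ℝ) - 1 / 2))) := by
    intro x y z hx hy hz0 hz hc
    have d1 := Real.rpow_le_rpow (by norm_num) hx he
    have d2 := Real.rpow_le_rpow (by norm_num) hy he
    have d3 := Real.rpow_le_rpow hz0 hz he
    rw [c1] at d1 d2
    rw [c2] at d3
    have : (4.045 : ℝ) ^ 2 < 2.864 ^ 2 + 2.864 ^ 2 := by norm_num
    linarith
  refine hfin _ _ _ ?_ ?_ ?_ ?_ h
  · have : (2.864 : ℝ) ^ 3 ≤ 23.5 := by norm_num
    linarith
  · have : (2.864 : ℝ) ^ 3 ≤ 23.5 := by norm_num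
    linarith
  · linarith
  · have : (66.15 : ℝ) ≤ 4.045 ^ 3 := by norm_num
    linarith

end Pool.Agent.S13106
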