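import Pool.Statements.S13109
import Pool.Agent.H71.Dual4
import Pool.Agent.H71.Compl

set_option autoImplicit false
open scoped Pointwise commutatorElement IsMulCommutative
open Pool Pool.MP_47df8f_gt

namespace Pool.Agent.S13109

/-- Every Hausdorff nilpotent topological group that is precompact, minimal (no strictly coarser Hausdorff group topology) and of countable tightness is metrizable. -/
theorem result :
    ∀ (G : Type) [Group G] [t : TopologicalSpace G] [IsTopologicalGroup G] [T2Space G],
      Group.IsNilpotent G →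
      (∀ U ∈ nhds (1 : G), ∃ F : Finset G, ∀ x : G, ∃ g ∈ F, x ∈ g • U) →
      (∀ t' : TopologicalSpace G, t ≤ t' → @IsTopologicalGroup G t' _ → @T2Space G t' → t' = t) →
      (∀ (A : Set G) (x : G), x ∈ closure A → ∃ B ⊆ A, B.Countable ∧ x ∈ closure B) →
      TopologicalSpace.MetrizableSpace G := by
  intro G _ t _ _ hnil hpre hmin htight
  obtain ⟨K, _, _, _, _, _, j, hj⟩ := H71.Lie.exists_ess (G := G) (fun U hU => by
    obtain ⟨F, hF⟩ := hpre U hU
    refine ⟨F, fun x => ?_⟩
    obtain ⟨g, hg, hx⟩ := hF x
    exact ⟨g, hg, Set.mem_smul_set_iff_inv_smul_mem.1 hx⟩) (fun τ a b c => hmin τ c a b)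
  have cc : ∀ y : K, Continuous fun x : K => ⁅x, y⁆ := fun y => by
    simp only [commutatorElement_def]; fun_prop
  have cc' : ∀ x : K, Continuous fun y : K => ⁅x, y⁆ := fun y => by
    simp only [commutatorElement_def]; fun_prop
  have cZ : ∀ n, IsClosed (Subgroup.upperCentralSeries K n : Set K) := fun n => by
    induction n with
    | zero => exact isClosed_singleton
    | succ n ih =>
      have : (Subgroup.upperCentralSeries K (n + 1) : Set K) =
          ⋂ y, (fun x => ⁅x, y⁆) ⁻¹' (Subgroup.upperCentralSeries K n : Set K) := by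
        ext x; simp [Subgroup.mem_upperCentralSeries_succ_iff]
      rw [this]
      exact isClosed_iInter fun y => ih.preimage (cc y)
  have mZ : ∀ n, ∀ x ∈ Subgroup.upperCentralSeries G n, j x ∈ Subgroup.upperCentralSeries K n := by
    intro n
    induction n with
    | zero => intro x hx; rw [Subgroup.mem_bot.1 hx, map_one]; exact one_mem _
    | succ n ih =>
      intro x hx y
      refine hj.dense.induction_on y ((cZ n).preimage (cc' _)) fun g => ?_
      rw [← map_commutatorElement]
      exact ih _ (hx g)
  obtain ⟨n, hn⟩ := hnil.nilpotent'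
  have top : ∀ y, y ∈ Subgroup.upperCentralSeries K n := fun y =>
    hj.dense.induction_on y (cZ n) fun g => mZ n g (hn ▸ Subgroup.mem_top g)
  have cC : IsClosed (Subgroup.center K : Set K) := Subgroup.upperCentralSeries_one K ▸ cZ 1
  have : CompactSpace (Subgroup.center K) := isCompact_iff_compactSpace.1 cC.isCompact
  have tt : H71.Dual.Tight (j.range : Set K) := by
    have := H71.Dual.Tight.image (H := Set.univ) (fun S _ x _ h => htight S x h) hj.emb
    rwa [Set.image_univ] at this
  obtain ⟨V, hV, hV'⟩ := H71.Dual.GD_of_metrizable _ (H71.Dual.thmA' (C := Subgroup.center K)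
    (H := j.range.comap (Subgroup.center K).subtype) (fun M hM hne => by
      obtain ⟨g, h1, y, hy, e⟩ := hj.ess (M.map (Subgroup.center K).subtype)
        ⟨(hM.isCompact.image continuous_subtype_val).isClosed, ⟨by
          rintro _ ⟨y, hy, rfl⟩ k
          refine ⟨y, hy, ?_⟩
          change (y : K) = k * y * k⁻¹
          rw [Subgroup.mem_center_iff.1 y.2 k, mul_inv_cancel_right]⟩⟩
        (fun e => hne ((Subgroup.map_eq_bot_iff_of_injective _ (Subgroup.subtype_injective _)).1 e))
      exact ⟨y, ⟨g, e.symm⟩, fun e' => h1 (hj.emb.injective (by rw [← e, e', map_one, map_one])), hy⟩)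
    (tt.preimage Topology.IsEmbedding.subtypeVal))
  have gd : ∀ n, H71.Dual.GD (Subgroup.upperCentralSeries K n : Set K) := fun n => by
    induction n with
    | zero => exact ⟨fun _ => Set.univ, fun _ => Filter.univ_mem, fun x hx _ => hx⟩
    | succ n ih =>
      obtain ⟨U, hU, h⟩ := ih
      refine ⟨fun m => V m ∩ {x | ∀ y ∈ Set.univ, ⁅x, y⁆ ∈ U m}, fun m => Filter.inter_mem (hV m)
        (isCompact_univ.eventually_forall_of_forall_eventually (P := fun x y => ⁅x, y⁆ ∈ U m)
          fun y _ => ?_), fun x hx hm => hV' x ?_ fun m => (hm m).1⟩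
      · exact Continuous.tendsto' (f := fun z : K × K => ⁅z.1, z.2⁆)
          (by simp only [commutatorElement_def]; fun_prop) (1, y) 1 (by simp) (hU m)
      · exact Subgroup.mem_center_iff.2 fun y => (commutatorElement_eq_one_iff_mul_comm.1
          (h _ (hx y) fun m => (hm m).2 y trivial)).symm
  obtain ⟨U, hU, h⟩ := gd n
  have := H71.Dual.metrizable_of_GD (K := K) ⟨U, hU, fun x _ => h x (top x)⟩
  exact hj.emb.metrizableSpace

end Pool.Agent.S13109
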