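import Pool.Statements.S13117
import Pool.Agent.H60.CovaC

set_option autoImplicit false
open Pool Pool.MP_48d5b6_gt

namespace Pool.Agent.S13117

/-- Let C be a centrally symmetric compact set in n-space equal to the closure of its interior, and D another such set (not assumed symmetric) with the same covariogram vol(·∩(·+x)) for all x. Then D is a translate of C or of −C. -/
theorem result :
    ∀ (n : ℕ) (C D : Set (EuclideanSpace ℝ (Fin n))),
      IsCompact C → closure (interior C) = C →
      (∃ c : EuclideanSpace ℝ (Fin n), ∀ x ∈ C, (2 : ℝ) • c - x ∈ C) →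
      IsCompact D → closure (interior D) = D →
      (∀ x : EuclideanSpace ℝ (Fin n),
        MeasureTheory.volume (D ∩ ((fun y => y + x) '' D)) =
          MeasureTheory.volume (C ∩ ((fun y => y + x) '' C))) →
      ∃ t : EuclideanSpace ℝ (Fin n),
        D = (fun y => y + t) '' C ∨ D = (fun y => -y + t) '' C := by
  intro n C D hC hCr hc hD hDr h
  obtain ⟨c, hc⟩ := hc
  obtain ⟨t, ht⟩ := Pool.Agent.H60.Cova.main hC hCr c hc hD hDr (fun x => by
    rw [← Pool.Agent.H60.Cova.cov_eq, ← Pool.Agent.H60.Cova.cov_eq]; exact h x)
  exact ⟨t, Or.inl ht⟩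

end Pool.Agent.S13117
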