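import Pool.Statements.S13139
import Pool.Agent.H82.WcD

set_option autoImplicit false
open TopologicalSpace
open Pool Pool.MP_4bbdcb_gt

namespace Pool.Agent.S13139

theorem result :
  ∀ (X : Type) [MetricSpace X] [CompactSpace X] [ConnectedSpace X],
    (∃ (Y : Type) (_ : MetricSpace Y), CompactSpace Y ∧ ConnectedSpace Y ∧
        (∀ ε : ℝ, ε > 0 → ∃ g : Y → ℝ, Continuous g ∧
            ∀ r : ℝ, Metric.diam (g ⁻¹' {r}) < ε) ∧
        ∃ f : Y → X, Continuous f ∧ Function.Surjective f) →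
    ∀ μ : NonemptyCompacts X → ℝ,
      ContinuousOn μ {K : NonemptyCompacts X | IsConnected (K : Set X)} →
      (∀ K : NonemptyCompacts X, (∃ x : X, (K : Set X) = {x}) → μ K = 0) →
      (∀ A B : NonemptyCompacts X, IsConnected (A : Set X) → IsConnected (B : Set X) →
          (A : Set X) ⊂ (B : Set X) → μ A < μ B) →
      ∀ t : ℝ, (∃ K : NonemptyCompacts X, IsConnected (K : Set X) ∧ μ K = t) →
        ∃ (Y : Type) (_ : MetricSpace Y), CompactSpace Y ∧ ConnectedSpace Y ∧
          (∀ ε : ℝ, ε > 0 → ∃ g : Y → ℝ, Continuous g ∧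
              ∀ r : ℝ, Metric.diam (g ⁻¹' {r}) < ε) ∧
          ∃ f : Y → ↥{K : NonemptyCompacts X | IsConnected (K : Set X) ∧ μ K = t},
            Continuous f ∧ Function.Surjective f := by
  intro X _ _ _ ⟨P, _, _, _, hP, f, fc, fs⟩ μ hc h0 hs t ⟨K, k1, k2⟩
  exact Pool.Agent.H82.WcD.final hP fc fs hc h0 (fun A hA B hB h => hs A B hA hB h) k1 k2

end Pool.Agent.S13139
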