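import Pool.Statements.S13161
import Pool.Agent.H33.Spl8

set_option autoImplicit false
open Pool Pool.MP_51c861_gt

namespace Pool.Agent.S13161

/-- Let X be a pseudocompact Tychonoff space such that every subset A is exactly the full preimage of its image under some continuous map into a compact subset of c0(Γ) with the pointwise topology. Then X is compact and embeds in such a c0(Γ), i.e. X is Eberlein compact. -/
theorem result :
    ∀ (X : Type) [TopologicalSpace X] [T35Space X],
      (∀ f : X → ℝ, Continuous f → ∃ M : ℝ, ∀ x, |f x| ≤ M) →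
      (∀ A : Set X, ∃ (Γ : Type) (K : Set (Γ → ℝ)) (f : X → (Γ → ℝ)),
          IsCompact K ∧
          (∀ y ∈ K, ∀ ε : ℝ, 0 < ε → Set.Finite {γ : Γ | ε ≤ |y γ|}) ∧
          Continuous f ∧ (∀ x, f x ∈ K) ∧ f ⁻¹' (f '' A) = A) →
      CompactSpace X ∧
        ∃ (Γ : Type) (e : X → (Γ → ℝ)), Topology.IsEmbedding e ∧
          ∀ x, ∀ ε : ℝ, 0 < ε → Set.Finite {γ : Γ | ε ≤ |e x γ|} := by
  intro X _ _ hp hs
  choose Γ K f hK hc hf hfK hA using hs
  have : CompactSpace X := Pool.Agent.H33.Spl8.compact_main hK hc hf hfK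
    (fun A x y h hx => (hA A).subset ⟨x, hx, h⟩) (Pool.Agent.H33.Spl8.fc_univ hp)
  obtain ⟨Γ, e, h1, h2, -, h3⟩ := Pool.Agent.H33.Spl3.eberlein (X := X) fun A =>
    ⟨K A, inferInstance, fun x => ⟨f A x, hfK A x⟩, ⟨_, Subtype.val, continuous_subtype_val,
      Subtype.val_injective, fun y => hc A y y.2⟩, (hf A).subtype_mk _,
      (Set.subset_preimage_image _ _).antisymm' fun x ⟨y, hy, h⟩ =>
        (hA A).subset ⟨y, hy, congrArg Subtype.val h⟩⟩
  exact ⟨this, Γ, e, (h1.isClosedEmbedding h2).isEmbedding, h3⟩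

end Pool.Agent.S13161
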