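import Pool.Statements.S13188
-- import your own Pool.Agent.* helpers here

set_option autoImplicit false
open Pool Pool.MP_55e428_gt

namespace Pool.Agent.S13188
open Set

def K : Set (ℝ → ℝ) := {x | (∀ a, x a = 0 ∨ x a = 1) ∧ ∀ a b, a ≠ b → x a = 0 ∨ x b = 0}

def Y : Set (ℝ → ℝ) := {y | (∀ a, y a ∈ Icc (0 : ℝ) 1) ∧ {a | y a ≠ 0}.Finite}

theorem cube : IsCompact {y : ℝ → ℝ | ∀ a, y a ∈ Icc (0 : ℝ) 1} :=
  isCompact_pi_infinite fun _ => isCompact_Icc

theorem zc (a : ℝ) (c : ℝ) : IsClosed {x : ℝ → ℝ | x a = c} :=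
  isClosed_eq (continuous_apply a) continuous_const

theorem K_compact : IsCompact K := by
  refine cube.of_isClosed_subset (IsClosed.and ?_ ?_) fun x hx a => ?_
  · rw [ofPred_forall]
    exact isClosed_iInter fun a => (zc a 0).union (zc a 1)
  · simp only [ofPred_forall]
    exact isClosed_iInter fun a => isClosed_iInter fun b => isClosed_iInter fun _ =>
      (zc a 0).union (zc b 0)
  · rcases hx.1 a with h | h <;> simp [h]

theorem Y_sigma : IsSigmaCompact Y := by
  classical
  refine ⟨fun n => {y | (∀ a, y a ∈ Icc (0 : ℝ) 1) ∧ ∀ s : Finset ℝ, n < s.card → ∃ a ∈ s, y a = 0},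
    fun n => ?_, ?_⟩
  · refine cube.inter_right (t := {y | ∀ s : Finset ℝ, n < s.card → ∃ a ∈ s, y a = 0}) ?_
    simp only [ofPred_forall]
    refine isClosed_iInter fun s => isClosed_iInter fun _ => ?_
    have : {y : ℝ → ℝ | ∃ a ∈ s, y a = 0} = ⋃ a ∈ s, {y | y a = 0} := by ext; simp
    rw [this]
    exact isClosed_biUnion_finset fun a _ => zc a 0
  · ext y
    rw [mem_iUnion]
    constructor
    · rintro ⟨n, h1, h2⟩
      refine ⟨h1, by_contra fun h3 => ?_⟩
      obtain ⟨s, h4, h5⟩ := Set.Infinite.exists_subset_card_eq h3 (n + 1)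
      obtain ⟨a, h6, h7⟩ := h2 s (by omega)
      exact h4 h6 h7
    · rintro ⟨h1, h2⟩
      refine ⟨h2.toFinset.card, h1, fun s hs => ?_⟩
      obtain ⟨a, h3, h4⟩ := Finset.exists_mem_notMem_of_card_lt_card hs
      exact ⟨a, h3, by simpa using h4⟩

open Classical in
noncomputable def e (a : ℝ) : K := ⟨fun b => if b = a then 1 else 0,
  fun b => by by_cases h : b = a <;> simp [h], fun b c h => by
    by_cases h1 : b = a
    · exact Or.inr (if_neg fun h2 => h (h1.trans h2.symm))
    · exact Or.inl (if_neg h1)⟩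

def z : K := ⟨0, by simp, by simp⟩

noncomputable def φ (f : {f : K → ℝ // Continuous f}) : Y :=
  ⟨fun a => max 0 (min 1 (f.1 (e a) - f.1 z - 1)), fun a => ⟨le_max_left _ _,
    max_le zero_le_one (min_le_left _ _)⟩, by
    obtain ⟨V, hV, h1⟩ := isOpen_induced_iff.1 (isOpen_lt f.2 (continuous_const (y := f.1 z + 1)))
    have h2 : z ∈ Subtype.val ⁻¹' V := by rw [h1]; simp
    obtain ⟨T, u, h3, h4⟩ := isOpen_pi_iff.1 hV _ h2
    refine T.finite_toSet.subset fun a ha => by_contra fun h5 => ha ?_
    have h6 : e a ∈ Subtype.val ⁻¹' V := h4 fun b hb => by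
      have : (e a).1 b = z.1 b := if_neg fun h7 : b = a => h5 (h7 ▸ hb)
      rw [this]
      exact (h3 b hb).2
    rw [h1] at h6
    have h7 : f.1 (e a) < f.1 z + 1 := h6
    exact max_eq_left (min_le_of_right_le (by linarith))⟩

/-- The negation of the preceding statement: For every compact subset K of ℝ^Γ lying in c₀(Γ) (i.e. every Eberlein compact), every continuous surjection from C_p(K) (pointwise topology) onto a σ-compact Tychonoff space Y has Y with a countable network. -/
theorem result :
    ¬ (∀ (Γ : Type) (K : Set (Γ → ℝ)), IsCompact K →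
      (∀ x ∈ K, ∀ ε : ℝ, 0 < ε → {γ : Γ | ε < |x γ|}.Finite) →
      ∀ (Y : Type) [TopologicalSpace Y] [T35Space Y] [SigmaCompactSpace Y]
        (φ : {f : K → ℝ // Continuous f} → Y), Continuous φ → Function.Surjective φ →
        ∃ N : Set (Set Y), N.Countable ∧
          ∀ U : Set Y, IsOpen U → ∀ y ∈ U, ∃ A ∈ N, y ∈ A ∧ A ⊆ U) := by
  classical
  intro h
  have := isSigmaCompact_iff_sigmaCompactSpace.1 Y_sigma
  have h0 : ∀ x : K, Continuous fun f : {f : K → ℝ // Continuous f} => f.1 x :=
    fun x => (continuous_apply x).comp continuous_subtype_val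
  obtain ⟨N, hN, hN'⟩ := h ℝ K K_compact (fun x hx ε hε => Set.Subsingleton.finite fun a ha b hb => by
      by_contra h1
      rcases hx.2 a b h1 with h2 | h2
      · simp only [mem_ofPred_eq, h2, abs_zero] at ha; linarith
      · simp only [mem_ofPred_eq, h2, abs_zero] at hb; linarith) Y φ
    (Continuous.subtype_mk (continuous_pi fun a => continuous_const.max (continuous_const.min
      (((h0 _).sub (h0 _)).sub continuous_const))) _) (fun y => by
      refine ⟨⟨fun x => ∑ a ∈ y.2.2.toFinset, (y.1 a + 1) * x.1 a, continuous_finsetSum _ fun a _ =>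
        continuous_const.mul ((continuous_apply a).comp continuous_subtype_val)⟩,
        Subtype.ext (funext fun a => ?_)⟩
      have h1 := y.2.1 a
      by_cases h2 : y.1 a = 0
      · simp [φ, e, z, h2]
      · simp [φ, e, z, h2, h1.1, h1.2])
  let p : ℝ → Y := fun a => ⟨(e a).1, fun b => by rcases (e a).2.1 b with h | h <;> simp [h],
    (finite_singleton a).subset fun b hb => by_contra fun h => hb (if_neg h)⟩
  choose n h2 h3 h4 using fun a => hN' {y | 0 < y.1 a} (isOpen_lt continuous_const
    ((continuous_apply a).comp continuous_subtype_val)) (p a) (by simp [p, e])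
  have := hN.to_subtype
  have h5 : Countable ℝ := Function.Injective.countable
    (f := fun a => (⟨n a, h2 a⟩ : N)) fun a b h => by
      have h6 := h4 b ((show n a = n b from congrArg Subtype.val h) ▸ h3 a)
      by_contra h7
      simp [p, e, Ne.symm h7] at h6
  exact not_countable h5

end Pool.Agent.S13188
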