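import Pool.Statements.S13210
import Pool.Agent.H81.Slab

set_option autoImplicit false
open MeasureTheory
open scoped Pointwise
open Pool Pool.MP_598757_gt

namespace Pool.Agent.S13210

/-- The negation of the preceding statement: For every convex body K in 3-space and real c: if every orthogonal plane projection has isoperimetric ratio π·area/V₁² at least c, then 9π·vol(K)²/(2·V₂(K)³) is at least c (V₁, V₂ given via Steiner-formula limits). -/
theorem result :
    ¬ (∀ (K : Set (EuclideanSpace ℝ (Fin 3))) (c : ℝ),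
    IsCompact K → Convex ℝ K → (interior K).Nonempty →
    (∀ u ∈ Metric.sphere (0 : EuclideanSpace ℝ (Fin 3)) 1, ∀ L : ℝ,
      Filter.Tendsto (fun t : ℝ =>
        ((volume ((fun x : EuclideanSpace ℝ (Fin 3) => x - (inner ℝ u x) • u) '' K
              + Metric.closedBall (0 : EuclideanSpace ℝ (Fin 3)) t)).toReal
          - 2 * t * ((volume (K + segment ℝ (0 : EuclideanSpace ℝ (Fin 3)) u)).toReal
              - (volume K).toReal)) / (Real.pi * t ^ 2))
        (nhdsWithin 0 (Set.Ioi 0)) (nhds L) →
      c ≤ Real.pi * ((volume (K + segment ℝ (0 : EuclideanSpace ℝ (Fin 3)) u)).toReal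
              - (volume K).toReal) / L ^ 2) →
    ∀ S : ℝ,
      Filter.Tendsto (fun t : ℝ =>
        ((volume (K + Metric.closedBall (0 : EuclideanSpace ℝ (Fin 3)) t)).toReal
          - (volume K).toReal) / (2 * t))
        (nhdsWithin 0 (Set.Ioi 0)) (nhds S) →
      c ≤ 9 * Real.pi * (volume K).toReal ^ 2 / (2 * S ^ 3)) := by
  intro h
  have hpi := Real.pi_pos
  have hR : ∀ x ∈ H81.Slab.box 1 1 (1 / 1000), ‖x‖ ≤ 3 / 2 := fun x hx => by
    have := H81.Slab.box_norm hx
    nlinarith [norm_nonneg x]
  have hV : (volume (H81.Slab.box 1 1 (1 / 1000))).toReal = 8 / 1000 := by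
    rw [H81.Slab.vol_box (by norm_num) (by norm_num) (by norm_num),
      ENNReal.toReal_ofReal (by norm_num)]
    norm_num
  have key := h (H81.Slab.box 1 1 (1 / 1000)) (Real.pi / 30000) (H81.Slab.box_compact _ _ _)
    (H81.Slab.box_convex _ _ _) ⟨0, H81.Slab.box_int (by norm_num) (by norm_num) (by norm_num)⟩
    (fun u hu L hL => by
      obtain ⟨h1, h2, h3⟩ := H81.Slab.shadow_ratio (H81.Slab.box_compact _ _ _)
        (H81.Slab.box_convex _ _ _) (by norm_num) hR (by simpa using hu) hL
      set A := (volume (H81.Slab.box 1 1 (1 / 1000) +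
        segment ℝ (0 : EuclideanSpace ℝ (Fin 3)) u)).toReal -
        (volume (H81.Slab.box 1 1 (1 / 1000))).toReal
      rw [hV] at h1
      have hL0 : 0 < L := by
        by_contra hn
        push Not at hn
        nlinarith
      have hL8 : L ≤ 8 := by nlinarith [Real.pi_gt_three]
      rw [le_div_iff₀ (by positivity)]
      have : L ^ 2 ≤ 64 := by nlinarith
      nlinarith)
    _ (H81.Slab.box_limit (by norm_num) (by norm_num) (by norm_num))
  rw [hV, le_div_iff₀ (by norm_num)] at key
  nlinarith

end Pool.Agent.S13210
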