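import Pool.Statements.S13232
import Pool.Agent.H33.Centered

set_option autoImplicit false
open Pool Pool.MP_5abde9_gt

namespace Pool.Agent.S13232

/-- The negation of the preceding statement: If a compact Hausdorff space is a continuous image of the space of subfamilies with the finite intersection property of some infinite family of sets, then every nonempty closed G-delta subset of it is also such a continuous image. -/
theorem result :
    ¬ (∀ (K : Type) [TopologicalSpace K] [CompactSpace K] [T2Space K],
      (∃ (X : Type) (S : Set (Set X)), S.Infinite ∧
        ∃ f : {ξ : S → Bool //
            ∀ F : Finset S, (∀ P ∈ F, ξ P = true) → (⋂ P ∈ F, P.1).Nonempty} → K,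
          Continuous f ∧ Function.Surjective f) →
      ∀ C : Set K, IsClosed C → IsGδ C → C.Nonempty →
        ∃ (X : Type) (S : Set (Set X)), S.Infinite ∧
          ∃ g : {ξ : S → Bool //
              ∀ F : Finset S, (∀ P ∈ F, ξ P = true) → (⋂ P ∈ F, P.1).Nonempty} → C,
            Continuous g ∧ Function.Surjective g) := by
  exact Pool.Agent.H33.Centered.main

end Pool.Agent.S13232
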