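import Pool.Statements.S13234
import Pool.Agent.H82.SigPs

set_option autoImplicit false
open Pool Pool.MP_5b75f6_gt

namespace Pool.Agent.S13234

theorem result :
    ¬ (∀ (X Y : Type) [TopologicalSpace X] [T35Space X] [TopologicalSpace Y] [T35Space Y],
      (∃ e : C(X, ℝ) ≃ C(Y, ℝ),
        @Continuous C(X, ℝ) (Y → ℝ)
          (TopologicalSpace.induced (fun g : C(X, ℝ) => (g : X → ℝ)) inferInstance)
          inferInstance (fun g => ((e g : C(Y, ℝ)) : Y → ℝ)) ∧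
        @Continuous C(Y, ℝ) (X → ℝ)
          (TopologicalSpace.induced (fun g : C(Y, ℝ) => (g : Y → ℝ)) inferInstance)
          inferInstance (fun g => ((e.symm g : C(X, ℝ)) : X → ℝ))) →
      (∃ S : ℕ → Set Y, (⋃ n, S n) = Set.univ ∧
        ∀ n, ∀ f : C(S n, ℝ), ∃ M : ℝ, ∀ a, |f a| ≤ M) →
      (∃ S : ℕ → Set X, (⋃ n, S n) = Set.univ ∧
        ∀ n, ∀ f : C(S n, ℝ), ∃ M : ℝ, ∀ a, |f a| ≤ M)) := by
  intro h
  obtain ⟨M, h0, h1, h2, h3⟩ := H82.SigPs.mad
  have := H82.SigPs.tA h2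
  have := H82.SigPs.tY h2
  have := H82.FS.t35 (F := (Filter.cofinite : Filter ℕ)) le_rfl
  have : T35Space (H82.MSp.MS (H82.SigPs.FA M) ⊕ H82.FS.FS (Filter.cofinite : Filter ℕ)) :=
    H82.FS.t35_sum
  obtain ⟨e, he⟩ := H82.SigPs.ue h3
  obtain ⟨S, hS, hS'⟩ := h _ _ ⟨⟨fun g => ⟨e g, (he g).1 g.continuous⟩,
    fun g => ⟨e.symm g, (he _).2 (by rw [e.apply_symm_apply]; exact g.continuous)⟩,
    fun g => ContinuousMap.ext (congrFun (e.symm_apply_apply g)),
    fun g => ContinuousMap.ext (congrFun (e.apply_symm_apply g))⟩,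
    @Continuous.comp _ _ _ (TopologicalSpace.induced _ _) _ _ _ e e.continuous
      continuous_induced_dom,
    @Continuous.comp _ _ _ (TopologicalSpace.induced _ _) _ _ _ e.symm e.continuous_symm
      continuous_induced_dom⟩ (H82.SigPs.sigY h1 h3)
  exact H82.SigPs.nsigX h0 S hS hS'

end Pool.Agent.S13234
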