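import Pool.Statements.S13265
import Pool.Agent.H8.Joints5

set_option autoImplicit false
open Pool Pool.MP_617eb0_gt

namespace Pool.Agent.S13265

/-- For all d,k,s with 1≤k≤s≤d−2 and k not dividing s, some finite γ gives ζ_s(K)^(1/s) ≤ γ·ζ_k(K)^(1/k) for every d-dimensional convex body K with finite k-content (content via polytope approximation). -/
theorem result :
    ∀ d k s : ℕ, 1 ≤ k → k ≤ s → s + 2 ≤ d → ¬ k ∣ s →
    ∀ ζ : ℕ → Set (EuclideanSpace ℝ (Fin d)) → ENNReal,
      (∀ (j : ℕ) (K : Set (EuclideanSpace ℝ (Fin d))),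
        ζ j K = ⨅ (P : ℕ → Set (EuclideanSpace ℝ (Fin d)))
          (_ : (∀ n, (∃ S : Finset (EuclideanSpace ℝ (Fin d)),
                  P n = convexHull ℝ (↑S : Set (EuclideanSpace ℝ (Fin d))))
                ∧ (interior (P n)).Nonempty)
              ∧ Filter.Tendsto (fun n => EMetric.hausdorffEdist (P n) K)
                  Filter.atTop (nhds (0 : ENNReal))),
          Filter.liminf
            (fun n => ∑' F : {F : Set (EuclideanSpace ℝ (Fin d)) //
                IsExposed ℝ (P n) F ∧ F.Nonempty ∧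
                Module.finrank ℝ (affineSpan ℝ F).direction = j},
              MeasureTheory.Measure.hausdorffMeasure (j : ℝ)
                (F : Set (EuclideanSpace ℝ (Fin d))))
            Filter.atTop) →
      ∃ γ : NNReal, ∀ K : Set (EuclideanSpace ℝ (Fin d)),
        Convex ℝ K → IsCompact K → (interior K).Nonempty → ζ k K < ⊤ →
        ζ s K ^ ((1 : ℝ) / (s : ℝ)) ≤ (γ : ENNReal) * ζ k K ^ ((1 : ℝ) / (k : ℝ)) := by
  intro d k s hk hks _ _ ζ hζ
  obtain ⟨γ, hγ, h⟩ := Pool.Agent.H8.Joints.chain (V := EuclideanSpace ℝ (Fin d)) hk s hks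
  refine ⟨γ, fun K _ _ _ _ => ?_⟩
  have hk0 : (0 : ℝ) < 1 / (k : ℝ) := by
    have : (0 : ℝ) < k := by exact_mod_cast hk
    positivity
  have hs0 : (0 : ℝ) < 1 / (s : ℝ) := by
    have : (0 : ℝ) < s := by exact_mod_cast (hk.trans hks)
    positivity
  let A := ENNReal.orderIsoRpow _ hs0
  let B := (ENNReal.orderIsoRpow _ hk0).trans
    (ENNReal.mulLeftOrderIso γ (ENNReal.isUnit_iff.2 ⟨by simpa using hγ, by simp⟩))
  change A (ζ s K) ≤ B (ζ k K)
  rw [hζ, hζ, A.map_iInf, B.map_iInf]
  refine iInf_mono fun P => ?_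
  rw [A.map_iInf, B.map_iInf]
  refine iInf_mono fun hP => ?_
  rw [A.liminf_apply, B.liminf_apply]
  refine Filter.liminf_le_liminf (Filter.Eventually.of_forall fun n => ?_)
  obtain ⟨S, hS⟩ := (hP.1 n).1
  rw [hS]
  exact h S

end Pool.Agent.S13265
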