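import Pool.Statements.S13288
import Pool.Agent.H82.LadC

set_option autoImplicit false
open Pool Pool.MP_64b69f_gt

namespace Pool.Agent.S13288

theorem result :
    ¬ (∀ (X : Type) [TopologicalSpace X] [CompactSpace X] [T2Space X],
      (∀ A : Set X, ∃ N : Set (Set X),
          (∀ n ∈ N, n ⊆ closure A) ∧
          (∀ x ∈ closure A, ∀ U : Set X, IsOpen U → x ∈ U → ∃ n ∈ N, x ∈ n ∧ n ⊆ U) ∧
          Cardinal.mk N ≤ max (Cardinal.mk A) Cardinal.aleph0) →
      ∃ (ι : Type) (f : {h : X → ℝ // Continuous h} → (ι → ℝ)),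
        Continuous f ∧ Function.Injective f ∧
        ∀ g : {h : X → ℝ // Continuous h}, Set.Countable {i : ι | f g i ≠ 0}) := by
  intro H
  obtain ⟨X, _, _, _, h1, h2⟩ := Pool.Agent.H82.LadC.final
  obtain ⟨ι, f, h3, h4, h5⟩ := H X fun A => ⟨singleton '' closure A, by
    rintro _ ⟨x, hx, rfl⟩; exact Set.singleton_subset_iff.2 hx, fun x hx U _ hU =>
    ⟨{x}, ⟨x, hx, rfl⟩, rfl, Set.singleton_subset_iff.2 hU⟩, Cardinal.mk_image_le.trans (h1 A)⟩
  exact h2 ι f h3 h4 h5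

end Pool.Agent.S13288
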