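import Pool.Statements.S13295
import Pool.Agent.H33.WardFP

set_option autoImplicit false
open TopologicalSpace
open Pool Pool.MP_65cb57_gt

namespace Pool.Agent.S13295

/-- Every arcwise connected metric continuum on which every Hausdorff-continuous map to nonempty closed subsets has a fixed point x ∈ F(x) is hereditarily unicoherent: any two subcontinua have connected (possibly empty) intersection. -/
theorem result :
    ∀ (X : Type) [MetricSpace X] [CompactSpace X] [ConnectedSpace X],
      (∀ x y : X, x ≠ y → ∃ γ : Path x y, Function.Injective γ) →
      (∀ F : X → NonemptyCompacts X, Continuous F → ∃ x : X, x ∈ F x) →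
      ∀ A B : Set X, IsClosed A → IsConnected A → IsClosed B → IsConnected B →
        IsPreconnected (A ∩ B) := by
  intro X _ _ _ _ hF A B hA hAc hB hBc
  exact Pool.Agent.H33.WardFP.main X hF A B hA hAc hB hBc

end Pool.Agent.S13295
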