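import Pool.Statements.S13316
import Pool.Agent.H82.PerfectL

set_option autoImplicit false
open Pool Pool.MP_69fc66_gt

namespace Pool.Agent.S13316

open Pool.Agent.H82.PerfectL in
theorem result :
    ¬ (∀ (X Y : Type) [TopologicalSpace X] [TopologicalSpace Y] [T35Space X] [T35Space Y],
      (∃ Φ : C(X, ℝ) ≃ C(Y, ℝ),
        (∀ B : Finset Y, ∀ ε : ℝ, 0 < ε → ∃ A : Finset X, ∃ δ : ℝ, 0 < δ ∧
          ∀ f g : C(X, ℝ), (∀ x ∈ A, |f x - g x| < δ) →
            ∀ y ∈ B, |Φ f y - Φ g y| < ε) ∧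
        (∀ A : Finset X, ∀ ε : ℝ, 0 < ε → ∃ B : Finset Y, ∃ δ : ℝ, 0 < δ ∧
          ∀ f g : C(Y, ℝ), (∀ y ∈ B, |f y - g y| < δ) →
            ∀ x ∈ A, |Φ.symm f x - Φ.symm g x| < ε)) →
      (∀ s : Set X, IsClosed s → IsGδ s) →
      (∀ t : Set Y, IsClosed t → IsGδ t)) := by
  classical
  intro H
  apply not_perfect2
  refine H (Sp L1) (Sp L2) ?_ (fun s _ => perfect1 s) _ isClosed_singleton
  have key : ∀ (c : ℝ), |c| = 1 → ∀ (B : Finset W) (ε : ℝ) (f g : W → ℝ),
      (∀ x ∈ insert W.star (B ∪ B.image fold), |f x - g x| < ε / 3) →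
      ∀ y ∈ B, |sh c f y - sh c g y| < ε := by
    intro c hc B ε f g h y hy
    have := sh_close c hc f g y (ε / 3) (h y (by simp [hy]))
      (h _ (Finset.mem_insert_of_mem (Finset.mem_union_right _ (Finset.mem_image_of_mem _ hy))))
      (h _ (Finset.mem_insert_self _ _))
    linarith
  refine ⟨{ toFun := fun f => ⟨sh (-1) f, cont12 f.continuous⟩
            invFun := fun g => ⟨sh 1 g, cont21 g.continuous⟩
            left_inv := fun f => ContinuousMap.ext fun w => ?_
            right_inv := fun g => ContinuousMap.ext fun w => congrFun (sh_sh 1 g) w }, ?_, ?_⟩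
  · have := sh_sh (-1) f
    rw [neg_neg] at this
    exact congrFun this w
  · intro B ε hε
    exact ⟨(insert W.star (B ∪ Finset.image fold B) : Finset W), ε / 3, by positivity,
      fun f g h y hy => key (-1) (by simp) B ε f g h y hy⟩
  · intro B ε hε
    exact ⟨(insert W.star (B ∪ Finset.image fold B) : Finset W), ε / 3, by positivity,
      fun f g h y hy => key 1 (by simp) B ε f g h y hy⟩

end Pool.Agent.S13316
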