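import Pool.Statements.S13321

set_option autoImplicit false
open Topology
open Pool Pool.MP_6b9469_gt

namespace Pool.Agent.S13321

theorem result :
    ∀ (X : Type) [TopologicalSpace X],
      (∃ B : Set (Set X), TopologicalSpace.IsTopologicalBasis B ∧
        ∃ F : ℕ → Set (Set X), B = ⋃ n, F n ∧ ∀ n, (F n).PairwiseDisjoint id) →
      (∃ B : Set (Set X), TopologicalSpace.IsTopologicalBasis B ∧
        ∃ F : ℕ → Set (Set X), B = ⋃ n, F n ∧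
          ∀ n, ∀ x : X, ∃ U ∈ 𝓝 x, {S ∈ F n | (S ∩ U).Nonempty}.Countable) →
      ∃ B : Set (Set X), TopologicalSpace.IsTopologicalBasis B ∧
        (∃ F : ℕ → Set (Set X), B = ⋃ n, F n ∧ ∀ n, (F n).PairwiseDisjoint id) ∧
        (∃ G : ℕ → Set (Set X), B = ⋃ n, G n ∧
          ∀ n, ∀ x : X, ∃ U ∈ 𝓝 x, {S ∈ G n | (S ∩ U).Nonempty}.Countable) := by
  intro X _ h1 h2
  obtain ⟨B, hB, F, hBF, hF⟩ := h1
  obtain ⟨C, hC, G, hCG, hG⟩ := h2
  -- shrink `U` to the union of the members of `G m` inside it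
  let sh : ℕ → Set X → Set X := fun m U => ⋃₀ {V | V ∈ G m ∧ V ⊆ U}
  have hsh : ∀ m U, sh m U ⊆ U := by
    intro m U x hx
    obtain ⟨V, hV, hxV⟩ := hx
    exact hV.2 hxV
  let H : ℕ → Set (Set X) := fun k => sh (Nat.unpair k).2 '' F (Nat.unpair k).1
  refine ⟨⋃ k, H k, ?_, ⟨H, rfl, ?_⟩, ⟨H, rfl, ?_⟩⟩
  · apply TopologicalSpace.isTopologicalBasis_of_isOpen_of_nhds
    · intro u hu
      simp only [Set.mem_iUnion] at hu
      obtain ⟨k, U, _, rfl⟩ := hu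
      apply isOpen_sUnion
      intro V hV
      apply hC.isOpen
      rw [hCG]
      exact Set.mem_iUnion.2 ⟨_, hV.1⟩
    · intro x O hxO hO
      obtain ⟨U, hUB, hxU, hUO⟩ := hB.exists_subset_of_mem_open hxO hO
      obtain ⟨V, hVC, hxV, hVU⟩ := hC.exists_subset_of_mem_open hxU (hB.isOpen hUB)
      rw [hBF] at hUB
      rw [hCG] at hVC
      obtain ⟨n, hn⟩ := Set.mem_iUnion.1 hUB
      obtain ⟨m, hm⟩ := Set.mem_iUnion.1 hVC
      refine ⟨sh m U, Set.mem_iUnion.2 ⟨Nat.pair n m, ?_⟩, ⟨V, ⟨hm, hVU⟩, hxV⟩, (hsh m U).trans hUO⟩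
      simp only [H, Nat.unpair_pair]
      exact ⟨U, hn, rfl⟩
  · intro k
    rintro _ ⟨U, hU, rfl⟩ _ ⟨U', hU', rfl⟩ hne
    have hUU : U ≠ U' := fun h => hne (by rw [h])
    exact Disjoint.mono (hsh _ U) (hsh _ U') (hF _ hU hU' hUU)
  · intro k x
    obtain ⟨W, hW, hc⟩ := hG (Nat.unpair k).2 x
    refine ⟨W, hW, ?_⟩
    have : {S ∈ H k | (S ∩ W).Nonempty} ⊆
        ⋃ V ∈ {S ∈ G (Nat.unpair k).2 | (S ∩ W).Nonempty},
          sh (Nat.unpair k).2 '' {U | U ∈ F (Nat.unpair k).1 ∧ V ⊆ U} := by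
      rintro _ ⟨⟨U, hU, rfl⟩, y, ⟨V, hV, hyV⟩, hyW⟩
      simp only [Set.mem_iUnion]
      exact ⟨V, ⟨hV.1, y, hyV, hyW⟩, U, ⟨hU, hV.2⟩, rfl⟩
    refine Set.Countable.mono this (hc.biUnion ?_)
    intro V hV
    apply Set.Countable.image
    apply Set.Subsingleton.countable
    intro U hU U' hU'
    by_contra hne
    obtain ⟨y, hyV, _⟩ := hV.2
    exact Set.disjoint_left.1 (hF _ hU.1 hU'.1 hne) (hU.2 hyV) (hU'.2 hyV)

end Pool.Agent.S13321
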