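import Pool.Statements.S13340
import Pool.Agent.H82.HelC

set_option autoImplicit false
open Pool Pool.MP_6d476a_gt

namespace Pool.Agent.S13340

open Pool.Agent.H82.Hel in
theorem result :
    ¬ (∀ S : Set ((ℕ → ℕ) → ℝ), IsCompact S →
      (∀ f ∈ S, ∃ u : ℕ → (ℕ → ℕ) → ℝ, (∀ n, Continuous (u n)) ∧
          ∀ x, Filter.Tendsto (fun n => u n x) Filter.atTop (nhds (f x))) →
      ∃ T : Set ((ℕ → ℕ) → ℝ), IsCompact T ∧
        (∀ g ∈ T, ∀ A : Set (ℕ → ℕ), A.Nonempty → ∃ a ∈ A, ContinuousWithinAt g A a) ∧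
        Nonempty (S ≃ₜ T)) := by
  intro h
  obtain ⟨π, h1, h2⟩ := PolishSpace.exists_nat_nat_continuous_surjective ℝ
  have h3 : Continuous fun f : ℝ → ℝ => f ∘ π := continuous_pi fun x => continuous_apply _
  obtain ⟨T, -, h4, ⟨φ⟩⟩ := h ((fun f => f ∘ π) '' H) (isCompact_H.image h3) (by
    rintro _ ⟨f, hf, rfl⟩
    obtain ⟨u, h4, h5⟩ := baire1 hf
    exact ⟨fun n => u n ∘ π, fun n => (h4 n).comp h1, fun x => h5 (π x)⟩)
  classical
  let e : (ℝ → ℝ) → (ℕ → ℕ) → ℝ := fun f => if h : f ∈ H then (φ ⟨_, f, h, rfl⟩).1 else 0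
  refine main (e := e) (fun p => continuousOn_iff_continuous_domRestrict.2 ?_)
    (fun f hf g hg h5 => ?_) fun f hf => ?_
  · have : H.domRestrict (fun f => e f p) = fun f : H => (φ ⟨_, f.1, f.2, rfl⟩).1 p :=
      funext fun f => congrFun (dif_pos f.2) p
    rw [this]
    exact (continuous_apply p).comp (continuous_subtype_val.comp (φ.continuous.comp
      ((h3.comp continuous_subtype_val).subtype_mk _)))
  · simp only [e, dif_pos hf, dif_pos hg] at h5
    exact h2.injective_comp_right (congrArg Subtype.val (φ.injective (Subtype.ext h5)))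
  · simp only [e, dif_pos hf]
    exact h4 _ (φ _).2

end Pool.Agent.S13340
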