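import Pool.Statements.S13356
import Pool.Agent.H33.CombCube

set_option autoImplicit false
open Pool Pool.MP_6e1b9b_gt

namespace Pool.Agent.S13356

/-- The negation of the preceding statement: For every continuous surjection f from the cube onto the square, if the set of points whose fiber is just themselves is totally disconnected, then some closed totally disconnected subset of the cube is mapped by f onto the whole square. -/
theorem result :
    ¬ (∀ f : C(Fin 3 → unitInterval, Fin 2 → unitInterval),
      Function.Surjective f →
      IsTotallyDisconnected {x : Fin 3 → unitInterval | ∀ y, f y = f x → y = x} →
      ∃ K : Set (Fin 3 → unitInterval),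
        IsClosed K ∧ IsTotallyDisconnected K ∧ f '' K = Set.univ) := by
  exact Pool.Agent.H33.CombCube.main

end Pool.Agent.S13356
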