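import Pool.Statements.S13358
import Pool.Agent.H8.Mag4

set_option autoImplicit false
open Classical
open Filter Topology Pointwise
open Pool Pool.MP_6e5b56_gt

namespace Pool.Agent.S13358

/-- The negation of the preceding statement: For compact convex A, B in Euclidean n-space with A∪B convex, magnitude(t(A∪B)) + magnitude(t(A∩B)) − magnitude(tA) − magnitude(tB) tends to 0 as t→∞, where magnitude is the sup over finite subsets of the sum of entries of inverse exp(−distance) matrices. -/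
theorem result :
    ¬ (∀ n : ℕ, ∀ mag : Set (EuclideanSpace ℝ (Fin n)) → ℝ,
      (∀ S : Set (EuclideanSpace ℝ (Fin n)),
        mag S = ⨆ F : Finset (EuclideanSpace ℝ (Fin n)),
          ⨆ (_ : (↑F : Set (EuclideanSpace ℝ (Fin n))) ⊆ S),
            ∑ i : ↥F, ∑ j : ↥F,
              (Matrix.of (fun x y : ↥F => Real.exp (-dist x.1 y.1)))⁻¹ i j) →
      ∀ A B : Set (EuclideanSpace ℝ (Fin n)),
        IsCompact A → IsCompact B → Convex ℝ A → Convex ℝ B → Convex ℝ (A ∪ B) →
        Tendsto (fun t : ℝ => mag (t • (A ∪ B)) + mag (t • (A ∩ B)) - mag (t • A) - mag (t • B))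
          atTop (𝓝 0)) := by
  open Pool.Agent.H8.Mag in
  intro H
  have hV : Module.finrank ℝ V = 5 := by
    rw [(WithLp.linearEquiv 2 ℝ (ℝ × E4)).finrank_eq]; simp
  let φ : V ≃ₗᵢ[ℝ] EuclideanSpace ℝ (Fin 5) := ((stdOrthonormalBasis ℝ V).reindex (finCongr hV)).repr
  let val : Finset (EuclideanSpace ℝ (Fin 5)) → ℝ := fun F => ∑ i : ↥F, ∑ j : ↥F,
    (Matrix.of (fun x y : ↥F => Real.exp (-dist x.1 y.1)))⁻¹ i j
  let mag : Set (EuclideanSpace ℝ (Fin 5)) → ℝ := fun S =>
    ⨆ F : Finset (EuclideanSpace ℝ (Fin 5)), ⨆ (_ : (↑F : Set (EuclideanSpace ℝ (Fin 5))) ⊆ S), val F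
  have H := H 5 mag fun _ => rfl
  have hinj : ∀ F : Finset (EuclideanSpace ℝ (Fin 5)), Function.Injective fun i : F => φ.symm i.1 :=
    fun F => φ.symm.injective.comp Subtype.val_injective
  have hval : ∀ F : Finset (EuclideanSpace ℝ (Fin 5)), (∀ w, Jf (fun i : F => φ.symm i.1) w ≤ val F) ∧
      ∃ w, Jf (fun i : F => φ.symm i.1) w = val F := fun F => by
    have := mat _ (hinj F)
    simpa only [φ.symm.dist_map] using this
  have h1 : ∀ X M, Bd X M → ∀ F : Finset (EuclideanSpace ℝ (Fin 5)), ↑F ⊆ φ '' X → val F ≤ M :=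
    fun X M hM F hF => by
      obtain ⟨w, hw⟩ := (hval F).2
      refine hw ▸ hM _ _ w (hinj F) fun i => ?_
      obtain ⟨z, hz, h⟩ := hF i.2
      rw [← h, φ.symm_apply_apply]; exact hz
  have h0 : ∀ X M, Bd X M → 0 ≤ M := fun X M hM => by
    simpa [Jf] using hM Empty Empty.elim Empty.elim (fun a => a.elim) fun a => a.elim
  have hup : ∀ X M, Bd X M → mag (φ '' X) ≤ M := fun X M hM =>
    Real.iSup_le (fun F => Real.iSup_le (h1 X M hM F) (h0 X M hM)) (h0 X M hM)
  have hlo : ∀ X M, Bd X M → Bd X (mag (φ '' X)) := fun X M hM ι _ x w hx hX => by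
    let F := Finset.univ.image fun i => φ (x i)
    have hF : ↑F ⊆ φ '' X := by
      intro z hz
      obtain ⟨i, -, rfl⟩ := Finset.mem_image.1 hz
      exact ⟨_, hX i, rfl⟩
    let e : ι ≃ F := Equiv.ofBijective
      (fun i => ⟨φ (x i), Finset.mem_image_of_mem _ (Finset.mem_univ i)⟩)
      ⟨fun a b h => hx (φ.injective (congrArg Subtype.val h)), fun z => by
        obtain ⟨i, -, h⟩ := Finset.mem_image.1 z.2
        exact ⟨i, Subtype.ext h⟩⟩
    have he : ∀ i, φ.symm (e i).1 = x i := fun i => φ.symm_apply_apply _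
    have h2 : Jf x w = Jf (fun i : F => φ.symm i.1) (w ∘ e.symm) := by
      unfold Jf
      simp only [← e.sum_comp, Function.comp_apply, e.symm_apply_apply, he]
    refine (h2.le.trans ((hval F).1 _)).trans (le_ciSup_of_le ⟨M, ?_⟩ F ?_)
    · rintro _ ⟨G, rfl⟩
      exact Real.iSup_le (h1 X M hM G) (h0 X M hM)
    · rw [ciSup_pos hF]
  have hsm : ∀ a b t : ℝ, 0 < t → t • φ '' Cyl a b 1 = φ '' Cyl (t * a) (t * b) t := by
    intro a b t ht
    rw [← Set.image_smul_comm φ t _ (fun z => φ.map_smul t z)]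
    congr 1; ext z
    rw [Set.mem_smul_set_iff_inv_smul_mem₀ ht.ne']
    simp only [Cyl, Set.mem_ofPred_eq, WithLp.smul_fst, WithLp.smul_snd, smul_eq_mul, norm_smul,
      norm_inv, Real.norm_eq_abs, abs_of_pos ht, le_inv_mul_iff₀ ht, inv_mul_le_iff₀ ht, mul_one]
  have hcp : ∀ a b : ℝ, IsCompact (φ '' Cyl a b 1) := fun a b => by
    refine IsCompact.image (Metric.isCompact_of_isClosed_isBounded ?_ ?_) φ.continuous
    · have c1 : Continuous fun z : V => z.fst := by fun_prop
      have c2 : Continuous fun z : V => ‖z.snd‖ := by fun_prop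
      exact (isClosed_le continuous_const c1).inter
        ((isClosed_le c1 continuous_const).inter (isClosed_le c2 continuous_const))
    · refine isBounded_iff_forall_norm_le.2 ⟨|a| + |b| + 1, fun z hz => ?_⟩
      obtain ⟨c1, c2, c3⟩ := hz
      rw [WithLp.prod_norm_eq_of_L2, Real.sqrt_le_left (by positivity)]
      have : ‖z.fst‖ ≤ |a| + |b| := abs_le.2
        ⟨by linarith [neg_abs_le a, abs_nonneg b], by linarith [le_abs_self b, abs_nonneg a]⟩
      nlinarith [norm_nonneg z.fst, norm_nonneg z.snd]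
  have hcv : ∀ a b : ℝ, Convex ℝ (φ '' Cyl a b 1) := fun a b => by
    refine Convex.linear_image ?_ φ.toLinearEquiv.toLinearMap
    rintro x ⟨x1, x2, x3⟩ y ⟨y1, y2, y3⟩ p q hp hq hpq
    simp only [Cyl, Set.mem_ofPred_eq, WithLp.add_fst, WithLp.add_snd, WithLp.smul_fst,
      WithLp.smul_snd, smul_eq_mul]
    obtain rfl : q = 1 - p := by linarith
    refine ⟨by nlinarith, by nlinarith, (norm_add_le _ _).trans ?_⟩
    rw [norm_smul, norm_smul, Real.norm_of_nonneg hp, Real.norm_of_nonneg hq]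
    nlinarith
  have hun : ∀ p q : ℝ, 0 ≤ p → p ≤ q →
      φ '' Cyl 0 p 1 ∪ φ '' Cyl p q 1 = φ '' Cyl 0 q 1 := fun p q hp hq => by
    rw [← Set.image_union]; congr 1; ext z
    simp only [Cyl, Set.mem_union, Set.mem_ofPred_eq]
    constructor
    · rintro (h | h) <;> exact ⟨by linarith [h.1], by linarith [h.2.1], h.2.2⟩
    · intro h
      rcases le_total z.fst p with h' | h'
      · exact Or.inl ⟨h.1, h', h.2.2⟩
      · exact Or.inr ⟨h', h.2⟩
  have hin : ∀ p q : ℝ, 0 ≤ p → p ≤ q →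
      φ '' Cyl 0 p 1 ∩ φ '' Cyl p q 1 = φ '' Cyl p p 1 := fun p q hp hq => by
    rw [← Set.image_inter φ.injective]; congr 1; ext z
    simp only [Cyl, Set.mem_inter_iff, Set.mem_ofPred_eq]
    exact ⟨fun h => ⟨h.2.1, h.1.2.1, h.1.2.2⟩,
      fun h => ⟨⟨by linarith [h.1], h.2.1, h.2.2⟩, h.1, by linarith [h.2.1], h.2.2⟩⟩
  obtain ⟨K, hK⟩ := up_cyl
  obtain ⟨L, hL⟩ := up_disc
  obtain ⟨k, hk⟩ := exists_nat_gt (10000 * |K| + 1)
  have hK0 := abs_nonneg K
  have hk1 : (1 : ℝ) ≤ k := by linarith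
  have hT : Tendsto (fun t : ℝ => t / k) atTop atTop := tendsto_id.atTop_div_const (by linarith)
  have small : ∀ {g : ℝ → ℝ}, Tendsto g atTop (𝓝 0) → ∀ᶠ t in atTop, g t ≤ 1e-5 := fun hg =>
    hg.eventually (ge_mem_nhds (by norm_num))
  have tp : ∀ p q c : ℝ, Tendsto (fun t : ℝ => ((t / k - c) ^ 2 + p * (t / k - c) + q) *
      Real.exp (-(t / k - c)) / 16) atTop (𝓝 0) := fun p q c => by
    have := ((tend_poly p q).comp (tendsto_atTop_add_const_right _ (-c) hT)).div_const 16
    rw [zero_div] at this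
    exact this.congr fun t => by simp only [Function.comp_apply, sub_eq_add_neg]
  have t5 : Tendsto (fun t : ℝ => t / k * (Real.exp (-(t / 10000 / 2)) * Mh) / (128 * om))
      atTop (𝓝 0) := by
    have := (((Real.tendsto_pow_mul_exp_neg_atTop_nhds_zero 1).comp
      ((tendsto_id.atTop_div_const (show (0 : ℝ) < 10000 by norm_num)).atTop_div_const
        (show (0 : ℝ) < 2 by norm_num))).mul_const (20000 / k * Mh / (128 * om)))
    rw [zero_mul] at this
    exact this.congr fun t => by simp only [Function.comp_apply, id]; ring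
  have hB : ∀ᶠ t : ℝ in atTop, ∀ a, t ^ 4 * (t / k + 5.35) / 128 ≤
      mag (φ '' Cyl a (a + t / k) t) := by
    filter_upwards [hT.eventually_ge_atTop 1, eventually_ge_atTop 1, small (tp 7 15 0),
      small (tp 3 3 0), small (tp 3 3 (1 / 2)), small (tp 5 8 (1 / 4)), small t5]
      with t a1 a2 a3 a4 a5 a6 a7 a
    refine slab a1 (by linarith) (by simpa [sg] using a3) ?_ ?_ a6 a7
      (hlo _ _ (hK a _ t a2 (by linarith) (div_le_self (by linarith) hk1)))
    · rw [kn, abs_of_nonneg (by linarith)]; simpa using a4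
    · rw [kn, abs_of_nonneg (by linarith)]; exact a5
  have ind : ∀ j : ℕ, ∀ᶠ t : ℝ in atTop, j * (t ^ 4 * (t / k + 5.35) / 128 -
      (t ^ 4 / 24 + L * t ^ 3) - 1) ≤ mag (φ '' Cyl 0 (t * (j / k)) t) := by
    intro j
    induction j with
    | zero =>
      filter_upwards [eventually_ge_atTop 1] with t ht
      simpa using h0 _ _ (hlo _ _ (hL 0 t ht))
    | succ j ih =>
      have p0 : (0 : ℝ) ≤ j / k := by positivity
      have p1 : (j / k : ℝ) ≤ (j + 1 : ℕ) / k :=
        div_le_div_of_nonneg_right (by push_cast; linarith) (by linarith)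
      have := H _ _ (hcp 0 (j / k)) (hcp (j / k) ((j + 1 : ℕ) / k)) (hcv _ _) (hcv _ _)
        (by rw [hun _ _ p0 p1]; exact hcv _ _)
      rw [hun _ _ p0 p1, hin _ _ p0 p1] at this
      filter_upwards [ih, hB, eventually_ge_atTop 1,
        this.eventually (le_mem_nhds (show (-1 : ℝ) < 0 by norm_num))] with t a1 a2 a3 a4
      have ht : 0 < t := by linarith
      rw [hsm _ _ _ ht, hsm _ _ _ ht, hsm _ _ _ ht, hsm _ _ _ ht, mul_zero] at a4
      have b1 := a2 (t * (j / k))
      rw [show t * (j / k) + t / k = t * ((j + 1 : ℕ) / k) by push_cast; ring] at b1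
      have b2 := hup _ _ (hL (t * (j / k)) t a3)
      push_cast at *
      linarith
  obtain ⟨t, a1, a2⟩ := ((ind k).and (eventually_ge_atTop (100000 * (|L| + 1)))).exists
  have hL0 := abs_nonneg L
  have ht : 1 ≤ t := by linarith
  have b1 := hup _ _ (hK 0 t t ht (by linarith) le_rfl)
  rw [div_self (by linarith), mul_one] at a1
  rw [zero_add] at b1
  have e : (k : ℝ) * (t ^ 4 * (t / k + 5.35) / 128 - (t ^ 4 / 24 + L * t ^ 3) - 1) =
      t * t ^ 4 / 128 + k * (t ^ 4 * (5.35 / 128 - 1 / 24) - L * t ^ 3 - 1) := by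
    field_simp; ring
  have t3 : 1 ≤ t ^ 3 := one_le_pow₀ ht
  have c1 : t ^ 4 / 10000 ≤ t ^ 4 * (5.35 / 128 - 1 / 24) - L * t ^ 3 - 1 := by
    have := mul_le_mul_of_nonneg_right a2 (show 0 ≤ t ^ 3 by positivity)
    have := mul_le_mul_of_nonneg_right (le_abs_self L) (show 0 ≤ t ^ 3 by positivity)
    nlinarith
  have c2 := mul_le_mul_of_nonneg_left c1 (show (0 : ℝ) ≤ k by linarith)
  have c3 := mul_lt_mul_of_pos_right hk (show 0 < t ^ 4 by positivity)
  have c4 := mul_le_mul_of_nonneg_right (le_abs_self K) (show 0 ≤ t ^ 4 by positivity)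
  have c5 : 0 < t ^ 4 := by positivity
  nlinarith

end Pool.Agent.S13358
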