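import Pool.Statements.S13377
import Pool.Agent.H39.PSp

set_option autoImplicit false
open Pool Pool.MP_717cd6_gt

namespace Pool.Agent.S13377

/-- There is a regular T1 topological space in which countable intersections of open sets are open, yet some non-closed set A contains no subset that is discrete in itself and has a closure point outside A. -/
theorem result :
    ∃ (X : Type) (t : TopologicalSpace X),
      T3Space X ∧
      (∀ U : ℕ → Set X, (∀ n, IsOpen (U n)) → IsOpen (⋂ n, U n)) ∧
      ¬ (∀ A : Set X, ¬ IsClosed A →
          ∃ D : Set X, D ⊆ A ∧ DiscreteTopology D ∧ (closure D \ A).Nonempty) := by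
  refine ⟨H39.PSp.Y, inferInstance, {}, fun U h => H39.PSp.op_iInter h, fun h => ?_⟩
  obtain ⟨D, h1, h2, y, h3, h4⟩ := h _ H39.PSp.not_closed
  obtain rfl : y = none := not_not.1 h4
  exact H39.PSp.remote h1 h3

end Pool.Agent.S13377
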