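import Pool.Statements.S13405
import Pool.Agent.H71.Lel5

set_option autoImplicit false
open Pool Pool.MP_77b145_gt

namespace Pool.Agent.S13405

/-- For every compact connected metric space X: each point has arbitrarily small open neighbourhoods with finite boundary if and only if every sequence of pairwise disjoint connected subsets of X has diameters tending to zero. -/
theorem result :
    ∀ (X : Type) [MetricSpace X] [CompactSpace X] [ConnectedSpace X],
      ((∀ x : X, ∀ U : Set X, IsOpen U → x ∈ U →
          ∃ V : Set X, IsOpen V ∧ x ∈ V ∧ V ⊆ U ∧ (frontier V).Finite) ↔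
        (∀ A : ℕ → Set X, (∀ n, IsConnected (A n)) →
          Pairwise (fun i j => Disjoint (A i) (A j)) →
          Filter.Tendsto (fun n => Metric.diam (A n)) Filter.atTop (nhds 0))) := by
  intro X _ _ _
  refine ⟨Pool.Agent.H71.Lel.easy, fun h x U hU hx => ?_⟩
  have hN : Pool.Agent.H71.Lel.Nul X := fun ε hε C h1 h2 h3 => by
    have h4 := h C (fun n => ⟨(h3 n).imp fun _ h => h.1, h1 n⟩) h2
    obtain ⟨n, hn⟩ := (h4.eventually (gt_mem_nhds hε)).exists
    obtain ⟨a, ha, b, hb, h5⟩ := h3 n
    exact (h5.trans (Metric.dist_le_diam_of_mem Metric.isBounded_of_compactSpace ha hb)).not_gt hn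
  have := hN.lcs
  by_contra hc
  obtain ⟨K, q, hK⟩ := Pool.Agent.H71.Lel.core_ex hU hx fun V h1 h2 h3 h4 => hc ⟨V, h1, h2, h3, h4⟩
  exact Pool.Agent.H71.Lel.main hN hK

end Pool.Agent.S13405
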