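import Pool.Statements.S13418
import Pool.Agent.H80.CoarseCount

set_option autoImplicit false
open Pool Pool.MP_79e81e_gt

namespace Pool.Agent.S13418

open Pool.Agent.H80.CoarseCount

theorem cayley_connected {Γ : Type} [Group Γ] (S : Finset Γ)
    (hS : Subgroup.closure (S : Set Γ) = ⊤) :
    (SimpleGraph.fromRel (fun a b : Γ => ∃ s ∈ S, b = a * s)).Connected := by
  have step : ∀ a : Γ, ∀ s ∈ S,
      (SimpleGraph.fromRel (fun a b : Γ => ∃ s ∈ S, b = a * s)).Reachable a (a * s) := by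
    intro a s hs
    by_cases h : a = a * s
    · rw [← h]
    · exact SimpleGraph.Adj.reachable
        ((SimpleGraph.fromRel_adj _ _ _).2 ⟨h, Or.inl ⟨s, hs, rfl⟩⟩)
  have key : ∀ g ∈ Subgroup.closure (S : Set Γ), ∀ a : Γ,
      (SimpleGraph.fromRel (fun a b : Γ => ∃ s ∈ S, b = a * s)).Reachable a (a * g) := by
    intro g hg
    induction hg using Subgroup.closure_induction with
    | mem x hx => intro a; exact step a x hx
    | one => intro a; rw [mul_one]
    | mul x y _ _ hx hy => intro a; rw [← mul_assoc]; exact (hx a).trans (hy _)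
    | inv x _ hx =>
      intro a
      have := hx (a * x⁻¹)
      rw [inv_mul_cancel_right] at this
      exact this.symm
  refine { preconnected := fun a b => ?_, nonempty := ⟨1⟩ }
  have := key (a⁻¹ * b) (hS ▸ Subgroup.mem_top _) a
  rwa [mul_inv_cancel_left] at this

theorem cayley_degree {Γ : Type} [Group Γ] (S : Finset Γ) (v : Γ) :
    ((SimpleGraph.fromRel (fun a b : Γ => ∃ s ∈ S, b = a * s)).neighborSet v).Finite ∧
    ((SimpleGraph.fromRel (fun a b : Γ => ∃ s ∈ S, b = a * s)).neighborSet v).ncard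
      ≤ S.card + S.card := by
  have hsub : (SimpleGraph.fromRel (fun a b : Γ => ∃ s ∈ S, b = a * s)).neighborSet v ⊆
      ((fun s => v * s) '' (S : Set Γ)) ∪ ((fun s => v * s⁻¹) '' (S : Set Γ)) := by
    intro w hw
    rw [SimpleGraph.mem_neighborSet, SimpleGraph.fromRel_adj] at hw
    obtain ⟨-, ⟨s, hs, h⟩ | ⟨s, hs, h⟩⟩ := hw
    · exact Or.inl ⟨s, hs, h.symm⟩
    · exact Or.inr ⟨s, hs, by simp [h]⟩
  have h1 : ((fun s => v * s) '' (S : Set Γ)).Finite := S.finite_toSet.image _
  have h2 : ((fun s => v * s⁻¹) '' (S : Set Γ)).Finite := S.finite_toSet.image _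
  refine ⟨(h1.union h2).subset hsub, (Set.ncard_le_ncard hsub (h1.union h2)).trans ?_⟩
  refine (Set.ncard_union_le _ _).trans (Nat.add_le_add ?_ ?_)
  · exact (Set.ncard_image_le S.finite_toSet).trans (by simp)
  · exact (Set.ncard_image_le S.finite_toSet).trans (by simp)

theorem cayley_translate {Γ : Type} [Group Γ] (S : Finset Γ)
    (hS : Subgroup.closure (S : Set Γ) = ⊤) (g a b : Γ) :
    (SimpleGraph.fromRel (fun a b : Γ => ∃ s ∈ S, b = a * s)).dist (g * a) (g * b) ≤
    (SimpleGraph.fromRel (fun a b : Γ => ∃ s ∈ S, b = a * s)).dist a b := by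
  let φ : (SimpleGraph.fromRel (fun a b : Γ => ∃ s ∈ S, b = a * s)) →g
      (SimpleGraph.fromRel (fun a b : Γ => ∃ s ∈ S, b = a * s)) :=
    { toFun := fun x => g * x
      map_rel' := by
        intro x y h
        rw [SimpleGraph.fromRel_adj] at h ⊢
        refine ⟨fun h' => h.1 (mul_left_cancel h'), ?_⟩
        rcases h.2 with ⟨s, hs, h'⟩ | ⟨s, hs, h'⟩
        · exact Or.inl ⟨s, hs, by rw [h', mul_assoc]⟩
        · exact Or.inr ⟨s, hs, by rw [h', mul_assoc]⟩ }
  obtain ⟨p, hp⟩ := (cayley_connected S hS).exists_walk_length_eq_dist a b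
  have := SimpleGraph.dist_le (p.map φ)
  rw [SimpleGraph.Walk.length_map, hp] at this
  exact this

/-- The negation of the preceding statement: Every connected graph of bounded degree coarsely embeds, with its path metric, into the word metric of some group generated by a finite set. -/
theorem result :
    ¬ (∀ (V : Type) (G : SimpleGraph V), G.Connected →
      (∃ D : ℕ, ∀ v : V, (G.neighborSet v).encard ≤ (D : ℕ∞)) →
      ∃ (Γ : Type) (inst : Group Γ) (S : Finset Γ),
        Subgroup.closure (S : Set Γ) = ⊤ ∧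
        ∃ f : V → Γ,
          (∀ R : ℕ, ∃ K : ℕ, ∀ x y : V, G.dist x y ≤ R →
              (SimpleGraph.fromRel (fun a b : Γ => ∃ s ∈ S, b = a * s)).dist (f x) (f y) ≤ K) ∧
          (∀ K : ℕ, ∃ R : ℕ, ∀ x y : V,
              (SimpleGraph.fromRel (fun a b : Γ => ∃ s ∈ S, b = a * s)).dist (f x) (f y) ≤ K →
              G.dist x y ≤ R)) := by
  intro H
  have : Nonempty (Σ n : ℕ, Equiv.Perm (Fin n)) := ⟨⟨0, 1⟩⟩
  obtain ⟨σ, hσ⟩ := exists_surjective_nat (Σ n : ℕ, Equiv.Perm (Fin n))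
  obtain ⟨Γ, inst, S, hS, f, hup, hlow⟩ := H (ℕ × ℕ) (comb σ) (comb_connected σ)
    ⟨6, fun v => by
      obtain ⟨h1, h2⟩ := comb_degree σ v
      rw [← h1.cast_ncard_eq]
      exact_mod_cast h2⟩
  obtain ⟨K, hK⟩ := hup 1
  obtain ⟨R, hR⟩ := hlow K
  set C := SimpleGraph.fromRel (fun a b : Γ => ∃ s ∈ S, b = a * s) with hC
  obtain ⟨n, τ, hbad⟩ := exists_bad_perm (fun a b : Γ => C.dist a b ≤ K) {1} (Set.finite_singleton _)
    ((S.card + S.card + 1) ^ K) (7 ^ R)
    (fun x => ball_bound C (cayley_connected S hS) _ (cayley_degree S) x K)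
  obtain ⟨k, hk⟩ := hσ ⟨n, τ⟩
  have hn : (σ k).1 = n := by rw [hk]
  subst hn
  have hτ : (σ k).2 = τ := by
    have := hk
    exact eq_of_heq (Sigma.ext_iff.1 this).2
  subst hτ
  refine hbad (fun i => (f (k, 0))⁻¹ * f (k, i)) (by simp) ?_ ?_ ?_
  · intro i
    exact (cayley_translate S hS _ _ _).trans
      (hK _ _ (SimpleGraph.dist_eq_one_iff_adj.2 (comb_adj_tooth σ k i)).le)
  · intro i
    exact (cayley_translate S hS _ _ _).trans (hK _ _ (comb_dist_perm σ k i))
  · intro i
    obtain ⟨h1, h2⟩ := tooth_count σ k i R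
    have hsub : {j : ℕ | C.dist ((f (k, 0))⁻¹ * f (k, i)) ((f (k, 0))⁻¹ * f (k, j)) ≤ K} ⊆
        {j : ℕ | (comb σ).dist (k, i) (k, j) ≤ R} := by
      intro j hj
      apply hR
      have := cayley_translate S hS (f (k, 0)) ((f (k, 0))⁻¹ * f (k, i)) ((f (k, 0))⁻¹ * f (k, j))
      simp only [mul_inv_cancel_left] at this
      exact this.trans hj
    exact ⟨h1.subset hsub, (Set.ncard_le_ncard hsub h1).trans h2⟩

end Pool.Agent.S13418
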