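import Pool.Statements.S13425
import Pool.Agent.H84.FreeGL

set_option autoImplicit false
open Pool Pool.MP_7baebc_gt

namespace Pool.Agent.S13425

/-- There is a subset E of the hyperbolic plane such that two isometric copies of E partition the plane, and also continuum many isometric copies of E, indexed by the reals, partition the plane. -/
theorem result :
    ∃ E : Set UpperHalfPlane,
      (∃ g h : UpperHalfPlane ≃ᵢ UpperHalfPlane,
          Disjoint (⇑g '' E) (⇑h '' E) ∧ ⇑g '' E ∪ ⇑h '' E = Set.univ) ∧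
      (∃ f : ℝ → (UpperHalfPlane ≃ᵢ UpperHalfPlane),
          Pairwise (fun r s => Disjoint (⇑(f r) '' E) (⇑(f s) '' E)) ∧
          (⋃ r : ℝ, ⇑(f r) '' E) = Set.univ) := by
  have hs : ∀ r : ℝ, ({r} : Set ℝ) ≠ Set.univ := fun r h => by
    have : r + 1 ∈ ({r} : Set ℝ) := h ▸ Set.mem_univ _
    simp at this
  obtain ⟨lab, γ, hl⟩ := Pool.Agent.H84.FreeGL.solve' (M := Option ℝ) (I := ℝ)
    (by
      rw [Cardinal.mk_option, Cardinal.mk_real]
      exact (Cardinal.add_one_eq Cardinal.aleph0_le_continuum).le) 0 (fun _ => {0}) (fun o => o.elim {0}ᶜ fun r => {r}) (by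
      rintro (_ | r)
      · exact ⟨by simp, hs 0, ⟨1, by simp⟩, by simp⟩
      · exact ⟨by simp, hs 0, by simp, hs r⟩)
  refine ⟨lab ⁻¹' {0}, ⟨γ (some 0), γ none, ?_, ?_⟩, fun r => γ (some r), fun r s h => ?_, ?_⟩
  · rw [hl, hl]; exact disjoint_compl_right.preimage lab
  · rw [hl, hl, ← Set.preimage_union]; simp
  · simp only [hl]; exact (Set.disjoint_singleton.2 h).preimage lab
  · simp only [hl]; ext; simp

end Pool.Agent.S13425
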