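import Pool.Statements.S13451
import Pool.Agent.H33.Spl4

set_option autoImplicit false
open Topology
open Pool Pool.MP_7e5847_gt

namespace Pool.Agent.S13451

/-- If a compact Hausdorff X has, for each subset A, a continuous map f to a Corson compactum with f⁻¹(f(A)) = A, then every Hausdorff continuous image of X has the same property. -/
theorem result :
    ∀ (X : Type) [TopologicalSpace X] [CompactSpace X] [T2Space X],
      (∀ A : Set X, ∃ (Y : Type) (_ : TopologicalSpace Y), CompactSpace Y ∧
        (∃ (κ : Type) (e : Y → (κ → ℝ)), IsEmbedding e ∧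
          ∀ y : Y, (Function.support (e y)).Countable) ∧
        ∃ f : X → Y, Continuous f ∧ f ⁻¹' (f '' A) = A) →
      ∀ (Z : Type) [TopologicalSpace Z] [T2Space Z] (g : X → Z),
        Continuous g → Function.Surjective g →
        ∀ B : Set Z, ∃ (Y : Type) (_ : TopologicalSpace Y), CompactSpace Y ∧
          (∃ (κ : Type) (e : Y → (κ → ℝ)), IsEmbedding e ∧
            ∀ y : Y, (Function.support (e y)).Countable) ∧
          ∃ f : Z → Y, Continuous f ∧ f ⁻¹' (f '' B) = B := by
  intro X _ _ _ hs Z _ _ g hg hg' B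
  obtain ⟨Γ, e, h1, h2, h3⟩ := Pool.Agent.H33.Spl4.cor_image (Pool.Agent.H33.Spl3.corson (X := X)
    fun A => by
      obtain ⟨Y, t, -, ⟨Γ, e, he, h⟩, f, hf, hA⟩ := hs A
      exact ⟨Y, t, f, ⟨Γ, e, he.continuous, he.injective, h⟩, hf, hA⟩) hg hg'
  have : CompactSpace Z := hg'.compactSpace hg
  exact ⟨Z, inferInstance, this, ⟨Γ, e, (h1.isClosedEmbedding h2).isEmbedding, h3⟩,
    id, continuous_id, by simp⟩

end Pool.Agent.S13451
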