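import Pool.Statements.S13456
import Pool.Agent.H82.MazB

set_option autoImplicit false
open Pool Pool.MP_7ef336_gt

namespace Pool.Agent.S13456

open Pool.Agent.H82.MazA Pool.Agent.H82.MazB in
theorem result :
    ¬ (∀ n : ℕ, ∀ D : Set (EuclideanSpace ℝ (Fin n)) → ℤ → Prop,
      (∀ (S : Set (EuclideanSpace ℝ (Fin n))) (k : ℤ), D S k ↔
        ∀ 𝒰 : Finset (Set (EuclideanSpace ℝ (Fin n))),
          (∀ U ∈ 𝒰, IsOpen U) →
          S ⊆ ⋃₀ (↑𝒰 : Set (Set (EuclideanSpace ℝ (Fin n)))) →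
          ∃ 𝒱 : Finset (Set (EuclideanSpace ℝ (Fin n))),
            (∀ V ∈ 𝒱, IsOpen V) ∧
            S ⊆ ⋃₀ (↑𝒱 : Set (Set (EuclideanSpace ℝ (Fin n)))) ∧
            (∀ V ∈ 𝒱, ∃ U ∈ 𝒰, V ∩ S ⊆ U) ∧
            (∀ 𝒲 ⊆ 𝒱, (𝒲.card : ℤ) = k + 2 →
              S ∩ ⋂₀ (↑𝒲 : Set (Set (EuclideanSpace ℝ (Fin n)))) = ∅)) →
      ∀ A : Set (EuclideanSpace ℝ (Fin n)),
        ∃ B : Set (EuclideanSpace ℝ (Fin n)), A ⊆ B ∧
          ∀ m : ℤ,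
            (-1 ≤ m ∧ D A m ∧ ∀ j : ℤ, -1 ≤ j → j < m → ¬ D A j) →
            ((D B m ∧ ∀ j : ℤ, -1 ≤ j → j < m → ¬ D B j) ∧
             (D Bᶜ ((n : ℤ) - m - 1) ∧
               ∀ j : ℤ, -1 ≤ j → j < (n : ℤ) - m - 1 → ¬ D Bᶜ j))) := by
  intro H
  classical
  obtain ⟨B, hAB, hB⟩ := H 3 _ (fun _ _ => Iff.rfl) A
  have conv : ∀ S : Set E, (∀ 𝒰 : Finset (Set E), (∀ U ∈ 𝒰, IsOpen U) →
      S ⊆ ⋃₀ (↑𝒰 : Set (Set E)) → ∃ 𝒱 : Finset (Set E), (∀ V ∈ 𝒱, IsOpen V) ∧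
        S ⊆ ⋃₀ (↑𝒱 : Set (Set E)) ∧ (∀ V ∈ 𝒱, ∃ U ∈ 𝒰, V ∩ S ⊆ U) ∧
        (∀ 𝒲 ⊆ 𝒱, (𝒲.card : ℤ) = 1 + 2 → S ∩ ⋂₀ (↑𝒲 : Set (Set E)) = ∅)) → D1 S := by
    intro S h 𝒰 hU hc
    obtain ⟨𝒱, k1, k2, k3, k4⟩ := h 𝒰 hU hc
    refine ⟨𝒱, fun V hV => ⟨k1 V hV, k3 V hV⟩, k2, fun z hz a ha b hb c hc l1 l2 l3 => ?_⟩
    by_contra hn
    push Not at hn
    have := k4 {a, b, c} (by simp [Finset.insert_subset_iff, ha, hb, hc])
      (by rw [Finset.card_eq_three.2 ⟨a, b, c, hn.1, hn.2.1, hn.2.2, rfl⟩]; norm_num)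
    exact (this ▸ ⟨hz, by simp [l1, l2, l3]⟩ : z ∈ (∅ : Set E))
  have hL : Continuous fun t : ℝ => (!₂[√2, √2 + ps Real.sin √2, t] : E) :=
    (PiLp.continuous_toLp 2 _).comp (by fun_prop)
  obtain ⟨⟨h1, -⟩, h2, -⟩ := hB 1 ⟨by norm_num, fun 𝒰 hU hc => by
      obtain ⟨𝒱, k1, k2, k3⟩ := A_d1 𝒰 hU hc
      refine ⟨𝒱, fun V hV => (k1 V hV).1, k2, fun V hV => (k1 V hV).2, fun 𝒲 hW hc => ?_⟩
      obtain ⟨a, b, c, n1, n2, n3, rfl⟩ := Finset.card_eq_three.1 (show 𝒲.card = 3 by omega)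
      refine Set.eq_empty_of_forall_notMem fun z hz => ?_
      rcases k3 z hz.1 a (hW (by simp)) b (hW (by simp)) c (hW (by simp)) (hz.2 a (by simp))
        (hz.2 b (by simp)) (hz.2 c (by simp)) with h | h | h
      exacts [n1 h, n2 h, n3 h], fun j j1 j2 h => by
      obtain ⟨𝒱, k1, k2, k3, k4⟩ := h {{p : E | p 2 < 1}, {p : E | 0 < p 2}} (fun U hU => by
          simp only [Finset.mem_insert, Finset.mem_singleton] at hU
          rcases hU with rfl | rfl <;> exact isOpen_lt (by fun_prop) (by fun_prop)) (fun p _ => by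
          by_cases h : p 2 < 1
          · exact ⟨{p : E | p 2 < 1}, by simp, h⟩
          · exact ⟨{p : E | 0 < p 2}, by simp, show 0 < p 2 by linarith⟩)
      obtain ⟨V0, v0, w0⟩ := k2 (line 0)
      obtain rfl | rfl : j = -1 ∨ j = 0 := by omega
      · have := k4 {V0} (by simpa using v0) (by simp)
        exact Set.eq_empty_iff_forall_notMem.1 this _ ⟨line 0, fun V hV => by
          rw [Finset.coe_singleton] at hV; exact hV ▸ w0⟩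
      obtain ⟨V1, v1, w1⟩ := k2 (line 1)
      obtain ⟨t, -, ⟨a, ha, l1⟩, b, hb, l2⟩ := isPreconnected_univ (α := ℝ) _ _
        ((isOpen_sUnion (s := {V | V ∈ 𝒱 ∧ V ∩ A ⊆ {p : E | p 2 < 1}})
          fun V hV => k1 V hV.1).preimage hL)
        ((isOpen_sUnion (s := {V | V ∈ 𝒱 ∧ ¬ V ∩ A ⊆ {p : E | p 2 < 1}})
          fun V hV => k1 V hV.1).preimage hL) (fun t _ => by
          obtain ⟨V, v, w⟩ := k2 (line t)
          by_cases h : V ∩ A ⊆ {p : E | p 2 < 1}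
          exacts [Or.inl ⟨V, ⟨v, h⟩, w⟩, Or.inr ⟨V, ⟨v, h⟩, w⟩])
        ⟨0, trivial, V0, ⟨v0, by
          obtain ⟨U, hU, h⟩ := k3 V0 v0
          simp only [Finset.mem_insert, Finset.mem_singleton] at hU
          rcases hU with rfl | rfl
          · exact h
          · simpa using h ⟨w0, line 0⟩⟩, w0⟩
        ⟨1, trivial, V1, ⟨v1, fun h => by simpa using h ⟨w1, line 1⟩⟩, w1⟩
      have n : a ≠ b := fun e => hb.2 (e ▸ ha.2)
      have := k4 {a, b} (by simp [Finset.insert_subset_iff, ha.1, hb.1])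
        (by rw [Finset.card_pair n]; norm_num)
      exact Set.eq_empty_iff_forall_notMem.1 this _ ⟨line t, fun V hV => by
        rw [Finset.coe_pair] at hV
        rcases hV with rfl | rfl
        exacts [l1, l2]⟩⟩
  exact no_pair hAB (conv B h1) (conv Bᶜ (by
    have e : ((3:ℕ):ℤ) - 1 - 1 = 1 := by norm_num
    rw [e] at h2; exact h2))

end Pool.Agent.S13456
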