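import Pool.Statements.S13466
import Pool.Agent.H81.Spiral

set_option autoImplicit false
open Pool Pool.MP_812062_gt

namespace Pool.Agent.S13466

/-- The negation of the preceding statement: For every connected metric space X, the span (sup over connected Z in X×X with equal projections of the min distance between coordinates) is at most twice the surjective span (same, with both projections onto X). -/
theorem result :
    ¬ (∀ (X : Type) [MetricSpace X] [ConnectedSpace X],
      (⨆ (Z : Set (X × X)) (_ : IsConnected Z) (_ : Prod.fst '' Z = Prod.snd '' Z),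
          ⨅ p ∈ Z, edist p.1 p.2)
        ≤ 2 * ⨆ (Z : Set (X × X)) (_ : IsConnected Z)
            (_ : Prod.fst '' Z = Set.univ ∧ Prod.snd '' Z = Set.univ),
            ⨅ p ∈ Z, edist p.1 p.2) := by
  intro H
  obtain ⟨Z, z1, z2, z3⟩ := Pool.Agent.H81.Spiral.big
  have : (2 : ENNReal) ≤ _ := le_trans (le_iSup₂_of_le Z z1 (by exact le_iSup_of_le z2 z3))
    (H Pool.Agent.H81.Spiral.XS)
  rw [show (⨆ (Z : Set (Pool.Agent.H81.Spiral.XS × Pool.Agent.H81.Spiral.XS)) (_ : IsConnected Z)
    (_ : Prod.fst '' Z = Set.univ ∧ Prod.snd '' Z = Set.univ), ⨅ p ∈ Z, edist p.1 p.2) = 0 from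
      le_antisymm (iSup_le fun Z => iSup_le fun h => iSup_le fun k =>
        (Pool.Agent.H81.Spiral.diag Z h k.1).le) zero_le] at this
  simp at this

end Pool.Agent.S13466
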