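import Pool.Statements.S13467
import Pool.Agent.H63.Lz2
import Pool.Agent.H63.Lz3

set_option autoImplicit false
open Pool Pool.MP_813774_gt

namespace Pool.Agent.S13467

/-- For every n≥2 there is a time-oriented Lorentz metric on the configuration space of n unordered points in the disk such that a nontrivial braid is positive exactly when some future time-like piecewise smooth loop at the base point represents it. -/
theorem result :
  ∀ n : ℕ, 2 ≤ n →
  ∃ (g : (Fin n → ℂ) → (Fin n → ℂ) →L[ℝ] (Fin n → ℂ) →L[ℝ] ℝ)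
    (T : (Fin n → ℂ) → (Fin n → ℂ)),
    ContDiffOn ℝ ((⊤ : ℕ∞) : WithTop ℕ∞) g
      {f : Fin n → ℂ | Function.Injective f ∧ ∀ m, ‖f m‖ < 1} ∧
    ContinuousOn T {f : Fin n → ℂ | Function.Injective f ∧ ∀ m, ‖f m‖ < 1} ∧
    (∀ x : Fin n → ℂ, Function.Injective x → (∀ m, ‖x m‖ < 1) →
      ∀ v w : Fin n → ℂ, g x v w = g x w v) ∧
    (∀ x : Fin n → ℂ, Function.Injective x → (∀ m, ‖x m‖ < 1) →
      ∀ ρ : Equiv.Perm (Fin n), ∀ v w : Fin n → ℂ,
        g (fun m => x (ρ m)) (fun m => v (ρ m)) (fun m => w (ρ m)) = g x v w) ∧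
    (∀ x : Fin n → ℂ, Function.Injective x → (∀ m, ‖x m‖ < 1) →
      ∀ ρ : Equiv.Perm (Fin n), T (fun m => x (ρ m)) = fun m => T x (ρ m)) ∧
    (∀ x : Fin n → ℂ, Function.Injective x → (∀ m, ‖x m‖ < 1) →
      g x (T x) (T x) < 0 ∧
      ∀ v : Fin n → ℂ, v ≠ 0 → g x (T x) v = 0 → 0 < g x v v) ∧
    ∀ (P q : {f : Fin n → ℂ // Function.Injective f ∧ ∀ m, ‖f m‖ < 1}),
      (∀ m : Fin n, P.1 m = (((2 * ((m : ℕ) : ℝ) + 1) / (n : ℝ) - 1 : ℝ) : ℂ)) →
      (∃ ρ : Equiv.Perm (Fin n), ∀ m, q.1 m = P.1 (ρ m)) →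
      ∀ c : Path P q,
        (¬ ∃ d : Path P q, d.Homotopic c ∧ ∀ t, d t = P) →
        ((∃ Γ : Path P q, Γ.Homotopic c ∧ ∃ k : ℕ, 1 ≤ k ∧ ∀ j : ℕ, j < k →
            ∃ i : ℕ, i + 1 < n ∧ ∃ ρ : Equiv.Perm (Fin n),
              ∀ (t : unitInterval) (s : ℝ), 0 ≤ s → s ≤ 1 →
                (t : ℝ) = ((j : ℝ) + s) / (k : ℝ) →
                ∀ m : Fin n, (Γ t).1 m =
                  if ((ρ m : ℕ)) = i then
                    (((2 * (i : ℝ) + 2) / (n : ℝ) - 1 : ℝ) : ℂ)
                      - ((1 / (n : ℝ) : ℝ) : ℂ) *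
                        Complex.exp ((Real.pi : ℂ) * (s : ℂ) * Complex.I)
                  else if ((ρ m : ℕ)) = i + 1 then
                    (((2 * (i : ℝ) + 2) / (n : ℝ) - 1 : ℝ) : ℂ)
                      + ((1 / (n : ℝ) : ℝ) : ℂ) *
                        Complex.exp ((Real.pi : ℂ) * (s : ℂ) * Complex.I)
                  else (((2 * ((ρ m : ℕ) : ℝ) + 1) / (n : ℝ) - 1 : ℝ) : ℂ)) ↔
         (∃ d : Path P q, d.Homotopic c ∧ ∃ (k : ℕ) (τ : ℕ → ℝ),
            τ 0 = 0 ∧ τ k = 1 ∧ ∀ j : ℕ, j < k →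
              τ j < τ (j + 1) ∧
              ContDiffOn ℝ ((⊤ : ℕ∞) : WithTop ℕ∞) (fun t : ℝ => (d.extend t).1)
                (Set.Icc (τ j) (τ (j + 1))) ∧
              ∀ t ∈ Set.Icc (τ j) (τ (j + 1)),
                g ((d.extend t).1)
                  (derivWithin (fun t : ℝ => (d.extend t).1) (Set.Icc (τ j) (τ (j + 1))) t)
                  (derivWithin (fun t : ℝ => (d.extend t).1) (Set.Icc (τ j) (τ (j + 1))) t) < 0 ∧
                g ((d.extend t).1)
                  (derivWithin (fun t : ℝ => (d.extend t).1) (Set.Icc (τ j) (τ (j + 1))) t)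
                  (T ((d.extend t).1)) < 0)) := by
  intro n hn
  refine ⟨H63.Lz.gg, H63.Lz.TT, H63.Lz.gg_smooth, ?_, ?_, ?_, ?_, ?_, ?_⟩
  · refine Continuous.continuousOn ?_
    unfold H63.Lz.TT
    fun_prop
  · intro x _ _ v w
    rw [H63.Lz.gg_apply, H63.Lz.gg_apply, H63.Lz.qq_comm, mul_comm]
  · intro x _ _ ρ v w
    exact H63.Lz.gg_perm x ρ v w
  · intro x _ _ ρ
    rfl
  · intro x hx _
    simp only [H63.Lz.gg_apply]
    exact ⟨H63.Lz.T_time hn hx, fun v hv h => H63.Lz.lor1 _ (H63.Lz.qq_comm x)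
      (H63.Lz.qq_pos hn hx) _ _ v (by rw [H63.Lz.al_T]; exact H63.Lz.N_pos hn hx)
      (H63.Lz.T_time hn hx) hv h⟩
  · rintro P q hP ⟨ρ, hq⟩ c hc
    obtain rfl : P = H63.Lz.std 1 := Subtype.ext (funext hP)
    obtain rfl : q = H63.Lz.std ρ := Subtype.ext (funext hq)
    constructor
    · rintro ⟨Γ, hΓ, k, hk, hw⟩
      have hk' : (0 : ℝ) < k := by exact_mod_cast hk
      refine ⟨Γ, hΓ, k, fun j => (j : ℝ) / k, by simp, div_self hk'.ne', fun j hj => ?_⟩
      obtain ⟨i, hi, σ, h⟩ := hw j hj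
      have hj' : (j : ℝ) + 1 ≤ k := by exact_mod_cast hj
      have hlt : (j : ℝ) / k < ((j + 1 : ℕ) : ℝ) / k := by push_cast; gcongr; linarith
      have key : ∀ t ∈ Set.Icc ((j : ℝ) / k) (((j + 1 : ℕ) : ℝ) / k),
          (Γ.extend t).1 = H63.Lz.htf i σ (k * t - j) := by
        intro t ht
        have h1 := ht.1
        have h2 := ht.2
        rw [div_le_iff₀ hk'] at h1
        rw [le_div_iff₀ hk'] at h2
        push_cast at h2
        have m : t ∈ unitInterval := ⟨le_trans (by positivity) ht.1, by nlinarith⟩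
        rw [Path.extend_apply _ m]
        funext u
        exact h ⟨t, m⟩ (k * t - j) (by linarith) (by linarith) (by field_simp; ring) u
      refine ⟨hlt, ?_, fun t ht => ?_⟩
      · refine ContDiffOn.congr ?_ key
        exact ((H63.Lz.htf_cont i σ).comp
          ((contDiff_const.mul contDiff_id).sub contDiff_const)).contDiffOn
      · have hd : derivWithin (fun t : ℝ => (Γ.extend t).1)
            (Set.Icc ((j : ℝ) / k) (((j + 1 : ℕ) : ℝ) / k)) t =
            H63.Lz.vel i σ (k * t - j) (Real.pi * k) :=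
          (((H63.Lz.htf_deriv i σ k j t).hasDerivWithinAt).congr key (key t ht)).derivWithin
            (uniqueDiffOn_Icc hlt t ht)
        rw [hd, key t ht]
        exact H63.Lz.vel_time hi σ _ (mul_pos Real.pi_pos hk')
    · rintro ⟨d, hd, k, τ, h0, h1, hw⟩
      have hp : H63.Lz.Pos d := by
        apply H63.Lz.pos_of
        intro t ht a b h3 h4
        have ex : ∀ k, t < τ k → ∃ j < k, τ j ≤ t ∧ t < τ (j + 1) := by
          intro k
          induction k with
          | zero => intro h; rw [h0] at h; exact absurd ht.1 (not_le.2 h)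
          | succ k ih =>
            intro h
            by_cases h' : t < τ k
            · obtain ⟨j, hj, h''⟩ := ih h'
              exact ⟨j, by omega, h''⟩
            · exact ⟨k, by omega, not_lt.1 h', h⟩
        obtain ⟨j, hj, t1, t2⟩ := ex k (by rw [h1]; exact ht.2)
        obtain ⟨-, hs, hg⟩ := hw j hj
        have mt : t ∈ Set.Icc (τ j) (τ (j + 1)) := ⟨t1, t2.le⟩
        obtain ⟨g1, g2⟩ := hg t mt
        have hv := H63.Lz.wall hn (d.extend t).2.1 g1 g2 h3 h4
        have hder := ((hs.differentiableOn (by simp)) t mt).hasDerivWithinAt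
        generalize derivWithin (fun t : ℝ => (d.extend t).1) (Set.Icc (τ j) (τ (j + 1))) t = v
          at hv hder
        have hder' := hder.mono_of_mem_nhdsWithin (Icc_mem_nhdsGT_of_mem ⟨t1, t2⟩)
        have ha := Complex.reCLM.hasFDerivAt.comp_hasDerivWithinAt t (hasDerivWithinAt_pi.1 hder' a)
        have hb := Complex.reCLM.hasFDerivAt.comp_hasDerivWithinAt t (hasDerivWithinAt_pi.1 hder' b)
        have hs := (hasDerivWithinAt_iff_tendsto_slope' (by simp)).1 (hb.sub ha)
        have hpos := hs.eventually (lt_mem_nhds (show (0 : ℝ) < _ from sub_pos.2 hv))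
        filter_upwards [hpos, self_mem_nhdsWithin] with u hu hut
        rw [slope_def_field] at hu
        have := (div_pos_iff_of_pos_right (sub_pos.2 hut)).1 hu
        simp only [Pi.sub_apply, Function.comp_apply, Complex.reCLM_apply] at this
        linarith
      rcases hp.of_hom hd with h | h
      · exact absurd h hc
      · exact h

end Pool.Agent.S13467
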