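import Pool.Statements.S13478
import Pool.Agent.H84.PrettyB

set_option autoImplicit false
open Pool Pool.MP_8403e4_gt

namespace Pool.Agent.S13478

/-- The negation of the preceding statement: Any Tychonoff space with a cocompact pretty base of clopen sets that embeds in some Tychonoff F-space is basically disconnected: the closure of any countable union of clopen sets is clopen. -/
theorem result :
    ¬ (∀ (X : Type) [TopologicalSpace X] [T35Space X],
    (∃ 𝓑 : Set (Set X),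
      (∀ B ∈ 𝓑, IsClopen B) ∧
      TopologicalSpace.IsTopologicalBasis 𝓑 ∧
      (∀ C D : Set (Set X), C ⊆ 𝓑 → C.Countable → D ⊆ 𝓑 →
        (∀ U ∈ C, ∀ V ∈ D, Disjoint U V) →
        ∃ W ∈ 𝓑, (∀ U ∈ C, U ⊆ W) ∧ ∀ V ∈ D, Disjoint W V) ∧
      @CompactSpace X (TopologicalSpace.generateFrom ((fun B : Set X => (closure B)ᶜ) '' 𝓑))) →
    (∃ (Y : Type) (_ : TopologicalSpace Y), T35Space Y ∧
      (∀ f : Y → ℝ, Continuous f →
        ∀ g : {y : Y // f y ≠ 0} → ℝ, Continuous g → (∃ M : ℝ, ∀ y, |g y| ≤ M) →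
          ∃ h : Y → ℝ, Continuous h ∧ (∃ M : ℝ, ∀ y, |h y| ≤ M) ∧
            ∀ y : {y : Y // f y ≠ 0}, h y.1 = g y) ∧
      ∃ e : X → Y, Topology.IsEmbedding e) →
    ∀ s : ℕ → Set X, (∀ n, IsClopen (s n)) → IsClopen (closure (⋃ n, s n))) := by
  intro h
  obtain ⟨B, ⟨h1, h2, h3⟩, h4⟩ := H84.Pretty.hasCocompactPrettyBase (H84.Pretty.filLat H84.Pretty.FB)
  exact H84.Pretty.not_open (h H84.Pretty.XB ⟨B, h2, h1, h3, h4⟩
    ⟨H84.Pretty.XB, inferInstance, inferInstance, H84.Pretty.fspace, id, Topology.IsEmbedding.id⟩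
    _ H84.Pretty.an_clopen).isOpen

end Pool.Agent.S13478
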