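import Pool.Statements.S13482
import Pool.Agent.H84.KProd

set_option autoImplicit false
open Pool Pool.MP_8503ce_gt

namespace Pool.Agent.S13482

/-- The negation of the preceding statement: For any class K of T0 spaces containing all sober spaces, and any family of T0 spaces with K-determined subsets A_i, the product of the A_i is K-determined in the product space. -/
theorem result :
    ¬ (∀ (K : ∀ (Y : Type) [TopologicalSpace Y], Prop),
    (∀ (Y : Type) [TopologicalSpace Y], K Y → T0Space Y) →
    (∀ (Y : Type) [TopologicalSpace Y], T0Space Y → QuasiSober Y → K Y) →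
    ∀ (I : Type) (X : I → Type) [∀ i, TopologicalSpace (X i)] [∀ i, T0Space (X i)]
      (A : ∀ i, Set (X i)),
      (∀ i, ∀ (Y : Type) [TopologicalSpace Y], K Y →
        ∀ f : X i → Y, Continuous f →
          ∃! y : Y, closure (f '' A i) = closure ({y} : Set Y)) →
      ∀ (Y : Type) [TopologicalSpace Y], K Y →
        ∀ f : (∀ i, X i) → Y, Continuous f →
          ∃! y : Y, closure (f '' Set.pi Set.univ A) = closure ({y} : Set Y)) := by
  intro H
  have := H H84.KProd.K (fun Y _ h => h.1) (fun Y _ h1 h2 => H84.KProd.K_sober Y) ℕ H84.KProd.X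
    (fun _ => Set.univ)
    (fun i Y _ hY f hf => by
      have := hY.1
      apply H84.Gen.exists_unique_of_gen
      rw [Set.image_univ]; exact hY.2 i f hf)
    H84.KProd.S H84.KProd.K_S H84.KProd.etaS H84.KProd.continuous_etaS
  obtain ⟨y, hy, -⟩ := this
  exact H84.KProd.no_upper y fun x =>
    (H84.Gen.gen_iff.2 hy).1 _ ⟨x, fun _ _ => trivial, rfl⟩

end Pool.Agent.S13482
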