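import Pool.Statements.S13490
import Pool.Agent.H82.UAleph

set_option autoImplicit false
open Pool Pool.MP_866953_gt

namespace Pool.Agent.S13490

theorem result :
    ¬ (∀ (X Y : Type) [TopologicalSpace X] [TopologicalSpace Y] [T35Space X] [T35Space Y],
      (∃ N : Set (Set X), N.Countable ∧
        ∀ K U : Set X, IsCompact K → IsOpen U → K ⊆ U →
          ∃ F : Finset (Set X), (↑F : Set (Set X)) ⊆ N ∧
            K ⊆ ⋃₀ (↑F : Set (Set X)) ∧ ⋃₀ (↑F : Set (Set X)) ⊆ U) →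
      Nonempty (UniformEquiv {f : X → ℝ // Continuous f} {g : Y → ℝ // Continuous g}) →
      (∃ N : Set (Set Y), N.Countable ∧
        ∀ K U : Set Y, IsCompact K → IsOpen U → K ⊆ U →
          ∃ F : Finset (Set Y), (↑F : Set (Set Y)) ⊆ N ∧
            K ⊆ ⋃₀ (↑F : Set (Set Y)) ∧ ⋃₀ (↑F : Set (Set Y)) ⊆ U)) := by
  intro h
  open H82.FS H82.UAleph in
  have := t35 brF_le
  have : T35Space (H82.FS.FS H82.UAleph.G) := H82.FS.t35 (H82.UAleph.blow_le H82.UAleph.brF_le)
  have : T35Space (H82.FS.FS H82.UAleph.brF ⊕ ℕ × H82.FS.FS H82.UAleph.G) := H82.FS.t35_sum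
  obtain ⟨N, hN, h'⟩ := h _ _ ⟨Set.range singleton, Set.countable_range _, fun K U hK _ hKU => by
    classical
    refine ⟨(H82.UAleph.fin_compact hK).toFinset.image singleton, ?_, ?_⟩
    · rw [Finset.coe_image]
      exact Set.image_subset_range _ _
    · simpa using hKU⟩ H82.UAleph.ue.sub
  refine H82.UAleph.not_aleph0 N hN fun K U hK hU hKU => ?_
  obtain ⟨F, h1, h2⟩ := h' K U hK hU hKU
  exact ⟨F, F.finite_toSet, h1, h2⟩

end Pool.Agent.S13490
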