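import Pool.Statements.S13493
import Pool.Agent.H82.ScEG3

set_option autoImplicit false
open Topology
open Pool Pool.MP_874bf8_gt

namespace Pool.Agent.S13493

open Pool.Agent.H82.ScEG2 in
theorem result :
    ∀ (X : Type) [TopologicalSpace X],
      (∃ (K : Type) (_ : TopologicalSpace K), CompactSpace K ∧ T2Space K ∧
        ∃ f : X → (K → ℝ), IsEmbedding f ∧ ∀ x, Continuous (f x)) →
      (∃ (Y : Type) (_ : TopologicalSpace Y), CompactSpace Y ∧ T2Space Y ∧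
        ∃ e : X → Y, IsEmbedding e ∧ IsGδ (Set.range e)) →
      (∀ S : Set X, S.Nonempty → ∃ x ∈ S, ∃ U : Set X, IsOpen U ∧ U ∩ S = {x}) →
      ∃ D : ℕ → Set X, (⋃ n, D n) = Set.univ ∧
        ∀ n, ∀ x ∈ D n, ∃ U : Set X, IsOpen U ∧ U ∩ D n = {x} := by
  rintro X _ ⟨K, _, _, -, h1⟩ ⟨Z, _, _, _, e, he, h2⟩ h3
  obtain ⟨D, h4, h5⟩ := cech K X ⟨h1, cpl_of he h2, h3⟩
  exact ⟨D, Set.eq_univ_of_univ_subset h4, h5⟩

end Pool.Agent.S13493
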