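import Pool.Statements.S13507
import Pool.Agent.H71.Atr1

set_option autoImplicit false
open Pool Pool.MP_892330_gt

namespace Pool.Agent.S13507

/-- Every compact connected metric space of covering dimension exactly 2 that contains no triod has a subcontinuum of covering dimension exactly 2 that is not the union of two proper subcontinua. -/
theorem result :
  ∀ (X : Type) [MetricSpace X] [CompactSpace X] [ConnectedSpace X],
    ∀ D : Set X → ℕ → Prop,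
      (∀ (S : Set X) (n : ℕ), D S n ↔
        ∀ (m : ℕ) (U : Fin m → Set X), (∀ i, IsOpen (U i)) → S ⊆ ⋃ i, U i →
          ∃ (k : ℕ) (V : Fin k → Set X), (∀ j, IsOpen (V j)) ∧ S ⊆ ⋃ j, V j ∧
            (∀ j, ∃ i, V j ⊆ U i) ∧ ∀ x ∈ S, {j : Fin k | x ∈ V j}.ncard ≤ n + 1) →
      (¬ ∃ T Z A B C : Set X, IsCompact T ∧ IsConnected T ∧ IsCompact Z ∧ IsConnected Z ∧
          Z ⊆ T ∧ T \ Z = A ∪ B ∪ C ∧ A.Nonempty ∧ B.Nonempty ∧ C.Nonempty ∧
          Disjoint (closure A) B ∧ Disjoint A (closure B) ∧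
          Disjoint (closure A) C ∧ Disjoint A (closure C) ∧
          Disjoint (closure B) C ∧ Disjoint B (closure C)) →
      D Set.univ 2 → ¬ D Set.univ 1 →
      ∃ K : Set X, IsCompact K ∧ IsConnected K ∧ D K 2 ∧ ¬ D K 1 ∧
        ∀ P Q : Set X, IsCompact P → IsConnected P → IsCompact Q → IsConnected Q →
          P ∪ Q = K → P = K ∨ Q = K := by
  intro X _ _ _ D hD hT h2 h1
  have hT' : Pool.Agent.H71.Hag.NoTri (Set.univ : Set X) := by
    rintro T - ⟨a1, a2, Z, a3, a4, a5, A, B, C, b1, b2, b3, b4, c1, c2, c3, c4, c5, c6⟩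
    simp only [← Set.disjoint_iff_inter_eq_empty] at c1 c2 c3 c4 c5 c6
    exact hT ⟨T, Z, A, B, C, a1, a2, a4, a5, a3, b4, b1, b2, b3, c1, c2, c3, c4, c5, c6⟩
  rw [hD] at h1 h2
  obtain ⟨m, h1⟩ := not_forall.1 h1
  obtain ⟨U, h1⟩ := not_forall.1 h1
  obtain ⟨hU, h1⟩ := Classical.not_imp.1 h1
  obtain ⟨hc, h1⟩ := Classical.not_imp.1 h1
  obtain ⟨K, k1, k2, k3, k4⟩ := Pool.Agent.H71.Atr.main hT'
    fun h => h1 (Pool.Agent.H71.Atr.g1_iff.1 h)
  refine ⟨K, k1.1.isCompact, ⟨k2, k1.2⟩, (hD _ _).2 fun n V hV hK => ?_, fun h => k3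
    (Pool.Agent.H71.Atr.g1_iff.2 ((hD _ _).1 h m U hU ((Set.subset_univ _).trans hc))),
    fun P Q a b c d => k4 P Q ⟨a.isClosed, b.2⟩ b.1 ⟨c.isClosed, d.2⟩⟩
  obtain ⟨x, hx⟩ := k2
  obtain ⟨i0, -⟩ := Set.mem_iUnion.1 (hK hx)
  obtain ⟨k, W, w1, w2, w3, w4⟩ := h2 n (fun i => V i ∪ Kᶜ)
    (fun i => (hV i).union k1.1.isOpen_compl) fun y _ => by
      by_cases hy : y ∈ K
      · obtain ⟨i, hi⟩ := Set.mem_iUnion.1 (hK hy)
        exact Set.mem_iUnion.2 ⟨i, Or.inl hi⟩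
      · exact Set.mem_iUnion.2 ⟨i0, Or.inr hy⟩
  choose f hf using w3
  refine ⟨k, fun j => W j ∩ V (f j), fun j => (w1 j).inter (hV _), fun y hy => ?_,
    fun j => ⟨f j, Set.inter_subset_right⟩, fun y _ => le_trans
      (Set.ncard_le_ncard (fun j hj => hj.1) (Set.toFinite _)) (w4 y trivial)⟩
  obtain ⟨j, hj⟩ := Set.mem_iUnion.1 (w2 (Set.mem_univ y))
  exact Set.mem_iUnion.2 ⟨j, hj, (hf j hj).resolve_right (not_not.2 hy)⟩

end Pool.Agent.S13507
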