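import Pool.Statements.S13519
import Pool.Agent.H33.Spl3

set_option autoImplicit false
open Pool Pool.MP_89920a_gt

namespace Pool.Agent.S13519

/-- Every compact Hausdorff space X that is splittable over Eberlein compacta is itself Eberlein compact. Splittable means each subset A is the full preimage of its image under some continuous map into an Eberlein compactum. Eberlein means embeddable into the unit ball of c₀(Γ) with the pointwise topolo -/
theorem result :
    ∀ (X : Type) [TopologicalSpace X] [CompactSpace X] [T2Space X],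
      (∀ A : Set X, ∃ (Y : Type) (_ : TopologicalSpace Y), CompactSpace Y ∧
        (∃ (Γ : Type) (e : Y → Γ → ℝ), Topology.IsEmbedding e ∧
          (∀ y γ, |e y γ| ≤ 1) ∧
          (∀ y, ∀ ε : ℝ, 0 < ε → {γ : Γ | ε < |e y γ|}.Finite)) ∧
        ∃ f : X → Y, Continuous f ∧ f ⁻¹' (f '' A) = A) →
      ∃ (Γ : Type) (e : X → Γ → ℝ), Topology.IsEmbedding e ∧
        (∀ x γ, |e x γ| ≤ 1) ∧
        (∀ x, ∀ ε : ℝ, 0 < ε → {γ : Γ | ε < |e x γ|}.Finite) := by
  intro X _ _ _ hs
  obtain ⟨Γ, e, h1, h2, h3, h4⟩ := Pool.Agent.H33.Spl3.eberlein (X := X) fun A => by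
    obtain ⟨Y, t, -, ⟨Γ, e, he, -, h⟩, f, hf, hA⟩ := hs A
    exact ⟨Y, t, f, ⟨Γ, e, he.continuous, he.injective, fun y ε hε =>
      (h y _ (half_pos hε)).subset fun γ hγ => (half_lt_self hε).trans_le hγ⟩, hf, hA⟩
  exact ⟨Γ, e, (h1.isClosedEmbedding h2).isEmbedding, h3,
    fun x ε hε => (h4 x ε hε).subset fun γ (hγ : ε < _) => hγ.le⟩

end Pool.Agent.S13519
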