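import Pool.Statements.S13523
import Pool.Agent.H82.PSeq

set_option autoImplicit false
open Pool Pool.MP_8a5d18_gt

namespace Pool.Agent.S13523

theorem result :
    ∀ (p : Ultrafilter ℕ), (p : Filter ℕ) ≤ Filter.cofinite →
    ∀ (X : Type) [TopologicalSpace X] [T35Space X],
      (∀ A : Set C(X, ℝ),
        (∀ (f : ℕ → C(X, ℝ)) (g : C(X, ℝ)), (∀ n, f n ∈ A) →
          Filter.Tendsto f (p : Filter ℕ)
            (@nhds C(X, ℝ)
              (TopologicalSpace.induced (fun h : C(X, ℝ) => (h : X → ℝ)) Pi.topologicalSpace) g) →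
          g ∈ A) →
        @IsClosed C(X, ℝ)
          (TopologicalSpace.induced (fun h : C(X, ℝ) => (h : X → ℝ)) Pi.topologicalSpace) A) →
      ∀ 𝒰 : Set (Set X), (∀ U ∈ 𝒰, IsOpen U) → (Set.univ : Set X) ∉ 𝒰 →
        (∀ F : Finset X, ∃ U ∈ 𝒰, (↑F : Set X) ⊆ U) →
        ∃ u : ℕ → Set X, (∀ n, u n ∈ 𝒰) ∧
          ∀ x : X, ∀ᶠ n in (p : Filter ℕ), x ∈ u n := by
  intro p _ X _ _ H
  refine Pool.Agent.H82.PSeq.main p fun A hA g hg => ?_
  let _ : TopologicalSpace C(X, ℝ) :=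
    TopologicalSpace.induced (fun h : C(X, ℝ) => (h : X → ℝ)) Pi.topologicalSpace
  have h1 : IsClosed A := H A fun f g hf h =>
    hA f g hf (tendsto_pi_nhds.1 ((continuous_induced_dom.tendsto g).comp h))
  refine h1.closure_subset (mem_closure_iff_nhds.2 fun t ht => ?_)
  rw [nhds_induced, Filter.mem_comap] at ht
  obtain ⟨s, hs, hst⟩ := ht
  rw [nhds_pi, Filter.mem_pi] at hs
  obtain ⟨I, hI, V, hV, hO⟩ := hs
  obtain ⟨ε, hε, h2⟩ := ((eventually_mem_nhdsWithin (a := (0 : ℝ)) (s := Set.Ioi 0)).and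
    (((Filter.eventually_all_finite hI).2 fun x _ =>
      eventually_ball_subset (hV x)).filter_mono nhdsWithin_le_nhds)).exists
  obtain ⟨f, hf, h3⟩ := hg hI.toFinset ε hε
  exact ⟨f, hst (hO fun x hx => h2 x hx (h3 x (hI.mem_toFinset.2 hx))), hf⟩

end Pool.Agent.S13523
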