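import Pool.Statements.S13527
import Pool.Agent.H82.SmiC

set_option autoImplicit false
open Pool Pool.MP_8ab655_gt

namespace Pool.Agent.S13527

theorem result :
    ∀ (X : Type) [MetricSpace X] [CompactSpace X] [ConnectedSpace X],
      (∀ 𝒰 : Set (Set X), (∀ U ∈ 𝒰, IsOpen U) → ⋃₀ 𝒰 = Set.univ →
        ∃ (n : ℕ) (V : Fin n → Set X),
          (∀ i, IsOpen (V i)) ∧ (⋃ i, V i) = Set.univ ∧
          (∀ i, ∃ U ∈ 𝒰, V i ⊆ U) ∧
          (∀ i j k, i ≠ j → j ≠ k → i ≠ k → V i ∩ V j ∩ V k = ∅) ∧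
          (SimpleGraph.fromRel (fun i j : Fin n => (V i ∩ V j).Nonempty)).IsTree) →
      ∀ f : X ≃ₜ X, (∀ x, ∃ m : ℕ, 0 < m ∧ (⇑f)^[m] x = x) → ∃ x, f x = x := by
  intro X _ _ _ h f hf
  refine Pool.Agent.H82.Smi.fixed_point (Pool.Agent.H82.Smi.logP_of_tree fun 𝒰 h1 h2 => ?_)
    f.continuous f.injective hf
  obtain ⟨n, V, a, b, c, -, d⟩ := h 𝒰 h1 h2
  exact ⟨n, V, a, b, c, d.isAcyclic⟩

end Pool.Agent.S13527
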