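import Pool.Statements.S13540
import Pool.Agent.H82.MS

set_option autoImplicit false
universe u
open Pool Pool.MP_8bbda9_gt

namespace Pool.Agent.S13540

theorem result :
    ¬ (∀ (X Y : Type u) [TopologicalSpace X] [TopologicalSpace Y] [T35Space X] [T35Space Y],
      Nonempty ({f : X → ℝ // Continuous f} ≃ₜ {g : Y → ℝ // Continuous g}) →
      (∀ s : Set X, s.Countable → IsClosed s) →
      ∀ t : Set Y, t.Countable → IsClosed t) := by
  intro h
  have := H82.MSp.G_t35
  have := H82.FS.t35 (F := (Filter.cofinite : Filter ℕ)) le_rfl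
  have : T35Space (H82.FS.FS (Filter.cofinite : Filter ℕ) ⊕ H82.MSp.MS H82.MSp.G) := H82.FS.t35_sum
  have := (Homeomorph.ulift.{u} (X := H82.MSp.MS H82.MSp.G)).isEmbedding.t35Space
  have := (Homeomorph.ulift.{u} (X := H82.FS.FS (Filter.cofinite : Filter ℕ) ⊕
    H82.MSp.MS H82.MSp.G)).isEmbedding.t35Space
  obtain ⟨e⟩ := H82.MSp.G_ue.sub
  refine H82.MSp.not_closed (Homeomorph.ulift.{u}.isClosed_preimage.1 (h _ _
    ⟨(H82.MSp.liftH _).trans (e.toHomeomorph.symm.trans (H82.MSp.liftH _).symm)⟩ (fun s hs => ?_) _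
    ((Set.countable_range _).preimage Homeomorph.ulift.injective)))
  exact Homeomorph.ulift.isClosed_image.1 (H82.MSp.G_closed _ (hs.image _))

end Pool.Agent.S13540
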