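import Pool.Statements.S13550
import Pool.Agent.H83.Moore

set_option autoImplicit false
open Pool Pool.MP_8d6ae8_gt

namespace Pool.Agent.S13550

/-- The negation of the preceding statement: Every regular developable space X is completely regular if it has a coarser metrizable topology t₂ such that each point p in an open set O has an open D around p whose t₂-closure lies in O. -/
theorem result :
    ¬ (∀ (X : Type) (t : TopologicalSpace X),
      @RegularSpace X t →
      (∃ G : ℕ → Set (Set X),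
          (∀ n : ℕ, ∀ U ∈ G n, @IsOpen X t U) ∧
          (∀ n : ℕ, ⋃₀ G n = Set.univ) ∧
          ∀ x : X, ∀ O : Set X, @IsOpen X t O → x ∈ O →
            ∃ n : ℕ, ⋃₀ {U ∈ G n | x ∈ U} ⊆ O) →
      (∃ t₂ : TopologicalSpace X, t ≤ t₂ ∧
          @TopologicalSpace.MetrizableSpace X t₂ ∧
          ∀ p : X, ∀ O : Set X, @IsOpen X t O → p ∈ O →
            ∃ D : Set X, @IsOpen X t D ∧ p ∈ D ∧ @closure X t₂ D ⊆ O) →
      @CompletelyRegularSpace X t) := by
  intro H
  refine Pool.Agent.H83.Moore.not_cr (H Pool.Agent.H83.Moore.X _ Pool.Agent.H83.Moore.regular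
    ⟨fun n => Set.range (fun x => Pool.Agent.H83.Moore.U x n), ?_, ?_,
      Pool.Agent.H83.Moore.development⟩
    ⟨TopologicalSpace.induced Pool.Agent.H83.Moore.Φ inferInstance,
      continuous_iff_le_induced.1 Pool.Agent.H83.Moore.Φ_cont, ?_, ?_⟩)
  · rintro n _ ⟨x, rfl⟩
    exact Pool.Agent.H83.Moore.isOpen_U x n
  · exact fun n => Set.eq_univ_of_forall fun x => ⟨_, ⟨x, rfl⟩, Pool.Agent.H83.Moore.mem_U x n⟩
  · letI : TopologicalSpace Pool.Agent.H83.Moore.X :=
      TopologicalSpace.induced Pool.Agent.H83.Moore.Φ inferInstance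
    exact Topology.IsEmbedding.metrizableSpace ⟨⟨rfl⟩, Pool.Agent.H83.Moore.Φ_inj⟩
  · intro x O hO hx
    obtain ⟨D, h1, h2, h3⟩ := Pool.Agent.H83.Moore.reg_sub x O hO hx
    refine ⟨D, h1, h2, fun z hz => h3 ?_⟩
    exact closure_induced.1 hz

end Pool.Agent.S13550
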