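import Pool.Statements.S13557
-- import your own Pool.Agent.* helpers here

set_option autoImplicit false
open Pool Pool.MP_8df793_gt

namespace Pool.Agent.S13557

lemma key (e a b d0 d1 : ℝ) (he : e ^ 2 = 1 / 4) (ha : 0 ≤ a) (hb : 0 ≤ b) (hab : a + b = 1)
    (h1 : 3 * (e + b * d0) ^ 2 + 5 * (b * d1) ^ 2 = 3)
    (h2 : 3 * (e - a * d0) ^ 2 + 5 * (a * d1) ^ 2 = 3) :
    ((b * d0) ^ 2 + (b * d1) ^ 2)⁻¹ + ((a * d0) ^ 2 + (a * d1) ^ 2)⁻¹ = 40 / 9 := by
  have hb0 : b ≠ 0 := by rintro rfl; nlinarith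
  have ha0 : a ≠ 0 := by rintro rfl; nlinarith
  have hd : d0 ^ 2 + d1 ^ 2 ≠ 0 := by
    intro h
    have h0 : d0 = 0 := by nlinarith [sq_nonneg d0, sq_nonneg d1]
    have h0' : d1 = 0 := by nlinarith [sq_nonneg d0, sq_nonneg d1]
    subst h0 h0'; nlinarith
  obtain rfl : b = 1 - a := by linarith
  have e1 : a * (1 - a) * (3 * d0 ^ 2 + 5 * d1 ^ 2) = 9 / 4 := by
    linear_combination a * h1 + (1 - a) * h2 - 3 * he
  have e2 : (a - (1 - a)) * 9 / 4 = 6 * e * d0 * (a * (1 - a)) := by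
    linear_combination ((1 - a) ^ 2) * h2 - (a ^ 2) * h1 + 3 * (a ^ 2 - (1 - a) ^ 2) * he
  generalize 1 - a = b at *
  have e3 : a ^ 2 + b ^ 2 = 40 / 9 * (a * b) ^ 2 * (d0 ^ 2 + d1 ^ 2) := by
    have : ((a - b) * 9 / 4) ^ 2 = 9 * d0 ^ 2 * (a * b) ^ 2 := by
      rw [e2]; linear_combination 36 * d0 ^ 2 * (a * b) ^ 2 * he
    linear_combination 16 / 81 * this - 8 / 9 * (a * b) * e1
  rw [show (b * d0) ^ 2 + (b * d1) ^ 2 = b ^ 2 * (d0 ^ 2 + d1 ^ 2) by ring,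
    show (a * d0) ^ 2 + (a * d1) ^ 2 = a ^ 2 * (d0 ^ 2 + d1 ^ 2) by ring]
  field_simp
  linear_combination 9 * e3

def K : Set (EuclideanSpace ℝ (Fin 2)) := {v | 3 * v 0 ^ 2 + 5 * v 1 ^ 2 ≤ 3}

lemma cont : Continuous fun v : EuclideanSpace ℝ (Fin 2) => 3 * v 0 ^ 2 + 5 * v 1 ^ 2 := by
  fun_prop

lemma memint (e : ℝ) (he : e ^ 2 = 1 / 4) : !₂[e, 0] ∈ interior K := by
  refine interior_maximal (t := {v : EuclideanSpace ℝ (Fin 2) | 3 * v 0 ^ 2 + 5 * v 1 ^ 2 < 3}) 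
    (fun v hv => le_of_lt (α := ℝ) hv)
    (isOpen_lt cont continuous_const) ?_
  simp [he]; norm_num

lemma dsq (x p : EuclideanSpace ℝ (Fin 2)) :
    dist x p ^ (-2 : ℝ) = ((x 0 - p 0) ^ 2 + (x 1 - p 1) ^ 2)⁻¹ := by
  rw [Real.rpow_neg dist_nonneg, Real.rpow_two, EuclideanSpace.dist_eq, Real.sq_sqrt (by positivity)]
  simp [Real.dist_eq]

lemma pt (e : ℝ) (he : e ^ 2 = 1 / 4) : ∃ c : ℝ, ∀ x ∈ frontier K, ∀ y ∈ frontier K,
    (!₂[e, 0] : EuclideanSpace ℝ (Fin 2)) ∈ segment ℝ x y →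
      dist x !₂[e, 0] ^ (-2 : ℝ) + dist y !₂[e, 0] ^ (-2 : ℝ) = c := by
  refine ⟨40 / 9, fun x hx y hy ⟨a, b, ha, hb, hab, h⟩ => ?_⟩
  have hx' : 3 * x 0 ^ 2 + 5 * x 1 ^ 2 = 3 := frontier_le_subset_eq cont continuous_const hx
  have hy' : 3 * y 0 ^ 2 + 5 * y 1 ^ 2 = 3 := frontier_le_subset_eq cont continuous_const hy
  have h0 : a * x 0 + b * y 0 = e := by simpa using congrArg (· 0) h
  have h1 : a * x 1 + b * y 1 = 0 := by simpa using congrArg (· 1) h
  have x0 : x 0 = e + b * (x 0 - y 0) := by linear_combination h0 - x 0 * hab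
  have x1 : x 1 = b * (x 1 - y 1) := by linear_combination h1 - x 1 * hab
  have y0 : y 0 = e - a * (x 0 - y 0) := by linear_combination h0 - y 0 * hab
  have y1 : y 1 = -(a * (x 1 - y 1)) := by linear_combination h1 - y 1 * hab
  rw [dsq, dsq, ← key e a b (x 0 - y 0) (x 1 - y 1) he ha hb hab (by rw [← x0, ← x1, hx'])
    (by rw [← y0, ← neg_sq (a * _), ← y1, hy'])]
  congr 2
  · simp only [Matrix.cons_val_zero, Matrix.cons_val_one]
    linear_combination (x 0 - e + b * (x 0 - y 0)) * x0 + (x 1 + b * (x 1 - y 1)) * x1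
  · simp only [Matrix.cons_val_zero, Matrix.cons_val_one]
    linear_combination (y 0 - e - a * (x 0 - y 0)) * y0 + (y 1 - a * (x 1 - y 1)) * y1

/-- There is a real α other than −1 and 0 and a compact convex plane region with two distinct interior points, each having ∣x−p∣^α + ∣y−p∣^α constant over all boundary chords [x,y] through it. -/
theorem result :
    ∃ α : ℝ, α ≠ -1 ∧ α ≠ 0 ∧
      ∃ K : Set (EuclideanSpace ℝ (Fin 2)),
        Convex ℝ K ∧ IsCompact K ∧ (interior K).Nonempty ∧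
        ∃ p q : EuclideanSpace ℝ (Fin 2),
          p ∈ interior K ∧ q ∈ interior K ∧ p ≠ q ∧
          (∃ c : ℝ, ∀ x ∈ frontier K, ∀ y ∈ frontier K,
              p ∈ segment ℝ x y → dist x p ^ α + dist y p ^ α = c) ∧
          (∃ c : ℝ, ∀ x ∈ frontier K, ∀ y ∈ frontier K,
              q ∈ segment ℝ x y → dist x q ^ α + dist y q ^ α = c) := by
  refine ⟨-2, by norm_num, by norm_num, K, ?_, ?_, ⟨_, memint (1 / 2) (by norm_num)⟩, _, _,
    memint (1 / 2) (by norm_num), memint (-1 / 2) (by norm_num), ?_, pt _ (by norm_num),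
    pt _ (by norm_num)⟩
  · intro x hx y hy a b ha hb hab
    simp only [K, Set.mem_ofPred_eq, PiLp.add_apply, PiLp.smul_apply, smul_eq_mul] at *
    obtain rfl : b = 1 - a := by linarith
    nlinarith [mul_nonneg (mul_nonneg ha hb) (sq_nonneg (x 0 - y 0)),
      mul_nonneg (mul_nonneg ha hb) (sq_nonneg (x 1 - y 1)), mul_nonneg ha (sub_nonneg.2 hx),
      mul_nonneg hb (sub_nonneg.2 hy)]
  · refine Metric.isCompact_of_isClosed_isBounded (isClosed_le cont continuous_const)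
      ((Metric.isBounded_closedBall (x := 0) (r := 1)).subset fun v hv => ?_)
    simp only [K, Set.mem_ofPred_eq] at hv
    rw [mem_closedBall_zero_iff, EuclideanSpace.norm_eq, Real.sqrt_le_one]
    simp only [Fin.sum_univ_two, Real.norm_eq_abs, sq_abs]
    nlinarith [sq_nonneg (v 1)]
  · intro h
    have := congrArg (· 0) h
    norm_num at this

end Pool.Agent.S13557
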