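import Pool.Statements.S13565
import Pool.Agent.H85.Tau

set_option autoImplicit false
open Pool Pool.MP_8f5cd4_gt

namespace Pool.Agent.S13565

/-- Every set of reals X with S1(Ω,T) also has the Hurewicz property. S1(Ω,T): from each open ω-cover in a sequence one can pick one set so the picks form a τ-cover. Hurewicz: any sequence of open covers has finite pieces eventually covering each point. -/
theorem result :
    ∀ X : Set ℝ,
      (∀ U : ℕ → Set (Set X),
        (∀ n, (∀ V ∈ U n, IsOpen V) ∧ (Set.univ : Set X) ∉ U n ∧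
            ∀ F : Finset X, ∃ V ∈ U n, (↑F : Set X) ⊆ V) →
        ∃ f : ℕ → Set X, (∀ n, f n ∈ U n) ∧
          ((∀ V ∈ Set.range f, IsOpen V) ∧ (Set.univ : Set X) ∉ Set.range f ∧
            (∀ x : X, {W : Set X | W ∈ Set.range f ∧ x ∈ W}.Infinite) ∧
            ∀ x y : X,
              ({W : Set X | W ∈ Set.range f ∧ x ∈ W} \
                  {W : Set X | W ∈ Set.range f ∧ y ∈ W}).Finite ∨
              ({W : Set X | W ∈ Set.range f ∧ y ∈ W} \
                  {W : Set X | W ∈ Set.range f ∧ x ∈ W}).Finite)) →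
      ∀ U : ℕ → Set (Set X),
        (∀ n, (∀ V ∈ U n, IsOpen V) ∧ ⋃₀ U n = Set.univ) →
        ∃ F : ℕ → Finset (Set X), (∀ n, (↑(F n) : Set (Set X)) ⊆ U n) ∧
          ∀ x : X, ∀ᶠ n in Filter.atTop, x ∈ ⋃₀ (↑(F n) : Set (Set X)) := by
  intro X hS U hU
  rcases isEmpty_or_nonempty X with hX | hX
  · exact ⟨fun _ => ∅, fun _ => by simp, fun x => hX.elim x⟩
  have h : Pool.Agent.H85.TauDefs.S1 (Pool.Agent.H85.TauDefs.Omega X)
      (Pool.Agent.H85.TauDefs.Tau X) := by
    intro C hC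
    obtain ⟨f, hf, h1, h2, h3, h4⟩ := hS C fun n =>
      ⟨(hC n).1, (hC n).2.1.2, fun F => (hC n).2.2 _ F.finite_toSet⟩
    refine ⟨f, hf, h1, ⟨?_, h2⟩, h3, fun x y => ?_⟩
    · refine Set.eq_univ_of_forall fun x => ?_
      obtain ⟨W, hW, hx⟩ := (h3 x).nonempty
      exact ⟨W, hW, hx⟩
    · refine (h4 x y).imp (fun h => h.subset ?_) (fun h => h.subset ?_) <;>
      exact fun W hW => ⟨⟨hW.1, hW.2.1⟩, fun h' => hW.2.2 h'.2⟩
  exact Pool.Agent.H85.Tau.hurewicz_of_S1GT (Pool.Agent.H85.Tau.S1_mono h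
    (Pool.Agent.H85.Tau.gamma_sub_tau.trans Pool.Agent.H85.Tau.tau_sub_omega)
    Set.Subset.rfl) U hU

end Pool.Agent.S13565
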