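import Pool.Statements.S13580
-- import your own Pool.Agent.* helpers here

set_option autoImplicit false
open Pool Pool.MP_925f0d_gt

namespace Pool.Agent.S13580

def hh : (Fin 3 → ℝ) ≃ₜ (Fin 3 → ℝ) where
  toFun x := ![x 0, x 1, x 2 + (x 0 ^ 2 + x 1 ^ 2)]
  invFun x := ![x 0, x 1, x 2 - (x 0 ^ 2 + x 1 ^ 2)]
  left_inv x := by ext i; fin_cases i <;> simp
  right_inv x := by ext i; fin_cases i <;> simp
  continuous_toFun := by fun_prop
  continuous_invFun := by fun_prop

lemma hh_apply (x : Fin 3 → ℝ) : hh x = ![x 0, x 1, x 2 + (x 0 ^ 2 + x 1 ^ 2)] := rfl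

/-- The negation of the preceding statement: For k≥3, every continuous self-map φ of the one-point compactification of ℝ^k with (1−z)φ(x)=φ(φ(zx)(1−z)/z) for real z≠0,1 is the identity, constant 0, constant ∞, or conjugate by a 1-homogeneous homeomorphism to φ_1 or some φ_∞ with d≠0, Σd=0. -/
theorem result :
    ¬ (∀ k : ℕ, 3 ≤ k → ∀ φ : OnePoint (Fin k → ℝ) → OnePoint (Fin k → ℝ), Continuous φ →
    (∀ (x : Fin k → ℝ) (z : ℝ), z ≠ 0 → z ≠ 1 →
      (Option.map (fun v : Fin k → ℝ => (1 - z) • v) (φ (OnePoint.some x)) : OnePoint (Fin k → ℝ)) =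
        φ (Option.map (fun v : Fin k → ℝ => ((1 - z) / z) • v) (φ (OnePoint.some (z • x))))) →
    (∀ p, φ p = p) ∨ (∀ p, φ p = OnePoint.some 0) ∨ (∀ p, φ p = OnePoint.infty) ∨
    ∃ ℓ : (Fin k → ℝ) ≃ₜ (Fin k → ℝ), (∀ (c : ℝ) (x : Fin k → ℝ), ℓ (c • x) = c • ℓ x) ∧
      ((∀ x : Fin k → ℝ, φ (OnePoint.some (ℓ x)) =
          if ∑ i, (x i + 1) ^ 2 = 0 then OnePoint.infty
          else OnePoint.some (ℓ (fun j => (∑ i, x i ^ 2 + (k : ℝ) * x j) / ∑ i, (x i + 1) ^ 2))) ∨
       ∃ d : Fin k → ℝ, d ≠ 0 ∧ ∑ i, d i = 0 ∧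
         ∀ x : Fin k → ℝ, φ (OnePoint.some (ℓ x)) =
           OnePoint.some (ℓ (fun j => d j * (∑ i, x i) ^ 2 + x j)))) := by
  intro H
  have key : ∀ x, hh.onePointCongr (OnePoint.some x) = OnePoint.some (hh x) := fun x => rfl
  have H' := H 3 le_rfl hh.onePointCongr hh.onePointCongr.continuous (by
    intro x z hz _
    show OnePoint.some ((1 - z) • hh x) = OnePoint.some (hh (((1 - z) / z) • hh (z • x)))
    congr 1
    ext i; fin_cases i <;> simp [hh_apply] <;> field_simp <;> ring)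
  rcases H' with h | h | h | ⟨l, hl, h | h⟩
  · have h1 := h (OnePoint.some ![1, 0, 0])
    rw [key, OnePoint.coe_eq_coe] at h1
    have := congrFun h1 2
    simp [hh_apply] at this
  · have h1 := h OnePoint.infty
    exact absurd h1 (OnePoint.infty_ne_coe _)
  · have h1 := h (OnePoint.some 0)
    exact absurd h1 (OnePoint.coe_ne_infty _)
  · have h1 := h (fun _ => -1)
    rw [if_pos (by simp), key] at h1
    exact absurd h1 (OnePoint.coe_ne_infty _)
  · obtain ⟨d, -, -, h⟩ := h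
    have fx : ∀ x : Fin 3 → ℝ, ∑ i, x i = 0 → l x 0 = 0 ∧ l x 1 = 0 := by
      intro x hx
      have h1 := h x
      rw [key, OnePoint.coe_eq_coe, hx] at h1
      have h2 := congrFun h1 2
      have e : (fun j => d j * 0 ^ 2 + x j) = x := by ext j; simp
      rw [e] at h2
      simp only [hh_apply, Matrix.cons_val] at h2
      constructor <;> nlinarith [sq_nonneg (l x 0), sq_nonneg (l x 1)]
    obtain ⟨a0, a1⟩ := fx ![1, -1, 0] (by simp [Fin.sum_univ_three])
    obtain ⟨b0, b1⟩ := fx ![1, 0, -1] (by simp [Fin.sum_univ_three])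
    have e : l (l ![1, 0, -1] 2 • ![1, -1, 0]) = l (l ![1, -1, 0] 2 • ![1, 0, -1]) := by
      rw [hl, hl]; ext i; fin_cases i
      · simp [a0, b0]
      · simp [a1, b1]
      · simp [mul_comm]
    have e2 := l.injective e
    have a2 : l ![1, -1, 0] 2 = 0 := by simpa using congrFun e2 2
    have e3 : l ![1, -1, 0] = l ((0 : ℝ) • ![1, -1, 0]) := by
      rw [hl]; ext i; fin_cases i
      · simp [a0]
      · simp [a1]
      · simp [a2]
    have := congrFun (l.injective e3) 0
    simp at this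

end Pool.Agent.S13580
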