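import Pool.Statements.S13589
import Pool.Agent.H81.Steiner2

set_option autoImplicit false
open Pool Pool.MP_93ef73_gt

namespace Pool.Agent.S13589

open Pool.Agent.H81.Steiner MeasureTheory Set

def SS : Set E2 := segment ℝ (P 715 440) (P 5303 (-180)) ∪ segment ℝ (P 715 440) (P 0 1805) ∪
  segment ℝ (P 715 440) (P (-715) (-440)) ∪ segment ℝ (P (-715) (-440)) (P (-3971) 0) ∪
  segment ℝ (P (-715) (-440)) (P 0 (-1805))

def TT : Set E2 := segment ℝ (P 3971 0) (P 5303 (-180)) ∪ segment ℝ (P 715 (-440)) (P 3971 0) ∪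
  segment ℝ (P 715 (-440)) (P 0 (-1805)) ∪
  segment ℝ (P 715 (-440)) (P (-715) 440) ∪ segment ℝ (P (-715) 440) (P (-3971) 0) ∪
  segment ℝ (P (-715) 440) (P 0 1805)

lemma SS_le : Measure.hausdorffMeasure 1 SS ≤ ((15086 : ℕ) : ENNReal) := by
  refine (measure_union_le _ _).trans ((add_le_add ((measure_union_le _ _).trans (add_le_add
    ((measure_union_le _ _).trans (add_le_add ((measure_union_le _ _).trans (add_le_add
    (seg_le 4712 (by norm_num)) (seg_le 2470 (by norm_num)))) (seg_le 2090 (by norm_num))))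
    (seg_le 3344 (by norm_num)))) (seg_le 2470 (by norm_num))).trans ?_)
  norm_num

lemma TT_le : Measure.hausdorffMeasure 1 TT ≤ ((15086 : ℕ) : ENNReal) := by
  refine (measure_union_le _ _).trans ((add_le_add ((measure_union_le _ _).trans (add_le_add
    ((measure_union_le _ _).trans (add_le_add ((measure_union_le _ _).trans (add_le_add
    ((measure_union_le _ _).trans (add_le_add (seg_le 1368 (by norm_num))
    (seg_le 3344 (by norm_num)))) (seg_le 2470 (by norm_num)))) (seg_le 2090 (by norm_num))))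
    (seg_le 3344 (by norm_num)))) (seg_le 2470 (by norm_num))).trans ?_)
  norm_num

lemma SS_c : IsCompact SS :=
  ((((seg_compact _ _).union (seg_compact _ _)).union (seg_compact _ _)).union
    (seg_compact _ _)).union (seg_compact _ _)

lemma TT_c : IsCompact TT :=
  (((((seg_compact _ _).union (seg_compact _ _)).union (seg_compact _ _)).union
    (seg_compact _ _)).union (seg_compact _ _)).union (seg_compact _ _)

lemma SS_n : IsConnected SS := by
  refine IsConnected.union ⟨P (-715) (-440), ?_⟩ (IsConnected.union ⟨P (-715) (-440), ?_⟩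
    (IsConnected.union ⟨P 715 440, ?_⟩ (IsConnected.union ⟨P 715 440, ?_⟩ (seg_conn _ _)
    (seg_conn _ _)) (seg_conn _ _)) (seg_conn _ _)) (seg_conn _ _) <;>
  simp [left_mem_segment, right_mem_segment]

lemma TT_n : IsConnected TT := by
  refine IsConnected.union ⟨P (-715) 440, ?_⟩ (IsConnected.union ⟨P (-715) 440, ?_⟩
    (IsConnected.union ⟨P 715 (-440), ?_⟩ (IsConnected.union ⟨P 715 (-440), ?_⟩
    (IsConnected.union ⟨P 3971 0, ?_⟩ (seg_conn _ _) (seg_conn _ _))
    (seg_conn _ _)) (seg_conn _ _)) (seg_conn _ _)) (seg_conn _ _) <;>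
  simp [left_mem_segment, right_mem_segment]

lemma z1_open : P 3971 0 ∈ openSegment ℝ (P 715 440) (P 5303 (-180)) := by
  refine ⟨9 / 31, 22 / 31, by norm_num, by norm_num, by norm_num, ?_⟩
  ext k; fin_cases k <;> simp [P] <;> ring

lemma m0_mem : P 2639 180 ∈ SS := by
  refine Or.inl (Or.inl (Or.inl (Or.inl ⟨18 / 31, 13 / 31, by norm_num, by norm_num, by norm_num, ?_⟩)))
  ext k; fin_cases k <;> simp [P] <;> ring

noncomputable def pA (i : Fin 5) : E2 := P (zA i).1 (zA i).2
noncomputable def pM (i : Fin 5) : E2 := P (zM i).1 (zM i).2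

lemma A_SS (i : Fin 5) : pA i ∈ SS := by
  have := openSegment_subset_segment ℝ _ _ z1_open
  fin_cases i <;> simp [pA, zA, SS, left_mem_segment, right_mem_segment, this]

lemma A_TT (i : Fin 5) : pA i ∈ TT := by
  fin_cases i <;> simp [pA, zA, TT, left_mem_segment, right_mem_segment]

lemma P_inj (z : Fin 5 → ℤ × ℤ) (hz : Function.Injective z) :
    Function.Injective fun i => P (z i).1 (z i).2 := by
  intro i j h
  have c0 := congrArg (· 0) h
  have c1 := congrArg (· 1) h
  simp [P] at c0 c1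
  exact hz (Prod.ext c0 c1)

lemma noT (i : Fin 5) : ¬ ∃ x y : E2, x ≠ y ∧ segment ℝ x y ⊆ TT ∧ pA i ∈ openSegment ℝ x y := by
  refine noSeg _ _ (![0, 0, -1, 0, 1] i) (![1, 1, 0, -1, 0] i) fun z hz => ?_
  rcases hz with ((((h | h) | h) | h) | h) | h <;> obtain ⟨t, t0, t1, e⟩ := mem_seg h <;>
    refine ⟨_, _, e, ?_⟩ <;> rcases t0.eq_or_lt with rfl | t0 <;> rcases t1.eq_or_lt with t1 | t1 <;>
    fin_cases i <;> simp [zA] <;>
    first
      | linarith
      | (left; linarith)
      | (right; right; linarith)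
      | (right; left; constructor <;> linarith)
      | norm_num

/-- There exist d, a nonempty compact totally disconnected A in R^d with two distinct Steiner trees S, T, no terminal interior to segments in both, and nonempty compact M (∣M∣=∣A∣ if A finite) and r>0 with S an r-minimizer for M. -/
theorem result :
  ∃ (d : ℕ) (A S T M : Set (EuclideanSpace ℝ (Fin d))) (r : ℝ),
    IsCompact A ∧ A.Nonempty ∧ IsTotallyDisconnected A ∧
    (IsCompact S ∧ IsConnected S ∧ A ⊆ S ∧
      MeasureTheory.Measure.hausdorffMeasure 1 S < ⊤ ∧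
      ∀ S' : Set (EuclideanSpace ℝ (Fin d)), IsCompact S' → IsConnected S' → A ⊆ S' →
        MeasureTheory.Measure.hausdorffMeasure 1 S ≤ MeasureTheory.Measure.hausdorffMeasure 1 S') ∧
    (IsCompact T ∧ IsConnected T ∧ A ⊆ T ∧
      MeasureTheory.Measure.hausdorffMeasure 1 T < ⊤ ∧
      ∀ S' : Set (EuclideanSpace ℝ (Fin d)), IsCompact S' → IsConnected S' → A ⊆ S' →
        MeasureTheory.Measure.hausdorffMeasure 1 T ≤ MeasureTheory.Measure.hausdorffMeasure 1 S') ∧
    S ≠ T ∧
    IsCompact M ∧ M.Nonempty ∧ 0 < r ∧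
    (A.Finite → M.Finite ∧ M.ncard = A.ncard) ∧
    (¬ ∃ a ∈ A,
        (∃ x y : EuclideanSpace ℝ (Fin d), x ≠ y ∧ segment ℝ x y ⊆ S ∧ a ∈ openSegment ℝ x y) ∧
        (∃ x y : EuclideanSpace ℝ (Fin d), x ≠ y ∧ segment ℝ x y ⊆ T ∧ a ∈ openSegment ℝ x y)) ∧
    (∀ y ∈ M, Metric.infDist y S ≤ r) ∧
    ∀ W : Set (EuclideanSpace ℝ (Fin d)), IsCompact W → IsConnected W →
      (∀ y ∈ M, Metric.infDist y W ≤ r) →
        MeasureTheory.Measure.hausdorffMeasure 1 S ≤ MeasureTheory.Measure.hausdorffMeasure 1 W := by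
  have fin : ((15086 : ℕ) : ENNReal) < ⊤ := ENNReal.natCast_lt_top _
  refine ⟨2, range pA, SS, TT, range pM, 38, (finite_range _).isCompact, range_nonempty _,
    (finite_range _).countable.isTotallyDisconnected,
    ⟨SS_c, SS_n, range_subset_iff.2 A_SS, SS_le.trans_lt fin, fun W a b c =>
      SS_le.trans (lowA a b (range_subset_iff.1 c))⟩,
    ⟨TT_c, TT_n, range_subset_iff.2 A_TT, TT_le.trans_lt fin, fun W a b c =>
      TT_le.trans (lowA a b (range_subset_iff.1 c))⟩, fun h => noT 0 ⟨P 715 440, P 5303 (-180), ?_, ?_, ?_⟩,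
    (finite_range _).isCompact, range_nonempty _, by norm_num, fun _ => ⟨finite_range _, ?_⟩, ?_, ?_,
    fun W a b c => SS_le.trans (lowM a b fun i => c _ ⟨i, rfl⟩)⟩
  · intro h
    have c0 := congrArg (· 0) h
    simp [P] at c0
  · rw [← h]; intro z hz; exact Or.inl (Or.inl (Or.inl (Or.inl hz)))
  · simpa [pA, zA] using z1_open
  · exact (ncard_range_of_injective (P_inj zM (by decide))).trans
      (ncard_range_of_injective (P_inj zA (by decide))).symm
  · rintro ⟨_, ⟨i, rfl⟩, -, h⟩
    exact noT i h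
  · rintro _ ⟨i, rfl⟩
    by_cases h : i = 0
    · subst h
      have : pM 0 ∈ SS := by simpa [pM, zM] using m0_mem
      rw [Metric.infDist_zero_of_mem this]; norm_num
    · refine (Metric.infDist_le_dist_of_mem (A_SS i)).trans (P_dist (by norm_num) ?_)
      fin_cases i <;> simp [zA, zM] at h ⊢ <;> norm_num

end Pool.Agent.S13589
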