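import Pool.Statements.S13606
import Pool.Agent.H84.KProd2

set_option autoImplicit false
open Pool Pool.MP_958dc4_gt

namespace Pool.Agent.S13606

/-- The negation of the preceding statement: For every adequate, homeomorphism-closed class K of T0 spaces containing all sober spaces, and every family of T0 spaces with K-reflections, the product of the reflection maps is a K-reflection of the product space. -/
theorem result :
    ¬ (∀ (K : ∀ (X : Type) [TopologicalSpace X], Prop),
    (∀ (X : Type) [TopologicalSpace X], K X → T0Space X) →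
    (∀ (X : Type) [TopologicalSpace X], T0Space X → QuasiSober X → K X) →
    (∀ (X Y : Type) [TopologicalSpace X] [TopologicalSpace Y], (X ≃ₜ Y) → K X → K Y) →
    (∀ (X : Type) [TopologicalSpace X], T0Space X →
      @K {A : Set X // IsClosed A ∧ ∀ (Y : Type) [TopologicalSpace Y], K Y →
            ∀ f : X → Y, Continuous f → ∃! y : Y, closure (f '' A) = closure {y}}
        (TopologicalSpace.generateFrom
          {S | ∃ U : Set X, IsOpen U ∧ S = {A | (A.1 ∩ U).Nonempty}})) →
    ∀ (I : Type) (X : I → Type) [∀ i, TopologicalSpace (X i)], (∀ i, T0Space (X i)) →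
    ∀ (R : I → Type) [∀ i, TopologicalSpace (R i)] (η : ∀ i, X i → R i),
      (∀ i, K (R i) ∧ Continuous (η i) ∧
        ∀ (Y : Type) [TopologicalSpace Y], K Y → ∀ f : X i → Y, Continuous f →
          ∃! g : R i → Y, Continuous g ∧ g ∘ η i = f) →
      K (∀ i, R i) ∧
      Continuous (fun (x : ∀ i, X i) (i : I) => η i (x i)) ∧
      ∀ (Y : Type) [TopologicalSpace Y], K Y → ∀ f : (∀ i, X i) → Y, Continuous f →
        ∃! g : (∀ i, R i) → Y, Continuous g ∧
          g ∘ (fun (x : ∀ i, X i) (i : I) => η i (x i)) = f) := by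
  intro H
  have := H H84.KProd.K (fun Y _ h => h.1) (fun Y _ _ _ => H84.KProd.K_sober Y)
    (fun Y Z _ _ e h => H84.KProd.K_homeo Y Z e h)
    (fun W _ _ => H84.KProd.K_KD W)
    ℕ H84.KProd.X (fun _ => inferInstance) H84.KProd.R H84.KProd.eta
    (fun i => ⟨H84.KProd.K_R i, H84.KProd.continuous_eta i, H84.KProd.eta_univ i⟩)
  obtain ⟨h, ⟨hc, he⟩, -⟩ := this.2.2 H84.KProd.S H84.KProd.K_S H84.KProd.etaS
    H84.KProd.continuous_etaS
  exact H84.KProd.no_ext h hc he

end Pool.Agent.S13606
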