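import Pool.Statements.S13621
import Pool.Agent.H86.Smirnov

set_option autoImplicit false
open Pool Pool.MP_984099_gt

namespace Pool.Agent.S13621

open Set Filter Topology Pool.Agent.H86.Smirnov

theorem result :
    ∃ (X : Type) (_ : TopologicalSpace X) (_ : AddAction ℚ X),
      ContinuousVAdd ℚ X ∧ T35Space X ∧
      ¬ ∃ (Y : Type) (_ : TopologicalSpace Y) (_ : AddAction ℚ Y),
          ContinuousVAdd ℚ Y ∧ CompactSpace Y ∧ T2Space Y ∧
          ∃ f : X → Y, Topology.IsEmbedding f ∧ ∀ (q : ℚ) (x : X), f (q +ᵥ x) = q +ᵥ f x := by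
  refine ⟨X, inferInstance, inferInstance, inferInstance, inferInstance, ?_⟩
  rintro ⟨Y, _, _, _, _, _, φ, hφ, heq⟩
  let x₀ : X := ⟨(c .p, .p), 0, by simp⟩
  let C : Set X := (fun w : X => w.1.2) ⁻¹' (Up 1)ᶜ
  have hC : IsClosed C := (Up_open 1).isClosed_compl.preimage (continuous_snd.comp val_cont)
  have hx : φ x₀ ∉ closure (φ '' C) := by
    intro h
    have : x₀ ∈ closure C := by
      rw [hφ.isInducing.closure_eq_preimage_closure_image]
      exact h
    exact hC.closure_subset this (Or.inl rfl)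
  obtain ⟨F, hF0, hF1, -⟩ := exists_continuous_zero_one_of_isClosed isClosed_closure
    (isClosed_singleton (x := φ x₀)) (disjoint_singleton_right.2 hx)
  have := no_uniform (fun w => F (φ w)) (F.continuous.comp hφ.continuous) (by
    intro ε hε
    have hc : Continuous (fun p : ℚ × Y => |F (p.1 +ᵥ p.2) - F p.2|) := by fun_prop
    obtain ⟨u, v, hu, -, h0, hv, huv⟩ := generalized_tube_lemma (isCompact_singleton (x := (0 : ℚ)))
      (isCompact_univ (X := Y)) (isOpen_lt hc (continuous_const (y := ε))) (by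
        rintro ⟨q, y⟩ ⟨hq, -⟩
        have : q = 0 := hq
        subst this
        simpa using hε)
    obtain ⟨δ, hδ, hδu⟩ := Metric.mem_nhds_iff.1 (hu.mem_nhds (h0 rfl))
    refine ⟨δ, hδ, fun q hq w => ?_⟩
    rw [heq]
    refine huv (a := (q, φ w)) ⟨hδu ?_, hv (mem_univ _)⟩
    rw [Metric.mem_ball, Rat.dist_eq]
    simpa using hq) (by
    intro w h1 h2
    refine hF0 (subset_closure ⟨w, ?_, rfl⟩)
    rintro (h | h)
    · exact h1 h
    · simp only at h
      omega)
  have h1 : F (φ x₀) = 1 := hF1 rfl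
  simp only [x₀] at h1
  linarith

end Pool.Agent.S13621
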