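import Pool.Statements.S13624
import Pool.Agent.H82.UKw

set_option autoImplicit false
open Pool Pool.MP_9873d2_gt

namespace Pool.Agent.S13624

theorem result :
    ¬ (∀ (X : Type) [TopologicalSpace X] [T35Space X],
      Nonempty (UniformEquiv {g : X → ℝ // Continuous g} {g : ℝ → ℝ // Continuous g}) →
      ∃ K : ℕ → Set X, (∀ n, IsCompact (K n)) ∧ (⋃ n, K n) = Set.univ ∧
        ∀ F : Set X, (∀ n, IsClosed ((Subtype.val : ↥(K n) → X) ⁻¹' F)) → IsClosed F) := by
  intro h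
  have := H82.FS.t35 H82.UKw.Z_le
  have : T35Space (H82.FS.FS H82.UKw.Z ⊕ ℝ) := H82.FS.t35_sum
  obtain ⟨K, h1, -, h2⟩ := h _ H82.UKw.ue.sub
  refine H82.UKw.bad_not_closed (h2 _ fun n => Set.Finite.isClosed ?_)
  exact ((H82.UKw.bad_fin (h1 n)).preimage Subtype.val_injective.injOn).subset
    fun x hx => ⟨hx, x.2⟩

end Pool.Agent.S13624
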