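import Pool.Statements.S13625
import Pool.Agent.H84.SemiB

set_option autoImplicit false
open Pool Pool.MP_98c8dd_gt

namespace Pool.Agent.S13625

/-- In a metrizable continuum where every σ-connected F_σ subset has any two of its points inside a subcontinuum of that subset, any two distinct points p,q admit a subcontinuum containing one of them in its interior and missing the other. -/
theorem result :
    ∀ (X : Type) [TopologicalSpace X] [TopologicalSpace.MetrizableSpace X]
      [CompactSpace X] [ConnectedSpace X],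
      (∀ A : Set X,
        (∃ C : ℕ → Set X, (∀ n, IsClosed (C n)) ∧ A = ⋃ n, C n) →
        (¬ ∃ F : ℕ → Set X,
            (∀ n, ∃ D : Set X, IsClosed D ∧ F n = D ∩ A) ∧
            (∀ i j, i ≠ j → Disjoint (F i) (F j)) ∧
            (⋃ n, F n) = A ∧
            (∃ i j, i ≠ j ∧ (F i).Nonempty ∧ (F j).Nonempty)) →
        ∀ x ∈ A, ∀ y ∈ A, ∃ K : Set X, K ⊆ A ∧ IsCompact K ∧ IsConnected K ∧ x ∈ K ∧ y ∈ K) →
      ∀ p q : X, p ≠ q →
        (∃ K : Set X, IsCompact K ∧ IsConnected K ∧ p ∈ interior K ∧ q ∉ K) ∨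
        (∃ K : Set X, IsCompact K ∧ IsConnected K ∧ q ∈ interior K ∧ p ∉ K) := by
  intro X _ _ _ _ h p q hpq
  let _ := TopologicalSpace.metrizableSpaceMetric X
  exact Or.inl (Pool.Agent.H84.SemiB.apos (Pool.Agent.H84.SemiA.hyp_of h) hpq)

end Pool.Agent.S13625
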