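import Pool.Statements.S13655
-- import your own Pool.Agent.* helpers here

set_option autoImplicit false
open Pool Pool.MP_9de622_gt

namespace Pool.Agent.S13655

open Real Set

lemma polar (x y t : ℝ) : ∃ θ ∈ Icc (-π) π,
    x = √(x ^ 2 + y ^ 2) * cos (t + θ) ∧ y = √(x ^ 2 + y ^ 2) * sin (t + θ) := by
  let z : ℂ := ⟨x * cos t + y * sin t, y * cos t - x * sin t⟩
  have hn : ‖z‖ = √(x ^ 2 + y ^ 2) := by
    rw [Complex.norm_def, Complex.normSq_mk]; congr 1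
    linear_combination (x ^ 2 + y ^ 2) * sin_sq_add_cos_sq t
  have h1 : ‖z‖ * cos z.arg = x * cos t + y * sin t := Complex.norm_mul_cos_arg z
  have h2 : ‖z‖ * sin z.arg = y * cos t - x * sin t := Complex.norm_mul_sin_arg z
  refine ⟨z.arg, ⟨(Complex.neg_pi_lt_arg z).le, Complex.arg_le_pi z⟩, ?_, ?_⟩
  · rw [← hn, cos_add]
    linear_combination (-cos t) * h1 + sin t * h2 - x * sin_sq_add_cos_sq t
  · rw [← hn, sin_add]
    linear_combination (-sin t) * h1 - cos t * h2 - y * sin_sq_add_cos_sq t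

def D (a b v c : ℝ) : Set (ℝ × ℝ × ℝ) := {z | z.1 ∈ Icc 0 1 ∧ z.2.1 ∈ Icc (-π) π ∧
  z.2.2 ∈ Icc (-π) π ∧ c ≤ a * √z.1 * cos z.2.1 + b * √(1 - z.1) * cos z.2.2 + v * z.1}

lemma cos_shrink {θ t : ℝ} (h : θ ∈ Icc (-π) π) (h0 : 0 ≤ t) (h1 : t ≤ 1) :
    t * θ ∈ Icc (-π) π ∧ cos θ ≤ cos (t * θ) := by
  have ha : |θ| ≤ π := abs_le.2 h
  have hb : |t * θ| ≤ |θ| := by rw [abs_mul, abs_of_nonneg h0]; nlinarith [abs_nonneg θ]
  refine ⟨abs_le.1 (hb.trans ha), ?_⟩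
  rw [← cos_abs θ, ← cos_abs (t * θ)]
  exact cos_le_cos_of_nonneg_of_le_pi (abs_nonneg _) ha hb

lemma D_pre {a b v c : ℝ} (ha : 0 ≤ a) (hb : 0 ≤ b) : IsPreconnected (D a b v c) := by
  rcases (D a b v c).eq_empty_or_nonempty with h | h
  · rw [h]; exact isPreconnected_empty
  have j1 : ∀ z ∈ D a b v c, JoinedIn (D a b v c) (z.1, 0, 0) z := by
    rintro ⟨s, θ, φ⟩ ⟨h1, h2, h3, h4⟩
    refine JoinedIn.of_segment_subset ?_
    rintro _ ⟨t', t, ht', ht, htt, rfl⟩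
    obtain ⟨a1, a2⟩ := cos_shrink h2 ht (by linarith)
    obtain ⟨b1, b2⟩ := cos_shrink h3 ht (by linarith)
    have e : t' * s + t * s = s := by rw [← add_mul, htt, one_mul]
    simp only [D, mem_ofPred_eq, Prod.smul_mk, smul_eq_mul, Prod.mk_add_mk, mul_zero, zero_add, e]
      at *
    refine ⟨h1, a1, b1, h4.trans ?_⟩
    gcongr
  refine (isPathConnected_iff.2 ⟨h, fun z hz w hw => (j1 z hz).symm.trans
    (JoinedIn.trans (JoinedIn.of_segment_subset ?_) (j1 w hw))⟩).isConnected.isPreconnected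
  have hz' := (j1 z hz).source_mem
  have hw' := (j1 w hw).source_mem
  rintro _ ⟨t, t', ht, ht', htt, rfl⟩
  simp only [D, mem_ofPred_eq, Prod.smul_mk, smul_eq_mul, Prod.mk_add_mk, mul_zero, add_zero,
    cos_zero, mul_one] at *
  have c1 := strictConcaveOn_sqrt.concaveOn.2 (x := z.1) (y := w.1) hz'.1.1 hw'.1.1 ht ht' htt
  have c2 := strictConcaveOn_sqrt.concaveOn.2 (x := 1 - z.1) (y := 1 - w.1)
    (sub_nonneg.2 hz'.1.2) (sub_nonneg.2 hw'.1.2) ht ht' htt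
  simp only [smul_eq_mul] at c1 c2
  rw [show t * (1 - z.1) + t' * (1 - w.1) = 1 - (t * z.1 + t' * w.1) by linear_combination htt]
    at c2
  refine ⟨convex_Icc (𝕜 := ℝ) 0 1 hz'.1 hw'.1 ht ht' htt, hz'.2.1, hz'.2.1, ?_⟩
  have d1 := mul_le_mul_of_nonneg_left c1 ha
  have d2 := mul_le_mul_of_nonneg_left c2 hb
  have d3 := mul_le_mul_of_nonneg_left hz'.2.2.2 ht
  have d4 := mul_le_mul_of_nonneg_left hw'.2.2.2 ht'
  have : c = t * c + t' * c := by rw [← add_mul, htt, one_mul]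
  nlinarith

def F (x : Fin 4 → ℝ) : Fin 5 → ℝ := ![x 0, x 1, x 2, x 3, x 0 ^ 2 + x 1 ^ 2]

lemma F_smooth : ContDiff ℝ ((⊤ : ℕ∞) : WithTop ℕ∞) F := by
  refine contDiff_pi.2 fun i => ?_
  fin_cases i <;> simp only [F] <;> simp <;> fun_prop

lemma tight (v : Fin 5 → ℝ) (c : ℝ) : IsPreconnected {x : Fin 4 → ℝ |
    ∑ i, x i ^ 2 = 1 ∧ c ≤ ∑ j, v j * F x j} := by
  obtain ⟨t, -, t0, t1⟩ := polar (v 0) (v 1) 0
  obtain ⟨u, -, u0, u1⟩ := polar (v 2) (v 3) 0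
  generalize ha : √(v 0 ^ 2 + v 1 ^ 2) = a at *
  generalize hb : √(v 2 ^ 2 + v 3 ^ 2) = b at *
  rw [zero_add] at t0 t1 u0 u1
  let G : ℝ × ℝ × ℝ → Fin 4 → ℝ := fun z => ![√z.1 * cos (t + z.2.1), √z.1 * sin (t + z.2.1),
    √(1 - z.1) * cos (u + z.2.2), √(1 - z.1) * sin (u + z.2.2)]
  have hG : Continuous G := by
    refine continuous_pi fun i => ?_
    fin_cases i <;> simp only [G] <;> simp <;> fun_prop
  have key : ∀ z : ℝ × ℝ × ℝ, z.1 ∈ Icc (0 : ℝ) 1 → ∑ i, G z i ^ 2 = 1 ∧ ∑ j, v j * F (G z) j =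
      a * √z.1 * cos z.2.1 + b * √(1 - z.1) * cos z.2.2 + v 4 * z.1 := by
    rintro ⟨s, θ, φ⟩ hs
    have e1 := sq_sqrt hs.1
    have e2 := sq_sqrt (sub_nonneg.2 hs.2)
    have e3 := sin_sq_add_cos_sq (t + θ)
    have e4 := sin_sq_add_cos_sq (u + φ)
    have e5 : cos θ = cos (t + θ) * cos t + sin (t + θ) * sin t := by rw [← cos_sub]; simp
    have e6 : cos φ = cos (u + φ) * cos u + sin (u + φ) * sin u := by rw [← cos_sub]; simp
    simp only [Fin.sum_univ_succ, G, F] at *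
    simp
    constructor
    · linear_combination √s ^ 2 * e3 + √(1 - s) ^ 2 * e4 + e1 + e2
    · rw [e5, e6]
      have t0' : v 0 = a * cos t := t0
      have t1' : v 1 = a * sin t := t1
      have u0' : v 2 = b * cos u := u0
      have u1' : v 3 = b * sin u := u1
      linear_combination (√s * cos (t + θ)) * t0' + (√s * sin (t + θ)) * t1'
        + (√(1 - s) * cos (u + φ)) * u0' + (√(1 - s) * sin (u + φ)) * u1'
        + v 4 * √s ^ 2 * e3 + v 4 * e1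
  convert (D_pre (a := a) (b := b) (v := v 4) (c := c) (ha ▸ sqrt_nonneg _)
    (hb ▸ sqrt_nonneg _)).image G hG.continuousOn
  ext x
  constructor
  · rintro ⟨h1, h2⟩
    obtain ⟨θ, hθ, x0, x1⟩ := polar (x 0) (x 1) t
    obtain ⟨φ, hφ, x2, x3⟩ := polar (x 2) (x 3) u
    have h1' : x 2 ^ 2 + x 3 ^ 2 = 1 - (x 0 ^ 2 + x 1 ^ 2) := by
      simp only [Fin.sum_univ_four] at h1; linarith
    have hs : x 0 ^ 2 + x 1 ^ 2 ∈ Icc (0 : ℝ) 1 :=
      ⟨by positivity, by nlinarith [sq_nonneg (x 2), sq_nonneg (x 3)]⟩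
    have hx : G (x 0 ^ 2 + x 1 ^ 2, θ, φ) = x := by
      rw [h1'] at x2 x3
      ext i; fin_cases i
      exacts [x0.symm, x1.symm, x2.symm, x3.symm]
    refine ⟨_, ⟨hs, hθ, hφ, ?_⟩, hx⟩
    rw [← (key _ hs).2, hx]; exact h2
  · rintro ⟨z, ⟨h1, -, -, h2⟩, rfl⟩
    exact ⟨(key z h1).1, (key z h1).2 ▸ h2⟩

/-- There is a smooth injective immersion of the unit 3-sphere into R^5 such that the preimage of every closed half-space is connected or empty, and whose image lies in no affine hyperplane. -/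
theorem result :
    ∃ f : (Fin 4 → ℝ) → (Fin 5 → ℝ),
      ContDiff ℝ ((⊤ : ℕ∞) : WithTop ℕ∞) f ∧
      Set.InjOn f {x : Fin 4 → ℝ | ∑ i, x i ^ 2 = 1} ∧
      (∀ x : Fin 4 → ℝ, ∑ i, x i ^ 2 = 1 →
        ∀ w : Fin 4 → ℝ, ∑ i, x i * w i = 0 → fderiv ℝ f x w = 0 → w = 0) ∧
      (∀ v : Fin 5 → ℝ, ∀ c : ℝ,
        IsPreconnected {x : Fin 4 → ℝ |
          ∑ i, x i ^ 2 = 1 ∧ c ≤ ∑ j, v j * f x j}) ∧
      ¬ ∃ v : Fin 5 → ℝ, v ≠ 0 ∧ ∃ c : ℝ,
        ∀ x : Fin 4 → ℝ, ∑ i, x i ^ 2 = 1 → ∑ j, v j * f x j = c := by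
  refine ⟨F, F_smooth, fun x _ y _ h => ?_, fun x _ w _ h => ?_, tight, ?_⟩
  · ext i
    have := congrFun h i.castSucc
    fin_cases i <;> exact this
  · ext i
    have hd := (F_smooth.differentiable (by simp) x).hasFDerivAt
    have h1 := hasFDerivAt_pi'.1 hd i.castSucc
    have h2 : (fun x => F x i.castSucc) = fun x => x i := by
      ext x; fin_cases i <;> rfl
    rw [h2] at h1
    have h3 := congrArg (· w) (h1.unique (hasFDerivAt_apply i x))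
    simpa [h] using h3.symm
  · rintro ⟨v, hv, c, h⟩
    have a0 := h ![1, 0, 0, 0] (by simp [Fin.sum_univ_four])
    have a1 := h ![-1, 0, 0, 0] (by simp [Fin.sum_univ_four])
    have a2 := h ![0, 1, 0, 0] (by simp [Fin.sum_univ_four])
    have a3 := h ![0, 0, 1, 0] (by simp [Fin.sum_univ_four])
    have a4 := h ![0, 0, -1, 0] (by simp [Fin.sum_univ_four])
    have a5 := h ![0, 0, 0, 1] (by simp [Fin.sum_univ_four])
    simp [Fin.sum_univ_five, F] at a0 a1 a2 a3 a4 a5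
    apply hv
    ext i; fin_cases i <;> simp <;> linarith

end Pool.Agent.S13655
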