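import Pool.Statements.S13670
import Pool.Agent.H83.Hg3

set_option autoImplicit false
open Pool Pool.MP_9f4369_gt

namespace Pool.Agent.S13670

open Pool.Agent.H83.Hg

def A : Type := Asub

noncomputable instance : CommRing A := inferInstanceAs (CommRing Asub)
noncomputable instance : Algebra ℝ A := inferInstanceAs (Algebra ℝ Asub)
noncomputable instance : Lattice A := Subtype.lattice (P := fun g => g ∈ Asub)
  (fun _ _ h1 h2 => mem_comp h1 h2 (fun p => max p.1 p.2) (by fun_prop))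
  (fun _ _ h1 h2 => mem_comp h1 h2 (fun p => min p.1 p.2) (by fun_prop))

noncomputable def evx (x : X) : A →+* ℝ := (Pi.evalRingHom (fun _ : X => ℝ) x).comp Asub.val.toRingHom

theorem le_pt {a b : A} (h : a ≤ b) (x : X) : a.1 x ≤ b.1 x := (show a.1 ≤ b.1 from h) x

theorem evx_surj (x : X) : Function.Surjective (evx x) := fun r => ⟨algebraMap ℝ Asub r, rfl⟩

theorem evx_max (x : X) : (RingHom.ker (evx x)).IsMaximal :=
  RingHom.ker_isMaximal_of_surjective _ (evx_surj x)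

theorem real_max (M : Ideal A) (φ : A ⧸ M ≃+* ℝ) :
    ∃ x, M = RingHom.ker (evx x) ∧ ∀ g, φ (Ideal.Quotient.mk M g) = g.1 x := by
  obtain ⟨x, hx⟩ := hom_eval ((φ : A ⧸ M →+* ℝ).comp (Ideal.Quotient.mk M))
  refine ⟨x, Ideal.ext fun g => ?_, hx⟩
  rw [RingHom.mem_ker, ← Ideal.Quotient.eq_zero_iff_mem, ← φ.map_eq_zero_iff]
  exact iff_of_eq (congrArg (· = 0) (hx g))

/-- The negation of the preceding statement: A Φ-algebra is an SI-algebra (real-valued, uniformly closed, closed under strong inversion) exactly when it is order-and-ring isomorphic to C(X) for some space X closed-embedded in a power of the reals. -/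
theorem result :
    ¬ (∀ (A : Type) [CommRing A] [Lattice A] [Algebra ℝ A],
    (∀ a b c : A, a ≤ b → a + c ≤ b + c) →
    (∀ a b : A, 0 ≤ a → 0 ≤ b → 0 ≤ a * b) →
    (∀ (r : ℝ) (a : A), 0 ≤ r → 0 ≤ a → 0 ≤ r • a) →
    (∀ a b : A, (∀ n : ℕ, n • a ≤ b) → a ≤ 0) →
    (0 : A) ≤ 1 →
    (∀ a : A, (1 : A) ⊓ |a| = 0 → a = 0) →
    (((∀ a : A, (∀ M : Ideal A, M.IsMaximal → Nonempty (A ⧸ M ≃+* ℝ) → a ∈ M) → a = 0) ∧
      (∀ (s : ℕ → A) (f : Ideal A → ℝ),
        (∀ ε : ℝ, 0 < ε → ∃ N : ℕ, ∀ n : ℕ, N ≤ n → ∀ M : Ideal A, M.IsMaximal →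
          ∀ φ : A ⧸ M ≃+* ℝ, |φ (Ideal.Quotient.mk M (s n)) - f M| ≤ ε) →
        ∃ a : A, ∀ M : Ideal A, M.IsMaximal →
          ∀ φ : A ⧸ M ≃+* ℝ, φ (Ideal.Quotient.mk M a) = f M) ∧
      (∀ D : Ideal A, (∀ a : A, (∀ d ∈ D, a * d = 0) → a = 0) →
        (∀ M : Ideal A, M.IsMaximal → Nonempty (A ⧸ M ≃+* ℝ) → ¬ D ≤ M) →
        ∀ φ : D →ₗ[A] A, ∃ c : A, ∀ d : D, φ d = c * (d : A)))
    ↔ ∃ (X : Type) (_ : TopologicalSpace X),
        (∃ (I : Type) (g : X → (I → ℝ)), Topology.IsClosedEmbedding g) ∧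
        Nonempty (A ≃+*o C(X, ℝ)))) := by
  intro H
  have hq : ∀ x, Nonempty (A ⧸ RingHom.ker (evx x) ≃+* ℝ) := fun x =>
    ⟨RingHom.quotientKerEquivOfSurjective (evx_surj x)⟩
  refine absurd ((H A
    (fun a b c h x => add_le_add (le_pt h x) (le_refl (c.1 x)))
    (fun a b h1 h2 x => mul_nonneg (le_pt h1 x) (le_pt h2 x))
    (fun r a h1 h2 x => mul_nonneg h1 (le_pt h2 x))
    (fun a b h x => by
      by_contra H
      have H' : 0 < a.1 x := not_le.1 H
      obtain ⟨n, hn⟩ := exists_nat_gt (b.1 x / a.1 x)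
      have h1 : (n : ℝ) * a.1 x ≤ b.1 x := by
        have := le_pt (h n) x
        have e : (n • a).1 x = (n : ℝ) * a.1 x := by
          change evx x (n • a) = n * evx x a
          rw [map_nsmul, nsmul_eq_mul]
        rwa [e] at this
      rw [div_lt_iff₀ H'] at hn
      linarith)
    (fun _ => zero_le_one (α := ℝ))
    (fun a h => Subtype.ext (funext fun x => by
      have : min (1 : ℝ) (max (a.1 x) (-a.1 x)) = 0 := congrFun (congrArg Subtype.val h) x
      change a.1 x = 0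
      rcases min_eq_iff.1 this with h | h
      · simp at h
      · exact abs_eq_zero.1 h.1))).1 ⟨?_, ?_, ?_⟩) fun ⟨Y, _, _, ⟨e⟩⟩ => not_iso Y e.toRingEquiv
  · exact fun a h => Subtype.ext (funext fun x => h _ (evx_max x) (hq x))
  · intro s f h
    refine ⟨⟨fun x => f (RingHom.ker (evx x)), mem_unif _ fun ε hε => ?_⟩, fun M _ φ => ?_⟩
    · obtain ⟨N, hN⟩ := h ε hε
      exact ⟨(s N).1, (s N).2, fun x => hN N le_rfl _ (evx_max x)
        (RingHom.quotientKerEquivOfSurjective (evx_surj x))⟩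
    · obtain ⟨x, h1, h2⟩ := real_max M φ
      rw [h2, h1]
  · intro J _ h φ
    have h1 : ∀ x, ∃ d : J, d.1.1 x ≠ 0 := fun x => by
      by_contra H
      push Not at H
      exact h _ (evx_max x) (hq x) fun d hd => H ⟨d, hd⟩
    choose d hd using h1
    have h2 : ∀ (u v : J) x, u.1.1 x * (φ v).1 x = v.1.1 x * (φ u).1 x := fun u v x => by
      have : u.1 • φ v = v.1 • φ u := by
        rw [← map_smul, ← map_smul]
        congr 1
        exact Subtype.ext (mul_comm _ _)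
      exact congrFun (congrArg Subtype.val this) x
    refine ⟨⟨fun x => (φ (d x)).1 x / (d x).1.1 x, mem_div _ fun b =>
      ⟨(φ (d (.inr b))).1, (d (.inr b)).1.1, (φ _).2, (d _).1.2, hd _, fun x hx => ?_⟩⟩,
      fun u => Subtype.ext (funext fun x => ?_)⟩
    · rw [div_eq_div_iff (hd x) hx, mul_comm, h2, mul_comm]
    · change (φ u).1 x = (φ (d x)).1 x / (d x).1.1 x * u.1.1 x
      have := hd x
      field_simp
      rw [mul_comm, h2, mul_comm]

end Pool.Agent.S13670
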