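import Pool.Statements.S13694
import Pool.Agent.H82.Scale

set_option autoImplicit false
open Pool Pool.MP_a33cdf_gt

namespace Pool.Agent.S13694

open Set Cardinal Order Filter Topology Pool.Agent.H82.LadA Pool.Agent.H82.Scale in
theorem result :
    ¬ (∀ (X : Type) [TopologicalSpace X] [T35Space X] (τ : Cardinal.{0}),
      (∀ Y : Set X, IsClosed Y → ∃ D ⊆ Y, Y ⊆ closure D ∧ Cardinal.mk ↥D ≤ τ) →
      ∀ Z : Set X, ∃ D ⊆ Z, Z ⊆ closure D ∧ Cardinal.mk ↥D ≤ τ) := by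
  classical
  intro H
  have h0 : ℵ₀ ≤ mu := (tw_inf 0).trans (tw_lt 0).le
  have hK := reg_toType (isRegular_succ h0)
  let K := (succ mu).ord.ToType
  obtain ⟨h, f, m, h1, inc, h2, h3, h4⟩ := scale (K := K) hK
  let p : K → ℕ → ℕ → K := fun β n j => if j < n then f β j else h j
  let U := {u : ℕ → K // ∀ j, u j < h j}
  let c : (ℕ → K) → U → Bool := fun x u => decide (∀ j, u.1 j ≤ x j)
  let X : Set (U → Bool) := c '' (range f ∪ {x | ∃ β n, x = p β n})
  let z : K → X := fun β => ⟨c (f β), _, Or.inl ⟨β, rfl⟩, rfl⟩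
  let q : K → ℕ → X := fun β n => ⟨c (p β n), _, Or.inr ⟨β, n, rfl⟩, rfl⟩
  let N : ℕ → Set ((ℕ → K) × ℕ) := fun j => {t | (∃ β, t.1 = p β t.2) ∧ t.2 ≤ j}
  have hN : ∀ j, #(N j) ≤ m j := fun j => by
    let V := ⋃ i ∈ Iio j, insert (h i) (Iio (h i))
    have hV : #V ≤ m j := lt_succ_iff.1 ((card_biUnion_lt_iff_forall_of_isRegular
      (t := fun i _ => insert (h i) (Iio (h i))) (isRegular_succ (h3 j).1)
      (lt_succ_iff.2 (mk_le_aleph0.trans (h3 j).1))).2 fun i hi => lt_succ_iff.2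
      (mk_insert_le.trans (add_le_of_le (h3 j).1 (h4 i j hi) (one_le_aleph0.trans (h3 j).1))))
    have h5 : ∀ (t : N j) (i : Fin j), t.1.1 i ∈ V := fun t i => mem_biUnion i.2 (by
      obtain ⟨β, hβ⟩ := t.2.1
      rw [hβ]
      simp only [p]
      split_ifs
      exacts [Or.inr (h1 _ _), Or.inl rfl])
    refine (mk_le_of_injective (f := fun t : N j => ((fun i => ⟨_, h5 t i⟩ : Fin j → V), t.1.2))
      fun t t' he => Subtype.ext (Prod.ext (funext fun i => ?_) (Prod.mk.inj he).2)).trans ?_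
    · by_cases hi : i < j
      · exact congrArg Subtype.val (congrFun (congrArg Prod.fst he) ⟨i, hi⟩)
      · obtain ⟨⟨β, a1⟩, a2⟩ := t.2
        obtain ⟨⟨β', a3⟩, a4⟩ := t'.2
        rw [a1, a3]
        simp only [p]
        rw [if_neg (by omega), if_neg (by omega)]
    · rw [mk_prod, lift_id, lift_id, ← power_def]
      exact mul_le_of_le (h3 j).1 ((power_le_power_right hV).trans (pow_le (h3 j).1
        (lt_aleph0_of_finite _))) (mk_le_aleph0.trans (h3 j).1)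
  refine (H X mu (fun Y hY => ?_) (range z)).elim fun D ⟨hD, h5, h6⟩ => ?_
  swap
  · choose b hb using fun d : D => hD d.2
    obtain ⟨γ, hγ⟩ := hK.bdd (mk_range_le.trans_lt (lt_succ_iff.2 h6) : #(range b) < _)
    have h7 : IsClosed {y : X | y.1 ⟨f γ, h1 γ⟩ = false} := isClosed_eq
      ((continuous_apply _).comp continuous_subtype_val) continuous_const
    have h8 := h7.closure_subset_iff.2 (fun d hd => by
      obtain ⟨j, hj⟩ := (inc _ _ (hγ _ ⟨⟨d, hd⟩, rfl⟩)).exists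
      have := hb ⟨d, hd⟩
      rw [← show z _ = d from this]
      exact decide_eq_false fun h8 => absurd (h8 j) (not_le.2 hj)) (h5 ⟨γ, rfl⟩)
    exact of_decide_eq_false h8 fun _ => le_rfl
  have h5 : ∀ t : (ℕ → K) × ℕ, ∃ u : U, (∃ β, z β ∈ Y ∧ (∀ j < t.2, f β j = t.1 j) ∧
      ∀ j, t.2 ≤ j → u.1 j ≤ f β j) → ∀ u : U, ∃ β, z β ∈ Y ∧ (∀ j < t.2, f β j = t.1 j) ∧
      ∀ j, t.2 ≤ j → u.1 j ≤ f β j := fun t => by
    by_cases h5 : ∀ u : U, ∃ β, z β ∈ Y ∧ (∀ j < t.2, f β j = t.1 j) ∧ ∀ j, t.2 ≤ j → u.1 j ≤ f β j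
    · exact ⟨⟨_, h1 (t.1 0)⟩, fun _ => h5⟩
    · obtain ⟨u, hu⟩ := not_forall.1 h5
      exact ⟨u, fun h => absurd h hu⟩
  choose w hw using h5
  choose g hg h5 using fun j => (h3 j).2.2 ((fun t => (w t).1 j) '' N j)
    (mk_image_le.trans (hN j)) (by rintro _ ⟨t, -, rfl⟩; exact (w t).2 j)
  obtain ⟨β0, h6⟩ := h2 g hg
  refine ⟨Y ∩ (z '' Iio β0 ∪ {y | ∃ β n, y = q β n}), inter_subset_left, ?_, ?_⟩
  · rintro ⟨_, _, ⟨β, rfl⟩ | ⟨β, n, rfl⟩, rfl⟩ hy
    swap
    · exact subset_closure ⟨hy, Or.inr ⟨β, n, rfl⟩⟩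
    by_cases hβ : β < β0
    · exact subset_closure ⟨hy, Or.inl ⟨β, hβ, rfl⟩⟩
    have h7 : Tendsto (q β) atTop (𝓝 (z β)) := by
      refine tendsto_subtype_rng.2 (tendsto_pi_nhds.2 fun u => tendsto_const_nhds.congr' ?_)
      by_cases hu : ∀ j, u.1 j ≤ f β j
      · refine Eventually.of_forall fun n => decide_eq_decide.2 (iff_of_true hu fun j => ?_)
        simp only [p]
        split_ifs
        exacts [hu j, (u.2 j).le]
      · obtain ⟨j, hj⟩ := not_forall.1 hu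
        exact (eventually_gt_atTop j).mono fun n hn => decide_eq_decide.2 (iff_of_false hu
          fun h7 => hj (by simpa only [p, if_pos hn] using h7 j))
    obtain ⟨n0, h8⟩ := eventually_atTop.1 (h6.and (inc_le inc (not_lt.1 hβ)))
    refine mem_closure_of_tendsto h7 ((eventually_ge_atTop n0).mono fun n hn =>
      ⟨?_, Or.inr ⟨β, n, rfl⟩⟩)
    have h9 := hw (p β n, n) ⟨β, hy, fun j hj => (if_pos hj).symm, fun j hj =>
      ((h5 j _ ⟨_, ⟨⟨β, rfl⟩, hj⟩, rfl⟩).trans ((h8 j (hn.trans hj)).1.trans_le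
      (h8 j (hn.trans hj)).2)).le⟩
    refine hY.closure_subset (closure_subtype.2 (mem_closure_iff_nhds.2 fun V hV => ?_))
    rw [nhds_pi, Filter.mem_pi] at hV
    obtain ⟨I, hI, V', h10, h11⟩ := hV
    have h12 : ∃ u : U, ∀ v ∈ I, ∀ j, v.1 j ≤ u.1 j := by
      clear h11
      induction I, hI using Set.Finite.induction_on with
      | empty => exact ⟨⟨_, h1 β⟩, by simp⟩
      | @insert v I _ _ ih =>
        obtain ⟨u, hu⟩ := ih
        refine ⟨⟨fun j => max (v.1 j) (u.1 j), fun j => max_lt (v.2 j) (u.2 j)⟩, ?_⟩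
        rintro v' (rfl | hv) j
        exacts [le_max_left _ _, le_max_of_le_right (hu _ hv j)]
    obtain ⟨u, hu⟩ := h12
    obtain ⟨β', h12, h13, h14⟩ := h9 u
    refine ⟨c (f β'), h11 fun v hv => ?_, z β', h12, rfl⟩
    suffices h15 : c (f β') v = c (p β n) v from h15 ▸ mem_of_mem_nhds (h10 v)
    refine decide_eq_decide.2 (forall_congr' fun j => ?_)
    by_cases hj : j < n
    · rw [h13 j hj]
    · exact iff_of_true ((hu v hv j).trans (h14 j (not_lt.1 hj)))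
        (by simpa only [p, if_neg hj] using (v.2 j).le)
  · refine (mk_le_mk_of_subset inter_subset_right).trans ((mk_union_le _ _).trans
      (add_le_of_le h0 (mk_image_le.trans (lt_succ_iff.1 (hK.iio _))) ?_))
    have h7 : #(⋃ j, N j) ≤ mu := mk_iUnion_le_sum_mk.trans ((sum_le_sum _ (fun _ => mu)
      fun j => (hN j).trans (h3 j).2.1).trans (by simp [mul_eq_right h0 h0 aleph0_ne_zero]))
    refine (mk_image_eq Subtype.val_injective).ge.trans ((mk_le_mk_of_subset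
      (t := (fun t => c t.1) '' ⋃ j, N j) ?_).trans (mk_image_le.trans h7))
    rintro _ ⟨_, ⟨β, n, rfl⟩, rfl⟩
    exact ⟨(p β n, n), mem_iUnion.2 ⟨n, ⟨β, rfl⟩, le_rfl⟩, rfl⟩

end Pool.Agent.S13694
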