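import Pool.Statements.S13696
import Pool.Agent.H82.PerfectL

set_option autoImplicit false
open Pool Pool.MP_a4908e_gt

namespace Pool.Agent.S13696

open Pool.Agent.H82.PerfectL in
theorem result :
    ¬ (∀ (X Y : Type) [TopologicalSpace X] [T35Space X] [TopologicalSpace Y] [T35Space Y],
      (∀ s : Set X, IsClosed s → IsGδ s) →
      (∃ T : {f : X → ℝ // Continuous f} ≃ₜ {g : Y → ℝ // Continuous g},
        ∀ (a : ℝ) (f g h : {f : X → ℝ // Continuous f}),
          h.1 = a • f.1 + g.1 → (T h).1 = a • (T f).1 + (T g).1) →
      ∀ s : Set Y, IsClosed s → IsGδ s) := by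
  intro H
  apply not_perfect2
  refine H (Sp L1) (Sp L2) (fun s _ => perfect1 s) ?_ _ isClosed_singleton
  refine ⟨{ toFun := fun f => ⟨sh (-1) f.1, cont12 f.2⟩
            invFun := fun g => ⟨sh 1 g.1, cont21 g.2⟩
            left_inv := fun f => Subtype.ext ?_
            right_inv := fun g => Subtype.ext (sh_sh 1 g.1)
            continuous_toFun := ((sh_continuous _).comp continuous_subtype_val).subtype_mk _
            continuous_invFun := ((sh_continuous _).comp continuous_subtype_val).subtype_mk _ },
    ?_⟩
  · have := sh_sh (-1) f.1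
    rw [neg_neg] at this
    exact this
  · intro a f g h hh
    change sh (-1) h.1 = a • sh (-1) f.1 + sh (-1) g.1
    rw [hh]
    exact sh_lin _ _ _ _

end Pool.Agent.S13696
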