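import Pool.Statements.S13705
import Pool.Agent.H15.TEmb8

set_option autoImplicit false
open Pool Pool.MP_a58584_gt

namespace Pool.Agent.S13705

/-- Every non-metrizable Tychonoff space X that is t-embedded (has a pointwise-continuous extender of continuous real functions) in every Tychonoff space containing it as a closed subspace contains a copy of the Cantor cube {0,1}^ω₁. -/
theorem result :
    ∀ (X : Type) [TopologicalSpace X] [T35Space X],
      (∀ (Z : Type) [TopologicalSpace Z] [T35Space Z] (e : X → Z),
        Topology.IsClosedEmbedding e →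
        ∃ φ : {f : X → ℝ // Continuous f} → {g : Z → ℝ // Continuous g},
          Continuous φ ∧ ∀ (f : {f : X → ℝ // Continuous f}) (x : X), (φ f).1 (e x) = f.1 x) →
      ¬ TopologicalSpace.MetrizableSpace X →
      ∀ (I : Type), Cardinal.mk I = Cardinal.aleph 1 →
        ∃ h : (I → Bool) → X, Topology.IsEmbedding h := by
  intro X _ _ h hn J hJ
  have h' : ∀ (Y : Type) [TopologicalSpace Y] [T35Space Y] (j : X → Y),
      Topology.IsClosedEmbedding j → Pool.Agent.H15.TEmb.TEmb j := by
    intro Y _ _ j hj
    obtain ⟨φ, h1, h2⟩ := h Y j hj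
    refine ⟨fun f => ⟨(φ ⟨f, f.continuous⟩).1, (φ ⟨f, f.continuous⟩).2⟩, ?_,
      fun f x => h2 ⟨f, f.continuous⟩ x⟩
    have h3 : @Continuous _ _ (Pool.Agent.H15.TEmb.cp X) _
        fun f : C(X, ℝ) => (⟨f, f.continuous⟩ : {f : X → ℝ // Continuous f}) :=
      continuous_induced_rng.2 continuous_induced_dom
    have h4 := @Continuous.comp _ _ _ (Pool.Agent.H15.TEmb.cp X) _ _ _ _
      (continuous_subtype_val.comp h1) h3
    exact continuous_induced_rng.2 h4
  have := Pool.Agent.H15.TEmb.compact_of_extral h'
  have h1 := Pool.Agent.H15.TEmb.cube_emb X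
  exact Pool.Agent.H15.TEmb.cube_of_temb _ h1.continuous (h' _ _ h1) hn hJ

end Pool.Agent.S13705
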