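import Pool.Statements.S13718
import Pool.Agent.H85.MWSym

set_option autoImplicit false
open Pool Pool.MP_a761c9_gt

namespace Pool.Agent.S13718

/-- The negation of the preceding statement: Let D map convex bodies (or compact convex sets) in R^n to H-symmetric ones. Suppose D is monotone, preserves mean width and fixes H-symmetric sets. Then D sends every translate K+x of an H-symmetric K, with x orthogonal to H, back to K. -/
theorem result :
    ¬ (∀ (n i : ℕ), i < n →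
  ∀ (H : Submodule ℝ (EuclideanSpace ℝ (Fin n))), Module.finrank ℝ H = i →
  ∀ (b : Bool) (D : Set (EuclideanSpace ℝ (Fin n)) → Set (EuclideanSpace ℝ (Fin n))),
  (∀ K : Set (EuclideanSpace ℝ (Fin n)),
      (IsCompact K ∧ Convex ℝ K ∧ K.Nonempty ∧ (b = true → (interior K).Nonempty)) →
      ((IsCompact (D K) ∧ Convex ℝ (D K) ∧ (D K).Nonempty ∧
          (b = true → (interior (D K)).Nonempty)) ∧
        (∀ x ∈ D K, ∀ y ∈ H, ∀ z ∈ Hᗮ, x = y + z → y - z ∈ D K))) →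
  (∀ K L : Set (EuclideanSpace ℝ (Fin n)),
      (IsCompact K ∧ Convex ℝ K ∧ K.Nonempty ∧ (b = true → (interior K).Nonempty)) →
      (IsCompact L ∧ Convex ℝ L ∧ L.Nonempty ∧ (b = true → (interior L).Nonempty)) →
      K ⊆ L → D K ⊆ D L) →
  (∀ K : Set (EuclideanSpace ℝ (Fin n)),
      (IsCompact K ∧ Convex ℝ K ∧ K.Nonempty ∧ (b = true → (interior K).Nonempty)) →
      (∫ v : EuclideanSpace ℝ (Fin n),
          sSup ((fun y : EuclideanSpace ℝ (Fin n) =>
              @inner ℝ (EuclideanSpace ℝ (Fin n)) _ y v) '' D K) * Real.exp (-‖v‖ ^ 2)) =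
        ∫ v : EuclideanSpace ℝ (Fin n),
          sSup ((fun y : EuclideanSpace ℝ (Fin n) =>
              @inner ℝ (EuclideanSpace ℝ (Fin n)) _ y v) '' K) * Real.exp (-‖v‖ ^ 2)) →
  (∀ K : Set (EuclideanSpace ℝ (Fin n)),
      (IsCompact K ∧ Convex ℝ K ∧ K.Nonempty ∧ (b = true → (interior K).Nonempty)) →
      (∀ x ∈ K, ∀ y ∈ H, ∀ z ∈ Hᗮ, x = y + z → y - z ∈ K) →
      D K = K) →
  ∀ K : Set (EuclideanSpace ℝ (Fin n)),
    (IsCompact K ∧ Convex ℝ K ∧ K.Nonempty ∧ (b = true → (interior K).Nonempty)) →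
    (∀ x ∈ K, ∀ y ∈ H, ∀ z ∈ Hᗮ, x = y + z → y - z ∈ K) →
    ∀ x ∈ Hᗮ, D ((fun y : EuclideanSpace ℝ (Fin n) => y + x) '' K) = K) := by
  intro h
  obtain ⟨x, hx⟩ := H85.MW.D_ball (n := 2) le_rfl
  have key : ∀ K : Set (EuclideanSpace ℝ (Fin 2)),
      (∀ x ∈ K, ∀ y ∈ (⊥ : Submodule ℝ (EuclideanSpace ℝ (Fin 2))),
        ∀ z ∈ (⊥ : Submodule ℝ (EuclideanSpace ℝ (Fin 2)))ᗮ, x = y + z → y - z ∈ K) ↔
        ∀ x ∈ K, -x ∈ K := fun K => by
    constructor
    · intro hK x hx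
      simpa using hK x hx 0 (Submodule.zero_mem _) x (by simp) (by simp)
    · intro hK x hx y hy z _ e
      rw [Submodule.mem_bot] at hy
      subst hy
      simpa [e] using hK x hx
  refine hx (h 2 0 (by norm_num) ⊥ (finrank_bot _ _) false H85.MW.D ?_ ?_ ?_ ?_
    (Metric.closedBall 0 1) ⟨isCompact_closedBall _ _, convex_closedBall _ _, by simp, by simp⟩
    ((key _).2 fun x hx => by simpa using hx) x (by simp))
  · exact fun K hK => ⟨H85.MW.D_cls (b := false) (by norm_num) hK,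
      (key _).2 fun x hx => H85.MW.D_neg hx⟩
  · exact fun K L hK hL hKL => H85.MW.D_mono hK.1 hK.2.1 hK.2.2.1 hL.1 hL.2.1 hKL
  · exact fun K hK => H85.MW.W_D hK.1 hK.2.1 hK.2.2.1
  · exact fun K hK hs => H85.MW.D_symm hK.1 hK.2.1 hK.2.2.1 ((key K).1 hs)

end Pool.Agent.S13718
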