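import Pool.Statements.S13724
import Pool.Agent.H83.SplitHom

set_option autoImplicit false
open Pool Pool.MP_a8721e_gt

namespace Pool.Agent.S13724

/-- The negation of the preceding statement: For every compact Hausdorff zero-dimensional homogeneous space X, for each pointwise neighborhood U of the identity there are finitely many continuous self-maps g such that every continuous self-map equals some g composed with a continuous map from U. -/
theorem result :
    ¬ (∀ (X : Type) [TopologicalSpace X], T2Space X → CompactSpace X →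
      TopologicalSpace.IsTopologicalBasis {s : Set X | IsClopen s} →
      (∀ x y : X, ∃ h : X ≃ₜ X, h x = y) →
      ∀ U : Set (X → X), U ∈ nhds (id : X → X) →
        ∃ F : Set (X → X), F.Finite ∧ (∀ g ∈ F, Continuous g) ∧
          ∀ f : X → X, Continuous f →
            ∃ g ∈ F, ∃ u ∈ U, Continuous u ∧ f = g ∘ u) := by
  intro H
  obtain ⟨B, h1, hB⟩ := Pool.Agent.H83.SplitGroup.exists_group
  obtain ⟨U, hU, h⟩ := Pool.Agent.H83.SplitHom.not_left (B := B) hB (o := ⟨1, h1⟩) rfl
  obtain ⟨F, hF1, hF2, hF3⟩ := H (Pool.Agent.H83.SplitSpace.I 0 (⟨1, h1⟩ : B)) inferInstance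
    inferInstance (Pool.Agent.H83.SplitHom.clopen_basis _ _)
    (Pool.Agent.H83.SplitHom.homogeneous hB) U hU
  obtain ⟨f, hf, hf'⟩ := h F hF1 hF2
  obtain ⟨g, hg, u, hu, huc, e⟩ := hF3 f hf
  exact hf' g hg u hu huc e

end Pool.Agent.S13724
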