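import Pool.Statements.S13736
import Pool.Agent.H81.Mink5

set_option autoImplicit false
open scoped Pointwise
open Pool Pool.MP_aac655_gt

namespace Pool.Agent.S13736

/-- The negation of the preceding statement: For n ≥ 2, if an irreducible continuous SL(n,ℝ)-representation W admits a nontrivial invariant Minkowski valuation on bodies with 0 inside that is upper semicontinuous but not continuous, then W is isomorphic to Sym^p V or Sym^p V* for some p. -/
theorem result :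
    ¬ (∀ (n : ℕ), 2 ≤ n → ∀ (m : ℕ)
    (ρ : Matrix.SpecialLinearGroup (Fin n) ℝ →* Matrix.GeneralLinearGroup (Fin m) ℝ),
    Continuous (fun A : {A : Matrix (Fin n) (Fin n) ℝ // A.det = 1} =>
      (ρ (⟨A.1, A.2⟩ : Matrix.SpecialLinearGroup (Fin n) ℝ)).val) →
    0 < m →
    (∀ U : Submodule ℝ (Fin m → ℝ),
      (∀ T : Matrix.SpecialLinearGroup (Fin n) ℝ, ∀ w ∈ U, Matrix.mulVec (ρ T).val w ∈ U) →
      U = ⊥ ∨ U = ⊤) →
    (∃ Φ : Set (Fin n → ℝ) → Set (Fin m → ℝ),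
      (∀ K : Set (Fin n → ℝ), IsCompact K → Convex ℝ K → (0 : Fin n → ℝ) ∈ interior K →
        (Φ K).Nonempty ∧ IsCompact (Φ K) ∧ Convex ℝ (Φ K)) ∧
      (∀ (T : Matrix.SpecialLinearGroup (Fin n) ℝ) (K : Set (Fin n → ℝ)),
        IsCompact K → Convex ℝ K → (0 : Fin n → ℝ) ∈ interior K →
        Matrix.mulVec (ρ T).val ''
          Φ (Matrix.mulVec ((T⁻¹ : Matrix.SpecialLinearGroup (Fin n) ℝ) :
              Matrix (Fin n) (Fin n) ℝ) '' K) = Φ K) ∧
      (∀ K L : Set (Fin n → ℝ),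
        IsCompact K → Convex ℝ K → (0 : Fin n → ℝ) ∈ interior K →
        IsCompact L → Convex ℝ L → (0 : Fin n → ℝ) ∈ interior L →
        Convex ℝ (K ∪ L) → Φ (K ∪ L) + Φ (K ∩ L) = Φ K + Φ L) ∧
      (∃ K : Set (Fin n → ℝ), IsCompact K ∧ Convex ℝ K ∧ (0 : Fin n → ℝ) ∈ interior K ∧
        Φ K ≠ {0}) ∧
      (∀ D : Set (Fin m → ℝ), IsCompact D → Convex ℝ D → (0 : Fin m → ℝ) ∈ interior D →
        ∀ (Ks : ℕ → Set (Fin n → ℝ)) (K : Set (Fin n → ℝ)),
          (∀ j, IsCompact (Ks j) ∧ Convex ℝ (Ks j) ∧ (0 : Fin n → ℝ) ∈ interior (Ks j)) →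
          IsCompact K → Convex ℝ K → (0 : Fin n → ℝ) ∈ interior K →
          Filter.Tendsto (fun j => Metric.hausdorffDist (Ks j) K) Filter.atTop (nhds 0) →
          ∃ j0 : ℕ, ∀ j, j0 ≤ j → Φ (Ks j) ⊆ Φ K + D) ∧
      ¬ (∀ (Ks : ℕ → Set (Fin n → ℝ)) (K : Set (Fin n → ℝ)),
          (∀ j, IsCompact (Ks j) ∧ Convex ℝ (Ks j) ∧ (0 : Fin n → ℝ) ∈ interior (Ks j)) →
          IsCompact K → Convex ℝ K → (0 : Fin n → ℝ) ∈ interior K →
          Filter.Tendsto (fun j => Metric.hausdorffDist (Ks j) K) Filter.atTop (nhds 0) →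
          Filter.Tendsto (fun j => Metric.hausdorffDist (Φ (Ks j)) (Φ K))
            Filter.atTop (nhds 0))) →
    ∃ p : ℕ,
      (∃ e : (Fin m → ℝ) ≃ₗ[ℝ] MvPolynomial.homogeneousSubmodule (Fin n) ℝ p,
        ∀ (T : Matrix.SpecialLinearGroup (Fin n) ℝ) (w : Fin m → ℝ),
          ((e (Matrix.mulVec (ρ T).val w) : MvPolynomial.homogeneousSubmodule (Fin n) ℝ p) :
              MvPolynomial (Fin n) ℝ) =
            MvPolynomial.bind₁
              (fun i : Fin n => (∑ j : Fin n,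
                MvPolynomial.C (((T : Matrix.SpecialLinearGroup (Fin n) ℝ) :
                  Matrix (Fin n) (Fin n) ℝ) j i) * MvPolynomial.X j : MvPolynomial (Fin n) ℝ))
              ((e w : MvPolynomial.homogeneousSubmodule (Fin n) ℝ p) : MvPolynomial (Fin n) ℝ)) ∨
      (∃ e : (Fin m → ℝ) ≃ₗ[ℝ] MvPolynomial.homogeneousSubmodule (Fin n) ℝ p,
        ∀ (T : Matrix.SpecialLinearGroup (Fin n) ℝ) (w : Fin m → ℝ),
          ((e (Matrix.mulVec (ρ T).val w) : MvPolynomial.homogeneousSubmodule (Fin n) ℝ p) :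
              MvPolynomial (Fin n) ℝ) =
            MvPolynomial.bind₁
              (fun i : Fin n => (∑ j : Fin n,
                MvPolynomial.C (((T⁻¹ : Matrix.SpecialLinearGroup (Fin n) ℝ) :
                  Matrix (Fin n) (Fin n) ℝ) i j) * MvPolynomial.X j : MvPolynomial (Fin n) ℝ))
              ((e w : MvPolynomial.homogeneousSubmodule (Fin n) ℝ p) : MvPolynomial (Fin n) ℝ))) := by
  intro h
  have key := Pool.Agent.H81.Mink.main (n := 3) (W := Fin 8 → ℝ) (by norm_num)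
    (fun T => LinearMap.toContinuousLinearMap (Pool.Agent.H81.Mink.sg T))
    (fun T x => by
      show (Pool.Agent.H81.Mink.sg T ∘ₗ Pool.Agent.H81.Mink.sg T⁻¹) x = x
      rw [← Pool.Agent.H81.Mink.sg_mul, mul_inv_cancel, Pool.Agent.H81.Mink.sg_one]
      rfl)
    (fun p => Pool.Agent.H81.Mink.enc (Pool.Agent.H81.Mink.wm p))
    (Pool.Agent.H81.Mink.enc.continuous_of_finiteDimensional.comp Pool.Agent.H81.Mink.wm_cont)
    (fun T x u => by
      show _ = Pool.Agent.H81.Mink.sg T _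
      rw [Pool.Agent.H81.Mink.sg_enc T (Pool.Agent.H81.Mink.wm_tr (by norm_num) _)]
      exact congrArg _ (Pool.Agent.H81.Mink.wm_eq (Pool.Agent.H81.Mink.m2 T) x u))
    (fun x u hx h0 => Pool.Agent.H81.Mink.wm_ne (by norm_num) hx (by
      rw [← Pool.Agent.H81.Mink.dec_enc (Pool.Agent.H81.Mink.wm_tr (n := 3) (by norm_num) (x, u))]
      have h1 : Pool.Agent.H81.Mink.enc (Pool.Agent.H81.Mink.wm (x, u)) = 0 := h0
      rw [h1, map_zero]))
  obtain ⟨Φ, h1, h2, h3, ⟨K, hK, h4⟩, h5, Ks, L, h6, h7, h8, h9⟩ := key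
  have := h 3 (by norm_num) 8 Pool.Agent.H81.Mink.rr Pool.Agent.H81.Mink.rr_cont (by norm_num)
    Pool.Agent.H81.Mink.irred
    ⟨Φ, fun K a b c => h1 K ⟨a, b, c⟩, fun T K a b c => by
        rw [← h2 T K ⟨a, b, c⟩]
        exact Set.image_congr fun v _ => Pool.Agent.H81.Mink.rr_mv T v,
      fun K L a b c d e f => h3 K L ⟨a, b, c⟩ ⟨d, e, f⟩, ⟨K, hK.cpt, hK.cvx, hK.int, h4⟩,
      fun D a b c Ks K d e f g => h5 D a b c Ks K (fun j => ⟨(d j).1, (d j).2.1, (d j).2.2⟩)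
        ⟨e, f, g⟩,
      fun hc => h9 (hc Ks L (fun j => ⟨(h6 j).cpt, (h6 j).cvx, (h6 j).int⟩) h7.cpt h7.cvx h7.int
        h8)⟩
  obtain ⟨p, ⟨e, -⟩ | ⟨e, -⟩⟩ := this
  all_goals
    apply Pool.Agent.H81.Mink.dim_ne p
    rw [← e.finrank_eq]
    simp

end Pool.Agent.S13736
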