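import Pool.Statements.S13747
import Pool.Agent.H82.PointFinite

set_option autoImplicit false
universe u
open Pool Pool.MP_acdd99_gt

namespace Pool.Agent.S13747

theorem result :
    ∀ (X : Type u) [TopologicalSpace X] [T35Space X] (ι : Type u) [Nonempty ι],
      sSup {c : Cardinal.{u} | ∃ 𝒰 : Set (Set {f : X → ℝ // Continuous f}),
          (∀ U ∈ 𝒰, IsOpen U ∧ U.Nonempty) ∧
          (∀ y : {f : X → ℝ // Continuous f}, {U | U ∈ 𝒰 ∧ y ∈ U}.Finite) ∧
          c = Cardinal.mk ↥𝒰}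
        =
      sSup {c : Cardinal.{u} | ∃ 𝒰 : Set (Set (ι → {f : X → ℝ // Continuous f})),
          (∀ U ∈ 𝒰, IsOpen U ∧ U.Nonempty) ∧
          (∀ y : ι → {f : X → ℝ // Continuous f}, {U | U ∈ 𝒰 ∧ y ∈ U}.Finite) ∧
          c = Cardinal.mk ↥𝒰} := by
  intro X _ _ ι _
  have hb1 : BddAbove {c : Cardinal.{u} | ∃ 𝒰 : Set (Set {f : X → ℝ // Continuous f}),
          (∀ U ∈ 𝒰, IsOpen U ∧ U.Nonempty) ∧
          (∀ y : {f : X → ℝ // Continuous f}, {U | U ∈ 𝒰 ∧ y ∈ U}.Finite) ∧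
          c = Cardinal.mk ↥𝒰} :=
    ⟨_, by rintro _ ⟨𝒰, _, _, rfl⟩; exact Cardinal.mk_set_le 𝒰⟩
  have hb2 : BddAbove {c : Cardinal.{u} | ∃ 𝒰 : Set (Set (ι → {f : X → ℝ // Continuous f})),
          (∀ U ∈ 𝒰, IsOpen U ∧ U.Nonempty) ∧
          (∀ y : ι → {f : X → ℝ // Continuous f}, {U | U ∈ 𝒰 ∧ y ∈ U}.Finite) ∧
          c = Cardinal.mk ↥𝒰} :=
    ⟨_, by rintro _ ⟨𝒰, _, _, rfl⟩; exact Cardinal.mk_set_le 𝒰⟩
  apply le_antisymm
  · apply csSup_le'
    rintro _ ⟨𝒰, h1, h2, rfl⟩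
    obtain ⟨i⟩ := ‹Nonempty ι›
    have hs : Function.Surjective (fun f : ι → {f : X → ℝ // Continuous f} => f i) :=
      fun g => ⟨fun _ => g, rfl⟩
    have hinj := Set.preimage_injective.2 hs
    refine le_csSup hb2 ⟨Set.preimage (fun f => f i) '' 𝒰, ?_, ?_,
      (Cardinal.mk_image_eq hinj).symm⟩
    · rintro _ ⟨U, hU, rfl⟩
      exact ⟨(h1 U hU).1.preimage (continuous_apply i), (h1 U hU).2.preimage hs⟩
    · intro y
      refine ((h2 (y i)).image (Set.preimage (fun f => f i))).subset ?_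
      rintro _ ⟨⟨U, hU, rfl⟩, hy⟩
      exact ⟨U, ⟨hU, hy⟩, rfl⟩
  · apply csSup_le'
    rintro _ ⟨𝒰, h1, h2, rfl⟩
    cases isEmpty_or_nonempty X with
    | inl hX =>
      have h3 : Cardinal.mk 𝒰 ≤ 1 := by
        rw [Cardinal.le_one_iff_subsingleton]
        refine ⟨fun U V => Subtype.ext ?_⟩
        have : ∀ W ∈ 𝒰, W = Set.univ := fun W hW => by
          obtain ⟨y, hy⟩ := (h1 W hW).2
          exact Set.eq_univ_of_forall fun z => (Subsingleton.elim y z) ▸ hy
        rw [this _ U.2, this _ V.2]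
      refine h3.trans (le_csSup hb1 ⟨{Set.univ}, ?_, ?_, by simp⟩)
      · rintro _ rfl
        exact ⟨isOpen_univ, ⟨fun _ => 0, continuous_const⟩, trivial⟩
      · intro y
        exact (Set.finite_singleton Set.univ).subset fun U hU => hU.1
    | inr hX =>
      obtain ⟨x⟩ := hX
      refine Pool.Agent.H82.PointFinite.main _ ?_
        (fun 𝒱 a b => le_csSup hb1 ⟨𝒱, a, b, rfl⟩) 𝒰 h1 h2
      let W : ℕ → Set {f : X → ℝ // Continuous f} := fun n => {f | |f.1 x - n| < 1 / 3}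
      have hW : ∀ n m f, f ∈ W n → f ∈ W m → n = m := by
        intro n m f hn hm
        have a1 := abs_lt.1 (show |f.1 x - n| < 1 / 3 from hn)
        have a2 := abs_lt.1 (show |f.1 x - m| < 1 / 3 from hm)
        have b1 : (n : ℝ) < m + 1 := by linarith
        have b2 : (m : ℝ) < n + 1 := by linarith
        have c1 : n < m + 1 := by exact_mod_cast b1
        have c2 : m < n + 1 := by exact_mod_cast b2
        omega
      have hWn : ∀ n : ℕ, (⟨fun _ => (n : ℝ), continuous_const⟩ : {f : X → ℝ // Continuous f}) ∈ W n :=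
        fun n => by simp [W]
      have hinj : Function.Injective W := fun n m e => hW n m _ (hWn n) (e ▸ hWn n)
      refine le_trans ?_ (le_csSup hb1 ⟨Set.range W, ?_, ?_, rfl⟩)
      · exact Cardinal.infinite_iff.1 (Set.infinite_range_of_injective hinj).to_subtype
      · rintro _ ⟨n, rfl⟩
        refine ⟨isOpen_lt ?_ continuous_const, _, hWn n⟩
        exact (((continuous_apply x).comp continuous_subtype_val).sub continuous_const).abs
      · intro y
        refine Set.Subsingleton.finite ?_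
        rintro _ ⟨⟨n, rfl⟩, hn⟩ _ ⟨⟨m, rfl⟩, hm⟩
        rw [hW n m y hn hm]

end Pool.Agent.S13747
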