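import Pool.Statements.S13749
import Pool.Agent.H33.DupB

set_option autoImplicit false
open TopologicalSpace
open Pool Pool.MP_acff2a_gt

namespace Pool.Agent.S13749

/-- There is a compact Hausdorff, first countable, non-metrizable space X such that every point-finite family of nonempty open sets in C_p(X) (continuous real functions, pointwise topology) is countable. -/
theorem result :
    ∃ (X : Type) (t : TopologicalSpace X),
      CompactSpace X ∧ T2Space X ∧ FirstCountableTopology X ∧
      ¬ MetrizableSpace X ∧
      ∀ F : Set (Set C(X, ℝ)),
        (∀ U ∈ F,
          @IsOpen C(X, ℝ)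
            (TopologicalSpace.induced (fun f : C(X, ℝ) => (f : X → ℝ)) inferInstance) U
          ∧ U.Nonempty) →
        (∀ f : C(X, ℝ), {U | U ∈ F ∧ f ∈ U}.Finite) →
        F.Countable := by
  exact Pool.Agent.H33.DupB.main

end Pool.Agent.S13749
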