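import Pool.Statements.S13752
import Pool.Agent.H58.ProdTri
import Pool.Agent.H58.Stein4

set_option autoImplicit false
open Pointwise
open Pool Pool.MP_ad59b4_gt

namespace Pool.Agent.S13752

open Pool.Agent.H58.FirstVar Pool.Agent.H58.Stein MeasureTheory Set Filter Topology Module Metric
open scoped RealInnerProductSpace

lemma brP {ι : Type} [Fintype ι] [DecidableEq ι] (n : ι → E4 →L[ℝ] ℝ) (h w : ι → ℝ)
    (fin : ∀ k, volume (P n k) ≠ ⊤) (hK : IsCompact (P n h))
    (hV : ∀ v : ι → ℝ, HasDerivAt (fun t : ℝ => (volume (P n (h + t • v))).toReal) (∑ i, w i * v i) 0)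
    {u : E4} (hu : ‖u‖ = 1) :
    volume.real (cyl u (pr u '' P n h) 0 1) = ∑ i, w i * max 0 (n i u) := by
  have a := firstVar n h w fin hV (L := (· • u) '' Icc (0 : ℝ) 1) (isCompact_Icc.image (by fun_prop))
    ((nonempty_Icc.2 zero_le_one).image _)
  have b : HasDerivWithinAt (fun t : ℝ => (volume (P n h + t • (· • u) '' Icc (0 : ℝ) 1)).toReal)
      (volume.real (cyl u (pr u '' P n h) 0 1)) (Ici 0) 0 := by
    have k : ∀ t ∈ Ici (0 : ℝ), (volume (P n h + t • (· • u) '' Icc (0 : ℝ) 1)).toReal =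
        volume.real (P n h) + t * volume.real (cyl u (pr u '' P n h) 0 1) := fun t ht => by
      rw [← bright volume hu hK (P_convex _ _) ht, cyl, ← image_smul, image_image]
      congr 3
      rw [show Icc 0 t = (t * ·) '' Icc 0 1 by rw [image_mul_left_Icc ht zero_le_one]; simp,
        image_image]
      simp [smul_smul]
    exact (lin _ _).hasDerivWithinAt.congr k (k 0 self_mem_Ici)
  rw [(uniqueDiffWithinAt_Ici 0).eq_deriv _ b a]
  congr 1; ext i; congr 1
  refine IsGreatest.csSup_eq ⟨?_, ?_⟩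
  · rcases le_total 0 (n i u) with h | h
    · exact ⟨_, ⟨1, by simp, rfl⟩, by simp [h]⟩
    · exact ⟨_, ⟨0, by simp, rfl⟩, by simp [h]⟩
  · rintro _ ⟨_, ⟨s, hs, rfl⟩, rfl⟩
    simp only [map_smul, smul_eq_mul]
    nlinarith [le_max_left 0 (n i u), le_max_right 0 (n i u), hs.1, hs.2]

lemma unit (S : Submodule ℝ E4) (h : finrank ℝ S = 3) : ∃ u : E4, ‖u‖ = 1 ∧ ∀ K : Set E4,
    {y | y ∈ S ∧ ∃ x ∈ K, x - y ∈ Sᗮ} = pr u '' K := by
  have h1 : finrank ℝ Sᗮ = 1 := by
    have := S.finrank_add_finrank_orthogonal; simp [h] at this; omega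
  have : Nontrivial Sᗮ := nontrivial_of_finrank_pos (R := ℝ) (by omega)
  obtain ⟨u, hu⟩ := exists_norm_eq (Sᗮ : Submodule ℝ E4) zero_le_one
  have e : Sᗮ = ℝ ∙ (u : E4) := (Submodule.eq_of_le_of_finrank_eq
    ((Submodule.span_singleton_le_iff_mem _ _).2 u.2) (by
      rw [h1, finrank_span_singleton]; rintro h; rw [← Submodule.norm_coe, h] at hu; simp at hu)).symm
  have e' : S = (ℝ ∙ (u : E4))ᗮ := by rw [← e, Submodule.orthogonal_orthogonal]
  have hu' : ‖(u : E4)‖ = 1 := hu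
  refine ⟨u, hu, fun K => ?_⟩
  generalize (u : E4) = u at *
  ext y
  simp only [mem_ofPred_eq, e, Submodule.mem_span_singleton]
  rw [e', Submodule.mem_orthogonal_singleton_iff_inner_right]
  constructor
  · rintro ⟨h, x, hx, s, e⟩
    refine ⟨x, hx, ?_⟩
    rw [show x = y + s • u by rw [e]; simp]
    simp [pr_app, inner_add_right, inner_smul_right, h, hu']
  · rintro ⟨x, hx, rfl⟩
    exact ⟨pr_orth hu' K _ ⟨x, hx, rfl⟩, x, hx, ⟪u, x⟫, by simp [pr_app]⟩

lemma full {Q : Set E4} (hQ : IsCompact Q) {c : ℕ → ℝ} (hc : Poly volume Q c) (t : ℝ) (ht : 0 ≤ t) :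
    volume (Q + closedBall 0 t) = ENNReal.ofReal (∑ m ∈ Finset.range (4 + 1), c m * t ^ m) := by
  rw [← ofReal_measureReal (hQ.add (isCompact_closedBall 0 t)).measure_ne_top]
  congr 1
  rcases ht.eq_or_lt with rfl | ht
  · simp [c0_eq volume hQ hc, Finset.sum_range_succ]
  · exact hc t ht

lemma rk {K : Set E4} (h : (interior K).Nonempty) : 3 + 1 ≤ finrank ℝ (vectorSpan ℝ K) := by
  have : affineSpan ℝ K = ⊤ :=
    top_unique ((isOpen_interior.affineSpan_eq_top h).ge.trans (affineSpan_mono _ interior_subset))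
  rw [← direction_affineSpan, this, AffineSubspace.direction_top]; simp

/-- The negation of the preceding statement: For convex bodies K1, K2 in R^n of dimension at least k+1, K2 centrally symmetric: if the i-th and j-th intrinsic volumes (via Steiner coefficients) of all k-dim projections are proportional with fixed constants, then K1 is a positive homothet of K2. -/
theorem result :
    ¬ (∀ (n k i j : ℕ), 1 ≤ k → k ≤ n - 1 → 1 ≤ i → i ≤ k → 1 ≤ j → j ≤ k → i ≠ j →
  ∀ (K₁ K₂ : Set (EuclideanSpace ℝ (Fin n))),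
    IsCompact K₁ → Convex ℝ K₁ → k + 1 ≤ Module.finrank ℝ (vectorSpan ℝ K₁) →
    IsCompact K₂ → Convex ℝ K₂ → k + 1 ≤ Module.finrank ℝ (vectorSpan ℝ K₂) →
    (∃ c : EuclideanSpace ℝ (Fin n), ∀ x ∈ K₂, (2 : ℝ) • c - x ∈ K₂) →
    ∀ a b : ℝ,
    (∀ S : Submodule ℝ (EuclideanSpace ℝ (Fin n)), Module.finrank ℝ S = k →
      ∃ c₁ c₂ : ℕ → ℝ,
        (∀ t : ℝ, 0 ≤ t →
          MeasureTheory.volume
            ({y : EuclideanSpace ℝ (Fin n) | y ∈ S ∧ ∃ x ∈ K₁, x - y ∈ Sᗮ}
              + Metric.closedBall (0 : EuclideanSpace ℝ (Fin n)) t)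
            = ENNReal.ofReal (∑ m ∈ Finset.range (n + 1), c₁ m * t ^ m)) ∧
        (∀ t : ℝ, 0 ≤ t →
          MeasureTheory.volume
            ({y : EuclideanSpace ℝ (Fin n) | y ∈ S ∧ ∃ x ∈ K₂, x - y ∈ Sᗮ}
              + Metric.closedBall (0 : EuclideanSpace ℝ (Fin n)) t)
            = ENNReal.ofReal (∑ m ∈ Finset.range (n + 1), c₂ m * t ^ m)) ∧
        c₁ (n - i) = a * c₂ (n - i) ∧
        c₁ (n - j) = b * c₂ (n - j)) →
    ∃ r : ℝ, 0 < r ∧ ∃ v : EuclideanSpace ℝ (Fin n),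
      K₁ = (fun x => r • x + v) '' K₂) := by
  classical
  intro H
  have sub : ∀ k : Fin 6 ⊕ Fin 6 → ℝ, P (Sum.elim M (-M)) k ⊆ P M (k ∘ .inl) :=
    fun k x h i => h (.inl i)
  have c2 : IsCompact (P (Sum.elim M (-M)) fun _ => 1) :=
    (cptM _).of_isClosed_subset (P_closed _ _) (sub _)
  obtain ⟨r, hr, v, hv⟩ := H 4 3 1 3 (by norm_num) (by norm_num) le_rfl (by norm_num) (by norm_num)
    le_rfl (by norm_num) (P M k0) (P (Sum.elim M (-M)) fun _ => 1) (cptM _) (P_convex _ _)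
    (rk (P_int _ _ !₂[1 / 4, 1 / 4, 1 / 4, 1 / 4] fun i => by
      fin_cases i <;> simp [M, k0] <;> norm_num)) c2 (P_convex _ _)
    (rk (P_int _ _ 0 fun i => by simp)) ⟨0, fun x => by simp [P, and_comm]⟩ (1 / 2) (1 / 12)
    (fun S hS => by
      obtain ⟨u, hu, e⟩ := unit S hS
      have st : ∀ V : Finset E4, ∃ c, Poly volume (pr u '' convexHull ℝ (V : Set E4)) c := fun V => by
        obtain ⟨c, hc⟩ := steiner volume (V.image (pr u))
        refine ⟨c, fun t ht => ?_⟩
        rw [← ContinuousLinearMap.coe_coe, LinearMap.image_convexHull]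
        simpa using hc t ht
      obtain ⟨V, hV⟩ : ∃ V : Finset E4, P M k0 = convexHull ℝ (V : Set E4) := ⟨_, hullK⟩
      obtain ⟨c, hc⟩ := st V
      obtain ⟨d, hd⟩ := st (V + -V)
      rw [Finset.coe_add, Finset.coe_neg, convexHull_add, convexHull_neg, ← hV] at hd
      rw [← hV] at hc
      have q1 := (cptM k0).image (pr u).continuous
      have q2 := c2.image (pr u).continuous
      have hd' := hd
      rw [image_add, image_neg] at hd'
      rw [diffK] at hd
      rw [e, e]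
      refine ⟨c, d, full q1 hc, full q2 hd, c3_half volume (by simp) q1
        ⟨_, 0, by simp [PM, tri, k0], rfl⟩ hc hd', ?_⟩
      rw [c1_eq volume hu q1 (pr_orth hu _) hc, c1_eq volume hu q2 (pr_orth hu _) hd,
        brP _ _ _ finM (cptM _) dM hu,
        brP _ _ _ (fun k => ne_top_of_le_ne_top (finM _) (measure_mono (sub k))) c2 dB hu]
      have m : ∀ i, max 0 ((-M) i u) = max 0 (M i u) - M i u := fun i => by
        rcases le_total 0 (M i u) with h | h <;> simp [h]
      have z : ∑ i, M i u = 0 := by simp [M, Fin.sum_univ_six]; ring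
      simp only [Fintype.sum_sum_type, Sum.elim_inl, Sum.elim_inr, ← Finset.mul_sum, m,
        Finset.sum_sub_distrib, z]
      ring)
  have hc : ∀ y ∈ P M k0, (2 : ℝ) • v - y ∈ P M k0 := by
    rw [hv]
    rintro _ ⟨x, hx, rfl⟩
    exact ⟨-x, by simpa [P, and_comm] using hx, by beta_reduce; module⟩
  have a := hc 0 (by simp [PM, tri, k0])
  have b := hc !₂[1, 0, 0, 0] (by simp [PM, tri, k0])
  have d := hc !₂[0, 1, 0, 0] (by simp [PM, tri, k0])
  simp [PM, tri, k0] at a b d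
  linarith

end Pool.Agent.S13752
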