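import Pool.Statements.S13754
import Pool.Agent.H21.OrthoT2

set_option autoImplicit false
open Pool Pool.MP_adc54a_gt

namespace Pool.Agent.S13754

/-- The negation of the preceding statement: If f is a continuous closed surjection with finite fibers from X onto Y, and every open cover of X has an open refinement whose subfamilies all have open intersection, then the same holds for Y. -/
theorem result :
    ¬ (∀ (X Y : Type) [TopologicalSpace X] [TopologicalSpace Y] (f : X → Y),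
      Continuous f → IsClosedMap f → Function.Surjective f →
      (∀ y : Y, (f ⁻¹' {y}).Finite) →
      (∀ 𝒰 : Set (Set X), (∀ u ∈ 𝒰, IsOpen u) → ⋃₀ 𝒰 = Set.univ →
        ∃ 𝒱 : Set (Set X), (∀ v ∈ 𝒱, IsOpen v) ∧ ⋃₀ 𝒱 = Set.univ ∧
          (∀ v ∈ 𝒱, ∃ u ∈ 𝒰, v ⊆ u) ∧ (∀ 𝒲 ⊆ 𝒱, IsOpen (⋂₀ 𝒲))) →
      (∀ 𝒰 : Set (Set Y), (∀ u ∈ 𝒰, IsOpen u) → ⋃₀ 𝒰 = Set.univ →
        ∃ 𝒱 : Set (Set Y), (∀ v ∈ 𝒱, IsOpen v) ∧ ⋃₀ 𝒱 = Set.univ ∧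
          (∀ v ∈ 𝒱, ∃ u ∈ 𝒰, v ⊆ u) ∧ (∀ 𝒲 ⊆ 𝒱, IsOpen (⋂₀ 𝒲)))) := by
  intro H
  exact Pool.Agent.H21.OrthoT.not_ortho_Y
    (H _ _ Pool.Agent.H21.OrthoT.f Pool.Agent.H21.OrthoT.f_cont
      Pool.Agent.H21.OrthoT.f_closed Pool.Agent.H21.OrthoT.f_surj
      Pool.Agent.H21.OrthoT.f_fin Pool.Agent.H21.OrthoT.ortho_X)

end Pool.Agent.S13754
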