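import Pool.Statements.S13772
import Pool.Agent.H33.HubCurve

set_option autoImplicit false
open Pool Pool.MP_b1ea19_gt

namespace Pool.Agent.S13772
open Pool.Agent.H33.HubCurve Set Real

abbrev Y : Type := S

instance : CompactSpace Y := isCompact_iff_compactSpace.1 S_compact

lemma cx : Continuous (fun p : Y => p.1.1) := by fun_prop
lemma cy : Continuous (fun p : Y => p.1.2) := by fun_prop

lemma y_eq (p : Y) (h : 0 < p.1.1) : p.1.2 = cos (π / p.1.1) :=
  mul_left_cancel₀ h.ne' p.2.2.2.2.2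

lemma ext_pos {p q : Y} (h : 0 < p.1.1) (e : p.1.1 = q.1.1) : p = q :=
  Subtype.ext (Prod.ext e (by rw [y_eq p h, y_eq q (e ▸ h), e]))

noncomputable def g (x : ℝ) : Y :=
  ⟨(max 0 (min x 1), cos (π / max 0 (min x 1))), le_max_left _ _,
    max_le zero_le_one (min_le_right _ _), neg_one_le_cos _, cos_le_one _, rfl⟩

lemma g_fst {x : ℝ} (h0 : 0 ≤ x) (h1 : x ≤ 1) : (g x).1.1 = x := by
  simp [g, h0, h1]

lemma g_cont : ContinuousOn g (Ioi 0) := by
  rw [Topology.IsInducing.subtypeVal.continuousOn_iff]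
  refine ContinuousOn.prodMk (by fun_prop) (continuous_cos.comp_continuousOn ?_)
  refine continuousOn_const.div (by fun_prop) (fun x hx => ?_)
  exact (lt_max_of_lt_right (lt_min hx zero_lt_one)).ne'

noncomputable def v (y : ℝ) : Y :=
  ⟨(0, max (-1) (min y 1)), le_rfl, zero_le_one, le_max_left _ _,
    max_le (by norm_num) (min_le_right _ _), by simp⟩

lemma v_cont : Continuous v := Continuous.subtype_mk (by fun_prop) _

lemma bar_closure (b : ℝ) (hb : 0 < b) (p : Y) (hp : p.1.1 = 0) : p ∈ closure (g '' Ioo 0 b) := by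
  let x : ℕ → ℝ := fun n => π / (arccos p.1.2 + (n + 1 : ℕ) * (2 * π))
  have a0 := arccos_nonneg p.1.2
  have pos : ∀ n : ℕ, π ≤ arccos p.1.2 + (n + 1 : ℕ) * (2 * π) := by
    intro n
    push_cast
    have : (0 : ℝ) ≤ n := Nat.cast_nonneg n
    nlinarith [pi_pos]
  have x0 : ∀ n, 0 < x n := fun n => div_pos pi_pos (pi_pos.trans_le (pos n))
  have x1 : ∀ n, x n ≤ 1 := fun n => (div_le_one (pi_pos.trans_le (pos n))).2 (pos n)
  have hx : Filter.Tendsto x Filter.atTop (nhds 0) := by
    refine Filter.Tendsto.div_atTop tendsto_const_nhds ?_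
    refine Filter.tendsto_atTop_add_const_left _ _ ?_
    refine Filter.Tendsto.atTop_mul_const (by positivity) ?_
    exact tendsto_natCast_atTop_atTop.comp (Filter.tendsto_add_atTop_nat 1)
  refine mem_closure_of_tendsto (f := fun n => g (x n)) (b := Filter.atTop) ?_ ?_
  · rw [Topology.IsInducing.subtypeVal.tendsto_nhds_iff]
    have : (Subtype.val ∘ fun n => g (x n)) = fun n => (x n, p.1.2) := by
      funext n
      refine Prod.ext (g_fst (x0 n).le (x1 n)) ?_
      change (g (x n)).1.2 = p.1.2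
      rw [y_eq _ (by rw [g_fst (x0 n).le (x1 n)]; exact x0 n), g_fst (x0 n).le (x1 n)]
      simp only [x]
      rw [div_div_cancel₀ pi_pos.ne', cos_add_nat_mul_two_pi,
        cos_arccos p.2.2.2.1 p.2.2.2.2.1]
    rw [this]
    have h2 : p.1 = (0, p.1.2) := Prod.ext hp rfl
    rw [h2]
    exact hx.prodMk_nhds tendsto_const_nhds
  · filter_upwards [hx.eventually (gt_mem_nhds hb)] with n hn
    exact ⟨x n, ⟨x0 n, hn⟩, rfl⟩

lemma graph_closure (a b : ℝ) (ha : 0 ≤ a) (hab : a < b) (p : Y) (h1 : a ≤ p.1.1)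
    (h2 : p.1.1 ≤ b) : p ∈ closure (g '' Ioo a b) := by
  rcases p.2.1.eq_or_lt with h | h
  · have : a = 0 := by linarith
    subst this
    exact bar_closure b hab p h.symm
  · have e : g p.1.1 = p := (ext_pos h (g_fst p.2.1 p.2.2.1).symm).symm
    rw [← e]
    refine ((g_cont.continuousAt (Ioi_mem_nhds h)).continuousWithinAt).mem_closure_image ?_
    rw [closure_Ioo hab.ne]
    exact ⟨h1, h2⟩

lemma graph_pre (a b : ℝ) (ha : 0 ≤ a) : IsPreconnected (g '' Ioo a b) :=
  isPreconnected_Ioo.image g (g_cont.mono (fun _ hx => ha.trans_lt hx.1))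

instance : ConnectedSpace Y := by
  rw [connectedSpace_iff_univ]
  refine ⟨⟨v 0, trivial⟩, (graph_pre 0 1 le_rfl).subset_closure (subset_univ _) ?_⟩
  exact fun p _ => graph_closure 0 1 le_rfl zero_lt_one p p.2.1 p.2.2.1

lemma sep (C : Set Y) (hC : IsConnected C) (f : Y → ℝ) (hf : Continuous f) (p q r : Y)
    (hp : p ∈ C) (hq : q ∈ C) (hr : r ∈ C) (h1 : f q < f p) (h2 : f p < f r)
    (hu : ∀ z ∈ C, f z = f p → z = p) :
    ∃ V : Set Y, IsOpen V ∧ p ∈ V ∧ ¬ IsPreconnected (connectedComponentIn (V ∩ C) p \ {p}) := by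
  refine ⟨univ, isOpen_univ, trivial, fun h => ?_⟩
  rw [univ_inter, hC.isPreconnected.connectedComponentIn hp] at h
  obtain ⟨z, hz, hz'⟩ := h.intermediate_value (a := q) (b := r)
    ⟨hq, fun e => h1.ne (congrArg f e)⟩ ⟨hr, fun e => h2.ne' (congrArg f e)⟩ hf.continuousOn
    ⟨h1.le, h2.le⟩
  exact hz.2 (hu z hz.1 hz')

lemma no_path (f : unitInterval → Y) (hf : Continuous f) (h0 : (f 0).1.1 = 0) :
    (f 1).1.1 = 0 := by
  have hcl : IsClopen {t | (f t).1.1 = 0} := by
    refine ⟨isClosed_eq (cx.comp hf) continuous_const, ?_⟩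
    rw [Metric.isOpen_iff]
    intro t0 ht0
    obtain ⟨δ, hδ, h⟩ := Metric.continuous_iff.1 (cy.comp hf) t0 1 zero_lt_one
    refine ⟨δ, hδ, fun t ht => ?_⟩
    by_contra hne
    have hpos : 0 < (f t).1.1 := lt_of_le_of_ne (f t).2.1 (Ne.symm hne)
    obtain ⟨k, hk⟩ := exists_nat_gt (1 / (f t).1.1)
    have hpre : IsPreconnected (Metric.ball t0 δ) := by
      rw [← Topology.IsInducing.subtypeVal.isPreconnected_image]
      have : Subtype.val '' Metric.ball t0 δ = Metric.ball (t0 : ℝ) δ ∩ Icc 0 1 := by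
        ext s
        exact ⟨fun ⟨w, hw, e⟩ => e ▸ ⟨hw, w.2⟩, fun hs => ⟨⟨s, hs.2⟩, hs.1, rfl⟩⟩
      rw [this]
      exact ((convex_ball _ _).inter (convex_Icc _ _)).isPreconnected
    have hiv := hpre.intermediate_value (Metric.mem_ball_self hδ) ht (cx.comp hf).continuousOn
    have k0 : (0 : ℝ) < k := lt_trans (by positivity) hk
    have key : ∀ m : ℕ, k ≤ m → |(-1) ^ m - (f t0).1.2| < 1 := by
      intro m hm
      have m0 : (k : ℝ) ≤ m := by exact_mod_cast hm
      obtain ⟨s, hs, hs'⟩ := hiv (a := 1 / (m : ℝ)) ⟨by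
        simp only [Function.comp]; rw [ht0]; positivity, by
        simp only [Function.comp]
        rw [div_le_iff₀ (by linarith)]
        rw [div_lt_iff₀ hpos] at hk
        nlinarith⟩
      have h3 := h s hs
      simp only [Function.comp] at hs' h3
      rw [Real.dist_eq, y_eq _ (by rw [hs']; exact div_pos one_pos (by linarith)), hs',
        div_div_eq_mul_div, div_one, mul_comm, cos_nat_mul_pi] at h3
      exact h3
    have k1 := key (2 * k) (by omega)
    have k2 := key (2 * k + 1) (by omega)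
    rw [pow_mul] at k1
    rw [pow_succ, pow_mul] at k2
    norm_num at k1 k2
    rw [abs_lt] at k1 k2
    linarith [k1.2, k2.1]
  have := hcl.eq_univ ⟨0, h0⟩
  exact (this ▸ mem_univ 1 : (1 : unitInterval) ∈ {t | (f t).1.1 = 0})

/-- The negation of the preceding statement: If X is a continuum in which every subcontinuum C has a connected set of local separating points, then any two distinct points of any connected subset of X are joined by an arc lying inside that subset. -/
theorem result :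
    ¬ (∀ (X : Type) [MetricSpace X] [CompactSpace X] [ConnectedSpace X],
      (∀ C : Set X, IsCompact C → IsConnected C →
        IsPreconnected {p : X | p ∈ C ∧ ∃ V : Set X, IsOpen V ∧ p ∈ V ∧
          ¬ IsPreconnected (connectedComponentIn (V ∩ C) p \ {p})}) →
      ∀ A : Set X, IsConnected A → ∀ x ∈ A, ∀ y ∈ A, x ≠ y →
        ∃ f : unitInterval → X, Continuous f ∧ Function.Injective f ∧
          f 0 = x ∧ f 1 = y ∧ Set.range f ⊆ A) := by
  intro h
  refine absurd (h Y ?_ univ isConnected_univ (v 0) trivial (g 1) trivial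
    (fun e => by simpa [v, g] using congrArg (fun p : Y => p.1.1) e)) ?_
  swap
  · rintro ⟨f, hf, -, h0, h1, -⟩
    have := no_path f hf (by rw [h0]; rfl)
    rw [h1, g_fst zero_le_one le_rfl] at this
    exact one_ne_zero this
  intro C hC hc
  obtain ⟨q, hq, hq'⟩ := hC.exists_isMinOn hc.nonempty cx.continuousOn
  obtain ⟨r, hr, hr'⟩ := hC.exists_isMaxOn hc.nonempty cx.continuousOn
  rcases (show q.1.1 ≤ r.1.1 from hq' hr).eq_or_lt with e | e
  · rcases q.2.1.eq_or_lt with z | z
    · have hz : ∀ p ∈ C, p.1.1 = 0 := fun p hp =>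
        le_antisymm (by linarith [show p.1.1 ≤ r.1.1 from hr' hp]) p.2.1
      have hv : ∀ p ∈ C, v p.1.2 = p := fun p hp =>
        Subtype.ext (Prod.ext (hz p hp).symm (by simp [v, p.2.2.2.1, p.2.2.2.2.1]))
      obtain ⟨a, ha, ha'⟩ := hC.exists_isMinOn hc.nonempty cy.continuousOn
      obtain ⟨b, hb, hb'⟩ := hC.exists_isMaxOn hc.nonempty cy.continuousOn
      rcases (show a.1.2 ≤ b.1.2 from ha' hb).eq_or_lt with e' | e'
      · refine Set.Subsingleton.isPreconnected (fun p hp p' hp' => ?_)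
        rw [← hv p hp.1, ← hv p' hp'.1]
        congr 1
        linarith [show p.1.2 ≤ b.1.2 from hb' hp.1, show p'.1.2 ≤ b.1.2 from hb' hp'.1,
          show a.1.2 ≤ p.1.2 from ha' hp.1, show a.1.2 ≤ p'.1.2 from ha' hp'.1]
      · refine (isPreconnected_Ioo.image v (v_cont.continuousOn (s := Ioo a.1.2 b.1.2))).subset_closure
          ?_ ?_
        · rintro _ ⟨y, hy, rfl⟩
          obtain ⟨p, hp, rfl⟩ := hc.isPreconnected.intermediate_value ha hb cy.continuousOn
            ⟨hy.1.le, hy.2.le⟩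
          rw [hv p hp]
          exact ⟨hp, sep C hc _ cy p a b hp ha hb hy.1 hy.2
            (fun w hw e => by rw [← hv w hw, ← hv p hp, e])⟩
        · intro p hp
          rw [← hv p hp.1]
          refine v_cont.continuousWithinAt.mem_closure_image ?_
          rw [closure_Ioo e'.ne]
          exact ⟨ha' hp.1, hb' hp.1⟩
    · refine Set.Subsingleton.isPreconnected (fun p hp p' hp' => ?_)
      have a1 : q.1.1 ≤ p.1.1 := hq' hp.1
      refine ext_pos (z.trans_le a1) ?_
      linarith [show p.1.1 ≤ r.1.1 from hr' hp.1, show p'.1.1 ≤ r.1.1 from hr' hp'.1,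
        show q.1.1 ≤ p'.1.1 from hq' hp'.1]
  · refine (graph_pre q.1.1 r.1.1 q.2.1).subset_closure ?_
      (fun p hp => graph_closure _ _ q.2.1 e p (hq' hp.1) (hr' hp.1))
    rintro _ ⟨x, hx, rfl⟩
    obtain ⟨p, hp, rfl⟩ := hc.isPreconnected.intermediate_value hq hr cx.continuousOn
      ⟨hx.1.le, hx.2.le⟩
    have pp : 0 < p.1.1 := q.2.1.trans_lt hx.1
    rw [← ext_pos pp (g_fst p.2.1 p.2.2.1).symm]
    exact ⟨hp, sep C hc _ cx p q r hp hq hr hx.1 hx.2
      (fun w _ e => (ext_pos pp e.symm).symm)⟩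

end Pool.Agent.S13772
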