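import Pool.Statements.S13782
import Pool.Agent.H84.Rudin

set_option autoImplicit false
open Pool Pool.MP_b2bcdc_gt

namespace Pool.Agent.S13782

/-- The negation of the preceding statement: In every core compact T0 space, each irreducible closed set A has a nonempty downward-directed family of compact saturated sets such that A meets all of them and no smaller closed subset of A meets all of them. -/
theorem result :
    ¬ (∀ (X : Type) [TopologicalSpace X] [T0Space X],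
      (∀ U : Set X, IsOpen U → ∀ x ∈ U, ∃ V : Set X, IsOpen V ∧ x ∈ V ∧ V ⊆ U ∧
        ∀ 𝒰 : Set (Set X), (∀ W ∈ 𝒰, IsOpen W) → U ⊆ ⋃₀ 𝒰 →
          ∃ 𝒱 ⊆ 𝒰, 𝒱.Finite ∧ V ⊆ ⋃₀ 𝒱) →
      ∀ A : Set X, IsClosed A → IsIrreducible A →
        ∃ 𝒦 : Set (Set X), 𝒦.Nonempty ∧
          (∀ K ∈ 𝒦, IsCompact K ∧
            ∀ x : X, (∀ U : Set X, IsOpen U → K ⊆ U → x ∈ U) → x ∈ K) ∧
          (∀ K₁ ∈ 𝒦, ∀ K₂ ∈ 𝒦, ∃ K₃ ∈ 𝒦, K₃ ⊆ K₁ ∩ K₂) ∧
          (∀ K ∈ 𝒦, (A ∩ K).Nonempty) ∧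
          ∀ B : Set X, IsClosed B → B ⊆ A → (∀ K ∈ 𝒦, (B ∩ K).Nonempty) → B = A) := by
  intro H
  obtain ⟨𝒦, ⟨K, hK⟩, h1, h2, h3, h4⟩ := H H84.Rudin.X H84.Rudin.coreCompact Set.univ isClosed_univ
    H84.Rudin.irreducible_univ
  refine H84.Rudin.not_dense (h1 K hK).1 (h4 _ isClosed_closure (Set.subset_univ _) fun L hL => ?_)
  obtain ⟨M, hM, h5⟩ := h2 K hK L hL
  obtain ⟨x, -, hx⟩ := h3 M hM
  exact ⟨x, subset_closure (h5 hx).1, (h5 hx).2⟩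

end Pool.Agent.S13782
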