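import Pool.Statements.S13784
import Pool.Agent.H82.Simon

set_option autoImplicit false
open Pool Pool.MP_b3099b_gt

namespace Pool.Agent.S13784

theorem result :
    ¬ (∀ (Y : Type) [TopologicalSpace Y], T1Space Y →
      ((FrechetUrysohnSpace Y ∧
        ∃ G : Set Y → ℕ → Set Y,
          (∀ F : Set Y, IsClosed F → ∀ n, IsOpen (G F n)) ∧
          (∀ F : Set Y, IsClosed F → ⋂ n, G F n = F) ∧
          (∀ F K : Set Y, IsClosed F → IsClosed K → F ⊆ K → ∀ n, G F n ⊆ G K n))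
      ↔
      ∃ (X : Type) (_ : TopologicalSpace X) (d : X → X → ℝ),
        (∀ x y, 0 ≤ d x y) ∧ (∀ x y, d x y = 0 ↔ x = y) ∧ (∀ x y, d x y = d y x) ∧
        (∀ x, (nhds x).HasBasis (fun ε : ℝ => 0 < ε) (fun ε => {y | d x y < ε})) ∧
        ∃ f : X → Y, Continuous f ∧ IsClosedMap f ∧ Function.Surjective f)) := by
  intro H
  obtain ⟨B, M, hB, -, h1, h2⟩ := H82.Simon.simon
  let := H82.Simon.topo B M
  have := H82.Simon.t1 B M
  have : Nonempty H82.Simon.Y := ⟨H82.Simon.Y.top⟩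
  obtain ⟨X, _, d, -, -, -, hd, f, a, b, c⟩ := (H H82.Simon.Y inferInstance).1
    ⟨H82.Simon.frechet B M h1, H82.Simon.semistrat⟩
  have : FirstCountableTopology X := ⟨fun x => by
    refine (Filter.HasCountableBasis.mk (p := fun _ : ℕ => True)
      (s := fun n => {y | d x y < 1 / ((n : ℝ) + 1)}) ?_ (Set.to_countable _)).isCountablyGenerated
    refine (hd x).to_hasBasis (fun ε hε => ?_) fun n _ => ⟨_, Nat.one_div_pos_of_nat, subset_rfl⟩
    obtain ⟨n, hn⟩ := exists_nat_one_div_lt hε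
    exact ⟨n, trivial, fun y hy => lt_trans hy hn⟩⟩
  exact H82.Simon.not_image B M hB h2 f a b c

end Pool.Agent.S13784
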