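import Pool.Statements.S13812
import Pool.Agent.H86.Functorial

set_option autoImplicit false
open Pool Pool.MP_b81b72_gt

namespace Pool.Agent.S13812

open Set Filter Topology Pool.Agent.H86.Functorial

noncomputable def w (n : ℕ) : ℝ := 1 / ((n : ℝ) + 1)

theorem w_pos (n : ℕ) : 0 < w n := by unfold w; positivity

noncomputable abbrev E (n : ℕ) : Type := AddSubgroup.zmultiples (w n)

noncomputable def toE (n : ℕ) : ℤ →+ E n where
  toFun k := ⟨k • w n, AddSubgroup.zsmul_mem_zmultiples _ _⟩
  map_zero' := by ext; simp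
  map_add' a b := by ext; simp [add_mul]

theorem toE_bij (n : ℕ) : Function.Bijective (toE n) := by
  constructor
  · intro a b h
    have : (a : ℝ) * w n = b * w n := by simpa [toE] using h
    exact_mod_cast mul_right_cancel₀ (w_pos n).ne' this
  · rintro ⟨x, k, rfl⟩
    exact ⟨k, rfl⟩

noncomputable def eqE (n : ℕ) : ℤ ≃+ E n := AddEquiv.ofBijective (toE n) (toE_bij n)

instance (n : ℕ) : Countable (E n) := (toE_bij n).2.countable

instance (n : ℕ) : CompleteSpace (E n) := by
  have : IsClosed ((AddSubgroup.zmultiples (w n) : AddSubgroup ℝ) : Set ℝ) :=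
    AddSubgroup.isClosed_of_discrete
  exact this.completeSpace_coe

noncomputable abbrev G : Type := lp E 1

theorem hom_cont (n : ℕ) (φ : G →+ E n) : Continuous φ := by
  have h := dudley_continuous ((eqE n).symm.toAddMonoidHom.comp φ)
  have h2 : Continuous (eqE n) := continuous_of_discreteTopology
  have := h2.comp h
  convert this using 1
  ext x
  simp

noncomputable def coord (n : ℕ) : G →+ E n where
  toFun x := x n
  map_zero' := rfl
  map_add' _ _ := rfl

theorem one_toReal : (0 : ℝ) < (1 : ENNReal).toReal := by simp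

theorem ball_closed (f : G →+ G) (d : G) (ε : ℝ) (hε : 0 ≤ ε) : IsClosed {x | ‖f x - d‖ ≤ ε} := by
  have : {x | ‖f x - d‖ ≤ ε} = ⋂ s : Finset ℕ, {x | ∑ i ∈ s, ‖f x i - d i‖ ≤ ε} := by
    ext x
    simp only [mem_ofPred_eq, mem_iInter]
    constructor
    · intro h s
      have := lp.sum_rpow_le_norm_rpow one_toReal (f x - d) s
      simp only [ENNReal.toReal_one, Real.rpow_one] at this
      exact this.trans h
    · intro h
      refine lp.norm_le_of_forall_sum_le one_toReal hε fun s => ?_
      simp only [ENNReal.toReal_one, Real.rpow_one]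
      exact h s
  rw [this]
  refine isClosed_iInter fun s => isClosed_le (continuous_finsetSum _ fun i _ => ?_) continuous_const
  exact ((hom_cont i ((coord i).comp f)).sub continuous_const).norm

noncomputable def dd (t : Finset (Σ n, E n)) : G := ∑ q ∈ t, lp.single 1 q.1 q.2

theorem dd_dense (x : G) (ε : ℝ) (hε : 0 < ε) : ∃ t, ‖x - dd t‖ ≤ ε := by
  classical
  have h := lp.hasSum_single (by simp) x
  obtain ⟨s, hs⟩ := (h.eventually (Metric.ball_mem_nhds x hε)).exists
  refine ⟨s.image (fun i => ⟨i, x i⟩), ?_⟩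
  rw [dd, Finset.sum_image (fun a _ b _ h => congrArg Sigma.fst h)]
  rw [dist_eq_norm, norm_sub_rev] at hs
  exact hs.le

theorem endo_cont (f : G →+ G) : Continuous f := by
  refine continuous_of_continuousAt_zero f ?_
  rw [ContinuousAt, map_zero, Metric.tendsto_nhds]
  intro ε hε
  obtain ⟨t, x, hx⟩ := nonempty_interior_of_iUnion_of_closed
    (f := fun t => {x | ‖f x - dd t‖ ≤ ε / 3}) (fun t => ball_closed f _ _ (by positivity))
    (eq_univ_of_forall fun x => mem_iUnion.2 (dd_dense (f x) _ (by positivity)))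
  have h1 : {x | ‖f x - dd t‖ ≤ ε / 3} ∈ 𝓝 x := mem_interior_iff_mem_nhds.1 hx
  have h2 : ‖f x - dd t‖ ≤ ε / 3 := (mem_of_mem_nhds h1 :)
  have h3 : Tendsto (fun y : G => y + x) (𝓝 0) (𝓝 x) := by
    have : Continuous (fun y : G => y + x) := by fun_prop
    simpa using this.tendsto 0
  filter_upwards [h3.eventually h1] with y hy
  rw [dist_zero_right]
  have : f y = (f (y + x) - dd t) - (f x - dd t) := by simp
  rw [this]
  refine (norm_sub_le _ _).trans_lt ?_
  linarith

noncomputable def u (n : ℕ) (k : ℕ) : G := lp.single 1 n (toE n k)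

theorem norm_toE (n k : ℕ) : ‖toE n k‖ = k * w n := by
  change ‖(k : ℤ) • w n‖ = _
  simp [abs_of_pos (w_pos n)]

theorem norm_u (n k : ℕ) : ‖u n k‖ = k * w n := by
  rw [u, lp.norm_single (by simp), norm_toE]

theorem u_zero (n : ℕ) : u n 0 = 0 := by simp [u]

theorem u_succ (n k : ℕ) : u n (k + 1) = u n k + u n 1 := by
  simp [u, lp.single_add]

theorem not_clopen (U : Set G) (h0 : 0 ∈ U) (hU : U ⊆ Metric.ball 0 1) : ¬ IsClopen U := by
  classical
  intro hc
  have step : ∀ n, ∀ x ∈ U, ∃ k, x + u n k ∈ U ∧ x + u n (k + 1) ∉ U := by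
    intro n x hx
    by_contra hcon
    push Not at hcon
    have h : ∀ k, x + u n k ∈ U := by
      intro k
      induction k with
      | zero => simpa [u_zero] using hx
      | succ k ih => exact hcon k ih
    have h1 := hU (h (2 * (n + 1)))
    have h2 := hU hx
    rw [mem_ball_zero_iff] at h1 h2
    have h3 : ‖u n (2 * (n + 1))‖ ≤ ‖x + u n (2 * (n + 1))‖ + ‖x‖ := by
      simpa using norm_sub_le (x + u n (2 * (n + 1))) x
    rw [norm_u] at h3
    have h4 : ((2 * (n + 1) : ℕ) : ℝ) * w n = 2 := by
      unfold w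
      push_cast
      field_simp
    linarith
  choose! k hk hk' using step
  obtain ⟨x, hx0, hx⟩ : ∃ x : ℕ → G, x 0 = 0 ∧ ∀ n, x (n + 1) = x n + u n (k n (x n)) :=
    ⟨fun n => Nat.rec (motive := fun _ => G) 0 (fun n y => y + u n (k n y)) n, rfl, fun n => rfl⟩
  have hxU : ∀ n, x n ∈ U := by
    intro n
    induction n with
    | zero => rw [hx0]; exact h0
    | succ n ih => rw [hx]; exact hk n _ ih
  have hxs : ∀ n, x n = ∑ i ∈ Finset.range n, u i (k i (x i)) := by
    intro n
    induction n with
    | zero => simpa using hx0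
    | succ n ih => rw [Finset.sum_range_succ, ← ih, hx]
  have hn : ∀ n, ∑ i ∈ Finset.range n, ‖u i (k i (x i))‖ ≤ 1 := by
    intro n
    have h1 := lp.norm_sum_single one_toReal (fun i => toE i (k i (x i))) (Finset.range n)
    simp only [ENNReal.toReal_one, Real.rpow_one] at h1
    have h2 := hU (hxU n)
    rw [mem_ball_zero_iff, hxs n] at h2
    simp only [norm_u, ← norm_toE]
    rw [← h1]
    exact h2.le
  have hsum : Summable (fun i => u i (k i (x i))) :=
    (summable_of_sum_range_le (fun _ => norm_nonneg _) hn).of_norm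
  obtain ⟨y, hy⟩ := hsum
  have h1 : Tendsto x atTop (𝓝 y) := by
    have := hy.tendsto_sum_nat
    exact this.congr fun n => (hxs n).symm
  have h2 : Tendsto (fun n => u n 1) atTop (𝓝 0) := by
    rw [tendsto_zero_iff_norm_tendsto_zero]
    simp only [norm_u, Nat.cast_one, one_mul]
    exact tendsto_one_div_add_atTop_nhds_zero_nat
  have h3 : Tendsto (fun n => x (n + 1) + u n 1) atTop (𝓝 y) := by
    simpa using (h1.comp (tendsto_add_atTop_nat 1)).add h2
  have h4 : y ∈ U := hc.1.mem_of_tendsto h1 (Eventually.of_forall hxU)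
  have h5 : y ∈ Uᶜ := hc.2.isClosed_compl.mem_of_tendsto h3 (Eventually.of_forall fun n => by
    rw [hx, add_assoc, ← u_succ]
    exact hk' n _ (hxU n))
  exact h5 h4

theorem result :
    ¬ (∀ T : ∀ (G : Type) [AddCommGroup G], AddGroupTopology G,
      (∀ (G H : Type) [AddCommGroup G] [AddCommGroup H] (f : G →+ H),
        @Continuous G H (T G).toTopologicalSpace (T H).toTopologicalSpace f) →
      ∀ (G : Type) [AddCommGroup G], Infinite G →
        @T2Space G (T G).toTopologicalSpace →
        ∃ B : Set (Set G),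
          @TopologicalSpace.IsTopologicalBasis G (T G).toTopologicalSpace B ∧
          ∀ s ∈ B, @IsClopen G (T G).toTopologicalSpace s) := by
  intro H
  have hinf : Infinite G := by
    refine Infinite.of_injective (u 0) fun a b h => ?_
    have := congrArg norm h
    rw [norm_u, norm_u] at this
    exact_mod_cast mul_right_cancel₀ (w_pos 0).ne' this
  have heq : initTop G G = (inferInstance : TopologicalSpace G) := initTop_self G endo_cont
  have := H (fun A _ => ⟨initTop G A, initTop_group G A⟩)
    (fun A B _ _ f => initTop_functorial G A B f) G hinf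
  change @T2Space G (initTop G G) → ∃ B : Set (Set G),
    @TopologicalSpace.IsTopologicalBasis G (initTop G G) B ∧
      ∀ s ∈ B, @IsClopen G (initTop G G) s at this
  rw [heq] at this
  obtain ⟨B, hB, hBc⟩ := this inferInstance
  obtain ⟨U, hUB, h0, hU⟩ := hB.exists_subset_of_mem_open (Metric.mem_ball_self one_pos)
    (Metric.isOpen_ball (x := (0 : G)))
  exact not_clopen U h0 hU (hBc U hUB)

end Pool.Agent.S13812
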