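import Pool.Statements.S13822
import Pool.Agent.H82.IsoG

set_option autoImplicit false
open Pool Pool.MP_ba0d78_gt

namespace Pool.Agent.S13822

theorem result :
    ¬ (∀ (X : Type) [TopologicalSpace X] [T35Space X],
      ((∀ S : Set {f : X → ℝ // Continuous f}, IsClosed S →
          (∀ u : ℕ → {f : X → ℝ // Continuous f}, (∀ n, u n ∈ S) →
            ∃ z ∈ S, MapClusterPt z Filter.atTop u) →
          IsCompact S) ↔
       (∀ A : Set {f : X → ℝ // Continuous f},
          (∀ u : ℕ → {f : X → ℝ // Continuous f}, (∀ n, u n ∈ A) →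
            ∃ z, MapClusterPt z Filter.atTop u) →
          IsCompact (closure A)))) := by
  intro h
  obtain ⟨M, h0, hM, hmax⟩ := H82.IsoG.mad
  exact H82.IsoG.not_compact h0 hM ((h (H82.IsoG.X M)).1 (fun S _ hS => H82.IsoG.iso S hS) _
    (H82.IsoG.relcc hM hmax))

end Pool.Agent.S13822
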