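import Pool.Statements.S13830
import Pool.Agent.H84.ConsEx2

set_option autoImplicit false
open Pool Pool.MP_badb58_gt

namespace Pool.Agent.S13830

/-- The negation of the preceding statement: For every consonant T0 space X, the space of nonempty compact saturated subsets of X, with the upper Vietoris topology generated by the sets {K : K ⊆ U} for U open, is again consonant. -/
theorem result :
    ¬ (∀ (Cons : (Y : Type) → TopologicalSpace Y → Prop),
    (∀ (Y : Type) (t : TopologicalSpace Y), Cons Y t ↔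
      ∀ F : Set (Set Y), (∀ U ∈ F, @IsOpen Y t U) →
        (∀ U V : Set Y, U ∈ F → @IsOpen Y t V → U ⊆ V → V ∈ F) →
        (∀ D : Set (Set Y), D.Nonempty → (∀ U ∈ D, @IsOpen Y t U) →
            DirectedOn (· ⊆ ·) D → ⋃₀ D ∈ F → ∃ U ∈ D, U ∈ F) →
        ∀ U ∈ F, ∃ K : Set Y, @IsCompact Y t K ∧ K ⊆ U ∧
          ∀ V : Set Y, @IsOpen Y t V → K ⊆ V → V ∈ F) →
    ∀ (X : Type) [TopologicalSpace X] [T0Space X], Cons X inferInstance →
      Cons {K : Set X // K.Nonempty ∧ IsCompact K ∧
              ∀ x : X, (∀ U : Set X, IsOpen U → K ⊆ U → x ∈ U) → x ∈ K}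
        (TopologicalSpace.generateFrom
          {S | ∃ U : Set X, IsOpen U ∧ S = {K | K.1 ⊆ U}})) := by
  intro H
  have h1 := H (fun Y t => @H84.Cons.Consonant Y t) (fun Y t => by
    constructor
    · intro h F h1 h2 h3 U hU
      exact h F ⟨h1, fun U hU V hV hUV => h2 U V hU hV hUV,
        fun D a b c d => h3 D a c b d⟩ U hU
    · intro h F hF U hU
      exact h F hF.1 (fun U V hU hV hUV => hF.2.1 U hU V hV hUV)
        (fun D a b c d => hF.2.2 D a c b d) U hU)
    H84.ConsEx.X H84.ConsEx.finCons_X.consonant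
  exact H84.ConsEx.not_consonant_smyth h1

end Pool.Agent.S13830
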