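import Pool.Statements.S13834
import Pool.Agent.H84.ClosC

set_option autoImplicit false
open Pool Pool.MP_bb3fde_gt

namespace Pool.Agent.S13834

/-- The negation of the preceding statement: For all Hausdorff spaces X, Y and every continuous closed surjection f from Y onto a space Z: if X × Y is paracompact, then X × Z is paracompact. -/
theorem result :
    ¬ (∀ (X Y Z : Type) [TopologicalSpace X] [TopologicalSpace Y] [TopologicalSpace Z]
      [T2Space X] [T2Space Y] (f : Y → Z),
      Continuous f → IsClosedMap f → Function.Surjective f →
      ParacompactSpace (X × Y) → ParacompactSpace (X × Z)) := by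
  intro h
  exact Pool.Agent.H84.Clos.not_para (h _ _ _ Pool.Agent.H84.Clos.ff Pool.Agent.H84.Clos.ff_cont
    Pool.Agent.H84.Clos.ff_closed Pool.Agent.H84.Clos.ff_surj Pool.Agent.H84.Clos.para)

end Pool.Agent.S13834
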