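import Pool.Statements.S13844
import Pool.Agent.H82.KaufD

set_option autoImplicit false
open Pool Pool.MP_be0572_gt

namespace Pool.Agent.S13844

open Pool.Agent.H82.Kauf in
theorem result :
    ¬ (∀ (Y : Type) [MetricSpace Y] (f : (Fin 3 → ℝ) → Y)
      (P : ℕ → AffineSubspace ℝ (Fin 3 → ℝ)),
      ContinuousOn f {x : Fin 3 → ℝ | ∀ i, 0 ≤ x i ∧ x i ≤ 1} →
      (∀ i, Module.finrank ℝ (P i).direction = 2) →
      (∀ y : Y, (f ⁻¹' {y} ∩ {x : Fin 3 → ℝ | ∀ i, 0 ≤ x i ∧ x i ≤ 1}).Nontrivial →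
        f ⁻¹' {y} ∩ {x : Fin 3 → ℝ | ∀ i, 0 ≤ x i ∧ x i ≤ 1} ⊆ ⋃ k, (P k : Set (Fin 3 → ℝ))) →
      ¬ (∀ ε : ℝ, ε > 0 → ∃ (n : ℕ) (U : Fin n → Set Y),
          (∀ j, IsOpen (U j)) ∧
          (∀ j, ∀ a ∈ U j, ∀ b ∈ U j, dist a b < ε) ∧
          f '' {x : Fin 3 → ℝ | ∀ i, 0 ≤ x i ∧ x i ≤ 1} ⊆ ⋃ j, U j ∧
          ∀ y ∈ f '' {x : Fin 3 → ℝ | ∀ i, 0 ≤ x i ∧ x i ≤ 1},
            {j : Fin n | y ∈ U j}.ncard ≤ 3)) := by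
  intro h
  obtain ⟨e, he⟩ := exists_surjective_nat (Fin 3 × ℚ)
  refine h Y ff (fun n => plane (e n)) ff_cont.continuousOn (fun n => plane_dim _) ?_ ?_
  · rintro y ⟨a, ha, b, hb, hab⟩ z hz
    by_contra hn
    have hi : ∀ i, Irrational (z i) := by
      rintro i ⟨q, hq⟩
      obtain ⟨n, hn'⟩ := he (i, q)
      exact hn (Set.mem_iUnion.2 ⟨n, mem_plane (by rw [hn']; exact hq.symm)⟩)
    exact hab ((ff_inj hi hz.2 ha.2 (ha.1.trans hz.1.symm)).trans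
      (ff_inj hi hz.2 hb.2 (hb.1.trans hz.1.symm)).symm)
  · intro ε hε
    obtain ⟨n, U, h1, h2, h3, h4⟩ := Y_cover hε
    exact ⟨n, U, h1, h2, fun y _ => h3 y, fun y _ => h4 y⟩

end Pool.Agent.S13844
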