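import Pool.Statements.S13847
import Pool.Agent.H58.Funk

set_option autoImplicit false
open Pool Pool.MP_be71bd_gt

namespace Pool.Agent.S13847

open Pool.Agent.H58.Funk MeasureTheory Set Filter Topology Module Metric Pointwise
open scoped RealInnerProductSpace ENNReal

abbrev E := EuclideanSpace ℝ (Fin 3)

lemma plane {w : E} (hw : w ≠ 0) :
    (μH[2] : Measure (ℝ ∙ w)ᗮ).IsAddHaarMeasure ∧ ∀ A : Set (ℝ ∙ w)ᗮ, μH[2] ((↑) '' A : Set E) = μH[2] A := by
  have : Fact (finrank ℝ E = 2 + 1) := ⟨by simp⟩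
  have h := isAddHaarMeasure_hausdorffMeasure (E := (ℝ ∙ w)ᗮ)
  rw [Submodule.finrank_orthogonal_span_singleton (n := 2) hw] at h
  exact ⟨by simpa using h, fun A => isometry_subtype_coe.hausdorffMeasure_image (.inl zero_le_two) A⟩

lemma mo {w y : E} : y ∈ (ℝ ∙ w)ᗮ ↔ ⟪y, w⟫ = 0 := Submodule.mem_orthogonal_singleton_iff_inner_left

lemma face {w : E} (hw : w ≠ 0) (p : E) (R : ℝ) :
    μH[2] {y : E | ⟪y - p, w⟫ = 0 ∧ ‖y - p‖ ≤ R} ≠ ∞ := by
  obtain ⟨h, e⟩ := plane hw
  have : {y : E | ⟪y - p, w⟫ = 0 ∧ ‖y - p‖ ≤ R} =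
      (-p + ·) ⁻¹' ((↑) '' closedBall (0 : (ℝ ∙ w)ᗮ) R) := by
    ext y; simp [mo, neg_add_eq_sub, and_comm]
  rw [this, measure_preimage_add, e]
  exact (isCompact_closedBall _ _).measure_ne_top

variable {K : Set E} (hc : Convex ℝ K) (hK : IsCompact K) (h0 : K ∈ 𝓝 0)
include hc hK h0

lemma fin : μH[2] (frontier K) ≠ ∞ := by
  obtain ⟨π, hπ, h⟩ := cover hc hK.isClosed ⟨0, mem_interior_iff_mem_nhds.2 h0⟩
  obtain ⟨R, R0, hR⟩ := hK.isBounded.exists_pos_norm_lt
  have b : ∀ z : E, ‖z.ofLp‖ / R ≤ 1 → ‖z‖ ≤ 2 * R := fun z hz => by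
    rw [div_le_one R0, pi_norm_le_iff_of_nonneg R0.le] at hz
    have := fun i => pow_le_pow_left₀ (norm_nonneg _) (hz i) 2
    rw [EuclideanSpace.norm_eq, Fin.sum_univ_three]
    exact Real.sqrt_le_iff.2 ⟨by positivity, by nlinarith [this 0, this 1, this 2]⟩
  have s : frontier K ⊆ π '' ⋃ i : Fin 3, ⋃ c ∈ ({R, -R} : Set ℝ), {y : E |
      ⟪y - .single i c, .single i 1⟫ = 0 ∧ ‖y - .single i c‖ ≤ 3 * R} := fun y hy => by
    obtain ⟨z, e, -, rfl⟩ := h (fun z => ‖z.ofLp‖ / R) (by fun_prop)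
      (isBounded_iff_forall_norm_le.2 ⟨_, b⟩) y hy ((div_lt_one R0).2
        ((pi_norm_lt_iff R0).2 fun i => (PiLp.norm_apply_le y i).trans_lt
          (hR y (hK.isClosed.frontier_subset hy))))
    obtain ⟨i, hi⟩ : ∃ i, R ≤ ‖z i‖ := by
      by_contra h'
      push Not at h'
      exact ((pi_norm_lt_iff R0).2 h').ne ((div_eq_one_iff_eq R0.ne').1 e)
    have hi' : |z i| = R :=
      le_antisymm ((norm_le_pi_norm z.ofLp i).trans ((div_eq_one_iff_eq R0.ne').1 e).le) hi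
    refine ⟨z, mem_iUnion.2 ⟨i, mem_iUnion₂.2 ⟨z i, (abs_eq R0.le).1 hi', by
      simp [EuclideanSpace.inner_single_right], (norm_sub_le _ _).trans ?_⟩⟩, rfl⟩
    simp [hi']; linarith [b z e.le]
  refine ne_top_of_le_ne_top ?_ ((measure_mono s).trans (hπ.hausdorffMeasure_image_le zero_le_two _))
  refine ENNReal.mul_ne_top (by simp) (ne_top_of_le_ne_top ?_ (measure_iUnion_fintype_le _ _))
  exact (ENNReal.sum_lt_top.2 fun i _ => measure_biUnion_lt_top (toFinite _) fun c _ =>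
    (face (by simp) _ _).lt_top).ne

omit hK in
lemma null {w : E} (hw : w ≠ 0) : μH[2] ({y | ⟪y, w⟫ = 0} ∩ frontier K) = 0 := by
  obtain ⟨h, e⟩ := plane hw
  have hc' : Convex ℝ ((↑) ⁻¹' closure K : Set (ℝ ∙ w)ᗮ) := hc.closure.linear_preimage (ℝ ∙ w)ᗮ.subtype
  refine measure_mono_null (fun y hy => ?_) ((e _).trans (hc'.addHaar_frontier μH[2]))
  refine ⟨⟨y, mo.2 hy.1⟩, ⟨subset_closure hy.2.1, fun hi => ?_⟩, rfl⟩
  have g1 := (gauge_eq_one_iff_mem_frontier hc h0).2 hy.2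
  have c : ContinuousAt (fun t : ℝ => t • (⟨y, mo.2 hy.1⟩ : (ℝ ∙ w)ᗮ)) 1 := by fun_prop
  have := (c.preimage_mem_nhds (by simpa using mem_interior_iff_mem_nhds.1 hi))
  obtain ⟨t, h1, h2⟩ := ((Eventually.filter_mono nhdsWithin_le_nhds this).and
    (self_mem_nhdsWithin (s := Ioi (1 : ℝ)))).exists
  have h3 := (gauge_le_one_iff_mem_closure hc h0).2 h1
  have h2 : 1 < t := h2
  simp only [SetLike.val_smul, gauge_smul_of_nonneg (zero_le_one.trans h2.le), g1] at h3
  simp at h3; linarith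

lemma pos {O : Set E} (hO : IsOpen O) {w : E} (h1 : w ∈ O) (h2 : w ∈ frontier K) :
    μH[2] (O ∩ frontier K) ≠ 0 := fun hz => by
  have g1 := (gauge_eq_one_iff_mem_frontier hc h0).2 h2
  have hw : w ≠ 0 := by rintro rfl; simp at g1
  have ww : ⟪w, w⟫ ≠ 0 := inner_self_ne_zero.2 hw
  obtain ⟨h, e⟩ := plane hw
  have cg := continuous_gauge hc h0
  obtain ⟨k, S, hS, hq⟩ := (show ContDiffAt ℝ 1 (fun z : E => (⟪w, w⟫ * ⟪z, w⟫⁻¹) • z - w) w from
    ((contDiffAt_const.mul ((contDiffAt_id.inner ℝ contDiffAt_const).inv ww)).smul contDiffAt_id).sub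
      contDiffAt_const).exists_lipschitzOnWith
  have c1 : ContinuousAt (fun a : (ℝ ∙ w)ᗮ => gauge K (w + a)) 0 := by fun_prop
  have c : ContinuousAt (fun a : (ℝ ∙ w)ᗮ => (gauge K (w + a))⁻¹ • (w + a)) 0 :=
    (c1.inv₀ (by simp [g1])).smul (by fun_prop)
  have n := inter_mem (c.preimage_mem_nhds (t := S ∩ O) (by
    simpa [g1] using ⟨hS, hO.mem_nhds h1⟩)) (c1.preimage_mem_nhds (t := Ioi 0) (Ioi_mem_nhds (by simp [g1])))
  refine (Measure.measure_pos_of_mem_nhds μH[2] n).ne' ?_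
  rw [← e]
  have := (hq.mono (inter_subset_left (t := O ∩ frontier K))).hausdorffMeasure_image_le zero_le_two
  rw [measure_mono_null inter_subset_right hz, mul_zero, nonpos_iff_eq_zero] at this
  refine measure_mono_null ?_ this
  rintro _ ⟨a, ⟨⟨a1, a2⟩, a3⟩, rfl⟩
  have a3 : 0 < gauge K (w + a) := a3
  refine ⟨_, ⟨a1, a2, (gauge_eq_one_iff_mem_frontier hc h0).1 ?_⟩, ?_⟩
  · rw [gauge_smul_of_nonneg (inv_pos.2 a3).le, smul_eq_mul, inv_mul_cancel₀ a3.ne']
  · simp only [real_inner_smul_left, inner_add_left, mo.1 a.2, smul_smul]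
    rw [show ⟪w, w⟫ * ((gauge K (w + a))⁻¹ * (⟪w, w⟫ + 0))⁻¹ * (gauge K (w + a))⁻¹ = 1 by
      field_simp; simp]
    simp

theorem main (hb : ∀ v : E, v ≠ 0 → μH[2] {y | y ∈ frontier K ∧ 0 < ⟪y, v⟫} =
    μH[2] {y | y ∈ frontier K ∧ ⟪y, v⟫ < 0}) : ∀ y ∈ K, -y ∈ K := by
  have cg := continuous_gauge hc h0
  have le1 : ∀ y, gauge K y ≤ 1 ↔ y ∈ K := fun y => by
    rw [gauge_le_one_iff_mem_closure hc h0, hK.isClosed.closure_eq]
  have fr := fun y => gauge_eq_one_iff_mem_frontier (x := y) hc h0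
  have gp : ∀ y : E, y ≠ 0 → 0 < gauge K y := fun y hy =>
    (gauge_pos (absorbent_nhds_zero h0) (NormedSpace.isVonNBounded_of_isBounded _ hK.isBounded)).2 hy
  intro y hy
  by_contra hn
  have y0 : y ≠ 0 := by rintro rfl; exact hn (by simpa using hy)
  obtain ⟨t, t1, ht⟩ : ∃ t, 1 < t ∧ t * gauge K y < gauge K (-y) := by
    obtain ⟨t, a, b⟩ := exists_between (not_le.1 (mt (le1 _).1 hn))
    exact ⟨t, a, by nlinarith [(le1 y).2 hy]⟩
  have t0 : 0 < t := by linarith
  let O : Set E := {y | t * gauge K y < gauge K (-y)}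
  have oO : IsOpen O := isOpen_lt (by fun_prop) (by fun_prop)
  have cO : ∀ s : ℝ, 0 < s → ∀ y, s • y ∈ O ↔ y ∈ O := fun s hs y => by
    simp only [O, mem_ofPred_eq, ← smul_neg, gauge_smul_of_nonneg hs.le, smul_eq_mul]
    rw [mul_left_comm, mul_lt_mul_iff_right₀ hs]
  have f := fin hc hK h0
  have : IsFiniteMeasure ((μH[2] : Measure E).restrict (frontier K)) :=
    isFiniteMeasure_restrict.2 f
  have ev := funk ((μH[2] : Measure E).restrict (frontier K)) y0
    (fun w hw => by rw [Measure.restrict_apply (by measurability), null hc h0 hw])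
    (fun w hw => by
      rw [Measure.restrict_apply (by measurability), Measure.restrict_apply (by measurability),
        inter_comm, inter_comm _ (frontier K)]
      exact hb w hw) oO.measurableSet cO
  rw [Measure.restrict_apply oO.measurableSet, Measure.restrict_apply oO.measurableSet.neg] at ev
  have p := pos hc hK h0 oO ((cO _ (inv_pos.2 (gp y y0)) y).2 ht) ((fr _).1 (by
    rw [gauge_smul_of_nonneg (inv_pos.2 (gp y y0)).le, smul_eq_mul, inv_mul_cancel₀ (gp y y0).ne']))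
  have tn : -t ≠ 0 := by linarith
  let h := Homeomorph.smulOfNeZero (α := E) (-t) tn
  obtain ⟨π, hπ, hp⟩ := cover (hc.smul (-t)) (hK.smul (-t)).isClosed
    ⟨0, by rw [interior_smul₀ tn]; exact ⟨0, mem_interior_iff_mem_nhds.2 h0, by simp⟩⟩
  have s : (-t) • (-O ∩ frontier K) ⊆ π '' (O ∩ frontier K) := by
    rintro _ ⟨a, ⟨a1, a2⟩, rfl⟩
    obtain ⟨z, z1, z2, e⟩ := hp _ cg (hK.isBounded.subset fun z hz => (le1 z).1 hz) ((-t) • a)
      ((h.image_frontier K).le ⟨a, a2, rfl⟩) (by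
        have : t * gauge K (-a) < gauge K (- -a) := a1
        rwa [neg_neg, (fr a).2 a2, ← smul_eq_mul, ← gauge_smul_of_nonneg t0.le, smul_neg,
          ← neg_smul] at this)
    refine ⟨z, ⟨?_, (fr z).1 z1⟩, e⟩
    rw [mem_smul_set_iff_inv_smul_mem₀ tn, ← le1, inv_neg, neg_smul, ← smul_neg,
      gauge_smul_of_nonneg (inv_pos.2 t0).le, smul_eq_mul, inv_mul_le_iff₀ t0, not_le] at z2
    simpa [O, z1] using z2
  have := (measure_mono s).trans (hπ.hausdorffMeasure_image_le zero_le_two _)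
  rw [Measure.hausdorffMeasure_smul₀ zero_le_two tn, ← ev, ENNReal.smul_def, smul_eq_mul,
    ENNReal.mul_le_mul_iff_left p (ne_top_of_le_ne_top f (measure_mono inter_subset_right))] at this
  have h2 : ‖t‖₊ ^ 2 ≤ 1 := by exact_mod_cast (show (‖t‖₊ : ℝ≥0∞) ^ 2 ≤ 1 by simpa using this)
  have h3 : |t| ^ 2 ≤ 1 := h2
  nlinarith [sq_abs t]

omit hc hK h0

/-- If K is a compact convex set in 3-space, x is interior, and every plane through x splits the boundary of K into two parts of equal 2-dimensional Hausdorff measure, then K is symmetric about x (y in K implies 2x − y in K). -/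
theorem result :
    ∀ (K : Set (EuclideanSpace ℝ (Fin 3))) (x : EuclideanSpace ℝ (Fin 3)),
      Convex ℝ K → IsCompact K → x ∈ interior K →
      (∀ v : EuclideanSpace ℝ (Fin 3), v ≠ 0 →
        MeasureTheory.Measure.hausdorffMeasure 2
            {y | y ∈ frontier K ∧ 0 < inner ℝ (y - x) v} =
          MeasureTheory.Measure.hausdorffMeasure 2
            {y | y ∈ frontier K ∧ inner ℝ (y - x) v < 0}) →
      ∀ y ∈ K, (2 : ℝ) • x - y ∈ K := by
  intro K x hc hK hx hb y hy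
  let h := Homeomorph.addLeft x
  have := main (K := h ⁻¹' K) (hc.translate_preimage_right x) (h.isCompact_preimage.2 hK)
    (h.continuous.continuousAt.preimage_mem_nhds (by simpa [h] using mem_interior_iff_mem_nhds.1 hx))
    (fun v hv => by
      have := hb v hv
      rw [← measure_preimage_add _ x, ← measure_preimage_add _ x {y | _ ∧ _ < 0}] at this
      rw [← h.preimage_frontier]
      simpa [h] using this) (y - x) (by simpa [h] using hy)
  simpa [h, two_smul, add_sub_assoc] using this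

end Pool.Agent.S13847
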