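import Pool.Statements.S13851
import Pool.Agent.H84.DimE

set_option autoImplicit false
open Pool Pool.MP_bed7e9_gt

namespace Pool.Agent.S13851

/-- There is a Tychonoff space X of covering dimension 0 whose square is normal, yet the square is not a countable union of subspaces each of finite covering dimension (covering dimension defined via finite cozero-set covers). -/
theorem result :
  ∃ (X : Type) (_ : TopologicalSpace X), T35Space X ∧ NormalSpace (X × X) ∧
    (∀ (m : ℕ) (U : Fin m → Set X),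
      (∀ i, ∃ f : X → ℝ, Continuous f ∧ U i = {x | f x ≠ 0}) →
      (⋃ i, U i) = Set.univ →
      ∃ (k : ℕ) (V : Fin k → Set X),
        (∀ j, ∃ f : X → ℝ, Continuous f ∧ V j = {x | f x ≠ 0}) ∧
        (⋃ j, V j) = Set.univ ∧
        (∀ j, ∃ i, V j ⊆ U i) ∧
        ∀ x, {j : Fin k | x ∈ V j}.ncard ≤ 1) ∧
    ¬ ∃ A : ℕ → Set (X × X), (⋃ k, A k) = Set.univ ∧
      ∀ k, ∃ n : ℕ,
        ∀ (m : ℕ) (U : Fin m → Set (A k)),
          (∀ i, ∃ f : A k → ℝ, Continuous f ∧ U i = {x | f x ≠ 0}) →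
          (⋃ i, U i) = Set.univ →
          ∃ (l : ℕ) (V : Fin l → Set (A k)),
            (∀ j, ∃ f : A k → ℝ, Continuous f ∧ V j = {x | f x ≠ 0}) ∧
            (⋃ j, V j) = Set.univ ∧
            (∀ j, ∃ i, V j ⊆ U i) ∧
            ∀ x, {j : Fin l | x ∈ V j}.ncard ≤ n + 1 := by
  classical
  obtain ⟨D⟩ := Pool.Agent.H84.DimC.exists_data
  refine ⟨Pool.Agent.H84.DimC.Y D, inferInstance, {}, Pool.Agent.H84.DimD.normal_sq, ?_, ?_⟩
  · intro m U hU hc
    obtain ⟨κ, h1, h2⟩ := Pool.Agent.H84.DimE.dim0 m U (fun i => by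
      obtain ⟨f, hf, h⟩ := hU i
      rw [h]
      exact isOpen_ne_fun hf continuous_const) hc
    refine ⟨m, fun j => {y | κ y = j}, fun j => ⟨fun y => if κ y = j then 1 else 0,
      (continuous_of_discreteTopology (f := fun a : Fin m => if a = j then (1 : ℝ) else 0)).comp h1,
      by ext y; simp⟩, Set.eq_univ_of_forall fun y => Set.mem_iUnion.2 ⟨κ y, rfl⟩,
      fun j => ⟨j, fun y hy => hy ▸ h2 y⟩, fun y => ?_⟩
    have : {j : Fin m | y ∈ {y | κ y = j}} = {κ y} := by
      ext j; simp [eq_comm]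
    rw [this, Set.ncard_singleton]
  · rintro ⟨A, hA, h⟩
    choose n hn using h
    refine Pool.Agent.H84.DimE.not_cd A hA n fun k m U h1 h2 => ?_
    obtain ⟨l, V, a1, a2, a3, a4⟩ := hn k m U h1 h2
    refine ⟨l, V, fun j => ?_, a2, a3, a4⟩
    obtain ⟨f, hf, h⟩ := a1 j
    rw [h]
    exact isOpen_ne_fun hf continuous_const

end Pool.Agent.S13851
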