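import Pool.Statements.S13883
import Pool.Agent.H33.Spl3

set_option autoImplicit false
open Pool Pool.MP_c2bc14_gt

namespace Pool.Agent.S13883

/-- Suppose X is compact Hausdorff and every subset A of X equals f⁻¹(f(A)) for some continuous f from X to a Corson compactum. Then the same holds for every subset of X × X. -/
theorem result :
    ∀ (X : Type) [TopologicalSpace X] [CompactSpace X] [T2Space X],
      (∀ A : Set X, ∃ (Y : Type) (tY : TopologicalSpace Y), CompactSpace Y ∧
        (∃ (κ : Type) (e : Y → κ → ℝ), Topology.IsEmbedding e ∧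
          ∀ y, {i : κ | e y i ≠ 0}.Countable) ∧
        ∃ f : X → Y, Continuous f ∧ f ⁻¹' (f '' A) = A) →
      (∀ A : Set (X × X), ∃ (Y : Type) (tY : TopologicalSpace Y), CompactSpace Y ∧
        (∃ (κ : Type) (e : Y → κ → ℝ), Topology.IsEmbedding e ∧
          ∀ y, {i : κ | e y i ≠ 0}.Countable) ∧
        ∃ f : X × X → Y, Continuous f ∧ f ⁻¹' (f '' A) = A) := by
  intro X _ _ _ hs A
  obtain ⟨Γ, e, h1, h2, h3⟩ := (Pool.Agent.H33.Spl3.corson (X := X) fun A => by
    obtain ⟨Y, t, -, ⟨Γ, e, he, h⟩, f, hf, hA⟩ := hs A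
    exact ⟨Y, t, f, ⟨Γ, e, he.continuous, he.injective, h⟩, hf, hA⟩).prod
  exact ⟨X × X, inferInstance, inferInstance, ⟨Γ, e, (h1.isClosedEmbedding h2).isEmbedding, h3⟩,
    id, continuous_id, by simp⟩

end Pool.Agent.S13883
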