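import Pool.Statements.S13885

set_option autoImplicit false
open Pool Pool.MP_c36963_gt

namespace Pool.Agent.S13885

/-- There exists r : ℂ → ℂ mapping the closed unit disk into the unit circle, fixing the circle, with connected fibers in the disk, such that only finitely many circle points y fail: for all circle sequences s_n → y, every point of the Kuratowski lim sup of the fibers r⁻¹(s_n) lies in r⁻¹(y). -/
theorem result :
    ∃ r : ℂ → ℂ,
      (∀ z ∈ Metric.closedBall (0:ℂ) 1, r z ∈ Metric.sphere (0:ℂ) 1) ∧
      (∀ y ∈ Metric.sphere (0:ℂ) 1, r y = y) ∧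
      (∀ y ∈ Metric.sphere (0:ℂ) 1,
        IsConnected {z : ℂ | z ∈ Metric.closedBall (0:ℂ) 1 ∧ r z = y}) ∧
      Set.Finite {y : ℂ | y ∈ Metric.sphere (0:ℂ) 1 ∧
        ¬ (∀ s : ℕ → ℂ, (∀ n, s n ∈ Metric.sphere (0:ℂ) 1) →
            Filter.Tendsto s Filter.atTop (nhds y) →
            ∀ x : ℂ, (∀ ε : ℝ, ε > 0 → ∀ N : ℕ, ∃ n : ℕ, n ≥ N ∧
                ∃ z : ℂ, z ∈ Metric.closedBall (0:ℂ) 1 ∧ r z = s n ∧ dist z x < ε) →
              r x = y)} := by
  classical
  refine ⟨fun z => if ‖z‖ = 1 then z else 1, ?_, ?_, ?_, ?_⟩
  · intro z _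
    by_cases h : ‖z‖ = 1 <;> simp [h]
  · intro y hy
    simp only [mem_sphere_iff_norm, sub_zero] at hy
    simp [hy]
  · intro y hy
    simp only [mem_sphere_iff_norm, sub_zero] at hy
    by_cases h1 : y = 1
    · subst h1
      have hc : IsConnected (Metric.ball (0 : ℂ) 1) :=
        (convex_ball (0 : ℂ) 1).isConnected ⟨0, by simp⟩
      refine hc.subset_closure ?_ ?_
      · intro z hz
        simp only [mem_ball_zero_iff] at hz
        simp [hz.le, hz.ne]
      · intro z hz
        rw [closure_ball _ (by norm_num)]
        exact hz.1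
    · have : {z : ℂ | z ∈ Metric.closedBall (0:ℂ) 1 ∧ (if ‖z‖ = 1 then z else 1) = y} = {y} := by
        ext z
        simp only [Set.mem_ofPred_eq, mem_closedBall_zero_iff, Set.mem_singleton_iff]
        constructor
        · rintro ⟨-, h⟩
          split_ifs at h with h2
          · exact h
          · exact absurd h.symm h1
        · rintro rfl
          simp [hy]
      rw [this]
      exact isConnected_singleton
  · refine (Set.finite_singleton (1 : ℂ)).subset ?_
    rintro y ⟨hy, h⟩
    simp only [mem_sphere_iff_norm, sub_zero] at hy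
    by_contra h1
    apply h
    intro s _ hs x hx
    have hxy : x = y := by
      apply eq_of_forall_dist_le
      intro ε hε
      have hd : 0 < dist y 1 := dist_pos.2 h1
      obtain ⟨N, hN⟩ := Metric.tendsto_atTop.1 hs (min (ε / 2) (dist y 1)) (by positivity)
      obtain ⟨n, hn, z, -, hz, hzx⟩ := hx (ε / 2) (by positivity) N
      have h2 := hN n hn
      rw [lt_min_iff] at h2
      have h3 : z = s n := by
        simp only at hz
        split_ifs at hz with h4
        · exact hz
        · rw [← hz, dist_comm 1 y] at h2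
          exact absurd h2.2 (lt_irrefl _)
      rw [h3] at hzx
      have := dist_triangle_left x y (s n)
      linarith [h2.1]
    simp [hxy, hy]

end Pool.Agent.S13885
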