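import Pool.Statements.S13892
import Pool.Agent.H33.VL4

set_option autoImplicit false
open Pool Pool.MP_c4305c_gt

namespace Pool.Agent.S13892

/-- The negation of the preceding statement: For each infinite compact Hausdorff C there is a cardinal λ so that for every T1 space X: X×C is normal iff X is <λ-paracompact and w(C)-collectionwise normal, where w(C) is the least size of a base of C. -/
theorem result :
    ¬ (∀ (C : Type) [TopologicalSpace C] [CompactSpace C] [T2Space C] [Infinite C],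
    ∃ lam : Cardinal.{0}, ∀ (X : Type) [TopologicalSpace X] [T1Space X],
      (NormalSpace (X × C) ↔
        ((∀ (ι : Type) (U : ι → Set X), Cardinal.mk ι < lam → (∀ i, IsOpen (U i)) →
            (⋃ i, U i) = Set.univ →
            ∃ V : ι → Set X, (∀ i, IsOpen (V i)) ∧ (∀ i, V i ⊆ U i) ∧
              (⋃ i, V i) = Set.univ ∧ LocallyFinite V) ∧
         (∀ (ι : Type) (F : ι → Set X),
            Cardinal.mk ι ≤ sInf {κ : Cardinal.{0} | ∃ B : Set (Set C),
              TopologicalSpace.IsTopologicalBasis B ∧ Cardinal.mk B = κ} →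
            (∀ i, IsClosed (F i)) →
            (∀ x : X, ∃ W ∈ nhds x, ∀ i j, (W ∩ F i).Nonempty → (W ∩ F j).Nonempty → i = j) →
            ∃ V : ι → Set X, (∀ i, IsOpen (V i)) ∧ (∀ i, F i ⊆ V i) ∧
              Pairwise (Function.onFun Disjoint V))))) := by
  intro h
  obtain ⟨C, τ, a, b, c, ⟨X, σ, x1, x2, ι, U, u1, u2, u3, u4⟩, Y, ρ, y1, y2, y3, y4⟩ :=
    Pool.Agent.H33.VL4.main
  obtain ⟨lam, hl⟩ := h C
  rcases lt_or_ge (Cardinal.aleph 1) lam with e | e
  · obtain ⟨V, -, v2, v3, v4⟩ := ((hl X).1 x2).1 ι U (u1.trans_lt e) u2 u3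
    exact u4 V v2 v3 v4
  · exact y2 ((hl Y).2 ⟨fun ι U h => y3 ι U (Cardinal.mk_le_aleph0_iff.1 (Order.lt_succ_iff.1
      ((h.trans_le e).trans_eq Cardinal.succ_aleph0.symm))), fun ι F _ => y4 ι F⟩)

end Pool.Agent.S13892
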