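import Pool.Statements.S13903

set_option autoImplicit false
open Pool Pool.MP_c502b8_gt

namespace Pool.Agent.S13903

open Set Filter Topology

theorem cluster_of_cc {G : Type} [TopologicalSpace G]
    (hcc : ∀ U : ℕ → Set G, (∀ n, IsOpen (U n)) → Set.univ ⊆ ⋃ n, U n →
          ∃ s : Finset ℕ, Set.univ ⊆ ⋃ n ∈ s, U n) (u : ℕ → G) :
    ∃ x : G, ∀ n, x ∈ closure (u '' Ici n) := by
  by_contra hcon
  push Not at hcon
  obtain ⟨s, hs⟩ := hcc (fun n => (closure (u '' Ici n))ᶜ) (fun n => isClosed_closure.isOpen_compl)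
    (fun x _ => by
      obtain ⟨n, hn⟩ := hcon x
      exact mem_iUnion.2 ⟨n, hn⟩)
  have := hs (mem_univ (u (s.sup id)))
  simp only [mem_iUnion, mem_compl_iff] at this
  obtain ⟨n, hn, hn'⟩ := this
  exact hn' (subset_closure ⟨s.sup id, Finset.le_sup (f := id) hn, rfl⟩)

theorem result :
    ∀ (G H : Type) [Group G] [TopologicalSpace G] [IsTopologicalGroup G]
      [Group H] [TopologicalSpace H] [IsTopologicalGroup H],
      (∀ U : ℕ → Set G, (∀ n, IsOpen (U n)) → Set.univ ⊆ ⋃ n, U n →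
          ∃ s : Finset ℕ, Set.univ ⊆ ⋃ n ∈ s, U n) →
      (∀ K : Subgroup G, IsClosed (K : Set G) → TopologicalSpace.SeparableSpace ↥K) →
      (∃ N : Set (Set H), N.Countable ∧
          ∀ (x : H) (U : Set H), IsOpen U → x ∈ U → ∃ A ∈ N, x ∈ A ∧ A ⊆ U) →
      ∀ K : Subgroup (G × H), IsClosed (K : Set (G × H)) →
        TopologicalSpace.SeparableSpace ↥K := by
  intro G H _ _ _ _ _ _ hcc hsep ⟨N, hNc, hN⟩ K hK
  classical
  -- enumerate the network
  have hNne : N.Nonempty := by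
    obtain ⟨A, hA, -⟩ := hN 1 univ isOpen_univ (mem_univ _)
    exact ⟨A, hA⟩
  obtain ⟨e, he⟩ := hNc.exists_eq_range hNne
  -- for every finite set of indices choose a point of K over the intersection
  have hc : ∀ s : Finset ℕ, ∃ c : G × H, c ∈ K ∧
      ((∃ p : G × H, p ∈ K ∧ ∀ i ∈ s, p.2 ∈ e i) → ∀ i ∈ s, c.2 ∈ e i) := by
    intro s
    by_cases h : ∃ p : G × H, p ∈ K ∧ ∀ i ∈ s, p.2 ∈ e i
    · obtain ⟨p, hp, hp'⟩ := h
      exact ⟨p, hp, fun _ => hp'⟩
    · exact ⟨1, K.one_mem, fun h' => absurd h' h⟩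
  choose c hcK hc using hc
  -- the kernel part
  let M : Subgroup G := K.comap (MonoidHom.inl G H)
  have hMc : IsClosed (M : Set G) := by
    have : (M : Set G) = (fun x : G => (x, (1 : H))) ⁻¹' (K : Set (G × H)) := rfl
    rw [this]
    exact hK.preimage (by fun_prop)
  have := hsep M hMc
  obtain ⟨D, hDc, hDd⟩ := TopologicalSpace.exists_countable_dense ↥M
  let E : Set (G × H) := image2 (fun (d : M) (s : Finset ℕ) => ((d : G), (1 : H)) * c s) D univ
  have hEc : E.Countable := hDc.image2 countable_univ _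
  have hEK : E ⊆ K := by
    rintro _ ⟨d, -, s, -, rfl⟩
    exact K.mul_mem d.2 (hcK s)
  have hKE : (K : Set (G × H)) ⊆ closure E := by
    rintro ⟨g, h⟩ hgh
    let s : ℕ → Finset ℕ := fun n => (Finset.range n).filter (fun i => h ∈ e i)
    have hs : ∀ n, ∀ i ∈ s n, (c (s n)).2 ∈ e i := fun n =>
      hc (s n) ⟨(g, h), hgh, fun i hi => (Finset.mem_filter.1 hi).2⟩
    obtain ⟨g', hg'⟩ := cluster_of_cc hcc (fun n => (c (s n)).1)
    have h1 : (g', h) ∈ closure (range c) := by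
      rw [mem_closure_iff_nhds]
      intro W hW
      obtain ⟨U, hU, V, hV, hUV⟩ := mem_nhds_prod_iff.1 hW
      obtain ⟨V', hV'V, hV'o, hV'⟩ := mem_nhds_iff.1 hV
      obtain ⟨A, hAN, hhA, hAV⟩ := hN h V' hV'o hV'
      rw [he] at hAN
      obtain ⟨j, rfl⟩ := hAN
      obtain ⟨_, hxU, ⟨n, hn, rfl⟩⟩ := mem_closure_iff_nhds.1 (hg' (j + 1)) U hU
      refine ⟨c (s n), hUV ⟨hxU, hV'V (hAV (hs n j ?_))⟩, mem_range_self _⟩
      exact Finset.mem_filter.2 ⟨Finset.mem_range.2 hn, hhA⟩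
    have h2 : (g', h) ∈ K := by
      have : closure (range c) ⊆ K := closure_minimal (by rintro _ ⟨s, rfl⟩; exact hcK s) hK
      exact this h1
    have h3 : g * g'⁻¹ ∈ M := by
      have := K.mul_mem hgh (K.inv_mem h2)
      simpa [M] using this
    have h4 : (g * g'⁻¹, (1 : H)) ∈ closure ((fun d : M => ((d : G), (1 : H))) '' D) := by
      have hcont : Continuous (fun d : M => ((d : G), (1 : H))) := by fun_prop
      exact image_closure_subset_closure_image hcont ⟨⟨_, h3⟩, hDd _, rfl⟩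
    have h5 : (g, h) = (g * g'⁻¹, (1 : H)) * (g', h) := by simp
    rw [h5]
    have := map_mem_closure₂ (f := fun a b : G × H => a * b) (u := E) continuous_mul h4 h1 (by
      rintro _ ⟨d, hd, rfl⟩ _ ⟨s, rfl⟩
      exact ⟨d, hd, s, mem_univ _, rfl⟩)
    exact this
  refine ⟨⟨Subtype.val ⁻¹' E, hEc.preimage Subtype.val_injective, ?_⟩⟩
  intro x
  rw [closure_subtype]
  have : Subtype.val '' (Subtype.val ⁻¹' E : Set K) = E := by
    ext y
    constructor
    · rintro ⟨z, hz, rfl⟩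
      exact hz
    · intro hy
      exact ⟨⟨y, hEK hy⟩, hy, rfl⟩
  rw [this]
  exact hKE x.2

end Pool.Agent.S13903
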