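import Pool.Statements.S13912
import Pool.Agent.H82.UKw

set_option autoImplicit false
open Pool Pool.MP_c610d5_gt

namespace Pool.Agent.S13912

theorem result :
    ¬ (∀ (X Y : Type) [TopologicalSpace X] [TopologicalSpace Y] [T35Space X] [T35Space Y],
      Nonempty (UniformEquiv {f : X → ℝ // Continuous f} {g : Y → ℝ // Continuous g}) →
      ((∃ K : ℕ → Set X, (∀ n, IsCompact (K n)) ∧
          ∀ C : Set X, IsCompact C → ∃ n, C ⊆ K n) ∧
        (∀ A : Set X, (∀ C : Set X, IsCompact C → IsClosed (A ∩ C)) → IsClosed A)) →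
      ((∃ K : ℕ → Set Y, (∀ n, IsCompact (K n)) ∧
          ∀ C : Set Y, IsCompact C → ∃ n, C ⊆ K n) ∧
        (∀ A : Set Y, (∀ C : Set Y, IsCompact C → IsClosed (A ∩ C)) → IsClosed A))) := by
  intro h
  have := H82.FS.t35 H82.UKw.Z_le
  have : T35Space (H82.FS.FS H82.UKw.Z ⊕ ℝ) := H82.FS.t35_sum
  obtain ⟨e⟩ := H82.UKw.ue.sub
  refine H82.UKw.bad_not_closed ((h ℝ _ ⟨e.symm⟩ ⟨⟨fun n => Metric.closedBall 0 n,
    fun n => isCompact_closedBall _ _, fun C hC => ?_⟩, fun A hA => ?_⟩).2 _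
    fun C hC => (H82.UKw.bad_fin hC).isClosed)
  · obtain ⟨r, hr⟩ := hC.isBounded.subset_closedBall 0
    obtain ⟨n, hn⟩ := exists_nat_ge r
    exact ⟨n, hr.trans (Metric.closedBall_subset_closedBall hn)⟩
  · refine IsSeqClosed.isClosed fun u x hu hx => ?_
    exact ((hA _ hx.isCompact_insert_range).mem_of_tendsto hx
      (Filter.Eventually.of_forall fun n => ⟨hu n, Or.inr ⟨n, rfl⟩⟩)).1

end Pool.Agent.S13912
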