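import Pool.Statements.S13913
import Pool.Agent.H82.ScEG4

set_option autoImplicit false
open Pool Pool.MP_c6464f_gt

namespace Pool.Agent.S13913

open Pool.Agent.H82.ScEG2 in
theorem result :
  ∀ (L : Type) [TopologicalSpace L] [T35Space L] [LindelofSpace L],
    (∀ S : Set L, S.Nonempty → ∃ x ∈ S, ∃ U : Set L, IsOpen U ∧ U ∩ S = {x}) →
    ∀ K : Set {f : L → ℝ // Continuous f}, IsCompact K →
    ∀ Y : Set {g : K → ℝ // Continuous g},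
    ∀ 𝒰 : Set (Set Y), (∀ U ∈ 𝒰, IsOpen U) → ⋃₀ 𝒰 = Set.univ →
    ∃ 𝒢 : ℕ → Set (Set Y), (∀ n, ∀ G ∈ 𝒢 n, IsOpen G ∧ ∃ U ∈ 𝒰, G ⊆ U) ∧
      ∀ y : Y, ∃ n, (∃ G ∈ 𝒢 n, y ∈ G) ∧ {G ∈ 𝒢 n | y ∈ G}.Finite := by
  intro L _ _ _ h1 K hK Y 𝒰 h2 h3
  have : CompactSpace K := isCompact_iff_compactSpace.1 hK
  have h4 : Topology.IsEmbedding fun k : K => k.1.1 :=
    Topology.IsEmbedding.subtypeVal.comp Topology.IsEmbedding.subtypeVal
  exact weak_theta (fun ε hε => sld_all h4 (club_good h1 fun k => k.1.2) hε)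
    (F := fun y : Y => y.1.1)
    (Topology.IsInducing.subtypeVal.comp Topology.IsInducing.subtypeVal) (fun y => y.1.2) 𝒰 h2 h3

end Pool.Agent.S13913
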