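import Pool.Statements.S13925
import Pool.Agent.H60.DMc

set_option autoImplicit false
open scoped BoundedContinuousFunction
open Pool Pool.MP_c6ee25_gt

namespace Pool.Agent.S13925

/-- For every Hausdorff locally compact group G, the spectrum of its algebra of right uniformly continuous bounded functions (the maximal G-compactification) has the same covering dimension as G: for each n, one has dimension at most n iff the other does. -/
theorem result :
  ∀ (G : Type) [TopologicalSpace G] [Group G] [IsTopologicalGroup G] [LocallyCompactSpace G]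
    [T2Space G] (n : ℕ),
    (∀ (ι : Type) [Finite ι]
        (U : ι → Set ↥(WeakDual.characterSpace ℂ ↥(Algebra.adjoin ℂ
          {f : G →ᵇ ℂ | ∀ ε : ℝ, 0 < ε → ∃ W ∈ nhds (1 : G), ∀ u ∈ W, ∀ x : G,
            ‖f (u * x) - f x‖ < ε}))),
        (∀ i, IsOpen (U i)) → (⋃ i, U i) = Set.univ →
        ∃ (κ : Type) (_ : Finite κ)
          (V : κ → Set ↥(WeakDual.characterSpace ℂ ↥(Algebra.adjoin ℂ
            {f : G →ᵇ ℂ | ∀ ε : ℝ, 0 < ε → ∃ W ∈ nhds (1 : G), ∀ u ∈ W, ∀ x : G,
              ‖f (u * x) - f x‖ < ε}))),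
          (∀ k, IsOpen (V k)) ∧ (⋃ k, V k) = Set.univ ∧ (∀ k, ∃ i, V k ⊆ U i) ∧
          ∀ x, Nat.card {k // x ∈ V k} ≤ n + 1)
    ↔
    (∀ (ι : Type) [Finite ι] (U : ι → Set G),
        (∀ i, IsOpen (U i)) → (⋃ i, U i) = Set.univ →
        ∃ (κ : Type) (_ : Finite κ) (V : κ → Set G),
          (∀ k, IsOpen (V k)) ∧ (⋃ k, V k) = Set.univ ∧ (∀ k, ∃ i, V k ⊆ U i) ∧
          ∀ x, Nat.card {k // x ∈ V k} ≤ n + 1) := by
  intro G _ _ _ _ _ n
  exact Pool.Agent.H60.DM.main

end Pool.Agent.S13925
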