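import Pool.Statements.S13946
import Pool.Agent.H85.HexCap

set_option autoImplicit false
open Pool Pool.MP_cb3f7b_gt

namespace Pool.Agent.S13946

/-- The negation of the preceding statement: For n ≥ 2, suppose K, K₁, K₂ are convex bodies in ℝⁿ and K lies in the interiors of both K₁ and K₂. If every hyperplane supporting K cuts K₁ and K₂ in sections of equal (n−1)-dimensional measure, then K₁ = K₂. -/
theorem result :
    ¬ (∀ n : ℕ, 2 ≤ n →
    ∀ K K₁ K₂ : Set (EuclideanSpace ℝ (Fin n)),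
      Convex ℝ K → IsCompact K → (interior K).Nonempty →
      Convex ℝ K₁ → IsCompact K₁ → (interior K₁).Nonempty →
      Convex ℝ K₂ → IsCompact K₂ → (interior K₂).Nonempty →
      K ⊆ interior K₁ ∩ interior K₂ →
      (∀ u : EuclideanSpace ℝ (Fin n), u ≠ 0 → ∀ c : ℝ,
          (∀ x ∈ K, inner ℝ u x ≤ c) → (∃ x ∈ K, inner ℝ u x = c) →
          MeasureTheory.Measure.hausdorffMeasure ((n : ℝ) - 1)
              (K₁ ∩ {x : EuclideanSpace ℝ (Fin n) | inner ℝ u x = c}) =
            MeasureTheory.Measure.hausdorffMeasure ((n : ℝ) - 1)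
              (K₂ ∩ {x : EuclideanSpace ℝ (Fin n) | inner ℝ u x = c})) →
      K₁ = K₂) := by
  intro h
  open Pool.Agent.H85.HexCap in
  have h0 : (0 : E) ∈ hex 0 := by simp [hex]
  have hi : ∀ ε : ℝ, ε = 1 ∨ ε = -1 → hex (19 / 25) ⊆ interior (body ε) := fun ε hε =>
    (hex_sub (by norm_num)).trans (interior_mono (hex_body hε))
  have h1 : (0 : E) ∈ hex (19 / 25) := by simp [hex]; norm_num
  have := h 2 le_rfl (hex (19 / 25)) (body 1) (body (-1)) (hex_convex _) hex_compact
    ⟨0, hex_sub (by norm_num) h0⟩ (body_convex _) (body_compact (Or.inl rfl))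
    ⟨0, hi 1 (Or.inl rfl) h1⟩ (body_convex _) (body_compact (Or.inr rfl))
    ⟨0, hi (-1) (Or.inr rfl) h1⟩ (Set.subset_inter (hi _ (Or.inl rfl)) (hi _ (Or.inr rfl))) ?_
  · have h2 : (!₂[-101 / 200, -101 / 200] : E) ∈ body 1 := by
      simp only [body, M, Set.mem_ofPred_eq]
      norm_num
    rw [this] at h2
    simp only [body, M, Set.mem_ofPred_eq] at h2
    norm_num at h2
  · intro u hu c hc1 hc2
    have hin : ∀ x : E, inner ℝ u x = u 0 * x 0 + u 1 * x 1 := fun x => by
      simp [PiLp.inner_apply, Fin.sum_univ_two, mul_comm]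
    simp only [hin] at hc1 hc2 ⊢
    obtain ⟨x, y, z, k1, k2, k3⟩ := chord (α := u 0) (β := u 1) (γ := 0) (c := c)
      (fun k => hu (by ext i; fin_cases i <;> simp [k.1, k.2])) ⟨fun a b s k1 k2 k3 k4 => by
        have := hc1 !₂[a, b] ⟨k2, k3, by
          rw [show s = -a - b by linarith] at k4
          exact k4⟩
        simpa using this, by
        obtain ⟨p, hp, hpc⟩ := hc2
        exact ⟨p 0, p 1, -p 0 - p 1, by ring, hp.1, hp.2.1, hp.2.2, by linarith⟩⟩
    rw [← (IsometryEquiv.addRight (!₂[x, y] : E)).hausdorffMeasure_preimage _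
      (body (-1) ∩ {x : E | u 0 * x 0 + u 1 * x 1 = c})]
    congr 1
    ext p
    simp only [Set.mem_inter_iff, Set.mem_preimage, body, Set.mem_ofPred_eq,
      IsometryEquiv.addRight_apply, PiLp.add_apply, one_mul, neg_mul, Matrix.cons_val_zero,
      Matrix.cons_val_one]
    have e : u 0 * (p 0 + x) + u 1 * (p 1 + y) = c ↔ u 0 * p 0 + u 1 * p 1 = c :=
      ⟨fun _ => by linarith, fun _ => by linarith⟩
    rw [e]
    refine and_congr_left fun k => ?_
    rw [k3 _ _ _ (by ring) (by linarith), show -p 0 - p 1 + z = -(p 0 + x) - (p 1 + y) by linarith]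

end Pool.Agent.S13946
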