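import Pool.Statements.S14028
import Pool.Agent.H15.TEmb9

set_option autoImplicit false
open Pool Pool.MP_d6b4bb_gt

namespace Pool.Agent.S14028

/-- The negation of the preceding statement: For an index set of size aleph-one, the continuous real functions on the Cantor cube {0,1}^ω₁ (pointwise topology) embed topologically into the continuous real functions on the Tychonoff cube [0,1]^ω₁ (pointwise topology). -/
theorem result :
    ¬ (∀ ι : Type, Cardinal.mk ι = Cardinal.aleph 1 →
      ∃ f : {g : (ι → Bool) → ℝ // Continuous g} →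
            {g : (ι → unitInterval) → ℝ // Continuous g},
        Topology.IsEmbedding f) := by
  classical
  intro h
  have h0 : Cardinal.mk (Ordinal.omega 1).ToType = Cardinal.aleph 1 := by
    rw [Cardinal.mk_toType, Ordinal.card_omega]
  obtain ⟨f, hf⟩ := h _ h0
  obtain ⟨N, hN, hN'⟩ := Pool.Agent.H15.TEmb.network f hf.continuous
  let p : (Ordinal.omega 1).ToType → {g : ((Ordinal.omega 1).ToType → Bool) → ℝ // Continuous g} :=
    fun a => ⟨fun x => if x a = true then 1 else 0, (continuous_of_discreteTopology
      (f := fun b : Bool => if b = true then (1 : ℝ) else 0)).comp (continuous_apply a)⟩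
  have h1 : ∀ a, ∃ n ∈ N, f (p a) ∈ n ∧ ∀ b, f (p b) ∈ n → b = a := by
    intro a
    obtain ⟨U, hU, hU'⟩ := hf.isInducing.isOpen_iff.1
      (isOpen_lt (f := fun _ => (0 : ℝ)) (g := fun g => g.1 fun b => decide (b = a))
        continuous_const ((continuous_apply _).comp continuous_subtype_val))
    have h2 : ∀ b, f (p b) ∈ U ↔ b = a := by
      intro b
      rw [← Set.mem_preimage, hU']
      by_cases h3 : b = a <;> simp [p, h3]
    obtain ⟨n, h3, h4, h5⟩ := hN' _ ⟨p a, rfl⟩ U hU ((h2 a).2 rfl)
    exact ⟨n, h3, h4, fun b hb => (h2 b).1 (h5 hb).1⟩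
  choose n h2 h3 h4 using h1
  have := hN.to_subtype
  have h5 : Countable (Ordinal.omega 1).ToType := Function.Injective.countable
    (f := fun a => (⟨n a, h2 a⟩ : N)) fun a b h => h4 b a (by
      rw [← show n a = n b from congrArg Subtype.val h]; exact h3 a)
  have h6 := Cardinal.mk_le_aleph0_iff.2 h5
  rw [h0] at h6
  exact not_lt.2 h6 Cardinal.aleph0_lt_aleph_one

end Pool.Agent.S14028
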