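import Pool.Statements.S14032
import Pool.Agent.H81.HadZon

set_option autoImplicit false
open Pool Pool.MP_d722ac_gt

namespace Pool.Agent.S14032

/-- The negation of the preceding statement: There is an absolute constant C such that for every n and every origin-symmetric convex body K in R^n, the sphere-average over directions u of the volume of the polar of the Steiner symmetral of K in direction u is at most C times the volume of the polar of K. -/
theorem result :
    ¬ (∃ C : NNReal, ∀ n : ℕ, 1 ≤ n →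
      ∀ K : ConvexBody (EuclideanSpace ℝ (Fin n)),
        (∀ x ∈ K, -x ∈ K) →
        (interior (K : Set (EuclideanSpace ℝ (Fin n)))).Nonempty →
        ∫⁻ y in Metric.ball (0 : EuclideanSpace ℝ (Fin n)) 1,
            MeasureTheory.volume
              {z : EuclideanSpace ℝ (Fin n) |
                ∀ x ∈ {w : EuclideanSpace ℝ (Fin n) |
                    (∃ s : ℝ, w - (inner ℝ w (‖y‖⁻¹ • y)) • (‖y‖⁻¹ • y) + s • (‖y‖⁻¹ • y) ∈ K) ∧
                    ENNReal.ofReal (2 * |inner ℝ w (‖y‖⁻¹ • y)|) ≤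
                      MeasureTheory.volume
                        {s : ℝ | w - (inner ℝ w (‖y‖⁻¹ • y)) • (‖y‖⁻¹ • y) + s • (‖y‖⁻¹ • y) ∈ K}},
                  inner ℝ x z ≤ (1 : ℝ)}
          ≤ (C : ENNReal) * MeasureTheory.volume (Metric.ball (0 : EuclideanSpace ℝ (Fin n)) 1)
              * MeasureTheory.volume {z : EuclideanSpace ℝ (Fin n) | ∀ x ∈ K, inner ℝ x z ≤ (1 : ℝ)}) := by
  rintro ⟨C, h⟩
  obtain ⟨n, hn, K, hc, hK, hi, hs, h0, h1, H⟩ := H81.HadZon.main ((C : ℝ) + 1)
  have h2 := h n hn ⟨K, hK, hc, hi.mono interior_subset⟩ hs hi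
  have : Nonempty (Fin n) := ⟨⟨0, hn⟩⟩
  have h3 := le_trans (MeasureTheory.setLIntegral_mono_ae' Metric.isOpen_ball.measurableSet
    (f := fun _ => ENNReal.ofReal ((C : ℝ) + 1) *
      MeasureTheory.volume {y | ∀ x ∈ K, inner ℝ x y ≤ (1 : ℝ)}) (by
      have hne : ∀ᵐ y : EuclideanSpace ℝ (Fin n), y ≠ 0 := by
        simp [MeasureTheory.ae_iff]
      filter_upwards [hne] with y hy _
      have hu : ‖‖y‖⁻¹ • y‖ = 1 := by
        rw [norm_smul, norm_inv, norm_norm, inv_mul_cancel₀ (norm_ne_zero_iff.2 hy)]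
      refine H _ hu _ fun z hz x hx => ?_
      obtain ⟨s1, s2, a1, a2, a3⟩ := H81.SteinerPolar.chord hc hK hu hx.1 hx.2
      refine hz x (s1 - inner ℝ x (‖y‖⁻¹ • y)) (s2 - inner ℝ x (‖y‖⁻¹ • y)) ?_ ?_ (by linarith)
      · convert a1 using 1; module
      · convert a2 using 1; module)) h2
  rw [MeasureTheory.setLIntegral_const, mul_right_comm] at h3
  have h4 := (ENNReal.mul_le_mul_iff_left h0 h1).1 h3
  rw [ENNReal.mul_le_mul_iff_left (Metric.measure_ball_pos _ _ one_pos).ne'
    MeasureTheory.measure_ball_lt_top.ne, ← ENNReal.ofReal_coe_nnreal,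
    ENNReal.ofReal_le_ofReal_iff (NNReal.coe_nonneg C)] at h4
  linarith

end Pool.Agent.S14032
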