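import Pool.Statements.S14036
import Pool.Agent.H82.HewittPF

set_option autoImplicit false
open Pool Pool.MP_d88d39_gt

namespace Pool.Agent.S14036

open Pool.Agent.H82.HewittPF Filter Topology in
theorem result :
    ¬ (∀ (X : Type) [TopologicalSpace X] [T35Space X],
      (∀ 𝒰 : Set (Set {f : X → ℝ // Continuous f}),
          (∀ U ∈ 𝒰, IsOpen U ∧ U.Nonempty) →
          (∀ y : {f : X → ℝ // Continuous f}, {U | U ∈ 𝒰 ∧ y ∈ U}.Finite) →
          𝒰.Countable) →
      (∀ 𝒰 : Set (Set {f : {p : StoneCech X //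
              ∀ (g : X → Set.Icc (-1 : ℝ) 1) (hg : Continuous g),
                (∀ x, ((g x : ℝ)) ∈ Set.Ioo (-1 : ℝ) 1) →
                ((stoneCechExtend hg p : Set.Icc (-1 : ℝ) 1) : ℝ) ∈ Set.Ioo (-1 : ℝ) 1}
              → ℝ // Continuous f}),
          (∀ U ∈ 𝒰, IsOpen U ∧ U.Nonempty) →
          (∀ y, {U | U ∈ 𝒰 ∧ y ∈ U}.Finite) →
          𝒰.Countable)) := by
  classical
  intro H
  have H' := H X pf_countable
  choose p hp using exists_top
  have hext : ∀ (g : X → Set.Icc (-1 : ℝ) 1) (hg : Continuous g) (a : ℝ) (s0 : W),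
      (∀ s, s0 ≤ s → g (pt (a, s)) = g (pt (a, s0))) →
      stoneCechExtend hg (p a) = g (pt (a, s0)) := by
    intro g hg a s0 h
    refine hp a s0 {q | stoneCechExtend hg q = g (pt (a, s0))}
      (isClosed_eq (continuous_stoneCechExtend hg) continuous_const) fun s hs => ?_
    change stoneCechExtend hg (stoneCechUnit _) = _
    rw [stoneCechExtend_stoneCechUnit, h s hs]
  let P : StoneCech X → Prop := fun q => ∀ (g : X → Set.Icc (-1 : ℝ) 1) (hg : Continuous g),
    (∀ x, ((g x : ℝ)) ∈ Set.Ioo (-1 : ℝ) 1) →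
    ((stoneCechExtend hg q : Set.Icc (-1 : ℝ) 1) : ℝ) ∈ Set.Ioo (-1 : ℝ) 1
  have hPu : ∀ x, P (stoneCechUnit x) := fun x g hg h => by
    rw [stoneCechExtend_stoneCechUnit]; exact h x
  have hPp : ∀ a, P (p a) := fun a g hg h => by
    obtain ⟨s0, hs0⟩ := ev_const (continuous_subtype_val.comp hg) a
    rw [hext g hg a s0 fun s hs => Subtype.ext (hs0 s hs)]
    exact h _
  let U : ℝ → Set {f : Subtype P → ℝ // Continuous f} := fun a =>
    {f | 1 / 2 < |f.1 ⟨p a, hPp a⟩ - f.1 ⟨stoneCechUnit y, hPu y⟩|}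
  let G : ℝ → {f : Subtype P → ℝ // Continuous f} := fun a =>
    ⟨fun q => ((stoneCechExtend (col_cont a) q.1 : Set.Icc (-1 : ℝ) 1) : ℝ), continuous_subtype_val.comp
      ((continuous_stoneCechExtend (col_cont a)).comp continuous_subtype_val)⟩
  have hG : ∀ a b, G a ∈ U b ↔ b = a := by
    intro a b
    change 1 / 2 < |((stoneCechExtend (col_cont a) (p b) : Set.Icc (-1 : ℝ) 1) : ℝ) -
      ((stoneCechExtend (col_cont a) (stoneCechUnit y) : Set.Icc (-1 : ℝ) 1) : ℝ)| ↔ _
    rw [stoneCechExtend_stoneCechUnit,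
      hext _ (col_cont a) b (Classical.arbitrary W) fun s _ => rfl]
    change 1 / 2 < |(col a (some (b, _)) : ℝ) - col a none| ↔ _
    by_cases h : b = a
    · simp only [col, h, if_true]; norm_num
    · simp only [col, h, if_false]; norm_num
  have hinj : Function.Injective U := fun a b e => (hG b a).1 (e ▸ (hG b b).2 rfl)
  have hc := H' (Set.range U) ?_ ?_
  · exact Cardinal.not_countable_real
      ((hc.preimage_of_injOn hinj.injOn).mono fun a _ => Set.mem_range_self (f := U) a)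
  · rintro _ ⟨a, rfl⟩
    refine ⟨isOpen_lt continuous_const ?_, G a, (hG a a).2 rfl⟩
    have e : ∀ q : Subtype P, Continuous fun f : {f : Subtype P → ℝ // Continuous f} => f.1 q :=
      fun q => (continuous_apply q).comp continuous_subtype_val
    exact ((e _).sub (e _)).abs
  · intro f
    let u : X → Subtype P := fun x => ⟨stoneCechUnit x, hPu x⟩
    have hu : Continuous u := continuous_stoneCechUnit.subtype_mk _
    have h1 := Metric.tendsto_nhds.1 (good_of_cont (f.2.comp hu)).2 (1 / 2) (by norm_num)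
    obtain ⟨A, hA, B, hB, hAB⟩ := eventually_prod_iff.1 h1
    obtain ⟨s0, hs0⟩ := eventually_atTop.1 hB
    refine ((eventually_cofinite.1 hA).image U).subset ?_
    rintro _ ⟨⟨a, rfl⟩, hf⟩
    refine ⟨a, fun ha => ?_, rfl⟩
    have hcl : IsClosed {q : Subtype P | |f.1 q - f.1 (u y)| ≤ 1 / 2} :=
      isClosed_le (f.2.sub continuous_const).abs continuous_const
    obtain ⟨C, hC, hCe⟩ := isClosed_induced_iff.1 hcl
    have h2 : p a ∈ C := hp a s0 C hC fun s hs => by
      have : u (pt (a, s)) ∈ Subtype.val ⁻¹' C := by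
        rw [hCe]
        exact le_of_lt (hAB ha (hs0 s hs))
      exact this
    have h3 : (⟨p a, hPp a⟩ : Subtype P) ∈ Subtype.val ⁻¹' C := h2
    rw [hCe] at h3
    have h4 : |f.1 ⟨p a, hPp a⟩ - f.1 (u y)| ≤ 1 / 2 := h3
    exact absurd (lt_of_lt_of_le hf h4) (lt_irrefl _)

end Pool.Agent.S14036
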