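import Pool.Statements.S14041
import Pool.Agent.H33.CantorGlue

set_option autoImplicit false
open Pool Pool.MP_d91817_gt

namespace Pool.Agent.S14041

/-- There is a metric space Y and a map f continuous on [0,1] whose fibers there have at most n points (some n ≥ 1), such that f is not finitely linear in the mesh-partition sense defined above. -/
theorem result :
    ∃ (Y : Type) (_ : MetricSpace Y) (f : ℝ → Y) (n : ℕ),
      0 < n ∧ ContinuousOn f (Set.Icc (0:ℝ) 1) ∧
      (∀ y : Y, {x : ℝ | x ∈ Set.Icc (0:ℝ) 1 ∧ f x = y}.encard ≤ (n : ℕ∞)) ∧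
      ¬ ∃ m : ℕ, 0 < m ∧ ∀ ε : ℝ, 0 < ε →
        ∃ (k : ℕ) (t : ℕ → ℝ), 0 < k ∧ t 0 = 0 ∧ t k = 1 ∧
          (∀ i, i < k → t i < t (i + 1) ∧ t (i + 1) - t i < ε) ∧
          ∀ i, i < k →
            {j : ℕ | j < k ∧
              (f '' Set.Icc (t i) (t (i + 1)) ∩ f '' Set.Icc (t j) (t (j + 1))).Nonempty}.encard
              ≤ (m : ℕ∞) := by
  obtain ⟨f, h1, h2, h3⟩ := Pool.Agent.H33.CantorGlue.exists_f
  refine ⟨ℝ × ℝ × ℝ, inferInstance, f, 2, by norm_num, h1.continuousOn, fun y => ?_,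
    Pool.Agent.H33.CantorGlue.not_fin_lin f h3⟩
  exact le_trans (Set.encard_le_encard (fun x hx => hx.2)) (h2 y)

end Pool.Agent.S14041
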