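import Pool.Statements.S14050
import Pool.Agent.H82.MazB

set_option autoImplicit false
open Pool Pool.MP_da03b0_gt

namespace Pool.Agent.S14050

open Pool.Agent.H82.MazA Pool.Agent.H82.MazB in
theorem result :
    ¬ (∀ n : ℕ, 2 ≤ n → ∀ A : Set (EuclideanSpace ℝ (Fin n)),
      (∀ 𝒰 : Finset (Set (EuclideanSpace ℝ (Fin n))), (∀ U ∈ 𝒰, IsOpen U) → A ⊆ ⋃₀ (↑𝒰 : Set (Set (EuclideanSpace ℝ (Fin n)))) →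
        ∃ 𝒱 : Finset (Set (EuclideanSpace ℝ (Fin n))),
          (∀ V ∈ 𝒱, IsOpen V ∧ ∃ U ∈ 𝒰, V ∩ A ⊆ U) ∧
          A ⊆ ⋃₀ (↑𝒱 : Set (Set (EuclideanSpace ℝ (Fin n)))) ∧
          ∀ z ∈ A, {V | V ∈ 𝒱 ∧ z ∈ V}.ncard ≤ (n - 2) + 1) →
      ∀ x y : EuclideanSpace ℝ (Fin n), x ∉ A → y ∉ A → x ≠ y →
        ∃ C : Set (EuclideanSpace ℝ (Fin n)),
          IsCompact C ∧ IsConnected C ∧ x ∈ C ∧ y ∈ C ∧ C ⊆ Aᶜ ∧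
          (∀ 𝒰 : Finset (Set (EuclideanSpace ℝ (Fin n))), (∀ U ∈ 𝒰, IsOpen U) → C ⊆ ⋃₀ (↑𝒰 : Set (Set (EuclideanSpace ℝ (Fin n)))) →
            ∃ 𝒱 : Finset (Set (EuclideanSpace ℝ (Fin n))),
              (∀ V ∈ 𝒱, IsOpen V ∧ ∃ U ∈ 𝒰, V ∩ C ⊆ U) ∧
              C ⊆ ⋃₀ (↑𝒱 : Set (Set (EuclideanSpace ℝ (Fin n)))) ∧
              ∀ z ∈ C, {V | V ∈ 𝒱 ∧ z ∈ V}.ncard ≤ 1 + 1) ∧
          ¬ (∀ 𝒰 : Finset (Set (EuclideanSpace ℝ (Fin n))), (∀ U ∈ 𝒰, IsOpen U) → C ⊆ ⋃₀ (↑𝒰 : Set (Set (EuclideanSpace ℝ (Fin n)))) →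
            ∃ 𝒱 : Finset (Set (EuclideanSpace ℝ (Fin n))),
              (∀ V ∈ 𝒱, IsOpen V ∧ ∃ U ∈ 𝒰, V ∩ C ⊆ U) ∧
              C ⊆ ⋃₀ (↑𝒱 : Set (Set (EuclideanSpace ℝ (Fin n)))) ∧
              ∀ z ∈ C, {V | V ∈ 𝒱 ∧ z ∈ V}.ncard ≤ 0 + 1)) := by
  intro H
  obtain ⟨C, h1, h2, h3, h4, h5, h6, -⟩ := H 3 (by norm_num) A (fun 𝒰 hU hc => by
      obtain ⟨𝒱, k1, k2, k3⟩ := A_d1 𝒰 hU hc
      refine ⟨𝒱, k1, k2, fun z hz => ?_⟩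
      by_contra hn
      obtain ⟨a, b, c, ha, hb, hc, n1, n2, n3⟩ := (Set.two_lt_ncard_iff
        (𝒱.finite_toSet.subset fun V hV => hV.1)).1 (not_le.1 hn)
      rcases k3 z hz a ha.1 b hb.1 c hc.1 ha.2 hb.2 hc.2 with h | h | h
      exacts [n1 h, n2 h, n3 h]) !₂[0, 0, 0] !₂[1, 0, 0]
    (fun h => not_irrational_zero h.1) (fun h => not_irrational_one h.1)
    (fun h => by simpa using congrArg (fun p : E => p 0) h)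
  refine no_cont h1.isClosed h2.isPreconnected h5 h3 h4 (by simp) subset_rfl fun 𝒰 hU hc => ?_
  obtain ⟨𝒱, k1, k2, k3⟩ := h6 𝒰 hU hc
  refine ⟨𝒱, k1, k2, fun z hz a ha b hb c hc l1 l2 l3 => ?_⟩
  by_contra hn
  push Not at hn
  exact absurd (k3 z hz) (not_le.2 ((Set.two_lt_ncard_iff
    (𝒱.finite_toSet.subset fun V hV => hV.1)).2 ⟨a, b, c, ⟨ha, l1⟩, ⟨hb, l2⟩, ⟨hc, l3⟩, hn⟩))

end Pool.Agent.S14050
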