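import Pool.Statements.S14059
import Pool.Agent.H82.MonoMon

set_option autoImplicit false
open Pool Pool.MP_dacbbd_gt

namespace Pool.Agent.S14059

theorem result :
    ∀ (X : Type) [TopologicalSpace X] [CompactSpace X] [T2Space X],
      (∃ O : Set X → Set (Set X),
        (∀ A : Set X, Cardinal.mk ↥(O A) ≤ max (Cardinal.mk ↥A) Cardinal.aleph0) ∧
        (∀ A : Set X, ∀ x ∈ closure A, ∀ U : Set X, IsOpen U → x ∈ U →
          ∃ N ∈ O A, x ∈ N ∧ N ⊆ U) ∧
        (∀ A B : Set X, A ⊆ B → O A ⊆ O B) ∧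
        (∀ c : Set (Set X), c.Nonempty → IsChain (· ⊆ ·) c →
          O (⋃₀ c) = ⋃ A ∈ c, O A)) →
      ∃ D : Set X, Dense D ∧ TopologicalSpace.MetrizableSpace ↥D := by
  rintro X _ _ _ ⟨O, h1, h2, h3, h4⟩
  refine H82.MonoMon.dense_metrizable O ?_ h2 ?_
  · intro A hA
    rw [← Cardinal.le_aleph0_iff_set_countable]
    exact (h1 A).trans (max_le (Cardinal.le_aleph0_iff_set_countable.2 hA.countable) le_rfl)
  · intro x
    have hm : Monotone fun n : ℕ => x '' Set.Iio n := fun a b hab =>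
      Set.image_mono (Set.Iio_subset_Iio hab)
    have := h4 (Set.range fun n : ℕ => x '' Set.Iio n) (Set.range_nonempty _) hm.isChain_range
    have e : ⋃₀ (Set.range fun n : ℕ => x '' Set.Iio n) = Set.range x := by
      ext y
      simp only [Set.sUnion_range, Set.mem_iUnion, Set.mem_image, Set.mem_Iio, Set.mem_range]
      exact ⟨fun ⟨_, i, _, h⟩ => ⟨i, h⟩, fun ⟨i, h⟩ => ⟨i + 1, i, by omega, h⟩⟩
    rw [e] at this
    rw [this, Set.biUnion_range]

end Pool.Agent.S14059
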