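import Pool.Statements.S14065
import Pool.Agent.H33.PFRank

set_option autoImplicit false
open TopologicalSpace
open Pool Pool.MP_db61f9_gt

namespace Pool.Agent.S14065

/-- Take any regular T1 space in which every family of disjoint nonempty open sets is countable. Suppose it has a base where, at each point, inclusion-incomparable base sets containing that point are boundedly few. Then it has a base in which each point lies in only countably many members. -/
theorem result :
    ∀ (X : Type) [TopologicalSpace X] [T3Space X],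
      (∀ 𝒰 : Set (Set X), (∀ U ∈ 𝒰, IsOpen U ∧ U.Nonempty) →
          𝒰.PairwiseDisjoint id → 𝒰.Countable) →
      (∃ ℬ : Set (Set X), IsTopologicalBasis ℬ ∧
          ∀ x : X, ∃ n : ℕ, ∀ 𝒜 : Finset (Set X),
            (∀ A ∈ 𝒜, A ∈ ℬ ∧ x ∈ A) →
            IsAntichain (· ⊆ ·) (𝒜 : Set (Set X)) → 𝒜.card ≤ n) →
      ∃ ℬ : Set (Set X), IsTopologicalBasis ℬ ∧
        ∀ x : X, {B ∈ ℬ | x ∈ B}.Countable := by
  rintro X _ _ hccc ⟨ℬ, hb, hr⟩
  refine Pool.Agent.H33.PFRank.final hccc hb fun x => ?_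
  obtain ⟨n, hn⟩ := hr x
  exact ⟨n, fun 𝒜 h1 h2 => hn 𝒜 (fun A hA => ⟨(h1 A hA).1, (h1 A hA).2.1⟩) h2⟩

end Pool.Agent.S14065
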