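import Pool.Statements.S14078
import Pool.Agent.H82.GasB

set_option autoImplicit false
open Pool Pool.MP_dce2ef_gt

namespace Pool.Agent.S14078

open Pool.Agent.H82.GasA Pool.Agent.H82.GasB in
theorem result :
    ¬ (∀ (n : ℕ), 1 < n →
  ∀ (X : Type) [MetricSpace X] [CompactSpace X] [ConnectedSpace X] [LocallyConnectedSpace X],
    (∀ (k : ℕ) (U : Fin k → Set X), (∀ i, IsOpen (U i)) → (⋃ i, U i) = Set.univ →
      ∃ V : Fin k → Set X, (∀ i, IsOpen (V i)) ∧ (∀ i, V i ⊆ U i) ∧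
        (⋃ i, V i) = Set.univ ∧ ∀ x : X, {i | x ∈ V i}.ncard ≤ n + 1) →
    ¬ (∀ (k : ℕ) (U : Fin k → Set X), (∀ i, IsOpen (U i)) → (⋃ i, U i) = Set.univ →
      ∃ V : Fin k → Set X, (∀ i, IsOpen (V i)) ∧ (∀ i, V i ⊆ U i) ∧
        (⋃ i, V i) = Set.univ ∧ ∀ x : X, {i | x ∈ V i}.ncard ≤ n) →
    ∃ (m : ℕ → ℕ) (K : ∀ k : ℕ, Geometry.SimplicialComplex ℝ (EuclideanSpace ℝ (Fin (m k)))),
      (∀ k, (K k).faces.Finite) ∧
      (∀ k, ∀ s ∈ (K k).faces, s.card ≤ n + 1) ∧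
      (∀ k, ∃ s ∈ (K k).faces, s.card = n + 1) ∧
      ∃ (f : ∀ k : ℕ, (K (k + 1)).space → (K k).space),
        (∀ k, Continuous (f k)) ∧
        (∀ k, Function.Surjective (f k)) ∧
        (∀ k (y : (K k).space), IsConnected ((f k) ⁻¹' {y})) ∧
        Nonempty (X ≃ₜ {x : ∀ k : ℕ, (K k).space // ∀ k, f k (x (k + 1)) = x k})) := by
  intro H
  obtain ⟨m, K, hf, -, h3, g, hg, hs, hm, ⟨h⟩⟩ := H 2 (by norm_num) X dim_le dim_ge
  have cs : ∀ k, CompactSpace (K k).space := fun k => isCompact_iff_compactSpace.1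
    ((hf k).isCompact_biUnion fun s _ => s.finite_toSet.isCompact_convexHull ℝ)
  let π : ∀ k, X → (K k).space := fun k x => (h x).1 k
  have hp : ∀ k, Continuous (π k) := fun k =>
    (continuous_apply k).comp (continuous_subtype_val.comp h.continuous)
  have hc : ∀ k x, g k (π (k + 1) x) = π k x := fun k x => (h x).2 k
  have hi : ∀ a b, (∀ k, π k a = π k b) → a = b := fun a b e =>
    h.injective (Subtype.ext (funext e))
  have su : ∀ k, Function.Surjective (π k) := fun k y => by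
    obtain ⟨x, h1, h2⟩ := lift_seq k (fun k => (K k).space) g hs y
    exact ⟨h.symm ⟨x, h1⟩, by simpa [π] using h2⟩
  obtain ⟨n, hn⟩ := far hp hc hi (A := {⟨e 1, Or.inl (e_G 1)⟩}) (B := {x | x.1 ∈ D})
    isClosed_singleton (D_compact.isClosed.preimage continuous_subtype_val)
    (Set.disjoint_singleton_left.2 (by simp [D, e]))
  exact no_map (K n) (hf n) (h3 n) (π n) (hp n) (su n) (fib_conn hp hc hi su hg hm n) _
    (hn n le_rfl _ rfl)

end Pool.Agent.S14078
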