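import Pool.Statements.S14083
import Pool.Agent.H71.Tym3

set_option autoImplicit false
open Pool Pool.MP_dd0f47_gt

namespace Pool.Agent.S14083

/-- Let X be a metric continuum in which, for each ε>0, disjoint connected sets of diameter >ε are finitely many. Suppose each monotone continuous Hausdorff image of X embeds in a metric continuum covered by countably many arcs. Then every connected subset of X is path-connected. -/
theorem result :
    ∀ (X : Type) [MetricSpace X] [CompactSpace X] [ConnectedSpace X],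
      (∀ ε : ℝ, 0 < ε → ∀ 𝒮 : Set (Set X), 𝒮.PairwiseDisjoint id →
          (∀ S ∈ 𝒮, IsConnected S ∧ ε < Metric.diam S) → 𝒮.Finite) →
      (∀ (Y : Type) [TopologicalSpace Y] [T2Space Y] (f : X → Y),
          Continuous f → Function.Surjective f → (∀ y : Y, IsConnected (f ⁻¹' {y})) →
          ∃ (Z : Type) (_ : MetricSpace Z), CompactSpace Z ∧ ConnectedSpace Z ∧
            ∃ g : Y → Z, Topology.IsEmbedding g ∧
              ∃ A : ℕ → Set Z, (∀ n : ℕ, Nonempty (↥(A n) ≃ₜ unitInterval)) ∧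
                (⋃ n, A n) = Set.univ) →
      ∀ S : Set X, IsConnected S → IsPathConnected S := by
  intro X _ _ _ hA hB S hS
  have hN : Pool.Agent.H71.Lel.Nul X := fun ε hε C h1 h2 h3 => by
    have hne : ∀ n, (C n).Nonempty := fun n => (h3 n).imp fun _ h => h.1
    refine Set.infinite_range_of_injective (f := C) (fun i j hij => by_contra fun h => ?_)
      (hA (ε / 2) (half_pos hε) _ ?_ ?_)
    · have : Disjoint (C i) (C j) := h2 h
      rw [hij, disjoint_self] at this
      exact (hne j).ne_empty this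
    · rintro _ ⟨i, rfl⟩ _ ⟨j, rfl⟩ h
      exact h2 fun h' => h (by rw [h'])
    · rintro _ ⟨n, rfl⟩
      obtain ⟨a, ha, b, hb, h5⟩ := h3 n
      exact ⟨⟨hne n, h1 n⟩, (half_lt_self hε).trans_le
        (h5.trans (Metric.dist_le_diam_of_mem Metric.isBounded_of_compactSpace ha hb))⟩
  have := hN.lcs
  have hR : Pool.Agent.H71.Tym.Reg X := fun x U hU hx => by
    by_contra hc
    obtain ⟨K, q, hK⟩ := Pool.Agent.H71.Lel.core_ex hU hx fun V h1 h2 h3 h4 => hc ⟨V, h1, h2, h3, h4⟩
    exact Pool.Agent.H71.Lel.main hN hK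
  refine isPathConnected_iff.2 ⟨hS.1, fun x hx y hy => ?_⟩
  obtain ⟨C, h1, h2, h3, h4⟩ : Pool.Agent.H71.Tym.Sim S x y := by_contra fun h =>
    Pool.Agent.H71.Tym.main hN hR (e0 := (x, y, S)) ⟨subset_rfl, hS.2, hx, hy, h⟩ hB
  by_cases hxy : x = y
  · exact hxy ▸ JoinedIn.refl hx
  obtain ⟨γ, g1, -, g2, g3, g4⟩ := Pool.Agent.H71.Tym.arc (fun L hL x hx r hr => hN.lc hL hx hr)
    h1 h3 h4 hxy
  exact ⟨⟨⟨γ, g1⟩, g2, g3⟩, fun t => h2 (g4 ⟨t, rfl⟩)⟩

end Pool.Agent.S14083
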