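import Pool.Statements.S14091
import Pool.Agent.H71.LocMin

set_option autoImplicit false
open Pool Pool.MP_de131a_gt

namespace Pool.Agent.S14091

/-- For every Hausdorff abelian topological group that is locally minimal (some identity neighbourhood forbids strictly coarser Hausdorff group topologies in which it stays a neighbourhood), its tightness equals its character. -/
theorem result :
    ∀ (G : Type) [CommGroup G] [τ : TopologicalSpace G] [IsTopologicalGroup G] [T2Space G],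
      (∃ U ∈ nhds (1 : G), ∀ σ : TopologicalSpace G,
          @IsTopologicalGroup G σ _ → @T2Space G σ → τ ≤ σ → U ∈ @nhds G σ 1 → σ = τ) →
      sInf {κ : Cardinal | ∀ A : Set G, ∀ x ∈ closure A,
              ∃ B ⊆ A, Cardinal.mk B ≤ κ ∧ x ∈ closure B}
        = sInf {κ : Cardinal | ∃ 𝓑 : Set (Set G),
              (nhds (1 : G)).HasBasis (fun s => s ∈ 𝓑) id ∧ Cardinal.mk 𝓑 = κ} := by
  intro G _ τ _ _ ⟨U, hU, hlm⟩
  have key : ∀ 𝓑 : Set (Set G), (nhds (1 : G)).HasBasis (fun s => s ∈ 𝓑) id →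
      ∀ A : Set G, ∀ x ∈ closure A, ∃ B ⊆ A, Cardinal.mk B ≤ Cardinal.mk 𝓑 ∧ x ∈ closure B := by
    intro 𝓑 hb A x hx
    have t : Filter.Tendsto (fun y => x⁻¹ * y) (nhds x) (nhds 1) :=
      Continuous.tendsto' (by fun_prop) _ _ (by simp)
    choose a h1 h2 using fun s : 𝓑 => mem_closure_iff_nhds.1 hx _ (t (hb.mem_of_mem s.2))
    refine ⟨Set.range a, by rintro _ ⟨s, rfl⟩; exact h2 s, Cardinal.mk_range_le,
      mem_closure_iff_nhds.2 fun T hT => ?_⟩
    obtain ⟨s, hs, hsT⟩ := hb.mem_iff.1 (Continuous.tendsto' (f := fun y => x * y) (by fun_prop)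
      1 x (by simp) hT)
    exact ⟨a ⟨s, hs⟩, by simpa using hsT (h1 ⟨s, hs⟩), _, rfl⟩
  have b0 : (nhds (1 : G)).HasBasis (fun s => s ∈ (nhds (1 : G)).sets) id := Filter.basis_sets _
  apply le_antisymm
  · refine le_csInf ⟨_, _, b0, rfl⟩ ?_
    rintro _ ⟨𝓑, hb, rfl⟩
    exact csInf_le' (key 𝓑 hb)
  · refine le_csInf ⟨_, key _ b0⟩ fun κ hκ => ?_
    by_cases hd : ({1} : Set G) ∈ nhds (1 : G)
    · refine le_trans (b := Cardinal.mk ({{1}} : Set (Set G))) (csInf_le' ⟨{{1}}, ⟨fun t =>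
        ⟨fun ht => ⟨{1}, rfl, by simpa using mem_of_mem_nhds ht⟩,
        fun ⟨s, hs, h⟩ => Filter.mem_of_superset hd (by rw [Set.mem_singleton_iff.1 hs] at h; exact h)⟩⟩,
        rfl⟩) ?_
      obtain ⟨B, -, h1, h2⟩ := hκ {1} 1 (subset_closure rfl)
      rw [Cardinal.mk_singleton]
      exact (Cardinal.one_le_iff_ne_zero.2 (Cardinal.mk_ne_zero_iff.2
        (closure_nonempty_iff.1 ⟨_, h2⟩).to_subtype)).trans h1
    · obtain ⟨B, hB, h1, h2⟩ := hκ {1}ᶜ 1 (by
        rw [closure_compl, Set.mem_compl_iff, mem_interior_iff_mem_nhds]; exact hd)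
      have hκ' : Cardinal.aleph0 ≤ κ := (Cardinal.aleph0_le_mk_iff.2 (Set.infinite_coe_iff.2
        fun hf => hB (hf.isClosed.closure_eq ▸ h2) rfl)).trans h1
      obtain ⟨𝓑, hb, hc⟩ := H71.LocMin.LM.base hκ' hlm hU fun S _ x _ hx => hκ S x hx
      exact le_trans (b := Cardinal.mk 𝓑) (csInf_le' ⟨𝓑, hb, rfl⟩) hc

end Pool.Agent.S14091
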