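import Pool.Statements.S14094

set_option autoImplicit false
open Pool Pool.MP_de3f93_gt

namespace Pool.Agent.S14094

open Set Filter Topology Pointwise

/-- a copy of a group carrying a given group topology -/
def Cp {G : Type} [Group G] (_T : GroupTopology G) : Type := G

instance {G : Type} [Group G] (T : GroupTopology G) : Group (Cp T) := inferInstanceAs (Group G)
instance {G : Type} [Group G] (T : GroupTopology G) : TopologicalSpace (Cp T) :=
  T.toTopologicalSpace
instance {G : Type} [Group G] (T : GroupTopology G) : IsTopologicalGroup (Cp T) :=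
  T.toIsTopologicalGroup

def toCp {G : Type} [Group G] (T : GroupTopology G) : G →* Cp T := MonoidHom.id G
def ofCp {G : Type} [Group G] (T : GroupTopology G) : Cp T →* G := MonoidHom.id G

theorem extend_top {G L : Type} [CommGroup G] [Group L] [TopologicalSpace L] [IsTopologicalGroup L]
    (ι : L →* G) : ∃ T : GroupTopology G, 𝓝 (1 : Cp T) = map (toCp T ∘ ι) (𝓝 1) := by
  let F : Filter G := map ι (𝓝 1)
  let B : GroupFilterBasis G := groupFilterBasisOfComm F.sets ⟨univ, univ_mem⟩
    (fun x y hx hy => ⟨x ∩ y, inter_mem hx hy, Subset.rfl⟩)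
    (fun U hU => by
      have : (1 : L) ∈ ι ⁻¹' U := mem_of_mem_nhds hU
      simpa using this)
    (fun U hU => by
      obtain ⟨V, hV, hVU⟩ := exists_nhds_one_split (show ι ⁻¹' U ∈ 𝓝 (1 : L) from hU)
      refine ⟨ι '' V, image_mem_map hV, ?_⟩
      rintro _ ⟨_, ⟨a, ha, rfl⟩, _, ⟨b, hb, rfl⟩, rfl⟩
      simpa using hVU a ha b hb)
    (fun U hU => by
      have hV := inv_mem_nhds_one L (show ι ⁻¹' U ∈ 𝓝 (1 : L) from hU)
      refine ⟨ι '' _, image_mem_map hV, ?_⟩
      rintro _ ⟨a, ha, rfl⟩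
      simpa using ha)
  refine ⟨@GroupTopology.mk G _ B.topology B.isTopologicalGroup, ?_⟩
  change @nhds G B.topology 1 = F
  ext U
  rw [B.nhds_one_hasBasis.mem_iff]
  exact ⟨fun ⟨V, hV, hVU⟩ => mem_of_superset (show V ∈ F from hV) hVU,
    fun h => ⟨U, h, Subset.rfl⟩⟩

/-- an open subgroup of an abelian s-group is an s-group -/
theorem open_subgroup {G : Type} [CommGroup G] [TopologicalSpace G] [IsTopologicalGroup G]
    [T2Space G]
    (hs : ∀ (H : Type) [Group H] [TopologicalSpace H] [IsTopologicalGroup H] [T2Space H]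
          (f : G →* H), SeqContinuous (f : G → H) → Continuous (f : G → H))
    (K : Subgroup G) (hK : IsOpen (K : Set G))
    (H : Type) [Group H] [TopologicalSpace H] [IsTopologicalGroup H]
    (f : K →* H) (hf : SeqContinuous (f : K → H)) : Continuous (f : K → H) := by
  classical
  let T' : GroupTopology K := @GroupTopology.mk K _
    (instTopologicalSpaceSubtype ⊓ TopologicalSpace.induced f inferInstance)
    (topologicalGroup_inf inferInstance (topologicalGroup_induced f))
  obtain ⟨T, htn⟩ := extend_top (G := G) (K.subtype.comp (ofCp T'))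
  have hn' : 𝓝 (1 : Cp T') = (𝓝 (1 : K) ⊓ comap f (𝓝 1) : Filter K) := by
    change @nhds K (instTopologicalSpaceSubtype ⊓ TopologicalSpace.induced f inferInstance) 1 = _
    rw [nhds_inf, nhds_induced f, map_one]
  have htn' : 𝓝 (1 : Cp T) = map (toCp T ∘ K.subtype) (𝓝 (1 : K) ⊓ comap f (𝓝 1)) := by
    rw [htn, hn']
    rfl
  have hle : Continuous (ofCp T) := by
    refine continuous_of_continuousAt_one _ ?_
    rw [ContinuousAt, map_one, htn', tendsto_map'_iff]
    exact (continuous_subtype_val.tendsto (1 : K)).mono_left inf_le_left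
  have hT2 : T2Space (Cp T) := T2Space.of_injective_continuous (f := ofCp T) (fun _ _ h => h) hle
  have hseq1 : ∀ x : ℕ → G, Tendsto x atTop (𝓝 1) → Tendsto (toCp T ∘ x) atTop (𝓝 1) := by
    intro x hx
    let y : ℕ → K := fun n => if h : x n ∈ K then ⟨x n, h⟩ else 1
    have hxy : ∀ᶠ n in atTop, (y n : G) = x n := by
      filter_upwards [hx.eventually (hK.mem_nhds K.one_mem)] with n hn
      have hn2 : x n ∈ K := hn
      simp only [y]
      rw [dif_pos hn2]
    have hy : Tendsto y atTop (𝓝 1) :=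
      tendsto_subtype_rng.2 (hx.congr' (EventuallyEq.symm hxy))
    have hy' := hf hy
    rw [map_one] at hy'
    rw [htn']
    have : Tendsto y atTop (𝓝 1 ⊓ comap f (𝓝 1)) := tendsto_inf.2 ⟨hy, tendsto_comap_iff.2 hy'⟩
    exact (tendsto_map.comp this).congr' hxy
  have hc := hs (Cp T) (toCp T) (by
    intro x p hx
    have h1 : Tendsto (fun n => x n * p⁻¹) atTop (𝓝 1) := by
      simpa using hx.mul_const p⁻¹
    have h2 := (hseq1 _ h1).mul_const (toCp T p)
    simpa [Function.comp_def] using h2)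
  refine continuous_of_continuousAt_one f ?_
  have h3 := hc.tendsto 1
  rw [map_one, htn'] at h3
  intro U hU
  rw [map_one] at hU
  have h4 : K.subtype '' (f ⁻¹' U) ∈ 𝓝 (1 : G) :=
    h3 (image_mem_map (mem_inf_of_right (preimage_mem_comap hU)))
  have h5 := continuous_subtype_val.continuousAt.preimage_mem_nhds (x := (1 : K)) h4
  refine mem_map.2 (mem_of_superset h5 ?_)
  rintro a ⟨b, hb, hab⟩
  have : b = a := Subtype.ext hab
  exact this ▸ hb

/-- the lacunary sequence -/
def b : ℕ → ℕ
  | 0 => 1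
  | i + 1 => (i + 2) ^ 2 * b i

theorem b_pos (i : ℕ) : 0 < b i := by
  induction i with
  | zero => exact one_pos
  | succ i ih => unfold b; positivity

theorem b_gt (i : ℕ) : i < b i := by
  induction i with
  | zero => exact one_pos
  | succ i ih => unfold b; nlinarith

theorem b_dvd {i j : ℕ} (h : i ≤ j) : b i ∣ b j := by
  induction j, h using Nat.le_induction with
  | base => exact dvd_rfl
  | succ j _ ih => exact ih.mul_left _

theorem exists_theta (t : ℕ → ℝ) (ht0 : ∀ i, 0 ≤ t i) (ht1 : ∀ i, t i < 1) :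
    ∃ θ : ℝ, ∀ i, ∃ z : ℤ, |b i * θ - z - t i| ≤ 1 / ((i : ℝ) + 2) ^ 2 := by
  let q : ℕ → ℕ := fun i => (i + 2) ^ 2
  have hq : ∀ i, (0 : ℝ) < q i := fun i => by positivity
  have hb : ∀ i, (0 : ℝ) < b i := fun i => by exact_mod_cast b_pos i
  have hbq : ∀ i, (b (i + 1) : ℝ) = q i * b i := fun i => by
    simp only [b, q]
    push_cast
    ring
  let d : ℕ → ℤ := fun i => ⌊t i * q i⌋
  have hd0 : ∀ i, (0 : ℝ) ≤ d i := fun i => by
    exact_mod_cast Int.floor_nonneg.2 (mul_nonneg (ht0 i) (hq i).le)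
  have hd1 : ∀ i, (d i : ℝ) ≤ q i - 1 := fun i => by
    have h1 : d i < (q i : ℤ) := by
      rw [Int.floor_lt]
      have := ht1 i
      have := hq i
      push_cast
      nlinarith
    have : d i ≤ (q i : ℤ) - 1 := by omega
    exact_mod_cast this
  let a : ℕ → ℝ := fun i => ∑ j ∈ Finset.range i, d j / b (j + 1)
  have ha : ∀ i, a (i + 1) = a i + d i / b (i + 1) := fun i => Finset.sum_range_succ _ _
  have hmono : Monotone a := monotone_nat_of_le_succ fun i => by
    rw [ha]
    have := div_nonneg (hd0 i) (hb (i + 1)).le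
    linarith
  have hanti : Antitone (fun i => a i + 1 / b i) := antitone_nat_of_succ_le fun i => by
    rw [ha]
    have h1 : (d i : ℝ) / b (i + 1) + 1 / b (i + 1) ≤ 1 / b i := by
      rw [← add_div, hbq, div_le_div_iff₀ (mul_pos (hq i) (hb i)) (hb i)]
      have := hd1 i
      have := hb i
      nlinarith
    linarith
  have hle : ∀ i j, a i ≤ a j + 1 / b j := by
    intro i j
    have h1 := hmono (le_max_left i j)
    have h2 := hanti (le_max_right i j)
    have h3 : (0 : ℝ) < 1 / b (max i j) := one_div_pos.2 (hb _)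
    simp only at h2
    linarith
  have hbdd : BddAbove (range a) := ⟨a 0 + 1 / b 0, by rintro _ ⟨i, rfl⟩; exact hle i 0⟩
  have hint : ∀ i, ∃ z : ℤ, b i * a i = z := by
    intro i
    induction i with
    | zero => exact ⟨0, by simp [a]⟩
    | succ i ih =>
      obtain ⟨z, hz⟩ := ih
      refine ⟨q i * z + d i, ?_⟩
      have := hb (i + 1)
      rw [ha, mul_add, mul_div_cancel₀ _ this.ne', hbq, mul_assoc, hz]
      push_cast
      ring
  refine ⟨⨆ i, a i, fun i => ?_⟩
  obtain ⟨z, hz⟩ := hint i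
  refine ⟨z, ?_⟩
  have h1 : a (i + 1) ≤ ⨆ i, a i := le_ciSup hbdd _
  have h2 : ⨆ i, a i ≤ a (i + 1) + 1 / b (i + 1) := ciSup_le fun j => hle j _
  set θ := ⨆ i, a i
  have h3 : b i * θ - z - t i = (d i - t i * q i) / q i + b i * (θ - a (i + 1)) := by
    rw [ha, ← hz, hbq]
    have := hq i
    have := hb i
    field_simp
    ring
  have h4 : b i * (θ - a (i + 1)) ≤ 1 / q i := by
    calc b i * (θ - a (i + 1)) ≤ b i * (1 / b (i + 1)) := by
          have := hb i
          gcongr
          linarith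
      _ = 1 / q i := by
          rw [hbq]
          have := hq i
          have := hb i
          field_simp
  have h5 : 0 ≤ b i * (θ - a (i + 1)) := mul_nonneg (hb i).le (by linarith)
  have h6 : (d i - t i * q i) / q i ≤ 0 :=
    div_nonpos_of_nonpos_of_nonneg (by linarith [Int.floor_le (t i * q i)]) (hq i).le
  have h7 : - (1 / (q i : ℝ)) ≤ (d i - t i * q i) / q i := by
    rw [← neg_div]
    have := hq i
    gcongr
    linarith [Int.lt_floor_add_one (t i * q i)]
  have h8 : (q i : ℝ) = ((i : ℝ) + 2) ^ 2 := by simp [q]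
  rw [h3, ← h8, abs_le]
  constructor <;> linarith

def GG : Type := Multiplicative ℤ

instance : CommGroup GG := inferInstanceAs (CommGroup (Multiplicative ℤ))
instance : Countable GG := inferInstanceAs (Countable ℤ)

def e (m : ℤ) : GG := Multiplicative.ofAdd m
def v (g : GG) : ℤ := Multiplicative.toAdd g

theorem v_mul (g h : GG) : v (g * h) = v g + v h := rfl
theorem v_pow (g : GG) (n : ℕ) : v (g ^ n) = n * v g := by
  induction n with
  | zero => simp [v]; rfl
  | succ n ih => rw [pow_succ, v_mul, ih]; push_cast; ring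

def u (k : ℕ) : GG := e (b (2 * k + 1))
def x (n k : ℕ) : GG := e (b (2 * Nat.pair n k))

/-- group topologies in which the basic sequences are null -/
def TT : Set (TopologicalSpace GG) :=
  {t | @IsTopologicalGroup GG t _ ∧ Tendsto u atTop (@nhds GG t 1) ∧
    ∀ κ : ℕ → ℕ, Tendsto (fun n => x n (κ n)) atTop (@nhds GG t 1)}

instance : TopologicalSpace GG := sInf TT

instance : IsTopologicalGroup GG := topologicalGroup_sInf fun _ ht => ht.1

theorem nhds_GG (g : GG) : 𝓝 g = ⨅ t ∈ TT, @nhds GG t g := nhds_sInf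

theorem u_null : Tendsto u atTop (𝓝 1) := by
  rw [nhds_GG]
  exact tendsto_iInf.2 fun t => tendsto_iInf.2 fun ht => ht.2.1

theorem x_null (κ : ℕ → ℕ) : Tendsto (fun n => x n (κ n)) atTop (𝓝 1) := by
  rw [nhds_GG]
  exact tendsto_iInf.2 fun t => tendsto_iInf.2 fun ht => ht.2.2 κ

theorem cont_of {H : Type} [Group H] [TopologicalSpace H] [IsTopologicalGroup H] (f : GG →* H)
    (h1 : Tendsto (f ∘ u) atTop (𝓝 1))
    (h2 : ∀ κ : ℕ → ℕ, Tendsto (fun n => f (x n (κ n))) atTop (𝓝 1)) : Continuous f := by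
  refine continuous_iff_le_induced.2 (sInf_le ⟨topologicalGroup_induced f, ?_, fun κ => ?_⟩)
  · rw [nhds_induced, map_one]
    exact tendsto_comap_iff.2 h1
  · rw [nhds_induced, map_one]
    exact tendsto_comap_iff.2 (h2 κ)

theorem sgroup (H : Type) [Group H] [TopologicalSpace H] [IsTopologicalGroup H] [T2Space H]
    (f : GG →* H) (hf : SeqContinuous (f : GG → H)) : Continuous (f : GG → H) := by
  refine cont_of f ?_ fun κ => ?_
  · simpa using hf u_null
  · simpa [Function.comp_def] using hf (x_null κ)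

noncomputable def chi (θ : ℝ) : GG →* Multiplicative UnitAddCircle where
  toFun g := Multiplicative.ofAdd (((v g : ℝ) * θ : ℝ) : UnitAddCircle)
  map_one' := by
    have : v 1 = 0 := rfl
    simp [this]
  map_mul' g h := by
    rw [v_mul, ← ofAdd_add, ← AddCircle.coe_add]
    congr 2
    push_cast
    ring

theorem tendsto_chi {θ : ℝ} {y : ℕ → GG} {p : GG} :
    Tendsto (fun n => chi θ (y n)) atTop (𝓝 (chi θ p)) ↔
      Tendsto (fun n => (((v (y n) : ℝ) * θ : ℝ) : UnitAddCircle)) atTop
        (𝓝 (((v p : ℝ) * θ : ℝ) : UnitAddCircle)) := Iff.rfl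

theorem tendsto_chi_one {θ : ℝ} {y : ℕ → GG} :
    Tendsto (fun n => chi θ (y n)) atTop (𝓝 1) ↔
      Tendsto (fun n => (((v (y n) : ℝ) * θ : ℝ) : UnitAddCircle)) atTop (𝓝 0) := Iff.rfl

theorem coe_int (z : ℤ) : (((z : ℝ)) : UnitAddCircle) = 0 :=
  (AddCircle.coe_eq_zero_iff _).2 ⟨z, by simp⟩

theorem tendsto_of_approx {a c : ℕ → ℝ} {z : ℕ → ℤ} {l : ℝ}
    (h : ∀ᶠ n in atTop, |a n - z n - l| ≤ c n) (hc : Tendsto c atTop (𝓝 0)) :
    Tendsto (fun n => (a n : UnitAddCircle)) atTop (𝓝 (l : UnitAddCircle)) := by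
  have h1 : Tendsto (fun n => a n - z n) atTop (𝓝 l) := by
    rw [tendsto_iff_norm_sub_tendsto_zero]
    exact squeeze_zero' (Eventually.of_forall fun _ => norm_nonneg _) h hc
  have h2 := ((AddCircle.continuous_mk' (1 : ℝ)).tendsto l).comp h1
  refine h2.congr fun n => ?_
  change ((a n - z n : ℝ) : UnitAddCircle) = _
  rw [AddCircle.coe_sub, coe_int, sub_zero]

theorem err_le (i n : ℕ) (h : n ≤ i) : 1 / ((i : ℝ) + 2) ^ 2 ≤ 1 / ((n : ℝ) + 1) := by
  have : (n : ℝ) ≤ i := by exact_mod_cast h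
  have h0 : (0 : ℝ) ≤ n := by positivity
  apply one_div_le_one_div_of_le (by positivity)
  nlinarith

theorem err_le' (k n m : ℕ) (h : n ≤ k + 1) (hm : m ≤ k) :
    (n : ℝ) * (1 / (((2 * k + 1 : ℕ) : ℝ) + 2) ^ 2) ≤ 1 / ((m : ℝ) + 1) := by
  have h1 : (n : ℝ) ≤ k + 1 := by exact_mod_cast h
  have h2 : (m : ℝ) ≤ k := by exact_mod_cast hm
  have h0 : (0 : ℝ) ≤ m := by positivity
  have h0' : (0 : ℝ) ≤ n := by positivity
  push_cast
  rw [mul_one_div, div_le_div_iff₀ (by positivity) (by positivity)]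
  nlinarith

theorem lim0 : Tendsto (fun n : ℕ => 1 / ((n : ℝ) + 1)) atTop (𝓝 0) :=
  tendsto_one_div_add_atTop_nhds_zero_nat

/-- characters with prescribed behaviour -/
theorem exists_chi (s : ℕ → ℝ) (r : ℕ → ℝ) (hs0 : ∀ i, 0 ≤ s i) (hs1 : ∀ i, s i < 1)
    (hr0 : ∀ i, 0 ≤ r i) (hr1 : ∀ i, r i < 1) (hs : Tendsto s atTop (𝓝 0))
    (hr : Tendsto r atTop (𝓝 0)) :
    ∃ θ : ℝ, Continuous (chi θ) ∧
      (∀ k, ∃ z : ℤ, |b (2 * k + 1) * θ - z - s k| ≤ 1 / (((2 * k + 1 : ℕ) : ℝ) + 2) ^ 2) ∧
      (∀ n k, ∃ z : ℤ, |b (2 * Nat.pair n k) * θ - z - r n| ≤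
        1 / (((2 * Nat.pair n k : ℕ) : ℝ) + 2) ^ 2) := by
  obtain ⟨θ, hθ⟩ := exists_theta
    (fun i => if i % 2 = 1 then s (i / 2) else r (Nat.unpair (i / 2)).1)
    (fun i => by split_ifs <;> simp [hs0, hr0]) (fun i => by split_ifs <;> simp [hs1, hr1])
  have h1 : ∀ k, ∃ z : ℤ, |b (2 * k + 1) * θ - z - s k| ≤
      1 / (((2 * k + 1 : ℕ) : ℝ) + 2) ^ 2 := by
    intro k
    have := hθ (2 * k + 1)
    rwa [if_pos (by omega), show (2 * k + 1) / 2 = k by omega] at this
  have h2 : ∀ n k, ∃ z : ℤ, |b (2 * Nat.pair n k) * θ - z - r n| ≤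
      1 / (((2 * Nat.pair n k : ℕ) : ℝ) + 2) ^ 2 := by
    intro n k
    have := hθ (2 * Nat.pair n k)
    rwa [if_neg (by omega), show (2 * Nat.pair n k) / 2 = Nat.pair n k by omega,
      Nat.unpair_pair] at this
  refine ⟨θ, cont_of _ ?_ fun κ => ?_, h1, h2⟩
  · choose z hz using h1
    refine tendsto_chi_one.2 ?_
    have := tendsto_of_approx (a := fun k => b (2 * k + 1) * θ) (z := z) (l := 0)
      (c := fun k => 1 / ((k : ℝ) + 1) + s k) (Eventually.of_forall fun k => by
        have a1 := hz k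
        have a2 := err_le (2 * k + 1) k (by omega)
        have a3 := hs0 k
        rw [abs_le] at a1 ⊢
        constructor <;> linarith [a1.1, a1.2]) (by simpa using lim0.add hs)
    simpa [u, v, e] using this
  · choose z hz using h2
    refine tendsto_chi_one.2 ?_
    have := tendsto_of_approx (a := fun n => b (2 * Nat.pair n (κ n)) * θ)
      (z := fun n => z n (κ n)) (l := 0)
      (c := fun k => 1 / ((k : ℝ) + 1) + r k) (Eventually.of_forall fun n => by
        have a1 := hz n (κ n)
        have a2 := err_le (2 * Nat.pair n (κ n)) n (by have := Nat.left_le_pair n (κ n); omega)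
        have a3 := hr0 n
        rw [abs_le] at a1 ⊢
        constructor <;> linarith [a1.1, a1.2]) (by simpa using lim0.add hr)
    simpa [x, v, e] using this

theorem chi_inv_b (i j : ℕ) (h : i ≤ j) : chi (1 / b i) (e (b j)) = 1 := by
  obtain ⟨c, hc⟩ := b_dvd h
  have hb : (0 : ℝ) < b i := by exact_mod_cast b_pos i
  have : ((v (e (b j)) : ℝ) * (1 / b i) : ℝ) = ((c : ℤ) : ℝ) := by
    have : v (e (b j)) = b j := rfl
    rw [this, hc]
    push_cast
    field_simp
  change Multiplicative.ofAdd (((v (e (b j)) : ℝ) * (1 / b i) : ℝ) : UnitAddCircle) = 1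
  rw [this, coe_int]
  rfl

theorem cont_inv_b (i : ℕ) : Continuous (chi (1 / b i)) := by
  refine cont_of _ (tendsto_const_nhds.congr' ?_) fun κ => tendsto_const_nhds.congr' ?_
  · filter_upwards [eventually_ge_atTop i] with k hk
    exact (chi_inv_b i _ (by omega)).symm
  · filter_upwards [eventually_ge_atTop i] with n hn
    exact (chi_inv_b i _ (by have := Nat.left_le_pair n (κ n); omega)).symm

theorem sep (g : GG) (h : ∀ i, chi (1 / b i) g = 1) : g = 1 := by
  have h1 : (((v g : ℝ) * (1 / b (v g).natAbs) : ℝ) : UnitAddCircle) = 0 := h (v g).natAbs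
  obtain ⟨z, hz⟩ := (AddCircle.coe_eq_zero_iff _).1 h1
  have hb : (0 : ℝ) < b (v g).natAbs := by exact_mod_cast b_pos _
  have h2 : (z : ℝ) * b (v g).natAbs = v g := by
    simp only [zsmul_eq_mul, mul_one] at hz
    rw [hz]
    field_simp
  have h3 : z * (b (v g).natAbs : ℤ) = v g := by exact_mod_cast h2
  have h4 := b_gt (v g).natAbs
  have h5 : v g = 0 := by
    refine Int.eq_zero_of_dvd_of_natAbs_lt_natAbs ⟨z, by rw [← h3, mul_comm]⟩ ?_
    simpa using h4
  exact h5

instance : T2Space GG := by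
  refine T2Space.of_injective_continuous (f := fun g i => chi (1 / b i) g) ?_
    (continuous_pi cont_inv_b)
  intro g h hgh
  have : g * h⁻¹ = 1 := sep _ fun i => by
    have := congrFun hgh i
    simp only at this
    rw [map_mul, map_inv, this, mul_inv_cancel]
  exact mul_inv_eq_one.1 this

def f (n k : ℕ) : GG := x n k * u k ^ (n + 1)

def F : Set GG := {g | ∃ n k, n ≤ k ∧ g = f n k}

theorem half_ne : (((1 / 2 : ℝ)) : UnitAddCircle) ≠ 0 := by
  intro h
  obtain ⟨z, hz⟩ := (AddCircle.coe_eq_zero_iff _).1 h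
  have h1 : ((2 * z : ℤ) : ℝ) = 1 := by
    simp only [zsmul_eq_mul, mul_one] at hz
    push_cast
    linarith
  have h2 : 2 * z = 1 := by exact_mod_cast h1
  omega

theorem v_f (n k : ℕ) : (v (f n k) : ℝ) = b (2 * Nat.pair n k) + (n + 1) * b (2 * k + 1) := by
  rw [f, v_mul, v_pow]
  simp [x, u, v, e]

theorem not_null_aux (n k : ℕ → ℕ) (hnk : ∀ j, n j ≤ k j) (hk : ∀ j, j ≤ k j)
    (s : ℕ → ℝ) (r : ℕ → ℝ) (hs0 : ∀ i, 0 ≤ s i) (hs1 : ∀ i, s i < 1)
    (hr0 : ∀ i, 0 ≤ r i) (hr1 : ∀ i, r i < 1) (hs : Tendsto s atTop (𝓝 0))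
    (hr : Tendsto r atTop (𝓝 0)) (hsr : ∀ j, r (n j) + (n j + 1) * s (k j) = 1 / 2) :
    ¬ Tendsto (fun j => f (n j) (k j)) atTop (𝓝 1) := by
  intro h
  obtain ⟨θ, hθ, h1, h2⟩ := exists_chi s r hs0 hs1 hr0 hr1 hs hr
  choose z hz using h1
  choose w hw using h2
  have h3 := (hθ.tendsto 1).comp h
  rw [map_one] at h3
  have h4 := tendsto_chi_one.1 h3
  have h5 := tendsto_of_approx (a := fun j => v (f (n j) (k j)) * θ)
    (z := fun j => w (n j) (k j) + (n j + 1) * z (k j)) (l := 1 / 2)
    (c := fun j => 1 / ((j : ℝ) + 1) + 1 / ((j : ℝ) + 1)) (Eventually.of_forall fun j => by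
      have a1 := hz (k j)
      have a2 := hw (n j) (k j)
      have a3 := err_le (2 * Nat.pair (n j) (k j)) j (by
        have := Nat.right_le_pair (n j) (k j)
        have := hk j
        omega)
      have a4 := err_le' (k j) (n j + 1) j (by have := hnk j; omega) (hk j)
      have a5 : (v (f (n j) (k j)) : ℝ) * θ - ((w (n j) (k j) + (n j + 1) * z (k j) : ℤ) : ℝ) - 1 / 2
          = (b (2 * Nat.pair (n j) (k j)) * θ - w (n j) (k j) - r (n j)) +
            ((n j + 1 : ℕ) : ℝ) * (b (2 * k j + 1) * θ - z (k j) - s (k j)) := by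
        rw [v_f, ← hsr j]
        push_cast
        ring
      rw [a5]
      refine (abs_add_le _ _).trans (add_le_add (a2.trans a3) ?_)
      rw [abs_mul, abs_of_nonneg (by positivity)]
      exact le_trans (by gcongr) a4) (by simpa using lim0.add lim0)
  exact half_ne (tendsto_nhds_unique h5 h4)

theorem not_null (n k : ℕ → ℕ) (hnk : ∀ j, n j ≤ k j) (hk : StrictMono k) :
    ¬ Tendsto (fun j => f (n j) (k j)) atTop (𝓝 1) := by
  classical
  intro h
  by_cases hn : Tendsto n atTop atTop
  · let s : ℕ → ℝ := fun i => if h : ∃ j, k j = i then 1 / (2 * ((n h.choose : ℝ) + 1)) else 0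
    have hsk : ∀ j, s (k j) = 1 / (2 * ((n j : ℝ) + 1)) := by
      intro j
      have hex : ∃ j', k j' = k j := ⟨j, rfl⟩
      simp only [s]
      rw [dif_pos hex, hk.injective hex.choose_spec]
    have hs' : ∀ i, s i = 0 ∨ ∃ j, i = k j := by
      intro i
      by_cases hex : ∃ j, k j = i
      · obtain ⟨j, rfl⟩ := hex
        exact Or.inr ⟨j, rfl⟩
      · left
        simp only [s]
        rw [dif_neg hex]
    refine not_null_aux n k hnk hk.id_le s (fun _ => 0) (fun i => ?_) (fun i => ?_)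
      (fun _ => le_rfl) (fun _ => one_pos) ?_ tendsto_const_nhds (fun j => ?_) h
    · rcases hs' i with h | ⟨j, rfl⟩
      · exact h.ge
      · rw [hsk]; positivity
    · rcases hs' i with h | ⟨j, rfl⟩
      · rw [h]; exact one_pos
      · rw [hsk, div_lt_one (by positivity)]
        have : (0 : ℝ) ≤ n j := by positivity
        linarith
    · rw [Metric.tendsto_atTop]
      intro ε hε
      have h1 : Tendsto (fun j => s (k j)) atTop (𝓝 0) := by
        have := (lim0.comp hn).const_mul (1 / 2 : ℝ)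
        rw [mul_zero] at this
        refine this.congr fun j => ?_
        rw [hsk]
        simp only [Function.comp]
        field_simp
      obtain ⟨N, hN⟩ := Metric.tendsto_atTop.1 h1 ε hε
      refine ⟨k N, fun i hi => ?_⟩
      rcases hs' i with h | ⟨j, rfl⟩
      · simpa [h] using hε
      · exact hN j (hk.le_iff_le.1 hi)
    · rw [hsk]
      field_simp
      ring
  · have h1 : ∃ m, ∃ᶠ j in atTop, n j = m := by
      rw [tendsto_atTop] at hn
      push Not at hn
      obtain ⟨M, hM⟩ := hn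
      by_contra hcon
      push Not at hcon
      have : ∀ᶠ j in atTop, ∀ m ∈ Finset.range M, n j ≠ m :=
        (Finset.eventually_all _).2 fun m _ => hcon m
      obtain ⟨j, hj1, hj2⟩ := (hM.and_eventually this).exists
      exact hj2 (n j) (Finset.mem_range.2 hj1) rfl
    obtain ⟨m, hm⟩ := h1
    obtain ⟨φ, hφ, hφm⟩ := extraction_of_frequently_atTop hm
    refine not_null_aux (n ∘ φ) (k ∘ φ) (fun j => hnk _) (hk.comp hφ).id_le (fun _ => 0)
      (fun i => if i = m then 1 / 2 else 0) (fun _ => le_rfl) (fun _ => one_pos)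
      (fun i => by split_ifs <;> norm_num) (fun i => by split_ifs <;> norm_num)
      tendsto_const_nhds ?_ (fun j => ?_) (h.comp hφ.tendsto_atTop)
    · refine tendsto_const_nhds.congr' ?_
      filter_upwards [eventually_gt_atTop m] with i hi
      rw [if_neg hi.ne']
    · simp [hφm j]

theorem F_seqClosed : IsSeqClosed F := by
  intro y p hy hp
  choose n k hnk hy using hy
  by_cases hk : Tendsto k atTop atTop
  · exfalso
    have hp1 : p = 1 := by
      refine sep p fun i => ?_
      have h1 := ((cont_inv_b i).tendsto p).comp hp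
      have h2 : Tendsto (chi (1 / b i) ∘ y) atTop (𝓝 1) := by
        refine tendsto_const_nhds.congr' ?_
        filter_upwards [hk.eventually (eventually_ge_atTop i)] with j hj
        simp only [Function.comp]
        have := Nat.right_le_pair (n j) (k j)
        rw [hy j, f, map_mul, map_pow, x, u, chi_inv_b i _ (by omega), chi_inv_b i _ (by omega)]
        simp
      exact tendsto_nhds_unique h1 h2
    obtain ⟨φ, hφ, hkφ⟩ := strictMono_subseq_of_tendsto_atTop hk
    refine not_null (n ∘ φ) (k ∘ φ) (fun j => hnk _) hkφ ?_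
    rw [← hp1]
    exact (hp.comp hφ.tendsto_atTop).congr fun j => hy _
  · rw [tendsto_atTop] at hk
    push Not at hk
    obtain ⟨M, hM⟩ := hk
    let S : Set GG := (fun q : ℕ × ℕ => f q.1 q.2) '' {q | q.1 ≤ q.2 ∧ q.2 < M}
    have hS : S.Finite := by
      refine Finite.image _ (((finite_Iio M).prod (finite_Iio M)).subset ?_)
      rintro ⟨a, c⟩ ⟨h1, h2⟩
      exact ⟨lt_of_le_of_lt h1 h2, h2⟩
    have : p ∈ S := hS.isClosed.mem_of_frequently_of_tendsto
      (hM.mono fun j hj => ⟨(n j, k j), ⟨hnk j, hj⟩, (hy j).symm⟩) hp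
    obtain ⟨q, hq, rfl⟩ := this
    exact ⟨q.1, q.2, hq.1, rfl⟩

theorem one_notMem : (1 : GG) ∉ F := by
  rintro ⟨n, k, -, h⟩
  have h1 := v_f n k
  rw [← h] at h1
  have h2 : v 1 = 0 := rfl
  have h3 : (0 : ℝ) < b (2 * Nat.pair n k) := by exact_mod_cast b_pos _
  have h4 : (0 : ℝ) ≤ (n + 1) * b (2 * k + 1) := by positivity
  rw [h2] at h1
  push_cast at h1
  linarith

theorem one_mem_closure : (1 : GG) ∈ closure F := by
  rw [mem_closure_iff_nhds]
  intro U hU
  obtain ⟨V, hV, hVU⟩ := exists_nhds_one_split hU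
  have h1 : ∃ n, ∀ k, x n k ∈ V := by
    by_contra hcon
    push Not at hcon
    choose κ hκ using hcon
    obtain ⟨n, hn⟩ := ((x_null κ).eventually hV).exists
    exact hκ n hn
  obtain ⟨n, hn⟩ := h1
  have h2 : Tendsto (fun k => u k ^ (n + 1)) atTop (𝓝 1) := by simpa using u_null.pow (n + 1)
  obtain ⟨k, hk1, hk2⟩ := ((h2.eventually hV).and (eventually_ge_atTop n)).exists
  exact ⟨f n k, hVU _ (hn k) _ hk1, n, k, hk2, rfl⟩

theorem result :
    ¬ (∀ (G : Type) [Group G] [TopologicalSpace G] [IsTopologicalGroup G] [T2Space G],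
      (∀ (H : Type) [Group H] [TopologicalSpace H] [IsTopologicalGroup H] [T2Space H]
          (f : G →* H), SeqContinuous (f : G → H) → Continuous (f : G → H)) →
      (∀ (A : Set G), ∀ x ∈ closure A, ∃ B : Set G, B ⊆ A ∧ B.Countable ∧ x ∈ closure B) →
      (∀ K : Subgroup G, IsClosed (K : Set G) →
        ∀ (H : Type) [Group H] [TopologicalSpace H] [IsTopologicalGroup H] [T2Space H]
          (f : K →* H), SeqContinuous (f : K → H) → Continuous (f : K → H)) →
      SequentialSpace G) := by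
  intro H
  have := H GG sgroup (fun A x hx => ⟨A, Subset.rfl, to_countable A, hx⟩) (by
    intro K hK H _ _ _ _ f hf
    by_cases hbot : K = ⊥
    · subst hbot
      exact continuous_of_discreteTopology
    · have hfi : K.FiniteIndex := by
        obtain ⟨⟨g, hg⟩, hg1⟩ := Subgroup.ne_bot_iff_exists_ne_one.1 hbot
        have hg0 : v g ≠ 0 := fun h => hg1 (Subtype.ext h)
        have h1 : (Subgroup.zpowers g).FiniteIndex := by
          refine ⟨?_⟩
          have : (Subgroup.zpowers g).index = (AddSubgroup.zmultiples (v g)).index := rfl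
          rw [this, Int.index_zmultiples]
          exact Int.natAbs_ne_zero.2 hg0
        exact Subgroup.finiteIndex_of_le (Subgroup.zpowers_le.2 hg)
      exact open_subgroup sgroup K (K.isOpen_of_isClosed_of_finiteIndex hK) H f hf)
  exact one_notMem (F_seqClosed.isClosed.closure_subset one_mem_closure)

end Pool.Agent.S14094
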