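import Pool.Statements.S14120
import Pool.Agent.H56.Fsp3

set_option autoImplicit false
open Pool Pool.MP_e1ef08_gt

namespace Pool.Agent.S14120

/-- The negation of the preceding statement: Every arcwise connected metric continuum that has a free arc, and in which every nonempty closed set is the exact fixed-point set of some continuous monotone surjection of X onto itself, is homeomorphic to the circle. -/
theorem result :
    ¬ (∀ (X : Type) [MetricSpace X] [CompactSpace X] [ConnectedSpace X],
      (∀ x y : X, x ≠ y →
        ∃ γ : unitInterval → X, Continuous γ ∧ Function.Injective γ ∧ γ 0 = x ∧ γ 1 = y) →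
      (∃ γ : unitInterval → X, Continuous γ ∧ Function.Injective γ ∧
        IsOpen (γ '' {t : unitInterval | (0 : unitInterval) < t ∧ t < 1})) →
      (∀ A : Set X, IsClosed A → A.Nonempty →
        ∃ f : X → X, Continuous f ∧ Function.Surjective f ∧
          (∀ y : X, IsConnected (f ⁻¹' {y})) ∧
          (∀ x : X, f x = x ↔ x ∈ A)) →
      Nonempty (X ≃ₜ Circle)) := by
  intro H
  obtain ⟨ψ⟩ := H Pool.Agent.H56.Fsp.XS Pool.Agent.H56.Fsp.arcs Pool.Agent.H56.Fsp.free_arc
    Pool.Agent.H56.Fsp.fixed_set
  exact Pool.Agent.H56.Fsp.not_circle ψ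

end Pool.Agent.S14120
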