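import Pool.Statements.S14124
import Pool.Agent.H84.Viet

set_option autoImplicit false
open Pool Pool.MP_e230d6_gt

namespace Pool.Agent.S14124

/-- The negation of the preceding statement: For every first-countable well-filtered T0 space X, on the nonempty compact saturated subsets ordered by reverse inclusion, a family is open in the upper Vietoris topology exactly when it is Scott open. -/
theorem result :
    ¬ (∀ (X : Type) [TopologicalSpace X], T0Space X → FirstCountableTopology X →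
    (∀ 𝒦 : Set (Set X), 𝒦.Nonempty →
      (∀ K ∈ 𝒦, IsCompact K ∧ ⋂₀ {U : Set X | IsOpen U ∧ K ⊆ U} ⊆ K) →
      DirectedOn (fun A B : Set X => B ⊆ A) 𝒦 →
      ∀ U : Set X, IsOpen U → ⋂₀ 𝒦 ⊆ U → ∃ K ∈ 𝒦, K ⊆ U) →
    ∀ 𝒮 : Set {K : Set X // K.Nonempty ∧ IsCompact K ∧ ⋂₀ {U : Set X | IsOpen U ∧ K ⊆ U} ⊆ K},
      (@IsOpen {K : Set X // K.Nonempty ∧ IsCompact K ∧ ⋂₀ {U : Set X | IsOpen U ∧ K ⊆ U} ⊆ K}
        (TopologicalSpace.generateFrom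
          {𝒱 : Set {K : Set X // K.Nonempty ∧ IsCompact K ∧ ⋂₀ {U : Set X | IsOpen U ∧ K ⊆ U} ⊆ K} |
            ∃ U : Set X, IsOpen U ∧
              𝒱 = {K : {K : Set X // K.Nonempty ∧ IsCompact K ∧ ⋂₀ {U : Set X | IsOpen U ∧ K ⊆ U} ⊆ K} |
                K.1 ⊆ U}}) 𝒮 ↔
      ((∀ K ∈ 𝒮, ∀ L : {K : Set X // K.Nonempty ∧ IsCompact K ∧ ⋂₀ {U : Set X | IsOpen U ∧ K ⊆ U} ⊆ K},
          L.1 ⊆ K.1 → L ∈ 𝒮) ∧
       ∀ 𝒟 : Set {K : Set X // K.Nonempty ∧ IsCompact K ∧ ⋂₀ {U : Set X | IsOpen U ∧ K ⊆ U} ⊆ K},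
        𝒟.Nonempty →
        DirectedOn (fun A B : {K : Set X // K.Nonempty ∧ IsCompact K ∧ ⋂₀ {U : Set X | IsOpen U ∧ K ⊆ U} ⊆ K} =>
          B.1 ⊆ A.1) 𝒟 →
        ∀ L : {K : Set X // K.Nonempty ∧ IsCompact K ∧ ⋂₀ {U : Set X | IsOpen U ∧ K ⊆ U} ⊆ K},
          (∀ K ∈ 𝒟, L.1 ⊆ K.1) →
          (∀ M : {K : Set X // K.Nonempty ∧ IsCompact K ∧ ⋂₀ {U : Set X | IsOpen U ∧ K ⊆ U} ⊆ K},
            (∀ K ∈ 𝒟, M.1 ⊆ K.1) → M.1 ⊆ L.1) →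
          L ∈ 𝒮 → ∃ K ∈ 𝒟, K ∈ 𝒮))) := by
  intro H
  have h1 := H H84.Viet.X inferInstance inferInstance
    (fun 𝒦 hne hc hd U hU h => H84.Viet.wf_X 𝒦 hne (fun K hK => (hc K hK).1) hd U hU h)
  have key : ∀ K : Set H84.Viet.X, (⋂₀ {U : Set H84.Viet.X | IsOpen U ∧ K ⊆ U} ⊆ K) :=
    fun K x hx => H84.Viet.sat_of_t1 K x fun U hU hK => hx U ⟨hU, hK⟩
  let e : {K : Set H84.Viet.X // K.Nonempty ∧ IsCompact K ∧
      ⋂₀ {U : Set H84.Viet.X | IsOpen U ∧ K ⊆ U} ⊆ K} → H84.PowDefs.Smyth H84.Viet.X :=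
    fun K => ⟨K.1, K.2.1, K.2.2.1, H84.Viet.sat_of_t1 _⟩
  let e' : H84.PowDefs.Smyth H84.Viet.X → {K : Set H84.Viet.X // K.Nonempty ∧ IsCompact K ∧
      ⋂₀ {U : Set H84.Viet.X | IsOpen U ∧ K ⊆ U} ⊆ K} :=
    fun K => ⟨K.1, K.2.1, K.2.2.1, key _⟩
  have h2 := (h1 (e ⁻¹' H84.Viet.𝒮)).2 ⟨fun K hK L h => H84.Viet.upper_S (e K) hK (e L) h,
    fun 𝒟 hne hd L h3 h4 h5 => by
      obtain ⟨_, ⟨K, hK, rfl⟩, h6⟩ := H84.Viet.scott_S (e '' 𝒟) (hne.image e)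
        (by
          rintro _ ⟨A, hA, rfl⟩ _ ⟨B, hB, rfl⟩
          obtain ⟨C, hC, h7, h8⟩ := hd A hA B hB
          exact ⟨e C, ⟨C, hC, rfl⟩, h7, h8⟩) (e L)
        (by rintro _ ⟨K, hK, rfl⟩; exact h3 K hK)
        (fun M hM => h4 (e' M) fun K hK => hM (e K) ⟨K, hK, rfl⟩) h5
      exact ⟨K, hK, h6⟩⟩
  refine H84.Viet.not_open_S ?_
  let tt : TopologicalSpace {K : Set H84.Viet.X // K.Nonempty ∧ IsCompact K ∧
      ⋂₀ {U : Set H84.Viet.X | IsOpen U ∧ K ⊆ U} ⊆ K} := TopologicalSpace.generateFrom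
    {𝒱 | ∃ U : Set H84.Viet.X, IsOpen U ∧ 𝒱 = {K | K.1 ⊆ U}}
  have h3 : Continuous e' :=
    continuous_generateFrom_iff.2 (by
      rintro _ ⟨U, hU, rfl⟩; exact H84.Smyth.isOpen_box hU)
  exact IsOpen.preimage h3 h2

end Pool.Agent.S14124
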