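import Pool.Statements.S14128
import Pool.Agent.H82.UAleph

set_option autoImplicit false
open Pool Pool.MP_e28848_gt

namespace Pool.Agent.S14128

theorem result :
    ¬ (∀ (X Y : Type) [TopologicalSpace X] [TopologicalSpace Y] [T35Space X] [T35Space Y],
      (∃ φ : (X → ℝ) ≃ₜ (Y → ℝ),
          φ '' {f : X → ℝ | Continuous f} = {g : Y → ℝ | Continuous g}) →
      (∃ 𝒩 : Set (Set X), 𝒩.Countable ∧
          ∀ K U : Set X, IsCompact K → IsOpen U → K ⊆ U →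
            ∃ F : Set (Set X), F.Finite ∧ F ⊆ 𝒩 ∧ K ⊆ ⋃₀ F ∧ ⋃₀ F ⊆ U) →
      (∃ 𝒩 : Set (Set Y), 𝒩.Countable ∧
          ∀ K U : Set Y, IsCompact K → IsOpen U → K ⊆ U →
            ∃ F : Set (Set Y), F.Finite ∧ F ⊆ 𝒩 ∧ K ⊆ ⋃₀ F ∧ ⋃₀ F ⊆ U)) := by
  intro h
  open H82.FS H82.UAleph in
  have := t35 brF_le
  have : T35Space (H82.FS.FS H82.UAleph.G) := H82.FS.t35 (H82.UAleph.blow_le H82.UAleph.brF_le)
  have : T35Space (H82.FS.FS H82.UAleph.brF ⊕ ℕ × H82.FS.FS H82.UAleph.G) := H82.FS.t35_sum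
  obtain ⟨N, hN, h'⟩ := h _ _ H82.UAleph.ue.homeo
    ⟨Set.range singleton, Set.countable_range _, fun K U hK _ hKU =>
      ⟨singleton '' K, (H82.UAleph.fin_compact hK).image _, Set.image_subset_range _ _,
        by simpa using hKU⟩⟩
  exact H82.UAleph.not_aleph0 N hN h'

end Pool.Agent.S14128
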