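import Pool.Statements.S14129
import Pool.Agent.H15.Vald4

set_option autoImplicit false
open Pool Pool.MP_e33218_gt

namespace Pool.Agent.S14129

/-- Every compact linearly ordered space that is a continuous image of a Valdivia compactum is the image of a linearly ordered Valdivia compactum under a continuous, surjective, order-preserving map. -/
theorem result :
  ∀ (K : Type) [LinearOrder K] [TopologicalSpace K] [OrderTopology K] [CompactSpace K],
    (∃ (V : Type) (_ : TopologicalSpace V) (_ : CompactSpace V),
      (∃ (Γ : Type) (h : V → (Γ → ℝ)), Topology.IsEmbedding h ∧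
        Dense (h ⁻¹' {x | {γ | x γ ≠ 0}.Countable})) ∧
      ∃ f : V → K, Continuous f ∧ Function.Surjective f) →
    ∃ (L : Type) (_ : LinearOrder L) (_ : TopologicalSpace L) (_ : OrderTopology L)
      (_ : CompactSpace L),
      (∃ (Γ : Type) (h : L → (Γ → ℝ)), Topology.IsEmbedding h ∧
        Dense (h ⁻¹' {x | {γ | x γ ≠ 0}.Countable})) ∧
      ∃ g : L → K, Continuous g ∧ Function.Surjective g ∧ Monotone g := by
  rintro K _ _ _ _ ⟨V, _, _, ⟨Γ, h, h1, h2⟩, f, hf, hs⟩
  let e := h1.toHomeomorph
  refine Pool.Agent.H15.Vald.main2 (L := Set.range h) (isCompact_range h1.continuous) ?_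
    (f := f ∘ e.symm) (hf.comp e.symm.continuous) (hs.comp e.symm.surjective)
  refine (e.surjective.denseRange.dense_image e.continuous h2).mono ?_
  rintro _ ⟨v, hv, rfl⟩
  exact hv

end Pool.Agent.S14129
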