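import Pool.Statements.S14141
import Pool.Agent.H84.NSp

set_option autoImplicit false
open Pool Pool.MP_e5a18e_gt

namespace Pool.Agent.S14141

/-- There is a completely regular Lindelöf topological space X whose square X × X, with the product topology, is paracompact but not Lindelöf. -/
theorem result :
    ∃ (X : Type) (_ : TopologicalSpace X),
      CompletelyRegularSpace X ∧ LindelofSpace X ∧
        ParacompactSpace (X × X) ∧ ¬ LindelofSpace (X × X) := by
  obtain ⟨X, tX, h2, hr, h⟩ := Pool.Agent.H84.NSp.main 2 ⊤ (by norm_num) le_top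
  have hL1 : LindelofSpace (Fin 1 → X) := (h 1 one_pos).2.2 (by norm_num)
  have hL : LindelofSpace X :=
    (Homeomorph.funUnique (Fin 1) X).symm.isClosedEmbedding.LindelofSpace
  have hP : ParacompactSpace (Fin 2 → X) := (h 2 two_pos).1.2 (ENat.coe_lt_top 2)
  have e : (Fin 2 → X) ≃ₜ X × X := Homeomorph.finTwoArrow
  refine ⟨X, tX, inferInstance, hL, e.paracompactSpace_iff.1 hP, fun hc => ?_⟩
  have := (h 2 two_pos).2.1 e.isClosedEmbedding.LindelofSpace
  simp at this

end Pool.Agent.S14141
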