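import Pool.Statements.S14166
import Pool.Agent.H15.DSep4

set_option autoImplicit false
open Pool Pool.MP_eb94e6_gt

namespace Pool.Agent.S14166

/-- The negation of the preceding statement: For every compact Hausdorff space X, the supremum over dense D of the least number of discrete sets whose union is dense in D equals the least number of disjoint families of nonempty open sets whose union is a π-base of X. -/
theorem result :
    ¬ (∀ (X : Type) [TopologicalSpace X], CompactSpace X → T2Space X →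
      (⨆ D : {D : Set X // Dense D},
          sInf {κ : Cardinal.{0} | ∃ (ι : Type) (A : ι → Set X),
            Cardinal.mk ι = κ ∧
            (∀ i, A i ⊆ D.1 ∧ DiscreteTopology ↥(A i)) ∧
            D.1 ⊆ closure (⋃ i, A i)}) =
      sInf {κ : Cardinal.{0} | ∃ (ι : Type) (C : ι → Set (Set X)),
        Cardinal.mk ι = κ ∧
        (∀ i, (C i).PairwiseDisjoint id) ∧
        (∀ i, ∀ U ∈ C i, IsOpen U ∧ U.Nonempty) ∧
        ∀ V : Set X, IsOpen V → V.Nonempty → ∃ i, ∃ U ∈ C i, U ⊆ V}) := by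
  intro h
  obtain ⟨ι, h1, h2⟩ := H15.DSep.beth_cube
  have h3 := h (ι → Bool) inferInstance inferInstance
  have h4 : sInf {κ : Cardinal.{0} | ∃ (τ : Type) (C : τ → Set (Set (ι → Bool))),
        Cardinal.mk τ = κ ∧
        (∀ i, (C i).PairwiseDisjoint id) ∧
        (∀ i, ∀ U ∈ C i, IsOpen U ∧ U.Nonempty) ∧
        ∀ V : Set (ι → Bool), IsOpen V → V.Nonempty → ∃ i, ∃ U ∈ C i, U ⊆ V} ≤
      Cardinal.aleph0 := by
    rw [← h3]
    refine ciSup_le' fun D => csInf_le' ?_
    obtain ⟨F, a1, a2⟩ := h2 (fun _ => D.1) fun _ => D.2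
    exact ⟨ℕ, F, Cardinal.mk_nat, a1, fun x _ => a2 x⟩
  obtain ⟨τ, C, b1, b2, b3, b4⟩ := csInf_mem (s := {κ : Cardinal.{0} |
      ∃ (τ : Type) (C : τ → Set (Set (ι → Bool))),
        Cardinal.mk τ = κ ∧
        (∀ i, (C i).PairwiseDisjoint id) ∧
        (∀ i, ∀ U ∈ C i, IsOpen U ∧ U.Nonempty) ∧
        ∀ V : Set (ι → Bool), IsOpen V → V.Nonempty → ∃ i, ∃ U ∈ C i, U ⊆ V})
    ⟨_, {U : Set (ι → Bool) // IsOpen U ∧ U.Nonempty}, fun U => {U.1}, rfl,
      fun _ => Set.pairwiseDisjoint_singleton _ _, fun U _ e => e ▸ U.2,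
      fun V a b => ⟨⟨V, a, b⟩, V, rfl, subset_rfl⟩⟩
  have : Countable τ := Cardinal.mk_le_aleph0_iff.1 (b1.trans_le h4)
  obtain ⟨i0, -⟩ := b4 Set.univ isOpen_univ Set.univ_nonempty
  have : Nonempty τ := ⟨i0⟩
  obtain ⟨f, hf⟩ := exists_surjective_nat τ
  refine H15.DSep.cube_no_pibase h1 (fun n => C (f n)) (fun n => b3 _) (fun n => b2 _)
    fun V a b => ?_
  obtain ⟨i, hi⟩ := b4 V a b
  obtain ⟨n, rfl⟩ := hf i
  exact ⟨n, hi⟩

end Pool.Agent.S14166
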