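import Pool.Statements.S14175
import Pool.Agent.H82.TightImage

set_option autoImplicit false
open Pool Pool.MP_ed4848_gt

namespace Pool.Agent.S14175

open Pool.Agent.H82.TightImage in
theorem result :
    ∀ (κ : Type) (K : Type) [TopologicalSpace K] [CompactSpace K] [T2Space K],
      (∀ (A : Set K) (x : K), x ∈ closure A →
          ∃ C : Set K, C ⊆ A ∧ C.Countable ∧ x ∈ closure C) →
      ∀ φ : (κ → ℝ) → K, Continuous φ →
        ∃ 𝒩 : Set (Set K), 𝒩.Countable ∧ (∀ N ∈ 𝒩, N ⊆ Set.range φ) ∧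
          ∀ x ∈ Set.range φ, ∀ U : Set K, IsOpen U → x ∈ U →
            ∃ N ∈ 𝒩, x ∈ N ∧ N ⊆ U := by
  intro κ K _ _ _ ht φ hφ
  have hS := essential_countable ht hφ
  set S := {a : κ | ∃ x y : κ → ℝ, (∀ b, b ≠ a → x b = y b) ∧ φ x ≠ φ y} with hSdef
  have := hS.to_subtype
  have hψ : Continuous (φ ∘ ext0 S) := hφ.comp (ext0_cont S)
  refine ⟨Set.image (φ ∘ ext0 S) '' TopologicalSpace.countableBasis (S → ℝ),
    (TopologicalSpace.countable_countableBasis _).image _, ?_, ?_⟩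
  · rintro _ ⟨B, _, rfl⟩ _ ⟨u, _, rfl⟩
    exact ⟨_, rfl⟩
  · rintro _ ⟨x, rfl⟩ U hU hx
    have e : (φ ∘ ext0 S) (fun b => x b.1) = φ x := by
      refine factor hφ _ _ fun a ha => ?_
      have ha' : a ∈ S := ha
      simp only [ext0, dif_pos ha']
    obtain ⟨B, hB, hxB, hBU⟩ := (TopologicalSpace.isBasis_countableBasis (S → ℝ)).exists_subset_of_mem_open
      (a := fun b => x b.1) (u := (φ ∘ ext0 S) ⁻¹' U) (by rw [Set.mem_preimage, e]; exact hx)
      (hU.preimage hψ)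
    exact ⟨_, ⟨B, hB, rfl⟩, ⟨_, hxB, e⟩, Set.image_subset_iff.2 hBU⟩

end Pool.Agent.S14175
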