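import Pool.Statements.S14180

set_option autoImplicit false
open Topology Pointwise
open Pool Pool.MP_ede847_gt

namespace Pool.Agent.S14180

open Set

section abstract
variable {G : Type} [Group G] (r : G → G → Prop)

/-- basic neighbourhoods attached to a left invariant preorder -/
def B (g : G) (A : Finset G) : Set G := {h | ∀ a ∈ A, r (h * a) (g * a)}

/-- the topology with the sets `B g A` as basic neighbourhoods -/
@[reducible] def top : TopologicalSpace G where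
  IsOpen U := ∀ g ∈ U, ∃ A : Finset G, B r g A ⊆ U
  isOpen_univ := fun _ _ => ⟨∅, subset_univ _⟩
  isOpen_inter := by
    classical
    intro U V hU hV g hg
    obtain ⟨A, hA⟩ := hU g hg.1
    obtain ⟨C, hC⟩ := hV g hg.2
    exact ⟨A ∪ C, fun h hh => ⟨hA fun a ha => hh a (Finset.mem_union_left _ ha),
      hC fun a ha => hh a (Finset.mem_union_right _ ha)⟩⟩
  isOpen_sUnion := by
    intro S hS g ⟨U, hU, hg⟩
    obtain ⟨A, hA⟩ := hS U hU g hg
    exact ⟨A, fun h hh => ⟨U, hU, hA hh⟩⟩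

theorem main (hrefl : ∀ g, r g g) (htrans : ∀ a b c, r a b → r b c → r a c)
    (hinv : ∀ g a b, r a b → r (g * a) (g * b))
    (hright : ∀ A : Finset G, ∃ K : Set G, K.Countable ∧ ∀ h, ∃ k ∈ K, ∀ a ∈ A, r (k * a) (h * a))
    (hleft : ∀ F : Set G, F.Countable → ∃ g, ∀ f ∈ F, ¬ r g f) :
    ¬ (∀ (G : Type) [Group G] [TopologicalSpace G] [ContinuousMul G],
      (∀ U ∈ 𝓝 (1 : G), ∃ F : Set G, F.Countable ∧ U * F = Set.univ) →
      (∀ U ∈ 𝓝 (1 : G), ∃ F : Set G, F.Countable ∧ F * U = Set.univ)) := by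
  classical
  intro H
  letI : TopologicalSpace G := top r
  have hBo : ∀ g A, IsOpen (B r g A) := fun g A h hh =>
    ⟨A, fun k hk a ha => htrans _ _ _ (hk a ha) (hh a ha)⟩
  have hBm : ∀ g A, g ∈ B r g A := fun g A a _ => hrefl _
  have hBn : ∀ g A, B r g A ∈ 𝓝 g := fun g A => (hBo g A).mem_nhds (hBm g A)
  have hn : ∀ g U, U ∈ 𝓝 g → ∃ A, B r g A ⊆ U := by
    intro g U hU
    obtain ⟨V, hVU, hVo, hg⟩ := mem_nhds_iff.1 hU
    obtain ⟨A, hA⟩ := hVo g hg
    exact ⟨A, hA.trans hVU⟩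
  haveI : ContinuousMul G := by
    refine ⟨continuous_iff_continuousAt.2 ?_⟩
    rintro ⟨g, h⟩ U hU
    obtain ⟨A, hA⟩ := hn _ _ hU
    refine Filter.mem_map.2 (mem_nhds_prod_iff.2
      ⟨_, hBn g (A.image (fun a => h * a)), _, hBn h A, ?_⟩)
    rintro ⟨g', h'⟩ ⟨hg', hh'⟩
    refine hA fun a ha => ?_
    have h1 := hinv g' _ _ (hh' a ha)
    have h2 := hg' (h * a) (Finset.mem_image_of_mem _ ha)
    simp only [mul_assoc]
    exact htrans _ _ _ h1 h2
  have := H G (by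
    intro U hU
    obtain ⟨A, hA⟩ := hn _ _ hU
    obtain ⟨K, hKc, hK⟩ := hright A
    refine ⟨(fun k => k⁻¹) '' K, hKc.image _, eq_univ_of_forall fun g => ?_⟩
    obtain ⟨k, hk, hk'⟩ := hK g⁻¹
    refine ⟨g * k, hA fun a ha => ?_, k⁻¹, mem_image_of_mem _ hk, by simp⟩
    have := hinv g _ _ (hk' a ha)
    simpa [mul_assoc] using this) _ (hBn 1 {1})
  obtain ⟨F, hFc, hF⟩ := this
  obtain ⟨g, hg⟩ := hleft F hFc
  have : g ∈ F * B r 1 {1} := hF ▸ mem_univ g
  obtain ⟨f, hf, v, hv, rfl⟩ := this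
  have h1 := hinv f _ _ (hv 1 (Finset.mem_singleton_self _))
  exact hg f hf (by simpa using h1)

end abstract

abbrev Om : Type := ℤ ⊕ ℝ

/-- permutations that agree with a shift near minus infinity -/
def Gp : Subgroup (Equiv.Perm Om) where
  carrier := {g | ∃ m s : ℤ, ∀ n ≤ m, g (Sum.inl n) = Sum.inl (n + s)}
  one_mem' := ⟨0, 0, by simp⟩
  mul_mem' := by
    rintro g h ⟨m, s, hg⟩ ⟨m', s', hh⟩
    refine ⟨min m' (m - s'), s' + s, fun n hn => ?_⟩
    have h1 : n ≤ m' := hn.trans (min_le_left _ _)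
    have h2 : n ≤ m - s' := hn.trans (min_le_right _ _)
    rw [Equiv.Perm.mul_apply, hh n h1, hg _ (by omega), add_assoc]
  inv_mem' := by
    rintro g ⟨m, s, hg⟩
    refine ⟨m + s, -s, fun n hn => ?_⟩
    rw [Equiv.Perm.inv_eq_iff_eq, hg _ (by omega)]
    simp

def L (m : ℤ) : Set Om := Sum.inl '' Iic m

theorem L_mono {m m' : ℤ} (h : m ≤ m') : L m ⊆ L m' := image_mono (Iic_subset_Iic.2 h)

def shift (s : ℤ) : Gp := ⟨Equiv.sumCongr (Equiv.addRight s) (Equiv.refl ℝ), 0, s, by simp⟩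

theorem swap_mem (x y : Om) : Equiv.swap x y ∈ Gp := by
  have h : ∀ x : Om, ∃ m : ℤ, ∀ n ≤ m, Sum.inl n ≠ x := by
    rintro (x | x)
    · exact ⟨x - 1, fun n hn h => by simp at h; omega⟩
    · exact ⟨0, by simp⟩
  obtain ⟨m, hm⟩ := h x
  obtain ⟨m', hm'⟩ := h y
  refine ⟨min m m', 0, fun n hn => ?_⟩
  rw [Equiv.swap_apply_of_ne_of_ne (hm n (hn.trans (min_le_left _ _)))
    (hm' n (hn.trans (min_le_right _ _))), add_zero]

theorem lower (g : Gp) : ∃ m, L m ⊆ (g : Equiv.Perm Om) '' L 0 := by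
  obtain ⟨g, m, s, hg⟩ := g
  refine ⟨min m 0 + s, ?_⟩
  rintro _ ⟨n, hn, rfl⟩
  have h1 := min_le_left m 0
  have h2 := min_le_right m 0
  simp only [mem_Iic] at hn
  refine ⟨Sum.inl (n - s), ⟨n - s, by simp only [mem_Iic]; omega, rfl⟩, ?_⟩
  simp only
  rw [hg _ (by omega)]
  simp

theorem upper (g : Gp) : ∃ m, ∃ T : Set Om, T.Finite ∧ (g : Equiv.Perm Om) '' L 0 ⊆ L m ∪ T := by
  obtain ⟨g, m, s, hg⟩ := g
  refine ⟨m + s, g '' (Sum.inl '' Icc m 0), ((finite_Icc m 0).image _).image _, ?_⟩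
  rintro _ ⟨_, ⟨n, hn, rfl⟩, rfl⟩
  by_cases h : n ≤ m
  · left
    simp only
    rw [hg n h]
    exact ⟨n + s, by simp only [mem_Iic]; omega, rfl⟩
  · right
    exact ⟨_, ⟨n, ⟨by omega, hn⟩, rfl⟩, rfl⟩

theorem push (p : ℤ) (T : Set Om) (hT : T.Finite) :
    ∃ k : Gp, ∃ m, (k : Equiv.Perm Om) '' (L p ∪ T) ⊆ L m := by
  classical
  induction T, hT using Set.Finite.induction_on with
  | empty => exact ⟨1, p, by simp⟩
  | @insert t T _ _ ih =>
    obtain ⟨k, m, hk⟩ := ih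
    by_cases h : (k : Equiv.Perm Om) t ∈ L (m + 1)
    · refine ⟨k, m + 1, ?_⟩
      rintro _ ⟨x, hx | rfl | hx, rfl⟩
      · exact L_mono (by omega) (hk ⟨x, Or.inl hx, rfl⟩)
      · exact h
      · exact L_mono (by omega) (hk ⟨x, Or.inr hx, rfl⟩)
    · refine ⟨⟨_, swap_mem ((k : Equiv.Perm Om) t) (Sum.inl (m + 1))⟩ * k, m + 1, ?_⟩
      have key : ∀ x ∈ L p ∪ T, Equiv.swap ((k : Equiv.Perm Om) t) (Sum.inl (m + 1))
          ((k : Equiv.Perm Om) x) ∈ L (m + 1) := by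
        intro x hx
        have hx' := hk ⟨x, hx, rfl⟩
        rw [Equiv.swap_apply_of_ne_of_ne]
        · exact L_mono (by omega) hx'
        · intro he
          exact h (he ▸ L_mono (by omega) hx')
        · intro he
          rw [he] at hx'
          obtain ⟨n, hn, hn'⟩ := hx'
          simp only [mem_Iic] at hn
          simp at hn'
          omega
      rintro _ ⟨x, hx | rfl | hx, rfl⟩
      · exact key x (Or.inl hx)
      · simp only [Subgroup.coe_mul, Equiv.Perm.mul_apply, Equiv.swap_apply_left]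
        exact ⟨m + 1, le_refl (m + 1), rfl⟩
      · exact key x (Or.inr hx)

theorem push' (p : ℤ) (T : Set Om) (hT : T.Finite) (q : ℤ) :
    ∃ k : Gp, (k : Equiv.Perm Om) '' (L p ∪ T) ⊆ L q := by
  obtain ⟨k, m, hk⟩ := push p T hT
  refine ⟨shift (q - m) * k, ?_⟩
  rintro _ ⟨x, hx, rfl⟩
  obtain ⟨n, hn, hn'⟩ := hk ⟨x, hx, rfl⟩
  simp only [mem_Iic] at hn
  refine ⟨n + (q - m), by simp only [mem_Iic]; omega, ?_⟩
  simp only [Subgroup.coe_mul, Equiv.Perm.mul_apply]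
  rw [← hn']
  simp [shift]

theorem result :
    ¬ (∀ (G : Type) [Group G] [TopologicalSpace G] [ContinuousMul G],
      (∀ U ∈ 𝓝 (1 : G), ∃ F : Set G, F.Countable ∧ U * F = Set.univ) →
      (∀ U ∈ 𝓝 (1 : G), ∃ F : Set G, F.Countable ∧ F * U = Set.univ)) := by
  refine main (G := Gp) (fun g h => (g : Equiv.Perm Om) '' L 0 ⊆ (h : Equiv.Perm Om) '' L 0)
    (fun _ => Subset.rfl) (fun _ _ _ h1 h2 => h1.trans h2) ?_ ?_ ?_
  · intro g a b h
    simp only [Subgroup.coe_mul, Equiv.Perm.coe_mul, image_comp]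
    exact image_mono h
  · intro A
    choose m T hT hmT using upper
    let p : ℤ := ∑ a ∈ A, |m a|
    have hp : ∀ a ∈ A, m a ≤ p := fun a ha =>
      (le_abs_self _).trans (Finset.single_le_sum (f := fun a => |m a|) (fun _ _ => abs_nonneg _) ha)
    choose k hk using push' p (⋃ a ∈ A, T a) (A.finite_toSet.biUnion fun a _ => hT a)
    refine ⟨range k, countable_range _, fun h => ?_⟩
    choose l hl using lower
    let q : ℤ := - ∑ a ∈ A, |l (h * a)|
    have hq : ∀ a ∈ A, q ≤ l (h * a) := fun a ha => by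
      have := Finset.single_le_sum (f := fun a => |l (h * a)|) (fun _ _ => abs_nonneg _) ha
      have := neg_abs_le (l (h * a))
      simp only [q]
      omega
    refine ⟨k q, mem_range_self _, fun a ha => ?_⟩
    refine Subset.trans ?_ ((L_mono (hq a ha)).trans (hl (h * a)))
    refine Subset.trans ?_ (hk q)
    simp only [Subgroup.coe_mul, Equiv.Perm.coe_mul, image_comp]
    refine image_mono ((hmT a).trans (union_subset_union (L_mono (hp a ha)) ?_))
    exact subset_biUnion_of_mem (u := T) (Finset.mem_coe.2 ha)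
  · intro F hF
    have hc : (⋃ f ∈ F, (f : Equiv.Perm Om) '' L 0).Countable :=
      hF.biUnion fun f _ => ((to_countable _).image _).image _
    have hc' : ((Sum.inr : ℝ → Om) ⁻¹' (⋃ f ∈ F, (f : Equiv.Perm Om) '' L 0)).Countable :=
      hc.preimage Sum.inr_injective
    have : ∃ x : ℝ, x ∉ (Sum.inr : ℝ → Om) ⁻¹' (⋃ f ∈ F, (f : Equiv.Perm Om) '' L 0) := by
      by_contra hcon
      push Not at hcon
      exact Cardinal.not_countable_real (hc'.mono fun x _ => hcon x)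
    obtain ⟨x, hx⟩ := this
    refine ⟨⟨_, swap_mem (Sum.inl 0) (Sum.inr x)⟩, fun f hf hcon => hx ?_⟩
    refine mem_biUnion hf (hcon ⟨Sum.inl 0, ⟨0, le_refl (0 : ℤ), rfl⟩, ?_⟩)
    simp

end Pool.Agent.S14180
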