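import Pool.Statements.S14191
import Pool.Agent.H58.QH3

set_option autoImplicit false
open Pool Pool.MP_f019fe_gt

namespace Pool.Agent.S14191

/-- For every n ≥ 1 there is a quasi-isometric embedding of quaternionic hyperbolic n-space (ball model) into quaternionic hyperbolic (n+1)-space whose image is at infinite Hausdorff distance from the image of every isometric embedding. -/
theorem result :
    ∀ D : (k : ℕ) → (Fin k → Quaternion ℝ) → (Fin k → Quaternion ℝ) → ℝ,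
      D = (fun (k : ℕ) (x y : Fin k → Quaternion ℝ) =>
        Real.arsinh (Real.sqrt
          (‖(1 : Quaternion ℝ) - ∑ i, star (x i) * y i‖ ^ 2 /
            ((1 - ∑ i, ‖x i‖ ^ 2) * (1 - ∑ i, ‖y i‖ ^ 2)) - 1))) →
    ∀ n : ℕ, 1 ≤ n →
      ∃ f : (Fin n → Quaternion ℝ) → (Fin (n + 1) → Quaternion ℝ),
        (∀ x : Fin n → Quaternion ℝ, ∑ i, ‖x i‖ ^ 2 < 1 → ∑ i, ‖f x i‖ ^ 2 < 1) ∧
        (∃ L : ℝ, 1 ≤ L ∧ ∃ C : ℝ, 0 ≤ C ∧
          ∀ x y : Fin n → Quaternion ℝ, ∑ i, ‖x i‖ ^ 2 < 1 → ∑ i, ‖y i‖ ^ 2 < 1 →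
            D n x y / L - C ≤ D (n + 1) (f x) (f y) ∧
            D (n + 1) (f x) (f y) ≤ L * D n x y + C) ∧
        ∀ g : (Fin n → Quaternion ℝ) → (Fin (n + 1) → Quaternion ℝ),
          (∀ x : Fin n → Quaternion ℝ, ∑ i, ‖x i‖ ^ 2 < 1 → ∑ i, ‖g x i‖ ^ 2 < 1) →
          (∀ x y : Fin n → Quaternion ℝ, ∑ i, ‖x i‖ ^ 2 < 1 → ∑ i, ‖y i‖ ^ 2 < 1 →
            D (n + 1) (g x) (g y) = D n x y) →
          ∀ R : ℝ,
            (∃ x : Fin n → Quaternion ℝ, ∑ i, ‖x i‖ ^ 2 < 1 ∧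
              ∀ y : Fin n → Quaternion ℝ, ∑ i, ‖y i‖ ^ 2 < 1 → R < D (n + 1) (f x) (g y)) ∨
            (∃ x : Fin n → Quaternion ℝ, ∑ i, ‖x i‖ ^ 2 < 1 ∧
              ∀ y : Fin n → Quaternion ℝ, ∑ i, ‖y i‖ ^ 2 < 1 → R < D (n + 1) (g x) (f y)) := by
  intro D hD n hn
  subst hD
  obtain ⟨f, h1, h2, h3⟩ := Pool.Agent.H58.QH.mainD (K := Quaternion ℝ) (ι := Fin n)
    (κ := Fin (n + 1)) ⟨0, hn⟩ (finSuccEquiv n).symm.toEmbedding
  refine ⟨f, h1, ⟨1, le_rfl, Real.log 3, Real.log_nonneg (by norm_num), fun x y hx hy => ?_⟩,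
    fun g hg hD R => Or.inl (h3 g hg hD R)⟩
  obtain ⟨a, b⟩ := h2 x y hx hy
  have c : 0 ≤ Real.log 3 := Real.log_nonneg (by norm_num)
  unfold Pool.Agent.H58.QH.DD Pool.Agent.H58.QH.qq at a b
  beta_reduce
  constructor <;> linarith

end Pool.Agent.S14191
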