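import Pool.Statements.S14230
import Pool.Agent.H84.KProd

set_option autoImplicit false
open Pool Pool.MP_f54e59_gt

namespace Pool.Agent.S14230

/-- The negation of the preceding statement: For every class K of T0 spaces containing all sober spaces, any product of T0 spaces whose irreducible closed sets are K-determined (images have closure of a unique point in every K-space) again has all irreducible closed sets K-determined. -/
theorem result :
    ¬ (∀ K : (∀ (Y : Type) [TopologicalSpace Y], Prop),
      (∀ (Y : Type) [TopologicalSpace Y], K Y → T0Space Y) →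
      (∀ (Y : Type) [TopologicalSpace Y], T0Space Y → QuasiSober Y → K Y) →
      ∀ (I : Type) (X : I → Type) [∀ i, TopologicalSpace (X i)],
        (∀ i, T0Space (X i) ∧ ∀ A : Set (X i), IsIrreducible A → IsClosed A →
          ∀ (Y : Type) [TopologicalSpace Y], K Y → ∀ f : X i → Y, Continuous f →
            ∃! y : Y, closure (f '' A) = closure {y}) →
        ∀ A : Set (∀ i, X i), IsIrreducible A → IsClosed A →
          ∀ (Y : Type) [TopologicalSpace Y], K Y → ∀ f : (∀ i, X i) → Y, Continuous f →
            ∃! y : Y, closure (f '' A) = closure {y}) := by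
  intro H
  have := H H84.KProd.K (fun Y _ h => h.1) (fun Y _ h1 h2 => H84.KProd.K_sober Y) ℕ H84.KProd.X
    (fun i => ⟨inferInstance, fun A hA hc Y _ hY f hf => by
      have := hY.1
      apply H84.Gen.exists_unique_of_gen
      rcases H84.KProd.irr_closed_X hA hc with rfl | ⟨a, rfl⟩
      · rw [Set.image_univ]; exact hY.2 i f hf
      · rw [Set.image_singleton]; exact ⟨_, H84.Gen.gen_singleton _⟩⟩)
    Set.univ H84.KProd.irreducible_prod isClosed_univ H84.KProd.S H84.KProd.K_S H84.KProd.etaS
    H84.KProd.continuous_etaS
  obtain ⟨y, hy, -⟩ := this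
  exact H84.KProd.no_upper y fun x => (H84.Gen.gen_iff.2 hy).1 _ ⟨x, trivial, rfl⟩

end Pool.Agent.S14230
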