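import Pool.Statements.S14235
import Pool.Agent.H82.MonoAdd

set_option autoImplicit false
open Pool Pool.MP_f5ae99_gt

namespace Pool.Agent.S14235

theorem result :
  ∀ (X : Type) [TopologicalSpace X] [T35Space X] (Y : ℕ → Set (X → ℝ)),
    (⋃ n, Y n) = {f : X → ℝ | Continuous f} →
    (∀ n, ∀ A : Set (X → ℝ), A ⊆ Y n → A.Countable →
      ∃ 𝒩 : Set (Set (X → ℝ)), 𝒩.Countable ∧
        ∀ x ∈ closure A ∩ Y n, ∀ U : Set (X → ℝ), IsOpen U → x ∈ U →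
          ∃ N ∈ 𝒩, x ∈ N ∧ N ⊆ U) →
    ∀ A : Set (X → ℝ), A ⊆ {f : X → ℝ | Continuous f} → A.Countable →
      ∃ 𝒩 : Set (Set (X → ℝ)), 𝒩.Countable ∧
        ∀ x ∈ closure A ∩ {f : X → ℝ | Continuous f}, ∀ U : Set (X → ℝ), IsOpen U → x ∈ U →
          ∃ N ∈ 𝒩, x ∈ N ∧ N ⊆ U := by
  intro X _ _ Y hY hm A hA hAc
  exact H82.MonoAdd.main Y hY hm A hA hAc

end Pool.Agent.S14235
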