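import Pool.Statements.S14237
import Pool.Agent.H82.MonoMon

set_option autoImplicit false
open Pool Pool.MP_f624f5_gt

namespace Pool.Agent.S14237

theorem result :
    ∀ (X : Type) [TopologicalSpace X] [T2Space X] [CompactSpace X],
      (∀ F : Set (Set X), (∀ U ∈ F, IsOpen U ∧ U.Nonempty) → F.PairwiseDisjoint id → F.Countable) →
      (∃ O : Set X → Set (Set X),
        (∀ A : Set X, Cardinal.mk ↥(O A) ≤ max (Cardinal.mk ↥A) Cardinal.aleph0) ∧
        (∀ A : Set X, ∀ x ∈ closure A, ∀ U : Set X, IsOpen U → x ∈ U →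
            ∃ N ∈ O A, x ∈ N ∧ N ⊆ U) ∧
        (∀ A B : Set X, A ⊆ B → O A ⊆ O B) ∧
        (∀ (ι : Type) [LinearOrder ι] [WellFoundedLT ι] (A : ι → Set X),
            Monotone A → O (⋃ i, A i) = ⋃ i, O (A i))) →
      TopologicalSpace.MetrizableSpace X := by
  rintro X _ _ _ hccc ⟨O, h1, h2, h3, h4⟩
  refine H82.MonoMon.ccc_metrizable hccc O ?_ h2 ?_
  · intro A hA
    rw [← Cardinal.le_aleph0_iff_set_countable]
    exact (h1 A).trans (max_le (Cardinal.le_aleph0_iff_set_countable.2 hA) le_rfl)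
  · intro x
    have hm : Monotone fun n : ℕ => x '' Set.Iio n := fun a b hab =>
      Set.image_mono (Set.Iio_subset_Iio hab)
    have := h4 ℕ _ hm
    have e : ⋃ n : ℕ, x '' Set.Iio n = Set.range x := by
      ext y
      simp only [Set.mem_iUnion, Set.mem_image, Set.mem_Iio, Set.mem_range]
      exact ⟨fun ⟨_, i, _, h⟩ => ⟨i, h⟩, fun ⟨i, h⟩ => ⟨i + 1, i, by omega, h⟩⟩
    rw [e] at this
    rw [this]

end Pool.Agent.S14237
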