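import Pool.Statements.S14275
import Pool.Agent.H86.Functorial

set_option autoImplicit false
open Pool Pool.MP_faf39c_gt

namespace Pool.Agent.S14275

open Set Filter Topology Pool.Agent.H86.Functorial

abbrev X : Type := ℕ → Bool

def Null (φ : (X → ℤ) →+ ℤ) (A : Set X) : Prop := ∀ g : X → ℤ, (∀ x ∉ A, g x = 0) → φ g = 0

theorem Null.mono {φ : (X → ℤ) →+ ℤ} {A B : Set X} (h : Null φ B) (hAB : A ⊆ B) : Null φ A :=
  fun g hg => h g fun x hx => hg x fun hx' => hx (hAB hx')

theorem Null.union {φ : (X → ℤ) →+ ℤ} {A B : Set X} (hA : Null φ A) (hB : Null φ B) :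
    Null φ (A ∪ B) := by
  classical
  intro g hg
  have : g = (fun x => if x ∈ A then g x else 0) + (fun x => if x ∈ A then 0 else g x) := by
    ext x
    by_cases h : x ∈ A <;> simp [h]
  rw [this, map_add, hA _ (fun x hx => if_neg hx), hB, add_zero]
  intro x hx
  by_cases h : x ∈ A
  · exact if_pos h
  · rw [if_neg h]
    exact hg x (fun h' => h'.elim h hx)

theorem Null.biUnion {φ : (X → ℤ) →+ ℤ} {ι : Type} (s : Finset ι) (A : ι → Set X)
    (h : ∀ i ∈ s, Null φ (A i)) : Null φ (⋃ i ∈ s, A i) := by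
  classical
  induction s using Finset.induction_on with
  | empty =>
    intro g hg
    have : g = 0 := by
      ext x
      exact hg x (by simp)
    rw [this, map_zero]
  | insert a s _ ih =>
    rw [Finset.set_biUnion_insert]
    exact (h a (Finset.mem_insert_self _ _)).union
      (ih fun i hi => h i (Finset.mem_insert_of_mem hi))

theorem exists_null (φ : (X → ℤ) →+ ℤ) (A : ℕ → Set X) (hA : ∀ x, ∃ N, ∀ n ≥ N, x ∉ A n) :
    ∃ n, Null φ (A n) := by
  by_contra hcon
  simp only [Null] at hcon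
  push Not at hcon
  choose g hg hg' using hcon
  obtain ⟨n, hn⟩ := specker φ g (fun x => by
    obtain ⟨N, hN⟩ := hA x
    exact ⟨N, fun n hn => hg n x (hN n hn)⟩)
  exact hg' n hn

theorem finite_support (φ : (X → ℤ) →+ ℤ) : ∃ S : Finset X, Null φ (S : Set X)ᶜ := by
  classical
  have h : ∀ x : X, ∃ n, Null φ (PiNat.cylinder x n \ {x}) := by
    intro x
    refine exists_null φ _ fun y => ?_
    by_cases hy : y = x
    · exact ⟨0, fun n _ h => h.2 hy⟩
    · obtain ⟨i, hi⟩ := Function.ne_iff.1 hy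
      exact ⟨i + 1, fun n hn h => hi (PiNat.mem_cylinder_iff.1 h.1 i hn)⟩
  choose n hn using h
  obtain ⟨S, hS⟩ := isCompact_univ.elim_finite_subcover (fun x : X => PiNat.cylinder x (n x))
    (fun x => PiNat.isOpen_cylinder _ _ _)
    (fun x _ => mem_iUnion.2 ⟨x, PiNat.self_mem_cylinder _ _⟩)
  refine ⟨S, (Null.biUnion S _ fun x _ => hn x).mono fun y hy => ?_⟩
  obtain ⟨x, hx, hyx⟩ := mem_iUnion₂.1 (hS (mem_univ y))
  exact mem_iUnion₂.2 ⟨x, hx, hyx, fun h => hy (by rw [mem_singleton_iff.1 h]; exact hx)⟩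

def D : Set (X → ℤ) :=
  range (fun p : (Σ n : ℕ, ((Fin n → Bool) → ℤ)) => fun x : X => p.2 (fun i => x i))

theorem D_countable : D.Countable := countable_range _

theorem D_interp (S : Finset X) (g : X → ℤ) : ∃ d ∈ D, ∀ x ∈ S, d x = g x := by
  classical
  have h : ∃ n : ℕ, ∀ x ∈ S, ∀ y ∈ S, (∀ i < n, x i = y i) → x = y := by
    have h1 : ∀ p : X × X, ∃ n : ℕ, (∀ i < n, p.1 i = p.2 i) → p.1 = p.2 := by
      intro p
      by_cases h : p.1 = p.2
      · exact ⟨0, fun _ => h⟩
      · obtain ⟨i, hi⟩ := Function.ne_iff.1 h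
        exact ⟨i + 1, fun h' => absurd (h' i (by omega)) hi⟩
    choose m hm using h1
    refine ⟨(S ×ˢ S).sup m, fun x hx y hy hxy => hm (x, y) fun i hi => hxy i ?_⟩
    exact hi.trans_le (Finset.le_sup (f := m) (Finset.mem_product.2 ⟨hx, hy⟩))
  obtain ⟨n, hn⟩ := h
  let r : X → (Fin n → Bool) := fun x i => x i
  refine ⟨_, ⟨⟨n, fun z => if h : ∃ x ∈ S, r x = z then g h.choose else 0⟩, rfl⟩, fun x hx => ?_⟩
  have hex : ∃ y ∈ S, r y = r x := ⟨x, hx, rfl⟩
  change (if h : ∃ y ∈ S, r y = r x then g h.choose else 0) = g x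
  rw [dif_pos hex]
  congr 1
  refine hn _ hex.choose_spec.1 _ hx fun i hi => ?_
  exact congrFun hex.choose_spec.2 ⟨i, hi⟩

theorem result :
    ∃ T : (G : Type) → [AddCommGroup G] → TopologicalSpace G,
      (∀ (G : Type) [AddCommGroup G], @IsTopologicalAddGroup G (T G) _) ∧
      (∀ (G H : Type) [AddCommGroup G] [AddCommGroup H] (f : G →+ H),
          @Continuous G H (T G) (T H) f) ∧
      ∃ (G : Type) (_ : AddCommGroup G), Infinite G ∧ @T2Space G (T G) ∧
        ∃ D : Set G, @Dense G (T G) D ∧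
          (2 : Cardinal) ^ Cardinal.mk ↥D < Cardinal.mk G := by
  classical
  refine ⟨fun G _ => initTop ℤ G, fun G _ => initTop_group ℤ G,
    fun G H _ _ f => initTop_functorial ℤ G H f, X → ℤ, inferInstance, inferInstance, ?_, D, ?_, ?_⟩
  · refine @T2Space.of_injective_continuous (X → ℤ) _ (initTop ℤ (X → ℤ)) _ _ (ev ℤ (X → ℤ)) ?_
      continuous_induced_dom
    intro a b h
    ext x
    exact congrFun h (Pi.evalAddMonoidHom (fun _ => ℤ) x)
  · intro g
    rw [@mem_closure_iff_nhds _ (initTop ℤ (X → ℤ))]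
    intro U hU
    rw [nhds_induced, Filter.mem_comap] at hU
    obtain ⟨W, hW, hWU⟩ := hU
    rw [nhds_pi, Filter.mem_pi] at hW
    obtain ⟨I, hI, t, ht, htW⟩ := hW
    choose S hS using finite_support
    obtain ⟨d, hd, hdg⟩ := D_interp (hI.toFinset.biUnion S) g
    refine ⟨d, hWU (htW fun φ hφ => ?_), hd⟩
    have : φ (d - g) = 0 := by
      refine hS φ _ fun x hx => ?_
      have hx' : x ∈ S φ := by simpa using hx
      rw [Pi.sub_apply, hdg x (Finset.mem_biUnion.2 ⟨φ, hI.mem_toFinset.2 hφ, hx'⟩), sub_self]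
    rw [map_sub, sub_eq_zero] at this
    change φ d ∈ t φ
    rw [this]
    exact mem_of_mem_nhds (ht φ)
  · have h1 : Cardinal.mk ↥D ≤ Cardinal.aleph0 := Cardinal.le_aleph0_iff_set_countable.2 D_countable
    have h2 : (2 : Cardinal) ^ Cardinal.mk ↥D ≤ 2 ^ Cardinal.aleph0 :=
      Cardinal.power_le_power_left two_ne_zero h1
    have h3 : Cardinal.mk (X → ℤ) = Cardinal.aleph0 ^ ((2 : Cardinal) ^ Cardinal.aleph0) := by
      simp [X]
    rw [h3]
    refine h2.trans_lt ((Cardinal.cantor _).trans_le ?_)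
    exact Cardinal.power_le_power_right (Cardinal.nat_lt_aleph0 2).le

end Pool.Agent.S14275
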