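import Pool.Statements.S14362
import Pool.Agent.H39.L2Tame

set_option autoImplicit false
open Pool Pool.MP_0bef39_lc

namespace Pool.Agent.S14362

/-- The negation of the preceding statement: For every jointly Borel action of the additive group of ℓ² on a standard Borel space, the orbit equivalence relation is a Borel subset of X × X; that is, (ℓ², +) is tame. -/
theorem result :
    ¬ (∀ (X : Type) [mX : MeasurableSpace X] [StandardBorelSpace X]
      [AddAction (lp (fun _ : ℕ => ℝ) 2) X],
      @Measurable (lp (fun _ : ℕ => ℝ) 2 × X) X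
        (MeasurableSpace.comap Prod.fst (borel (lp (fun _ : ℕ => ℝ) 2)) ⊔
          MeasurableSpace.comap Prod.snd mX) mX
        (fun p => p.1 +ᵥ p.2) →
      MeasurableSet {p : X × X | ∃ g : lp (fun _ : ℕ => ℝ) 2, g +ᵥ p.1 = p.2}) := by
  intro H
  borelize Pool.Agent.H39.L2Tame.G
  exact Pool.Agent.H39.L2Tame.not_measurable
    (H Pool.Agent.H39.L2Tame.X Pool.Agent.H39.L2Tame.measurable_act)

end Pool.Agent.S14362
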