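import Pool.Statements.S14386
import Pool.Agent.H67.Col3

set_option autoImplicit false
open Pool Pool.MP_0ff9d6_lc

namespace Pool.Agent.S14386

/-- The negation of the preceding statement: Every clone on ℕ that is topologically closed and whose invertible unary members have finitely many orbits on k-tuples for each k, and that has a clone homomorphism to the projection clone, also has one that is continuous. -/
theorem result :
    ¬ (∀ C : ∀ n : ℕ, Set ((Fin n → ℕ) → ℕ),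
      (∀ (n : ℕ) (i : Fin n), (fun x : Fin n → ℕ => x i) ∈ C n) →
      (∀ (n m : ℕ) (f : (Fin n → ℕ) → ℕ) (g : Fin n → (Fin m → ℕ) → ℕ),
          f ∈ C n → (∀ i, g i ∈ C m) →
          (fun x : Fin m → ℕ => f (fun i => g i x)) ∈ C m) →
      (∀ n : ℕ, IsClosed (C n)) →
      (∀ k : ℕ, ∃ S : Finset (Fin k → ℕ), ∀ x : Fin k → ℕ, ∃ s ∈ S, ∃ σ τ : ℕ → ℕ,
          (fun y : Fin 1 → ℕ => σ (y 0)) ∈ C 1 ∧ (fun y : Fin 1 → ℕ => τ (y 0)) ∈ C 1 ∧
          Function.LeftInverse τ σ ∧ Function.RightInverse τ σ ∧ σ ∘ s = x) →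
      (∃ ξ : ∀ n : ℕ, ((Fin n → ℕ) → ℕ) → ℕ,
          (∀ (n : ℕ) (f : (Fin n → ℕ) → ℕ), f ∈ C n → ξ n f < n) ∧
          (∀ (n : ℕ) (i : Fin n), ξ n (fun x : Fin n → ℕ => x i) = (i : ℕ)) ∧
          (∀ (n m : ℕ) (f : (Fin n → ℕ) → ℕ) (g : Fin n → (Fin m → ℕ) → ℕ),
              f ∈ C n → (∀ i, g i ∈ C m) → ∀ i : Fin n, ξ n f = (i : ℕ) →
              ξ m (fun x : Fin m → ℕ => f (fun j => g j x)) = ξ m (g i))) →
      (∃ ξ : ∀ n : ℕ, ((Fin n → ℕ) → ℕ) → ℕ,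
          (∀ (n : ℕ) (f : (Fin n → ℕ) → ℕ), f ∈ C n → ξ n f < n) ∧
          (∀ (n : ℕ) (i : Fin n), ξ n (fun x : Fin n → ℕ => x i) = (i : ℕ)) ∧
          (∀ (n m : ℕ) (f : (Fin n → ℕ) → ℕ) (g : Fin n → (Fin m → ℕ) → ℕ),
              f ∈ C n → (∀ i, g i ∈ C m) → ∀ i : Fin n, ξ n f = (i : ℕ) →
              ξ m (fun x : Fin m → ℕ => f (fun j => g j x)) = ξ m (g i)) ∧
          (∀ n : ℕ, ContinuousOn (ξ n) (C n)))) := by
  intro H
  obtain ⟨c, e⟩ := H67.Col.exists_c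
  obtain ⟨ξ, h1, h2, h3, h4⟩ := H (H67.Col.Cl c) H67.Col.proj_mem H67.Col.comp_mem H67.Col.closed
    (H67.Col.oligo e) (H67.Col.exists_hom e)
  exact H67.Col.no_cont e ⟨h1, h2, h3, h4⟩

end Pool.Agent.S14386
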