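import Pool.Statements.S14398
import Pool.Agent.H37.PP3

set_option autoImplicit false
open Pool Pool.MP_1220fe_lc

namespace Pool.Agent.S14398

theorem result :
    ¬ (∀ (red : Set (ℕ → ℕ) → Set (ℕ → ℕ) → Prop),
      red = (fun P Q => ∃ f : List ℕ → List ℕ, Computable f ∧
          (∀ σ τ : List ℕ, σ <+: τ → f σ <+: f τ) ∧
          ∀ y ∈ Q, ∃ x ∈ P, ∀ n : ℕ, ∃ m : ℕ, ∀ i < n,
            (f (List.ofFn fun j : Fin m => y j.val))[i]? = some (x i)) →
    ∀ (pi : (List ℕ → Bool) → Set (ℕ → ℕ)),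
      pi = (fun c => {x : ℕ → ℕ | (∀ n, x n ≤ 1) ∧
          ∀ m : ℕ, c (List.ofFn fun j : Fin m => x j.val) = false}) →
    ∀ (G : Type) [Group G] [Infinite G] (r : ℕ) (gens : Fin r → G),
      Subgroup.closure (Set.range gens) = ⊤ →
      REPred (fun w : List (Fin r × Bool) =>
        (w.map fun p => cond p.2 (gens p.1) (gens p.1)⁻¹).prod = 1) →
    ∀ (S : (k : ℕ) → List (Finset G × (G → Fin k)) → Set (ℕ → ℕ)),
      S = (fun k F => {y : ℕ → ℕ | ∃ x : G → Fin k,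
          (∀ g : G, ∀ q ∈ F, ¬ ∀ h ∈ q.1, x (g * h) = q.2 h) ∧
          ∀ n : ℕ, y n = (Encodable.decode n : Option (List (Fin r × Bool))).elim 0
            (fun w => (x (w.map fun p => cond p.2 (gens p.1) (gens p.1)⁻¹).prod).val)}) →
    ((¬ ∃ H : Subgroup G, H.FiniteIndex ∧ IsFreeGroup H) ↔
      ((∀ (k : ℕ) (F : List (Finset G × (G → Fin k))), (S k F).Nonempty →
          ∃ c : List ℕ → Bool, Computable c ∧ (pi c).Nonempty ∧
            red (pi c) (S k F) ∧ red (S k F) (pi c)) ∧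
       (∀ c : List ℕ → Bool, Computable c → (pi c).Nonempty →
          ∃ (k : ℕ) (F : List (Finset G × (G → Fin k))), (S k F).Nonempty ∧
            red (pi c) (S k F) ∧ red (S k F) (pi c))))) := by
  intro H
  obtain ⟨G, _, _, gens, h1, h2, h0, c, h3, ⟨x, hx⟩, h4⟩ := H37.PP.main
  obtain ⟨k, F, -, ⟨f, f1, f2, a⟩, ⟨g, g1, g2, b⟩⟩ := ((H _ rfl _ rfl G 3 gens h1 h2 _ rfl).1 h0).2 c
    h3.computable ⟨x, by simpa only [H37.PP.ofFn_pre, Set.mem_setOf_eq] using hx⟩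
  obtain ⟨y, ⟨u, u1, u2⟩, e⟩ := b x (by simpa only [H37.PP.ofFn_pre, Set.mem_setOf_eq] using hx)
  obtain ⟨z, hz, e'⟩ := a y ⟨u, u1, u2⟩
  obtain rfl : y = H37.PP.code gens fun g => (u g).val := funext u2
  exact (h4 z (by simpa only [H37.PP.ofFn_pre] using hz.2)).1 ((H37.PP.red_ci f1 f2 e').trans
    ((h4 x hx.2).2 _ (H37.PP.red_ci g1 g2 e)))

end Pool.Agent.S14398
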