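import Pool.Statements.S14416
import Pool.Agent.H83.Soc3

set_option autoImplicit false
open Pool Pool.MP_16f0b8_lc

namespace Pool.Agent.S14416

/-- The negation of the preceding statement: For all n,k ≥ 2: every k-coloring of (n+1)-sets of naturals has some k-coloring of n-sets such that every infinite homogeneous set for the latter Turing-computes an infinite homogeneous set for the former. -/
theorem result :
    ¬ (∀ n k : ℕ, 2 ≤ n → 2 ≤ k →
      ∀ c : Finset ℕ → Fin k, ∃ d : Finset ℕ → Fin k,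
        ∀ H : Set ℕ, H.Infinite →
          (∃ i : Fin k, ∀ s : Finset ℕ, (↑s : Set ℕ) ⊆ H → s.card = n → d s = i) →
          ∃ G : Set ℕ, G.Infinite ∧
            (∃ j : Fin k, ∀ s : Finset ℕ, (↑s : Set ℕ) ⊆ G → s.card = n + 1 → c s = j) ∧
            TuringReducible
              (fun m : ℕ => Part.some (Set.indicator G (fun _ => (1 : ℕ)) m))
              (fun m : ℕ => Part.some (Set.indicator H (fun _ => (1 : ℕ)) m))) := by
  classical
  intro h
  obtain ⟨f, hf⟩ := Pool.Agent.H83.Soc.main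
  obtain ⟨g, hg⟩ := h 2 2 le_rfl le_rfl
    fun s => if ∃ v, ∀ a ∈ s, ∀ b ∈ s, a < b → f a b = v then 0 else 1
  obtain ⟨H, d, h1, h2, h3⟩ := hf fun x y => g {x, y}
  obtain ⟨G, i1, ⟨j, i2⟩, i3⟩ := hg H h1 ⟨d, by
    intro s hs hc
    obtain ⟨x, y, hxy, rfl⟩ := Finset.card_eq_two.1 hc
    have hx : x ∈ H := hs (by simp)
    have hy : y ∈ H := hs (by simp)
    rcases lt_or_gt_of_ne hxy with h | h
    · exact h2 x hx y hy h
    · rw [Finset.pair_comm]; exact h2 y hy x hx h⟩
  have card3 : ∀ x y z : ℕ, x < y → y < z → ({x, y, z} : Finset ℕ).card = 2 + 1 :=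
    fun x y z a b => Finset.card_eq_three.2 ⟨x, y, z, a.ne, (a.trans b).ne, b.ne, rfl⟩
  have tri : ∃ x ∈ G, ∃ y ∈ G, ∃ z ∈ G, x < y ∧ y < z ∧ f x y = f x z ∧ f y z = f x z := by
    haveI := Filter.cofinite_inf_principal_neBot_iff.2 i1
    let V := Ultrafilter.of (Filter.cofinite ⊓ Filter.principal G)
    have hV := Ultrafilter.of_le (Filter.cofinite ⊓ Filter.principal G)
    have vG : ∀ᶠ y in (V : Filter ℕ), y ∈ G := (hV.trans inf_le_right) (Filter.mem_principal_self G)
    have vgt : ∀ x, ∀ᶠ y in (V : Filter ℕ), x < y := fun x =>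
      (hV.trans inf_le_left) (by rw [Nat.cofinite_eq_atTop]; exact Filter.eventually_gt_atTop x)
    have lim : ∀ φ : ℕ → Fin 3, ∃ c, ∀ᶠ y in (V : Filter ℕ), φ y = c := fun φ =>
      Ultrafilter.eventually_exists_iff.1 (Filter.Eventually.of_forall fun y => ⟨φ y, rfl⟩)
    choose l hl using fun x => lim (f x)
    obtain ⟨c, hc⟩ := lim l
    obtain ⟨x, x1, x2⟩ := (vG.and hc).exists
    obtain ⟨y, ⟨⟨y1, y2⟩, y3⟩, y4⟩ := (((vG.and hc).and (vgt x)).and (hl x)).exists
    obtain ⟨z, ⟨⟨z1, z2⟩, z3⟩, z4⟩ := (((vG.and (hl y)).and (vgt y)).and (hl x)).exists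
    exact ⟨x, x1, y, y1, z, z1, y3, z3, by rw [y4, z4], by rw [z2, z4, y2, x2]⟩
  have hj : j = 0 := by
    obtain ⟨x, x1, y, y1, z, z1, a, b, e1, e2⟩ := tri
    rw [← i2 {x, y, z} (by simp [Set.insert_subset_iff, x1, y1, z1]) (card3 x y z a b), if_pos]
    refine ⟨f x z, fun p hp q hq hpq => ?_⟩
    simp only [Finset.mem_insert, Finset.mem_singleton] at hp hq
    rcases hp with rfl | rfl | rfl <;> rcases hq with rfl | rfl | rfl <;>
      first | rfl | assumption | omega
  have mono : ∀ x ∈ G, ∀ y ∈ G, ∀ z ∈ G, x < y → y < z → f x y = f x z ∧ f y z = f x z := by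
    intro x x1 y y1 z z1 a b
    have := i2 {x, y, z} (by simp [Set.insert_subset_iff, x1, y1, z1]) (card3 x y z a b)
    rw [hj] at this
    split_ifs at this with hv
    · obtain ⟨v, hv⟩ := hv
      rw [hv x (by simp) y (by simp) a, hv x (by simp) z (by simp) (a.trans b),
        hv y (by simp) z (by simp) b]
      exact ⟨rfl, rfl⟩
    · exact absurd this (by decide)
  obtain ⟨x, x1⟩ := i1.nonempty
  obtain ⟨y, y1, xy⟩ := i1.exists_gt x
  obtain ⟨a, ha, b, hb, hab, hn⟩ := h3 G (f x y) _ _ (fun m hm => by simp [hm])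
    (fun m hm => by simp [hm]) (fun m => by by_cases h : m ∈ G <;> simp [h]) i3 i1
  obtain ⟨z, z1, hz⟩ := i1.exists_gt (max y b)
  have e1 := (mono x x1 y y1 z z1 xy (by omega)).1
  have e2 := (mono a ha b hb z z1 hab (by omega)).1
  refine hn ?_
  rw [e1, e2]
  rcases lt_trichotomy a x with h | h | h
  · exact (mono a ha x x1 z z1 h (by omega)).2.symm
  · rw [h]
  · exact (mono x x1 a ha z z1 h (by omega)).2

end Pool.Agent.S14416
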