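import Pool.Statements.S14417
import Pool.Agent.H42.Gauge

set_option autoImplicit false
open scoped NNReal ENNReal
open Pool Pool.MP_173f50_lc

namespace Pool.Agent.S14417

/-- The family of sets {gauge functions f (nondecreasing, right-continuous, f(0)=0, positive off 0) with positive f-Hausdorff measure on A}, as A ranges over subsets of the reals, has cardinality 2 to the continuum. -/
theorem result :
    Cardinal.mk
      (Set.range (fun A : Set ℝ =>
        {f : ℝ≥0 → ℝ≥0 |
          Monotone f ∧ f 0 = 0 ∧ (∀ r : ℝ≥0, 0 < r → 0 < f r) ∧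
          (∀ x : ℝ≥0, ContinuousWithinAt f (Set.Ici x) x) ∧
          0 < (MeasureTheory.OuterMeasure.mkMetric
                (fun r : ℝ≥0∞ => ((f r.toNNReal : ℝ≥0) : ℝ≥0∞)) :
                MeasureTheory.OuterMeasure ℝ) A}))
      = 2 ^ Cardinal.continuum := by
  obtain ⟨f, K, hf, hpos, hnull⟩ := Pool.Agent.H42.Gauge.exists_family
  apply le_antisymm
  · refine Cardinal.mk_range_le.trans ?_
    rw [Cardinal.mk_set, Cardinal.mk_real]
  · have h1 : (2 : Cardinal) ^ Cardinal.continuum = Cardinal.mk (Set (ℕ → Bool)) := by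
      rw [Cardinal.mk_set]; simp
    rw [h1]
    refine Cardinal.mk_le_of_injective
      (f := fun S : Set (ℕ → Bool) => ⟨_, ⟨⋃ y ∈ S, K y, rfl⟩⟩) ?_
    have key : ∀ (S : Set (ℕ → Bool)) (x : ℕ → Bool),
        0 < Pool.Agent.H42.Gauge.hm (f x) (⋃ y ∈ S, K y) ↔ x ∈ S := by
      intro S x
      constructor
      · intro h
        by_contra hx
        refine h.ne' (MeasureTheory.measure_mono_null ?_ (hnull x))
        refine Set.biUnion_subset_biUnion_left fun y hy hyx => hx ?_
        rw [← (show y = x from hyx)]; exact hy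
      · intro hx
        exact (hpos x).trans_le (MeasureTheory.measure_mono (Set.subset_biUnion_of_mem hx))
    intro S T hST
    have h2 := congrArg Subtype.val hST
    ext x
    have h3 := Set.ext_iff.1 h2 (f x)
    rw [← key S x, ← key T x]
    exact ⟨fun h => (h3.1 ⟨(hf x).1, (hf x).2.1, (hf x).2.2.1, (hf x).2.2.2, h⟩).2.2.2.2,
      fun h => (h3.2 ⟨(hf x).1, (hf x).2.1, (hf x).2.2.1, (hf x).2.2.2, h⟩).2.2.2.2⟩

end Pool.Agent.S14417
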