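import Pool.Statements.S14438
import Pool.Agent.H37.Hd2

set_option autoImplicit false
open Classical
open Pool Pool.MP_1b0fb5_lc

namespace Pool.Agent.S14438

theorem result :
    ¬ (∀ (R : (ℕ → Bool) → Prop) (E : (ℕ → Bool) → (ℕ → Bool) → Prop)
    (δ H : (ℕ → Bool) → (ℕ → Bool) → ℝ),
    (∀ X : ℕ → Bool, R X ↔ ¬ ∃ f : ℕ → ℕ → Option (List Bool), Computable₂ f ∧
      (∀ n M L : ℕ,
        ((Finset.univ : Finset (Fin L → Bool)).filter (fun τ =>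
          ∃ j < M, ∃ σ : List Bool, f n j = some σ ∧ σ.length ≤ L ∧
            ∀ i : Fin L, (i : ℕ) < σ.length → σ.getD i false = τ i)).card * 2 ^ n ≤ 2 ^ L) ∧
      ∀ n : ℕ, ∃ j : ℕ, ∃ σ : List Bool, f n j = some σ ∧ σ = (List.range σ.length).map X) →
    (∀ X Y : ℕ → Bool, E X Y ↔
      (TuringReducible (fun n => Part.some (X n).toNat) (fun n => Part.some (Y n).toNat) ∧
       TuringReducible (fun n => Part.some (Y n).toNat) (fun n => Part.some (X n).toNat))) →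
    (∀ X Y : ℕ → Bool, δ X Y = Filter.limsup
      (fun n : ℕ => (((Finset.range n).filter (fun i => X i ≠ Y i)).card : ℝ) / (n : ℝ))
      Filter.atTop) →
    (∀ X Y : ℕ → Bool, H X Y = max
      (sSup {r : ℝ | ∃ X' : ℕ → Bool, E X' X ∧ r = sInf {s : ℝ | ∃ Y' : ℕ → Bool, E Y' Y ∧ s = δ X' Y'}})
      (sSup {r : ℝ | ∃ Y' : ℕ → Bool, E Y' Y ∧ r = sInf {s : ℝ | ∃ X' : ℕ → Bool, E X' X ∧ s = δ X' Y'}})) →
    ∀ (m k : ℕ) (a : Fin m → ℕ → Bool) (b : Fin k → ℕ → Bool),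
      (∀ i, R (a i)) → (∀ j, R (b j)) → (∀ i j, ¬ E (a i) (b j)) →
      ∃ c : ℕ → Bool, R c ∧ (∀ i, H (a i) c = 1 / 2) ∧ (∀ j, H (b j) c = 1)) := by
  intro h
  refine H37.Hd.no_ext (fun _ _ => rfl) (h H37.Hd.R1 H37.Hd.EQ H37.Hd.dl
    (fun X Y => max (H37.Hd.ds X Y) (H37.Hd.ds Y X)) (fun _ => Iff.rfl)
    (fun _ _ => (and_congr H37.Hd.tr_iff H37.Hd.tr_iff).symm) (fun _ _ => rfl) fun X Y => ?_)
  simp only [H37.Hd.ds, H37.Hd.dd]
  congr 3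
  ext r
  refine exists_congr fun Z => ?_
  simp only [H37.Hd.dl_comm Z]

end Pool.Agent.S14438
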