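import Pool.Statements.S14501
import Pool.Agent.H28.RT6

set_option autoImplicit false
open Classical
open Pool Pool.MP_2709b3_lc

namespace Pool.Agent.S14501
open Pool.Agent.H28.RT Finset Filter

theorem aux (n k : ℕ) (hk : 0 < k) (h1 : k ^ 10 ≤ n) (h2 : n ≤ (k + 1) ^ 10)
    (P : (Fin n → Fin n → Bool) → Prop)
    (hP : ∀ E, IsT E → P E → Small (16 * k) E ∨ Long k E) (a t : ℕ)
    (ha : a = (univ.filter fun E => IsT E ∧ ¬ P E).card) (ht : t = (univ.filter fun E : Fin n → Fin n → Bool => IsT E).card) :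
    |(a : ℝ) / t - 1| ≤ 70 / k + 2 * Real.exp 1 * (((k : ℝ) + 1) ^ 40 * rho ^ k) := by
  have hn : 0 < n := lt_of_lt_of_le (by positivity) h1
  have hn' : (0 : ℝ) < n := by exact_mod_cast hn
  have hk' : (0 : ℝ) < k := by exact_mod_cast hk
  have b1 := total_ge (⟨0, hn⟩ : Fin n)
  have b2 := card_small (V := Fin n) k hk (by simpa using hn)
  have b3 := card_long (V := Fin n) k
  have b4 := fact_exp n hn
  have r0 := rho_nonneg
  simp only [Fintype.card_fin] at b1 b2 b3
  have c1 : a ≤ t := by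
    rw [ha, ht]; exact card_le_card fun E hE => by simp only [mem_filter] at *; tauto
  have c2 : t ≤ a + ((univ.filter fun E : Fin n → Fin n → Bool => IsT E ∧ Small (16 * k) E).card +
      (univ.filter fun E : Fin n → Fin n → Bool => Long k E).card) := by
    rw [ha, ht]
    refine le_trans (card_le_card fun E hE => ?_)
      ((card_union_le _ _).trans (Nat.add_le_add_left (card_union_le _ _) _))
    have := hP E
    simp only [mem_filter, mem_union, mem_univ, true_and] at *
    tauto
  rw [← ht] at b1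
  generalize (univ.filter fun E : Fin n → Fin n → Bool => IsT E ∧ Small (16 * k) E).card = x at *
  generalize (univ.filter fun E : Fin n → Fin n → Bool => Long k E).card = y at *
  set N : ℝ := (n : ℝ) ^ n * 2 ^ n with hN
  have N0 : 0 < N := by positivity
  have t0 : (0 : ℝ) < t := by
    by_contra h
    have : (t : ℝ) = 0 := le_antisymm (not_lt.1 h) (Nat.cast_nonneg _)
    rw [this] at b1; linarith
  have c1' : (a : ℝ) ≤ t := by exact_mod_cast c1
  have c2' : (t : ℝ) ≤ a + (x + y) := by exact_mod_cast c2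
  have d1 : (k : ℝ) ^ 8 / n ≤ 1 / k := by
    rw [div_le_div_iff₀ hn' hk', one_mul]
    have : k ^ 8 * k ≤ n := le_trans (by rw [← pow_succ]; exact Nat.pow_le_pow_right hk (by omega)) h1
    exact_mod_cast this
  have d2 : (x : ℝ) ≤ 70 / k * t := by
    refine le_of_mul_le_mul_right (b2.trans ?_) (by positivity : (0 : ℝ) < (n : ℝ) ^ 2)
    calc _ ≤ (2 * (n : ℝ) ^ 2 * t) * (1 / k + 34 / k) := by gcongr
      _ = _ := by ring
  have d3 : (y : ℝ) ≤ 2 * Real.exp 1 * (((k : ℝ) + 1) ^ 40 * rho ^ k) * t := by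
    have h2' : (n : ℝ) ≤ ((k : ℝ) + 1) ^ 10 := by exact_mod_cast h2
    calc (y : ℝ) ≤ n * (n.factorial * Real.exp n) * 2 ^ n * rho ^ k := b3.trans_eq (by ring)
      _ ≤ n * (Real.exp 1 * n * (n : ℝ) ^ n) * 2 ^ n * rho ^ k := by gcongr
      _ = Real.exp 1 * (n : ℝ) ^ 2 * N * rho ^ k := by rw [hN]; ring
      _ ≤ Real.exp 1 * (n : ℝ) ^ 2 * (2 * (n : ℝ) ^ 2 * t) * rho ^ k := by gcongr
      _ = 2 * Real.exp 1 * ((n : ℝ) ^ 4 * rho ^ k) * t := by ring
      _ ≤ 2 * Real.exp 1 * ((((k : ℝ) + 1) ^ 10) ^ 4 * rho ^ k) * t := by gcongr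
      _ = _ := by ring
  rw [abs_sub_comm, abs_of_nonneg (by rw [sub_nonneg, div_le_one t0]; exact c1'),
    sub_le_iff_le_add, ← sub_le_iff_le_add', le_div_iff₀ t0]
  linarith

theorem lim : Tendsto (fun k : ℕ => 70 / (k : ℝ) + 2 * Real.exp 1 * (((k : ℝ) + 1) ^ 40 * rho ^ k))
    atTop (nhds 0) := by
  have h1 : Tendsto (fun k : ℕ => 70 / (k : ℝ)) atTop (nhds 0) := tendsto_const_div_atTop_nhds_zero_nat _
  have h2 : Tendsto (fun k : ℕ => ((k : ℝ) + 1) ^ 40 * rho ^ k) atTop (nhds 0) := by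
    have h := (tendsto_pow_const_mul_const_pow_of_abs_lt_one 40
      (r := rho) (by rw [abs_of_nonneg rho_nonneg]; exact rho_lt)).const_mul (2 ^ 40)
    rw [mul_zero] at h
    refine squeeze_zero' (Eventually.of_forall fun k => by have := rho_nonneg; positivity) ?_ h
    filter_upwards [eventually_ge_atTop 1] with k hk
    have : (1 : ℝ) ≤ k := by exact_mod_cast hk
    have r0 := rho_nonneg
    rw [← mul_assoc, ← mul_pow]
    gcongr
    linarith
  simpa using h1.add (h2.const_mul (2 * Real.exp 1))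

/-- Among all oriented trees on vertex set {1..n}, the fraction with no 4-ary Siggers polymorphism tends to 1. By the CSP dichotomy, and assuming P≠NP, no Siggers polymorphism is exactly CSP is NP-hard. -/
theorem result :
    Filter.Tendsto (fun n : ℕ =>
      ((Finset.univ.filter (fun E : Fin n → Fin n → Bool =>
          (∀ a b, ¬ (E a b = true ∧ E b a = true)) ∧
          (SimpleGraph.fromRel (fun a b => E a b = true)).IsTree ∧
          ¬ ∃ s : Fin n → Fin n → Fin n → Fin n → Fin n,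
            (∀ a r e, s a r e a = s r a r e) ∧
            ∀ x₁ x₂ x₃ x₄ y₁ y₂ y₃ y₄ : Fin n,
              E x₁ y₁ = true → E x₂ y₂ = true → E x₃ y₃ = true → E x₄ y₄ = true →
              E (s x₁ x₂ x₃ x₄) (s y₁ y₂ y₃ y₄) = true)).card : ℝ) /
      ((Finset.univ.filter (fun E : Fin n → Fin n → Bool =>
          (∀ a b, ¬ (E a b = true ∧ E b a = true)) ∧
          (SimpleGraph.fromRel (fun a b => E a b = true)).IsTree)).card : ℝ))
      Filter.atTop (nhds 1) := by
  have hk : Tendsto (Nat.nthRoot 10) atTop atTop := by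
    refine tendsto_atTop.2 fun b => ?_
    filter_upwards [eventually_ge_atTop (b ^ 10)] with n hn
    exact (Nat.le_nthRoot_iff (by omega)).2 hn
  rw [tendsto_iff_norm_sub_tendsto_zero]
  refine squeeze_zero' (Eventually.of_forall fun _ => norm_nonneg _) ?_ (lim.comp hk)
  filter_upwards [eventually_ge_atTop 1] with n hn
  refine aux n _ ((Nat.le_nthRoot_iff (a := 1) (by omega)).2 (by simpa using hn))
    (Nat.pow_nthRoot_le_iff.2 (.inl (by omega))) (Nat.lt_pow_nthRoot_add_one (by omega) n).le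
    (fun E => ∃ s : Fin n → Fin n → Fin n → Fin n → Fin n,
            (∀ a r e, s a r e a = s r a r e) ∧ Pool.Agent.H28.RT.Poly (fun x y => E x y = true) s)
    (fun E hE ⟨s, h1, h2⟩ => dichot hE s h1 h2 _) _ _ ?_ ?_
  · congr 1
    ext E
    simp only [mem_filter, IsT, Pool.Agent.H28.RT.Poly, and_assoc]
  · congr 1
    ext E
    simp only [mem_filter, IsT]

end Pool.Agent.S14501
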