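import Pool.Statements.S14509
import Pool.Agent.H41.Color40

set_option autoImplicit false
open Pool Pool.MP_287fcc_lc

namespace Pool.Agent.S14509

/-- Some n>4 admits a coloring of pairs with n−1 colors, all used, no monochromatic triangle, every non-(i,i) color path realized over each i-edge, that no bijection onto a finite field matches with the index-(n−1) coset coloring of differences. -/
theorem result :
  ∃ n : ℕ, 4 < n ∧ ∃ (U : Type) (c : U → U → Fin (n - 1)),
    (∀ x y, c x y = c y x) ∧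
    (∀ i : Fin (n - 1), ∃ x y, x ≠ y ∧ c x y = i) ∧
    (∀ x y z, x ≠ y → y ≠ z → x ≠ z → ¬ (c x y = c y z ∧ c y z = c x z)) ∧
    (∀ x y, x ≠ y → ∀ j k : Fin (n - 1), ¬ (j = c x y ∧ k = c x y) →
        ∃ z, z ≠ x ∧ z ≠ y ∧ c x z = j ∧ c z y = k) ∧
    ¬ ∃ (F : Type) (_ : Field F) (_ : Fintype F) (e : U ≃ F) (H : Subgroup Fˣ),
        H.index = n - 1 ∧
        ∀ x y x' y', x ≠ y → x' ≠ y' →
          (c x y = c x' y' ↔ ∃ h ∈ H, e x - e y = (h : F) * (e x' - e y')) := by
  refine ⟨5, by norm_num, Fin 40, Pool.Agent.H41.Color40.col, Pool.Agent.H41.Color40.col_symm,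
    Pool.Agent.H41.Color40.col_used, Pool.Agent.H41.Color40.col_tri,
    Pool.Agent.H41.Color40.col_wit, ?_⟩
  rintro ⟨F, _, _, e, -⟩
  exact Pool.Agent.H41.Color40.no_field F e

end Pool.Agent.S14509
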