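import Pool.Statements.S14559
import Pool.Agent.H37.Io2

set_option autoImplicit false
open Pool Pool.MP_349b57_lc

namespace Pool.Agent.S14559

theorem result :
    ∀ X : ℕ → Bool,
      (∀ ε : ℝ, 0 < ε → ∃ Y : ℕ → Bool,
        TuringReducible (fun n => Part.some (if Y n then 1 else 0))
          (fun n => Part.some (if X n then 1 else 0)) ∧
        ∀ C : ℕ → Bool, Computable C →
          Filter.liminf
            (fun n : ℕ => ((((Finset.range n).filter (fun k => Y k = C k)).card : ℝ) / (n : ℝ)))
            Filter.atTop ≤ ε) →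
      ∃ Y : ℕ → Bool,
        TuringReducible (fun n => Part.some (if Y n then 1 else 0))
          (fun n => Part.some (if X n then 1 else 0)) ∧
        ∀ C : ℕ → Bool, Computable C →
          Filter.liminf
            (fun n : ℕ => ((((Finset.range n).filter (fun k => Y k = C k)).card : ℝ) / (n : ℝ)))
            Filter.atTop = 0 := by
  intro X h
  have e : ∀ Y : ℕ → Bool, (fun n => Part.some (if Y n then 1 else 0)) =
      fun n => Part.some (Y n).toNat := fun Y => funext fun n => by cases Y n <;> rfl
  simp only [e, H37.Hd.tr_iff] at h ⊢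
  obtain ⟨Y, h1, h2⟩ := h (1 / 128) (by norm_num)
  obtain ⟨Z, h3, h4⟩ := H37.Io.attained h1 fun C hC => h2 C hC.computable
  exact ⟨Z, h3, fun C hC => h4 C (H37.CI.of_comp hC)⟩

end Pool.Agent.S14559
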