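import Pool.Statements.S14608
import Pool.Agent.H39.Mcg

set_option autoImplicit false
open Pool Pool.MP_3c0c60_lc

namespace Pool.Agent.S14608

/-- The negation of the preceding statement: There is a subgroup of the permutations of the naturals that is closed in the pointwise-convergence topology, whose non-identity elements each fix only finitely many points, and which is not properly contained in any other such subgroup. -/
theorem result :
    ¬ (∃ G : Subgroup (Equiv.Perm ℕ),
      (∀ σ : Equiv.Perm ℕ, σ ∉ G →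
        ∃ n : ℕ, ∀ τ : Equiv.Perm ℕ, (∀ i < n, τ i = σ i) → τ ∉ G) ∧
      (∀ g ∈ G, g ≠ 1 → {x : ℕ | g x = x}.Finite) ∧
      (∀ H : Subgroup (Equiv.Perm ℕ), G ≤ H →
        (∀ h ∈ H, h ≠ 1 → {x : ℕ | h x = x}.Finite) → H = G)) := by
  rintro ⟨G, h3, h1, h2⟩
  obtain ⟨k, h4, h5, h6⟩ := Pool.Agent.H39.Mcg.exists_limit (Pool.Agent.H39.Mcg.oligo h1 h2)
  refine h6 (h1 k (by_contra fun hk => ?_) h5)
  obtain ⟨n, hn⟩ := h3 k hk
  obtain ⟨g, hg, e⟩ := h4 (Finset.range n)
  exact hn g (fun i hi => e i (Finset.mem_range.2 hi)) hg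

end Pool.Agent.S14608
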