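import Pool.Statements.S14633
import Pool.Agent.H37.Cosp

set_option autoImplicit false
open Pool Pool.MP_40fdec_lc

namespace Pool.Agent.S14633

theorem result :
    ∀ I : Set (Set ℕ), I.Countable → I.Nonempty →
      (∀ X Y : Set ℕ, X ∈ I →
        TuringReducible (fun n => Part.some (Y.indicator (fun _ => (1 : ℕ)) n))
          (fun n => Part.some (X.indicator (fun _ => (1 : ℕ)) n)) → Y ∈ I) →
      (∀ X Y : Set ℕ, X ∈ I → Y ∈ I →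
        {n : ℕ | (n % 2 = 0 ∧ n / 2 ∈ X) ∨ (n % 2 = 1 ∧ n / 2 ∈ Y)} ∈ I) →
      ∃ f : ℕ → ℕ, ∀ X : Set ℕ, X ∈ I ↔
        ∃ g : ℕ →. ℕ, Partrec g ∧
          ∀ x : ℕ, ((x % 2 = 0 ∧ x / 2 ∈ X) ∨ (x % 2 = 1 ∧ x / 2 ∉ X)) ↔
            ∃ u : ℕ, (g (Nat.pair x u)).Dom ∧
              ∀ y : ℕ, u.testBit y = true → f (Nat.unpair y).1 ≠ (Nat.unpair y).2 := by
  exact Pool.Agent.H37.Cosp.main

end Pool.Agent.S14633
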