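import Pool.Statements.S14645
import Pool.Agent.H39.Epi

set_option autoImplicit false
open Pool Pool.MP_44948e_lc

namespace Pool.Agent.S14645

/-- Every analytic quasi-order on a Polish space is Borel bi-reducible with the epimorphism quasi-order on some isomorphism-invariant Borel set of countable structures in a countable relational language; such sets are exactly the Mod_φ. -/
theorem result :
  ∀ (X : Type) [TopologicalSpace X] [PolishSpace X] [MeasurableSpace X] [BorelSpace X]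
    (R : Set (X × X)),
    MeasureTheory.AnalyticSet R →
    (∀ x, (x, x) ∈ R) →
    (∀ x y z, (x, y) ∈ R → (y, z) ∈ R → (x, z) ∈ R) →
    ∃ (ι : Type) (_ : Countable ι) (arity : ι → ℕ)
      (B : Set ((p : Σ i, Fin (arity i) → ℕ) → Bool)),
      MeasurableSet B ∧
      (∀ σ : Equiv.Perm ℕ, ∀ x ∈ B,
        (fun p : (Σ i, Fin (arity i) → ℕ) => x ⟨p.1, ⇑σ ∘ p.2⟩) ∈ B) ∧
      (∃ f : X → ((p : Σ i, Fin (arity i) → ℕ) → Bool),
        Measurable f ∧ (∀ x, f x ∈ B) ∧
        ∀ x y, (x, y) ∈ R ↔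
          ∃ h : ℕ → ℕ, Function.Surjective h ∧
            ∀ p : (Σ i, Fin (arity i) → ℕ), f y p = f x ⟨p.1, h ∘ p.2⟩) ∧
      (∃ g : B → X, Measurable g ∧
        ∀ u v : B,
          (∃ h : ℕ → ℕ, Function.Surjective h ∧
            ∀ p : (Σ i, Fin (arity i) → ℕ), v.1 p = u.1 ⟨p.1, h ∘ p.2⟩) ↔
          (g u, g v) ∈ R) := by
  intro X _ _ _ _ R hR h1 h2
  obtain ⟨c, φ, h3, h4, h5, h6⟩ := Pool.Agent.H39.Epi.exists_code hR h1
  exact ⟨Option ℕ, inferInstance, fun _ => 2, Pool.Agent.H39.Epi.main R h1 h2 h3 h4 h5 h6⟩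

end Pool.Agent.S14645
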