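import Pool.Statements.S14669
import Pool.Agent.H17.Qp7

set_option autoImplicit false
open Pool Pool.MP_4b55a0_lc

namespace Pool.Agent.S14669

/-- Some algorithm decides, for any morphism f on a finite alphabet and letter a where f(a) starts with a and f^n(a) grows without bound, whether the infinite fixed point f^ω(a) is quasiperiodic, i.e. covered by occurrences of one finite word. -/
theorem result :
    ∃ P : List (List ℕ) × ℕ → Prop, ComputablePred P ∧
      ∀ F : List (List ℕ), ∀ a : ℕ,
        a < F.length →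
        (∀ l ∈ F, ∀ c ∈ l, c < F.length) →
        (F.getD a []).head? = some a →
        (∀ m : ℕ, ∃ n : ℕ,
          m < ((fun L : List ℕ => L.flatMap (fun c => F.getD c []))^[n] [a]).length) →
        (P (F, a) ↔
          ∃ w : ℕ → ℕ,
            (∀ n i : ℕ,
              i < ((fun L : List ℕ => L.flatMap (fun c => F.getD c []))^[n] [a]).length →
              w i = ((fun L : List ℕ => L.flatMap (fun c => F.getD c []))^[n] [a]).getD i 0) ∧
            ∃ x : List ℕ, ∀ i : ℕ, ∃ j : ℕ, j ≤ i ∧ i < j + x.length ∧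
              ∀ t : ℕ, t < x.length → w (j + t) = x.getD t 0) := by
  obtain ⟨P, hP, h⟩ := Pool.Agent.H17.Qp.main
  refine ⟨P, hP, fun F a ha hl hh hu => ?_⟩
  have hd : ∃ s, F.getD a [] = a :: s := by
    cases e : F.getD a [] with
    | nil => rw [e] at hh; simp at hh
    | cons b s =>
      rw [e] at hh
      obtain rfl : b = a := by simpa using hh
      exact ⟨s, rfl⟩
  obtain ⟨w, H⟩ := Pool.Agent.H17.Qp.exists_fx hd hu
  rw [h F a w ha hl H]
  constructor
  · rintro ⟨x, hx⟩
    refine ⟨w, fun n i hi => ?_, x, fun i => ?_⟩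
    · have := Pool.Agent.H17.Qp.occ_iff.1 (H.occ n) i hi
      rwa [zero_add] at this
    · obtain ⟨j, h1, h2, h3⟩ := hx i
      exact ⟨j, h1, h2, Pool.Agent.H17.Qp.occ_iff.1 h3⟩
  · rintro ⟨w', hw, x, hx⟩
    have e : w' = w := by
      funext i
      obtain ⟨n, hn⟩ := hu i
      have := Pool.Agent.H17.Qp.occ_iff.1 (H.occ n) i hn
      rw [zero_add] at this
      rw [this, hw n i hn]; rfl
    subst e
    refine ⟨x, fun i => ?_⟩
    obtain ⟨j, h1, h2, h3⟩ := hx i
    exact ⟨j, h1, h2, Pool.Agent.H17.Qp.occ_iff.2 h3⟩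

end Pool.Agent.S14669
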