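import Pool.Statements.S14696
import Pool.Agent.H66.CfUn

set_option autoImplicit false
open Pool Pool.MP_51f845_lc

namespace Pool.Agent.S14696

/-- The negation of the preceding statement: For every finite alphabet and context-free language L of nonempty words: only finitely many words avoid all factors from L iff for each nonempty word w some power of w has a factor in L. -/
theorem result :
    ¬ (∀ (α : Type) [Fintype α] (L : Language α),
      L.IsContextFree →
      (∀ v ∈ L, v ≠ []) →
      ({u : List α | ¬ ∃ v ∈ L, v <:+: u}.Finite ↔
        ∀ w : List α, w ≠ [] →
          ∃ n : ℕ, ∃ v ∈ L, v <:+: (List.replicate n w).flatten)) := by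
  exact Pool.Agent.H66.CfUn.main

end Pool.Agent.S14696
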