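import Pool.Statements.S14725
import Pool.Agent.H73.AutEq5

set_option autoImplicit false
open Pool Pool.MP_56bf04_lc

namespace Pool.Agent.S14725

/-- Isomorphism of automatic equivalence relations, on an effective indexing of automata presentations with invalid codes forming one class, is a Π⁰₁ relation, and every Π⁰₁ equivalence relation on ℕ computably reduces to it. -/
theorem result :
  ∀ (Dom : (Finset (ℕ × ℕ × ℕ) × ℕ × Finset ℕ) × (Finset (ℕ × (Option ℕ × Option ℕ) × ℕ) × ℕ × Finset ℕ) → Set (List ℕ))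
    (Rel : (Finset (ℕ × ℕ × ℕ) × ℕ × Finset ℕ) × (Finset (ℕ × (Option ℕ × Option ℕ) × ℕ) × ℕ × Finset ℕ) → List ℕ → List ℕ → Prop)
    (Good : (Finset (ℕ × ℕ × ℕ) × ℕ × Finset ℕ) × (Finset (ℕ × (Option ℕ × Option ℕ) × ℕ) × ℕ × Finset ℕ) → Prop)
    (E : ℕ → ℕ → Prop),
  (∀ p w, w ∈ Dom p ↔
      w ∈ (⟨fun q a => {q' | (q, a, q') ∈ p.1.1}, {p.1.2.1}, (p.1.2.2 : Set ℕ)⟩ : NFA ℕ ℕ).accepts) →
  (∀ p (u v : List ℕ), Rel p u v ↔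
      (List.map (fun i => (u[i]?, v[i]?)) (List.range (max u.length v.length))) ∈
        (⟨fun q a => {q' | (q, a, q') ∈ p.2.1}, {p.2.2.1}, (p.2.2.2 : Set ℕ)⟩ :
          NFA (Option ℕ × Option ℕ) ℕ).accepts) →
  (∀ p, Good p ↔
      ((∀ u ∈ Dom p, Rel p u u) ∧
       (∀ u ∈ Dom p, ∀ v ∈ Dom p, Rel p u v → Rel p v u) ∧
       (∀ u ∈ Dom p, ∀ v ∈ Dom p, ∀ w ∈ Dom p, Rel p u v → Rel p v w → Rel p u w))) →
  (∀ n m : ℕ, E n m ↔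
      (((¬ ∃ p : (Finset (ℕ × ℕ × ℕ) × ℕ × Finset ℕ) × (Finset (ℕ × (Option ℕ × Option ℕ) × ℕ) × ℕ × Finset ℕ),
            Encodable.decode n = some p ∧ Good p) ∧
        (¬ ∃ q : (Finset (ℕ × ℕ × ℕ) × ℕ × Finset ℕ) × (Finset (ℕ × (Option ℕ × Option ℕ) × ℕ) × ℕ × Finset ℕ),
            Encodable.decode m = some q ∧ Good q)) ∨
       ∃ p q : (Finset (ℕ × ℕ × ℕ) × ℕ × Finset ℕ) × (Finset (ℕ × (Option ℕ × Option ℕ) × ℕ) × ℕ × Finset ℕ),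
         Encodable.decode n = some p ∧ Encodable.decode m = some q ∧ Good p ∧ Good q ∧
         ∃ f : List ℕ → List ℕ, Set.BijOn f (Dom p) (Dom q) ∧
           ∀ u ∈ Dom p, ∀ v ∈ Dom p, (Rel p u v ↔ Rel q (f u) (f v)))) →
  (∃ P : ℕ × ℕ × ℕ → Prop, ComputablePred P ∧ ∀ x y, E x y ↔ ∀ t, P (x, y, t)) ∧
  ∀ R : ℕ → ℕ → Prop, Equivalence R →
    (∃ P : ℕ × ℕ × ℕ → Prop, ComputablePred P ∧ ∀ x y, R x y ↔ ∀ t, P (x, y, t)) →
    ∃ f : ℕ → ℕ, Computable f ∧ ∀ x y, R x y ↔ E (f x) (f y) :=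
  Pool.Agent.H73.AutEq.main

end Pool.Agent.S14725
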