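import Pool.Statements.S14778
import Pool.Agent.H30.DkB

set_option autoImplicit false
open Pool Pool.MP_5fb53e_lc

namespace Pool.Agent.S14778

/-- The negation of the preceding statement: There is a fixed k such that every disk graph is identified up to isomorphism by k-variable counting logic: any finite graph on which Duplicator wins the bijective k-pebble game against it is isomorphic to it. -/
theorem result :
    ¬ (∃ k : ℕ, ∀ (n : ℕ) (G : SimpleGraph (Fin n)),
      (∃ c : Fin n → EuclideanSpace ℝ (Fin 2), ∃ r : Fin n → ℝ,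
          (∀ i, 0 < r i) ∧
          ∀ i j, i ≠ j → (G.Adj i j ↔ dist (c i) (c j) ≤ r i + r j)) →
      ∀ (m : ℕ) (H : SimpleGraph (Fin m)),
        (∃ P : Set ((Fin k → Fin n) × (Fin k → Fin m)),
          (∀ p ∈ P, ∀ i j : Fin k,
              (p.1 i = p.1 j ↔ p.2 i = p.2 j) ∧
              (G.Adj (p.1 i) (p.1 j) ↔ H.Adj (p.2 i) (p.2 j))) ∧
          (∀ p ∈ P, ∀ i : Fin k, ∃ f : Fin n ≃ Fin m, ∀ v : Fin n,
              (Function.update p.1 i v, Function.update p.2 i (f v)) ∈ P) ∧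
          (∃ f : Fin n ≃ Fin m, ∀ v : Fin n,
              ((fun _ : Fin k => v), (fun _ : Fin k => f v)) ∈ P)) →
        Nonempty (G ≃g H)) := by
  open Pool.Agent.H30.Dk in
  rintro ⟨k, hk⟩
  let N := k + 2
  let e0 := Finite.equivFin (V N 0)
  let e1 := Finite.equivFin (V N (dl 0))
  have hV : ∀ v : V N 0, Val v.1.1.2.2.2 v.1.2 := fun v =>
    ⟨fun p hp => v.2.2.2.1 p fun h => hp h.1, v.2.2.2.2⟩
  have hr : ∀ v : V N 0, 0 < rd v.1.1.2.2.2 := fun v =>
    (bound _ _ _ _ (by have := hV v; rwa [eta v.1.2] at this)).1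
  let px : Rw → ℤ := fun v => v.1.1 * 346410089922338610 + v.1.2.1 * 173205078447486648 +
    ib v.1.2.2.1 * 173205078447486648 + cx v.1.2.2.2 v.2
  let py : Rw → ℤ := fun v => v.1.2.1 * 299998960000000000 + ib v.1.2.2.1 * 100000000000000000 +
    cy v.1.2.2.2 v.2
  have S0 : Sh N 0 0 := ⟨by omega, fun _ _ => rfl, fun c => by rw [z2]; simp [bd]⟩
  obtain ⟨φ⟩ := hk _ ((G N 0).comap e0.symm) ⟨fun i => !₂[(px (e0.symm i).1 : ℝ), py (e0.symm i).1],
    fun i => rd (e0.symm i).1.1.2.2.2, fun i => Int.cast_pos.2 (hr _), fun i j hij => by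
      have h1 := hr (e0.symm i)
      have h2 := hr (e0.symm j)
      have key : ∀ a b c d r s : ℤ, ((a : ℝ) - b) ^ 2 + ((c : ℝ) - d) ^ 2 ≤ ((r : ℝ) + s) ^ 2 ↔
          (a - b) ^ 2 + (c - d) ^ 2 ≤ (r + s) ^ 2 := fun _ _ _ _ _ _ => by norm_cast
      rw [EuclideanSpace.dist_eq, Real.sqrt_le_left (add_pos (Int.cast_pos.2 h1)
        (Int.cast_pos.2 h2)).le,
        Fin.sum_univ_two, Real.dist_eq, Real.dist_eq, sq_abs, sq_abs]
      refine (and_iff_right (e0.symm.injective.ne hij)).trans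
        ((geo_iff _ _ _ _ (hV _) (hV _)).symm.trans ?_)
      simp only [Matrix.cons_val_zero, Matrix.cons_val_one, key]
      simp only [geo, px, py]
      exact iff_of_eq (congrArg (· ≤ _) (by ring))⟩ _ ((G N (dl 0)).comap e1.symm)
    ⟨{p | ∃ s y, Sh N s y ∧ ∀ i, (e0.symm (p.1 i)).1.1.2.1 ≠ y ∧
      (e1.symm (p.2 i)).1 = sh s (e0.symm (p.1 i)).1}, by
      rintro p ⟨s, y, -, h⟩ i j
      have a : p.1 i = p.1 j ↔ p.2 i = p.2 j := by
        rw [← e0.symm.injective.eq_iff, ← e1.symm.injective.eq_iff, Subtype.ext_iff,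
          Subtype.ext_iff, (h i).2, (h j).2]
        exact (Function.LeftInverse.injective (sh_sh s)).eq_iff.symm
      refine ⟨a, and_congr ?_ ?_⟩
      · rw [e0.symm.injective.ne_iff, e1.symm.injective.ne_iff]
        exact a.not
      · rw [(h i).2, (h j).2, D_sh], by
      rintro p ⟨s, y, hs, h⟩ i
      obtain ⟨f, hf⟩ := move (by omega) hs (fun j => (e0.symm (p.1 j)).1) fun j => (h j).1
      refine ⟨e0.symm.trans (f.trans e1), fun v => ?_⟩
      obtain ⟨s', y', h1, h2, h3, h4⟩ := hf (e0.symm v)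
      refine ⟨s', y', h1, fun j => ?_⟩
      by_cases e : j = i
      · subst e
        simpa [h2] using h3
      · simp only [Function.update_of_ne e]
        exact ⟨(h4 j).1, (h j).2.trans (h4 j).2.symm⟩, by
      obtain ⟨f, hf⟩ := move (k := 0) (by omega) S0 Fin.elim0 fun j => j.elim0
      refine ⟨e0.symm.trans (f.trans e1), fun v => ?_⟩
      obtain ⟨s', y', h1, h2, h3, -⟩ := hf (e0.symm v)
      exact ⟨s', y', h1, fun _ => ⟨h2, by simpa using h3⟩⟩⟩
  exact (not_iso (N := N) (by omega)).false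
    ⟨e0.trans (φ.toEquiv.trans e1.symm), fun {a b} => by
      have := φ.map_adj_iff (v := e0 a) (w := e0 b)
      simpa using this⟩

end Pool.Agent.S14778
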