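import Pool.Statements.S14808
import Pool.Agent.H83.Gc2

set_option autoImplicit false
open Pool Pool.MP_64ff70_lc

namespace Pool.Agent.S14808

/-- The negation of the preceding statement: There is a point of the Hilbert cube whose set of coded rational lower and upper cuts is not enumeration-equivalent to the complement of the graph of any total function ℕ→ℕ, i.e. some continuous e-degree is not graph-cototal. -/
theorem result :
    ¬ (∃ x : ℕ → ℝ, (∀ n, x n ∈ Set.Icc (0:ℝ) 1) ∧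
      ∀ f : ℕ → ℕ, ∀ R : Set ℕ → Set ℕ → Prop,
        (∀ A B : Set ℕ, R A B ↔
          ∃ W : ℕ × ℕ → Prop, REPred W ∧
            ∀ y : ℕ, y ∈ A ↔ ∃ u : ℕ, W (y, u) ∧ ∀ i : ℕ, u.testBit i = true → i ∈ B) →
        ¬ (R {k : ℕ | ∃ n a b c : ℕ,
                (k = 2 * Nat.pair n (Nat.pair (Nat.pair a b) c) ∧
                  ((a:ℝ) - (b:ℝ)) / ((c:ℝ) + 1) < x n) ∨
                (k = 2 * Nat.pair n (Nat.pair (Nat.pair a b) c) + 1 ∧
                  x n < ((a:ℝ) - (b:ℝ)) / ((c:ℝ) + 1))}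
             {k : ℕ | f (Nat.unpair k).1 ≠ (Nat.unpair k).2} ∧
           R {k : ℕ | f (Nat.unpair k).1 ≠ (Nat.unpair k).2}
             {k : ℕ | ∃ n a b c : ℕ,
                (k = 2 * Nat.pair n (Nat.pair (Nat.pair a b) c) ∧
                  ((a:ℝ) - (b:ℝ)) / ((c:ℝ) + 1) < x n) ∨
                (k = 2 * Nat.pair n (Nat.pair (Nat.pair a b) c) + 1 ∧
                  x n < ((a:ℝ) - (b:ℝ)) / ((c:ℝ) + 1))})) := by
  rintro ⟨x, -, hx⟩
  set A : Set ℕ := {k : ℕ | ∃ n a b c : ℕ,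
    (k = 2 * Nat.pair n (Nat.pair (Nat.pair a b) c) ∧ ((a:ℝ) - (b:ℝ)) / ((c:ℝ) + 1) < x n) ∨
    (k = 2 * Nat.pair n (Nat.pair (Nat.pair a b) c) + 1 ∧ x n < ((a:ℝ) - (b:ℝ)) / ((c:ℝ) + 1))}
    with hA
  have inj : ∀ n a b c n' a' b' c' : ℕ, Nat.pair n (Nat.pair (Nat.pair a b) c) =
      Nat.pair n' (Nat.pair (Nat.pair a' b') c') → n = n' ∧ a = a' ∧ b = b' ∧ c = c' := by
    intro n a b c n' a' b' c' h
    simpa [Nat.pair_eq_pair, and_assoc] using h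
  have m0 : ∀ n a b c : ℕ, 2 * Nat.pair n (Nat.pair (Nat.pair a b) c) ∈ A ↔
      ((a:ℝ) - (b:ℝ)) / ((c:ℝ) + 1) < x n := by
    refine fun n a b c => ⟨?_, fun h => ⟨n, a, b, c, Or.inl ⟨rfl, h⟩⟩⟩
    rintro ⟨n', a', b', c', ⟨h, k⟩ | ⟨h, k⟩⟩
    · obtain ⟨rfl, rfl, rfl, rfl⟩ := inj n a b c n' a' b' c' (by omega)
      exact k
    · omega
  have m1 : ∀ n a b c : ℕ, 2 * Nat.pair n (Nat.pair (Nat.pair a b) c) + 1 ∈ A ↔
      x n < ((a:ℝ) - (b:ℝ)) / ((c:ℝ) + 1) := by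
    refine fun n a b c => ⟨?_, fun h => ⟨n, a, b, c, Or.inr ⟨rfl, h⟩⟩⟩
    rintro ⟨n', a', b', c', ⟨h, k⟩ | ⟨h, k⟩⟩
    · omega
    · obtain ⟨rfl, rfl, rfl, rfl⟩ := inj n a b c n' a' b' c' (by omega)
      exact k
  have dec : ∀ k : ℕ, ∃ n a b c : ℕ, k = 2 * Nat.pair n (Nat.pair (Nat.pair a b) c) ∨
      k = 2 * Nat.pair n (Nat.pair (Nat.pair a b) c) + 1 := fun k =>
    ⟨(k / 2).unpair.1, (k / 2).unpair.2.unpair.1.unpair.1, (k / 2).unpair.2.unpair.1.unpair.2,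
      (k / 2).unpair.2.unpair.2, by simp only [Nat.pair_unpair]; omega⟩
  let r : ℕ → ℝ := fun m => ((m.unpair.2.unpair.1.unpair.1 : ℝ) - m.unpair.2.unpair.1.unpair.2) /
    ((m.unpair.2.unpair.2 : ℝ) + 1)
  let y : ℕ → ℝ := fun k => if k % 2 = 0 then x (k / 2).unpair.1 - r (k / 2)
    else r (k / 2) - x (k / 2).unpair.1
  let up : ℕ → ℕ → ℕ → ℕ := fun k j N => Nat.pair (k / 2).unpair.1 (Nat.pair (Nat.pair
    ((k / 2).unpair.2.unpair.1.unpair.1 * 2 ^ N + (1 - k % 2) * j * ((k / 2).unpair.2.unpair.2 + 1))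
    ((k / 2).unpair.2.unpair.1.unpair.2 * 2 ^ N + k % 2 * j * ((k / 2).unpair.2.unpair.2 + 1)))
    (((k / 2).unpair.2.unpair.2 + 1) * 2 ^ N - 1))
  have den : ∀ c N : ℕ, (((c + 1) * 2 ^ N - 1 : ℕ) : ℝ) + 1 = (c + 1) * 2 ^ N := fun c N => by
    rw [Nat.cast_sub (Nat.one_le_iff_ne_zero.2 (by positivity))]
    push_cast
    ring
  have e0 : ∀ a b c j N : ℕ, (((a * 2 ^ N + 1 * j * (c + 1) : ℕ) : ℝ) -
      (b * 2 ^ N + 0 * j * (c + 1) : ℕ)) / ((((c + 1) * 2 ^ N - 1 : ℕ) : ℝ) + 1) =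
      ((a : ℝ) - b) / (c + 1) + j / 2 ^ N := fun a b c j N => by
    rw [den]
    push_cast
    field_simp
    ring
  have e1 : ∀ a b c j N : ℕ, (((a * 2 ^ N + 0 * j * (c + 1) : ℕ) : ℝ) -
      (b * 2 ^ N + 1 * j * (c + 1) : ℕ)) / ((((c + 1) * 2 ^ N - 1 : ℕ) : ℝ) + 1) =
      ((a : ℝ) - b) / (c + 1) - j / 2 ^ N := fun a b c j N => by
    rw [den]
    push_cast
    field_simp
    ring
  have q0 : ∀ m : ℕ, 2 * m % 2 = 0 ∧ 2 * m / 2 = m ∧ (2 * m + 1) % 2 = 1 ∧ (2 * m + 1) / 2 = m :=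
    fun m => by omega
  obtain ⟨f, hf, W, hW, hW'⟩ := H83.Gc.main (A := A) (y := y)
    (cgt := fun k j N => 2 * up k j N + k % 2) (clt := fun k j N => 2 * up k j N + (1 - k % 2))
    (fun k => by
      obtain ⟨n, a, b, c, rfl | rfl⟩ := dec k
      · simp [m0, y, r, q0]
      · simp [m1, y, r, q0])
    (fun k j N => by
      obtain ⟨n, a, b, c, rfl | rfl⟩ := dec k
      · simp only [up, y, r, q0, Nat.unpair_pair, add_zero, Nat.sub_zero, m0, e0, if_true]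
        rw [← lt_sub_iff_add_lt', div_lt_iff₀' (by positivity)]
      · simp only [up, y, r, q0, Nat.unpair_pair, Nat.sub_self, m1, e1, one_ne_zero, if_false]
        rw [lt_sub_comm, div_lt_iff₀' (by positivity)])
    (fun k j N => by
      obtain ⟨n, a, b, c, rfl | rfl⟩ := dec k
      · simp only [up, y, r, q0, Nat.unpair_pair, Nat.sub_zero, m1, e0, if_true]
        rw [← sub_lt_iff_lt_add', lt_div_iff₀' (by positivity)]
      · simp only [up, y, r, q0, Nat.unpair_pair, Nat.sub_self, add_zero, m0, e1, one_ne_zero,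
          if_false]
        rw [sub_lt_comm, lt_div_iff₀' (by positivity)])
    (by simp only [up]; fun_prop) (by simp only [up]; fun_prop)
  refine hx f _ (fun _ _ => Iff.rfl) ⟨⟨fun q => (q.2 == 2 ^ Nat.pair q.1 0) = true,
    H37.re_of_bool _ (by fun_prop) fun _ => Iff.rfl, fun a => ?_⟩, W, hW, hW'⟩
  simp [hf, Nat.testBit_two_pow]

end Pool.Agent.S14808
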