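import Pool.Statements.S14813
import Pool.Agent.H66.Card3

set_option autoImplicit false
open Pool Pool.MP_655bfb_lc

namespace Pool.Agent.S14813

/-- For any finite alphabet, language A and n ≥ 1: if some finite automaton reading n words synchronously (blank-padded) always outputs a set of at most n numbers containing how many distinct input words lie in A, then A is regular. -/
theorem result :
    ∀ (α : Type) [Fintype α] (A : Language α) (n : ℕ), 1 ≤ n →
      (∃ (k : ℕ) (step : Fin k → (Fin n → Option α) → Fin k) (start : Fin k)
          (out : Fin k → Finset ℕ),
        (∀ q, (out q).card ≤ n) ∧
        ∀ w : Fin n → List α,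
          ({x : List α | ∃ j, w j = x ∧ x ∈ A}).ncard ∈
            out (List.foldl step start
              ((List.range (Finset.univ.sup fun j => (w j).length)).map
                fun i j => (w j)[i]?))) →
      ∃ (k : ℕ) (M : DFA α (Fin k)), M.accepts = A := by
  rintro α _ A n - ⟨k, step, start, out, h1, h2⟩
  exact Pool.Agent.H66.Card.regular_of (step := step) (q := start) (out := out) A h1 h2

end Pool.Agent.S14813
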