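import Pool.Statements.S14852
import Pool.Agent.H66.Max4

set_option autoImplicit false
open Pool Pool.MP_6aa20f_lc

namespace Pool.Agent.S14852

/-- The negation of the preceding statement: For every countable M, every proper subgroup of Sym(M) that is closed in the pointwise topology lies in some closed proper subgroup F such that no closed subgroup sits strictly between F and Sym(M). -/
theorem result :
    ¬ (∀ (M : Type) [Countable M] (G : Subgroup (Equiv.Perm M)),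
      (∀ σ : Equiv.Perm M,
        (∀ A : Finset M, ∃ g ∈ G, ∀ a ∈ A, g a = σ a) → σ ∈ G) →
      G ≠ ⊤ →
      ∃ F : Subgroup (Equiv.Perm M),
        (∀ σ : Equiv.Perm M,
          (∀ A : Finset M, ∃ g ∈ F, ∀ a ∈ A, g a = σ a) → σ ∈ F) ∧
        G ≤ F ∧ F ≠ ⊤ ∧
        ∀ F' : Subgroup (Equiv.Perm M),
          (∀ σ : Equiv.Perm M,
            (∀ A : Finset M, ∃ g ∈ F', ∀ a ∈ A, g a = σ a) → σ ∈ F') →
          F ≤ F' → F' = F ∨ F' = ⊤) := by
  intro h
  obtain ⟨M, g⟩ := Pool.Agent.H66.Max.exists_gen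
  have up : ∀ m, Pool.Agent.H66.Max.Aut M ≤ Pool.Agent.H66.Max.P M m := fun m e he =>
    Pool.Agent.H66.Max.mem_P.2 fun s _ => he s
  have ne : ∀ m, 4 ≤ m → Pool.Agent.H66.Max.P M m ≠ ⊤ := fun m hm e => by
    obtain ⟨f, -, hf⟩ := g.P_lt hm
    exact hf (e ▸ Subgroup.mem_top f)
  obtain ⟨F, h1, h2, h3, h4⟩ := h ℕ (Pool.Agent.H66.Max.Aut M)
    (Pool.Agent.H66.Max.Aut.closed g.2.1) fun e => ne 4 le_rfl (top_le_iff.1 (e ▸ up 4))
  refine h3 (top_le_iff.1 fun σ _ => h1 σ (g.main F h2 (fun m hm hF => ?_) σ))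
  rcases h4 (Pool.Agent.H66.Max.P M (m + 1))
    (Pool.Agent.H66.Max.Aut.closed fun s hs => g.2.1 s hs.1) (hF.trans (g.P_le hm)) with e | e
  · obtain ⟨f, f1, f2⟩ := g.P_lt hm
    exact f2 (hF (e ▸ f1))
  · exact ne (m + 1) (by omega) e

end Pool.Agent.S14852
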