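import Pool.Statements.S14881
import Pool.Agent.H37.Bp3

set_option autoImplicit false
open Pool Pool.MP_70d3c3_lc

namespace Pool.Agent.S14881

theorem result :
  ∀ t : ℕ → ℕ, t 0 = 2 → (∀ i : ℕ, t (i + 1) = t i * (t i - 1) + 1) →
  ∃ A : List ℝ → ℝ → ℕ,
    (∀ L : List ℝ, (∀ y ∈ L, 0 < y ∧ y ≤ 1) → ∀ b : ℕ,
      ∑ i ∈ (Finset.univ : Finset (Fin L.length)).filter
          (fun i : Fin L.length => A (L.take (i : ℕ)) (L.get i) = b),
        L.get i ≤ 1) ∧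
    (∃ k : ℕ, ∀ p : List ℝ, (∀ y ∈ p, 0 < y ∧ y ≤ 1) →
      Set.ncard {b : ℕ | (∃ i : Fin p.length, A (p.take (i : ℕ)) (p.get i) = b) ∧
        ∃ q : List ℝ, ∃ x : ℝ, (∀ y ∈ q, 0 < y ∧ y ≤ 1) ∧ 0 < x ∧ x ≤ 1 ∧
          A (p ++ q) x = b} ≤ k) ∧
    (∀ ε : ℝ, 0 < ε → ∃ N : ℕ, ∀ L : List ℝ, (∀ y ∈ L, 0 < y ∧ y ≤ 1) →
      N ≤ sInf {m : ℕ | ∃ f : Fin L.length → Fin m, ∀ j : Fin m,
        ∑ i ∈ (Finset.univ : Finset (Fin L.length)).filter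
            (fun i : Fin L.length => f i = j), L.get i ≤ 1} →
      (((Finset.univ : Finset (Fin L.length)).image
          (fun i : Fin L.length => A (L.take (i : ℕ)) (L.get i))).card : ℝ) ≤
        (∑' i : ℕ, 1 / ((t i : ℝ) - 1) + ε) *
          ((sInf {m : ℕ | ∃ f : Fin L.length → Fin m, ∀ j : Fin m,
            ∑ i ∈ (Finset.univ : Finset (Fin L.length)).filter
                (fun i : Fin L.length => f i = j), L.get i ≤ 1} : ℕ) : ℝ)) ∧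
    (∀ ε : ℝ, 0 < ε → ∀ N : ℕ, ∃ L : List ℝ, (∀ y ∈ L, 0 < y ∧ y ≤ 1) ∧
      N ≤ sInf {m : ℕ | ∃ f : Fin L.length → Fin m, ∀ j : Fin m,
        ∑ i ∈ (Finset.univ : Finset (Fin L.length)).filter
            (fun i : Fin L.length => f i = j), L.get i ≤ 1} ∧
      (∑' i : ℕ, 1 / ((t i : ℝ) - 1) - ε) *
          ((sInf {m : ℕ | ∃ f : Fin L.length → Fin m, ∀ j : Fin m,
            ∑ i ∈ (Finset.univ : Finset (Fin L.length)).filter
                (fun i : Fin L.length => f i = j), L.get i ≤ 1} : ℕ) : ℝ) ≤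
        (((Finset.univ : Finset (Fin L.length)).image
          (fun i : Fin L.length => A (L.take (i : ℕ)) (L.get i))).card : ℝ)) := by
  intro t t0 t1
  have ht : ∀ i, t i = H37.Bp.ts i := fun i => by
    induction i with
    | zero => exact t0
    | succ i ih => rw [t1, ih]; rfl
  have hh : ∑' i : ℕ, 1 / ((t i : ℝ) - 1) = ∑' i, H37.Bp.s i := by simp only [ht]; rfl
  rw [hh]
  obtain ⟨A, h1, h2, h3⟩ := H37.Bp.algo
  refine ⟨A, h1, ⟨45, h2⟩, fun ε hε => ?_, fun ε hε N => ?_⟩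
  · obtain ⟨N, hN⟩ := exists_nat_ge (81 / ε)
    refine ⟨N, fun L hv hL => (h3 L hv).trans ?_⟩
    have a1 := H37.Bp.W_opt L hv
    have a2 : (N : ℝ) ≤ (sInf (H37.Bp.Feas L) : ℕ) := Nat.cast_le.mpr hL
    rw [div_le_iff₀ hε] at hN
    change _ ≤ _ * ((sInf (H37.Bp.Feas L) : ℕ) : ℝ)
    nlinarith
  · have hs := H37.Bp.s_summ.hasSum.tendsto_sum_nat
    obtain ⟨r, hr, r0⟩ := ((hs.eventually (lt_mem_nhds
      (show ∑' i, H37.Bp.s i - ε / 2 < ∑' i, H37.Bp.s i by linarith))).and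
        (Filter.eventually_gt_atTop 0)).exists
    obtain ⟨M, hM⟩ := exists_nat_ge (r * 45 / (ε / 2))
    obtain ⟨L, hv, e, hL⟩ := H37.Bp.lower A 45 h1 h2 r (N + M + 1) r0 (by omega)
    refine ⟨L, hv, ?_, le_trans ?_ hL⟩
    · change N ≤ sInf (H37.Bp.Feas L)
      omega
    · change _ * ((sInf (H37.Bp.Feas L) : ℕ) : ℝ) ≤ _
      rw [e]
      rw [div_le_iff₀ (by positivity)] at hM
      have a1 : (M : ℝ) ≤ ((N + M + 1 : ℕ) : ℝ) := Nat.cast_le.mpr (by omega)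
      have a2 : (0 : ℝ) ≤ ((N + M + 1 : ℕ) : ℝ) := Nat.cast_nonneg _
      push_cast at hM ⊢ a1 a2
      nlinarith

end Pool.Agent.S14881
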