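import Pool.Statements.S14895

set_option autoImplicit false
open Pool Pool.MP_735cdd_lc

namespace Pool.Agent.S14895

/-- Every torsion-free group that is free in its own variety on an infinite basis fails ℵ1-homogeneity: some countable tuples a, b share a type, yet some element c has no d making (c,a) and (d,b) share a type. -/
theorem result :
  ∀ (G : Type) [Group G],
    (∀ g : G, ∀ n : ℕ, 0 < n → g ^ n = 1 → g = 1) →
    (∃ X : Set G, X.Infinite ∧ Subgroup.closure X = ⊤ ∧
      ∀ f : X → G, ∃ φ : G →* G, ∀ x : X, φ x = f x) →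
    ∀ [S : (FirstOrder.Language.mk (fun _ => Unit) (fun _ => Empty)).Structure G],
      (∀ (n : ℕ) (f : (FirstOrder.Language.mk (fun _ => Unit) (fun _ => Empty)).Functions n)
          (xs : Fin n → G),
        FirstOrder.Language.Structure.funMap f xs = (List.ofFn xs).prod) →
      ¬ ∀ a b : ℕ → G,
        (∀ φ : (FirstOrder.Language.mk (fun _ => Unit) (fun _ => Empty)).Formula ℕ,
          φ.Realize a ↔ φ.Realize b) →
        ∀ c : G, ∃ d : G,
          ∀ ψ : (FirstOrder.Language.mk (fun _ => Unit) (fun _ => Empty)).Formula (Unit ⊕ ℕ),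
            ψ.Realize (Sum.elim (fun _ => c) a) ↔ ψ.Realize (Sum.elim (fun _ => d) b) := by
  classical
  rintro G _ htf ⟨X, hinf, hcl, hext⟩ S hS hhom
  let x : ℕ ↪ X := hinf.natEmbedding X
  have huniq : ∀ φ ψ : G →* G, (∀ z : X, φ z = ψ z) → φ = ψ := fun φ ψ h =>
    MonoidHom.eq_of_eqOn_dense hcl (fun z hz => h ⟨z, hz⟩)
  have hne : ∀ i j, i ≠ j → x i ≠ x j := fun i j h e => h (x.injective e)
  have htrans : ∀ n : ℕ, ∃ e : G ≃* G, e (x n) = x n * (x (n + 1) * x (n + 1)) ∧
      ∀ m, m ≠ n → e (x m) = x m := by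
    intro n
    obtain ⟨φ, hφ⟩ := hext (fun z => if z = x n then (x n : G) * (x (n + 1) * x (n + 1)) else z)
    obtain ⟨ψ, hψ⟩ := hext (fun z => if z = x n then (x n : G) * ((x (n + 1) : G) * x (n + 1))⁻¹ else z)
    have h1 : φ (x (n + 1)) = x (n + 1) := by rw [hφ, if_neg (hne _ _ (by omega))]
    have h2 : ψ (x (n + 1)) = x (n + 1) := by rw [hψ, if_neg (hne _ _ (by omega))]
    have h3 : φ (x n) = x n * (x (n + 1) * x (n + 1)) := by rw [hφ, if_pos rfl]
    have h4 : ψ (x n) = x n * ((x (n + 1) : G) * x (n + 1))⁻¹ := by rw [hψ, if_pos rfl]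
    refine ⟨MonoidHom.toMulEquiv φ ψ (huniq _ _ ?_) (huniq _ _ ?_), h3, ?_⟩
    · intro z
      by_cases hz : z = x n
      · subst hz
        simp [h2, h3, h4, mul_assoc]
      · simp [hφ, hψ, hz]
    · intro z
      by_cases hz : z = x n
      · subst hz
        simp [h1, h3, h4, mul_assoc]
      · simp [hφ, hψ, hz]
    · intro m hm
      show φ (x m) = x m
      rw [hφ, if_neg (hne _ _ hm)]
  have hsig : ∀ N : ℕ, ∃ σ : G ≃* G, (∀ n < N, σ (x n) = x n * (x (n + 1) * x (n + 1))) ∧
      ∀ m, N ≤ m → σ (x m) = x m := by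
    intro N
    induction N with
    | zero => exact ⟨MulEquiv.refl G, by simp, by simp⟩
    | succ N ih =>
      obtain ⟨σ, h1, h2⟩ := ih
      obtain ⟨e, h3, h4⟩ := htrans N
      refine ⟨e.trans σ, ?_, ?_⟩
      · intro n hn
        rcases Nat.lt_succ_iff_lt_or_eq.1 hn with h | rfl
        · rw [MulEquiv.trans_apply, h4 n (by omega), h1 n h]
        · rw [MulEquiv.trans_apply, h3, map_mul, map_mul, h2 n le_rfl, h2 (n + 1) (by omega)]
      · intro m hm
        rw [MulEquiv.trans_apply, h4 m (by omega), h2 m (by omega)]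
  obtain ⟨d, hd⟩ := hhom (fun n => (x n : G) * (x (n + 1) * x (n + 1))) (fun n => x n) (by
    intro φ
    obtain ⟨σ, h1, -⟩ := hsig (φ.freeVarFinset.sup id + 1)
    let σ' : FirstOrder.Language.Equiv (FirstOrder.Language.mk (fun _ => Unit) (fun _ => Empty))
        G G :=
      { toEquiv := σ.toEquiv
        map_fun' := by
          intro n f xs
          rw [hS, hS]
          show σ _ = _
          rw [map_list_prod, List.map_ofFn]
          rfl
        map_rel' := fun r => r.elim }
    rw [← FirstOrder.Language.StrongHomClass.realize_formula σ' φ (v := fun n => (x n : G))]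
    unfold FirstOrder.Language.Formula.Realize
    rw [← FirstOrder.Language.BoundedFormula.realize_restrictFreeVar (φ := φ) (f := id)
        (v := fun a => (x a : G) * (x (a + 1) * x (a + 1))) _ (fun _ => rfl),
      ← FirstOrder.Language.BoundedFormula.realize_restrictFreeVar (φ := φ) (f := id)
        (v := fun a => (x a : G) * (x (a + 1) * x (a + 1))) _ (fun a => ?_)]
    have : (a : ℕ) ≤ φ.freeVarFinset.sup id := Finset.le_sup (f := id) a.2
    exact (h1 a (by omega)).symm) (x 0)
  choose p hp using fun j : ℕ => hext (fun z => if z = x j then (z : G) else 1)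
  have hfin : ∀ g : G, ∀ᶠ j in Filter.cofinite, p j g = 1 := by
    intro g
    have hg : g ∈ Subgroup.closure X := hcl ▸ Subgroup.mem_top g
    induction hg using Subgroup.closure_induction with
    | mem z hz =>
      have : {j | (⟨z, hz⟩ : X) = x j}.Finite :=
        Set.Subsingleton.finite (fun i hi j hj => x.injective (hi.symm.trans hj))
      refine this.subset ?_
      intro j hj
      by_contra h
      exact hj ((hp j ⟨z, hz⟩).trans (if_neg h))
    | one => simp
    | mul u v _ _ hu hv => filter_upwards [hu, hv] with j h1 h2; rw [map_mul, h1, h2, mul_one]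
    | inv u _ hu => filter_upwards [hu] with j h1; rw [map_inv, h1, inv_one]
  obtain ⟨j, hj⟩ := (hfin d).exists
  have hrange : ∀ g : G, p j g ∈ Subgroup.zpowers (x j : G) := by
    intro g
    have hg : g ∈ Subgroup.closure X := hcl ▸ Subgroup.mem_top g
    induction hg using Subgroup.closure_induction with
    | mem z hz =>
      rw [hp j ⟨z, hz⟩]
      split_ifs with h
      · rw [h]; exact Subgroup.mem_zpowers _
      · exact Subgroup.one_mem _
    | one => simp
    | mul u v _ _ hu hv => rw [map_mul]; exact Subgroup.mul_mem _ hu hv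
    | inv u _ hu => rw [map_inv]; exact Subgroup.inv_mem _ hu
  let ψ : (FirstOrder.Language.mk (fun _ => Unit) (fun _ => Empty)).Formula (Unit ⊕ ℕ) :=
    FirstOrder.Language.Formula.iExs (Fin (j + 2))
      ((FirstOrder.Language.Term.equal (.var (Sum.inr 0)) (.var (Sum.inl (Sum.inl ())))) ⊓
        FirstOrder.Language.Formula.iInf (fun i : Fin (j + 1) =>
          FirstOrder.Language.Term.equal
            (FirstOrder.Language.Term.func (l := 3) ()
              ![.var (Sum.inr i.castSucc), .var (Sum.inr i.succ), .var (Sum.inr i.succ)])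
            (.var (Sum.inl (Sum.inr (i : ℕ))))))
  have hψ : ∀ (c : G) (b : ℕ → G), ψ.Realize (Sum.elim (fun _ => c) b) ↔
      ∃ y : Fin (j + 2) → G, y 0 = c ∧
        ∀ i : Fin (j + 1), y i.castSucc * (y i.succ * y i.succ) = b i := by
    intro c b
    simp [ψ, hS]
  obtain ⟨y, hy0, hy⟩ := (hψ _ _).1 ((hd ψ).1 ((hψ _ _).2 ⟨fun i => x i, rfl, fun i => rfl⟩))
  have hz : ∀ i : ℕ, ∀ hi : i ≤ j, p j (y ⟨i, by omega⟩) = 1 := by
    intro i
    induction i with
    | zero => intro _; exact (congrArg (p j) hy0).trans hj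
    | succ i ih =>
      intro hi
      have h1 := congrArg (p j) (hy ⟨i, by omega⟩)
      rw [map_mul, map_mul, hp, if_neg (hne _ _ (by simp; omega))] at h1
      erw [ih (by omega)] at h1
      exact htf _ 2 (by norm_num) (by rw [pow_two]; simpa using h1)
  have h1 := congrArg (p j) (hy ⟨j, by omega⟩)
  rw [map_mul, map_mul, hp, if_pos rfl] at h1
  erw [hz j le_rfl] at h1
  obtain ⟨k, hk⟩ := hrange (y (Fin.succ ⟨j, by omega⟩))
  simp only at hk
  rw [← hk, one_mul, ← zpow_add] at h1
  have h2 : (x j : G) ^ (k + k - 1) = 1 := by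
    rw [zpow_sub_one, h1, mul_inv_cancel]
  have h3 : (x j : G) = 1 := by
    apply htf _ (k + k - 1).natAbs (by omega)
    rcases Int.natAbs_eq (k + k - 1) with h | h
    · rw [← zpow_natCast, ← h, h2]
    · rw [← zpow_natCast, ← inv_eq_one, ← zpow_neg, ← h, h2]
  obtain ⟨φ, hφ⟩ := hext (fun _ => x (j + 1))
  have h4 := hφ (x j)
  rw [h3, map_one, ← h3] at h4
  exact hne _ _ (by omega) (Subtype.ext h4)

end Pool.Agent.S14895
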