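import Pool.Statements.S14899
import Pool.Agent.H37.SMin

set_option autoImplicit false
open Pool Pool.MP_73efbe_lc

namespace Pool.Agent.S14899

theorem result :
    ∃ A B : Set ℕ,
      (∃ W : Set (ℕ × List ℕ),
        (∃ f : ℕ × List ℕ →. ℕ, Partrec f ∧ ∀ p : ℕ × List ℕ, (f p).Dom ↔ p ∈ W) ∧
        ∀ x : ℕ, x ∈ A ↔ ∃ l : List ℕ, (x, l) ∈ W ∧ ∀ y ∈ l, y ∈ B) ∧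
      (∃ W : Set (ℕ × List ℕ),
        (∃ f : ℕ × List ℕ →. ℕ, Partrec f ∧ ∀ p : ℕ × List ℕ, (f p).Dom ↔ p ∈ W) ∧
        ∀ x : ℕ, x ∈ B ↔ ∃ l : List ℕ, (x, l) ∈ W ∧ ∀ y ∈ l, y ∈ A) ∧
      (¬ ∃ f : ℕ →. ℕ, Partrec f ∧ ∀ n : ℕ, (f n).Dom ↔ n ∈ A) ∧
      (¬ ∃ f : ℕ →. ℕ, Partrec f ∧ ∀ n : ℕ, (f n).Dom ↔ n ∈ B) ∧
      ∀ C : Set ℕ,
        (∃ W : Set (ℕ × ℕ),
          (∃ f : ℕ × ℕ →. ℕ, Partrec f ∧ ∀ p : ℕ × ℕ, (f p).Dom ↔ p ∈ W) ∧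
          ∀ x : ℕ, x ∈ C ↔ ∃ y ∈ A, (x, y) ∈ W) →
        (∃ W : Set (ℕ × ℕ),
          (∃ f : ℕ × ℕ →. ℕ, Partrec f ∧ ∀ p : ℕ × ℕ, (f p).Dom ↔ p ∈ W) ∧
          ∀ x : ℕ, x ∈ C ↔ ∃ y ∈ B, (x, y) ∈ W) →
        ∃ f : ℕ →. ℕ, Partrec f ∧ ∀ n : ℕ, (f n).Dom ↔ n ∈ C := by
  exact Pool.Agent.H37.SMin.main

end Pool.Agent.S14899
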