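import Pool.Statements.S14903
import Pool.Agent.H57.FsB

set_option autoImplicit false
open Pool Pool.MP_74a51f_lc

namespace Pool.Agent.S14903

/-- Assuming GCH, there is a red/blue colouring of pairs of ordinals below omega_{omega+1} with no red-homogeneous set of order type omega_{omega+1} (equivalently of size aleph_{omega+1}) and no blue-homogeneous set of order type omega+2. -/
theorem result :
    (∀ κ : Cardinal.{0}, Cardinal.aleph0 ≤ κ → (2 : Cardinal.{0}) ^ κ = Order.succ κ) →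
    ∃ c : Ordinal.{0} → Ordinal.{0} → Bool,
      (∀ g : Ordinal.{0} → Ordinal.{0},
        StrictMonoOn g (Set.Iio (Cardinal.aleph (Ordinal.omega0 + 1)).ord) →
        (∀ i, i < (Cardinal.aleph (Ordinal.omega0 + 1)).ord →
            g i < (Cardinal.aleph (Ordinal.omega0 + 1)).ord) →
        ∃ i j, i < j ∧ j < (Cardinal.aleph (Ordinal.omega0 + 1)).ord ∧ c (g i) (g j) = true) ∧
      (∀ g : Ordinal.{0} → Ordinal.{0},
        StrictMonoOn g (Set.Iio (Ordinal.omega0 + 2)) →
        (∀ i, i < Ordinal.omega0 + 2 → g i < (Cardinal.aleph (Ordinal.omega0 + 1)).ord) →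
        ∃ i j, i < j ∧ j < Ordinal.omega0 + 2 ∧ c (g i) (g j) = false) := by
  intro gch
  classical
  have R : H82.LadA.Reg (Cardinal.aleph (Ordinal.omega0 + 1)).ord.ToType
      (Order.succ (Cardinal.aleph Ordinal.omega0)) := by
    rw [Cardinal.aleph_add_one]
    exact H82.LadA.reg_toType (Cardinal.isRegular_succ (Cardinal.aleph0_le_aleph _))
  obtain ⟨E, h1, h2⟩ := H57.Fs.omega2 R (gch _ (Cardinal.aleph0_le_aleph _))
    (ν := fun m => Cardinal.aleph m) (fun _ => Cardinal.aleph0_le_aleph _) (fun m => by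
      rw [gch _ (Cardinal.aleph0_le_aleph _), Cardinal.succ_aleph, Nat.cast_succ])
    (fun m => Cardinal.aleph_lt_aleph.2 (Ordinal.natCast_lt_omega0 m)) (by
      rw [Cardinal.aleph_limit Ordinal.isSuccLimit_omega0]
      refine ciSup_le' fun ⟨a, ha⟩ => ?_
      obtain ⟨m, rfl⟩ := Ordinal.lt_omega0.1 ha
      exact Cardinal.le_sum (fun m : ℕ => Cardinal.aleph m) m)
  generalize (Cardinal.aleph (Ordinal.omega0 + 1)).ord = o at *
  let e : Set.Iio o ≃o o.ToType := Ordinal.ToType.mk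
  refine ⟨fun i j => decide (∃ hi hj, E (e ⟨i, hi⟩) (e ⟨j, hj⟩)), fun g g1 g2 => ?_,
    fun g g1 g2 => ?_⟩
  · let G : o.ToType → o.ToType := fun a => e ⟨g (e.symm a).1, g2 _ (e.symm a).2⟩
    have hG : StrictMono G := fun a b h =>
      e.strictMono (g1 (e.symm a).2 (e.symm b).2 (e.symm.strictMono h))
    obtain ⟨_, ⟨a, rfl⟩, _, ⟨b, rfl⟩, l1, l2⟩ := h1 (Set.range G) fun η => ⟨_, ⟨η, rfl⟩, hG.le_apply⟩
    exact ⟨_, _, e.symm.strictMono (hG.lt_iff_lt.1 l1), (e.symm b).2, decide_eq_true ⟨_, _, l2⟩⟩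
  · by_contra! hn
    have w0 : Ordinal.omega0 < Ordinal.omega0 + 1 := lt_add_one _
    have w1 : Ordinal.omega0 + 1 < Ordinal.omega0 + 2 := by
      rw [← one_add_one_eq_two, ← add_assoc]; exact lt_add_one _
    have w2 : ∀ n : ℕ, (n : Ordinal) < Ordinal.omega0 + 2 := fun n =>
      (Ordinal.natCast_lt_omega0 n).trans (w0.trans w1)
    have k : ∀ i j (h : i < j) (h' : j < Ordinal.omega0 + 2),
        E (e ⟨g i, g2 i (h.trans h')⟩) (e ⟨g j, g2 j h'⟩) := fun i j h h' =>
      (of_decide_eq_true (Bool.ne_false_iff.1 (hn i j h h'))).2.2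
    exact h2 (fun n => e ⟨g n, g2 _ (w2 n)⟩) _ _
      (fun n m h => e.strictMono (g1 (w2 n) (w2 m) (Nat.cast_lt.2 h)))
      (e.strictMono (g1 (w0.trans w1) w1 w0)) (fun n m h => k _ _ (Nat.cast_lt.2 h) (w2 m))
      (fun n => k _ _ (Ordinal.natCast_lt_omega0 n) (w0.trans w1))
      fun n => k _ _ ((Ordinal.natCast_lt_omega0 n).trans w0) w1

end Pool.Agent.S14903
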