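import Pool.Statements.S14933
import Pool.Agent.H39.Blocks2

set_option autoImplicit false
open Filter Topology
open Pool Pool.MP_7a0c2d_lc

namespace Pool.Agent.S14933

/-- For every real α with ∣α∣>1, the set of reals ξ with ξαⁿ uniformly distributed mod 1 is a countable intersection of F-sigma sets, and every such set in Baire space is its continuous preimage. -/
theorem result :
    ∀ α : ℝ, 1 < |α| →
      ∀ A : Set ℝ,
        A = {ξ : ℝ | ∀ a b : ℝ, 0 ≤ a → a ≤ b → b ≤ 1 →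
              Tendsto
                (fun N : ℕ =>
                  (((Finset.range N).filter
                      (fun n => a ≤ Int.fract (ξ * α ^ n) ∧ Int.fract (ξ * α ^ n) < b)).card : ℝ)
                    / (N : ℝ))
                atTop (𝓝 (b - a))} →
        (∃ F : ℕ → ℕ → Set ℝ, (∀ i j, IsClosed (F i j)) ∧ A = ⋂ i, ⋃ j, F i j) ∧
        (∀ B : Set (ℕ → ℕ),
          (∃ G : ℕ → ℕ → Set (ℕ → ℕ), (∀ i j, IsClosed (G i j)) ∧ B = ⋂ i, ⋃ j, G i j) →
          ∃ f : (ℕ → ℕ) → ℝ, Continuous f ∧ f ⁻¹' A = B) := by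
  rintro α hα A rfl
  constructor
  · obtain ⟨F, h1, h2⟩ := Pool.Agent.H39.Equi.pi03 (ι := Unit)
      (x := fun _ (ξ : ℝ) n => ξ * α ^ n) fun _ n => by fun_prop
    refine ⟨F, h1, Eq.trans ?_ h2⟩
    ext ξ
    exact ⟨fun h _ => h, fun h => h ()⟩
  · rintro B ⟨G, hG, rfl⟩
    obtain ⟨x, h1, h2⟩ := Pool.Agent.H39.Red03.reduce Pool.Agent.H39.Red03.basis_baire G hG
    obtain ⟨f, h3, h4⟩ := Pool.Agent.H39.Blocks.hard (α := fun _ => α) (fun _ => hα) x h1
    refine ⟨f, h3, ?_⟩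
    ext y
    rw [h2, ← h4]
    exact ⟨fun h _ => h, fun h => h 0⟩

end Pool.Agent.S14933
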