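import Pool.Statements.S14940
import Pool.Agent.H37.FreeProd

set_option autoImplicit false
open Pool Pool.MP_7acc36_lc

namespace Pool.Agent.S14940

theorem result :
    ¬ (∀ (G H : Type) [Group G] [Group H],
      (∃ (d : ℕ → Bool) (r : ℕ → List ℕ → Bool), Computable d ∧ Computable₂ r ∧
        ∃ φ : G →* Equiv.Perm ℕ, Function.Injective φ ∧
          ∀ σ : Equiv.Perm ℕ, σ ∈ φ.range ↔
            (Computable (σ : ℕ → ℕ) ∧ (∀ n, d n = false → σ n = n) ∧
              (∀ n, d n = true → d (σ n) = true) ∧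
              ∀ (i : ℕ) (l : List ℕ), (∀ x ∈ l, d x = true) → r i (l.map σ) = r i l)) →
      (∃ (d : ℕ → Bool) (r : ℕ → List ℕ → Bool), Computable d ∧ Computable₂ r ∧
        ∃ φ : H →* Equiv.Perm ℕ, Function.Injective φ ∧
          ∀ σ : Equiv.Perm ℕ, σ ∈ φ.range ↔
            (Computable (σ : ℕ → ℕ) ∧ (∀ n, d n = false → σ n = n) ∧
              (∀ n, d n = true → d (σ n) = true) ∧
              ∀ (i : ℕ) (l : List ℕ), (∀ x ∈ l, d x = true) → r i (l.map σ) = r i l)) →
      (∃ (d : ℕ → Bool) (r : ℕ → List ℕ → Bool), Computable d ∧ Computable₂ r ∧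
        ∃ φ : Monoid.Coprod G H →* Equiv.Perm ℕ, Function.Injective φ ∧
          ∀ σ : Equiv.Perm ℕ, σ ∈ φ.range ↔
            (Computable (σ : ℕ → ℕ) ∧ (∀ n, d n = false → σ n = n) ∧
              (∀ n, d n = true → d (σ n) = true) ∧
              ∀ (i : ℕ) (l : List ℕ), (∀ x ∈ l, d x = true) → r i (l.map σ) = r i l))) := by
  exact Pool.Agent.H37.FreeProd.main

end Pool.Agent.S14940
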