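import Pool.Statements.S14980
import Pool.Agent.H83.Soc8

set_option autoImplicit false
open Pool Pool.MP_833c5c_lc

namespace Pool.Agent.S14980

/-- The negation of the preceding statement: Every finite coloring c of the naturals computes a 2-coloring d of exactly ω-large finite sets such that every infinite d-homogeneous set computes an infinite set of positive integers whose nonempty finite sums are all c-monochromatic. -/
theorem result :
    ¬ (∀ c : ℕ → ℕ, (∃ k : ℕ, ∀ n, c n < k) →
    ∃ d : ℕ → Bool,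
      TuringReducible (PFun.lift (fun n => (d n).toNat)) (PFun.lift c) ∧
      ∀ h : ℕ → Bool,
        (Set.Infinite {n : ℕ | h n = true} ∧
          ∃ b : Bool, ∀ s : Finset ℕ, (∀ i ∈ s, h i = true) →
            (∃ m ∈ s, (∀ i ∈ s, m ≤ i) ∧ s.card = m + 1) →
            d (∑ i ∈ s, 2 ^ i) = b) →
        ∃ g : ℕ → Bool,
          TuringReducible (PFun.lift (fun n => (g n).toNat))
            (PFun.lift (fun n => (h n).toNat)) ∧
          Set.Infinite {n : ℕ | g n = true} ∧
          (∀ i, g i = true → 0 < i) ∧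
          ∃ b : ℕ, ∀ s : Finset ℕ, s.Nonempty → (∀ i ∈ s, g i = true) →
            c (∑ i ∈ s, i) = b) := by
  classical
  intro h
  obtain ⟨f, hf⟩ := Pool.Agent.H83.Soc.mainV 2
  obtain ⟨d, -, hd⟩ := h (fun n => (f n : ℕ)) ⟨3, fun n => (f n).2⟩
  obtain ⟨H, i, h1, h2, h3⟩ := hf fun s => finTwoEquiv.symm (d (∑ i ∈ s, 2 ^ i))
  obtain ⟨g, i3, i1, -, b, i2⟩ := hd (fun m => decide (m ∈ H)) ⟨by simpa using h1, finTwoEquiv i,
    fun s hs hc => by
      rw [← h2 s (fun x hx => by simpa using hs x hx) hc, Equiv.apply_symm_apply]⟩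
  obtain ⟨a, ha⟩ := i1.nonempty
  obtain ⟨t, t1, t2, t3⟩ := h3 {m | g m = true} (f a) (fun m => (decide (m ∈ H)).toNat)
    (fun m => (g m).toNat) (fun m hm => by simp [hm])
    (fun m hm => by simp [hm]) (fun m => by cases h : g m <;> simp [h]) i3 i1
  have e1 := i2 t t1 fun x hx => t2 hx
  have e2 := i2 {a} (Finset.singleton_nonempty a) (by simpa using ha)
  rw [Finset.sum_singleton] at e2
  exact t3 (Fin.ext (e1.trans e2.symm))

end Pool.Agent.S14980
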