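import Pool.Statements.S14999
-- import your own Pool.Agent.* helpers here

set_option autoImplicit false
open Pool Pool.MP_8565d5_lc

namespace Pool.Agent.S14999

lemma shadow {e i j : ℕ} (hij : i < j) (h : ∀ m, e.testBit m = true → m = i ∨ m = j) :
    e = 0 ∨ e = 2 ^ i ∨ e = 2 ^ j ∨ e = 2 ^ i + 2 ^ j := by
  have e1 : 2 ^ i + 2 ^ j = 2 ^ j ||| 2 ^ i := by
    simpa [add_comm] using Nat.two_pow_add_eq_or_of_lt (Nat.pow_lt_pow_right one_lt_two hij) 1
  rw [e1]
  cases h1 : e.testBit i <;> cases h2 : e.testBit j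
  · exact .inl (Nat.eq_of_testBit_eq fun m => by grind)
  · exact .inr (.inr (.inl (Nat.eq_of_testBit_eq fun m => by grind)))
  · exact .inr (.inl (Nat.eq_of_testBit_eq fun m => by grind))
  · exact .inr (.inr (.inr (Nat.eq_of_testBit_eq fun m => by
      grind)))

/-- the degree set -/
noncomputable def DD (t : ℕ) : Finset ℕ := by classical exact (Finset.range (2 ^ t)).filter fun d =>
  d = 0 ∨ (∃ i < t, d = 2 ^ i) ∨ ∃ i j, i + 2 ≤ j ∧ j < t ∧ j + 2 ≤ i + t ∧ d = 2 ^ i + 2 ^ j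

lemma mem_DD {t d : ℕ} : d ∈ DD t ↔ d = 0 ∨ (∃ i < t, d = 2 ^ i) ∨
    ∃ i j, i + 2 ≤ j ∧ j < t ∧ j + 2 ≤ i + t ∧ d = 2 ^ i + 2 ^ j := by
  simp only [DD, Finset.mem_filter, Finset.mem_range, and_iff_right_iff_imp]
  rintro (rfl | ⟨i, h, rfl⟩ | ⟨i, j, h1, h2, -, rfl⟩)
  · positivity
  · exact Nat.pow_lt_pow_right one_lt_two h
  have := Nat.pow_lt_pow_right one_lt_two (show i < j by omega)
  have := Nat.pow_le_pow_right two_pos (show j + 1 ≤ t from h2)
  omega

lemma dbl {t d : ℕ} (hd : d ∈ DD t) (h0 : d ≠ 0) : (2 * d - 1) % (2 ^ t - 1) + 1 ∈ DD t := by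
  have h : ∀ e, e ∈ DD t → 2 * d = e → (2 * d - 1) % (2 ^ t - 1) + 1 ∈ DD t := fun e he h => by
    classical
    have := Finset.mem_range.mp (Finset.mem_filter.mp he).1
    rwa [Nat.mod_eq_of_lt (by omega), show 2 * d - 1 + 1 = e by omega]
  rcases mem_DD.mp hd with rfl | ⟨i, h1, rfl⟩ | ⟨i, j, h1, h2, h3, rfl⟩
  · exact absurd rfl h0
  · rcases (Nat.succ_le_of_lt h1).lt_or_eq with h2 | rfl
    · exact h _ (mem_DD.mpr (.inr (.inl ⟨_, h2, rfl⟩))) (by rw [pow_succ'])
    rw [← pow_succ', Nat.mod_self]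
    exact mem_DD.mpr (.inr (.inl ⟨0, by omega, rfl⟩))
  rcases (Nat.succ_le_of_lt h2).lt_or_eq with h4 | rfl
  · exact h _ (mem_DD.mpr (.inr (.inr ⟨i + 1, j + 1, by omega, h4, by omega, rfl⟩))) (by ring)
  have := Nat.pow_lt_pow_right one_lt_two (show i + 1 < j by omega)
  have := Nat.pow_pos (n := j) two_pos
  rw [show 2 * (2 ^ i + 2 ^ j) - 1 = 2 ^ (i + 1) + (2 ^ j.succ - 1) by
    simp only [pow_succ]; omega, Nat.add_mod_right, Nat.mod_eq_of_lt (by rw [pow_succ 2 j]; omega)]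
  exact mem_DD.mpr (.inr (.inr ⟨0, i + 1, by omega, by omega, by omega, by ring⟩))

open Finset in
lemma dep {F : Type} [Field F] [Finite F] [CharP F 2] {k : ℕ} (α : Fin k → F) :
    ∃ u : ℕ → F, ∀ i, α i ^ 3 = ∑ j ∈ Icc 2 (k + 1), u j * α i ^ (2 ^ 0 + 2 ^ j) := by
  classical
  have : ¬ LinearIndependent F fun (b : Fin (k + 1)) (i : Fin k) => α i ^ 2 ^ (b + 1 : ℕ) :=
    fun h => by simpa using h.fintype_card_le_finrank
  obtain ⟨v, h1, h2⟩ := Fintype.not_linearIndependent_iff.mp this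
  obtain ⟨b, hb, hm⟩ := exists_min_image (univ.filter (v · ≠ 0)) id (by simpa [Finset.Nonempty])
  simp only [mem_filter, mem_univ, true_and, id] at hb hm
  let σ := iterateFrobeniusEquiv F 2 b
  refine ⟨fun j => ∑ c : Fin (k + 1) with c.val + 1 = b + j, σ.symm (v c / v b), fun i => σ.injective ?_⟩
  have h3 := congrFun h1 i
  simp only [Finset.sum_apply, Pi.smul_apply, smul_eq_mul, Pi.zero_apply] at h3
  rw [← add_sum_erase _ _ (mem_univ b), CharTwo.add_eq_zero] at h3
  simp only [sum_mul, map_sum, map_mul, RingEquiv.apply_symm_apply, sum_filter, ite_mul, zero_mul,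
    apply_ite σ, map_zero]
  rw [sum_comm, ← add_sum_erase _ _ (mem_univ b), sum_eq_zero (by
    intro j hj
    rw [mem_Icc] at hj
    rw [if_neg (by omega)]), zero_add]
  have e : σ (α i ^ 3) = v b * α i ^ 2 ^ (b + 1 : ℕ) * (α i ^ 2 ^ (b : ℕ) / v b) := by
    simp only [σ, iterateFrobeniusEquiv_def]
    field_simp
    ring
  rw [e, h3, sum_mul]
  refine sum_congr rfl fun c hc => ?_
  by_cases c0 : v c = 0
  · simp [c0]
  have c1 : (b : ℕ) < c := (hm c c0).lt_of_ne' (mem_erase.mp hc).1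
  refine Eq.trans ?_ (sum_eq_single (c + 1 - b : ℕ) (fun j _ hj => if_neg (by omega))
    (fun h => absurd (by rw [mem_Icc]; omega) h)).symm
  rw [if_pos (by omega)]
  simp only [σ, iterateFrobeniusEquiv_def]
  rw [← pow_mul, add_mul, ← pow_add, ← pow_add, show c.val + 1 - b + b = c + 1 by omega]
  field_simp
  ring

/-- For every k there is a prime t and a proper subset D of the weight-at-most-2 exponents below 2^t, closed under doubling mod 2^t−1 and under binary shadows, such that the F_2-valued functions on F_{2^t} spanned by x^d, d in D, admit no characterization by k-point constraints. -/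
theorem result :
    ∀ k : ℕ, ∃ t : ℕ, t.Prime ∧ ∃ D : Finset ℕ,
      (∀ d ∈ D, d < 2 ^ t ∧ (Nat.digits 2 d).sum ≤ 2) ∧
      (∃ d : ℕ, d < 2 ^ t ∧ (Nat.digits 2 d).sum ≤ 2 ∧ d ∉ D) ∧
      (∀ d ∈ D, d ≠ 0 → (2 * d - 1) % (2 ^ t - 1) + 1 ∈ D) ∧
      (∀ d ∈ D, ∀ e : ℕ, (∀ i : ℕ, e.testBit i = true → d.testBit i = true) → e ∈ D) ∧
      ¬ ∃ C : Set ((Fin k → GaloisField 2 t) × Set (Fin k → ZMod 2)),
          ∀ f : GaloisField 2 t → ZMod 2,
            ((∃ c : ℕ → GaloisField 2 t, ∀ x : GaloisField 2 t,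
                algebraMap (ZMod 2) (GaloisField 2 t) (f x) = ∑ d ∈ D, c d * x ^ d) ↔
              ∀ p ∈ C, (fun i => f (p.1 i)) ∈ p.2) := by
  classical
  intro k
  obtain ⟨t, ht, tp⟩ := Nat.exists_infinite_primes (k + 3)
  have h3 : 3 ∉ DD t := by
    rw [mem_DD]
    rintro (h | ⟨i, -, h⟩ | ⟨i, j, h1, -, -, h⟩)
    · omega
    · rcases i with _ | i
      · omega
      rw [pow_succ] at h; omega
    have := Nat.pow_le_pow_right two_pos (show 2 ≤ j by omega)
    generalize 2 ^ i = x, 2 ^ j = y at *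
    omega
  have t3 := Nat.pow_le_pow_right two_pos (show 3 ≤ t by omega)
  have lt : ∀ d ∈ DD t, d < 2 ^ t := fun d hd => Finset.mem_range.mp (Finset.mem_filter.mp hd).1
  have ds : ∀ i, (Nat.digits 2 (2 ^ i)).sum = 1 := fun i => by
    simpa using congrArg List.sum (Nat.digits_base_pow_mul (k := i) one_lt_two one_pos)
  refine ⟨t, tp, DD t, fun d hd => ⟨lt d hd, ?_⟩, ⟨3, by omega, by simp, h3⟩, fun d => dbl,
    fun d hd e he => ?_, ?_⟩
  · rcases mem_DD.mp hd with rfl | ⟨i, h1, rfl⟩ | ⟨i, j, h1, h2, h3, rfl⟩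
    · simp
    · simp only [ds, one_le_two]
    obtain ⟨m, rfl⟩ := Nat.exists_eq_add_of_lt (show i < j by omega)
    rw [show 2 ^ i + 2 ^ (i + m + 1) = 2 ^ i * (1 + 2 * 2 ^ m) by ring,
      Nat.digits_base_pow_mul one_lt_two (by positivity),
      Nat.digits_add 2 one_lt_two _ _ one_lt_two (by simp)]
    simp [-Nat.digits_of_two_le_of_pos, ds]
  · rw [mem_DD] at hd ⊢
    rcases hd with rfl | ⟨i, h1, rfl⟩ | ⟨i, j, h1, h2, h3, rfl⟩
    · exact .inl (Nat.eq_of_testBit_eq fun m => by grind)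
    · cases h : e.testBit i
      · exact .inl (Nat.eq_of_testBit_eq fun m => by grind)
      exact .inr (.inl ⟨i, h1, Nat.eq_of_testBit_eq fun m => by grind⟩)
    have e1 : 2 ^ i + 2 ^ j = 2 ^ j ||| 2 ^ i := by
      simpa [add_comm] using Nat.two_pow_add_eq_or_of_lt
        (Nat.pow_lt_pow_right one_lt_two (show i < j by omega)) 1
    rcases shadow (e := e) (show i < j by omega) (fun m hm => by
      have := he m hm
      grind) with h | h | h | h
    exacts [.inl h, .inr (.inl ⟨i, by omega, h⟩), .inr (.inl ⟨j, h2, h⟩),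
      .inr (.inr ⟨i, j, h1, h2, h3, h⟩)]
  rintro ⟨C, hC⟩
  set F := GaloisField 2 t
  have := Fintype.ofFinite F
  have cF : Fintype.card F = 2 ^ t := by rw [← Nat.card_eq_fintype_card, GaloisField.card _ _ tp.ne_zero]
  let Q := Submodule.span F ((fun (d : ℕ) (x : F) => x ^ d) '' DD t)
  have hQ : ∀ h : F → F, h ∈ Q ↔ ∃ c : ℕ → F, ∀ x, h x = ∑ d ∈ DD t, c d * x ^ d := fun h => by
    simp [Q, Submodule.mem_span_image_finset_iff_exists_fun', funext_iff, eq_comm]
  have sq : ∀ h ∈ Q, h ^ 2 ∈ Q := fun h hh => by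
    induction hh using Submodule.span_induction with
    | zero => simp
    | add f g _ _ h1 h2 => rw [CharTwo.add_sq]; exact add_mem h1 h2
    | smul a f _ h1 => rw [smul_pow]; exact Q.smul_mem _ h1
    | mem f hf =>
      obtain ⟨d, hd, rfl⟩ := hf
      by_cases d0 : d = 0
      · exact Submodule.subset_span ⟨d, hd, by ext; simp [d0]⟩
      refine Submodule.subset_span ⟨_, dbl hd d0, funext fun x => ?_⟩
      by_cases x0 : x = 0
      · simp [x0, d0]
      have := FiniteField.pow_card_sub_one_eq_one x x0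
      rw [cF] at this
      simp only [Pi.pow_apply]
      rw [pow_succ, ← pow_eq_pow_mod _ this, ← pow_succ, ← pow_mul]
      congr 1
      omega
  have tr : ∀ h ∈ Q, (fun x => algebraMap (ZMod 2) F (Algebra.trace _ F (h x))) ∈ Q := fun h hh => by
    have : ∀ i, h ^ 2 ^ i ∈ Q := fun i => by
      induction i with
      | zero => simpa
      | succ i ih => rw [pow_succ, pow_mul]; exact sq _ ih
    convert Q.sum_mem (t := Finset.range (Module.finrank (ZMod 2) F)) fun i _ => this i using 1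
    ext x
    simp [FiniteField.algebraMap_trace_eq_sum_pow]
  have g : ∀ c : F, (fun x => algebraMap (ZMod 2) F (Algebra.trace _ F (x ^ 3 * c))) ∈ Q := fun c => by
    refine (hQ _).mpr ((hC fun x => Algebra.trace _ F (x ^ 3 * c)).mpr fun p hp => ?_)
    obtain ⟨u, hu⟩ := dep p.1
    have := (hC _).mp ((hQ _).mp (tr _ (Q.smul_mem c (Q.sum_mem (t := Finset.Icc 2 (k + 1))
      fun j hj => Q.smul_mem (u j) (Submodule.subset_span ⟨2 ^ 0 + 2 ^ j, mem_DD.mpr
        (.inr (.inr ⟨0, j, by grind, by grind, by grind, rfl⟩)), rfl⟩))))) p hp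
    simpa [hu, mul_comm] using this
  let b := Module.finBasis (ZMod 2) F
  obtain ⟨c, hc⟩ := (hQ fun x => x ^ 3).mp (by
    convert Q.sum_mem (t := Finset.univ) fun i _ => Q.smul_mem (b.traceDual i) (g (b i)) using 1
    ext x
    conv_lhs => rw [← b.traceDual.sum_repr (x ^ 3)]
    simp [Algebra.smul_def, mul_comm])
  have := Polynomial.eq_zero_of_degree_lt_of_eval_finset_eq_zero Finset.univ
    (f := Polynomial.monomial 3 1 - ∑ d ∈ DD t, Polynomial.monomial d (c d)) (by
      rw [Finset.card_univ, cF, Polynomial.degree_lt_iff_coeff_zero]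
      intro m hm
      simp only [Polynomial.coeff_sub, Polynomial.finsetSum_coeff, Polynomial.coeff_monomial]
      rw [if_neg (by omega), Finset.sum_eq_zero fun d hd => if_neg (by have := lt d hd; omega)]
      simp) (fun x _ => by simp [Polynomial.eval_finsetSum, hc])
  have := congrArg (Polynomial.coeff · 3) this
  simp [Polynomial.coeff_monomial, h3] at this

end Pool.Agent.S14999
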