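import Pool.Statements.S15022
import Pool.Agent.H54.APTest

set_option autoImplicit false
open Pool Pool.MP_8aa41f_lc

namespace Pool.Agent.S15022

/-- The negation of the preceding statement: There are constants C, D such that for all 1 ≤ k ≤ n (n ≥ 2), some at most C·k·log n arithmetic progressions in [n] have this property: from their emptiness outcomes, querying at most D·k chosen points always pins down any hidden set of size at most k. -/
theorem result :
    ¬ (∃ C : ℝ, ∃ D : ℕ, ∀ n k : ℕ, 2 ≤ n → 1 ≤ k → k ≤ n →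
      ∃ m : ℕ, (m : ℝ) ≤ C * (k : ℝ) * Real.log (n : ℝ) ∧
        ∃ T : Fin m → Finset ℕ,
          (∀ i, T i ⊆ Finset.range n ∧
            ∃ a d L : ℕ, T i = (Finset.range L).image (fun j => a + d * j)) ∧
          ∃ J : (Fin m → Bool) → Finset ℕ,
            (∀ o, (J o).card ≤ D * k) ∧
            ∀ S S' : Finset ℕ, S ⊆ Finset.range n → S' ⊆ Finset.range n →
              S.card ≤ k → S'.card ≤ k →
              (fun i => decide (Disjoint (T i) S)) =
                (fun i => decide (Disjoint (T i) S')) →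
              S ∩ J (fun i => decide (Disjoint (T i) S)) =
                S' ∩ J (fun i => decide (Disjoint (T i) S)) →
              S = S') := by
  rintro ⟨C, D, h⟩
  obtain ⟨t, ht, hnum⟩ := Pool.Agent.H54.APTest.numeric ⌈C⌉₊ D
  have hn : t < 2 ^ (t ^ 2) :=
    lt_of_le_of_lt (Nat.le_self_pow (by norm_num) t) Nat.lt_two_pow_self
  obtain ⟨m, hm, T, hT, J, hJ, hS⟩ := h (2 ^ (t ^ 2)) 1 (by omega) le_rfl (by omega)
  have hm' : m ≤ ⌈C⌉₊ * t ^ 2 := by
    have h1 : Real.log ((2 ^ (t ^ 2) : ℕ) : ℝ) = (t : ℝ) ^ 2 * Real.log 2 := by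
      push_cast
      rw [Real.log_pow]
      push_cast
      ring
    rw [h1] at hm
    have h2 := Real.log_two_lt_d9
    have h3 := Real.log_two_gt_d9
    have h4 := Nat.le_ceil C
    have h5 : (0 : ℝ) ≤ (⌈C⌉₊ : ℝ) := by positivity
    have h6 : (0 : ℝ) ≤ (t : ℝ) ^ 2 * Real.log 2 := by positivity
    have h7 : (t : ℝ) ^ 2 * Real.log 2 ≤ (t : ℝ) ^ 2 := by nlinarith [sq_nonneg (t : ℝ)]
    have h8 : (m : ℝ) ≤ (⌈C⌉₊ : ℝ) * (t : ℝ) ^ 2 := by
      push_cast at hm
      nlinarith [mul_le_mul_of_nonneg_right h4 h6, mul_le_mul_of_nonneg_left h7 h5]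
    exact_mod_cast h8
  have h1 := Pool.Agent.H54.APTest.count (2 ^ (t ^ 2)) m (D + 1) t (4 * ⌈C⌉₊ * t) ht hn.le
    (by nlinarith) T hT (Pool.Agent.H54.APTest.fib_of_success _ 1 m D le_rfl T J
      (by simpa using hJ) hS)
  exact absurd (hnum m hm') (not_lt.2 h1)

end Pool.Agent.S15022
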