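import Pool.Statements.S15036
import Pool.Agent.H83.Lcl2

set_option autoImplicit false
open Pool Pool.MP_8bf09d_lc

namespace Pool.Agent.S15036

/-- The negation of the preceding statement: For every local labeling problem (finite labels, radius r, allowed labeled balls P), if every highly computable graph on ℕ has a computable solution, then every locally finite Borel graph on a Polish space has a Baire measurable solution. -/
theorem result :
    ¬ (∀ (k r : ℕ) (P : (n : ℕ) → SimpleGraph (Fin (n + 1)) → (Fin (n + 1) → Fin k) → Prop),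
      (∀ (H : SimpleGraph ℕ),
          (∃ f : ℕ → List ℕ, Computable f ∧ ∀ a b : ℕ, H.Adj a b ↔ b ∈ f a) →
          ∃ c : ℕ → Fin k, Computable c ∧
            ∀ v : ℕ, ∃ n : ℕ, ∃ e : Fin (n + 1) → ℕ,
              Function.Injective e ∧ e 0 = v ∧
              Set.range e = {w : ℕ | H.edist v w ≤ (r : ℕ∞)} ∧
              P n (SimpleGraph.comap e H) (c ∘ e)) →
      ∀ (X : Type) [TopologicalSpace X] [PolishSpace X] [MeasurableSpace X] [BorelSpace X]
        (G : SimpleGraph X),
        MeasurableSet {p : X × X | G.Adj p.1 p.2} →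
        (∀ x : X, (G.neighborSet x).Finite) →
        ∃ c : X → Fin k, (∀ i : Fin k, BaireMeasurableSet (c ⁻¹' {i})) ∧
          ∀ v : X, ∃ n : ℕ, ∃ e : Fin (n + 1) → X,
            Function.Injective e ∧ e 0 = v ∧
            Set.range e = {w : X | G.edist v w ≤ (r : ℕ∞)} ∧
            P n (SimpleGraph.comap e G) (c ∘ e)) := by
  intro h
  obtain ⟨μ, hμ, hμ2⟩ := Pool.Agent.H83.Lcl.exists_mod
  obtain ⟨c, hc, hQ⟩ := h 2 2 Pool.Agent.H83.Lcl.P (by
    rintro H ⟨f, hf, hH⟩
    obtain ⟨c, hc, hQ⟩ := Pool.Agent.H83.Lcl.computable_sol H f hf hH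
    refine ⟨c, hc, fun v => ?_⟩
    have hfin : ∀ x, (H.neighborSet x).Finite := fun x =>
      (List.finite_toSet (f x)).subset fun b hb => (hH x b).1 hb
    obtain ⟨n, e, he, h0, hr⟩ := Pool.Agent.H83.Lcl.exists_enum
      (Pool.Agent.H83.Lcl.ball_finite H hfin v) (v := v) (by simp)
    exact ⟨n, e, he, h0, hr, (Pool.Agent.H83.Lcl.ball_transfer H c v e he h0 hr).2 (hQ v)⟩)
    Pool.Agent.H83.Lcl.X (Pool.Agent.H83.Lcl.G μ) (Pool.Agent.H83.Lcl.meas_G μ)
    (Pool.Agent.H83.Lcl.locfin hμ)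
  refine Pool.Agent.H83.Lcl.no_sol hμ hμ2 c (hc 0) fun v => ?_
  obtain ⟨n, e, he, h0, hr, hP⟩ := hQ v
  exact (Pool.Agent.H83.Lcl.ball_transfer _ c v e he h0 hr).1 hP

end Pool.Agent.S15036
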