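import Pool.Statements.S15054
-- import your own Pool.Agent.* helpers here

set_option autoImplicit false
open Pool Pool.MP_908db9_lc

namespace Pool.Agent.S15054

/-- The negation of the preceding statement: For every Polish group G, Polish space X, subset A of X and continuous action of G on A, there is a G_delta set B with A ⊆ B ⊆ X and a continuous action of G on B extending the given action. -/
theorem result :
    ¬ (∀ (G : Type) [TopologicalSpace G] [Group G] [IsTopologicalGroup G] [PolishSpace G]
      (X : Type) [TopologicalSpace X] [PolishSpace X]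
      (A : Set X) (a : G → A → A),
      Continuous (fun p : G × A => a p.1 p.2) →
      (∀ x : A, a 1 x = x) →
      (∀ (g h : G) (x : A), a g (a h x) = a (g * h) x) →
      ∃ B : Set X, IsGδ B ∧ A ⊆ B ∧
        ∃ b : G → B → B,
          Continuous (fun p : G × B => b p.1 p.2) ∧
          (∀ x : B, b 1 x = x) ∧
          (∀ (g h : G) (x : B), b g (b h x) = b (g * h) x) ∧
          (∀ (g : G) (x : B) (hx : (x : X) ∈ A),
            ((b g x : B) : X) = ((a g ⟨(x : X), hx⟩ : A) : X))) := by
  intro H
  classical
  let Y : Type := ℕ → ℝ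
  let G : Type := Multiplicative (ℕ → ℝ)
  have : PolishSpace G := inferInstanceAs (PolishSpace (ℕ → ℝ))
  let U : Set Y := {y | ¬ ∀ n, |y n| = 1}
  have hU : IsOpen U := by
    have : IsClosed {y : Y | ∀ n, |y n| = 1} := by
      rw [Set.ofPred_forall]
      exact isClosed_iInter fun n => isClosed_eq (by fun_prop) continuous_const
    exact this.isOpen_compl
  have : PolishSpace U := hU.polishSpace
  let act : G → Y → Y := fun g y n => Real.exp (Multiplicative.toAdd g n) * y n
  have hact : Continuous (fun p : G × Y => act p.1 p.2) := by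
    refine continuous_pi fun n => ?_
    have h1 : Continuous (fun p : G × Y => Multiplicative.toAdd p.1 n) :=
      (continuous_apply n).comp (continuous_toAdd.comp continuous_fst)
    have h2 : Continuous (fun p : G × Y => p.2 n) := (continuous_apply n).comp continuous_snd
    exact (Real.continuous_exp.comp h1).mul h2
  have hzero : ∀ y : Y, (∃ n, y n = 0) → y ∈ U := by
    rintro y ⟨n, hn⟩ h
    have := h n
    rw [hn] at this
    simp at this
  let A : Set U := {x | ∃ n, (x : Y) n = 0}
  have hA : ∀ (g : G) (x : A), ∃ n, act g ((x : U) : Y) n = 0 := by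
    rintro g ⟨x, n, hn⟩
    exact ⟨n, by simp [act, hn]⟩
  let a : G → A → A := fun g x => ⟨⟨act g ((x : U) : Y), hzero _ (hA g x)⟩, hA g x⟩
  have ha : Continuous (fun p : G × A => a p.1 p.2) := by
    refine Continuous.subtype_mk (Continuous.subtype_mk ?_ _) _
    exact hact.comp (continuous_fst.prodMk
      (continuous_subtype_val.comp (continuous_subtype_val.comp continuous_snd)))
  obtain ⟨B, hB, hAB, b, hb, -, -, hext⟩ := H G U A a ha
    (by
      intro x
      apply Subtype.ext; apply Subtype.ext
      funext n
      simp [a, act])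
    (by
      intro g h x
      apply Subtype.ext; apply Subtype.ext
      funext n
      have : Multiplicative.toAdd (g * h) n
          = Multiplicative.toAdd g n + Multiplicative.toAdd h n := rfl
      simp only [a, act]
      rw [this, Real.exp_add, mul_assoc])
  have hupd : ∀ y : Y, Filter.Tendsto (fun k => Function.update y k 0) Filter.atTop (nhds y) := by
    intro y
    rw [tendsto_pi_nhds]
    intro n
    refine tendsto_const_nhds.congr' ?_
    filter_upwards [Filter.eventually_gt_atTop n] with k hk
    rw [Function.update_of_ne hk.ne]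
  have hAd : Dense A := by
    have h1 : Dense {y : Y | ∃ n, y n = 0} := by
      intro y
      refine mem_closure_of_tendsto (hupd y) (Filter.Eventually.of_forall fun k => ⟨k, by simp⟩)
    exact h1.preimage hU.isOpenMap_subtype_val
  have hBres : B ∈ residual U := residual_of_dense_Gδ hB (hAd.mono hAB)
  have hO : ∀ n : ℕ, {x : U | (x : Y) n ≠ 0} ∈ residual U := by
    intro n
    refine residual_of_dense_open ?_ ?_
    · exact isOpen_ne_fun ((continuous_apply n).comp continuous_subtype_val) continuous_const
    · have h1 : Dense {y : Y | y n ≠ 0} :=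
        (dense_compl_singleton (0 : ℝ)).preimage (isOpenMap_eval n)
      exact h1.preimage hU.isOpenMap_subtype_val
  have hO' : (⋂ n : ℕ, {x : U | (x : Y) n ≠ 0}) ∈ residual U := countable_iInter_mem.2 hO
  have : Nonempty U := ⟨⟨0, hzero 0 ⟨0, rfl⟩⟩⟩
  obtain ⟨y, hyB, hyO⟩ := (dense_of_mem_residual (Filter.inter_mem hBres hO')).nonempty
  have hy : ∀ n, (y : Y) n ≠ 0 := fun n => Set.mem_iInter.1 hyO n
  let g : G := Multiplicative.ofAdd fun n => - Real.log |(y : Y) n|
  let z : ℕ → U := fun k => ⟨Function.update (y : Y) k 0, hzero _ ⟨k, by simp⟩⟩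
  have hzA : ∀ k, z k ∈ A := fun k => ⟨k, by simp [z]⟩
  let w : ℕ → B := fun k => ⟨z k, hAB (hzA k)⟩
  have hw : Filter.Tendsto w Filter.atTop (nhds ⟨y, hyB⟩) := by
    rw [tendsto_subtype_rng, tendsto_subtype_rng]
    exact hupd y
  have hbg : Continuous (fun x : B => (((b g x : B) : U) : Y)) :=
    continuous_subtype_val.comp (continuous_subtype_val.comp
      (hb.comp (continuous_const.prodMk continuous_id)))
  have h1 := (hbg.tendsto _).comp hw
  have h2 : Filter.Tendsto (fun k => act g (Function.update (y : Y) k 0)) Filter.atTop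
      (nhds (act g y)) :=
    ((hact.comp (continuous_const.prodMk continuous_id)).tendsto _).comp (hupd y)
  have h3 : ((fun x : B => (((b g x : B) : U) : Y)) ∘ w)
      = fun k => act g (Function.update (y : Y) k 0) := by
    funext k
    have := hext g (w k) (hzA k)
    simp only [Function.comp]
    rw [this]
  rw [h3] at h1
  have h4 := tendsto_nhds_unique h1 h2
  have h5 := ((b g ⟨y, hyB⟩ : B) : U).2
  apply h5
  intro n
  rw [h4]
  have hpos : 0 < |(y : Y) n| := abs_pos.2 (hy n)
  simp only [act, g, toAdd_ofAdd, abs_mul, Real.abs_exp]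
  rw [Real.exp_neg, Real.exp_log hpos]
  exact inv_mul_cancel₀ hpos.ne'

end Pool.Agent.S15054
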