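import Pool.Statements.S15079
import Pool.Agent.H42.Cube

set_option autoImplicit false
open Pool Pool.MP_95c9ea_lc

namespace Pool.Agent.S15079

/-- For every singular cardinal κ there is a 2-coloring of triples of ordinals below κ⁺ such that no three subsets of κ⁺, each of order type κ, span a product on which the coloring is constant. -/
theorem result :
    ∀ κ : Cardinal.{0}, Cardinal.aleph0 ≤ κ → ¬ κ.IsRegular →
      ∃ c : Ordinal.{0} → Ordinal.{0} → Ordinal.{0} → Fin 2,
        ∀ H I J : Set Ordinal.{0},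
          H ⊆ Set.Iio (Order.succ κ).ord →
          I ⊆ Set.Iio (Order.succ κ).ord →
          J ⊆ Set.Iio (Order.succ κ).ord →
          Nonempty (↥H ≃o ↥(Set.Iio κ.ord)) →
          Nonempty (↥I ≃o ↥(Set.Iio κ.ord)) →
          Nonempty (↥J ≃o ↥(Set.Iio κ.ord)) →
          ¬ ∃ i : Fin 2, ∀ a ∈ H, ∀ b ∈ I, ∀ d ∈ J, c a b d = i := by
  classical
  intro κ hκ _
  obtain ⟨c, hc⟩ := Pool.Agent.H42.Cube.cube hκ
  let e := (Ordinal.ToType.mk (o := (Order.succ κ).ord))
  have big : ∀ H : Set Ordinal.{0}, H ⊆ Set.Iio (Order.succ κ).ord →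
      Nonempty (↥H ≃o ↥(Set.Iio κ.ord)) →
      κ ≤ Cardinal.mk {x : (Order.succ κ).ord.ToType | (e.symm x).1 ∈ H} := by
    rintro H hH ⟨f⟩
    have h1 : Function.Injective fun y : κ.ord.ToType =>
        (⟨e ⟨f.symm (Ordinal.ToType.mk.symm y), hH (f.symm _).2⟩, by
          simp⟩ : {x : (Order.succ κ).ord.ToType | (e.symm x).1 ∈ H}) := by
      intro a b h
      have h2 := congrArg Subtype.val (e.injective (congrArg Subtype.val h))
      exact Ordinal.ToType.mk.symm.injective (f.symm.injective (Subtype.ext h2))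
    exact (Cardinal.mk_ord_toType κ).ge.trans (Cardinal.mk_le_of_injective h1)
  refine ⟨fun a b d => if h : a < (Order.succ κ).ord ∧ b < (Order.succ κ).ord ∧
    d < (Order.succ κ).ord then
      (if c (e ⟨a, h.1⟩) (e ⟨b, h.2.1⟩) (e ⟨d, h.2.2⟩) then 1 else 0) else 0, ?_⟩
  rintro H I J h1 h2 h3 k1 k2 k3 ⟨i, hi⟩
  obtain ⟨x, hx, y, hy, z, hz, a⟩ := hc _ _ _ (big H h1 k1) (big I h2 k2) (big J h3 k3) true
  obtain ⟨x', hx', y', hy', z', hz', b⟩ := hc _ _ _ (big H h1 k1) (big I h2 k2) (big J h3 k3) false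
  have a' := hi _ hx _ hy _ hz
  have b' := hi _ hx' _ hy' _ hz'
  beta_reduce at a' b'
  rw [dif_pos ⟨(e.symm x).2, (e.symm y).2, (e.symm z).2⟩] at a'
  rw [dif_pos ⟨(e.symm x').2, (e.symm y').2, (e.symm z').2⟩] at b'
  change (if c (e (e.symm x)) (e (e.symm y)) (e (e.symm z)) then 1 else 0) = i at a'
  change (if c (e (e.symm x')) (e (e.symm y')) (e (e.symm z')) then 1 else 0) = i at b'
  simp only [OrderIso.apply_symm_apply, a, b] at a' b'
  exact absurd (a'.trans b'.symm) (by decide)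

end Pool.Agent.S15079
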