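import Pool.Statements.S15106

set_option autoImplicit false
open Pool Pool.MP_9c356a_lc

namespace Pool.Agent.S15106

/-- The negation of the preceding statement: For every D0L system over an n-letter alphabet, words w_m = h^m(w): if eventually w_m = w_{m-i_1}…w_{m-i_k} for some nonempty list of positive i_j, then such a formula exists with max i_j ≤ n!, and conversely. -/
theorem result :
    ¬ (∀ (n : ℕ) (h : Fin n → List (Fin n)) (w : List (Fin n)),
    (∃ d : ℕ, ∃ L : List ℕ, ∃ N : ℕ, L ≠ [] ∧ (∀ i ∈ L, 0 < i) ∧ L.foldr max 0 = d ∧ d ≤ N ∧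
        ∀ m : ℕ, N ≤ m →
          (fun u : List (Fin n) => u.flatMap h)^[m] w =
            (L.map (fun i => (fun u : List (Fin n) => u.flatMap h)^[m - i] w)).flatten) ↔
    (∃ d : ℕ, d ≤ n.factorial ∧ ∃ L : List ℕ, ∃ N : ℕ, L ≠ [] ∧ (∀ i ∈ L, 0 < i) ∧
        L.foldr max 0 = d ∧ d ≤ N ∧
        ∀ m : ℕ, N ≤ m →
          (fun u : List (Fin n) => u.flatMap h)^[m] w =
            (L.map (fun i => (fun u : List (Fin n) => u.flatMap h)^[m - i] w)).flatten)) := by
  intro H
  let h : Fin 2 → List (Fin 2) := ![[1], [0, 1, 1]]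
  have hinj : ∀ u v : List (Fin 2), u.flatMap h = v.flatMap h → u = v := by
    intro u
    induction u with
    | nil =>
      rintro (_ | ⟨b, v⟩) hv
      · rfl
      · fin_cases b <;> simp [h] at hv
    | cons a u ih =>
      rintro (_ | ⟨b, v⟩) hv
      · fin_cases a <;> simp [h] at hv
      · fin_cases a <;> fin_cases b <;> simp [h] at hv <;> simp [ih v hv]
  have hstep : ∀ (L : List ℕ) (m : ℕ), (∀ i ∈ L, i ≤ m) →
      (L.map (fun i => (fun u : List (Fin 2) => u.flatMap h)^[m + 1 - i] [0, 1])).flatten =
      ((L.map (fun i => (fun u : List (Fin 2) => u.flatMap h)^[m - i] [0, 1])).flatten).flatMap h := by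
    intro L m
    induction L with
    | nil => simp
    | cons i L ih =>
      intro hL
      rw [List.map_cons, List.map_cons, List.flatten_cons, List.flatten_cons, List.flatMap_append,
        ih fun j hj => hL j (List.mem_cons_of_mem _ hj),
        Nat.sub_add_comm (hL i List.mem_cons_self), Function.iterate_succ_apply']
  obtain ⟨d, hd, L, N, -, h2, h3, -, h5⟩ := (H 2 h [0, 1]).1
    ⟨3, [2, 3, 2, 2, 1], 3, by simp, by simp, by simp, le_rfl, fun m hm => by
      induction m, hm using Nat.le_induction with
      | base => decide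
      | succ m hm ih =>
        rw [hstep _ _ (by simp; omega), ← ih, Function.iterate_succ_apply']⟩
  have h6 : ∀ i ∈ L, i ≤ 2 := fun i hi =>
    (List.le_max_of_le' 0 hi le_rfl).trans (h3 ▸ hd)
  have h7 : ∀ k, (fun u : List (Fin 2) => u.flatMap h)^[2 + k] [0, 1] =
      (L.map (fun i => (fun u : List (Fin 2) => u.flatMap h)^[2 + k - i] [0, 1])).flatten →
      (fun u : List (Fin 2) => u.flatMap h)^[2] [0, 1] =
      (L.map (fun i => (fun u : List (Fin 2) => u.flatMap h)^[2 - i] [0, 1])).flatten := by
    intro k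
    induction k with
    | zero => exact id
    | succ k ih =>
      intro h8
      rw [← add_assoc, hstep _ _ fun i hi => (h6 i hi).trans (by omega),
        Function.iterate_succ_apply'] at h8
      exact ih (hinj _ _ h8)
  have h8 := h7 N (h5 _ (by omega))
  have h9 : ∀ i ∈ L, i = 1 ∨ i = 2 := fun i hi => by
    have := h2 i hi
    have := h6 i hi
    omega
  rcases L with _ | ⟨i, _ | ⟨j, L⟩⟩
  · simp [h] at h8
  · rcases h9 i (by simp) with rfl | rfl <;> simp [h] at h8
  · rcases h9 i (by simp) with rfl | rfl <;> rcases h9 j (by simp) with rfl | rfl <;>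
      simp [h] at h8

end Pool.Agent.S15106
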