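import Pool.Statements.S15122
import Pool.Agent.H62.WRRA3

set_option autoImplicit false
open Pool Pool.MP_9e3e1a_lc

namespace Pool.Agent.S15122

/-- The negation of the preceding statement: There is n such that any Boolean algebra with composition, converse and identity whose n-generated subalgebras are all weakly representable relation algebras is itself one, i.e. wRRA has an n-variable equational basis. -/
theorem result :
    ¬ (∃ n : ℕ, ∀ (A : Type) [BooleanAlgebra A] (c : A → A → A) (v : A → A) (e : A)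
      (W : Set A → Prop),
      (∀ S : Set A, W S ↔
        ((∀ x ∈ S, ∀ y ∈ S, ∀ z ∈ S,
            c (c x y) z = c x (c y z) ∧
            c (x ⊔ y) z = c x z ⊔ c y z ∧
            c x e = x ∧
            v (v x) = x ∧
            v (x ⊔ y) = v x ⊔ v y ∧
            v (c x y) = c (v y) (v x) ∧
            c (v x) (c x y)ᶜ ≤ yᶜ) ∧
         ∃ (U : Type) (h : A → Set (U × U)),
            Set.InjOn h S ∧ h ⊥ = ∅ ∧ h e = {p : U × U | p.1 = p.2} ∧
            ∀ x ∈ S, ∀ y ∈ S,
              h (x ⊓ y) = h x ∩ h y ∧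
              h (c x y) = {p : U × U | ∃ w : U, (p.1, w) ∈ h x ∧ (w, p.2) ∈ h y} ∧
              h (v x) = {p : U × U | (p.2, p.1) ∈ h x})) →
      (∀ g : Fin n → A,
        W {a : A | ∀ T : Set A, Set.range g ⊆ T →
          (∀ x ∈ T, ∀ y ∈ T, x ⊔ y ∈ T ∧ xᶜ ∈ T ∧ c x y ∈ T ∧ v x ∈ T) →
          e ∈ T → a ∈ T}) →
      W Set.univ) := by
  classical
  rintro ⟨n, H⟩
  obtain ⟨-, U, h, h1, h2, -, h3⟩ := H _ (H62.WRRA.cc (I := Option (Fin n → H62.WRRA.Srt → H62.WRRA.Srt → Prop)))
    H62.WRRA.vv H62.WRRA.ee _ (fun _ => Iff.rfl) fun g => by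
      obtain ⟨i, j, hij, hg⟩ := H62.WRRA.twins g
      exact H62.WRRA.good hij fun a ha => ha _ (Set.range_subset_iff.mpr hg) (fun x hx y hy =>
        ⟨fun a => or_congr (hx a) (hy a), fun a => not_congr (hx a), H62.WRRA.B_cc hx hy, H62.WRRA.B_vv hx⟩)
        fun a => by cases a <;> simp [H62.WRRA.ee, H62.WRRA.pm]
  exact H62.WRRA.bad h (Set.injOn_univ.mp h1) h2 fun x y => h3 x trivial y trivial

end Pool.Agent.S15122
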