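import Pool.Statements.S15156
import Pool.Agent.H62.Darji

set_option autoImplicit false
open Pool Pool.MP_a4a5b6_lc

namespace Pool.Agent.S15156

/-- The negation of the preceding statement: Every uncountable Polish group is the union of a meager set and a Haar null set, i.e. a set inside a Borel set C with some Borel probability measure giving every two-sided translate gCh measure zero. -/
theorem result :
    ¬ (∀ (G : Type) [Group G] [TopologicalSpace G] [IsTopologicalGroup G] [PolishSpace G]
      [MeasurableSpace G] [BorelSpace G],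
      Uncountable G →
        ∃ A B : Set G, A ∪ B = Set.univ ∧ IsMeagre A ∧
          ∃ C : Set G, MeasurableSet C ∧ B ⊆ C ∧
            ∃ μ : MeasureTheory.Measure G, MeasureTheory.IsProbabilityMeasure μ ∧
              ∀ g h : G, μ ((fun x => g * x * h) '' C) = 0) := by
  intro h
  let : MeasurableSpace Pool.Agent.H62.Darji.GG := borel _
  have : BorelSpace Pool.Agent.H62.Darji.GG := ⟨rfl⟩
  obtain ⟨A, B, h1, h2, C, h3, h4, μ, h5, h6⟩ := h Pool.Agent.H62.Darji.GG inferInstance
  obtain ⟨K, -, hK, hK'⟩ := (MeasurableSet.univ).exists_lt_isCompact (μ := μ) (r := 0) (by simp)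
  obtain ⟨g, k, hg⟩ := Pool.Agent.H62.Darji.catcher hK h2
  refine hK'.ne' (MeasureTheory.measure_mono_null (fun x hx => ?_) (h6 g⁻¹ k))
  exact ⟨g * x * k⁻¹, h4 (((h1 ▸ Set.mem_univ _ : _ ∈ A ∪ B)).resolve_left (hg x hx)), by simp [mul_assoc]⟩

end Pool.Agent.S15156
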