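import Pool.Statements.S15167
import Pool.Agent.H34.TameD

set_option autoImplicit false
open Pool Pool.MP_a5f47e_lc

namespace Pool.Agent.S15167

/-- There is a non-archimedean abelian Polish group U, all of whose continuous actions on Polish spaces have Borel orbit relations, such that every non-archimedean abelian Polish group with the same property embeds into U as a topological group. -/
theorem result :
    ∃ (U : Type) (_ : CommGroup U) (_ : TopologicalSpace U) (_ : NonarchimedeanGroup U)
      (_ : PolishSpace U),
      (∀ (X : Type) [TopologicalSpace X] [PolishSpace X] [MulAction U X] [ContinuousSMul U X],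
        @MeasurableSet (X × X) (borel (X × X)) {p : X × X | ∃ g : U, g • p.1 = p.2}) ∧
      ∀ (G : Type) [CommGroup G] [TopologicalSpace G] [NonarchimedeanGroup G] [PolishSpace G],
        (∀ (X : Type) [TopologicalSpace X] [PolishSpace X] [MulAction G X] [ContinuousSMul G X],
          @MeasurableSet (X × X) (borel (X × X)) {p : X × X | ∃ g : G, g • p.1 = p.2}) →
        ∃ f : G →* U, Topology.IsEmbedding (f : G → U) := by
  refine ⟨Multiplicative (∀ n, Pool.Agent.H34.Tame.H n), inferInstance, inferInstance,
    ⟨fun V hV => (Pool.Agent.H34.Tame.chainW.base V hV).elim fun k q =>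
      ⟨⟨(Pool.Agent.H34.Tame.W k).toSubgroup, Pool.Agent.H34.Tame.chainW.op k⟩, q⟩⟩,
    inferInstanceAs (PolishSpace (∀ n, Pool.Agent.H34.Tame.H n)), fun X _ _ _ h => ?_,
    fun G _ _ _ hP ht => ?_⟩
  · letI : AddAction (∀ n, Pool.Agent.H34.Tame.H n) X :=
      { vadd := fun g x => Multiplicative.ofAdd g • x
        zero_vadd := one_smul (Multiplicative (∀ n, Pool.Agent.H34.Tame.H n))
        add_vadd := fun g g' => mul_smul (Multiplicative.ofAdd g) (Multiplicative.ofAdd g') }
    haveI : ContinuousVAdd (∀ n, Pool.Agent.H34.Tame.H n) X := ⟨h.continuous_smul⟩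
    exact Pool.Agent.H34.Tame.tameU X
  · haveI : PolishSpace (Additive G) := hP
    haveI : NonarchimedeanAddGroup (Additive G) := ⟨fun V hV =>
      (NonarchimedeanGroup.is_nonarchimedean (G := G) V hV).elim fun O q =>
        ⟨⟨O.toSubgroup.toAddSubgroup, O.isOpen⟩, q⟩⟩
    obtain ⟨φ, hφ⟩ := Pool.Agent.H34.Tame.embed (G := Additive G) fun X _ _ _ h => by
      letI : MulAction G X :=
        { smul := fun g x => Additive.ofMul g +ᵥ x
          one_smul := zero_vadd (Additive G)
          mul_smul := fun g g' => add_vadd (Additive.ofMul g) (Additive.ofMul g') }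
      haveI : ContinuousSMul G X := ⟨h.continuous_vadd⟩
      exact ht X
    exact ⟨MonoidHom.mk' (fun g => Multiplicative.ofAdd (φ (Additive.ofMul g)))
      fun a b => map_add φ (Additive.ofMul a) (Additive.ofMul b), hφ.isEmbedding⟩

end Pool.Agent.S15167
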