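import Pool.Statements.S15176
import Pool.Agent.H15.Syn5

set_option autoImplicit false
open Pool Pool.MP_a6df80_lc

namespace Pool.Agent.S15176

/-- The negation of the preceding statement: For every uncountable set and every permutation group on it: the group is synchronizing (each non-injective map together with the group generates a monoid collapsing any two points) iff it acts transitively on 2-element subsets. -/
theorem result :
    ¬ (∀ (Ω : Type), Uncountable Ω → ∀ G : Subgroup (Equiv.Perm Ω),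
      ((∀ f : Function.End Ω, ¬ Function.Injective (f : Ω → Ω) →
          ∀ v w : Ω, ∃ h ∈ Submonoid.closure
              ({f} ∪ {k : Function.End Ω | ∃ g ∈ G, k = ((g : Equiv.Perm Ω) : Ω → Ω)}),
            (h : Ω → Ω) v = (h : Ω → Ω) w) ↔
       (∀ a b c d : Ω, a ≠ b → c ≠ d →
          ∃ g ∈ G, (g : Ω → Ω) '' {a, b} = {c, d}))) := by
  intro H
  obtain ⟨J, _, ⟨Q⟩⟩ := H15.Syn.exists_col
  let K := H15.Syn.KK J
  have hU : Uncountable K := by
    have := Q.uncountable
    exact H15.Syn.xx_inj.uncountable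
  have c1 : Q.chiK 1 = 0 := by
    have := Q.chiK_mul (one_ne_zero (α := K)) one_ne_zero
    rw [mul_one] at this
    linear_combination -this
  have cneg : ∀ z : K, z ≠ 0 → Q.chiK (-z) = Q.chiK z := fun z hz => by
    rw [← neg_one_mul, Q.chiK_mul (by simp) hz, Q.chiK_neg_one, zero_add]
  have cinv : ∀ z : K, z ≠ 0 → Q.chiK z⁻¹ = Q.chiK z := fun z hz => by
    have := Q.chiK_mul hz (inv_ne_zero hz)
    rw [mul_inv_cancel₀ hz, c1] at this
    revert this
    generalize Q.chiK z = a, Q.chiK z⁻¹ = b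
    revert a b; decide
  let G : Subgroup (Equiv.Perm K) :=
    { carrier := {g | ∃ a b : K, a ≠ 0 ∧ Q.chiK a = 0 ∧ ∀ z, g z = a * z + b}
      one_mem' := ⟨1, 0, one_ne_zero, c1, fun z => by simp⟩
      mul_mem' := by
        rintro g g' ⟨a, b, h1, h2, h3⟩ ⟨a', b', h1', h2', h3'⟩
        refine ⟨a * a', a * b' + b, mul_ne_zero h1 h1', by rw [Q.chiK_mul h1 h1', h2, h2', add_zero],
          fun z => ?_⟩
        rw [Equiv.Perm.mul_apply, h3, h3']; ring
      inv_mem' := by
        rintro g ⟨a, b, h1, h2, h3⟩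
        refine ⟨a⁻¹, -(a⁻¹ * b), inv_ne_zero h1, by rw [cinv a h1, h2], fun z => ?_⟩
        rw [Equiv.Perm.inv_eq_iff_eq, h3]
        linear_combination (b - z) * mul_inv_cancel₀ h1 }
  have tr : ∀ v w p q : K, v ≠ w → p ≠ q → Q.chiK (p - q) = Q.chiK (v - w) →
      ∃ g ∈ G, g v = p ∧ g w = q := by
    intro v w p q h1 h2 h3
    have n1 := sub_ne_zero.2 h1
    have n2 := sub_ne_zero.2 h2
    have n3 : (p - q) * (v - w)⁻¹ ≠ 0 := mul_ne_zero n2 (inv_ne_zero n1)
    refine ⟨(Equiv.mulLeft₀ _ n3).trans (Equiv.addRight (q - (p - q) * (v - w)⁻¹ * w)),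
      ⟨_, _, n3, ?_, fun z => rfl⟩, ?_, ?_⟩
    · rw [Q.chiK_mul n2 (inv_ne_zero n1), cinv _ n1, h3]
      exact CharTwo.add_self_eq_zero _
    · change (p - q) * (v - w)⁻¹ * v + (q - (p - q) * (v - w)⁻¹ * w) = p
      linear_combination (p - q) * mul_inv_cancel₀ n1
    · change (p - q) * (v - w)⁻¹ * w + (q - (p - q) * (v - w)⁻¹ * w) = q
      ring
  obtain ⟨z, hz, hz1⟩ := Q.nontriv
  obtain ⟨g, ⟨a, b, h1, h2, h3⟩, hg⟩ := (H K hU G).1 (by
    intro f hf v w
    by_contra hc
    push Not at hc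
    set M := Submonoid.closure ({f} ∪ {k : Function.End K | ∃ g ∈ G, k = ((g : Equiv.Perm K) : K → K)})
    have hvw : v ≠ w := hc 1 M.one_mem
    have fM : f ∈ M := Submonoid.subset_closure (Or.inl rfl)
    have mv : ∀ v w p q : K, (∀ h ∈ M, h v ≠ h w) → p ≠ q → Q.chiK (p - q) = Q.chiK (v - w) →
        ∀ h ∈ M, h p ≠ h q := by
      intro v w p q k1 k2 k3 h hh
      obtain ⟨g, hg, rfl, rfl⟩ := tr v w p q (k1 1 M.one_mem) k2 k3
      let g' : Function.End K := (g : K → K)
      exact k1 (h * g') (M.mul_mem hh (Submonoid.subset_closure (Or.inr ⟨g, hg, rfl⟩)))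
    refine hf ?_
    by_cases c : ∃ p q : K, (∀ h ∈ M, h p ≠ h q) ∧ Q.chiK (p - q) ≠ Q.chiK (v - w)
    · obtain ⟨p, q, k1, k2⟩ := c
      intro x y hxy
      by_contra hne
      by_cases c' : Q.chiK (x - y) = Q.chiK (v - w)
      · exact mv v w x y hc hne c' f fM hxy
      · refine mv p q x y k1 hne ?_ f fM hxy
        revert k2 c'
        generalize Q.chiK (p - q) = a, Q.chiK (v - w) = b, Q.chiK (x - y) = c
        revert a b c; decide
    · push Not at c
      refine H15.Syn.Col.inj (Q := Q) (ε := Q.chiK (v - w)) fun p q k1 k2 => ?_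
      have := mv v w p q hc k1 k2
      exact ⟨this f fM, c _ _ fun h hh => this (h * f) (M.mul_mem hh fM)⟩) 1 0 z 0 one_ne_zero hz
  rw [Set.image_pair, h3, h3, Set.pair_eq_pair_iff] at hg
  rcases hg with ⟨k1, k2⟩ | ⟨k1, k2⟩
  · have : z = a := by linear_combination k2 - k1
    rw [this, h2] at hz1
    exact zero_ne_one hz1
  · have : z = -a := by linear_combination k1 - k2
    rw [this, cneg a h1, h2] at hz1
    exact zero_ne_one hz1

end Pool.Agent.S15176
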