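import Pool.Statements.S15186
import Pool.Agent.H39.JDP2

set_option autoImplicit false
open Pool Pool.MP_a8f5d0_lc

namespace Pool.Agent.S15186

/-- The negation of the preceding statement: For each ε,α,β in (0,1) there is a supply s such that for all n, m and supplies ≥ s, some ε-jointly private mechanism on [0,1]-valued gross-substitute profiles always outputs feasible allocations with welfare ≥ OPT − αn with probability ≥ 1−β. -/
theorem result :
    ¬ (∀ ε α β : ℝ, 0 < ε → ε < 1 → 0 < α → α < 1 → 0 < β → β < 1 →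
  ∃ s : ℕ, ∀ n m : ℕ, ∀ supply : Fin m → ℕ, (∀ j, s ≤ supply j) →
  ∃ M : (Fin n → Finset (Fin m) → ℝ) → PMF (Fin n → Finset (Fin m)),
    (∀ v : Fin n → Finset (Fin m) → ℝ,
      (∀ i, (∀ S, 0 ≤ v i S ∧ v i S ≤ 1) ∧
        ∀ p q : Fin m → ℝ, p ≤ q → ∀ S : Finset (Fin m),
          (∀ T : Finset (Fin m), v i T - ∑ j ∈ T, p j ≤ v i S - ∑ j ∈ S, p j) →
          ∃ T : Finset (Fin m),
            (∀ U : Finset (Fin m), v i U - ∑ j ∈ U, q j ≤ v i T - ∑ j ∈ T, q j) ∧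
            ∀ j ∈ S, q j = p j → j ∈ T) →
      (∀ ω ∈ (M v).support, ∀ j : Fin m,
          (Finset.univ.filter (fun k : Fin n => j ∈ ω k)).card ≤ supply j) ∧
      (M v).toOuterMeasure {ω | ∀ ω' : Fin n → Finset (Fin m),
          (∀ j : Fin m, (Finset.univ.filter (fun k : Fin n => j ∈ ω' k)).card ≤ supply j) →
          ∑ k, v k (ω' k) - α * (n : ℝ) ≤ ∑ k, v k (ω k)} ≥ ENNReal.ofReal (1 - β)) ∧
    (∀ v : Fin n → Finset (Fin m) → ℝ,
      (∀ i, (∀ S, 0 ≤ v i S ∧ v i S ≤ 1) ∧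
        ∀ p q : Fin m → ℝ, p ≤ q → ∀ S : Finset (Fin m),
          (∀ T : Finset (Fin m), v i T - ∑ j ∈ T, p j ≤ v i S - ∑ j ∈ S, p j) →
          ∃ T : Finset (Fin m),
            (∀ U : Finset (Fin m), v i U - ∑ j ∈ U, q j ≤ v i T - ∑ j ∈ T, q j) ∧
            ∀ j ∈ S, q j = p j → j ∈ T) →
      ∀ (i : Fin n) (w : Finset (Fin m) → ℝ),
      ((∀ S, 0 ≤ w S ∧ w S ≤ 1) ∧
        ∀ p q : Fin m → ℝ, p ≤ q → ∀ S : Finset (Fin m),
          (∀ T : Finset (Fin m), w T - ∑ j ∈ T, p j ≤ w S - ∑ j ∈ S, p j) →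
          ∃ T : Finset (Fin m),
            (∀ U : Finset (Fin m), w U - ∑ j ∈ U, q j ≤ w T - ∑ j ∈ T, q j) ∧
            ∀ j ∈ S, q j = p j → j ∈ T) →
      ∀ S : Set ({k : Fin n // k ≠ i} → Finset (Fin m)),
        (M v).toOuterMeasure {ω | (fun k : {k : Fin n // k ≠ i} => ω k.1) ∈ S} ≤
          ENNReal.ofReal (Real.exp ε) *
            (M (Function.update v i w)).toOuterMeasure
              {ω | (fun k : {k : Fin n // k ≠ i} => ω k.1) ∈ S})) := by
  intro h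
  obtain ⟨s, hs⟩ := h (1 / 9999) (1 / 159984) (1 / 2) (by norm_num) (by norm_num) (by norm_num)
    (by norm_num) (by norm_num) (by norm_num)
  obtain ⟨M, h1, h2⟩ := hs (Fintype.card (Fin (6800 * 3 ^ (s + 1)) × Fin (s + 1) × Fin 9999))
    (6800 * 3 ^ (s + 1)) (fun _ => s + 1) fun _ => Nat.le_succ s
  have add : ∀ (m : ℕ) (w : Fin m → ℝ) (p q : Fin m → ℝ), p ≤ q → ∀ S : Finset (Fin m),
      (∀ T : Finset (Fin m), ∑ j ∈ T, w j - ∑ j ∈ T, p j ≤ ∑ j ∈ S, w j - ∑ j ∈ S, p j) →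
      ∃ T : Finset (Fin m),
        (∀ U : Finset (Fin m), ∑ j ∈ U, w j - ∑ j ∈ U, q j ≤ ∑ j ∈ T, w j - ∑ j ∈ T, q j) ∧
        ∀ j ∈ S, q j = p j → j ∈ T := by
    intro m w p q _ S hS
    refine ⟨Finset.univ.filter fun j => 0 ≤ w j - q j, fun U => ?_, fun j hj h => ?_⟩
    · rw [← Finset.sum_sub_distrib, ← Finset.sum_sub_distrib,
        ← Finset.sum_filter_add_sum_filter_not U fun j => 0 ≤ w j - q j]
      have h3 : ∑ j ∈ U.filter fun j => ¬ 0 ≤ w j - q j, (w j - q j) ≤ 0 :=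
        Finset.sum_nonpos fun j hj => (not_le.1 (Finset.mem_filter.1 hj).2).le
      have h4 : ∑ j ∈ U.filter fun j => 0 ≤ w j - q j, (w j - q j) ≤
          ∑ j ∈ Finset.univ.filter fun j => 0 ≤ w j - q j, (w j - q j) :=
        Finset.sum_le_sum_of_subset_of_nonneg
          (Finset.filter_subset_filter _ (Finset.subset_univ _))
          fun j hj _ => (Finset.mem_filter.1 hj).2
      linarith
    · have h3 := hS (S.erase j)
      rw [← Finset.add_sum_erase S w hj, ← Finset.add_sum_erase S p hj] at h3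
      rw [Finset.mem_filter, h]
      exact ⟨Finset.mem_univ _, by linarith⟩
  refine Pool.Agent.H39.JDP.core (Fintype.equivFin _).symm rfl (Nat.succ_pos s) le_rfl
    (fun w => (∀ S, 0 ≤ w S ∧ w S ≤ 1) ∧ ∀ p q : Fin (6800 * 3 ^ (s + 1)) → ℝ, p ≤ q →
      ∀ S : Finset (Fin (6800 * 3 ^ (s + 1))),
        (∀ T : Finset (Fin (6800 * 3 ^ (s + 1))), w T - ∑ j ∈ T, p j ≤ w S - ∑ j ∈ S, p j) →
        ∃ T : Finset (Fin (6800 * 3 ^ (s + 1))),
          (∀ U : Finset (Fin (6800 * 3 ^ (s + 1))), w U - ∑ j ∈ U, q j ≤ w T - ∑ j ∈ T, q j) ∧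
          ∀ j ∈ S, q j = p j → j ∈ T) ?_ ?_ M (fun v hv => ?_) h2
  · refine ⟨fun S => by norm_num, ?_⟩
    simpa using add _ fun _ => 0
  · intro j
    refine ⟨fun S => by dsimp only; split_ifs <;> norm_num, ?_⟩
    simpa only [Finset.sum_pi_single'] using add _ (Pi.single j 1)
  · obtain ⟨h3, h4⟩ := h1 v hv
    rw [show (1 : ℝ) - 1 / 2 = 1 / 2 by norm_num] at h4
    refine le_trans h4 ?_
    rw [← PMF.toOuterMeasure_apply_inter_support]
    refine (M v).toOuterMeasure.mono ?_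
    rintro ω ⟨h5, h6⟩
    refine ⟨h3 ω h6, fun ω' h7 => le_trans (le_of_eq ?_) (h5 ω' h7)⟩
    simp only [Fintype.card_prod, Fintype.card_fin, Nat.succ_eq_add_one]
    push_cast
    ring

end Pool.Agent.S15186
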