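import Pool.Statements.S15207
import Pool.Agent.H37.Hd7

set_option autoImplicit false
open Pool Pool.MP_ad67df_lc

namespace Pool.Agent.S15207

theorem result :
  ∀ A : ℕ → Bool,
    (∀ f : ℕ → Option (ℕ × List Bool), Computable f →
      (∀ n L : ℕ, {τ : Fin L → Bool | ∃ k : ℕ, ∃ σ : List Bool,
          f k = some (n, σ) ∧ List.IsPrefix σ (List.ofFn τ)}.ncard * 2 ^ n ≤ 2 ^ L) →
      ∃ n : ℕ, ∀ k : ℕ, ∀ σ : List Bool, f k = some (n, σ) →
        List.ofFn (fun i : Fin σ.length => A i.val) ≠ σ) →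
    ∃ B : ℕ → Bool,
      (∀ f : ℕ → Option (ℕ × List Bool), Computable f →
        (∀ n L : ℕ, {τ : Fin L → Bool | ∃ k : ℕ, ∃ σ : List Bool,
            f k = some (n, σ) ∧ List.IsPrefix σ (List.ofFn τ)}.ncard * 2 ^ n ≤ 2 ^ L) →
        ∃ n : ℕ, ∀ k : ℕ, ∀ σ : List Bool, f k = some (n, σ) →
          List.ofFn (fun i : Fin σ.length => B i.val) ≠ σ) ∧
      ¬ TuringReducible (fun n => Part.some (B n).toNat) (fun n => Part.some (A n).toNat) ∧
      ¬ TuringReducible (fun n => Part.some (A n).toNat) (fun n => Part.some (B n).toNat) ∧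
      ((∀ ε : ℝ, 0 < ε → ∃ X : ℕ → Bool,
          TuringReducible (fun n => Part.some (X n).toNat) (fun n => Part.some (A n).toNat) ∧
          TuringReducible (fun n => Part.some (A n).toNat) (fun n => Part.some (X n).toNat) ∧
          ∀ Y : ℕ → Bool,
            TuringReducible (fun n => Part.some (Y n).toNat) (fun n => Part.some (B n).toNat) →
            TuringReducible (fun n => Part.some (B n).toNat) (fun n => Part.some (Y n).toNat) →
            Filter.limsup (fun m : ℕ =>
              ((((Finset.range m).filter (fun k => X k ≠ Y k)).card : ℝ) / (m : ℝ)))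
              Filter.atTop ≥ 1 - ε) ∨
       (∀ ε : ℝ, 0 < ε → ∃ Y : ℕ → Bool,
          TuringReducible (fun n => Part.some (Y n).toNat) (fun n => Part.some (B n).toNat) ∧
          TuringReducible (fun n => Part.some (B n).toNat) (fun n => Part.some (Y n).toNat) ∧
          ∀ X : ℕ → Bool,
            TuringReducible (fun n => Part.some (X n).toNat) (fun n => Part.some (A n).toNat) →
            TuringReducible (fun n => Part.some (A n).toNat) (fun n => Part.some (X n).toNat) →
            Filter.limsup (fun m : ℕ =>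
              ((((Finset.range m).filter (fun k => X k ≠ Y k)).card : ℝ) / (m : ℝ)))
              Filter.atTop ≥ 1 - ε)) := by
  intro A hA
  obtain ⟨B, h1, h2, h3, h4⟩ := H37.Hd.main7 (A := A) fun f hf => hA f hf.1 hf.2
  refine ⟨B, fun f a b => h1 f ⟨a, b⟩, mt H37.Hd.tr_iff.1 h2, mt H37.Hd.tr_iff.1 h3,
    Or.inr fun ε hε => ?_⟩
  obtain ⟨Y, h5, h6, h7⟩ := h4 ε hε
  exact ⟨Y, H37.Hd.tr_iff.2 h5, H37.Hd.tr_iff.2 h6, fun X a _ => h7 X (H37.Hd.tr_iff.1 a)⟩

end Pool.Agent.S15207
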