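import Pool.Statements.S15251
import Pool.Agent.H66.Match

set_option autoImplicit false
open Pool Pool.MP_b29fea_lc

namespace Pool.Agent.S15251

/-- For j≥1, k≥2 and η a limit ordinal, every graph on ω^(η+jk) has an independent set of order type ω^(η+j) or a matching from A to B with A entirely below B and A of order type ω^k. -/
theorem result :
    ∀ j k : ℕ, 0 < j → 2 ≤ k → ∀ η : Ordinal.{0}, Order.IsSuccLimit η →
      ∀ G : SimpleGraph Ordinal.{0},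
        (∃ S : Set Ordinal.{0},
            S ⊆ Set.Iio (Ordinal.omega0 ^ (η + ((j * k : ℕ) : Ordinal.{0}))) ∧
            Nonempty (S ≃o Set.Iio (Ordinal.omega0 ^ (η + ((j : ℕ) : Ordinal.{0})))) ∧
            S.Pairwise (fun x y => ¬ G.Adj x y)) ∨
        (∃ A B : Set Ordinal.{0},
            A ⊆ Set.Iio (Ordinal.omega0 ^ (η + ((j * k : ℕ) : Ordinal.{0}))) ∧
            B ⊆ Set.Iio (Ordinal.omega0 ^ (η + ((j * k : ℕ) : Ordinal.{0}))) ∧
            (∀ a ∈ A, ∀ b ∈ B, a < b) ∧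
            Nonempty (A ≃o Set.Iio (Ordinal.omega0 ^ ((k : ℕ) : Ordinal.{0}))) ∧
            ∃ f : A ≃ B, ∀ a : A, G.Adj (a : Ordinal.{0}) (f a : Ordinal.{0})) := by
  intro j k _ hk η hη G
  obtain ⟨m, rfl⟩ : ∃ m, k = m + 1 := ⟨k - 1, by omega⟩
  by_cases h : Pool.Agent.H66.Match.NM G (Ordinal.omega0 ^ (η + ((j * (m + 1) : ℕ) : Ordinal.{0}))) m
  · left
    obtain ⟨y, h1, h2, h3⟩ := Pool.Agent.H66.Match.Q_fin h hη j 0 (by simp)
    refine ⟨y '' Set.Iio _, ?_, ⟨(Pool.Agent.H66.Match.iso h1).symm⟩, ?_⟩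
    · rintro _ ⟨o, ho, rfl⟩
      simpa using (h2 o ho).2
    · rintro _ ⟨o, ho, rfl⟩ _ ⟨o', ho', rfl⟩ _
      exact h3 o ho o' ho'
  · right
    unfold Pool.Agent.H66.Match.NM at h
    push Not at h
    obtain ⟨a, b, h1, h2, h3, h4, -⟩ := h
    refine ⟨a '' Set.Iio _, b '' Set.Iio _, ?_, ?_, ?_, ⟨(Pool.Agent.H66.Match.iso h1).symm⟩,
      (Pool.Agent.H66.Match.iso h1).symm.toEquiv.trans (h2.bijOn_image.equiv b), fun x => ?_⟩
    · rintro _ ⟨o, ho, rfl⟩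
      exact (h3 o ho o ho).trans (h4 o ho).1
    · rintro _ ⟨o, ho, rfl⟩
      exact (h4 o ho).1
    · rintro _ ⟨o, ho, rfl⟩ _ ⟨o', ho', rfl⟩
      exact h3 o ho o' ho'
    · obtain ⟨o, rfl⟩ := (Pool.Agent.H66.Match.iso h1).surjective x
      simp only [Equiv.trans_apply, RelIso.coe_fn_toEquiv, OrderIso.symm_apply_apply]
      exact (h4 o.1 o.2).2

end Pool.Agent.S15251
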