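import Pool.Statements.S15287
import Pool.Agent.H33.NikE

set_option autoImplicit false
open Pool Pool.MP_bc68d5_lc

namespace Pool.Agent.S15287

/-- If diamond holds, some Boolean algebra has the Nikodym property but has an increasing covering by subsets none of which is a Nikodym set, so it lacks the strong Nikodym property. -/
theorem result :
  (∃ A : Ordinal.{0} → Set Ordinal.{0}, (∀ α, A α ⊆ Set.Iio α) ∧
    ∀ X : Set Ordinal.{0}, X ⊆ Set.Iio (Cardinal.aleph 1).ord →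
      ∀ C : Set Ordinal.{0}, C ⊆ Set.Iio (Cardinal.aleph 1).ord →
        (∀ β < (Cardinal.aleph 1).ord, ∃ γ ∈ C, β ≤ γ) →
        (∀ γ < (Cardinal.aleph 1).ord, 0 < γ →
          (∀ β < γ, ∃ δ ∈ C, β < δ ∧ δ < γ) → γ ∈ C) →
        ∃ α ∈ C, X ∩ Set.Iio α = A α) →
  ∃ (B : Type) (_ : BooleanAlgebra B),
    (∀ μ : ℕ → B → ℝ,
      (∀ n, (∀ a b : B, Disjoint a b → μ n (a ⊔ b) = μ n a + μ n b) ∧
        ∃ K : ℝ, ∀ a, |μ n a| ≤ K) →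
      (∀ a, ∃ K : ℝ, ∀ n, |μ n a| ≤ K) →
      ∃ K : ℝ, ∀ n a, |μ n a| ≤ K) ∧
    ∃ D : ℕ → Set B, Monotone D ∧ (∀ a, ∃ n, a ∈ D n) ∧
      ∀ n, ∃ μ : ℕ → B → ℝ,
        (∀ k, (∀ a b : B, Disjoint a b → μ k (a ⊔ b) = μ k a + μ k b) ∧
          ∃ K : ℝ, ∀ a, |μ k a| ≤ K) ∧
        (∀ a ∈ D n, ∃ K : ℝ, ∀ k, |μ k a| ≤ K) ∧
        ¬ ∃ K : ℝ, ∀ k a, |μ k a| ≤ K := by
  exact fun h => Pool.Agent.H33.NikE.main (Pool.Agent.H33.NikE.ch h)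

end Pool.Agent.S15287
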