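import Pool.Statements.S15339
import Pool.Agent.H83.Cg4

set_option autoImplicit false
open Pool Pool.MP_c89ac5_lc

namespace Pool.Agent.S15339

/-- Every permutation group on ℕ whose set of pairs (σ, σ⁻¹) is a computable Π⁰₁ class is isomorphic, by a group isomorphism that is a homeomorphism for pointwise convergence, to the automorphism group of a computable relational structure on ℕ. -/
theorem result :
    ∀ (G : Subgroup (Equiv.Perm ℕ)) (T : List ℕ → List ℕ → Bool),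
      Computable₂ T →
      (∀ f g : ℕ → ℕ,
          (∀ n : ℕ, T ((List.range n).map f) ((List.range n).map g) = true) ↔
            ∃ σ ∈ G, (⇑σ = f ∧ ⇑σ.symm = g)) →
      ∃ R : ℕ → List ℕ → Bool, Computable₂ R ∧
        ∃ H : Subgroup (Equiv.Perm ℕ),
          (∀ σ : Equiv.Perm ℕ, σ ∈ H ↔ ∀ (i : ℕ) (l : List ℕ), R i (l.map ⇑σ) = R i l) ∧
          ∃ φ : G ≃* H,
            (∀ x : G, ∀ n : ℕ, ∃ m : ℕ, ∀ y : G,
                (∀ k : ℕ, k < m → y.1 k = x.1 k) → (φ y).1 n = (φ x).1 n) ∧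
            (∀ x : H, ∀ n : ℕ, ∃ m : ℕ, ∀ y : H,
                (∀ k : ℕ, k < m → y.1 k = x.1 k) → (φ.symm y).1 n = (φ.symm x).1 n) := by
  intro G T hT hG
  obtain ⟨E, B, hE, hB, hA, h1, h2⟩ := H83.Cg.exists_family (G := G) hG hT
  have hc : Function.Surjective (H83.Cg.dec H83.Cg.Vn) := fun v => ⟨_, H83.Cg.dec_enc v⟩
  let H : Subgroup (Equiv.Perm ℕ) :=
    { carrier := {σ | ∀ i l, H83.Cg.RR E B i (l.map σ) = H83.Cg.RR E B i l}
      one_mem' := fun i l => by simp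
      mul_mem' := fun {a b} ha hb i l => by
        rw [← hb i l, ← ha i (l.map b), List.map_map]; rfl
      inv_mem' := fun {a} ha i l => by
        rw [← ha, List.map_map]; simp }
  have c1 : ∀ σ : H, ∃ g : G, H83.Cg.Good E B σ.1 g.1 := by
    intro σ
    obtain ⟨g, hg⟩ := H83.Cg.good_of_aut σ.2
    refine ⟨⟨g, by_contra fun hn => ?_⟩, hg⟩
    obtain ⟨c, b, h3⟩ := h2 g hn
    obtain ⟨j, j1, -⟩ := hg.2.2 c b
    exact h3 (H83.Cg.le_of_emb hc (hA _ _) (hA _ _) j1.ord.symm.strictMono)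
  have c2 : ∀ g ∈ G, ∃ σ, H83.Cg.Good E B σ g := fun g hg =>
    H83.Cg.exists_good fun c b => H83.Cg.iso hc (hA _ _) (hA _ _) (by
      have := h1 _ (G.inv_mem hg) (c.map g) b
      rw [List.map_map] at this
      simpa using this) (h1 g hg c b)
  have un : ∀ σ σ' g, H83.Cg.Good E B σ g → H83.Cg.Good E B σ' g → σ = σ' :=
    fun σ σ' g h h' => funext fun m => by
      obtain ⟨k, hk⟩ := H83.Cg.good_loc hA m
      exact hk _ _ _ _ h h' fun _ _ => rfl
  choose ψ hψ using c1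
  have c3 : ∀ g : G, ∃ σ : H, ψ σ = g := by
    intro g
    obtain ⟨σ, s1⟩ := c2 _ g.2
    obtain ⟨τ, s2⟩ := c2 _ (G.inv_mem g.2)
    have e1 : τ ∘ σ = id := un _ _ id (by simpa using s1.comp s2) H83.Cg.good_id
    have e2 : σ ∘ τ = id := un _ _ id (by simpa using s2.comp s1) H83.Cg.good_id
    refine ⟨⟨⟨σ, τ, congrFun e1, congrFun e2⟩, fun i l => Bool.eq_iff_iff.2
      ⟨fun h => ?_, s1.fwd⟩⟩, Subtype.ext (Equiv.ext fun n => ?_)⟩
    · have := s2.fwd h
      rw [List.map_map] at this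
      erw [e1, List.map_id] at this
      exact this
    · exact Nat.eq_of_mul_eq_mul_left two_pos (((hψ _).1 n).symm.trans (s1.1 n))
  let ψ' : H →* G := MonoidHom.mk' ψ fun a b => Subtype.ext (Equiv.ext fun n =>
    Nat.eq_of_mul_eq_mul_left two_pos (((hψ _).1 n).symm.trans (by
      show a.1 (b.1 (2 * n)) = 2 * (ψ a).1 ((ψ b).1 n)
      rw [(hψ b).1, (hψ a).1])))
  let e : H ≃* G := MulEquiv.ofBijective ψ' ⟨fun a b h => Subtype.ext (DFunLike.coe_injective
    (un _ _ _ (hψ a) ((show ψ a = ψ b from h) ▸ hψ b))), c3⟩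
  have g1 : ∀ x : G, H83.Cg.Good E B (e.symm x).1 x.1 := fun x => by
    have := hψ (e.symm x)
    rwa [show ψ (e.symm x) = x from e.apply_symm_apply x] at this
  refine ⟨H83.Cg.RR E B, H83.Cg.ci_RR E B hE hB, H, fun _ => Iff.rfl, e.symm, fun x n => ?_,
    fun x n => ⟨2 * n + 1, fun y hy => ?_⟩⟩
  · obtain ⟨k, hk⟩ := H83.Cg.good_loc hA n
    exact ⟨k, fun y hy => hk _ _ _ _ (g1 y) (g1 x) hy⟩
  · exact Nat.eq_of_mul_eq_mul_left two_pos
      (((hψ y).1 n).symm.trans ((hy _ (Nat.lt_succ_self _)).trans ((hψ x).1 n)))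

end Pool.Agent.S15339
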