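import Pool.Statements.S15353
import Pool.Agent.H55.PsiD

set_option autoImplicit false
open Pool Pool.MP_cc69c8_lc

namespace Pool.Agent.S15353

/-- There is an almost disjoint family of infinite subsets of ℕ, of cardinality equal to the dominating number, whose Mrówka–Isbell space Ψ(A) is not selectively (a). -/
theorem result :
  ∃ A : Set (Set ℕ),
    (∀ a ∈ A, a.Infinite) ∧ (∀ a ∈ A, ∀ b ∈ A, a ≠ b → (a ∩ b).Finite) ∧
    (∃ D : Set (ℕ → ℕ), (∀ f : ℕ → ℕ, ∃ g ∈ D, ∀ᶠ n in Filter.atTop, f n ≤ g n) ∧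
        Cardinal.mk D = Cardinal.mk A) ∧
    (∀ D : Set (ℕ → ℕ), (∀ f : ℕ → ℕ, ∃ g ∈ D, ∀ᶠ n in Filter.atTop, f n ≤ g n) →
        Cardinal.mk A ≤ Cardinal.mk D) ∧
    ∀ t : TopologicalSpace (ℕ ⊕ A),
      t = TopologicalSpace.generateFrom
        ({s : Set (ℕ ⊕ A) | ∃ n : ℕ, s = {Sum.inl n}} ∪
         {s : Set (ℕ ⊕ A) | ∃ a : A, ∃ F : Set ℕ, F.Finite ∧
            s = insert (Sum.inr a) (Sum.inl '' ((a : Set ℕ) \ F))}) →
      ¬ (∀ U : ℕ → Set (Set (ℕ ⊕ A)),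
          (∀ n, (∀ u ∈ U n, @IsOpen _ t u) ∧ ⋃₀ U n = Set.univ) →
          ∀ Dn : Set (ℕ ⊕ A), @Dense _ t Dn →
          ∃ F : ℕ → Set (ℕ ⊕ A),
            (∀ n, F n ⊆ Dn ∧ ∀ x, ∃ V : Set (ℕ ⊕ A), @IsOpen _ t V ∧ x ∈ V ∧ V ∩ F n ⊆ {x}) ∧
            ∀ x, ∃ n, ∃ u ∈ U n, x ∈ u ∧ (u ∩ F n).Nonempty) := by
  classical
  obtain ⟨D, hD, hmin⟩ := Pool.Agent.H55.PsiD.exists_min
  have hcard := Pool.Agent.H55.PsiD.AA_card D hD
  refine ⟨Pool.Agent.H55.PsiD.AA D, Pool.Agent.H55.PsiD.AA_inf D, Pool.Agent.H55.PsiD.AA_ad D,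
    ⟨D, hD, hcard⟩, fun D' hD' => hcard ▸ hmin D' hD', ?_⟩
  rintro t rfl h
  have hoc := Pool.Agent.H55.PsiD.open_cofinite (Pool.Agent.H55.PsiD.AA D)
  set A := Pool.Agent.H55.PsiD.AA D with hA
  let Fn : ℕ → Set ℕ → Set ℕ := fun n a =>
    if (a ∩ {m | (Nat.unpair m).1 < n}).Finite then a ∩ {m | (Nat.unpair m).1 < n} else ∅
  have hFn : ∀ n a, (Fn n a).Finite := by
    intro n a
    simp only [Fn]
    split_ifs with h1
    · exact h1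
    · exact Set.finite_empty
  obtain ⟨F, hF1, hF2⟩ := h (fun n => {s : Set (ℕ ⊕ A) | ∃ m : ℕ, s = {Sum.inl m}} ∪
      {s : Set (ℕ ⊕ A) | ∃ a : A, s = insert (Sum.inr a) (Sum.inl '' ((a : Set ℕ) \ Fn n a))})
    (fun n => ⟨by
      rintro u (hu | ⟨a, rfl⟩)
      · exact TopologicalSpace.GenerateOpen.basic _ (Or.inl hu)
      · exact TopologicalSpace.GenerateOpen.basic _ (Or.inr ⟨a, _, hFn n a, rfl⟩), by
      rw [Set.eq_univ_iff_forall]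
      rintro (m | a)
      · exact ⟨_, Or.inl ⟨m, rfl⟩, rfl⟩
      · exact ⟨_, Or.inr ⟨a, rfl⟩, Or.inl rfl⟩⟩) (Set.range Sum.inl) (by
      rw [@dense_iff_inter_open]
      rintro V hV ⟨m | a, hx⟩
      · exact ⟨_, hx, m, rfl⟩
      · obtain ⟨m, hm1, hm2⟩ := ((Pool.Agent.H55.PsiD.AA_inf D a.1 a.2).sdiff (hoc V hV a hx)).nonempty
        refine ⟨Sum.inl m, ?_, m, rfl⟩
        by_contra hc
        exact hm2 ⟨hm1, hc⟩)
  have hb : ∀ n i : ℕ, ∃ B : ℕ, ∀ j, Sum.inl (Nat.pair i j) ∈ F n → j ≤ B := by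
    intro n i
    obtain ⟨V, hV, hx, hVF⟩ := (hF1 n).2 (Sum.inr ⟨Pool.Agent.H55.PsiD.col i, Or.inl ⟨i, rfl⟩⟩)
    obtain ⟨B, hB⟩ := (hoc V hV _ hx).bddAbove
    refine ⟨B, fun j hj => le_trans (Nat.right_le_pair i j) (hB ⟨⟨j, rfl⟩, fun hc => ?_⟩)⟩
    have := hVF ⟨hc, hj⟩
    simp at this
  choose B hB using hb
  obtain ⟨w, hw, hwB⟩ := Pool.Agent.H55.PsiD.WW_dom D hD
    fun m => B (Nat.unpair m).1 (Nat.unpair m).2
  obtain ⟨n, u, hu, hx, y, hy1, hy2⟩ :=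
    hF2 (Sum.inr ⟨Pool.Agent.H55.PsiD.gr w, Or.inr ⟨w, hw, rfl⟩⟩)
  rcases hu with ⟨m, rfl⟩ | ⟨a, rfl⟩
  · simp at hx
  · have ha : a = ⟨Pool.Agent.H55.PsiD.gr w, Or.inr ⟨w, hw, rfl⟩⟩ := by
      simp only [Set.mem_insert_iff, Sum.inr.injEq, Set.mem_image, reduceCtorEq, and_false,
        exists_false, or_false] at hx
      exact hx.symm
    subst ha
    obtain ⟨m', hm'⟩ := (hF1 n).1 hy2
    subst hm'
    rcases hy1 with hy1 | ⟨m, ⟨⟨i, rfl⟩, hm2⟩, hm3⟩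
    · simp at hy1
    · have hm4 : n ≤ i := by
        by_contra hlt
        apply hm2
        simp only [Fn, if_pos (Pool.Agent.H55.PsiD.gr_low w n)]
        exact ⟨⟨i, rfl⟩, by simpa using hlt⟩
      rw [← hm3] at hy2
      have h1 := hB n i _ hy2
      have h2 := hwB (Nat.pair n i)
      simp only [Nat.unpair_pair] at h2
      have h3 := Pool.Agent.H55.PsiD.ht_gt w n i hm4
      omega

end Pool.Agent.S15353
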