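import Pool.Statements.S15359
import Pool.Agent.H37.Lt6

set_option autoImplicit false
open scoped Classical
open Pool Pool.MP_cd40e2_lc

namespace Pool.Agent.S15359

theorem result :
    ∀ ε : ℝ, 0 < ε → ∃ q : ℕ, ∀ n : ℕ, ∃ D : (Fin q → Fin n → Bool) → ℝ,
      (∀ Q, 0 ≤ D Q) ∧ (∑ Q, D Q = 1) ∧
      ∀ f : (Fin n → Bool) → Bool,
        (∀ g : (Fin n → Bool) → Bool,
          (∃ w : Fin n → ℝ, ∃ θ : ℝ, ∀ x : Fin n → Bool,
              g x = decide (θ ≤ ∑ i, w i * (if x i then (1:ℝ) else -1))) →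
          ε ≤ ((Finset.univ.filter (fun x => f x ≠ g x)).card : ℝ) / 2 ^ n) →
        (2:ℝ) / 3 ≤ ∑ Q, D Q *
          (if ∃ w : Fin n → ℝ, ∃ θ : ℝ, ∀ j : Fin q,
              f (Q j) = decide (θ ≤ ∑ i, w i * (if Q j i then (1:ℝ) else -1))
           then (0:ℝ) else 1) := by
  intro ε hε
  obtain ⟨k, H⟩ := H37.Lt.test ε hε
  let e : Fin (2 ^ (k + 1)) ≃ (Fin (k + 1) → Bool) := (Fintype.equivFinOfCardEq (by simp)).symm
  refine ⟨2 ^ (k + 1), fun n => ?_⟩
  let Qf : (Fin n → Fin (k + 1)) × (Fin n → Bool) → Fin (2 ^ (k + 1)) → Fin n → Bool :=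
    fun p j => H37.Lt.pt p.2 p.1 (e j)
  refine ⟨fun Q => Finset.univ.expect fun p => if Qf p = Q then (1 : ℝ) else 0,
    fun Q => H37.Lt.E_nonneg fun p => by positivity, ?_, fun f hf => ?_⟩
  · rw [← H37.Lt.E_sum]
    simp
  · simp only [← H37.Lt.E_mulc]
    rw [← H37.Lt.E_sum]
    simp only [ite_mul, one_mul, zero_mul, Finset.sum_ite_eq, Finset.mem_univ, if_true]
    refine (H (Fin n) f fun h hh => ?_).trans (H37.Lt.E_mono fun p => ?_)
    · refine (hf h hh).trans (le_of_eq ?_)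
      rw [H37.Lt.dst, Fintype.expect_eq_sum_div_card, Finset.sum_boole]
      simp
    · refine le_of_eq (if_congr ⟨?_, ?_⟩ rfl rfl)
      · rintro ⟨w, θ, h⟩
        exact ⟨w, θ, fun j => h (e j)⟩
      · rintro ⟨w, θ, h⟩
        refine ⟨w, θ, fun y => ?_⟩
        have := h (e.symm y)
        simp only [Qf, Equiv.apply_symm_apply] at this
        exact this

end Pool.Agent.S15359
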