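import Pool.Statements.S15376
import Pool.Agent.H66.FreeSub3

set_option autoImplicit false
open FirstOrder FirstOrder.Language
open Pool Pool.MP_cfda27_lc

namespace Pool.Agent.S15376

/-- The negation of the preceding statement: For every field k there is a first-order theory, in the language of k-algebras with a predicate P for a subalgebra, such that for every free unital k-algebra F and unital subalgebra A, A is free iff (F,A) satisfies that theory. -/
theorem result :
    ¬ (∀ (k : Type) [Field k],
    ∃ T : (⟨fun n => {_b : Bool // n = 2} ⊕ {_c : k // n = 0},
            fun n => {_u : Unit // n = 1}⟩ : FirstOrder.Language.{0, 0}).Theory,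
    ∀ (F : Type) [Ring F] [Algebra k F],
      (∃ X : Type, Nonempty (F ≃ₐ[k] FreeAlgebra k X)) →
      ∀ A : Subalgebra k F,
        ((∃ Y : Type, Nonempty (A ≃ₐ[k] FreeAlgebra k Y)) ↔
          ∀ [S : (⟨fun n => {_b : Bool // n = 2} ⊕ {_c : k // n = 0},
                   fun n => {_u : Unit // n = 1}⟩ : FirstOrder.Language.{0, 0}).Structure F],
            S = { funMap := fun {n} f xs =>
                    Sum.elim
                      (fun b : {_b : Bool // n = 2} =>
                        if b.1 then xs (Fin.cast b.2.symm 0) + xs (Fin.cast b.2.symm 1)
                        else xs (Fin.cast b.2.symm 0) * xs (Fin.cast b.2.symm 1))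
                      (fun c : {_c : k // n = 0} => algebraMap k F c.1) f,
                  RelMap := fun {n} _ xs => ∀ i, xs i ∈ A } →
            F ⊨ T)) := by
  intro h
  obtain ⟨T, hT⟩ := h ℚ
  exact Pool.Agent.H66.FreeSub.not_axiom ℚ T hT

end Pool.Agent.S15376
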