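import Pool.Statements.S15389
import Pool.Agent.H30.QdF

set_option autoImplicit false
open scoped Classical
open Pool Pool.MP_d11e37_lc

namespace Pool.Agent.S15389

/-- For 0<δ<1 and p(n) eventually between n^(-δ) and 1/2, some C>0 makes the probability that G(n,p) is defined among finite graphs by a first-order sentence of quantifier depth at most C log n tend to 1. -/
theorem result :
    ∀ δ : ℝ, 0 < δ → δ < 1 →
    ∀ p : ℕ → ℝ, (∀ᶠ n : ℕ in Filter.atTop, (n : ℝ) ^ (-δ) ≤ p n ∧ p n ≤ 1 / 2) →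
    ∃ C : ℝ, 0 < C ∧
      Filter.Tendsto
        (fun n : ℕ =>
          ∑ G ∈ (Finset.univ.filter (fun G : SimpleGraph (Fin n) =>
              ∃ k : ℕ, (k : ℝ) ≤ C * Real.log n ∧
                ∃ φ : FirstOrder.Language.Sentence FirstOrder.Language.graph,
                  (∀ Q : (m : ℕ) → FirstOrder.Language.BoundedFormula FirstOrder.Language.graph Empty m → ℕ → Prop,
                    ((∀ (m k' : ℕ), Q m FirstOrder.Language.BoundedFormula.falsum k') ∧
                     (∀ (m k' : ℕ) (t₁ t₂ : FirstOrder.Language.Term FirstOrder.Language.graph (Empty ⊕ Fin m)),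
                        Q m (FirstOrder.Language.BoundedFormula.equal t₁ t₂) k') ∧
                     (∀ (m k' l : ℕ) (R : FirstOrder.Language.graph.Relations l)
                        (ts : Fin l → FirstOrder.Language.Term FirstOrder.Language.graph (Empty ⊕ Fin m)),
                        Q m (FirstOrder.Language.BoundedFormula.rel R ts) k') ∧
                     (∀ (m k' : ℕ) (ψ χ : FirstOrder.Language.BoundedFormula FirstOrder.Language.graph Empty m),
                        Q m ψ k' → Q m χ k' → Q m (FirstOrder.Language.BoundedFormula.imp ψ χ) k') ∧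
                     (∀ (m k' : ℕ) (ψ : FirstOrder.Language.BoundedFormula FirstOrder.Language.graph Empty (m + 1)),
                        Q (m + 1) ψ k' → Q m (FirstOrder.Language.BoundedFormula.all ψ) (k' + 1)))
                    → Q 0 φ k) ∧
                  ∀ (m : ℕ) (H : SimpleGraph (Fin m)),
                    (@FirstOrder.Language.Sentence.Realize FirstOrder.Language.graph (Fin m) H.structure φ
                      ↔ Nonempty (SimpleGraph.Iso G H)))),
            p n ^ G.edgeSet.ncard * (1 - p n) ^ (n.choose 2 - G.edgeSet.ncard))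
        Filter.atTop (nhds 1) := by
  intro δ δ0 δ1 p hp
  obtain ⟨c₀, c₁, c₂, c1, h⟩ := H30.Qd.bound (γ := (1 - δ) / 2) (by linarith) (by linarith)
  refine ⟨c₁, c1, ?_⟩
  have hl : Filter.Tendsto (fun n : ℕ => Real.log n) Filter.atTop Filter.atTop :=
    Real.tendsto_log_atTop.comp tendsto_natCast_atTop_atTop
  have h0 : Filter.Tendsto (fun n : ℕ => 1 - c₂ / Real.log n) Filter.atTop (nhds 1) := by
    simpa using (tendsto_const_nhds (x := (1 : ℝ))).sub (hl.const_div_atTop c₂)
  have e : ∀ (n : ℕ) (P : SimpleGraph (Fin n) → Prop), ∑ G ∈ Finset.univ.filter P,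
      p n ^ G.edgeSet.ncard * (1 - p n) ^ (n.choose 2 - G.edgeSet.ncard) =
      H30.Qd.PG (p n) (fun ω => P (H30.Qd.gr ω)) := fun n P => by
    simpa using H30.Qd.transfer (p n) P
  have key : ∀ F : (n : ℕ) → SimpleGraph (Fin n) → Prop,
      (∀ (n : ℕ) G (k : ℕ) (φ : FirstOrder.Language.graph.Sentence), (k : ℝ) ≤ c₁ * Real.log n →
        H30.Ld.qd φ ≤ k → (∀ (m : ℕ) (H : SimpleGraph (Fin m)),
          H30.Ld.Sat H φ ↔ Nonempty (SimpleGraph.Iso G H)) → F n G) →
      Filter.Tendsto (fun n : ℕ => ∑ G ∈ Finset.univ.filter (F n),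
        p n ^ G.edgeSet.ncard * (1 - p n) ^ (n.choose 2 - G.edgeSet.ncard))
        Filter.atTop (nhds 1) := by
    intro F hF
    simp only [e]
    suffices hs : ∀ᶠ n : ℕ in Filter.atTop, 1 - c₂ / Real.log n ≤
        H30.Qd.PG (p n) (fun ω => F n (H30.Qd.gr ω)) ∧
        H30.Qd.PG (p n) (fun ω => F n (H30.Qd.gr ω)) ≤ 1 from
      tendsto_of_tendsto_of_tendsto_of_le_of_le' h0 tendsto_const_nhds
        (hs.mono fun n h => h.1) (hs.mono fun n h => h.2)
    filter_upwards [hp, hl.eventually_ge_atTop c₀, Filter.eventually_gt_atTop 0] with n a1 a2 a3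
    have N0 : (0 : ℝ) < n := by exact_mod_cast a3
    have p0 : 0 ≤ p n := (Real.rpow_nonneg N0.le _).trans a1.1
    obtain ⟨k, d, b1, x, b2, b3⟩ := h n (p n) a3 a2 (by
      have e : Real.exp ((1 - δ) / 2 * Real.log n) ^ 2 = (n : ℝ) ^ (-δ) * n := by
        rw [Real.rpow_def_of_pos N0, ← Real.exp_nat_mul]
        nth_rewrite 3 [← Real.exp_log N0]
        rw [← Real.exp_add]; congr 1; push_cast; ring
      rw [e]; exact mul_le_mul_of_nonneg_right a1.1 N0.le) a1.2
    have := H30.Qd.PG_bounds p0 (by linarith [a1.2]) (A := fun ω => F n (H30.Qd.gr ω))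
      (B := fun ω => H30.Qd.Good (H30.Qd.adjR ω) Set.univ
        (Set.range fun c => ({x c} : Set (Fin n))) d) fun ω hω => by
        obtain ⟨φ, f1, f2⟩ := H30.Qd.Good.sentence (H30.Qd.gr ω) x ⟨0, b2⟩ hω
        exact hF n _ _ φ b1 f1 f2
    exact ⟨by linarith [this.1], this.2⟩
  refine key _ fun n G k φ a1 a2 a3 => ?_
  exact ⟨k, a1, φ, fun Q hQ => H30.Qd.qd_Q φ Q hQ.1 hQ.2.1 hQ.2.2.1 hQ.2.2.2.1 hQ.2.2.2.2 k a2,
    a3⟩

end Pool.Agent.S15389
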