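import Pool.Statements.S15401
import Pool.Agent.H39.IdealLimit

set_option autoImplicit false
open Filter Topology
open Pool Pool.MP_d33a1c_lc

namespace Pool.Agent.S15401

/-- For every Polish space X, every proper ideal on ω containing all finite sets that is Π^0_3 in Cantor space, and every sequence in X, the set of limits of subsequences indexed by sets outside the ideal is F_σ. -/
theorem result :
    ∀ (X : Type) [TopologicalSpace X] [PolishSpace X] (I : Set (Set ℕ)),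
      (∀ A ∈ I, ∀ B : Set ℕ, B ⊆ A → B ∈ I) →
      (∀ A ∈ I, ∀ B ∈ I, A ∪ B ∈ I) →
      (∀ A : Set ℕ, A.Finite → A ∈ I) →
      (Set.univ : Set ℕ) ∉ I →
      (∃ C : ℕ → ℕ → Set (ℕ → Bool), (∀ i j, IsClosed (C i j)) ∧
        {f : ℕ → Bool | {n : ℕ | f n = true} ∈ I} = ⋂ i, ⋃ j, C i j) →
      ∀ x : ℕ → X, ∃ D : ℕ → Set X, (∀ j, IsClosed (D j)) ∧
        {ℓ : X | ∃ A : Set ℕ, A ∉ I ∧ Tendsto x (atTop ⊓ 𝓟 A) (𝓝 ℓ)} = ⋃ j, D j := by
  rintro X _ _ I h1 h2 h3 - ⟨C, hC, hI⟩ x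
  have h4 : ∀ i j, ∃ F : ℕ → Set (ℕ → Bool), (∀ k, IsClosed (F k)) ∧ ⋃ k, F k = (C i j)ᶜ := by
    intro i j
    let _ := TopologicalSpace.upgradeIsCompletelyMetrizable (ℕ → Bool)
    obtain ⟨F, hF1, -, hF2, -⟩ := (hC i j).isOpen_compl.exists_iUnion_isClosed
    exact ⟨F, hF1, hF2⟩
  choose F hF1 hF2 using h4
  refine Pool.Agent.H39.IdealLimit.fsigma ⟨h1, h2, h3⟩ F hF1 (fun f => ?_) x
  have h5 : {n | f n = true} ∈ I ↔ f ∈ ⋂ i, ⋃ j, C i j := by rw [← hI]; rfl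
  rw [h5]
  simp only [Set.mem_iInter, Set.mem_iUnion, not_forall, not_exists]
  refine exists_congr fun i => forall_congr' fun j => ?_
  rw [← Set.mem_iUnion, hF2]
  rfl

end Pool.Agent.S15401
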