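import Pool.Statements.S15424
import Pool.Agent.H18.Pac2

set_option autoImplicit false
open Pool Pool.MP_d52dcb_lc

namespace Pool.Agent.S15424
open Pool.Agent.H37 H18.Cod H18.Pac Encodable

/-- The negation of the preceding statement: Every computable scattered linear order (computable domain in ℕ, computable strict order, no copy of ℚ) is isomorphic to the lexicographically ordered isolated paths of some computable, prefix-closed, dead-end-free binary tree all of whose paths are computable. -/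
theorem result :
    ¬ (∀ (D : Set ℕ) (R : ℕ → ℕ → Prop),
    ComputablePred (fun n : ℕ => n ∈ D) →
    ComputablePred (fun p : ℕ × ℕ => R p.1 p.2) →
    (∀ x ∈ D, ¬ R x x) →
    (∀ x ∈ D, ∀ y ∈ D, ∀ z ∈ D, R x y → R y z → R x z) →
    (∀ x ∈ D, ∀ y ∈ D, x ≠ y → R x y ∨ R y x) →
    (¬ ∃ e : ℚ → ℕ, (∀ q, e q ∈ D) ∧ ∀ q r : ℚ, q < r → R (e q) (e r)) →
    ∃ T : Set (List Bool),
      ComputablePred (fun σ : List Bool => σ ∈ T) ∧
      (∀ σ τ : List Bool, σ ++ τ ∈ T → σ ∈ T) ∧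
      (∀ σ ∈ T, ∃ b : Bool, σ ++ [b] ∈ T) ∧
      (∀ f : ℕ → Bool, (∀ n : ℕ, List.ofFn (fun i : Fin n => f i) ∈ T) → Computable f) ∧
      ∃ φ : ℕ → ℕ → Bool,
        (∀ x ∈ D,
          (∀ n : ℕ, List.ofFn (fun i : Fin n => φ x i) ∈ T) ∧
          ∃ σ : List Bool, List.ofFn (fun i : Fin σ.length => φ x i) = σ ∧
            ∀ h : ℕ → Bool, (∀ n : ℕ, List.ofFn (fun i : Fin n => h i) ∈ T) →
              List.ofFn (fun i : Fin σ.length => h i) = σ → h = φ x) ∧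
        (∀ g : ℕ → Bool,
          ((∀ n : ℕ, List.ofFn (fun i : Fin n => g i) ∈ T) ∧
           ∃ σ : List Bool, List.ofFn (fun i : Fin σ.length => g i) = σ ∧
             ∀ h : ℕ → Bool, (∀ n : ℕ, List.ofFn (fun i : Fin n => h i) ∈ T) →
               List.ofFn (fun i : Fin σ.length => h i) = σ → h = g) →
          ∃ x ∈ D, φ x = g) ∧
        (∀ x ∈ D, ∀ y ∈ D,
          (R x y ↔ ∃ n : ℕ, (∀ i < n, φ x i = φ y i) ∧ φ x n = false ∧ φ y n = true))) := by
  intro H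
  obtain ⟨f, hs, hf⟩ := cod_U.not.norm
  obtain ⟨T, hT, t1, t2⟩ := hs.tree
  obtain ⟨S, s1, s2, -, s4, φ, p1, p2, p3⟩ := H {x | encode (dc x) = x ∧ Dm T (dc x)}
    (fun x y => r (dc x) (dc y))
    (computablePred_of (fun x => decide (encode (dc x) = x) && (T (dc x).1 &&
      ((decide ((dc x).2.1 = 0) && decide ((dc x).2.2 ≤ encode (dc x).1)) || decide ((dc x).2.1 = 1))))
      (by fun_prop) fun x => by
        simp only [Dm, Set.mem_setOf_eq, Bool.and_eq_true, Bool.or_eq_true, decide_eq_true_eq])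
    (computablePred_of (fun p : ℕ × ℕ => rb (dc p.1) (dc p.2)) (by unfold rb; fun_prop)
      fun p => rb_iff.symm)
    (fun x _ => r_irrefl _) (fun x _ y _ z _ => r_trans)
    (fun x hx y hy h => r_tri fun e => h (by rw [← hx.1, e, hy.1]))
    (fun ⟨e, h1, h2⟩ => scattered t1 t2 (fun q => dc (e q)) (fun q => (h1 q).2) h2)
  have mem : ∀ x, Dm T x → encode x ∈ {x | encode (dc x) = x ∧ Dm T (dc x)} := fun x hx => by
    simp only [Set.mem_setOf_eq, dc_enc, hx, and_self]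
  let ψ : E → ℕ → Bool := fun x => φ (encode x)
  have ord : ∀ x y, Dm T x → Dm T y → (r x y ↔ H18.Pac.LT (ψ x) (ψ y)) := fun x y hx hy => by
    simpa only [dc_enc, H18.Pac.LT] using p3 _ (mem x hx) _ (mem y hy)
  obtain ⟨b, b1, b2⟩ := computablePred_iff.1 s1
  obtain ⟨t, ht⟩ := exists_code (h := fun n => (decode (α := List Bool) n).elim false b) (by fun_prop)
  have ht' : ∀ σ : List Bool, V t (encode σ) ↔ σ ∈ S := fun σ => by
    rw [ht, encodek, b2]; rfl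
  let B : Set (ℕ → Bool) := {g | ∃ y, (Dm T y ∧ ¬ hat y.1 < hatf f) ∧ ψ y = g}
  have hp := (t2 f).2 rfl
  have hB : B.Nonempty := ⟨_, ([], 1, 0), ⟨⟨hp 0, .inr rfl⟩, fun h =>
    let ⟨_, _, h⟩ := lt_iff.1 h; h.ne_top (hat_top.2 (Nat.zero_le _))⟩, rfl⟩
  obtain ⟨p, hP⟩ := exists_code (CI.of_comp (s4 (infP B) fun n => by
    obtain ⟨_, ⟨y, hy, rfl⟩, h⟩ := infP_ext hB n
    rw [← ofFn_iff.2 h]
    exact (p1 _ (mem y hy.1)).1 n))
  have c1 : ∀ x, Dm T x → hat x.1 < hatf f → ¬ H18.Pac.LT (infP B) (ψ x) := by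
    rintro x hx h ⟨n, h1, h2, h3⟩
    obtain ⟨_, ⟨y, hy, rfl⟩, h4⟩ := infP_ext hB (n + 1)
    exact hy.2 ((r_le ((ord y x hy.1 hx).2 ⟨n, fun i hi => (h4 i (by omega)).trans (h1 i hi),
      (h4 n (by omega)).trans h2, h3⟩)).trans_lt h)
  have cut : ∀ x, Dm T x → (¬ hat x.1 < hatf f ↔ ¬ H18.Pac.LT (ψ x) (infP B)) := by
    refine fun x hx => ⟨fun h ⟨n, h1, h2, h3⟩ => ?_, fun h h' => h ?_⟩
    · have := (infP_false (S := B)).2 ⟨_, ⟨x, ⟨hx, h⟩, rfl⟩, h1, h2⟩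
      simp [this] at h3
    · refine (LT_tri _ _).resolve_right fun h => h.elim (fun e => ?_) (c1 x hx h')
      obtain ⟨k, hk⟩ := val_surj x.1 (val x + 1)
      have hd : Dm T (x.1, 1, k) := ⟨hx.1, .inr rfl⟩
      refine c1 _ hd h' (e ▸ (ord x _ hx hd).1 ((r_same (by rfl)).2 ?_))
      have := hx.2
      simp only; omega
  have a1 : ∀ x, Dm T x → ∃ c, Iso t c ∧ ∀ n, V c n ↔ ψ x n = true := fun x hx => by
    obtain ⟨c, hc⟩ := exists_code (CI.of_comp (s4 _ (p1 _ (mem x hx)).1))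
    exact ⟨c, (Iso_iff ht' hc s4).2 (p1 _ (mem x hx)), hc⟩
  have a2 : ∀ c, Iso t c → ∃ x, Dm T x ∧ ∀ n, V c n ↔ ψ x n = true := fun c hc => by
    classical
    have h : ∀ n, V c n ↔ (fun n => decide (V c n)) n = true := by simp
    obtain ⟨x, h1, h2⟩ := p2 (fun n => decide (V c n)) ((Iso_iff ht' h s4).1 hc)
    exact ⟨dc x, h1.2, by simp only [ψ, h1.1, h2]; exact h⟩
  have key : ∀ σ, Bc (Nat.pair t p) σ ↔ T σ = true ∧ ¬ hat σ < hatf f := fun σ => by
    rw [← blk_iff (fun x => ¬ hat x.1 < hatf f), Bc, Nat.unpair_pair]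
    constructor
    · rintro ⟨l, hl⟩
      exact hl.transfer (fun c x => Dm T x ∧ ∀ n, V c n ↔ ψ x n = true)
        (fun c hc => let ⟨x, h1, h2⟩ := a2 c hc; ⟨x, h1, h1, h2⟩)
        (fun x hx => let ⟨c, h1, h2⟩ := a1 x hx; ⟨c, h1, hx, h2⟩)
        (fun _ _ _ _ _ _ u v => (Lt_iff u.2 v.2).trans (ord _ _ u.1 v.1).symm)
        fun c x _ u h => (cut x u.1).2 (mt (Lt_iff u.2 hP).2 h)
    · rintro ⟨u, hu⟩
      obtain ⟨v, hv⟩ := hu.transfer (J := Iso t) (s := Lt) (h := fun c => ¬ Lt c p)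
        (fun x c => ∀ n, V c n ↔ ψ x n = true) a1 a2
        (fun _ _ _ _ a b u v => (ord _ _ a b).trans (Lt_iff u v).symm)
        fun x c a u h => mt (Lt_iff u hP).1 ((cut x a).1 h)
      exact hv.list
  have := diag hp key
  rw [← hf] at this
  exact iff_not_self this

end Pool.Agent.S15424
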