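import Pool.Statements.S15461
import Pool.Agent.H15.BQ3
import Pool.Agent.H15.BQ4

set_option autoImplicit false
open Pool Pool.MP_daee81_lc

namespace Pool.Agent.S15461

/-- Every well-quasi-ordered preorder P is the union of countably many subsets Q_i, each a bqo: for every sequence of maps from countable ordinals into Q_i, some earlier map embeds into a later one by a strictly increasing h with values dominated. -/
theorem result :
    ∀ (P : Type) [Preorder P],
      (∀ g : ℕ → P, ∃ m n, m < n ∧ g m ≤ g n) →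
      ∃ Q : ℕ → Set P, (⋃ i, Q i) = Set.univ ∧
        ∀ i, ∀ (o : ℕ → Ordinal.{0}) (f : ∀ n, Set.Iio (o n) → P),
          (∀ n, Countable (Set.Iio (o n))) →
          (∀ n x, f n x ∈ Q i) →
          ∃ m n, m < n ∧ ∃ h : Set.Iio (o m) → Set.Iio (o n),
            StrictMono h ∧ ∀ x, f m x ≤ f n (h x) := by
  intro P _ hP
  obtain ⟨τ, Φ, h⟩ := Pool.Agent.H15.BQ.good
    ⟨P, (· ≤ ·), le_refl, fun _ _ _ => le_trans, hP⟩
  refine ⟨fun i => {x | τ x = i}, Set.eq_univ_of_forall fun x => Set.mem_iUnion.2 ⟨τ x, rfl⟩, ?_⟩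
  intro i o f hc hf
  let I := {p : ℕ ×ₗ Ordinal.{0} // (ofLex p).2 < o (ofLex p).1}
  let lab : I → P := fun p => f (ofLex p.1).1 ⟨(ofLex p.1).2, p.2⟩
  let inc : ∀ n, Set.Iio (o n) → I := fun n x => ⟨toLex (n, x.1), x.2⟩
  have : Countable I := by
    have hs : Function.Surjective fun q : Σ n, Set.Iio (o n) => inc q.1 q.2 :=
      fun p => ⟨⟨(ofLex p.1).1, ⟨(ofLex p.1).2, p.2⟩⟩, rfl⟩
    exact hs.countable
  obtain ⟨m, n, hmn, g, g1, g2, g3⟩ := Pool.Agent.H15.BQ.emb_wqo (I := I)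
    (r := fun p q => lab p ≤ lab q) (fun _ => le_rfl) (fun _ _ _ => le_trans) i
    (fun p => Φ (lab p)) (fun p q hpq => h _ _ ((hf _ _).trans (hf _ _).symm) fun j hj =>
      hpq j (by rwa [show τ (lab p) = i from hf _ _] at hj)) fun n => Set.range (inc n)
  have hg : ∀ x, ∃ y, inc n y = g (inc m x) := fun x => g1 ⟨x, rfl⟩
  choose k hk using hg
  refine ⟨m, n, hmn, k, fun x y hxy => ?_, fun x => ?_⟩
  · have h1 : inc m x < inc m y := Prod.Lex.toLex_lt_toLex.2 (Or.inr ⟨rfl, hxy⟩)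
    have h2 := g2 ⟨x, rfl⟩ ⟨y, rfl⟩ h1
    rw [← hk, ← hk] at h2
    rcases Prod.Lex.toLex_lt_toLex.1 h2 with h3 | h3
    · exact absurd h3 (lt_irrefl _)
    · exact h3.2
  · have h1 := g3 _ ⟨x, rfl⟩
    rw [← hk] at h1
    exact h1

end Pool.Agent.S15461
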