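import Pool.Statements.S15473
import Pool.Agent.H83.RvmSum

set_option autoImplicit false
open Cardinal
open Pool Pool.MP_dcd8e0_lc

namespace Pool.Agent.S15473

/-- If the continuum is real-valued measurable, then every finite colouring of ℝ has an infinite X with all sums x+y (x,y in X) the same colour, while some countable colouring of ℝ has no such infinite X. -/
theorem result :
    (∃ m : Set ℝ → ℝ,
        (∀ s, 0 ≤ m s) ∧ m Set.univ = 1 ∧ (∀ x : ℝ, m {x} = 0) ∧
        (∀ f : ℕ → Set ℝ, Pairwise (Function.onFun Disjoint f) →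
            HasSum (fun n => m (f n)) (m (⋃ n, f n))) ∧
        (∀ S : Set (Set ℝ), Cardinal.mk S < Cardinal.continuum →
            (∀ s ∈ S, m s = 0) → m (⋃₀ S) = 0)) →
    ((∀ r : ℕ, ∀ c : ℝ → Fin r, ∃ X : Set ℝ, X.Infinite ∧
        ∃ k : Fin r, ∀ x ∈ X, ∀ y ∈ X, c (x + y) = k) ∧
     (∃ c : ℝ → ℕ, ∀ X : Set ℝ, X.Infinite →
        ∃ x ∈ X, ∃ y ∈ X, ∃ z ∈ X, ∃ w ∈ X, c (x + y) ≠ c (z + w))) := by
  rintro ⟨m, h0, h1, h2, h3, -⟩
  constructor
  · intro r c
    letI : MeasurableSpace ℝ := ⊤
    haveI : DiscreteMeasurableSpace ℝ := ⟨fun _ => trivial⟩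
    have he : m ∅ = 0 := by
      have := h3 (fun _ => ∅) (fun _ _ _ => disjoint_bot_left)
      simp only [Set.iUnion_empty] at this
      by_contra hne
      exact hne ((summable_const_iff _).1 this.summable)
    let ν : MeasureTheory.Measure ℝ := MeasureTheory.Measure.ofMeasurable
      (fun s _ => ENNReal.ofReal (m s)) (by simp [he]) (fun f _ hd => by
        rw [← (h3 f hd).tsum_eq, ENNReal.ofReal_tsum_of_nonneg (fun _ => h0 _) (h3 f hd).summable])
    have hν : ∀ s, ν s = ENNReal.ofReal (m s) := fun s =>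
      MeasureTheory.Measure.ofMeasurable_apply s trivial
    haveI : MeasureTheory.IsProbabilityMeasure ν := ⟨by rw [hν, h1]; simp⟩
    haveI : MeasureTheory.NullSingletonClass ν := ⟨fun x => by rw [hν, h2]; simp⟩
    obtain ⟨a, k, X, hX, h⟩ := Pool.Agent.H83.RvmSum.main ν r c
    refine ⟨(fun x => a / 2 + x) '' X, hX.image (add_right_injective _).injOn, k, ?_⟩
    rintro _ ⟨x, hx, rfl⟩ _ ⟨y, hy, rfl⟩
    rw [← h x hx y hy]
    congr 1
    ring
  · let b := Module.Basis.ofVectorSpace ℚ ℝ
    let N : ℝ → ℚ := fun x => (b.repr x).sum fun _ t => t ^ 2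
    refine ⟨fun x => Encodable.encode (N x), fun X hX => ?_⟩
    by_contra hcon
    push Not at hcon
    obtain ⟨x, hx, y, hy, hxy⟩ := hX.nontrivial
    have e1 := Encodable.encode_injective (hcon x hx y hy x hx x hx)
    have e2 := Encodable.encode_injective (hcon x hx y hy y hy y hy)
    classical
    have hN : ∀ z : ℝ, (b.repr z).support ⊆ (b.repr x).support ∪ (b.repr y).support →
        N z = ∑ i ∈ (b.repr x).support ∪ (b.repr y).support, (b.repr z i) ^ 2 := fun z hz =>
      Finsupp.sum_of_support_subset _ hz _ (by simp)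
    rw [hN, hN] at e1 e2
    · have e3 : ∑ i ∈ (b.repr x).support ∪ (b.repr y).support, (b.repr x i - b.repr y i) ^ 2 = 0 := by
        have : ∀ i, (b.repr x i - b.repr y i) ^ 2 =
            ((b.repr (x + x) i) ^ 2 + (b.repr (y + y) i) ^ 2) / 2 - (b.repr (x + y) i) ^ 2 := by
          intro i
          simp only [map_add, Finsupp.add_apply]
          ring
        simp only [this, Finset.sum_sub_distrib, ← Finset.sum_div, Finset.sum_add_distrib]
        rw [← e1, ← e2]
        ring
      rw [Finset.sum_eq_zero_iff_of_nonneg (fun _ _ => sq_nonneg _)] at e3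
      apply hxy
      apply b.repr.injective
      ext i
      by_cases hi : i ∈ (b.repr x).support ∪ (b.repr y).support
      · exact sub_eq_zero.1 (pow_eq_zero_iff two_ne_zero |>.1 (e3 i hi))
      · simp only [Finset.mem_union, Finsupp.mem_support_iff, not_or, not_not] at hi
        rw [hi.1, hi.2]
    all_goals
      rw [map_add]
      refine Finsupp.support_add.trans ?_
      intro i hi
      simp only [Finset.mem_union] at hi ⊢
      tauto

end Pool.Agent.S15473
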