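import Pool.Statements.S15498
import Pool.Agent.H37.Hd4

set_option autoImplicit false
open Pool Pool.MP_e12961_lc

namespace Pool.Agent.S15498

theorem result :
    ¬ (∀ X Y : ℕ → Bool,
      (∀ f : ℕ → ℕ,
          TuringReducible (fun n => Part.some (f n)) (fun n => Part.some (X n).toNat) →
          ∃ g : ℕ → ℕ, Computable g ∧ ∀ n, f n ≤ g n) →
      (¬ ∀ f : ℕ → ℕ,
          TuringReducible (fun n => Part.some (f n)) (fun n => Part.some (Y n).toNat) →
          ∃ g : ℕ → ℕ, Computable g ∧ ∀ n, f n ≤ g n) →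
      (∃ f : ℕ → ℕ,
          TuringReducible (fun n => Part.some (f n)) (fun n => Part.some (Y n).toNat) ∧
          (∀ n, f n ≤ 1) ∧
          ∀ c : Nat.Partrec.Code, ∀ y : ℕ,
            y ∈ c.eval (Encodable.encode c) → f (Encodable.encode c) ≠ y) →
      ((∀ ε : ℝ, 0 < ε → ∃ A : ℕ → Bool,
          (TuringReducible (fun n => Part.some (A n).toNat) (fun n => Part.some (X n).toNat) ∧
           TuringReducible (fun n => Part.some (X n).toNat) (fun n => Part.some (A n).toNat)) ∧
          ∀ B : ℕ → Bool,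
            (TuringReducible (fun n => Part.some (B n).toNat) (fun n => Part.some (Y n).toNat) ∧
             TuringReducible (fun n => Part.some (Y n).toNat) (fun n => Part.some (B n).toNat)) →
            1 - ε ≤ Filter.limsup
              (fun n : ℕ => ((((Finset.range n).filter (fun k => A k ≠ B k)).card : ℝ) / (n : ℝ)))
              Filter.atTop) ∨
       (∀ ε : ℝ, 0 < ε → ∃ B : ℕ → Bool,
          (TuringReducible (fun n => Part.some (B n).toNat) (fun n => Part.some (Y n).toNat) ∧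
           TuringReducible (fun n => Part.some (Y n).toNat) (fun n => Part.some (B n).toNat)) ∧
          ∀ A : ℕ → Bool,
            (TuringReducible (fun n => Part.some (A n).toNat) (fun n => Part.some (X n).toNat) ∧
             TuringReducible (fun n => Part.some (X n).toNat) (fun n => Part.some (A n).toNat)) →
            1 - ε ≤ Filter.limsup
              (fun n : ℕ => ((((Finset.range n).filter (fun k => A k ≠ B k)).card : ℝ) / (n : ℝ)))
              Filter.atTop))) := by
  intro h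
  obtain ⟨X, Y, h1, ⟨f, h2, h2'⟩, ⟨D, h3, h3'⟩, h4, z, h5, h6⟩ := H37.Hd.main4
  rcases h X Y (fun f hf => h1 f (H37.Hd.tr_fun.1 hf)) (fun h => by
      obtain ⟨g, hg, h⟩ := h f (H37.Hd.tr_fun.2 h2)
      obtain ⟨n, hn⟩ := h2' g hg
      exact (h n).not_gt hn)
    ⟨H37.Hd.bit D, H37.Hd.tr_fun.2 (H37.Hd.ci_bit.2 h3), fun n => Bool.toNat_le _, fun c y hy e => by
      obtain ⟨s, hs⟩ := (H37.ev_iff (e := Encodable.encode c)).1 (by simpa using hy)
      exact h3' _ s (hs.trans (congrArg some e.symm))⟩ with h | h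
  · obtain ⟨A, ⟨h7, -⟩, h8⟩ := h (1 / 16) (by norm_num)
    have h9 : _ ≤ H37.Hd.dl A _ := h8 (H37.Hd.code 31 Y z)
      ⟨H37.Hd.tr_iff.2 (H37.Hd.code_le h5), H37.Hd.tr_iff.2 (H37.Hd.le_code _ _ _)⟩
    have := H37.Hd.dl_code 31 Y z A
    have := h6 A (H37.Hd.tr_iff.1 h7)
    rw [H37.Hd.dl_comm] at h9
    norm_num at *
    linarith
  · obtain ⟨B, ⟨h7, -⟩, h8⟩ := h (1 / 16) (by norm_num)
    have h9 : _ ≤ H37.Hd.dl X B := h8 X ⟨H37.Hd.tr_iff.2 (.refl _), H37.Hd.tr_iff.2 (.refl _)⟩
    have := h4 B (H37.Hd.tr_iff.1 h7)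
    linarith

end Pool.Agent.S15498
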