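import Pool.Statements.S15508
import Pool.Agent.H76.RegPerf

set_option autoImplicit false
open FirstOrder FirstOrder.Language
open Pool Pool.MP_e23b49_lc

namespace Pool.Agent.S15508


/-- The negation of the preceding statement: For every variety of algebras given by identities: if each finitely generated free algebra is determined up to isomorphism by its LG-equivalence class in the variety, then in each such free algebra, tuples with the same first-order type are conjugate by an automorphism. -/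
theorem result :
    ¬ (∀ (L : FirstOrder.Language.{0, 0}), (∀ n, IsEmpty (L.Relations n)) →
  ∀ (E : Set (Σ n : ℕ, L.Term (Fin n) × L.Term (Fin n))),
  (∀ (n : ℕ) (F : Type) [L.Structure F] (ι : Fin n → F),
      (∀ e ∈ E, ∀ v : Fin e.1 → F, e.2.1.realize v = e.2.2.realize v) →
      (∀ (M : Type) [L.Structure M],
          (∀ e ∈ E, ∀ v : Fin e.1 → M, e.2.1.realize v = e.2.2.realize v) →
          ∀ f : Fin n → M, ∃! h : L.Hom F M, ⇑h ∘ ι = f) →
      ∀ (H : Type) [L.Structure H],
        (∀ e ∈ E, ∀ v : Fin e.1 → H, e.2.1.realize v = e.2.2.realize v) →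
        (∀ (m : ℕ) (T : Set (L.Formula (Fin m))),
            {φ : L.Formula (Fin m) | ∀ a : Fin m → F,
                (∀ ψ ∈ T, ψ.Realize a) → φ.Realize a} =
            {φ : L.Formula (Fin m) | ∀ a : Fin m → H,
                (∀ ψ ∈ T, ψ.Realize a) → φ.Realize a}) →
        Nonempty (L.Equiv F H)) →
  (∀ (n : ℕ) (F : Type) [L.Structure F] (ι : Fin n → F),
      (∀ e ∈ E, ∀ v : Fin e.1 → F, e.2.1.realize v = e.2.2.realize v) →
      (∀ (M : Type) [L.Structure M],
          (∀ e ∈ E, ∀ v : Fin e.1 → M, e.2.1.realize v = e.2.2.realize v) →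
          ∀ f : Fin n → M, ∃! h : L.Hom F M, ⇑h ∘ ι = f) →
      ∀ (m : ℕ) (a b : Fin m → F),
        ((∀ φ : L.Formula (Fin m), φ.Realize a ↔ φ.Realize b) ↔
          ∃ σ : L.Equiv F F, ⇑σ ∘ b = a))) := by
  intro h
  have h1 := h Pool.Agent.H76.RegPerf.L (fun _ => inferInstanceAs (IsEmpty Empty))
    Pool.Agent.H76.RegPerf.E
    (fun n F _ ι hs hf H _ hH hT => Pool.Agent.H76.RegPerf.separable hs hf H hH hT)
    1 Pool.Agent.H76.RegPerf.M (fun _ => Pool.Agent.H76.RegPerf.mk [])
    Pool.Agent.H76.RegPerf.satM Pool.Agent.H76.RegPerf.freeM 1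
    (fun _ => Pool.Agent.H76.RegPerf.mk [.a false]) (fun _ => Pool.Agent.H76.RegPerf.mk [.a true])
  obtain ⟨σ, hσ⟩ := h1.1 Pool.Agent.H76.RegPerf.same_type
  exact Pool.Agent.H76.RegPerf.not_conj σ (congrFun hσ 0)

end Pool.Agent.S15508
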