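import Pool.Statements.S15510
import Pool.Agent.H73.BranchTree

set_option autoImplicit false
open Pool Pool.MP_e29ee7_lc

namespace Pool.Agent.S15510

/-- The negation of the preceding statement: Let T be a tree that is a countable union of chains. Order its maximal chains by order-embeddability. Then every maximal linearly ordered family of such chains has a countable cofinal subfamily: every member embeds into one of countably many members. -/
theorem result :
    ¬ (∀ (T : Type) [PartialOrder T],
      (∀ x : T, IsChain (· ≤ ·) {y : T | y < x}) →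
      (∃ f : ℕ → Set T, (∀ n, IsChain (· ≤ ·) (f n)) ∧ (⋃ n, f n) = Set.univ) →
      ∀ S : Set (Set T),
        (∀ c ∈ S, IsMaxChain (· ≤ ·) c) →
        IsChain (fun c d : Set T => Nonempty (↥c ↪o ↥d)) S →
        (∀ U : Set (Set T), (∀ c ∈ U, IsMaxChain (· ≤ ·) c) →
            IsChain (fun c d : Set T => Nonempty (↥c ↪o ↥d)) U → S ⊆ U → U = S) →
        ∃ D : Set (Set T), D ⊆ S ∧ D.Countable ∧
          ∀ c ∈ S, ∃ d ∈ D, Nonempty (↥c ↪o ↥d)) :=
  Pool.Agent.H73.BranchTree.main

end Pool.Agent.S15510
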