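import Pool.Statements.S15538
import Pool.Agent.H66.Forb2

set_option autoImplicit false
open FirstOrder FirstOrder.Language
open Pool Pool.MP_e6168a_lc

namespace Pool.Agent.S15538

/-- The negation of the preceding statement: For every finite relational signature, finite forbidden family and first-order sentence φ: among labeled structures on n points admitting no homomorphism from any forbidden structure, the fraction satisfying φ converges as n grows. -/
theorem result :
    ¬ (∀ (L : FirstOrder.Language.{0, 0}), (∀ l, IsEmpty (L.Functions l)) →
      Finite (Σ l, L.Relations l) →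
      ∀ (k : ℕ) (m : Fin k → ℕ) (S : (i : Fin k) → L.Structure (Fin (m i))) (φ : L.Sentence),
        ∃ c : ℝ, Filter.Tendsto
          (fun n : ℕ =>
            (Nat.card {M : L.Structure (Fin n) //
                (∀ i, IsEmpty (@FirstOrder.Language.Hom L (Fin (m i)) (Fin n) (S i) M)) ∧
                  Fin n ⊨ φ} : ℝ) /
            (Nat.card {M : L.Structure (Fin n) //
                ∀ i, IsEmpty (@FirstOrder.Language.Hom L (Fin (m i)) (Fin n) (S i) M)} : ℝ))
          Filter.atTop (nhds c)) := by
  intro h
  exact Pool.Agent.H66.Forb.main (h Pool.Agent.H66.Forb.LL (fun _ => ⟨fun f => Empty.elim f⟩)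
    Pool.Agent.H66.Forb.fin_rel 4 (fun _ => 12) Pool.Agent.H66.Forb.FF Pool.Agent.H66.Forb.phi)

end Pool.Agent.S15538
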