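import Pool.Statements.S15550
import Pool.Agent.H42.Short

set_option autoImplicit false
open Pool Pool.MP_e6ce3e_lc

namespace Pool.Agent.S15550

/-- The negation of the preceding statement: There is a linear order L with no uncountable well-ordered or reverse-well-ordered subset, of size at least aleph_1, mapping monotonically onto every size-aleph_1 linear order embeddable in it, but with no monotone surjection onto the rationals. -/
theorem result :
    ¬ (∃ (L : Type) (_ : LinearOrder L),
      (∀ S : Set L, S.WellFoundedOn (· < ·) → S.Countable) ∧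
      (∀ S : Set L, S.WellFoundedOn (· > ·) → S.Countable) ∧
      Cardinal.aleph 1 ≤ Cardinal.mk L ∧
      (∀ (K : Type) [LinearOrder K], Cardinal.mk K = Cardinal.aleph 1 →
          Nonempty (K ↪o L) → ∃ f : L → K, Monotone f ∧ Function.Surjective f) ∧
      ¬ ∃ f : L → ℚ, Monotone f ∧ Function.Surjective f) := by
  rintro ⟨L, _, h1, h2, h3, h4, h5⟩
  have hU : ¬ (Set.univ : Set L).Countable := fun c => by
    have := Cardinal.le_aleph0_iff_set_countable.2 c
    rw [Cardinal.mk_univ] at this
    exact Cardinal.aleph0_lt_aleph_one.not_ge (h3.trans this)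
  obtain ⟨g, hg⟩ := Pool.Agent.H42.Short.exists_emb h1 h2 hU
  obtain ⟨J, j1, j2⟩ := Cardinal.le_mk_iff_exists_subset.1
    (show Cardinal.aleph 1 ≤ Cardinal.mk (Set.Icc (g 0) (g 1)) by
      rw [← Cardinal.succ_aleph0, Order.succ_le_iff, ← not_le,
        Cardinal.le_aleph0_iff_set_countable]
      exact hg)
  obtain ⟨f, f1, f2, -⟩ := Pool.Agent.H42.Short.collapse g j1
  obtain ⟨k, k1, k2⟩ := h4 (Set.range g ∪ J : Set L) (le_antisymm
    ((Cardinal.mk_union_le _ _).trans (Cardinal.add_le_of_le Cardinal.aleph0_lt_aleph_one.le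
      ((Cardinal.le_aleph0_iff_set_countable.2 (Set.countable_range g)).trans
        Cardinal.aleph0_lt_aleph_one.le) j2.le))
    (j2 ▸ Cardinal.mk_le_mk_of_subset Set.subset_union_right)) ⟨OrderEmbedding.subtype _⟩
  exact h5 ⟨f ∘ k, f1.comp k1, f2.comp k2⟩

end Pool.Agent.S15550
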