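import Pool.Statements.S15593
import Pool.Agent.H18.TJ5

set_option autoImplicit false
open Pool Pool.MP_ef54cf_lc

namespace Pool.Agent.S15593

/-- There is a countable group acting continuously on Baire space and a Borel bijection Φ from Cantor space onto Baire space sending Turing equivalence exactly to orbit equivalence, with Φ(x) Turing-equivalent to the jump of x for all x above some z. -/
theorem result :
    ∃ (G : Type) (_ : Group G) (_ : Countable G) (_ : MulAction G (ℕ → ℕ)),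
      (∀ g : G, Continuous (fun y : ℕ → ℕ => g • y)) ∧
      ∃ Φ : (ℕ → Bool) ≃ᵐ (ℕ → ℕ),
        (∀ x y : ℕ → Bool,
          (RecursiveIn {PFun.lift (fun n => (x n).toNat)} (PFun.lift (fun n => (y n).toNat)) ∧
           RecursiveIn {PFun.lift (fun n => (y n).toNat)} (PFun.lift (fun n => (x n).toNat)))
            ↔ ∃ g : G, g • Φ x = Φ y) ∧
        ∃ z : ℕ → Bool, ∀ x : ℕ → Bool,
          RecursiveIn {PFun.lift (fun n => (x n).toNat)} (PFun.lift (fun n => (z n).toNat)) →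
          ∃ A : Set ℕ,
            (∃ f : ℕ →. ℕ, RecursiveIn {PFun.lift (fun n => (x n).toNat)} f ∧
                ∀ n, n ∈ A ↔ (f n).Dom) ∧
            (∀ B : Set ℕ,
              (∃ f : ℕ →. ℕ, RecursiveIn {PFun.lift (fun n => (x n).toNat)} f ∧
                  ∀ n, n ∈ B ↔ (f n).Dom) →
              RecursiveIn {PFun.lift (A.indicator (fun _ => (1 : ℕ)))}
                (PFun.lift (B.indicator (fun _ => (1 : ℕ))))) ∧
            RecursiveIn {PFun.lift (A.indicator (fun _ => (1 : ℕ)))} (PFun.lift (Φ x)) ∧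
            RecursiveIn {PFun.lift (Φ x)} (PFun.lift (A.indicator (fun _ => (1 : ℕ)))) := by
  obtain ⟨G, i1, i2, i3, h1, Φ, h2, z, h3⟩ := H18.TJ.main
  refine ⟨G, i1, i2, i3, h1, Φ, fun x y => Iff.trans ⟨fun h => ⟨.of_ri h.2, .of_ri h.1⟩,
    fun h => ⟨H37.CI.ri h.2, H37.CI.ri h.1⟩⟩ (h2 x y), z, fun x hx => ?_⟩
  obtain ⟨y, h4, h5⟩ := h3 x (.of_ri hx)
  exact ⟨H18.TJ.J y, H18.TJ.J_ce h4.2, fun B hB => (H18.TJ.J_compl h4.1 B hB).ri,
    (((H18.TJ.tl_ci (Φ x)).2.trans h5.ci).trans (H18.TJ.le_J y)).ri,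
    (((H18.TJ.J_le y).trans h5.symm.ci).trans (H18.TJ.tl_ci (Φ x)).1).ri⟩

end Pool.Agent.S15593
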