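import Pool.Statements.S15620
import Pool.Agent.H83.Soc3

set_option autoImplicit false
open Pool Pool.MP_f4da35_lc

namespace Pool.Agent.S15620

/-- The negation of the preceding statement: For all n, k ≥ 2 and every (k+1)-colouring f of n-sets of naturals, some k-colouring g exists such that every infinite g-homogeneous set Turing-computes an infinite f-homogeneous set. -/
theorem result :
    ¬ (∀ n k : ℕ, 2 ≤ n → 2 ≤ k →
      ∀ f : Finset ℕ → Fin (k + 1),
        ∃ g : Finset ℕ → Fin k,
          ∀ H : ℕ → Bool,
            Set.Infinite {m : ℕ | H m = true} →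
            (∃ col : Fin k, ∀ s : Finset ℕ,
                (∀ x ∈ s, H x = true) → s.card = n → g s = col) →
            ∃ H' : ℕ → Bool,
              Set.Infinite {m : ℕ | H' m = true} ∧
              (∃ col : Fin (k + 1), ∀ s : Finset ℕ,
                (∀ x ∈ s, H' x = true) → s.card = n → f s = col) ∧
              TuringReducible (fun m => Part.some (Bool.toNat (H' m)))
                (fun m => Part.some (Bool.toNat (H m)))) := by
  classical
  intro h
  obtain ⟨f, hf⟩ := Pool.Agent.H83.Soc.main
  obtain ⟨g, hg⟩ := h 2 2 le_rfl le_rfl fun s => f (sInf (s : Set ℕ)) (sSup (s : Set ℕ))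
  obtain ⟨H, d, h1, h2, h3⟩ := hf fun x y => g {x, y}
  obtain ⟨H', i1, ⟨c, i2⟩, i3⟩ := hg (fun m => decide (m ∈ H)) (by simpa using h1) ⟨d, by
    intro s hs hc
    obtain ⟨x, y, hxy, rfl⟩ := Finset.card_eq_two.1 hc
    have hx : x ∈ H := by simpa using hs x (by simp)
    have hy : y ∈ H := by simpa using hs y (by simp)
    rcases lt_or_gt_of_ne hxy with h | h
    · exact h2 x hx y hy h
    · rw [Finset.pair_comm]; exact h2 y hy x hx h⟩
  obtain ⟨a, ha, b, hb, hab, hn⟩ := h3 {m | H' m = true} c _ _ (fun m hm => by simp [hm])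
    (fun m hm => by simp [hm]) (fun m => by cases h : H' m <;> simp [h]) i3 i1
  have := i2 {a, b} (by simpa using ⟨ha, hb⟩) (Finset.card_pair hab.ne)
  simp only [Finset.coe_insert, Finset.coe_singleton, csInf_pair, csSup_pair, min_eq_left hab.le,
    max_eq_right hab.le] at this
  exact hn this

end Pool.Agent.S15620
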