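import Pool.Statements.S15646
import Pool.Agent.H37.Lov

set_option autoImplicit false
open Pool Pool.MP_fbc7b8_lc

namespace Pool.Agent.S15646

theorem result :
    ¬ (∀ (V : Set ℕ) (G : SimpleGraph ℕ) (n₁ n₂ : ℕ),
      ComputablePred (fun x : ℕ => x ∈ V) →
      ComputablePred (fun p : ℕ × ℕ => G.Adj p.1 p.2) →
      (∀ x y : ℕ, G.Adj x y → x ∈ V) →
      (∀ x : ℕ, (G.neighborSet x).Finite) →
      (∃ d : ℕ → ℕ, Computable d ∧ ∀ x ∈ V, (G.neighborSet x).ncard = d x) →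
      (∀ x ∈ V, (G.neighborSet x).ncard ≤ n₁ + n₂ + 1) →
      (∃ x ∈ V, (G.neighborSet x).ncard = n₁ + n₂ + 1) →
      ∃ V₁ V₂ : Set ℕ,
        ComputablePred (fun x : ℕ => x ∈ V₁) ∧
        ComputablePred (fun x : ℕ => x ∈ V₂) ∧
        V₁ ∪ V₂ = V ∧ Disjoint V₁ V₂ ∧
        (∀ x ∈ V₁, (G.neighborSet x ∩ V₁).ncard ≤ n₁) ∧
        (∀ x ∈ V₂, (G.neighborSet x ∩ V₂).ncard ≤ n₂)) := by
  intro h
  obtain ⟨V₁, V₂, h1, -, h2, -, h3, h4⟩ := h Set.univ H37.Lov.G 1 3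
    (H37.computablePred_of (fun _ => true) (by fun_prop) (by simp))
    (H37.computablePred_of _ H37.Lov.ci_adj fun _ => Iff.rfl) (by simp) H37.Lov.fin
    (H37.Lov.deg_comp.imp fun _ h => ⟨h.1, fun x _ => h.2 x⟩) (fun x _ => H37.Lov.deg_le x)
    (H37.Lov.deg_five.imp fun _ h => ⟨trivial, h⟩)
  exact H37.Lov.main ⟨V₁, V₂, h1, h2, h3, h4⟩

end Pool.Agent.S15646
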