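import Pool.Statements.S15657
import Pool.Agent.H37.Val3

set_option autoImplicit false
open Pool Pool.MP_fed070_lc

namespace Pool.Agent.S15657

theorem result :
  ∀ (T : List ℕ → Bool) (g : List ℕ → ℕ), Computable T → Computable g →
    (∀ σ τ : List ℕ, σ <+: τ → T τ = true → T σ = true) →
    (∀ (σ : List ℕ) (i : ℕ), T (σ ++ [i]) = true → i < g σ) →
    ∃ (U : ℕ → Bool) (add mul : ℕ → ℕ → ℕ) (neg : ℕ → ℕ) (zero one : ℕ),
      Computable U ∧ Computable₂ add ∧ Computable₂ mul ∧ Computable neg ∧
      U zero = true ∧ U one = true ∧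
      (∀ a b, U a = true → U b = true → U (add a b) = true ∧ U (mul a b) = true) ∧
      (∀ a, U a = true → U (neg a) = true) ∧
      (∀ a b c, U a = true → U b = true → U c = true →
        add (add a b) c = add a (add b c) ∧ mul (mul a b) c = mul a (mul b c) ∧
        mul a (add b c) = add (mul a b) (mul a c)) ∧
      (∀ a b, U a = true → U b = true → add a b = add b a ∧ mul a b = mul b a) ∧
      (∀ a, U a = true → add zero a = a ∧ add a (neg a) = zero ∧ mul one a = a) ∧
      ∃ F : (ℕ → ℕ) → (ℕ → ℕ),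
        Set.BijOn F {f : ℕ → ℕ | ∀ n, T ((List.range n).map f) = true}
          {χ : ℕ → ℕ | (∀ n, χ n = 0 ∨ χ n = 1) ∧
            (∀ n, χ n = 1 → U n = true) ∧
            χ zero = 1 ∧ χ one = 0 ∧
            (∀ a b, χ a = 1 → χ b = 1 → χ (add a b) = 1) ∧
            (∀ a b, U a = true → χ b = 1 → χ (mul a b) = 1) ∧
            (∀ a b, U a = true → U b = true → χ (mul a b) = 1 → χ a = 1 ∨ χ b = 1)} ∧
        ∀ f : ℕ → ℕ, (∀ n, T ((List.range n).map f) = true) →
          TuringEquivalent (PFun.lift f) (PFun.lift (F f)) := by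
  exact fun T g hT hg _ hb => Pool.Agent.H37.Val.final T g hT hg hb

end Pool.Agent.S15657
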