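import Pool.Statements.S15686
import Pool.Agent.H99.Haldane

set_option autoImplicit false
open Pool Pool.MP_1f8098_mp

namespace Pool.Agent.S15686

/-- The negation of the preceding statement: For each ℓ≥2 there is c>0 such that for all N, every symmetric (ℓ even) or antisymmetric (ℓ odd) LLL state of degree ≤ℓN(N−1)/2 orthogonal to the kernel of the relative-angular-momentum-(ℓ−2) pair Hamiltonian has energy ≥ c times its squared norm. -/
theorem result :
    ¬ (∀ ℓ : ℕ, 2 ≤ ℓ → ∃ c : ℝ, 0 < c ∧ ∀ N : ℕ, ∀ ψ : MvPolynomial (Fin N) ℂ,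
      (∀ σ : Equiv.Perm (Fin N),
        MvPolynomial.rename (⇑σ) ψ = (((Equiv.Perm.sign σ : ℤ) : ℂ) ^ ℓ) • ψ) →
      ψ.totalDegree ≤ ℓ * N * (N - 1) / 2 →
      (∀ φ : MvPolynomial (Fin N) ℂ,
        (∀ σ : Equiv.Perm (Fin N),
          MvPolynomial.rename (⇑σ) φ = (((Equiv.Perm.sign σ : ℤ) : ℂ) ^ ℓ) • φ) →
        φ.totalDegree ≤ ℓ * N * (N - 1) / 2 →
        (∀ i j : Fin N, i < j →
          ∀ α ∈ (MvPolynomial.aeval
              (fun k : Fin N => (if k = i then
                  MvPolynomial.C (((Real.sqrt 2 : ℝ) : ℂ)⁻¹) *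
                    (MvPolynomial.X i + MvPolynomial.X j)
                else if k = j then
                  MvPolynomial.C (((Real.sqrt 2 : ℝ) : ℂ)⁻¹) *
                    (MvPolynomial.X i - MvPolynomial.X j)
                else MvPolynomial.X k : MvPolynomial (Fin N) ℂ)) φ).support,
            α j ≠ ℓ - 2) →
        φ.support.sum (fun α => (starRingEnd ℂ) (MvPolynomial.coeff α φ) *
          MvPolynomial.coeff α ψ * ∏ k : Fin N, ((Nat.factorial (α k) : ℕ) : ℂ)) = 0) →
      c * ψ.support.sum (fun α => ‖MvPolynomial.coeff α ψ‖ ^ 2 *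
          ∏ k : Fin N, ((Nat.factorial (α k) : ℕ) : ℝ)) ≤
        ∑ i : Fin N, ∑ j : Fin N,
          (if i < j then
            (Finset.filter (fun α => α j = ℓ - 2)
              (MvPolynomial.aeval
                (fun k : Fin N => (if k = i then
                    MvPolynomial.C (((Real.sqrt 2 : ℝ) : ℂ)⁻¹) *
                      (MvPolynomial.X i + MvPolynomial.X j)
                  else if k = j then
                    MvPolynomial.C (((Real.sqrt 2 : ℝ) : ℂ)⁻¹) *
                      (MvPolynomial.X i - MvPolynomial.X j)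
                  else MvPolynomial.X k : MvPolynomial (Fin N) ℂ)) ψ).support).sum
              (fun α => ‖MvPolynomial.coeff α
                  (MvPolynomial.aeval
                    (fun k : Fin N => (if k = i then
                        MvPolynomial.C (((Real.sqrt 2 : ℝ) : ℂ)⁻¹) *
                          (MvPolynomial.X i + MvPolynomial.X j)
                      else if k = j then
                        MvPolynomial.C (((Real.sqrt 2 : ℝ) : ℂ)⁻¹) *
                          (MvPolynomial.X i - MvPolynomial.X j)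
                      else MvPolynomial.X k : MvPolynomial (Fin N) ℂ)) ψ)‖ ^ 2 *
                ∏ k : Fin N, ((Nat.factorial (α k) : ℕ) : ℝ))
          else 0)) := by
  intro h
  obtain ⟨c, hc, h⟩ := h 4 (by norm_num)
  have hsign : ∀ {N : ℕ} (σ : Equiv.Perm (Fin N)), (((Equiv.Perm.sign σ : ℤ) : ℂ) ^ 4) = 1 := by
    intro N σ
    rcases Int.units_eq_one_or (Equiv.Perm.sign σ) with h | h <;> rw [h] <;> norm_num
  have hlim := (tendsto_pow_const_div_const_pow_of_one_lt 4 (r := 2) (by norm_num)).eventually
    (gt_mem_nhds (show (0:ℝ) < c / 8 by positivity))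
  obtain ⟨N, hN, hN2⟩ := (hlim.and (Filter.eventually_ge_atTop 2)).exists
  obtain ⟨n, rfl⟩ : ∃ n, N = n + 2 := ⟨N - 2, by omega⟩
  have key := h (n + 2) (H99.Haldane.psi (n + 2))
    (fun σ => by rw [hsign, one_smul, H99.Haldane.psi_symm])
    (H99.Haldane.psi_homog.totalDegree_le.trans (by
      rw [Nat.le_div_iff_mul_le (by norm_num)]
      simp only [show n + 2 - 1 = n + 1 from rfl]
      nlinarith))
    (fun φ h1 _ h3 => H99.Haldane.orth (by omega)
      (fun σ => by rw [h1 σ, hsign, one_smul]) h3)
  have hB : (0:ℝ) ≤ 2 * (n + 2) ^ 2 / 2 ^ (n + 2) * (n + 2).factorial := by positivity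
  have h2 := key.trans (Finset.sum_le_sum fun i _ => Finset.sum_le_sum
    (g := fun _ => (2 * (n + 2) ^ 2 / 2 ^ (n + 2) * (n + 2).factorial : ℝ)) fun j _ => by
      split_ifs with hij
      · exact H99.Haldane.energy hij.ne
      · exact hB)
  have h3 := (mul_le_mul_of_nonneg_left (H99.Haldane.norm_lower (n := n)) hc.le).trans h2
  simp only [Finset.sum_const, Finset.card_univ, Fintype.card_fin, nsmul_eq_mul] at h3
  push_cast at h3 hN
  have h4 : (0:ℝ) < (n + 2).factorial := by exact_mod_cast (n + 2).factorial_pos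
  have h5 : ((n:ℝ) + 2) * (((n:ℝ) + 2) * (2 * (n + 2) ^ 2 / 2 ^ (n + 2) * (n + 2).factorial))
      = 2 * ((n + 2) ^ 4 / 2 ^ (n + 2)) * (n + 2).factorial := by ring
  rw [h5] at h3
  nlinarith

end Pool.Agent.S15686
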