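import Pool.Statements.S15709
import Pool.Agent.H41.Rel3

set_option autoImplicit false
open FourierTransform
open Pool Pool.MP_3f7055_mp

namespace Pool.Agent.S15709

/-- For every q and every β in (0,1] there is a threshold a such that, for α>0 with α≠a, the relativistic Coulomb Hamiltonian with nuclear charge 2β/(πα) is stable (form ≥ 0 for all N, K, nuclei, fermionic states) exactly when α<a. -/
theorem result :
    ∀ q : ℕ, 0 < q → ∀ β : ℝ, 0 < β → β ≤ 1 →
      ∃ a : ℝ, ∀ α : ℝ, 0 < α → α ≠ a →
        ((∀ N K : ℕ, ∀ R : Fin K → Fin 3 → ℝ, Function.Injective R →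
            ∀ ψ : (Fin N → Fin q) → SchwartzMap (EuclideanSpace ℝ (Fin N × Fin 3)) ℂ,
              (∀ (π' : Equiv.Perm (Fin N)) (σ : Fin N → Fin q)
                  (x : EuclideanSpace ℝ (Fin N × Fin 3)),
                ψ (σ ∘ π') (WithLp.toLp 2 (fun p : Fin N × Fin 3 => WithLp.ofLp x (π' p.1, p.2)))
                  = ((Equiv.Perm.sign π' : ℤ) : ℂ) * ψ σ x) →
              0 ≤ (∑ σ : Fin N → Fin q, ∫ k : EuclideanSpace ℝ (Fin N × Fin 3),
                    (∑ i : Fin N, 2 * Real.pi *
                        Real.sqrt (∑ c : Fin 3, (WithLp.ofLp k (i, c)) ^ 2))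
                      * ‖𝓕 (fun y : EuclideanSpace ℝ (Fin N × Fin 3) => ψ σ y) k‖ ^ 2)
                + α * (∑ σ : Fin N → Fin q, ∫ x : EuclideanSpace ℝ (Fin N × Fin 3),
                    ((∑ i : Fin N, ∑ j : Fin N,
                        if i < j then 1 / Real.sqrt (∑ c : Fin 3,
                          (WithLp.ofLp x (i, c) - WithLp.ofLp x (j, c)) ^ 2) else 0)
                      - (2 * β / (Real.pi * α)) * (∑ i : Fin N, ∑ l : Fin K,
                          1 / Real.sqrt (∑ c : Fin 3, (WithLp.ofLp x (i, c) - R l c) ^ 2))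
                      + (2 * β / (Real.pi * α)) ^ 2 * (∑ l : Fin K, ∑ m : Fin K,
                          if l < m then 1 / Real.sqrt (∑ c : Fin 3, (R l c - R m c) ^ 2) else 0))
                    * ‖ψ σ x‖ ^ 2)) ↔ α < a) := by
  intro q hq β hβ _
  obtain ⟨a, ha⟩ := H41.Rel.sharp hq (c := 2 * β / Real.pi) (div_pos (by positivity) Real.pi_pos)
  refine ⟨a, fun α h0 h1 => ?_⟩
  have h := ha α h0 h1
  rw [div_div] at h
  exact h

end Pool.Agent.S15709
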