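import Pool.Statements.S15734
import Pool.Agent.H99.BorgModel

set_option autoImplicit false
open Pool Pool.MP_64ae42_mp

namespace Pool.Agent.S15734

/-- The negation of the preceding statement: Lift a Jacobi matrix (positive symmetric edge weights, potential b) on a finite connected graph to its universal cover tree; if the lifted operator on l2 of the tree has connected spectrum, then b is constant. -/
theorem result :
    ¬ (∀ (V D : Type) [Fintype V] [Fintype D] [DecidableEq D] (src : D → V) (rev : D → D),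
    (∀ d, rev (rev d) = d) → (∀ d, rev d ≠ d) →
    (SimpleGraph.fromRel (fun u v : V => ∃ d, src d = u ∧ src (rev d) = v)).Connected →
    ∀ (a : D → ℝ) (b : V → ℝ), (∀ d, 0 < a d) → (∀ d, a (rev d) = a d) →
    ∀ (v0 : V) (S : Set (List D)),
      (∀ l : List D, l ∈ S ↔ ((∀ d ∈ l.head?, src d = v0) ∧
         ∀ (i : ℕ) (d e : D), l[i]? = some d → l[i+1]? = some e →
           (src e = src (rev d) ∧ e ≠ rev d))) →
    ∀ H : lp (fun _ : S => ℂ) 2 →L[ℂ] lp (fun _ : S => ℂ) 2,
      (∀ (f : lp (fun _ : S => ℂ) 2) (x : S),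
        H f x = (b ((x.1.getLast?.map (fun d => src (rev d))).getD v0) : ℂ) * f x +
          ∑' y : S, (∑ d : D, if (y.1 = x.1 ++ [d] ∨ x.1 = y.1 ++ [d]) then (a d : ℂ) else 0) * f y) →
      IsPreconnected (spectrum ℂ H) → ∀ u v : V, b u = b v) := by
  intro h
  have key := h H99.Borg.V0 H99.Borg.D0 Prod.fst H99.Borg.rev H99.Borg.rev_rev H99.Borg.rev_ne
    H99.Borg.G_connected (fun _ => 1) (fun u => H99.Borg.bb (1 / 10) u.1) (fun _ => one_pos)
    (fun _ => rfl) H99.Borg.v0 H99.Borg.SS (fun _ => Iff.rfl) H99.Borg.model.H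
    (fun f x => by
      rw [H99.Borg.CT.H_apply, ← H99.Borg.model_sum]
      rfl)
    H99.Borg.model.preconnected (none, true) (some 0, true)
  simp [H99.Borg.bb] at key

end Pool.Agent.S15734
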