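import Pool.Statements.S15793
import Pool.Agent.H53.LpA

set_option autoImplicit false
open Pool Pool.MP_c9a3a4_mp

namespace Pool.Agent.S15793

/-- For every non-periodic limit-periodic potential V on the integers and every ε>0, there is a non-periodic limit-periodic V' uniformly ε-close to V such that the spectrum of the Schrödinger operator Δ+V' on ℓ²(ℤ) is not a Cantor set. -/
theorem result :
  ∀ V : ℤ → ℝ,
    (∀ ε : ℝ, 0 < ε → ∃ p : ℕ, 0 < p ∧ ∃ W : ℤ → ℝ,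
        (∀ n : ℤ, W (n + (p : ℤ)) = W n) ∧ ∀ n : ℤ, |V n - W n| < ε) →
    ¬ (∃ p : ℕ, 0 < p ∧ ∀ n : ℤ, V (n + (p : ℤ)) = V n) →
    ∀ ε : ℝ, 0 < ε → ∃ V' : ℤ → ℝ,
      (∀ δ : ℝ, 0 < δ → ∃ p : ℕ, 0 < p ∧ ∃ W : ℤ → ℝ,
          (∀ n : ℤ, W (n + (p : ℤ)) = W n) ∧ ∀ n : ℤ, |V' n - W n| < δ) ∧
      ¬ (∃ p : ℕ, 0 < p ∧ ∀ n : ℤ, V' (n + (p : ℤ)) = V' n) ∧
      (∀ n : ℤ, |V n - V' n| < ε) ∧
      ∀ S : Set ℝ,
        S = {E : ℝ | ¬ ((∃ R : lp (fun _ : ℤ => ℂ) 2 →L[ℂ] lp (fun _ : ℤ => ℂ) 2,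
              ∀ φ : lp (fun _ : ℤ => ℂ) 2, ∀ n : ℤ,
                R φ (n + 1) + R φ (n - 1) + ((V' n : ℂ) - (E : ℂ)) * R φ n = φ n) ∧
            (∀ ψ : ℤ → ℂ, Memℓp ψ 2 →
              (∀ n : ℤ, ψ (n + 1) + ψ (n - 1) + ((V' n : ℂ) - (E : ℂ)) * ψ n = 0) →
              ψ = 0))} →
        ¬ (S.Nonempty ∧ IsCompact S ∧ Perfect S ∧ IsTotallyDisconnected S) := by
  intro V hV _ ε hε
  obtain ⟨p, hp, P, hP, hVP⟩ := hV (ε / 2) (by positivity)
  obtain ⟨W, a, h1, h2, h3, h4⟩ := Pool.Agent.H53.Lp.exists_limit hp hP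
    (show 0 < ε / 4 by positivity)
  refine ⟨W, h2, h3, fun n => ?_, ?_⟩
  · have := abs_lt.1 (hVP n)
    have := abs_le.1 (h1 n)
    rw [abs_lt]; constructor <;> linarith
  rintro S hS ⟨-, -, -, htd⟩
  have hsub : Set.Icc a (a + ε / 4 / 2) ⊆ S := by
    intro E hE
    rw [hS]
    rintro ⟨⟨R, hR⟩, hinj⟩
    obtain ⟨u, hu, hu0, hu1⟩ := h4 E hE (1 / (‖R‖ + 1)) (by positivity)
    have mem : ∀ w : ℤ → ℝ, (Function.support w).Finite → Memℓp (fun n => (w n : ℂ)) 2 :=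
      fun w hw => (memℓp_zero (hw.subset fun n hn => by simpa using hn)).of_exponent_ge zero_le
    have nrm : ∀ (w : ℤ → ℝ) (hw : (Function.support w).Finite),
        ‖(⟨fun n => (w n : ℂ), mem w hw⟩ : lp (fun _ : ℤ => ℂ) 2)‖ ^ 2 =
          Pool.Agent.H53.Lp.ip w w := fun w hw => by
      have := lp.norm_rpow_eq_tsum (p := 2) (by norm_num)
        (⟨fun n => (w n : ℂ), mem w hw⟩ : lp (fun _ : ℤ => ℂ) 2)
      simp only [ENNReal.toReal_ofNat, Real.rpow_ofNat] at this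
      rw [this]
      refine tsum_congr fun n => ?_
      simp [sq]
    have hHf := Pool.Agent.H53.Lp.fin_Hop W E hu
    set uc : lp (fun _ : ℤ => ℂ) 2 := ⟨fun n => (u n : ℂ), mem u hu⟩ with huc
    set φ : lp (fun _ : ℤ => ℂ) 2 :=
      ⟨fun n => (Pool.Agent.H53.Lp.Hop W E u n : ℂ), mem _ hHf⟩ with hφ
    have e : R φ = uc := by
      have := hinj (R φ - uc : lp (fun _ : ℤ => ℂ) 2) (lp.memℓp _) (fun n => by
        have h5 := hR φ n
        have h6 : φ n = (Pool.Agent.H53.Lp.Hop W E u n : ℂ) := rfl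
        have h7 : ∀ n, uc n = (u n : ℂ) := fun n => rfl
        simp only [lp.coeFn_sub, Pi.sub_apply, h7]
        rw [h6, Pool.Agent.H53.Lp.Hop] at h5
        push_cast at h5
        linear_combination h5)
      exact sub_eq_zero.1 (lp.ext this)
    have h5 : ‖uc‖ ≤ ‖R‖ * ‖φ‖ := e ▸ R.le_opNorm φ
    have h6 := pow_le_pow_left₀ (norm_nonneg _) h5 2
    rw [mul_pow, nrm u hu, nrm _ hHf] at h6
    have h7 : ‖R‖ ^ 2 * (1 / (‖R‖ + 1)) ^ 2 < 1 := by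
      rw [← mul_pow, mul_one_div]
      exact pow_lt_one₀ (by positivity) ((div_lt_one (by positivity)).2 (by linarith)) two_ne_zero
    have h8 := mul_le_mul_of_nonneg_left hu1 (sq_nonneg ‖R‖)
    nlinarith
  have := htd _ hsub isPreconnected_Icc (Set.left_mem_Icc.2 (by linarith))
    (Set.right_mem_Icc.2 (by linarith))
  linarith

end Pool.Agent.S15793
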