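import Pool.Statements.S15828
import Pool.Agent.H52.Feyn

set_option autoImplicit false
open Pool Pool.MP_f387d3_mp

namespace Pool.Agent.S15828

/-- The negation of the preceding statement: In the basic Feynman checkers model, with P(x,t) the squared norm of the checker-path amplitude at time t=n+1, there is a constant C such that every maximiser x of P(·,t) is within C of t/√2, for all t. -/
theorem result :
    ¬ (∃ C : ℝ, ∀ n : ℕ, ∀ x : ℤ,
      (∀ y : ℤ,
        (2:ℝ) ^ (-(n:ℤ)) *
          ‖∑ s ∈ Finset.univ.filter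
              (fun s : Fin (n+1) → Bool =>
                s 0 = true ∧ ∑ i, (if s i then (1:ℤ) else -1) = y),
            (-Complex.I) ^ ((Finset.univ.filter
              (fun i : Fin n => s i.castSucc ≠ s i.succ)).card)‖ ^ 2
        ≤
        (2:ℝ) ^ (-(n:ℤ)) *
          ‖∑ s ∈ Finset.univ.filter
              (fun s : Fin (n+1) → Bool =>
                s 0 = true ∧ ∑ i, (if s i then (1:ℤ) else -1) = x),
            (-Complex.I) ^ ((Finset.univ.filter
              (fun i : Fin n => s i.castSucc ≠ s i.succ)).card)‖ ^ 2) →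
      |(x:ℝ) - ((n:ℝ) + 1) / Real.sqrt 2| ≤ C) := by
  rintro ⟨C, hC⟩
  simp only [H52.Feyn.amp] at hC
  obtain ⟨n, hn⟩ := exists_nat_ge (4 * (20 * (|C| + 2) * (|C| + 2 + 14)) ^ 2)
  let P : ℤ → ℝ := fun y => (H52.Feyn.AB n y).1 ^ 2 + (H52.Feyn.AB n y).2 ^ 2
  obtain ⟨k, -, hk⟩ := Finset.exists_max_image (Finset.range (n + 2))
    (fun k : ℕ => P (n + 1 - 2 * k)) ⟨0, by simp⟩
  have hmax : ∀ y, P y ≤ P (n + 1 - 2 * k) := fun y => by
    rcases H52.Feyn.supp n y with h | ⟨j, hj, rfl⟩
    · simp only [P, h, Prod.fst_zero, Prod.snd_zero]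
      norm_num
      positivity
    · exact hk j (Finset.mem_range.2 (by omega))
  have h := (abs_le.1 (hC n (n + 1 - 2 * k) fun y =>
    mul_le_mul_of_nonneg_left (hmax y) (by positivity))).1
  have s2 : √2 * √2 = (2 : ℝ) := Real.mul_self_sqrt (by norm_num)
  have s0 : 1.41 < √2 := Real.lt_sqrt_of_sq_lt (by norm_num)
  have s1 : √2 < 1.42 := (Real.sqrt_lt' (by norm_num)).2 (by norm_num)
  have e : ((n : ℝ) + 1) / √2 = √2 / 2 * (n + 1) := by
    field_simp; linear_combination -s2
  have := le_abs_self C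
  have := abs_nonneg C
  refine absurd (hmax _) (not_le.2 (H52.Feyn.incr (r := √2 - 1) (C := |C| + 2)
    (by linear_combination s2) (by linarith) (by linarith) (by linarith) hn k ?_))
  push_cast at h
  rw [e] at h
  linarith

end Pool.Agent.S15828
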