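import Pool.Statements.S15846
import Pool.Agent.H59.SN4
import Pool.Agent.H59.CE1

set_option autoImplicit false
open Filter
open Pool Pool.MP_016e95_nt

namespace Pool.Agent.S15846

open Finset Pool.Agent.H59 Pool.Agent.H59.SN Pool.Agent.H59.Digits in
/-- The negation of the preceding statement: There exist a base b≥2 and a non-constant polynomial taking ℕ to ℕ such that concatenating the base-b digits of f(2),f(3),f(5),… gives a number that, in every base b^m, has digit-count deviations with limsup √(b^m−1)/b^m and liminf −√(b^m−1)/b^m. -/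
theorem result :
    ¬ (∃ b : ℕ, 2 ≤ b ∧ ∃ f : Polynomial ℚ, 0 < f.degree ∧ ∃ g : ℕ → ℕ,
    (∀ n : ℕ, 1 ≤ n → 1 ≤ g n ∧ ((g n : ℚ) = f.eval (n : ℚ))) ∧
    ∃ d : ℕ → ℕ,
      (∀ j i : ℕ, i < (Nat.digits b (g (Nat.nth Nat.Prime j))).length →
        d ((∑ t ∈ Finset.range j, (Nat.digits b (g (Nat.nth Nat.Prime t))).length) + i)
          = ((Nat.digits b (g (Nat.nth Nat.Prime j))).reverse).getD i 0) ∧
      ∀ m : ℕ, 1 ≤ m → ∀ k : ℕ, k < b ^ m → ∀ ε : ℝ, 0 < ε →
        (∀ᶠ n in atTop,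
          ((((Finset.range n).filter (fun j => ∑ i ∈ Finset.range m, d (m * j + i) * b ^ (m - 1 - i) = k)).card : ℝ)
              - (n : ℝ) / (b : ℝ) ^ m) / Real.sqrt (2 * (n : ℝ) * Real.log (Real.log (n : ℝ)))
            ≤ Real.sqrt ((b : ℝ) ^ m - 1) / (b : ℝ) ^ m + ε) ∧
        (∃ᶠ n in atTop,
          Real.sqrt ((b : ℝ) ^ m - 1) / (b : ℝ) ^ m - ε ≤
          ((((Finset.range n).filter (fun j => ∑ i ∈ Finset.range m, d (m * j + i) * b ^ (m - 1 - i) = k)).card : ℝ)
              - (n : ℝ) / (b : ℝ) ^ m) / Real.sqrt (2 * (n : ℝ) * Real.log (Real.log (n : ℝ)))) ∧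
        (∀ᶠ n in atTop,
          -(Real.sqrt ((b : ℝ) ^ m - 1) / (b : ℝ) ^ m) - ε ≤
          ((((Finset.range n).filter (fun j => ∑ i ∈ Finset.range m, d (m * j + i) * b ^ (m - 1 - i) = k)).card : ℝ)
              - (n : ℝ) / (b : ℝ) ^ m) / Real.sqrt (2 * (n : ℝ) * Real.log (Real.log (n : ℝ)))) ∧
        (∃ᶠ n in atTop,
          ((((Finset.range n).filter (fun j => ∑ i ∈ Finset.range m, d (m * j + i) * b ^ (m - 1 - i) = k)).card : ℝ)
              - (n : ℝ) / (b : ℝ) ^ m) / Real.sqrt (2 * (n : ℝ) * Real.log (Real.log (n : ℝ)))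
            ≤ -(Real.sqrt ((b : ℝ) ^ m - 1) / (b : ℝ) ^ m) + ε)) := by
  rintro ⟨b, hb, f, hf, g, hg, d, hd, H⟩
  set q := f.map (algebraMap ℚ ℝ) with hq
  have hφ : ∀ n : ℕ, 1 ≤ n → q.eval (n : ℝ) = g n := fun n hn => by
    rw [hq, ← map_natCast (algebraMap ℚ ℝ), Polynomial.eval_map, Polynomial.eval₂_at_apply,
      ← (hg n hn).2, map_natCast]
  have q1 : 0 < q.degree := by rwa [hq, Polynomial.degree_map]
  have q2 : 0 < q.leadingCoeff := by
    by_contra k
    obtain ⟨n, h1, h2⟩ := ((((q.tendsto_atBot_of_leadingCoeff_nonpos q1 (not_lt.1 k)).comp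
      tendsto_natCast_atTop_atTop).eventually_lt_atBot 0).and (eventually_ge_atTop 1)).exists
    rw [Function.comp_apply, hφ n h2] at h1
    exact absurd h1 (not_lt.2 (Nat.cast_nonneg _))
  obtain ⟨D, hD⟩ : ∃ D, q.natDegree = D + 1 :=
    ⟨_, (Nat.sub_add_cancel (Polynomial.natDegree_pos_iff_degree_pos.2 q1)).symm⟩
  obtain ⟨n0, C, n1, hG⟩ := pb q D hD q2
  obtain ⟨h1, -, h2, -⟩ := H 1 le_rfl 0 (by positivity) 1 one_pos
  obtain ⟨n3, h3⟩ := eventually_atTop.1 (h1.and (h2.and (eventually_ge_atTop 3)))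
  obtain ⟨n2, h4⟩ := eventually_atTop.1 (Nat.tendsto_primeCounting'.eventually_ge_atTop n3)
  obtain ⟨A, M, L, y, a1, a2, a3, a4, a5⟩ := core hb (hD ▸ P_poly q) (by positivity) hφ hG n1 n2
  have b2 : (2 : ℝ) ≤ b := by exact_mod_cast hb
  set len : ℕ → ℕ := fun p => (Nat.digits b (g p)).length with hlen
  set pos : ℕ → ℕ := fun i => ∑ t ∈ range i, len (Nat.nth Nat.Prime t) with hpos
  set U : ℕ → ℝ := fun n => ∑ j ∈ range n, z0 (d j) - n / b with hU
  have u1 : ∀ n, n3 ≤ n → n ≤ (A + M) * (L + 1) → |U n| ≤ 2 * y := fun n k1 k2 => by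
    obtain ⟨c1, c2, c3⟩ := h3 n k1
    have c4 : (3 : ℝ) ≤ n := by exact_mod_cast c3
    have c5 : 0 < √(2 * n * Real.log (Real.log n)) := Real.sqrt_pos.2 (mul_pos (by linarith)
      (Real.log_pos ((Real.lt_log_iff_exp_lt (by linarith)).2 (by linarith [Real.exp_one_lt_d9]))))
    have c6 : √((b : ℝ) - 1) / b ≤ 1 :=
      (div_le_one (by linarith)).2 (Real.sqrt_le_iff.2 ⟨by linarith, by nlinarith⟩)
    have c7 : ∑ j ∈ range n, z0 (d j) = (((range n).filter fun j => d j = 0).card : ℝ) := by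
      simp [z0]
    simp only [range_one, sum_singleton, pow_one, one_mul, add_zero, tsub_self, pow_zero,
      mul_one] at c1 c2
    rw [div_le_iff₀ c5] at c1
    rw [le_div_iff₀ c5] at c2
    have c8 := mul_le_mul_of_nonneg_right c6 c5.le
    rw [hU, abs_le]
    dsimp only
    rw [c7]
    constructor <;> linarith [a4 n c3 k2]
  have u2 : ∀ i, U (pos i) = ∑ t ∈ range i,
      (F b z0 (len (CE1.P t)) (g (CE1.P t)) - len (CE1.P t) / b) := fun i => by
    induction i with
    | zero => simp [hU, hpos]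
    | succ i ih =>
      rw [sum_range_succ, ← ih, hU, hpos]
      dsimp only
      rw [sum_range_succ, sum_range_add, F, ← sum_range_reflect (fun r => z0 (g (CE1.P i) / b ^ r % b)),
        sum_congr (s₁ := range (len (Nat.nth Nat.Prime i))) rfl
          (g := fun r => z0 (g (CE1.P i) / b ^ (len (CE1.P i) - 1 - r) % b)) fun r hr => ?_]
      · unfold CE1.P; push_cast; ring
      · have k := mem_range.1 hr
        rw [hd i r k, List.getD_eq_getElem?_getD, List.getElem?_reverse k,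
          ← List.getD_eq_getElem?_getD, Nat.getD_digits _ _ hb]
        rfl
  have g0 : ∀ t, g (Nat.nth Nat.Prime t) ≠ 0 := fun t =>
    Nat.one_le_iff_ne_zero.1 (hg _ (CE1.P_prime t).one_le).1
  have p1 : ∀ i, i ≤ pos i := fun i => by
    simpa using card_nsmul_le_sum (range i) (fun t => len (Nat.nth Nat.Prime t)) 1 fun t _ => by
      rw [hlen]; dsimp only; rw [Nat.length_digits b _ hb (g0 t)]; omega
  have p2 : ∀ i, i ≤ Nat.count Nat.Prime (A + M) → pos i ≤ (A + M) * (L + 1) := fun i hi => by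
    have := sum_le_card_nsmul (range i) (fun t => len (Nat.nth Nat.Prime t)) (L + 1) fun t ht =>
      (Nat.digits_length_le_iff hb _).2 (a2 _ (Nat.nth_lt_of_lt_count ((mem_range.1 ht).trans_le hi)))
    rw [card_range, smul_eq_mul] at this
    exact this.trans (Nat.mul_le_mul_right _ (hi.trans (Nat.count_le _)))
  have m1 : Nat.count Nat.Prime A ≤ Nat.count Nat.Prime (A + M) := Nat.count_monotone _ (by omega)
  have m2 : n3 ≤ Nat.count Nat.Prime A := h4 A a1
  have e1 := abs_le.1 (u1 _ (m2.trans (p1 _)) (p2 _ m1))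
  have e2 := abs_le.1 (u1 _ (m2.trans (m1.trans (p1 _))) (p2 _ le_rfl))
  have e3 := CE1.sum_primes (fun p => F b z0 (len p) (g p) - len p / b) A M
  rw [sum_Ico_eq_sub _ m1, ← u2, ← u2] at e3
  rw [sum_filter, sum_congr rfl (g := fun x => CE1.ι (A + x) *
    (F b z0 (len (A + x)) (g (A + x)) - len (A + x) / b)) fun x hx => ?_] at a5
  · linarith [e1.1, e2.2]
  · have k := mem_range.1 hx
    have k1 := a3 x k
    have k2 : len (A + x) = L + 1 := by
      rw [hlen]; dsimp only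
      rw [Nat.length_digits b _ hb (ne_of_gt (lt_of_lt_of_le (by positivity) k1)),
        Nat.log_eq_of_pow_le_of_lt_pow k1 (a2 _ (by omega))]
    rw [k2, CE1.ι]
    split_ifs <;> simp

end Pool.Agent.S15846
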