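import Pool.Statements.S15847
-- import your own Pool.Agent.* helpers here

set_option autoImplicit false
open Pool Pool.MP_01cdf7_nt

namespace Pool.Agent.S15847

open Finset Filter Topology

/-- The sum of the divisors of `p ^ e`. -/
def s (p e : ℕ) : ℕ := ∑ k ∈ range (e + 1), p ^ k

/-- The abundancy of `p ^ e`. -/
noncomputable def g (p e : ℕ) : ℝ := (s p e : ℝ) / (p : ℝ) ^ e

lemma s_mul (p e : ℕ) : (s p e : ℝ) * ((p : ℝ) - 1) = (p : ℝ) ^ (e + 1) - 1 := by
  unfold s; push_cast; exact geom_sum_mul _ _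

lemma s_mul_int (p e : ℕ) : (s p e : ℤ) * ((p : ℤ) - 1) = (p : ℤ) ^ (e + 1) - 1 := by
  unfold s; push_cast; exact geom_sum_mul _ _

lemma g_eq (p e : ℕ) (hp : 2 ≤ p) :
    g p e = (p : ℝ) / ((p : ℝ) - 1) * (1 - 1 / (p : ℝ) ^ (e + 1)) := by
  have h1 : (2 : ℝ) ≤ p := by exact_mod_cast hp
  have h2 : (p : ℝ) - 1 ≠ 0 := by linarith
  have h3 : (p : ℝ) ≠ 0 := by linarith
  have h4 := s_mul p e
  have h5 : (s p e : ℝ) = ((p : ℝ) ^ (e + 1) - 1) / ((p : ℝ) - 1) := by
    rw [eq_div_iff h2]; exact h4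
  unfold g
  rw [h5]; field_simp; ring

lemma one_le_g (p e : ℕ) (hp : 2 ≤ p) : 1 ≤ g p e := by
  unfold g
  have h1 : (0 : ℝ) < (p : ℝ) ^ e := by positivity
  rw [le_div_iff₀ h1, one_mul]
  have : p ^ e ≤ s p e := by
    unfold s
    exact Finset.single_le_sum (f := fun k => p ^ k) (fun _ _ => Nat.zero_le _)
      (Finset.mem_range.2 (Nat.lt_succ_self e))
  exact_mod_cast this

lemma one_lt_g (p e : ℕ) (hp : 2 ≤ p) (he : 1 ≤ e) : 1 < g p e := by
  unfold g
  have h1 : (0 : ℝ) < (p : ℝ) ^ e := by positivity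
  rw [lt_div_iff₀ h1, one_mul]
  have : p ^ e < s p e := by
    unfold s
    rw [Finset.sum_range_succ]
    have : 0 < ∑ k ∈ range e, p ^ k :=
      Finset.sum_pos (fun _ _ => by positivity) ⟨0, Finset.mem_range.2 (by omega)⟩
    omega
  exact_mod_cast this

lemma g_le (p e K : ℕ) (hK : 1 ≤ K) (hp : K < p) : g p e ≤ 1 + 1 / (K : ℝ) := by
  rw [g_eq p e (by omega)]
  have h1 : (1 : ℝ) ≤ K := by exact_mod_cast hK
  have h2 : (K : ℝ) + 1 ≤ p := by exact_mod_cast hp
  have h3 : (0 : ℝ) < (p : ℝ) - 1 := by linarith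
  have h4 : (0 : ℝ) ≤ 1 / (p : ℝ) ^ (e + 1) := by positivity
  have h5 : (p : ℝ) / ((p : ℝ) - 1) ≤ 1 + 1 / (K : ℝ) := by
    have : (p : ℝ) / ((p : ℝ) - 1) = 1 + 1 / ((p : ℝ) - 1) := by field_simp; ring
    rw [this]
    have : 1 / ((p : ℝ) - 1) ≤ 1 / (K : ℝ) := one_div_le_one_div_of_le (by linarith) (by linarith)
    linarith
  have h6 : 0 ≤ (p : ℝ) / ((p : ℝ) - 1) := by positivity
  nlinarith

lemma g_tendsto (p : ℕ) (hp : 2 ≤ p) :
    Tendsto (fun e => g p e) atTop (𝓝 ((p : ℝ) / ((p : ℝ) - 1))) := by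
  have h1 : (1 : ℝ) < p := by exact_mod_cast hp
  have h2 : Tendsto (fun e : ℕ => 1 / (p : ℝ) ^ (e + 1)) atTop (𝓝 0) := by
    have := (tendsto_pow_atTop_atTop_of_one_lt h1).comp (tendsto_add_atTop_nat 1)
    refine this.inv_tendsto_atTop.congr (fun e => ?_)
    simp
  have h3 := (h2.const_sub 1).const_mul ((p : ℝ) / ((p : ℝ) - 1))
  simp only [sub_zero, mul_one] at h3
  exact h3.congr (fun e => (g_eq p e hp).symm)

lemma abund (n : ℕ) (hn : n ≠ 0) :
    ((∑ i ∈ n.divisors, i : ℕ) : ℝ) / n = ∏ p ∈ n.primeFactors, g p (n.factorization p) := by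
  unfold g s
  rw [Finset.prod_div_distrib, Nat.sum_divisors hn]
  congr 1
  · push_cast; rfl
  · conv_lhs => rw [Nat.prod_primeFactors_pow_factorization hn]
    push_cast; rfl

lemma ultra_dich (U : Ultrafilter ℕ) (f : ℕ → ℕ) :
    Tendsto f U atTop ∨ ∃ e, ∀ᶠ n in (U : Filter ℕ), f n = e := by
  rcases (U.map f).le_cofinite_or_eq_pure with h | ⟨e, h⟩
  · left
    rw [Nat.cofinite_eq_atTop] at h
    exact h
  · right
    refine ⟨e, ?_⟩
    have : ({e} : Set ℕ) ∈ U.map f := by rw [h]; simp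
    exact this

/-- The limit of the abundancy cannot be two when some exponent is unbounded. -/
lemma not_two (A B : Finset ℕ) (e : ℕ → ℕ) (hA : ∀ p ∈ A, p.Prime) (hB : ∀ p ∈ B, p.Prime)
    (hodd : ∀ p ∈ B, p ≠ 2) (hdisj : Disjoint A B) (hne : B.Nonempty) :
    (∏ p ∈ A, g p (e p)) * ∏ p ∈ B, (p : ℝ) / ((p : ℝ) - 1) ≠ 2 := by
  intro h
  have hApos : (0 : ℝ) < ∏ p ∈ A, (p : ℝ) ^ e p :=
    Finset.prod_pos (fun p hp => by have := (hA p hp).pos; positivity)
  have hBpos : (0 : ℝ) < ∏ p ∈ B, ((p : ℝ) - 1) :=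
    Finset.prod_pos (fun p hp => by
      have : (2 : ℝ) ≤ p := by exact_mod_cast (hB p hp).two_le
      linarith)
  unfold g at h
  rw [Finset.prod_div_distrib, Finset.prod_div_distrib, div_mul_div_comm,
    div_eq_iff (by positivity)] at h
  have hB' : ∏ p ∈ B, ((p : ℝ) - 1) = ((∏ p ∈ B, (p - 1) : ℕ) : ℝ) := by
    push_cast
    refine Finset.prod_congr rfl (fun p hp => ?_)
    rw [Nat.cast_sub (hB p hp).one_le]; simp
  rw [hB'] at h
  have h' : (∏ p ∈ A, s p (e p)) * ∏ p ∈ B, p =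
      2 * ((∏ p ∈ A, p ^ e p) * ∏ p ∈ B, (p - 1)) := by
    apply Nat.cast_injective (R := ℝ)
    rw [Nat.cast_mul, Nat.cast_mul, Nat.cast_mul, ← sub_eq_zero]
    rw [← sub_eq_zero] at h
    simpa only [Nat.cast_prod, Nat.cast_pow, Nat.cast_ofNat] using h
  set q := B.max' hne with hq
  have hqB : q ∈ B := B.max'_mem hne
  have hqp : q.Prime := hB q hqB
  have hdvd : q ∣ 2 * ((∏ p ∈ A, p ^ e p) * ∏ p ∈ B, (p - 1)) := by
    rw [← h']
    exact Dvd.dvd.mul_left (Finset.dvd_prod_of_mem (fun p => p) hqB) _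
  rcases (Nat.Prime.dvd_mul hqp).1 hdvd with h2 | h2
  · exact hodd q hqB ((Nat.prime_dvd_prime_iff_eq hqp Nat.prime_two).1 h2)
  rcases (Nat.Prime.dvd_mul hqp).1 h2 with h3 | h3
  · obtain ⟨p, hp, hpd⟩ := (Prime.dvd_finsetProd_iff hqp.prime _).1 h3
    have := (Nat.prime_dvd_prime_iff_eq hqp (hA p hp)).1 (hqp.dvd_of_dvd_pow hpd)
    exact Finset.disjoint_left.1 hdisj (this ▸ hp) hqB
  · obtain ⟨p, hp, hpd⟩ := (Prime.dvd_finsetProd_iff hqp.prime _).1 h3
    have h4 : p ≤ q := B.le_max' p hp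
    have h5 := (hB p hp).two_le
    have := Nat.le_of_dvd (by omega) hpd
    omega

/-- The parity obstruction when the abundancy equals its limit. -/
lemma parity (B C : Finset ℕ) (v : ℕ → ℕ) (hB : ∀ p ∈ B, p.Prime ∧ Odd p)
    (hC : ∀ p ∈ C, p.Prime ∧ Odd p) (hne : B.Nonempty) :
    (∏ p ∈ B, g p (v p)) * ∏ p ∈ C, g p (v p) ≠ ∏ p ∈ B, (p : ℝ) / ((p : ℝ) - 1) := by
  intro h
  have h1 : ∏ p ∈ B, g p (v p) = (∏ p ∈ B, (p : ℝ) / ((p : ℝ) - 1)) *
      ∏ p ∈ B, (((p : ℝ) ^ (v p + 1) - 1) / (p : ℝ) ^ (v p + 1)) := by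
    rw [← Finset.prod_mul_distrib]
    refine Finset.prod_congr rfl (fun p hp => ?_)
    rw [g_eq p _ (hB p hp).1.two_le]
    have : (0 : ℝ) < p := by exact_mod_cast (hB p hp).1.pos
    congr 1; field_simp
  have hpos : (0 : ℝ) < ∏ p ∈ B, (p : ℝ) / ((p : ℝ) - 1) :=
    Finset.prod_pos (fun p hp => by
      have : (2 : ℝ) ≤ p := by exact_mod_cast (hB p hp).1.two_le
      exact div_pos (by linarith) (by linarith))
  rw [h1, mul_assoc] at h
  have h2 := mul_left_cancel₀ hpos.ne' (h.trans (mul_one _).symm)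
  unfold g at h2
  have hBp : (0 : ℝ) < ∏ p ∈ B, (p : ℝ) ^ (v p + 1) :=
    Finset.prod_pos (fun p hp => by have := (hB p hp).1.pos; positivity)
  have hCp : (0 : ℝ) < ∏ p ∈ C, (p : ℝ) ^ (v p) :=
    Finset.prod_pos (fun p hp => by have := (hC p hp).1.pos; positivity)
  rw [Finset.prod_div_distrib, Finset.prod_div_distrib, div_mul_div_comm,
    div_eq_iff (by positivity), one_mul] at h2
  have h3 : (∏ p ∈ B, ((p : ℤ) ^ (v p + 1) - 1)) * ∏ p ∈ C, (s p (v p) : ℤ) =
      (∏ p ∈ B, (p : ℤ) ^ (v p + 1)) * ∏ p ∈ C, (p : ℤ) ^ (v p) := by exact_mod_cast h2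
  obtain ⟨q, hq⟩ := hne
  have hev : (2 : ℤ) ∣ (∏ p ∈ B, ((p : ℤ) ^ (v p + 1) - 1)) * ∏ p ∈ C, (s p (v p) : ℤ) := by
    refine Dvd.dvd.mul_right (dvd_trans ?_
      (Finset.dvd_prod_of_mem (fun p : ℕ => (p : ℤ) ^ (v p + 1) - 1) hq)) _
    have : Odd ((q : ℤ) ^ (v q + 1)) := (Int.odd_coe_nat q |>.2 (hB q hq).2).pow
    exact (this.sub_odd odd_one).two_dvd
  rw [h3] at hev
  have hp2 : Prime (2 : ℤ) := Int.prime_two
  rcases hp2.dvd_or_dvd hev with h4 | h4
  · obtain ⟨p, hp, hpd⟩ := (Prime.dvd_finsetProd_iff hp2 _).1 h4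
    have h5 : Odd ((p : ℤ) ^ (v p + 1)) := (Int.odd_coe_nat p |>.2 (hB p hp).2).pow
    exact (Int.not_even_iff_odd.2 h5) (even_iff_two_dvd.2 hpd)
  · obtain ⟨p, hp, hpd⟩ := (Prime.dvd_finsetProd_iff hp2 _).1 h4
    have h5 : Odd ((p : ℤ) ^ (v p)) := (Int.odd_coe_nat p |>.2 (hC p hp).2).pow
    exact (Int.not_even_iff_odd.2 h5) (even_iff_two_dvd.2 hpd)

/-- For every k ≥ 3, only finitely many odd n have exactly k distinct prime factors and a divisor d < n with sum of divisors of n equal to 2n − d. -/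
theorem result :
    ∀ k : ℕ, 3 ≤ k →
      Set.Finite {n : ℕ | Odd n ∧ n.primeFactors.card = k ∧
        ∃ d : ℕ, d ∣ n ∧ d < n ∧ (∑ i ∈ n.divisors, i) + d = 2 * n} := by
  classical
  intro k _
  by_contra hinf
  set S := {n : ℕ | Odd n ∧ n.primeFactors.card = k ∧
        ∃ d : ℕ, d ∣ n ∧ d < n ∧ (∑ i ∈ n.divisors, i) + d = 2 * n} with hS
  have hinf' : S.Infinite := hinf
  have hne : (cofinite ⊓ 𝓟 S).NeBot := hinf'.cofinite_inf_principal_neBot
  set U : Ultrafilter ℕ := Ultrafilter.of (cofinite ⊓ 𝓟 S) with hU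
  have hUle : (U : Filter ℕ) ≤ cofinite ⊓ 𝓟 S := Ultrafilter.of_le _
  have hUc : (U : Filter ℕ) ≤ cofinite := hUle.trans inf_le_left
  have hUS : ∀ᶠ n in (U : Filter ℕ), n ∈ S := le_principal_iff.1 (hUle.trans inf_le_right)
  have hS0 : ∀ n ∈ S, n ≠ 0 := fun n hn h0 => by
    have := hn.1; rw [h0] at this; exact absurd this (by decide)
  -- the primes dividing almost every member
  have hTfin : {p : ℕ | p.Prime ∧ ∀ᶠ n in (U : Filter ℕ), p ∣ n}.Finite := by
    by_contra hT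
    obtain ⟨t, ht, hc⟩ := Set.Infinite.exists_subset_card_eq hT (k + 1)
    have h1 : ∀ᶠ n in (U : Filter ℕ), ∀ p ∈ t, p ∣ n :=
      (Filter.eventually_all_finset t).2 (fun p hp => (ht hp).2)
    obtain ⟨n, hn1, hn2⟩ := (h1.and hUS).exists
    have : t ⊆ n.primeFactors := fun p hp =>
      Nat.mem_primeFactors.2 ⟨(ht hp).1, hn1 p hp, hS0 n hn2⟩
    have := Finset.card_le_card this
    rw [hc, hn2.2.1] at this
    omega
  set T := hTfin.toFinset with hT
  have hTmem : ∀ p, p ∈ T ↔ p.Prime ∧ ∀ᶠ n in (U : Filter ℕ), p ∣ n := fun p => by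
    simp [hT]
  set B := T.filter (fun p => Tendsto (fun n : ℕ => n.factorization p) U atTop) with hB
  set A := T.filter (fun p => ¬ Tendsto (fun n : ℕ => n.factorization p) U atTop) with hA
  have hAe : ∀ p, ∃ e : ℕ, p ∈ A → ∀ᶠ n in (U : Filter ℕ), n.factorization p = e := by
    intro p
    rcases ultra_dich U (fun n => n.factorization p) with h | ⟨e, h⟩
    · exact ⟨0, fun hp => absurd h (Finset.mem_filter.1 hp).2⟩
    · exact ⟨e, fun _ => h⟩
  choose e he using hAe
  have hdisj : Disjoint A B := by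
    rw [Finset.disjoint_left]
    intro p hpA hpB
    exact (Finset.mem_filter.1 hpA).2 (Finset.mem_filter.1 hpB).2
  have hAB : ∀ f : ℕ → ℝ, ∏ p ∈ T, f p = (∏ p ∈ A, f p) * ∏ p ∈ B, f p := fun f => by
    rw [mul_comm]
    exact (Finset.prod_filter_mul_prod_filter_not T _ f).symm
  have hTsub : ∀ᶠ n in (U : Filter ℕ), T ⊆ n.primeFactors := by
    have h1 : ∀ᶠ n in (U : Filter ℕ), ∀ p ∈ T, p ∣ n :=
      (Filter.eventually_all_finset T).2 (fun p hp => ((hTmem p).1 hp).2)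
    filter_upwards [h1, hUS] with n hn1 hn2 p hp
    exact Nat.mem_primeFactors.2 ⟨((hTmem p).1 hp).1, hn1 p hp, hS0 n hn2⟩
  have hAev : ∀ᶠ n in (U : Filter ℕ), ∀ p ∈ A, n.factorization p = e p :=
    (Filter.eventually_all_finset A).2 (fun p hp => he p hp)
  have hTodd : ∀ p ∈ T, Odd p := by
    intro p hp
    obtain ⟨n, hn1, hn2⟩ := ((((hTmem p).1 hp).2).and hUS).exists
    exact hn2.1.of_dvd_nat hn1
  set R : ℕ → ℝ := fun n => ∏ p ∈ n.primeFactors \ T, g p (n.factorization p) with hR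
  set GB : ℕ → ℝ := fun n => ∏ p ∈ B, g p (n.factorization p) with hGB
  set a : ℝ := ∏ p ∈ A, g p (e p) with ha
  set b : ℝ := ∏ p ∈ B, (p : ℝ) / ((p : ℝ) - 1) with hb
  have hdec : ∀ᶠ n in (U : Filter ℕ),
      ((∑ i ∈ n.divisors, i : ℕ) : ℝ) / n = a * GB n * R n := by
    filter_upwards [hTsub, hAev, hUS] with n h1 h2 h3
    rw [abund n (hS0 n h3), ← Finset.prod_sdiff h1, hAB, mul_comm]
    congr 2
    exact Finset.prod_congr rfl (fun p hp => by rw [h2 p hp])
  have hR1 : ∀ n, 1 ≤ R n := fun n =>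
    Finset.one_le_prod (fun p hp =>
      one_le_g p _ (Nat.prime_of_mem_primeFactors (Finset.mem_sdiff.1 hp).1).two_le)
  have hRlim : Tendsto R U (𝓝 1) := by
    have hK : Tendsto (fun K : ℕ => (1 + 1 / (K : ℝ)) ^ k) atTop (𝓝 1) := by
      have := (tendsto_one_div_atTop_nhds_zero_nat (𝕜 := ℝ)).const_add 1 |>.pow k
      simpa using this
    rw [tendsto_order]
    refine ⟨fun x hx => Filter.Eventually.of_forall (fun n => lt_of_lt_of_le hx (hR1 n)), ?_⟩
    intro x hx
    obtain ⟨K, hK1, hK2⟩ := (((tendsto_order.1 hK).2 x hx).and (eventually_ge_atTop 1)).exists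
    have h1 : ∀ᶠ n in (U : Filter ℕ), ∀ p ∈ range (K + 1), p.Prime → p ∉ T → ¬ p ∣ n := by
      refine (Filter.eventually_all_finset _).2 (fun p _ => ?_)
      by_cases hpp : p.Prime
      · by_cases hpT : p ∈ T
        · exact Filter.Eventually.of_forall (fun n _ h => absurd hpT h)
        · have : ¬ ∀ᶠ n in (U : Filter ℕ), p ∣ n := fun h => hpT ((hTmem p).2 ⟨hpp, h⟩)
          filter_upwards [Ultrafilter.eventually_not.2 this] with n hn _ _ using hn
      · exact Filter.Eventually.of_forall (fun n h => absurd h hpp)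
    filter_upwards [h1, hUS] with n hn1 hn2
    refine lt_of_le_of_lt ?_ hK1
    have hK0 : (0 : ℝ) ≤ 1 / (K : ℝ) := by positivity
    calc R n ≤ ∏ _p ∈ n.primeFactors \ T, (1 + 1 / (K : ℝ)) := by
          refine Finset.prod_le_prod (fun p hp => ?_) (fun p hp => ?_)
          · exact zero_le_one.trans (one_le_g p _
              (Nat.prime_of_mem_primeFactors (Finset.mem_sdiff.1 hp).1).two_le)
          · obtain ⟨hp1, hp2⟩ := Finset.mem_sdiff.1 hp
            refine g_le p _ K hK2 ?_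
            by_contra hcon
            exact hn1 p (Finset.mem_range.2 (by omega)) (Nat.prime_of_mem_primeFactors hp1) hp2
              (Nat.dvd_of_mem_primeFactors hp1)
      _ = (1 + 1 / (K : ℝ)) ^ (n.primeFactors \ T).card := Finset.prod_const _
      _ ≤ (1 + 1 / (K : ℝ)) ^ k := by
          refine pow_le_pow_right₀ (by linarith) ?_
          rw [← hn2.2.1]
          exact Finset.card_le_card Finset.sdiff_subset
  have hGBlim : Tendsto GB U (𝓝 b) := by
    refine tendsto_finsetProd B (fun p hp => ?_)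
    obtain ⟨hp1, hp2⟩ := Finset.mem_filter.1 hp
    exact (g_tendsto p ((hTmem p).1 hp1).1.two_le).comp hp2
  have hlim : Tendsto (fun n : ℕ => ((∑ i ∈ n.divisors, i : ℕ) : ℝ) / n) U (𝓝 (a * b)) := by
    have := (hGBlim.const_mul a).mul hRlim
    rw [mul_one] at this
    exact this.congr' (hdec.mono fun n hn => hn.symm)
  -- the cofactor of the deficient divisor
  set m : ℕ → ℕ := fun n => n / (2 * n - ∑ i ∈ n.divisors, i) with hm
  have hmS : ∀ n ∈ S, ((∑ i ∈ n.divisors, i : ℕ) : ℝ) / n = 2 - 1 / (m n : ℝ) ∧ 0 < m n := by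
    intro n hn
    obtain ⟨_, _, d, ⟨c, hc⟩, hd2, hd3⟩ := id hn
    have hn0 := hS0 n hn
    have hd0 : 0 < d := Nat.pos_of_ne_zero (fun h => hn0 (by rw [hc, h, zero_mul]))
    have hc0 : 0 < c := Nat.pos_of_ne_zero (fun h => hn0 (by rw [hc, h, mul_zero]))
    have e1 : 2 * n - ∑ i ∈ n.divisors, i = d := by omega
    have e2 : m n = c := by
      simp only [hm]
      rw [e1]
      exact Nat.div_eq_of_eq_mul_right hd0 hc
    rw [e2]
    refine ⟨?_, hc0⟩
    have e3 : ((∑ i ∈ n.divisors, i : ℕ) : ℝ) = 2 * n - d := by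
      have : ((∑ i ∈ n.divisors, i : ℕ) : ℝ) + d = 2 * n := by exact_mod_cast hd3
      linarith
    have e4 : (n : ℝ) = d * c := by exact_mod_cast hc
    have : (0 : ℝ) < d := by exact_mod_cast hd0
    have : (0 : ℝ) < c := by exact_mod_cast hc0
    rw [e3, e4]; field_simp
  have hAp : ∀ p ∈ A, p.Prime := fun p hp => ((hTmem p).1 (Finset.mem_filter.1 hp).1).1
  have hBp : ∀ p ∈ B, p.Prime := fun p hp => ((hTmem p).1 (Finset.mem_filter.1 hp).1).1
  have hBo : ∀ p ∈ B, Odd p := fun p hp => hTodd p (Finset.mem_filter.1 hp).1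
  have hapos : 0 < a := Finset.prod_pos (fun p hp =>
    zero_lt_one.trans_le (one_le_g p _ (hAp p hp).two_le))
  rcases ultra_dich U m with hmt | ⟨m0, hm0⟩
  · have hlim2 : Tendsto (fun n : ℕ => ((∑ i ∈ n.divisors, i : ℕ) : ℝ) / n) U (𝓝 2) := by
      have := ((tendsto_one_div_atTop_nhds_zero_nat (𝕜 := ℝ)).comp hmt).const_sub 2
      rw [sub_zero] at this
      exact this.congr' (hUS.mono fun n hn => (hmS n hn).1.symm)
    have hab : a * b = 2 := tendsto_nhds_unique hlim hlim2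
    rcases B.eq_empty_or_nonempty with hBe | hBn
    · obtain ⟨n, hn1, hn2⟩ := (hdec.and hUS).exists
      have h1 : GB n = 1 := by simp only [hGB]; rw [hBe]; simp
      have h2 : b = 1 := by rw [hb, hBe]; simp
      obtain ⟨h3, h4⟩ := hmS n hn2
      rw [h3, h1] at hn1
      rw [h2] at hab
      have h5 : (0 : ℝ) < 1 / (m n : ℝ) := by
        have : (0 : ℝ) < m n := by exact_mod_cast h4
        positivity
      have := hR1 n
      nlinarith
    · exact not_two A B e hAp hBp (fun p hp h2 => by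
        have := hBo p hp; rw [h2] at this; exact absurd this (by decide)) hdisj hBn hab
  · have hconst : ∀ᶠ n : ℕ in (U : Filter ℕ),
        ((∑ i ∈ n.divisors, i : ℕ) : ℝ) / n = 2 - 1 / (m0 : ℝ) := by
      filter_upwards [hm0, hUS] with n h1 h2
      rw [(hmS n h2).1, h1]
    have hlim2 : Tendsto (fun n : ℕ => ((∑ i ∈ n.divisors, i : ℕ) : ℝ) / n) U
        (𝓝 (2 - 1 / (m0 : ℝ))) :=
      tendsto_const_nhds.congr' (hconst.mono fun n hn => hn.symm)
    have hab : a * b = 2 - 1 / (m0 : ℝ) := tendsto_nhds_unique hlim hlim2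
    have hev : ∀ᶠ n in (U : Filter ℕ), GB n * R n = b := by
      filter_upwards [hconst, hdec] with n h1 h2
      rw [h1, ← hab, mul_assoc] at h2
      exact (mul_left_cancel₀ hapos.ne' h2).symm
    rcases B.eq_empty_or_nonempty with hBe | hBn
    · have hnA : ∀ᶠ n in (U : Filter ℕ), n = ∏ p ∈ A, p ^ e p := by
        filter_upwards [hev, hUS, hTsub, hAev] with n h1 h2 h3 h4
        have e1 : GB n = 1 := by simp only [hGB]; rw [hBe]; simp
        have e2 : b = 1 := by rw [hb, hBe]; simp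
        rw [e1, e2, one_mul] at h1
        have e3 : n.primeFactors \ T = ∅ := by
          by_contra hcon
          have hne' : (n.primeFactors \ T).Nonempty := Finset.nonempty_iff_ne_empty.2 hcon
          have : ∏ _p ∈ n.primeFactors \ T, (1 : ℝ) < R n := by
            refine Finset.prod_lt_prod_of_nonempty (fun _ _ => zero_lt_one) (fun p hp => ?_) hne'
            have hp1 := (Finset.mem_sdiff.1 hp).1
            refine one_lt_g p _ (Nat.prime_of_mem_primeFactors hp1).two_le ?_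
            exact (Nat.prime_of_mem_primeFactors hp1).factorization_pos_of_dvd (hS0 n h2)
              (Nat.dvd_of_mem_primeFactors hp1)
          rw [h1] at this
          simp at this
        have e4 : n.primeFactors = T :=
          Finset.Subset.antisymm (Finset.sdiff_eq_empty_iff_subset.1 e3) h3
        have e5 : T = A := by
          have := Finset.filter_union_filter_not_eq
            (fun p => Tendsto (fun n : ℕ => n.factorization p) U atTop) T
          rw [← hB, ← hA, hBe, Finset.empty_union] at this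
          exact this.symm
        conv_lhs => rw [Nat.prod_primeFactors_pow_factorization (hS0 n h2), e4, e5]
        exact Finset.prod_congr rfl (fun p hp => by rw [h4 p hp])
      have hnot : ∀ᶠ n in (U : Filter ℕ), n ≠ ∏ p ∈ A, p ^ e p :=
        hUc (Set.finite_singleton _).compl_mem_cofinite
      obtain ⟨n, h1, h2⟩ := (hnA.and hnot).exists
      exact h2 h1
    · obtain ⟨n, h1, h2⟩ := (hev.and hUS).exists
      refine parity B (n.primeFactors \ T) (fun p => n.factorization p)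
        (fun p hp => ⟨hBp p hp, hBo p hp⟩) (fun p hp => ?_) hBn h1
      have hp1 := (Finset.mem_sdiff.1 hp).1
      exact ⟨Nat.prime_of_mem_primeFactors hp1,
        h2.1.of_dvd_nat (Nat.dvd_of_mem_primeFactors hp1)⟩

end Pool.Agent.S15847
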