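import Pool.Statements.S15859
import Pool.Agent.H61.SailF

set_option autoImplicit false
open Matrix
open Pool Pool.MP_024ca5_nt

namespace Pool.Agent.S15859

/-- For every A in SL(3,Z) with irreducible characteristic polynomial having three real roots, and every one of the 8 eigen-cones, the sail has a 2-dimensional face whose plane f=c (f primitive integer form) has integer distance c at least 2. -/
theorem result :
    ∀ A : Matrix (Fin 3) (Fin 3) ℤ, A.det = 1 →
      Irreducible (A.charpoly.map (Int.castRingHom ℚ)) →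
      (A.charpoly.map (Int.castRingHom ℝ)).roots.card = 3 →
      ∀ (μ : Fin 3 → ℝ) (v : Fin 3 → (Fin 3 → ℝ)),
        Function.Injective μ →
        (∀ i, v i ≠ 0) →
        (∀ i, (A.map (Int.cast : ℤ → ℝ)) *ᵥ v i = μ i • v i) →
        ∀ K : Set (Fin 3 → ℤ),
          K = {x : Fin 3 → ℤ | x ≠ 0 ∧
                ∃ t : Fin 3 → ℝ, (∀ i, 0 ≤ t i) ∧
                  (fun j => (x j : ℝ)) = ∑ i, t i • v i} →
          ∃ f : Fin 3 → ℤ, (∀ d : ℤ, (∀ i, d ∣ f i) → IsUnit d) ∧
            ∃ c : ℤ, 2 ≤ c ∧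
              (∀ x ∈ K, c ≤ f ⬝ᵥ x) ∧
              ∃ p ∈ K, ∃ q ∈ K, ∃ r ∈ K,
                f ⬝ᵥ p = c ∧ f ⬝ᵥ q = c ∧ f ⬝ᵥ r = c ∧
                LinearIndependent ℤ ![q - p, r - p] := by
  intro A _ hirr _ μ v hμ hv0 hev K hK
  have hv : LinearIndependent ℝ v :=
    Module.End.eigenvectors_linearIndependent' (Matrix.toLin' (A.map (Int.cast : ℤ → ℝ))) μ hμ v
      fun i => ⟨Module.End.mem_eigenspace_iff.mpr (by rw [Matrix.toLin'_apply, hev]), hv0 i⟩
  obtain ⟨S, hS⟩ := H61.Sail.exists_sys A v μ hirr hv hev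
  obtain ⟨f, c, hc, ⟨z0, hz0⟩, hb, p, q, r, hp, hq, hr, fp, fq, fr, hD⟩ := H61.Sail.far_face S
  subst hK
  simp only [H61.Sail.dot_eq]
  refine ⟨f, fun d hd => ?_, c, hc, fun x hx => hb x ((hS x).mpr hx), p, (hS p).mp hp, q,
    (hS q).mp hq, r, (hS r).mp hr, fp, fq, fr, ?_⟩
  · refine isUnit_of_dvd_one ?_
    rw [← hz0]
    exact dvd_add (dvd_add ((hd 0).mul_right _) ((hd 1).mul_right _)) ((hd 2).mul_right _)
  · rw [LinearIndependent.pair_iff]
    intro s t h
    have h0 := congrFun h 0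
    have h1 := congrFun h 1
    have h2 := congrFun h 2
    simp only [Pi.add_apply, Pi.smul_apply, Pi.sub_apply, smul_eq_mul, Pi.zero_apply] at h0 h1 h2
    constructor
    · apply mul_right_cancel₀ hD
      unfold H61.Sail.D
      linear_combination (r 1 * p 2 - r 2 * p 1) * h0 + (r 2 * p 0 - r 0 * p 2) * h1 +
        (r 0 * p 1 - r 1 * p 0) * h2
    · apply mul_right_cancel₀ hD
      unfold H61.Sail.D
      linear_combination (p 1 * q 2 - p 2 * q 1) * h0 + (p 2 * q 0 - p 0 * q 2) * h1 +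
        (p 0 * q 1 - p 1 * q 0) * h2

end Pool.Agent.S15859
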