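import Pool.Statements.S15866
import Pool.Agent.H59.EG3

set_option autoImplicit false
open Pool Pool.MP_02969a_nt

namespace Pool.Agent.S15866

/-- The negation of the preceding statement: For every ε>0 and all large N, the largest subset of {1,…,N} where no 1/a equals a sum of reciprocals of other distinct elements of the set has size between (1/2−ε)N and (1/2+ε)N. -/
theorem result :
    ¬ (∀ ε : ℝ, 0 < ε → ∃ N₀ : ℕ, ∀ N : ℕ, N₀ ≤ N →
      (∃ A : Finset ℕ, A ⊆ Finset.Icc 1 N ∧
          (∀ a ∈ A, ∀ S : Finset ℕ, S ⊆ A → a ∉ S →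
              ∑ b ∈ S, (1 : ℚ) / (b : ℚ) ≠ (1 : ℚ) / (a : ℚ)) ∧
          (1 / 2 - ε) * (N : ℝ) ≤ (A.card : ℝ)) ∧
      (∀ A : Finset ℕ, A ⊆ Finset.Icc 1 N →
          (∀ a ∈ A, ∀ S : Finset ℕ, S ⊆ A → a ∉ S →
              ∑ b ∈ S, (1 : ℚ) / (b : ℚ) ≠ (1 : ℚ) / (a : ℚ)) →
          (A.card : ℝ) ≤ (1 / 2 + ε) * (N : ℝ))) := by
  intro hm
  obtain ⟨K, hK, hA⟩ := Pool.Agent.H59.EG.main
  have K0 : (0 : ℝ) < K := by positivity
  obtain ⟨N0, hN⟩ := hm (1 / (2 * K)) (by positivity)
  obtain ⟨h, H, h1, e, A, hs, hc, hno⟩ := hA (N0 + 1)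
  have e3 : 5 * H ≤ h := by nlinarith
  have m : ∀ a ∈ A, h - H < a ∧ a ≤ 2 * h := fun a ha => Finset.mem_Ioc.1 (hs ha)
  have key : ∀ a ∈ A, ∀ b ∈ A, ∀ c ∈ A, b < c → (1 : ℚ) / b + 1 / c ≠ 1 / a := by
    intro a ha b hb c hc hbc hs
    have a0 : 0 < a := by have := m a ha; omega
    have b0 : 0 < b := by have := m b hb; omega
    have c0 : 0 < c := by omega
    have e1 : a * (b + c) = b * c := by
      field_simp at hs
      exact_mod_cast (by linarith : (a : ℚ) * (b + c) = b * c)
    obtain ⟨g, x, y, g0, cp, rfl, rfl⟩ := Nat.exists_coprime' (Nat.gcd_pos_of_pos_left c b0)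
    have e2 : a * (x + y) = g * (x * y) := Nat.eq_of_mul_eq_mul_left g0 (by nlinarith)
    obtain ⟨d, rfl⟩ : x + y ∣ g := (Nat.Coprime.mul_right (m := x) (n := y)
      (by simpa using cp.symm) (by simpa using cp)).dvd_of_dvd_mul_right ⟨a, by rw [← e2]; ring⟩
    have x0 : 0 < x := Nat.pos_of_mul_pos_right b0 |> fun h => h
    have e4 : a = d * x * y := Nat.eq_of_mul_eq_mul_right (by omega : 0 < x + y) (by rw [e2]; ring)
    exact hno d x y x0 (lt_of_mul_lt_mul_right hbc (by positivity)) (e4 ▸ ha)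
      (by rwa [show d * x * (x + y) = x * ((x + y) * d) by ring])
      (by rwa [show d * y * (x + y) = y * ((x + y) * d) by ring])
  have := (hN (2 * h) (by omega)).2 A (fun a ha => Finset.mem_Icc.2 (by have := m a ha; omega))
    (fun a ha S hS haS hsum => by
      obtain c | c | c | c : S.card = 0 ∨ S.card = 1 ∨ S.card = 2 ∨ 3 ≤ S.card := by omega
      · rw [Finset.card_eq_zero.1 c, Finset.sum_empty] at hsum
        have : 0 < a := by have := m a ha; omega
        exact absurd hsum (ne_of_lt (by positivity))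
      · obtain ⟨b, rfl⟩ := Finset.card_eq_one.1 c
        simp only [Finset.sum_singleton, one_div, inv_inj, Nat.cast_inj] at hsum
        simp [hsum] at haS
      · obtain ⟨b, u, hbc, rfl⟩ := Finset.card_eq_two.1 c
        rw [Finset.sum_pair hbc] at hsum
        have hb : b ∈ A := hS (by simp)
        have hu : u ∈ A := hS (by simp)
        rcases lt_or_gt_of_ne hbc with h | h
        · exact key a ha b hb u hu h hsum
        · exact key a ha u hu b hb h (by rw [add_comm]; exact hsum)
      · have a1 := Finset.card_nsmul_le_sum S (fun b => (1 : ℚ) / b) (1 / (2 * h : ℕ)) fun b hb =>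
          one_div_le_one_div_of_le (by have := m b (hS hb); exact_mod_cast (by omega : 0 < b))
            (by exact_mod_cast (m b (hS hb)).2)
        have a2 := m a ha
        rw [hsum, nsmul_eq_mul, mul_one_div, div_le_div_iff₀ (by exact_mod_cast (by omega : 0 < 2 * h))
          (by exact_mod_cast (by omega : 0 < a)), one_mul] at a1
        have a3 : S.card * a ≤ 2 * h := by exact_mod_cast a1
        have := Nat.mul_le_mul_right a c
        omega)
  have e5 : (2 * h : ℝ) = K * H := by exact_mod_cast e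
  have H0 : (0 : ℝ) < H := by exact_mod_cast (by omega : 0 < H)
  have e6 : 1 / (2 * (K : ℝ)) * (K * H) = H / 2 := by field_simp
  push_cast at this
  rw [add_mul, e5, e6] at this
  linarith

end Pool.Agent.S15866
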