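import Pool.Statements.S15888
import Pool.Agent.Lead.NearAP

set_option autoImplicit false
open Pool Pool.MP_0426f4_nt

namespace Pool.Agent.S15888

open Pool.Agent.Lead.NearAP in
theorem result :
    ¬ (∀ t : ℕ, 3 ≤ t → ∃ n₀ : ℕ, ∀ n : ℕ, n₀ ≤ n → ∀ A : Finset ℕ, A ⊆ Finset.Icc 1 n →
      (∀ j w : ℕ, w * n < (2 ^ j) ^ 2 →
        ¬ ∃ b : ℕ, ∀ i ∈ Finset.Icc 1 (t - 1),
          ∃ a ∈ A, b + i * 2 ^ j ≤ a ∧ a ≤ b + i * 2 ^ j + w) →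
      (A.card : ℝ) / n * Real.log n ^ Real.log (Real.log n) < 1) := by
  intro h
  obtain ⟨n₀, hn⟩ := h 3 le_rfl
  set M := n₀ + 9 with hM
  obtain ⟨c, hc⟩ := big_class M
  have hn0 : n₀ ≤ 2 ^ (2 ^ M) := by
    have a1 : M < 2 ^ M := Nat.lt_two_pow_self
    have a2 : 2 ^ M < 2 ^ (2 ^ M) := Nat.lt_two_pow_self
    omega
  have h1 := hn (2 ^ (2 ^ M)) hn0 ((Finset.Icc 1 (2 ^ (2 ^ M))).filter (fun a => cls M a = c))
    (Finset.filter_subset _ _) (by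
      rintro j w hw ⟨b, hb⟩
      obtain ⟨a1, ha1, h1⟩ := hb 1 (by simp)
      obtain ⟨a2, ha2, h2⟩ := hb 2 (by simp)
      rw [Finset.mem_filter, Finset.mem_Icc] at ha1 ha2
      exact no_pair M j w b a1 a2 hw ha2.1.2 h1 h2 (ha1.2.trans ha2.2.symm))
  have hg := growth M (by omega)
  have hpos : (0 : ℝ) < ((2 ^ (2 ^ M) : ℕ) : ℝ) := by positivity
  set N : ℝ := ((2 ^ (2 ^ M) : ℕ) : ℝ)
  set K : ℝ := (((Finset.Icc 1 (2 ^ (2 ^ M))).filter (fun a => cls M a = c)).card : ℝ)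
  have hK : 0 ≤ K := by positivity
  have h2 : K / N * 6 ^ (M + 1) ≤ K / N * Real.log N ^ Real.log (Real.log N) :=
    mul_le_mul_of_nonneg_left hg (by positivity)
  have h3 : 1 ≤ K / N * 6 ^ (M + 1) := by
    rw [div_mul_eq_mul_div, le_div_iff₀ hpos]; linarith
  linarith

end Pool.Agent.S15888
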