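import Pool.Statements.S15889
import Pool.Agent.H53.DmE

set_option autoImplicit false
open Pool Pool.MP_04276e_nt

namespace Pool.Agent.S15889

/-- For all m and α ∈ ℝ^{m+1}, for a.e. t ∈ ℝ, infinitely many n ∈ ℤ^{m+2} satisfy ‖Σ n_i α_i + n_last t‖ < 1/(H (log H)^{m+2}) with H = ∏ max(∣n_i∣,2). -/
theorem result :
    ∀ m : ℕ, ∀ α : Fin (m + 1) → ℝ,
      ∀ᵐ t : ℝ ∂MeasureTheory.volume,
        Set.Infinite {n : Fin (m + 2) → ℤ |
          |(∑ i : Fin (m + 1), (n (Fin.castSucc i) : ℝ) * α i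
              + (n (Fin.last (m + 1)) : ℝ) * t)
            - (round (∑ i : Fin (m + 1), (n (Fin.castSucc i) : ℝ) * α i
              + (n (Fin.last (m + 1)) : ℝ) * t) : ℝ)|
          < 1 / ((∏ i : Fin (m + 2), max |(n i : ℝ)| 2)
              * (Real.log (∏ i : Fin (m + 2), max |(n i : ℝ)| 2)) ^ (m + 2))} := by
  exact Pool.Agent.H53.Dm.main

end Pool.Agent.S15889
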