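import Pool.Statements.S15919
import Pool.Agent.H55.RO3

set_option autoImplicit false
open Pool Pool.MP_06981f_nt

namespace Pool.Agent.S15919

/-- Suppose that for every finite F there is k such that every large n is a sum of at most k elements of A minus F, repetition allowed. Then there is t such that every large n is a sum of at most t distinct elements of A. -/
theorem result :
    ∀ A : Set ℕ,
      (∀ F : Finset ℕ, ∃ k : ℕ, ∀ᶠ n in Filter.atTop,
        ∃ s : Multiset ℕ, (∀ x ∈ s, x ∈ A ∧ x ∉ F) ∧ Multiset.card s ≤ k ∧ s.sum = n) →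
      ∃ t : ℕ, ∀ᶠ n in Filter.atTop,
        ∃ s : Finset ℕ, (↑s : Set ℕ) ⊆ A ∧ s.card ≤ t ∧ s.sum id = n := by
  intro A hA
  obtain ⟨t, N0, ht⟩ := Pool.Agent.H55.RO.stable A fun F => by
    obtain ⟨k, hk⟩ := hA F
    obtain ⟨n0, h0⟩ := Filter.eventually_atTop.1 hk
    exact ⟨k, n0, fun m hm => by
      obtain ⟨s, h1, h2, h3⟩ := h0 m hm
      exact ⟨s, h2, h1, h3⟩⟩
  refine ⟨t, Filter.eventually_atTop.2 ⟨N0, fun n hn => ?_⟩⟩
  obtain ⟨s, h1, h2, h3⟩ := ht n hn
  exact ⟨s, h2, h1, h3⟩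

end Pool.Agent.S15919
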