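import Pool.Statements.S15987
import Pool.Agent.H52.EvilNT

set_option autoImplicit false
open Pool Pool.MP_0c110c_nt

namespace Pool.Agent.S15987

/-- For every prime p ≥ 5 with p ≡ 3 mod 4, the integer matrix whose (j,k) entry is the Legendre symbol of j−k mod p, for j,k ranging over (p−3)/2 consecutive indices, has determinant 1. -/
theorem result :
    ∀ (p : ℕ) [Fact (Nat.Prime p)], 5 ≤ p → p % 4 = 3 →
      Matrix.det (Matrix.of (fun j k : Fin ((p - 3) / 2) =>
        legendreSym p (((j : ℕ) : ℤ) - ((k : ℕ) : ℤ)))) = 1 := by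
  intro p hp h5 h3
  have hc := H52.Evil.card_RR h3
  have hn : Even ((p - 3) / 2) := ⟨(p - 3) / 4, by omega⟩
  have hpn : p = 2 * ((p - 3) / 2) + 3 := by omega
  generalize (p - 3) / 2 = n at *
  let e := (H52.Evil.RR p).equivFinOfCardEq hc
  have H := H52.Evil.norm_det (ρ := fun i => (e.symm i).1)
    (Subtype.val_injective.comp e.symm.injective) (by
      ext t
      simp only [Finset.mem_image, Finset.mem_univ, true_and]
      exact ⟨fun ⟨i, hi⟩ => hi ▸ (e.symm i).2, fun h => ⟨e ⟨t, h⟩, by simp⟩⟩) hn h3 h5 hpn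
  have sk : ∀ j k : ℕ, quadraticCharFun (ZMod p) ((k : ZMod p) - j) =
      -quadraticCharFun (ZMod p) ((j : ZMod p) - k) := fun j k => by
    rw [← quadraticChar_apply, ← quadraticChar_apply, ← H52.Evil.chi_neg h3, neg_sub]
  rw [H52.Evil.det_add_corner hn _ (by ext j k; simp [sk j k])] at H
  set D := Matrix.of (fun j k : Fin n => legendreSym p (((j : ℕ) : ℤ) - ((k : ℕ) : ℤ))) with hD
  have h1 : ((D.det : ℤ) : ℂ) = Matrix.det (Matrix.submatrix (Matrix.of fun j k : Fin (n + 1) =>
      (quadraticChar (ZMod p) ((j : ℕ) - (k : ℕ)) : ℂ)) Fin.castSucc Fin.castSucc) := by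
    rw [Int.cast_det]
    congr 1
    ext j k
    simp [hD, legendreSym]
  rw [← h1, Complex.norm_intCast] at H
  have h2 : ((D.det : ℤ) : ℝ) ≠ -1 := by
    rw [Int.cast_det]
    refine H52.Evil.skew_ne _ ?_
    ext j k
    simp [hD, legendreSym, sk j k]
  rcases (abs_eq zero_le_one).1 H with h | h
  · exact_mod_cast h
  · exact absurd h h2

end Pool.Agent.S15987
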