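import Pool.Statements.S16009
import Pool.Agent.H62.KaraBox

set_option autoImplicit false
open Pool Pool.MP_0d02c1_nt

namespace Pool.Agent.S16009

open Filter

def Hy (n : ℕ) : Set (ℝ × ℝ) :=
  {p : ℝ × ℝ | ∃ x y : ℕ, 1 ≤ x ∧ x ≤ n - 1 ∧ 1 ≤ y ∧ y ≤ n - 1 ∧
    Nat.ModEq n (x * y) 1 ∧ p = ((x : ℝ), (y : ℝ))}

lemma Hy_finite (n : ℕ) : (Hy n).Finite := by
  refine (((Set.finite_Iic n).prod (Set.finite_Iic n)).image
    fun z : ℕ × ℕ => ((z.1 : ℝ), (z.2 : ℝ))).subset ?_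
  rintro _ ⟨x, y, -, h1, -, h2, -, rfl⟩
  exact ⟨(x, y), ⟨show x ≤ n by omega, show y ≤ n by omega⟩, rfl⟩

lemma exists_ext {S : Set (ℝ × ℝ)} (hS : S.Finite) {p : ℝ × ℝ} (hp : p ∈ S)
    (l : StrongDual ℝ (ℝ × ℝ)) :
    ∃ e ∈ Set.extremePoints ℝ (convexHull ℝ S), e ∈ S ∧ l p ≤ l e := by
  have hc := hS.isCompact_convexHull ℝ
  have hp' := subset_convexHull ℝ S hp
  have hx : IsExposed ℝ (convexHull ℝ S) (l.toExposed (convexHull ℝ S)) :=
    ContinuousLinearMap.toExposed.isExposed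
  obtain ⟨z, hz, hz2⟩ := hc.exists_isMaxOn ⟨p, hp'⟩ l.continuous.continuousOn
  obtain ⟨e, he⟩ := (hx.isCompact hc).extremePoints_nonempty ⟨z, hz, hz2⟩
  have h2 := hx.isExtreme.extremePoints_subset_extremePoints he
  exact ⟨e, h2, extremePoints_convexHull_subset h2, he.1.2 p hp'⟩

lemma vertex (i : ℕ) : ∃ M : ℕ, i + 1 ≤ M ∧ ∀ᶠ n : ℕ in atTop,
    ∃ e ∈ Set.extremePoints ℝ (convexHull ℝ (Hy n)),
      (n : ℝ) ^ ((M : ℝ)⁻¹) / 12 ≤ e.1 ∧ e.1 ≤ 2 * (n : ℝ) ^ (((i + 1 : ℕ) : ℝ)⁻¹) := by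
  obtain ⟨γ, hγ⟩ := H62.Kara.box i
  set L := (γ + 1) * (4 * i + 3) with hL
  refine ⟨L + 4, by nlinarith, ?_⟩
  have ht : Tendsto (fun n : ℕ => (n : ℝ) ^ (((L + 4 : ℕ) : ℝ)⁻¹)) atTop atTop :=
    (tendsto_rpow_atTop (by positivity)).comp tendsto_natCast_atTop_atTop
  filter_upwards [ht.eventually hγ, ht.eventually (eventually_ge_atTop 4), eventually_ge_atTop 2]
    with n h1 h2 h3
  set t := (n : ℝ) ^ (((L + 4 : ℕ) : ℝ)⁻¹) with htd
  have hn : (n : ℝ) = t ^ (L + 4) := (Real.rpow_inv_natCast_pow (by positivity) (by omega)).symm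
  obtain ⟨x, y, x1, x2, y1, y2, hd⟩ := h1 n hn
  have ht1 : 1 ≤ t := by linarith
  set X := (n : ℝ) ^ (((i + 1 : ℕ) : ℝ)⁻¹) with hX
  have hX1 : t ^ (2 * (γ + 1)) ≤ X := by
    refine le_of_pow_le_pow_left₀ (n := i + 1) (by omega) (by positivity) ?_
    rw [hX, Real.rpow_inv_natCast_pow (by positivity) (by omega), hn, ← pow_mul]
    exact pow_le_pow_right₀ ht1 (by nlinarith)
  have hX0 : 0 < X := lt_of_lt_of_le (by positivity) hX1
  have hlt : t ^ (L + 3) * 4 ≤ n := by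
    rw [hn, pow_succ t (L + 3)]
    gcongr
  have hp : 0 < t ^ (L + 3) := by positivity
  have x3 : x < n := by
    have : t ^ (2 * (γ + 1)) ≤ t ^ (L + 3) := pow_le_pow_right₀ ht1 (by nlinarith)
    have : (x : ℝ) < n := by linarith
    exact_mod_cast this
  have y3 : y < n := by
    have : (y : ℝ) < n := by linarith
    exact_mod_cast this
  have hm : ((x : ℝ), ((n - y : ℕ) : ℝ)) ∈ Hy n := by
    refine ⟨x, n - y, x1, by omega, by omega, by omega, ?_, rfl⟩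
    refine Nat.ModEq.add_right_cancel' (x * y) ?_
    rw [← mul_add, Nat.sub_add_cancel y3.le, add_comm]
    exact ((Nat.modEq_zero_iff_dvd.mpr (dvd_mul_left n x)).trans
      (Nat.modEq_zero_iff_dvd.mpr hd).symm)
  set c := 3 * t ^ (L + 3) / X with hc
  have hc0 : 0 < c := by positivity
  have hcX : c * X = 3 * t ^ (L + 3) := by rw [hc]; field_simp
  obtain ⟨e, e1, ⟨a, b, a1, a2, b1, b2, hab, rfl⟩, e3⟩ := exists_ext (Hy_finite n) hm
    (ContinuousLinearMap.snd ℝ ℝ ℝ - c • ContinuousLinearMap.fst ℝ ℝ ℝ)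
  simp only [ContinuousLinearMap.sub_apply, ContinuousLinearMap.coe_snd',
    ContinuousLinearMap.smul_apply, ContinuousLinearMap.coe_fst', smul_eq_mul,
    Nat.cast_sub y3.le] at e3
  have b3 : (b : ℝ) ≤ n := by exact_mod_cast (show b ≤ n by omega)
  have a0 : (0 : ℝ) ≤ a := by positivity
  have f1 : c * x ≤ c * X := mul_le_mul_of_nonneg_left (x2.trans hX1) hc0.le
  refine ⟨_, e1, ?_, le_of_mul_le_mul_left (by simp only; linarith) hc0⟩
  have g1 : n ∣ a * (n - b) + 1 := by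
    rw [← Nat.modEq_zero_iff_dvd]
    refine Nat.ModEq.add_right_cancel' (a * b) ?_
    rw [add_right_comm, ← mul_add, Nat.sub_add_cancel (by omega), zero_add]
    exact ((Nat.modEq_zero_iff_dvd.mpr (dvd_mul_left n a)).add_right 1).trans hab.symm
  have g2 := Nat.le_of_dvd (by omega) g1
  have g3 : (n : ℝ) ≤ a * (n - b) + 1 := by
    rw [← Nat.cast_sub (by omega)]
    exact_mod_cast g2
  have g4 : (n : ℝ) - b ≤ 6 * t ^ (L + 3) := by nlinarith
  have g5 : (2 : ℝ) ≤ n := by exact_mod_cast h3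
  have g6 := mul_le_mul_of_nonneg_left g4 a0
  refine le_of_mul_le_mul_right ?_ hp
  rw [pow_succ t (L + 3)] at hn
  simp only
  linarith

lemma many (m : ℕ) : ∀ i : ℕ, ∀ᶠ n : ℕ in atTop, ∃ F : Finset (ℝ × ℝ), F.card = m ∧
    ↑F ⊆ Set.extremePoints ℝ (convexHull ℝ (Hy n)) ∧
    ∀ e ∈ F, e.1 ≤ 2 * (n : ℝ) ^ (((i + 1 : ℕ) : ℝ)⁻¹) := by
  induction m with
  | zero => exact fun i => Eventually.of_forall fun n => ⟨∅, rfl, by simp, by simp⟩
  | succ m ih =>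
    intro i
    obtain ⟨M, hM, hv⟩ := vertex i
    have ht : Tendsto (fun n : ℕ => (n : ℝ) ^ (((2 * M - 1 + 1 : ℕ) : ℝ)⁻¹)) atTop atTop :=
      (tendsto_rpow_atTop (by positivity)).comp tendsto_natCast_atTop_atTop
    filter_upwards [hv, ih (2 * M - 1), ht.eventually (eventually_ge_atTop 25),
      eventually_ge_atTop 1] with n ⟨e, e1, e2, e3⟩ ⟨F, F1, F2, F3⟩ h3 h4
    have hn1 : (1 : ℝ) ≤ n := by exact_mod_cast h4
    have hM0 : (0 : ℝ) < M := by exact_mod_cast (show 0 < M by omega)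
    have q1 : (n : ℝ) ^ ((M : ℝ)⁻¹) = ((n : ℝ) ^ (((2 * M - 1 + 1 : ℕ) : ℝ)⁻¹)) ^ 2 := by
      rw [← Real.rpow_natCast, ← Real.rpow_mul (by positivity), show 2 * M - 1 + 1 = 2 * M by omega]
      congr 1
      push_cast
      field_simp
    have q2 : (n : ℝ) ^ (((2 * M - 1 + 1 : ℕ) : ℝ)⁻¹) ≤ (n : ℝ) ^ (((i + 1 : ℕ) : ℝ)⁻¹) :=
      Real.rpow_le_rpow_of_exponent_le hn1 (inv_anti₀ (by positivity) (by
        exact_mod_cast (show i + 1 ≤ 2 * M - 1 + 1 by omega)))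
    have he : e ∉ F := fun h => by
      have := F3 e h
      nlinarith
    classical
    refine ⟨insert e F, by rw [Finset.card_insert_of_notMem he, F1], ?_, fun f hf => ?_⟩
    · rw [Finset.coe_insert]
      exact Set.insert_subset e1 F2
    · rcases Finset.mem_insert.mp hf with rfl | hf
      · exact e3
      · linarith [F3 f hf]

/-- For every M, there is N such that for all n ≥ N, the convex hull of the integer points (x,y) with 1 ≤ x,y ≤ n−1 and xy ≡ 1 mod n has at least M vertices (extreme points). -/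
theorem result :
    ∀ M : ℕ, ∃ N : ℕ, ∀ n : ℕ, N ≤ n →
      M ≤ (Set.extremePoints ℝ
        (convexHull ℝ
          {p : ℝ × ℝ | ∃ x y : ℕ, 1 ≤ x ∧ x ≤ n - 1 ∧ 1 ≤ y ∧ y ≤ n - 1 ∧
            Nat.ModEq n (x * y) 1 ∧ p = ((x : ℝ), (y : ℝ))})).ncard := by
  intro M
  obtain ⟨N, hN⟩ := eventually_atTop.mp (many M 0)
  refine ⟨N, fun n hn => ?_⟩
  obtain ⟨F, F1, F2, -⟩ := hN n hn
  rw [← F1, ← Set.ncard_coe_finset]
  exact Set.ncard_le_ncard F2 ((Hy_finite n).subset extremePoints_convexHull_subset)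

end Pool.Agent.S16009
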