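import Pool.Statements.S16171
import Pool.Agent.H49.E122

set_option autoImplicit false
open Filter Topology
open Pool Pool.MP_184037_nt

namespace Pool.Agent.S16171

open Pool.Agent.H49.E122

theorem result :
    ¬ ∀ F : ℕ → ℝ, Tendsto F atTop atTop →
      (∀ ε : ℝ, 0 < ε →
        Tendsto (fun N : ℕ =>
          (((Finset.range N).filter
            (fun n => ε ≤ |F n / ((ArithmeticFunction.sigma 1 n : ℕ) : ℝ)|)).card : ℝ) / (N : ℝ))
          atTop (𝓝 0)) →
      ∀ C : ℝ, ∀ N : ℕ, ∃ x : ℕ, N < x ∧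
        C * F x < (Nat.card {n : ℕ //
          (x : ℝ) < (n : ℝ) + ((ArithmeticFunction.sigma 1 n : ℕ) : ℝ) ∧
          (n : ℝ) + ((ArithmeticFunction.sigma 1 n : ℕ) : ℝ) < (x : ℝ) + F x} : ℝ) := by
  intro h
  obtain ⟨N₂, hN₂⟩ := eventually_atTop.1 (K_tendsto.eventually_ge_atTop 2)
  have hdens : ∀ ε : ℝ, 0 < ε →
      Tendsto (fun N : ℕ =>
        (((Finset.range N).filter
          (fun n : ℕ => ε ≤ |(n : ℝ) / K n / ((ArithmeticFunction.sigma 1 n : ℕ) : ℝ)|)).card : ℝ) /
            (N : ℝ)) atTop (𝓝 0) := by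
    intro ε hε
    obtain ⟨N₀, hN₀⟩ := eventually_atTop.1 (K_tendsto_real.eventually_gt_atTop (1 / ε))
    have hb : ∀ N : ℕ, (((Finset.range N).filter
          (fun n : ℕ => ε ≤ |(n : ℝ) / K n / ((ArithmeticFunction.sigma 1 n : ℕ) : ℝ)|)).card : ℝ) ≤
          ((N₀ + 1 : ℕ) : ℝ) := by
      intro N
      have hsub : (Finset.range N).filter
          (fun n : ℕ => ε ≤ |(n : ℝ) / K n / ((ArithmeticFunction.sigma 1 n : ℕ) : ℝ)|) ⊆
          Finset.range (N₀ + 1) := by
        intro n hn
        rw [Finset.mem_range]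
        by_contra hcon
        have hn0 : N₀ ≤ n := by omega
        have hnpos : 0 < n := by omega
        have h1 := (Finset.mem_filter.1 hn).2
        have hK := hN₀ n hn0
        have hKpos : (0 : ℝ) < K n := lt_trans (by positivity) hK
        have hs : n ≤ ArithmeticFunction.sigma 1 n := by
          rw [ArithmeticFunction.sigma_one_apply]
          exact Finset.single_le_sum (f := fun d => d) (fun _ _ => Nat.zero_le _)
            (Nat.mem_divisors_self n hnpos.ne')
        have hs' : (n : ℝ) ≤ ((ArithmeticFunction.sigma 1 n : ℕ) : ℝ) := by exact_mod_cast hs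
        have hn' : (0 : ℝ) < n := by exact_mod_cast hnpos
        rw [abs_of_nonneg (by positivity)] at h1
        have h2 : (n : ℝ) / K n / ((ArithmeticFunction.sigma 1 n : ℕ) : ℝ) ≤ (n : ℝ) / K n / n := by
          gcongr
        have h3 : (n : ℝ) / K n / n = 1 / K n := by field_simp
        rw [div_lt_iff₀ hε] at hK
        have h4 : ε ≤ 1 / K n := by linarith
        rw [le_div_iff₀ hKpos] at h4
        linarith
      have := Finset.card_le_card hsub
      rw [Finset.card_range] at this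
      exact_mod_cast this
    refine squeeze_zero (fun N => by positivity) (fun N => ?_)
      (tendsto_const_div_atTop_nhds_zero_nat ((N₀ + 1 : ℕ) : ℝ))
    exact div_le_div_of_nonneg_right (hb N) (by positivity)
  obtain ⟨x, hx, hlt⟩ := h (fun x => (x : ℝ) / K x) F_tendsto hdens 15 N₂
  have hkey := key (fun _ => 1) (fun _ => by simp)
    (fun n => ((ArithmeticFunction.sigma 1 n : ℕ) : ℝ)) (fun n hn => sigma_eq n hn)
    (fun n => by positivity) (by simp) (K x) x (hN₂ x hx.le) (K_spec x)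
  have e : Nat.card {n : ℕ //
          (x : ℝ) < (n : ℝ) + ((ArithmeticFunction.sigma 1 n : ℕ) : ℝ) ∧
          (n : ℝ) + ((ArithmeticFunction.sigma 1 n : ℕ) : ℝ) < (x : ℝ) + (x : ℝ) / K x} =
      Set.ncard {n : ℕ |
          (x : ℝ) < (n : ℝ) + ((ArithmeticFunction.sigma 1 n : ℕ) : ℝ) ∧
          (n : ℝ) + ((ArithmeticFunction.sigma 1 n : ℕ) : ℝ) < (x : ℝ) + (x : ℝ) / K x} := by
    rw [← Nat.card_coe_set_eq]; rfl
  rw [e] at hlt
  linarith

end Pool.Agent.S16171
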