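import Pool.Statements.S16173
import Pool.Agent.H59.PureSieve
-- import your own Pool.Agent.* helpers here

set_option autoImplicit false
open N97cf5353
open Filter
open Pool Pool.MP_18694c_nt

namespace Pool.Agent.S16173

open Finset

/-- Indicator that `M (x + 2)` is an `n`-th root of unity modulo `q`. -/
noncomputable def ind (M n q x : ℕ) : ℝ :=
  if ((M * (x + 2) : ℕ) : ZMod q) ^ n = 1 then 1 else 0

lemma ind_nonneg (M n q x : ℕ) : 0 ≤ ind M n q x := by
  unfold ind; split_ifs <;> norm_num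

lemma ind_le_one (M n q x : ℕ) : ind M n q x ≤ 1 := by
  unfold ind; split_ifs <;> norm_num

lemma ind_periodic (M n q : ℕ) : Function.Periodic (ind M n q) q := by
  intro x
  unfold ind
  have : ((M * (x + q + 2) : ℕ) : ZMod q) = ((M * (x + 2) : ℕ) : ZMod q) := by
    push_cast; simp
  rw [this]

lemma ind_count (M n q : ℕ) (hq : q.Prime) (hM : ¬ q ∣ M) (hn : 0 < n) :
    ∑ x ∈ range q, ind M n q x ≤ Nat.gcd n (q - 1) := by
  classical
  have := Fact.mk hq
  unfold ind
  rw [Finset.sum_boole]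
  have hg : 0 < Nat.gcd n (q - 1) := Nat.gcd_pos_of_pos_left _ hn
  have h1 : ((range q).filter (fun x => ((M * (x + 2) : ℕ) : ZMod q) ^ n = 1)).card ≤
      (Polynomial.nthRoots (Nat.gcd n (q - 1)) (1 : ZMod q)).toFinset.card := by
    refine Finset.card_le_card_of_injOn (fun x => ((M * (x + 2) : ℕ) : ZMod q))
      (fun x hx => ?_) (fun x hx y hy hxy => ?_)
    · have h := (Finset.mem_filter.1 hx).2
      have h0 : ((M * (x + 2) : ℕ) : ZMod q) ≠ 0 := by
        intro h0
        rw [h0, zero_pow hn.ne'] at h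
        exact zero_ne_one h
      simp only [Finset.mem_coe, Multiset.mem_toFinset]
      rw [Polynomial.mem_nthRoots hg, pow_gcd_eq_one]
      exact ⟨h, ZMod.pow_card_sub_one_eq_one h0⟩
    · have h1 : M * (x + 2) ≡ M * (y + 2) [MOD q] := (ZMod.natCast_eq_natCast_iff _ _ _).1 hxy
      have h2 : x + 2 ≡ y + 2 [MOD q] :=
        Nat.ModEq.cancel_left_of_coprime ((Nat.Prime.coprime_iff_not_dvd hq).2 hM) h1
      exact Nat.ModEq.eq_of_lt_of_lt (Nat.ModEq.add_right_cancel' 2 h2)
        (Finset.mem_range.1 (Finset.mem_filter.1 hx).1)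
        (Finset.mem_range.1 (Finset.mem_filter.1 hy).1)
  have h2 := (h1.trans (Multiset.toFinset_card_le _)).trans (Polynomial.card_nthRoots _ _)
  exact_mod_cast h2

lemma mass_le (n : ℕ) (hn : 0 < n) (Q : Finset ℕ) (hQ : ∀ q ∈ Q, q.Prime) (hc : Q.card ≤ n) :
    ∑ q ∈ Q, (Nat.gcd n (q - 1) : ℝ) / q ≤ n.divisors.card * (1 + Real.log n) + 1 := by
  classical
  set m : ℕ → ℕ := fun q => (q - 1) / Nat.gcd n (q - 1) with hm
  have hgm : ∀ q, Nat.gcd n (q - 1) * m q = q - 1 := fun q =>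
    Nat.mul_div_cancel' (Nat.gcd_dvd_right _ _)
  have hm1 : ∀ q ∈ Q, 1 ≤ m q := by
    intro q hq
    have h1 := hgm q
    have h2 := (hQ q hq).two_le
    by_contra h
    have : m q = 0 := by omega
    rw [this] at h1
    omega
  have hnr : (0 : ℝ) < n := by exact_mod_cast hn
  have h1 : ∀ q ∈ Q, (Nat.gcd n (q - 1) : ℝ) / q ≤
      (if m q ≤ n then ((m q : ℝ))⁻¹ else 0) + 1 / n := by
    intro q hq
    have hq0 : (0 : ℝ) < q := by exact_mod_cast (hQ q hq).pos
    have hmr : (0 : ℝ) < m q := by exact_mod_cast hm1 q hq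
    have a1 : (Nat.gcd n (q - 1) : ℝ) / q ≤ ((m q : ℝ))⁻¹ := by
      rw [inv_eq_one_div, div_le_div_iff₀ hq0 hmr, one_mul]
      have : Nat.gcd n (q - 1) * m q ≤ q := by rw [hgm]; omega
      exact_mod_cast this
    split_ifs with h
    · have : (0 : ℝ) ≤ 1 / n := by positivity
      linarith
    · have : ((m q : ℝ))⁻¹ ≤ 1 / n := by
        rw [inv_eq_one_div]
        exact one_div_le_one_div_of_le hnr (by exact_mod_cast (not_le.1 h).le)
      linarith
  refine (Finset.sum_le_sum h1).trans ?_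
  rw [Finset.sum_add_distrib, ← Finset.sum_filter, Finset.sum_const, nsmul_eq_mul]
  have h2 : (Q.card : ℝ) * (1 / n) ≤ 1 := by
    rw [mul_one_div, div_le_one hnr]; exact_mod_cast hc
  have hinj : Set.InjOn (fun q => (Nat.gcd n (q - 1), m q))
      (Q.filter (fun q => m q ≤ n) : Finset ℕ) := by
    intro q hq q' hq' h
    have a1 := hgm q
    have a2 := hgm q'
    have a3 := (hQ q (Finset.mem_filter.1 hq).1).two_le
    have a4 := (hQ q' (Finset.mem_filter.1 hq').1).two_le
    simp only [Prod.mk.injEq] at h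
    rw [h.1, h.2, a2] at a1
    omega
  have h3 : ∑ q ∈ Q.filter (fun q => m q ≤ n), ((m q : ℝ))⁻¹ ≤
      ∑ y ∈ n.divisors ×ˢ Icc 1 n, ((y.2 : ℝ))⁻¹ := by
    rw [← Finset.sum_image (f := fun y : ℕ × ℕ => ((y.2 : ℝ))⁻¹) hinj]
    refine Finset.sum_le_sum_of_subset_of_nonneg ?_ (fun y _ _ => by positivity)
    intro y hy
    obtain ⟨q, hq, rfl⟩ := Finset.mem_image.1 hy
    obtain ⟨hq1, hq2⟩ := Finset.mem_filter.1 hq
    exact Finset.mem_product.2 ⟨Nat.mem_divisors.2 ⟨Nat.gcd_dvd_left _ _, hn.ne'⟩,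
      Finset.mem_Icc.2 ⟨hm1 q hq1, hq2⟩⟩
  rw [Finset.sum_product] at h3
  simp only [Finset.sum_const, nsmul_eq_mul] at h3
  have h4 : ∑ y ∈ Icc 1 n, ((y : ℝ))⁻¹ ≤ 1 + Real.log n := by
    have := harmonic_le_one_add_log n
    rw [harmonic_eq_sum_Icc] at this
    push_cast at this
    exact this
  have h5 : (n.divisors.card : ℝ) * ∑ y ∈ Icc 1 n, ((y : ℝ))⁻¹ ≤
      n.divisors.card * (1 + Real.log n) := mul_le_mul_of_nonneg_left h4 (Nat.cast_nonneg _)
  linarith

lemma card_pf (n : ℕ) (hn : 0 < n) : (2 ^ n - 1).primeFactors.card ≤ n := by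
  have h0 : 0 < 2 ^ n - 1 := by
    have := Nat.one_lt_two_pow hn.ne'
    omega
  have h1 : 2 ^ (2 ^ n - 1).primeFactors.card ≤ ∏ p ∈ (2 ^ n - 1).primeFactors, p :=
    Finset.pow_card_le_prod _ _ _ (fun p hp => (Nat.prime_of_mem_primeFactors hp).two_le)
  have h2 := Nat.le_of_dvd h0 (Nat.prod_primeFactors_dvd (2 ^ n - 1))
  have h3 : 2 ^ (2 ^ n - 1).primeFactors.card < 2 ^ n := by omega
  exact ((Nat.pow_lt_pow_iff_right (by norm_num)).1 h3).le

lemma K_le (n w : ℕ) (hn : 0 < n) (hw : n.divisors.card * (1 + Real.log n) + 1 ≤ w) :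
    K n ≤ (n + 1) ^ n.divisors.card * (6 * 9 ^ w * (n ^ 2) ^ (6 * w + 1) + 2) := by
  classical
  set M := ∏ d ∈ n.divisors.filter (fun d => (d + 1).Prime), (d + 1) with hM
  set Q := (2 ^ n - 1).primeFactors.filter (fun q => ¬ (q - 1) ∣ n) with hQ
  have hQp : ∀ q ∈ Q, q.Prime := fun q hq =>
    Nat.prime_of_mem_primeFactors (Finset.mem_filter.1 hq).1
  have hQc : Q.card ≤ n := (Finset.card_filter_le _ _).trans (card_pf n hn)
  have hQM : ∀ q ∈ Q, ¬ q ∣ M := by
    intro q hq h
    obtain ⟨d, hd, hqd⟩ := (Prime.dvd_finsetProd_iff (hQp q hq).prime _).1 h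
    obtain ⟨hd1, hd2⟩ := Finset.mem_filter.1 hd
    have := (Nat.prime_dvd_prime_iff_eq (hQp q hq) hd2).1 hqd
    apply (Finset.mem_filter.1 hq).2
    rw [this]
    exact Nat.dvd_of_mem_divisors hd1
  have hMpos : 0 < M := Finset.prod_pos (fun d _ => Nat.succ_pos d)
  have hMle : M ≤ (n + 1) ^ n.divisors.card := by
    refine (Finset.prod_le_pow_card _ _ (n + 1) (fun d hd => ?_)).trans
      (Nat.pow_le_pow_right (by omega) (Finset.card_filter_le _ _))
    have := Nat.divisor_le (Finset.mem_filter.1 hd).1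
    omega
  have hcnt : ∀ q ∈ Q, ∑ x ∈ range q, ind M n q x ≤ Nat.gcd n (q - 1) :=
    fun q hq => ind_count M n q (hQp q hq) (hQM q hq) hn
  have hnr : (1 : ℝ) ≤ n := by exact_mod_cast hn
  obtain ⟨x, hx, hx2⟩ := Pool.Agent.H59.PureSieve.sieve Q hQp (ind M n) (ind_nonneg M n)
    (ind_le_one M n) (fun q _ => ind_periodic M n q) (by
      intro q hq
      have hq0 : (0 : ℝ) < q := by exact_mod_cast (hQp q hq).pos
      have h2 := (hQp q hq).two_le
      have h3 : Nat.gcd n (q - 1) ≠ q - 1 := fun h =>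
        (Finset.mem_filter.1 hq).2 (h ▸ Nat.gcd_dvd_left n (q - 1))
      obtain ⟨c, hc⟩ := Nat.gcd_dvd_right n (q - 1)
      have h4 : 2 ≤ c := by
        rcases c with _ | _ | c
        · omega
        · omega
        · omega
      have h5 : Nat.gcd n (q - 1) * 2 ≤ q := by
        have := Nat.mul_le_mul_left (Nat.gcd n (q - 1)) h4
        omega
      have h6 : (Nat.gcd n (q - 1) : ℝ) * 2 ≤ q := by exact_mod_cast h5
      rw [div_le_iff₀ hq0]
      linarith [hcnt q hq]) w (by
      refine le_trans (Finset.sum_le_sum (fun q hq => ?_)) ((mass_le n hn Q hQp hQc).trans hw)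
      exact div_le_div_of_nonneg_right (hcnt q hq) (Nat.cast_nonneg q))
    ((n : ℝ) ^ 2) (one_le_pow₀ hnr) (by
      refine le_trans (Finset.sum_le_sum (g := fun _ => (n : ℝ)) (fun q hq => ?_)) ?_
      · refine (hcnt q hq).trans ?_
        exact_mod_cast Nat.gcd_le_left _ hn
      · rw [Finset.sum_const, nsmul_eq_mul, sq]
        exact mul_le_mul_of_nonneg_right (by exact_mod_cast hQc) (by linarith))
    (6 * 9 ^ w * (n ^ 2) ^ (6 * w + 1) + 1) (by push_cast; linarith)
  have hk2 : 2 ≤ M * (x + 2) := by nlinarith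
  have hmem : M * (x + 2) ∈ {k : ℕ | 2 ≤ k ∧ Nat.Coprime (k ^ n - 1) (2 ^ n - 1)} := by
    refine ⟨hk2, Nat.coprime_of_dvd (fun p hp h1 h2 => ?_)⟩
    have hk1 : 1 ≤ (M * (x + 2)) ^ n := Nat.one_le_pow _ _ (by omega)
    by_cases hd : (p - 1) ∣ n
    · have hp1 : p - 1 + 1 = p := Nat.sub_add_cancel hp.one_le
      have h3 : p ∣ M := by
        rw [← hp1]
        refine Finset.dvd_prod_of_mem (fun d => d + 1) (Finset.mem_filter.2
          ⟨Nat.mem_divisors.2 ⟨hd, hn.ne'⟩, ?_⟩)
        rw [hp1]; exact hp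
      have h4 : p ∣ (M * (x + 2)) ^ n := dvd_pow (Dvd.dvd.mul_right h3 _) hn.ne'
      have h5 := Nat.dvd_sub h4 h1
      rw [Nat.sub_sub_self hk1] at h5
      exact hp.one_lt.ne' (Nat.dvd_one.1 h5)
    · have h0 : 2 ^ n - 1 ≠ 0 := by
        have := Nat.one_lt_two_pow hn.ne'
        omega
      apply hx2 p (Finset.mem_filter.2 ⟨Nat.mem_primeFactors.2 ⟨hp, h2, h0⟩, hd⟩)
      unfold ind
      rw [if_pos]
      have h3 : 1 ≡ (M * (x + 2)) ^ n [MOD p] := (Nat.modEq_iff_dvd' hk1).2 h1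
      have h4 := (ZMod.natCast_eq_natCast_iff _ _ _).2 h3
      rw [Nat.cast_pow, Nat.cast_one] at h4
      exact h4.symm
  refine (Nat.sInf_le hmem).trans (Nat.mul_le_mul hMle (by omega))

lemma K_le_pow (n w : ℕ) (hn : 9 ≤ n) (hw : n.divisors.card * (1 + Real.log n) + 1 ≤ w) :
    K n ≤ n ^ (2 * n.divisors.card + 13 * w + 4) := by
  refine (K_le n w (by omega) hw).trans ?_
  have h1 : (n + 1) ^ n.divisors.card ≤ n ^ (2 * n.divisors.card) := by
    rw [pow_mul]
    exact Nat.pow_le_pow_left (by nlinarith) _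
  have h2 : 9 ^ w ≤ n ^ w := Nat.pow_le_pow_left hn w
  have h3 : 1 ≤ n ^ w * (n ^ 2) ^ (6 * w + 1) := Nat.succ_le_of_lt (by positivity)
  have h4 : 6 * 9 ^ w * (n ^ 2) ^ (6 * w + 1) + 2 ≤ n ^ (13 * w + 4) := by
    have e : n ^ (13 * w + 4) = n ^ 2 * (n ^ w * (n ^ 2) ^ (6 * w + 1)) := by ring
    have h5 : 9 ^ w * (n ^ 2) ^ (6 * w + 1) ≤ n ^ w * (n ^ 2) ^ (6 * w + 1) :=
      Nat.mul_le_mul_right _ h2
    have h6 : 8 ≤ n ^ 2 := by nlinarith
    have h7 := Nat.mul_le_mul_right (n ^ w * (n ^ 2) ^ (6 * w + 1)) h6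
    rw [e, mul_assoc]
    omega
  exact (Nat.mul_le_mul h1 h4).trans_eq (by rw [← pow_add, add_assoc])

lemma log_tau (n : ℕ) (hn : 0 < n) (y : ℝ) (hy : 1 < y) :
    Real.log n.divisors.card ≤
      (y + 1) * Real.log (1 + 2 * Real.log n) + Real.log 2 / Real.log y * Real.log n := by
  classical
  have hly : 0 < Real.log y := Real.log_pos hy
  have hl2 := Real.log_two_gt_d9
  have hl0 : 0 ≤ Real.log n := Real.log_natCast_nonneg n
  have hA : 0 ≤ Real.log (1 + 2 * Real.log n) := Real.log_nonneg (by linarith)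
  have hsum : Real.log n = ∑ p ∈ n.primeFactors, (n.factorization p : ℝ) * Real.log p := by
    rw [Real.log_nat_eq_sum_factorization]; rfl
  rw [Nat.card_divisors hn.ne']
  push_cast
  rw [Real.log_prod (fun p _ => by positivity)]
  have h1 : ∀ p ∈ n.primeFactors, Real.log ((n.factorization p : ℝ) + 1) ≤
      (if (p : ℝ) < y then Real.log (1 + 2 * Real.log n) else 0) +
        Real.log 2 / Real.log y * ((n.factorization p : ℝ) * Real.log p) := by
    intro p hp
    have hp2 : (2 : ℝ) ≤ p := by exact_mod_cast (Nat.prime_of_mem_primeFactors hp).two_le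
    have hlp : Real.log 2 ≤ Real.log p := Real.log_le_log (by norm_num) hp2
    have he0 : (0 : ℝ) ≤ n.factorization p := Nat.cast_nonneg _
    split_ifs with h
    · have a1 : (n.factorization p : ℝ) * Real.log p ≤ Real.log n := by
        rw [hsum]
        exact Finset.single_le_sum (f := fun p => (n.factorization p : ℝ) * Real.log p)
          (fun q _ => mul_nonneg (Nat.cast_nonneg _) (Real.log_natCast_nonneg q)) hp
      have a2 : Real.log ((n.factorization p : ℝ) + 1) ≤ Real.log (1 + 2 * Real.log n) :=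
        Real.log_le_log (by positivity) (by nlinarith)
      have a3 : 0 ≤ Real.log 2 / Real.log y * ((n.factorization p : ℝ) * Real.log p) :=
        mul_nonneg (by positivity) (mul_nonneg he0 (by linarith))
      linarith
    · have a1 : Real.log ((n.factorization p : ℝ) + 1) ≤ n.factorization p * Real.log 2 := by
        rw [← Real.log_pow]
        refine Real.log_le_log (by positivity) ?_
        have : n.factorization p + 1 ≤ 2 ^ n.factorization p := Nat.lt_two_pow_self
        exact_mod_cast this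
      have a2 : Real.log y ≤ Real.log p := Real.log_le_log (by linarith) (not_lt.1 h)
      have a3 : (n.factorization p : ℝ) * Real.log 2 ≤
          Real.log 2 / Real.log y * ((n.factorization p : ℝ) * Real.log p) := by
        rw [div_mul_eq_mul_div, le_div_iff₀ hly]
        have : 0 ≤ (n.factorization p : ℝ) * Real.log 2 := mul_nonneg he0 (by linarith)
        nlinarith
      linarith
  refine (Finset.sum_le_sum h1).trans ?_
  rw [Finset.sum_add_distrib, ← Finset.mul_sum, ← hsum, ← Finset.sum_filter, Finset.sum_const,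
    nsmul_eq_mul]
  have h2 : (n.primeFactors.filter (fun p : ℕ => (p : ℝ) < y)).card ≤ ⌈y⌉₊ := by
    rw [← Finset.card_range ⌈y⌉₊]
    exact Finset.card_le_card (fun p hp =>
      Finset.mem_range.2 (Nat.lt_ceil.2 (Finset.mem_filter.1 hp).2))
  have h3 : ((n.primeFactors.filter (fun p : ℕ => (p : ℝ) < y)).card : ℝ) ≤ y + 1 :=
    le_trans (by exact_mod_cast h2) (Nat.ceil_lt_add_one (by linarith)).le
  have := mul_le_mul_of_nonneg_right h3 hA
  linarith

/-- ∃ c>0, ∀ ε>0, for all sufficiently large n, (least k≥2 with gcd(k^n−1, 2^n−1)=1) < exp(n^((c+ε)/log log n)) (natural log). -/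
theorem result :
    ∃ c > (0 : ℝ), ∀ ε > (0 : ℝ), ∀ᶠ n : ℕ in atTop, (K n : ℝ) < Real.exp ((n : ℝ) ^ ((c + ε) / Real.log (Real.log (n : ℝ)))) := by
  refine ⟨5, by norm_num, fun ε hε => ?_⟩
  have hl : Tendsto (fun n : ℕ => Real.log n) atTop atTop :=
    Real.tendsto_log_atTop.comp tendsto_natCast_atTop_atTop
  have h1 := (isLittleO_log_rpow_atTop (r := 1 / 4) (by norm_num)).bound (c := 1) (by norm_num)
  filter_upwards [hl.eventually h1, hl.eventually_ge_atTop 625, eventually_ge_atTop 9]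
    with n hn1 hn2 hn3
  set l := Real.log n with hldef
  have hl0 : 0 < l := by linarith
  have hll : 0 < Real.log l := Real.log_pos (by linarith)
  set u := l ^ ((1 : ℝ) / 4) with hu
  have hu0 : 0 < u := by positivity
  have hu4 : u ^ 4 = l := by
    rw [hu, one_div]
    exact_mod_cast Real.rpow_inv_natCast_pow (x := l) (n := 4) hl0.le (by norm_num)
  rw [Real.norm_of_nonneg hll.le, Real.norm_of_nonneg hu0.le, one_mul] at hn1
  have hu5 : 5 ≤ u := by
    by_contra h
    have : u ^ 4 < 5 ^ 4 := pow_lt_pow_left₀ (not_le.1 h) hu0.le (by norm_num)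
    linarith
  set τ := n.divisors.card with hτ
  have hτ1 : (1 : ℝ) ≤ τ := by
    have : 0 < τ := Finset.card_pos.2 ⟨1, Nat.one_mem_divisors.2 (by omega)⟩
    exact_mod_cast this
  set w := ⌈(τ : ℝ) * (1 + l) + 1⌉₊ with hw
  have hK := K_le_pow n w hn3 (Nat.le_ceil _)
  have hw2 : (w : ℝ) ≤ τ * (1 + l) + 2 := by
    have := (Nat.ceil_lt_add_one (a := (τ : ℝ) * (1 + l) + 1) (by positivity)).le
    linarith
  have hnr : (0 : ℝ) < n := by exact_mod_cast (by omega : 0 < n)
  have hK2 : (K n : ℝ) ≤ Real.exp (60 * τ * l ^ 2) := by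
    have a1 : (K n : ℝ) ≤ (n : ℝ) ^ (2 * τ + 13 * w + 4) := by exact_mod_cast hK
    refine a1.trans ?_
    rw [← Real.exp_log (x := (n : ℝ) ^ (2 * τ + 13 * w + 4)) (by positivity), Real.log_pow,
      Real.exp_le_exp, ← hldef]
    push_cast
    have a2 : 2 * (τ : ℝ) + 13 * w + 4 ≤ 60 * τ * l := by nlinarith
    nlinarith
  refine lt_of_le_of_lt hK2 (Real.exp_lt_exp.2 ?_)
  rw [Real.rpow_def_of_pos hnr, ← hldef, ← Real.log_lt_iff_lt_exp (by positivity),
    Real.log_mul (by positivity) (by positivity), Real.log_mul (by positivity) (by positivity),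
    Real.log_pow]
  have b1 := log_tau n (by omega) (u ^ 2) (by nlinarith)
  rw [← hτ, ← hldef] at b1
  have b2 : Real.log (u ^ 2) = Real.log l / 2 := by
    rw [← hu4, Real.log_pow, Real.log_pow]; push_cast; ring
  have b3 : Real.log (1 + 2 * l) ≤ 2 * u := by
    have : Real.log (1 + 2 * l) ≤ Real.log (l ^ 2) :=
      Real.log_le_log (by linarith) (by nlinarith)
    rw [Real.log_pow] at this
    push_cast at this
    linarith
  have b4 : Real.log 60 ≤ 6 := by
    have : Real.log 60 ≤ Real.log (2 ^ 6) := Real.log_le_log (by norm_num) (by norm_num)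
    rw [Real.log_pow] at this
    have h2 := Real.log_two_lt_d9
    push_cast at this
    linarith
  set v := l / Real.log l with hv
  have b5 : u ^ 3 ≤ v := by
    rw [hv, le_div_iff₀ hll, ← hu4]
    rw [← hu4] at hn1
    have : 0 < u ^ 3 := by positivity
    nlinarith
  have b6 : Real.log 2 / Real.log (u ^ 2) * l = 2 * Real.log 2 * v := by
    rw [b2, hv]; field_simp
  have b7 : l * ((5 + ε) / Real.log l) = (5 + ε) * v := by rw [hv]; field_simp
  have b8 : (u ^ 2 + 1) * Real.log (1 + 2 * l) ≤ (u ^ 2 + 1) * (2 * u) :=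
    mul_le_mul_of_nonneg_left b3 (by positivity)
  have h2 := Real.log_two_lt_d9
  have hv0 : 0 < v := by positivity
  rw [b6] at b1
  rw [b7]
  push_cast
  have b9 : 6 + 4 * u ≤ u ^ 3 := by nlinarith
  nlinarith

end Pool.Agent.S16173
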