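import Pool.Statements.S16177
import Pool.Agent.H65.Chi8

set_option autoImplicit false
open Pool Pool.MP_189914_nt

namespace Pool.Agent.S16177

/-- Let χ be the greedy sequence with χ1 = 1 and χi = max over 1≤j<i of (j+1)(i−χj). Then every integer sequence with a_i + (j+1)a_j ≥ (j+1)i for all i,j ≥ 1 has sum of 1/a_k (possibly infinite) at most the sum of 1/χ_k. -/
theorem result :
    ∀ χ : ℕ → ℤ, χ 1 = 1 →
      (∀ i : ℕ, 2 ≤ i →
        (∀ j : ℕ, 1 ≤ j → j < i → ((j : ℤ) + 1) * ((i : ℤ) - χ j) ≤ χ i) ∧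
        (∃ j : ℕ, 1 ≤ j ∧ j < i ∧ χ i = ((j : ℤ) + 1) * ((i : ℤ) - χ j))) →
      ∀ a : ℕ → ℤ,
        (∀ i j : ℕ, 1 ≤ i → 1 ≤ j → ((j : ℤ) + 1) * (i : ℤ) ≤ a i + ((j : ℤ) + 1) * a j) →
        (∑' k : ℕ, (((a (k + 1)).toNat : ENNReal))⁻¹) ≤
          ∑' k : ℕ, (((χ (k + 1)).toNat : ENNReal))⁻¹ := by
  intro χ h1 hχ a ha
  let p : ℕ → ℤ := fun i => if i = 0 then 0 else χ i
  have hpe : ∀ i, 1 ≤ i → p i = χ i := fun i hi => if_neg (by omega)
  have hp : Pool.Agent.H65.Chi.IsChi p := by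
    refine ⟨rfl, (hpe 1 le_rfl).trans h1, fun i j hi hj hji => ?_, fun i hi => ?_⟩
    · rw [hpe i (by omega), hpe j hj]; exact (hχ i hi).1 j hj hji
    · obtain ⟨j, hj, hji, e⟩ := (hχ i hi).2
      exact ⟨j, hj, hji, by rw [hpe i (by omega), hpe j hj]; exact e⟩
  have hge : ∀ i : ℕ, 1 ≤ i → (i : ℤ) ≤ a i := by
    intro i hi
    have h2 := ha i i hi hi
    by_contra hc
    have h3 : a i ≤ i - 1 := by omega
    have h4 : (0 : ℤ) ≤ i := by positivity
    nlinarith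
  let b : ℕ → ℕ := fun i => if i = 0 then 0 else (a i).toNat
  have hbe : ∀ i, 1 ≤ i → (b i : ℤ) = a i := fun i hi => by
    have := hge i hi
    simp only [b, if_neg (show i ≠ 0 by omega)]
    omega
  have hbge : ∀ i, i ≤ b i := fun i => by
    rcases Nat.eq_zero_or_pos i with rfl | hi
    · exact Nat.zero_le _
    · have := hge i hi
      have := hbe i hi
      omega
  have hb : Pool.Agent.H65.Chi.Seq b := by
    refine ⟨rfl, hbge, fun i j => ?_⟩
    rcases Nat.eq_zero_or_pos i with rfl | hi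
    · simp
    rcases Nat.eq_zero_or_pos j with rfl | hj
    · have := hbge i
      omega
    · have h2 := ha i j hi hj
      rw [← hbe i hi, ← hbe j hj] at h2
      have h3 : ((j : ℤ) + 1) * i ≤ ((j : ℤ) + 1) * b j + b i := by linarith
      exact_mod_cast h3
  obtain ⟨s1, s2⟩ := Pool.Agent.H65.Chi.main hp hb
  have s3 := Pool.Agent.H65.Chi.summable_p hp
  have conv : ∀ n : ℕ, 1 ≤ n → ((n : ENNReal))⁻¹ = ENNReal.ofReal (1 / (n : ℝ)) := by
    intro n hn
    rw [one_div, ENNReal.ofReal_inv_of_pos (by exact_mod_cast hn), ENNReal.ofReal_natCast]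
  have e1 : ∀ k : ℕ, (((a (k + 1)).toNat : ENNReal))⁻¹ = ENNReal.ofReal (1 / (b (k + 1) : ℝ)) :=
    fun k => conv _ (le_trans (Nat.succ_pos k) (hbge (k + 1)))
  have hp0 : ∀ k : ℕ, 1 ≤ p (k + 1) := fun k => by
    have := hp.ge (k + 1); push_cast at this; omega
  have e2 : ∀ k : ℕ, (((χ (k + 1)).toNat : ENNReal))⁻¹ = ENNReal.ofReal (1 / (p (k + 1) : ℝ)) := by
    intro k
    have h2 := hp0 k
    rw [← hpe (k + 1) (by omega), conv _ (by omega)]
    have : (((p (k + 1)).toNat : ℤ) : ℝ) = p (k + 1) := by rw [Int.toNat_of_nonneg (by omega)]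
    rw [← this, Int.cast_natCast]
  simp only [e1, e2]
  rw [← ENNReal.ofReal_tsum_of_nonneg (fun k => by positivity) s1,
    ← ENNReal.ofReal_tsum_of_nonneg (fun k => by
      have : (0 : ℝ) ≤ p (k + 1) := by exact_mod_cast (hp0 k).trans' zero_le_one
      positivity) s3]
  exact ENNReal.ofReal_le_ofReal s2

end Pool.Agent.S16177
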