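import Pool.Statements.S16202
import Pool.Agent.H47.SumFree

set_option autoImplicit false
open Pool Pool.MP_1bab7f_nt

namespace Pool.Agent.S16202

/-- The negation of the preceding statement: For every finite increasing integer list extended greedily (each new term is the least integer above the last that is not a sum of two earlier terms, repeats allowed), the consecutive differences are eventually periodic. -/
theorem result :
    ¬ (∀ (k : ℕ) (a : ℕ → ℤ), 0 < k → StrictMono a →
      (∀ n : ℕ, k ≤ n + 1 →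
        (a n < a (n + 1) ∧
         (∀ i j : ℕ, i ≤ n → j ≤ n → a i + a j ≠ a (n + 1)) ∧
         (∀ x : ℤ, a n < x → x < a (n + 1) →
            ∃ i j : ℕ, i ≤ n ∧ j ≤ n ∧ a i + a j = x))) →
      ∃ p : ℕ, 0 < p ∧ ∃ N : ℕ, ∀ m : ℕ, N ≤ m →
        a (m + p + 1) - a (m + p) = a (m + 1) - a m) := by
  intro h
  have hinf := Pool.Agent.H47.SumFree.SD_inf
  have mono := Pool.Agent.H47.SumFree.nth_mono' hinf
  obtain ⟨p, hp, N, hN⟩ := h 281
    (fun n => ((Nat.nth (· ∈ Pool.Agent.H47.SumFree.SD) n : ℕ) : ℤ)) (by norm_num)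
    (fun i j hij => Int.ofNat_lt.mpr (mono hij))
    (by
      intro n hn
      refine ⟨by exact_mod_cast mono (Nat.lt_succ_self n), ?_, ?_⟩
      · intro i j _ _ e
        have k := Pool.Agent.H47.SumFree.SD_sumfree
          (Pool.Agent.H47.SumFree.nth_mem' hinf i) (Pool.Agent.H47.SumFree.nth_mem' hinf j)
        apply k
        have e' : Nat.nth (· ∈ Pool.Agent.H47.SumFree.SD) i +
            Nat.nth (· ∈ Pool.Agent.H47.SumFree.SD) j =
            Nat.nth (· ∈ Pool.Agent.H47.SumFree.SD) (n + 1) := by exact_mod_cast e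
        rw [e']
        exact Pool.Agent.H47.SumFree.nth_mem' hinf _
      · intro x h1 h2
        have l := Pool.Agent.H47.SumFree.le_nth' hinf n
        obtain ⟨y, rfl⟩ : ∃ y : ℕ, x = (y : ℤ) := ⟨x.toNat, by omega⟩
        have h1' : Nat.nth (· ∈ Pool.Agent.H47.SumFree.SD) n < y := by exact_mod_cast h1
        have h2' : y < Nat.nth (· ∈ Pool.Agent.H47.SumFree.SD) (n + 1) := by exact_mod_cast h2
        have hy := Pool.Agent.H47.SumFree.not_mem_between hinf h1' h2'
        obtain ⟨s, hs, t, ht, e⟩ := Pool.Agent.H47.SumFree.SD_complete (by omega) hy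
        obtain ⟨i, hi, ei⟩ := Pool.Agent.H47.SumFree.exists_index (n := n) hinf hs (by omega)
        obtain ⟨j, hj, ej⟩ := Pool.Agent.H47.SumFree.exists_index (n := n) hinf ht (by omega)
        refine ⟨i, j, hi, hj, ?_⟩
        simp only [ei, ej]
        exact_mod_cast e)
  exact Pool.Agent.H47.SumFree.SD_aper (Pool.Agent.H47.SumFree.fwdPer_of_diff hinf hp hN)

end Pool.Agent.S16202
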