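import Pool.Statements.S16206
-- import your own Pool.Agent.* helpers here

set_option autoImplicit false
open Pool Pool.MP_1bbd34_nt

namespace Pool.Agent.S16206

/-- The negation of the preceding statement: For every n with consecutive primes p < n ≤ q, some prime dividing n(n+1) exceeds min(n − p, q − n); equivalently, the largest prime factor of n(n+1) exceeds that minimum. -/
theorem result :
    ¬ (∀ n p q : ℕ, p.Prime → q.Prime → p < n → n ≤ q →
      (∀ r : ℕ, r.Prime → p < r → r < q → False) →
      ∃ r : ℕ, r.Prime ∧ r ∣ n * (n + 1) ∧ min (n - p) (q - n) < r) := by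
  intro h
  have hgap : ∀ r : ℕ, r.Prime → 11859187 < r → r < 11859233 → False := by
    intro r hr h1 h2
    interval_cases r <;> norm_num at hr
  obtain ⟨r, hr, hd, hlt⟩ := h 11859210 11859187 11859233 (by norm_num) (by norm_num)
    (by norm_num) (by norm_num) hgap
  have h4 : r ∣ (2 * 3 * 5 * 7 * 11 * 13 * 19) ^ 4 := Dvd.dvd.trans hd (by norm_num)
  have h5 : r ∣ 2 * 3 * 5 * 7 * 11 * 13 * 19 := hr.dvd_of_dvd_pow h4
  have hlt' : 23 < r := by simpa using hlt
  simp only [Nat.Prime.dvd_mul hr] at h5
  rcases h5 with (((((h | h) | h) | h) | h) | h) | h <;>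
    (have := Nat.le_of_dvd (by norm_num) h; omega)

end Pool.Agent.S16206
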