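import Pool.Statements.S16227
-- import your own Pool.Agent.* helpers here

set_option autoImplicit false
open N41f07a28
open Asymptotics Filter
open Pool Pool.MP_1d29c3_nt

namespace Pool.Agent.S16227

open Finset

lemma count_le (p a M Y : ℕ) (hp : p.Prime) (hM : ¬ p ∣ M) :
    ((Icc 1 Y).filter (fun s => p ∣ a + M * s)).card ≤ Y / p + 1 := by
  rw [← Finset.card_range (Y / p + 1)]
  refine Finset.card_le_card_of_injOn (fun s => s / p) (fun s hs => ?_) (fun s hs t ht hst => ?_)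
  · have h := (Finset.mem_Icc.1 (Finset.mem_filter.1 hs).1).2
    have : s / p ≤ Y / p := Nat.div_le_div_right h
    simp only [Finset.coe_range, Set.mem_Iio]
    omega
  · have h1 : a + M * s ≡ 0 [MOD p] := (Nat.modEq_zero_iff_dvd).2 (Finset.mem_filter.1 hs).2
    have h2 : a + M * t ≡ 0 [MOD p] := (Nat.modEq_zero_iff_dvd).2 (Finset.mem_filter.1 ht).2
    have h3 : M * s ≡ M * t [MOD p] := Nat.ModEq.add_left_cancel' a (h1.trans h2.symm)
    have h4 : s ≡ t [MOD p] :=
      Nat.ModEq.cancel_left_of_coprime ((Nat.Prime.coprime_iff_not_dvd hp).2 hM) h3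
    have h5 : s / p = t / p := hst
    rw [← Nat.div_add_mod s p, ← Nat.div_add_mod t p, h5, h4]

lemma sum_biUnion_le (s : Finset ℕ) (t : ℕ → Finset ℕ) (f : ℕ → ℝ) (hf : ∀ x, 0 ≤ f x) :
    ∑ x ∈ s.biUnion t, f x ≤ ∑ i ∈ s, ∑ x ∈ t i, f x := by
  classical
  induction s using Finset.induction_on with
  | empty => simp
  | insert i s hi ih =>
    rw [Finset.biUnion_insert, Finset.sum_insert hi]
    have h1 := Finset.sum_union_inter (s₁ := t i) (s₂ := s.biUnion t) (f := f)
    have h2 : 0 ≤ ∑ x ∈ t i ∩ s.biUnion t, f x := Finset.sum_nonneg (fun x _ => hf x)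
    linarith

/-- One stage of the construction: a shift `t` divisible by all primes up to `n` such that the
new primes dividing `a + t`, `1 ≤ a ≤ n`, have small total weight. -/
lemma stage (n : ℕ) (ε : ℝ) (hε : 0 < ε) :
    ∃ t : ℕ, ∃ F : Finset ℕ, 1 ≤ t ∧ (∀ p ∈ F, p.Prime) ∧
      (∑ p ∈ F, 1 / Real.sqrt p ≤ ε) ∧ (∀ p : ℕ, p.Prime → p ≤ n → p ∣ t) ∧
      ∀ a : ℕ, 1 ≤ a → a ≤ n → ∀ p : ℕ, p.Prime → p ∣ a + t → p ∣ t ∨ p ∈ F := by
  classical
  have hsum : Summable (fun p : ℕ => 1 / (p : ℝ) ^ ((3 : ℝ) / 2)) :=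
    Real.summable_one_div_nat_rpow.2 (by norm_num)
  have hn0 : (0 : ℝ) ≤ n := Nat.cast_nonneg n
  obtain ⟨s0, hs0⟩ := summable_iff_vanishing_norm.1 hsum (ε / (4 * n + 4)) (by positivity)
  set y := n + s0.sup id with hy
  set M := y.factorial with hM
  have hMpos : 0 < M := Nat.factorial_pos y
  obtain ⟨Y0, hY0⟩ := exists_nat_ge ((2 * n / ε) ^ 2)
  set Y := Y0 + n + M with hY
  have hYpos : 0 < Y := by omega
  have hYr : (0 : ℝ) < Y := by exact_mod_cast hYpos
  set Pr := (Ioc y Y).filter Nat.Prime with hPr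
  set w : ℕ → ℝ := fun p => 1 / Real.sqrt p with hw
  have hw0 : ∀ p, 0 ≤ w p := fun p => by simp only [hw]; positivity
  set G : ℕ → ℕ → Finset ℕ := fun s a => Pr.filter (fun p => p ∣ a + M * s) with hG
  have hPrsum : ∑ p ∈ Pr, 1 / (p : ℝ) ^ ((3 : ℝ) / 2) ≤ ε / (4 * n + 4) := by
    have hd : Disjoint Pr s0 := by
      rw [Finset.disjoint_left]
      intro p hp hp0
      have h1 := (Finset.mem_Ioc.1 (Finset.mem_filter.1 hp).1).1
      have h2 : p ≤ s0.sup id := Finset.le_sup (f := id) hp0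
      omega
    exact (le_abs_self _).trans (hs0 Pr hd).le
  have havg : ∑ s ∈ Icc 1 Y, ∑ a ∈ Icc 1 n, ∑ p ∈ G s a, w p ≤ ∑ _s ∈ Icc 1 Y, ε / 2 := by
    have e1 : ∀ s a, ∑ p ∈ G s a, w p = ∑ p ∈ Pr, if p ∣ a + M * s then w p else 0 :=
      fun s a => Finset.sum_filter _ _
    simp_rw [e1]
    rw [Finset.sum_comm]
    have e2 : ∀ a ∈ Icc 1 n, ∑ s ∈ Icc 1 Y, ∑ p ∈ Pr, (if p ∣ a + M * s then w p else 0) ≤
        2 * Y * (ε / (4 * n + 4)) := by
      intro a _
      rw [Finset.sum_comm]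
      refine le_trans (Finset.sum_le_sum (g := fun p : ℕ => 2 * Y * (1 / (p : ℝ) ^ ((3 : ℝ) / 2)))
        (fun p hp => ?_)) ?_
      · obtain ⟨hp1, hp2⟩ := Finset.mem_filter.1 hp
        obtain ⟨hp3, hp4⟩ := Finset.mem_Ioc.1 hp1
        have hpM : ¬ p ∣ M := fun h => by
          have := (Nat.Prime.dvd_factorial hp2).1 h
          omega
        rw [← Finset.sum_filter, Finset.sum_const, nsmul_eq_mul]
        have hc := count_le p a M Y hp2 hpM
        have hpr : (0 : ℝ) < p := by exact_mod_cast hp2.pos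
        have hc2 : (((Icc 1 Y).filter (fun s => p ∣ a + M * s)).card : ℝ) ≤ 2 * Y / p := by
          have h1 : ((Y / p : ℕ) : ℝ) ≤ (Y : ℝ) / p := Nat.cast_div_le
          have h2 : (1 : ℝ) ≤ (Y : ℝ) / p := by
            rw [le_div_iff₀ hpr, one_mul]; exact_mod_cast hp4
          have h3 : (((Icc 1 Y).filter (fun s => p ∣ a + M * s)).card : ℝ) ≤
              ((Y / p : ℕ) : ℝ) + 1 := by exact_mod_cast hc
          have : 2 * (Y : ℝ) / p = Y / p + Y / p := by ring
          linarith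
        have e3 : (p : ℝ) ^ ((3 : ℝ) / 2) = p * Real.sqrt p := by
          rw [Real.sqrt_eq_rpow, show (3 : ℝ) / 2 = 1 + 1 / 2 by norm_num, Real.rpow_add hpr,
            Real.rpow_one]
        have hsq : 0 < Real.sqrt p := Real.sqrt_pos.2 hpr
        calc _ ≤ 2 * (Y : ℝ) / p * w p := mul_le_mul_of_nonneg_right hc2 (hw0 p)
          _ = _ := by simp only [hw]; rw [e3]; field_simp
      · rw [← Finset.mul_sum]
        exact mul_le_mul_of_nonneg_left hPrsum (by positivity)
    refine (Finset.sum_le_sum e2).trans ?_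
    simp only [Finset.sum_const, Nat.card_Icc, nsmul_eq_mul, add_tsub_cancel_right]
    have : (n : ℝ) * (2 * Y * (ε / (4 * n + 4))) = Y * (ε / 2) * (n / (n + 1)) := by
      field_simp; ring
    rw [this]
    have h1 : (n : ℝ) / (n + 1) ≤ 1 := by
      rw [div_le_one (by positivity)]; linarith
    have h2 : 0 ≤ (Y : ℝ) * (ε / 2) := by positivity
    nlinarith
  obtain ⟨s, hs, hs2⟩ := Finset.exists_le_of_sum_le ⟨1, Finset.mem_Icc.2 ⟨le_rfl, hYpos⟩⟩ havg
  obtain ⟨hs3, hs4⟩ := Finset.mem_Icc.1 hs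
  set H : ℕ → Finset ℕ := fun a => (a + M * s).primeFactors.filter (fun p => Y < p) with hH
  have hHsum : ∀ a ∈ Icc 1 n, ∑ p ∈ H a, w p ≤ 1 / Real.sqrt Y := by
    intro a ha
    obtain ⟨ha1, ha2⟩ := Finset.mem_Icc.1 ha
    have hcard : (H a).card ≤ 1 := by
      rw [Finset.card_le_one]
      intro p hp q hq
      by_contra hpq
      obtain ⟨hp1, hp2⟩ := Finset.mem_filter.1 hp
      obtain ⟨hq1, hq2⟩ := Finset.mem_filter.1 hq
      have hcop : Nat.Coprime p q := (Nat.coprime_primes (Nat.prime_of_mem_primeFactors hp1)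
        (Nat.prime_of_mem_primeFactors hq1)).2 hpq
      have hd := hcop.mul_dvd_of_dvd_of_dvd (Nat.dvd_of_mem_primeFactors hp1)
        (Nat.dvd_of_mem_primeFactors hq1)
      have h1 := Nat.le_of_dvd (by omega) hd
      have h2 : M * s ≤ M * Y := Nat.mul_le_mul_left _ hs4
      have h3 : (Y + 1) * (Y + 1) ≤ p * q := Nat.mul_le_mul hp2 hq2
      have h4 : M * Y ≤ Y * Y := Nat.mul_le_mul_right _ (by omega)
      nlinarith
    calc ∑ p ∈ H a, w p ≤ ∑ _p ∈ H a, 1 / Real.sqrt Y := by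
          refine Finset.sum_le_sum (fun p hp => ?_)
          have hp2 := (Finset.mem_filter.1 hp).2
          exact one_div_le_one_div_of_le (Real.sqrt_pos.2 hYr)
            (Real.sqrt_le_sqrt (by exact_mod_cast hp2.le))
      _ = (H a).card * (1 / Real.sqrt Y) := by rw [Finset.sum_const, nsmul_eq_mul]
      _ ≤ 1 * (1 / Real.sqrt Y) := by
          refine mul_le_mul_of_nonneg_right (by exact_mod_cast hcard) (by positivity)
      _ = _ := one_mul _
  refine ⟨M * s, (Icc 1 n).biUnion (fun a => G s a ∪ H a), Nat.mul_pos hMpos hs3, ?_, ?_, ?_, ?_⟩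
  · intro p hp
    obtain ⟨a, _, hp⟩ := Finset.mem_biUnion.1 hp
    rcases Finset.mem_union.1 hp with h | h
    · exact (Finset.mem_filter.1 (Finset.mem_filter.1 h).1).2
    · exact Nat.prime_of_mem_primeFactors (Finset.mem_filter.1 h).1
  · refine (sum_biUnion_le _ _ w hw0).trans ?_
    have h1 : ∑ a ∈ Icc 1 n, ∑ p ∈ G s a ∪ H a, w p ≤
        ∑ a ∈ Icc 1 n, (∑ p ∈ G s a, w p + 1 / Real.sqrt Y) := by
      refine Finset.sum_le_sum (fun a ha => ?_)
      have h1 := Finset.sum_union_inter (s₁ := G s a) (s₂ := H a) (f := w)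
      have h2 : 0 ≤ ∑ x ∈ G s a ∩ H a, w x := Finset.sum_nonneg (fun x _ => hw0 x)
      linarith [hHsum a ha]
    rw [Finset.sum_add_distrib] at h1
    simp only [Finset.sum_const, Nat.card_Icc, nsmul_eq_mul, add_tsub_cancel_right] at h1
    have h2 : (n : ℝ) * (1 / Real.sqrt Y) ≤ ε / 2 := by
      have h3 : 2 * n / ε ≤ Real.sqrt Y := by
        apply Real.le_sqrt_of_sq_le
        have : (Y0 : ℝ) ≤ Y := by exact_mod_cast (by omega : Y0 ≤ Y)
        linarith
      have hsq : 0 < Real.sqrt Y := Real.sqrt_pos.2 hYr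
      rw [div_le_iff₀ hε] at h3
      rw [mul_one_div, div_le_iff₀ hsq]
      linarith
    linarith
  · intro p hp hpn
    exact Dvd.dvd.mul_right ((Nat.Prime.dvd_factorial hp).2 (by omega)) _
  · intro a ha1 ha2 p hp hpd
    by_cases h1 : p ≤ y
    · exact Or.inl (Dvd.dvd.mul_right ((Nat.Prime.dvd_factorial hp).2 h1) _)
    · right
      refine Finset.mem_biUnion.2 ⟨a, Finset.mem_Icc.2 ⟨ha1, ha2⟩, Finset.mem_union.2 ?_⟩
      by_cases h2 : p ≤ Y
      · exact Or.inl (Finset.mem_filter.2 ⟨Finset.mem_filter.2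
          ⟨Finset.mem_Ioc.2 ⟨by omega, h2⟩, hp⟩, hpd⟩)
      · exact Or.inr (Finset.mem_filter.2 ⟨Nat.mem_primeFactors.2 ⟨hp, hpd, by omega⟩, by omega⟩)

/-- Every second prime, starting with index `j`. -/
def alt (j : ℕ) : Set ℕ := {p | ∃ i, p = Nat.nth Nat.Prime (2 * i + j)}

lemma alt_count (j x : ℕ) (hj : j ≤ 1) :
    Nat.primeCounting x / 2 ≤ (alt j ∩ Set.Iic x).ncard := by
  have hinj : Function.Injective (fun i => Nat.nth Nat.Prime (2 * i + j)) := by
    intro a b h
    have := Nat.nth_injective Nat.infinite_setOf_prime h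
    omega
  have hsub : ((range (Nat.primeCounting x / 2)).image
      (fun i => Nat.nth Nat.Prime (2 * i + j)) : Set ℕ) ⊆ alt j ∩ Set.Iic x := by
    intro p hp
    obtain ⟨i, hi, rfl⟩ := Finset.mem_image.1 hp
    refine ⟨⟨i, rfl⟩, ?_⟩
    have h1 := Finset.mem_range.1 hi
    have h2 : 2 * i + j < Nat.count Nat.Prime (x + 1) := by
      change 2 * i + j < Nat.primeCounting x
      omega
    have := Nat.nth_lt_of_lt_count h2
    simp only [Set.mem_Iic]
    omega
  have := Set.ncard_le_ncard hsub ((Set.finite_Iic x).inter_of_right _)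
  rwa [Set.ncard_coe_finset, Finset.card_image_of_injective _ hinj, Finset.card_range] at this

lemma bigO (N : ℕ → ℕ)
    (h : ∀ x : ℕ, ((Nat.primeCounting x / 2 : ℕ) : ℝ) ≤ N x + 2 * Real.sqrt x) :
    (fun x : ℕ ↦ (x : ℝ) / Real.log x) =O[atTop] (fun x ↦ (N x : ℝ)) := by
  have h1 := (isLittleO_log_rpow_atTop (r := 1 / 2) (by norm_num)).bound
    (c := 1 / 100) (by norm_num)
  have h2 := tendsto_natCast_atTop_atTop (R := ℝ) |>.eventually h1
  refine IsBigO.of_bound 4 ?_
  filter_upwards [h2, eventually_ge_atTop 2] with x hx hx2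
  have hxr : (2 : ℝ) ≤ x := by exact_mod_cast hx2
  have hL : 0 < Real.log x := Real.log_pos (by linarith)
  rw [← Real.sqrt_eq_rpow, Real.norm_of_nonneg hL.le, Real.norm_of_nonneg (Real.sqrt_nonneg _)]
    at hx
  rw [Real.norm_of_nonneg (by positivity), Real.norm_of_nonneg (by positivity)]
  have hpi := Chebyshev.pi_ge x
  have hl2 := Real.log_two_gt_d9
  have hlog : Real.log (x + 1) ≤ 2 * Real.log x := by
    rw [show 2 * Real.log x = Real.log ((x : ℝ) ^ 2) by rw [Real.log_pow]; norm_num]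
    exact Real.log_le_log (by linarith) (by nlinarith)
  set r := Real.sqrt x with hr
  have hr2 : r * r = x := Real.mul_self_sqrt (by linarith)
  have hr1 : 1 ≤ r := by
    rw [hr]; apply Real.le_sqrt_of_sq_le; linarith
  set u := (x : ℝ) / Real.log x with hu
  have hu1 : 100 * r ≤ u := by
    rw [hu, le_div_iff₀ hL]; nlinarith
  have hpi2 : 0.69 * u - 2 ≤ (Nat.primeCounting x : ℝ) := by
    refine le_trans ?_ hpi
    rw [le_div_iff₀ hL, hu, sub_mul, mul_assoc, div_mul_cancel₀ _ hL.ne']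
    nlinarith
  have hpi3 : (Nat.primeCounting x : ℝ) ≤ 2 * ((Nat.primeCounting x / 2 : ℕ) : ℝ) + 1 := by
    have : Nat.primeCounting x ≤ 2 * (Nat.primeCounting x / 2) + 1 := by omega
    exact_mod_cast this
  have := h x
  linarith

/-- There exists a set P of primes with both P and its complement in the primes having ≫ x/log x elements up to x, such that the set of positive integers with all prime factors in P has the translation property. -/
theorem result :
    ∃ P : Set ℕ, P ⊆ {p : ℕ | p.Prime} ∧ (fun x : ℕ ↦ (x : ℝ) / Real.log x) =O[atTop] (fun x ↦ ((P ∩ Set.Iic x).ncard : ℝ)) ∧ (fun x : ℕ ↦ (x : ℝ) / Real.log x) =O[atTop] (fun x ↦ ((({p : ℕ | p.Prime} \ P) ∩ Set.Iic x).ncard : ℝ)) ∧ HasTranslationProperty (composedOf P) := by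
  classical
  choose t F h1 h2 h3 h4 h5 using fun n : ℕ => stage n ((1 / 2) ^ n) (by positivity)
  set E : Set ℕ := {p | ∃ n, p ∈ F n} with hE
  have hEc : ∀ x : ℕ, ((E ∩ Set.Iic x).ncard : ℝ) ≤ 2 * Real.sqrt x := by
    intro x
    have hfin : (E ∩ Set.Iic x).Finite := (Set.finite_Iic x).inter_of_right _
    have hex : ∀ p, ∃ n, p ∈ E → p ∈ F n := fun p => by
      by_cases hp : p ∈ E
      · obtain ⟨n, hn⟩ := hp
        exact ⟨n, fun _ => hn⟩
      · exact ⟨0, fun h => absurd h hp⟩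
    choose g hg using hex
    set N := hfin.toFinset.sup g + 1 with hN
    have hsub : hfin.toFinset ⊆ (range N).biUnion F := by
      intro p hp
      have hp1 := (hfin.mem_toFinset.1 hp).1
      have : g p ≤ hfin.toFinset.sup g := Finset.le_sup hp
      exact Finset.mem_biUnion.2 ⟨g p, Finset.mem_range.2 (by omega), hg p hp1⟩
    have hw0 : ∀ p : ℕ, 0 ≤ 1 / Real.sqrt p := fun p => by positivity
    rw [Set.ncard_eq_toFinset_card _ hfin]
    calc (hfin.toFinset.card : ℝ) = ∑ _p ∈ hfin.toFinset, (1 : ℝ) := by simp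
      _ ≤ ∑ p ∈ hfin.toFinset, Real.sqrt x * (1 / Real.sqrt p) := by
          refine Finset.sum_le_sum (fun p hp => ?_)
          obtain ⟨⟨n, hn⟩, hp2⟩ := hfin.mem_toFinset.1 hp
          have hpr : (0 : ℝ) < p := by exact_mod_cast (h2 n p hn).pos
          rw [mul_one_div, le_div_iff₀ (Real.sqrt_pos.2 hpr), one_mul]
          exact Real.sqrt_le_sqrt (by exact_mod_cast hp2)
      _ = Real.sqrt x * ∑ p ∈ hfin.toFinset, (1 / Real.sqrt p) := by rw [Finset.mul_sum]
      _ ≤ Real.sqrt x * 2 := by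
          refine mul_le_mul_of_nonneg_left ?_ (Real.sqrt_nonneg _)
          refine (Finset.sum_le_sum_of_subset_of_nonneg hsub (fun p _ _ => hw0 p)).trans ?_
          refine (sum_biUnion_le _ _ _ hw0).trans ?_
          exact (Finset.sum_le_sum (fun n _ => h3 n)).trans (sum_geometric_two_le N)
      _ = 2 * Real.sqrt x := mul_comm _ _
  have haltp : ∀ j, ∀ p ∈ alt j, p.Prime := by
    rintro j p ⟨i, rfl⟩
    exact Nat.nth_mem_of_infinite Nat.infinite_setOf_prime _
  refine ⟨alt 0 ∪ E, ?_, bigO _ (fun x => ?_), bigO _ (fun x => ?_), fun n => ⟨t n, h1 n, ?_⟩⟩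
  · rintro p (hp | ⟨n, hn⟩)
    · exact haltp 0 p hp
    · exact h2 n p hn
  · have a1 := alt_count 0 x (by norm_num)
    have a2 : (alt 0 ∩ Set.Iic x).ncard ≤ ((alt 0 ∪ E) ∩ Set.Iic x).ncard :=
      Set.ncard_le_ncard (Set.inter_subset_inter_left _ Set.subset_union_left)
        ((Set.finite_Iic x).inter_of_right _)
    have a3 : ((Nat.primeCounting x / 2 : ℕ) : ℝ) ≤ ((alt 0 ∪ E) ∩ Set.Iic x).ncard := by
      exact_mod_cast a1.trans a2
    have := Real.sqrt_nonneg (x : ℝ)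
    linarith
  · have a1 := alt_count 1 x le_rfl
    have a2 : (alt 1 ∩ Set.Iic x).ncard ≤
        ((({p : ℕ | p.Prime} \ (alt 0 ∪ E)) ∩ Set.Iic x) ∪ (E ∩ Set.Iic x)).ncard := by
      refine Set.ncard_le_ncard ?_ (((Set.finite_Iic x).inter_of_right _).union
        ((Set.finite_Iic x).inter_of_right _))
      rintro p ⟨hp1, hp2⟩
      by_cases hpE : p ∈ E
      · exact Or.inr ⟨hpE, hp2⟩
      · refine Or.inl ⟨⟨haltp 1 p hp1, ?_⟩, hp2⟩
        rintro (⟨i, hi⟩ | h)
        · obtain ⟨k, hk⟩ := hp1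
          have := Nat.nth_injective Nat.infinite_setOf_prime (hi.symm.trans hk)
          omega
        · exact hpE h
    have a3 := (a1.trans a2).trans (Set.ncard_union_le _ _)
    have a4 : ((Nat.primeCounting x / 2 : ℕ) : ℝ) ≤
        (({p : ℕ | p.Prime} \ (alt 0 ∪ E)) ∩ Set.Iic x).ncard + (E ∩ Set.Iic x).ncard := by
      exact_mod_cast a3
    linarith [hEc x]
  · intro a ha1 ha2
    constructor
    · rintro ⟨_, ha⟩
      refine ⟨by omega, fun p hp hpd => ?_⟩
      rcases h5 n a ha1 ha2 p hp hpd with h | h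
      · exact ha p hp ((Nat.dvd_add_left h).1 hpd)
      · exact Or.inr ⟨n, h⟩
    · rintro ⟨_, ha⟩
      refine ⟨by omega, fun p hp hpd => ha p hp ?_⟩
      have := Nat.le_of_dvd (by omega) hpd
      exact Nat.dvd_add hpd (h4 n p hp (by omega))

end Pool.Agent.S16227
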