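import Pool.Statements.S16290
import Pool.Agent.H58.CFDouble

set_option autoImplicit false
open Filter Topology
open scoped Classical
open Pool Pool.MP_219c9f_nt

namespace Pool.Agent.S16290

theorem result :
    ¬ (∀ x : ℝ,
      (∀ k : ℕ, 1 ≤ k →
        Tendsto
          (fun n : ℕ =>
            (((Finset.range n).filter
                (fun i => (GenContFract.of x).partDens.get? i = some (k : ℝ))).card : ℝ) / (n : ℝ))
          atTop (𝓝 (Real.logb 2 (1 + 1 / ((k : ℝ) * ((k : ℝ) + 2)))))) →
      ∀ q r : ℚ, q ≠ 0 →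
        (∀ k : ℕ, 1 ≤ k →
          Tendsto
            (fun n : ℕ =>
              (((Finset.range n).filter
                  (fun i => (GenContFract.of ((q : ℝ) * x + (r : ℝ))).partDens.get? i
                    = some (k : ℝ))).card : ℝ) / (n : ℝ))
            atTop (𝓝 (Real.logb 2 (1 + 1 / ((k : ℝ) * ((k : ℝ) + 2))))))) := by
  intro h
  obtain ⟨x, d, d', h1, h2, h3, h4⟩ := Pool.Agent.H58.CFDouble.main
  have key : ∀ (y : ℝ) (u : ℕ → ℕ),
      (∀ i, (GenContFract.of y).partDens.get? i = some (u (i + 1) : ℝ)) → ∀ (k n : ℕ),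
      (((Finset.range n).filter
        (fun i => (GenContFract.of y).partDens.get? i = some (k : ℝ))).card : ℝ) =
      ∑ i ∈ Finset.range n, if u (i + 1) = k then (1 : ℝ) else 0 := by
    intro y u hu k n
    rw [Finset.card_filter]
    push_cast
    refine Finset.sum_congr rfl (fun i _ => ?_)
    rw [hu i]
    simp
  have h5 := h x (fun k _ => by
    simp only [key x d h1]
    exact h3 k) 2 0 (by norm_num) 3 (by norm_num)
  apply h4
  have e : (((2 : ℚ) : ℝ) * x + ((0 : ℚ) : ℝ)) = 2 * x := by push_cast; ring
  rw [e] at h5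
  simp only [key (2 * x) d' h2] at h5
  exact h5

end Pool.Agent.S16290
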