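import Pool.Statements.S16388
import Pool.Agent.H49.IrrDyn
import Pool.Agent.H49.FFHeight

set_option autoImplicit false
open Filter Topology
open Pool Pool.MP_2ab887_nt

namespace Pool.Agent.S16388

open Pool.Agent.H49 Pool.Agent.H49.IrrDyn

abbrev k := AlgebraicClosure (ZMod 2)

noncomputable def F : Fin 2 → MvPolynomial (Fin 2) (RatFunc k) :=
  ![MvPolynomial.X 0 * (MvPolynomial.X 0 + MvPolynomial.X 1),
    MvPolynomial.X 0 ^ 2 + MvPolynomial.C RatFunc.X *
      (MvPolynomial.X 1 * (MvPolynomial.X 0 + MvPolynomial.X 1))]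

noncomputable def phi : R →+* RatFunc k :=
  (algebraMap (Polynomial k) (RatFunc k)).comp (Polynomial.mapRingHom (algebraMap (ZMod 2) k))

lemma phi_X : phi Polynomial.X = RatFunc.X := by simp [phi]

noncomputable def s : ℕ → ℕ
  | 0 => 0
  | n + 1 => 2 * s n + e (P n)

lemma iter (n : ℕ) :
    (fun (z : Fin 2 → RatFunc k) (j : Fin 2) => MvPolynomial.eval z (F j))^[n]
      ![1, RatFunc.X + 1] = ![RatFunc.X ^ s n * phi (P n).1, RatFunc.X ^ s n * phi (P n).2] := by
  induction n with
  | zero => simp [s, P, phi_X]
  | succ n ih =>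
    rw [Function.iterate_succ_apply', ih, P_succ]
    have h1 := congrArg phi (step_fst (P n))
    have h2 := congrArg phi (step_snd (P n))
    simp only [map_mul, map_pow, map_add, phi_X] at h1 h2
    funext j
    fin_cases j
    · simp only [F, s, pow_add, mul_assoc]
      simp only [Fin.zero_eta, Fin.isValue, Matrix.cons_val_zero, map_mul, MvPolynomial.eval_X,
        map_add, Matrix.cons_val_one, h1]
      ring
    · simp only [F, s, pow_add, mul_assoc]
      simp only [Fin.mk_one, Fin.isValue, Matrix.cons_val_one, Matrix.cons_val_zero, map_add,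
        map_pow, MvPolynomial.eval_X, map_mul, MvPolynomial.eval_C, h2]
      ring

theorem result :
    ¬ (∀ (k K : Type) [Field k] [IsAlgClosed k] [Field K] [Algebra (RatFunc k) K],
      FunctionField k K →
      ∀ (N d : ℕ), 2 ≤ d →
      ∀ F : Fin (N + 1) → MvPolynomial (Fin (N + 1)) K,
        (∀ i, (F i).IsHomogeneous d) →
        (∀ y : Fin (N + 1) → AlgebraicClosure K,
            (∀ i, MvPolynomial.aeval y (F i) = 0) → y = 0) →
        ∀ x : Fin (N + 1) → K, x ≠ 0 →
          ∃ q : ℚ,
            Tendsto
              (fun n : ℕ =>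
                (∑ᶠ v : {v : Valuation K (WithZero (Multiplicative ℤ)) //
                      Function.Surjective v ∧
                        ∀ c : k, c ≠ 0 → v (algebraMap (RatFunc k) K (RatFunc.C c)) = 1},
                    ((sInf {m : ℤ | ∀ i,
                        v.1 (((fun (z : Fin (N + 1) → K) (j : Fin (N + 1)) =>
                                MvPolynomial.eval z (F j))^[n] x) i)
                          ≤ WithZero.coe (Multiplicative.ofAdd m)} : ℤ) : ℝ))
                  / (d : ℝ) ^ n)
              atTop (𝓝 (q : ℝ))) := by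
  intro h
  have hhom : ∀ i, (F i).IsHomogeneous 2 := by
    have a0 := MvPolynomial.isHomogeneous_X (RatFunc k) (0 : Fin 2)
    have a1 := MvPolynomial.isHomogeneous_X (RatFunc k) (1 : Fin 2)
    intro i
    fin_cases i
    · exact a0.mul (a0.add a1)
    · exact (a0.pow 2).add ((a1.mul (a0.add a1)).C_mul _)
  have hnz : ∀ y : Fin 2 → AlgebraicClosure (RatFunc k),
      (∀ i, MvPolynomial.aeval y (F i) = 0) → y = 0 := by
    intro y hy
    have h0 := hy 0
    have h1 := hy 1
    simp only [F, Fin.isValue, Matrix.cons_val_zero, map_mul, MvPolynomial.aeval_X, map_add,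
      Matrix.cons_val_one, map_pow, MvPolynomial.aeval_C] at h0 h1
    have ht : algebraMap (RatFunc k) (AlgebraicClosure (RatFunc k)) RatFunc.X ≠ 0 := by
      rw [Ne, map_eq_zero]; exact RatFunc.X_ne_zero
    have hx : y 0 = 0 := by
      rcases mul_eq_zero.1 h0 with a | a
      · exact a
      · rw [a, mul_zero, mul_zero, add_zero] at h1
        exact pow_eq_zero_iff (by norm_num) |>.1 h1
    have hy1 : y 1 = 0 := by
      rw [hx, zero_add] at h1
      simp only [ne_eq, OfNat.ofNat_ne_zero, not_false_eq_true, zero_pow, zero_add,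
        mul_eq_zero, or_self] at h1
      exact h1.resolve_left ht
    funext i
    fin_cases i
    · exact hx
    · exact hy1
  obtain ⟨q, hq⟩ := h k (RatFunc k) (inferInstanceAs (FiniteDimensional _ _)) 1 2 le_rfl F hhom hnz
    ![1, RatFunc.X + 1] (fun h0 => by simpa using congrFun h0 0)
  apply not_rational q
  refine hq.congr (fun n => ?_)
  have hg := good_P n
  have hinj : Function.Injective (algebraMap (ZMod 2) k) := (algebraMap (ZMod 2) k).injective
  have := FFHeight.height_eq (k := k) (s n) ((P n).1.map (algebraMap (ZMod 2) k))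
    ((P n).2.map (algebraMap (ZMod 2) k)) ((Polynomial.map_ne_zero_iff hinj).2 hg.xne)
    (by rw [Polynomial.coeff_map, hg.y0, map_one]; exact one_ne_zero)
    (by rw [Polynomial.natDegree_map, Polynomial.natDegree_map]; exact hg.lt.le)
    (hg.cop.map (Polynomial.mapRingHom (algebraMap (ZMod 2) k)))
    ((fun (z : Fin 2 → RatFunc k) (j : Fin 2) => MvPolynomial.eval z (F j))^[n]
      ![1, RatFunc.X + 1]) (by rw [iter]; rfl) (by rw [iter]; rfl)
  rw [Polynomial.natDegree_map] at this
  erw [this]
  simp [D]

end Pool.Agent.S16388
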