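import Pool.Statements.S16419
-- import your own Pool.Agent.* helpers here

set_option autoImplicit false
open Pool Pool.MP_2c7dbf_nt

namespace Pool.Agent.S16419

open Finset

def cp (n : ℕ) : Finset (ℕ × ℕ) := (Ioc 0 n ×ˢ Ioc 0 n).filter (fun p => Nat.gcd p.1 p.2 = 1)

theorem cp_small : ∀ n < 65, 5 ≤ n → n ≠ 6 → n * n + 2 * n < 2 * (cp n).card := by
  decide +kernel

def dd (j : ℕ) : ℕ := if j = 0 then 2 else 2 * j + 1

theorem sum_dd (m : ℕ) (hm : 3 ≤ m) :
    ∑ j ∈ range m, (1 / (dd j : ℝ)) ^ 2 ≤ 1 / 4 + 1 / 9 + 1 / 25 + 1 / 12 - 1 / (4 * (m : ℝ)) := by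
  induction m, hm using Nat.le_induction with
  | base => simp [sum_range_succ, dd]; norm_num
  | succ m hm ih =>
    rw [sum_range_succ]
    have h0 : (dd m : ℝ) = 2 * m + 1 := by
      rw [dd, if_neg (by omega)]; push_cast; ring
    have h1 : (3 : ℝ) ≤ m := by exact_mod_cast hm
    have h2 : (1 / (2 * (m : ℝ) + 1)) ^ 2 ≤ 1 / (4 * (m : ℝ)) - 1 / (4 * ((m : ℝ) + 1)) := by
      rw [div_sub_div _ _ (by positivity) (by positivity), div_pow,
        div_le_div_iff₀ (by positivity) (by positivity)]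
      nlinarith
    rw [h0]
    push_cast
    linarith

theorem cp_large (n : ℕ) (hn : 65 ≤ n) : n * n + 2 * n < 2 * (cp n).card := by
  have hsub : Ioc 0 n ×ˢ Ioc 0 n ⊆ cp n ∪ (range n).biUnion
      (fun j => (Ioc 0 n).filter (dd j ∣ ·) ×ˢ (Ioc 0 n).filter (dd j ∣ ·)) := by
    intro p hp
    by_cases h : Nat.gcd p.1 p.2 = 1
    · exact mem_union_left _ (mem_filter.2 ⟨hp, h⟩)
    · apply mem_union_right
      obtain ⟨q, hq, hd⟩ := Nat.exists_prime_and_dvd h
      have h1 : q ∣ p.1 := hd.trans (Nat.gcd_dvd_left _ _)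
      have h2 : q ∣ p.2 := hd.trans (Nat.gcd_dvd_right _ _)
      obtain ⟨hp1, hp2⟩ := mem_product.1 hp
      have h3 : q ≤ n := (Nat.le_of_dvd (mem_Ioc.1 hp1).1 h1).trans (mem_Ioc.1 hp1).2
      obtain ⟨j, hj, e⟩ : ∃ j < n, dd j = q := by
        rcases hq.eq_two_or_odd with h | h
        · exact ⟨0, by omega, by simp [dd, h]⟩
        · have := hq.two_le
          exact ⟨q / 2, by omega, by rw [dd, if_neg (by omega)]; omega⟩
      refine mem_biUnion.2 ⟨j, mem_range.2 hj, mem_product.2 ⟨?_, ?_⟩⟩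
      · exact mem_filter.2 ⟨hp1, e ▸ h1⟩
      · exact mem_filter.2 ⟨hp2, e ▸ h2⟩
  have h1 := (card_le_card hsub).trans ((card_union_le _ _).trans
    (Nat.add_le_add_left card_biUnion_le _))
  simp only [card_product, Nat.Ioc_filter_dvd_card_eq_div, Nat.card_Ioc, Nat.sub_zero] at h1
  have h2 : ((∑ j ∈ range n, n / dd j * (n / dd j) : ℕ) : ℝ)
      ≤ (n : ℝ) ^ 2 * ∑ j ∈ range n, (1 / (dd j : ℝ)) ^ 2 := by
    rw [mul_sum]
    push_cast
    apply sum_le_sum
    intro j _
    have h3 : ((n / dd j : ℕ) : ℝ) ≤ (n : ℝ) / dd j := Nat.cast_div_le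
    calc ((n / dd j : ℕ) : ℝ) * ((n / dd j : ℕ) : ℝ) ≤ (n : ℝ) / dd j * ((n : ℝ) / dd j) :=
          mul_self_le_mul_self (by positivity) h3
      _ = _ := by ring
  have h3 := sum_dd n (by omega)
  have h4 : (65 : ℝ) ≤ n := by exact_mod_cast hn
  have h5 : (0 : ℝ) ≤ 1 / (4 * (n : ℝ)) := by positivity
  have h6 : ((n * n : ℕ) : ℝ) ≤ ((cp n).card : ℝ) + ((∑ j ∈ range n, n / dd j * (n / dd j) : ℕ) : ℝ) := by
    exact_mod_cast h1
  have h7 : (n : ℝ) ^ 2 * ∑ j ∈ range n, (1 / (dd j : ℝ)) ^ 2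
      ≤ (n : ℝ) ^ 2 * (1 / 4 + 1 / 9 + 1 / 25 + 1 / 12) :=
    mul_le_mul_of_nonneg_left (by linarith) (by positivity)
  have h8 : ((n * n + 2 * n : ℕ) : ℝ) < ((2 * (cp n).card : ℕ) : ℝ) := by
    push_cast at h6 h2 ⊢
    nlinarith
  exact_mod_cast h8

def ok (y B m q : ℕ) : Bool :=
  decide (q < 2 ∨ ¬ q ∣ m ∨ q * y ≤ B ∨ ∃ d : ℕ, d < q ∧ (1 < d ∧ d ∣ q))

def sm (k y B : ℕ) : Finset ℕ :=
  (Ioc 0 k).filter (fun m => ∀ q : ℕ, q < m + 1 → ok y B m q = true)

theorem tiny : ∀ k < 49, 1 ≤ k → ∃ y ∈ Ioc 0 3, y ≤ k ∧ k < 2 * (sm k y k).card ∧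
    k < 4 * (sm k 1 y).card := by
  decide +kernel

theorem half {G : Type} [Group G] [Fintype G] (H K : Subgroup G) (h : H < K) :
    2 * Nat.card H ≤ Nat.card K := by
  obtain ⟨c, hc⟩ := Subgroup.card_dvd_of_le h.le
  have h1 : Nat.card H < Nat.card K := by
    rcases (Subgroup.card_le_of_le h.le).lt_or_eq with h2 | h2
    · exact h2
    · exact absurd (Subgroup.eq_of_le_of_card_ge h.le h2.ge) h.ne
  rw [hc] at h1 ⊢
  have : 2 ≤ c := by
    by_contra h3
    have : c ≤ 1 := by omega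
    nlinarith
  nlinarith

theorem card_le {G α : Type} [Group G] [Fintype G] (H : Subgroup G) (s : Finset α) (f : α → G)
    (hf : Set.InjOn f s) (hs : ∀ a ∈ s, f a ∈ H) : s.card ≤ Nat.card H := by
  classical
  rw [← card_image_of_injOn hf, ← Set.ncard_coe_finset]
  exact Set.ncard_le_ncard (s := ((s.image f : Finset G) : Set G)) (t := (H : Set G))
    (by intro x hx
        obtain ⟨a, ha, rfl⟩ := mem_image.1 (mem_coe.1 hx)
        exact hs a ha)

/-- For every k and every finite group G of order k: if some injective map from {1,…,k} to G sends every product xy ≤ k of elements x, y ≤ k to the group product of their images, then G is abelian. -/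
theorem result :
    ∀ (k : ℕ) (G : Type) [Group G] [Fintype G], Fintype.card G = k →
      ∀ φ : ℕ → G, Set.InjOn φ (Set.Icc 1 k) →
        (∀ x ∈ Set.Icc 1 k, ∀ y ∈ Set.Icc 1 k, x * y ≤ k → φ (x * y) = φ x * φ y) →
        ∀ a b : G, a * b = b * a := by
  intro k G _ _ hk φ hinj hmul a b
  by_contra hab
  have hk1 : 1 ≤ k := hk ▸ Fintype.card_pos
  have hm : ∀ x y, 1 ≤ x → 1 ≤ y → x * y ≤ k → φ (x * y) = φ x * φ y := fun x y hx hy h =>
    hmul x ⟨hx, by nlinarith⟩ y ⟨hy, by nlinarith⟩ h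
  have hc : ∀ x y, 1 ≤ x → 1 ≤ y → x * y ≤ k → φ x * φ y = φ y * φ x := fun x y hx hy h => by
    rw [← hm x y hx hy h, ← hm y x hy hx (by rwa [mul_comm]), mul_comm]
  have hone : φ 1 = 1 := by
    have := hm 1 1 le_rfl le_rfl (by omega)
    simpa using this
  have hhalf : ∀ H : Subgroup G, H ≠ ⊤ → 2 * Nat.card H ≤ k := fun H hH => by
    have := half H ⊤ (lt_top_iff_ne_top.2 hH)
    rwa [Subgroup.card_top, Nat.card_eq_fintype_card (α := G), hk] at this
  by_cases hs : k < 49
  · obtain ⟨y, -, hyk, h1, h2⟩ := tiny k hs hk1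
    have smooth : ∀ (H : Subgroup G) (m : ℕ), 1 ≤ m → m ≤ k →
        (∀ q, q.Prime → q ∣ m → φ q ∈ H) → φ m ∈ H := by
      intro H m
      induction m using Nat.strong_induction_on with
      | _ m ih =>
        intro h1 h2 h3
        by_cases h4 : m = 1
        · rw [h4, hone]; exact H.one_mem
        · obtain ⟨q, hq, c, hc⟩ := Nat.exists_prime_and_dvd h4
          have h5 := hq.two_le
          have h6 : 1 ≤ c := by
            rcases Nat.eq_zero_or_pos c with h | h
            · subst h; omega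
            · exact h
          rw [hc, hm q c (by omega) h6 (hc ▸ h2)]
          refine H.mul_mem (h3 q hq ⟨c, hc⟩) (ih c (by nlinarith) h6 (by nlinarith) ?_)
          intro r hr hd
          exact h3 r hr (hc ▸ hd.mul_left q)
    have cnt : ∀ (H : Subgroup G) (z B : ℕ), (∀ q, q.Prime → q * z ≤ B → φ q ∈ H) →
        (sm k z B).card ≤ Nat.card H := by
      intro H z B h
      apply card_le H _ φ
      · apply hinj.mono
        intro m hm
        have := mem_Ioc.1 (mem_filter.1 (mem_coe.1 hm)).1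
        exact ⟨this.1, this.2⟩
      · intro m hm
        obtain ⟨h3, h4⟩ := mem_filter.1 hm
        have h5 := mem_Ioc.1 h3
        refine smooth H m h5.1 h5.2 (fun q hq hd => ?_)
        rcases of_decide_eq_true (h4 q (Nat.lt_succ_of_le (Nat.le_of_dvd h5.1 hd))) with
          h6 | h6 | h6 | ⟨d, h6, h9, h7⟩
        · have := hq.two_le
          omega
        · exact absurd hd h6
        · exact h q hq h6
        · rcases (Nat.dvd_prime hq).1 h7 with h8 | h8 <;> omega
    have hZ : ∀ q, q.Prime → q * 1 ≤ y → φ q ∈ Subgroup.center G := by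
      intro q hq hqy
      have : Subgroup.centralizer {φ q} = ⊤ := by
        by_contra h
        have h3 := hhalf _ h
        have h4 := cnt (Subgroup.centralizer {φ q}) y k (fun r hr hry => by
          rw [Subgroup.mem_centralizer_singleton_iff]
          exact hc r q hr.one_le hq.one_le (by nlinarith))
        omega
      rw [Subgroup.mem_center_iff]
      intro g
      have h5 : g ∈ Subgroup.centralizer {φ q} := this ▸ Subgroup.mem_top g
      exact Subgroup.mem_centralizer_singleton_iff.1 h5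
    have h3 := cnt _ 1 y hZ
    have h4 : Subgroup.center G < Subgroup.centralizer {a} := by
      refine lt_of_le_of_ne (Subgroup.center_le_centralizer _) (fun h => hab ?_)
      have : a ∈ Subgroup.center G := h ▸ Subgroup.mem_centralizer_singleton_iff.2 rfl
      exact (Subgroup.mem_center_iff.1 this b).symm
    have h5 := half _ _ h4
    have h6 := hhalf (Subgroup.centralizer {a}) (fun h => hab (by
      have : b ∈ Subgroup.centralizer {a} := h ▸ Subgroup.mem_top b
      exact (Subgroup.mem_centralizer_singleton_iff.1 this).symm))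
    omega
  · set n := Nat.sqrt k with hn
    have hn1 : n * n ≤ k := Nat.sqrt_le k
    have hn2 : k < (n + 1) * (n + 1) := Nat.lt_succ_sqrt k
    have hn3 : 7 ≤ n := by nlinarith
    have hcp : n * n + 2 * n < 2 * (cp n).card := by
      by_cases h : n < 65
      · exact cp_small n h (by omega) (by omega)
      · exact cp_large n (by omega)
    set S : Set G := φ '' Set.Icc 1 n with hS
    have hcomm : ∀ x ∈ S, ∀ y ∈ S, x * y = y * x := by
      rintro _ ⟨x, hx, rfl⟩ _ ⟨y, hy, rfl⟩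
      exact hc x y hx.1 hy.1 ((Nat.mul_le_mul hx.2 hy.2).trans hn1)
    have hH : Subgroup.closure S ≠ ⊤ := by
      intro h
      have h1 : Subgroup.closure S ≤ Subgroup.centralizer S :=
        (Subgroup.closure_le _).2 (fun x hx y hy => hcomm y hy x hx)
      have h2 : Subgroup.closure S ≤ Subgroup.centralizer {a} := by
        refine (Subgroup.closure_le _).2 (fun x hx => ?_)
        exact Subgroup.mem_centralizer_singleton_iff.2 (h1 (h ▸ Subgroup.mem_top a) x hx)
      exact hab (Subgroup.mem_centralizer_singleton_iff.1 (h2 (h ▸ Subgroup.mem_top b))).symm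
    have h1 := hhalf _ hH
    have h2 : (cp n).card ≤ Nat.card (Subgroup.closure S) := by
      apply card_le _ _ (fun p : ℕ × ℕ => φ p.1 * (φ p.2)⁻¹)
      · rintro ⟨x, y⟩ hp ⟨z, t⟩ hq h
        obtain ⟨hp1, hp2⟩ := mem_filter.1 (mem_coe.1 hp)
        obtain ⟨hq1, hq2⟩ := mem_filter.1 (mem_coe.1 hq)
        simp only [mem_product, mem_Ioc] at hp1 hq1 hp2 hq2 h
        obtain ⟨⟨x1, x2⟩, y1, y2⟩ := hp1
        obtain ⟨⟨z1, z2⟩, t1, t2⟩ := hq1
        have e1 : x * t ≤ k := (Nat.mul_le_mul x2 t2).trans hn1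
        have e2 : z * y ≤ k := (Nat.mul_le_mul z2 y2).trans hn1
        have e3 : φ (x * t) = φ (z * y) := by
          rw [hm x t x1 t1 e1, hm z y z1 y1 e2]
          have e4 := hc y t y1 t1 ((Nat.mul_le_mul y2 t2).trans hn1)
          calc φ x * φ t = φ x * (φ y)⁻¹ * (φ y * φ t) := by group
            _ = φ z * (φ t)⁻¹ * (φ t * φ y) := by rw [h, e4]
            _ = _ := by group
        have e5 : x * t = z * y := hinj ⟨Nat.mul_pos x1 t1, e1⟩ ⟨Nat.mul_pos z1 y1, e2⟩ e3
        have e6 : x = z := Nat.dvd_antisymm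
          (Nat.Coprime.dvd_of_dvd_mul_right hp2 ⟨t, e5.symm⟩)
          (Nat.Coprime.dvd_of_dvd_mul_right hq2 ⟨y, e5⟩)
        subst e6
        have e7 : t = y := Nat.eq_of_mul_eq_mul_left x1 e5
        rw [e7]
      · rintro ⟨x, y⟩ hp
        obtain ⟨hp1, -⟩ := mem_filter.1 hp
        simp only [mem_product, mem_Ioc] at hp1
        exact Subgroup.mul_mem _ (Subgroup.subset_closure ⟨x, hp1.1, rfl⟩)
          (Subgroup.inv_mem _ (Subgroup.subset_closure ⟨y, hp1.2, rfl⟩))
    nlinarith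

end Pool.Agent.S16419
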