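import Pool.Statements.S16463
import Pool.Agent.H56.MinLen

set_option autoImplicit false
open Pool Pool.MP_2fa2bc_nt

namespace Pool.Agent.S16463

/-- There is a monic irreducible integer polynomial P and a nonzero integer T such that PT has least length among all nonzero multiples of P, and T has a nonzero complex root that is not a root of unity. -/
theorem result :
    ∃ P T : Polynomial ℤ, P.Monic ∧ Irreducible P ∧ T ≠ 0 ∧
      (∀ S : Polynomial ℤ, S ≠ 0 →
        ∑ i ∈ (P * T).support, |(P * T).coeff i| ≤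
          ∑ i ∈ (P * S).support, |(P * S).coeff i|) ∧
      ∃ z : ℂ, z ≠ 0 ∧ Polynomial.aeval z T = 0 ∧ ∀ n : ℕ, 0 < n → z ^ n ≠ 1 := by
  open Pool.Agent.H56.MinLen in
  have hT : T ≠ 0 := by
    intro h
    have := len_PT
    rw [h] at this
    simp at this
  open Pool.Agent.H56.MinLen in
  refine ⟨P, T, P_monic, P_irreducible, hT, ?_, (phi : ℂ), ?_, ?_, ?_⟩
  · intro S hS
    rw [Pool.Agent.H56.MinLen.len_PT]
    exact Pool.Agent.H56.MinLen.six_le S (mul_ne_zero Pool.Agent.H56.MinLen.P_monic.ne_zero hS)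
  · have := Pool.Agent.H56.MinLen.phi_gt
    exact_mod_cast (by linarith : Pool.Agent.H56.MinLen.phi ≠ 0)
  · have h : ((Pool.Agent.H56.MinLen.phi : ℂ)) ^ 2 = Pool.Agent.H56.MinLen.phi + 1 := by
      exact_mod_cast Pool.Agent.H56.MinLen.phi_sq
    simp only [Pool.Agent.H56.MinLen.T, map_sub, map_pow, Polynomial.aeval_X, map_one]
    linear_combination h
  · intro n hn h
    have h1 : Pool.Agent.H56.MinLen.phi ^ n = 1 := by exact_mod_cast h
    have h2 := Pool.Agent.H56.MinLen.phi_gt
    have h3 : 1 < Pool.Agent.H56.MinLen.phi ^ n := one_lt_pow₀ (by linarith) hn.ne'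
    linarith

end Pool.Agent.S16463
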