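import Pool.Statements.S16507
import Pool.Agent.H63.Sidon2

set_option autoImplicit false
open Pool Pool.MP_32845f_nt

namespace Pool.Agent.S16507

/-- For every ε>0 and all large N there is a Sidon set A in [1,N] with more than N^(1/2-ε) elements, of which more than N^(1/3-ε) lie in [1,N^(2/3)]. -/
theorem result :
    ∀ ε : ℝ, 0 < ε → ∃ N₀ : ℕ, ∀ N : ℕ, N₀ ≤ N →
      ∃ A : Finset ℕ, A ⊆ Finset.Icc 1 N ∧
        (∀ a ∈ A, ∀ b ∈ A, ∀ c ∈ A, ∀ d ∈ A,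
            a + b = c + d → (a = c ∧ b = d) ∨ (a = d ∧ b = c)) ∧
        (N : ℝ) ^ ((1 : ℝ) / 2 - ε) < (A.card : ℝ) ∧
        (N : ℝ) ^ ((1 : ℝ) / 3 - ε) <
          ((A ∩ Finset.Icc 1 ⌊(N : ℝ) ^ ((2 : ℝ) / 3)⌋₊).card : ℝ) := by
  intro ε hε
  have hlim : Filter.Tendsto (fun N : ℕ => (N : ℝ) ^ ε) Filter.atTop Filter.atTop :=
    (tendsto_rpow_atTop hε).comp tendsto_natCast_atTop_atTop
  obtain ⟨N₁, hN₁⟩ := Filter.eventually_atTop.1 (hlim.eventually_ge_atTop 1000)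
  refine ⟨max N₁ (6 * 8 ^ 6), fun N hN => ?_⟩
  have hε' := hN₁ N (le_trans (le_max_left _ _) hN)
  have hN0 : 6 * 8 ^ 6 ≤ N := le_trans (le_max_right _ _) hN
  have hex : ∃ j, N < 6 * (8 * 4 ^ (j + 1)) ^ 6 := by
    refine ⟨N, ?_⟩
    have h1 : N < 4 ^ (N + 1) := lt_trans (Nat.lt_pow_self (by norm_num : 1 < 4))
      (Nat.pow_lt_pow_right (by norm_num) (by omega))
    have h2 : 8 * 4 ^ (N + 1) ≤ (8 * 4 ^ (N + 1)) ^ 6 := Nat.le_self_pow (by norm_num) _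
    omega
  classical
  set j := Nat.find hex with hj
  have hj1 : N < 6 * (8 * 4 ^ (j + 1)) ^ 6 := Nat.find_spec hex
  have hj2 : 6 * (8 * 4 ^ j) ^ 6 ≤ N := by
    rcases Nat.eq_zero_or_pos j with h0 | h0
    · rw [h0]; simpa using hN0
    · have := Nat.find_min hex (m := j - 1) (by omega)
      rw [show j - 1 + 1 = j by omega] at this
      omega
  clear_value j
  obtain ⟨A, h1, h2, h3, h4⟩ := Pool.Agent.H63.Sidon2.level j
  have hq0 : 0 < 8 * 4 ^ j := by positivity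
  rw [show 8 * 4 ^ (j + 1) = 4 * (8 * 4 ^ j) by ring] at hj1
  generalize 8 * 4 ^ j = q at *
  have hq : (0 : ℝ) < q := by exact_mod_cast hq0
  have hNpos : (0 : ℝ) < N := by exact_mod_cast (by omega : 0 < N)
  have hj1' : (N : ℝ) < 6 * (4 * q) ^ 6 := by exact_mod_cast hj1
  have hj2' : 6 * (q : ℝ) ^ 6 ≤ N := by exact_mod_cast hj2
  have hq6 : (0 : ℝ) < (q : ℝ) ^ 6 := by positivity
  refine ⟨A, h1.trans (Finset.Icc_subset_Icc_right hj2), h2, ?_, ?_⟩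
  · have e1 : (N : ℝ) ^ ((1 : ℝ) / 2) < 160 * (q : ℝ) ^ 3 := by
      apply lt_of_pow_lt_pow_left₀ 2 (by positivity)
      rw [← Real.rpow_natCast, ← Real.rpow_mul hNpos.le]
      norm_num
      nlinarith
    have e2 : (q : ℝ) ^ 3 ≤ 4 * A.card := by exact_mod_cast h3
    rw [Real.rpow_sub hNpos, div_lt_iff₀ (by positivity)]
    have : (0 : ℝ) ≤ A.card := by positivity
    nlinarith
  · have e1 : (N : ℝ) ^ ((1 : ℝ) / 3) < 30 * (q : ℝ) ^ 2 := by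
      apply lt_of_pow_lt_pow_left₀ 3 (by positivity)
      rw [← Real.rpow_natCast, ← Real.rpow_mul hNpos.le]
      norm_num
      nlinarith
    have e0 : 2 * q ^ 4 ≤ ⌊(N : ℝ) ^ ((2 : ℝ) / 3)⌋₊ := by
      apply Nat.le_floor
      apply le_of_pow_le_pow_left₀ (n := 3) (by norm_num) (by positivity)
      rw [← Real.rpow_natCast ((N : ℝ) ^ ((2 : ℝ) / 3)), ← Real.rpow_mul hNpos.le]
      norm_num
      nlinarith
    have e3 : (A ∩ Finset.Icc 1 (2 * q ^ 4)).card ≤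
        (A ∩ Finset.Icc 1 ⌊(N : ℝ) ^ ((2 : ℝ) / 3)⌋₊).card :=
      Finset.card_le_card (Finset.inter_subset_inter_left (Finset.Icc_subset_Icc_right e0))
    have e2 : (q : ℝ) ^ 2 ≤ 4 * (A ∩ Finset.Icc 1 ⌊(N : ℝ) ^ ((2 : ℝ) / 3)⌋₊).card := by
      exact_mod_cast (by omega : q ^ 2 ≤ 4 * (A ∩ Finset.Icc 1 ⌊(N : ℝ) ^ ((2 : ℝ) / 3)⌋₊).card)
    rw [Real.rpow_sub hNpos, div_lt_iff₀ (by positivity)]
    have : (0 : ℝ) ≤ (A ∩ Finset.Icc 1 ⌊(N : ℝ) ^ ((2 : ℝ) / 3)⌋₊).card := by positivity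
    nlinarith

end Pool.Agent.S16507
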