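import Pool.Statements.S16546
import Pool.Agent.H52.CosSer

set_option autoImplicit false
open Pool Pool.MP_3519bc_nt

namespace Pool.Agent.S16546

/-- The negation of the preceding statement: There is k>0 and constants C, M such that for all real x with ∣x∣≥M, the limit of partial sums of 2/√n·cos(π((3n−1)/4 − x/n)) over n≥1 has absolute value at most C·(log∣x∣)^k. -/
theorem result :
    ¬ (∃ k : ℝ, 0 < k ∧ ∃ C M : ℝ, ∀ x : ℝ, M ≤ |x| → ∀ S : ℝ,
      Filter.Tendsto
        (fun N : ℕ => ∑ n ∈ Finset.Icc 1 N,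
          2 / Real.sqrt (n : ℝ) *
            Real.cos (Real.pi * ((3 * (n : ℝ) - 1) / 4 - x / (n : ℝ))))
        Filter.atTop (nhds S) →
      |S| ≤ C * (Real.log |x|) ^ k) := by
  rintro ⟨k, hk, C, X, h⟩
  have t1 := ((tendsto_pow_const_div_const_pow_of_one_lt (4 * ⌈k⌉₊) (r := 2)
    (by norm_num)).const_mul (|C| * (7 * 16 ^ 5) ^ ⌈k⌉₊)).add
    ((tendsto_pow_const_div_const_pow_of_one_lt 0 (r := 2) (by norm_num)).const_mul 100)
  simp only [mul_zero, add_zero] at t1
  obtain ⟨v, ⟨h1, h2⟩, h3⟩ := (((t1.eventually (gt_mem_nhds one_pos)).and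
    (Filter.eventually_ge_atTop 6)).and
    (tendsto_natCast_atTop_atTop.eventually_ge_atTop (2 * X))).exists
  obtain ⟨M, m1, m2, m3⟩ := H52.CosSer.exM (v := v) (by omega)
  have v0 : (6 : ℝ) ≤ v := by exact_mod_cast h2
  have m4 : (v : ℝ) ≤ M := by
    have a : (v : ℝ) ≤ 2 ^ v := by exact_mod_cast Nat.lt_two_pow_self.le
    have b := Finset.sum_le_card_nsmul M.divisors (fun n => 1 / √(n : ℝ)) 1 fun n hn => by
      have : (1 : ℝ) ≤ n := by exact_mod_cast Nat.pos_of_mem_divisors hn
      exact (div_le_one (by positivity)).2 (Real.one_le_sqrt.2 this)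
    have c : (M.divisors.card : ℝ) ≤ M := by exact_mod_cast Nat.card_divisors_le_self M
    rw [nsmul_eq_mul, mul_one] at b
    linarith
  have B := H52.CosSer.big m1 (B := |C| * (7 * 16 ^ 5 * v ^ 4) ^ ⌈k⌉₊) fun x x0 x1 S hS => by
    have x2 : |x| = x := abs_of_nonneg (by linarith)
    have l1 : 1 ≤ Real.log x := by
      rw [Real.le_log_iff_exp_le (by linarith)]
      linarith [Real.exp_one_lt_d9]
    have l2 : Real.log x ≤ 7 * 16 ^ 5 * v ^ 4 := by
      have a : (M : ℝ) ≤ 16 ^ (16 * v) ^ 4 := by exact_mod_cast m2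
      have b := Real.log_le_log (by linarith) a
      have c := Real.log_le_log (by linarith) x1
      have d := Real.log_le_self (show (0 : ℝ) ≤ 5 by norm_num)
      have e := mul_le_mul_of_nonneg_left (Real.log_le_self (show (0 : ℝ) ≤ 16 by norm_num))
        (show (0 : ℝ) ≤ (16 * v) ^ 4 by positivity)
      have f : (1 : ℝ) ≤ v ^ 4 := one_le_pow₀ (by linarith)
      rw [Real.log_mul (by norm_num) (pow_ne_zero _ (by linarith)), Real.log_pow] at c
      rw [Real.log_pow] at b
      push_cast at b c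
      linarith
    refine (h x (by linarith) S hS).trans ?_
    rw [x2]
    refine mul_le_mul (le_abs_self C) ?_ (by positivity) (abs_nonneg _)
    refine (Real.rpow_le_rpow_of_exponent_le l1 (Nat.le_ceil k)).trans ?_
    rw [Real.rpow_natCast]
    gcongr
  rw [← mul_div_assoc, ← mul_div_assoc, ← add_div, div_lt_one (by positivity), pow_mul,
    mul_assoc, ← mul_pow, pow_zero, mul_one] at h1
  exact absurd (m3.trans B) (not_le.2 h1)

end Pool.Agent.S16546
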