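import Pool.Statements.S16631
import Pool.Agent.H55.Staged

set_option autoImplicit false
open Pool Pool.MP_3bec75_nt

namespace Pool.Agent.S16631

/-- For every h ≥ 3 there is a set A of naturals such that all large n are sums of h elements of A, and for every subset S of A, removing S keeps this property exactly when S is finite. -/
theorem result :
    ∀ h : ℕ, 3 ≤ h →
      ∃ A : Set ℕ,
        (∃ N : ℕ, ∀ n : ℕ, N ≤ n →
          ∃ f : Fin h → ℕ, (∀ i, f i ∈ A) ∧ ∑ i, f i = n) ∧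
        ∀ S : Set ℕ, S ⊆ A →
          ((∃ N : ℕ, ∀ n : ℕ, N ≤ n →
              ∃ f : Fin h → ℕ, (∀ i, f i ∈ A \ S) ∧ ∑ i, f i = n) ↔ S.Finite) := by
  intro h hh
  obtain ⟨d, rfl⟩ : ∃ d, h = d + 1 := ⟨h - 1, by omega⟩
  obtain ⟨A, F, nn, h1, h2, h3, h4⟩ :=
    Pool.Agent.H55.Staged.main (d := d) (fun k => {k}) (by omega)
  have key : ∀ S : Set ℕ, S.Finite → ∃ N : ℕ, ∀ n : ℕ, N ≤ n →
      ∃ f : Fin (d + 1) → ℕ, (∀ i, f i ∈ A \ S) ∧ ∑ i, f i = n := by
    intro S hS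
    obtain ⟨b, hb⟩ := hS.bddAbove
    obtain ⟨m0, hm0⟩ := h4 (b + 1)
    have hsub : {x | x ∈ A ∧ b + 1 ≤ x} ⊆ A \ S :=
      fun x hx => ⟨hx.1, fun hxS => by have := hb hxS; have := hx.2; omega⟩
    refine ⟨m0, fun n hn => Pool.Agent.H55.Staged.R_iff.1 ?_⟩
    rcases hm0 n hn with h | ⟨k, hk, h⟩
    · exact h.mono hsub
    · obtain ⟨z, hz, hF⟩ : ∃ z, k ≤ z ∧ F k = {z} := by
        rcases (h3 k).2.2 with e | e
        · exact ⟨k, le_rfl, e⟩
        · exact e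
      have hzF : z ∈ F k := by simp [hF]
      obtain ⟨h5, h6⟩ := h z hzF
      exact (h6.mono hsub).cons (x := z) (hsub ⟨(h3 k).2.1 hzF, by omega⟩) (by omega)
  refine ⟨A, by simpa using key ∅ Set.finite_empty, fun S hS => ⟨?_, key S⟩⟩
  rintro ⟨N, hN⟩
  by_contra hinf
  obtain ⟨k, hkS, hk⟩ := Set.Infinite.exists_gt hinf N
  have hF : F k = {k} := h2 k (by simp) (by simpa using hS hkS)
  refine (h1 k).2 ((Pool.Agent.H55.Staged.R_iff.2 (hN (nn k) (by have := (h1 k).1; omega))).mono ?_)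
  rw [hF]
  exact fun x hx => ⟨hx.1, fun e => hx.2 (by simp at e; exact e ▸ hkS)⟩

end Pool.Agent.S16631
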