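import Pool.Statements.S16636

set_option autoImplicit false
open Pool Pool.MP_3c6bfc_nt
open Polynomial

namespace Pool.Agent.S16636

lemma pell (N : ℕ) : ∃ a b : ℕ, N + 1 ≤ a ∧ a ^ 2 + 1 = 2 * b ^ 2 := by
  induction N with
  | zero => exact ⟨1, 1, by norm_num, by norm_num⟩
  | succ n ih =>
    obtain ⟨a, b, h1, h2⟩ := ih
    exact ⟨3 * a + 4 * b, 2 * a + 3 * b, by omega, by nlinarith⟩

lemma sup_le (P : ℤ[X]) (H : ℕ) (h : ∀ i, (P.coeff i).natAbs ≤ H) :
    (P.support.sup fun i => (P.coeff i).natAbs) ≤ H :=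
  Finset.sup_le fun i _ => h i

theorem result :
    ¬ (∀ K : IntermediateField ℚ ℂ, FiniteDimensional ℚ K →
      ∀ ε : ℝ, 0 < ε → ∃ c : ℝ, 0 < c ∧
        ∀ α β : K, α ≠ β →
          ∀ P Q : Polynomial ℤ, P.IsPrimitive → Q.IsPrimitive →
            Polynomial.aeval (α : ℂ) P = 0 → Polynomial.aeval (β : ℂ) Q = 0 →
            P.natDegree = (minpoly ℚ (α : ℂ)).natDegree →
            Q.natDegree = (minpoly ℚ (β : ℂ)).natDegree →
            c * (max ((P.support.sup fun i => (P.coeff i).natAbs : ℕ) : ℝ)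
                     ((Q.support.sup fun i => (Q.coeff i).natAbs : ℕ) : ℝ)) ^ (-2 - ε)
              < ‖(α : ℂ) - (β : ℂ)‖) := by
  intro h
  set s : ℂ := ((Real.sqrt 2 : ℝ) : ℂ) with hs
  have hs2 : s ^ 2 = 2 := by
    rw [hs]; norm_cast; exact Real.sq_sqrt (by norm_num)
  have hint : IsIntegral ℚ s := by
    refine ⟨X ^ 2 - C 2, monic_X_pow_sub_C _ (by norm_num), ?_⟩
    simp [hs2]
  obtain ⟨c, hc, h⟩ := h (IntermediateField.adjoin ℚ {s})
    (IntermediateField.adjoin.finiteDimensional hint) (1 / 2) (by norm_num)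
  obtain ⟨N, hN⟩ := exists_nat_gt (1 / c ^ 2)
  obtain ⟨a, b, ha, hab⟩ := pell N
  have hsK : s ∈ IntermediateField.adjoin ℚ {s} := IntermediateField.subset_adjoin ℚ _ rfl
  have hαK : (b : ℂ) * s - a ∈ IntermediateField.adjoin ℚ {s} :=
    sub_mem (mul_mem (natCast_mem _ _) hsK) (natCast_mem _ _)
  have hβK : ((2 * a : ℕ) : ℂ)⁻¹ ∈ IntermediateField.adjoin ℚ {s} :=
    inv_mem (natCast_mem _ _)
  have ha0 : (0 : ℝ) < a := by exact_mod_cast (by omega : 0 < a)
  have haC : (a : ℂ) ≠ 0 := by exact_mod_cast (by omega : a ≠ 0)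
  have hb0 : b ≠ 0 := by rintro rfl; omega
  have habC : (a : ℂ) ^ 2 + 1 = 2 * (b : ℂ) ^ 2 := by exact_mod_cast hab
  have habR : (a : ℝ) ^ 2 + 1 = 2 * (b : ℝ) ^ 2 := by exact_mod_cast hab
  have hirr : ∀ q : ℚ, (b : ℂ) * s - a ≠ (q : ℂ) := by
    intro q hq
    have h1 : (b : ℝ) * Real.sqrt 2 - a = q := by
      rw [hs] at hq; exact_mod_cast hq
    have h2 : Irrational ((b : ℝ) * Real.sqrt 2 - a) :=
      (irrational_sqrt_two.natCast_mul hb0).sub_natCast a
    exact h2 ⟨q, h1.symm⟩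
  have hβq : ((2 * a : ℕ) : ℂ)⁻¹ = ((((2 * a : ℕ) : ℚ)⁻¹ : ℚ) : ℂ) := by push_cast; rfl
  have hPm : (X ^ 2 + C (2 * (a : ℤ)) * X - 1 : ℤ[X]).Monic := by monicity!
  have hPd : (X ^ 2 + C (2 * (a : ℤ)) * X - 1 : ℤ[X]).natDegree = 2 := by compute_degree!
  have hQd : (C (2 * (a : ℤ)) * X - 1 : ℤ[X]).natDegree = 1 := by
    compute_degree!
    omega
  have hPz : aeval ((b : ℂ) * s - a) (X ^ 2 + C (2 * (a : ℤ)) * X - 1 : ℤ[X]) = 0 := by
    simp only [map_sub, map_add, map_pow, map_mul, aeval_X, aeval_C, map_one]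
    simp only [eq_intCast, Int.cast_ofNat, Int.cast_natCast]
    linear_combination (b : ℂ) ^ 2 * hs2 - habC
  have hαint : IsIntegral ℚ ((b : ℂ) * s - a) :=
    (IsIntegral.tower_top (R := ℤ) ⟨_, hPm, hPz⟩)
  have key := h ⟨_, hαK⟩ ⟨_, hβK⟩ (by
      intro he
      have := congrArg Subtype.val he
      simp only at this
      rw [hβq] at this
      exact hirr _ this)
    (X ^ 2 + C (2 * (a : ℤ)) * X - 1) (C (2 * (a : ℤ)) * X - 1) hPm.isPrimitive
    (by
      intro r hr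
      have := (C_dvd_iff_dvd_coeff r _).1 hr 0
      simp at this
      exact isUnit_of_dvd_one this)
    hPz
    (by
      simp only [map_sub, map_mul, aeval_X, aeval_C, map_one]
      simp only [eq_intCast, Int.cast_ofNat, Int.cast_natCast]
      push_cast
      field_simp
      ring)
    (by
      rw [hPd]
      apply le_antisymm
      · rw [minpoly.two_le_natDegree_iff hαint]
        rintro ⟨q, hq⟩
        exact hirr q hq.symm
      · have h1 : aeval ((b : ℂ) * s - a)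
            ((X ^ 2 + C (2 * (a : ℤ)) * X - 1 : ℤ[X]).map (algebraMap ℤ ℚ)) = 0 := by
          rw [aeval_map_algebraMap]; exact hPz
        have h2 := minpoly.min ℚ _ (hPm.map (algebraMap ℤ ℚ)) h1
        have h3 := natDegree_le_natDegree h2
        rw [hPm.natDegree_map, hPd] at h3
        exact h3)
    (by
      rw [hQd]
      simp only
      rw [hβq]
      have := minpoly.eq_X_sub_C ℂ (((2 * a : ℕ) : ℚ)⁻¹)
      rw [eq_ratCast] at this
      rw [this, natDegree_X_sub_C])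
  have hP : ((X ^ 2 + C (2 * (a : ℤ)) * X - 1 : ℤ[X]).support.sup
      fun i => ((X ^ 2 + C (2 * (a : ℤ)) * X - 1 : ℤ[X]).coeff i).natAbs) ≤ 2 * a := by
    apply sup_le
    intro i
    simp only [coeff_sub, coeff_add, coeff_X_pow, coeff_C_mul, coeff_X, coeff_one]
    split_ifs <;> omega
  have hQ : ((C (2 * (a : ℤ)) * X - 1 : ℤ[X]).support.sup
      fun i => ((C (2 * (a : ℤ)) * X - 1 : ℤ[X]).coeff i).natAbs) = 2 * a := by
    apply le_antisymm
    · apply sup_le
      intro i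
      simp only [coeff_sub, coeff_C_mul, coeff_X, coeff_one]
      split_ifs <;> omega
    · have h1 : (C (2 * (a : ℤ)) * X - 1 : ℤ[X]).coeff 1 = 2 * a := by
        simp [coeff_one]
      have h2 : 1 ∈ (C (2 * (a : ℤ)) * X - 1 : ℤ[X]).support := by
        rw [mem_support_iff, h1]; omega
      have h3 := Finset.le_sup (f := fun i => ((C (2 * (a : ℤ)) * X - 1 : ℤ[X]).coeff i).natAbs) h2
      simp only [h1] at h3
      omega
  rw [hQ, max_eq_right (by exact_mod_cast hP)] at key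
  simp only at key
  set x : ℝ := (b : ℝ) * Real.sqrt 2 - a with hx
  set H : ℝ := ((2 * a : ℕ) : ℝ) with hH
  have hH2 : H = 2 * a := by rw [hH]; push_cast; ring
  have hHpos : 0 < H := by rw [hH2]; positivity
  have hnorm : ‖(b : ℂ) * s - a - ((2 * a : ℕ) : ℂ)⁻¹‖ = |x - H⁻¹| := by
    rw [← Real.norm_eq_abs, ← Complex.norm_real]
    congr 1
    rw [hx, hH, hs]; push_cast; ring
  rw [hnorm] at key
  have hsq : Real.sqrt 2 ^ 2 = 2 := Real.sq_sqrt (by norm_num)
  have hx1 : x * (x + H) = 1 := by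
    rw [hH2, hx]; linear_combination (b : ℝ) ^ 2 * hsq - habR
  have hxH : 0 < x + H := by
    rw [hH2, hx]
    have : 0 ≤ (b : ℝ) * Real.sqrt 2 := by positivity
    linarith
  have hxpos : 0 < x := by
    by_contra hh
    nlinarith
  have hxle : x ≤ H⁻¹ := by
    rw [← one_div, le_div_iff₀ hHpos]; nlinarith
  have hdiff : H⁻¹ - x = x ^ 2 * H⁻¹ := by
    field_simp; nlinarith
  have hup : |x - H⁻¹| ≤ H⁻¹ ^ 3 := by
    rw [abs_sub_comm, abs_of_nonneg (by linarith), hdiff]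
    have : x ^ 2 ≤ H⁻¹ ^ 2 := by gcongr
    calc x ^ 2 * H⁻¹ ≤ H⁻¹ ^ 2 * H⁻¹ := by gcongr
      _ = H⁻¹ ^ 3 := by ring
  have hsplit : H ^ (-2 - (1 / 2 : ℝ)) = Real.sqrt H * H⁻¹ ^ 3 := by
    rw [Real.sqrt_eq_rpow, inv_pow, ← Real.rpow_natCast, ← Real.rpow_neg hHpos.le,
      ← Real.rpow_add hHpos]
    norm_num
  rw [hsplit] at key
  have h3 : 0 < H⁻¹ ^ 3 := by positivity
  have h4 : c * Real.sqrt H < 1 := by
    by_contra hh
    push Not at hh
    nlinarith
  have h5 : 1 / c ^ 2 < H := by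
    have : (N : ℝ) + 1 ≤ a := by exact_mod_cast ha
    rw [hH2]; linarith
  rw [div_lt_iff₀ (by positivity)] at h5
  have h6 : (c * Real.sqrt H) ^ 2 = H * c ^ 2 := by
    rw [mul_pow, Real.sq_sqrt hHpos.le]; ring
  have h7 : 0 ≤ c * Real.sqrt H := by positivity
  nlinarith

end Pool.Agent.S16636
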