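import Pool.Statements.S16663
import Pool.Agent.H63.SpGen

set_option autoImplicit false
open Pool Pool.MP_3e7cbe_nt

namespace Pool.Agent.S16663

/-- For every prime p and rank m ≥ 1, each irreducible admissible infinite-dimensional complex representation of GSp_2m(Q_p) has a nonzero vector fixed by all g in GSp congruent mod p^n to diag(1,…,1,a,…,a), for some level n and unit a. -/
theorem result :
  ∀ (p : ℕ) [Fact (Nat.Prime p)] (m : ℕ), 1 ≤ m →
  ∀ (V : Type) [AddCommGroup V] [Module ℂ V]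
    (ρ : Matrix (Fin m ⊕ Fin m) (Fin m ⊕ Fin m) (Padic p) → (V →ₗ[ℂ] V)),
    ρ 1 = LinearMap.id →
    (∀ g h : Matrix (Fin m ⊕ Fin m) (Fin m ⊕ Fin m) (Padic p),
      (∃ c : Padic p, c ≠ 0 ∧
        Matrix.transpose g * Matrix.J (Fin m) (Padic p) * g = c • Matrix.J (Fin m) (Padic p)) →
      (∃ c : Padic p, c ≠ 0 ∧
        Matrix.transpose h * Matrix.J (Fin m) (Padic p) * h = c • Matrix.J (Fin m) (Padic p)) →
      ρ (g * h) = ρ g ∘ₗ ρ h) →
    (∀ v : V, ∃ k : ℕ, ∀ g : Matrix (Fin m ⊕ Fin m) (Fin m ⊕ Fin m) (Padic p),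
      (∃ c : Padic p, c ≠ 0 ∧
        Matrix.transpose g * Matrix.J (Fin m) (Padic p) * g = c • Matrix.J (Fin m) (Padic p)) →
      (∀ i j, ‖(g - 1) i j‖ ≤ (p : ℝ) ^ (-(k : ℤ))) → ρ g v = v) →
    (∀ k : ℕ, ∃ s : Finset V, ∀ v : V,
      (∀ g : Matrix (Fin m ⊕ Fin m) (Fin m ⊕ Fin m) (Padic p),
        (∃ c : Padic p, c ≠ 0 ∧
          Matrix.transpose g * Matrix.J (Fin m) (Padic p) * g = c • Matrix.J (Fin m) (Padic p)) →
        (∀ i j, ‖(g - 1) i j‖ ≤ (p : ℝ) ^ (-(k : ℤ))) → ρ g v = v) →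
      v ∈ Submodule.span ℂ (s : Set V)) →
    Nontrivial V →
    (∀ W : Submodule ℂ V,
      (∀ g : Matrix (Fin m ⊕ Fin m) (Fin m ⊕ Fin m) (Padic p),
        (∃ c : Padic p, c ≠ 0 ∧
          Matrix.transpose g * Matrix.J (Fin m) (Padic p) * g = c • Matrix.J (Fin m) (Padic p)) →
        ∀ w ∈ W, ρ g w ∈ W) →
      W = ⊥ ∨ W = ⊤) →
    ¬ Module.Finite ℂ V →
    ∃ n : ℕ, ∃ v : V, v ≠ 0 ∧
      ∀ g : Matrix (Fin m ⊕ Fin m) (Fin m ⊕ Fin m) (Padic p),
        (∃ c : Padic p, c ≠ 0 ∧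
          Matrix.transpose g * Matrix.J (Fin m) (Padic p) * g = c • Matrix.J (Fin m) (Padic p)) →
        (∃ a : Padic p, ‖a‖ = 1 ∧ ∀ i j,
          ‖(g - Matrix.diagonal (Sum.elim (fun _ : Fin m => (1 : Padic p)) (fun _ : Fin m => a))) i j‖
            ≤ (p : ℝ) ^ (-(n : ℤ))) →
        ρ g v = v := by
  intro p _ m _ V _ _ ρ h1 hmul hsm hadm hnt hirr hinf
  classical
  set G : Matrix (Fin m ⊕ Fin m) (Fin m ⊕ Fin m) (Padic p) → Prop := fun g =>
    ∃ c : Padic p, c ≠ 0 ∧
      Matrix.transpose g * Matrix.J (Fin m) (Padic p) * g = c • Matrix.J (Fin m) (Padic p) with hG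
  change ∀ g h, G g → G h → ρ (g * h) = ρ g ∘ₗ ρ h at hmul
  have hp1 : (1 : ℝ) < p := by exact_mod_cast (Fact.out : p.Prime).one_lt
  have hp0 : (0 : ℝ) < p := by linarith
  have mulc : ∀ (g h : Matrix (Fin m ⊕ Fin m) (Fin m ⊕ Fin m) (Padic p)) (c d : Padic p),
      g.transpose * Matrix.J (Fin m) (Padic p) * g = c • Matrix.J (Fin m) (Padic p) →
      h.transpose * Matrix.J (Fin m) (Padic p) * h = d • Matrix.J (Fin m) (Padic p) →
      (g * h).transpose * Matrix.J (Fin m) (Padic p) * (g * h) =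
        (c * d) • Matrix.J (Fin m) (Padic p) := by
    intro g h c d hg hh
    calc _ = h.transpose * (g.transpose * Matrix.J (Fin m) (Padic p) * g) * h := by
          simp only [Matrix.transpose_mul, Matrix.mul_assoc]
      _ = _ := by rw [hg, Matrix.mul_smul, Matrix.smul_mul, hh, smul_smul]
  have Gmul : ∀ g h, G g → G h → G (g * h) := fun g h ⟨c, hc, hg⟩ ⟨d, hd, hh⟩ =>
    ⟨c * d, mul_ne_zero hc hd, mulc g h c d hg hh⟩
  have Gsp : ∀ g ∈ Matrix.symplecticGroup (Fin m) (Padic p), G g := fun g hg =>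
    ⟨1, one_ne_zero, by rw [one_smul]; exact SymplecticGroup.mem_iff'.1 hg⟩
  let T : Padic p → Matrix (Fin m ⊕ Fin m) (Fin m ⊕ Fin m) (Padic p) := fun a =>
    Matrix.diagonal (Sum.elim (fun _ : Fin m => (1 : Padic p)) (fun _ : Fin m => a))
  have hT : ∀ a, T a = Matrix.fromBlocks 1 0 0 (a • 1) := by
    intro a
    simp only [T]
    rw [← Matrix.fromBlocks_diagonal, Matrix.smul_one_eq_diagonal]
    rfl
  have GT : ∀ a, a ≠ 0 → G (T a) := fun a ha => ⟨a, ha, by
    simp [hT, Matrix.J, Matrix.fromBlocks_transpose, Matrix.fromBlocks_multiply,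
      Matrix.fromBlocks_smul]⟩
  have Tmul : ∀ a b, T (a * b) = T a * T b := fun a b => by
    simp [hT, Matrix.fromBlocks_multiply, smul_smul, mul_comm]
  have T1 : T 1 = 1 := by simp [hT]
  by_contra hcon
  have nofix : ∀ w : V, (∀ a : Padic p, ‖a‖ = 1 → ρ (T a) w = w) → w = 0 := by
    intro w hw
    by_contra hw0
    obtain ⟨k, hk⟩ := hsm w
    refine hcon ⟨k, w, hw0, fun g hg ⟨a, ha, hga⟩ => ?_⟩
    have a0 : a ≠ 0 := fun h => by rw [h] at ha; simp at ha
    have e : g = T a * (T a⁻¹ * g) := by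
      rw [← Matrix.mul_assoc, ← Tmul, mul_inv_cancel₀ a0, T1, Matrix.one_mul]
    have g2 : G (T a⁻¹ * g) := Gmul _ _ (GT _ (inv_ne_zero a0)) hg
    rw [e, hmul _ _ (GT a a0) g2, LinearMap.comp_apply, hk _ g2, hw a ha]
    intro i j
    have e2 : T a⁻¹ * g - 1 = T a⁻¹ * (g - T a) := by
      rw [Matrix.mul_sub, ← Tmul, inv_mul_cancel₀ a0, T1]
    rw [e2]
    simp only [T]
    rw [Matrix.diagonal_mul, norm_mul]
    have := hga i j
    rcases i with i | i
    · simpa using this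
    · simpa [ha] using this
  have spN : ∀ S : Matrix (Fin m) (Fin m) (Padic p), S.transpose = S →
      Matrix.fromBlocks 1 S 0 1 ∈ Matrix.symplecticGroup (Fin m) (Padic p) := fun S hS =>
    SymplecticGroup.fromBlocks_mem_iff.2 (by simp [hS])
  have hN : ∀ S : Matrix (Fin m) (Fin m) (Padic p), S.transpose = S →
      ρ (Matrix.fromBlocks 1 S 0 1) = LinearMap.id := by
    intro S hS
    have sp : ∀ x : Padic p, G (Matrix.fromBlocks 1 (x • S) 0 1) := fun x =>
      Gsp _ (spN _ (by rw [Matrix.transpose_smul, hS]))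
    ext v
    have := Pool.Agent.H63.SpGen.unip_trivial (p := p)
      (fun x => ρ (Matrix.fromBlocks 1 (x • S) 0 1)) (fun a => ρ (T a)) (fun x y v => by
        rw [← LinearMap.comp_apply, ← hmul _ _ (sp x) (sp y)]
        simp [Matrix.fromBlocks_multiply, add_smul, add_comm])
      (fun a b v ha hb => by rw [Tmul, hmul _ _ (GT a ha) (GT b hb), LinearMap.comp_apply])
      (fun a x v ha => by
        rw [← LinearMap.comp_apply, ← LinearMap.comp_apply, ← hmul _ _ (GT a ha) (sp x),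
          ← hmul _ _ (sp _) (GT a ha)]
        simp [hT, Matrix.fromBlocks_multiply, smul_smul, mul_div_cancel₀ _ ha])
      (fun v => by
        obtain ⟨k, hk⟩ := hsm v
        refine ⟨k, fun a ha ha' => hk _ (GT a (fun h => by rw [h] at ha; simp at ha)) ?_⟩
        intro i j
        have : (0 : ℝ) ≤ (p : ℝ) ^ (-(k : ℤ)) := by positivity
        rw [hT]
        rcases i with i | i <;> rcases j with j | j
        · simp [Matrix.one_apply]
        · simp
        · simp
        · by_cases hij : i = j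
          · simpa [Matrix.one_apply, hij] using ha'
          · simp [Matrix.one_apply, hij])
      (fun v => by
        obtain ⟨k, hk⟩ := hsm v
        obtain ⟨n, hn⟩ := pow_unbounded_of_one_lt (∑ i, ∑ j, ‖S i j‖) hp1
        refine ⟨-k - n, fun x hx => hk _ (sp x) ?_⟩
        intro i j
        have : (0 : ℝ) ≤ (p : ℝ) ^ (-(k : ℤ)) := by positivity
        rcases i with i | i <;> rcases j with j | j
        · simp [Matrix.one_apply]
        swap
        · simp
        swap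
        · simp [Matrix.one_apply]
        have e0 : (Matrix.fromBlocks 1 (x • S) 0 1 - 1 :
          Matrix (Fin m ⊕ Fin m) (Fin m ⊕ Fin m) (Padic p)) (Sum.inl i) (Sum.inr j) = x * S i j := by
          simp
        rw [e0, norm_mul]
        have h2 : ‖S i j‖ ≤ (p : ℝ) ^ n :=
          le_trans (le_trans (Finset.single_le_sum (f := fun j => ‖S i j‖)
            (fun _ _ => norm_nonneg _) (Finset.mem_univ j))
            (Finset.single_le_sum (f := fun i => ∑ j, ‖S i j‖)
              (fun _ _ => Finset.sum_nonneg fun _ _ => norm_nonneg _) (Finset.mem_univ i))) hn.le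
        calc ‖x‖ * ‖S i j‖ ≤ (p : ℝ) ^ (-(k : ℤ) - n) * (p : ℝ) ^ n := by gcongr
          _ = _ := by rw [zpow_sub₀ hp0.ne', zpow_natCast]; field_simp)
      nofix v 1
    simpa using this
  have hJ := SymplecticGroup.J_mem (Fin m) (Padic p)
  have hSp : ∀ g ∈ Matrix.symplecticGroup (Fin m) (Padic p), ρ g = LinearMap.id := by
    intro g hg
    refine (Pool.Agent.H63.SpGen.gen
      (fun g => g ∈ Matrix.symplecticGroup (Fin m) (Padic p) ∧ ρ g = LinearMap.id) ?_ ?_ ?_ ?_
      (fun _ h => h.1) g hg).2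
    · intro g h hg hh
      exact ⟨mul_mem hg.1 hh.1, by rw [hmul _ _ (Gsp _ hg.1) (Gsp _ hh.1), hg.2, hh.2]; rfl⟩
    · intro g h hg hh hhg
      refine ⟨hg, ?_⟩
      have := hhg.2
      rw [hmul _ _ (Gsp _ hh.1) (Gsp _ hg), hh.2] at this
      exact this
    · intro h hh
      have hJ' := SymplecticGroup.neg_mem hJ
      refine ⟨mul_mem (mul_mem hJ hh.1) hJ', ?_⟩
      rw [hmul _ _ (Gsp _ (mul_mem hJ hh.1)) (Gsp _ hJ'), hmul _ _ (Gsp _ hJ) (Gsp _ hh.1), hh.2,
        LinearMap.comp_id, ← hmul _ _ (Gsp _ hJ) (Gsp _ hJ'), mul_neg, Matrix.J_squared, neg_neg, h1]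
    · intro S hS
      exact ⟨spN S hS, hN S hS⟩
  have same : ∀ (x y : Matrix (Fin m ⊕ Fin m) (Fin m ⊕ Fin m) (Padic p)) (e : Padic p), e ≠ 0 →
      x.transpose * Matrix.J (Fin m) (Padic p) * x = e • Matrix.J (Fin m) (Padic p) →
      y.transpose * Matrix.J (Fin m) (Padic p) * y = e • Matrix.J (Fin m) (Padic p) →
      ρ y = ρ x := by
    intro x y e he hx hy
    have hd : IsUnit x.det := by
      have := congrArg Matrix.det hx
      rw [Matrix.det_mul, Matrix.det_smul] at this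
      refine Ne.isUnit (fun h => ?_)
      rw [h, mul_zero] at this
      exact mul_ne_zero (pow_ne_zero _ he) (Matrix.isUnit_det_J (Fin m) (Padic p)).ne_zero this.symm
    have i1 : x * x⁻¹ = 1 := Matrix.mul_nonsing_inv x hd
    have i2 : (x⁻¹).transpose * Matrix.J (Fin m) (Padic p) * x⁻¹ =
        e⁻¹ • Matrix.J (Fin m) (Padic p) := by
      have h3 : (x⁻¹).transpose * (x.transpose * Matrix.J (Fin m) (Padic p) * x) * x⁻¹ =
          Matrix.J (Fin m) (Padic p) := by
        calc _ = (x * x⁻¹).transpose * Matrix.J (Fin m) (Padic p) * (x * x⁻¹) := by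
              simp only [Matrix.transpose_mul, Matrix.mul_assoc]
          _ = _ := by rw [i1]; simp
      rw [hx, Matrix.mul_smul, Matrix.smul_mul] at h3
      rw [eq_inv_smul_iff₀ he, h3]
    have i3 := mulc _ _ _ _ i2 hy
    rw [inv_mul_cancel₀ he, one_smul] at i3
    have i4 := SymplecticGroup.mem_iff'.2 i3
    have e2 : y = x * (x⁻¹ * y) := by rw [← Matrix.mul_assoc, i1, Matrix.one_mul]
    rw [e2, hmul _ _ ⟨e, he, hx⟩ (Gsp _ i4), hSp _ i4, LinearMap.comp_id]
  obtain ⟨v, hv⟩ := exists_ne (0 : V)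
  obtain ⟨k, hk⟩ := hsm v
  obtain ⟨s, hs⟩ := hadm k
  let W : Submodule ℂ V :=
    { carrier := {v | ∀ g, G g → (∀ i j, ‖(g - 1) i j‖ ≤ (p : ℝ) ^ (-(k : ℤ))) → ρ g v = v}
      add_mem' := fun ha hb g hg hg' => by rw [map_add, ha g hg hg', hb g hg hg']
      zero_mem' := fun g _ _ => map_zero _
      smul_mem' := fun c x hx g hg hg' => by rw [map_smul, hx g hg hg'] }
  rcases hirr W (fun g hg w hw κ hκ hκ' => by
      obtain ⟨c, hc, hg'⟩ := id hg
      obtain ⟨d, hd, hκ''⟩ := id hκ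
      rw [← LinearMap.comp_apply, ← hmul _ _ hκ hg, same (g * κ) (κ * g) (c * d) (mul_ne_zero hc hd)
        (mulc _ _ _ _ hg' hκ'') (by rw [mul_comm c d]; exact mulc _ _ _ _ hκ'' hg'),
        hmul _ _ hg hκ, LinearMap.comp_apply, hw κ hκ hκ']) with h | h
  · have : v ∈ W := hk
    rw [h] at this
    exact hv this
  · refine hinf ⟨⟨s, eq_top_iff.2 fun w _ => hs w ?_⟩⟩
    have : w ∈ W := h ▸ Submodule.mem_top
    exact this

end Pool.Agent.S16663
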