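import Pool.Statements.S16721

set_option autoImplicit false
open Pool Pool.MP_444361_nt

namespace Pool.Agent.S16721

lemma step (p m a b : ℕ) (hp : p.Prime) (hc : Nat.Coprime p m) (ha : Nat.totient m = a)
    (hb : m.divisors.card = b) :
    Nat.totient (p * m) = (p - 1) * a ∧ (p * m).divisors.card = 2 * b := by
  refine ⟨by rw [Nat.totient_mul hc, Nat.totient_prime hp, ha], ?_⟩
  rw [Nat.Coprime.card_divisors_mul hc, hb, hp.divisors, Finset.card_pair hp.one_lt.ne]

theorem result :
    ∃ n : ℕ, 1 < n ∧ ¬ n.Prime ∧ n ≠ 4 ∧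
      n ∣ Nat.totient n * n.divisors.card + 2 := by
  have h0 := step 15887233 1 1 1 (by norm_num) (by norm_num) (by simp) (by simp)
  have h1 := step 29027 _ _ _ (by norm_num) (by norm_num) h0.1 h0.2
  have h2 := step 6803 _ _ _ (by norm_num) (by norm_num) h1.1 h1.2
  have h3 := step 67 _ _ _ (by norm_num) (by norm_num) h2.1 h2.2
  have h4 := step 61 _ _ _ (by norm_num) (by norm_num) h3.1 h3.2
  have h5 := step 2 _ _ _ (by norm_num) (by norm_num) h4.1 h4.2
  refine ⟨2 * (61 * (67 * (6803 * (29027 * (15887233 * 1))))), by norm_num, ?_, by norm_num, ?_⟩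
  · exact Nat.not_prime_mul (by norm_num) (by norm_num)
  · rw [h5.1, h5.2]
    norm_num

end Pool.Agent.S16721
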