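import Pool.Statements.S16808
import Pool.Agent.Lead.EP.Main

set_option autoImplicit false
open Pool Pool.MP_493793_nt

namespace Pool.Agent.S16808

/-- The negation of the preceding statement: For each ε>0 and constants c_j,C_j>0 there is K: if 2≤N≤N'≤2N, F≥N, f smooth on [N,2N] with c_j F/N^j ≤ ∣f^(j)∣ ≤ C_j F/N^j for all j≥0, then ∣Σ_{N≤n≤N'} e(f(n))∣ ≤ K N^{1/2} F^ε. -/
theorem result :
    ¬ (∀ ε : ℝ, 0 < ε → ∀ c C : ℕ → ℝ, (∀ j, 0 < c j) → (∀ j, 0 < C j) →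
      ∃ K : ℝ, ∀ N N' F : ℝ, ∀ f : ℝ → ℝ,
        2 ≤ N → N ≤ N' → N' ≤ 2 * N → N ≤ F →
        ContDiffOn ℝ (⊤ : ℕ∞) f (Set.Icc N (2 * N)) →
        (∀ j : ℕ, ∀ x ∈ Set.Icc N (2 * N),
            c j * F / N ^ j ≤ |iteratedDerivWithin j f (Set.Icc N (2 * N)) x| ∧
            |iteratedDerivWithin j f (Set.Icc N (2 * N)) x| ≤ C j * F / N ^ j) →
        ‖∑ n ∈ Finset.Icc ⌈N⌉₊ ⌊N'⌋₊,
            Complex.exp (2 * (Real.pi : ℂ) * Complex.I * ((f (n : ℝ) : ℝ) : ℂ))‖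
          ≤ K * N ^ (1 / 2 : ℝ) * F ^ ε) := by
  intro H
  open Pool.Agent.Lead.EP in
  obtain ⟨K, hK⟩ := H (1 / 12) (by norm_num)
    (fun j => co j * min 1 ((2 : ℝ) ^ ((3 / 2 : ℝ) - j)))
    (fun j => co j * max 1 ((2 : ℝ) ^ ((3 / 2 : ℝ) - j)))
    (fun j => mul_pos (co_pos j) (lt_min one_pos (by positivity)))
    (fun j => mul_pos (co_pos j) (lt_max_of_lt_left one_pos))
  open Pool.Agent.Lead.EP in
  obtain ⟨s, hs⟩ := exists_nat_gt (max 2 (2048 * K))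
  have hs2 : (2 : ℝ) < s := lt_of_le_of_lt (le_max_left _ _) hs
  have hsK : 2048 * K < s := lt_of_le_of_lt (le_max_right _ _) hs
  have hs2' : 2 < s := by exact_mod_cast hs2
  set t : ℕ := s ^ 2 with htdef
  have ht : 2 ≤ t := by nlinarith
  set a : ℕ := Pool.Agent.Lead.EP.PP t (100 * t ^ 2) with ha
  set b : ℕ := Pool.Agent.Lead.EP.PP t (101 * t ^ 2) with hb
  have ht4 : t ≤ t ^ 4 := Nat.le_self_pow (by norm_num) t
  have ha' : a + 17 * t = 30000 * t ^ 4 := by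
    rw [ha]; unfold Pool.Agent.Lead.EP.PP
    have : 3 * (100 * t ^ 2) ^ 2 = 30000 * t ^ 4 := by ring
    omega
  have hb' : b + 17 * t = 30603 * t ^ 4 := by
    rw [hb]; unfold Pool.Agent.Lead.EP.PP
    have : 3 * (101 * t ^ 2) ^ 2 = 30603 * t ^ 4 := by ring
    omega
  obtain ⟨b', hb''⟩ : ∃ b', b = b' + 1 := ⟨b - 1, by omega⟩
  have ha2 : (2 : ℝ) ≤ a := by exact_mod_cast (show 2 ≤ a by omega)
  have ha0 : (0 : ℝ) < a := by linarith
  have key := hK a b' ((a : ℝ) ^ (3 / 2 : ℝ)) Pool.Agent.Lead.EP.ff ha2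
    (by exact_mod_cast (show a ≤ b' by omega)) (by exact_mod_cast (show b' ≤ 2 * a by omega))
    (by
      calc (a : ℝ) = (a : ℝ) ^ (1 : ℝ) := (Real.rpow_one _).symm
        _ ≤ _ := Real.rpow_le_rpow_of_exponent_le (by linarith) (by norm_num))
    (fun x hx => (contDiffAt_const.mul (Real.contDiffAt_rpow_const_of_ne
      (lt_of_lt_of_le ha0 hx.1).ne')).contDiffWithinAt)
    (by
      intro j x hx
      rw [Pool.Agent.Lead.EP.deriv_ff j a x ha0 hx]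
      have hx0 : 0 < x := lt_of_lt_of_le ha0 hx.1
      have hc := Pool.Agent.Lead.EP.co_pos j
      set e : ℝ := (3 / 2 : ℝ) - j with he
      have h1 : (a : ℝ) ^ (3 / 2 : ℝ) / (a : ℝ) ^ j = (a : ℝ) ^ e := by
        rw [he, Real.rpow_sub ha0, Real.rpow_natCast]
      have h2 : x ^ e = (x / a) ^ e * (a : ℝ) ^ e := by
        rw [← Real.mul_rpow (by positivity) ha0.le, div_mul_cancel₀ _ ha0.ne']
      have h3 : 1 ≤ x / a := by rw [le_div_iff₀ ha0]; linarith [hx.1]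
      have h4 : x / a ≤ 2 := by rw [div_le_iff₀ ha0]; linarith [hx.2]
      have h5 : min 1 ((2 : ℝ) ^ e) ≤ (x / a) ^ e ∧ (x / a) ^ e ≤ max 1 ((2 : ℝ) ^ e) := by
        rcases le_total 0 e with h | h
        · exact ⟨(min_le_left _ _).trans (Real.one_le_rpow h3 h),
            (Real.rpow_le_rpow (by linarith) h4 h).trans (le_max_right _ _)⟩
        · exact ⟨(min_le_right _ _).trans (Real.rpow_le_rpow_of_nonpos (by linarith) h4 h),
            (Real.rpow_le_one_of_one_le_of_nonpos h3 h).trans (le_max_left _ _)⟩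
      have h6 : 0 < (a : ℝ) ^ e := Real.rpow_pos_of_pos ha0 _
      rw [mul_div_assoc, mul_div_assoc, h1, h2, mul_assoc, mul_assoc]
      constructor
      · gcongr; exact h5.1
      · gcongr; exact h5.2)
  have hbig := Pool.Agent.Lead.EP.big t ht
  rw [← ha, ← hb, hb''] at hbig
  rw [Nat.ceil_natCast, Nat.floor_natCast, ← Finset.Ico_add_one_right_eq_Icc] at key
  simp only [Pool.Agent.Lead.EP.ff_nat] at key
  have h7 : (t : ℝ) ^ 3 / 2 ≤ K * (a : ℝ) ^ (1 / 2 : ℝ) * ((a : ℝ) ^ (3 / 2 : ℝ)) ^ (1 / 12 : ℝ) :=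
    hbig.trans key
  have h8 : (a : ℝ) ^ (1 / 2 : ℝ) * ((a : ℝ) ^ (3 / 2 : ℝ)) ^ (1 / 12 : ℝ) = (a : ℝ) ^ (5 / 8 : ℝ) := by
    rw [← Real.rpow_mul ha0.le, ← Real.rpow_add ha0]; norm_num
  have h9 : (a : ℝ) ^ (5 / 8 : ℝ) ≤ (4 * s) ^ 5 := by
    have h10 : a ≤ (4 * s) ^ 8 := by
      have : (4 * s) ^ 8 = 65536 * t ^ 4 := by rw [htdef]; ring
      omega
    have h11 : (a : ℝ) ≤ (4 * (s : ℝ)) ^ 8 := by exact_mod_cast h10
    calc (a : ℝ) ^ (5 / 8 : ℝ) ≤ ((4 * (s : ℝ)) ^ 8) ^ (5 / 8 : ℝ) :=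
          Real.rpow_le_rpow ha0.le h11 (by norm_num)
      _ = (4 * s) ^ 5 := by
          rw [← Real.rpow_natCast, ← Real.rpow_mul (by positivity), ← Real.rpow_natCast]; norm_num
  rw [mul_assoc, h8] at h7
  have ht' : (t : ℝ) = (s : ℝ) ^ 2 := by rw [htdef]; push_cast; ring
  have hs0 : (0 : ℝ) < s := by linarith
  have hpos : (0 : ℝ) < (t : ℝ) ^ 3 / 2 := by rw [ht']; positivity
  have hK0 : 0 < K := by
    by_contra hc
    have : K * (a : ℝ) ^ (5 / 8 : ℝ) ≤ 0 :=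
      mul_nonpos_of_nonpos_of_nonneg (not_lt.1 hc) (by positivity)
    linarith
  have h12 : (t : ℝ) ^ 3 / 2 ≤ K * (4 * s) ^ 5 := h7.trans (by gcongr)
  rw [ht'] at h12
  have h13 : (0 : ℝ) < (s : ℝ) ^ 5 := by positivity
  nlinarith

end Pool.Agent.S16808
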