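import Pool.Statements.S16940
-- import your own Pool.Agent.* helpers here

set_option autoImplicit false
open Complex DirichletCharacter
open Pool Pool.MP_50d0fc_nt

namespace Pool.Agent.S16940

lemma lfun_conj {N : ℕ} [NeZero N] (χ : DirichletCharacter ℂ N) (hχ : χ ≠ 1) :
    LFunction χ⁻¹ = (starRingEnd ℂ) ∘ LFunction χ ∘ (starRingEnd ℂ) := by
  have hχ' : χ⁻¹ ≠ 1 := by simpa using hχ
  have h1 : Differentiable ℂ (LFunction χ⁻¹) := differentiable_LFunction hχ'
  have h2 : Differentiable ℂ ((starRingEnd ℂ) ∘ LFunction χ ∘ (starRingEnd ℂ)) := by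
    intro s
    have := (differentiable_LFunction hχ (starRingEnd ℂ s)).conj_conj
    simpa using this
  refine AnalyticOnNhd.eq_of_eventuallyEq (𝕜 := ℂ) (z₀ := 2)
    (h1.differentiableOn.analyticOnNhd isOpen_univ)
    (h2.differentiableOn.analyticOnNhd isOpen_univ) ?_
  refine Filter.eventually_of_mem
    ((continuous_re.isOpen_preimage _ isOpen_Ioi).mem_nhds (by simp : 1 < (2 : ℂ).re)) ?_
  intro t (ht : 1 < t.re)
  have ht' : 1 < (starRingEnd ℂ t).re := by simpa using ht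
  simp only [Function.comp_apply]
  rw [LFunction_eq_LSeries _ ht, LFunction_eq_LSeries _ ht', LSeries, LSeries, conj_tsum]
  congr 1
  ext n
  rcases eq_or_ne n 0 with rfl | hn
  · simp
  · rw [LSeries.term_of_ne_zero hn, LSeries.term_of_ne_zero hn, map_div₀]
    congr 1
    · rw [← MulChar.star_apply']; rfl
    · rw [cpow_conj _ _ (by rw [natCast_arg]; exact Real.pi_ne_zero.symm)]
      simp

lemma key {N : ℕ} [NeZero N] (χ : DirichletCharacter ℂ N) (hχ : χ ≠ 1) (hp : χ.IsPrimitive)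
    (hN : N ≠ 1) (h : ℂ → ℂ) (hd : Differentiable ℂ h) (hh : h (1 / 2) ≠ 0)
    (hg : ∀ s, (gammaFactor χ s)⁻¹ = h s) (hg' : ∀ s, (gammaFactor χ⁻¹ s)⁻¹ = h s)
    (hL : LFunction χ (1 / 2) ≠ 0) :
    2 * (deriv (LFunction χ) (1 / 2) / LFunction χ (1 / 2)).re =
      - Real.log N + 2 * (deriv h (1 / 2) / h (1 / 2)).re := by
  have hχ' : χ⁻¹ ≠ 1 := by simpa using hχ
  have hN0 : (N : ℂ) ≠ 0 := NeZero.ne _
  have fe : ∀ s : ℂ, LFunction χ (1 - s) * h s =
      (N : ℂ) ^ (s - 1 / 2) * rootNumber χ * LFunction χ⁻¹ s * h (1 - s) := by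
    intro s
    rw [LFunction_eq_completed_div_gammaFactor χ _ (Or.inr hN),
      LFunction_eq_completed_div_gammaFactor χ⁻¹ _ (Or.inr hN),
      div_eq_mul_inv (completedLFunction _ _), div_eq_mul_inv (completedLFunction _ _),
      hg, hg', hp.completedLFunction_one_sub]
    ring
  set a := LFunction χ (1 / 2) with ha
  set a' := deriv (LFunction χ) (1 / 2) with ha'
  set g := h (1 / 2) with hgdef
  set g' := deriv h (1 / 2) with hg'def
  have hhalf : (1 : ℂ) - 1 / 2 = 1 / 2 := by ring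
  have hconj : starRingEnd ℂ (1 / 2) = 1 / 2 := by
    rw [map_div₀, map_one, show (2 : ℂ) = ((2 : ℝ) : ℂ) by simp, conj_ofReal]
  have dL : HasDerivAt (LFunction χ) a' (1 / 2) := (differentiable_LFunction hχ _).hasDerivAt
  have dh : HasDerivAt h g' (1 / 2) := (hd _).hasDerivAt
  have dL' : HasDerivAt (LFunction χ⁻¹) (starRingEnd ℂ a') (1 / 2) := by
    rw [lfun_conj χ hχ]
    have := dL.conj_conj
    rwa [hconj] at this
  have vL' : LFunction χ⁻¹ (1 / 2) = starRingEnd ℂ a := by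
    rw [lfun_conj χ hχ]
    simp only [Function.comp_apply, hconj, ha]
  have dsub : HasDerivAt (fun s : ℂ => 1 - s) (-1) (1 / 2) := by
    simpa using (hasDerivAt_id (1 / 2 : ℂ)).const_sub 1
  have d1 : HasDerivAt (fun s : ℂ => LFunction χ (1 - s)) (a' * (-1)) (1 / 2) := by
    refine HasDerivAt.comp (1 / 2 : ℂ) (h₂ := LFunction χ) (h := fun s : ℂ => 1 - s) ?_ dsub
    simp only [hhalf]
    exact dL
  have d2 : HasDerivAt (fun s : ℂ => h (1 - s)) (g' * (-1)) (1 / 2) := by
    refine HasDerivAt.comp (1 / 2 : ℂ) (h₂ := h) (h := fun s : ℂ => 1 - s) ?_ dsub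
    simp only [hhalf]
    exact dh
  have d3 : HasDerivAt (fun s : ℂ => (N : ℂ) ^ (s - 1 / 2))
      ((N : ℂ) ^ ((1 / 2 : ℂ) - 1 / 2) * Complex.log N * 1) (1 / 2) := by
    refine HasDerivAt.const_cpow (f := fun s : ℂ => s - 1 / 2) ?_ (Or.inl hN0)
    simpa using (hasDerivAt_id (1 / 2 : ℂ)).sub_const (1 / 2)
  have lhs := d1.mul dh
  have rhs := ((d3.mul_const (rootNumber χ)).mul dL').mul d2
  have hfun : ((fun s : ℂ => LFunction χ (1 - s)) * h) =
      (((fun s : ℂ => (N : ℂ) ^ (s - 1 / 2) * rootNumber χ) * LFunction χ⁻¹) *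
        fun s : ℂ => h (1 - s)) := by
    ext s
    simp only [Pi.mul_apply]
    exact fe s
  rw [hfun] at lhs
  have e1 := lhs.unique rhs
  have e0 := fe (1 / 2)
  simp only [Pi.mul_apply, hhalf, sub_self, cpow_zero, vL'] at e1 e0
  rw [← ha, ← hgdef] at e0 e1
  have hW : a = rootNumber χ * starRingEnd ℂ a := by
    have : (a - rootNumber χ * starRingEnd ℂ a) * g = 0 := by linear_combination e0
    rcases mul_eq_zero.mp this with h0 | h0
    · linear_combination h0
    · exact absurd h0 hh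
  have hca : starRingEnd ℂ a ≠ 0 := by simpa using hL
  have hW' : rootNumber χ = a / starRingEnd ℂ a := by
    field_simp
    linear_combination -hW
  have e2 : a' / a + starRingEnd ℂ (a' / a) = - Complex.log N + 2 * (g' / g) := by
    rw [map_div₀]
    rw [hW'] at e1
    field_simp
    field_simp at e1
    linear_combination -e1
  have e3 := congrArg Complex.re e2
  simp only [add_re, conj_re, neg_re, mul_re, re_ofNat, im_ofNat, zero_mul, sub_zero] at e3
  rw [← Complex.natCast_log] at e3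
  simp only [ofReal_re] at e3
  linarith

lemma bound : ∃ C : ℝ, ∀ (q : ℕ) [NeZero q], q.Prime → ∀ χ : DirichletCharacter ℂ q, χ ≠ 1 →
    LFunction χ (1 / 2) ≠ 0 →
    2 * (deriv (LFunction χ) (1 / 2) / LFunction χ (1 / 2)).re ≤ - Real.log q + C := by
  set h0 : ℂ → ℂ := fun s => (Gammaℝ s)⁻¹ with hh0
  set h1 : ℂ → ℂ := fun s => (Gammaℝ (s + 1))⁻¹ with hh1
  refine ⟨max (2 * (deriv h0 (1 / 2) / h0 (1 / 2)).re) (2 * (deriv h1 (1 / 2) / h1 (1 / 2)).re), ?_⟩
  intro q _ hq χ hχ hL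
  have hp : χ.IsPrimitive := by
    rw [IsPrimitive]
    rcases (Nat.dvd_prime hq).mp χ.conductor_dvd_level with h | h
    · exact absurd ((eq_one_iff_conductor_eq_one).mpr h) hχ
    · exact h
  have hinv : χ⁻¹ (-1) = χ (-1) := by
    rw [MulChar.inv_apply_eq_inv']
    rcases χ.even_or_odd with h | h
    · rw [h]; simp
    · rw [h]; simp
  rcases χ.even_or_odd with he | ho
  · have he' : χ⁻¹.Even := by rw [DirichletCharacter.Even, hinv]; exact he
    have := key χ hχ hp hq.ne_one h0 differentiable_Gammaℝ_inv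
      (inv_ne_zero (Gammaℝ_ne_zero_of_re_pos (by norm_num)))
      (fun s => by rw [he.gammaFactor_def]) (fun s => by rw [he'.gammaFactor_def]) hL
    rw [this]
    gcongr
    exact le_max_left _ _
  · have ho' : χ⁻¹.Odd := by rw [DirichletCharacter.Odd, hinv]; exact ho
    have := key χ hχ hp hq.ne_one h1 (differentiable_Gammaℝ_inv.comp (by fun_prop))
      (inv_ne_zero (Gammaℝ_ne_zero_of_re_pos (by norm_num)))
      (fun s => by rw [ho.gammaFactor_def]) (fun s => by rw [ho'.gammaFactor_def]) hL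
    rw [this]
    gcongr
    exact le_max_right _ _


/-- The negation of the preceding statement: There are A>0, D>1/2 such that for prime q→∞, uniformly in θ in [0,2π], the max over non-principal χ mod q with L(1/2,χ)≠0 of Re(e^{-iθ}L'/L(1/2,χ)) is asymptotic to A·√(log q)·(log log q)^D. -/
theorem result :
    ¬ (∃ A D : ℝ, 0 < A ∧ 1 / 2 < D ∧
      ∀ ε : ℝ, 0 < ε → ∃ Q : ℕ, ∀ (q : ℕ) [NeZero q], q.Prime → Q ≤ q →
        ∀ θ : ℝ, θ ∈ Set.Icc (0 : ℝ) (2 * Real.pi) →
          (∀ χ : DirichletCharacter ℂ q, χ ≠ 1 → LFunction χ (1 / 2) ≠ 0 →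
            (Complex.exp (-(θ : ℂ) * Complex.I) *
                (deriv (LFunction χ) (1 / 2) / LFunction χ (1 / 2))).re ≤
              (1 + ε) * A * Real.sqrt (Real.log q) * (Real.log (Real.log q)) ^ D) ∧
          (∃ χ : DirichletCharacter ℂ q, χ ≠ 1 ∧ LFunction χ (1 / 2) ≠ 0 ∧
            (1 - ε) * A * Real.sqrt (Real.log q) * (Real.log (Real.log q)) ^ D ≤
              (Complex.exp (-(θ : ℂ) * Complex.I) *
                (deriv (LFunction χ) (1 / 2) / LFunction χ (1 / 2))).re)) := by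
  rintro ⟨A, D, hA, hD, H⟩
  obtain ⟨C, hC⟩ := bound
  obtain ⟨Q, hQ⟩ := H (1 / 2) (by norm_num)
  obtain ⟨q, hq1, hq⟩ := Nat.exists_infinite_primes (max Q (max 3 (⌈Real.exp C⌉₊ + 1)))
  have : NeZero q := ⟨hq.ne_zero⟩
  have hQq : Q ≤ q := le_trans (le_max_left _ _) hq1
  have h3 : 3 ≤ q := le_trans (le_trans (le_max_left _ _) (le_max_right _ _)) hq1
  have hc : ⌈Real.exp C⌉₊ + 1 ≤ q := le_trans (le_trans (le_max_right _ _) (le_max_right _ _)) hq1
  obtain ⟨-, χ, hχ, hL, hle⟩ := hQ q hq hQq 0 ⟨le_rfl, by positivity⟩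
  have hb := hC q hq χ hχ hL
  simp only [ofReal_zero, neg_zero, zero_mul, Complex.exp_zero, one_mul] at hle
  have hlog : C < Real.log q := by
    rw [Real.lt_log_iff_exp_lt (by exact_mod_cast hq.pos)]
    have h1 : Real.exp C ≤ ⌈Real.exp C⌉₊ := Nat.le_ceil _
    have h2 : ((⌈Real.exp C⌉₊ + 1 : ℕ) : ℝ) ≤ q := by exact_mod_cast hc
    push_cast at h2
    linarith
  have hlog1 : 1 ≤ Real.log q := by
    rw [Real.le_log_iff_exp_le (by exact_mod_cast hq.pos)]
    have h1 : Real.exp 1 < 3 := lt_trans Real.exp_one_lt_d9 (by norm_num)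
    have h2 : (3 : ℝ) ≤ q := by exact_mod_cast h3
    linarith
  have hll : 0 ≤ Real.log (Real.log q) := Real.log_nonneg hlog1
  have : 0 ≤ (1 - 1 / 2) * A * Real.sqrt (Real.log q) * (Real.log (Real.log q)) ^ D := by
    positivity
  linarith

end Pool.Agent.S16940
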