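import Pool.Statements.S16957
import Pool.Agent.H59.MT18

set_option autoImplicit false
open N6813fd5a
open Filter
open scoped ArithmeticFunction.sigma
open Pool Pool.MP_52820d_nt

namespace Pool.Agent.S16957

/-- Every real x > 1 is in the closure of {τ((n+⌊log n⌋₊)!)/τ(n!) : n ∈ ℕ}, with σ 0 = divisor count and natural log. -/
theorem result :
    Set.Ioi (1 : ℝ) ⊆ closure (Set.range (F fun m ↦ Real.log m)) := by
  refine H59.MT.closure_tau (fun m ↦ Real.log m) (fun a b h => ?_) (fun _ => le_rfl)
    (Real.tendsto_log_atTop.comp tendsto_natCast_atTop_atTop)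
  rcases a.eq_zero_or_pos with z | z
  · simpa [z] using Real.log_natCast_nonneg b
  · exact Real.log_le_log (by exact_mod_cast z) (by exact_mod_cast h)

end Pool.Agent.S16957
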