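import Pool.Statements.S16968

set_option autoImplicit false
open Pool Pool.MP_5317dd_nt

namespace Pool.Agent.S16968

/-- The map F_13 of the problem. -/
def F (x : ℕ) : ℕ :=
  if x % 13 = 0 then x / 13
  else if x % 13 = 13 - 1 then (13 + 1) * x + 1
  else (13 + 1) * x - x % 13

theorem per : F^[71] 147 = 147 := by decide +kernel

theorem small : ∀ k < 71, 13 ≤ F^[k] 147 := by decide +kernel

theorem all_ge (k : ℕ) : 13 ≤ F^[k] 147 := by
  have hp : Function.IsPeriodicPt F 71 147 := per
  rw [← hp.iterate_mod_apply k]
  exact small _ (Nat.mod_lt _ (by norm_num))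

/-- Counterexample: D = 13, n = 147 lies on a cycle of length 71 whose least member is 147. -/
theorem result :
    ¬ (∀ D : ℕ, 2 ≤ D → ∀ n : ℕ, 1 ≤ n →
      ∃ k : ℕ,
        (fun x : ℕ =>
          if x % D = 0 then x / D
          else if x % D = D - 1 then (D + 1) * x + 1
          else (D + 1) * x - x % D)^[k] n < D) := by
  intro h
  obtain ⟨k, hk⟩ := h 13 (by norm_num) 147 (by norm_num)
  have := all_ge k
  exact absurd hk (not_lt.mpr this)

end Pool.Agent.S16968
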