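import Pool.Statements.S16992
import Pool.Agent.H49.WV9

set_option autoImplicit false
open Pool Pool.MP_559555_nt

namespace Pool.Agent.S16992

/-- The negation of the preceding statement: Let W(n) be the sum over the prime powers p^a exactly dividing n of n/p^a. The number of distinct values W(n) takes for 1 ≤ n ≤ x, divided by x, tends to 0 as x tends to infinity. -/
theorem result :
    ¬ (Filter.Tendsto
      (fun x : ℕ =>
        (((Finset.Icc 1 x).image
            (fun n : ℕ => ∑ p ∈ n.primeFactors, n / p ^ (n.factorization p))).card : ℝ)
          / (x : ℝ))
      Filter.atTop (nhds 0)) := by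
  exact Pool.Agent.H49.WV.not_tendsto

end Pool.Agent.S16992
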