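import Pool.Statements.S16995
import Pool.Agent.H49.FI3

set_option autoImplicit false
open Pool Pool.MP_55e671_nt

namespace Pool.Agent.S16995

/-- For every A in ℕ×ℕ of positive upper Banach density, the set of products x·y over (x,y) in A−A contains a nonzero subgroup of the integers. -/
theorem result :
    ∀ A : Set (ℕ × ℕ),
      (∃ ε : ℝ, 0 < ε ∧ ∀ N : ℕ, ∃ a b m n : ℕ, N ≤ m ∧ N ≤ n ∧
        ε * ((m : ℝ) * (n : ℝ)) ≤
          (({p : ℕ × ℕ | p ∈ A ∧ a ≤ p.1 ∧ p.1 < a + m ∧ b ≤ p.2 ∧ p.2 < b + n}.ncard : ℕ) : ℝ)) →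
      ∃ H : AddSubgroup ℤ, H ≠ ⊥ ∧
        ∀ z ∈ H, ∃ p ∈ A, ∃ q ∈ A,
          (((p.1 : ℤ) - (q.1 : ℤ)) * ((p.2 : ℤ) - (q.2 : ℤ))) = z := by
  classical
  rintro A ⟨ε, hε, h⟩
  choose a b m n hm hn h using h
  obtain ⟨M, hM, hk⟩ := H49.FI.dens ((fun p : ℕ × ℕ => ((p.1 : ℤ), (p.2 : ℤ))) '' A) hε
    (a := fun N => a N) (b := fun N => b N) hm hn fun N hN => by
      have a1 : (0 : ℝ) < m N := by exact_mod_cast lt_of_lt_of_le hN (hm N)
      have a2 : (0 : ℝ) < n N := by exact_mod_cast lt_of_lt_of_le hN (hn N)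
      unfold H49.FI.av
      rw [le_div_iff₀ (mul_pos a1 a2), ← Finset.sum_product']
      refine (h N).trans ?_
      have : {p : ℕ × ℕ | p ∈ A ∧ a N ≤ p.1 ∧ p.1 < a N + m N ∧ b N ≤ p.2 ∧ p.2 < b N + n N} ⊆
          ((((Finset.range (m N) ×ˢ Finset.range (n N)).filter fun q =>
            (a N + q.1, b N + q.2) ∈ A).image fun q => (a N + q.1, b N + q.2) : Finset _) : Set _) := by
        rintro ⟨x, y⟩ ⟨h1, h2, h3, h4, h5⟩
        simp only at h2 h3 h4 h5
        have e : (a N + (x - a N), b N + (y - b N)) = (x, y) := by ext <;> simp only <;> omega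
        refine Finset.mem_coe.2 (Finset.mem_image.2 ⟨(x - a N, y - b N), Finset.mem_filter.2
          ⟨Finset.mem_product.2 ⟨Finset.mem_range.2 ?_, Finset.mem_range.2 ?_⟩, ?_⟩, e⟩)
        · simp only; omega
        · simp only; omega
        · simp only; rw [e]; exact h1
      have h2 := (Set.ncard_le_ncard this (Finset.finite_toSet _)).trans
        ((Set.ncard_coe_finset _).le.trans Finset.card_image_le)
      refine (Nat.cast_le.2 h2).trans ?_
      rw [Finset.card_filter]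
      push_cast
      refine Finset.sum_le_sum fun q _ => ?_
      split_ifs with hq
      · rw [Set.indicator_of_mem (by exact ⟨_, hq, by simp⟩)]; simp
      · exact Set.indicator_nonneg (fun _ _ => by simp) _
  refine ⟨AddSubgroup.zmultiples ((M : ℤ) ^ 2), ?_, ?_⟩
  · rw [Ne, AddSubgroup.zmultiples_eq_bot]
    positivity
  · rintro _ ⟨k, rfl⟩
    obtain ⟨_, ⟨p, hp, rfl⟩, _, ⟨q, hq, rfl⟩, h⟩ := hk k
    exact ⟨p, hp, q, hq, by simpa using h⟩

end Pool.Agent.S16995
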