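import Pool.Statements.S17143

set_option autoImplicit false
open Pool Pool.MP_6023ab_nt

namespace Pool.Agent.S17143

/-- There is a degree k between 1 and 6 and four nonzero, pairwise non-proportional real binary forms of degree k with f1^4 + f2^4 = f3^4 + f4^4. -/
theorem result :
    ∃ k : ℕ, 1 ≤ k ∧ k < 7 ∧
      ∃ f : Fin 4 → MvPolynomial (Fin 2) ℝ,
        (∀ i, f i ≠ 0 ∧ (f i).IsHomogeneous k) ∧
        (∀ i j, i ≠ j → ∀ c : ℝ, f i ≠ c • f j) ∧
        f 0 ^ 4 + f 1 ^ 4 = f 2 ^ 4 + f 3 ^ 4 := by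
  have hs : √2 * √2 = 2 := Real.mul_self_sqrt (by norm_num)
  have hs0 : 0 < √2 := Real.sqrt_pos.mpr (by norm_num)
  let s : MvPolynomial (Fin 2) ℝ := MvPolynomial.X 0
  let t : MvPolynomial (Fin 2) ℝ := MvPolynomial.X 1
  let r : MvPolynomial (Fin 2) ℝ := MvPolynomial.C √2
  let g : (Fin 4 → ℝ) → MvPolynomial (Fin 2) ℝ := fun a =>
    MvPolynomial.C (a 0) * s ^ 3 + MvPolynomial.C (a 1) * (s ^ 2 * t) +
      MvPolynomial.C (a 2) * (s * t ^ 2) + MvPolynomial.C (a 3) * t ^ 3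
  let M : Fin 4 → Fin 4 → ℝ := ![![2, 2, 8, -4], ![-√2, 4 * √2, 2 * √2, 4 * √2],
    ![2, -2, 8, 4], ![√2, 4 * √2, -(2 * √2), 4 * √2]]
  have hg : ∀ a, (g a).IsHomogeneous 3 := by
    intro a
    have h0 : s.IsHomogeneous 1 := MvPolynomial.isHomogeneous_X _ _
    have h1 : t.IsHomogeneous 1 := MvPolynomial.isHomogeneous_X _ _
    exact ((((h0.pow 3).C_mul _).add (((h0.pow 2).mul h1).C_mul _)).add
      ((h0.mul (h1.pow 2)).C_mul _)).add ((h1.pow 3).C_mul _)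
  have e1 : ∀ a, MvPolynomial.eval ![1, 0] (g a) = a 0 := by intro a; simp [g, s, t]
  have e2 : ∀ a, MvPolynomial.eval ![0, 1] (g a) = a 3 := by intro a; simp [g, s, t]
  refine ⟨3, by norm_num, by norm_num, fun i => g (M i), fun i => ⟨fun h => ?_, hg _⟩, ?_, ?_⟩
  · replace h : g (M i) = 0 := h
    have := e1 (M i)
    rw [h, map_zero] at this
    fin_cases i <;> simp [M] at this <;> linarith
  · intro i j hij c h
    replace h : g (M i) = c • g (M j) := h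
    have a1 := e1 (M i)
    have a2 := e2 (M i)
    rw [h, MvPolynomial.smul_eval, e1] at a1
    rw [h, MvPolynomial.smul_eval, e2] at a2
    fin_cases i <;> fin_cases j <;> simp [M] at a1 a2 hij <;> nlinarith
  · have hr : r ^ 2 = 2 := by
      simp only [r]
      rw [← map_pow, pow_two, hs]; rfl
    have c2 : (MvPolynomial.C 2 : MvPolynomial (Fin 2) ℝ) = 2 := rfl
    have c4 : (MvPolynomial.C 4 : MvPolynomial (Fin 2) ℝ) = 4 := rfl
    have c8 : (MvPolynomial.C 8 : MvPolynomial (Fin 2) ℝ) = 8 := rfl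
    have f0 : g (M 0) = 2 * s ^ 3 + 2 * (s ^ 2 * t) + 8 * (s * t ^ 2) - 4 * t ^ 3 := by
      simp [g, M, c2, c4, c8]; ring
    have f2 : g (M 2) = 2 * s ^ 3 - 2 * (s ^ 2 * t) + 8 * (s * t ^ 2) + 4 * t ^ 3 := by
      simp [g, M, c2, c4, c8]; ring
    have f1 : g (M 1) = r * (-s ^ 3 + 4 * (s ^ 2 * t) + 2 * (s * t ^ 2) + 4 * t ^ 3) := by
      simp [g, M, r, c2, c4, c8]; ring
    have f3 : g (M 3) = r * (s ^ 3 + 4 * (s ^ 2 * t) - 2 * (s * t ^ 2) + 4 * t ^ 3) := by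
      simp [g, M, r, c2, c4, c8]; ring
    simp only [f0, f1, f2, f3, mul_pow]
    rw [show r ^ 4 = (r ^ 2) ^ 2 by ring, hr]
    ring

end Pool.Agent.S17143
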