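import Pool.Statements.S17199
import Pool.Agent.H60.D6g

set_option autoImplicit false
open N140ae710
open scoped BigOperators
open Pool Pool.MP_636046_nt

namespace Pool.Agent.S17199

/-- ∃ c>0, ∃ N, ∀ n≥N, c·n ≤ #{m∈[1,n] : min k≥2 with a k-element set of positive integers ≤ m containing m whose factorial product is a square equals 6} -/
theorem result :
    PositiveLowerDensitySix := by
  obtain ⟨c, hc, h⟩ := Pool.Agent.H60.D6.main
  obtain ⟨N, hN⟩ := Filter.eventually_atTop.1 h
  refine ⟨c, hc, N, fun n hn => (hN n hn).trans (Nat.cast_le.2 ?_)⟩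
  unfold countD
  apply Finset.card_le_card
  intro m hm
  simp only [Finset.mem_filter, Finset.mem_Ioc, Finset.mem_Icc] at hm ⊢
  obtain ⟨h1, ⟨k, p, rfl, hp, h2, h3⟩, h4⟩ := hm
  refine ⟨by omega, by norm_num, Pool.Agent.H60.D6.six h2 h3, ?_⟩
  rintro j - hj ⟨s, h5, h6, h7, h8⟩
  exact h4 (Pool.Agent.H60.D6.to_rep (by omega) h6 h7 h8)

end Pool.Agent.S17199
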