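import Pool.Statements.S17321

set_option autoImplicit false
open Pool Pool.MP_6c5308_nt

namespace Pool.Agent.S17321

lemma fermat_dvd (r u : ℕ) (hu : Odd u) : 2 ^ 2 ^ r + 1 ∣ 2 ^ (2 ^ r * u) + 1 := by
  have h := Odd.nat_add_dvd_pow_add_pow (2 ^ 2 ^ r) 1 hu
  rwa [one_pow, ← pow_mul] at h

lemma not_rep (t : ℕ) (k p : ℕ) (hp : p.Prime) :
    2 ^ (2 ^ (t + 3) - 1) - 1 ≠ 2 ^ k + p := by
  intro h
  have h8 : 8 ≤ 2 ^ (t + 3) := by
    have : 1 ≤ 2 ^ t := Nat.one_le_two_pow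
    rw [pow_add]; omega
  set m := 2 ^ (t + 3) - 1 with hm
  have hpos : 1 ≤ 2 ^ m := Nat.one_le_two_pow
  have hk : k < m := by
    by_contra hc
    have : 2 ^ m ≤ 2 ^ k := Nat.pow_le_pow_right (by norm_num) (by omega)
    omega
  obtain ⟨d, hd⟩ : ∃ d, m = k + d := ⟨m - k, by omega⟩
  have hd0 : d ≠ 0 := by omega
  obtain ⟨r, u, hu, hdu⟩ := Nat.exists_eq_two_pow_mul_odd hd0
  have hu1 : 1 ≤ u := hu.pos
  have hr : r < t + 3 := by
    have h1 : 2 ^ r ≤ d := by rw [hdu]; exact Nat.le_mul_of_pos_right _ hu1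
    have h2 : 2 ^ r < 2 ^ (t + 3) := by omega
    exact (Nat.pow_lt_pow_iff_right (by norm_num)).1 h2
  obtain ⟨e, he⟩ : ∃ e, t + 3 = r + (e + 1) := ⟨t + 3 - r - 1, by omega⟩
  have hsplit : 2 ^ (t + 3) = 2 ^ r * 2 ^ (e + 1) := by rw [he, pow_add]
  have hul : u < 2 ^ (e + 1) := by
    have : 2 ^ r * u < 2 ^ r * 2 ^ (e + 1) := by omega
    exact Nat.lt_of_mul_lt_mul_left this
  obtain ⟨v, hv⟩ : ∃ v, 2 ^ (e + 1) = u + v := ⟨2 ^ (e + 1) - u, by omega⟩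
  have hvodd : Odd v := by
    have he2 : Even (u + v) := by rw [← hv, pow_succ]; exact Even.mul_left even_two _
    rcases Nat.even_or_odd v with h' | h'
    · exact absurd he2 (Nat.not_even_iff_odd.2 (hu.add_even h'))
    · exact h'
  have hk1 : k + 1 = 2 ^ r * v := by
    rw [hv, mul_add] at hsplit
    omega
  have d1 := fermat_dvd r u hu
  have d2 := fermat_dvd r v hvodd
  rw [← hdu] at d1
  rw [← hk1] at d2
  have hmd : 2 ^ m = 2 ^ k * 2 ^ d := by rw [hd, pow_add]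
  have key : p + (2 ^ (k + 1) + 1) = 2 ^ k * (2 ^ d + 1) := by
    rw [pow_succ, mul_add]; omega
  have d3 : 2 ^ 2 ^ r + 1 ∣ p := by
    have : 2 ^ 2 ^ r + 1 ∣ p + (2 ^ (k + 1) + 1) := by rw [key]; exact Dvd.dvd.mul_left d1 _
    exact (Nat.dvd_add_left d2).1 this
  have hF : 2 ^ 2 ^ r + 1 = p := by
    rcases (Nat.dvd_prime hp).1 d3 with h1 | h1
    · have : 1 ≤ 2 ^ 2 ^ r := Nat.one_le_two_pow
      omega
    · exact h1
  have hr2 : 2 ^ r ≤ 2 ^ (t + 2) := Nat.pow_le_pow_right (by norm_num) (by omega)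
  have h3 : 2 ^ (t + 3) = 2 * 2 ^ (t + 2) := by rw [pow_succ]; ring
  obtain ⟨j, hj⟩ : ∃ j, m = j + 3 := ⟨m - 3, by omega⟩
  have h4 : 2 ^ 2 ^ r ≤ 2 ^ j := Nat.pow_le_pow_right (by norm_num) (by omega)
  have h5 : 2 ^ k ≤ 2 ^ (j + 2) := Nat.pow_le_pow_right (by norm_num) (by omega)
  have h6 : 2 ^ m = 8 * 2 ^ j := by rw [hj, pow_add]; ring
  have h7 : 2 ^ (j + 2) = 4 * 2 ^ j := by rw [pow_add]; ring
  have h9 : 1 ≤ 2 ^ j := Nat.one_le_two_pow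
  omega

theorem result :
    Set.Infinite {n : ℕ | Odd n ∧ (∀ k p : ℕ, p.Prime → n ≠ 2 ^ k + p) ∧
      ¬ ∃ P : Finset ℕ, (∀ p ∈ P, p.Prime) ∧
        ∀ k : ℕ, ∃ p ∈ P, (p : ℤ) ∣ (n : ℤ) - 2 ^ k} := by
  apply Set.infinite_of_injective_forall_mem
    (f := fun t : ℕ => 2 ^ (2 ^ (t + 3) - 1) - 1)
  · intro a b hab
    have h1 : 1 ≤ 2 ^ (2 ^ (a + 3) - 1) := Nat.one_le_two_pow
    have h2 : 1 ≤ 2 ^ (2 ^ (b + 3) - 1) := Nat.one_le_two_pow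
    have h3 : 2 ^ (2 ^ (a + 3) - 1) = 2 ^ (2 ^ (b + 3) - 1) := by
      simp only at hab
      omega
    have h4 := Nat.pow_right_injective (le_refl 2) h3
    have h5 : 1 ≤ 2 ^ (a + 3) := Nat.one_le_two_pow
    have h6 : 1 ≤ 2 ^ (b + 3) := Nat.one_le_two_pow
    have h7 : 2 ^ (a + 3) = 2 ^ (b + 3) := by omega
    have h8 := Nat.pow_right_injective (le_refl 2) h7
    omega
  · intro t
    have h8 : 8 ≤ 2 ^ (t + 3) := by
      have : 1 ≤ 2 ^ t := Nat.one_le_two_pow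
      rw [pow_add]; omega
    refine ⟨?_, fun k p hp => not_rep t k p hp, ?_⟩
    · apply Nat.Even.sub_odd Nat.one_le_two_pow _ odd_one
      exact (Nat.even_pow' (by omega)).2 even_two
    · rintro ⟨P, hP, hc⟩
      obtain ⟨p, hpP, hd⟩ := hc (2 ^ (t + 3) - 1)
      have h1 : 1 ≤ 2 ^ (2 ^ (t + 3) - 1) := Nat.one_le_two_pow
      rw [Nat.cast_sub h1] at hd
      push_cast at hd
      have h2 : (p : ℤ) ∣ 1 := by
        have : (2 : ℤ) ^ (2 ^ (t + 3) - 1) - 1 - 2 ^ (2 ^ (t + 3) - 1) = -1 := by ring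
        rw [this] at hd
        exact (dvd_neg).1 hd
      have h3 : p ∣ 1 := by exact_mod_cast h2
      exact (hP p hpP).one_lt.ne' (Nat.dvd_one.1 h3)

end Pool.Agent.S17321
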