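import Pool.Statements.S17434
import Pool.Agent.H55.FermatK

set_option autoImplicit false
open Pool Pool.MP_74da6d_nt

namespace Pool.Agent.S17434

/-- The negation of the preceding statement: For every odd k ≥ 3 such that k·2^n+1 is prime for some n, there are infinitely many m for which the Fermat number 2^(2^m)+1 is divisible by some prime of the form k·2^n+1. -/
theorem result :
    ¬ (∀ k : ℕ, Odd k → 3 ≤ k → (∃ n : ℕ, Nat.Prime (k * 2 ^ n + 1)) →
      Set.Infinite {m : ℕ | ∃ n : ℕ, Nat.Prime (k * 2 ^ n + 1) ∧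
        (k * 2 ^ n + 1) ∣ Nat.fermatNumber m}) := by
  intro h
  have h1 := h Pool.Agent.H55.FermatK.k Pool.Agent.H55.FermatK.k_odd Pool.Agent.H55.FermatK.k_ge
    ⟨_, Pool.Agent.H55.FermatK.has_prime⟩
  obtain ⟨m, n, hp, hd⟩ := h1.nonempty
  exact Pool.Agent.H55.FermatK.no_factor m n hp hd

end Pool.Agent.S17434
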