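import Pool.Statements.S17527
import Pool.Agent.H46.Tn.G

set_option autoImplicit false
open Pool Pool.MP_7b597b_nt

namespace Pool.Agent.S17527

/-- There is a real S-number ξ, meaning 0 < limsup w_n(ξ)/n < ∞ with w_n Mahler's exponent, such that limsup over n of (w_n(ξ)+1)/(n+1) is strictly less than the supremum over n ≥ 1 of (w_n(ξ)+1)/(n+1). -/
theorem result :
    ∃ ξ : ℝ, ∃ f : ℕ → ℝ,
      (∀ n : ℕ, 1 ≤ n →
        IsLUB {w : ℝ | {P : Polynomial ℤ | P ≠ 0 ∧ P.natDegree ≤ n ∧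
            0 < |Polynomial.aeval ξ P| ∧
            |Polynomial.aeval ξ P| ≤
              ((P.support.sup (fun i => (P.coeff i).natAbs) : ℕ) : ℝ) ^ (-w)}.Infinite}
          (f n)) ∧
      (∃ C : ℝ, ∀ n : ℕ, 1 ≤ n → f n / (n : ℝ) ≤ C) ∧
      (∃ ε : ℝ, 0 < ε ∧ ∃ᶠ n : ℕ in Filter.atTop, ε ≤ f n / (n : ℝ)) ∧
      (∃ m : ℕ, 1 ≤ m ∧ ∃ c : ℝ, c < (f m + 1) / ((m : ℝ) + 1) ∧
        ∀ᶠ n : ℕ in Filter.atTop, (f n + 1) / ((n : ℝ) + 1) ≤ c) := by
  open Pool.Agent.H46.Tn Polynomial in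
  obtain ⟨ξ, M, B, α, G⟩ : ∃ ξ M B α, Good (fun _ => 19) (fun _ => 23) ξ M B α :=
    main _ _ (by simp) (by simp)
  have U : ∀ n, 1 ≤ n → Up ξ n (2 ^ 23 * n) := fun n h => G.up h (by omega) fun _ _ => by omega
  have bd : ∀ n v, Up ξ n v → (v : ℝ) ∈ upperBounds {w | (wS n ξ w).Infinite} :=
    fun n v h w hw => not_lt.mp fun l => hw (h.wS l)
  have ne : ∀ n, {w | (wS n ξ w).Infinite}.Nonempty := fun n => ⟨-1,
    Set.infinite_of_injective_forall_mem (f := fun k : ℕ => C (k + 1 : ℤ))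
      (fun a b h => by simpa using h) fun k => ⟨by rw [natDegree_C]; omega, by
        rw [aeval_C]; simp; positivity, by
        rw [aeval_C, supNorm_C, neg_neg, Real.rpow_one, Int.norm_eq_abs, eq_intCast]⟩⟩
  have lo : ∀ n w, 1 ≤ n → (wS n ξ w).Infinite → w ≤ sSup {w | (wS n ξ w).Infinite} :=
    fun n w h k => le_csSup ⟨_, bd n _ (U n h)⟩ k
  refine ⟨ξ, fun n => sSup {w | (wS n ξ w).Infinite}, fun n h => ?_, ⟨2 ^ 23, fun n h => ?_⟩,
    ⟨1 / 2, by norm_num, (Filter.eventually_atTop.mpr ⟨2, fun n h => ?_⟩).frequently⟩,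
    19, by norm_num, 10800, ?_, Filter.eventually_atTop.mpr ⟨41, fun n h => ?_⟩⟩
  · simp only [hgt]
    convert isLUB_csSup (ne n) ⟨_, bd n _ (U n h)⟩ using 4 with w
    · rfl
    exact Set.ext fun P => and_iff_right_of_imp (by rintro ⟨-, a, -⟩ rfl; simp at a)
  · rw [div_le_iff₀ (by positivity)]
    exact_mod_cast csSup_le (ne n) (bd n _ (U n h))
  · obtain ⟨n, rfl⟩ := Nat.exists_eq_add_of_le' (show 1 ≤ n by omega)
    have := lo _ _ (by omega) ((dir (abs_le.mpr ⟨by linarith [G.1], by linarith [G.2.1]⟩)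
      (tr fun N h => ⟨_, U N h⟩) n).resolve_right (by omega))
    have n1 : (1 : ℝ) ≤ n := by exact_mod_cast (by omega : 1 ≤ n)
    rw [le_div_iff₀ (by positivity)]
    push_cast
    linarith
  · have := lo 19 399000 (by norm_num) (G.low (E := 23) (by norm_num) (by norm_num) (by norm_num)
      fun K => ⟨K, le_rfl, rfl, rfl⟩).1
    rw [lt_div_iff₀ (by positivity)]
    push_cast
    linarith
  have := csSup_le (ne n) (bd n _ (G.up (v := 10800 * n) (by omega) le_rfl fun _ _ => by omega))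
  rw [div_le_iff₀ (by positivity)]
  push_cast at this
  linarith

end Pool.Agent.S17527
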