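import Pool.Statements.S17557
import Pool.Agent.H55.MinQuad

set_option autoImplicit false
open Filter Topology
open Pool Pool.MP_7e9031_nt

namespace Pool.Agent.S17557

/-- There is a set A of naturals such that every large n is a sum of two elements of A, no proper subset of A has this property, and the (k+1)-th element of A divided by (k+1)² tends to a nonzero real constant. -/
theorem result :
    ∃ A : Set ℕ,
      (∃ N : ℕ, ∀ n ≥ N, ∃ a ∈ A, ∃ b ∈ A, a + b = n) ∧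
      (∀ B : Set ℕ, B ⊂ A → ¬ ∃ N : ℕ, ∀ n ≥ N, ∃ a ∈ B, ∃ b ∈ B, a + b = n) ∧
      ∃ c : ℝ, c ≠ 0 ∧
        Tendsto (fun k : ℕ => (Nat.nth (· ∈ A) k : ℝ) / ((k : ℝ) + 1) ^ 2) atTop (𝓝 c) := by
  obtain ⟨A, E, h1, h2, h3⟩ := Pool.Agent.H55.MinQuad.exists_A
  refine ⟨A, ⟨640, h1⟩, ?_, 1 / 192 ^ 2, by norm_num,
    Pool.Agent.H55.MinQuad.limit (Set.infinite_of_not_bddAbove ?_) h3⟩
  · rintro B hB ⟨N, hN⟩
    obtain ⟨a, ha, haB⟩ := Set.exists_of_ssubset hB
    obtain ⟨n, h4, h5⟩ := h2 a ha N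
    obtain ⟨y, hy, z, hz, e⟩ := hN n h4
    rcases h5 y (hB.1 hy) z (hB.1 hz) e with rfl | rfl
    · exact haB hy
    · exact haB hz
  · rintro ⟨M, hM⟩
    obtain ⟨y, hy, z, hz, e⟩ := h1 (2 * M + 640) (by omega)
    have := hM hy
    have := hM hz
    omega

end Pool.Agent.S17557
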