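import Pool.Statements.S17576
-- import your own Pool.Agent.* helpers here

set_option autoImplicit false
open Pool Pool.MP_7fe555_nt

namespace Pool.Agent.S17576

open Finset

/-- For `a < b < c` the product is at most the lcm times the cube of `c - a`. -/
lemma prod_le (a b c : ℕ) (ha : 0 < a) (hab : a < b) (hbc : b < c) :
    a * b * c ≤ Nat.lcm (Nat.lcm a b) c * (c - a) ^ 3 := by
  have h1 : Nat.gcd a b * Nat.lcm a b = a * b := Nat.gcd_mul_lcm a b
  have h2 : Nat.gcd (Nat.lcm a b) c * Nat.lcm (Nat.lcm a b) c = Nat.lcm a b * c :=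
    Nat.gcd_mul_lcm _ _
  have g1 : Nat.gcd a b ≤ c - a := by
    have : Nat.gcd a b ∣ b - a := Nat.dvd_sub (Nat.gcd_dvd_right a b) (Nat.gcd_dvd_left a b)
    have := Nat.le_of_dvd (by omega) this
    omega
  have g2 : Nat.gcd a c ≤ c - a := by
    have : Nat.gcd a c ∣ c - a := Nat.dvd_sub (Nat.gcd_dvd_right a c) (Nat.gcd_dvd_left a c)
    exact Nat.le_of_dvd (by omega) this
  have g3 : Nat.gcd b c ≤ c - a := by
    have : Nat.gcd b c ∣ c - b := Nat.dvd_sub (Nat.gcd_dvd_right b c) (Nat.gcd_dvd_left b c)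
    have := Nat.le_of_dvd (by omega) this
    omega
  have g4 : Nat.gcd (Nat.lcm a b) c ≤ Nat.gcd a c * Nat.gcd b c := by
    have hd : Nat.gcd (Nat.lcm a b) c ∣ Nat.gcd (a * b) c :=
      Nat.gcd_dvd_gcd_of_dvd_left _ (Nat.lcm_dvd_mul a b)
    have hd2 : Nat.gcd (a * b) c ∣ Nat.gcd a c * Nat.gcd b c := by
      rw [Nat.gcd_comm (a * b) c, Nat.gcd_comm a c, Nat.gcd_comm b c]
      exact Nat.gcd_mul_right_dvd_mul_gcd c a b
    refine Nat.le_of_dvd ?_ (hd.trans hd2)
    exact Nat.mul_pos (Nat.gcd_pos_of_pos_left _ ha) (Nat.gcd_pos_of_pos_left _ (by omega))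
  calc a * b * c = Nat.gcd a b * (Nat.lcm a b * c) := by rw [← h1]; ring
    _ = Nat.gcd a b * (Nat.gcd (Nat.lcm a b) c * Nat.lcm (Nat.lcm a b) c) := by rw [h2]
    _ ≤ (c - a) * (((c - a) * (c - a)) * Nat.lcm (Nat.lcm a b) c) := by
        gcongr
        exact g4.trans (Nat.mul_le_mul g2 g3)
    _ = Nat.lcm (Nat.lcm a b) c * (c - a) ^ 3 := by ring

/-- If the lcm is below `8 ^ j` then `2 ^ (-j) ≤ 2 log (c / a)`. -/
lemma weight_le (a b c j : ℕ) (ha : 0 < a) (hab : a < b) (hbc : b < c)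
    (h : Nat.lcm (Nat.lcm a b) c < 8 ^ j) :
    ((1 : ℝ) / 2) ^ j ≤ 2 * (Real.log c - Real.log a) := by
  have h1 := prod_le a b c ha hab hbc
  have hca : 0 < c - a := by omega
  have h2 : a ^ 3 < (2 ^ j * (c - a)) ^ 3 := by
    calc a ^ 3 = a * a * a := by ring
      _ ≤ a * b * c := by gcongr <;> omega
      _ ≤ Nat.lcm (Nat.lcm a b) c * (c - a) ^ 3 := h1
      _ < 8 ^ j * (c - a) ^ 3 := by gcongr
      _ = (2 ^ j * (c - a)) ^ 3 := by
          rw [mul_pow, ← pow_mul, mul_comm j 3, pow_mul]; norm_num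
  have h3 : a < 2 ^ j * (c - a) := lt_of_pow_lt_pow_left₀ 3 (Nat.zero_le _) h2
  have h4 : c - a ≤ 2 ^ j * (c - a) := Nat.le_mul_of_pos_left _ (by positivity)
  have h5 : c ≤ 2 * (2 ^ j * (c - a)) := by omega
  have h5' : (c : ℝ) ≤ 2 * (2 ^ j * ((c : ℝ) - a)) := by
    have : ((c - a : ℕ) : ℝ) = (c : ℝ) - a := by
      rw [Nat.cast_sub (by omega)]
    rw [← this]; exact_mod_cast h5
  have hapos : (0 : ℝ) < a := by exact_mod_cast ha
  have hcpos : (0 : ℝ) < c := by exact_mod_cast (by omega : 0 < c)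
  have hlog : 1 - (a : ℝ) / c ≤ Real.log c - Real.log a := by
    have := Real.log_le_sub_one_of_pos (x := (a : ℝ) / c) (by positivity)
    rw [Real.log_div hapos.ne' hcpos.ne'] at this
    linarith
  have h6 : ((1 : ℝ) / 2) ^ j ≤ 2 * (1 - (a : ℝ) / c) := by
    have hp : (0 : ℝ) < 2 ^ j := by positivity
    rw [one_div, inv_pow, inv_eq_one_div, div_le_iff₀ hp]
    have : 2 * (1 - (a : ℝ) / c) * 2 ^ j = 2 * (2 ^ j * ((c : ℝ) - a)) / c := by
      field_simp
    rw [this, le_div_iff₀ hcpos]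
    linarith
  linarith

/-- A sum of distinct powers of one half, each at most `w`, is at most `2 w`. -/
lemma sum_half_le (S : Finset ℕ) (w : ℝ) (hw : 0 ≤ w) (h : ∀ j ∈ S, ((1 : ℝ) / 2) ^ j ≤ w) :
    ∑ j ∈ S, ((1 : ℝ) / 2) ^ j ≤ 2 * w := by
  rcases S.eq_empty_or_nonempty with rfl | hne
  · simp; linarith
  · set m := S.min' hne with hm
    have hmS : m ∈ S := S.min'_mem hne
    have hsub : S ⊆ Finset.Ico m (S.sup id + 1) := by
      intro j hj
      rw [Finset.mem_Ico]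
      refine ⟨S.min'_le j hj, ?_⟩
      have : j ≤ S.sup id := Finset.le_sup (f := id) hj
      omega
    calc ∑ j ∈ S, ((1 : ℝ) / 2) ^ j ≤ ∑ j ∈ Finset.Ico m (S.sup id + 1), ((1 : ℝ) / 2) ^ j :=
          Finset.sum_le_sum_of_subset_of_nonneg hsub (fun _ _ _ => by positivity)
      _ ≤ (1 / 2) ^ m / (1 - 1 / 2) := geom_sum_Ico_le_of_lt_one (by norm_num) (by norm_num)
      _ = 2 * (1 / 2) ^ m := by ring
      _ ≤ 2 * w := by linarith [h m hmS]

lemma telescope (f : ℕ → ℝ) (N : ℕ) :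
    ∑ i ∈ range N, (f (i + 3) - f (i + 1)) = f (N + 2) + f (N + 1) - f 2 - f 1 := by
  induction N with
  | zero => simp
  | succ n ih => rw [Finset.sum_range_succ, ih]; ring_nf

/-- The key upper bound: the dyadic sum of the counts is linear in `J`. -/
lemma dyadic_upper (a : ℕ → ℕ) (hm : StrictMono a) (hp : ∀ n, 0 < a n) (J : ℕ) :
    ∑ j ∈ range (J + 1), ((1 : ℝ) / 2) ^ j *
      (({i : ℕ | ((Nat.lcm (Nat.lcm (a (i + 1)) (a (i + 2))) (a (i + 3)) : ℕ) : ℝ) <
        (8 : ℝ) ^ j}.ncard : ℕ) : ℝ) ≤ 8 * (J * Real.log 8) := by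
  classical
  have hex : ∃ N, 8 ^ J ≤ a (N + 3) := ⟨8 ^ J, (by omega : 8 ^ J ≤ 8 ^ J + 3).trans (hm.id_le _)⟩
  set N := Nat.find hex with hN
  set L : ℕ → ℕ := fun i => Nat.lcm (Nat.lcm (a (i + 1)) (a (i + 2))) (a (i + 3)) with hL
  have hLpos : ∀ i, 0 < L i := fun i =>
    Nat.lcm_pos (Nat.lcm_pos (hp _) (hp _)) (hp _)
  have hLge : ∀ i, a (i + 3) ≤ L i := fun i =>
    Nat.le_of_dvd (hLpos i) (Nat.dvd_lcm_right _ _)
  have hset : ∀ j ∈ range (J + 1),
      {i : ℕ | ((L i : ℕ) : ℝ) < (8 : ℝ) ^ j} = ↑((range N).filter (fun i => L i < 8 ^ j)) := by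
    intro j hj
    ext i
    simp only [Set.mem_setOf_eq, Finset.coe_filter, Finset.mem_range]
    have hc : ((L i : ℕ) : ℝ) < (8 : ℝ) ^ j ↔ L i < 8 ^ j := by exact_mod_cast Iff.rfl
    rw [hc]
    refine ⟨fun h => ⟨?_, h⟩, fun h => h.2⟩
    by_contra hcon
    have h1 : N ≤ i := by omega
    have h2 : 8 ^ J ≤ a (N + 3) := Nat.find_spec hex
    have h3 : a (N + 3) ≤ a (i + 3) := hm.monotone (by omega)
    have h4 : 8 ^ j ≤ 8 ^ J := Nat.pow_le_pow_right (by norm_num) (by
      have := Finset.mem_range.1 hj; omega)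
    have := hLge i
    omega
  have hlogmono : ∀ i, Real.log (a (i + 1)) ≤ Real.log (a (i + 3)) := fun i =>
    Real.log_le_log (by exact_mod_cast hp _) (by exact_mod_cast hm.monotone (by omega))
  calc ∑ j ∈ range (J + 1), ((1 : ℝ) / 2) ^ j *
        (({i : ℕ | ((L i : ℕ) : ℝ) < (8 : ℝ) ^ j}.ncard : ℕ) : ℝ)
      = ∑ j ∈ range (J + 1), ∑ i ∈ range N,
          (if L i < 8 ^ j then ((1 : ℝ) / 2) ^ j else 0) := by
        refine Finset.sum_congr rfl (fun j hj => ?_)
        rw [hset j hj, Set.ncard_coe_finset, ← Finset.sum_filter, Finset.sum_const,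
          nsmul_eq_mul, mul_comm]
    _ = ∑ i ∈ range N, ∑ j ∈ range (J + 1),
          (if L i < 8 ^ j then ((1 : ℝ) / 2) ^ j else 0) := Finset.sum_comm
    _ ≤ ∑ i ∈ range N, 4 * (Real.log (a (i + 3)) - Real.log (a (i + 1))) := by
        refine Finset.sum_le_sum (fun i _ => ?_)
        rw [← Finset.sum_filter]
        have := sum_half_le ((range (J + 1)).filter (fun j => L i < 8 ^ j))
          (2 * (Real.log (a (i + 3)) - Real.log (a (i + 1)))) (by linarith [hlogmono i])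
          (fun j hj => weight_le _ _ _ j (hp _) (hm (by omega)) (hm (by omega))
            (Finset.mem_filter.1 hj).2)
        linarith
    _ = 4 * (Real.log (a (N + 2)) + Real.log (a (N + 1)) - Real.log (a 2) - Real.log (a 1)) := by
        rw [← Finset.mul_sum, telescope (fun i => Real.log (a i)) N]
    _ ≤ 8 * (J * Real.log 8) := by
        have hl8 : 0 ≤ (J : ℝ) * Real.log 8 :=
          mul_nonneg (Nat.cast_nonneg _) (Real.log_nonneg (by norm_num))
        rcases Nat.eq_zero_or_pos N with h0 | hpos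
        · rw [h0]; simp only [zero_add]; linarith
        · have hlt : ¬ 8 ^ J ≤ a (N - 1 + 3) := Nat.find_min hex (by omega)
          have e : N - 1 + 3 = N + 2 := by omega
          rw [e] at hlt
          have b1 : Real.log (a (N + 2)) ≤ J * Real.log 8 := by
            rw [← Real.log_pow]
            exact Real.log_le_log (by exact_mod_cast hp _) (by exact_mod_cast (not_le.1 hlt).le)
          have b2 : Real.log (a (N + 1)) ≤ Real.log (a (N + 2)) :=
            Real.log_le_log (by exact_mod_cast hp _) (by exact_mod_cast hm.monotone (by omega))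
          have b3 : 0 ≤ Real.log (a 2) := Real.log_natCast_nonneg _
          have b4 : 0 ≤ Real.log (a 1) := Real.log_natCast_nonneg _
          linarith

lemma sum_tail (J : ℕ) : (J : ℝ) * J ≤ ∑ j ∈ Finset.Ico J (2 * J + 1), (j : ℝ) := by
  calc (J : ℝ) * J ≤ ((J + 1 : ℕ) : ℝ) * J := by
        gcongr; omega
    _ = ∑ _j ∈ Finset.Ico J (2 * J + 1), (J : ℝ) := by
        rw [Finset.sum_const, Nat.card_Ico, nsmul_eq_mul]
        congr 2; omega
    _ ≤ ∑ j ∈ Finset.Ico J (2 * J + 1), (j : ℝ) :=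
        Finset.sum_le_sum (fun j hj => by exact_mod_cast (Finset.mem_Ico.1 hj).1)

/-- The negation of the preceding statement: There is a strictly increasing sequence of positive integers and a constant c>0 such that, for all large x, the number of i with lcm of three consecutive terms a(i+1),a(i+2),a(i+3) below x exceeds c·x^(1/3)·ln x. -/
theorem result :
    ¬ (∃ a : ℕ → ℕ, StrictMono a ∧ (∀ n, 0 < a n) ∧
      ∃ c : ℝ, 0 < c ∧ ∃ X : ℝ, ∀ x : ℝ, X ≤ x →
        c * x ^ ((1 : ℝ) / 3) * Real.log x <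
          (({i : ℕ | ((Nat.lcm (Nat.lcm (a (i + 1)) (a (i + 2))) (a (i + 3)) : ℕ) : ℝ) < x}.ncard : ℕ) : ℝ)) := by
  rintro ⟨a, hm, hp, c, hc, X, hX⟩
  obtain ⟨J, hJ⟩ := exists_nat_gt (max X (16 / c))
  have hJX : X < J := lt_of_le_of_lt (le_max_left _ _) hJ
  have hJc : 16 / c < J := lt_of_le_of_lt (le_max_right _ _) hJ
  have hJpos : (0 : ℝ) < J := lt_trans (by positivity) hJc
  have hl8 : 0 < Real.log 8 := Real.log_pos (by norm_num)
  have hup := dyadic_upper a hm hp (2 * J)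
  have hlow : ∀ j ∈ Finset.Ico J (2 * J + 1), c * Real.log 8 * (j : ℝ) ≤ ((1 : ℝ) / 2) ^ j *
      (({i : ℕ | ((Nat.lcm (Nat.lcm (a (i + 1)) (a (i + 2))) (a (i + 3)) : ℕ) : ℝ) <
        (8 : ℝ) ^ j}.ncard : ℕ) : ℝ) := by
    intro j hj
    have hj1 := (Finset.mem_Ico.1 hj).1
    have hx : X ≤ (8 : ℝ) ^ j := by
      have h1 : (j : ℝ) ≤ (8 : ℝ) ^ j := by
        have : j < 8 ^ j := Nat.lt_pow_self (by norm_num)
        exact_mod_cast this.le
      have h2 : (J : ℝ) ≤ j := by exact_mod_cast hj1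
      linarith
    have h := hX _ hx
    have e1 : ((8 : ℝ) ^ j) ^ ((1 : ℝ) / 3) = 2 ^ j := by
      have : (8 : ℝ) ^ j = (2 ^ j) ^ 3 := by
        rw [← pow_mul, mul_comm j 3, pow_mul]; norm_num
      rw [this, one_div]
      exact_mod_cast Real.pow_rpow_inv_natCast (x := (2 : ℝ) ^ j) (n := 3) (by positivity)
        (by norm_num)
    rw [e1, Real.log_pow] at h
    have e2 : ((1 : ℝ) / 2) ^ j * 2 ^ j = 1 := by
      rw [← mul_pow]; norm_num
    have hq : (0 : ℝ) < (1 / 2) ^ j := by positivity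
    calc c * Real.log 8 * (j : ℝ) = (1 / 2) ^ j * (c * 2 ^ j * (j * Real.log 8)) := by
          linear_combination (-(c * Real.log 8 * j)) * e2
      _ ≤ _ := by gcongr
  have hsum := Finset.sum_le_sum hlow
  rw [← Finset.mul_sum] at hsum
  have hsub : Finset.Ico J (2 * J + 1) ⊆ range (2 * J + 1) := by
    intro j hj
    exact Finset.mem_range.2 (Finset.mem_Ico.1 hj).2
  have h2 := hsum.trans ((Finset.sum_le_sum_of_subset_of_nonneg hsub
    (fun _ _ _ => by positivity)).trans hup)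
  have h3 := sum_tail J
  have h4 : c * Real.log 8 * ((J : ℝ) * J) ≤ 8 * (((2 * J : ℕ) : ℝ) * Real.log 8) :=
    le_trans (by gcongr) h2
  push_cast at h4
  have h5 : 16 < c * J := by
    rw [div_lt_iff₀ hc] at hJc; linarith
  have h6 : 0 < Real.log 8 * J := by positivity
  nlinarith

end Pool.Agent.S17576
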