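import Pool.Statements.S17591
import Pool.Agent.H58.PD3

set_option autoImplicit false
open MeasureTheory Classical
open Pool Pool.MP_81c263_nt

namespace Pool.Agent.S17591

open Pool.Agent.H58.PD in
theorem ind_eq (x y z : ℝ) :
    ind x y z = if (x ≤ y ∧ x ≤ z ∧ z < y) ∨ (y < x ∧ (z < y ∨ x ≤ z)) then 1 else 0 := by
  unfold ind
  by_cases h1 : z < y <;> by_cases h2 : z < x <;> by_cases h3 : y < x <;>
    simp [h1, h2, h3, not_lt.1, not_le.2] <;> linarith

theorem rp {t p : ℝ} (ht : 0 ≤ t) (hp : 0 ≤ p) {n : ℕ} (hn : p ≤ n) : t ^ p ≤ 1 + t ^ n := by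
  rcases le_total t 1 with h | h
  · have := Real.rpow_le_one ht h hp
    have : 0 ≤ t ^ n := by positivity
    linarith
  · have := Real.rpow_le_rpow_of_exponent_le h hn
    rw [Real.rpow_natCast] at this
    linarith

open Pool.Agent.H58.PD in
/-- For all p≥1 and d≥2 there is C such that for every N some N-point set in [0,1)^d has periodic L_p discrepancy (count in periodic boxes minus N times volume, L_p over box corners) at most C(1+log N)^((d-1)/2). -/
theorem result :
    ∀ p : ℝ, 1 ≤ p → ∀ d : ℕ, 2 ≤ d → ∃ C : ℝ, 0 < C ∧ ∀ N : ℕ,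
      ∃ P : Finset (Fin d → ℝ), P.card = N ∧
        (∀ z ∈ P, ∀ i, z i ∈ Set.Ico (0 : ℝ) 1) ∧
        (∫ x in Set.pi Set.univ (fun _ : Fin d => Set.Ico (0 : ℝ) 1),
          ∫ y in Set.pi Set.univ (fun _ : Fin d => Set.Ico (0 : ℝ) 1),
            |((P.filter (fun z => ∀ i : Fin d,
                  (x i ≤ y i ∧ x i ≤ z i ∧ z i < y i) ∨
                  (y i < x i ∧ (z i < y i ∨ x i ≤ z i)))).card : ℝ)
              - (N : ℝ) * ∏ i : Fin d,
                  (if x i ≤ y i then y i - x i else 1 - x i + y i)| ^ p)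
          ^ (1 / p)
        ≤ C * (1 + Real.log (N : ℝ)) ^ (((d : ℝ) - 1) / 2) := by
  intro p hp d hd
  obtain ⟨D, rfl⟩ : ∃ D, d = D + 1 := ⟨d - 1, by omega⟩
  set r : ℕ := ⌈p⌉₊ with hr
  have hpr : p ≤ ((2 * r + 2 : ℕ) : ℝ) := by
    have := Nat.le_ceil p
    have : (0 : ℝ) ≤ r := by positivity
    push_cast; linarith
  set b : Fin D → ℕ := fun j => Nat.fermatNumber j with hb
  have hb2 : ∀ j, 2 ≤ b j := fun j => Nat.two_lt_fermatNumber j |>.le
  have hc : Pairwise (Function.onFun Nat.Coprime b) := fun i j h =>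
    Nat.coprime_fermatNumber_fermatNumber (fun h' => h (Fin.ext h'))
  set K : ℝ := 1 + ((3 * 2 ^ (2 * r + 2)) ^ D *
    (3 * ∏ j, (3 * b j : ℝ) + 2 + 2 * D) ^ 2) ^ (r + 1) with hK
  have hK0 : 0 < K := by positivity
  refine ⟨K ^ (1 / p) * 2 ^ ((D : ℝ) / 2), by positivity, fun N => ?_⟩
  set s := Nat.log 2 N + 1 with hs
  have hN : N ≤ 2 ^ s := (Nat.lt_pow_succ_log_self (by norm_num) N).le
  have : ∀ j, NeZero (b j ^ s) := fun j => ⟨(pow_pos (by have := hb2 j; omega) s).ne'⟩
  have hinj : ∀ a, Set.InjOn (pnt b s N a) (Finset.range N) := by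
    intro a n hn m _ h
    have h0 := congrFun h 0
    simp only [pnt, Fin.cons_zero] at h0
    have : (0 : ℝ) < N := by exact_mod_cast (by have := Finset.mem_range.1 hn; omega : 0 < N)
    rw [div_left_inj' this.ne'] at h0
    exact_mod_cast h0
  let P : (∀ j, ZMod (b j ^ s)) → Finset (Fin (D + 1) → ℝ) := fun a => (Finset.range N).image (pnt b s N a)
  set R : ℝ := ((s : ℝ) + 1) ^ ((D : ℝ) / 2) with hR
  have hR0 : 0 < R := by positivity
  let μ : Measure (Fin (D + 1) → ℝ) :=
    volume.restrict (Set.pi Set.univ (fun _ : Fin (D + 1) => Set.Ico (0 : ℝ) 1))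
  have : IsProbabilityMeasure μ := ⟨by simp [μ, volume_pi, Measure.pi_pi]⟩
  have hae : ∀ᵐ x ∂μ, ∀ i, 0 ≤ x i ∧ x i < 1 := by
    filter_upwards [ae_restrict_mem (MeasurableSet.univ_pi fun _ => measurableSet_Ico)] with x hx i
    exact hx i trivial
  obtain ⟨a, ha⟩ := avg (Ω := ∀ j, ZMod (b j ^ s)) μ (fun a x y =>
      |(((P a).filter (fun z => ∀ i : Fin (D + 1),
                  (x i ≤ y i ∧ x i ≤ z i ∧ z i < y i) ∨
                  (y i < x i ∧ (z i < y i ∨ x i ≤ z i)))).card : ℝ)
              - (N : ℝ) * ∏ i : Fin (D + 1),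
                  (if x i ≤ y i then y i - x i else 1 - x i + y i)| ^ p) (M := R ^ p * K)
    (fun a => by
      unfold Function.uncurry
      simp only [Finset.card_filter, Nat.cast_sum, Nat.cast_ite, Nat.cast_one, Nat.cast_zero]
      refine Measurable.pow_const (Measurable.abs (Measurable.sub ?_ (Measurable.const_mul ?_ _))) _
      · refine Finset.measurable_sum _ fun z _ => Measurable.ite ?_ measurable_const measurable_const
        measurability
      · refine Finset.measurable_prod _ fun i _ => Measurable.ite ?_ (by fun_prop) (by fun_prop)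
        exact measurableSet_le (by fun_prop) (by fun_prop))
    (fun a x y => by positivity)
    (by
      filter_upwards [hae] with x hx
      filter_upwards [hae] with y hy
      have e : ∀ a, (((P a).filter (fun z => ∀ i : Fin (D + 1),
                  (x i ≤ y i ∧ x i ≤ z i ∧ z i < y i) ∨
                  (y i < x i ∧ (z i < y i ∨ x i ≤ z i)))).card : ℝ)
              - (N : ℝ) * ∏ i : Fin (D + 1),
                  (if x i ≤ y i then y i - x i else 1 - x i + y i) = disc b s N a x y := by
        intro a
        unfold disc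
        congr 1
        · rw [Finset.card_filter, Finset.sum_image (hinj a)]
          push_cast
          refine Finset.sum_congr rfl fun n _ => ?_
          simp only [ind_eq, Finset.prod_ite_zero, Finset.prod_const_one, Finset.mem_univ, true_imp_iff]
        · congr 1
          refine Finset.prod_congr rfl fun i _ => ?_
          unfold vol
          by_cases h : x i ≤ y i
          · simp [h, not_lt.2 h]
          · simp only [h, not_le.1 h, if_true, if_false]; ring
      simp only [e]
      have h1 := moment r b hb2 hc s N hN x y hx hy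
      have h2 : R ^ (2 * r + 2) = (((s : ℝ) + 1) ^ D) ^ (r + 1) := by
        rw [hR, ← Real.rpow_natCast, ← Real.rpow_mul (by positivity), ← pow_mul, ← Real.rpow_natCast]
        congr 1; push_cast; ring
      have h3 : ∀ a, |disc b s N a x y| ^ p ≤
          R ^ p * (1 + disc b s N a x y ^ (2 * r + 2) / R ^ (2 * r + 2)) := by
        intro a
        have := rp (t := |disc b s N a x y| / R) (by positivity) (by linarith) hpr
        rw [Real.div_rpow (by positivity) hR0.le, div_le_iff₀ (by positivity), div_pow,
          Even.pow_abs ⟨r + 1, by ring⟩] at this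
        linarith
      refine (Finset.sum_le_sum fun a _ => h3 a).trans ?_
      rw [← Finset.mul_sum, Finset.sum_add_distrib, ← Finset.sum_div, mul_left_comm]
      gcongr
      rw [hK, mul_add]
      gcongr
      · simp
      · rw [div_le_iff₀ (by positivity), h2]
        refine h1.trans (le_of_eq ?_)
        rw [mul_assoc (Fintype.card _ : ℝ), ← mul_pow, mul_pow _ ((s : ℝ) + 1)]
        congr 2
        ring)
  refine ⟨P a, by rw [Finset.card_image_of_injOn (hinj a), Finset.card_range], ?_, ?_⟩
  · intro z hz i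
    obtain ⟨n, hn, rfl⟩ := Finset.mem_image.1 hz
    have hn' := Finset.mem_range.1 hn
    refine Fin.cases ?_ (fun j => ?_) i
    · simp only [pnt, Fin.cons_zero]
      refine ⟨by positivity, ?_⟩
      rw [div_lt_one (by exact_mod_cast (by omega : 0 < N))]
      exact_mod_cast hn'
    · simp only [pnt, Fin.cons_succ]
      have := hb2 j
      refine ⟨by positivity, ?_⟩
      rw [div_lt_one (by positivity)]
      exact_mod_cast rev_lt (by omega) s _
  · refine (Real.rpow_le_rpow (integral_nonneg fun x => integral_nonneg fun y => by positivity) ha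
      (by positivity)).trans ?_
    rw [Real.mul_rpow (by positivity) hK0.le, ← Real.rpow_mul hR0.le, mul_one_div_cancel (by linarith),
      Real.rpow_one, mul_comm, mul_assoc]
    have hl : 0 ≤ Real.log N := Real.log_natCast_nonneg N
    gcongr
    rw [show (((D + 1 : ℕ) : ℝ) - 1) / 2 = (D : ℝ) / 2 by push_cast; ring,
      ← Real.mul_rpow (by norm_num) (by positivity), hR]
    gcongr
    have h2 : (Nat.log 2 N : ℝ) ≤ 2 * Real.log N := by
      rcases Nat.eq_zero_or_pos N with h | h
      · simp [h]
      have h3 : (2 : ℝ) ^ Nat.log 2 N ≤ N := by exact_mod_cast Nat.pow_log_le_self 2 h.ne'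
      have h4 := Real.log_le_log (by positivity) h3
      rw [Real.log_pow] at h4
      have := Real.log_two_gt_d9
      have : (0 : ℝ) ≤ Nat.log 2 N := by positivity
      nlinarith
    rw [hs]; push_cast; linarith

end Pool.Agent.S17591
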