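import Pool.Statements.S17669
import Pool.Agent.H53.RepC

set_option autoImplicit false
open Pool Pool.MP_885588_nt

namespace Pool.Agent.S17669

open Finset Pool.Agent.H53.RepA Pool.Agent.H53.RepC

/-- For all k ≥ 2, i in {1,2,3}, ε > 0 and infinite A ⊆ ℕ: if the number of k-term representations of n from A (ordered, non-decreasing, or strictly increasing for i = 1, 2, 3) is eventually non-decreasing in n, then #{a in A : 1 ≤ a ≤ n} is not O(n^(2/k − ε)). -/
theorem result :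
    ∀ k : ℕ, 2 ≤ k → ∀ i ∈ ({1, 2, 3} : Finset ℕ), ∀ ε : ℝ, 0 < ε →
      ∀ A : Set ℕ, A.Infinite →
        (∃ n₀ : ℕ, ∀ n : ℕ, n₀ ≤ n →
          Set.ncard {a : Fin k → ℕ | (∀ j, a j ∈ A) ∧ (∑ j, a j) = n ∧
              (i = 2 → Monotone a) ∧ (i = 3 → StrictMono a)} ≤
          Set.ncard {a : Fin k → ℕ | (∀ j, a j ∈ A) ∧ (∑ j, a j) = n + 1 ∧
              (i = 2 → Monotone a) ∧ (i = 3 → StrictMono a)}) →
        ¬ Asymptotics.IsBigO Filter.atTop
            (fun n : ℕ => ((A ∩ Set.Icc 1 n).ncard : ℝ))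
            (fun n : ℕ => (n : ℝ) ^ ((2 : ℝ) / (k : ℝ) - ε)) := by
  intro k hk i hi ε hε A hA ⟨n₀, hm⟩ hO
  obtain ⟨R, hkey, hR, e⟩ : ∃ R : ℕ → ℕ → Prop, Key R k ∧ (∀ x y, x < y → R x y) ∧
      ∀ a : Fin k → ℕ, ((i = 2 → Monotone a) ∧ (i = 3 → StrictMono a)) ↔
        ∀ s t, s < t → R (a s) (a t) := by
    simp only [mem_insert, mem_singleton] at hi
    rcases hi with rfl | rfl | rfl
    · exact ⟨_, key_true k, by simp, by simp⟩
    · exact ⟨_, key_le k, fun _ _ h => h.le, fun a => by simp [monotone_iff_forall_lt]⟩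
    · exact ⟨_, key_lt k, fun _ _ h => h, fun a => by simp [StrictMono]⟩
  obtain ⟨D, hD, hO⟩ := hO.exists_nonneg
  obtain ⟨n₁, h1⟩ := Filter.eventually_atTop.mp hO.bound
  have hk' : (0 : ℝ) < 2 / k := by positivity
  refine main R k hk hkey hR A hA _ (fun N n hn => ?_) n₀ hm (max (2 / k - ε) 0) (D + n₁ + 2)
    (le_max_right _ _) (max_lt (by linarith) hk') (by positivity) fun n => ?_
  · rw [← Set.ncard_coe_finset]
    congr 1
    ext a
    simp only [Set.mem_setOf_eq, e, coe_filter, mem_tup, mem_BB]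
    constructor
    · rintro ⟨a1, a2, a3⟩
      exact ⟨⟨fun j => ⟨(single_le_sum (fun _ _ => Nat.zero_le _) (mem_univ j)).trans
        (a2.le.trans hn), a1 j⟩, a3⟩, a2⟩
    · rintro ⟨⟨a1, a2⟩, a3⟩
      exact ⟨fun j => (a1 j).2, a3, a2⟩
  · have a : 1 ≤ ((n : ℝ) + 1) ^ max (2 / k - ε) 0 :=
      Real.one_le_rpow (by linarith [(Nat.cast_nonneg n : (0 : ℝ) ≤ n)]) (le_max_right _ _)
    rcases le_or_gt n n₁ with h2 | h2
    · have : ((BB A n).card : ℝ) ≤ n₁ + 1 := by exact_mod_cast (card_BB A n).trans (by omega)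
      nlinarith [(Nat.cast_nonneg n₁ : (0 : ℝ) ≤ n₁)]
    have b := h1 n h2.le
    have n1 : (1 : ℝ) ≤ n := by exact_mod_cast (by omega : 1 ≤ n)
    rw [Real.norm_natCast, Real.norm_of_nonneg (by positivity)] at b
    have c : (n : ℝ) ^ (2 / k - ε) ≤ ((n : ℝ) + 1) ^ max (2 / k - ε) 0 :=
      (Real.rpow_le_rpow_of_exponent_le n1 (le_max_left _ _)).trans
        (Real.rpow_le_rpow (by linarith) (by linarith) (le_max_right _ _))
    have d : (BB A n).card ≤ (A ∩ Set.Icc 1 n).ncard + 1 := by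
      rw [← Set.ncard_coe_finset]
      refine (Set.ncard_le_ncard (t := insert 0 (A ∩ Set.Icc 1 n)) (fun x hx => ?_)
        (((Set.finite_Icc 1 n).inter_of_right A).insert 0)).trans (Set.ncard_insert_le _ _)
      have := mem_BB.mp hx
      rcases Nat.eq_zero_or_pos x with h | h
      exacts [Or.inl h, Or.inr ⟨this.2, h, this.1⟩]
    have d' : ((BB A n).card : ℝ) ≤ (A ∩ Set.Icc 1 n).ncard + 1 := by exact_mod_cast d
    nlinarith [mul_le_mul_of_nonneg_left c hD, (Nat.cast_nonneg n₁ : (0 : ℝ) ≤ n₁)]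

end Pool.Agent.S17669
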