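import Pool.Statements.S17685
import Pool.Agent.H59.MT15

set_option autoImplicit false
open Pool Pool.MP_89da58_nt

namespace Pool.Agent.S17685

/-- For every colouring of the primes with finitely many colours, some colour class E has E − E syndetic in the integers: there is L such that every integer window [n, n+L] contains a difference p − q of two primes of that colour. -/
theorem result :
    ∀ k : ℕ, ∀ c : ℕ → Fin k, ∃ i : Fin k, ∃ L : ℕ, ∀ n : ℤ,
      ∃ p q : ℕ, p.Prime ∧ q.Prime ∧ c p = i ∧ c q = i ∧
        n ≤ (p : ℤ) - (q : ℤ) ∧ (p : ℤ) - (q : ℤ) ≤ n + (L : ℤ) := by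
  intro k c
  by_contra h
  refine H59.MT.syn k c fun i L => ?_
  simp only [not_exists, not_forall, not_and, not_le] at h
  obtain ⟨n, hn⟩ := h i (2 * L)
  rcases le_total 0 (n + L) with a | a
  · refine ⟨(n + L).toNat, fun z h1 h2 p hp hq e1 e2 => ?_⟩
    have := hn (p + z) p hq hp e2 e1 (by omega)
    omega
  · refine ⟨(-(n + L)).toNat, fun z h1 h2 p hp hq e1 e2 => ?_⟩
    have := hn p (p + z) hp hq e1 e2 (by omega)
    omega

end Pool.Agent.S17685
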