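import Pool.Statements.S17720
import Pool.Agent.H55.Gauss4

set_option autoImplicit false
open Pool Pool.MP_8d5d9c_nt

namespace Pool.Agent.S17720

/-- The negation of the preceding statement: If x is continued-fraction normal (its Gauss-map orbit is equidistributed for the Gauss measure) and q, r are irrational roots of nonzero integer quadratics with q nonzero, then q times x plus r is also continued-fraction normal. -/
theorem result :
    ¬ (∀ x q r : ℝ,
      (Irrational x ∧ ∀ t : ℝ, 0 ≤ t → t ≤ 1 →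
        Filter.Tendsto
          (fun N : ℕ =>
            (((Finset.range N).filter
              (fun n => (fun y : ℝ => Int.fract (1 / y))^[n] (Int.fract x) < t)).card : ℝ) / (N : ℝ))
          Filter.atTop (nhds (Real.log (1 + t) / Real.log 2))) →
      (Irrational q ∧ ∃ a b c : ℤ, (a ≠ 0 ∨ b ≠ 0 ∨ c ≠ 0) ∧
        (a : ℝ) * q ^ 2 + (b : ℝ) * q + (c : ℝ) = 0) →
      (Irrational r ∧ ∃ a b c : ℤ, (a ≠ 0 ∨ b ≠ 0 ∨ c ≠ 0) ∧
        (a : ℝ) * r ^ 2 + (b : ℝ) * r + (c : ℝ) = 0) →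
      q ≠ 0 →
      (Irrational (q * x + r) ∧ ∀ t : ℝ, 0 ≤ t → t ≤ 1 →
        Filter.Tendsto
          (fun N : ℕ =>
            (((Finset.range N).filter
              (fun n => (fun y : ℝ => Int.fract (1 / y))^[n] (Int.fract (q * x + r)) < t)).card : ℝ) / (N : ℝ))
          Filter.atTop (nhds (Real.log (1 + t) / Real.log 2)))) := by
  intro h
  have hs2 : Irrational (Real.sqrt 2) := irrational_sqrt_two
  have hq : 0 < Real.sqrt 2 := by positivity
  have hirr : ∀ β κ : ℕ, 1 ≤ κ → Irrational (Real.sqrt 2 * (β / κ) + Real.sqrt 2) := by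
    intro β κ hκ
    have hne : ((β : ℚ) / κ + 1) ≠ 0 := by positivity
    have := hs2.mul_ratCast hne
    convert this using 1
    push_cast; ring
  obtain ⟨x, hx, hxi, hn, hfr⟩ := Pool.Agent.H55.Gauss.main hq hirr
  have hquad : Irrational (Real.sqrt 2) ∧ ∃ a b c : ℤ, (a ≠ 0 ∨ b ≠ 0 ∨ c ≠ 0) ∧
      (a : ℝ) * Real.sqrt 2 ^ 2 + (b : ℝ) * Real.sqrt 2 + (c : ℝ) = 0 :=
    ⟨hs2, 1, 0, -2, Or.inl one_ne_zero, by
      rw [Real.sq_sqrt (by norm_num)]; norm_num⟩
  have hfx : Int.fract x = x := Int.fract_eq_self.2 ⟨hx.1.le, hx.2⟩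
  have key := (h x (Real.sqrt 2) (Real.sqrt 2) ⟨hxi, fun t h0 h1 => by
    have := hn t
    unfold Pool.Agent.H55.Gauss.Fc at this
    rw [min_eq_left h1, max_eq_right h0] at this
    rw [hfx]
    exact this⟩ hquad hquad hq.ne').2
  have k1 := key 0.55 (by norm_num) (by norm_num)
  have k2 := key 0.7 (by norm_num) (by norm_num)
  have hlt : Real.log (1 + 0.7) / Real.log 2 - Real.log (1 + 0.55) / Real.log 2 < 1 / 6 := by
    have l2 := Real.log_two_gt_d9
    rw [← sub_div, ← Real.log_div (by norm_num) (by norm_num), div_lt_iff₀ (by linarith)]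
    have := Real.log_le_sub_one_of_pos (show (0 : ℝ) < (1 + 0.7) / (1 + 0.55) by norm_num)
    norm_num at this l2 ⊢
    linarith
  have hev := (k2.sub k1).eventually (gt_mem_nhds hlt)
  obtain ⟨n, hn⟩ := Filter.eventually_atTop.1 hev
  obtain ⟨N, hN1, hN2⟩ := hfr (n + 1)
  have h3 := hn N (by omega)
  have hN0 : (0 : ℝ) < N := by exact_mod_cast (by omega : 0 < N)
  change (Pool.Agent.H55.Gauss.cnt (Int.fract (Real.sqrt 2 * x + Real.sqrt 2)) 0.7 N : ℝ) / N -
    (Pool.Agent.H55.Gauss.cnt (Int.fract (Real.sqrt 2 * x + Real.sqrt 2)) 0.55 N : ℝ) / N < 1 / 6 at h3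
  rw [← sub_div, div_lt_iff₀ hN0] at h3
  have h4 : (6 * Pool.Agent.H55.Gauss.cnt (Int.fract (Real.sqrt 2 * x + Real.sqrt 2)) 0.55 N + N : ℝ) ≤
      6 * Pool.Agent.H55.Gauss.cnt (Int.fract (Real.sqrt 2 * x + Real.sqrt 2)) 0.7 N := by
    exact_mod_cast hN2
  linarith

end Pool.Agent.S17720
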