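import Pool.Statements.S17740
import Pool.Agent.H52.Rough

set_option autoImplicit false
open N435e839e
open Pool Pool.MP_8f0c89_nt

namespace Pool.Agent.S17740

lemma inv (n t : ℕ) : (∀ a ∈ greedyPrefix true n t, a ≤ t) ∧
    ∀ a ∈ greedyPrefix true n t, ∀ b ∈ greedyPrefix true n t, 0 < a → a < b →
      Nat.Coprime (n - a) (n - b) := by
  induction t with
  | zero => simp [greedyPrefix]
  | succ t ih =>
    simp only [greedyPrefix]
    split_ifs with h
    · constructor
      · intro a ha
        rcases Finset.mem_insert.1 ha with rfl | ha
        · exact le_rfl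
        · exact (ih.1 a ha).trans (by omega)
      · intro a ha b hb h0 hab
        rcases Finset.mem_insert.1 ha with rfl | ha
        · rcases Finset.mem_insert.1 hb with rfl | hb
          · omega
          · have := ih.1 b hb
            omega
        · rcases Finset.mem_insert.1 hb with rfl | hb
          · rcases h with h | h
            · omega
            · exact (h a ha).symm
          · exact ih.2 a ha b hb h0 hab
    · exact ⟨fun a ha => (ih.1 a ha).trans (by omega), ih.2⟩

theorem result :
    ¬ (Filter.Tendsto (properSum true) Filter.atTop Filter.atTop) := by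
  classical
  refine Pool.Agent.H52.Rough.not_tendsto _ (fun n => (selected true n).filter (Proper n))
    (fun n => by unfold properSum; congr) ?_ ?_
  · intro n a ha
    obtain ⟨h1, h2⟩ := Finset.mem_filter.1 ha
    exact ⟨(Finset.mem_filter.1 h1).2.2, h2⟩
  · intro n a ha b hb hne
    obtain ⟨a1, a2, _⟩ := Finset.mem_filter.1 (Finset.mem_filter.1 ha).1
    obtain ⟨b1, b2, _⟩ := Finset.mem_filter.1 (Finset.mem_filter.1 hb).1
    rcases lt_or_gt_of_ne hne with h | h
    · exact (inv n _).2 a a1 b b1 a2 h
    · exact ((inv n _).2 b b1 a a1 b2 h).symm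

end Pool.Agent.S17740
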