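import Pool.Statements.S17783
import Pool.Agent.H59.EG7

set_option autoImplicit false
open Pool Pool.MP_923662_nt

namespace Pool.Agent.S17783

/-- There is ε>0 such that for infinitely many N some subset A of {1,…,N} with no distinct a,b having a+b dividing ab has at least (1/2+ε)N elements. -/
theorem result :
    ∃ ε : ℝ, ε > 0 ∧ ∀ M : ℕ, ∃ N : ℕ, M ≤ N ∧
      ∃ A : Finset ℕ, A ⊆ Finset.Icc 1 N ∧
        (∀ a ∈ A, ∀ b ∈ A, a ≠ b → ¬ (a + b ∣ a * b)) ∧
        ((1 : ℝ) / 2 + ε) * (N : ℝ) ≤ (A.card : ℝ) := by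
  exact Pool.Agent.H59.EG.main2

end Pool.Agent.S17783
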