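import Pool.Statements.S17839
import Pool.Agent.H53.AffC

set_option autoImplicit false
open MeasureTheory Filter
open Pool Pool.MP_97775c_nt

namespace Pool.Agent.S17839

/-- For every affine subspace of R^n of dimension at least 1 and every nonnegative non-increasing psi with sum of psi(q)^n divergent, almost every point x of the subspace has all coordinates of qx within psi(q) of integers for infinitely many q. -/
theorem result :
    ∀ (n d : ℕ), 1 ≤ d →
      ∀ (a : Fin n → ℝ) (A : (Fin d → ℝ) →ₗ[ℝ] (Fin n → ℝ)),
        Function.Injective A →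
        ∀ ψ : ℕ → ℝ, (∀ q, 0 ≤ ψ q) → Antitone ψ →
          ¬ Summable (fun q : ℕ => ψ q ^ n) →
          ∀ᵐ t ∂(volume : Measure (Fin d → ℝ)),
            ∃ᶠ q : ℕ in atTop, ∀ i : Fin n,
              |(q : ℝ) * (a i + A t i) - (round ((q : ℝ) * (a i + A t i)) : ℝ)| < ψ q := by
  intro n d hd a A hA ψ h0 hanti hdiv
  obtain ⟨e, rfl⟩ : ∃ e, d = e + 1 := ⟨d - 1, by omega⟩
  set P : (Fin (e + 1) → ℝ) → Prop := fun t => ∃ᶠ q : ℕ in atTop, ∀ i : Fin n,
    |(q : ℝ) * (a i + A t i) - (round ((q : ℝ) * (a i + A t i)) : ℝ)| < ψ q with hP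
  have hAc : Continuous A := A.continuous_of_finiteDimensional
  have hPm : Measurable P := by
    simp only [hP, frequently_atTop]
    refine Measurable.forall fun N => Measurable.exists fun q => measurable_const.and
      (Measurable.forall fun i => ?_)
    have h1 : Measurable fun t : Fin (e + 1) → ℝ => (q : ℝ) * (a i + A t i) := by fun_prop
    have h2 : Measurable fun x : ℝ => (round x : ℝ) := by
      simp only [round_eq]
      exact measurable_from_top.comp (Int.measurable_floor.comp (by fun_prop))
    exact Measurable.lt (continuous_abs.measurable.comp (h1.sub (h2.comp h1))) measurable_const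
  set E := MeasurableEquiv.piFinSuccAbove (fun _ : Fin (e + 1) => ℝ) 0 with hE
  have hmp : MeasurePreserving E := volume_preserving_piFinSuccAbove _ 0
  have hm : MeasurableSet {z : ℝ × (Fin e → ℝ) | P (E.symm z)} :=
    measurableSet_setOf.2 (hPm.comp E.symm.measurable)
  have h1 : ∀ᵐ z : ℝ × (Fin e → ℝ), P (E.symm z) := by
    rw [Measure.volume_eq_prod, Measure.ae_prod_iff_ae_ae hm,
      Measure.ae_ae_comm (p := fun x y => P (E.symm (x, y))) hm]
    refine Eventually.of_forall fun u => ?_
    have hw : A (Pi.single 0 1) ≠ 0 := fun h => by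
      have := congrFun (hA (h.trans A.map_zero.symm)) 0
      simp at this
    filter_upwards [Pool.Agent.H53.Aff.line n (a + A (E.symm (0, u))) _ hw ψ h0 hanti hdiv] with s hs
    have e1 : E.symm (s, u) = E.symm (0, u) + s • Pi.single 0 1 := by
      funext i
      refine Fin.cases ?_ (fun j => ?_) i <;> simp [hE, MeasurableEquiv.piFinSuccAbove]
    simp only [hP, e1, map_add, map_smul, Pi.add_apply, Pi.smul_apply, smul_eq_mul, ← add_assoc] at hs ⊢
    exact hs
  filter_upwards [hmp.quasiMeasurePreserving.ae h1] with t ht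
  simpa using ht

end Pool.Agent.S17839
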