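import Pool.Statements.S17870
import Pool.Agent.H52.EMStep

set_option autoImplicit false
open Pool Pool.MP_9b3484_nt

namespace Pool.Agent.S17870

open Pool.Agent.H52.SUnit Pool.Agent.H52.EM in
lemma exists_seq : ∃ (ξ : ℝ) (A Q : ℕ → ℕ), Q 0 = 2 ∧ ∀ k, Sm (A k) ∧ Sm (Q (k + 1)) ∧
    Nat.Coprime (A k) (Q (k + 1)) ∧ 2 * Q k < Q (k + 1) ∧
    |ξ - A k / Q (k + 1)| ≤ 2 / (Q (k + 1) : ℝ) ^ 3 ∧
    ∀ q : ℕ, Q k ≤ q → q < Q (k + 1) → ∀ p : ℤ, 1 / (q : ℝ) ^ 300 ≤ |ξ - p / q| := by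
  choose A D h using step
  let S := {s : ℕ × ℝ // 2 ≤ s.1 ∧ 1 ≤ s.2 ∧ s.2 + 1 / (s.1 : ℝ) ^ 3 ≤ 2}
  let fA : S → ℕ := fun s => A s.1.1 s.2.1 s.1.2 s.2.2.1 s.2.2.2
  let fD : S → ℕ := fun s => D s.1.1 s.2.1 s.1.2 s.2.2.1 s.2.2.2
  have H := fun s : S => h s.1.1 s.2.1 s.1.2 s.2.2.1 s.2.2.2
  let nx : S → S := fun s => ⟨(fD s, (fA s : ℝ) / fD s + 1 / (fD s : ℝ) ^ 3), by
    obtain ⟨-, -, -, h1, h2, h3, -⟩ := H s
    obtain ⟨g1, g2, g3⟩ := s.2
    have : 0 ≤ 1 / (fD s : ℝ) ^ 3 := by positivity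
    exact ⟨by show 2 ≤ fD s; change 2 * s.1.1 < fD s at h1; omega,
      by show 1 ≤ (fA s : ℝ) / fD s + _; change _ ≤ (fA s : ℝ) / fD s at h2; linarith,
      h3.trans g3⟩⟩
  let s : ℕ → S := fun k => nx^[k] ⟨(2, 1), le_rfl, le_rfl, by norm_num⟩
  have hs : ∀ k, s (k + 1) = nx (s k) := fun k => Function.iterate_succ_apply' _ _ _
  have e1 : ∀ k, (s (k + 1)).1.1 = fD (s k) := fun k => by rw [hs]
  have e2 : ∀ k, (s (k + 1)).1.2 = (fA (s k) : ℝ) / fD (s k) + 1 / (fD (s k) : ℝ) ^ 3 :=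
    fun k => by rw [hs]
  have m1 : Monotone fun k => (s k).1.2 := monotone_nat_of_le_succ fun k => by
    have h2 : (s k).1.2 ≤ (fA (s k) : ℝ) / fD (s k) := (H (s k)).2.2.2.2.1
    have : 0 ≤ 1 / (fD (s k) : ℝ) ^ 3 := by positivity
    rw [e2]; linarith
  have m2 : Antitone fun k => (s k).1.2 + 1 / ((s k).1.1 : ℝ) ^ 3 :=
    antitone_nat_of_succ_le fun k => by
      rw [e1, e2]; exact (H (s k)).2.2.2.2.2.1
  have m3 : ∀ j k, (s j).1.2 ≤ (s k).1.2 + 1 / ((s k).1.1 : ℝ) ^ 3 := fun j k => by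
    have h1 : (s j).1.2 ≤ (s (max j k)).1.2 := m1 (le_max_left j k)
    have h2 : (s (max j k)).1.2 + 1 / ((s (max j k)).1.1 : ℝ) ^ 3 ≤
      (s k).1.2 + 1 / ((s k).1.1 : ℝ) ^ 3 := m2 (le_max_right j k)
    have : 0 ≤ 1 / ((s (max j k)).1.1 : ℝ) ^ 3 := by positivity
    linarith
  have bd : BddAbove (Set.range fun k => (s k).1.2) := ⟨_, by rintro _ ⟨j, rfl⟩; exact m3 j 0⟩
  refine ⟨⨆ k, (s k).1.2, fun k => fA (s k), fun k => (s k).1.1, rfl, fun k => ?_⟩
  have lo := le_ciSup bd (k + 1)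
  have hi := ciSup_le fun j => m3 j (k + 1)
  simp only [e1, e2] at lo hi ⊢
  obtain ⟨h1, h2, h3, h4, -, -, h5⟩ := H (s k)
  have cl : |(⨆ k, (s k).1.2) - fA (s k) / fD (s k)| ≤ 2 / (fD (s k) : ℝ) ^ 3 := by
    have : 0 ≤ 1 / (fD (s k) : ℝ) ^ 3 := by positivity
    rw [show 2 / (fD (s k) : ℝ) ^ 3 = 2 * (1 / (fD (s k) : ℝ) ^ 3) by ring, abs_le]
    constructor <;> linarith
  exact ⟨h1, h2, h3, h4, cl, h5 _ cl⟩

/-- The negation of the preceding statement: If ξ is irrational and some bound B is such that, for infinitely many n, every prime dividing the n-th convergent numerator or denominator of ξ is at most B, then ξ is a Liouville number. -/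
theorem result :
    ¬ (∀ ξ : ℝ, Irrational ξ →
      (∃ B : ℕ, ∀ N : ℕ, ∃ n ≥ N, ∃ a b : ℤ,
        (a : ℝ) = (GenContFract.of ξ).nums n ∧
        (b : ℝ) = (GenContFract.of ξ).dens n ∧
        ∀ p : ℕ, p.Prime → (p ∣ a.natAbs ∨ p ∣ b.natAbs) → p ≤ B) →
      Liouville ξ) := by
  intro H
  obtain ⟨ξ, A, Q, h0, h⟩ := exists_seq
  have big : ∀ k, k + 2 ≤ Q k := by
    intro k
    induction k with
    | zero => omega
    | succ k ih => have := (h k).2.2.2.1; omega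
  have far : ∀ q : ℕ, 2 ≤ q → ∀ p : ℤ, 1 / (q : ℝ) ^ 300 ≤ |ξ - p / q| := by
    intro q hq
    have : ∀ k, q < Q k → ∀ p : ℤ, 1 / (q : ℝ) ^ 300 ≤ |ξ - p / q| := by
      intro k
      induction k with
      | zero => intro h1; omega
      | succ k ih =>
        intro h1
        rcases Nat.lt_or_ge q (Q k) with h2 | h2
        · exact ih h2
        · exact (h k).2.2.2.2.2 q h2 h1
    exact this q (by have := big q; omega)
  have irr : Irrational ξ := by
    rintro ⟨r, rfl⟩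
    have h1 := far (2 * r.den) (by have := r.den_pos; omega) (2 * r.num)
    push_cast at h1
    rw [mul_div_mul_left _ _ (by norm_num), ← Rat.cast_def, sub_self, abs_zero] at h1
    have : (0 : ℝ) < r.den := by exact_mod_cast r.den_pos
    exact absurd h1 (not_le.2 (by positivity))
  obtain ⟨a, b, h1, -, h2⟩ := H ξ irr ⟨5, fun N => by
    obtain ⟨k, hk⟩ := exists_nat_gt ((GenContFract.of ξ).dens N)
    obtain ⟨s1, s2, s3, s4, s5, -⟩ := h k
    have D4 : (4 : ℝ) < Q (k + 1) := by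
      have := big k
      exact_mod_cast (show 4 < Q (k + 1) by omega)
    obtain ⟨n, e1, e2⟩ := Pool.Agent.H52.SUnit.conv_of_close ξ irr _ _ s2.1 s3 (s5.trans_lt (by
      rw [div_lt_div_iff₀ (by positivity) (by positivity)]
      have : (0 : ℝ) < (Q (k + 1) : ℝ) ^ 2 := by positivity
      nlinarith))
    refine ⟨n, ?_, A k, Q (k + 1), by exact_mod_cast e1, by exact_mod_cast e2, fun p hp hd => ?_⟩
    · by_contra hn
      have mono : Monotone fun n => (GenContFract.of ξ).dens n :=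
        monotone_nat_of_le_succ fun _ => GenContFract.of_den_mono
      have h3 : (GenContFract.of ξ).dens n ≤ (GenContFract.of ξ).dens N := mono (by omega)
      have h4 : (k : ℝ) ≤ Q (k + 1) := by
        have := big (k + 1)
        exact_mod_cast (show k ≤ Q (k + 1) by omega)
      linarith
    · simp only [Int.natAbs_natCast] at hd
      exact hd.elim (s1.2 p hp) (s2.2 p hp)⟩ 300
  obtain ⟨q, rfl⟩ := Int.eq_ofNat_of_zero_le (show 0 ≤ b by omega)
  have := far q (by omega) a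
  push_cast at h2
  linarith

end Pool.Agent.S17870
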