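import Pool.Statements.S17899
import Pool.Agent.H49.E122

set_option autoImplicit false
open Filter Topology
open Pool Pool.MP_9d1108_nt

namespace Pool.Agent.S17899

open Pool.Agent.H49.E122

theorem result :
    ∃ F : ℕ → ℝ, Tendsto F atTop atTop ∧
      (∃ A : Set ℕ,
        Tendsto (fun N : ℕ => ((A ∩ Set.Iio N).ncard : ℝ) / (N : ℝ)) atTop (𝓝 1) ∧
        Tendsto (fun n : ℕ => F n / (Nat.totient n : ℝ)) (atTop ⊓ 𝓟 A) (𝓝 0)) ∧
      ¬ (∀ C : ℝ, Set.Infinite {x : ℕ |
          ((Set.ncard {n : ℕ | (x : ℝ) < (n : ℝ) + (Nat.totient n : ℝ) ∧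
              (n : ℝ) + (Nat.totient n : ℝ) < (x : ℝ) + F x} : ℕ) : ℝ) > C * F x}) := by
  classical
  have hlog : Tendsto (fun n => Real.log (K n) / 4) atTop atTop :=
    (Real.tendsto_log_atTop.comp K_tendsto_real).atTop_div_const (by norm_num)
  refine ⟨fun x => (x : ℝ) / K x, F_tendsto,
    ⟨{n | tail 0 n ≤ Real.log (K n) / 4}, ?_, ?_⟩, ?_⟩
  · set A : Set ℕ := {n | tail 0 n ≤ Real.log (K n) / 4} with hA
    have hcard : ∀ N : ℕ, ((A ∩ Set.Iio N).ncard : ℝ) =
        N - (((Finset.range N).filter (fun n => n ∉ A)).card : ℝ) := by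
      intro N
      have h1 : A ∩ Set.Iio N = ((Finset.range N).filter (fun n => n ∈ A) : Finset ℕ) := by
        ext n
        simp [and_comm]
      have h2 := Finset.card_filter_add_card_filter_not (s := Finset.range N) (fun n => n ∈ A)
      rw [Finset.card_range] at h2
      rw [h1, Set.ncard_coe_finset]
      have h3 : (((Finset.range N).filter (fun n => n ∈ A)).card : ℝ) +
        (((Finset.range N).filter (fun n => n ∉ A)).card : ℝ) = N := by exact_mod_cast h2
      linarith
    have hbad : Tendsto (fun N : ℕ =>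
        (((Finset.range N).filter (fun n => n ∉ A)).card : ℝ) / N) atTop (𝓝 0) := by
      rw [Metric.tendsto_atTop]
      intro ε hε
      obtain ⟨N₀, hN₀⟩ := eventually_atTop.1 (hlog.eventually_ge_atTop (5 / ε))
      obtain ⟨N₁, hN₁⟩ := eventually_atTop.1
        ((tendsto_const_div_atTop_nhds_zero_nat ((N₀ + 1 : ℕ) : ℝ)).eventually
          (gt_mem_nhds (show (0 : ℝ) < ε / 2 by positivity)))
      refine ⟨N₁ + 1, fun N hN => ?_⟩
      have hNpos : (0 : ℝ) < N := by exact_mod_cast (by omega : 0 < N)
      rw [Real.dist_eq, sub_zero, abs_of_nonneg (by positivity)]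
      have hsub : (Finset.range N).filter (fun n => n ∉ A) ⊆ Finset.range (N₀ + 1) ∪
          (Finset.Ioc 0 N).filter (fun n => 5 / ε < tail 0 n) := by
        intro n hn
        obtain ⟨hn1, hn2⟩ := Finset.mem_filter.1 hn
        rw [Finset.mem_range] at hn1
        by_cases hle : n < N₀ + 1
        · exact Finset.mem_union_left _ (Finset.mem_range.2 hle)
        · refine Finset.mem_union_right _ (Finset.mem_filter.2 ⟨Finset.mem_Ioc.2 ⟨by omega, by omega⟩, ?_⟩)
          have h1 := hN₀ n (by omega)
          simp only [hA, Set.mem_ofPred_eq, not_le] at hn2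
          linarith
      have h1 := (Finset.card_le_card hsub).trans (Finset.card_union_le _ _)
      rw [Finset.card_range] at h1
      have h2 := card_tail_gt 0 N (5 / ε) (by positivity)
      have h3 : (((Finset.range N).filter (fun n => n ∉ A)).card : ℝ) ≤ ((N₀ + 1 : ℕ) : ℝ) +
          (((Finset.Ioc 0 N).filter (fun n => 5 / ε < tail 0 n)).card : ℝ) := by exact_mod_cast h1
      have h4 := hN₁ N (by omega)
      have h5 : 2 * (N : ℝ) / ((0 : ℕ) + 1) / (5 / ε) = N * (2 * ε / 5) := by
        push_cast; field_simp; ring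
      rw [h5] at h2
      rw [div_lt_iff₀ hNpos] at h4 ⊢
      nlinarith
    have hlim : Tendsto (fun N : ℕ =>
        1 - (((Finset.range N).filter (fun n => n ∉ A)).card : ℝ) / N) atTop (𝓝 (1 - 0)) :=
      tendsto_const_nhds.sub hbad
    rw [sub_zero] at hlim
    refine hlim.congr' ?_
    filter_upwards [eventually_gt_atTop 0] with N hN
    have hNpos : (0 : ℝ) < N := by exact_mod_cast hN
    rw [hcard]
    field_simp
  · have hlim : Tendsto (fun n => Real.exp (-(Real.log (K n) / 4))) atTop (𝓝 0) :=
      Real.tendsto_exp_neg_atTop_nhds_zero.comp hlog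
    refine squeeze_zero' (Eventually.of_forall (fun n => by positivity)) ?_
      (hlim.mono_left inf_le_left)
    rw [eventually_inf_principal]
    filter_upwards [K_tendsto.eventually_ge_atTop 1, eventually_gt_atTop 0] with n hK hn hA
    have hK' : (1 : ℝ) ≤ K n := by exact_mod_cast hK
    have hKpos : (0 : ℝ) < K n := by linarith
    have hphi : (0 : ℝ) < Nat.totient n := by exact_mod_cast Nat.totient_pos.2 hn
    have h1 := totient_lower n hn
    have hl0 : 0 ≤ Real.log (K n) := Real.log_nonneg hK'
    have h2 : Real.exp (2 * tail 0 n) ≤ K n * Real.exp (-(Real.log (K n) / 4)) := by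
      conv_rhs => rw [← Real.exp_log hKpos, ← Real.exp_add, Real.log_exp]
      apply Real.exp_le_exp.2
      linarith
    rw [div_div, div_le_iff₀ (by positivity)]
    calc (n : ℝ) ≤ Nat.totient n * Real.exp (2 * tail 0 n) := h1
      _ ≤ Nat.totient n * (K n * Real.exp (-(Real.log (K n) / 4))) := by gcongr
      _ = _ := by ring
  · intro h
    obtain ⟨N₂, hN₂⟩ := eventually_atTop.1 (K_tendsto.eventually_ge_atTop 2)
    obtain ⟨x, hx, hlt⟩ := (h 15).exists_gt N₂
    have hkey := key (fun d => ((ArithmeticFunction.moebius d : ℤ) : ℝ))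
      (fun d => by exact_mod_cast ArithmeticFunction.abs_moebius_le_one)
      (fun n => (Nat.totient n : ℝ)) (fun n hn => totient_eq n hn)
      (fun n => by positivity) (by simp) (K x) x (hN₂ x hlt.le) (K_spec x)
    simp only [Set.mem_ofPred_eq] at hx
    linarith

end Pool.Agent.S17899
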