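import Pool.Statements.S17907
import Pool.Agent.H57.RothD

set_option autoImplicit false
open Pool Pool.MP_9da210_nt

namespace Pool.Agent.S17907

/-- There is g with log log N = o(g) and 1 ≤ g(N) ≤ N eventually, such that for every k with 1 ≤ k(N) ≤ N and k = O(g), for all large N every k(N)-colouring of {1..N} has at least N/10 sums a+b with a ≠ b of the same colour. -/
theorem result : ∃ g : ℕ → ℝ,
    (fun N : ℕ => Real.log (Real.log (N : ℝ))) =o[Filter.atTop] g ∧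
    (∀ᶠ N : ℕ in Filter.atTop, 1 ≤ g N ∧ g N ≤ (N : ℝ)) ∧
    ∀ k : ℕ → ℕ, (∀ N : ℕ, 1 ≤ N → 1 ≤ k N ∧ k N ≤ N) →
      (fun N : ℕ => (k N : ℝ)) =O[Filter.atTop] g →
      ∀ᶠ N : ℕ in Filter.atTop, ∀ c : ℕ → Fin (k N),
        (N : ℝ) / 10 ≤
          ((Set.ncard {s : ℕ | ∃ a b : ℕ, 1 ≤ a ∧ a ≤ N ∧ 1 ≤ b ∧ b ≤ N ∧
              a ≠ b ∧ c a = c b ∧ a + b = s} : ℕ) : ℝ) := by
  obtain ⟨ε, h0, h1, h⟩ := Pool.Agent.H57.Roth.sums_many_log
  have hl := Pool.Agent.H57.Roth.tendsto_logN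
  refine ⟨fun N => Real.log N ^ (ε / 2), ?_, ?_, fun k _ hk => ?_⟩
  · exact (isLittleO_log_rpow_atTop (by linarith : 0 < ε / 2)).comp_tendsto hl
  · filter_upwards [hl.eventually_ge_atTop 1] with N h2
    refine ⟨Real.one_le_rpow h2 (by linarith), ?_⟩
    calc Real.log N ^ (ε / 2) ≤ Real.log N ^ (1:ℝ) :=
          Real.rpow_le_rpow_of_exponent_le h2 (by linarith)
      _ = Real.log N := Real.rpow_one _
      _ ≤ N := Real.log_le_self (by positivity)
  · obtain ⟨C, hC⟩ := hk.bound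
    have h3 : ∀ᶠ N : ℕ in Filter.atTop, C ≤ Real.log N ^ (ε / 2) :=
      ((tendsto_rpow_atTop (by linarith)).comp hl).eventually_ge_atTop _
    filter_upwards [h, hC, h3, hl.eventually_ge_atTop 1] with N h4 h5 h6 h7 c
    have h8 : 0 ≤ Real.log N ^ (ε / 2) := Real.rpow_nonneg (by linarith) _
    rw [Real.norm_eq_abs, Real.norm_eq_abs, Nat.abs_cast, abs_of_nonneg h8] at h5
    refine le_trans ?_ (h4 (k N) ?_ c)
    · have : (0:ℝ) ≤ N := by positivity
      linarith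
    · calc (k N : ℝ) ≤ Real.log N ^ (ε / 2) * Real.log N ^ (ε / 2) := h5.trans (by gcongr)
        _ = _ := by rw [← Real.rpow_add (by linarith)]; norm_num

end Pool.Agent.S17907
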