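import Pool.Statements.S17945
import Pool.Agent.H49.Arbor

set_option autoImplicit false
open Pool Pool.MP_9fb0d9_nt

namespace Pool.Agent.S17945

theorem result :
    ∃ (K : Type) (_ : Field K) (_ : NumberField K) (f : Polynomial K),
      2 ≤ f.natDegree ∧
      (∀ m : ℕ, 1 ≤ m → (fun x => Polynomial.eval x f)^[m] 0 ≠ 0) ∧
      ∀ M : ℕ, ∃ n : ℕ, 1 ≤ n ∧
        M * Module.finrank K (Polynomial.SplittingField ((f.comp)^[n] Polynomial.X)) <
          Module.finrank (RatFunc K)
            (Polynomial.SplittingField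
              (Polynomial.map (algebraMap K (RatFunc K)) ((f.comp)^[n] Polynomial.X)
                - Polynomial.C (RatFunc.X : RatFunc K))) :=
  ⟨ℚ, inferInstance, inferInstance, H49.Arbor.f ℚ, H49.Arbor.natDegree_f.ge, H49.Arbor.not_per,
    H49.Arbor.main (fun _ => Polynomial.cyclotomic.irreducible_rat (by positivity))⟩

end Pool.Agent.S17945
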