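import Pool.Statements.S17987
import Pool.Agent.H59.CE2

set_option autoImplicit false
open Pool Pool.MP_a23773_nt

namespace Pool.Agent.S17987

/-- For the digit sequence of 0.235711131719... (primes concatenated in base 10), it is not the case that for every block length m and every m-digit block k, the block counts obey the iterated-logarithm limsup/liminf law (strong normality to base 10). -/
theorem result :
  ∀ d : ℕ → ℕ,
    (∀ n : ℕ,
      (List.range ((List.range n).map
          (fun i => (Nat.digits 10 (Nat.nth Nat.Prime i)).length)).sum).map d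
        = (List.range n).flatMap
          (fun i => (Nat.digits 10 (Nat.nth Nat.Prime i)).reverse)) →
    ¬ (∀ m : ℕ, 1 ≤ m → ∀ k : ℕ, k < 10 ^ m →
        (∀ ε : ℝ, 0 < ε → ∀ᶠ n : ℕ in Filter.atTop,
          ((((Finset.range n).filter
              (fun j => ∑ i ∈ Finset.range m, d (j * m + i) * 10 ^ (m - 1 - i) = k)).card : ℝ)
              - (n : ℝ) / (10 : ℝ) ^ m)
            / Real.sqrt (2 * (n : ℝ) * Real.log (Real.log (n : ℝ)))
            < Real.sqrt ((10 : ℝ) ^ m - 1) / (10 : ℝ) ^ m + ε) ∧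
        (∀ ε : ℝ, 0 < ε → ∃ᶠ n : ℕ in Filter.atTop,
          Real.sqrt ((10 : ℝ) ^ m - 1) / (10 : ℝ) ^ m - ε <
          ((((Finset.range n).filter
              (fun j => ∑ i ∈ Finset.range m, d (j * m + i) * 10 ^ (m - 1 - i) = k)).card : ℝ)
              - (n : ℝ) / (10 : ℝ) ^ m)
            / Real.sqrt (2 * (n : ℝ) * Real.log (Real.log (n : ℝ)))) ∧
        (∀ ε : ℝ, 0 < ε → ∀ᶠ n : ℕ in Filter.atTop,
          -(Real.sqrt ((10 : ℝ) ^ m - 1) / (10 : ℝ) ^ m) - ε <
          ((((Finset.range n).filter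
              (fun j => ∑ i ∈ Finset.range m, d (j * m + i) * 10 ^ (m - 1 - i) = k)).card : ℝ)
              - (n : ℝ) / (10 : ℝ) ^ m)
            / Real.sqrt (2 * (n : ℝ) * Real.log (Real.log (n : ℝ)))) ∧
        (∀ ε : ℝ, 0 < ε → ∃ᶠ n : ℕ in Filter.atTop,
          ((((Finset.range n).filter
              (fun j => ∑ i ∈ Finset.range m, d (j * m + i) * 10 ^ (m - 1 - i) = k)).card : ℝ)
              - (n : ℝ) / (10 : ℝ) ^ m)
            / Real.sqrt (2 * (n : ℝ) * Real.log (Real.log (n : ℝ)))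
            < -(Real.sqrt ((10 : ℝ) ^ m - 1) / (10 : ℝ) ^ m) + ε)) := by
  intro d hd H
  obtain ⟨B, hB⟩ : ∃ B : ℕ, B = 10 ^ 10 := ⟨_, rfl⟩
  have hBr : (10 : ℝ) ^ 10 = B := by rw [hB]; norm_num
  have hB1 : (1 : ℝ) ≤ B := by rw [← hBr]; norm_num
  have hs : Real.sqrt ((B : ℝ) - 1) / B ≤ 1 := by
    rw [div_le_one (by linarith)]
    exact Real.sqrt_le_iff.2 ⟨by linarith, by nlinarith⟩
  have H10 := H 10 (by norm_num)
  rw [← hB, hBr] at H10
  have key : ∀ᶠ n : ℕ in Filter.atTop, ∀ k ∈ Finset.range B,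
      |(((Finset.range n).filter (fun j => Pool.Agent.H59.CE1.blk d 10 j = k)).card : ℝ) - n / B| ≤
        2 * Real.sqrt (2 * n * Real.log (Real.log n)) := by
    refine (Filter.eventually_all_finset _).2 (fun k hk => ?_)
    obtain ⟨h1, _, h3, _⟩ := H10 k (Finset.mem_range.1 hk)
    filter_upwards [h1 1 one_pos, h3 1 one_pos, Filter.eventually_ge_atTop 3] with n a1 a3 hn
    have hn' : (3 : ℝ) ≤ n := by exact_mod_cast hn
    have hl : 1 < Real.log n := by
      rw [Real.lt_log_iff_exp_lt (by linarith)]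
      linarith [Real.exp_one_lt_three]
    have hpos : 0 < Real.sqrt (2 * n * Real.log (Real.log n)) :=
      Real.sqrt_pos.2 (mul_pos (by linarith) (Real.log_pos hl))
    rw [div_lt_iff₀ hpos] at a1
    rw [lt_div_iff₀ hpos] at a3
    unfold Pool.Agent.H59.CE1.blk
    rw [abs_le]
    constructor <;> nlinarith
  obtain ⟨n₀, hn₀⟩ := Filter.eventually_atTop.1 key
  exact Pool.Agent.H59.CE2.main d hd B hB n₀
    (fun n hn k hk => hn₀ n hn k (Finset.mem_range.2 hk))

end Pool.Agent.S17987
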