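import Pool.Statements.S18153
import Pool.Agent.H59.PD8

set_option autoImplicit false
open Pool Pool.MP_af6696_nt

namespace Pool.Agent.S18153

open Pool.Agent.H59.PD Finset

def Rl (g : ℕ → ℕ) (f : ℕ) (x y : ℕ) : Prop := y + g (if f = 0 then x else y) ≤ x

lemma lists_eq (g : ℕ → ℕ) (hg : ∀ e, 0 < g e) (f : ℕ) (hf : f ≤ 1) (C : Set ℕ) (n : ℕ) :
    Set.ncard {l : List ℕ | l.sum = n ∧ (∀ x ∈ l, 0 < x ∧ x ∉ C) ∧ l.Pairwise (· ≥ ·) ∧
      ∀ i : ℕ, i + 1 < l.length → l.getD (i + 1) 0 + g (l.getD (i + f) 0) ≤ l.getD i 0} =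
    Set.ncard {T : Finset ℕ | ∑ x ∈ T, x = n ∧ (∀ x ∈ T, 0 < x ∧ x ∉ C) ∧
      ∀ x ∈ T, ∀ y ∈ T, y < x → Rl g f x y} := by
  have hlt : ∀ x y, Rl g f x y → x > y := fun x y h => by
    unfold Rl at h; have := hg (if f = 0 then x else y); omega
  haveI : Trans (Rl g f) (Rl g f) (Rl g f) := ⟨fun {x y z} h1 h2 => by
    have a := hlt _ _ h1
    have b := hlt _ _ h2
    unfold Rl at *
    split_ifs at * <;> omega⟩
  have key : ∀ l : List ℕ, (∀ i : ℕ, i + 1 < l.length →
      l.getD (i + 1) 0 + g (l.getD (i + f) 0) ≤ l.getD i 0) ↔ l.Pairwise (Rl g f) := by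
    intro l
    rw [← List.isChain_iff_pairwise, List.isChain_iff_getElem]
    refine forall_congr' fun i => forall_congr' fun hi => ?_
    rw [List.getD_eq_getElem _ _ hi, List.getD_eq_getElem _ _ (show i < l.length by omega),
      List.getD_eq_getElem _ _ (show i + f < l.length by omega)]
    unfold Rl
    interval_cases f <;> simp
  refine Set.ncard_congr (fun l _ => l.toFinset) ?_ ?_ ?_
  · rintro l ⟨h1, h2, -, h4⟩
    rw [key] at h4
    have h5 : l.Pairwise (· > ·) := h4.imp (hlt _ _)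
    have h6 : l.Nodup := h5.imp (fun h => ne_of_gt h)
    refine ⟨by rw [List.sum_toFinset _ h6]; simpa using h1, by simpa using h2, ?_⟩
    intro x hx y hy hxy
    have hx := List.mem_toFinset.1 hx
    have hy := List.mem_toFinset.1 hy
    have h7 : l.Pairwise (fun a b => Rl g f a b ∨ Rl g f b a) := h4.imp Or.inl
    haveI : Std.Symm (fun a b => Rl g f a b ∨ Rl g f b a) := ⟨fun a b h => h.symm⟩
    rcases h7.forall hx hy (ne_of_gt hxy) with h | h
    · exact h
    · have := hlt _ _ h; omega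
  · rintro l l' ⟨-, -, -, h4⟩ ⟨-, -, -, h4'⟩ h
    rw [key] at h4 h4'
    exact List.Pairwise.eq_of_mem_iff (r := (· > ·)) (h4.imp (hlt _ _)) (h4'.imp (hlt _ _))
      (List.toFinset.ext_iff.1 h)
  · rintro T ⟨h1, h2, h3⟩
    refine ⟨T.sort (· ≥ ·), ⟨?_, by simpa using h2, T.pairwise_sort _, ?_⟩, T.sort_toFinset _⟩
    · have := List.sum_toFinset (fun x : ℕ => x) (T.sort_nodup (· ≥ ·))
      rw [T.sort_toFinset] at this
      rw [← h1, this]; simp
    · rw [key]
      refine ((T.pairwise_sort (· ≥ ·)).and (T.sort_nodup (· ≥ ·))).imp_of_mem ?_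
      intro a b ha hb h
      exact h3 a (by simpa using ha) b (by simpa using hb) (by have := h.1; have := h.2; omega)

lemma sets_eq (g : ℕ → ℕ) (hg : ∀ e, 0 < g e) (f : ℕ) (C : Set ℕ) (D : ℤ → ℕ)
    (hD : ∀ e : ℕ, D e + 1 = g e) {M : ℕ} (hM : 0 < M) (n : ℕ) :
    ((SS f D C M n).filter (fun S => NN f M n S = n)).card =
    Set.ncard {T : Finset ℕ | ∑ x ∈ T, x = n ∧ (∀ x ∈ T, 0 < x ∧ x ∉ C) ∧
      ∀ x ∈ T, ∀ y ∈ T, y < x → Rl g f x y} := by
  classical
  have hK : n ≤ n * M := Nat.le_mul_of_pos_right _ hM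
  rw [← Set.ncard_coe_finset]
  unfold SS NN
  generalize n * M = K at *
  have inj : ∀ i < K, ∀ j < K, sg f K i = sg f K j → i = j := by
    intro i hi j hj; unfold sg; split_ifs <;> omega
  refine Set.ncard_congr (fun S _ => S.image (sg f K)) ?_ ?_ ?_
  · intro S hS
    simp only [coe_filter, mem_filter, mem_VS, Set.mem_setOf_eq] at hS
    obtain ⟨⟨⟨h1, h2⟩, h3⟩, h4⟩ := hS
    refine ⟨by rw [sum_image (fun i hi j hj => inj i (h1 i hi) j (h1 j hj))]; exact h4, ?_, ?_⟩
    · intro x hx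
      obtain ⟨i, hi, rfl⟩ := mem_image.1 hx
      refine ⟨?_, h3 i hi⟩
      have := h1 i hi
      unfold sg; split_ifs <;> omega
    · intro x hx y hy hxy
      obtain ⟨i, hi, rfl⟩ := mem_image.1 hx
      obtain ⟨j, hj, rfl⟩ := mem_image.1 hy
      have a := h1 i hi
      have b := h1 j hj
      have c := h2 i hi j hj
      have d := h2 j hj i hi
      have e1 := hD (sg f K i)
      have e2 := hD (sg f K j)
      unfold Rl
      by_cases hf : f = 0
      · simp only [sg, hf, if_true] at *; omega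
      · simp only [sg, hf, if_false] at *; omega
  · intro S S' hS hS' h
    simp only [coe_filter, mem_filter, mem_VS, Set.mem_setOf_eq] at hS hS'
    have k : ∀ S S' : Finset ℕ, (∀ i ∈ S, i < K) → (∀ i ∈ S', i < K) →
        S.image (sg f K) = S'.image (sg f K) → S ⊆ S' := by
      intro S S' h1 h2 h i hi
      obtain ⟨j, hj, e⟩ := mem_image.1 (h ▸ mem_image_of_mem (sg f K) hi)
      rwa [← inj j (h2 j hj) i (h1 i hi) e]
    exact Subset.antisymm (k _ _ hS.1.1.1 hS'.1.1.1 h) (k _ _ hS'.1.1.1 hS.1.1.1 h.symm)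
  · rintro T ⟨h1, h2, h3⟩
    have im : ((range K).filter (fun i => sg f K i ∈ T)).image (sg f K) = T := by
      ext x
      simp only [mem_image, mem_filter, mem_range]
      constructor
      · rintro ⟨i, ⟨_, hi⟩, rfl⟩; exact hi
      · intro hx
        have a := (h2 x hx).1
        have b : x ≤ n := h1 ▸ single_le_sum (f := fun x => x) (fun _ _ => Nat.zero_le _) hx
        have e : sg f K (if f = 0 then x - 1 else K - x) = x := by unfold sg; split_ifs <;> omega
        exact ⟨_, ⟨by split_ifs <;> omega, by rwa [e]⟩, e⟩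
    refine ⟨(range K).filter (fun i => sg f K i ∈ T), ?_, im⟩
    simp only [coe_filter, mem_filter, mem_VS, Set.mem_setOf_eq, mem_range]
    refine ⟨⟨⟨fun i hi => hi.1, ?_⟩, fun i hi => (h2 _ hi.2).2⟩, ?_⟩
    · rintro i ⟨a, hi⟩ j ⟨b, hj⟩ hji
      have c := h3 _ hi _ hj
      have d := h3 _ hj _ hi
      have e1 := hD (sg f K i)
      unfold Rl at c d
      by_cases hf : f = 0
      · simp only [sg, hf, if_true] at *; omega
      · simp only [sg, hf, if_false] at *; omega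
    · rw [← h1, ← im, sum_image (fun i hi j hj => inj i (by simp at hi; exact hi.1) j
        (by simp at hj; exact hj.1)), im]

lemma caseii {M s : ℕ} (hs : 1 ≤ s) (hM : 2 ^ (s - 1) < M) (m : ℕ) (hm : M * M * M + M * M < m) :
    ∃ S : Finset ℕ, S.sum id = m ∧
      ∀ x ∈ S, 0 < x ∧ ∃ j : ℕ, 1 ≤ j ∧ j ≤ s ∧ Nat.ModEq M x (M - 2 ^ (j - 1)) := by
  have h2 : 2 ≤ M := by have := Nat.one_le_two_pow (n := s - 1); omega
  obtain ⟨P, rfl⟩ : ∃ P, M = P + 1 := ⟨M - 1, by omega⟩
  set k := P - m % (P + 1) with hk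
  have hr := Nat.mod_lt m (show 0 < P + 1 by omega)
  set T := (range k).image (fun i => i * (P + 1) + P) with hT
  have hsum : T.sum id = (∑ i ∈ range k, i) * (P + 1) + k * P := by
    rw [hT, sum_image (fun i _ j _ h => by
      have : i * (P + 1) = j * (P + 1) := by simpa using h
      exact Nat.eq_of_mul_eq_mul_right (by omega) this)]
    simp [sum_add_distrib, sum_mul]
  have hb : ∑ i ∈ range k, i ≤ P * P := by
    refine (sum_le_card_nsmul _ _ P fun i hi => by have := mem_range.1 hi; omega).trans ?_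
    simp only [card_range, smul_eq_mul]; exact Nat.mul_le_mul_right _ (by omega)
  have hb2 : k * P ≤ P * P := Nat.mul_le_mul_right _ (by omega)
  have hb3 := Nat.mul_le_mul_right (P + 1) hb
  have hb4 : T.sum id + (P + 1) * (P + 1) < m := by nlinarith
  refine ⟨insert (m - T.sum id) T, ?_, ?_⟩
  · rw [sum_insert]
    · simp only [id]; simp only [id] at hb4; omega
    · intro h
      obtain ⟨i, hi, e⟩ := mem_image.1 h
      have := mem_range.1 hi
      have : i * (P + 1) ≤ P * (P + 1) := Nat.mul_le_mul_right _ (by omega)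
      have : (P + 1) * (P + 1) = P * (P + 1) + P + 1 := by ring
      omega
  · intro x hx
    rcases mem_insert.1 hx with rfl | hx
    · refine ⟨by omega, 1, le_rfl, hs, ?_⟩
      simp only [le_refl, tsub_eq_zero_of_le, pow_zero, add_tsub_cancel_right]
      refine Nat.ModEq.add_right_cancel' (T.sum id) ?_
      rw [Nat.sub_add_cancel (by omega), hsum]
      have e := Nat.div_add_mod m (P + 1)
      refine Nat.ModEq.add_right_cancel' (k + 1) ?_
      rw [show m + (k + 1) = (P + 1) * (m / (P + 1) + 1) by rw [mul_add]; omega,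
        show P + ((∑ i ∈ range k, i) * (P + 1) + k * P) + (k + 1) =
          (P + 1) * ((∑ i ∈ range k, i) + k + 1) by ring]
      simp [Nat.ModEq]
    · obtain ⟨i, _, rfl⟩ := mem_image.1 hx
      refine ⟨by omega, 1, le_rfl, hs, ?_⟩
      simp [Nat.ModEq]

/-- Consider all M≥1, f in {0,1}, positive gaps b_1..b_M, and C either finite or (f=0) the non-sums of distinct parts in classes M−2^(j−1). Then partitions avoiding C with residue-dependent gaps satisfy B(n) ~ α n^(−3/4) e^(β√n) for some α>0 and real β. -/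
theorem result :
  ∀ (M f : ℕ) (b : ℕ → ℕ) (C : Set ℕ),
    1 ≤ M → f ≤ 1 → (∀ j, 1 ≤ j → j ≤ M → 0 < b j) →
    (C.Finite ∨ (f = 0 ∧ ∃ s : ℕ, 1 ≤ s ∧ 2 ^ (s - 1) < M ∧
      C = {m : ℕ | 1 ≤ m ∧ ¬ ∃ S : Finset ℕ, S.sum id = m ∧
        ∀ x ∈ S, 0 < x ∧ ∃ j : ℕ, 1 ≤ j ∧ j ≤ s ∧ Nat.ModEq M x (M - 2 ^ (j - 1))})) →
    ∃ α β : ℝ, 0 < α ∧ Filter.Tendsto (fun n : ℕ =>
      ((Set.ncard {l : List ℕ | l.sum = n ∧ (∀ x ∈ l, 0 < x ∧ x ∉ C) ∧
          l.Pairwise (· ≥ ·) ∧
          ∀ i : ℕ, i + 1 < l.length →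
            l.getD (i + 1) 0 + b ((l.getD (i + f) 0 + M - 1) % M + 1) ≤ l.getD i 0} : ℕ) : ℝ)
        / ((n : ℝ) ^ (-(3 / 4 : ℝ)) * Real.exp (β * Real.sqrt n)))
      Filter.atTop (nhds α) := by
  intro M f b C hM hf hb hC
  obtain ⟨c0, hc0⟩ : ∃ c0, ∀ m ∈ C, m ≤ c0 := by
    rcases hC with h | ⟨-, s, hs, hsM, rfl⟩
    · exact h.bddAbove
    · exact ⟨M * M * M + M * M, fun m hm => not_lt.1 fun h => hm.2 (caseii hs hsM m h)⟩
  set g : ℕ → ℕ := fun e => b ((e + M - 1) % M + 1) with hg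
  have hg0 : ∀ e, 0 < g e := fun e => hb _ (by omega) (Nat.mod_lt _ hM)
  set D : ℤ → ℕ := fun m => b (((m + M - 1) % M).toNat + 1) - 1 with hD
  have hDg : ∀ e : ℕ, D e + 1 = g e := by
    intro e
    have : (((e:ℤ) + M - 1) % M).toNat = (e + M - 1) % M := by
      rw [show (e:ℤ) + M - 1 = ((e + M - 1 : ℕ) : ℤ) by omega, ← Int.natCast_mod, Int.toNat_natCast]
    have h0 := hg0 e
    simp only [hD, hg, this] at h0 ⊢
    omega
  have hDB : ∀ m, D m < (range (M + 1)).sup b + 2 := by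
    intro m
    have h1 : (m + M - 1) % M < M := Int.emod_lt_of_pos _ (by exact_mod_cast hM)
    have := le_sup (f := b) (s := range (M + 1)) (b := ((m + M - 1) % M).toNat + 1)
      (mem_range.2 (by omega))
    simp only [hD]; omega
  obtain ⟨a, β, ha, h⟩ := asym (f := f) (C := C) (by omega) hDB hM (fun m => by
    simp only [hD]
    rw [show m + M + M - 1 = m + M - 1 + M by ring, Int.add_emod_right]) c0 hc0
  refine ⟨a, β, ha, h.congr fun n => ?_⟩
  rw [sets_eq g hg0 f C D hDg hM n, ← lists_eq g hg0 f hf C n]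

end Pool.Agent.S18153
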