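import Pool.Statements.S18225
import Pool.Agent.H52.SN6

set_option autoImplicit false
open Filter
open Pool Pool.MP_b5ad3e_nt

namespace Pool.Agent.S18225

/-- There is a base b≥2 and a strictly increasing positive sequence A with A(N)>N^θ eventually for each θ<1 such that the base-b concatenation number of A has, in every base b^m, each digit count's limsup/liminf of (count−n/B)/√(2n log log n) equal to ±√(B−1)/B. -/
theorem result :
    ∃ b : ℕ, 2 ≤ b ∧ ∃ a : ℕ → ℕ, StrictMono a ∧ (∀ n, 0 < a n) ∧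
      (∀ θ : ℝ, θ < 1 → ∀ᶠ N : ℕ in atTop,
          (N : ℝ) ^ θ < (Nat.card {n : ℕ | a n ≤ N} : ℝ)) ∧
      ∃ d : ℕ → ℕ,
        (∀ n r : ℕ, r < (Nat.digits b (a n)).length →
          d ((∑ j ∈ Finset.range n, (Nat.digits b (a j)).length) + r)
            = ((Nat.digits b (a n)).reverse).getD r 0) ∧
        ∃ ξ : ℝ, ξ = ∑' i : ℕ, (d i : ℝ) / (b : ℝ) ^ (i + 1) ∧
          ∀ m : ℕ, 1 ≤ m → ∀ k : ℕ, k < b ^ m →
            ∀ F : ℕ → ℝ,
              (∀ n : ℕ, F n =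
                ((((Finset.range n).filter
                    (fun i : ℕ => ⌊ξ * ((b : ℝ) ^ m) ^ (i + 1)⌋ % ((b : ℤ) ^ m) = (k : ℤ))).card : ℝ)
                  - (n : ℝ) / (b : ℝ) ^ m)
                / Real.sqrt (2 * (n : ℝ) * Real.log (Real.log (n : ℝ)))) →
              ∀ ε : ℝ, 0 < ε →
                (∀ᶠ n in atTop, F n < Real.sqrt ((b : ℝ) ^ m - 1) / (b : ℝ) ^ m + ε) ∧
                (∃ᶠ n in atTop, Real.sqrt ((b : ℝ) ^ m - 1) / (b : ℝ) ^ m - ε < F n) ∧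
                (∀ᶠ n in atTop, -(Real.sqrt ((b : ℝ) ^ m - 1) / (b : ℝ) ^ m) - ε < F n) ∧
                (∃ᶠ n in atTop, F n < -(Real.sqrt ((b : ℝ) ^ m - 1) / (b : ℝ) ^ m) + ε) := by
  obtain ⟨a, d, a1, a2, a3, a4, a5, a6, h⟩ := Pool.Agent.H52.SN.core
  refine ⟨2, le_rfl, a, a1, a2, a3, d, a4, _, rfl, fun m hm k hk F hF ε hε => ?_⟩
  have e : ∀ n : ℕ, F n = H52.SN.D d m k n / H52.SN.psi n := fun n => by
    rw [hF, H52.SN.psi, H52.SN.D]
    congr 1
    simp only [H52.SN.ind, Finset.sum_sub_distrib, Finset.sum_const, Finset.card_range, nsmul_eq_mul,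
      mul_one_div, Finset.card_filter, Nat.cast_sum, Nat.cast_ite, Nat.cast_one, Nat.cast_zero,
      Nat.cast_ofNat, ← pow_mul, H52.SN.floor_eq d a5 a6]
    congr 1
    refine Finset.sum_congr rfl fun i _ => if_congr ?_ rfl rfl
    exact_mod_cast Iff.rfl
  have s1 : √m * H52.SN.tau m = √(2 ^ m - 1) / 2 ^ m := by
    rw [H52.SN.tau, mul_div_cancel₀]
    positivity
  have s2 : √(2 ^ m - 1) / 2 ^ m ≤ (1 : ℝ) := by
    have h1 : (1 : ℝ) ≤ 2 ^ m := one_le_pow₀ one_le_two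
    rw [div_le_one (by positivity), Real.sqrt_le_left (by positivity)]
    nlinarith
  have s3 : (0 : ℝ) ≤ √(2 ^ m - 1) / 2 ^ m := by positivity
  obtain ⟨h1, h2⟩ := h m k hm hk (ε / 2) (half_pos hε)
  rw [s1] at h1 h2
  simp only [Nat.cast_ofNat, e]
  generalize √(2 ^ m - 1) / 2 ^ m = σ at *
  have p : ∀ᶠ n : ℕ in atTop, 0 < H52.SN.psi n := by
    filter_upwards [tendsto_natCast_atTop_atTop.eventually (H52.SN.psi_cmp one_pos),
      eventually_gt_atTop 0] with n h1 h2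
    exact (Real.sqrt_pos.mpr (by exact_mod_cast h2)).trans_le h1.1
  have q1 : (1 + ε / 2) * σ + ε / 2 ≤ σ + ε := by nlinarith
  have q2 : σ - ε ≤ σ / (1 + ε / 2) - ε / 2 := by
    rw [le_sub_iff_add_le, le_div_iff₀ (by positivity)]
    nlinarith
  refine ⟨?_, ((h2 1 rfl).and_eventually p).mono fun n ⟨b1, b2⟩ => ?_, ?_,
    ((h2 (-1) rfl).and_eventually p).mono fun n ⟨b1, b2⟩ => ?_⟩
  · filter_upwards [h1, p] with n b1 b2
    rw [div_lt_iff₀ b2]
    linarith [(abs_lt.mp b1).2, mul_le_mul_of_nonneg_right q1 b2.le]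
  · rw [lt_div_iff₀ b2]
    push_cast at b1
    linarith [mul_le_mul_of_nonneg_right q2 b2.le]
  · filter_upwards [h1, p] with n b1 b2
    rw [lt_div_iff₀ b2]
    linarith [(abs_lt.mp b1).1, mul_le_mul_of_nonneg_right q1 b2.le]
  · rw [div_lt_iff₀ b2]
    push_cast at b1
    linarith [mul_le_mul_of_nonneg_right q2 b2.le]

end Pool.Agent.S18225
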