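import Pool.Statements.S18238
import Pool.Agent.H74.PZ3

set_option autoImplicit false
open Pool Pool.MP_b6bacc_nt

namespace Pool.Agent.S18238

open Finset Polynomial Classical Pool.Agent.H74.PZ

theorem total {O : Type} [Field O] [CharP O 2] [IsAlgClosed O]
    (k a b c : ℕ) (hk : 0 < k) (ha : 0 < a) (hb : 0 < b) (hc : 0 < c)
    (hab : Nat.Coprime b a) (hbc : Nat.Coprime b c) (hac : Nat.Coprime c a) :
    ((Set.ncard {x : Fin 4 → O |
      (∀ i, x i ^ ((2 ^ 1) ^ ((![b * c, a * c, a * b, a * b * c] : Fin 4 → ℕ) i * k)) = x i) ∧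
        x 3 ^ 2 + x 3 - x 0 * x 1 * x 2 = 0} : ℕ) : ℂ)
      = (X ^ (a * b) * (g a b c 0 + X ^ (b * c + a * c))).eval (2 ^ k) := by
  have := fin_S (O := O) (k * (b * c)) (by positivity)
  have := fin_S (O := O) (k * (a * c)) (by positivity)
  have := fin_S (O := O) (k * (a * b)) (by positivity)
  have := fin_S (O := O) (k * (a * b) * c) (by positivity)
  let _ := Fintype.ofFinite (S O (k * (b * c)))
  let _ := Fintype.ofFinite (S O (k * (a * c)))
  let _ := Fintype.ofFinite (S O (k * (a * b)))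
  let _ := Fintype.ofFinite (S O (k * (a * b) * c))
  have hS : ∀ (d N : ℕ) (x : O), N = d * k → (x ^ ((2 ^ 1) ^ (d * k)) = x ↔ x ∈ S O N) := by
    rintro d N x rfl
    rw [pow_one, mem_S, iterateFrobenius_def]
  let φ : S O (k * (b * c)) × S O (k * (a * c)) × S O (k * (a * b)) × S O (k * (a * b) * c) →
      Fin 4 → O := fun t => ![t.1.1, t.2.1.1, t.2.2.1.1, t.2.2.2.1]
  have hφ : Function.Injective φ := by
    rintro ⟨x, y, w, z⟩ ⟨x', y', w', z'⟩ h
    have h0 : x = x' := Subtype.ext (congrFun h 0)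
    have h1 : y = y' := Subtype.ext (congrFun h 1)
    have h2 : w = w' := Subtype.ext (congrFun h 2)
    have h3 : z = z' := Subtype.ext (congrFun h 3)
    rw [h0, h1, h2, h3]
  have e : {x : Fin 4 → O |
      (∀ i, x i ^ ((2 ^ 1) ^ ((![b * c, a * c, a * b, a * b * c] : Fin 4 → ℕ) i * k)) = x i) ∧
        x 3 ^ 2 + x 3 - x 0 * x 1 * x 2 = 0} = φ '' ↑(univ.filter (fun t :
        S O (k * (b * c)) × S O (k * (a * c)) × S O (k * (a * b)) × S O (k * (a * b) * c) =>
          t.2.2.2.1 ^ 2 + t.2.2.2.1 = t.1.1 * t.2.1.1 * t.2.2.1.1)) := by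
    ext x
    constructor
    · rintro ⟨h1, h2⟩
      refine ⟨⟨⟨x 0, (hS (b * c) _ _ (by ring)).1 (h1 0)⟩, ⟨x 1, (hS (a * c) _ _ (by ring)).1 (h1 1)⟩,
        ⟨x 2, (hS (a * b) _ _ (by ring)).1 (h1 2)⟩,
        ⟨x 3, (hS (a * b * c) _ _ (by ring)).1 (h1 3)⟩⟩, ?_, ?_⟩
      · simp only [coe_filter, mem_univ, true_and, Set.mem_ofPred_eq]
        exact sub_eq_zero.1 h2
      · funext i
        fin_cases i <;> rfl
    · rintro ⟨⟨x, y, w, z⟩, h, rfl⟩
      simp only [coe_filter, mem_univ, true_and, Set.mem_ofPred_eq] at h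
      refine ⟨fun i => ?_, sub_eq_zero.2 h⟩
      fin_cases i
      · exact (hS (b * c) _ _ (by ring)).2 x.2
      · exact (hS (a * c) _ _ (by ring)).2 y.2
      · exact (hS (a * b) _ _ (by ring)).2 w.2
      · exact (hS (a * b * c) _ _ (by ring)).2 z.2
  rw [e, Set.ncard_image_of_injective _ hφ, Set.ncard_coe_finset, card_filter]
  simp only [Fintype.sum_prod_type]
  have e2 : ∀ (x : S O (k * (b * c))) (y : S O (k * (a * c))),
      (∑ w : S O (k * (a * b)), ∑ z : S O (k * (a * b) * c),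
        if z.1 ^ 2 + z.1 = x.1 * y.1 * w.1 then 1 else 0)
      = 2 ^ (k * (a * b)) * (1 + if T (k * (a * b)) c (x.1 * y.1) = 0 then 1 else 0) := by
    intro x y
    rw [inner_cnt _ _ (by positivity) _
      (mul_mem (S_mono x.2 ⟨a, by ring⟩) (S_mono y.2 ⟨b, by ring⟩))]
    split_ifs <;> ring
  simp only [e2, ← mul_sum, sum_add_distrib]
  rw [Nat.cast_mul, Nat.cast_add, M_cnt k a b c hk ha hb hc hab hbc hac]
  simp only [sum_const, card_univ, ← Nat.card_eq_fintype_card, smul_eq_mul]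
  rw [card_S _ (by positivity), card_S _ (by positivity)]
  simp only [eval_mul, eval_add, eval_pow, eval_X]
  push_cast
  ring

theorem grow (C : ℕ) : ∃ c : ℕ, 0 < c ∧ ((C * (12 * c ^ 4)) ^ C) ^ 2 < 2 ^ c := by
  have h := tendsto_pow_const_div_const_pow_of_one_lt (8 * C) (one_lt_two (α := ℝ))
  have h1 : (0 : ℝ) < 1 / ((12 * C) ^ (2 * C) + 1) := by positivity
  obtain ⟨c, hc, hc'⟩ := ((h.eventually (gt_mem_nhds h1)).and (Filter.eventually_gt_atTop 0)).exists
  refine ⟨c, hc', ?_⟩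
  rw [div_lt_div_iff₀ (by positivity) (by positivity)] at hc
  have h2 : (((C * (12 * c ^ 4)) ^ C) ^ 2 : ℝ) = c ^ (8 * C) * (12 * C) ^ (2 * C) := by
    rw [← pow_mul, mul_comm C 2, show (C * (12 * c ^ 4) : ℝ) = c ^ 4 * (12 * C) by ring, mul_pow,
      ← pow_mul]
    congr 2
    ring
  have h3 : (((C * (12 * c ^ 4)) ^ C) ^ 2 : ℝ) < 2 ^ c := by
    rw [h2]
    have : (0 : ℝ) ≤ c ^ (8 * C) := by positivity
    nlinarith
  exact_mod_cast h3

/-- The negation of the preceding statement: For fixed n and m there is C such that every partial zeta function of a degree ≤ m polynomial in n variables over any F_q, with any d_1..d_n, has total degree at most (C·lcm(d_i))^C. -/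
theorem result :
    ¬ (∀ (n m : ℕ), ∃ C : ℕ, ∀ (p : ℕ) [Fact p.Prime] (r : ℕ), 0 < r →
    ∀ (d : Fin n → ℕ), (∀ i, 0 < d i) →
    ∀ (f : MvPolynomial (Fin n) (AlgebraicClosure (ZMod p))),
      (∀ s, (f.coeff s) ^ (p ^ r) = f.coeff s) → f.totalDegree ≤ m →
      ∃ A B : Multiset ℂ,
        Multiset.card A + Multiset.card B ≤ (C * Finset.univ.lcm d) ^ C ∧
        ∀ k : ℕ, 0 < k →
          ((Set.ncard {x : Fin n → AlgebraicClosure (ZMod p) |
              (∀ i, x i ^ ((p ^ r) ^ (d i * k)) = x i) ∧ MvPolynomial.eval x f = 0} : ℕ) : ℂ)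
            = (B.map (fun b => b ^ k)).sum - (A.map (fun a => a ^ k)).sum) := by
  intro H
  obtain ⟨C, hC⟩ := H 4 3
  obtain ⟨c, hc, hg⟩ := grow C
  set a := 2 * c + 1 with ha
  set b := a * c + 1 with hb
  have ha0 : 0 < a := by omega
  have hb0 : 0 < b := by omega
  have hab : Nat.Coprime b a := by simp [hb]
  have hbc : Nat.Coprime b c := by simp [hb]
  have hac : Nat.Coprime c a := by simp [ha]
  let f0 : MvPolynomial (Fin 4) (ZMod 2) := MvPolynomial.X 3 ^ 2 + MvPolynomial.X 3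
    - MvPolynomial.X 0 * MvPolynomial.X 1 * MvPolynomial.X 2
  obtain ⟨A, B, h1, h2⟩ := hC 2 1 one_pos ![b * c, a * c, a * b, a * b * c]
    (fun i => by fin_cases i <;> simp <;> omega)
    (MvPolynomial.map (algebraMap (ZMod 2) (AlgebraicClosure (ZMod 2))) f0)
    (fun s => by rw [MvPolynomial.coeff_map, ← map_pow, pow_one, ZMod.pow_card])
    (by
      simp only [f0, map_sub, map_add, map_mul, map_pow, MvPolynomial.map_X]
      refine (MvPolynomial.totalDegree_sub _ _).trans (max_le ?_ ?_)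
      · refine (MvPolynomial.totalDegree_add _ _).trans (max_le ?_ ?_)
        · rw [MvPolynomial.totalDegree_X_pow]; norm_num
        · rw [MvPolynomial.totalDegree_X]; norm_num
      · refine (MvPolynomial.totalDegree_mul _ _).trans ?_
        have := MvPolynomial.totalDegree_mul (MvPolynomial.X 0 :
          MvPolynomial (Fin 4) (AlgebraicClosure (ZMod 2)))
          (MvPolynomial.X 1)
        simp only [MvPolynomial.totalDegree_X] at this ⊢
        omega)
  obtain ⟨h, hh⟩ := g_mod a b c 0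
  obtain ⟨z, hz, hz'⟩ := big a c (by omega)
  have h3 := lower A B (a * b) b (∏ i ∈ range c, (X ^ a - X ^ (0 + i)))
    (h + X ^ (b * (c - 1) + a * c)) (by
      refine lt_of_le_of_lt (natDegree_prod_le _ _) ?_
      refine lt_of_le_of_lt (sum_le_card_nsmul _ _ a (fun i hi => ?_)) ?_
      · have := mem_range.1 hi
        refine (natDegree_sub_le _ _).trans (max_le ?_ ?_)
        · simp
        · simp only [natDegree_X_pow]; omega
      · rw [card_range, smul_eq_mul, hb, mul_comm]; omega)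
    (fun k hk => by
      rw [← h2 k hk]
      have e := total (O := AlgebraicClosure (ZMod 2)) k a b c hk ha0 hb0 hc hab hbc hac
      have e1 : (X ^ (b * c + a * c) : ℂ[X]) = X ^ b * X ^ (b * (c - 1) + a * c) := by
        rw [← pow_add]
        congr 1
        obtain ⟨c', rfl⟩ : ∃ c', c = c' + 1 := ⟨c - 1, by omega⟩
        simp only [Nat.add_sub_cancel]
        ring
      rw [hh, e1, add_assoc, ← mul_add] at e
      rw [← e]
      simp [f0]) z hz
  have h4 : Finset.univ.lcm (![b * c, a * c, a * b, a * b * c] : Fin 4 → ℕ) ≤ 12 * c ^ 4 := by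
    have h5 : Finset.univ.lcm (![b * c, a * c, a * b, a * b * c] : Fin 4 → ℕ) ∣ a * b * c := by
      apply Finset.lcm_dvd
      intro i _
      fin_cases i
      · exact ⟨a, by simp; ring⟩
      · exact ⟨b, by simp; ring⟩
      · exact ⟨c, by simp⟩
      · exact ⟨1, by simp⟩
    refine (Nat.le_of_dvd (by positivity) h5).trans ?_
    have h6 : a ≤ 3 * c := by omega
    have h7 : b ≤ 4 * c ^ 2 := by nlinarith
    calc a * b * c ≤ 3 * c * (4 * c ^ 2) * c := by gcongr
      _ = _ := by ring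
  have h5 : A.card + B.card ≤ (C * (12 * c ^ 4)) ^ C := h1.trans (by gcongr)
  have h6 : (2 : ℝ) ^ c ≤ ((A.card + B.card : ℕ) : ℝ) ^ 2 := hz'.trans (by gcongr)
  have h7 : 2 ^ c ≤ (A.card + B.card) ^ 2 := by exact_mod_cast h6
  have h8 : (A.card + B.card) ^ 2 ≤ ((C * (12 * c ^ 4)) ^ C) ^ 2 := by gcongr
  omega

end Pool.Agent.S18238
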