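import Pool.Statements.S18265
import Pool.Agent.H46.Tm.G

set_option autoImplicit false
open Pool Pool.MP_b86f6c_nt

namespace Pool.Agent.S18265

/-- For every ε>0 there is a real T-number ξ (transcendental, every w_n(ξ) finite, w_n(ξ)/n unbounded) such that only finitely many integer polynomials of degree ≤1 satisfy 0<∣P(ξ)∣≤H(P)^(-w) for each w>1+ε, i.e. w_1(ξ)≤1+ε. -/
theorem result :
    ∀ ε : ℝ, 0 < ε → ∃ ξ : ℝ, Transcendental ℤ ξ ∧
      (∀ n : ℕ, ∃ W : ℝ,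
        {P : Polynomial ℤ | P.natDegree ≤ n ∧ Polynomial.aeval ξ P ≠ 0 ∧
          |Polynomial.aeval ξ P| ≤
            ((P.support.sup (fun i => (P.coeff i).natAbs) : ℕ) : ℝ) ^ (-W)}.Finite) ∧
      (∀ M : ℝ, ∃ n : ℕ, 1 ≤ n ∧ ∃ w : ℝ, M * (n : ℝ) < w ∧
        {P : Polynomial ℤ | P.natDegree ≤ n ∧ Polynomial.aeval ξ P ≠ 0 ∧
          |Polynomial.aeval ξ P| ≤
            ((P.support.sup (fun i => (P.coeff i).natAbs) : ℕ) : ℝ) ^ (-w)}.Infinite) ∧
      (∀ w : ℝ, 1 + ε < w →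
        {P : Polynomial ℤ | P.natDegree ≤ 1 ∧ Polynomial.aeval ξ P ≠ 0 ∧
          |Polynomial.aeval ξ P| ≤
            ((P.support.sup (fun i => (P.coeff i).natAbs) : ℕ) : ℝ) ^ (-w)}.Finite) := by
  open Pool.Agent.H46.Tn Pool.Agent.H46.Wx Polynomial in
  intro ε hε
  obtain ⟨L, hL⟩ := pow_unbounded_of_one_lt (22 / ε + 15) one_lt_two
  have e0 : 0 < 22 / ε := by positivity
  have L3 : 3 ≤ L := not_lt.mp fun l => by
    linarith [pow_le_pow_right₀ (one_le_two (α := ℝ)) l.le]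
  obtain ⟨ξ, M, B, α, G, H, hH⟩ := small L L3
  obtain ⟨h1, h2⟩ := tnum G
  simp only [hgt]
  refine ⟨ξ, tr h1, fun n => ?_, fun m => ?_, fun w hw => ?_⟩
  · obtain ⟨v, u⟩ := h1 (n + 1) (by omega)
    exact ⟨_, (u.wS (lt_add_one _)).subset fun P ⟨a, b, c⟩ => ⟨by omega, abs_pos.mpr b, c⟩⟩
  · obtain ⟨n, a, w, b, c⟩ := h2 (max m 0) 1
    exact ⟨n, a, w, by nlinarith [le_max_left m 0, le_max_right m 0, n.cast_nonneg (α := ℝ)],
      c.mono fun P h => ⟨h.1, abs_pos.mp h.2.1, h.2.2⟩⟩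
  refine (finite_mahlerMeasure_le 1 (Real.toNNReal (2 * max H 1))).subset fun P ⟨a, b, c⟩ =>
    ⟨a, le_trans ?_ (Real.le_coe_toNNReal _)⟩
  refine (mm_le a).trans ?_
  norm_num
  by_contra! k
  have u8 : 2 ^ 3 ≤ 2 ^ L := Nat.pow_le_pow_right two_pos L3
  have := hH P (by rintro rfl; simp at b) a k.1.le
  obtain ⟨s, hs⟩ : ∃ s, 2 ^ L = s + 7 := ⟨2 ^ L - 7, by omega⟩
  have hs' : (2 : ℝ) ^ L = s + 7 := by exact_mod_cast hs
  rw [hs, Nat.add_sub_cancel] at this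
  have := this.trans (mul_le_mul_of_nonneg_left (pow_le_pow_left₀ (abs_nonneg _) c s)
    (by have := k.2; positivity))
  rw [← Real.rpow_mul_natCast (by linarith), mul_comm, ← Real.rpow_add_natCast (by linarith)]
    at this
  have e1 : 22 < s * ε := (div_lt_iff₀ hε).mp (by linarith)
  have s0 : (0 : ℝ) < s := by linarith
  exact this.not_gt (Real.rpow_lt_one_of_one_lt_of_neg k.2 (by push_cast; nlinarith))

end Pool.Agent.S18265
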