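import Pool.Statements.S18340
import Pool.Agent.H63.RobinsonField

set_option autoImplicit false
open Pool Pool.MP_be0b77_nt

namespace Pool.Agent.S18340

/-- The negation of the preceding statement: For every totally real field K of algebraic numbers, let A be the set of s>0 such that infinitely many algebraic integers of K have all conjugates in [0,s]. If A is nonempty, then its infimum belongs to A. -/
theorem result :
    ¬ (∀ K : Subfield ℂ,
      (∀ x ∈ K, IsIntegral ℚ x ∧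
        ∀ z : ℂ, Polynomial.aeval z (minpoly ℚ x) = 0 → z.im = 0) →
      ∀ A : Set ℝ,
        A = {s : ℝ | 0 < s ∧
          {α : ℂ | α ∈ K ∧ IsIntegral ℤ α ∧
            ∀ z : ℂ, Polynomial.aeval z (minpoly ℚ α) = 0 →
              z.im = 0 ∧ 0 ≤ z.re ∧ z.re ≤ s}.Infinite} →
        A.Nonempty → sInf A ∈ A) := by
  intro H
  open Pool.Agent.H63.Robinson in
  have hinj : Function.Injective jj := (jj : A →+* ℂ).injective
  open Pool.Agent.H63.Robinson in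
  have hset : ∀ s : ℝ, {α : ℂ | α ∈ K0.map (jj : A →+* ℂ) ∧ IsIntegral ℤ α ∧
      ∀ z : ℂ, Polynomial.aeval z (minpoly ℚ α) = 0 → z.im = 0 ∧ 0 ≤ z.re ∧ z.re ≤ s} =
      jj '' {a : A | a ∈ K0 ∧ IsIntegral ℤ a ∧
        ∀ σ : A →ₐ[ℚ] ℂ, (σ a).im = 0 ∧ 0 ≤ (σ a).re ∧ (σ a).re ≤ s} := by
    intro s
    ext α
    constructor
    · rintro ⟨⟨a, ha, rfl⟩, h1, h2⟩
      refine ⟨a, ⟨ha, ?_, ?_⟩, rfl⟩
      · exact (isIntegral_algHom_iff (jj : A →+* ℂ).toIntAlgHom hinj).1 h1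
      · have e : minpoly ℚ ((jj : A →+* ℂ) a) = minpoly ℚ a := minpoly.algHom_eq jj hinj a
        rw [e] at h2
        exact (conj_iff a (fun z => z.im = 0 ∧ 0 ≤ z.re ∧ z.re ≤ s)).1 h2
    · rintro ⟨a, ⟨ha, h1, h2⟩, rfl⟩
      refine ⟨⟨a, ha, rfl⟩, map_isIntegral_int (jj : A →+* ℂ) h1, ?_⟩
      rw [minpoly.algHom_eq jj hinj a]
      exact (conj_iff a (fun z => z.im = 0 ∧ 0 ≤ z.re ∧ z.re ≤ s)).2 h2
  open Pool.Agent.H63.Robinson in
  have hA : {s : ℝ | 0 < s ∧ {α : ℂ | α ∈ K0.map (jj : A →+* ℂ) ∧ IsIntegral ℤ α ∧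
      ∀ z : ℂ, Polynomial.aeval z (minpoly ℚ α) = 0 →
        z.im = 0 ∧ 0 ≤ z.re ∧ z.re ≤ s}.Infinite} = Set.Ioi 4 := by
    ext s
    simp only [Set.mem_ofPred_eq, Set.mem_Ioi, hset]
    constructor
    · rintro ⟨-, h⟩
      by_contra hs
      apply h
      apply Set.Finite.image
      refine (Set.toFinite ({0, 1, 2, 3, 4} : Set A)).subset ?_
      rintro a ⟨h1, h2, h3⟩
      exact four_cases a h1 h2 fun σ => ⟨(h3 σ).1, (h3 σ).2.1, (h3 σ).2.2.trans (not_lt.1 hs)⟩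
    · intro hs
      exact ⟨by linarith, (infinite_above s hs).image hinj.injOn⟩
  open Pool.Agent.H63.Robinson in
  have h := H (K0.map (jj : A →+* ℂ)) (by
    rintro x ⟨a, ha, rfl⟩
    refine ⟨(Algebra.IsIntegral.isIntegral (R := ℚ) a).map jj, ?_⟩
    have e : minpoly ℚ ((jj : A →+* ℂ) a) = minpoly ℚ a := minpoly.algHom_eq jj hinj a
    rw [e]
    exact (conj_iff a (fun z => z.im = 0)).2 ((mem_K0 a).1 ha).1) (Set.Ioi 4) hA.symm
    ⟨5, by norm_num⟩
  rw [csInf_Ioi] at h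
  exact lt_irrefl (4 : ℝ) (Set.mem_Ioi.1 h)

end Pool.Agent.S18340
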