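import Pool.Statements.S18343
import Pool.Agent.H59.MT18

set_option autoImplicit false
open N6813fd5a
open Filter
open scoped ArithmeticFunction.sigma
open Pool Pool.MP_be2988_nt

namespace Pool.Agent.S18343

/-- For every monotone f:ℕ→ℝ with f n ≤ log n for all n and f→∞, (1,∞) ⊆ closure of {τ((n+⌊f n⌋₊)!)/τ(n!) : n∈ℕ}. -/
theorem result :
    ∀ f : ℕ → ℝ, Monotone f → (∀ n, f n ≤ Real.log n) → Tendsto f atTop atTop → Set.Ioi (1 : ℝ) ⊆ closure (Set.range (F f)) := by
  exact fun f a b c => H59.MT.closure_tau f a b c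

end Pool.Agent.S18343
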