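import Pool.Statements.S18403
import Pool.Agent.H58.Psp4

set_option autoImplicit false
open Pool Pool.MP_c35068_nt

namespace Pool.Agent.S18403

/-- For every natural number x greater than 170 there is a composite n with x < n < 2x such that n divides 2^(n-1) - 1, i.e. a base-2 Fermat pseudoprime. -/
theorem result :
    ∀ x : ℕ, 170 < x → ∃ n : ℕ, x < n ∧ n < 2 * x ∧ Nat.FermatPsp n 2 := by
  exact Pool.Agent.H58.Psp.main

end Pool.Agent.S18403
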