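import Pool.Statements.S18406
import Pool.Agent.H54.Strip

set_option autoImplicit false
open Classical
open Pool Pool.MP_c36293_nt

namespace Pool.Agent.S18406

open Pool.Agent.H54.Strip

/-- The negation of the preceding statement: For every dimension d and every p ≥ 1 there is C such that for every N-point set in [0,1)^d, the p-th power periodic L_p discrepancy is at most C times the p-th power extreme L_p discrepancy. -/
theorem result :
    ¬ (∀ (d : ℕ), 1 ≤ d → ∀ (p : ℝ), 1 ≤ p → ∃ C : ℝ, 0 < C ∧
      ∀ (N : ℕ), 1 ≤ N → ∀ P : Fin N → Fin d → ℝ, (∀ i j, 0 ≤ P i j ∧ P i j < 1) →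
        (∫ x in Set.Icc (0 : Fin d → ℝ) 1, ∫ y in Set.Icc (0 : Fin d → ℝ) 1,
          |((Finset.univ.filter (fun i : Fin N => ∀ j : Fin d,
              (x j ≤ y j ∧ x j ≤ P i j ∧ P i j < y j) ∨
              (y j < x j ∧ (P i j < y j ∨ x j ≤ P i j)))).card : ℝ)
            - (N : ℝ) * ∏ j : Fin d, (if x j ≤ y j then y j - x j else 1 - x j + y j)| ^ p)
        ≤ C * ∫ x in Set.Icc (0 : Fin d → ℝ) 1, ∫ y in Set.Icc (0 : Fin d → ℝ) 1,
          (if x ≤ y then
            |((Finset.univ.filter (fun i : Fin N => ∀ j : Fin d,
                x j ≤ P i j ∧ P i j < y j)).card : ℝ)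
              - (N : ℝ) * ∏ j : Fin d, (y j - x j)| ^ p
           else 0)) := by
  intro h
  obtain ⟨C, hC0, hC⟩ := h 2 (by norm_num) 1 le_rfl
  apply final C
  intro k hk
  have hk0 : 0 < k := by omega
  have h1 := hC _ (Nat.mul_pos (Nat.mul_pos hk0 hk0) (Nat.mul_pos hk0 hk0)) (pt k) (pt_mem k)
  simp only [Real.rpow_one] at h1
  refine (per_int k hk).trans (le_trans (le_of_eq ?_) (h1.trans ?_))
  · congr 1; funext x; congr 1; funext y
    unfold perF
    rw [card_eq]
    rfl
  · refine mul_le_mul_of_nonneg_left ?_ hC0.le
    refine le_trans (MeasureTheory.integral_mono_of_nonneg ?_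
      (MeasureTheory.integrable_const (4 * (k : ℝ) ^ 2)) ?_) ?_
    · refine Filter.Eventually.of_forall (fun x => MeasureTheory.integral_nonneg (fun y => ?_))
      simp only [Pi.zero_apply]
      split_ifs
      · exact abs_nonneg _
      · exact le_rfl
    · filter_upwards [MeasureTheory.ae_restrict_mem measurableSet_Icc] with x hx
      apply upper_int k (by omega)
      · intro y
        split_ifs
        · exact abs_nonneg _
        · exact le_rfl
      · intro y hy
        split_ifs with hxy
        · rw [card_eq]
          exact box_bound k (by omega) x y hx.1 hxy hy.2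
        · have := ind_nonneg (1 - 1 / (k : ℝ) ≤ y 0)
          positivity
    · rw [MeasureTheory.integral_const, MeasureTheory.measureReal_restrict_apply_univ, vol_unit]
      simp

end Pool.Agent.S18406
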