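import Pool.Statements.S18419

set_option autoImplicit false
open Pool Pool.MP_c520af_nt

namespace Pool.Agent.S18419

open Polynomial

theorem result :
    ∀ (K : Type) [Field K] [NumberField K],
      ∃ (F : ℕ → Polynomial K) (δ : ℕ → K),
        (∀ d : ℕ, 2 ≤ d → (F d).natDegree = d ∧ δ d ≠ 0) ∧
        ∀ C : ℕ, ∃ D : ℕ, ∀ d : ℕ, 2 ≤ d → D ≤ d →
          (((C * d : ℕ) : ℕ∞) <
            {P : K × K | ∃ n : ℕ, 1 ≤ n ∧
              (fun p : K × K => (p.2, (F d).eval p.2 - δ d * p.1))^[n] P = P}.encard) := by
  intro K _ _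
  classical
  refine ⟨fun d => ∏ i ∈ Finset.range d, (X - C (i : K)), fun _ => -1, ?_, ?_⟩
  · intro d _
    refine ⟨?_, by norm_num⟩
    rw [natDegree_prod_of_monic _ _ (fun i _ => monic_X_sub_C _)]
    simp only [natDegree_X_sub_C, Finset.sum_const, Finset.card_range, smul_eq_mul, mul_one]
  · intro C
    refine ⟨C + 1, fun d hd hD => ?_⟩
    set Y : Finset K := (Finset.range d).image (fun i : ℕ => (i : K)) with hY
    have hcard : Y.card = d := by
      rw [hY, Finset.card_image_of_injective _ Nat.cast_injective, Finset.card_range]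
    have hroot : ∀ y ∈ Y, (∏ i ∈ Finset.range d, (X - Polynomial.C (i : K))).eval y = 0 := by
      intro y hy
      obtain ⟨i, hi, rfl⟩ := Finset.mem_image.1 hy
      rw [eval_prod]
      exact Finset.prod_eq_zero hi (by simp)
    have hsub : ((Y ×ˢ Y : Finset (K × K)) : Set (K × K)) ⊆
        {P : K × K | ∃ n : ℕ, 1 ≤ n ∧
          (fun p : K × K => (p.2, (∏ i ∈ Finset.range d, (X - Polynomial.C (i : K))).eval p.2
            - (-1) * p.1))^[n] P = P} := by
      intro P hP
      have hP' := Finset.mem_product.1 (Finset.mem_coe.1 hP)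
      refine ⟨2, by norm_num, ?_⟩
      obtain ⟨x, y⟩ := P
      simp only [Function.iterate_succ, Function.iterate_zero, Function.comp, id]
      have hx := hroot x hP'.1
      have hy := hroot y hP'.2
      simp only [hy, zero_sub, neg_mul, one_mul, neg_neg, hx]
    refine lt_of_lt_of_le ?_ (Set.encard_le_encard hsub)
    rw [Set.encard_coe_eq_coe_finsetCard, Finset.card_product, hcard]
    have : C * d < d * d := by nlinarith
    exact_mod_cast this

end Pool.Agent.S18419
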