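import Pool.Statements.S18512
import Pool.Agent.H48.WeylB

set_option autoImplicit false
open Pool Pool.MP_ccba9a_nt

namespace Pool.Agent.S18512

/-- The negation of the preceding statement: For k≥1, s>0, c>0, ε>0 there is C such that for all X≥1 and measurable B in [0,1)^k with measure at least c·X^(1−k(k+1)/4), the integral over B of ∣Σ_{x≤X} e(α₁x+…+α_kx^k)∣^(2s) is at most C·X^ε·(X^s·mes B + X^(2s−k(k+1)/2)). -/
theorem result :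
    ¬ (∀ k : ℕ, 1 ≤ k → ∀ s : ℝ, 0 < s → ∀ c : ℝ, 0 < c → ∀ ε : ℝ, 0 < ε →
      ∃ C : ℝ, ∀ X : ℕ, 1 ≤ X → ∀ B : Set (Fin k → ℝ), MeasurableSet B →
        B ⊆ Set.pi Set.univ (fun _ => Set.Ico (0:ℝ) 1) →
        c * (X:ℝ) ^ (1 - (k:ℝ) * ((k:ℝ) + 1) / 4) ≤ (MeasureTheory.volume B).toReal →
        ∫ α in B, ‖∑ x ∈ Finset.Icc 1 X,
            Complex.exp (2 * (Real.pi:ℂ) * Complex.I *
              ∑ j : Fin k, (α j : ℂ) * (x:ℂ) ^ ((j:ℕ) + 1))‖ ^ (2 * s)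
          ≤ C * (X:ℝ) ^ ε * ((X:ℝ) ^ s * (MeasureTheory.volume B).toReal
              + (X:ℝ) ^ (2 * s - (k:ℝ) * ((k:ℝ) + 1) / 2))) := by
  intro H
  obtain ⟨C, hC⟩ := H 2 (by norm_num) (11 / 4) (by norm_num) 1 one_pos (1 / 64) (by norm_num)
  obtain ⟨X, hX, B, hB, hsub, hvol, hlt⟩ := Pool.Agent.H48.WeylB.main C
  have e1 : (1 - ((2 : ℕ) : ℝ) * (((2 : ℕ) : ℝ) + 1) / 4) = -(1 / 2) := by norm_num
  have e2 : (2 * (11 / 4) - ((2 : ℕ) : ℝ) * (((2 : ℕ) : ℝ) + 1) / 2) = 5 / 2 := by norm_num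
  have e3 : (2 * (11 / 4) : ℝ) = 11 / 2 := by norm_num
  have := hC X hX B hB hsub (by rw [e1, one_mul]; exact hvol)
  rw [e2, e3] at this
  exact absurd this (not_le.mpr hlt)

end Pool.Agent.S18512
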