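import Pool.Statements.S18519
-- import your own Pool.Agent.* helpers here

set_option autoImplicit false
open Pool Pool.MP_cd51d2_nt

namespace Pool.Agent.S18519

lemma psp (a N : ℕ) (ha : 1 ≤ a) (A B : ℕ) (hA : 1 < A) (hB : 1 < B) (m : ℕ) (hm : m ∣ 120)
    (h1 : ((A * B : ℕ) : ℤ) ∣ ((a : ℤ) ^ N) ^ m - 1)
    (h2 : ((120 * N : ℕ) : ℤ) ∣ ((A * B : ℕ) : ℤ) - 1) : Nat.FermatPsp (A * B) a := by
  have hAB : 1 < A * B := by nlinarith
  refine ⟨?_, Nat.not_prime_mul hA.ne' hB.ne', hAB⟩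
  unfold Nat.ProbablePrime
  have h3 : 120 * N ∣ A * B - 1 := by
    rw [← Int.natCast_dvd_natCast, Nat.cast_sub hAB.le]
    exact_mod_cast h2
  obtain ⟨c, hc⟩ := h3
  obtain ⟨e, he⟩ := hm
  rw [← Int.natCast_dvd_natCast, Nat.cast_sub (Nat.one_le_pow _ _ ha), hc]
  refine h1.trans ?_
  have : (a : ℤ) ^ (120 * N * c) = (((a : ℤ) ^ N) ^ m) ^ (e * c) := by
    rw [← pow_mul, ← pow_mul, he]; congr 1; ring
  push_cast
  rw [this]
  exact sub_one_dvd_pow_sub_one _ _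

lemma key_dvd (a j : ℕ) (ha : Even a) :
    ((120 * 2 ^ (j + 3) : ℕ) : ℤ) ∣ (a : ℤ) ^ (2 ^ (j + 3)) * ((a : ℤ) ^ (2 ^ (j + 3)) - 1) := by
  have h15 : (15 : ℤ) ∣ (a : ℤ) ^ (2 ^ (j + 3)) * ((a : ℤ) ^ (2 ^ (j + 3)) - 1) := by
    have hz : ∀ z : ZMod 15, z ^ 4 * z ^ 4 = z ^ 4 := by decide
    have hz2 : ∀ (z : ZMod 15) (k : ℕ), (z ^ 4) ^ (k + 1) = z ^ 4 := by
      intro z k
      induction k with
      | zero => simp
      | succ k ih => rw [pow_succ, ih, hz]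
    have : (((a : ℤ) ^ (2 ^ (j + 3)) * ((a : ℤ) ^ (2 ^ (j + 3)) - 1) : ℤ) : ZMod 15) = 0 := by
      push_cast
      obtain ⟨k, hk⟩ : ∃ k, 2 ^ (j + 3) = 4 * (k + 1) := by
        refine ⟨2 ^ (j + 1) - 1, ?_⟩
        rw [Nat.sub_add_cancel (Nat.one_le_two_pow)]
        ring
      rw [hk, pow_mul, hz2, mul_sub, hz]
      ring
    exact (ZMod.intCast_zmod_eq_zero_iff_dvd _ 15).mp this
  have h2 : (2 : ℤ) ^ (j + 6) ∣ (a : ℤ) ^ (2 ^ (j + 3)) * ((a : ℤ) ^ (2 ^ (j + 3)) - 1) := by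
    refine Dvd.dvd.mul_right ?_ _
    have hle : j + 6 ≤ 2 ^ (j + 3) := by
      have := @Nat.lt_two_pow_self j
      rw [pow_add]
      omega
    refine (pow_dvd_pow 2 hle).trans (pow_dvd_pow_of_dvd ?_ _)
    exact_mod_cast ha.two_dvd
  have hc : IsCoprime (15 : ℤ) (2 ^ (j + 6)) := by
    apply IsCoprime.pow_right
    exact ⟨1, -7, by norm_num⟩
  have := hc.mul_dvd h15 h2
  have he : ((120 * 2 ^ (j + 3) : ℕ) : ℤ) = 15 * 2 ^ (j + 6) := by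
    push_cast
    rw [pow_add, pow_add]
    ring
  rw [he]
  exact this

/-- For every even natural base a ≥ 2, there are infinitely many pairs (n, d) with d > 0 such that n, n+d and n+2d are all Fermat pseudoprimes to base a. -/
theorem result :
    ∀ a : ℕ, 2 ≤ a → Even a →
      Set.Infinite {p : ℕ × ℕ | 0 < p.2 ∧ Nat.FermatPsp p.1 a ∧
        Nat.FermatPsp (p.1 + p.2) a ∧ Nat.FermatPsp (p.1 + 2 * p.2) a} := by
  intro a ha hev
  apply Set.Infinite.of_image Prod.fst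
  apply Set.infinite_of_forall_exists_gt
  intro j
  have hk := key_dvd a j hev
  set N := 2 ^ (j + 3) with hN
  have hjN : j < N := by
    have := @Nat.lt_two_pow_self j
    rw [hN, pow_add]
    omega
  have hx : N < a ^ N := lt_of_lt_of_le Nat.lt_two_pow_self (Nat.pow_le_pow_left ha N)
  obtain ⟨y, hy⟩ : ∃ y, a ^ N = y + 1 := ⟨a ^ N - 1, by omega⟩
  have hy1 : 1 ≤ y := by omega
  have hxz : (a : ℤ) ^ N = (y : ℤ) + 1 := by exact_mod_cast hy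
  set A : ℕ := (y + 1) * y + 1 with hA
  set B : ℕ := (y + 1) ^ 7 * y + (y + 1) ^ 4 * y + (y + 1) * y * (y + 2) + 1 with hB
  set D : ℕ := (y + 1) * y ^ 2 * (y + 2) ^ 2 * ((y + 1) ^ 2 + 1) with hD
  have hA1 : 1 < A := by rw [hA]; nlinarith
  have hB1 : 1 < B := by
    have : 0 < (y + 1) * y * (y + 2) := by positivity
    omega
  have hD0 : 0 < D := by positivity
  have hyx : (y : ℤ) = (a : ℤ) ^ N - 1 := by linarith
  refine ⟨A * B, ⟨(A * B, A * D), ⟨by positivity, ?_, ?_, ?_⟩, rfl⟩, ?_⟩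
  · refine psp a N (by omega) A B hA1 hB1 30 (by norm_num) ?_ (hk.trans ?_)
    · rw [hA, hB]; push_cast; rw [hyx]; generalize (a : ℤ) ^ N = x
      exact ⟨(-1) * x ^ 0 + (-2) * x ^ 1 + (-2) * x ^ 2 + (2) * x ^ 4 + (3) * x ^ 5 + (2) * x ^ 6 + (-2) * x ^ 8 + (-2) * x ^ 9 + (2) * x ^ 11 + (2) * x ^ 12 + (-2) * x ^ 14 + (-3) * x ^ 15 + (-2) * x ^ 16 + (2) * x ^ 18 + (2) * x ^ 19 + (1) * x ^ 20, by ring⟩
    · rw [hA, hB]; push_cast; rw [hyx]; generalize (a : ℤ) ^ N = x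
      exact ⟨(2) * x ^ 0 + (2) * x ^ 3 + (-1) * x ^ 4 + (1) * x ^ 5 + (1) * x ^ 6 + (-1) * x ^ 7 + (1) * x ^ 8, by ring⟩
  · have : A * B + A * D = A * (B + D) := by ring
    simp only [this]
    refine psp a N (by omega) A (B + D) hA1 (by omega) 24 (by norm_num) ?_ (hk.trans ?_)
    · rw [hA, hB, hD]; push_cast; rw [hyx]; generalize (a : ℤ) ^ N = x
      exact ⟨(-1) * x ^ 0 + (-1) * x ^ 1 + (1) * x ^ 3 + (-1) * x ^ 5 + (-1) * x ^ 6 + (1) * x ^ 8 + (1) * x ^ 9 + (-1) * x ^ 11 + (1) * x ^ 13 + (1) * x ^ 14, by ring⟩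
    · rw [hA, hB, hD]; push_cast; rw [hyx]; generalize (a : ℤ) ^ N = x
      exact ⟨(1) * x ^ 0 + (1) * x ^ 3 + (1) * x ^ 5 + (1) * x ^ 6 + (1) * x ^ 8, by ring⟩
  · have : A * B + 2 * (A * D) = A * (B + 2 * D) := by ring
    simp only [this]
    refine psp a N (by omega) A (B + 2 * D) hA1 (by omega) 30 (by norm_num) ?_ (hk.trans ?_)
    · rw [hA, hB, hD]; push_cast; rw [hyx]; generalize (a : ℤ) ^ N = x
      exact ⟨(-1) * x ^ 0 + (-1) * x ^ 5 + (1) * x ^ 15 + (1) * x ^ 20, by ring⟩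
    · rw [hA, hB, hD]; push_cast; rw [hyx]; generalize (a : ℤ) ^ N = x
      exact ⟨(1) * x ^ 4 + (1) * x ^ 5 + (1) * x ^ 6 + (1) * x ^ 7 + (1) * x ^ 8, by ring⟩
  · have h1 : y + 1 ≤ A := by rw [hA]; nlinarith
    have h2 : A ≤ A * B := Nat.le_mul_of_pos_right _ (by omega)
    omega

end Pool.Agent.S18519
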