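import Pool.Statements.S18540

set_option autoImplicit false
open Pool Pool.MP_ceb3e8_nt

namespace Pool.Agent.S18540

/-- The field of rational functions in a variable s over the field with two elements. -/
abbrev KK : Type := RatFunc (ZMod 2)

noncomputable def ss : KK := RatFunc.X

instance instCharKK : CharP KK 2 := by
  have : Fact (Nat.Prime 2) := ⟨Nat.prime_two⟩
  exact charP_of_injective_algebraMap (algebraMap (ZMod 2) KK).injective 2

theorem two_eq_zero : (2 : KK) = 0 := by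
  have := CharP.cast_eq_zero KK 2
  exact_mod_cast this

/-- first module: z maps to s^2 z + (s + s^2) z^2 + z^4 -/
noncomputable def ph (z : KK) : KK := ss ^ 2 * z + (ss + ss ^ 2) * z ^ 2 + z ^ 4

/-- second module (Carlitz): z maps to s^2 z + z^2 -/
noncomputable def ps (z : KK) : KK := ss ^ 2 * z + z ^ 2

theorem ph_add (a b : KK) : ph (a + b) = ph a + ph b := by
  unfold ph
  linear_combination ((ss + ss ^ 2) * a * b + 2 * a ^ 3 * b + 3 * a ^ 2 * b ^ 2 + 2 * a * b ^ 3) * two_eq_zero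

theorem ps_add (a b : KK) : ps (a + b) = ps a + ps b := by
  unfold ps
  linear_combination (a * b) * two_eq_zero

theorem ph_sq (z : KK) : (ph z) ^ 2 = ps (ps (z ^ 2)) := by
  unfold ph ps
  linear_combination (ss ^ 2 * (ss + ss ^ 2) * z ^ 3 + ss ^ 2 * z ^ 5 + (ss + ss ^ 2) * z ^ 6
    + ss ^ 3 * z ^ 4 - ss ^ 2 * z ^ 6) * two_eq_zero

noncomputable def PsiAdd : (Fin 2 → KK) →+ (Fin 2 → KK) where
  toFun v := ![ph (v 0), ps (v 1)]
  map_zero' := by
    ext i
    fin_cases i <;> simp [ph, ps]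
  map_add' a b := by
    ext i
    fin_cases i <;> simp [ph_add, ps_add]

noncomputable def Psi : Module.End (ZMod 2) (Fin 2 → KK) := PsiAdd.toZModLinearMap 2

theorem Psi_apply (v : Fin 2 → KK) : Psi v = ![ph (v 0), ps (v 1)] := rfl

theorem Psi_pow (n : ℕ) (v : Fin 2 → KK) : (Psi ^ n) v = ![ph^[n] (v 0), ps^[n] (v 1)] := by
  induction n with
  | zero => ext i; fin_cases i <;> simp
  | succ n ih =>
    rw [pow_succ', Module.End.mul_apply, ih, Psi_apply]
    simp [Function.iterate_succ_apply']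

theorem ph_iter_sq (n : ℕ) (z : KK) : (ph^[n] z) ^ 2 = ps^[2 * n] (z ^ 2) := by
  induction n with
  | zero => simp
  | succ n ih =>
    rw [Function.iterate_succ_apply', ph_sq, ih, show 2 * (n + 1) = (2 * n + 1) + 1 by ring,
      Function.iterate_succ_apply', Function.iterate_succ_apply']

theorem ph_iter_zero (n : ℕ) : ph^[n] 0 = 0 :=
  Function.iterate_fixed (by simp [ph]) n

theorem ps_iter_zero (n : ℕ) : ps^[n] 0 = 0 :=
  Function.iterate_fixed (by simp [ps]) n

open Polynomial in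
noncomputable def PP : ℕ → (ZMod 2)[X]
  | 0 => X ^ 2
  | n + 1 => X ^ 2 * PP n + (X + X ^ 2) * PP n ^ 2 + PP n ^ 4

open Polynomial in
theorem PP_deg (n : ℕ) : (PP n).natDegree = 2 * 4 ^ n := by
  have : Fact (Nat.Prime 2) := ⟨Nat.prime_two⟩
  induction n with
  | zero => simp [PP]
  | succ n ih =>
    have h4 : 1 ≤ 4 ^ n := Nat.one_le_pow _ _ (by norm_num)
    have hA : (X ^ 2 * PP n : (ZMod 2)[X]).natDegree ≤ 2 + 2 * 4 ^ n := by
      refine natDegree_mul_le.trans ?_
      rw [ih]; simp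
    have hB : ((X + X ^ 2) * PP n ^ 2 : (ZMod 2)[X]).natDegree ≤ 2 + 2 * (2 * 4 ^ n) := by
      refine natDegree_mul_le.trans ?_
      rw [natDegree_pow, ih]
      have : (X + X ^ 2 : (ZMod 2)[X]).natDegree ≤ 2 := by compute_degree
      omega
    have hC : (PP n ^ 4).natDegree = 4 * (2 * 4 ^ n) := by rw [natDegree_pow, ih]
    have hAB : (X ^ 2 * PP n + (X + X ^ 2) * PP n ^ 2 : (ZMod 2)[X]).natDegree
        < (PP n ^ 4).natDegree := by
      refine lt_of_le_of_lt (natDegree_add_le _ _) ?_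
      rw [hC]
      simp only [max_lt_iff]
      constructor <;> omega
    rw [PP, natDegree_add_eq_right_of_natDegree_lt hAB, hC]
    ring

theorem PP_eq (n : ℕ) :
    algebraMap (Polynomial (ZMod 2)) KK (PP n) = ph^[n] (ss ^ 2) := by
  induction n with
  | zero => simp [PP, ss]
  | succ n ih =>
    rw [Function.iterate_succ_apply', ← ih]
    simp [PP, ph, ss]

theorem iter_inj : Function.Injective (fun n : ℕ => ph^[n] (ss ^ 2)) := by
  intro a b h
  simp only [← PP_eq] at h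
  have h1 := RatFunc.algebraMap_injective (ZMod 2) h
  have h2 := congrArg Polynomial.natDegree h1
  rw [PP_deg, PP_deg] at h2
  have h3 : 4 ^ a = 4 ^ b := by omega
  exact Nat.pow_right_injective (by norm_num) h3

theorem roots_finite : {z : KK | (ph z) ^ 2 = ps (z ^ 2)}.Finite := by
  open Polynomial in
  have hne : (X ^ 8 + C (ss ^ 2 + ss ^ 4 + 1) * X ^ 4 + C (ss ^ 4 + ss ^ 2) * X ^ 2 : KK[X]) ≠ 0 := by
    apply Monic.ne_zero
    monicity!
  refine (Polynomial.finite_setOfPred_isRoot hne).subset ?_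
  intro z hz
  simp only [Set.mem_ofPred_eq, ph, ps] at hz
  simp only [Set.mem_ofPred_eq, Polynomial.IsRoot.def, Polynomial.eval_add, Polynomial.eval_mul,
    Polynomial.eval_pow, Polynomial.eval_X, Polynomial.eval_C]
  linear_combination hz - (ss ^ 2 * (ss + ss ^ 2) * z ^ 3 + ss ^ 2 * z ^ 5 + (ss + ss ^ 2) * z ^ 6
    + ss ^ 3 * z ^ 4 - z ^ 4 - ss ^ 2 * z ^ 2) * two_eq_zero

theorem result :
    ¬ (∀ (p : ℕ), p.Prime →
  ∀ (K : Type) [Field K] [Algebra (ZMod p) K] (θ : K), Transcendental (ZMod p) θ →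
  ∀ (g : ℕ) (r : Fin g → ℕ) (c : Fin g → ℕ → K),
    (∀ i, 1 ≤ r i) → (∀ i, c i 0 = θ) → (∀ i, c i (r i) ≠ 0) →
  ∀ (Ψ : Module.End (ZMod p) (Fin g → K)),
    (∀ (v : Fin g → K) (i : Fin g),
      Ψ v i = ∑ j ∈ Finset.range (r i + 1), c i j * v i ^ (p ^ j)) →
  ∀ (m : ℕ) (γ : Fin m → Fin g → K) (Γ : Set (Fin g → K)),
    Γ = Set.range (fun a : Fin m → Polynomial (ZMod p) =>
          ∑ k, (Polynomial.aeval Ψ (a k)) (γ k)) →
  ∀ (S : Set (MvPolynomial (Fin g) K)),
  ∃ (n : ℕ) (δ : Fin n → Fin g → K) (H : Fin n → AddSubgroup (Fin g → K)),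
    (∀ j, δ j ∈ Γ) ∧
    (∀ j, ((H j : AddSubgroup (Fin g → K)) : Set (Fin g → K)) ⊆ Γ) ∧
    (∀ j, ∀ x ∈ H j, Ψ x ∈ H j) ∧
    {x : Fin g → K | x ∈ Γ ∧ ∀ f ∈ S, MvPolynomial.eval x f = 0} =
      ⋃ j, {y : Fin g → K | ∃ s ∈ H j, y = δ j + s}) := by
  intro h
  have htr : Transcendental (ZMod 2) (ss ^ 2) :=
    (RatFunc.transcendental_X (K := ZMod 2)).pow (by norm_num)
  obtain ⟨n, δ, H, -, -, hH, hEq⟩ := h 2 Nat.prime_two KK (ss ^ 2) htr 2 ![2, 1]
    ![fun j => if j = 0 then ss ^ 2 else if j = 1 then ss + ss ^ 2 else 1,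
      fun j => if j = 0 then ss ^ 2 else 1]
    (by intro i; fin_cases i <;> simp) (by intro i; fin_cases i <;> simp)
    (by intro i; fin_cases i <;> simp) Psi
    (by
      intro v i
      rw [Psi_apply]
      fin_cases i <;> simp [Finset.sum_range_succ, ph, ps])
    2 ![![ss ^ 2, 0], ![0, (ss ^ 2) ^ 2]] _ rfl
    {MvPolynomial.X 1 - MvPolynomial.X 0 ^ 2}
  -- every point of a coset lies on the curve
  have hV : ∀ j, ∀ x ∈ H j, (δ j + x) 1 = ((δ j + x) 0) ^ 2 := by
    intro j x hx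
    have : δ j + x ∈ ⋃ j, {y : Fin 2 → KK | ∃ s ∈ H j, y = δ j + s} :=
      Set.mem_iUnion.2 ⟨j, x, hx, rfl⟩
    rw [← hEq] at this
    have h2 := this.2 _ rfl
    simp only [map_sub, map_pow, MvPolynomial.eval_X] at h2
    exact sub_eq_zero.1 h2
  have hV2 : ∀ j, ∀ x ∈ H j, x 1 = (x 0) ^ 2 := by
    intro j x hx
    have h1 := hV j x hx
    have h0 := hV j 0 (H j).zero_mem
    simp only [Pi.add_apply, Pi.zero_apply, add_zero] at h1 h0
    linear_combination h1 - h0 + (δ j 0 * x 0) * two_eq_zero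
  have hfin : ∀ j, ((H j : AddSubgroup (Fin 2 → KK)) : Set (Fin 2 → KK)).Finite := by
    intro j
    refine (roots_finite.image (fun z : KK => (![z, z ^ 2] : Fin 2 → KK))).subset ?_
    intro x hx
    have h1 := hV2 j x hx
    have h2 := hV2 j _ (hH j x hx)
    rw [Psi_apply] at h2
    simp only [Matrix.cons_val_one, Matrix.cons_val_zero, Matrix.cons_val_fin_one] at h2
    refine ⟨x 0, ?_, ?_⟩
    · simp only [Set.mem_ofPred_eq]
      rw [← h1, h2]
    · ext i
      fin_cases i <;> simp [h1]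
  have hUfin : (⋃ j, {y : Fin 2 → KK | ∃ s ∈ H j, y = δ j + s}).Finite := by
    refine Set.finite_iUnion fun j => ((hfin j).image (fun s => δ j + s)).subset ?_
    rintro y ⟨s, hs, rfl⟩
    exact ⟨s, hs, rfl⟩
  rw [← hEq] at hUfin
  refine Set.infinite_of_injective_forall_mem
    (f := fun k : ℕ => (![ph^[k] (ss ^ 2), (ph^[k] (ss ^ 2)) ^ 2] : Fin 2 → KK)) ?_ ?_ hUfin
  · intro a b hab
    have := congrFun hab 0
    simp only [Matrix.cons_val_zero] at this
    exact iter_inj this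
  · intro k
    refine ⟨⟨![Polynomial.X ^ k, Polynomial.X ^ (2 * k)], ?_⟩, ?_⟩
    · simp only [Fin.sum_univ_two, Matrix.cons_val_zero, Matrix.cons_val_one, map_pow,
        Polynomial.aeval_X, Matrix.cons_val_fin_one, Psi_pow]
      ext i
      fin_cases i <;> simp [ph_iter_zero, ps_iter_zero, ph_iter_sq]
    · intro f hf
      rw [Set.mem_singleton_iff.1 hf]
      simp

end Pool.Agent.S18540
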