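import Pool.Statements.S18608
import Pool.Agent.H18.Gap3

set_option autoImplicit false
open Necf28299
open Filter
open Pool Pool.MP_d49ebf_nt

namespace Pool.Agent.S18608

/-- The negation of the preceding statement: There exists an infinite set A ⊆ ℕ of positive integers, none of which is a sum of distinct smaller elements of A, such that eventually a_{n+1} − a_n < n (0-indexed nth, so gap A n = a_{n+1}−a_n in 1-indexed notation). -/
theorem result :
    ¬ (∃ A : Set ℕ, A.Infinite ∧ IsSubsetSumFree A ∧ ∀ᶠ n : ℕ in atTop, gap A n < n) := by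
  rintro ⟨A, hA, hS, hg⟩
  obtain ⟨n0, hn0⟩ := eventually_atTop.1 hg
  have hmono : StrictMono (Nat.nth (· ∈ A)) := Nat.nth_strictMono hA
  have hmem : ∀ n, Nat.nth (· ∈ A) n ∈ A := fun n => Nat.nth_mem_of_infinite hA n
  have hH : Pool.Agent.H18.Gap.Hy (Nat.nth (· ∈ A) n0 + 1) (Nat.nth (· ∈ A)) := by
    refine ⟨hmono, fun n => ?_⟩
    by_cases h : n0 ≤ n + 1
    · have h1 := hn0 (n + 1) h
      simp only [gap, Nat.add_sub_cancel] at h1
      have h2 : n + 1 ≤ (Nat.nth (· ∈ A) n0 + 1) * (n + 1) :=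
        Nat.le_mul_of_pos_left _ (by omega)
      omega
    · have h1 := hmono.monotone (show n + 1 ≤ n0 by omega)
      have h2 : Nat.nth (· ∈ A) n0 + 1 ≤ (Nat.nth (· ∈ A) n0 + 1) * (n + 1) :=
        Nat.le_mul_of_pos_right _ (by omega)
      omega
  obtain ⟨n, T, hn, hT⟩ := Pool.Agent.H18.Gap.main hH
  refine (hS _ (hmem n)).2 ⟨T.image (Nat.nth (· ∈ A)), ?_, ?_⟩
  · intro x hx
    obtain ⟨i, hi, rfl⟩ := Finset.mem_image.1 (Finset.mem_coe.1 hx)
    refine ⟨hmem i, lt_of_le_of_ne ?_ fun h => hn ((show i = n from hmono.injective h) ▸ hi)⟩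
    rw [hT]
    exact Finset.single_le_sum (f := Nat.nth (· ∈ A)) (fun _ _ => Nat.zero_le _) hi
  · rw [Finset.sum_image (fun x _ y _ h => hmono.injective h)]
    exact hT

end Pool.Agent.S18608
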