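import Pool.Statements.S18646
import Pool.Agent.H49.BigFin
import Pool.Agent.H61.BigZ
import Pool.Agent.Lead.Sel.All

set_option autoImplicit false
open Pool Pool.MP_d8a033_nt

namespace Pool.Agent.S18646

/-- The negation of the preceding statement: For every Dirichlet series in the Selberg class (normalisation, Ramanujan bound, Euler product, continuation of finite order, gamma-factor functional equation), the sum over primes p ≤ X of ∣a_p∣²/p equals n·loglog X + O(1) for some integer n. -/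
theorem result :
    ¬ (∀ a : ℕ → ℂ,
      a 1 = 1 →
      (∀ ε : ℝ, 0 < ε → ∃ C : ℝ, ∀ n : ℕ, 1 ≤ n → ‖a n‖ ≤ C * (n : ℝ) ^ ε) →
      (∃ b : ℕ → ℂ, (∀ n : ℕ, ¬ IsPrimePow n → b n = 0) ∧
        (∃ θ : ℝ, θ < 1 / 2 ∧ ∃ C : ℝ, ∀ n : ℕ, ‖b n‖ ≤ C * (n : ℝ) ^ θ) ∧
        ∀ s : ℂ, 1 < s.re → LSeries a s = Complex.exp (LSeries b s)) →
      (∃ m : ℕ, ∃ G : ℂ → ℂ, Differentiable ℂ G ∧
        (∃ A B : ℝ, ∀ z : ℂ, ‖G z‖ ≤ A * Real.exp (‖z‖ ^ B)) ∧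
        (∀ s : ℂ, 1 < s.re → G s = (s - 1) ^ m * LSeries a s) ∧
        ∃ Q : ℝ, 0 < Q ∧ ∃ k : ℕ, ∃ lam : Fin k → ℝ, ∃ μ : Fin k → ℂ,
          (∀ j, 0 < lam j) ∧ (∀ j, 0 ≤ (μ j).re) ∧
          ∃ ω : ℂ, ‖ω‖ = 1 ∧
            ∀ s : ℂ, s ≠ 1 → s ≠ 0 →
              (∀ j, ∀ t : ℕ, (lam j : ℂ) * s + μ j ≠ -(t : ℂ)) →
              (∀ j, ∀ t : ℕ, (lam j : ℂ) * (1 - starRingEnd ℂ s) + μ j ≠ -(t : ℂ)) →
              (Q : ℂ) ^ s * (∏ j, Complex.Gamma ((lam j : ℂ) * s + μ j)) *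
                  (G s / (s - 1) ^ m) =
                ω * starRingEnd ℂ
                  ((Q : ℂ) ^ (1 - starRingEnd ℂ s) *
                    (∏ j, Complex.Gamma ((lam j : ℂ) * (1 - starRingEnd ℂ s) + μ j)) *
                    (G (1 - starRingEnd ℂ s) / ((1 - starRingEnd ℂ s) - 1) ^ m))) →
      ∃ nF : ℤ, ∃ C : ℝ, ∀ X : ℝ, 3 ≤ X →
        |(∑ p ∈ (Finset.range (⌊X⌋₊ + 1)).filter Nat.Prime, ‖a p‖ ^ 2 / (p : ℝ))
            - (nF : ℝ) * Real.log (Real.log X)| ≤ C) := by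
  exact Pool.Agent.H49.Big.fin18646 (Pool.Agent.H61.Big.big Pool.Agent.Lead.Sel.hohAll
    Pool.Agent.Lead.Sel.ker0 Pool.Agent.Lead.Sel.mel)

end Pool.Agent.S18646
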