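import Pool.Statements.S18659
import Pool.Agent.H46.Tn.G

set_option autoImplicit false
open Pool Pool.MP_dac5dd_nt

namespace Pool.Agent.S18659

/-- There is a real transcendental T-number ξ (every Mahler exponent w_n(ξ) finite, w_n(ξ)/n unbounded) whose type, the limsup of log w_n(ξ)/log n, is strictly less than 3. -/
theorem result :
    ∃ ξ : ℝ, Transcendental ℤ ξ ∧
      (∀ n : ℕ, 1 ≤ n → ∃ W : ℝ,
        Set.Finite {P : Polynomial ℤ | P ≠ 0 ∧ P.natDegree ≤ n ∧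
          |Polynomial.aeval ξ P| ≤
            ((P.support.sup fun i => (P.coeff i).natAbs : ℕ) : ℝ) ^ (-W)}) ∧
      (∀ M : ℝ, ∃ n : ℕ, 1 ≤ n ∧
        Set.Infinite {P : Polynomial ℤ | P ≠ 0 ∧ P.natDegree ≤ n ∧
          |Polynomial.aeval ξ P| ≤
            ((P.support.sup fun i => (P.coeff i).natAbs : ℕ) : ℝ) ^ (-(M * (n : ℝ)))}) ∧
      (∃ t : ℝ, t < 3 ∧ ∃ N : ℕ, ∀ n : ℕ, N ≤ n → ∀ w : ℝ, (n : ℝ) ^ t < w →
        Set.Finite {P : Polynomial ℤ | P ≠ 0 ∧ P.natDegree ≤ n ∧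
          |Polynomial.aeval ξ P| ≤
            ((P.support.sup fun i => (P.coeff i).natAbs : ℕ) : ℝ) ^ (-w)}) := by
  open Pool.Agent.H46.Tn Polynomial in
  obtain ⟨ξ, M, B, α, G⟩ : ∃ ξ M B α, Good (fun k => 18 * 8 ^ k.unpair.1 + 1)
      (fun k => 7 * k.unpair.1 + 10) ξ M B α :=
    main _ _ (fun k => by have := Nat.one_le_pow k.unpair.1 8 (by norm_num); omega) (by omega)
  have U : ∀ n v, 1 ≤ n → 10800 * n ≤ v → n ^ 2 ≤ v → Up ξ n v := fun n v h h1 h2 =>
    G.up h h1 fun k hk => by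
      generalize k.unpair.1 = j at *
      calc 2 ^ (7 * j + 10) ≤ 2 ^ (9 * j + 12) := Nat.pow_le_pow_right two_pos (by omega)
        _ = 16 * 8 ^ j * (16 * 8 ^ j) ^ 2 := by rw [show 8 = 2 ^ 3 by rfl, ← pow_mul]; ring
        _ ≤ _ := Nat.mul_le_mul (by omega) (le_trans (Nat.pow_le_pow_left (by omega) _) h2)
  have U' := fun n h => U n (10800 * n + n ^ 2) h (by omega) (by omega)
  have T := tr fun N h => ⟨_, U' N h⟩
  simp only [hgt]
  refine ⟨ξ, T, fun n h => ⟨_, by simpa only [one_mul] using (U' n h).fin (lt_add_one _) one_pos⟩, fun m => ?_,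
    2, by norm_num, 10800, fun n h w hw => ?_⟩
  · obtain ⟨j, hj⟩ := pow_unbounded_of_one_lt m one_lt_two
    refine ⟨18 * 8 ^ j + 1, by omega, Set.Infinite.mono (fun P hP => ?_) (G.low (N := 18 * 8 ^ j + 1) (E := 7 * j + 10) (w := 2 ^ j * (18 * 8 ^ j + 1 : ℕ))
      (by positivity) ?_ (by omega) fun K => ⟨Nat.pair j K, Nat.right_le_pair _ _, by simp⟩).1⟩
    swap
    · have a : (1 : ℝ) ≤ 2 ^ j := one_le_pow₀ one_le_two
      have e : (8 : ℝ) ^ j = (2 ^ j) ^ 3 := by rw [← pow_mul, mul_comm, pow_mul]; norm_num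
      push_cast
      rw [e, pow_add, mul_comm 7, pow_mul]
      generalize (2 : ℝ) ^ j = x at *
      have b1 := one_le_pow₀ (n := 3) a
      have b2 := one_le_pow₀ (n := 4) a
      have b3 := one_le_pow₀ (n := 7) a
      calc _ ≤ (x * (19 * x ^ 3) + x ^ 4) * (21 * x ^ 3) + 2 * x ^ 7 := by gcongr <;> linarith
        _ ≤ _ := by nlinarith
    obtain ⟨a, b, c⟩ := hP
    have P0 : P ≠ 0 := by rintro rfl; simp at b
    exact ⟨P0, a, c.trans (Real.rpow_le_rpow_of_exponent_le (Pool.Agent.H46.Wx.sup1 P0)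
      (neg_le_neg (by gcongr)))⟩
  simpa using (U n (n ^ 2) (by omega) (by nlinarith) le_rfl).fin (by simpa using hw) one_pos

end Pool.Agent.S18659
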