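import Pool.Statements.S18664

set_option autoImplicit false
open Pool Pool.MP_daf011_nt

namespace Pool.Agent.S18664

open Polynomial

lemma exists_root (q : ℝ) (hq : 1 ≤ q) :
    ∃ r : ℝ, -1 / q ≤ r ∧ r < 0 ∧ q * r ^ 3 + q * r + 1 = 0 := by
  have hq0 : 0 < q := by linarith
  have hcont : ContinuousOn (fun r : ℝ => q * r ^ 3 + q * r + 1) (Set.Icc (-1 / q) 0) := by
    fun_prop
  have hle : -1 / q ≤ 0 := by
    apply div_nonpos_of_nonpos_of_nonneg <;> linarith
  have h0 : (0 : ℝ) ∈ Set.Icc (q * (-1 / q) ^ 3 + q * (-1 / q) + 1) (q * 0 ^ 3 + q * 0 + 1) := by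
    constructor
    · have : q * (-1 / q) ^ 3 + q * (-1 / q) + 1 = -1 / q ^ 2 := by field_simp; ring
      rw [this]
      apply div_nonpos_of_nonpos_of_nonneg <;> [linarith; positivity]
    · norm_num
  obtain ⟨r, hr, hr0⟩ := intermediate_value_Icc hle hcont h0
  refine ⟨r, hr.1, ?_, hr0⟩
  rcases lt_or_eq_of_le hr.2 with h | h
  · exact h
  · exfalso; subst h; simp at hr0

lemma norm_sq_of_quad (r : ℝ) (z : ℂ) (hz : z ^ 2 + r * z + (1 + r ^ 2) = 0) :
    ‖z‖ ^ 2 = 1 + r ^ 2 := by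
  have h1 := congrArg Complex.re hz
  have h2 := congrArg Complex.im hz
  simp [pow_two] at h1 h2
  rw [Complex.sq_norm, Complex.normSq_apply]
  have hy : z.im ≠ 0 := by
    intro h
    rw [h] at h1
    nlinarith [sq_nonneg (z.re + r / 2), sq_nonneg r]
  have hx : z.re = -r / 2 := by
    have : z.im * (2 * z.re + r) = 0 := by linarith
    rcases mul_eq_zero.mp this with h | h
    · exact absurd h hy
    · linarith
  rw [hx] at h1 ⊢
  nlinarith

/-- The negation: the polynomials q X^3 + q X + 1 have largest root modulus about 1 + 1/(2 q^2). -/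
theorem result :
    ¬ (∃ c : ℝ, 0 < c ∧
      ∀ P : Polynomial ℤ, 0 < P.natDegree →
        (∃ z : ℂ, Polynomial.aeval z P = 0 ∧ 1 < ‖z‖) →
        ∃ z : ℂ, Polynomial.aeval z P = 0 ∧
          1 + c / (|((P.leadingCoeff : ℤ) : ℝ)| * (P.natDegree : ℝ)) < ‖z‖) := by
  rintro ⟨c, hc, H⟩
  obtain ⟨n, hn⟩ := exists_nat_gt (3 / c)
  set q : ℤ := (n : ℤ) + 1 with hqdef
  have hq1 : (1 : ℝ) ≤ (q : ℝ) := by
    rw [hqdef]; push_cast; have := Nat.cast_nonneg (α := ℝ) n; linarith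
  have hq0 : q ≠ 0 := by omega
  have hqc : 3 < c * (q : ℝ) := by
    rw [div_lt_iff₀ hc] at hn
    rw [hqdef]; push_cast; nlinarith
  let P : Polynomial ℤ := C q * X ^ 3 + C q * X + 1
  have hdeg : P.natDegree = 3 := by
    simp only [P]
    compute_degree!
  have hlc : P.leadingCoeff = q := by
    rw [leadingCoeff, hdeg]
    simp only [P, coeff_add, coeff_C_mul, coeff_X_pow, coeff_X, coeff_one]
    simp
  obtain ⟨r, hr1, hr2, hr3⟩ := exists_root (q : ℝ) hq1
  have hfac : ∀ z : ℂ, Polynomial.aeval z P = (q : ℂ) * ((z - r) * (z ^ 2 + r * z + (1 + r ^ 2))) := by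
    intro z
    have h3 : ((q : ℂ) * (r : ℂ) ^ 3 + q * r + 1) = 0 := by exact_mod_cast hr3
    simp only [P, map_add, map_mul, map_pow, aeval_X, aeval_C, map_one]
    simp only [algebraMap_int_eq, eq_intCast]
    linear_combination h3
  have hs : 0 ≤ 1 + 3 * r ^ 2 / 4 := by positivity
  have hz0 : ((⟨-r / 2, Real.sqrt (1 + 3 * r ^ 2 / 4)⟩ : ℂ)) ^ 2
      + r * (⟨-r / 2, Real.sqrt (1 + 3 * r ^ 2 / 4)⟩ : ℂ) + (1 + r ^ 2) = 0 := by
    have := Real.mul_self_sqrt hs
    apply Complex.ext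
    · simp [pow_two] at this ⊢
      nlinarith
    · simp [pow_two]
      ring
  have hpos : 0 < r ^ 2 := by nlinarith
  obtain ⟨z, hz, hzn⟩ := H P (by rw [hdeg]; norm_num) ⟨_, by rw [hfac, hz0]; simp, by
    have := norm_sq_of_quad r _ hz0
    nlinarith [norm_nonneg ((⟨-r / 2, Real.sqrt (1 + 3 * r ^ 2 / 4)⟩ : ℂ))]⟩
  rw [hlc, hdeg, abs_of_pos (by linarith : (0 : ℝ) < (q : ℝ))] at hzn
  have hqpos : (0 : ℝ) < q := by linarith
  have hrq : r ^ 2 * (q : ℝ) ^ 2 ≤ 1 := by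
    rw [div_le_iff₀ hqpos] at hr1
    have h : r * q < 0 := by nlinarith
    nlinarith
  have hd : r ^ 2 ≤ c / ((q : ℝ) * ((3 : ℕ) : ℝ)) := by
    rw [le_div_iff₀ (by positivity)]
    push_cast
    nlinarith
  have hdpos : 0 < c / ((q : ℝ) * ((3 : ℕ) : ℝ)) := by positivity
  rw [hfac] at hz
  have hqc0 : (q : ℂ) ≠ 0 := by exact_mod_cast hq0
  rcases mul_eq_zero.mp ((mul_eq_zero.mp hz).resolve_left hqc0) with h | h
  · have : z = r := by linear_combination h
    rw [this, Complex.norm_real, Real.norm_eq_abs, abs_of_neg hr2] at hzn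
    rw [div_le_iff₀ hqpos] at hr1
    nlinarith
  · have := norm_sq_of_quad r z h
    nlinarith [norm_nonneg z]

end Pool.Agent.S18664
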