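import Pool.Statements.S18717
import Pool.Agent.H63.SiegelPoly

set_option autoImplicit false
open Polynomial
open Pool Pool.MP_df6954_nt

namespace Pool.Agent.S18717

open Pool.Agent.H63.PolyL1 Pool.Agent.H63.Elim Pool.Agent.H63.SiegelPoly

lemma no_common (N : ℕ) (hN : 1 ≤ N) (z : ℂ) (h0 : z ^ N = 1) (h1 : (z + 1) ^ N = 1)
    (h2 : (z - 1) ^ N = 1) : False := by
  have hN' : N ≠ 0 := by omega
  have e0 := Complex.norm_eq_one_of_pow_eq_one h0 hN'
  have e1 := Complex.norm_eq_one_of_pow_eq_one h1 hN'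
  have e2 := Complex.norm_eq_one_of_pow_eq_one h2 hN'
  have := parallelogram_law_with_norm ℂ z 1
  rw [e0, e1, e2, norm_one] at this
  norm_num at this

lemma exists_w (N : ℕ) (hN : 1 ≤ N) (P : ℤ[X]) (hP : P ≠ 0) {A : Type} [CommRing A]
    (φ : ℤ[X] →+* A) (h0 : φ X ^ N = 1) (h1 : (φ X + 1) ^ N = 1) (h2 : (φ X - 1) ^ N = 1) :
    ∃ w : ℤ[X], w.Monic ∧ w.natDegree = N ∧ φ w = 0 ∧ (∀ z : ℂ, aeval z w ≠ 0 ∨ aeval z P ≠ 0) ∧
      L w ≤ (2 * P.natDegree + 2) ^ 2 * (2 ^ N * 2 ^ N) := by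
  obtain ⟨c, hc, hcz⟩ := exists_good_c P hP 2
    (fun z => C (z ^ N - 1) + C ((z + 1) ^ N - z ^ N) * X + C ((z - 1) ^ N - z ^ N) * X ^ 2) (by
      intro z
      refine ⟨fun h => ?_, by compute_degree⟩
      have c0 := congrArg (fun p => coeff p 0) h
      have c1 := congrArg (fun p => coeff p 1) h
      have c2 := congrArg (fun p => coeff p 2) h
      simp only [coeff_add, coeff_C_mul, coeff_C, coeff_X, coeff_X_pow, coeff_zero] at c0 c1 c2
      norm_num at c0 c1 c2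
      exact no_common N hN z (by linear_combination c0) (by linear_combination c0 + c1)
        (by linear_combination c0 + c2))
  have hd : (X ^ N - 1 : ℤ[X]).degree = N := by
    simpa using degree_X_pow_sub_C (R := ℤ) (n := N) hN 1
  have hm : (X ^ N - 1 : ℤ[X]).Monic := by
    simpa using monic_X_pow_sub_C (1 : ℤ) (n := N) (by omega)
  have hlt : ∀ b : ℤ, ((X - C b) ^ N - X ^ N : ℤ[X]).degree < N := by
    intro b
    have e1 : ((X - C b) ^ N : ℤ[X]).degree = N := by rw [degree_pow, degree_X_sub_C]; simp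
    have := degree_sub_lt_left (p := (X - C b) ^ N) (q := X ^ N) (by rw [e1, degree_X_pow])
      (pow_ne_zero _ (X_sub_C_ne_zero b))
      (by rw [((monic_X_sub_C b).pow N).leadingCoeff, (monic_X_pow N).leadingCoeff])
    rwa [e1] at this
  have hL : ∀ b : ℤ, |b| ≤ 1 → L ((X - C b) ^ N - X ^ N : ℤ[X]) ≤ 2 ^ N * 2 ^ N := by
    intro b hb
    refine (L_sub _ _).trans ?_
    have e1 : L ((X - C b) ^ N) ≤ 2 ^ N := (L_pow _ _).trans
      (pow_le_pow_left₀ (L_nonneg _) ((L_X_sub_C _).trans (by linarith)) _)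
    have e2 := L_pow X N
    rw [L_X, one_pow] at e2
    have e3 : (2 : ℤ) ^ 1 ≤ 2 ^ N := pow_le_pow_right₀ (by norm_num) hN
    nlinarith
  have hr : (C (c : ℤ) * ((X - C (-1)) ^ N - X ^ N) + C ((c : ℤ) ^ 2) * ((X - C 1) ^ N - X ^ N)
      : ℤ[X]).degree < (X ^ N - 1 : ℤ[X]).degree := by
    rw [hd]
    refine (degree_add_le _ _).trans_lt (max_lt ?_ ?_)
    · rw [← smul_eq_C_mul]; exact (degree_smul_le _ _).trans_lt (hlt _)
    · rw [← smul_eq_C_mul]; exact (degree_smul_le _ _).trans_lt (hlt _)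
  refine ⟨(X ^ N - 1) + (C (c : ℤ) * ((X - C (-1)) ^ N - X ^ N)
    + C ((c : ℤ) ^ 2) * ((X - C 1) ^ N - X ^ N)), hm.add_of_left hr, ?_, ?_, ?_, ?_⟩
  · rw [natDegree_add_eq_left_of_degree_lt hr, natDegree_eq_of_degree_eq_some hd]
  · simp [h0, h1, h2]
  · intro z
    refine (hcz z).imp_left fun h h' => h ?_
    simp only [map_add, map_sub, map_mul, map_pow, aeval_X, aeval_C, map_one, map_neg,
      map_natCast, eval_add, eval_mul, eval_C, eval_X, eval_pow, eval_sub, eval_one,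
      sub_neg_eq_add] at h' ⊢
    linear_combination h'
  · have e0 : L (X ^ N - 1) ≤ 2 := by
      refine (L_sub _ _).trans ?_
      have e2 := L_pow X N
      rw [L_X, one_pow] at e2
      rw [L_one]; linarith
    have e1 := (L_mul (C (c : ℤ)) _).trans (mul_le_mul_of_nonneg_left (hL (-1) (by simp))
      (L_nonneg _))
    have e2 := (L_mul (C ((c : ℤ) ^ 2)) _).trans (mul_le_mul_of_nonneg_left (hL 1 (by simp))
      (L_nonneg _))
    rw [L_C, Nat.abs_cast] at e1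
    rw [L_C, abs_pow, Nat.abs_cast] at e2
    have e3 : (1 : ℤ) ≤ 2 ^ N * 2 ^ N := one_le_mul_of_one_le_of_one_le
      (one_le_pow₀ (by norm_num)) (one_le_pow₀ (by norm_num))
    have e4 : (c : ℤ) ≤ 2 * P.natDegree := by exact_mod_cast hc
    have e5 : (0 : ℤ) ≤ c := Int.natCast_nonneg c
    refine ((L_add _ _).trans (add_le_add e0 ((L_add _ _).trans (add_le_add e1 e2)))).trans ?_
    generalize (2 : ℤ) ^ N * 2 ^ N = T at e3 ⊢
    have e6 : 2 + c + (c : ℤ) ^ 2 ≤ (2 * P.natDegree + 2) ^ 2 := by nlinarith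
    nlinarith

/-- For every ε>0 there is c such that for all N≥1 the log of the size of the ring ℤ[T] modulo T^N−1, (T+1)^N−1, (T−1)^N−1 is at most εN²+c. -/
theorem result :
    ∀ ε : ℝ, 0 < ε → ∃ c : ℝ, ∀ N : ℕ, 1 ≤ N →
      Real.log ((Nat.card (Polynomial ℤ ⧸ Ideal.span
        ({X ^ N - 1, (X + 1) ^ N - 1, (X - 1) ^ N - 1} : Set (Polynomial ℤ))) : ℕ) : ℝ)
        ≤ ε * (N : ℝ) ^ 2 + c := by
  intro ε hε
  obtain ⟨s, hs⟩ := exists_nat_ge (45 / ε + 2)
  have hε' : 0 < 45 / ε := by positivity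
  have hs2 : 2 ≤ s := by
    have : (2 : ℝ) ≤ s := by linarith
    exact_mod_cast this
  have hsr : (2 : ℝ) ≤ s := by exact_mod_cast hs2
  have hs3 : 15 / (s : ℝ) ≤ ε / 3 := by
    rw [div_le_div_iff₀ (by positivity) (by norm_num)]
    have : 45 / ε ≤ s := by linarith
    rw [div_le_iff₀ hε] at this
    linarith
  let a : Fin 3 → ℤ := ![0, -1, 1]
  let ex : (Fin 3 → Fin (2 * s ^ 2 + 1)) → Fin 3 → ℕ := fun m t => m t
  have ha1 : ∀ t, |a t| ≤ 1 := by decide
  have hexD : ∀ m t, ex m t ≤ 2 * s ^ 2 := fun m t => Nat.lt_succ_iff.1 (m t).2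
  obtain ⟨c0, hc0, hcore⟩ := core a 3 (ε / 3) (by norm_num) (by positivity) s hs2 (by decide) ha1
    (by simp) (by simp) ex (fun m m' h => funext fun t => Fin.ext (congrFun h t)) hexD
    (β := Fin 3 → Fin (2 * s ^ 2 + 1)) (by simp; gcongr; omega)
  obtain ⟨c2, hc2, hc2'⟩ := poly_le (4 + 2 * c0) 1 (by positivity) one_pos 2
  set N0 := 2 ^ Fintype.card (Fin 3 → Fin (2 * s ^ 2 + 1)) * Fintype.card (Fin 3) with hN0
  set f : ℕ → ℝ := fun N => Real.log ((Nat.card (Polynomial ℤ ⧸ Ideal.span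
        ({X ^ N - 1, (X + 1) ^ N - 1, (X - 1) ^ N - 1} : Set (Polynomial ℤ))) : ℕ) : ℝ) with hf
  have hf0 : ∀ N, 0 ≤ f N := fun N => Real.log_natCast_nonneg _
  have hsum : 0 ≤ ∑ N ∈ Finset.range N0, f N := Finset.sum_nonneg fun N _ => hf0 N
  refine ⟨∑ N ∈ Finset.range N0, f N + ((4 * c0 + c2) ^ 2 / (4 * (ε / 3)) + c0 * c2), ?_⟩
  intro N hN
  change f N ≤ _
  by_cases hsmall : N < N0
  · have := Finset.single_le_sum (f := f) (fun N _ => hf0 N) (Finset.mem_range.2 hsmall)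
    have h2 : 0 ≤ ε * (N : ℝ) ^ 2 + ((4 * c0 + c2) ^ 2 / (4 * (ε / 3)) + c0 * c2) := by positivity
    linarith
  set I : Ideal ℤ[X] := Ideal.span
    ({X ^ N - 1, (X + 1) ^ N - 1, (X - 1) ^ N - 1} : Set (Polynomial ℤ)) with hI
  let φ := Ideal.Quotient.mk I
  have hone : ∀ p : ℤ[X], p - 1 ∈ ({X ^ N - 1, (X + 1) ^ N - 1, (X - 1) ^ N - 1} : Set ℤ[X]) →
      φ p = 1 := by
    intro p hp
    rw [← map_one φ, Ideal.Quotient.eq]
    exact Ideal.subset_span hp
  have h0 : φ X ^ N = 1 := by simpa using hone (X ^ N) (by simp)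
  have h1 : (φ X + 1) ^ N = 1 := by
    have := hone ((X + 1) ^ N) (by simp)
    rwa [map_pow, map_add, map_one] at this
  have h2 : (φ X - 1) ^ N = 1 := by
    have := hone ((X - 1) ^ N) (by simp)
    rwa [map_pow, map_sub, map_one] at this
  obtain ⟨P, hP0, hP1, hP2, hP3⟩ := hcore N N hN le_rfl (not_lt.1 hsmall)
    (fun b => ff a N (ex b)) 0 (fun b => natDegree_ff a (by simp) N _ _ (hexD b))
    (fun b => by simpa using L_ff a ha1 (by simp) N _ _ (hexD b))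
    (fun c hc h => ⟨id, hc, by simp [h]⟩) _ φ (by simp)
    (fun m => by simp [ff, a, Fin.prod_univ_three, pow_mul, h0, h1, h2])
  obtain ⟨w, hw1, hw2, hw3, hw4, hw5⟩ := exists_w N hN P hP0 φ h0 h1 h2
  have hNr : (1 : ℝ) ≤ N := by exact_mod_cast hN
  have hNs : (N : ℝ) / s ≤ N := div_le_self (by positivity) (by linarith)
  have hw6 : (L w : ℝ) ≤ Real.exp (3 * N + c2) := by
    have e1 : (L w : ℝ) ≤ (2 * P.natDegree + 2) ^ 2 * (2 ^ N * 2 ^ N) := by exact_mod_cast hw5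
    have e2 : (2 : ℝ) ^ N ≤ Real.exp N := by
      rw [← mul_one (N : ℝ), Real.exp_nat_mul]
      gcongr
      linarith [Real.add_one_le_exp 1]
    have e3 : (2 * P.natDegree + 2 : ℝ) ≤ (4 + 2 * c0) * N := by nlinarith
    calc (L w : ℝ) ≤ ((4 + 2 * c0) * N) ^ 2 * (Real.exp N * Real.exp N) := e1.trans (by gcongr)
      _ ≤ Real.exp (1 * N + c2) * (Real.exp N * Real.exp N) := by
          gcongr; exact hc2' N (by positivity)
      _ = _ := by rw [← Real.exp_add, ← Real.exp_add]; ring_nf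
  have hfin := log_bound _ _ _ _ _ N _ _ _
    (card_le φ Ideal.Quotient.mk_surjective w P hw1 hw3 hP1 hw4) (L_nonneg _) (L_nonneg _) hP3 hw6
    (by positivity) (by positivity) (by rw [hw2]) hP2
  have hlin := lin_le (4 * c0 + c2) (ε / 3) (by positivity) N
  change f N ≤ _ at hfin
  have e1 : (N : ℝ) / s * c2 ≤ N * c2 := by gcongr
  have e2 : 15 / (s : ℝ) * N ^ 2 ≤ ε / 3 * N ^ 2 := by gcongr
  have e3 : (N : ℝ) * ((4 * 3 / s + ε / 3) * N + c0) + (N / s + c0) * (3 * N + c2)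
      = 15 / s * N ^ 2 + ε / 3 * N ^ 2 + 4 * c0 * N + N / s * c2 + c0 * c2 := by ring
  linarith

end Pool.Agent.S18717
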