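import Pool.Statements.S18806
-- import your own Pool.Agent.* helpers here

set_option autoImplicit false
open Pool Pool.MP_e664f7_nt

namespace Pool.Agent.S18806

open Finset

def Sm (y m : ℕ) : Prop := ∀ p, p.Prime → p ∣ m → p < y

open Classical in
noncomputable def W (y a b : ℕ) : Finset ℕ := (Ioc (2 ^ a) (2 ^ b)).filter (Sm y)

lemma mem_W {y a b m : ℕ} : m ∈ W y a b ↔ 2 ^ a < m ∧ m ≤ 2 ^ b ∧ Sm y m := by
  simp only [W, Finset.mem_filter, Finset.mem_Ioc, and_assoc]

lemma c_mono {y : ℕ} (hy : 2 < y) : Monotone fun i => (W y i (i + 1)).card := by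
  refine monotone_nat_of_le_succ fun i => ?_
  refine Finset.card_le_card_of_injOn (fun m => 2 * m) (fun m hm => ?_) fun a _ b _ h => by
    simpa using h
  obtain ⟨h1, h2, h3⟩ := mem_W.1 hm
  change 2 * m ∈ W y (i + 1) (i + 1 + 1)
  refine mem_W.2 ⟨by rw [pow_succ]; omega, by rw [pow_succ 2 (i + 1)]; omega, fun p hp h => ?_⟩
  rcases (Nat.Prime.dvd_mul hp).1 h with h | h
  · have := Nat.le_of_dvd two_pos h; omega
  · exact h3 p hp h

lemma c_pos {y : ℕ} (hy : 2 < y) (i : ℕ) : 0 < (W y i (i + 1)).card :=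
  Finset.card_pos.2 ⟨2 ^ (i + 1), mem_W.2 ⟨by rw [pow_succ]; have := Nat.two_pow_pos i; omega, le_rfl,
    fun p hp h => by have := Nat.le_of_dvd two_pos (hp.dvd_of_dvd_pow h); omega⟩⟩

lemma c_le (y i : ℕ) : (W y i (i + 1)).card ≤ (i + 2) ^ y := by
  have h := Finset.card_le_card_of_injOn (s := W y i (i + 1))
    (t := Fintype.piFinset fun _ : Fin y => range (i + 2)) (fun m p => m.factorization p)
    (fun m hm => by
      obtain ⟨h1, h2, _⟩ := mem_W.1 hm
      simp only [Finset.mem_coe, Fintype.mem_piFinset, Finset.mem_range]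
      intro p
      by_cases hp : (p : ℕ).Prime
      · have h3 := Nat.le_of_dvd (by omega) (Nat.ordProj_dvd m p)
        have h4 : 2 ^ m.factorization p ≤ 2 ^ (i + 1) :=
          (Nat.pow_le_pow_left hp.two_le _).trans (h3.trans h2)
        have := (Nat.pow_le_pow_iff_right (by norm_num)).1 h4
        omega
      · rw [Nat.factorization_eq_zero_of_not_prime _ hp]; omega)
    (fun a ha b hb h => by
      obtain ⟨a1, _, a3⟩ := mem_W.1 ha
      obtain ⟨b1, _, b3⟩ := mem_W.1 hb
      refine Nat.eq_of_factorization_eq (by omega) (by omega) fun p => ?_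
      by_cases hp : p < y
      · exact congrFun h ⟨p, hp⟩
      · by_cases hq : p.Prime
        · rw [Nat.factorization_eq_zero_of_not_dvd fun h => hp (a3 p hq h),
            Nat.factorization_eq_zero_of_not_dvd fun h => hp (b3 p hq h)]
        · simp [Nat.factorization_eq_zero_of_not_prime _ hq])
  simpa using h

lemma good {y : ℕ} (hy : 2 < y) (L : ℕ) :
    ∃ i, (W y (i + L) (i + L + 1)).card ≤ 2 * (W y i (i + 1)).card := by
  by_contra h
  push Not at h
  have h1 : ∀ k, 2 ^ k ≤ (W y (k * L) (k * L + 1)).card := by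
    intro k
    induction k with
    | zero => exact c_pos hy _
    | succ k ih => have := h (k * L); rw [add_one_mul, pow_succ]; omega
  have h2 := (tendsto_pow_const_div_const_pow_of_one_lt y (show (1 : ℝ) < 2 by norm_num)).eventually
    (gt_mem_nhds (show (0 : ℝ) < 1 / ((L : ℝ) + 2) ^ y by positivity))
  obtain ⟨k, hk, hk1⟩ := (h2.and (Filter.eventually_ge_atTop 1)).exists
  have h3 : 2 ^ k ≤ ((L + 2) * k) ^ y :=
    (h1 k).trans ((c_le y _).trans (Nat.pow_le_pow_left (by nlinarith) _))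
  have h4 : (2 : ℝ) ^ k ≤ ((L : ℝ) + 2) ^ y * k ^ y := by rw [← mul_pow]; exact_mod_cast h3
  rw [div_lt_div_iff₀ (by positivity) (by positivity)] at hk
  linarith

lemma W_le {y : ℕ} (hy : 2 < y) (i L : ℕ) :
    (W y i (i + L)).card ≤ L * (W y (i + L) (i + L + 1)).card := by
  induction L with
  | zero => simp [W]
  | succ L ih =>
    have h1 : W y i (i + (L + 1)) ⊆ W y i (i + L) ∪ W y (i + L) (i + L + 1) := by
      intro m hm
      obtain ⟨a1, a2, a3⟩ := mem_W.1 hm
      rcases le_or_gt m (2 ^ (i + L)) with h | h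
      · exact Finset.mem_union_left _ (mem_W.2 ⟨a1, h, a3⟩)
      · exact Finset.mem_union_right _ (mem_W.2 ⟨h, a2, a3⟩)
    have h2 := (Finset.card_le_card h1).trans (Finset.card_union_le _ _)
    have h3 : (W y (i + L) (i + L + 1)).card ≤ (W y (i + (L + 1)) (i + (L + 1) + 1)).card :=
      c_mono hy (show i + L ≤ i + (L + 1) by omega)
    nlinarith

lemma prod_ge (k : ℕ) : 1 / (4 * (2 * (k : ℝ) + 1)) ≤
    (∏ p ∈ (2 * k + 3).primesBelow, (1 - (p : ℝ)⁻¹)) ^ 2 := by
  induction k with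
  | zero => have : (2 * 0 + 3).primesBelow = {2} := by decide
            rw [this]; norm_num
  | succ k ih =>
    have h1 : ¬ (2 * k + 4).Prime := fun h => by
      have := h.eq_one_or_self_of_dvd 2 ⟨k + 2, by ring⟩; omega
    rw [show 2 * (k + 1) + 3 = (2 * k + 4) + 1 by ring, Nat.primesBelow_succ, if_neg h1,
      show 2 * k + 4 = (2 * k + 3) + 1 by ring, Nat.primesBelow_succ]
    have hk : (0 : ℝ) ≤ k := by positivity
    split_ifs with h
    · rw [Finset.prod_insert (Nat.notMem_primesBelow _), mul_pow]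
      refine le_trans ?_ (mul_le_mul_of_nonneg_left ih (by positivity))
      push_cast
      rw [show 1 - (2 * (k : ℝ) + 3)⁻¹ = (2 * k + 2) / (2 * k + 3) by field_simp; ring, div_pow,
        div_mul_div_comm, div_le_div_iff₀ (by positivity) (by positivity)]
      nlinarith
    · refine le_trans ?_ ih
      push_cast
      gcongr; linarith

lemma cop_count (P u : ℕ) : ((Ico 1 (1 + P * u)).filter (fun t => P.Coprime t)).card =
    P.totient * u := by
  induction u with
  | zero => simp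
  | succ u ih =>
    rw [← Finset.Ico_union_Ico_eq_Ico (b := 1 + P * u) (by omega) (by nlinarith), Finset.filter_union,
      Finset.card_union_of_disjoint (Finset.disjoint_filter_filter (Finset.Ico_disjoint_Ico_consecutive _ _ _)),
      ih, show 1 + P * (u + 1) = 1 + P * u + P by ring, Nat.filter_coprime_Ico_eq_totient]
    ring

lemma main (k L : ℕ) (hkL : 2 ^ L ≤ 2 * k + 3) (T : ℝ) (hT : 0 < T) (hT1 : 4 * (2 * (k : ℝ) + 1) ≤ T ^ 2)
    (hT2 : 8 * L * T ≤ 2 ^ L) (hL : 1 ≤ L) :
    ∃ n : ℕ, ∃ A : Finset ℕ, A.Nonempty ∧ (∀ a ∈ A, 0 < a ∧ a ≤ n) ∧ ∃ x : ℕ, n < x ∧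
      2 * ((((Finset.Icc 1 n).filter (fun m => ∃ a ∈ A, a ∣ m)).card : ℝ) / (n : ℝ)) ≤
        ((((Finset.Icc 1 x).filter (fun m => ∃ a ∈ A, a ∣ m)).card : ℝ) / (x : ℝ)) := by
  classical
  set y := 2 * k + 3 with hy
  have hy2 : 2 < y := by omega
  obtain ⟨i, hi⟩ := good hy2 L
  set P := ∏ p ∈ y.primesBelow, p with hP
  have hPp : ∀ p ∈ y.primesBelow, p.Prime := fun p hp => Nat.prime_of_mem_primesBelow hp
  have hP0 : 0 < P := Finset.prod_pos fun p hp => (hPp p hp).pos
  set n := 2 ^ (i + L) with hn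
  set M := (n + 1).factorial with hM
  have hM0 : 0 < M := Nat.factorial_pos _
  have hsub : W y i (i + 1) ⊆ W y i (i + L) := fun m hm => by
    obtain ⟨a1, a2, a3⟩ := mem_W.1 hm
    exact mem_W.2 ⟨a1, a2.trans (Nat.pow_le_pow_right (by norm_num) (by omega)), a3⟩
  have hA : ∀ a ∈ W y i (i + L), 0 < a ∧ a ≤ n := fun a ha =>
    ⟨(Nat.zero_le _).trans_lt (mem_W.1 ha).1, (mem_W.1 ha).2.1⟩
  refine ⟨n, W y i (i + L), (Finset.card_pos.1 (c_pos hy2 i)).mono hsub, hA, P * M, ?_, ?_⟩
  · have := Nat.self_le_factorial (n + 1); nlinarith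
  have h1 : ((Finset.Icc 1 n).filter (fun m => ∃ a ∈ W y i (i + L), a ∣ m)).card ≤
      L * (2 * (W y i (i + 1)).card) := by
    refine le_trans (Finset.card_le_card fun m hm => ?_) ((W_le hy2 i L).trans (by gcongr))
    obtain ⟨b1, a, ha, j, rfl⟩ := Finset.mem_filter.1 hm
    obtain ⟨a1, a2, a3⟩ := mem_W.1 ha
    obtain ⟨b2, b3⟩ := Finset.mem_Icc.1 b1
    have j0 : 0 < j := Nat.pos_of_ne_zero (by rintro rfl; simp at b2)
    refine mem_W.2 ⟨by nlinarith, b3, fun p hp h => ?_⟩
    rcases (Nat.Prime.dvd_mul hp).1 h with h | h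
    · exact a3 p hp h
    · have c1 := Nat.le_of_dvd j0 h
      have c2 : 2 ^ i * j < 2 ^ i * 2 ^ L := by rw [← pow_add]; nlinarith
      have := Nat.lt_of_mul_lt_mul_left c2
      omega
  have hd : ∀ a ∈ W y i (i + 1), a ∣ M := fun a ha =>
    Nat.dvd_factorial (hA a (hsub ha)).1 (by have := (hA a (hsub ha)).2; omega)
  have hcop : ∀ a t, Sm y a → P.Coprime t → a.Coprime t := fun a t ha ht =>
    Nat.coprime_of_dvd fun p hp h1 h2 => hp.one_lt.ne' (Nat.eq_one_of_dvd_coprimes ht
      (Finset.dvd_prod_of_mem _ (Nat.mem_primesBelow.2 ⟨ha p hp h1, hp⟩)) h2)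
  have h2 : ∑ a ∈ W y i (i + 1), P.totient * (M / a) ≤
      ((Finset.Icc 1 (P * M)).filter (fun m => ∃ a ∈ W y i (i + L), a ∣ m)).card := by
    have e1 : ∀ a ∈ W y i (i + 1), P.totient * (M / a) =
        (((Ico 1 (1 + P * (M / a))).filter (fun t => P.Coprime t)).image (a * ·)).card := by
      intro a ha
      rw [Finset.card_image_of_injective _ fun s t h =>
        Nat.eq_of_mul_eq_mul_left (hA a (hsub ha)).1 h, cop_count]
    rw [Finset.sum_congr rfl e1, ← Finset.card_biUnion]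
    · refine Finset.card_le_card fun m hm => ?_
      obtain ⟨a, ha, hm⟩ := Finset.mem_biUnion.1 hm
      obtain ⟨t, ht, rfl⟩ := Finset.mem_image.1 hm
      obtain ⟨t1, t2⟩ := Finset.mem_Ico.1 (Finset.mem_filter.1 ht).1
      have a0 := (hA a (hsub ha)).1
      refine Finset.mem_filter.2 ⟨Finset.mem_Icc.2 ⟨by nlinarith, ?_⟩, a, hsub ha, dvd_mul_right _ _⟩
      rw [← Nat.mul_div_cancel' (hd a ha), mul_left_comm]
      exact Nat.mul_le_mul_left _ (by omega)
    · intro a ha b hb hab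
      rw [Function.onFun, Finset.disjoint_left]
      intro m h3 h4
      obtain ⟨s, hs, rfl⟩ := Finset.mem_image.1 h3
      obtain ⟨t, ht, h⟩ := Finset.mem_image.1 h4
      exact hab (Nat.dvd_antisymm
        ((hcop a t (mem_W.1 ha).2.2 (Finset.mem_filter.1 ht).2).dvd_of_dvd_mul_right ⟨s, h⟩)
        ((hcop b s (mem_W.1 hb).2.2 (Finset.mem_filter.1 hs).2).dvd_of_dvd_mul_right ⟨t, h.symm⟩))
  set c : ℝ := ((W y i (i + 1)).card : ℝ) with hc
  have h3 : c * (P.totient * (M / 2 ^ (i + 1))) ≤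
      ((∑ a ∈ W y i (i + 1), P.totient * (M / a) : ℕ) : ℝ) := by
    rw [Nat.cast_sum, hc, ← nsmul_eq_mul]
    refine Finset.card_nsmul_le_sum _ _ _ fun a ha => ?_
    have a0 : (0 : ℝ) < a := by exact_mod_cast (hA a (hsub ha)).1
    have a1 : (a : ℝ) ≤ 2 ^ (i + 1) := by exact_mod_cast (mem_W.1 ha).2.1
    rw [Nat.cast_mul, Nat.cast_div (hd a ha) a0.ne']
    gcongr
  have h4 : (P : ℝ) ≤ T * P.totient := by
    have e1 := congrArg (Rat.cast : ℚ → ℝ) (Nat.totient_eq_mul_prod_factors P)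
    rw [hP, Nat.primeFactors_prod hPp, ← hP] at e1
    push_cast at e1
    have e2 := prod_ge k
    rw [← hy] at e2
    set F := ∏ p ∈ y.primesBelow, (1 - (p : ℝ)⁻¹) with hF
    have hP' : (0 : ℝ) < P := by positivity
    have e0 : 0 ≤ F := by
      have : (0 : ℝ) ≤ P * F := by rw [← e1]; positivity
      exact nonneg_of_mul_nonneg_right this hP'
    have e3 : 1 ≤ (T * F) ^ 2 := by
      rw [div_le_iff₀ (by positivity)] at e2
      rw [mul_pow]; nlinarith [sq_nonneg F]
    have e4 : 1 ≤ T * F := by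
      by_contra h
      have : 0 ≤ T * F := by positivity
      nlinarith
    rw [e1]; nlinarith
  have h5 : (((Finset.Icc 1 n).filter (fun m => ∃ a ∈ W y i (i + L), a ∣ m)).card : ℝ) ≤
      L * (2 * c) := by rw [hc]; exact_mod_cast h1
  have h6 := h3.trans (Nat.cast_le.2 h2)
  have hc0 : 0 ≤ c := by positivity
  have hφ : (0 : ℝ) ≤ P.totient := by positivity
  refine le_trans ?_ (div_le_div_of_nonneg_right h6 (by positivity))
  refine le_trans (mul_le_mul_of_nonneg_left (div_le_div_of_nonneg_right h5 (by positivity))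
    (by norm_num)) ?_
  rw [hn]
  push_cast
  rw [← mul_div_assoc, div_le_div_iff₀ (by positivity) (by positivity), pow_add _ i L, pow_succ _ i]
  have e : c * (P.totient * (M / (2 ^ i * 2))) * (2 ^ i * 2 ^ L) = c * M / 2 * (P.totient * 2 ^ L) := by
    field_simp
  rw [e]
  calc 2 * (L * (2 * c)) * ((P : ℝ) * M) = c * M / 2 * (8 * L * P) := by ring
    _ ≤ c * M / 2 * (8 * L * (T * P.totient)) := by gcongr
    _ = c * M / 2 * (P.totient * (8 * L * T)) := by ring
    _ ≤ _ := by gcongr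

/-- The negation of the preceding statement: For every nonempty finite set A of positive integers all at most n, and every integer x > n, the proportion of integers in [1,x] divisible by some element of A is less than twice that proportion for [1,n]. -/
theorem result :
    ¬ (∀ n : ℕ, ∀ A : Finset ℕ, A.Nonempty → (∀ a ∈ A, 0 < a ∧ a ≤ n) →
      ∀ x : ℕ, n < x →
        ((((Finset.Icc 1 x).filter (fun m => ∃ a ∈ A, a ∣ m)).card : ℝ) / (x : ℝ)) <
          2 * ((((Finset.Icc 1 n).filter (fun m => ∃ a ∈ A, a ∣ m)).card : ℝ) / (n : ℝ))) := by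
  intro h
  obtain ⟨n, A, h1, h2, x, h3, h4⟩ := main 524288 20 (by norm_num) 4096 (by norm_num) (by norm_num)
    (by norm_num) (by norm_num)
  exact absurd (h n A h1 h2 x h3) (not_lt.2 h4)

end Pool.Agent.S18806
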