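import Pool.Statements.S18815
import Pool.Agent.H57.ColD

set_option autoImplicit false
open Pool Pool.MP_e701bf_nt

namespace Pool.Agent.S18815

/-- For every N there is a positive integer n > N such that the 3x+1 map T (m/2 if m even, (3m+1)/2 if m odd) does not reach 1 within any k steps with k < μ·log n, where μ = 1/((1/2)·log(4/3)). -/
theorem result :
    ∀ N : ℕ, ∃ n : ℕ, N < n ∧ 0 < n ∧
      ∀ k : ℕ, (k : ℝ) < ((1 / 2 : ℝ) * Real.log (4 / 3))⁻¹ * Real.log (n : ℝ) →
        (fun m : ℕ => if m % 2 = 0 then m / 2 else (3 * m + 1) / 2)^[k] n ≠ 1 := by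
  intro N
  obtain ⟨n, hn, h⟩ := Pool.Agent.H57.Col.long_stop N
  refine ⟨n, hn, by omega, fun k hk => h k (hk.trans_le ?_)⟩
  apply mul_le_mul_of_nonneg_right _ (Real.log_natCast_nonneg n)
  have h1 := Real.log_two_gt_d9
  have h4 := Real.log_three_lt_d9
  rw [Pool.Agent.H57.Col.log_facts.1, inv_le_comm₀ (by linarith) (by norm_num)]
  norm_num
  linarith

end Pool.Agent.S18815
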