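import Pool.Statements.S18882
import Pool.Agent.H47.SumFree

set_option autoImplicit false
open Pool Pool.MP_ed6ba5_nt

namespace Pool.Agent.S18882

/-- The negation of the preceding statement: For any positive initial terms a₀<…<a_{k−1}, if each later term is the least integer above the previous one that is not a sum of two earlier terms with distinct indices, then the gaps a_{n+1}−a_n are eventually periodic. -/
theorem result :
    ¬ (∀ (k : ℕ) (a : ℕ → ℕ), 1 ≤ k → 1 ≤ a 0 → StrictMono a →
      (∀ n, k ≤ n →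
        (¬ ∃ i j, i < j ∧ j < n ∧ a i + a j = a n) ∧
        (∀ m, a (n - 1) < m → m < a n → ∃ i j, i < j ∧ j < n ∧ a i + a j = m)) →
      ∃ p : ℕ, 0 < p ∧ ∃ N : ℕ, ∀ n, N ≤ n →
        a (n + p + 1) - a (n + p) = a (n + 1) - a n) := by
  intro h
  have hinf := Pool.Agent.H47.SumFree.SQ_inf
  have mono := Pool.Agent.H47.SumFree.nth_mono' hinf
  obtain ⟨p, hp, N, hN⟩ := h 1121 (Nat.nth (· ∈ Pool.Agent.H47.SumFree.SQ)) (by norm_num)
    (Pool.Agent.H47.SumFree.SQ_pos (Pool.Agent.H47.SumFree.nth_mem' hinf 0)) mono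
    (by
      intro n hn
      obtain ⟨n, rfl⟩ : ∃ k, n = k + 1 := ⟨n - 1, by omega⟩
      simp only [Nat.add_sub_cancel]
      refine ⟨?_, ?_⟩
      · rintro ⟨i, j, hij, _, e⟩
        have k := Pool.Agent.H47.SumFree.SQ_sumfree (mono hij).ne
          (Pool.Agent.H47.SumFree.nth_mem' hinf i) (Pool.Agent.H47.SumFree.nth_mem' hinf j)
        apply k
        rw [e]
        exact Pool.Agent.H47.SumFree.nth_mem' hinf _
      · intro y h1 h2
        have l := Pool.Agent.H47.SumFree.le_nth' hinf n
        have hy := Pool.Agent.H47.SumFree.not_mem_between hinf h1 h2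
        obtain ⟨s, hs, t, ht, hst, e⟩ := Pool.Agent.H47.SumFree.SQ_complete (by omega) hy
        obtain ⟨i, hi, ei⟩ := Pool.Agent.H47.SumFree.exists_index (n := n) hinf hs (by omega)
        obtain ⟨j, hj, ej⟩ := Pool.Agent.H47.SumFree.exists_index (n := n) hinf ht (by omega)
        have hij : i < j := by
          apply mono.lt_iff_lt.mp
          rw [ei, ej]; exact hst
        exact ⟨i, j, hij, by omega, by rw [ei, ej, e]⟩)
  refine Pool.Agent.H47.SumFree.SQ_aper (Pool.Agent.H47.SumFree.fwdPer_of_diff (N := N) hinf hp ?_)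
  intro n hn
  have a1 := hN n hn
  have a2 := mono (Nat.lt_succ_self n)
  have a3 := mono (Nat.lt_succ_self (n + p))
  simp only [Nat.succ_eq_add_one] at a2 a3
  omega

end Pool.Agent.S18882
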