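import Pool.Statements.S18925
import Pool.Agent.H53.ApprD

set_option autoImplicit false
open Pool Pool.MP_f13ad7_nt

namespace Pool.Agent.S18925

open Polynomial Pool.Agent.H53.ApprA Pool.Agent.H53.ApprD

/-- For every transcendental real ξ whose Mahler type limsup w_n(ξ)/n equals 1, Koksma's *-type limsup w_n*(ξ)/n also equals 1, with w_n from integer polynomials and w_n* from real algebraic numbers of degree at most n. -/
theorem result :
    ∀ ξ : ℝ, Transcendental ℤ ξ →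
      (∀ ε : ℝ, 0 < ε → ∃ N : ℕ, ∀ n : ℕ, N ≤ n →
        {P : Polynomial ℤ | P.natDegree ≤ n ∧ Polynomial.aeval ξ P ≠ 0 ∧
          |Polynomial.aeval ξ P| ≤
            ((P.support.sup (fun i => (P.coeff i).natAbs) : ℕ) : ℝ) ^ (-((1 + ε) * (n : ℝ)))}.Finite) →
      (∀ ε : ℝ, 0 < ε → ∃ N : ℕ, ∀ n : ℕ, N ≤ n →
        {α : ℝ | ∃ Q : Polynomial ℤ, Irreducible Q ∧ Q.natDegree ≤ n ∧
          Polynomial.aeval α Q = 0 ∧ α ≠ ξ ∧
          |ξ - α| ≤
            ((Q.support.sup (fun i => (Q.coeff i).natAbs) : ℕ) : ℝ) ^ (-((1 + ε) * (n : ℝ) + 1))}.Finite) ∧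
      (∀ ε : ℝ, 0 < ε → ∀ N : ℕ, ∃ n : ℕ, N ≤ n ∧
        {α : ℝ | ∃ Q : Polynomial ℤ, Irreducible Q ∧ Q.natDegree ≤ n ∧
          Polynomial.aeval α Q = 0 ∧ α ≠ ξ ∧
          |ξ - α| ≤
            ((Q.support.sup (fun i => (Q.coeff i).natAbs) : ℕ) : ℝ) ^ (-((1 - ε) * (n : ℝ) + 1))}.Infinite) := by
  intro ξ hξ h
  refine ⟨fun ε hε => ?_, fun ε hε N => ?_⟩
  · obtain ⟨N, hN⟩ := h (ε / 2) (by linarith)
    refine ⟨max N 1, fun n hn => ?_⟩
    have hn1 : (1 : ℝ) ≤ n := by exact_mod_cast (le_max_right _ _).trans hn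
    obtain ⟨c, hc⟩ := exists_LB hξ n _ (by positivity) (hN n ((le_max_left _ _).trans hn))
    obtain ⟨C, hC⟩ := exists_TC n ξ
    obtain ⟨Y, hY⟩ := Filter.eventually_atTop.mp
      (ev (2 * C / c) (-((1 + ε) * n)) (-((1 + ε / 2) * n)) (by nlinarith))
    refine ((finite_Bd n Y).biUnion (t := fun Q => Q.rootSet ℝ)
      fun Q _ => Q.rootSet_finite ℝ).subset ?_
    rintro α ⟨Q, q1, q2, q3, _, q5⟩
    refine Set.mem_biUnion (x := Q) ⟨q2, (bd_ht Q).mono ?_⟩ (mem_rootSet.mpr ⟨q1.ne_zero, q3⟩)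
    by_contra hc2
    have e := hY _ (not_le.mp hc2).le
    have h1 := (bd_ht Q).one_le q1.ne_zero
    change |ξ - α| ≤ ht Q ^ _ at q5
    have h2 := hC.lip Q _ q2 (bd_ht Q) α
      (q5.trans (Real.rpow_le_one_of_one_le_of_nonpos h1 (by nlinarith)))
    rw [q3, zero_sub, abs_neg] at h2
    have h3 := (hc.2 Q _ q1.ne_zero q2 (bd_ht Q)).trans
      (h2.trans (mul_le_mul_of_nonneg_left q5 (by nlinarith [hC.1])))
    rw [neg_add, ← sub_eq_add_neg, Real.rpow_sub_one (by linarith)] at h3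
    rw [div_mul_eq_mul_div, div_lt_iff₀ hc.1] at e
    have h4 : 2 * C * ht Q * (ht Q ^ (-((1 + ε) * n)) / ht Q) = 2 * C * ht Q ^ (-((1 + ε) * n)) := by
      field_simp
    linarith
  · obtain ⟨e, he0, he1, he2⟩ : ∃ e : ℝ, 0 < e ∧ e ≤ ε ∧ e ≤ 1 / 2 :=
      ⟨min ε (1 / 2), lt_min hε (by norm_num), min_le_left _ _, min_le_right _ _⟩
    obtain ⟨t, ht1⟩ : ∃ t : ℕ, 8 ≤ e * t := ⟨⌈8 / e⌉₊, (div_le_iff₀' he0).mp (Nat.le_ceil _)⟩
    have ht2 : (16 : ℝ) ≤ t := by nlinarith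
    have ht3 : 16 ≤ t := by exact_mod_cast ht2
    obtain ⟨d, hd⟩ : ∃ d : ℝ, d = 1 / t := ⟨_, rfl⟩
    have hd0 : 0 < d := by rw [hd]; positivity
    have hd1 : d * t = 1 := by rw [hd]; field_simp
    have hd2 : d ≤ 1 / 2 := by nlinarith
    obtain ⟨N₀, hN⟩ := h (d ^ 2) (by positivity)
    obtain ⟨s, s1, s2, s3⟩ : ∃ s : ℕ, N₀ ≤ s ∧ N ≤ s ∧ 1 ≤ s := ⟨N₀ + N + 1, by omega⟩
    have s4 : s + 1 ≤ t * s := by nlinarith
    have s5 : (1 : ℝ) ≤ s := by exact_mod_cast s3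
    refine ⟨t * s, by omega, fun hfin => ?_⟩
    obtain ⟨c, hc⟩ := exists_LB hξ (t * s) _ (by positivity) (hN _ (by omega))
    obtain ⟨c', hc'⟩ := exists_LB hξ s _ (by positivity) (hN _ s1)
    have hws : 0 ≤ (1 - e) * ((t * s : ℕ) : ℝ) + 1 := by
      have : 0 ≤ 1 - e := by linarith
      positivity
    obtain ⟨cs, hcs⟩ := exists_LR hξ (t * s) _ hws (hfin.subset (by
      rintro α ⟨Q, q1, q2, q3, q4, q5⟩
      refine ⟨Q, q1, q2, q3, q4, q5.trans ?_⟩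
      refine Real.rpow_le_rpow_of_exponent_le ((bd_ht Q).one_le q1.ne_zero) ?_
      nlinarith [(Nat.cast_nonneg (t * s) : (0 : ℝ) ≤ _)]))
    have ts : (0 : ℝ) ≤ t * s := by positivity
    have e1 : d * (t * s) = s := by rw [← mul_assoc, hd1, one_mul]
    have e2 : d ^ 2 * (t * s) = d * s := by rw [sq, mul_assoc, e1]
    have e3 : 8 * (s : ℝ) ≤ e * (t * s) := by nlinarith
    have e4 : d ^ 2 * s ≤ s := by nlinarith [mul_pos hd0 hd0]
    refine main ((t - 1) * s) (d + d ^ 2) s4 hc hc' hcs (by positivity) (by nlinarith) hws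
      ?_ ?_ ?_ ?_
    · push_cast
      have : 0 < (d + d ^ 2) * (d ^ 2 * (t * s) + 1) := by positivity
      nlinarith
    · rw [Nat.cast_sub (by omega)]
      push_cast
      have : 0 < d ^ 2 * s := by positivity
      nlinarith
    · push_cast
      have : e * (t * s) ≤ 1 / 2 * (t * s) := mul_le_mul_of_nonneg_right he2 ts
      have : 0 < d ^ 2 * s := by positivity
      nlinarith
    · rw [Nat.cast_sub (by omega)]
      push_cast
      nlinarith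

end Pool.Agent.S18925
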