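import Pool.Statements.S18928
import Pool.Agent.H46.Tp.A

set_option autoImplicit false
open Pool Pool.MP_f15a68_nt

namespace Pool.Agent.S18928

/-- The negation of the preceding statement: For every prime p and n ≥ 1, the infimum of c such that infinitely many algebraic integers of degree n over the totally p-adic field have Weil height below c equals log p divided by (p−1)n. -/
theorem result :
    ¬ (∀ (p : ℕ) [Fact p.Prime] (n : ℕ), 1 ≤ n →
      sInf {c : ℝ | Set.Infinite {α : AlgebraicClosure ℚ | IsIntegral ℤ α ∧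
        (minpoly (IntermediateField.adjoin ℚ {x : AlgebraicClosure ℚ |
            ((minpoly ℚ x).map (algebraMap ℚ ℚ_[p])).roots.card = (minpoly ℚ x).natDegree}) α).natDegree = n ∧
        Real.log (((minpoly ℚ α).map (algebraMap ℚ ℂ)).mahlerMeasure) / ((minpoly ℚ α).natDegree : ℝ) < c}}
      = 1 / ((p : ℝ) - 1) * (Real.log p / (n : ℝ))) := by
  intro h
  have h := h 2 1 le_rfl
  have l : Real.log 15 / 4 < Real.log 2 := by
    rw [div_lt_iff₀' four_pos, ← Nat.cast_ofNat (n := 4), ← Real.log_pow]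
    exact Real.log_lt_log (by norm_num) (by norm_num)
  obtain ⟨c, c1, c2⟩ := exists_between l
  rw [show 1 / (((2 : ℕ) : ℝ) - 1) * (Real.log ((2 : ℕ) : ℝ) / ((1 : ℕ) : ℝ)) = Real.log 2 by
    norm_num] at h
  refine c2.not_ge (h ▸ csInf_le (by_contra fun b => ?_) ?_)
  · rw [Real.sInf_of_not_bddBelow b] at h
    exact (Real.log_pos one_lt_two).ne h
  refine Set.Infinite.mono (fun α hα => ?_) (H46.Tp.main (K := AlgebraicClosure ℚ))
  obtain ⟨a, b, e⟩ := hα
  exact ⟨a, minpoly.natDegree_eq_one_iff.mpr ⟨⟨α, IntermediateField.subset_adjoin _ _ b⟩, rfl⟩,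
    e.trans_lt c1⟩

end Pool.Agent.S18928
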