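import Pool.Statements.S18951
import Pool.Agent.H53.UlC

set_option autoImplicit false
open Pool Pool.MP_f2cfed_nt

namespace Pool.Agent.S18951

/-- There exist reals ξ, ζ such that, for some ε>0 and infinitely many Q, Q·‖qξ‖·‖qζ‖ ≥ ε for all 0<q≤Q, and for some c>0, √q·max(‖qξ‖,‖qζ‖) ≥ c for all q≥1 (‖·‖ = distance to nearest integer). -/
theorem result :
    ∃ ξ ζ : ℝ,
      (∃ ε : ℝ, 0 < ε ∧ ∀ N : ℕ, ∃ Q : ℕ, N ≤ Q ∧ 0 < Q ∧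
        ∀ q : ℕ, 0 < q → q ≤ Q →
          ε ≤ (Q : ℝ) * (|(q : ℝ) * ξ - (round ((q : ℝ) * ξ) : ℝ)| *
                          |(q : ℝ) * ζ - (round ((q : ℝ) * ζ) : ℝ)|)) ∧
      (∃ c : ℝ, 0 < c ∧ ∀ q : ℕ, 0 < q →
        c ≤ Real.sqrt (q : ℝ) *
          max |(q : ℝ) * ξ - (round ((q : ℝ) * ξ) : ℝ)|
              |(q : ℝ) * ζ - (round ((q : ℝ) * ζ) : ℝ)|) := by
  exact Pool.Agent.H53.Ul.bad2

end Pool.Agent.S18951
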