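import Pool.Statements.S18969
import Pool.Agent.H74.Cov2

set_option autoImplicit false
open Pool Pool.MP_f3a92d_nt

namespace Pool.Agent.S18969

/-- For every k ≥ 3 one can choose residues a_p in [0, p) for each prime p so that every sufficiently large integer n equals a_p + t·p for some prime p and some integer t ≥ k. -/
theorem result :
    ∀ k : ℕ, 3 ≤ k →
      ∃ a : ℕ → ℕ, (∀ p : ℕ, p.Prime → a p < p) ∧
        ∃ N : ℕ, ∀ n : ℕ, N ≤ n →
          ∃ p : ℕ, p.Prime ∧ ∃ t : ℕ, k ≤ t ∧ n = a p + t * p := by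
  intro k _
  obtain ⟨a, h1, N, h2⟩ := Pool.Agent.H74.Cov.cover (k + 1) (Nat.succ_pos k)
  refine ⟨a, h1, N, fun n hn => ?_⟩
  obtain ⟨p, p1, p2, p3⟩ := h2 n hn
  refine ⟨p, p1, n / p, ?_, ?_⟩
  · exact (Nat.le_succ k).trans ((Nat.le_div_iff_mul_le p1.pos).2 p2)
  · have := Nat.mod_add_div' n p
    rw [p3, Nat.mod_eq_of_lt (h1 p p1)] at this
    exact this.symm

end Pool.Agent.S18969
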