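import Pool.Statements.S18994
import Pool.Agent.H63.CFTrace
import Pool.Agent.H63.CFDim

set_option autoImplicit false
open Filter Topology
open Pool Pool.MP_f5ee21_nt

namespace Pool.Agent.S18994

/-- The negation of the preceding statement: For every finite alphabet of at least two positive integers whose continued-fraction Cantor set has Hausdorff dimension above 1/2, every sufficiently large integer that is a trace of the even-length semigroup modulo every q is an actual trace. -/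
theorem result :
    ¬ (∀ A : Finset ℕ, (∀ a ∈ A, 1 ≤ a) → 2 ≤ A.card →
      ((1 / 2 : ENNReal) < dimH {x : ℝ | ∃ a : ℕ → ℕ, (∀ j, a j ∈ A) ∧
          Tendsto (fun n : ℕ =>
            ((List.map (fun j : ℕ => (!![(a j : ℝ), 1; 1, 0] : Matrix (Fin 2) (Fin 2) ℝ))
                (List.range (n + 1))).prod 0 0) /
            ((List.map (fun j : ℕ => (!![(a j : ℝ), 1; 1, 0] : Matrix (Fin 2) (Fin 2) ℝ))
                (List.range (n + 1))).prod 1 0)) atTop (𝓝 x)}) →
      ∃ N : ℤ, ∀ t : ℤ, N ≤ t →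
        (∀ q : ℤ, 1 ≤ q → ∃ l : List ℕ, l ≠ [] ∧ Even l.length ∧ (∀ b ∈ l, b ∈ A) ∧
          Matrix.trace ((List.map (fun b : ℕ => (!![(b : ℤ), 1; 1, 0] : Matrix (Fin 2) (Fin 2) ℤ)) l).prod)
            ≡ t [ZMOD q]) →
        ∃ l : List ℕ, l ≠ [] ∧ Even l.length ∧ (∀ b ∈ l, b ∈ A) ∧
          Matrix.trace ((List.map (fun b : ℕ => (!![(b : ℤ), 1; 1, 0] : Matrix (Fin 2) (Fin 2) ℤ)) l).prod) = t) := by
  intro h
  obtain ⟨K, hK, hdim⟩ := Pool.Agent.H63.CFDim.exists_alphabet
  have hmem : ∀ b, b = 76 ∨ b = 176 → b ∈ (Finset.range K).image fun k => 100 * k + 76 := by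
    rintro b (rfl | rfl)
    · exact Finset.mem_image.2 ⟨0, Finset.mem_range.2 (by omega), rfl⟩
    · exact Finset.mem_image.2 ⟨1, Finset.mem_range.2 (by omega), rfl⟩
  have hmod : ∀ b ∈ (Finset.range K).image fun k => 100 * k + 76, b % 100 = 76 := by
    intro b hb
    obtain ⟨k, -, rfl⟩ := Finset.mem_image.1 hb
    omega
  obtain ⟨N, hN⟩ := h ((Finset.range K).image fun k => 100 * k + 76)
    (fun a ha => by have := hmod a ha; omega)
    (by rw [Finset.card_image_of_injective _ (fun a b h => by simpa using h)]; simpa using hK) hdim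
  have hlt : N ≤ 2 + 80 * 11 ^ (2 * (N.toNat + 1)) := by
    have h1 : 2 * (N.toNat + 1) < 11 ^ (2 * (N.toNat + 1)) := Nat.lt_pow_self (by norm_num)
    have h2 : ((2 * (N.toNat + 1) : ℕ) : ℤ) < 11 ^ (2 * (N.toNat + 1)) := by exact_mod_cast h1
    omega
  obtain ⟨l, -, hl1, hl2, hl3⟩ := hN _ hlt fun q hq => by
    obtain ⟨l, h1, h2, h3, h4⟩ := Pool.Agent.H63.CFTrace.admissible N.toNat q hq
    exact ⟨l, h1, h2, fun b hb => hmem b (h3 b hb), h4⟩
  exact Pool.Agent.H63.CFTrace.obstruction N.toNat l hl1 (fun b hb => hmod b (hl2 b hb)) hl3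

end Pool.Agent.S18994
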