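import Pool.Statements.S19009
import Pool.Agent.H56.Skew5

set_option autoImplicit false
open Pool Pool.MP_f6d20c_nt

namespace Pool.Agent.S19009

/-- For odd n ≥ 3 and 1 ≤ k ≤ n−1: the sum of x⁻¹ (with 0⁻¹=0) over every k-dimensional F_2-affine subspace of F_{2^n} is nonzero exactly when k is 1, 2, n−2 or n−1. -/
theorem result :
    ∀ n : ℕ, 3 ≤ n → Odd n → ∀ k : ℕ, 1 ≤ k → k ≤ n - 1 →
      ((∀ V : Submodule (ZMod 2) (GaloisField 2 n),
          Module.finrank (ZMod 2) V = k →
            ∀ a : GaloisField 2 n,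
              ∑ᶠ x ∈ (V : Set (GaloisField 2 n)), (a + x)⁻¹ ≠ 0) ↔
        (k = 1 ∨ k = 2 ∨ k = n - 2 ∨ k = n - 1)) := by
  intro n h3 ho k h1 h2
  let _inst : Fintype (GaloisField 2 n) := Fintype.ofFinite _
  have hn : Module.finrank (ZMod 2) (GaloisField 2 n) = n := GaloisField.finrank 2 (by omega)
  have h := H56.Skew.exists_iff (K := GaloisField 2 n) n k hn ho h3 h1 h2
  obtain ⟨ρ, t, -, hρ⟩ := H56.Skew.exists_rho (K := GaloisField 2 n)
  simp only [H56.Skew.finsum_els]
  constructor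
  · intro h4
    by_contra h5
    obtain ⟨F, h6, h7⟩ := h.mpr (by omega)
    exact h4 F h6 0 (by rw [H56.Skew.affine_mem F 0 F.zero_mem, h7])
  · intro h4 V hV a
    by_cases ha : a ∈ V
    · rw [H56.Skew.affine_mem V a ha]
      intro h5
      have := h.mp ⟨V, hV, h5⟩
      omega
    · exact H56.Skew.affine_ne hρ V a ha

end Pool.Agent.S19009
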