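import Pool.Statements.S19070
import Pool.Agent.H58.BarnesBaire

set_option autoImplicit false
open Pool Pool.MP_fcb754_nt

namespace Pool.Agent.S19070

theorem result :
    ¬ (∀ (r : ℕ), 1 ≤ r → ∀ (a : ℝ), 0 < a → ∀ (w : Fin r → ℝ), (∀ j, 0 < w j) →
      ∀ F : ℂ → ℂ,
        DifferentiableOn ℂ F {s : ℂ | ∀ k : ℕ, 1 ≤ k → k ≤ r → s ≠ (k : ℂ)} →
        (∀ s : ℂ, (r : ℝ) < s.re →
          F s = ∑' m : Fin r → ℕ, (((a + ∑ j, (m j : ℝ) * w j : ℝ) : ℂ) ^ (-s))) →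
        ∀ ε : ℝ, 0 < ε → ∀ σ₁ : ℝ, ∃ C : ℝ, ∀ σ t : ℝ,
          (r : ℝ) - (Module.finrank ℚ (Submodule.span ℚ (Set.range w)) : ℝ) / 2 ≤ σ →
          σ ≤ σ₁ → 1 ≤ t →
          ‖F ((σ : ℂ) + (t : ℂ) * Complex.I)‖ ≤ C * t ^ ε) := by
  intro h
  obtain ⟨w, hw, hd, F, hF, hZ, hc, hbad⟩ := Pool.Agent.H58.Barnes.exists_bad'
  obtain ⟨C, hC⟩ := h 2 (by norm_num) 1 one_pos w hw F hF hZ (1 / 4) (by norm_num) 1
  obtain ⟨j, hj⟩ := exists_nat_ge (2 * |C|)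
  obtain ⟨n, _, hn4, hlt⟩ := hbad j
  have hn : (4 : ℝ) ≤ n := by exact_mod_cast hn4
  have hM1 : (1 : ℝ) ≤ (n : ℝ) ^ 8 := one_le_pow₀ (by linarith)
  have hle : (n : ℝ) ^ 8 ≤ 2 * (n : ℝ) ^ 8 := by linarith
  have hsub : Set.uIcc ((n : ℝ) ^ 8) (2 * (n : ℝ) ^ 8) ⊆ {t | 0 < t} := by
    intro t ht
    rw [Set.uIcc_of_le hle] at ht
    have := ht.1
    show 0 < t
    linarith
  have h1 : ∫ t in ((n : ℝ) ^ 8)..(2 * (n : ℝ) ^ 8), ‖F (((1 : ℝ) : ℂ) + t * Complex.I)‖ ≤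
      ∫ _t in ((n : ℝ) ^ 8)..(2 * (n : ℝ) ^ 8), |C| * (2 * (n : ℝ) ^ 2) := by
    apply intervalIntegral.integral_mono_on hle (hc.mono hsub).norm.intervalIntegrable (by simp)
    intro t ht
    have a1 := hC 1 t (by rw [hd]; norm_num) le_rfl (by linarith [ht.1])
    have a3 : t ^ (1 / 4 : ℝ) ≤ 2 * (n : ℝ) ^ 2 := by
      have b1 : t ≤ (2 * (n : ℝ) ^ 2) ^ 4 := by
        calc t ≤ 2 * (n : ℝ) ^ 8 := ht.2
          _ ≤ 16 * (n : ℝ) ^ 8 := by linarith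
          _ = _ := by ring
      calc t ^ (1 / 4 : ℝ) ≤ ((2 * (n : ℝ) ^ 2) ^ 4) ^ (1 / 4 : ℝ) :=
            Real.rpow_le_rpow (by linarith [ht.1]) b1 (by norm_num)
        _ = 2 * (n : ℝ) ^ 2 := by
            rw [← Real.rpow_natCast, ← Real.rpow_mul (by positivity)]; norm_num
    have a4 : 0 ≤ t ^ (1 / 4 : ℝ) := Real.rpow_nonneg (by linarith [ht.1]) _
    calc _ ≤ C * t ^ (1 / 4 : ℝ) := a1
      _ ≤ |C| * t ^ (1 / 4 : ℝ) := by gcongr; exact le_abs_self C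
      _ ≤ _ := by gcongr
  simp only [intervalIntegral.integral_const, smul_eq_mul] at h1
  have h2 : (2 * (n : ℝ) ^ 8 - n ^ 8) * (|C| * (2 * (n : ℝ) ^ 2)) = (2 * |C|) * n ^ 10 := by ring
  have h3 : (2 * |C|) * (n : ℝ) ^ 10 ≤ j * n ^ 11 := by
    have : (n : ℝ) ^ 10 ≤ n ^ 11 := pow_le_pow_right₀ (by linarith) (by norm_num)
    gcongr
  linarith

end Pool.Agent.S19070
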