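import Pool.Statements.S19085
import Pool.Agent.H63.SiegelPoly

set_option autoImplicit false
open Pool Pool.MP_fde3da_nt

namespace Pool.Agent.S19085

open Polynomial Pool.Agent.H63.PolyL1 Pool.Agent.H63.Elim Pool.Agent.H63.SiegelPoly

lemma extract {ι : Type*} [Fintype ι] (n : ℕ) (f : ι → ℤ[X]) (q : ℤ) (hq : q ≠ 0)
    (c : ι × Fin n → ℤ[X]) (hc : c ≠ 0) (h : ∑ b, c b * (f b.1 * C q ^ (b.2 : ℕ)) = 0) :
    ∃ g : ι → ι × Fin n, (fun m => c (g m)) ≠ 0 ∧ C q ∣ ∑ m, c (g m) * f m := by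
  classical
  let s := Finset.univ.filter fun l : Fin n => (fun m => c (m, l)) ≠ 0
  have hs : s.Nonempty := by
    obtain ⟨⟨m, l⟩, hb⟩ := Function.ne_iff.1 hc
    exact ⟨l, Finset.mem_filter.2 ⟨Finset.mem_univ _, Function.ne_iff.2 ⟨m, hb⟩⟩⟩
  refine ⟨fun m => (m, s.min' hs), (Finset.mem_filter.1 (s.min'_mem hs)).2, ?_⟩
  set l0 := s.min' hs with hl0
  have h1 : ∑ l : Fin n, C q ^ (l : ℕ) * ∑ m, c (m, l) * f m = 0 := by
    rw [← h, Fintype.sum_prod_type_right]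
    refine Finset.sum_congr rfl fun l _ => ?_
    rw [Finset.mul_sum]
    exact Finset.sum_congr rfl fun m _ => by ring
  rw [← Finset.add_sum_erase _ _ (Finset.mem_univ l0)] at h1
  have h2 : C q ^ (l0 : ℕ) * C q ∣
      ∑ l ∈ Finset.univ.erase l0, C q ^ (l : ℕ) * ∑ m, c (m, l) * f m := by
    apply Finset.dvd_sum
    intro l hl
    by_cases hls : l ∈ s
    · have h3 : l0 < l := lt_of_le_of_ne (s.min'_le l hls) (Finset.ne_of_mem_erase hl).symm
      rw [← pow_succ]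
      exact Dvd.dvd.mul_right (pow_dvd_pow _ h3) _
    · have h3 : (fun m => c (m, l)) = 0 := by simpa [s] using hls
      have h4 : ∀ m, c (m, l) = 0 := fun m => congrFun h3 m
      simp [h4]
  rw [eq_neg_of_add_eq_zero_right h1, dvd_neg] at h2
  exact (mul_dvd_mul_iff_left (pow_ne_zero _ (C_ne_zero.2 hq))).1 h2

lemma q_ne (a : ℤ) (h1 : a ≠ 1) (h2 : a ≠ -1) (N : ℕ) (hN : 1 ≤ N) : a ^ N - 1 ≠ 0 := by
  intro h
  have h3 : a ^ N = 1 := by linarith
  have h4 : IsUnit a := IsUnit.of_pow_eq_one h3 (by omega)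
  rcases Int.isUnit_iff.1 h4 with h | h
  exacts [h1 h, h2 h]

lemma q_le (a : ℤ) (N : ℕ) (hN : 1 ≤ N) : ((|a ^ N - 1| : ℤ) : ℝ) ≤ Real.exp (|(a : ℝ)| * N) := by
  push_cast
  calc |(a : ℝ) ^ N - 1| ≤ |(a : ℝ)| ^ N + 1 ^ N := by
        rw [one_pow, ← abs_pow]; exact (abs_sub _ _).trans (by simp)
    _ ≤ (|(a : ℝ)| + 1) ^ N := pow_add_pow_le (abs_nonneg _) zero_le_one (by omega)
    _ ≤ Real.exp |(a : ℝ)| ^ N := by gcongr; exact Real.add_one_le_exp _
    _ = _ := by rw [← Real.exp_nat_mul, mul_comm]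

/-- For every integer a other than 0, 1, -1 and every ε>0 there is c such that for all M,N ≥ 1, the log of the size of (Z/(a^N-1))[T]/(T^M-1,(T+1)^M-1) is at most ε·max(M,N)^2 + c. -/
theorem result :
    ∀ a : ℤ, a ≠ 0 → a ≠ 1 → a ≠ -1 →
      ∀ ε : ℝ, 0 < ε → ∃ c : ℝ, ∀ M N : ℕ, 1 ≤ M → 1 ≤ N →
        Real.log ((Nat.card (Polynomial (ZMod (a ^ N - 1).natAbs) ⧸
            Ideal.span ({Polynomial.X ^ M - 1, (Polynomial.X + 1) ^ M - 1} :
              Set (Polynomial (ZMod (a ^ N - 1).natAbs))))) : ℝ)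
          ≤ ε * ((max M N : ℕ) : ℝ) ^ 2 + c := by
  intro a _ ha1 ha2 ε hε
  set κ : ℝ := 3 + |(a : ℝ)| with hκ
  have hκ0 : 0 < κ := by positivity
  obtain ⟨s, hs⟩ := exists_nat_ge (15 * κ / ε + 2)
  have hε' : 0 < 15 * κ / ε := by positivity
  have hs2 : 2 ≤ s := by
    have : (2 : ℝ) ≤ s := by linarith
    exact_mod_cast this
  have hsr : (2 : ℝ) ≤ s := by exact_mod_cast hs2
  have hs3 : 5 * κ / (s : ℝ) ≤ ε / 3 := by
    rw [div_le_div_iff₀ (by positivity) (by norm_num)]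
    have : 15 * κ / ε ≤ s := by linarith
    rw [div_le_iff₀ hε] at this
    linarith
  let b : Fin 2 → ℤ := ![0, -1]
  let ex : (Fin 2 → Fin (2 * s ^ 2 + 1)) → Fin 2 → ℕ := fun m t => m t
  have hb1 : ∀ t, |b t| ≤ 1 := by decide
  have hexD : ∀ m t, ex m t ≤ 2 * s ^ 2 := fun m t => Nat.lt_succ_iff.1 (m t).2
  obtain ⟨c0, hc0, hcore⟩ := core b κ (ε / 3) hκ0.le (by positivity) s hs2 (by decide) hb1
    (by simp) (by simp) ex (fun m m' h => funext fun t => Fin.ext (congrFun h t)) hexD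
    (β := (Fin 2 → Fin (2 * s ^ 2 + 1)) × Fin (2 * s ^ 2 + 1))
    (by
      simp only [Fintype.card_prod, Fintype.card_pi, Fintype.card_fin, Finset.prod_const,
        Finset.card_univ]
      rw [← pow_succ]
      exact Nat.pow_le_pow_left (Nat.le_succ _) _)
  obtain ⟨c2, hc2, hc2'⟩ := poly_le (3 + c0) 1 (by positivity) one_pos 1
  set N0 := 2 ^ Fintype.card (Fin 2 → Fin (2 * s ^ 2 + 1)) * Fintype.card (Fin 2) with hN0
  refine ⟨(N0 * |(a : ℝ)|) ^ 2 / (4 * ε)
    + ((c0 + c0 * κ + c2) ^ 2 / (4 * (ε / 3)) + c0 * c2), ?_⟩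
  intro M N hM hN
  set q := a ^ N - 1 with hq
  have hq0 : q ≠ 0 := q_ne a ha1 ha2 N hN
  set x := max M N with hx
  have hMx : M ≤ x := le_max_left _ _
  have hNx : N ≤ x := le_max_right _ _
  have hxr : (1 : ℝ) ≤ x := by exact_mod_cast hM.trans hMx
  have hqle : ((|q| : ℤ) : ℝ) ≤ Real.exp (|(a : ℝ)| * x) :=
    (q_le a N hN).trans (by gcongr)
  set I : Ideal (ZMod q.natAbs)[X] := Ideal.span ({X ^ M - 1, (X + 1) ^ M - 1} :
    Set (ZMod q.natAbs)[X]) with hI
  let φ : ℤ[X] →+* (ZMod q.natAbs)[X] ⧸ I :=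
    (Ideal.Quotient.mk I).comp (mapRingHom (Int.castRingHom _))
  have hφ : Function.Surjective φ :=
    Ideal.Quotient.mk_surjective.comp (map_surjective _ ZMod.intCast_surjective)
  have hφq : φ (C q) = 0 := by
    have : ((q : ℤ) : ZMod q.natAbs) = 0 := by
      rw [ZMod.intCast_zmod_eq_zero_iff_dvd]; simp
    rw [RingHom.comp_apply, coe_mapRingHom, map_C, eq_intCast, this, map_zero, map_zero]
  have hone : ∀ p : (ZMod q.natAbs)[X], p - 1 ∈ ({X ^ M - 1, (X + 1) ^ M - 1} : Set _) →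
      Ideal.Quotient.mk I p = 1 := by
    intro p hp
    rw [← map_one (Ideal.Quotient.mk I), Ideal.Quotient.eq]
    exact Ideal.subset_span hp
  have hφX : φ X = Ideal.Quotient.mk I X := by simp [φ]
  have h0 : φ X ^ M = 1 := by
    have := hone (X ^ M) (by simp)
    rwa [map_pow, ← hφX] at this
  have h1 : (φ X + 1) ^ M = 1 := by
    have := hone ((X + 1) ^ M) (by simp)
    rwa [map_pow, map_add, map_one, ← hφX] at this
  have hqC : (q : ℂ) ≠ 0 := by exact_mod_cast hq0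
  by_cases hsmall : M < N0
  · have hfin := log_bound _ _ _ _ _ N0 0 _ (L (X ^ M - C 1) : ℝ)
      (card_le φ hφ (X ^ M - C 1) (C q) (monic_X_pow_sub_C _ (by omega)) (by simp [h0]) hφq
        (fun z => Or.inr (by simpa using hq0))) (L_nonneg _) (L_nonneg _)
        (by rw [L_C]; exact hqle) (le_trans (by linarith) (Real.add_one_le_exp _))
        (by positivity) (by exact_mod_cast L_nonneg _)
        (by rw [natDegree_X_pow_sub_C]; exact_mod_cast hsmall.le) (by rw [natDegree_C]; simp)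
    have hlin := lin_le (N0 * |(a : ℝ)|) ε hε x
    have h2 : 0 ≤ ((c0 + c0 * κ + c2) ^ 2 / (4 * (ε / 3)) + c0 * c2) := by positivity
    linarith
  obtain ⟨P, hP0, hP1, hP2, hP3⟩ := hcore x M (hM.trans hMx) hMx (not_lt.1 hsmall)
    (fun p => ff b M (ex p.1) * C q ^ (p.2 : ℕ)) q
    (fun p => by
      refine natDegree_mul_le.trans ?_
      rw [← C_pow, natDegree_C, add_zero]
      exact (natDegree_ff b (by simp) M _ _ (hexD p.1)).trans (Nat.mul_le_mul_left _ hMx))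
    (fun p => by
      have e1 := L_ff b hb1 (by simp) M _ _ (hexD p.1)
      have e2 := L_mul (ff b M (ex p.1)) (C q ^ (p.2 : ℕ))
      rw [← C_pow, L_C, abs_pow, C_pow] at e2
      have e3 : (L (ff b M (ex p.1) * C q ^ (p.2 : ℕ)) : ℝ)
          ≤ L (ff b M (ex p.1)) * ((|q| : ℤ) : ℝ) ^ (p.2 : ℕ) := by exact_mod_cast e2
      have e4 : ((p.2 : ℕ) : ℝ) ≤ 2 * s ^ 2 := by exact_mod_cast Nat.lt_succ_iff.1 p.2.2
      have e5 : (0 : ℝ) ≤ ((|q| : ℤ) : ℝ) := by exact_mod_cast abs_nonneg q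
      calc _ ≤ Real.exp (3 * (2 * s ^ 2 : ℕ) * M) * Real.exp (|(a : ℝ)| * x) ^ (p.2 : ℕ) :=
            e3.trans (by gcongr)
        _ = Real.exp (3 * (2 * s ^ 2) * M + (p.2 : ℕ) * (|(a : ℝ)| * x)) := by
            rw [Real.exp_add, Real.exp_nat_mul]; push_cast; rfl
        _ ≤ Real.exp (3 * (2 * s ^ 2) * x + (2 * s ^ 2) * (|(a : ℝ)| * x)) := by gcongr
        _ = _ := by rw [hκ]; ring_nf)
    (fun c hc h => extract _ (fun m => ff b M (ex m)) q hq0 c hc h) _ φ hφq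
    (fun m => by simp [ff, b, Fin.prod_univ_two, pow_mul, h0, h1])
  obtain ⟨c, hc, hcz⟩ := exists_good_c P hP0 1 (fun z => C (z ^ M - 1) + C (q : ℂ) * X) (by
    intro z
    refine ⟨fun h => ?_, by compute_degree⟩
    have c1 := congrArg (fun p => coeff p 1) h
    simp only [coeff_add, coeff_C_mul, coeff_C, coeff_X, coeff_zero] at c1
    norm_num at c1
    exact hq0 c1)
  have hxs : (x : ℝ) / s ≤ x := div_le_self (by positivity) (by linarith)
  have hw6 : (L (X ^ M - C (1 - c * q)) : ℝ) ≤ Real.exp (κ * x + c2) := by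
    have e0 : L (X ^ M - C (1 - c * q)) ≤ (P.natDegree + 2) * |q| := by
      refine (L_sub _ _).trans ?_
      have e2 := L_pow X M
      rw [L_X, one_pow] at e2
      have e3 : |1 - c * q| ≤ 1 + c * |q| := by
        refine (abs_sub _ _).trans ?_
        rw [abs_mul, Nat.abs_cast, abs_one]
      have e4 : 1 ≤ |q| := Int.one_le_abs hq0
      have e5 : (c : ℤ) ≤ P.natDegree := by exact_mod_cast (by omega : c ≤ P.natDegree)
      rw [L_C]
      nlinarith
    have e1 : (L (X ^ M - C (1 - c * q)) : ℝ) ≤ (P.natDegree + 2) * ((|q| : ℤ) : ℝ) := by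
      exact_mod_cast e0
    have e3 : (P.natDegree + 2 : ℝ) ≤ ((3 + c0) * x) ^ 1 := by nlinarith
    have e5 : (0 : ℝ) ≤ ((|q| : ℤ) : ℝ) := by exact_mod_cast abs_nonneg q
    calc _ ≤ Real.exp (1 * x + c2) * Real.exp (|(a : ℝ)| * x) :=
          e1.trans (mul_le_mul (e3.trans (hc2' x (by positivity))) hqle e5 (by positivity))
      _ ≤ _ := by rw [← Real.exp_add, hκ]; apply Real.exp_le_exp.2; nlinarith
  have hfin := log_bound _ _ _ _ _ x _ _ _
    (card_le φ hφ (X ^ M - C (1 - c * q)) P (monic_X_pow_sub_C _ (by omega))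
      (by rw [map_sub, map_pow, h0, map_sub, map_sub, map_mul, map_mul, hφq]; simp) hP1
      (fun z => (hcz z).imp_left fun h h' => h (by
        simp only [map_add, map_sub, map_mul, map_pow, aeval_X, aeval_C, map_one,
          map_natCast, eval_add, eval_mul, eval_C, eval_X, eval_pow, eval_sub, eval_one,
          eq_intCast, map_intCast, eval_intCast] at h' ⊢
        linear_combination h')))
    (L_nonneg _) (L_nonneg _) hP3 hw6
    (by positivity) (by positivity) (by rw [natDegree_X_pow_sub_C]; exact_mod_cast hMx) hP2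
  have hlin := lin_le (c0 + c0 * κ + c2) (ε / 3) (by positivity) x
  have e1 : (x : ℝ) / s * c2 ≤ x * c2 := by gcongr
  have e2 : 5 * κ / (s : ℝ) * x ^ 2 ≤ ε / 3 * x ^ 2 := by gcongr
  have e3 : (x : ℝ) * ((4 * κ / s + ε / 3) * x + c0) + (x / s + c0) * (κ * x + c2)
      = 5 * κ / s * x ^ 2 + ε / 3 * x ^ 2 + (c0 + c0 * κ) * x + x / s * c2 + c0 * c2 := by ring
  have e4 : 0 ≤ (N0 * |(a : ℝ)|) ^ 2 / (4 * ε) := by positivity
  linarith

end Pool.Agent.S19085
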