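import Pool.Statements.S19117
import Pool.Agent.H43.Erw4

set_option autoImplicit false
open Pool Pool.MP_055eb9_pr

namespace Pool.Agent.S19117

open Filter Finset Function MeasureTheory ProbabilityTheory Topology Pool.Agent.H43.Erw1 Pool.Agent.H43.Erw4
open scoped ENNReal

/-- For d≥2, any excited random walk on Z^d from 0 in an i.i.d. uniformly elliptic cookie environment either a.s. visits every site infinitely often, or a.s. visits every site only finitely often. -/
theorem result :
  ∀ (d : ℕ), 2 ≤ d →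
  ∀ (Ω : Type) [MeasurableSpace Ω] (μ : MeasureTheory.Measure Ω) [MeasureTheory.IsProbabilityMeasure μ]
    (ω : Ω → (Fin d → ℤ) → (Fin d × Bool) → ℕ → ℝ) (X : ℕ → Ω → (Fin d → ℤ)),
    Measurable ω → (∀ n, Measurable (X n)) →
    ProbabilityTheory.iIndepFun (fun (z : Fin d → ℤ) (a : Ω) => ω a z) μ →
    (∀ z : Fin d → ℤ, ProbabilityTheory.IdentDistrib (fun a => ω a z) (fun a => ω a 0) μ μ) →
    (∃ κ : ℝ, 0 < κ ∧ ∀ᵐ a ∂μ, ∀ (z : Fin d → ℤ) (e : Fin d × Bool) (k : ℕ), κ ≤ ω a z e k) →
    (∀ᵐ a ∂μ, ∀ (z : Fin d → ℤ) (k : ℕ), ∑ e : Fin d × Bool, ω a z e k = 1) →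
    (∀ᵐ a ∂μ, X 0 a = 0) →
    (∀ (n : ℕ) (x : Fin (n + 1) → (Fin d → ℤ)) (e : Fin d × Bool)
        (A : Set ((Fin d → ℤ) → (Fin d × Bool) → ℕ → ℝ)), MeasurableSet A →
      μ.real {a | ω a ∈ A ∧ (∀ m : Fin (n + 1), X (m : ℕ) a = x m) ∧
          X (n + 1) a = x (Fin.last n) + Pi.single e.1 (if e.2 then (1 : ℤ) else -1)} =
      ∫ a in {a | ω a ∈ A ∧ ∀ m : Fin (n + 1), X (m : ℕ) a = x m},
        ω a (x (Fin.last n)) e
          ((Finset.univ.filter (fun m : Fin (n + 1) => (m : ℕ) < n ∧ x m = x (Fin.last n))).card) ∂μ) →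
    (∀ᵐ a ∂μ, ∀ z : Fin d → ℤ, ∃ᶠ n in Filter.atTop, X n a = z) ∨
    (∀ᵐ a ∂μ, ∀ z : Fin d → ℤ, ∀ᶠ n in Filter.atTop, X n a ≠ z) := by
  intro d hd Ω _ μ _ ω X hm hX hind hid ⟨κ, hκ, hel⟩ h1 hs hP
  let W' : List (Fin d × Bool) → (Fin d × Bool → ℕ → ℝ) → ℝ := fun s o => W s fun i e => o e i
  have mW : ∀ s, Measurable (W' s) := fun s => (W_meas s).comp (by fun_prop)
  have mz : ∀ z, Measurable fun a => ω a z := fun z => by fun_prop
  have bd : ∀ᵐ a ∂μ, ∀ z s, 0 ≤ W' s (ω a z) ∧ W' s (ω a z) ≤ 1 := by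
    filter_upwards [hel, h1] with a h h' z s using W_bd (fun i e => hκ.le.trans (h z e i)) (h' z) s
  have iW : ∀ s, Integrable (fun a => W' s (ω a 0)) μ := fun s => .of_bound ((mW s).comp (mz 0)).aestronglyMeasurable 1
    (bd.mono fun a h => by rw [Real.norm_of_nonneg (h 0 s).1]; exact (h 0 s).2)
  let w : List (Fin d × Bool) → ℝ := fun s => ∫ a, W' s (ω a 0) ∂μ
  have wk : ∀ s e, κ * w s ≤ w (e :: s) := fun s e => by
    rw [← integral_const_mul]
    refine integral_mono_ae ((iW s).const_mul κ) (iW _) ?_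
    filter_upwards [hel, bd] with a h h' using mul_le_mul_of_nonneg_right (h 0 e _) (h' 0 s).1
  have w0 : ∀ s, 0 < w s := fun s => by
    induction s with
    | nil => simp [w, W', W]
    | cons e s ih => exact (mul_pos hκ ih).trans_le (wk s e)
  have p0 : ∀ s e, 0 < w (e :: s) / w s := fun s e => div_pos (w0 _) (w0 _)
  have p1 : ∀ s, ∑ e, w (e :: s) / w s = 1 := fun s => by
    rw [← sum_div, ← integral_finsetSum _ fun e _ => iW _, div_eq_one_iff_eq (w0 s).ne']
    refine integral_congr_ae (h1.mono fun a h => ?_)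
    simp only [W', W, ← sum_mul, h, one_mul]
  let k : Fin d × Bool := (⟨0, by omega⟩, true)
  let M := mk _ p0 p1 k
  have mS : ∀ n (y : Fin d → ℤ), MeasurableSet {a | X n a = y} := fun n y => hX n (measurableSet_singleton y)
  have mC : ∀ n (x : Fin (n + 1) → Fin d → ℤ), MeasurableSet {a | ∀ m : Fin (n + 1), X m a = x m} := fun n x => by
    simp only [Set.ofPred_forall]; exact .iInter fun m => mS _ _
  have iw : ∀ z e i, Integrable (fun a => ω a z e i) μ := fun z e i => .of_bound (Measurable.aestronglyMeasurable (by fun_prop)) 1 (by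
    filter_upwards [hel, h1] with a h h'
    rw [Real.norm_of_nonneg (hκ.le.trans (h z e i))]
    exact (single_le_sum (fun e _ => hκ.le.trans (h z e i)) (mem_univ e)).trans_eq (h' z i))
  have a2 : ∀ n, ∀ᵐ a ∂μ, ∃ e, X (n + 1) a = X n a + vec e := fun n => by
    have : ∀ x : Fin (n + 1) → Fin d → ℤ, μ ({a | ∀ m : Fin (n + 1), X m a = x m} \ ⋃ e,
        {a | (∀ m : Fin (n + 1), X m a = x m) ∧ X (n + 1) a = x (Fin.last n) + vec e}) = 0 := fun x => by
      have m : ∀ e, MeasurableSet {a | (∀ m : Fin (n + 1), X m a = x m) ∧ X (n + 1) a = x (Fin.last n) + vec e} := fun e =>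
        (mC n x).inter (mS _ _)
      have b := fun e => hP n x e Set.univ .univ
      simp only [Set.mem_univ, true_and] at b
      rw [← measureReal_eq_zero_iff, measureReal_sdiff (s₁ := {a | ∀ m : Fin (n + 1), X m a = x m})
        (Set.iUnion_subset fun e X h => h.1) (MeasurableSet.iUnion m), measureReal_iUnion_fintype (fun a b h =>
          Set.disjoint_left.2 fun X h1 h2 => h (vec_inj (add_left_cancel (h1.2.symm.trans h2.2)))) m, sub_eq_zero]
      simp only [vec, b]
      rw [← integral_finsetSum _ fun e _ => (iw _ _ _).integrableOn, integral_congr_ae (g := fun _ => 1)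
        (ae_restrict_of_ae (h1.mono fun a h => h _ _))]
      simp
    refine measure_mono_null (fun a ha => ?_) (measure_iUnion_null this)
    exact Set.mem_iUnion.2 ⟨fun j => X j a, fun j => rfl, fun h => ha ((Set.mem_iUnion.1 h).imp fun e h => h.2)⟩
  let D : Ω → ℕ → Fin d × Bool := fun a => dec k fun n => X n a
  have mD : Measurable D := (dec_meas k).comp (measurable_pi_lambda _ hX)
  have a3 : ∀ᵐ a ∂μ, ∀ n, X (n + 1) a = X n a + vec (D a n) := by
    filter_upwards [ae_all_iff.2 a2] with a h n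
    simp only [D, dec, dc, dif_pos (h n)]
    exact (h n).choose_spec
  have b1 : ∀ᵐ a ∂μ, ∀ n, X n a = M.ps (D a) n := by
    filter_upwards [hs, a3] with a h h' n
    induction n with
    | zero => exact h
    | succ n ih => rw [h', ih]; rfl
  have b2 : ∀ ξ (F : Finset (Fin d → ℤ)) n, (∀ j < n, M.ps ξ j ∈ F) →
      μ.map D (cyl ξ n) = .ofReal (∏ z ∈ F, w (M.pat ξ n z)) := fun ξ F n hF => by
    have mG : ∀ n, Measurable fun o : (Fin d → ℤ) → Fin d × Bool → ℕ → ℝ =>
        ENNReal.ofReal (∏ z ∈ F, W' (M.pat ξ n z) (o z)) := fun n =>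
      (Finset.measurable_fun_prod _ fun z _ => (mW _).comp (measurable_pi_apply z)).ennreal_ofReal
    have d1 : (μ.restrict {a | ∀ m : Fin (n + 1), X m a = M.ps ξ m}).map ω =
        (μ.map ω).withDensity fun o => .ofReal (∏ z ∈ F, W' (M.pat ξ n z) (o z)) := by
      induction n with
      | zero =>
        rw [Measure.restrict_eq_self_of_ae_mem (s := {a | ∀ m : Fin (0 + 1), X m a = M.ps ξ m})
          (hs.mono fun a h m => by simpa [Mod.ps] using h)]
        simp [Mod.pat, W', W]
      | succ n ih =>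
        ext A hA
        have c1 := hP n (fun m => M.ps ξ m) (ξ n) A hA
        have c2 : #{m : Fin (n + 1) | (m : ℕ) < n ∧ M.ps ξ m = M.ps ξ (Fin.last n)} = (M.pat ξ n (M.ps ξ n)).length := by
          rw [pat_len]
          exact card_nbij Fin.val (fun m hm => by simpa using hm) Fin.val_injective.injOn fun j hj =>
            ⟨⟨j, by simp at hj; omega⟩, by simpa using hj, rfl⟩
        rw [c2, Fin.val_last] at c1
        rw [Measure.map_apply hm hA, Measure.restrict_apply (hm hA), withDensity_apply _ hA,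
          ← ofReal_measureReal (measure_ne_top _ _), show ω ⁻¹' A ∩ {a | ∀ m : Fin (n + 1 + 1), X m a = M.ps ξ m} = _ from
            Set.ext fun a => and_congr_right fun _ => Fin.forall_fin_succ', ]
        refine (congrArg _ c1).trans ?_
        rw [ofReal_integral_eq_lintegral_ofReal (iw _ _ _).integrableOn (ae_restrict_of_ae (hel.mono fun a h =>
          hκ.le.trans (h _ _ _))), show {a | ω a ∈ A ∧ ∀ m : Fin (n + 1), X m a = M.ps ξ m} = ω ⁻¹' A ∩
            {a | ∀ m : Fin (n + 1), X m a = M.ps ξ m} from rfl,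
          ← Measure.restrict_restrict (hm hA), ← setLIntegral_map hA (f := fun o => ENNReal.ofReal (o (M.ps ξ n) (ξ n)
            (M.pat ξ n (M.ps ξ n)).length)) (by fun_prop) hm, ih fun j hj => hF j (by omega),
          setLIntegral_withDensity_eq_setLIntegral_mul _ (mG n) (by fun_prop) hA, setLIntegral_map hA ((mG n).mul (by fun_prop)) hm,
          setLIntegral_map hA (mG _) hm]
        refine lintegral_congr_ae (ae_restrict_of_ae (hel.mono fun a h => ?_))
        simp only [Pi.mul_apply]
        rw [Mod.pat, prod_upd (hF n (by omega)) (fun z s => W' s (ω a z)) rfl, ENNReal.ofReal_mul (hκ.le.trans (h _ _ _)),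
          mul_comm]
    have d2 := congrArg (· Set.univ) d1
    simp only [Measure.map_apply hm .univ, Set.preimage_univ, Measure.restrict_apply_univ, withDensity_apply _ .univ,
      Measure.restrict_univ, lintegral_map (mG n) hm] at d2
    rw [Measure.map_apply mD (cyl_meas ξ n), measure_congr (t := {a | ∀ m : Fin (n + 1), X m a = M.ps ξ m}), d2,
      ← ofReal_integral_eq_lintegral_ofReal]
    · simp only [← prod_coe_sort F]
      rw [(hind.precomp (g := ((↑) : F → _)) Subtype.val_injective).integral_fun_prod_comp (fun z => (mz z).aemeasurable)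
        fun z => (mW _).aestronglyMeasurable]
      exact congrArg _ (prod_congr rfl fun z _ => ((hid z.1).comp (mW (M.pat ξ n z))).integral_eq)
    · exact .of_bound (Finset.measurable_fun_prod _ fun z _ => (mW _).comp (mz z)).aestronglyMeasurable 1
        (bd.mono fun a h => by
          rw [Real.norm_of_nonneg (prod_nonneg fun z _ => (h z _).1)]
          exact prod_le_one (fun z _ => (h z _).1) fun z _ => (h z _).2)
    · exact bd.mono fun a h => prod_nonneg fun z _ => (h z _).1
    · filter_upwards [b1, a3] with a h h'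
      refine propext ⟨fun (c : D a ∈ cyl ξ n) j => (h j).trans (cyl_ps c j (by omega)).1, fun c j hj => vec_inj ?_⟩
      have := h' j
      rw [c ⟨j, by omega⟩, c ⟨j + 1, by omega⟩] at this
      exact (add_left_cancel this).symm
  have : IsProbabilityMeasure (μ.map D) := Measure.isProbabilityMeasure_map mD.aemeasurable
  have b3 : M.Law (μ.map D) := fun ξ n => by
    have hF : ∀ j < n + 1, M.ps ξ j ∈ (range (n + 1)).image (M.ps ξ) := fun j hj => mem_image_of_mem _ (mem_range.2 hj)
    rw [b2 ξ _ _ hF, b2 ξ _ _ fun j hj => hF j (by omega), Mod.pat, prod_upd (hF n (by omega)) (fun _ s => w s)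
      (div_mul_cancel₀ _ (w0 _).ne').symm, ENNReal.ofReal_mul (p0 _ _).le]
    rfl
  refine (dichotomy (M := M) gen hκ (fun s e => (le_div_iff₀ (w0 s)).2 (wk s e)) b3).imp (fun h => ?_) fun h => ?_
  · filter_upwards [ae_all_iff.2 fun z => ae_of_ae_map mD.aemeasurable (h z), b1] with a h h' z
    simpa [h', frequently_atTop, Mod.Inf] using h z
  · filter_upwards [ae_all_iff.2 fun z => ae_of_ae_map mD.aemeasurable (h z), b1] with a h h' z
    simpa [h', Mod.Inf] using h z

end Pool.Agent.S19117
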