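import Pool.Statements.S19122
import Pool.Agent.H45.ERWEnv

set_option autoImplicit false
open Pool Pool.MP_05ceff_pr

namespace Pool.Agent.S19122

open MeasureTheory Set Filter ProbabilityTheory Pool.Agent.H45.ERW Pool.Agent.H45.Coin
open scoped ENNReal

noncomputable def stack (x : Od) (i : ℕ) : ℝ := ck (EE x) (dd x) i

noncomputable def envO (x : Od) (y : ℤ) (i : ℕ) : ℝ := stack (x + y) i

lemma measurable_dd : Measurable dd := by
  classical
  have hA : MeasurableSet {x | ∃ i, MA i x} := by
    rw [ofPred_exists]; exact MeasurableSet.iUnion ms_A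
  have hB : MeasurableSet {x | ∃ i, MB i x} := by
    rw [ofPred_exists]; exact MeasurableSet.iUnion ms_B
  unfold dd dr
  exact Measurable.ite hA (Measurable.ite hB measurable_const measurable_const)
    (Measurable.ite hB measurable_const measurable_const)

lemma measurable_stack (i : ℕ) : Measurable fun x => stack x i := by
  classical
  unfold stack ck
  refine Measurable.ite ms_E measurable_const ?_
  have : Measurable fun x => (dd x : ℝ) := (measurable_from_top (f := fun n : ℕ => (n : ℝ))).comp measurable_dd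
  split_ifs
  · exact measurable_const
  · exact this.div_const 2
  · exact measurable_const

lemma measurable_envO : Measurable envO :=
  measurable_pi_lambda _ fun y => measurable_pi_lambda _ fun i =>
    (measurable_stack i).comp (measurable_add_const _)

lemma tsum_stack (x : Od) : ∑' i : ℕ, (2 * stack x (i + 1) - 1) = dd x := by
  rw [tsum_eq_sum (s := Finset.range 2) fun i hi => ?_]
  · by_cases h : EE x
    · simp [Finset.sum_range_succ, stack, ck, h, EE_dd h]
    · simp [Finset.sum_range_succ, stack, ck, h]; ring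
  · have h1 : i ≠ 0 := by simp at hi; omega
    have h2 : i ≠ 1 := by simp at hi; omega
    simp [stack, ck, h1, h2]

lemma integral_dd : ∫ x, (dd x : ℝ) ∂mu = 1 := by
  classical
  have hA : MeasurableSet {x | ∃ i, MA i x} := by
    rw [ofPred_exists]; exact MeasurableSet.iUnion ms_A
  have hB : MeasurableSet {x | ∃ i, MB i x} := by
    rw [ofPred_exists]; exact MeasurableSet.iUnion ms_B
  have e : (fun x => (dd x : ℝ)) = fun x => (1 + {x | ∃ i, MA i x}.indicator 1 x) -
      {x | ∃ i, MB i x}.indicator 1 x := by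
    funext x
    simp only [dd, dr_cast, indicator, mem_ofPred_eq, Pi.one_apply]
  have iA : Integrable ({x | ∃ i, MA i x}.indicator (1 : Od → ℝ)) mu :=
    (integrable_const 1).indicator hA
  have iB : Integrable ({x | ∃ i, MB i x}.indicator (1 : Od → ℝ)) mu :=
    (integrable_const 1).indicator hB
  have iC : Integrable (fun x => 1 + {x | ∃ i, MA i x}.indicator (1 : Od → ℝ) x) mu :=
    (integrable_const 1).add iA
  rw [e, integral_sub iC iB, integral_add (integrable_const 1) iA,
    integral_indicator_one hA, integral_indicator_one hB, measureReal_def, measureReal_def, mu_union]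
  simp

lemma ergodic_mu : Ergodic (fun x : Od => (1 : Od) + x) mu := by
  refine ergodic_add_left_of_denseRange_zsmul ?_ mu
  have : (fun n : ℤ => n • (1 : Od)) = (Int.cast : ℤ → ℤ_[2]) := by
    funext n; simp; rfl
  rw [this]
  exact PadicInt.denseRange_intCast

/-- The negation of the preceding statement: For a 1D excited random walk in a shift-ergodic cookie environment with boundedly many cookies and weak ellipticity, let δ be the expected total cookie drift at 0. The walk is recurrent if ∣δ∣ ≤ 1, tends to +∞ a.s. if δ > 1, and to −∞ a.s. if δ < −1. -/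
theorem result :
    ¬ (∀ (Ω : Type) [MeasurableSpace Ω] (μ : MeasureTheory.Measure Ω)
      [MeasureTheory.IsProbabilityMeasure μ]
      (env : Ω → ℤ → ℕ → ℝ) (U : ℕ → Ω → ℝ) (X : ℕ → Ω → ℤ),
      Measurable env →
      (∀ n, Measurable (U n)) →
      (∀ w x i, env w x i ∈ Set.Icc (0:ℝ) 1) →
      ProbabilityTheory.iIndepFun U μ →
      (∀ n, μ.map (U n) = MeasureTheory.volume.restrict (Set.Icc (0:ℝ) 1)) →
      ProbabilityTheory.IndepFun env (fun w n => U n w) μ →
      Ergodic (fun (e : ℤ → ℕ → ℝ) (x : ℤ) => e (x + 1)) (μ.map env) →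
      (∃ M : ℕ, ∀ᵐ w ∂μ, ∀ x : ℤ, ∀ i : ℕ, M < i → env w x i = 1 / 2) →
      0 < μ {w | ∀ i : ℕ, 1 ≤ i → 0 < env w 0 i} →
      0 < μ {w | ∀ i : ℕ, 1 ≤ i → env w 0 i < 1} →
      (∀ w, X 0 w = 0) →
      (∀ n w, X (n + 1) w = X n w +
          (if U n w < env w (X n w)
              ((Finset.range (n + 1)).filter (fun m => X m w = X n w)).card
            then (1 : ℤ) else -1)) →
      ((|∫ w, (∑' i : ℕ, (2 * env w 0 (i + 1) - 1)) ∂μ| ≤ 1 →
          ∀ᵐ w ∂μ, ∃ᶠ n in Filter.atTop, X n w = 0) ∧
       (1 < ∫ w, (∑' i : ℕ, (2 * env w 0 (i + 1) - 1)) ∂μ →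
          ∀ᵐ w ∂μ, Filter.Tendsto (fun n => X n w) Filter.atTop Filter.atTop) ∧
       (∫ w, (∑' i : ℕ, (2 * env w 0 (i + 1) - 1)) ∂μ < -1 →
          ∀ᵐ w ∂μ, Filter.Tendsto (fun n => X n w) Filter.atTop Filter.atBot))) := by
  intro h
  have hfst : MeasurePreserving (Prod.fst : Od × (ℕ → ℝ) → Od) (mu.prod iidU) mu :=
    measurePreserving_fst
  have hsnd : MeasurePreserving (Prod.snd : Od × (ℕ → ℝ) → ℕ → ℝ) (mu.prod iidU) iidU :=
    measurePreserving_snd
  have hU : ∀ n, (mu.prod iidU).map (fun w : Od × (ℕ → ℝ) => w.2 n) = unif := fun n =>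
    ((measurePreserving_eval_infinitePi (fun _ : ℕ => unif) n).comp hsnd).map_eq
  have hmU : ∀ n, Measurable fun w : Od × (ℕ → ℝ) => w.2 n := fun n =>
    (measurable_pi_apply n).comp measurable_snd
  have hE : 0 < (mu.prod iidU) (Prod.fst ⁻¹' {x | EE x}) := by
    rw [hfst.measure_preimage ms_E.nullMeasurableSet]; exact mu_E
  have H := (h (Od × (ℕ → ℝ)) (mu.prod iidU) (fun w => envO w.1) (fun n w => w.2 n)
    (fun n w => (st (envO w.1) w.2 n).1) (measurable_envO.comp measurable_fst) hmU
    (fun w x i => ck_mem _ _ (dr_le _ _) _) ?_ hU ?_ ?_ ?_ ?_ ?_ (fun _ => rfl)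
    (fun n w => st_pos_succ _ _ _)).1 ?_
  · have H2 := Measure.ae_ae_of_ae_prod H
    have hpos : mu {x | r (KK 0) x = 0} ≠ 0 := by rw [mu_zero]; simp
    obtain ⟨x, hx, hx2⟩ := ((frequently_ae_iff.2 hpos).and_eventually H2).exists
    have q := quenched x hx
    have : (univ : Set (ℕ → ℝ)) ≤ᵐ[iidU] {u | ∃ k, (st (envO x) u (k + 1)).1 = 0} := by
      filter_upwards [hx2] with u hu _
      obtain ⟨n, hn, hn2⟩ := frequently_atTop.1 hu 1
      obtain ⟨k, rfl⟩ := Nat.exists_eq_add_of_le' hn
      exact ⟨k, hn2⟩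
    have h3 := (measure_mono_ae this).trans q
    rw [measure_univ] at h3
    norm_num at h3
  · rw [iIndepFun_iff_map_fun_eq_infinitePi_map hmU]
    simp only [hU]
    exact hsnd.map_eq
  · exact indepFun_prod (X := envO) (Y := id) measurable_envO measurable_id
  · have e : (mu.prod iidU).map (fun w : Od × (ℕ → ℝ) => envO w.1) = mu.map envO := by
      rw [← hfst.map_eq, Measure.map_map measurable_envO measurable_fst, hfst.map_eq]; rfl
    rw [e]
    refine (MeasurePreserving.mk measurable_envO rfl).ergodic_of_ergodic_semiconj ergodic_mu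
      (measurable_pi_lambda _ fun y => measurable_pi_apply _) fun x => ?_
    funext y i
    simp only [envO]
    congr 1
    push_cast; ring
  · refine ⟨2, Eventually.of_forall fun w x i hi => ?_⟩
    have h1 : i ≠ 1 := by omega
    have h2 : i ≠ 2 := by omega
    simp [envO, stack, ck, h1, h2]
  · refine hE.trans_le (measure_mono fun w hw i _ => ?_)
    have : EE w.1 := hw
    simp [envO, stack, ck, this]
  · refine hE.trans_le (measure_mono fun w hw i _ => ?_)
    have : EE w.1 := hw
    simp [envO, stack, ck, this]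
    norm_num
  · simp only [envO, tsum_stack, Int.cast_zero, add_zero]
    have : ∫ w : Od × (ℕ → ℝ), (dd w.1 : ℝ) ∂(mu.prod iidU) = 1 := by
      rw [integral_fun_fst (fun x : Od => (dd x : ℝ)), integral_dd]; simp
    rw [this]; simp

end Pool.Agent.S19122
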