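import Pool.Statements.S19182
import Pool.Agent.H44.FZ8

set_option autoImplicit false
open MeasureTheory
open Pool Pool.MP_1775a6_pr

namespace Pool.Agent.S19182

/-- The negation of the preceding statement: For a countable infinite connected locally finite graph G where percolation at every p<1 has only finite clusters, Bernoulli(p) percolation on G×Z almost surely has every infinite cluster meeting each fiber {v}×Z in infinitely many points. -/
theorem result :
    ¬ (∀ (V : Type) [Countable V] [Infinite V] (G : SimpleGraph V),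
      G.Connected →
      (∀ v : V, (G.neighborSet v).Finite) →
      (∀ q : ℝ, 0 ≤ q → q < 1 →
        ∀ (Ω : Type) [MeasurableSpace Ω] (P : Measure Ω) [IsProbabilityMeasure P]
          (ξ : Ω → Set (Sym2 V)),
          (∀ e : Sym2 V, MeasurableSet {w : Ω | e ∈ ξ w}) →
          ProbabilityTheory.iIndepSet (fun e : Sym2 V => {w : Ω | e ∈ ξ w}) P →
          (∀ e : Sym2 V, P {w : Ω | e ∈ ξ w} = ENNReal.ofReal q) →
          ∀ᵐ w ∂P, ∀ x : V, Set.Finite {y : V |
            (G ⊓ SimpleGraph.fromEdgeSet (ξ w)).Reachable x y}) →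
      ∀ p : ℝ, 0 ≤ p → p ≤ 1 →
        ∀ (Ω : Type) [MeasurableSpace Ω] (P : Measure Ω) [IsProbabilityMeasure P]
          (ξ : Ω → Set (Sym2 (V × ℤ))),
          (∀ e : Sym2 (V × ℤ), MeasurableSet {w : Ω | e ∈ ξ w}) →
          ProbabilityTheory.iIndepSet (fun e : Sym2 (V × ℤ) => {w : Ω | e ∈ ξ w}) P →
          (∀ e : Sym2 (V × ℤ), P {w : Ω | e ∈ ξ w} = ENNReal.ofReal p) →
          ∀ᵐ w ∂P, ∀ x : V × ℤ,
            Set.Infinite {y : V × ℤ |
              (SimpleGraph.boxProd G (SimpleGraph.hasse ℤ) ⊓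
                SimpleGraph.fromEdgeSet (ξ w)).Reachable x y} →
            ∀ v : V, Set.Infinite {n : ℤ |
              (SimpleGraph.boxProd G (SimpleGraph.hasse ℤ) ⊓
                SimpleGraph.fromEdgeSet (ξ w)).Reachable x (v, n)}) := by
  intro H
  obtain ⟨π, hM, hq, h1, h2⟩ := H44.FZ.exists_par
  have h3 := H44.FZ.surv π h1
  have : Infinite (H44.FZ.VV π) := by
    by_contra h
    exact h3 (Filter.Eventually.of_forall fun ω h' => h (H44.FZ.inf_of π h').2)
  have h4 := H (H44.FZ.VV π) (H44.FZ.GG π) (H44.FZ.GG_conn π) (H44.FZ.loc_fin π hM)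
    (fun q q0 q1 Ω _ P _ ξ _ hi hp => H44.FZ.pc_one π hM (hq q q0 q1) Ω P ξ hi hp)
    (1 / 128) (by norm_num) (by norm_num) _ (H44.FZ.PP _) (H44.FZ.xi π)
    (fun e => (H44.FZ.DM.one _ true).m) (H44.FZ.xi_indep π) fun e => H44.FZ.PP_open _
  refine h3 ?_
  filter_upwards [h4, H44.FZ.fiber_fin π h2] with ω h5 h6 h7
  exact h5 _ (H44.FZ.inf_of π h7).1 _ h6

end Pool.Agent.S19182
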