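import Pool.Statements.S19194
import Pool.Agent.H44.KWCyc

set_option autoImplicit false
open MeasureTheory ProbabilityTheory
open Pool Pool.MP_1c00b2_pr

namespace Pool.Agent.S19194

/-- The negation of the preceding statement: In a FIFO k-server queue with i.i.d. nonnegative interarrival and service times of finite variance and ρ=ES/(kET)<1, started empty, every customer's mean wait is at most (ρ(2−ρ)varT+varS/k²)/(2(1−ρ)ET). -/
theorem result :
    ¬ (∀ (Ω : Type) [MeasurableSpace Ω] (μ : Measure Ω) [IsProbabilityMeasure μ]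
    (k : ℕ) (T S : ℕ → Ω → ℝ) (V : ℕ → Ω → Fin k → ℝ) (ρ : ℝ),
    0 < k →
    (∀ n, Measurable (T n)) → (∀ n, Measurable (S n)) →
    iIndepFun (fun n ω => (T n ω, S n ω)) μ →
    (∀ n, IndepFun (T n) (S n) μ) →
    (∀ n, IdentDistrib (T n) (T 0) μ μ) →
    (∀ n, IdentDistrib (S n) (S 0) μ μ) →
    (∀ n ω, 0 ≤ T n ω) → (∀ n ω, 0 ≤ S n ω) →
    MemLp (T 0) 2 μ → MemLp (S 0) 2 μ →
    0 < ∫ ω, T 0 ω ∂μ →
    ρ = (∫ ω, S 0 ω ∂μ) / ((k : ℝ) * ∫ ω, T 0 ω ∂μ) →
    ρ < 1 →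
    (∀ ω i, V 0 ω i = 0) →
    (∀ n ω, ∃ j : Fin k, (∀ i, V n ω j ≤ V n ω i) ∧
        ∀ i, V (n + 1) ω i = max 0 (V n ω i + (if i = j then S n ω else 0) - T n ω)) →
    ∀ n, ∫⁻ ω, ENNReal.ofReal (⨅ i, V n ω i) ∂μ ≤
      ENNReal.ofReal ((ρ * (2 - ρ) * variance (T 0) μ + variance (S 0) μ / ((k : ℝ) ^ 2)) /
        (2 * (1 - ρ) * ∫ ω, T 0 ω ∂μ))) := by
  intro h
  open Pool.Agent.H44.KWCyc in
  have key := h Om mu 2 T S V (89 / 100) (by norm_num) measurable_T measurable_S indep_pair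
    (fun n => indepFun_const_left _ _) ident_T ident_S T_nonneg S_nonneg (memLp_T 2) (memLp_S 2)
    (by rw [integral_T]; norm_num) (by rw [integral_S, integral_T]; norm_num) (by norm_num)
    V_zero V_succ 4
  open Pool.Agent.H44.KWCyc in
  have h1 := wait_four.trans key
  open Pool.Agent.H44.KWCyc in
  rw [variance_S, variance_T, integral_T, ENNReal.ofReal_le_ofReal_iff (by norm_num)] at h1
  norm_num at h1

end Pool.Agent.S19194
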