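import Pool.Statements.S19196
import Pool.Agent.H61.EntB

set_option autoImplicit false
open Pool Pool.MP_1d7c3b_pr

namespace Pool.Agent.S19196

/-- The negation of the preceding statement: For i.i.d. X_1..X_n with a symmetric log-concave density and real d with sum of d_i^2 equal to 1, the differential entropy of the sum of d_i X_i is at most that of the sum of X_i/sqrt(n). -/
theorem result :
    ¬ (∀ (n : ℕ), 0 < n → ∀ (f : ℝ → ℝ), (∀ x, 0 ≤ f x) → (∀ x, f (-x) = f x) →
      (∀ x y t : ℝ, 0 ≤ t → t ≤ 1 →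
        f x ^ t * f y ^ (1 - t) ≤ f (t * x + (1 - t) * y)) →
      MeasureTheory.Integrable f → ∫ x, f x = 1 →
      ∀ (Ω : Type) [MeasureTheory.MeasureSpace Ω]
        [MeasureTheory.IsProbabilityMeasure (MeasureTheory.volume : MeasureTheory.Measure Ω)]
        (X : Fin n → Ω → ℝ),
        (∀ i, Measurable (X i)) →
        ProbabilityTheory.iIndepFun X (MeasureTheory.volume : MeasureTheory.Measure Ω) →
        (∀ i, MeasureTheory.Measure.map (X i) (MeasureTheory.volume : MeasureTheory.Measure Ω)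
            = MeasureTheory.volume.withDensity (fun x => ENNReal.ofReal (f x))) →
        ∀ d : Fin n → ℝ, ∑ i, d i ^ 2 = 1 →
          ∫ x, Real.negMulLog
              (((MeasureTheory.Measure.map (fun ω => ∑ i, d i * X i ω)
                (MeasureTheory.volume : MeasureTheory.Measure Ω)).rnDeriv
                  MeasureTheory.volume x).toReal)
            ≤ ∫ x, Real.negMulLog
              (((MeasureTheory.Measure.map (fun ω => ∑ i, (1 / Real.sqrt n) * X i ω)
                (MeasureTheory.volume : MeasureTheory.Measure Ω)).rnDeriv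
                  MeasureTheory.volume x).toReal)) := by
  intro h
  have hs : (1 / Real.sqrt ((2 : ℕ) : ℝ)) ^ 2 + (1 / Real.sqrt ((2 : ℕ) : ℝ)) ^ 2 = 1 := by
    rw [div_pow, Real.sq_sqrt (by norm_num)]; norm_num
  have key := @h 2 (by norm_num)
    (fun x => ProbabilityTheory.gaussianPDFReal 0 1 x * Pool.Agent.H61.Ent.mm x)
    (fun x => mul_nonneg (ProbabilityTheory.gaussianPDFReal_nonneg _ _ _)
      (by linarith [(Pool.Agent.H61.Ent.mm_bd x).1]))
    (fun x => by simp [ProbabilityTheory.gaussianPDFReal, Pool.Agent.H61.Ent.mm])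
    Pool.Agent.H61.Ent.f_logconc Pool.Agent.H61.Ent.f_int Pool.Agent.H61.Ent.f_one
    (Fin 2 → ℝ)
    ⟨MeasureTheory.Measure.pi fun _ : Fin 2 => Pool.Agent.H61.Ent.tilt Pool.Agent.H61.Ent.mm⟩
    (inferInstanceAs (MeasureTheory.IsProbabilityMeasure
      (MeasureTheory.Measure.pi fun _ : Fin 2 => Pool.Agent.H61.Ent.tilt Pool.Agent.H61.Ent.mm)))
    (fun i ω => ω i) (fun i => measurable_pi_apply i)
    (ProbabilityTheory.iIndepFun_pi (X := fun _ x => x) (fun _ => aemeasurable_id))
    (fun i => ((MeasureTheory.measurePreserving_eval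
      (fun _ : Fin 2 => Pool.Agent.H61.Ent.tilt Pool.Agent.H61.Ent.mm) i).map_eq).trans
      (Pool.Agent.H61.Ent.tilt_eq Pool.Agent.H61.Ent.mm_cont))
    ![3 / 5, 4 / 5] (by simp [Fin.sum_univ_two]; norm_num)
  have e1 := Pool.Agent.H61.Ent.map_pi ![3 / 5, 4 / 5]
  have e2 := Pool.Agent.H61.Ent.map_pi fun _ => 1 / Real.sqrt ((2 : ℕ) : ℝ)
  have hm := Pool.Agent.H61.Ent.main _ hs
  simp only [Matrix.cons_val_zero, Matrix.cons_val_one] at e1
  rw [← e1, ← e2] at hm
  exact absurd key (not_le.2 hm)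

end Pool.Agent.S19196
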