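import Pool.Statements.S19204
import Pool.Agent.H43.SignLO

set_option autoImplicit false
open MeasureTheory
open Pool Pool.MP_218893_pr
open scoped ENNReal

namespace Pool.Agent.S19204
open Pool.Agent.H43.SignLO

noncomputable def ν : Measure (Fin 9) := (9 : ℝ≥0∞)⁻¹ • Measure.count

instance : IsProbabilityMeasure ν := ⟨by
  simp [ν, Measure.count_univ, ENNReal.inv_mul_cancel]⟩

def f (i : Fin 9) : Fin 1 → ℤ := fun _ => s i

noncomputable def μ : Measure (Fin 1 → ℤ) := ν.map f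

instance : IsProbabilityMeasure μ := Measure.isProbabilityMeasure_map (by fun_prop)

def e3 : (Fin 3 → Fin 9) ≃ Fin 9 × Fin 9 × Fin 9 where
  toFun ω := (ω 0, ω 1, ω 2)
  invFun p := ![p.1, p.2.1, p.2.2]
  left_inv ω := by ext i; fin_cases i <;> rfl
  right_inv p := rfl

lemma pi_eq (a b c k : ℤ) :
    Measure.pi (fun _ : Fin 3 => μ)
      {ω : Fin 3 → Fin 1 → ℤ | a * ω 0 0 + b * ω 1 0 + c * ω 2 0 = k}
      = (cnt a b c k : ℝ≥0∞) * (9⁻¹) ^ 3 := by
  have hmp : MeasurePreserving (fun (ω : Fin 3 → Fin 9) (i : Fin 3) => f (ω i))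
      (Measure.pi fun _ => ν) (Measure.pi fun _ => μ) :=
    measurePreserving_pi _ _ fun _ => ⟨by fun_prop, rfl⟩
  rw [← hmp.measure_preimage (MeasurableSet.of_discrete.nullMeasurableSet)]
  have h1 : ∀ ω : Fin 3 → Fin 9, (Measure.pi fun _ : Fin 3 => ν) {ω} = (9⁻¹) ^ 3 := by
    intro ω
    rw [← Set.univ_pi_singleton, Measure.pi_pi]
    simp [ν]
  have h2 : ((fun (ω : Fin 3 → Fin 9) (i : Fin 3) => f (ω i)) ⁻¹'
      {ω : Fin 3 → Fin 1 → ℤ | a * ω 0 0 + b * ω 1 0 + c * ω 2 0 = k})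
      = ((Finset.univ.filter fun ω : Fin 3 → Fin 9 =>
          a * s (ω 0) + b * s (ω 1) + c * s (ω 2) = k : Finset _) : Set _) := by
    ext ω; simp [f]
  rw [h2, ← sum_measure_singleton]
  simp only [h1, Finset.sum_const, nsmul_eq_mul]
  have h3 : (Finset.univ.filter fun ω : Fin 3 → Fin 9 =>
          a * s (ω 0) + b * s (ω 1) + c * s (ω 2) = k).card = cnt a b c k := by
    rw [Finset.card_filter, cnt, ← e3.symm.sum_comp]
    simp only [Fintype.sum_prod_type]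
    refine Finset.sum_congr rfl fun i _ => Finset.sum_congr rfl fun j _ =>
      Finset.sum_congr rfl fun l _ => ?_
    simp [e3]
  rw [h3]

theorem result :
    ¬ (∀ (n d : ℕ) (μ : Measure (Fin d → ℤ)) [IsProbabilityMeasure μ],
      ∃ w : Fin n → ℤ, (∀ i, w i = 1 ∨ w i = -1) ∧
        ∀ a : Fin n → ℝ, (∀ i, a i ≠ 0) → ∀ x : Fin d → ℝ,
          Measure.pi (fun _ : Fin n => μ)
              {ω : Fin n → Fin d → ℤ | ∑ i, a i • (fun j => ((ω i j : ℤ) : ℝ)) = x}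
            ≤ ⨆ k : Fin d → ℤ, Measure.pi (fun _ : Fin n => μ)
              {ω : Fin n → Fin d → ℤ | ∑ i, w i • ω i = k}) := by
  intro h
  obtain ⟨w, hw, h⟩ := h 3 1 μ
  have h1 := h ![1, 1, -2] (by intro i; fin_cases i <;> simp) 0
  have e1 : {ω : Fin 3 → Fin 1 → ℤ |
      ∑ i, (![1, 1, -2] : Fin 3 → ℝ) i • (fun j => ((ω i j : ℤ) : ℝ)) = 0}
      = {ω : Fin 3 → Fin 1 → ℤ | 1 * ω 0 0 + 1 * ω 1 0 + (-2) * ω 2 0 = 0} := by
    ext ω
    simp only [Set.mem_ofPred_eq, funext_iff, Fin.forall_fin_one, Fin.sum_univ_three]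
    simp
    norm_cast
  rw [e1, pi_eq, big] at h1
  have h2 : (⨆ k : Fin 1 → ℤ, Measure.pi (fun _ : Fin 3 => μ)
      {ω : Fin 3 → Fin 1 → ℤ | ∑ i, w i • ω i = k}) ≤ (28 : ℕ) * (9⁻¹ : ℝ≥0∞) ^ 3 := by
    refine iSup_le fun k => ?_
    have e2 : {ω : Fin 3 → Fin 1 → ℤ | ∑ i, w i • ω i = k}
        = {ω : Fin 3 → Fin 1 → ℤ | w 0 * ω 0 0 + w 1 * ω 1 0 + w 2 * ω 2 0 = k 0} := by
      ext ω
      simp only [Set.mem_ofPred_eq, funext_iff, Fin.forall_fin_one, Fin.sum_univ_three]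
      simp
    rw [e2, pi_eq]
    gcongr
    exact cnt_le _ _ _ _ (hw 0) (hw 1) (hw 2)
  have h3 := h1.trans h2
  rw [ENNReal.mul_le_mul_iff_left (by simp) (by simp)] at h3
  norm_cast at h3

end Pool.Agent.S19204
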