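import Pool.Statements.S19209
import Pool.Agent.H45.Cyc5

set_option autoImplicit false
open MeasureTheory ProbabilityTheory
open Pool Pool.MP_240aa8_pr

namespace Pool.Agent.S19209

/-- Whenever k≥1,q≥5 or k≥2,q≥4 or k≥3,q≥3, every n-cycle with n≥3 has a random proper q-coloring whose law is invariant under color permutations and whose restrictions to vertex sets more than k apart are independent. -/
theorem result :
    ∀ k q : ℕ, ((1 ≤ k ∧ 5 ≤ q) ∨ (2 ≤ k ∧ 4 ≤ q) ∨ (3 ≤ k ∧ 3 ≤ q)) →
      ∀ n : ℕ, 3 ≤ n →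
        ∃ μ : Measure (Fin n → Fin q), IsProbabilityMeasure μ ∧
          (∀ᵐ x ∂μ, ∀ i j : Fin n, (SimpleGraph.cycleGraph n).Adj i j → x i ≠ x j) ∧
          (∀ σ : Equiv.Perm (Fin q), μ.map (fun x : Fin n → Fin q => σ ∘ x) = μ) ∧
          (∀ A B : Set (Fin n),
            (∀ a ∈ A, ∀ b ∈ B, k < (SimpleGraph.cycleGraph n).dist a b) →
            IndepFun (fun x : Fin n → Fin q => fun a : A => x a)
              (fun x : Fin n → Fin q => fun b : B => x b) μ) := by
  intro k q h n hn
  obtain ⟨n, rfl⟩ : ∃ m, n = m + 2 := ⟨n - 2, by omega⟩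
  by_cases hq : 4 ≤ q
  · obtain ⟨w, hw⟩ := H45.Cyc.good_one (K := Fin q) (by simpa) n
    exact H45.Cyc.to_measure hw fun a b h' => (H45.Cyc.near_dist h').trans (by omega)
  obtain rfl : q = 3 := by omega
  obtain ⟨w, hw⟩ := H45.Cyc.good_three n
  refine H45.Cyc.to_measure hw ?_
  rintro a b ⟨a', b', h1, h2, h3⟩
  have c : (SimpleGraph.cycleGraph (n + 2)).Connected := SimpleGraph.cycleGraph_connected
  have t := fun u v w => c.dist_triangle (u := u) (v := v) (w := w)
  have := t a a' b
  have := t a' b' b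
  have := H45.Cyc.near_dist h1
  have := H45.Cyc.near_dist h2
  have := H45.Cyc.near_dist h3
  omega

end Pool.Agent.S19209
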