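import Pool.Statements.S19226
import Pool.Agent.H44.USF6

set_option autoImplicit false
open Pool Pool.MP_284d10_pr

namespace Pool.Agent.S19226

/-- The negation of the preceding statement: For each k ≥ 2, under a uniformly random ordering of all k-clauses on n variables, the probability that some non-empty uniquely satisfiable subformula appears by the time the formula first becomes unsatisfiable tends to 1 as n grows. -/
theorem result :
    ¬ (∀ k : ℕ, 2 ≤ k →
    Filter.Tendsto
      (fun n : ℕ =>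
        (Nat.card {e : Fin (Nat.card {c : Finset (Fin n × Bool) // c.card = k ∧ (c.image Prod.fst).card = k}) ≃
                      {c : Finset (Fin n × Bool) // c.card = k ∧ (c.image Prod.fst).card = k} //
            ∃ m : ℕ,
              (∀ j : ℕ, j < m → ∃ a : Fin n → Bool,
                  ∀ c : {c : Finset (Fin n × Bool) // c.card = k ∧ (c.image Prod.fst).card = k},
                    ((e.symm c : Fin _) : ℕ) < j → ∃ l ∈ c.val, a l.1 = l.2) ∧
              ∃ H : Finset {c : Finset (Fin n × Bool) // c.card = k ∧ (c.image Prod.fst).card = k},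
                H.Nonempty ∧
                (∀ c ∈ H, ((e.symm c : Fin _) : ℕ) < m) ∧
                ∃ a : Fin n → Bool,
                  (∀ c ∈ H, ∃ l ∈ c.val, a l.1 = l.2) ∧
                  ∀ b : Fin n → Bool, (∀ c ∈ H, ∃ l ∈ c.val, b l.1 = l.2) →
                    ∀ i : Fin n, (∃ c ∈ H, ∃ l ∈ c.val, l.1 = i) → b i = a i} : ℝ) /
        (Nat.card (Fin (Nat.card {c : Finset (Fin n × Bool) // c.card = k ∧ (c.image Prod.fst).card = k}) ≃
                      {c : Finset (Fin n × Bool) // c.card = k ∧ (c.image Prod.fst).card = k}) : ℝ))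
      Filter.atTop (nhds 1)) := by
  intro h
  have h1 := ((h 2 le_rfl).comp (show Filter.Tendsto (fun L : ℕ => (100 * L) ^ 3) Filter.atTop
    Filter.atTop from (Filter.tendsto_pow_atTop (by norm_num)).comp
      (Filter.tendsto_id.const_mul_atTop' (by norm_num)))).eventually
    (lt_mem_nhds (show (1 : ℝ) - 1 / 10 ^ 23 < 1 by norm_num))
  obtain ⟨L, a1, a2⟩ := (h1.and (Filter.eventually_ge_atTop (10 ^ 23))).exists
  have hL : 3 ≤ L := le_trans (by norm_num) a2
  obtain ⟨m, b1, b2⟩ := H44.USF.main hL rfl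
  simp only [Function.comp] at a1
  rw [← H44.USF.PP_eq H44.USF.Val] at a1
  have c1 := a1.trans_le (H44.USF.PP_or H44.USF.Val (G := H44.USF.WIT m)
    (F := fun e => ¬ ∃ i ∈ H44.USF.II L, H44.USF.pres H44.USF.Val m (H44.USF.CI i).toFinset e) ?_)
  · rw [H44.USF.PP_not] at c1
    have c2 : (10 : ℝ) ^ 23 ≤ L := by exact_mod_cast a2
    have c3 : 25 / (100 * (L : ℝ)) ≤ 1 / 10 ^ 23 := by
      rw [div_le_div_iff₀ (by linarith) (by norm_num)]; linarith
    linarith
  rintro e ⟨m', hs, H, hne, hm, a, ha, hu⟩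
  refine or_iff_not_imp_left.2 fun hc => ?_
  obtain ⟨i, hi, hp⟩ := not_not.1 hc
  obtain ⟨⟨_, _, D⟩, -⟩ := H44.USF.db hL hi
  have hmm : m' ≤ m := by
    by_contra c
    obtain ⟨t, ht⟩ := hs m (not_le.1 c)
    exact D.unsat t fun c hc => ht ⟨c, (hp c hc).1⟩ (hp c hc).2
  obtain ⟨x, y, z, z', l, d1, d2, d3⟩ := H44.USF.witness (H := H.image Subtype.val)
    (hne.image _) (by simp only [Finset.forall_mem_image]; exact fun c _ => c.2) (a := a)
    (by simp only [Finset.forall_mem_image]; exact ha) fun b hb i ⟨c, hc, hl⟩ => by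
      obtain ⟨c, hc', rfl⟩ := Finset.mem_image.1 hc
      exact hu b (fun c hc => hb _ (Finset.mem_image_of_mem _ hc)) i ⟨c, hc', hl⟩
  refine ⟨x, y, z, z', l, ⟨d1, fun c hc => ?_⟩, d3⟩
  obtain ⟨c, hc', rfl⟩ := Finset.mem_image.1 (d2 c (List.mem_toFinset.1 hc))
  exact ⟨c.2, (hm c hc').trans_le hmm⟩

end Pool.Agent.S19226
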