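import Pool.Statements.S19285
import Pool.Agent.H45.Gap

set_option autoImplicit false
open MeasureTheory ProbabilityTheory
open scoped NNReal
open Pool Pool.MP_429aeb_pr

namespace Pool.Agent.S19285

/-- There are positive constants c,k1,k2,k3 such that for m≤n, any m×n Ā with Frobenius norm ≤1, 0<σ≤1, x>1, the probability that Ā plus iid N(0,σ²) noise has minimum relative singular-value gap ≤1/x is at most c n^k1 x^-k2 σ^-k3. -/
theorem result :
    ∃ c k₁ k₂ k₃ : ℝ, 0 < c ∧ 0 < k₁ ∧ 0 < k₂ ∧ 0 < k₃ ∧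
      ∀ m n : ℕ, m ≤ n → ∀ Abar : Matrix (Fin m) (Fin n) ℝ,
        (∑ i, ∑ j, Abar i j ^ 2) ≤ 1 →
        ∀ σ : ℝ≥0, 0 < σ → σ ≤ 1 → ∀ x : ℝ, 1 < x →
          (Measure.pi (fun _ : Fin m => Measure.pi (fun _ : Fin n => gaussianReal 0 (σ ^ 2))))
            {G : Fin m → Fin n → ℝ | ∃ j k : Fin m, j ≠ k ∧
              Real.sqrt ((Matrix.isHermitian_mul_conjTranspose_self (Abar + Matrix.of G)).eigenvalues k)
                ≤ Real.sqrt ((Matrix.isHermitian_mul_conjTranspose_self (Abar + Matrix.of G)).eigenvalues j) ∧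
              Real.sqrt ((Matrix.isHermitian_mul_conjTranspose_self (Abar + Matrix.of G)).eigenvalues j)
                - Real.sqrt ((Matrix.isHermitian_mul_conjTranspose_self (Abar + Matrix.of G)).eigenvalues k)
                ≤ Real.sqrt ((Matrix.isHermitian_mul_conjTranspose_self (Abar + Matrix.of G)).eigenvalues k) / x}
            ≤ ENNReal.ofReal (c * (n : ℝ) ^ k₁ * x ^ (-k₂) * (σ : ℝ) ^ (-k₃)) := by
  refine ⟨13 * 6, 7, 2 / 3, 1, by norm_num, by norm_num, by norm_num, one_pos,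
    fun m n hmn Abar hA σ hσ hσ1 x hx => ?_⟩
  rcases Nat.eq_zero_or_pos m with rfl | hm
  · refine (measure_mono (t := ∅) ?_).trans (by simp)
    rintro G ⟨j, -⟩
    exact j.elim0
  have hn : (1 : ℝ) ≤ n := by exact_mod_cast hm.trans_le hmn
  have hmn' : (m : ℝ) ≤ n := by exact_mod_cast hmn
  have hσ' : (0 : ℝ) < σ := hσ
  have hσ1' : (σ : ℝ) ≤ 1 := hσ1
  obtain ⟨T, hT1, hT⟩ : ∃ T : ℝ, 1 < T ∧ x = T ^ 3 :=
    ⟨x ^ ((3 : ℕ) : ℝ)⁻¹, Real.one_lt_rpow hx (by norm_num),
      (Real.rpow_inv_natCast_pow (by linarith) three_ne_zero).symm⟩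
  have hT0 : 0 < T := by linarith
  have he : 13 * 6 * (n : ℝ) ^ (7 : ℝ) * x ^ (-(2 / 3) : ℝ) * (σ : ℝ) ^ (-1 : ℝ) =
      13 * 6 * n ^ 7 / T ^ 2 / σ := by
    rw [Real.rpow_neg_one, Real.rpow_neg (by linarith), hT, ← Real.rpow_natCast T 3,
      ← Real.rpow_mul hT0.le, Real.rpow_ofNat]
    norm_num
    rfl
  rw [he]
  have h7 : (1 : ℝ) ≤ n ^ 7 := one_le_pow₀ hn
  rcases lt_or_ge x 6 with h6 | h6
  · refine prob_le_one.trans (ENNReal.one_le_ofReal.2 ?_)
    rw [div_div, one_le_div (by positivity)]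
    nlinarith [mul_le_of_le_one_right (sq_nonneg T) hσ1']
  refine (measure_mono (t := (⋃ i, ⋃ j, {G | T ≤ |G i j|}) ∪
    ⋃ i, H45.Gap.F x (2 * n * T) i Abar) ?_).trans ((measure_union_le _ _).trans ?_)
  · rintro G ⟨j, k, hjk, h1, h2⟩
    by_cases hG : ∀ i j, |G i j| < T
    · exact Or.inr (Set.mem_iUnion.2 (H45.Gap.cover hmn Abar hA hx.le hT1.le G hG hjk h1 h2))
    · push Not at hG
      exact Or.inl (by simpa using hG)
  refine (add_le_add ((measure_iUnion_fintype_le _ _).trans (Finset.sum_le_card_nsmul _ _ _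
    fun i _ => (measure_iUnion_fintype_le _ _).trans (Finset.sum_le_card_nsmul _ _ _
      fun j _ => H45.Gap.entry_le hσ1 hT0 i j))) ((measure_iUnion_fintype_le _ _).trans
      (Finset.sum_le_card_nsmul _ _ _ fun i _ =>
        H45.Gap.F_le hmn hσ h6 (by positivity) i Abar))).trans ?_
  simp only [Finset.card_univ, Fintype.card_fin, nsmul_eq_mul]
  rw [← ENNReal.ofReal_natCast m, ← ENNReal.ofReal_natCast n, ← ENNReal.ofReal_mul (by positivity),
    ← ENNReal.ofReal_mul (by positivity), ← ENNReal.ofReal_mul (by positivity),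
    ← ENNReal.ofReal_mul (by positivity), ← ENNReal.ofReal_add (by positivity) (by positivity)]
  refine ENNReal.ofReal_le_ofReal ?_
  calc _ ≤ n * (n * (1 / T ^ 2 / σ)) + n * (n * (6 * n ^ 2 * (2 * n * T) / x / σ)) := by
        have := le_div_self (show 0 ≤ 1 / T ^ 2 by positivity) hσ' hσ1'
        refine add_le_add (mul_le_mul hmn' (mul_le_mul_of_nonneg_left this (by positivity))
          (by positivity) (by positivity)) ?_
        gcongr
    _ = (n ^ 2 + 12 * n ^ 5) / T ^ 2 / σ := by rw [hT]; field_simp; ring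
    _ ≤ _ := by
        gcongr
        nlinarith [pow_le_pow_right₀ hn (show 2 ≤ 7 by norm_num),
          pow_le_pow_right₀ hn (show 5 ≤ 7 by norm_num)]

end Pool.Agent.S19285
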