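import Pool.Statements.S19311
import Pool.Agent.H92.WD7

set_option autoImplicit false
open Pool Pool.MP_52a2fa_pr

namespace Pool.Agent.S19311

/-- For every β>1 and every length law m on ℕ≥1 with m(ℓ) between cℓ^{-β} and Cℓ^{-β}: some intensity v>0 makes the Z^4 worm set (SRW ranges) a.s. non-percolating iff β≥3. -/
theorem result :
  ∀ (β : ℝ), 1 < β → ∀ (m : ℕ → ℝ), m 0 = 0 → (∀ ℓ, 0 ≤ m ℓ) → HasSum m 1 →
    (∃ c C : ℝ, 0 < c ∧ 0 < C ∧ ∀ ℓ : ℕ, 1 ≤ ℓ →
        c * ((ℓ : ℝ) ^ (-β)) ≤ m ℓ ∧ m ℓ ≤ C * ((ℓ : ℝ) ^ (-β))) →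
    ((∃ v : ℝ, 0 < v ∧
        ∀ (Ω : Type) [MeasurableSpace Ω] (P : MeasureTheory.Measure Ω)
          [MeasureTheory.IsProbabilityMeasure P]
          (ξ : (Fin 4 → ℤ) × Finset (Fin 4 → ℤ) → Ω → Bool),
          (∀ k, Measurable (ξ k)) →
          ProbabilityTheory.iIndepFun ξ P →
          (∀ k : (Fin 4 → ℤ) × Finset (Fin 4 → ℤ),
            P {ω | ξ k ω = true} =
              ENNReal.ofReal (1 - Real.exp (-(v * ∑' n : ℕ, m (n + 1) *
                (((Finset.univ.filter (fun s : Fin n → Fin 4 × Bool =>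
                    (Finset.range (n + 1)).image (fun t : ℕ =>
                      ∑ i ∈ Finset.univ.filter (fun i : Fin n => (i : ℕ) < t),
                        (Pi.single (s i).1 (if (s i).2 then (1 : ℤ) else -1) : Fin 4 → ℤ))
                    = k.2)).card : ℝ) / (8 : ℝ) ^ n))))) →
          P {ω | ∃ y : Fin 4 → ℤ,
              {z : Fin 4 → ℤ |
                (SimpleGraph.fromRel (fun a b : Fin 4 → ℤ =>
                  (∃ x : Fin 4 → ℤ, ∃ A : Finset (Fin 4 → ℤ), ξ (x, A) ω = true ∧ a - x ∈ A) ∧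
                  (∃ x : Fin 4 → ℤ, ∃ A : Finset (Fin 4 → ℤ), ξ (x, A) ω = true ∧ b - x ∈ A) ∧
                  ∑ j : Fin 4, |a j - b j| = 1)).Reachable y z}.Infinite} = 0)
     ↔ 3 ≤ β) := by
  open MeasureTheory ProbabilityTheory Pool.Agent.H92.WD in
  intro β hβ m _ m0 hs ⟨c, C, c0, C0, hc⟩
  have ms : Summable fun n => m (n + 1) := (summable_nat_add_iff 1).2 hs.summable
  have m1 : ∀ n, 0 ≤ m (n + 1) := fun n => m0 _
  have e : ∀ A : Finset (Fin 4 → ℤ), ∑' n : ℕ, m (n + 1) *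
      (((Finset.univ.filter (fun s : Fin n → Fin 4 × Bool =>
        (Finset.range (n + 1)).image (fun t : ℕ =>
          ∑ i ∈ Finset.univ.filter (fun i : Fin n => (i : ℕ) < t),
            (Pi.single (s i).1 (if (s i).2 then (1 : ℤ) else -1) : Fin 4 → ℤ))
        = A)).card : ℝ) / (8 : ℝ) ^ n) = nu (d := 4) (fun n => m (n + 1)) A := by
    intro A
    refine tsum_congr fun n => ?_
    rw [avg, Finset.sum_boole]
    norm_num [trace, dir]
  have e2 : ∀ {Ω : Type} [MeasurableSpace Ω] {P : Measure Ω}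
      (ξ : (Fin 4 → ℤ) × Finset (Fin 4 → ℤ) → Ω → Bool) (hm : ∀ k, Measurable (ξ k))
      (hi : iIndepFun ξ P), {ω | ∃ y : Fin 4 → ℤ, {z : Fin 4 → ℤ |
        (SimpleGraph.fromRel (fun a b : Fin 4 → ℤ =>
          (∃ x : Fin 4 → ℤ, ∃ A : Finset (Fin 4 → ℤ), ξ (x, A) ω = true ∧ a - x ∈ A) ∧
          (∃ x : Fin 4 → ℤ, ∃ A : Finset (Fin 4 → ℤ), ξ (x, A) ω = true ∧ b - x ∈ A) ∧
          ∑ j : Fin 4, |a j - b j| = 1)).Reachable y z}.Infinite} =
      {ω | Perc ((ofInd ξ hm hi).occ Set.univ ω)} := by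
    intro Ω _ P ξ hm hi
    ext ω
    rw [Set.mem_ofPred_eq, Set.mem_ofPred_eq, ← reach_iff]
    simp only [Model.occ, ofInd, adj, Set.mem_ofPred_eq, Prod.exists, Set.mem_univ, true_and]
  simp only [e]
  have n0 := nu_nonneg (d := 4) m1
  refine ⟨fun ⟨v, v0, h⟩ => not_lt.1 fun h3 => ?_, fun h3 =>
    ⟨1 / (4 * 903 ^ 4) / (10 ^ 13 * C), by positivity, fun Ω _ P _ ξ hm hi h => ?_⟩⟩
  · have p0 : ∀ A, 0 ≤ 1 - Real.exp (-(v * nu (d := 4) (fun n => m (n + 1)) A)) := fun A => by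
      simpa using mul_nonneg v0.le (n0 A)
    obtain ⟨Ω, _, P, ξ, hm, hl, hi, _⟩ := exists_hasLaw_indepFun
      (fun _ : (Fin 4 → ℤ) × Finset (Fin 4 → ℤ) => Bool) fun k => bernoulliMeasure true false
        ⟨_, p0 k.2, sub_le_self _ (Real.exp_pos _).le⟩
    have h1 : ∀ k, P {ω | ξ k ω = true} =
        ENNReal.ofReal (1 - Real.exp (-(v * nu (d := 4) (fun n => m (n + 1)) k.2))) := fun k => by
      rw [(hl k).measure_eq (p := (· = true)) trivial, bernoulliMeasure_apply_of_mem_of_notMem _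
        .of_discrete (by simp) (by simp), ENNReal.ofReal_eq_coe_nnreal (p0 _)]
      rfl
    have h2 := h Ω P ξ hm hi h1
    rw [e2 ξ hm hi] at h2
    exact lower (by norm_num) le_rfl m1 ms c0 (β := β) (by linarith) (by push_cast; linarith)
      (fun n => by simpa using (hc (n + 1) (by simp)).1) v0 _ (ofInd_low hm hi n0 v0.le h1) h2
  · rw [e2 ξ hm hi]
    refine upper (by norm_num) le_rfl m1 ms (C := C) (fun n => (hc (n + 1) (by simp)).2.trans ?_)
      (v := 1 / (4 * 903 ^ 4) / (10 ^ 13 * C)) (by positivity)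
      (div_mul_cancel₀ _ (by positivity)).le _ fun x A => ?_
    · rw [div_eq_mul_one_div]
      exact mul_le_mul_of_nonneg_left (rpow_up (by push_cast; linarith) n) C0.le
    · refine ENNReal.toReal_le_of_le_ofReal (mul_nonneg (by positivity) (n0 A))
        ((h (x, A)).trans_le (ENNReal.ofReal_le_ofReal ?_))
      linarith [Real.add_one_le_exp (-(1 / (4 * 903 ^ 4) / (10 ^ 13 * C) *
        nu (d := 4) (fun n => m (n + 1)) A))]

end Pool.Agent.S19311
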