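import Pool.Statements.S19323
import Pool.Agent.H43.Rm4

set_option autoImplicit false
open Pool Pool.MP_542002_pr

namespace Pool.Agent.S19323

/-- Every infinite connected d-regular graph (d ≥ 3) whose return probabilities have limsup n-th root 2√(d−1)/d carries a bounded non-constant function equal at each vertex to the average of its neighbours. -/
theorem result :
    ∀ (V : Type) (G : SimpleGraph V) [G.LocallyFinite] (d : ℕ),
      Infinite V → G.Connected → 3 ≤ d → G.IsRegularOfDegree d →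
      (∀ v : V, Filter.limsup
          (fun n : ℕ =>
            ((Nat.card {p : G.Walk v v // p.length = n} : ℝ) / (d : ℝ) ^ n) ^ ((1 : ℝ) / (n : ℝ)))
          Filter.atTop = 2 * Real.sqrt ((d : ℝ) - 1) / (d : ℝ)) →
      ∃ f : V → ℝ, (∃ C : ℝ, ∀ v, |f v| ≤ C) ∧
        (∀ v, (d : ℝ) * f v = ∑ w ∈ G.neighborFinset v, f w) ∧
        ∃ x y, f x ≠ f y := by
  intro V G _ d hi hc hd3 hr hl
  obtain ⟨q, rfl⟩ : ∃ q, d = q + 1 := ⟨d - 1, by omega⟩
  have hd : ∀ v, (G.neighborFinset v).card = q + 1 := fun v => hr v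
  have q2 : 2 ≤ q := by omega
  have q0 : (0 : ℝ) < q := by exact_mod_cast (show 0 < q by omega)
  have s0 : 0 < Real.sqrt q := Real.sqrt_pos.2 q0
  have ss : Real.sqrt q ^ 2 = q := Real.sq_sqrt q0.le
  have e : 1 / (1 / Real.sqrt q) + q * (1 / Real.sqrt q) = 2 * Real.sqrt q := by
    field_simp; nlinarith
  obtain ⟨o⟩ := hc.nonempty
  have h1 := hl o
  rw [show (((q + 1 : ℕ) : ℝ) - 1) = q by push_cast; ring] at h1
  obtain ⟨φ, h0, hφ⟩ := H43.Rm2.exphi G hc o (2 * Real.sqrt q) (by positivity)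
    (H43.Rm2.summ G (q + 1) (by omega) hd o _ (by positivity) h1)
  have := H43.Rm4.final G q hd q2 hc (t := 1 / Real.sqrt q) (by positivity)
    (by rw [div_pow, ss]; field_simp) φ h0 (by rw [e]; exact hφ)
  exact_mod_cast this

end Pool.Agent.S19323
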