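import Pool.Statements.S19325
import Pool.Agent.H61.Boot2

set_option autoImplicit false
open Pool Pool.MP_546510_pr

namespace Pool.Agent.S19325

/-- For each 0<a≤2/3, the critical probability for bootstrap percolation on the n-cube with threshold n^a (least p making full infection have probability at least 1/2), divided by n^(a-1), tends to 1. -/
theorem result :
    ∀ a : ℝ, 0 < a → a ≤ 2 / 3 →
      Filter.Tendsto
        (fun n : ℕ =>
          sInf {p : ℝ | 0 ≤ p ∧ p ≤ 1 ∧
            (1 / 2 : ℝ) ≤
              ∑ A ∈ (Finset.univ : Finset (Finset (Fin n → Bool))).filter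
                  (fun A => ∀ S : Finset (Fin n → Bool), A ⊆ S →
                    (∀ v : Fin n → Bool,
                      (n : ℝ) ^ a ≤ ((S.filter (fun u => hammingDist u v = 1)).card : ℝ) →
                        v ∈ S) →
                    S = Finset.univ),
                p ^ A.card * (1 - p) ^ (2 ^ n - A.card)}
          / (n : ℝ) ^ (a - 1))
        Filter.atTop (nhds 1) := by
  intro a a0 a1
  have h := Pool.Agent.H61.Boot.main a0 (by linarith : a < 1)
  simp only [Pool.Agent.H61.Boot.Pr, Pool.Agent.H61.Boot.wt, Pool.Agent.H61.Boot.Perc,
    Pool.Agent.H61.Boot.dg, Fintype.card_fun, Fintype.card_bool, Fintype.card_fin] at h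
  convert h

end Pool.Agent.S19325
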