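import Pool.Statements.S19343
import Pool.Agent.H96.PP3

set_option autoImplicit false
open MeasureTheory ProbabilityTheory
open Pool Pool.MP_5bb7da_pr

namespace Pool.Agent.S19343

open H96.PP Pool.Agent.H44.Loeb Filter


/-- There is a locally finite random subset of the reals, shift-invariant in law, with some c>0 making its parts in (-inf,0] and [c,inf) independent, and constants 0<a<=b so that a.s. distinct points are at least a apart and every interval of length b contains a point. -/
theorem result :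
    ∃ (Ω : Type) (m : MeasurableSpace Ω) (P : Measure Ω) (X : Ω → Set ℝ),
      IsProbabilityMeasure P ∧
      (∀ ω : Ω, ∀ u v : ℝ, (X ω ∩ Set.Icc u v).Finite) ∧
      (∀ u v : ℝ, Measurable (fun ω : Ω => (X ω ∩ Set.Icc u v).ncard)) ∧
      (∀ t : ℝ, ∀ n : ℕ, ∀ (l r : Fin n → ℝ) (k : Fin n → ℕ),
        P {ω : Ω | ∀ i : Fin n, (X ω ∩ Set.Icc (l i) (r i)).ncard = k i} =
        P {ω : Ω | ∀ i : Fin n, (X ω ∩ Set.Icc (l i + t) (r i + t)).ncard = k i}) ∧
      (∃ c : ℝ, 0 < c ∧
        Indep
          (⨆ u : ℝ, ⨆ v : ℝ, MeasurableSpace.comap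
            (fun ω : Ω => (X ω ∩ Set.Icc u (min v 0)).ncard) (inferInstance : MeasurableSpace ℕ))
          (⨆ u : ℝ, ⨆ v : ℝ, MeasurableSpace.comap
            (fun ω : Ω => (X ω ∩ Set.Icc (max u c) v).ncard) (inferInstance : MeasurableSpace ℕ))
          P) ∧
      (∃ a b : ℝ, 0 < a ∧ a ≤ b ∧
        ∀ᵐ ω ∂P, (∀ x ∈ X ω, ∀ y ∈ X ω, x ≠ y → a ≤ |x - y|) ∧
          ∀ t : ℝ, (X ω ∩ Set.Icc t (t + b)).Nonempty) := by
  choose μ hp hs hd hg using scale
  refine ⟨UO, inferInstance, loeb (Ω := fun _ => Cfg) μ, XL, inferInstance, XL_fin, ?_, ?_,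
    ⟨204, by norm_num, ?_⟩, 1, 3, by norm_num, by norm_num, ?_⟩
  · intro u v
    exact (cnt_meas (fun _ => id) u v fun _ _ _ _ _ => Iff.rfl).mono
      (MeasurableSpace.generateFrom_le (IntF_meas fun _ => measurable_id)) le_rfl
  · intro t n l r k
    obtain ⟨s, hS⟩ := XL_SS t
    have hm : MeasurableSet {ω : UO | ∀ i, (XL ω ∩ Set.Icc (l i) (r i)).ncard = k i} := by
      refine measurableSet_setOfPred.2 (.forall fun i => ?_)
      exact ((cnt_meas (fun _ => id) (l i) (r i) fun _ _ _ _ _ => Iff.rfl).mono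
        (MeasurableSpace.generateFrom_le (IntF_meas fun _ => measurable_id)) le_rfl).eq_const _
    rw [← (SS_mp μ hs s).measure_preimage hm.nullMeasurableSet]
    congr 1
    ext ω
    simp only [Set.mem_preimage, Set.mem_ofPred_eq]
    refine forall_congr' fun i => ?_
    have : XL ω ∩ Set.Icc (l i + t) (r i + t)
        = (fun x => x + t) '' (XL (SS s ω) ∩ Set.Icc (l i) (r i)) := by
      ext x
      simp [hS, le_add_neg_iff_add_le, add_neg_le_iff_le_add]
    rw [this, Set.ncard_image_of_injective _ (add_left_injective t)]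
  · have h := IntF_indep μ (f := fun n => LL (2 * 2 ^ n)) (g := fun n => RR (202 * 2 ^ n))
      (fun _ => LL_meas _) (fun _ => RR_meas _) fun n => hd n _ _ (le_of_eq (by ring))
    refine indep_of_indep_of_le_right (indep_of_indep_of_le_left h ?_) ?_
    · refine iSup₂_le fun u v => Measurable.comap_le (cnt_meas _ _ _ fun n η z _ h2 => ?_)
      have hp : (0 : ℝ) < 2 ^ n := by positivity
      have h3 : (z : ℝ) / 2 ^ n ≤ 1 := by linarith [min_le_right v 0]
      rw [div_le_one hp] at h3
      have h4 : z ≤ 2 ^ n := by exact_mod_cast h3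
      have h5 : (0 : ℤ) < 2 ^ n := by positivity
      exact and_congr (and_iff_left (by omega)) (forall₃_congr fun y _ b =>
        imp_congr_left (and_iff_left (by omega)))
    · refine iSup₂_le fun u v => Measurable.comap_le (cnt_meas _ _ _ fun n η z h2 _ => ?_)
      have hp : (0 : ℝ) < 2 ^ n := by positivity
      have h3 : 203 ≤ (z : ℝ) / 2 ^ n := by linarith [le_max_right u 204]
      rw [le_div_iff₀ hp] at h3
      have h4 : 203 * 2 ^ n ≤ z := by exact_mod_cast h3
      have h5 : (0 : ℤ) < 2 ^ n := by positivity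
      exact and_congr (and_iff_left (by omega)) (forall₃_congr fun y a _ =>
        imp_congr_left (and_iff_left (by omega)))
  · have hm : ∀ n : ℕ, MeasurableSet {m : Cfg | Sep (2 ^ n) m ∧ Cov (2 * 2 ^ n) m} := fun n =>
      measurableSet_setOfPred.2 ((Sep_meas _).and (Cov_meas _))
    have h1 := tendsto_loeb (Ω := fun _ => Cfg) μ fun n => (hm n).compl
    rw [ul_compl] at h1
    have h2 : loeb (Ω := fun _ => Cfg) μ
        (ul fun n => {m : Cfg | Sep (2 ^ n) m ∧ Cov (2 * 2 ^ n) m})ᶜ = 0 :=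
      tendsto_nhds_unique h1 (tendsto_const_nhds.congr fun n => (mem_ae_iff.1 (hg n)).symm)
    filter_upwards [mem_ae_iff.2 h2] with ω hω
    exact ⟨XL_sep ω, XL_cov hω⟩

end Pool.Agent.S19343
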