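import Pool.Statements.S19360
import Pool.Agent.H44.Cvx1

set_option autoImplicit false
open MeasureTheory ProbabilityTheory
open Pool Pool.MP_63bd8a_pr

namespace Pool.Agent.S19360

/-- The negation of the preceding statement: For each C>0 there is c>0 such that, in every dimension, if a probability measure has variance of convex Lipschitz g at most C times the mean squared local slope, then convex 1-Lipschitz f satisfies P(f ≤ median − t) ≤ 2exp(−ct). -/
theorem result :
    ¬ (∀ C : ℝ, 0 < C → ∃ c : ℝ, 0 < c ∧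
    ∀ (n : ℕ) (μ : Measure (EuclideanSpace ℝ (Fin n))), IsProbabilityMeasure μ →
      (∀ (g : EuclideanSpace ℝ (Fin n) → ℝ) (L : NNReal),
          ConvexOn ℝ Set.univ g → LipschitzWith L g →
          evariance g μ ≤ ENNReal.ofReal C *
            ∫⁻ x, (Filter.limsup (fun y => ENNReal.ofReal (|g y - g x| / dist y x))
                    (nhdsWithin x {x}ᶜ)) ^ 2 ∂μ) →
      ∀ f : EuclideanSpace ℝ (Fin n) → ℝ, ConvexOn ℝ Set.univ f → LipschitzWith 1 f →
        ∀ m : ℝ, (1 / 2 : ENNReal) ≤ μ {x | f x ≤ m} → (1 / 2 : ENNReal) ≤ μ {x | m ≤ f x} →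
          ∀ t : ℝ, 0 < t → μ {x | f x ≤ m - t} ≤ ENNReal.ofReal (2 * Real.exp (-(c * t)))) := by
  open Pool.Agent.H44.Cvx in
  intro H
  obtain ⟨c, hc, H⟩ := H 4 (by norm_num)
  obtain ⟨k, hk⟩ := exists_nat_gt (12 / c ^ 3 + 2)
  have c3 : 0 < 12 / c ^ 3 := by positivity
  have k2 : (2 : ℝ) < k := by linarith
  have k2' : 2 < k := by exact_mod_cast k2
  have hn : 2 ≤ k ^ 2 := by nlinarith
  have sq : √((k ^ 2 : ℕ) : ℝ) = k := by push_cast; exact Real.sqrt_sq (by positivity)
  have := prob hn
  have ms : ∀ S : Set (EE (k ^ 2)), MeasurableSet S → mu (k ^ 2) S =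
      ENNReal.ofReal (1 / (k ^ 2 : ℕ)) * S.indicator 1 0 + ∑ s : Fin (k ^ 2) → Bool,
        ENNReal.ofReal ((1 - 1 / (k ^ 2 : ℕ)) / 2 ^ (k ^ 2)) * S.indicator 1 (cu s) :=
    fun S hS => by rw [← lintegral_indicator_one hS, lint]
  have h2 : (1 / 2 : ENNReal) ≤ ∑ _s : Fin (k ^ 2) → Bool,
      ENNReal.ofReal ((1 - 1 / (k ^ 2 : ℕ)) / 2 ^ (k ^ 2)) := by
    rw [tot hn, ← ENNReal.ofReal_ofNat, ← ENNReal.ofReal_one,
      ← ENNReal.ofReal_div_of_pos two_pos]
    exact ENNReal.ofReal_le_ofReal (by linarith [half hn])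
  have key := H (k ^ 2) (mu _) this (fun g L h1 h2 => poincare hn h1 h2) (fun x => ‖x‖)
    convexOn_univ_norm lipschitzWith_one_norm k
    (by
      rw [ms _ (measurableSet_le measurable_norm measurable_const)]
      refine h2.trans (le_trans (le_of_eq ?_) le_add_self)
      simp [cu_norm, Set.indicator])
    (by
      rw [ms _ (measurableSet_le measurable_const measurable_norm)]
      refine h2.trans (le_trans (le_of_eq ?_) le_add_self)
      simp [cu_norm, Set.indicator])
    k (by linarith)
  rw [ms _ (measurableSet_le measurable_norm measurable_const)] at key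
  have k3 := le_self_add.trans key
  rw [Set.indicator_of_mem (by simp), Pi.one_apply, mul_one,
    ENNReal.ofReal_le_ofReal_iff (by positivity), Real.exp_neg, ← div_eq_mul_inv,
    div_le_div_iff₀ (by positivity) (by positivity)] at k3
  have e := Real.pow_div_factorial_le_exp (c * k) (by positivity) 3
  have f : 12 < k * c ^ 3 := by rw [← div_lt_iff₀ (by positivity)]; linarith
  push_cast at k3
  simp only [Nat.factorial, Nat.succ_eq_add_one] at e
  push_cast at e
  nlinarith [mul_lt_mul_of_pos_right f (by positivity : (0 : ℝ) < k ^ 2)]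

end Pool.Agent.S19360
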