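import Pool.Statements.S19374
import Pool.Agent.H41.SPk1

set_option autoImplicit false
open Pool Pool.MP_65c29d_pr

namespace Pool.Agent.S19374

/-- The negation of the preceding statement: Every connected locally finite transient graph (positive capacity) has a connected transient subgraph that is exactly the tangency graph of a packing of balls in 3-space with disjoint interiors. -/
theorem result :
    ¬ (∀ (V : Type) (G : SimpleGraph V),
    G.Connected → (∀ v, (G.neighborSet v).Finite) →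
    (∃ o : V, ∃ c : ℝ, 0 < c ∧ ∀ f : V → ℝ, (Function.support f).Finite → f o = 1 →
        c ≤ ∑' p : {p : V × V // G.Adj p.1 p.2}, (f p.1.1 - f p.1.2) ^ 2) →
    ∃ H : G.Subgraph, H.coe.Connected ∧
      (∃ o : H.verts, ∃ c : ℝ, 0 < c ∧ ∀ f : H.verts → ℝ, (Function.support f).Finite → f o = 1 →
        c ≤ ∑' p : {p : H.verts × H.verts // H.coe.Adj p.1 p.2}, (f p.1.1 - f p.1.2) ^ 2) ∧
      ∃ (x : H.verts → EuclideanSpace ℝ (Fin 3)) (r : H.verts → ℝ),
        (∀ v, 0 < r v) ∧
        (∀ u v, u ≠ v → r u + r v ≤ dist (x u) (x v)) ∧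
        (∀ u v, u ≠ v → (H.coe.Adj u v ↔ dist (x u) (x v) = r u + r v))) := by
  intro h
  obtain ⟨H, -, ⟨o, c, hc, hcap⟩, x, r, hr, hd, ha⟩ :=
    h H41.SPk.V H41.SPk.G H41.SPk.conn H41.SPk.locfin
      ⟨⟨0, 0⟩, 1, one_pos, H41.SPk.trans_G⟩
  obtain ⟨f, h1, h2, h3⟩ := H41.SPk.recur H x r hr hd ha o c hc
  exact absurd (hcap f h1 h2) (not_le.2 h3)

end Pool.Agent.S19374
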