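import Pool.Statements.S19375
import Pool.Agent.H96.FD4

set_option autoImplicit false
open MeasureTheory ProbabilityTheory
open Pool Pool.MP_65c995_pr

namespace Pool.Agent.S19375


/-- There exist a compact metric space S, a stationary Markov process (X_i) indexed by the integers with values in S, an integer k>0 and ε>0 such that X_0 and X_k are independent and dist(X_0,X_1) ≥ ε almost surely. -/
theorem result :
    ∃ (S : Type) (_ : MetricSpace S) (_ : CompactSpace S) (_ : MeasurableSpace S)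
      (_ : BorelSpace S) (Ω : Type) (_ : MeasurableSpace Ω) (μ : MeasureTheory.Measure Ω)
      (X : ℤ → Ω → S) (k : ℤ) (ε : ℝ),
      MeasureTheory.IsProbabilityMeasure μ ∧
      (∀ i, Measurable (X i)) ∧
      (∀ n : ℤ, μ.map (fun ω (i : ℤ) => X (i + n) ω) = μ.map (fun ω (i : ℤ) => X i ω)) ∧
      (∀ (n : ℤ) (A : Set S), MeasurableSet A →
        MeasureTheory.condExp (⨆ (m : ℤ) (_ : m ≤ n), MeasurableSpace.comap (X m) inferInstance) μ
          (Set.indicator (X (n + 1) ⁻¹' A) (fun _ => (1 : ℝ)))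
        =ᵐ[μ] MeasureTheory.condExp (MeasurableSpace.comap (X n) inferInstance) μ
          (Set.indicator (X (n + 1) ⁻¹' A) (fun _ => (1 : ℝ)))) ∧
      0 < k ∧ 0 < ε ∧
      ProbabilityTheory.IndepFun (X 0) (X k) μ ∧
      ∀ᵐ ω ∂μ, ε ≤ dist (X 0 ω) (X 1 ω) := by
  letI mS : MetricSpace H96.FD.S := TopologicalSpace.metrizableSpaceMetric H96.FD.S
  have hc : IsCompact {p : H96.FD.S × H96.FD.S | p.1.2 ≠ p.2.2} := by
    refine IsClosed.isCompact ?_
    exact (isClosed_discrete {q : H96.FD.G × H96.FD.G | q.1 ≠ q.2}).preimage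
      (continuous_fst.snd.prodMk continuous_snd.snd)
  obtain ⟨ε, hε, hd⟩ := hc.exists_forall_le' (f := fun p => dist p.1 p.2) (a := 0)
    continuous_dist.continuousOn (fun p hp => dist_pos.2 fun h => hp (by rw [h]))
  refine ⟨H96.FD.S, mS, inferInstance, inferInstance, inferInstance, H96.FD.Om, inferInstance,
    H96.FD.mu, H96.FD.X, 2, ε, inferInstance, H96.FD.X_meas, H96.FD.stat, ?_, by norm_num, hε,
    H96.FD.indep, Filter.Eventually.of_forall fun ω => hd (_, _) (H96.FD.col_ne ω)⟩
  intro n A hA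
  have h1 := H96.FD.markov n A hA
    (⨆ (m : ℤ) (_ : m ≤ n), MeasurableSpace.comap (H96.FD.X m) inferInstance)
    (le_iSup₂ (f := fun (m : ℤ) (_ : m ≤ n) => MeasurableSpace.comap (H96.FD.X m) inferInstance)
      n le_rfl)
    (fun e => iSup₂_le fun m hm => H96.FD.inv_le n e m hm)
  have h2 := H96.FD.markov n A hA _ le_rfl (fun e => H96.FD.inv_le n e n le_rfl)
  exact h1.symm.trans h2

end Pool.Agent.S19375
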