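import Pool.Statements.S19386
import Pool.Agent.H44.KWCyc

set_option autoImplicit false
open Pool Pool.MP_68c8f2_pr

namespace Pool.Agent.S19386

/-- The negation of the preceding statement: For a stable FCFS k-server queue with i.i.d. interarrivals T and services S, the stationary mean wait, as the limit from an empty start, is at most that of the one-server queue with interarrivals T and services S/k. -/
theorem result :
    ¬ (∀ (k : ℕ), 1 ≤ k →
  ∀ (Ω : Type) [MeasurableSpace Ω] (μ : MeasureTheory.Measure Ω)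
    [MeasureTheory.IsProbabilityMeasure μ]
    (T S : ℕ → Ω → ℝ),
    (∀ n, Measurable (T n)) → (∀ n, Measurable (S n)) →
    ProbabilityTheory.iIndepFun (fun i : ℕ ⊕ ℕ => Sum.elim T S i) μ →
    (∀ n, ProbabilityTheory.IdentDistrib (T n) (T 0) μ μ) →
    (∀ n, ProbabilityTheory.IdentDistrib (S n) (S 0) μ μ) →
    (∀ n ω, 0 ≤ T n ω) → (∀ n ω, 0 ≤ S n ω) →
    MeasureTheory.Integrable (T 0) μ → MeasureTheory.Integrable (S 0) μ →
    (∫ ω, S 0 ω ∂μ) < (k : ℝ) * ∫ ω, T 0 ω ∂μ →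
    ∀ (V : ℕ → Ω → Fin k → ℝ) (U : ℕ → Ω → ℝ),
    (∀ ω j, V 0 ω j = 0) →
    (∀ n ω, ∃ i : Fin k, (∀ j, V n ω i ≤ V n ω j) ∧
      ∀ j, V (n + 1) ω j = max 0 (V n ω j + (if j = i then S n ω else 0) - T n ω)) →
    (∀ ω, U 0 ω = 0) →
    (∀ n ω, U (n + 1) ω = max 0 (U n ω + S n ω / (k : ℝ) - T n ω)) →
    (⨆ n, ∫⁻ ω, ENNReal.ofReal (⨅ j, V n ω j) ∂μ) ≤
      ⨆ n, ∫⁻ ω, ENNReal.ofReal (U n ω) ∂μ) := by
  intro h
  open Pool.Agent.H44.KWCyc in
  have key := h 2 (by norm_num) Om mu T S measurable_T measurable_S indep_sum ident_T ident_S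
    T_nonneg S_nonneg (MeasureTheory.memLp_one_iff_integrable.1 (memLp_T 1))
    (MeasureTheory.memLp_one_iff_integrable.1 (memLp_S 1))
    (by rw [integral_S, integral_T]; norm_num) V U V_zero V_succ U_zero U_succ
  open Pool.Agent.H44.KWCyc in
  have h1 := (wait_four.trans (le_iSup (fun n => ∫⁻ ω, ENNReal.ofReal (⨅ j, V n ω j) ∂mu) 4)).trans
    (key.trans (iSup_le U_bound))
  rw [ENNReal.ofReal_le_ofReal_iff (by norm_num)] at h1
  norm_num at h1

end Pool.Agent.S19386
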