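import Pool.Statements.S19414
import Pool.Agent.H43.Fd4

set_option autoImplicit false
open MeasureTheory ProbabilityTheory
open Pool Pool.MP_76c567_pr

namespace Pool.Agent.S19414

/-- The negation of the preceding statement: On a regular tree of degree at least 3, every automorphism-invariant finitely dependent process with standard Borel values is an equivariant factor of i.i.d. uniform labels with almost surely finite coding radius. -/
theorem result :
    ¬ (∀ (V : Type) (G : SimpleGraph V) (d : ℕ), 3 ≤ d → G.IsTree →
    (∀ v : V, (G.neighborSet v).ncard = d) →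
    ∀ (S : Type) [MeasurableSpace S] [StandardBorelSpace S] (μ : Measure (V → S)),
      IsProbabilityMeasure μ →
      (∀ φ : G ≃g G, μ.map (fun x : V → S => fun v => x (φ v)) = μ) →
      (∃ k : ℕ, ∀ A B : Set V, (∀ a ∈ A, ∀ b ∈ B, k < G.dist a b) →
        Indep (MeasurableSpace.comap (fun x : V → S => fun a : A => x a) inferInstance)
          (MeasurableSpace.comap (fun x : V → S => fun b : B => x b) inferInstance) μ) →
      ∃ F : (V → unitInterval) → (V → S), Measurable F ∧
        (Measure.infinitePi (fun _ : V => (volume : Measure unitInterval))).map F = μ ∧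
        (∀ φ : G ≃g G, ∀ᵐ y ∂(Measure.infinitePi (fun _ : V => (volume : Measure unitInterval))),
          F (fun v => y (φ v)) = fun v => F y (φ v)) ∧
        (∀ᵐ y ∂(Measure.infinitePi (fun _ : V => (volume : Measure unitInterval))),
          ∀ v : V, ∃ r : ℕ, ∀ y' : V → unitInterval,
            (∀ u : V, G.dist v u ≤ r → y' u = y u) → F y' v = F y v)) := by
  intro H
  obtain ⟨μ, h0, h1, h2, h3⟩ := Pool.Agent.H43.Fd.exists_mu
  obtain ⟨F, mF, a, b, c⟩ := H _ _ 4 (by norm_num) Pool.Agent.H43.Fd.cay_rt.isTree
    Pool.Agent.H43.Fd.cay_deg (ℕ → ℝ) μ h0 h1 ⟨1, h2⟩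
  exact h3 _ volume F mF a b c

end Pool.Agent.S19414
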