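import Pool.Statements.S19489
import Pool.Agent.H44.TasepM

set_option autoImplicit false
open Classical
open Pool Pool.MP_9492fd_pr

namespace Pool.Agent.S19489

/-- In the n-species TASEP on a ring of n sites (larger species at a site swaps with a smaller one to its right at rate 1), any stationary law gives probability 1/n^r that sites 1..r carry i_1..i_r whenever i_a+1<i_{a+1}. -/
theorem result :
    ∀ n : ℕ, ∀ π : Equiv.Perm (Fin n) → ℝ,
      (∀ σ, 0 ≤ π σ) →
      (∑ σ, π σ) = 1 →
      (∀ σ : Equiv.Perm (Fin n),
        (∑ k : Fin n, (if σ (finRotate n k) < σ k then π σ else 0)) =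
          ∑ k : Fin n, (if σ k < σ (finRotate n k)
            then π (σ * Equiv.swap k (finRotate n k)) else 0)) →
      ∀ r : ℕ, r ≤ n →
      ∀ i : Fin r → Fin n,
        (∀ a b : Fin r, a.val + 1 = b.val → (i a).val + 1 < (i b).val) →
        (∑ σ ∈ Finset.univ.filter
            (fun σ : Equiv.Perm (Fin n) =>
              ∀ p : Fin n, ∀ a : Fin r, p.val = a.val → σ p = i a),
          π σ) = 1 / (n : ℝ) ^ r := by
  intro n π _ h1 hs r h i hi
  rw [← Pool.Agent.H44.Tasep.chain n π h1 (by convert hs) r h i hi]
  refine Finset.sum_congr ?_ fun _ _ => rfl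
  ext σ
  simp only [Finset.mem_filter, Finset.mem_univ, true_and]
  exact ⟨fun H a => H _ a rfl, fun H p a hp => by rw [← H a]; congr 1; exact Fin.ext hp⟩

end Pool.Agent.S19489
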