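import Pool.Statements.S19560

set_option autoImplicit false
open MeasureTheory ProbabilityTheory
open Pool Pool.MP_aa6114_pr

namespace Pool.Agent.S19560

/-- Integer values of the four variables, each driven by its own fair coin:
X0 in {1, 11}, X1 = 5, X2 in {0, 12}, X3 in {3, 13}. -/
def val (i : Fin 4) (b : Bool) : ℕ :=
  match i, b with
  | 0, false => 1
  | 0, true => 11
  | 1, _ => 5
  | 2, false => 0
  | 2, true => 12
  | 3, false => 3
  | 3, true => 13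

noncomputable def mu : Measure (Fin 4 → Bool) :=
  Measure.pi (fun _ : Fin 4 => uniformOn (Set.univ : Set Bool))

instance mu_prob : IsProbabilityMeasure mu := by
  unfold mu; infer_instance

lemma mu_eq : mu = uniformOn (Set.univ : Set (Fin 4 → Bool)) := by
  unfold mu
  rw [← uniformOn_pi, Set.pi_univ]

lemma mu_apply (p : (Fin 4 → Bool) → Prop) [DecidablePred p] (s : Set (Fin 4 → Bool))
    (hs : ∀ ω, ω ∈ s ↔ p ω) (k : ℕ) (hk : (Finset.univ.filter p).card = k) :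
    mu s = (k : ENNReal) / 16 := by
  have h1 : s = ((Finset.univ.filter p : Finset (Fin 4 → Bool)) : Set (Fin 4 → Bool)) := by
    ext ω; simp [hs]
  rw [mu_eq, uniformOn_univ, h1, Measure.count_apply_finset, hk]
  simp

theorem result :
    ¬ (∀ (Ω : Type) [MeasurableSpace Ω] (μ : Measure Ω) [IsProbabilityMeasure μ]
      (n : ℕ) (X : Fin n → Ω → ℝ),
      (∀ i, Measurable (X i)) →
      iIndepFun X μ →
      ∀ (a b c : Fin n), a ≠ b → a ≠ c → b ≠ c →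
      ∀ (S W : Finset (Fin n × Fin n)),
        μ ({ω | (∀ p ∈ S, X p.1 ω < X p.2 ω) ∧ (∀ p ∈ W, X p.1 ω ≤ X p.2 ω)}
            ∩ {ω | X a ω < X c ω}) ≠ 0 →
        ProbabilityTheory.cond μ
            {ω | (∀ p ∈ S, X p.1 ω < X p.2 ω) ∧ (∀ p ∈ W, X p.1 ω ≤ X p.2 ω)}
            {ω | X a ω < X b ω}
          ≤ ProbabilityTheory.cond μ
            ({ω | (∀ p ∈ S, X p.1 ω < X p.2 ω) ∧ (∀ p ∈ W, X p.1 ω ≤ X p.2 ω)}
              ∩ {ω | X a ω < X c ω})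
            {ω | X a ω < X b ω}) := by
  intro h
  have hind : iIndepFun (fun (i : Fin 4) (ω : Fin 4 → Bool) => ((val i (ω i) : ℕ) : ℝ)) mu := by
    unfold mu
    exact iIndepFun_pi (X := fun (i : Fin 4) (b : Bool) => ((val i b : ℕ) : ℝ))
      (fun i => (measurable_of_countable _).aemeasurable)
  have key := h (Fin 4 → Bool) mu 4 (fun i ω => ((val i (ω i) : ℕ) : ℝ))
    (fun i => measurable_of_countable _) hind 0 1 2 (by decide) (by decide) (by decide)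
    {(0, 3), (2, 3)} ∅
  set P : Set (Fin 4 → Bool) := {ω | (∀ p ∈ ({(0, 3), (2, 3)} : Finset (Fin 4 × Fin 4)),
      ((val p.1 (ω p.1) : ℕ) : ℝ) < ((val p.2 (ω p.2) : ℕ) : ℝ)) ∧
      (∀ p ∈ (∅ : Finset (Fin 4 × Fin 4)),
      ((val p.1 (ω p.1) : ℕ) : ℝ) ≤ ((val p.2 (ω p.2) : ℕ) : ℝ))} with hP
  set A : Set (Fin 4 → Bool) := {ω | ((val 0 (ω 0) : ℕ) : ℝ) < ((val 1 (ω 1) : ℕ) : ℝ)} with hA
  set C : Set (Fin 4 → Bool) := {ω | ((val 0 (ω 0) : ℕ) : ℝ) < ((val 2 (ω 2) : ℕ) : ℝ)} with hC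
  have mP : ∀ ω, ω ∈ P ↔ (val 0 (ω 0) < val 3 (ω 3) ∧ val 2 (ω 2) < val 3 (ω 3)) := by
    intro ω; simp [hP]
  have mA : ∀ ω, ω ∈ A ↔ val 0 (ω 0) < val 1 (ω 1) := by
    intro ω; simp [hA]
  have mC : ∀ ω, ω ∈ C ↔ val 0 (ω 0) < val 2 (ω 2) := by
    intro ω; simp [hC]
  have e1 : mu P = (10 : ℕ) / 16 := mu_apply _ P mP 10 (by decide)
  have e2 : mu (P ∩ A) = (6 : ℕ) / 16 :=
    mu_apply (fun ω => (val 0 (ω 0) < val 3 (ω 3) ∧ val 2 (ω 2) < val 3 (ω 3)) ∧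
      val 0 (ω 0) < val 1 (ω 1)) _ (fun ω => by rw [Set.mem_inter_iff, mP, mA]) 6 (by decide)
  have e3 : mu (P ∩ C) = (4 : ℕ) / 16 :=
    mu_apply (fun ω => (val 0 (ω 0) < val 3 (ω 3) ∧ val 2 (ω 2) < val 3 (ω 3)) ∧
      val 0 (ω 0) < val 2 (ω 2)) _ (fun ω => by rw [Set.mem_inter_iff, mP, mC]) 4 (by decide)
  have e4 : mu (P ∩ C ∩ A) = (2 : ℕ) / 16 :=
    mu_apply (fun ω => ((val 0 (ω 0) < val 3 (ω 3) ∧ val 2 (ω 2) < val 3 (ω 3)) ∧
      val 0 (ω 0) < val 2 (ω 2)) ∧ val 0 (ω 0) < val 1 (ω 1)) _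
      (fun ω => by rw [Set.mem_inter_iff, Set.mem_inter_iff, mP, mC, mA]) 2 (by decide)
  have hne : mu (P ∩ C) ≠ 0 := by rw [e3]; simp
  have k2 := key hne
  rw [cond_apply (MeasurableSet.of_discrete), cond_apply (MeasurableSet.of_discrete),
    e1, e2, e3, e4] at k2
  have k3 := ENNReal.toReal_mono (by
    apply ENNReal.mul_ne_top
    · simp
    · exact ENNReal.div_ne_top (by simp) (by simp)) k2
  simp only [ENNReal.toReal_mul, ENNReal.toReal_inv, ENNReal.toReal_div,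
    ENNReal.toReal_natCast, ENNReal.toReal_ofNat] at k3
  norm_num at k3

end Pool.Agent.S19560
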