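import Pool.Statements.S19562
import Pool.Agent.H45.ARPos

set_option autoImplicit false
open MeasureTheory
open Pool Pool.MP_aa6ebe_pr

namespace Pool.Agent.S19562

/-- The negation of the preceding statement: For every countable group and any two symmetric probability measures whose supports generate it: if a.s. the products X_n, X_{n+1}, ... of the walk generate the whole group as a semigroup for every n under the first, the same holds under the second. -/
theorem result :
    ¬ (∀ (G : Type) [Group G] [Countable G] [MeasurableSpace G] [DiscreteMeasurableSpace G]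
      (μ ν : PMF G),
      (∀ g : G, μ g⁻¹ = μ g) → Subgroup.closure μ.support = ⊤ →
      (∀ g : G, ν g⁻¹ = ν g) → Subgroup.closure ν.support = ⊤ →
      (∀ n : ℕ, ∀ᵐ ω ∂(Measure.infinitePi (fun _ : ℕ => μ.toMeasure)),
          Subsemigroup.closure
            (Set.range (fun k : ℕ => ((List.range (n + k)).map ω).prod)) = ⊤) →
      (∀ n : ℕ, ∀ᵐ ω ∂(Measure.infinitePi (fun _ : ℕ => ν.toMeasure)),
          Subsemigroup.closure
            (Set.range (fun k : ℕ => ((List.range (n + k)).map ω).prod)) = ⊤)) := by
  intro h
  obtain ⟨μ, ν, h1, h2, h3, h4⟩ := Pool.Agent.H45.AR.depends_on_measure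
  let _ : MeasurableSpace (Multiplicative (ℕ →₀ ℤ)) := ⊤
  exact h4 fun n _ => @h (Multiplicative (ℕ →₀ ℤ)) _ Pool.Agent.H45.AR.instCountableMult ⊤ ⟨fun _ => trivial⟩ 
    μ ν h1.1 h1.2 h2.1 h2.2 h3 n

end Pool.Agent.S19562
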