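import Pool.Statements.S19593
import Pool.Agent.H92.WD8

set_option autoImplicit false
open MeasureTheory ProbabilityTheory
open Pool Pool.MP_b9fdbf_pr

namespace Pool.Agent.S19593

/-- In ℤ³ worm percolation (Poisson(v) worms per site, lengths i.i.d. with m(ℓ)≍ℓ^{-β}, traces of simple random walks), some v>0 gives zero probability of an infinite occupied path exactly when β ≥ 5/2. -/
theorem result :
    ∀ (β : ℝ) (m : PMF ℕ), m 0 = 0 →
      (∃ c C : ℝ, 0 < c ∧ 0 < C ∧ ∀ ℓ : ℕ, 1 ≤ ℓ →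
          c * (ℓ : ℝ) ^ (-β) ≤ (m ℓ).toReal ∧ (m ℓ).toReal ≤ C * (ℓ : ℝ) ^ (-β)) →
      ((∃ v : NNReal, 0 < v ∧
          ((Measure.infinitePi (fun _ : ℤ × ℤ × ℤ => (poissonPMF v).toMeasure)).prod
            ((Measure.infinitePi (fun _ : (ℤ × ℤ × ℤ) × ℕ => m.toMeasure)).prod
              (Measure.infinitePi
                (fun _ : (ℤ × ℤ × ℤ) × ℕ × ℕ => (PMF.uniformOfFintype (Fin 6)).toMeasure))))
          {ω : (ℤ × ℤ × ℤ → ℕ) × ((ℤ × ℤ × ℤ) × ℕ → ℕ) × ((ℤ × ℤ × ℤ) × ℕ × ℕ → Fin 6) |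
            ∃ p : ℕ → ℤ × ℤ × ℤ, Function.Injective p ∧ ∀ n : ℕ,
              |(p (n + 1)).1 - (p n).1| + |(p (n + 1)).2.1 - (p n).2.1|
                  + |(p (n + 1)).2.2 - (p n).2.2| = 1 ∧
              ∃ x : ℤ × ℤ × ℤ, ∃ i : ℕ, i < ω.1 x ∧ ∃ j : ℕ, j < ω.2.1 (x, i) ∧
                p n = x + ∑ k ∈ Finset.range j,
                  (![(1, 0, 0), (-1, 0, 0), (0, 1, 0), (0, -1, 0), (0, 0, 1), (0, 0, -1)] :
                      Fin 6 → ℤ × ℤ × ℤ) (ω.2.2 (x, i, k))} = 0)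
        ↔ (5 / 2 : ℝ) ≤ β) := by
  open Pool.Agent.H92.WD in
  intro β m _ ⟨c, C, c0, C0, hc⟩
  have m1 : ∀ n, 0 ≤ (m (n + 1)).toReal := fun _ => ENNReal.toReal_nonneg
  have e : ∀ v : NNReal, {ω : Om | ∃ p : ℕ → ℤ × ℤ × ℤ, Function.Injective p ∧ ∀ n : ℕ,
      |(p (n + 1)).1 - (p n).1| + |(p (n + 1)).2.1 - (p n).2.1|
          + |(p (n + 1)).2.2 - (p n).2.2| = 1 ∧
      ∃ x : ℤ × ℤ × ℤ, ∃ i : ℕ, i < ω.1 x ∧ ∃ j : ℕ, j < ω.2.1 (x, i) ∧
        p n = x + ∑ k ∈ Finset.range j,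
          (![(1, 0, 0), (-1, 0, 0), (0, 1, 0), (0, -1, 0), (0, 0, 1), (0, 0, -1)] :
              Fin 6 → ℤ × ℤ × ℤ) (ω.2.2 (x, i, k))} =
      {ω | Perc ((modW (poissonPMF v) m).occ Set.univ ω)} := by
    intro v
    ext ω
    simp only [Set.mem_ofPred_eq, koenig, mem_occ, adj, Fin.sum_univ_three]
    exact ⟨fun ⟨p, h1, h2⟩ => ⟨psi.symm ∘ p, psi.symm.injective.comp h1, h2⟩,
      fun ⟨p, h1, h2⟩ => ⟨psi ∘ p, psi.injective.comp h1, h2⟩⟩
  have e2 : ∀ (v : NNReal) (k : ℕ),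
      poissonPMF v k = ENNReal.ofReal (Real.exp (-v) * v ^ k / k.factorial) := fun _ _ => rfl
  obtain ⟨w, hw⟩ : ∃ w : NNReal, (w : ℝ) = 1 / (4 * 903 ^ 3) / (10 ^ 13 * C) :=
    ⟨⟨_, by positivity⟩, rfl⟩
  refine ⟨fun ⟨v, v0, h⟩ => not_lt.1 fun h3 => ?_, fun h3 =>
    ⟨w, by rw [← NNReal.coe_pos, hw]; positivity, ?_⟩⟩
  · rw [e v] at h
    refine lower le_rfl (by norm_num) m1 (summ m) c0 (β := max β 0) (le_max_right _ _)
      (by rcases max_choice β 0 with k | k <;> rw [k] <;> push_cast <;> linarith)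
      (fun n => le_trans ?_ (hc (n + 1) (by simp)).1) ?_ _ (modW_low _ m) h
    · push_cast
      exact mul_le_mul_of_nonneg_left (Real.rpow_le_rpow_of_exponent_le (by simp)
        (neg_le_neg (le_max_left _ _))) c0.le
    · rw [e2, ENNReal.toReal_ofReal (by positivity)]
      positivity
  · rw [e]
    refine upper le_rfl (by norm_num) m1 (summ m) (C := C)
      (fun n => (hc (n + 1) (by simp)).2.trans ?_)
      w.coe_nonneg (by rw [hw, div_mul_cancel₀ _ (by positivity)]) _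
      (modW_up _ m w.coe_nonneg fun k => ?_)
    · rw [div_eq_mul_one_div]
      exact mul_le_mul_of_nonneg_left (rpow_up (by push_cast; linarith) n) C0.le
    · rw [e2, e2, ← ENNReal.ofReal_mul (by positivity), ← Nat.cast_succ, ← ENNReal.ofReal_natCast,
        ← ENNReal.ofReal_mul (by positivity), Nat.factorial_succ, pow_succ]
      congr 1
      push_cast
      field_simp

end Pool.Agent.S19593
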