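import Pool.Statements.S19597
import Pool.Agent.H46.RA.Glue
import Pool.Agent.H46.RA.Pot

set_option autoImplicit false
open Pool Pool.MP_ba3ff3_pr

namespace Pool.Agent.S19597

open Filter Pool.Agent.H46.RA

lemma cube (a b ε : ℝ) (ha : 0 ≤ a) (hb : 0 ≤ b) (hε : 0 < ε) :
    ∀ᶠ k : ℕ in atTop, a * (2 * k + b) ^ 3 ≤ ε * 2 ^ k := by
  have h := (tendsto_pow_const_div_const_pow_of_one_lt 3 (r := 2) (by norm_num)).const_mul
    (a * (2 + b) ^ 3)
  rw [mul_zero] at h
  filter_upwards [h.eventually (ge_mem_nhds hε), eventually_ge_atTop 1] with k h1 h2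
  have k1 : (1 : ℝ) ≤ k := by exact_mod_cast h2
  rw [← mul_div_assoc, div_le_iff₀ (by positivity)] at h1
  refine le_trans ?_ h1
  rw [mul_assoc, ← mul_pow]
  gcongr
  nlinarith

lemma cube' (a b : ℝ) (ha : 0 ≤ a) (hb : 0 ≤ b) :
    ∃ L, 0 ≤ L ∧ ∀ k : ℕ, a * (2 * k + b) ^ 3 ≤ L * 2 ^ k := by
  obtain ⟨k0, h⟩ := eventually_atTop.mp (cube a b 1 ha hb one_pos)
  refine ⟨1 + a * (2 * k0 + b) ^ 3, by positivity, fun k => ?_⟩
  have t : (1 : ℝ) ≤ 2 ^ k := one_le_pow₀ (by norm_num)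
  have u : 0 ≤ a * (2 * k0 + b) ^ 3 := by positivity
  rcases le_total k0 k with hk | hk
  · nlinarith [h k hk]
  · have : a * (2 * k + b) ^ 3 ≤ a * (2 * k0 + b) ^ 3 := by gcongr
    nlinarith

lemma qq_le (W : ℕ) {p : ℝ} (h0 : 0 ≤ p) (h1 : p ≤ 1) : qq W p ≤ W * p :=
  mul_le_of_le_one_right (by positivity) (pow_le_one₀ (by linarith) (by linarith))

lemma qq_small (W : ℕ) (hW : W ≠ 0) {p : ℝ} (h0 : 0 < p) (h1 : p ≤ 1 / 4) :
    qq W p ≤ 8 / (W * p) ^ 2 := by
  obtain ⟨W, rfl⟩ : ∃ V, W = V + 1 := ⟨W - 1, by omega⟩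
  simp only [qq, Nat.add_sub_cancel]
  set x : ℝ := ((W + 1 : ℕ) : ℝ) * p with hx
  have x0 : 0 < x := by positivity
  have a1 : (1 - p) ^ (W + 1) ≤ Real.exp (-x) := by
    rw [hx, ← mul_neg, Real.exp_nat_mul]
    exact pow_le_pow_left₀ (by linarith) (by linarith [Real.add_one_le_exp (-p)]) _
  have a2 := Real.pow_div_factorial_le_exp x x0.le 3
  have a3 : Real.exp (-x) * Real.exp x = 1 := by rw [← Real.exp_add]; simp
  have a4 : Real.exp (-x) * x ^ 3 ≤ 6 := by
    have := mul_le_mul_of_nonneg_left a2 (Real.exp_pos (-x)).le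
    norm_num [Nat.factorial] at this
    linarith
  have a5 : 0 ≤ (1 - p) ^ W := pow_nonneg (by linarith) _
  have a6 : (1 - p) ^ W * (3 / 4) ≤ Real.exp (-x) := by
    rw [pow_succ] at a1
    exact le_trans (by gcongr; linarith) a1
  rw [le_div_iff₀ (by positivity)]
  have := mul_le_mul_of_nonneg_right a6 (pow_pos x0 3).le
  nlinarith

lemma qq_big (W : ℕ) {p : ℝ} (h0 : 0 ≤ p) (h1 : p ≤ 1) (h2 : 1 / 16 ≤ W * p)
    (h3 : W * p ≤ 1 / 2) : 1 / 32 ≤ qq W p := by
  have a1 := one_add_mul_le_pow (a := -p) (by linarith) (W - 1)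
  have a2 : ((W - 1 : ℕ) : ℝ) * p ≤ W * p := by gcongr; omega
  have a3 : 1 / 2 ≤ (1 - p) ^ (W - 1) := by rw [sub_eq_add_neg]; linarith
  unfold qq
  nlinarith

lemma target (C : ℕ) (hC : ∀ k ≥ C, 8192 * Q k ≤ 2 ^ k) (L : ℝ)
    (hL : ∀ k, T (2 * k + C + 1) ≤ L * 2 ^ k) (W k : ℕ) (h1 : (2 : ℝ) ^ k ≤ 2 * W)
    (h2 : (W : ℝ) ≤ 2 * 2 ^ k) {x : ℕ × ℕ × ℕ} (hx : ok x) (p : ℝ) (p1 : 1 / 8 / 2 ^ x.1 ≤ p)
    (p2 : p ≤ 1 / 4 / 2 ^ x.1) :
    qq W p * h k (up C x) + (1 - qq W p) * h k (dn x) ≤ h k x - 3 / 4 + (97 + L) * qq W p := by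
  have p0 : 0 < p := lt_of_lt_of_le (by positivity) p1
  have p3 : p ≤ 1 / 4 := p2.trans (div_le_self (by norm_num) (one_le_pow₀ (by norm_num)))
  obtain ⟨q0, q1⟩ := qq_mem W p0.le (by linarith)
  have L0 : 0 ≤ L := by have := (T0 _).trans (hL 0); simpa using this
  have k0 : (0 : ℝ) < 2 ^ k := by positivity
  by_cases hk : x.1 = k
  · subst hk
    have a1 := hS' C x
    have a2 := hF' hx
    have a3 : g x.1 * T (2 * x.1 + C + 1) ≤ L := by
      calc _ ≤ 1 / 256 / 2 ^ x.1 * (L * 2 ^ x.1) :=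
            mul_le_mul (g_le _) (hL _) (T0 _) (by positivity)
        _ = L / 256 := by field_simp
        _ ≤ L := by linarith
    have a4 : 1 / 32 ≤ qq W p := qq_big W p0.le (by linarith)
      (by calc (1 : ℝ) / 16 = 2 ^ x.1 / 2 * (1 / 8 / 2 ^ x.1) := by field_simp; norm_num
            _ ≤ _ := by gcongr; linarith)
      (by calc _ ≤ 2 * 2 ^ x.1 * (1 / 4 / 2 ^ x.1) := by gcongr
            _ = (1 : ℝ) / 2 := by field_simp; norm_num)
    have a5 := h0 x.1 hx
    have a6 := mul_le_mul_of_nonneg_left (a1.trans (add_le_add le_rfl a3)) q0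
    have a7 := mul_le_mul_of_nonneg_left a2 (sub_nonneg.mpr q1)
    simp only [γ] at a7
    nlinarith
  · have a1 := mul_le_mul_of_nonneg_left (hS C k hx hk) q0
    have a2 := mul_le_mul_of_nonneg_left (hF k hx hk) (sub_nonneg.mpr q1)
    have a3 : qq W p * (if 2 * x.1 + C < k then Q k else 0) ≤ 1 / 4 := by
      split_ifs with c
      · have W0 : W ≠ 0 := by rintro rfl; simp at h1; linarith
        have b1 : (2 : ℝ) ^ k / 256 ≤ (W * p) ^ 2 := by
          have b2 : ((2 : ℝ) ^ x.1) ^ 2 ≤ 2 ^ k := by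
            rw [← pow_mul]; exact pow_le_pow_right₀ (by norm_num) (by omega)
          calc (2 : ℝ) ^ k / 256 = (2 ^ k) ^ 2 / 256 / 2 ^ k := by field_simp
            _ ≤ (2 ^ k) ^ 2 / 256 / (2 ^ x.1) ^ 2 := by gcongr
            _ = (2 ^ k / 2 * (1 / 8 / 2 ^ x.1)) ^ 2 := by field_simp; norm_num
            _ ≤ _ := by gcongr; linarith
        have b2 : qq W p ≤ 8 / (2 ^ k / 256) := (qq_small W W0 p0 p3).trans (by gcongr)
        have b3 := hC k (by omega)
        calc qq W p * Q k ≤ 8 / (2 ^ k / 256) * (2 ^ k / 8192) :=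
              mul_le_mul b2 (by linarith) (Q0 k) (by positivity)
          _ = (1 : ℝ) / 4 := by field_simp; norm_num
      · simp
    nlinarith [mul_nonneg L0 q0]

theorem main : ∃ lam : ℝ, 0 < lam ∧ ∃ f : ℝ → Bool → ℝ,
        (∀ p ∈ Set.Icc (0:ℝ) 1, ∀ b : Bool, f p b ∈ Set.Icc (0:ℝ) 1) ∧
        ∃ π : ℕ → ℝ → ℝ,
          (∀ w p, 0 ≤ π w p) ∧
          (∀ w p, π w p ≠ 0 → p ∈ Set.Icc (0:ℝ) 1) ∧
          Summable (fun x : ℕ × ℝ => π x.1 x.2) ∧
          (∑' x : ℕ × ℝ, π x.1 x.2) = 1 ∧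
          ∀ w' : ℕ, ∀ p' : ℝ,
            π w' p' = ∑' x : ℕ × ℝ, π x.1 x.2 *
              ((if x.1 ≤ w' + 1 ∧ f x.2 true = p' then
                  qq x.1 x.2 * pois lam (w' + 1 - x.1) else 0) +
               (if x.1 ≤ w' ∧ f x.2 false = p' then
                  (1 - qq x.1 x.2) * pois lam (w' - x.1) else 0)) := by
  have Qc : ∀ k : ℕ, Q k ≤ 1728 * (2 * k + 2) ^ 3 := fun k => by
    unfold Q; gcongr; linarith [Nat.cast_nonneg (α := ℝ) k]
  obtain ⟨C, hC⟩ := eventually_atTop.mp (cube (8192 * 1728) 2 1 (by norm_num) (by norm_num) one_pos)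
  have hC' : ∀ k ≥ C, 8192 * Q k ≤ 2 ^ k := fun k hk => by linarith [hC k hk, Qc k]
  have Tc : ∀ k : ℕ, T (2 * k + C + 2) ≤ 576 * (2 * k + (C + 3)) ^ 3 := fun k => by
    unfold T; push_cast
    have a1 : (0 : ℝ) ≤ 2 * k + C := by positivity
    nlinarith [mul_nonneg a1 a1, mul_nonneg (mul_nonneg a1 a1) a1]
  obtain ⟨L1, L10, hL1⟩ := cube' 1728 2 (by norm_num) (by norm_num)
  obtain ⟨L2, L20, hL2⟩ := cube' 576 (C + 3) (by norm_num) (by positivity)
  obtain ⟨j0, hj0⟩ := eventually_atTop.mp (cube 576 (C + 3) (1 / 8) (by norm_num) (by positivity)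
    (by norm_num))
  obtain ⟨L3, hL3⟩ : ∃ L3, L3 = 2 * T (2 * j0 + C + 2) := ⟨_, rfl⟩
  have L30 : 0 ≤ L3 := by rw [hL3]; linarith [T0 (2 * j0 + C + 2)]
  obtain ⟨A, hA⟩ : ∃ A, A = 97 + L2 + L1 + L3 := ⟨_, rfl⟩
  have A0 : 0 < A := by linarith
  obtain ⟨lam, hlam⟩ : ∃ lam : ℝ, lam = 1 / (8 * (A + L1)) := ⟨_, rfl⟩
  have l0 : 0 < lam := by rw [hlam]; positivity
  have l1 : lam * (A + L1) = 1 / 8 := by rw [hlam]; field_simp
  obtain ⟨ρ, hρ⟩ : ∃ ρ, ρ = Real.exp (-lam) := ⟨_, rfl⟩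
  have ρ0 : 0 < ρ := hρ ▸ Real.exp_pos _
  have ρ1 : 0 < 1 - ρ := by rw [hρ]; linarith [Real.exp_lt_one_iff.mpr (neg_lt_zero.mpr l0)]
  obtain ⟨Z, hZ⟩ : ∃ Z, Z = 6002 / (1 - ρ) := ⟨_, rfl⟩
  have Z0 : 0 < Z := by rw [hZ]; positivity
  have Z1 : Z * (1 - ρ) = 6002 := by rw [hZ]; field_simp
  obtain ⟨j1, hj1⟩ := eventually_atTop.mp (cube Z (C + 3) (1 / 8) Z0.le (by positivity)
    (by norm_num))
  obtain ⟨K0, K1, K2⟩ : ∃ K0 : ℕ, 2 * j1 + C ≤ K0 ∧ 6 / (1 - ρ) ≤ K0 :=
    ⟨2 * j1 + C + ⌈6 / (1 - ρ)⌉₊, by omega, (Nat.le_ceil _).trans (by gcongr; omega)⟩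
  set V0 : ℕ → ℝ := fun K => if K < K0 then 0 else Z * (K + 3) ^ 2 with hV0
  have V00 : ∀ K, 0 ≤ V0 K := fun K => by simp only [hV0]; split_ifs <;> positivity
  have V01 : ∀ K, V0 K ≤ Z * (K + 3) ^ 2 := fun K => by
    simp only [hV0]; split_ifs
    exacts [by positivity, le_rfl]
  set V : ℕ → ℕ × ℕ × ℕ → ℝ := fun w x => if w = 0 then V0 x.2.2 else A * w + H w x with hV
  have lip : ∀ w, w ≠ 0 → ∀ x, ok x → ∀ n : ℕ, V (w + n) x ≤ A * w + H w x + n * (A + L1) := by
    intro w hw x hx n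
    induction n with
    | zero => simp [hV, hw]
    | succ n ih =>
      have a1 := H_step (w + n) (by omega) x
      have a2 : (h (Nat.log 2 (w + n) + 1) x - h (Nat.log 2 (w + n)) x) / 2 ^ Nat.log 2 (w + n)
          ≤ L1 := by
        rw [div_le_iff₀ (by positivity)]
        exact (hU _ hx).trans ((Qc _).trans (hL1 _))
      simp only [hV, show w + n ≠ 0 by omega, show w + (n + 1) ≠ 0 by omega, if_false] at ih ⊢
      rw [← add_assoc]
      push_cast at ih ⊢
      linarith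
  have lip0 : ∀ x, ok x → ∀ n : ℕ,
      V n x ≤ H 1 x + n * (A + L1) + if n = 0 then V0 x.2.2 else 0 := by
    intro x hx n
    cases n with
    | zero => simpa [hV] using H0 1 one_ne_zero hx
    | succ n =>
      have := lip 1 one_ne_zero x hx n
      rw [add_comm 1 n] at this
      simp only [Nat.succ_ne_zero, if_false]
      push_cast at this ⊢
      linarith
  set p : {x // ok x} → ℝ := fun s => (1 + 1 / ((Encodable.encode s.1 : ℝ) + 1)) / 8 / 2 ^ s.1.1
    with hp
  have pe : ∀ n : ℕ, 0 < 1 / ((n : ℝ) + 1) ∧ 1 / ((n : ℝ) + 1) ≤ 1 := fun n =>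
    ⟨by positivity, by rw [div_le_one (by positivity)]; linarith [Nat.cast_nonneg (α := ℝ) n]⟩
  have p1 : ∀ s, 1 / 8 / 2 ^ s.1.1 < p s := fun s => by
    simp only [hp]; gcongr; linarith [(pe (Encodable.encode s.1)).1]
  have p2 : ∀ s, p s ≤ 1 / 4 / 2 ^ s.1.1 := fun s => by
    simp only [hp]; gcongr ?_ / _; linarith [(pe (Encodable.encode s.1)).2]
  have p3 : ∀ s, 0 ≤ p s ∧ p s ≤ 1 := fun s => ⟨le_trans (by positivity) (p1 s).le,
    (p2 s).trans ((div_le_self (by norm_num) (one_le_pow₀ (by norm_num))).trans (by norm_num))⟩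
  have pinj : Function.Injective p := by
    have a1 : ∀ s t, s.1.1 < t.1.1 → p t < p s := fun s t h => by
      refine (p2 t).trans_lt (lt_of_le_of_lt ?_ (p1 s))
      have : (2 : ℝ) ^ (s.1.1 + 1) ≤ 2 ^ t.1.1 := pow_le_pow_right₀ (by norm_num) h
      calc _ ≤ 1 / 4 / (2 : ℝ) ^ (s.1.1 + 1) := by gcongr
        _ = _ := by field_simp; ring
    intro s t e
    have a2 : s.1.1 = t.1.1 := by
      rcases lt_trichotomy s.1.1 t.1.1 with h | h | h
      exacts [absurd e (a1 _ _ h).ne', h, absurd e (a1 _ _ h).ne]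
    simp only [hp, a2] at e
    field_simp at e
    have : (Encodable.encode s.1 : ℝ) = Encodable.encode t.1 := by linarith
    exact Subtype.ext (Encodable.encode_injective (by exact_mod_cast this))
  refine ⟨lam, l0, glue (S := {x // ok x}) ⟨(0, 0, 0), by simp [ok]⟩
    (fun s b => if b then ⟨up C s.1, ok_up C s.2⟩ else ⟨dn s.1, ok_dn s.2⟩) p pinj p3 lam l0
    (fun w s => 2 * V w s.1) (fun w s => ?_)
    (fun w s => 2 * if w ≤ 1 then V0 (up C s.1).2.2 + H 1 (up C s.1)
      else A * (w - 1 : ℕ) + H (w - 1) (up C s.1))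
    (fun w s => 2 * if w = 0 then H 1 (dn s.1) else A * w + H w (dn s.1))
    (fun w s => 2 * if w = 0 then V0 (dn s.1).2.2 else 0) (2 * (A + L1))
    (fun w s n => ?_) (fun w s n => ?_) ?_⟩
  · simp only [hV]
    split_ifs with hw
    · linarith [V00 s.1.2.2]
    · have := H0 w hw s.2
      positivity
  · simp only [if_true]
    split_ifs with hw
    · have := lip0 _ (ok_up C s.2) n
      rw [show w - 1 + n = n by omega]
      split_ifs at this <;> linarith [V00 (up C s.1).2.2]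
    · linarith [lip (w - 1) (by omega) _ (ok_up C s.2) n]
  · simp only [Bool.false_eq_true, if_false]
    by_cases hw : w = 0
    · subst hw
      have := lip0 _ (ok_dn s.2) n
      simp only [zero_add, if_true]
      split_ifs at this ⊢ <;> linarith
    · simp only [hw, if_false, mul_zero, ite_self]
      linarith [lip w hw _ (ok_dn s.2) n]
  · refine Set.Finite.subset (Set.Finite.preimage (f := fun x : ℕ × {x // ok x} => (x.1, x.2.1))
      (fun a _ b _ e => by
        simp only [Prod.mk.injEq] at e; exact Prod.ext e.1 (Subtype.ext e.2))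
      (Set.finite_Iic (0, K0, cap K0, K0))) ?_
    rintro ⟨w, x, hx⟩ hn
    by_contra hc
    refine hn ?_
    simp only [← hρ]
    by_cases hw : w = 0
    · subst hw
      have k1 : ¬ x.2.2 < K0 := fun h => hc ⟨le_rfl, by have := hx.1; simp only; omega,
        by have := hx.1; have := hx.2; simp only [cap] at *; omega, h.le⟩
      have k2 : (K0 : ℝ) ≤ x.2.2 := by exact_mod_cast not_lt.mp k1
      have k3 : (dn x).2.2 ≤ x.2.2 + 1 := by unfold dn; split_ifs <;> simp
      have k4 : ((dn x).2.2 : ℝ) ≤ x.2.2 + 1 := by exact_mod_cast k3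
      have k5 : H 1 (dn x) ≤ 3000 * ((x.2.2 : ℝ) + 3) ^ 2 := by
        have a1 := hB 0 (ok_dn hx)
        have a2 := Tm (Nat.add_le_add_right k3 2)
        simp only [T, Q] at a1 a2
        push_cast at a1 a2
        simp only [H, Nat.log_one_right]
        nlinarith [Nat.cast_nonneg (α := ℝ) x.2.2]
      have k6 : V0 (dn x).2.2 ≤ Z * ((x.2.2 : ℝ) + 4) ^ 2 :=
        (V01 _).trans (mul_le_mul_of_nonneg_left (pow_le_pow_left₀ (by positivity)
          (by linarith) 2) Z0.le)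
      have k7 : V 0 x = Z * ((x.2.2 : ℝ) + 3) ^ 2 := by simp only [hV, hV0, if_true, k1, if_false]
      simp only [qq, if_true, k7]
      rw [div_le_iff₀ ρ1] at K2
      obtain ⟨y, hy⟩ : ∃ y : ℝ, y = x.2.2 + 3 := ⟨_, rfl⟩
      have y0 : 3 ≤ y := by linarith [Nat.cast_nonneg (α := ℝ) x.2.2]
      have y1 : 6 ≤ y * (1 - ρ) := K2.trans (by gcongr; linarith)
      have y2 : ρ * (y + 1) ^ 2 ≤ (1 + ρ) / 2 * y ^ 2 := by nlinarith
      have y3 := mul_le_mul_of_nonneg_left y2 Z0.le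
      have y4 := mul_le_mul_of_nonneg_left k6 ρ0.le
      rw [show (x.2.2 : ℝ) + 4 = y + 1 by linarith] at y4
      rw [← hy] at k5 ⊢
      have y5 : Z * ((1 + ρ) / 2 * y ^ 2) = Z * y ^ 2 - 3001 * y ^ 2 := by
        linear_combination (-(y ^ 2) / 2) * Z1
      have y6 : 9 ≤ y ^ 2 := by nlinarith
      push_cast
      linarith
    · obtain ⟨q0, q1⟩ := qq_mem w (p3 ⟨x, hx⟩).1 (p3 ⟨x, hx⟩).2
      have q2 := (qq_le w (p3 ⟨x, hx⟩).1 (p3 ⟨x, hx⟩).2).trans
        (mul_le_mul_of_nonneg_left (p2 ⟨x, hx⟩) (Nat.cast_nonneg w))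
      have w1 : (2 : ℝ) ^ Nat.log 2 w ≤ w := by exact_mod_cast Nat.pow_log_le_self 2 hw
      have w2 : (w : ℝ) ≤ 2 * 2 ^ Nat.log 2 w := by
        rw [← pow_succ']
        exact_mod_cast (Nat.lt_pow_succ_log_self (b := 2) (by norm_num) w).le
      have w0 : (0 : ℝ) < 2 ^ Nat.log 2 w := by positivity
      have hL : ∀ k, T (2 * k + C + 1) ≤ L2 * 2 ^ k := fun k =>
        (Tm (by omega)).trans ((Tc k).trans (hL2 k))
      have t1 := target C hC' L2 hL w (Nat.log 2 w) (by linarith) w2 hx _ (p1 ⟨x, hx⟩).le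
        (p2 ⟨x, hx⟩)
      have t2 := target C hC' L2 hL w (Nat.log 2 w + 1) (by rw [pow_succ]; linarith)
        (by rw [pow_succ]; linarith) hx _ (p1 ⟨x, hx⟩).le (p2 ⟨x, hx⟩)
      obtain ⟨θ0, θ1⟩ := theta w hw
      generalize qq w (p ⟨x, hx⟩) = q at *
      have t3 : q * H w (up C x) + (1 - q) * H w (dn x) ≤ H w x - 3 / 4 + (97 + L2) * q := by
        have b1 := mul_le_mul_of_nonneg_left t1 (sub_nonneg.mpr θ1)
        have b2 := mul_le_mul_of_nonneg_left t2 θ0
        unfold H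
        linarith
      have u1 : (up C x).2.2 ≤ 2 * x.1 + C := min_le_right _ _
      have j2 : (0 : ℝ) < 2 ^ x.1 := by positivity
      have t4 : q * (if w ≤ 1 then V0 (up C x).2.2 + H 1 (up C x)
          else A * (w - 1 : ℕ) + H (w - 1) (up C x)) ≤
          q * (A * w - A + H w (up C x)) + (L1 + L3) * q + 1 / 8 := by
        split_ifs with c
        · obtain rfl : w = 1 := by omega
          have b1 : q * V0 (up C x).2.2 ≤ 1 / 8 := by
            simp only [hV0]
            split_ifs with c2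
            · norm_num
            · have b2 := hj1 x.1 (by omega)
              have b3 : ((up C x).2.2 : ℝ) ≤ 2 * x.1 + C := by exact_mod_cast u1
              have b4 : (1 : ℝ) ≤ 2 * x.1 + (C + 3) := by
                linarith [Nat.cast_nonneg (α := ℝ) x.1, Nat.cast_nonneg (α := ℝ) C]
              have b5 : Z * (((up C x).2.2 : ℝ) + 3) ^ 2 ≤ Z * (2 * x.1 + (C + 3)) ^ 3 := by
                refine mul_le_mul_of_nonneg_left ?_ Z0.le
                exact (pow_le_pow_left₀ (by positivity) (by linarith) 2).trans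
                  (pow_le_pow_right₀ b4 (by norm_num))
              calc q * (Z * (((up C x).2.2 : ℝ) + 3) ^ 2)
                  ≤ ((1 : ℕ) : ℝ) * (1 / 4 / 2 ^ x.1) * (1 / 8 * 2 ^ x.1) :=
                    mul_le_mul q2 (b5.trans b2) (by positivity) (by positivity)
                _ ≤ (1 : ℝ) / 8 := by field_simp; norm_num
          have := mul_nonneg (add_nonneg L10 L30) q0
          push_cast
          linarith
        · obtain ⟨w, rfl⟩ : ∃ v, w = v + 1 := ⟨w - 1, by omega⟩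
          simp only [Nat.add_sub_cancel]
          have b1 := H_step w (by omega) (up C x)
          have b2 := h0 (Nat.log 2 w + 1) (ok_up C hx)
          have b3 := hB (Nat.log 2 w) (ok_up C hx)
          have b4 := (Qc _).trans (hL1 (Nat.log 2 w))
          have b5 := Tm (Nat.add_le_add_right u1 2)
          have b6 : (0 : ℝ) < 2 ^ Nat.log 2 w := by positivity
          have b7 : H w (up C x) ≤ H (w + 1) (up C x) + L1 +
              2 * T (2 * x.1 + C + 2) / 2 ^ Nat.log 2 w := by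
            have : -(L1 + 2 * T (2 * x.1 + C + 2) / 2 ^ Nat.log 2 w) ≤
                H (w + 1) (up C x) - H w (up C x) := by
              rw [b1, le_div_iff₀ b6, neg_mul, add_mul, div_mul_cancel₀ _ b6.ne']
              linarith
            linarith
          have b8 : q * (2 * T (2 * x.1 + C + 2) / 2 ^ Nat.log 2 w) ≤ L3 * q + 1 / 8 := by
            have T1 := T0 (2 * x.1 + C + 2)
            rcases le_total x.1 j0 with c2 | c2
            · have d1 := Tm (show 2 * x.1 + C + 2 ≤ 2 * j0 + C + 2 by omega)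
              have d2 : 2 * T (2 * x.1 + C + 2) / 2 ^ Nat.log 2 w ≤ L3 :=
                (div_le_self (by linarith) (one_le_pow₀ (by norm_num))).trans (by linarith)
              have := mul_le_mul_of_nonneg_left d2 q0
              linarith
            · have d1 := (Tc _).trans (hj0 _ c2)
              have d2 : ((w + 1 : ℕ) : ℝ) ≤ 2 * 2 ^ Nat.log 2 w := by
                rw [← pow_succ']
                exact_mod_cast Nat.lt_pow_succ_log_self (b := 2) (by norm_num) w
              have d3 : q * (2 * T (2 * x.1 + C + 2) / 2 ^ Nat.log 2 w) ≤ 1 / 8 := by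
                calc q * (2 * T (2 * x.1 + C + 2) / 2 ^ Nat.log 2 w)
                    ≤ (2 * 2 ^ Nat.log 2 w * (1 / 4 / 2 ^ x.1)) *
                      (2 * (1 / 8 * 2 ^ x.1) / 2 ^ Nat.log 2 w) :=
                      mul_le_mul (q2.trans (mul_le_mul_of_nonneg_right d2 (by positivity)))
                        (div_le_div_of_nonneg_right (by linarith) b6.le) (by positivity)
                        (by positivity)
                  _ = (1 : ℝ) / 8 := by field_simp; norm_num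
              linarith [mul_nonneg L30 q0]
          have b9 := mul_le_mul_of_nonneg_left b7 q0
          push_cast
          linarith
      simp only [hV, hw, if_false]
      have t5 : A * q = (97 + L2) * q + (L1 + L3) * q := by rw [hA]; ring
      linarith


/-- For some λ>0 and some update rule p↦f(p, success) on [0,1], the backlog/probability chain (Poisson(λ) arrivals, slot succeeds iff exactly one backlogged packet transmits) has a discrete stationary probability distribution. -/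
theorem result :
    ∃ lam : ℝ, 0 < lam ∧
      ∃ f : ℝ → Bool → ℝ,
        (∀ p ∈ Set.Icc (0:ℝ) 1, ∀ b : Bool, f p b ∈ Set.Icc (0:ℝ) 1) ∧
        ∃ π : ℕ → ℝ → ℝ,
          (∀ w p, 0 ≤ π w p) ∧
          (∀ w p, π w p ≠ 0 → p ∈ Set.Icc (0:ℝ) 1) ∧
          Summable (fun x : ℕ × ℝ => π x.1 x.2) ∧
          (∑' x : ℕ × ℝ, π x.1 x.2) = 1 ∧
          ∀ w' : ℕ, ∀ p' : ℝ,
            π w' p' = ∑' x : ℕ × ℝ, π x.1 x.2 *
              ((if x.1 ≤ w' + 1 ∧ f x.2 true = p' then
                  ((x.1 : ℝ) * x.2 * (1 - x.2) ^ (x.1 - 1)) *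
                    (Real.exp (-lam) * lam ^ (w' + 1 - x.1) / ((w' + 1 - x.1).factorial : ℝ))
                else 0) +
               (if x.1 ≤ w' ∧ f x.2 false = p' then
                  (1 - (x.1 : ℝ) * x.2 * (1 - x.2) ^ (x.1 - 1)) *
                    (Real.exp (-lam) * lam ^ (w' - x.1) / ((w' - x.1).factorial : ℝ))
                else 0)) := by
  exact main

end Pool.Agent.S19597
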