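import Pool.Statements.S19615
import Pool.Agent.H43.MixB

set_option autoImplicit false
open MeasureTheory
open Pool Pool.MP_bf37ff_pr
open ProbabilityTheory Set Pool.Agent.H43.Mix
open scoped ENNReal unitInterval

namespace Pool.Agent.S19615

lemma Λ0_univ (m : ℕ) : Λ0 m univ = (2 + 2 * m : ℕ) := by
  simp [Λ0, Measure.map_apply lift_meas, two_mul, mul_add]

lemma G_le (Λ : Measure ℝ) [SFinite Λ] (φ : ℝ × I → ℝ) (hφ : Measurable φ) (ν : Measure ℝ)
    (h : ∀ τ, volume.map (fun w => φ (τ, w)) ≤ ν) :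
    (Λ.prod volume).map φ ≤ Λ univ • ν := by
  refine Measure.le_iff.2 fun B hB => ?_
  rw [Measure.map_apply hφ hB, Measure.prod_apply (hφ hB), Measure.smul_apply, smul_eq_mul,
    mul_comm, ← lintegral_const]
  refine lintegral_mono fun τ => ?_
  have := Measure.le_iff.1 (h τ) B hB
  have hm : Measurable fun w => φ (τ, w) := hφ.comp measurable_prodMk_left
  rwa [Measure.map_apply hm hB] at this

lemma sum_law {Ω : Type} [MeasurableSpace Ω] (Q : Measure Ω) [IsProbabilityMeasure Q]
    {J : Type} [Fintype J] (T : J → Ω → ℝ) (hT : ∀ i, Measurable (T i)) (φ : ℝ × I → ℝ)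
    (hφ : Measurable φ) :
    ∑ i, (Q.prod (volume : Measure I)).map (fun p => φ (T i p.1, p.2))
      = ((∑ i, Q.map (T i)).prod volume).map φ := by
  have : (∑ i, Q.map (T i)).prod (volume : Measure I) = ∑ i, (Q.map (T i)).prod volume := by
    rw [← Measure.sum_fintype, Measure.prod_sum_left, Measure.sum_fintype]
  rw [this, Measure.map_finset_sum hφ.aemeasurable]
  refine Finset.sum_congr rfl fun i _ => ?_
  conv_rhs => rw [← Measure.map_id (μ := (volume : Measure I))]
  rw [Measure.map_prod_map _ _ (hT i) measurable_id,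
    Measure.map_map hφ ((hT i).prodMap measurable_id)]
  rfl

theorem result :
    ∀ μ : Measure ℝ, IsProbabilityMeasure μ →
      μ ≪ volume →
      (∃ a b : ℝ, μ (Set.Icc a b)ᶜ = 0) →
      ∃ N : ℕ, ∀ n : ℕ, N ≤ n →
        ∃ ν : Measure (Fin n → ℝ), IsProbabilityMeasure ν ∧
          (∀ i : Fin n, ν.map (fun x => x i) = μ) ∧
          ∃ c : ℝ, ∀ᵐ x ∂ν, ∑ i, x i = c := by
  rintro μ hμ hac ⟨a, b, hab⟩
  have hab' : a ≤ b := by
    by_contra h
    rw [Icc_eq_empty h] at hab
    simp at hab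
  obtain ⟨r, s0, D, φ1, φ2, hr, hD, m1, m2, hs, l1, l2⟩ := pair μ hac
  obtain ⟨m, hm⟩ := exists_nat_ge ((b - a) / r + 2)
  set k : ℕ := 2 + 2 * m with hk
  obtain ⟨N1, hN1⟩ := ENNReal.exists_nat_gt (r := k * D + k * D)
    (by simp [ENNReal.mul_eq_top, hD])
  refine ⟨max N1 (k + k), fun n hn => ?_⟩
  have hn1 : N1 ≤ n := (le_max_left _ _).trans hn
  obtain ⟨l, rfl⟩ := Nat.exists_eq_add_of_le' ((le_max_right _ _).trans hn)
  have hfin : IsFiniteMeasure (Λ0 m) := ⟨by rw [Λ0_univ]; exact ENNReal.natCast_lt_top _⟩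
  set G1 := ((Λ0 m).prod volume).map φ1 with hG1
  set G2 := ((Λ0 m).prod volume).map φ2 with hG2
  have hG : G1 + G2 ≤ ((l + (k + k) : ℕ) : ℝ≥0∞) • μ := by
    have a1 := G_le (Λ0 m) φ1 m1 _ l1
    have a2 := G_le (Λ0 m) φ2 m2 _ l2
    rw [Λ0_univ, smul_smul] at a1 a2
    refine (add_le_add a1 a2).trans ?_
    rw [← add_smul]
    refine Measure.le_iff.2 fun B _ => ?_
    simp only [Measure.smul_apply, smul_eq_mul]
    gcongr
    exact hN1.le.trans (by exact_mod_cast hn1)
  set H := ((l + (k + k) : ℕ) : ℝ≥0∞) • μ - (G1 + G2) with hH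
  have hHG : H + (G1 + G2) = ((l + (k + k) : ℕ) : ℝ≥0∞) • μ := Measure.sub_add_cancel_of_le hG
  have hHle : H ≤ ((l + (k + k) : ℕ) : ℝ≥0∞) • μ := Measure.sub_le
  have hHac : H ≪ μ := (Measure.absolutelyContinuous_of_le hHle).trans
    Measure.smul_absolutelyContinuous
  have : NullSingletonClass H := ⟨fun x => hHac (hac (by simp))⟩
  have hHu : H univ = l := by
    have := congrArg (fun ν : Measure ℝ => ν univ) hHG
    simp only [Measure.add_apply, hG1, hG2, Measure.map_apply m1 MeasurableSet.univ,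
      Measure.map_apply m2 MeasurableSet.univ, preimage_univ, Measure.smul_apply, measure_univ,
      smul_eq_mul, mul_one] at this
    rw [← univ_prod_univ, Measure.prod_prod, Λ0_univ, measure_univ (μ := (volume : Measure I)),
      mul_one, ← hk] at this
    push_cast at this
    exact (ENNReal.add_left_inj (by simp)).1 this
  obtain ⟨Hs, lo, hi, p1, p2, p3, p4⟩ := part l a b H hab' hHu (hHac hab)
  let P : Measure (Fin l → ℝ) := Measure.pi Hs
  have hev : ∀ j, MeasurePreserving (fun x : Fin l → ℝ => x j) P (Hs j) :=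
    fun j => measurePreserving_eval Hs j
  have hZ : Measurable fun x : Fin l → ℝ => (∑ j, x j) / r := by fun_prop
  obtain ⟨T, hT, hT01, hTs, c, hc⟩ := jm P _ hZ ((∑ j, lo j) / r) m (by
    have : ∀ᵐ x ∂P, ∀ j, x j ∈ Icc (lo j) (hi j) :=
      ae_all_iff.2 fun j => (hev j).quasiMeasurePreserving.ae (p3 j)
    filter_upwards [this] with x hx
    have b1 : ∑ j, lo j ≤ ∑ j, x j := Finset.sum_le_sum fun j _ => (hx j).1
    have b2 : ∑ j, x j ≤ ∑ j, hi j := Finset.sum_le_sum fun j _ => (hx j).2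
    rw [Finset.sum_sub_distrib] at p4
    refine ⟨by gcongr, ?_⟩
    calc (∑ j, x j) / r ≤ (∑ j, lo j + (b - a)) / r := by gcongr; linarith
      _ ≤ _ := by rw [add_div]; linarith)
  let Q : Measure ((Fin l → ℝ) × UnitAddCircle) := P.prod volume
  refine sym (Q.prod (volume : Measure I))
    (ι := Fin l ⊕ ((Fin 2 ⊕ Fin (2 * m)) ⊕ (Fin 2 ⊕ Fin (2 * m)))) _ (by simp [hk]) (by omega)
    (Sum.elim (fun j p => p.1.1 j)
      (Sum.elim (fun i p => φ1 (T i p.1, p.2)) (fun i p => φ2 (T i p.1, p.2)))) ?_ μ ?_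
    (r * c + k * s0) ?_
  · rintro (j | i | i)
    · exact (measurable_pi_apply j).comp (measurable_fst.comp measurable_fst)
    · exact m1.comp (((hT i).comp measurable_fst).prodMk measurable_snd)
    · exact m2.comp (((hT i).comp measurable_fst).prodMk measurable_snd)
  · rw [Fintype.sum_sum_type, Fintype.sum_sum_type (α₁ := Fin 2 ⊕ Fin (2 * m))]
    simp only [Sum.elim_inl, Sum.elim_inr]
    rw [sum_law Q T hT φ1 m1, sum_law Q T hT φ2 m2, hTs, ← hHG, ← p2]
    congr 1
    exact Finset.sum_congr rfl fun j _ =>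
      ((hev j).comp (measurePreserving_fst.comp measurePreserving_fst)).map_eq
  · filter_upwards [(measurePreserving_fst (μ := Q)
      (ν := (volume : Measure I))).quasiMeasurePreserving.ae hc] with p hp
    rw [Fintype.sum_sum_type, Fintype.sum_sum_type (α₁ := Fin 2 ⊕ Fin (2 * m))]
    simp only [Sum.elim_inl, Sum.elim_inr]
    rw [← Finset.sum_add_distrib, Finset.sum_congr rfl fun i _ => hs _ (hT01 i p.1) p.2,
      Finset.sum_add_distrib, ← Finset.mul_sum, ← hp]
    simp only [Finset.sum_const, Finset.card_univ, Fintype.card_sum, Fintype.card_fin,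
      nsmul_eq_mul, hk]
    field_simp
    ring

end Pool.Agent.S19615
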