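import Pool.Statements.S19632
import Pool.Agent.H43.TreeMix

set_option autoImplicit false
open MeasureTheory Filter Topology
open Pool Pool.MP_c7dc48_pr
open ProbabilityTheory Set Pool.Agent.H43.TreeMix
open scoped ENNReal unitInterval

namespace Pool.Agent.S19632

noncomputable def P : Measure (ℕ → X) := (μ0.prod lam).map Φ

instance : IsProbabilityMeasure P := Measure.isProbabilityMeasure_map Φ_meas.aemeasurable

def R (x y : X) : Prop := ∃ u, y = sub u x ∨ x = sub u y

def F : Set (X → ℝ) :=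
  {f | ∃ A : Finset X, (∀ x ∈ A, ∀ y ∈ A, R x y) ∧ f = (A : Set X).indicator 1}

lemma μ0_eval (u : List Bool) (c : I) : μ0 {x | x u = c} = 0 := by
  have := (measurePreserving_eval_infinitePi (fun _ : List Bool => (volume : Measure I))
    u).measure_preimage (s := {c}) (measurableSet_singleton c).nullMeasurableSet
  rw [measure_singleton] at this
  exact this

instance : NullSingletonClass μ0 :=
  ⟨fun y => measure_mono_null (fun x hx => by rw [mem_singleton_iff.1 hx]; rfl) (μ0_eval [] (y []))⟩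

lemma int_zero (A : Finset X) : ∫ y, (A : Set X).indicator (1 : X → ℝ) y ∂μ0 = 0 := by
  rw [integral_indicator_one A.measurableSet, Measure.real, A.measure_zero]
  rfl

lemma pair_null (m : ℕ) (i j : Fin m) (hij : i ≠ j) (u : List Bool) :
    Measure.pi (fun _ : Fin m => μ0) {x | x j [] = x i u} = 0 := by
  have hS : MeasurableSet {p : X × X | p.2 [] = p.1 u} :=
    measurableSet_eq_fun (by fun_prop) (by fun_prop)
  have h1 := Measure.infinitePi_map_eval_prod (P := fun _ : Fin m => μ0) hij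
  rw [Measure.infinitePi_eq_pi] at h1
  have h2 := congrArg (fun ν : Measure (X × X) => ν {p : X × X | p.2 [] = p.1 u}) h1
  rw [Measure.map_apply (by fun_prop) hS, Measure.prod_apply hS] at h2
  refine h2.trans ?_
  simp [μ0_eval]

lemma path_R (p : X × (ℕ → Bool)) (s t : ℕ) : R (Φ p s) (Φ p t) := by
  have key : ∀ s d, Φ p (s + d) = sub (path (tail s p.2) d) (Φ p s) := by
    intro s d
    ext w
    simp [Φ, sub, path_add]
  rcases le_total s t with h | h
  · obtain ⟨d, rfl⟩ := Nat.exists_eq_add_of_le h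
    exact ⟨_, Or.inl (key s d)⟩
  · obtain ⟨d, rfl⟩ := Nat.exists_eq_add_of_le h
    exact ⟨_, Or.inr (key t d)⟩

lemma comap_ev {Ω Y : Type} [mY : MeasurableSpace Y] (g : Ω → ℕ → Y) (i : ℕ) :
    MeasurableSpace.comap (fun ω => g ω i) mY ≤ MeasurableSpace.comap g MeasurableSpace.pi := by
  rw [MeasurableSpace.pi, MeasurableSpace.comap_iSup]
  refine le_iSup_of_le i ?_
  rw [MeasurableSpace.comap_comp]
  exact le_rfl

theorem result :
    ¬ (∀ (X : Type) [mX : MeasurableSpace X] (P : Measure (ℕ → X)) [IsProbabilityMeasure P]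
    (P0 : Measure X) [IsProbabilityMeasure P0] (𝓕 : Set (X → ℝ)) (B : ℝ),
    P.map (fun (ω : ℕ → X) (n : ℕ) => ω (n + 1)) = P →
    P0 = P.map (fun (ω : ℕ → X) => ω 0) →
    (∀ ε : ℝ, 0 < ε → ∃ K : ℕ, ∀ k : ℕ, K ≤ k → ∀ l : ℕ, ∀ A S : Set (ℕ → X),
       @MeasurableSet (ℕ → X)
         (⨆ (i : ℕ) (_ : i ≤ l), MeasurableSpace.comap (fun ω : ℕ → X => ω i) mX) A →
       @MeasurableSet (ℕ → X)
         (⨆ (i : ℕ) (_ : l + k ≤ i), MeasurableSpace.comap (fun ω : ℕ → X => ω i) mX) S →
       |P.real (A ∩ S) - P.real A * P.real S| ≤ ε) →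
    𝓕.Infinite →
    (∀ f ∈ 𝓕, Measurable f ∧ ∀ x, 0 ≤ f x ∧ f x ≤ B) →
    (∀ ε : ℝ, 0 < ε →
      Tendsto (fun m : ℕ => Measure.pi (fun _ : Fin m => P0)
        {x : Fin m → X | ∃ f ∈ 𝓕,
          ε < |(1 / (m : ℝ)) * ∑ i : Fin m, f (x i) - ∫ y, f y ∂P0|}) atTop (𝓝 0)) →
    (∀ ε : ℝ, 0 < ε →
      Tendsto (fun m : ℕ => P
        {ω : ℕ → X | ∃ f ∈ 𝓕,
          ε < |(1 / (m : ℝ)) * ∑ i ∈ Finset.range m, f (ω i) - ∫ y, f y ∂P0|}) atTop (𝓝 0))) := by
  intro h
  have key := h X P μ0 F 1 ?_ ?_ ?_ ?_ ?_ ?_ (1 / 2) (by norm_num)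
  · obtain ⟨m, hm, hm1⟩ := ((key.eventually (gt_mem_nhds zero_lt_one)).and
      (eventually_ge_atTop 1)).exists
    refine hm.not_ge (le_trans ?_ (Measure.le_map_apply Φ_meas.aemeasurable _))
    rw [← measure_univ (μ := μ0.prod lam)]
    refine measure_mono fun p _ => ?_
    classical
    refine ⟨_, ⟨(Finset.range m).image (Φ p), ?_, rfl⟩, ?_⟩
    · intro x hx y hy
      obtain ⟨s, -, rfl⟩ := Finset.mem_image.1 hx
      obtain ⟨t, -, rfl⟩ := Finset.mem_image.1 hy
      exact path_R p s t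
    · rw [int_zero, Finset.sum_congr rfl (g := fun _ => (1 : ℝ)) fun i hi =>
        indicator_of_mem (Finset.mem_coe.2 (Finset.mem_image_of_mem _ hi)) _]
      have : (m : ℝ) ≠ 0 := by positivity
      simp [this]
      norm_num
  · rw [P, Measure.map_map (by fun_prop) Φ_meas]
    conv_rhs => rw [← (T_mp 1).map_eq, Measure.map_map Φ_meas (T_meas 1)]
    congr 1
    ext1 p
    simp only [Function.comp, Φ_T, add_comm]
  · rw [P, Measure.map_map (by fun_prop) Φ_meas]
    exact (measurePreserving_fst (μ := μ0) (ν := lam)).map_eq.symm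
  · intro ε hε
    obtain ⟨K, hK⟩ := exists_nat_gt (4 / ε ^ 2)
    refine ⟨K, fun k hk l A S hA hS => ?_⟩
    have hK0 : (0 : ℝ) < K := lt_trans (by positivity) hK
    have hkK : (K : ℝ) ≤ k := by exact_mod_cast hk
    have hk0 : 0 < k := by exact_mod_cast hK0.trans_le hkK
    have htr : Measurable fun (ω : ℕ → X) (i : ℕ) => ω (min i l) := by fun_prop
    have hsh : Measurable fun (ω : ℕ → X) (i : ℕ) => ω (l + k + i) := by fun_prop
    obtain ⟨A0, hA0, rfl⟩ : MeasurableSet[MeasurableSpace.comap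
        (fun (ω : ℕ → X) (i : ℕ) => ω (min i l)) MeasurableSpace.pi] A := by
      refine MeasurableSpace.le_def.1 ?_ A hA
      refine iSup₂_le fun i hi => ?_
      have := comap_ev (fun (ω : ℕ → X) (i : ℕ) => ω (min i l)) i
      simpa only [min_eq_left hi] using this
    obtain ⟨S0, hS0, rfl⟩ : MeasurableSet[MeasurableSpace.comap
        (fun (ω : ℕ → X) (i : ℕ) => ω (l + k + i)) MeasurableSpace.pi] S := by
      refine MeasurableSpace.le_def.1 ?_ S hS
      refine iSup₂_le fun i hi => ?_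
      have := comap_ev (fun (ω : ℕ → X) (i : ℕ) => ω (l + k + i)) (i - (l + k))
      simpa only [Nat.add_sub_cancel' hi] using this
    have hm := mix l k hk0 (Φ ⁻¹' ((fun (ω : ℕ → X) (i : ℕ) => ω (min i l)) ⁻¹' A0)) (Φ ⁻¹' S0)
      (Φ_meas (htr hA0)) (Φ_meas hS0) (fun a a' haa => by
        ext η
        have : (fun i => Φ (η, a) (min i l)) = fun i => Φ (η, a') (min i l) := by
          ext1 i
          simp only [Φ]
          rw [path_congr fun j hj => haa j (hj.trans_le (min_le_right _ _))]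
        simp only [sec, mem_preimage, this]) (ε / 2) (by positivity)
    have e1 : T (l + k) ⁻¹' (Φ ⁻¹' S0)
        = Φ ⁻¹' ((fun (ω : ℕ → X) (i : ℕ) => ω (l + k + i)) ⁻¹' S0) := by
      ext p
      simp only [mem_preimage, Φ_T]
    rw [← (T_mp (l + k)).measureReal_preimage (Φ_meas hS0).nullMeasurableSet, e1,
      ← preimage_inter] at hm
    rw [P, map_measureReal_apply Φ_meas ((htr hA0).inter (hsh hS0)),
      map_measureReal_apply Φ_meas (htr hA0), map_measureReal_apply Φ_meas (hsh hS0)]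
    refine hm.trans ?_
    have : 1 / (k * (ε / 2)) ≤ ε / 2 := by
      rw [div_lt_iff₀ (by positivity)] at hK
      rw [div_le_iff₀ (by positivity)]
      nlinarith [sq_nonneg ε]
    linarith
  · have : Infinite I := (Set.Icc_infinite (zero_lt_one' ℝ)).to_subtype
    refine infinite_of_injective_forall_mem
      (f := fun c : I => ({fun _ => c} : Set X).indicator (1 : X → ℝ)) ?_ ?_
    · intro c d hcd
      have := congrFun hcd fun _ => c
      by_contra hne
      have h2 : (fun _ => c : X) ≠ fun _ => d := fun h => hne (congrFun h [])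
      simp [h2] at this
    · intro c
      exact ⟨{fun _ => c}, by simpa using ⟨[], Or.inl rfl⟩, by simp⟩
  · rintro _ ⟨A, -, rfl⟩
    refine ⟨measurable_const.indicator A.measurableSet, fun x => ?_⟩
    by_cases hx : x ∈ (A : Set X) <;> simp [hx]
  · intro ε hε
    obtain ⟨K, hK⟩ := exists_nat_gt (1 / ε)
    refine tendsto_const_nhds.congr' ((eventually_ge_atTop K).mono fun m hm => ?_)
    symm
    have hnull : Measure.pi (fun _ : Fin m => μ0)
        (⋃ i, ⋃ j, ⋃ (_ : i ≠ j), ⋃ u, {x | x j [] = x i u}) = 0 := by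
      simp only [measure_iUnion_null_iff]
      exact fun i j hij u => pair_null m i j hij u
    refine measure_mono_null ?_ hnull
    rintro x ⟨_, ⟨A, hA, rfl⟩, hx⟩
    by_contra hcon
    simp only [mem_iUnion, not_exists, mem_ofPred_eq] at hcon
    have hK0 : (0 : ℝ) < K := lt_trans (by positivity) hK
    have hm0 : (K : ℝ) ≤ m := by exact_mod_cast hm
    have h1 : ∑ i, (A : Set X).indicator (1 : X → ℝ) (x i) ≤ 1 := by
      classical
      simp only [indicator, Pi.one_apply, Finset.sum_boole]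
      norm_cast
      refine Finset.card_le_one.2 fun i hi j hj => ?_
      by_contra hij
      obtain ⟨u, hu | hu⟩ := hA _ (Finset.mem_filter.1 hi).2 _ (Finset.mem_filter.1 hj).2
      · exact hcon i j hij u (by rw [hu]; simp [sub])
      · exact hcon j i (Ne.symm hij) u (by rw [hu]; simp [sub])
    have h0 : 0 ≤ ∑ i, (A : Set X).indicator (1 : X → ℝ) (x i) :=
      Finset.sum_nonneg fun i _ => indicator_nonneg (fun _ _ => zero_le_one) _
    rw [int_zero, sub_zero, abs_of_nonneg (by positivity), one_div, inv_mul_eq_div,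
      lt_div_iff₀ (by linarith)] at hx
    rw [div_lt_iff₀ hε] at hK
    nlinarith

end Pool.Agent.S19632
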