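import Pool.Statements.S19634
import Pool.Agent.H45.ERWMob
import Pool.Agent.H45.ERWDet

set_option autoImplicit false
open MeasureTheory ProbabilityTheory Filter Topology
open Pool Pool.MP_c7fa75_pr

namespace Pool.Agent.S19634

open Pool.Agent.H45.ERW Pool.Agent.H45.Coin

noncomputable def e0 : ℤ → ℕ → ℝ := fun _ n => pp (n + 1)

lemma tend : Tendsto (fun N : ℕ => (((∑ i ∈ Finset.range N, (2 * e0 0 i - 1) : ℝ)) : EReal)) atTop
    (𝓝 1) := by
  simp only [e0, sum_pp]
  exact (continuous_coe_real_ereal.tendsto 1).comp SS_tendsto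

lemma neg1 : (-1 : EReal).toENNReal = 0 := EReal.toENNReal_of_nonpos (by norm_num)

lemma pos1 : (1 : EReal).toENNReal = 1 := EReal.toENNReal_coe (x := 1)

lemma st_sh (u : ℕ → ℝ) (n : ℕ) : st (sh e0) u n = st (fun _ => pp) u n := by
  induction n with
  | zero => rfl
  | succ n ih => rw [st_succ, st_succ, ih]; rfl

/-- The negation of the preceding statement: For i.i.d. cookie stacks with (WEL) and well-defined drift delta in [0,∞], the k-th walker on the leftover environment (annealed) is a.s. transient when k<delta and transient with probability zero when k≥delta. -/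
theorem result :
    ¬ (∀ (P : Measure (ℤ → ℕ → ℝ)), IsProbabilityMeasure P →
    (∀ᵐ ω ∂P, ∀ (x : ℤ) (n : ℕ), ω x n ∈ Set.Icc (0:ℝ) 1) →
    iIndepFun (fun (x : ℤ) (ω : ℤ → ℕ → ℝ) => ω x) P →
    (∀ x : ℤ, IdentDistrib (fun ω : ℤ → ℕ → ℝ => ω x) (fun ω => ω 0) P P) →
    (∀ x : ℤ, 0 < P {ω | ∀ n, 0 < ω x n} ∧ 0 < P {ω | ∀ n, ω x n < 1}) →
    (∀ᵐ ω ∂P, ∃ s : EReal, Tendsto
        (fun N : ℕ => (((∑ i ∈ Finset.range N, (2 * ω 0 i - 1) : ℝ)) : EReal)) atTop (𝓝 s)) →
    (∫⁻ ω, (-(limsup (fun N : ℕ =>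
        (((∑ i ∈ Finset.range N, (2 * ω 0 i - 1) : ℝ)) : EReal)) atTop)).toENNReal ∂P) < ⊤ →
    (0 : EReal) ≤
      ((∫⁻ ω, (limsup (fun N : ℕ =>
          (((∑ i ∈ Finset.range N, (2 * ω 0 i - 1) : ℝ)) : EReal)) atTop).toENNReal ∂P) : EReal)
      - ((∫⁻ ω, (-(limsup (fun N : ℕ =>
          (((∑ i ∈ Finset.range N, (2 * ω 0 i - 1) : ℝ)) : EReal)) atTop)).toENNReal ∂P) : EReal) →
    ∀ (Θ : Type) [MeasurableSpace Θ] (μ : Measure Θ), IsProbabilityMeasure μ →
    ∀ (W : Θ → ℤ → ℕ → ℝ) (X : ℕ → Θ → ℕ → ℤ) (env : ℕ → Θ → ℤ → ℕ → ℝ),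
    Measurable W → μ.map W = P → (∀ j, Measurable (X j)) →
    env 0 = W →
    (∀ (j : ℕ) (θ : Θ) (x : ℤ) (n : ℕ),
        Tendsto (fun m => |X j θ m|) atTop atTop →
          env (j+1) θ x n = env j θ x (n + Nat.card {m : ℕ // X j θ m = x})) →
    (∀ (j : ℕ) (θ : Θ) (x : ℤ) (n : ℕ),
        ¬ Tendsto (fun m => |X j θ m|) atTop atTop → env (j+1) θ x n = 1/2) →
    (∀ (j : ℕ) (θ : Θ), X j θ 0 = 0) →
    (∀ (j : ℕ) (θ : Θ) (n : ℕ), X j θ (n+1) = X j θ n + 1 ∨ X j θ (n+1) = X j θ n - 1) →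
    (∀ (j n : ℕ),
        condExp
          (MeasurableSpace.comap
            (fun θ => (W θ, (fun i : Fin j => X (i : ℕ) θ), (fun m : Fin (n+1) => X j θ (m : ℕ))))
            inferInstance)
          μ
          (Set.indicator {θ | X j θ (n+1) = X j θ n + 1} (fun _ => (1:ℝ)))
        =ᵐ[μ] fun θ => env j θ (X j θ n) ((Finset.range n).filter (fun m => X j θ m = X j θ n)).card) →
    ∀ k : ℕ, 1 ≤ k →
      (((k : EReal) <
          ((∫⁻ ω, (limsup (fun N : ℕ =>
              (((∑ i ∈ Finset.range N, (2 * ω 0 i - 1) : ℝ)) : EReal)) atTop).toENNReal ∂P) : EReal)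
          - ((∫⁻ ω, (-(limsup (fun N : ℕ =>
              (((∑ i ∈ Finset.range N, (2 * ω 0 i - 1) : ℝ)) : EReal)) atTop)).toENNReal ∂P) : EReal))
        → ∀ᵐ θ ∂μ, Tendsto (fun n => |X (k-1) θ n|) atTop atTop) ∧
      ((((∫⁻ ω, (limsup (fun N : ℕ =>
              (((∑ i ∈ Finset.range N, (2 * ω 0 i - 1) : ℝ)) : EReal)) atTop).toENNReal ∂P) : EReal)
          - ((∫⁻ ω, (-(limsup (fun N : ℕ =>
              (((∑ i ∈ Finset.range N, (2 * ω 0 i - 1) : ℝ)) : EReal)) atTop)).toENNReal ∂P) : EReal)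
          ≤ (k : EReal))
        → μ {θ | Tendsto (fun n => |X (k-1) θ n|) atTop atTop} = 0)) := by
  intro h
  have h0 : ∀ x n, 0 ≤ e0 x n ∧ e0 x n ≤ 1 := fun x n => by
    have := pp_mem (n + 1); simp only [e0]; constructor <;> linarith
  have hm : ∀ x : ℤ, Measurable fun ω : ℤ → ℕ → ℝ => ω x := fun x => measurable_pi_apply x
  have H := h (Measure.dirac e0) inferInstance (by rw [ae_dirac_eq]; exact h0) ?_ ?_ ?_
    (by rw [ae_dirac_eq]; exact ⟨1, tend⟩) (by rw [lintegral_dirac, tend.limsup_eq, neg1]; simp)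
    (by rw [lintegral_dirac, lintegral_dirac, tend.limsup_eq, neg1, pos1]; simp)
    (ℕ → ℕ → ℝ) muT inferInstance (fun _ => e0) (XR e0) (envR e0) measurable_const (by simp)
    (measurable_XR e0) rfl (fun j θ x n ht => by rw [envR, lo, if_pos (by exact ht)]; rfl)
    (fun j θ x n ht => by rw [envR, lo, if_neg (by exact ht)]) (fun _ _ => rfl)
    (fun j θ n => by
      simp only [XR, wk_step]
      split_ifs
      · exact Or.inl rfl
      · exact Or.inr rfl) (cond_step e0 h0) 1 le_rfl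
  · have H2 := H.2 (by rw [lintegral_dirac, lintegral_dirac, tend.limsup_eq, neg1, pos1]; simp)
    have h1 : ∀ᵐ θ ∂muT, Tendsto (fun n => |XR e0 0 θ n|) atTop atTop := by
      have := (measurePreserving_eval_infinitePi (fun _ : ℕ => iidU) 0).quasiMeasurePreserving.ae
        transient_det
      filter_upwards [this] with θ hθ
      simpa only [XR, envR, wk, st_sh] using hθ
    have h2 : ∀ᵐ θ ∂muT, ¬Tendsto (fun n => |XR e0 0 θ n|) atTop atTop :=
      measure_eq_zero_iff_ae_notMem.1 H2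
    obtain ⟨θ, a, b⟩ := (h1.and h2).exists
    exact b a
  · rw [iIndepFun_iff_map_fun_eq_infinitePi_map hm]
    simp only [Measure.map_dirac' (hm _), Measure.infinitePi_dirac]
    exact Measure.map_id
  · intro x
    exact ⟨(hm x).aemeasurable, (hm 0).aemeasurable, by
      rw [Measure.map_dirac' (hm _), Measure.map_dirac' (hm _)]; rfl⟩
  · intro x
    constructor
    · rw [Measure.dirac_apply_of_mem]
      · norm_num
      · intro n; have := pp_mem (n + 1); simp only [e0]; linarith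
    · rw [Measure.dirac_apply_of_mem]
      · norm_num
      · intro n; have := pp_mem (n + 1); simp only [e0]; linarith

end Pool.Agent.S19634
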