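import Pool.Statements.S19658
import Pool.Agent.H61.PercC

set_option autoImplicit false
open MeasureTheory
open Pool Pool.MP_d2b88b_pr

namespace Pool.Agent.S19658

/-- The negation of the preceding statement: For every connected bounded-degree graph quasi-isometric to Z^d and every p in [0,1], in Bernoulli bond percolation with parameter p, almost surely any two infinite open clusters are equal. -/
theorem result :
    ¬ (∀ (d : ℕ) (V : Type) (G : SimpleGraph V), G.Connected →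
    (∃ D : ℕ, ∀ v : V, (G.neighborSet v).encard ≤ (D : ℕ∞)) →
    (∃ (f : V → (Fin d → ℤ)) (C K : ℕ),
        (∀ x y : V,
          (∑ i, |f x i - f y i|) ≤ (C : ℤ) * (G.dist x y : ℤ) + (K : ℤ) ∧
          (G.dist x y : ℤ) ≤ (C : ℤ) * (∑ i, |f x i - f y i|) + (K : ℤ)) ∧
        ∀ z : Fin d → ℤ, ∃ x : V, (∑ i, |z i - f x i|) ≤ (K : ℤ)) →
    ∀ (p : NNReal) (hp : p ≤ 1),
      ∀ᵐ ω ∂(Measure.infinitePi (fun _ : G.edgeSet => (PMF.bernoulli p hp).toMeasure)),
        ∀ c₁ c₂ : (SimpleGraph.fromEdgeSet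
            {e : Sym2 V | ∃ h : e ∈ G.edgeSet, ω ⟨e, h⟩ = true}).ConnectedComponent,
          c₁.supp.Infinite → c₂.supp.Infinite → c₁ = c₂) := by
  intro h
  obtain ⟨T, hT⟩ := Pool.Agent.H61.PercC.main (r := 12) rfl
  refine hT (h 13 _ (Pool.Agent.H61.PercB.G 12 T) (Pool.Agent.H61.PercB.connected T)
    ⟨_, Pool.Agent.H61.PercB.degree_le T⟩ ⟨id, 13, 0, fun x y => ⟨?_, ?_⟩, fun z => ⟨z, by simp⟩⟩
    Pool.Agent.H61.PercC.p0 Pool.Agent.H61.PercC.p0_le)
  · have := Pool.Agent.H61.PercB.l1_le_dist T x y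
    rw [Nat.cast_zero, add_zero]
    exact this
  · have h1 := Pool.Agent.H61.PercB.dist_le T x y
    have h2 := Pool.Agent.H61.PercB.l1_nonneg x y
    change _ ≤ ((13 : ℕ) : ℤ) * Pool.Agent.H61.PercB.l1 x y + ((0 : ℕ) : ℤ)
    omega

end Pool.Agent.S19658
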