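import Pool.Statements.S19710
import Pool.Agent.H44.ET5
import Pool.Agent.H44.ET6

set_option autoImplicit false
open Classical
open Pool Pool.MP_e8d6cf_pr

namespace Pool.Agent.S19710

/-- The negation of the preceding statement: If L(u)=αu³/3+hu−entropy(u) has exactly two maximisers u1≠u2 on [0,1], then under the graph law ∝exp(h·edges+(α/n)·triangles) on n vertices, 6·triangles/n³ converges in law to κ·δ(u1³)+(1−κ)·δ(u2³), κ as given. -/
theorem result :
    ¬ (∀ α h u₁ u₂ : ℝ,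
      u₁ ∈ Set.Icc (0:ℝ) 1 → u₂ ∈ Set.Icc (0:ℝ) 1 → u₁ ≠ u₂ →
      (∀ v ∈ Set.Icc (0:ℝ) 1,
          α * v ^ 3 / 3 + h * v - (v * Real.log v + (1 - v) * Real.log (1 - v))
            ≤ α * u₁ ^ 3 / 3 + h * u₁ - (u₁ * Real.log u₁ + (1 - u₁) * Real.log (1 - u₁))) →
      (α * u₂ ^ 3 / 3 + h * u₂ - (u₂ * Real.log u₂ + (1 - u₂) * Real.log (1 - u₂))
          = α * u₁ ^ 3 / 3 + h * u₁ - (u₁ * Real.log u₁ + (1 - u₁) * Real.log (1 - u₁))) →
      (∀ v ∈ Set.Icc (0:ℝ) 1,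
          α * v ^ 3 / 3 + h * v - (v * Real.log v + (1 - v) * Real.log (1 - v))
            = α * u₁ ^ 3 / 3 + h * u₁ - (u₁ * Real.log u₁ + (1 - u₁) * Real.log (1 - u₁)) →
          v = u₁ ∨ v = u₂) →
      ∀ f : ℝ → ℝ, Continuous f → (∃ C : ℝ, ∀ x, |f x| ≤ C) →
        Filter.Tendsto
          (fun n : ℕ =>
            (∑ G : SimpleGraph (Fin n),
                Real.exp (h * (G.edgeFinset.card : ℝ) + α / (n : ℝ) * ((G.cliqueFinset 3).card : ℝ))
                  * f (6 * ((G.cliqueFinset 3).card : ℝ) / (n : ℝ) ^ 3))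
            / (∑ G : SimpleGraph (Fin n),
                Real.exp (h * (G.edgeFinset.card : ℝ) + α / (n : ℝ) * ((G.cliqueFinset 3).card : ℝ))))
          Filter.atTop
          (nhds
            ((Real.sqrt ((1 - 2 * α * u₁ ^ 2 * (1 - u₁))⁻¹)
                / (Real.sqrt ((1 - 2 * α * u₁ ^ 2 * (1 - u₁))⁻¹)
                    + Real.sqrt ((1 - 2 * α * u₂ ^ 2 * (1 - u₂))⁻¹))) * f (u₁ ^ 3)
              + (1 - Real.sqrt ((1 - 2 * α * u₁ ^ 2 * (1 - u₁))⁻¹)
                / (Real.sqrt ((1 - 2 * α * u₁ ^ 2 * (1 - u₁))⁻¹)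
                    + Real.sqrt ((1 - 2 * α * u₂ ^ 2 * (1 - u₂))⁻¹))) * f (u₂ ^ 3)))) := by
  intro H
  obtain ⟨h, u₁, u₂, p1, p2, p3, p4, p5, p6, p7, p8, p9⟩ := H44.ET.coex
  set v := 1 - u₂ with hv
  have v0 : 0 < v := by linarith
  have hu : u₂ = 1 - v := by ring_nf; linarith
  let f : ℝ → ℝ := fun x => max 0 (min 1 ((x - (u₂ ^ 3 - v)) / v))
  have fc : Continuous f := by fun_prop
  have f0 : ∀ x, 0 ≤ f x := fun x => le_max_left _ _
  have f1 : ∀ x, f x ≤ 1 := fun x => max_le zero_le_one (min_le_left _ _)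
  have fz : ∀ x, x < u₂ ^ 3 - v → f x ≤ 0 := fun x hx =>
    max_le le_rfl ((min_le_right _ _).trans (div_nonpos_of_nonpos_of_nonneg (by linarith) v0.le))
  have q1 : u₁ ^ 3 ≤ 1 / 8 := by
    have := pow_le_pow_left₀ p1.le (show u₁ ≤ 1 / 2 by linarith) 3
    linarith
  have q2 : 729 / 1000 ≤ u₂ ^ 3 := by
    have := pow_le_pow_left₀ (by norm_num) (show 9 / 10 ≤ u₂ by linarith) 3
    linarith
  have fa : f (u₁ ^ 3) = 0 := le_antisymm (fz _ (by linarith)) (f0 _)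
  have fb : f (u₂ ^ 3) = 1 := by
    simp only [f]
    rw [sub_sub_cancel, div_self v0.ne']; simp
  have T := H 24000 h u₁ u₂ ⟨p1.le, by linarith⟩ ⟨by linarith, p3.le⟩ (by intro e; linarith)
    p7 p8 p9 f fc ⟨1, fun x => by rw [abs_of_nonneg (f0 x)]; exact f1 x⟩
  rw [fa, fb] at T
  have s2 : 0 < Real.sqrt ((1 - 2 * 24000 * u₂ ^ 2 * (1 - u₂))⁻¹) := by
    apply Real.sqrt_pos.2
    apply inv_pos.2
    have : u₂ ^ 2 ≤ 1 := by nlinarith
    nlinarith
  have s1 := Real.sqrt_nonneg ((1 - 2 * 24000 * u₁ ^ 2 * (1 - u₁))⁻¹)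
  set a := Real.sqrt ((1 - 2 * 24000 * u₁ ^ 2 * (1 - u₁))⁻¹)
  set b := Real.sqrt ((1 - 2 * 24000 * u₂ ^ 2 * (1 - u₂))⁻¹)
  have hlim : Filter.Tendsto (fun n : ℕ => Real.exp (-(n:ℝ))) Filter.atTop (nhds 0) :=
    Real.tendsto_exp_neg_atTop_nhds_zero.comp tendsto_natCast_atTop_atTop
  have hle := le_of_tendsto_of_tendsto T hlim (by
    filter_upwards [Filter.eventually_ge_atTop 2] with n hn
    have hn0 : 0 < n := by omega
    have hn2 : (2:ℝ) ≤ n := by exact_mod_cast hn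
    simp only [H44.ET.edge_card, H44.ET.tri_card]
    have up := H44.ET.upper hn0 h v0 p5 (by rw [← hu]; exact p6) f f1 (by rw [← hu]; exact fz)
    have lo := H44.ET.lower (n := n) 24000 h (v := 1 - u₁) (by linarith) (by linarith)
    have hZ := lt_of_lt_of_le (Real.exp_pos _) lo
    rw [div_le_iff₀ hZ]
    refine up.trans (le_trans ?_ (mul_le_mul_of_nonneg_left lo (Real.exp_pos _).le))
    rw [← Real.exp_add]
    apply Real.exp_le_exp.2
    have c1 : ∀ u : ℝ, H44.ET.cc n 24000 h (1 - u)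
        = n * (n - 1) / 2 * H44.ET.LL h u - 8000 * (n - 1) * u ^ 3 := by
      intro u
      unfold H44.ET.cc H44.ET.LL
      rw [sub_sub_cancel]
      field_simp
      ring
    rw [hv, c1, c1, p8]
    nlinarith)
  have : 0 < 1 - a / (a + b) := by
    rw [sub_pos, div_lt_one (by linarith)]; linarith
  linarith

end Pool.Agent.S19710
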