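import Pool.Statements.S19740
import Pool.Agent.H61.EdgeProc

set_option autoImplicit false
open scoped Classical
open Pool Pool.MP_f2f003_pr

namespace Pool.Agent.S19740

/-- The negation of the preceding statement: For every connected graphon W on a probability space and every K, in the W-edge-incremental process on n i.i.d. typed vertices, the probability that the first time the graph is K-connected equals the first time its minimum degree is at least K tends to 1. -/
theorem result :
    ¬ (∀ (Ω : Type) [MeasurableSpace Ω] (μ : MeasureTheory.Measure Ω) [MeasureTheory.IsProbabilityMeasure μ]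
    (W : Ω → Ω → ℝ), Measurable (Function.uncurry W) → (∀ a b, W a b = W b a) →
    (∀ a b, 0 ≤ W a b ∧ W a b ≤ 1) →
    (∀ A : Set Ω, MeasurableSet A → 0 < μ A → μ A < 1 →
      0 < ∫ p in A ×ˢ Aᶜ, W p.1 p.2 ∂(μ.prod μ)) →
    ∀ K : ℕ, Filter.Tendsto (fun n : ℕ =>
      ∫ x : Fin n → Ω,
        ∑ l ∈ (((Finset.univ : Finset (Fin n × Fin n)).filter (fun p => p.1 < p.2)).toList.permutations.toFinset.filter
          (fun l : List (Fin n × Fin n) =>
            sInf {t : ℕ | t ≤ l.length ∧ K < n ∧ ∀ S : Finset (Fin n), S.card < K →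
                ((SimpleGraph.fromRel (fun i j : Fin n => (i, j) ∈ l.take t)).induce
                  ((↑S : Set (Fin n))ᶜ)).Connected}
            = sInf {t : ℕ | t ≤ l.length ∧ ∀ v : Fin n,
                K ≤ (SimpleGraph.fromRel (fun i j : Fin n => (i, j) ∈ l.take t)).degree v})),
          ∏ t ∈ Finset.range l.length,
            (if 0 < ((l.drop t).map (fun p => W (x p.1) (x p.2))).sum
              then (((l.drop t).take 1).map (fun p => W (x p.1) (x p.2))).sum /
                ((l.drop t).map (fun p => W (x p.1) (x p.2))).sum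
              else 1 / ((l.drop t).length : ℝ))
        ∂(MeasureTheory.Measure.pi (fun _ : Fin n => μ)))
      Filter.atTop (nhds 1)) := by
  intro h
  have h1 := h ℕ Pool.Agent.H61.EdgeProc.μ Pool.Agent.H61.EdgeProc.W Measurable.of_discrete
    Pool.Agent.H61.EdgeProc.W_symm
    (fun a b => ⟨Pool.Agent.H61.EdgeProc.W_nonneg a b, Pool.Agent.H61.EdgeProc.W_le a b⟩)
    (fun A _ h0 h1 => Pool.Agent.H61.EdgeProc.conn A h0 h1) 1
  obtain ⟨N, hN⟩ := Filter.eventually_atTop.1
    (h1.eventually (lt_mem_nhds (show (1 / 2 : ℝ) < 1 by norm_num)))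
  have h2 : N ≤ 16 * 256 ^ (2 * N + 2) + 16 * 256 ^ (2 * N + 2) := by
    have : 2 * N + 2 < 256 ^ (2 * N + 2) := Nat.lt_pow_self (by norm_num)
    omega
  have h3 := hN _ h2
  have h4 := (Pool.Agent.H61.EdgeProc.integral_le _ N).trans
    (Pool.Agent.H61.EdgeProc.prob_compl N)
  exact absurd (lt_of_lt_of_le h3 h4) (lt_irrefl _)

end Pool.Agent.S19740
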